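import Pool.Agent.RX.RCN.Hz_1

/-! The constants of the tail systems (MP_73ccd0_lc, route M). -/

namespace Pool.Agent.RX.RCN.K

open Set Finset MeasureTheory Pool.Agent.RX.RCRSHalf Pool.Agent.RX.RCG Pool.Agent.RX.RCG.Ct

set_option linter.unusedSectionVars false

/-- the chord bound of `e^p - 1` -/
theorem expm_le {p m q : ℝ} (hp : 0 ≤ p) (hpm : p ≤ m) (hq : Real.exp m - 1 ≤ q * m) :
    Real.exp p - 1 ≤ q * p := by
  rcases eq_or_lt_of_le (hp.trans hpm) with h0 | h0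
  · have : p = 0 := le_antisymm (by rw [h0]; exact hpm) hp
    subst this; simp
  · have hc := convexOn_exp.2 (Set.mem_univ (0 : ℝ)) (Set.mem_univ m)
      (show 0 ≤ 1 - p / m by rw [sub_nonneg, div_le_one h0]; exact hpm)
      (show 0 ≤ p / m from div_nonneg hp h0.le) (by ring)
    have e1 : (1 - p / m) • (0 : ℝ) + (p / m) • m = p := by
      simp only [smul_eq_mul, mul_zero, zero_add]
      field_simp
    rw [e1] at hc
    simp only [smul_eq_mul, Real.exp_zero] at hc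
    have h2 : p / m * (Real.exp m - 1) ≤ p / m * (q * m) :=
      mul_le_mul_of_nonneg_left hq (div_nonneg hp h0.le)
    have e2 : p / m * (q * m) = q * p := by field_simp
    rw [e2] at h2
    linarith

variable {V : Type*} [Fintype V] [DecidableEq V]

/-- the bounds `B` of `D / x` and `E1` of `e^H` -/
structure Hzd.Cf (Z : Hzd) (B E1 : ℝ → ℝ → ℝ) : Prop where
  b : ∀ y ∈ Icc (0 : ℝ) 1, ∀ r t, 0 ≤ r → r ≤ t → t ≤ bt →
    Z.S y t - Z.S y r ≤ B t r * (1 - y * Z.S y t)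
  bp : ∀ r t, 0 ≤ r → r ≤ t → t ≤ bt → t - r ≤ B t r * (1 + r)
  e : ∀ y ∈ Icc (0 : ℝ) 1, ∀ r t, 0 ≤ r → r ≤ t → t ≤ bt →
    1 - y * Z.S y r ≤ E1 t r * (1 - y * Z.S y t)
  ep : ∀ r t, 0 ≤ r → r ≤ t → t ≤ bt → 1 + t ≤ E1 t r * (1 + r)

variable {Z : Hzd} {sl : ℝ → ℝ → ℝ} {B E1 : ℝ → ℝ → ℝ}
variable {x : V → V → ℝ} {P : V → Prop} [DecidablePred P] {t : ℝ}

theorem Hzd.Ok.Hh_nonneg (hZ : Z.Ok sl) (hx : Wt x P 1) (ht : t ∈ Icc (0 : ℝ) bt) (u v : V) {r : ℝ}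
    (hr : r ∈ Icc 0 t) : 0 ≤ Z.Hh x P t u v r := by
  have hm := xw_mem hx u v
  have hr1 : r ∈ Icc (0 : ℝ) bt := ⟨hr.1, hr.2.trans ht.2⟩
  unfold Hzd.Hh
  split_ifs
  · refine sub_nonneg.2 (Real.log_le_log (hZ.den _ hm t ht) ?_)
    have := mul_le_mul_of_nonneg_left (hZ.S_mono hm hr.1 hr.2 ht.2) hm.1
    linarith
  · refine mul_nonneg hm.1 (sub_nonneg.2 (Real.log_le_log (by linarith [hr.1]) (by linarith [hr.2])))

theorem Hzd.Cf.B_nonneg (hC : Z.Cf B E1) {r : ℝ} (hr : 0 ≤ r) (hrt : r ≤ t) (ht : t ≤ bt) :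
    0 ≤ B t r := by
  have h1 := hC.bp r t hr hrt ht
  by_contra h
  push Not at h
  nlinarith

/-- `Dd ≤ x B` -/
theorem Hzd.Cf.Dd_le (hC : Z.Cf B E1) (hZ : Z.Ok sl) (hx : Wt x P 1) (ht : t ∈ Icc (0 : ℝ) bt)
    (u v : V) {r : ℝ} (hr : r ∈ Icc 0 t) : Z.Dd x P t u v r ≤ x u v * B t r := by
  have hm := xw_mem hx u v
  unfold Hzd.Dd
  split_ifs
  · rw [mul_div_assoc]
    refine mul_le_mul_of_nonneg_left ?_ hm.1
    rw [div_le_iff₀ (hZ.den _ hm t ht)]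
    exact hC.b _ hm r t hr.1 hr.2 ht.2
  · refine mul_le_mul_of_nonneg_left ?_ hm.1
    rw [← div_eq_mul_inv, div_le_iff₀ (by linarith [hr.1])]
    exact hC.bp r t hr.1 hr.2 ht.2

end Pool.Agent.RX.RCN.K
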