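import Pool.Agent.RX.RCN.Inst_1
import Pool.Agent.RX.RCN.KerE

/-! The certificate with symbolic functions (MP_73ccd0_lc, route M). -/

namespace Pool.Agent.RX.RCN.K

open Set Finset MeasureTheory Pool.Agent.RX.RCRSHalf Pool.Agent.RX.RCG Pool.Agent.RX.RCG.Ct
open Pool.Agent.RX.RCN.Ker

variable (T : Dt)

/-- the kernel part -/
noncomputable def Dt.ek : Ek where
  sT := T.sT
  ka := T.ka
  ST := T.ST
  SP := T.SP
  kt := T.kt
  kap := T.kap
  j := T.j
  J := T.J
  kp := T.kp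
  kapp := T.kapp
  jp := T.jp
  Jp := T.Jp
  rho := T.rho
  t1 := T.t1
  th := T.th
  G := T.G
  G' := T.G'
  Gs := T.Gs
  Gp := T.Gp
  Dm := T.D
  V := T.V
  V' := T.V'
  W1 := T.W1
  ze := T.Z
  ze' := T.Z'
  k1 := T.k1

noncomputable def Dt.cf : Cf where
  al x t := eta x * T.Z t
  al' x t := eta x * T.Z' t
  mu _ y z t := y * z * (T.F t + (y + z) * T.F3 t + 4 * (y * z) * T.F2 t)
  mu' _ y z t := y * z * (T.F' t + (y + z) * T.F3' t + 4 * (y * z) * T.F2' t)
  ab _ t := T.ek.abf t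
  k x y z t := y * z * (T.C1' x y z t + T.C1' x z y t)
  nb := T.ek.nb

variable {T}

theorem Dt.ek_ok (h : T.Ok) : T.ek.Ok where
  sTn := h.sTn
  sTS := h.sTS
  STn := h.STn
  kan := h.kan
  kaS := h.kaS
  SPn := h.SPn
  dkap := h.dkap
  ckt := h.ckt
  kap0 := h.kap0
  ktn := h.ktn
  hj t ht := by
    show qq t * T.kap t = T.j t
    rw [h.hj t ht]
    unfold qq
    have : (1 + t) ≠ 0 := by linarith [ht.1]
    field_simp
  cj := h.cj
  dJ := h.dJ
  J0 := h.J0
  J1 := h.J1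
  dkapp := h.dkapp
  ckp := h.ckp
  kapp0 := h.kapp0
  kpn := h.kpn
  hjp t ht := by
    show qq t * T.kapp t = T.jp t
    rw [h.hjp t ht]
    unfold qq
    have : (1 + t) ≠ 0 := by linarith [ht.1]
    field_simp
  dJp := h.dJp
  Jp0 := h.Jp0
  Jp1 := h.Jp1
  cGp := h.cGp
  Gp1 := h.Gp1
  Gp2 := h.Gp2
  Gp0 := h.hGp
  k10 := h.k10
  sTk := h.sTk
  rho0 := h.rho0
  th0 := by show 0 ≤ T.th; linarith [h.th0]
  dG := h.dG
  cG := h.cG
  G0 := h.G0
  G'0 := h.G'0
  G1 := h.G1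
  mn := h.Mp
  lb := h.M1
  cGs := h.cGs
  Gs1 := h.GJ1
  Gs2 := h.GJ2
  Gs0 := h.hGs
  dz := h.dZ
  cz := h.cZ
  z0 := h.hZ
  rn t ht := by
    show T.th * T.Z' t ≤ qq t
    unfold qq
    have h1 : 0 < (1 + t) ^ 2 := by have := ht.1; positivity
    rw [← one_div, le_div_iff₀ h1]
    exact h.abd t ht
  rD t ht := by
    show qq t - T.th * T.Z' t ≤ T.D t * (T.ek.abf t) ^ 2
    have h1 : 0 < (1 + t) ^ 2 := by have := ht.1; positivity
    have h0 : (1 + t) ≠ 0 := by linarith [ht.1]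
    have e1 : (qq t - T.th * T.Z' t) * (1 + t) ^ 2 = 1 - T.th * T.Z' t * (1 + t) ^ 2 := by
      unfold qq; field_simp
    have e2 : T.D t * (T.ek.abf t) ^ 2 * (1 + t) ^ 2
        = T.D t * (1 + T.th * T.Z t * (1 + t)) ^ 2 := by
      have : T.ek.abf t = (1 + t)⁻¹ + T.th * T.Z t := rfl
      rw [this]
      field_simp
    refine le_of_mul_le_mul_right ?_ h1
    rw [e1, e2]
    exact h.Di t ht
  dV := h.dV
  V0 := h.V0
  V' := h.Vi
  W11 := h.W1a
  W12 := h.W1b

theorem Dt.cf_ok (h : T.Ok) : T.cf.Ok where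
  da x _ t ht := (h.dZ t ht).const_mul _
  ca x _ := continuousOn_const.mul h.cZ
  dm x _ y _ z _ t ht := (((h.dF t ht).add ((h.dF3 t ht).const_mul _)).add
    ((h.dF2 t ht).const_mul _)).const_mul _
  cm x _ y _ z _ := continuousOn_const.mul ((h.cF.add (continuousOn_const.mul h.cF3)).add
    (continuousOn_const.mul h.cF2))
  al0 x _ := by show eta x * T.Z 0 = 0; rw [h.Z0, mul_zero]
  mu0 x _ y _ z _ := by
    show y * z * (T.F 0 + (y + z) * T.F3 0 + 4 * (y * z) * T.F2 0) = 0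
    rw [h.F0, h.F20, h.F30]; ring
  mus x y z t := by
    show y * z * (T.F' t + (y + z) * T.F3' t + 4 * (y * z) * T.F2' t)
      = z * y * (T.F' t + (z + y) * T.F3' t + 4 * (z * y) * T.F2' t)
    ring
  muz x z t := by
    show 0 * z * (T.F' t + (0 + z) * T.F3' t + 4 * (0 * z) * T.F2' t) = 0
    ring
  mun x _ y hy z hz t ht := by
    show 0 ≤ y * z * (T.F t + (y + z) * T.F3 t + 4 * (y * z) * T.F2 t)
    have h0 := add_nonneg hy.1 hz.1
    have h1 := mul_nonneg hy.1 hz.1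
    have h2 := h.hF t ht
    have h3 := h.hF2 t ht
    have h4 := h.hF3 t ht
    positivity
  aln x hx t ht := mul_nonneg (eta_mem hx).1 (h.hZ t ht)
  a0 x hx := mul_nonneg (eta_mem hx).1 h.Z'0
  m0 x _ y hy z hz := by
    show y * z * (T.F' 0 + (y + z) * T.F3' 0 + 4 * (y * z) * T.F2' 0) ≤ 0
    have h1 := mul_nonneg hy.1 hz.1
    refine mul_nonpos_of_nonneg_of_nonpos h1 ?_
    have h2 := h.F'0
    have h3 := mul_nonpos_of_nonneg_of_nonpos (show 0 ≤ 4 * (y * z) by positivity) h.F2'0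
    have h4 := mul_nonpos_of_nonneg_of_nonpos (add_nonneg hy.1 hz.1) h.F3'0
    linarith
  up x hx y hy hxy t ht := by
    show (1 + t)⁻¹ + x * (eta x * T.Z t) + (1 - x) * (eta y * T.Z t) + T.ek.nb t
      ≤ (1 + t)⁻¹ + T.th * T.Z t
    have hZ := h.hZ t ht
    have h1 : x * eta x + (1 - x) * eta y ≤ 1 / 2 := by
      have h0 : 0 ≤ 1 - x := by linarith [hx.2]
      rcases le_total x (1 / 2) with hx2 | hx2
      · have e1 : x * eta x ≤ x * x := mul_le_mul_of_nonneg_left (eta_mem hx).2.2 hx.1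
        have e2 : (1 - x) * eta y ≤ (1 - x) * (1 / 2) :=
          mul_le_mul_of_nonneg_left (eta_mem hy).2.1 h0
        nlinarith [hx.1]
      · have e1 : x * eta x ≤ x * (1 / 2) := mul_le_mul_of_nonneg_left (eta_mem hx).2.1 hx.1
        have e2 : (1 - x) * eta y ≤ (1 - x) * (1 - x) :=
          mul_le_mul_of_nonneg_left ((eta_mem hy).2.2.trans (by linarith)) h0
        nlinarith
    have h2 : T.ek.nb t ≤ (T.th - 1 / 2) * T.Z t := by
      unfold Ek.nb
      split_ifs with h3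
      · exact h.nb t ht h3
      · exact mul_nonneg (by linarith [h.th0]) hZ
    have h3 := mul_le_mul_of_nonneg_right h1 hZ
    nlinarith

theorem Dt.abf_mul {t : ℝ} (ht : t ∈ Icc (0 : ℝ) bt) :
    T.ek.abf t * (1 + t) = 1 + T.th * T.Z t * (1 + t) := by
  have h0 : (1 + t) ≠ 0 := by linarith [ht.1]
  have : T.ek.abf t = (1 + t)⁻¹ + T.th * T.Z t := rfl
  rw [this, add_mul, inv_mul_cancel₀ h0]

theorem Dt.cg_ok (h : T.Ok) : T.cg.Ok T.cf where
  sg0 t := by
    show 0 ^ 2 * (1 - 0) * (T.F t + 0 * T.F3 t + (1 - 0) * T.F3a t + 4 * (0 * (1 - 0)) * T.F2 t)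
      + T.sT 0 * T.Gs t = 0
    have z : (0 : ℝ) ∈ Icc (0 : ℝ) 1 := (btI bt_m0)
    have h1 := h.sTn 0 z
    have h2 := h.sTS 0 z
    rw [mul_zero] at h2
    rw [le_antisymm h2 h1]
    ring
  sg1 y hy t ht := by
    show T.sgf y t ≤ y * (eta y * T.Z t)
    have := h.sg1 y hy t ht
    unfold Dt.S at this
    linarith
  dC x hx y hy z hz t ht :=
    ((h.dC1 x hx y hy z hz t ht).add (h.dC1 x hx z hz y hy t ht)).const_mul _
  C0 x hx y hy z hz := by
    show 0 ≤ y * z * (T.C1 x y z 0 + T.C1 x z y 0)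
    exact mul_nonneg (mul_nonneg hy.1 hz.1) (add_nonneg (h.C10 x hx y hy z hz)
      (h.C10 x hx z hz y hy))
  kC x _ y _ z _ t _ _ _ _ := le_rfl
  dow x _ t ht := ((h.do0 t ht).add ((h.do1 t ht).const_mul _)).const_mul _
  ow0 x _ := by
    show x * (T.o0 0 + eta x * T.o1 0) ≤ 0
    rw [h.o00, h.o10]; simp
  owi x hx t ht := by
    show x * (T.o0' t + eta x * T.o1' t) * T.ek.abf t
      ≤ x * (((1 + t) ^ 2)⁻¹ - eta x * T.Z' t)
    rw [mul_assoc]
    refine mul_le_mul_of_nonneg_left ?_ hx.1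
    have h1 : 0 < (1 + t) ^ 2 := by have := ht.1; positivity
    have h0 : (1 + t) ≠ 0 := by linarith [ht.1]
    have e0 := T.abf_mul ht
    have i1 := h.o0i t ht
    have i2 := mul_le_mul_of_nonneg_left (h.o1i t ht) (eta_mem hx).1
    refine le_of_mul_le_mul_right ?_ h1
    have e1 : (T.o0' t + eta x * T.o1' t) * T.ek.abf t * (1 + t) ^ 2
        = (T.o0' t + eta x * T.o1' t) * ((1 + t) + T.th * T.Z t * (1 + t) ^ 2) := by
      have : T.ek.abf t * (1 + t) ^ 2 = (1 + t) + T.th * T.Z t * (1 + t) ^ 2 := by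
        rw [pow_two, ← mul_assoc, e0]; ring
      rw [mul_assoc, this]
    have e2 : (((1 + t) ^ 2)⁻¹ - eta x * T.Z' t) * (1 + t) ^ 2
        = 1 - eta x * T.Z' t * (1 + t) ^ 2 := by
      field_simp
    rw [e1, e2]
    linarith
  dom x _ y _ z _ t ht :=
    ((((h.dPF t ht).add ((h.dPF3 t ht).const_mul _)).add
      ((h.dPF2 t ht).const_mul _)).const_mul _).const_mul _
  om0 x _ y _ z _ := by
    show x * (y * z * (T.PF 0 + (y + z) * T.PF3 0 + 4 * (y * z) * T.PF2 0)) ≤ 0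
    rw [h.PF0, h.PF20, h.PF30]; simp
  omi x hx y hy z hz t ht _ _ _ := by
    show x * (y * z * (T.PF' t + (y + z) * T.PF3' t + 4 * (y * z) * T.PF2' t)) * T.ek.abf t
      ≤ x * (y * z * (T.F' t + (y + z) * T.F3' t + 4 * (y * z) * T.F2' t))
    have hT : 0 < 1 + t := by linarith [ht.1]
    have e0 := T.abf_mul ht
    have yz := mul_nonneg hy.1 hz.1
    have i1 := h.PFi t ht
    have i2 := mul_le_mul_of_nonneg_left (h.PF2i t ht) (show 0 ≤ 4 * (y * z) by positivity)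
    have i5 := mul_le_mul_of_nonneg_left (h.PF3i t ht) (add_nonneg hy.1 hz.1)
    rw [← e0] at i1 i2 i5
    have i3 : (T.PF' t + (y + z) * T.PF3' t + 4 * (y * z) * T.PF2' t) * T.ek.abf t
        ≤ T.F' t + (y + z) * T.F3' t + 4 * (y * z) * T.F2' t := by
      refine le_of_mul_le_mul_right ?_ hT
      linarith
    have i4 := mul_le_mul_of_nonneg_left (mul_le_mul_of_nonneg_left i3 yz) hx.1
    linarith
  lam0 x _ t ht := h.lam0 t ht
  lami x _ t ht := by
    show T.lam t * ((1 + t)⁻¹ + T.ek.abf t) ≤ 2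
    have hT : 0 < 1 + t := by linarith [ht.1]
    have e0 := T.abf_mul ht
    refine le_of_mul_le_mul_right ?_ hT
    have e1 : T.lam t * ((1 + t)⁻¹ + T.ek.abf t) * (1 + t)
        = T.lam t * (2 + T.th * T.Z t * (1 + t)) := by
      rw [mul_assoc, add_mul, e0, inv_mul_cancel₀ hT.ne']; ring
    rw [e1]
    exact h.lam1 t ht
  Xp x _ t ht := qq_pos ht
  K20 := h.hK
  N0 x _ t ht := h.hN t ht
  LP x _ y hy z hz t ht _ _ hyz := by
    show -(y * z * (T.F' t + (y + z) * T.F3' t + 4 * (y * z) * T.F2' t)) ≤ T.N t * (y + z)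
    have yz := mul_nonneg hy.1 hz.1
    have h4 : 4 * (y * z) ≤ (y + z) := by nlinarith [sq_nonneg (y - z), hy.1, hz.1]
    have n1 := h.Nf1 t ht
    have n2 := h.Nf2 t ht
    have n3 := h.Nf3 t ht
    have i1 : 0 ≤ 4 * T.N t + (T.F' t + (y + z) * T.F3' t + 4 * (y * z) * T.F2' t) := by
      have := mul_nonneg (show 0 ≤ 1 - (y + z) by linarith) n1
      have := mul_nonneg (show 0 ≤ (y + z) - 4 * (y * z) by linarith) n2
      have := mul_nonneg (show 0 ≤ 4 * (y * z) by positivity) n3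
      linarith
    have i2 := mul_nonneg yz i1
    have i3 := mul_le_mul_of_nonneg_left h4 (h.hN t ht)
    nlinarith
  LP0 x hx _ t ht := by
    show 2 * (1 - x) * T.N t + T.SP * (1 - x) * T.jp t
      < ((1 + t) ^ 2)⁻¹ - eta x * T.Z' t
    have h1 : 0 < (1 + t) ^ 2 := by have := ht.1; positivity
    refine lt_of_mul_lt_mul_right ?_ h1.le
    have e2 : (((1 + t) ^ 2)⁻¹ - eta x * T.Z' t) * (1 + t) ^ 2
        = 1 - eta x * T.Z' t * (1 + t) ^ 2 := by
      rw [sub_mul, inv_mul_cancel₀ h1.ne']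
    rw [e2]
    have h2 := h.LP0 x hx t ht
    rw [h.hjp t ht] at h2
    linarith
  L0 x hx hx0 t ht := by
    show 2 * (1 - x) * T.KK x t + 0
      + (Real.log (qq t) + (((1 + t) ^ 2)⁻¹ - eta x * T.Z' t) / qq t - 1)
      < 2 * (x * (T.o0 t + eta x * T.o1 t))
        + 2 * (T.lam t * (x * (eta x * T.Z t) - T.sgf x t)) - 2 * Real.log (1 + t)
    have hT : 0 < 1 + t := by linarith [ht.1]
    have h0 : (1 + t) ≠ 0 := hT.ne'
    have h1 : 0 < (1 + t) ^ 2 := by positivity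
    have e1 : Real.log (qq t) = -(2 * Real.log (1 + t)) := by
      unfold qq
      rw [Real.log_inv, Real.log_pow]
      norm_num
    have e2 : (((1 + t) ^ 2)⁻¹ - eta x * T.Z' t) / qq t = 1 - eta x * T.Z' t * (1 + t) ^ 2 := by
      unfold qq
      rw [div_inv_eq_mul, sub_mul, inv_mul_cancel₀ h1.ne']
    rw [e1, e2]
    have h2 := h.L0 x hx hx0 t ht
    unfold Dt.S at h2
    linarith
  L1 x hx y hy z hz t ht hxy hxz hyz := by
    show y * z * (T.C1 x y z t + T.C1 x z y t)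
      + y * z * (T.F' t + (y + z) * T.F3' t + 4 * (y * z) * T.F2' t) / qq t
      + (T.W0 t + x * T.W1 t) * T.ka y z
      ≤ T.KK x t * (y + z) + T.lam t * ((y * (eta y * T.Z t) - T.sgf y t)
          + (z * (eta z * T.Z t) - T.sgf z t))
        + (x * (y * z * (T.PF t + (y + z) * T.PF3 t + 4 * (y * z) * T.PF2 t))
          + x * (z * y * (T.PF t + (z + y) * T.PF3 t + 4 * (z * y) * T.PF2 t)))
    have e1 : y * z * (T.F' t + (y + z) * T.F3' t + 4 * (y * z) * T.F2' t) / qq t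
        = (1 + t) ^ 2 * (y * z * (T.F' t + (y + z) * T.F3' t + 4 * (y * z) * T.F2' t)) := by
      unfold qq
      rw [div_inv_eq_mul]; ring
    rw [e1]
    rcases le_total y z with hle | hle
    · have h2 := h.L1 x hx y hy z hz t ht hxy hxz hyz hle
      unfold Dt.S at h2
      linarith
    · have h2 := h.L1 x hx z hz y hy t ht hxz hxy (by linarith) hle
      unfold Dt.S at h2
      have e2 : z * y * (T.C1 x z y t + T.C1 x y z t)
          + (1 + t) ^ 2 * (z * y * (T.F' t + (z + y) * T.F3' t + 4 * (z * y) * T.F2' t))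
          + (T.W0 t + x * T.W1 t) * T.ka z y
          = y * z * (T.C1 x y z t + T.C1 x z y t)
          + (1 + t) ^ 2 * (y * z * (T.F' t + (y + z) * T.F3' t + 4 * (y * z) * T.F2' t))
          + (T.W0 t + x * T.W1 t) * T.ka y z := by rw [h.kac z y]; ring
      rw [e2] at h2
      linarith

theorem Dt.kd_ok (h : T.Ok) : T.ek.kd.Ok T.cf T.cg :=
  T.ek.ok (T.ek_ok h) (fun _ _ => rfl) rfl
    (fun _ _ _ _ => le_rfl) (fun _ _ _ _ => rfl) (fun _ _ _ _ _ _ _ _ _ _ _ => le_rfl)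
    (fun _ _ _ _ => le_rfl)

end Pool.Agent.RX.RCN.K
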