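import Pool.Agent.RX.RCN.Bt

/-! The cherry part of the cost: functions of weights and time (MP_73ccd0_lc, route M). -/

namespace Pool.Agent.RX.RCN.K

open Set

/-- `min x 1/2` -/
noncomputable def eta (x : ℝ) : ℝ := min x (1 / 2)

theorem eta_nonneg {x : ℝ} (hx : 0 ≤ x) : 0 ≤ eta x := le_min hx (by norm_num)

theorem eta_le_half (x : ℝ) : eta x ≤ 1 / 2 := min_le_right _ _

theorem eta_le (x : ℝ) : eta x ≤ x := min_le_left _ _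

/-- The functions of the bound of the cherry cost: `al = eta x * Z`, `mu = y z (F + 4 y z F2)`,
`Gs` the bound of the walk correction, `m = (1+t)^2 (G' + j)`. -/
structure Kf where
  Z : ℝ → ℝ
  Z' : ℝ → ℝ
  F : ℝ → ℝ
  F' : ℝ → ℝ
  F2 : ℝ → ℝ
  F2' : ℝ → ℝ
  F3 : ℝ → ℝ
  F3' : ℝ → ℝ
  Gs : ℝ → ℝ
  m : ℝ → ℝ
  rho : ℝ
  sp : ℝ
  b0 : ℝ → ℝ
  b1 : ℝ → ℝ
  Pe : ℝ → ℝ → ℝ
  Pt : ℝ → ℝ → ℝ → ℝ

namespace Kf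

/-- bound of `(1+t)^2` times the density of an edge of weight `y` -/
noncomputable def b (k : Kf) (y t : ℝ) : ℝ := 1 + (1 - y) * (k.b0 t - 1) + eta y * k.b1 t

/-- bound of the density of an edge of weight `y` -/
noncomputable def fh (k : Kf) (y t : ℝ) : ℝ := k.b y t * ((1 + t) ^ 2)⁻¹

/-- bound of the integrated density of an edge of weight `z` -/
noncomputable def fi (k : Kf) (z t : ℝ) : ℝ :=
  t / (1 + t) - eta z * k.Z t + (1 - z) / 2 * (k.F t + k.F3 t + k.F2 t)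
    + k.sp * (1 - z) * k.Gs t

/-- bound of the main part of the triple ratio -/
noncomputable def mb (k : Kf) (x y z t : ℝ) : ℝ := z * (k.Pe (x + y) t * k.fi z t)

noncomputable def kk (k : Kf) (x y z t : ℝ) : ℝ := k.b y t * k.Pt (x + y) z t

structure Ok (k : Kf) : Prop where
  rho0 : 0 ≤ k.rho
  sp0 : 0 ≤ k.sp
  m0 : ∀ t ∈ Icc (0 : ℝ) bt, 0 ≤ k.m t
  b00 : ∀ t ∈ Icc (0 : ℝ) bt, 0 ≤ k.b0 t - 1 - k.rho * k.sp * k.m t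
  b01 : ∀ t ∈ Icc (0 : ℝ) bt,
    (1 + t) ^ 2 * k.F' t / 2 ≤ k.b0 t - 1 - k.rho * k.sp * k.m t
  b02 : ∀ t ∈ Icc (0 : ℝ) bt,
    (1 + t) ^ 2 * (k.F' t + k.F3' t) / 2 ≤ k.b0 t - 1 - k.rho * k.sp * k.m t
  b03 : ∀ t ∈ Icc (0 : ℝ) bt,
    (1 + t) ^ 2 * (k.F' t + k.F3' t + k.F2' t) / 2 ≤ k.b0 t - 1 - k.rho * k.sp * k.m t
  b1 : ∀ t ∈ Icc (0 : ℝ) bt, -((1 + t) ^ 2 * k.Z' t) ≤ k.b1 t
  z2 : ∀ t ∈ Icc (0 : ℝ) bt, (1 + t) ^ 2 * k.Z' t ≤ 2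
  F0 : ∀ t ∈ Icc (0 : ℝ) bt, 0 ≤ k.F t
  F20 : ∀ t ∈ Icc (0 : ℝ) bt, 0 ≤ k.F2 t
  F30 : ∀ t ∈ Icc (0 : ℝ) bt, 0 ≤ k.F3 t
  fi0 : ∀ z ∈ Icc (0 : ℝ) 1, ∀ t ∈ Icc (0 : ℝ) bt, 0 ≤ k.fi z t
  Pe0 : ∀ w ∈ Icc (0 : ℝ) 1, ∀ t ∈ Icc (0 : ℝ) bt, 0 ≤ k.Pe w t
  lt : ∀ w ∈ Icc (0 : ℝ) 1, ∀ z ∈ Icc (0 : ℝ) 1, w ≤ 2 * (1 - z) → ∀ t ∈ Icc (0 : ℝ) bt,
    z * (k.Pe w t * k.fi z t) < 1
  pt : ∀ w ∈ Icc (0 : ℝ) 1, ∀ z ∈ Icc (0 : ℝ) 1, w ≤ 2 * (1 - z) → ∀ t ∈ Icc (0 : ℝ) bt,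
    k.Pe w t * k.fi z t ≤ (1 + t) * (1 - z * (k.Pe w t * k.fi z t)) * k.Pt w z t

variable {k : Kf} {x y z t : ℝ}

theorem Ok.b_nonneg (hk : k.Ok) (hy : y ∈ Icc (0 : ℝ) 1) (ht : t ∈ Icc (0 : ℝ) bt) :
    0 ≤ k.b y t := by
  unfold b
  have h1 := hk.b00 t ht
  have h2 := hk.m0 t ht
  have h3 := hk.b1 t ht
  have h4 := hk.z2 t ht
  have h5 := eta_nonneg hy.1
  have h6 := eta_le_half y
  have h7 : 0 ≤ k.rho * k.sp * k.m t := mul_nonneg (mul_nonneg hk.rho0 hk.sp0) h2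
  have h8 : 0 ≤ (1 - y) * (k.b0 t - 1) := mul_nonneg (by linarith [hy.2]) (by linarith)
  have h9 : -1 ≤ eta y * k.b1 t := by
    have a1 : -2 ≤ k.b1 t := by linarith
    have a2 : eta y * (-2) ≤ eta y * k.b1 t := mul_le_mul_of_nonneg_left a1 h5
    linarith
  linarith

theorem Ok.fh_nonneg (hk : k.Ok) (hy : y ∈ Icc (0 : ℝ) 1) (ht : t ∈ Icc (0 : ℝ) bt) :
    0 ≤ k.fh y t := by
  have := ht.1
  exact mul_nonneg (hk.b_nonneg hy ht) (by positivity)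

theorem dom (hx : x ∈ Icc (0 : ℝ) 1) (hy : y ∈ Icc (0 : ℝ) 1) (hxy : x + y ≤ 1)
    (hxz : x + z ≤ 1) (hyz : y + z ≤ 1) : x + y ∈ Icc (0 : ℝ) 1 ∧ x + y ≤ 2 * (1 - z) :=
  ⟨⟨add_nonneg hx.1 hy.1, hxy⟩, by linarith⟩

theorem Ok.mb_nonneg (hk : k.Ok) (hx : x ∈ Icc (0 : ℝ) 1) (hy : y ∈ Icc (0 : ℝ) 1)
    (hz : z ∈ Icc (0 : ℝ) 1) (hxy : x + y ≤ 1) (ht : t ∈ Icc (0 : ℝ) bt) :
    0 ≤ k.mb x y z t :=
  mul_nonneg hz.1 (mul_nonneg (hk.Pe0 _ ⟨add_nonneg hx.1 hy.1, hxy⟩ t ht) (hk.fi0 z hz t ht))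

theorem Ok.mb_lt (hk : k.Ok) (hx : x ∈ Icc (0 : ℝ) 1) (hy : y ∈ Icc (0 : ℝ) 1)
    (hz : z ∈ Icc (0 : ℝ) 1) (hxy : x + y ≤ 1) (hxz : x + z ≤ 1) (hyz : y + z ≤ 1)
    (ht : t ∈ Icc (0 : ℝ) bt) : k.mb x y z t < 1 := by
  obtain ⟨h1, h2⟩ := dom hx hy hxy hxz hyz
  exact hk.lt _ h1 z hz h2 t ht

/-- **the cherry cost is bounded by the explicit rate** -/
theorem Ok.side (hk : k.Ok) (hx : x ∈ Icc (0 : ℝ) 1) (hy : y ∈ Icc (0 : ℝ) 1)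
    (hz : z ∈ Icc (0 : ℝ) 1) (hxy : x + y ≤ 1) (hxz : x + z ≤ 1) (hyz : y + z ≤ 1)
    (ht : t ∈ Icc (0 : ℝ) bt) :
    y * ((1 + t) * k.fh y t) * (k.mb x y z t / (1 - k.mb x y z t)) ≤ y * z * k.kk x y z t := by
  obtain ⟨h1, h2⟩ := dom hx hy hxy hxz hyz
  have hT : 0 < 1 + t := by linarith [ht.1]
  have hlt := hk.mb_lt hx hy hz hxy hxz hyz ht
  have hpt := hk.pt _ h1 z hz h2 t ht
  have hb := hk.b_nonneg hy ht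
  set E := k.Pe (x + y) t * k.fi z t with hE
  have hmb : k.mb x y z t = z * E := rfl
  rw [hmb] at hlt ⊢
  have h3 : 0 < 1 - z * E := by linarith
  have h4 : E / (1 - z * E) ≤ (1 + t) * k.Pt (x + y) z t := by
    rw [div_le_iff₀ h3]
    calc E ≤ (1 + t) * (1 - z * E) * k.Pt (x + y) z t := hpt
      _ = _ := by ring
  have e1 : y * ((1 + t) * k.fh y t) * (z * E / (1 - z * E))
      = y * z * (k.b y t * (((1 + t) * ((1 + t) ^ 2)⁻¹) * (E / (1 - z * E)))) := by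
    unfold fh; ring
  rw [e1]
  have e2 : (1 + t) * ((1 + t) ^ 2)⁻¹ * ((1 + t) * k.Pt (x + y) z t) = k.Pt (x + y) z t := by
    field_simp
  refine mul_le_mul_of_nonneg_left ?_ (mul_nonneg hy.1 hz.1)
  unfold kk
  refine mul_le_mul_of_nonneg_left ?_ hb
  calc (1 + t) * ((1 + t) ^ 2)⁻¹ * (E / (1 - z * E))
      ≤ (1 + t) * ((1 + t) ^ 2)⁻¹ * ((1 + t) * k.Pt (x + y) z t) :=
        mul_le_mul_of_nonneg_left h4 (by positivity)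
    _ = _ := e2

end Kf

end Pool.Agent.RX.RCN.K
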