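import Mathlib

/-! The end time of the process and the numbers of the tail (MP_73ccd0_lc, route M). -/

namespace Pool.Agent.RX.RCN

open Set

/-- the end time as a rational number -/
def btq : ℚ := 11 / 20

/-- the end time -/
noncomputable def bt : ℝ := (btq : ℝ)

theorem bt_pos : 0 < bt := by
  have : (0 : ℚ) < btq := by decide +kernel
  unfold bt
  exact_mod_cast this

theorem bt_nn : 0 ≤ bt := bt_pos.le

theorem bt_le : bt ≤ 1 := by
  have : btq ≤ (1 : ℚ) := by decide +kernel
  unfold bt
  exact_mod_cast this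

theorem bt_m0 : (0 : ℝ) ∈ Icc (0 : ℝ) bt := ⟨le_rfl, bt_nn⟩

theorem bt_m1 : bt ∈ Icc (0 : ℝ) bt := ⟨bt_nn, le_rfl⟩

theorem btS : Icc (0 : ℝ) bt ⊆ Icc (0 : ℝ) 1 := Icc_subset_Icc_right bt_le

theorem btI {t : ℝ} (h : t ∈ Icc (0 : ℝ) bt) : t ∈ Icc (0 : ℝ) 1 := btS h

theorem bt2 {t : ℝ} (h : t ∈ Icc (0 : ℝ) bt) : t ≤ 1 := (btI h).2

/-- a bound of the densities at the end time, as a rational number -/
def phq : ℚ := 1 / 2

/-- a bound of the densities at the end time -/
noncomputable def ph : ℝ := (phq : ℝ)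

/-- the slope of the densities of the pendant pairs after the end time, as a rational number -/
def tkq : ℚ := 8 / 5

/-- the slope of the densities of the pendant pairs after the end time -/
noncomputable def tk : ℝ := (tkq : ℝ)

/-- the loss, as a rational number -/
def ddq : ℚ := 6064 / 100000

/-- the loss -/
noncomputable def dd : ℝ := (ddq : ℝ)

/-- a bound of the slopes of the densities of the real pairs after the end time -/
def rmq : ℚ := 184 / 100

/-- a bound of the slopes of the densities of the real pairs after the end time -/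
noncomputable def rm : ℝ := (rmq : ℝ)

/-- a small number, as a rational number -/
def e0q : ℚ := 1 / 10000

/-- a small number -/
noncomputable def e0 : ℝ := (e0q : ℝ)

/-- the length of the tail -/
noncomputable def wt : ℝ := 1 - bt

theorem wt_eq : wt = ((1 - btq : ℚ) : ℝ) := by
  unfold wt bt
  push_cast
  ring

theorem wt_nn : 0 ≤ wt := sub_nonneg.2 bt_le

theorem ph_pos : 0 < ph := by
  have : (0 : ℚ) < phq := by decide +kernel
  unfold ph
  exact_mod_cast this

theorem tk_pos : 0 < tk := by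
  have : (0 : ℚ) < tkq := by decide +kernel
  unfold tk
  exact_mod_cast this

theorem e0_pos : 0 < e0 := by
  have : (0 : ℚ) < e0q := by decide +kernel
  unfold e0
  exact_mod_cast this

theorem tk_lt : tk * (1 - bt) < 1 := by
  have h : tkq * (1 - btq) < (1 : ℚ) := by decide +kernel
  have h2 : ((tkq * (1 - btq) : ℚ) : ℝ) < 1 := by exact_mod_cast h
  unfold bt tk
  push_cast at h2
  exact h2

theorem rm_lt : (rm + e0) * wt < 1 := by
  have h : (rmq + e0q) * (1 - btq) < (1 : ℚ) := by decide +kernel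
  have h2 : (((rmq + e0q) * (1 - btq) : ℚ) : ℝ) < 1 := by exact_mod_cast h
  unfold wt bt rm e0
  push_cast at h2
  exact h2

/-- the condition on the free probabilities at the end -/
theorem bt_ph : (1 : ℝ) / 4 ≤ (1 + bt)⁻¹ - (1 - bt) * ph := by
  have h : (1 : ℚ) / 4 ≤ (1 + btq)⁻¹ - (1 - btq) * phq := by decide +kernel
  have h2 : (((1 : ℚ) / 4 : ℚ) : ℝ) ≤ (((1 + btq)⁻¹ - (1 - btq) * phq : ℚ) : ℝ) := by
    exact_mod_cast h
  unfold bt ph
  push_cast at h2
  exact h2

/-- the condition on the densities of the pendant pairs -/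
theorem bt_q2 : ((1 + bt) ^ 2)⁻¹ ≤ (1 + bt)⁻¹ - (1 - bt) * ph := by
  have h : ((1 + btq) ^ 2)⁻¹ ≤ (1 + btq)⁻¹ - (1 - btq) * phq := by decide +kernel
  have h2 : ((((1 + btq) ^ 2)⁻¹ : ℚ) : ℝ) ≤ (((1 + btq)⁻¹ - (1 - btq) * phq : ℚ) : ℝ) := by
    exact_mod_cast h
  unfold bt ph
  push_cast at h2
  exact h2

theorem q2_ph : ((1 + bt) ^ 2)⁻¹ ≤ ph := by
  have h : ((1 + btq) ^ 2)⁻¹ ≤ phq := by decide +kernel
  have h2 : ((((1 + btq) ^ 2)⁻¹ : ℚ) : ℝ) ≤ (phq : ℝ) := by exact_mod_cast h
  unfold bt ph
  push_cast at h2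
  exact h2

/-- the condition on the slope for the pendant pairs -/
theorem ph_tk : 2 * ph < tk * (1 + bt)⁻¹ := by
  have h : 2 * phq < tkq * (1 + btq)⁻¹ := by decide +kernel
  have h2 : ((2 * phq : ℚ) : ℝ) < ((tkq * (1 + btq)⁻¹ : ℚ) : ℝ) := by exact_mod_cast h
  unfold bt ph tk
  push_cast at h2
  exact h2

/-- a bound of the row sums of the hazards at the end time, as a rational number -/
def mtq : ℚ := 201 / 200

/-- a bound of the row sums of the hazards at the end time -/
noncomputable def mt : ℝ := (mtq : ℝ)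

/-- a bound of all slopes after the end time, as a rational number -/
def vtq : ℚ := 1841 / 1000

/-- a bound of all slopes after the end time -/
noncomputable def vt : ℝ := (vtq : ℝ)

/-- a bound of the weighted errors of the closures at the end time, as a rational number -/
def laq : ℚ := 46 / 100

/-- a bound of the weighted errors of the closures at the end time -/
noncomputable def la : ℝ := (laq : ℝ)

/-- the decrease of the weighted errors with the weight of the vertex, as a rational number -/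
def lbq : ℚ := 405 / 1000

/-- the decrease of the weighted errors with the weight of the vertex -/
noncomputable def lb : ℝ := (lbq : ℝ)

/-- the constant part of the lower bound of the hazards at the end time, as a rational number -/
def hlbq : ℚ := 54 / 100

/-- the constant part of the lower bound of the hazards at the end time -/
noncomputable def hlb : ℝ := (hlbq : ℝ)

/-- the linear part of the lower bound of the hazards at the end time, as a rational number -/
def hlsq : ℚ := 57 / 1000

/-- the linear part of the lower bound of the hazards at the end time -/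
noncomputable def hls : ℝ := (hlsq : ℝ)

/-- the point of the tangent, as a rational number -/
def r0q : ℚ := 14 / 10

/-- the point of the tangent -/
noncomputable def r0 : ℝ := (r0q : ℝ)

/-- a lower bound of the gain of the second order, as a rational number -/
def tgq : ℚ := 840 / 100000

/-- a lower bound of the gain of the second order -/
noncomputable def tgc : ℝ := (tgq : ℝ)

theorem mt_nn : 0 ≤ mt := by
  have : (0 : ℚ) ≤ mtq := by decide +kernel
  unfold mt
  exact_mod_cast this

theorem mt_lt : mt * (1 - bt) < 1 := by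
  have h : mtq * (1 - btq) < (1 : ℚ) := by decide +kernel
  have h2 : ((mtq * (1 - btq) : ℚ) : ℝ) < 1 := by exact_mod_cast h
  unfold bt mt
  push_cast at h2
  exact h2

theorem vt_pos : 0 < vt := by
  have : (0 : ℚ) < vtq := by decide +kernel
  unfold vt
  exact_mod_cast this

theorem vt_le : vt * (1 - bt) ≤ 1 := by
  have h : vtq * (1 - btq) ≤ (1 : ℚ) := by decide +kernel
  have h2 : ((vtq * (1 - btq) : ℚ) : ℝ) ≤ 1 := by exact_mod_cast h
  unfold bt vt
  push_cast at h2
  exact h2

theorem tk_vt : tk ≤ vt := by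
  have h : tkq ≤ vtq := by decide +kernel
  unfold tk vt
  exact_mod_cast h

theorem rm_vt : rm + e0 ≤ vt := by
  have h : rmq + e0q ≤ vtq := by decide +kernel
  have h2 : ((rmq + e0q : ℚ) : ℝ) ≤ (vtq : ℝ) := by exact_mod_cast h
  unfold rm e0 vt
  push_cast at h2
  exact h2

theorem la_nn : 0 ≤ la := by
  have : (0 : ℚ) ≤ laq := by decide +kernel
  unfold la
  exact_mod_cast this

theorem lb_nn : 0 ≤ 1 - lb := by
  have h : lbq ≤ (1 : ℚ) := by decide +kernel
  have h2 : (lbq : ℝ) ≤ 1 := by exact_mod_cast h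
  unfold lb
  linarith

theorem hlb_nn : 0 ≤ hlb := by
  have : (0 : ℚ) ≤ hlbq := by decide +kernel
  unfold hlb
  exact_mod_cast this

theorem hls_nn : 0 ≤ hls := by
  have : (0 : ℚ) ≤ hlsq := by decide +kernel
  unfold hls
  exact_mod_cast this

theorem hl_le : hlb + hls ≤ mt * (1 - lb) := by
  have h : hlbq + hlsq ≤ mtq * (1 - lbq) := by decide +kernel
  have h2 : ((hlbq + hlsq : ℚ) : ℝ) ≤ ((mtq * (1 - lbq) : ℚ) : ℝ) := by exact_mod_cast h
  unfold hlb hls mt lb
  push_cast at h2
  exact h2

/-- the weight of the flux of a side of a cherry in the second order; `y` is the weight of this side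
and `z` the weight of the other side -/
noncomputable def ksw (y z : ℝ) : ℝ := mt * (1 - lb) * (y + z) - (hlb + hls * z) * z

theorem ksw_nn {y z : ℝ} (hy : 0 ≤ y) (hz : 0 ≤ z) (hz1 : z ≤ 1) : 0 ≤ ksw y z := by
  have h1 := hl_le
  have h2 : 0 ≤ mt * (1 - lb) := mul_nonneg mt_nn lb_nn
  have h3 := mul_nonneg h2 hy
  have h4 : hls * z ≤ hls := mul_le_of_le_one_right hls_nn hz1
  have h5 : (hlb + hls * z) * z ≤ mt * (1 - lb) * z := mul_le_mul_of_nonneg_right (by linarith) hz
  unfold ksw
  linarith

theorem ksw_le {y z : ℝ} (hz : 0 ≤ z) (hyz : y + z ≤ 1) : ksw y z ≤ mt * (1 - lb) := by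
  have h2 : 0 ≤ mt * (1 - lb) := mul_nonneg mt_nn lb_nn
  have h3 := mul_le_mul_of_nonneg_left hyz h2
  have h4 : 0 ≤ (hlb + hls * z) * z :=
    mul_nonneg (add_nonneg hlb_nn (mul_nonneg hls_nn hz)) hz
  unfold ksw
  linarith

theorem tgc_nn : 0 ≤ tgc := by
  have : (0 : ℚ) ≤ tgq := by decide +kernel
  unfold tgc
  exact_mod_cast this

theorem tgc_le : tgc * (2 * r0) ≤ wt ^ 2 / 2 := by
  have h : tgq * (2 * r0q) ≤ (1 - btq) ^ 2 / 2 := by decide +kernel
  have h2 : ((tgq * (2 * r0q) : ℚ) : ℝ) ≤ (((1 - btq) ^ 2 / 2 : ℚ) : ℝ) := by exact_mod_cast h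
  unfold tgc r0 wt bt
  push_cast at h2
  exact h2

/-- the gain of the second order: the weight of the tail -/
noncomputable def tG (m v s : ℝ) : ℝ :=
  s ^ 3 / 6 - (4 * m + v) * s ^ 4 / 24 + (6 * m ^ 2 + 4 * m * v) * s ^ 5 / 60
    - (4 * m ^ 3 + 6 * m ^ 2 * v) * s ^ 6 / 120 + (m ^ 4 + 4 * m ^ 3 * v) * s ^ 7 / 210
    - m ^ 4 * v * s ^ 8 / 336

/-- the gain of the second order for rational numbers -/
def tGq (m v s : ℚ) : ℚ :=
  s ^ 3 / 6 - (4 * m + v) * s ^ 4 / 24 + (6 * m ^ 2 + 4 * m * v) * s ^ 5 / 60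
    - (4 * m ^ 3 + 6 * m ^ 2 * v) * s ^ 6 / 120 + (m ^ 4 + 4 * m ^ 3 * v) * s ^ 7 / 210
    - m ^ 4 * v * s ^ 8 / 336

theorem tgc_tG : tgc ≤ tG mt vt wt := by
  have h : tgq ≤ tGq mtq vtq (1 - btq) := by decide +kernel
  have h2 : ((tgq : ℚ) : ℝ) ≤ ((tGq mtq vtq (1 - btq) : ℚ) : ℝ) := by exact_mod_cast h
  have e : tG mt vt wt = ((tGq mtq vtq (1 - btq) : ℚ) : ℝ) := by
    rw [wt_eq]
    unfold tG tGq mt vt
    push_cast
    ring
  unfold tgc
  rw [e]
  exact h2

/-- the selectability of the process: the densities decrease after the end time -/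
noncomputable def cT : ℝ := bt / (1 + bt) + wt * ((1 + bt) ^ 2)⁻¹ - dd

end Pool.Agent.RX.RCN
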