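import Pool.Agent.RX.RCG.CtA
import Pool.Agent.RX.RCG.EStr
import Pool.Agent.RX.RCN.Bt

/-! Selection densities `q² - ψ'`, free probabilities and what is known about the hazards
(MP_73ccd0_lc, route M). -/

namespace Pool.Agent.RX.RCN

open Set Finset Pool.Agent.RX.RCRSHalf Pool.Agent.RX.RCG Pool.Agent.RX.RCG.Ct

set_option linter.unusedSectionVars false

variable {V : Type*} [Fintype V] [DecidableEq V]
variable {x : V → V → ℝ} {P : V → Prop} [DecidablePred P]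
variable {h : ℝ → V → V → ℝ} {H : V → V → ℝ → ℝ}

open Classical in
/-- the selection densities: `q² - ψ'` on real pairs of positive weight, `q²` on the other pairs -/
noncomputable def dn (x : V → V → ℝ) (P : V → Prop) (ψ' : V → V → ℝ → ℝ) (a b : V) (t : ℝ) : ℝ :=
  if (P a ∧ P b) ∧ x a b ≠ 0 then ((1 + t) ^ 2)⁻¹ - ψ' a b t else ((1 + t) ^ 2)⁻¹

/-- the corrections -/
structure Cor (x : V → V → ℝ) (P : V → Prop) (ψ ψ' : V → V → ℝ → ℝ) : Prop where
  s : ∀ a b t, ψ' a b t = ψ' b a t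
  d : ∀ a b, P a → P b → ∀ t ∈ Icc (0 : ℝ) bt, HasDerivAt (ψ a b) (ψ' a b t) t
  c : ∀ a b, ContinuousOn (ψ' a b) (Icc 0 bt)
  z0 : ∀ a b, P a → P b → ψ a b 0 = 0
  pos : ∀ a b, P a → P b → x a b ≠ 0 → ∀ t ∈ Icc (0 : ℝ) bt, ψ' a b t < ((1 + t) ^ 2)⁻¹
  p0 : ∀ a b, P a → P b → x a b ≠ 0 → 0 ≤ ψ' a b 0

variable {ψ ψ' : V → V → ℝ → ℝ}

theorem dn_symm (hx : Wt x P 1) (hψ : Cor x P ψ ψ') (a b : V) (t : ℝ) :
    dn x P ψ' a b t = dn x P ψ' b a t := by
  unfold dn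
  by_cases hP : (P a ∧ P b) ∧ x a b ≠ 0
  · rw [if_pos hP, if_pos ⟨hP.1.symm, by rw [hx.symm b a]; exact hP.2⟩, hψ.s a b]
  · rw [if_neg hP, if_neg (fun hh => hP ⟨hh.1.symm, by rw [hx.symm a b]; exact hh.2⟩)]

theorem dn_real {a b : V} (ha : P a) (hb : P b) (hab : x a b ≠ 0) (t : ℝ) :
    dn x P ψ' a b t = ((1 + t) ^ 2)⁻¹ - ψ' a b t := by
  unfold dn; rw [if_pos ⟨⟨ha, hb⟩, hab⟩]

theorem dn_pend {a b : V} (hab : ¬(P a ∧ P b)) (t : ℝ) :
    dn x P ψ' a b t = ((1 + t) ^ 2)⁻¹ := by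
  unfold dn; rw [if_neg (fun hh => hab hh.1)]

theorem cont_q2 : ContinuousOn (fun t : ℝ => ((1 + t) ^ 2)⁻¹) (Icc 0 bt) := by
  refine ContinuousOn.inv₀ (by fun_prop) fun t ht => ?_
  have := ht.1
  positivity

theorem dn_cont (hψ : Cor x P ψ ψ') (a b : V) : ContinuousOn (dn x P ψ' a b) (Icc 0 bt) := by
  unfold dn
  by_cases hab : (P a ∧ P b) ∧ x a b ≠ 0
  · simp only [if_pos hab]; exact cont_q2.sub (hψ.c a b)
  · simp only [if_neg hab]; exact cont_q2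

theorem dn_pos (hψ : Cor x P ψ ψ') (a b : V) {t : ℝ} (ht : t ∈ Icc (0 : ℝ) bt) :
    0 < dn x P ψ' a b t := by
  unfold dn
  split_ifs with hP
  · have := hψ.pos a b hP.1.1 hP.1.2 hP.2 t ht
    linarith
  · have := ht.1
    positivity

theorem dn_zero (hψ : Cor x P ψ ψ') (a b : V) : dn x P ψ' a b 0 ≤ 1 := by
  unfold dn
  split_ifs with hP
  · have := hψ.p0 a b hP.1.1 hP.1.2 hP.2
    simp only [add_zero, one_pow, inv_one]
    linarith
  · simp

/-- The free probability of a real vertex. -/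
theorem free_eq (hx : Wt x P 1) (hψ : Cor x P ψ ψ') (hh : Haz h H) {t : ℝ}
    (ht : t ∈ Icc (0 : ℝ) bt)
    (hfl : ∀ s ∈ Icc 0 t, ∀ a b, h s a b * pp h a b s = x a b * dn x P ψ' a b s)
    {a : V} (ha : P a) {s : ℝ} (hs : s ∈ Icc 0 t) :
    bb h ∅ a s = (1 + s)⁻¹ + ∑ b, xr x P a b * ψ a b s := by
  have hval : ∀ (b : V) (s : ℝ), xr x P a b * ψ a b s = if P b then x a b * ψ a b s else 0 := by
    intro b s
    unfold xr
    by_cases hb : P b
    · rw [if_pos ⟨ha, hb⟩, if_pos hb]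
    · rw [if_neg (fun hh => hb hh.2), if_neg hb, zero_mul]
  refine bb_eq_of_flux hh (btI ht) a (f := fun b s => x a b * dn x P ψ' a b s)
    (fun s hs b => hfl s hs a b) (α := fun s => (1 + s)⁻¹ + ∑ b, xr x P a b * ψ a b s)
    (fun r hr => ?_) ?_ s hs
  · have hr1 : r ∈ Icc (0 : ℝ) bt := ⟨hr.1, hr.2.trans ht.2⟩
    have hr0 : (1 + r) ≠ 0 := by linarith [hr.1]
    have h1 : HasDerivAt (fun s : ℝ => (1 + s)⁻¹) (-((1 + r) ^ 2)⁻¹) r := by
      have := (((hasDerivAt_id r).const_add 1).inv hr0)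
      refine this.congr_deriv ?_
      simp only [id]; rw [neg_div, one_div]
    have h2 : ∀ b, HasDerivAt (fun s => xr x P a b * ψ a b s)
        (if P b then x a b * ψ' a b r else 0) r := by
      intro b
      by_cases hb : P b
      · have e : (fun s => xr x P a b * ψ a b s) = fun s => x a b * ψ a b s := by
          funext s; rw [hval, if_pos hb]
        rw [e, if_pos hb]
        exact (hψ.d a b ha hb r hr1).const_mul _
      · have e : (fun s => xr x P a b * ψ a b s) = fun _ => 0 := by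
          funext s; rw [hval, if_neg hb]
        rw [e, if_neg hb]
        exact hasDerivAt_const _ _
    refine (h1.add (HasDerivAt.fun_sum fun b _ => h2 b)).congr_deriv ?_
    have e1 : ∑ b, x a b * dn x P ψ' a b r = ∑ b, (x a b * ((1 + r) ^ 2)⁻¹
        - (if P b then x a b * ψ' a b r else 0)) := by
      refine Finset.sum_congr rfl fun b _ => ?_
      by_cases hab : x a b = 0
      · rw [hab]; simp
      by_cases hb : P b
      · rw [dn_real ha hb hab, if_pos hb]; ring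
      · rw [dn_pend (fun hh => hb hh.2), if_neg hb]; ring
    rw [e1, Finset.sum_sub_distrib, ← Finset.sum_mul, hx.row1 a ha, one_mul]
    ring
  · simp only [add_zero, inv_one]
    rw [Finset.sum_eq_zero, add_zero]
    intro b _
    rw [hval]
    split_ifs with hb
    · rw [hψ.z0 a b ha hb, mul_zero]
    · rfl

/-- the free probability of a pendant vertex -/
theorem free_pend (hh : Haz h H) {t : ℝ} (ht : t ∈ Icc (0 : ℝ) bt)
    (hfl : ∀ s ∈ Icc 0 t, ∀ a b, h s a b * pp h a b s = x a b * dn x P ψ' a b s)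
    {a : V} (ha : ¬P a) {s : ℝ} (hs : s ∈ Icc 0 t) :
    bb h ∅ a s = (1 - ∑ b, x a b) + (∑ b, x a b) * (1 + s)⁻¹ := by
  refine bb_eq_of_flux hh (btI ht) a (f := fun b s => x a b * dn x P ψ' a b s)
    (fun s hs b => hfl s hs a b)
    (α := fun s => (1 - ∑ b, x a b) + (∑ b, x a b) * (1 + s)⁻¹) (fun r hr => ?_) (by simp) s hs
  have hr0 : (1 + r) ≠ 0 := by linarith [hr.1]
  have h1 : HasDerivAt (fun s : ℝ => (1 + s)⁻¹) (-((1 + r) ^ 2)⁻¹) r := by
    have := (((hasDerivAt_id r).const_add 1).inv hr0)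
    refine this.congr_deriv ?_
    simp only [id]; rw [neg_div, one_div]
  refine ((h1.const_mul _).const_add _).congr_deriv ?_
  have e1 : ∑ b, x a b * dn x P ψ' a b r = ∑ b, x a b * ((1 + r) ^ 2)⁻¹ :=
    Finset.sum_congr rfl fun b _ => by rw [dn_pend (fun hh => ha hh.1)]
  rw [e1, ← Finset.sum_mul]
  ring

/-- what is known on the interval `[0, t]` -/
structure Kn (x : V → V → ℝ) (P : V → Prop) (φ : V → V → ℝ → ℝ) (ab : ℝ → ℝ → ℝ)
    (h : ℝ → V → V → ℝ) (H : V → V → ℝ → ℝ) (t : ℝ) : Prop where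
  hh : Haz h H
  ht : t ∈ Icc (0 : ℝ) bt
  hz : ∀ s ∈ Icc (0 : ℝ) 1, ∀ a b, x a b = 0 → h s a b = 0
  fl : ∀ s ∈ Icc 0 t, ∀ a b, h s a b * pp h a b s = x a b * φ a b s
  ac : ∀ s ∈ Icc 0 t, ∀ a b, x a b ≠ 0 → φ a b s ≤ Real.exp (H a b s) * pp h a b s
  fp : ∀ s ∈ Icc 0 t, ∀ a b, x a b ≠ 0 → 0 < φ a b s
  pos : ∀ s ∈ Icc 0 t, ∀ a b, x a b ≠ 0 → 0 < pp h a b s
  lo : ∀ s ∈ Icc 0 t, ∀ a, (1 + s)⁻¹ ≤ bb h ∅ a s
  up : ∀ s ∈ Icc 0 t, ∀ a b, P a → P b → a ≠ b → bb h ∅ a s ≤ ab (x a b) s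

variable {φ : V → V → ℝ → ℝ} {ab : ℝ → ℝ → ℝ} {t : ℝ}

theorem Kn.mono (hK : Kn x P φ ab h H t) {t' : ℝ} (h0 : 0 ≤ t') (ht' : t' ≤ t) :
    Kn x P φ ab h H t' where
  hh := hK.hh
  ht := ⟨h0, ht'.trans hK.ht.2⟩
  hz := hK.hz
  fl s hs := hK.fl s ⟨hs.1, hs.2.trans ht'⟩
  ac s hs := hK.ac s ⟨hs.1, hs.2.trans ht'⟩
  fp s hs := hK.fp s ⟨hs.1, hs.2.trans ht'⟩
  pos s hs := hK.pos s ⟨hs.1, hs.2.trans ht'⟩
  lo s hs := hK.lo s ⟨hs.1, hs.2.trans ht'⟩
  up s hs := hK.up s ⟨hs.1, hs.2.trans ht'⟩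

/-- the hazards are at most `x e^H` -/
theorem Kn.haz_le (hK : Kn x P φ ab h H t) (hx : Wt x P 1) (a b : V) {s : ℝ}
    (hs : s ∈ Icc 0 t) : h s a b ≤ x a b * Real.exp (H a b s) := by
  have hs1 : s ∈ Icc (0 : ℝ) bt := ⟨hs.1, hs.2.trans hK.ht.2⟩
  by_cases hab : x a b = 0
  · rw [hK.hz s (btI hs1) a b hab, hab]; simp
  · have h1 := hK.fl s hs a b
    have h2 := hK.ac s hs a b hab
    have h3 := hK.pos s hs a b hab
    have h4 : h s a b * pp h a b s ≤ x a b * Real.exp (H a b s) * pp h a b s := by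
      rw [h1, mul_assoc]
      exact mul_le_mul_of_nonneg_left h2 (hx.nonneg a b)
    exact le_of_mul_le_mul_right h4 h3

/-- lower bound of `e^{-H}` -/
theorem Kn.expH (hK : Kn x P φ ab h H t) (hx : Wt x P 1) (a b : V) {s : ℝ}
    (hs : s ∈ Icc 0 t) : 1 - x a b * s ≤ Real.exp (-H a b s) := by
  have key := nonneg_of_forward (a := 0) (s := t)
    (U := fun s => Real.exp (-H a b s) - (1 - x a b * s))
    (U' := fun s => Real.exp (-H a b s) * (-h s a b) - (0 - x a b * 1))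
    (fun r _ => by
      have d1 : HasDerivAt (fun s => Real.exp (-H a b s))
          (Real.exp (-H a b r) * (-h r a b)) r := ((hK.hh.Hd a b r).neg).exp
      have d2 := ((hasDerivAt_id r).const_mul (x a b)).const_sub 1
      refine (d1.sub d2).congr_deriv ?_
      ring)
    (by simp [hK.hh.H0])
    (fun r hr _ => by
      have h1 := hK.haz_le hx a b hr
      have h2 := mul_le_mul_of_nonneg_left h1 (Real.exp_pos (-H a b r)).le
      have h3 : Real.exp (-H a b r) * (x a b * Real.exp (H a b r)) = x a b := by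
        rw [mul_left_comm, ← Real.exp_add, neg_add_cancel, Real.exp_zero, mul_one]
      rw [h3] at h2
      linarith)
    s hs
  linarith

theorem Kn.dE_le (hK : Kn x P φ ab h H t) (hx : Wt x P 1) (a b : V) {s : ℝ}
    (hs : s ∈ Icc 0 t) : dE h a b s ≤ x a b * ((1 + s) * φ a b s) := by
  have hs1 : s ∈ Icc (0 : ℝ) bt := ⟨hs.1, hs.2.trans hK.ht.2⟩
  have hb := hK.lo s hs a
  have hT : 0 < 1 + s := by linarith [hs.1]
  have hb0 : 0 < bb h ∅ a s := lt_of_lt_of_le (inv_pos.2 hT) hb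
  have hinv : (bb h ∅ a s)⁻¹ ≤ 1 + s := by
    have := inv_anti₀ (inv_pos.2 hT) hb
    rwa [inv_inv] at this
  unfold dE
  rw [hK.fl s hs a b, div_eq_mul_inv]
  by_cases hab : x a b = 0
  · rw [hab]; simp
  have h0 : 0 ≤ x a b * φ a b s := mul_nonneg (hx.nonneg a b) (hK.fp s hs a b hab).le
  calc _ ≤ x a b * φ a b s * (1 + s) := mul_le_mul_of_nonneg_left hinv h0
    _ = _ := by ring

/-- Knowledge from the hypotheses of the certification. -/
theorem kn_of (hx : Wt x P 1) (hψ : Cor x P ψ ψ') {ab : ℝ → ℝ → ℝ}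
    (hlo : ∀ s ∈ Icc (0 : ℝ) bt, ∀ a, P a → 0 ≤ ∑ b, xr x P a b * ψ a b s)
    (hup : ∀ s ∈ Icc (0 : ℝ) bt, ∀ a b, P a → P b → a ≠ b →
      (1 + s)⁻¹ + ∑ c, xr x P a c * ψ a c s ≤ ab (x a b) s)
    (hh : Haz h H) (hz : ∀ s ∈ Icc (0 : ℝ) 1, ∀ a b, x a b = 0 → h s a b = 0)
    (ht : t ∈ Icc (0 : ℝ) bt)
    (hfl : ∀ s ∈ Icc 0 t, ∀ a b, h s a b * pp h a b s = x a b * dn x P ψ' a b s)
    (hac : ∀ s ∈ Icc 0 t, ∀ a b, x a b ≠ 0 → dn x P ψ' a b s ≤ Real.exp (H a b s) * pp h a b s) :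
    Kn x P (dn x P ψ') ab h H t where
  hh := hh
  ht := ht
  hz := hz
  fl := hfl
  ac := hac
  fp s hs a b _ := dn_pos hψ a b ⟨hs.1, hs.2.trans ht.2⟩
  pos s hs a b hab := by
    have h1 := hac s hs a b hab
    have h2 := dn_pos hψ a b (t := s) ⟨hs.1, hs.2.trans ht.2⟩
    exact pos_of_mul_pos_right (lt_of_lt_of_le h2 h1) (Real.exp_pos _).le
  lo s hs a := by
    by_cases ha : P a
    · rw [free_eq hx hψ hh ht hfl ha hs]
      have := hlo s ⟨hs.1, hs.2.trans ht.2⟩ a ha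
      linarith
    · rw [free_pend hh ht hfl ha hs]
      have h1 := hx.row a
      have h2 : (1 + s)⁻¹ ≤ 1 := inv_le_one_of_one_le₀ (by linarith [hs.1])
      nlinarith
  up s hs a b ha hb hab := by
    rw [free_eq hx hψ hh ht hfl ha hs]
    exact hup s ⟨hs.1, hs.2.trans ht.2⟩ a b ha hb hab

end Pool.Agent.RX.RCN
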