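import Pool.Agent.RX.RCE.LamC
import Pool.Agent.RX.RCN.Free

/-! The main factor of the density bound in the certified process (MP_73ccd0_lc, route M). -/

namespace Pool.Agent.RX.RCN

open Set Finset Pool.Agent.RX.RCRSHalf Pool.Agent.RX.RCG Pool.Agent.RX.RCG.Ct Pool.Agent.RX.RCE

set_option linter.unusedSectionVars false

variable {V : Type*} [Fintype V] [DecidableEq V]
variable {x : V → V → ℝ} {P : V → Prop} [DecidablePred P]
variable {h : ℝ → V → V → ℝ} {H : V → V → ℝ → ℝ}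
variable {ψ ψ' : V → V → ℝ → ℝ} {ab : ℝ → ℝ → ℝ} {t : ℝ}

/-- what the main factor needs to know about the corrections -/
structure PsB (L : LD) (x : V → V → ℝ) (P : V → Prop) (ψ : V → V → ℝ → ℝ) : Prop where
  low : ∀ a b, P a → P b → a ≠ b → ∀ s ∈ Icc (0 : ℝ) bt,
    min (x a b) (1 / 2) * L.Z s - (1 - x a b) * L.p0 s ≤ ψ a b s
  upp : ∀ a b, P a → P b → a ≠ b → ∀ s ∈ Icc (0 : ℝ) bt,
    ψ a b s ≤ min (x a b) (1 / 2) * L.Z s + L.n s

theorem Kn.lam_aux (hK : Kn x P (dn x P ψ') ab h H t) (hx : Wt x P 1) (hψ : Cor x P ψ ψ')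
    {L : LD} (hL : L.Ok) (hB : PsB L x P ψ) {a b d : V} (ha : P a) (hb : P b)
    (hab : a ≠ b) (hbd : b ≠ d)
    (hup : ∀ s ∈ Icc 0 t, ab (x a b) s ≤ (1 + s)⁻¹ + L.th * L.Z s)
    {ψ2 ψ2' : ℝ → ℝ} (d2 : ∀ s ∈ Icc 0 t, HasDerivAt ψ2 (ψ2' s) s) (z2 : ψ2 0 = 0)
    (e2 : ∀ s ∈ Icc 0 t, x a d * (((1 + s) ^ 2)⁻¹ - ψ2' s) = x a d * dn x P ψ' a d s)
    (l2 : ∀ s ∈ Icc 0 t,
      x a d * (min (x a d) (1 / 2) * L.Z s - (1 - x a d) * L.p0 s) ≤ x a d * ψ2 s)
    (u2 : ∀ s ∈ Icc 0 t, x a d * ψ2 s ≤ x a d * (min (x a d) (1 / 2) * L.Z s + L.n s))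
    (r2 : ∀ s ∈ Icc 0 t, x a d * ψ2 s = xr x P a d * ψ a d s) :
    ∃ E E' : ℝ → ℝ, (∀ s ∈ Icc 0 t, HasDerivAt E (E' s) s) ∧
      (∀ s ∈ Icc 0 t, (x a b * dn x P ψ' a b s + x a d * dn x P ψ' a d s) / bb h ∅ a s ≤ E' s) ∧
      Real.exp (E t - E 0) ≤ (1 + (x a b + x a d) * t) * (1 + L.dl * t) := by
  have ht := hK.ht
  have hin : ∀ s ∈ Icc 0 t, s ∈ Icc (0 : ℝ) bt := fun s hs => ⟨hs.1, hs.2.trans ht.2⟩
  have e1 : ∀ s ∈ Icc 0 t, x a b * (((1 + s) ^ 2)⁻¹ - ψ' a b s) = x a b * dn x P ψ' a b s := by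
    intro s _
    by_cases h0 : x a b = 0
    · rw [h0, zero_mul, zero_mul]
    · rw [dn_real ha hb h0]
  have hrest : ∀ f : V → ℝ, ∑ e, f e = f b + f d + ∑ e ∈ ({b, d} : Finset V)ᶜ, f e := fun f => by
    rw [← Finset.sum_add_sum_compl ({b, d} : Finset V), Finset.sum_pair hbd]
  have hw1 : x a b + x a d ≤ 1 := by
    have h1 := hx.row a
    rw [hrest] at h1
    have : 0 ≤ ∑ e ∈ ({b, d} : Finset V)ᶜ, x a e := Finset.sum_nonneg fun e _ => hx.nonneg a e
    linarith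
  have hfl : Flb L (x a b) (x a d) t (bb h ∅ a) (fun s => -∑ e, h s a e * pp h a e s)
      (ψ a b) (ψ' a b) ψ2 ψ2' := {
    t0 := ht.1
    x0 := hx.nonneg a b
    y0 := hx.nonneg a d
    lo := fun s hs => hK.lo s hs a
    d1 := fun s hs => hψ.d a b ha hb s (hin s hs)
    d2 := d2
    z1 := hψ.z0 a b ha hb
    z2 := z2
    f1 := fun s hs => by
      rw [e1 s hs]
      exact mul_nonneg (hx.nonneg a b) (dn_pos hψ a b (hin s hs)).le
    f2 := fun s hs => by
      rw [e2 s hs]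
      exact mul_nonneg (hx.nonneg a d) (dn_pos hψ a d (hin s hs)).le
    t1 := ht.2
    xy := hw1
    a0 := by
      have := free_eq hx hψ hK.hh ht hK.fl ha (s := 0) ⟨le_rfl, ht.1⟩
      rw [this]
      rw [Finset.sum_eq_zero]
      · simp
      · intro e _
        by_cases he : P e
        · rw [hψ.z0 a e ha he, mul_zero]
        · unfold xr
          rw [if_neg (fun hh => he hh.2), zero_mul]
    da := fun s hs => bb_deriv hK.hh a (btI (hin s hs))
    up := fun s hs => (hK.up s hs a b ha hb hab).trans (hup s hs)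
    fr := fun s hs => by
      rw [e1 s hs, e2 s hs, neg_neg]
      have h1 : ∑ e, h s a e * pp h a e s = ∑ e, x a e * dn x P ψ' a e s :=
        Finset.sum_congr rfl fun e _ => hK.fl s hs a e
      rw [h1, hrest]
      have : 0 ≤ ∑ e ∈ ({b, d} : Finset V)ᶜ, x a e * dn x P ψ' a e s :=
        Finset.sum_nonneg fun e _ => mul_nonneg (hx.nonneg a e) (dn_pos hψ a e (hin s hs)).le
      linarith
    u1 := fun s hs => mul_le_mul_of_nonneg_left (hB.upp a b ha hb hab s (hin s hs))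
      (hx.nonneg a b)
    u2 := u2
    l1 := fun s hs => mul_le_mul_of_nonneg_left (hB.low a b ha hb hab s (hin s hs))
      (hx.nonneg a b)
    l2 := l2
    hr := fun s hs => by
      have hs1 := hin s hs
      rw [free_eq hx hψ hK.hh ht hK.fl ha hs, hrest, r2 s hs]
      have hxe : xr x P a b = x a b := by unfold xr; rw [if_pos ⟨ha, hb⟩]
      rw [hxe]
      have hp0 := hL.hp0 s hs1
      have hZ := hL.hZ s hs1
      have h1 : -(L.p0 s * ∑ e ∈ ({b, d} : Finset V)ᶜ, x a e)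
          ≤ ∑ e ∈ ({b, d} : Finset V)ᶜ, xr x P a e * ψ a e s := by
        rw [Finset.mul_sum, ← Finset.sum_neg_distrib]
        refine Finset.sum_le_sum fun e _ => ?_
        have hxn := hx.nonneg a e
        have h9 : 0 ≤ L.p0 s * x a e := mul_nonneg hp0 hxn
        by_cases he : P e
        · by_cases hae : a = e
          · rw [← hae, xr_diag hx, zero_mul]
            rw [← hae] at h9
            linarith
          · have h2 := hB.low a e ha he hae s hs1
            have h3 : xr x P a e = x a e := by unfold xr; rw [if_pos ⟨ha, he⟩]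
            rw [h3]
            have h4 := mul_le_mul_of_nonneg_left h2 hxn
            have h5 : 0 ≤ min (x a e) (1 / 2) * L.Z s :=
              mul_nonneg (le_min hxn (by norm_num)) hZ
            have h6 := mul_nonneg hxn h5
            have h7 := mul_nonneg (mul_nonneg hxn hxn) hp0
            nlinarith
        · have h3 : xr x P a e = 0 := by unfold xr; rw [if_neg (fun hh => he hh.2)]
          rw [h3, zero_mul]
          linarith
      have h2 : ∑ e ∈ ({b, d} : Finset V)ᶜ, x a e ≤ 1 - (x a b + x a d) := by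
        have h1 := hx.row a
        rw [hrest] at h1
        linarith
      have h3 := mul_le_mul_of_nonneg_left h2 hp0
      nlinarith }
  obtain ⟨E, E', i1, i2, i3⟩ := hfl.main hL
  refine ⟨E, E', i1, fun s hs => ?_, i3⟩
  have := i2 s hs
  rwa [e1 s hs, e2 s hs] at this

/-- **the main factor**: the second vertex is real or the weight is zero -/
theorem Kn.lam (hK : Kn x P (dn x P ψ') ab h H t) (hx : Wt x P 1) (hψ : Cor x P ψ ψ')
    {L : LD} (hL : L.Ok) (hB : PsB L x P ψ) {a b d : V} (ha : P a) (hb : P b)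
    (hab : a ≠ b) (had : a ≠ d) (hbd : b ≠ d) (hd : P d ∨ x a d = 0)
    (hup : ∀ s ∈ Icc 0 t, ab (x a b) s ≤ (1 + s)⁻¹ + L.th * L.Z s) :
    ∃ E E' : ℝ → ℝ, (∀ s ∈ Icc 0 t, HasDerivAt E (E' s) s) ∧
      (∀ s ∈ Icc 0 t, (x a b * dn x P ψ' a b s + x a d * dn x P ψ' a d s) / bb h ∅ a s ≤ E' s) ∧
      Real.exp (E t - E 0) ≤ (1 + (x a b + x a d) * t) * (1 + L.dl * t) := by
  have ht := hK.ht
  have hin : ∀ s ∈ Icc 0 t, s ∈ Icc (0 : ℝ) bt := fun s hs => ⟨hs.1, hs.2.trans ht.2⟩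
  by_cases hPd : P d
  · refine hK.lam_aux hx hψ hL hB ha hb hab hbd hup (ψ2 := ψ a d) (ψ2' := ψ' a d)
      (fun s hs => hψ.d a d ha hPd s (hin s hs)) (hψ.z0 a d ha hPd) (fun s _ => ?_)
      (fun s hs => mul_le_mul_of_nonneg_left (hB.low a d ha hPd had s (hin s hs))
        (hx.nonneg a d))
      (fun s hs => mul_le_mul_of_nonneg_left (hB.upp a d ha hPd had s (hin s hs))
        (hx.nonneg a d)) (fun s _ => ?_)
    · by_cases h0 : x a d = 0
      · rw [h0, zero_mul, zero_mul]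
      · rw [dn_real ha hPd h0]
    · unfold xr; rw [if_pos ⟨ha, hPd⟩]
  · have h0 : x a d = 0 := hd.resolve_left hPd
    refine hK.lam_aux hx hψ hL hB ha hb hab hbd hup (ψ2 := fun _ => 0) (ψ2' := fun _ => 0)
      (fun s _ => hasDerivAt_const _ _) rfl (fun s _ => ?_) (fun s _ => ?_) (fun s _ => ?_)
      (fun s _ => ?_)
    · rw [h0, zero_mul, zero_mul]
    · rw [h0, zero_mul, zero_mul]
    · rw [h0, zero_mul, zero_mul]
    · unfold xr; rw [if_neg (fun hh => hPd hh.2), h0, zero_mul, zero_mul]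

end Pool.Agent.RX.RCN
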