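import Pool.Agent.RX.RCG.CtA
import Pool.Agent.RX.RCN.Bt
import Pool.Agent.RX.RCRSHalf.Ode

/-! Explicit majorants of the hazards in the certified process with slack
(MP_73ccd0_lc, route M). -/

namespace Pool.Agent.RX.RCN.K

open Set Finset MeasureTheory Pool.Agent.RX.RCRSHalf Pool.Agent.RX.RCG Pool.Agent.RX.RCG.Ct

set_option linter.unusedSectionVars false

/-- `E` is a majorant of `e^{-sl}` and `S` its primitive -/
structure Hzd where
  E : ℝ → ℝ → ℝ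
  S : ℝ → ℝ → ℝ

structure Hzd.Ok (Z : Hzd) (sl : ℝ → ℝ → ℝ) : Prop where
  lo : ∀ x ∈ Icc (0 : ℝ) 1, ∀ t ∈ Icc (0 : ℝ) bt, Real.exp (-sl x t) ≤ Z.E x t
  d : ∀ x ∈ Icc (0 : ℝ) 1, ∀ t ∈ Icc (0 : ℝ) bt, HasDerivAt (Z.S x) (Z.E x t) t
  z : ∀ x ∈ Icc (0 : ℝ) 1, Z.S x 0 = 0
  c : ∀ x ∈ Icc (0 : ℝ) 1, ContinuousOn (Z.E x) (Icc 0 bt)
  den : ∀ x ∈ Icc (0 : ℝ) 1, ∀ t ∈ Icc (0 : ℝ) bt, 0 < 1 - x * Z.S x t

/-- the rate of a real pair of weight `x` -/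
noncomputable def Hzd.rr (Z : Hzd) (x t : ℝ) : ℝ := Z.E x t / (1 - x * Z.S x t)

variable {V : Type*} [Fintype V] [DecidableEq V]

/-- the majorant of the hazards -/
noncomputable def Hzd.hh (Z : Hzd) (x : V → V → ℝ) (P : V → Prop) [DecidablePred P]
    (r : ℝ) (u v : V) : ℝ :=
  if P u ∧ P v then x u v * Z.rr (x u v) r else x u v * (1 + r)⁻¹

/-- the integral of the majorant from `r` to `t` -/
noncomputable def Hzd.Hh (Z : Hzd) (x : V → V → ℝ) (P : V → Prop) [DecidablePred P]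
    (t : ℝ) (u v : V) (r : ℝ) : ℝ :=
  if P u ∧ P v then Real.log (1 - x u v * Z.S (x u v) r) - Real.log (1 - x u v * Z.S (x u v) t)
  else x u v * (Real.log (1 + t) - Real.log (1 + r))

/-- the majorant of `e^{Hh} - 1` -/
noncomputable def Hzd.Dd (Z : Hzd) (x : V → V → ℝ) (P : V → Prop) [DecidablePred P]
    (t : ℝ) (u v : V) (r : ℝ) : ℝ :=
  if P u ∧ P v then
    x u v * (Z.S (x u v) t - Z.S (x u v) r) / (1 - x u v * Z.S (x u v) t)
  else x u v * ((t - r) * (1 + r)⁻¹)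

variable {Z : Hzd} {sl : ℝ → ℝ → ℝ}
variable {x : V → V → ℝ} {P : V → Prop} [DecidablePred P]
variable {h : ℝ → V → V → ℝ} {H : V → V → ℝ → ℝ} {φ : V → V → ℝ → ℝ} {ab : ℝ → ℝ → ℝ} {t : ℝ}

theorem Hzd.Ok.E_pos (hZ : Z.Ok sl) {y : ℝ} (hy : y ∈ Icc (0 : ℝ) 1) {s : ℝ}
    (hs : s ∈ Icc (0 : ℝ) bt) : 0 < Z.E y s :=
  lt_of_lt_of_le (Real.exp_pos _) (hZ.lo y hy s hs)

theorem Hzd.Ok.rr_pos (hZ : Z.Ok sl) {y : ℝ} (hy : y ∈ Icc (0 : ℝ) 1) {s : ℝ}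
    (hs : s ∈ Icc (0 : ℝ) bt) : 0 < Z.rr y s := div_pos (hZ.E_pos hy hs) (hZ.den y hy s hs)

theorem Hzd.Ok.S_mono (hZ : Z.Ok sl) {y : ℝ} (hy : y ∈ Icc (0 : ℝ) 1) {r s : ℝ} (hr : 0 ≤ r)
    (hrs : r ≤ s) (hs : s ≤ bt) : Z.S y r ≤ Z.S y s := by
  have key := nonneg_of_forward (a := r) (s := s)
    (U := fun z => Z.S y z - Z.S y r) (U' := fun z => Z.E y z - 0)
    (fun z hz => (hZ.d y hy z ⟨hr.trans hz.1, hz.2.trans hs⟩).sub (hasDerivAt_const _ _))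
    (by simp)
    (fun z hz _ => by
      have := hZ.E_pos hy (s := z) ⟨hr.trans hz.1, hz.2.trans hs⟩
      linarith)
    s ⟨hrs, le_rfl⟩
  linarith

theorem xw_mem (hx : Wt x P 1) (u v : V) : x u v ∈ Icc (0 : ℝ) 1 :=
  ⟨hx.nonneg u v, (Finset.single_le_sum (f := fun w => x u w) (fun w _ => hx.nonneg u w)
    (Finset.mem_univ v)).trans (hx.row u)⟩

theorem Hzd.Ok.hh_nonneg (hZ : Z.Ok sl) (hx : Wt x P 1) {r : ℝ} (hr : r ∈ Icc (0 : ℝ) bt)
    (u v : V) : 0 ≤ Z.hh x P r u v := by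
  unfold Hzd.hh
  have h1 := hx.nonneg u v
  split_ifs
  · exact mul_nonneg h1 (hZ.rr_pos (xw_mem hx u v) hr).le
  · exact mul_nonneg h1 (inv_nonneg.2 (by linarith [hr.1]))

theorem Hzd.hh_symm (hx : Wt x P 1) (r : ℝ) (u v : V) : Z.hh x P r u v = Z.hh x P r v u := by
  unfold Hzd.hh
  rw [hx.symm u v]
  by_cases hP : P u ∧ P v
  · rw [if_pos hP, if_pos hP.symm]
  · rw [if_neg hP, if_neg fun h' => hP h'.symm]

theorem Hzd.hh_zero {u v : V} (h0 : x u v = 0) (r : ℝ) : Z.hh x P r u v = 0 := by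
  unfold Hzd.hh
  rw [h0]
  split_ifs <;> simp

theorem Hzd.Ok.hh_cont (hZ : Z.Ok sl) (hx : Wt x P 1) (u v : V) :
    ContinuousOn (fun r => Z.hh x P r u v) (Icc 0 bt) := by
  unfold Hzd.hh
  have hm := xw_mem hx u v
  split_ifs
  · refine continuousOn_const.mul ((hZ.c _ hm).div ?_ fun s hs => (hZ.den _ hm s hs).ne')
    exact continuousOn_const.sub (continuousOn_const.mul fun s hs =>
      (hZ.d _ hm s hs).continuousAt.continuousWithinAt)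
  · refine continuousOn_const.mul (ContinuousOn.inv₀ (by fun_prop) fun s hs => ?_)
    linarith [hs.1]

theorem Hzd.Ok.Hh_deriv (hZ : Z.Ok sl) (hx : Wt x P 1) (u v : V) {r : ℝ}
    (hr : r ∈ Icc (0 : ℝ) bt) : HasDerivAt (Z.Hh x P t u v) (-Z.hh x P r u v) r := by
  have hm := xw_mem hx u v
  unfold Hzd.Hh Hzd.hh
  by_cases hP : P u ∧ P v
  · simp only [if_pos hP]
    have h1 := (((hZ.d _ hm r hr).const_mul (x u v)).const_sub 1).log (hZ.den _ hm r hr).ne'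
    refine (h1.sub_const _).congr_deriv ?_
    unfold Hzd.rr
    ring
  · simp only [if_neg hP]
    have h0 : (1 + r) ≠ 0 := by linarith [hr.1]
    have h1 := ((((hasDerivAt_id r).const_add 1).log h0).const_sub (Real.log (1 + t))).const_mul
      (x u v)
    refine h1.congr_deriv ?_
    simp only [id]
    rw [one_div]
    ring

theorem Hzd.Hh_self (u v : V) : Z.Hh x P t u v t = 0 := by
  unfold Hzd.Hh
  split_ifs <;> simp

theorem Hzd.Hh_symm (hx : Wt x P 1) (u v : V) (r : ℝ) : Z.Hh x P t u v r = Z.Hh x P t v u r := by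
  unfold Hzd.Hh
  rw [hx.symm u v]
  by_cases hP : P u ∧ P v
  · rw [if_pos hP, if_pos hP.symm]
  · rw [if_neg hP, if_neg fun h' => hP h'.symm]

/-- `e^{Hh} - 1 ≤ Dd` -/
theorem Hzd.Ok.exp_Hh (hZ : Z.Ok sl) (hx : Wt x P 1) (ht : t ∈ Icc (0 : ℝ) bt) (u v : V) {r : ℝ}
    (hr : r ∈ Icc 0 t) : Real.exp (Z.Hh x P t u v r) - 1 ≤ Z.Dd x P t u v r := by
  have hm := xw_mem hx u v
  have hr1 : r ∈ Icc (0 : ℝ) bt := ⟨hr.1, hr.2.trans ht.2⟩
  unfold Hzd.Hh Hzd.Dd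
  by_cases hP : P u ∧ P v
  · rw [if_pos hP, if_pos hP]
    have h1 := hZ.den _ hm r hr1
    have h2 := hZ.den _ hm t ht
    rw [Real.exp_sub, Real.exp_log h1, Real.exp_log h2]
    refine le_of_eq ?_
    field_simp
    ring
  · rw [if_neg hP, if_neg hP]
    have h0 : 0 < 1 + r := by linarith [hr.1]
    have h1 : 0 < 1 + t := by linarith [ht.1]
    set y := x u v with hy
    have h2 : Real.log (1 + t) - Real.log (1 + r) = Real.log (1 + (t - r) * (1 + r)⁻¹) := by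
      rw [← Real.log_div h1.ne' h0.ne']
      congr 1
      field_simp
      ring
    have h3 : 0 ≤ (t - r) * (1 + r)⁻¹ := mul_nonneg (by linarith [hr.2]) (inv_pos.2 h0).le
    rw [h2, mul_comm y, ← Real.rpow_def_of_pos (by linarith)]
    have h4 := rpow_one_add_le_one_add_mul_self (s := (t - r) * (1 + r)⁻¹) (by linarith)
      hm.1 hm.2
    linarith

theorem Hzd.Ok.Dd_nonneg (hZ : Z.Ok sl) (hx : Wt x P 1) (ht : t ∈ Icc (0 : ℝ) bt) (u v : V)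
    {r : ℝ} (hr : r ∈ Icc 0 t) : 0 ≤ Z.Dd x P t u v r := by
  have hm := xw_mem hx u v
  unfold Hzd.Dd
  split_ifs
  · exact div_nonneg (mul_nonneg hm.1 (sub_nonneg.2 (hZ.S_mono hm hr.1 hr.2 ht.2)))
      (hZ.den _ hm t ht).le
  · exact mul_nonneg hm.1 (mul_nonneg (by linarith [hr.2])
      (inv_nonneg.2 (by linarith [hr.1])))

/-- a bound of the integral of the rate -/
theorem Hzd.Ok.log_le (hZ : Z.Ok sl) {R U : ℝ → ℝ → ℝ}
    (hR : ∀ y ∈ Icc (0 : ℝ) 1, ∀ s ∈ Icc (0 : ℝ) bt, Z.E y s ≤ R y s * (1 - y * Z.S y s))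
    (hU : ∀ y ∈ Icc (0 : ℝ) 1, ∀ s ∈ Icc (0 : ℝ) bt, HasDerivAt (U y) (R y s) s)
    {y : ℝ} (hy : y ∈ Icc (0 : ℝ) 1) {r s : ℝ} (hr : 0 ≤ r) (hrs : r ≤ s) (hs : s ≤ bt) :
    Real.log (1 - y * Z.S y r) - Real.log (1 - y * Z.S y s) ≤ y * (U y s - U y r) := by
  have key := nonneg_of_forward (a := r) (s := s)
    (U := fun z => y * (U y z - U y r)
      - (Real.log (1 - y * Z.S y r) - Real.log (1 - y * Z.S y z)))
    (U' := fun z => y * (R y z - 0) - (0 - (0 - y * Z.E y z) / (1 - y * Z.S y z)))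
    (fun z hz => by
      have hz1 : z ∈ Icc (0 : ℝ) bt := ⟨hr.trans hz.1, hz.2.trans hs⟩
      exact (((hU y hy z hz1).sub (hasDerivAt_const _ _)).const_mul y).sub
        ((hasDerivAt_const _ _).sub (((hasDerivAt_const _ _).sub
          ((hZ.d y hy z hz1).const_mul y)).log (hZ.den y hy z hz1).ne')))
    (by simp)
    (fun z hz _ => by
      have hz1 : z ∈ Icc (0 : ℝ) bt := ⟨hr.trans hz.1, hz.2.trans hs⟩
      have h1 := hR y hy z hz1
      have h2 := hZ.den y hy z hz1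
      have h3 : Z.E y z / (1 - y * Z.S y z) ≤ R y z := by
        rw [div_le_iff₀ h2]; exact h1
      have h4 := mul_le_mul_of_nonneg_left h3 hy.1
      have e : (0 - y * Z.E y z) / (1 - y * Z.S y z)
          = -(y * (Z.E y z / (1 - y * Z.S y z))) := by ring
      rw [e]
      linarith)
    s ⟨hrs, le_rfl⟩
  linarith

/-- the clock rate -/
theorem Hzd.hh_le (hx : Wt x P 1) {mb : ℝ → ℝ}
    (hmb : ∀ y ∈ Icc (0 : ℝ) 1, ∀ s ∈ Icc (0 : ℝ) bt, Z.rr y s ≤ mb s)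
    (hm1 : ∀ s ∈ Icc (0 : ℝ) bt, 1 ≤ mb s) {s : ℝ} (hs : s ∈ Icc (0 : ℝ) bt) (u v : V) :
    Z.hh x P s u v ≤ x u v * mb s := by
  have hm := xw_mem hx u v
  unfold Hzd.hh
  split_ifs
  · exact mul_le_mul_of_nonneg_left (hmb _ hm s hs) hm.1
  · refine mul_le_mul_of_nonneg_left (le_trans ?_ (hm1 s hs)) hm.1
    exact inv_le_one_of_one_le₀ (by linarith [hs.1])

end Pool.Agent.RX.RCN.K
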