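import Pool.Agent.RX.RCM.FmE
import Pool.Agent.RX.RCM.Kt

/-! Rows and columns of the closure exponents of a cell: level 2 (MP_73ccd0_lc, route M). -/

namespace Pool.Agent.RX.RCN.K

open Set Finset MeasureTheory Pool.Agent.RX.RCRSHalf Pool.Agent.RX.RCG Pool.Agent.RX.RCG.Ct

set_option linter.unusedSectionVars false

/-- an integral is at most the increment of a function with a larger derivative -/
theorem int_le_prim {f g g' : ℝ → ℝ} {s : ℝ} (s0 : 0 ≤ s) (cf : ContinuousOn f (Icc 0 s))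
    (dg : ∀ r ∈ Icc 0 s, HasDerivAt g (g' r) r) (h : ∀ r ∈ Icc 0 s, f r ≤ g' r) :
    ∫ r in (0 : ℝ)..s, f r ≤ g s - g 0 := by
  refine intervalIntegral.integral_le_sub_of_hasDeriv_right_of_le s0
    (fun r hr => (dg r hr).continuousAt.continuousWithinAt)
    (fun r hr => (dg r ⟨hr.1.le, hr.2.le⟩).hasDerivWithinAt) ?_ fun r hr => h r ⟨hr.1.le, hr.2.le⟩
  exact cf.integrableOn_Icc

variable {V : Type*} [Fintype V] [DecidableEq V]
variable {Z : Hzd} {F : Lz V} {x : V → V → ℝ} {P : V → Prop} [DecidablePred P]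
variable {sl : ℝ → ℝ → ℝ} {α τ sg : ℝ} {B E1 : ℝ → ℝ → ℝ} {m' q : ℝ} {A D : Finset V}
variable {G : Fm V} {E E' : V → ℝ → ℝ}

/-- continuity of the leading part -/
theorem N1_contN (hZ : Z.Ok sl) (hx : Wt x P 1) (hτ : τ ≤ bt)
    (cT : ∀ e f, ContinuousOn (fun r => K1 Z F x P r e f) (Icc 0 τ)) {σ : ℝ} (hσ : σ ∈ Icc 0 τ)
    (c e : V) : ContinuousOn (N1 Z F x P D σ c e) (Icc 0 σ) := by
  have ci : ContinuousOn (fun ρ => ∑ f ∈ Dᶜ.erase c, K1 Z F x P ρ e f * Z.Dd x P σ c f ρ)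
      (Icc 0 σ) := continuousOn_finsetSum _ fun f _ =>
    ((cT e f).mono (Icc_subset_Icc_right hσ.2)).mul
      ((hZ.Dd_cont hx σ c f).mono (Icc_subset_Icc_right (hσ.2.trans hτ)))
  exact fun r hr => (RCM.bk_deriv hσ.1 ci hr).continuousAt.continuousWithinAt

/-- a tail is continuous -/
theorem tl_contN {X : Finset V} {s : ℝ} {T : ℝ → V → V → ℝ} {D0 n1 : V → ℝ → ℝ}
    {gp gs : V → V → ℝ → ℝ} {c1 c4 : V → ℝ → ℝ} {p n : V → ℝ → ℝ}
    (hl : RCM.Tl X s T D0 n1 gp gs c1 c4 p n) (e : V) :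
    ContinuousOn (p e) (Icc 0 s) ∧ ContinuousOn (n e) (Icc 0 s) := by
  by_cases he : e ∈ X
  · exact ⟨fun r hr => (hl.dp e he r hr).continuousAt.continuousWithinAt,
      fun r hr => (hl.dn e he r hr).continuousAt.continuousWithinAt⟩
  · refine ⟨(continuousOn_const (c := (0 : ℝ))).congr fun r _ => hl.pz e he r,
      (continuousOn_const (c := (0 : ℝ))).congr fun r _ => hl.nz e he r⟩

/-- the integrand of level 2 -/
noncomputable def kint (Z : Hzd) (F : Lz V) (x : V → V → ℝ) (P : V → Prop) [DecidablePred P]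
    (D : Finset V) (c d : V) (τ s : ℝ) (d3 : ℝ → V → V → ℝ → ℝ)
    (c4 : V → V → ℝ → ℝ) (pc nc pd nd : V → ℝ → ℝ) (z : ℝ) : ℝ :=
  RCM.Qo ((Dᶜ.erase c).erase d) (K1 Z F x P z)
      (fun e => N1 Z F x P D τ c e z + nc e z)
      (fun e => d3 s d e z + c4 d e z * pd e z)
    + RCM.Qo ((Dᶜ.erase c).erase d) (K1 Z F x P z)
      (fun e => N1 Z F x P D s d e z + nd e z)
      (fun e => d3 τ c e z + c4 c e z * pc e z)

/-- continuity of the integrand of level 2 -/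
theorem kint_cont (hZ : Z.Ok sl) (hx : Wt x P 1) (hτ : τ ≤ bt)
    (cT : ∀ e f, ContinuousOn (fun r => K1 Z F x P r e f) (Icc 0 τ))
    (cB : ContinuousOn (B τ) (Icc 0 τ)) {s : ℝ} (hs : s ∈ Icc 0 τ) {c d : V}
    {pc nc pd nd : V → ℝ → ℝ} (hc : Tls Z F x P τ D G.gp G.gs B q m' τ c pc nc)
    (hd : Tls Z F x P τ D G.gp G.gs B q m' s d pd nd) :
    ContinuousOn (kint Z F x P D c d τ s (D3f Z x P B τ q m') (C4f Z x P B τ q) pc nc pd nd)
      (Icc 0 s) := by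
  have hτ0 : τ ∈ Icc 0 τ := ⟨hs.1.trans hs.2, le_rfl⟩
  have sub : Icc 0 s ⊆ Icc 0 τ := Icc_subset_Icc_right hs.2
  have cN := fun e => (N1_contN (D := D) hZ hx hτ cT hτ0 c e).mono sub
  have cN' := fun e => N1_contN (D := D) hZ hx hτ cT hs d e
  have cD : ∀ ς ∈ Icc 0 τ, ∀ c e, ContinuousOn (D3f Z x P B τ q m' ς c e) (Icc 0 s) :=
    fun ς hς c e => ((D3f_cont2 (P := P) hZ hx hτ cB q m' c e).comp (f := fun r : ℝ => (ς, r))
      (by fun_prop) fun r hr => ⟨hς, hr⟩).mono sub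
  have c4 : ∀ c e, ContinuousOn (C4f Z x P B τ q c e) (Icc 0 s) := fun c e =>
    continuousOn_const.mul ((continuousOn_const.add ((hZ.Dd_cont hx τ c e).mono
      (Icc_subset_Icc_right (hs.2.trans hτ)))).add ((cB.mono sub).div_const 4))
  have t1 := fun e => tl_contN hc e
  have t2 := fun e => tl_contN hd e
  unfold kint
  exact (RCM.Qo_cont (fun i j => (cT i j).mono sub)
    (fun e => (cN e).add ((t1 e).2.mono sub))
    (fun e => (cD s hs d e).add ((c4 d e).mul (t2 e).1))).add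
    (RCM.Qo_cont (fun i j => (cT i j).mono sub) (fun e => (cN' e).add (t2 e).2)
    (fun e => (cD τ hτ0 c e).add ((c4 c e).mul ((t1 e).1.mono sub))))

end Pool.Agent.RX.RCN.K
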