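import Pool.Agent.RX.RCG.EStr

/-! The exact identity for the pair probabilities (MP_73ccd0_lc, route M). -/

namespace Pool.Agent.RX.RCN

open Set Finset Pool.Agent.RX.RCRSHalf Pool.Agent.RX.RCG

set_option linter.unusedSectionVars false

variable {V : Type*} [Fintype V] [DecidableEq V]
variable {h : ℝ → V → V → ℝ} {H : V → V → ℝ → ℝ}

/-- probability that `a`, `b`, `c` are free at time `t` -/
noncomputable def ppp (h : ℝ → V → V → ℝ) (a b c : V) (t : ℝ) : ℝ := pr (lw h ∅ t) {a, b, c}

/-- the triple ratio `ρ_{bc|a}` -/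
noncomputable def rho (h : ℝ → V → V → ℝ) (a b c : V) (s : ℝ) : ℝ :=
  ppp h a b c s * bb h ∅ a s / (pp h a b s * pp h a c s)

theorem ppp_nonneg (hh : Haz h H) (a b c : V) {s : ℝ} (hs : s ∈ Icc (0 : ℝ) 1) :
    0 ≤ ppp h a b c s := (hh.lw ∅).pr_nonneg _ hs

/-- derivative of the pair probability -/
theorem pp_deriv (hh : Haz h H) {a b : V} (hab : a ≠ b) {s : ℝ} (hs : s ∈ Icc (0 : ℝ) 1) :
    HasDerivAt (pp h a b) (-(h s a b * pp h a b s
      + ∑ c ∈ ({a, b} : Finset V)ᶜ, (h s a c + h s b c) * ppp h a b c s)) s := by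
  refine ((hh.lw ∅).deriv_pr {a, b} hs).congr_deriv ?_
  congr 1
  set W : Finset V := {a, b} with hW
  set f : V → V → ℝ := fun a' b' => h s a' b' * pr (lw h ∅ s) (insert a' (insert b' W)) with hf
  have hfs : ∀ a' b', f a' b' = f b' a' := fun a' b' => by
    simp only [hf]; rw [hh.symm s a' b', Finset.insert_comm]
  have e1 : ∀ a' b', (if a' ∈ W ∨ b' ∈ W then f a' b' else 0)
      = (if a' ∈ W then f a' b' else 0) + (if b' ∈ W then f a' b' else 0)
        - (if a' ∈ W then (if b' ∈ W then f a' b' else 0) else 0) := by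
    intro a' b'
    by_cases h1 : a' ∈ W <;> by_cases h2 : b' ∈ W <;> simp [h1, h2]
  have e2 : ∑ a', ∑ b', (if a' ∈ W ∨ b' ∈ W then f a' b' else 0)
      = 2 * (∑ a' ∈ W, ∑ b' ∈ Wᶜ, f a' b') + ∑ a' ∈ W, ∑ b' ∈ W, f a' b' := by
    simp_rw [e1, Finset.sum_sub_distrib, Finset.sum_add_distrib]
    have s1 : ∑ a', ∑ b', (if a' ∈ W then f a' b' else 0) = ∑ a' ∈ W, ∑ b', f a' b' := by
      rw [← Finset.sum_subset (Finset.subset_univ W)]
      · exact Finset.sum_congr rfl fun a' ha' => by simp [ha']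
      · intro a' _ ha'; simp [ha']
    have s2 : ∑ a', ∑ b', (if b' ∈ W then f a' b' else 0) = ∑ a' ∈ W, ∑ b', f a' b' := by
      rw [Finset.sum_comm, ← s1]
      refine Finset.sum_congr rfl fun a' _ => Finset.sum_congr rfl fun b' _ => ?_
      rw [hfs]
    have s3 : ∑ a', ∑ b', (if a' ∈ W then (if b' ∈ W then f a' b' else 0) else 0)
        = ∑ a' ∈ W, ∑ b' ∈ W, f a' b' := by
      rw [← Finset.sum_subset (Finset.subset_univ W)]
      · refine Finset.sum_congr rfl fun a' ha' => ?_
        rw [← Finset.sum_subset (Finset.subset_univ W)]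
        · exact Finset.sum_congr rfl fun b' hb' => by simp [ha', hb']
        · intro b' _ hb'; simp [hb']
      · intro a' _ ha'; simp [ha']
    have s4 : ∀ a' ∈ W, ∑ b', f a' b' = ∑ b' ∈ W, f a' b' + ∑ b' ∈ Wᶜ, f a' b' := fun a' _ =>
      (Finset.sum_add_sum_compl W (fun b' => f a' b')).symm
    rw [s1, s2, s3, Finset.sum_congr rfl s4, Finset.sum_add_distrib]
    ring
  show (1 / 2) * ∑ a', ∑ b', (if a' ∈ W ∨ b' ∈ W then f a' b' else 0) = _
  rw [e2]
  have e3 : ∑ a' ∈ W, ∑ b' ∈ W, f a' b' = 2 * (h s a b * pp h a b s) := by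
    rw [hW, Finset.sum_pair hab, Finset.sum_pair hab, Finset.sum_pair hab]
    have i1 : insert a (insert b W) = W := by
      rw [hW]; ext z; simp only [Finset.mem_insert, Finset.mem_singleton]; tauto
    have i2 : insert b (insert a W) = W := by
      rw [hW]; ext z; simp only [Finset.mem_insert, Finset.mem_singleton]; tauto
    simp only [hf, i1, i2, hh.diag, zero_mul]
    rw [hh.symm s b a]
    unfold pp
    rw [← hW]
    ring
  have e4 : ∑ a' ∈ W, ∑ b' ∈ Wᶜ, f a' b' = ∑ c ∈ Wᶜ, (h s a c + h s b c) * ppp h a b c s := by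
    rw [Finset.sum_comm]
    refine Finset.sum_congr rfl fun c _ => ?_
    rw [hW, Finset.sum_pair hab]
    have i1 : insert a (insert c W) = {a, b, c} := by
      rw [hW]; ext z; simp only [Finset.mem_insert, Finset.mem_singleton]; tauto
    have i2 : insert b (insert c W) = {a, b, c} := by
      rw [hW]; ext z; simp only [Finset.mem_insert, Finset.mem_singleton]; tauto
    simp only [hf, i1, i2]
    unfold ppp
    ring
  rw [e3, e4]
  ring

/-- the flux through a vertex in terms of the triple ratio -/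
theorem dE_rho (hh : Haz h H) {a b c : V} {s : ℝ} (hs : s ∈ Icc (0 : ℝ) 1)
    (hab : 0 < pp h a b s) (hac : h s a c ≠ 0 → 0 < pp h a c s) :
    dE h a c s * rho h a b c s = h s a c * ppp h a b c s / pp h a b s := by
  have ha := bb_pos hh (Finset.notMem_empty a) hs
  unfold dE rho
  by_cases h0 : h s a c = 0
  · rw [h0]; simp
  · have hac' := hac h0
    field_simp

end Pool.Agent.RX.RCN
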