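import Pool.Agent.RX.RCG.CtA
import Pool.Agent.RX.RCG.CuA
import Pool.Agent.RX.RCN.Bt

/-! The abstract theorem of route M with a general time dependent correction for the walks: cost
bounds and local inequalities imply the exact selectability 1/2 (MP_73ccd0_lc). -/

namespace Pool.Agent.RX.RCN.K

open Set Finset Pool.Agent.RX.RCG Pool.Agent.RX.RCG.Ct

set_option linter.unusedSectionVars false

/-- The functions of the certificate: `al x t` is the own correction, `mu x y z t` the correction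
of the cherry with weights `y`, `z` over an edge of weight `x`, `ab x t` the upper bound of the
free probabilities, `k` the cost rate of a cherry, `nb` a bound of the negative part of the
corrections for the walks. -/
structure Cf where
  al : ℝ → ℝ → ℝ
  al' : ℝ → ℝ → ℝ
  mu : ℝ → ℝ → ℝ → ℝ → ℝ
  mu' : ℝ → ℝ → ℝ → ℝ → ℝ
  ab : ℝ → ℝ → ℝ
  k : ℝ → ℝ → ℝ → ℝ → ℝ
  nb : ℝ → ℝ

/-- basic properties -/
structure Cf.Ok (c : Cf) : Prop where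
  da : ∀ x ∈ Icc (0 : ℝ) 1, ∀ t ∈ Icc (0 : ℝ) bt, HasDerivAt (c.al x) (c.al' x t) t
  ca : ∀ x ∈ Icc (0 : ℝ) 1, ContinuousOn (c.al' x) (Icc 0 bt)
  dm : ∀ x ∈ Icc (0 : ℝ) 1, ∀ y ∈ Icc (0 : ℝ) 1, ∀ z ∈ Icc (0 : ℝ) 1, ∀ t ∈ Icc (0 : ℝ) bt,
    HasDerivAt (c.mu x y z) (c.mu' x y z t) t
  cm : ∀ x ∈ Icc (0 : ℝ) 1, ∀ y ∈ Icc (0 : ℝ) 1, ∀ z ∈ Icc (0 : ℝ) 1,
    ContinuousOn (c.mu' x y z) (Icc 0 bt)
  al0 : ∀ x ∈ Icc (0 : ℝ) 1, c.al x 0 = 0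
  mu0 : ∀ x ∈ Icc (0 : ℝ) 1, ∀ y ∈ Icc (0 : ℝ) 1, ∀ z ∈ Icc (0 : ℝ) 1, c.mu x y z 0 = 0
  mus : ∀ x y z t, c.mu' x y z t = c.mu' x z y t
  muz : ∀ x z t, c.mu' x 0 z t = 0
  mun : ∀ x ∈ Icc (0 : ℝ) 1, ∀ y ∈ Icc (0 : ℝ) 1, ∀ z ∈ Icc (0 : ℝ) 1, ∀ t ∈ Icc (0 : ℝ) bt,
    0 ≤ c.mu x y z t
  aln : ∀ x ∈ Icc (0 : ℝ) 1, ∀ t ∈ Icc (0 : ℝ) bt, 0 ≤ c.al x t
  a0 : ∀ x ∈ Icc (0 : ℝ) 1, 0 ≤ c.al' x 0
  m0 : ∀ x ∈ Icc (0 : ℝ) 1, ∀ y ∈ Icc (0 : ℝ) 1, ∀ z ∈ Icc (0 : ℝ) 1, c.mu' x y z 0 ≤ 0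
  up : ∀ x ∈ Icc (0 : ℝ) 1, ∀ y ∈ Icc (0 : ℝ) 1, x + y ≤ 1 → ∀ t ∈ Icc (0 : ℝ) bt,
    (1 + t)⁻¹ + x * c.al x t + (1 - x) * c.al y t + c.nb t ≤ c.ab x t

variable {V : Type*} [Fintype V] [DecidableEq V]

/-- the functions of the pairs: the correction `Om` for the walks, the cost rate `w` (only
integrable), a bound `CO` of its primitive and the own gain `og` -/
structure Pf (V : Type*) where
  Om : V → V → ℝ → ℝ
  Om' : V → V → ℝ → ℝ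
  w : V → V → ℝ → ℝ
  CO : V → V → ℝ → ℝ
  og : V → V → ℝ → ℝ
  og' : V → V → ℝ → ℝ

/-- the corrections -/
noncomputable def psi (c : Cf) (x : V → V → ℝ) (P : V → Prop) [DecidablePred P]
    (W : Pf V) (a b : V) (t : ℝ) : ℝ :=
  c.al (xr x P a b) t - ∑ d, c.mu (xr x P a b) (xr x P a d) (xr x P b d) t - W.Om a b t

/-- the derivatives of the corrections -/
noncomputable def psi' (c : Cf) (x : V → V → ℝ) (P : V → Prop) [DecidablePred P]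
    (W : Pf V) (a b : V) (t : ℝ) : ℝ :=
  c.al' (xr x P a b) t - ∑ d, c.mu' (xr x P a b) (xr x P a d) (xr x P b d) t - W.Om' a b t

/-- auxiliary functions -/
structure Cg where
  sg : ℝ → ℝ → ℝ
  C : ℝ → ℝ → ℝ → ℝ → ℝ
  C' : ℝ → ℝ → ℝ → ℝ → ℝ
  ow : ℝ → ℝ → ℝ
  ow' : ℝ → ℝ → ℝ
  om : ℝ → ℝ → ℝ → ℝ → ℝ
  om' : ℝ → ℝ → ℝ → ℝ → ℝ
  lam : ℝ → ℝ → ℝ
  X : ℝ → ℝ → ℝ
  K2 : ℝ → ℝ → ℝ
  K3 : ℝ → ℝ → ℝ
  kl : ℝ → ℝ → ℝ → ℝ → ℝ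
  N : ℝ → ℝ → ℝ
  gm : ℝ → ℝ → ℝ

/-- the local inequalities -/
structure Cg.Ok (g : Cg) (c : Cf) : Prop where
  sg0 : ∀ t, g.sg 0 t = 0
  sg1 : ∀ y ∈ Icc (0 : ℝ) 1, ∀ t ∈ Icc (0 : ℝ) bt, g.sg y t ≤ y * c.al y t
  dC : ∀ x ∈ Icc (0 : ℝ) 1, ∀ y ∈ Icc (0 : ℝ) 1, ∀ z ∈ Icc (0 : ℝ) 1, ∀ t ∈ Icc (0 : ℝ) bt,
    HasDerivAt (g.C x y z) (g.C' x y z t) t
  C0 : ∀ x ∈ Icc (0 : ℝ) 1, ∀ y ∈ Icc (0 : ℝ) 1, ∀ z ∈ Icc (0 : ℝ) 1, 0 ≤ g.C x y z 0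
  kC : ∀ x ∈ Icc (0 : ℝ) 1, ∀ y ∈ Icc (0 : ℝ) 1, ∀ z ∈ Icc (0 : ℝ) 1, ∀ t ∈ Icc (0 : ℝ) bt,
    x + y ≤ 1 → x + z ≤ 1 → y + z ≤ 1 → c.k x y z t ≤ g.C' x y z t
  dow : ∀ x ∈ Icc (0 : ℝ) 1, ∀ t ∈ Icc (0 : ℝ) bt, HasDerivAt (g.ow x) (g.ow' x t) t
  ow0 : ∀ x ∈ Icc (0 : ℝ) 1, g.ow x 0 ≤ 0
  owi : ∀ x ∈ Icc (0 : ℝ) 1, ∀ t ∈ Icc (0 : ℝ) bt,
    g.ow' x t * c.ab x t ≤ x * (((1 + t) ^ 2)⁻¹ - c.al' x t)
  dom : ∀ x ∈ Icc (0 : ℝ) 1, ∀ y ∈ Icc (0 : ℝ) 1, ∀ z ∈ Icc (0 : ℝ) 1, ∀ t ∈ Icc (0 : ℝ) bt,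
    HasDerivAt (g.om x y z) (g.om' x y z t) t
  om0 : ∀ x ∈ Icc (0 : ℝ) 1, ∀ y ∈ Icc (0 : ℝ) 1, ∀ z ∈ Icc (0 : ℝ) 1, g.om x y z 0 ≤ 0
  omi : ∀ x ∈ Icc (0 : ℝ) 1, ∀ y ∈ Icc (0 : ℝ) 1, ∀ z ∈ Icc (0 : ℝ) 1, ∀ t ∈ Icc (0 : ℝ) bt,
    x + y ≤ 1 → x + z ≤ 1 → y + z ≤ 1 → g.om' x y z t * c.ab x t ≤ x * c.mu' x y z t
  lam0 : ∀ x ∈ Icc (0 : ℝ) 1, ∀ t ∈ Icc (0 : ℝ) bt, 0 ≤ g.lam x t
  lami : ∀ x ∈ Icc (0 : ℝ) 1, ∀ t ∈ Icc (0 : ℝ) bt, g.lam x t * ((1 + t)⁻¹ + c.ab x t) ≤ 2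
  Xp : ∀ x ∈ Icc (0 : ℝ) 1, ∀ t ∈ Icc (0 : ℝ) bt, 0 < g.X x t
  K20 : ∀ x ∈ Icc (0 : ℝ) 1, ∀ t ∈ Icc (0 : ℝ) bt, 0 ≤ g.K2 x t
  N0 : ∀ x ∈ Icc (0 : ℝ) 1, ∀ t ∈ Icc (0 : ℝ) bt, 0 ≤ g.N x t
  LP : ∀ x ∈ Icc (0 : ℝ) 1, ∀ y ∈ Icc (0 : ℝ) 1, ∀ z ∈ Icc (0 : ℝ) 1, ∀ t ∈ Icc (0 : ℝ) bt,
    x + y ≤ 1 → x + z ≤ 1 → y + z ≤ 1 → -c.mu' x y z t ≤ g.N x t * (y + z)
  LP0 : ∀ x ∈ Icc (0 : ℝ) 1, x ≠ 0 → ∀ t ∈ Icc (0 : ℝ) bt,
    2 * (1 - x) * g.N x t + g.gm x t < ((1 + t) ^ 2)⁻¹ - c.al' x t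
  L0 : ∀ x ∈ Icc (0 : ℝ) 1, x ≠ 0 → ∀ t ∈ Icc (0 : ℝ) bt,
    2 * (1 - x) * g.K2 x t + g.K3 x t
      + (Real.log (g.X x t) + (((1 + t) ^ 2)⁻¹ - c.al' x t) / g.X x t - 1)
      < 2 * g.ow x t + 2 * (g.lam x t * (x * c.al x t - g.sg x t)) - 2 * Real.log (1 + t)
  L1 : ∀ x ∈ Icc (0 : ℝ) 1, ∀ y ∈ Icc (0 : ℝ) 1, ∀ z ∈ Icc (0 : ℝ) 1, ∀ t ∈ Icc (0 : ℝ) bt,
    x + y ≤ 1 → x + z ≤ 1 → y + z ≤ 1 →
    g.C x y z t + c.mu' x y z t / g.X x t + g.kl x y z t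
      ≤ g.K2 x t * (y + z) + g.lam x t * ((y * c.al y t - g.sg y t) + (z * c.al z t - g.sg z t))
        + (g.om x y z t + g.om x z y t)

/-- properties of the functions of the pairs -/
structure Wk (c : Cf) (g : Cg) (x : V → V → ℝ) (P : V → Prop) [DecidablePred P]
    (W : Pf V) : Prop where
  s : ∀ a b t, W.Om' a b t = W.Om' b a t
  d : ∀ a b, ∀ t ∈ Icc (0 : ℝ) bt, HasDerivAt (W.Om a b) (W.Om' a b t) t
  cn : ∀ a b, ContinuousOn (W.Om' a b) (Icc 0 bt)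
  z0 : ∀ a b, W.Om a b 0 = 0
  z1 : ∀ a b, W.Om a b bt + wt * W.Om' a b bt = 0
  n : ∀ a, P a → ∀ t ∈ Icc (0 : ℝ) bt, -c.nb t ≤ ∑ b, xr x P a b * W.Om a b t
  d0 : ∀ a b, W.Om' a b 0 ≤ 0
  ts : ∀ a, P a → ∀ t ∈ Icc (0 : ℝ) bt,
    ∑ b, xr x P a b * (∑ d, c.mu (xr x P a b) (xr x P a d) (xr x P b d) t + W.Om a b t)
      ≤ ∑ b, g.sg (xr x P a b) t
  gm : ∀ a b, P a → P b → a ≠ b → ∀ t ∈ Icc (0 : ℝ) bt, -W.Om' a b t ≤ g.gm (xr x P a b) t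
  wi : ∀ a b, P a → P b → a ≠ b → MeasureTheory.IntegrableOn (W.w a b) (Icc 0 bt)
  wCO : ∀ a b, P a → P b → a ≠ b → ∀ t ∈ Icc (0 : ℝ) bt, ∫ s in (0 : ℝ)..t, W.w a b s ≤ W.CO a b t
  dog : ∀ a b, ∀ t ∈ Icc (0 : ℝ) bt, HasDerivAt (W.og a b) (W.og' a b t) t
  og0 : ∀ a b, W.og a b 0 ≤ 0
  ogs : ∀ a b t, W.og a b t = W.og b a t
  ogi : ∀ a b, P a → P b → a ≠ b → ∀ t ∈ Icc (0 : ℝ) bt,
    W.og' a b t * c.ab (xr x P a b) t ≤ xr x P a b * W.Om' a b t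
  LW : ∀ a b, P a → P b → a ≠ b → ∀ t ∈ Icc (0 : ℝ) bt,
    W.CO a b t + W.Om' a b t / g.X (xr x P a b) t - 2 * W.og a b t
      ≤ ∑ d ∈ ({a, b} : Finset V)ᶜ, g.kl (xr x P a b) (xr x P a d) (xr x P b d) t + g.K3 (xr x P a b) t

/-- the bound of the cost of a pair at the end time -/
noncomputable def Ce (c : Cf) (x : V → V → ℝ) (P : V → Prop) [DecidablePred P] (W : Pf V)
    (u v : V) : ℝ :=
  ∑ d ∈ ({u, v} : Finset V)ᶜ, c.k (xr x P u v) (xr x P u d) (xr x P v d) bt + W.w u v bt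

variable {c : Cf} {g : Cg} {x : V → V → ℝ} {P : V → Prop} [DecidablePred P]
variable {W : Pf V}
variable {h : ℝ → V → V → ℝ} {H : V → V → ℝ → ℝ} {t : ℝ}

theorem xmem1 (hx : Wt x P 1) (a b : V) : xr x P a b ∈ Icc (0 : ℝ) 1 := xmem hx a b

/-- sums over the complement of the pair -/
theorem sum_compl (hx : Wt x P 1) {u v : V} (huv : u ≠ v) :
    ∑ d ∈ ({u, v} : Finset V)ᶜ, xr x P u d ≤ 1 - xr x P u v := by
  have a1 := Cu.sum_split' huv (fun d => xr x P u d) (xr_diag hx u)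
  have a2 := xr_row hx u
  linarith

theorem sum_compl' (hx : Wt x P 1) {u v : V} (huv : u ≠ v) :
    ∑ d ∈ ({u, v} : Finset V)ᶜ, xr x P v d ≤ 1 - xr x P u v := by
  have := sum_compl hx huv.symm
  rwa [Finset.pair_comm, xr_symm hx v u] at this

/-- the sum of the cherries only contains vertices outside the pair -/
theorem mu_compl (hc : c.Ok) (hx : Wt x P 1) {u v : V} (huv : u ≠ v) (t : ℝ) :
    ∑ d, c.mu' (xr x P u v) (xr x P u d) (xr x P v d) t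
      = ∑ d ∈ ({u, v} : Finset V)ᶜ, c.mu' (xr x P u v) (xr x P u d) (xr x P v d) t := by
  rw [← Finset.sum_add_sum_compl ({u, v} : Finset V), Finset.sum_pair huv, xr_diag hx u,
    xr_diag hx v, hc.muz, hc.mus, hc.muz, zero_add, zero_add]

theorem yz_le (hx : Wt x P 1) {u v d : V} (huv : u ≠ v) (hd : d ∈ ({u, v} : Finset V)ᶜ) :
    xr x P u v + xr x P u d ≤ 1 ∧ xr x P u v + xr x P v d ≤ 1 ∧
      xr x P u d + xr x P v d ≤ 1 := by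
  simp only [Finset.mem_compl, Finset.mem_insert, Finset.mem_singleton, not_or] at hd
  refine ⟨xr_add_le hx (Ne.symm hd.2), ?_, ?_⟩
  · rw [xr_symm hx u v]
    exact xr_add_le hx (Ne.symm hd.1)
  · rw [xr_symm hx u d, xr_symm hx v d]
    exact xr_add_le hx huv

/-- the correction of the free probability is bounded below by the local sum -/
theorem corr_low (hW : Wk c g x P W) {a : V} (ha : P a) (ht : t ∈ Icc (0 : ℝ) bt) :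
    ∑ b, (xr x P a b * c.al (xr x P a b) t - g.sg (xr x P a b) t)
      ≤ ∑ b, xr x P a b * psi c x P W a b t := by
  have h1 := hW.ts a ha t ht
  have e1 : ∑ b, xr x P a b * psi c x P W a b t = ∑ b, xr x P a b * c.al (xr x P a b) t
      - ∑ b, xr x P a b * (∑ d, c.mu (xr x P a b) (xr x P a d) (xr x P b d) t
        + W.Om a b t) := by
    rw [← Finset.sum_sub_distrib]
    refine Finset.sum_congr rfl fun b _ => ?_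
    unfold psi; ring
  rw [e1, Finset.sum_sub_distrib]
  linarith

theorem corr_nonneg (hg : g.Ok c) (hx : Wt x P 1) (hW : Wk c g x P W) {a : V} (ha : P a)
    (ht : t ∈ Icc (0 : ℝ) bt) : 0 ≤ ∑ b, xr x P a b * psi c x P W a b t := by
  refine le_trans (Finset.sum_nonneg fun b _ => ?_) (corr_low hW ha ht)
  have := hg.sg1 _ (xmem1 hx a b) t ht
  linarith

/-- upper bound of the free probability -/
theorem corr_up (hc : c.Ok) (hx : Wt x P 1) (hW : Wk c g x P W) {a b : V} (ha : P a)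
    (hab : a ≠ b) (ht : t ∈ Icc (0 : ℝ) bt) :
    (1 + t)⁻¹ + ∑ d, xr x P a d * psi c x P W a d t ≤ c.ab (xr x P a b) t := by
  have hy := xmem1 hx a b
  have h1 : ∑ d, xr x P a d * psi c x P W a d t
      ≤ ∑ d, xr x P a d * c.al (xr x P a d) t + c.nb t := by
    have h0 : ∑ d, xr x P a d * psi c x P W a d t
        ≤ ∑ d, (xr x P a d * c.al (xr x P a d) t - xr x P a d * W.Om a d t) := by
      refine Finset.sum_le_sum fun d _ => ?_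
      rw [← mul_sub]
      refine mul_le_mul_of_nonneg_left ?_ (xr_nonneg hx a d)
      unfold psi
      have b1 : 0 ≤ ∑ e, c.mu (xr x P a d) (xr x P a e) (xr x P d e) t :=
        Finset.sum_nonneg fun e _ =>
          hc.mun _ (xmem1 hx a d) _ (xmem1 hx a e) _ (xmem1 hx d e) t ht
      linarith
    rw [Finset.sum_sub_distrib] at h0
    have b2 := hW.n a ha t ht
    linarith
  rw [Cu.sum_split' hab (fun d => xr x P a d * c.al (xr x P a d) t)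
    (by simp only [xr_diag hx, zero_mul])] at h1
  set y := xr x P a b with hyd
  set S := ∑ d ∈ ({a, b} : Finset V)ᶜ, xr x P a d * c.al (xr x P a d) t with hS
  set B := c.ab y t - (1 + t)⁻¹ - y * c.al y t - c.nb t with hB
  have h2 : (1 - y) * S ≤ (∑ d ∈ ({a, b} : Finset V)ᶜ, xr x P a d) * B := by
    rw [hS, Finset.mul_sum, Finset.sum_mul]
    refine Finset.sum_le_sum fun d hd => ?_
    have h3 := yz_le hx hab hd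
    have h4 := hc.up y hy _ (xmem1 hx a d) h3.1 t ht
    have h5 : (1 - y) * c.al (xr x P a d) t ≤ B := by rw [hB]; linarith
    have h6 := mul_le_mul_of_nonneg_left h5 (xr_nonneg hx a d)
    calc _ = xr x P a d * ((1 - y) * c.al (xr x P a d) t) := by ring
      _ ≤ _ := h6
  have hB0 : 0 ≤ B := by
    have h4 := hc.up y hy 0 ⟨le_rfl, zero_le_one⟩ (by linarith [hy.2]) t ht
    have h5 := mul_nonneg (show 0 ≤ 1 - y by linarith [hy.2])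
      (hc.aln 0 ⟨le_rfl, zero_le_one⟩ t ht)
    rw [hB]; linarith
  have h3 : (∑ d ∈ ({a, b} : Finset V)ᶜ, xr x P a d) * B ≤ (1 - y) * B :=
    mul_le_mul_of_nonneg_right (sum_compl hx hab) hB0
  have h4 : S ≤ B := by
    by_cases hy1 : y = 1
    · -- all other weights vanish
      have : S = 0 := by
        rw [hS]
        refine Finset.sum_eq_zero fun d hd => ?_
        have h3 := (yz_le hx hab hd).1
        have h5 := xr_nonneg hx a d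
        have : xr x P a d = 0 := by
          rw [← hyd, hy1] at h3
          linarith
        rw [this, zero_mul]
      rw [this]; exact hB0
    · have hy2 : 0 < 1 - y := by
        have := lt_of_le_of_ne hy.2 hy1
        linarith
      exact le_of_mul_le_mul_left (h2.trans h3) hy2
  rw [hB] at h4
  linarith

end Pool.Agent.RX.RCN.K
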