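import Pool.Agent.RX.RCN.Free
import Pool.Agent.RX.RCN.Ident
import Pool.Agent.RX.RCN.MainK_1

/-! The acceptance condition with a slack: the certificate leaves room between `phi` and the
probability of the isolated pair, which gives smaller hazards (MP_73ccd0_lc, route M). -/

namespace Pool.Agent.RX.RCN.K

open Set Finset Pool.Agent.RX.RCRSHalf Pool.Agent.RX.RCG Pool.Agent.RX.RCG.Ct

set_option linter.unusedSectionVars false

variable {V : Type*} [Fintype V] [DecidableEq V]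

/-- The acceptance condition with the slack `sl x t` in the exponent, for the real pairs. -/
def Sg (x : V → V → ℝ) (P : V → Prop) (φ : V → V → ℝ → ℝ) (sl : ℝ → ℝ → ℝ)
    (h : ℝ → V → V → ℝ) (H : V → V → ℝ → ℝ) (t : ℝ) : Prop :=
  ∀ s ∈ Icc 0 t, ∀ a b, P a → P b → x a b ≠ 0 →
    φ a b s * Real.exp (sl (x a b) s) ≤ Real.exp (H a b s) * pp h a b s

/-- The slack of the certificate. -/
structure Sl (c : Cf) (g : Cg) (sl : ℝ → ℝ → ℝ) : Prop where
  n : ∀ x ∈ Icc (0 : ℝ) 1, ∀ t ∈ Icc (0 : ℝ) bt, 0 ≤ sl x t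
  cn : ∀ x ∈ Icc (0 : ℝ) 1, ContinuousOn (sl x) (Icc 0 bt)
  z : ∀ x ∈ Icc (0 : ℝ) 1, sl x 0 ≤ c.al' x 0
  L0 : ∀ x ∈ Icc (0 : ℝ) 1, x ≠ 0 → ∀ t ∈ Icc (0 : ℝ) bt,
    2 * (1 - x) * g.K2 x t + g.K3 x t
      + (Real.log (g.X x t) + (((1 + t) ^ 2)⁻¹ - c.al' x t) / g.X x t - 1) + sl x t
      < 2 * g.ow x t + 2 * (g.lam x t * (x * c.al x t - g.sg x t)) - 2 * Real.log (1 + t)

/-- the closures at the end time: the hazards and the four point probabilities -/
structure Ec (c : Cf) (x : V → V → ℝ) (P : V → Prop) [DecidablePred P] (W : Pf V)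
    (sl : ℝ → ℝ → ℝ) (L : V → V → V → V → ℝ) : Prop where
  hm : ∀ (h : ℝ → V → V → ℝ) (H : V → V → ℝ → ℝ),
    Kn x P (dn x P (psi' c x P W)) c.ab h H bt → Sg x P (dn x P (psi' c x P W)) sl h H bt →
    ∀ u e, h bt u e ≤ x u e * mt
  L0 : ∀ a b d e, 0 ≤ L a b d e
  cl : ∀ (h : ℝ → V → V → ℝ) (H : V → V → ℝ → ℝ),
    Kn x P (dn x P (psi' c x P W)) c.ab h H bt → Sg x P (dn x P (psi' c x P W)) sl h H bt →
    ∀ a b, P a → P b → a ≠ b → x a b ≠ 0 → ∀ d ∈ ({a, b} : Finset V)ᶜ,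
    ∀ e ∈ ({a, b, d} : Finset V)ᶜ,
      ppp h a b e bt * ppp h a b d bt
        ≤ Real.exp (L a b d e) * (pr (lw h ∅ bt) {a, b, d, e} * pp h a b bt)
  la : ∀ a b, P a → P b → a ≠ b → ∀ d ∈ ({a, b} : Finset V)ᶜ, (x a d ≠ 0 ∨ x b d ≠ 0) →
    ∑ e ∈ ({a, b, d} : Finset V)ᶜ, (x a e + x b e) * (1 - Real.exp (-(L a b d e)))
      ≤ la - lb * (x a d + x b d)

variable {c : Cf} {g : Cg} {x : V → V → ℝ} {P : V → Prop} [DecidablePred P]
variable {W : Pf V} {sl : ℝ → ℝ → ℝ}
variable {h : ℝ → V → V → ℝ} {H : V → V → ℝ → ℝ} {t : ℝ}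

section haz

variable {φ : V → V → ℝ → ℝ} {ab : ℝ → ℝ → ℝ}

/-- the hazards of the real pairs are at most `x e^{H - sl}` -/
theorem haz_sl (hK : Kn x P φ ab h H t) (hx : Wt x P 1) (hS : Sg x P φ sl h H t) {a b : V}
    (ha : P a) (hb : P b) (hab : x a b ≠ 0) {s : ℝ} (hs : s ∈ Icc 0 t) :
    h s a b ≤ x a b * (Real.exp (H a b s) * Real.exp (-sl (x a b) s)) := by
  have h1 := hK.fl s hs a b
  have h2 := hS s hs a b ha hb hab
  have h3 := hK.pos s hs a b hab
  have h5 : φ a b s ≤ Real.exp (H a b s) * Real.exp (-sl (x a b) s) * pp h a b s := by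
    have h6 := mul_le_mul_of_nonneg_right h2 (Real.exp_pos (-sl (x a b) s)).le
    rw [mul_assoc, ← Real.exp_add, add_neg_cancel, Real.exp_zero, mul_one] at h6
    linarith
  have h4 : h s a b * pp h a b s
      ≤ x a b * (Real.exp (H a b s) * Real.exp (-sl (x a b) s)) * pp h a b s := by
    rw [h1, mul_assoc]
    exact mul_le_mul_of_nonneg_left h5 (hx.nonneg a b)
  exact le_of_mul_le_mul_right h4 h3

/-- lower bound of `e^{-H}`: `S` is a primitive of a majorant of `e^{-sl}` -/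
theorem expH_sl (hK : Kn x P φ ab h H t) (hx : Wt x P 1) (hS : Sg x P φ sl h H t) {a b : V}
    (ha : P a) (hb : P b) (hab : x a b ≠ 0) {S S' : ℝ → ℝ} (hS0 : 0 ≤ S 0)
    (hd : ∀ s ∈ Icc 0 t, HasDerivAt S (S' s) s)
    (hS' : ∀ s ∈ Icc 0 t, Real.exp (-sl (x a b) s) ≤ S' s) {s : ℝ}
    (hs : s ∈ Icc 0 t) : 1 - x a b * S s ≤ Real.exp (-H a b s) := by
  have key := nonneg_of_forward (a := 0) (s := t)
    (U := fun s => Real.exp (-H a b s) - (1 - x a b * S s))
    (U' := fun s => Real.exp (-H a b s) * (-h s a b) - (0 - x a b * S' s))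
    (fun r hr => by
      have d1 : HasDerivAt (fun s => Real.exp (-H a b s))
          (Real.exp (-H a b r) * (-h r a b)) r := ((hK.hh.Hd a b r).neg).exp
      have d2 := ((hd r hr).const_mul (x a b)).const_sub 1
      refine (d1.sub d2).congr_deriv ?_
      ring)
    (by
      have := mul_nonneg (hx.nonneg a b) hS0
      simp only [hK.hh.H0, neg_zero, Real.exp_zero]
      linarith)
    (fun r hr _ => by
      have h1 := haz_sl hK hx hS ha hb hab hr
      have h2 := mul_le_mul_of_nonneg_left h1 (Real.exp_pos (-H a b r)).le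
      have h3 : Real.exp (-H a b r) * (x a b * (Real.exp (H a b r)
          * Real.exp (-sl (x a b) r))) = x a b * Real.exp (-sl (x a b) r) := by
        rw [mul_left_comm, ← mul_assoc (Real.exp (-H a b r)), ← Real.exp_add, neg_add_cancel,
          Real.exp_zero, one_mul]
      rw [h3] at h2
      have h4 := mul_le_mul_of_nonneg_left (hS' r hr) (hx.nonneg a b)
      linarith)
    s hs
  linarith

/-- The bound of the hazards: `h (1 - x S) <= x e^{-sl} <= x S'`. -/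
theorem haz_sl' (hK : Kn x P φ ab h H t) (hx : Wt x P 1) (hS : Sg x P φ sl h H t) {a b : V}
    (ha : P a) (hb : P b) (hab : x a b ≠ 0) {S S' : ℝ → ℝ} (hS0 : 0 ≤ S 0)
    (hd : ∀ s ∈ Icc 0 t, HasDerivAt S (S' s) s)
    (hS' : ∀ s ∈ Icc 0 t, Real.exp (-sl (x a b) s) ≤ S' s) {s : ℝ}
    (hs : s ∈ Icc 0 t) : h s a b * (1 - x a b * S s) ≤ x a b * Real.exp (-sl (x a b) s) := by
  have h1 := haz_sl hK hx hS ha hb hab hs
  have h2 := expH_sl hK hx hS ha hb hab hS0 hd hS' hs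
  have h3 := mul_le_mul_of_nonneg_left h2 (hK.hh.nonneg s a b)
  have h4 := mul_le_mul_of_nonneg_right h1 (Real.exp_pos (-H a b s)).le
  have h5 : x a b * (Real.exp (H a b s) * Real.exp (-sl (x a b) s)) * Real.exp (-H a b s)
      = x a b * Real.exp (-sl (x a b) s) := by
    have : Real.exp (H a b s) * Real.exp (-H a b s) = 1 := by
      rw [← Real.exp_add, add_neg_cancel, Real.exp_zero]
    calc _ = x a b * (Real.exp (-sl (x a b) s) * (Real.exp (H a b s) * Real.exp (-H a b s))) := by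
          ring
      _ = _ := by rw [this, mul_one]
  rw [h5] at h4
  linarith

end haz

section final

variable {V : Type} [Fintype V] [DecidableEq V] {G : SimpleGraph V} [Fintype G.edgeSet]
  [DecidableEq G.edgeSet] {x : G.edgeSet → ℝ} {W : Pf (V ⊕ V)}

end final

end Pool.Agent.RX.RCN.K
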