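import Pool.Agent.RX.RCN.Inst_2
import Pool.Agent.RX.RCN.Sig_1

/-! The slack of the certificate, and the final abstract theorem with slack
(MP_73ccd0_lc, route M). -/

namespace Pool.Agent.RX.RCN.K

open Set Finset MeasureTheory Pool.Agent.RX.RCRSHalf Pool.Agent.RX.RCG Pool.Agent.RX.RCG.Ct
open Pool.Agent.RX.RCN.Ker

variable {T : Dt} {sl : ℝ → ℝ → ℝ}

/-- the slack from the inequality `L0` with slack -/
theorem Dt.sl_ok (n : ∀ x ∈ Icc (0 : ℝ) 1, ∀ t ∈ Icc (0 : ℝ) bt, 0 ≤ sl x t)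
    (cn : ∀ x ∈ Icc (0 : ℝ) 1, ContinuousOn (sl x) (Icc 0 bt))
    (z : ∀ x ∈ Icc (0 : ℝ) 1, sl x 0 ≤ eta x * T.Z' 0)
    (L0 : ∀ x ∈ Icc (0 : ℝ) 1, x ≠ 0 → ∀ t ∈ Icc (0 : ℝ) bt,
      2 * (1 - x) * T.KK x t + sl x t < eta x * T.Z' t * (1 + t) ^ 2
        + 2 * (x * (T.o0 t + eta x * T.o1 t)) + 2 * (T.lam t * T.S x t)) :
    Sl T.cf T.cg sl where
  n := n
  cn := cn
  z := z
  L0 x hx hx0 t ht := by
    show 2 * (1 - x) * T.KK x t + 0
      + (Real.log (qq t) + (((1 + t) ^ 2)⁻¹ - eta x * T.Z' t) / qq t - 1) + sl x t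
      < 2 * (x * (T.o0 t + eta x * T.o1 t))
        + 2 * (T.lam t * (x * (eta x * T.Z t) - T.sgf x t)) - 2 * Real.log (1 + t)
    have hT : 0 < 1 + t := by linarith [ht.1]
    have h1 : 0 < (1 + t) ^ 2 := by positivity
    have e1 : Real.log (qq t) = -(2 * Real.log (1 + t)) := by
      unfold qq
      rw [Real.log_inv, Real.log_pow]
      norm_num
    have e2 : (((1 + t) ^ 2)⁻¹ - eta x * T.Z' t) / qq t = 1 - eta x * T.Z' t * (1 + t) ^ 2 := by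
      unfold qq
      rw [div_inv_eq_mul, sub_mul, inv_mul_cancel₀ h1.ne']
    rw [e1, e2]
    have h2 := L0 x hx hx0 t ht
    unfold Dt.S at h2
    linarith

variable {V : Type} [Fintype V] [DecidableEq V] {G : SimpleGraph V} [Fintype G.edgeSet]
  [DecidableEq G.edgeSet] {x : G.edgeSet → ℝ} {w : V ⊕ V → V ⊕ V → ℝ → ℝ}

end Pool.Agent.RX.RCN.K
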