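import Pool.Agent.RX.RCN.Inst_2

/-! The conditions at the end time from local inequalities (MP_73ccd0_lc, route M). -/

namespace Pool.Agent.RX.RCN.K

open Set Finset MeasureTheory Pool.Agent.RX.RCRSHalf Pool.Agent.RX.RCG Pool.Agent.RX.RCG.Ct
open Pool.Agent.RX.RCN.Ker

set_option linter.unusedSectionVars false

/-- the contribution of one side of a cherry to the first part of the slope after the end time -/
noncomputable def Dt.V1 (T : Dt) (fb : ℝ → ℝ) (x y z : ℝ) : ℝ :=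
  (1 + bt) * (y * fb y) + y * z * T.C1' x y z bt

/-- the contribution of a cherry to the first part of the slope after the end time -/
noncomputable def Dt.V0 (T : Dt) (fb : ℝ → ℝ) (x y z : ℝ) : ℝ :=
  T.V1 fb x y z + T.V1 fb x z y

/-- the contribution of a cherry to the slope of the density after the end time -/
noncomputable def Dt.Vt (T : Dt) (fb : ℝ → ℝ) (x y z : ℝ) : ℝ := T.V0 fb x y z + T.kE x y z

/-- the factor of the slopes in the loss: first and second order; `k` is the weight of the side of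
the cherry in the second order -/
noncomputable def cw (k : ℝ) : ℝ := wt ^ 2 / 2 - tgc * (2 * r0 - mt * la - k)

/-- the factor of the slopes in the loss for the walks -/
noncomputable def cwE : ℝ := cw (mt * (1 - lb))

/-- the contribution of a cherry to the loss after the end time -/
noncomputable def Dt.Ls (T : Dt) (fb : ℝ → ℝ) (x y z : ℝ) : ℝ :=
  T.V1 fb x y z * cw (ksw y z) + T.V1 fb x z y * cw (ksw z y) + T.kE x y z * cwE

/-- the surplus of a cherry at the end time -/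
noncomputable def Dt.eFs (T : Dt) (y z : ℝ) : ℝ :=
  y * z * ((T.F bt + wt * T.F' bt) + (y + z) * (T.F3 bt + wt * T.F3' bt)
    + 4 * (y * z) * (T.F2 bt + wt * T.F2' bt))

/-- the part of the loss which is left to the cherries -/
noncomputable def dd' : ℝ := dd - wt ^ 2 / 2 * (ph * e0)

/-- the local conditions at the end time; `fb` is the bound of the densities at the end time -/
structure Dt.Te (T : Dt) (fb : ℝ → ℝ) : Prop where
  f1 : ∀ y ∈ Icc (0 : ℝ) 1, ((1 + bt) ^ 2)⁻¹ ≤ fb y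
  fe : ∀ y ∈ Icc (0 : ℝ) 1, fb y ≤ ph
  c0 : ∀ x ∈ Icc (0 : ℝ) 1, ∀ y ∈ Icc (0 : ℝ) 1, ∀ z ∈ Icc (0 : ℝ) 1,
    x + y ≤ 1 → x + z ≤ 1 → y + z ≤ 1 → 0 ≤ T.C1' x y z bt
  zz : ∀ x ∈ Icc (0 : ℝ) 1, eta x * (T.Z bt + wt * T.Z' bt) + fb x * (tgc * r0 ^ 2) ≤ dd'
  di : ∀ x ∈ Icc (0 : ℝ) 1, ∀ y ∈ Icc (0 : ℝ) 1, ∀ z ∈ Icc (0 : ℝ) 1,
    x + y ≤ 1 → x + z ≤ 1 → y + z ≤ 1 → y ≤ z →
    2 * (1 - x) * (fb x * T.Ls fb x y z - T.eFs y z)
      ≤ (y + z) * (dd' - (eta x * (T.Z bt + wt * T.Z' bt) + fb x * (tgc * r0 ^ 2)))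
  rt : ∀ x ∈ Icc (0 : ℝ) 1, ∀ y ∈ Icc (0 : ℝ) 1, ∀ z ∈ Icc (0 : ℝ) 1,
    x + y ≤ 1 → x + z ≤ 1 → y + z ≤ 1 → y ≤ z →
    2 * (1 - x) * T.Vt fb x y z ≤ (y + z) * rm
  hl : ∀ y ∈ Icc (0 : ℝ) 1, (hlb + hls * y) * T.ek.abf bt
    ≤ ((1 + bt) ^ 2)⁻¹ - eta y * T.Z' bt - 2 * (1 - y) * T.N bt - T.SP * (1 - y) * T.jp bt

variable {T : Dt} {fb : ℝ → ℝ}

section sums

variable {V : Type*} [Fintype V] [DecidableEq V] {x : V → V → ℝ} {P : V → Prop} [DecidablePred P]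
variable {φ : V → V → ℝ → ℝ} {w : V → V → ℝ → ℝ}

end sums

variable {V : Type} [Fintype V] [DecidableEq V] {G : SimpleGraph V} [Fintype G.edgeSet]
  [DecidableEq G.edgeSet] {x : G.edgeSet → ℝ} {w : V ⊕ V → V ⊕ V → ℝ → ℝ}

end Pool.Agent.RX.RCN.K
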