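import Pool.Agent.RX.RCN.KerA
import Pool.Agent.RX.RCN.KleA
import Pool.Agent.RX.RCN.MainK_1

/-! The certificate with symbolic functions (MP_73ccd0_lc, route M). -/

namespace Pool.Agent.RX.RCN.K

open Set Finset MeasureTheory Pool.Agent.RX.RCG Pool.Agent.RX.RCG.Ct

open Pool.Agent.RX.RCN.Ker

/-- the functions of the certificate -/
structure Dt where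
  sT : ℝ → ℝ
  ka : ℝ → ℝ → ℝ
  kE : ℝ → ℝ → ℝ → ℝ
  ST : ℝ
  SP : ℝ
  kt : ℝ → ℝ
  kap : ℝ → ℝ
  j : ℝ → ℝ
  J : ℝ → ℝ
  kp : ℝ → ℝ
  kapp : ℝ → ℝ
  jp : ℝ → ℝ
  Jp : ℝ → ℝ
  rho : ℝ
  t1 : ℝ
  th : ℝ
  F : ℝ → ℝ
  F' : ℝ → ℝ
  F2 : ℝ → ℝ
  F2' : ℝ → ℝ
  F3 : ℝ → ℝ
  F3' : ℝ → ℝ
  F3a : ℝ → ℝ
  k1 : ℝ
  G : ℝ → ℝ
  G' : ℝ → ℝ
  Gs : ℝ → ℝ
  Gp : ℝ → ℝ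
  np : ℝ → ℝ
  Z : ℝ → ℝ
  Z' : ℝ → ℝ
  D : ℝ → ℝ
  V : ℝ → ℝ
  V' : ℝ → ℝ
  W1 : ℝ → ℝ
  lam : ℝ → ℝ
  o0 : ℝ → ℝ
  o0' : ℝ → ℝ
  o1 : ℝ → ℝ
  o1' : ℝ → ℝ
  PF : ℝ → ℝ
  PF' : ℝ → ℝ
  PF2 : ℝ → ℝ
  PF2' : ℝ → ℝ
  PF3 : ℝ → ℝ
  PF3' : ℝ → ℝ
  N : ℝ → ℝ
  KK : ℝ → ℝ → ℝ
  C1 : ℝ → ℝ → ℝ → ℝ → ℝ
  C1' : ℝ → ℝ → ℝ → ℝ → ℝ

variable (T : Dt)

/-- `x al - sg` -/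
noncomputable def Dt.sgf (x t : ℝ) : ℝ :=
  x ^ 2 * (1 - x) * (T.F t + x * T.F3 t + (1 - x) * T.F3a t + 4 * (x * (1 - x)) * T.F2 t)
    + T.sT x * T.Gs t

noncomputable def Dt.S (x t : ℝ) : ℝ := x * (eta x * T.Z t) - T.sgf x t

/-- the value of the kernel integral at the end -/
noncomputable def Dt.Je : ℝ := T.J bt + wt * T.j bt

noncomputable def Dt.W0 (t : ℝ) : ℝ := T.rho * ((1 + t) ^ 2 * (T.G' t + T.j t))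

noncomputable def Dt.cg : Cg where
  sg := T.sgf
  C x y z t := y * z * (T.C1 x y z t + T.C1 x z y t)
  C' x y z t := y * z * (T.C1' x y z t + T.C1' x z y t)
  ow x t := x * (T.o0 t + eta x * T.o1 t)
  ow' x t := x * (T.o0' t + eta x * T.o1' t)
  om x y z t := x * (y * z * (T.PF t + (y + z) * T.PF3 t + 4 * (y * z) * T.PF2 t))
  om' x y z t := x * (y * z * (T.PF' t + (y + z) * T.PF3' t + 4 * (y * z) * T.PF2' t))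
  lam _ t := T.lam t
  X _ t := qq t
  K2 := T.KK
  K3 _ _ := 0
  kl x y z t := (T.W0 t + x * T.W1 t) * T.ka y z
  N _ t := T.N t
  gm x t := T.SP * (1 - x) * T.jp t

/-- the hypotheses: regularity, boundary values and inequalities (names as in `cert.py`) -/
structure Dt.Ok : Prop where
  -- the shapes
  sTn : ∀ y ∈ Icc (0 : ℝ) 1, 0 ≤ T.sT y
  sTS : ∀ y ∈ Icc (0 : ℝ) 1, T.sT y ≤ T.ST * y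
  STn : 0 ≤ T.ST
  kan : ∀ y ∈ Icc (0 : ℝ) 1, ∀ z ∈ Icc (0 : ℝ) 1, y + z ≤ 1 → 0 ≤ T.ka y z
  kaS : ∀ y ∈ Icc (0 : ℝ) 1, ∀ z ∈ Icc (0 : ℝ) 1, y + z ≤ 1 →
    T.ka y z ≤ T.SP * ((y + z) / 2)
  kac : ∀ y z, T.ka y z = T.ka z y
  kEn : ∀ x ∈ Icc (0 : ℝ) 1, ∀ y ∈ Icc (0 : ℝ) 1, ∀ z ∈ Icc (0 : ℝ) 1,
    x + y ≤ 1 → x + z ≤ 1 → y + z ≤ 1 → 0 ≤ T.kE x y z
  kEc : ∀ x y z, T.kE x y z = T.kE x z y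
  kEz : ∀ x, T.kE x 0 0 = 0
  SPn : 0 ≤ T.SP
  k10 : 0 ≤ T.k1
  sTk : ∀ y ∈ Icc (0 : ℝ) 1, T.k1 * (y ^ 2 * (1 - y) ^ 2) ≤ T.sT y
  -- regularity
  dkap : ∀ t ∈ Icc (0 : ℝ) bt, HasDerivAt T.kap (T.kt t) t
  ckt : ContinuousOn T.kt (Icc 0 bt)
  cj : ContinuousOn T.j (Icc 0 bt)
  dJ : ∀ t ∈ Icc (0 : ℝ) bt, HasDerivAt T.J (T.j t) t
  dkapp : ∀ t ∈ Icc (0 : ℝ) bt, HasDerivAt T.kapp (T.kp t) t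
  ckp : ContinuousOn T.kp (Icc 0 bt)
  dJp : ∀ t ∈ Icc (0 : ℝ) bt, HasDerivAt T.Jp (T.jp t) t
  cGp : ContinuousOn T.Gp (Icc 0 bt)
  dF : ∀ t ∈ Icc (0 : ℝ) bt, HasDerivAt T.F (T.F' t) t
  dF2 : ∀ t ∈ Icc (0 : ℝ) bt, HasDerivAt T.F2 (T.F2' t) t
  dF3 : ∀ t ∈ Icc (0 : ℝ) bt, HasDerivAt T.F3 (T.F3' t) t
  dG : ∀ t ∈ Icc (0 : ℝ) bt, HasDerivAt T.G (T.G' t) t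
  dZ : ∀ t ∈ Icc (0 : ℝ) bt, HasDerivAt T.Z (T.Z' t) t
  dV : ∀ t ∈ Icc (0 : ℝ) bt, HasDerivAt T.V (T.V' t) t
  do0 : ∀ t ∈ Icc (0 : ℝ) bt, HasDerivAt T.o0 (T.o0' t) t
  do1 : ∀ t ∈ Icc (0 : ℝ) bt, HasDerivAt T.o1 (T.o1' t) t
  dPF : ∀ t ∈ Icc (0 : ℝ) bt, HasDerivAt T.PF (T.PF' t) t
  dPF2 : ∀ t ∈ Icc (0 : ℝ) bt, HasDerivAt T.PF2 (T.PF2' t) t
  dPF3 : ∀ t ∈ Icc (0 : ℝ) bt, HasDerivAt T.PF3 (T.PF3' t) t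
  dC1 : ∀ x ∈ Icc (0 : ℝ) 1, ∀ y ∈ Icc (0 : ℝ) 1, ∀ z ∈ Icc (0 : ℝ) 1, ∀ t ∈ Icc (0 : ℝ) bt,
    HasDerivAt (T.C1 x y z) (T.C1' x y z t) t
  cF : ContinuousOn T.F' (Icc 0 bt)
  cF2 : ContinuousOn T.F2' (Icc 0 bt)
  cF3 : ContinuousOn T.F3' (Icc 0 bt)
  cG : ContinuousOn T.G' (Icc 0 bt)
  cGs : ContinuousOn T.Gs (Icc 0 bt)
  cZ : ContinuousOn T.Z' (Icc 0 bt)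
  -- boundary values
  kap0 : T.kap 0 = 0
  J0 : T.J 0 = 0
  J1 : 0 < T.Je
  kapp0 : T.kapp 0 = 0
  Jp0 : T.Jp 0 = 0
  Jp1 : T.Jp bt + wt * T.jp bt = T.rho * T.Je
  F0 : T.F 0 = 0
  F20 : T.F2 0 = 0
  F30 : T.F3 0 = 0
  G0 : T.G 0 = 0
  G1 : T.G bt + wt * T.G' bt = 0
  Z0 : T.Z 0 = 0
  F'0 : T.F' 0 ≤ 0
  F2'0 : T.F2' 0 ≤ 0
  F3'0 : T.F3' 0 ≤ 0
  G'0 : T.G' 0 = 0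
  Z'0 : 0 ≤ T.Z' 0
  V0 : 0 ≤ T.V 0
  o00 : T.o0 0 = 0
  o10 : T.o1 0 = 0
  PF0 : T.PF 0 = 0
  PF20 : T.PF2 0 = 0
  PF30 : T.PF3 0 = 0
  C10 : ∀ x ∈ Icc (0 : ℝ) 1, ∀ y ∈ Icc (0 : ℝ) 1, ∀ z ∈ Icc (0 : ℝ) 1, 0 ≤ T.C1 x y z 0
  -- signs
  rho0 : 0 ≤ T.rho
  th0 : 1 / 2 ≤ T.th
  ktn : ∀ t ∈ Icc (0 : ℝ) bt, 0 ≤ T.kt t
  kpn : ∀ t ∈ Icc (0 : ℝ) bt, 0 ≤ T.kp t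
  hF : ∀ t ∈ Icc (0 : ℝ) bt, 0 ≤ T.F t
  hF2 : ∀ t ∈ Icc (0 : ℝ) bt, 0 ≤ T.F2 t
  hF3 : ∀ t ∈ Icc (0 : ℝ) bt, 0 ≤ T.F3 t
  hGs : ∀ t ∈ Icc (0 : ℝ) bt, 0 ≤ T.Gs t
  hGp : ∀ t ∈ Icc (0 : ℝ) bt, 0 ≤ T.Gp t
  hnp : ∀ t ∈ Icc (0 : ℝ) bt, 0 ≤ T.np t
  hZ : ∀ t ∈ Icc (0 : ℝ) bt, 0 ≤ T.Z t
  hN : ∀ t ∈ Icc (0 : ℝ) bt, 0 ≤ T.N t
  hK : ∀ x ∈ Icc (0 : ℝ) 1, ∀ t ∈ Icc (0 : ℝ) bt, 0 ≤ T.KK x t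
  lam0 : ∀ t ∈ Icc (0 : ℝ) bt, 0 ≤ T.lam t
  -- inequalities
  hj : ∀ t ∈ Icc (0 : ℝ) bt, T.kap t = (1 + t) ^ 2 * T.j t
  hjp : ∀ t ∈ Icc (0 : ℝ) bt, T.kapp t = (1 + t) ^ 2 * T.jp t
  Gp1 : ∀ t ∈ Icc (0 : ℝ) bt, T.t1 ≤ t → T.rho * (T.G t + T.J t) - T.Jp t ≤ T.Gp t
  Gp2 : ∀ t ∈ Icc (0 : ℝ) bt, t < T.t1 → T.rho * (T.G t + T.J t) ≤ T.Gp t
  np1 : ∀ t ∈ Icc (0 : ℝ) bt, t < T.t1 → T.Jp t ≤ T.np t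
  Mp : ∀ t ∈ Icc (0 : ℝ) bt, 0 ≤ T.G' t + T.j t
  M1 : ∀ t ∈ Icc (0 : ℝ) bt, T.t1 ≤ t →
    t * T.Je ≤ ce * (1 + t) * (T.G t + T.J t)
  GJ1 : ∀ t ∈ Icc (0 : ℝ) bt, T.t1 ≤ t → T.G t ≤ T.Gs t
  GJ2 : ∀ t ∈ Icc (0 : ℝ) bt, t < T.t1 → T.G t + T.J t ≤ T.Gs t
  nb : ∀ t ∈ Icc (0 : ℝ) bt, t < T.t1 → T.ST * T.J t ≤ (T.th - 1 / 2) * T.Z t
  lam1 : ∀ t ∈ Icc (0 : ℝ) bt, T.lam t * (2 + T.th * T.Z t * (1 + t)) ≤ 2 * (1 + t)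
  o0i : ∀ t ∈ Icc (0 : ℝ) bt, T.o0' t * ((1 + t) + T.th * T.Z t * (1 + t) ^ 2) ≤ 1
  o1i : ∀ t ∈ Icc (0 : ℝ) bt, T.o1' t * ((1 + t) + T.th * T.Z t * (1 + t) ^ 2)
    ≤ -T.Z' t * (1 + t) ^ 2
  PFi : ∀ t ∈ Icc (0 : ℝ) bt, T.PF' t * (1 + T.th * T.Z t * (1 + t)) ≤ T.F' t * (1 + t)
  PF2i : ∀ t ∈ Icc (0 : ℝ) bt, T.PF2' t * (1 + T.th * T.Z t * (1 + t)) ≤ T.F2' t * (1 + t)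
  PF3i : ∀ t ∈ Icc (0 : ℝ) bt, T.PF3' t * (1 + T.th * T.Z t * (1 + t)) ≤ T.F3' t * (1 + t)
  abd : ∀ t ∈ Icc (0 : ℝ) bt, T.th * T.Z' t * (1 + t) ^ 2 ≤ 1
  Di : ∀ t ∈ Icc (0 : ℝ) bt, 1 - T.th * T.Z' t * (1 + t) ^ 2
    ≤ T.D t * (1 + T.th * T.Z t * (1 + t)) ^ 2
  Vi : ∀ t ∈ Icc (0 : ℝ) bt, T.Gp t * T.D t ≤ T.V' t
  W1a : ∀ t ∈ Icc (0 : ℝ) bt, T.t1 ≤ t → 2 * T.V t ≤ T.W1 t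
  W1b : ∀ t ∈ Icc (0 : ℝ) bt, t < T.t1 → 2 * (T.V t + (1 + t) * T.Jp t) ≤ T.W1 t
  Nf1 : ∀ t ∈ Icc (0 : ℝ) bt, 0 ≤ 4 * T.N t + T.F' t
  Nf2 : ∀ t ∈ Icc (0 : ℝ) bt, 0 ≤ 4 * T.N t + (T.F' t + T.F3' t)
  Nf3 : ∀ t ∈ Icc (0 : ℝ) bt, 0 ≤ 4 * T.N t + (T.F' t + T.F3' t + T.F2' t)
  hF3a : ∀ t ∈ Icc (0 : ℝ) bt, 0 ≤ T.F3a t
  F3G : ∀ t ∈ Icc (0 : ℝ) bt, T.F3 t ≤ T.k1 * T.Gs t + T.F3a t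
  sg1 : ∀ y ∈ Icc (0 : ℝ) 1, ∀ t ∈ Icc (0 : ℝ) bt, 0 ≤ T.S y t
  LP0 : ∀ x ∈ Icc (0 : ℝ) 1, ∀ t ∈ Icc (0 : ℝ) bt,
    eta x * T.Z' t * (1 + t) ^ 2 + 2 * (1 - x) * T.N t * (1 + t) ^ 2
      + T.SP * (1 - x) * T.kapp t < 1
  L0 : ∀ x ∈ Icc (0 : ℝ) 1, x ≠ 0 → ∀ t ∈ Icc (0 : ℝ) bt,
    2 * (1 - x) * T.KK x t < eta x * T.Z' t * (1 + t) ^ 2
      + 2 * (x * (T.o0 t + eta x * T.o1 t)) + 2 * (T.lam t * T.S x t)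
  L1 : ∀ x ∈ Icc (0 : ℝ) 1, ∀ y ∈ Icc (0 : ℝ) 1, ∀ z ∈ Icc (0 : ℝ) 1, ∀ t ∈ Icc (0 : ℝ) bt,
    x + y ≤ 1 → x + z ≤ 1 → y + z ≤ 1 → y ≤ z →
    y * z * (T.C1 x y z t + T.C1 x z y t)
      + (1 + t) ^ 2 * (y * z * (T.F' t + (y + z) * T.F3' t + 4 * (y * z) * T.F2' t))
      + (T.W0 t + x * T.W1 t) * T.ka y z
      ≤ T.KK x t * (y + z) + T.lam t * (T.S y t + T.S z t)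
        + 2 * (x * (y * z * (T.PF t + (y + z) * T.PF3 t + 4 * (y * z) * T.PF2 t)))

variable {T}

theorem eta_mem {x : ℝ} (hx : x ∈ Icc (0 : ℝ) 1) : 0 ≤ eta x ∧ eta x ≤ 1 / 2 ∧ eta x ≤ x :=
  ⟨le_min hx.1 (by norm_num), min_le_right _ _, min_le_left _ _⟩

end Pool.Agent.RX.RCN.K
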