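import Pool.Agent.RX.RCN.Hm_1

/-! The error function from the logarithms of the closure constants (MP_73ccd0_lc, route M). -/

namespace Pool.Agent.RX.RCN.K

open Set Finset MeasureTheory Pool.Agent.RX.RCG Pool.Agent.RX.RCG.Ct

open Pool.Agent.RX.RCN.Ker

set_option linter.unusedSectionVars false

variable {V : Type*} [Fintype V] [DecidableEq V]

/-- the error of a closure with constant `e^L` -/
noncomputable def nuL (L : ℝ) : ℝ := 1 - Real.exp (-L)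

/-- the functions of the error from `L`, `Lt` (logarithms of the closure constants), `R` (rates of
the released pairs), `κd` (the density factor) -/
noncomputable def xdOf (x : V → V → ℝ) (κd : ℝ → ℝ → ℝ → ℝ)
    (R : V → V → V → ℝ → ℝ → ℝ) (L Lt : V → V → V → V → ℝ → ℝ → ℝ) : Xd V where
  B a b d t s := κd (x a b + x a d) t s
  nu a b c d t s := nuL (L a b c d t s)
  nut a b c d t s := nuL (Lt a b c d t s)
  la a b c t s := ∑ d ∈ ({a, b, c} : Finset V)ᶜ, R a b d t s * nuL (Lt a b c d t s)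
  dl _ _ _ _ := 0

variable {x : V → V → ℝ} {P : V → Prop} [DecidablePred P] {k : Kf} {N : ℕ}
variable {κd : ℝ → ℝ → ℝ → ℝ} {R : V → V → V → ℝ → ℝ → ℝ} {L Lt : V → V → V → V → ℝ → ℝ → ℝ}

/-- the conditions on the functions -/
structure Lf (N : ℕ) (k : Kf) (κd : ℝ → ℝ → ℝ → ℝ) (R : V → V → V → ℝ → ℝ → ℝ)
    (L Lt : V → V → V → V → ℝ → ℝ → ℝ) : Prop where
  N0 : 0 < N
  cκ : ∀ w, CN N (κd w)
  κP : ∀ w ∈ Icc (0 : ℝ) 1, ∀ t s, 0 ≤ s → s ≤ t → t ≤ bt → k.Pe w t ≤ κd w t s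
  cR : ∀ a b d, CN N (R a b d)
  R0 : ∀ a b d t s, 0 ≤ s → s ≤ t → t ≤ bt → 0 ≤ R a b d t s
  cL : ∀ a b c d, CN N (L a b c d)
  cLt : ∀ a b c d, CN N (Lt a b c d)
  L0 : ∀ a b c d t s, 0 ≤ s → s ≤ t → t ≤ bt → 0 ≤ L a b c d t s
  Lt0 : ∀ a b c d t s, 0 ≤ s → s ≤ t → t ≤ bt → 0 ≤ Lt a b c d t s

theorem nuL_nonneg {L : ℝ} (h : 0 ≤ L) : 0 ≤ nuL L := by
  have : Real.exp (-L) ≤ 1 := by
    rw [Real.exp_le_one_iff]; linarith
  unfold nuL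
  linarith

theorem nuL_le_one (L : ℝ) : nuL L ≤ 1 := by
  have := (Real.exp_pos (-L)).le
  unfold nuL
  linarith

theorem nuL_le (L : ℝ) : nuL L ≤ L := by
  have := Real.add_one_le_exp (-L)
  unfold nuL
  linarith

theorem nuL_cn {F : ℝ → ℝ → ℝ} (hF : CN N F) : CN N fun t s => nuL (F t s) :=
  (CN.const 1).sub (CN.exp (CN.neg hF))

theorem two_mem (hx : Wt x P 1) (a : V) {b d : V} (hbd : b ≠ d) :
    x a b + x a d ∈ Icc (0 : ℝ) 1 := by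
  refine ⟨add_nonneg (hx.nonneg a b) (hx.nonneg a d), ?_⟩
  have h1 : ∑ e ∈ ({b, d} : Finset V), x a e ≤ ∑ e, x a e :=
    Finset.sum_le_sum_of_subset_of_nonneg (Finset.subset_univ _) fun e _ _ => hx.nonneg a e
  rw [Finset.sum_pair hbd] at h1
  exact h1.trans (hx.row a)

theorem x_mem (hx : Wt x P 1) (b d : V) : x b d ∈ Icc (0 : ℝ) 1 :=
  ⟨hx.nonneg b d, (Finset.single_le_sum (fun e _ => hx.nonneg b e) (Finset.mem_univ d)).trans
    (hx.row b)⟩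

theorem fq_cont' (hfc : ∀ y ∈ Icc (0 : ℝ) 1, ContinuousOn (k.fh y) (Icc 0 bt)) (hx : Wt x P 1)
    (b d : V) : ContinuousOn (fq x P k.fh b d) (Icc 0 bt) := by
  unfold fq
  split_ifs with hd
  · exact hfc _ (x_mem hx b d)
  · exact qq_cont

theorem fq_nonneg' (hk : k.Ok) (hx : Wt x P 1) (b d : V) {s : ℝ}
    (hs : s ∈ Icc (0 : ℝ) bt) : 0 ≤ fq x P k.fh b d s := by
  unfold fq
  split_ifs with hd
  · exact hk.fh_nonneg (x_mem hx b d) hs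
  · exact (qq_pos hs).le

section final

variable {V : Type} [Fintype V] [DecidableEq V] {G : SimpleGraph V} [Fintype G.edgeSet]
  [DecidableEq G.edgeSet] {x : G.edgeSet → ℝ}
variable {sl : ℝ → ℝ → ℝ} {δ : ℝ}

variable {b0 b1 : ℝ → ℝ} {Pe : ℝ → ℝ → ℝ} {Pt : ℝ → ℝ → ℝ → ℝ}
variable {κd : ℝ → ℝ → ℝ → ℝ} {R : V ⊕ V → V ⊕ V → V ⊕ V → ℝ → ℝ → ℝ}
  {L Lt : V ⊕ V → V ⊕ V → V ⊕ V → V ⊕ V → ℝ → ℝ → ℝ}

end final

end Pool.Agent.RX.RCN.K
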