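import Pool.Agent.RX.RCM.WldV
import Pool.Agent.RX.RCN.Hz_1
import Pool.Agent.RX.RCN.Xof_1

/-! The rates of the released pairs: the hazards, or the densities divided by the free probability
(MP_73ccd0_lc, route M). -/

namespace Pool.Agent.RX.RCN

open Set MeasureTheory

variable {N : ℕ} {F : ℝ → ℝ → ℝ} {α β : ℝ}

theorem CN.congr {F' : ℝ → ℝ → ℝ} (hF : CN N F)
    (h : ∀ t s, 0 ≤ s → s ≤ t → t ≤ bt → F' t s = F t s) : CN N F' := fun i hi => by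
  obtain ⟨f, cf, ef⟩ := hF i hi
  exact ⟨f, cf, fun t s h1 h2 h3 h4 =>
    (h t s h3 h4 (h2.trans (cb_le_bt hi))).trans (ef t s h1 h2 h3 h4)⟩

/-- joint continuity of `(t, s) ↦ ∫₀ˢ F(t, r) dr` on a wedge -/
theorem wg_head (h0 : 0 ≤ α) (h : α ≤ β)
    (hF : ContinuousOn (fun p : ℝ × ℝ => F p.1 p.2) (Wg α β)) :
    ContinuousOn (fun p : ℝ × ℝ => ∫ r in (0 : ℝ)..p.2, F p.1 r) (Wg α β) := by
  have hc : Continuous fun p : ℝ × ℝ => F (wgR α β p).1 (wgR α β p).2 :=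
    hF.comp_continuous wgR_cont (wgR_mem h0 h)
  have h2 : Continuous fun p : ℝ × ℝ => ∫ r in (0 : ℝ)..p.2,
      F (wgR α β (p.1, r)).1 (wgR α β (p.1, r)).2 :=
    intervalIntegral.continuous_parametric_intervalIntegral_of_continuous
      (f := fun (p : ℝ × ℝ) r => F (wgR α β (p.1, r)).1 (wgR α β (p.1, r)).2)
      (hc.comp (by fun_prop : Continuous fun q : (ℝ × ℝ) × ℝ => (q.1.1, q.2))) continuous_snd
  refine h2.continuousOn.congr fun p hp => ?_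
  obtain ⟨a1, a2, a3⟩ := hp
  refine intervalIntegral.integral_congr fun r hr => ?_
  rw [uIcc_of_le a2] at hr
  have : (p.1, r) ∈ Wg α β := ⟨a1, hr.1, hr.2.trans a3⟩
  show F p.1 r = F (wgR α β (p.1, r)).1 (wgR α β (p.1, r)).2
  rw [wgR_eq this]

theorem CN.head (hF : CN N F) : CN N fun t s => ∫ r in (0 : ℝ)..s, F t r := fun i hi => by
  obtain ⟨f, cf, ef⟩ := hF i hi
  refine ⟨fun t s => ∫ r in (0 : ℝ)..s, f t r, wg_head (ca_nonneg N i) (ca_le_cb N i) cf,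
    fun t s h1 h2 h3 h4 => ?_⟩
  refine intervalIntegral.integral_congr fun r hr => ?_
  rw [uIcc_of_le h3] at hr
  exact ef t r h1 h2 hr.1 (hr.2.trans h4)

theorem CN.invmax (hF : CN N F) {κ : ℝ} (hκ : 0 < κ) :
    CN N fun t s => (max κ (F t s))⁻¹ := fun i hi => by
  obtain ⟨f, cf, ef⟩ := hF i hi
  exact ⟨fun t s => (max κ (f t s))⁻¹, (ContinuousOn.sup continuousOn_const cf).inv₀
    fun p _ => (lt_of_lt_of_le hκ (le_max_left _ _)).ne', fun t s h1 h2 h3 h4 => by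
    beta_reduce; rw [ef t s h1 h2 h3 h4]⟩

end Pool.Agent.RX.RCN

namespace Pool.Agent.RX.RCN.K

open Set Finset MeasureTheory Pool.Agent.RX.RCRSHalf Pool.Agent.RX.RCG Pool.Agent.RX.RCG.Ct
open Pool.Agent.RX.RCN.Ker

set_option linter.unusedSectionVars false

variable {V : Type*} [Fintype V] [DecidableEq V]

section defs

variable (Z : Hzd) (x : V → V → ℝ) (P : V → Prop) [DecidablePred P] (k : Kf)
  (Th Y : ℝ → ℝ → ℝ) (κd : ℝ → ℝ → ℝ → ℝ) (κ : ℝ)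

/-- the vector lower function of the world of `a` with horizon `t` -/
noncomputable def na (a : V) (t : ℝ) (e : V) (s : ℝ) : ℝ :=
  RCM.nx (Z.hh x P) x {a} (fun _ => Th t) (Y t) t e s

/-- bound of the mass of the fluxes of `b` up to time `s` -/
noncomputable def mua (a b : V) (t s : ℝ) : ℝ :=
  ∫ r in (0 : ℝ)..s, ∑ d ∈ ({a, b} : Finset V)ᶜ, x b d * fq x P k.fh b d r
    * κd (x a b + x a d) t r

/-- the absorbed rate -/
noncomputable def rhb (a b d : V) (t s : ℝ) : ℝ :=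
  x b d * fq x P k.fh b d s * κd (x a b + x a d) t s
    * ((max κ (1 - na Z x P Th Y a t d s))⁻¹ * (max κ (1 - na Z x P Th Y a t b s))⁻¹
      * (max κ (1 - mua x P k κd a b t s))⁻¹)

/-- the rates of the released pairs -/
noncomputable def rha (a b d : V) (t s : ℝ) : ℝ :=
  min (Z.hh x P s b d) (rhb Z x P k Th Y κd κ a b d t s)

end defs

variable {Z : Hzd} {x : V → V → ℝ} {P : V → Prop} [DecidablePred P] {k : Kf}
  {Th Y : ℝ → ℝ → ℝ} {κd : ℝ → ℝ → ℝ → ℝ} {κ : ℝ} {N : ℕ} {sl : ℝ → ℝ → ℝ}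

theorem nv_cn (hZ : Z.Ok sl) (hx : Wt x P 1) {y : V → ℝ → ℝ → ℝ} (cy : ∀ f, CN N (y f))
    (U : Finset V) (e : V) :
    CN N fun t s => RCM.nv (Z.hh x P) U (fun f => y f t) t e s := by
  have h1 : CN N fun t s => ∑ f ∈ U, Z.hh x P s e f * (Real.exp (y f t s) - 1) :=
    CN.sum fun f _ => (CN.snd (hZ.hh_cont hx e f)).mul ((CN.exp (cy f)).sub (CN.const 1))
  refine h1.tail.congr fun t s h0 h2 _ => ?_
  unfold RCM.nv
  exact RCM.bk_eq ⟨h0, h2⟩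

theorem yv_cn (hZ : Z.Ok sl) (hx : Wt x P 1) {n : V → ℝ → ℝ → ℝ} (cn : ∀ f, CN N (n f))
    (U : Finset V) (e : V) :
    CN N fun t s => RCM.yv (Z.hh x P) U (fun f => n f t) t e s := by
  have h1 : CN N fun t s => ∑ f ∈ U, Z.hh x P s e f * n f t s :=
    CN.sum fun f _ => (CN.snd (hZ.hh_cont hx e f)).mul (cn f)
  refine h1.tail.congr fun t s h0 h2 _ => ?_
  unfold RCM.yv
  exact RCM.bk_eq ⟨h0, h2⟩

theorem na_cn (hZ : Z.Ok sl) (hx : Wt x P 1) (cTh : CN N Th) (cY : CN N Y) (a e : V) :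
    CN N fun t s => na Z x P Th Y a t e s := by
  unfold na RCM.nx
  by_cases he : e ∈ ({a} : Finset V)
  · simp only [if_pos he]
    exact CN.const 0
  · simp only [if_neg he]
    refine nv_cn hZ hx (y := fun f t s => RCM.yx (Z.hh x P) x {a} (fun _ => Th t) (Y t) t f s)
      (fun f => ?_) _ e
    unfold RCM.yx
    refine (CN.sum fun w _ => (CN.const _).mul cTh).add ?_
    refine yv_cn hZ hx (n := fun g t s => RCM.nv (Z.hh x P) ({a} : Finset V)ᶜ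
      (RCM.yhat x {a} (fun _ => Th t) (Y t)) t g s) (fun g => ?_) _ f
    refine nv_cn hZ hx (y := fun f t s => RCM.yhat x {a} (fun _ => Th t) (Y t) f s)
      (fun f => ?_) _ g
    unfold RCM.yhat
    exact (CN.sum fun w _ => (CN.const _).mul cTh).add ((CN.const _).mul cY)

theorem flux_cn (hk : ∀ y ∈ Icc (0 : ℝ) 1, ContinuousOn (k.fh y) (Icc 0 bt)) (hx : Wt x P 1)
    (cκ : ∀ w, CN N (κd w)) (a b d : V) :
    CN N fun t s => x b d * fq x P k.fh b d s * κd (x a b + x a d) t s :=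
  ((CN.const _).mul (CN.snd (fq_cont' hk hx b d))).mul (cκ _)

theorem mua_cn (hk : ∀ y ∈ Icc (0 : ℝ) 1, ContinuousOn (k.fh y) (Icc 0 bt)) (hx : Wt x P 1)
    (cκ : ∀ w, CN N (κd w)) (a b : V) : CN N (mua x P k κd a b) :=
  (CN.sum fun d _ => flux_cn hk hx cκ a b d).head

theorem rha_cn (hκ : 0 < κ) (hZ : Z.Ok sl) (hx : Wt x P 1) (cTh : CN N Th) (cY : CN N Y)
    (hk : ∀ y ∈ Icc (0 : ℝ) 1, ContinuousOn (k.fh y) (Icc 0 bt))
    (cκ : ∀ w, CN N (κd w)) (a b d : V) : CN N (rha Z x P k Th Y κd κ a b d) :=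
  (CN.snd (hZ.hh_cont hx b d)).min ((flux_cn hk hx cκ a b d).mul
    (((CN.invmax ((CN.const 1).sub (na_cn hZ hx cTh cY a d)) hκ).mul
      (CN.invmax ((CN.const 1).sub (na_cn hZ hx cTh cY a b)) hκ)).mul
      (CN.invmax ((CN.const 1).sub (mua_cn hk hx cκ a b)) hκ)))

/-- the density factor is at least the main part -/
def Kp (k : Kf) (κd : ℝ → ℝ → ℝ → ℝ) : Prop :=
  ∀ w ∈ Icc (0 : ℝ) 1, ∀ t s, 0 ≤ s → s ≤ t → t ≤ bt → k.Pe w t ≤ κd w t s

theorem flux_nonneg (hx : Wt x P 1) (hk : k.Ok) (hκp : Kp k κd) (a b d : V) {t s : ℝ}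
    (ht : t ∈ Icc (0 : ℝ) bt) (hs : s ∈ Icc 0 t) : 0 ≤ x b d * fq x P k.fh b d s
      * κd (x a b + x a d) t s := by
  by_cases hbd : b = d
  · subst hbd
    rw [hx.diag b, zero_mul, zero_mul]
  · exact mul_nonneg (mul_nonneg (hx.nonneg b d) (fq_nonneg' hk hx b d ⟨hs.1, hs.2.trans ht.2⟩))
      ((hk.Pe0 _ (two_mem hx a hbd) t ht).trans (hκp _ (two_mem hx a hbd) t s hs.1 hs.2 ht.2))

theorem invmax_nonneg (hκ : 0 < κ) (z : ℝ) : 0 ≤ (max κ z)⁻¹ :=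
  inv_nonneg.2 (hκ.le.trans (le_max_left _ _))

theorem rhb_nonneg (hκ : 0 < κ) (hx : Wt x P 1) (hk : k.Ok) (hκp : Kp k κd) (a b d : V)
    {t s : ℝ} (ht : t ∈ Icc (0 : ℝ) bt) (hs : s ∈ Icc 0 t) :
    0 ≤ rhb Z x P k Th Y κd κ a b d t s :=
  mul_nonneg (flux_nonneg hx hk hκp a b d ht hs) (mul_nonneg (mul_nonneg (invmax_nonneg hκ _)
    (invmax_nonneg hκ _)) (invmax_nonneg hκ _))

theorem rha_nonneg (hκ : 0 < κ) (hZ : Z.Ok sl) (hx : Wt x P 1) (hk : k.Ok) (hκp : Kp k κd)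
    (a b d : V) {t s : ℝ} (ht : t ∈ Icc (0 : ℝ) bt) (hs : s ∈ Icc 0 t) :
    0 ≤ rha Z x P k Th Y κd κ a b d t s :=
  le_min (hZ.hh_nonneg hx ⟨hs.1, hs.2.trans ht.2⟩ b d) (rhb_nonneg hκ hx hk hκp a b d ht hs)

/-- the conditions on the constant `κ` -/
structure Kap (Z : Hzd) (k : Kf) (κ : ℝ) : Prop where
  k0 : 0 < κ
  k2 : κ ≤ 1 / 2
  fh : ∀ y ∈ Icc (0 : ℝ) 1, ∀ s ∈ Icc (0 : ℝ) bt, Z.rr y s * κ ≤ k.fh y s
  Pe : ∀ w ∈ Icc (0 : ℝ) 1, ∀ t ∈ Icc (0 : ℝ) bt, 1 ≤ k.Pe w t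

/-- the hazard is smaller when one of the factors is truncated -/
theorem hh_le_rhb (hκ : Kap Z k κ) (hZ : Z.Ok sl) (hx : Wt x P 1) (hk : k.Ok)
    (hκp : Kp k κd)
    {a b d : V} (hb : P b) {t s : ℝ} (ht : t ∈ Icc (0 : ℝ) bt) (hst : s ∈ Icc 0 t)
    (n0 : ∀ e, 0 ≤ na Z x P Th Y a t e s) (m0 : 0 ≤ mua x P k κd a b t s)
    (hc : 1 - na Z x P Th Y a t d s < κ ∨ 1 - na Z x P Th Y a t b s < κ ∨
      1 - mua x P k κd a b t s < κ) :
    Z.hh x P s b d ≤ rhb Z x P k Th Y κd κ a b d t s := by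
  have hs : s ∈ Icc (0 : ℝ) bt := ⟨hst.1, hst.2.trans ht.2⟩
  by_cases hbd : b = d
  · subst hbd
    rw [Hzd.hh_zero (hx.diag b)]
    exact rhb_nonneg hκ.k0 hx hk hκp a b b ht hst
  have hw := two_mem hx a hbd
  have k0 := hκ.k0
  have hB : 1 ≤ κd (x a b + x a d) t s :=
    (hκ.Pe _ hw t ht).trans (hκp _ hw t s hst.1 hst.2 ht.2)
  have hf0 := fq_nonneg' hk hx (P := P) b d hs
  have hfh : Z.hh x P s b d * κ ≤ x b d * fq x P k.fh b d s := by
    unfold Hzd.hh fq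
    by_cases hP : P d
    · rw [if_pos ⟨hb, hP⟩, if_pos hP]
      have := mul_le_mul_of_nonneg_left (hκ.fh _ (x_mem hx b d) s hs) (hx.nonneg b d)
      linarith
    · rw [if_neg fun h => hP h.2, if_neg hP]
      have h1 : (1 + s)⁻¹ * κ ≤ qq s := by
        unfold qq
        have h3 : 0 < 1 + s := by linarith [hs.1]
        have h4 : ((1 + s) ^ 2)⁻¹ = (1 + s)⁻¹ * (1 + s)⁻¹ := by rw [pow_two, mul_inv]
        rw [h4]
        refine mul_le_mul_of_nonneg_left ?_ (inv_nonneg.2 h3.le)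
        refine hκ.k2.trans ?_
        rw [one_div]
        exact inv_anti₀ h3 (by linarith [hs.2, bt_le])
      have := mul_le_mul_of_nonneg_left h1 (hx.nonneg b d)
      linarith
  -- the factors
  have m1 : ∀ z : ℝ, 0 ≤ z → 1 ≤ (max κ (1 - z))⁻¹ := fun z hz => by
    refine one_le_inv₀ (lt_of_lt_of_le k0 (le_max_left _ _)) |>.2 (max_le ?_ (by linarith))
    linarith [hκ.k2]
  have m2 : ∀ z : ℝ, 1 - z < κ → (max κ (1 - z))⁻¹ = κ⁻¹ := fun z hz => by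
    rw [max_eq_left hz.le]
  have hprod : κ⁻¹ ≤ (max κ (1 - na Z x P Th Y a t d s))⁻¹
      * (max κ (1 - na Z x P Th Y a t b s))⁻¹ * (max κ (1 - mua x P k κd a b t s))⁻¹ := by
    have p1 := m1 _ (n0 d)
    have p2 := m1 _ (n0 b)
    have p3 := m1 _ m0
    have ki : 0 < κ⁻¹ := inv_pos.2 k0
    rcases hc with h | h | h
    · rw [m2 _ h]
      nlinarith [mul_nonneg ki.le (show 0 ≤ (max κ (1 - na Z x P Th Y a t b s))⁻¹ - 1 by linarith),
        mul_le_mul p2 p3 zero_le_one (by linarith)]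
    · rw [m2 _ h]
      have := mul_le_mul p1 p3 zero_le_one (by linarith)
      nlinarith
    · rw [m2 _ h]
      have := mul_le_mul p1 p2 zero_le_one (by linarith)
      nlinarith
  have hxf : 0 ≤ x b d * fq x P k.fh b d s := mul_nonneg (hx.nonneg b d) hf0
  unfold rhb
  have e : Z.hh x P s b d = Z.hh x P s b d * κ * κ⁻¹ := by
    rw [mul_assoc, mul_inv_cancel₀ k0.ne', mul_one]
  rw [e]
  refine mul_le_mul (hfh.trans ?_) hprod (inv_nonneg.2 k0.le) (mul_nonneg hxf (by linarith))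
  nlinarith

end Pool.Agent.RX.RCN.K
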