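import Pool.Agent.RX.RCN.Glue
import Pool.Agent.RX.RCN.Hz_1
import Pool.Agent.RX.RCN.Sig_1

/-! Explicit majorants of the hazards in the certified process with slack
(MP_73ccd0_lc, route M). -/

namespace Pool.Agent.RX.RCN.K

open Set Finset MeasureTheory Pool.Agent.RX.RCRSHalf Pool.Agent.RX.RCG Pool.Agent.RX.RCG.Ct

set_option linter.unusedSectionVars false

variable {V : Type*} [Fintype V] [DecidableEq V]

variable {Z : Hzd} {sl : ℝ → ℝ → ℝ}
variable {x : V → V → ℝ} {P : V → Prop} [DecidablePred P]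
variable {h : ℝ → V → V → ℝ} {H : V → V → ℝ → ℝ} {φ : V → V → ℝ → ℝ} {ab : ℝ → ℝ → ℝ} {t : ℝ}

/-- **the majorant of the hazards** -/
theorem Hzd.Ok.haz_le (hZ : Z.Ok sl) {ψ' : V → V → ℝ → ℝ} (hK : Kn x P (dn x P ψ') ab h H t)
    (hx : Wt x P 1) (hS : Sg x P (dn x P ψ') sl h H t) {s : ℝ} (hs : s ∈ Icc 0 t) (u v : V) :
    h s u v ≤ Z.hh x P s u v := by
  have hs1 : s ∈ Icc (0 : ℝ) bt := ⟨hs.1, hs.2.trans hK.ht.2⟩
  have hT : 0 < 1 + s := by linarith [hs.1]
  by_cases h0 : x u v = 0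
  · rw [hK.hz s (btI hs1) u v h0, Hzd.hh_zero h0]
  have hm := xw_mem hx u v
  by_cases hP : P u ∧ P v
  · unfold Hzd.hh Hzd.rr
    rw [if_pos hP, ← mul_div_assoc, le_div_iff₀ (hZ.den _ hm s hs1)]
    refine (haz_sl' hK hx hS hP.1 hP.2 h0 (S := Z.S (x u v)) (S' := Z.E (x u v))
      (hZ.z _ hm).ge (fun r hr => hZ.d _ hm r ⟨hr.1, hr.2.trans hK.ht.2⟩)
      (fun r hr => hZ.lo _ hm r ⟨hr.1, hr.2.trans hK.ht.2⟩) hs).trans ?_
    exact mul_le_mul_of_nonneg_left (hZ.lo _ hm s hs1) hm.1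
  · -- a pendant pair
    have pend : ∀ {a d : V}, ¬P d → x a d ≠ 0 → h s a d ≤ x a d * (1 + s)⁻¹ := by
      intro a d hd had
      have hne : a ≠ d := fun e => had (by rw [e]; exact hx.diag d)
      have hz := hK.pend_haz hx hd had
      have e2 : pp h a d s = bb h ∅ a s := by
        unfold pp bb
        rw [Finset.pair_comm]
        exact pr_pend hK.hh hne hz (by simp) (btI hs1)
      have h1 := hK.fl s hs a d
      rw [e2, dn_pend (fun hh => hd hh.2)] at h1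
      have h2 := hK.lo s hs a
      have h3 : h s a d * (1 + s)⁻¹ ≤ h s a d * bb h ∅ a s :=
        mul_le_mul_of_nonneg_left h2 (hK.hh.nonneg s a d)
      rw [h1] at h3
      have h4 : x a d * ((1 + s) ^ 2)⁻¹ = x a d * (1 + s)⁻¹ * (1 + s)⁻¹ := by
        rw [pow_two, mul_inv]; ring
      rw [h4] at h3
      exact le_of_mul_le_mul_right h3 (inv_pos.2 hT)
    unfold Hzd.hh
    rw [if_neg hP]
    by_cases hv : P v
    · have hu : ¬P u := fun hu => hP ⟨hu, hv⟩
      rw [hx.symm u v, hK.hh.symm s u v]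
      exact pend hu (by rw [hx.symm]; exact h0)
    · exact pend hv h0

/-- the integrated hazards -/
theorem Hzd.Ok.H_le (hZ : Z.Ok sl) {ψ' : V → V → ℝ → ℝ} (hK : Kn x P (dn x P ψ') ab h H t)
    (hx : Wt x P 1) (hS : Sg x P (dn x P ψ') sl h H t) {r s : ℝ} (hr : 0 ≤ r) (hrs : r ≤ s)
    (hs : s ≤ t) (u v : V) : H u v s - H u v r ≤ Z.Hh x P s u v r := by
  have key := nonneg_of_forward (a := r) (s := s)
    (U := fun z => (Z.Hh x P s u v r - Z.Hh x P s u v z) - (H u v z - H u v r))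
    (U' := fun z => (0 - -Z.hh x P z u v) - (h z u v - 0))
    (fun z hz => ((hasDerivAt_const _ _).sub (hZ.Hh_deriv hx u v
      ⟨hr.trans hz.1, (hz.2.trans hs).trans hK.ht.2⟩)).sub
      ((hK.hh.Hd u v z).sub (hasDerivAt_const _ _)))
    (by simp)
    (fun z hz _ => by
      have := hZ.haz_le hK hx hS (s := z) ⟨hr.trans hz.1, hz.2.trans hs⟩ u v
      linarith)
    s ⟨hrs, le_rfl⟩
  rw [Hzd.Hh_self] at key
  linarith

end Pool.Agent.RX.RCN.K
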