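import Pool.Agent.RX.RCG.Cx
import Pool.Agent.RX.RCM.Mono_3
import Pool.Agent.RX.RCM.NuD_1
import Pool.Agent.RX.RCN.Hz_2

/-! The bridge: the closures with explicit constants in the cells give the facts about the
certified process (MP_73ccd0_lc, route M). -/

namespace Pool.Agent.RX.RCN.K

open Set Finset MeasureTheory Pool.Agent.RX.RCRSHalf Pool.Agent.RX.RCG Pool.Agent.RX.RCG.Ct
set_option linter.unusedSectionVars false

/-! ### the cell of a time -/

/-- the cell of a time -/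
noncomputable def ci (N : ℕ) (t : ℝ) : ℕ := ⌈t / bt * N⌉₊ - 1

theorem ci_lt {N : ℕ} (hN : 0 < N) {t : ℝ} (h1 : t ≤ bt) : ci N t < N := by
  have hN' : (0 : ℝ) < N := Nat.cast_pos.2 hN
  have hb := bt_pos
  have h4 : ⌈t / bt * N⌉₊ ≤ N := by
    rw [Nat.ceil_le]
    calc t / bt * N ≤ 1 * N := mul_le_mul_of_nonneg_right ((div_le_one hb).2 h1) hN'.le
      _ = N := one_mul _
  unfold ci
  omega

theorem ci_eq {N : ℕ} {i : ℕ} {t : ℝ} (hN : 0 < N) (h0 : ca N i < t) (h1 : t ≤ cb N i) :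
    ci N t = i := by
  have hN' : (0 : ℝ) < N := Nat.cast_pos.2 hN
  have hb := bt_pos
  unfold ca at h0
  unfold cb at h1
  have h0' : (i : ℝ) / N < t / bt := by
    rw [lt_div_iff₀ hb, mul_comm]; exact h0
  have h1' : t / bt ≤ ((i : ℝ) + 1) / N := by
    rw [div_le_iff₀ hb, mul_comm]; exact h1
  rw [div_lt_iff₀ hN'] at h0'
  rw [le_div_iff₀ hN'] at h1'
  have h2 : ⌈t / bt * N⌉₊ = i + 1 := by
    refine le_antisymm (Nat.ceil_le.2 (by push_cast; exact h1')) ?_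
    exact Nat.lt_ceil.2 h0'
  unfold ci
  rw [h2]
  omega

theorem ci_mem {N : ℕ} (hN : 0 < N) {t : ℝ} (h0 : 0 ≤ t) (h1 : t ≤ bt) :
    t ∈ Icc (ca N (ci N t)) (cb N (ci N t)) := by
  have hb := bt_pos
  rcases eq_or_lt_of_le h0 with h | h
  · subst h
    have e : ci N 0 = 0 := by unfold ci; simp
    rw [e]
    unfold ca cb
    constructor
    · simp
    · positivity
  · obtain ⟨i, _, h2, h3⟩ := exists_cell hN h h1
    rw [ci_eq hN h2 h3]
    exact ⟨h2.le, h3⟩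

/-! ### classes of the second time -/

/-- the weight of the later classes -/
noncomputable def lam (ε σ s : ℝ) : ℝ := max 0 (min 1 ((s - σ) / ε + 1))

theorem lam_nonneg (ε σ s : ℝ) : 0 ≤ lam ε σ s := le_max_left _ _

theorem lam_le_one (ε σ s : ℝ) : lam ε σ s ≤ 1 := max_le zero_le_one (min_le_left _ _)

theorem lam_cont (ε σ : ℝ) : Continuous (lam ε σ) := by
  unfold lam
  fun_prop

theorem lam_one {ε σ s : ℝ} (hε : 0 < ε) (h : σ ≤ s) : lam ε σ s = 1 := by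
  unfold lam
  have h1 : 0 ≤ (s - σ) / ε := div_nonneg (by linarith) hε.le
  rw [min_eq_left (by linarith), max_eq_right zero_le_one]

theorem lam_zero {ε σ s : ℝ} (hε : 0 < ε) (h : s ≤ σ - ε) : lam ε σ s = 0 := by
  unfold lam
  have h1 : (s - σ) / ε + 1 ≤ 0 := by
    have h2 : (s - σ) / ε ≤ -1 := by
      rw [div_le_iff₀ hε]
      linarith
    linarith
  rw [max_eq_left ((min_le_right _ _).trans h1)]

/-- the interpolation of the classes; `n` classes after the class `j` -/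
noncomputable def bl (ε : ℝ) (σ : ℕ → ℝ) (f : ℕ → ℝ) (s : ℝ) : ℕ → ℕ → ℝ
  | 0, j => f j
  | n + 1, j => (1 - lam ε (σ j) s) * f j + lam ε (σ j) s * bl ε σ f s n (j + 1)

theorem bl_succ (ε : ℝ) (σ f : ℕ → ℝ) (s : ℝ) (n j : ℕ) : bl ε σ f s (n + 1) j
    = (1 - lam ε (σ j) s) * f j + lam ε (σ j) s * bl ε σ f s n (j + 1) := rfl

/-- the interpolation keeps upward closed properties -/
theorem bl_of {ε : ℝ} (hε : 0 < ε) {σ f : ℕ → ℝ} {s : ℝ} {Q : ℝ → Prop}
    (hQ : ∀ a b, Q a → a ≤ b → Q b) (n : ℕ) : ∀ j, (∀ i, j ≤ i → i ≤ j + n → s ≤ σ i → Q (f i)) →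
    s ≤ σ (j + n) → Q (bl ε σ f s n j) := by
  induction n with
  | zero => exact fun j h hs => h j le_rfl le_rfl hs
  | succ n ih =>
    intro j h hs
    have h1 : Q (bl ε σ f s n (j + 1)) := by
      refine ih (j + 1) (fun i h2 h3 h4 => h i (by omega) (by omega) h4) ?_
      rwa [show j + 1 + n = j + (n + 1) by ring]
    rw [bl_succ]
    by_cases hj : s ≤ σ j
    · have h2 := h j le_rfl (by omega) hj
      have l0 := lam_nonneg ε (σ j) s
      have l1 := lam_le_one ε (σ j) s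
      rcases le_total (f j) (bl ε σ f s n (j + 1)) with h3 | h3
      · refine hQ _ _ h2 ?_
        nlinarith
      · refine hQ _ _ h1 ?_
        nlinarith
    · rw [lam_one hε (not_le.1 hj).le]
      refine hQ _ _ h1 (le_of_eq ?_)
      ring

theorem bl_nonneg {ε : ℝ} {σ f : ℕ → ℝ} {s : ℝ} (n : ℕ) :
    ∀ j, (∀ i, j ≤ i → i ≤ j + n → 0 ≤ f i) → 0 ≤ bl ε σ f s n j := by
  induction n with
  | zero => exact fun j h => h j le_rfl le_rfl
  | succ n ih =>
    intro j h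
    rw [bl_succ]
    exact add_nonneg (mul_nonneg (sub_nonneg.2 (lam_le_one _ _ _)) (h j le_rfl (by omega)))
      (mul_nonneg (lam_nonneg _ _ _) (ih (j + 1) fun i h2 h3 => h i (by omega) (by omega)))

/-- monotonicity: only the classes with `s ≤ σ` matter, and the last one -/
theorem bl_mono {ε : ℝ} (hε : 0 < ε) {σ f g : ℕ → ℝ} {s : ℝ} (n : ℕ) :
    ∀ j, (∀ i, j ≤ i → i ≤ j + n → (i < j + n → s ≤ σ i) → f i ≤ g i) →
    bl ε σ f s n j ≤ bl ε σ g s n j := by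
  induction n with
  | zero => exact fun j h => h j le_rfl le_rfl fun h => absurd h (lt_irrefl _)
  | succ n ih =>
    intro j h
    have h1 : bl ε σ f s n (j + 1) ≤ bl ε σ g s n (j + 1) :=
      ih (j + 1) fun i h2 h3 h4 => h i (by omega) (by omega) fun h5 => h4 (by omega)
    rw [bl_succ, bl_succ]
    by_cases hj : s ≤ σ j
    · exact add_le_add (mul_le_mul_of_nonneg_left (h j le_rfl (by omega) fun _ => hj)
        (sub_nonneg.2 (lam_le_one _ _ _))) (mul_le_mul_of_nonneg_left h1 (lam_nonneg _ _ _))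
    · rw [lam_one hε (not_le.1 hj).le]
      linarith

/-- linear combinations -/
theorem bl_sum {ε : ℝ} {σ : ℕ → ℝ} {s : ℝ} {ι : Type*} (U : Finset ι) (w : ι → ℝ)
    (f : ι → ℕ → ℝ) (n : ℕ) : ∀ j, ∑ q ∈ U, w q * bl ε σ (f q) s n j
      = bl ε σ (fun i => ∑ q ∈ U, w q * f q i) s n j := by
  induction n with
  | zero => exact fun j => rfl
  | succ n ih =>
    intro j
    rw [bl_succ, ← ih (j + 1), Finset.mul_sum, Finset.mul_sum, ← Finset.sum_add_distrib]
    refine Finset.sum_congr rfl fun q _ => ?_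
    rw [bl_succ]
    ring

/-- a constant bound of the active classes -/
theorem bl_le {ε : ℝ} (hε : 0 < ε) {σ f : ℕ → ℝ} {s c : ℝ} (n : ℕ) :
    ∀ j, (∀ i, j ≤ i → i ≤ j + n → (i < j + n → s ≤ σ i) → (∀ k, j ≤ k → k < i → σ k - ε < s) →
      f i ≤ c) → bl ε σ f s n j ≤ c := by
  induction n with
  | zero =>
    exact fun j h => h j le_rfl le_rfl (fun h => absurd h (lt_irrefl _))
      (fun k h1 h2 => absurd h2 (not_lt.2 h1))
  | succ n ih =>
    intro j h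
    rw [bl_succ]
    by_cases h0 : s ≤ σ j - ε
    · rw [lam_zero hε h0]
      have := h j le_rfl (by omega) (fun _ => by linarith) fun k h1 h2 => absurd h2 (not_lt.2 h1)
      linarith
    · have h1 : bl ε σ f s n (j + 1) ≤ c :=
        ih (j + 1) fun i h2 h3 h4 h5 => h i (by omega) (by omega) (fun h6 => h4 (by omega))
          fun k h6 h7 => by
            rcases eq_or_lt_of_le h6 with h8 | h8
            · rw [← h8]; exact not_le.1 h0
            · exact h5 k h8 h7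
      have l0 := lam_nonneg ε (σ j) s
      have l1 := lam_le_one ε (σ j) s
      by_cases hj : s ≤ σ j
      · have h2 := h j le_rfl (by omega) (fun _ => hj) fun k h1 h2 => absurd h2 (not_lt.2 h1)
        nlinarith
      · rw [lam_one hε (not_le.1 hj).le]
        linarith

variable {V : Type*} [Fintype V] [DecidableEq V]

/-- cells of the first time and classes of the second time, with the exponents of the closures -/
structure Cx (V : Type*) where
  N : ℕ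
  M : ℕ → ℕ
  sg : ℕ → ℕ → ℝ
  ε : ℝ
  lo : ℝ → ℝ
  L : ℕ → ℕ → V → V → V → V → ℝ → ℝ → ℝ
  Lt : ℕ → ℕ → V → V → V → V → ℝ → ℝ → ℝ

section defs

variable (Z : Hzd) (x : V → V → ℝ) (P : V → Prop) [DecidablePred P] (C : Cx V)

/-- valid quadruples -/
def Vq (a b c d : V) : Prop :=
  P a ∧ P b ∧ a ≠ b ∧ c ∈ ({a, b} : Finset V)ᶜ ∧ d ∈ ({a, b} : Finset V)ᶜ ∧ c ≠ d

instance (a b c d : V) : Decidable (Vq P a b c d) := by unfold Vq; infer_instance

/-- the exponent of the deleted closure -/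
noncomputable def Lc (a b c d : V) (t s : ℝ) : ℝ :=
  if Vq P a b c d then
    bl C.ε (C.sg (ci C.N t)) (fun j => max 0 (C.L (ci C.N t) j a b c d t
      (min s (C.sg (ci C.N t) j)))) s (C.M (ci C.N t)) 0
  else 0

/-- the exponent of the released closure -/
noncomputable def Lr (a b c d : V) (t s : ℝ) : ℝ :=
  if Vq P a b c d then
    bl C.ε (C.sg (ci C.N t)) (fun j => max 0 (C.Lt (ci C.N t) j a b c d t
      (min s (C.sg (ci C.N t) j)))) s (C.M (ci C.N t)) 0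
  else 0

/-- the conditions on the cells and classes -/
structure Cls : Prop where
  N0 : 0 < C.N
  ε0 : 0 < C.ε
  sg0 : ∀ i < C.N, ∀ j ≤ C.M i, 0 ≤ C.sg i j
  last : ∀ i < C.N, C.sg i (C.M i) = cb C.N i
  cL : ∀ i < C.N, ∀ j ≤ C.M i, ∀ a b c d, Vq P a b c d →
    ContinuousOn (fun p : ℝ × ℝ => C.L i j a b c d p.1 p.2) (Ws (ca C.N i) (cb C.N i) (C.sg i j))
  cLt : ∀ i < C.N, ∀ j ≤ C.M i, ∀ a b c d, Vq P a b c d →
    ContinuousOn (fun p : ℝ × ℝ => C.Lt i j a b c d p.1 p.2) (Ws (ca C.N i) (cb C.N i) (C.sg i j))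
  vL : ∀ i < C.N, ∀ j ≤ C.M i, ∀ (h : ℝ → V → V → ℝ) (H : V → V → ℝ → ℝ) (t : ℝ), Haz h H →
    t ∈ Icc (ca C.N i) (cb C.N i) → (∀ u v, ∀ r ∈ Icc 0 t, h r u v ≤ Z.hh x P r u v) →
    (∀ u v, ∀ σ ∈ Icc 0 t, ∀ r ∈ Icc 0 σ, H u v σ - H u v r ≤ Z.Hh x P σ u v r) →
    (∀ u v, P u → P v → ∀ r ∈ Icc 0 t, x u v * C.lo r ≤ h r u v) →
    ∀ a b c d, Vq P a b c d → ∀ s ∈ Icc 0 t, s ≤ C.sg i j →
    RCM.CloD h t s {a} {a, b} c d (Real.exp (C.L i j a b c d t s))
  vLt : ∀ i < C.N, ∀ j ≤ C.M i, ∀ (h : ℝ → V → V → ℝ) (H : V → V → ℝ → ℝ) (t : ℝ), Haz h H →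
    t ∈ Icc (ca C.N i) (cb C.N i) → (∀ u v, ∀ r ∈ Icc 0 t, h r u v ≤ Z.hh x P r u v) →
    (∀ u v, ∀ σ ∈ Icc 0 t, ∀ r ∈ Icc 0 σ, H u v σ - H u v r ≤ Z.Hh x P σ u v r) →
    (∀ u v, P u → P v → ∀ r ∈ Icc 0 t, x u v * C.lo r ≤ h r u v) →
    ∀ a b c d, Vq P a b c d → ∀ s ∈ Icc 0 t, s ≤ C.sg i j →
    RCM.CloDt h t s {a} {a, b} c d (Real.exp (C.Lt i j a b c d t s))

end defs

variable {Z : Hzd} {x : V → V → ℝ} {P : V → Prop} [DecidablePred P] {C : Cx V}
  {B E1 : ℝ → ℝ → ℝ} {sl : ℝ → ℝ → ℝ}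

theorem Lc_nonneg (a b c d : V) (t s : ℝ) : 0 ≤ Lc P C a b c d t s := by
  unfold Lc
  split_ifs
  · exact bl_nonneg _ _ fun i _ _ => le_max_left _ _
  · exact le_rfl

theorem Lr_nonneg (a b c d : V) (t s : ℝ) : 0 ≤ Lr P C a b c d t s := by
  unfold Lr
  split_ifs
  · exact bl_nonneg _ _ fun i _ _ => le_max_left _ _
  · exact le_rfl

theorem bl_cont {ε : ℝ} {σ : ℕ → ℝ} {f : ℕ → ℝ × ℝ → ℝ} {S : Set (ℝ × ℝ)} (n : ℕ) :
    ∀ j, (∀ i, j ≤ i → i ≤ j + n → ContinuousOn (f i) S) →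
    ContinuousOn (fun p : ℝ × ℝ => bl ε σ (fun i => f i p) p.2 n j) S := by
  induction n with
  | zero => exact fun j h => h j le_rfl le_rfl
  | succ n ih =>
    intro j h
    have c1 : ContinuousOn (fun p : ℝ × ℝ => lam ε (σ j) p.2) S :=
      ((lam_cont ε (σ j)).comp continuous_snd).continuousOn
    exact ((continuousOn_const.sub c1).mul (h j le_rfl (by omega))).add
      (c1.mul (ih (j + 1) fun i h2 h3 => h i (by omega) (by omega)))

theorem Cls.cnd (h : Cls Z x P C) (a b c d : V) : CN C.N (Lc P C a b c d) := by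
  by_cases hv : Vq P a b c d
  · intro i hi
    refine ⟨fun t s => bl C.ε (C.sg i) (fun j => max 0 (C.L i j a b c d t
      (min s (C.sg i j)))) s (C.M i) 0, ?_, fun t s h0 h1 _ _ => ?_⟩
    · refine bl_cont (f := fun j p => max 0 (C.L i j a b c d p.1 (min p.2 (C.sg i j)))) _ _
        fun j _ hj => ?_
      rw [zero_add] at hj
      exact ContinuousOn.sup continuousOn_const
        (ws_min (h.sg0 i hi j hj) (h.cL i hi j hj a b c d hv))
    · show Lc P C a b c d t s = _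
      unfold Lc
      rw [if_pos hv, ci_eq h.N0 h0 h1]
  · have : Lc P C a b c d = fun _ _ => 0 := by
      funext t s; unfold Lc; rw [if_neg hv]
    rw [this]
    exact CN.const 0

theorem Cls.cnr (h : Cls Z x P C) (a b c d : V) : CN C.N (Lr P C a b c d) := by
  by_cases hv : Vq P a b c d
  · intro i hi
    refine ⟨fun t s => bl C.ε (C.sg i) (fun j => max 0 (C.Lt i j a b c d t
      (min s (C.sg i j)))) s (C.M i) 0, ?_, fun t s h0 h1 _ _ => ?_⟩
    · refine bl_cont (f := fun j p => max 0 (C.Lt i j a b c d p.1 (min p.2 (C.sg i j)))) _ _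
        fun j _ hj => ?_
      rw [zero_add] at hj
      exact ContinuousOn.sup continuousOn_const
        (ws_min (h.sg0 i hi j hj) (h.cLt i hi j hj a b c d hv))
    · show Lr P C a b c d t s = _
      unfold Lr
      rw [if_pos hv, ci_eq h.N0 h0 h1]
  · have : Lr P C a b c d = fun _ _ => 0 := by
      funext t s; unfold Lr; rw [if_neg hv]
    rw [this]
    exact CN.const 0

section world

variable {h : ℝ → V → V → ℝ} {H : V → V → ℝ → ℝ} {t : ℝ}

theorem cls_del (hC : Cls Z x P C) (hh : Haz h H) (ht : t ∈ Icc (0 : ℝ) bt)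
    (hle : ∀ u v, ∀ r ∈ Icc 0 t, h r u v ≤ Z.hh x P r u v)
    (hHle : ∀ u v, ∀ σ ∈ Icc 0 t, ∀ r ∈ Icc 0 σ, H u v σ - H u v r ≤ Z.Hh x P σ u v r)
    (hlo : ∀ u v, P u → P v → ∀ r ∈ Icc 0 t, x u v * C.lo r ≤ h r u v)
    {a b c d : V} (hv : Vq P a b c d) {s : ℝ} (hs : s ∈ Icc 0 t) :
    RCM.CloD h t s {a} {a, b} c d (Real.exp (Lc P C a b c d t s)) := by
  have hi := ci_lt hC.N0 ht.2
  have hm := ci_mem hC.N0 ht.1 ht.2
  unfold Lc
  rw [if_pos hv]
  refine bl_of (Q := fun L => RCM.CloD h t s {a} {a, b} c d (Real.exp L)) hC.ε0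
    (fun u v hu huv => hu.mono hh (btI ht) hs (Real.exp_le_exp.2 huv)) _ 0 (fun j _ hj hsj => ?_) ?_
  · rw [zero_add] at hj
    rw [min_eq_left hsj]
    exact (hC.vL _ hi j hj h H t hh hm hle hHle hlo a b c d hv s hs hsj).mono hh (btI ht) hs
      (Real.exp_le_exp.2 (le_max_right _ _))
  · rw [zero_add, hC.last _ hi]
    exact hs.2.trans hm.2

theorem cls_rel (hC : Cls Z x P C) (hh : Haz h H) (ht : t ∈ Icc (0 : ℝ) bt)
    (hle : ∀ u v, ∀ r ∈ Icc 0 t, h r u v ≤ Z.hh x P r u v)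
    (hHle : ∀ u v, ∀ σ ∈ Icc 0 t, ∀ r ∈ Icc 0 σ, H u v σ - H u v r ≤ Z.Hh x P σ u v r)
    (hlo : ∀ u v, P u → P v → ∀ r ∈ Icc 0 t, x u v * C.lo r ≤ h r u v)
    {a b c d : V} (hv : Vq P a b c d) {s : ℝ} (hs : s ∈ Icc 0 t) :
    RCM.CloDt h t s {a} {a, b} c d (Real.exp (Lr P C a b c d t s)) := by
  have hi := ci_lt hC.N0 ht.2
  have hm := ci_mem hC.N0 ht.1 ht.2
  unfold Lr
  rw [if_pos hv]
  refine bl_of (Q := fun L => RCM.CloDt h t s {a} {a, b} c d (Real.exp L)) hC.ε0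
    (fun u v hu huv => hu.mono hh (btI ht) hs (Real.exp_le_exp.2 huv)) _ 0 (fun j _ hj hsj => ?_) ?_
  · rw [zero_add] at hj
    rw [min_eq_left hsj]
    exact (hC.vLt _ hi j hj h H t hh hm hle hHle hlo a b c d hv s hs hsj).mono hh (btI ht) hs
      (Real.exp_le_exp.2 (le_max_right _ _))
  · rw [zero_add, hC.last _ hi]
    exact hs.2.trans hm.2

/-- removal of a vertex in the world of `a`, with the vector lower function -/
theorem rem_of_L0s {mb : ℝ → ℝ} {θ : V → ℝ → ℝ} {Y Y' M M' : ℝ → ℝ} {a : V}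
    (hL : RCM.L0s (Z.hh x P) x {a} t mb θ Y Y' M M') (hx : Wt x P 1)
    (hh : Haz h H) (ht : t ∈ Icc (0 : ℝ) bt)
    (hle : ∀ u v, ∀ r ∈ Icc 0 t, h r u v ≤ Z.hh x P r u v)
    (hθ : ∀ e, ∀ r ∈ Icc 0 t, H a e t - H a e r ≤ x a e * θ a r)
    {Ra : Finset V → ℝ → ℝ} (hRa : RCM.Wd h (fun r v => h r a v) t Ra)
    (a1 : ∀ F, Ra F t = 1) {s : ℝ} (hs : s ∈ Icc 0 t) (F : Finset V) (e : V) (haF : a ∉ F)
    (heF : e ∉ F) (hea : e ≠ a) :
    (1 - RCM.nx (Z.hh x P) x {a} θ Y t e s) * Ra (insert e F) s ≤ Ra F s := by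
  obtain ⟨Q, Q', L, -, -⟩ := hL.phase (wt_of hx) hh ht.1 hle (A := {a}) (Finset.Subset.refl _)
    (s := t) le_rfl (τ := fun _ => t) (fun _ _ => le_rfl)
    (fun w hw e r hr => by rw [Finset.mem_singleton.1 hw]; exact hθ e r hr)
  have key := L.inf hh.symm hh.diag hh.nonneg (κ1 := fun r v => h r a v)
    (fun r v => hh.nonneg r a v) (fun r v => by rw [Finset.sum_singleton]) le_rfl hRa
    (fun h0 G _ e _ => by
      rw [a1, a1, mul_one, mul_one]
      exact ⟨by linarith [L.P0 e t ⟨h0, le_rfl⟩], by linarith [L.N0 e t ⟨h0, le_rfl⟩]⟩)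
  have hG : insert e F ⊆ ({a} : Finset V)ᶜ := by
    intro z hz
    rw [Finset.mem_compl, Finset.mem_singleton]
    rcases Finset.mem_insert.1 hz with h1 | h1
    · rw [h1]; exact hea
    · exact fun h2 => haF (h2 ▸ h1)
  have h1 := key s hs (insert e F) hG e (Finset.mem_insert_self e F)
  rw [Finset.erase_insert heF] at h1
  exact h1.2

end world

/-- the closure at the final time for other targets -/
theorem clo_pr_le {h : ℝ → V → V → ℝ} {H : V → V → ℝ → ℝ} (hh : Haz h H) {t : ℝ}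
    (ht : t ∈ Icc (0 : ℝ) 1) {A D : Finset V} {c d : V}
    (hcA : c ∉ A) {K : ℝ} (hC : RCM.CloD h t t A D c d K) :
    pr (lw h ∅ t) (insert d D) * pr (lw h ∅ t) (insert c D) ≤
      K * (pr (lw h ∅ t) ({c, d} ∪ D) * pr (lw h ∅ t) D) := by
  obtain ⟨Ra, Rac, hRa, a1, hRac, c1⟩ := RCM.exists_worlds hh A hcA ht
  have := hC Ra Rac hRa a1 hRac c1
  simp only [a1, c1] at this
  rwa [ex_one, ex_one, ex_one, ex_one] at this

/-- the closures at the end time give the second order -/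
theorem ec_of {x : V → V → ℝ} {P : V → Prop} [DecidablePred P] {C : Cx V} {Z : Hzd}
    {c : Cf} {W : Pf V} {sl : ℝ → ℝ → ℝ} (hC : Cls Z x P C) (hZ : Z.Ok sl) (hx : Wt x P 1)
    (hmt : ∀ y ∈ Icc (0 : ℝ) 1, Z.rr y bt ≤ mt) (hm1 : 1 ≤ mt)
    (hlo : ∀ (h : ℝ → V → V → ℝ) (H : V → V → ℝ → ℝ),
      Kn x P (dn x P (psi' c x P W)) c.ab h H bt → Sg x P (dn x P (psi' c x P W)) sl h H bt →
      ∀ u v, P u → P v → ∀ r ∈ Icc 0 bt, x u v * C.lo r ≤ h r u v)
    (hla : ∀ a b, P a → P b → a ≠ b → ∀ d ∈ ({a, b} : Finset V)ᶜ, (x a d ≠ 0 ∨ x b d ≠ 0) →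
      ∑ e ∈ ({a, b, d} : Finset V)ᶜ, (x a e + x b e) * (1 - Real.exp (-(Lc P C a b d e bt bt)))
        ≤ la - lb * (x a d + x b d)) :
    Ec c x P W sl fun a b d e => Lc P C a b d e bt bt where
  hm h H hK hS u e := by
    refine (hZ.haz_le hK hx hS bt_m1 u e).trans ?_
    have hm := xw_mem hx u e
    unfold Hzd.hh
    split_ifs
    · exact mul_le_mul_of_nonneg_left (hmt _ hm) hm.1
    · refine mul_le_mul_of_nonneg_left (le_trans ?_ hm1) hm.1
      exact inv_le_one_of_one_le₀ (by linarith [bt_nn])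
  L0 a b d e := Lc_nonneg a b d e bt bt
  cl h H hK hS a b ha hb hab _ d hd e he := by
    have hle : ∀ u v, ∀ r ∈ Icc 0 bt, h r u v ≤ Z.hh x P r u v :=
      fun u v r hr => hZ.haz_le hK hx hS hr u v
    have hHle : ∀ u v, ∀ σ ∈ Icc 0 bt, ∀ r ∈ Icc 0 σ,
        H u v σ - H u v r ≤ Z.Hh x P σ u v r :=
      fun u v σ hσ r hr => hZ.H_le hK hx hS hr.1 hr.2 hσ.2 u v
    have hd' := hd
    simp only [Finset.mem_compl, Finset.mem_insert, Finset.mem_singleton, not_or] at he hd'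
    have hv : Vq P a b d e := by
      refine ⟨ha, hb, hab, hd, ?_, Ne.symm he.2.2⟩
      rw [Finset.mem_compl]
      simp [he.1, he.2.1]
    have hc := cls_del hC hK.hh bt_m1 hle hHle (hlo h H hK hS) hv (s := bt) bt_m1
    have k := clo_pr_le hK.hh (btI bt_m1) (by simp [hd'.1]) hc
    have s1 : insert e ({a, b} : Finset V) = {a, b, e} := by
      ext z; simp only [Finset.mem_insert, Finset.mem_singleton]; tauto
    have s2 : insert d ({a, b} : Finset V) = {a, b, d} := by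
      ext z; simp only [Finset.mem_insert, Finset.mem_singleton]; tauto
    have s3 : ({d, e} ∪ {a, b} : Finset V) = {a, b, d, e} := by
      ext z; simp only [Finset.mem_union, Finset.mem_insert, Finset.mem_singleton]; tauto
    rw [s1, s2, s3] at k
    exact k
  la := hla

section final

variable {V : Type} [Fintype V] [DecidableEq V] {Gr : SimpleGraph V} [Fintype Gr.edgeSet]
  [DecidableEq Gr.edgeSet] {x : Gr.edgeSet → ℝ}
variable {δ : ℝ}

variable {b0 b1 : ℝ → ℝ} {Pe : ℝ → ℝ → ℝ} {Pt : ℝ → ℝ → ℝ → ℝ}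
variable {κd : ℝ → ℝ → ℝ → ℝ} {R : V ⊕ V → V ⊕ V → V ⊕ V → ℝ → ℝ → ℝ}
  {C : Cx (V ⊕ V)}

end final

end Pool.Agent.RX.RCN.K
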