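import Mathlib

/-! The (M) lemma in the certified process, with explicit integrals (MP_73ccd0_lc, route M). -/

namespace Pool.Agent.RX.RCN

open Set Finset MeasureTheory

set_option linter.unusedSectionVars false

/-- primitive of a function which is continuous on `[0, t]` -/
theorem exists_prim {f : ℝ → ℝ} {t : ℝ} (ht : 0 ≤ t) (hf : ContinuousOn f (Icc 0 t)) :
    ∃ F : ℝ → ℝ, (∀ s ∈ Icc 0 t, HasDerivAt F (f s) s) ∧
      ∀ s ∈ Icc 0 t, ∀ r ∈ Icc 0 t, F r - F s = ∫ z in s..r, f z := by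
  set fe : ℝ → ℝ := fun s => f (max 0 (min s t)) with hfe
  have hmem : ∀ s, max 0 (min s t) ∈ Icc 0 t := fun s =>
    ⟨le_max_left _ _, max_le ht (min_le_right _ _)⟩
  have heq : ∀ s ∈ Icc 0 t, max 0 (min s t) = s := fun s hs => by
    rw [min_eq_left hs.2, max_eq_right hs.1]
  have hc : Continuous fe := hf.comp_continuous (by fun_prop) hmem
  refine ⟨fun s => ∫ z in (0 : ℝ)..s, fe z, fun s hs => ?_, fun s hs r hr => ?_⟩
  · have := (hc.integral_hasStrictDerivAt 0 s).hasDerivAt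
    simp only [hfe, heq s hs] at this
    exact this
  · show (∫ z in (0 : ℝ)..r, fe z) - (∫ z in (0 : ℝ)..s, fe z) = _
    rw [intervalIntegral.integral_interval_sub_left (hc.intervalIntegrable _ _)
      (hc.intervalIntegrable _ _)]
    refine intervalIntegral.integral_congr fun z hz => ?_
    have hz1 : z ∈ Icc 0 t := by
      rcases le_total s r with h | h
      · rw [uIcc_of_le h] at hz
        exact ⟨hs.1.trans hz.1, hz.2.trans hr.2⟩
      · rw [uIcc_of_ge h] at hz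
        exact ⟨hr.1.trans hz.1, hz.2.trans hs.2⟩
    simp only [hfe, heq z hz1]

variable {V : Type*} [Fintype V] [DecidableEq V]
variable {x : V → V → ℝ} {P : V → Prop} [DecidablePred P]
variable {h : ℝ → V → V → ℝ} {H : V → V → ℝ → ℝ}
variable {ψ ψ' : V → V → ℝ → ℝ} {ab : ℝ → ℝ → ℝ} {t : ℝ}

/-- the error rate of the (M) lemma -/
noncomputable def er (x : V → V → ℝ) (a b c : V) (t : ℝ) (fh nu : V → ℝ → ℝ) (la : ℝ → ℝ)
    (B : V → ℝ → ℝ) (s : ℝ) : ℝ :=
  ∑ d ∈ ({a, b, c} : Finset V)ᶜ, x b d * fh d s * (B d s * (1 - (1 - nu d s)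
    * Real.exp (-∫ r in s..t, la r)))

theorem one_sub_exp_nonneg {n l : ℝ} (n0 : 0 ≤ n) (n1 : n ≤ 1) (l0 : 0 ≤ l) :
    0 ≤ 1 - (1 - n) * Real.exp (-l) := by
  have e1 : Real.exp (-l) ≤ 1 := by
    rw [Real.exp_le_one_iff]; linarith
  have e0 := (Real.exp_pos (-l)).le
  nlinarith

end Pool.Agent.RX.RCN
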