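import Pool.Agent.RX.RCN.Abs_1
import Pool.Agent.RX.RCN.Brg_1
import Pool.Agent.RX.RCN.Hl

/-! The rates of the released pairs: the hazards, or the densities divided by the free probability
(MP_73ccd0_lc, route M). -/

namespace Pool.Agent.RX.RCN

open Set MeasureTheory

variable {N : ℕ} {F : ℝ → ℝ → ℝ} {α β : ℝ}

end Pool.Agent.RX.RCN

namespace Pool.Agent.RX.RCN.K

open Set Finset MeasureTheory Pool.Agent.RX.RCRSHalf Pool.Agent.RX.RCG Pool.Agent.RX.RCG.Ct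
open Pool.Agent.RX.RCN.Ker

set_option linter.unusedSectionVars false

variable {V : Type*} [Fintype V] [DecidableEq V]

section defs

variable (Z : Hzd) (x : V → V → ℝ) (P : V → Prop) [DecidablePred P] (k : Kf)
  (Th Y : ℝ → ℝ → ℝ) (κd : ℝ → ℝ → ℝ → ℝ) (κ : ℝ)

end defs

variable {Z : Hzd} {x : V → V → ℝ} {P : V → Prop} [DecidablePred P] {k : Kf}
  {Th Y : ℝ → ℝ → ℝ} {κd : ℝ → ℝ → ℝ → ℝ} {κ : ℝ} {N : ℕ} {sl : ℝ → ℝ → ℝ}

/-- **the rates of the released pairs are valid** -/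
theorem rha_valid {h : ℝ → V → V → ℝ} {H : V → V → ℝ → ℝ} {t : ℝ} (hκ : Kap Z k κ)
    (hZ : Z.Ok sl) (hx : Wt x P 1) (hk : k.Ok)
    (hfc : ∀ y ∈ Icc (0 : ℝ) 1, ContinuousOn (k.fh y) (Icc 0 bt))
    (hκp : Kp k κd) (N0 : 0 < N) (cκ : ∀ w, CN N (κd w))
    (hh : Haz h H) (ht : t ∈ Icc (0 : ℝ) bt)
    (hle : ∀ u v, ∀ r ∈ Icc 0 t, h r u v ≤ Z.hh x P r u v)
    (hHle : ∀ u v, ∀ σ ∈ Icc 0 t, ∀ r ∈ Icc 0 σ, H u v σ - H u v r ≤ Z.Hh x P σ u v r)
    (hTh : ∀ r ∈ Icc 0 t, Clt Z r t (Th t r)) {a b : V} (hb : P b) (hab : a ≠ b)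
    {mb : ℝ → ℝ} {Y' M M' : ℝ → ℝ}
    (hL : RCM.L0s (Z.hh x P) x {a} t mb (fun _ => Th t) (Y t) Y' M M')
    (hz : ∀ r ∈ Icc (0 : ℝ) bt, ∀ u v, x u v = 0 → h r u v = 0)
    (hfl : ∀ d ∈ ({a, b} : Finset V)ᶜ, x b d ≠ 0 → ∀ s ∈ Icc 0 t,
      h s b d * pr (lw h ∅ s) {b, d} ≤ x b d * fq x P k.fh b d s)
    (hd : ∀ d ∈ ({a, b} : Finset V)ᶜ, x b d ≠ 0 → ∀ s ∈ Icc 0 t,
      RCM.Dens h t s a b d (κd (x a b + x a d) t s))
    {Ra : Finset V → ℝ → ℝ} (hRa : RCM.Wd h (fun r v => h r a v) t Ra) (a1 : ∀ F, Ra F t = 1)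
    {d : V} (hdm : d ∈ ({a, b} : Finset V)ᶜ) {s : ℝ} (hs : s ∈ Icc 0 t) :
    h s b d * RCM.eYt h a b d Ra s ≤ rha Z x P k Th Y κd κ a b d t s * RCM.eZ h a b Ra s := by
  have hs1 : s ∈ Icc (0 : ℝ) bt := ⟨hs.1, hs.2.trans ht.2⟩
  have hdm' := hdm
  simp only [Finset.mem_compl, Finset.mem_insert, Finset.mem_singleton, not_or] at hdm'
  have hZ0 : 0 ≤ RCM.eZ h a b Ra s := (RCM.ex_pos hh (btI hs1) fun F => hRa.pos _ s hs).le
  -- the hazard form
  have k1 : h s b d * RCM.eYt h a b d Ra s ≤ Z.hh x P s b d * RCM.eZ h a b Ra s :=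
    mul_le_mul (hle b d s hs) (RCM.eYt_le hh (Ne.symm hdm'.1) (Ne.symm hdm'.2) (bt2 ht) hRa hs)
      (RCM.ex_pos hh (btI hs1) fun F => hRa.pos _ s hs).le (hZ.hh_nonneg hx hs1 b d)
  have m1 : ∀ r ∈ Icc 0 s, r ∈ Icc 0 t := fun r hr => ⟨hr.1, hr.2.trans hs.2⟩
  have m2 : ∀ r ∈ Icc 0 s, r ∈ Icc (0 : ℝ) bt := fun r hr => ⟨hr.1, hr.2.trans hs1.2⟩
  unfold rha
  rw [min_mul_of_nonneg _ _ hZ0]
  refine le_min k1 ?_
  have n0 : ∀ e, 0 ≤ na Z x P Th Y a t e s := fun e => hL.nx_nonneg (wt_of hx) e hs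
  have m0 : 0 ≤ mua x P k κd a b t s := intervalIntegral.integral_nonneg hs.1 fun r hr =>
    Finset.sum_nonneg fun d _ => flux_nonneg hx hk hκp a b d ht (m1 r hr)
  by_cases hc : 1 - na Z x P Th Y a t d s < κ ∨ 1 - na Z x P Th Y a t b s < κ ∨
      1 - mua x P k κd a b t s < κ
  · exact k1.trans (mul_le_mul_of_nonneg_right
      (hh_le_rhb hκ hZ hx hk hκp hb ht hs n0 m0 hc) hZ0)
  · push Not at hc
    obtain ⟨c1, c2, c3⟩ := hc
    have k0 := hκ.k0
    have pa : 0 ≤ pr (lw h ∅ t) {a} := (RCM.pr_pos' hh (btI ht) _).le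
    have key := rh_of_N hh hab ht hRa a1 hs (n := fun e => na Z x P Th Y a t e s)
      (mu := mua x P k κd a b t s) (by linarith)
      (fun F e haF heF hea => rem_of_L0s hL hx hh ht hle
        (fun e r hr => (hHle a e t ⟨ht.1, le_rfl⟩ r hr).trans
          ((hTh r hr).Hh_le hx hr.1 hr.2 a e)) hRa a1 hs F e haF heF hea)
      (y := fun d r => x b d * fq x P k.fh b d r * κd (x a b + x a d) t r)
      (fun d _ => by
        have q1 := (fq_cont' hfc hx b d (P := P)).mono (Icc_subset_Icc_right hs1.2)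
        have q2 := ((cκ (x a b + x a d)).slice N0 ht).mono (Icc_subset_Icc_right hs.2)
        exact (continuousOn_const.mul q1).mul q2)
      (fun d hd' r hr => by
        by_cases hx0 : x b d = 0
        · rw [hz r (m2 r hr) b d hx0, zero_mul]
          exact mul_nonneg pa (flux_nonneg hx hk hκp a b d ht (m1 r hr))
        · have e : (insert d ({a, b} : Finset V)) = ({a, b, d} : Finset V) := by
            ext z; simp only [Finset.mem_insert, Finset.mem_singleton]; tauto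
          have h1 : RCM.eY h a b d Ra r ≤ pr (lw h ∅ t) {a} * (pr (lw h ∅ r) {b, d}
              * κd (x a b + x a d) t r) := by
            unfold RCM.eY
            rw [e]
            exact hd d hd' hx0 r (m1 r hr) Ra hRa.ev a1
          have h2 := mul_le_mul_of_nonneg_left h1 (hh.nonneg r b d)
          refine h2.trans ?_
          have h3 := hfl d hd' hx0 r (m1 r hr)
          have hB : 0 ≤ κd (x a b + x a d) t r := by
            simp only [Finset.mem_compl, Finset.mem_insert, Finset.mem_singleton, not_or] at hd'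
            have hw := two_mem hx a (Ne.symm hd'.2)
            exact (hk.Pe0 _ hw t ht).trans (hκp _ hw t r (m1 r hr).1 (m1 r hr).2 ht.2)
          have h4 := mul_le_mul_of_nonneg_left (mul_le_mul_of_nonneg_right h3 hB) pa
          calc _ = pr (lw h ∅ t) {a} * (h r b d * pr (lw h ∅ r) {b, d}
                * κd (x a b + x a d) t r) := by ring
            _ ≤ _ := h4)
      (le_of_eq rfl) hdm (by linarith) (by linarith)
    refine key.trans (le_of_eq ?_)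
    unfold rhb
    rw [max_eq_right c1, max_eq_right c2, max_eq_right c3, mul_inv, mul_inv]

end Pool.Agent.RX.RCN.K
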