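import Pool.Agent.RX.RCG.CtA
import Pool.Agent.RX.RCN.KerA
import Pool.Agent.RX.RCN.KleA
import Pool.Agent.RX.RCN.Mex_1
import Pool.Agent.RX.RCN.Par

/-! From the closures to the bound of the triple probabilities with an explicit error function
(MP_73ccd0_lc, route M). -/

namespace Pool.Agent.RX.RCN.K

open Set Finset MeasureTheory Pool.Agent.RX.RCG Pool.Agent.RX.RCG.Ct

open Pool.Agent.RX.RCN.Ker

set_option linter.unusedSectionVars false

section defs

variable {V : Type*} [Fintype V] [DecidableEq V]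

/-- bound of the density of a pair (at the vertex `b` of `P`) -/
noncomputable def fq (x : V → V → ℝ) (P : V → Prop) [DecidablePred P] (fh : ℝ → ℝ → ℝ)
    (b d : V) (s : ℝ) : ℝ := if P d then fh (x b d) s else qq s

/-- the functions of the error: `B a b d t s` density factor, `nu`, `nut` errors of the closures,
`la` hazard error, `dl` error of the density factor -/
structure Xd (V : Type*) where
  B : V → V → V → ℝ → ℝ → ℝ
  nu : V → V → V → V → ℝ → ℝ → ℝ
  nut : V → V → V → V → ℝ → ℝ → ℝ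
  la : V → V → V → ℝ → ℝ → ℝ
  dl : V → V → V → ℝ → ℝ

variable (x : V → V → ℝ) (P : V → Prop) [DecidablePred P] (k : Kf) (X : Xd V)

/-- the constant density factor -/
noncomputable def Xd.Bc (a b c : V) (t : ℝ) : ℝ := k.Pe (x a b + x a c) t * (1 + X.dl a b c t)

/-- the rate of the error -/
noncomputable def Xd.rate (a b c : V) (t s : ℝ) : ℝ :=
  x b c * fq x P k.fh b c s * (X.B a b c t s - X.Bc x k a b c t)
    + er x a b c t (fun d => fq x P k.fh b d) (fun d => X.nu a b c d t) (X.la a b c t)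
      (fun d => X.B a b d t) s

/-- the error function -/
noncomputable def Xd.E (a b c : V) (t : ℝ) : ℝ :=
  k.mb (xr x P a b) (xr x P a c) (xr x P b c) t * X.dl a b c t
    + ∫ s in (0 : ℝ)..t, X.rate x P k a b c t s

end defs

variable {V : Type*} [Fintype V] [DecidableEq V]
variable {x : V → V → ℝ} {P : V → Prop} [DecidablePred P] {k : Kf} {X : Xd V} {N : ℕ}

theorem CN.exp {F : ℝ → ℝ → ℝ} (hF : CN N F) : CN N fun t s => Real.exp (F t s) := fun i hi => by
  obtain ⟨f, cf, ef⟩ := hF i hi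
  exact ⟨fun t s => Real.exp (f t s), Real.continuous_exp.comp_continuousOn cf,
    fun t s h1 h2 h3 h4 => by beta_reduce; rw [ef t s h1 h2 h3 h4]⟩

theorem CN.neg {F : ℝ → ℝ → ℝ} (hF : CN N F) : CN N fun t s => -F t s := fun i hi => by
  obtain ⟨f, cf, ef⟩ := hF i hi
  exact ⟨fun t s => -f t s, cf.neg, fun t s h1 h2 h3 h4 => by beta_reduce; rw [ef t s h1 h2 h3 h4]⟩

variable {sl : ℝ → ℝ → ℝ} {w : V → V → ℝ → ℝ}

section final

variable {V : Type} [Fintype V] [DecidableEq V] {G : SimpleGraph V} [Fintype G.edgeSet]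
  [DecidableEq G.edgeSet] {x : G.edgeSet → ℝ} {X : Xd (V ⊕ V)} {δ : ℝ}
variable {b0 b1 : ℝ → ℝ} {Pe : ℝ → ℝ → ℝ} {Pt : ℝ → ℝ → ℝ → ℝ}

end final

end Pool.Agent.RX.RCN.K
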