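import Pool.Agent.RX.RCM.BEps
import Pool.Agent.RX.RCM.BMl
import Pool.Agent.RX.RCN.Hm_1
import Pool.Agent.RX.RCN.KleC

/-! From the closures to the bound of the triple probabilities with an explicit error function
(MP_73ccd0_lc, route M). -/

namespace Pool.Agent.RX.RCN.K

open Set Finset MeasureTheory Pool.Agent.RX.RCRSHalf Pool.Agent.RX.RCG Pool.Agent.RX.RCG.Ct
open Pool.Agent.RX.RCN.Ker Pool.Agent.RX.RCM

set_option linter.unusedSectionVars false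

section defs

variable {V : Type*} [Fintype V] [DecidableEq V]

variable (x : V → V → ℝ) (P : V → Prop) [DecidablePred P] (k : Kf) (X : Xd V)

end defs

variable {V : Type*} [Fintype V] [DecidableEq V]
variable {x : V → V → ℝ} {P : V → Prop} [DecidablePred P] {k : Kf} {X : Xd V} {N : ℕ}

/-- properties of the functions of the error -/
structure Xd.Ok (N : ℕ) (X : Xd V) (x : V → V → ℝ) (k : Kf) : Prop where
  N0 : 0 < N
  B0 : ∀ a b d, a ≠ b → a ≠ d → b ≠ d → ∀ t s, 0 ≤ s → s ≤ t → t ≤ bt → 0 ≤ X.B a b d t s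
  Bc : ∀ a b c, a ≠ b → a ≠ c → b ≠ c → ∀ t s, 0 ≤ s → s ≤ t → t ≤ bt →
    X.Bc x k a b c t ≤ X.B a b c t s
  nu0 : ∀ a b c d t s, 0 ≤ s → s ≤ t → t ≤ bt → 0 ≤ X.nu a b c d t s
  nu1 : ∀ a b c d t s, 0 ≤ s → s ≤ t → t ≤ bt → X.nu a b c d t s ≤ 1
  la0 : ∀ a b c t s, 0 ≤ s → s ≤ t → t ≤ bt → 0 ≤ X.la a b c t s
  dl0 : ∀ a b c t, 0 ≤ t → t ≤ bt → 0 ≤ X.dl a b c t
  cB : ∀ a b d, CN N (X.B a b d)
  cnu : ∀ a b c d, CN N (X.nu a b c d)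
  cla : ∀ a b c, CN N (X.la a b c)
  cdl : ∀ a b c, CP N (X.dl a b c)

/-- the facts about the certified process -/
structure Xd.Pr (X : Xd V) (x : V → V → ℝ) (h : ℝ → V → V → ℝ) (t : ℝ) (a b c : V) : Prop where
  clo : ∀ d ∈ ({a, b, c} : Finset V)ᶜ, ∀ s ∈ Icc 0 t, ∃ K,
      CloD h t s {a} {a, b} c d K ∧ (1 - X.nu a b c d t s) * K ≤ 1
  clot : ∀ d ∈ ({a, b, c} : Finset V)ᶜ, ∀ s ∈ Icc 0 t, ∃ K,
      CloDt h t s {a} {a, b} c d K ∧ (1 - X.nut a b c d t s) * K ≤ 1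
  dens : ∀ d ∈ ({a, b} : Finset V)ᶜ, x b d ≠ 0 → ∀ s ∈ Icc 0 t, Dens h t s a b d (X.B a b d t s)
  hl : ∀ Ra : Finset V → ℝ → ℝ, Wd h (fun r v => h r a v) t Ra → (∀ F, Ra F t = 1) →
      ∀ s ∈ Icc 0 t, ∑ d ∈ ({a, b, c} : Finset V)ᶜ,
        h s b d * (X.nut a b c d t s * eYt h a b d Ra s) ≤ X.la a b c t s * eZ h a b Ra s

theorem fq_cont (hfc : ∀ y ∈ Icc (0 : ℝ) 1, ContinuousOn (k.fh y) (Icc 0 bt)) (hx : Wt x P 1)
    {b : V} (hb : P b) (d : V) : ContinuousOn (fq x P k.fh b d) (Icc 0 bt) := by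
  unfold fq
  split_ifs with hd
  · have hxe : xr x P b d = x b d := by unfold xr; rw [if_pos ⟨hb, hd⟩]
    rw [← hxe]
    exact hfc _ (xmem1 hx b d)
  · exact qq_cont

theorem fq_nonneg (hk : k.Ok) (hx : Wt x P 1) {b : V} (hb : P b) (d : V) {s : ℝ}
    (hs : s ∈ Icc (0 : ℝ) bt) : 0 ≤ fq x P k.fh b d s := by
  unfold fq
  split_ifs with hd
  · have hxe : xr x P b d = x b d := by unfold xr; rw [if_pos ⟨hb, hd⟩]
    rw [← hxe]
    exact hk.fh_nonneg (xmem1 hx b d) hs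
  · exact (qq_pos hs).le

theorem rate_cont (hfc : ∀ y ∈ Icc (0 : ℝ) 1, ContinuousOn (k.fh y) (Icc 0 bt))
    (hPc : ∀ w ∈ Icc (0 : ℝ) 1, ContinuousOn (k.Pe w) (Icc 0 bt)) (hx : Wt x P 1)
    (hX : Xd.Ok N X x k) {a b c : V} (ha : P a) (hb : P b) (hbc : b ≠ c)
    (hc : P c) : CN N (X.rate x P k a b c) := by
  have hw : x a b + x a c ∈ Icc (0 : ℝ) 1 := by
    have e1 : xr x P a b = x a b := by unfold xr; rw [if_pos ⟨ha, hb⟩]
    have e2 : xr x P a c = x a c := by unfold xr; rw [if_pos ⟨ha, hc⟩]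
    rw [← e1, ← e2]
    exact ⟨add_nonneg (xr_nonneg hx a b) (xr_nonneg hx a c), xr_add_le hx hbc⟩
  have c1 : CN N fun _ s => x b c * fq x P k.fh b c s :=
    (CN.const _).mul (CN.snd (fq_cont hfc hx hb c))
  have c2 : CN N fun t _ => X.Bc x k a b c t :=
    CN.fst ((CP.of_cont (hPc _ hw)).mul ((CP.of_cont continuousOn_const).add (hX.cdl a b c)))
  refine (c1.mul ((hX.cB a b c).sub c2)).add (CN.sum fun d _ => ?_)
  exact ((CN.const _).mul (CN.snd (fq_cont hfc hx hb d))).mul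
    ((hX.cB a b d).mul ((CN.const 1).sub (((CN.const 1).sub (hX.cnu a b c d)).mul
      (CN.exp (CN.neg (hX.cla a b c).tail)))))

theorem E_cont (hfc : ∀ y ∈ Icc (0 : ℝ) 1, ContinuousOn (k.fh y) (Icc 0 bt))
    (hmc : ∀ x ∈ Icc (0 : ℝ) 1, ∀ y ∈ Icc (0 : ℝ) 1, ∀ z ∈ Icc (0 : ℝ) 1,
      ContinuousOn (k.mb x y z) (Icc 0 bt))
    (hPc : ∀ w ∈ Icc (0 : ℝ) 1, ContinuousOn (k.Pe w) (Icc 0 bt)) (hx : Wt x P 1)
    (hX : Xd.Ok N X x k) {a b c : V} (ha : P a) (hb : P b) (hbc : b ≠ c)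
    (hc : P c) : CP N (X.E x P k a b c) :=
  ((CP.of_cont (hmc _ (xmem1 hx a b) _ (xmem1 hx a c) _ (xmem1 hx b c))).mul
    (hX.cdl a b c)).add (rate_cont hfc hPc hx hX ha hb hbc hc).int

theorem rate_nonneg (hk : k.Ok) (hx : Wt x P 1) (hX : Xd.Ok N X x k) {a b c : V} (hb : P b)
    (hab : a ≠ b) (hac : a ≠ c) (hbc : b ≠ c) {t s : ℝ}
    (h0 : 0 ≤ s) (hst : s ≤ t) (ht : t ≤ bt) : 0 ≤ X.rate x P k a b c t s := by
  have hs1 : s ∈ Icc (0 : ℝ) bt := ⟨h0, hst.trans ht⟩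
  unfold Xd.rate er
  refine add_nonneg (mul_nonneg (mul_nonneg (hx.nonneg b c) (fq_nonneg hk hx hb c hs1))
    (sub_nonneg.2 (hX.Bc a b c hab hac hbc t s h0 hst ht))) (Finset.sum_nonneg fun d hd => by
      simp only [Finset.mem_compl, Finset.mem_insert, Finset.mem_singleton, not_or] at hd
      exact
      mul_nonneg (mul_nonneg (hx.nonneg b d) (fq_nonneg hk hx hb d hs1))
        (mul_nonneg (hX.B0 a b d hab (Ne.symm hd.1) (Ne.symm hd.2.1) t s h0 hst ht)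
          (one_sub_exp_nonneg (hX.nu0 a b c d t s h0 hst ht) (hX.nu1 a b c d t s h0 hst ht)
          (intervalIntegral.integral_nonneg hst fun r hr =>
            hX.la0 a b c t r (h0.trans hr.1) hr.2 ht))))

theorem E_nonneg (hk : k.Ok) (hx : Wt x P 1) (hX : Xd.Ok N X x k) {a b c : V} (hb : P b)
    (hab : a ≠ b) (hac : a ≠ c) (hbc : b ≠ c) {t : ℝ} (ht : t ∈ Icc (0 : ℝ) bt) : 0 ≤ X.E x P k a b c t := by
  have hw : xr x P a b + xr x P a c ≤ 1 := xr_add_le hx hbc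
  exact add_nonneg (mul_nonneg (hk.mb_nonneg (xmem1 hx a b) (xmem1 hx a c) (xmem1 hx b c) hw ht)
    (hX.dl0 a b c t ht.1 ht.2)) (intervalIntegral.integral_nonneg ht.1 fun s hs =>
      rate_nonneg hk hx hX hb hab hac hbc hs.1 hs.2 ht.2)

variable {T : Dt} {sl : ℝ → ℝ → ℝ} {w : V → V → ℝ → ℝ}

/-- continuity of the main part of the triple ratio -/
theorem kf_cont {b0 b1 : ℝ → ℝ} {Pe : ℝ → ℝ → ℝ} {Pt : ℝ → ℝ → ℝ → ℝ} (hk : T.KOk b0 b1 Pe Pt) :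
    ∀ w ∈ Icc (0 : ℝ) 1, ContinuousOn ((T.kf b0 b1 Pe Pt).Pe w) (Icc 0 bt) :=
  fun w _ => hk.cPe w

section final

variable {V : Type} [Fintype V] [DecidableEq V] {G : SimpleGraph V} [Fintype G.edgeSet]
  [DecidableEq G.edgeSet] {x : G.edgeSet → ℝ} {X : Xd (V ⊕ V)} {δ : ℝ}
variable {b0 b1 : ℝ → ℝ} {Pe : ℝ → ℝ → ℝ} {Pt : ℝ → ℝ → ℝ → ℝ}

end final

end Pool.Agent.RX.RCN.K
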