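import Pool.Agent.RX.RCG.CtG
import Pool.Agent.RX.RCN.Hm_2
import Pool.Agent.RX.RCN.Xof_1

/-! The error function from the logarithms of the closure constants (MP_73ccd0_lc, route M). -/

namespace Pool.Agent.RX.RCN.K

open Set Finset MeasureTheory Pool.Agent.RX.RCRSHalf Pool.Agent.RX.RCG Pool.Agent.RX.RCG.Ct
open Pool.Agent.RX.RCN.Ker Pool.Agent.RX.RCRS Pool.Agent.RX.RCM

set_option linter.unusedSectionVars false

variable {V : Type*} [Fintype V] [DecidableEq V]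

theorem nuL_mul (L : ℝ) : (1 - nuL L) * Real.exp L ≤ 1 := by
  unfold nuL
  rw [sub_sub_cancel, ← Real.exp_add, neg_add_cancel, Real.exp_zero]

variable {x : V → V → ℝ} {P : V → Prop} [DecidablePred P] {k : Kf} {N : ℕ}
variable {κd : ℝ → ℝ → ℝ → ℝ} {R : V → V → V → ℝ → ℝ → ℝ} {L Lt : V → V → V → V → ℝ → ℝ → ℝ}

theorem xd_ok (hf : Lf N k κd R L Lt) (hx : Wt x P 1) (hk : k.Ok)
    : Xd.Ok N (xdOf x κd R L Lt) x k := by
  have hw : ∀ a b d, b ≠ d → x a b + x a d ∈ Icc (0 : ℝ) 1 := fun a b d hbd => two_mem hx a hbd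
  refine
    { N0 := hf.N0
      B0 := fun a b d _ _ hbd t s h0 h1 h2 => (hk.Pe0 _ (hw a b d hbd) t
        ⟨h0.trans h1, h2⟩).trans (hf.κP _ (hw a b d hbd) t s h0 h1 h2)
      Bc := fun a b c _ _ hbc t s h0 h1 h2 => ?_
      nu0 := fun a b c d t s h0 h1 h2 => nuL_nonneg (hf.L0 a b c d t s h0 h1 h2)
      nu1 := fun a b c d t s _ _ _ => nuL_le_one _
      la0 := fun a b c t s h0 h1 h2 => Finset.sum_nonneg fun d _ =>
          mul_nonneg (hf.R0 a b d t s h0 h1 h2) (nuL_nonneg (hf.Lt0 a b c d t s h0 h1 h2))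
      dl0 := fun a b c t h0 h1 => le_rfl
      cB := fun a b d => hf.cκ _
      cnu := fun a b c d => nuL_cn (hf.cL a b c d)
      cla := fun a b c => CN.sum fun d _ => (hf.cR a b d).mul (nuL_cn (hf.cLt a b c d))
      cdl := fun a b c => CP.of_cont continuousOn_const }
  show k.Pe (x a b + x a c) t * (1 + 0) ≤ κd (x a b + x a c) t s
  rw [add_zero, mul_one]
  exact hf.κP _ (hw a b c hbc) t s h0 h1 h2

/-- the facts about the certified process -/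
structure Lp (x : V → V → ℝ) (κd : ℝ → ℝ → ℝ → ℝ)
    (R : V → V → V → ℝ → ℝ → ℝ) (L Lt : V → V → V → V → ℝ → ℝ → ℝ) (h : ℝ → V → V → ℝ) (t : ℝ)
    (a b c : V) : Prop where
  clo : ∀ d ∈ ({a, b, c} : Finset V)ᶜ, ∀ s ∈ Icc 0 t,
      CloD h t s {a} {a, b} c d (Real.exp (L a b c d t s))
  clot : ∀ d ∈ ({a, b, c} : Finset V)ᶜ, ∀ s ∈ Icc 0 t,
      CloDt h t s {a} {a, b} c d (Real.exp (Lt a b c d t s))
  dens : ∀ d ∈ ({a, b} : Finset V)ᶜ, x b d ≠ 0 → ∀ s ∈ Icc 0 t,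
      Dens h t s a b d (κd (x a b + x a d) t s)
  rh : ∀ Ra : Finset V → ℝ → ℝ, Wd h (fun r v => h r a v) t Ra → (∀ F, Ra F t = 1) →
      ∀ d ∈ ({a, b, c} : Finset V)ᶜ, ∀ s ∈ Icc 0 t,
        h s b d * eYt h a b d Ra s ≤ R a b d t s * eZ h a b Ra s

theorem xd_pr {h : ℝ → V → V → ℝ} {t : ℝ} (ht : t ∈ Icc (0 : ℝ) bt)
    (hf : Lf N k κd R L Lt) {a b c : V} (hp : Lp x κd R L Lt h t a b c) :
    (xdOf x κd R L Lt).Pr x h t a b c where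
  clo d hd s hs := ⟨_, hp.clo d hd s hs, nuL_mul _⟩
  clot d hd s hs := ⟨_, hp.clot d hd s hs, nuL_mul _⟩
  dens := hp.dens
  hl := by
    intro Ra hRa a1 s hs
    show _ ≤ (∑ d ∈ ({a, b, c} : Finset V)ᶜ, R a b d t s * nuL (Lt a b c d t s))
      * eZ h a b Ra s
    rw [Finset.sum_mul]
    refine Finset.sum_le_sum fun d hd => ?_
    have h1 := hp.rh Ra hRa a1 d hd s hs
    have h2 := mul_le_mul_of_nonneg_left h1
      (nuL_nonneg (hf.Lt0 a b c d t s hs.1 hs.2 ht.2))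
    calc h s b d * (nuL (Lt a b c d t s) * eYt h a b d Ra s)
        = nuL (Lt a b c d t s) * (h s b d * eYt h a b d Ra s) := by ring
      _ ≤ nuL (Lt a b c d t s) * (R a b d t s * eZ h a b Ra s) := h2
      _ = _ := by ring

section final

variable {V : Type} [Fintype V] [DecidableEq V] {G : SimpleGraph V} [Fintype G.edgeSet]
  [DecidableEq G.edgeSet] {x : G.edgeSet → ℝ}
variable {T : Dt} {sl : ℝ → ℝ → ℝ} {δ : ℝ}
variable {b0 b1 : ℝ → ℝ} {Pe : ℝ → ℝ → ℝ} {Pt : ℝ → ℝ → ℝ → ℝ}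
variable {κd : ℝ → ℝ → ℝ → ℝ} {R : V ⊕ V → V ⊕ V → V ⊕ V → ℝ → ℝ → ℝ}
  {L Lt : V ⊕ V → V ⊕ V → V ⊕ V → V ⊕ V → ℝ → ℝ → ℝ}

/-- the error function of the assembled proof -/
noncomputable def eL (k : Kf) (κd : ℝ → ℝ → ℝ → ℝ) (R : V ⊕ V → V ⊕ V → V ⊕ V → ℝ → ℝ → ℝ)
    (L Lt : V ⊕ V → V ⊕ V → V ⊕ V → V ⊕ V → ℝ → ℝ → ℝ) (x : G.edgeSet → ℝ) :
    V ⊕ V → V ⊕ V → V ⊕ V → ℝ → ℝ :=
  (xdOf (xe x) κd R L Lt).E (xe x) (P0 V) k

/-- the walk rates of the assembled proof -/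
noncomputable def wL (k : Kf) (κd : ℝ → ℝ → ℝ → ℝ) (R : V ⊕ V → V ⊕ V → V ⊕ V → ℝ → ℝ → ℝ)
    (L Lt : V ⊕ V → V ⊕ V → V ⊕ V → V ⊕ V → ℝ → ℝ → ℝ) (x : G.edgeSet → ℝ) :
    V ⊕ V → V ⊕ V → ℝ → ℝ :=
  wE k.fh k.mb (eL k κd R L Lt x) (xe x) (P0 V)

end final

end Pool.Agent.RX.RCN.K
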