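import Pool.Agent.RX.RCN.Abs_1
import Pool.Agent.RX.RCN.Brg_1
import Pool.Agent.RX.RCN.Tend_1
import Pool.Agent.RX.RCN.Xof_2

/-! The assembly with the rates of the released pairs (MP_73ccd0_lc, route M). -/

namespace Pool.Agent.RX.RCN.K

open Set Finset MeasureTheory Pool.Agent.RX.RCRSHalf Pool.Agent.RX.RCG Pool.Agent.RX.RCG.Ct
open Pool.Agent.RX.RCN.Ker Pool.Agent.RX.RCRS

set_option linter.unusedSectionVars false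

/-- the data of the assembly: functions of the certificate and of the worlds -/
structure Da (V : Type) [Fintype V] [DecidableEq V] where
  T : Dt
  sl : ℝ → ℝ → ℝ
  b0 : ℝ → ℝ
  b1 : ℝ → ℝ
  Pe : ℝ → ℝ → ℝ
  Pt : ℝ → ℝ → ℝ → ℝ
  Z : Hzd
  B : ℝ → ℝ → ℝ
  E1 : ℝ → ℝ → ℝ
  Th : ℝ → ℝ → ℝ
  Y : ℝ → ℝ → ℝ
  κ : ℝ
  κd : ℝ → ℝ → ℝ → ℝ
  C : Cx (V ⊕ V)

variable {V : Type} [Fintype V] [DecidableEq V]

/-- the bounds of the kernel functions -/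
noncomputable def Da.k (D : Da V) : Kf := D.T.kf D.b0 D.b1 D.Pe D.Pt

variable {Gr : SimpleGraph V} [Fintype Gr.edgeSet] [DecidableEq Gr.edgeSet]

/-- the error function -/
noncomputable def Da.E (D : Da V) (x : Gr.edgeSet → ℝ) : V ⊕ V → V ⊕ V → V ⊕ V → ℝ → ℝ :=
  eL D.k D.κd (rha D.Z (xe x) (P0 V) D.k D.Th D.Y D.κd D.κ)
    (Lc (P0 V) D.C) (Lr (P0 V) D.C) x

/-- the walk rates -/
noncomputable def Da.w (D : Da V) (x : Gr.edgeSet → ℝ) : V ⊕ V → V ⊕ V → ℝ → ℝ :=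
  wE D.k.fh D.k.mb (D.E x) (xe x) (P0 V)

/-- the properties of the data which do not depend on the weights -/
structure Da.Ok (D : Da V) : Prop where
  T : D.T.Ok
  sl : Sl D.T.cf D.T.cg D.sl
  k : D.T.KOk D.b0 D.b1 D.Pe D.Pt
  te : D.T.Te fun y => D.k.fh y bt
  Z : D.Z.Ok D.sl
  Cf : D.Z.Cf D.B D.E1
  kap : Kap D.Z D.k D.κ
  Th : CN D.C.N D.Th
  Y : CN D.C.N D.Y
  ck : ∀ t ∈ Icc (0 : ℝ) bt, ∀ r ∈ Icc 0 t, Clt D.Z r t (D.Th t r)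
  cκ : ∀ w, CN D.C.N (D.κd w)
  κP : Kp D.k D.κd
  rmt : ∀ y ∈ Icc (0 : ℝ) 1, D.Z.rr y bt ≤ mt
  mt1 : 1 ≤ mt
  lo0 : ∀ r ∈ Icc (0 : ℝ) bt, 0 ≤ D.C.lo r
  lo : ∀ y ∈ Icc (0 : ℝ) 1, ∀ r ∈ Icc (0 : ℝ) bt, D.C.lo r * D.T.cf.ab y r
    ≤ ((1 + r) ^ 2)⁻¹ - D.T.cf.al' y r - 2 * (1 - y) * D.T.cg.N y r - D.T.cg.gm y r

end Pool.Agent.RX.RCN.K
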