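import Pool.Agent.RX.RCN.Hm_3
import Pool.Agent.RX.RCN.Xof_2

/-! The error function from the logarithms of the closure constants (MP_73ccd0_lc, route M). -/

namespace Pool.Agent.RX.RCN.K

open Set Finset MeasureTheory Pool.Agent.RX.RCRSHalf Pool.Agent.RX.RCG Pool.Agent.RX.RCG.Ct
open Pool.Agent.RX.RCN.Ker Pool.Agent.RX.RCRS Pool.Agent.RX.RCM

set_option linter.unusedSectionVars false

variable {V : Type*} [Fintype V] [DecidableEq V]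

variable {x : V → V → ℝ} {P : V → Prop} [DecidablePred P] {k : Kf} {N : ℕ}
variable {κd : ℝ → ℝ → ℝ → ℝ} {R : V → V → V → ℝ → ℝ → ℝ} {L Lt : V → V → V → V → ℝ → ℝ → ℝ}

section final

variable {V : Type} [Fintype V] [DecidableEq V] {G : SimpleGraph V} [Fintype G.edgeSet]
  [DecidableEq G.edgeSet] {x : G.edgeSet → ℝ}
variable {T : Dt} {sl : ℝ → ℝ → ℝ} {δ : ℝ}
variable {b0 b1 : ℝ → ℝ} {Pe : ℝ → ℝ → ℝ} {Pt : ℝ → ℝ → ℝ → ℝ}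
variable {κd : ℝ → ℝ → ℝ → ℝ} {R : V ⊕ V → V ⊕ V → V ⊕ V → ℝ → ℝ → ℝ}
  {L Lt : V ⊕ V → V ⊕ V → V ⊕ V → V ⊕ V → ℝ → ℝ → ℝ}

/-- **the assembly with closures in logarithmic form** -/
theorem half_of_L (hx : IsFractionalMatching G x) (h : T.Ok) (hsl : Sl T.cf T.cg sl)
    (hk : T.KOk b0 b1 Pe Pt) (hte : T.Te fun y => (T.kf b0 b1 Pe Pt).fh y bt)
    (hf : Lf N (T.kf b0 b1 Pe Pt) κd R L Lt) (hd0 : 0 < δ) (hd1 : δ ≤ 1)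
    (hl : ∀ a b d, P0 V a → P0 V b → P0 V d → a ≠ b → a ≠ d → b ≠ d → ∀ t ∈ Icc (0 : ℝ) bt,
      (T.kf b0 b1 Pe Pt).mb (xr (xe x) (P0 V) a b) (xr (xe x) (P0 V) a d)
        (xr (xe x) (P0 V) b d) t
        + min (eL (T.kf b0 b1 Pe Pt) κd R L Lt x a b d t)
            (eL (T.kf b0 b1 Pe Pt) κd R L Lt x a d b t) ≤ 1 - δ)
    (hT : ∀ a, P0 V a → ∀ t ∈ Icc (0 : ℝ) bt,
      ∑ b, xr (xe x) (P0 V) a b * wL (T.kf b0 b1 Pe Pt) κd R L Lt x a b t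
        ≤ T.kt t * (∑ b, T.sT (xr (xe x) (P0 V) a b) - T.k1 * Qs (xe x) (P0 V) a))
    (hP : ∀ a b, P0 V a → P0 V b → a ≠ b → ∀ t ∈ Icc (0 : ℝ) bt,
      wL (T.kf b0 b1 Pe Pt) κd R L Lt x a b t
        ≤ T.kp t * ∑ d ∈ ({a, b} : Finset (V ⊕ V))ᶜ,
        T.ka (xr (xe x) (P0 V) a d) (xr (xe x) (P0 V) b d))
    (hPE : ∀ a b, P0 V a → P0 V b → a ≠ b →
      wL (T.kf b0 b1 Pe Pt) κd R L Lt x a b bt ≤ ∑ d ∈ ({a, b} : Finset (V ⊕ V))ᶜ,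
        T.kE (xr (xe x) (P0 V) a b) (xr (xe x) (P0 V) a d) (xr (xe x) (P0 V) b d))
    (hpr : ∀ (h : ℝ → V ⊕ V → V ⊕ V → ℝ) (H : V ⊕ V → V ⊕ V → ℝ → ℝ) (t : ℝ),
      Cp T sl (xe x) (P0 V) (wL (T.kf b0 b1 Pe Pt) κd R L Lt x) h H t →
      ∀ a b c, P0 V a → P0 V b → P0 V c → a ≠ b → a ≠ c → b ≠ c → xe x a b ≠ 0 →
        xe x a c ≠ 0 → Lp (xe x) κd R L Lt h t a b c)
    {Le : V ⊕ V → V ⊕ V → V ⊕ V → V ⊕ V → ℝ}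
    (hec : Ec T.cf (xe x) (P0 V) (pfOf T.ek.kd (xe x) (P0 V)
      (wL (T.kf b0 b1 Pe Pt) κd R L Lt x)) sl Le) :
    ∃ S : Scheme G, ∀ e : G.edgeSet, cT * x e ≤ S.selProb x e := by
  have hw := wt_xe hx zero_le_one le_rfl fun e => (hx.1 e).2
  have hX : Xd.Ok N (xdOf (xe x) κd R L Lt) (xe x) (T.kf b0 b1 Pe Pt) :=
    xd_ok hf hw (Dt.kf_ok h hk)
  exact half_of_X hx h hsl hk hte hX hd0 hd1 hl hT hP hPE (fun h' H t hC a b c ha hb' hc hab hac hbc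
      h1 h2 => xd_pr hC.1.ht hf (hpr h' H t hC a b c ha hb' hc hab hac hbc h1 h2)) hec

end final

end Pool.Agent.RX.RCN.K
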