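import Pool.Agent.RX.RCN.Brg_1
import Pool.Agent.RX.RCN.Xof_3

/-! The bridge: the closures with explicit constants in the cells give the facts about the
certified process (MP_73ccd0_lc, route M). -/

namespace Pool.Agent.RX.RCN.K

open Set Finset MeasureTheory Pool.Agent.RX.RCRSHalf Pool.Agent.RX.RCG Pool.Agent.RX.RCG.Ct
open Pool.Agent.RX.RCN.Ker Pool.Agent.RX.RCRS

set_option linter.unusedSectionVars false

/-! ### the cell of a time -/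

/-! ### classes of the second time -/

variable {V : Type*} [Fintype V] [DecidableEq V]

section defs

variable (Z : Hzd) (x : V → V → ℝ) (P : V → Prop) [DecidablePred P] (C : Cx V)

end defs

variable {Z : Hzd} {x : V → V → ℝ} {P : V → Prop} [DecidablePred P] {C : Cx V}
  {B E1 : ℝ → ℝ → ℝ} {sl : ℝ → ℝ → ℝ}

section world

variable {h : ℝ → V → V → ℝ} {H : V → V → ℝ → ℝ} {t : ℝ}

end world

section final

variable {V : Type} [Fintype V] [DecidableEq V] {Gr : SimpleGraph V} [Fintype Gr.edgeSet]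
  [DecidableEq Gr.edgeSet] {x : Gr.edgeSet → ℝ}
variable {T : Dt} {δ : ℝ}
variable {b0 b1 : ℝ → ℝ} {Pe : ℝ → ℝ → ℝ} {Pt : ℝ → ℝ → ℝ → ℝ}
variable {κd : ℝ → ℝ → ℝ → ℝ} {R : V ⊕ V → V ⊕ V → V ⊕ V → ℝ → ℝ → ℝ}
  {C : Cx (V ⊕ V)}

/-- **the assembly with the closures of the cells** -/
theorem half_of_B (hx : IsFractionalMatching Gr x) (h : T.Ok) (hsl : Sl T.cf T.cg sl)
    (hk : T.KOk b0 b1 Pe Pt) (hte : T.Te fun y => (T.kf b0 b1 Pe Pt).fh y bt) (hZ : Z.Ok sl)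
    (hC : Cls Z (xe x) (P0 V) C)
    (cκ : ∀ w, CN C.N (κd w))
    (κP : ∀ w ∈ Icc (0 : ℝ) 1, ∀ t s, 0 ≤ s → s ≤ t → t ≤ bt → Pe w t ≤ κd w t s)
    (cR : ∀ a b d, CN C.N (R a b d))
    (R0 : ∀ a b d t s, 0 ≤ s → s ≤ t → t ≤ bt → 0 ≤ R a b d t s)
    (hd0 : 0 < δ) (hd1 : δ ≤ 1)
    (hl : ∀ a b d, P0 V a → P0 V b → P0 V d → a ≠ b → a ≠ d → b ≠ d → ∀ t ∈ Icc (0 : ℝ) bt,
      (T.kf b0 b1 Pe Pt).mb (xr (xe x) (P0 V) a b) (xr (xe x) (P0 V) a d)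
        (xr (xe x) (P0 V) b d) t
        + min (eL (T.kf b0 b1 Pe Pt) κd R (Lc (P0 V) C)
              (Lr (P0 V) C) x a b d t)
            (eL (T.kf b0 b1 Pe Pt) κd R (Lc (P0 V) C)
              (Lr (P0 V) C) x a d b t) ≤ 1 - δ)
    (hT : ∀ a, P0 V a → ∀ t ∈ Icc (0 : ℝ) bt,
      ∑ b, xr (xe x) (P0 V) a b * wL (T.kf b0 b1 Pe Pt) κd R (Lc (P0 V) C)
          (Lr (P0 V) C) x a b t
        ≤ T.kt t * (∑ b, T.sT (xr (xe x) (P0 V) a b) - T.k1 * Qs (xe x) (P0 V) a))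
    (hP : ∀ a b, P0 V a → P0 V b → a ≠ b → ∀ t ∈ Icc (0 : ℝ) bt,
      wL (T.kf b0 b1 Pe Pt) κd R (Lc (P0 V) C) (Lr (P0 V) C) x a b t
        ≤ T.kp t * ∑ d ∈ ({a, b} : Finset (V ⊕ V))ᶜ,
        T.ka (xr (xe x) (P0 V) a d) (xr (xe x) (P0 V) b d))
    (hPE : ∀ a b, P0 V a → P0 V b → a ≠ b →
      wL (T.kf b0 b1 Pe Pt) κd R (Lc (P0 V) C) (Lr (P0 V) C) x a b bt
        ≤ ∑ d ∈ ({a, b} : Finset (V ⊕ V))ᶜ,
        T.kE (xr (xe x) (P0 V) a b) (xr (xe x) (P0 V) a d) (xr (xe x) (P0 V) b d))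
    (hlo : ∀ (h : ℝ → V ⊕ V → V ⊕ V → ℝ) (H : V ⊕ V → V ⊕ V → ℝ → ℝ) (t : ℝ),
      Cp T sl (xe x) (P0 V) (wL (T.kf b0 b1 Pe Pt) κd R (Lc (P0 V) C)
        (Lr (P0 V) C) x) h H t →
      ∀ u v, P0 V u → P0 V v → ∀ r ∈ Icc 0 t, xe x u v * C.lo r ≤ h r u v)
    (hdens : ∀ (h : ℝ → V ⊕ V → V ⊕ V → ℝ) (H : V ⊕ V → V ⊕ V → ℝ → ℝ) (t : ℝ),
      Cp T sl (xe x) (P0 V) (wL (T.kf b0 b1 Pe Pt) κd R (Lc (P0 V) C)
        (Lr (P0 V) C) x) h H t →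
      ∀ a b, P0 V a → P0 V b → a ≠ b → xe x a b ≠ 0 → ∀ d ∈ ({a, b} : Finset (V ⊕ V))ᶜ,
        xe x b d ≠ 0 → ∀ s ∈ Icc 0 t, RCM.Dens h t s a b d
          (κd (xe x a b + xe x a d) t s))
    (hrh : ∀ (h : ℝ → V ⊕ V → V ⊕ V → ℝ) (H : V ⊕ V → V ⊕ V → ℝ → ℝ) (t : ℝ),
      Cp T sl (xe x) (P0 V) (wL (T.kf b0 b1 Pe Pt) κd R (Lc (P0 V) C)
        (Lr (P0 V) C) x) h H t →
      (∀ u v, ∀ r ∈ Icc 0 t, h r u v ≤ Z.hh (xe x) (P0 V) r u v) →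
      (∀ u v, ∀ σ ∈ Icc 0 t, ∀ r ∈ Icc 0 σ,
        H u v σ - H u v r ≤ Z.Hh (xe x) (P0 V) σ u v r) →
      ∀ a b, P0 V a → P0 V b → a ≠ b → xe x a b ≠ 0 →
      ∀ Ra : Finset (V ⊕ V) → ℝ → ℝ, RCM.Wd h (fun r v => h r a v) t Ra → (∀ F, Ra F t = 1) →
      ∀ d ∈ ({a, b} : Finset (V ⊕ V))ᶜ, ∀ s ∈ Icc 0 t,
        h s b d * RCM.eYt h a b d Ra s ≤ R a b d t s * RCM.eZ h a b Ra s)
    (hmt : ∀ y ∈ Icc (0 : ℝ) 1, Z.rr y bt ≤ mt) (hm1 : 1 ≤ mt)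
    (hla : ∀ a b, P0 V a → P0 V b → a ≠ b → ∀ d ∈ ({a, b} : Finset (V ⊕ V))ᶜ,
      (xe x a d ≠ 0 ∨ xe x b d ≠ 0) → ∑ e ∈ ({a, b, d} : Finset (V ⊕ V))ᶜ,
        (xe x a e + xe x b e) * (1 - Real.exp (-(Lc (P0 V) C a b d e bt bt)))
        ≤ la - lb * (xe x a d + xe x b d)) :
    ∃ S : Scheme Gr, ∀ e : Gr.edgeSet, cT * x e ≤ S.selProb x e := by
  have hw := wt_xe hx zero_le_one le_rfl fun e => (hx.1 e).2
  have hf : Lf C.N (T.kf b0 b1 Pe Pt) κd R (Lc (P0 V) C) (Lr (P0 V) C) :=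
    { N0 := hC.N0
      cκ := cκ
      κP := κP
      cR := cR
      R0 := R0
      cL := hC.cnd
      cLt := hC.cnr
      L0 := fun a b c d t s _ _ _ => Lc_nonneg a b c d t s
      Lt0 := fun a b c d t s _ _ _ => Lr_nonneg a b c d t s }
  refine half_of_L hx h hsl hk hte hf hd0 hd1 hl hT hP hPE ?_
    (ec_of hC hZ hw hmt hm1 (fun h' H hK hS => hlo h' H bt ⟨hK, hS⟩) hla)
  intro h' H t hCp a b c ha hb hc hab' hac hbc hxab hxac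
  have ht := hCp.1.ht
  have hle : ∀ u v, ∀ r ∈ Icc 0 t, h' r u v ≤ Z.hh (xe x) (P0 V) r u v :=
    fun u v r hr => hZ.haz_le hCp.1 hw hCp.2 hr u v
  have hHle : ∀ u v, ∀ σ ∈ Icc 0 t, ∀ r ∈ Icc 0 σ,
      H u v σ - H u v r ≤ Z.Hh (xe x) (P0 V) σ u v r :=
    fun u v σ hσ r hr => hZ.H_le hCp.1 hw hCp.2 hr.1 hr.2 hσ.2 u v
  have hcU : c ∈ ({a, b} : Finset (V ⊕ V))ᶜ := by
    rw [Finset.mem_compl]; simp [hac.symm, hbc.symm]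
  have hvq : ∀ d ∈ ({a, b, c} : Finset (V ⊕ V))ᶜ, Vq (P0 V) a b c d := by
    intro d hd
    simp only [Finset.mem_compl, Finset.mem_insert, Finset.mem_singleton, not_or] at hd
    refine ⟨ha, hb, hab', hcU, ?_, Ne.symm hd.2.2⟩
    rw [Finset.mem_compl]
    simp [hd.1, hd.2.1]
  have hsub : ∀ d ∈ ({a, b, c} : Finset (V ⊕ V))ᶜ, d ∈ ({a, b} : Finset (V ⊕ V))ᶜ := by
    intro d hd
    simp only [Finset.mem_compl, Finset.mem_insert, Finset.mem_singleton, not_or] at hd ⊢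
    exact ⟨hd.1, hd.2.1⟩
  exact
    { clo := fun d hd s hs => cls_del hC hCp.1.hh ht hle hHle (hlo h' H t hCp) (hvq d hd) hs
      clot := fun d hd s hs => cls_rel hC hCp.1.hh ht hle hHle (hlo h' H t hCp) (hvq d hd) hs
      dens := fun d hd hbd s hs => hdens h' H t hCp a b ha hb hab' hxab d hd hbd s hs
      rh := fun Ra hRa a1 d hd s hs =>
        hrh h' H t hCp hle hHle a b ha hb hab' hxab Ra hRa a1 d (hsub d hd) s hs }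

end final

end Pool.Agent.RX.RCN.K
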