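import Pool.Agent.RX.RCN.Abs_2
import Pool.Agent.RX.RCN.Asm_1
import Pool.Agent.RX.RCN.Brg_2

/-! The assembly with the rates of the released pairs (MP_73ccd0_lc, route M). -/

namespace Pool.Agent.RX.RCN.K

open Set Finset MeasureTheory Pool.Agent.RX.RCRSHalf Pool.Agent.RX.RCG Pool.Agent.RX.RCG.Ct
open Pool.Agent.RX.RCN.Ker Pool.Agent.RX.RCRS

set_option linter.unusedSectionVars false

variable {V : Type} [Fintype V] [DecidableEq V]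

variable {Gr : SimpleGraph V} [Fintype Gr.edgeSet] [DecidableEq Gr.edgeSet]

/-- **the assembly**: closures of the cells, level 0 of single vertices, densities, and the graph
inequalities -/
theorem half_of_D {D : Da V} (hD : D.Ok) {x : Gr.edgeSet → ℝ} (hx : IsFractionalMatching Gr x)
    (hC : Cls D.Z (xe x) (P0 V) D.C)
    (hL : ∀ a, P0 V a → ∀ t ∈ Icc (0 : ℝ) bt, ∃ mb Y' M M' : ℝ → ℝ,
      RCM.L0s (D.Z.hh (xe x) (P0 V)) (xe x) {a} t mb (fun _ => D.Th t) (D.Y t) Y' M M')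
    (hdens : ∀ (h : ℝ → V ⊕ V → V ⊕ V → ℝ) (H : V ⊕ V → V ⊕ V → ℝ → ℝ) (t : ℝ),
      Cp D.T D.sl (xe x) (P0 V) (D.w x) h H t →
      (∀ u v, ∀ r ∈ Icc 0 t, h r u v ≤ D.Z.hh (xe x) (P0 V) r u v) →
      (∀ u v, ∀ σ ∈ Icc 0 t, ∀ r ∈ Icc 0 σ,
        H u v σ - H u v r ≤ D.Z.Hh (xe x) (P0 V) σ u v r) →
      ∀ a b, P0 V a → P0 V b → a ≠ b → xe x a b ≠ 0 → ∀ d ∈ ({a, b} : Finset (V ⊕ V))ᶜ,
        xe x b d ≠ 0 → ∀ s ∈ Icc 0 t, RCM.Dens h t s a b d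
          (D.κd (xe x a b + xe x a d) t s))
    {δ : ℝ} (hd0 : 0 < δ) (hd1 : δ ≤ 1)
    (hl : ∀ a b d, P0 V a → P0 V b → P0 V d → a ≠ b → a ≠ d → b ≠ d → ∀ t ∈ Icc (0 : ℝ) bt,
      D.k.mb (xr (xe x) (P0 V) a b) (xr (xe x) (P0 V) a d) (xr (xe x) (P0 V) b d) t
        + min (D.E x a b d t) (D.E x a d b t) ≤ 1 - δ)
    (hT : ∀ a, P0 V a → ∀ t ∈ Icc (0 : ℝ) bt,
      ∑ b, xr (xe x) (P0 V) a b * D.w x a b t
        ≤ D.T.kt t * (∑ b, D.T.sT (xr (xe x) (P0 V) a b) - D.T.k1 * Qs (xe x) (P0 V) a))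
    (hP : ∀ a b, P0 V a → P0 V b → a ≠ b → ∀ t ∈ Icc (0 : ℝ) bt,
      D.w x a b t ≤ D.T.kp t * ∑ d ∈ ({a, b} : Finset (V ⊕ V))ᶜ,
        D.T.ka (xr (xe x) (P0 V) a d) (xr (xe x) (P0 V) b d))
    (hPE : ∀ a b, P0 V a → P0 V b → a ≠ b →
      D.w x a b bt ≤ ∑ d ∈ ({a, b} : Finset (V ⊕ V))ᶜ,
        D.T.kE (xr (xe x) (P0 V) a b) (xr (xe x) (P0 V) a d) (xr (xe x) (P0 V) b d))
    (hla : ∀ a b, P0 V a → P0 V b → a ≠ b → ∀ d ∈ ({a, b} : Finset (V ⊕ V))ᶜ,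
      (xe x a d ≠ 0 ∨ xe x b d ≠ 0) → ∑ e ∈ ({a, b, d} : Finset (V ⊕ V))ᶜ,
        (xe x a e + xe x b e) * (1 - Real.exp (-(Lc (P0 V) D.C a b d e bt bt)))
        ≤ la - lb * (xe x a d + xe x b d)) :
    ∃ S : Scheme Gr, ∀ e : Gr.edgeSet, cT * x e ≤ S.selProb x e := by
  have hw := wt_xe hx zero_le_one le_rfl fun e => (hx.1 e).2
  have kok : D.k.Ok := Dt.kf_ok hD.T hD.k
  have kq := Dt.kq hD.T hD.k
  have hfc : ∀ y ∈ Icc (0 : ℝ) 1, ContinuousOn (D.k.fh y) (Icc 0 bt) := kq.fc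
  have cR := fun a b d => rha_cn hD.kap.k0 hD.Z hw hD.Th hD.Y hfc hD.cκ a b d
  have R0 : ∀ a b d t s, 0 ≤ s → s ≤ t → t ≤ bt →
      0 ≤ rha D.Z (xe x) (P0 V) D.k D.Th D.Y D.κd D.κ a b d t s :=
    fun a b d t s h0 h1 h2 => rha_nonneg hD.kap.k0 hD.Z hw kok hD.κP a b d ⟨h0.trans h1, h2⟩
      ⟨h0, h1⟩
  -- the walk rates are admissible
  have hf : Lf D.C.N D.k D.κd (rha D.Z (xe x) (P0 V) D.k D.Th D.Y D.κd D.κ)
      (Lc (P0 V) D.C) (Lr (P0 V) D.C) :=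
    { N0 := hC.N0
      cκ := hD.cκ
      κP := hD.κP
      cR := cR
      R0 := R0
      cL := hC.cnd
      cLt := hC.cnr
      L0 := fun a b c d t s _ _ _ => Lc_nonneg a b c d t s
      Lt0 := fun a b c d t s _ _ _ => Lr_nonneg a b c d t s }
  have hX := xd_ok hf hw kok
  have hwr : Wr D.T.ek.kd (xe x) (P0 V) (D.w x) :=
    wr_of_X hx hD.T hD.k hX hd0 hd1 hl hT hP
  refine half_of_B hx hD.T hD.sl hD.k hD.te hD.Z hC hD.cκ hD.κP cR R0 hd0 hd1 hl hT hP hPE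
    (fun h' H t hCp u v hu hv r hr => haz_ge (D.T.cf_ok hD.T) (D.T.cg_ok hD.T) hw
      (Dt.wk hx hD.T hwr) hCp.1 hD.lo0 hD.lo hu hv hr) ?_ ?_ hD.rmt hD.mt1 hla
  · intro h' H t hCp a b ha hb hab hxab d hd hbd s hs
    exact hdens h' H t hCp (fun u v r hr => hD.Z.haz_le hCp.1 hw hCp.2 hr u v)
      (fun u v σ hσ r hr => hD.Z.H_le hCp.1 hw hCp.2 hr.1 hr.2 hσ.2 u v) a b ha hb hab hxab d hd
      hbd s hs
  · intro h' H t hCp hle hHle a b ha hb hab hxab Ra hRa a1 d hd s hs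
    have ht := hCp.1.ht
    obtain ⟨mb, Y', M, M', hLs⟩ := hL a ha t ht
    refine rha_valid hD.kap hD.Z hw kok hfc hD.κP hC.N0 hD.cκ hCp.1.hh ht hle hHle
      (hD.ck t ht) hb hab hLs (fun r hr => hCp.1.hz r (btI hr)) (fun d hd hbd s hs => ?_)
      (fun d hd hbd s hs => hdens h' H t hCp hle hHle a b ha hb hab hxab d hd hbd s hs) hRa a1
      hd hs
    have hs1 : s ∈ Icc (0 : ℝ) bt := ⟨hs.1, hs.2.trans ht.2⟩
    have e := hCp.1.fl s hs b d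
    refine (le_of_eq e).trans (mul_le_mul_of_nonneg_left ?_ (hw.nonneg b d))
    show _ ≤ fq (xe x) (P0 V) D.k.fh b d s
    unfold fq
    split_ifs with hPd
    · exact (D.T.kf_fit D.b0 D.b1 D.Pe D.Pt).phi_le kok (D.T.ek_ok hD.T) (D.T.kd_ok hD.T) hw hwr
        hb hPd hbd hs1
    · unfold dn
      rw [if_neg fun hh => hPd hh.1.2]
      exact le_rfl

end Pool.Agent.RX.RCN.K
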