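import Pool.Agent.RX.RCG.Boot
import Pool.Agent.RX.RCG.GlueA_1

/-! A second form of the certification: the acceptance condition may be assumed on the closed
interval, the conclusion is strict (MP_73ccd0_lc, all weights). -/

namespace Pool.Agent.RX.RCN

open Set Finset Pool.Agent.RX.RCRSHalf Pool.Agent.RX.RCG

set_option linter.unusedSectionVars false

/-- continuous induction for finitely many functions -/
theorem cont_ind {ι : Type*} [Finite ι] {t : ℝ} (ht : 0 ≤ t) {f : ι → ℝ → ℝ}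
    (hf : ∀ i, ContinuousOn (f i) (Icc 0 t)) (h0 : ∀ i, 0 ≤ f i 0)
    (hs : ∀ s ∈ Icc 0 t, (∀ r ∈ Icc 0 s, ∀ i, 0 ≤ f i r) → ∀ i, 0 < f i s) :
    ∀ s ∈ Icc 0 t, ∀ i, 0 ≤ f i s := by
  set S : Set ℝ := {s | s ∈ Icc 0 t ∧ ∀ r ∈ Icc 0 s, ∀ i, 0 ≤ f i r} with hS
  have h0S : (0 : ℝ) ∈ S := ⟨⟨le_rfl, ht⟩, fun r hr i => by
    have : r = 0 := le_antisymm hr.2 hr.1
    rw [this]; exact h0 i⟩
  have hbd : BddAbove S := ⟨t, fun s hs => hs.1.2⟩
  set T := sSup S with hT
  have hT0 : 0 ≤ T := le_csSup hbd h0S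
  have hTt : T ≤ t := csSup_le ⟨0, h0S⟩ fun s hs => hs.1.2
  have hlt : ∀ r ∈ Ico 0 T, ∀ i, 0 ≤ f i r := by
    intro r hr i
    obtain ⟨s, hs, hrs⟩ := exists_lt_of_lt_csSup ⟨0, h0S⟩ hr.2
    exact hs.2 r ⟨hr.1, hrs.le⟩ i
  have hTS : T ∈ S := by
    refine ⟨⟨hT0, hTt⟩, fun r hr i => ?_⟩
    rcases lt_or_eq_of_le hr.2 with hrT | hrT
    · exact hlt r ⟨hr.1, hrT⟩ i
    · rw [hrT]
      by_cases hT00 : T = 0
      · rw [hT00]; exact h0 i
      have hTpos : 0 < T := lt_of_le_of_ne hT0 (Ne.symm hT00)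
      have hc : ContinuousWithinAt (f i) (Ico 0 T) T :=
        (hf i T ⟨hT0, hTt⟩).mono fun r hr => ⟨hr.1, hr.2.le.trans hTt⟩
      have hne : (nhdsWithin T (Ico 0 T)).NeBot := by
        rw [← mem_closure_iff_nhdsWithin_neBot, closure_Ico hTpos.ne]
        exact ⟨hT0, le_rfl⟩
      exact ge_of_tendsto hc (by
        filter_upwards [self_mem_nhdsWithin] with r hr
        exact hlt r hr i)
  have hTeq : T = t := by
    by_contra hne
    have hTlt : T < t := lt_of_le_of_ne hTt hne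
    have hstr := hs T ⟨hT0, hTt⟩ hTS.2
    have hev : ∀ᶠ s in nhdsWithin T (Icc 0 t), ∀ i, 0 < f i s := by
      rw [Filter.eventually_all]
      intro i
      exact (hf i T ⟨hT0, hTt⟩).eventually (lt_mem_nhds (hstr i))
    rw [eventually_nhdsWithin_iff, Metric.eventually_nhds_iff] at hev
    obtain ⟨ε, hε, hev⟩ := hev
    set t1 := min (T + ε / 2) t with ht1
    have hTt1 : T < t1 := lt_min (by linarith) hTlt
    have ht1S : t1 ∈ S := by
      refine ⟨⟨hT0.trans hTt1.le, min_le_right _ _⟩, fun r hr i => ?_⟩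
      rcases le_or_gt r T with hrT | hrT
      · exact hTS.2 r ⟨hr.1, hrT⟩ i
      · refine (hev ?_ ⟨hr.1, hr.2.trans (min_le_right _ _)⟩ i).le
        have h1 : r ≤ T + ε / 2 := hr.2.trans (min_le_left _ _)
        rw [Real.dist_eq, abs_of_nonneg (by linarith)]
        linarith
    have := le_csSup hbd ht1S
    linarith
  intro s hs i
  exact hTS.2 s (by rw [hTeq]; exact hs) i

variable {V : Type*} [Fintype V] [DecidableEq V]

/-- what has to be certified; `R` marks the pairs with a strict acceptance condition -/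
def Certified2 (x : V → V → ℝ) (φ cap : V → V → ℝ → ℝ) (R : V → V → Prop) : Prop :=
  ∀ (h : ℝ → V → V → ℝ) (H : V → V → ℝ → ℝ), Haz h H →
    (∀ t ∈ Icc (0 : ℝ) 1, ∀ a b, h t a b ≤ cap a b t) →
    (∀ t ∈ Icc (0 : ℝ) 1, ∀ a b, x a b = 0 → h t a b = 0) →
    ∀ t ∈ Icc (0 : ℝ) 1, (∀ s ∈ Icc 0 t, ∀ a b, h s a b * pp h a b s = x a b * φ a b s) →
    (∀ s ∈ Icc 0 t, ∀ a b, R a b → x a b ≠ 0 → φ a b s ≤ Real.exp (H a b s) * pp h a b s) →
    ∀ a b, x a b ≠ 0 → (R a b → φ a b t < Real.exp (H a b t) * pp h a b t) ∧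
      φ a b t ≤ Real.exp (H a b t) * pp h a b t ∧
      x a b * φ a b t < cap a b t * pp h a b t

theorem certified_of_certified2 {x : V → V → ℝ} {φ cap : V → V → ℝ → ℝ} {R : V → V → Prop}
    (hc : ∀ a b, ContinuousOn (φ a b) (Icc 0 1)) (h0 : ∀ a b, x a b ≠ 0 → φ a b 0 ≤ 1)
    (hC : Certified2 x φ cap R) : Certified x φ cap := by
  intro h H hh hcap hz t ht hfl
  have hHc : ∀ a b, Continuous (H a b) := fun a b =>
    continuous_iff_continuousAt.2 fun t => (hh.Hd a b t).continuousAt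
  have hfc : ∀ a b, ContinuousOn (fun s => Real.exp (H a b s) * pp h a b s - φ a b s)
      (Icc 0 1) := fun a b =>
    (((Real.continuous_exp.comp (hHc a b)).continuousOn).mul (pp_cont hh a b)).sub (hc a b)
  have key := cont_ind (ι := {p : V × V // R p.1 p.2 ∧ x p.1 p.2 ≠ 0}) ht.1
    (f := fun p s => Real.exp (H p.1.1 p.1.2 s) * pp h p.1.1 p.1.2 s - φ p.1.1 p.1.2 s)
    (fun p => (hfc _ _).mono (Icc_subset_Icc le_rfl ht.2))
    (fun p => by
      have e : pp h p.1.1 p.1.2 0 = 1 := by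
        unfold pp
        rw [(hh.lw ∅).pr_start, if_pos]
        rw [Finset.compl_empty]; exact Finset.subset_univ _
      have := h0 _ _ p.2.2
      simp only [hh.H0, Real.exp_zero, e]
      linarith)
    (fun s hs hr p => by
      have hs1 : s ∈ Icc (0 : ℝ) 1 := ⟨hs.1, hs.2.trans ht.2⟩
      have := (hC h H hh hcap hz s hs1 (fun r hr => hfl r ⟨hr.1, hr.2.trans hs.2⟩)
        (fun r hr' a b hR hab => by
          have := hr r hr' ⟨(a, b), hR, hab⟩
          dsimp only at this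
          linarith) _ _ p.2.2).1 p.2.1
      linarith)
  intro a b hab
  have hle : ∀ s ∈ Icc 0 t, ∀ a b, R a b → x a b ≠ 0 →
      φ a b s ≤ Real.exp (H a b s) * pp h a b s :=
    fun s hs a b hR hab => by
      have := key s hs ⟨(a, b), hR, hab⟩
      dsimp only at this
      linarith
  have := hC h H hh hcap hz t ht hfl hle a b hab
  exact ⟨this.2.1, this.2.2⟩

end Pool.Agent.RX.RCN
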