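import Pool.Agent.RX.RCN.CPqD
import Pool.Agent.RX.RCN.CV1D
import Pool.Agent.RX.RCN.VLd

/-! Checks of the numeric cells (MP_73ccd0_lc, route M; generated). -/

set_option autoImplicit false

namespace Pool.Agent.RX.RCN.CPq

open Pool.Agent.RX.RCN Pool.Agent.RX.RCN.K Pool.Agent.RX.RCM9 Pool.Agent.RX.RCN.Ck1

theorem y0_ok : y0.ok V2L.y0 z0 m0 GRP CV1.tL 1100 wP (57 / 100) kpP (10 ^ 30) 32 = true := by
  decide +kernel

theorem y0_d0 : y0.okD V2L.d0 (10 ^ 30) 2 = true := by decide +kernel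

theorem y0_d1 : y0.okD V2L.d1 (10 ^ 30) 2 = true := by decide +kernel

theorem y0_d2 : y0.okD V2L.d2 (10 ^ 30) 2 = true := by decide +kernel

theorem y0_d3 : y0.okD V2L.d3 (10 ^ 30) 4 = true := by decide +kernel

theorem y0_d4 : y0.okD V2L.d4 (10 ^ 30) 8 = true := by decide +kernel

theorem y0_d5 : y0.okD V2L.d5 (10 ^ 30) 8 = true := by decide +kernel

theorem y0_d6 : y0.okD V2L.d6 (10 ^ 30) 16 = true := by decide +kernel

theorem y0_d7 : y0.okD V2L.d7 (10 ^ 30) 16 = true := by decide +kernel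

theorem y0_d8 : y0.okD V2L.d8 (10 ^ 30) 16 = true := by decide +kernel

theorem y0_d9 : y0.okD V2L.d9 (10 ^ 30) 8 = true := by decide +kernel

theorem y0_d10 : y0.okD V2L.d10 (10 ^ 30) 1 = true := by decide +kernel

theorem y1_ok : y1.ok V2L.y0 z0 m0 GRP CV1.tL 1100 wP (57 / 100) kpP (10 ^ 30) 16 = true := by
  decide +kernel

theorem y1_d11 : y1.okD V2L.d11 (10 ^ 30) 16 = true := by decide +kernel

theorem y1_d12 : y1.okD V2L.d12 (10 ^ 30) 16 = true := by decide +kernel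

theorem y1_d13 : y1.okD V2L.d13 (10 ^ 30) 16 = true := by decide +kernel

theorem y1_d14 : y1.okD V2L.d14 (10 ^ 30) 8 = true := by decide +kernel

theorem y1_d15 : y1.okD V2L.d15 (10 ^ 30) 8 = true := by decide +kernel

theorem y1_d16 : y1.okD V2L.d16 (10 ^ 30) 1 = true := by decide +kernel

theorem y2_ok : y2.ok V2L.y0 z0 m0 GRP CV1.tL 1100 wP (57 / 100) kpP (10 ^ 30) 16 = true := by
  decide +kernel

theorem y2_d17 : y2.okD V2L.d17 (10 ^ 30) 16 = true := by decide +kernel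

theorem y2_d18 : y2.okD V2L.d18 (10 ^ 30) 16 = true := by decide +kernel

theorem y2_d19 : y2.okD V2L.d19 (10 ^ 30) 16 = true := by decide +kernel

theorem y2_d20 : y2.okD V2L.d20 (10 ^ 30) 8 = true := by decide +kernel

theorem y2_d21 : y2.okD V2L.d21 (10 ^ 30) 4 = true := by decide +kernel

theorem y2_d22 : y2.okD V2L.d22 (10 ^ 30) 1 = true := by decide +kernel

theorem y3_ok : y3.ok V2L.y0 z0 m0 GRP CV1.tL 1100 wP (57 / 100) kpP (10 ^ 30) 16 = true := by
  decide +kernel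

theorem y3_d23 : y3.okD V2L.d23 (10 ^ 30) 16 = true := by decide +kernel

theorem y3_d24 : y3.okD V2L.d24 (10 ^ 30) 16 = true := by decide +kernel

theorem y3_d25 : y3.okD V2L.d25 (10 ^ 30) 8 = true := by decide +kernel

theorem y3_d26 : y3.okD V2L.d26 (10 ^ 30) 4 = true := by decide +kernel

theorem y3_d27 : y3.okD V2L.d27 (10 ^ 30) 1 = true := by decide +kernel

theorem y4_ok : y4.ok V2L.y0 z0 m0 GRP CV1.tL 1100 wP (57 / 100) kpP (10 ^ 30) 16 = true := by
  decide +kernel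

theorem y4_d28 : y4.okD V2L.d28 (10 ^ 30) 16 = true := by decide +kernel

theorem y4_d29 : y4.okD V2L.d29 (10 ^ 30) 8 = true := by decide +kernel

theorem y4_d30 : y4.okD V2L.d30 (10 ^ 30) 4 = true := by decide +kernel

theorem y4_d31 : y4.okD V2L.d31 (10 ^ 30) 1 = true := by decide +kernel

theorem y5_ok : y5.ok V2L.y0 z0 m0 GRP CV1.tL 1100 wP (57 / 100) kpP (10 ^ 30) 8 = true := by
  decide +kernel

theorem y5_d32 : y5.okD V2L.d32 (10 ^ 30) 16 = true := by decide +kernel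

theorem y5_d33 : y5.okD V2L.d33 (10 ^ 30) 2 = true := by decide +kernel

theorem y5_d34 : y5.okD V2L.d34 (10 ^ 30) 2 = true := by decide +kernel

theorem y5_d35 : y5.okD V2L.d35 (10 ^ 30) 1 = true := by decide +kernel

theorem y6_ok : y6.ok V2L.y0 z0 m0 GRP CV1.tL 1100 wP (57 / 100) kpP (10 ^ 30) 16 = true := by
  decide +kernel

theorem y6_d36 : y6.okD V2L.d36 (10 ^ 30) 16 = true := by decide +kernel

theorem y6_d37 : y6.okD V2L.d37 (10 ^ 30) 1 = true := by decide +kernel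

theorem y7_ok : y7.ok V2L.y0 z0 m0 GRP CV1.tL 1100 wP (57 / 100) kpP (10 ^ 30) 16 = true := by
  decide +kernel

theorem y7_d38 : y7.okD V2L.d38 (10 ^ 30) 16 = true := by decide +kernel

theorem y7_d39 : y7.okD V2L.d39 (10 ^ 30) 1 = true := by decide +kernel

theorem y8_ok : y8.ok V2L.y1 z1 m1 GRP CV1.tL 1100 wP (57 / 100) kpP (10 ^ 30) 16 = true := by
  decide +kernel

theorem y8_d40 : y8.okD V2L.d40 (10 ^ 30) 16 = true := by decide +kernel

theorem y8_d41 : y8.okD V2L.d41 (10 ^ 30) 16 = true := by decide +kernel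

theorem y8_d42 : y8.okD V2L.d42 (10 ^ 30) 1 = true := by decide +kernel

theorem y9_ok : y9.ok V2L.y1 z1 m1 GRP CV1.tL 1100 wP (57 / 100) kpP (10 ^ 30) 16 = true := by
  decide +kernel

theorem y9_d43 : y9.okD V2L.d43 (10 ^ 30) 16 = true := by decide +kernel

theorem y9_d44 : y9.okD V2L.d44 (10 ^ 30) 1 = true := by decide +kernel

end Pool.Agent.RX.RCN.CPq
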