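import Pool.Agent.RX.RCN.CPqD
import Pool.Agent.RX.RCN.CV1D
import Pool.Agent.RX.RCN.VLd

/-! Checks of the numeric cells (MP_73ccd0_lc, route M; generated). -/

set_option autoImplicit false

namespace Pool.Agent.RX.RCN.CPq

open Pool.Agent.RX.RCN Pool.Agent.RX.RCN.K Pool.Agent.RX.RCM9 Pool.Agent.RX.RCN.Ck1

theorem y10_ok : y10.ok V2L.y1 z1 m1 GRP CV1.tL 1100 wP (57 / 100) kpP (10 ^ 30) 16 = true := by
  decide +kernel

theorem y10_d45 : y10.okD V2L.d45 (10 ^ 30) 16 = true := by decide +kernel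

theorem y10_d46 : y10.okD V2L.d46 (10 ^ 30) 1 = true := by decide +kernel

theorem y11_ok : y11.ok V2L.y1 z1 m1 GRP CV1.tL 1100 wP (57 / 100) kpP (10 ^ 30) 16 = true := by
  decide +kernel

theorem y11_d47 : y11.okD V2L.d47 (10 ^ 30) 16 = true := by decide +kernel

theorem y11_d48 : y11.okD V2L.d48 (10 ^ 30) 1 = true := by decide +kernel

theorem y12_ok : y12.ok V2L.y1 z1 m1 GRP CV1.tL 1100 wP (57 / 100) kpP (10 ^ 30) 16 = true := by
  decide +kernel

theorem y12_d49 : y12.okD V2L.d49 (10 ^ 30) 1 = true := by decide +kernel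

theorem y13_ok : y13.ok V2L.y2 z2 m2 GRP CV1.tL 1100 wP (57 / 100) kpP (10 ^ 30) 16 = true := by
  decide +kernel

theorem y13_d50 : y13.okD V2L.d50 (10 ^ 30) 16 = true := by decide +kernel

theorem y13_d51 : y13.okD V2L.d51 (10 ^ 30) 1 = true := by decide +kernel

theorem y14_ok : y14.ok V2L.y2 z2 m2 GRP CV1.tL 1100 wP (57 / 100) kpP (10 ^ 30) 16 = true := by
  decide +kernel

theorem y14_d52 : y14.okD V2L.d52 (10 ^ 30) 16 = true := by decide +kernel

theorem y14_d53 : y14.okD V2L.d53 (10 ^ 30) 1 = true := by decide +kernel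

theorem y15_ok : y15.ok V2L.y2 z2 m2 GRP CV1.tL 1100 wP (57 / 100) kpP (10 ^ 30) 16 = true := by
  decide +kernel

theorem y15_d54 : y15.okD V2L.d54 (10 ^ 30) 16 = true := by decide +kernel

theorem y15_d55 : y15.okD V2L.d55 (10 ^ 30) 1 = true := by decide +kernel

theorem y16_ok : y16.ok V2L.y3 z3 m3 GRP CV1.tL 1100 wP (57 / 100) kpP (10 ^ 30) 24 = true := by
  decide +kernel

theorem y16_d56 : y16.okD V2L.d56 (10 ^ 30) 1 = true := by decide +kernel

theorem y17_ok : y17.ok V2L.y3 z3 m3 GRP CV1.tL 1100 wP (57 / 100) kpP (10 ^ 30) 24 = true := by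
  decide +kernel

theorem y17_d57 : y17.okD V2L.d57 (10 ^ 30) 1 = true := by decide +kernel

theorem y18_ok : y18.ok V2L.y3 z3 m3 GRP CV1.tL 1100 wP (57 / 100) kpP (10 ^ 30) 24 = true := by
  decide +kernel

theorem y18_d58 : y18.okD V2L.d58 (10 ^ 30) 1 = true := by decide +kernel

theorem y19_ok : y19.ok V2L.y3 z3 m3 GRP CV1.tL 1100 wP (57 / 100) kpP (10 ^ 30) 24 = true := by
  decide +kernel

theorem y19_d59 : y19.okD V2L.d59 (10 ^ 30) 1 = true := by decide +kernel

end Pool.Agent.RX.RCN.CPq
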