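import Pool.Agent.RX.RCN.CPqD
import Pool.Agent.RX.RCN.CV1D
import Pool.Agent.RX.RCN.VLd

/-! Checks of the numeric cells (MP_73ccd0_lc, route M; generated). -/

set_option autoImplicit false

namespace Pool.Agent.RX.RCN.CPq

open Pool.Agent.RX.RCN Pool.Agent.RX.RCN.K Pool.Agent.RX.RCM9 Pool.Agent.RX.RCN.Ck1

theorem y20_ok : y20.ok V2L.y4 z4 m4 GRP CV1.tL 1100 wP (57 / 100) kpP (10 ^ 30) 24 = true := by
  decide +kernel

theorem y20_d60 : y20.okD V2L.d60 (10 ^ 30) 1 = true := by decide +kernel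

theorem y21_ok : y21.ok V2L.y4 z4 m4 GRP CV1.tL 1100 wP (57 / 100) kpP (10 ^ 30) 24 = true := by
  decide +kernel

theorem y21_d61 : y21.okD V2L.d61 (10 ^ 30) 1 = true := by decide +kernel

theorem y22_ok : y22.ok V2L.y4 z4 m4 GRP CV1.tL 1100 wP (57 / 100) kpP (10 ^ 30) 24 = true := by
  decide +kernel

theorem y22_d62 : y22.okD V2L.d62 (10 ^ 30) 1 = true := by decide +kernel

theorem y23_ok : y23.ok V2L.y4 z4 m4 GRP CV1.tL 1100 wP (57 / 100) kpP (10 ^ 30) 24 = true := by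
  decide +kernel

theorem y23_d63 : y23.okD V2L.d63 (10 ^ 30) 1 = true := by decide +kernel

theorem y24_ok : y24.ok V2L.y4 z4 m4 GRP CV1.tL 1100 wP (57 / 100) kpP (10 ^ 30) 24 = true := by
  decide +kernel

theorem y24_d64 : y24.okD V2L.d64 (10 ^ 30) 1 = true := by decide +kernel

theorem y25_ok : y25.ok V2L.y5 z5 m5 GRP CV1.tL 1100 wP (57 / 100) kpP (10 ^ 30) 32 = true := by
  decide +kernel

theorem y25_d65 : y25.okD V2L.d65 (10 ^ 30) 1 = true := by decide +kernel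

theorem y26_ok : y26.ok V2L.y5 z5 m5 GRP CV1.tL 1100 wP (57 / 100) kpP (10 ^ 30) 32 = true := by
  decide +kernel

theorem y26_d66 : y26.okD V2L.d66 (10 ^ 30) 1 = true := by decide +kernel

theorem y27_ok : y27.ok V2L.y5 z5 m5 GRP CV1.tL 1100 wP (57 / 100) kpP (10 ^ 30) 32 = true := by
  decide +kernel

theorem y27_d67 : y27.okD V2L.d67 (10 ^ 30) 1 = true := by decide +kernel

theorem y28_ok : y28.ok V2L.y6 z6 m6 GRP CV1.tL 1100 wP (57 / 100) kpP (10 ^ 30) 32 = true := by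
  decide +kernel

theorem y28_d68 : y28.okD V2L.d68 (10 ^ 30) 1 = true := by decide +kernel

theorem y29_ok : y29.ok V2L.y6 z6 m6 GRP CV1.tL 1100 wP (57 / 100) kpP (10 ^ 30) 32 = true := by
  decide +kernel

theorem y29_d69 : y29.okD V2L.d69 (10 ^ 30) 1 = true := by decide +kernel

end Pool.Agent.RX.RCN.CPq
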