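import Pool.Agent.RX.RCN.CPqD
import Pool.Agent.RX.RCN.CV1D
import Pool.Agent.RX.RCN.VLd

/-! Checks of the numeric cells (MP_73ccd0_lc, route M; generated). -/

set_option autoImplicit false

namespace Pool.Agent.RX.RCN.CPq

open Pool.Agent.RX.RCN Pool.Agent.RX.RCN.K Pool.Agent.RX.RCM9 Pool.Agent.RX.RCN.Ck1

theorem y30_ok : y30.ok V2L.y6 z6 m6 GRP CV1.tL 1100 wP (57 / 100) kpP (10 ^ 30) 16 = true := by
  decide +kernel

theorem y30_d70 : y30.okD V2L.d70 (10 ^ 30) 1 = true := by decide +kernel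

theorem y31_ok : y31.ok V2L.y6 z6 m6 GRP CV1.tL 1100 wP (57 / 100) kpP (10 ^ 30) 16 = true := by
  decide +kernel

theorem y31_d71 : y31.okD V2L.d71 (10 ^ 30) 1 = true := by decide +kernel

theorem y32_ok : y32.ok V2L.y7 z7 m7 GRP CV1.tL 1100 wP (57 / 100) kpP (10 ^ 30) 16 = true := by
  decide +kernel

theorem y32_d72 : y32.okD V2L.d72 (10 ^ 30) 1 = true := by decide +kernel

theorem y33_ok : y33.ok V2L.y7 z7 m7 GRP CV1.tL 1100 wP (57 / 100) kpP (10 ^ 30) 16 = true := by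
  decide +kernel

theorem y33_d72 : y33.okD V2L.d72 (10 ^ 30) 1 = true := by decide +kernel

theorem y34_ok : y34.ok V2L.y7 z7 m7 GRP CV1.tL 1100 wP (57 / 100) kpP (10 ^ 30) 16 = true := by
  decide +kernel

theorem y34_d73 : y34.okD V2L.d73 (10 ^ 30) 1 = true := by decide +kernel

theorem y35_ok : y35.ok V2L.y7 z7 m7 GRP CV1.tL 1100 wP (57 / 100) kpP (10 ^ 30) 16 = true := by
  decide +kernel

theorem y35_d73 : y35.okD V2L.d73 (10 ^ 30) 1 = true := by decide +kernel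

theorem y36_ok : y36.ok V2L.y7 z7 m7 GRP CV1.tL 1100 wP (57 / 100) kpP (10 ^ 30) 16 = true := by
  decide +kernel

theorem y36_d74 : y36.okD V2L.d74 (10 ^ 30) 1 = true := by decide +kernel

theorem y37_ok : y37.ok V2L.y7 z7 m7 GRP CV1.tL 1100 wP (57 / 100) kpP (10 ^ 30) 16 = true := by
  decide +kernel

theorem y37_d75 : y37.okD V2L.d75 (10 ^ 30) 1 = true := by decide +kernel

theorem y38_ok : y38.ok V2L.y8 z8 m8 GRP CV1.tL 1100 wP (57 / 100) kpP (10 ^ 30) 24 = true := by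
  decide +kernel

theorem y38_d76 : y38.okD V2L.d76 (10 ^ 30) 1 = true := by decide +kernel

theorem y39_ok : y39.ok V2L.y8 z8 m8 GRP CV1.tL 1100 wP (57 / 100) kpP (10 ^ 30) 24 = true := by
  decide +kernel

theorem y39_d76 : y39.okD V2L.d76 (10 ^ 30) 1 = true := by decide +kernel

end Pool.Agent.RX.RCN.CPq
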