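import Pool.Agent.RX.RCN.CPqD
import Pool.Agent.RX.RCN.CV1D
import Pool.Agent.RX.RCN.VLd

/-! Checks of the numeric cells (MP_73ccd0_lc, route M; generated). -/

set_option autoImplicit false

namespace Pool.Agent.RX.RCN.CPq

open Pool.Agent.RX.RCN Pool.Agent.RX.RCN.K Pool.Agent.RX.RCM9 Pool.Agent.RX.RCN.Ck1

theorem y40_ok : y40.ok V2L.y8 z8 m8 GRP CV1.tL 1100 wP (57 / 100) kpP (10 ^ 30) 32 = true := by
  decide +kernel

theorem y40_d77 : y40.okD V2L.d77 (10 ^ 30) 1 = true := by decide +kernel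

theorem y41_ok : y41.ok V2L.y8 z8 m8 GRP CV1.tL 1100 wP (57 / 100) kpP (10 ^ 30) 16 = true := by
  decide +kernel

theorem y41_d78 : y41.okD V2L.d78 (10 ^ 30) 1 = true := by decide +kernel

theorem y42_ok : y42.ok V2L.y9 z9 m9 GRP CV1.tL 1100 wP (57 / 100) kpP (10 ^ 30) 16 = true := by
  decide +kernel

theorem y42_d79 : y42.okD V2L.d79 (10 ^ 30) 1 = true := by decide +kernel

theorem y43_ok : y43.ok V2L.y9 z9 m9 GRP CV1.tL 1100 wP (57 / 100) kpP (10 ^ 30) 16 = true := by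
  decide +kernel

theorem y43_d80 : y43.okD V2L.d80 (10 ^ 30) 1 = true := by decide +kernel

theorem y44_ok : y44.ok V2L.y9 z9 m9 GRP CV1.tL 1100 wP (57 / 100) kpP (10 ^ 30) 16 = true := by
  decide +kernel

theorem y44_d81 : y44.okD V2L.d81 (10 ^ 30) 1 = true := by decide +kernel

theorem y45_ok : y45.ok V2L.y10 z10 m10 GRP CV1.tL 1100 wP (57 / 100) kpP (10 ^ 30) 16 = true := by
  decide +kernel

theorem y45_d82 : y45.okD V2L.d82 (10 ^ 30) 1 = true := by decide +kernel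

theorem y46_ok : y46.ok V2L.y10 z10 m10 GRP CV1.tL 1100 wP (57 / 100) kpP (10 ^ 30) 16 = true := by
  decide +kernel

theorem y46_d83 : y46.okD V2L.d83 (10 ^ 30) 1 = true := by decide +kernel

theorem y47_ok : y47.ok V2L.y10 z10 m10 GRP CV1.tL 1100 wP (57 / 100) kpP (10 ^ 30) 16 = true := by
  decide +kernel

theorem y47_d84 : y47.okD V2L.d84 (10 ^ 30) 1 = true := by decide +kernel

theorem y48_ok : y48.ok V2L.y11 z11 m11 GRP CV1.tL 1100 wP (57 / 100) kpP (10 ^ 30) 16 = true := by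
  decide +kernel

theorem y48_d85 : y48.okD V2L.d85 (10 ^ 30) 1 = true := by decide +kernel

theorem y49_ok : y49.ok V2L.y11 z11 m11 GRP CV1.tL 1100 wP (57 / 100) kpP (10 ^ 30) 16 = true := by
  decide +kernel

theorem y49_d86 : y49.okD V2L.d86 (10 ^ 30) 1 = true := by decide +kernel

end Pool.Agent.RX.RCN.CPq
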