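import Pool.Agent.RX.RCN.CPqD
import Pool.Agent.RX.RCN.CV1D
import Pool.Agent.RX.RCN.VLd

/-! Checks of the numeric cells (MP_73ccd0_lc, route M; generated). -/

set_option autoImplicit false

namespace Pool.Agent.RX.RCN.CPq

open Pool.Agent.RX.RCN Pool.Agent.RX.RCN.K Pool.Agent.RX.RCM9 Pool.Agent.RX.RCN.Ck1

theorem y50_ok : y50.ok V2L.y11 z11 m11 GRP CV1.tL 1100 wP (57 / 100) kpP (10 ^ 30) 16 = true := by
  decide +kernel

theorem y50_d87 : y50.okD V2L.d87 (10 ^ 30) 1 = true := by decide +kernel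

theorem y51_ok : y51.ok V2L.y12 z12 m12 GRP CV1.tL 1100 wP (57 / 100) kpP (10 ^ 30) 16 = true := by
  decide +kernel

theorem y51_d88 : y51.okD V2L.d88 (10 ^ 30) 1 = true := by decide +kernel

theorem y52_ok : y52.ok V2L.y12 z12 m12 GRP CV1.tL 1100 wP (57 / 100) kpP (10 ^ 30) 16 = true := by
  decide +kernel

theorem y52_d89 : y52.okD V2L.d89 (10 ^ 30) 1 = true := by decide +kernel

theorem y53_ok : y53.ok V2L.y13 z13 m13 GRP CV1.tL 1100 wP (57 / 100) kpP (10 ^ 30) 16 = true := by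
  decide +kernel

theorem y53_d90 : y53.okD V2L.d90 (10 ^ 30) 1 = true := by decide +kernel

theorem y54_ok : y54.ok V2L.y13 z13 m13 GRP CV1.tL 1100 wP (57 / 100) kpP (10 ^ 30) 16 = true := by
  decide +kernel

theorem y54_d91 : y54.okD V2L.d91 (10 ^ 30) 1 = true := by decide +kernel

theorem y55_ok : y55.ok V2L.y14 z14 m14 GRP CV1.tL 1100 wP (57 / 100) kpP (10 ^ 30) 32 = true := by
  decide +kernel

theorem y55_d92 : y55.okD V2L.d92 (10 ^ 30) 1 = true := by decide +kernel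

theorem y56_ok : y56.ok V2L.y14 z14 m14 GRP CV1.tL 1100 wP (57 / 100) kpP (10 ^ 30) 24 = true := by
  decide +kernel

theorem y56_d93 : y56.okD V2L.d93 (10 ^ 30) 1 = true := by decide +kernel

theorem y57_ok : y57.ok V2L.y15 z15 m15 GRP CV1.tL 1100 wP (57 / 100) kpP (10 ^ 30) 24 = true := by
  decide +kernel

theorem y57_d94 : y57.okD V2L.d94 (10 ^ 30) 1 = true := by decide +kernel

theorem y58_ok : y58.ok V2L.y15 z15 m15 GRP CV1.tL 1100 wP (57 / 100) kpP (10 ^ 30) 24 = true := by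
  decide +kernel

theorem y58_d94 : y58.okD V2L.d94 (10 ^ 30) 1 = true := by decide +kernel

theorem y59_ok : y59.ok V2L.y15 z15 m15 GRP CV1.tL 1100 wP (57 / 100) kpP (10 ^ 30) 16 = true := by
  decide +kernel

theorem y59_d95 : y59.okD V2L.d95 (10 ^ 30) 1 = true := by decide +kernel

end Pool.Agent.RX.RCN.CPq
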