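import Pool.Agent.RX.RCN.CPqD
import Pool.Agent.RX.RCN.CV1D
import Pool.Agent.RX.RCN.VLd

/-! Checks of the numeric cells (MP_73ccd0_lc, route M; generated). -/

set_option autoImplicit false

namespace Pool.Agent.RX.RCN.CPq

open Pool.Agent.RX.RCN Pool.Agent.RX.RCN.K Pool.Agent.RX.RCM9 Pool.Agent.RX.RCN.Ck1

theorem y60_ok : y60.ok V2L.y15 z15 m15 GRP CV1.tL 1100 wP (57 / 100) kpP (10 ^ 30) 16 = true := by
  decide +kernel

theorem y60_d95 : y60.okD V2L.d95 (10 ^ 30) 1 = true := by decide +kernel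

theorem y61_ok : y61.ok V2L.y16 z16 m16 GRP CV1.tL 1100 wP (57 / 100) kpP (10 ^ 30) 24 = true := by
  decide +kernel

theorem y61_d96 : y61.okD V2L.d96 (10 ^ 30) 1 = true := by decide +kernel

theorem y62_ok : y62.ok V2L.y16 z16 m16 GRP CV1.tL 1100 wP (57 / 100) kpP (10 ^ 30) 24 = true := by
  decide +kernel

theorem y62_d96 : y62.okD V2L.d96 (10 ^ 30) 1 = true := by decide +kernel

theorem y63_ok : y63.ok V2L.y16 z16 m16 GRP CV1.tL 1100 wP (57 / 100) kpP (10 ^ 30) 16 = true := by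
  decide +kernel

theorem y63_d97 : y63.okD V2L.d97 (10 ^ 30) 1 = true := by decide +kernel

theorem y64_ok : y64.ok V2L.y16 z16 m16 GRP CV1.tL 1100 wP (57 / 100) kpP (10 ^ 30) 16 = true := by
  decide +kernel

theorem y64_d97 : y64.okD V2L.d97 (10 ^ 30) 1 = true := by decide +kernel

theorem y65_ok : y65.ok V2L.y17 z17 m17 GRP CV1.tL 1100 wP (57 / 100) kpP (10 ^ 30) 24 = true := by
  decide +kernel

theorem y65_d98 : y65.okD V2L.d98 (10 ^ 30) 1 = true := by decide +kernel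

theorem y66_ok : y66.ok V2L.y17 z17 m17 GRP CV1.tL 1100 wP (57 / 100) kpP (10 ^ 30) 24 = true := by
  decide +kernel

theorem y66_d98 : y66.okD V2L.d98 (10 ^ 30) 1 = true := by decide +kernel

theorem y67_ok : y67.ok V2L.y17 z17 m17 GRP CV1.tL 1100 wP (57 / 100) kpP (10 ^ 30) 16 = true := by
  decide +kernel

theorem y67_d99 : y67.okD V2L.d99 (10 ^ 30) 1 = true := by decide +kernel

theorem y68_ok : y68.ok V2L.y17 z17 m17 GRP CV1.tL 1100 wP (57 / 100) kpP (10 ^ 30) 16 = true := by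
  decide +kernel

theorem y68_d99 : y68.okD V2L.d99 (10 ^ 30) 1 = true := by decide +kernel

theorem y69_ok : y69.ok V2L.y18 z18 m18 GRP CV1.tL 1100 wP (57 / 100) kpP (10 ^ 30) 16 = true := by
  decide +kernel

theorem y69_d100 : y69.okD V2L.d100 (10 ^ 30) 1 = true := by decide +kernel

end Pool.Agent.RX.RCN.CPq
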