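import Pool.Agent.RX.RCN.CPqD
import Pool.Agent.RX.RCN.CV1D
import Pool.Agent.RX.RCN.VLd

/-! Checks of the numeric cells (MP_73ccd0_lc, route M; generated). -/

set_option autoImplicit false

namespace Pool.Agent.RX.RCN.CPq

open Pool.Agent.RX.RCN Pool.Agent.RX.RCN.K Pool.Agent.RX.RCM9 Pool.Agent.RX.RCN.Ck1

theorem y70_ok : y70.ok V2L.y18 z18 m18 GRP CV1.tL 1100 wP (57 / 100) kpP (10 ^ 30) 16 = true := by
  decide +kernel

theorem y70_d100 : y70.okD V2L.d100 (10 ^ 30) 1 = true := by decide +kernel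

theorem y71_ok : y71.ok V2L.y19 z19 m19 GRP CV1.tL 1100 wP (57 / 100) kpP (10 ^ 30) 16 = true := by
  decide +kernel

theorem y71_d101 : y71.okD V2L.d101 (10 ^ 30) 1 = true := by decide +kernel

theorem y72_ok : y72.ok V2L.y19 z19 m19 GRP CV1.tL 1100 wP (57 / 100) kpP (10 ^ 30) 16 = true := by
  decide +kernel

theorem y72_d101 : y72.okD V2L.d101 (10 ^ 30) 1 = true := by decide +kernel

theorem y73_ok : y73.ok V2L.y20 z20 m20 GRP CV1.tL 1100 wP (57 / 100) kpP (10 ^ 30) 16 = true := by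
  decide +kernel

theorem y73_d102 : y73.okD V2L.d102 (10 ^ 30) 1 = true := by decide +kernel

theorem y74_ok : y74.ok V2L.y20 z20 m20 GRP CV1.tL 1100 wP (57 / 100) kpP (10 ^ 30) 16 = true := by
  decide +kernel

theorem y74_d102 : y74.okD V2L.d102 (10 ^ 30) 1 = true := by decide +kernel

theorem y75_ok : y75.ok V2L.y21 z21 m21 GRP CV1.tL 1100 wP (57 / 100) kpP (10 ^ 30) 16 = true := by
  decide +kernel

theorem y75_d103 : y75.okD V2L.d103 (10 ^ 30) 1 = true := by decide +kernel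

theorem y76_ok : y76.ok V2L.y21 z21 m21 GRP CV1.tL 1100 wP (57 / 100) kpP (10 ^ 30) 16 = true := by
  decide +kernel

theorem y76_d103 : y76.okD V2L.d103 (10 ^ 30) 1 = true := by decide +kernel

theorem y77_ok : y77.ok V2L.y22 z22 m22 GRP CV1.tL 1100 wP (57 / 100) kpP (10 ^ 30) 16 = true := by
  decide +kernel

theorem y77_d104 : y77.okD V2L.d104 (10 ^ 30) 1 = true := by decide +kernel

theorem y78_ok : y78.ok V2L.y22 z22 m22 GRP CV1.tL 1100 wP (57 / 100) kpP (10 ^ 30) 16 = true := by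
  decide +kernel

theorem y78_d104 : y78.okD V2L.d104 (10 ^ 30) 1 = true := by decide +kernel

theorem y79_ok : y79.ok V2L.y23 z23 m23 GRP CV1.tL 1100 wP (57 / 100) kpP (10 ^ 30) 24 = true := by
  decide +kernel

theorem y79_d105 : y79.okD V2L.d105 (10 ^ 30) 1 = true := by decide +kernel

end Pool.Agent.RX.RCN.CPq
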