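import Pool.Agent.RX.RCN.CPqD
import Pool.Agent.RX.RCN.CV1D
import Pool.Agent.RX.RCN.VLd

/-! Checks of the numeric cells (MP_73ccd0_lc, route M; generated). -/

set_option autoImplicit false

namespace Pool.Agent.RX.RCN.CPq

open Pool.Agent.RX.RCN Pool.Agent.RX.RCN.K Pool.Agent.RX.RCM9 Pool.Agent.RX.RCN.Ck1

theorem y80_ok : y80.ok V2L.y23 z23 m23 GRP CV1.tL 1100 wP (57 / 100) kpP (10 ^ 30) 24 = true := by
  decide +kernel

theorem y80_d105 : y80.okD V2L.d105 (10 ^ 30) 1 = true := by decide +kernel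

theorem y81_ok : y81.ok V2L.y24 z24 m24 GRP CV1.tL 1100 wP (57 / 100) kpP (10 ^ 30) 16 = true := by
  decide +kernel

theorem y81_d106 : y81.okD V2L.d106 (10 ^ 30) 1 = true := by decide +kernel

theorem y82_ok : y82.ok V2L.y24 z24 m24 GRP CV1.tL 1100 wP (57 / 100) kpP (10 ^ 30) 16 = true := by
  decide +kernel

theorem y82_d106 : y82.okD V2L.d106 (10 ^ 30) 1 = true := by decide +kernel

theorem y83_ok : y83.ok V2L.y25 z25 m25 GRP CV1.tL 1100 wP (57 / 100) kpP (10 ^ 30) 16 = true := by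
  decide +kernel

theorem y83_d107 : y83.okD V2L.d107 (10 ^ 30) 1 = true := by decide +kernel

theorem y84_ok : y84.ok V2L.y25 z25 m25 GRP CV1.tL 1100 wP (57 / 100) kpP (10 ^ 30) 16 = true := by
  decide +kernel

theorem y84_d107 : y84.okD V2L.d107 (10 ^ 30) 1 = true := by decide +kernel

theorem y85_ok : y85.ok V2L.y26 z26 m26 GRP CV1.tL 1100 wP (57 / 100) kpP (10 ^ 30) 16 = true := by
  decide +kernel

theorem y85_d108 : y85.okD V2L.d108 (10 ^ 30) 1 = true := by decide +kernel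

theorem y86_ok : y86.ok V2L.y26 z26 m26 GRP CV1.tL 1100 wP (57 / 100) kpP (10 ^ 30) 16 = true := by
  decide +kernel

theorem y86_d108 : y86.okD V2L.d108 (10 ^ 30) 1 = true := by decide +kernel

theorem y87_ok : y87.ok V2L.y27 z27 m27 GRP CV1.tL 1100 wP (57 / 100) kpP (10 ^ 30) 24 = true := by
  decide +kernel

theorem y87_d109 : y87.okD V2L.d109 (10 ^ 30) 1 = true := by decide +kernel

end Pool.Agent.RX.RCN.CPq
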