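import Pool.Agent.RX.RCN.CkD

/-! The structures and the checks (Bool) of the inequality of the pairs
(MP_73ccd0_lc, route M). -/

set_option autoImplicit false

namespace Pool.Agent.RX.RCN.K

open Pool.Agent.RX.RCM9 Pool.Agent.RX.RCN.Ck1

/-- the sum of nested lists -/
def lad2 : List (List ℚ) → List (List ℚ) → List (List ℚ)
  | [], q => q
  | a :: p, q =>
    match q with
    | [] => a :: p
    | b :: q' => ladd a b :: lad2 p q'

/-- the numbers of a cell for the pairs -/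
structure Pn where
  γ : ℚ
  α : ℚ
  e1 : ℚ
  Cj : ℚ
  g0 : ℚ
  gh : ℚ
  g1 : ℚ
  qb : ℚ
  p2 : List ℚ
  p4 : List ℚ
  i1 : List ℚ
  a0 : List ℚ
  ah : List ℚ
  a1 : List ℚ
  h1 : List ℚ
  h2 : List ℚ

/-- nonnegative coefficients -/
def nnl (l : List ℚ) : Bool := l.all fun a => decide (0 ≤ a)

namespace Pn

/-- the rational checks -/
def ok (c : Pn) : Bool :=
  decide (0 ≤ c.γ) && (decide (0 ≤ c.α) && (decide (0 ≤ c.e1) && (decide (0 ≤ c.Cj)
    && (decide (0 < c.qb) && (decide (c.qb < 1) && (decide (0 ≤ c.g0) && (decide (0 ≤ c.gh)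
    && (decide (0 ≤ c.g1)
    && (nn 1000000 8 0 1 [c.qb, -c.α * (1 + 2 * c.γ), 2 * c.α * c.γ]
    && (nn 1000000000 32 0 c.qb (lsub (lmul [1, -2, 1] c.p2) [1])
    && (nn 1000000000 32 0 c.qb (lsub (lmul [1, -4, 6, -4, 1] c.p4) [1])
    && (nnl c.i1 && nnl c.h1))))))))))))

end Pn

/-- the integrals of `w L` up to `U`, as a polynomial in the first variable -/
def itg (w : List ℚ) (L : List (List ℚ)) (U : ℚ) : List ℚ :=
  L.map fun l => evq (pri (lmul w l)) U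

/-- the composition with the clock -/
def lcp (w C : List ℚ) : List ℚ := match w with
  | [] => []
  | a :: l => ladd [a] (lmul C (lcp l C))

/-- comparison of coefficients -/
def lle (l m : List ℚ) : Bool := nnl (lsub m l)

/-- the weights of the integrals, as polynomials in the clock -/
structure Pg where
  th : ℚ
  thh : ℚ
  w1 : List ℚ
  w0 : List ℚ
  wh : List ℚ
  w2 : List ℚ
  wF : List ℚ
  wG : List ℚ

namespace Pg

variable (w : Pg) (l : T1l)

/-- the checks of the weights -/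
def ok (D : ℤ) (n : ℕ) (τ Ug : ℚ) : Bool :=
  decide (0 < w.th) && (decide (0 < w.thh)
  && (nn D n 0 τ (lsub (lmul [1, 2, 1] (lmul (lcp w.w1 l.Cl) l.mb)) (lsmul w.th l.ke))
  && (nn D n 0 τ (lsub (lmul [1, 2, 1] (lmul (lcp w.w0 l.Cl) (lsmul w.th l.mb)))
      (lmul l.ke (lmul l.be0 l.be0)))
  && (nn D n 0 τ (lsub (lmul [1, 2, 1] (lmul (lcp w.wh l.Cl) (lsmul w.th l.mb)))
      (lmul l.ke (lmul (lsmul (1 / 2) (ladd (ladd [1] l.be0) l.be1))
        (lsmul (1 / 2) (ladd (ladd [1] l.be0) l.be1)))))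
  && (nn D n 0 τ (lsub (lmul [1, 2, 1] (lmul (lcp w.w2 l.Cl) (lsmul w.th l.mb)))
      (lmul l.ke (lmul (ladd [1] (lsmul (1 / 2) l.be1)) (ladd [1] (lsmul (1 / 2) l.be1)))))
  && (nn D n 0 τ (lsub (lmul (lcp w.wF l.Cl) l.mb) (lsmul w.thh (pri l.p0)))
  && (nn D n 0 τ (lsub (lmul (lcp w.wG l.Cl) (lsmul w.thh l.mb)) (lmul (pri l.p0)
      (lmul l.mb l.mb)))
  && (nn D n 0 Ug w.w1 && (nn D n 0 Ug w.w0 && (nn D n 0 Ug w.wh && (nn D n 0 Ug w.w2
  && (nn D n 0 Ug w.wF && nn D n 0 Ug w.wG))))))))))))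

end Pg

/-- the polynomial rows of a cell -/
structure Pc where
  K : ℚ
  U : ℚ
  l1 : List (List ℚ)
  l2 : List (List ℚ)
  h1 : List (List ℚ)
  h2 : List (List ℚ)

/-- the checks of the integrals -/
def Pc.ok (c : Pc) (w : Pg) (n : Pn) (Ug : ℚ) : Bool :=
  decide (0 ≤ c.K) && (decide (0 ≤ c.U) && (decide (c.U ≤ Ug)
  && (lle (lsmul c.K (itg w.w1 c.l1 c.U)) n.i1
  && (lle (lsmul c.K (itg w.w0 c.l2 c.U)) n.a0
  && (lle (lsmul c.K (itg w.wh c.l2 c.U)) n.ah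
  && (lle (lsmul c.K (itg w.w2 c.l2 c.U)) n.a1
  && (lle (lsmul c.K (itg w.wF c.h1 c.U)) n.h1
  && lle (lsmul c.K (itg w.wG c.h2 c.U)) n.h2)))))))

/-- product of a polynomial in the outer variable with one in the inner variable -/
def otr (a f : List ℚ) : List (List ℚ) := a.map fun c => lsmul c f

/-- the function `v ↦ g (U - v)` -/
def shl (g : List ℚ) (U : ℚ) : List ℚ := cmpl g [U, -1]

/-- the integral of `g` over `[U - v, U]` -/
def ddl (g : List ℚ) (U : ℚ) : List ℚ := lsub [evq (pri g) U] (shl (pri g) U)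

/-- the second integral -/
def scl (b : ℚ) (g : List ℚ) (U : ℚ) : List ℚ :=
  lsmul b (lsub [0, evq (pri g) U] (lsub [evq (pri (pri g)) U] (shl (pri (pri g)) U)))

/-- nonnegative coefficients, zero at zero -/
def cvx : List ℚ → Bool
  | [] => true
  | a :: t => decide (a = 0) && nnl t

namespace Xl

section exact

variable (U : ℚ) (κ : List ℚ)

/-- the factor of the marks -/
def El : List ℚ := lmul [1, 3 / 5] κ

end exact

end Xl

/-- the numbers of a numeric cell -/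
structure Pt where
  α : ℚ
  τ : ℚ
  kv : ℚ
  K : ℚ
  mt : ℚ
  e0 : ℚ
  e1 : ℚ
  n : Pn

namespace Pt

variable (l : T1l) (c : Pt) (D : ℤ) (j : ℕ)

/-- the checks of a numeric cell -/
def ok : Bool :=
  c.n.ok && (decide (0 ≤ c.α) && (decide (c.α < c.τ) && (decide (1 ≤ c.kv)
  && (decide ((1 + l.ee * c.τ) * c.kv ≤ c.K) && (decide (c.n.γ = c.τ)
  && (decide (c.n.α * (1 + c.n.γ / 2) ≤ c.mt) && (decide (c.mt < 1)
  && (decide (c.mt * c.n.γ ≤ 1 - c.mt + c.n.γ / 4) && (decide (c.n.α * (1 + c.n.γ) < 1)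
  && (decide (c.kv * evq l.P0 c.τ - evq l.Q0 c.τ ≤ c.e0)
  && (decide (c.kv * evq l.P1 c.τ - evq l.P2 c.τ ≤ c.e1) && (decide (0 ≤ c.e1)
  && (decide (0 ≤ c.e0) && (decide ((1 + l.ee * c.τ) * (c.e0 + c.e1 / 2) ≤ c.n.e1)
  && (nn D j 0 1 (lsub (lsmul c.n.Cj (lmul [6, -3] [1, -c.mt])) [6, -6, 1])
  && (nn D j c.α c.τ (lsub [c.kv] l.kc)
  && (nn D j c.α c.τ (lsub [c.n.g0, c.n.g0] l.be0)
  && (nn D j c.α c.τ (lsub [c.n.gh, c.n.gh] (lsmul (1 / 2) (ladd (ladd [1] l.be0) l.be1)))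
  && (nn D j c.α c.τ (lsub [c.n.g1, c.n.g1] (ladd [1] (lsmul (1 / 2) l.be1)))
  && nn D j c.α c.τ (lsub [c.n.α] l.al))))))))))))))))))))

end Pt

/-- the end of the clock of the cell `i` -/
def Ui (T : T1l) (N i : ℕ) : ℚ := evq T.Cl (btq * (i + 1) / N)

namespace Xl

variable (U Ua : ℚ) (κ : List ℚ)

end Xl

namespace Cd

end Cd

/-- evaluation of the inner variable -/
def at2 (L : List (List ℚ)) (U : ℚ) : List ℚ := L.map fun f => evq f U

/-- the pieces cover the interval -/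
def plok (D : ℤ) (n : ℕ) (R : List ℚ) (la lb : ℚ) : ℚ → List (ℚ × ℚ × ℚ) → Bool
  | s, [] => decide (1 ≤ s)
  | s, q :: r => decide (0 ≤ q.1) && (decide (0 ≤ q.2.1) && (nn D n s q.2.2
      (lsub [la, -lb] (ladd (lsmul q.1 (lmul [1, -1] R)) (lsmul q.2.1 [2, -1])))
      && plok D n R la lb q.2.2 r))

/-- the data of the sums -/
structure Pl where
  R1 : List ℚ
  R2 : List ℚ
  ps : List (ℚ × ℚ × ℚ)

end Pool.Agent.RX.RCN.K
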