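import Pool.Agent.RX.RCM9.Dat
import Pool.Agent.RX.RCN.CkP

/-! The expressions of the inequality of the pairs (MP_73ccd0_lc, route M). -/

set_option autoImplicit false

namespace Pool.Agent.RX.RCN.K

open Pool.Agent.RX.RCM9 Pool.Agent.RX.RCM9.Bern Pool.Agent.RX.RCM9.Pk Pool.Agent.RX.RCN.Ck1

namespace Pn

variable (c : Pn)

/-- the weight of the masses as an expression -/
def mwE (u y z : E) : E :=
  (1 + qc c.γ * u) * (1 - u - z) + qc c.γ * (qc (1 / 4) * (2 - 2 * u - z - y))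

/-- the bound of one side as an expression -/
def sE (u y z ry rz gy i2 : E) : E :=
  ry * rz * gy * (qc c.e1 * (1 + qc c.γ * (u + y)))
      * pe c.p2 (z * (qc c.α * (1 + qc c.γ * (u + y))))
    + qc c.Cj * ((1 - (y + z)) * qc (1 / 2))
      * ((1 + qc c.γ * u) * (ry ^ 2 * gy ^ 2 * pe c.p4 (z * (qc c.α * (1 + qc c.γ * (u + y))))
          * pe c.i1 (y + z) + (rz * (1 + qc c.γ * y)) ^ 2 * i2)
        + (ry ^ 2 * gy ^ 2 * pe c.p4 (z * (qc c.α * (1 + qc c.γ * (u + y)))) * c.mwE u y z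
            * pe c.h1 (y + z)
          + rz ^ 2 * c.mwE u 0 0 * pe c.h2 (y + z)))

/-- the chord on the first half -/
def cE (a h y2 : E) : E := (1 - y2) * a + y2 * h

variable (K : ℚ) (LA LB : List (List ℚ))

/-- the right side as an expression -/
def kE (u k ry rz : E) : E :=
  qc K * ((ry ^ 2 + rz ^ 2) * qc (1 / 2) * pe2 LA u k + ry * rz * pe2 LB u k)

/-- the first region: `y = X / 2`, `z = Z y`, `u = U (1 - y)` -/
def yA : E := qc (1 / 2) * vX
def zA : E := vZ * yA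
def uA : E := vU * (1 - yA)

def eA : E :=
  kE K LA LB uA (yA + zA) 1 vZ
    - c.sE uA yA zA 1 vZ (cE (qc c.g0) (qc c.gh) vX)
        (cE (pe c.a0 (yA + zA)) (pe c.ah (yA + zA)) (vZ * vX))
    - c.sE uA zA yA vZ 1 (cE (qc c.g0) (qc c.gh) (vZ * vX))
        (cE (pe c.a0 (yA + zA)) (pe c.ah (yA + zA)) vX)

/-- the second region: `y = (1 + X) / 2`, `z = Z (1 - y)`, `u = U (1 - y)` -/
def yB : E := qc (1 / 2) * (1 + vX)
def zB : E := vZ * (1 - yB)
def uB : E := vU * (1 - yB)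

def eB : E :=
  kE K LA LB uB (yB + zB) yB zB
    - c.sE uB yB zB yB zB (cE (qc c.gh) (qc c.g1) vX)
        (cE (pe c.a0 (yB + zB)) (pe c.ah (yB + zB)) (vZ * (1 - vX)))
    - c.sE uB zB yB zB yB (cE (qc c.g0) (qc c.gh) (vZ * (1 - vX)))
        (cE (pe c.ah (yB + zB)) (pe c.a1 (yB + zB)) vX)

end Pn

/-- the inequality of one vertex -/
def plE (θ β : ℚ) (R : List ℚ) : E :=
  qc β * vX + qc θ * (vZ * ((1 - vX) * pe R vX))
    - vX * (vZ * ((1 - vX) * pe R vX) - (vZ * ((1 - vX) * pe R vX)) ^ 2 * qc (1 / 2)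
      + (vZ * ((1 - vX) * pe R vX)) ^ 3 * qc (1 / 6))

end Pool.Agent.RX.RCN.K
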