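import Pool.Agent.RX.RCN.CPqD
import Pool.Agent.RX.RCN.CkE

/-! Certificates of `P0` (generated by gencert.py). -/

set_option autoImplicit false

namespace Pool.Agent.RX.RCN.CPq

open Pool.Agent.RX.RCN.K Pool.Agent.RX.RCM9 Pool.Agent.RX.RCM9.Bern Pool.Agent.RX.RCM9.Pk

theorem cP0_A0 : NN (y0.c.n.eA y0.Kc [shP] []) :=
  NN.of (K := 175) (D := ⟨15, 13, 6, 1⟩) (Box.of 4 (by decide +kernel))
    (by decide +kernel)

theorem cP0_B0 : NN (y0.c.n.eB y0.Kc [shP] []) :=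
  NN.of (K := 184) (D := ⟨17, 13, 6, 1⟩) (Box.of 4 (by decide +kernel))
    (by decide +kernel)

theorem cP0_A1 : NN (y1.c.n.eA y1.Kc [shP] []) :=
  NN.of (K := 182) (D := ⟨15, 13, 6, 1⟩) (Box.of 4 (by decide +kernel))
    (by decide +kernel)

theorem cP0_B1 : NN (y1.c.n.eB y1.Kc [shP] []) :=
  NN.of (K := 191) (D := ⟨17, 13, 6, 1⟩) (Box.of 4 (by decide +kernel))
    (by decide +kernel)

theorem cP0_A2 : NN (y2.c.n.eA y2.Kc [shP] []) :=
  NN.of (K := 178) (D := ⟨15, 13, 6, 1⟩) (Box.of 4 (by decide +kernel))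
    (by decide +kernel)

theorem cP0_B2 : NN (y2.c.n.eB y2.Kc [shP] []) :=
  NN.of (K := 192) (D := ⟨17, 13, 6, 1⟩) (Box.of 4 (by decide +kernel))
    (by decide +kernel)

theorem cP0_A3 : NN (y3.c.n.eA y3.Kc [shP] []) :=
  NN.of (K := 178) (D := ⟨15, 13, 6, 1⟩) (Box.of 4 (by decide +kernel))
    (by decide +kernel)

theorem cP0_B3 : NN (y3.c.n.eB y3.Kc [shP] []) :=
  NN.of (K := 187) (D := ⟨17, 13, 6, 1⟩) (Box.of 4 (by decide +kernel))
    (by decide +kernel)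

theorem cP0_A4 : NN (y4.c.n.eA y4.Kc [shP] []) :=
  NN.of (K := 172) (D := ⟨15, 13, 6, 1⟩) (Box.of 4 (by decide +kernel))
    (by decide +kernel)

theorem cP0_B4 : NN (y4.c.n.eB y4.Kc [shP] []) :=
  NN.of (K := 183) (D := ⟨17, 13, 6, 1⟩) (Box.of 4 (by decide +kernel))
    (by decide +kernel)

theorem cP0_A5 : NN (y5.c.n.eA y5.Kc [shP] []) :=
  NN.of (K := 183) (D := ⟨15, 13, 6, 1⟩) (Box.of 4 (by decide +kernel))
    (by decide +kernel)

theorem cP0_B5 : NN (y5.c.n.eB y5.Kc [shP] []) :=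
  NN.of (K := 193) (D := ⟨17, 13, 6, 1⟩) (Box.of 4 (by decide +kernel))
    (by decide +kernel)

theorem cP0_A6 : NN (y6.c.n.eA y6.Kc [shP] []) :=
  NN.of (K := 183) (D := ⟨15, 13, 6, 1⟩) (Box.of 4 (by decide +kernel))
    (by decide +kernel)

theorem cP0_B6 : NN (y6.c.n.eB y6.Kc [shP] []) :=
  NN.of (K := 193) (D := ⟨17, 13, 6, 1⟩) (Box.of 4 (by decide +kernel))
    (by decide +kernel)

theorem cP0_A7 : NN (y7.c.n.eA y7.Kc [shP] []) :=
  NN.of (K := 155) (D := ⟨15, 13, 6, 1⟩) (Box.of 4 (by decide +kernel))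
    (by decide +kernel)

theorem cP0_B7 : NN (y7.c.n.eB y7.Kc [shP] []) :=
  NN.of (K := 165) (D := ⟨17, 13, 6, 1⟩) (Box.of 4 (by decide +kernel))
    (by decide +kernel)

theorem cP0_A8 : NN (y8.c.n.eA y8.Kc [shP] []) :=
  NN.of (K := 194) (D := ⟨15, 13, 6, 1⟩) (Box.of 4 (by decide +kernel))
    (by decide +kernel)

theorem cP0_B8 : NN (y8.c.n.eB y8.Kc [shP] []) :=
  NN.of (K := 204) (D := ⟨17, 13, 6, 1⟩) (Box.of 4 (by decide +kernel))
    (by decide +kernel)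

theorem cP0_A9 : NN (y9.c.n.eA y9.Kc [shP] []) :=
  NN.of (K := 176) (D := ⟨15, 13, 6, 1⟩) (Box.of 4 (by decide +kernel))
    (by decide +kernel)

theorem cP0_B9 : NN (y9.c.n.eB y9.Kc [shP] []) :=
  NN.of (K := 186) (D := ⟨17, 13, 6, 1⟩) (Box.of 4 (by decide +kernel))
    (by decide +kernel)

theorem cP0_A10 : NN (y10.c.n.eA y10.Kc [shP] []) :=
  NN.of (K := 181) (D := ⟨15, 13, 6, 1⟩) (Box.of 4 (by decide +kernel))
    (by decide +kernel)

theorem cP0_B10 : NN (y10.c.n.eB y10.Kc [shP] []) :=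
  NN.of (K := 192) (D := ⟨17, 13, 6, 1⟩) (Box.of 4 (by decide +kernel))
    (by decide +kernel)

theorem cP0_A11 : NN (y11.c.n.eA y11.Kc [shP] []) :=
  NN.of (K := 194) (D := ⟨15, 13, 6, 1⟩) (Box.of 4 (by decide +kernel))
    (by decide +kernel)

end Pool.Agent.RX.RCN.CPq
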