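import Pool.Agent.RX.RCN.CPqD
import Pool.Agent.RX.RCN.CkE

/-! Certificates of `P1` (generated by gencert.py). -/

set_option autoImplicit false

namespace Pool.Agent.RX.RCN.CPq

open Pool.Agent.RX.RCN.K Pool.Agent.RX.RCM9 Pool.Agent.RX.RCM9.Bern Pool.Agent.RX.RCM9.Pk

theorem cP1_B11 : NN (y11.c.n.eB y11.Kc [shP] []) :=
  NN.of (K := 204) (D := ⟨17, 13, 6, 1⟩) (Box.of 4 (by decide +kernel))
    (by decide +kernel)

theorem cP1_A12 : NN (y12.c.n.eA y12.Kc [shP] []) :=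
  NN.of (K := 154) (D := ⟨15, 13, 6, 1⟩) (Box.of 4 (by decide +kernel))
    (by decide +kernel)

theorem cP1_B12 : NN (y12.c.n.eB y12.Kc [shP] []) :=
  NN.of (K := 171) (D := ⟨17, 13, 6, 1⟩) (Box.of 4 (by decide +kernel))
    (by decide +kernel)

theorem cP1_A13 : NN (y13.c.n.eA y13.Kc [shP] []) :=
  NN.of (K := 185) (D := ⟨15, 13, 6, 1⟩) (Box.of 4 (by decide +kernel))
    (by decide +kernel)

theorem cP1_B13 : NN (y13.c.n.eB y13.Kc [shP] []) :=
  NN.of (K := 196) (D := ⟨17, 13, 6, 1⟩) (Box.of 4 (by decide +kernel))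
    (by decide +kernel)

theorem cP1_A14 : NN (y14.c.n.eA y14.Kc [shP] []) :=
  NN.of (K := 188) (D := ⟨15, 13, 6, 1⟩) (Box.of 4 (by decide +kernel))
    (by decide +kernel)

theorem cP1_B14 : NN (y14.c.n.eB y14.Kc [shP] []) :=
  NN.of (K := 201) (D := ⟨17, 13, 6, 1⟩) (Box.of 4 (by decide +kernel))
    (by decide +kernel)

theorem cP1_A15 : NN (y15.c.n.eA y15.Kc [shP] []) :=
  NN.of (K := 162) (D := ⟨15, 13, 6, 1⟩) (Box.of 4 (by decide +kernel))
    (by decide +kernel)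

theorem cP1_B15 : NN (y15.c.n.eB y15.Kc [shP] []) :=
  NN.of (K := 173) (D := ⟨17, 13, 6, 1⟩) (Box.of 4 (by decide +kernel))
    (by decide +kernel)

theorem cP1_A16 : NN (y16.c.n.eA y16.Kc [shP] []) :=
  NN.of (K := 184) (D := ⟨15, 13, 6, 1⟩) (Box.of 4 (by decide +kernel))
    (by decide +kernel)

theorem cP1_B16 : NN (y16.c.n.eB y16.Kc [shP] []) :=
  NN.of (K := 196) (D := ⟨17, 13, 6, 1⟩) (Box.of 4 (by decide +kernel))
    (by decide +kernel)

theorem cP1_A17 : NN (y17.c.n.eA y17.Kc [shP] []) :=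
  NN.of (K := 175) (D := ⟨15, 13, 6, 1⟩) (Box.of 4 (by decide +kernel))
    (by decide +kernel)

theorem cP1_B17 : NN (y17.c.n.eB y17.Kc [shP] []) :=
  NN.of (K := 186) (D := ⟨17, 13, 6, 1⟩) (Box.of 4 (by decide +kernel))
    (by decide +kernel)

theorem cP1_A18 : NN (y18.c.n.eA y18.Kc [shP] []) :=
  NN.of (K := 181) (D := ⟨15, 13, 6, 1⟩) (Box.of 4 (by decide +kernel))
    (by decide +kernel)

theorem cP1_B18 : NN (y18.c.n.eB y18.Kc [shP] []) :=
  NN.of (K := 194) (D := ⟨17, 13, 6, 1⟩) (Box.of 4 (by decide +kernel))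
    (by decide +kernel)

theorem cP1_A19 : NN (y19.c.n.eA y19.Kc [shP] []) :=
  NN.of (K := 176) (D := ⟨15, 13, 6, 1⟩) (Box.of 4 (by decide +kernel))
    (by decide +kernel)

theorem cP1_B19 : NN (y19.c.n.eB y19.Kc [shP] []) :=
  NN.of (K := 189) (D := ⟨17, 13, 6, 1⟩) (Box.of 4 (by decide +kernel))
    (by decide +kernel)

theorem cP1_A20 : NN (y20.c.n.eA y20.Kc [shP] []) :=
  NN.of (K := 195) (D := ⟨15, 13, 6, 1⟩) (Box.of 4 (by decide +kernel))
    (by decide +kernel)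

theorem cP1_B20 : NN (y20.c.n.eB y20.Kc [shP] []) :=
  NN.of (K := 207) (D := ⟨17, 13, 6, 1⟩) (Box.of 4 (by decide +kernel))
    (by decide +kernel)

theorem cP1_A21 : NN (y21.c.n.eA y21.Kc [shP] []) :=
  NN.of (K := 191) (D := ⟨15, 13, 6, 1⟩) (Box.of 4 (by decide +kernel))
    (by decide +kernel)

theorem cP1_B21 : NN (y21.c.n.eB y21.Kc [shP] []) :=
  NN.of (K := 203) (D := ⟨17, 13, 6, 1⟩) (Box.of 4 (by decide +kernel))
    (by decide +kernel)

theorem cP1_A22 : NN (y22.c.n.eA y22.Kc [shP] []) :=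
  NN.of (K := 192) (D := ⟨15, 13, 6, 1⟩) (Box.of 4 (by decide +kernel))
    (by decide +kernel)

theorem cP1_B22 : NN (y22.c.n.eB y22.Kc [shP] []) :=
  NN.of (K := 204) (D := ⟨17, 13, 6, 1⟩) (Box.of 4 (by decide +kernel))
    (by decide +kernel)

end Pool.Agent.RX.RCN.CPq
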