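import Pool.Agent.RX.RCN.CPqD
import Pool.Agent.RX.RCN.CkE

/-! Certificates of `P2` (generated by gencert.py). -/

set_option autoImplicit false

namespace Pool.Agent.RX.RCN.CPq

open Pool.Agent.RX.RCN.K Pool.Agent.RX.RCM9 Pool.Agent.RX.RCM9.Bern Pool.Agent.RX.RCM9.Pk

theorem cP2_A23 : NN (y23.c.n.eA y23.Kc [shP] []) :=
  NN.of (K := 179) (D := ⟨15, 13, 6, 1⟩) (Box.of 4 (by decide +kernel))
    (by decide +kernel)

theorem cP2_B23 : NN (y23.c.n.eB y23.Kc [shP] []) :=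
  NN.of (K := 190) (D := ⟨17, 13, 6, 1⟩) (Box.of 4 (by decide +kernel))
    (by decide +kernel)

theorem cP2_A24 : NN (y24.c.n.eA y24.Kc [shP] []) :=
  NN.of (K := 179) (D := ⟨15, 13, 6, 1⟩) (Box.of 4 (by decide +kernel))
    (by decide +kernel)

theorem cP2_B24 : NN (y24.c.n.eB y24.Kc [shP] []) :=
  NN.of (K := 191) (D := ⟨17, 13, 6, 1⟩) (Box.of 4 (by decide +kernel))
    (by decide +kernel)

theorem cP2_A25 : NN (y25.c.n.eA y25.Kc [shP] []) :=
  NN.of (K := 191) (D := ⟨15, 13, 6, 1⟩) (Box.of 4 (by decide +kernel))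
    (by decide +kernel)

theorem cP2_B25 : NN (y25.c.n.eB y25.Kc [shP] []) :=
  NN.of (K := 203) (D := ⟨17, 13, 6, 1⟩) (Box.of 4 (by decide +kernel))
    (by decide +kernel)

theorem cP2_A26 : NN (y26.c.n.eA y26.Kc [shP] []) :=
  NN.of (K := 193) (D := ⟨15, 13, 6, 1⟩) (Box.of 4 (by decide +kernel))
    (by decide +kernel)

theorem cP2_B26 : NN (y26.c.n.eB y26.Kc [shP] []) :=
  NN.of (K := 205) (D := ⟨17, 13, 6, 1⟩) (Box.of 4 (by decide +kernel))
    (by decide +kernel)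

theorem cP2_A27 : NN (y27.c.n.eA y27.Kc [shP] []) :=
  NN.of (K := 184) (D := ⟨15, 13, 6, 1⟩) (Box.of 4 (by decide +kernel))
    (by decide +kernel)

theorem cP2_B27 : NN (y27.c.n.eB y27.Kc [shP] []) :=
  NN.of (K := 196) (D := ⟨17, 13, 6, 1⟩) (Box.of 4 (by decide +kernel))
    (by decide +kernel)

theorem cP2_A28 : NN (y28.c.n.eA y28.Kc [shP] []) :=
  NN.of (K := 181) (D := ⟨15, 13, 6, 1⟩) (Box.of 4 (by decide +kernel))
    (by decide +kernel)

theorem cP2_B28 : NN (y28.c.n.eB y28.Kc [shP] []) :=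
  NN.of (K := 193) (D := ⟨17, 13, 6, 1⟩) (Box.of 4 (by decide +kernel))
    (by decide +kernel)

theorem cP2_A29 : NN (y29.c.n.eA y29.Kc [shP] []) :=
  NN.of (K := 173) (D := ⟨15, 13, 6, 1⟩) (Box.of 4 (by decide +kernel))
    (by decide +kernel)

theorem cP2_B29 : NN (y29.c.n.eB y29.Kc [shP] []) :=
  NN.of (K := 185) (D := ⟨17, 13, 6, 1⟩) (Box.of 4 (by decide +kernel))
    (by decide +kernel)

theorem cP2_A30 : NN (y30.c.n.eA y30.Kc [shP] []) :=
  NN.of (K := 187) (D := ⟨15, 13, 6, 1⟩) (Box.of 4 (by decide +kernel))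
    (by decide +kernel)

theorem cP2_B30 : NN (y30.c.n.eB y30.Kc [shP] []) :=
  NN.of (K := 200) (D := ⟨17, 13, 6, 1⟩) (Box.of 4 (by decide +kernel))
    (by decide +kernel)

theorem cP2_A31 : NN (y31.c.n.eA y31.Kc [shP] []) :=
  NN.of (K := 184) (D := ⟨15, 13, 6, 1⟩) (Box.of 4 (by decide +kernel))
    (by decide +kernel)

theorem cP2_B31 : NN (y31.c.n.eB y31.Kc [shP] []) :=
  NN.of (K := 196) (D := ⟨17, 13, 6, 1⟩) (Box.of 4 (by decide +kernel))
    (by decide +kernel)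

theorem cP2_A32 : NN (y32.c.n.eA y32.Kc [shP] []) :=
  NN.of (K := 188) (D := ⟨15, 13, 6, 1⟩) (Box.of 4 (by decide +kernel))
    (by decide +kernel)

theorem cP2_B32 : NN (y32.c.n.eB y32.Kc [shP] []) :=
  NN.of (K := 202) (D := ⟨17, 13, 6, 1⟩) (Box.of 4 (by decide +kernel))
    (by decide +kernel)

theorem cP2_A33 : NN (y33.c.n.eA y33.Kc [shP] []) :=
  NN.of (K := 191) (D := ⟨15, 13, 6, 1⟩) (Box.of 4 (by decide +kernel))
    (by decide +kernel)

theorem cP2_B33 : NN (y33.c.n.eB y33.Kc [shP] []) :=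
  NN.of (K := 204) (D := ⟨17, 13, 6, 1⟩) (Box.of 4 (by decide +kernel))
    (by decide +kernel)

theorem cP2_A34 : NN (y34.c.n.eA y34.Kc [shP] []) :=
  NN.of (K := 187) (D := ⟨15, 13, 6, 1⟩) (Box.of 4 (by decide +kernel))
    (by decide +kernel)

end Pool.Agent.RX.RCN.CPq
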