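import Pool.Agent.RX.RCN.CPqD
import Pool.Agent.RX.RCN.CkE

/-! Certificates of `P3` (generated by gencert.py). -/

set_option autoImplicit false

namespace Pool.Agent.RX.RCN.CPq

open Pool.Agent.RX.RCN.K Pool.Agent.RX.RCM9 Pool.Agent.RX.RCM9.Bern Pool.Agent.RX.RCM9.Pk

theorem cP3_B34 : NN (y34.c.n.eB y34.Kc [shP] []) :=
  NN.of (K := 200) (D := ⟨17, 13, 6, 1⟩) (Box.of 4 (by decide +kernel))
    (by decide +kernel)

theorem cP3_A35 : NN (y35.c.n.eA y35.Kc [shP] []) :=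
  NN.of (K := 185) (D := ⟨15, 13, 6, 1⟩) (Box.of 4 (by decide +kernel))
    (by decide +kernel)

theorem cP3_B35 : NN (y35.c.n.eB y35.Kc [shP] []) :=
  NN.of (K := 203) (D := ⟨17, 13, 6, 1⟩) (Box.of 4 (by decide +kernel))
    (by decide +kernel)

theorem cP3_A36 : NN (y36.c.n.eA y36.Kc [shP] []) :=
  NN.of (K := 170) (D := ⟨15, 13, 6, 1⟩) (Box.of 4 (by decide +kernel))
    (by decide +kernel)

theorem cP3_B36 : NN (y36.c.n.eB y36.Kc [shP] []) :=
  NN.of (K := 183) (D := ⟨17, 13, 6, 1⟩) (Box.of 4 (by decide +kernel))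
    (by decide +kernel)

theorem cP3_A37 : NN (y37.c.n.eA y37.Kc [shP] []) :=
  NN.of (K := 180) (D := ⟨15, 13, 6, 1⟩) (Box.of 4 (by decide +kernel))
    (by decide +kernel)

theorem cP3_B37 : NN (y37.c.n.eB y37.Kc [shP] []) :=
  NN.of (K := 193) (D := ⟨17, 13, 6, 1⟩) (Box.of 4 (by decide +kernel))
    (by decide +kernel)

theorem cP3_A38 : NN (y38.c.n.eA y38.Kc [shP] []) :=
  NN.of (K := 184) (D := ⟨15, 13, 6, 1⟩) (Box.of 4 (by decide +kernel))
    (by decide +kernel)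

theorem cP3_B38 : NN (y38.c.n.eB y38.Kc [shP] []) :=
  NN.of (K := 197) (D := ⟨17, 13, 6, 1⟩) (Box.of 4 (by decide +kernel))
    (by decide +kernel)

theorem cP3_A39 : NN (y39.c.n.eA y39.Kc [shP] []) :=
  NN.of (K := 182) (D := ⟨15, 13, 6, 1⟩) (Box.of 4 (by decide +kernel))
    (by decide +kernel)

theorem cP3_B39 : NN (y39.c.n.eB y39.Kc [shP] []) :=
  NN.of (K := 195) (D := ⟨17, 13, 6, 1⟩) (Box.of 4 (by decide +kernel))
    (by decide +kernel)

theorem cP3_A40 : NN (y40.c.n.eA y40.Kc [shP] []) :=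
  NN.of (K := 188) (D := ⟨15, 13, 6, 1⟩) (Box.of 4 (by decide +kernel))
    (by decide +kernel)

theorem cP3_B40 : NN (y40.c.n.eB y40.Kc [shP] []) :=
  NN.of (K := 201) (D := ⟨17, 13, 6, 1⟩) (Box.of 4 (by decide +kernel))
    (by decide +kernel)

theorem cP3_A41 : NN (y41.c.n.eA y41.Kc [shP] []) :=
  NN.of (K := 196) (D := ⟨15, 13, 6, 1⟩) (Box.of 4 (by decide +kernel))
    (by decide +kernel)

theorem cP3_B41 : NN (y41.c.n.eB y41.Kc [shP] []) :=
  NN.of (K := 209) (D := ⟨17, 13, 6, 1⟩) (Box.of 4 (by decide +kernel))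
    (by decide +kernel)

theorem cP3_A42 : NN (y42.c.n.eA y42.Kc [shP] []) :=
  NN.of (K := 170) (D := ⟨15, 13, 6, 1⟩) (Box.of 4 (by decide +kernel))
    (by decide +kernel)

theorem cP3_B42 : NN (y42.c.n.eB y42.Kc [shP] []) :=
  NN.of (K := 183) (D := ⟨17, 13, 6, 1⟩) (Box.of 4 (by decide +kernel))
    (by decide +kernel)

theorem cP3_A43 : NN (y43.c.n.eA y43.Kc [shP] []) :=
  NN.of (K := 192) (D := ⟨15, 13, 6, 1⟩) (Box.of 4 (by decide +kernel))
    (by decide +kernel)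

theorem cP3_B43 : NN (y43.c.n.eB y43.Kc [shP] []) :=
  NN.of (K := 207) (D := ⟨17, 13, 6, 1⟩) (Box.of 4 (by decide +kernel))
    (by decide +kernel)

theorem cP3_A44 : NN (y44.c.n.eA y44.Kc [shP] []) :=
  NN.of (K := 192) (D := ⟨15, 13, 6, 1⟩) (Box.of 4 (by decide +kernel))
    (by decide +kernel)

theorem cP3_B44 : NN (y44.c.n.eB y44.Kc [shP] []) :=
  NN.of (K := 206) (D := ⟨17, 13, 6, 1⟩) (Box.of 4 (by decide +kernel))
    (by decide +kernel)

theorem cP3_A45 : NN (y45.c.n.eA y45.Kc [shP] []) :=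
  NN.of (K := 179) (D := ⟨15, 13, 6, 1⟩) (Box.of 4 (by decide +kernel))
    (by decide +kernel)

theorem cP3_B45 : NN (y45.c.n.eB y45.Kc [shP] []) :=
  NN.of (K := 192) (D := ⟨17, 13, 6, 1⟩) (Box.of 4 (by decide +kernel))
    (by decide +kernel)

end Pool.Agent.RX.RCN.CPq
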