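import Pool.Agent.RX.RCN.CPqD
import Pool.Agent.RX.RCN.CkE

/-! Certificates of `P5` (generated by gencert.py). -/

set_option autoImplicit false

namespace Pool.Agent.RX.RCN.CPq

open Pool.Agent.RX.RCN.K Pool.Agent.RX.RCM9 Pool.Agent.RX.RCM9.Bern Pool.Agent.RX.RCM9.Pk

theorem cP5_B57 : NN (y57.c.n.eB y57.Kc [shP] []) :=
  NN.of (K := 202) (D := ⟨17, 13, 6, 1⟩) (Box.of 4 (by decide +kernel))
    (by decide +kernel)

theorem cP5_A58 : NN (y58.c.n.eA y58.Kc [shP] []) :=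
  NN.of (K := 191) (D := ⟨15, 13, 6, 1⟩) (Box.of 4 (by decide +kernel))
    (by decide +kernel)

theorem cP5_B58 : NN (y58.c.n.eB y58.Kc [shP] []) :=
  NN.of (K := 205) (D := ⟨17, 13, 6, 1⟩) (Box.of 4 (by decide +kernel))
    (by decide +kernel)

theorem cP5_A59 : NN (y59.c.n.eA y59.Kc [shP] []) :=
  NN.of (K := 203) (D := ⟨15, 13, 6, 1⟩) (Box.of 4 (by decide +kernel))
    (by decide +kernel)

theorem cP5_B59 : NN (y59.c.n.eB y59.Kc [shP] []) :=
  NN.of (K := 216) (D := ⟨17, 13, 6, 1⟩) (Box.of 4 (by decide +kernel))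
    (by decide +kernel)

theorem cP5_A60 : NN (y60.c.n.eA y60.Kc [shP] []) :=
  NN.of (K := 188) (D := ⟨15, 13, 6, 1⟩) (Box.of 4 (by decide +kernel))
    (by decide +kernel)

theorem cP5_B60 : NN (y60.c.n.eB y60.Kc [shP] []) :=
  NN.of (K := 201) (D := ⟨17, 13, 6, 1⟩) (Box.of 4 (by decide +kernel))
    (by decide +kernel)

theorem cP5_A61 : NN (y61.c.n.eA y61.Kc [shP] []) :=
  NN.of (K := 201) (D := ⟨15, 13, 6, 1⟩) (Box.of 4 (by decide +kernel))
    (by decide +kernel)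

theorem cP5_B61 : NN (y61.c.n.eB y61.Kc [shP] []) :=
  NN.of (K := 214) (D := ⟨17, 13, 6, 1⟩) (Box.of 4 (by decide +kernel))
    (by decide +kernel)

theorem cP5_A62 : NN (y62.c.n.eA y62.Kc [shP] []) :=
  NN.of (K := 192) (D := ⟨15, 13, 6, 1⟩) (Box.of 4 (by decide +kernel))
    (by decide +kernel)

theorem cP5_B62 : NN (y62.c.n.eB y62.Kc [shP] []) :=
  NN.of (K := 205) (D := ⟨17, 13, 6, 1⟩) (Box.of 4 (by decide +kernel))
    (by decide +kernel)

theorem cP5_A63 : NN (y63.c.n.eA y63.Kc [shP] []) :=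
  NN.of (K := 182) (D := ⟨15, 13, 6, 1⟩) (Box.of 4 (by decide +kernel))
    (by decide +kernel)

theorem cP5_B63 : NN (y63.c.n.eB y63.Kc [shP] []) :=
  NN.of (K := 195) (D := ⟨17, 13, 6, 1⟩) (Box.of 4 (by decide +kernel))
    (by decide +kernel)

theorem cP5_A64 : NN (y64.c.n.eA y64.Kc [shP] []) :=
  NN.of (K := 186) (D := ⟨15, 13, 6, 1⟩) (Box.of 4 (by decide +kernel))
    (by decide +kernel)

theorem cP5_B64 : NN (y64.c.n.eB y64.Kc [shP] []) :=
  NN.of (K := 200) (D := ⟨17, 13, 6, 1⟩) (Box.of 4 (by decide +kernel))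
    (by decide +kernel)

theorem cP5_A65 : NN (y65.c.n.eA y65.Kc [shP] []) :=
  NN.of (K := 185) (D := ⟨15, 13, 6, 1⟩) (Box.of 4 (by decide +kernel))
    (by decide +kernel)

theorem cP5_B65 : NN (y65.c.n.eB y65.Kc [shP] []) :=
  NN.of (K := 204) (D := ⟨17, 13, 6, 1⟩) (Box.of 4 (by decide +kernel))
    (by decide +kernel)

theorem cP5_A66 : NN (y66.c.n.eA y66.Kc [shP] []) :=
  NN.of (K := 196) (D := ⟨15, 13, 6, 1⟩) (Box.of 4 (by decide +kernel))
    (by decide +kernel)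

theorem cP5_B66 : NN (y66.c.n.eB y66.Kc [shP] []) :=
  NN.of (K := 210) (D := ⟨17, 13, 6, 1⟩) (Box.of 4 (by decide +kernel))
    (by decide +kernel)

theorem cP5_A67 : NN (y67.c.n.eA y67.Kc [shP] []) :=
  NN.of (K := 197) (D := ⟨15, 13, 6, 1⟩) (Box.of 4 (by decide +kernel))
    (by decide +kernel)

theorem cP5_B67 : NN (y67.c.n.eB y67.Kc [shP] []) :=
  NN.of (K := 211) (D := ⟨17, 13, 6, 1⟩) (Box.of 4 (by decide +kernel))
    (by decide +kernel)

theorem cP5_A68 : NN (y68.c.n.eA y68.Kc [shP] []) :=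
  NN.of (K := 157) (D := ⟨15, 13, 6, 1⟩) (Box.of 4 (by decide +kernel))
    (by decide +kernel)

theorem cP5_B68 : NN (y68.c.n.eB y68.Kc [shP] []) :=
  NN.of (K := 170) (D := ⟨17, 13, 6, 1⟩) (Box.of 4 (by decide +kernel))
    (by decide +kernel)

end Pool.Agent.RX.RCN.CPq
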