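import Pool.Agent.RX.RCN.CPqD
import Pool.Agent.RX.RCN.CkE

/-! Certificates of `P6` (generated by gencert.py). -/

set_option autoImplicit false

namespace Pool.Agent.RX.RCN.CPq

open Pool.Agent.RX.RCN.K Pool.Agent.RX.RCM9 Pool.Agent.RX.RCM9.Bern Pool.Agent.RX.RCM9.Pk

theorem cP6_A69 : NN (y69.c.n.eA y69.Kc [shP] []) :=
  NN.of (K := 195) (D := ⟨15, 13, 6, 1⟩) (Box.of 4 (by decide +kernel))
    (by decide +kernel)

theorem cP6_B69 : NN (y69.c.n.eB y69.Kc [shP] []) :=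
  NN.of (K := 209) (D := ⟨17, 13, 6, 1⟩) (Box.of 4 (by decide +kernel))
    (by decide +kernel)

theorem cP6_A70 : NN (y70.c.n.eA y70.Kc [shP] []) :=
  NN.of (K := 198) (D := ⟨15, 13, 6, 1⟩) (Box.of 4 (by decide +kernel))
    (by decide +kernel)

theorem cP6_B70 : NN (y70.c.n.eB y70.Kc [shP] []) :=
  NN.of (K := 212) (D := ⟨17, 13, 6, 1⟩) (Box.of 4 (by decide +kernel))
    (by decide +kernel)

theorem cP6_A71 : NN (y71.c.n.eA y71.Kc [shP] []) :=
  NN.of (K := 196) (D := ⟨15, 13, 6, 1⟩) (Box.of 4 (by decide +kernel))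
    (by decide +kernel)

theorem cP6_B71 : NN (y71.c.n.eB y71.Kc [shP] []) :=
  NN.of (K := 210) (D := ⟨17, 13, 6, 1⟩) (Box.of 4 (by decide +kernel))
    (by decide +kernel)

theorem cP6_A72 : NN (y72.c.n.eA y72.Kc [shP] []) :=
  NN.of (K := 191) (D := ⟨15, 13, 6, 1⟩) (Box.of 4 (by decide +kernel))
    (by decide +kernel)

theorem cP6_B72 : NN (y72.c.n.eB y72.Kc [shP] []) :=
  NN.of (K := 205) (D := ⟨17, 13, 6, 1⟩) (Box.of 4 (by decide +kernel))
    (by decide +kernel)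

theorem cP6_A73 : NN (y73.c.n.eA y73.Kc [shP] []) :=
  NN.of (K := 195) (D := ⟨15, 13, 6, 1⟩) (Box.of 4 (by decide +kernel))
    (by decide +kernel)

theorem cP6_B73 : NN (y73.c.n.eB y73.Kc [shP] []) :=
  NN.of (K := 209) (D := ⟨17, 13, 6, 1⟩) (Box.of 4 (by decide +kernel))
    (by decide +kernel)

theorem cP6_A74 : NN (y74.c.n.eA y74.Kc [shP] []) :=
  NN.of (K := 191) (D := ⟨15, 13, 6, 1⟩) (Box.of 4 (by decide +kernel))
    (by decide +kernel)

theorem cP6_B74 : NN (y74.c.n.eB y74.Kc [shP] []) :=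
  NN.of (K := 205) (D := ⟨17, 13, 6, 1⟩) (Box.of 4 (by decide +kernel))
    (by decide +kernel)

theorem cP6_A75 : NN (y75.c.n.eA y75.Kc [shP] []) :=
  NN.of (K := 206) (D := ⟨15, 13, 6, 1⟩) (Box.of 4 (by decide +kernel))
    (by decide +kernel)

theorem cP6_B75 : NN (y75.c.n.eB y75.Kc [shP] []) :=
  NN.of (K := 219) (D := ⟨17, 13, 6, 1⟩) (Box.of 4 (by decide +kernel))
    (by decide +kernel)

theorem cP6_A76 : NN (y76.c.n.eA y76.Kc [shP] []) :=
  NN.of (K := 181) (D := ⟨15, 13, 6, 1⟩) (Box.of 4 (by decide +kernel))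
    (by decide +kernel)

theorem cP6_B76 : NN (y76.c.n.eB y76.Kc [shP] []) :=
  NN.of (K := 194) (D := ⟨17, 13, 6, 1⟩) (Box.of 4 (by decide +kernel))
    (by decide +kernel)

theorem cP6_A77 : NN (y77.c.n.eA y77.Kc [shP] []) :=
  NN.of (K := 204) (D := ⟨15, 13, 6, 1⟩) (Box.of 4 (by decide +kernel))
    (by decide +kernel)

theorem cP6_B77 : NN (y77.c.n.eB y77.Kc [shP] []) :=
  NN.of (K := 218) (D := ⟨17, 13, 6, 1⟩) (Box.of 4 (by decide +kernel))
    (by decide +kernel)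

theorem cP6_A78 : NN (y78.c.n.eA y78.Kc [shP] []) :=
  NN.of (K := 193) (D := ⟨15, 13, 6, 1⟩) (Box.of 4 (by decide +kernel))
    (by decide +kernel)

theorem cP6_B78 : NN (y78.c.n.eB y78.Kc [shP] []) :=
  NN.of (K := 207) (D := ⟨17, 13, 6, 1⟩) (Box.of 4 (by decide +kernel))
    (by decide +kernel)

theorem cP6_A79 : NN (y79.c.n.eA y79.Kc [shP] []) :=
  NN.of (K := 202) (D := ⟨15, 13, 6, 1⟩) (Box.of 4 (by decide +kernel))
    (by decide +kernel)

theorem cP6_B79 : NN (y79.c.n.eB y79.Kc [shP] []) :=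
  NN.of (K := 218) (D := ⟨17, 13, 6, 1⟩) (Box.of 4 (by decide +kernel))
    (by decide +kernel)

theorem cP6_A80 : NN (y80.c.n.eA y80.Kc [shP] []) :=
  NN.of (K := 193) (D := ⟨15, 13, 6, 1⟩) (Box.of 4 (by decide +kernel))
    (by decide +kernel)

end Pool.Agent.RX.RCN.CPq
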