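import Pool.Agent.RX.RCN.CPqD
import Pool.Agent.RX.RCN.CkE

/-! Certificates of `P7` (generated by gencert.py). -/

set_option autoImplicit false

namespace Pool.Agent.RX.RCN.CPq

open Pool.Agent.RX.RCN.K Pool.Agent.RX.RCM9 Pool.Agent.RX.RCM9.Bern Pool.Agent.RX.RCM9.Pk

theorem cP7_B80 : NN (y80.c.n.eB y80.Kc [shP] []) :=
  NN.of (K := 207) (D := ⟨17, 13, 6, 1⟩) (Box.of 4 (by decide +kernel))
    (by decide +kernel)

theorem cP7_A81 : NN (y81.c.n.eA y81.Kc [shP] []) :=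
  NN.of (K := 204) (D := ⟨15, 13, 6, 1⟩) (Box.of 4 (by decide +kernel))
    (by decide +kernel)

theorem cP7_B81 : NN (y81.c.n.eB y81.Kc [shP] []) :=
  NN.of (K := 220) (D := ⟨17, 13, 6, 1⟩) (Box.of 4 (by decide +kernel))
    (by decide +kernel)

theorem cP7_A82 : NN (y82.c.n.eA y82.Kc [shP] []) :=
  NN.of (K := 196) (D := ⟨15, 13, 6, 1⟩) (Box.of 4 (by decide +kernel))
    (by decide +kernel)

theorem cP7_B82 : NN (y82.c.n.eB y82.Kc [shP] []) :=
  NN.of (K := 210) (D := ⟨17, 13, 6, 1⟩) (Box.of 4 (by decide +kernel))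
    (by decide +kernel)

theorem cP7_A83 : NN (y83.c.n.eA y83.Kc [shP] []) :=
  NN.of (K := 191) (D := ⟨15, 13, 6, 1⟩) (Box.of 4 (by decide +kernel))
    (by decide +kernel)

theorem cP7_B83 : NN (y83.c.n.eB y83.Kc [shP] []) :=
  NN.of (K := 205) (D := ⟨17, 13, 6, 1⟩) (Box.of 4 (by decide +kernel))
    (by decide +kernel)

theorem cP7_A84 : NN (y84.c.n.eA y84.Kc [shP] []) :=
  NN.of (K := 188) (D := ⟨15, 13, 6, 1⟩) (Box.of 4 (by decide +kernel))
    (by decide +kernel)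

theorem cP7_B84 : NN (y84.c.n.eB y84.Kc [shP] []) :=
  NN.of (K := 202) (D := ⟨17, 13, 6, 1⟩) (Box.of 4 (by decide +kernel))
    (by decide +kernel)

theorem cP7_A85 : NN (y85.c.n.eA y85.Kc [shP] []) :=
  NN.of (K := 205) (D := ⟨15, 13, 6, 1⟩) (Box.of 4 (by decide +kernel))
    (by decide +kernel)

theorem cP7_B85 : NN (y85.c.n.eB y85.Kc [shP] []) :=
  NN.of (K := 219) (D := ⟨17, 13, 6, 1⟩) (Box.of 4 (by decide +kernel))
    (by decide +kernel)

theorem cP7_A86 : NN (y86.c.n.eA y86.Kc [shP] []) :=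
  NN.of (K := 195) (D := ⟨15, 13, 6, 1⟩) (Box.of 4 (by decide +kernel))
    (by decide +kernel)

theorem cP7_B86 : NN (y86.c.n.eB y86.Kc [shP] []) :=
  NN.of (K := 209) (D := ⟨17, 13, 6, 1⟩) (Box.of 4 (by decide +kernel))
    (by decide +kernel)

theorem cP7_A87 : NN (y87.c.n.eA y87.Kc [shP] []) :=
  NN.of (K := 183) (D := ⟨15, 13, 6, 1⟩) (Box.of 4 (by decide +kernel))
    (by decide +kernel)

theorem cP7_B87 : NN (y87.c.n.eB y87.Kc [shP] []) :=
  NN.of (K := 199) (D := ⟨17, 13, 6, 1⟩) (Box.of 4 (by decide +kernel))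
    (by decide +kernel)

theorem cP7_EA : NN (yE.c.n.eA 1 eP dP) :=
  NN.of (K := 243) (D := ⟨20, 16, 8, 1⟩) (Box.of 4 (by decide +kernel))
    (by decide +kernel)

theorem cP7_EB : NN (yE.c.n.eB 1 eP dP) :=
  NN.of (K := 261) (D := ⟨22, 16, 8, 1⟩) (Box.of 4 (by decide +kernel))
    (by decide +kernel)

theorem cP7_L0 : NN (plE (13 / 25) (217 / 5000) pL.R2) :=
  NN.of (K := 123) (D := ⟨11, 4, 1, 1⟩) (Box.of 1181728 (by decide +kernel))
    (by decide +kernel)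

end Pool.Agent.RX.RCN.CPq
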