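import Pool.Agent.RX.RCN.Ck1

/-! A faster form of the check of a polynomial (MP_73ccd0_lc, route M). -/

set_option autoImplicit false

namespace Pool.Agent.RX.RCN.Ck1

/-- `cm` on naturals -/
def cmN : ℕ → List ℕ → List ℕ
  | p, [] => [p]
  | p, s :: S => (p + s) :: cmN s S

/-- `shf` on naturals -/
def shN : List ℕ → List ℕ
  | [] => []
  | c :: l => cmN c (shN l)

/-- the differences -/
def zI : List ℕ → List ℕ → List ℤ
  | p :: P, q :: Q => ((p : ℤ) - q) :: zI P Q
  | _, _ => []

/-- `lb` on a difference of naturals -/
def lbN : List ℕ → List ℕ → ℕ × ℕ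
  | p :: P, q :: Q => cond (Nat.ble (lbN P Q).2 (lbN P Q).1) (p, q)
      (p + (lbN P Q).1, q + (lbN P Q).2)
  | _, _ => (0, 0)

/-- `ck` on a difference of naturals -/
def ckN : ℕ → List ℕ → List ℕ → Bool
  | 0, _, _ => true
  | n + 1, P, Q => Nat.ble (lbN P Q).2 (lbN P Q).1 && ckN n (shN P) (shN Q)

theorem length_cmN (p : ℕ) (S : List ℕ) : (cmN p S).length = S.length + 1 := by
  induction S generalizing p with
  | nil => simp [cmN]
  | cons s S ih => simp [cmN, ih]

theorem length_shN (P : List ℕ) : (shN P).length = P.length := by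
  induction P with
  | nil => simp [shN]
  | cons s S ih => simp [shN, length_cmN, ih]

theorem cm_zI (p q : ℕ) (P Q : List ℕ) (h : P.length = Q.length) :
    cm ((p : ℤ) - q) (zI P Q) = zI (cmN p P) (cmN q Q) := by
  induction P generalizing Q p q with
  | nil =>
    have : Q = [] := List.length_eq_zero_iff.1 (by simpa using h.symm)
    subst this
    simp [zI, cm, cmN]
  | cons s S ih =>
    match Q, h with
    | r :: R, h =>
      simp only [zI, cm, cmN, List.cons.injEq]
      refine ⟨by push_cast; ring, ?_⟩
      exact ih s r R (by simpa using h)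

theorem shf_zI (P Q : List ℕ) (h : P.length = Q.length) :
    shf (zI P Q) = zI (shN P) (shN Q) := by
  induction P generalizing Q with
  | nil =>
    have : Q = [] := List.length_eq_zero_iff.1 (by simpa using h.symm)
    subst this
    simp [zI, shf, shN]
  | cons s S ih =>
    match Q, h with
    | r :: R, h =>
      have h' : S.length = R.length := by simpa using h
      simp only [zI, shf, shN]
      rw [ih R h']
      exact cm_zI _ _ _ _ (by rw [length_shN, length_shN, h'])

theorem lb_zI (P Q : List ℕ) (h : P.length = Q.length) :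
    lb (zI P Q) = ((lbN P Q).1 : ℤ) - (lbN P Q).2 := by
  induction P generalizing Q with
  | nil =>
    have : Q = [] := List.length_eq_zero_iff.1 (by simpa using h.symm)
    subst this
    simp [zI, lb, lbN]
  | cons s S ih =>
    match Q, h with
    | r :: R, h =>
      have h' : S.length = R.length := by simpa using h
      simp only [zI, lb, lbN]
      rw [ih R h']
      cases hb : Nat.ble (lbN S R).2 (lbN S R).1 with
      | true =>
        have h1 := Nat.le_of_ble_eq_true hb
        simp only [cond_true]
        omega
      | false =>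
        have h1 : ¬ (lbN S R).2 ≤ (lbN S R).1 := fun h2 => by
          rw [Nat.ble_eq_true_of_le h2] at hb
          exact Bool.noConfusion hb
        simp only [cond_false]
        push_cast
        omega

theorem ck_zI (n : ℕ) (P Q : List ℕ) (h : P.length = Q.length) (hc : ckN n P Q = true) :
    ck n (zI P Q) = true := by
  induction n generalizing P Q with
  | zero => rfl
  | succ n ih =>
    simp only [ckN, Bool.and_eq_true] at hc
    simp only [ck, Bool.and_eq_true, decide_eq_true_eq]
    refine ⟨?_, ?_⟩
    · rw [lb_zI P Q h]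
      have := Nat.le_of_ble_eq_true hc.1
      omega
    · rw [shf_zI P Q h]
      exact ih _ _ (by rw [length_shN, length_shN, h]) hc.2

/-- the positive parts -/
def pN : List ℤ → List ℕ
  | [] => []
  | c :: l => c.toNat :: pN l

/-- the negative parts -/
def qN : List ℤ → List ℕ
  | [] => []
  | c :: l => (-c).toNat :: qN l

theorem zI_pq (l : List ℤ) : zI (pN l) (qN l) = l := by
  induction l with
  | nil => rfl
  | cons c l ih =>
    simp only [pN, qN, zI, ih, List.cons.injEq, and_true]
    omega

theorem length_pq (l : List ℤ) : (pN l).length = (qN l).length := by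
  induction l with
  | nil => rfl
  | cons c l ih => simp [pN, qN, ih]

/-- **the fast form of the check** -/
def nnF (D : ℤ) (n : ℕ) (a b : ℚ) (l : List ℚ) : Bool :=
  decide (0 < D) && (decide (0 < n) && (decide (0 ≤ a) && (decide (a < b)
    && ckN n (pN (hm (a.num * b.den * n) (b.num * a.den - a.num * b.den) (a.den * b.den * n)
      (flr D l))) (qN (hm (a.num * b.den * n) (b.num * a.den - a.num * b.den)
        (a.den * b.den * n) (flr D l))))))

theorem nn_of_nnF {D : ℤ} {n : ℕ} {a b : ℚ} {l : List ℚ} (h : nnF D n a b l = true) :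
    nn D n a b l = true := by
  simp only [nnF, Bool.and_eq_true] at h
  simp only [nn, Bool.and_eq_true]
  refine ⟨h.1, h.2.1, h.2.2.1, h.2.2.2.1, ?_⟩
  have h1 := ck_zI n _ _ (length_pq _) h.2.2.2.2
  rwa [zI_pq] at h1

end Pool.Agent.RX.RCN.Ck1
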