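import Pool.Agent.RX.RCN.CPqD
import Pool.Agent.RX.RCN.CV1D
import Pool.Agent.RX.RCN.CkN

/-! Checks of the weights of the integrals (MP_73ccd0_lc, route M; generated). -/

set_option autoImplicit false

namespace Pool.Agent.RX.RCN.CPq

open Pool.Agent.RX.RCN Pool.Agent.RX.RCN.K Pool.Agent.RX.RCM9 Pool.Agent.RX.RCN.Ck1

theorem w2_ok : nn (10 ^ 30) 24 0 (11 / 20)
    (lsub (lmul [1, 2, 1] (lmul (lcp wP.wh CV1.tL.Cl) (lsmul wP.th CV1.tL.mb)))
      (lmul CV1.tL.ke (lmul (lsmul (1 / 2) (ladd (ladd [1] CV1.tL.be0) CV1.tL.be1))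
        (lsmul (1 / 2) (ladd (ladd [1] CV1.tL.be0) CV1.tL.be1))))) = true :=
  nn_of_nnF (by decide +kernel)

end Pool.Agent.RX.RCN.CPq
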