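import Pool.Agent.RX.RCN.CPqW0
import Pool.Agent.RX.RCN.CPqW1
import Pool.Agent.RX.RCN.CPqW2
import Pool.Agent.RX.RCN.CPqW3
import Pool.Agent.RX.RCN.CPqW4
import Pool.Agent.RX.RCN.CPqW5

/-! Checks of the weights of the integrals (MP_73ccd0_lc, route M; generated). -/

set_option autoImplicit false

namespace Pool.Agent.RX.RCN.CPq

open Pool.Agent.RX.RCN Pool.Agent.RX.RCN.K Pool.Agent.RX.RCM9 Pool.Agent.RX.RCN.Ck1

theorem wP_ok : wP.ok CV1.tL (10 ^ 30) 24 (11 / 20) (57 / 100) = true := by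
  simp only [Pg.ok, Bool.and_eq_true]
  exact ⟨by decide +kernel, by decide +kernel, w0_ok, w1_ok, w2_ok, w3_ok, w4_ok, w5_ok,
    by decide +kernel, by decide +kernel, by decide +kernel, by decide +kernel,
    by decide +kernel, by decide +kernel⟩

end Pool.Agent.RX.RCN.CPq
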