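import Pool.Agent.RX.RCN.CPqD
import Pool.Agent.RX.RCN.VLd

/-! Checks of the lists of the columns (MP_73ccd0_lc, route M; generated). -/

set_option autoImplicit false

namespace Pool.Agent.RX.RCN.CPq

open Pool.Agent.RX.RCN Pool.Agent.RX.RCN.K Pool.Agent.RX.RCM9 Pool.Agent.RX.RCN.Ck1

theorem z0_ok : z0.ok V2L.y0 (10 ^ 30) 6 = true := by decide +kernel

theorem m0_ok : z0.okN V2L.y0 m0 (10 ^ 30) 1 = true := by decide +kernel

theorem z1_ok : z1.ok V2L.y1 (10 ^ 30) 6 = true := by decide +kernel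

theorem m1_ok : z1.okN V2L.y1 m1 (10 ^ 30) 1 = true := by decide +kernel

theorem z2_ok : z2.ok V2L.y2 (10 ^ 30) 4 = true := by decide +kernel

theorem m2_ok : z2.okN V2L.y2 m2 (10 ^ 30) 2 = true := by decide +kernel

theorem z3_ok : z3.ok V2L.y3 (10 ^ 30) 4 = true := by decide +kernel

theorem m3_ok : z3.okN V2L.y3 m3 (10 ^ 30) 2 = true := by decide +kernel

end Pool.Agent.RX.RCN.CPq
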