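import Pool.Agent.RX.RCN.CPqD
import Pool.Agent.RX.RCN.VLd

/-! Checks of the lists of the columns (MP_73ccd0_lc, route M; generated). -/

set_option autoImplicit false

namespace Pool.Agent.RX.RCN.CPq

open Pool.Agent.RX.RCN Pool.Agent.RX.RCN.K Pool.Agent.RX.RCM9 Pool.Agent.RX.RCN.Ck1

theorem z4_ok : z4.ok V2L.y4 (10 ^ 30) 4 = true := by decide +kernel

theorem m4_ok : z4.okN V2L.y4 m4 (10 ^ 30) 8 = true := by decide +kernel

theorem z5_ok : z5.ok V2L.y5 (10 ^ 30) 4 = true := by decide +kernel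

theorem m5_ok : z5.okN V2L.y5 m5 (10 ^ 30) 8 = true := by decide +kernel

theorem z6_ok : z6.ok V2L.y6 (10 ^ 30) 6 = true := by decide +kernel

theorem m6_ok : z6.okN V2L.y6 m6 (10 ^ 30) 8 = true := by decide +kernel

theorem z7_ok : z7.ok V2L.y7 (10 ^ 30) 6 = true := by decide +kernel

theorem m7_ok : z7.okN V2L.y7 m7 (10 ^ 30) 6 = true := by decide +kernel

end Pool.Agent.RX.RCN.CPq
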