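import Pool.Agent.RX.RCN.CPqD
import Pool.Agent.RX.RCN.VLd

/-! Checks of the lists of the columns (MP_73ccd0_lc, route M; generated). -/

set_option autoImplicit false

namespace Pool.Agent.RX.RCN.CPq

open Pool.Agent.RX.RCN Pool.Agent.RX.RCN.K Pool.Agent.RX.RCM9 Pool.Agent.RX.RCN.Ck1

theorem z8_ok : z8.ok V2L.y8 (10 ^ 30) 6 = true := by decide +kernel

theorem m8_ok : z8.okN V2L.y8 m8 (10 ^ 30) 8 = true := by decide +kernel

theorem z9_ok : z9.ok V2L.y9 (10 ^ 30) 6 = true := by decide +kernel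

theorem m9_ok : z9.okN V2L.y9 m9 (10 ^ 30) 4 = true := by decide +kernel

theorem z10_ok : z10.ok V2L.y10 (10 ^ 30) 6 = true := by decide +kernel

theorem m10_ok : z10.okN V2L.y10 m10 (10 ^ 30) 6 = true := by decide +kernel

theorem z11_ok : z11.ok V2L.y11 (10 ^ 30) 6 = true := by decide +kernel

theorem m11_ok : z11.okN V2L.y11 m11 (10 ^ 30) 6 = true := by decide +kernel

end Pool.Agent.RX.RCN.CPq
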