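import Pool.Agent.RX.RCN.CPqD
import Pool.Agent.RX.RCN.VLd

/-! Checks of the lists of the columns (MP_73ccd0_lc, route M; generated). -/

set_option autoImplicit false

namespace Pool.Agent.RX.RCN.CPq

open Pool.Agent.RX.RCN Pool.Agent.RX.RCN.K Pool.Agent.RX.RCM9 Pool.Agent.RX.RCN.Ck1

theorem z12_ok : z12.ok V2L.y12 (10 ^ 30) 8 = true := by decide +kernel

theorem m12_ok : z12.okN V2L.y12 m12 (10 ^ 30) 6 = true := by decide +kernel

theorem z13_ok : z13.ok V2L.y13 (10 ^ 30) 8 = true := by decide +kernel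

theorem m13_ok : z13.okN V2L.y13 m13 (10 ^ 30) 8 = true := by decide +kernel

theorem z14_ok : z14.ok V2L.y14 (10 ^ 30) 8 = true := by decide +kernel

theorem m14_ok : z14.okN V2L.y14 m14 (10 ^ 30) 8 = true := by decide +kernel

theorem z15_ok : z15.ok V2L.y15 (10 ^ 30) 12 = true := by decide +kernel

theorem m15_ok : z15.okN V2L.y15 m15 (10 ^ 30) 8 = true := by decide +kernel

end Pool.Agent.RX.RCN.CPq
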