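import Pool.Agent.RX.RCN.CPqD
import Pool.Agent.RX.RCN.VLd

/-! Checks of the lists of the columns (MP_73ccd0_lc, route M; generated). -/

set_option autoImplicit false

namespace Pool.Agent.RX.RCN.CPq

open Pool.Agent.RX.RCN Pool.Agent.RX.RCN.K Pool.Agent.RX.RCM9 Pool.Agent.RX.RCN.Ck1

theorem z16_ok : z16.ok V2L.y16 (10 ^ 30) 12 = true := by decide +kernel

theorem m16_ok : z16.okN V2L.y16 m16 (10 ^ 30) 8 = true := by decide +kernel

theorem z17_ok : z17.ok V2L.y17 (10 ^ 30) 12 = true := by decide +kernel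

theorem m17_ok : z17.okN V2L.y17 m17 (10 ^ 30) 6 = true := by decide +kernel

theorem z18_ok : z18.ok V2L.y18 (10 ^ 30) 12 = true := by decide +kernel

theorem m18_ok : z18.okN V2L.y18 m18 (10 ^ 30) 6 = true := by decide +kernel

theorem z19_ok : z19.ok V2L.y19 (10 ^ 30) 12 = true := by decide +kernel

theorem m19_ok : z19.okN V2L.y19 m19 (10 ^ 30) 6 = true := by decide +kernel

end Pool.Agent.RX.RCN.CPq
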