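import Pool.Agent.RX.RCN.CPqD
import Pool.Agent.RX.RCN.VLd

/-! Checks of the lists of the columns (MP_73ccd0_lc, route M; generated). -/

set_option autoImplicit false

namespace Pool.Agent.RX.RCN.CPq

open Pool.Agent.RX.RCN Pool.Agent.RX.RCN.K Pool.Agent.RX.RCM9 Pool.Agent.RX.RCN.Ck1

theorem z20_ok : z20.ok V2L.y20 (10 ^ 30) 12 = true := by decide +kernel

theorem m20_ok : z20.okN V2L.y20 m20 (10 ^ 30) 6 = true := by decide +kernel

theorem z21_ok : z21.ok V2L.y21 (10 ^ 30) 12 = true := by decide +kernel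

theorem m21_ok : z21.okN V2L.y21 m21 (10 ^ 30) 6 = true := by decide +kernel

theorem z22_ok : z22.ok V2L.y22 (10 ^ 30) 12 = true := by decide +kernel

theorem m22_ok : z22.okN V2L.y22 m22 (10 ^ 30) 6 = true := by decide +kernel

theorem z23_ok : z23.ok V2L.y23 (10 ^ 30) 12 = true := by decide +kernel

theorem m23_ok : z23.okN V2L.y23 m23 (10 ^ 30) 6 = true := by decide +kernel

end Pool.Agent.RX.RCN.CPq
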