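import Pool.Agent.RX.RCN.CPqD
import Pool.Agent.RX.RCN.VLd

/-! Checks of the lists of the columns (MP_73ccd0_lc, route M; generated). -/

set_option autoImplicit false

namespace Pool.Agent.RX.RCN.CPq

open Pool.Agent.RX.RCN Pool.Agent.RX.RCN.K Pool.Agent.RX.RCM9 Pool.Agent.RX.RCN.Ck1

theorem z24_ok : z24.ok V2L.y24 (10 ^ 30) 16 = true := by decide +kernel

theorem m24_ok : z24.okN V2L.y24 m24 (10 ^ 30) 8 = true := by decide +kernel

theorem z25_ok : z25.ok V2L.y25 (10 ^ 30) 12 = true := by decide +kernel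

theorem m25_ok : z25.okN V2L.y25 m25 (10 ^ 30) 8 = true := by decide +kernel

theorem z26_ok : z26.ok V2L.y26 (10 ^ 30) 12 = true := by decide +kernel

theorem m26_ok : z26.okN V2L.y26 m26 (10 ^ 30) 8 = true := by decide +kernel

theorem z27_ok : z27.ok V2L.y27 (10 ^ 30) 12 = true := by decide +kernel

theorem m27_ok : z27.okN V2L.y27 m27 (10 ^ 30) 8 = true := by decide +kernel

end Pool.Agent.RX.RCN.CPq
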