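import Pool.Agent.RX.RCN.CkD

/-! The lists and checks of the rows of the first part, second form of the closures
(MP_73ccd0_lc, route M). -/

set_option autoImplicit false

namespace Pool.Agent.RX.RCN.K

open Pool.Agent.RX.RCM9 Pool.Agent.RX.RCN.Ck1

/-- the lists of the rows: two-time rows, second form of the closures -/
def rlB (y : Yl) (gR : List ℚ) (kp : ℚ) (dr : List ℚ) : Rl where
  Ug := y.Ug
  dlt := y.dlt
  dd := kp
  z := y.z
  dl := y.dl
  Gm0 := gR
  Gm := y.Gm
  Gp := y.Gp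
  WT := y.WT
  VT := y.VT
  UT := y.UT
  D1 := []
  D2 := []
  hV := y.hV
  hW := y.hW
  h1 := y.h1
  dr := dr

/-- the direct part in the variable of the rows; `L` bounds the derivative of `dR` -/
def drl (Ca Cv L : ℚ) (dR : List ℚ) : List ℚ :=
  ladd [L * (Cv - Ca) + 1 / 10 ^ 6] (cmpl dR [Ca, -1])

/-- the checks of the direct part -/
def okDr (Ca Cv L : ℚ) (dR : List ℚ) (D : ℤ) (n : ℕ) : Bool :=
  decide (0 ≤ L) && nn D n 0 Cv (lsub [L] (pd dR))
  && nn D n Ca Cv (ladd (lsub (cmpl dR [Ca, -1]) [evq dR 0]) [1 / 10 ^ 6 - L * Ca, L])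

end Pool.Agent.RX.RCN.K
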