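import Pool.Agent.RX.RCM9.CertG2X
import Pool.Agent.RX.RCN.CkV
import Pool.Agent.RX.RCN.VLd

/-! Generated (helper30): checks of the groups (MP_73ccd0_lc, route M). -/

set_option autoImplicit false

namespace Pool.Agent.RX.RCN.CV1

open Pool.Agent.RX.RCN Pool.Agent.RX.RCN.K Pool.Agent.RX.RCM9 Pool.Agent.RX.RCN.Ck1 Pool.Agent.RX.RCN.V2L

theorem y0_om : (rlB V2L.y0 CertG2.sGmR 0 []).okM (10 ^ 30) 8 = true := by decide +kernel

theorem y1_om : (rlB V2L.y1 CertG2.sGmR 0 []).okM (10 ^ 30) 8 = true := by decide +kernel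

theorem y2_om : (rlB V2L.y2 CertG2.sGmR 0 []).okM (10 ^ 30) 8 = true := by decide +kernel

theorem y3_om : (rlB V2L.y3 CertG2.sGmR 0 []).okM (10 ^ 30) 8 = true := by decide +kernel

theorem y4_om : (rlB V2L.y4 CertG2.sGmR 0 []).okM (10 ^ 30) 8 = true := by decide +kernel

theorem y5_om : (rlB V2L.y5 CertG2.sGmR 0 []).okM (10 ^ 30) 8 = true := by decide +kernel

theorem y6_om : (rlB V2L.y6 CertG2.sGmR 0 []).okM (10 ^ 30) 8 = true := by decide +kernel

theorem y7_om : (rlB V2L.y7 CertG2.sGmR 0 []).okM (10 ^ 30) 8 = true := by decide +kernel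

theorem y8_om : (rlB V2L.y8 CertG2.sGmR 0 []).okM (10 ^ 30) 8 = true := by decide +kernel

theorem y9_om : (rlB V2L.y9 CertG2.sGmR 0 []).okM (10 ^ 30) 8 = true := by decide +kernel

theorem y10_om : (rlB V2L.y10 CertG2.sGmR 0 []).okM (10 ^ 30) 8 = true := by decide +kernel

theorem y11_om : (rlB V2L.y11 CertG2.sGmR 0 []).okM (10 ^ 30) 8 = true := by decide +kernel

theorem y12_om : (rlB V2L.y12 CertG2.sGmR 0 []).okM (10 ^ 30) 8 = true := by decide +kernel

theorem y13_om : (rlB V2L.y13 CertG2.sGmR 0 []).okM (10 ^ 30) 8 = true := by decide +kernel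

theorem y14_om : (rlB V2L.y14 CertG2.sGmR 0 []).okM (10 ^ 30) 8 = true := by decide +kernel

theorem y15_om : (rlB V2L.y15 CertG2.sGmR 0 []).okM (10 ^ 30) 8 = true := by decide +kernel

theorem y16_om : (rlB V2L.y16 CertG2.sGmR 0 []).okM (10 ^ 30) 8 = true := by decide +kernel

theorem y17_om : (rlB V2L.y17 CertG2.sGmR 0 []).okM (10 ^ 30) 8 = true := by decide +kernel

theorem y18_om : (rlB V2L.y18 CertG2.sGmR 0 []).okM (10 ^ 30) 8 = true := by decide +kernel

theorem y19_om : (rlB V2L.y19 CertG2.sGmR 0 []).okM (10 ^ 30) 8 = true := by decide +kernel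

theorem y20_om : (rlB V2L.y20 CertG2.sGmR 0 []).okM (10 ^ 30) 8 = true := by decide +kernel

theorem y21_om : (rlB V2L.y21 CertG2.sGmR 0 []).okM (10 ^ 30) 8 = true := by decide +kernel

theorem y22_om : (rlB V2L.y22 CertG2.sGmR 0 []).okM (10 ^ 30) 8 = true := by decide +kernel

theorem y23_om : (rlB V2L.y23 CertG2.sGmR 0 []).okM (10 ^ 30) 8 = true := by decide +kernel

theorem y24_om : (rlB V2L.y24 CertG2.sGmR 0 []).okM (10 ^ 30) 8 = true := by decide +kernel

theorem y25_om : (rlB V2L.y25 CertG2.sGmR 0 []).okM (10 ^ 30) 8 = true := by decide +kernel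

theorem y26_om : (rlB V2L.y26 CertG2.sGmR 0 []).okM (10 ^ 30) 8 = true := by decide +kernel

theorem y27_om : (rlB V2L.y27 CertG2.sGmR 0 []).okM (10 ^ 30) 8 = true := by decide +kernel

end Pool.Agent.RX.RCN.CV1
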