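import Pool.Agent.RX.RCN.MDat

set_option autoImplicit false

namespace Pool.Agent.RX.RCN.K

open Pool.Agent.RX.RCM9

def mW : MDat where
  U := 113 / 200
  q := 527 / 500
  m := 13 / 125
  ie := 900 / 787
  y := [0, 0, 0, 13 / 100]
  B := [0, 26 / 25]
  Ey := [1, 0, 0, 260521 / 2000000, 31 / 2000000, -1129 / 10000000, 86821 / 10000000]
  Eu := [[1, 6061 / 2000000, 2887 / 10000000, 1350163 / 10000000, 9581 / 1250000], [0, 624983 /
    625000, 573 / 400000, -1201431 / 5000000, 59947 / 500000], [0, 149 / 5000000, 4984601 /
    10000000, 2632731 / 10000000, -379347 / 5000000]]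
  Er := [[1, 6669741 / 10000000, 278577 / 1250000, 438079 / 5000000, 268237 / 5000000], [0,
    1666663 / 5000000, 555661 / 2500000, 133517 / 5000000, 41309 / 10000000], [0, 131 /
    10000000, 54883 / 1000000, 520081 / 10000000, -5239 / 1000000]]
  Gp := [[0, 0, 424217 / 1250000, 857497 / 10000000, 5339159 / 40000000, 3481713 / 25000000,
    518529 / 20000000, 1680247 / 5000000, -5600619 / 10000000, 6932189 / 10000000], [0, 0,
    10130299 / 20000000, 4582073 / 30000000, 2845299 / 20000000, 551261 / 25000000, -302591 /
    30000000, 75883 / 200000, -6096591 / 10000000, 7616791 / 10000000], [0, 0, 1547317 /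
    10000000, 12916981 / 30000000, 3883083 / 20000000, 13296479 / 50000000, 538849 / 12000000,
    1503587 / 5000000, -4889011 / 10000000, 767573 / 1250000]]
  Gm := [[0, 0, 0, 5654963 / 30000000, 2257931 / 40000000, 2168489 / 25000000, 149759 / 2400000,
    962961 / 10000000, 1627 / 62500, -228039 / 2500000, 1977443 / 5000000], [0, 0, 0, 286369 /
    1250000, 425089 / 8000000, -7208881 / 50000000, 3326407 / 12000000, 441861 / 10000000,
    514197 / 2500000, -6311 / 15625, 37733 / 62500], [0, 0, 0, 180577 / 30000000, 255387 /
    2000000, 1021407 / 10000000, 16846603 / 60000000, 2007 / 2000000, 2573807 / 10000000,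
    -2411827 / 5000000, 5998583 / 10000000]]
  Pf := [[0, 0, 0, 1906819 / 10000000, 116607 / 10000000, 97233 / 80000, -53677831 / 5000000,
    499424139 / 10000000, -147356347 / 1250000, 1361989279 / 10000000, -59639283 / 1000000], [0,
    0, 0, 459277 / 2000000, 1795569 / 5000000, -80277083 / 10000000, 791249881 / 10000000,
    -959077683 / 2500000, 9693000799 / 10000000, -6094485333 / 5000000, 1503839657 / 2500000],
    [0, 0, 0, 7777 / 1000000, -825033 / 5000000, 19398873 / 2500000, -770768187 / 10000000,
    761422751 / 2000000, -608588559 / 625000, 19413996 / 15625, -6232537819 / 10000000]]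
  Mf := [[0, 0, 106478467 / 312500000, 215231747 / 2500000000, 1340128909 / 10000000000, 873909963
    / 6250000000, 130150779 / 5000000000, 421741997 / 1250000000, -1405755369 / 2500000000,
    1739979439 / 2500000000], [0, 0, 2542705049 / 5000000000, 1150100323 / 7500000000, 714170049
    / 5000000000, 138366511 / 6250000000, -75950341 / 7500000000, 19046633 / 50000000,
    -1530244341 / 2500000000, 1911814541 / 2500000000], [0, 0, 388376567 / 2500000000,
    3242162231 / 7500000000, 974653833 / 5000000000, 3337416229 / 12500000000, 135251099 /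
    3000000000, 377400337 / 1250000000, -1227141761 / 2500000000, 192660823 / 312500000]]
  FM := [0, 0, 3597309 / 10000000, 935691 / 5000000, 2490571 / 10000000, 6018667 / 10000000,
    -4612419 / 5000000, 254531 / 200000]
  FP := [0, 0, 0, 192977 / 1000000, 392009 / 5000000, 86069 / 2000000, 1576069 / 2500000,
    -13894177 / 10000000, 17187241 / 10000000]
  FQ := [0, 0, 0, 95523 / 500000, 90673 / 1250000, -964171 / 5000000, 769117 / 400000, -47087169 /
    10000000, 5565659 / 1250000]
  AM := [0, 0, 3509481 / 5000000, 5067171 / 10000000, 1146347 / 2500000, 14031719 / 10000000,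
    -4778239 / 2500000, 30360311 / 10000000]
  AP := [0, 0, 0, 4053219 / 10000000, 2576867 / 5000000, -395469 / 2000000, 358746 / 78125,
    -27200221 / 2500000, 4606297 / 400000]
  AD := [0, 8749437 / 10000000, 4524677 / 10000000, 20121 / 156250, 623117 / 2500000, 754023 /
    10000000, 196337 / 2500000]

end Pool.Agent.RX.RCN.K
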