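import Pool.Agent.RX.RCN.VLd

/-! Generated (helper59): checks of a group (MP_73ccd0_lc, route M). -/

set_option autoImplicit false

namespace Pool.Agent.RX.RCN.V2L

open Pool.Agent.RX.RCN Pool.Agent.RX.RCN.K Pool.Agent.RX.RCM9 Pool.Agent.RX.RCN.Ck1

theorem y2_okA : y2.okA (10 ^ 30) 8 = true := by decide +kernel

theorem y2_okB : y2.okB (10 ^ 30) 8 = true := by decide +kernel

theorem y2_okC : y2.okC (10 ^ 30) 8 = true := by decide +kernel

theorem y2_ok : y2.ok (10 ^ 30) 8 = true := Yl.ok_mk y2_okA y2_okB y2_okC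

theorem k2_ok : k2.ok y2 (10 ^ 30) 8 = true := by decide +kernel

end Pool.Agent.RX.RCN.V2L
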