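import Pool.Agent.RX.RCN.VLd

/-! Generated (helper59): checks of a group (MP_73ccd0_lc, route M). -/

set_option autoImplicit false

namespace Pool.Agent.RX.RCN.V2L

open Pool.Agent.RX.RCN Pool.Agent.RX.RCN.K Pool.Agent.RX.RCM9 Pool.Agent.RX.RCN.Ck1

theorem y27_okA : y27.okA (10 ^ 30) 64 = true := by decide +kernel

theorem y27_okB : y27.okB (10 ^ 30) 64 = true := by decide +kernel

theorem y27_okC : y27.okC (10 ^ 30) 64 = true := by decide +kernel

theorem y27_ok : y27.ok (10 ^ 30) 64 = true := Yl.ok_mk y27_okA y27_okB y27_okC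

theorem k27_ok : k27.ok y27 (10 ^ 30) 16 = true := by decide +kernel

end Pool.Agent.RX.RCN.V2L
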