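import Pool.Agent.RX.RCN.Asm_1
import Pool.Agent.RX.RCN.Eb

/-! The assembly: the remaining inequalities (MP_73ccd0_lc, route M). -/

namespace Pool.Agent.RX.RCN.K

open Set Finset MeasureTheory Pool.Agent.RX.RCRSHalf Pool.Agent.RX.RCG Pool.Agent.RX.RCG.Ct
open Pool.Agent.RX.RCN.Ker Pool.Agent.RX.RCRS

set_option linter.unusedSectionVars false

variable {V : Type} [Fintype V] [DecidableEq V]
variable {Gr : SimpleGraph V} [Fintype Gr.edgeSet] [DecidableEq Gr.edgeSet]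

/-- the rates of the released pairs -/
noncomputable def Da.R (D : Da V) (x : Gr.edgeSet → ℝ) :
    V ⊕ V → V ⊕ V → V ⊕ V → ℝ → ℝ → ℝ :=
  rha D.Z (xe x) (P0 V) D.k D.Th D.Y D.κd D.κ

/-- the exponents of the deleted closures -/
noncomputable def Da.L (D : Da V) :
    V ⊕ V → V ⊕ V → V ⊕ V → V ⊕ V → ℝ → ℝ → ℝ :=
  Lc (P0 V) D.C

/-- the exponents of the released closures -/
noncomputable def Da.Lt (D : Da V) :
    V ⊕ V → V ⊕ V → V ⊕ V → V ⊕ V → ℝ → ℝ → ℝ :=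
  Lr (P0 V) D.C

theorem Da.lf {D : Da V} (hD : D.Ok) {x : Gr.edgeSet → ℝ} (hx : IsFractionalMatching Gr x)
    (hC : Cls D.Z (xe x) (P0 V) D.C) :
    Lf D.C.N D.k D.κd (D.R x) D.L D.Lt := by
  have hw := wt_xe hx zero_le_one le_rfl fun e => (hx.1 e).2
  have kok : D.k.Ok := Dt.kf_ok hD.T hD.k
  have kq := Dt.kq hD.T hD.k
  exact
    { N0 := hC.N0
      cκ := hD.cκ
      κP := hD.κP
      cR := fun a b d => rha_cn hD.kap.k0 hD.Z hw hD.Th hD.Y kq.fc hD.cκ a b d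
      R0 := fun a b d t s h0 h1 h2 => rha_nonneg hD.kap.k0 hD.Z hw kok hD.κP a b d
        ⟨h0.trans h1, h2⟩ ⟨h0, h1⟩
      cL := hC.cnd
      cLt := hC.cnr
      L0 := fun a b c d t s _ _ _ => Lc_nonneg a b c d t s
      Lt0 := fun a b c d t s _ _ _ => Lr_nonneg a b c d t s }

/-- the conditions of the gap -/
structure Gp (D : Da V) (δ : ℝ) (A : ℝ → ℝ → ℝ) (α γ : ℝ → ℝ) : Prop where
  d0 : 0 < δ
  d1 : δ ≤ 1
  ab : Ab D.k D.κd A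
  hA : ∀ w ∈ Icc (0 : ℝ) 1, ∀ t ∈ Icc (0 : ℝ) bt, A w t ≤ α t * (1 + w * γ t)
  a0 : ∀ t ∈ Icc (0 : ℝ) bt, 0 ≤ α t
  hγ : ∀ t ∈ Icc (0 : ℝ) bt, γ t ∈ Icc (0 : ℝ) 1
  le : ∀ t ∈ Icc (0 : ℝ) bt, α t * (1 + γ t / 3) ≤ 1 - δ

/-- the inequality of the centres -/
def TT (D : Da V) (x : Gr.edgeSet → ℝ) : Prop :=
  ∀ a, P0 V a → ∀ t ∈ Icc (0 : ℝ) bt,
    ∑ b, xr (xe x) (P0 V) a b * D.w x a b t
      ≤ D.T.kt t * (∑ b, D.T.sT (xr (xe x) (P0 V) a b) - D.T.k1 * Qs (xe x) (P0 V) a)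

/-- the inequality of the pairs -/
def PP (D : Da V) (x : Gr.edgeSet → ℝ) : Prop :=
  ∀ a b, P0 V a → P0 V b → a ≠ b → ∀ t ∈ Icc (0 : ℝ) bt,
    D.w x a b t ≤ D.T.kp t * ∑ d ∈ ({a, b} : Finset (V ⊕ V))ᶜ,
      D.T.ka (xr (xe x) (P0 V) a d) (xr (xe x) (P0 V) b d)

/-- the two parts of the walk rate -/
theorem sum_wE {V : Type*} [Fintype V] [DecidableEq V] {x : V → V → ℝ} {P : V → Prop}
    [DecidablePred P] (hx : Wt x P 1) (fh : ℝ → ℝ → ℝ) (mb : ℝ → ℝ → ℝ → ℝ → ℝ)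
    (E : V → V → V → ℝ → ℝ) (a : V) (t : ℝ) :
    ∑ b, xr x P a b * wE fh mb E x P a b t
      = ∑ b, xr x P a b * ∑ d ∈ ({a, b} : Finset V)ᶜ, wS fh mb E x P a b d t
        + ∑ b, xr x P a b * ∑ d ∈ ({a, b} : Finset V)ᶜ, wS fh mb E x P b a d t := by
  rw [← Finset.sum_add_distrib]
  refine Finset.sum_congr rfl fun b _ => ?_
  by_cases h : P a ∧ P b ∧ a ≠ b
  · unfold wE
    rw [if_pos h, Finset.sum_add_distrib, mul_add]
  · have h0 : xr x P a b = 0 := by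
      unfold xr
      split_ifs with h1
      · by_cases hab : a = b
        · subst hab; exact hx.diag a
        · exact absurd ⟨h1.1, h1.2, hab⟩ h
      · rfl
    rw [h0]
    ring

/-- **the inequality of the centres from its two parts** -/
theorem tt_of {D : Da V} {x : Gr.edgeSet → ℝ} (hx : IsFractionalMatching Gr x)
    {k1 k2 : ℝ → ℝ}
    (h1 : ∀ a, P0 V a → ∀ t ∈ Icc (0 : ℝ) bt,
      ∑ b, xr (xe x) (P0 V) a b * ∑ d ∈ ({a, b} : Finset (V ⊕ V))ᶜ,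
          wS D.k.fh D.k.mb (D.E x) (xe x) (P0 V) a b d t
        ≤ k1 t * (∑ b, D.T.sT (xr (xe x) (P0 V) a b) - D.T.k1 * Qs (xe x) (P0 V) a))
    (h2 : ∀ a, P0 V a → ∀ t ∈ Icc (0 : ℝ) bt,
      ∑ b, xr (xe x) (P0 V) a b * ∑ d ∈ ({a, b} : Finset (V ⊕ V))ᶜ,
          wS D.k.fh D.k.mb (D.E x) (xe x) (P0 V) b a d t
        ≤ k2 t * (∑ b, D.T.sT (xr (xe x) (P0 V) a b) - D.T.k1 * Qs (xe x) (P0 V) a))
    (hk : ∀ t ∈ Icc (0 : ℝ) bt, k1 t + k2 t ≤ D.T.kt t) (hD : D.Ok) : TT D x := by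
  have hw := wt_xe hx zero_le_one le_rfl fun e => (hx.1 e).2
  intro a ha t ht
  have e : ∑ b, xr (xe x) (P0 V) a b * D.w x a b t
      = ∑ b, xr (xe x) (P0 V) a b * wE D.k.fh D.k.mb (D.E x) (xe x) (P0 V) a b t := rfl
  rw [e, sum_wE hw]
  refine (add_le_add (h1 a ha t ht) (h2 a ha t ht)).trans ?_
  rw [← add_mul]
  exact mul_le_mul_of_nonneg_right (hk t ht) (SQ_nonneg (D.T.kd_ok hD.T) hw a)

end Pool.Agent.RX.RCN.K
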