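import Pool.Agent.RX.RCN.Ins
import Pool.Agent.RX.RCN.Top_1

/-! The conditions of the gap with polynomial data (MP_73ccd0_lc, route M). -/

namespace Pool.Agent.RX.RCN.K

open Set Finset MeasureTheory Pool.Agent.RX.RCRSHalf Pool.Agent.RX.RCG Pool.Agent.RX.RCG.Ct
open Pool.Agent.RX.RCN.Ker Pool.Agent.RX.RCRS Pool.Agent.RX.RCM9 Pool.Agent.RX.RCM9.Bern Pool.Agent.RX.RCM9.Pk

set_option linter.unusedSectionVars false

/-- the data of the gap: `kc`, `ke` the density errors, `Qd` a bound of the densities with the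
density error, `al` the bound of the integrated densities, `kM` a bound of `ke` -/
structure GDat where
  kc : List ℚ
  ke : List ℚ
  Qd : List ℚ
  al : List ℚ
  kM : ℚ
  dl : ℚ

namespace GDat

variable (g : GDat) (d : Dat)

/-- the density factor -/
noncomputable def kd (w t s : ℝ) : ℝ := d.rPe w t * (pv g.kc t * pv g.ke s)

/-- the expression `b(y, t)` -/
def ebt (y e : E) : E := 1 + (1 - y) * (pe d.be0 vT - 1) + e * pe d.be1 vT

def eKc : E := pe g.kc vT - 1
def eKe : E := pe g.ke vT - 1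
def eKm : E := qc g.kM - pe g.ke vT
def eQl : E := (1 + vT) ^ 2 * pe g.Qd vT - ebt d Dat.xlo Dat.xlo * pe g.ke vT
def eQh : E := (1 + vT) ^ 2 * pe g.Qd vT - ebt d Dat.xhi hlf * pe g.ke vT
def eQq : E := (1 + vT) ^ 2 * pe g.Qd vT - pe g.ke vT
def eAf : E := pe g.al vT - (1 + qc d.ee * vT) * (pe g.kc vT * pe (pri g.Qd) vT)
def eAl : E := (1 + vT) * pe g.al vT - (1 + qc d.ee * vT) * (d.eez Dat.xlo Dat.xlo vT
  + (1 + vT) * ((pe g.kc vT * qc g.kM - 1) * pe (pri g.Qd) vT))
def eAh : E := (1 + vT) * pe g.al vT - (1 + qc d.ee * vT) * (d.eez Dat.xhi hlf vT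
  + (1 + vT) * ((pe g.kc vT * qc g.kM - 1) * pe (pri g.Qd) vT))
def eAd : E := 1 - qc g.dl - pe g.al vT * (1 + qc (1 / 3) * vT)
def ebl : E := ebt d Dat.xlo Dat.xlo
def ebh : E := ebt d Dat.xhi hlf

/-- the polynomial inequalities -/
structure Pos : Prop where
  Kc : NN g.eKc
  Ke : NN g.eKe
  Km : NN g.eKm
  Ql : NN (g.eQl d)
  Qh : NN (g.eQh d)
  Qqd : NN g.eQq
  Af : NN (g.eAf d)
  Al : NN (g.eAl d)
  Ah : NN (g.eAh d)
  Ad : NN g.eAd
  bl : NN (ebl d)
  bh : NN (ebh d)
  d0 : 0 < g.dl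
  d1 : g.dl ≤ 1

variable {g d}

theorem val_ebt (ρ : ℕ → ℝ) (y e : E) : (ebt d y e).val ρ
    = 1 + (1 - y.val ρ) * (pv d.be0 (vT.val ρ) - 1) + e.val ρ * pv d.be1 (vT.val ρ) := by
  simp only [ebt, val_mul, val_sub, val_add, val_one, val_pe]

/-- the bound of the densities -/
noncomputable def rb (d : Dat) (y t : ℝ) : ℝ :=
  1 + (1 - y) * (pv d.be0 t - 1) + eta y * pv d.be1 t

theorem Pos.b0 (h : g.Pos d) {y t : ℝ} (hy : y ∈ Icc (0 : ℝ) 1) (ht : t ∈ Icc (0 : ℝ) bt) :
    0 ≤ rb d y t := by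
  unfold rb
  rcases le_total y (1 / 2) with h1 | h1
  · have h2 := h.bl (2 * y) 0 0 t (Dat.two_mul_mem hy.1 h1) Dat.z01 Dat.z01 ht
    simp only [ebl, val_ebt, Dat.val_xlo, val_vT] at h2
    rw [show 1 / 2 * (2 * y) = y by ring] at h2
    rwa [Dat.eta_lo h1]
  · have h2 := h.bh (2 * y - 1) 0 0 t (Dat.two_sub_mem h1 hy.2) Dat.z01 Dat.z01 ht
    simp only [ebh, val_ebt, Dat.val_xhi, val_hlf, val_vT] at h2
    rw [show 1 / 2 + 1 / 2 * (2 * y - 1) = y by ring] at h2
    rwa [Dat.eta_hi h1]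

theorem Pos.Q (h : g.Pos d) {y t : ℝ} (hy : y ∈ Icc (0 : ℝ) 1) (ht : t ∈ Icc (0 : ℝ) bt) :
    rb d y t * pv g.ke t ≤ (1 + t) ^ 2 * pv g.Qd t := by
  unfold rb
  rcases le_total y (1 / 2) with h1 | h1
  · have h2 := h.Ql (2 * y) 0 0 t (Dat.two_mul_mem hy.1 h1) Dat.z01 Dat.z01 ht
    simp only [eQl, val_sub, val_mul, val_add, val_one, val_pow, val_pe, val_ebt, Dat.val_xlo,
      val_vT] at h2
    rw [show 1 / 2 * (2 * y) = y by ring] at h2
    rw [Dat.eta_lo h1]
    linarith
  · have h2 := h.Qh (2 * y - 1) 0 0 t (Dat.two_sub_mem h1 hy.2) Dat.z01 Dat.z01 ht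
    simp only [eQh, val_sub, val_mul, val_add, val_one, val_pow, val_pe, val_ebt, Dat.val_xhi,
      val_hlf, val_vT] at h2
    rw [show 1 / 2 + 1 / 2 * (2 * y - 1) = y by ring] at h2
    rw [Dat.eta_hi h1]
    linarith

theorem Pos.kc1 (h : g.Pos d) {t : ℝ} (ht : t ∈ Icc (0 : ℝ) bt) : 1 ≤ pv g.kc t := by
  have h2 := h.Kc.t ht
  simp only [eKc, val_sub, val_one, val_pe, val_vT] at h2
  linarith

theorem Pos.ke1 (h : g.Pos d) {t : ℝ} (ht : t ∈ Icc (0 : ℝ) bt) : 1 ≤ pv g.ke t := by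
  have h2 := h.Ke.t ht
  simp only [eKe, val_sub, val_one, val_pe, val_vT] at h2
  linarith

theorem Pos.keM (h : g.Pos d) {t : ℝ} (ht : t ∈ Icc (0 : ℝ) bt) : pv g.ke t ≤ (g.kM : ℝ) := by
  have h2 := h.Km.t ht
  simp only [eKm, val_sub, val_qc, val_pe, val_vT] at h2
  linarith

/-- the integral of the bound -/
theorem int_Q (t : ℝ) : ∫ s in (0 : ℝ)..t, pv g.Qd s = pv (pri g.Qd) t := by
  rw [intervalIntegral.integral_eq_sub_of_hasDerivAt (fun s _ => hasDerivAt_pri g.Qd s)
    ((continuous_pv g.Qd).intervalIntegrable _ _), pri_zero, sub_zero]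

theorem Pos.fQ (h : g.Pos d) {y t : ℝ} (hy : y ∈ Icc (0 : ℝ) 1) (ht : t ∈ Icc (0 : ℝ) bt) :
    rb d y t * ((1 + t) ^ 2)⁻¹ * pv g.ke t ≤ pv g.Qd t := by
  have h1 := h.Q hy ht
  have h2 : 0 < (1 + t) ^ 2 := by have := ht.1; positivity
  calc rb d y t * ((1 + t) ^ 2)⁻¹ * pv g.ke t = (rb d y t * pv g.ke t) * ((1 + t) ^ 2)⁻¹ := by
        ring
    _ ≤ ((1 + t) ^ 2 * pv g.Qd t) * ((1 + t) ^ 2)⁻¹ :=
        mul_le_mul_of_nonneg_right h1 (inv_nonneg.2 h2.le)
    _ = pv g.Qd t := by rw [mul_comm, inv_mul_cancel_left₀ h2.ne']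

theorem Pos.qQ (h : g.Pos d) {t : ℝ} (ht : t ∈ Icc (0 : ℝ) bt) :
    qq t * pv g.ke t ≤ pv g.Qd t := by
  have h1 := h.Qqd.t ht
  simp only [eQq, val_sub, val_mul, val_add, val_one, val_pow, val_pe, val_vT] at h1
  have h2 : 0 < (1 + t) ^ 2 := by have := ht.1; positivity
  unfold qq
  calc ((1 + t) ^ 2)⁻¹ * pv g.ke t ≤ ((1 + t) ^ 2)⁻¹ * ((1 + t) ^ 2 * pv g.Qd t) :=
        mul_le_mul_of_nonneg_left (by linarith) (inv_nonneg.2 h2.le)
    _ = pv g.Qd t := inv_mul_cancel_left₀ h2.ne' _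

theorem Pos.Q0 (h : g.Pos d) {t : ℝ} (ht : t ∈ Icc (0 : ℝ) bt) : 0 ≤ pv g.Qd t :=
  (mul_nonneg (qq_pos ht).le (zero_le_one.trans (h.ke1 ht))).trans (h.qQ ht)

theorem Pos.IQ0 (h : g.Pos d) {t : ℝ} (ht : t ∈ Icc (0 : ℝ) bt) : 0 ≤ pv (pri g.Qd) t := by
  rw [← int_Q]
  exact intervalIntegral.integral_nonneg ht.1 fun s hs => h.Q0 ⟨hs.1, hs.2.trans ht.2⟩

end GDat

variable {p : Ps} {g : GDat}

theorem fhk_cont (y : ℝ) :
    ContinuousOn ((p.d.dt.kf (pv p.d.be0) (pv p.d.be1) p.d.rPe p.d.rP).fh y) (Icc 0 bt) := by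
  have e : (p.d.dt.kf (pv p.d.be0) (pv p.d.be1) p.d.rPe p.d.rP).fh y
      = fun t => GDat.rb p.d y t * ((1 + t) ^ 2)⁻¹ := rfl
  rw [e]
  refine ContinuousOn.mul ?_ (ContinuousOn.inv₀ (by fun_prop) fun t ht => by
    have := ht.1; positivity)
  unfold GDat.rb
  exact ((continuous_const.add (continuous_const.mul ((continuous_pv _).sub
    continuous_const))).add (continuous_const.mul (continuous_pv _))).continuousOn

/-- **the conditions of the gap** -/
theorem gp_of (hp : p.Ok) (hg : g.Pos p.d) {V : Type} [Fintype V] [DecidableEq V]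
    (C : Cx (V ⊕ V)) :
    Gp (p.da (g.kd p.d) C) (g.dl : ℝ) (fun w t => (1 + w * t) * pv g.al t) (pv g.al)
      (fun t => t) := by
  have ee0 : (0 : ℝ) ≤ (p.d.ee : ℝ) := by exact_mod_cast hp.k.ee0
  have hAf : ∀ t ∈ Icc (0 : ℝ) bt,
      (1 + (p.d.ee : ℝ) * t) * (pv g.kc t * pv (pri g.Qd) t) ≤ pv g.al t := fun t ht => by
    have h2 := hg.Af.t ht
    simp only [GDat.eAf, val_sub, val_mul, val_add, val_one, val_qc, val_pe, val_vT] at h2
    linarith
  have hPe : ∀ w ∈ Icc (0 : ℝ) 1, ∀ t ∈ Icc (0 : ℝ) bt, 0 ≤ 1 + w * t := fun w hw t ht => by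
    have := mul_nonneg hw.1 ht.1
    linarith
  have hee : ∀ t ∈ Icc (0 : ℝ) bt, 0 ≤ 1 + (p.d.ee : ℝ) * t := fun t ht => by
    have := mul_nonneg ee0 ht.1
    linarith
  -- integrals with the density error
  have intf : ∀ f : ℝ → ℝ, ContinuousOn f (Icc 0 bt) →
      (∀ s ∈ Icc (0 : ℝ) bt, f s * pv g.ke s ≤ pv g.Qd s) →
      ∀ w ∈ Icc (0 : ℝ) 1, ∀ t ∈ Icc (0 : ℝ) bt,
      ∫ s in (0 : ℝ)..t, f s * g.kd p.d w t s ≤ (1 + w * t) * pv g.al t := by
    intro f hf hle w hw t ht
    have e : ∀ s, f s * g.kd p.d w t s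
        = (p.d.rPe w t * pv g.kc t) * (f s * pv g.ke s) := fun s => by
      unfold GDat.kd; ring
    simp only [e]
    rw [intervalIntegral.integral_const_mul]
    have c1 : ContinuousOn (fun s => f s * pv g.ke s) (Icc 0 t) :=
      (hf.mono (Icc_subset_Icc_right ht.2)).mul (continuous_pv _).continuousOn
    have h1 : ∫ s in (0 : ℝ)..t, f s * pv g.ke s ≤ ∫ s in (0 : ℝ)..t, pv g.Qd s := by
      refine intervalIntegral.integral_mono_on ht.1 ?_ ((continuous_pv _).intervalIntegrable _ _)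
        fun s hs => hle s ⟨hs.1, hs.2.trans ht.2⟩
      rw [← uIcc_of_le ht.1] at c1
      exact c1.intervalIntegrable
    rw [GDat.int_Q] at h1
    have h2 : 0 ≤ p.d.rPe w t * pv g.kc t :=
      mul_nonneg (mul_nonneg (hPe w hw t ht) (hee t ht)) (zero_le_one.trans (hg.kc1 ht))
    have h3 := mul_le_mul_of_nonneg_left h1 h2
    have h4 := mul_le_mul_of_nonneg_left (hAf t ht) (hPe w hw t ht)
    refine h3.trans (le_trans (le_of_eq ?_) h4)
    unfold Dat.rPe
    ring
  have hfh : ∀ y ∈ Icc (0 : ℝ) 1, ∀ s ∈ Icc (0 : ℝ) bt,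
      (p.d.dt.kf (pv p.d.be0) (pv p.d.be1) p.d.rPe p.d.rP).fh y s * pv g.ke s ≤ pv g.Qd s :=
    fun y hy s hs => hg.fQ hy hs
  have hf0 : ∀ y ∈ Icc (0 : ℝ) 1, ∀ s ∈ Icc (0 : ℝ) bt,
      0 ≤ (p.d.dt.kf (pv p.d.be0) (pv p.d.be1) p.d.rPe p.d.rP).fh y s := fun y hy s hs =>
    mul_nonneg (hg.b0 hy hs) (by positivity)
  exact
    { d0 := by exact_mod_cast hg.d0
      d1 := by exact_mod_cast hg.d1
      ab :=
        { fi := fun w hw y hy t ht => by
            show p.d.rPe w t * (p.d.dt.kf (pv p.d.be0) (pv p.d.be1) p.d.rPe p.d.rP).fi y t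
              + ∫ s in (0 : ℝ)..t,
                (p.d.dt.kf (pv p.d.be0) (pv p.d.be1) p.d.rPe p.d.rP).fh y s
                  * (g.kd p.d w t s - p.d.rPe w t) ≤ (1 + w * t) * pv g.al t
            set f := (p.d.dt.kf (pv p.d.be0) (pv p.d.be1) p.d.rPe p.d.rP).fh y with hf
            set fi := (p.d.dt.kf (pv p.d.be0) (pv p.d.be1) p.d.rPe p.d.rP).fi y t with hfi
            have hT : 0 < 1 + t := by linarith [ht.1]
            have r0 : 0 ≤ p.d.rPe w t := mul_nonneg (hPe w hw t ht) (hee t ht)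
            have cf : ContinuousOn f (Icc 0 bt) := fhk_cont y
            have k1 := hg.kc1 ht
            -- the integral
            have i1 : ∫ s in (0 : ℝ)..t, f s * (g.kd p.d w t s - p.d.rPe w t)
                ≤ ∫ s in (0 : ℝ)..t, (p.d.rPe w t * (pv g.kc t * (g.kM : ℝ) - 1))
                  * pv g.Qd s := by
              have cs : ContinuousOn (fun s => f s * (g.kd p.d w t s - p.d.rPe w t))
                  (Icc 0 t) := by
                refine (cf.mono (Icc_subset_Icc_right ht.2)).mul ?_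
                unfold GDat.kd
                exact ((continuous_const.mul (continuous_const.mul (continuous_pv _))).sub
                  continuous_const).continuousOn
              refine intervalIntegral.integral_mono_on ht.1 ?_
                ((continuous_const.mul (continuous_pv _)).intervalIntegrable _ _) fun s hs => ?_
              · rw [← uIcc_of_le ht.1] at cs
                exact cs.intervalIntegrable
              · have hs1 : s ∈ Icc (0 : ℝ) bt := ⟨hs.1, hs.2.trans ht.2⟩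
                have a1 := hg.ke1 hs1
                have a2 := hg.keM hs1
                have a3 := hf0 y hy s hs1
                have a4 := hfh y hy s hs1
                have a5 : pv g.kc t * pv g.ke s - 1 ≤ pv g.kc t * (g.kM : ℝ) - 1 := by
                  have := mul_le_mul_of_nonneg_left a2 (zero_le_one.trans k1)
                  linarith
                have a6 : 0 ≤ pv g.kc t * (g.kM : ℝ) - 1 := by
                  have := mul_le_mul k1 (a1.trans a2) zero_le_one (zero_le_one.trans k1)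
                  linarith
                have a7 : f s ≤ pv g.Qd s := by
                  have := mul_le_mul_of_nonneg_left a1 a3
                  rw [mul_one] at this
                  exact this.trans a4
                calc f s * (g.kd p.d w t s - p.d.rPe w t)
                    = p.d.rPe w t * (f s * (pv g.kc t * pv g.ke s - 1)) := by
                      unfold GDat.kd; ring
                  _ ≤ p.d.rPe w t * (f s * (pv g.kc t * (g.kM : ℝ) - 1)) :=
                      mul_le_mul_of_nonneg_left (mul_le_mul_of_nonneg_left a5 a3) r0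
                  _ ≤ p.d.rPe w t * (pv g.Qd s * (pv g.kc t * (g.kM : ℝ) - 1)) :=
                      mul_le_mul_of_nonneg_left (mul_le_mul_of_nonneg_right a7 a6) r0
                  _ = _ := by ring
            rw [intervalIntegral.integral_const_mul, GDat.int_Q] at i1
            -- the condition
            have i2 : (1 + (p.d.ee : ℝ) * t) * (fi + (pv g.kc t * (g.kM : ℝ) - 1)
                * pv (pri g.Qd) t) ≤ pv g.al t := by
              have e1 : (1 + t) * fi = p.d.rez y (eta y) t := Dt.fi_eq ht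
              refine le_of_mul_le_mul_left ?_ hT
              have e2 : (1 + t) * ((1 + (p.d.ee : ℝ) * t) * (fi + (pv g.kc t * (g.kM : ℝ) - 1)
                  * pv (pri g.Qd) t))
                  = (1 + (p.d.ee : ℝ) * t) * ((1 + t) * fi + (1 + t)
                    * ((pv g.kc t * (g.kM : ℝ) - 1) * pv (pri g.Qd) t)) := by ring
              rw [e2, e1]
              rcases le_total y (1 / 2) with h1 | h1
              · have h2 := hg.Al (2 * y) 0 0 t (Dat.two_mul_mem hy.1 h1) Dat.z01 Dat.z01 ht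
                simp only [GDat.eAl, val_sub, val_mul, val_add, val_one, val_pe, val_qc,
                  Dat.val_eez, Dat.val_xlo, val_vT] at h2
                rw [show 1 / 2 * (2 * y) = y by ring] at h2
                rw [Dat.eta_lo h1]
                linarith
              · have h2 := hg.Ah (2 * y - 1) 0 0 t (Dat.two_sub_mem h1 hy.2) Dat.z01 Dat.z01 ht
                simp only [GDat.eAh, val_sub, val_mul, val_add, val_one, val_pe, val_qc,
                  Dat.val_eez, Dat.val_xhi, val_hlf, val_vT] at h2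
                rw [show 1 / 2 + 1 / 2 * (2 * y - 1) = y by ring] at h2
                rw [Dat.eta_hi h1]
                linarith
            have i3 := mul_le_mul_of_nonneg_left i2 (hPe w hw t ht)
            have e3 : (1 + w * t) * ((1 + (p.d.ee : ℝ) * t) * (fi + (pv g.kc t * (g.kM : ℝ) - 1)
                  * pv (pri g.Qd) t))
                = p.d.rPe w t * fi + p.d.rPe w t * (pv g.kc t * (g.kM : ℝ) - 1)
                  * pv (pri g.Qd) t := by
              unfold Dat.rPe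
              ring
            rw [e3] at i3
            linarith
          fh := fun w hw y hy t ht => intf _ (fhk_cont y) (hfh y hy) w hw t ht
          qq := fun w hw t ht => intf _ qq_cont (fun s hs => hg.qQ hs) w hw t ht }
      hA := fun w hw t ht => by
        show (1 + w * t) * pv g.al t ≤ pv g.al t * (1 + w * t)
        exact (mul_comm _ _).le
      a0 := fun t ht => by
        refine le_trans ?_ (hAf t ht)
        exact mul_nonneg (hee t ht) (mul_nonneg (zero_le_one.trans (hg.kc1 ht)) (hg.IQ0 ht))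
      hγ := fun t ht => btI ht
      le := fun t ht => by
        have h2 := hg.Ad.t ht
        simp only [GDat.eAd, val_sub, val_mul, val_add, val_one, val_qc, val_pe, val_vT] at h2
        have e : (((1 / 3 : ℚ)) : ℝ) = 1 / 3 := by norm_num
        rw [e] at h2
        show pv g.al t * (1 + t / 3) ≤ 1 - (g.dl : ℝ)
        linarith }

/-- the density factor is at least the exponent factor -/
theorem kP_of (hp : p.Ok) (hg : g.Pos p.d) :
    ∀ w ∈ Icc (0 : ℝ) 1, ∀ t s, 0 ≤ s → s ≤ t → t ≤ bt → p.d.rPe w t ≤ g.kd p.d w t s := by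
  intro w hw t s h0 h1 h2
  have r1 := rPe_one hp hw ⟨h0.trans h1, h2⟩
  have k1 := hg.kc1 (t := t) ⟨h0.trans h1, h2⟩
  have k2 := hg.ke1 (t := s) ⟨h0, h1.trans h2⟩
  unfold GDat.kd
  nlinarith [mul_le_mul k1 k2 zero_le_one (zero_le_one.trans k1)]

theorem kd_cn (N : ℕ) (w : ℝ) : CN N (g.kd p.d w) := by
  refine CN.of_cont ?_
  have c1 : Continuous fun q : ℝ × ℝ => g.kd p.d w q.1 q.2 := by
    unfold GDat.kd Dat.rPe
    have a1 := (continuous_pv g.kc).comp (continuous_fst (X := ℝ) (Y := ℝ))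
    have a2 := (continuous_pv g.ke).comp (continuous_snd (X := ℝ) (Y := ℝ))
    have a3 : Continuous fun q : ℝ × ℝ => (1 + w * q.1) * (1 + (p.d.ee : ℝ) * q.1) := by
      fun_prop
    exact a3.mul (a1.mul a2)
  exact c1.continuousOn

end Pool.Agent.RX.RCN.K
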