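import Pool.Agent.RX.RCM9.CertG2X
import Pool.Agent.RX.RCN.Ck1
import Pool.Agent.RX.RCN.GapD

/-! The first part of the inequality of the centres in the form of the assembly; the lists of the
certificate of level 1/2 (MP_73ccd0_lc, route M). -/

namespace Pool.Agent.RX.RCN.K

open Set Finset MeasureTheory Pool.Agent.RX.RCRSHalf Pool.Agent.RX.RCG Pool.Agent.RX.RCG.Ct
open Pool.Agent.RX.RCN.Ker Pool.Agent.RX.RCRS Pool.Agent.RX.RCM9 Pool.Agent.RX.RCM9.Bern Pool.Agent.RX.RCM9.Pk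
open Pool.Agent.RX.RCN.Ck1

set_option linter.unusedSectionVars false

theorem cg2_U0 : 0 < CertG2.d.U := by norm_num [CertG2.d]

/-- the gauge form of a list of the certificate -/
theorem cg2_gauge {s : List ℚ} {g : List (List ℚ)} {U : ℚ} (hU : U ≤ CertG2.d.U)
    (h : ∀ {k u : ℝ}, k ∈ Icc (0 : ℝ) 1 → u ∈ Icc (0 : ℝ) CertG2.d.U →
      pv2 g k u ≤ pv s u * ((1 + 3 / 5 * k) * Real.exp (k * u + (1 - k) * pv CertG2.yb2 u)))
    {z dl : List ℚ} (hz : z = CertG2.yb2) (hd : dl = lsub [0, 1] CertG2.yb2) :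
    ∀ k ∈ Icc (0 : ℝ) 1, ∀ u ∈ Icc (0 : ℝ) U,
      pv2 g k u ≤ pv s u * ((1 + 3 / 5 * k) * Real.exp (pv z u + k * pv dl u)) := by
  intro k hk u hu
  have hU' : (U : ℝ) ≤ CertG2.d.U := by exact_mod_cast hU
  have h1 := h hk ⟨hu.1, hu.2.trans hU'⟩
  have e : pv z u + k * pv dl u = k * u + (1 - k) * pv CertG2.yb2 u := by
    rw [hz, hd, pv_lsub]
    have : pv [0, 1] u = u := by simp [pv]
    rw [this]
    ring
  rw [e]
  exact h1

variable {V : Type} [Fintype V] [DecidableEq V]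
variable {Gr : SimpleGraph V} [Fintype Gr.edgeSet] [DecidableEq Gr.edgeSet]
variable {p : Ps} {g : GDat} {x : Gr.edgeSet → ℝ}

/-- the sum of the targets -/
theorem s1_le_sT {x : V → V → ℝ} {P : V → Prop} [DecidablePred P] (hw : Wt x P 1) (a : V)
    (hk1 : p.d.k1 = 0) (hsh : ∀ y ∈ Icc (0 : ℝ) 1, 1 - y ≤ pv p.d.shT y) :
    ∑ b, xr x P a b ^ 2 * (1 - xr x P a b)
      ≤ ∑ b, p.d.dt.sT (xr x P a b) - p.d.dt.k1 * Qs x P a := by
  have e0 : p.d.dt.k1 = 0 := by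
    show ((p.d.k1 : ℚ) : ℝ) = 0
    rw [hk1, Rat.cast_zero]
  rw [e0, zero_mul, sub_zero]
  refine Finset.sum_le_sum fun b _ => ?_
  have hm : xr x P a b ∈ Icc (0 : ℝ) 1 := by
    unfold xr
    split_ifs
    · exact x_mem hw a b
    · exact ⟨le_rfl, zero_le_one⟩
  exact mul_le_mul_of_nonneg_left (hsh _ hm) (sq_nonneg _)

/-- **the inequality of the centres from the two parts with shares** -/
theorem tt_of12 {C : Cx (V ⊕ V)} {N : ℕ} {s1 s2 : ℕ → ℚ} (hx : IsFractionalMatching Gr x) (N0 : 0 < N)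
    (hkt : ∀ t ∈ Icc (0 : ℝ) bt, 0 ≤ pv p.d.ktl t) (hs : ∀ i < N, s1 i + s2 i ≤ 1)
    (h1 : ∀ a, P0 V a → ∀ t ∈ Icc (0 : ℝ) bt,
      ∑ b, xr (xe x) (P0 V) a b * ∑ d ∈ ({a, b} : Finset (V ⊕ V))ᶜ,
          wS (p.da (g.kd p.d) C).k.fh (p.da (g.kd p.d) C).k.mb
            ((p.da (g.kd p.d) C).E x) (xe x) (P0 V) a b d t
        ≤ s1 (ci N t) * pv p.d.ktl t * (∑ b, (p.da (g.kd p.d) C).T.sT (xr (xe x) (P0 V) a b)
          - (p.da (g.kd p.d) C).T.k1 * Qs (xe x) (P0 V) a))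
    (h2 : ∀ a, P0 V a → ∀ t ∈ Icc (0 : ℝ) bt,
      ∑ b, xr (xe x) (P0 V) a b * ∑ d ∈ ({a, b} : Finset (V ⊕ V))ᶜ,
          wS (p.da (g.kd p.d) C).k.fh (p.da (g.kd p.d) C).k.mb
            ((p.da (g.kd p.d) C).E x) (xe x) (P0 V) b a d t
        ≤ s2 (ci N t) * pv p.d.ktl t * (∑ b, (p.da (g.kd p.d) C).T.sT (xr (xe x) (P0 V) a b)
          - (p.da (g.kd p.d) C).T.k1 * Qs (xe x) (P0 V) a))
    (hcn : (p.da (g.kd p.d) C).Ok) : TT (p.da (g.kd p.d) C) x := by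
  refine tt_of hx (k1 := fun t => s1 (ci N t) * pv p.d.ktl t)
    (k2 := fun t => s2 (ci N t) * pv p.d.ktl t) h1 h2 (fun t ht => ?_) hcn
  show (s1 (ci N t) : ℝ) * pv p.d.ktl t + s2 (ci N t) * pv p.d.ktl t ≤ pv p.d.ktl t
  have h : ((s1 (ci N t) : ℚ) : ℝ) + (s2 (ci N t) : ℚ) ≤ 1 := by
    exact_mod_cast hs _ (ci_lt N0 ht.2)
  have := mul_le_mul_of_nonneg_right h (hkt t ht)
  linarith

end Pool.Agent.RX.RCN.K
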