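import Pool.Agent.RX.RCM.FmE
import Pool.Agent.RX.RCM.RowK
import Pool.Agent.RX.RCM.SupV

/-! Bounds of the tails of one target by functions of the clock and of the weight of the removed
set (MP_73ccd0_lc, route M). -/

namespace Pool.Agent.RX.RCN.K

open Set Finset MeasureTheory Pool.Agent.RX.RCRSHalf Pool.Agent.RX.RCG Pool.Agent.RX.RCG.Ct

set_option linter.unusedSectionVars false

/-- scalar data of the bounds of the tails: functions of the weight `k` of the removed set and of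
the clock `u ∈ [0, U]` -/
structure Msc (U q m ie : ℝ) (y B : ℝ → ℝ) (Eu Er Gp Gm Pf Pf' Mf Mf' : ℝ → ℝ → ℝ)
    (Ey FM FP FQ AM AP AD : ℝ → ℝ) : Prop where
  U1 : U ≤ 1
  q0 : 0 ≤ q
  m0 : 0 ≤ m
  y0 : ∀ u ∈ Icc 0 U, 0 ≤ y u
  yu : ∀ u ∈ Icc 0 U, y u ≤ u
  B0 : ∀ u ∈ Icc 0 U, 0 ≤ B u
  ie0 : 0 ≤ ie
  hie : 1 ≤ ie * (1 - 2 / 9 * U)
  Bη : ∀ u ∈ Icc 0 U, B u ≤ (1 - 2 / 9 * U) * (1 + B u / 4)
  ey : ∀ u ∈ Icc 0 U, Real.exp (y u) ≤ Ey u
  eu : ∀ k ∈ Icc (0 : ℝ) 1, ∀ u ∈ Icc 0 U, Real.exp (k * u + (1 - k) * y u) ≤ Eu k u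
  er : ∀ k ∈ Icc (0 : ℝ) 1, ∀ u ∈ Icc 0 U,
    Real.exp (y u + (2 + k) * (u - y u) / 3) ≤ Er k u
  dP : ∀ k ∈ Icc (0 : ℝ) 1, ∀ u ∈ Icc 0 U, HasDerivAt (Pf k) (Pf' k u) u
  dM : ∀ k ∈ Icc (0 : ℝ) 1, ∀ u ∈ Icc 0 U, HasDerivAt (Mf k) (Mf' k u) u
  P0 : ∀ k ∈ Icc (0 : ℝ) 1, ∀ u ∈ Icc 0 U, 0 ≤ Pf k u
  M0 : ∀ k ∈ Icc (0 : ℝ) 1, ∀ u ∈ Icc 0 U, 0 ≤ Mf k u
  hFM : ∀ k ∈ Icc (0 : ℝ) 1, ∀ u ∈ Icc 0 U, (1 - k) * (Eu k u * Mf k u) ≤ FM u
  hFP : ∀ k ∈ Icc (0 : ℝ) 1, ∀ u ∈ Icc 0 U, (1 - k) * (Eu k u * Pf k u) ≤ FP u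
  hFQ : ∀ k ∈ Icc (0 : ℝ) 1, ∀ u ∈ Icc 0 U, (1 - k) ^ 2 * (Eu k u * Pf k u) ≤ FQ u
  hAM : ∀ k ∈ Icc (0 : ℝ) 1, ∀ u ∈ Icc 0 U,
    Eu k u * ((1 - k) ^ 2 * (Er k u * Mf k u) + (1 - k) * FM u) ≤ AM u
  hAP : ∀ k ∈ Icc (0 : ℝ) 1, ∀ u ∈ Icc 0 U,
    q * Eu k u * ((1 + B u / 4) * ((1 - k) ^ 2 * (Er k u * Pf k u) + (1 - k) * FP u)
      + B u * ((1 - k) * (1 / 2 + 3 / 4 * k)) * FQ u) ≤ AP u
  hAD : ∀ k ∈ Icc (0 : ℝ) 1, ∀ u ∈ Icc 0 U,
    Eu k u * B u * (Er k u * ((1 - k) ^ 2 * (ie / 4) * (1 + (1 + q * m) * B u / 4)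
        + (1 - k) ^ 3 * (4 / 27 * ie ^ 2) * (q * m))
      + Ey u * (2 - k) * ((1 + (1 + q * m) * B u / 4) / 4 + 4 / 27 * (q * m))) ≤ AD u
  oP : ∀ k ∈ Icc (0 : ℝ) 1, ∀ u ∈ Icc 0 U,
    Eu k u * FM u + Gm k u * AM u + Gp k u * (AD u + AP u) ≤ Pf' k u
  oM : ∀ k ∈ Icc (0 : ℝ) 1, ∀ u ∈ Icc 0 U,
    Eu k u * (Ey u * B u * (1 / 2 + 3 / 4 * k) + q * (FP u + B u * (1 / 2 + 3 / 4 * k) * FQ u))
      + Gp k u * AM u + Gm k u * (AD u + AP u) ≤ Mf' k u
  eP : ∀ k ∈ Icc (0 : ℝ) 1, ∀ u ∈ Icc 0 U, Gm k u ≤ Pf k u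
  eM : ∀ k ∈ Icc (0 : ℝ) 1, ∀ u ∈ Icc 0 U, Gp k u ≤ Mf k u

variable {V : Type*} [Fintype V] [DecidableEq V]
variable {Z : Hzd} {F : Lz V} {x : V → V → ℝ} {P : V → Prop} [DecidablePred P]
variable {sl : ℝ → ℝ → ℝ} {τ : ℝ} {D : Finset V} {B E1 : ℝ → ℝ → ℝ} {m q : ℝ}
variable {gp gm : V → V → ℝ → ℝ}

/-- the clock of the cell and the data of the world in terms of it -/
structure Wck (Z : Hzd) (F : Lz V) (x : V → V → ℝ) (P : V → Prop) [DecidablePred P]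
    (τ : ℝ) (D : Finset V) (B : ℝ → ℝ → ℝ) (gp gm : V → V → ℝ → ℝ) (U : ℝ) (y Bu : ℝ → ℝ)
    (Gp Gm : ℝ → ℝ → ℝ) (mb u : ℝ → ℝ) : Prop where
  mb0 : ∀ r ∈ Icc 0 τ, 0 ≤ mb r
  du : ∀ r ∈ Icc 0 τ, HasDerivAt u (-mb r) r
  um : ∀ r ∈ Icc 0 τ, u r ∈ Icc 0 U
  hm : ∀ r ∈ Icc 0 τ, ∀ e f, Z.hh x P r e f ≤ x e f * mb r
  hy : ∀ r ∈ Icc 0 τ, ∀ e ∈ Dᶜ, F.y1 e r ≤ RCM.kx x D e * u r + (1 - RCM.kx x D e) * y (u r)
  hB : ∀ r ∈ Icc 0 τ, B τ r ≤ Bu (u r)
  ps : ∀ i j, ∀ r ∈ Icc 0 τ, gp i j r = gp j i r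
  ms : ∀ i j, ∀ r ∈ Icc 0 τ, gm i j r = gm j i r
  rp : ∀ e ∈ Dᶜ, ∀ r ∈ Icc 0 τ,
    ∑ f ∈ Dᶜ, gp e f r ≤ (1 - RCM.kx x D e) * Gp (RCM.kx x D e) (u r)
  rm : ∀ e ∈ Dᶜ, ∀ r ∈ Icc 0 τ,
    ∑ f ∈ Dᶜ, gm e f r ≤ (1 - RCM.kx x D e) * Gm (RCM.kx x D e) (u r)

set_option maxHeartbeats 4000000 in
/-- **the tails of one target** -/
theorem tls_bd (hC : Z.Cf B E1) (hZ : Z.Ok sl) (hx : Wt x P 1) (hD : D.card ≤ 2)
    (τ1 : τ ∈ Icc (0 : ℝ) bt) (cy : ∀ e, ContinuousOn (F.y1 e) (Icc 0 τ))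
    (cB : ContinuousOn (B τ) (Icc 0 τ)) (hG : Gd Z F x P τ D gp gm gm)
    {U ie : ℝ} {y Bu : ℝ → ℝ} {Eu Er Gp Gm Pf Pf' Mf Mf' : ℝ → ℝ → ℝ}
    {Ey FM FP FQ AM AP AD : ℝ → ℝ} {mb u : ℝ → ℝ}
    (hS : Msc U q m ie y Bu Eu Er Gp Gm Pf Pf' Mf Mf' Ey FM FP FQ AM AP AD)
    (hW : Wck Z F x P τ D B gp gm U y Bu Gp Gm mb u)
    {s : ℝ} (hs : s ∈ Icc 0 τ) {c : V} (hc : c ∈ Dᶜ) {p' n : V → ℝ → ℝ}
    (hl : Tls Z F x P τ D gp gm B q m s c p' n)
    (ep : ∀ e ∈ Dᶜ.erase c, p' e s ≤ gm c e s) (en : ∀ e ∈ Dᶜ.erase c, n e s ≤ gp c e s) :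
    ∀ e ∈ Dᶜ.erase c, ∀ r ∈ Icc 0 s,
      p' e r ≤ (1 - RCM.kx x D e) * Pf (RCM.kx x D e) (u r) := by
  have hx' := wt_of hx
  set X : Finset V := Dᶜ.erase c with hX
  have τ0 : 0 ≤ τ := τ1.1
  have sub : Icc 0 s ⊆ Icc 0 τ := Icc_subset_Icc_right hs.2
  have s1 : s ∈ Icc (0 : ℝ) bt := ⟨hs.1, hs.2.trans τ1.2⟩
  have m1 : ∀ r ∈ Icc 0 s, r ∈ Icc (0 : ℝ) bt := fun r hr => ⟨hr.1, hr.2.trans s1.2⟩
  obtain ⟨gp', gm', hg⟩ := hG.g
  let k : V → ℝ := RCM.kx x D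
  have hk : ∀ e, k e ∈ Icc (0 : ℝ) 1 := fun e => ⟨RCM.kx0 hx' D e, RCM.kx1 hx' D e⟩
  have hXD : ∀ e ∈ X, e ∈ Dᶜ := fun e he => Finset.mem_of_mem_erase he
  -- the kernel
  let T : ℝ → V → V → ℝ := K1 Z F x P
  have T0 : ∀ r ∈ Icc 0 s, ∀ i j, 0 ≤ T r i j := fun r hr i j => K1_nonneg hZ hx (m1 r hr) i j
  have cT : ∀ i j, ContinuousOn (fun r => T r i j) (Icc 0 s) := fun i j =>
    (Tb_cont hZ hx τ1.2 cy i j).mono sub
  let z : V → ℝ → ℝ := fun e r => Real.exp (k e * u r + (1 - k e) * y (u r))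
  have z0 : ∀ e r, 0 ≤ z e r := fun e r => (Real.exp_pos _).le
  have zE : ∀ r ∈ Icc 0 s, ∀ e, z e r ≤ Eu (k e) (u r) := fun r hr e =>
    hS.eu _ (hk e) _ (hW.um r (sub hr))
  have E0 : ∀ r ∈ Icc 0 s, ∀ e, 0 ≤ Eu (k e) (u r) := fun r hr e => (z0 e r).trans (zE r hr e)
  have Tle : ∀ r ∈ Icc 0 s, ∀ e ∈ Dᶜ, ∀ f ∈ Dᶜ,
      T r e f ≤ mb r * (z e r * (x e f * z f r)) := fun r hr e he f hf => by
    have h1 := hW.hm r (sub hr) e f
    have h2 : Real.exp (F.y1 e r + F.y1 f r) ≤ z e r * z f r := by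
      show _ ≤ Real.exp _ * Real.exp _
      rw [← Real.exp_add]
      exact Real.exp_le_exp.2 (add_le_add (hW.hy r (sub hr) e he) (hW.hy r (sub hr) f hf))
    have h3 : T r e f ≤ (x e f * mb r) * (z e r * z f r) :=
      mul_le_mul h1 h2 (Real.exp_pos _).le (mul_nonneg (hx'.nn e f) (hW.mb0 r (sub hr)))
    refine h3.trans (le_of_eq (by ring))
  have T1 : ∀ r ∈ Icc 0 s, ∀ e ∈ Dᶜ, ∀ f ∈ Dᶜ,
      T r e f ≤ mb r * (Eu (k e) (u r) * (x e f * z f r)) := fun r hr e he f hf =>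
    (Tle r hr e he f hf).trans (mul_le_mul_of_nonneg_left (mul_le_mul_of_nonneg_right
      (zE r hr e) (mul_nonneg (hx'.nn e f) (z0 f r))) (hW.mb0 r (sub hr)))
  -- sums of the kernel with a function
  have Tsum : ∀ r ∈ Icc 0 s, ∀ e ∈ Dᶜ, ∀ a : V → ℝ, (∀ f ∈ X, 0 ≤ a f) →
      ∑ f ∈ X, T r e f * a f ≤ mb r * (Eu (k e) (u r) * ∑ f ∈ X, x e f * (z f r * a f)) := by
    intro r hr e he a ha
    rw [Finset.mul_sum, Finset.mul_sum]
    refine Finset.sum_le_sum fun f hf => ?_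
    have := mul_le_mul_of_nonneg_right (T1 r hr e he f (hXD f hf)) (ha f hf)
    refine this.trans (le_of_eq (by ring))
  have row : ∀ e ∈ X, ∑ f ∈ X, x e f ≤ 1 - k e := fun e he => by
    have := RCM.row_erase hx' hc e
    have h2 := hx'.nn e c
    show _ ≤ 1 - RCM.kx x D e
    linarith
  have rowF : ∀ e ∈ X, ∀ a : V → ℝ, ∀ A : ℝ, 0 ≤ A → (∀ f ∈ X, a f ≤ A) →
      ∑ f ∈ X, x e f * a f ≤ (1 - k e) * A := fun e he a A hA ha => by
    refine (Finset.sum_le_sum fun f hf => mul_le_mul_of_nonneg_left (ha f hf) (hx'.nn e f)).trans ?_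
    rw [← Finset.sum_mul]
    exact mul_le_mul_of_nonneg_right (row e he) hA
  -- scalars
  have uU : ∀ r ∈ Icc 0 s, u r ∈ Icc 0 U := fun r hr => hW.um r (sub hr)
  have k1m : (1 : ℝ) ∈ Icc (0 : ℝ) 1 := ⟨zero_le_one, le_rfl⟩
  have FM0 : ∀ r ∈ Icc 0 s, 0 ≤ FM (u r) := fun r hr => by
    have := hS.hFM 1 k1m (u r) (uU r hr); simpa using this
  have FP0 : ∀ r ∈ Icc 0 s, 0 ≤ FP (u r) := fun r hr => by
    have := hS.hFP 1 k1m (u r) (uU r hr); simpa using this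
  have FQ0 : ∀ r ∈ Icc 0 s, 0 ≤ FQ (u r) := fun r hr => by
    have := hS.hFQ 1 k1m (u r) (uU r hr); simpa using this
  have Bτ0 : ∀ r ∈ Icc 0 s, 0 ≤ B τ r := fun r hr => hC.B_nonneg hr.1 (sub hr).2 τ1.2
  have Bu0 : ∀ r ∈ Icc 0 s, 0 ≤ Bu (u r) := fun r hr => hS.B0 _ (uU r hr)
  have BB : ∀ r ∈ Icc 0 s, B τ r ≤ Bu (u r) := fun r hr => hW.hB r (sub hr)
  have D0 : ∀ r ∈ Icc 0 s, ∀ e, 0 ≤ Z.Dd x P s c e r := fun r hr e =>
    hZ.Dd_nonneg hx s1 c e hr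
  have D0τ : ∀ r ∈ Icc 0 s, ∀ e, 0 ≤ Z.Dd x P τ c e r := fun r hr e =>
    hZ.Dd_nonneg hx τ1 c e (sub hr)
  have Dτ : ∀ r ∈ Icc 0 s, ∀ e, Z.Dd x P τ c e r ≤ x c e * Bu (u r) := fun r hr e =>
    (hC.Dd_le hZ hx τ1 c e (sub hr)).trans
      (mul_le_mul_of_nonneg_left (BB r hr) (hx'.nn c e))
  have Ds : ∀ r ∈ Icc 0 s, ∀ e, Z.Dd x P s c e r ≤ x c e * Bu (u r) := fun r hr e =>
    (hZ.Dd_mono hx hs.2 τ1.2 c e hr).trans (Dτ r hr e)
  have q0 := hS.q0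
  have m0 := hS.m0
  have qm0 : 0 ≤ q * m := mul_nonneg q0 m0
  -- exponents
  have δb : ∀ r ∈ Icc 0 s, 0 ≤ u r - y (u r) ∧ u r - y (u r) ≤ 1 ∧ u r - y (u r) ≤ U :=
    fun r hr => by
    have h1 := hS.yu _ (uU r hr)
    have h2 := hS.y0 _ (uU r hr)
    have h3 := (uU r hr).2
    have h4 := hS.U1
    exact ⟨by linarith, by linarith, by linarith⟩
  have zeq : ∀ e r, z e r = Real.exp (y (u r)) * Real.exp (k e * (u r - y (u r))) := by
    intro e r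
    show Real.exp _ = _
    rw [← Real.exp_add]
    congr 1
    ring
  have zEy : ∀ r ∈ Icc 0 s, ∀ e, (1 - k e) * z e r ≤ Ey (u r) := fun r hr e => by
    rw [zeq]
    have h1 : (1 - k e) * Real.exp (k e * (u r - y (u r))) ≤ 1 := by
      have h2 : Real.exp (k e * (u r - y (u r))) ≤ Real.exp (k e) := by
        refine Real.exp_le_exp.2 ?_
        have := mul_le_mul_of_nonneg_left (δb r hr).2.1 (hk e).1
        linarith
      have h3 := Real.add_one_le_exp (-(k e))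
      have h4 : Real.exp (-(k e)) * Real.exp (k e) = 1 := by rw [← Real.exp_add]; simp
      have h5 := mul_le_mul_of_nonneg_right h3 (Real.exp_pos (k e)).le
      have h6 := mul_le_mul_of_nonneg_left h2 (by linarith [(hk e).2] : 0 ≤ 1 - k e)
      linarith
    have h2 := mul_le_mul_of_nonneg_left h1 (Real.exp_pos (y (u r))).le
    have h3 := hS.ey _ (uU r hr)
    linarith
  have Ey0 : ∀ r ∈ Icc 0 s, 0 ≤ Ey (u r) := fun r hr =>
    (Real.exp_pos _).le.trans (hS.ey _ (uU r hr))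
  -- plain rows
  have prow : ∀ r ∈ Icc 0 s, ∀ e ∈ X, ∑ f ∈ X, x e f * z f r
      ≤ Er (k e) (u r) * ((1 - k e) - x e c * (1 - 2 / 9 * U)) := fun r hr e he => by
    have h1 := RCM.rowK hx' hD hc he (δb r hr).1 (δb r hr).2.1
    have e1 : ∑ f ∈ X, x e f * z f r
        = Real.exp (y (u r)) * ∑ f ∈ X, x e f * Real.exp (k f * (u r - y (u r))) := by
      rw [Finset.mul_sum]
      refine Finset.sum_congr rfl fun f _ => ?_
      rw [zeq]; ring
    rw [e1]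
    have h2 := mul_le_mul_of_nonneg_left h1 (Real.exp_pos (y (u r))).le
    refine h2.trans ?_
    have e2 : Real.exp (y (u r)) * (Real.exp ((2 + RCM.kx x D e) * (u r - y (u r)) / 3)
        * (1 - RCM.kx x D e - x e c * (1 - 2 / 9 * (u r - y (u r)))))
        = Real.exp (y (u r) + (2 + k e) * (u r - y (u r)) / 3)
          * (1 - k e - x e c * (1 - 2 / 9 * (u r - y (u r)))) := by
      rw [Real.exp_add]; ring
    rw [e2]
    have xc0 := hx'.nn e c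
    have hxc : x e c + k e ≤ 1 := RCM.x_add_kx hx' D hc
    have h3 : 1 - k e - x e c * (1 - 2 / 9 * (u r - y (u r)))
        ≤ 1 - k e - x e c * (1 - 2 / 9 * U) := by
      have := mul_le_mul_of_nonneg_left (δb r hr).2.2 xc0
      nlinarith
    have h4 : 0 ≤ 1 - k e - x e c * (1 - 2 / 9 * (u r - y (u r))) := by
      have := mul_nonneg xc0 (δb r hr).1
      nlinarith
    have h5 := hS.er _ (hk e) _ (uU r hr)
    exact mul_le_mul h5 h3 h4 ((Real.exp_pos _).le.trans h5)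
  have Er0 : ∀ r ∈ Icc 0 s, ∀ e, 0 ≤ Er (k e) (u r) := fun r hr e =>
    (Real.exp_pos _).le.trans (hS.er _ (hk e) _ (uU r hr))
  have η0 : 0 ≤ 1 - 2 / 9 * U := by have := hS.U1; linarith
  have trow : ∀ r ∈ Icc 0 s, ∀ e ∈ X, ∑ f ∈ X, T r e f
      ≤ mb r * (Eu (k e) (u r) * (Er (k e) (u r) * ((1 - k e) - x e c * (1 - 2 / 9 * U)))) :=
    fun r hr e he => by
    have h1 := Tsum r hr e (hXD e he) (fun _ => 1) (fun _ _ => zero_le_one)
    simp only [mul_one] at h1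
    exact h1.trans (mul_le_mul_of_nonneg_left (mul_le_mul_of_nonneg_left (prow r hr e he)
      (E0 r hr e)) (hW.mb0 r (sub hr)))
  have ρ0 : ∀ e, 0 ≤ 1 - k e := fun e => by have := (hk e).2; linarith
  have hxc : ∀ e, x e c + k e ≤ 1 := fun e => RCM.x_add_kx hx' D hc
  have trow0 : ∀ r ∈ Icc 0 s, ∀ e ∈ X, ∑ f ∈ X, T r e f
      ≤ mb r * (Eu (k e) (u r) * (Er (k e) (u r) * (1 - k e))) := fun r hr e he => by
    refine (trow r hr e he).trans (mul_le_mul_of_nonneg_left (mul_le_mul_of_nonneg_left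
      (mul_le_mul_of_nonneg_left ?_ (Er0 r hr e)) (E0 r hr e)) (hW.mb0 r (sub hr)))
    have := mul_nonneg (hx'.nn e c) η0
    linarith
  have Pf0 : ∀ r ∈ Icc 0 s, ∀ e, 0 ≤ Pf (k e) (u r) := fun r hr e => hS.P0 _ (hk e) _ (uU r hr)
  have Mf0 : ∀ r ∈ Icc 0 s, ∀ e, 0 ≤ Mf (k e) (u r) := fun r hr e => hS.M0 _ (hk e) _ (uU r hr)
  have zP : ∀ r ∈ Icc 0 s, ∀ f, z f r * ((1 - k f) * Pf (k f) (u r))
      ≤ (1 - k f) * (Eu (k f) (u r) * Pf (k f) (u r)) := fun r hr f => by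
    have := mul_le_mul_of_nonneg_right (zE r hr f) (mul_nonneg (ρ0 f) (Pf0 r hr f))
    linarith
  have zM : ∀ r ∈ Icc 0 s, ∀ f, z f r * ((1 - k f) * Mf (k f) (u r))
      ≤ (1 - k f) * (Eu (k f) (u r) * Mf (k f) (u r)) := fun r hr f => by
    have := mul_le_mul_of_nonneg_right (zE r hr f) (mul_nonneg (ρ0 f) (Mf0 r hr f))
    linarith
  have SM : ∀ r ∈ Icc 0 s, ∀ e ∈ X, ∑ f ∈ X, T r e f * ((1 - k f) * Mf (k f) (u r))
      ≤ mb r * (Eu (k e) (u r) * ((1 - k e) * FM (u r))) := fun r hr e he => by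
    refine (Tsum r hr e (hXD e he) _ fun f _ => mul_nonneg (ρ0 f) (Mf0 r hr f)).trans
      (mul_le_mul_of_nonneg_left (mul_le_mul_of_nonneg_left ?_ (E0 r hr e)) (hW.mb0 r (sub hr)))
    exact rowF e he _ _ (FM0 r hr) fun f _ => (zM r hr f).trans (hS.hFM _ (hk f) _ (uU r hr))
  have SP : ∀ r ∈ Icc 0 s, ∀ e ∈ X, ∑ f ∈ X, T r e f * ((1 - k f) * Pf (k f) (u r))
      ≤ mb r * (Eu (k e) (u r) * ((1 - k e) * FP (u r))) := fun r hr e he => by
    refine (Tsum r hr e (hXD e he) _ fun f _ => mul_nonneg (ρ0 f) (Pf0 r hr f)).trans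
      (mul_le_mul_of_nonneg_left (mul_le_mul_of_nonneg_left ?_ (E0 r hr e)) (hW.mb0 r (sub hr)))
    exact rowF e he _ _ (FP0 r hr) fun f _ => (zP r hr f).trans (hS.hFP _ (hk f) _ (uU r hr))
  -- with the weight of the target
  have SQ : ∀ r ∈ Icc 0 s, ∀ e ∈ X,
      ∑ f ∈ X, T r e f * (x c f * ((1 - k f) * Pf (k f) (u r)))
        ≤ mb r * (Eu (k e) (u r) * (FQ (u r) * ((1 - k e) * (1 / 2 + 3 / 4 * k e)))) :=
    fun r hr e he => by
    refine (Tsum r hr e (hXD e he) _ fun f _ => mul_nonneg (hx'.nn c f)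
      (mul_nonneg (ρ0 f) (Pf0 r hr f))).trans
      (mul_le_mul_of_nonneg_left (mul_le_mul_of_nonneg_left ?_ (E0 r hr e)) (hW.mb0 r (sub hr)))
    have h1 := (RCM.halfK (x := x) (D := D) (c := c) (e := e) hx' hc he
      (h := fun f => z f r * ((1 - k f) * Pf (k f) (u r)))
      (fun f _ => mul_nonneg (z0 f r) (mul_nonneg (ρ0 f) (Pf0 r hr f)))
      (fun f _ => (mul_le_mul_of_nonneg_left (zP r hr f) (ρ0 f)).trans (le_trans (le_of_eq
        (by ring)) (hS.hFQ _ (hk f) _ (uU r hr)))) (FQ0 r hr)).1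
    refine le_trans (le_of_eq (Finset.sum_congr rfl fun f _ => ?_)) h1
    ring
  have Sx : ∀ r ∈ Icc 0 s, ∀ e ∈ X, ∑ f ∈ X, T r e f * x c f
      ≤ mb r * (Eu (k e) (u r) * (Ey (u r) * ((1 - k e) * (1 / 2 + 3 / 4 * k e)))) ∧
      ∑ f ∈ X, T r e f * x c f
      ≤ mb r * (Eu (k e) (u r) * (Ey (u r) * ((2 - k e) / 4))) := fun r hr e he => by
    have h0 := Tsum r hr e (hXD e he) (fun f => x c f) fun f _ => hx'.nn c f
    have h1 := RCM.halfK (x := x) (D := D) (c := c) (e := e) hx' hc he (h := fun f => z f r)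
      (fun f _ => z0 f r) (fun f _ => zEy r hr f) (Ey0 r hr)
    have e1 : ∑ f ∈ X, x e f * (z f r * x c f) = ∑ f ∈ X, x e f * x c f * z f r :=
      Finset.sum_congr rfl fun f _ => by ring
    rw [e1] at h0
    exact ⟨h0.trans (mul_le_mul_of_nonneg_left (mul_le_mul_of_nonneg_left h1.1 (E0 r hr e))
      (hW.mb0 r (sub hr))), h0.trans (mul_le_mul_of_nonneg_left (mul_le_mul_of_nonneg_left h1.2
      (E0 r hr e)) (hW.mb0 r (sub hr)))⟩
  have Sxx : ∀ r ∈ Icc 0 s, ∀ e ∈ X, ∑ f ∈ X, T r e f * x c f ^ 2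
      ≤ mb r * (Eu (k e) (u r) * (Ey (u r) * (4 / 27 * (2 - k e)))) := fun r hr e he => by
    have h0 := Tsum r hr e (hXD e he) (fun f => x c f ^ 2) fun f _ => sq_nonneg _
    have h1 := RCM.thirdK (x := x) (D := D) (c := c) (e := e) hx' hc he (h := fun f => z f r)
      (fun f _ => z0 f r) (fun f _ => by
        have a1 := zEy r hr f
        have a2 := mul_le_mul_of_nonneg_left a1 (ρ0 f)
        have a3 := mul_le_mul_of_nonneg_right (show 1 - k f ≤ 1 by linarith [(hk f).1]) (Ey0 r hr)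
        show (1 - k f) ^ 2 * z f r ≤ _
        nlinarith) (Ey0 r hr)
    have e1 : ∑ f ∈ X, x e f * (z f r * x c f ^ 2) = ∑ f ∈ X, x e f * x c f ^ 2 * z f r :=
      Finset.sum_congr rfl fun f _ => by ring
    rw [e1] at h0
    exact h0.trans (mul_le_mul_of_nonneg_left (mul_le_mul_of_nonneg_left h1 (E0 r hr e))
      (hW.mb0 r (sub hr)))
  have Br0 : ∀ r ∈ Icc 0 s, 0 ≤ mb r := fun r hr => hW.mb0 r (sub hr)
  have AM0 : ∀ r ∈ Icc 0 s, 0 ≤ AM (u r) := fun r hr => by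
    have := hS.hAM 1 k1m (u r) (uU r hr)
    simpa using this
  have AP0 : ∀ r ∈ Icc 0 s, 0 ≤ AP (u r) := fun r hr => by
    have := hS.hAP 1 k1m (u r) (uU r hr)
    simpa using this
  have Eu1 : ∀ r ∈ Icc 0 s, 0 ≤ Eu 1 (u r) := fun r hr =>
    (Real.exp_pos _).le.trans (hS.eu 1 k1m _ (uU r hr))
  have AD0 : ∀ r ∈ Icc 0 s, 0 ≤ AD (u r) := fun r hr => by
    have h1 := hS.hAD 1 k1m (u r) (uU r hr)
    have h2 : 0 ≤ Eu 1 (u r) * Bu (u r) * (Ey (u r) * ((1 + (1 + q * m) * Bu (u r) / 4) / 4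
        + 4 / 27 * (q * m))) := by
      have a1 := Eu1 r hr
      have a2 := Bu0 r hr
      have a3 := Ey0 r hr
      positivity
    refine h2.trans (le_trans (le_of_eq ?_) h1)
    ring
  -- the direct part
  have Dle : ∀ r ∈ Icc 0 s, ∀ e, D3f Z x P B τ q m s c e r
      ≤ Bu (u r) * (1 + (1 + q * m) * Bu (u r) / 4) * x c e + Bu (u r) * (q * m) * x c e ^ 2 := by
    intro r hr e
    have h1 := Ds r hr e
    have b0 := Bτ0 r hr
    have b1 := BB r hr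
    have b2 := Bu0 r hr
    have c0 := hx'.nn c e
    have c1 : x c e ≤ 1 := (xw_mem hx c e).2
    have h2 : B τ r ^ 2 ≤ Bu (u r) ^ 2 := pow_le_pow_left₀ b0 b1 2
    have h3 : x c e ^ 2 * (1 - x c e) ≤ x c e / 4 := by
      nlinarith [mul_nonneg c0 (sq_nonneg (x c e - 1 / 2))]
    have h3' : 0 ≤ x c e ^ 2 * (1 - x c e) := mul_nonneg (sq_nonneg _) (by linarith)
    have h4 : B τ r ^ 2 * (x c e ^ 2 * (1 - x c e)) ≤ Bu (u r) ^ 2 * (x c e / 4) :=
      mul_le_mul h2 h3 h3' (sq_nonneg _)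
    have h5 := mul_le_mul_of_nonneg_left h4 (by positivity : 0 ≤ 1 + q * m)
    have h6 : q * m * B τ r * x c e ^ 2 ≤ q * m * Bu (u r) * x c e ^ 2 :=
      mul_le_mul_of_nonneg_right (mul_le_mul_of_nonneg_left b1 qm0) (sq_nonneg _)
    unfold D3f
    nlinarith
  have Dn : ∀ r ∈ Icc 0 s, ∀ e, 0 ≤ D3f Z x P B τ q m s c e r := fun r hr e =>
    D3f_nonneg hC hZ hx τ1.2 q0 m0 hs.2 c e hr
  have C1le : ∀ r ∈ Icc 0 s, ∀ e, C1f Z x P τ q c e r ≤ q * (1 + x c e * Bu (u r)) :=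
    fun r hr e => mul_le_mul_of_nonneg_left (by linarith [Dτ r hr e]) q0
  have C4le : ∀ r ∈ Icc 0 s, ∀ e, C4f Z x P B τ q c e r
      ≤ q * (1 + x c e * Bu (u r) + Bu (u r) / 4) :=
    fun r hr e => mul_le_mul_of_nonneg_left (by linarith [Dτ r hr e, BB r hr]) q0
  have hie := hS.hie
  have ie0 := hS.ie0
  have η1 : 0 < 1 - 2 / 9 * U := by have := hS.U1; linarith
  -- products with the row
  have rξ : ∀ e, 0 ≤ (1 - k e) - x e c * (1 - 2 / 9 * U) := fun e => by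
    have h1 := hxc e
    have h2 := hx'.nn e c
    have h3 : x e c * (1 - 2 / 9 * U) ≤ x e c * 1 := mul_le_mul_of_nonneg_left (by
      have := (uU s ⟨hs.1, le_rfl⟩).1.trans (uU s ⟨hs.1, le_rfl⟩).2
      linarith) h2
    linarith
  have pr1 : ∀ e, ((1 - k e) - x e c * (1 - 2 / 9 * U)) * x e c ≤ (1 - k e) ^ 2 * (ie / 4) := by
    intro e
    have a1 := rξ e
    have a2 := hx'.nn e c
    have a3 : (1 - 2 / 9 * U) * (((1 - k e) - x e c * (1 - 2 / 9 * U)) * x e c)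
        ≤ (1 - k e) ^ 2 / 4 := by
      nlinarith [sq_nonneg ((1 - k e) - 2 * (x e c * (1 - 2 / 9 * U)))]
    have a4 := mul_le_mul_of_nonneg_left a3 ie0
    have a5 := mul_le_mul_of_nonneg_right hie (mul_nonneg a1 a2)
    nlinarith
  have pr2 : ∀ e, ((1 - k e) - x e c * (1 - 2 / 9 * U)) * x e c ^ 2
      ≤ (1 - k e) ^ 3 * (4 / 27 * ie ^ 2) := by
    intro e
    have a1 := rξ e
    have a2 := hx'.nn e c
    set w : ℝ := x e c * (1 - 2 / 9 * U) with hw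
    have w0 : 0 ≤ w := mul_nonneg a2 η1.le
    have a3 : ((1 - k e) - w) * w ^ 2 ≤ 4 / 27 * (1 - k e) ^ 3 := by
      have e1 : 4 / 27 * (1 - k e) ^ 3 - ((1 - k e) - w) * w ^ 2
          = (w - 2 / 3 * (1 - k e)) ^ 2 * (w + (1 - k e) / 3) := by ring
      have : 0 ≤ (w - 2 / 3 * (1 - k e)) ^ 2 * (w + (1 - k e) / 3) :=
        mul_nonneg (sq_nonneg _) (by have := ρ0 e; positivity)
      linarith
    have a4 := mul_le_mul_of_nonneg_left a3 (sq_nonneg ie)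
    have a5 : x e c ≤ ie * w := by
      have := mul_le_mul_of_nonneg_right hie a2
      rw [hw]; linarith
    have a6 : x e c ^ 2 ≤ (ie * w) ^ 2 := pow_le_pow_left₀ a2 a5 2
    have a7 := mul_le_mul_of_nonneg_left a6 a1
    nlinarith
  have pr3 : ∀ r ∈ Icc 0 s, ∀ e, ((1 - k e) - x e c * (1 - 2 / 9 * U))
      * (1 + x c e * Bu (u r) + Bu (u r) / 4) ≤ (1 - k e) * (1 + Bu (u r) / 4) := by
    intro r hr e
    rw [hx'.symm c e]
    have a1 := hx'.nn e c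
    have a2 := hS.Bη _ (uU r hr)
    have a3 := Bu0 r hr
    have a4 := ρ0 e
    have a5 : (1 - k e) * Bu (u r) ≤ (1 - 2 / 9 * U) * (1 + Bu (u r) / 4) := by
      have : (1 - k e) * Bu (u r) ≤ 1 * Bu (u r) :=
        mul_le_mul_of_nonneg_right (by linarith [(hk e).1]) a3
      linarith
    have a6 := mul_le_mul_of_nonneg_left a5 a1
    have a7 : 0 ≤ x e c * (x e c * (1 - 2 / 9 * U) * Bu (u r)) := by positivity
    nlinarith
  have key := RCM.tail_supV (X := X) (t := s) (T := T) (D := D3f Z x P B τ q m s c)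
    (n1 := N1 Z F x P D s c)
    (n1' := fun e r => -(∑ f ∈ X, K1 Z F x P r e f * Z.Dd x P s c f r))
    hl T0 cT (fun i j => (hG.cp i j).mono sub) (fun i j => (hG.cm i j).mono sub)
    (fun i => (C1f_cont hZ hx τ1.2 q c i).mono sub)
    (fun i => (C4f_cont hZ hx τ1.2 cB q c i).mono sub)
    (fun i j r hr => hg.gp0 i j r (sub hr)) (fun i j r hr => hg.gm0 i j r (sub hr))
    (fun i r hr => C1f_nonneg hZ hx τ1 q0 c i (sub hr))
    (fun i r hr => C4f_nonneg hC hZ hx τ1 q0 c i (sub hr))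
    (P := fun e r => (1 - k e) * Pf (k e) (u r))
    (P' := fun e r => (1 - k e) * (Pf' (k e) (u r) * -mb r))
    (M := fun e r => (1 - k e) * Mf (k e) (u r))
    (M' := fun e r => (1 - k e) * (Mf' (k e) (u r) * -mb r))
    (Gp := fun e r => (1 - k e) * Gp (k e) (u r)) (Gs := fun e r => (1 - k e) * Gm (k e) (u r))
    (AM := fun r => mb r * AM (u r)) (AP := fun r => mb r * AP (u r))
    (AD := fun r => mb r * AD (u r))
    { dP := fun e _ r hr => ((hS.dP _ (hk e) _ (uU r hr)).comp r (hW.du r (sub hr))).const_mul _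
      dM := fun e _ r hr => ((hS.dM _ (hk e) _ (uU r hr)).comp r (hW.du r (sub hr))).const_mul _
      P0 := fun e _ r hr => mul_nonneg (ρ0 e) (Pf0 r hr e)
      M0 := fun e _ r hr => mul_nonneg (ρ0 e) (Mf0 r hr e)
      AM0 := fun r hr => mul_nonneg (Br0 r hr) (AM0 r hr)
      AP0 := fun r hr => mul_nonneg (Br0 r hr) (AP0 r hr)
      AD0 := fun r hr => mul_nonneg (Br0 r hr) (AD0 r hr)
      hM := fun e he r hr => by
        have h1 := mul_le_mul_of_nonneg_right (trow0 r hr e he)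
          (mul_nonneg (ρ0 e) (Mf0 r hr e))
        have h2 := SM r hr e he
        have h3 := mul_le_mul_of_nonneg_left (hS.hAM _ (hk e) _ (uU r hr)) (Br0 r hr)
        refine (add_le_add h1 h2).trans (le_trans (le_of_eq ?_) h3)
        ring
      hD := fun e he r hr => by
        have b2 := Bu0 r hr
        have h1 := mul_le_mul_of_nonneg_left (Dle r hr e)
          (Finset.sum_nonneg fun y _ => T0 r hr e y : 0 ≤ ∑ y ∈ X, T r e y)
        have h2 := mul_le_mul_of_nonneg_right (trow r hr e he)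
          (by have := hx'.nn c e; positivity : 0 ≤ Bu (u r) * (1 + (1 + q * m) * Bu (u r) / 4)
            * x c e + Bu (u r) * (q * m) * x c e ^ 2)
        have h3 : ∑ z ∈ X, T r e z * D3f Z x P B τ q m s c z r
            ≤ Bu (u r) * (1 + (1 + q * m) * Bu (u r) / 4) * ∑ z ∈ X, T r e z * x c z
              + Bu (u r) * (q * m) * ∑ z ∈ X, T r e z * x c z ^ 2 := by
          rw [Finset.mul_sum, Finset.mul_sum, ← Finset.sum_add_distrib]
          refine Finset.sum_le_sum fun z _ => ?_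
          have := mul_le_mul_of_nonneg_left (Dle r hr z) (T0 r hr e z)
          refine this.trans (le_of_eq (by ring))
        have h4 := mul_le_mul_of_nonneg_left (Sx r hr e he).2
          (by positivity : 0 ≤ Bu (u r) * (1 + (1 + q * m) * Bu (u r) / 4))
        have h5 := mul_le_mul_of_nonneg_left (Sxx r hr e he)
          (by positivity : 0 ≤ Bu (u r) * (q * m))
        have g1 := mul_le_mul_of_nonneg_left (pr1 e)
          (by positivity : 0 ≤ Bu (u r) * (1 + (1 + q * m) * Bu (u r) / 4))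
        have g2 := mul_le_mul_of_nonneg_left (pr2 e) (by positivity : 0 ≤ Bu (u r) * (q * m))
        have g3 := mul_le_mul_of_nonneg_left (add_le_add g1 g2)
          (mul_nonneg (Br0 r hr) (mul_nonneg (E0 r hr e) (Er0 r hr e)))
        have h6 := mul_le_mul_of_nonneg_left (hS.hAD _ (hk e) _ (uU r hr)) (Br0 r hr)
        rw [hx'.symm c e] at h1 h2
        refine le_trans (add_le_add (h1.trans (h2.trans (le_trans (le_of_eq ?_) g3)))
          (h3.trans (add_le_add h4 h5))) (le_trans (le_of_eq ?_) h6)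
        · ring
        · ring
      hP := fun e he r hr => by
        have Pe0 := mul_nonneg (ρ0 e) (Pf0 r hr e)
        have c0 := C4f_nonneg hC hZ hx τ1 q0 c e (sub hr)
        have b2 := Bu0 r hr
        have h1 : (∑ y ∈ X, T r e y) * (C4f Z x P B τ q c e r * ((1 - k e) * Pf (k e) (u r)))
            ≤ mb r * (Eu (k e) (u r) * (Er (k e) (u r) * ((1 - k e)
              - x e c * (1 - 2 / 9 * U)))) * (q * (1 + x c e * Bu (u r) + Bu (u r) / 4)
              * ((1 - k e) * Pf (k e) (u r))) :=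
          mul_le_mul (trow r hr e he) (mul_le_mul_of_nonneg_right (C4le r hr e) Pe0)
            (mul_nonneg c0 Pe0) (mul_nonneg (Br0 r hr) (mul_nonneg (E0 r hr e)
              (mul_nonneg (Er0 r hr e) (rξ e))))
        have g1 := mul_le_mul_of_nonneg_left (pr3 r hr e) (mul_nonneg (mul_nonneg
          (mul_nonneg (Br0 r hr) (mul_nonneg (E0 r hr e) (Er0 r hr e))) q0) Pe0)
        have h3 : ∑ z ∈ X, T r e z * (C4f Z x P B τ q c z r * ((1 - k z) * Pf (k z) (u r)))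
            ≤ q * ((1 + Bu (u r) / 4) * ∑ z ∈ X, T r e z * ((1 - k z) * Pf (k z) (u r))
              + Bu (u r) * ∑ z ∈ X, T r e z * (x c z * ((1 - k z) * Pf (k z) (u r)))) := by
          rw [Finset.mul_sum, Finset.mul_sum, ← Finset.sum_add_distrib, Finset.mul_sum]
          refine Finset.sum_le_sum fun z _ => ?_
          have := mul_le_mul_of_nonneg_left (mul_le_mul_of_nonneg_right (C4le r hr z)
            (mul_nonneg (ρ0 z) (Pf0 r hr z))) (T0 r hr e z)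
          refine this.trans (le_of_eq (by ring))
        have h4 := mul_le_mul_of_nonneg_left (SP r hr e he)
          (by positivity : 0 ≤ 1 + Bu (u r) / 4)
        have h5 := mul_le_mul_of_nonneg_left (SQ r hr e he) b2
        have h6 := mul_le_mul_of_nonneg_left (hS.hAP _ (hk e) _ (uU r hr)) (Br0 r hr)
        refine le_trans (add_le_add (h1.trans (le_trans (le_of_eq ?_) g1))
          (h3.trans (mul_le_mul_of_nonneg_left (add_le_add h4 h5) q0)))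
          (le_trans (le_of_eq ?_) h6)
        · ring
        · ring
      hs := fun e he r hr => (Finset.sum_le_sum_of_subset_of_nonneg (Finset.erase_subset _ _)
        fun f _ _ => hg.gm0 e f r (sub hr)).trans (hW.rm e (hXD e he) r (sub hr))
      hp := fun e he r hr => (Finset.sum_le_sum_of_subset_of_nonneg (Finset.erase_subset _ _)
        fun f _ _ => hg.gp0 e f r (sub hr)).trans (hW.rp e (hXD e he) r (sub hr))
      dn := fun e _ r hr => RCM.bk_deriv hs.1 (continuousOn_finsetSum _ fun f _ =>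
        (cT e f).mul ((hZ.Dd_cont hx s c f).mono (Icc_subset_Icc_right s1.2))) hr
      oP := fun e he r hr => by
        have h1 := SM r hr e he
        have h2 := mul_le_mul_of_nonneg_left (hS.oP _ (hk e) _ (uU r hr))
          (mul_nonneg (Br0 r hr) (ρ0 e))
        show ∑ b ∈ X, T r e b * ((1 - k b) * Mf (k b) (u r))
          + (1 - k e) * Gm (k e) (u r) * (mb r * AM (u r))
          + (1 - k e) * Gp (k e) (u r) * (mb r * AD (u r) + mb r * AP (u r))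
          ≤ -((1 - k e) * (Pf' (k e) (u r) * -mb r))
        nlinarith
      oM := fun e he r hr => by
        have b2 := Bu0 r hr
        have h1 : ∑ f ∈ X, K1 Z F x P r e f * Z.Dd x P s c f r
            ≤ Bu (u r) * ∑ f ∈ X, T r e f * x c f := by
          rw [Finset.mul_sum]
          refine Finset.sum_le_sum fun f _ => ?_
          have := mul_le_mul_of_nonneg_left (Ds r hr f) (T0 r hr e f)
          refine this.trans (le_of_eq (by ring))
        have h2 := mul_le_mul_of_nonneg_left (Sx r hr e he).1 b2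
        have h3 : ∑ b ∈ X, T r e b * (C1f Z x P τ q c b r * ((1 - k b) * Pf (k b) (u r)))
            ≤ q * (∑ b ∈ X, T r e b * ((1 - k b) * Pf (k b) (u r))
              + Bu (u r) * ∑ b ∈ X, T r e b * (x c b * ((1 - k b) * Pf (k b) (u r)))) := by
          rw [Finset.mul_sum, ← Finset.sum_add_distrib, Finset.mul_sum]
          refine Finset.sum_le_sum fun b _ => ?_
          have := mul_le_mul_of_nonneg_left (mul_le_mul_of_nonneg_right (C1le r hr b)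
            (mul_nonneg (ρ0 b) (Pf0 r hr b))) (T0 r hr e b)
          refine this.trans (le_of_eq (by ring))
        have h4 := mul_le_mul_of_nonneg_left (add_le_add (SP r hr e he)
          (mul_le_mul_of_nonneg_left (SQ r hr e he) b2)) q0
        have h5 := mul_le_mul_of_nonneg_left (hS.oM _ (hk e) _ (uU r hr))
          (mul_nonneg (Br0 r hr) (ρ0 e))
        show -(-(∑ f ∈ X, K1 Z F x P r e f * Z.Dd x P s c f r))
          + ∑ b ∈ X, T r e b * (C1f Z x P τ q c b r * ((1 - k b) * Pf (k b) (u r)))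
          + (1 - k e) * Gp (k e) (u r) * (mb r * AM (u r))
          + (1 - k e) * Gm (k e) (u r) * (mb r * AD (u r) + mb r * AP (u r))
          ≤ -((1 - k e) * (Mf' (k e) (u r) * -mb r))
        nlinarith }
    (fun e he => ?_) (fun e he => ?_)
  · exact fun e he r hr => (key e he r hr).1
  · have h1 := ep e he
    have h2 : gm c e s ≤ ∑ f ∈ Dᶜ, gm e f s := by
      rw [hW.ms c e s hs]
      exact Finset.single_le_sum (f := fun f => gm e f s) (fun f _ => hg.gm0 e f s hs) hc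
    have h3 := hW.rm e (hXD e he) s hs
    have h4 := mul_le_mul_of_nonneg_left (hS.eP _ (hk e) _ (hW.um s hs)) (ρ0 e)
    exact h1.trans (h2.trans (h3.trans h4))
  · have h1 := en e he
    have h2 : gp c e s ≤ ∑ f ∈ Dᶜ, gp e f s := by
      rw [hW.ps c e s hs]
      exact Finset.single_le_sum (f := fun f => gp e f s) (fun f _ => hg.gp0 e f s hs) hc
    have h3 := hW.rp e (hXD e he) s hs
    have h4 := mul_le_mul_of_nonneg_left (hS.eM _ (hk e) _ (hW.um s hs)) (ρ0 e)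
    have h5 : N1 Z F x P D s c e s = 0 := RCM.bk_self _ _
    show N1 Z F x P D s c e s + n e s ≤ (1 - k e) * Mf (k e) (u s)
    rw [h5, zero_add]
    exact h1.trans (h2.trans (h3.trans h4))

end Pool.Agent.RX.RCN.K
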