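import Pool.Agent.RX.RCM9.DatY
import Pool.Agent.RX.RCN.MBd

/-! The scalar data of the bounds of the tails with rational polynomials (MP_73ccd0_lc, route M). -/

set_option autoImplicit false

namespace Pool.Agent.RX.RCN.K

open Set Pool.Agent.RX.RCM9 Pool.Agent.RX.RCM9.Bern Pool.Agent.RX.RCM9.Pk

/-- polynomials in the clock `u`, and in `(k, u)` (outer list: powers of `k`) -/
structure MDat where
  U : ℚ
  q : ℚ
  m : ℚ
  ie : ℚ
  y : List ℚ
  B : List ℚ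
  Ey : List ℚ
  Eu : List (List ℚ)
  Er : List (List ℚ)
  Gp : List (List ℚ)
  Gm : List (List ℚ)
  Pf : List (List ℚ)
  Mf : List (List ℚ)
  FM : List ℚ
  FP : List ℚ
  FQ : List ℚ
  AM : List ℚ
  AP : List ℚ
  AD : List ℚ

/-- `v ↦ (e^v - 1) / v`, upper bound for `v ≤ 1` -/
def eT4 (v : E) : E := 1 + v * (1 + v * E.num 1 2 + v ^ 2 * E.num 1 6 + v ^ 3 * E.num 1 19)

namespace MDat

variable (g : MDat)

def k : E := vX
def u : E := qc g.U * vZ
def l : E := 1 - vX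
def yE : E := pe g.y g.u
def bE : E := pe g.B g.u
def vr : E := g.yE + (2 + k) * (g.u - g.yE) * E.num 1 3
def c2 : E := pe2 g.Eu k g.u
def r2 : E := pe2 g.Er k g.u
def p2 : E := pe2 g.Pf k g.u
def m2 : E := pe2 g.Mf k g.u
def gp2 : E := pe2 g.Gp k g.u
def gm2 : E := pe2 g.Gm k g.u
def b4 : E := 1 + g.bE * E.num 1 4
def kq : E := E.num 1 2 + E.num 3 4 * k
def qm : E := qc (g.q * g.m)
def bq : E := 1 + (1 + g.qm) * g.bE * E.num 1 4

/-- the conditions -/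
structure Pos : Prop where
  U0 : 0 < g.U
  U1 : g.U ≤ 1
  q0 : 0 ≤ g.q
  m0 : 0 ≤ g.m
  ie0 : 0 ≤ g.ie
  hie : 1 ≤ g.ie * (1 - 2 / 9 * g.U)
  y0 : NN g.yE
  yu : NN (g.u - g.yE)
  B0 : NN g.bE
  Bη : NN (qc (1 - 2 / 9 * g.U) * g.b4 - g.bE)
  ey : NN (pe g.Ey g.u - eT4 g.yE)
  eu : NN (g.c2 - eT4 (k * g.u + l * g.yE))
  er : NN (g.r2 - eT4 g.vr)
  P0 : NN g.p2
  M0 : NN g.m2
  hFM : NN (pe g.FM g.u - l * (g.c2 * g.m2))
  hFP : NN (pe g.FP g.u - l * (g.c2 * g.p2))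
  hFQ : NN (pe g.FQ g.u - l ^ 2 * (g.c2 * g.p2))
  hAM : NN (pe g.AM g.u - g.c2 * (l ^ 2 * (g.r2 * g.m2) + l * pe g.FM g.u))
  hAP : NN (pe g.AP g.u - qc g.q * g.c2 * (g.b4 * (l ^ 2 * (g.r2 * g.p2) + l * pe g.FP g.u)
    + g.bE * (l * kq) * pe g.FQ g.u))
  hAD : NN (pe g.AD g.u - g.c2 * g.bE * (g.r2 * (l ^ 2 * qc (g.ie / 4) * g.bq
    + l ^ 3 * qc (4 / 27 * g.ie ^ 2) * g.qm)
    + pe g.Ey g.u * (2 - k) * (g.bq * E.num 1 4 + E.num 4 27 * g.qm)))
  oP : NN (pe2 (g.Pf.map pd) k g.u - (g.c2 * pe g.FM g.u + g.gm2 * pe g.AM g.u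
    + g.gp2 * (pe g.AD g.u + pe g.AP g.u)))
  oM : NN (pe2 (g.Mf.map pd) k g.u - (g.c2 * (pe g.Ey g.u * g.bE * kq
    + qc g.q * (pe g.FP g.u + g.bE * kq * pe g.FQ g.u))
    + g.gp2 * pe g.AM g.u + g.gm2 * (pe g.AD g.u + pe g.AP g.u)))
  eP : NN (g.p2 - g.gm2)
  eM : NN (g.m2 - g.gp2)

variable {g}

/-- **the scalar data from the certificate** -/
theorem Pos.msc (h : g.Pos) : Msc (g.U : ℝ) (g.q : ℝ) (g.m : ℝ) (g.ie : ℝ) (pv g.y) (pv g.B)
    (pv2 g.Eu) (pv2 g.Er) (pv2 g.Gp) (pv2 g.Gm) (pv2 g.Pf) (pv2 (g.Pf.map pd)) (pv2 g.Mf)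
    (pv2 (g.Mf.map pd)) (pv g.Ey) (pv g.FM) (pv g.FP) (pv g.FQ) (pv g.AM) (pv g.AP)
    (pv g.AD) := by
  have U0 : (0 : ℝ) < g.U := by exact_mod_cast h.U0
  have U1 : (g.U : ℝ) ≤ 1 := by exact_mod_cast h.U1
  have h01 : (0 : ℝ) ∈ Icc (0 : ℝ) 1 := ⟨le_rfl, zero_le_one⟩
  have t0 : (0 : ℝ) ∈ Icc (0 : ℝ) RCN.bt := ⟨le_rfl, RCN.bt_nn⟩
  -- evaluation at a point
  have key : ∀ e : E, NN e → ∀ k ∈ Icc (0 : ℝ) 1, ∀ u ∈ Icc 0 (g.U : ℝ),
      0 ≤ e.val (pt' k (u / g.U) 0 0) := fun e he k hk u hu =>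
    he k (u / g.U) 0 0 hk ⟨div_nonneg hu.1 U0.le, (div_le_one U0).2 hu.2⟩ h01 t0
  have vu : ∀ k u, g.u.val (pt' k (u / g.U) 0 0) = u := fun k u => by
    show ((qc g.U).val _ * vZ.val _ : ℝ) = u
    rw [val_qc, val_vZ]
    exact mul_div_cancel₀ u U0.ne'
  have vk : ∀ k u, MDat.k.val (pt' k (u / g.U) 0 0) = k := fun k u => rfl
  have vl : ∀ k u, MDat.l.val (pt' k (u / g.U) 0 0) = 1 - k := fun k u => by
    show ((1 : E).val _ - vX.val _ : ℝ) = _
    rw [val_one, val_vX]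
  have n2 : ∀ ρ, (E.num 1 2).val ρ = 1 / 2 := val_hlf
  have n4 : ∀ ρ, (E.num 1 4).val ρ = 1 / 4 := fun ρ => by
    show (((1 : ℤ) : ℝ)) / ((4 : ℕ) : ℝ) = _
    norm_num
  have n34 : ∀ ρ, (E.num 3 4).val ρ = 3 / 4 := fun ρ => by
    show (((3 : ℤ) : ℝ)) / ((4 : ℕ) : ℝ) = _
    norm_num
  have n3 : ∀ ρ, (E.num 1 3).val ρ = 1 / 3 := fun ρ => by
    show (((1 : ℤ) : ℝ)) / ((3 : ℕ) : ℝ) = _
    norm_num
  have n6 : ∀ ρ, (E.num 1 6).val ρ = 1 / 6 := fun ρ => by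
    show (((1 : ℤ) : ℝ)) / ((6 : ℕ) : ℝ) = _
    norm_num
  have n19 : ∀ ρ, (E.num 1 19).val ρ = 1 / 19 := fun ρ => by
    show (((1 : ℤ) : ℝ)) / ((19 : ℕ) : ℝ) = _
    norm_num
  have n427 : ∀ ρ, (E.num 4 27).val ρ = 4 / 27 := fun ρ => by
    show (((4 : ℤ) : ℝ)) / ((27 : ℕ) : ℝ) = _
    norm_num
  have vy : ∀ k u, g.yE.val (pt' k (u / g.U) 0 0) = pv g.y u := fun k u => by
    unfold yE; rw [val_pe, vu]
  have vb : ∀ k u, g.bE.val (pt' k (u / g.U) 0 0) = pv g.B u := fun k u => by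
    unfold bE; rw [val_pe, vu]
  have vpe : ∀ (L : List ℚ) k u, (pe L g.u).val (pt' k (u / g.U) 0 0) = pv L u :=
    fun L k u => by rw [val_pe, vu]
  have vpe2 : ∀ (L : List (List ℚ)) k u,
      (pe2 L MDat.k g.u).val (pt' k (u / g.U) 0 0) = pv2 L k u := fun L k u => by
    rw [val_pe2, vu, vk]
  have vc : ∀ k u, g.c2.val (pt' k (u / g.U) 0 0) = pv2 g.Eu k u := vpe2 g.Eu
  have vr : ∀ k u, g.r2.val (pt' k (u / g.U) 0 0) = pv2 g.Er k u := vpe2 g.Er
  have vp : ∀ k u, g.p2.val (pt' k (u / g.U) 0 0) = pv2 g.Pf k u := vpe2 g.Pf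
  have vm : ∀ k u, g.m2.val (pt' k (u / g.U) 0 0) = pv2 g.Mf k u := vpe2 g.Mf
  have vgp : ∀ k u, g.gp2.val (pt' k (u / g.U) 0 0) = pv2 g.Gp k u := vpe2 g.Gp
  have vgm : ∀ k u, g.gm2.val (pt' k (u / g.U) 0 0) = pv2 g.Gm k u := vpe2 g.Gm
  have vb4 : ∀ k u, g.b4.val (pt' k (u / g.U) 0 0) = 1 + pv g.B u / 4 := fun k u => by
    show ((1 : E).val _ + g.bE.val _ * (E.num 1 4).val _ : ℝ) = _
    rw [val_one, vb, n4]; ring
  have vkq : ∀ k u, kq.val (pt' k (u / g.U) 0 0) = 1 / 2 + 3 / 4 * k := fun k u => by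
    show ((E.num 1 2).val _ + (E.num 3 4).val _ * MDat.k.val _ : ℝ) = _
    rw [n2, n34, vk]
  have vqm : ∀ ρ, g.qm.val ρ = g.q * g.m := fun ρ => by
    unfold qm; rw [val_qc]; push_cast; ring
  have vbq : ∀ k u, g.bq.val (pt' k (u / g.U) 0 0) = 1 + (1 + g.q * g.m) * pv g.B u / 4 :=
    fun k u => by
    show ((1 : E).val _ + ((1 : E).val _ + g.qm.val _) * g.bE.val _ * (E.num 1 4).val _ : ℝ) = _
    rw [val_one, vqm, vb, n4]; ring
  have y0 : ∀ u ∈ Icc 0 (g.U : ℝ), 0 ≤ pv g.y u := fun u hu => by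
    have := key _ h.y0 0 h01 u hu
    rwa [vy] at this
  have yu : ∀ u ∈ Icc 0 (g.U : ℝ), pv g.y u ≤ u := fun u hu => by
    have := key _ h.yu 0 h01 u hu
    rw [val_sub, vu, vy] at this
    linarith
  have eT : ∀ (v : E) (ρ : ℕ → ℝ), (eT4 v).val ρ = 1 + v.val ρ * (1 + v.val ρ / 2
      + v.val ρ ^ 2 / 6 + v.val ρ ^ 3 / 19) := fun v ρ => by
    show ((1 : E).val ρ + v.val ρ * ((1 : E).val ρ + v.val ρ * (E.num 1 2).val ρ
      + v.val ρ ^ 2 * (E.num 1 6).val ρ + v.val ρ ^ 3 * (E.num 1 19).val ρ) : ℝ) = _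
    rw [val_one, n2, n6, n19]; ring
  have ex : ∀ (v : E) (L : E), NN (L - eT4 v) → ∀ k ∈ Icc (0 : ℝ) 1, ∀ u ∈ Icc 0 (g.U : ℝ),
      0 ≤ v.val (pt' k (u / g.U) 0 0) → v.val (pt' k (u / g.U) 0 0) ≤ 1 →
      Real.exp (v.val (pt' k (u / g.U) 0 0)) ≤ L.val (pt' k (u / g.U) 0 0) :=
    fun v L hv k hk u hu h0 h1 => by
    have h2 := key _ hv k hk u hu
    rw [val_sub, eT] at h2
    have h3 := exp_le_T4 h0 h1
    linarith
  refine
    { U1 := U1
      q0 := by exact_mod_cast h.q0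
      m0 := by exact_mod_cast h.m0
      y0 := y0
      yu := yu
      B0 := fun u hu => by
        have := key _ h.B0 0 h01 u hu
        rwa [vb] at this
      ie0 := by exact_mod_cast h.ie0
      hie := by
        have h1 : ((1 : ℚ) : ℝ) ≤ ((g.ie * (1 - 2 / 9 * g.U) : ℚ) : ℝ) := Rat.cast_le.2 h.hie
        push_cast at h1
        exact h1
      Bη := fun u hu => ?_
      ey := fun u hu => ?_
      eu := fun k hk u hu => ?_
      er := fun k hk u hu => ?_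
      dP := fun k _ u _ => hasDerivAt_inner _ _ _
      dM := fun k _ u _ => hasDerivAt_inner _ _ _
      P0 := fun k hk u hu => by
        have := key _ h.P0 k hk u hu
        rwa [vp] at this
      M0 := fun k hk u hu => by
        have := key _ h.M0 k hk u hu
        rwa [vm] at this
      hFM := fun k hk u hu => ?_
      hFP := fun k hk u hu => ?_
      hFQ := fun k hk u hu => ?_
      hAM := fun k hk u hu => ?_
      hAP := fun k hk u hu => ?_
      hAD := fun k hk u hu => ?_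
      oP := fun k hk u hu => ?_
      oM := fun k hk u hu => ?_
      eP := fun k hk u hu => ?_
      eM := fun k hk u hu => ?_ }
  · have := key _ h.Bη 0 h01 u hu
    simp only [val_sub, val_mul, val_qc, vb4, vb] at this
    push_cast at this
    linarith
  · have h2 := ex g.yE _ h.ey 0 h01 u hu (by rw [vy]; exact y0 u hu)
      (by rw [vy]; exact (yu u hu).trans (hu.2.trans U1))
    rwa [vy, vpe] at h2
  · have vv : (MDat.k * g.u + MDat.l * g.yE).val (pt' k (u / g.U) 0 0)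
        = k * u + (1 - k) * pv g.y u := by
      rw [val_add, val_mul, val_mul, vk, vu, vl, vy]
    have a0 := mul_nonneg hk.1 hu.1
    have a1 := mul_nonneg (sub_nonneg.2 hk.2) (y0 u hu)
    have a2 := mul_le_mul_of_nonneg_left (yu u hu) (sub_nonneg.2 hk.2)
    have h2 := ex _ _ h.eu k hk u hu (by rw [vv]; linarith)
      (by rw [vv]; linarith [hu.2])
    rwa [vv, vc] at h2
  · have vv : g.vr.val (pt' k (u / g.U) 0 0)
        = pv g.y u + (2 + k) * (u - pv g.y u) / 3 := by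
      show (g.yE.val _ + ((2 : E).val _ + MDat.k.val _) * (g.u.val _ - g.yE.val _)
        * (E.num 1 3).val _ : ℝ) = _
      rw [vy, vu, vk, val_two, n3]; ring
    have a0 : 0 ≤ (2 + k) * (u - pv g.y u) := mul_nonneg (by linarith [hk.1])
      (sub_nonneg.2 (yu u hu))
    have a1 : (2 + k) * (u - pv g.y u) ≤ 3 * (u - pv g.y u) :=
      mul_le_mul_of_nonneg_right (by linarith [hk.2]) (sub_nonneg.2 (yu u hu))
    have h2 := ex _ _ h.er k hk u hu (by rw [vv]; linarith [y0 u hu])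
      (by rw [vv]; linarith [hu.2])
    rwa [vv, vr] at h2
  · have := key _ h.hFM k hk u hu
    simp only [val_sub, val_mul, vpe, vl, vc, vm] at this
    linarith
  · have := key _ h.hFP k hk u hu
    simp only [val_sub, val_mul, vpe, vl, vc, vp] at this
    linarith
  · have := key _ h.hFQ k hk u hu
    simp only [val_sub, val_mul, val_pow, vpe, vl, vc, vp] at this
    linarith
  · have := key _ h.hAM k hk u hu
    simp only [val_sub, val_mul, val_pow, val_add, vpe, vl, vc, vm, vr] at this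
    linarith
  · have := key _ h.hAP k hk u hu
    simp only [val_sub, val_mul, val_pow, val_add, vpe, vl, vc, vp, vr, vb4, vb, vkq,
      val_qc] at this
    linarith
  · have := key _ h.hAD k hk u hu
    simp only [val_sub, val_mul, val_pow, val_add, vpe, vl, vc, vr, vbq, vb, vqm, vk,
      val_qc, val_two, n4, n427] at this
    push_cast at this
    refine le_of_sub_nonneg (this.trans (le_of_eq ?_))
    ring
  · have := key _ h.oP k hk u hu
    simp only [val_sub, val_mul, val_add, vpe, vpe2, vc, vgp, vgm] at this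
    linarith
  · have := key _ h.oM k hk u hu
    simp only [val_sub, val_mul, val_add, vpe, vpe2, vc, vgp, vgm, vb, vkq, val_qc] at this
    linarith
  · have := key _ h.eP k hk u hu
    rw [val_sub, vp, vgm] at this
    linarith
  · have := key _ h.eM k hk u hu
    rw [val_sub, vm, vgp] at this
    linarith

end MDat

end Pool.Agent.RX.RCN.K
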