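import Pool.Agent.RX.RCN.Bt
import Pool.Agent.RX.RCN.Ck1

/-! The structures and the checks (Bool) of the numeric cells (MP_73ccd0_lc, route M). -/

set_option autoImplicit false

namespace Pool.Agent.RX.RCN.K

open Pool.Agent.RX.RCM9 Pool.Agent.RX.RCN.Ck1

/-- the lists of the first part -/
structure T1l where
  be0 : List ℚ
  be1 : List ℚ
  mb : List ℚ
  kc : List ℚ
  ke : List ℚ
  al : List ℚ
  kt : List ℚ
  p0 : List ℚ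
  p1 : List ℚ
  p2 : List ℚ
  q0 : List ℚ
  Cl : List ℚ
  P0 : List ℚ
  P1 : List ℚ
  P2 : List ℚ
  Q0 : List ℚ
  S0 : List ℚ
  G2 : List ℚ
  H0 : List ℚ
  HC : List ℚ
  H2 : List ℚ
  IC : List ℚ
  Yl : List ℚ
  ee : ℚ
  bB : ℚ
  β : ℚ
  cE : ℚ

/-- the derived lists -/
def T1l.ax (l : T1l) : Bool :=
  decide (l.Cl = pri l.mb) && decide (l.P0 = pri l.p0) && decide (l.P1 = pri l.p1)
    && decide (l.P2 = pri l.p2) && decide (l.Q0 = pri l.q0) && decide (l.S0 = pri (lmul l.p0 l.Cl))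
    && decide (l.G2 = pri (lmul l.p0 (lmul l.Cl l.Cl))) && decide (l.H0 = pri l.P0)
    && decide (l.HC = pri (lmul l.P0 l.Cl))
    && decide (l.H2 = pri (lmul l.P0 (lmul l.Cl l.Cl))) && decide (l.IC = pri l.Cl)

/-- the polynomial of `ex4 (q δ)` -/
def e4 (δ : ℚ) : List ℚ := [1, δ, δ ^ 2 / 2, δ ^ 3 / 6, δ ^ 4 * (5 / 96)]

def e4q (z : ℚ) : ℚ := 1 + z + z ^ 2 / 2 + z ^ 3 / 6 + z ^ 4 * (5 / 96)

namespace T1k

variable (l : T1l) (D : ℤ) (n m : ℕ)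

end T1k

/-- the global checks -/
def T1l.okG (l : T1l) (D : ℤ) (n : ℕ) (τ : ℚ) : Bool :=
  decide (0 ≤ l.bB) && decide (0 ≤ l.β) && decide (l.β ≤ 1) && decide (1 ≤ l.cE)
  && decide (btq ≤ τ)
  && nn D n 0 τ (lsub l.be0 [1])
  && nn D n 0 τ (lsub [l.β] l.be1)
  && nn D n 0 (1 / 2) (lsub [l.cE] (lmul [1, -1 / 2] [1, l.β]))
  && nn D n (1 / 2) 1 (lsub [l.cE] (lmul [1, -1 / 2] [1 + l.β / 2]))
  && nn D n 0 τ (lsub (lmul [1, 2, 1] l.p0) (lmul l.be0 l.ke))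
  && nn D n 0 τ (lsub (lmul [1, 2, 1] l.p1) (lmul (ladd l.be1 (lsub [1] l.be0)) l.ke))
  && nn D n 0 τ (lsmul (-1) l.P1.tail)
  && nn D n 0 τ (lsub (ladd l.be1 (lsub [1] l.be0)) (lmul [1, 2, 1] l.p2))
  && nn D n 0 τ (lsub l.be0 (lmul [1, 2, 1] l.q0))

/-- upper bound of `(1 - k) (1 + 3 k / 5) e^{k c}` -/
def Mh : List ℚ := [10008 / 10000, 3649 / 50000, -49043 / 100000, 98947 / 100000, -14603 / 25000,
  13039 / 100000]

/-- the polynomial of `ex4 ∘ z` -/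
def e4l (z : List ℚ) : List ℚ :=
  ladd [1] (lmul z (ladd [1] (lmul z (ladd [1 / 2] (lmul z (ladd [1 / 6]
    (lsmul (5 / 96) z)))))))

/-- composition of lists -/
def cmpl : List ℚ → List ℚ → List ℚ
  | [], _ => []
  | c :: l, z => ladd [c] (lmul z (cmpl l z))

namespace Xl

variable (D : ℤ) (n : ℕ)

end Xl

/-- the numbers of the rows of a numeric cell -/
structure X1k where
  Ca : ℚ
  Am : ℚ
  W : ℚ
  k0 : ℚ
  κ0 : ℚ

namespace X1k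

variable (e : X1k)

end X1k

/-- lists in the clock `u ∈ [0, Ug]`; `hV hW hw h1` are the rates of the adjoint functions -/
structure Yl where
  Ug : ℚ
  m : ℚ
  q : ℚ
  b1 : ℚ
  c0 : ℚ
  r0 : ℚ
  dlt : ℚ
  z : List ℚ
  dl : List ℚ
  μ1 : List ℚ
  μk : List ℚ
  μ2 : List ℚ
  ex : List ℚ
  R : List ℚ
  kE : List ℚ
  kk : List ℚ
  k1 : List ℚ
  FM : List ℚ
  FP : List ℚ
  AM : List ℚ
  AP : List ℚ
  Gp : List ℚ
  Gm : List ℚ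
  WT : List ℚ
  VT : List ℚ
  UT : List ℚ
  al : List ℚ
  ga : List ℚ
  hV : List ℚ
  hW : List ℚ
  hw : List ℚ
  h1 : List ℚ

namespace Yl

variable (l : Yl)

def x3l : List ℚ := [0, l.q * l.m * l.b1, (1 + l.q * l.m) * (1 - l.r0) ^ 2 / 4 * l.b1 ^ 2]

def b3l : List ℚ := ladd [0, l.b1] l.x3l

def C1l : List ℚ := [l.q, l.q * l.b1]

def C4l : List ℚ := [l.q, l.q * (l.b1 * (5 / 4))]

/-- the adjoint functions at the end of the group -/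
def GV : List ℚ := lsub [evq (pri l.hV) l.Ug] (pri l.hV)

def GW : List ℚ := lsub [l.dlt + evq (pri l.hW) l.Ug] (pri l.hW)

def Gw : List ℚ := lsub [evq (pri l.hw) l.Ug] (pri l.hw)

variable (D : ℤ) (n : ℕ)

/-- numbers, gauge and kernel -/
def okA : Bool :=
  decide (0 < l.Ug) && decide (0 ≤ l.m) && decide (0 ≤ l.q) && decide (0 ≤ l.b1)
  && decide (0 ≤ l.r0) && decide (l.r0 ≤ 1)
  && decide (l.r0 * ((1 + l.q * l.m) * (l.b1 * l.Ug)) ≤ l.q * l.m)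
  && decide (1 ≤ l.c0) && decide (l.c0 ≤ 2) && decide (0 ≤ l.dlt)
  && nn D n 0 l.Ug l.z && nn D n 0 l.Ug l.dl
  && nn D n 0 l.Ug (pd l.z) && nn D n 0 l.Ug (pd l.dl)
  && nn D n 0 l.Ug (lsub [3 / 4] l.dl) && nn D n 0 l.Ug (lsub [l.c0] (lsmul 2 l.dl))
  && nn D n 0 l.Ug (lsub [1] (ladd (lsmul 2 l.z) (lsmul (2 / 3) l.dl)))
  && nn D n 0 l.Ug (lsub l.μ1 (e4l l.z))
  && nn D n 0 l.Ug (lsub l.μk (lsmul (e4q (l.c0 - 1) / l.c0) (e4l (lsmul 2 l.z))))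
  && nn D n 0 l.Ug (lsub l.μ2 (lmul (cmpl Mh (lsmul 2 l.dl)) (e4l (lsmul 2 l.z))))
  && nn D n 0 l.Ug (lsub l.ex (e4l (ladd l.z (lsmul (2 / 3) l.dl))))
  && nn D n 0 l.Ug (lsub l.R (e4l (ladd (lsmul 2 l.z) (lsmul (2 / 3) l.dl))))
  && nn D n 0 l.Ug (lsub l.kE (lmul l.μ2 (ladd l.ex l.μ1)))
  && nn D n 0 l.Ug (lsub l.kk (lmul l.μk (ladd l.ex l.μ1)))
  && nn D n 0 l.Ug (lsub l.k1 (lmul l.μ1 (ladd l.ex l.μ1)))

/-- the chain -/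
def okB : Bool :=
  nn D n 0 l.Ug l.Gp && nn D n 0 l.Ug l.Gm
  && nn D n 0 l.Ug l.WT && nn D n 0 l.Ug l.VT && nn D n 0 l.Ug l.UT
  && nn D n 0 l.Ug (lsub (pd l.WT) (lmul l.μ1 [0, l.b1]))
  && nn D n 0 l.Ug (lsub l.al (ladd (lmul l.kE l.UT) (lmul l.kk l.WT)))
  && nn D n 0 l.Ug (lsub l.ga (ladd (lmul l.k1 l.b3l) (lmul l.kE (lmul l.C4l l.VT))))
  && nn D n 0 l.Ug (lsub (pd l.VT) (ladd (ladd (lmul l.μ2 l.UT) (lmul l.μk l.WT))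
    (ladd (lmul l.Gm l.al) (lmul l.Gp l.ga))))
  && nn D n 0 l.Ug (lsub (pd l.UT) (ladd (lmul l.μ2 (lmul l.C1l l.VT))
    (ladd (lmul l.Gp l.al) (lmul l.Gm l.ga))))

/-- the adjoint functions -/
def okC : Bool :=
  nn D n 0 l.Ug l.hV && nn D n 0 l.Ug l.hW && nn D n 0 l.Ug l.hw && nn D n 0 l.Ug l.h1
  && nn D n 0 l.Ug (lsub l.hV (ladd (lmul (lmul l.AP l.C4l) l.GV)
    (ladd (lmul (ladd (lmul l.R l.C1l) (lmul l.AM l.C4l)) (ladd [1] l.GW)) (lmul l.C4l l.al))))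
  && nn D n 0 l.Ug (lsub l.hW (ladd (lmul (ladd l.R l.AM) l.GV)
    (ladd (lmul l.AP (ladd [1] l.GW)) l.ga)))
  && nn D n 0 l.Ug (lsub l.hw (ladd (ladd (lmul l.AP l.GV) (lmul l.AM (ladd [1] l.GW)))
    (ladd (lmul l.R l.GW) l.al)))
  && nn D n 0 l.Ug (lsub l.h1 (ladd (lsmul l.b1 l.Gw) (lmul l.x3l
    (ladd (lmul l.AP l.GV) (ladd (lmul l.AM (ladd [1] l.GW)) l.al)))))

def ok : Bool := l.okA D n && l.okB D n && l.okC D n

end Yl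

theorem Yl.ok_mk {l : Yl} {D : ℤ} {n : ℕ} (a : l.okA D n = true) (b : l.okB D n = true)
    (d : l.okC D n = true) : l.ok D n = true := by
  unfold Yl.ok
  rw [a, b, d]
  rfl

/-- the lists of the rows: `Gm0` the row of level 1/2 at time 0, `D1 D2` the rates of the insertion
term, `dlt`, `dd` numbers, `dr` the direct part -/
structure Rl where
  Ug : ℚ
  dlt : ℚ
  dd : ℚ
  z : List ℚ
  dl : List ℚ
  Gm0 : List ℚ
  Gm : List ℚ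
  Gp : List ℚ
  WT : List ℚ
  VT : List ℚ
  UT : List ℚ
  D1 : List ℚ
  D2 : List ℚ
  hV : List ℚ
  hW : List ℚ
  h1 : List ℚ
  dr : List ℚ

namespace Rl

variable (l : Rl)

/-- the checks -/
def okM (D : ℤ) (n : ℕ) : Bool :=
  decide (0 ≤ l.dlt) && decide (0 ≤ l.dd)
  && nn D n 0 l.Ug l.z && nn D n 0 l.Ug l.dl && nn D n 0 l.Ug (pd l.z)
  && nn D n 0 l.Ug (pd l.dl) && nn D n 0 l.Ug l.Gm0 && nn D n 0 l.Ug (pd l.Gm0)
  && nn D n 0 l.Ug l.Gm && nn D n 0 l.Ug l.Gp && nn D n 0 l.Ug l.WT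
  && nn D n 0 l.Ug (pd l.WT) && nn D n 0 l.Ug l.VT && nn D n 0 l.Ug l.UT
  && nn D n 0 l.Ug (pd l.UT) && nn D n 0 l.Ug l.D1 && nn D n 0 l.Ug l.D2
  && nn D n 0 l.Ug l.hV && nn D n 0 l.Ug l.hW && nn D n 0 l.Ug l.h1

end Rl

namespace X1k

variable (e : X1k) (l : Rl)

end X1k

end Pool.Agent.RX.RCN.K
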