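import Pool.Agent.RX.RCN.KleA
import Pool.Agent.RX.RCRSHalf.Ode

/-! The first part of the inequality of the centres: the scalar conditions of a cell
(MP_73ccd0_lc, route M). -/

namespace Pool.Agent.RX.RCN.K

open Set Finset MeasureTheory Pool.Agent.RX.RCRSHalf

set_option linter.unusedSectionVars false

/-! ### elementary facts -/

/-- an upper bound of the exponential on `[0, 1]` -/
noncomputable def ex4 (z : ℝ) : ℝ := 1 + z + z ^ 2 / 2 + z ^ 3 / 6 + z ^ 4 * (5 / 96)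

theorem exp_le_ex4 {z : ℝ} (h0 : 0 ≤ z) (h1 : z ≤ 1) : Real.exp z ≤ ex4 z := by
  have h := Real.exp_bound' h0 h1 (n := 4) (by norm_num)
  simp only [Finset.sum_range_succ, Finset.sum_range_zero, Nat.factorial] at h
  norm_num at h
  unfold ex4
  linarith

theorem ex4_nonneg {z : ℝ} (h0 : 0 ≤ z) : 0 ≤ ex4 z := by
  unfold ex4; positivity

/-! ### the functions -/

/-- the functions of the first part and their bounds on `[0, τ]` -/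
structure T1g (k : Kf) (B : ℝ → ℝ → ℝ) (κd : ℝ → ℝ → ℝ → ℝ) (τ : ℝ)
    (b0 b1 mb C kc ke p0 p1 p2 q0 : ℝ → ℝ) (ee bB β cE : ℝ) : Prop where
  τ0 : 0 ≤ τ
  τ1 : τ ≤ bt
  b : ∀ y s, k.b y s = 1 + (1 - y) * (b0 s - 1) + eta y * b1 s
  Pe : ∀ w t, k.Pe w t = (1 + w * t) * (1 + ee * t)
  κ : ∀ w t s, κd w t s = (1 + w * t) * (1 + ee * t) * (kc t * ke s)
  cb0 : ContinuousOn b0 (Icc 0 τ)
  cb1 : ContinuousOn b1 (Icc 0 τ)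
  cke : ContinuousOn ke (Icc 0 τ)
  cm : ContinuousOn mb (Icc 0 τ)
  cC : ContinuousOn C (Icc 0 τ)
  cp0 : ContinuousOn p0 (Icc 0 τ)
  cp1 : ContinuousOn p1 (Icc 0 τ)
  cp2 : ContinuousOn p2 (Icc 0 τ)
  cq0 : ContinuousOn q0 (Icc 0 τ)
  cB : ∀ s ∈ Icc 0 τ, ContinuousOn (fun ρ => B s ρ) (Icc 0 s)
  ee0 : 0 ≤ ee
  bB0 : 0 ≤ bB
  β0 : 0 ≤ β
  b01 : ∀ s ∈ Icc 0 τ, 1 ≤ b0 s
  b1β : ∀ s ∈ Icc 0 τ, b1 s ≤ β
  β1 : β ≤ 1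
  cE1 : 1 ≤ cE
  cE2 : ∀ y ∈ Icc (0 : ℝ) 1, (1 - y / 2) * (1 + β * eta y) ≤ cE
  ke1 : ∀ s ∈ Icc 0 τ, 1 ≤ ke s
  kc1 : ∀ t ∈ Icc 0 τ, 1 ≤ kc t
  hp0 : ∀ s ∈ Icc 0 τ, b0 s * ke s ≤ p0 s * (1 + s) ^ 2
  hp1 : ∀ s ∈ Icc 0 τ, (b1 s - b0 s + 1) * ke s ≤ p1 s * (1 + s) ^ 2
  hP1 : ∀ s ∈ Icc 0 τ, ∫ r in (0 : ℝ)..s, p1 r ≤ 0
  hp2 : ∀ s ∈ Icc 0 τ, p2 s * (1 + s) ^ 2 ≤ b1 s - b0 s + 1
  hq0 : ∀ s ∈ Icc 0 τ, q0 s * (1 + s) ^ 2 ≤ b0 s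
  fb : ∀ y ∈ Icc (0 : ℝ) 1, ∀ s ∈ Icc 0 τ, 0 ≤ k.fh y s
  m1 : ∀ s ∈ Icc 0 τ, 1 ≤ mb s
  C0 : C 0 = 0
  dC : ∀ s ∈ Icc 0 τ, HasDerivAt C (mb s) s
  hB : ∀ s ∈ Icc 0 τ, ∀ r ∈ Icc 0 s, B s r ≤ bB * (C s - C r)

variable {k : Kf} {B : ℝ → ℝ → ℝ} {κd : ℝ → ℝ → ℝ → ℝ} {τ t : ℝ}
  {b0 b1 mb C kc ke p0 p1 p2 q0 : ℝ → ℝ} {ee bB β cE : ℝ}

section

variable (h : T1g k B κd τ b0 b1 mb C kc ke p0 p1 p2 q0 ee bB β cE)

include h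

theorem T1g.q0' {s : ℝ} (hs : s ∈ Icc 0 τ) : 0 < ((1 + s) ^ 2)⁻¹ := by
  have := hs.1
  positivity

theorem T1g.C_mono {r s : ℝ} (hr : 0 ≤ r) (hrs : r ≤ s) (hs : s ≤ τ) : C r + (s - r) ≤ C s := by
  have key := nonneg_of_forward (a := r) (s := s)
    (U := fun z => C z - C r - (z - r)) (U' := fun z => mb z - 0 - (1 - 0))
    (fun z hz => ((h.dC z ⟨hr.trans hz.1, hz.2.trans hs⟩).sub (hasDerivAt_const _ _)).sub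
      ((hasDerivAt_id z).sub (hasDerivAt_const _ _)))
    (by simp)
    (fun z hz _ => by
      have := h.m1 z ⟨hr.trans hz.1, hz.2.trans hs⟩
      linarith)
    s ⟨hrs, le_rfl⟩
  linarith

theorem T1g.C_nn {s : ℝ} (hs : s ∈ Icc 0 τ) : 0 ≤ C s := by
  have := h.C_mono le_rfl hs.1 hs.2
  rw [h.C0] at this
  linarith [hs.1]

theorem T1g.C_le {s : ℝ} (hs : s ∈ Icc 0 τ) : C s ≤ C τ := by
  have := h.C_mono hs.1 hs.2 le_rfl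
  linarith [hs.2]

/-- the first kernel function -/
theorem T1g.p0n {s : ℝ} (hs : s ∈ Icc 0 τ) : b0 s * ((1 + s) ^ 2)⁻¹ * ke s ≤ p0 s ∧ 0 ≤ p0 s := by
  have h1 := h.hp0 s hs
  have q := h.q0' hs
  have h2 : (1 + s) ^ 2 ≠ 0 := by have := hs.1; positivity
  have e : b0 s * ((1 + s) ^ 2)⁻¹ * ke s ≤ p0 s := by
    have := mul_le_mul_of_nonneg_right h1 q.le
    rw [mul_assoc (p0 s), mul_inv_cancel₀ h2, mul_one] at this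
    calc _ = b0 s * ke s * ((1 + s) ^ 2)⁻¹ := by ring
      _ ≤ _ := this
  refine ⟨e, le_trans ?_ e⟩
  have a := h.b01 s hs
  have b := h.ke1 s hs
  have := q.le
  positivity

theorem T1g.p1n {s : ℝ} (hs : s ∈ Icc 0 τ) :
    (b1 s - b0 s + 1) * ((1 + s) ^ 2)⁻¹ * ke s ≤ p1 s := by
  have h1 := h.hp1 s hs
  have q := h.q0' hs
  have h2 : (1 + s) ^ 2 ≠ 0 := by have := hs.1; positivity
  have := mul_le_mul_of_nonneg_right h1 q.le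
  rw [mul_assoc (p1 s), mul_inv_cancel₀ h2, mul_one] at this
  calc _ = (b1 s - b0 s + 1) * ke s * ((1 + s) ^ 2)⁻¹ := by ring
    _ ≤ _ := this

theorem T1g.p2n {s : ℝ} (hs : s ∈ Icc 0 τ) :
    p2 s ≤ (b1 s - b0 s + 1) * ((1 + s) ^ 2)⁻¹ := by
  have h1 := h.hp2 s hs
  have q := h.q0' hs
  have h2 : (1 + s) ^ 2 ≠ 0 := by have := hs.1; positivity
  have := mul_le_mul_of_nonneg_right h1 q.le
  rwa [mul_assoc (p2 s), mul_inv_cancel₀ h2, mul_one] at this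

theorem T1g.q0n {s : ℝ} (hs : s ∈ Icc 0 τ) : q0 s ≤ b0 s * ((1 + s) ^ 2)⁻¹ := by
  have h1 := h.hq0 s hs
  have q := h.q0' hs
  have h2 : (1 + s) ^ 2 ≠ 0 := by have := hs.1; positivity
  have := mul_le_mul_of_nonneg_right h1 q.le
  rwa [mul_assoc (q0 s), mul_inv_cancel₀ h2, mul_one] at this

/-- the densities, by the value at `0` and the slope -/
theorem T1g.b_le (y : ℝ) {s : ℝ} (hs : s ∈ Icc 0 τ) :
    k.b y s ≤ b0 s + eta y * (b1 s - b0 s + 1) := by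
  rw [h.b]
  have h1 := h.b01 s hs
  have h2 := eta_le y
  have := mul_le_mul_of_nonneg_right h2 (show 0 ≤ b0 s - 1 by linarith)
  linarith

theorem T1g.cfh (hfc : ∀ y ∈ Icc (0 : ℝ) 1, ContinuousOn (k.fh y) (Icc 0 bt)) {y : ℝ}
    (hy : y ∈ Icc (0 : ℝ) 1) : ContinuousOn (k.fh y) (Icc 0 τ) :=
  (hfc y hy).mono (Icc_subset_Icc_right h.τ1)

end

/-! ### the numbers of a cell -/

section

variable {K kv Cv Y δ eY ω oA oP cw M2 v0 mM ωH IA x1 x20 x21 y20 y21 α0 mt CC κh κε e0 e1 εh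
  g0 g1 g2 h0 h1 h2 RA RH EA EH c0 c1 k1 : ℝ}
variable (h : T1g k B κd τ b0 b1 mb C kc ke p0 p1 p2 q0 ee bB β cE) (hfc : ∀ y ∈ Icc (0 : ℝ) 1, ContinuousOn (k.fh y) (Icc 0 bt))

include h

end

section main

variable {V : Type*} [Fintype V] [DecidableEq V] {x : V → V → ℝ} {P : V → Prop} [DecidablePred P] {sl : ℝ → ℝ → ℝ} {E1 : ℝ → ℝ → ℝ} {N : ℕ} {R : V → V → V → ℝ → ℝ → ℝ} {L Lt : V → V → V → V → ℝ → ℝ → ℝ} {A : ℝ → ℝ → ℝ}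

variable {K kv Cv Y δ eY ω oA oP cw M2 v0 mM ωH IA x1 x20 x21 y20 y21 α0 mt CC κh κε e0 e1 εh
  g0 g1 g2 h0 h1 h2 RA RH EA EH c0 c1 k1 : ℝ}

end main

end Pool.Agent.RX.RCN.K
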