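import Pool.Agent.RX.RCM9.Dat
import Pool.Agent.RX.RCN.CkD
import Pool.Agent.RX.RCN.T1H_1

/-! Rows and columns of the closure exponents of a cell: the lists (MP_73ccd0_lc, route M). -/

namespace Pool.Agent.RX.RCN.K

open Set Finset Pool.Agent.RX.RCRSHalf Pool.Agent.RX.RCM9 Pool.Agent.RX.RCM9.Bern Pool.Agent.RX.RCM9.Pk
  Pool.Agent.RX.RCN.Ck1

set_option linter.unusedSectionVars false

/-! ### the maximum over the strip -/

/-- its inequality, `k = X`, `c = 3 Z / 2` -/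
def fMh : E := pe Mh (qc (3 / 2) * vZ) - (1 - E.var 0) * (1 + qc (3 / 5) * E.var 0)
  * (1 + qc (3 / 4) * vZ * E.var 0 + qc (1 / 2) * (qc (3 / 4) * vZ * E.var 0) ^ 2
    + qc (1 / 6) * (qc (3 / 4) * vZ * E.var 0) ^ 3
    + qc (5 / 96) * (qc (3 / 4) * vZ * E.var 0) ^ 4) ^ 2

theorem fMh_nn : NN fMh :=
  NN.of (K := 161) (D := ⟨11, 9, 1, 1⟩) (Box.of 5261471862307686472 (by decide +kernel))
    (by decide +kernel)

theorem Mh_le {k c : ℝ} (hk : k ∈ Icc (0 : ℝ) 1) (hc : c ∈ Icc (0 : ℝ) (3 / 2)) :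
    (1 - k) * ((1 + 3 / 5 * k) * Real.exp (k * c)) ≤ pv Mh c := by
  have hZ : c / (3 / 2) ∈ Icc (0 : ℝ) 1 :=
    ⟨div_nonneg hc.1 (by norm_num), (div_le_one (by norm_num)).2 hc.2⟩
  have h1 := fMh_nn k (c / (3 / 2)) 0 0 hk hZ ⟨le_rfl, zero_le_one⟩ ⟨le_rfl, bt_nn⟩
  simp only [fMh, val_sub, val_mul, val_add, val_one, val_pow, val_pe, val_qc, vZ, val_var] at h1
  have e1 : pt' k (c / (3 / 2)) 0 0 0 = k := rfl
  have e2 : pt' k (c / (3 / 2)) 0 0 1 = c / (3 / 2) := rfl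
  rw [e1, e2] at h1
  push_cast at h1
  have e3 : (3 : ℝ) / 2 * (c / (3 / 2)) = c := by ring
  rw [e3] at h1
  have w0 : 0 ≤ k * c / 2 := div_nonneg (mul_nonneg hk.1 hc.1) (by norm_num)
  have w1 : k * c / 2 ≤ 1 := by
    have := mul_le_mul hk.2 hc.2 hc.1 zero_le_one
    linarith
  have h2 := exp_le_ex4 w0 w1
  have h3 : Real.exp (k * c) ≤ ex4 (k * c / 2) ^ 2 := by
    have : Real.exp (k * c) = Real.exp (k * c / 2) ^ 2 := by
      rw [← Real.exp_nat_mul]
      congr 1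
      push_cast
      ring
    rw [this]
    exact pow_le_pow_left₀ (Real.exp_pos _).le h2 2
  have a0 : 0 ≤ (1 - k) * (1 + 3 / 5 * k) :=
    mul_nonneg (by linarith [hk.2]) (by linarith [hk.1])
  have h4 := mul_le_mul_of_nonneg_left h3 a0
  unfold ex4 at h4
  refine le_trans (le_of_eq (by ring)) (h4.trans ?_)
  linarith

/-- the factor without gauge -/
theorem sl_le {k c : ℝ} (hk : k ∈ Icc (0 : ℝ) 1) (hc : c ≤ 1) :
    Real.exp (k * c) * (1 - k) ≤ 1 := by
  have h1 : Real.exp (k * c) ≤ Real.exp k := by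
    refine Real.exp_le_exp.2 ?_
    have := mul_le_mul_of_nonneg_left hc hk.1
    linarith
  have h2 := Real.add_one_le_exp (-k)
  have h3 : Real.exp (-k) * Real.exp k = 1 := by
    rw [← Real.exp_add]; simp
  have h4 := mul_le_mul_of_nonneg_right h2 (Real.exp_pos k).le
  have h5 := mul_le_mul_of_nonneg_right h1 (by linarith [hk.2] : 0 ≤ 1 - k)
  linarith

/-! ### composed lists -/

theorem pv_e4l (z : List ℚ) (u : ℝ) : pv (e4l z) u = ex4 (pv z u) := by
  simp only [e4l, pv_ladd, pv_lmul, pv_lsmul, pv, ex4]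
  push_cast
  ring

theorem pv_cmpl (l z : List ℚ) (u : ℝ) : pv (cmpl l z) u = pv l (pv z u) := by
  induction l with
  | nil => simp [cmpl, pv]
  | cons c l ih => simp [cmpl, pv_ladd, pv_lmul, pv, ih]

/-! ### the lists -/

namespace Xl

variable {D : ℤ} {n : ℕ}

theorem pri_sub_nonneg {p : List ℚ} {U : ℝ} (h : ∀ u ∈ Icc 0 U, 0 ≤ pv p u) {u : ℝ}
    (hu : u ∈ Icc 0 U) : 0 ≤ pv (pri p) U - pv (pri p) u := by
  have key := nonneg_of_forward (a := u) (s := U)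
    (U := fun z => pv (pri p) z - pv (pri p) u) (U' := fun z => pv p z - 0)
    (fun z _ => (hasDerivAt_pri p z).sub (hasDerivAt_const _ _)) (by simp)
    (fun z hz _ => by
      have := h z ⟨hu.1.trans hz.1, hz.2⟩
      linarith)
    U ⟨hu.2, le_rfl⟩
  exact key

theorem dneg_pri (p : List ℚ) (U u : ℝ) :
    HasDerivAt (fun u => pv (pri p) U - pv (pri p) u) (-pv p u) u := by
  have := (hasDerivAt_pri p u).const_sub (pv (pri p) U)
  exact this

end Xl

end Pool.Agent.RX.RCN.K
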