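import Pool.Agent.RX.RCN.YkB

/-! Two-time rows of the closure exponents: the scalar functions as functions of the clock
(MP_73ccd0_lc, route M). -/

namespace Pool.Agent.RX.RCN.K

open Set Finset MeasureTheory Pool.Agent.RX.RCRSHalf Pool.Agent.RX.RCG Pool.Agent.RX.RCG.Ct

set_option linter.unusedSectionVars false

/-- functions of the clock; `gV gW gw g1` decrease, their derivatives are `-gV' ..` -/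
structure Yf where
  lam : ℝ
  U : ℝ
  m : ℝ
  q : ℝ
  b1 : ℝ
  z : ℝ → ℝ
  z' : ℝ → ℝ
  dl : ℝ → ℝ
  dl' : ℝ → ℝ
  μ1 : ℝ → ℝ
  μk : ℝ → ℝ
  μ2 : ℝ → ℝ
  ex : ℝ → ℝ
  R : ℝ → ℝ
  kE : ℝ → ℝ
  kk : ℝ → ℝ
  k1 : ℝ → ℝ
  FM : ℝ → ℝ
  FP : ℝ → ℝ
  AM : ℝ → ℝ
  AP : ℝ → ℝ
  x3 : ℝ → ℝ
  Gp : ℝ → ℝ
  Gm : ℝ → ℝ
  WT : ℝ → ℝ
  WT' : ℝ → ℝ
  VT : ℝ → ℝ
  VT' : ℝ → ℝ
  UT : ℝ → ℝ
  UT' : ℝ → ℝ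
  gV : ℝ → ℝ
  gV' : ℝ → ℝ
  gW : ℝ → ℝ
  gW' : ℝ → ℝ
  gw : ℝ → ℝ
  gw' : ℝ → ℝ
  g1 : ℝ → ℝ
  g1' : ℝ → ℝ

namespace Yf

variable (f : Yf)

/-- one exponential -/
noncomputable def ka (k u : ℝ) : ℝ := Real.exp (f.z u + k * f.dl u)

/-- the gauge -/
noncomputable def Eg (k u : ℝ) : ℝ := (1 + f.lam * k) * Real.exp (f.z u + k * f.dl u)

/-- damped row -/
noncomputable def rw (k u : ℝ) : ℝ := Real.exp (f.z u + (2 + k) * f.dl u / 3) * (1 - k)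

noncomputable def C1 (u : ℝ) : ℝ := f.q * (1 + f.b1 * u)

noncomputable def C4 (u : ℝ) : ℝ := f.q * (1 + f.b1 * u + f.b1 * u / 4)

noncomputable def b3 (u : ℝ) : ℝ := f.b1 * u + f.x3 u

noncomputable def al (u : ℝ) : ℝ := f.kE u * f.UT u + f.kk u * f.WT u

noncomputable def ga (u : ℝ) : ℝ := f.k1 u * f.b3 u + f.kE u * (f.C4 u * f.VT u)

/-- the properties; `Gk`, `Mk` are the majorants of the rows of level 1/2 -/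
structure Ok (Gk Mk : ℝ → ℝ → ℝ) (dlt : ℝ) : Prop where
  l0 : 0 ≤ f.lam
  U0 : 0 < f.U
  m0 : 0 ≤ f.m
  q0 : 0 ≤ f.q
  b0 : 0 ≤ f.b1
  dz : ∀ u ∈ Icc 0 f.U, HasDerivAt f.z (f.z' u) u
  dd : ∀ u ∈ Icc 0 f.U, HasDerivAt f.dl (f.dl' u) u
  z'0 : ∀ u ∈ Icc 0 f.U, 0 ≤ f.z' u
  d'0 : ∀ u ∈ Icc 0 f.U, 0 ≤ f.dl' u
  z0 : ∀ u ∈ Icc 0 f.U, 0 ≤ f.z u
  d0 : ∀ u ∈ Icc 0 f.U, 0 ≤ f.dl u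
  d1 : ∀ u ∈ Icc 0 f.U, f.dl u ≤ 1
  h1 : ∀ k ∈ Icc (0 : ℝ) 1, ∀ u ∈ Icc 0 f.U, (1 - k) * f.ka k u ≤ f.μ1 u
  hk : ∀ k ∈ Icc (0 : ℝ) 1, ∀ u ∈ Icc 0 f.U, (1 - k) * (f.ka k u * f.ka k u) ≤ f.μk u
  h2 : ∀ k ∈ Icc (0 : ℝ) 1, ∀ u ∈ Icc 0 f.U, (1 - k) * (f.ka k u * f.Eg k u) ≤ f.μ2 u
  hx : ∀ k ∈ Icc (0 : ℝ) 1, ∀ u ∈ Icc 0 f.U, f.rw k u ≤ f.ex u
  hR : ∀ k ∈ Icc (0 : ℝ) 1, ∀ u ∈ Icc 0 f.U, f.ka k u * f.rw k u ≤ f.R u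
  qE : ∀ u ∈ Icc 0 f.U, f.μ2 u * (f.ex u + f.μ1 u) ≤ f.kE u
  qk : ∀ u ∈ Icc 0 f.U, f.μk u * (f.ex u + f.μ1 u) ≤ f.kk u
  q1 : ∀ u ∈ Icc 0 f.U, f.μ1 u * (f.ex u + f.μ1 u) ≤ f.k1 u
  fM : ∀ k ∈ Icc (0 : ℝ) 1, ∀ u ∈ Icc 0 f.U, (1 - k) * (f.ka k u * Mk k u) ≤ f.FM u
  fP : ∀ k ∈ Icc (0 : ℝ) 1, ∀ u ∈ Icc 0 f.U, (1 - k) * (f.ka k u * Gk k u) ≤ f.FP u
  aM : ∀ k ∈ Icc (0 : ℝ) 1, ∀ u ∈ Icc 0 f.U,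
    (1 - k) * f.ka k u * (f.rw k u * Mk k u + f.FM u) ≤ f.AM u
  aP : ∀ k ∈ Icc (0 : ℝ) 1, ∀ u ∈ Icc 0 f.U,
    (1 - k) * f.ka k u * (f.rw k u * Gk k u + f.FP u) ≤ f.AP u
  Mk0 : ∀ k ∈ Icc (0 : ℝ) 1, ∀ u ∈ Icc 0 f.U, 0 ≤ Mk k u
  Gk0 : ∀ k ∈ Icc (0 : ℝ) 1, ∀ u ∈ Icc 0 f.U, 0 ≤ Gk k u
  hx3 : ∀ y ∈ Icc (0 : ℝ) 1, ∀ u ∈ Icc 0 f.U,
    (1 + f.q * f.m) * (f.b1 * u) ^ 2 * (y * (1 - y)) + f.q * f.m * (f.b1 * u) * y ≤ f.x3 u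
  hp : ∀ k ∈ Icc (0 : ℝ) 1, ∀ u ∈ Icc 0 f.U, Gk k u ≤ f.Gp u * f.Eg k u
  hg : ∀ k ∈ Icc (0 : ℝ) 1, ∀ u ∈ Icc 0 f.U, Mk k u ≤ f.Gm u * f.Eg k u
  Gp0 : ∀ u ∈ Icc 0 f.U, 0 ≤ f.Gp u
  Gm0 : ∀ u ∈ Icc 0 f.U, 0 ≤ f.Gm u
  dWT : ∀ u ∈ Icc 0 f.U, HasDerivAt f.WT (f.WT' u) u
  dVT : ∀ u ∈ Icc 0 f.U, HasDerivAt f.VT (f.VT' u) u
  dUT : ∀ u ∈ Icc 0 f.U, HasDerivAt f.UT (f.UT' u) u
  WT0 : ∀ u ∈ Icc 0 f.U, 0 ≤ f.WT u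
  VT0 : ∀ u ∈ Icc 0 f.U, 0 ≤ f.VT u
  UT0 : ∀ u ∈ Icc 0 f.U, 0 ≤ f.UT u
  oWT : ∀ u ∈ Icc 0 f.U, f.μ1 u * (f.b1 * u) ≤ f.WT' u
  oVT : ∀ u ∈ Icc 0 f.U, f.μ2 u * f.UT u + f.μk u * f.WT u + f.Gm u * f.al u
    + f.Gp u * f.ga u ≤ f.VT' u
  oUT : ∀ u ∈ Icc 0 f.U, f.μ2 u * (f.C1 u * f.VT u) + f.Gp u * f.al u
    + f.Gm u * f.ga u ≤ f.UT' u
  dgV : ∀ u ∈ Icc 0 f.U, HasDerivAt f.gV (-f.gV' u) u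
  dgW : ∀ u ∈ Icc 0 f.U, HasDerivAt f.gW (-f.gW' u) u
  dgw : ∀ u ∈ Icc 0 f.U, HasDerivAt f.gw (-f.gw' u) u
  dg1 : ∀ u ∈ Icc 0 f.U, HasDerivAt f.g1 (-f.g1' u) u
  gV0 : ∀ u ∈ Icc 0 f.U, 0 ≤ f.gV u
  gW0 : ∀ u ∈ Icc 0 f.U, 0 ≤ f.gW u
  gWd : ∀ u ∈ Icc 0 f.U, dlt ≤ f.gW u
  gw0 : ∀ u ∈ Icc 0 f.U, 0 ≤ f.gw u
  g10 : ∀ u ∈ Icc 0 f.U, 0 ≤ f.g1 u
  ogV : ∀ u ∈ Icc 0 f.U, f.AP u * f.C4 u * f.gV u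
    + (f.R u * f.C1 u + f.AM u * f.C4 u) * (1 + f.gW u) + f.C4 u * f.al u ≤ f.gV' u
  ogW : ∀ u ∈ Icc 0 f.U, (f.R u + f.AM u) * f.gV u + f.AP u * (1 + f.gW u) + f.ga u
    ≤ f.gW' u
  ogw : ∀ u ∈ Icc 0 f.U, f.AP u * f.gV u + f.AM u * (1 + f.gW u) + f.R u * f.gW u + f.al u
    ≤ f.gw' u
  og1 : ∀ u ∈ Icc 0 f.U, f.b1 * f.gw u + f.x3 u * (f.AP u * f.gV u
    + f.AM u * (1 + f.gW u) + f.al u) ≤ f.g1' u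

variable (mb u : ℝ → ℝ)

/-- the functions of the time -/
noncomputable def yk : Yk where
  m := mb
  μ1 := fun r => f.μ1 (u r)
  μk := fun r => f.μk (u r)
  μ2 := fun r => f.μ2 (u r)
  R := fun r => f.R (u r)
  kE := fun r => f.kE (u r)
  kk := fun r => f.kk (u r)
  k1 := fun r => f.k1 (u r)
  AM := fun r => f.AM (u r)
  AP := fun r => f.AP (u r)
  bb := fun r => f.b1 * u r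
  bb' := fun r => f.b1 * -mb r
  x3 := fun r => f.x3 (u r)
  Gp := fun r => f.Gp (u r)
  Gm := fun r => f.Gm (u r)

noncomputable def yr : Yr where
  gV := fun r => f.gV (u r)
  gV' := fun r => -f.gV' (u r) * -mb r
  gW := fun r => f.gW (u r)
  gW' := fun r => -f.gW' (u r) * -mb r
  gw := fun r => f.gw (u r)
  gw' := fun r => -f.gw' (u r) * -mb r
  g1 := fun r => f.g1 (u r)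
  g1' := fun r => -f.g1' (u r) * -mb r

/-- the gauge of a vertex -/
noncomputable def E {V : Type*} [Fintype V] [DecidableEq V] (x : V → V → ℝ) (D : Finset V) (e : V) (r : ℝ) : ℝ :=
  f.Eg (RCM.kx x D e) (u r)

noncomputable def E' {V : Type*} [Fintype V] [DecidableEq V] (x : V → V → ℝ) (D : Finset V) (e : V) (r : ℝ) : ℝ :=
  (1 + f.lam * RCM.kx x D e) * (Real.exp (f.z (u r) + RCM.kx x D e * f.dl (u r))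
    * (f.z' (u r) * -mb r + RCM.kx x D e * (f.dl' (u r) * -mb r)))

noncomputable def κ {V : Type*} [Fintype V] [DecidableEq V] (x : V → V → ℝ) (D : Finset V) (e : V) (r : ℝ) : ℝ :=
  f.ka (RCM.kx x D e) (u r)

noncomputable def κ' {V : Type*} [Fintype V] [DecidableEq V] (x : V → V → ℝ) (D : Finset V) (e : V) (r : ℝ) : ℝ :=
  Real.exp (f.z (u r) + RCM.kx x D e * f.dl (u r))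
    * (f.z' (u r) * -mb r + RCM.kx x D e * (f.dl' (u r) * -mb r))

end Yf

end Pool.Agent.RX.RCN.K
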