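import Pool.Agent.RX.RCN.T1I
import Pool.Agent.RX.RCN.XlA
import Pool.Agent.RX.RCN.YfA

/-! Two-time rows of the closure exponents of a cell: the lists (MP_73ccd0_lc, route M). -/

namespace Pool.Agent.RX.RCN.K

open Set Finset Pool.Agent.RX.RCRSHalf Pool.Agent.RX.RCM9 Pool.Agent.RX.RCM9.Bern Pool.Agent.RX.RCM9.Pk
  Pool.Agent.RX.RCN.Ck1

set_option linter.unusedSectionVars false

/-! ### the factor without gauge -/

/-- upper bound of `(1 - k) e^{k c}` -/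
theorem M0_le {k c c0 : ℝ} (hk : k ∈ Icc (0 : ℝ) 1) (hc : c ≤ c0) (h1 : 1 ≤ c0) (h2 : c0 ≤ 2) :
    (1 - k) * Real.exp (k * c) ≤ ex4 (c0 - 1) / c0 := by
  have c00 : 0 < c0 := by linarith
  have a1 : Real.exp (k * c) ≤ Real.exp (k * c0) :=
    Real.exp_le_exp.2 (mul_le_mul_of_nonneg_left hc hk.1)
  have a2 : (1 - k) * Real.exp (k * c) ≤ (1 - k) * Real.exp (k * c0) :=
    mul_le_mul_of_nonneg_left a1 (by linarith [hk.2])
  refine a2.trans ?_
  rw [le_div_iff₀ c00]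
  have a3 := Real.add_one_le_exp (c0 - 1 - k * c0)
  have a4 := mul_le_mul_of_nonneg_right a3 (Real.exp_pos (k * c0)).le
  rw [← Real.exp_add] at a4
  have e : c0 - 1 - k * c0 + k * c0 = c0 - 1 := by ring
  rw [e] at a4
  have a5 := exp_le_ex4 (z := c0 - 1) (by linarith) (by linarith)
  linarith

/-- the quadratic form of the residual -/
theorem x3_le {b q m r0 Ug y u : ℝ} (b0 : 0 ≤ b) (qm : 0 ≤ q * m) (r00 : 0 ≤ r0) (_ : r0 ≤ 1)
    (hr : r0 * ((1 + q * m) * (b * Ug)) ≤ q * m) (hy : y ∈ Icc (0 : ℝ) 1) (hu : u ∈ Icc 0 Ug) :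
    (1 + q * m) * (b * u) ^ 2 * (y * (1 - y)) + q * m * (b * u) * y
      ≤ q * m * (b * u) + (1 + q * m) * (1 - r0) ^ 2 / 4 * (b * u) ^ 2 := by
  set β := b * u with hβ
  have β0 : 0 ≤ β := mul_nonneg b0 hu.1
  have w0 : 0 ≤ 1 + q * m := by linarith
  have h1 : r0 * ((1 + q * m) * β) ≤ q * m := by
    refine le_trans ?_ hr
    exact mul_le_mul_of_nonneg_left (mul_le_mul_of_nonneg_left
      (mul_le_mul_of_nonneg_left hu.2 b0) w0) r00
  have y1 : 0 ≤ 1 - y := by linarith [hy.2]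
  -- (1 - y) (A y - B) ≤ A (1 - y) (y - r0)
  have h2 : (1 - y) * β * (r0 * ((1 + q * m) * β)) ≤ (1 - y) * β * (q * m) :=
    mul_le_mul_of_nonneg_left h1 (mul_nonneg y1 β0)
  have h3 : (1 - y) * (y - r0) ≤ (1 - r0) ^ 2 / 4 := by
    nlinarith [sq_nonneg ((1 - y) - (y - r0))]
  have h4 := mul_le_mul_of_nonneg_left h3 (mul_nonneg w0 (sq_nonneg β))
  nlinarith

/-! ### the lists -/

namespace Yl

variable (l : Yl)

/-- the functions of a cell with the end `U` of the clock -/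
noncomputable def yf (U : ℝ) : Yf where
  lam := 3 / 5
  U := U
  m := l.m
  q := l.q
  b1 := l.b1
  z := pv l.z
  z' := pv (pd l.z)
  dl := pv l.dl
  dl' := pv (pd l.dl)
  μ1 := pv l.μ1
  μk := pv l.μk
  μ2 := pv l.μ2
  ex := pv l.ex
  R := pv l.R
  kE := pv l.kE
  kk := pv l.kk
  k1 := pv l.k1
  FM := pv l.FM
  FP := pv l.FP
  AM := pv l.AM
  AP := pv l.AP
  x3 := pv l.x3l
  Gp := pv l.Gp
  Gm := pv l.Gm
  WT := pv l.WT
  WT' := pv (pd l.WT)
  VT := pv l.VT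
  VT' := pv (pd l.VT)
  UT := pv l.UT
  UT' := pv (pd l.UT)
  gV := fun u => pv (pri l.hV) U - pv (pri l.hV) u
  gV' := pv l.hV
  gW := fun u => l.dlt + (pv (pri l.hW) U - pv (pri l.hW) u)
  gW' := pv l.hW
  gw := fun u => pv (pri l.hw) U - pv (pri l.hw) u
  gw' := pv l.hw
  g1 := fun u => pv (pri l.h1) U - pv (pri l.h1) u
  g1' := pv l.h1

/-- the facts in two variables; `Gk`, `Mk` are the majorants of the rows of level 1/2 -/
structure Fx (Gk Mk : ℝ → ℝ → ℝ) : Prop where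
  hp : ∀ k ∈ Icc (0 : ℝ) 1, ∀ u ∈ Icc (0 : ℝ) l.Ug, Gk k u
      ≤ pv l.Gp u * ((1 + 3 / 5 * k) * Real.exp (pv l.z u + k * pv l.dl u))
  hg : ∀ k ∈ Icc (0 : ℝ) 1, ∀ u ∈ Icc (0 : ℝ) l.Ug, Mk k u
      ≤ pv l.Gm u * ((1 + 3 / 5 * k) * Real.exp (pv l.z u + k * pv l.dl u))
  fM : ∀ k ∈ Icc (0 : ℝ) 1, ∀ u ∈ Icc (0 : ℝ) l.Ug,
    (1 - k) * (Real.exp (pv l.z u + k * pv l.dl u) * Mk k u) ≤ pv l.FM u
  fP : ∀ k ∈ Icc (0 : ℝ) 1, ∀ u ∈ Icc (0 : ℝ) l.Ug,
    (1 - k) * (Real.exp (pv l.z u + k * pv l.dl u) * Gk k u) ≤ pv l.FP u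
  aM : ∀ k ∈ Icc (0 : ℝ) 1, ∀ u ∈ Icc (0 : ℝ) l.Ug,
    (1 - k) * Real.exp (pv l.z u + k * pv l.dl u)
      * (Real.exp (pv l.z u + (2 + k) * pv l.dl u / 3) * (1 - k) * Mk k u + pv l.FM u)
      ≤ pv l.AM u
  aP : ∀ k ∈ Icc (0 : ℝ) 1, ∀ u ∈ Icc (0 : ℝ) l.Ug,
    (1 - k) * Real.exp (pv l.z u + k * pv l.dl u)
      * (Real.exp (pv l.z u + (2 + k) * pv l.dl u / 3) * (1 - k) * Gk k u + pv l.FP u)
      ≤ pv l.AP u
  M0 : ∀ k ∈ Icc (0 : ℝ) 1, ∀ u ∈ Icc (0 : ℝ) l.Ug, 0 ≤ Mk k u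
  G0 : ∀ k ∈ Icc (0 : ℝ) 1, ∀ u ∈ Icc (0 : ℝ) l.Ug, 0 ≤ Gk k u

variable {l} {D : ℤ} {n : ℕ}

theorem pv_x3l (u : ℝ) : pv l.x3l u = (l.q : ℝ) * l.m * ((l.b1 : ℝ) * u)
    + (1 + (l.q : ℝ) * l.m) * (1 - (l.r0 : ℝ)) ^ 2 / 4 * ((l.b1 : ℝ) * u) ^ 2 := by
  simp only [x3l, pv]
  push_cast
  ring

theorem pv_b3l (u : ℝ) {U : ℝ} : pv l.b3l u = (l.yf U).b3 u := by
  show _ = (l.b1 : ℝ) * u + pv l.x3l u
  rw [b3l, pv_ladd]
  simp only [pv]
  push_cast
  ring

theorem pv_C1l (u : ℝ) {U : ℝ} : pv l.C1l u = (l.yf U).C1 u := by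
  show _ = (l.q : ℝ) * (1 + (l.b1 : ℝ) * u)
  simp only [C1l, pv]
  push_cast
  ring

theorem pv_C4l (u : ℝ) {U : ℝ} : pv l.C4l u = (l.yf U).C4 u := by
  show _ = (l.q : ℝ) * (1 + (l.b1 : ℝ) * u + (l.b1 : ℝ) * u / 4)
  simp only [C4l, pv]
  push_cast
  ring

set_option maxHeartbeats 4000000 in
/-- **soundness of the checks of the lists** -/
theorem ok_of {Gk Mk : ℝ → ℝ → ℝ} (h : l.ok D n = true) (hF : l.Fx Gk Mk)
    {U : ℝ} (U0 : 0 < U) (hU : U ≤ l.Ug) : (l.yf U).Ok Gk Mk l.dlt := by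
  simp only [ok, Bool.and_eq_true, and_assoc] at h
  obtain ⟨hA, hB, hD⟩ := h
  simp only [okA, Bool.and_eq_true, decide_eq_true_eq, and_assoc] at hA
  simp only [okB, Bool.and_eq_true, and_assoc] at hB
  simp only [okC, Bool.and_eq_true, and_assoc] at hD
  obtain ⟨-, m0, q0, b0, r00, r01, hr, c01, c02, dlt0, z0, d0, z'0, d'0, dl1, hc0, zd, hμ1, hμk,
    hμ2, hex, hR, hkE, hkk, hk1⟩ := hA
  obtain ⟨Gp0, Gm0, WT0, VT0, UT0, oT, hal, hga, oV, oU⟩ := hB
  obtain ⟨hV0, hW0, hw0, h10, ogV, ogW, ogw, og1⟩ := hD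
  have mm : ∀ u ∈ Icc 0 U, u ∈ Icc ((0 : ℚ) : ℝ) (l.Ug : ℝ) := fun u hu => by
    refine ⟨?_, hu.2.trans hU⟩
    simpa using hu.1
  have mm' : ∀ u ∈ Icc 0 U, u ∈ Icc (0 : ℝ) (l.Ug : ℝ) := fun u hu => ⟨hu.1, hu.2.trans hU⟩
  have m0' : (0 : ℝ) ≤ l.m := by exact_mod_cast m0
  have q0' : (0 : ℝ) ≤ l.q := by exact_mod_cast q0
  have b0' : (0 : ℝ) ≤ l.b1 := by exact_mod_cast b0
  have r00' : (0 : ℝ) ≤ l.r0 := by exact_mod_cast r00
  have r01' : (l.r0 : ℝ) ≤ 1 := by exact_mod_cast r01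
  have c01' : (1 : ℝ) ≤ l.c0 := by exact_mod_cast c01
  have c02' : (l.c0 : ℝ) ≤ 2 := by exact_mod_cast c02
  have dlt0' : (0 : ℝ) ≤ l.dlt := by exact_mod_cast dlt0
  have z0' : ∀ u ∈ Icc 0 U, 0 ≤ pv l.z u := fun u hu => nn_le z0 (mm u hu)
  have d0' : ∀ u ∈ Icc 0 U, 0 ≤ pv l.dl u := fun u hu => nn_le d0 (mm u hu)
  have dl' : ∀ u ∈ Icc 0 U, pv l.dl u ≤ 3 / 4 := fun u hu => by
    have h := nn_sub dl1 (mm u hu)
    simp only [pv] at h
    push_cast at h
    linarith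
  have c0' : ∀ u ∈ Icc 0 U, 2 * pv l.dl u ≤ l.c0 := fun u hu => by
    have h := nn_sub hc0 (mm u hu)
    simp only [pv_lsmul, pv] at h
    push_cast at h
    linarith
  have zd' : ∀ u ∈ Icc 0 U, 2 * pv l.z u + 2 / 3 * pv l.dl u ≤ 1 := fun u hu => by
    have h := nn_sub zd (mm u hu)
    simp only [pv_ladd, pv_lsmul, pv] at h
    push_cast at h
    linarith
  have μ1' : ∀ k ∈ Icc (0 : ℝ) 1, ∀ u ∈ Icc 0 U,
      (1 - k) * Real.exp (pv l.z u + k * pv l.dl u) ≤ pv l.μ1 u := fun k hk u hu => by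
    have h := nn_sub hμ1 (mm u hu)
    rw [pv_e4l] at h
    have a0 := z0' u hu
    have a1 := d0' u hu
    have a2 := zd' u hu
    have a3 := sl_le hk (c := pv l.dl u) (by linarith [dl' u hu])
    have a4 := exp_le_ex4 a0 (by linarith)
    have a5 := mul_le_mul_of_nonneg_left a3 (Real.exp_pos (pv l.z u)).le
    rw [Real.exp_add]
    linarith
  have μk' : ∀ k ∈ Icc (0 : ℝ) 1, ∀ u ∈ Icc 0 U,
      (1 - k) * (Real.exp (pv l.z u + k * pv l.dl u) * Real.exp (pv l.z u + k * pv l.dl u))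
        ≤ pv l.μk u := fun k hk u hu => by
    have h := nn_sub hμk (mm u hu)
    rw [pv_lsmul, pv_e4l, pv_lsmul] at h
    push_cast at h
    rw [e4q_cast] at h
    push_cast at h
    have a0 := z0' u hu
    have a1 := d0' u hu
    have a2 := zd' u hu
    have h1 := M0_le hk (c0' u hu) c01' c02'
    have h2 := exp_le_ex4 (z := 2 * pv l.z u) (by linarith) (by linarith)
    have h3 : (0 : ℝ) ≤ (1 - k) * Real.exp (k * (2 * pv l.dl u)) :=
      mul_nonneg (by linarith [hk.2]) (Real.exp_pos _).le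
    have h4 := mul_le_mul h1 h2 (Real.exp_pos _).le (h3.trans h1)
    have e : Real.exp (pv l.z u + k * pv l.dl u) * Real.exp (pv l.z u + k * pv l.dl u)
        = Real.exp (k * (2 * pv l.dl u)) * Real.exp (2 * pv l.z u) := by
      rw [← Real.exp_add, ← Real.exp_add]
      congr 1
      ring
    rw [e]
    refine le_trans (le_of_eq (by ring)) (h4.trans h)
  have μ2' : ∀ k ∈ Icc (0 : ℝ) 1, ∀ u ∈ Icc 0 U, (1 - k) * (Real.exp (pv l.z u + k * pv l.dl u)
      * ((1 + 3 / 5 * k) * Real.exp (pv l.z u + k * pv l.dl u))) ≤ pv l.μ2 u := fun k hk u hu => by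
    have h := nn_sub hμ2 (mm u hu)
    rw [pv_lmul, pv_cmpl, pv_e4l, pv_lsmul, pv_lsmul] at h
    push_cast at h
    have a0 := z0' u hu
    have a1 := d0' u hu
    have a2 := zd' u hu
    have a3 := dl' u hu
    have h1 := Mh_le hk (c := 2 * pv l.dl u) ⟨by linarith, by linarith⟩
    have h2 := exp_le_ex4 (z := 2 * pv l.z u) (by linarith) (by linarith)
    have h3 : (0 : ℝ) ≤ (1 - k) * ((1 + 3 / 5 * k) * Real.exp (k * (2 * pv l.dl u))) :=
      mul_nonneg (by linarith [hk.2]) (mul_nonneg (by linarith [hk.1]) (Real.exp_pos _).le)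
    have h4 := mul_le_mul h1 h2 (Real.exp_pos _).le (h3.trans h1)
    have e : Real.exp (pv l.z u + k * pv l.dl u) * Real.exp (pv l.z u + k * pv l.dl u)
        = Real.exp (k * (2 * pv l.dl u)) * Real.exp (2 * pv l.z u) := by
      rw [← Real.exp_add, ← Real.exp_add]
      congr 1
      ring
    calc _ = (1 - k) * ((1 + 3 / 5 * k) * (Real.exp (pv l.z u + k * pv l.dl u)
          * Real.exp (pv l.z u + k * pv l.dl u))) := by ring
      _ = (1 - k) * ((1 + 3 / 5 * k) * Real.exp (k * (2 * pv l.dl u)))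
          * Real.exp (2 * pv l.z u) := by rw [e]; ring
      _ ≤ _ := h4.trans h
  have ex' : ∀ k ∈ Icc (0 : ℝ) 1, ∀ u ∈ Icc 0 U,
      Real.exp (pv l.z u + (2 + k) * pv l.dl u / 3) * (1 - k) ≤ pv l.ex u :=
    fun k hk u hu => by
    have h := nn_sub hex (mm u hu)
    rw [pv_e4l, pv_ladd, pv_lsmul] at h
    push_cast at h
    have a0 := z0' u hu
    have a1 := d0' u hu
    have a2 := zd' u hu
    have a3 := dl' u hu
    have h1 := sl_le hk (c := 1 / 3 * pv l.dl u) (by linarith)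
    have h2 := exp_le_ex4 (z := pv l.z u + 2 / 3 * pv l.dl u) (by linarith) (by linarith)
    have e : Real.exp (pv l.z u + (2 + k) * pv l.dl u / 3)
        = Real.exp (pv l.z u + 2 / 3 * pv l.dl u) * Real.exp (k * (1 / 3 * pv l.dl u)) := by
      rw [← Real.exp_add]
      congr 1
      ring
    have h3 := mul_le_mul_of_nonneg_left h1 (Real.exp_pos (pv l.z u + 2 / 3 * pv l.dl u)).le
    rw [e]
    linarith
  have R' : ∀ k ∈ Icc (0 : ℝ) 1, ∀ u ∈ Icc 0 U, Real.exp (pv l.z u + k * pv l.dl u)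
      * (Real.exp (pv l.z u + (2 + k) * pv l.dl u / 3) * (1 - k)) ≤ pv l.R u :=
    fun k hk u hu => by
    have h := nn_sub hR (mm u hu)
    rw [pv_e4l, pv_ladd, pv_lsmul, pv_lsmul] at h
    push_cast at h
    have a0 := z0' u hu
    have a1 := d0' u hu
    have a2 := zd' u hu
    have a3 := dl' u hu
    have h1 := sl_le hk (c := 4 / 3 * pv l.dl u) (by linarith)
    have h2 := exp_le_ex4 (z := 2 * pv l.z u + 2 / 3 * pv l.dl u) (by linarith) a2
    have e : Real.exp (pv l.z u + k * pv l.dl u)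
        * Real.exp (pv l.z u + (2 + k) * pv l.dl u / 3)
        = Real.exp (2 * pv l.z u + 2 / 3 * pv l.dl u)
          * Real.exp (k * (4 / 3 * pv l.dl u)) := by
      rw [← Real.exp_add, ← Real.exp_add]
      congr 1
      ring
    calc _ = (Real.exp (pv l.z u + k * pv l.dl u)
          * Real.exp (pv l.z u + (2 + k) * pv l.dl u / 3)) * (1 - k) := by ring
      _ = Real.exp (2 * pv l.z u + 2 / 3 * pv l.dl u)
          * (Real.exp (k * (4 / 3 * pv l.dl u)) * (1 - k)) := by rw [e]; ring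
      _ ≤ Real.exp (2 * pv l.z u + 2 / 3 * pv l.dl u) * 1 :=
          mul_le_mul_of_nonneg_left h1 (Real.exp_pos _).le
      _ ≤ _ := by rw [mul_one]; exact h2.trans h
  have k0 : (0 : ℝ) ∈ Icc (0 : ℝ) 1 := ⟨le_rfl, zero_le_one⟩
  have k1 : (1 : ℝ) ∈ Icc (0 : ℝ) 1 := ⟨zero_le_one, le_rfl⟩
  have μ10 : ∀ u ∈ Icc 0 U, 0 ≤ pv l.μ1 u := fun u hu => by
    have := μ1' 1 k1 u hu; simpa using this
  have μk0 : ∀ u ∈ Icc 0 U, 0 ≤ pv l.μk u := fun u hu => by
    have := μk' 1 k1 u hu; simpa using this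
  have μ20 : ∀ u ∈ Icc 0 U, 0 ≤ pv l.μ2 u := fun u hu => by
    have := μ2' 1 k1 u hu; simpa using this
  have ex0 : ∀ u ∈ Icc 0 U, 0 ≤ pv l.ex u := fun u hu => by
    have := ex' 1 k1 u hu; simpa using this
  have R0g : ∀ u ∈ Icc (0 : ℝ) l.Ug, 0 ≤ pv l.R u := fun u hu => by
    have h := nn_sub hR (t := u) (by simpa using hu)
    have hz := nn_le z0 (t := u) (by simpa using hu)
    have hd := nn_le d0 (t := u) (by simpa using hu)
    rw [pv_e4l, pv_ladd, pv_lsmul, pv_lsmul] at h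
    refine le_trans ?_ h
    unfold ex4
    push_cast
    positivity
  have AM0 : ∀ u ∈ Icc 0 U, 0 ≤ pv l.AM u := fun u hu => by
    have := hF.aM 1 k1 u (mm' u hu); simpa using this
  have AP0 : ∀ u ∈ Icc 0 U, 0 ≤ pv l.AP u := fun u hu => by
    have := hF.aP 1 k1 u (mm' u hu); simpa using this
  have R0 : ∀ u ∈ Icc 0 U, 0 ≤ pv l.R u := fun u hu => R0g u (mm' u hu)
  have Gp0' : ∀ u ∈ Icc 0 U, 0 ≤ pv l.Gp u := fun u hu => nn_le Gp0 (mm u hu)
  have Gm0' : ∀ u ∈ Icc 0 U, 0 ≤ pv l.Gm u := fun u hu => nn_le Gm0 (mm u hu)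
  have WT0' : ∀ u ∈ Icc 0 U, 0 ≤ pv l.WT u := fun u hu => nn_le WT0 (mm u hu)
  have VT0' : ∀ u ∈ Icc 0 U, 0 ≤ pv l.VT u := fun u hu => nn_le VT0 (mm u hu)
  have UT0' : ∀ u ∈ Icc 0 U, 0 ≤ pv l.UT u := fun u hu => nn_le UT0 (mm u hu)
  have qE' : ∀ u ∈ Icc 0 U, pv l.μ2 u * (pv l.ex u + pv l.μ1 u) ≤ pv l.kE u := fun u hu => by
    have h := nn_sub hkE (mm u hu)
    rwa [pv_lmul, pv_ladd] at h
  have qk' : ∀ u ∈ Icc 0 U, pv l.μk u * (pv l.ex u + pv l.μ1 u) ≤ pv l.kk u := fun u hu => by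
    have h := nn_sub hkk (mm u hu)
    rwa [pv_lmul, pv_ladd] at h
  have q1' : ∀ u ∈ Icc 0 U, pv l.μ1 u * (pv l.ex u + pv l.μ1 u) ≤ pv l.k1 u := fun u hu => by
    have h := nn_sub hk1 (mm u hu)
    rwa [pv_lmul, pv_ladd] at h
  have C40 : ∀ u ∈ Icc 0 U, 0 ≤ pv l.C4l u := fun u hu => by
    have := hu.1
    simp only [C4l, pv]
    push_cast
    positivity
  have C10 : ∀ u ∈ Icc 0 U, 0 ≤ pv l.C1l u := fun u hu => by
    have := hu.1
    simp only [C1l, pv]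
    push_cast
    positivity
  have x30 : ∀ u ∈ Icc 0 U, 0 ≤ pv l.x3l u := fun u hu => by
    rw [pv_x3l]
    have := hu.1
    positivity
  have al' : ∀ u ∈ Icc 0 U, (l.yf U).al u ≤ pv l.al u := fun u hu => by
    have h := nn_sub hal (mm u hu)
    rw [pv_ladd, pv_lmul, pv_lmul] at h
    exact h
  have ga' : ∀ u ∈ Icc 0 U, (l.yf U).ga u ≤ pv l.ga u := fun u hu => by
    have h := nn_sub hga (mm u hu)
    rw [pv_ladd, pv_lmul, pv_lmul, pv_lmul, pv_b3l (U := U), pv_C4l (U := U)] at h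
    exact h
  -- the adjoint functions
  have up : ∀ {p : List ℚ}, nn D n 0 l.Ug p = true →
      pv (pri p) U ≤ ((evq (pri p) l.Ug : ℚ) : ℝ) := fun {p} hp => by
    rw [evq_pv]
    have := Xl.pri_sub_nonneg (p := p) (U := (l.Ug : ℝ)) (fun u hu => nn_le hp (by simpa using hu))
      (u := U) ⟨U0.le, hU⟩
    linarith
  have nv : ∀ {p : List ℚ}, nn D n 0 l.Ug p = true → ∀ u ∈ Icc 0 U,
      0 ≤ pv (pri p) U - pv (pri p) u := fun {p} hp u hu =>
    Xl.pri_sub_nonneg (fun v hv => nn_le hp (mm v hv)) hu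
  have GV' : ∀ u, pv l.GV u = ((evq (pri l.hV) l.Ug : ℚ) : ℝ) - pv (pri l.hV) u := fun u => by
    rw [GV, pv_lsub]
    simp only [pv, mul_zero, add_zero]
  have GW' : ∀ u, pv l.GW u = (l.dlt : ℝ) + ((evq (pri l.hW) l.Ug : ℚ) : ℝ)
      - pv (pri l.hW) u := fun u => by
    rw [GW, pv_lsub]
    simp only [pv, mul_zero, add_zero]
    push_cast
    ring
  have Gw' : ∀ u, pv l.Gw u = ((evq (pri l.hw) l.Ug : ℚ) : ℝ) - pv (pri l.hw) u := fun u => by
    rw [Gw, pv_lsub]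
    simp only [pv, mul_zero, add_zero]
  have eV : ∀ u, (l.yf U).gV u = pv (pri l.hV) U - pv (pri l.hV) u := fun u => rfl
  have eW : ∀ u, (l.yf U).gW u = l.dlt + (pv (pri l.hW) U - pv (pri l.hW) u) := fun u => rfl
  have ew : ∀ u, (l.yf U).gw u = pv (pri l.hw) U - pv (pri l.hw) u := fun u => rfl
  have gV_le : ∀ u, (l.yf U).gV u ≤ pv l.GV u := fun u => by
    rw [GV', eV]; linarith [up hV0]
  have gW_le : ∀ u, (l.yf U).gW u ≤ pv l.GW u := fun u => by
    rw [GW', eW]; linarith [up hW0]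
  have gw_le : ∀ u, (l.yf U).gw u ≤ pv l.Gw u := fun u => by
    rw [Gw', ew]; linarith [up hw0]
  have gV0 : ∀ u ∈ Icc 0 U, 0 ≤ (l.yf U).gV u := fun u hu => nv hV0 u hu
  have gWd : ∀ u ∈ Icc 0 U, (l.dlt : ℝ) ≤ (l.yf U).gW u := fun u hu => by
    rw [eW]; linarith [nv hW0 u hu]
  have gW0 : ∀ u ∈ Icc 0 U, 0 ≤ (l.yf U).gW u := fun u hu => dlt0'.trans (gWd u hu)
  have gw0 : ∀ u ∈ Icc 0 U, 0 ≤ (l.yf U).gw u := fun u hu => nv hw0 u hu
  have gV_ge : ∀ u ∈ Icc 0 U, 0 ≤ pv l.GV u := fun u hu => (gV0 u hu).trans (gV_le u)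
  have gW_ge : ∀ u ∈ Icc 0 U, 0 ≤ pv l.GW u := fun u hu => (gW0 u hu).trans (gW_le u)
  exact
    { l0 := by show (0 : ℝ) ≤ 3 / 5; norm_num
      U0 := U0
      m0 := m0'
      q0 := q0'
      b0 := b0'
      dz := fun u _ => hasDerivAt_pv _ _
      dd := fun u _ => hasDerivAt_pv _ _
      z'0 := fun u hu => nn_le z'0 (mm u hu)
      d'0 := fun u hu => nn_le d'0 (mm u hu)
      z0 := z0'
      d0 := d0'
      d1 := fun u hu => (dl' u hu).trans (by norm_num)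
      h1 := μ1'
      hk := μk'
      h2 := μ2'
      hx := ex'
      hR := R'
      qE := qE'
      qk := qk'
      q1 := q1'
      fM := fun k hk u hu => hF.fM k hk u (mm' u hu)
      fP := fun k hk u hu => hF.fP k hk u (mm' u hu)
      aM := fun k hk u hu => hF.aM k hk u (mm' u hu)
      aP := fun k hk u hu => hF.aP k hk u (mm' u hu)
      Mk0 := fun k hk u hu => hF.M0 k hk u (mm' u hu)
      Gk0 := fun k hk u hu => hF.G0 k hk u (mm' u hu)
      hx3 := fun y hy u hu => by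
        have hr' : (l.r0 : ℝ) * ((1 + (l.q : ℝ) * l.m) * ((l.b1 : ℝ) * l.Ug))
            ≤ (l.q : ℝ) * l.m := by exact_mod_cast hr
        show (1 + (l.q : ℝ) * l.m) * ((l.b1 : ℝ) * u) ^ 2 * (y * (1 - y))
          + (l.q : ℝ) * l.m * ((l.b1 : ℝ) * u) * y ≤ pv l.x3l u
        rw [pv_x3l]
        exact x3_le b0' (mul_nonneg q0' m0') r00' r01' hr' hy (mm' u hu)
      hp := fun k hk u hu => hF.hp k hk u (mm' u hu)
      hg := fun k hk u hu => hF.hg k hk u (mm' u hu)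
      Gp0 := Gp0'
      Gm0 := Gm0'
      dWT := fun u _ => hasDerivAt_pv _ _
      dVT := fun u _ => hasDerivAt_pv _ _
      dUT := fun u _ => hasDerivAt_pv _ _
      WT0 := WT0'
      VT0 := VT0'
      UT0 := UT0'
      oWT := fun u hu => by
        have h := nn_sub oT (mm u hu)
        simp only [pv_lmul, pv] at h
        push_cast at h
        refine le_trans (le_of_eq ?_) h
        show pv l.μ1 u * ((l.b1 : ℝ) * u) = _
        ring
      oVT := fun u hu => by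
        have h := nn_sub oV (mm u hu)
        simp only [pv_ladd, pv_lmul] at h
        have a1 := mul_le_mul_of_nonneg_left (al' u hu) (Gm0' u hu)
        have a2 := mul_le_mul_of_nonneg_left (ga' u hu) (Gp0' u hu)
        show pv l.μ2 u * pv l.UT u + pv l.μk u * pv l.WT u + pv l.Gm u * (l.yf U).al u
          + pv l.Gp u * (l.yf U).ga u ≤ pv (pd l.VT) u
        linarith
      oUT := fun u hu => by
        have h := nn_sub oU (mm u hu)
        simp only [pv_ladd, pv_lmul] at h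
        rw [pv_C1l (U := U)] at h
        have a1 := mul_le_mul_of_nonneg_left (al' u hu) (Gp0' u hu)
        have a2 := mul_le_mul_of_nonneg_left (ga' u hu) (Gm0' u hu)
        show pv l.μ2 u * ((l.yf U).C1 u * pv l.VT u) + pv l.Gp u * (l.yf U).al u
          + pv l.Gm u * (l.yf U).ga u ≤ pv (pd l.UT) u
        linarith
      dgV := fun u _ => Xl.dneg_pri _ _ _
      dgW := fun u _ => (Xl.dneg_pri l.hW U u).const_add (l.dlt : ℝ)
      dgw := fun u _ => Xl.dneg_pri _ _ _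
      dg1 := fun u _ => Xl.dneg_pri _ _ _
      gV0 := gV0
      gW0 := gW0
      gWd := gWd
      gw0 := gw0
      g10 := fun u hu => nv h10 u hu
      ogV := fun u hu => by
        have h := nn_sub ogV (mm u hu)
        simp only [pv_ladd, pv_lmul, pv, mul_zero, add_zero] at h
        rw [← pv_C4l (U := U), ← pv_C1l (U := U)]
        have a1 := mul_le_mul_of_nonneg_left (gV_le u) (mul_nonneg (AP0 u hu) (C40 u hu))
        have a2 := mul_le_mul_of_nonneg_left (gW_le u) (add_nonneg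
          (mul_nonneg (R0 u hu) (C10 u hu)) (mul_nonneg (AM0 u hu) (C40 u hu)))
        have a3 := mul_le_mul_of_nonneg_left (al' u hu) (C40 u hu)
        show pv l.AP u * pv l.C4l u * (l.yf U).gV u + (pv l.R u * pv l.C1l u
          + pv l.AM u * pv l.C4l u) * (1 + (l.yf U).gW u) + pv l.C4l u * (l.yf U).al u
          ≤ pv l.hV u
        push_cast at h
        linarith
      ogW := fun u hu => by
        have h := nn_sub ogW (mm u hu)
        simp only [pv_ladd, pv_lmul, pv, mul_zero, add_zero] at h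
        have a1 := mul_le_mul_of_nonneg_left (gV_le u) (add_nonneg (R0 u hu) (AM0 u hu))
        have a2 := mul_le_mul_of_nonneg_left (gW_le u) (AP0 u hu)
        have a3 := ga' u hu
        show (pv l.R u + pv l.AM u) * (l.yf U).gV u + pv l.AP u * (1 + (l.yf U).gW u)
          + (l.yf U).ga u ≤ pv l.hW u
        push_cast at h
        linarith
      ogw := fun u hu => by
        have h := nn_sub ogw (mm u hu)
        simp only [pv_ladd, pv_lmul, pv, mul_zero, add_zero] at h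
        have a1 := mul_le_mul_of_nonneg_left (gV_le u) (AP0 u hu)
        have a2 := mul_le_mul_of_nonneg_left (gW_le u) (AM0 u hu)
        have a4 := mul_le_mul_of_nonneg_left (gW_le u) (R0 u hu)
        have a3 := al' u hu
        show pv l.AP u * (l.yf U).gV u + pv l.AM u * (1 + (l.yf U).gW u)
          + pv l.R u * (l.yf U).gW u + (l.yf U).al u ≤ pv l.hw u
        push_cast at h
        linarith
      og1 := fun u hu => by
        have h := nn_sub og1 (mm u hu)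
        simp only [pv_ladd, pv_lmul, pv_lsmul, pv, mul_zero, add_zero] at h
        have a0 := mul_le_mul_of_nonneg_left (gw_le u) b0'
        have a1 := mul_le_mul_of_nonneg_left (gV_le u) (AP0 u hu)
        have a2 := mul_le_mul_of_nonneg_left (gW_le u) (AM0 u hu)
        have a3 := al' u hu
        have a4 : pv l.AP u * (l.yf U).gV u + pv l.AM u * (1 + (l.yf U).gW u) + (l.yf U).al u
            ≤ pv l.AP u * pv l.GV u + (pv l.AM u * (1 + pv l.GW u) + pv l.al u) := by linarith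
        have a5 := mul_le_mul_of_nonneg_left a4 (x30 u hu)
        show (l.b1 : ℝ) * (l.yf U).gw u + pv l.x3l u * (pv l.AP u * (l.yf U).gV u
          + pv l.AM u * (1 + (l.yf U).gW u) + (l.yf U).al u) ≤ pv l.h1 u
        push_cast at h
        linarith }

end Yl

end Pool.Agent.RX.RCN.K
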