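import Pool.Agent.RX.RCN.CkL_1
import Pool.Agent.RX.RCN.CkV
import Pool.Agent.RX.RCN.MDat
import Pool.Agent.RX.RCN.YlA

/-! The first part of the inequality of the centres for all times, second form of the closures
(MP_73ccd0_lc, route M). -/

namespace Pool.Agent.RX.RCN.K

open Set Finset MeasureTheory Pool.Agent.RX.RCRSHalf Pool.Agent.RX.RCG Pool.Agent.RX.RCG.Ct
open Pool.Agent.RX.RCN.Ker Pool.Agent.RX.RCM9 Pool.Agent.RX.RCM9.Bern Pool.Agent.RX.RCM9.Pk

open Pool.Agent.RX.RCN.Ck1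

set_option linter.unusedSectionVars false

/-- the bound of the direct part -/
theorem drl_le {Ca Cv L : ℚ} {dR : List ℚ} {D : ℤ} {n : ℕ} (h : okDr Ca Cv L dR D n = true)
    {U us : ℝ} (hU : U ∈ Icc (Ca : ℝ) Cv) (hus : us ∈ Icc 0 U) (h0 : 0 ≤ Ca) :
    pv dR (U - us) ≤ pv (drl Ca Cv L dR) us := by
  simp only [okDr, Bool.and_eq_true, decide_eq_true_eq, and_assoc] at h
  obtain ⟨L0, h1, h2⟩ := h
  have L0' : (0 : ℝ) ≤ L := by exact_mod_cast L0
  have h0' : (0 : ℝ) ≤ Ca := by exact_mod_cast h0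
  have e1 : pv (drl Ca Cv L dR) us = (L : ℝ) * (Cv - Ca) + 1 / 10 ^ 6 + pv dR (Ca - us) := by
    unfold drl
    rw [pv_ladd, pv_cmpl]
    simp only [pv, mul_zero, add_zero]
    push_cast
    congr 2
    ring
  have lip : ∀ {a b : ℝ}, 0 ≤ a → a ≤ b → b ≤ Cv → pv dR b ≤ pv dR a + L * (b - a) :=
    fun {a b} ha hab hb => by
      have key := nonneg_of_forward (a := a) (s := b)
        (U := fun z => L * (z - a) - (pv dR z - pv dR a)) (U' := fun z => L * 1 - (pv (pd dR) z))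
        (fun z _ => (((hasDerivAt_id z).sub_const a).const_mul (L : ℝ)).sub
          ((hasDerivAt_pv dR z).sub_const _))
        (by simp)
        (fun z hz _ => by
          have h3 := nn_sub h1 (t := z) ⟨by simpa using ha.trans hz.1, hz.2.trans hb⟩
          simp only [pv, mul_zero, add_zero] at h3
          linarith)
        b ⟨hab, le_rfl⟩
      linarith
  rw [e1]
  rcases le_total us Ca with hc | hc
  · have h3 := lip (a := Ca - us) (b := U - us) (by linarith) (by linarith [hU.1])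
      (by linarith [hU.2, hus.1])
    have h4 : (L : ℝ) * (U - us - (Ca - us)) ≤ L * (Cv - Ca) :=
      mul_le_mul_of_nonneg_left (by linarith [hU.2]) L0'
    linarith
  · have h3 := lip (a := 0) (b := U - us) le_rfl (by linarith [hus.2]) (by linarith [hU.2])
    have h4 : (L : ℝ) * (U - us - 0) ≤ L * (Cv - us) :=
      mul_le_mul_of_nonneg_left (by linarith [hU.2]) L0'
    have h5 := nn_le h2 (t := us) ⟨hc, hus.2.trans hU.2⟩
    rw [pv_ladd, pv_lsub, pv_cmpl] at h5
    have e2 : pv [evq dR 0] us = pv dR 0 := by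
      simp only [pv, mul_zero, add_zero]
      rw [evq_pv]
      norm_num
    have e3 : pv [Ca, -1] us = Ca - us := by
      simp only [pv]
      push_cast
      ring
    have e4 : pv [1 / 10 ^ 6 - L * Ca, L] us = 1 / 10 ^ 6 + (L * us - L * Ca) := by
      simp only [pv]
      push_cast
      ring
    rw [e2, e3, e4] at h5
    linarith

/-- the lists of a group are good for the data -/
structure GoodB (y : Yl) (k : Nl) (gR : List ℚ) (g : MDat) (bB : ℚ) (GR : List (List ℚ)) :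
    Prop where
  yok : ∃ D n, y.ok D n = true
  kok : ∃ D n, k.ok y D n = true
  rok : ∃ D n, (rlB y gR 0 []).okM D n = true
  F : y.Fx (pv2 g.Gp) (pv2 g.Gm)
  b1 : y.b1 = bB
  hz : ∀ u ∈ Icc (0 : ℝ) y.Ug, pv g.y u ≤ pv y.z u
  hd : ∀ u ∈ Icc (0 : ℝ) y.Ug, u ≤ pv y.z u + pv y.dl u
  hR : ∀ k ∈ Icc (0 : ℝ) 1, ∀ u ∈ Icc (0 : ℝ) y.Ug, pv2 GR k u
    ≤ pv gR u * ((1 + 3 / 5 * k) * Real.exp (pv y.z u + k * pv y.dl u))

/-- a range of cells -/
theorem rng_of {P : ℕ → Prop} {i0 w i1 : ℕ} (e : i1 = i0 + w) (h : ∀ k < w, P (i0 + k)) :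
    ∀ i < i1, i0 ≤ i → P i := fun i hi h0 => by
  have h1 := h (i - i0) (by omega)
  rwa [Nat.add_sub_cancel' h0] at h1

variable {V : Type} [Fintype V] [DecidableEq V]
variable {Gr : SimpleGraph V} [Fintype Gr.edgeSet] [DecidableEq Gr.edgeSet]
variable {x : Gr.edgeSet → ℝ}

end Pool.Agent.RX.RCN.K
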