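import Pool.Agent.RX.RCN.FxW_1
import Pool.Agent.RX.RCN.XlF
import Pool.Agent.RX.RCN.XlG

/-! The first part of the inequality of the centres in the form of the assembly, second form of
the closures (MP_73ccd0_lc, route M). -/

namespace Pool.Agent.RX.RCN.K

open Set Finset MeasureTheory Pool.Agent.RX.RCRSHalf Pool.Agent.RX.RCG Pool.Agent.RX.RCG.Ct
open Pool.Agent.RX.RCN.Ker Pool.Agent.RX.RCRS Pool.Agent.RX.RCM9 Pool.Agent.RX.RCM9.Bern Pool.Agent.RX.RCM9.Pk
open Pool.Agent.RX.RCN.Ck1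

set_option linter.unusedSectionVars false

/-- the lists are those of the certificate of level 1/2 -/
def Yl.isG (y : Yl) : Bool :=
  decide (y.Ug ≤ fP.U) && decide (y.Ug ≤ CertG2.d.U) && decide (y.z = fP.z)
  && decide (y.dl = fP.dl) && decide (y.z = CertG2.yb2) && decide (y.dl = lsub [0, 1] CertG2.yb2)
  && decide (y.FM = fP.FM) && decide (y.FP = fP.FP) && decide (y.AM = fP.AM)
  && decide (y.AP = fP.AP) && decide (y.Gp = CertG2.sGp) && decide (y.Gm = CertG2.sGm)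

/-- **the lists of a group are good** -/
theorem Yl.good_of {y : Yl} {k : Nl} {g : MDat} {bB : ℚ} {D D' D'' : ℤ} {n n' n'' : ℕ}
    (h1 : y.ok D n = true) (h2 : k.ok y D' n' = true)
    (h3 : (rlB y CertG2.sGmR 0 []).okM D'' n'' = true) (h4 : y.isG = true) (hb : y.b1 = bB)
    (hy : g.y = CertG2.yb2) (hGp : g.Gp = CertG2.Gp) (hGm : g.Gm = CertG2.Gm) :
    GoodB y k CertG2.sGmR g bB CertG2.GmR := by
  simp only [Yl.isG, Bool.and_eq_true, decide_eq_true_eq, and_assoc] at h4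
  obtain ⟨u1, u2, ez, ed, z2, d2, f1, f2, f3, f4, e1, e2⟩ := h4
  refine ⟨⟨D, n, h1⟩, ⟨D', n', h2⟩, ⟨D'', n'', h3⟩, ?_, hb, fun u _ => ?_, fun u _ => ?_, ?_⟩
  · rw [hGp, hGm]
    exact fxP u1 ez ed f1 f2 f3 f4 e1 e2
  · rw [hy, z2]
  · rw [z2, d2, pv_lsub]
    have : pv [0, 1] u = u := by simp [pv]
    rw [this]
    linarith
  · exact cg2_gauge u2 (fun hk hu => sc_le (U0 := cg2_U0) CertG2.sGmR0 CertG2.yb2_nn
      CertG2.sGmR_le hk hu) z2 d2

variable {V : Type} [Fintype V] [DecidableEq V]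
variable {Gr : SimpleGraph V} [Fintype Gr.edgeSet] [DecidableEq Gr.edgeSet]
variable {p : Ps} {g : GDat} {x : Gr.edgeSet → ℝ}

end Pool.Agent.RX.RCN.K
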