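import Pool.Agent.RX.RCN.CV1D
import Pool.Agent.RX.RCN.CV1G
import Pool.Agent.RX.RCN.MW
import Pool.Agent.RX.RCN.VLy0
import Pool.Agent.RX.RCN.VLy1
import Pool.Agent.RX.RCN.VLy10
import Pool.Agent.RX.RCN.VLy11
import Pool.Agent.RX.RCN.VLy12
import Pool.Agent.RX.RCN.VLy13
import Pool.Agent.RX.RCN.VLy14
import Pool.Agent.RX.RCN.VLy15
import Pool.Agent.RX.RCN.VLy16
import Pool.Agent.RX.RCN.VLy17
import Pool.Agent.RX.RCN.VLy18
import Pool.Agent.RX.RCN.VLy19
import Pool.Agent.RX.RCN.VLy2
import Pool.Agent.RX.RCN.VLy20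
import Pool.Agent.RX.RCN.VLy21
import Pool.Agent.RX.RCN.VLy22
import Pool.Agent.RX.RCN.VLy23
import Pool.Agent.RX.RCN.VLy24
import Pool.Agent.RX.RCN.VLy25
import Pool.Agent.RX.RCN.VLy26
import Pool.Agent.RX.RCN.VLy27
import Pool.Agent.RX.RCN.VLy3
import Pool.Agent.RX.RCN.VLy4
import Pool.Agent.RX.RCN.VLy5
import Pool.Agent.RX.RCN.VLy6
import Pool.Agent.RX.RCN.VLy7
import Pool.Agent.RX.RCN.VLy8
import Pool.Agent.RX.RCN.VLy9
import Pool.Agent.RX.RCN.XlH

/-! Generated (helper30): the lists of the groups are good (MP_73ccd0_lc, route M). -/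

set_option autoImplicit false

namespace Pool.Agent.RX.RCN.CV1

open Pool.Agent.RX.RCN Pool.Agent.RX.RCN.K Pool.Agent.RX.RCM9 Pool.Agent.RX.RCN.Ck1 Pool.Agent.RX.RCN.V2L

theorem y0_good : GoodB V2L.y0 V2L.k0 CertG2.sGmR mW tL.bB CertG2.GmR :=
  Yl.good_of V2L.y0_ok V2L.k0_ok y0_om (by decide +kernel) (by decide +kernel)
    (by decide +kernel) (by decide +kernel) (by decide +kernel)

theorem y1_good : GoodB V2L.y1 V2L.k1 CertG2.sGmR mW tL.bB CertG2.GmR :=
  Yl.good_of V2L.y1_ok V2L.k1_ok y1_om (by decide +kernel) (by decide +kernel)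
    (by decide +kernel) (by decide +kernel) (by decide +kernel)

theorem y2_good : GoodB V2L.y2 V2L.k2 CertG2.sGmR mW tL.bB CertG2.GmR :=
  Yl.good_of V2L.y2_ok V2L.k2_ok y2_om (by decide +kernel) (by decide +kernel)
    (by decide +kernel) (by decide +kernel) (by decide +kernel)

theorem y3_good : GoodB V2L.y3 V2L.k3 CertG2.sGmR mW tL.bB CertG2.GmR :=
  Yl.good_of V2L.y3_ok V2L.k3_ok y3_om (by decide +kernel) (by decide +kernel)
    (by decide +kernel) (by decide +kernel) (by decide +kernel)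

theorem y4_good : GoodB V2L.y4 V2L.k4 CertG2.sGmR mW tL.bB CertG2.GmR :=
  Yl.good_of V2L.y4_ok V2L.k4_ok y4_om (by decide +kernel) (by decide +kernel)
    (by decide +kernel) (by decide +kernel) (by decide +kernel)

theorem y5_good : GoodB V2L.y5 V2L.k5 CertG2.sGmR mW tL.bB CertG2.GmR :=
  Yl.good_of V2L.y5_ok V2L.k5_ok y5_om (by decide +kernel) (by decide +kernel)
    (by decide +kernel) (by decide +kernel) (by decide +kernel)

theorem y6_good : GoodB V2L.y6 V2L.k6 CertG2.sGmR mW tL.bB CertG2.GmR :=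
  Yl.good_of V2L.y6_ok V2L.k6_ok y6_om (by decide +kernel) (by decide +kernel)
    (by decide +kernel) (by decide +kernel) (by decide +kernel)

theorem y7_good : GoodB V2L.y7 V2L.k7 CertG2.sGmR mW tL.bB CertG2.GmR :=
  Yl.good_of V2L.y7_ok V2L.k7_ok y7_om (by decide +kernel) (by decide +kernel)
    (by decide +kernel) (by decide +kernel) (by decide +kernel)

theorem y8_good : GoodB V2L.y8 V2L.k8 CertG2.sGmR mW tL.bB CertG2.GmR :=
  Yl.good_of V2L.y8_ok V2L.k8_ok y8_om (by decide +kernel) (by decide +kernel)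
    (by decide +kernel) (by decide +kernel) (by decide +kernel)

theorem y9_good : GoodB V2L.y9 V2L.k9 CertG2.sGmR mW tL.bB CertG2.GmR :=
  Yl.good_of V2L.y9_ok V2L.k9_ok y9_om (by decide +kernel) (by decide +kernel)
    (by decide +kernel) (by decide +kernel) (by decide +kernel)

theorem y10_good : GoodB V2L.y10 V2L.k10 CertG2.sGmR mW tL.bB CertG2.GmR :=
  Yl.good_of V2L.y10_ok V2L.k10_ok y10_om (by decide +kernel) (by decide +kernel)
    (by decide +kernel) (by decide +kernel) (by decide +kernel)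

theorem y11_good : GoodB V2L.y11 V2L.k11 CertG2.sGmR mW tL.bB CertG2.GmR :=
  Yl.good_of V2L.y11_ok V2L.k11_ok y11_om (by decide +kernel) (by decide +kernel)
    (by decide +kernel) (by decide +kernel) (by decide +kernel)

theorem y12_good : GoodB V2L.y12 V2L.k12 CertG2.sGmR mW tL.bB CertG2.GmR :=
  Yl.good_of V2L.y12_ok V2L.k12_ok y12_om (by decide +kernel) (by decide +kernel)
    (by decide +kernel) (by decide +kernel) (by decide +kernel)

theorem y13_good : GoodB V2L.y13 V2L.k13 CertG2.sGmR mW tL.bB CertG2.GmR :=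
  Yl.good_of V2L.y13_ok V2L.k13_ok y13_om (by decide +kernel) (by decide +kernel)
    (by decide +kernel) (by decide +kernel) (by decide +kernel)

theorem y14_good : GoodB V2L.y14 V2L.k14 CertG2.sGmR mW tL.bB CertG2.GmR :=
  Yl.good_of V2L.y14_ok V2L.k14_ok y14_om (by decide +kernel) (by decide +kernel)
    (by decide +kernel) (by decide +kernel) (by decide +kernel)

theorem y15_good : GoodB V2L.y15 V2L.k15 CertG2.sGmR mW tL.bB CertG2.GmR :=
  Yl.good_of V2L.y15_ok V2L.k15_ok y15_om (by decide +kernel) (by decide +kernel)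
    (by decide +kernel) (by decide +kernel) (by decide +kernel)

theorem y16_good : GoodB V2L.y16 V2L.k16 CertG2.sGmR mW tL.bB CertG2.GmR :=
  Yl.good_of V2L.y16_ok V2L.k16_ok y16_om (by decide +kernel) (by decide +kernel)
    (by decide +kernel) (by decide +kernel) (by decide +kernel)

theorem y17_good : GoodB V2L.y17 V2L.k17 CertG2.sGmR mW tL.bB CertG2.GmR :=
  Yl.good_of V2L.y17_ok V2L.k17_ok y17_om (by decide +kernel) (by decide +kernel)
    (by decide +kernel) (by decide +kernel) (by decide +kernel)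

theorem y18_good : GoodB V2L.y18 V2L.k18 CertG2.sGmR mW tL.bB CertG2.GmR :=
  Yl.good_of V2L.y18_ok V2L.k18_ok y18_om (by decide +kernel) (by decide +kernel)
    (by decide +kernel) (by decide +kernel) (by decide +kernel)

theorem y19_good : GoodB V2L.y19 V2L.k19 CertG2.sGmR mW tL.bB CertG2.GmR :=
  Yl.good_of V2L.y19_ok V2L.k19_ok y19_om (by decide +kernel) (by decide +kernel)
    (by decide +kernel) (by decide +kernel) (by decide +kernel)

theorem y20_good : GoodB V2L.y20 V2L.k20 CertG2.sGmR mW tL.bB CertG2.GmR :=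
  Yl.good_of V2L.y20_ok V2L.k20_ok y20_om (by decide +kernel) (by decide +kernel)
    (by decide +kernel) (by decide +kernel) (by decide +kernel)

theorem y21_good : GoodB V2L.y21 V2L.k21 CertG2.sGmR mW tL.bB CertG2.GmR :=
  Yl.good_of V2L.y21_ok V2L.k21_ok y21_om (by decide +kernel) (by decide +kernel)
    (by decide +kernel) (by decide +kernel) (by decide +kernel)

theorem y22_good : GoodB V2L.y22 V2L.k22 CertG2.sGmR mW tL.bB CertG2.GmR :=
  Yl.good_of V2L.y22_ok V2L.k22_ok y22_om (by decide +kernel) (by decide +kernel)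
    (by decide +kernel) (by decide +kernel) (by decide +kernel)

theorem y23_good : GoodB V2L.y23 V2L.k23 CertG2.sGmR mW tL.bB CertG2.GmR :=
  Yl.good_of V2L.y23_ok V2L.k23_ok y23_om (by decide +kernel) (by decide +kernel)
    (by decide +kernel) (by decide +kernel) (by decide +kernel)

theorem y24_good : GoodB V2L.y24 V2L.k24 CertG2.sGmR mW tL.bB CertG2.GmR :=
  Yl.good_of V2L.y24_ok V2L.k24_ok y24_om (by decide +kernel) (by decide +kernel)
    (by decide +kernel) (by decide +kernel) (by decide +kernel)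

theorem y25_good : GoodB V2L.y25 V2L.k25 CertG2.sGmR mW tL.bB CertG2.GmR :=
  Yl.good_of V2L.y25_ok V2L.k25_ok y25_om (by decide +kernel) (by decide +kernel)
    (by decide +kernel) (by decide +kernel) (by decide +kernel)

theorem y26_good : GoodB V2L.y26 V2L.k26 CertG2.sGmR mW tL.bB CertG2.GmR :=
  Yl.good_of V2L.y26_ok V2L.k26_ok y26_om (by decide +kernel) (by decide +kernel)
    (by decide +kernel) (by decide +kernel) (by decide +kernel)

theorem y27_good : GoodB V2L.y27 V2L.k27 CertG2.sGmR mW tL.bB CertG2.GmR :=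
  Yl.good_of V2L.y27_ok V2L.k27_ok y27_om (by decide +kernel) (by decide +kernel)
    (by decide +kernel) (by decide +kernel) (by decide +kernel)

end Pool.Agent.RX.RCN.CV1
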