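import Pool.Agent.RX.RCM.Pend
import Pool.Agent.RX.RCN.Brg_1

/-! The family of the closures with exact closures at the pendant vertices (MP_73ccd0_lc). -/

namespace Pool.Agent.RX.RCN.K

open Set Finset MeasureTheory Pool.Agent.RX.RCRSHalf Pool.Agent.RX.RCG Pool.Agent.RX.RCG.Ct
set_option linter.unusedSectionVars false

variable {V : Type*} [Fintype V] [DecidableEq V]
variable {Z : Hzd} {x : V → V → ℝ} {P : V → Prop} [DecidablePred P] {C : Cx V}

/-- `d` is a pendant vertex of `b` -/
def Pnd (x : V → V → ℝ) (P : V → Prop) (b d : V) : Prop := ¬P d ∧ x b d ≠ 0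

noncomputable instance (x : V → V → ℝ) (P : V → Prop) (b d : V) : Decidable (Pnd x P b d) :=
  Classical.dec _

/-- the exponents of the closures, zero at the pendant vertices of `b` -/
noncomputable def Cx.pd (C : Cx V) (x : V → V → ℝ) (P : V → Prop) : Cx V :=
  { C with
    L := fun i j a b c d t s => if Pnd x P b d then 0 else C.L i j a b c d t s
    Lt := fun i j a b c d t s => if Pnd x P b d then 0 else C.Lt i j a b c d t s }

/-- the closures at a pendant vertex -/
theorem pend_clo (hx : Wt x P 1) {h : ℝ → V → V → ℝ} {H : V → V → ℝ → ℝ} {t : ℝ}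
    (hh : Haz h H) (ht : t ∈ Icc (0 : ℝ) bt)
    (hle : ∀ u v, ∀ r ∈ Icc 0 t, h r u v ≤ Z.hh x P r u v) {a b c d : V} (hv : Vq P a b c d)
    (hd : ¬P d) (hbd : x b d ≠ 0) {s : ℝ} (hs : s ∈ Icc 0 t) :
    RCM.CloD h t s {a} {a, b} c d 1 ∧ RCM.CloDt h t s {a} {a, b} c d 1 := by
  obtain ⟨_, _, hab, hc, hd', hcd⟩ := hv
  simp only [Finset.mem_compl, Finset.mem_insert, Finset.mem_singleton, not_or] at hc hd'
  refine RCM.clo_pend hh (btI ht) (fun r hr v hvb => ?_) hab hd'.2 hd'.1 (Ne.symm hcd) hc.2 hs
  have h0 : x d v = 0 := by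
    by_contra h1
    exact hvb (hx.pend1 b d v hd hbd h1)
  have h2 := hle d v r hr
  rw [Hzd.hh_zero h0] at h2
  exact le_antisymm h2 (hh.nonneg r d v)

/-- the modified family is good -/
theorem Cls.pd (hC : Cls Z x P C) (hx : Wt x P 1) : Cls Z x P (C.pd x P) where
  N0 := hC.N0
  ε0 := hC.ε0
  sg0 := hC.sg0
  last := hC.last
  cL i hi j hj a b c d hv := by
    show ContinuousOn (fun p : ℝ × ℝ => if Pnd x P b d then 0
      else C.L i j a b c d p.1 p.2) _
    split_ifs
    · exact continuousOn_const
    · exact hC.cL i hi j hj a b c d hv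
  cLt i hi j hj a b c d hv := by
    show ContinuousOn (fun p : ℝ × ℝ => if Pnd x P b d then 0
      else C.Lt i j a b c d p.1 p.2) _
    split_ifs
    · exact continuousOn_const
    · exact hC.cLt i hi j hj a b c d hv
  vL i hi j hj h H t hh ht hle hHle hlo a b c d hv s hs hsg := by
    show RCM.CloD h t s {a} {a, b} c d (Real.exp (if Pnd x P b d then 0
      else C.L i j a b c d t s))
    split_ifs with h1
    · rw [Real.exp_zero]
      exact (pend_clo hx hh (cell_sub hi ht) hle hv h1.1 h1.2 hs).1
    · exact hC.vL i hi j hj h H t hh ht hle hHle hlo a b c d hv s hs hsg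
  vLt i hi j hj h H t hh ht hle hHle hlo a b c d hv s hs hsg := by
    show RCM.CloDt h t s {a} {a, b} c d (Real.exp (if Pnd x P b d then 0
      else C.Lt i j a b c d t s))
    split_ifs with h1
    · rw [Real.exp_zero]
      exact (pend_clo hx hh (cell_sub hi ht) hle hv h1.1 h1.2 hs).2
    · exact hC.vLt i hi j hj h H t hh ht hle hHle hlo a b c d hv s hs hsg

/-- the exponents at the pendant vertices of `b` vanish -/
theorem Lc_pend {a b c d : V} (hd : ¬P d) (hbd : x b d ≠ 0) (t s : ℝ) :
    Lc P (C.pd x P) a b c d t s = 0 ∧ Lr P (C.pd x P) a b c d t s = 0 := by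
  have key : ∀ n j, bl (C.pd x P).ε ((C.pd x P).sg (ci (C.pd x P).N t))
      (fun _ => (0 : ℝ)) s n j = 0 := by
    intro n
    induction n with
    | zero => exact fun j => rfl
    | succ n ih => intro j; rw [bl_succ, ih]; ring
  constructor
  · unfold Lc
    split_ifs
    · have e : (fun j => max 0 ((C.pd x P).L (ci (C.pd x P).N t) j a b c d t
          (min s ((C.pd x P).sg (ci (C.pd x P).N t) j)))) = fun _ => (0 : ℝ) := by
        funext j
        have : (C.pd x P).L (ci (C.pd x P).N t) j a b c d t
          (min s ((C.pd x P).sg (ci (C.pd x P).N t) j)) = 0 := by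
          show (if Pnd x P b d then (0 : ℝ) else _) = 0
          rw [if_pos ⟨hd, hbd⟩]
        rw [this, max_self]
      rw [e]
      exact key _ _
    · rfl
  · unfold Lr
    split_ifs
    · have e : (fun j => max 0 ((C.pd x P).Lt (ci (C.pd x P).N t) j a b c d t
          (min s ((C.pd x P).sg (ci (C.pd x P).N t) j)))) = fun _ => (0 : ℝ) := by
        funext j
        have : (C.pd x P).Lt (ci (C.pd x P).N t) j a b c d t
          (min s ((C.pd x P).sg (ci (C.pd x P).N t) j)) = 0 := by
          show (if Pnd x P b d then (0 : ℝ) else _) = 0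
          rw [if_pos ⟨hd, hbd⟩]
        rw [this, max_self]
      rw [e]
      exact key _ _
    · rfl

/-- the other exponents do not change -/
theorem Cx.pd_L {i j : ℕ} {a b c d : V} {t s : ℝ} (hd : P d) :
    (C.pd x P).L i j a b c d t s = C.L i j a b c d t s ∧
      (C.pd x P).Lt i j a b c d t s = C.Lt i j a b c d t s := by
  constructor
  · show (if Pnd x P b d then (0 : ℝ) else _) = _
    rw [if_neg fun h => h.1 hd]
  · show (if Pnd x P b d then (0 : ℝ) else _) = _
    rw [if_neg fun h => h.1 hd]

/-- inside `P` the exponents do not change -/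
theorem Lc_pd {a b c d : V} (hd : P d) (t s : ℝ) :
    Lc P (C.pd x P) a b c d t s = Lc P C a b c d t s ∧
      Lr P (C.pd x P) a b c d t s = Lr P C a b c d t s := by
  constructor
  · unfold Lc
    split_ifs
    · congr 1
      funext j
      congr 1
      exact (Cx.pd_L hd).1
    · rfl
  · unfold Lr
    split_ifs
    · congr 1
      funext j
      congr 1
      exact (Cx.pd_L hd).2
    · rfl

end Pool.Agent.RX.RCN.K
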