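import Pool.Agent.RX.RCN.Cel
import Pool.Agent.RX.RCN.Pd

/-! The assembly with one class per cell (MP_73ccd0_lc, route M). -/

namespace Pool.Agent.RX.RCN.K

open Set Finset MeasureTheory Pool.Agent.RX.RCRSHalf Pool.Agent.RX.RCG Pool.Agent.RX.RCG.Ct
open Pool.Agent.RX.RCN.Ker Pool.Agent.RX.RCRS Pool.Agent.RX.RCM9 Pool.Agent.RX.RCM9.Bern Pool.Agent.RX.RCM9.Pk

set_option linter.unusedSectionVars false

/-- the family of the closures: `N` cells, one class each, zero at the pendant vertices -/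
noncomputable def Ps.cO {V : Type*} [Fintype V] [DecidableEq V] (p : Ps) (x : V → V → ℝ)
    (P : V → Prop) [DecidablePred P] (N : ℕ) (G : ℕ → V → V → Fm V) : Cx V :=
  (p.cx x P N (fun _ => 0) (fun i _ => cb N i) 1 (fun i _ => G i)).pd x P

/-- the families of one class per cell are good -/
theorem Ps.clsO {V : Type*} [Fintype V] [DecidableEq V] {p : Ps} {x : V → V → ℝ}
    {P : V → Prop} [DecidablePred P] (hp : p.Ok) (hx : Wt x P 1) {N : ℕ} (N0 : 0 < N)
    {G : ℕ → V → V → Fm V} {m q : ℕ → V → V → ℝ}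
    (hG : ∀ i < N, ∀ a b, P a → P b → a ≠ b →
      Cl2 p x P a b (cb N i) (ca N i) (cb N i) (m i a b) (q i a b) (G i a b)) :
    Cls p.z.hz x P (p.cO x P N G) := by
  refine Cls.pd (Ps.cls hp hx N0 one_pos (fun i _ => rfl) (fun i _ j _ => ?_)
    (m := fun i _ => m i) (q := fun i _ => q i) fun i hi j _ a b ha hb hab =>
      hG i hi a b ha hb hab) hx
  unfold cb
  have := bt_pos
  positivity

variable {V : Type} [Fintype V] [DecidableEq V]
variable {Gr : SimpleGraph V} [Fintype Gr.edgeSet] [DecidableEq Gr.edgeSet]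

end Pool.Agent.RX.RCN.K
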