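import Pool.Agent.RX.RCM9.DatC
import Pool.Agent.RX.RCM9.DatS
import Pool.Agent.RX.RCM9.DatT
import Pool.Agent.RX.RCM9.DatY
import Pool.Agent.RX.RCN.Asm_1

/-! The data of the assembly from rational polynomials (MP_73ccd0_lc, route M). -/

namespace Pool.Agent.RX.RCN.K

open Set Finset MeasureTheory Pool.Agent.RX.RCRSHalf Pool.Agent.RX.RCG Pool.Agent.RX.RCG.Ct
open Pool.Agent.RX.RCN.Ker Pool.Agent.RX.RCRS Pool.Agent.RX.RCM9 Pool.Agent.RX.RCM9.Bern Pool.Agent.RX.RCM9.Pk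

set_option linter.unusedSectionVars false

/-- the polynomial data -/
structure Ps where
  d : Dat
  z : HDat
  y : YDat
  g : KDat
  κ : ℚ
  /-- a lower bound of the hazards of the real pairs, divided by the weights -/
  lo : List ℚ := []

/-- the condition on the constant of the truncation: `κ mb (1 + t)² ≤ b(y, t)` -/
def Ps.eKl (p : Ps) : E :=
  1 + (1 - Dat.xlo) * (pe p.d.be0 vT - 1) + Dat.xlo * pe p.d.be1 vT
    - qc p.κ * pe p.z.mb vT * (1 + vT) ^ 2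

def Ps.eKh (p : Ps) : E :=
  1 + (1 - Dat.xhi) * (pe p.d.be0 vT - 1) + hlf * pe p.d.be1 vT
    - qc p.κ * pe p.z.mb vT * (1 + vT) ^ 2

/-- the expression of the lower bound of the hazards -/
def Ps.eLo (p : Ps) (x e : E) : E :=
  p.d.eLP x e vT - pe p.lo vT * ((1 + vT) + qc p.d.th * pe p.d.Z vT * (1 + vT) ^ 2)

def Ps.eLo0 (p : Ps) : E := pe p.lo vT
def Ps.eLol (p : Ps) : E := p.eLo Dat.xlo Dat.xlo
def Ps.eLoh (p : Ps) : E := p.eLo Dat.xhi hlf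

/-- the polynomial inequalities -/
structure Ps.Ok (p : Ps) : Prop where
  d : p.d.Pos
  b : p.d.Bd
  s : p.d.BdS
  k : p.d.PosK
  z : p.z.Pos p.d
  y : p.y.Pos p.z
  g : p.g.Pos p.z
  κ0 : 0 < p.κ
  κ2 : p.κ ≤ 1 / 2
  Kl : NN p.eKl
  Kh : NN p.eKh
  te : p.d.PosT
  mtb : ev p.z.mb btq ≤ mtq
  lo0 : NN p.eLo0
  lol : NN p.eLol
  loh : NN p.eLoh

variable {p : Ps}

theorem mb_mt (h : p.Ok) : pv p.z.mb bt ≤ mt := by
  have h1 : ((ev p.z.mb btq : ℚ) : ℝ) ≤ (mtq : ℝ) := by exact_mod_cast h.mtb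
  rwa [← pv_evb] at h1

theorem lo_nn (h : p.Ok) {t : ℝ} (ht : t ∈ Icc (0 : ℝ) bt) : 0 ≤ pv p.lo t := by
  have h2 := h.lo0.t ht
  simpa only [Ps.eLo0, val_pe, val_vT] using h2

theorem lo_le (h : p.Ok) {y : ℝ} (hy : y ∈ Icc (0 : ℝ) 1) {t : ℝ} (ht : t ∈ Icc (0 : ℝ) bt) :
    pv p.lo t * p.d.dt.cf.ab y t
      ≤ ((1 + t) ^ 2)⁻¹ - p.d.dt.cf.al' y t - 2 * (1 - y) * p.d.dt.cg.N y t
        - p.d.dt.cg.gm y t := by
  have hT : 0 < 1 + t := by linarith [ht.1]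
  have h1 : 0 < (1 + t) ^ 2 := by positivity
  have key : pv p.lo t * ((1 + t) + (p.d.th : ℝ) * pv p.d.Z t * (1 + t) ^ 2)
      ≤ p.d.rLP y (eta y) t := by
    rcases le_total y (1 / 2) with h1 | h1
    · have h2 := h.lol (2 * y) 0 0 t (Dat.two_mul_mem hy.1 h1) Dat.z01 Dat.z01 ht
      simp only [Ps.eLol, Ps.eLo, val_sub, Dat.val_eLP, val_mul, val_add, val_one, val_pow,
        val_pe, val_qc, Dat.val_xlo, val_vT] at h2
      rw [show 1 / 2 * (2 * y) = y by ring] at h2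
      rw [Dat.eta_lo h1]
      linarith
    · have h2 := h.loh (2 * y - 1) 0 0 t (Dat.two_sub_mem h1 hy.2) Dat.z01 Dat.z01 ht
      simp only [Ps.eLoh, Ps.eLo, val_sub, Dat.val_eLP, val_mul, val_add, val_one, val_pow,
        val_pe, val_qc, Dat.val_xhi, val_hlf, val_vT] at h2
      rw [show 1 / 2 + 1 / 2 * (2 * y - 1) = y by ring] at h2
      rw [Dat.eta_hi h1]
      linarith
  refine le_of_mul_le_mul_right ?_ h1
  have e0 : p.d.dt.cf.ab y t = (1 + t)⁻¹ + (p.d.th : ℝ) * pv p.d.Z t := rfl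
  have e1 : pv p.lo t * p.d.dt.cf.ab y t * (1 + t) ^ 2
      = pv p.lo t * ((1 + t) + (p.d.th : ℝ) * pv p.d.Z t * (1 + t) ^ 2) := by
    rw [e0]
    field_simp
  have e2 : p.d.dt.cg.gm y t = (p.d.SP : ℝ) * (1 - y) * p.d.dt.jp t := rfl
  have e3 : p.d.dt.kapp t = (1 + t) ^ 2 * p.d.dt.jp t := (Dat.ok h.d h.b).hjp t ht
  have e4 : (((1 + t) ^ 2)⁻¹ - p.d.dt.cf.al' y t - 2 * (1 - y) * p.d.dt.cg.N y t
        - p.d.dt.cg.gm y t) * (1 + t) ^ 2 = p.d.rLP y (eta y) t := by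
    rw [e2]
    have e5 : p.d.rLP y (eta y) t = 1 - (eta y * p.d.dt.Z' t * (1 + t) ^ 2
      + 2 * (1 - y) * p.d.dt.N t * (1 + t) ^ 2 + (p.d.SP : ℝ) * (1 - y) * p.d.dt.kapp t) := rfl
    rw [e5, e3]
    have e6 : p.d.dt.cf.al' y t = eta y * p.d.dt.Z' t := rfl
    have e7 : p.d.dt.cg.N y t = p.d.dt.N t := rfl
    rw [e6, e7]
    field_simp
    ring
  rw [e1, e4]
  exact key

theorem rr_le_fh (h : p.Ok) {y : ℝ} (hy : y ∈ Icc (0 : ℝ) 1) {s : ℝ} (hs : s ∈ Icc (0 : ℝ) bt) :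
    p.z.hz.rr y s * (p.κ : ℝ) ≤ (p.d.dt.kf (pv p.d.be0) (pv p.d.be1) p.d.rPe p.d.rP).fh y s := by
  have hm := h.z.rr_mb hy hs
  have κ0 : (0 : ℝ) ≤ (p.κ : ℝ) := by exact_mod_cast h.κ0.le
  have h1 := mul_le_mul_of_nonneg_right hm κ0
  refine h1.trans ?_
  show _ ≤ (1 + (1 - y) * (pv p.d.be0 s - 1) + eta y * pv p.d.be1 s) * ((1 + s) ^ 2)⁻¹
  have hs2 : 0 < (1 + s) ^ 2 := by
    have := hs.1
    positivity
  rw [← div_eq_mul_inv, le_div_iff₀ hs2]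
  rcases le_total y (1 / 2) with h1 | h1
  · have h2 := h.Kl (2 * y) 0 0 s (Dat.two_mul_mem hy.1 h1) Dat.z01 Dat.z01 hs
    simp only [Ps.eKl, val_sub, val_mul, val_add, val_one, val_pow, val_pe, val_qc,
      Dat.val_xlo, val_vT] at h2
    rw [show 1 / 2 * (2 * y) = y by ring] at h2
    rw [Dat.eta_lo h1]
    linarith
  · have h2 := h.Kh (2 * y - 1) 0 0 s (Dat.two_sub_mem h1 hy.2) Dat.z01 Dat.z01 hs
    simp only [Ps.eKh, val_sub, val_mul, val_add, val_one, val_pow, val_pe, val_qc, val_hlf,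
      Dat.val_xhi, val_vT] at h2
    rw [show 1 / 2 + 1 / 2 * (2 * y - 1) = y by ring] at h2
    rw [Dat.eta_hi h1]
    linarith

theorem rPe_one (h : p.Ok) {w : ℝ} (hw : w ∈ Icc (0 : ℝ) 1) {t : ℝ} (ht : t ∈ Icc (0 : ℝ) bt) :
    1 ≤ p.d.rPe w t := by
  have e0 : (0 : ℝ) ≤ (p.d.ee : ℝ) := by exact_mod_cast h.k.ee0
  have h1 := mul_nonneg hw.1 ht.1
  have h2 := mul_nonneg e0 ht.1
  unfold Dat.rPe
  nlinarith [mul_nonneg h1 h2]

variable {V : Type} [Fintype V] [DecidableEq V]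
variable {Gr : SimpleGraph V} [Fintype Gr.edgeSet] [DecidableEq Gr.edgeSet]

/-- the data of the assembly -/
noncomputable def Ps.da (p : Ps) (κd : ℝ → ℝ → ℝ → ℝ) (C : Cx (V ⊕ V)) :
    Da V where
  T := p.d.dt
  sl := p.d.rsig
  b0 := pv p.d.be0
  b1 := pv p.d.be1
  Pe := p.d.rPe
  Pt := p.d.rP
  Z := p.z.hz
  B := p.g.rB
  E1 := p.g.rE1
  Th := p.z.Th
  Y := p.y.Y
  κ := p.κ
  κd := κd
  C := C

theorem da_ok (h : p.Ok) {κd : ℝ → ℝ → ℝ → ℝ} {C : Cx (V ⊕ V)} (hlo : C.lo = pv p.lo)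
    (cκ : ∀ w, CN C.N (κd w))
    (κP : ∀ w ∈ Icc (0 : ℝ) 1, ∀ t s, 0 ≤ s → s ≤ t → t ≤ bt → p.d.rPe w t ≤ κd w t s) :
    (p.da κd C).Ok where
  T := Dat.ok h.d h.b
  sl := Dat.slok h.d h.s
  k := Dat.kok h.k
  te := Dat.te h.te h.k
  Z := h.z.ok h.d
  Cf := h.g.cf
  kap :=
    { k0 := by
        show (0 : ℝ) < (p.κ : ℝ)
        exact_mod_cast h.κ0
      k2 := by
        show (p.κ : ℝ) ≤ 1 / 2
        have := h.κ2
        have h2 : (p.κ : ℝ) ≤ ((1 / 2 : ℚ) : ℝ) := by exact_mod_cast this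
        refine h2.trans (le_of_eq ?_)
        norm_num
      fh := fun y hy s hs => rr_le_fh h hy hs
      Pe := fun w hw t ht => rPe_one h hw ht }
  Th := CN.of_cont YDat.cont_Th.continuousOn
  Y := CN.of_cont YDat.cont_Y.continuousOn
  ck t ht r hr := YDat.Pos.clt h.z h.d hr.1 hr.2 ht.2 le_rfl
  cκ := cκ
  κP := κP
  rmt := fun y hy => (h.z.rr_mb hy bt_m1).trans (mb_mt h)
  mt1 := (h.z.mb_one bt_m1).trans (mb_mt h)
  lo0 := fun r hr => by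
    show 0 ≤ C.lo r
    rw [hlo]
    exact lo_nn h hr
  lo := fun y hy r hr => by
    show C.lo r * _ ≤ _
    rw [hlo]
    exact lo_le h hy hr

end Pool.Agent.RX.RCN.K
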