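import Pool.Agent.RX.RCN.Free
import Pool.Agent.RX.RCN.Ident

/-! From bounds of the triple probabilities to the cost bound (MP_73ccd0_lc, route M). -/

namespace Pool.Agent.RX.RCN

open Set Finset Pool.Agent.RX.RCRSHalf Pool.Agent.RX.RCG Pool.Agent.RX.RCG.Ct

set_option linter.unusedSectionVars false

variable {V : Type*} [Fintype V] [DecidableEq V]
variable {x : V → V → ℝ} {P : V → Prop} [DecidablePred P]
variable {h : ℝ → V → V → ℝ} {H : V → V → ℝ → ℝ}
variable {ψ ψ' : V → V → ℝ → ℝ} {φ : V → V → ℝ → ℝ} {ab : ℝ → ℝ → ℝ} {t : ℝ}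

/-- a pendant vertex is free whenever its neighbour is free -/
theorem pend_zero (hh : Haz h H) {u d : V} (hud : u ≠ d)
    (hzz : ∀ t ∈ Icc (0 : ℝ) 1, ∀ c, c ≠ u → h t d c = 0) {s : ℝ} (hs : s ∈ Icc (0 : ℝ) 1) :
    ∑ F : Finset V, lw h ∅ s F * (if u ∈ F ∧ d ∉ F then 1 else 0) = 0 := by
  have hμ := hh.lw (∅ : Finset V)
  have hgen : ∀ t ∈ Icc (0 : ℝ) 1, ∀ F : Finset V,
      gen (h t) (fun F => if u ∈ F ∧ d ∉ F then (1 : ℝ) else 0) F ≤ 0 := by
    intro t ht F
    unfold gen
    refine mul_nonpos_of_nonneg_of_nonpos (by norm_num)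
      (Finset.sum_nonpos fun a ha => Finset.sum_nonpos fun b hb => ?_)
    beta_reduce
    by_cases hF : u ∈ F ∧ d ∉ F
    · rw [if_pos hF]
      refine mul_nonpos_of_nonneg_of_nonpos (hh.nonneg _ _ _) ?_
      split_ifs <;> norm_num
    · rw [if_neg hF]
      by_cases hG : u ∈ (F.erase a).erase b ∧ d ∉ (F.erase a).erase b
      · have h1 : u ∈ F := Finset.mem_of_mem_erase (Finset.mem_of_mem_erase hG.1)
        have h2 : d ∈ F := by
          by_contra hc; exact hF ⟨h1, hc⟩
        have ha1 : a ≠ u := fun e => by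
          have := (Finset.mem_erase.1 (Finset.mem_of_mem_erase hG.1)).1
          exact this e.symm
        have hb1 : b ≠ u := fun e => by
          have := (Finset.mem_erase.1 hG.1).1
          exact this e.symm
        have h3 : a = d ∨ b = d := by
          by_contra hc
          push Not at hc
          exact hG.2 (Finset.mem_erase.2 ⟨fun e => hc.2 e.symm,
            Finset.mem_erase.2 ⟨fun e => hc.1 e.symm, h2⟩⟩)
        have hz : h t a b = 0 := by
          rcases h3 with rfl | rfl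
          · exact hzz t ht b hb1
          · rw [hh.symm]
            exact hzz t ht a ha1
        rw [hz]; simp
      · rw [if_neg hG]; simp
  have key := nonneg_of_forward
    (U := fun t => -∑ F : Finset V, lw h ∅ t F * (if u ∈ F ∧ d ∉ F then 1 else 0))
    (a := 0) (s := 1)
    (fun t ht => (hμ.deriv_sum
      (φ := fun _ F => if u ∈ F ∧ d ∉ F then (1 : ℝ) else 0)
      (φ' := fun _ _ => 0) ht (fun F => hasDerivAt_const _ _)).neg)
    (by
      rw [hμ.start]
      simp only [pt, ite_mul, one_mul, zero_mul, Finset.sum_ite_eq', Finset.mem_univ, if_true]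
      simp)
    (fun t ht _ => by
      have : ∑ F : Finset V, lw h ∅ t F * (gen (h t)
          ((fun _ F => if u ∈ F ∧ d ∉ F then (1 : ℝ) else 0) t) F
          + (fun _ _ => (0:ℝ)) t F) ≤ 0 := by
        refine Finset.sum_nonpos fun F _ => ?_
        refine mul_nonpos_of_nonneg_of_nonpos (hμ.nonneg F t ht) ?_
        have := hgen t ht F
        simp only [add_zero]
        exact this
      linarith) s hs
  have h2 : 0 ≤ ∑ F : Finset V, lw h ∅ s F * (if u ∈ F ∧ d ∉ F then (1:ℝ) else 0) :=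
    Finset.sum_nonneg fun F _ => mul_nonneg (hμ.nonneg F s hs) (by split_ifs <;> norm_num)
  linarith

theorem pr_pend (hh : Haz h H) {u d : V} (hud : u ≠ d)
    (hzz : ∀ t ∈ Icc (0 : ℝ) 1, ∀ c, c ≠ u → h t d c = 0) {W : Finset V} (hu : u ∈ W) {s : ℝ}
    (hs : s ∈ Icc (0 : ℝ) 1) : pr (lw h ∅ s) (insert d W) = pr (lw h ∅ s) W := by
  have hμ := hh.lw (∅ : Finset V)
  have h0 := pend_zero hh hud hzz hs
  rw [Finset.sum_eq_zero_iff_of_nonneg (fun F _ => mul_nonneg (hμ.nonneg F s hs)
    (by split_ifs <;> norm_num))] at h0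
  unfold pr
  refine Finset.sum_congr rfl fun F _ => ?_
  by_cases hW : W ⊆ F
  · by_cases hi : d ∈ F
    · rw [if_pos hW, if_pos (Finset.insert_subset hi hW)]
    · have := h0 F (Finset.mem_univ _)
      rw [if_pos ⟨hW hu, hi⟩, mul_one] at this
      rw [this]; simp
  · rw [if_neg hW, if_neg (fun hh => hW ((Finset.subset_insert _ _).trans hh))]

theorem Kn.pend_haz (hK : Kn x P φ ab h H t) (hx : Wt x P 1) {u d : V} (hd : ¬P d)
    (hud : x u d ≠ 0) : ∀ s ∈ Icc (0 : ℝ) 1, ∀ c, c ≠ u → h s d c = 0 := by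
  intro s hs c hc
  refine hK.hz s hs d c ?_
  by_contra hdc
  exact hc (hx.pend1 u d c hd hud hdc)

/-- the triple ratio at a pendant vertex is 1 -/
theorem Kn.rho_pend (hK : Kn x P φ ab h H t) (hx : Wt x P 1) {u v d : V} (hd : ¬P d)
    (hud : x u d ≠ 0) (hp : 0 < pp h u v t) : rho h u v d t = 1 := by
  have hne : u ≠ d := fun e => hud (by rw [e]; exact hx.diag d)
  have hz := hK.pend_haz hx hd hud
  have e1 : ppp h u v d t = pp h u v t := by
    unfold ppp pp
    have : ({u, v, d} : Finset V) = insert d {u, v} := by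
      ext z; simp only [Finset.mem_insert, Finset.mem_singleton]; tauto
    rw [this]
    exact pr_pend hK.hh hne hz (by simp) (btI hK.ht)
  have e2 : pp h u d t = bb h ∅ u t := by
    unfold pp bb
    rw [Finset.pair_comm]
    exact pr_pend hK.hh hne hz (by simp) (btI hK.ht)
  have hb := bb_pos hK.hh (Finset.notMem_empty u) (btI hK.ht)
  unfold rho
  rw [e1, e2]
  field_simp

/-- bound of the triple ratio -/
theorem rho_le {a b c : V} {s m e : ℝ} (hab : 0 < pp h a b s) (hac : 0 < pp h a c s)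
    (he : 0 ≤ e) (hme : m + e < 1)
    (hr : ppp h a b c s * bb h ∅ a s * (1 - m - e) ≤ pp h a b s * pp h a c s) :
    rho h a b c s - 1 ≤ m / (1 - m) + e / ((1 - m) * (1 - m - e)) := by
  have h1 : 0 < 1 - m := by linarith
  have h2 : 0 < 1 - m - e := by linarith
  have h3 : m / (1 - m) + e / ((1 - m) * (1 - m - e)) = (1 - m - e)⁻¹ - 1 := by
    field_simp
    ring
  rw [h3]
  unfold rho
  have hp : 0 < pp h a b s * pp h a c s := mul_pos hab hac
  have h4 : ppp h a b c s * bb h ∅ a s / (pp h a b s * pp h a c s) ≤ (1 - m - e)⁻¹ := by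
    rw [div_le_iff₀ hp, ← div_eq_inv_mul, le_div_iff₀ h2]
    exact hr
  linarith

/-- one side of the cost -/
theorem Kn.side_le (hK : Kn x P (dn x P ψ') ab h H t) (hx : Wt x P 1) {u v d : V}
    (hu : P u) (hp : 0 < pp h u v t) {fh m e : ℝ} (hf : 0 ≤ fh) (hm : 0 ≤ m) (he : 0 ≤ e)
    (hme : m + e < 1)
    (hfh : P d → x u d ≠ 0 → dn x P ψ' u d t ≤ fh)
    (hr : P d → x u d ≠ 0 →
      ppp h u v d t * bb h ∅ u t * (1 - m - e) ≤ pp h u v t * pp h u d t) :
    dE h u d t * (rho h u v d t - 1)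
      ≤ xr x P u d * ((1 + t) * fh) * (m / (1 - m))
        + xr x P u d * ((1 + t) * fh) * (e / ((1 - m) * (1 - m - e))) := by
  have hT : 0 < 1 + t := by linarith [hK.ht.1]
  have tt : t ∈ Icc 0 t := ⟨hK.ht.1, le_rfl⟩
  have h1 : 0 < 1 - m := by linarith
  have h2 : 0 < 1 - m - e := by linarith
  have q1 : 0 ≤ m / (1 - m) := by positivity
  have q2 : 0 ≤ e / ((1 - m) * (1 - m - e)) := by positivity
  rw [← mul_add]
  have hxr := xr_nonneg hx u d
  by_cases hud : x u d = 0
  · have : dE h u d t = 0 := by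
      unfold dE
      rw [hK.hz t (btI hK.ht) u d hud]
      simp
    rw [this, zero_mul]
    positivity
  by_cases hd : P d
  · have e1 : xr x P u d = x u d := by unfold xr; rw [if_pos ⟨hu, hd⟩]
    have hdE := hK.dE_le hx u d tt
    have hdn := hfh hd hud
    have hpd := hK.pos t tt u d hud
    have i1 := rho_le hp hpd he hme (hr hd hud)
    have i2 : dE h u d t ≤ xr x P u d * ((1 + t) * fh) := by
      rw [e1]
      refine hdE.trans ?_
      exact mul_le_mul_of_nonneg_left (mul_le_mul_of_nonneg_left hdn hT.le) (hx.nonneg u d)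
    have i3 : 0 ≤ dE h u d t := by
      unfold dE
      exact div_nonneg (mul_nonneg (hK.hh.nonneg _ _ _) hpd.le)
        (bb_pos hK.hh (Finset.notMem_empty u) (btI hK.ht)).le
    calc _ ≤ dE h u d t * (m / (1 - m) + e / ((1 - m) * (1 - m - e))) :=
          mul_le_mul_of_nonneg_left i1 i3
      _ ≤ _ := mul_le_mul_of_nonneg_right i2 (add_nonneg q1 q2)
  · rw [hK.rho_pend hx hd hud hp, sub_self, mul_zero]
    positivity

end Pool.Agent.RX.RCN
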