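import Pool.Agent.RX.RCN.Free
import Pool.Agent.RX.RCN.MainK_1

/-! The abstract theorem of route M with a general time dependent correction for the walks: cost
bounds and local inequalities imply the exact selectability 1/2 (MP_73ccd0_lc). -/

namespace Pool.Agent.RX.RCN.K

open Set Finset Pool.Agent.RX.RCRSHalf Pool.Agent.RX.RCG Pool.Agent.RX.RCG.Ct

set_option linter.unusedSectionVars false

variable {V : Type*} [Fintype V] [DecidableEq V]

variable {c : Cf} {g : Cg} {x : V → V → ℝ} {P : V → Prop} [DecidablePred P]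
variable {W : Pf V}
variable {h : ℝ → V → V → ℝ} {H : V → V → ℝ → ℝ} {t : ℝ}

theorem cor_psi (hc : c.Ok) (hg : g.Ok c) (hx : Wt x P 1) (hW : Wk c g x P W) :
    Cor x P (psi c x P W) (psi' c x P W) where
  s a b t := by
    unfold psi'
    rw [xr_symm hx a b, hW.s a b]
    congr 2
    exact Finset.sum_congr rfl fun d _ => hc.mus _ _ _ _
  d a b _ _ t ht :=
    ((hc.da _ (xmem1 hx a b) t ht).sub (HasDerivAt.fun_sum fun d _ =>
      hc.dm _ (xmem1 hx a b) _ (xmem1 hx a d) _ (xmem1 hx b d) t ht)).sub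
      (hW.d a b t ht)
  c a b := ((hc.ca _ (xmem1 hx a b)).sub (continuousOn_finsetSum _ fun d _ =>
      hc.cm _ (xmem1 hx a b) _ (xmem1 hx a d) _ (xmem1 hx b d))).sub
      (hW.cn a b)
  z0 a b _ _ := by
    unfold psi
    rw [hc.al0 _ (xmem1 hx a b), Finset.sum_eq_zero fun d _ =>
      hc.mu0 _ (xmem1 hx a b) _ (xmem1 hx a d) _ (xmem1 hx b d), hW.z0]
    ring
  pos a b ha hb hab t ht := by
    have hne : a ≠ b := fun e => hab (by rw [e]; exact hx.diag b)
    have hxe : xr x P a b = x a b := by unfold xr; rw [if_pos ⟨ha, hb⟩]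
    have hy := xmem1 hx a b
    unfold psi'
    rw [mu_compl hc hx hne]
    set y := xr x P a b with hyd
    have h1 := hg.LP0 y hy (by rw [hxe]; exact hab) t ht
    have h2 : -∑ d ∈ ({a, b} : Finset V)ᶜ, c.mu' y (xr x P a d) (xr x P b d) t
        ≤ g.N y t * (∑ d ∈ ({a, b} : Finset V)ᶜ, xr x P a d
          + ∑ d ∈ ({a, b} : Finset V)ᶜ, xr x P b d) := by
      rw [← Finset.sum_neg_distrib, ← Finset.sum_add_distrib, Finset.mul_sum]
      refine Finset.sum_le_sum fun d hd => ?_
      have h3 := yz_le hx hne hd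
      exact hg.LP y hy _ (xmem1 hx a d) _ (xmem1 hx b d) t ht h3.1 h3.2.1 h3.2.2
    have h3 := mul_le_mul_of_nonneg_left (add_le_add (sum_compl hx hne) (sum_compl' hx hne))
      (hg.N0 y hy t ht)
    have h5 := hW.gm a b ha hb hne t ht
    rw [← hyd] at h5
    have h6 : g.N y t * ((1 - y) + (1 - y)) = 2 * (1 - y) * g.N y t := by ring
    rw [← hyd] at h3
    rw [h6] at h3
    linarith
  p0 a b _ _ _ := by
    unfold psi'
    have h1 : ∑ d, c.mu' (xr x P a b) (xr x P a d) (xr x P b d) 0 ≤ 0 :=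
      Finset.sum_nonpos fun d _ => hc.m0 _ (xmem1 hx a b) _ (xmem1 hx a d) _ (xmem1 hx b d)
    have h2 := hW.d0 a b
    have h3 := hc.a0 _ (xmem1 hx a b)
    linarith

/-- lower bound of the logarithm of the free probability -/
theorem log_free (hc : c.Ok) (hg : g.Ok c) (hx : Wt x P 1) (hW : Wk c g x P W)
    (hK : Kn x P (dn x P (psi' c x P W)) c.ab h H t) {u v : V} (hu : P u) (huv : u ≠ v) :
    -Real.log (1 + t) + g.lam (xr x P u v) t * ((xr x P u v * c.al (xr x P u v) t
        - g.sg (xr x P u v) t) + ∑ d ∈ ({u, v} : Finset V)ᶜ,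
        (xr x P u d * c.al (xr x P u d) t - g.sg (xr x P u d) t)) ≤ Real.log (bb h ∅ u t) := by
  have ht := hK.ht
  have htt : t ∈ Icc 0 t := ⟨ht.1, le_rfl⟩
  have hψ := cor_psi hc hg hx hW
  rw [free_eq hx hψ hK.hh ht hK.fl hu htt]
  set A := ∑ b, xr x P u b * psi c x P W u b t with hA
  have hA1 := corr_low (t := t) hW hu ht
  have hA2 := corr_up hc hx hW hu huv ht
  rw [Cu.sum_split' huv (fun b => xr x P u b * c.al (xr x P u b) t - g.sg (xr x P u b) t)
    (by simp only [xr_diag hx, zero_mul, hg.sg0, sub_self])] at hA1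
  rw [← hA] at hA1 hA2
  have hy := xmem1 hx u v
  set y := xr x P u v with hyd
  set S := (y * c.al y t - g.sg y t) + ∑ d ∈ ({u, v} : Finset V)ᶜ,
        (xr x P u d * c.al (xr x P u d) t - g.sg (xr x P u d) t) with hS
  have hT : 0 < 1 + t := by linarith [ht.1]
  set q := (1 + t)⁻¹ with hq
  have hq0 : 0 < q := inv_pos.2 hT
  have hA0 : 0 ≤ A := corr_nonneg hg hx hW hu ht
  have e1 : Real.log (q + A) = Real.log q + Real.log (1 + A / q) := by
    rw [← Real.log_mul hq0.ne' (by positivity)]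
    congr 1; field_simp
  have e2 : Real.log q = -Real.log (1 + t) := by rw [hq, Real.log_inv]
  rw [e1, e2]
  have h1 : 2 * (A / q) / (A / q + 2) ≤ Real.log (1 + A / q) :=
    Real.le_log_one_add_of_nonneg (by positivity)
  have h2 : g.lam y t * A ≤ 2 * (A / q) / (A / q + 2) := by
    rw [le_div_iff₀ (by positivity)]
    have e3 : g.lam y t * A * (A / q + 2) = (A / q) * (g.lam y t * (A + 2 * q)) := by
      field_simp
    rw [e3, mul_comm 2 (A / q)]
    refine mul_le_mul_of_nonneg_left ?_ (by positivity)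
    have h3 := hg.lami y hy t ht
    have h4 : g.lam y t * (A + 2 * q) ≤ g.lam y t * (q + c.ab y t) :=
      mul_le_mul_of_nonneg_left (by linarith) (hg.lam0 y hy t ht)
    linarith
  have h3 := mul_le_mul_of_nonneg_left hA1 (hg.lam0 y hy t ht)
  linarith

/-- own gain -/
theorem own_gain (hc : c.Ok) (hg : g.Ok c) (hx : Wt x P 1) (hW : Wk c g x P W)
    (hK : Kn x P (dn x P (psi' c x P W)) c.ab h H t) {u v : V} (hu : P u) (hv : P v)
    (huv : u ≠ v) (hxuv : x u v ≠ 0)
    {E : ℝ → ℝ} (hE0 : E 0 = 0) (hE : ∀ s ∈ Icc 0 t, HasDerivAt E (dE h u v s) s) :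
    g.ow (xr x P u v) t + ∑ d ∈ ({u, v} : Finset V)ᶜ,
      g.om (xr x P u v) (xr x P u d) (xr x P v d) t
      + W.og u v t ≤ E t := by
  have hy := xmem1 hx u v
  have hxe : xr x P u v = x u v := by unfold xr; rw [if_pos ⟨hu, hv⟩]
  set y := xr x P u v with hyd
  have key := nonneg_of_forward (a := 0) (s := t)
    (U := fun s => E s - (g.ow y s + ∑ d ∈ ({u, v} : Finset V)ᶜ,
      g.om y (xr x P u d) (xr x P v d) s + W.og u v s))
    (U' := fun s => dE h u v s - (g.ow' y s + ∑ d ∈ ({u, v} : Finset V)ᶜ,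
      g.om' y (xr x P u d) (xr x P v d) s + W.og' u v s))
    (fun r hr => by
      have hr1 : r ∈ Icc (0 : ℝ) bt := ⟨hr.1, hr.2.trans hK.ht.2⟩
      exact (hE r hr).sub (((hg.dow y hy r hr1).add (HasDerivAt.fun_sum fun d _ =>
        hg.dom y hy _ (xmem1 hx u d) _ (xmem1 hx v d) r hr1)).add
        (hW.dog u v r hr1)))
    (by
      have h1 := hg.ow0 y hy
      have h2 : ∑ d ∈ ({u, v} : Finset V)ᶜ, g.om y (xr x P u d) (xr x P v d) 0 ≤ 0 :=
        Finset.sum_nonpos fun d _ => hg.om0 y hy _ (xmem1 hx u d) _ (xmem1 hx v d)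
      have h3 := hW.og0 u v
      simp only [hE0]
      linarith)
    (fun r hr _ => by
      have hr1 : r ∈ Icc (0 : ℝ) bt := ⟨hr.1, hr.2.trans hK.ht.2⟩
      have hb := bb_pos hK.hh (Finset.notMem_empty u) (btI hr1)
      have hup := hK.up r hr u v hu hv huv
      rw [← hxe] at hup
      have hab : 0 < c.ab y r := lt_of_lt_of_le hb hup
      have hfp := hK.fp r hr u v hxuv
      have hdE : y * dn x P (psi' c x P W) u v r / c.ab y r ≤ dE h u v r := by
        unfold dE
        rw [hK.fl r hr u v, ← hxe]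
        exact div_le_div_of_nonneg_left (mul_nonneg hy.1 hfp.le) hb hup
      refine sub_nonneg.2 (le_trans ?_ hdE)
      rw [le_div_iff₀ hab, dn_real hu hv hxuv]
      unfold psi'
      rw [mu_compl hc hx huv, ← hyd]
      have h1 := hg.owi y hy r hr1
      have h2 : (∑ d ∈ ({u, v} : Finset V)ᶜ, g.om' y (xr x P u d) (xr x P v d) r) * c.ab y r
          ≤ y * ∑ d ∈ ({u, v} : Finset V)ᶜ, c.mu' y (xr x P u d) (xr x P v d) r := by
        rw [Finset.sum_mul, Finset.mul_sum]
        refine Finset.sum_le_sum fun d hd => ?_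
        have h3 := yz_le hx huv hd
        exact hg.omi y hy _ (xmem1 hx u d) _ (xmem1 hx v d) r hr1 h3.1 h3.2.1 h3.2.2
      have h3 := hW.ogi u v hu hv huv r hr1
      rw [← hyd] at h3
      have e1 : (g.ow' y r + ∑ d ∈ ({u, v} : Finset V)ᶜ, g.om' y (xr x P u d) (xr x P v d) r
          + W.og' u v r) * c.ab y r
          = g.ow' y r * c.ab y r
            + (∑ d ∈ ({u, v} : Finset V)ᶜ, g.om' y (xr x P u d) (xr x P v d) r) * c.ab y r
            + W.og' u v r * c.ab y r := by ring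
      rw [e1]
      have e2 : y * (((1 + r) ^ 2)⁻¹ - (c.al' y r
          - ∑ d ∈ ({u, v} : Finset V)ᶜ, c.mu' y (xr x P u d) (xr x P v d) r
          - W.Om' u v r))
          = y * (((1 + r) ^ 2)⁻¹ - c.al' y r)
            + y * ∑ d ∈ ({u, v} : Finset V)ᶜ, c.mu' y (xr x P u d) (xr x P v d) r
            + y * W.Om' u v r := by ring
      rw [e2]
      linarith)
    t ⟨hK.ht.1, le_rfl⟩
  linarith

end Pool.Agent.RX.RCN.K
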