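import Pool.Agent.RX.RCN.Boot2
import Pool.Agent.RX.RCN.Ident2
import Pool.Agent.RX.RCN.MainK_2
import Pool.Agent.RX.RCN.Sig_1

/-! The acceptance condition with a slack: the certificate leaves room between `phi` and the
probability of the isolated pair, which gives smaller hazards (MP_73ccd0_lc, route M). -/

namespace Pool.Agent.RX.RCN.K

open Set Finset Pool.Agent.RX.RCRSHalf Pool.Agent.RX.RCG Pool.Agent.RX.RCG.Ct

set_option linter.unusedSectionVars false

variable {V : Type*} [Fintype V] [DecidableEq V]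

/-- the cost bound, to be proved under the acceptance condition with slack -/
def CostS (c : Cf) (x : V → V → ℝ) (P : V → Prop) [DecidablePred P] (W : Pf V)
    (sl : ℝ → ℝ → ℝ) : Prop :=
  ∀ (h : ℝ → V → V → ℝ) (H : V → V → ℝ → ℝ) (t : ℝ),
    Kn x P (dn x P (psi' c x P W)) c.ab h H t → Sg x P (dn x P (psi' c x P W)) sl h H t →
    ∀ u v, P u → P v → u ≠ v → x u v ≠ 0 →
    ∑ d ∈ ({u, v} : Finset V)ᶜ,
      (dE h u d t * (rho h u v d t - 1) + dE h v d t * (rho h v u d t - 1))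
      ≤ ∑ d ∈ ({u, v} : Finset V)ᶜ, c.k (xr x P u v) (xr x P u d) (xr x P v d) t
        + W.w u v t

/-- the bound of the weighted costs at the end time, to be proved under the acceptance condition
with slack -/
def CostK (c : Cf) (x : V → V → ℝ) (P : V → Prop) [DecidablePred P] (W : Pf V)
    (sl : ℝ → ℝ → ℝ) (K : V → V → ℝ) : Prop :=
  ∀ (h : ℝ → V → V → ℝ) (H : V → V → ℝ → ℝ),
    Kn x P (dn x P (psi' c x P W)) c.ab h H bt → Sg x P (dn x P (psi' c x P W)) sl h H bt →
    ∀ u v, P u → P v → u ≠ v → x u v ≠ 0 →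
    ∑ d ∈ ({u, v} : Finset V)ᶜ,
      (ksw (x u d) (x v d) * (dE h u d bt * (rho h u v d bt - 1))
        + ksw (x v d) (x u d) * (dE h v d bt * (rho h v u d bt - 1))) ≤ K u v

/-- the lower bound of the hazards at the end time -/
def HazL (c : Cf) (x : V → V → ℝ) (P : V → Prop) [DecidablePred P] (W : Pf V) : Prop :=
  ∀ (h : ℝ → V → V → ℝ) (H : V → V → ℝ → ℝ),
    Kn x P (dn x P (psi' c x P W)) c.ab h H bt →
    ∀ u v, P u → P v → u ≠ v → ∀ d ∈ ({u, v} : Finset V)ᶜ,
      (hlb + hls * x v d) * x v d * h bt u d ≤ h bt u d * h bt v d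

variable {c : Cf} {g : Cg} {x : V → V → ℝ} {P : V → Prop} [DecidablePred P]
variable {W : Pf V} {sl : ℝ → ℝ → ℝ}
variable {h : ℝ → V → V → ℝ} {H : V → V → ℝ → ℝ} {t : ℝ}

theorem Sg.mono {φ : V → V → ℝ → ℝ} (hS : Sg x P φ sl h H t) {t' : ℝ} (ht' : t' ≤ t) :
    Sg x P φ sl h H t' := fun s hs => hS s ⟨hs.1, hs.2.trans ht'⟩

/-- Strict acceptance with slack for the real pairs, from a cost bound for this process. -/
theorem strict_loc (hc : c.Ok) (hg : g.Ok c) (hx : Wt x P 1) (hW : Wk c g x P W)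
    (hsl : Sl c g sl)
    (hK : Kn x P (dn x P (psi' c x P W)) c.ab h H t) {u v : V} (hu : P u) (hv : P v)
    (huv : u ≠ v) (hxuv : x u v ≠ 0)
    (hcost : ∀ s ∈ Icc 0 t, ∑ d ∈ ({u, v} : Finset V)ᶜ,
      (dE h u d s * (rho h u v d s - 1) + dE h v d s * (rho h v u d s - 1))
      ≤ ∑ d ∈ ({u, v} : Finset V)ᶜ, c.k (xr x P u v) (xr x P u d) (xr x P v d) s
        + W.w u v s) :
    dn x P (psi' c x P W) u v t * Real.exp (sl (x u v) t)
      < Real.exp (H u v t) * pp h u v t := by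
  have ht := hK.ht
  have htt : t ∈ Icc 0 t := ⟨ht.1, le_rfl⟩
  have hh := hK.hh
  obtain ⟨E, hE0, hE⟩ := exists_E hh u v (btI ht)
  obtain ⟨E', hE0', hE'⟩ := exists_E hh v u (btI ht)
  have hy := xmem1 hx u v
  have hxe : xr x P u v = x u v := by unfold xr; rw [if_pos ⟨hu, hv⟩]
  have hxs : x v u ≠ 0 := by rw [hx.symm v u]; exact hxuv
  have hset : ({v, u} : Finset V)ᶜ = ({u, v} : Finset V)ᶜ := by rw [Finset.pair_comm]
  have hxrs : xr x P v u = xr x P u v := xr_symm hx v u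
  have o1 := own_gain hc hg hx hW hK hu hv huv hxuv hE0 hE
  have o2 := own_gain hc hg hx hW hK hv hu huv.symm hxs hE0' hE'
  have l1 := log_free hc hg hx hW hK hu huv
  have l2 := log_free hc hg hx hW hK hv huv.symm
  rw [hset, hxrs] at l2 o2
  rw [hW.ogs v u] at o2
  have hposz : ∀ a, ∀ s ∈ Icc 0 t, ∀ d, h s a d ≠ 0 → 0 < pp h a d s := fun a s hs d hd => by
    refine hK.pos s hs a d fun h0 => hd (hK.hz s ⟨hs.1, hs.2.trans (bt2 ht)⟩ a d h0)
  have key := pair_low' hh (btI ht) huv (fun s hs => hK.pos s hs u v hxuv) (hposz u · · )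
    (hposz v · · ) hE0 hE hE0' hE'
    (C := fun s => ∑ d ∈ ({u, v} : Finset V)ᶜ, g.C (xr x P u v) (xr x P u d) (xr x P v d) s)
    (C' := fun s => ∑ d ∈ ({u, v} : Finset V)ᶜ, g.C' (xr x P u v) (xr x P u d) (xr x P v d) s)
    (w := W.w u v)
    (Finset.sum_nonneg fun d _ => hg.C0 _ hy _ (xmem1 hx u d) _ (xmem1 hx v d))
    (fun s hs => by
      have hs1 : s ∈ Icc (0 : ℝ) bt := ⟨hs.1, hs.2.trans ht.2⟩
      exact HasDerivAt.fun_sum fun d _ =>
        hg.dC _ hy _ (xmem1 hx u d) _ (xmem1 hx v d) s hs1)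
    ((hW.wi u v hu hv huv).mono_set (Icc_subset_Icc_right ht.2))
    (fun s hs => by
      have hs1 : s ∈ Icc (0 : ℝ) bt := ⟨hs.1, hs.2.trans ht.2⟩
      refine (hcost s hs).trans ?_
      refine add_le_add (Finset.sum_le_sum fun d hd => ?_) le_rfl
      have h3 := yz_le hx huv hd
      exact hg.kC _ hy _ (xmem1 hx u d) _ (xmem1 hx v d) s hs1 h3.1 h3.2.1 h3.2.2)
  have hwCO := hW.wCO u v hu hv huv t ht
  have hφ := hK.fp t htt u v hxuv
  have hp := hK.pos t htt u v hxuv
  rw [dn_real hu hv hxuv] at hφ ⊢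
  set y := xr x P u v with hyd
  have hX := hg.Xp y hy t ht
  set D := ({u, v} : Finset V)ᶜ with hD
  -- upper bound of the logarithm of the density
  set φ := ((1 + t) ^ 2)⁻¹ - psi' c x P W u v t with hφd
  have hlog : Real.log φ ≤ Real.log (g.X y t) + φ / g.X y t - 1 := by
    have h1 : Real.log φ = Real.log (g.X y t) + Real.log (φ / g.X y t) := by
      rw [← Real.log_mul hX.ne' (by positivity)]
      congr 1; field_simp
    have h2 := Real.log_le_sub_one_of_pos (show 0 < φ / g.X y t by positivity)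
    linarith
  have hφe : φ / g.X y t = (((1 + t) ^ 2)⁻¹ - c.al' y t) / g.X y t
      + ∑ d ∈ D, c.mu' y (xr x P u d) (xr x P v d) t / g.X y t
      + W.Om' u v t / g.X y t := by
    rw [hφd]
    unfold psi'
    rw [mu_compl hc hx huv, ← hyd, ← Finset.sum_div]
    field_simp
    ring
  -- the local inequalities
  have h0 := hsl.L0 y hy (by rw [hxe]; exact hxuv) t ht
  have h1 : ∑ d ∈ D, g.C y (xr x P u d) (xr x P v d) t
      + ∑ d ∈ D, c.mu' y (xr x P u d) (xr x P v d) t / g.X y t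
      + ∑ d ∈ D, g.kl y (xr x P u d) (xr x P v d) t
      ≤ g.K2 y t * (∑ d ∈ D, xr x P u d + ∑ d ∈ D, xr x P v d)
        + g.lam y t * (∑ d ∈ D, (xr x P u d * c.al (xr x P u d) t - g.sg (xr x P u d) t)
          + ∑ d ∈ D, (xr x P v d * c.al (xr x P v d) t - g.sg (xr x P v d) t))
        + (∑ d ∈ D, g.om y (xr x P u d) (xr x P v d) t
          + ∑ d ∈ D, g.om y (xr x P v d) (xr x P u d) t) := by
    rw [← Finset.sum_add_distrib, ← Finset.sum_add_distrib,
      ← Finset.sum_add_distrib (f := fun d => xr x P u d), ← Finset.sum_add_distrib,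
      Finset.mul_sum, Finset.mul_sum, ← Finset.sum_add_distrib (f := fun d =>
        g.om y (xr x P u d) (xr x P v d) t), ← Finset.sum_add_distrib,
      ← Finset.sum_add_distrib]
    refine Finset.sum_le_sum fun d hd => ?_
    have h3 := yz_le hx huv hd
    exact hg.L1 y hy _ (xmem1 hx u d) _ (xmem1 hx v d) t ht h3.1 h3.2.1 h3.2.2
  have h3 := hW.LW u v hu hv huv t ht
  rw [← hyd, ← hD] at h3
  have h5 := mul_le_mul_of_nonneg_left
    (add_le_add (sum_compl (P := P) hx huv) (sum_compl' (P := P) hx huv)) (hg.K20 y hy t ht)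
  rw [← hyd, ← hD] at h5
  have e5 : g.K2 y t * ((1 - y) + (1 - y)) = 2 * (1 - y) * g.K2 y t := by ring
  rw [e5] at h5
  set Su := ∑ d ∈ D, (xr x P u d * c.al (xr x P u d) t - g.sg (xr x P u d) t) with hSu
  set Sv := ∑ d ∈ D, (xr x P v d * c.al (xr x P v d) t - g.sg (xr x P v d) t) with hSv
  have e8 : ∀ S : ℝ, g.lam y t * ((y * c.al y t - g.sg y t) + S)
      = g.lam y t * (y * c.al y t - g.sg y t) + g.lam y t * S := fun S => by ring
  rw [e8] at l1 l2
  have e9 : g.lam y t * (Su + Sv) = g.lam y t * Su + g.lam y t * Sv := by ring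
  rw [e9] at h1
  rw [hφe] at hlog
  -- conclusion
  have hfin : Real.log φ + sl y t < H u v t + Real.log (pp h u v t) := by
    refine lt_of_lt_of_le ?_ key
    linarith
  have h6 := Real.exp_lt_exp.2 hfin
  rw [Real.exp_add, Real.exp_log hφ, Real.exp_add, Real.exp_log hp] at h6
  rwa [← hxe]

/-- the acceptance condition with slack holds -/
theorem sg_of (hc : c.Ok) (hg : g.Ok c) (hx : Wt x P 1) (hW : Wk c g x P W)
    (hsl : Sl c g sl) (hcost : CostS c x P W sl)
    (hK : Kn x P (dn x P (psi' c x P W)) c.ab h H t) :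
    Sg x P (dn x P (psi' c x P W)) sl h H t := by
  have hψ := cor_psi hc hg hx hW
  have hh := hK.hh
  have hHc : ∀ a b, Continuous (H a b) := fun a b =>
    continuous_iff_continuousAt.2 fun t => (hh.Hd a b t).continuousAt
  have hxy : ∀ a b, P a → P b → xr x P a b = x a b := fun a b ha hb => by
    unfold xr; rw [if_pos ⟨ha, hb⟩]
  have hdiag : ∀ a b, x a b ≠ 0 → a ≠ b := fun a b hab e => hab (by rw [e]; exact hx.diag b)
  have key := cont_ind (ι := {p : V × V // (P p.1 ∧ P p.2) ∧ x p.1 p.2 ≠ 0}) hK.ht.1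
    (f := fun p s => Real.exp (H p.1.1 p.1.2 s) * pp h p.1.1 p.1.2 s
      - dn x P (psi' c x P W) p.1.1 p.1.2 s * Real.exp (sl (x p.1.1 p.1.2) s))
    (fun p => by
      have hy : x p.1.1 p.1.2 ∈ Icc (0 : ℝ) 1 := by
        have := xmem1 hx p.1.1 p.1.2
        rwa [hxy _ _ p.2.1.1 p.2.1.2] at this
      have c1 : ContinuousOn (fun s => Real.exp (H p.1.1 p.1.2 s)) (Icc 0 bt) :=
        (Real.continuous_exp.comp (hHc _ _)).continuousOn
      have c2 : ContinuousOn (fun s => Real.exp (sl (x p.1.1 p.1.2) s)) (Icc 0 bt) :=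
        Real.continuous_exp.comp_continuousOn (hsl.cn _ hy)
      exact ((c1.mul ((pp_cont hh _ _).mono btS)).sub ((dn_cont hψ _ _).mul c2)).mono
        (Icc_subset_Icc le_rfl hK.ht.2))
    (fun p => by
      have hy : x p.1.1 p.1.2 ∈ Icc (0 : ℝ) 1 := by
        have := xmem1 hx p.1.1 p.1.2
        rwa [hxy _ _ p.2.1.1 p.2.1.2] at this
      have e : pp h p.1.1 p.1.2 0 = 1 := by
        unfold pp
        rw [(hh.lw ∅).pr_start, if_pos]
        rw [Finset.compl_empty]; exact Finset.subset_univ _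
      have h1 : dn x P (psi' c x P W) p.1.1 p.1.2 0 ≤ 1 - sl (x p.1.1 p.1.2) 0 := by
        rw [dn_real p.2.1.1 p.2.1.2 p.2.2]
        unfold psi'
        rw [hxy _ _ p.2.1.1 p.2.1.2]
        have a1 : ∑ d, c.mu' (x p.1.1 p.1.2) (xr x P p.1.1 d) (xr x P p.1.2 d) 0 ≤ 0 :=
          Finset.sum_nonpos fun d _ => hc.m0 _ hy _ (xmem1 hx _ d) _ (xmem1 hx _ d)
        have a2 := hW.d0 p.1.1 p.1.2
        have a3 := hsl.z _ hy
        simp only [add_zero, one_pow, inv_one]
        linarith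
      have h2 : 1 - sl (x p.1.1 p.1.2) 0 ≤ Real.exp (-sl (x p.1.1 p.1.2) 0) :=
        Real.one_sub_le_exp_neg _
      have h3 := mul_le_mul_of_nonneg_right (h1.trans h2) (Real.exp_pos (sl (x p.1.1 p.1.2) 0)).le
      rw [← Real.exp_add, neg_add_cancel, Real.exp_zero] at h3
      simp only [hh.H0, Real.exp_zero, e]
      linarith)
    (fun s hs hr p => by
      have hKs := hK.mono hs.1 hs.2
      have := strict_loc hc hg hx hW hsl hKs p.2.1.1 p.2.1.2 (hdiag _ _ p.2.2) p.2.2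
        (fun r hr' => hcost h H r (hK.mono hr'.1 (hr'.2.trans hs.2)) (fun w hw a b ha hb hab => by
          have := hr w ⟨hw.1, hw.2.trans hr'.2⟩ ⟨(a, b), ⟨ha, hb⟩, hab⟩
          dsimp only at this
          linarith) _ _ p.2.1.1 p.2.1.2 (hdiag _ _ p.2.2) p.2.2)
      linarith)
  intro s hs a b ha hb hab
  have := key s hs ⟨(a, b), ⟨ha, hb⟩, hab⟩
  dsimp only at this
  linarith

/-- Strict acceptance for the real pairs, from the cost bound under the stronger acceptance
condition. -/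
theorem strict_of_sl (hc : c.Ok) (hg : g.Ok c) (hx : Wt x P 1) (hW : Wk c g x P W)
    (hsl : Sl c g sl) (hcost : CostS c x P W sl)
    (hK : Kn x P (dn x P (psi' c x P W)) c.ab h H t) {u v : V} (hu : P u) (hv : P v)
    (huv : u ≠ v) (hxuv : x u v ≠ 0) :
    dn x P (psi' c x P W) u v t < Real.exp (H u v t) * pp h u v t := by
  have hS := sg_of hc hg hx hW hsl hcost hK
  have h1 := strict_loc hc hg hx hW hsl hK hu hv huv hxuv (fun s hs =>
    hcost h H s (hK.mono hs.1 hs.2) (hS.mono hs.2) u v hu hv huv hxuv)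
  have hy : x u v ∈ Icc (0 : ℝ) 1 := by
    have := xmem1 hx u v
    unfold xr at this; rwa [if_pos ⟨hu, hv⟩] at this
  have h2 := Real.one_le_exp (hsl.n _ hy t hK.ht)
  have h3 := hK.fp t ⟨hK.ht.1, le_rfl⟩ u v hxuv
  have h4 := mul_le_mul_of_nonneg_left h2 h3.le
  linarith

section haz

variable {φ : V → V → ℝ → ℝ} {ab : ℝ → ℝ → ℝ}

end haz

section final

variable {V : Type} [Fintype V] [DecidableEq V] {G : SimpleGraph V} [Fintype G.edgeSet]
  [DecidableEq G.edgeSet] {x : G.edgeSet → ℝ} {W : Pf (V ⊕ V)}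

end final

end Pool.Agent.RX.RCN.K
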