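import Pool.Agent.RX.RCM.BTau
import Pool.Agent.RX.RCN.Sig_2

/-! Lower bounds of the densities and of the hazards (MP_73ccd0_lc, route M). -/

namespace Pool.Agent.RX.RCN.K

open Set Finset MeasureTheory Pool.Agent.RX.RCRSHalf Pool.Agent.RX.RCG Pool.Agent.RX.RCG.Ct
set_option linter.unusedSectionVars false

variable {V : Type*} [Fintype V] [DecidableEq V]
variable {x : V → V → ℝ} {P : V → Prop} [DecidablePred P] {c : Cf} {g : Cg} {W : Pf V}
variable {h : ℝ → V → V → ℝ} {H : V → V → ℝ → ℝ} {t : ℝ}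

/-- lower bound of the densities of the real pairs -/
theorem dn_ge (hc : c.Ok) (hg : g.Ok c) (hx : Wt x P 1) (hW : Wk c g x P W) {a b : V}
    (ha : P a) (hb : P b) (hab : x a b ≠ 0) {t : ℝ} (ht : t ∈ Icc (0 : ℝ) bt) :
    ((1 + t) ^ 2)⁻¹ - c.al' (x a b) t - 2 * (1 - x a b) * g.N (x a b) t - g.gm (x a b) t
      ≤ dn x P (psi' c x P W) a b t := by
  have hne : a ≠ b := fun e => hab (by rw [e]; exact hx.diag b)
  have hxe : xr x P a b = x a b := by unfold xr; rw [if_pos ⟨ha, hb⟩]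
  have hy := xmem1 hx a b
  rw [dn_real ha hb hab]
  unfold psi'
  rw [mu_compl hc hx hne]
  set y := xr x P a b with hyd
  have h2 : -∑ d ∈ ({a, b} : Finset V)ᶜ, c.mu' y (xr x P a d) (xr x P b d) t
      ≤ g.N y t * (∑ d ∈ ({a, b} : Finset V)ᶜ, xr x P a d
        + ∑ d ∈ ({a, b} : Finset V)ᶜ, xr x P b d) := by
    rw [← Finset.sum_neg_distrib, ← Finset.sum_add_distrib, Finset.mul_sum]
    refine Finset.sum_le_sum fun d hd => ?_
    have h3 := yz_le hx hne hd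
    exact hg.LP y hy _ (xmem1 hx a d) _ (xmem1 hx b d) t ht h3.1 h3.2.1 h3.2.2
  have h3 := mul_le_mul_of_nonneg_left (add_le_add (sum_compl hx hne) (sum_compl' hx hne))
    (hg.N0 y hy t ht)
  have h5 := hW.gm a b ha hb hne t ht
  rw [← hyd] at h5
  have h6 : g.N y t * ((1 - y) + (1 - y)) = 2 * (1 - y) * g.N y t := by ring
  rw [← hyd] at h3
  rw [h6] at h3
  rw [← hxe]
  linarith

/-- **lower bound of the hazards of the real pairs**, with a bound depending on the weight -/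
theorem haz_geY (hc : c.Ok) (hg : g.Ok c) (hx : Wt x P 1) (hW : Wk c g x P W)
    (hK : Kn x P (dn x P (psi' c x P W)) c.ab h H t) {lo : ℝ → ℝ} {r : ℝ} (hr : r ∈ Icc 0 t)
    (lo0 : ∀ y ∈ Icc (0 : ℝ) 1, 0 ≤ lo y)
    (hlo : ∀ y ∈ Icc (0 : ℝ) 1, lo y * c.ab y r
      ≤ ((1 + r) ^ 2)⁻¹ - c.al' y r - 2 * (1 - y) * g.N y r - g.gm y r)
    {u v : V} (hu : P u) (hv : P v) : x u v * lo (x u v) ≤ h r u v := by
  have hr1 : r ∈ Icc (0 : ℝ) bt := ⟨hr.1, hr.2.trans hK.ht.2⟩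
  by_cases huv : x u v = 0
  · rw [huv, zero_mul]
    exact hK.hh.nonneg r u v
  · have hne : u ≠ v := fun e => huv (by rw [e]; exact hx.diag v)
    have hxm : x u v ∈ Icc (0 : ℝ) 1 := by
      have := xmem1 (P := P) hx u v
      unfold xr at this
      rwa [if_pos ⟨hu, hv⟩] at this
    have h1 := hK.fl r hr u v
    have h2 := hK.pos r hr u v huv
    have h3 := dn_ge hc hg hx hW hu hv huv hr1
    have h4 : pp h u v r ≤ c.ab (x u v) r :=
      (RCM.pr_mono (fun F => (hK.hh.lw (∅ : Finset V)).nonneg F r (btI hr1)) (by simp)).trans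
        (hK.up r hr u v hu hv hne)
    have h5 := hlo (x u v) hxm
    have h6 := mul_le_mul_of_nonneg_left h4 (lo0 _ hxm)
    refine le_of_mul_le_mul_right ?_ h2
    rw [h1, mul_assoc]
    exact mul_le_mul_of_nonneg_left (h6.trans (h5.trans h3)) (hx.nonneg u v)

/-- **lower bound of the hazards of the real pairs** -/
theorem haz_ge (hc : c.Ok) (hg : g.Ok c) (hx : Wt x P 1) (hW : Wk c g x P W)
    (hK : Kn x P (dn x P (psi' c x P W)) c.ab h H t) {lo : ℝ → ℝ}
    (lo0 : ∀ r ∈ Icc (0 : ℝ) bt, 0 ≤ lo r)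
    (hlo : ∀ y ∈ Icc (0 : ℝ) 1, ∀ r ∈ Icc (0 : ℝ) bt, lo r * c.ab y r
      ≤ ((1 + r) ^ 2)⁻¹ - c.al' y r - 2 * (1 - y) * g.N y r - g.gm y r)
    {u v : V} (hu : P u) (hv : P v) {r : ℝ} (hr : r ∈ Icc 0 t) : x u v * lo r ≤ h r u v := by
  have hr1 : r ∈ Icc (0 : ℝ) bt := ⟨hr.1, hr.2.trans hK.ht.2⟩
  exact haz_geY hc hg hx hW hK hr (lo := fun _ => lo r) (fun _ _ => lo0 r hr1)
    (fun y hy => hlo y hy r hr1) hu hv

/-- the lower bound of the hazards at the end time -/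
theorem hazL_of (hc : c.Ok) (hg : g.Ok c) (hx : Wt x P 1) (hW : Wk c g x P W)
    (hl : ∀ y ∈ Icc (0 : ℝ) 1, (hlb + hls * y) * c.ab y bt
      ≤ ((1 + bt) ^ 2)⁻¹ - c.al' y bt - 2 * (1 - y) * g.N y bt - g.gm y bt) :
    HazL c x P W := by
  intro h H hK u v hu hv huv d hd
  simp only [Finset.mem_compl, Finset.mem_insert, Finset.mem_singleton, not_or] at hd
  have n1 := hK.hh.nonneg bt u d
  have n2 := hK.hh.nonneg bt v d
  by_cases hP : P d
  · have := haz_geY hc hg hx hW hK (r := bt) ⟨bt_nn, le_rfl⟩ (lo := fun y => hlb + hls * y)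
      (fun y hy => add_nonneg hlb_nn (mul_nonneg hls_nn hy.1)) hl hv hP
    have h2 := mul_le_mul_of_nonneg_left this n1
    refine le_trans (le_of_eq ?_) h2
    ring
  · by_cases h0 : x v d = 0
    · rw [h0, mul_zero, zero_mul]
      exact mul_nonneg n1 n2
    · have h1 : x u d = 0 := by
        by_contra hc'
        exact huv (hx.pend1 u d v hP hc' (by rw [hx.symm d v]; exact h0)).symm
      rw [hK.hz bt (btI bt_m1) u d h1, mul_zero, zero_mul]

end Pool.Agent.RX.RCN.K
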