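import Pool.Agent.RX.RCN.Half_1
import Pool.Agent.RX.RCN.Tend_1

/-! The conditions at the end time from local inequalities (MP_73ccd0_lc, route M). -/

namespace Pool.Agent.RX.RCN.K

open Set Finset MeasureTheory Pool.Agent.RX.RCRSHalf Pool.Agent.RX.RCG Pool.Agent.RX.RCG.Ct
open Pool.Agent.RX.RCN.Ker Pool.Agent.RX.RCRS

set_option linter.unusedSectionVars false

variable {T : Dt} {fb : ℝ → ℝ}

theorem cw_nn {k : ℝ} (hk : 0 ≤ k) : 0 ≤ cw k := by
  have h1 := tgc_le
  have h2 := mul_nonneg tgc_nn (mul_nonneg mt_nn la_nn)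
  have h3 := mul_nonneg tgc_nn hk
  unfold cw
  linarith

theorem cwE_nn : 0 ≤ cwE := cw_nn (mul_nonneg mt_nn lb_nn)

theorem Dt.V0_comm (x y z : ℝ) : T.V0 fb x y z = T.V0 fb x z y := by
  unfold Dt.V0
  ring

theorem Dt.Vt_comm (hT : T.Ok) (x y z : ℝ) : T.Vt fb x y z = T.Vt fb x z y := by
  unfold Dt.Vt
  rw [hT.kEc x y z, Dt.V0_comm x y z]

theorem Dt.Ls_comm (hT : T.Ok) (x y z : ℝ) : T.Ls fb x y z = T.Ls fb x z y := by
  unfold Dt.Ls
  rw [hT.kEc x y z]
  ring

theorem Dt.eFs_comm (y z : ℝ) : T.eFs y z = T.eFs z y := by unfold Dt.eFs; ring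

theorem Dt.Te.di' (hT : T.Ok) (h : T.Te fb) {x y z : ℝ} (hx : x ∈ Icc (0 : ℝ) 1) (hy : y ∈ Icc (0 : ℝ) 1)
    (hz : z ∈ Icc (0 : ℝ) 1) (hxy : x + y ≤ 1) (hxz : x + z ≤ 1) (hyz : y + z ≤ 1) :
    2 * (1 - x) * (fb x * T.Ls fb x y z - T.eFs y z)
      ≤ (y + z) * (dd' - (eta x * (T.Z bt + wt * T.Z' bt) + fb x * (tgc * r0 ^ 2))) := by
  rcases le_total y z with h1 | h1
  · exact h.di x hx y hy z hz hxy hxz hyz h1
  · have := h.di x hx z hz y hy hxz hxy (by linarith) h1
    rwa [Dt.Ls_comm hT x z y, Dt.eFs_comm z y, add_comm z y] at this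

theorem Dt.Te.rt' (hT : T.Ok) (h : T.Te fb) {x y z : ℝ} (hx : x ∈ Icc (0 : ℝ) 1) (hy : y ∈ Icc (0 : ℝ) 1)
    (hz : z ∈ Icc (0 : ℝ) 1) (hxy : x + y ≤ 1) (hxz : x + z ≤ 1) (hyz : y + z ≤ 1) :
    2 * (1 - x) * T.Vt fb x y z ≤ (y + z) * rm := by
  rcases le_total y z with h1 | h1
  · exact h.rt x hx y hy z hz hxy hxz hyz h1
  · have := h.rt x hx z hz y hy hxz hxy (by linarith) h1
    rwa [Dt.Vt_comm hT x z y, add_comm z y] at this

section sums

variable {V : Type*} [Fintype V] [DecidableEq V] {x : V → V → ℝ} {P : V → Prop} [DecidablePred P]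
variable {φ : V → V → ℝ → ℝ} {w : V → V → ℝ → ℝ}

/-- the weights around a pair -/
theorem sum_x (hx : Wt x P 1) {a b : V} (hab : a ≠ b) :
    ∑ d ∈ ({a, b} : Finset V)ᶜ, (x a d + x b d) ≤ 2 * (1 - x a b) := by
  rw [Finset.sum_add_distrib]
  have h1 : ∀ {a b : V}, a ≠ b → ∑ d ∈ ({a, b} : Finset V)ᶜ, x a d ≤ 1 - x a b := by
    intro a b hab
    have h2 := hx.row a
    rw [← Finset.sum_add_sum_compl ({a, b} : Finset V), Finset.sum_pair hab, hx.diag a] at h2
    linarith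
  have h2 := h1 hab
  have h3 := h1 hab.symm
  rw [Finset.pair_comm, hx.symm b a] at h3
  linarith

/-- the contribution of one side of a vertex to the first part of the slope -/
noncomputable def V1d (T : Dt) (x : V → V → ℝ) (P : V → Prop) [DecidablePred P]
    (φ : V → V → ℝ → ℝ) (a b d : V) : ℝ :=
  (1 + bt) * (x a d * φ a d bt)
    + xr x P a d * xr x P b d * T.C1' (xr x P a b) (xr x P a d) (xr x P b d) bt

/-- the contribution of a vertex to the first part of the slope -/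
noncomputable def V0d (T : Dt) (x : V → V → ℝ) (P : V → Prop) [DecidablePred P]
    (φ : V → V → ℝ → ℝ) (a b d : V) : ℝ :=
  (1 + bt) * (x a d * φ a d bt + x b d * φ b d bt)
    + xr x P a d * xr x P b d * (T.C1' (xr x P a b) (xr x P a d) (xr x P b d) bt
      + T.C1' (xr x P a b) (xr x P b d) (xr x P a d) bt)

/-- the bound of the weighted costs of the pair -/
noncomputable def KeT (T : Dt) (x : V → V → ℝ) (P : V → Prop) [DecidablePred P]
    (w : V → V → ℝ → ℝ) (a b : V) : ℝ :=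
  ∑ d ∈ ({a, b} : Finset V)ᶜ, (ksw (x a d) (x b d)
      * (xr x P a d * xr x P b d * T.C1' (xr x P a b) (xr x P a d) (xr x P b d) bt)
    + ksw (x b d) (x a d)
      * (xr x P a d * xr x P b d * T.C1' (xr x P a b) (xr x P b d) (xr x P a d) bt))
    + mt * (1 - lb) * w a b bt

theorem V0d_eq (hx : Wt x P 1) (a b d : V) :
    V0d T x P φ a b d = V1d T x P φ a b d + V1d T x P φ b a d := by
  unfold V0d V1d
  rw [xr_symm hx b a]
  ring

/-- the contribution of a vertex to the slope -/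
noncomputable def Vd (T : Dt) (x : V → V → ℝ) (P : V → Prop) [DecidablePred P]
    (φ : V → V → ℝ → ℝ) (a b d : V) : ℝ :=
  V0d T x P φ a b d + T.kE (xr x P a b) (xr x P a d) (xr x P b d)

/-- the contribution of a vertex to the loss -/
noncomputable def Lod (T : Dt) (x : V → V → ℝ) (P : V → Prop) [DecidablePred P]
    (φ : V → V → ℝ → ℝ) (a b d : V) : ℝ :=
  V1d T x P φ a b d * cw (ksw (x a d) (x b d)) + V1d T x P φ b a d * cw (ksw (x b d) (x a d))
    + T.kE (xr x P a b) (xr x P a d) (xr x P b d) * cwE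

theorem xr_le (hx : Wt x P 1) (a b : V) : xr x P a b ≤ x a b := by
  unfold xr
  split_ifs
  · exact le_rfl
  · exact hx.nonneg a b

theorem VV_eq (a b : V) : VV x φ (Ce T.cf x P (pfOf T.ek.kd x P w)) a b
    = ∑ d ∈ ({a, b} : Finset V)ᶜ, V0d T x P φ a b d + w a b bt := by
  have h1 : Ce T.cf x P (pfOf T.ek.kd x P w) a b
      = ∑ d ∈ ({a, b} : Finset V)ᶜ,
        xr x P a d * xr x P b d * (T.C1' (xr x P a b) (xr x P a d) (xr x P b d) bt
      + T.C1' (xr x P a b) (xr x P b d) (xr x P a d) bt) + w a b bt := rfl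
  unfold VV
  rw [h1, ← add_assoc, Finset.mul_sum, ← Finset.sum_add_distrib]
  rfl

theorem KK_eq (hx : Wt x P 1) (a b : V) : KK x φ (KeT T x P w) a b
    = ∑ d ∈ ({a, b} : Finset V)ᶜ, (ksw (x a d) (x b d) * V1d T x P φ a b d
      + ksw (x b d) (x a d) * V1d T x P φ b a d) + mt * (1 - lb) * w a b bt := by
  unfold KK KeT
  rw [← add_assoc, Finset.mul_sum, ← Finset.sum_add_distrib]
  congr 1
  refine Finset.sum_congr rfl fun d _ => ?_
  unfold V1d
  rw [xr_symm hx b a]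
  ring

theorem RR_le {a b : V} (ha : P a) (hb : P b) (hab : a ≠ b)
    (hwP : ∀ a b, P a → P b → a ≠ b → w a b bt ≤ ∑ d ∈ ({a, b} : Finset V)ᶜ,
        T.kE (xr x P a b) (xr x P a d) (xr x P b d)) :
    RR x φ (Ce T.cf x P (pfOf T.ek.kd x P w)) a b
      ≤ ∑ d ∈ ({a, b} : Finset V)ᶜ, Vd T x P φ a b d + e0 := by
  have e : RR x φ (Ce T.cf x P (pfOf T.ek.kd x P w)) a b
      = VV x φ (Ce T.cf x P (pfOf T.ek.kd x P w)) a b + e0 := rfl
  have h2 : ∑ d ∈ ({a, b} : Finset V)ᶜ, Vd T x P φ a b d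
      = ∑ d ∈ ({a, b} : Finset V)ᶜ, V0d T x P φ a b d
        + ∑ d ∈ ({a, b} : Finset V)ᶜ, T.kE (xr x P a b) (xr x P a d) (xr x P b d) := by
    rw [← Finset.sum_add_distrib]
    rfl
  have h3 := hwP a b ha hb hab
  rw [e, VV_eq, h2]
  linarith

/-- **the loss of a pair** -/
theorem loss_le (hx : Wt x P 1) {a b : V} (ha : P a) (hb : P b) (hab : a ≠ b)
    (hwP : ∀ a b, P a → P b → a ≠ b → w a b bt ≤ ∑ d ∈ ({a, b} : Finset V)ᶜ,
        T.kE (xr x P a b) (xr x P a d) (xr x P b d)) :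
    RR x φ (Ce T.cf x P (pfOf T.ek.kd x P w)) a b * (wt ^ 2 / 2)
        - QQ x φ (Ce T.cf x P (pfOf T.ek.kd x P w)) (KeT T x P w) a b
          * tG mt vt wt
      ≤ ∑ d ∈ ({a, b} : Finset V)ᶜ, Lod T x P φ a b d + tgc * r0 ^ 2 + wt ^ 2 / 2 * e0 := by
  have e : RR x φ (Ce T.cf x P (pfOf T.ek.kd x P w)) a b
      = VV x φ (Ce T.cf x P (pfOf T.ek.kd x P w)) a b + e0 := rfl
  have h3 := hwP a b ha hb hab
  have q1 : tgc * QQ x φ (Ce T.cf x P (pfOf T.ek.kd x P w))
      (KeT T x P w) a b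
      ≤ QQ x φ (Ce T.cf x P (pfOf T.ek.kd x P w)) (KeT T x P w) a b
          * tG mt vt wt := by
    rw [mul_comm]
    exact mul_le_mul_of_nonneg_left tgc_tG (le_max_left _ _)
  have q2 : VV x φ (Ce T.cf x P (pfOf T.ek.kd x P w)) a b ^ 2
      - mt * la * VV x φ (Ce T.cf x P (pfOf T.ek.kd x P w)) a b
      - KK x φ (KeT T x P w) a b
      ≤ QQ x φ (Ce T.cf x P (pfOf T.ek.kd x P w)) (KeT T x P w) a b :=
    le_max_right _ _
  have q3 := mul_le_mul_of_nonneg_left q2 tgc_nn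
  rw [e]
  set VVa := VV x φ (Ce T.cf x P (pfOf T.ek.kd x P w)) a b with hVV
  set KKa := KK x φ (KeT T x P w) a b with hKK
  set QQa := QQ x φ (Ce T.cf x P (pfOf T.ek.kd x P w)) (KeT T x P w) a b
  have q4 : tgc * (2 * r0 * VVa - r0 ^ 2) ≤ tgc * VVa ^ 2 :=
    mul_le_mul_of_nonneg_left (by nlinarith [sq_nonneg (VVa - r0)]) tgc_nn
  -- the sums
  have s1 : ∑ d ∈ ({a, b} : Finset V)ᶜ, Lod T x P φ a b d
      = (wt ^ 2 / 2 - tgc * (2 * r0 - mt * la)) * ∑ d ∈ ({a, b} : Finset V)ᶜ, V0d T x P φ a b d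
        + tgc * ∑ d ∈ ({a, b} : Finset V)ᶜ, (ksw (x a d) (x b d) * V1d T x P φ a b d
          + ksw (x b d) (x a d) * V1d T x P φ b a d)
        + cwE * ∑ d ∈ ({a, b} : Finset V)ᶜ, T.kE (xr x P a b) (xr x P a d) (xr x P b d) := by
    rw [Finset.mul_sum, Finset.mul_sum, Finset.mul_sum, ← Finset.sum_add_distrib,
      ← Finset.sum_add_distrib]
    refine Finset.sum_congr rfl fun d _ => ?_
    rw [V0d_eq hx]
    unfold Lod cw
    ring
  have s2 : VVa = ∑ d ∈ ({a, b} : Finset V)ᶜ, V0d T x P φ a b d + w a b bt := VV_eq a b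
  have s3 : KKa = ∑ d ∈ ({a, b} : Finset V)ᶜ, (ksw (x a d) (x b d) * V1d T x P φ a b d
      + ksw (x b d) (x a d) * V1d T x P φ b a d) + mt * (1 - lb) * w a b bt :=
    KK_eq hx a b
  have s4 := mul_le_mul_of_nonneg_left h3 cwE_nn
  set S := ∑ d ∈ ({a, b} : Finset V)ᶜ, V0d T x P φ a b d
  set K := ∑ d ∈ ({a, b} : Finset V)ᶜ, (ksw (x a d) (x b d) * V1d T x P φ a b d
      + ksw (x b d) (x a d) * V1d T x P φ b a d)
  rw [s1]
  have s5 : (wt ^ 2 / 2 - tgc * (2 * r0 - mt * la)) * VVa + tgc * KKa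
      = (wt ^ 2 / 2 - tgc * (2 * r0 - mt * la)) * S + tgc * K
        + cwE * w a b bt := by
    rw [s2, s3]
    unfold cwE cw
    ring
  linarith

/-- the contribution of a vertex is bounded by the local functions -/
theorem Vd_le (hT : T.Ok) (h : T.Te fb) (hx : Wt x P 1)
    (hφ : ∀ a b, P a → P b → x a b ≠ 0 → φ a b bt ≤ fb (xr x P a b))
    (hφp : ∀ a b, ¬(P a ∧ P b) → φ a b bt = ((1 + bt) ^ 2)⁻¹)
    {a b d : V} (ha : P a) (hb : P b) (hab : a ≠ b) (hd : d ∈ ({a, b} : Finset V)ᶜ) :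
    2 * (1 - xr x P a b) * (fb (xr x P a b) * Lod T x P φ a b d
        - T.eFs (xr x P a d) (xr x P b d))
      ≤ (x a d + x b d) * (dd' - (eta (xr x P a b) * (T.Z bt + wt * T.Z' bt)
        + fb (xr x P a b) * (tgc * r0 ^ 2))) ∧
    2 * (1 - xr x P a b) * Vd T x P φ a b d ≤ (x a d + x b d) * rm := by
  have h3 := yz_le hx hab hd
  have hy := xmem1 (P := P) hx a b
  have hT0 : 0 ≤ 1 + bt := by linarith [bt_nn]
  have hfb : ∀ y ∈ Icc (0 : ℝ) 1, 0 ≤ fb y := fun y hy => by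
    have := h.f1 y hy
    have : 0 < ((1 + bt) ^ 2)⁻¹ := by have := bt_nn; positivity
    linarith
  have hx0 : 0 ≤ 2 * (1 - xr x P a b) := by linarith [hy.2]
  by_cases hPd : P d
  · -- a real vertex
    have e1 : ∀ {u : V}, P u → xr x P u d = x u d := fun hu => by
      unfold xr; rw [if_pos ⟨hu, hPd⟩]
    have i1 : ∀ {u : V}, P u → x u d * φ u d bt ≤ xr x P u d * fb (xr x P u d) := fun {u} hu => by
      rw [e1 hu]
      by_cases h0 : x u d = 0
      · rw [h0, zero_mul, zero_mul]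
      · have := hφ u d hu hPd h0
        rw [e1 hu] at this
        exact mul_le_mul_of_nonneg_left this (hx.nonneg u d)
    have i21 : V1d T x P φ a b d ≤ T.V1 fb (xr x P a b) (xr x P a d) (xr x P b d) := by
      unfold V1d Dt.V1
      have := mul_le_mul_of_nonneg_left (i1 ha) hT0
      linarith
    have i22 : V1d T x P φ b a d ≤ T.V1 fb (xr x P a b) (xr x P b d) (xr x P a d) := by
      unfold V1d Dt.V1
      rw [xr_symm hx b a]
      have := mul_le_mul_of_nonneg_left (i1 hb) hT0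
      linarith
    have i2 : V0d T x P φ a b d ≤ T.V0 fb (xr x P a b) (xr x P a d) (xr x P b d) := by
      rw [V0d_eq hx]
      exact add_le_add i21 i22
    have i3 : Vd T x P φ a b d ≤ T.Vt fb (xr x P a b) (xr x P a d) (xr x P b d) :=
      add_le_add i2 le_rfl
    have i4 : Lod T x P φ a b d ≤ T.Ls fb (xr x P a b) (xr x P a d) (xr x P b d) := by
      unfold Lod Dt.Ls
      have xa := (xmem1 (P := P) hx a d).2
      have xb := (xmem1 (P := P) hx b d).2
      rw [e1 ha] at xa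
      rw [e1 hb] at xb
      rw [e1 ha, e1 hb] at i21 i22 ⊢
      exact add_le_add (add_le_add (mul_le_mul_of_nonneg_right i21
        (cw_nn (ksw_nn (hx.nonneg a d) (hx.nonneg b d) xb)))
        (mul_le_mul_of_nonneg_right i22
        (cw_nn (ksw_nn (hx.nonneg b d) (hx.nonneg a d) xa)))) le_rfl
    have j1 := h.di' hT hy (xmem1 hx a d) (xmem1 hx b d) h3.1 h3.2.1 h3.2.2
    have j2 := h.rt' hT hy (xmem1 hx a d) (xmem1 hx b d) h3.1 h3.2.1 h3.2.2
    rw [← e1 ha, ← e1 hb]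
    constructor
    · exact le_trans (mul_le_mul_of_nonneg_left (sub_le_sub_right
        (mul_le_mul_of_nonneg_left i4 (hfb _ hy)) _) hx0) j1
    · exact (mul_le_mul_of_nonneg_left i3 hx0).trans j2
  · -- a pendant vertex
    have e1 : ∀ u : V, xr x P u d = 0 := fun u => by
      unfold xr; rw [if_neg fun hh => hPd hh.2]
    have e2 : ∀ u : V, φ u d bt = ((1 + bt) ^ 2)⁻¹ := fun u => hφp u d fun hh => hPd hh.2
    have hka := hT.kEz (xr x P a b)
    have eV0 : V0d T x P φ a b d = (1 + bt) * ((x a d + x b d) * ((1 + bt) ^ 2)⁻¹) := by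
      unfold V0d
      rw [e1 a, e1 b, e2 a, e2 b]
      ring
    have eV : Vd T x P φ a b d = (1 + bt) * ((x a d + x b d) * ((1 + bt) ^ 2)⁻¹) := by
      unfold Vd
      rw [eV0, e1 a, e1 b, hka, add_zero]
    -- only one neighbour
    have hone : x a d = 0 ∨ x b d = 0 := by
      by_contra hc
      push Not at hc
      refine hab (hx.pend1 a d b hPd hc.1 ?_).symm
      rw [hx.symm d b]
      exact hc.2
    have eL : Lod T x P φ a b d = (1 + bt) * ((x a d + x b d) * ((1 + bt) ^ 2)⁻¹)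
        * cw (ksw (x a d + x b d) 0) := by
      unfold Lod V1d
      rw [e1 a, e1 b, e2 a, e2 b, hka]
      rcases hone with h0 | h0
      · rw [h0]
        simp only [zero_mul, mul_zero, zero_add, add_zero]
      · rw [h0]
        simp only [zero_mul, mul_zero, zero_add, add_zero]
    have eF : T.eFs (xr x P a d) (xr x P b d) = 0 := by
      rw [e1 a, e1 b]; unfold Dt.eFs; ring
    -- the conditions with `z = 0`
    have hxd : ∀ {u v : V}, P u → P v → u ≠ v → d ∈ ({u, v} : Finset V)ᶜ →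
        x u d ∈ Icc (0 : ℝ) 1 ∧ xr x P u v + x u d ≤ 1 := by
      intro u v hu hv huv hd
      simp only [Finset.mem_compl, Finset.mem_insert, Finset.mem_singleton, not_or] at hd
      have h0 := hx.row u
      have h1 : x u v + x u d ≤ ∑ c, x u c := by
        rw [← Finset.sum_pair (f := fun c => x u c) (Ne.symm hd.2)]
        exact Finset.sum_le_sum_of_subset_of_nonneg (Finset.subset_univ _) fun c _ _ =>
          hx.nonneg u c
      have e : xr x P u v = x u v := by unfold xr; rw [if_pos ⟨hu, hv⟩]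
      rw [e]
      have := hx.nonneg u v
      exact ⟨⟨hx.nonneg u d, by linarith⟩, by linarith⟩
    have z0 : (0 : ℝ) ∈ Icc (0 : ℝ) 1 := btI bt_m0
    have key : ∀ y ∈ Icc (0 : ℝ) 1, xr x P a b + y ≤ 1 →
        2 * (1 - xr x P a b) * (fb (xr x P a b)
          * ((1 + bt) * (y * ((1 + bt) ^ 2)⁻¹) * cw (ksw y 0)))
        ≤ y * (dd' - (eta (xr x P a b) * (T.Z bt + wt * T.Z' bt)
          + fb (xr x P a b) * (tgc * r0 ^ 2))) ∧
        2 * (1 - xr x P a b) * ((1 + bt) * (y * ((1 + bt) ^ 2)⁻¹)) ≤ y * rm := by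
      intro y hyy hxy
      have j1 := h.di' hT hy hyy z0 hxy (by linarith [hy.2]) (by linarith [hyy.2])
      have j2 := h.rt' hT hy hyy z0 hxy (by linarith [hy.2]) (by linarith [hyy.2])
      have eF0 : T.eFs y 0 = 0 := by unfold Dt.eFs; ring
      have i5 := hT.kEn _ hy y hyy 0 z0 hxy (by linarith [hy.2]) (by linarith [hyy.2])
      have iV1 : (1 + bt) * (y * ((1 + bt) ^ 2)⁻¹) ≤ T.V1 fb (xr x P a b) y 0 := by
        unfold Dt.V1
        have i1 := mul_le_mul_of_nonneg_left (mul_le_mul_of_nonneg_left (h.f1 y hyy) hyy.1) hT0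
        simp only [mul_zero, zero_mul, add_zero]
        linarith
      have iV2 : T.V1 fb (xr x P a b) 0 y = 0 := by
        unfold Dt.V1
        simp only [mul_zero, zero_mul, add_zero]
      have iV0 : (1 + bt) * (y * ((1 + bt) ^ 2)⁻¹) ≤ T.V0 fb (xr x P a b) y 0 := by
        unfold Dt.V0
        rw [iV2, add_zero]
        exact iV1
      have iV : (1 + bt) * (y * ((1 + bt) ^ 2)⁻¹) ≤ T.Vt fb (xr x P a b) y 0 := by
        unfold Dt.Vt
        linarith
      have iL : (1 + bt) * (y * ((1 + bt) ^ 2)⁻¹) * cw (ksw y 0)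
          ≤ T.Ls fb (xr x P a b) y 0 := by
        unfold Dt.Ls
        rw [iV2, zero_mul, add_zero]
        have i6 := mul_le_mul_of_nonneg_right iV1 (cw_nn (ksw_nn hyy.1 le_rfl zero_le_one))
        have i7 := mul_nonneg i5 cwE_nn
        linarith
      rw [eF0, sub_zero, add_zero] at j1
      rw [add_zero] at j2
      exact ⟨(mul_le_mul_of_nonneg_left (mul_le_mul_of_nonneg_left iL (hfb _ hy)) hx0).trans j1,
        (mul_le_mul_of_nonneg_left iV hx0).trans j2⟩
    have hyk : x a d + x b d ∈ Icc (0 : ℝ) 1 ∧ xr x P a b + (x a d + x b d) ≤ 1 := by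
      have ka := hxd ha hb hab hd
      have kb := hxd hb ha hab.symm (by rwa [Finset.pair_comm])
      rw [xr_symm hx b a] at kb
      rcases hone with h0 | h0
      · rw [h0, zero_add]; exact kb
      · rw [h0, add_zero]; exact ka
    obtain ⟨a1, a2⟩ := key _ hyk.1 hyk.2
    rw [eV, eL, eF, sub_zero]
    exact ⟨a1, a2⟩

/-- the sums over the vertices -/
theorem sum_Vd (hT : T.Ok) (h : T.Te fb) (hx : Wt x P 1)
    (hφ : ∀ a b, P a → P b → x a b ≠ 0 → φ a b bt ≤ fb (xr x P a b))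
    (hφp : ∀ a b, ¬(P a ∧ P b) → φ a b bt = ((1 + bt) ^ 2)⁻¹)
    {a b : V} (ha : P a) (hb : P b) (hab : a ≠ b) :
    fb (xr x P a b) * ∑ d ∈ ({a, b} : Finset V)ᶜ, Lod T x P φ a b d
        - ∑ d ∈ ({a, b} : Finset V)ᶜ, T.eFs (xr x P a d) (xr x P b d)
      ≤ dd' - (eta (xr x P a b) * (T.Z bt + wt * T.Z' bt)
        + fb (xr x P a b) * (tgc * r0 ^ 2)) ∧
    ∑ d ∈ ({a, b} : Finset V)ᶜ, Vd T x P φ a b d ≤ rm := by
  have hy := xmem1 (P := P) hx a b
  have hxe : xr x P a b = x a b := by unfold xr; rw [if_pos ⟨ha, hb⟩]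
  have hz := h.zz _ hy
  have hrm : 0 ≤ rm := by
    have : (0 : ℚ) ≤ rmq := by decide +kernel
    unfold rm
    exact_mod_cast this
  by_cases h1 : xr x P a b = 1
  · -- all other weights vanish
    have hx0 : ∀ {u v : V}, P u → P v → u ≠ v → x u v = 1 → ∀ d ∈ ({u, v} : Finset V)ᶜ,
        x u d = 0 := by
      intro u v hu hv huv huv1 d hd
      simp only [Finset.mem_compl, Finset.mem_insert, Finset.mem_singleton, not_or] at hd
      have h0 := hx.row u
      have h1 : x u v + x u d ≤ ∑ c, x u c := by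
        rw [← Finset.sum_pair (f := fun c => x u c) (Ne.symm hd.2)]
        exact Finset.sum_le_sum_of_subset_of_nonneg (Finset.subset_univ _) fun c _ _ =>
          hx.nonneg u c
      have := hx.nonneg u d
      linarith
    have hab1 : x a b = 1 := by rw [← hxe]; exact h1
    have hba1 : x b a = 1 := by rw [hx.symm b a]; exact hab1
    have z1 : ∀ d ∈ ({a, b} : Finset V)ᶜ, x a d = 0 := hx0 ha hb hab hab1
    have z2 : ∀ d ∈ ({a, b} : Finset V)ᶜ, x b d = 0 := fun d hd =>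
      hx0 hb ha hab.symm hba1 d (by rwa [Finset.pair_comm])
    have r1 : ∀ d ∈ ({a, b} : Finset V)ᶜ, xr x P a d = 0 := fun d hd => by
      unfold xr; split_ifs
      · exact z1 d hd
      · rfl
    have r2 : ∀ d ∈ ({a, b} : Finset V)ᶜ, xr x P b d = 0 := fun d hd => by
      unfold xr; split_ifs
      · exact z2 d hd
      · rfl
    have s01 : ∀ d ∈ ({a, b} : Finset V)ᶜ, V1d T x P φ a b d = 0 := fun d hd => by
      unfold V1d
      rw [z1 d hd, r1 d hd]
      ring
    have s02 : ∀ d ∈ ({a, b} : Finset V)ᶜ, V1d T x P φ b a d = 0 := fun d hd => by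
      unfold V1d
      rw [z2 d hd, r2 d hd]
      ring
    have s0 : ∀ d ∈ ({a, b} : Finset V)ᶜ, V0d T x P φ a b d = 0 := fun d hd => by
      rw [V0d_eq hx, s01 d hd, s02 d hd, add_zero]
    have s1 : ∑ d ∈ ({a, b} : Finset V)ᶜ, Vd T x P φ a b d = 0 :=
      Finset.sum_eq_zero fun d hd => by
        unfold Vd
        rw [s0 d hd, r1 d hd, r2 d hd, hT.kEz, add_zero]
    have s3 : ∑ d ∈ ({a, b} : Finset V)ᶜ, Lod T x P φ a b d = 0 :=
      Finset.sum_eq_zero fun d hd => by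
        unfold Lod
        rw [s01 d hd, s02 d hd, r1 d hd, r2 d hd, hT.kEz, zero_mul, zero_mul, zero_mul, add_zero,
          add_zero]
    have s2 : ∑ d ∈ ({a, b} : Finset V)ᶜ, T.eFs (xr x P a d) (xr x P b d) = 0 :=
      Finset.sum_eq_zero fun d hd => by
        rw [r1 d hd, r2 d hd]
        unfold Dt.eFs
        ring
    rw [s1, s2, s3]
    constructor
    · linarith
    · exact hrm
  · have hlt : 0 < 2 * (1 - xr x P a b) := by
      have := lt_of_le_of_ne hy.2 h1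
      linarith
    have hS := sum_x hx hab
    rw [← hxe] at hS
    have k1 := Finset.sum_le_sum fun d (hd : d ∈ ({a, b} : Finset V)ᶜ) =>
      (Vd_le hT h hx hφ hφp ha hb hab hd).1
    have k2 := Finset.sum_le_sum fun d (hd : d ∈ ({a, b} : Finset V)ᶜ) =>
      (Vd_le hT h hx hφ hφp ha hb hab hd).2
    rw [← Finset.mul_sum, ← Finset.sum_mul, Finset.sum_sub_distrib, ← Finset.mul_sum] at k1
    rw [← Finset.mul_sum, ← Finset.sum_mul] at k2
    constructor
    · refine le_of_mul_le_mul_left (k1.trans ?_) hlt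
      exact mul_le_mul_of_nonneg_right hS (by linarith)
    · exact le_of_mul_le_mul_left (k2.trans (mul_le_mul_of_nonneg_right hS hrm)) hlt

/-- the sum of the surpluses only contains vertices outside the pair -/
theorem eFs_compl (hx : Wt x P 1) {u v : V} (huv : u ≠ v) :
    ∑ d, T.eFs (xr x P u d) (xr x P v d)
      = ∑ d ∈ ({u, v} : Finset V)ᶜ, T.eFs (xr x P u d) (xr x P v d) := by
  rw [← Finset.sum_add_sum_compl ({u, v} : Finset V), Finset.sum_pair huv, xr_diag hx u,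
    xr_diag hx v]
  have e1 : ∀ z, T.eFs 0 z = 0 := fun z => by unfold Dt.eFs; ring
  have e2 : ∀ z, T.eFs z 0 = 0 := fun z => by unfold Dt.eFs; ring
  rw [e1, e2, zero_add, zero_add]

end sums

variable {V : Type} [Fintype V] [DecidableEq V] {G : SimpleGraph V} [Fintype G.edgeSet]
  [DecidableEq G.edgeSet] {x : G.edgeSet → ℝ} {w : V ⊕ V → V ⊕ V → ℝ → ℝ}

end Pool.Agent.RX.RCN.K
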