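import Pool.Agent.RX.RCN.InstS_2
import Pool.Agent.RX.RCN.Tend_2

/-! The conditions at the end time from local inequalities (MP_73ccd0_lc, route M). -/

namespace Pool.Agent.RX.RCN.K

open Set Finset MeasureTheory Pool.Agent.RX.RCRSHalf Pool.Agent.RX.RCG Pool.Agent.RX.RCG.Ct
open Pool.Agent.RX.RCN.Ker Pool.Agent.RX.RCRS

set_option linter.unusedSectionVars false

variable {T : Dt} {fb : ℝ → ℝ}

section sums

variable {V : Type*} [Fintype V] [DecidableEq V] {x : V → V → ℝ} {P : V → Prop} [DecidablePred P]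
variable {φ : V → V → ℝ → ℝ} {w : V → V → ℝ → ℝ}

end sums

variable {V : Type} [Fintype V] [DecidableEq V] {G : SimpleGraph V} [Fintype G.edgeSet]
  [DecidableEq G.edgeSet] {x : G.edgeSet → ℝ} {w : V ⊕ V → V ⊕ V → ℝ → ℝ}

/-- **the conditions at the end time** -/
theorem tend_of (hx : IsFractionalMatching G x) (hT : T.Ok) (h : T.Te fb)
    (hw : Wr T.ek.kd (xe x) (P0 V) w)
    (hwP : ∀ a b, P0 V a → P0 V b → a ≠ b → w a b bt ≤ ∑ d ∈ ({a, b} : Finset (V ⊕ V))ᶜ,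
        T.kE (xr (xe x) (P0 V) a b) (xr (xe x) (P0 V) a d) (xr (xe x) (P0 V) b d))
    (hfh : ∀ a b, P0 V a → P0 V b → xe x a b ≠ 0 →
      dn (xe x) (P0 V) (psi' T.cf (xe x) (P0 V) (pfOf T.ek.kd (xe x) (P0 V) w)) a b bt
        ≤ fb (xr (xe x) (P0 V) a b)) :
    TEnd (xe x) (P0 V) (psi T.cf (xe x) (P0 V) (pfOf T.ek.kd (xe x) (P0 V) w))
      (psi' T.cf (xe x) (P0 V) (pfOf T.ek.kd (xe x) (P0 V) w))
      (dn (xe x) (P0 V) (psi' T.cf (xe x) (P0 V) (pfOf T.ek.kd (xe x) (P0 V) w)))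
      (Ce T.cf (xe x) (P0 V) (pfOf T.ek.kd (xe x) (P0 V) w))
      (QQ (xe x) (dn (xe x) (P0 V) (psi' T.cf (xe x) (P0 V) (pfOf T.ek.kd (xe x) (P0 V) w)))
        (Ce T.cf (xe x) (P0 V) (pfOf T.ek.kd (xe x) (P0 V) w))
        (KeT T (xe x) (P0 V) w)) := by
  have hwt : Wt (xe x) (P0 V) 1 := wt_xe hx zero_le_one le_rfl fun e => (hx.1 e).2
  have hcor := Dt.cor hx hT hw
  set φ := dn (xe x) (P0 V) (psi' T.cf (xe x) (P0 V) (pfOf T.ek.kd (xe x) (P0 V) w)) with hφ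
  have hφp : ∀ a b, ¬(P0 V a ∧ P0 V b) → φ a b bt = ((1 + bt) ^ 2)⁻¹ := fun a b hab =>
    dn_pend hab bt
  have hT0 : 0 ≤ 1 + bt := by linarith [bt_nn]
  have hφ0 : ∀ a b, 0 ≤ φ a b bt := fun a b => (dn_pos hcor a b bt_m1).le
  have hc1 : ∀ a b, P0 V a → P0 V b → a ≠ b → ∀ d ∈ ({a, b} : Finset (V ⊕ V))ᶜ,
      0 ≤ xr (xe x) (P0 V) a d * xr (xe x) (P0 V) b d
        * T.C1' (xr (xe x) (P0 V) a b) (xr (xe x) (P0 V) a d) (xr (xe x) (P0 V) b d) bt ∧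
      0 ≤ xr (xe x) (P0 V) a d * xr (xe x) (P0 V) b d
        * T.C1' (xr (xe x) (P0 V) a b) (xr (xe x) (P0 V) b d) (xr (xe x) (P0 V) a d) bt :=
      fun a b ha hb hab d hd => by
    have h3 := yz_le hwt hab hd
    exact ⟨mul_nonneg (mul_nonneg (xr_nonneg hwt a d) (xr_nonneg hwt b d))
      (h.c0 _ (xmem1 hwt a b) _ (xmem1 hwt a d) _ (xmem1 hwt b d) h3.1 h3.2.1 h3.2.2),
      mul_nonneg (mul_nonneg (xr_nonneg hwt a d) (xr_nonneg hwt b d))
        (h.c0 _ (xmem1 hwt a b) _ (xmem1 hwt b d) _ (xmem1 hwt a d) h3.2.1 h3.1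
          (by linarith [h3.2.2]))⟩
  have hk0 : ∀ a b, P0 V a → P0 V b → a ≠ b → ∀ d ∈ ({a, b} : Finset (V ⊕ V))ᶜ,
      0 ≤ xr (xe x) (P0 V) a d * xr (xe x) (P0 V) b d
        * (T.C1' (xr (xe x) (P0 V) a b) (xr (xe x) (P0 V) a d) (xr (xe x) (P0 V) b d) bt
          + T.C1' (xr (xe x) (P0 V) a b) (xr (xe x) (P0 V) b d) (xr (xe x) (P0 V) a d) bt) :=
      fun a b ha hb hab d hd => by
    rw [mul_add]
    exact add_nonneg (hc1 a b ha hb hab d hd).1 (hc1 a b ha hb hab d hd).2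
  have hV1d : ∀ a b, P0 V a → P0 V b → a ≠ b → ∀ d ∈ ({a, b} : Finset (V ⊕ V))ᶜ,
      0 ≤ V1d T (xe x) (P0 V) φ a b d ∧ 0 ≤ V1d T (xe x) (P0 V) φ b a d :=
      fun a b ha hb hab d hd => by
    unfold V1d
    rw [xr_symm hwt b a, mul_comm (xr (xe x) (P0 V) b d) (xr (xe x) (P0 V) a d)]
    exact ⟨add_nonneg (mul_nonneg hT0 (mul_nonneg (hwt.nonneg a d) (hφ0 a d)))
        (hc1 a b ha hb hab d hd).1,
      add_nonneg (mul_nonneg hT0 (mul_nonneg (hwt.nonneg b d) (hφ0 b d)))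
        (hc1 a b ha hb hab d hd).2⟩
  have hV0d : ∀ a b, P0 V a → P0 V b → a ≠ b → ∀ d ∈ ({a, b} : Finset (V ⊕ V))ᶜ,
      0 ≤ V0d T (xe x) (P0 V) φ a b d := fun a b ha hb hab d hd => by
    rw [V0d_eq hwt]
    exact add_nonneg (hV1d a b ha hb hab d hd).1 (hV1d a b ha hb hab d hd).2
  have x1 : ∀ u v, xe x u v ≤ 1 := fun u v =>
    (Finset.single_le_sum (f := fun c => xe x u c) (fun c _ => hwt.nonneg u c)
      (Finset.mem_univ v)).trans (hwt.row u)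
  have hVV0 : ∀ a b, P0 V a → P0 V b → a ≠ b →
      0 ≤ VV (xe x) φ (Ce T.cf (xe x) (P0 V) (pfOf T.ek.kd (xe x) (P0 V) w)) a b :=
      fun a b ha hb hab => by
    rw [VV_eq]
    exact add_nonneg (Finset.sum_nonneg fun d hd => hV0d a b ha hb hab d hd)
      (hw.n a b bt bt_m1)
  have hKK0 : ∀ a b, P0 V a → P0 V b → a ≠ b →
      0 ≤ KK (xe x) φ (KeT T (xe x) (P0 V) w) a b :=
      fun a b ha hb hab => by
    rw [KK_eq hwt]
    exact add_nonneg (Finset.sum_nonneg fun d hd => add_nonneg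
      (mul_nonneg (ksw_nn (hwt.nonneg a d) (hwt.nonneg b d) (x1 b d)) (hV1d a b ha hb hab d hd).1)
      (mul_nonneg (ksw_nn (hwt.nonneg b d) (hwt.nonneg a d) (x1 a d)) (hV1d a b ha hb hab d hd).2))
      (mul_nonneg (mul_nonneg mt_nn lb_nn) (hw.n a b bt bt_m1))
  have hRm : ∀ a b, P0 V a → P0 V b → a ≠ b →
      RR (xe x) φ (Ce T.cf (xe x) (P0 V) (pfOf T.ek.kd (xe x) (P0 V) w)) a b ≤ rm + e0 :=
      fun a b ha hb hab => by
    have h1 := RR_le (φ := φ) (T := T) ha hb hab hwP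
    have h2 := (sum_Vd hT h hwt hfh hφp ha hb hab).2
    linarith
  have hws : ∀ a b, w a b bt = w b a bt := fun a b => by rw [hw.s a b]
  have hCs : ∀ a b, Ce T.cf (xe x) (P0 V) (pfOf T.ek.kd (xe x) (P0 V) w) a b
      = Ce T.cf (xe x) (P0 V) (pfOf T.ek.kd (xe x) (P0 V) w) b a := fun a b => by
    unfold Ce
    have e1 : (pfOf T.ek.kd (xe x) (P0 V) w).w a b bt
        = (pfOf T.ek.kd (xe x) (P0 V) w).w b a bt := hws a b
    rw [e1, Finset.pair_comm a b]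
    congr 1
    refine Finset.sum_congr rfl fun d _ => ?_
    show xr (xe x) (P0 V) a d * xr (xe x) (P0 V) b d * (T.C1' _ _ _ bt + T.C1' _ _ _ bt)
      = xr (xe x) (P0 V) b d * xr (xe x) (P0 V) a d * (T.C1' _ _ _ bt + T.C1' _ _ _ bt)
    rw [xr_symm hwt b a]
    ring
  have hKs : ∀ a b, KeT T (xe x) (P0 V) w a b
      = KeT T (xe x) (P0 V) w b a := fun a b => by
    unfold KeT
    rw [hws a b, Finset.pair_comm a b]
    congr 1
    refine Finset.sum_congr rfl fun d _ => ?_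
    rw [xr_symm hwt b a]
    ring
  refine ⟨fun a b ha hb hab => (hfh a b ha hb hab).trans (h.fe _ (xmem1 hwt a b)),
    hCs, fun a b ha hb hab h0 => ?_, fun a b ha hb hab h0 => hRm a b ha hb hab,
    QQ_symm hCs hKs, fun a b _ _ _ _ => le_max_left _ _, fun a b ha hb hab h0 => ?_,
    fun a b ha hb hab h0 => ?_⟩
  · unfold Ce
    exact add_nonneg (Finset.sum_nonneg fun d hd => hk0 a b ha hb hab d hd) (hw.n a b bt bt_m1)
  · -- `Q / (2 v) ≤ R`
    have v0 := vt_pos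
    have h1 := hVV0 a b ha hb hab
    have h2 := hKK0 a b ha hb hab
    have h3 := hRm a b ha hb hab
    have e : RR (xe x) φ (Ce T.cf (xe x) (P0 V) (pfOf T.ek.kd (xe x) (P0 V) w)) a b
      = VV (xe x) φ (Ce T.cf (xe x) (P0 V) (pfOf T.ek.kd (xe x) (P0 V) w)) a b + e0 := rfl
    rw [e] at h3 ⊢
    unfold QQ
    set A := VV (xe x) φ (Ce T.cf (xe x) (P0 V) (pfOf T.ek.kd (xe x) (P0 V) w)) a b
    set B := KK (xe x) φ (KeT T (xe x) (P0 V) w) a b
    have h4 : max 0 (A ^ 2 - mt * la * A - B) ≤ A * vt := by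
      refine max_le (mul_nonneg h1 v0.le) ?_
      have h5 : A ≤ vt := by linarith [e0_pos, rm_vt]
      have h6 := mul_le_mul_of_nonneg_left h5 h1
      have h7 := mul_nonneg (mul_nonneg mt_nn la_nn) h1
      nlinarith
    rw [← div_eq_mul_inv, div_le_iff₀ (by linarith)]
    have h9 := mul_nonneg h1 v0.le
    have h10 := mul_pos e0_pos v0
    nlinarith
  · have h1 := loss_le (φ := φ) (T := T) hwt ha hb hab hwP
    have h2 := (sum_Vd hT h hwt hfh hφp ha hb hab).1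
    set R := RR (xe x) φ (Ce T.cf (xe x) (P0 V) (pfOf T.ek.kd (xe x) (P0 V) w)) a b with hR
    set Q := QQ (xe x) φ (Ce T.cf (xe x) (P0 V) (pfOf T.ek.kd (xe x) (P0 V) w))
      (KeT T (xe x) (P0 V) w) a b with hQ
    set S := ∑ d ∈ ({a, b} : Finset (V ⊕ V))ᶜ, Lod T (xe x) (P0 V) φ a b d with hS
    have hy := xmem1 (P := P0 V) hwt a b
    have hφ0 : 0 < φ a b bt := dn_pos hcor a b bt_m1
    have hφe : φ a b bt = ((1 + bt) ^ 2)⁻¹
        - psi' T.cf (xe x) (P0 V) (pfOf T.ek.kd (xe x) (P0 V) w) a b bt :=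
      dn_real ha hb h0 bt
    have hφ1 := hfh a b ha hb h0
    have hφ2 := h.fe _ hy
    have hw2 : 0 ≤ wt ^ 2 / 2 := by positivity
    have hS0 : 0 ≤ S := by
      refine Finset.sum_nonneg fun d hd => ?_
      have h3 := yz_le hwt hab hd
      have k1 := hT.kEn _ (xmem1 hwt a b) _ (xmem1 hwt a d) _ (xmem1 hwt b d) h3.1 h3.2.1 h3.2.2
      obtain ⟨v1, v2⟩ := hV1d a b ha hb hab d hd
      unfold Lod
      exact add_nonneg (add_nonneg
        (mul_nonneg v1 (cw_nn (ksw_nn (hwt.nonneg a d) (hwt.nonneg b d) (x1 b d))))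
        (mul_nonneg v2 (cw_nn (ksw_nn (hwt.nonneg b d) (hwt.nonneg a d) (x1 a d)))))
        (mul_nonneg k1 cwE_nn)
    have hr0 : 0 ≤ tgc * r0 ^ 2 := mul_nonneg tgc_nn (sq_nonneg _)
    -- the loss
    have l1 : φ a b bt * (R * (wt ^ 2 / 2) - Q * tG mt vt wt)
        ≤ fb (xr (xe x) (P0 V) a b) * S + fb (xr (xe x) (P0 V) a b) * (tgc * r0 ^ 2)
          + wt ^ 2 / 2 * (ph * e0) := by
      have i1 := mul_le_mul_of_nonneg_left h1 hφ0.le
      have i2 : φ a b bt * (S + tgc * r0 ^ 2)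
          ≤ fb (xr (xe x) (P0 V) a b) * (S + tgc * r0 ^ 2) :=
        mul_le_mul_of_nonneg_right hφ1 (add_nonneg hS0 hr0)
      have i3 : φ a b bt * (wt ^ 2 / 2 * e0) ≤ ph * (wt ^ 2 / 2 * e0) :=
        mul_le_mul_of_nonneg_right (hφ1.trans hφ2) (mul_nonneg hw2 e0_pos.le)
      have i4 : φ a b bt * (S + tgc * r0 ^ 2 + wt ^ 2 / 2 * e0)
          = φ a b bt * (S + tgc * r0 ^ 2) + φ a b bt * (wt ^ 2 / 2 * e0) := by ring
      rw [i4] at i1
      have i5 : ph * (wt ^ 2 / 2 * e0) = wt ^ 2 / 2 * (ph * e0) := by ring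
      rw [i5] at i3
      rw [mul_add] at i2
      linarith
    -- the correction
    have hO := (Dt.wk hx hT hw).z1 a b
    have e1 : psi T.cf (xe x) (P0 V) (pfOf T.ek.kd (xe x) (P0 V) w) a b bt
        + wt * psi' T.cf (xe x) (P0 V) (pfOf T.ek.kd (xe x) (P0 V) w) a b bt
        = eta (xr (xe x) (P0 V) a b) * (T.Z bt + wt * T.Z' bt)
          - ∑ d, T.eFs (xr (xe x) (P0 V) a d) (xr (xe x) (P0 V) b d) := by
      have e2 : ∑ d, T.eFs (xr (xe x) (P0 V) a d) (xr (xe x) (P0 V) b d)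
          = ∑ d, T.cf.mu (xr (xe x) (P0 V) a b) (xr (xe x) (P0 V) a d) (xr (xe x) (P0 V) b d) bt
            + wt * ∑ d, T.cf.mu' (xr (xe x) (P0 V) a b) (xr (xe x) (P0 V) a d)
              (xr (xe x) (P0 V) b d) bt := by
        rw [Finset.mul_sum, ← Finset.sum_add_distrib]
        refine Finset.sum_congr rfl fun d _ => ?_
        unfold Dt.eFs Dt.cf
        ring
      rw [e2]
      have e3 : T.cf.al (xr (xe x) (P0 V) a b) bt = eta (xr (xe x) (P0 V) a b) * T.Z bt := rfl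
      have e4 : T.cf.al' (xr (xe x) (P0 V) a b) bt = eta (xr (xe x) (P0 V) a b) * T.Z' bt := rfl
      unfold psi psi'
      rw [e3, e4]
      linear_combination -hO
    rw [eFs_compl hwt hab] at e1
    have e5 : cT = bt / (1 + bt) + wt * ((1 + bt) ^ 2)⁻¹ - dd := rfl
    have e6 : dd' = dd - wt ^ 2 / 2 * (ph * e0) := rfl
    have e7 : (1 : ℝ) - bt = wt := rfl
    rw [e5, e7, ← hφe]
    have e8 : φ a b bt * (wt - R * (wt ^ 2 / 2) + Q * tG mt vt wt)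
        = wt * ((1 + bt) ^ 2)⁻¹
          - wt * psi' T.cf (xe x) (P0 V) (pfOf T.ek.kd (xe x) (P0 V) w) a b bt
          - φ a b bt * (R * (wt ^ 2 / 2) - Q * tG mt vt wt) := by
      rw [hφe]
      ring
    rw [e8]
    linarith

end Pool.Agent.RX.RCN.K
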