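import Pool.Agent.RX.RCN.Fin_1
import Pool.Agent.RX.RCN.Glue
import Pool.Agent.RX.RCN.Hlo
import Pool.Agent.RX.RCN.Tend_3

/-! The assembly: bounds of the triple probabilities with an explicit error function and the graph
inequalities of the walk rates give a scheme (MP_73ccd0_lc, route M). -/

namespace Pool.Agent.RX.RCN.K

open Set Finset MeasureTheory Pool.Agent.RX.RCRSHalf Pool.Agent.RX.RCG Pool.Agent.RX.RCG.Ct
open Pool.Agent.RX.RCN.Ker Pool.Agent.RX.RCRS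

set_option linter.unusedSectionVars false

section defs

variable {V : Type*} [Fintype V] [DecidableEq V]
variable (fh : ℝ → ℝ → ℝ) (mb : ℝ → ℝ → ℝ → ℝ → ℝ) (E : V → V → V → ℝ → ℝ)
variable (x : V → V → ℝ) (P : V → Prop) [DecidablePred P]

end defs

variable {V : Type*} [Fintype V] [DecidableEq V]
variable {fh : ℝ → ℝ → ℝ} {mb : ℝ → ℝ → ℝ → ℝ → ℝ} {E : V → V → V → ℝ → ℝ}
variable {x : V → V → ℝ} {P : V → Prop} [DecidablePred P]

variable {T : Dt} {sl : ℝ → ℝ → ℝ} {δ : ℝ}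

/-- a certified process, with slack -/
def Cp (T : Dt) (sl : ℝ → ℝ → ℝ) (x : V → V → ℝ) (P : V → Prop) [DecidablePred P]
    (w : V → V → ℝ → ℝ) (h : ℝ → V → V → ℝ) (H : V → V → ℝ → ℝ) (t : ℝ) : Prop :=
  Kn x P (dn x P (psi' T.cf x P (pfOf T.ek.kd x P w))) T.cf.ab h H t ∧
    Sg x P (dn x P (psi' T.cf x P (pfOf T.ek.kd x P w))) sl h H t

/-- the bound of the triple probabilities -/
def HM (T : Dt) (sl : ℝ → ℝ → ℝ) (mb : ℝ → ℝ → ℝ → ℝ → ℝ) (x : V → V → ℝ) (P : V → Prop)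
    [DecidablePred P] (w : V → V → ℝ → ℝ) (E : V → V → V → ℝ → ℝ) : Prop :=
  ∀ (h : ℝ → V → V → ℝ) (H : V → V → ℝ → ℝ) (t : ℝ), Cp T sl x P w h H t →
    ∀ a b d, P a → P b → P d → a ≠ b → a ≠ d → b ≠ d → x a b ≠ 0 → x a d ≠ 0 →
      ppp h a b d t * bb h ∅ a t * (1 - mb (xr x P a b) (xr x P a d) (xr x P b d) t - E a b d t)
        ≤ pp h a b t * pp h a d t

/-- **from the bounds of the triple probabilities to the cost bound of one side of a vertex** -/
theorem side_of_E (hx : Wt x P 1) (hf : Kq T fh mb) (hE : Er δ mb x P E)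
    (hfh : ∀ a b, P a → P b → x a b ≠ 0 → ∀ t ∈ Icc (0 : ℝ) bt,
      dn x P (psi' T.cf x P (pfOf T.ek.kd x P (wE fh mb E x P))) a b t ≤ fh (xr x P a b) t)
    (hM : HM T sl mb x P (wE fh mb E x P) E)
    {h : ℝ → V → V → ℝ} {H : V → V → ℝ → ℝ} {t : ℝ}
    (hK : Kn x P (dn x P (psi' T.cf x P (pfOf T.ek.kd x P (wE fh mb E x P)))) T.cf.ab h H t)
    (hSg : Sg x P (dn x P (psi' T.cf x P (pfOf T.ek.kd x P (wE fh mb E x P)))) sl h H t)
    {u v : V} (hu : P u) (hv : P v) (huv : u ≠ v) (hxuv : x u v ≠ 0) {d : V}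
    (hd : d ∈ ({u, v} : Finset V)ᶜ) :
    dE h u d t * (rho h u v d t - 1)
      ≤ xr x P u d * xr x P v d * T.C1' (xr x P u v) (xr x P u d) (xr x P v d) t
        + wS fh mb E x P u v d t := by
  have ht := hK.ht
  have tt : t ∈ Icc 0 t := ⟨ht.1, le_rfl⟩
  have hp := hK.pos t tt u v hxuv
  have h3 := tri_le hx huv hd
  have hd2 := hd
  simp only [Finset.mem_compl, Finset.mem_insert, Finset.mem_singleton, not_or] at hd2
  have key := hK.side_le hx (v := v) (d := d) hu hp (hf.f0 _ (xmem1 hx u d) t ht)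
    (hf.m0 _ (xmem1 hx u v) _ (xmem1 hx u d) _ (xmem1 hx v d) t ht h3.1 h3.2.1 h3.2.2)
    (hE.n' hu hv huv hd ht) (by
      have := Er.l' hf hE hu hv huv hd ht
      have := hE.d0
      linarith)
    (fun hPd h0 => hfh u d hu hPd h0 t ht)
    (fun hPd had => by
      have k1 := hM h H t ⟨hK, hSg⟩ u v d hu hv hPd huv (Ne.symm hd2.1) (Ne.symm hd2.2) hxuv had
      have k2 := hM h H t ⟨hK, hSg⟩ u d v hu hPd hv (Ne.symm hd2.1) huv hd2.2 had hxuv
      have e1 : ppp h u d v t = ppp h u v d t := by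
        unfold ppp
        congr 1
        rw [Finset.pair_comm d v]
      rw [e1, mul_comm (pp h u d t), hf.ms, xr_symm hx d v] at k2
      unfold emin
      rw [if_pos hPd]
      rcases le_total (E u v d t) (E u d v t) with hle | hle
      · rw [min_eq_left hle]; exact k1
      · rw [min_eq_right hle]; exact k2)
  refine key.trans (add_le_add ?_ (le_of_eq ?_))
  · exact hf.mq _ (xmem1 hx u v) _ (xmem1 hx u d) _ (xmem1 hx v d) t ht h3.1 h3.2.1 h3.2.2
  · unfold wS amp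
    rw [div_eq_mul_inv]

/-- **from the bounds of the triple probabilities to the cost bound of one vertex** -/
theorem cost1_of_E (hx : Wt x P 1) (hf : Kq T fh mb) (hE : Er δ mb x P E)
    (hfh : ∀ a b, P a → P b → x a b ≠ 0 → ∀ t ∈ Icc (0 : ℝ) bt,
      dn x P (psi' T.cf x P (pfOf T.ek.kd x P (wE fh mb E x P))) a b t ≤ fh (xr x P a b) t)
    (hM : HM T sl mb x P (wE fh mb E x P) E)
    {h : ℝ → V → V → ℝ} {H : V → V → ℝ → ℝ} {t : ℝ}
    (hK : Kn x P (dn x P (psi' T.cf x P (pfOf T.ek.kd x P (wE fh mb E x P)))) T.cf.ab h H t)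
    (hSg : Sg x P (dn x P (psi' T.cf x P (pfOf T.ek.kd x P (wE fh mb E x P)))) sl h H t)
    {u v : V} (hu : P u) (hv : P v) (huv : u ≠ v) (hxuv : x u v ≠ 0) {d : V}
    (hd : d ∈ ({u, v} : Finset V)ᶜ) :
    dE h u d t * (rho h u v d t - 1) + dE h v d t * (rho h v u d t - 1)
      ≤ T.cf.k (xr x P u v) (xr x P u d) (xr x P v d) t
        + (wS fh mb E x P u v d t + wS fh mb E x P v u d t) := by
  have hd' : d ∈ ({v, u} : Finset V)ᶜ := by rwa [Finset.pair_comm]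
  have hxvu : x v u ≠ 0 := by rw [hx.symm]; exact hxuv
  have i1 := side_of_E hx hf hE hfh hM hK hSg hu hv huv hxuv hd
  have i2 := side_of_E hx hf hE hfh hM hK hSg hv hu huv.symm hxvu hd'
  rw [xr_symm hx v u, mul_comm (xr x P v d) (xr x P u d)] at i2
  show _ ≤ xr x P u d * xr x P v d * (T.C1' (xr x P u v) (xr x P u d) (xr x P v d) t
      + T.C1' (xr x P u v) (xr x P v d) (xr x P u d) t) + _
  linarith

/-- **from the bounds of the triple probabilities to the cost bound** -/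
theorem cost_of_E (hx : Wt x P 1) (hf : Kq T fh mb) (hE : Er δ mb x P E)
    (hfh : ∀ a b, P a → P b → x a b ≠ 0 → ∀ t ∈ Icc (0 : ℝ) bt,
      dn x P (psi' T.cf x P (pfOf T.ek.kd x P (wE fh mb E x P))) a b t ≤ fh (xr x P a b) t)
    (hM : HM T sl mb x P (wE fh mb E x P) E) :
    CostS T.cf x P (pfOf T.ek.kd x P (wE fh mb E x P)) sl := by
  intro h H t hK hSg u v hu hv huv hxuv
  refine (Finset.sum_le_sum fun d hd =>
    cost1_of_E hx hf hE hfh hM hK hSg hu hv huv hxuv hd).trans ?_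
  rw [Finset.sum_add_distrib]
  refine add_le_add le_rfl (le_of_eq ?_)
  show _ = wE fh mb E x P u v t
  unfold wE
  rw [if_pos ⟨hu, hv, huv⟩]

/-- **from the bounds of the triple probabilities to the bound of the weighted costs** -/
theorem costK_of_E (hx : Wt x P 1) (hf : Kq T fh mb) (hE : Er δ mb x P E)
    (hfh : ∀ a b, P a → P b → x a b ≠ 0 → ∀ t ∈ Icc (0 : ℝ) bt,
      dn x P (psi' T.cf x P (pfOf T.ek.kd x P (wE fh mb E x P))) a b t ≤ fh (xr x P a b) t)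
    (hM : HM T sl mb x P (wE fh mb E x P) E) :
    CostK T.cf x P (pfOf T.ek.kd x P (wE fh mb E x P)) sl
      (KeT T x P (wE fh mb E x P)) := by
  intro h H hK hSg u v hu hv huv hxuv
  have hxvu : x v u ≠ 0 := by rw [hx.symm]; exact hxuv
  have x1 : ∀ u v, x u v ≤ 1 := fun u v =>
    (Finset.single_le_sum (f := fun c => x u c) (fun c _ => hx.nonneg u c)
      (Finset.mem_univ v)).trans (hx.row u)
  have h1 : ∀ d ∈ ({u, v} : Finset V)ᶜ,
      (ksw (x u d) (x v d) * (dE h u d bt * (rho h u v d bt - 1))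
        + ksw (x v d) (x u d) * (dE h v d bt * (rho h v u d bt - 1)))
      ≤ (ksw (x u d) (x v d)
          * (xr x P u d * xr x P v d * T.C1' (xr x P u v) (xr x P u d) (xr x P v d) bt)
        + ksw (x v d) (x u d)
          * (xr x P u d * xr x P v d * T.C1' (xr x P u v) (xr x P v d) (xr x P u d) bt))
        + mt * (1 - lb) * (wS fh mb E x P u v d bt + wS fh mb E x P v u d bt) := fun d hd => by
    have hd' : d ∈ ({v, u} : Finset V)ᶜ := by rwa [Finset.pair_comm]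
    have k1 : x u d + x v d ≤ 1 := by
      have h2 := hx.row d
      have h3 : x d u + x d v ≤ ∑ c, x d c := by
        rw [← Finset.sum_pair (f := fun c => x d c) huv]
        exact Finset.sum_le_sum_of_subset_of_nonneg (Finset.subset_univ _) fun c _ _ =>
          hx.nonneg d c
      rw [hx.symm d u, hx.symm d v] at h3
      linarith
    have i1 := side_of_E hx hf hE hfh hM hK hSg hu hv huv hxuv hd
    have i2 := side_of_E hx hf hE hfh hM hK hSg hv hu huv.symm hxvu hd'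
    rw [xr_symm hx v u, mul_comm (xr x P v d) (xr x P u d)] at i2
    have w1 := wS_nonneg hx hf hE hu hv huv hd hK.ht
    have w2 := wS_nonneg hx hf hE hv hu huv.symm hd' hK.ht
    have a1 := ksw_nn (hx.nonneg u d) (hx.nonneg v d) (x1 v d)
    have a2 := ksw_nn (hx.nonneg v d) (hx.nonneg u d) (x1 u d)
    have b1 := ksw_le (hx.nonneg v d) k1
    have b2 := ksw_le (hx.nonneg u d) (show x v d + x u d ≤ 1 by linarith)
    have c1 := mul_le_mul_of_nonneg_left i1 a1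
    have c2 := mul_le_mul_of_nonneg_left i2 a2
    have c3 := mul_le_mul_of_nonneg_right b1 w1
    have c4 := mul_le_mul_of_nonneg_right b2 w2
    rw [mul_add] at c1 c2
    rw [mul_add (mt * (1 - lb))]
    linarith
  refine (Finset.sum_le_sum h1).trans ?_
  rw [Finset.sum_add_distrib, ← Finset.mul_sum]
  refine add_le_add le_rfl (le_of_eq ?_)
  have e : wE fh mb E x P u v bt = ∑ d ∈ ({u, v} : Finset V)ᶜ,
      (wS fh mb E x P u v d bt + wS fh mb E x P v u d bt) := by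
    unfold wE
    rw [if_pos ⟨hu, hv, huv⟩]
  rw [e]

/-- the bounds of the walk rates -/
theorem wr_of_E (hx : Wt x P 1) (hf : Kq T fh mb) (hE : Er δ mb x P E)
    (hT : ∀ a, P a → ∀ t ∈ Icc (0 : ℝ) bt,
      ∑ b, xr x P a b * wE fh mb E x P a b t 
        ≤ T.kt t * (∑ b, T.sT (xr x P a b) - T.k1 * Qs x P a))
    (hP : ∀ a b, P a → P b → a ≠ b → ∀ t ∈ Icc (0 : ℝ) bt,
      wE fh mb E x P a b t ≤ T.kp t * ∑ d ∈ ({a, b} : Finset V)ᶜ,
        T.ka (xr x P a d) (xr x P b d)) :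
    Wr T.ek.kd x P (wE fh mb E x P) where
  s a b := wE_symm a b
  i := wE_int hx hf hE
  n a b _ ht := wE_nonneg hx hf hE a b ht
  T a ha t ht := hT a ha t ht
  P a b ha hb hab t ht := hP a b ha hb hab t ht

variable {V : Type} [Fintype V] [DecidableEq V] {G : SimpleGraph V} [Fintype G.edgeSet]
  [DecidableEq G.edgeSet] {x : G.edgeSet → ℝ} {E : V ⊕ V → V ⊕ V → V ⊕ V → ℝ → ℝ}

/-- **the assembly** -/
theorem half_of_E (hx : IsFractionalMatching G x) (h : T.Ok) (hsl : Sl T.cf T.cg sl)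
    (hf : Kq T fh mb)
    (hE : Er δ mb (xe x) (P0 V) E) (hte : T.Te fun y => fh y bt)
    (hfh : ∀ a b, P0 V a → P0 V b → xe x a b ≠ 0 → ∀ t ∈ Icc (0 : ℝ) bt,
      dn (xe x) (P0 V) (psi' T.cf (xe x) (P0 V) (pfOf T.ek.kd (xe x) (P0 V)
        (wE fh mb E (xe x) (P0 V)))) a b t ≤ fh (xr (xe x) (P0 V) a b) t)
    (hM : HM T sl mb (xe x) (P0 V) (wE fh mb E (xe x) (P0 V)) E)
    (hT : ∀ a, P0 V a → ∀ t ∈ Icc (0 : ℝ) bt,
      ∑ b, xr (xe x) (P0 V) a b * wE fh mb E (xe x) (P0 V) a b t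
        ≤ T.kt t * (∑ b, T.sT (xr (xe x) (P0 V) a b) - T.k1 * Qs (xe x) (P0 V) a))
    (hP : ∀ a b, P0 V a → P0 V b → a ≠ b → ∀ t ∈ Icc (0 : ℝ) bt,
      wE fh mb E (xe x) (P0 V) a b t ≤ T.kp t * ∑ d ∈ ({a, b} : Finset (V ⊕ V))ᶜ,
        T.ka (xr (xe x) (P0 V) a d) (xr (xe x) (P0 V) b d))
    (hPE : ∀ a b, P0 V a → P0 V b → a ≠ b →
      wE fh mb E (xe x) (P0 V) a b bt ≤ ∑ d ∈ ({a, b} : Finset (V ⊕ V))ᶜ,
        T.kE (xr (xe x) (P0 V) a b) (xr (xe x) (P0 V) a d) (xr (xe x) (P0 V) b d))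
    {L : V ⊕ V → V ⊕ V → V ⊕ V → V ⊕ V → ℝ}
    (hec : Ec T.cf (xe x) (P0 V) (pfOf T.ek.kd (xe x) (P0 V) (wE fh mb E (xe x) (P0 V))) sl L) :
    ∃ S : Scheme G, ∀ e : G.edgeSet, cT * x e ≤ S.selProb x e :=
  have hw := wt_xe hx zero_le_one le_rfl fun e => (hx.1 e).2
  half_of_dtS hx h hsl (wr_of_E hw hf hE hT hP)
    (tend_of hx h hte (wr_of_E hw hf hE hT hP) hPE fun a b ha hb hab => hfh a b ha hb hab bt bt_m1)
    hec (hazL_of (T.cf_ok h) (T.cg_ok h) hw (Dt.wk hx h (wr_of_E hw hf hE hT hP)) hte.hl)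
    (cost_of_E hw hf hE hfh hM) (costK_of_E hw hf hE hfh hM)

end Pool.Agent.RX.RCN.K
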