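import Pool.Agent.RX.RCN.Asm_1
import Pool.Agent.RX.RCN.Fin_2

/-! The assembly: the remaining inequalities (MP_73ccd0_lc, route M). -/

namespace Pool.Agent.RX.RCN.K

open Set Finset MeasureTheory Pool.Agent.RX.RCRSHalf Pool.Agent.RX.RCG Pool.Agent.RX.RCG.Ct
open Pool.Agent.RX.RCN.Ker Pool.Agent.RX.RCRS

set_option linter.unusedSectionVars false

variable {V : Type} [Fintype V] [DecidableEq V]
variable {Gr : SimpleGraph V} [Fintype Gr.edgeSet] [DecidableEq Gr.edgeSet]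

/-- the bound of the densities of the certified processes -/
def Dn (D : Da V) (x : Gr.edgeSet → ℝ) : Prop :=
  ∀ (h : ℝ → V ⊕ V → V ⊕ V → ℝ) (H : V ⊕ V → V ⊕ V → ℝ → ℝ) (t : ℝ),
    Cp D.T D.sl (xe x) (P0 V) (D.w x) h H t →
    (∀ u v, ∀ r ∈ Icc 0 t, h r u v ≤ D.Z.hh (xe x) (P0 V) r u v) →
    (∀ u v, ∀ σ ∈ Icc 0 t, ∀ r ∈ Icc 0 σ,
      H u v σ - H u v r ≤ D.Z.Hh (xe x) (P0 V) σ u v r) →
    ∀ a b, P0 V a → P0 V b → a ≠ b → xe x a b ≠ 0 → ∀ d ∈ ({a, b} : Finset (V ⊕ V))ᶜ,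
      xe x b d ≠ 0 → ∀ s ∈ Icc 0 t, RCM.Dens h t s a b d
        (D.κd (xe x a b + xe x a d) t s)

/-- the inequality of the pairs at the end time -/
def PE (D : Da V) (x : Gr.edgeSet → ℝ) : Prop :=
  ∀ a b, P0 V a → P0 V b → a ≠ b →
    D.w x a b bt ≤ ∑ d ∈ ({a, b} : Finset (V ⊕ V))ᶜ,
      D.T.kE (xr (xe x) (P0 V) a b) (xr (xe x) (P0 V) a d) (xr (xe x) (P0 V) b d)

/-- the bound of the weighted errors of the closures at the end time -/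
def PL (D : Da V) (x : Gr.edgeSet → ℝ) : Prop :=
  ∀ a b, P0 V a → P0 V b → a ≠ b → ∀ d ∈ ({a, b} : Finset (V ⊕ V))ᶜ,
    (xe x a d ≠ 0 ∨ xe x b d ≠ 0) → ∑ e ∈ ({a, b, d} : Finset (V ⊕ V))ᶜ,
      (xe x a e + xe x b e) * (1 - Real.exp (-(Lc (P0 V) D.C a b d e bt bt)))
      ≤ la - lb * (xe x a d + xe x b d)

end Pool.Agent.RX.RCN.K
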