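import Pool.Agent.RX.RCN.Asm_2
import Pool.Agent.RX.RCN.Top_1
import Pool.Agent.RX.RCN.Top_2

/-! The assembly: the remaining inequalities (MP_73ccd0_lc, route M). -/

namespace Pool.Agent.RX.RCN.K

open Set Finset MeasureTheory Pool.Agent.RX.RCRSHalf Pool.Agent.RX.RCG Pool.Agent.RX.RCG.Ct
open Pool.Agent.RX.RCN.Ker Pool.Agent.RX.RCRS

set_option linter.unusedSectionVars false

variable {V : Type} [Fintype V] [DecidableEq V]
variable {Gr : SimpleGraph V} [Fintype Gr.edgeSet] [DecidableEq Gr.edgeSet]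

/-- **the assembly**: closures of the cells, level 0 of single vertices, densities, the gap, and
the graph inequalities -/
theorem half_of_G {D : Da V} (hD : D.Ok) {x : Gr.edgeSet → ℝ} (hx : IsFractionalMatching Gr x)
    (hC : Cls D.Z (xe x) (P0 V) D.C)
    (hL : ∀ a, P0 V a → ∀ t ∈ Icc (0 : ℝ) bt, ∃ mb Y' M M' : ℝ → ℝ,
      RCM.L0s (D.Z.hh (xe x) (P0 V)) (xe x) {a} t mb (fun _ => D.Th t) (D.Y t) Y' M M')
    (hdens : Dn D x) {δ : ℝ} {A : ℝ → ℝ → ℝ} {α γ : ℝ → ℝ} (hG : Gp D δ A α γ) (hT : TT D x)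
    (hP : PP D x) (hPE : PE D x) (hPL : PL D x) :
    ∃ S : Scheme Gr, ∀ e : Gr.edgeSet, cT * x e ≤ S.selProb x e := by
  have hw := wt_xe hx zero_le_one le_rfl fun e => (hx.1 e).2
  have kq := Dt.kq hD.T hD.k
  refine half_of_D hD hx hC hL hdens hG.d0 hG.d1
    (fun a b d ha hb hd hab had hbd t ht => ?_) hT hP hPE hPL
  exact gap_of_A (Da.lf hD hx hC) hw (Dt.kf_ok hD.T hD.k) kq.fc hD.k.cPe hG.ab kq.ms hG.hA hG.a0
    hG.hγ hG.le ha hb hd hab had hbd ht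

end Pool.Agent.RX.RCN.K
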