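import Pool.Agent.RX.RCN.Hm_3
import Pool.Agent.RX.RCN.Top_1

/-! The properties of the walk rates (MP_73ccd0_lc, route M). -/

namespace Pool.Agent.RX.RCN.K

open Set Finset MeasureTheory Pool.Agent.RX.RCRSHalf Pool.Agent.RX.RCG Pool.Agent.RX.RCG.Ct
open Pool.Agent.RX.RCN.Ker Pool.Agent.RX.RCRS

set_option linter.unusedSectionVars false

variable {V : Type} [Fintype V] [DecidableEq V]
variable {Gr : SimpleGraph V} [Fintype Gr.edgeSet] [DecidableEq Gr.edgeSet]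

/-- the walk rates are admissible -/
theorem wr_of_G {D : Da V} (hD : D.Ok) {x : Gr.edgeSet → ℝ} (hx : IsFractionalMatching Gr x)
    (hC : Cls D.Z (xe x) (P0 V) D.C) {δ : ℝ} {A : ℝ → ℝ → ℝ} {α γ : ℝ → ℝ}
    (hG : Gp D δ A α γ) (hT : TT D x) (hP : PP D x) :
    Wr D.T.ek.kd (xe x) (P0 V) (D.w x) := by
  have hw := wt_xe hx zero_le_one le_rfl fun e => (hx.1 e).2
  have kq := Dt.kq hD.T hD.k
  have hf := Da.lf hD hx hC
  exact wr_of_X hx hD.T hD.k (xd_ok hf hw (Dt.kf_ok hD.T hD.k)) hG.d0 hG.d1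
    (fun a b d ha hb hd hab had hbd t ht =>
      gap_of_A hf hw (Dt.kf_ok hD.T hD.k) kq.fc hD.k.cPe hG.ab kq.ms hG.hA hG.a0
        hG.hγ hG.le ha hb hd hab had hbd ht) hT hP

end Pool.Agent.RX.RCN.K
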