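import Pool.Agent.RX.RCN.GapD
import Pool.Agent.RX.RCN.One_1
import Pool.Agent.RX.RCN.TopP
import Pool.Agent.RX.RCN.TopW

/-! The assembly with one class per cell (MP_73ccd0_lc, route M). -/

namespace Pool.Agent.RX.RCN.K

open Set Finset MeasureTheory Pool.Agent.RX.RCRSHalf Pool.Agent.RX.RCG Pool.Agent.RX.RCG.Ct
open Pool.Agent.RX.RCN.Ker Pool.Agent.RX.RCRS Pool.Agent.RX.RCM9 Pool.Agent.RX.RCM9.Bern Pool.Agent.RX.RCM9.Pk

set_option linter.unusedSectionVars false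

variable {V : Type} [Fintype V] [DecidableEq V]
variable {Gr : SimpleGraph V} [Fintype Gr.edgeSet] [DecidableEq Gr.edgeSet]

/-- **the assembly with one class per cell** -/
theorem half_of_O {p : Ps} (hp : p.Ok) {g : GDat} (hg : g.Pos p.d) {x : Gr.edgeSet → ℝ}
    (hx : IsFractionalMatching Gr x) {N : ℕ} (N0 : 0 < N)
    {G : ℕ → V ⊕ V → V ⊕ V → Fm (V ⊕ V)} {m q : ℕ → V ⊕ V → V ⊕ V → ℝ}
    (hG : ∀ i < N, ∀ a b, P0 V a → P0 V b → a ≠ b →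
      Cl2 p (xe x) (P0 V) a b (cb N i) (ca N i) (cb N i) (m i a b) (q i a b) (G i a b))
    (hT : TT (p.da (g.kd p.d) (p.cO (xe x) (P0 V) N G)) x)
    (hP : PP (p.da (g.kd p.d) (p.cO (xe x) (P0 V) N G)) x)
    (hPE : PE (p.da (g.kd p.d) (p.cO (xe x) (P0 V) N G)) x)
    (hPL : PL (p.da (g.kd p.d) (p.cO (xe x) (P0 V) N G)) x)
    (hdens : Wr (p.da (g.kd p.d) (p.cO (xe x) (P0 V) N G)).T.ek.kd (xe x) (P0 V)
        ((p.da (g.kd p.d) (p.cO (xe x) (P0 V) N G)).w x) →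
      Dn (p.da (g.kd p.d) (p.cO (xe x) (P0 V) N G)) x) :
    ∃ S : Scheme Gr, ∀ e : Gr.edgeSet, cT * x e ≤ S.selProb x e := by
  have hw := wt_xe hx zero_le_one le_rfl fun e => (hx.1 e).2
  have hC := Ps.clsO hp hw N0 hG
  have hGp := gp_of hp hg (p.cO (xe x) (P0 V) N G)
  exact half_of_P hp hx rfl (fun w => kd_cn _ w) (kP_of hp hg) hC
    (hdens (wr_of_G (da_ok hp rfl (fun w => kd_cn _ w) (kP_of hp hg)) hx hC hGp hT hP)) hGp hT hP
    hPE hPL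

end Pool.Agent.RX.RCN.K
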