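import Pool.Agent.RX.RCRSHalf.Ode

/-! The inequality of the pairs: rows and columns of the exponents of the closures of a cell
(MP_73ccd0_lc, route M). -/

namespace Pool.Agent.RX.RCN.K

open Set Finset MeasureTheory Pool.Agent.RX.RCRSHalf

set_option linter.unusedSectionVars false

variable {V : Type*} [Fintype V] [DecidableEq V] {x : V → V → ℝ} {P : V → Prop} [DecidablePred P] {sl : ℝ → ℝ → ℝ} {B E1 : ℝ → ℝ → ℝ} {α τ t s sg : ℝ} {Gk Mk : ℝ → ℝ → ℝ} {mb u : ℝ → ℝ}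

/-- the second integral -/
noncomputable def sec (b : ℝ) (M1 M2 : ℝ → ℝ) (us v : ℝ) : ℝ :=
  b * ((v - us) * M1 v - (M2 v - M2 us))

theorem sec_deriv {U b : ℝ} {g M1 M2 : ℝ → ℝ} (h1 : ∀ v ∈ Icc 0 U, HasDerivAt M1 (g v) v)
    (h2 : ∀ v ∈ Icc 0 U, HasDerivAt M2 (M1 v) v) (us : ℝ) :
    ∀ v ∈ Icc 0 U, HasDerivAt (sec b M1 M2 us) (b * ((v - us) * g v)) v := by
  intro v hv
  have a1 : HasDerivAt (fun v => (v - us) * M1 v) (1 * M1 v + (v - us) * g v) v :=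
    ((hasDerivAt_id v).sub_const us).mul (h1 v hv)
  have a2 : HasDerivAt (fun v => M2 v - M2 us) (M1 v) v := (h2 v hv).sub_const _
  have a3 := (a1.sub a2).const_mul b
  refine a3.congr_deriv ?_
  ring

theorem sec_nonneg {U b : ℝ} {g M1 M2 : ℝ → ℝ} (h1 : ∀ v ∈ Icc 0 U, HasDerivAt M1 (g v) v)
    (h2 : ∀ v ∈ Icc 0 U, HasDerivAt M2 (M1 v) v) (b0 : 0 ≤ b) (g0 : ∀ v ∈ Icc 0 U, 0 ≤ g v)
    {us v : ℝ} (hus : 0 ≤ us) (huv : us ≤ v) (hv : v ≤ U) : 0 ≤ sec b M1 M2 us v := by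
  have key := nonneg_of_forward (a := us) (s := v) (U := sec b M1 M2 us)
    (U' := fun z => b * ((z - us) * g z))
    (fun z hz => sec_deriv h1 h2 us z ⟨hus.trans hz.1, hz.2.trans hv⟩)
    (by simp [sec])
    (fun z hz _ => mul_nonneg b0 (mul_nonneg (by linarith [hz.1])
      (g0 z ⟨hus.trans hz.1, hz.2.trans hv⟩)))
    v ⟨huv, le_rfl⟩
  exact key

namespace Xf

variable (M1 M2 R1 R2 : ℝ → ℝ) (U0 us : ℝ)

end Xf

end Pool.Agent.RX.RCN.K
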