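import Pool.Agent.RX.RCN.PpO
import Pool.Agent.RX.RCN.PpR
import Pool.Agent.RX.RCN.XlA

/-! The inequality of the pairs: rows and columns of the exponents of the closures of a cell as
polynomials (MP_73ccd0_lc, route M). -/

set_option autoImplicit false

namespace Pool.Agent.RX.RCN.K

open Set Finset Pool.Agent.RX.RCRSHalf Pool.Agent.RX.RCM9 Pool.Agent.RX.RCM9.Bern Pool.Agent.RX.RCM9.Pk
  Pool.Agent.RX.RCN.Ck1

theorem pv2_lad2 (p q : List (List ℚ)) (z t : ℝ) :
    pv2 (lad2 p q) z t = pv2 p z t + pv2 q z t := by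
  induction p generalizing q with
  | nil => simp [lad2, pv2]
  | cons a p ih =>
    cases q with
    | nil => simp [lad2, pv2]
    | cons b q =>
      simp only [lad2, pv2, pv_ladd, ih]
      ring

theorem pv2_otr (a f : List ℚ) (k v : ℝ) : pv2 (otr a f) k v = pv a k * pv f v := by
  induction a with
  | nil => simp [otr, pv2, pv]
  | cons c a ih =>
    unfold otr at ih ⊢
    simp only [List.map_cons, pv2, pv, pv_lsmul, ih]
    ring

/-- a polynomial in the inner variable -/
theorem pv2_one (f : List ℚ) (k v : ℝ) : pv2 [f] k v = pv f v := by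
  simp [pv2]

theorem pv_shl (g : List ℚ) (U : ℚ) (v : ℝ) : pv (shl g U) v = pv g ((U : ℝ) - v) := by
  unfold shl
  rw [pv_cmpl]
  congr 1
  simp only [pv]
  push_cast
  ring

theorem pv_ddl (g : List ℚ) (U : ℚ) (v : ℝ) :
    pv (ddl g U) v = pv (pri g) U - pv (pri g) ((U : ℝ) - v) := by
  unfold ddl
  rw [pv_lsub, pv_shl]
  simp only [pv, mul_zero, add_zero]
  rw [evq_pv]

theorem pv_scl (b : ℚ) (g : List ℚ) (U : ℚ) (v : ℝ) :
    pv (scl b g U) v = sec b (pv (pri g)) (pv (pri (pri g))) ((U : ℝ) - v) U := by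
  unfold scl sec
  rw [pv_lsmul, pv_lsub, pv_lsub, pv_shl]
  simp only [pv, mul_zero, add_zero]
  rw [evq_pv, evq_pv]
  push_cast
  ring

theorem nnl_mono {l : List ℚ} (h : nnl l = true) {u v : ℝ} (hu : 0 ≤ u) (huv : u ≤ v) :
    pv l u ≤ pv l v := by
  induction l with
  | nil => simp [pv]
  | cons a l ih =>
    simp only [nnl, List.all_cons, Bool.and_eq_true, decide_eq_true_eq] at h
    simp only [pv]
    have h1 := ih h.2
    have h2 := nnl_pv (l := l) h.2 hu
    have h3 := mul_le_mul huv h1 h2 (hu.trans huv)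
    linarith

theorem cvx_le {l : List ℚ} (h : cvx l = true) {u U : ℝ} (hu : 0 ≤ u) (hU : 0 < U)
    (huU : u ≤ U) : pv l u ≤ u / U * pv l U := by
  cases l with
  | nil => simp [pv]
  | cons a t =>
    simp only [cvx, Bool.and_eq_true, decide_eq_true_eq] at h
    simp only [pv, h.1]
    push_cast
    have h1 := mul_le_mul_of_nonneg_left (nnl_mono h.2 hu huU) hu
    have e : u / U * (0 + U * pv t U) = u * pv t U := by field_simp; ring
    rw [e]
    linarith

/-- convexity of the exponential -/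
theorem exp_chord {r w : ℝ} (hr : r ∈ Icc (0 : ℝ) 1) :
    Real.exp (r * w) ≤ (1 - r) + r * Real.exp w := by
  have h := convexOn_exp.2 (mem_univ (0 : ℝ)) (mem_univ w) (by linarith [hr.2] : 0 ≤ 1 - r)
    hr.1 (by ring)
  simp only [smul_eq_mul, mul_zero, zero_add, Real.exp_zero, mul_one] at h
  exact h

namespace Xl

variable (U : ℚ) (κ : List ℚ)

end Xl

end Pool.Agent.RX.RCN.K
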