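import Pool.Agent.RX.RCN.YfB

/-! Rows and columns of the leading parts of the closure exponents at a second time, second form
of the scalar functions (MP_73ccd0_lc, route M). -/

namespace Pool.Agent.RX.RCN.K

open Set Finset MeasureTheory Pool.Agent.RX.RCRSHalf Pool.Agent.RX.RCG Pool.Agent.RX.RCG.Ct

set_option linter.unusedSectionVars false

variable {V : Type*} [Fintype V] [DecidableEq V]
variable {Z : Hzd} {F : Lz V} {x : V → V → ℝ} {P : V → Prop} [DecidablePred P]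
variable {sl : ℝ → ℝ → ℝ} {τ dlt : ℝ} {D : Finset V} {B E1 : ℝ → ℝ → ℝ}
variable {gp gm : V → V → ℝ → ℝ} {f : Yf} {Gk Mk : ℝ → ℝ → ℝ} {mb u : ℝ → ℝ}

variable (hf : f.Ok Gk Mk dlt) (hC : Z.Cf B E1) (hZ : Z.Ok sl) (hx : Wt x P 1)
  (hW : Wx Z F x P τ D B gp gm f.U f.b1 f.z f.dl Gk Mk mb u)

include hf hC hZ hx hW

theorem Yf.Ok.Dd_le2 {σ r : ℝ} (hσ : σ ∈ Icc 0 τ) (hr : r ∈ Icc 0 σ) (c g : V) :
    Z.Dd x P σ c g r ≤ x c g * (f.b1 * (u r - u σ)) :=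
  (hC.Dd_le hZ hx ⟨hσ.1, hσ.2.trans hW.τ1.2⟩ c g hr).trans
    (mul_le_mul_of_nonneg_left (hW.Bσ σ hσ r hr) (hx.nonneg c g))

theorem Yf.Ok.Bd0 {σ r : ℝ} (hσ : σ ∈ Icc 0 τ) (hr : r ∈ Icc 0 σ) :
    0 ≤ f.b1 * (u r - u σ) :=
  (hC.B_nonneg hr.1 hr.2 (hσ.2.trans hW.τ1.2)).trans (hW.Bσ σ hσ r hr)

omit hC in
/-- the kernel against the damping -/
theorem Yf.Ok.K1_dmp {r : ℝ} (hr : r ∈ Icc 0 τ) {e : V} (he : e ∈ Dᶜ) :
    ∑ z ∈ Dᶜ, K1 Z F x P r e z * dmp x D z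
      ≤ mb r * f.μ1 (u r) * (dmp x D e * f.κ u x D e r) := by
  have hu := hW.um r hr
  have hr1 : r ∈ Icc (0 : ℝ) bt := ⟨hr.1, hr.2.trans hW.τ1.2⟩
  have mb0 := hW.mb0 r hr
  have K0 : ∀ z, 0 ≤ f.κ u x D z r := fun z => (Real.exp_pos _).le
  have key : ∀ z ∈ Dᶜ, K1 Z F x P r e z * dmp x D z
      ≤ (mb r * f.μ1 (u r) * f.κ u x D e r) * x e z := by
    intro z hz
    have hk := kx_mem hx D z
    have h1 : K1 Z F x P r e z ≤ x e z * mb r * (f.κ u x D e r * f.κ u x D z r) := by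
      rcases eq_or_ne e z with hez | hez
      · subst hez
        have h0 : Z.hh x P r e e = 0 := by
          have h1 := hW.hm r hr e e
          rw [hx.diag, zero_mul] at h1
          exact le_antisymm h1 (hZ.hh_nonneg hx hr1 e e)
        have h3 : K1 Z F x P r e e = 0 := by
          show Z.hh x P r e e * Real.exp (F.y1 e r + F.y1 e r) = 0
          rw [h0, zero_mul]
        rw [h3, hx.diag]
        simp
      · have a1 := hW.hm r hr e z
        have a2 : Real.exp (F.y1 e r + F.y1 z r) ≤ f.κ u x D e r * f.κ u x D z r := by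
          unfold Yf.κ Yf.ka
          rw [← Real.exp_add]
          refine Real.exp_le_exp.2 ((hW.hy r hr e he z hz hez).trans (le_of_eq ?_))
          ring
        exact mul_le_mul a1 a2 (Real.exp_pos _).le (mul_nonneg (hx.nonneg e z) mb0)
    have h2 : f.κ u x D z r * dmp x D z ≤ f.μ1 (u r) := by
      rw [dmp_eq, mul_comm]
      exact hf.h1 _ hk _ hu
    have d0 := dmp_nonneg hx D z
    calc _ ≤ x e z * mb r * (f.κ u x D e r * f.κ u x D z r) * dmp x D z :=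
          mul_le_mul_of_nonneg_right h1 d0
      _ = x e z * mb r * f.κ u x D e r * (f.κ u x D z r * dmp x D z) := by ring
      _ ≤ x e z * mb r * f.κ u x D e r * f.μ1 (u r) :=
          mul_le_mul_of_nonneg_left h2 (mul_nonneg (mul_nonneg (hx.nonneg e z) mb0) (K0 e))
      _ = _ := by ring
  refine (Finset.sum_le_sum key).trans ?_
  rw [← Finset.mul_sum]
  have μ0 : 0 ≤ f.μ1 (u r) := by
    have := hf.h1 1 ⟨zero_le_one, le_rfl⟩ _ hu
    simpa using this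
  have h3 := mul_le_mul_of_nonneg_left (row_dmp hx D e)
    (mul_nonneg (mul_nonneg mb0 μ0) (K0 e))
  exact h3.trans (le_of_eq (by ring))

/-- **target sums of the leading part with the kernel of the target** -/
theorem Yf.Ok.N1_tgt {σ : ℝ} (hσ : σ ∈ Icc 0 τ) {e : V} (he : e ∈ Dᶜ) {w w' : ℝ → ℝ}
    (dw : ∀ v ∈ Icc 0 f.U, HasDerivAt w (w' v) v) (w0 : ∀ r ∈ Icc 0 σ, 0 ≤ w (u r))
    (ow : ∀ r ∈ Icc 0 σ, f.μ1 (u r) * (f.b1 * (u r - u σ)) ≤ w' (u r)) :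
    ∀ r ∈ Icc 0 σ, ∑ c ∈ Dᶜ.erase e, N1 Z F x P D σ c e r
      ≤ w (u r) * (dmp x D e * f.κ u x D e r) := by
  have hσ1 : σ ∈ Icc (0 : ℝ) bt := ⟨hσ.1, hσ.2.trans hW.τ1.2⟩
  have mτ : ∀ r ∈ Icc 0 σ, r ∈ Icc 0 τ := fun r hr => ⟨hr.1, hr.2.trans hσ.2⟩
  have um := hW.um
  have du := hW.du
  have cT : ∀ e g, ContinuousOn (fun r => K1 Z F x P r e g) (Icc 0 τ) := fun e g =>
    Tb_cont hZ hx hW.τ1.2 hW.cy e g
  have ci : ∀ c, ContinuousOn (fun ρ => ∑ g ∈ Dᶜ.erase c, K1 Z F x P ρ e g * Z.Dd x P σ c g ρ)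
      (Icc 0 σ) := fun c => continuousOn_finsetSum _ fun g _ =>
    ((cT e g).mono (Icc_subset_Icc_right hσ.2)).mul
      ((hZ.Dd_cont hx σ c g).mono (Icc_subset_Icc_right hσ1.2))
  have dK : ∀ r ∈ Icc 0 τ, HasDerivAt (f.κ u x D e) (f.κ' mb u x D e r) r := fun r hr => by
    have a1 := (hf.dz _ (um r hr)).comp r (du r hr)
    have a2 := ((hf.dd _ (um r hr)).comp r (du r hr)).const_mul (RCM.kx x D e)
    exact (a1.add a2).exp
  refine RCM.tback_le (f' := fun r => ∑ c ∈ Dᶜ.erase e, -∑ g ∈ Dᶜ.erase c,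
      K1 Z F x P r e g * Z.Dd x P σ c g r)
    (g' := fun r => w' (u r) * -mb r * (dmp x D e * f.κ u x D e r)
      + w (u r) * (dmp x D e * f.κ' mb u x D e r))
    (fun r hr => HasDerivAt.fun_sum fun c _ => RCM.bk_deriv hσ.1 (ci c) hr)
    (fun r hr => ((dw _ (um r (mτ r hr))).comp r (du r (mτ r hr))).mul
      ((dK r (mτ r hr)).const_mul _)) (fun r hr => ?_) ?_
  · have hr' := mτ r hr
    have hr1 : r ∈ Icc (0 : ℝ) bt := ⟨hr'.1, hr'.2.trans hW.τ1.2⟩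
    have d0 := dmp_nonneg hx D e
    have b0 := hf.Bd0 hC hZ hx hW hσ hr
    have T0 := K1_nonneg (F := F) (x := x) (P := P) hZ hx hr1
    have mb0 := hW.mb0 r hr'
    have s1 := RCM.sum_swap (U := Dᶜ) (e := e) (f := fun _ => (1 : ℝ)) (q := K1 Z F x P r e)
      (a := fun c g => Z.Dd x P σ c g r) (fun _ => zero_le_one) (fun z => T0 e z)
      (fun c z => hZ.Dd_nonneg hx hσ1 c z hr)
    simp only [one_mul] at s1
    have s2 : ∑ z ∈ Dᶜ, K1 Z F x P r e z * ∑ c ∈ Dᶜ.erase z, Z.Dd x P σ c z r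
        ≤ ∑ z ∈ Dᶜ, K1 Z F x P r e z * (dmp x D z * (f.b1 * (u r - u σ))) :=
      Finset.sum_le_sum fun z _ => mul_le_mul_of_nonneg_left
        (sum_tgt_x hx b0 (fun c g => hf.Dd_le2 hC hZ hx hW hσ hr c g) z) (T0 e z)
    have s3 : ∑ z ∈ Dᶜ, K1 Z F x P r e z * (dmp x D z * (f.b1 * (u r - u σ)))
        = (∑ z ∈ Dᶜ, K1 Z F x P r e z * dmp x D z) * (f.b1 * (u r - u σ)) := by
      rw [Finset.sum_mul]
      exact Finset.sum_congr rfl fun z _ => by ring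
    have s4 := mul_le_mul_of_nonneg_right (hf.K1_dmp hZ hx hW hr' he) b0
    have K0 : 0 ≤ f.κ u x D e r := (Real.exp_pos _).le
    have s5 := mul_le_mul_of_nonneg_left (ow r hr) (mul_nonneg mb0 (mul_nonneg d0 K0))
    have hk := kx_mem hx D e
    have z'0 := hf.z'0 _ (um r hr')
    have d'0 := hf.d'0 _ (um r hr')
    have s6 : 0 ≤ w (u r) * (dmp x D e * (f.κ u x D e r
      * (f.z' (u r) * mb r + RCM.kx x D e * (f.dl' (u r) * mb r)))) :=
      mul_nonneg (w0 r hr) (mul_nonneg d0 (mul_nonneg K0 (add_nonneg (mul_nonneg z'0 mb0)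
        (mul_nonneg hk.1 (mul_nonneg d'0 mb0)))))
    have s7 : f.κ' mb u x D e r = f.κ u x D e r
        * (f.z' (u r) * -mb r + RCM.kx x D e * (f.dl' (u r) * -mb r)) := rfl
    rw [← Finset.sum_neg_distrib]
    simp only [neg_neg]
    rw [s7]
    nlinarith [s1, s2, s3, s4, s5, s6]
  · have e0 : ∑ c ∈ Dᶜ.erase e, N1 Z F x P D σ c e σ = 0 := Finset.sum_eq_zero fun c _ => by
      unfold N1
      exact RCM.bk_self _ _
    rw [e0]
    exact mul_nonneg (w0 σ ⟨hσ.1, le_rfl⟩) (mul_nonneg (dmp_nonneg hx D e) (Real.exp_pos _).le)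

/-- **position sums of the leading part** -/
theorem Yf.Ok.N1_pos {σ : ℝ} (hσ : σ ∈ Icc 0 τ) (c : V) {w w' : ℝ → ℝ}
    (dw : ∀ v ∈ Icc 0 f.U, HasDerivAt w (w' v) v) (w0 : 0 ≤ w (u σ))
    (ow : ∀ r ∈ Icc 0 σ, f.R (u r) * (f.b1 * (u r - u σ)) ≤ w' (u r)) :
    ∀ r ∈ Icc 0 σ, ∑ e ∈ Dᶜ.erase c, N1 Z F x P D σ c e r ≤ w (u r) * dmp x D c := by
  have hσ1 : σ ∈ Icc (0 : ℝ) bt := ⟨hσ.1, hσ.2.trans hW.τ1.2⟩
  have mτ : ∀ r ∈ Icc 0 σ, r ∈ Icc 0 τ := fun r hr => ⟨hr.1, hr.2.trans hσ.2⟩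
  have um := hW.um
  have du := hW.du
  have cT : ∀ e g, ContinuousOn (fun r => K1 Z F x P r e g) (Icc 0 τ) := fun e g =>
    Tb_cont hZ hx hW.τ1.2 hW.cy e g
  have ci : ∀ e, ContinuousOn (fun ρ => ∑ g ∈ Dᶜ.erase c, K1 Z F x P ρ e g * Z.Dd x P σ c g ρ)
      (Icc 0 σ) := fun e => continuousOn_finsetSum _ fun g _ =>
    ((cT e g).mono (Icc_subset_Icc_right hσ.2)).mul
      ((hZ.Dd_cont hx σ c g).mono (Icc_subset_Icc_right hσ1.2))
  refine RCM.tback_le (f' := fun r => ∑ e ∈ Dᶜ.erase c, -∑ g ∈ Dᶜ.erase c,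
      K1 Z F x P r e g * Z.Dd x P σ c g r)
    (g' := fun r => w' (u r) * -mb r * dmp x D c)
    (fun r hr => HasDerivAt.fun_sum fun e _ => RCM.bk_deriv hσ.1 (ci e) hr)
    (fun r hr => ((dw _ (um r (mτ r hr))).comp r (du r (mτ r hr))).mul_const _)
    (fun r hr => ?_) ?_
  · have hr' := mτ r hr
    have H := (hf.kv hZ hx hW hr').1
    have d0 := dmp_nonneg hx D c
    have b0 := hf.Bd0 hC hZ hx hW hσ hr
    have mb0 := hW.mb0 r hr'
    have s1 : ∑ e ∈ Dᶜ.erase c, ∑ g ∈ Dᶜ.erase c, K1 Z F x P r e g * Z.Dd x P σ c g r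
        ≤ ∑ g ∈ Dᶜ.erase c, (mb r * f.R (u r)) * Z.Dd x P σ c g r := by
      rw [Finset.sum_comm]
      refine Finset.sum_le_sum fun g hg => ?_
      rw [← Finset.sum_mul]
      refine mul_le_mul_of_nonneg_right ?_ (hZ.Dd_nonneg hx hσ1 c g hr)
      refine le_trans ?_ (H.row_R (Finset.mem_of_mem_erase hg))
      refine (Finset.sum_le_sum_of_subset_of_nonneg (Finset.erase_subset _ _)
        fun e _ _ => H.T0 e g).trans (le_of_eq ?_)
      exact Finset.sum_congr rfl fun e _ => H.Ts e g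
    have k1 : (1 : ℝ) ∈ Icc (0 : ℝ) 1 := ⟨zero_le_one, le_rfl⟩
    have R0 : 0 ≤ f.R (u r) := by
      have := hf.hR 1 k1 _ (um r hr')
      simpa [Yf.rw] using this
    rw [← Finset.mul_sum] at s1
    have s2 := mul_le_mul_of_nonneg_left
      (sum_pos_x hx (D := D) b0 (fun c g => hf.Dd_le2 hC hZ hx hW hσ hr c g) c)
      (mul_nonneg mb0 R0)
    have s5 := mul_le_mul_of_nonneg_left (ow r hr) (mul_nonneg mb0 d0)
    rw [← Finset.sum_neg_distrib]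
    simp only [neg_neg]
    nlinarith [s1, s2, s5]
  · have e0 : ∑ e ∈ Dᶜ.erase c, N1 Z F x P D σ c e σ = 0 := Finset.sum_eq_zero fun e _ => by
      unfold N1
      exact RCM.bk_self _ _
    rw [e0]
    exact mul_nonneg w0 (dmp_nonneg hx D c)

end Pool.Agent.RX.RCN.K
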