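import Pool.Agent.RX.RCM.NuB_2

/-! Rows and columns of the closure exponents of a cell: the insertion term and the leading parts
(MP_73ccd0_lc, route M). -/

namespace Pool.Agent.RX.RCN.K

open Set Finset MeasureTheory Pool.Agent.RX.RCRSHalf Pool.Agent.RX.RCG Pool.Agent.RX.RCG.Ct

set_option linter.unusedSectionVars false

/-- the scalar functions of the insertion term -/
structure Xi where
  ζ : ℝ → ℝ
  ζ' : ℝ → ℝ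
  D1 : ℝ → ℝ
  D1' : ℝ → ℝ
  D2 : ℝ → ℝ
  D2' : ℝ → ℝ
  ν0 : ℝ

variable {V : Type*} [Fintype V] [DecidableEq V]

variable {Z : Hzd} {F : Lz V} {x : V → V → ℝ} {P : V → Prop} [DecidablePred P]
variable {sl : ℝ → ℝ → ℝ} {α τ sg : ℝ} {B E1 : ℝ → ℝ → ℝ} {m' q : ℝ} {A D : Finset V}
variable {G : Fm V} {E E' : V → ℝ → ℝ} {i : Xi} {m R : ℝ → ℝ}

/-- the leading part of the world is at most that of the cell -/
theorem N2_le_N1 (hc : Ctn F G α τ) (hF : F.Ok Z x P A D sg α τ) (hZ : Z.Ok sl) (hx : Wt x P 1)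
    {t s : ℝ} (ht : t ∈ Icc α τ) (hs : s ∈ Icc 0 t) (hsg : s ≤ sg) {σ ς : ℝ} (h0 : 0 ≤ σ)
    (hσ : σ ≤ t) (hς : σ ≤ ς) (hςτ : ς ≤ τ) (c e : V) :
    N2 Z F x P D t s σ c e 0 ≤ N1 Z F x P D ς c e 0 := by
  have t1 : t ≤ bt := ht.2.trans hF.τ1
  have ς1 : ς ∈ Icc (0 : ℝ) bt := ⟨h0.trans hς, hςτ.trans hF.τ1⟩
  have σ1 : σ ∈ Icc (0 : ℝ) bt := ⟨h0, hσ.trans t1⟩
  unfold N2 N1
  refine RCM.bk_le ⟨le_rfl, h0⟩ hς ?_ ?_ (fun z hz => Finset.sum_le_sum fun f _ => ?_)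
    fun z hz => Finset.sum_nonneg fun f _ => ?_
  · exact continuousOn_finsetSum _ fun f _ => ((hc.K2 hF hZ hx ht hs e f).mono
      (Icc_subset_Icc_right hσ)).mul ((hZ.Dd_cont hx σ c f).mono (Icc_subset_Icc_right σ1.2))
  · exact continuousOn_finsetSum _ fun f _ => ((hc.K1 hF hZ hx e f).mono
      (Icc_subset_Icc_right hςτ)).mul ((hZ.Dd_cont hx ς c f).mono (Icc_subset_Icc_right ς1.2))
  · have hz1 : z ∈ Icc (0 : ℝ) bt := ⟨hz.1, hz.2.trans σ1.2⟩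
    exact mul_le_mul (K2_le hF hZ hx ht hs hsg ⟨hz.1, hz.2.trans hσ⟩ e f)
      (hZ.Dd_mono hx hς ς1.2 c f hz) (hZ.Dd_nonneg hx σ1 c f hz) (K1_nonneg hZ hx hz1 e f)
  · have hz1 : z ∈ Icc (0 : ℝ) bt := ⟨hz.1, hz.2.trans ς1.2⟩
    exact mul_nonneg (K1_nonneg hZ hx hz1 e f) (hZ.Dd_nonneg hx ς1 c f hz)

theorem N2_nonneg (hZ : Z.Ok sl) (hx : Wt x P 1) (t s : ℝ) {σ : ℝ} (hσ : σ ∈ Icc (0 : ℝ) bt)
    (c e : V) : 0 ≤ N2 Z F x P D t s σ c e 0 :=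
  RCM.bk_nonneg ⟨le_rfl, hσ.1⟩ fun z hz => Finset.sum_nonneg fun f _ =>
    mul_nonneg (K2_nonneg hZ hx t s ⟨hz.1, hz.2.trans hσ.2⟩ e f) (hZ.Dd_nonneg hx hσ c f hz)

end Pool.Agent.RX.RCN.K
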