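import Pool.Agent.RX.RCN.YcB

/-! Two-time columns of the closure exponents in the clock (MP_73ccd0_lc, route M). -/

namespace Pool.Agent.RX.RCN.K

open Set Finset MeasureTheory Pool.Agent.RX.RCRSHalf Pool.Agent.RX.RCG Pool.Agent.RX.RCG.Ct

set_option linter.unusedSectionVars false

/-- continuity of the scalar functions of the clock -/
structure Yf.Co (f : Yf) : Prop where
  μ1 : ContinuousOn f.μ1 (Icc 0 f.U)
  μk : ContinuousOn f.μk (Icc 0 f.U)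
  μ2 : ContinuousOn f.μ2 (Icc 0 f.U)
  R : ContinuousOn f.R (Icc 0 f.U)
  kE : ContinuousOn f.kE (Icc 0 f.U)
  kk : ContinuousOn f.kk (Icc 0 f.U)
  k1 : ContinuousOn f.k1 (Icc 0 f.U)
  AM : ContinuousOn f.AM (Icc 0 f.U)
  AP : ContinuousOn f.AP (Icc 0 f.U)
  x3 : ContinuousOn f.x3 (Icc 0 f.U)
  Gp : ContinuousOn f.Gp (Icc 0 f.U)
  Gm : ContinuousOn f.Gm (Icc 0 f.U)

/-- the position sums as functions of the clock (increasing) -/
structure Yg where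
  WP : ℝ → ℝ
  WP' : ℝ → ℝ
  VP : ℝ → ℝ
  VP' : ℝ → ℝ
  UP : ℝ → ℝ
  UP' : ℝ → ℝ

structure Yg.Ok (y : Yg) (f : Yf) : Prop where
  dW : ∀ u ∈ Icc 0 f.U, HasDerivAt y.WP (y.WP' u) u
  dV : ∀ u ∈ Icc 0 f.U, HasDerivAt y.VP (y.VP' u) u
  dU : ∀ u ∈ Icc 0 f.U, HasDerivAt y.UP (y.UP' u) u
  W0 : ∀ u ∈ Icc 0 f.U, 0 ≤ y.WP u
  V0 : ∀ u ∈ Icc 0 f.U, 0 ≤ y.VP u
  U0 : ∀ u ∈ Icc 0 f.U, 0 ≤ y.UP u
  oW : ∀ u ∈ Icc 0 f.U, f.R u * (f.b1 * u) ≤ y.WP' u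
  oV : ∀ u ∈ Icc 0 f.U, (f.R u + f.AM u) * (y.WP u + y.UP u)
    + f.AP u * (f.b3 u + f.C4 u * y.VP u) ≤ y.VP' u
  oU : ∀ u ∈ Icc 0 f.U, f.R u * (f.C1 u * y.VP u) + f.AP u * (y.WP u + y.UP u)
    + f.AM u * (f.b3 u + f.C4 u * y.VP u) ≤ y.UP' u

/-- the adjoint functions of the columns as functions of the clock (decreasing, derivatives
`-hV' ..`); `P1`, `P2` the sources, `v`, `w` the values at the end of the clock -/
structure Yc.Fk (j : Yc) (f : Yf) (v w : ℝ) (P1 P2 : ℝ → ℝ) : Prop where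
  dV : ∀ u ∈ Icc 0 f.U, HasDerivAt j.hV (-j.hV' u) u
  dU : ∀ u ∈ Icc 0 f.U, HasDerivAt j.hU (-j.hU' u) u
  dW : ∀ u ∈ Icc 0 f.U, HasDerivAt j.hW (-j.hW' u) u
  dw : ∀ u ∈ Icc 0 f.U, HasDerivAt j.hw (-j.hw' u) u
  d1 : ∀ u ∈ Icc 0 f.U, HasDerivAt j.h1 (-j.h1' u) u
  v0 : ∀ u ∈ Icc 0 f.U, 0 ≤ j.hV u
  vU : ∀ u ∈ Icc 0 f.U, v ≤ j.hU u
  wW : ∀ u ∈ Icc 0 f.U, w ≤ j.hW u
  w0 : ∀ u ∈ Icc 0 f.U, 0 ≤ j.hw u
  i0 : ∀ u ∈ Icc 0 f.U, 0 ≤ j.h1 u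
  oV : ∀ u ∈ Icc 0 f.U, f.Gp u * f.kE u * f.C4 u * j.hV u
    + (f.μ2 u * f.C1 u + f.Gm u * f.kE u * f.C4 u) * j.hU u
    + f.kE u * f.C4 u * P2 u ≤ j.hV' u
  oU : ∀ u ∈ Icc 0 f.U, (f.μ2 u + f.Gm u * f.kE u) * j.hV u
    + f.Gp u * f.kE u * j.hU u + f.kE u * P1 u ≤ j.hU' u
  oW : ∀ u ∈ Icc 0 f.U, (f.μk u + f.Gm u * f.kk u) * j.hV u
    + f.Gp u * f.kk u * j.hU u + f.kk u * P1 u ≤ j.hW' u
  ow : ∀ u ∈ Icc 0 f.U, f.k1 u * (f.Gp u * j.hV u + f.Gm u * j.hU u + P2 u)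
    + f.μ1 u * j.hW u ≤ j.hw' u
  o1 : ∀ u ∈ Icc 0 f.U, f.b1 * j.hw u
    + f.x3 u * (f.k1 u * (f.Gp u * j.hV u + f.Gm u * j.hU u + P2 u)) ≤ j.h1' u

/-- the sources -/
noncomputable def Yg.P1 (y : Yg) (f : Yf) (u : ℝ) : ℝ := f.b3 u + f.C4 u * y.VP u

def Yg.P2 (y : Yg) (u : ℝ) : ℝ := y.WP u + y.UP u

/-- the functions of the time -/
noncomputable def Yg.yp (y : Yg) (mb u : ℝ → ℝ) : Yp where
  WP := fun r => y.WP (u r)
  WP' := fun r => y.WP' (u r) * -mb r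
  VP := fun r => y.VP (u r)
  VP' := fun r => y.VP' (u r) * -mb r
  UP := fun r => y.UP (u r)
  UP' := fun r => y.UP' (u r) * -mb r

noncomputable def Yc.yc (j : Yc) (mb u : ℝ → ℝ) : Yc where
  hV := fun r => j.hV (u r)
  hV' := fun r => -j.hV' (u r) * -mb r
  hU := fun r => j.hU (u r)
  hU' := fun r => -j.hU' (u r) * -mb r
  hW := fun r => j.hW (u r)
  hW' := fun r => -j.hW' (u r) * -mb r
  hw := fun r => j.hw (u r)
  hw' := fun r => -j.hw' (u r) * -mb r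
  h1 := fun r => j.h1 (u r)
  h1' := fun r => -j.h1' (u r) * -mb r

/-- the column of the deleted closure without level 1/2, times `1 - k` -/
noncomputable def Yf.cD0 (f : Yf) (y : Yg) (j jn : Yc) (U0 us k : ℝ) : ℝ :=
  j.h1 us + y.UP U0 + f.Eg k U0 * jn.h1 us

/-- the additional part of the released closure -/
noncomputable def Yf.cT (f : Yf) (y : Yg) (j jn : Yc) (U0 us k : ℝ) : ℝ :=
  (j.hV us * f.Gm us + j.hU us * f.Gp us + y.VP us)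
    + f.Eg k U0 * (jn.hV us * f.Gm us + jn.hU us * f.Gp us)

variable {V : Type*} [Fintype V] [DecidableEq V]
variable {Z : Hzd} {F : Lz V} {x : V → V → ℝ} {P : V → Prop} [DecidablePred P]
variable {sl : ℝ → ℝ → ℝ} {τ sg : ℝ} {D : Finset V} {B E1 : ℝ → ℝ → ℝ}
variable {gp gm : V → V → ℝ → ℝ} {f : Yf} {Gk Mk : ℝ → ℝ → ℝ} {mb u : ℝ → ℝ} {dlt : ℝ}

section conv

variable (hW : Wx Z F x P τ D B gp gm f.U f.b1 f.z f.dl Gk Mk mb u)
include hW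

theorem Yf.Co.co (hf : f.Co) : (f.yk mb u).Co τ := by
  have cu : ContinuousOn u (Icc 0 τ) := fun r hr =>
    (hW.du r hr).continuousAt.continuousWithinAt
  have mu : MapsTo u (Icc 0 τ) (Icc 0 f.U) := fun r hr => hW.um r hr
  exact
    { m := hW.cm
      μ1 := hf.μ1.comp cu mu
      μk := hf.μk.comp cu mu
      μ2 := hf.μ2.comp cu mu
      R := hf.R.comp cu mu
      kE := hf.kE.comp cu mu
      kk := hf.kk.comp cu mu
      k1 := hf.k1.comp cu mu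
      AM := hf.AM.comp cu mu
      AP := hf.AP.comp cu mu
      x3 := hf.x3.comp cu mu
      Gp := hf.Gp.comp cu mu
      Gm := hf.Gm.comp cu mu }

theorem Yg.Ok.yp {y : Yg} (hy : y.Ok f) : (y.yp mb u).Ok (f.yk mb u) f.q τ where
  dW r hr := (hy.dW _ (hW.um r hr)).comp r (hW.du r hr)
  dV r hr := (hy.dV _ (hW.um r hr)).comp r (hW.du r hr)
  dU r hr := (hy.dU _ (hW.um r hr)).comp r (hW.du r hr)
  W0 r hr := hy.W0 _ (hW.um r hr)
  V0 r hr := hy.V0 _ (hW.um r hr)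
  U0 r hr := hy.U0 _ (hW.um r hr)
  oW r hr := by
    have := mul_le_mul_of_nonneg_left (hy.oW _ (hW.um r hr)) (hW.mb0 r hr)
    show mb r * f.R (u r) * (f.b1 * u r) ≤ -(y.WP' (u r) * -mb r)
    linarith
  oV r hr := by
    have := mul_le_mul_of_nonneg_left (hy.oV _ (hW.um r hr)) (hW.mb0 r hr)
    show (mb r * f.R (u r) + mb r * f.AM (u r)) * (y.WP (u r) + y.UP (u r))
      + mb r * f.AP (u r) * ((f.b1 * u r + f.x3 (u r)) + f.C4 (u r) * y.VP (u r))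
      ≤ -(y.VP' (u r) * -mb r)
    unfold Yf.b3 at this
    linarith
  oU r hr := by
    have := mul_le_mul_of_nonneg_left (hy.oU _ (hW.um r hr)) (hW.mb0 r hr)
    show mb r * f.R (u r) * (f.C1 (u r) * y.VP (u r))
      + mb r * f.AP (u r) * (y.WP (u r) + y.UP (u r))
      + mb r * f.AM (u r) * ((f.b1 * u r + f.x3 (u r)) + f.C4 (u r) * y.VP (u r))
      ≤ -(y.UP' (u r) * -mb r)
    unfold Yf.b3 at this
    linarith

theorem Yc.Fk.yc {j : Yc} {v w : ℝ} {P1 P2 : ℝ → ℝ} (hj : j.Fk f v w P1 P2) :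
    (j.yc mb u).Ok (f.yk mb u) f.q τ v w (fun r => P1 (u r)) (fun r => P2 (u r)) := by
  have h0 : (0 : ℝ) ∈ Icc 0 τ := ⟨le_rfl, hW.τ1.1⟩
  exact
    { dV := fun r hr => (hj.dV _ (hW.um r hr)).comp r (hW.du r hr)
      dU := fun r hr => (hj.dU _ (hW.um r hr)).comp r (hW.du r hr)
      dW := fun r hr => (hj.dW _ (hW.um r hr)).comp r (hW.du r hr)
      dw := fun r hr => (hj.dw _ (hW.um r hr)).comp r (hW.du r hr)
      d1 := fun r hr => (hj.d1 _ (hW.um r hr)).comp r (hW.du r hr)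
      v0 := hj.v0 _ (hW.um 0 h0)
      vU := hj.vU _ (hW.um 0 h0)
      wW := hj.wW _ (hW.um 0 h0)
      w0 := hj.w0 _ (hW.um 0 h0)
      i0 := hj.i0 _ (hW.um 0 h0)
      oV := fun r hr => by
        have := mul_le_mul_of_nonneg_left (hj.oV _ (hW.um r hr)) (hW.mb0 r hr)
        show mb r * (f.Gp (u r) * f.kE (u r) * f.C4 (u r) * j.hV (u r)
          + (f.μ2 (u r) * f.C1 (u r) + f.Gm (u r) * f.kE (u r) * f.C4 (u r)) * j.hU (u r)
          + f.kE (u r) * f.C4 (u r) * P2 (u r)) ≤ -j.hV' (u r) * -mb r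
        linarith
      oU := fun r hr => by
        have := mul_le_mul_of_nonneg_left (hj.oU _ (hW.um r hr)) (hW.mb0 r hr)
        show mb r * ((f.μ2 (u r) + f.Gm (u r) * f.kE (u r)) * j.hV (u r)
          + f.Gp (u r) * f.kE (u r) * j.hU (u r) + f.kE (u r) * P1 (u r))
          ≤ -j.hU' (u r) * -mb r
        linarith
      oW := fun r hr => by
        have := mul_le_mul_of_nonneg_left (hj.oW _ (hW.um r hr)) (hW.mb0 r hr)
        show mb r * ((f.μk (u r) + f.Gm (u r) * f.kk (u r)) * j.hV (u r)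
          + f.Gp (u r) * f.kk (u r) * j.hU (u r) + f.kk (u r) * P1 (u r))
          ≤ -j.hW' (u r) * -mb r
        linarith
      ow := fun r hr => by
        have := mul_le_mul_of_nonneg_left (hj.ow _ (hW.um r hr)) (hW.mb0 r hr)
        show mb r * (f.k1 (u r) * (f.Gp (u r) * j.hV (u r) + f.Gm (u r) * j.hU (u r) + P2 (u r))
          + f.μ1 (u r) * j.hW (u r)) ≤ -j.hw' (u r) * -mb r
        linarith
      o1 := fun r hr => by
        have := mul_le_mul_of_nonneg_left (hj.o1 _ (hW.um r hr)) (hW.mb0 r hr)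
        show -(f.b1 * -mb r) * j.hw (u r) + mb r * (f.x3 (u r) * (f.k1 (u r)
          * (f.Gp (u r) * j.hV (u r) + f.Gm (u r) * j.hU (u r) + P2 (u r))))
          ≤ -j.h1' (u r) * -mb r
        linarith }

end conv

section cols

variable {G : Fm V}
variable (hf : f.Ok Gk Mk dlt) (co : f.Co) (hC : Z.Cf B E1) (hZ : Z.Ok sl) (hx : Wt x P 1)
  (hW : Wx Z F x P τ D B G.gp G.gm f.U f.b1 f.z f.dl Gk Mk mb u) (hgs : G.gs = G.gm)
  (hG : G.Tk Z F x P sg τ D B f.m f.q)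
  (cB : ContinuousOn (B τ) (Icc 0 τ)) {s : ℝ} (hs : s ∈ Icc 0 τ) (hsg : s ≤ sg)
  {y : Yg} (hy : y.Ok f) {j jn : Yc} (hj : j.Fk f 0 0 (y.P1 f) y.P2)
  (hn : jn.Fk f 1 0 (fun _ => 0) (fun _ => 0)) {c : V} (hc : c ∈ Dᶜ)

include hf co hC hZ hx hW hgs hG cB hs hsg hy hj hn hc

/-- **columns of the deleted closure** -/
theorem Yf.Ok.X0D_col : ∑ d ∈ Dᶜ.erase c, X0D Z F x P G τ D s c d
    ≤ (1 - RCM.kx x D c) * f.cD0 y j jn (u 0) (u s) (RCM.kx x D c) := by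
  have h : (f.yk mb u).Ok Z F x P G.gp G.gm G.gs τ D B f.m f.q (f.E u x D)
      (f.E' mb u x D) (f.κ u x D) (f.κ' mb u x D) := by
    rw [hgs]
    exact hf.kOk hZ hx hW
  exact h.X0D_col (co.co hW) hC hZ hx hW.τ1.2 hG cB hs (hy.yp hW) (hj.yc hW) (hn.yc hW)
    zero_le_one le_rfl hc hsg le_rfl

/-- **columns of the released closure** -/
theorem Yf.Ok.X0T_col : ∑ d ∈ Dᶜ.erase c, X0T Z F x P G τ D s c d
    ≤ (1 - RCM.kx x D c) * (f.cD0 y j jn (u 0) (u s) (RCM.kx x D c)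
      + f.cT y j jn (u 0) (u s) (RCM.kx x D c)) := by
  have h : (f.yk mb u).Ok Z F x P G.gp G.gm G.gs τ D B f.m f.q (f.E u x D)
      (f.E' mb u x D) (f.κ u x D) (f.κ' mb u x D) := by
    rw [hgs]
    exact hf.kOk hZ hx hW
  refine (h.X0T_col (co.co hW) hC hZ hx hW.τ1.2 hG cB hs (hy.yp hW) (hj.yc hW) (hn.yc hW)
    zero_le_one le_rfl hc hsg le_rfl).trans (le_of_eq ?_)
  show dmp x D c * (j.h1 (u s) + y.UP (u 0) + f.Eg (RCM.kx x D c) (u 0) * jn.h1 (u s)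
    + (j.hV (u s) * f.Gm (u s) + j.hU (u s) * f.Gp (u s) + y.VP (u s))
    + f.Eg (RCM.kx x D c) (u 0) * (jn.hV (u s) * f.Gm (u s) + jn.hU (u s) * f.Gp (u s))) = _
  rw [dmp_eq]
  unfold Yf.cD0 Yf.cT
  ring

end cols

end Pool.Agent.RX.RCN.K
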