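import Pool.Agent.RX.RCM.NuR
import Pool.Agent.RX.RCN.PpR
import Pool.Agent.RX.RCN.PqA
import Pool.Agent.RX.RCN.XrE
import Pool.Agent.RX.RCN.YcC

/-! The inequality of the pairs: rows and columns of the exponents of the closures of a cell,
second form (MP_73ccd0_lc, route M). -/

namespace Pool.Agent.RX.RCN.K

open Set Finset MeasureTheory Pool.Agent.RX.RCRSHalf Pool.Agent.RX.RCG Pool.Agent.RX.RCG.Ct
set_option linter.unusedSectionVars false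

namespace Yf

variable (f : Yf) (y : Yg) (j jn : Yc) (M1 M2 : ℝ → ℝ) (gm : ℝ → ℝ) (kp U0 us : ℝ)

/-- the columns of the deleted closure -/
noncomputable def po1 (k : ℝ) : ℝ :=
  y.WP U0 + f.ka k U0 * sec f.b1 M1 M2 us U0 + (f.cD0 y j jn U0 us k + (gm k + kp))

/-- the rows of the deleted closure -/
noncomputable def po2 (k : ℝ) : ℝ :=
  f.ka k U0 * f.WT U0 + sec f.b1 M1 M2 us U0 + (f.rD0 U0 us k + (gm k + kp))

end Yf

variable {V : Type*} [Fintype V] [DecidableEq V] {x : V → V → ℝ} {P : V → Prop}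
  [DecidablePred P] {Z : Hzd} {F : Lz V} {sl : ℝ → ℝ → ℝ}
  {G : Fm V} {B E1 : ℝ → ℝ → ℝ} {α τ t s sg dlt : ℝ} {f : Yf} {Gk Mk : ℝ → ℝ → ℝ} {mb u : ℝ → ℝ}
  {y : Yg} {j jn : Yc}

/-- **the rows and columns at the time `s`, second form** -/
theorem ro_ofB {D : Finset V} {M1 M2 R1 R2 : ℝ → ℝ} (hf : f.Ok Gk Mk dlt) (co : f.Co)
    (hd0 : 0 ≤ dlt) (hC : Z.Cf B E1)
    (hZ : Z.Ok sl) (hx : Wt x P 1)
    (hW : Wx Z F x P τ D B G.gp G.gm f.U f.b1 f.z f.dl Gk Mk mb u) (hgs : G.gs = G.gm)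
    {A : Finset V} (hctn : Ctn F G α τ) (hF : F.OkN Z x P A D sg α τ)
    (hG : G.Tk Z F x P sg τ D B f.m f.q)
    (cB : ContinuousOn (B τ) (Icc 0 τ)) (ht : t ∈ Icc α τ) (hs : s ∈ Icc 0 t) (hsg : s ≤ sg)
    (uτ : u τ = 0)
    (m1 : ∀ v ∈ Icc 0 f.U, HasDerivAt M1 (f.μ1 v) v) (m2 : ∀ v ∈ Icc 0 f.U, HasDerivAt M2 (M1 v) v)
    (r1 : ∀ v ∈ Icc 0 f.U, HasDerivAt R1 (f.R v) v) (r2 : ∀ v ∈ Icc 0 f.U, HasDerivAt R2 (R1 v) v)
    (hy : y.Ok f) (hj : j.Fk f 0 0 (y.P1 f) y.P2) (hn : jn.Fk f 1 0 (fun _ => 0) (fun _ => 0))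
    {gR : V → V → ℝ} {gm : ℝ → ℝ} {kp : ℝ} (kp0 : 0 ≤ kp)
    (g1 : ∀ d ∈ Dᶜ, ∑ c ∈ Dᶜ.erase d, gR c d ≤ dmp x D d * gm (RCM.kx x D d))
    (g2 : ∀ c ∈ Dᶜ, ∑ d ∈ Dᶜ.erase c, gR c d ≤ dmp x D c * gm (RCM.kx x D c))
    {L Lt : V → V → ℝ} {Θ : ℝ} (Θ0 : 0 ≤ Θ)
    (hL : ∀ c ∈ Dᶜ, ∀ d ∈ Dᶜ, c ≠ d → L c d ≤ N2 Z F x P D t s t c d 0
      + N2 Z F x P D t s s d c 0 + (X0D Z F x P G τ D s c d + (gR c d + x c d * kp)))
    (hLt : ∀ c ∈ Dᶜ, ∀ d ∈ Dᶜ, c ≠ d → Lt c d ≤ N2 Z F x P D t s t c d 0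
      + N2 Z F x P D t s s d c 0
      + (x c d * Θ + (X0T Z F x P G τ D s c d + (gR c d + x c d * kp)))) :
    (∀ c ∈ Dᶜ, ∑ d ∈ Dᶜ.erase c, L c d
      ≤ dmp x D c * f.po1 y j jn M1 M2 gm kp (u 0) (u s) (RCM.kx x D c)) ∧
    (∀ d ∈ Dᶜ, ∑ c ∈ Dᶜ.erase d, L c d
      ≤ dmp x D d * f.po2 R1 R2 gm kp (u 0) (u s) (RCM.kx x D d)) ∧
    (∀ c ∈ Dᶜ, ∑ d ∈ Dᶜ.erase c, Lt c d
      ≤ dmp x D c * (Θ + f.po1 y j jn M1 M2 gm kp (u 0) (u s) (RCM.kx x D c)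
        + f.cT y j jn (u 0) (u s) (RCM.kx x D c))) ∧
    (∀ d ∈ Dᶜ, ∑ c ∈ Dᶜ.erase d, Lt c d
      ≤ dmp x D d * (Θ + f.po2 R1 R2 gm kp (u 0) (u s) (RCM.kx x D d)
        + f.rT (u s) (RCM.kx x D d))) := by
  have τb := hW.τ1.2
  have t0 : 0 ≤ t := hs.1.trans hs.2
  have τ0 : 0 ≤ τ := t0.trans ht.2
  have hsτ : s ∈ Icc 0 τ := ⟨hs.1, hs.2.trans ht.2⟩
  have m0 : (0 : ℝ) ∈ Icc 0 τ := ⟨le_rfl, τ0⟩
  have mτ : τ ∈ Icc 0 τ := ⟨τ0, le_rfl⟩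
  have m0s : (0 : ℝ) ∈ Icc 0 s := ⟨le_rfl, hs.1⟩
  have hU0 := hW.um 0 m0
  have hUs := hW.um s hsτ
  have umono : ∀ r ∈ Icc 0 s, u s ≤ u r := fun r hr => by
    have key := nonneg_of_forward (a := r) (s := s)
      (U := fun z => u r - u z) (U' := fun z => 0 - -mb z)
      (fun z hz => (hasDerivAt_const _ _).sub (hW.du z ⟨hr.1.trans hz.1, hz.2.trans hsτ.2⟩))
      (by simp)
      (fun z hz _ => by
        have := hW.mb0 z ⟨hr.1.trans hz.1, hz.2.trans hsτ.2⟩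
        linarith)
      s ⟨hr.2, le_rfl⟩
    linarith
  have k1 : (1 : ℝ) ∈ Icc (0 : ℝ) 1 := ⟨zero_le_one, le_rfl⟩
  have μ10 : ∀ v ∈ Icc 0 f.U, 0 ≤ f.μ1 v := fun v hv => by
    have := hf.h1 1 k1 v hv; simpa using this
  have R0 : ∀ v ∈ Icc 0 f.U, 0 ≤ f.R v := fun v hv => by
    have := hf.hR 1 k1 v hv; simpa [Yf.rw] using this
  -- the leading parts
  have l1 : ∀ c d, N2 Z F x P D t s t c d 0 ≤ N1 Z F x P D τ c d 0 := fun c d =>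
    N2_le_N1 (D := D) hctn hF.toOk hZ hx ht hs hsg t0 le_rfl ht.2 le_rfl c d
  have l2 : ∀ c d, N2 Z F x P D t s s d c 0 ≤ N1 Z F x P D s d c 0 := fun c d =>
    N2_le_N1 (D := D) hctn hF.toOk hZ hx ht hs hsg hs.1 hs.2 le_rfl hsτ.2 d c
  have bL : ∀ c ∈ Dᶜ, ∀ d ∈ Dᶜ, c ≠ d → L c d ≤ N1 Z F x P D τ c d 0 + N1 Z F x P D s d c 0
      + (X0D Z F x P G τ D s c d + (gR c d + x c d * kp)) := fun c hc d hd hcd => by
    have := hL c hc d hd hcd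
    linarith [l1 c d, l2 c d]
  have bLt : ∀ c ∈ Dᶜ, ∀ d ∈ Dᶜ, c ≠ d → Lt c d ≤ N1 Z F x P D τ c d 0
      + N1 Z F x P D s d c 0
      + (x c d * Θ + (X0T Z F x P G τ D s c d + (gR c d + x c d * kp))) :=
    fun c hc d hd hcd => by
    have := hLt c hc d hd hcd
    linarith [l1 c d, l2 c d]
  have hmem : ∀ {c d : V}, c ∈ Dᶜ → d ∈ Dᶜ.erase c → d ∈ Dᶜ ∧ c ≠ d := fun _ hd =>
    ⟨Finset.mem_of_mem_erase hd, (Finset.ne_of_mem_erase hd).symm⟩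
  -- the sums of the leading parts
  have pA : ∀ c ∈ Dᶜ, ∑ d ∈ Dᶜ.erase c, N1 Z F x P D τ c d 0 ≤ dmp x D c * y.WP (u 0) := by
    intro c _
    have := hf.N1_pos hC hZ hx hW mτ c (w := y.WP) (w' := y.WP') hy.dW
      (hy.W0 _ (hW.um τ mτ)) (fun r hr => by
        rw [uτ, sub_zero]
        exact hy.oW _ (hW.um r hr)) 0 m0
    exact this.trans (le_of_eq (mul_comm _ _))
  have tA : ∀ d ∈ Dᶜ, ∑ c ∈ Dᶜ.erase d, N1 Z F x P D τ c d 0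
      ≤ dmp x D d * (f.ka (RCM.kx x D d) (u 0) * f.WT (u 0)) := by
    intro d hd
    have := hf.N1_tgt hC hZ hx hW mτ hd (w := f.WT) (w' := f.WT') hf.dWT
      (fun r hr => hf.WT0 _ (hW.um r hr)) (fun r hr => by
        rw [uτ, sub_zero]
        exact hf.oWT _ (hW.um r hr)) 0 m0
    refine this.trans (le_of_eq ?_)
    show f.WT (u 0) * (dmp x D d * f.ka (RCM.kx x D d) (u 0)) = _
    ring
  have tB : ∀ c ∈ Dᶜ, ∑ d ∈ Dᶜ.erase c, N1 Z F x P D s d c 0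
      ≤ dmp x D c * (f.ka (RCM.kx x D c) (u 0) * sec f.b1 M1 M2 (u s) (u 0)) := by
    intro c hc
    have := hf.N1_tgt hC hZ hx hW hsτ hc (w := sec f.b1 M1 M2 (u s))
      (w' := fun v => f.b1 * ((v - u s) * f.μ1 v)) (sec_deriv m1 m2 (u s))
      (fun r hr => sec_nonneg m1 m2 hf.b0 μ10 hUs.1 (umono r hr)
        (hW.um r ⟨hr.1, hr.2.trans hsτ.2⟩).2) (fun r _ => le_of_eq (by ring)) 0 m0s
    refine this.trans (le_of_eq ?_)
    show sec f.b1 M1 M2 (u s) (u 0) * (dmp x D c * f.ka (RCM.kx x D c) (u 0)) = _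
    ring
  have pB : ∀ d ∈ Dᶜ, ∑ c ∈ Dᶜ.erase d, N1 Z F x P D s d c 0
      ≤ dmp x D d * sec f.b1 R1 R2 (u s) (u 0) := by
    intro d _
    have := hf.N1_pos hC hZ hx hW hsτ d (w := sec f.b1 R1 R2 (u s))
      (w' := fun v => f.b1 * ((v - u s) * f.R v)) (sec_deriv r1 r2 (u s))
      (by simp [sec]) (fun r _ => le_of_eq (by ring)) 0 m0s
    refine this.trans (le_of_eq (by ring))
  have xr : ∀ {θ : ℝ}, 0 ≤ θ → ∀ c ∈ Dᶜ, ∑ d ∈ Dᶜ.erase c, x c d * θ ≤ dmp x D c * θ := by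
    intro θ θ0 c _
    rw [← Finset.sum_mul]
    refine mul_le_mul_of_nonneg_right (le_trans (Finset.sum_le_sum_of_subset_of_nonneg
      (Finset.erase_subset _ _) fun d _ _ => hx.nonneg c d) (row_dmp hx D c)) θ0
  have xc : ∀ {θ : ℝ}, 0 ≤ θ → ∀ d ∈ Dᶜ, ∑ c ∈ Dᶜ.erase d, x c d * θ ≤ dmp x D d * θ := by
    intro θ θ0 d hd
    refine le_trans (le_of_eq ?_) (xr θ0 d hd)
    exact Finset.sum_congr rfl fun c _ => by rw [hx.symm c d]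
  have eD : ∀ d, 1 - RCM.kx x D d = dmp x D d := fun d => (dmp_eq x D d).symm
  refine ⟨fun c hc => ?_, fun d hd => ?_, fun c hc => ?_, fun d hd => ?_⟩
  · have key := hf.X0D_col co hC hZ hx hW hgs hG cB hsτ hsg hy hj hn hc
    have a1 := Finset.sum_le_sum fun d hd => bL c hc d (hmem hc hd).1 (hmem hc hd).2
    refine a1.trans ?_
    simp only [Finset.sum_add_distrib]
    rw [eD] at key
    refine (add_le_add (add_le_add (pA c hc) (tB c hc)) (add_le_add key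
      (add_le_add (g2 c hc) (xr kp0 c hc)))).trans (le_of_eq ?_)
    unfold Yf.po1
    ring
  · have key := hf.X0D_row hC hZ hx hW hgs hG cB hsτ hsg hd0 hd
    have a1 := Finset.sum_le_sum fun c hc => bL c (hmem hd hc).1 d hd (hmem hd hc).2.symm
    refine a1.trans ?_
    simp only [Finset.sum_add_distrib]
    rw [eD] at key
    refine (add_le_add (add_le_add (tA d hd) (pB d hd)) (add_le_add key
      (add_le_add (g1 d hd) (xc kp0 d hd)))).trans (le_of_eq ?_)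
    unfold Yf.po2
    ring
  · have key := hf.X0T_col co hC hZ hx hW hgs hG cB hsτ hsg hy hj hn hc
    have a1 := Finset.sum_le_sum fun d hd => bLt c hc d (hmem hc hd).1 (hmem hc hd).2
    refine a1.trans ?_
    simp only [Finset.sum_add_distrib]
    rw [eD] at key
    refine (add_le_add (add_le_add (pA c hc) (tB c hc)) (add_le_add (xr Θ0 c hc)
      (add_le_add key (add_le_add (g2 c hc) (xr kp0 c hc))))).trans (le_of_eq ?_)
    unfold Yf.po1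
    ring
  · have key := hf.X0T_row hC hZ hx hW hgs hG cB hsτ hsg hd0 hd
    have a1 := Finset.sum_le_sum fun c hc => bLt c (hmem hd hc).1 d hd (hmem hd hc).2.symm
    refine a1.trans ?_
    simp only [Finset.sum_add_distrib]
    rw [eD] at key
    refine (add_le_add (add_le_add (tA d hd) (pB d hd)) (add_le_add (xc Θ0 d hd)
      (add_le_add key (add_le_add (g1 d hd) (xc kp0 d hd))))).trans (le_of_eq ?_)
    unfold Yf.po2
    ring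

end Pool.Agent.RX.RCN.K
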