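import Pool.Agent.RX.RCN.YfA

/-! The first part of the inequality of the centres: the two-time rows of the other parts of the
exponents (MP_73ccd0_lc, route M). -/

namespace Pool.Agent.RX.RCN.K

open Set Finset MeasureTheory Pool.Agent.RX.RCRSHalf Pool.Agent.RX.RCG Pool.Agent.RX.RCG.Ct
set_option linter.unusedSectionVars false

variable {V : Type*} [Fintype V] [DecidableEq V] {x : V → V → ℝ} {P : V → Prop} [DecidablePred P] {a b : V} {Z : Hzd} {F : Lz V} {sl : ℝ → ℝ → ℝ} {G : Fm V} {B E1 : ℝ → ℝ → ℝ} {α τ t s sg dlt : ℝ} {g : Yf} {Gk Mk : ℝ → ℝ → ℝ} {mb u : ℝ → ℝ}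

/-- the gauge increases with the clock -/
theorem Yf.Ok.Eg_mono (hf : g.Ok Gk Mk dlt) {k u v : ℝ} (hk : k ∈ Icc (0 : ℝ) 1)
    (hu : u ∈ Icc 0 g.U) (hv : v ∈ Icc 0 g.U) (h : u ≤ v) : g.Eg k u ≤ g.Eg k v := by
  have hz : g.z u ≤ g.z v := by
    have key := nonneg_of_forward (a := u) (s := v)
      (U := fun z => g.z z - g.z u) (U' := fun z => g.z' z - 0)
      (fun z hz => (hf.dz z ⟨hu.1.trans hz.1, hz.2.trans hv.2⟩).sub (hasDerivAt_const _ _))
      (by simp)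
      (fun z hz _ => by
        have := hf.z'0 z ⟨hu.1.trans hz.1, hz.2.trans hv.2⟩
        linarith)
      v ⟨h, le_rfl⟩
    linarith
  have hd : g.dl u ≤ g.dl v := by
    have key := nonneg_of_forward (a := u) (s := v)
      (U := fun z => g.dl z - g.dl u) (U' := fun z => g.dl' z - 0)
      (fun z hz => (hf.dd z ⟨hu.1.trans hz.1, hz.2.trans hv.2⟩).sub (hasDerivAt_const _ _))
      (by simp)
      (fun z hz _ => by
        have := hf.d'0 z ⟨hu.1.trans hz.1, hz.2.trans hv.2⟩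
        linarith)
      v ⟨h, le_rfl⟩
    linarith
  unfold Yf.Eg
  refine mul_le_mul_of_nonneg_left (Real.exp_le_exp.2 ?_) ?_
  · have h1 := mul_le_mul_of_nonneg_left hd hk.1
    linarith
  · have := mul_nonneg hf.l0 hk.1
    linarith

theorem Yf.Ok.ka_le (hf : g.Ok Gk Mk dlt) {k u : ℝ} (hk : k ∈ Icc (0 : ℝ) 1) :
    0 ≤ g.ka k u ∧ g.ka k u ≤ g.Eg k u := by
  unfold Yf.ka Yf.Eg
  have h1 := mul_nonneg hf.l0 hk.1
  have h2 := (Real.exp_pos (g.z u + k * g.dl u)).le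
  exact ⟨h2, le_mul_of_one_le_left h2 (by linarith)⟩

end Pool.Agent.RX.RCN.K
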