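import Pool.Agent.RX.RCN.CkZ
import Pool.Agent.RX.RCN.YcC
import Pool.Agent.RX.RCN.YlA

/-! Two-time columns of the closure exponents of a cell: the lists (MP_73ccd0_lc, route M). -/

namespace Pool.Agent.RX.RCN.K

open Set Finset Pool.Agent.RX.RCRSHalf Pool.Agent.RX.RCM9 Pool.Agent.RX.RCM9.Bern Pool.Agent.RX.RCM9.Pk
  Pool.Agent.RX.RCN.Ck1

set_option linter.unusedSectionVars false

/-- nonnegativity of the scalar functions -/
theorem Yf.Ok.nng {f : Yf} {Gk Mk : ℝ → ℝ → ℝ} {dlt : ℝ} (hf : f.Ok Gk Mk dlt) {u : ℝ}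
    (hu : u ∈ Icc 0 f.U) : (0 ≤ f.μ1 u ∧ 0 ≤ f.μk u ∧ 0 ≤ f.μ2 u ∧ 0 ≤ f.ex u ∧ 0 ≤ f.R u) ∧
      (0 ≤ f.kE u ∧ 0 ≤ f.kk u ∧ 0 ≤ f.k1 u ∧ 0 ≤ f.AM u ∧ 0 ≤ f.AP u) ∧
      (0 ≤ f.x3 u ∧ 0 ≤ f.C1 u ∧ 0 ≤ f.C4 u ∧ 0 ≤ f.Gp u ∧ 0 ≤ f.Gm u) := by
  have k1 : (1 : ℝ) ∈ Icc (0 : ℝ) 1 := ⟨zero_le_one, le_rfl⟩
  have k0 : (0 : ℝ) ∈ Icc (0 : ℝ) 1 := ⟨le_rfl, zero_le_one⟩
  have a1 : 0 ≤ f.μ1 u := by have := hf.h1 1 k1 u hu; simpa using this
  have a2 : 0 ≤ f.μk u := by have := hf.hk 1 k1 u hu; simpa using this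
  have a3 : 0 ≤ f.μ2 u := by have := hf.h2 1 k1 u hu; simpa using this
  have a4 : 0 ≤ f.ex u := by have := hf.hx 1 k1 u hu; simpa [Yf.rw] using this
  have a5 : 0 ≤ f.R u := by have := hf.hR 1 k1 u hu; simpa [Yf.rw] using this
  have b1 := mul_nonneg hf.b0 hu.1
  refine ⟨⟨a1, a2, a3, a4, a5⟩, ⟨?_, ?_, ?_, ?_, ?_⟩, ?_, ?_, ?_, hf.Gp0 u hu, hf.Gm0 u hu⟩
  · exact (mul_nonneg a3 (add_nonneg a4 a1)).trans (hf.qE u hu)
  · exact (mul_nonneg a2 (add_nonneg a4 a1)).trans (hf.qk u hu)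
  · exact (mul_nonneg a1 (add_nonneg a4 a1)).trans (hf.q1 u hu)
  · have := hf.aM 1 k1 u hu; simpa using this
  · have := hf.aP 1 k1 u hu; simpa using this
  · have := hf.hx3 0 k0 u hu; simpa using this
  · exact mul_nonneg hf.q0 (by linarith)
  · exact mul_nonneg hf.q0 (by linarith)

namespace Yz

variable (y : Yz)

/-- the position sums as functions -/
noncomputable def yg : Yg where
  WP := pv y.WP
  WP' := pv (pd y.WP)
  VP := pv y.VP
  VP' := pv (pd y.VP)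
  UP := pv y.UP
  UP' := pv (pd y.UP)

end Yz

namespace Yv

variable (j : Yv) (v w : ℚ)

/-- the functions of a cell with the end `U` of the clock -/
noncomputable def jc (U : ℝ) : Yc where
  hV := fun u => pv (pri j.rV) U - pv (pri j.rV) u
  hV' := pv j.rV
  hU := fun u => v + (pv (pri j.rU) U - pv (pri j.rU) u)
  hU' := pv j.rU
  hW := fun u => w + (pv (pri j.rW) U - pv (pri j.rW) u)
  hW' := pv j.rW
  hw := fun u => pv (pri j.rw) U - pv (pri j.rw) u
  hw' := pv j.rw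
  h1 := fun u => pv (pri j.r1) U - pv (pri j.r1) u
  h1' := pv j.r1

end Yv

variable {l : Yl} {y : Yz} {j : Yv} {D : ℤ} {n : ℕ} {Gk Mk : ℝ → ℝ → ℝ} {dlt U : ℝ}

/-- continuity of the lists -/
theorem Yl.co (l : Yl) (U : ℝ) : (l.yf U).Co where
  μ1 := (continuous_pv _).continuousOn
  μk := (continuous_pv _).continuousOn
  μ2 := (continuous_pv _).continuousOn
  R := (continuous_pv _).continuousOn
  kE := (continuous_pv _).continuousOn
  kk := (continuous_pv _).continuousOn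
  k1 := (continuous_pv _).continuousOn
  AM := (continuous_pv _).continuousOn
  AP := (continuous_pv _).continuousOn
  x3 := (continuous_pv _).continuousOn
  Gp := (continuous_pv _).continuousOn
  Gm := (continuous_pv _).continuousOn

theorem Yz.pv_p1 (u : ℝ) : pv (y.p1 l) u = y.yg.P1 (l.yf U) u := by
  unfold Yz.p1 Yg.P1
  rw [pv_ladd, pv_lmul, Yl.pv_b3l (U := U), Yl.pv_C4l (U := U)]
  rfl

theorem Yz.pv_p2 (u : ℝ) : pv y.p2 u = y.yg.P2 u := by
  unfold Yz.p2 Yg.P2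
  rw [pv_ladd]
  rfl

/-- **soundness of the position sums** -/
theorem Yz.ok_of (h : y.ok l D n = true) (hU : U ≤ l.Ug) : y.yg.Ok (l.yf U) := by
  simp only [Yz.ok, Bool.and_eq_true, and_assoc] at h
  obtain ⟨-, -, -, -, -, -, W0, V0, U0, oW, oV, oU⟩ := h
  have mm : ∀ u ∈ Icc 0 U, u ∈ Icc ((0 : ℚ) : ℝ) (l.Ug : ℝ) := fun u hu => by
    refine ⟨?_, hu.2.trans hU⟩
    simpa using hu.1
  exact
    { dW := fun u _ => hasDerivAt_pv _ _
      dV := fun u _ => hasDerivAt_pv _ _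
      dU := fun u _ => hasDerivAt_pv _ _
      W0 := fun u hu => nn_le W0 (mm u hu)
      V0 := fun u hu => nn_le V0 (mm u hu)
      U0 := fun u hu => nn_le U0 (mm u hu)
      oW := fun u hu => by
        have h := nn_sub oW (mm u hu)
        simp only [pv_lmul, pv] at h
        push_cast at h
        refine le_trans (le_of_eq ?_) h
        show pv l.R u * ((l.b1 : ℝ) * u) = _
        ring
      oV := fun u hu => by
        have h := nn_sub oV (mm u hu)
        rw [pv_ladd, pv_lmul, pv_lmul, pv_ladd, Yz.pv_p1 (U := U), Yz.pv_p2] at h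
        exact h
      oU := fun u hu => by
        have h := nn_sub oU (mm u hu)
        rw [pv_ladd, pv_ladd, pv_lmul, pv_lmul, pv_lmul, pv_lmul, Yz.pv_p1 (U := U), Yz.pv_p2,
          Yl.pv_C1l (U := U)] at h
        have e : (l.yf U).R u * ((l.yf U).C1 u * y.yg.VP u) + (l.yf U).AP u
            * (y.yg.WP u + y.yg.UP u) + (l.yf U).AM u * ((l.yf U).b3 u
              + (l.yf U).C4 u * y.yg.VP u)
            = pv l.R u * ((l.yf U).C1 u * pv y.VP u)
              + (pv l.AP u * y.yg.P2 u + pv l.AM u * y.yg.P1 (l.yf U) u) := by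
          show pv l.R u * ((l.yf U).C1 u * pv y.VP u) + pv l.AP u
            * (pv y.WP u + pv y.UP u) + pv l.AM u * ((l.yf U).b3 u
              + (l.yf U).C4 u * pv y.VP u)
            = pv l.R u * ((l.yf U).C1 u * pv y.VP u)
              + (pv l.AP u * (pv y.WP u + pv y.UP u) + pv l.AM u * ((l.yf U).b3 u
                + (l.yf U).C4 u * pv y.VP u))
          ring
        rw [e]
        exact h }

set_option maxHeartbeats 4000000 in
/-- **soundness of the adjoint functions** -/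
theorem Yv.ok_of {v w : ℚ} {p1 p2 : List ℚ} {P1 P2 : ℝ → ℝ} (hf : (l.yf U).Ok Gk Mk dlt)
    (hy : y.ok l D n = true) (h : j.ok l y v w p1 p2 D n = true) (hU : U ≤ l.Ug)
    (v0 : 0 ≤ v) (w0 : 0 ≤ w) (e1 : ∀ u, P1 u = pv p1 u) (e2 : ∀ u, P2 u = pv p2 u) :
    (j.jc v w U).Fk (l.yf U) v w P1 P2 := by
  simp only [Yz.ok, Bool.and_eq_true, and_assoc] at hy
  obtain ⟨hgE, hmE, hgk, hmk, hg1, hm1, -⟩ := hy
  simp only [Yv.ok, Bool.and_eq_true, and_assoc] at h
  obtain ⟨nV, nU, nW, nw, n1, oV, oU, oW, ow, o1⟩ := h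
  have U0 : 0 < U := hf.U0
  have mm : ∀ u ∈ Icc 0 U, u ∈ Icc ((0 : ℚ) : ℝ) (l.Ug : ℝ) := fun u hu => by
    refine ⟨?_, hu.2.trans hU⟩
    simpa using hu.1
  have v0' : (0 : ℝ) ≤ v := by exact_mod_cast v0
  have w0' : (0 : ℝ) ≤ w := by exact_mod_cast w0
  have up : ∀ {p : List ℚ}, nn D n 0 l.Ug p = true →
      pv (pri p) U ≤ ((evq (pri p) l.Ug : ℚ) : ℝ) := fun {p} hp => by
    rw [evq_pv]
    have := Xl.pri_sub_nonneg (p := p) (U := (l.Ug : ℝ)) (fun u hu => nn_le hp (by simpa using hu))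
      (u := U) ⟨U0.le, hU⟩
    linarith
  have nv : ∀ {p : List ℚ}, nn D n 0 l.Ug p = true → ∀ u ∈ Icc 0 U,
      0 ≤ pv (pri p) U - pv (pri p) u := fun {p} hp u hu =>
    Xl.pri_sub_nonneg (fun v hv => nn_le hp (mm v hv)) hu
  have one : ∀ (c : ℚ) (p : List ℚ) (u : ℝ), pv (lsub [c] p) u = (c : ℝ) - pv p u :=
    fun c p u => by
      rw [pv_lsub]
      simp only [pv, mul_zero, add_zero]
  -- the functions
  set g := j.jc v w U with hg
  have hV_le : ∀ u, g.hV u ≤ pv (j.HV l) u := fun u => by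
    have := up nV
    rw [Yv.HV, one]
    show pv (pri j.rV) U - pv (pri j.rV) u ≤ _
    linarith
  have hU_le : ∀ u, g.hU u ≤ pv (j.HU l v) u := fun u => by
    have := up nU
    rw [Yv.HU, one]
    show (v : ℝ) + (pv (pri j.rU) U - pv (pri j.rU) u) ≤ _
    push_cast
    linarith
  have hW_le : ∀ u, g.hW u ≤ pv (j.HW l w) u := fun u => by
    have := up nW
    rw [Yv.HW, one]
    show (w : ℝ) + (pv (pri j.rW) U - pv (pri j.rW) u) ≤ _
    push_cast
    linarith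
  have hw_le : ∀ u, g.hw u ≤ pv (j.Hw l) u := fun u => by
    have := up nw
    rw [Yv.Hw, one]
    show pv (pri j.rw) U - pv (pri j.rw) u ≤ _
    linarith
  have hV0 : ∀ u ∈ Icc 0 U, 0 ≤ g.hV u := fun u hu => nv nV u hu
  have hU0 : ∀ u ∈ Icc 0 U, (v : ℝ) ≤ g.hU u := fun u hu => by
    show (v : ℝ) ≤ v + (pv (pri j.rU) U - pv (pri j.rU) u)
    linarith [nv nU u hu]
  have hW0 : ∀ u ∈ Icc 0 U, (w : ℝ) ≤ g.hW u := fun u hu => by
    show (w : ℝ) ≤ w + (pv (pri j.rW) U - pv (pri j.rW) u)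
    linarith [nv nW u hu]
  have hw0 : ∀ u ∈ Icc 0 U, 0 ≤ g.hw u := fun u hu => nv nw u hu
  have pr : ∀ {a b c : List ℚ}, nn D n 0 l.Ug (lsub a (lmul b c)) = true → ∀ u ∈ Icc 0 U,
      pv b u * pv c u ≤ pv a u := fun {a b c} hp u hu => by
    have h := nn_sub hp (mm u hu)
    rwa [pv_lmul] at h
  -- the common factor
  have cc : ∀ u ∈ Icc 0 U, (l.yf U).k1 u * ((l.yf U).Gp u * g.hV u + (l.yf U).Gm u * g.hU u
      + P2 u) ≤ pv (j.cc l y v p2) u := fun u hu => by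
    obtain ⟨-, ⟨-, -, k10, -, -⟩, -, -, -, G0, M0⟩ := hf.nng hu
    have b1 : pv l.Gp u * pv l.k1 u ≤ pv y.g1 u := pr hg1 u hu
    have b2 : pv l.Gm u * pv l.k1 u ≤ pv y.m1 u := pr hm1 u hu
    have G0' : 0 ≤ pv l.Gp u := G0
    have M0' : 0 ≤ pv l.Gm u := M0
    have k0' : 0 ≤ pv l.k1 u := k10
    have c1 := mul_le_mul b1 (hV_le u) (hV0 u hu) ((mul_nonneg G0' k0').trans b1)
    have c2 := mul_le_mul b2 (hU_le u) (v0'.trans (hU0 u hu)) ((mul_nonneg M0' k0').trans b2)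
    rw [Yv.cc, pv_ladd, pv_ladd, pv_lmul, pv_lmul, pv_lmul, ← e2]
    show pv l.k1 u * (pv l.Gp u * g.hV u + pv l.Gm u * g.hU u + P2 u) ≤ _
    linarith
  exact
    { dV := fun u _ => Xl.dneg_pri _ _ _
      dU := fun u _ => (Xl.dneg_pri j.rU U u).const_add (v : ℝ)
      dW := fun u _ => (Xl.dneg_pri j.rW U u).const_add (w : ℝ)
      dw := fun u _ => Xl.dneg_pri _ _ _
      d1 := fun u _ => Xl.dneg_pri _ _ _
      v0 := hV0
      vU := hU0
      wW := hW0
      w0 := hw0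
      i0 := fun u hu => nv n1 u hu
      oV := fun u hu => by
        obtain ⟨⟨-, -, m20, -, -⟩, ⟨kE0, -⟩, -, C10, C40, G0, M0⟩ := hf.nng hu
        have h := nn_sub oV (mm u hu)
        simp only [pv_ladd, pv_lmul] at h
        rw [Yl.pv_C4l (U := U), Yl.pv_C1l (U := U), ← e2] at h
        have b1 : pv l.Gp u * pv l.kE u ≤ pv y.gE u := pr hgE u hu
        have b2 : pv l.Gm u * pv l.kE u ≤ pv y.mE u := pr hmE u hu
        have G0' : 0 ≤ pv l.Gp u := G0
        have M0' : 0 ≤ pv l.Gm u := M0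
        have k0' : 0 ≤ pv l.kE u := kE0
        have m0' : 0 ≤ pv l.μ2 u := m20
        have d1 := mul_le_mul_of_nonneg_right b1 C40
        have d2 := mul_le_mul_of_nonneg_right b2 C40
        have c1 := mul_le_mul d1 (hV_le u) (hV0 u hu)
          ((mul_nonneg (mul_nonneg G0' k0') C40).trans d1)
        have d3 : pv l.μ2 u * (l.yf U).C1 u + pv l.Gm u * pv l.kE u * (l.yf U).C4 u
            ≤ pv l.μ2 u * (l.yf U).C1 u + pv y.mE u * (l.yf U).C4 u := by linarith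
        have d4 : 0 ≤ pv l.μ2 u * (l.yf U).C1 u + pv l.Gm u * pv l.kE u * (l.yf U).C4 u :=
          add_nonneg (mul_nonneg m0' C10) (mul_nonneg (mul_nonneg M0' k0') C40)
        have c2 := mul_le_mul d3 (hU_le u) (v0'.trans (hU0 u hu)) (d4.trans d3)
        show pv l.Gp u * pv l.kE u * (l.yf U).C4 u * g.hV u
          + (pv l.μ2 u * (l.yf U).C1 u + pv l.Gm u * pv l.kE u * (l.yf U).C4 u) * g.hU u
          + pv l.kE u * (l.yf U).C4 u * P2 u ≤ pv j.rV u
        linarith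
      oU := fun u hu => by
        obtain ⟨⟨-, -, m20, -, -⟩, ⟨kE0, -⟩, -, -, -, G0, M0⟩ := hf.nng hu
        have h := nn_sub oU (mm u hu)
        simp only [pv_ladd, pv_lmul] at h
        rw [← e1] at h
        have b1 : pv l.Gp u * pv l.kE u ≤ pv y.gE u := pr hgE u hu
        have b2 : pv l.Gm u * pv l.kE u ≤ pv y.mE u := pr hmE u hu
        have G0' : 0 ≤ pv l.Gp u := G0
        have M0' : 0 ≤ pv l.Gm u := M0
        have k0' : 0 ≤ pv l.kE u := kE0
        have m0' : 0 ≤ pv l.μ2 u := m20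
        have d3 : pv l.μ2 u + pv l.Gm u * pv l.kE u ≤ pv l.μ2 u + pv y.mE u := by linarith
        have c1 := mul_le_mul d3 (hV_le u) (hV0 u hu)
          ((add_nonneg m0' (mul_nonneg M0' k0')).trans d3)
        have c2 := mul_le_mul b1 (hU_le u) (v0'.trans (hU0 u hu))
          ((mul_nonneg G0' k0').trans b1)
        show (pv l.μ2 u + pv l.Gm u * pv l.kE u) * g.hV u
          + pv l.Gp u * pv l.kE u * g.hU u + pv l.kE u * P1 u ≤ pv j.rU u
        linarith
      oW := fun u hu => by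
        obtain ⟨⟨-, mk0, -, -, -⟩, ⟨-, kk0, -⟩, -, -, -, G0, M0⟩ := hf.nng hu
        have h := nn_sub oW (mm u hu)
        simp only [pv_ladd, pv_lmul] at h
        rw [← e1] at h
        have b1 : pv l.Gp u * pv l.kk u ≤ pv y.gK u := pr hgk u hu
        have b2 : pv l.Gm u * pv l.kk u ≤ pv y.mK u := pr hmk u hu
        have G0' : 0 ≤ pv l.Gp u := G0
        have M0' : 0 ≤ pv l.Gm u := M0
        have k0' : 0 ≤ pv l.kk u := kk0
        have m0' : 0 ≤ pv l.μk u := mk0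
        have d3 : pv l.μk u + pv l.Gm u * pv l.kk u ≤ pv l.μk u + pv y.mK u := by linarith
        have c1 := mul_le_mul d3 (hV_le u) (hV0 u hu)
          ((add_nonneg m0' (mul_nonneg M0' k0')).trans d3)
        have c2 := mul_le_mul b1 (hU_le u) (v0'.trans (hU0 u hu))
          ((mul_nonneg G0' k0').trans b1)
        show (pv l.μk u + pv l.Gm u * pv l.kk u) * g.hV u
          + pv l.Gp u * pv l.kk u * g.hU u + pv l.kk u * P1 u ≤ pv j.rW u
        linarith
      ow := fun u hu => by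
        obtain ⟨⟨m10, -⟩, -⟩ := hf.nng hu
        have h := nn_sub ow (mm u hu)
        rw [pv_ladd, pv_lmul] at h
        have m0' : 0 ≤ pv l.μ1 u := m10
        have c1 := mul_le_mul_of_nonneg_left (hW_le u) m0'
        have c2 := cc u hu
        show (l.yf U).k1 u * ((l.yf U).Gp u * g.hV u + (l.yf U).Gm u * g.hU u + P2 u)
          + pv l.μ1 u * g.hW u ≤ pv j.rw u
        linarith
      o1 := fun u hu => by
        obtain ⟨-, -, x30, -⟩ := hf.nng hu
        have h := nn_sub o1 (mm u hu)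
        rw [pv_ladd, pv_lsmul, pv_lmul] at h
        have x0' : 0 ≤ pv l.x3l u := x30
        have c1 := mul_le_mul_of_nonneg_left (hw_le u) hf.b0
        have c2 := mul_le_mul_of_nonneg_left (cc u hu) x0'
        have c3 : (l.yf U).b1 * g.hw u ≤ (l.b1 : ℝ) * pv (j.Hw l) u := c1
        show (l.yf U).b1 * g.hw u + pv l.x3l u * ((l.yf U).k1 u * ((l.yf U).Gp u * g.hV u
          + (l.yf U).Gm u * g.hU u + P2 u)) ≤ pv j.r1 u
        linarith }

/-- the two vectors of the columns -/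
theorem Yz.cols {jn : Yv} (hl : l.ok D n = true) (hF : l.Fx Gk Mk) (hy : y.ok l D n = true)
    (hj : j.ok l y 0 0 (y.p1 l) y.p2 D n = true) (hn : jn.ok l y 1 0 [] [] D n = true)
    (U0 : 0 < U) (hU : U ≤ l.Ug) :
    (l.yf U).Ok Gk Mk l.dlt ∧ y.yg.Ok (l.yf U) ∧
      (j.jc 0 0 U).Fk (l.yf U) 0 0 (y.yg.P1 (l.yf U)) y.yg.P2 ∧
      (jn.jc 1 0 U).Fk (l.yf U) 1 0 (fun _ => 0) (fun _ => 0) := by
  have hf := l.ok_of hl hF U0 hU
  refine ⟨hf, Yz.ok_of hy hU, ?_, ?_⟩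
  · have := Yv.ok_of hf hy hj hU le_rfl le_rfl (fun u => (Yz.pv_p1 (U := U) u).symm)
      (fun u => (Yz.pv_p2 u).symm)
    simpa using this
  · have := Yv.ok_of (P1 := fun _ => 0) (P2 := fun _ => 0) hf hy hn hU zero_le_one le_rfl
      (fun u => by simp [pv]) (fun u => by simp [pv])
    simpa using this

end Pool.Agent.RX.RCN.K
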