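import Pool.Agent.RX.RCN.CkQ
import Pool.Agent.RX.RCN.PpS
import Pool.Agent.RX.RCN.PqB
import Pool.Agent.RX.RCN.T1M
import Pool.Agent.RX.RCN.YlC

/-! The inequality of the pairs: rows and columns for all cells of the analysis in a numeric cell,
second form (MP_73ccd0_lc, route M). -/

set_option autoImplicit false

namespace Pool.Agent.RX.RCN.K

open Set Finset Pool.Agent.RX.RCRSHalf Pool.Agent.RX.RCM9 Pool.Agent.RX.RCM9.Bern Pool.Agent.RX.RCM9.Pk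
  Pool.Agent.RX.RCN.Ck1

theorem pv_add1 (f : List ℚ) (e : ℚ) (u : ℝ) : pv (ladd f [e]) u = pv f u + e := by
  rw [pv_ladd]
  simp [pv]

theorem pv_sh2 (f : List ℚ) (e U w : ℚ) (v : ℝ) :
    pv (sh2 f e U w) v = pv f ((U : ℝ) - v) + e * w := by
  unfold sh2
  rw [pv_add1, pv_shl]
  push_cast
  ring

theorem pv_dd2 (f : List ℚ) (e U w : ℚ) (v : ℝ) :
    pv (dd2 f e U w) v = (pv (pri f) U - pv (pri f) ((U : ℝ) - v)) + v * (e * w) := by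
  unfold dd2
  rw [pv_ladd, pv_ddl]
  simp only [pv]
  push_cast
  ring

theorem pv_sc2 (b : ℚ) (f : List ℚ) (e U w : ℚ) (v : ℝ) :
    pv (sc2 b f e U w) v = sec b (pv (pri f)) (pv (pri (pri f))) ((U : ℝ) - v) U
      + v ^ 2 * (b * e * w / 2) := by
  unfold sc2
  rw [pv_ladd, pv_scl]
  simp only [pv]
  push_cast
  ring

/-- the values of a function which decreases at most at the rate `e` -/
theorem lip_of {f : List ℚ} {e U : ℝ} (h : ∀ u ∈ Icc 0 U, 0 ≤ pv (pd f) u + e) {a b : ℝ}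
    (ha : 0 ≤ a) (hab : a ≤ b) (hb : b ≤ U) : pv f a ≤ pv f b + e * (b - a) := by
  have key := nonneg_of_forward (a := a) (s := b)
    (U := fun z => (pv f z - pv f a) + e * (z - a)) (U' := fun z => (pv (pd f) z - 0) + e * 1)
    (fun z _ => ((hasDerivAt_pv f z).sub (hasDerivAt_const _ _)).add
      (((hasDerivAt_id z).sub_const a).const_mul e))
    (by simp)
    (fun z hz _ => by
      have := h z ⟨ha.trans hz.1, hz.2.trans hb⟩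
      linarith)
    b ⟨hab, le_rfl⟩
  linarith

section conv

variable {f : List ℚ} {e : ℚ} {U Ua : ℚ} {u0 v : ℝ}
  (h : ∀ u ∈ Icc (0 : ℝ) U, 0 ≤ pv (pd f) u + e) (e0 : 0 ≤ e) (hUa : (Ua : ℝ) ≤ u0)
  (hU : u0 ≤ U) (hv : v ∈ Icc 0 u0)

include h e0 hUa hU hv

theorem sh2_le : pv f (u0 - v) ≤ pv (sh2 f e U (U - Ua)) v := by
  have e0' : (0 : ℝ) ≤ e := by exact_mod_cast e0
  have h1 := lip_of h (a := u0 - v) (b := (U : ℝ) - v) (by linarith [hv.2]) (by linarith)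
    (by linarith [hv.1])
  have h2 := mul_le_mul_of_nonneg_left (show (U : ℝ) - v - (u0 - v) ≤ U - Ua by linarith) e0'
  rw [pv_sh2]
  push_cast
  linarith

theorem dd2_le : pv (pri f) u0 - pv (pri f) (u0 - v) ≤ pv (dd2 f e U (U - Ua)) v := by
  have key := nonneg_of_forward (a := 0) (s := v)
    (U := fun v => ((pv (pri f) U - pv (pri f) (U - v)) + v * (e * (U - Ua)))
      - (pv (pri f) u0 - pv (pri f) (u0 - v)))
    (U' := fun v => (pv f (U - v) + e * (U - Ua)) - pv f (u0 - v))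
    (fun z _ => by
      have h1 : HasDerivAt (fun v => (U : ℝ) - v) (-1) z := by
        simpa using (hasDerivAt_id z).const_sub (U : ℝ)
      have h2 : HasDerivAt (fun v => u0 - v) (-1) z := by
        simpa using (hasDerivAt_id z).const_sub u0
      have h3 := ((hasDerivAt_pri f (U - z)).comp z h1).const_sub (pv (pri f) U)
      have h4 := ((hasDerivAt_pri f (u0 - z)).comp z h2).const_sub (pv (pri f) u0)
      refine ((h3.add ((hasDerivAt_id z).mul_const ((e : ℝ) * (U - Ua)))).sub h4).congr_deriv ?_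
      ring)
    (by simp)
    (fun z hz _ => by
      have h1 := sh2_le h e0 hUa hU (v := z) ⟨hz.1, hz.2.trans hv.2⟩
      rw [pv_sh2] at h1
      push_cast at h1
      linarith)
    v ⟨hv.1, le_rfl⟩
  rw [pv_dd2]
  push_cast
  linarith

theorem sc2_le {b : ℚ} (b0 : 0 ≤ b) : sec b (pv (pri f)) (pv (pri (pri f))) (u0 - v) u0
    ≤ pv (sc2 b f e U (U - Ua)) v := by
  have b0' : (0 : ℝ) ≤ b := by exact_mod_cast b0
  have key := nonneg_of_forward (a := 0) (s := v)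
    (U := fun v => (b * (v * pv (pri f) U - (pv (pri (pri f)) U - pv (pri (pri f)) (U - v)))
        + v ^ 2 * (b * e * (U - Ua) / 2))
      - b * (v * pv (pri f) u0 - (pv (pri (pri f)) u0 - pv (pri (pri f)) (u0 - v))))
    (U' := fun v => (b * (pv (pri f) U - pv (pri f) (U - v)) + v * (b * e * (U - Ua)))
      - b * (pv (pri f) u0 - pv (pri f) (u0 - v)))
    (fun z _ => by
      have h1 : HasDerivAt (fun v => (U : ℝ) - v) (-1) z := by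
        simpa using (hasDerivAt_id z).const_sub (U : ℝ)
      have h2 : HasDerivAt (fun v => u0 - v) (-1) z := by
        simpa using (hasDerivAt_id z).const_sub u0
      have h3 := ((hasDerivAt_pri (pri f) (U - z)).comp z h1).const_sub (pv (pri (pri f)) U)
      have h4 := ((hasDerivAt_pri (pri f) (u0 - z)).comp z h2).const_sub (pv (pri (pri f)) u0)
      have h5 := (((hasDerivAt_id z).mul_const (pv (pri f) U)).sub h3).const_mul (b : ℝ)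
      have h6 := (((hasDerivAt_id z).mul_const (pv (pri f) u0)).sub h4).const_mul (b : ℝ)
      have h7 := ((hasDerivAt_id z).pow 2).mul_const ((b : ℝ) * e * (U - Ua) / 2)
      refine ((h5.add h7).sub h6).congr_deriv ?_
      simp only [id]
      push_cast
      ring)
    (by simp)
    (fun z hz _ => by
      have h1 := dd2_le h e0 hUa hU (v := z) ⟨hz.1, hz.2.trans hv.2⟩
      rw [pv_dd2] at h1
      push_cast at h1
      have := mul_le_mul_of_nonneg_left h1 b0'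
      linarith)
    v ⟨hv.1, le_rfl⟩
  rw [pv_sc2]
  unfold sec
  have e1 : (U : ℝ) - (U - v) = v := by ring
  have e2 : u0 - (u0 - v) = v := by ring
  rw [e1, e2]
  push_cast
  linarith

end conv

theorem ue2_eq (f : List ℚ) (e U w : ℚ) : ((ue2 f e U w : ℚ) : ℝ) = pv f U + e * w := by
  unfold ue2
  push_cast
  rw [evq_pv]

theorem ue2_le {f : List ℚ} {e U Ua : ℚ} {u0 : ℝ}
    (h : ∀ u ∈ Icc (0 : ℝ) U, 0 ≤ pv (pd f) u + e) (e0 : 0 ≤ e) (hUa : (Ua : ℝ) ≤ u0)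
    (hU : u0 ≤ U) (h0 : 0 ≤ u0) : pv f u0 ≤ ((ue2 f e U (U - Ua) : ℚ) : ℝ) := by
  have h1 := sh2_le h e0 hUa hU (v := 0) ⟨le_rfl, h0⟩
  rw [pv_sh2, sub_zero, sub_zero] at h1
  rw [ue2_eq]
  exact h1

namespace Zl

variable {z : Zl} {l : Yl} {gk : List ℚ} {m : En} {kp U Ua : ℚ} {dR κ : List ℚ}

set_option maxHeartbeats 8000000 in
/-- **the rows and columns are bounded by the polynomials** -/
theorem row_le {D D' D2 D3 : ℤ} {n n' n2 n3 : ℕ} (h : l.okR U κ D n = true)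
    (hM : z.okN l m D' n' = true) (hz : z.ok l D2 n2 = true) (hl : l.ok D3 n3 = true)
    {Gk Mk : ℝ → ℝ → ℝ} (hF : l.Fx Gk Mk) (hUa : 0 < Ua) (hUaU : Ua ≤ U) (kp0 : 0 ≤ kp)
    (dlt0 : 0 ≤ l.dlt) (dR0 : ∀ v ∈ Icc (0 : ℝ) U, 0 ≤ pv dR v) {k : ℝ}
    (hk : k ∈ Icc (0 : ℝ) 1) (gk0 : 0 ≤ pv gk k) :
    (∀ v ∈ Icc (0 : ℝ) U, 0 ≤ pv2 (z.q1 l gk m kp U (U - Ua) κ) k v ∧
      0 ≤ pv2 (q2 l gk m kp U (U - Ua) κ) k v ∧
      0 ≤ pv2 (z.q3 l gk m kp U (U - Ua) dR κ) k v ∧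
      0 ≤ pv2 (q4 l gk m kp U (U - Ua) dR κ) k v) ∧
    (∀ u0 : ℝ, (Ua : ℝ) ≤ u0 → u0 ≤ U → ∀ v ∈ Icc (0 : ℝ) u0, ∀ Θ ≤ pv dR v,
      ∀ gm : ℝ → ℝ, gm k ≤ pv gk k →
      (l.yf u0).po1 z.y.yg (z.j.jc 0 0 u0) (z.n.jc 1 0 u0) (pv (pri l.μ1)) (pv (pri (pri l.μ1)))
        gm kp u0 (u0 - v) k
        ≤ pv2 (z.q1 l gk m kp U (U - Ua) κ) k v ∧
      (l.yf u0).po2 (pv (pri l.R)) (pv (pri (pri l.R)))
        gm kp u0 (u0 - v) k
        ≤ pv2 (q2 l gk m kp U (U - Ua) κ) k v ∧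
      Θ + (l.yf u0).po1 z.y.yg (z.j.jc 0 0 u0) (z.n.jc 1 0 u0) (pv (pri l.μ1))
          (pv (pri (pri l.μ1))) gm kp u0 (u0 - v) k
        + (l.yf u0).cT z.y.yg (z.j.jc 0 0 u0) (z.n.jc 1 0 u0) u0 (u0 - v) k
        ≤ pv2 (z.q3 l gk m kp U (U - Ua) dR κ) k v ∧
      Θ + (l.yf u0).po2 (pv (pri l.R)) (pv (pri (pri l.R)))
          gm kp u0 (u0 - v) k
        + (l.yf u0).rT (u0 - v) k
        ≤ pv2 (q4 l gk m kp U (U - Ua) dR κ) k v) := by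
  simp only [Yl.okR, Bool.and_eq_true, decide_eq_true_eq] at h
  obtain ⟨h1, h2, h3, h4, h5, h6, h7, h8⟩ := h
  simp only [okN, Bool.and_eq_true, decide_eq_true_eq, List.all_eq_true, and_assoc] at hM
  obtain ⟨e0, hall, hdec⟩ := hM
  have U0 : (0 : ℝ) < U := by exact_mod_cast h1
  have UU : (U : ℝ) ≤ l.Ug := by exact_mod_cast h2
  have Ua0 : (0 : ℝ) < Ua := by exact_mod_cast hUa
  have UaU : (Ua : ℝ) ≤ U := by exact_mod_cast hUaU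
  have z1 : pv l.z U + pv l.dl U ≤ 1 := by
    rw [← evq_pv, ← evq_pv]; exact_mod_cast h3
  have z0 : 0 ≤ pv l.z U := by rw [← evq_pv]; exact_mod_cast h4
  have d0 : 0 ≤ pv l.dl U := by rw [← evq_pv]; exact_mod_cast h5
  have kp0' : (0 : ℝ) ≤ kp := by exact_mod_cast kp0
  have dlt0' : (0 : ℝ) ≤ l.dlt := by exact_mod_cast dlt0
  have mm : ∀ u ∈ Icc (0 : ℝ) U, u ∈ Icc ((0 : ℚ) : ℝ) (l.Ug : ℝ) := fun u hu => by
    refine ⟨?_, hu.2.trans UU⟩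
    simpa using hu.1
  have dec : ∀ {f : List ℚ} {e : ℚ}, Ck1.nn D' n' 0 l.Ug (ladd (pd f) [e]) = true →
      ∀ u ∈ Icc (0 : ℝ) U, 0 ≤ pv (pd f) u + e := fun {f e} hf u hu => by
    have := nn_le hf (mm u hu)
    rwa [pv_add1] at this
  have iμ := dec (hall l.μ1 (by simp [fin]))
  have iR := dec (hall l.R (by simp [fin]))
  have iGm := dec (hall l.Gm (by simp [fin]))
  have iGp := dec (hall l.Gp (by simp [fin]))
  have iVT := dec (hall l.VT (by simp [fin]))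
  have iUT := dec (hall l.UT (by simp [fin]))
  have iWT := dec (hall l.WT (by simp [fin]))
  have iVP := dec (hall z.y.VP (by simp [fin]))
  have iUP := dec (hall z.y.UP (by simp [fin]))
  have iWP := dec (hall z.y.WP (by simp [fin]))
  have djV := hdec (z.j.rV, m.jV) (by simp)
  have djU := hdec (z.j.rU, m.jU) (by simp)
  have dj1 := hdec (z.j.r1, m.j1) (by simp)
  have dnV := hdec (z.n.rV, m.nV) (by simp)
  have dnU := hdec (z.n.rU, m.nU) (by simp)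
  have dn1 := hdec (z.n.r1, m.n1) (by simp)
  have dgV := hdec (l.hV, m.gV) (by simp)
  have dgW := hdec (l.hW, m.gW) (by simp)
  have dg1 := hdec (l.h1, m.g1) (by simp)
  simp only [Bool.and_eq_true, decide_eq_true_eq] at djV djU dj1 dnV dnU dn1 dgV dgW dg1
  simp only [ok, Bool.and_eq_true] at hz
  obtain ⟨hzy, hzj, hzn⟩ := hz
  have fac := fun (w : ℝ) (w0 : 0 < w) (wU : w ≤ l.Ug) =>
    Yz.cols (U := w) (Gk := Gk) (Mk := Mk) (l := l) (y := z.y) (j := z.j) (jn := z.n)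
      (D := D3) (n := n3)
  have fk := fun (w : ℝ) (w0 : 0 < w) (wU : w ≤ l.Ug) => l.ok_of hl hF w0 wU
  have hfU := fk U U0 UU
  have hyU := Yz.ok_of (U := (U : ℝ)) hzy UU
  have hjF : ∀ w : ℝ, 0 < w → w ≤ l.Ug → (z.j.jc 0 0 w).Fk (l.yf w) 0 0 (z.y.yg.P1 (l.yf w))
      z.y.yg.P2 := fun w w0 wU => by
    have := Yv.ok_of (fk w w0 wU) hzy hzj wU le_rfl le_rfl
      (fun u => (Yz.pv_p1 (U := w) u).symm) (fun u => (Yz.pv_p2 u).symm)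
    simpa using this
  have hnF : ∀ w : ℝ, 0 < w → w ≤ l.Ug → (z.n.jc 1 0 w).Fk (l.yf w) 1 0 (fun _ => 0)
      (fun _ => 0) := fun w w0 wU => by
    have := Yv.ok_of (P1 := fun _ => 0) (P2 := fun _ => 0) (fk w w0 wU) hzy hzn wU
      zero_le_one le_rfl (fun u => by simp [pv]) (fun u => by simp [pv])
    simpa using this
  have hjU := hjF U U0 UU
  have hnU := hnF U U0 UU
  -- the kernel
  have hK : Real.exp (pv l.z U + k * pv l.dl U) ≤ pv κ k := by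
    have h := nn_sub h8 (i01 hk)
    rw [pv_e4l] at h
    have ee : pv [evq l.z U, evq l.dl U] k = pv l.z U + k * pv l.dl U := by
      simp only [pv, mul_zero, add_zero]
      rw [evq_pv, evq_pv]
    rw [ee] at h
    refine (exp_le_ex4 ?_ ?_).trans h
    · have := mul_nonneg hk.1 d0
      linarith
    · have := mul_le_mul_of_nonneg_right hk.2 d0
      linarith
  have κ0 : 0 ≤ pv κ k := (Real.exp_pos _).le.trans hK
  have l0 : 0 ≤ 1 + 3 / 5 * k := by linarith [hk.1]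
  have vE : pv (Xl.El κ) k = (1 + 3 / 5 * k) * pv κ k := by
    unfold Xl.El
    rw [pv_lmul]
    simp only [pv]
    push_cast
    ring
  have Ek0 : 0 ≤ pv (Xl.El κ) k := by rw [vE]; exact mul_nonneg l0 κ0
  have mUU : (U : ℝ) ∈ Icc (0 : ℝ) U := ⟨U0.le, le_rfl⟩
  have v1 : ∀ v : ℝ, pv [1] v = 1 := fun v => by simp [pv]
  have vc : ∀ (c : ℚ) (v : ℝ), pv [c] v = (c : ℝ) := fun c v => by simp [pv]
  have v0 : pv2 ([] : List (List ℚ)) k = fun _ => 0 := by funext t; simp [pv2]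
  have b0 : 0 ≤ l.b1 := by
    have : (0 : ℝ) ≤ l.b1 := hfU.b0
    exact_mod_cast this
  have b0' : (0 : ℝ) ≤ l.b1 := hfU.b0
  -- the values of the lists
  have vc3 : ∀ v : ℝ, pv (z.c3 l m U (U - Ua)) v
      = pv (dd2 z.j.rV m.jV U (U - Ua)) v * pv (sh2 l.Gm m.e U (U - Ua)) v
        + (pv (dd2 z.j.rU m.jU U (U - Ua)) v * pv (sh2 l.Gp m.e U (U - Ua)) v
          + pv (sh2 z.y.VP m.e U (U - Ua)) v) := fun v => by
    unfold c3
    rw [pv_ladd, pv_ladd, pv_lmul, pv_lmul]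
  have vn3 : ∀ v : ℝ, pv (z.n3 l m U (U - Ua)) v
      = pv (dd2 z.n.rV m.nV U (U - Ua)) v * pv (sh2 l.Gm m.e U (U - Ua)) v
        + (1 + pv (dd2 z.n.rU m.nU U (U - Ua)) v) * pv (sh2 l.Gp m.e U (U - Ua)) v :=
    fun v => by
    unfold Zl.n3
    rw [pv_ladd, pv_lmul, pv_lmul, pv_ladd, v1]
  have vw4 : ∀ v : ℝ, pv (w4 l m U (U - Ua)) v
      = pv (dd2 l.hV m.gV U (U - Ua)) v * pv (sh2 l.Gm m.e U (U - Ua)) v
        + ((1 + l.dlt + pv (dd2 l.hW m.gW U (U - Ua)) v) * pv (sh2 l.Gp m.e U (U - Ua)) v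
          + pv (sh2 l.VT m.e U (U - Ua)) v) := fun v => by
    unfold w4
    rw [pv_ladd, pv_ladd, pv_lmul, pv_lmul, pv_ladd, vc]
    push_cast
    ring
  have p1 : ∀ v, pv2 (z.q1 l gk m kp U (U - Ua) κ) k v
      = pv κ k * pv (sc2 l.b1 l.μ1 m.e U (U - Ua)) v
        + (pv (Xl.El κ) k * pv (dd2 z.n.r1 m.n1 U (U - Ua)) v
          + (pv gk k + (((ue2 z.y.WP m.e U (U - Ua) : ℚ) + (ue2 z.y.UP m.e U (U - Ua) : ℚ) + kp)
            + pv (dd2 z.j.r1 m.j1 U (U - Ua)) v))) := fun v => by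
    unfold q1
    simp only [pv2_lad2, pv2_otr, pv2_one, pv_ladd, vc]
    push_cast
    ring
  have p2 : ∀ v, pv2 (q2 l gk m kp U (U - Ua) κ) k v
      = pv κ k * (ue2 l.WT m.e U (U - Ua) : ℚ)
        + (pv (Xl.El κ) k * (ue2 l.UT m.e U (U - Ua) : ℚ)
          + (pv gk k + (kp + (pv (sc2 l.b1 l.R m.e U (U - Ua)) v
            + pv (dd2 l.h1 m.g1 U (U - Ua)) v)))) :=
    fun v => by
    unfold q2
    simp only [pv2_lad2, pv2_otr, pv2_one, pv_ladd, vc]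
    push_cast
    ring
  have p3 : ∀ v, pv2 (z.q3 l gk m kp U (U - Ua) dR κ) k v
      = (pv dR v + pv (z.c3 l m U (U - Ua)) v)
        + (pv (Xl.El κ) k * pv (z.n3 l m U (U - Ua)) v
          + pv2 (z.q1 l gk m kp U (U - Ua) κ) k v) := fun v => by
    unfold q3
    simp only [pv2_lad2, pv2_otr, pv2_one, pv_ladd]
  have p4 : ∀ v, pv2 (q4 l gk m kp U (U - Ua) dR κ) k v
      = pv dR v + (((1 + 3 / 5 * k) * (v / U * pv (w4 l m U (U - Ua)) v)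
          + pv (Xl.El κ) k * ((1 - v / U) * pv (w4 l m U (U - Ua)) v))
        + pv2 (q2 l gk m kp U (U - Ua) κ) k v) := fun v => by
    unfold q4
    simp only [pv2_lad2, pv2_otr, pv2_one, pv_lmul]
    congr 2
    simp only [pv]
    push_cast
    ring
  -- bounds for all ends
  have cv := fun (u0 : ℝ) (hua : (Ua : ℝ) ≤ u0) (huU : u0 ≤ U) (v : ℝ) (hv : v ∈ Icc 0 u0) => by
    have u00 : 0 < u0 := Ua0.trans_le hua
    exact (⟨⟨sc2_le iμ e0 hua huU hv b0, sc2_le iR e0 hua huU hv b0,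
        sh2_le iGm e0 hua huU hv, sh2_le iGp e0 hua huU hv, sh2_le iVT e0 hua huU hv,
        sh2_le iVP e0 hua huU hv⟩,
      ⟨ue2_le iUT e0 hua huU u00.le, ue2_le iWT e0 hua huU u00.le, ue2_le iUP e0 hua huU u00.le,
        ue2_le iWP e0 hua huU u00.le⟩,
      ⟨dd2_le (dec djV.2) djV.1 hua huU hv, dd2_le (dec djU.2) djU.1 hua huU hv,
        dd2_le (dec dj1.2) dj1.1 hua huU hv⟩,
      ⟨dd2_le (dec dnV.2) dnV.1 hua huU hv, dd2_le (dec dnU.2) dnU.1 hua huU hv,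
        dd2_le (dec dn1.2) dn1.1 hua huU hv⟩,
      dd2_le (dec dgV.2) dgV.1 hua huU hv, dd2_le (dec dgW.2) dgW.1 hua huU hv,
        dd2_le (dec dg1.2) dg1.1 hua huU hv⟩ :
      (sec l.b1 (pv (pri l.μ1)) (pv (pri (pri l.μ1))) (u0 - v) u0
          ≤ pv (sc2 l.b1 l.μ1 m.e U (U - Ua)) v ∧
        sec l.b1 (pv (pri l.R)) (pv (pri (pri l.R))) (u0 - v) u0
          ≤ pv (sc2 l.b1 l.R m.e U (U - Ua)) v ∧
        pv l.Gm (u0 - v) ≤ pv (sh2 l.Gm m.e U (U - Ua)) v ∧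
        pv l.Gp (u0 - v) ≤ pv (sh2 l.Gp m.e U (U - Ua)) v ∧
        pv l.VT (u0 - v) ≤ pv (sh2 l.VT m.e U (U - Ua)) v ∧
        pv z.y.VP (u0 - v) ≤ pv (sh2 z.y.VP m.e U (U - Ua)) v) ∧
      (pv l.UT u0 ≤ ((ue2 l.UT m.e U (U - Ua) : ℚ) : ℝ) ∧
        pv l.WT u0 ≤ ((ue2 l.WT m.e U (U - Ua) : ℚ) : ℝ) ∧
        pv z.y.UP u0 ≤ ((ue2 z.y.UP m.e U (U - Ua) : ℚ) : ℝ) ∧
        pv z.y.WP u0 ≤ ((ue2 z.y.WP m.e U (U - Ua) : ℚ) : ℝ)) ∧
      (pv (pri z.j.rV) u0 - pv (pri z.j.rV) (u0 - v) ≤ pv (dd2 z.j.rV m.jV U (U - Ua)) v ∧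
        pv (pri z.j.rU) u0 - pv (pri z.j.rU) (u0 - v) ≤ pv (dd2 z.j.rU m.jU U (U - Ua)) v ∧
        pv (pri z.j.r1) u0 - pv (pri z.j.r1) (u0 - v) ≤ pv (dd2 z.j.r1 m.j1 U (U - Ua)) v) ∧
      (pv (pri z.n.rV) u0 - pv (pri z.n.rV) (u0 - v) ≤ pv (dd2 z.n.rV m.nV U (U - Ua)) v ∧
        pv (pri z.n.rU) u0 - pv (pri z.n.rU) (u0 - v) ≤ pv (dd2 z.n.rU m.nU U (U - Ua)) v ∧
        pv (pri z.n.r1) u0 - pv (pri z.n.r1) (u0 - v) ≤ pv (dd2 z.n.r1 m.n1 U (U - Ua)) v) ∧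
      pv (pri l.hV) u0 - pv (pri l.hV) (u0 - v) ≤ pv (dd2 l.hV m.gV U (U - Ua)) v ∧
        pv (pri l.hW) u0 - pv (pri l.hW) (u0 - v) ≤ pv (dd2 l.hW m.gW U (U - Ua)) v ∧
        pv (pri l.h1) u0 - pv (pri l.h1) (u0 - v) ≤ pv (dd2 l.h1 m.g1 U (U - Ua)) v)
  -- signs of the functions of a cell
  have sg := fun (u0 : ℝ) (u00 : 0 < u0) (huU : u0 ≤ U) (v : ℝ) (hv : v ∈ Icc 0 u0) => by
    have hf := fk u0 u00 (huU.trans UU)
    have hy := Yz.ok_of (U := u0) hzy (huU.trans UU)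
    have hj := hjF u0 u00 (huU.trans UU)
    have hn := hnF u0 u00 (huU.trans UU)
    have mu : u0 ∈ Icc (0 : ℝ) (l.yf u0).U := ⟨u00.le, le_rfl⟩
    have ms : u0 - v ∈ Icc (0 : ℝ) (l.yf u0).U :=
      ⟨by linarith [hv.2], show u0 - v ≤ u0 by linarith [hv.1]⟩
    obtain ⟨-, -, -, -, -, Gp0, Gm0⟩ := hf.nng ms
    exact (⟨⟨Gp0, Gm0, hf.VT0 _ ms, hy.V0 _ ms⟩,
      ⟨hf.UT0 _ mu, hf.WT0 _ mu, hy.U0 _ mu, hy.W0 _ mu⟩,
      ⟨hj.v0 _ ms, by simpa using hj.vU _ ms, hj.i0 _ ms⟩,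
      ⟨hn.v0 _ ms, by simpa using hn.vU _ ms, hn.i0 _ ms⟩,
      hf.gV0 _ ms, hf.gWd _ ms, hf.g10 _ ms⟩ :
      (0 ≤ pv l.Gp (u0 - v) ∧ 0 ≤ pv l.Gm (u0 - v) ∧ 0 ≤ pv l.VT (u0 - v) ∧
        0 ≤ pv z.y.VP (u0 - v)) ∧
      (0 ≤ pv l.UT u0 ∧ 0 ≤ pv l.WT u0 ∧ 0 ≤ pv z.y.UP u0 ∧ 0 ≤ pv z.y.WP u0) ∧
      (0 ≤ (z.j.jc 0 0 u0).hV (u0 - v) ∧ 0 ≤ (z.j.jc 0 0 u0).hU (u0 - v) ∧
        0 ≤ (z.j.jc 0 0 u0).h1 (u0 - v)) ∧
      (0 ≤ (z.n.jc 1 0 u0).hV (u0 - v) ∧ 1 ≤ (z.n.jc 1 0 u0).hU (u0 - v) ∧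
        0 ≤ (z.n.jc 1 0 u0).h1 (u0 - v)) ∧
      0 ≤ (l.yf u0).gV (u0 - v) ∧ (l.dlt : ℝ) ≤ (l.yf u0).gW (u0 - v) ∧
        0 ≤ (l.yf u0).g1 (u0 - v))
  have ejV : ∀ u0 v : ℝ, (z.j.jc 0 0 u0).hV (u0 - v)
      = pv (pri z.j.rV) u0 - pv (pri z.j.rV) (u0 - v) := fun _ _ => rfl
  have ejU : ∀ u0 v : ℝ, (z.j.jc 0 0 u0).hU (u0 - v)
      = pv (pri z.j.rU) u0 - pv (pri z.j.rU) (u0 - v) := fun u0 v => by
    show ((0 : ℚ) : ℝ) + (pv (pri z.j.rU) u0 - pv (pri z.j.rU) (u0 - v)) = _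
    push_cast
    ring
  have ej1 : ∀ u0 v : ℝ, (z.j.jc 0 0 u0).h1 (u0 - v)
      = pv (pri z.j.r1) u0 - pv (pri z.j.r1) (u0 - v) := fun _ _ => rfl
  have enV : ∀ u0 v : ℝ, (z.n.jc 1 0 u0).hV (u0 - v)
      = pv (pri z.n.rV) u0 - pv (pri z.n.rV) (u0 - v) := fun _ _ => rfl
  have enU : ∀ u0 v : ℝ, (z.n.jc 1 0 u0).hU (u0 - v)
      = 1 + (pv (pri z.n.rU) u0 - pv (pri z.n.rU) (u0 - v)) := fun u0 v => by
    show ((1 : ℚ) : ℝ) + (pv (pri z.n.rU) u0 - pv (pri z.n.rU) (u0 - v)) = _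
    push_cast
    ring
  have en1 : ∀ u0 v : ℝ, (z.n.jc 1 0 u0).h1 (u0 - v)
      = pv (pri z.n.r1) u0 - pv (pri z.n.r1) (u0 - v) := fun _ _ => rfl
  have egV : ∀ u0 v : ℝ, (l.yf u0).gV (u0 - v)
      = pv (pri l.hV) u0 - pv (pri l.hV) (u0 - v) := fun _ _ => rfl
  have egW : ∀ u0 v : ℝ, (l.yf u0).gW (u0 - v)
      = l.dlt + (pv (pri l.hW) u0 - pv (pri l.hW) (u0 - v)) := fun _ _ => rfl
  have eg1 : ∀ u0 v : ℝ, (l.yf u0).g1 (u0 - v)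
      = pv (pri l.h1) u0 - pv (pri l.h1) (u0 - v) := fun _ _ => rfl
  have μ10 : ∀ w ∈ Icc 0 (U : ℝ), 0 ≤ pv l.μ1 w := fun w hw => (hfU.nng hw).1.1
  have R0 : ∀ w ∈ Icc 0 (U : ℝ), 0 ≤ pv l.R w := fun w hw => (hfU.nng hw).1.2.2.2.2
  have nsm : ∀ u0 : ℝ, u0 ≤ U → ∀ v ∈ Icc (0 : ℝ) u0,
      0 ≤ sec l.b1 (pv (pri l.μ1)) (pv (pri (pri l.μ1))) (u0 - v) u0 := fun u0 huU v hv =>
    sec_nonneg (U := u0) (fun w _ => hasDerivAt_pri _ _)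
      (fun w _ => hasDerivAt_pri _ _) b0' (fun w hw => μ10 w ⟨hw.1, hw.2.trans huU⟩)
      (by linarith [hv.2]) (by linarith [hv.1]) le_rfl
  have nsR : ∀ u0 : ℝ, u0 ≤ U → ∀ v ∈ Icc (0 : ℝ) u0,
      0 ≤ sec l.b1 (pv (pri l.R)) (pv (pri (pri l.R))) (u0 - v) u0 := fun u0 huU v hv =>
    sec_nonneg (U := u0) (fun w _ => hasDerivAt_pri _ _)
      (fun w _ => hasDerivAt_pri _ _) b0' (fun w hw => R0 w ⟨hw.1, hw.2.trans huU⟩)
      (by linarith [hv.2]) (by linarith [hv.1]) le_rfl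
  -- signs at the end `U`
  have nn' := fun (v : ℝ) (hv : v ∈ Icc (0 : ℝ) U) => by
    obtain ⟨⟨a1, a2, a3, a4, a5, a6⟩, ⟨b1, b2, b3, b4⟩, ⟨c1, c2, c3⟩, ⟨d1, d2, d3⟩, f1, f2,
      f3⟩ := cv U UaU le_rfl v hv
    obtain ⟨⟨s1, s2, s3, s4⟩, ⟨t1, t2, t3, t4⟩, ⟨w1, w2, w3⟩, ⟨x1, x2, x3⟩, y1, y2, y3⟩ :=
      sg U U0 le_rfl v hv
    rw [ejV] at w1
    rw [ejU] at w2
    rw [ej1] at w3
    rw [enV] at x1
    rw [enU] at x2
    rw [en1] at x3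
    rw [egV] at y1
    rw [egW] at y2
    rw [eg1] at y3
    exact (⟨⟨(nsm U le_rfl v hv).trans a1, (nsR U le_rfl v hv).trans a2, s2.trans a3, s1.trans a4,
        s3.trans a5, s4.trans a6⟩,
      ⟨t1.trans b1, t2.trans b2, t3.trans b3, t4.trans b4⟩,
      ⟨w1.trans c1, w2.trans c2, w3.trans c3⟩,
      ⟨x1.trans d1, by linarith, x3.trans d3⟩, y1.trans f1, by linarith, y3.trans f3⟩ :
      (0 ≤ pv (sc2 l.b1 l.μ1 m.e U (U - Ua)) v ∧ 0 ≤ pv (sc2 l.b1 l.R m.e U (U - Ua)) v ∧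
        0 ≤ pv (sh2 l.Gm m.e U (U - Ua)) v ∧ 0 ≤ pv (sh2 l.Gp m.e U (U - Ua)) v ∧
        0 ≤ pv (sh2 l.VT m.e U (U - Ua)) v ∧ 0 ≤ pv (sh2 z.y.VP m.e U (U - Ua)) v) ∧
      ((0 : ℝ) ≤ ((ue2 l.UT m.e U (U - Ua) : ℚ) : ℝ) ∧
        (0 : ℝ) ≤ ((ue2 l.WT m.e U (U - Ua) : ℚ) : ℝ) ∧
        (0 : ℝ) ≤ ((ue2 z.y.UP m.e U (U - Ua) : ℚ) : ℝ) ∧
        (0 : ℝ) ≤ ((ue2 z.y.WP m.e U (U - Ua) : ℚ) : ℝ)) ∧
      (0 ≤ pv (dd2 z.j.rV m.jV U (U - Ua)) v ∧ 0 ≤ pv (dd2 z.j.rU m.jU U (U - Ua)) v ∧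
        0 ≤ pv (dd2 z.j.r1 m.j1 U (U - Ua)) v) ∧
      (0 ≤ pv (dd2 z.n.rV m.nV U (U - Ua)) v ∧ 0 ≤ pv (dd2 z.n.rU m.nU U (U - Ua)) v ∧
        0 ≤ pv (dd2 z.n.r1 m.n1 U (U - Ua)) v) ∧
      0 ≤ pv (dd2 l.hV m.gV U (U - Ua)) v ∧ 0 ≤ pv (dd2 l.hW m.gW U (U - Ua)) v ∧
        0 ≤ pv (dd2 l.h1 m.g1 U (U - Ua)) v)
  have q10 : ∀ v ∈ Icc (0 : ℝ) U, 0 ≤ pv2 (z.q1 l gk m kp U (U - Ua) κ) k v := fun v hv => by
    obtain ⟨⟨a1, -⟩, ⟨-, -, b3, b4⟩, ⟨-, -, c3⟩, ⟨-, -, d3⟩, -⟩ := nn' v hv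
    rw [p1]
    have := mul_nonneg κ0 a1
    have := mul_nonneg Ek0 d3
    linarith
  have q20 : ∀ v ∈ Icc (0 : ℝ) U, 0 ≤ pv2 (q2 l gk m kp U (U - Ua) κ) k v := fun v hv => by
    obtain ⟨⟨-, a2, -⟩, ⟨b1, b2, -, -⟩, -, -, -, -, f3⟩ := nn' v hv
    rw [p2]
    have := mul_nonneg κ0 b2
    have := mul_nonneg Ek0 b1
    linarith
  have c30 : ∀ v ∈ Icc (0 : ℝ) U, 0 ≤ pv (z.c3 l m U (U - Ua)) v := fun v hv => by
    obtain ⟨⟨-, -, a3, a4, -, a6⟩, -, ⟨c1, c2, -⟩, -, -⟩ := nn' v hv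
    rw [vc3]
    exact add_nonneg (mul_nonneg c1 a3) (add_nonneg (mul_nonneg c2 a4) a6)
  have n30 : ∀ v ∈ Icc (0 : ℝ) U, 0 ≤ pv (z.n3 l m U (U - Ua)) v := fun v hv => by
    obtain ⟨⟨-, -, a3, a4, -⟩, -, -, ⟨d1, d2, -⟩, -⟩ := nn' v hv
    rw [vn3]
    exact add_nonneg (mul_nonneg d1 a3) (mul_nonneg (by linarith) a4)
  have w40 : ∀ v ∈ Icc (0 : ℝ) U, 0 ≤ pv (w4 l m U (U - Ua)) v := fun v hv => by
    obtain ⟨⟨-, -, a3, a4, a5, -⟩, -, -, -, f1, f2, -⟩ := nn' v hv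
    rw [vw4]
    exact add_nonneg (mul_nonneg f1 a3) (add_nonneg (mul_nonneg (by linarith) a4) a5)
  constructor
  · intro v hv
    have hvU : v / U ∈ Icc (0 : ℝ) 1 := ⟨div_nonneg hv.1 U0.le, (div_le_one U0).2 hv.2⟩
    refine ⟨q10 v hv, q20 v hv, ?_, ?_⟩
    · rw [p3]
      have := mul_nonneg Ek0 (n30 v hv)
      have := c30 v hv
      have := dR0 v hv
      have := q10 v hv
      linarith
    · rw [p4]
      have := mul_nonneg l0 (mul_nonneg hvU.1 (w40 v hv))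
      have := mul_nonneg Ek0 (mul_nonneg (by linarith [hvU.2] : 0 ≤ 1 - v / U) (w40 v hv))
      have := dR0 v hv
      have := q20 v hv
      linarith
  · intro u0 hua huU v hv Θ hΘ gm hgm
    have u00 : 0 < u0 := Ua0.trans_le hua
    have hvU : v ∈ Icc (0 : ℝ) U := ⟨hv.1, hv.2.trans huU⟩
    have us0 : 0 ≤ u0 - v := by linarith [hv.2]
    have usU : u0 - v ≤ u0 := by linarith [hv.1]
    have mu : u0 ∈ Icc (0 : ℝ) (l.yf U).U := ⟨u00.le, huU⟩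
    have ms : u0 - v ∈ Icc (0 : ℝ) (l.yf U).U := ⟨us0, usU.trans huU⟩
    have mUU' : (U : ℝ) ∈ Icc (0 : ℝ) (l.yf U).U := mUU
    -- the gauges
    have hE : (l.yf u0).Eg k u0 ≤ pv (Xl.El κ) k := by
      have a1 := hfU.Eg_mono hk mu mUU' huU
      have a2 : (l.yf (U : ℝ)).Eg k U = (1 + 3 / 5 * k)
        * Real.exp (pv l.z U + k * pv l.dl U) := rfl
      rw [a2] at a1
      rw [vE]
      exact a1.trans (mul_le_mul_of_nonneg_left hK l0)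
    have E0 : 0 ≤ (l.yf u0).Eg k u0 := mul_nonneg l0 (Real.exp_pos _).le
    have hK0 : (l.yf u0).ka k u0 ≤ pv κ k := by
      have a1 := hfU.Eg_mono hk mu mUU' huU
      have a2 : (l.yf (U : ℝ)).Eg k u0 = (1 + 3 / 5 * k) * (l.yf u0).ka k u0 := rfl
      have a3 : (l.yf (U : ℝ)).Eg k U = (1 + 3 / 5 * k)
        * Real.exp (pv l.z U + k * pv l.dl U) := rfl
      rw [a2, a3] at a1
      have l1 : 0 < 1 + 3 / 5 * k := by linarith [hk.1]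
      exact (le_of_mul_le_mul_left a1 l1).trans hK
    have K00 : 0 ≤ (l.yf u0).ka k u0 := (Real.exp_pos _).le
    have hEs : (l.yf u0).Eg k (u0 - v) ≤ (1 + 3 / 5 * k) * (v / U + (1 - v / U) * pv κ k) := by
      have Uv : u0 - v ≤ U - v := by linarith
      have Uv0 : 0 ≤ (U : ℝ) - v := by linarith
      have Uv1 : (U : ℝ) - v ≤ U := by linarith [hv.1]
      have b1 := hfU.Eg_mono hk ms (⟨Uv0, Uv1⟩ : (U : ℝ) - v ∈ Icc (0 : ℝ) U) Uv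
      refine b1.trans ?_
      have a1 := cvx_le h6 Uv0 U0 Uv1
      have a2 := cvx_le h7 Uv0 U0 Uv1
      simp only [pv_ladd] at a2
      have r0 : ((U : ℝ) - v) / U ∈ Icc (0 : ℝ) 1 :=
        ⟨div_nonneg Uv0 U0.le, (div_le_one U0).2 Uv1⟩
      have a3 : pv l.z ((U : ℝ) - v) + k * pv l.dl ((U : ℝ) - v)
          ≤ ((U : ℝ) - v) / U * (pv l.z U + k * pv l.dl U) := by
        have b1 := mul_le_mul_of_nonneg_left a1 (by linarith [hk.2] : 0 ≤ 1 - k)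
        have b2 := mul_le_mul_of_nonneg_left a2 hk.1
        calc _ = (1 - k) * pv l.z ((U : ℝ) - v) + k * (pv l.z ((U : ℝ) - v)
              + pv l.dl ((U : ℝ) - v)) := by ring
          _ ≤ _ := add_le_add b1 b2
          _ = _ := by ring
      have a4 := (Real.exp_le_exp.2 a3).trans (exp_chord r0)
      have a5 := mul_le_mul_of_nonneg_left hK r0.1
      have e1 : 1 - ((U : ℝ) - v) / U = v / U := by field_simp; ring
      have e2 : ((U : ℝ) - v) / U = 1 - v / U := by field_simp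
      rw [e1] at a4
      rw [e2] at a4 a5
      have e3 : (l.yf (U : ℝ)).Eg k ((U : ℝ) - v) = (1 + 3 / 5 * k)
          * Real.exp (pv l.z ((U : ℝ) - v) + k * pv l.dl ((U : ℝ) - v)) := rfl
      rw [e3]
      exact mul_le_mul_of_nonneg_left (by linarith) l0
    have Es0 : 0 ≤ (l.yf u0).Eg k (u0 - v) := mul_nonneg l0 (Real.exp_pos _).le
    obtain ⟨⟨a1, a2, a3, a4, a5, a6⟩, ⟨b1, b2, b3, b4⟩, ⟨c1, c2, c3'⟩, ⟨d1, d2, d3⟩, f1, f2,
      f3⟩ := cv u0 hua huU v hv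
    obtain ⟨⟨s1, s2, s3, s4⟩, ⟨t1, t2, t3, t4⟩, ⟨w1, w2, w3⟩, ⟨x1, x2, x3⟩, y1, y2, y3⟩ :=
      sg u0 u00 huU v hv
    obtain ⟨⟨A1, A2, A3, A4, A5, A6⟩, ⟨B1, B2, B3, B4⟩, ⟨C1, C2, C3⟩, ⟨D1, D2, D3⟩, F1, F2,
      F3⟩ := nn' v hvU
    rw [← ejV] at c1
    rw [← ejU] at c2
    rw [← ej1] at c3'
    rw [← enV] at d1
    rw [← en1] at d3
    rw [← egV] at f1
    rw [← eg1] at f3
    have d2' : (z.n.jc 1 0 u0).hU (u0 - v) ≤ 1 + pv (dd2 z.n.rU m.nU U (U - Ua)) v := by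
      rw [enU]; linarith
    have f2' : (l.yf u0).gW (u0 - v) ≤ l.dlt + pv (dd2 l.hW m.gW U (U - Ua)) v := by
      rw [egW]; linarith
    have r1 : (l.yf u0).po1 z.y.yg (z.j.jc 0 0 u0) (z.n.jc 1 0 u0) (pv (pri l.μ1))
        (pv (pri (pri l.μ1))) gm kp u0 (u0 - v) k
        ≤ pv2 (z.q1 l gk m kp U (U - Ua) κ) k v := by
      rw [p1]
      show pv z.y.WP u0 + (l.yf u0).ka k u0
          * sec l.b1 (pv (pri l.μ1)) (pv (pri (pri l.μ1))) (u0 - v) u0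
        + (((z.j.jc 0 0 u0).h1 (u0 - v) + pv z.y.UP u0
          + (l.yf u0).Eg k u0 * (z.n.jc 1 0 u0).h1 (u0 - v))
          + (gm k + kp)) ≤ _
      have c1 := mul_le_mul hK0 a1 (nsm u0 huU v hv) κ0
      have c2 := mul_le_mul hE d3 x3 Ek0
      linarith
    have r2 : (l.yf u0).po2 (pv (pri l.R)) (pv (pri (pri l.R)))
        gm kp u0 (u0 - v) k
        ≤ pv2 (q2 l gk m kp U (U - Ua) κ) k v := by
      rw [p2]
      show (l.yf u0).ka k u0 * pv l.WT u0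
          + sec l.b1 (pv (pri l.R)) (pv (pri (pri l.R))) (u0 - v) u0
        + (((l.yf u0).Eg k u0 * pv l.UT u0 + (l.yf u0).g1 (u0 - v))
          + (gm k + kp)) ≤ _
      have c1 := mul_le_mul hK0 b2 t2 κ0
      have c2 := mul_le_mul hE b1 t1 Ek0
      linarith
    refine ⟨r1, r2, ?_, ?_⟩
    · rw [p3]
      have i1 : (z.j.jc 0 0 u0).hV (u0 - v) * pv l.Gm (u0 - v)
          + (z.j.jc 0 0 u0).hU (u0 - v) * pv l.Gp (u0 - v) + pv z.y.VP (u0 - v)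
          ≤ pv (z.c3 l m U (U - Ua)) v := by
        rw [vc3]
        have i1 := mul_le_mul c1 a3 s2 C1
        have i2 := mul_le_mul c2 a4 s1 C2
        linarith
      have i2 : (z.n.jc 1 0 u0).hV (u0 - v) * pv l.Gm (u0 - v)
          + (z.n.jc 1 0 u0).hU (u0 - v) * pv l.Gp (u0 - v) ≤ pv (z.n3 l m U (U - Ua)) v := by
        rw [vn3]
        have i1 := mul_le_mul d1 a3 s2 D1
        have i2 := mul_le_mul d2' a4 s1 (by linarith)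
        linarith
      have i3 : 0 ≤ (z.n.jc 1 0 u0).hV (u0 - v) * pv l.Gm (u0 - v)
          + (z.n.jc 1 0 u0).hU (u0 - v) * pv l.Gp (u0 - v) :=
        add_nonneg (mul_nonneg x1 s2) (mul_nonneg (by linarith) s1)
      have i4 := mul_le_mul hE i2 i3 Ek0
      have e : (l.yf u0).cT z.y.yg (z.j.jc 0 0 u0) (z.n.jc 1 0 u0) u0 (u0 - v) k
          = ((z.j.jc 0 0 u0).hV (u0 - v) * pv l.Gm (u0 - v)
            + (z.j.jc 0 0 u0).hU (u0 - v) * pv l.Gp (u0 - v) + pv z.y.VP (u0 - v))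
          + (l.yf u0).Eg k u0 * ((z.n.jc 1 0 u0).hV (u0 - v) * pv l.Gm (u0 - v)
            + (z.n.jc 1 0 u0).hU (u0 - v) * pv l.Gp (u0 - v)) := rfl
      rw [e]
      linarith
    · rw [p4]
      have i1 : (l.yf u0).gV (u0 - v) * pv l.Gm (u0 - v)
          + (1 + (l.yf u0).gW (u0 - v)) * pv l.Gp (u0 - v) + pv l.VT (u0 - v)
          ≤ pv (w4 l m U (U - Ua)) v := by
        rw [vw4]
        have i1 := mul_le_mul f1 a3 s2 F1
        have i2 := mul_le_mul (show 1 + (l.yf u0).gW (u0 - v)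
          ≤ 1 + l.dlt + pv (dd2 l.hW m.gW U (U - Ua)) v by linarith) a4 s1 (by linarith)
        linarith
      have i3 : 0 ≤ (l.yf u0).gV (u0 - v) * pv l.Gm (u0 - v)
          + (1 + (l.yf u0).gW (u0 - v)) * pv l.Gp (u0 - v) + pv l.VT (u0 - v) :=
        add_nonneg (add_nonneg (mul_nonneg y1 s2) (mul_nonneg (by linarith) s1)) s3
      have hvU' : v / U ∈ Icc (0 : ℝ) 1 := ⟨div_nonneg hv.1 U0.le, (div_le_one U0).2 hvU.2⟩
      have e3 : 0 ≤ (1 + 3 / 5 * k) * (v / U + (1 - v / U) * pv κ k) :=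
        mul_nonneg l0 (add_nonneg hvU'.1 (mul_nonneg (by linarith [hvU'.2]) κ0))
      have i4 := mul_le_mul hEs i1 i3 e3
      have e2' : (1 + 3 / 5 * k) * (v / U + (1 - v / U) * pv κ k) * pv (w4 l m U (U - Ua)) v
          = (1 + 3 / 5 * k) * (v / U * pv (w4 l m U (U - Ua)) v)
            + pv (Xl.El κ) k * ((1 - v / U) * pv (w4 l m U (U - Ua)) v) := by
        rw [vE]
        ring
      rw [e2'] at i4
      have e : (l.yf u0).rT (u0 - v) k = (l.yf u0).Eg k (u0 - v)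
          * ((l.yf u0).gV (u0 - v) * pv l.Gm (u0 - v)
          + (1 + (l.yf u0).gW (u0 - v)) * pv l.Gp (u0 - v) + pv l.VT (u0 - v)) := rfl
      rw [e]
      linarith

end Zl

end Pool.Agent.RX.RCN.K
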