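import Pool.Agent.RX.RCN.DrT
import Pool.Agent.RX.RCN.PqC
import Pool.Agent.RX.RCN.XlG

/-! The inequality of the pairs: numeric cells which cover many cells of the analysis, second form
of the closures (MP_73ccd0_lc, route M). -/

namespace Pool.Agent.RX.RCN.K

open Set Finset MeasureTheory Pool.Agent.RX.RCRSHalf Pool.Agent.RX.RCG Pool.Agent.RX.RCG.Ct
open Pool.Agent.RX.RCN.Ker Pool.Agent.RX.RCRS Pool.Agent.RX.RCM9 Pool.Agent.RX.RCM9.Bern Pool.Agent.RX.RCM9.Pk
open Pool.Agent.RX.RCN.Ck1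

set_option linter.unusedSectionVars false

/-- the lists and the numeric cell of a cell of the analysis -/
structure CovS (T : T1l) (g : MDat) (gr : ℕ → MGr) (N : ℕ) (w : Pg) (Ug : ℚ) (kp : List ℚ)
    (GR : List (List ℚ)) (nb la : List ℚ) (Uo : ℚ) (i : ℕ) (y : Cq) (l : Yl) (k : Nl) (z : Zl)
    (m : En) (d : Dl) (gR : List ℚ) : Prop where
  lg : GoodB l k gR g T.bB GR
  zo : ∃ D n, z.ok l D n = true
  zn : ∃ D n, z.okN l m D n = true
  dl : ∃ D n, d.ok l k nb la D n = true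
  yo : ∃ D n, y.ok l z m GR T N w Ug kp D n = true
  yd : ∃ D n, y.okD d D n = true
  kp0 : 0 ≤ d.kp
  CU : d.Cv ≤ Uo
  ab : ∃ a b : ℚ, 0 ≤ a ∧ b ≤ btq ∧ a * N ≤ btq * i ∧ btq * (i + 1) ≤ b * N ∧
    d.Ca ≤ evq T.Cl a ∧ evq T.Cl b ≤ d.Cv
  hα : y.c.α * N ≤ btq * i
  hτ : btq * (i + 1) ≤ y.c.τ * N
  em : (gr i).m = l.m
  eq : (gr i).q = l.q

/-- a numeric cell covers the cell `i` of the analysis -/
def CovR (T : T1l) (g : MDat) (gr : ℕ → MGr) (N : ℕ) (w : Pg) (Ug : ℚ) (kp sh : List ℚ)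
    (GR : List (List ℚ)) (nb la : List ℚ) (Uo : ℚ) (i : ℕ) : Prop :=
  ∃ (y : Cq) (l : Yl) (k : Nl) (z : Zl) (m : En) (d : Dl) (gR : List ℚ),
    CovS T g gr N w Ug kp GR nb la Uo i y l k z m d gR ∧
    NN (y.c.n.eA y.Kc [sh] []) ∧ NN (y.c.n.eB y.Kc [sh] [])

theorem pv_at2 (L : List (List ℚ)) (U : ℚ) (k : ℝ) : pv (at2 L U) k = pv2 L k U := by
  induction L with
  | nil => simp [at2, pv, pv2]
  | cons a L ih =>
    unfold at2 at ih ⊢
    simp only [List.map_cons, pv, pv2, ih]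
    rw [evq_pv]

theorem pv_mono2' {f : List ℚ} {U : ℝ} (h : ∀ u ∈ Icc 0 U, 0 ≤ pv (pd f) u) {a b : ℝ}
    (ha : 0 ≤ a) (hab : a ≤ b) (hb : b ≤ U) : pv f a ≤ pv f b := by
  have := lip_of (e := 0) (fun u hu => by rw [add_zero]; exact h u hu) ha hab hb
  linarith

/-- a three-term list of lists increases in the second variable -/
theorem inc3_mono {GR : List (List ℚ)} {Ug : ℚ} {D : ℤ} {n : ℕ} (h : inc3 GR Ug D n = true)
    {q u v : ℝ} (hq : q ∈ Icc (0 : ℝ) 1) (hu : 0 ≤ u) (huv : u ≤ v) (hv : v ≤ Ug) :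
    pv2 GR q u ≤ pv2 GR q v := by
  match GR, h with
  | [a, b, c], h =>
    simp only [inc3, Bool.and_eq_true] at h
    obtain ⟨h1, h2, h3⟩ := h
    have i1 := pv_mono2' (f := a) (U := (Ug : ℝ)) (fun w hw => nn_le h1 (by simpa using hw)) hu huv hv
    have i2 := pv_mono2' (f := b) (U := (Ug : ℝ)) (fun w hw => nn_le h2 (by simpa using hw)) hu huv hv
    have i3 : pv b u + pv c u ≤ pv b v + pv c v := by
      have key := nonneg_of_forward (a := u) (s := v)
        (U := fun z => (pv b z + pv c z) - (pv b u + pv c u))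
        (U' := fun z => (pv (pd b) z + pv (pd c) z) - 0)
        (fun z _ => ((hasDerivAt_pv b z).add (hasDerivAt_pv c z)).sub (hasDerivAt_const _ _))
        (by simp)
        (fun z hz _ => by
          have := nn_le h3 (t := z) ⟨by simpa using hu.trans hz.1, hz.2.trans hv⟩
          rw [pv_ladd] at this
          linarith)
        v ⟨huv, le_rfl⟩
      linarith
    simp only [pv2, mul_zero, add_zero]
    have j1 := mul_nonneg hq.1 (mul_nonneg (by linarith [hq.2] : 0 ≤ 1 - q)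
      (by linarith : 0 ≤ pv b v - pv b u))
    have j2 := mul_nonneg hq.1 (mul_nonneg hq.1
      (by linarith : 0 ≤ (pv b v + pv c v) - (pv b u + pv c u)))
    nlinarith

theorem Yf.po1_kp {f : Yf} {y : Yg} {j jn : Yc} {M1 M2 gm : ℝ → ℝ} {kp kp' U0 us k : ℝ}
    (h : kp ≤ kp') : f.po1 y j jn M1 M2 gm kp U0 us k ≤ f.po1 y j jn M1 M2 gm kp' U0 us k := by
  unfold Yf.po1
  linarith

theorem Yf.po2_kp {f : Yf} {M1 M2 gm : ℝ → ℝ} {kp kp' U0 us k : ℝ}
    (h : kp ≤ kp') : f.po2 M1 M2 gm kp U0 us k ≤ f.po2 M1 M2 gm kp' U0 us k := by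
  unfold Yf.po2
  linarith

variable {V : Type} [Fintype V] [DecidableEq V]
variable {Gr : SimpleGraph V} [Fintype Gr.edgeSet] [DecidableEq Gr.edgeSet]
variable {p : Ps} {g : GDat} {x : Gr.edgeSet → ℝ}

/-- the direct part of a cell of the analysis -/
theorem CovS.dg {T : T1l} {gd : MDat} {gr : ℕ → MGr} {N : ℕ} {w : Pg} {Ug : ℚ} {kp : List ℚ}
    {GR : List (List ℚ)} {nb la : List ℚ} {Uo : ℚ} {i : ℕ} {y : Cq} {l : Yl} {k : Nl} {z : Zl}
    {m : En} {d : Dl} {gR : List ℚ} (h : CovS T gd gr N w Ug kp GR nb la Uo i y l k z m d gR)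
    (hp : p.Ok) (eCc : pv T.Cl = p.Cc) (N0 : 0 < N) (hi : i < N) (hB0 : gd.B = [0, T.bB])
    (hS : DnS p Uo nb la) : Dg p gd gr N i d l k nb la Uo := by
  obtain ⟨a, b, a0, b1, ha, hb, hCa, hCv⟩ := h.ab
  have N0' : (0 : ℝ) < N := Nat.cast_pos.2 N0
  have tα : (a : ℝ) ≤ ca N i := by
    have h1 : (a : ℝ) * N ≤ (btq : ℝ) * (i : ℝ) := by exact_mod_cast ha
    unfold ca bt
    rw [← mul_div_assoc, le_div_iff₀ N0']
    exact h1
  have tτ : cb N i ≤ (b : ℝ) := by
    have h1 : (btq : ℝ) * ((i : ℝ) + 1) ≤ (b : ℝ) * N := by exact_mod_cast hb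
    unfold cb bt
    rw [← mul_div_assoc, div_le_iff₀ N0']
    exact h1
  have cab : ca N i ≤ cb N i := by
    unfold ca cb
    have := bt_pos
    gcongr
    linarith
  have a0' : (0 : ℝ) ≤ a := by exact_mod_cast a0
  have cbb : cb N i ≤ bt := cb_le_bt hi
  obtain ⟨yok, kok, -, F, b1', hz, hd, -⟩ := h.lg
  exact
    { hl := yok
      hk := kok
      hc := h.dl
      fx := F
      S := hS
      CU := h.CU
      m := h.em
      q := h.eq
      y := hz
      zd := hd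
      B := fun u hu => by
        rw [hB0, b1']
        simp only [pv, mul_zero, add_zero]
        push_cast
        exact le_of_eq (by ring)
      Ca := by
        have h1 : (d.Ca : ℝ) ≤ pv T.Cl a := by
          rw [← evq_pv]
          exact_mod_cast hCa
        rw [eCc] at h1
        exact h1.trans (Ps.Cc_mono hp a0' tα (cab.trans cbb))
      Cv := by
        have h1 : pv T.Cl b ≤ (d.Cv : ℝ) := by
          rw [← evq_pv]
          exact_mod_cast hCv
        rw [eCc] at h1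
        exact (Ps.Cc_mono hp (cb_nn _ _) tτ (by
          unfold bt
          exact_mod_cast b1)).trans h1 }

theorem ci_bt {N : ℕ} (N0 : 0 < N) : ci N bt = N - 1 := by
  have hb := bt_pos
  have N0' : (0 : ℝ) < N := Nat.cast_pos.2 N0
  have e1 : ((N - 1 : ℕ) : ℝ) = (N : ℝ) - 1 := by
    rw [Nat.cast_sub (Nat.one_le_iff_ne_zero.2 N0.ne')]
    simp
  refine ci_eq N0 ?_ ?_
  · unfold ca
    rw [e1, ← mul_div_assoc, div_lt_iff₀ N0']
    nlinarith
  · unfold cb
    rw [e1, ← mul_div_assoc, le_div_iff₀ N0']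
    linarith

end Pool.Agent.RX.RCN.K
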