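import Pool.Agent.RX.RCN.PqD
import Pool.Agent.RX.RCN.PqE_1
import Pool.Agent.RX.RCN.Top_2

/-! The inequality of the pairs: numeric cells which cover many cells of the analysis, second form
of the closures (MP_73ccd0_lc, route M). -/

namespace Pool.Agent.RX.RCN.K

open Set Finset MeasureTheory Pool.Agent.RX.RCRSHalf Pool.Agent.RX.RCG Pool.Agent.RX.RCG.Ct
open Pool.Agent.RX.RCN.Ker Pool.Agent.RX.RCRS Pool.Agent.RX.RCM9 Pool.Agent.RX.RCM9.Bern Pool.Agent.RX.RCM9.Pk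
open Pool.Agent.RX.RCN.Ck1

set_option linter.unusedSectionVars false

variable {V : Type} [Fintype V] [DecidableEq V]
variable {Gr : SimpleGraph V} [Fintype Gr.edgeSet] [DecidableEq Gr.edgeSet]
variable {p : Ps} {g : GDat} {x : Gr.edgeSet → ℝ}

/-- **one pair at one time** -/
theorem pp_oneB {T : T1l} {D Dw : ℤ} {n nw : ℕ} {τ' τg Ug : ℚ} {gd : MDat} {gr : ℕ → MGr}
    {Hp Hm GR HR : List (List ℚ)} {nb la : List ℚ} {Uo : ℚ} {N : ℕ}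
    {G : ℕ → V ⊕ V → V ⊕ V → Fm (V ⊕ V)}
    {H : ℕ → V ⊕ V → Fm (V ⊕ V)} {w : Pg} (hp : p.Ok) (hg : g.Pos p.d)
    (hq : T1p p T.bB) (ho : T.Of p g) (hl : T.ax = true) (hG : T.okG D n τ' = true)
    (hτg : btq ≤ τg) (hw : w.ok T Dw nw τg Ug = true) (hx : IsFractionalMatching Gr x)
    {Di : ℤ} {ni : ℕ} (hinc : inc3 GR Ug Di ni = true) (N0 : 0 < N) (hF : Fct p (xe x) (P0 V) gd gr Hp Hm N G H)
    (hFr : Fcr p (xe x) (P0 V) GR HR N G H) (hck0 : Ckp p gd.y gd.B) (hB0 : gd.B = [0, T.bB])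
    (hS : DnS p Uo nb la) {t : ℝ} (ht : t ∈ Icc (0 : ℝ) bt) {kp : List ℚ} {y : Cq} {l : Yl}
    {k : Nl} {z : Zl} {m : En} {d : Dl} {gR : List ℚ}
    (hc : CovS T gd gr N w Ug kp GR nb la Uo (ci N t) y l k z m d gR) {LA LB : List (List ℚ)}
    (hA : NN (y.c.n.eA y.Kc LA LB)) (hB : NN (y.c.n.eB y.Kc LA LB)) {a b : V ⊕ V} (ha : P0 V a)
    (hb : P0 V b) (hab : a ≠ b) :
    (y.Kc : ℝ) ≤ pv kp t ∧ (p.da (g.kd p.d) (p.cO (xe x) (P0 V) N G)).w x a b t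
      ≤ y.Kc * ∑ d ∈ ({a, b} : Finset (V ⊕ V))ᶜ,
        Pn.kbn LA LB (xe x a b) (xr (xe x) (P0 V) a d) (xr (xe x) (P0 V) b d) := by
  have hwt := wt_xe hx zero_le_one le_rfl fun e => (hx.1 e).2
  have cb0 : ∀ i, 0 ≤ cb N i := cb_nn N
  have hC : Cls p.z.hz (xe x) (P0 V)
      (p.cx (xe x) (P0 V) N (fun _ => 0) (fun i _ => cb N i) 1 (fun i _ => G i)) :=
    Ps.cls hp hwt N0 one_pos (fun i _ => rfl) (fun i _ j _ => cb0 i)
      (m := fun i _ _ _ => ((gr i).m : ℝ)) (q := fun i _ _ _ => ((gr i).q : ℝ))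
      fun i hi j _ a b ha hb hab => hF.cl i hi a b ha hb hab
  have hi := ci_lt N0 ht.2
  have hm := ci_mem N0 ht.1 ht.2
  have N0' : (0 : ℝ) < N := Nat.cast_pos.2 N0
  have tα : (y.c.α : ℝ) ≤ ca N (ci N t) := by
    have h1 : (y.c.α : ℝ) * N ≤ (btq : ℝ) * (ci N t : ℝ) := by exact_mod_cast hc.hα
    unfold ca bt
    rw [← mul_div_assoc, le_div_iff₀ N0']
    exact h1
  have tτ : cb N (ci N t) ≤ (y.c.τ : ℝ) := by
    have h1 : (btq : ℝ) * ((ci N t : ℝ) + 1) ≤ (y.c.τ : ℝ) * N := by exact_mod_cast hc.hτ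
    unfold cb bt
    rw [← mul_div_assoc, div_le_iff₀ N0']
    exact h1
  have ht' : t ∈ Icc (y.c.α : ℝ) y.c.τ := ⟨tα.trans hm.1, hm.2.trans tτ⟩
  obtain ⟨D3, n3, hok⟩ := hc.yo
  simp only [Cq.ok, Bool.and_eq_true, decide_eq_true_eq] at hok
  obtain ⟨k1, k2, k3, k4, k5, hR, hpc, hdR, hck, hkp, hgk, hgk0⟩ := hok
  refine ⟨?_, ?_⟩
  · have h := nn_sub hkp ht'
    simpa [pv] using h
  -- the clock
  have eC : T.Cl = pri p.z.mb := by
    have := hl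
    simp only [T1l.ax, Bool.and_eq_true, decide_eq_true_eq, and_assoc] at this
    rw [this.1, ho.mb]
  have eCc : pv T.Cl = p.Cc := by
    funext s
    rw [eC]
    rfl
  have hD := hc.dg hp eCc N0 hi hB0 hS
  have τb : (y.c.τ : ℝ) ≤ bt := by unfold bt; exact_mod_cast k4
  have hR' := hR
  simp only [Yl.okR, Bool.and_eq_true, decide_eq_true_eq] at hR'
  have hck' := hck
  simp only [Pt.ok, Bool.and_eq_true, decide_eq_true_eq] at hck'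
  have α0 : (0 : ℝ) ≤ y.c.α := by exact_mod_cast hck'.2.1
  have U0 : (0 : ℝ) < y.U := by exact_mod_cast hR'.1
  have UU : (y.U : ℝ) ≤ l.Ug := by exact_mod_cast hR'.2.1
  have hi0 : 0 ≤ cb N (ci N t) := cb0 _
  set u0 := p.Cc (cb N (ci N t)) with hu0
  have huU : u0 ≤ y.U := by
    have h1 : p.Cc (cb N (ci N t)) ≤ p.Cc y.c.τ := Ps.Cc_mono hp hi0 tτ τb
    have h2 : p.Cc y.c.τ ≤ y.U := by
      rw [← eCc, ← evq_pv]
      exact_mod_cast k3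
    exact h1.trans h2
  have hua : (y.Ua : ℝ) ≤ u0 := by
    have h1 : (y.c.α : ℝ) + bt / N ≤ cb N (ci N t) := by
      have e : cb N (ci N t) = ca N (ci N t) + bt / N := by
        unfold ca cb
        ring
      rw [e]
      linarith
    have h3 : 0 ≤ bt / N := div_nonneg bt_nn N0'.le
    have h2 : p.Cc ((y.c.α : ℝ) + bt / N) ≤ u0 :=
      Ps.Cc_mono hp (by linarith) h1 (cb_le_bt hi)
    refine le_trans ?_ h2
    have h4 : ((y.Ua : ℚ) : ℝ) ≤ ((evq T.Cl (y.c.α + btq / N) : ℚ) : ℝ) := by exact_mod_cast k2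
    refine h4.trans (le_of_eq ?_)
    rw [evq_pv, eCc]
    congr 1
    unfold bt
    push_cast
    rfl
  have u00 : 0 < u0 := lt_of_lt_of_le (by exact_mod_cast k1) hua
  have hUaU : y.Ua ≤ y.U := by exact_mod_cast hua.trans huU
  obtain ⟨⟨Dy, ny, hyo⟩, ⟨Dk, nk, hko⟩, ⟨Dr, nr, hro⟩, hYF, hb1, hzz, hdd, hgR⟩ := hc.lg
  obtain ⟨Dz, nz, hzo⟩ := hc.zo
  obtain ⟨Dn, nn', hzn⟩ := hc.zn
  obtain ⟨Dd, nd, hyd⟩ := hc.yd
  simp only [Cq.okD, Bool.and_eq_true, decide_eq_true_eq] at hyd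
  obtain ⟨hkk, hdd2⟩ := hyd
  have dlt0 : (0 : ℚ) ≤ l.dlt := by
    simp only [Rl.okM, Bool.and_eq_true, decide_eq_true_eq, and_assoc] at hro
    exact hro.1
  have dlt0' : (0 : ℝ) ≤ l.dlt := by exact_mod_cast dlt0
  have dR0 : ∀ v ∈ Icc (0 : ℝ) y.U, 0 ≤ pv y.dR v := fun v hv => nn_le hdR (by simpa using hv)
  have gk0 : ∀ q ∈ Icc (0 : ℝ) 1, 0 ≤ pv y.gk q := fun q hq' => nn_le hgk0 (by simpa using hq')
  have row := fun (q : ℝ) (hq' : q ∈ Icc (0 : ℝ) 1) =>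
    Zl.row_le (gk := y.gk) (m := m) (kp := y.kp) (Ua := y.Ua) (dR := y.dR) hR hzn hzo hyo hYF k1
      hUaU k5 dlt0 dR0 hq' (gk0 q hq')
  have yUg : (y.U : ℝ) ≤ Ug := by
    have h := hpc
    simp only [Pc.ok, Bool.and_eq_true, decide_eq_true_eq] at h
    have h1 : y.U ≤ Ug := h.2.2.1
    exact_mod_cast h1
  have hgm : ∀ q ∈ Icc (0 : ℝ) 1, pv2 GR q u0 ≤ pv y.gk q := fun q hq' => by
    have h1 := inc3_mono hinc hq' u00.le huU yUg
    have h2 := nn_sub hgk (t := q) (by simpa using hq')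
    rw [pv_at2] at h2
    exact h1.trans h2
  have hkk' : (d.kp : ℝ) ≤ y.kp := by exact_mod_cast hkk
  have hdR2 : ∀ v ∈ Icc (0 : ℝ) u0, pv d.dR v ≤ pv y.dR v := fun v hv => by
    refine nn_sub hdd2 (t := v) ⟨by simpa using hv.1, hv.2.trans ?_⟩
    exact hD.Cv
  have hr := fun (a b : V ⊕ V) (ha : P0 V a) (hb : P0 V b) (hab : a ≠ b) =>
    rq_coreB (f1 := fun q v => pv2 (z.q1 l y.gk m y.kp y.U (y.U - y.Ua) y.κ) q v)
      (f2 := fun q v => pv2 (Zl.q2 l y.gk m y.kp y.U (y.U - y.Ua) y.κ) q v)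
      (f3 := fun q v => pv2 (z.q3 l y.gk m y.kp y.U (y.U - y.Ua) y.dR y.κ) q v)
      (f4 := fun q v => pv2 (Zl.q4 l y.gk m y.kp y.U (y.U - y.Ua) y.dR y.κ) q v)
      hp hwt N0 hF hFr hck0 ht hD hu0 u00 hzo dlt0 hc.kp0
      (fun q hq' v hv => by
        obtain ⟨r1, r2, r3, r4⟩ := (row q hq').2 u0 hua huU v hv (pv d.dR v) (hdR2 v hv)
          (fun k => pv2 GR k u0) (hgm q hq')
        have s1 := Yf.po1_kp (f := l.yf u0) (y := z.y.yg) (j := z.j.jc 0 0 u0)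
          (jn := z.n.jc 1 0 u0) (M1 := pv (pri l.μ1)) (M2 := pv (pri (pri l.μ1)))
          (gm := fun k => pv2 GR k u0) (U0 := u0) (us := u0 - v) (k := q) hkk'
        have s2 := Yf.po2_kp (f := l.yf u0) (M1 := pv (pri l.R)) (M2 := pv (pri (pri l.R)))
          (gm := fun k => pv2 GR k u0) (U0 := u0) (us := u0 - v) (k := q) hkk'
        exact ⟨s1.trans r1, s2.trans r2, by linarith, by linarith⟩) ha hb hab
  have rown := fun (q : ℝ) (hq' : q ∈ Icc (0 : ℝ) 1) (v : ℝ) (hv : v ∈ Icc (0 : ℝ) y.U) =>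
    (row q hq').1 v hv
  obtain ⟨pc, hpc0⟩ : ∃ pc, pc = y.pc l z m := ⟨_, rfl⟩
  have fK : pc.K = y.c.K := by rw [hpc0]; rfl
  have fU : pc.U = y.U := by rw [hpc0]; rfl
  have f1 : pc.l1 = z.q1 l y.gk m y.kp y.U (y.U - y.Ua) y.κ := by rw [hpc0]; rfl
  have f2 : pc.l2 = Zl.q2 l y.gk m y.kp y.U (y.U - y.Ua) y.κ := by rw [hpc0]; rfl
  have f3 : pc.h1 = z.q3 l y.gk m y.kp y.U (y.U - y.Ua) y.dR y.κ := by rw [hpc0]; rfl
  have f4 : pc.h2 = Zl.q4 l y.gk m y.kp y.U (y.U - y.Ua) y.dR y.κ := by rw [hpc0]; rfl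
  rw [← hpc0] at hpc
  rw [← f1, ← f2, ← f3, ← f4, ← fU] at rown
  rw [← f1, ← f2, ← f3, ← f4] at hr
  refine pp_cell (pc := pc) hp hg hq ho hl hG hck k4 hτg hw hpc fK hx hC rfl
    ht' ?_ (fun q hq v hv => (rown q hq v hv).1) (fun q hq v hv => (rown q hq v hv).2.1)
    (fun q hq v hv => (rown q hq v hv).2.2.1) (fun q hq v hv => (rown q hq v hv).2.2.2) ?_ hA hB ha
    hb hab
  · rw [eCc, fU]
    exact (Ps.Cc_mono hp ht.1 hm.2 (cb_le_bt hi)).trans huU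
  · intro a b ha hb hab
    rw [eCc]
    exact hr a b ha hb hab

/-- **the inequality of the pairs** -/
theorem pp_allB {T : T1l} {D Dw : ℤ} {n nw : ℕ} {τ' τg Ug : ℚ} {gd : MDat} {gr : ℕ → MGr}
    {Hp Hm GR HR : List (List ℚ)} {nb la : List ℚ} {Uo : ℚ} {N : ℕ}
    {G : ℕ → V ⊕ V → V ⊕ V → Fm (V ⊕ V)}
    {H : ℕ → V ⊕ V → Fm (V ⊕ V)} {w : Pg} (hp : p.Ok) (hg : g.Pos p.d)
    (hq : T1p p T.bB) (ho : T.Of p g) (hl : T.ax = true) (hG : T.okG D n τ' = true)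
    (hτg : btq ≤ τg) (hw : w.ok T Dw nw τg Ug = true) (hx : IsFractionalMatching Gr x)
    {Di : ℤ} {ni : ℕ} (hinc : inc3 GR Ug Di ni = true) (N0 : 0 < N) (hF : Fct p (xe x) (P0 V) gd gr Hp Hm N G H)
    (hFr : Fcr p (xe x) (P0 V) GR HR N G H) (hck0 : Ckp p gd.y gd.B) (hB0 : gd.B = [0, T.bB])
    (hS : DnS p Uo nb la)
    (hc : ∀ i < N, CovR T gd gr N w Ug p.d.kpl p.d.shP GR nb la Uo i) :
    PP (p.da (g.kd p.d) (p.cO (xe x) (P0 V) N G)) x := by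
  intro a b ha hb hab t ht
  have hwt := wt_xe hx zero_le_one le_rfl fun e => (hx.1 e).2
  obtain ⟨y, l, k, z, m, d, gR, hs, hA, hB⟩ := hc _ (ci_lt N0 ht.2)
  obtain ⟨hk, key⟩ := pp_oneB hp hg hq ho hl hG hτg hw hx hinc N0 hF hFr hck0 hB0 hS ht hs hA hB ha
    hb hab
  refine key.trans ?_
  have e : ∀ d, Pn.kbn [p.d.shP] [] (xe x a b) (xr (xe x) (P0 V) a d) (xr (xe x) (P0 V) b d)
      = p.d.dt.ka (xr (xe x) (P0 V) a d) (xr (xe x) (P0 V) b d) := fun d => by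
    show Pn.kbn [p.d.shP] [] _ _ _ = Dat.rkb p.d.shP _ _
    unfold Pn.kbn Dat.rkb
    simp [pv2]
  simp only [e]
  refine mul_le_mul_of_nonneg_right hk (Finset.sum_nonneg fun d hd => ?_)
  have hd' := mem2.1 hd
  have hD : (p.da (g.kd p.d) (p.cO (xe x) (P0 V) N G)).Ok :=
    da_ok hp rfl (fun w => kd_cn _ w) (kP_of hp hg)
  have y0 := xmem1 (P := P0 V) hwt a d
  have z0 := xmem1 (P := P0 V) hwt b d
  have k := xr_add_le (P := P0 V) hwt (a := d) hab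
  have es : ∀ u v, xr (xe x) (P0 V) u v = xr (xe x) (P0 V) v u := fun u v => by
    unfold xr
    by_cases h1 : P0 V u ∧ P0 V v
    · rw [if_pos h1, if_pos h1.symm, hwt.symm]
    · rw [if_neg h1, if_neg fun h => h1 h.symm]
  rw [es d a, es d b] at k
  exact hD.T.kan _ y0 _ z0 k

/-- **the inequality of the pairs at the end time** -/
theorem pe_allB {T : T1l} {D Dw : ℤ} {n nw : ℕ} {τ' τg Ug : ℚ} {gd : MDat} {gr : ℕ → MGr}
    {Hp Hm GR HR : List (List ℚ)} {nb la : List ℚ} {Uo : ℚ} {N : ℕ}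
    {G : ℕ → V ⊕ V → V ⊕ V → Fm (V ⊕ V)}
    {H : ℕ → V ⊕ V → Fm (V ⊕ V)} {w : Pg} (hp : p.Ok) (hg : g.Pos p.d)
    (hq : T1p p T.bB) (ho : T.Of p g) (hl : T.ax = true) (hG : T.okG D n τ' = true)
    (hτg : btq ≤ τg) (hw : w.ok T Dw nw τg Ug = true) (hx : IsFractionalMatching Gr x)
    {Di : ℤ} {ni : ℕ} (hinc : inc3 GR Ug Di ni = true) (N0 : 0 < N) (hF : Fct p (xe x) (P0 V) gd gr Hp Hm N G H)
    (hFr : Fcr p (xe x) (P0 V) GR HR N G H) (hck0 : Ckp p gd.y gd.B) (hB0 : gd.B = [0, T.bB])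
    (hS : DnS p Uo nb la) {kp : List ℚ} {y : Cq} {l : Yl} {k : Nl} {z : Zl} {m : En} {d : Dl}
    {gR : List ℚ} (hc : CovS T gd gr N w Ug kp GR nb la Uo (N - 1) y l k z m d gR)
    (hK : y.Kc = 1) (hA : NN (y.c.n.eA 1 p.d.shE p.d.shD))
    (hB : NN (y.c.n.eB 1 p.d.shE p.d.shD)) :
    PE (p.da (g.kd p.d) (p.cO (xe x) (P0 V) N G)) x := by
  intro a b ha hb hab
  have hbt : bt ∈ Icc (0 : ℝ) bt := ⟨bt_nn, le_rfl⟩
  have hci : ci N bt = N - 1 := ci_bt N0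
  rw [← hci] at hc
  have key := (pp_oneB (LA := p.d.shE) (LB := p.d.shD) hp hg hq ho hl hG hτg hw hx hinc N0 hF hFr hck0
    hB0 hS hbt hc (by rw [hK]; exact hA) (by rw [hK]; exact hB) ha hb hab).2
  refine key.trans ?_
  rw [hK, Rat.cast_one, one_mul]
  refine le_of_eq (Finset.sum_congr rfl fun d _ => ?_)
  show _ = p.d.rkE (xr (xe x) (P0 V) a b) _ _
  have e : xr (xe x) (P0 V) a b = xe x a b := by unfold xr; rw [if_pos ⟨ha, hb⟩]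
  rw [e]
  rfl

end Pool.Agent.RX.RCN.K
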