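import Pool.Agent.RX.RCN.PqD
import Pool.Agent.RX.RCN.PqE_1

/-! The weighted sums of the closures at the end, second form of the closures
(MP_73ccd0_lc, route M). -/

namespace Pool.Agent.RX.RCN.K

open Set Finset MeasureTheory Pool.Agent.RX.RCRSHalf Pool.Agent.RX.RCG Pool.Agent.RX.RCG.Ct
open Pool.Agent.RX.RCN.Ker Pool.Agent.RX.RCRS Pool.Agent.RX.RCM9 Pool.Agent.RX.RCM9.Bern Pool.Agent.RX.RCM9.Pk
open Pool.Agent.RX.RCN.Ck1

set_option linter.unusedSectionVars false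

/-- the expansion of the exponential -/
theorem one_sub_exp_le {L : ℝ} (hL : 0 ≤ L) :
    1 - Real.exp (-L) ≤ L - L ^ 2 / 2 + L ^ 3 / 6 := by
  have d : ∀ z : ℝ, HasDerivAt (fun z : ℝ => Real.exp (-z)) (-Real.exp (-z)) z := fun z => by
    have := (hasDerivAt_neg z).exp
    simpa using this
  have k1 : ∀ z : ℝ, 0 ≤ z → 0 ≤ Real.exp (-z) - 1 + z := fun z _ => by
    have := Real.add_one_le_exp (-z)
    linarith
  have k2 : ∀ z : ℝ, 0 ≤ z → 0 ≤ -Real.exp (-z) + 1 - z + z ^ 2 / 2 := fun z hz => by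
    have key := nonneg_of_forward (a := 0) (s := z)
      (U := fun z => -Real.exp (-z) + 1 - z + z ^ 2 / 2)
      (U' := fun z => Real.exp (-z) - 1 + z)
      (fun z _ => by
        have h1 := ((d z).neg.add_const 1).sub (hasDerivAt_id z)
        have h2 := ((hasDerivAt_id z).pow 2).div_const 2
        refine (h1.add h2).congr_deriv ?_
        simp)
      (by simp) (fun z hz _ => k1 z hz.1) z ⟨hz, le_rfl⟩
    exact key
  have key := nonneg_of_forward (a := 0) (s := L)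
    (U := fun z => Real.exp (-z) - 1 + z - z ^ 2 / 2 + z ^ 3 / 6)
    (U' := fun z => -Real.exp (-z) + 1 - z + z ^ 2 / 2)
    (fun z _ => by
      have h1 := ((d z).sub_const 1).add (hasDerivAt_id z)
      have h2 := ((hasDerivAt_id z).pow 2).div_const 2
      have h3 := ((hasDerivAt_id z).pow 3).div_const 6
      refine ((h1.sub h2).add h3).congr_deriv ?_
      simp
      ring)
    (by simp) (fun z hz _ => k2 z hz.1) L ⟨hL, le_rfl⟩
  have key' : 0 ≤ Real.exp (-L) - 1 + L - L ^ 2 / 2 + L ^ 3 / 6 := key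
  linarith

theorem plE_le {θ β : ℚ} {R : List ℚ} (hN : NN (plE θ β R)) {k L : ℝ}
    (hk : k ∈ Icc (0 : ℝ) 1) (hL : 0 ≤ L) (hR : L ≤ (1 - k) * pv R k) :
    k * (1 - Real.exp (-L)) ≤ θ * L + β * k := by
  obtain ⟨Z, hZ, e⟩ : ∃ Z : ℝ, Z ∈ Icc (0 : ℝ) 1 ∧ Z * ((1 - k) * pv R k) = L := by
    rcases (hL.trans hR).eq_or_lt with h0 | h0
    · refine ⟨0, ⟨le_rfl, zero_le_one⟩, ?_⟩
      rw [zero_mul]
      linarith
    · exact ⟨L / ((1 - k) * pv R k), ⟨div_nonneg hL h0.le, (div_le_one h0).2 hR⟩,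
        div_mul_cancel₀ _ h0.ne'⟩
  have key := hN k Z 0 0 hk hZ ⟨le_rfl, zero_le_one⟩ ⟨le_rfl, bt_pos.le⟩
  simp only [plE, val_sub, val_mul, val_add, val_pow, val_qc, val_pe, val_one, val_vX,
    val_vZ] at key
  rw [e] at key
  push_cast at key
  have h1 := mul_le_mul_of_nonneg_left (one_sub_exp_le hL) hk.1
  linarith

theorem plok_ex {D : ℤ} {n : ℕ} {R : List ℚ} {la lb : ℚ} {ps : List (ℚ × ℚ × ℚ)} :
    ∀ {s : ℚ}, plok D n R la lb s ps = true → ∀ {k : ℝ}, (s : ℝ) ≤ k → k ≤ 1 →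
      (ps ≠ [] ∨ (s : ℝ) < k) → ∃ q ∈ ps, (0 : ℝ) ≤ (q.1 : ℚ) ∧ (0 : ℝ) ≤ (q.2.1 : ℚ) ∧
        q.1 * ((1 - k) * pv R k) + q.2.1 * (2 - k) ≤ la - lb * k := by
  induction ps with
  | nil =>
    intro s h k h1 h2 h3
    simp only [plok, decide_eq_true_eq] at h
    have : (1 : ℝ) ≤ s := by exact_mod_cast h
    rcases h3 with h3 | h3
    · exact absurd rfl h3
    · linarith
  | cons q r ih =>
    intro s h k h1 h2 h3
    simp only [plok, Bool.and_eq_true, decide_eq_true_eq] at h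
    obtain ⟨a1, a2, a3, a4⟩ := h
    rcases le_or_gt k (q.2.2 : ℝ) with h4 | h4
    · refine ⟨q, List.mem_cons_self, by exact_mod_cast a1, by exact_mod_cast a2, ?_⟩
      have := nn_sub a3 (t := k) ⟨h1, h4⟩
      simp only [pv_ladd, pv_lsmul, pv_lmul, pv] at this
      push_cast at this
      linarith
    · obtain ⟨q', hq', h5⟩ := ih a4 h4.le h2 (Or.inr h4)
      exact ⟨q', List.mem_cons_of_mem _ hq', h5⟩

/-- the closures of relevant pairs are controlled -/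
theorem cp2_of {V : Type*} [Fintype V] [DecidableEq V] {x : V → V → ℝ} {P : V → Prop} {δ : ℝ}
    (hx : Wt x P δ) {a b d e : V} (hd : d ∈ ({a, b} : Finset V)ᶜ)
    (he : e ∈ ({a, b, d} : Finset V)ᶜ) (h1 : x a d ≠ 0 ∨ x b d ≠ 0)
    (h2 : x a e ≠ 0 ∨ x b e ≠ 0) : Cp2 x P d e := by
  simp only [Finset.mem_compl, Finset.mem_insert, Finset.mem_singleton, not_or] at hd he
  by_cases h0 : x d e = 0
  · exact Or.inr h0
  · refine Or.inl ⟨?_, ?_⟩
    · by_contra hP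
      rcases h1 with h | h
      · exact he.1 (hx.pend1 a d e hP h h0)
      · exact he.2.1 (hx.pend1 b d e hP h h0)
    · by_contra hP
      rcases h2 with h | h
      · rw [hx.symm a e] at h
        exact hd.1 (hx.pend1 d e a hP h0 h).symm
      · rw [hx.symm b e] at h
        exact hd.2 (hx.pend1 d e b hP h0 h).symm

variable {V : Type} [Fintype V] [DecidableEq V]
variable {Gr : SimpleGraph V} [Fintype Gr.edgeSet] [DecidableEq Gr.edgeSet]
variable {p : Ps} {g : GDat} {x : Gr.edgeSet → ℝ}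

/-- **the weighted sums of the closures at the end** -/
theorem pl_allB {T : T1l} {gd : MDat} {gr : ℕ → MGr}
    {Hp Hm GR HR : List (List ℚ)} {nb la : List ℚ} {Uo : ℚ} {N : ℕ}
    {G : ℕ → V ⊕ V → V ⊕ V → Fm (V ⊕ V)}
    {H : ℕ → V ⊕ V → Fm (V ⊕ V)} (hp : p.Ok)
    (ho : T.Of p g) (hl : T.ax = true) (hx : IsFractionalMatching Gr x)
    {Ugi : ℚ} {Di : ℤ} {ni : ℕ} (hinc : inc3 GR Ugi Di ni = true) (N0 : 0 < N) (hF : Fct p (xe x) (P0 V) gd gr Hp Hm N G H)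
    (hFr : Fcr p (xe x) (P0 V) GR HR N G H) (hck0 : Ckp p gd.y gd.B) (hB0 : gd.B = [0, T.bB])
    (hS : DnS p Uo nb la) {w : Pg} {Ug : ℚ} {kp : List ℚ} {y : Cq} {l : Yl} {k : Nl} {z : Zl}
    {m : En} {d : Dl} {gR : List ℚ}
    (hc : CovS T gd gr N w Ug kp GR nb la Uo (N - 1) y l k z m d gR)
    {pl : Pl} {lA lB : ℚ} {D' : ℤ} {n' : ℕ}
    (hUg : Ug ≤ Ugi) (hy : pl.okB y l z m (Ui T N (N - 1)) lA lB D' n' = true)
    (hN : ∀ q ∈ pl.ps, NN (plE q.1 q.2.1 pl.R2)) :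
    ∀ a b, P0 V a → P0 V b → a ≠ b → ∀ d ∈ ({a, b} : Finset (V ⊕ V))ᶜ,
      (xe x a d ≠ 0 ∨ xe x b d ≠ 0) →
      ∑ e ∈ ({a, b, d} : Finset (V ⊕ V))ᶜ, (xe x a e + xe x b e)
        * (1 - Real.exp (-(Lc (P0 V) (p.cO (xe x) (P0 V) N G) a b d e bt bt)))
      ≤ lA - lB * (xe x a d + xe x b d) := by
  intro a b ha hb hab e0 he0 hrel
  have hwt := wt_xe hx zero_le_one le_rfl fun e => (hx.1 e).2
  have hbt : bt ∈ Icc (0 : ℝ) bt := ⟨bt_nn, le_rfl⟩
  have hci : ci N bt = N - 1 := ci_bt N0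
  have N0' : (0 : ℝ) < N := Nat.cast_pos.2 N0
  have e1 : ((N - 1 : ℕ) : ℝ) = (N : ℝ) - 1 := by
    rw [Nat.cast_sub (Nat.one_le_iff_ne_zero.2 N0.ne')]
    simp
  have hcb : cb N (N - 1) = bt := by
    unfold cb
    rw [e1]
    field_simp
    ring
  have eC : T.Cl = pri p.z.mb := by
    have := hl
    simp only [T1l.ax, Bool.and_eq_true, decide_eq_true_eq, and_assoc] at this
    rw [this.1, ho.mb]
  have eCc : pv T.Cl = p.Cc := by
    funext s
    rw [eC]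
    rfl
  have hU : ((Ui T N (N - 1) : ℚ) : ℝ) = p.Cc (cb N (N - 1)) := by
    unfold Ui
    rw [evq_pv, eCc]
    congr 1
    unfold cb bt
    push_cast
    ring
  have hD := hc.dg hp eCc N0 (Nat.sub_lt N0 one_pos) hB0 hS
  obtain ⟨D3, n3, hok⟩ := hc.yo
  simp only [Cq.ok, Bool.and_eq_true, decide_eq_true_eq] at hok
  obtain ⟨k1, k2, k3, k4, k5, hR, hpc, hdR, hck, hkp, hgk, hgk0⟩ := hok
  set U := Ui T N (N - 1) with hUd
  simp only [Pl.okB, Bool.and_eq_true, decide_eq_true_eq] at hy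
  obtain ⟨y01, y02, y03, y1, y2, y3, y4⟩ := hy
  have u00 : (0 : ℝ) < U := by exact_mod_cast y01
  have huU : (U : ℝ) ≤ y.U := by exact_mod_cast y02
  have hua : (y.Ua : ℝ) ≤ U := by exact_mod_cast y03
  have hUaU : y.Ua ≤ y.U := y03.trans y02
  obtain ⟨⟨Dy, ny, hyo⟩, ⟨Dk, nk, hko⟩, ⟨Dr, nr, hro⟩, hYF, hb1, hzz, hdd, hgR⟩ := hc.lg
  obtain ⟨Dz, nz, hzo⟩ := hc.zo
  obtain ⟨Dn, nn', hzn⟩ := hc.zn
  obtain ⟨Dd, nd, hyd⟩ := hc.yd
  simp only [Cq.okD, Bool.and_eq_true, decide_eq_true_eq] at hyd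
  obtain ⟨hkk, hdd2⟩ := hyd
  have dlt0 : (0 : ℚ) ≤ l.dlt := by
    simp only [Rl.okM, Bool.and_eq_true, decide_eq_true_eq, and_assoc] at hro
    exact hro.1
  have dlt0' : (0 : ℝ) ≤ l.dlt := by exact_mod_cast dlt0
  have dR0 : ∀ v ∈ Icc (0 : ℝ) y.U, 0 ≤ pv y.dR v := fun v hv => nn_le hdR (by simpa using hv)
  have hkk' : (d.kp : ℝ) ≤ y.kp := by exact_mod_cast hkk
  have hdR2 : ∀ v ∈ Icc (0 : ℝ) U, pv d.dR v ≤ pv y.dR v := fun v hv => by
    refine nn_sub hdd2 (t := v) ⟨by simpa using hv.1, hv.2.trans ?_⟩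
    rw [hU]
    exact hD.Cv
  have hCU : p.Cc bt = ((U : ℚ) : ℝ) := by rw [hU, hcb]
  have gk0 : ∀ q ∈ Icc (0 : ℝ) 1, 0 ≤ pv y.gk q := fun q hq' => nn_le hgk0 (by simpa using hq')
  have yUg : (y.U : ℝ) ≤ Ugi := by
    have h := hpc
    simp only [Pc.ok, Bool.and_eq_true, decide_eq_true_eq] at h
    have h1 : y.U ≤ Ugi := h.2.2.1.trans hUg
    exact_mod_cast h1
  have hgm : ∀ q ∈ Icc (0 : ℝ) 1, pv2 GR q U ≤ pv y.gk q := fun q hq' => by
    have h1 := inc3_mono hinc hq' u00.le huU yUg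
    have h2 := nn_sub hgk (t := q) (by simpa using hq')
    rw [pv_at2] at h2
    exact h1.trans h2
  have row := fun (q : ℝ) (hq' : q ∈ Icc (0 : ℝ) 1) =>
    (Zl.row_le (gk := y.gk) (m := m) (kp := y.kp) (Ua := y.Ua) (dR := y.dR) hR hzn hzo hyo hYF k1
      hUaU k5 dlt0 dR0 hq' (gk0 q hq')).2 U hua huU U ⟨u00.le, le_rfl⟩ _
      (hdR2 U ⟨u00.le, le_rfl⟩) (fun k => pv2 GR k U) (hgm q hq')
  set K : V ⊕ V → ℝ := fun e => xe x a e + xe x b e with hK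
  have hk1 : ∀ d, K d ∈ Icc (0 : ℝ) 1 := fun d => by
    have := kx_mem hwt ({a, b} : Finset (V ⊕ V)) d
    unfold RCM.kx at this
    rwa [Finset.sum_pair hab] at this
  set L : V ⊕ V → V ⊕ V → ℝ := fun c e => Lc (P0 V) (p.cO (xe x) (P0 V) N G) a b c e bt bt
    with hL
  have L0 : ∀ c e, 0 ≤ L c e := fun c e => Lc_nonneg a b c e bt bt
  classical
  set L' : V ⊕ V → V ⊕ V → ℝ := fun c e => if Cp2 (xe x) (P0 V) c e then L c e else 0 with hL'
  have L'0 : ∀ c e, 0 ≤ L' c e := fun c e => by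
    rw [hL']
    beta_reduce
    split_ifs
    · exact L0 c e
    · exact le_rfl
  have hro2 := ro_core (U := (U : ℝ)) hp hwt N0 hF hFr hck0 hbt (by rw [hci]; exact hD)
    (by rw [hci]; exact hU) u00 hzo dlt0 hc.kp0 ha hb hab (s := bt) hbt (L := L')
    (Lt := fun _ _ => 0)
    (fun c e => by
      rw [hL']
      beta_reduce
      split_ifs with h
      · exact Or.inr ⟨rfl, h⟩
      · exact Or.inl rfl) (fun c e => Or.inl rfl)
  rw [hCU] at hro2
  obtain ⟨q1, q2, -, -⟩ := hro2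
  -- rows and columns
  have r1 : ∑ e ∈ ({a, b, e0} : Finset (V ⊕ V))ᶜ, L' e0 e ≤ (1 - K e0) * pv pl.R1 (K e0) := by
    refine (q1 e0 he0).trans (mul_le_mul_of_nonneg_left ?_ (by linarith [(hk1 e0).2]))
    have h2 := nn_sub y1 (t := K e0) (by simpa using hk1 e0)
    rw [pv_at2] at h2
    exact ((Yf.po1_kp hkk').trans (row _ (hk1 e0)).1).trans h2
  have r2 : ∀ e ∈ ({a, b, e0} : Finset (V ⊕ V))ᶜ, L' e0 e ≤ (1 - K e) * pv pl.R2 (K e) := by
    intro e he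
    have he' : e ∈ ({a, b} : Finset (V ⊕ V))ᶜ := by
      simp only [Finset.mem_compl, Finset.mem_insert, Finset.mem_singleton, not_or] at he ⊢
      exact ⟨he.1, he.2.1⟩
    have hd' : e0 ∈ ({a, b, e} : Finset (V ⊕ V))ᶜ := by
      simp only [Finset.mem_compl, Finset.mem_insert, Finset.mem_singleton, not_or] at he he0 ⊢
      exact ⟨he0.1, he0.2, fun h => he.2.2 h.symm⟩
    have h1 : L' e0 e ≤ ∑ c ∈ ({a, b, e} : Finset (V ⊕ V))ᶜ, L' c e :=
      Finset.single_le_sum (f := fun c => L' c e) (fun c _ => L'0 c e) hd'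
    refine (h1.trans (q2 e he')).trans (mul_le_mul_of_nonneg_left ?_ (by linarith [(hk1 e).2]))
    have h2 := nn_sub y2 (t := K e) (by simpa using hk1 e)
    rw [pv_at2] at h2
    exact ((Yf.po2_kp hkk').trans (row _ (hk1 e)).2.1).trans h2
  have r3 : ∑ e ∈ ({a, b, e0} : Finset (V ⊕ V))ᶜ, K e ≤ 2 - K e0 := by
    have h1 : ∑ e ∈ ({a, b, e0} : Finset (V ⊕ V))ᶜ, K e + K e0 ≤ ∑ e, K e := by
      rw [← Finset.sum_add_sum_compl ({a, b, e0} : Finset (V ⊕ V))]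
      have : K e0 ≤ ∑ e ∈ ({a, b, e0} : Finset (V ⊕ V)), K e :=
        Finset.single_le_sum (f := K) (fun c _ => (hk1 c).1) (by simp)
      linarith
    have h2 : ∑ e, K e ≤ 2 := by
      rw [hK]
      simp only [Finset.sum_add_distrib]
      have := hwt.row a
      have := hwt.row b
      linarith
    linarith
  -- the piece
  have hk0 : ((0 : ℚ) : ℝ) ≤ K e0 := by simpa using (hk1 e0).1
  have hne : pl.ps ≠ [] := by
    intro h
    rw [h] at y3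
    simp at y3
  obtain ⟨q, hq', θ0, β0, hq2⟩ := plok_ex y4 hk0 (hk1 e0).2 (Or.inl hne)
  have hv : ∀ e ∈ ({a, b, e0} : Finset (V ⊕ V))ᶜ,
      K e * (1 - Real.exp (-(L e0 e))) ≤ (q.1 : ℝ) * L' e0 e + (q.2.1 : ℝ) * K e := by
    intro e he
    by_cases hke : xe x a e ≠ 0 ∨ xe x b e ≠ 0
    · have h1 : L' e0 e = L e0 e := by
        rw [hL']
        beta_reduce
        rw [if_pos (cp2_of hwt he0 he hrel hke)]
      have h2 := r2 e he
      rw [h1] at h2 ⊢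
      exact plE_le (hN q hq') (hk1 e) (L0 e0 e) h2
    · rw [not_or, not_not, not_not] at hke
      have h1 : K e = 0 := by rw [hK]; beta_reduce; rw [hke.1, hke.2, add_zero]
      rw [h1, zero_mul, mul_zero, add_zero]
      exact mul_nonneg θ0 (L'0 e0 e)
  calc ∑ e ∈ ({a, b, e0} : Finset (V ⊕ V))ᶜ, (xe x a e + xe x b e)
        * (1 - Real.exp (-(Lc (P0 V) (p.cO (xe x) (P0 V) N G) a b e0 e bt bt)))
      ≤ ∑ e ∈ ({a, b, e0} : Finset (V ⊕ V))ᶜ, ((q.1 : ℝ) * L' e0 e + (q.2.1 : ℝ) * K e) :=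
        Finset.sum_le_sum fun e he => hv e he
    _ = q.1 * ∑ e ∈ ({a, b, e0} : Finset (V ⊕ V))ᶜ, L' e0 e
        + q.2.1 * ∑ e ∈ ({a, b, e0} : Finset (V ⊕ V))ᶜ, K e := by
        rw [Finset.sum_add_distrib, Finset.mul_sum, Finset.mul_sum]
    _ ≤ q.1 * ((1 - K e0) * pv pl.R1 (K e0)) + q.2.1 * (2 - K e0) :=
        add_le_add (mul_le_mul_of_nonneg_left r1 θ0) (mul_le_mul_of_nonneg_left r3 β0)
    _ ≤ _ := hq2

end Pool.Agent.RX.RCN.K
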