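import Mathlib

/-! The rows of the second type in the worlds of two vertices (MP_73ccd0_lc, route M). -/

namespace Pool.Agent.RX.RCN.K

open Set Finset MeasureTheory

set_option linter.unusedSectionVars false

namespace Xf

end Xf

variable {V : Type*} [Fintype V] [DecidableEq V]
variable {x : V → V → ℝ} {P : V → Prop} [DecidablePred P] {Hp Hm : List (List ℚ)} {N n : ℕ} {a : V}

theorem compl3 (a b d : V) : ({a, b, d} : Finset V)ᶜ = (({b, a} : Finset V)ᶜ).erase d := by
  ext z
  simp only [Finset.mem_compl, Finset.mem_insert, Finset.mem_singleton, not_or,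
    Finset.mem_erase]
  tauto

section pair

variable (hn : n < N) (ha : P a)

include hn ha

end pair

/-! ### the star -/

section star

variable {Gk Mk : ℝ → ℝ → ℝ} (hn : n < N) (ha : P a)

include hn ha

end star

end Pool.Agent.RX.RCN.K
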