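import Pool.Agent.RX.RCM.FmT
import Pool.Agent.RX.RCM.Kw

/-! The star half of the rows of the second type (MP_73ccd0_lc, route M). -/

namespace Pool.Agent.RX.RCN.K

open Set Finset MeasureTheory Pool.Agent.RX.RCRSHalf Pool.Agent.RX.RCG Pool.Agent.RX.RCG.Ct
set_option linter.unusedSectionVars false

variable {V : Type*} [Fintype V] [DecidableEq V]

namespace St

variable {Z : Hzd} {F : Lz V} {x : V → V → ℝ} {P : V → Prop} [DecidablePred P]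
variable {sl : ℝ → ℝ → ℝ} {α τ sg : ℝ} {B E1 : ℝ → ℝ → ℝ} {m' q : ℝ} {A D : Finset V}
variable {G : Fm V}

theorem Kdd_nonneg (hC : Z.Cf B E1) (hZ : Z.Ok sl) (hx : Wt x P 1) (hτ : τ ≤ bt)
    (hG : G.Tk Z F x P sg τ D B m' q) {s : ℝ} (hs : s ∈ Icc 0 τ) {c d : V}
    {pd nd : V → ℝ → ℝ} (hcU : c ∈ Dᶜ) (hl : Tls Z F x P τ D G.gp G.gs B q m' s d pd nd) :
    0 ≤ Kdd Z F x P D c d τ s G.d3 G.c4 (G.p c) (G.n c) pd nd := by
  have τ1 : τ ∈ Icc (0 : ℝ) bt := ⟨hs.1.trans hs.2, hτ⟩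
  have s1 : s ∈ Icc (0 : ℝ) bt := ⟨hs.1, hs.2.trans hτ⟩
  have hlc := hG.tc c hcU
  unfold Kdd
  rw [hG.d3, hG.c4]
  refine intervalIntegral.integral_nonneg hs.1 fun z hz => ?_
  have hzτ : z ∈ Icc 0 τ := ⟨hz.1, hz.2.trans hs.2⟩
  have hz1 : z ∈ Icc (0 : ℝ) bt := ⟨hz.1, hzτ.2.trans hτ⟩
  have T0 := K1_nonneg (F := F) hZ hx hz1
  refine add_nonneg (RCM.Qo_nonneg' T0 (fun e _ => ?_) fun e _ => ?_)
    (RCM.Qo_nonneg' T0 (fun e _ => ?_) fun e _ => ?_)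
  · exact add_nonneg (N1_nonneg hZ hx τ1 c e hzτ) (hlc.n0 e z hzτ)
  · exact add_nonneg (D3f_nonneg hC hZ hx hτ hG.q0 hG.m0 hs.2 d e hz)
      (mul_nonneg (C4f_nonneg hC hZ hx τ1 hG.q0 d e hzτ) (hl.p0 e z hz))
  · exact add_nonneg (N1_nonneg hZ hx s1 d e hz) (hl.n0 e z hz)
  · exact add_nonneg (D3f_nonneg hC hZ hx hτ hG.q0 hG.m0 le_rfl c e hzτ)
      (mul_nonneg (C4f_nonneg hC hZ hx τ1 hG.q0 c e hzτ) (hlc.p0 e z hzτ))

end St

/-! ### the star half of the rows of the second type -/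

section star

variable {x : V → V → ℝ} {P : V → Prop} [DecidablePred P] {Hp Hm : List (List ℚ)} {N n : ℕ} {G : ℕ → V → V → Fm V} {H : ℕ → V → Fm V} {a : V}

theorem cb_nonneg' (N n : ℕ) : 0 ≤ cb N n := by
  unfold cb
  have := bt_pos
  positivity

variable {E E' : V → ℝ → ℝ}

end star

end Pool.Agent.RX.RCN.K
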