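import Pool.Agent.RX.RCM.FmT
import Pool.Agent.RX.RCM.TCmp
import Pool.Agent.RX.RCN.XrD
import Pool.Agent.RX.RCN.XrE

/-! Comparison of the closure exponents of two worlds (MP_73ccd0_lc, route M). -/

namespace Pool.Agent.RX.RCN.K

open Set Finset MeasureTheory Pool.Agent.RX.RCRSHalf Pool.Agent.RX.RCG Pool.Agent.RX.RCG.Ct

set_option linter.unusedSectionVars false

variable {V : Type*} [Fintype V] [DecidableEq V]

theorem ii_c {f : ℝ → ℝ} {a b : ℝ} (h : a ≤ b) (hf : ContinuousOn f (Icc a b)) :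
    IntervalIntegrable f volume a b := by
  rw [← uIcc_of_le h] at hf
  exact hf.intervalIntegrable

/-- level 0 of `F` in the world `D` is below that of `F'` -/
structure Dm (F F' : Lz V) (τ : ℝ) (D : Finset V) : Prop where
  y : ∀ e ∈ Dᶜ, ∀ f ∈ Dᶜ, e ≠ f → ∀ r ∈ Icc 0 τ, F.y1 e r + F.y1 f r ≤ F'.y1 e r + F'.y1 f r
  n : ∀ e ∈ Dᶜ, ∀ r ∈ Icc 0 τ, F.n1 e r ≤ F'.n1 e r
  n1 : ∀ e ∈ Dᶜ, ∀ r ∈ Icc 0 τ, F'.n1 e r ≤ 1

variable {Z : Hzd} {F F' : Lz V} {x : V → V → ℝ} {P : V → Prop} [DecidablePred P]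
variable {sl : ℝ → ℝ → ℝ} {τ sg : ℝ} {B E1 : ℝ → ℝ → ℝ} {m q : ℝ} {D D' : Finset V}
variable {G G' : Fm V} {i : Xi}

theorem Dm.K (h : Dm F F' τ D) (hZ : Z.Ok sl) (hx : Wt x P 1) (hτ : τ ≤ bt) {e f : V}
    (he : e ∈ Dᶜ) (hf : f ∈ Dᶜ) {r : ℝ} (hr : r ∈ Icc 0 τ) :
    K1 Z F x P r e f ≤ K1 Z F' x P r e f := by
  have hr1 : r ∈ Icc (0 : ℝ) bt := ⟨hr.1, hr.2.trans hτ⟩
  rcases eq_or_ne e f with rfl | hef
  · show Z.hh x P r e e * _ ≤ Z.hh x P r e e * _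
    rw [Hzd.hh_zero (hx.diag e), zero_mul, zero_mul]
  · exact mul_le_mul_of_nonneg_left (Real.exp_le_exp.2 (h.y e he f hf hef r hr))
      (hZ.hh_nonneg hx hr1 e f)

theorem Dm.Aa (h : Dm F F' τ D) (hZ : Z.Ok sl) (hx : Wt x P 1) (hτ : τ ≤ bt) {e f : V}
    (he : e ∈ Dᶜ) (hf : f ∈ Dᶜ) {r : ℝ} (hr : r ∈ Icc 0 τ) :
    RCM.Ab (Z.hh x P) F.y1 r e f ≤ RCM.Ab (Z.hh x P) F'.y1 r e f := by
  have hr1 : r ∈ Icc (0 : ℝ) bt := ⟨hr.1, hr.2.trans hτ⟩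
  rcases eq_or_ne e f with rfl | hef
  · show Z.hh x P r e e * _ ≤ Z.hh x P r e e * _
    rw [Hzd.hh_zero (hx.diag e), zero_mul, zero_mul]
  · have := Real.exp_le_exp.2 (h.y e he f hf hef r hr)
    exact mul_le_mul_of_nonneg_left (by linarith) (hZ.hh_nonneg hx hr1 e f)

theorem Dm.W (h : Dm F F' τ D) (hZ : Z.Ok sl) (hx : Wt x P 1) (hτ : τ ≤ bt) {e f : V}
    (he : e ∈ Dᶜ) (hf : f ∈ Dᶜ) {r : ℝ} (hr : r ∈ Icc 0 τ) :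
    RCM.Bw (Z.hh x P) F.n1 r e f ≤ RCM.Bw (Z.hh x P) F'.n1 r e f := by
  have hr1 : r ∈ Icc (0 : ℝ) bt := ⟨hr.1, hr.2.trans hτ⟩
  have h1 := h.n e he r hr
  have h2 := h.n f hf r hr
  have h3 := h.n1 e he r hr
  have h4 := h.n1 f hf r hr
  unfold RCM.Bw
  refine mul_le_mul_of_nonneg_left ?_ (hZ.hh_nonneg hx hr1 e f)
  nlinarith

theorem Dm.N (h : Dm F F' τ D) (hDD : D' ⊆ D) (hZ : Z.Ok sl) (hx : Wt x P 1) (hτ : τ ≤ bt)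
    (cT : ∀ e f, ContinuousOn (fun r => K1 Z F x P r e f) (Icc 0 τ))
    (cT' : ∀ e f, ContinuousOn (fun r => K1 Z F' x P r e f) (Icc 0 τ))
    {σ : ℝ} (hσ : σ ∈ Icc 0 τ) {c e : V} (he : e ∈ Dᶜ) {r : ℝ} (hr : r ∈ Icc 0 σ) :
    N1 Z F x P D σ c e r ≤ N1 Z F' x P D' σ c e r := by
  have hσ1 : σ ∈ Icc (0 : ℝ) bt := ⟨hσ.1, hσ.2.trans hτ⟩
  have sub : Icc 0 σ ⊆ Icc 0 τ := Icc_subset_Icc_right hσ.2
  have hDc : Dᶜ ⊆ D'ᶜ := Finset.compl_subset_compl.2 hDD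
  have cD : ∀ f, ContinuousOn (fun r => Z.Dd x P σ c f r) (Icc 0 σ) := fun f =>
    (hZ.Dd_cont hx σ c f).mono (Icc_subset_Icc_right hσ1.2)
  unfold N1
  refine RCM.bk_le hr le_rfl
    (continuousOn_finsetSum _ fun f _ => ((cT e f).mono sub).mul (cD f))
    (continuousOn_finsetSum _ fun f _ => ((cT' e f).mono sub).mul (cD f))
    (fun z hz => ?_) fun z hz => Finset.sum_nonneg fun f _ =>
      mul_nonneg (K1_nonneg hZ hx ⟨hz.1, hz.2.trans hσ1.2⟩ e f) (hZ.Dd_nonneg hx hσ1 c f hz)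
  have hz1 : z ∈ Icc (0 : ℝ) bt := ⟨hz.1, hz.2.trans hσ1.2⟩
  refine (Finset.sum_le_sum fun f hf => mul_le_mul_of_nonneg_right
    (h.K hZ hx hτ he (Finset.mem_of_mem_erase hf) (sub hz)) (hZ.Dd_nonneg hx hσ1 c f hz)).trans ?_
  exact Finset.sum_le_sum_of_subset_of_nonneg (Finset.erase_subset_erase _ hDc) fun f _ _ =>
    mul_nonneg (K1_nonneg hZ hx hz1 e f) (hZ.Dd_nonneg hx hσ1 c f hz)

/-- the functions of level 1/2 of `G` in the world `D` are below those of `G'` -/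
structure Gc (G G' : Fm V) (τ : ℝ) (D : Finset V) : Prop where
  p : ∀ i ∈ Dᶜ, ∀ j ∈ Dᶜ, i ≠ j → ∀ r ∈ Icc 0 τ, G.gp i j r ≤ G'.gp i j r
  m : ∀ i ∈ Dᶜ, ∀ j ∈ Dᶜ, i ≠ j → ∀ r ∈ Icc 0 τ, G.gm i j r ≤ G'.gm i j r
  s : ∀ i ∈ Dᶜ, ∀ j ∈ Dᶜ, ∀ r ∈ Icc 0 τ, G.gs i j r ≤ G'.gs i j r
  z : ∀ i r, G.gp i i r = 0
  z' : ∀ i r, G'.gp i i r = 0

/-- the setting -/
structure Cs (Z : Hzd) (F F' : Lz V) (x : V → V → ℝ) (P : V → Prop) [DecidablePred P]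
    (sg τ : ℝ) (D D' : Finset V) (B : ℝ → ℝ → ℝ) (m q : ℝ) (G G' : Fm V) : Prop where
  dd : D' ⊆ D
  dm : Dm F F' τ D
  gc : Gc G G' τ D
  tk : G.Tk Z F x P sg τ D B m q
  tk' : G'.Tk Z F' x P sg τ D' B m q
  cT : ∀ e f, ContinuousOn (fun r => K1 Z F x P r e f) (Icc 0 τ)
  cT' : ∀ e f, ContinuousOn (fun r => K1 Z F' x P r e f) (Icc 0 τ)
  cB : ContinuousOn (B τ) (Icc 0 τ)

/-- **comparison of the tails** -/
theorem Cs.tl (h : Cs Z F F' x P sg τ D D' B m q G G') (hC : Z.Cf B E1) (hZ : Z.Ok sl)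
    (hx : Wt x P 1) (hτ : τ ≤ bt) {s : ℝ} (hs : s ∈ Icc 0 τ) {c : V} {p n p' n' : V → ℝ → ℝ}
    (hl : Tls Z F x P τ D G.gp G.gs B q m s c p n)
    (hl' : Tls Z F' x P τ D' G'.gp G'.gs B q m s c p' n')
    (ep : ∀ e ∈ Dᶜ.erase c, p e s ≤ p' e s) (en : ∀ e ∈ Dᶜ.erase c, n e s ≤ n' e s) :
    ∀ e ∈ Dᶜ.erase c, ∀ r ∈ Icc 0 s, p e r ≤ p' e r ∧ n e r ≤ n' e r := by
  have hDc : Dᶜ ⊆ D'ᶜ := Finset.compl_subset_compl.2 h.dd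
  have sub : Icc 0 s ⊆ Icc 0 τ := Icc_subset_Icc_right hs.2
  have s1 : s ∈ Icc (0 : ℝ) bt := ⟨hs.1, hs.2.trans hτ⟩
  have τ1 : τ ∈ Icc (0 : ℝ) bt := ⟨hs.1.trans hs.2, hτ⟩
  have m1 : ∀ r ∈ Icc 0 s, r ∈ Icc (0 : ℝ) bt := fun r hr => ⟨hr.1, hr.2.trans s1.2⟩
  have X : ∀ {e}, e ∈ Dᶜ.erase c → e ∈ Dᶜ := fun he => Finset.mem_of_mem_erase he
  have q0 := h.tk.q0
  have m0 := h.tk.m0
  refine RCM.Tl.cmp (Finset.erase_subset_erase _ hDc) hl hl'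
    (fun i j => (h.cT i j).mono sub) (fun i j => (h.tk.cp i j).mono sub)
    (fun i j => (h.tk.cs i j).mono sub) (fun i => (C1f_cont hZ hx hτ q c i).mono sub)
    (fun i => (C4f_cont hZ hx hτ h.cB q c i).mono sub)
    (fun r hr i j => K1_nonneg hZ hx (m1 r hr) i j) (fun r hr i j => K1_nonneg hZ hx (m1 r hr) i j)
    (fun r hr i hi j hj => h.dm.K hZ hx hτ (X hi) (X hj) (sub hr))
    (fun i _ r hr => D3f_nonneg hC hZ hx hτ q0 m0 hs.2 c i hr) (fun _ _ _ _ => le_rfl)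
    (fun i _ r hr => D3f_nonneg hC hZ hx hτ q0 m0 hs.2 c i hr)
    (fun i _ r hr => N1_nonneg hZ hx s1 c i hr) (fun i _ r hr => N1_nonneg hZ hx s1 c i hr)
    (fun i hi r hr => h.dm.N h.dd hZ hx hτ h.cT h.cT' hs (X hi) hr)
    (fun i j r hr => h.tk.gp0 i j r (sub hr)) (fun i j r hr => h.tk.gs0 i j r (sub hr))
    (fun i j r hr => h.tk'.gp0 i j r (sub hr)) (fun i j r hr => h.tk'.gs0 i j r (sub hr))
    (fun i hi j hj r hr => ?_)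
    (fun i hi j hj r hr => h.gc.s i (X hi) j (X hj) r (sub hr))
    (fun i r hr => C1f_nonneg hZ hx τ1 q0 c i (sub hr))
    (fun i r hr => C4f_nonneg hC hZ hx τ1 q0 c i (sub hr))
    (fun i r hr => C1f_nonneg hZ hx τ1 q0 c i (sub hr))
    (fun i r hr => C4f_nonneg hC hZ hx τ1 q0 c i (sub hr))
    (fun _ _ _ _ => le_rfl) (fun _ _ _ _ => le_rfl) ep en
  rcases eq_or_ne i j with rfl | hij
  · rw [h.gc.z, h.gc.z']
  · exact h.gc.p i (X hi) j (X hj) hij r (sub hr)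

/-- the tails of the cell -/
theorem Cs.tc (h : Cs Z F F' x P sg τ D D' B m q G G') (hC : Z.Cf B E1) (hZ : Z.Ok sl)
    (hx : Wt x P 1) (hτ : τ ≤ bt) (τ0 : 0 ≤ τ) {c : V} (hc : c ∈ Dᶜ) :
    ∀ e ∈ Dᶜ.erase c, ∀ r ∈ Icc 0 τ, G.p c e r ≤ G'.p c e r ∧ G.n c e r ≤ G'.n c e r := by
  have hDc : Dᶜ ⊆ D'ᶜ := Finset.compl_subset_compl.2 h.dd
  refine h.tl hC hZ hx hτ ⟨τ0, le_rfl⟩ (h.tk.tc c hc) (h.tk'.tc c (hDc hc)) (fun e he => ?_)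
    fun e he => ?_
  · rw [(h.tk.ec c e he).1, (h.tk'.ec c e (Finset.erase_subset_erase _ hDc he)).1]
  · rw [(h.tk.ec c e he).2, (h.tk'.ec c e (Finset.erase_subset_erase _ hDc he)).2]

/-- the tails of the deleted closure -/
theorem Cs.td (h : Cs Z F F' x P sg τ D D' B m q G G') (hC : Z.Cf B E1) (hZ : Z.Ok sl)
    (hx : Wt x P 1) (hτ : τ ≤ bt) {s : ℝ} (hs : s ∈ Icc 0 τ) (hsg : s ≤ sg) {d : V}
    (hd : d ∈ Dᶜ) : ∀ e ∈ Dᶜ.erase d, ∀ r ∈ Icc 0 s,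
      G.pd s d e r ≤ G'.pd s d e r ∧ G.nd s d e r ≤ G'.nd s d e r := by
  have hDc : Dᶜ ⊆ D'ᶜ := Finset.compl_subset_compl.2 h.dd
  have hs' : s ∈ Icc 0 sg := ⟨hs.1, hsg⟩
  refine h.tl hC hZ hx hτ hs (h.tk.td s hs' d hd) (h.tk'.td s hs' d (hDc hd)) (fun e he => ?_)
    fun e he => ?_
  · rw [h.tk.pd s hs' d hd e he, h.tk'.pd s hs' d (hDc hd) e (Finset.erase_subset_erase _ hDc he)]
  · rw [h.tk.nd s hs' d hd e he, h.tk'.nd s hs' d (hDc hd) e (Finset.erase_subset_erase _ hDc he)]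

/-- the tails of the released closure -/
theorem Cs.tt (h : Cs Z F F' x P sg τ D D' B m q G G') (hC : Z.Cf B E1) (hZ : Z.Ok sl)
    (hx : Wt x P 1) (hτ : τ ≤ bt) {s : ℝ} (hs : s ∈ Icc 0 τ) (hsg : s ≤ sg) {d : V}
    (hd : d ∈ Dᶜ) : ∀ e ∈ Dᶜ.erase d, ∀ r ∈ Icc 0 s,
      G.pt s d e r ≤ G'.pt s d e r ∧ G.nt s d e r ≤ G'.nt s d e r := by
  have hDc : Dᶜ ⊆ D'ᶜ := Finset.compl_subset_compl.2 h.dd
  have hs' : s ∈ Icc 0 sg := ⟨hs.1, hsg⟩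
  refine h.tl hC hZ hx hτ hs (h.tk.tt s hs' d hd) (h.tk'.tt s hs' d (hDc hd)) (fun e he => ?_)
    fun e he => ?_
  · rw [h.tk.ptT s hs' d hd e he,
      h.tk'.ptT s hs' d (hDc hd) e (Finset.erase_subset_erase _ hDc he)]
    exact h.gc.m d hd e (Finset.mem_of_mem_erase he) (Finset.ne_of_mem_erase he).symm s hs
  · rw [h.tk.ntT s hs' d hd e he,
      h.tk'.ntT s hs' d (hDc hd) e (Finset.erase_subset_erase _ hDc he)]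
    exact h.gc.p d hd e (Finset.mem_of_mem_erase he) (Finset.ne_of_mem_erase he).symm s hs

/-- **comparison of level 2** -/
theorem Cs.kdd (h : Cs Z F F' x P sg τ D D' B m q G G') (hC : Z.Cf B E1) (hZ : Z.Ok sl)
    (hx : Wt x P 1) (hτ : τ ≤ bt) {s : ℝ} (hs : s ∈ Icc 0 τ) {c d : V} (hc : c ∈ Dᶜ)
    (hd : d ∈ Dᶜ) {pd nd pd' nd' : V → ℝ → ℝ}
    (hl : Tls Z F x P τ D G.gp G.gs B q m s d pd nd)
    (hl' : Tls Z F' x P τ D' G'.gp G'.gs B q m s d pd' nd')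
    (hpn : ∀ e ∈ Dᶜ.erase d, ∀ r ∈ Icc 0 s, pd e r ≤ pd' e r ∧ nd e r ≤ nd' e r) :
    Kdd Z F x P D c d τ s (D3f Z x P B τ q m) (C4f Z x P B τ q) (G.p c) (G.n c) pd nd
      ≤ Kdd Z F' x P D' c d τ s (D3f Z x P B τ q m) (C4f Z x P B τ q) (G'.p c) (G'.n c)
        pd' nd' := by
  have hDc : Dᶜ ⊆ D'ᶜ := Finset.compl_subset_compl.2 h.dd
  have τ0 : 0 ≤ τ := hs.1.trans hs.2
  have hττ : τ ∈ Icc 0 τ := ⟨τ0, le_rfl⟩
  have sub : Icc 0 s ⊆ Icc 0 τ := Icc_subset_Icc_right hs.2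
  have s1 : s ∈ Icc (0 : ℝ) bt := ⟨hs.1, hs.2.trans hτ⟩
  have τ1 : τ ∈ Icc (0 : ℝ) bt := ⟨τ0, hτ⟩
  have q0 := h.tk.q0
  have m0 := h.tk.m0
  have hlc := h.tk.tc c hc
  have hlc' := h.tk'.tc c (hDc hc)
  have hcn := h.tc hC hZ hx hτ τ0 hc
  have X : (Dᶜ.erase c).erase d ⊆ (D'ᶜ.erase c).erase d :=
    Finset.erase_subset_erase _ (Finset.erase_subset_erase _ hDc)
  have X1 : ∀ {e}, e ∈ (Dᶜ.erase c).erase d → e ∈ Dᶜ.erase c := fun he =>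
    Finset.mem_of_mem_erase he
  have X2 : ∀ {e}, e ∈ (Dᶜ.erase c).erase d → e ∈ Dᶜ.erase d := fun he =>
    Finset.mem_erase.2 ⟨Finset.ne_of_mem_erase he, Finset.mem_of_mem_erase (X1 he)⟩
  have X0 : ∀ {e}, e ∈ (Dᶜ.erase c).erase d → e ∈ Dᶜ := fun he =>
    Finset.mem_of_mem_erase (X1 he)
  unfold Kdd
  refine intervalIntegral.integral_mono_on hs.1
    (ii_c hs.1 (kint_cont (G := G) hZ hx hτ h.cT h.cB hs hlc hl))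
    (ii_c hs.1 (kint_cont (G := G') hZ hx hτ h.cT' h.cB hs hlc' hl')) fun z hz => ?_
  have hzτ := sub hz
  have hz1 : z ∈ Icc (0 : ℝ) bt := ⟨hz.1, hz.2.trans s1.2⟩
  have T0 := K1_nonneg (F := F) hZ hx hz1
  have T0' := K1_nonneg (F := F') hZ hx hz1
  have TT : ∀ e ∈ (Dᶜ.erase c).erase d, ∀ f ∈ (Dᶜ.erase c).erase d,
      K1 Z F x P z e f ≤ K1 Z F' x P z e f := fun e he f hf =>
    h.dm.K hZ hx hτ (X0 he) (X0 hf) hzτ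
  have d3 : ∀ c e, 0 ≤ D3f Z x P B τ q m s c e z := fun c e =>
    D3f_nonneg hC hZ hx hτ q0 m0 hs.2 c e hz
  have d3' : ∀ c e, 0 ≤ D3f Z x P B τ q m τ c e z := fun c e =>
    D3f_nonneg hC hZ hx hτ q0 m0 le_rfl c e hzτ
  have c4 : ∀ c e, 0 ≤ C4f Z x P B τ q c e z := fun c e => C4f_nonneg hC hZ hx τ1 q0 c e hzτ
  refine add_le_add
    (RCM.Qo_mono5 X (fun e _ f _ => T0 e f) T0' TT
      (fun e _ => add_nonneg (N1_nonneg hZ hx τ1 c e hzτ) (hlc.n0 e z hzτ))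
      (fun e _ => add_nonneg (N1_nonneg hZ hx τ1 c e hzτ) (hlc'.n0 e z hzτ))
      (fun e he => add_le_add (h.dm.N h.dd hZ hx hτ h.cT h.cT' hττ (X0 he) hzτ)
        (hcn e (X1 he) z hzτ).2)
      (fun e _ => add_nonneg (d3 d e) (mul_nonneg (c4 d e) (hl.p0 e z hz)))
      (fun e _ => add_nonneg (d3 d e) (mul_nonneg (c4 d e) (hl'.p0 e z hz)))
      fun e he => add_le_add le_rfl (mul_le_mul_of_nonneg_left (hpn e (X2 he) z hz).1 (c4 d e)))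
    (RCM.Qo_mono5 X (fun e _ f _ => T0 e f) T0' TT
      (fun e _ => add_nonneg (N1_nonneg hZ hx s1 d e hz) (hl.n0 e z hz))
      (fun e _ => add_nonneg (N1_nonneg hZ hx s1 d e hz) (hl'.n0 e z hz))
      (fun e he => add_le_add (h.dm.N h.dd hZ hx hτ h.cT h.cT' hs (X0 he) hz)
        (hpn e (X2 he) z hz).2)
      (fun e _ => add_nonneg (d3' c e) (mul_nonneg (c4 c e) (hlc.p0 e z hzτ)))
      (fun e _ => add_nonneg (d3' c e) (mul_nonneg (c4 c e) (hlc'.p0 e z hzτ)))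
      fun e he => add_le_add le_rfl (mul_le_mul_of_nonneg_left (hcn e (X1 he) z hzτ).1 (c4 c e)))

end Pool.Agent.RX.RCN.K
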