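import Pool.Agent.RX.RCM9.DatZ
import Pool.Agent.RX.RCN.Ins

/-! Scalar bounds of level 0 in the worlds of two removed vertices (MP_73ccd0_lc, route M). -/

namespace Pool.Agent.RX.RCN.K

open Set Finset MeasureTheory Pool.Agent.RX.RCRSHalf Pool.Agent.RX.RCG Pool.Agent.RX.RCG.Ct
open Pool.Agent.RX.RCN.Ker Pool.Agent.RX.RCRS Pool.Agent.RX.RCM9 Pool.Agent.RX.RCM9.Bern Pool.Agent.RX.RCM9.Pk

set_option linter.unusedSectionVars false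

variable {V : Type*} [Fintype V] [DecidableEq V]
variable {p : Ps} {x : V → V → ℝ} {P : V → Prop} [DecidablePred P] {a b : V} {sg τ : ℝ}

/-- the scalar conditions of level 0 with the clocks of both removed vertices -/
theorem l0s2 (hp : p.Ok) (hx : Wt x P 1) (hab : a ≠ b) (hτ : τ ∈ Icc (0 : ℝ) bt) (sg0 : 0 ≤ sg)
    (sgτ : sg ≤ τ) :
    RCM.L0s (p.z.hz.hh x P) x {a, b} τ (pv p.z.mb) (p.y.th2 p.z a τ sg) (p.y.Y τ) (p.y.Y' τ)
      (p.y.N τ) (p.y.N' τ) := by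
  have h := hp.y
  have hz := hp.z
  have hZ := hp.z.ok hp.d
  have hs : sg ∈ Icc 0 τ := ⟨sg0, sgτ⟩
  have m1 : ∀ r ∈ Icc 0 τ, r ∈ Icc (0 : ℝ) bt := fun r hr => ⟨hr.1, hr.2.trans hτ.2⟩
  have mb0 : ∀ r ∈ Icc 0 τ, 0 ≤ pv p.z.mb r := fun r hr =>
    zero_le_one.trans (hz.mb_one (m1 r hr))
  have ea : p.y.th2 p.z a τ sg a = fun r => p.z.Th τ r := by
    funext r; unfold YDat.th2; rw [if_pos rfl]
  have eb : p.y.th2 p.z a τ sg b = fun r => p.y.tb p.z τ sg r := by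
    funext r; unfold YDat.th2; rw [if_neg hab.symm]
  have b0 : ∀ r ∈ Icc 0 τ, 0 ≤ p.y.tb p.z τ sg r := fun r hr => h.tb0 hr.1 hr.2 hτ.2
  have ba : ∀ r ∈ Icc 0 τ, p.y.tb p.z τ sg r ≤ p.z.Th τ r := fun r hr =>
    h.tb_le hz hs.1 hs.2 hr.1 hr.2 le_rfl hτ.2
  refine ⟨fun u v r hr => hZ.hh_nonneg hx (m1 r hr) u v,
    fun u v => (hZ.hh_cont hx u v).mono (Icc_subset_Icc_right hτ.2),
    fun u v r hr => Hzd.hh_le hx (fun _ hy _ hs => hz.rr_mb hy hs) (fun _ hs => hz.mb_one hs)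
      (m1 r hr) u v, mb0, fun w hw r hr => ?_,
    fun w hw => ?_, fun r _ => YDat.hasDerivAt_Y τ r, fun r _ => YDat.hasDerivAt_N τ r,
    fun r hr => h.Y0 hr.1 hr.2 hτ.2, fun r hr => h.N0 hr.1 hr.2 hτ.2,
    fun r hr => h.N1 hr.1 hr.2 hτ.2, fun r hr => h.oY hr.1 hr.2 hτ.2, fun e he r hr => ?_⟩
  · rcases Finset.mem_insert.1 hw with h1 | h1
    · rw [h1, ea]; exact (b0 r hr).trans (ba r hr)
    · rw [Finset.mem_singleton.1 h1, eb]; exact b0 r hr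
  · rcases Finset.mem_insert.1 hw with h1 | h1
    · rw [h1, ea]; exact YDat.cTh τ
    · rw [Finset.mem_singleton.1 h1, eb]; exact YDat.ctb τ sg
  · have Y0 := h.Y0 hr.1 hr.2 hτ.2
    have h1 := RCM.row_two (wt_of hx) hab (U := ({a, b} : Finset V)ᶜ) (by simp) (by simp)
      (Y := p.y.Y τ r) (θa := p.z.Th τ r) (θb := p.y.tb p.z τ sg r)
      Y0 (h.Y_tb τ sg r) (ba r hr) (by linarith [h.Th2 hr.1 hr.2 hτ.2])
      (fun w => p.y.th2 p.z a τ sg w r) (by rw [ea]) (by rw [eb]) e he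
    refine (mul_le_mul_of_nonneg_left h1 (mb0 r hr)).trans ?_
    exact h.oN2 hz hr.1 hr.2 hτ.2 le_rfl (ba r hr)

/-- the exponents of the cell -/
theorem lz2_y1_le (hp : p.Ok) (hx : Wt x P 1) (hab : a ≠ b) (hτ : τ ∈ Icc (0 : ℝ) bt)
    (sg0 : 0 ≤ sg) (sgτ : sg ≤ τ) (e : V) {r : ℝ} (hr : r ∈ Icc 0 τ) :
    (p.y.lz2 p.z x P a b sg τ).y1 e r
      ≤ (x a e + x b e) * p.z.Th τ r + (1 - (x a e + x b e)) * p.y.Y τ r := by
  have hL := l0s2 (P := P) hp hx hab hτ sg0 sgτ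
  have h1 := hL.yx_le (wt_of hx) hτ.1 e hr
  refine (show (p.y.lz2 p.z x P a b sg τ).y1 e r ≤ _ from h1).trans ?_
  unfold RCM.yhat
  rw [Finset.sum_pair hab, Finset.sum_pair hab]
  have ea : p.y.th2 p.z a τ sg a r = p.z.Th τ r := by unfold YDat.th2; rw [if_pos rfl]
  have eb : p.y.th2 p.z a τ sg b r = p.y.tb p.z τ sg r := by
    unfold YDat.th2; rw [if_neg hab.symm]
  rw [ea, eb]
  have h2 := mul_le_mul_of_nonneg_left
    (hp.y.tb_le hp.z sg0 sgτ hr.1 hr.2 le_rfl hτ.2) (hx.nonneg b e)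
  linarith

/-- the lower functions of the cell -/
theorem lz2_n1_le (hp : p.Ok) (hx : Wt x P 1) (hab : a ≠ b) (hτ : τ ∈ Icc (0 : ℝ) bt)
    (sg0 : 0 ≤ sg) (sgτ : sg ≤ τ) (e : V) {r : ℝ} (hr : r ∈ Icc 0 τ) :
    (p.y.lz2 p.z x P a b sg τ).n1 e r ≤ p.y.N τ r := by
  have hL := l0s2 (P := P) hp hx hab hτ sg0 sgτ
  by_cases he : e ∈ ({a, b} : Finset V)
  · show RCM.nx _ _ _ _ _ _ e r ≤ _
    unfold RCM.nx
    rw [if_pos he]
    exact hp.y.N0 hr.1 hr.2 hτ.2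
  · exact (hL.nx_le (wt_of hx) hτ.1 e hr).trans
      (hL.nv_le (wt_of hx) hτ.1 e (Finset.mem_compl.2 he) r hr)

end Pool.Agent.RX.RCN.K
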