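import Pool.Agent.RX.RCN.Cel
import Pool.Agent.RX.RCN.StA
import Pool.Agent.RX.RCN.Yl

/-! The star world of `a`: level 0 without the first removed vertex, and the bounds of the
exponents which do not depend on it (MP_73ccd0_lc, route M). -/

namespace Pool.Agent.RX.RCN.K

open Set Finset MeasureTheory Pool.Agent.RX.RCRSHalf Pool.Agent.RX.RCG Pool.Agent.RX.RCG.Ct
open Pool.Agent.RX.RCN.Ker Pool.Agent.RX.RCRS Pool.Agent.RX.RCM9 Pool.Agent.RX.RCM9.Bern Pool.Agent.RX.RCM9.Pk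

set_option linter.unusedSectionVars false

variable {V : Type*} [Fintype V] [DecidableEq V]

/-- the exponents of the star world of `a` -/
noncomputable def Ps.ys (p : Ps) (x : V → V → ℝ) (a : V) (τ : ℝ) (e : V) (r : ℝ) : ℝ :=
  x a e * p.z.Th τ r + (1 - x a e) * p.y.Y τ r + (p.z.Th τ r - p.y.Y τ r) / 2

/-- level 0 of the star world of `a` -/
noncomputable def Ps.lzs (p : Ps) (x : V → V → ℝ) (a : V) (τ : ℝ) : Lz V where
  y2 _ _ := p.ys x a τ
  n2 _ _ := fun _ r => p.y.N τ r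
  y1 := p.ys x a τ
  n1 _ := fun r => p.y.N τ r

variable {p : Ps} {x : V → V → ℝ} {P : V → Prop} [DecidablePred P] {a b : V} {sg α τ : ℝ}
variable {m q : ℝ} {G G' : Fm V} {i : Xi}

theorem Ps.ys_cont (p : Ps) (x : V → V → ℝ) (a : V) (τ : ℝ) (e : V) {S : Set ℝ} :
    ContinuousOn (p.ys x a τ e) S := by
  have c1 : ContinuousOn (fun r => p.z.Th τ r) S := YDat.cTh τ
  have c2 : ContinuousOn (fun r => p.y.Y τ r) S :=
    ((YDat.cont_Y (y := p.y)).comp (continuous_const.prodMk continuous_id)).continuousOn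
  unfold Ps.ys
  exact ((continuousOn_const.mul c1).add (continuousOn_const.mul c2)).add
    ((c1.sub c2).div_const 2)

/-- the star world is above every world `{b, a}` -/
theorem star_dm (hp : p.Ok) (hx : Wt x P 1) (hab : a ≠ b) (hτ : τ ∈ Icc (0 : ℝ) bt)
    (sg0 : 0 ≤ sg) (sgτ : sg ≤ τ) :
    Dm (p.y.lz2 p.z x P b a sg τ) (p.lzs x a τ) τ {b, a} := by
  refine ⟨fun e he f hf hef r hr => ?_, fun e _ r hr => lz2_n1_le hp hx hab.symm hτ sg0 sgτ e hr,
    fun e _ r hr => hp.y.N1 hr.1 hr.2 hτ.2⟩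
  have h1 := lz2_y1_le (P := P) hp hx hab.symm hτ sg0 sgτ e hr
  have h2 := lz2_y1_le (P := P) hp hx hab.symm hτ sg0 sgτ f hr
  have hYT := hp.y.YTh hr.1 hr.2 hτ.2
  have hb : x b e + x b f ≤ 1 := by
    have h3 : ∑ w ∈ ({e, f} : Finset V), x b w ≤ ∑ w, x b w :=
      Finset.sum_le_sum_of_subset_of_nonneg (Finset.subset_univ _) fun w _ _ => hx.nonneg b w
    rw [Finset.sum_pair hef] at h3
    linarith [hx.row b]
  have h4 := mul_le_mul_of_nonneg_right hb (sub_nonneg.2 hYT)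
  show _ ≤ p.ys x a τ e r + p.ys x a τ f r
  unfold Ps.ys
  linarith

/-- the tails of a cell -/
theorem Cl2.tk (h : Cl2 p x P a b sg α τ m q G) :
    G.Tk p.z.hz (p.y.lz2 p.z x P a b sg τ) x P sg τ {a, b} p.g.rB m q :=
  h.ok.tk h.gd h.cl.kE h.pe

theorem rB_cont (p : Ps) (τ : ℝ) : ContinuousOn (p.g.rB τ) (Icc 0 τ) := by
  unfold KDat.rB
  exact ((continuous_const.sub continuous_id).mul
    ((continuous_pv2' p.g.QB).comp (continuous_id.prodMk continuous_const))).continuousOn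

/-- **the setting of the comparison** -/
theorem star_cs (hp : p.Ok) (hx : Wt x P 1) (hab : a ≠ b) (hτ : τ ∈ Icc (0 : ℝ) bt)
    (sg0 : 0 ≤ sg) (sgτ : sg ≤ τ) (h : Cl2 p x P b a sg α τ m q G)
    (h' : G'.Tk p.z.hz (p.lzs x a τ) x P sg τ {a} p.g.rB m q) (hg : Gc G G' τ {b, a}) :
    Cs p.z.hz (p.y.lz2 p.z x P b a sg τ) (p.lzs x a τ) x P sg τ {b, a} {a} p.g.rB m q G G' := by
  have hZ := hp.z.ok hp.d
  exact ⟨by simp, star_dm hp hx hab hτ sg0 sgτ, hg, h.tk, h',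
    fun e f => Tb_cont hZ hx hτ.2
      (fun e => YDat.lz2_y1 (P := P) hp.y hp.z hp.d hx hab.symm hτ sg0 sgτ e) e f,
    fun e f => Tb_cont hZ hx hτ.2 (fun e => p.ys_cont x a τ e) e f, rB_cont p τ⟩

theorem compl_pair (a e : V) : ({a, e} : Finset V)ᶜ = ({a} : Finset V)ᶜ.erase e := by
  ext z
  simp only [Finset.mem_compl, Finset.mem_insert, Finset.mem_singleton, Finset.mem_erase, not_or]
  tauto

end Pool.Agent.RX.RCN.K
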