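import Pool.Agent.RX.RCN.MGr
import Pool.Agent.RX.RCN.StB

/-! The kernel and the sources of the star world in the clock (MP_73ccd0_lc, route M). -/

namespace Pool.Agent.RX.RCN.K

open Set Finset MeasureTheory Pool.Agent.RX.RCRSHalf Pool.Agent.RX.RCG Pool.Agent.RX.RCG.Ct
open Pool.Agent.RX.RCN.Ker Pool.Agent.RX.RCRS Pool.Agent.RX.RCM9 Pool.Agent.RX.RCM9.Bern Pool.Agent.RX.RCM9.Pk

set_option linter.unusedSectionVars false

variable {V : Type*} [Fintype V] [DecidableEq V]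
variable {p : Ps} {x : V → V → ℝ} {P : V → Prop} [DecidablePred P] {a b : V} {sg α τ : ℝ}
variable {y B : List ℚ}

/-- one endpoint of the kernel of the star -/
noncomputable def fst' (y : List ℚ) (k u : ℝ) : ℝ :=
  Real.exp ((k + 1 / 2) * u + (1 / 2 - k) * pv y u)

theorem kx_one (x : V → V → ℝ) (a e : V) : RCM.kx x {a} e = x a e := by
  unfold RCM.kx
  rw [Finset.sum_singleton]

/-- two exponents of the star -/
theorem Ps.ys_add (hp : p.Ok) (hx : Wt x P 1) (hτ : τ ≤ bt) (hc : Ckp p y B) {e f : V}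
    (hef : e ≠ f) {r : ℝ} (hr : r ∈ Icc 0 τ) :
    0 ≤ p.ys x a τ e r + p.ys x a τ f r ∧
    p.ys x a τ e r + p.ys x a τ f r
      ≤ ((x a e + 1 / 2) * (p.Cc τ - p.Cc r) + (1 / 2 - x a e) * pv y (p.Cc τ - p.Cc r))
        + ((x a f + 1 / 2) * (p.Cc τ - p.Cc r) + (1 / 2 - x a f) * pv y (p.Cc τ - p.Cc r)) := by
  have hb : x a e + x a f ≤ 1 := by
    have h3 : ∑ w ∈ ({e, f} : Finset V), x a w ≤ ∑ w, x a w :=
      Finset.sum_le_sum_of_subset_of_nonneg (Finset.subset_univ _) fun w _ _ => hx.nonneg a w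
    rw [Finset.sum_pair hef] at h3
    linarith [hx.row a]
  have e0 := hx.nonneg a e
  have f0 := hx.nonneg a f
  have Y0 := hp.y.Y0 hr.1 hr.2 hτ
  have hYT := hp.y.YTh hr.1 hr.2 hτ
  have h1 := mul_le_mul_of_nonneg_left (hc.Th hr.1 hr.2 hτ)
    (by linarith : 0 ≤ x a e + x a f + 1)
  have h2 := mul_le_mul_of_nonneg_left (hc.Y hr.1 hr.2 hτ)
    (by linarith : 0 ≤ 1 - (x a e + x a f))
  have h3 := mul_nonneg (by linarith : 0 ≤ 1 - (x a e + x a f)) Y0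
  have h4 := mul_nonneg (by linarith : 0 ≤ x a e + x a f + 1) (Y0.trans hYT)
  unfold Ps.ys
  exact ⟨by linarith, by linarith⟩

section main

variable (hp : p.Ok) (hx : Wt x P 1) (hτ : τ ≤ bt) (hc : Ckp p y B) {e f : V} (hef : e ≠ f)
  {r : ℝ} (hr : r ∈ Icc 0 τ)

include hp hx hτ hc hef hr

theorem Ps.star_T : K1 p.z.hz (p.lzs x a τ) x P r e f ≤ pv p.z.mb r
    * (x e f * (fst' y (x a e) (p.Cc τ - p.Cc r) * fst' y (x a f) (p.Cc τ - p.Cc r))) := by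
  have m1 : r ∈ Icc (0 : ℝ) bt := ⟨hr.1, hr.2.trans hτ⟩
  have h1 := Hzd.hh_le hx (fun _ hy _ hs => hp.z.rr_mb hy hs) (fun _ hs => hp.z.mb_one hs) m1 e f
    (P := P)
  have h2 := Real.exp_le_exp.2 (Ps.ys_add (a := a) hp hx hτ hc hef hr).2
  have h3 := (hp.z.ok hp.d).hh_nonneg hx m1 e f (P := P)
  have h4 := mul_le_mul h1 h2 (Real.exp_pos _).le (h3.trans h1)
  refine (show K1 p.z.hz (p.lzs x a τ) x P r e f ≤ _ from h4).trans (le_of_eq ?_)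
  unfold fst'
  rw [← Real.exp_add]
  ring

theorem Ps.star_A : RCM.Ab (p.z.hz.hh x P) (p.lzs x a τ).y1 r e f ≤ pv p.z.mb r
    * (x e f * (fst' y (x a e) (p.Cc τ - p.Cc r) * fst' y (x a f) (p.Cc τ - p.Cc r) - 1)) := by
  have m1 : r ∈ Icc (0 : ℝ) bt := ⟨hr.1, hr.2.trans hτ⟩
  have h1 := Hzd.hh_le hx (fun _ hy _ hs => hp.z.rr_mb hy hs) (fun _ hs => hp.z.mb_one hs) m1 e f
    (P := P)
  have h0 := Ps.ys_add (a := a) hp hx hτ hc hef hr
  have h2 := Real.exp_le_exp.2 h0.2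
  have h5 := Real.one_le_exp h0.1
  have h3 := (hp.z.ok hp.d).hh_nonneg hx m1 e f (P := P)
  have h4 := mul_le_mul h1 (sub_le_sub_right h2 1) (by linarith) (h3.trans h1)
  refine (show RCM.Ab (p.z.hz.hh x P) (p.lzs x a τ).y1 r e f ≤ _ from h4).trans (le_of_eq ?_)
  unfold fst'
  rw [← Real.exp_add]
  ring

theorem Ps.star_B : RCM.Bw (p.z.hz.hh x P) (p.lzs x a τ).n1 r e f ≤ pv p.z.mb r
    * (x e f * (2 * p.y.N τ r)) := by
  have m1 : r ∈ Icc (0 : ℝ) bt := ⟨hr.1, hr.2.trans hτ⟩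
  have h1 := Hzd.hh_le hx (fun _ hy _ hs => hp.z.rr_mb hy hs) (fun _ hs => hp.z.mb_one hs) m1 e f
    (P := P)
  have h3 := (hp.z.ok hp.d).hh_nonneg hx m1 e f (P := P)
  have n0 := hp.y.N0 hr.1 hr.2 hτ
  have n1 := hp.y.N1 hr.1 hr.2 hτ
  have h4 : (1 : ℝ) - (1 - p.y.N τ r) * (1 - p.y.N τ r) ≤ 2 * p.y.N τ r := by nlinarith
  have h5 : (0 : ℝ) ≤ 1 - (1 - p.y.N τ r) * (1 - p.y.N τ r) := by nlinarith
  have h6 := mul_le_mul h1 h4 h5 (h3.trans h1)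
  refine (show RCM.Bw (p.z.hz.hh x P) (p.lzs x a τ).n1 r e f ≤ _ from h6).trans
    (le_of_eq (by ring))

end main

end Pool.Agent.RX.RCN.K
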