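import Pool.Agent.RX.RCG.CtA

/-! Rows and columns of the closure exponents of a cell: the scalar functions and the sources
(MP_73ccd0_lc, route M). -/

namespace Pool.Agent.RX.RCN.K

open Set Finset MeasureTheory Pool.Agent.RX.RCG Pool.Agent.RX.RCG.Ct

set_option linter.unusedSectionVars false

variable {V : Type*} [Fintype V] [DecidableEq V]

/-- damping of a vertex -/
def dmp (x : V → V → ℝ) (D : Finset V) (e : V) : ℝ := 1 - ∑ w ∈ D, x w e

theorem dmp_nonneg {x : V → V → ℝ} {P : V → Prop} (hx : Wt x P 1) (D : Finset V) (e : V) :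
    0 ≤ dmp x D e := by
  unfold dmp
  have h1 : ∑ w ∈ D, x w e ≤ ∑ w, x e w := by
    refine (Finset.sum_le_sum_of_subset_of_nonneg (Finset.subset_univ D)
      fun w _ _ => hx.nonneg w e).trans (le_of_eq ?_)
    exact Finset.sum_congr rfl fun w _ => hx.symm w e
  linarith [hx.row e]

theorem row_dmp {x : V → V → ℝ} {P : V → Prop} (hx : Wt x P 1) (D : Finset V) (e : V) :
    ∑ f ∈ Dᶜ, x e f ≤ dmp x D e := by
  unfold dmp
  have h1 := Finset.sum_add_sum_compl D (fun f => x e f)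
  have h2 : ∑ w ∈ D, x w e = ∑ w ∈ D, x e w := Finset.sum_congr rfl fun w _ => hx.symm w e
  have h3 := hx.row e
  linarith

variable {x : V → V → ℝ} {P : V → Prop} [DecidablePred P]

variable {sl : ℝ → ℝ → ℝ} {τ : ℝ} {B E1 : ℝ → ℝ → ℝ} {m' q : ℝ} {D : Finset V}
variable {gp gm gs : V → V → ℝ → ℝ} {E E' : V → ℝ → ℝ}

/-- both kinds of sums of a function below the weights -/
theorem sum_tgt_x (hx : Wt x P 1) {a : V → V → ℝ} {β : ℝ} (hβ : 0 ≤ β)
    (ha : ∀ c f, a c f ≤ x c f * β) (e : V) :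
    ∑ c ∈ Dᶜ.erase e, a c e ≤ dmp x D e * β := by
  have h1 : ∑ c ∈ Dᶜ.erase e, a c e ≤ ∑ c ∈ Dᶜ, x e c * β := by
    refine (Finset.sum_le_sum fun c _ => ha c e).trans ?_
    refine (Finset.sum_le_sum_of_subset_of_nonneg (Finset.erase_subset _ _)
      fun c _ _ => mul_nonneg (hx.nonneg c e) hβ).trans (le_of_eq ?_)
    exact Finset.sum_congr rfl fun c _ => by rw [hx.symm c e]
  refine h1.trans ?_
  rw [← Finset.sum_mul]
  exact mul_le_mul_of_nonneg_right (row_dmp hx D e) hβ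

theorem sum_pos_x (hx : Wt x P 1) {a : V → V → ℝ} {β : ℝ} (hβ : 0 ≤ β)
    (ha : ∀ c f, a c f ≤ x c f * β) (c : V) :
    ∑ e ∈ Dᶜ.erase c, a c e ≤ dmp x D c * β := by
  refine (Finset.sum_le_sum fun e _ => ha c e).trans ?_
  refine (Finset.sum_le_sum_of_subset_of_nonneg (Finset.erase_subset _ _)
    fun e _ _ => mul_nonneg (hx.nonneg c e) hβ).trans ?_
  rw [← Finset.sum_mul]
  exact mul_le_mul_of_nonneg_right (row_dmp hx D c) hβ

section basic

end basic

end Pool.Agent.RX.RCN.K
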