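import Pool.Agent.RX.RCG.Wk
import Pool.Agent.RX.RCM.NuA
import Pool.Agent.RX.RCM.NuB_1
import Pool.Agent.RX.RCN.XrA

/-! Rows and columns of the closure exponents of a cell: the scalar functions as functions of the
clock (MP_73ccd0_lc, route M). -/

namespace Pool.Agent.RX.RCN.K

open Set Finset MeasureTheory Pool.Agent.RX.RCRSHalf Pool.Agent.RX.RCG Pool.Agent.RX.RCG.Ct

set_option linter.unusedSectionVars false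

variable {V : Type*} [Fintype V] [DecidableEq V]

/-- **plain row of the complement of the removed set** -/
theorem row0 {x : V → V → ℝ} (hx : RCM.Wt x) {D : Finset V} (hD : D.card ≤ 2) {e : V}
    (he : e ∈ Dᶜ) {δ : ℝ} (δ0 : 0 ≤ δ) (δ1 : δ ≤ 1) :
    ∑ f ∈ Dᶜ, x e f * Real.exp (RCM.kx x D f * δ)
      ≤ Real.exp ((2 + RCM.kx x D e) * δ / 3) * (1 - RCM.kx x D e) := by
  have hk0 := RCM.kx0 hx D e
  have hk1 := RCM.kx1 hx D e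
  have hrow : ∑ f ∈ Dᶜ, x e f ≤ 1 - RCM.kx x D e := by
    have := RCM.row_U hx D e
    linarith
  have hs0 : 0 ≤ ∑ f ∈ Dᶜ, x e f := Finset.sum_nonneg fun f _ => hx.nn e f
  rcases eq_or_lt_of_le hk1 with h1 | h1
  · have z : ∑ f ∈ Dᶜ, x e f = 0 := le_antisymm (by linarith) hs0
    have z3 : ∀ f ∈ Dᶜ, x e f = 0 := (Finset.sum_eq_zero_iff_of_nonneg
      fun f _ => hx.nn e f).1 z
    rw [Finset.sum_eq_zero fun f hf => by rw [z3 f hf, zero_mul], h1]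
    simp
  · set k : ℝ := RCM.kx x D e with hk
    set cc : ℝ := (1 - k) / (3 - 2 * k) with hcc
    have d0 : 0 < 3 - 2 * k := by linarith
    have hcm : cc * (3 - 2 * k) = 1 - k := by
      rw [hcc]; exact div_mul_cancel₀ _ d0.ne'
    have c0 : 0 < cc := div_pos (by linarith) d0
    have c3 : cc ≤ 1 / 3 := by
      rw [hcc, div_le_iff₀ d0]; linarith
    have hcδ : cc * δ ≤ 1 := by nlinarith
    have c2 : cc * (2 - k) = (1 - cc) * (1 - k) := by nlinarith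
    -- pointwise
    have hpt : ∀ f ∈ Dᶜ, x e f * Real.exp ((RCM.kx x D f - (1 - cc)) * δ)
        ≤ (1 - (1 - cc) * cc * δ) * x e f + cc ^ 2 * δ * (if f = e then 0 else RCM.kx x D f) := by
      intro f hf
      by_cases hfe : f = e
      · rw [if_pos hfe, hfe, hx.diag]; simp
      · rw [if_neg hfe]
        exact RCM.exp_row_pt c0 δ0 hcδ (hx.nn e f) (RCM.kx0 hx D f)
          (by rw [hx.symm e f]; exact RCM.x_add_kx hx D he)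
    have hksum : ∑ f ∈ Dᶜ, (if f = e then 0 else RCM.kx x D f) ≤ 2 - k := by
      have h2 := RCM.sum_kx hx D Dᶜ
      have h3 : ∑ f ∈ Dᶜ, RCM.kx x D f
          = RCM.kx x D e + ∑ f ∈ Dᶜ, (if f = e then 0 else RCM.kx x D f) := by
        rw [← Finset.add_sum_erase _ _ he, ← Finset.add_sum_erase _
          (fun f => if f = e then 0 else RCM.kx x D f) he, if_pos rfl, zero_add]
        congr 1
        exact Finset.sum_congr rfl fun f hf => by rw [if_neg (Finset.ne_of_mem_erase hf)]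
      have h4 : (D.card : ℝ) ≤ 2 := by exact_mod_cast hD
      rw [h3] at h2
      linarith
    have hsum : ∑ f ∈ Dᶜ, x e f * Real.exp ((RCM.kx x D f - (1 - cc)) * δ)
        ≤ (1 - (1 - cc) * cc * δ) * (1 - k) + cc ^ 2 * δ * (2 - k) := by
      refine (Finset.sum_le_sum hpt).trans ?_
      rw [Finset.sum_add_distrib, ← Finset.mul_sum, ← Finset.mul_sum]
      have q0 : 0 ≤ 1 - (1 - cc) * cc * δ := by
        have : (1 - cc) * cc ≤ 1 := by nlinarith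
        nlinarith [mul_nonneg (by linarith : (0 : ℝ) ≤ 1 - cc) c0.le]
      exact add_le_add (mul_le_mul_of_nonneg_left hrow q0)
        (mul_le_mul_of_nonneg_left hksum (by positivity))
    have e1 : ∑ f ∈ Dᶜ, x e f * Real.exp (RCM.kx x D f * δ)
        = Real.exp ((1 - cc) * δ) * ∑ f ∈ Dᶜ, x e f
          * Real.exp ((RCM.kx x D f - (1 - cc)) * δ) := by
      rw [Finset.mul_sum]
      refine Finset.sum_congr rfl fun f _ => ?_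
      rw [mul_left_comm, ← Real.exp_add]
      congr 2
      ring
    rw [e1]
    have e2 : (1 - (1 - cc) * cc * δ) * (1 - k) + cc ^ 2 * δ * (2 - k) = 1 - k := by
      have : cc ^ 2 * δ * (2 - k) = cc * δ * ((1 - cc) * (1 - k)) := by rw [← c2]; ring
      rw [this]; ring
    rw [e2] at hsum
    have he3 : Real.exp ((1 - cc) * δ) ≤ Real.exp ((2 + k) * δ / 3) := by
      refine Real.exp_le_exp.2 ?_
      have h6 : 1 - cc ≤ (2 + k) / 3 := by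
        have h7 : (1 - k) / 3 ≤ cc := by
          rw [hcc, div_le_div_iff₀ (by norm_num) d0]
          nlinarith
        linarith
      have := mul_le_mul_of_nonneg_right h6 δ0
      linarith
    exact mul_le_mul he3 hsum (Finset.sum_nonneg fun f _ =>
      mul_nonneg (hx.nn e f) (Real.exp_pos _).le) (Real.exp_pos _).le

/-- functions of the clock -/
structure Xf where
  lam : ℝ
  χ : ℝ
  U : ℝ
  m : ℝ
  q : ℝ
  b1 : ℝ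
  z : ℝ → ℝ
  z' : ℝ → ℝ
  dl : ℝ → ℝ
  dl' : ℝ → ℝ
  μ1 : ℝ → ℝ
  μ2 : ℝ → ℝ
  ex : ℝ → ℝ
  R : ℝ → ℝ
  Gp : ℝ → ℝ
  Gm : ℝ → ℝ
  WT : ℝ → ℝ
  WT' : ℝ → ℝ
  WP : ℝ → ℝ
  WP' : ℝ → ℝ
  VT : ℝ → ℝ
  VT' : ℝ → ℝ
  UT : ℝ → ℝ
  UT' : ℝ → ℝ
  VP : ℝ → ℝ
  VP' : ℝ → ℝ
  UP : ℝ → ℝ
  UP' : ℝ → ℝ
  VT3 : ℝ → ℝ
  VT3' : ℝ → ℝ
  UT3 : ℝ → ℝ
  UT3' : ℝ → ℝ
  VP3 : ℝ → ℝ
  VP3' : ℝ → ℝ
  UP3 : ℝ → ℝ
  UP3' : ℝ → ℝ
  ζ : ℝ → ℝ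
  ζ' : ℝ → ℝ
  D1 : ℝ → ℝ
  D1' : ℝ → ℝ
  D2 : ℝ → ℝ
  D2' : ℝ → ℝ
  ν0 : ℝ
  Q : ℝ → ℝ
  Q' : ℝ → ℝ
  RR : ℝ → ℝ
  RR' : ℝ → ℝ
  CC : ℝ → ℝ
  CC' : ℝ → ℝ

namespace Xf

variable (f : Xf)

variable (mb u : ℝ → ℝ)

end Xf

section main

variable {Z : Hzd} {F : Lz V} {x : V → V → ℝ} {P : V → Prop} [DecidablePred P]
variable {sl : ℝ → ℝ → ℝ} {τ : ℝ} {D : Finset V} {B E1 : ℝ → ℝ → ℝ}
variable {gp gm : V → V → ℝ → ℝ} {f : Xf} {Gk Mk : ℝ → ℝ → ℝ} {mb u : ℝ → ℝ}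

/-- the world of a cell with the clock -/
structure Wx (Z : Hzd) (F : Lz V) (x : V → V → ℝ) (P : V → Prop) [DecidablePred P] (τ : ℝ)
    (D : Finset V) (B : ℝ → ℝ → ℝ) (gp gm : V → V → ℝ → ℝ) (U b1 : ℝ) (z dl : ℝ → ℝ)
    (Gk Mk : ℝ → ℝ → ℝ) (mb u : ℝ → ℝ) : Prop where
  mb0 : ∀ r ∈ Icc 0 τ, 0 ≤ mb r
  du : ∀ r ∈ Icc 0 τ, HasDerivAt u (-mb r) r
  um : ∀ r ∈ Icc 0 τ, u r ∈ Icc 0 U
  hm : ∀ r ∈ Icc 0 τ, ∀ e f, Z.hh x P r e f ≤ x e f * mb r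
  hy : ∀ r ∈ Icc 0 τ, ∀ e ∈ Dᶜ, ∀ f ∈ Dᶜ, e ≠ f →
    F.y1 e r + F.y1 f r ≤ 2 * z (u r) + (RCM.kx x D e + RCM.kx x D f) * dl (u r)
  hB : ∀ r ∈ Icc 0 τ, B τ r ≤ b1 * u r
  ps : ∀ i j, ∀ r ∈ Icc 0 τ, gp i j r = gp j i r
  ms : ∀ i j, ∀ r ∈ Icc 0 τ, gm i j r = gm j i r
  rp : ∀ e ∈ Dᶜ, ∀ r ∈ Icc 0 τ,
    ∑ f ∈ Dᶜ, gp e f r ≤ (1 - RCM.kx x D e) * Gk (RCM.kx x D e) (u r)
  rm : ∀ e ∈ Dᶜ, ∀ r ∈ Icc 0 τ,
    ∑ f ∈ Dᶜ, gm e f r ≤ (1 - RCM.kx x D e) * Mk (RCM.kx x D e) (u r)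
  D2 : D.card ≤ 2
  τ1 : τ ∈ Icc (0 : ℝ) bt
  cy : ∀ e, ContinuousOn (F.y1 e) (Icc 0 τ)
  y0 : ∀ e ∈ Dᶜ, ∀ r ∈ Icc 0 τ, 0 ≤ F.y1 e r
  cm : ContinuousOn mb (Icc 0 τ)
  Bσ : ∀ σ ∈ Icc 0 τ, ∀ r ∈ Icc 0 σ, B σ r ≤ b1 * (u r - u σ)
  p0 : ∀ i j, ∀ r ∈ Icc 0 τ, 0 ≤ gp i j r
  n0 : ∀ i j, ∀ r ∈ Icc 0 τ, 0 ≤ gm i j r
  cp : ∀ i j, ContinuousOn (gp i j) (Icc 0 τ)
  cg : ∀ i j, ContinuousOn (gm i j) (Icc 0 τ)

variable (hZ : Z.Ok sl) (hx : Wt x P 1) (hW : Wx Z F x P τ D B gp gm f.U f.b1 f.z f.dl Gk Mk mb u)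

theorem kx_mem (hx : Wt x P 1) (D : Finset V) (e : V) : RCM.kx x D e ∈ Icc (0 : ℝ) 1 :=
  ⟨RCM.kx0 (wt_of hx) D e, RCM.kx1 (wt_of hx) D e⟩

theorem dmp_eq (x : V → V → ℝ) (D : Finset V) (e : V) : dmp x D e = 1 - RCM.kx x D e := rfl

include hZ hx hW

end main

end Pool.Agent.RX.RCN.K
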