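import Pool.Agent.RX.RCN.Fct
import Pool.Agent.RX.RCN.StF
import Pool.Agent.RX.RCN.StK
import Pool.Agent.RX.RCN.XrH

/-! The worlds of the families in the form of the rows of the closure exponents
(MP_73ccd0_lc, route M). -/

namespace Pool.Agent.RX.RCN.K

open Set Finset MeasureTheory Pool.Agent.RX.RCRSHalf Pool.Agent.RX.RCG Pool.Agent.RX.RCG.Ct
open Pool.Agent.RX.RCN.Ker Pool.Agent.RX.RCRS Pool.Agent.RX.RCM9 Pool.Agent.RX.RCM9.Bern Pool.Agent.RX.RCM9.Pk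

set_option linter.unusedSectionVars false

variable {V : Type*} [Fintype V] [DecidableEq V]
variable {p : Ps} {x : V → V → ℝ} {P : V → Prop} [DecidablePred P] {a b : V}
  {sg τ U b1 : ℝ} {gp gm : V → V → ℝ → ℝ} {y B : List ℚ} {Gp Gm : List (List ℚ)}
  {z dl : ℝ → ℝ} {F : Lz V} {D : Finset V}

/-- the data common to both worlds -/
theorem Ps.wx_of (hp : p.Ok) (hx : Wt x P 1) (hτ : τ ∈ Icc (0 : ℝ) bt) (hc : Ckp p y B)
    (hU : p.Cc τ ≤ U) (hD : D.card ≤ 2) (hb : ∀ u ∈ Icc 0 U, pv B u ≤ b1 * u)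
    (hg : Glr p F x P τ D Gp Gm gp gm) (cy : ∀ e, ContinuousOn (F.y1 e) (Icc 0 τ))
    (y0 : ∀ e ∈ Dᶜ, ∀ r ∈ Icc 0 τ, 0 ≤ F.y1 e r)
    (hy : ∀ r ∈ Icc 0 τ, ∀ e ∈ Dᶜ, ∀ f ∈ Dᶜ, e ≠ f →
      F.y1 e r + F.y1 f r ≤ 2 * z (p.Cc τ - p.Cc r)
        + (RCM.kx x D e + RCM.kx x D f) * dl (p.Cc τ - p.Cc r)) :
    Wx p.z.hz F x P τ D p.g.rB gp gm U b1 z dl (pv2 Gp) (pv2 Gm) (pv p.z.mb)
      (fun r => p.Cc τ - p.Cc r) := by
  have m1 : ∀ r ∈ Icc 0 τ, r ∈ Icc (0 : ℝ) bt := fun r hr => ⟨hr.1, hr.2.trans hτ.2⟩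
  have c0 : p.Cc 0 = 0 := pri_zero _
  have um : ∀ σ ≤ τ, ∀ r ∈ Icc 0 σ, p.Cc σ - p.Cc r ∈ Icc 0 U := fun σ hσ r hr => by
    have h1 := Ps.Cc_mono hp hr.1 hr.2 (hσ.trans hτ.2)
    have h2 := Ps.Cc_mono hp le_rfl hr.1 (hr.2.trans (hσ.trans hτ.2))
    have h3 := Ps.Cc_mono hp (hr.1.trans hr.2) hσ hτ.2
    exact ⟨by linarith, by linarith⟩
  exact
    { mb0 := fun r hr => zero_le_one.trans (hp.z.mb_one (m1 r hr))
      du := fun r _ => by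
        have := (hasDerivAt_const r (p.Cc τ)).sub (p.hasDerivAt_Cc r)
        exact this.congr_deriv (by ring)
      um := fun r hr => um τ le_rfl r hr
      hm := fun r hr u v => Hzd.hh_le hx (fun _ hy _ hs => hp.z.rr_mb hy hs)
        (fun _ hs => hp.z.mb_one hs) (m1 r hr) u v
      hy := hy
      hB := fun r hr => (hc.B hr.1 hr.2 hτ.2).trans (hb _ (um τ le_rfl r hr))
      ps := hg.ps
      ms := hg.ms
      rp := hg.rp
      rm := hg.rm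
      D2 := hD
      τ1 := hτ
      cy := cy
      y0 := y0
      cm := (continuous_pv _).continuousOn
      Bσ := fun σ hσ r hr => by
        have h1 := (hc.B hr.1 hr.2 (hσ.2.trans hτ.2)).trans (hb _ (um σ hσ.2 r hr))
        show _ ≤ b1 * (p.Cc τ - p.Cc r - (p.Cc τ - p.Cc σ))
        linarith
      p0 := hg.gs.p0
      n0 := hg.gs.m0
      cp := hg.cp
      cg := hg.cm }

/-- **the star world** -/
theorem Ps.wx_star (hp : p.Ok) (hx : Wt x P 1) (hτ : τ ∈ Icc (0 : ℝ) bt) (hc : Ckp p y B)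
    (hU : p.Cc τ ≤ U) (hb : ∀ u ∈ Icc 0 U, pv B u ≤ b1 * u)
    (hg : Glr p (p.lzs x a τ) x P τ {a} Gp Gm gp gm)
    (h0 : ∀ u ∈ Icc 0 U, u + pv y u ≤ 2 * z u) (h1 : ∀ u ∈ Icc 0 U, 2 * u ≤ 2 * z u + dl u) :
    Wx p.z.hz (p.lzs x a τ) x P τ {a} p.g.rB gp gm U b1 z dl (pv2 Gp) (pv2 Gm) (pv p.z.mb)
      (fun r => p.Cc τ - p.Cc r) := by
  have c0 : p.Cc 0 = 0 := pri_zero _
  refine Ps.wx_of hp hx hτ hc hU (by simp) hb hg (fun e => p.ys_cont x a τ e)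
    (fun e _ r hr => ?_) (fun r hr e _ f _ hef => ?_)
  · have Y0 := hp.y.Y0 hr.1 hr.2 hτ.2
    have hYT := hp.y.YTh hr.1 hr.2 hτ.2
    have k0 := hx.nonneg a e
    have h3 := mul_nonneg k0 (sub_nonneg.2 hYT)
    show 0 ≤ p.ys x a τ e r
    unfold Ps.ys
    linarith
  · have hr1 := Ps.Cc_mono hp hr.1 hr.2 hτ.2
    have hr2 := Ps.Cc_mono hp le_rfl hr.1 (hr.2.trans hτ.2)
    have hu : p.Cc τ - p.Cc r ∈ Icc 0 U := ⟨by linarith, by linarith⟩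
    have hb : x a e + x a f ≤ 1 := by
      have h3 : ∑ w ∈ ({e, f} : Finset V), x a w ≤ ∑ w, x a w :=
        Finset.sum_le_sum_of_subset_of_nonneg (Finset.subset_univ _) fun w _ _ => hx.nonneg a w
      rw [Finset.sum_pair hef] at h3
      linarith [hx.row a]
    have e0 := hx.nonneg a e
    have f0 := hx.nonneg a f
    have key := (Ps.ys_add (a := a) hp hx hτ.2 hc hef hr).2
    rw [kx_one, kx_one]
    refine (show p.ys x a τ e r + p.ys x a τ f r ≤ _ from key).trans ?_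
    have a0 := mul_le_mul_of_nonneg_left (h0 _ hu) (by linarith : 0 ≤ 1 - (x a e + x a f))
    have a1 := mul_le_mul_of_nonneg_left (h1 _ hu) (by linarith : 0 ≤ x a e + x a f)
    linarith

/-! ### from the facts on the families -/

variable {g : MDat} {gr : ℕ → MGr} {Hp Hm : List (List ℚ)} {N n : ℕ} {G : ℕ → V → V → Fm V}
  {H : ℕ → V → Fm V}

theorem Fct.wx_star (h : Fct p x P g gr Hp Hm N G H) (hp : p.Ok) (hx : Wt x P 1)
    (hc : Ckp p g.y g.B) (hn : n < N) (ha : P a) (hU : p.Cc (cb N n) ≤ U)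
    (hb : ∀ u ∈ Icc 0 U, pv g.B u ≤ b1 * u)
    (h0 : ∀ u ∈ Icc 0 U, u + pv g.y u ≤ 2 * z u) (h1 : ∀ u ∈ Icc 0 U, 2 * u ≤ 2 * z u + dl u) :
    Wx p.z.hz (p.lzs x a (cb N n)) x P (cb N n) {a} p.g.rB (H n a).gp (H n a).gm U b1 z dl
      (pv2 Hp) (pv2 Hm) (pv p.z.mb) (fun r => p.Cc (cb N n) - p.Cc r) :=
  Ps.wx_star hp hx ⟨cb_nonneg' N n, cb_le_bt hn⟩ hc hU hb (h.hg n hn a ha) h0 h1

end Pool.Agent.RX.RCN.K
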