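import Pool.Agent.RX.RCN.CkD

/-! Structures and checks (Bool) of the two-time columns (MP_73ccd0_lc, route M). -/

set_option autoImplicit false

namespace Pool.Agent.RX.RCN.K

open Pool.Agent.RX.RCM9 Pool.Agent.RX.RCN.Ck1

/-- the lists of the position sums; `gE .. m1` bound products of the lists of the rows -/
structure Yz where
  gE : List ℚ
  mE : List ℚ
  gK : List ℚ
  mK : List ℚ
  g1 : List ℚ
  m1 : List ℚ
  WP : List ℚ
  VP : List ℚ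
  UP : List ℚ

/-- the rates of the adjoint functions of the columns -/
structure Yv where
  rV : List ℚ
  rU : List ℚ
  rW : List ℚ
  rw : List ℚ
  r1 : List ℚ

namespace Yz

variable (y : Yz) (l : Yl) (D : ℤ) (n : ℕ)

def p1 : List ℚ := ladd l.b3l (lmul l.C4l y.VP)

def p2 : List ℚ := ladd y.WP y.UP

/-- products and position sums -/
def ok : Bool :=
  nn D n 0 l.Ug (lsub y.gE (lmul l.Gp l.kE)) && nn D n 0 l.Ug (lsub y.mE (lmul l.Gm l.kE))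
  && nn D n 0 l.Ug (lsub y.gK (lmul l.Gp l.kk)) && nn D n 0 l.Ug (lsub y.mK (lmul l.Gm l.kk))
  && nn D n 0 l.Ug (lsub y.g1 (lmul l.Gp l.k1)) && nn D n 0 l.Ug (lsub y.m1 (lmul l.Gm l.k1))
  && nn D n 0 l.Ug y.WP && nn D n 0 l.Ug y.VP && nn D n 0 l.Ug y.UP
  && nn D n 0 l.Ug (lsub (pd y.WP) (lmul l.R [0, l.b1]))
  && nn D n 0 l.Ug (lsub (pd y.VP) (ladd (lmul (ladd l.R l.AM) y.p2) (lmul l.AP (y.p1 l))))
  && nn D n 0 l.Ug (lsub (pd y.UP) (ladd (lmul l.R (lmul l.C1l y.VP))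
    (ladd (lmul l.AP y.p2) (lmul l.AM (y.p1 l)))))

end Yz

namespace Yv

variable (j : Yv) (l : Yl) (y : Yz) (v w : ℚ)

def HV : List ℚ := lsub [evq (pri j.rV) l.Ug] (pri j.rV)

def HU : List ℚ := lsub [v + evq (pri j.rU) l.Ug] (pri j.rU)

def HW : List ℚ := lsub [w + evq (pri j.rW) l.Ug] (pri j.rW)

def Hw : List ℚ := lsub [evq (pri j.rw) l.Ug] (pri j.rw)

/-- the common factor -/
def cc (p2 : List ℚ) : List ℚ :=
  ladd (lmul y.g1 (j.HV l)) (ladd (lmul y.m1 (j.HU l v)) (lmul l.k1 p2))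

/-- the checks with the sources `p1`, `p2` -/
def ok (p1 p2 : List ℚ) (D : ℤ) (n : ℕ) : Bool :=
  nn D n 0 l.Ug j.rV && nn D n 0 l.Ug j.rU && nn D n 0 l.Ug j.rW && nn D n 0 l.Ug j.rw
  && nn D n 0 l.Ug j.r1
  && nn D n 0 l.Ug (lsub j.rV (ladd (lmul (lmul y.gE l.C4l) (j.HV l))
    (ladd (lmul (ladd (lmul l.μ2 l.C1l) (lmul y.mE l.C4l)) (j.HU l v))
      (lmul (lmul l.kE l.C4l) p2))))
  && nn D n 0 l.Ug (lsub j.rU (ladd (lmul (ladd l.μ2 y.mE) (j.HV l))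
    (ladd (lmul y.gE (j.HU l v)) (lmul l.kE p1))))
  && nn D n 0 l.Ug (lsub j.rW (ladd (lmul (ladd l.μk y.mK) (j.HV l))
    (ladd (lmul y.gK (j.HU l v)) (lmul l.kk p1))))
  && nn D n 0 l.Ug (lsub j.rw (ladd (j.cc l y v p2) (lmul l.μ1 (j.HW l w))))
  && nn D n 0 l.Ug (lsub j.r1 (ladd (lsmul l.b1 (j.Hw l)) (lmul l.x3l (j.cc l y v p2))))

end Yv

end Pool.Agent.RX.RCN.K
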