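import Pool.Agent.RX.RCM9.DatC
import Pool.Agent.RX.RCM9.DatY

/-! The structures and the polynomial conditions of the cells of the second type
(MP_73ccd0_lc, route M). -/

set_option autoImplicit false

namespace Pool.Agent.RX.RCN.K

open Set Pool.Agent.RX.RCM9 Pool.Agent.RX.RCM9.Bern Pool.Agent.RX.RCM9.Pk

set_option linter.unusedSectionVars false

section

/-- nonnegative on the cube -/
def NC (e : E) : Prop := ∀ X Z U T : ℝ, X ∈ Icc (0 : ℝ) 1 → Z ∈ Icc (0 : ℝ) 1 →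
  U ∈ Icc (0 : ℝ) 1 → T ∈ Icc (0 : ℝ) 1 → 0 ≤ e.val (pt X Z U T)

/-- the last variable -/
def uT : E := E.var 3

/-- the data of a cell `[t0, t1]` -/
structure Cel where
  t0 : ℚ
  t1 : ℚ
  C : ℚ
  th : ℚ
  B0 : ℚ
  Bh : ℚ
  B1 : ℚ
  D0 : ℚ
  Dh : ℚ
  D1 : ℚ
  E0 : ℚ
  Eh : ℚ
  E1 : ℚ
  Q0 : ℚ
  Q1 : ℚ
  Q2 : ℚ
  Ac : ℚ
  gI : ℚ
  J : ℚ

def elo (a h : ℚ) (v : E) : E := qc a + qc (h - a) * (2 * v)

def ehi (h b : ℚ) (v : E) : E := qc h + qc (b - h) * (2 * v - 1)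

def eh : E := vX * hlf

def ek : E := vZ * (vX * hlf)

variable (c : Cel)

/-- the four regions -/
structure Rg (f : E → E → E → E → E → E → E) : Prop where
  r1 : NC (f (1 - eh) eh ek (elo c.B0 c.Bh eh) (elo c.D0 c.Dh ek) (elo c.E0 c.Eh ek))
  r2 : NC (f eh (1 - eh) ek (ehi c.Bh c.B1 (1 - eh)) (elo c.D0 c.Dh ek) (elo c.E0 c.Eh ek))
  r3 : NC (f (1 - eh) ek eh (elo c.B0 c.Bh ek) (elo c.D0 c.Dh eh) (elo c.E0 c.Eh eh))
  r4 : NC (f eh ek (1 - eh) (elo c.B0 c.Bh ek) (ehi c.Dh c.D1 (1 - eh)) (ehi c.Eh c.E1 (1 - eh)))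

/-- a polynomial above `exp (th z)` on `[0, 1]` -/
def exl (th : ℚ) : List ℚ := [1, th, th ^ 2 / 2, th ^ 3 / 6, 5 * th ^ 4 / 96]

def eMb (u v w D : E) : E := w * ((1 + (u + v) * qc c.t1) * D)

def eN (u w b : E) : E := b * qc c.C * ((1 + u * qc c.t0) * (1 - w))

def eP (K : ℚ) (u v w D : E) : E := qc (K ^ 2) * ((1 + qc c.t0) ^ 2 * (1 - eMb c u v w D) ^ 4)

def fM (u v w _b D _e : E) : E := qc (99 / 100) - eMb c u v w D

def f0 (u v w b D _e : E) : E := eP c c.Q0 u v w D - eN c u w b ^ 2 * (1 - v)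

def f1 (u v w b D _e : E) : E :=
  eP c c.Q1 u v w D - (eN c u w b * pe (exl c.th) v) ^ 2 * (1 - v)

def f2 (u v w b D _e : E) : E :=
  eP c c.Q2 u v w D - (eN c u w b * pe (exl c.th) (v + w)) ^ 2 * (1 - v)

def fc (u v w b D _e : E) : E := eP c c.Ac u v w D - eN c u w b ^ 2

def fI (u v w b D _e : E) : E :=
  qc (c.gI ^ 2) * (1 - eMb c u v w D) ^ 4 - (b * qc c.C) ^ 2 * ((1 - w) * (1 - w - v))

def fJ (u v w b D e : E) : E :=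
  qc c.J * ((1 + qc c.t0) * (1 - eMb c u v w D) ^ 2) - b * ((1 + (u + v) * qc c.t1) * e)

/-- all conditions of the amplitudes in the cell -/
structure Cel.Rgs : Prop where
  M : Rg c (fM c)
  r0 : Rg c (f0 c)
  r1 : Rg c (f1 c)
  r2 : Rg c (f2 c)
  rc : Rg c (fc c)
  rI : Rg c (fI c)
  rJ : Rg c (fJ c)

/-- signs of the data -/
structure Cel.Sg : Prop where
  t0 : 0 ≤ c.t0
  t01 : c.t0 < c.t1
  t1 : c.t1 ≤ 1
  C : 0 ≤ c.C
  th0 : 0 < c.th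
  th1 : c.th ≤ 1
  B0 : 0 ≤ c.B0
  Bh : 0 ≤ c.Bh
  B1 : 0 ≤ c.B1
  D0 : 0 ≤ c.D0
  Dh : 0 ≤ c.Dh
  D1 : 0 ≤ c.D1
  E0 : 0 ≤ c.E0
  Eh : 0 ≤ c.Eh
  E1 : 0 ≤ c.E1
  Q0 : 0 ≤ c.Q0
  Q1 : 0 ≤ c.Q1
  Q2 : 0 ≤ c.Q2
  Ac : 0 ≤ c.Ac
  gI : 0 ≤ c.gI
  J : 0 ≤ c.J

end

section

/-- polynomials above `fh ke` and below `fh` at the vertices `0, 1/2, 1` -/
structure Iq where
  bt : ℚ
  kc : List ℚ
  ke : List ℚ
  p0 : List ℚ
  ph : List ℚ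
  p1 : List ℚ
  q0 : List ℚ
  qh : List ℚ
  q1 : List ℚ

variable (d : Dat) (q : Iq) (c : Cel)

def ebv (α β : ℚ) (t : E) : E := 1 + qc α * (pe d.be0 t - 1) + qc β * pe d.be1 t

def ezv (α β : ℚ) (t : E) : E :=
  t + (1 + t) * (qc (α / 2) * (pe d.F t + pe d.F3 t + pe d.F2 t) + qc (d.SP * α) * pe d.Gp t
    - qc β * pe d.Z t)

def tg : E := qc q.bt * uT

def tcl : E := qc c.t0 + qc (c.t1 - c.t0) * uT

def kp (α β : ℚ) (p : List ℚ) (t : E) : E := (1 + t) ^ 2 * pe p t - ebv d α β t * pe q.ke t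

def kq' (α β : ℚ) (p : List ℚ) (t : E) : E := ebv d α β t - (1 + t) ^ 2 * pe p t

/-- the checks of the integrands -/
structure Iq.Ok : Prop where
  kc0 : NC (pe q.kc (tg q))
  ke0 : NC (pe q.ke (tg q))
  p0 : NC (kp d q 1 0 q.p0 (tg q))
  ph : NC (kp d q (1 / 2) (1 / 2) q.ph (tg q))
  p1 : NC (kp d q 0 (1 / 2) q.p1 (tg q))
  q0 : NC (kq' d 1 0 q.q0 (tg q))
  qh : NC (kq' d (1 / 2) (1 / 2) q.qh (tg q))
  q1 : NC (kq' d 0 (1 / 2) q.q1 (tg q))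

def kB (α β B : ℚ) (t : E) : E := qc B - ebv d α β t

def kE (p r : List ℚ) (B : ℚ) (t : E) : E :=
  qc B - (1 + qc d.ee * t) * (pe q.kc t * pe (pri p) t - pe (pri r) t)

def kD (α β : ℚ) (p r : List ℚ) (B : ℚ) (t : E) : E :=
  qc B * (1 + t) - (1 + qc d.ee * t) * (ezv d α β t
    + (1 + t) * (pe q.kc t * pe (pri p) t - pe (pri r) t))

/-- the checks of the values in the cell -/
structure Cel.Vl : Prop where
  bt : c.t1 ≤ q.bt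
  B0 : NC (kB d 1 0 c.B0 (tcl c))
  Bh : NC (kB d (1 / 2) (1 / 2) c.Bh (tcl c))
  B1 : NC (kB d 0 (1 / 2) c.B1 (tcl c))
  E0 : NC (kE d q q.p0 q.q0 c.E0 (tcl c))
  Eh : NC (kE d q q.ph q.qh c.Eh (tcl c))
  E1 : NC (kE d q q.p1 q.q1 c.E1 (tcl c))
  D0 : NC (kD d q 1 0 q.p0 q.q0 c.D0 (tcl c))
  Dh : NC (kD d q (1 / 2) (1 / 2) q.ph q.qh c.Dh (tcl c))
  D1 : NC (kD d q 0 (1 / 2) q.p1 q.q1 c.D1 (tcl c))

end

section

/-- the constants of the chains in a cell -/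
structure Chn where
  lb : ℚ
  nb : ℚ
  Mb : ℚ
  b2 : ℚ
  Yb : ℚ
  E2 : ℚ
  e1 : ℚ
  Z1 : ℚ
  Z2 : ℚ
  KB : ℚ
  cb : ℚ
  rb : ℚ
  om : ℚ
  fb : ℚ
  kap : ℚ
  ab : ℚ

variable (c : Cel) (n : Chn)

/-- the rational conditions -/
structure Chn.Rat : Prop where
  lb : 0 ≤ n.lb
  nb : 0 ≤ n.nb
  Mb : 0 ≤ n.Mb
  b2 : 0 ≤ n.b2
  Yb : 0 ≤ n.Yb
  Yb1 : 2 * n.Yb ≤ 1
  E2 : ev (exl 1) (2 * n.Yb) ≤ n.E2
  e1 : ev (exl c.th) 1 - 1 ≤ n.e1 * c.t1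
  e0 : 0 ≤ n.e1
  Z1 : 0 ≤ n.Z1
  Z2 : 0 ≤ n.Z2
  KB : 0 ≤ n.KB
  rb0 : 0 ≤ n.rb
  om : 0 ≤ n.om
  fb : 0 ≤ n.fb
  kap : 0 ≤ n.kap
  ab : 0 ≤ n.ab
  cb : 1 + n.rb * (4 / 27 * (2 * c.t1 + c.t1 ^ 2 / 2)) ≤ n.cb
  z1 : c.Q0 ^ 2 * n.cb * (n.lb * n.Mb) ≤ n.Z1 ^ 2
  z2 : c.Ac ^ 2 * n.cb * (n.lb * n.nb * n.Mb) ≤ n.Z2 ^ 2
  kb : n.cb * n.lb * n.b2 ≤ n.KB ^ 2

/-- the checks of the two suprema -/
structure Chn.Ck : Prop where
  l : NC (qc n.lb - (1 - vX) * pe (exl c.th) vX ^ 2)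
  n : NC (qc n.nb - vX * (1 - vX) * pe (exl c.th) vX)

end

section

variable (c : Cel) (n : Chn)

def a1q : ℚ := n.E2 * (n.Z1 + 1 / 2 * n.Z2 * n.b2 * c.t1)

def a2q : ℚ := n.E2 * (1 / 2 * n.Z2 * n.b2 * (c.th / c.t1))

def cBq : ℚ := n.E2 * (n.KB * (1 + c.t1 * n.Mb / 4))

def c1q : ℚ := cBq c n * c.Q0

def c4q : ℚ := cBq c n * ((c.Q1 - c.Q0) / c.t1)

def c2q : ℚ := cBq c n * ((c.Q2 - c.Q1) / c.t1)

/-- the leading parts; `om` bounds the sum of the fluxes -/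
def eKM (om : List ℚ) (t : E) : E :=
  (qc (a1q c n / 2) * t ^ 2 + qc (a2q c n / 3) * t ^ 3) * pe (pri om) t
    + (qc (n.e1 / 2) * ((qc (a1q c n) + qc (a2q c n) * t) * t)
      + (qc (c1q c n / 2) + qc (c4q c n / 2) * t)) * pe (pri (0 :: 0 :: om)) t
    + (qc (c2q c n / 3 - c4q c n / 6 - n.e1 * a1q c n / 6) - qc (n.e1 * a2q c n / 3) * t)
      * pe (pri (0 :: 0 :: 0 :: om)) t
    + qc (n.e1 * a2q c n / 12) * pe (pri (0 :: 0 :: 0 :: 0 :: om)) t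

end

section

/-- the polynomials of the fluxes on `[0, bt]` -/
structure Fx where
  al : List ℚ
  mb : List ℚ

/-- the time variable of `[0, t1]` -/
def t1v (c : Cel) : E := qc c.t1 * uT

def kal (d : Dat) (q : Iq) (f : Fx) (α β : ℚ) (t : E) : E :=
  (1 + t) ^ 2 * pe f.al t - ebv d α β t * pe q.ke t

def kaq (q : Iq) (f : Fx) (t : E) : E := (1 + t) ^ 2 * pe f.al t - pe q.ke t

/-- the checks of the functions of the fluxes on `[0, bt]` -/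
structure Fx.Ok (d : Dat) (q : Iq) (f : Fx) : Prop where
  ke1 : NC (pe q.ke (tg q) - 1)
  a0 : NC (kal d q f 1 0 (tg q))
  ah : NC (kal d q f (1 / 2) (1 / 2) (tg q))
  a1 : NC (kal d q f 0 (1 / 2) (tg q))
  aq : NC (kaq q f (tg q))
  mb0 : NC (pe f.mb (tg q))

def krb (n : Chn) (f : Fx) (s : E) : E :=
  qc n.rb * pe f.al s - qc (1 - n.rb) * (pe (pri f.al) s * pe f.mb s)

def kkap (d : Dat) (q : Iq) (n : Chn) (t : E) : E :=
  qc n.kap - (1 + qc d.ee * t) * pe q.kc t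

/-- the checks in the cell -/
structure Chn.Fck (d : Dat) (q : Iq) (f : Fx) (c : Cel) (n : Chn) : Prop where
  rb : NC (krb n f (t1v c))
  kap : NC (kkap d q n (tcl c))

end

section

/-- all numerical conditions of a cell -/
structure CelOk (d : Dat) (q : Iq) (f : Fx) (c : Cel) (n : Chn) : Prop where
  s : c.Sg
  r : c.Rgs
  v : c.Vl d q
  rt : n.Rat c
  k : n.Ck c
  fc : n.Fck d q f c
  q01 : c.Q0 ≤ c.Q1
  q12 : c.Q1 ≤ c.Q2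
  h2 : 2 * c.t1 + c.t1 ^ 2 / 2 ≤ 2

end

section

def wT : E := qc btq * uT

def wR : E := vZ * wT

def eWl (z : HDat) : E :=
  1 - wT - eh * pe2 (z.Elo.map pri) eh wT - (1 - eh) * pe2 z.Elo eh wR

def eWh (z : HDat) : E :=
  1 - (hlf + eh) * pe2 (z.Ehi.map pri) eh wT - (1 - (hlf + eh)) * pe2 z.Ehi eh wR

/-- the checks of the hazards -/
structure Wz (z : HDat) : Prop where
  l : NC (eWl z)
  h : NC (eWh z)

/-- the checks of the hazards in the cell -/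
structure Wcl (z : HDat) (g : KDat) (y : YDat) (al : List ℚ) (c : Cel) (n : Chn) (mt : ℚ) :
    Prop where
  b2 : NC (qc n.b2 - pe2 g.QB (vZ * t1v c) (t1v c))
  mb : NC (qc n.Mb - pe z.mb (t1v c))
  th : NC (qc (c.th / c.t1) - pe2 z.Qt (vZ * t1v c) (t1v c))
  yb : NC (qc n.Yb - (t1v c - vZ * t1v c) ^ 3 * pe2 y.QY (vZ * t1v c) (t1v c))
  mu : NC (qc mt - pe al (tcl c) * (1 + hlf * tcl c))
  cj : NC (qc c.C * ((6 - 3 * vX) * (1 - qc mt * vX)) - (6 - 6 * vX + vX ^ 2))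
  mt1 : mt < 1
  mt2 : mt * c.t1 ≤ 1 - mt + c.t1 / 4

/-- the constants of the rows in the cell: the gauge `(1 + lm k) e^(Y0 + δ k)` with
`e^δk ≤ 1 + dl k + e2 k²` -/
structure Xge where
  lm : ℚ
  dl : ℚ
  e2 : ℚ
  eY : ℚ
  gE : ℚ

def fE (c : Cel) (e : Xge) (u v w b D _e : E) : E :=
  qc (e.gE ^ 2) * (1 - eMb c u v w D) ^ 4
    - (b * qc c.C) ^ 2 * ((1 - w) * ((1 - w - v) * ((1 + qc e.lm * (v + w))
      * (1 + qc e.dl * (v + w) + qc e.e2 * (v + w) ^ 2))))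

/-- the conditions of the constants of the rows -/
structure Xge.Ok (c : Cel) (e : Xge) : Prop where
  lm : 0 ≤ e.lm
  dl0 : 0 ≤ e.dl
  dl1 : e.dl ≤ 1
  e2 : ev (exl e.dl) 1 ≤ 1 + e.dl + e.e2
  eY : 0 ≤ e.eY
  gE : Rg c (fE c e)

end

section

/-- polynomials in the second time: rows of side I (`d1`, `d2`), of side II (`dy`) of the deleted
closures, the same of the released closures, the direct term, the sum of the fluxes, the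
parameters of the means and the total -/
structure Xr where
  d1 : List ℚ
  d2 : List ℚ
  dy : List ℚ
  t1 : List ℚ
  t2 : List ℚ
  ty : List ℚ
  hz : List ℚ
  om : List ℚ
  sD : ℚ
  sT : ℚ
  xi : List ℚ

def eSI (c : Cel) (e : Xge) (u v : List ℚ) (s : E) : E :=
  qc (e.gE ^ 2 * e.eY) * pe u s + qc (c.gI ^ 2) * pe v s

def eXi (f : Fx) (c : Cel) (e : Xge) (r : Xr) (s : E) : E :=
  pe r.xi s - (hlf * pe f.al s * (qc r.sD * eSI c e r.d1 r.d2 s + qc (1 / r.sD) * pe r.dy s)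
    + pe (pri f.al) s * pe f.mb s * (hlf * (qc r.sT * eSI c e r.t1 r.t2 s
      + qc (1 / r.sT) * pe r.ty s) + qc c.Q0 * pe r.hz s))

def eOm (f : Fx) (r : Xr) (s : E) : E :=
  pe r.om s - (pe f.al s + pe (pri f.al) s * pe f.mb s)

/-- the conditions of the polynomials of the rows -/
structure Xr.Ok (f : Fx) (c : Cel) (e : Xge) (r : Xr) : Prop where
  sD : 0 < r.sD
  sT : 0 < r.sT
  nd1 : NC (pe r.d1 (t1v c))
  nd2 : NC (pe r.d2 (t1v c))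
  ndy : NC (pe r.dy (t1v c))
  nt1 : NC (pe r.t1 (t1v c))
  nt2 : NC (pe r.t2 (t1v c))
  nty : NC (pe r.ty (t1v c))
  nhz : NC (pe r.hz (t1v c))
  xi : NC (eXi f c e r (t1v c))
  om : NC (eOm f r (t1v c))

def eFin (d : Dat) (c : Cel) (n : Chn) (r : Xr) (s2 : ℚ) (t : E) : E :=
  qc s2 * pe d.ktl t - (qc c.J + qc n.kap * (eKM c n r.om t + pe (pri r.xi) t))

end

namespace Xcd

/-- the clock at the second time -/
def ew (z : HDat) (c : Cel) : E := pe (pri z.mb) (t1v c)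

def edP (P : List ℚ) (U w : E) : E := pe (pri P) U - pe (pri P) (U - w)

end Xcd

end Pool.Agent.RX.RCN.K
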