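import Pool.Agent.RX.RCN.CkL_1
import Pool.Agent.RX.RCN.CkZ
import Pool.Agent.RX.RCN.T2D_1

/-! The data and the polynomial conditions of the rows of a cell of the second type with the
signed direct part (MP_73ccd0_lc, route M). -/

namespace Pool.Agent.RX.RCN.K

open Set Pool.Agent.RX.RCM9 Pool.Agent.RX.RCM9.Bern Pool.Agent.RX.RCM9.Pk

/-- the data of the checks of the rows of a cell: the range of the end of the clock, lists of the
worlds of two vertices (`l`, the columns `y`, `j`, `i`, the direct part `k`, `c`), of the star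
(`ls`), bounds of the rows without the direct part, a bound of the gauge of the star, polynomials
of the rows in the clock at the second time -/
structure Xce where
  u0 : ℚ
  u1 : ℚ
  l : Yl
  y : Yz
  j : Yv
  i : Yv
  ls : Yl
  k : Nl
  c : Dl
  ga : ℚ
  gb : ℚ
  hb : ℚ
  gs : List ℚ
  d1 : List ℚ
  d2 : List ℚ
  dy : List ℚ
  t1 : List ℚ
  t2 : List ℚ
  ty : List ℚ

namespace Xce

variable (d : Xce)

/-- the end of the clock -/
def eU : E := qc d.u0 + qc (d.u1 - d.u0) * vZ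

/-- the clock variable -/
def e1 : E := qc d.u1 * uT

/-- the part of the columns with the gauge, deleted closures -/
def eA (U w : E) : E := Xcd.edP d.i.r1 U w + qc d.ga

/-- the other part of the columns, deleted closures -/
def eB (U w : E) : E := Xcd.edP d.j.r1 U w + pe d.y.UP U + qc (d.gb + d.c.kp)

def eAT (U w : E) : E :=
  d.eA U w + (Xcd.edP d.i.rV U w * pe d.l.Gm (U - w)
    + (1 + Xcd.edP d.i.rU U w) * pe d.l.Gp (U - w))

def eBT (U w : E) : E :=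
  d.eB U w + (Xcd.edP d.j.rV U w * pe d.l.Gm (U - w) + Xcd.edP d.j.rU U w * pe d.l.Gp (U - w)
    + pe d.y.VP (U - w))

/-- the rows of the star -/
def eSD (U w : E) : E :=
  pe d.gs U * pe d.ls.UT U + Xcd.edP d.ls.h1 U w + qc (d.hb + d.c.kp)

def eST (U w : E) : E :=
  d.eSD U w + pe d.gs (U - w) * (Xcd.edP d.ls.hV U w * pe d.ls.Gm (U - w)
    + (1 + (qc d.ls.dlt + Xcd.edP d.ls.hW U w)) * pe d.ls.Gp (U - w) + pe d.ls.VT (U - w))

/-- the exponent of the gauge -/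
def eg : E := pe d.l.z d.eU + vX * pe d.l.dl d.eU

/-- the checks; `GR`, `HR` bound the rows of level 1/2 -/
structure Ck (GR HR : List (List ℚ)) (z : HDat) (c : Cel) (e : Xge) (r : Xr) : Prop where
  u0 : 0 < d.u0
  u01 : d.u0 < d.u1
  ul : d.u1 ≤ d.l.Ug
  us : d.u1 ≤ d.ls.Ug
  uc : d.u1 ≤ d.c.Cv
  ga0 : 0 ≤ d.ga
  kp0 : 0 ≤ d.c.kp
  lm : e.lm = 3 / 5
  dl : NC (qc e.dl - pe d.l.dl d.eU)
  eY : NC (qc e.eY - pe (e4l d.l.z) d.eU)
  gr : NC (qc d.ga * ((1 + qc (3 / 5) * vX) * (1 + (d.eg + hlf * d.eg ^ 2))) + qc d.gb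
    - pe2 GR vX d.eU)
  hr : NC (qc d.hb - pe2 HR vX d.eU)
  gs : NC (pe d.gs d.e1 - qc (8 / 5) * pe (e4l (ladd d.ls.z d.ls.dl)) d.e1)
  d1 : NC (pe d.d1 d.e1 - d.eA d.eU d.e1)
  d2 : NC (pe d.d2 d.e1 - d.eB d.eU d.e1)
  t1 : NC (pe d.t1 d.e1 - d.eAT d.eU d.e1)
  t2 : NC (pe d.t2 d.e1 - d.eBT d.eU d.e1)
  dy : NC (pe d.dy d.e1 - d.eSD d.eU d.e1)
  ty : NC (pe d.ty d.e1 - d.eST d.eU d.e1)
  d1s : NC (pe r.d1 (t1v c) - pe d.d1 (Xcd.ew z c))
  d2s : NC (pe r.d2 (t1v c) - pe d.d2 (Xcd.ew z c))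
  t1s : NC (pe r.t1 (t1v c) - pe d.t1 (Xcd.ew z c))
  t2s : NC (pe r.t2 (t1v c) - pe d.t2 (Xcd.ew z c))
  dys : NC (pe r.dy (t1v c) - pe d.dy (Xcd.ew z c))
  tys : NC (pe r.ty (t1v c) - pe d.ty (Xcd.ew z c))
  hz : NC (pe r.hz (t1v c) - pe d.c.dR (Xcd.ew z c))

end Xce

end Pool.Agent.RX.RCN.K
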