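import Pool.Agent.RX.RCN.T2k
import Pool.Agent.RX.RCN.T3D
import Pool.Agent.RX.RCN.YlA

/-! The rows of the second type with the signed direct part: from the polynomial conditions
(MP_73ccd0_lc, route M). -/

namespace Pool.Agent.RX.RCN.K

open Set Finset MeasureTheory Pool.Agent.RX.RCRSHalf Pool.Agent.RX.RCG Pool.Agent.RX.RCG.Ct
open Pool.Agent.RX.RCN.Ker

open Pool.Agent.RX.RCM hiding qc
open Pool.Agent.RX.RCM9 Pool.Agent.RX.RCM9.Bern Pool.Agent.RX.RCM9.Pk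

set_option linter.unusedSectionVars false

namespace Xce

variable {d : Xce} {GR HR : List (List ℚ)} {z : HDat} {c : Cel} {e : Xge} {r : Xr}

/-- the inequality at the end `U` of the clock and the clock `w` at the second time -/
theorem nn_us {f : E → E → E} {F : ℝ → ℝ → ℝ} (h : NC (f d.eU d.e1))
    (hf : ∀ ρ U w, (f U w).val ρ = F (U.val ρ) (w.val ρ)) (h0 : 0 < d.u0) (h01 : d.u0 < d.u1)
    {U w : ℝ} (hU : U ∈ Icc (d.u0 : ℝ) d.u1) (hw : w ∈ Icc (0 : ℝ) d.u1) : 0 ≤ F U w := by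
  have hb' : (0 : ℝ) < d.u1 := by exact_mod_cast h0.trans h01
  have hu' : (0 : ℝ) < (d.u1 : ℝ) - d.u0 := by
    have : (d.u0 : ℝ) < d.u1 := by exact_mod_cast h01
    linarith
  have z0 : (0 : ℝ) ∈ Icc (0 : ℝ) 1 := ⟨le_rfl, zero_le_one⟩
  have key := h 0 ((U - d.u0) / (d.u1 - d.u0)) 0 (w / d.u1) z0
    ⟨div_nonneg (by linarith [hU.1]) hu'.le, (div_le_one hu').2 (by linarith [hU.2])⟩ z0
    ⟨div_nonneg hw.1 hb'.le, (div_le_one hb').2 hw.2⟩
  rw [hf] at key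
  have e1 : (d.eU).val (pt 0 ((U - d.u0) / (d.u1 - d.u0)) 0 (w / d.u1)) = U := by
    unfold eU
    rw [val_add, val_mul, val_qc, val_qc, val_uZ]
    push_cast
    field_simp
    ring
  have e2 : (d.e1).val (pt 0 ((U - d.u0) / (d.u1 - d.u0)) 0 (w / d.u1)) = w := by
    unfold Xce.e1
    rw [val_mul, val_qc, val_uT, mul_div_cancel₀ _ hb'.ne']
  rw [e1, e2] at key
  exact key

/-- the inequality at the end `U` of the clock and the degree `k` -/
theorem nn_uk {f : E → E → E} {F : ℝ → ℝ → ℝ} (h : NC (f d.eU vX))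
    (hf : ∀ ρ U w, (f U w).val ρ = F (U.val ρ) (w.val ρ)) (h0 : 0 < d.u0) (h01 : d.u0 < d.u1)
    {U k : ℝ} (hU : U ∈ Icc (d.u0 : ℝ) d.u1) (hk : k ∈ Icc (0 : ℝ) 1) : 0 ≤ F U k := by
  have hu' : (0 : ℝ) < (d.u1 : ℝ) - d.u0 := by
    have : (d.u0 : ℝ) < d.u1 := by exact_mod_cast h01
    linarith
  have z0 : (0 : ℝ) ∈ Icc (0 : ℝ) 1 := ⟨le_rfl, zero_le_one⟩
  have key := h k ((U - d.u0) / (d.u1 - d.u0)) 0 0 hk
    ⟨div_nonneg (by linarith [hU.1]) hu'.le, (div_le_one hu').2 (by linarith [hU.2])⟩ z0 z0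
  rw [hf] at key
  have e1 : (d.eU).val (pt k ((U - d.u0) / (d.u1 - d.u0)) 0 0) = U := by
    unfold eU
    rw [val_add, val_mul, val_qc, val_qc, val_uZ]
    push_cast
    field_simp
    ring
  rw [e1, val_uX] at key
  exact key

/-- the column with the gauge -/
noncomputable def rA (d : Xce) (U w : ℝ) : ℝ := Xcd.rdP d.i.r1 U w + d.ga

noncomputable def rB (d : Xce) (U w : ℝ) : ℝ :=
  Xcd.rdP d.j.r1 U w + pv d.y.UP U + (d.gb + d.c.kp)

noncomputable def rAT (d : Xce) (U w : ℝ) : ℝ :=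
  d.rA U w + (Xcd.rdP d.i.rV U w * pv d.l.Gm (U - w)
    + (1 + Xcd.rdP d.i.rU U w) * pv d.l.Gp (U - w))

noncomputable def rBT (d : Xce) (U w : ℝ) : ℝ :=
  d.rB U w + (Xcd.rdP d.j.rV U w * pv d.l.Gm (U - w) + Xcd.rdP d.j.rU U w * pv d.l.Gp (U - w)
    + pv d.y.VP (U - w))

noncomputable def rSD (d : Xce) (U w : ℝ) : ℝ :=
  pv d.gs U * pv d.ls.UT U + Xcd.rdP d.ls.h1 U w + (d.hb + d.c.kp)

noncomputable def rST (d : Xce) (U w : ℝ) : ℝ :=
  d.rSD U w + pv d.gs (U - w) * (Xcd.rdP d.ls.hV U w * pv d.ls.Gm (U - w)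
    + (1 + (d.ls.dlt + Xcd.rdP d.ls.hW U w)) * pv d.ls.Gp (U - w) + pv d.ls.VT (U - w))

theorem val_eA (ρ : ℕ → ℝ) (U w : E) : (d.eA U w).val ρ = d.rA (U.val ρ) (w.val ρ) := by
  unfold eA rA
  simp only [val_add, Xcd.val_edP, val_qc]

theorem val_eB (ρ : ℕ → ℝ) (U w : E) : (d.eB U w).val ρ = d.rB (U.val ρ) (w.val ρ) := by
  unfold eB rB
  simp only [val_add, Xcd.val_edP, val_qc, val_pe]
  push_cast
  ring

theorem val_eAT (ρ : ℕ → ℝ) (U w : E) : (d.eAT U w).val ρ = d.rAT (U.val ρ) (w.val ρ) := by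
  unfold eAT rAT
  simp only [val_add, val_mul, val_sub, val_eA, Xcd.val_edP, val_one, val_pe]

theorem val_eBT (ρ : ℕ → ℝ) (U w : E) : (d.eBT U w).val ρ = d.rBT (U.val ρ) (w.val ρ) := by
  unfold eBT rBT
  simp only [val_add, val_mul, val_sub, val_eB, Xcd.val_edP, val_pe]

theorem val_eSD (ρ : ℕ → ℝ) (U w : E) : (d.eSD U w).val ρ = d.rSD (U.val ρ) (w.val ρ) := by
  unfold eSD rSD
  simp only [val_add, val_mul, Xcd.val_edP, val_pe, val_qc]
  push_cast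
  ring

theorem val_eST (ρ : ℕ → ℝ) (U w : E) : (d.eST U w).val ρ = d.rST (U.val ρ) (w.val ρ) := by
  unfold eST rST
  simp only [val_add, val_mul, val_sub, val_eSD, Xcd.val_edP, val_one, val_pe, val_qc]

section

variable (h : d.Ck GR HR z c e r) (hb : 0 < c.t1) {U s w : ℝ} (hU : U ∈ Icc (d.u0 : ℝ) d.u1)
  (hs : s ∈ Icc (0 : ℝ) c.t1) (hw : w = pv (pri z.mb) s) (hw1 : w ∈ Icc (0 : ℝ) d.u1)

include h hU in
theorem Ck.Upos : 0 < U := by
  have : (0 : ℝ) < d.u0 := by exact_mod_cast h.u0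
  linarith [hU.1]

include h hU in
theorem Ck.dl' : pv d.l.dl U ≤ e.dl := by
  have z0 : (0 : ℝ) ≤ d.u1 := by
    have := h.u0.trans h.u01
    exact_mod_cast this.le
  have key := nn_us (F := fun U _ => (e.dl : ℝ) - pv d.l.dl U)
    (f := fun U _ => qc e.dl - pe d.l.dl U) h.dl
    (fun ρ U w => by rw [val_sub, val_qc, val_pe]) h.u0 h.u01 hU (w := 0) ⟨le_rfl, z0⟩
  linarith

include h hU in
theorem Ck.eY' {D : ℤ} {n : ℕ} (hl : d.l.ok D n = true) : Real.exp (pv d.l.z U) ≤ e.eY := by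
  have z0 : (0 : ℝ) ≤ d.u1 := by
    have := h.u0.trans h.u01
    exact_mod_cast this.le
  have key := nn_us (F := fun U _ => (e.eY : ℝ) - pv (e4l d.l.z) U)
    (f := fun U _ => qc e.eY - pe (e4l d.l.z) U) h.eY
    (fun ρ U w => by rw [val_sub, val_qc, val_pe]) h.u0 h.u01 hU (w := 0) ⟨le_rfl, z0⟩
  have hug : (d.u1 : ℝ) ≤ d.l.Ug := by exact_mod_cast h.ul
  obtain ⟨a0, a1, a2⟩ := Xcd.zdl_of hl (u := U) ⟨(h.Upos hU).le, hU.2.trans hug⟩
  have h1 := exp_le_ex4 a0 (by linarith)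
  rw [pv_e4l] at key
  linarith

include h hU in
/-- the rows without the direct part, world of a pair -/
theorem Ck.gr' {D : ℤ} {n : ℕ} (hl : d.l.ok D n = true) {k : ℝ} (hk : k ∈ Icc (0 : ℝ) 1) :
    pv2 GR k U ≤ d.ga * ((1 + 3 / 5 * k) * Real.exp (pv d.l.z U + k * pv d.l.dl U)) + d.gb := by
  have key := nn_uk (d := d) (F := fun U k => (d.ga : ℝ) * ((1 + 3 / 5 * k)
      * (1 + ((pv d.l.z U + k * pv d.l.dl U) + 1 / 2 * (pv d.l.z U + k * pv d.l.dl U) ^ 2)))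
      + d.gb - pv2 GR k U)
    (f := fun U k => qc d.ga * ((1 + qc (3 / 5) * k) * (1 + ((pe d.l.z U + k * pe d.l.dl U)
      + hlf * (pe d.l.z U + k * pe d.l.dl U) ^ 2))) + qc d.gb - pe2 GR k U) h.gr
    (fun ρ U w => by
      simp only [val_sub, val_add, val_mul, val_pow, val_qc, val_pe, val_pe2, val_one, val_hlf]
      push_cast
      ring) h.u0 h.u01 hU hk
  have hug : (d.u1 : ℝ) ≤ d.l.Ug := by exact_mod_cast h.ul
  obtain ⟨a0, a1, a2⟩ := Xcd.zdl_of hl (u := U) ⟨(h.Upos hU).le, hU.2.trans hug⟩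
  set y := pv d.l.z U + k * pv d.l.dl U with hy
  have y0 : 0 ≤ y := add_nonneg a0 (mul_nonneg hk.1 a1)
  have h1 := Real.quadratic_le_exp_of_nonneg y0
  have g0 : (0 : ℝ) ≤ d.ga := by exact_mod_cast h.ga0
  have h2 := mul_le_mul_of_nonneg_left (mul_le_mul_of_nonneg_left h1
    (by linarith [hk.1] : (0 : ℝ) ≤ 1 + 3 / 5 * k)) g0
  have h3 : (d.ga : ℝ) * ((1 + 3 / 5 * k) * (1 + (y + 1 / 2 * y ^ 2)))
      = d.ga * ((1 + 3 / 5 * k) * (1 + y + y ^ 2 / 2)) := by ring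
  linarith

include h hU in
/-- the rows without the direct part, star -/
theorem Ck.hr' {k : ℝ} (hk : k ∈ Icc (0 : ℝ) 1) : pv2 HR k U ≤ d.hb := by
  have key := nn_uk (d := d) (F := fun U k => (d.hb : ℝ) - pv2 HR k U)
    (f := fun U k => qc d.hb - pe2 HR k U) h.hr
    (fun ρ U w => by simp only [val_sub, val_qc, val_pe2]) h.u0 h.u01 hU hk
  linarith

include h hb hs hw in
theorem Ck.hz' : pv d.c.dR w ≤ pv r.hz s := hw ▸ Xcd.nn_sw h.hz hb hs

include h hb hU hs hw hw1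

theorem Ck.d1' : d.rA U w ≤ pv r.d1 s := by
  have key := nn_us (F := fun U w => pv d.d1 w - d.rA U w)
    (f := fun U w => pe d.d1 w - d.eA U w) h.d1
    (fun ρ U w => by rw [val_sub, val_pe, val_eA]) h.u0 h.u01 hU hw1
  refine le_trans ?_ (hw ▸ Xcd.nn_sw h.d1s hb hs)
  linarith

theorem Ck.d2' : d.rB U w ≤ pv r.d2 s := by
  have key := nn_us (F := fun U w => pv d.d2 w - d.rB U w)
    (f := fun U w => pe d.d2 w - d.eB U w) h.d2
    (fun ρ U w => by rw [val_sub, val_pe, val_eB]) h.u0 h.u01 hU hw1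
  refine le_trans ?_ (hw ▸ Xcd.nn_sw h.d2s hb hs)
  linarith

theorem Ck.t1' : d.rAT U w ≤ pv r.t1 s := by
  have key := nn_us (F := fun U w => pv d.t1 w - d.rAT U w)
    (f := fun U w => pe d.t1 w - d.eAT U w) h.t1
    (fun ρ U w => by rw [val_sub, val_pe, val_eAT]) h.u0 h.u01 hU hw1
  refine le_trans ?_ (hw ▸ Xcd.nn_sw h.t1s hb hs)
  linarith

theorem Ck.t2' : d.rBT U w ≤ pv r.t2 s := by
  have key := nn_us (F := fun U w => pv d.t2 w - d.rBT U w)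
    (f := fun U w => pe d.t2 w - d.eBT U w) h.t2
    (fun ρ U w => by rw [val_sub, val_pe, val_eBT]) h.u0 h.u01 hU hw1
  refine le_trans ?_ (hw ▸ Xcd.nn_sw h.t2s hb hs)
  linarith

theorem Ck.dy' : d.rSD U w ≤ pv r.dy s := by
  have key := nn_us (F := fun U w => pv d.dy w - d.rSD U w)
    (f := fun U w => pe d.dy w - d.eSD U w) h.dy
    (fun ρ U w => by rw [val_sub, val_pe, val_eSD]) h.u0 h.u01 hU hw1
  refine le_trans ?_ (hw ▸ Xcd.nn_sw h.dys hb hs)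
  linarith

theorem Ck.ty' : d.rST U w ≤ pv r.ty s := by
  have key := nn_us (F := fun U w => pv d.ty w - d.rST U w)
    (f := fun U w => pe d.ty w - d.eST U w) h.ty
    (fun ρ U w => by rw [val_sub, val_pe, val_eST]) h.u0 h.u01 hU hw1
  refine le_trans ?_ (hw ▸ Xcd.nn_sw h.tys hb hs)
  linarith

end

/-- the gauge of the star -/
theorem Ck.gs' (h : d.Ck GR HR z c e r) {D : ℤ} {n : ℕ} (hl : d.ls.ok D n = true) {k u U : ℝ}
    (hk : k ∈ Icc (0 : ℝ) 1) (hu : u ∈ Icc (0 : ℝ) d.u1) :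
    (d.ls.yf U).Eg k u ≤ pv d.gs u := by
  have h0 : (0 : ℝ) < d.u1 := by
    have := h.u0.trans h.u01
    exact_mod_cast this
  have z0 : (0 : ℝ) ∈ Icc (0 : ℝ) 1 := ⟨le_rfl, zero_le_one⟩
  have key := h.gs 0 0 0 (u / d.u1) z0 z0 z0
    ⟨div_nonneg hu.1 h0.le, (div_le_one h0).2 hu.2⟩
  have e1 : (d.e1).val (pt 0 0 0 (u / d.u1)) = u := by
    unfold Xce.e1
    rw [val_mul, val_qc, val_uT, mul_div_cancel₀ _ h0.ne']
  simp only [val_sub, val_mul, val_pe, val_qc, e1] at key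
  rw [pv_e4l, pv_ladd] at key
  have hug : (d.u1 : ℝ) ≤ d.ls.Ug := by exact_mod_cast h.us
  obtain ⟨a0, a1, a2⟩ := Xcd.zdl_of hl (u := u) ⟨hu.1, hu.2.trans hug⟩
  have h1 := exp_le_ex4 (z := pv d.ls.z u + pv d.ls.dl u) (by linarith) a2
  have h2 : Real.exp (pv d.ls.z u + k * pv d.ls.dl u) ≤ Real.exp (pv d.ls.z u + pv d.ls.dl u) :=
    Real.exp_le_exp.2 (by have := mul_le_mul_of_nonneg_right hk.2 a1; linarith)
  have h3 := mul_le_mul (by linarith [hk.2] : 1 + 3 / 5 * k ≤ 8 / 5) (h2.trans h1)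
    (Real.exp_pos _).le (by norm_num)
  push_cast at key
  show (1 + 3 / 5 * k) * Real.exp (pv d.ls.z u + k * pv d.ls.dl u) ≤ _
  linarith

end Xce

end Pool.Agent.RX.RCN.K
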