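import Pool.Agent.RX.RCN.DrT
import Pool.Agent.RX.RCN.StW
import Pool.Agent.RX.RCN.T3a
import Pool.Agent.RX.RCN.YlC

/-! The rows of the second type with the signed direct part: the rows of an analysis cell
(MP_73ccd0_lc, route M). -/

namespace Pool.Agent.RX.RCN.K

open Set Finset MeasureTheory Pool.Agent.RX.RCRSHalf Pool.Agent.RX.RCG Pool.Agent.RX.RCG.Ct
open Pool.Agent.RX.RCN.Ker Pool.Agent.RX.RCRS
open Pool.Agent.RX.RCM hiding qc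
open Pool.Agent.RX.RCM9 Pool.Agent.RX.RCM9.Bern Pool.Agent.RX.RCM9.Pk

set_option linter.unusedSectionVars false

/-- the facts on the lists of a cell -/
structure Xce.Lk (d : Xce) (g : MDat) (Hp Hm : List (List ℚ)) (nb la : List ℚ) (Uo : ℚ) :
    Prop where
  ok : ∃ (D : ℤ) (n : ℕ), d.l.ok D n = true
  oky : ∃ (D : ℤ) (n : ℕ), d.y.ok d.l D n = true ∧
    d.j.ok d.l d.y 0 0 (d.y.p1 d.l) d.y.p2 D n = true ∧ d.i.ok d.l d.y 1 0 [] [] D n = true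
  oks : ∃ (D : ℤ) (n : ℕ), d.ls.ok D n = true
  okk : ∃ (D : ℤ) (n : ℕ), d.k.ok d.l D n = true
  okc : ∃ (D : ℤ) (n : ℕ), d.c.ok d.l d.k nb la D n = true
  CU : d.c.Cv ≤ Uo
  fx : d.l.Fx (pv2 g.Gp) (pv2 g.Gm)
  fxs : d.ls.Fx (pv2 Hp) (pv2 Hm)
  y : ∀ u ∈ Icc (0 : ℝ) d.l.Ug, pv g.y u ≤ pv d.l.z u
  zd : ∀ u ∈ Icc (0 : ℝ) d.l.Ug, u ≤ pv d.l.z u + pv d.l.dl u
  B : ∀ u ∈ Icc (0 : ℝ) d.l.Ug, pv g.B u ≤ d.l.b1 * u
  ys : ∀ u ∈ Icc (0 : ℝ) d.ls.Ug, u + pv g.y u ≤ 2 * pv d.ls.z u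
  zs : ∀ u ∈ Icc (0 : ℝ) d.ls.Ug, 2 * u ≤ 2 * pv d.ls.z u + pv d.ls.dl u
  Bs : ∀ u ∈ Icc (0 : ℝ) d.ls.Ug, pv g.B u ≤ d.ls.b1 * u

theorem Yl.dlt0 {l : Yl} {D : ℤ} {n : ℕ} (h : l.ok D n = true) : (0 : ℝ) ≤ l.dlt := by
  simp only [Yl.ok, Bool.and_eq_true, and_assoc] at h
  obtain ⟨hA, -, -⟩ := h
  simp only [Yl.okA, Bool.and_eq_true, decide_eq_true_eq, and_assoc] at hA
  obtain ⟨-, m0, q0, b0, r00, r01, hr, c01, c02, dlt0, -⟩ := hA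
  exact_mod_cast dlt0

variable {V : Type*} [Fintype V] [DecidableEq V]
variable {p : Ps} {x : V → V → ℝ} {P : V → Prop} [DecidablePred P] {g : MDat} {gr : ℕ → MGr}
  {Hp Hm GR HR : List (List ℚ)} {N n : ℕ} {G : ℕ → V → V → Fm V} {H : ℕ → V → Fm V} {a b : V}
  {d : Xce} {c : Cel} {e : Xge} {r : Xr} {nb la : List ℚ} {Uo : ℚ}

theorem kxa_one {a : V} (e : V) : RCM.kx x {a} e = x a e := by
  unfold RCM.kx
  rw [Finset.sum_singleton]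

theorem kxa_two {a b : V} (hba : b ≠ a) (e : V) : RCM.kx x {b, a} e = x a e + x b e := by
  unfold RCM.kx
  rw [Finset.sum_pair hba, add_comm]

section pair

variable (h : Fct p x P g gr Hp Hm N G H) (hr : Fcr p x P GR HR N G H) (hp : p.Ok)
  (hx : Wt x P 1) (hc : Ckp p g.y g.B) (hn : n < N) (ha : P a) (hb : P b) (hba : b ≠ a)
  (hk : d.Ck GR HR p.z c e r) (hl : d.Lk g Hp Hm nb la Uo) (c0 : 0 < c.t1)
  (hU : p.Cc (cb N n) ∈ Icc (d.u0 : ℝ) d.u1) (hcb : cb N n ≤ c.t1)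
  (hm : d.l.m = (gr n).m) (hq : d.l.q = (gr n).q)

include h hr hp hx hc hn ha hb hba hk hl c0 hU hcb hm hq

/-- **the columns of the world `{b, a}`** -/
theorem Xce.colB {i : V} (hi : i ∈ ({b, a} : Finset V)ᶜ) {s : ℝ} (hs : s ∈ Icc 0 (cb N n)) :
    ∑ j ∈ (({b, a} : Finset V)ᶜ).erase i,
      XSD p.z.hz (p.F2 x P N n b a) x P (G n b a) (cb N n) {b, a} d.c.kp s i j
      ≤ (1 - (x a i + x b i)) * ((d.l.yf (p.Cc (cb N n))).Eg (x a i + x b i) (p.Cc (cb N n))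
        * pv r.d1 s + pv r.d2 s) ∧
    ∑ j ∈ (({b, a} : Finset V)ᶜ).erase i,
      XST p.z.hz (p.F2 x P N n b a) x P (G n b a) (cb N n) {b, a} d.c.kp s i j
      ≤ (1 - (x a i + x b i)) * ((d.l.yf (p.Cc (cb N n))).Eg (x a i + x b i) (p.Cc (cb N n))
        * pv r.t1 s + pv r.t2 s) := by
  set τ := cb N n with hτd
  set U := p.Cc τ with hUd
  have hτ0 : 0 ≤ τ := cb_nonneg' N n
  have τb : τ ≤ bt := cb_le_bt hn
  have hZ := hp.z.ok hp.d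
  have U0 : 0 < U := hk.Upos hU
  have u1l : (d.u1 : ℝ) ≤ d.l.Ug := by exact_mod_cast hk.ul
  have Ul : U ≤ d.l.Ug := hU.2.trans u1l
  have ml : ∀ u ∈ Icc 0 U, u ∈ Icc (0 : ℝ) d.l.Ug := fun u hu => ⟨hu.1, hu.2.trans Ul⟩
  obtain ⟨D, nn, hok⟩ := hl.ok
  obtain ⟨Dy, ny, ok1, ok2, ok3⟩ := hl.oky
  have hf : (d.l.yf U).Ok (pv2 g.Gp) (pv2 g.Gm) d.l.dlt := Yl.ok_of hok hl.fx U0 Ul
  have hy := Yz.ok_of ok1 Ul
  have hj := Yv.ok_of hf ok1 ok2 Ul le_rfl le_rfl (fun u => (Yz.pv_p1 (U := U) u).symm)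
    (fun u => (Yz.pv_p2 u).symm)
  have hn' := Yv.ok_of (P1 := fun _ => 0) (P2 := fun _ => 0) hf ok1 ok3 Ul zero_le_one le_rfl
    (fun u => by simp [pv]) (fun u => by simp [pv])
  have hj' : (d.j.jc 0 0 U).Fk (d.l.yf U) 0 0 (d.y.yg.P1 (d.l.yf U)) d.y.yg.P2 := by
    simpa using hj
  have hi' : (d.i.jc 1 0 U).Fk (d.l.yf U) 1 0 (fun _ => 0) (fun _ => 0) := by
    simpa using hn'
  set u : ℝ → ℝ := fun r => p.Cc τ - p.Cc r with hu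
  have hW : Wx p.z.hz (p.F2 x P N n b a) x P τ {b, a} p.g.rB (G n b a).gp (G n b a).gm
      (d.l.yf U).U (d.l.yf U).b1 (d.l.yf U).z (d.l.yf U).dl (pv2 g.Gp) (pv2 g.Gm)
      (pv p.z.mb) u :=
    pair_wx h hp hx hc hn hb ha hba (fun u hu => hl.y u (ml u hu))
      (fun u hu => hl.zd u (ml u hu)) (fun u hu => hl.B u (ml u hu))
  have hcl := h.cl n hn b a hb ha hba
  have hG : (G n b a).Tk p.z.hz (p.F2 x P N n b a) x P τ τ {b, a} p.g.rB (d.l.yf U).m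
      (d.l.yf U).q := by
    have h1 := hcl.tk
    rw [← hm, ← hq] at h1
    exact h1
  have u0' : u 0 = U := by
    show p.Cc τ - p.Cc 0 = _
    rw [p.Cc_zero, sub_zero]
  have sm : s ∈ Icc (0 : ℝ) c.t1 := ⟨hs.1, hs.2.trans hcb⟩
  have wm : p.Cc s ∈ Icc (0 : ℝ) d.u1 := by
    have h1 := Ps.Cc_mono hp hs.1 hs.2 τb
    have h2 := Ps.Cc_mono hp le_rfl hs.1 (hs.2.trans τb)
    rw [p.Cc_zero] at h2
    exact ⟨h2, h1.trans hU.2⟩
  have kx1 : RCM.kx x {b, a} i = x a i + x b i := kxa_two hba i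
  have kk : x a i + x b i ∈ Icc (0 : ℝ) 1 := kx1 ▸ kx_mem hx {b, a} i
  have c1 := hf.X0D_col (Yl.co d.l U) hp.g.cf hZ hx hW (h.gs n hn b a hb ha hba) hG
    (rB_cont p τ) hs hs.2 hy hj' hi' hi
  have c2 := hf.X0T_col (Yl.co d.l U) hp.g.cf hZ hx hW (h.gs n hn b a hb ha hba) hG
    (rB_cont p τ) hs hs.2 hy hj' hi' hi
  have c3 := h.gR2 hr hx hn hb ha hba hi
  have kp0 : (0 : ℝ) ≤ d.c.kp := by exact_mod_cast hk.kp0
  have c4 : ∑ j ∈ (({b, a} : Finset V)ᶜ).erase i, x i j * (d.c.kp : ℝ)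
      ≤ (1 - (x a i + x b i)) * d.c.kp := by
    rw [← Finset.sum_mul]
    refine mul_le_mul_of_nonneg_right ?_ kp0
    refine (Finset.sum_le_sum_of_subset_of_nonneg (Finset.erase_subset _ _)
      fun j _ _ => hx.nonneg i j).trans ((row_dmp hx _ i).trans (le_of_eq ?_))
    rw [dmp_eq, kx1]
  rw [kx1, u0'] at c1 c2
  rw [kx1] at c3
  have c5 := hk.gr' hU hok kk
  have k1 : 0 ≤ 1 - (x a i + x b i) := by linarith [kk.2]
  set E0 := (d.l.yf U).Eg (x a i + x b i) U with hE0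
  have E00 : 0 ≤ E0 := mul_nonneg (show (0 : ℝ) ≤ 1 + 3 / 5 * (x a i + x b i) by
    linarith [kk.1]) (Real.exp_pos _).le
  have c5' : pv2 GR (x a i + x b i) (p.Cc τ) ≤ d.ga * E0 + d.gb := c5
  have c6 := mul_le_mul_of_nonneg_left c5' k1
  have b1 := mul_le_mul_of_nonneg_left (hk.d1' c0 hU sm rfl wm) E00
  have b2 := hk.d2' c0 hU sm rfl wm
  have b3 := mul_le_mul_of_nonneg_left (hk.t1' c0 hU sm rfl wm) E00
  have b4 := hk.t2' c0 hU sm rfl wm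
  have e1 : p.Cc s = pv (pri p.z.mb) s := rfl
  rw [← e1] at b1 b2 b3 b4
  have us : u s = U - p.Cc s := rfl
  have d0 : (d.l.yf U).cD0 d.y.yg (d.j.jc 0 0 U) (d.i.jc 1 0 U) U (u s) (x a i + x b i)
      = Xcd.rdP d.j.r1 U (p.Cc s) + pv d.y.UP U + E0 * Xcd.rdP d.i.r1 U (p.Cc s) := rfl
  have d1 : (d.l.yf U).cT d.y.yg (d.j.jc 0 0 U) (d.i.jc 1 0 U) U (u s) (x a i + x b i)
      = (Xcd.rdP d.j.rV U (p.Cc s) * pv d.l.Gm (U - p.Cc s)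
          + Xcd.rdP d.j.rU U (p.Cc s) * pv d.l.Gp (U - p.Cc s) + pv d.y.VP (U - p.Cc s))
        + E0 * (Xcd.rdP d.i.rV U (p.Cc s) * pv d.l.Gm (U - p.Cc s)
          + (1 + Xcd.rdP d.i.rU U (p.Cc s)) * pv d.l.Gp (U - p.Cc s)) := by
    show (Xcd.rdP d.j.rV U (p.Cc s) * pv d.l.Gm (U - p.Cc s)
          + (((0 : ℚ) : ℝ) + Xcd.rdP d.j.rU U (p.Cc s)) * pv d.l.Gp (U - p.Cc s)
          + pv d.y.VP (U - p.Cc s))
        + E0 * (Xcd.rdP d.i.rV U (p.Cc s) * pv d.l.Gm (U - p.Cc s)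
          + (((1 : ℚ) : ℝ) + Xcd.rdP d.i.rU U (p.Cc s)) * pv d.l.Gp (U - p.Cc s)) = _
    push_cast
    ring
  rw [d0] at c1 c2
  rw [d1] at c2
  unfold Xce.rAT at b3
  unfold Xce.rBT at b4
  unfold Xce.rA at b1 b3
  unfold Xce.rB at b2 b4
  constructor
  · have e2 : ∑ j ∈ (({b, a} : Finset V)ᶜ).erase i,
        XSD p.z.hz (p.F2 x P N n b a) x P (G n b a) τ {b, a} d.c.kp s i j
        = ∑ j ∈ (({b, a} : Finset V)ᶜ).erase i,
            X0D p.z.hz (p.F2 x P N n b a) x P (G n b a) τ {b, a} s i j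
          + (∑ j ∈ (({b, a} : Finset V)ᶜ).erase i,
            gmR p.z.hz (p.F2 x P N n b a) x P (G n b a) i j τ
          + ∑ j ∈ (({b, a} : Finset V)ᶜ).erase i, x i j * (d.c.kp : ℝ)) := by
      rw [← Finset.sum_add_distrib, ← Finset.sum_add_distrib]
      rfl
    rw [e2]
    have f1 := mul_le_mul_of_nonneg_left (add_le_add b1 b2) k1
    linarith
  · have e2 : ∑ j ∈ (({b, a} : Finset V)ᶜ).erase i,
        XST p.z.hz (p.F2 x P N n b a) x P (G n b a) τ {b, a} d.c.kp s i j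
        = ∑ j ∈ (({b, a} : Finset V)ᶜ).erase i,
            X0T p.z.hz (p.F2 x P N n b a) x P (G n b a) τ {b, a} s i j
          + (∑ j ∈ (({b, a} : Finset V)ᶜ).erase i,
            gmR p.z.hz (p.F2 x P N n b a) x P (G n b a) i j τ
          + ∑ j ∈ (({b, a} : Finset V)ᶜ).erase i, x i j * (d.c.kp : ℝ)) := by
      rw [← Finset.sum_add_distrib, ← Finset.sum_add_distrib]
      rfl
    rw [e2]
    have f1 := mul_le_mul_of_nonneg_left (add_le_add b3 b4) k1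
    linarith

end pair

section star

variable (h : Fct p x P g gr Hp Hm N G H) (hr : Fcr p x P GR HR N G H) (hp : p.Ok)
  (hx : Wt x P 1) (hc : Ckp p g.y g.B) (hn : n < N) (ha : P a)
  (hk : d.Ck GR HR p.z c e r) (hl : d.Lk g Hp Hm nb la Uo) (c0 : 0 < c.t1)
  (hU : p.Cc (cb N n) ∈ Icc (d.u0 : ℝ) d.u1) (hcb : cb N n ≤ c.t1)
  (hms : d.ls.m = (gr n).m) (hqs : d.ls.q = (gr n).q)

include h hr hp hx hc hn ha hk hl c0 hU hcb hms hqs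

/-- **the rows of the star** -/
theorem Xce.rowB {i : V} (hi : i ≠ a) {s : ℝ} (hs : s ∈ Icc 0 (cb N n)) :
    ∑ j ∈ ({a, i} : Finset V)ᶜ,
      XSD p.z.hz (p.lzs x a (cb N n)) x P (H n a) (cb N n) {a} d.c.kp s j i
      ≤ (1 - x a i) * pv r.dy s ∧
    ∑ j ∈ ({a, i} : Finset V)ᶜ,
      XST p.z.hz (p.lzs x a (cb N n)) x P (H n a) (cb N n) {a} d.c.kp s j i
      ≤ (1 - x a i) * pv r.ty s := by
  set τ := cb N n with hτd
  set U := p.Cc τ with hUd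
  have hτ0 : 0 ≤ τ := cb_nonneg' N n
  have τb : τ ≤ bt := cb_le_bt hn
  have hZ := hp.z.ok hp.d
  have U0 : 0 < U := hk.Upos hU
  have u1s : (d.u1 : ℝ) ≤ d.ls.Ug := by exact_mod_cast hk.us
  have Us : U ≤ d.ls.Ug := hU.2.trans u1s
  have ms : ∀ u ∈ Icc 0 U, u ∈ Icc (0 : ℝ) d.ls.Ug := fun u hu => ⟨hu.1, hu.2.trans Us⟩
  obtain ⟨D, nn, hok⟩ := hl.oks
  have hf : (d.ls.yf U).Ok (pv2 Hp) (pv2 Hm) d.ls.dlt := Yl.ok_of hok hl.fxs U0 Us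
  set u : ℝ → ℝ := fun r => p.Cc τ - p.Cc r with hu
  have hW : Wx p.z.hz (p.lzs x a τ) x P τ {a} p.g.rB (H n a).gp (H n a).gm
      (d.ls.yf U).U (d.ls.yf U).b1 (d.ls.yf U).z (d.ls.yf U).dl (pv2 Hp) (pv2 Hm)
      (pv p.z.mb) u :=
    h.wx_star hp hx hc hn ha le_rfl (fun u hu => hl.Bs u (ms u hu))
      (fun u hu => hl.ys u (ms u hu)) (fun u hu => hl.zs u (ms u hu))
  have hG : (H n a).Tk p.z.hz (p.lzs x a τ) x P τ τ {a} p.g.rB (d.ls.yf U).m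
      (d.ls.yf U).q := by
    have h1 := h.tk n hn a ha
    rw [← hms, ← hqs] at h1
    exact h1
  have u0' : u 0 = U := by
    show p.Cc τ - p.Cc 0 = _
    rw [p.Cc_zero, sub_zero]
  have sm : s ∈ Icc (0 : ℝ) c.t1 := ⟨hs.1, hs.2.trans hcb⟩
  have wm : p.Cc s ∈ Icc (0 : ℝ) d.u1 := by
    have h1 := Ps.Cc_mono hp hs.1 hs.2 τb
    have h2 := Ps.Cc_mono hp le_rfl hs.1 (hs.2.trans τb)
    rw [p.Cc_zero] at h2
    exact ⟨h2, h1.trans hU.2⟩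
  have um : U - p.Cc s ∈ Icc (0 : ℝ) U := by
    have h1 := Ps.Cc_mono hp hs.1 hs.2 τb
    have h2 := Ps.Cc_mono hp le_rfl hs.1 (hs.2.trans τb)
    rw [p.Cc_zero] at h2
    exact ⟨by linarith, by linarith⟩
  have hi' : i ∈ ({a} : Finset V)ᶜ := by simp [hi]
  have kx1 : RCM.kx x {a} i = x a i := kxa_one i
  have kk : x a i ∈ Icc (0 : ℝ) 1 := kx1 ▸ kx_mem hx {a} i
  have c1 := hf.X0D_row hp.g.cf hZ hx hW (h.hs n hn a ha) hG (rB_cont p τ) hs hs.2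
    (Yl.dlt0 hok) hi'
  have c2 := hf.X0T_row hp.g.cf hZ hx hW (h.hs n hn a ha) hG (rB_cont p τ) hs hs.2
    (Yl.dlt0 hok) hi'
  have c3 := h.gS1 hr hx hn ha hi'
  have kp0 : (0 : ℝ) ≤ d.c.kp := by exact_mod_cast hk.kp0
  have c4 : ∑ j ∈ (({a} : Finset V)ᶜ).erase i, x j i * (d.c.kp : ℝ)
      ≤ (1 - x a i) * d.c.kp := by
    have h1 : ∑ j ∈ (({a} : Finset V)ᶜ).erase i, x j i * (d.c.kp : ℝ)
        = ∑ j ∈ (({a} : Finset V)ᶜ).erase i, x i j * (d.c.kp : ℝ) :=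
      Finset.sum_congr rfl fun j _ => by rw [hx.symm i j]
    rw [h1, ← Finset.sum_mul]
    refine mul_le_mul_of_nonneg_right ?_ kp0
    refine (Finset.sum_le_sum_of_subset_of_nonneg (Finset.erase_subset _ _)
      fun j _ _ => hx.nonneg i j).trans ((row_dmp hx _ i).trans (le_of_eq ?_))
    rw [dmp_eq, kx1]
  rw [kx1, u0'] at c1 c2
  rw [kx1] at c3
  have c5 : pv2 HR (x a i) (p.Cc τ) ≤ d.hb := hk.hr' hU kk
  have k1 : 0 ≤ 1 - x a i := by linarith [kk.2]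
  have c6 := mul_le_mul_of_nonneg_left c5 k1
  have g1 := hk.gs' hok (U := U) kk ⟨U0.le, hU.2⟩
  have g2 := hk.gs' hok (U := U) kk ⟨um.1, um.2.trans hU.2⟩
  have hUm : U ∈ Icc 0 U := ⟨U0.le, le_rfl⟩
  have a2 := hf.UT0 U hUm
  have a5 := hf.gV0 _ um
  have a6 := hf.gW0 _ um
  have a7 := hf.Gm0 _ um
  have a8 := hf.Gp0 _ um
  have a9 := hf.VT0 _ um
  have b2 := hk.dy' c0 hU sm rfl wm
  have b4 := hk.ty' c0 hU sm rfl wm
  have e1 : p.Cc s = pv (pri p.z.mb) s := rfl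
  rw [← e1] at b2 b4
  have us : u s = U - p.Cc s := rfl
  have f1 := mul_le_mul_of_nonneg_right g1 a2
  have f2 := mul_le_mul_of_nonneg_right g2 (show (0 : ℝ) ≤ (d.ls.yf U).gV (U - p.Cc s)
    * (d.ls.yf U).Gm (U - p.Cc s) + (1 + (d.ls.yf U).gW (U - p.Cc s))
      * (d.ls.yf U).Gp (U - p.Cc s) + (d.ls.yf U).VT (U - p.Cc s) by positivity)
  have d0 : (d.ls.yf U).rD0 U (u s) (x a i) ≤ pv d.gs U * pv d.ls.UT U
      + Xcd.rdP d.ls.h1 U (p.Cc s) := add_le_add f1 le_rfl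
  have d1 : (d.ls.yf U).rT (u s) (x a i) ≤ pv d.gs (U - p.Cc s)
      * (Xcd.rdP d.ls.hV U (p.Cc s) * pv d.ls.Gm (U - p.Cc s)
      + (1 + (d.ls.dlt + Xcd.rdP d.ls.hW U (p.Cc s))) * pv d.ls.Gp (U - p.Cc s)
      + pv d.ls.VT (U - p.Cc s)) := f2
  unfold Xce.rST at b4
  unfold Xce.rSD at b2 b4
  have e3 : ({a, i} : Finset V)ᶜ = (({a} : Finset V)ᶜ).erase i := compl_pair a i
  rw [e3]
  constructor
  · have e2 : ∑ j ∈ (({a} : Finset V)ᶜ).erase i,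
        XSD p.z.hz (p.lzs x a τ) x P (H n a) τ {a} d.c.kp s j i
        = ∑ j ∈ (({a} : Finset V)ᶜ).erase i,
            X0D p.z.hz (p.lzs x a τ) x P (H n a) τ {a} s j i
          + (∑ j ∈ (({a} : Finset V)ᶜ).erase i,
            gmR p.z.hz (p.lzs x a τ) x P (H n a) j i τ
          + ∑ j ∈ (({a} : Finset V)ᶜ).erase i, x j i * (d.c.kp : ℝ)) := by
      rw [← Finset.sum_add_distrib, ← Finset.sum_add_distrib]
      rfl
    rw [e2]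
    have h1 := mul_le_mul_of_nonneg_left (show (d.ls.yf U).rD0 U (u s) (x a i)
      + (d.hb + d.c.kp) ≤ pv r.dy s by linarith) k1
    linarith
  · have e2 : ∑ j ∈ (({a} : Finset V)ᶜ).erase i,
        XST p.z.hz (p.lzs x a τ) x P (H n a) τ {a} d.c.kp s j i
        = ∑ j ∈ (({a} : Finset V)ᶜ).erase i,
            X0T p.z.hz (p.lzs x a τ) x P (H n a) τ {a} s j i
          + (∑ j ∈ (({a} : Finset V)ᶜ).erase i,
            gmR p.z.hz (p.lzs x a τ) x P (H n a) j i τ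
          + ∑ j ∈ (({a} : Finset V)ᶜ).erase i, x j i * (d.c.kp : ℝ)) := by
      rw [← Finset.sum_add_distrib, ← Finset.sum_add_distrib]
      rfl
    rw [e2]
    have h1 := mul_le_mul_of_nonneg_left (show (d.ls.yf U).rD0 U (u s) (x a i)
      + (d.ls.yf U).rT (u s) (x a i) + (d.hb + d.c.kp) ≤ pv r.ty s by linarith) k1
    linarith

end star

end Pool.Agent.RX.RCN.K
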