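import Pool.Agent.RX.RCN.T2i
import Pool.Agent.RX.RCN.T2j
import Pool.Agent.RX.RCN.T3b

/-! The second type with the signed direct part on the whole interval (MP_73ccd0_lc, route M). -/

namespace Pool.Agent.RX.RCN.K

open Set Finset MeasureTheory Pool.Agent.RX.RCRSHalf Pool.Agent.RX.RCG Pool.Agent.RX.RCG.Ct
open Pool.Agent.RX.RCN.Ker Pool.Agent.RX.RCRS
open Pool.Agent.RX.RCM hiding qc
open Pool.Agent.RX.RCM9 Pool.Agent.RX.RCM9.Bern Pool.Agent.RX.RCM9.Pk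

set_option linter.unusedSectionVars false

section rows

variable {V : Type*} [Fintype V] [DecidableEq V]
variable {p : Ps} {x : V → V → ℝ} {P : V → Prop} [DecidablePred P] {g : MDat} {gr : ℕ → MGr}
  {Hp Hm GR HR : List (List ℚ)} {N n : ℕ} {G : ℕ → V → V → Fm V} {H : ℕ → V → Fm V} {a : V}
  {d : Xce} {c : Cel} {e : Xge} {r : Xr} {nb la : List ℚ} {Uo : ℚ}

/-- **the rows of the analysis cell `n`** -/
theorem rws_ofB (h : Fct p x P g gr Hp Hm N G H) (hr : Fcr p x P GR HR N G H) (hp : p.Ok)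
    (hx : Wt x P 1) (hc : Ckp p g.y g.B) (hS : DnS p Uo nb la)
    (hn : n < N) (ha : P a) (hk : d.Ck GR HR p.z c e r) (hl : d.Lk g Hp Hm nb la Uo)
    (c0 : 0 < c.t1) (hU : p.Cc (cb N n) ∈ Icc (d.u0 : ℝ) d.u1) (hcb : cb N n ≤ c.t1)
    (hCa : (d.c.Ca : ℝ) ≤ p.Cc (ca N n)) (hm : d.l.m = (gr n).m) (hq : d.l.q = (gr n).q)
    (hms : d.ls.m = (gr n).m) (hqs : d.ls.q = (gr n).q) :
    ∃ X Xt Ms Mt, Rws p x P a N n (fun b => G n b a) e r X Xt Ms Mt := by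
  set τ := cb N n with hτd
  set U := p.Cc τ with hUd
  have hτ0 : 0 ≤ τ := cb_nonneg' N n
  have τb : τ ≤ bt := cb_le_bt hn
  have U0 : 0 < U := hk.Upos hU
  have kp0 : (0 : ℝ) ≤ d.c.kp := by exact_mod_cast hk.kp0
  have uc : (d.u1 : ℝ) ≤ d.c.Cv := by exact_mod_cast hk.uc
  have hg : Dg p g gr N n d.c d.l d.k nb la Uo :=
    { hl := hl.ok
      hk := hl.okk
      hc := hl.okc
      fx := hl.fx
      S := hS
      CU := hl.CU
      m := hm.symm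
      q := hq.symm
      y := hl.y
      zd := hl.zd
      B := hl.B
      Ca := hCa
      Cv := hU.2.trans uc }
  have mem2 : ∀ {b d : V}, Gr.D3 a b d → d ∈ ({b, a} : Finset V)ᶜ := fun hd => by
    simp [hd.2.1, hd.2.2.symm]
  have mem3 : ∀ {b d e : V}, e ∈ ({a, b, d} : Finset V)ᶜ → e ∈ ({b, a} : Finset V)ᶜ ∧ d ≠ e :=
    fun he => by
      simp only [Finset.mem_compl, Finset.mem_insert, Finset.mem_singleton, not_or] at he ⊢
      exact ⟨⟨he.2.1, he.1⟩, fun h => he.2.2 h.symm⟩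
  obtain ⟨D, nn, hok⟩ := hl.ok
  refine ⟨fun b' d' e' s => XSD p.z.hz (p.F2 x P N n b' a) x P (G n b' a) τ {b', a} d.c.kp
      s d' e',
    fun b' d' e' s => XST p.z.hz (p.F2 x P N n b' a) x P (G n b' a) τ {b', a} d.c.kp s d' e',
    fun d' e' s => XSD p.z.hz (p.lzs x a τ) x P (H n a) τ {a} d.c.kp s d' e',
    fun d' e' s => XST p.z.hz (p.lzs x a τ) x P (H n a) τ {a} d.c.kp s d' e',
    ?_, ?_, ?_, ?_, ?_, ?_, ?_⟩
  · intro b d' e' hb hd he s hs'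
    exact h.xs0 hp hx hn hb ha hd.1 kp0 hs' (mem2 hd) (mem3 he).1 (mem3 he).2
  · intro d' e' hd s hs'
    exact h.ms0 hp hx hn ha kp0 hs' hd.1 hd.2.1 hd.2.2
  · intro b d' e' hb hPd hPe hd he t ht s hs'
    exact (h.dir hp hx hn hb ha hd.1 hc hg ht hs' (mem2 hd) (mem3 he).1 (mem3 he).2
      (Or.inl ⟨hPd, hPe⟩)).1
  · intro b d' e' hb hPd hPe hd he t ht s hs'
    have k2 := (h.dir hp hx hn hb ha hd.1 hc hg ht hs' (mem2 hd) (mem3 he).1 (mem3 he).2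
      (Or.inl ⟨hPd, hPe⟩)).2
    have sm : s ∈ Icc (0 : ℝ) c.t1 := ⟨hs'.1, hs'.2.trans (ht.2.trans hcb)⟩
    have k6 := hk.hz' c0 sm rfl
    have e1 : p.Cc s = pv (pri p.z.mb) s := rfl
    rw [← e1] at k6
    have k7 := mul_le_mul_of_nonneg_left k6 (hx.nonneg d' e')
    linarith
  · intro b d' hb hd s hs'
    obtain ⟨r1, r2⟩ := Xce.colB h hr hp hx hc hn ha hb hd.1 hk hl c0 hU hcb hm hq
      (mem2 hd) hs'
    refine ⟨(d.l.yf U).Eg (x a d' + x b d') U, ?_, ?_, ?_⟩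
    · have kk : x a d' + x b d' ∈ Icc (0 : ℝ) 1 := kxa_two hd.1 d' ▸ kx_mem hx {b, a} d'
      rw [hk.lm]
      have h2 := hk.eY' hU hok
      have h3 := hk.dl' hU
      show (1 + 3 / 5 * (x a d' + x b d'))
        * Real.exp (pv d.l.z U + (x a d' + x b d') * pv d.l.dl U) ≤ _
      rw [Real.exp_add]
      push_cast
      refine mul_le_mul_of_nonneg_left ?_ (by linarith [kk.1])
      exact mul_le_mul h2 (Real.exp_le_exp.2 (mul_le_mul_of_nonneg_left h3 kk.1))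
        (Real.exp_pos _).le ((Real.exp_pos _).le.trans h2)
    · rw [compl3]
      exact r1
    · rw [compl3]
      exact r2
  · intro b d' e' hb hd hde hbe s hs'
    exact h.xs_le hp hx hn ha le_rfl hb hd.1 hs' hd.2.1 hd.2.2.symm hde.2.1 hbe.symm hde.2.2
  · intro e' he s hs'
    obtain ⟨r1, r2⟩ := Xce.rowB h hr hp hx hc hn ha hk hl c0 hU hcb hms hqs he hs'
    rw [mul_comm (pv r.dy s), mul_comm (pv r.ty s)]
    exact ⟨r1, r2⟩

end rows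

/-- a cell of the second type: data, rows, first and last analysis cell -/
structure T3q where
  z : T2z
  d : Xce
  i0 : ℕ
  i1 : ℕ

namespace T3q

/-- times and clock -/
def cv (w : T3q) (mb : List ℚ) (N : ℕ) : Prop :=
  w.z.c.t0 ≤ btq * ((w.i0 : ℚ) / N) ∧ btq * ((w.i1 : ℚ) / N) ≤ w.z.c.t1 ∧
  w.d.u0 ≤ ev (pri mb) (btq * (((w.i0 : ℚ) + 1) / N)) ∧
  ev (pri mb) (btq * ((w.i1 : ℚ) / N)) ≤ w.d.u1 ∧ w.i1 ≤ N ∧
  w.d.c.Ca ≤ ev (pri mb) (btq * ((w.i0 : ℚ) / N))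

/-- the cells are consecutive -/
def chain : List T3q → ℕ → ℕ → Bool
  | [], k, N => decide (N ≤ k)
  | w :: l, k, N => decide (w.i0 ≤ k) && chain l w.i1 N

theorem chain_mem {l : List T3q} {k N : ℕ} (h : chain l k N = true) {i : ℕ} (hk : k ≤ i)
    (hi : i < N) : ∃ w ∈ l, w.i0 ≤ i ∧ i < w.i1 := by
  induction l generalizing k with
  | nil =>
    simp only [chain, decide_eq_true_eq] at h
    omega
  | cons w l ih =>
    simp only [chain, Bool.and_eq_true, decide_eq_true_eq] at h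
    by_cases hw : i < w.i1
    · exact ⟨w, by simp, by omega, hw⟩
    · obtain ⟨v, hv, h1⟩ := ih h.2 (by omega)
      exact ⟨v, by simp [hv], h1⟩

/-- the group and the share of the cell -/
def grp (w : T3q) (gr : ℕ → MGr) (s2 : ℕ → ℚ) : Prop :=
  ∀ i, w.i0 ≤ i → i < w.i1 →
    w.d.l.m = (gr i).m ∧ w.d.l.q = (gr i).q ∧ w.d.ls.m = (gr i).m ∧ w.d.ls.q = (gr i).q ∧
    w.z.s = s2 i

end T3q

/-- everything on a cell of the second type -/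
structure T3K (p : Ps) (gd : GDat) (q : Iq) (f : Fx) (g : MDat)
    (Hp Hm GR HR : List (List ℚ)) (nb la : List ℚ) (Uo : ℚ) (w : T3q) : Prop where
  c : T2C p gd q f w.z.c w.z.n w.z.e w.z.r w.z.m w.z.s
  k : w.d.Ck GR HR p.z w.z.c w.z.e w.z.r
  l : w.d.Lk g Hp Hm nb la Uo

section

variable {V : Type} [Fintype V] [DecidableEq V]
variable {Gg : SimpleGraph V} [Fintype Gg.edgeSet] [DecidableEq Gg.edgeSet]
variable {p : Ps} {gd : GDat} {q : Iq} {f : Fx} {s2 : ℕ → ℚ} {g : MDat} {gr : ℕ → MGr}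
  {Hp Hm GR HR : List (List ℚ)} {nb la : List ℚ} {Uo : ℚ}

/-- **the second type in the form of the assembly** -/
theorem t2_fctB (hp : p.Ok) (hg : gd.Pos p.d) (hwz : Wz p.z) (hc : Ckp p g.y g.B)
    (hS : DnS p Uo nb la) {l : List T3q}
    (hl : ∀ w ∈ l, T3K p gd q f g Hp Hm GR HR nb la Uo w)
    (hk1 : p.d.k1 = 0) (hsh : ∀ y ∈ Icc (0 : ℝ) 1, 1 - y ≤ pv p.d.shT y)
    (hkt : ∀ t ∈ Icc (0 : ℝ) bt, 0 ≤ pv p.d.ktl t)
    {x : Gg.edgeSet → ℝ} (hx : IsFractionalMatching Gg x) {N : ℕ} (N0 : 0 < N)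
    (hs2 : ∀ i < N, 0 ≤ s2 i)
    {G : ℕ → V ⊕ V → V ⊕ V → Fm (V ⊕ V)} {H : ℕ → V ⊕ V → Fm (V ⊕ V)}
    (hF : Fct p (xe x) (P0 V) g gr Hp Hm N G H) (hR : Fcr p (xe x) (P0 V) GR HR N G H)
    (hcv : ∀ w ∈ l, w.cv p.z.mb N) (hgr : ∀ w ∈ l, w.grp gr s2) (hch : T3q.chain l 0 N = true)
    (a : V ⊕ V) (ha : P0 V a) (t : ℝ) (ht : t ∈ Icc (0 : ℝ) bt) :
    ∑ b, xr (xe x) (P0 V) a b * ∑ d ∈ ({a, b} : Finset (V ⊕ V))ᶜ,
        wS (p.da (gd.kd p.d) (p.cO (xe x) (P0 V) N G)).k.fh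
          (p.da (gd.kd p.d) (p.cO (xe x) (P0 V) N G)).k.mb
          ((p.da (gd.kd p.d) (p.cO (xe x) (P0 V) N G)).E x) (xe x) (P0 V) b a d t
      ≤ s2 (ci N t) * pv p.d.ktl t * (∑ b, (p.da (gd.kd p.d) (p.cO (xe x) (P0 V) N G)).T.sT
          (xr (xe x) (P0 V) a b)
        - (p.da (gd.kd p.d) (p.cO (xe x) (P0 V) N G)).T.k1 * Qs (xe x) (P0 V) a) := by
  have hw := wt_xe hx zero_le_one le_rfl fun e => (hx.1 e).2
  have hN : (0 : ℝ) < N := by exact_mod_cast N0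
  refine t2_h2 (q := q) (f := f) (l := l.map T3q.z) hp hg hwz (fun z hz => ?_) hk1 hsh hkt hx N0 hs2
    (m' := fun i _ _ => ((gr i).m : ℝ)) (q' := fun i _ _ => ((gr i).q : ℝ)) hF.cl
    (fun i hi => ?_) a ha t ht
  · obtain ⟨w, hw', rfl⟩ := List.mem_map.1 hz
    exact (hl w hw').c
  · obtain ⟨w, hwl, h0, h1⟩ := T3q.chain_mem hch (Nat.zero_le i) hi
    obtain ⟨v0, v1, v2, v3, v4, v5⟩ := hcv w hwl
    obtain ⟨g1, g2, g3, g4, g5⟩ := hgr w hwl i h0 h1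
    have hK := hl w hwl
    have hbt : (0 : ℚ) ≤ btq := by norm_num [btq]
    have N0' : (0 : ℚ) < N := by exact_mod_cast N0
    have i01 : ((w.i0 : ℚ)) ≤ i := by exact_mod_cast h0
    have i11 : ((i : ℚ) + 1) ≤ w.i1 := by exact_mod_cast h1
    have c1 : (0 : ℚ) < w.z.c.t1 := lt_of_le_of_lt hK.c.ok.s.t0 hK.c.ok.s.t01
    have hcov : w.z.cov N i := by
      refine ⟨v0.trans ?_, le_trans ?_ v1⟩
      · exact mul_le_mul_of_nonneg_left (div_le_div_of_nonneg_right i01 N0'.le) hbt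
      · exact mul_le_mul_of_nonneg_left (div_le_div_of_nonneg_right i11 N0'.le) hbt
    have hca : (((btq * (((w.i0 : ℚ) + 1) / N) : ℚ)) : ℝ) ≤ cb N i := by
      push_cast
      show bt * (((w.i0 : ℝ) + 1) / N) ≤ bt * (((i : ℝ) + 1) / N)
      have : ((w.i0 : ℝ)) ≤ i := by exact_mod_cast h0
      exact mul_le_mul_of_nonneg_left (div_le_div_of_nonneg_right (by linarith) hN.le) bt_nn
    have hca0 : (((btq * ((w.i0 : ℚ) / N) : ℚ)) : ℝ) ≤ ca N i := by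
      push_cast
      show bt * ((w.i0 : ℝ) / N) ≤ bt * ((i : ℝ) / N)
      have : ((w.i0 : ℝ)) ≤ i := by exact_mod_cast h0
      exact mul_le_mul_of_nonneg_left (div_le_div_of_nonneg_right (by linarith) hN.le) bt_nn
    have hcb : cb N i ≤ ((btq * ((w.i1 : ℚ) / N) : ℚ) : ℝ) := by
      push_cast
      exact cb_bt N0 h1
    have hi1 : ((btq * ((w.i1 : ℚ) / N) : ℚ) : ℝ) ≤ bt := by
      push_cast
      show bt * ((w.i1 : ℝ) / N) ≤ bt
      have : ((w.i1 : ℝ) / N) ≤ 1 := by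
        rw [div_le_one hN]; exact_mod_cast v4
      have := mul_le_mul_of_nonneg_left this bt_nn
      linarith
    have hU : p.Cc (cb N i) ∈ Icc (w.d.u0 : ℝ) w.d.u1 := by
      constructor
      · have a1 : (w.d.u0 : ℝ) ≤ ((ev (pri p.z.mb) (btq * (((w.i0 : ℚ) + 1) / N)) : ℚ) : ℝ) :=
          Rat.cast_le.2 v2
        rw [← pv_ev] at a1
        refine a1.trans (Ps.Cc_mono hp ?_ hca (cb_le_bt hi))
        have : (0 : ℚ) ≤ btq * (((w.i0 : ℚ) + 1) / N) := by positivity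
        exact_mod_cast this
      · have a1 : ((ev (pri p.z.mb) (btq * ((w.i1 : ℚ) / N)) : ℚ) : ℝ) ≤ (w.d.u1 : ℝ) :=
          Rat.cast_le.2 v3
        rw [← pv_ev] at a1
        exact (Ps.Cc_mono hp (cb_nonneg' N i) hcb hi1).trans a1
    have hCa : (w.d.c.Ca : ℝ) ≤ p.Cc (ca N i) := by
      have a1 : (w.d.c.Ca : ℝ) ≤ ((ev (pri p.z.mb) (btq * ((w.i0 : ℚ) / N)) : ℚ) : ℝ) :=
        Rat.cast_le.2 v5
      rw [← pv_ev] at a1
      refine a1.trans (Ps.Cc_mono hp ?_ hca0 ((ca_le_cb N i).trans (cb_le_bt hi)))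
      have : (0 : ℚ) ≤ btq * ((w.i0 : ℚ) / N) := by positivity
      exact_mod_cast this
    have hcb' : cb N i ≤ w.z.c.t1 := hcb.trans (by exact_mod_cast v1)
    refine ⟨w.z, List.mem_map_of_mem (f := T3q.z) hwl, hcov, g5, fun a ha => ?_⟩
    exact rws_ofB hF hR hp hw hc hS hi ha hK.k hK.l c1 hU hcb' hCa g1 g2 g3 g4

end

/-- the certificates of the second type -/
structure CT2B (p : Ps) (gd : GDat) (g : MDat) (Hp Hm GR HR : List (List ℚ)) (nb la : List ℚ)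
    (Uo : ℚ) (gr : ℕ → MGr) (N : ℕ) (s2 : ℕ → ℚ) : Prop where
  wz : Wz p.z
  s0 : ∀ i < N, 0 ≤ s2 i
  hl : ∃ (q : Iq) (f : Fx) (l : List T3q),
    (∀ w ∈ l, T3K p gd q f g Hp Hm GR HR nb la Uo w) ∧
    (∀ w ∈ l, w.cv p.z.mb N) ∧ (∀ w ∈ l, w.grp gr s2) ∧ T3q.chain l 0 N = true

/-- **the second type from the certificates** -/
theorem CT2B.t2 {V : Type} [Fintype V] [DecidableEq V] {Gg : SimpleGraph V} [Fintype Gg.edgeSet]
    [DecidableEq Gg.edgeSet] {p : Ps} {gd : GDat} {s2 : ℕ → ℚ} {g : MDat} {gr : ℕ → MGr}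
    {Hp Hm GR HR : List (List ℚ)} {nb la : List ℚ} {Uo : ℚ} {N : ℕ}
    (h : CT2B p gd g Hp Hm GR HR nb la Uo gr N s2)
    (hp : p.Ok) (hg : gd.Pos p.d) (hc : Ckp p g.y g.B) (hS : DnS p Uo nb la)
    (hk1 : p.d.k1 = 0) (hsh : ∀ y ∈ Icc (0 : ℝ) 1, 1 - y ≤ pv p.d.shT y)
    (hkt : ∀ t ∈ Icc (0 : ℝ) bt, 0 ≤ pv p.d.ktl t)
    {x : Gg.edgeSet → ℝ} (hx : IsFractionalMatching Gg x) (N0 : 0 < N)
    {G : ℕ → V ⊕ V → V ⊕ V → Fm (V ⊕ V)} {H : ℕ → V ⊕ V → Fm (V ⊕ V)}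
    (hF : Fct p (xe x) (P0 V) g gr Hp Hm N G H) (hR : Fcr p (xe x) (P0 V) GR HR N G H)
    (a : V ⊕ V) (ha : P0 V a) (t : ℝ) (ht : t ∈ Icc (0 : ℝ) bt) :
    ∑ b, xr (xe x) (P0 V) a b * ∑ d ∈ ({a, b} : Finset (V ⊕ V))ᶜ,
        wS (p.da (gd.kd p.d) (p.cO (xe x) (P0 V) N G)).k.fh
          (p.da (gd.kd p.d) (p.cO (xe x) (P0 V) N G)).k.mb
          ((p.da (gd.kd p.d) (p.cO (xe x) (P0 V) N G)).E x) (xe x) (P0 V) b a d t
      ≤ s2 (ci N t) * pv p.d.ktl t * (∑ b, (p.da (gd.kd p.d) (p.cO (xe x) (P0 V) N G)).T.sT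
          (xr (xe x) (P0 V) a b)
        - (p.da (gd.kd p.d) (p.cO (xe x) (P0 V) N G)).T.k1 * Qs (xe x) (P0 V) a) := by
  obtain ⟨q, f, l, h1, h2, h3, h4⟩ := h.hl
  exact t2_fctB hp hg h.wz hc hS h1 hk1 hsh hkt hx N0 h.s0 hF hR h2 h3 h4 a ha t ht

end Pool.Agent.RX.RCN.K
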