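import Pool.Agent.RX.RCM9.PVal
import Pool.Agent.RX.RCRSHalf.Ode

/-! The first part of the inequality of the centres: the rows of the other parts of the exponents
from the lists (MP_73ccd0_lc, route M). -/

namespace Pool.Agent.RX.RCN.K

open Set Finset MeasureTheory Pool.Agent.RX.RCRSHalf

open Pool.Agent.RX.RCM9 Pool.Agent.RX.RCM9.Bern

set_option linter.unusedSectionVars false

/-! ### monotone lists -/

theorem pv_mono_of {p : List ℚ} {U : ℝ} (h : ∀ u ∈ Icc 0 U, 0 ≤ pv (pd p) u) {u v : ℝ}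
    (hu : 0 ≤ u) (huv : u ≤ v) (hv : v ≤ U) : pv p u ≤ pv p v := by
  have key := nonneg_of_forward (a := u) (s := v)
    (U := fun z => pv p z - pv p u) (U' := fun z => pv (pd p) z - 0)
    (fun z _ => (hasDerivAt_pv p z).sub (hasDerivAt_const _ _)) (by simp)
    (fun z hz _ => by
      have := h z ⟨hu.trans hz.1, hz.2.trans hv⟩
      linarith)
    v ⟨huv, le_rfl⟩
  linarith

theorem pri_mono_of {p : List ℚ} {U : ℝ} (h : ∀ u ∈ Icc 0 U, 0 ≤ pv p u) {u v : ℝ}
    (hu : 0 ≤ u) (huv : u ≤ v) (hv : v ≤ U) : pv (pri p) u ≤ pv (pri p) v :=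
  pv_mono_of (p := pri p) (by rw [pd_pri]; exact h) hu huv hv

theorem one_add_le {γ k k0 : ℝ} (γ0 : 0 ≤ γ) (k00 : 0 ≤ k0) :
    1 + γ * k ≤ (1 + γ * k0) * (Real.exp (k * (γ / (1 + γ * k0)))
      * Real.exp (-(γ * k0 / (1 + γ * k0)))) := by
  have h1 : 0 < 1 + γ * k0 := by positivity
  have h2 := Real.add_one_le_exp (γ * (k - k0) / (1 + γ * k0))
  have h3 := mul_le_mul_of_nonneg_left h2 h1.le
  have e1 : (1 + γ * k0) * (γ * (k - k0) / (1 + γ * k0) + 1) = 1 + γ * k := by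
    field_simp
    ring
  have e2 : Real.exp (k * (γ / (1 + γ * k0))) * Real.exp (-(γ * k0 / (1 + γ * k0)))
      = Real.exp (γ * (k - k0) / (1 + γ * k0)) := by
    rw [← Real.exp_add]
    congr 1
    ring
  rw [e1] at h3
  rw [e2]
  exact h3

end Pool.Agent.RX.RCN.K
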