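import Pool.Agent.RX.RCN.MGr

/-! The first part of the inequality of the centres for all times (MP_73ccd0_lc, route M). -/

namespace Pool.Agent.RX.RCN.K

open Set Finset MeasureTheory Pool.Agent.RX.RCRSHalf Pool.Agent.RX.RCG Pool.Agent.RX.RCG.Ct
open Pool.Agent.RX.RCN.Ker Pool.Agent.RX.RCRS Pool.Agent.RX.RCM9 Pool.Agent.RX.RCM9.Bern Pool.Agent.RX.RCM9.Pk
set_option linter.unusedSectionVars false

/-- the clock is at least the time -/
theorem Ps.Cc_pos {p : Ps} (hp : p.Ok) {t : ℝ} (h0 : 0 < t) (h1 : t ≤ bt) : 0 < p.Cc t := by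
  have key := nonneg_of_forward (a := 0) (s := t)
    (U := fun z => p.Cc z - z) (U' := fun z => pv p.z.mb z - 1)
    (fun z _ => (p.hasDerivAt_Cc z).sub (hasDerivAt_id z))
    (by
      have : p.Cc 0 = 0 := pri_zero _
      simp [this])
    (fun z hz _ => by
      have := hp.z.mb_one (t := z) ⟨hz.1, hz.2.trans h1⟩
      linarith)
    t ⟨h0.le, le_rfl⟩
  linarith

section wx

variable {V : Type*} [Fintype V] [DecidableEq V] {p : Ps} {x : V → V → ℝ} {P : V → Prop} [DecidablePred P] {a b : V} {τ : ℝ} {g : MDat} {bB : ℚ} {G : Fm V} {U : ℝ} {B : ℝ → ℝ}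

end wx

variable {V : Type} [Fintype V] [DecidableEq V]
variable {Gr : SimpleGraph V} [Fintype Gr.edgeSet] [DecidableEq Gr.edgeSet]
variable {p : Ps} {x : Gr.edgeSet → ℝ}

end Pool.Agent.RX.RCN.K
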