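import Pool.Agent.RX.RCN.CkD

/-! The first part of the inequality of the centres: the numbers of the two-time rows from the
lists (MP_73ccd0_lc, route M). -/

namespace Pool.Agent.RX.RCN.K

open Set Finset MeasureTheory

open Pool.Agent.RX.RCM9 Pool.Agent.RX.RCM9.Bern

open Pool.Agent.RX.RCN.Ck1

set_option linter.unusedSectionVars false

namespace Rl

variable (l : Rl)

/-- the functions of a cell -/
noncomputable def d1 (U u : ℝ) : ℝ := pv (pri l.D1) U - pv (pri l.D1) u

noncomputable def d2 (U u : ℝ) : ℝ := pv (pri l.D2) U - pv (pri l.D2) u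

noncomputable def gV (U u : ℝ) : ℝ := pv (pri l.hV) U - pv (pri l.hV) u

noncomputable def gW (U u : ℝ) : ℝ := l.dlt + (pv (pri l.hW) U - pv (pri l.hW) u)

noncomputable def g1 (U u : ℝ) : ℝ := pv (pri l.h1) U - pv (pri l.h1) u

noncomputable def Eg (U k : ℝ) : ℝ := (1 + 3 / 5 * k) * Real.exp (pv l.z U + k * pv l.dl U)

noncomputable def A3 (U u : ℝ) : ℝ :=
  l.gV U u * pv l.Gm u + (1 + l.gW U u) * pv l.Gp u + pv l.VT u

end Rl

end Pool.Agent.RX.RCN.K
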