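import Pool.Agent.RX.RCN.T1A

/-! Rows and entries of the kernels of the closures at a fixed time (MP_73ccd0_lc, route M). -/

namespace Pool.Agent.RX.RCN.K

open Set Finset MeasureTheory Pool.Agent.RX.RCRSHalf Pool.Agent.RX.RCG Pool.Agent.RX.RCG.Ct
open Pool.Agent.RX.RCN.Ker

set_option linter.unusedSectionVars false

/-! ### scalar inequalities -/

/-- `e^{kδ} (1 - x - k) ≤ 1 - x` -/
theorem es_one {k x δ : ℝ} (k0 : 0 ≤ k) (x0 : 0 ≤ x) (h : k + x ≤ 1) (d1 : δ ≤ 1) :
    Real.exp (k * δ) * (1 - k - x) ≤ 1 - x := by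
  have h1 : Real.exp (k * δ) ≤ Real.exp k :=
    Real.exp_le_exp.2 (mul_le_of_le_one_right k0 d1)
  have h2 : 1 - k ≤ Real.exp (-k) := by
    have := Real.add_one_le_exp (-k)
    linarith
  have h3 : 0 ≤ 1 - k - x := by linarith
  have h4 : 1 - k - x ≤ (1 - x) * Real.exp (-k) := by
    refine le_trans ?_ (mul_le_mul_of_nonneg_left h2 (show 0 ≤ 1 - x by linarith))
    nlinarith [mul_nonneg k0 x0]
  calc Real.exp (k * δ) * (1 - k - x) ≤ Real.exp k * (1 - k - x) :=
        mul_le_mul_of_nonneg_right h1 h3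
    _ ≤ Real.exp k * ((1 - x) * Real.exp (-k)) :=
        mul_le_mul_of_nonneg_left h4 (Real.exp_pos _).le
    _ = (1 - x) * (Real.exp k * Real.exp (-k)) := by ring
    _ = 1 - x := by rw [← Real.exp_add]; simp

/-- `x y e^{kδ} ≤ (x + y)/4` -/
theorem es_two {k x y δ : ℝ} (k0 : 0 ≤ k) (x0 : 0 ≤ x) (y0 : 0 ≤ y) (h : k + x + y ≤ 1)
    (d1 : δ ≤ 1) : x * y * Real.exp (k * δ) ≤ (x + y) / 4 := by
  have h1 : Real.exp (k * δ) ≤ Real.exp (1 - x - y) := by
    refine Real.exp_le_exp.2 ((mul_le_of_le_one_right k0 d1).trans (by linarith))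
  have h2 : (x + y) * Real.exp (1 - x - y) ≤ 1 := by
    have h3 : x + y ≤ Real.exp (-(1 - x - y)) := by
      have := Real.add_one_le_exp (-(1 - x - y))
      linarith
    calc (x + y) * Real.exp (1 - x - y)
        ≤ Real.exp (-(1 - x - y)) * Real.exp (1 - x - y) :=
          mul_le_mul_of_nonneg_right h3 (Real.exp_pos _).le
      _ = 1 := by rw [← Real.exp_add]; simp
  have h4 : x * y ≤ (x + y) * (x + y) / 4 := by nlinarith [sq_nonneg (x - y)]
  calc x * y * Real.exp (k * δ) ≤ x * y * Real.exp (1 - x - y) :=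
        mul_le_mul_of_nonneg_left h1 (mul_nonneg x0 y0)
    _ ≤ (x + y) * (x + y) / 4 * Real.exp (1 - x - y) :=
        mul_le_mul_of_nonneg_right h4 (Real.exp_pos _).le
    _ = (x + y) / 4 * ((x + y) * Real.exp (1 - x - y)) := by ring
    _ ≤ (x + y) / 4 * 1 := mul_le_mul_of_nonneg_left h2 (by linarith)
    _ = _ := mul_one _

variable {V : Type*} [Fintype V] [DecidableEq V] {x : V → V → ℝ} {P : V → Prop}
  [DecidablePred P] {a b : V}

theorem row_three (hx : Wt x P 1) (f : V) {a b d : V} (hab : a ≠ b) (had : a ≠ d) (hbd : b ≠ d) :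
    ∑ c ∈ ({a, b, d} : Finset V)ᶜ, x f c ≤ 1 - x f a - x f b - x f d := by
  have h1 := Finset.sum_add_sum_compl ({a, b, d} : Finset V) (fun c => x f c)
  have h2 : ∑ c ∈ ({a, b, d} : Finset V), x f c = x f a + (x f b + x f d) := by
    rw [Finset.sum_insert (by simp [hab, had]), Finset.sum_pair hbd]
  have h3 := hx.row f
  rw [h2] at h1
  linarith

theorem row_twoD (hx : Wt x P 1) (f : V) {a b : V} (hab : a ≠ b) :
    ∑ c ∈ ({a, b} : Finset V)ᶜ, x f c ≤ 1 - x f a - x f b := by
  have h1 := Finset.sum_add_sum_compl ({a, b} : Finset V) (fun c => x f c)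
  rw [Finset.sum_pair hab] at h1
  have h3 := hx.row f
  linarith

theorem three_mem (hx : Wt x P 1) (f : V) {a b d : V} (hab : a ≠ b) (had : a ≠ d)
    (hbd : b ≠ d) : x a f + x b f + x d f ≤ 1 := by
  have := row_three hx f hab had hbd
  have h0 : 0 ≤ ∑ c ∈ ({a, b, d} : Finset V)ᶜ, x f c :=
    Finset.sum_nonneg fun c _ => hx.nonneg f c
  rw [hx.symm a f, hx.symm b f, hx.symm d f]
  linarith

/-- four distinct vertices -/
theorem four_mem (hx : Wt x P 1) (f : V) {a b c d : V} (hab : a ≠ b) (hac : a ≠ c) (had : a ≠ d)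
    (hbc : b ≠ c) (hbd : b ≠ d) (hcd : c ≠ d) : x a f + x b f + x c f + x d f ≤ 1 := by
  have h1 := Finset.sum_add_sum_compl ({a, b, c, d} : Finset V) (fun c => x f c)
  have h2 : ∑ c ∈ ({a, b, c, d} : Finset V), x f c = x f a + (x f b + (x f c + x f d)) := by
    rw [Finset.sum_insert (by simp [hab, hac, had]), Finset.sum_insert (by simp [hbc, hbd]),
      Finset.sum_pair hcd]
  have h3 := hx.row f
  have h0 : 0 ≤ ∑ c ∈ ({a, b, c, d} : Finset V)ᶜ, x f c :=
    Finset.sum_nonneg fun c _ => hx.nonneg f c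
  rw [h2] at h1
  rw [hx.symm a f, hx.symm b f, hx.symm c f, hx.symm d f]
  linarith

/-- the kernel of the world of `a`, `b` at a fixed time -/
structure Kpt (x : V → V → ℝ) (a b : V) (h : V → V → ℝ) (y : V → ℝ) (mb rh Y δ : ℝ) :
    Prop where
  h0 : ∀ e f, 0 ≤ h e f
  hd : ∀ e, h e e = 0
  hs : ∀ e f, h e f = h f e
  hm : ∀ e f, h e f ≤ mb * x e f
  hr : ∀ e f, h e f * (1 - x e f) ≤ rh * x e f
  yl : ∀ e ∈ ({a, b} : Finset V)ᶜ, y e ≤ Y + (x a e + x b e) * δ
  d0 : 0 ≤ δ
  d1 : δ ≤ 1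
  m0 : 0 ≤ mb
  r0 : 0 ≤ rh

variable {h : V → V → ℝ} {y : V → ℝ} {mb rh Y δ : ℝ}

theorem Kpt.ey (hk : Kpt x a b h y mb rh Y δ) {e : V} (he : e ∈ ({a, b} : Finset V)ᶜ) :
    Real.exp (y e) ≤ Real.exp Y * Real.exp ((x a e + x b e) * δ) := by
  rw [← Real.exp_add]
  exact Real.exp_le_exp.2 (hk.yl e he)

/-- the row of the first kernel -/
theorem Kpt.rowA (hk : Kpt x a b h y mb rh Y δ) (hx : Wt x P 1) (hab : a ≠ b) {d : V}
    (hd : d ∈ ({a, b} : Finset V)ᶜ) :
    ∑ c ∈ ({a, b, d} : Finset V)ᶜ, ∑ f ∈ ({a, b} : Finset V)ᶜ.erase c,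
        h d f * Real.exp (y d + y f) * x c f
      ≤ (1 - (x a d + x b d)) * (Real.exp Y * (Real.exp Y
        * Real.exp ((x a d + x b d) * δ)) * rh) := by
  have hd' := hd
  rw [mem2] at hd'
  have n0 := hx.nonneg
  have t0 : ∀ c f, 0 ≤ h d f * Real.exp (y d + y f) * x c f := fun c f =>
    mul_nonneg (mul_nonneg (hk.h0 d f) (Real.exp_pos _).le) (n0 c f)
  have h1 : ∑ c ∈ ({a, b, d} : Finset V)ᶜ, ∑ f ∈ ({a, b} : Finset V)ᶜ.erase c,
        h d f * Real.exp (y d + y f) * x c f
      ≤ ∑ f ∈ ({a, b} : Finset V)ᶜ, h d f * Real.exp (y d + y f)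
        * ∑ c ∈ ({a, b, d} : Finset V)ᶜ, x f c := by
    calc _ ≤ ∑ c ∈ ({a, b, d} : Finset V)ᶜ, ∑ f ∈ ({a, b} : Finset V)ᶜ,
          h d f * Real.exp (y d + y f) * x c f :=
          Finset.sum_le_sum fun c _ => Finset.sum_le_sum_of_subset_of_nonneg
            (Finset.erase_subset _ _) fun f _ _ => t0 c f
      _ = _ := by
          rw [Finset.sum_comm]
          refine Finset.sum_congr rfl fun f _ => ?_
          rw [Finset.mul_sum]
          exact Finset.sum_congr rfl fun c _ => by rw [hx.symm c f]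
  have h2 : ∀ f ∈ ({a, b} : Finset V)ᶜ, h d f * Real.exp (y d + y f)
        * ∑ c ∈ ({a, b, d} : Finset V)ᶜ, x f c
      ≤ (Real.exp Y * (Real.exp Y * Real.exp ((x a d + x b d) * δ)) * rh) * x d f := by
    intro f hf
    have hf' := hf
    rw [mem2] at hf'
    by_cases hfd : f = d
    · rw [hfd, hk.hd d, zero_mul, zero_mul, hx.diag d, mul_zero]
    · have r3 := row_three hx f hab (Ne.symm hd'.1) (Ne.symm hd'.2)
      have m3 := three_mem hx f hab (Ne.symm hd'.1) (Ne.symm hd'.2)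
      rw [hx.symm f a, hx.symm f b, hx.symm f d] at r3
      have e1 := hk.ey hd
      have e2 := hk.ey hf
      have s1 := es_one (k := x a f + x b f) (x := x d f) (δ := δ) (add_nonneg (n0 a f) (n0 b f))
        (n0 d f) m3 hk.d1
      have hh := hk.h0 d f
      rw [Real.exp_add]
      have k1 : Real.exp (y f) * ∑ c ∈ ({a, b, d} : Finset V)ᶜ, x f c
          ≤ Real.exp Y * (1 - x d f) := by
        calc _ ≤ Real.exp Y * Real.exp ((x a f + x b f) * δ)
              * (1 - (x a f + x b f) - x d f) :=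
              mul_le_mul e2 (by linarith) (Finset.sum_nonneg fun c _ => n0 f c)
                (mul_nonneg (Real.exp_pos _).le (Real.exp_pos _).le)
          _ = Real.exp Y * (Real.exp ((x a f + x b f) * δ)
              * (1 - (x a f + x b f) - x d f)) := by ring
          _ ≤ _ := mul_le_mul_of_nonneg_left s1 (Real.exp_pos _).le
      have q0 : 0 ≤ Real.exp (y f) * ∑ c ∈ ({a, b, d} : Finset V)ᶜ, x f c :=
        mul_nonneg (Real.exp_pos _).le (Finset.sum_nonneg fun c _ => n0 f c)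
      calc h d f * (Real.exp (y d) * Real.exp (y f)) * ∑ c ∈ ({a, b, d} : Finset V)ᶜ, x f c
          = h d f * (Real.exp (y d)
            * (Real.exp (y f) * ∑ c ∈ ({a, b, d} : Finset V)ᶜ, x f c)) := by ring
        _ ≤ h d f * ((Real.exp Y * Real.exp ((x a d + x b d) * δ))
            * (Real.exp Y * (1 - x d f))) :=
          mul_le_mul_of_nonneg_left (mul_le_mul e1 k1 q0
            (mul_nonneg (Real.exp_pos _).le (Real.exp_pos _).le)) hh
        _ = (Real.exp Y * (Real.exp Y * Real.exp ((x a d + x b d) * δ)))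
            * (h d f * (1 - x d f)) := by ring
        _ ≤ (Real.exp Y * (Real.exp Y * Real.exp ((x a d + x b d) * δ))) * (rh * x d f) :=
          mul_le_mul_of_nonneg_left (hk.hr d f) (mul_nonneg (Real.exp_pos _).le
            (mul_nonneg (Real.exp_pos _).le (Real.exp_pos _).le))
        _ = _ := by ring
  refine h1.trans ((Finset.sum_le_sum h2).trans ?_)
  rw [← Finset.mul_sum]
  have r2 := row_twoD hx d hab
  rw [hx.symm d a, hx.symm d b] at r2
  refine (mul_le_mul_of_nonneg_left r2 (mul_nonneg (mul_nonneg (Real.exp_pos _).le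
    (mul_nonneg (Real.exp_pos _).le (Real.exp_pos _).le)) hk.r0)).trans (le_of_eq ?_)
  ring

/-- the row of the second kernel -/
theorem Kpt.rowB (hk : Kpt x a b h y mb rh Y δ) (hx : Wt x P 1) (hab : a ≠ b) {d : V}
    (hd : d ∈ ({a, b} : Finset V)ᶜ) :
    ∑ c ∈ ({a, b, d} : Finset V)ᶜ, ∑ f ∈ ({a, b} : Finset V)ᶜ.erase d,
        h c f * Real.exp (y c + y f) * x d f
      ≤ (1 - (x a d + x b d)) * (Real.exp Y * (Real.exp Y * Real.exp δ) * mb) := by
  have hd' := hd
  rw [mem2] at hd'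
  have n0 := hx.nonneg
  have h1 : ∑ c ∈ ({a, b, d} : Finset V)ᶜ, ∑ f ∈ ({a, b} : Finset V)ᶜ.erase d,
        h c f * Real.exp (y c + y f) * x d f
      = ∑ f ∈ ({a, b} : Finset V)ᶜ.erase d, x d f
        * ∑ c ∈ ({a, b, d} : Finset V)ᶜ, h c f * Real.exp (y c + y f) := by
    rw [Finset.sum_comm]
    refine Finset.sum_congr rfl fun f _ => ?_
    rw [Finset.mul_sum]
    exact Finset.sum_congr rfl fun c _ => by ring
  have h2 : ∀ f ∈ ({a, b} : Finset V)ᶜ.erase d, x d f
        * ∑ c ∈ ({a, b, d} : Finset V)ᶜ, h c f * Real.exp (y c + y f)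
      ≤ (Real.exp Y * (Real.exp Y * Real.exp δ) * mb) * x d f := by
    intro f hf
    rw [Finset.mem_erase] at hf
    have r3 := row_three hx f hab (Ne.symm hd'.1) (Ne.symm hd'.2)
    have m3 := three_mem hx f hab (Ne.symm hd'.1) (Ne.symm hd'.2)
    rw [hx.symm f a, hx.symm f b, hx.symm f d] at r3
    have e2 := hk.ey hf.2
    have s1 := es_one (k := x a f + x b f) (x := x d f) (δ := δ) (add_nonneg (n0 a f) (n0 b f))
      (n0 d f) m3 hk.d1
    have c1 : ∀ c ∈ ({a, b, d} : Finset V)ᶜ, h c f * Real.exp (y c + y f)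
        ≤ (mb * (Real.exp Y * Real.exp δ) * Real.exp (y f)) * x f c := by
      intro c hc
      rw [mem3] at hc
      have hc2 : c ∈ ({a, b} : Finset V)ᶜ := mem2.2 ⟨hc.1, hc.2.1⟩
      have e1 := hk.ey hc2
      have kc : x a c + x b c ≤ 1 := by
        have := two_mem hx c hab
        rw [hx.symm a c, hx.symm b c]
        exact this.2
      have e3 : Real.exp (y c) ≤ Real.exp Y * Real.exp δ := by
        refine e1.trans (mul_le_mul_of_nonneg_left (Real.exp_le_exp.2 ?_) (Real.exp_pos _).le)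
        have := mul_le_mul_of_nonneg_right kc hk.d0
        linarith
      have hm := hk.hm c f
      rw [Real.exp_add]
      calc h c f * (Real.exp (y c) * Real.exp (y f))
          ≤ (mb * x c f) * ((Real.exp Y * Real.exp δ) * Real.exp (y f)) :=
            mul_le_mul hm (mul_le_mul_of_nonneg_right e3 (Real.exp_pos _).le)
              (mul_nonneg (Real.exp_pos _).le (Real.exp_pos _).le)
              (mul_nonneg hk.m0 (n0 c f))
        _ = _ := by rw [hx.symm c f]; ring
    have k1 : Real.exp (y f) * ∑ c ∈ ({a, b, d} : Finset V)ᶜ, x f c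
        ≤ Real.exp Y * 1 := by
      calc _ ≤ Real.exp Y * Real.exp ((x a f + x b f) * δ)
            * (1 - (x a f + x b f) - x d f) :=
            mul_le_mul e2 (by linarith) (Finset.sum_nonneg fun c _ => n0 f c)
              (mul_nonneg (Real.exp_pos _).le (Real.exp_pos _).le)
        _ = Real.exp Y * (Real.exp ((x a f + x b f) * δ)
            * (1 - (x a f + x b f) - x d f)) := by ring
        _ ≤ _ := mul_le_mul_of_nonneg_left (s1.trans (by linarith [n0 d f]))
            (Real.exp_pos _).le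
    have k2 : ∑ c ∈ ({a, b, d} : Finset V)ᶜ, h c f * Real.exp (y c + y f)
        ≤ Real.exp Y * (Real.exp Y * Real.exp δ) * mb := by
      refine (Finset.sum_le_sum c1).trans ?_
      rw [← Finset.mul_sum]
      calc _ = mb * (Real.exp Y * Real.exp δ)
            * (Real.exp (y f) * ∑ c ∈ ({a, b, d} : Finset V)ᶜ, x f c) := by ring
        _ ≤ mb * (Real.exp Y * Real.exp δ) * (Real.exp Y * 1) :=
            mul_le_mul_of_nonneg_left k1 (mul_nonneg hk.m0
              (mul_nonneg (Real.exp_pos _).le (Real.exp_pos _).le))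
        _ = _ := by ring
    rw [mul_comm (Real.exp Y * (Real.exp Y * Real.exp δ) * mb)]
    exact mul_le_mul_of_nonneg_left k2 (n0 d f)
  rw [h1]
  refine (Finset.sum_le_sum h2).trans ?_
  rw [← Finset.mul_sum]
  have r2 := row_twoD hx d hab
  rw [hx.symm d a, hx.symm d b] at r2
  have r4 : ∑ f ∈ ({a, b} : Finset V)ᶜ.erase d, x d f ≤ 1 - (x a d + x b d) := by
    have := Finset.sum_le_sum_of_subset_of_nonneg (f := fun f => x d f)
      (Finset.erase_subset d (({a, b} : Finset V)ᶜ)) fun f _ _ => n0 d f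
    linarith
  refine (mul_le_mul_of_nonneg_left r4 (mul_nonneg (mul_nonneg (Real.exp_pos _).le
    (mul_nonneg (Real.exp_pos _).le (Real.exp_pos _).le)) hk.m0)).trans (le_of_eq ?_)
  ring

/-- the entries of the kernels -/
theorem Kpt.ent (hk : Kpt x a b h y mb rh Y δ) (hx : Wt x P 1) (hab : a ≠ b) {c d : V}
    (hc : c ∈ ({a, b} : Finset V)ᶜ) (hd : d ∈ ({a, b} : Finset V)ᶜ) (hcd : c ≠ d) :
    ∑ f ∈ ({a, b} : Finset V)ᶜ.erase c, h d f * Real.exp (y d + y f) * x c f
      ≤ (2 - (x a c + x b c) - (x a d + x b d)) / 4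
        * (Real.exp Y * (Real.exp Y * Real.exp ((x a d + x b d) * δ)) * mb) := by
  have hd' := hd
  have hc' := hc
  rw [mem2] at hd' hc'
  have n0 := hx.nonneg
  have c1 : ∀ f ∈ ({a, b} : Finset V)ᶜ.erase c, h d f * Real.exp (y d + y f) * x c f
      ≤ (Real.exp Y * (Real.exp Y * Real.exp ((x a d + x b d) * δ)) * mb)
        * ((x c f + x d f) / 4) := by
    intro f hf
    rw [Finset.mem_erase] at hf
    have q0 : 0 ≤ Real.exp Y * (Real.exp Y * Real.exp ((x a d + x b d) * δ)) * mb :=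
      mul_nonneg (mul_nonneg (Real.exp_pos _).le (mul_nonneg (Real.exp_pos _).le
        (Real.exp_pos _).le)) hk.m0
    by_cases hfd : f = d
    · rw [hfd, hk.hd d, zero_mul, zero_mul]
      exact mul_nonneg q0 (by linarith [n0 c d, n0 d d])
    · have m4 := four_mem hx f hab (Ne.symm hc'.1) (Ne.symm hd'.1) (Ne.symm hc'.2)
        (Ne.symm hd'.2) hcd
      have e1 := hk.ey hd
      have e2 := hk.ey hf.2
      have s1 := es_two (k := x a f + x b f) (x := x c f) (y := x d f) (δ := δ)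
        (add_nonneg (n0 a f) (n0 b f)) (n0 c f) (n0 d f) m4 hk.d1
      rw [Real.exp_add]
      calc h d f * (Real.exp (y d) * Real.exp (y f)) * x c f
          ≤ (mb * x d f) * ((Real.exp Y * Real.exp ((x a d + x b d) * δ))
            * (Real.exp Y * Real.exp ((x a f + x b f) * δ))) * x c f :=
          mul_le_mul_of_nonneg_right (mul_le_mul (hk.hm d f)
            (mul_le_mul e1 e2 (Real.exp_pos _).le
              (mul_nonneg (Real.exp_pos _).le (Real.exp_pos _).le))
            (mul_nonneg (Real.exp_pos _).le (Real.exp_pos _).le)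
            (mul_nonneg hk.m0 (n0 d f))) (n0 c f)
        _ = (Real.exp Y * (Real.exp Y * Real.exp ((x a d + x b d) * δ)) * mb)
            * (x c f * x d f * Real.exp ((x a f + x b f) * δ)) := by ring
        _ ≤ _ := mul_le_mul_of_nonneg_left s1 q0
  refine (Finset.sum_le_sum c1).trans ?_
  rw [← Finset.mul_sum, ← Finset.sum_div, Finset.sum_add_distrib]
  have r1 := row_twoD hx c hab
  have r2 := row_twoD hx d hab
  rw [hx.symm c a, hx.symm c b] at r1
  rw [hx.symm d a, hx.symm d b] at r2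
  have s1 := Finset.sum_le_sum_of_subset_of_nonneg (f := fun f => x c f)
      (Finset.erase_subset c (({a, b} : Finset V)ᶜ)) fun f _ _ => n0 c f
  have s2 := Finset.sum_le_sum_of_subset_of_nonneg (f := fun f => x d f)
      (Finset.erase_subset c (({a, b} : Finset V)ᶜ)) fun f _ _ => n0 d f
  rw [mul_comm ((2 - (x a c + x b c) - (x a d + x b d)) / 4)]
  refine mul_le_mul_of_nonneg_left ?_ (mul_nonneg (mul_nonneg (Real.exp_pos _).le (mul_nonneg
    (Real.exp_pos _).le (Real.exp_pos _).le)) hk.m0)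
  linarith

end Pool.Agent.RX.RCN.K
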