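import Pool.Agent.RX.RCM.NuA
import Pool.Agent.RX.RCN.Cst
import Pool.Agent.RX.RCN.T1C

/-! Rows and entries of the lower functions (MP_73ccd0_lc, route M). -/

namespace Pool.Agent.RX.RCN.K

open Set Finset MeasureTheory Pool.Agent.RX.RCRSHalf Pool.Agent.RX.RCG Pool.Agent.RX.RCG.Ct
open Pool.Agent.RX.RCN.Ker

set_option linter.unusedSectionVars false

variable {V : Type*} [Fintype V] [DecidableEq V] {x : V → V → ℝ} {P : V → Prop}
  [DecidablePred P] {a b : V} {Z : Hzd} {F : Lz V} {sl : ℝ → ℝ → ℝ} {B E1 : ℝ → ℝ → ℝ}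
  {t s : ℝ} {mb rh : ℝ → ℝ} {Y δ : ℝ}

/-- the lower function at zero -/
theorem N2_eq (D : Finset V) (t s : ℝ) {σ : ℝ} (hσ : 0 ≤ σ) (c e : V) :
    N2 Z F x P D t s σ c e 0
      = ∫ ρ in (0 : ℝ)..σ, ∑ f ∈ Dᶜ.erase c, K2 Z F x P t s ρ e f * Z.Dd x P σ c f ρ := by
  unfold N2 RCM.bk
  refine intervalIntegral.integral_congr fun z hz => ?_
  rw [uIcc_of_le hσ] at hz
  have : max 0 (min z σ) = z := by rw [min_eq_left hz.2, max_eq_right hz.1]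
  beta_reduce
  rw [this]

/-- the kernels of the world of `a`, `b` at the times `t`, `s` -/
structure Kin (Z : Hzd) (F : Lz V) (x : V → V → ℝ) (P : V → Prop) [DecidablePred P] (a b : V)
    (t s : ℝ) (mb rh : ℝ → ℝ) (Y δ : ℝ) : Prop where
  cy : ∀ e, ContinuousOn (F.y2 t s e) (Icc 0 t)
  kp : ∀ ρ ∈ Icc 0 t, Kpt x a b (Z.hh x P ρ) (fun e => F.y2 t s e ρ) (mb ρ) (rh ρ) Y δ

theorem Kin.cont (hK : Kin Z F x P a b t s mb rh Y δ) (hZ : Z.Ok sl) (hx : Wt x P 1)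
    (ht : t ∈ Icc (0 : ℝ) bt) {σ : ℝ} (hσ : σ ≤ t) (c e f : V) :
    ContinuousOn (fun ρ => K2 Z F x P t s ρ e f * Z.Dd x P σ c f ρ) (Icc 0 σ) :=
  ((Tb_cont hZ hx ht.2 hK.cy e f).mono (Icc_subset_Icc_right hσ)).mul
    ((hZ.Dd_cont hx σ c f).mono (Icc_subset_Icc_right (hσ.trans ht.2)))

/-- the bound of a double sum of the integrand -/
theorem Kin.int_le (hK : Kin Z F x P a b t s mb rh Y δ) (hC : Z.Cf B E1) (hZ : Z.Ok sl)
    (hx : Wt x P 1) (ht : t ∈ Icc (0 : ℝ) bt) {σ : ℝ} (hσ : σ ∈ Icc 0 t) {S : Finset V}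
    {T : V → Finset V} {c e : V → V} {q : ℝ → ℝ} {Q : ℝ}
    (cB : ContinuousOn (fun ρ => B σ ρ) (Icc 0 σ)) (cq : ContinuousOn q (Icc 0 σ))
    (hq : ∀ ρ ∈ Icc 0 σ, ∑ v ∈ S, ∑ f ∈ T v, K2 Z F x P t s ρ (e v) f * x (c v) f ≤ Q * q ρ)
    {I : ℝ} (Q0 : 0 ≤ Q) (hI : ∫ ρ in (0 : ℝ)..σ, B σ ρ * q ρ ≤ I) :
    ∑ v ∈ S, ∫ ρ in (0 : ℝ)..σ, ∑ f ∈ T v, K2 Z F x P t s ρ (e v) f * Z.Dd x P σ (c v) f ρ
      ≤ Q * I := by
  have m0 : (0 : ℝ) ∈ Icc 0 σ := ⟨le_rfl, hσ.1⟩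
  have mt : σ ∈ Icc 0 σ := ⟨hσ.1, le_rfl⟩
  have hσ1 : σ ∈ Icc (0 : ℝ) bt := ⟨hσ.1, hσ.2.trans ht.2⟩
  have cc : ∀ v, ContinuousOn (fun ρ => ∑ f ∈ T v, K2 Z F x P t s ρ (e v) f
      * Z.Dd x P σ (c v) f ρ) (Icc 0 σ) := fun v =>
    continuousOn_finsetSum _ fun f _ => hK.cont hZ hx ht hσ.2 (c v) (e v) f
  have h1 : ∑ v ∈ S, ∫ ρ in (0 : ℝ)..σ, ∑ f ∈ T v, K2 Z F x P t s ρ (e v) f
        * Z.Dd x P σ (c v) f ρ
      ≤ ∫ ρ in (0 : ℝ)..σ, Q * (B σ ρ * q ρ) := by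
    have := intervalIntegral.integral_finsetSum (μ := volume) (a := 0) (b := σ)
      (s := S) (f := fun v ρ => ∑ f ∈ T v, K2 Z F x P t s ρ (e v) f * Z.Dd x P σ (c v) f ρ)
      fun v _ => ii_of hσ.1 (cc v) m0 mt
    rw [← this]
    refine intervalIntegral.integral_mono_on hσ.1
      (ii_of hσ.1 (continuousOn_finsetSum _ fun v _ => cc v) m0 mt)
      (ii_of hσ.1 (continuousOn_const.mul (cB.mul cq)) m0 mt) fun ρ hρ => ?_
    have B0 := hC.B_nonneg hρ.1 hρ.2 hσ1.2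
    have hρt : ρ ∈ Icc (0 : ℝ) bt := ⟨hρ.1, hρ.2.trans hσ1.2⟩
    calc ∑ v ∈ S, ∑ f ∈ T v, K2 Z F x P t s ρ (e v) f * Z.Dd x P σ (c v) f ρ
        ≤ ∑ v ∈ S, ∑ f ∈ T v, B σ ρ * (K2 Z F x P t s ρ (e v) f * x (c v) f) := by
          refine Finset.sum_le_sum fun v _ => Finset.sum_le_sum fun f _ => ?_
          have := mul_le_mul_of_nonneg_left (hC.Dd_le hZ hx hσ1 (c v) f hρ)
            (K2_nonneg (F := F) hZ hx t s hρt (e v) f)
          refine this.trans (le_of_eq ?_)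
          ring
      _ = B σ ρ * ∑ v ∈ S, ∑ f ∈ T v, K2 Z F x P t s ρ (e v) f * x (c v) f := by
          simp only [Finset.mul_sum]
      _ ≤ B σ ρ * (Q * q ρ) := mul_le_mul_of_nonneg_left (hq ρ hρ) B0
      _ = _ := by ring
  refine h1.trans ?_
  rw [intervalIntegral.integral_const_mul]
  exact mul_le_mul_of_nonneg_left hI Q0

/-- **the rows of the first lower function** -/
theorem Kin.nA_row (hK : Kin Z F x P a b t s mb rh Y δ) (hC : Z.Cf B E1) (hZ : Z.Ok sl)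
    (hx : Wt x P 1) (ht : t ∈ Icc (0 : ℝ) bt) (hab : a ≠ b) {d : V}
    (hd : d ∈ ({a, b} : Finset V)ᶜ) (cB : ContinuousOn (fun ρ => B t ρ) (Icc 0 t))
    (cq : ContinuousOn rh (Icc 0 t)) {I : ℝ} (hI : ∫ ρ in (0 : ℝ)..t, B t ρ * rh ρ ≤ I) :
    ∑ c ∈ ({a, b, d} : Finset V)ᶜ, N2 Z F x P {a, b} t s t c d 0
      ≤ (1 - (x a d + x b d)) * (Real.exp Y * (Real.exp Y
        * Real.exp ((x a d + x b d) * δ)) * I) := by
  have kd1 : x a d + x b d ≤ 1 := by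
    have := (two_mem hx d hab).2
    rwa [hx.symm d a, hx.symm d b] at this
  simp only [N2_eq _ t s ht.1]
  refine (hK.int_le hC hZ hx ht ⟨ht.1, le_rfl⟩ (c := fun c => c) (e := fun _ => d)
    (Q := (1 - (x a d + x b d)) * (Real.exp Y * (Real.exp Y
        * Real.exp ((x a d + x b d) * δ)))) cB cq (fun ρ hρ => ?_) ?_ hI).trans (le_of_eq ?_)
  · refine ((hK.kp ρ hρ).rowA hx hab hd).trans (le_of_eq ?_)
    ring
  · exact mul_nonneg (by linarith) (mul_nonneg (Real.exp_pos _).le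
      (mul_nonneg (Real.exp_pos _).le (Real.exp_pos _).le))
  · ring

/-- **the rows of the second lower function** -/
theorem Kin.nB_row (hK : Kin Z F x P a b t s mb rh Y δ) (hC : Z.Cf B E1) (hZ : Z.Ok sl)
    (hx : Wt x P 1) (ht : t ∈ Icc (0 : ℝ) bt) (hs : s ∈ Icc 0 t) (hab : a ≠ b) {d : V}
    (hd : d ∈ ({a, b} : Finset V)ᶜ) (cB : ContinuousOn (fun ρ => B s ρ) (Icc 0 s))
    (cq : ContinuousOn mb (Icc 0 s)) {I : ℝ} (hI : ∫ ρ in (0 : ℝ)..s, B s ρ * mb ρ ≤ I) :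
    ∑ c ∈ ({a, b, d} : Finset V)ᶜ, N2 Z F x P {a, b} t s s d c 0
      ≤ (1 - (x a d + x b d)) * (Real.exp Y * (Real.exp Y * Real.exp δ) * I) := by
  have kd1 : x a d + x b d ≤ 1 := by
    have := (two_mem hx d hab).2
    rwa [hx.symm d a, hx.symm d b] at this
  simp only [N2_eq _ t s hs.1]
  refine (hK.int_le hC hZ hx ht hs (c := fun _ => d) (e := fun c => c)
    (Q := (1 - (x a d + x b d)) * (Real.exp Y * (Real.exp Y
        * Real.exp δ))) cB cq (fun ρ hρ => ?_) ?_ hI).trans (le_of_eq ?_)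
  · refine ((hK.kp ρ ⟨hρ.1, hρ.2.trans hs.2⟩).rowB hx hab hd).trans (le_of_eq ?_)
    ring
  · exact mul_nonneg (by linarith) (mul_nonneg (Real.exp_pos _).le
      (mul_nonneg (Real.exp_pos _).le (Real.exp_pos _).le))
  · ring

/-- **the entries of the lower functions** -/
theorem Kin.n_ent (hK : Kin Z F x P a b t s mb rh Y δ) (hC : Z.Cf B E1) (hZ : Z.Ok sl)
    (hx : Wt x P 1) (ht : t ∈ Icc (0 : ℝ) bt) (hab : a ≠ b) {σ : ℝ} (hσ : σ ∈ Icc 0 t) {c d : V}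
    (hc : c ∈ ({a, b} : Finset V)ᶜ) (hd : d ∈ ({a, b} : Finset V)ᶜ) (hcd : c ≠ d)
    (cB : ContinuousOn (fun ρ => B σ ρ) (Icc 0 σ))
    (cq : ContinuousOn mb (Icc 0 σ)) {I : ℝ} (hI : ∫ ρ in (0 : ℝ)..σ, B σ ρ * mb ρ ≤ I) :
    N2 Z F x P {a, b} t s σ c d 0
      ≤ (2 - (x a c + x b c) - (x a d + x b d)) / 4 * (Real.exp Y * (Real.exp Y
        * Real.exp ((x a d + x b d) * δ)) * I) := by
  have kd1 : ∀ d, x a d + x b d ≤ 1 := fun d => by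
    have := (two_mem hx d hab).2
    rwa [hx.symm d a, hx.symm d b] at this
  rw [N2_eq _ t s hσ.1]
  have key := hK.int_le hC hZ hx ht hσ (S := {c}) (T := fun _ => ({a, b} : Finset V)ᶜ.erase c)
    (c := fun c => c) (e := fun _ => d)
    (Q := (2 - (x a c + x b c) - (x a d + x b d)) / 4 * (Real.exp Y * (Real.exp Y
        * Real.exp ((x a d + x b d) * δ)))) cB cq (fun ρ hρ => ?_) ?_ hI
  · rw [Finset.sum_singleton] at key
    refine key.trans (le_of_eq ?_)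
    ring
  · rw [Finset.sum_singleton]
    refine ((hK.kp ρ ⟨hρ.1, hρ.2.trans hσ.2⟩).ent hx hab hc hd hcd).trans (le_of_eq ?_)
    ring
  · refine mul_nonneg ?_ (mul_nonneg (Real.exp_pos _).le
      (mul_nonneg (Real.exp_pos _).le (Real.exp_pos _).le))
    have := kd1 c
    have := kd1 d
    linarith

end Pool.Agent.RX.RCN.K
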