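import Pool.Agent.RX.RCG.Wk
import Pool.Agent.RX.RCN.T1D
import Pool.Agent.RX.RCN.XrE

/-! The rows and entries of the linear error with numbers (MP_73ccd0_lc, route M). -/

namespace Pool.Agent.RX.RCN.K

open Set Finset MeasureTheory Pool.Agent.RX.RCRSHalf Pool.Agent.RX.RCG Pool.Agent.RX.RCG.Ct
open Pool.Agent.RX.RCN.Ker

set_option linter.unusedSectionVars false

/-- the scalar data of one time -/
structure T1c (k : Kf) (B : ℝ → ℝ → ℝ) (mb κ0 φ Fs J x2 x2' : ℝ → ℝ)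
    (t γ α0 cE Y δ ω oA oB IA x1 : ℝ) : Prop where
  γ0 : 0 ≤ γ
  γ1 : γ ≤ 1
  δ0 : 0 ≤ δ
  cκ0 : ContinuousOn κ0 (Icc 0 t)
  k0 : ∀ s ∈ Icc 0 t, 0 ≤ κ0 s
  cφ : ContinuousOn φ (Icc 0 t)
  cFs : ContinuousOn Fs (Icc 0 t)
  Fs0 : ∀ s ∈ Icc 0 t, 0 ≤ Fs s
  cJ : ContinuousOn J (Icc 0 t)
  J0 : ∀ s ∈ Icc 0 t, 0 ≤ J s
  cx2 : ContinuousOn x2 (Icc 0 t)
  cx2' : ContinuousOn x2' (Icc 0 t)
  x20 : ∀ s ∈ Icc 0 t, 0 ≤ x2 s
  x20' : ∀ s ∈ Icc 0 t, 0 ≤ x2' s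
  x10 : 0 ≤ x1
  IA0 : 0 ≤ IA
  f1 : ∀ y ∈ Icc (0 : ℝ) 1, ∀ s ∈ Icc 0 t, k.fh y s * (1 - y) ≤ φ s
  f2 : ∀ s ∈ Icc 0 t, qq s ≤ φ s
  f3 : ∀ y ∈ Icc (0 : ℝ) 1, ∀ s ∈ Icc 0 t, k.fh y s * (1 - y / 2) ≤ cE * φ s
  cE1 : 1 ≤ cE
  F1 : ∀ y ∈ Icc (0 : ℝ) 1, ∀ s ∈ Icc 0 t, ∫ r in (0 : ℝ)..s, k.fh y r * κ0 r ≤ Fs s
  F2 : ∀ s ∈ Icc 0 t, ∫ r in (0 : ℝ)..s, qq r * κ0 r ≤ Fs s
  Ft : Fs t ≤ α0
  w1 : ∀ q ∈ Icc (0 : ℝ) 1, (1 - q) * (1 + γ * q) * (Real.exp Y * Real.exp (q * δ)) ≤ ω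
  a1 : ∀ q ∈ Icc (0 : ℝ) 1, (2 - q) / 4 * (1 + γ * q)
    * (Real.exp Y * (Real.exp Y * Real.exp (q * δ))) ≤ oA
  b1 : ∀ p v w : ℝ, 0 ≤ p → p ≤ 1 → 0 ≤ v → 0 ≤ w → v + w ≤ 1 →
    (1 + γ * w) * ((2 - p - (w + v)) / 4 * (Real.exp Y * (Real.exp Y * Real.exp (p * δ))))
      ≤ oB * (1 - v / 2)
  IA1 : ∫ ρ in (0 : ℝ)..t, B t ρ * 1 ≤ IA
  J1 : ∀ s ∈ Icc 0 t, ∫ ρ in (0 : ℝ)..s, B s ρ * mb ρ ≤ J s
  cB : ∀ s ∈ Icc 0 t, ContinuousOn (fun ρ => B s ρ) (Icc 0 s)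
  cm : ContinuousOn mb (Icc 0 t)

variable {V : Type*} [Fintype V] [DecidableEq V] {x : V → V → ℝ} {P : V → Prop}
  [DecidablePred P] {a b : V} {Z : Hzd} {F : Lz V} {sl : ℝ → ℝ → ℝ} {B E1 : ℝ → ℝ → ℝ}
  {k : Kf} {N : ℕ} {κd : ℝ → ℝ → ℝ → ℝ} {R : V → V → V → ℝ → ℝ → ℝ}
  {L Lt : V → V → V → V → ℝ → ℝ → ℝ}
  {mb κ0 φ Fs J x2 x2' : ℝ → ℝ} {t γ α0 cE Y δ ω ωH oA oB IA x1 mM : ℝ}
  {X Xt : V → V → ℝ → ℝ}

/-- the data of the world of `a`, `b` -/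
structure T1w (Z : Hzd) (F : Lz V) (x : V → V → ℝ) (P : V → Prop) [DecidablePred P]
    (R : V → V → V → ℝ → ℝ → ℝ) (L Lt : V → V → V → V → ℝ → ℝ → ℝ) (X Xt : V → V → ℝ → ℝ)
    (a b : V) (mb x2 x2' : ℝ → ℝ) (t γ Y δ ωH mM x1 : ℝ) : Prop where
  kin : ∀ s ∈ Icc 0 t, Kin Z F x P a b t s mb (fun _ => 1) Y δ
  L : ∀ d ∈ ({a, b} : Finset V)ᶜ, x b d ≠ 0 → ∀ c ∈ ({a, b, d} : Finset V)ᶜ, P c →
    ∀ s ∈ Icc 0 t, L a b c d t s ≤ N2 Z F x P {a, b} t s t c d 0 + N2 Z F x P {a, b} t s s d c 0 + X c d s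
  Lt : ∀ d ∈ ({a, b} : Finset V)ᶜ, x b d ≠ 0 → ∀ c ∈ ({a, b, d} : Finset V)ᶜ, P c →
    ∀ s ∈ Icc 0 t, Lt a b c d t s ≤ N2 Z F x P {a, b} t s t c d 0 + N2 Z F x P {a, b} t s s d c 0 + Xt c d s
  X0 : ∀ d ∈ ({a, b} : Finset V)ᶜ, ∀ c ∈ ({a, b, d} : Finset V)ᶜ, ∀ s ∈ Icc 0 t, 0 ≤ X c d s
  Xt0 : ∀ d ∈ ({a, b} : Finset V)ᶜ, ∀ c ∈ ({a, b, d} : Finset V)ᶜ, ∀ s ∈ Icc 0 t, 0 ≤ Xt c d s
  Xr : ∀ d ∈ ({a, b} : Finset V)ᶜ, ∀ s ∈ Icc 0 t,
    (1 + γ * x a d) * ∑ c ∈ ({a, b, d} : Finset V)ᶜ, X c d s ≤ x1 + (1 - x b d) * x2 s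
  Xtr : ∀ d ∈ ({a, b} : Finset V)ᶜ, ∀ s ∈ Icc 0 t,
    R a b d t s * ∑ c ∈ ({a, b, d} : Finset V)ᶜ, Xt c d s ≤ x b d * x2' s
  R1 : ∀ d ∈ ({a, b} : Finset V)ᶜ, ∀ s ∈ Icc 0 t, R a b d t s * (1 - x b d) ≤ x b d
  Rm : ∀ d ∈ ({a, b} : Finset V)ᶜ, ∀ s ∈ Icc 0 t, R a b d t s ≤ x b d * mM
  Rw : ∀ d ∈ ({a, b} : Finset V)ᶜ, ∀ s ∈ Icc 0 t, R a b d t s * ((1 - (x a d + x b d))
    * (Real.exp Y * Real.exp ((x a d + x b d) * δ))) ≤ x b d * ωH

section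

variable (hc : T1c k B mb κ0 φ Fs J x2 x2' t γ α0 cE Y δ ω oA oB IA x1)
  (hw : T1w Z F x P R L Lt X Xt a b mb x2 x2' t γ Y δ ωH mM x1)
  (hC : Z.Cf B E1) (hZ : Z.Ok sl) (hf : Lf N k κd R L Lt) (hx : Wt x P 1) (hk : k.Ok)
  (hfc : ∀ y ∈ Icc (0 : ℝ) 1, ContinuousOn (k.fh y) (Icc 0 bt)) (hab : a ≠ b)
  (ht : t ∈ Icc (0 : ℝ) bt)

include hc in
theorem T1c.em {s : ℝ} (_ : s ∈ Icc 0 t) {q : ℝ} (q0 : 0 ≤ q) (q1 : q ≤ 1) {v w : ℝ}
    (v0 : 0 ≤ v) (w0 : 0 ≤ w) (hvw : w + v = q) :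
    (1 + γ * w) * ((1 - q) * (Real.exp Y * Real.exp (q * δ))) ≤ ω ∧
      (1 + γ * w) * (1 - q) ≤ 1 - v := by
  have hg := hc.γ0
  have hg1 := hc.γ1
  constructor
  · refine le_trans ?_ (hc.w1 q ⟨q0, q1⟩)
    have e0 : 0 ≤ (1 - q) * (Real.exp Y * Real.exp (q * δ)) :=
      mul_nonneg (by linarith) (mul_nonneg (Real.exp_pos _).le (Real.exp_pos _).le)
    have h1 : 1 + γ * w ≤ 1 + γ * q := by
      have := mul_le_mul_of_nonneg_left (show w ≤ q by linarith) hg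
      linarith
    calc _ ≤ (1 + γ * q) * ((1 - q) * (Real.exp Y * Real.exp (q * δ))) :=
          mul_le_mul_of_nonneg_right h1 e0
      _ = _ := by ring
  · have h2 : γ * w * (1 - q) ≤ w * 1 := by
      have i1 : γ * w ≤ w := mul_le_of_le_one_left w0 hg1
      exact mul_le_mul i1 (by linarith) (by linarith) w0
    nlinarith

include hc hw hC hZ hx hab ht in
/-- the rows -/
theorem T1w.row {d : V} (hd : d ∈ ({a, b} : Finset V)ᶜ) {s : ℝ} (hs : s ∈ Icc 0 t) :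
    ∑ c ∈ ({a, b, d} : Finset V)ᶜ, (N2 Z F x P {a, b} t s t c d 0
        + N2 Z F x P {a, b} t s s d c 0)
      ≤ (1 - (x a d + x b d)) * ((Real.exp Y * Real.exp ((x a d + x b d) * δ))
        * (Real.exp Y * IA) + (Real.exp Y * (Real.exp Y * Real.exp δ)) * J s) := by
  have tt : t ∈ Icc 0 t := ⟨ht.1, le_rfl⟩
  have rA := (hw.kin s hs).nA_row hC hZ hx ht hab hd (hc.cB t tt) continuousOn_const hc.IA1
  have rB := (hw.kin s hs).nB_row hC hZ hx ht hs hab hd (hc.cB s hs)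
    (hc.cm.mono (Icc_subset_Icc_right hs.2)) (hc.J1 s hs)
  rw [Finset.sum_add_distrib]
  refine (add_le_add rA rB).trans (le_of_eq ?_)
  ring

include hw hx in
theorem T1w.facts {d : V} (_ : d ∈ ({a, b} : Finset V)ᶜ) (hab : a ≠ b) :
    0 ≤ x a d + x b d ∧ x a d + x b d ≤ 1 ∧ 0 ≤ x a d ∧ 0 ≤ x b d := by
  have := (two_mem hx d hab).2
  rw [hx.symm d a, hx.symm d b] at this
  exact ⟨add_nonneg (hx.nonneg a d) (hx.nonneg b d), this, hx.nonneg a d, hx.nonneg b d⟩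

include hc hw hC hZ hx hab ht in
theorem T1w.rL {d : V} (hd : d ∈ ({a, b} : Finset V)ᶜ) (hbd : x b d ≠ 0) {s : ℝ}
    (hs : s ∈ Icc 0 t) :
    (1 + γ * x a d) * ∑ c ∈ ({a, b, d} : Finset V)ᶜ, (if P c then L a b c d t s else 0)
      ≤ ω * (Real.exp Y * IA) + x1 + (1 - x b d)
        * (Real.exp Y * (Real.exp Y * Real.exp δ) * J s + x2 s) := by
  obtain ⟨q0, q1, w0, v0⟩ := hw.facts hx hd hab
  have h1 : ∑ c ∈ ({a, b, d} : Finset V)ᶜ, (if P c then L a b c d t s else 0)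
      ≤ (1 - (x a d + x b d)) * (Real.exp Y * Real.exp ((x a d + x b d) * δ))
        * (Real.exp Y * IA) + (1 - (x a d + x b d))
        * (Real.exp Y * (Real.exp Y * Real.exp δ) * J s)
        + ∑ c ∈ ({a, b, d} : Finset V)ᶜ, X c d s := by
    refine (Finset.sum_le_sum (g := fun c => N2 Z F x P {a, b} t s t c d 0
      + N2 Z F x P {a, b} t s s d c 0 + X c d s) fun c hcc => ?_).trans ?_
    · split_ifs with hPc
      · exact hw.L d hd hbd c hcc hPc s hs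
      · exact add_nonneg (add_nonneg (N2_nonneg hZ hx t s ht c d)
          (N2_nonneg hZ hx t s ⟨hs.1, hs.2.trans ht.2⟩ d c)) (hw.X0 d hd c hcc s hs)
    rw [Finset.sum_add_distrib]
    refine (add_le_add (T1w.row hc hw hC hZ hx hab ht hd hs) le_rfl).trans (le_of_eq ?_)
    ring
  obtain ⟨e1, e2⟩ := hc.em hs q0 q1 v0 w0 rfl
  have g0 : 0 ≤ 1 + γ * x a d := by
    have := mul_nonneg hc.γ0 w0
    linarith
  have r10 : 0 ≤ Real.exp Y * IA := mul_nonneg (Real.exp_pos _).le hc.IA0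
  have r20 : 0 ≤ Real.exp Y * (Real.exp Y * Real.exp δ) * J s :=
    mul_nonneg (mul_nonneg (Real.exp_pos _).le (mul_nonneg (Real.exp_pos _).le
      (Real.exp_pos _).le)) (hc.J0 s hs)
  have h2 := mul_le_mul_of_nonneg_left h1 g0
  have h3 := mul_le_mul_of_nonneg_right e1 r10
  have h4 := mul_le_mul_of_nonneg_right e2 r20
  calc _ ≤ _ := h2
    _ = (1 + γ * x a d) * ((1 - (x a d + x b d))
          * (Real.exp Y * Real.exp ((x a d + x b d) * δ))) * (Real.exp Y * IA)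
        + (1 + γ * x a d) * (1 - (x a d + x b d))
          * (Real.exp Y * (Real.exp Y * Real.exp δ) * J s)
        + (1 + γ * x a d) * ∑ c ∈ ({a, b, d} : Finset V)ᶜ, X c d s := by ring
    _ ≤ _ := add_le_add (add_le_add h3 h4) (hw.Xr d hd s hs)
    _ = _ := by ring

include hc hw hC hZ hf hx hab ht in
theorem T1w.rT {d : V} (hd : d ∈ ({a, b} : Finset V)ᶜ) (hbd : x b d ≠ 0) {s : ℝ}
    (hs : s ∈ Icc 0 t) :
    R a b d t s * ∑ c ∈ ({a, b, d} : Finset V)ᶜ, (if P c then Lt a b c d t s else 0)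
      ≤ x b d * (ωH * (Real.exp Y * IA)
        + (Real.exp Y * (Real.exp Y * Real.exp δ) * J s + x2' s)) := by
  obtain ⟨q0, q1, w0, v0⟩ := hw.facts hx hd hab
  have h1 : ∑ c ∈ ({a, b, d} : Finset V)ᶜ, (if P c then Lt a b c d t s else 0)
      ≤ (1 - (x a d + x b d)) * (Real.exp Y * Real.exp ((x a d + x b d) * δ))
        * (Real.exp Y * IA) + (1 - (x a d + x b d))
        * (Real.exp Y * (Real.exp Y * Real.exp δ) * J s)
        + ∑ c ∈ ({a, b, d} : Finset V)ᶜ, Xt c d s := by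
    refine (Finset.sum_le_sum (g := fun c => N2 Z F x P {a, b} t s t c d 0
      + N2 Z F x P {a, b} t s s d c 0 + Xt c d s) fun c hcc => ?_).trans ?_
    · split_ifs with hPc
      · exact hw.Lt d hd hbd c hcc hPc s hs
      · exact add_nonneg (add_nonneg (N2_nonneg hZ hx t s ht c d)
          (N2_nonneg hZ hx t s ⟨hs.1, hs.2.trans ht.2⟩ d c)) (hw.Xt0 d hd c hcc s hs)
    rw [Finset.sum_add_distrib]
    refine (add_le_add (T1w.row hc hw hC hZ hx hab ht hd hs) le_rfl).trans (le_of_eq ?_)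
    ring
  have R0 : 0 ≤ R a b d t s := hf.R0 a b d t s hs.1 hs.2 ht.2
  have r10 : 0 ≤ Real.exp Y * IA := mul_nonneg (Real.exp_pos _).le hc.IA0
  have r20 : 0 ≤ Real.exp Y * (Real.exp Y * Real.exp δ) * J s :=
    mul_nonneg (mul_nonneg (Real.exp_pos _).le (mul_nonneg
      (Real.exp_pos _).le (Real.exp_pos _).le)) (hc.J0 s hs)
  have h2 := mul_le_mul_of_nonneg_left h1 R0
  have h3 := mul_le_mul_of_nonneg_right (hw.Rw d hd s hs) r10
  have h5 : R a b d t s * (1 - (x a d + x b d)) ≤ x b d :=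
    (mul_le_mul_of_nonneg_left (by linarith) R0).trans (hw.R1 d hd s hs)
  have h4 := mul_le_mul_of_nonneg_right h5 r20
  calc _ ≤ _ := h2
    _ = R a b d t s * ((1 - (x a d + x b d))
          * (Real.exp Y * Real.exp ((x a d + x b d) * δ))) * (Real.exp Y * IA)
        + R a b d t s * (1 - (x a d + x b d))
          * (Real.exp Y * (Real.exp Y * Real.exp δ) * J s)
        + R a b d t s * ∑ c ∈ ({a, b, d} : Finset V)ᶜ, Xt c d s := by ring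
    _ ≤ _ := add_le_add (add_le_add h3 h4) (hw.Xtr d hd s hs)
    _ = _ := by ring

include hc hw hC hZ hx hab ht in
theorem T1w.eL {d : V} (hd : d ∈ ({a, b} : Finset V)ᶜ) (hbd : x b d ≠ 0) {c : V}
    (hcc : c ∈ ({a, b, d} : Finset V)ᶜ) (hPc : P c) {s : ℝ} (hs : s ∈ Icc 0 t) :
    (1 + γ * x a d) * L a b c d t s
      ≤ (oA * J t + x1) + (oB * (1 - x b d / 2) * J s + (1 - x b d) * x2 s) := by
  obtain ⟨q0, q1, w0, v0⟩ := hw.facts hx hd hab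
  have tt : t ∈ Icc 0 t := ⟨ht.1, le_rfl⟩
  have hc3 := hcc
  rw [mem3] at hc3
  have hc2 : c ∈ ({a, b} : Finset V)ᶜ := mem2.2 ⟨hc3.1, hc3.2.1⟩
  obtain ⟨p0, p1, -, -⟩ := hw.facts hx hc2 hab
  have nA := (hw.kin s hs).n_ent hC hZ hx ht hab tt hc2 hd hc3.2.2 (hc.cB t tt) hc.cm (hc.J1 t tt)
  have nB := (hw.kin s hs).n_ent hC hZ hx ht hab hs hd hc2 (Ne.symm hc3.2.2) (hc.cB s hs)
    (hc.cm.mono (Icc_subset_Icc_right hs.2)) (hc.J1 s hs)
  have nX : X c d s ≤ ∑ c ∈ ({a, b, d} : Finset V)ᶜ, X c d s :=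
    Finset.single_le_sum (f := fun c => X c d s) (fun c hcc => hw.X0 d hd c hcc s hs) hcc
  obtain ⟨e1, e2⟩ := hc.em hs q0 q1 v0 w0 rfl
  have g0 : 0 ≤ 1 + γ * x a d := by
    have := mul_nonneg hc.γ0 w0
    linarith
  have ex0 : 0 ≤ Real.exp Y * (Real.exp Y * Real.exp ((x a d + x b d) * δ)) :=
    mul_nonneg (Real.exp_pos _).le (mul_nonneg (Real.exp_pos _).le (Real.exp_pos _).le)
  have h1 := mul_le_mul_of_nonneg_left (hw.L d hd hbd c hcc hPc s hs) g0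
  have k1 : (1 + γ * x a d) * N2 Z F x P {a, b} t s t c d 0 ≤ oA * J t := by
    refine (mul_le_mul_of_nonneg_left nA g0).trans ?_
    have j1 : (1 + γ * x a d) * ((2 - (x a c + x b c) - (x a d + x b d)) / 4
        * (Real.exp Y * (Real.exp Y * Real.exp ((x a d + x b d) * δ)))) ≤ oA := by
      refine le_trans ?_ (hc.a1 _ ⟨q0, q1⟩)
      have i1 : 1 + γ * x a d ≤ 1 + γ * (x a d + x b d) := by
        have := mul_nonneg hc.γ0 v0
        linarith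
      have i2 : (2 - (x a c + x b c) - (x a d + x b d)) / 4 ≤ (2 - (x a d + x b d)) / 4 := by
        linarith
      have i3 : (1 + γ * x a d) * ((2 - (x a c + x b c) - (x a d + x b d)) / 4)
          ≤ (1 + γ * (x a d + x b d)) * ((2 - (x a d + x b d)) / 4) :=
        mul_le_mul i1 i2 (by linarith) (g0.trans i1)
      calc _ = (1 + γ * x a d) * ((2 - (x a c + x b c) - (x a d + x b d)) / 4)
            * (Real.exp Y * (Real.exp Y * Real.exp ((x a d + x b d) * δ))) := by ring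
        _ ≤ (1 + γ * (x a d + x b d)) * ((2 - (x a d + x b d)) / 4)
            * (Real.exp Y * (Real.exp Y * Real.exp ((x a d + x b d) * δ))) :=
          mul_le_mul_of_nonneg_right i3 ex0
        _ = _ := by ring
    calc _ = (1 + γ * x a d) * ((2 - (x a c + x b c) - (x a d + x b d)) / 4
        * (Real.exp Y * (Real.exp Y * Real.exp ((x a d + x b d) * δ)))) * J t := by ring
      _ ≤ _ := mul_le_mul_of_nonneg_right j1 (hc.J0 t tt)
  have k2 : (1 + γ * x a d) * N2 Z F x P {a, b} t s s d c 0 ≤ oB * (1 - x b d / 2) * J s := by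
    refine (mul_le_mul_of_nonneg_left nB g0).trans ?_
    have j1 := hc.b1 (x a c + x b c) (x b d) (x a d) p0 p1 v0 w0 (by linarith)
    calc _ = (1 + γ * x a d) * ((2 - (x a c + x b c) - (x a d + x b d)) / 4
        * (Real.exp Y * (Real.exp Y * Real.exp ((x a c + x b c) * δ)))) * J s := by ring
      _ ≤ _ := mul_le_mul_of_nonneg_right j1 (hc.J0 s hs)
  have k3 : (1 + γ * x a d) * X c d s ≤ x1 + (1 - x b d) * x2 s :=
    (mul_le_mul_of_nonneg_left nX g0).trans (hw.Xr d hd s hs)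
  calc _ ≤ _ := h1
    _ = (1 + γ * x a d) * N2 Z F x P {a, b} t s t c d 0
        + (1 + γ * x a d) * N2 Z F x P {a, b} t s s d c 0 + (1 + γ * x a d) * X c d s := by ring
    _ ≤ oA * J t + oB * (1 - x b d / 2) * J s + (x1 + (1 - x b d) * x2 s) :=
        add_le_add (add_le_add k1 k2) k3
    _ = _ := by ring

include hc hw hC hZ hf hx hab ht in
theorem T1w.eT (oB0 : 0 ≤ oB) {d : V} (hd : d ∈ ({a, b} : Finset V)ᶜ) (hbd : x b d ≠ 0)
    {c : V} (hcc : c ∈ ({a, b, d} : Finset V)ᶜ) (hPc : P c) {s : ℝ} (hs : s ∈ Icc 0 t) :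
    R a b d t s * Lt a b c d t s
      ≤ x b d * (mM * (oA * J t + oB * J s) + x2' s) := by
  obtain ⟨q0, q1, w0, v0⟩ := hw.facts hx hd hab
  have tt : t ∈ Icc 0 t := ⟨ht.1, le_rfl⟩
  have hd' := hd
  rw [mem2] at hd'
  have hc3 := hcc
  rw [mem3] at hc3
  have hc2 : c ∈ ({a, b} : Finset V)ᶜ := mem2.2 ⟨hc3.1, hc3.2.1⟩
  obtain ⟨p0, p1, -, -⟩ := hw.facts hx hc2 hab
  have nA := (hw.kin s hs).n_ent hC hZ hx ht hab tt hc2 hd hc3.2.2 (hc.cB t tt) hc.cm (hc.J1 t tt)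
  have nB := (hw.kin s hs).n_ent hC hZ hx ht hab hs hd hc2 (Ne.symm hc3.2.2) (hc.cB s hs)
    (hc.cm.mono (Icc_subset_Icc_right hs.2)) (hc.J1 s hs)
  have nX : Xt c d s ≤ ∑ c ∈ ({a, b, d} : Finset V)ᶜ, Xt c d s :=
    Finset.single_le_sum (f := fun c => Xt c d s) (fun c hcc => hw.Xt0 d hd c hcc s hs) hcc
  have R0 : 0 ≤ R a b d t s := hf.R0 a b d t s hs.1 hs.2 ht.2
  have ex0 : ∀ q, 0 ≤ Real.exp Y * (Real.exp Y * Real.exp (q * δ)) := fun q =>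
    mul_nonneg (Real.exp_pos _).le (mul_nonneg (Real.exp_pos _).le (Real.exp_pos _).le)
  have hRm := hw.Rm d hd s hs
  have hm0 : 0 ≤ x b d * mM := R0.trans hRm
  have h1 := mul_le_mul_of_nonneg_left (hw.Lt d hd hbd c hcc hPc s hs) R0
  have k1 : R a b d t s * N2 Z F x P {a, b} t s t c d 0 ≤ x b d * (mM * (oA * J t)) := by
    have j1 : (2 - (x a c + x b c) - (x a d + x b d)) / 4
        * (Real.exp Y * (Real.exp Y * Real.exp ((x a d + x b d) * δ))) ≤ oA := by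
      refine le_trans ?_ (hc.a1 _ ⟨q0, q1⟩)
      refine mul_le_mul_of_nonneg_right ?_ (ex0 _)
      have i2 : (2 - (x a c + x b c) - (x a d + x b d)) / 4 ≤ (2 - (x a d + x b d)) / 4 := by
        linarith
      refine i2.trans (le_mul_of_one_le_right (by linarith) ?_)
      have := mul_nonneg hc.γ0 q0
      linarith
    have j2 : 0 ≤ (2 - (x a c + x b c) - (x a d + x b d)) / 4
        * (Real.exp Y * (Real.exp Y * Real.exp ((x a d + x b d) * δ))) :=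
      mul_nonneg (by linarith) (ex0 _)
    have j3 : N2 Z F x P {a, b} t s t c d 0 ≤ oA * J t := by
      refine nA.trans ?_
      calc _ = (2 - (x a c + x b c) - (x a d + x b d)) / 4
            * (Real.exp Y * (Real.exp Y * Real.exp ((x a d + x b d) * δ))) * J t := by ring
        _ ≤ _ := mul_le_mul_of_nonneg_right j1 (hc.J0 t tt)
    have j4 : 0 ≤ oA * J t := mul_nonneg (j2.trans j1) (hc.J0 t tt)
    calc _ ≤ R a b d t s * (oA * J t) := mul_le_mul_of_nonneg_left j3 R0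
      _ ≤ (x b d * mM) * (oA * J t) := mul_le_mul_of_nonneg_right hRm j4
      _ = _ := by ring
  have k2 : R a b d t s * N2 Z F x P {a, b} t s s d c 0 ≤ x b d * (mM * (oB * J s)) := by
    have j1 : (2 - (x a c + x b c) - (x a d + x b d)) / 4
        * (Real.exp Y * (Real.exp Y * Real.exp ((x a c + x b c) * δ))) ≤ oB := by
      have i0 := hc.b1 (x a c + x b c) (x b d) (x a d) p0 p1 v0 w0 (by linarith)
      have i1 : 0 ≤ (2 - (x a c + x b c) - (x a d + x b d)) / 4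
        * (Real.exp Y * (Real.exp Y * Real.exp ((x a c + x b c) * δ))) :=
        mul_nonneg (by linarith) (ex0 _)
      have i2 := mul_nonneg (mul_nonneg hc.γ0 w0) i1
      have i3 : oB * (1 - x b d / 2) ≤ oB := mul_le_of_le_one_right oB0 (by linarith)
      calc _ ≤ (1 + γ * x a d) * ((2 - (x a c + x b c) - (x a d + x b d)) / 4
        * (Real.exp Y * (Real.exp Y * Real.exp ((x a c + x b c) * δ)))) := by nlinarith
        _ ≤ oB * (1 - x b d / 2) := i0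
        _ ≤ _ := i3
    have j3 : N2 Z F x P {a, b} t s s d c 0 ≤ oB * J s := by
      refine nB.trans ?_
      calc _ = (2 - (x a c + x b c) - (x a d + x b d)) / 4
            * (Real.exp Y * (Real.exp Y * Real.exp ((x a c + x b c) * δ))) * J s := by ring
        _ ≤ _ := mul_le_mul_of_nonneg_right j1 (hc.J0 s hs)
    have j4 : 0 ≤ oB * J s := mul_nonneg oB0 (hc.J0 s hs)
    calc _ ≤ R a b d t s * (oB * J s) := mul_le_mul_of_nonneg_left j3 R0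
      _ ≤ (x b d * mM) * (oB * J s) := mul_le_mul_of_nonneg_right hRm j4
      _ = _ := by ring
  have k3 : R a b d t s * Xt c d s ≤ x b d * x2' s :=
    (mul_le_mul_of_nonneg_left nX R0).trans (hw.Xtr d hd s hs)
  calc _ ≤ _ := h1
    _ = R a b d t s * N2 Z F x P {a, b} t s t c d 0
        + R a b d t s * N2 Z F x P {a, b} t s s d c 0 + R a b d t s * Xt c d s := by ring
    _ ≤ x b d * (mM * (oA * J t)) + x b d * (mM * (oB * J s)) + x b d * x2' s :=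
        add_le_add (add_le_add k1 k2) k3
    _ = _ := by ring

end

end Pool.Agent.RX.RCN.K
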