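import Pool.Agent.RX.RCM.GrT
import Pool.Agent.RX.RCN.Hz_1

/-! The rate of the second type at a fixed time (MP_73ccd0_lc, route M). -/

namespace Pool.Agent.RX.RCN.K

open Set Finset MeasureTheory Pool.Agent.RX.RCRSHalf Pool.Agent.RX.RCG Pool.Agent.RX.RCG.Ct
open Pool.Agent.RX.RCM

set_option linter.unusedSectionVars false

variable {V : Type*} [Fintype V] [DecidableEq V]
variable {x : V → V → ℝ} {P : V → Prop} [DecidablePred P] {N : ℕ} {Z : Hzd}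

variable {sl : ℝ → ℝ → ℝ}
variable {κd : ℝ → ℝ → ℝ → ℝ} {R : V → V → V → ℝ → ℝ → ℝ} {L Lt : V → V → V → V → ℝ → ℝ → ℝ}

theorem wg_xr (hx : Wt x P 1) : Gr.Wg (xr x P) :=
  ⟨fun a b => xr_symm hx a b, fun a b => xr_nonneg hx a b, fun a => xr_diag hx a,
    fun a => xr_row hx a⟩

/-- bounds of the rates and of their integrals up to the time `bw` -/
structure Zb (Z : Hzd) (bw : ℝ) (B Bd : ℝ → ℝ → ℝ) (M : ℝ → ℝ) : Prop where
  b : ∀ y ∈ Icc (0 : ℝ) 1, ∀ r t, 0 ≤ r → r ≤ t → t ≤ bw →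
    Z.S y t - Z.S y r ≤ B t r * (1 - y * Z.S y t)
  bd : ∀ y ∈ Icc (0 : ℝ) 1, ∀ r t, 0 ≤ r → r ≤ t → t ≤ bw →
    (Z.S y t - Z.S y r) * (1 - y) ≤ Bd t r * (1 - y * Z.S y t)
  m : ∀ y ∈ Icc (0 : ℝ) 1, ∀ r ∈ Icc (0 : ℝ) bw, Z.rr y r ≤ M r
  m1 : ∀ y ∈ Icc (0 : ℝ) 1, ∀ r ∈ Icc (0 : ℝ) bw, Z.rr y r * (1 - y) ≤ 1
  b0 : ∀ r t, 0 ≤ r → r ≤ t → t ≤ bw → 0 ≤ B t r
  bd0 : ∀ r t, 0 ≤ r → r ≤ t → t ≤ bw → 0 ≤ Bd t r
  m0 : ∀ r ∈ Icc (0 : ℝ) bw, 0 ≤ M r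

variable {bw : ℝ} {B Bd : ℝ → ℝ → ℝ} {M : ℝ → ℝ}

/-- the integrated rates inside `P` -/
noncomputable def wA (Z : Hzd) (x : V → V → ℝ) (P : V → Prop) [DecidablePred P] (σ r : ℝ)
    (d f : V) : ℝ := if P d ∧ P f then Z.Dd x P σ d f r else 0

/-- the rates inside `P` -/
noncomputable def zA (Z : Hzd) (x : V → V → ℝ) (P : V → Prop) [DecidablePred P] (r : ℝ)
    (f e : V) : ℝ := if P f ∧ P e then Z.hh x P r f e else 0

theorem wA_symm (hx : Wt x P 1) (σ r : ℝ) (d f : V) : wA Z x P σ r d f = wA Z x P σ r f d := by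
  unfold wA Hzd.Dd
  rw [hx.symm d f]
  by_cases h : P d ∧ P f
  · rw [if_pos h, if_pos h.symm, if_pos h, if_pos h.symm]
  · rw [if_neg h, if_neg fun h' => h h'.symm]

theorem zA_symm (hx : Wt x P 1) (r : ℝ) (d f : V) : zA Z x P r d f = zA Z x P r f d := by
  unfold zA
  rw [Hzd.hh_symm hx r d f]
  simp only [and_comm]

theorem wA_nonneg (hZ : Z.Ok sl) (hx : Wt x P 1) {σ r : ℝ} (hσ : σ ∈ Icc (0 : ℝ) bt)
    (hr : r ∈ Icc 0 σ) (d f : V) : 0 ≤ wA Z x P σ r d f := by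
  unfold wA
  split_ifs
  · exact hZ.Dd_nonneg hx hσ d f hr
  · exact le_rfl

theorem zA_nonneg (hZ : Z.Ok sl) (hx : Wt x P 1) {r : ℝ} (hr : r ∈ Icc (0 : ℝ) bt) (f e : V) :
    0 ≤ zA Z x P r f e := by
  unfold zA
  split_ifs
  · exact hZ.hh_nonneg hx hr f e
  · exact le_rfl

theorem Zb.wA_le (hB : Zb Z bw B Bd M) (hZ : Z.Ok sl) (hx : Wt x P 1) (hbt : bw ≤ bt) {σ r : ℝ}
    (hr : r ∈ Icc 0 σ) (hσ : σ ≤ bw) (d f : V) :
    wA Z x P σ r d f ≤ B σ r * xr x P d f ∧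
      wA Z x P σ r d f * (1 - xr x P d f) ≤ Bd σ r * xr x P d f := by
  have hσ1 : σ ∈ Icc (0 : ℝ) bt := ⟨hr.1.trans hr.2, hσ.trans hbt⟩
  unfold wA xr
  by_cases h : P d ∧ P f
  · have hm := xw_mem hx d f
    have hd := hZ.den _ hm σ hσ1
    rw [if_pos h, if_pos h]
    unfold Hzd.Dd
    rw [if_pos h, mul_div_assoc]
    constructor
    · rw [mul_comm (B σ r)]
      refine mul_le_mul_of_nonneg_left ?_ hm.1
      rw [div_le_iff₀ hd]
      exact hB.b _ hm r σ hr.1 hr.2 hσ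
    · have h1 : (Z.S (x d f) σ - Z.S (x d f) r) / (1 - x d f * Z.S (x d f) σ) * (1 - x d f)
          ≤ Bd σ r := by
        rw [div_mul_eq_mul_div, div_le_iff₀ hd]
        exact hB.bd _ hm r σ hr.1 hr.2 hσ
      calc _ = x d f * ((Z.S (x d f) σ - Z.S (x d f) r) / (1 - x d f * Z.S (x d f) σ)
            * (1 - x d f)) := by ring
        _ ≤ x d f * Bd σ r := mul_le_mul_of_nonneg_left h1 hm.1
        _ = _ := mul_comm _ _
  · rw [if_neg h, if_neg h]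
    simp

theorem Zb.zA_le (hB : Zb Z bw B Bd M) (hx : Wt x P 1) {r : ℝ}
    (hr : r ∈ Icc 0 bw) (f e : V) :
    zA Z x P r f e ≤ M r * xr x P f e ∧
      zA Z x P r f e * (1 - xr x P f e) ≤ 1 * xr x P f e := by
  unfold zA xr
  by_cases h : P f ∧ P e
  · have hm := xw_mem hx f e
    rw [if_pos h, if_pos h]
    unfold Hzd.hh
    rw [if_pos h]
    constructor
    · rw [mul_comm (M r)]
      exact mul_le_mul_of_nonneg_left (hB.m _ hm r hr) hm.1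
    · have := mul_le_mul_of_nonneg_left (hB.m1 _ hm r hr) hm.1
      linarith
  · rw [if_neg h, if_neg h]
    simp

/-- the constants of the first chain -/
theorem Zb.kcA (hB : Zb Z bw B Bd M) (hZ : Z.Ok sl) (hx : Wt x P 1) (hbt : bw ≤ bt) {t r : ℝ}
    (hr : r ∈ Icc 0 t) (ht : t ≤ bw) :
    Gr.Kc (xr x P) (wA Z x P t r) (zA Z x P r) (Bd t r) (B t r) 1 (M r) := by
  have r1 : r ∈ Icc 0 bw := ⟨hr.1, hr.2.trans ht⟩
  exact ⟨fun d f => wA_nonneg hZ hx ⟨hr.1.trans hr.2, ht.trans hbt⟩ hr d f,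
    fun f e => zA_nonneg hZ hx ⟨hr.1, r1.2.trans hbt⟩ f e, hB.bd0 r t hr.1 hr.2 ht,
    hB.b0 r t hr.1 hr.2 ht, zero_le_one, hB.m0 r r1,
    fun d f => (hB.wA_le hZ hx hbt hr ht d f).2, fun d f => (hB.wA_le hZ hx hbt hr ht d f).1,
    fun f e => (hB.zA_le hx r1 f e).2, fun f e => (hB.zA_le hx r1 f e).1⟩

/-- the constants of the second chain -/
theorem Zb.kcB (hB : Zb Z bw B Bd M) (hZ : Z.Ok sl) (hx : Wt x P 1) (hbt : bw ≤ bt) {s r : ℝ}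
    (hr : r ∈ Icc 0 s) (hs : s ≤ bw) :
    Gr.Kc (xr x P) (zA Z x P r) (wA Z x P s r) 1 (M r) (Bd s r) (B s r) := by
  have r1 : r ∈ Icc 0 bw := ⟨hr.1, hr.2.trans hs⟩
  exact ⟨fun f e => zA_nonneg hZ hx ⟨hr.1, r1.2.trans hbt⟩ f e,
    fun d f => wA_nonneg hZ hx ⟨hr.1.trans hr.2, hs.trans hbt⟩ hr d f, zero_le_one, hB.m0 r r1,
    hB.bd0 r s hr.1 hr.2 hs, hB.b0 r s hr.1 hr.2 hs,
    fun f e => (hB.zA_le hx r1 f e).2, fun f e => (hB.zA_le hx r1 f e).1,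
    fun d f => (hB.wA_le hZ hx hbt hr hs d f).2, fun d f => (hB.wA_le hZ hx hbt hr hs d f).1⟩

/-! ### the closures -/

/-- the exponent of the kernel in the world of `b` (long clock) and `a` (short clock) -/
noncomputable def exq (x : V → V → ℝ) (Y T' τ : ℝ) (a b e f : V) : ℝ :=
  Real.exp (2 * Y + (x b e + x b f) * T' + (x a e + x a f) * τ)

/-- the first lower function -/
noncomputable def NA (Z : Hzd) (x : V → V → ℝ) (P : V → Prop) [DecidablePred P]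
    (T' Y : ℝ → ℝ) (τ : ℝ → ℝ) (a : V) (t : ℝ) (b d e : V) : ℝ :=
  ∫ r in (0 : ℝ)..t, ∑ f ∈ ({a, b, d, e} : Finset V)ᶜ,
    Z.hh x P r e f * exq x (Y r) (T' r) (τ r) a b e f * Z.Dd x P t d f r

/-- the second lower function -/
noncomputable def NB (Z : Hzd) (x : V → V → ℝ) (P : V → Prop) [DecidablePred P]
    (T' Y : ℝ → ℝ) (τ : ℝ → ℝ) (a : V) (s : ℝ) (b d e : V) : ℝ :=
  ∫ r in (0 : ℝ)..s, ∑ f ∈ ({a, b, d, e} : Finset V)ᶜ,
    Z.hh x P r d f * exq x (Y r) (T' r) (τ r) a b d f * Z.Dd x P s e f r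

theorem Dd_zero {u v : V} (h0 : x u v = 0) (σ r : ℝ) : Z.Dd x P σ u v r = 0 := by
  unfold Hzd.Dd
  rw [h0]
  split_ifs <;> simp

/-- the summand inside `P` -/
theorem fac_P (hx : Wt x P 1) {d e f : V} (hd : P d) (he : P e) (hde : d ≠ e) (σ r : ℝ)
    (c : ℝ) : Z.hh x P r e f * c * Z.Dd x P σ d f r
      = zA Z x P r f e * c * wA Z x P σ r d f := by
  unfold zA wA
  by_cases hf : P f
  · rw [if_pos ⟨hf, he⟩, if_pos ⟨hd, hf⟩, Hzd.hh_symm hx r e f]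
  · rw [if_neg fun h => hf h.1, zero_mul, zero_mul]
    by_cases h1 : x d f = 0
    · rw [Dd_zero h1, mul_zero]
    · have h2 : x f e = 0 := by
        by_contra h3
        exact hde (hx.pend1 d f e hf h1 h3).symm
      rw [Hzd.hh_symm hx, Hzd.hh_zero h2, zero_mul, zero_mul]

end Pool.Agent.RX.RCN.K
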