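import Pool.Agent.RX.RCM.NuA
import Pool.Agent.RX.RCN.Esw
import Pool.Agent.RX.RCN.T2r

/-! The integrals of the chains of the second type (MP_73ccd0_lc, route M). -/

namespace Pool.Agent.RX.RCN.K

open Set Finset MeasureTheory Pool.Agent.RX.RCRSHalf Pool.Agent.RX.RCG Pool.Agent.RX.RCG.Ct
open Pool.Agent.RX.RCN.Ker Pool.Agent.RX.RCM

set_option linter.unusedSectionVars false

variable {V : Type*} [Fintype V] [DecidableEq V]

/-- finite sums of integrals -/
theorem sum3_int_le {τ : ℝ} (hτ : 0 ≤ τ) {A : Finset V} {B : V → Finset V}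
    {C : V → V → Finset V} {c : V → V → V → ℝ} {F : V → V → V → ℝ → ℝ}
    (hF : ∀ b d e, ContinuousOn (F b d e) (Icc 0 τ)) {G : ℝ → ℝ} (hG : ContinuousOn G (Icc 0 τ))
    (h : ∀ r ∈ Icc 0 τ, ∑ b ∈ A, ∑ d ∈ B b, ∑ e ∈ C b d, c b d e * F b d e r ≤ G r) :
    ∑ b ∈ A, ∑ d ∈ B b, ∑ e ∈ C b d, c b d e * ∫ r in (0 : ℝ)..τ, F b d e r
      ≤ ∫ r in (0 : ℝ)..τ, G r := by
  have c0 : ∀ b d e, ContinuousOn (fun r => c b d e * F b d e r) (Icc 0 τ) :=
    fun b d e => continuousOn_const.mul (hF b d e)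
  have c1 : ∀ b d, ContinuousOn (fun r => ∑ e ∈ C b d, c b d e * F b d e r) (Icc 0 τ) :=
    fun b d => continuousOn_finsetSum _ fun e _ => c0 b d e
  have c2 : ∀ b, ContinuousOn (fun r => ∑ d ∈ B b, ∑ e ∈ C b d, c b d e * F b d e r)
      (Icc 0 τ) := fun b => continuousOn_finsetSum _ fun d _ => c1 b d
  have c3 : ContinuousOn (fun r => ∑ b ∈ A, ∑ d ∈ B b, ∑ e ∈ C b d, c b d e * F b d e r)
      (Icc 0 τ) := continuousOn_finsetSum _ fun b _ => c2 b
  have e : ∑ b ∈ A, ∑ d ∈ B b, ∑ e ∈ C b d, c b d e * ∫ r in (0 : ℝ)..τ, F b d e r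
      = ∫ r in (0 : ℝ)..τ, ∑ b ∈ A, ∑ d ∈ B b, ∑ e ∈ C b d, c b d e * F b d e r := by
    rw [intervalIntegral.integral_finsetSum fun b _ => iiC hτ (c2 b)]
    refine Finset.sum_congr rfl fun b _ => ?_
    rw [intervalIntegral.integral_finsetSum fun d _ => iiC hτ (c1 b d)]
    refine Finset.sum_congr rfl fun d _ => ?_
    rw [intervalIntegral.integral_finsetSum fun e _ => iiC hτ (c0 b d e)]
    exact Finset.sum_congr rfl fun e _ => (intervalIntegral.integral_const_mul _ _).symm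
  rw [e]
  exact intervalIntegral.integral_mono_on hτ (iiC hτ c3) (iiC hτ hG) h

variable {x : V → V → ℝ} {P : V → Prop} [DecidablePred P] {k : Kf} {N : ℕ} {Z : Hzd}
variable {sl : ℝ → ℝ → ℝ} {bw : ℝ} {B Bd : ℝ → ℝ → ℝ} {M : ℝ → ℝ}

theorem wA_cont (hZ : Z.Ok sl) (hx : Wt x P 1) (σ : ℝ) (d f : V) :
    ContinuousOn (fun r => wA Z x P σ r d f) (Icc 0 bt) := by
  unfold wA
  by_cases h : P d ∧ P f
  · simp only [if_pos h]
    exact hZ.Dd_cont hx σ d f
  · simp only [if_neg h]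
    exact continuousOn_const

theorem zA_cont (hZ : Z.Ok sl) (hx : Wt x P 1) (f e : V) :
    ContinuousOn (fun r => zA Z x P r f e) (Icc 0 bt) := by
  unfold zA
  by_cases h : P f ∧ P e
  · simp only [if_pos h]
    exact hZ.hh_cont hx f e
  · simp only [if_neg h]
    exact continuousOn_const

/-- the scalars of the chains at fixed times `t`, `s` -/
structure Scl (bw t s : ℝ) (T' Y τ lam ν : ℝ → ℝ) : Prop where
  ht : t ∈ Icc 0 bw
  hs : s ∈ Icc 0 t
  cT : ContinuousOn T' (Icc 0 t)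
  cY : ContinuousOn Y (Icc 0 t)
  cτ : ContinuousOn τ (Icc 0 t)
  τ0 : ∀ r ∈ Icc 0 t, 0 ≤ τ r
  τT : ∀ r ∈ Icc 0 t, τ r ≤ T' r
  T1 : ∀ r ∈ Icc 0 t, T' r ≤ 1
  l0 : ∀ r ∈ Icc 0 t, 0 ≤ lam r
  n0 : ∀ r ∈ Icc 0 t, 0 ≤ ν r
  l : ∀ r ∈ Icc 0 t, ∀ g ∈ Icc (0 : ℝ) 1, (1 - g) * Real.exp (2 * g * T' r) ≤ lam r
  n : ∀ r ∈ Icc 0 t, ∀ g ∈ Icc (0 : ℝ) 1, g * (1 - g) * Real.exp (g * T' r) ≤ ν r

variable {t s : ℝ} {T' Y τ lam ν : ℝ → ℝ} {a : V} {g : V → V → ℝ}

/-- the integrand of the first chain -/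
noncomputable def fA (Z : Hzd) (x : V → V → ℝ) (P : V → Prop) [DecidablePred P]
    (T' Y τ : ℝ → ℝ) (a : V) (t : ℝ) (b d e : V) (r : ℝ) : ℝ :=
  Real.exp (2 * Y r) * ∑ f ∈ ({a, b, d, e} : Finset V)ᶜ,
    zA Z x P r f e * Real.exp ((xr x P b e + xr x P b f) * T' r
      + (xr x P a e + xr x P a f) * τ r) * wA Z x P t r d f

/-- the integrand of the second chain -/
noncomputable def fB (Z : Hzd) (x : V → V → ℝ) (P : V → Prop) [DecidablePred P]
    (T' Y τ : ℝ → ℝ) (a : V) (s : ℝ) (b d e : V) (r : ℝ) : ℝ :=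
  Real.exp (2 * Y r) * ∑ f ∈ ({a, b, d, e} : Finset V)ᶜ,
    zA Z x P r d f * Real.exp ((xr x P b d + xr x P b f) * T' r
      + (xr x P a d + xr x P a f) * τ r) * wA Z x P s r f e

theorem fA_cont (h : Scl bw t s T' Y τ lam ν) (hZ : Z.Ok sl) (hx : Wt x P 1) (hbt : bw ≤ bt)
    (b d e : V) : ContinuousOn (fA Z x P T' Y τ a t b d e) (Icc 0 t) := by
  have h1 : Icc (0 : ℝ) t ⊆ Icc 0 bt := Icc_subset_Icc_right (h.ht.2.trans hbt)
  refine (Real.continuous_exp.comp_continuousOn (continuousOn_const.mul h.cY)).mul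
    (continuousOn_finsetSum _ fun f _ => ?_)
  exact (((zA_cont hZ hx f e).mono h1).mul (Real.continuous_exp.comp_continuousOn
    ((continuousOn_const.mul h.cT).add (continuousOn_const.mul h.cτ)))).mul
    ((wA_cont hZ hx t d f).mono h1)

theorem fB_cont (h : Scl bw t s T' Y τ lam ν) (hZ : Z.Ok sl) (hx : Wt x P 1) (hbt : bw ≤ bt)
    (b d e : V) : ContinuousOn (fB Z x P T' Y τ a s b d e) (Icc 0 s) := by
  have h1 : Icc (0 : ℝ) s ⊆ Icc 0 bt := Icc_subset_Icc_right (h.hs.2.trans (h.ht.2.trans hbt))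
  have h2 : Icc (0 : ℝ) s ⊆ Icc 0 t := Icc_subset_Icc_right h.hs.2
  refine (Real.continuous_exp.comp_continuousOn (continuousOn_const.mul (h.cY.mono h2))).mul
    (continuousOn_finsetSum _ fun f _ => ?_)
  exact (((zA_cont hZ hx d f).mono h1).mul (Real.continuous_exp.comp_continuousOn
    ((continuousOn_const.mul (h.cT.mono h2)).add (continuousOn_const.mul (h.cτ.mono h2))))).mul
    ((wA_cont hZ hx s f e).mono h1)

theorem xr_eq {u v : V} (hu : P u) (hv : P v) : xr x P u v = x u v := by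
  unfold xr; rw [if_pos ⟨hu, hv⟩]

/-- inside `P` the first lower function is the integral of `fA` -/
theorem NA_eq (hx : Wt x P 1) (ha : P a) {b d e : V} (hb : P b) (hd : P d) (he : P e)
    (hde : d ≠ e) : NA Z x P T' Y τ a t b d e = ∫ r in (0 : ℝ)..t, fA Z x P T' Y τ a t b d e r := by
  unfold NA
  refine intervalIntegral.integral_congr fun r _ => ?_
  beta_reduce
  unfold fA
  rw [Finset.mul_sum]
  refine Finset.sum_congr rfl fun f _ => ?_
  rw [fac_P hx hd he hde t r]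
  by_cases hf : P f
  · unfold exq
    rw [xr_eq hb he, xr_eq hb hf, xr_eq ha he, xr_eq ha hf]
    have e1 : Real.exp (2 * Y r + (x b e + x b f) * T' r + (x a e + x a f) * τ r)
        = Real.exp (2 * Y r) * Real.exp ((x b e + x b f) * T' r + (x a e + x a f) * τ r) := by
      rw [← Real.exp_add]; congr 1; ring
    rw [e1]
    ring
  · have : zA Z x P r f e = 0 := by unfold zA; rw [if_neg fun h => hf h.1]
    rw [this]
    ring

/-- inside `P` the second lower function is the integral of `fB` -/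
theorem NB_eq (hx : Wt x P 1) (ha : P a) {b d e : V} (hb : P b) (hd : P d) (he : P e)
    (hde : d ≠ e) : NB Z x P T' Y τ a s b d e = ∫ r in (0 : ℝ)..s, fB Z x P T' Y τ a s b d e r := by
  unfold NB
  refine intervalIntegral.integral_congr fun r _ => ?_
  beta_reduce
  unfold fB
  rw [Finset.mul_sum]
  refine Finset.sum_congr rfl fun f _ => ?_
  rw [fac_P hx he hd hde.symm s r, wA_symm hx s r e f, zA_symm hx r f d]
  by_cases hf : P f
  · unfold exq
    rw [xr_eq hb hd, xr_eq hb hf, xr_eq ha hd, xr_eq ha hf]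
    have e1 : Real.exp (2 * Y r + (x b d + x b f) * T' r + (x a d + x a f) * τ r)
        = Real.exp (2 * Y r) * Real.exp ((x b d + x b f) * T' r + (x a d + x a f) * τ r) := by
      rw [← Real.exp_add]; congr 1; ring
    rw [e1]
    ring
  · have : zA Z x P r d f = 0 := by unfold zA; rw [if_neg fun h => hf h.2]
    rw [this]
    ring

variable {ρ : ℝ}

end Pool.Agent.RX.RCN.K
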