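import Pool.Agent.RX.RCM.GrX
import Pool.Agent.RX.RCN.Eb
import Pool.Agent.RX.RCN.T2s_1

/-! The rate of the second type at a fixed time, all parts (MP_73ccd0_lc, route M). -/

namespace Pool.Agent.RX.RCN.K

open Set Finset MeasureTheory Pool.Agent.RX.RCRSHalf Pool.Agent.RX.RCG Pool.Agent.RX.RCG.Ct
open Pool.Agent.RX.RCN.Ker Pool.Agent.RX.RCM

set_option linter.unusedSectionVars false

/-- the weights of a pair, first form -/
theorem wt_le1 {A F u v t χ ρ : ℝ} (hA : 0 ≤ A) (hF : 0 ≤ F) (hu : 0 ≤ u) (hv : 0 ≤ v)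
    (hu1 : u ≤ 1) (ht : 0 ≤ t) (hχ : 0 ≤ χ) (hρ : ρ * (A + F) = F) :
    A * (1 + (u + v) * t) + F * ((1 + u * t) * (1 - u) + t * χ)
      ≤ (A + F) * ((1 + u * t) * (1 + v * t) * (1 + ρ * max 0 ((1 - u) + t * χ - 1))) := by
  set m := (1 - u) + t * χ with hm
  have m0 : 0 ≤ m := add_nonneg (by linarith) (mul_nonneg ht hχ)
  have hut : 0 ≤ u * t := mul_nonneg hu ht
  have hvt : 0 ≤ v * t := mul_nonneg hv ht
  have htχ : 0 ≤ t * χ := mul_nonneg ht hχ
  have i1 : A * (1 + (u + v) * t) ≤ A * ((1 + u * t) * (1 + v * t)) := by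
    refine mul_le_mul_of_nonneg_left ?_ hA
    nlinarith [mul_nonneg hut hvt]
  have i2 : F * ((1 + u * t) * (1 - u) + t * χ) ≤ F * ((1 + u * t) * (1 + v * t) * m) := by
    refine mul_le_mul_of_nonneg_left ?_ hF
    have i3 : (1 + u * t) * (1 - u) + t * χ ≤ (1 + u * t) * m := by
      rw [hm]
      nlinarith [mul_nonneg hut htχ]
    have i4 : (1 + u * t) * m ≤ (1 + u * t) * (1 + v * t) * m := by
      have : 0 ≤ (1 + u * t) * m * (v * t) := mul_nonneg (mul_nonneg (by linarith) m0) hvt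
      nlinarith
    exact i3.trans i4
  have i5 : A + F * m ≤ (A + F) * (1 + ρ * max 0 (m - 1)) := by
    have h1 : m - 1 ≤ max 0 (m - 1) := le_max_right _ _
    have h2 := mul_le_mul_of_nonneg_left h1 hF
    have h3 : (A + F) * (1 + ρ * max 0 (m - 1)) = A + F + (ρ * (A + F)) * max 0 (m - 1) := by ring
    rw [h3, hρ]
    linarith
  have i6 : 0 ≤ (1 + u * t) * (1 + v * t) := mul_nonneg (by linarith) (by linarith)
  have i7 := mul_le_mul_of_nonneg_left i5 i6
  calc _ ≤ A * ((1 + u * t) * (1 + v * t)) + F * ((1 + u * t) * (1 + v * t) * m) :=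
        add_le_add i1 i2
    _ = (1 + u * t) * (1 + v * t) * (A + F * m) := by ring
    _ ≤ _ := i7
    _ = _ := by ring

/-- the weights of the hazard part -/
theorem wt_le3 {F u t χ : ℝ} (hF : 0 ≤ F) (hu : 0 ≤ u) (ht : 0 ≤ t) (hχ : 0 ≤ χ) :
    F * ((1 + u * t) * (1 - u) + t * χ) ≤ F * ((1 + u * t) * ((1 - u) + t * χ)) := by
  refine mul_le_mul_of_nonneg_left ?_ hF
  have := mul_nonneg (mul_nonneg hu ht) (mul_nonneg ht hχ)
  nlinarith

variable {V : Type*} [Fintype V] [DecidableEq V]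
variable {x : V → V → ℝ} {P : V → Prop} [DecidablePred P] {k : Kf} {N : ℕ} {Z : Hzd}
variable {sl : ℝ → ℝ → ℝ} {bw : ℝ} {B Bd : ℝ → ℝ → ℝ} {M : ℝ → ℝ}
variable {κd : ℝ → ℝ → ℝ → ℝ} {R : V → V → V → ℝ → ℝ → ℝ} {L Lt : V → V → V → V → ℝ → ℝ → ℝ}
variable {t s : ℝ} {T' Y τ lam ν : ℝ → ℝ} {a : V} {g : V → V → ℝ}

/-- the bounds of the rates of the fluxes at the times `t`, `s` -/
structure Rt (x : V → V → ℝ) (P : V → Prop) [DecidablePred P] (k : Kf) (κd : ℝ → ℝ → ℝ → ℝ)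
    (R : V → V → V → ℝ → ℝ → ℝ) (a : V) (t s A F m : ℝ) : Prop where
  A0 : 0 ≤ A
  F0 : 0 ≤ F
  m0 : 0 ≤ m
  f0 : ∀ b e, b ≠ a → e ≠ a → b ≠ e → 0 ≤ flx x P k κd b a e t s
  f : ∀ b e, b ≠ a → e ≠ a → b ≠ e →
    flx x P k κd b a e t s ≤ x a e * (A * (1 + (x a b + x b e) * t))
  u0 : ∀ b, b ≠ a → 0 ≤ mua x P k κd b a t s
  u : ∀ b, b ≠ a → mua x P k κd b a t s
    ≤ F * ((1 + x a b * t) * (1 - x a b) + t * ∑ e ∈ ({a, b} : Finset V)ᶜ, x b e * x a e)
  r0 : ∀ b e, 0 ≤ R b a e t s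
  r : ∀ b e, R b a e t s ≤ x a e * m

/-- the common neighbours are in `P` -/
theorem chi_eq (hx : Wt x P 1) {a b : V} (ha : P a) (hb : P b) (hab : a ≠ b) :
    ∑ e ∈ ({a, b} : Finset V)ᶜ, x b e * x a e = Gr.chi (xr x P) a b := by
  unfold Gr.chi
  refine Finset.sum_congr rfl fun e _ => ?_
  by_cases he : P e
  · rw [xr_eq hb he, xr_eq ha he]
  · have h1 : xr x P b e = 0 := by unfold xr; rw [if_neg fun h => he h.2]
    rw [h1, zero_mul]
    by_cases h2 : x a e = 0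
    · rw [h2, mul_zero]
    · have h3 : x e b = 0 := by
        by_contra h4
        exact hab (hx.pend1 a e b he h2 h4).symm
      rw [hx.symm b e, h3, zero_mul]

theorem fA_nonneg (hZ : Z.Ok sl) (hx : Wt x P 1) {r : ℝ} (ht : t ∈ Icc (0 : ℝ) bt)
    (hr : r ∈ Icc 0 t) (b d e : V) : 0 ≤ fA Z x P T' Y τ a t b d e r :=
  mul_nonneg (Real.exp_pos _).le (Finset.sum_nonneg fun f _ => mul_nonneg
    (mul_nonneg (zA_nonneg hZ hx ⟨hr.1, hr.2.trans ht.2⟩ f e) (Real.exp_pos _).le)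
    (wA_nonneg hZ hx ht hr d f))

theorem fB_nonneg (hZ : Z.Ok sl) (hx : Wt x P 1) {r : ℝ} (hs : s ∈ Icc (0 : ℝ) bt)
    (hr : r ∈ Icc 0 s) (b d e : V) : 0 ≤ fB Z x P T' Y τ a s b d e r :=
  mul_nonneg (Real.exp_pos _).le (Finset.sum_nonneg fun f _ => mul_nonneg
    (mul_nonneg (zA_nonneg hZ hx ⟨hr.1, hr.2.trans hs.2⟩ d f) (Real.exp_pos _).le)
    (wA_nonneg hZ hx hs hr f e))

/-- bounds of the closures at the times `t`, `s` -/
structure Lb (Z : Hzd) (x : V → V → ℝ) (P : V → Prop) [DecidablePred P]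
    (L Lt : V → V → V → V → ℝ → ℝ → ℝ) (T' Y τ : ℝ → ℝ) (a : V) (t s : ℝ)
    (RD RT : V → V → V → ℝ) (δ : ℝ) : Prop where
  δ0 : 0 ≤ δ
  l0 : ∀ b d e, 0 ≤ L b a d e t s
  lt0 : ∀ b d e, 0 ≤ Lt b a d e t s
  pend : ∀ b d e, ¬P e → x a e ≠ 0 → L b a d e t s = 0 ∧ Lt b a d e t s = 0
  rd0 : ∀ b d e, 0 ≤ RD b d e
  rt0 : ∀ b d e, 0 ≤ RT b d e
  l : ∀ b d e, P b → P d → P e → Gr.D3 a b d → e ∈ ({a, b, d} : Finset V)ᶜ →
    L b a d e t s ≤ NA Z x P T' Y τ a t b d e + NB Z x P T' Y τ a s b d e + RD b d e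
  lt : ∀ b d e, P b → P d → P e → Gr.D3 a b d → e ∈ ({a, b, d} : Finset V)ᶜ →
    Lt b a d e t s ≤ NA Z x P T' Y τ a t b d e + NB Z x P T' Y τ a s b d e + RT b d e
      + x d e * δ

variable {A F m ρ δ : ℝ} {RD RT : V → V → V → ℝ}

/-- the pointwise bound of the summand -/
theorem term_le (hZ : Z.Ok sl) (hx : Wt x P 1) (ha : P a) (ht : t ∈ Icc (0 : ℝ) bt)
    (hs : s ∈ Icc 0 t) (hR : Rt x P k κd R a t s A F m) (hL : Lb Z x P L Lt T' Y τ a t s RD RT δ)
    (hρ0 : 0 ≤ ρ) (hρ : ρ * (A + F * m) = F * m) (g0 : ∀ b d, 0 ≤ g b d) {b d e : V}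
    (hbd : Gr.D3 a b d) (he : e ∈ ({a, b, d} : Finset V)ᶜ) :
    xr x P a b * (xr x P b d * g b d) * (flx x P k κd b a e t s * L b a d e t s
        + mua x P k κd b a t s * (R b a e t s * Lt b a d e t s))
      ≤ (A + F * m) * ((xr x P a b * Gr.wfac (xr x P) t ρ a b)
          * (xr x P b d * (g b d * (1 + xr x P a b * t)))
          * ((1 + xr x P b e * t) * xr x P a e)
          * ((∫ r in (0 : ℝ)..t, fA Z x P T' Y τ a t b d e r)
            + ∫ r in (0 : ℝ)..s, fB Z x P T' Y τ a s b d e r))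
        + A * (xr x P a b * (xr x P b d * (g b d * (1 + t))) * RD b d e * xr x P a e)
        + F * m * ((xr x P a b * Gr.mfac (xr x P) t a b)
          * (xr x P b d * (g b d * (1 + t))) * RT b d e * xr x P a e)
        + F * m * ((xr x P a b * Gr.mfac (xr x P) t a b)
          * (xr x P b d * (g b d * (1 + xr x P a b * t))) * (xr x P d e * δ) * xr x P a e) := by
  have hw := wg_xr hx
  have n0 := hw.nn
  have hs1 : s ∈ Icc (0 : ℝ) bt := ⟨hs.1, hs.2.trans ht.2⟩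
  have hFm : 0 ≤ F * m := mul_nonneg hR.F0 hR.m0
  have hom : 0 ≤ A + F * m := add_nonneg hR.A0 hFm
  have hwf : 0 ≤ Gr.wfac (xr x P) t ρ a b := zero_le_one.trans (Gr.one_le_wfac hρ0)
  have hmf : 0 ≤ Gr.mfac (xr x P) t a b := Gr.mfac_nonneg hw ht.1
  have hA1 : 0 ≤ ∫ r in (0 : ℝ)..t, fA Z x P T' Y τ a t b d e r :=
    intervalIntegral.integral_nonneg ht.1 fun r hr => fA_nonneg hZ hx ht hr b d e
  have hB1 : 0 ≤ ∫ r in (0 : ℝ)..s, fB Z x P T' Y τ a s b d e r :=
    intervalIntegral.integral_nonneg hs.1 fun r hr => fB_nonneg hZ hx hs1 hr b d e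
  have hH : 0 ≤ xr x P d e * δ := mul_nonneg (n0 d e) hL.δ0
  have hR0 := hL.rd0 b d e
  have hT0 := hL.rt0 b d e
  have hut : 0 ≤ 1 + xr x P a b * t := by have := mul_nonneg (n0 a b) ht.1; linarith
  have hvt : 0 ≤ 1 + xr x P b e * t := by have := mul_nonneg (n0 b e) ht.1; linarith
  have r1 : 0 ≤ (A + F * m) * ((xr x P a b * Gr.wfac (xr x P) t ρ a b)
          * (xr x P b d * (g b d * (1 + xr x P a b * t)))
          * ((1 + xr x P b e * t) * xr x P a e)
          * ((∫ r in (0 : ℝ)..t, fA Z x P T' Y τ a t b d e r)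
            + ∫ r in (0 : ℝ)..s, fB Z x P T' Y τ a s b d e r)) :=
    mul_nonneg hom (mul_nonneg (mul_nonneg (mul_nonneg (mul_nonneg (n0 a b) hwf)
      (mul_nonneg (n0 b d) (mul_nonneg (g0 b d) hut))) (mul_nonneg hvt (n0 a e)))
      (add_nonneg hA1 hB1))
  have r2 : 0 ≤ A * (xr x P a b * (xr x P b d * (g b d * (1 + t))) * RD b d e * xr x P a e) :=
    mul_nonneg hR.A0 (mul_nonneg (mul_nonneg (mul_nonneg (n0 a b)
      (mul_nonneg (n0 b d) (mul_nonneg (g0 b d) (by linarith [ht.1])))) hR0) (n0 a e))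
  have r4 : 0 ≤ F * m * ((xr x P a b * Gr.mfac (xr x P) t a b)
          * (xr x P b d * (g b d * (1 + t))) * RT b d e * xr x P a e) :=
    mul_nonneg hFm (mul_nonneg (mul_nonneg (mul_nonneg (mul_nonneg (n0 a b) hmf)
      (mul_nonneg (n0 b d) (mul_nonneg (g0 b d) (by linarith [ht.1])))) hT0) (n0 a e))
  have r3 : 0 ≤ F * m * ((xr x P a b * Gr.mfac (xr x P) t a b)
          * (xr x P b d * (g b d * (1 + xr x P a b * t))) * (xr x P d e * δ) * xr x P a e) :=
    mul_nonneg hFm (mul_nonneg (mul_nonneg (mul_nonneg (mul_nonneg (n0 a b) hmf)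
      (mul_nonneg (n0 b d) (mul_nonneg (g0 b d) hut))) hH) (n0 a e))
  by_cases hb : P b
  swap
  · have : xr x P a b = 0 := by unfold xr; rw [if_neg fun h => hb h.2]
    rw [this, zero_mul, zero_mul]
    rw [this] at r1 r2 r3 r4
    linarith
  by_cases hd : P d
  swap
  · have : xr x P b d = 0 := by unfold xr; rw [if_neg fun h => hd h.2]
    have e0 : xr x P a b * (xr x P b d * g b d) * (flx x P k κd b a e t s * L b a d e t s
        + mua x P k κd b a t s * (R b a e t s * Lt b a d e t s)) = 0 := by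
      rw [this]; ring
    linarith
  simp only [Finset.mem_compl, Finset.mem_insert, Finset.mem_singleton, not_or] at he
  obtain ⟨hea, heb, hed⟩ := he
  have hba := hbd.1
  by_cases hPe : P e
  swap
  · by_cases hae : x a e = 0
    · have h1 : flx x P k κd b a e t s = 0 := by
        unfold flx; rw [hae, zero_mul, zero_mul]
      have h2 : R b a e t s = 0 := by
        have h3 := hR.r b e
        rw [hae, zero_mul] at h3
        exact le_antisymm h3 (hR.r0 b e)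
      rw [h1, h2, zero_mul, zero_mul, mul_zero, add_zero, mul_zero]
      linarith
    · obtain ⟨h1, h2⟩ := hL.pend b d e hPe hae
      rw [h1, h2, mul_zero, mul_zero, mul_zero, add_zero, mul_zero]
      linarith
  -- everything inside `P`
  have eab : xr x P a b = x a b := xr_eq ha hb
  have eae : xr x P a e = x a e := xr_eq ha hPe
  have ebe : xr x P b e = x b e := xr_eq hb hPe
  have hχ := chi_eq hx ha hb hba.symm
  have hχ0 := Gr.chi_nonneg hw a b
  have f0 := hR.f0 b e hba hea (Ne.symm heb)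
  have f1 := hR.f b e hba hea (Ne.symm heb)
  have u0 := hR.u0 b hba
  have u1 := hR.u b hba
  rw [hχ] at u1
  have q0 := hR.r0 b e
  have q1 := hR.r b e
  rw [← eab] at u1
  rw [← eab, ← eae, ← ebe] at f1
  rw [← eae] at q1
  have hu0 := n0 a b
  have hu1 := hw.le_one a b
  have hv0 := n0 b e
  have huv : xr x P a b + xr x P b e ≤ 1 := by
    have := hw.two_le (a := b) (b := a) (d := e) (Ne.symm hea)
    rw [xr_symm hx b a] at this
    exact this
  have hrow0 : 0 ≤ (1 + xr x P a b * t) * (1 - xr x P a b) + t * Gr.chi (xr x P) a b :=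
    add_nonneg (mul_nonneg hut (by linarith)) (mul_nonneg ht.1 hχ0)
  -- the product of the hazard part
  have um : mua x P k κd b a t s * R b a e t s
      ≤ xr x P a e * (F * m * ((1 + xr x P a b * t) * (1 - xr x P a b)
        + t * Gr.chi (xr x P) a b)) := by
    calc _ ≤ (F * ((1 + xr x P a b * t) * (1 - xr x P a b) + t * Gr.chi (xr x P) a b))
          * (xr x P a e * m) := mul_le_mul u1 q1 q0 (mul_nonneg hR.F0 hrow0)
      _ = _ := by ring
  have um0 : 0 ≤ mua x P k κd b a t s * R b a e t s := mul_nonneg u0 q0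
  have w1 := wt_le1 (A := A) (F := F * m) hR.A0 hFm hu0 hv0 hu1 ht.1 hχ0 hρ
  have w3 := wt_le3 (F := F * m) (χ := Gr.chi (xr x P) a b) hFm hu0 ht.1 hχ0
  have e1 : 1 + ρ * max 0 (1 - xr x P a b + t * Gr.chi (xr x P) a b - 1)
      = Gr.wfac (xr x P) t ρ a b := rfl
  have e3 : (1 - xr x P a b) + t * Gr.chi (xr x P) a b = Gr.mfac (xr x P) t a b := rfl
  rw [e1] at w1
  rw [e3] at w3
  have l1 := hL.l b d e hb hd hPe hbd (by simp [hea, heb, hed])
  have l2 := hL.lt b d e hb hd hPe hbd (by simp [hea, heb, hed])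
  rw [NA_eq hx ha hb hd hPe (Ne.symm hed), NB_eq hx ha hb hd hPe (Ne.symm hed)] at l1 l2
  have eH : x d e = xr x P d e := (xr_eq hd hPe).symm
  rw [eH] at l2
  set IA := ∫ r in (0 : ℝ)..t, fA Z x P T' Y τ a t b d e r with hIA
  set IB := ∫ r in (0 : ℝ)..s, fB Z x P T' Y τ a s b d e r with hIB
  set fl := flx x P k κd b a e t s with hfl
  set mu := mua x P k κd b a t s with hmu
  set Rr := R b a e t s with hRr
  -- the total
  have tot : fl * L b a d e t s + mu * (Rr * Lt b a d e t s)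
      ≤ (fl + mu * Rr) * (IA + IB) + fl * RD b d e + mu * Rr * RT b d e
        + mu * Rr * (xr x P d e * δ) := by
    have i1 := mul_le_mul_of_nonneg_left l1 f0
    have i2 := mul_le_mul_of_nonneg_left l2 um0
    nlinarith [i1, i2]
  have W1 : fl + mu * Rr ≤ xr x P a e * ((A + F * m) * ((1 + xr x P a b * t)
      * (1 + xr x P b e * t) * Gr.wfac (xr x P) t ρ a b)) := by
    have := mul_le_mul_of_nonneg_left w1 (n0 a e)
    linarith
  have W2 : fl ≤ xr x P a e * (A * (1 + t)) := by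
    refine f1.trans (mul_le_mul_of_nonneg_left (mul_le_mul_of_nonneg_left ?_ hR.A0) (n0 a e))
    have := mul_le_mul_of_nonneg_right huv ht.1
    linarith
  have W3 : mu * Rr ≤ xr x P a e * (F * m * ((1 + xr x P a b * t)
      * Gr.mfac (xr x P) t a b)) := by
    have := mul_le_mul_of_nonneg_left w3 (n0 a e)
    linarith
  have W4 : mu * Rr ≤ xr x P a e * (F * m * ((1 + t) * Gr.mfac (xr x P) t a b)) := by
    refine W3.trans (mul_le_mul_of_nonneg_left (mul_le_mul_of_nonneg_left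
      (mul_le_mul_of_nonneg_right ?_ hmf) hFm) (n0 a e))
    have := mul_le_mul_of_nonneg_right hu1 ht.1
    linarith
  have j1 := mul_le_mul_of_nonneg_right W1 (add_nonneg hA1 hB1)
  have j2 := mul_le_mul_of_nonneg_right W2 hR0
  have j5 := mul_le_mul_of_nonneg_right W4 hT0
  have j3 := mul_le_mul_of_nonneg_right W3 hH
  have c0 : 0 ≤ xr x P a b * (xr x P b d * g b d) :=
    mul_nonneg (n0 a b) (mul_nonneg (n0 b d) (g0 b d))
  have j4 := mul_le_mul_of_nonneg_left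
    (tot.trans (add_le_add (add_le_add (add_le_add j1 j2) j5) j3)) c0
  refine j4.trans (le_of_eq ?_)
  ring

end Pool.Agent.RX.RCN.K
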