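import Pool.Agent.RX.RCG.CtA
import Pool.Agent.RX.RCM.GrL

/-! The rate of the second type at a fixed time: the total (MP_73ccd0_lc, route M). -/

namespace Pool.Agent.RX.RCN.K

open Set Finset MeasureTheory Pool.Agent.RX.RCG Pool.Agent.RX.RCG.Ct

open Pool.Agent.RX.RCM

set_option linter.unusedSectionVars false

variable {V : Type*} [Fintype V] [DecidableEq V]
variable {x : V → V → ℝ} {P : V → Prop} [DecidablePred P] {N : ℕ}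

variable {sl : ℝ → ℝ → ℝ} {bw : ℝ} {B Bd : ℝ → ℝ → ℝ} {M : ℝ → ℝ}
variable {κd : ℝ → ℝ → ℝ → ℝ} {R : V → V → V → ℝ → ℝ → ℝ} {L Lt : V → V → V → V → ℝ → ℝ → ℝ}
variable {t s : ℝ} {T' Y τ lam ν : ℝ → ℝ} {a : V} {g : V → V → ℝ}
variable {A F m ρ δ : ℝ} {Rm RD RT : V → V → V → ℝ}

/-- the scalar conditions of the first chain; `c` is the constant of the common neighbours -/
structure ChA (Bd B : ℝ → ℝ → ℝ) (M : ℝ → ℝ) (t c : ℝ) (T' Y τ lam ν : ℝ → ℝ) (Am Ac : ℝ)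
    (G : ℝ → ℝ) : Prop where
  A0 : 0 ≤ Am
  Ac0 : 0 ≤ Ac
  cG : ContinuousOn G (Icc 0 t)
  le : ∀ r ∈ Icc 0 t, ∃ σ lm : ℝ, 0 < σ ∧ 0 < lm ∧
    Real.exp (2 * Y r) * (1 / 2 * ((σ * Am * (lam r * Bd t r * M r)
        + lm * (lam r * B t r ^ 2) * ((t + T' r) * Ac / 4)) * c
        + (Bd t r / σ + (t + T' r) * ν r * M r / lm) * Real.exp (2 * τ r))) ≤ G r

/-- the scalar conditions of the second chain -/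
structure ChB (Bd B : ℝ → ℝ → ℝ) (M : ℝ → ℝ) (t s c : ℝ) (Y lam : ℝ → ℝ)
    (Am Ac : ℝ → ℝ) (Pc : ℝ → ℝ → ℝ) (G : ℝ → ℝ) : Prop where
  A0 : ∀ r ∈ Icc 0 s, 0 ≤ Am r
  Ac0 : ∀ r ∈ Icc 0 s, 0 ≤ Ac r
  P0 : ∀ r ∈ Icc 0 s, ∀ v ∈ Icc (0 : ℝ) 1, 0 ≤ Pc r v
  Pm : ∀ r ∈ Icc 0 s, ∀ v ∈ Icc (0 : ℝ) 1, ∀ z ∈ Icc (0 : ℝ) 1, z ≤ v → Pc r z ≤ Pc r v
  PA : ∀ r ∈ Icc 0 s, ∀ v ∈ Icc (0 : ℝ) 1, Pc r v * (1 - v) ≤ Ac r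
  cG : ContinuousOn G (Icc 0 s)
  le : ∀ r ∈ Icc 0 s, ∃ σ lm : ℝ, 0 < σ ∧ 0 < lm ∧
    Real.exp (2 * Y r) * (1 / 2 * ((σ * Am r * (lam r * 1 * B s r)
        + lm * (lam r * M r ^ 2) * (t * Ac r / 4)) * c
        + (1 * Bd s r / σ + t * (1 / 4) * B s r * Bd s r / lm))) ≤ G r

/-- the bounds of the amplitudes -/
structure Ga (x : V → V → ℝ) (P : V → Prop) [DecidablePred P] (g : V → V → ℝ) (a : V)
    (t s : ℝ) (T' τ : ℝ → ℝ) (Am Ac : ℝ) (AmB : ℝ → ℝ) (Pc : ℝ → ℝ → ℝ) : Prop where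
  g0 : ∀ b d, 0 ≤ g b d
  p : ∀ b d, Gr.D3 a b d →
      (g b d * (1 + xr x P a b * t) * (1 - xr x P a d)) ^ 2 * (1 - xr x P b d) ≤ Am
  pc : ∀ b d, Gr.D3 a b d → (g b d * (1 + xr x P a b * t) * (1 - xr x P a d)) ^ 2 ≤ Ac
  pB : ∀ r ∈ Icc 0 s, ∀ b d, Gr.D3 a b d → (g b d * (1 + xr x P a b * t)
      * Real.exp (xr x P b d * T' r + xr x P a d * τ r)
      * (1 - xr x P a d)) ^ 2 * (1 - xr x P b d) ≤ AmB r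
  pcB : ∀ r ∈ Icc 0 s, ∀ b d, Gr.D3 a b d → (g b d * (1 + xr x P a b * t)
      * Real.exp (xr x P b d * T' r + xr x P a d * τ r)
      * (1 - xr x P a d)) ^ 2 ≤ Pc r (xr x P b d)

/-- the bounds of the sums of the other parts of the closures -/
structure Rw (x : V → V → ℝ) (P : V → Prop) [DecidablePred P] (g : V → V → ℝ) (a : V)
    (t : ℝ) (Rm : V → V → V → ℝ) (rI rII : ℝ) : Prop where
  I0 : 0 ≤ rI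
  I : ∀ b d, Gr.D3 a b d → (g b d * (1 + t)) ^ 2 * (1 - xr x P a d)
      * ∑ e ∈ ({a, b, d} : Finset V)ᶜ, Rm b d e ≤ rI
  II : ∃ Ms : V → V → ℝ, (∀ d e, 0 ≤ Ms d e) ∧
    (∀ b d e, Gr.D3 a b d → Gr.D3 a d e → b ≠ e → Rm b d e ≤ Ms d e) ∧
    ∀ e, e ≠ a → ∑ d ∈ ({a, e} : Finset V)ᶜ, Ms d e ≤ rII * (1 - xr x P a e)

end Pool.Agent.RX.RCN.K
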