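import Pool.Agent.RX.RCN.Pd
import Pool.Agent.RX.RCN.T2t
import Pool.Agent.RX.RCN.T2u_1

/-! The bounds of the closures of the second type from the classes (MP_73ccd0_lc, route M). -/

namespace Pool.Agent.RX.RCN.K

open Set Finset MeasureTheory Pool.Agent.RX.RCRSHalf Pool.Agent.RX.RCG Pool.Agent.RX.RCG.Ct
open Pool.Agent.RX.RCN.Ker Pool.Agent.RX.RCM

set_option linter.unusedSectionVars false

/-! ### interpolation -/

theorem bl_add {ε : ℝ} {σ : ℕ → ℝ} {s : ℝ} (c : ℝ) (f : ℕ → ℝ) (n : ℕ) :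
    ∀ j, bl ε σ (fun i => c + f i) s n j = c + bl ε σ f s n j := by
  induction n with
  | zero => exact fun j => rfl
  | succ n ih =>
    intro j
    rw [bl_succ, bl_succ, ih]
    ring

variable {V : Type*} [Fintype V] [DecidableEq V]
variable {x : V → V → ℝ} {P : V → Prop} [DecidablePred P] {C : Cx V}

/-- the interpolation of the functions of the active classes -/
noncomputable def blc (C : Cx V) (t s : ℝ) (f : ℕ → ℝ) : ℝ :=
  bl C.ε (C.sg (ci C.N t)) (fun j => if s ≤ C.sg (ci C.N t) j then f j else 0) s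
    (C.M (ci C.N t)) 0

section blend

variable {t s : ℝ}

/-- the class `j` is active -/
def Act (C : Cx V) (t s : ℝ) (j : ℕ) : Prop := j ≤ C.M (ci C.N t) ∧ s ≤ C.sg (ci C.N t) j

theorem blc_nonneg {f : ℕ → ℝ} (h : ∀ j, Act C t s j → 0 ≤ f j) : 0 ≤ blc C t s f := by
  unfold blc
  refine bl_nonneg _ _ fun i _ hi => ?_
  split_ifs with h1
  · exact h i ⟨by omega, h1⟩
  · exact le_rfl

theorem blc_le {f : ℕ → ℝ} {c : ℝ} (hε : 0 < C.ε) (hs : s ≤ C.sg (ci C.N t) (C.M (ci C.N t)))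
    (h : ∀ j, Act C t s j → f j ≤ c) : blc C t s f ≤ c := by
  unfold blc
  refine bl_le hε _ _ fun i _ hi hsi _ => ?_
  have h1 : s ≤ C.sg (ci C.N t) i := by
    rcases Nat.lt_or_ge i (C.M (ci C.N t)) with h2 | h2
    · exact hsi (by omega)
    · have : i = C.M (ci C.N t) := by omega
      rw [this]; exact hs
  rw [if_pos h1]
  exact h i ⟨by omega, h1⟩

theorem blc_mono {f g : ℕ → ℝ} (hε : 0 < C.ε) (hs : s ≤ C.sg (ci C.N t) (C.M (ci C.N t)))
    (h : ∀ j, Act C t s j → f j ≤ g j) : blc C t s f ≤ blc C t s g := by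
  unfold blc
  refine bl_mono hε _ _ fun i _ hi hsi => ?_
  have h1 : s ≤ C.sg (ci C.N t) i := by
    rcases Nat.lt_or_ge i (C.M (ci C.N t)) with h2 | h2
    · exact hsi (by omega)
    · have : i = C.M (ci C.N t) := by omega
      rw [this]; exact hs
  rw [if_pos h1, if_pos h1]
  exact h i ⟨by omega, h1⟩

theorem blc_sum {ι : Type*} (U : Finset ι) (f : ι → ℕ → ℝ) :
    ∑ q ∈ U, blc C t s (f q) = blc C t s fun j => ∑ q ∈ U, f q j := by
  unfold blc
  have h1 := bl_sum (ε := C.ε) (σ := C.sg (ci C.N t)) (s := s) U (fun _ => 1)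
    (fun q j => if s ≤ C.sg (ci C.N t) j then f q j else 0) (C.M (ci C.N t)) 0
  simp only [one_mul] at h1
  rw [h1]
  congr 1
  funext j
  split_ifs
  · rfl
  · exact Finset.sum_const_zero

/-- the exponents of the closures from the active classes -/
theorem Lc_blc (hε : 0 < C.ε) (hs : s ≤ C.sg (ci C.N t) (C.M (ci C.N t))) {a b c d : V}
    {K0 : ℝ} {X : ℕ → ℝ} (hK : 0 ≤ K0) (hX : ∀ j, Act C t s j → 0 ≤ X j)
    (h : ∀ j, Act C t s j → C.L (ci C.N t) j a b c d t s ≤ K0 + X j) :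
    Lc P C a b c d t s ≤ K0 + blc C t s X := by
  have h0 := blc_nonneg hX
  unfold Lc
  split_ifs
  · have h1 : bl C.ε (C.sg (ci C.N t)) (fun j => max 0 (C.L (ci C.N t) j a b c d t
        (min s (C.sg (ci C.N t) j)))) s (C.M (ci C.N t)) 0
        ≤ bl C.ε (C.sg (ci C.N t)) (fun j => K0 + (if s ≤ C.sg (ci C.N t) j then X j else 0)) s
          (C.M (ci C.N t)) 0 := by
      refine bl_mono hε _ _ fun i _ hi hsi => ?_
      have h1 : s ≤ C.sg (ci C.N t) i := by
        rcases Nat.lt_or_ge i (C.M (ci C.N t)) with h2 | h2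
        · exact hsi (by omega)
        · have : i = C.M (ci C.N t) := by omega
          rw [this]; exact hs
      have ha : Act C t s i := ⟨by omega, h1⟩
      rw [if_pos h1, min_eq_left h1]
      exact max_le (add_nonneg hK (hX i ha)) (h i ha)
    rw [bl_add] at h1
    exact h1
  · exact add_nonneg hK h0

theorem Lr_blc (hε : 0 < C.ε) (hs : s ≤ C.sg (ci C.N t) (C.M (ci C.N t))) {a b c d : V}
    {K0 : ℝ} {X : ℕ → ℝ} (hK : 0 ≤ K0) (hX : ∀ j, Act C t s j → 0 ≤ X j)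
    (h : ∀ j, Act C t s j → C.Lt (ci C.N t) j a b c d t s ≤ K0 + X j) :
    Lr P C a b c d t s ≤ K0 + blc C t s X := by
  have h0 := blc_nonneg hX
  unfold Lr
  split_ifs
  · have h1 : bl C.ε (C.sg (ci C.N t)) (fun j => max 0 (C.Lt (ci C.N t) j a b c d t
        (min s (C.sg (ci C.N t) j)))) s (C.M (ci C.N t)) 0
        ≤ bl C.ε (C.sg (ci C.N t)) (fun j => K0 + (if s ≤ C.sg (ci C.N t) j then X j else 0)) s
          (C.M (ci C.N t)) 0 := by
      refine bl_mono hε _ _ fun i _ hi hsi => ?_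
      have h1 : s ≤ C.sg (ci C.N t) i := by
        rcases Nat.lt_or_ge i (C.M (ci C.N t)) with h2 | h2
        · exact hsi (by omega)
        · have : i = C.M (ci C.N t) := by omega
          rw [this]; exact hs
      have ha : Act C t s i := ⟨by omega, h1⟩
      rw [if_pos h1, min_eq_left h1]
      exact max_le (add_nonneg hK (hX i ha)) (h i ha)
    rw [bl_add] at h1
    exact h1
  · exact add_nonneg hK h0

end blend

/-! ### the leading parts -/

variable {Z : Hzd} {sl : ℝ → ℝ → ℝ} {F : Lz V} {t s : ℝ} {T' Y τ : ℝ → ℝ} {a : V}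

/-- the exponents of level 0 in the world `{b, a}` -/
structure Yb (F : Lz V) (x : V → V → ℝ) (T' Y τ : ℝ → ℝ) (a b : V) (t s : ℝ) : Prop where
  c : ∀ v, ContinuousOn (F.y2 t s v) (Icc 0 t)
  le : ∀ v, v ∉ ({b, a} : Finset V) → ∀ r ∈ Icc 0 t,
    F.y2 t s v r ≤ Y r + x b v * T' r + x a v * τ r

theorem N2_le_NA (hZ : Z.Ok sl) (hx : Wt x P 1) (ht : t ∈ Icc (0 : ℝ) bt) (hs : s ∈ Icc 0 t)
    (cT : ContinuousOn T' (Icc 0 t)) (cY : ContinuousOn Y (Icc 0 t))
    (cτ : ContinuousOn τ (Icc 0 t)) {b d e : V} (hy : Yb F x T' Y τ a b t s)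
    (he : e ∉ ({b, a} : Finset V)) :
    N2 Z F x P {b, a} t s t d e 0 ≤ NA Z x P T' Y τ a t b d e := by
  have h01 : Icc (0 : ℝ) t ⊆ Icc 0 bt := Icc_subset_Icc_right ht.2
  unfold N2 NA
  rw [RCM.bk_eq ⟨le_rfl, ht.1⟩]
  refine intervalIntegral.integral_mono_on ht.1 (iiC ht.1 ?_) (iiC ht.1 ?_) fun r hr => ?_
  · refine continuousOn_finsetSum _ fun f _ => ContinuousOn.mul ?_ ((hZ.Dd_cont hx t d f).mono h01)
    exact ((hZ.hh_cont hx e f).mono h01).mul
      (Real.continuous_exp.comp_continuousOn ((hy.c e).add (hy.c f)))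
  · refine continuousOn_finsetSum _ fun f _ => ContinuousOn.mul (ContinuousOn.mul
      ((hZ.hh_cont hx e f).mono h01) ?_) ((hZ.Dd_cont hx t d f).mono h01)
    unfold exq
    exact Real.continuous_exp.comp_continuousOn (((continuousOn_const.mul cY).add
      (continuousOn_const.mul cT)).add (continuousOn_const.mul cτ))
  · have hr1 : r ∈ Icc (0 : ℝ) bt := h01 hr
    have key : ∀ f ∈ (({b, a} : Finset V)ᶜ).erase d,
        K2 Z F x P t s r e f * Z.Dd x P t d f r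
        ≤ Z.hh x P r e f * exq x (Y r) (T' r) (τ r) a b e f * Z.Dd x P t d f r := by
      intro f hf
      have hf' : f ∉ ({b, a} : Finset V) := Finset.mem_compl.1 (Finset.mem_of_mem_erase hf)
      refine mul_le_mul_of_nonneg_right (mul_le_mul_of_nonneg_left (Real.exp_le_exp.2 ?_)
        (hZ.hh_nonneg hx hr1 e f)) (hZ.Dd_nonneg hx ht d f hr)
      have h1 := hy.le e he r hr
      have h2 := hy.le f hf' r hr
      linarith
    refine (Finset.sum_le_sum key).trans ?_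
    have sub : ({a, b, d, e} : Finset V)ᶜ ⊆ (({b, a} : Finset V)ᶜ).erase d := by
      intro z hz
      simp only [Finset.mem_compl, Finset.mem_insert, Finset.mem_singleton, not_or,
        Finset.mem_erase] at hz ⊢
      tauto
    refine le_of_eq (Finset.sum_subset sub fun f hf hf2 => ?_).symm
    have hfe : f = e := by
      simp only [Finset.mem_compl, Finset.mem_insert, Finset.mem_singleton, not_or,
        Finset.mem_erase] at hf hf2
      tauto
    rw [hfe, Hzd.hh_zero (hx.diag e), zero_mul, zero_mul]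

theorem N2_le_NB (hZ : Z.Ok sl) (hx : Wt x P 1) (ht : t ∈ Icc (0 : ℝ) bt) (hs : s ∈ Icc 0 t)
    (cT : ContinuousOn T' (Icc 0 t)) (cY : ContinuousOn Y (Icc 0 t))
    (cτ : ContinuousOn τ (Icc 0 t)) {b d e : V} (hy : Yb F x T' Y τ a b t s)
    (hd : d ∉ ({b, a} : Finset V)) :
    N2 Z F x P {b, a} t s s e d 0 ≤ NB Z x P T' Y τ a s b d e := by
  have hs1 : s ∈ Icc (0 : ℝ) bt := ⟨hs.1, hs.2.trans ht.2⟩
  have h01 : Icc (0 : ℝ) s ⊆ Icc 0 bt := Icc_subset_Icc_right hs1.2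
  have h0t : Icc (0 : ℝ) s ⊆ Icc 0 t := Icc_subset_Icc_right hs.2
  unfold N2 NB
  rw [RCM.bk_eq ⟨le_rfl, hs.1⟩]
  refine intervalIntegral.integral_mono_on hs.1 (iiC hs.1 ?_) (iiC hs.1 ?_) fun r hr => ?_
  · refine continuousOn_finsetSum _ fun f _ => ContinuousOn.mul ?_ ((hZ.Dd_cont hx s e f).mono h01)
    exact ((hZ.hh_cont hx d f).mono h01).mul
      (Real.continuous_exp.comp_continuousOn (((hy.c d).mono h0t).add ((hy.c f).mono h0t)))
  · refine continuousOn_finsetSum _ fun f _ => ContinuousOn.mul (ContinuousOn.mul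
      ((hZ.hh_cont hx d f).mono h01) ?_) ((hZ.Dd_cont hx s e f).mono h01)
    unfold exq
    exact Real.continuous_exp.comp_continuousOn (((continuousOn_const.mul (cY.mono h0t)).add
      (continuousOn_const.mul (cT.mono h0t))).add (continuousOn_const.mul (cτ.mono h0t)))
  · have hr1 : r ∈ Icc (0 : ℝ) bt := h01 hr
    have key : ∀ f ∈ (({b, a} : Finset V)ᶜ).erase e,
        K2 Z F x P t s r d f * Z.Dd x P s e f r
        ≤ Z.hh x P r d f * exq x (Y r) (T' r) (τ r) a b d f * Z.Dd x P s e f r := by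
      intro f hf
      have hf' : f ∉ ({b, a} : Finset V) := Finset.mem_compl.1 (Finset.mem_of_mem_erase hf)
      refine mul_le_mul_of_nonneg_right (mul_le_mul_of_nonneg_left (Real.exp_le_exp.2 ?_)
        (hZ.hh_nonneg hx hr1 d f)) (hZ.Dd_nonneg hx hs1 e f hr)
      have h1 := hy.le d hd r (h0t hr)
      have h2 := hy.le f hf' r (h0t hr)
      linarith
    refine (Finset.sum_le_sum key).trans ?_
    have sub : ({a, b, d, e} : Finset V)ᶜ ⊆ (({b, a} : Finset V)ᶜ).erase e := by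
      intro z hz
      simp only [Finset.mem_compl, Finset.mem_insert, Finset.mem_singleton, not_or,
        Finset.mem_erase] at hz ⊢
      tauto
    refine le_of_eq (Finset.sum_subset sub fun f hf hf2 => ?_).symm
    have hfe : f = d := by
      simp only [Finset.mem_compl, Finset.mem_insert, Finset.mem_singleton, not_or,
        Finset.mem_erase] at hf hf2
      tauto
    rw [hfe, Hzd.hh_zero (hx.diag d), zero_mul, zero_mul]

/-! ### the bounds of the closures -/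

variable {g : V → V → ℝ} {rI rII rT rTT : ℝ}

/-- the other parts of the exponents in one class: `X` in the worlds `{b, a}`, `Ms` without `b` -/
structure Xc (Z : Hzd) (x : V → V → ℝ) (P : V → Prop) [DecidablePred P] (C : Cx V)
    (T' Y τ : ℝ → ℝ) (g : V → V → ℝ) (a : V) (t s rI rII rT rTT δ : ℝ) (j : ℕ)
    (X Xt : V → V → V → ℝ) (Ms Mt : V → V → ℝ) : Prop where
  x0 : ∀ b d e, 0 ≤ X b d e
  m0 : ∀ d e, 0 ≤ Ms d e
  xt0 : ∀ b d e, 0 ≤ Xt b d e
  mt0 : ∀ d e, 0 ≤ Mt d e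
  l : ∀ b d e, P b → P d → P e → Gr.D3 a b d → e ∈ ({a, b, d} : Finset V)ᶜ →
    C.L (ci C.N t) j b a d e t s
      ≤ NA Z x P T' Y τ a t b d e + NB Z x P T' Y τ a s b d e + X b d e
  lt : ∀ b d e, P b → P d → P e → Gr.D3 a b d → e ∈ ({a, b, d} : Finset V)ᶜ →
    C.Lt (ci C.N t) j b a d e t s
      ≤ NA Z x P T' Y τ a t b d e + NB Z x P T' Y τ a s b d e + Xt b d e + x d e * δ
  I : ∀ b d, Gr.D3 a b d → (g b d * (1 + t)) ^ 2 * (1 - xr x P a d)
      * ∑ e ∈ ({a, b, d} : Finset V)ᶜ, X b d e ≤ rI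
  le : ∀ b d e, Gr.D3 a b d → Gr.D3 a d e → b ≠ e → X b d e ≤ Ms d e
  II : ∀ e, e ≠ a → ∑ d ∈ ({a, e} : Finset V)ᶜ, Ms d e ≤ rII * (1 - xr x P a e)
  It : ∀ b d, Gr.D3 a b d → (g b d * (1 + t)) ^ 2 * (1 - xr x P a d)
      * ∑ e ∈ ({a, b, d} : Finset V)ᶜ, Xt b d e ≤ rT
  lt' : ∀ b d e, Gr.D3 a b d → Gr.D3 a d e → b ≠ e → Xt b d e ≤ Mt d e
  IIt : ∀ e, e ≠ a → ∑ d ∈ ({a, e} : Finset V)ᶜ, Mt d e ≤ rTT * (1 - xr x P a e)

theorem exq_pos (Y T' τ : ℝ) (a b e f : V) : 0 < exq x Y T' τ a b e f := Real.exp_pos _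

theorem NA_nonneg (hZ : Z.Ok sl) (hx : Wt x P 1) (ht : t ∈ Icc (0 : ℝ) bt) (b d e : V) :
    0 ≤ NA Z x P T' Y τ a t b d e :=
  intervalIntegral.integral_nonneg ht.1 fun r hr => Finset.sum_nonneg fun f _ =>
    mul_nonneg (mul_nonneg (hZ.hh_nonneg hx ⟨hr.1, hr.2.trans ht.2⟩ e f) (exq_pos _ _ _ _ _ _ _).le)
      (hZ.Dd_nonneg hx ht d f hr)

theorem NB_nonneg (hZ : Z.Ok sl) (hx : Wt x P 1) (hs : s ∈ Icc (0 : ℝ) bt) (b d e : V) :
    0 ≤ NB Z x P T' Y τ a s b d e :=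
  intervalIntegral.integral_nonneg hs.1 fun r hr => Finset.sum_nonneg fun f _ =>
    mul_nonneg (mul_nonneg (hZ.hh_nonneg hx ⟨hr.1, hr.2.trans hs.2⟩ d f) (exq_pos _ _ _ _ _ _ _).le)
      (hZ.Dd_nonneg hx hs e f hr)

/-- the class parts of the sums -/
theorem rwc_of (hx : Wt x P 1) (hε : 0 < C.ε)
    (hsg : s ≤ C.sg (ci C.N t) (C.M (ci C.N t)))
    (hrI : 0 ≤ rI) {X : ℕ → V → V → V → ℝ} {Ms : ℕ → V → V → ℝ}
    (x0 : ∀ j, Act C t s j → ∀ b d e, 0 ≤ X j b d e)
    (m0 : ∀ j, Act C t s j → ∀ d e, 0 ≤ Ms j d e)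
    (I : ∀ j, Act C t s j → ∀ b d, Gr.D3 a b d → (g b d * (1 + t)) ^ 2 * (1 - xr x P a d)
      * ∑ e ∈ ({a, b, d} : Finset V)ᶜ, X j b d e ≤ rI)
    (le : ∀ j, Act C t s j → ∀ b d e, Gr.D3 a b d → Gr.D3 a d e → b ≠ e → X j b d e ≤ Ms j d e)
    (II : ∀ j, Act C t s j → ∀ e, e ≠ a → ∑ d ∈ ({a, e} : Finset V)ᶜ, Ms j d e
      ≤ rII * (1 - xr x P a e)) :
    Rw x P g a t (fun b d e => blc C t s fun j => X j b d e) rI rII := by
  refine ⟨hrI, fun b d h3 => ?_, fun d e => blc C t s fun j => Ms j d e,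
      fun d e => blc_nonneg fun j hj => m0 j hj d e,
      fun b d e h3 h3' hbe => blc_mono hε hsg fun j hj => le j hj b d e h3 h3' hbe,
      fun e he => ?_⟩
  · rw [blc_sum]
    set w := (g b d * (1 + t)) ^ 2 * (1 - xr x P a d) with hw
    have hw0 : 0 ≤ w := mul_nonneg (sq_nonneg _) (sub_nonneg.2 ((wg_xr hx).le_one a d))
    rcases eq_or_lt_of_le hw0 with h0 | h0
    · rw [← h0, zero_mul]; exact hrI
    · have h1 : blc C t s (fun j => ∑ e ∈ ({a, b, d} : Finset V)ᶜ, X j b d e) ≤ rI / w :=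
        blc_le hε hsg fun j hj => by
          rw [le_div_iff₀ h0, mul_comm]
          exact I j hj b d h3
      have h2 := mul_le_mul_of_nonneg_left h1 hw0
      rwa [mul_div_cancel₀ _ h0.ne'] at h2
  · rw [blc_sum]
    exact blc_le hε hsg fun j hj => II j hj e he

/-- **from the classes to the bounds of the closures of the second type** -/
theorem lb_rw (hZ : Z.Ok sl) (hx : Wt x P 1) (hε : 0 < C.ε)
    (hsg : s ≤ C.sg (ci C.N t) (C.M (ci C.N t))) (ht : t ∈ Icc (0 : ℝ) bt) (hs : s ∈ Icc 0 t)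
    (hrI : 0 ≤ rI) (hrT : 0 ≤ rT) {δ : ℝ} (hδ : 0 ≤ δ) {X Xt : ℕ → V → V → V → ℝ}
    {Ms Mt : ℕ → V → V → ℝ}
    (h : ∀ j, Act C t s j →
      Xc Z x P C T' Y τ g a t s rI rII rT rTT δ j (X j) (Xt j) (Ms j) (Mt j)) :
    Lb Z x P (Lc P (C.pd x P)) (Lr P (C.pd x P)) T' Y τ a t s
        (fun b d e => blc C t s fun j => X j b d e) (fun b d e => blc C t s fun j => Xt j b d e) δ ∧
      Rw x P g a t (fun b d e => blc C t s fun j => X j b d e) rI rII ∧
      Rw x P g a t (fun b d e => blc C t s fun j => Xt j b d e) rT rTT := by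
  have hs1 : s ∈ Icc (0 : ℝ) bt := ⟨hs.1, hs.2.trans ht.2⟩
  have hH0 : ∀ d e, 0 ≤ x d e * δ := fun d e => mul_nonneg (hx.nonneg d e) hδ
  refine ⟨?_, rwc_of hx hε hsg hrI (fun j hj => (h j hj).x0) (fun j hj => (h j hj).m0)
    (fun j hj => (h j hj).I) (fun j hj => (h j hj).le) (fun j hj => (h j hj).II),
    rwc_of hx hε hsg hrT (fun j hj => (h j hj).xt0) (fun j hj => (h j hj).mt0)
    (fun j hj => (h j hj).It) (fun j hj => (h j hj).lt') (fun j hj => (h j hj).IIt)⟩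
  refine ⟨hδ, fun b d e => Lc_nonneg _ _ _ _ _ _, fun b d e => Lr_nonneg _ _ _ _ _ _,
      fun b d e hPe hae => Lc_pend hPe hae t s,
      fun b d e => blc_nonneg fun j hj => (h j hj).x0 b d e,
      fun b d e => blc_nonneg fun j hj => (h j hj).xt0 b d e,
      fun b d e hb hd he h3 hmem => ?_, fun b d e hb hd he h3 hmem => ?_⟩
  · rw [(Lc_pd he t s).1]
    refine Lc_blc hε hsg (add_nonneg (NA_nonneg hZ hx ht b d e) (NB_nonneg hZ hx hs1 b d e))
      (fun j hj => (h j hj).x0 b d e) fun j hj => (h j hj).l b d e hb hd he h3 hmem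
  · rw [(Lc_pd he t s).2]
    have key := Lr_blc (P := P) (a := b) (b := a) (c := d) (d := e) hε hsg
      (add_nonneg (add_nonneg (NA_nonneg (Y := Y) (T' := T') (τ := τ) (a := a) hZ hx ht b d e)
        (NB_nonneg (Y := Y) (T' := T') (τ := τ) (a := a) hZ hx hs1 b d e)) (hH0 d e))
      (fun j hj => (h j hj).xt0 b d e) fun j hj => by
        have := (h j hj).lt b d e hb hd he h3 hmem
        linarith
    linarith

end Pool.Agent.RX.RCN.K
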