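import Pool.Agent.RX.RCM9.DatZ
import Pool.Agent.RX.RCN.Ins
import Pool.Agent.RX.RCN.T1E
import Pool.Agent.RX.RCN.T2x

/-! The first part of the inequality of the centres: the world of `a`, `b`
(MP_73ccd0_lc, route M). -/

namespace Pool.Agent.RX.RCN.K

open Set Finset MeasureTheory Pool.Agent.RX.RCRSHalf Pool.Agent.RX.RCG Pool.Agent.RX.RCG.Ct
open Pool.Agent.RX.RCN.Ker Pool.Agent.RX.RCRS Pool.Agent.RX.RCM9 Pool.Agent.RX.RCM9.Bern Pool.Agent.RX.RCM9.Pk

set_option linter.unusedSectionVars false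

variable {V : Type*} [Fintype V] [DecidableEq V] {x : V → V → ℝ} {P : V → Prop}
  [DecidablePred P] {a b : V} {Z : Hzd} {F : Lz V} {sl : ℝ → ℝ → ℝ} {C : Cx V}
  {t s : ℝ}

/-! ### the rates -/

/-- the rates divided by the weights -/
theorem hh_one (hx : Wt x P 1) {r : ℝ} (hr : 0 ≤ r)
    (h1 : ∀ y ∈ Icc (0 : ℝ) 1, Z.rr y r * (1 - y) ≤ 1) (u v : V) :
    Z.hh x P r u v * (1 - x u v) ≤ x u v := by
  have hm := xw_mem hx u v
  unfold Hzd.hh
  split_ifs
  · calc x u v * Z.rr (x u v) r * (1 - x u v) = x u v * (Z.rr (x u v) r * (1 - x u v)) := by ring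
      _ ≤ x u v * 1 := mul_le_mul_of_nonneg_left (h1 _ hm) hm.1
      _ = x u v := mul_one _
  · have i0 : 0 ≤ (1 + r)⁻¹ := inv_nonneg.2 (by linarith)
    have i1 : (1 + r)⁻¹ ≤ 1 := inv_le_one_of_one_le₀ (by linarith)
    calc x u v * (1 + r)⁻¹ * (1 - x u v) = x u v * ((1 + r)⁻¹ * (1 - x u v)) := by ring
      _ ≤ x u v * 1 := mul_le_mul_of_nonneg_left
          (mul_le_one₀ i1 (by linarith [hm.2]) (by linarith [hm.1])) hm.1
      _ = x u v := mul_one _

/-- `(1 - q) e^{q δ}` decreases -/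
theorem gdec {v q δ : ℝ} (hvq : v ≤ q) (q1 : q ≤ 1) (v0 : 0 ≤ v) (d1 : δ ≤ 1) :
    (1 - q) * Real.exp (q * δ) ≤ (1 - v) * Real.exp (v * δ) := by
  have e1 : Real.exp (q * δ) = Real.exp (v * δ) * Real.exp ((q - v) * δ) := by
    rw [← Real.exp_add]; congr 1; ring
  have h1 : (1 - q) * Real.exp ((q - v) * δ) ≤ 1 - v := by
    have h2 : Real.exp ((q - v) * δ) ≤ Real.exp (q - v) :=
      Real.exp_le_exp.2 (mul_le_of_le_one_right (by linarith) d1)
    have h3 : 1 - (q - v) ≤ Real.exp (-(q - v)) := by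
      have := Real.add_one_le_exp (-(q - v))
      linarith
    have h4 : 1 - q ≤ (1 - v) * (1 - (q - v)) := by nlinarith
    calc (1 - q) * Real.exp ((q - v) * δ) ≤ (1 - q) * Real.exp (q - v) :=
          mul_le_mul_of_nonneg_left h2 (by linarith)
      _ ≤ (1 - v) * (1 - (q - v)) * Real.exp (q - v) :=
          mul_le_mul_of_nonneg_right h4 (Real.exp_pos _).le
      _ ≤ (1 - v) * Real.exp (-(q - v)) * Real.exp (q - v) :=
          mul_le_mul_of_nonneg_right (mul_le_mul_of_nonneg_left h3 (by linarith))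
            (Real.exp_pos _).le
      _ = 1 - v := by rw [mul_assoc, ← Real.exp_add, neg_add_cancel, Real.exp_zero, mul_one]
  rw [e1]
  have := mul_le_mul_of_nonneg_left h1 (Real.exp_pos (v * δ)).le
  linarith

/-- the rate against the exponential of the level -/
theorem rwe_of {R v q δ v0 m : ℝ} (R0 : 0 ≤ R) (hm : R ≤ v * m) (h1 : R * (1 - v) ≤ v)
    (hv : 0 ≤ v) (hvq : v ≤ q) (q1 : q ≤ 1) (d0 : 0 ≤ δ) (d1 : δ ≤ 1) (v00 : 0 ≤ v0)
    (hmv : m * (1 - v0) ≤ 1) : R * ((1 - q) * Real.exp (q * δ)) ≤ v * Real.exp (v0 * δ) := by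
  refine (mul_le_mul_of_nonneg_left (gdec hvq q1 hv d1) R0).trans ?_
  rcases le_total v v0 with h | h
  · have h2 : Real.exp (v * δ) ≤ Real.exp (v0 * δ) :=
      Real.exp_le_exp.2 (mul_le_mul_of_nonneg_right h d0)
    calc R * ((1 - v) * Real.exp (v * δ)) = R * (1 - v) * Real.exp (v * δ) := by ring
      _ ≤ v * Real.exp (v * δ) := mul_le_mul_of_nonneg_right h1 (Real.exp_pos _).le
      _ ≤ v * Real.exp (v0 * δ) := mul_le_mul_of_nonneg_left h2 hv
  · have h2 := gdec h (hvq.trans q1) v00 d1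
    have h3 : 0 ≤ (1 - v) * Real.exp (v * δ) :=
      mul_nonneg (by linarith) (Real.exp_pos _).le
    have h4 : 0 ≤ v * m := R0.trans hm
    calc R * ((1 - v) * Real.exp (v * δ)) ≤ v * m * ((1 - v) * Real.exp (v * δ)) :=
          mul_le_mul_of_nonneg_right hm h3
      _ ≤ v * m * ((1 - v0) * Real.exp (v0 * δ)) := mul_le_mul_of_nonneg_left h2 h4
      _ = v * (m * (1 - v0)) * Real.exp (v0 * δ) := by ring
      _ ≤ v * 1 * Real.exp (v0 * δ) := mul_le_mul_of_nonneg_right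
          (mul_le_mul_of_nonneg_left hmv hv) (Real.exp_pos _).le
      _ = _ := by rw [mul_one]

/-! ### the kernels -/

/-- the kernels of level 0 from the scalar system -/
theorem kin_of {mb : ℝ → ℝ} {θ : V → ℝ → ℝ} {Yf Y' N N' : ℝ → ℝ}
    (hL : RCM.L0s (Z.hh x P) x {a, b} t mb θ Yf Y' N N') (hx : Wt x P 1) (hab : a ≠ b)
    (ht : 0 ≤ t) (hF : F.y2 t s = RCM.yx (Z.hh x P) x {a, b} θ Yf t) {Y δ : ℝ}
    (h1 : ∀ y ∈ Icc (0 : ℝ) 1, ∀ r ∈ Icc 0 t, Z.rr y r * (1 - y) ≤ 1)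
    (hY : ∀ r ∈ Icc 0 t, Yf r ≤ Y) (ha : ∀ r ∈ Icc 0 t, θ a r ≤ Y + δ)
    (hb : ∀ r ∈ Icc 0 t, θ b r ≤ Y + δ) (d0 : 0 ≤ δ) (d1 : δ ≤ 1) :
    Kin Z F x P a b t s mb (fun _ => 1) Y δ where
  cy e := by
    rw [hF]
    exact hL.yx_cont ht e
  kp ρ hρ :=
    { h0 := fun e f => hL.b0 e f ρ hρ
      hd := fun e => Hzd.hh_zero (hx.diag e) ρ
      hs := fun e f => Hzd.hh_symm hx ρ e f
      hm := fun e f => (hL.lm e f ρ hρ).trans (le_of_eq (mul_comm _ _))
      hr := fun e f => by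
        rw [one_mul]
        exact hh_one hx hρ.1 (fun y hy => h1 y hy ρ hρ) e f
      yl := by
        intro e he
        rw [hF]
        have hx' := wt_of hx
        refine (hL.yx_le hx' ht e hρ).trans ?_
        unfold RCM.yhat
        rw [Finset.sum_pair hab, Finset.sum_pair hab]
        have w0 := hx.nonneg a e
        have v0 := hx.nonneg b e
        have hq := (two_mem hx e hab).2
        rw [hx.symm e a, hx.symm e b] at hq
        have i1 := mul_le_mul_of_nonneg_left (ha ρ hρ) w0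
        have i2 := mul_le_mul_of_nonneg_left (hb ρ hρ) v0
        have i3 := mul_le_mul_of_nonneg_left (hY ρ hρ)
          (show 0 ≤ 1 - (x a e + x b e) by linarith)
        linarith
      d0 := d0
      d1 := d1
      m0 := hL.mb0 ρ hρ
      r0 := zero_le_one }

/-- the kernels of the polynomial data -/
theorem kin_ps {p : Ps} (hp : p.Ok) (hx : Wt x P 1) (hab : a ≠ b) (ht : t ∈ Icc (0 : ℝ) bt)
    (hs : s ∈ Icc 0 t) {sg τ Y δ : ℝ}
    (h1 : ∀ y ∈ Icc (0 : ℝ) 1, ∀ r ∈ Icc 0 t, p.z.hz.rr y r * (1 - y) ≤ 1)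
    (hY : ∀ r ∈ Icc 0 t, p.y.Y t r ≤ Y) (hT : ∀ r ∈ Icc 0 t, p.z.Th t r ≤ Y + δ)
    (d0 : 0 ≤ δ) (d1 : δ ≤ 1) :
    Kin p.z.hz (p.y.lz2 p.z x P a b sg τ) x P a b t s (pv p.z.mb) (fun _ => 1) Y δ := by
  obtain ⟨Y', N, N', hL⟩ := YDat.sy2 (P := P) hp.y hp.z hp.d hx hab ht hs
  refine kin_of hL hx hab ht.1 rfl h1 hY (fun r hr => ?_) (fun r hr => ?_) d0 d1
  · show p.y.th2 p.z a t s a r ≤ _
    unfold YDat.th2
    rw [if_pos rfl]
    exact hT r hr
  · show p.y.th2 p.z a t s b r ≤ _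
    unfold YDat.th2
    rw [if_neg hab.symm]
    exact (hp.y.tb_le hp.z hs.1 hs.2 hr.1 hr.2 le_rfl ht.2).trans (hT r hr)

/-! ### the exponents -/

/-- the other parts of the exponents in the class `j` -/
structure Xw (Z : Hzd) (F : Lz V) (x : V → V → ℝ) (P : V → Prop) [DecidablePred P] (C : Cx V)
    (R : V → V → V → ℝ → ℝ → ℝ) (a b : V) (t s γ x1 x2 x2' : ℝ) (j : ℕ)
    (X Xt : V → V → ℝ) : Prop where
  x0 : ∀ d ∈ ({a, b} : Finset V)ᶜ, ∀ c ∈ ({a, b, d} : Finset V)ᶜ, 0 ≤ X c d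
  t0 : ∀ d ∈ ({a, b} : Finset V)ᶜ, ∀ c ∈ ({a, b, d} : Finset V)ᶜ, 0 ≤ Xt c d
  l : ∀ d ∈ ({a, b} : Finset V)ᶜ, P d → ∀ c ∈ ({a, b, d} : Finset V)ᶜ, P c →
    C.L (ci C.N t) j a b c d t s ≤ N2 Z F x P {a, b} t s t c d 0
      + N2 Z F x P {a, b} t s s d c 0 + X c d
  lt : ∀ d ∈ ({a, b} : Finset V)ᶜ, P d → ∀ c ∈ ({a, b, d} : Finset V)ᶜ, P c →
    C.Lt (ci C.N t) j a b c d t s ≤ N2 Z F x P {a, b} t s t c d 0
      + N2 Z F x P {a, b} t s s d c 0 + Xt c d
  r : ∀ d ∈ ({a, b} : Finset V)ᶜ, (1 + γ * x a d) * ∑ c ∈ ({a, b, d} : Finset V)ᶜ, X c d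
    ≤ x1 + (1 - x b d) * x2
  rt : ∀ d ∈ ({a, b} : Finset V)ᶜ, R a b d t s * ∑ c ∈ ({a, b, d} : Finset V)ᶜ, Xt c d
    ≤ x b d * x2'

/-- the exponents only decrease -/
theorem Lc_pd_le (hε : 0 < C.ε) (a b c d : V) (t s : ℝ) :
    Lc P (C.pd x P) a b c d t s ≤ Lc P C a b c d t s := by
  unfold Lc
  split_ifs
  · refine bl_mono hε _ _ fun i _ _ _ => ?_
    show max 0 (if Pnd x P b d then (0 : ℝ) else _) ≤ _
    split_ifs
    · rw [max_self]
      exact le_max_left _ _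
    · exact le_rfl
  · exact le_rfl

theorem Lr_pd_le (hε : 0 < C.ε) (a b c d : V) (t s : ℝ) :
    Lr P (C.pd x P) a b c d t s ≤ Lr P C a b c d t s := by
  unfold Lr
  split_ifs
  · refine bl_mono hε _ _ fun i _ _ _ => ?_
    show max 0 (if Pnd x P b d then (0 : ℝ) else _) ≤ _
    split_ifs
    · rw [max_self]
      exact le_max_left _ _
    · exact le_rfl
  · exact le_rfl

/-- **the data of the world of `a`, `b`** -/
theorem t1w_of {R : V → V → V → ℝ → ℝ → ℝ} {mb x2 x2' : ℝ → ℝ} {Y δ v0 mM x1 γ : ℝ}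
    (γ0 : 0 ≤ γ)
    (hZ : Z.Ok sl) (hx : Wt x P 1) (hab : a ≠ b) (ht : t ∈ Icc (0 : ℝ) bt) (hε : 0 < C.ε)
    (hsg : t ≤ C.sg (ci C.N t) (C.M (ci C.N t)))
    (hK : ∀ s ∈ Icc 0 t, Kin Z F x P a b t s mb (fun _ => 1) Y δ)
    (h1 : ∀ y ∈ Icc (0 : ℝ) 1, ∀ r ∈ Icc 0 t, Z.rr y r * (1 - y) ≤ 1)
    (R0 : ∀ d, ∀ s ∈ Icc 0 t, 0 ≤ R a b d t s)
    (Rh : ∀ d, ∀ s ∈ Icc 0 t, R a b d t s ≤ Z.hh x P s b d)
    (hm : ∀ s ∈ Icc 0 t, mb s ≤ mM) (v00 : 0 ≤ v0) (hmv : mM * (1 - v0) ≤ 1)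
    {X Xt : ℕ → ℝ → V → V → ℝ}
    (hX : ∀ s ∈ Icc 0 t, ∀ j, Act C t s j →
      Xw Z F x P C R a b t s γ x1 (x2 s) (x2' s) j (X j s) (Xt j s))
    (x20' : ∀ s ∈ Icc 0 t, 0 ≤ x2' s) :
    T1w Z F x P R (Lc P (C.pd x P)) (Lr P (C.pd x P))
      (fun c d s => blc C t s fun j => X j s c d) (fun c d s => blc C t s fun j => Xt j s c d)
      a b mb x2 x2' t γ Y δ (Real.exp Y * Real.exp (v0 * δ)) mM x1 := by
  have m0 : (0 : ℝ) ∈ Icc 0 t := ⟨le_rfl, ht.1⟩
  have hk0 := (hK 0 m0).kp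
  have hsg' : ∀ s ∈ Icc 0 t, s ≤ C.sg (ci C.N t) (C.M (ci C.N t)) := fun s hs =>
    hs.2.trans hsg
  have hq : ∀ d ∈ ({a, b} : Finset V)ᶜ, 0 ≤ x a d + x b d ∧ x a d + x b d ≤ 1 ∧ 0 ≤ x a d ∧
      0 ≤ x b d := fun d _ => by
    have := (two_mem hx d hab).2
    rw [hx.symm d a, hx.symm d b] at this
    exact ⟨add_nonneg (hx.nonneg a d) (hx.nonneg b d), this, hx.nonneg a d, hx.nonneg b d⟩
  have Rm : ∀ d ∈ ({a, b} : Finset V)ᶜ, ∀ s ∈ Icc 0 t, R a b d t s ≤ x b d * mM :=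
    fun d _ s hs => by
      have i1 := (Rh d s hs).trans ((hk0 s hs).hm b d)
      have i2 := mul_le_mul_of_nonneg_right (hm s hs) (hx.nonneg b d)
      linarith
  have R1 : ∀ d ∈ ({a, b} : Finset V)ᶜ, ∀ s ∈ Icc 0 t, R a b d t s * (1 - x b d) ≤ x b d :=
    fun d _ s hs => (mul_le_mul_of_nonneg_right (Rh d s hs)
      (by linarith [(x_mem hx b d).2])).trans (hh_one hx hs.1 (fun y hy => h1 y hy s hs) b d)
  have n1 : ∀ s ∈ Icc 0 t, ∀ c d, 0 ≤ N2 Z F x P {a, b} t s t c d 0 := fun s _ c d =>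
    N2_nonneg hZ hx t s ht c d
  have n2 : ∀ s ∈ Icc 0 t, ∀ c d, 0 ≤ N2 Z F x P {a, b} t s s d c 0 := fun s hs c d =>
    N2_nonneg hZ hx t s ⟨hs.1, hs.2.trans ht.2⟩ d c
  exact
    { kin := hK
      L := fun d hd hbd c hc hPc s hs => by
        by_cases hPd : P d
        · refine (Lc_pd_le hε a b c d t s).trans ?_
          exact Lc_blc hε (hsg' s hs) (add_nonneg (n1 s hs c d) (n2 s hs c d))
            (fun j hj => (hX s hs j hj).x0 d hd c hc)
            fun j hj => (hX s hs j hj).l d hd hPd c hc hPc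
        · rw [(Lc_pend (C := C) (a := a) (c := c) hPd hbd t s).1]
          exact add_nonneg (add_nonneg (n1 s hs c d) (n2 s hs c d))
            (blc_nonneg fun j hj => (hX s hs j hj).x0 d hd c hc)
      Lt := fun d hd hbd c hc hPc s hs => by
        by_cases hPd : P d
        · refine (Lr_pd_le hε a b c d t s).trans ?_
          exact Lr_blc (P := P) (a := a) (b := b) (c := c) (d := d) hε (hsg' s hs)
            (add_nonneg (n1 s hs c d) (n2 s hs c d))
            (fun j hj => (hX s hs j hj).t0 d hd c hc)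
            fun j hj => (hX s hs j hj).lt d hd hPd c hc hPc
        · rw [(Lc_pend (C := C) (a := a) (c := c) hPd hbd t s).2]
          exact add_nonneg (add_nonneg (n1 s hs c d) (n2 s hs c d))
            (blc_nonneg fun j hj => (hX s hs j hj).t0 d hd c hc)
      X0 := fun d hd c hc s hs => blc_nonneg fun j hj => (hX s hs j hj).x0 d hd c hc
      Xt0 := fun d hd c hc s hs => blc_nonneg fun j hj => (hX s hs j hj).t0 d hd c hc
      Xr := fun d hd s hs => by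
        rw [blc_sum]
        have g0 : 0 < 1 + γ * x a d := by
          have := mul_nonneg γ0 (hx.nonneg a d)
          linarith
        have h2 : blc C t s (fun j => ∑ c ∈ ({a, b, d} : Finset V)ᶜ, X j s c d)
            ≤ (x1 + (1 - x b d) * x2 s) / (1 + γ * x a d) :=
          blc_le hε (hsg' s hs) fun j hj => by
            rw [le_div_iff₀ g0, mul_comm]
            exact (hX s hs j hj).r d hd
        have h3 := mul_le_mul_of_nonneg_left h2 g0.le
        rwa [mul_div_cancel₀ _ g0.ne'] at h3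
      Xtr := fun d hd s hs => by
        rw [blc_sum]
        rcases eq_or_lt_of_le (R0 d s hs) with h | h
        · rw [← h, zero_mul]
          exact mul_nonneg (hx.nonneg b d) (x20' s hs)
        · have h2 : blc C t s (fun j => ∑ c ∈ ({a, b, d} : Finset V)ᶜ, Xt j s c d)
              ≤ (x b d * x2' s) / R a b d t s :=
            blc_le hε (hsg' s hs) fun j hj => by
              rw [le_div_iff₀ h, mul_comm]
              exact (hX s hs j hj).rt d hd
          have h3 := mul_le_mul_of_nonneg_left h2 h.le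
          rwa [mul_div_cancel₀ _ h.ne'] at h3
      R1 := R1
      Rm := Rm
      Rw := fun d hd s hs => by
        obtain ⟨q0, q1, w0, vv⟩ := hq d hd
        have key := rwe_of (δ := δ) (R0 d s hs) (Rm d hd s hs) (R1 d hd s hs) vv
          (show x b d ≤ x a d + x b d by linarith) q1 (hk0 s hs).d0 (hk0 s hs).d1 v00 hmv
        have e0 := Real.exp_pos Y
        calc R a b d t s * ((1 - (x a d + x b d))
            * (Real.exp Y * Real.exp ((x a d + x b d) * δ)))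
            = Real.exp Y * (R a b d t s * ((1 - (x a d + x b d))
              * Real.exp ((x a d + x b d) * δ))) := by ring
          _ ≤ Real.exp Y * (x b d * Real.exp (v0 * δ)) :=
              mul_le_mul_of_nonneg_left key e0.le
          _ = _ := by ring }

end Pool.Agent.RX.RCN.K
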