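import Pool.Agent.RX.RCN.CkD
import Pool.Agent.RX.RCN.T1H_1

/-! The first part of the inequality of the centres: the check of a cell
(MP_73ccd0_lc, route M). -/

namespace Pool.Agent.RX.RCN.K

open Set Finset MeasureTheory Pool.Agent.RX.RCRSHalf

open Pool.Agent.RX.RCM9 Pool.Agent.RX.RCN.Ck1

set_option linter.unusedSectionVars false

theorem int_pri (l : List ℚ) (t : ℝ) : ∫ s in (0 : ℝ)..t, pv l s = pv (pri l) t := by
  rw [intervalIntegral.integral_eq_sub_of_hasDerivAt (fun s _ => hasDerivAt_pri l s)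
    ((continuous_pv l).intervalIntegrable _ _), pri_zero, sub_zero]

theorem pv_e4 (δ : ℚ) (q : ℝ) : pv (e4 δ) q = ex4 (q * δ) := by
  simp only [e4, pv, ex4]
  push_cast
  ring

theorem e4q_cast (z : ℚ) : ((e4q z : ℚ) : ℝ) = ex4 z := by
  unfold e4q ex4
  push_cast
  ring

/-! ### soundness -/

theorem i01 {q : ℝ} (h : q ∈ Icc (0 : ℝ) 1) : q ∈ Icc ((0 : ℚ) : ℝ) ((1 : ℚ) : ℝ) := by
  simpa using h

theorem int_pv2 (a b : List ℚ) (x y t : ℝ) :
    ∫ s in (0 : ℝ)..t, (x * pv a s + y * pv b s) = x * pv (pri a) t + y * pv (pri b) t := by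
  have i1 : IntervalIntegrable (fun s => x * pv a s) volume 0 t :=
    (continuous_const.mul (continuous_pv a)).intervalIntegrable _ _
  have i2 : IntervalIntegrable (fun s => y * pv b s) volume 0 t :=
    (continuous_const.mul (continuous_pv b)).intervalIntegrable _ _
  rw [intervalIntegral.integral_add i1 i2,
    intervalIntegral.integral_const_mul, intervalIntegral.integral_const_mul, int_pri, int_pri]

theorem pv_cons (c : ℚ) (l : List ℚ) (t : ℝ) : pv (c :: l) t = (c : ℝ) + t * pv l t := rfl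

theorem pv_nil (t : ℝ) : pv [] t = 0 := rfl

end Pool.Agent.RX.RCN.K
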