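import Pool.Agent.RX.RCN.GapD
import Pool.Agent.RX.RCN.T1I

/-! The first part of the inequality of the centres: the polynomial data
(MP_73ccd0_lc, route M). -/

namespace Pool.Agent.RX.RCN.K

open Set Finset MeasureTheory Pool.Agent.RX.RCRSHalf Pool.Agent.RX.RCG Pool.Agent.RX.RCG.Ct
open Pool.Agent.RX.RCN.Ker Pool.Agent.RX.RCRS Pool.Agent.RX.RCM9 Pool.Agent.RX.RCM9.Bern Pool.Agent.RX.RCM9.Pk
open Pool.Agent.RX.RCN.Ck1

set_option linter.unusedSectionVars false

/-! ### divided differences -/

/-- the divided difference of a polynomial -/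
def dvd : List ℚ → List (List ℚ)
  | [] => []
  | _ :: l => l :: dvd l

theorem pv2_dvd (l : List ℚ) (r t : ℝ) : (t - r) * pv2 (dvd l) r t = pv l t - pv l r := by
  induction l with
  | nil => simp [dvd, pv2, pv]
  | cons c l ih =>
    simp only [dvd, pv2, pv]
    calc (t - r) * (pv l t + r * pv2 (dvd l) r t)
        = (t - r) * pv l t + r * ((t - r) * pv2 (dvd l) r t) := by ring
      _ = _ := by rw [ih]; ring

/-! ### the inequalities of the hazards -/

/-- `1 - S - (1 - y) (E - 1) / y`, low half -/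
def fm1l (z : HDat) : E := 1 - z.eSl vT - (1 - Dat.xlo) * pe2 z.Elo Dat.xlo vT

/-- `1 - y S - (1 - y) E`, high half -/
def fm1h (z : HDat) : E := 1 - Dat.xhi * z.eSh vT - (1 - Dat.xhi) * z.eEh

/-- the clock below the integral of the bound of the rates -/
def fthC (z : HDat) : E := pe2 (dvd (pri z.mb)) HDat.rZ vT - pe2 z.Qt HDat.rZ vT

/-- the constant `B` below a multiple of the integral -/
def fBC (z : HDat) (k : KDat) (bB : ℚ) : E :=
  qc bB * pe2 (dvd (pri z.mb)) HDat.rZ vT - pe2 k.QB HDat.rZ vT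

/-- the inequalities of the hazards for the first part -/
structure T1p (p : Ps) (bB : ℚ) : Prop where
  m1l : NN (fm1l p.z)
  m1h : NN (fm1h p.z)
  th : NN (fthC p.z)
  B : NN (fBC p.z p.g bB)

variable {p : Ps} {g : GDat} {bB : ℚ}

open Dat

/-- **the damped rates are at most 1** -/
theorem T1p.m1 (h : T1p p bB) (hp : p.Ok) {y : ℝ} (hy : y ∈ Icc (0 : ℝ) 1) {r : ℝ}
    (hr : r ∈ Icc (0 : ℝ) bt) : p.z.hz.rr y r * (1 - y) ≤ 1 := by
  have hd := hp.z.den hy hr
  show p.z.rE y r / (1 - y * p.z.rSh y r) * (1 - y) ≤ 1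
  rw [div_mul_eq_mul_div, div_le_one hd]
  rcases le_or_gt y (1 / 2) with h1 | h1
  · have h2 := h.m1l (2 * y) 0 0 r (two_mul_mem hy.1 h1) z01 z01 hr
    simp only [fm1l, HDat.eSl, val_sub, val_mul, val_add, val_one, val_pe2, val_xlo, val_vT] at h2
    rw [show 1 / 2 * (2 * y) = y by ring] at h2
    unfold HDat.rE HDat.rSh
    rw [if_pos h1, if_pos h1]
    have := mul_nonneg hy.1 h2
    linarith
  · have h2 := h.m1h (2 * y - 1) 0 0 r (two_sub_mem h1.le hy.2) z01 z01 hr
    simp only [fm1h, HDat.eSh, HDat.eEh, val_sub, val_mul, val_one, val_pe2, val_xlo, val_xhi,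
      val_vT] at h2
    rw [show 1 / 2 * (2 * y - 1) = y - 1 / 2 by ring,
      show 1 / 2 + (y - 1 / 2) = y by ring] at h2
    unfold HDat.rE HDat.rSh
    rw [if_neg (not_le.2 h1), if_neg (not_le.2 h1)]
    linarith

theorem T1p.Th (h : T1p p bB) {r t : ℝ} (hr : 0 ≤ r) (hrt : r ≤ t) (ht : t ≤ bt) :
    p.z.Th t r ≤ pv (pri p.z.mb) t - pv (pri p.z.mb) r := by
  obtain ⟨u, hu, h1⟩ := YDat.at_rt h.th hr hrt ht
  simp only [fthC, HDat.rZ, val_sub, val_pe2, val_mul, val_vT, val_vZ, hu] at h1
  have h2 := mul_nonneg (sub_nonneg.2 hrt) h1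
  rw [mul_sub, pv2_dvd] at h2
  unfold HDat.Th
  linarith

theorem T1p.Bc (h : T1p p bB) {r t : ℝ} (hr : 0 ≤ r) (hrt : r ≤ t) (ht : t ≤ bt) :
    p.g.rB t r ≤ bB * (pv (pri p.z.mb) t - pv (pri p.z.mb) r) := by
  obtain ⟨u, hu, h1⟩ := YDat.at_rt h.B hr hrt ht
  simp only [fBC, HDat.rZ, val_sub, val_pe2, val_mul, val_vT, val_vZ, val_qc, hu] at h1
  have h2 := mul_nonneg (sub_nonneg.2 hrt) h1
  rw [← pv2_dvd]
  unfold KDat.rB
  linarith

/-! ### the global checks -/

/-- the lists are those of the data -/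
structure T1l.Of (l : T1l) (p : Ps) (g : GDat) : Prop where
  be0 : l.be0 = p.d.be0
  be1 : l.be1 = p.d.be1
  mb : l.mb = p.z.mb
  kc : l.kc = g.kc
  ke : l.ke = g.ke
  al : l.al = g.al
  kt : l.kt = p.d.ktl
  ee : l.ee = p.d.ee
  Yl : l.Yl = p.y.QY.headI

theorem btq_real {τ : ℚ} (h : btq ≤ τ) : bt ≤ (τ : ℝ) := by
  unfold bt
  exact_mod_cast h

/-- **the functions of the first part** -/
theorem t1g_of {l : T1l} {D : ℤ} {n : ℕ} {τ' : ℚ} (hp : p.Ok) (hg : g.Pos p.d)
    (hq : T1p p l.bB) (ho : l.Of p g) (hl : l.ax = true) (hG : l.okG D n τ' = true) {τ : ℝ}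
    (τ0 : 0 ≤ τ) (τ1 : τ ≤ bt) :
    T1g (p.d.dt.kf (pv p.d.be0) (pv p.d.be1) p.d.rPe p.d.rP) p.g.rB (g.kd p.d) τ (pv l.be0)
      (pv l.be1) (pv l.mb) (pv l.Cl) (pv l.kc) (pv l.ke) (pv l.p0) (pv l.p1) (pv l.p2) (pv l.q0)
      l.ee l.bB l.β l.cE := by
  simp only [T1l.ax, Bool.and_eq_true, decide_eq_true_eq, and_assoc] at hl
  simp only [T1l.okG, Bool.and_eq_true, decide_eq_true_eq, and_assoc] at hG
  obtain ⟨aC, -, aP1, -⟩ := hl
  obtain ⟨n1, n2, n3, n4, n5, p1, p2, p3, p4, p5, p6, p7, p8, p9⟩ := hG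
  have hτ' := τ1.trans (btq_real n5)
  have m : ∀ s ∈ Icc 0 τ, s ∈ Icc ((0 : ℚ) : ℝ) (τ' : ℝ) := fun s hs => by
    refine ⟨?_, hs.2.trans hτ'⟩
    simpa using hs.1
  have mb' : ∀ s ∈ Icc 0 τ, s ∈ Icc (0 : ℝ) bt := fun s hs => ⟨hs.1, hs.2.trans τ1⟩
  have m0 : (0 : ℝ) ∈ Icc 0 τ := ⟨le_rfl, τ0⟩
  have eC : l.Cl = pri p.z.mb := by rw [aC, ho.mb]
  exact
    { τ0 := τ0
      τ1 := τ1
      b := fun y s => by rw [ho.be0, ho.be1]; rfl
      Pe := fun w t => by rw [ho.ee]; rfl
      κ := fun w t s => by rw [ho.ee, ho.kc, ho.ke]; rfl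
      cb0 := (continuous_pv _).continuousOn
      cb1 := (continuous_pv _).continuousOn
      cke := (continuous_pv _).continuousOn
      cm := (continuous_pv _).continuousOn
      cC := (continuous_pv _).continuousOn
      cp0 := (continuous_pv _).continuousOn
      cp1 := (continuous_pv _).continuousOn
      cp2 := (continuous_pv _).continuousOn
      cq0 := (continuous_pv _).continuousOn
      cB := fun s hs => by
        unfold KDat.rB
        exact (((continuous_const.sub continuous_id).mul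
          ((continuous_pv2' p.g.QB).comp (continuous_id.prodMk continuous_const)))).continuousOn
      ee0 := by rw [ho.ee]; exact_mod_cast hp.k.ee0
      bB0 := by exact_mod_cast n1
      β0 := by exact_mod_cast n2
      b01 := fun s hs => by
        have h := nn_sub p1 (m s hs)
        simp only [pv_cons, pv_nil, mul_zero, add_zero] at h
        exact_mod_cast h
      b1β := fun s hs => by
        have h := nn_sub p2 (m s hs)
        simp only [pv_cons, pv_nil, mul_zero, add_zero] at h
        exact h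
      β1 := by exact_mod_cast n3
      cE1 := by exact_mod_cast n4
      cE2 := fun y hy => by
        rcases le_total y (1 / 2) with h1 | h1
        · have h := nn_sub p3 (t := y) (by
            constructor
            · simpa using hy.1
            · push_cast; exact h1)
          simp only [pv_lmul, pv_cons, pv_nil] at h
          push_cast at h
          rw [eta_lo h1]
          refine le_trans (le_of_eq ?_) (h.trans (le_of_eq ?_)) <;> ring
        · have h := nn_sub p4 (t := y) (by
            constructor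
            · push_cast; exact h1
            · simpa using hy.2)
          simp only [pv_lmul, pv_cons, pv_nil] at h
          push_cast at h
          rw [eta_hi h1]
          refine le_trans (le_of_eq ?_) (h.trans (le_of_eq ?_)) <;> ring
      ke1 := fun s hs => by rw [ho.ke]; exact hg.ke1 (mb' s hs)
      kc1 := fun s hs => by rw [ho.kc]; exact hg.kc1 (mb' s hs)
      hp0 := fun s hs => by
        have h := nn_sub p5 (m s hs)
        simp only [pv_lmul, pv_cons, pv_nil] at h
        push_cast at h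
        refine h.trans (le_of_eq ?_)
        ring
      hp1 := fun s hs => by
        have h := nn_sub p6 (m s hs)
        simp only [pv_lmul, pv_ladd, pv_lsub, pv_cons, pv_nil] at h
        push_cast at h
        refine le_trans (le_of_eq ?_) (h.trans (le_of_eq ?_)) <;> ring
      hP1 := fun s hs => by
        rw [int_pri, ← aP1]
        have h := nn_le p7 (m s hs)
        rw [pv_lsmul] at h
        push_cast at h
        have e : pv l.P1 s = s * pv l.P1.tail s := by
          rw [aP1]
          simp [pri, pv]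
        rw [e]
        have := mul_nonneg hs.1 h
        linarith
      hp2 := fun s hs => by
        have h := nn_sub p8 (m s hs)
        simp only [pv_lmul, pv_ladd, pv_lsub, pv_cons, pv_nil] at h
        push_cast at h
        refine le_trans (le_of_eq ?_) (h.trans (le_of_eq ?_)) <;> ring
      hq0 := fun s hs => by
        have h := nn_sub p9 (m s hs)
        simp only [pv_lmul, pv_cons, pv_nil] at h
        push_cast at h
        refine le_trans (le_of_eq ?_) h
        ring
      fb := fun y hy s hs => (Dt.kf_ok (Dat.ok hp.d hp.b) (Dat.kok hp.k)).fh_nonneg hy (mb' s hs)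
      m1 := fun s hs => by rw [ho.mb]; exact hp.z.mb_one (mb' s hs)
      C0 := by rw [aC]; exact pri_zero _
      dC := fun s _ => by rw [aC]; exact hasDerivAt_pri _ _
      hB := fun s hs r hr => by
        rw [eC]
        exact hq.Bc hr.1 hr.2 (hs.2.trans τ1) }

end Pool.Agent.RX.RCN.K
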