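import Pool.Agent.RX.RCN.Ins

/-! The first part of the inequality of the centres (MP_73ccd0_lc, route M). -/

namespace Pool.Agent.RX.RCN.K

open Set Finset MeasureTheory Pool.Agent.RX.RCRSHalf Pool.Agent.RX.RCG Pool.Agent.RX.RCG.Ct
open Pool.Agent.RX.RCN.Ker Pool.Agent.RX.RCRS Pool.Agent.RX.RCM9 Pool.Agent.RX.RCM9.Bern Pool.Agent.RX.RCM9.Pk
set_option linter.unusedSectionVars false

variable {p : Ps}

/-- the scalar function of level 0 decreases -/
theorem Y_anti (hp : p.Ok) {r t : ℝ} (hr : 0 ≤ r) (hrt : r ≤ t) (ht : t ≤ bt) :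
    p.y.Y t r ≤ p.y.Y t 0 := by
  have key := nonneg_of_forward (a := 0) (s := r)
    (U := fun z => p.y.Y t 0 - p.y.Y t z) (U' := fun z => 0 - YDat.Y' p.y t z)
    (fun z _ => (hasDerivAt_const _ _).sub (YDat.hasDerivAt_Y t z))
    (by simp)
    (fun z hz _ => by
      have h1 := hp.y.oY hz.1 (hz.2.trans hrt) ht
      have h2 := hp.z.mb_one (t := z) ⟨hz.1, (hz.2.trans hrt).trans ht⟩
      have h3 := hp.y.N0 hz.1 (hz.2.trans hrt) ht
      have := mul_nonneg (zero_le_one.trans h2) h3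
      linarith)
    r ⟨hr, le_rfl⟩
  linarith

variable {V : Type} [Fintype V] [DecidableEq V]
variable {Gr : SimpleGraph V} [Fintype Gr.edgeSet] [DecidableEq Gr.edgeSet]
variable {x : Gr.edgeSet → ℝ}

end Pool.Agent.RX.RCN.K
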