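import Pool.Agent.RX.RCN.T1B
import Pool.Agent.RX.RCN.T1E

/-! The first part of the inequality of the centres with numbers (MP_73ccd0_lc, route M). -/

namespace Pool.Agent.RX.RCN.K

open Set Finset MeasureTheory Pool.Agent.RX.RCRSHalf Pool.Agent.RX.RCG Pool.Agent.RX.RCG.Ct
open Pool.Agent.RX.RCN.Ker

set_option linter.unusedSectionVars false

variable {V : Type*} [Fintype V] [DecidableEq V] {x : V → V → ℝ} {P : V → Prop}
  [DecidablePred P] {a b : V} {Z : Hzd} {F : Lz V} {sl : ℝ → ℝ → ℝ} {B E1 : ℝ → ℝ → ℝ}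
  {k : Kf} {N : ℕ} {κd : ℝ → ℝ → ℝ → ℝ} {R : V → V → V → ℝ → ℝ → ℝ}
  {L Lt : V → V → V → V → ℝ → ℝ → ℝ}
  {mb κ0 φ Fs J x2 x2' : ℝ → ℝ} {t γ α0 cE Y δ ω ωH oA oB IA x1 mM : ℝ}
  {X Xt : V → V → ℝ → ℝ}

section

variable (hc : T1c k B mb κ0 φ Fs J x2 x2' t γ α0 cE Y δ ω oA oB IA x1)
  (hx : Wt x P 1) (hk : k.Ok)
  (hfc : ∀ y ∈ Icc (0 : ℝ) 1, ContinuousOn (k.fh y) (Icc 0 bt)) (ht : t ∈ Icc (0 : ℝ) bt)

include hc hx hk hfc ht in
/-- the integral of a density against a weight -/
theorem T1c.int_fq (b d : V) {c1 : ℝ} (c10 : 0 ≤ c1) {g1 g2 : ℝ → ℝ}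
    (cg1 : ContinuousOn g1 (Icc 0 t)) (cg2 : ContinuousOn g2 (Icc 0 t))
    (g10 : ∀ s ∈ Icc 0 t, 0 ≤ g1 s) (g20 : ∀ s ∈ Icc 0 t, 0 ≤ g2 s) {I : ℝ}
    (hI : c1 * α0 + ∫ s in (0 : ℝ)..t, φ s * κ0 s * (g1 s + cE * g2 s) ≤ I) :
    ∫ s in (0 : ℝ)..t, fq x P k.fh b d s * κ0 s
      * (c1 + ((1 - x b d / 2) * g2 s + (1 - x b d) * g1 s)) ≤ I := by
  have m0 : (0 : ℝ) ∈ Icc 0 t := ⟨le_rfl, ht.1⟩
  have tt : t ∈ Icc 0 t := ⟨ht.1, le_rfl⟩
  have cfq : ContinuousOn (fq x P k.fh b d) (Icc 0 t) :=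
    (fq_cont' hfc hx b d).mono (Icc_subset_Icc_right ht.2)
  have v := x_mem hx b d
  have e : (∫ s in (0 : ℝ)..t, fq x P k.fh b d s * κ0 s
      * (c1 + ((1 - x b d / 2) * g2 s + (1 - x b d) * g1 s)))
      = (∫ s in (0 : ℝ)..t, c1 * (fq x P k.fh b d s * κ0 s))
        + ∫ s in (0 : ℝ)..t, fq x P k.fh b d s * κ0 s
          * ((1 - x b d / 2) * g2 s + (1 - x b d) * g1 s) := by
    have h := int_add2 ht.1 (f := fun s => c1 * (fq x P k.fh b d s * κ0 s))
      (g := fun s => fq x P k.fh b d s * κ0 s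
        * ((1 - x b d / 2) * g2 s + (1 - x b d) * g1 s))
      (continuousOn_const.mul (cfq.mul hc.cκ0))
      ((cfq.mul hc.cκ0).mul ((continuousOn_const.mul cg2).add (continuousOn_const.mul cg1)))
    rw [← h]
    refine intervalIntegral.integral_congr fun s _ => ?_
    ring
  have i1 : (∫ s in (0 : ℝ)..t, fq x P k.fh b d s * κ0 s) ≤ α0 := by
    refine le_trans ?_ hc.Ft
    by_cases hP : P d
    · have e : ∀ s, fq x P k.fh b d s = k.fh (x b d) s := fun s => by
        unfold fq; rw [if_pos hP]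
      simp only [e]
      exact hc.F1 _ v t tt
    · have e : ∀ s, fq x P k.fh b d s = qq s := fun s => by
        unfold fq; rw [if_neg hP]
      simp only [e]
      exact hc.F2 t tt
  have i2 : (∫ s in (0 : ℝ)..t, fq x P k.fh b d s * κ0 s
          * ((1 - x b d / 2) * g2 s + (1 - x b d) * g1 s))
      ≤ ∫ s in (0 : ℝ)..t, φ s * κ0 s * (g1 s + cE * g2 s) := by
    refine intervalIntegral.integral_mono_on ht.1
      (ii_of ht.1 ((cfq.mul hc.cκ0).mul ((continuousOn_const.mul cg2).add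
        (continuousOn_const.mul cg1))) m0 tt)
      (ii_of ht.1 ((hc.cφ.mul hc.cκ0).mul (cg1.add (continuousOn_const.mul cg2))) m0 tt)
      fun s hs => ?_
    have q0 : 0 ≤ fq x P k.fh b d s := fq_nonneg' hk hx b d ⟨hs.1, hs.2.trans ht.2⟩
    have k0 := hc.k0 s hs
    have j1 : fq x P k.fh b d s * (1 - x b d) ≤ φ s := by
      unfold fq
      split_ifs
      · exact hc.f1 _ v s hs
      · have h0 := hc.f2 s hs
        have h1 : 0 ≤ qq s := (qq_pos ⟨hs.1, hs.2.trans ht.2⟩).le
        have h2 : qq s * (1 - x b d) ≤ qq s := mul_le_of_le_one_right h1 (by linarith [v.1])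
        linarith
    have j2 : fq x P k.fh b d s * (1 - x b d / 2) ≤ cE * φ s := by
      unfold fq
      split_ifs
      · exact hc.f3 _ v s hs
      · have h0 := hc.f2 s hs
        have h1 : 0 ≤ qq s := (qq_pos ⟨hs.1, hs.2.trans ht.2⟩).le
        have h2 : qq s * (1 - x b d / 2) ≤ qq s :=
          mul_le_of_le_one_right h1 (by linarith [v.1])
        have h3 : φ s ≤ cE * φ s := le_mul_of_one_le_left (h1.trans h0) hc.cE1
        linarith
    have j3 := mul_le_mul_of_nonneg_right j1 (mul_nonneg k0 (g10 s hs))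
    have j4 := mul_le_mul_of_nonneg_right j2 (mul_nonneg k0 (g20 s hs))
    calc _ = fq x P k.fh b d s * (1 - x b d / 2) * (κ0 s * g2 s)
          + fq x P k.fh b d s * (1 - x b d) * (κ0 s * g1 s) := by ring
      _ ≤ cE * φ s * (κ0 s * g2 s) + φ s * (κ0 s * g1 s) := add_le_add j4 j3
      _ = _ := by ring
  rw [e, intervalIntegral.integral_const_mul]
  exact (add_le_add (mul_le_mul_of_nonneg_left i1 c10) i2).trans hI

include hc in
theorem T1c.w0 : 0 ≤ ω := by
  have := hc.w1 0 ⟨le_rfl, zero_le_one⟩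
  refine le_trans ?_ this
  simp only [sub_zero, mul_zero, add_zero, one_mul, zero_mul, Real.exp_zero, mul_one]
  exact (Real.exp_pos _).le

include hc in
theorem T1c.a0 : 0 ≤ oA := by
  have := hc.a1 0 ⟨le_rfl, zero_le_one⟩
  refine le_trans ?_ this
  simp only [sub_zero, mul_zero, add_zero, zero_mul, Real.exp_zero, mul_one]
  positivity

include hc in
theorem T1c.b0 : 0 ≤ oB := by
  have := hc.b1 0 0 0 le_rfl zero_le_one le_rfl le_rfl (by norm_num)
  simp only [sub_zero, mul_zero, add_zero, zero_mul, Real.exp_zero, mul_one, zero_div] at this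
  refine le_trans ?_ this
  positivity

variable (hw : T1w Z F x P R L Lt X Xt a b mb x2 x2' t γ Y δ ωH mM x1)
  (hC : Z.Cf B E1) (hZ : Z.Ok sl) (hf : Lf N k κd R L Lt) (hab : a ≠ b)

include hc hw hC hZ hf hx hk hfc hab ht in
/-- **the data of the rows and entries** -/
theorem T1w.toT1r (hκ : ∀ w ∈ Icc (0 : ℝ) 1, ∀ s ∈ Icc 0 t, κd w t s ≤ κ0 s * (1 + γ * w))
    {RA RH EA EH : ℝ}
    (hRA : (ω * (Real.exp Y * IA) + x1) * α0 + ∫ s in (0 : ℝ)..t, φ s * κ0 s
      * (Real.exp Y * (Real.exp Y * Real.exp δ) * J s + x2 s) ≤ RA)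
    (hRH : ∫ s in (0 : ℝ)..t, Fs s * (ωH * (Real.exp Y * IA)
      + (Real.exp Y * (Real.exp Y * Real.exp δ) * J s + x2' s)) ≤ RH)
    (hEA : (oA * J t + x1) * α0 + ∫ s in (0 : ℝ)..t, φ s * κ0 s
      * (x2 s + cE * (oB * J s)) ≤ EA)
    (hEH : ∫ s in (0 : ℝ)..t, Fs s * (mM * (oA * J t + oB * J s) + x2' s) ≤ EH) :
    T1r x P k κd R L Lt a b t γ κ0 Fs
      (fun d s => (ω * (Real.exp Y * IA) + x1) + (1 - x b d)
        * (Real.exp Y * (Real.exp Y * Real.exp δ) * J s + x2 s))
      (fun d s => (oA * J t + x1)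
        + (oB * (1 - x b d / 2) * J s + (1 - x b d) * x2 s))
      (fun s => ωH * (Real.exp Y * IA)
        + (Real.exp Y * (Real.exp Y * Real.exp δ) * J s + x2' s))
      (fun s => mM * (oA * J t + oB * J s) + x2' s) RA RH EA EH := by
  have w0 := hc.w0
  have a0 := hc.a0
  have b0 := hc.b0
  have tt : t ∈ Icc 0 t := ⟨ht.1, le_rfl⟩
  have r10 : 0 ≤ ω * (Real.exp Y * IA) + x1 := add_nonneg (mul_nonneg w0
    (mul_nonneg (Real.exp_pos _).le hc.IA0)) hc.x10
  have r20 : ∀ s ∈ Icc 0 t, 0 ≤ Real.exp Y * (Real.exp Y * Real.exp δ) * J s + x2 s :=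
    fun s hs => add_nonneg (mul_nonneg (mul_nonneg (Real.exp_pos _).le (mul_nonneg
      (Real.exp_pos _).le (Real.exp_pos _).le)) (hc.J0 s hs)) (hc.x20 s hs)
  have cr2 : ContinuousOn (fun s => Real.exp Y * (Real.exp Y * Real.exp δ) * J s + x2 s)
      (Icc 0 t) := (continuousOn_const.mul hc.cJ).add hc.cx2
  exact
    { γ0 := hc.γ0
      cκ0 := hc.cκ0
      k0 := hc.k0
      hκ := hκ
      cFs := hc.cFs
      Fs0 := hc.Fs0
      hF := by
        intro d _ s hs
        by_cases hP : P d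
        · have e : ∀ s, fq x P k.fh b d s = k.fh (x b d) s := fun s => by
            unfold fq; rw [if_pos hP]
          simp only [e]
          exact hc.F1 _ (x_mem hx b d) s hs
        · have e : ∀ s, fq x P k.fh b d s = qq s := fun s => by
            unfold fq; rw [if_neg hP]
          simp only [e]
          exact hc.F2 s hs
      crA := fun d => continuousOn_const.add (continuousOn_const.mul cr2)
      ceA := fun d => continuousOn_const.add ((continuousOn_const.mul hc.cJ).add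
        (continuousOn_const.mul hc.cx2))
      crH := continuousOn_const.add ((continuousOn_const.mul hc.cJ).add hc.cx2')
      ceH := ((continuousOn_const.mul (continuousOn_const.add
        (continuousOn_const.mul hc.cJ))).add hc.cx2')
      R0 := fun d hd hbd s hs => by
        have h1 := hw.Rm d hd s hs
        rw [hbd, zero_mul] at h1
        exact le_antisymm h1 (hf.R0 a b d t s hs.1 hs.2 ht.2)
      rL := fun d hd hbd s hs => T1w.rL hc hw hC hZ hx hab ht hd hbd hs
      rI := by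
        intro d _
        have := hc.int_fq hx hk hfc ht b d (c1 := ω * (Real.exp Y * IA) + x1)
          (g1 := fun s => Real.exp Y * (Real.exp Y * Real.exp δ) * J s + x2 s)
          (g2 := fun _ => 0) (I := RA) r10 cr2 continuousOn_const r20
          (fun _ _ => le_rfl) (by
            refine le_trans (le_of_eq ?_) hRA
            congr 1
            refine intervalIntegral.integral_congr fun s _ => ?_
            ring)
        refine le_trans (le_of_eq ?_) this
        refine intervalIntegral.integral_congr fun s _ => ?_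
        ring
      rT := fun d hd hbd s hs => T1w.rT hc hw hC hZ hf hx hab ht hd hbd hs
      rJ := hRH
      eL := fun d hd hbd c hcc hPc s hs => T1w.eL hc hw hC hZ hx hab ht hd hbd hcc hPc hs
      eI := by
        intro d _
        have := hc.int_fq hx hk hfc ht b d (c1 := oA * J t + x1)
          (g1 := fun s => x2 s) (g2 := fun s => oB * J s) (I := EA)
          (add_nonneg (mul_nonneg a0 (hc.J0 t tt)) hc.x10) hc.cx2
          (continuousOn_const.mul hc.cJ) hc.x20
          (fun s hs => mul_nonneg b0 (hc.J0 s hs)) hEA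
        refine le_trans (le_of_eq ?_) this
        refine intervalIntegral.integral_congr fun s _ => ?_
        ring
      eT := fun d hd hbd c hcc hPc s hs =>
        T1w.eT hc hw hC hZ hf hx hab ht b0 hd hbd hcc hPc hs
      eJ := hEH }

end

end Pool.Agent.RX.RCN.K
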