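import Pool.Agent.RX.RCN.T1A

/-! The first part of the inequality of the centres: amplification and direct error in one bound
(MP_73ccd0_lc, route M). -/

namespace Pool.Agent.RX.RCN.K

open Set Finset MeasureTheory Pool.Agent.RX.RCRSHalf Pool.Agent.RX.RCG Pool.Agent.RX.RCG.Ct
open Pool.Agent.RX.RCN.Ker Pool.Agent.RX.RCM.Jen

set_option linter.unusedSectionVars false

/-! ### scalar inequalities -/

/-- the amplification -/
noncomputable def gqx (y : ℝ) : ℝ := ((1 - y) ^ 2)⁻¹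

theorem gqx_pos {y : ℝ} (h : y < 1) : 0 < gqx y := by
  have : 0 < 1 - y := by linarith
  unfold gqx
  positivity

theorem gqx_mono {y y' : ℝ} (h : y ≤ y') (h' : y' < 1) : gqx y ≤ gqx y' := by
  unfold gqx
  have h1 : 0 < 1 - y' := by linarith
  exact inv_anti₀ (by positivity) (pow_le_pow_left₀ h1.le (by linarith) 2)

theorem gqx_eq2 {v : ℝ} (hv : v < 1) : gqx v * (2 - v) = gqx v + (1 - v)⁻¹ := by
  have : 1 - v ≠ 0 := by linarith
  unfold gqx
  field_simp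
  ring

theorem gqx_two {y y' : ℝ} (h : y ≤ y') (h' : y' < 1) : gqx y * (2 - y) ≤ gqx y' * (2 - y') := by
  rw [gqx_eq2 h', gqx_eq2 (lt_of_le_of_lt h h')]
  exact add_le_add (gqx_mono h h') (inv_anti₀ (by linarith) (by linarith))

theorem gqx_sub {z A : ℝ} (h : z * A < 1) : z * psb z A = gqx (z * A) - 1 := by
  have : 1 - z * A ≠ 0 := by linarith
  unfold psb gqx
  field_simp
  ring

theorem gqx_sub' {y : ℝ} (h : y < 1) : gqx y - 1 = y * (gqx y * (2 - y)) := by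
  have : 1 - y ≠ 0 := by linarith
  unfold gqx
  field_simp
  ring

theorem gqx_div {a y : ℝ} : a / (1 - y) ^ 2 = a * gqx y := by
  unfold gqx
  rw [div_eq_mul_inv]

theorem tan_sq {p r : ℝ} (hp : 0 < p) (hr : 0 < r) :
    3 * (r ^ 2)⁻¹ - 2 * p * (r ^ 3)⁻¹ ≤ (p ^ 2)⁻¹ := by
  have h : 0 ≤ (r - p) ^ 2 * (r + 2 * p) := by positivity
  have e : (p ^ 2)⁻¹ - (3 * (r ^ 2)⁻¹ - 2 * p * (r ^ 3)⁻¹)
      = ((r - p) ^ 2 * (r + 2 * p)) * ((p ^ 2)⁻¹ * (r ^ 3)⁻¹) := by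
    field_simp
    ring
  have h2 : 0 ≤ (p ^ 2)⁻¹ * (r ^ 3)⁻¹ := by positivity
  have := mul_nonneg h h2
  linarith

/-- convexity of the amplification -/
theorem gqx_chord {y0 y1 l : ℝ} (h0 : y0 < 1) (h1 : y1 < 1) (l0 : 0 ≤ l) (l1 : l ≤ 1) :
    gqx ((1 - l) * y0 + l * y1) ≤ (1 - l) * gqx y0 + l * gqx y1 := by
  have p0 : 0 < 1 - y0 := by linarith
  have p1 : 0 < 1 - y1 := by linarith
  have l1' : 0 ≤ 1 - l := by linarith
  set r := 1 - ((1 - l) * y0 + l * y1) with hr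
  have q : r = (1 - l) * (1 - y0) + l * (1 - y1) := by rw [hr]; ring
  have p : 0 < r := by
    rw [q]
    rcases lt_or_eq_of_le l0 with h | h
    · exact add_pos_of_nonneg_of_pos (mul_nonneg l1' p0.le) (mul_pos h p1)
    · rw [← h]; simpa using p0
  have t0 := mul_le_mul_of_nonneg_left (tan_sq p0 p) l1'
  have t1 := mul_le_mul_of_nonneg_left (tan_sq p1 p) l0
  have e : r * (r ^ 3)⁻¹ = (r ^ 2)⁻¹ := by
    field_simp
  have e2 : (1 - l) * (3 * (r ^ 2)⁻¹ - 2 * (1 - y0) * (r ^ 3)⁻¹)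
      + l * (3 * (r ^ 2)⁻¹ - 2 * (1 - y1) * (r ^ 3)⁻¹)
      = 3 * (r ^ 2)⁻¹ - 2 * (((1 - l) * (1 - y0) + l * (1 - y1)) * (r ^ 3)⁻¹) := by ring
  rw [← q, e] at e2
  show (r ^ 2)⁻¹ ≤ (1 - l) * ((1 - y0) ^ 2)⁻¹ + l * ((1 - y1) ^ 2)⁻¹
  linarith

/-- a product of two increasing functions against its chord -/
theorem prod_chord {f0 f1 g0 g1 g l : ℝ} (l0 : 0 ≤ l) (l1 : l ≤ 1) (f00 : 0 ≤ f0) (hf : f0 ≤ f1)
    (hg : g0 ≤ g1) (h : g ≤ (1 - l) * g0 + l * g1) :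
    ((1 - l) * f0 + l * f1) * g ≤ (1 - l) * (f0 * g0) + l * (f1 * g1) := by
  have l1' : 0 ≤ 1 - l := by linarith
  have a := mul_nonneg (mul_nonneg l0 l1') (mul_nonneg (sub_nonneg.2 hf) (sub_nonneg.2 hg))
  have f : 0 ≤ (1 - l) * f0 + l * f1 :=
    add_nonneg (mul_nonneg l1' f00) (mul_nonneg l0 (f00.trans hf))
  have b := mul_le_mul_of_nonneg_left h f
  nlinarith

/-- a linear function of `q ∈ [0, q0]` -/
theorem lin_q {a b q q0 : ℝ} (q1 : 0 ≤ q) (q2 : q ≤ q0) (h0 : 0 ≤ a) (h1 : 0 ≤ a + b * q0) :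
    0 ≤ a + b * q := by
  rcases le_total 0 b with h | h
  · have := mul_nonneg h q1
    linarith
  · have := mul_le_mul_of_nonpos_left q2 h
    linarith

/-- the conditions on the numbers of the joint bound -/
structure Amq (α γ ε0 C q0 ga1 ga2 gb1 gb2 : ℝ) : Prop where
  α0 : 0 ≤ α
  γ0 : 0 ≤ γ
  γ1 : γ ≤ 1
  ε00 : 0 ≤ ε0
  C0 : 0 ≤ C
  a10 : 0 ≤ ga1
  a20 : 0 ≤ ga2
  b10 : 0 ≤ gb1
  b20 : 0 ≤ gb2
  a1 : α * (1 + γ) < 1
  c1 : 2 * α * γ ≤ 1 - α
  c2 : 2 * α * γ ≤ 1 - α * (1 + (2 * γ - 1) / 4)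
  h1 : ε0 ≤ ga1 * (1 - α) ^ 2
  h2 : ∀ z ∈ Icc (0 : ℝ) 1, ε0 + C * q0 * (α * (2 - z * α) * (1 - z))
    ≤ (ga1 + gb1 * q0) * (1 - z * α) ^ 2
  h3 : ∀ z ∈ Icc (0 : ℝ) 1, z * (ε0 * (1 + γ * (1 - z)))
    ≤ (z * ga1 + (1 - z) * ga2) * (1 - z * (α * (1 + 2 * γ * (1 - z)))) ^ 2
  h4 : ∀ z ∈ Icc (0 : ℝ) 1,
    z * (ε0 * (1 + γ * (1 - z)) * (1 - z * (α * (1 + γ * (1 - z)))) ^ 2
      + C * q0 * (α * (1 + γ * (1 - z)) * (2 - z * (α * (1 + γ * (1 - z)))) * (1 - z))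
        * (1 - z * (α * (1 + 2 * γ * (1 - z)))) ^ 2)
    ≤ (z * (ga1 + gb1 * q0) + (1 - z) * (ga2 + gb2 * q0))
      * ((1 - z * (α * (1 + γ * (1 - z)))) ^ 2
        * (1 - z * (α * (1 + 2 * γ * (1 - z)))) ^ 2)

section amq

variable {α γ ε0 C q0 ga1 ga2 gb1 gb2 : ℝ} (h : Amq α γ ε0 C q0 ga1 ga2 gb1 gb2)

include h

theorem Amq.A_lt {v z : ℝ} (_ : 0 ≤ z) (z1 : z ≤ 1) (v0 : 0 ≤ v) (v1 : v ≤ 1) :
    z * (α * (1 + γ * v)) < 1 := by
  have g0 := mul_nonneg h.γ0 v0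
  have g1 : γ * v ≤ γ * 1 := mul_le_mul_of_nonneg_left v1 h.γ0
  have A0 : 0 ≤ α * (1 + γ * v) := mul_nonneg h.α0 (by linarith)
  refine lt_of_le_of_lt ((mul_le_of_le_one_left A0 z1).trans ?_) h.a1
  exact mul_le_mul_of_nonneg_left (by linarith) h.α0

/-- the largest mass -/
theorem Amq.y2 {z : ℝ} (z0 : 0 ≤ z) (z1 : z ≤ 1) :
    z * (α * (1 + 2 * γ * (1 - z))) < 1 ∧
      2 * α * γ ≤ 1 - z * (α * (1 + 2 * γ * (1 - z))) := by
  have hz : 0 ≤ 1 - z := by linarith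
  have e : z * (α * (1 + 2 * γ * (1 - z)))
      = α * (1 - (1 - z) ^ 2 + (2 * γ - 1) * (z * (1 - z))) := by ring
  have m0 : 0 ≤ z * (1 - z) := mul_nonneg z0 hz
  have m1 : z * (1 - z) ≤ 1 / 4 := by nlinarith [sq_nonneg (z - 1 / 2)]
  have s0 := sq_nonneg (1 - z)
  rcases le_total (2 * γ - 1) 0 with hg | hg
  · have i1 : z * (α * (1 + 2 * γ * (1 - z))) ≤ α := by
      rw [e]
      have := mul_nonpos_of_nonpos_of_nonneg hg m0
      have := mul_le_mul_of_nonneg_left (show 1 - (1 - z) ^ 2 + (2 * γ - 1) * (z * (1 - z)) ≤ 1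
        by linarith) h.α0
      linarith
    have i2 : α ≤ α * (1 + γ) := by
      have := mul_nonneg h.α0 h.γ0
      linarith
    have := h.a1
    have := h.c1
    exact ⟨by linarith, by linarith⟩
  · have i1 : z * (α * (1 + 2 * γ * (1 - z))) ≤ α * (1 + (2 * γ - 1) / 4) := by
      rw [e]
      have i := mul_le_mul_of_nonneg_left m1 hg
      exact mul_le_mul_of_nonneg_left (by linarith) h.α0
    have i2 : α * (1 + (2 * γ - 1) / 4) ≤ α * (1 + γ) :=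
      mul_le_mul_of_nonneg_left (by linarith [h.γ0]) h.α0
    have := h.a1
    have := h.c2
    exact ⟨by linarith, by linarith⟩

/-- the first end -/
theorem Amq.end0 {u z q : ℝ} (u0 : 0 ≤ u) (z0 : 0 < z) (huz : u + z ≤ 1) (qn : 0 ≤ q)
    (hq : q ≤ q0) :
    gqx (z * (α * (1 + γ * u))) * (ε0 + C * (α * (2 - z * (α * (1 + γ * u)))
      * ((1 - z / (1 - u)) * q))) ≤ ga1 + gb1 * q := by
  have u1 : 0 < 1 - u := by linarith
  set ρ := z / (1 - u) with hρ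
  have ρ0 : 0 ≤ ρ := div_nonneg z0.le u1.le
  have ρ1 : ρ ≤ 1 := by rw [hρ, div_le_one u1]; linarith
  have ez : z = ρ * (1 - u) := by rw [hρ]; field_simp
  have α1 : α < 1 := by
    have := mul_nonneg h.α0 h.γ0
    have := h.a1
    linarith
  have hm : ρ * α < 1 := lt_of_le_of_lt (mul_le_of_le_one_left h.α0 ρ1) α1
  have hy : z * (α * (1 + γ * u)) ≤ ρ * α := by
    have i1 : (1 - u) * (1 + γ * u) ≤ 1 := by
      have i := mul_nonneg u0 (show 0 ≤ 1 - γ by linarith [h.γ1])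
      have i' := mul_nonneg h.γ0 (mul_nonneg u0 u0)
      nlinarith
    have i2 := mul_le_mul_of_nonneg_left i1 (mul_nonneg ρ0 h.α0)
    calc z * (α * (1 + γ * u)) = ρ * α * ((1 - u) * (1 + γ * u)) := by
          conv_lhs => rw [ez]
          ring
      _ ≤ ρ * α * 1 := i2
      _ = _ := mul_one _
  have g1 := gqx_mono hy hm
  have g2 := gqx_two hy hm
  have w0 : 0 ≤ C * α * ((1 - ρ) * q) := mul_nonneg (mul_nonneg h.C0 h.α0)
    (mul_nonneg (by linarith) qn)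
  have k1 : gqx (z * (α * (1 + γ * u))) * (ε0 + C * (α * (2 - z * (α * (1 + γ * u)))
      * ((1 - ρ) * q))) ≤ gqx (ρ * α) * (ε0 + C * (α * (2 - ρ * α) * ((1 - ρ) * q))) := by
    have a1 := mul_le_mul_of_nonneg_right g1 h.ε00
    have a2 := mul_le_mul_of_nonneg_right g2 w0
    nlinarith
  refine k1.trans ?_
  have d : 0 < 1 - ρ * α := by linarith
  have gp := gqx_pos hm
  have hg : gqx (ρ * α) * (1 - ρ * α) ^ 2 = 1 := by
    unfold gqx
    exact inv_mul_cancel₀ (by positivity)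
  have m1 : gqx (ρ * α) * ε0 ≤ ga1 := by
    have i1 : (1 - α) ^ 2 ≤ (1 - ρ * α) ^ 2 := pow_le_pow_left₀ (by linarith)
      (by linarith [mul_le_of_le_one_left h.α0 ρ1]) 2
    have i2 := h.h1.trans (mul_le_mul_of_nonneg_left i1 h.a10)
    have i3 := mul_le_mul_of_nonneg_left i2 gp.le
    calc _ ≤ gqx (ρ * α) * (ga1 * (1 - ρ * α) ^ 2) := i3
      _ = ga1 * (gqx (ρ * α) * (1 - ρ * α) ^ 2) := by ring
      _ = ga1 := by rw [hg, mul_one]
  have m2 : gqx (ρ * α) * (ε0 + C * q0 * (α * (2 - ρ * α) * (1 - ρ))) ≤ ga1 + gb1 * q0 := by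
    have i3 := mul_le_mul_of_nonneg_left (h.h2 ρ ⟨ρ0, ρ1⟩) gp.le
    calc _ ≤ gqx (ρ * α) * ((ga1 + gb1 * q0) * (1 - ρ * α) ^ 2) := i3
      _ = (ga1 + gb1 * q0) * (gqx (ρ * α) * (1 - ρ * α) ^ 2) := by ring
      _ = _ := by rw [hg, mul_one]
  have key := lin_q (a := ga1 - gqx (ρ * α) * ε0)
    (b := gb1 - gqx (ρ * α) * (C * (α * (2 - ρ * α) * (1 - ρ)))) qn hq (by linarith)
    (by linarith)
  linarith

/-- the second end -/
theorem Amq.end1 {u z q : ℝ} (u0 : 0 ≤ u) (z0 : 0 < z) (huz : u + z ≤ 1) (qn : 0 ≤ q)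
    (hq : q ≤ q0) :
    z * (ε0 * (1 + γ * (1 - z)) * gqx (z * (α * (1 + γ * (u + (1 - z))))))
      + C * (z * (α * (1 + γ * (1 - z))) * (gqx (z * (α * (1 + γ * (u + (1 - z)))))
        * (2 - z * (α * (1 + γ * (u + (1 - z)))))) * ((1 - z / (1 - u)) * q))
      ≤ z * (ga1 + gb1 * q) + (1 - z) * (ga2 + gb2 * q) := by
  have u1 : 0 < 1 - u := by linarith
  have z1 : z ≤ 1 := by linarith
  have hz : 0 ≤ 1 - z := by linarith
  set y := z * (α * (1 + γ * (u + (1 - z)))) with hy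
  set y0 := z * (α * (1 + γ * (1 - z))) with hy0
  set y2 := z * (α * (1 + 2 * γ * (1 - z))) with hy2
  obtain ⟨i1, i2⟩ := h.y2 z0.le z1
  rw [← hy2] at i1 i2
  have yy2 : y ≤ y2 := by
    rw [hy, hy2]
    refine mul_le_mul_of_nonneg_left (mul_le_mul_of_nonneg_left ?_ h.α0) z0.le
    have := mul_le_mul_of_nonneg_left (show u ≤ 1 - z by linarith) h.γ0
    linarith
  have ey : y = y0 + α * γ * (u * z) := by rw [hy, hy0]; ring
  have s0 : 0 ≤ u * z := mul_nonneg u0 z0.le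
  have αγ0 : 0 ≤ α * γ := mul_nonneg h.α0 h.γ0
  have y0y : y0 ≤ y := by
    have := mul_nonneg αγ0 s0
    linarith
  have p : 0 < 1 - y := by linarith
  have p0 : 0 < 1 - y0 := by linarith
  have p2 : 0 < 1 - y2 := by linarith
  -- the factor of the mass
  have s1 : u * z ≤ 1 := mul_le_one₀ (by linarith) z0.le z1
  have r1 : 1 - z / (1 - u) ≤ (1 - z) * (1 - u * z) := by
    have i3 : z * (1 + u) ≤ z / (1 - u) := by
      rw [le_div_iff₀ u1]
      have := mul_nonneg z0.le (mul_nonneg u0 u0)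
      nlinarith
    have := mul_nonneg s0 z0.le
    nlinarith
  have r0 : 0 ≤ 1 - z / (1 - u) := by
    rw [sub_nonneg, div_le_one u1]; linarith
  have inv1 : (1 - y)⁻¹ ≤ (1 + u * z / 2) * (1 - y0)⁻¹ := by
    rw [← div_eq_mul_inv, inv_eq_one_div, div_le_div_iff₀ p p0]
    have i4 : α * γ ≤ (1 - y) / 2 := by linarith
    have i5 := mul_le_mul_of_nonneg_right i4 s0
    nlinarith
  have v0 : 0 ≤ (1 - y)⁻¹ := inv_nonneg.2 p.le
  have w0 : 0 ≤ (1 - y0)⁻¹ := inv_nonneg.2 p0.le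
  have inv2 : (1 - u * z) * (1 - y)⁻¹ ≤ (1 - y0)⁻¹ := by
    have a1 := mul_le_mul_of_nonneg_left inv1 (show 0 ≤ 1 - u * z by linarith)
    have a2 : (1 - u * z) * (1 + u * z / 2) ≤ 1 := by nlinarith [mul_nonneg s0 s0]
    have a3 := mul_le_mul_of_nonneg_right a2 w0
    linarith
  have inv3 : (1 - u * z) * gqx y ≤ gqx y0 := by
    have e1 : gqx y = (1 - y)⁻¹ * (1 - y)⁻¹ := by unfold gqx; rw [sq, mul_inv]
    have e2 : gqx y0 = (1 - y0)⁻¹ * (1 - y0)⁻¹ := by unfold gqx; rw [sq, mul_inv]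
    have a1 := mul_le_mul inv1 inv1 v0 (mul_nonneg (by linarith) w0)
    have a2 : (1 - u * z) * ((1 + u * z / 2) * (1 + u * z / 2)) ≤ 1 := by
      nlinarith [mul_nonneg s0 s0, mul_nonneg (mul_nonneg s0 s0) s0]
    have a3 := mul_le_mul_of_nonneg_right a2 (mul_nonneg w0 w0)
    have a4 := mul_le_mul_of_nonneg_left a1 (show 0 ≤ 1 - u * z by linarith)
    rw [e1, e2]
    calc _ ≤ _ := a4
      _ = (1 - u * z) * ((1 + u * z / 2) * (1 + u * z / 2)) * ((1 - y0)⁻¹ * (1 - y0)⁻¹) := by ring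
      _ ≤ _ := a3
      _ = _ := one_mul _
  have key1 : (1 - z / (1 - u)) * (gqx y * (2 - y)) ≤ (1 - z) * (gqx y0 * (2 - y0)) := by
    rw [gqx_eq2 (by linarith : y < 1), gqx_eq2 (by linarith : y0 < 1)]
    have a1 := mul_le_mul_of_nonneg_right r1 (add_nonneg (gqx_pos (by linarith : y < 1)).le v0)
    have a2 := mul_le_mul_of_nonneg_left (add_le_add inv3 inv2) hz
    refine a1.trans (le_trans (le_of_eq ?_) a2)
    ring
  have g2 := gqx_mono yy2 i1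
  have G2 := gqx_pos i1
  have G0 := gqx_pos (by linarith : y0 < 1)
  set b := 1 + γ * (1 - z) with hb
  have b0 : 0 ≤ b := by
    have := mul_nonneg h.γ0 hz
    linarith
  have e2 : gqx y2 * (1 - y2) ^ 2 = 1 := by
    unfold gqx
    exact inv_mul_cancel₀ (by positivity)
  have e0 : gqx y0 * (1 - y0) ^ 2 = 1 := by
    unfold gqx
    exact inv_mul_cancel₀ (by positivity)
  have k1 : z * (ε0 * b * gqx y) ≤ z * (ε0 * b * gqx y2) :=
    mul_le_mul_of_nonneg_left (mul_le_mul_of_nonneg_left g2 (mul_nonneg h.ε00 b0)) z0.le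
  have k2 : C * (z * (α * b) * (gqx y * (2 - y)) * ((1 - z / (1 - u)) * q))
      ≤ C * (z * (α * b) * ((1 - z) * (gqx y0 * (2 - y0))) * q) := by
    have a1 := mul_le_mul_of_nonneg_right key1 (mul_nonneg (mul_nonneg h.C0
      (mul_nonneg z0.le (mul_nonneg h.α0 b0))) qn)
    linarith
  refine (add_le_add k1 k2).trans ?_
  have m0 : z * (ε0 * b * gqx y2) ≤ z * ga1 + (1 - z) * ga2 := by
    have a1 := mul_le_mul_of_nonneg_left (h.h3 z ⟨z0.le, z1⟩) G2.le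
    calc _ = gqx y2 * (z * (ε0 * b)) := by ring
      _ ≤ gqx y2 * ((z * ga1 + (1 - z) * ga2) * (1 - y2) ^ 2) := a1
      _ = (z * ga1 + (1 - z) * ga2) * (gqx y2 * (1 - y2) ^ 2) := by ring
      _ = _ := by rw [e2, mul_one]
  have m1 : z * (ε0 * b * gqx y2) + C * (z * (α * b) * ((1 - z) * (gqx y0 * (2 - y0))) * q0)
      ≤ z * (ga1 + gb1 * q0) + (1 - z) * (ga2 + gb2 * q0) := by
    have a1 := mul_le_mul_of_nonneg_left (h.h4 z ⟨z0.le, z1⟩) (mul_pos G0 G2).le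
    rw [← hb, ← hy2] at a1
    have e3 : z * (α * b) = y0 := by rw [hy0]
    rw [e3] at a1
    calc _ = gqx y2 * (z * (ε0 * b)) * (gqx y0 * (1 - y0) ^ 2)
          + C * q0 * (z * (α * b)) * (2 - y0) * (1 - z) * gqx y0 * (gqx y2 * (1 - y2) ^ 2) := by
          rw [e0, e2]; ring
      _ = gqx y0 * gqx y2 * (z * (ε0 * b * (1 - y0) ^ 2
          + C * q0 * (α * b * (2 - y0) * (1 - z)) * (1 - y2) ^ 2)) := by ring
      _ ≤ _ := a1
      _ = (z * (ga1 + gb1 * q0) + (1 - z) * (ga2 + gb2 * q0))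
          * ((gqx y0 * (1 - y0) ^ 2) * (gqx y2 * (1 - y2) ^ 2)) := by ring
      _ = _ := by rw [e0, e2]; ring
  have key := lin_q (a := z * ga1 + (1 - z) * ga2 - z * (ε0 * b * gqx y2))
    (b := z * gb1 + (1 - z) * gb2 - C * (z * (α * b) * ((1 - z) * (gqx y0 * (2 - y0))))) qn hq
    (by linarith) (by linarith)
  linarith

/-- **the joint bound of amplification and direct error** -/
theorem Amq.main {u z w Q Λ : ℝ} (u0 : 0 ≤ u) (z0 : 0 ≤ z) (w0 : 0 ≤ w) (huz : u + z ≤ 1)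
    (hwz : w + z ≤ 1) (huw : u + w ≤ 1) (Q0 : 0 ≤ Q) (hQ : (1 - u) * Q ≤ q0)
    (hΛ : Λ ≤ (1 - u - z) * Q) :
    z * (ε0 * (1 + γ * (u + w))) / (1 - z * (α * (1 + γ * (u + w)))) ^ 2
      + C * (z * psb z (α * (1 + γ * (u + w))) * Λ)
      ≤ z * ((1 + γ * u) * (ga1 + gb1 * ((1 - u) * Q)))
        + w * ((1 + γ * u) * (ga2 + gb2 * ((1 - u) * Q))) := by
  have θ0 : 0 < 1 + γ * u := by
    have := mul_nonneg h.γ0 u0
    linarith
  have qn : 0 ≤ (1 - u) * Q := mul_nonneg (by linarith) Q0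
  have z1 : z ≤ 1 := by linarith
  have ylt := h.A_lt z0 z1 (add_nonneg u0 w0) huw
  rcases lt_or_eq_of_le z0 with zp | zz
  swap
  · rw [← zz]
    simp only [zero_mul, sub_zero, one_pow, zero_div, zero_add, mul_zero]
    exact mul_nonneg w0 (mul_nonneg θ0.le (add_nonneg h.a20 (mul_nonneg h.b20 qn)))
  have u1 : 0 < 1 - u := by linarith
  have A0 : 0 ≤ α * (1 + γ * (u + w)) := mul_nonneg h.α0 (by
    have := mul_nonneg h.γ0 (add_nonneg u0 w0)
    linarith)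
  -- replace the entry by its bound
  have k0 : z * psb z (α * (1 + γ * (u + w))) * Λ
      ≤ z * psb z (α * (1 + γ * (u + w))) * ((1 - u - z) * Q) :=
    mul_le_mul_of_nonneg_left hΛ (mul_nonneg z0 (psb_nonneg A0 ylt))
  have k1 := mul_le_mul_of_nonneg_left k0 h.C0
  rw [gqx_div]
  refine (add_le_add_right k1 _).trans ?_
  rw [gqx_sub ylt]
  set S := (1 - u - z) * Q with hS
  have eS : S = (1 - z / (1 - u)) * ((1 - u) * Q) := by
    rw [hS]
    field_simp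
  have S0 : 0 ≤ S := mul_nonneg (by linarith) Q0
  have CS : 0 ≤ C * S := mul_nonneg h.C0 S0
  -- the first end
  have y0lt := h.A_lt z0 z1 u0 (by linarith : u ≤ 1)
  have E0 : z * (ε0 * (1 + γ * u)) * gqx (z * (α * (1 + γ * u)))
      + C * ((gqx (z * (α * (1 + γ * u))) - 1) * S)
      ≤ z * ((1 + γ * u) * (ga1 + gb1 * ((1 - u) * Q))) := by
    have a1 := mul_le_mul_of_nonneg_left (h.end0 u0 zp huz qn hQ)
      (mul_nonneg z0 θ0.le)
    rw [gqx_sub' y0lt, eS]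
    refine le_trans (le_of_eq ?_) (a1.trans (le_of_eq ?_)) <;> ring
  rcases eq_or_lt_of_le z1 with zo | zo
  · have w00 : w = 0 := le_antisymm (by linarith) w0
    subst w00
    rw [add_zero, zero_mul, add_zero]
    exact E0
  have hz : 0 < 1 - z := by linarith
  -- the second end
  have y1lt : z * (α * (1 + γ * (u + (1 - z)))) < 1 := by
    obtain ⟨i1, -⟩ := h.y2 z0 z1
    refine lt_of_le_of_lt ?_ i1
    refine mul_le_mul_of_nonneg_left (mul_le_mul_of_nonneg_left ?_ h.α0) z0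
    have := mul_le_mul_of_nonneg_left (show u ≤ 1 - z by linarith) h.γ0
    linarith
  have E1 : z * (ε0 * (1 + γ * (u + (1 - z)))) * gqx (z * (α * (1 + γ * (u + (1 - z)))))
      + C * ((gqx (z * (α * (1 + γ * (u + (1 - z))))) - 1) * S)
      ≤ z * ((1 + γ * u) * (ga1 + gb1 * ((1 - u) * Q)))
        + (1 - z) * ((1 + γ * u) * (ga2 + gb2 * ((1 - u) * Q))) := by
    have a1 := mul_le_mul_of_nonneg_left (h.end1 u0 zp huz qn hQ) θ0.le
    have b1 : 1 + γ * (u + (1 - z)) ≤ (1 + γ * u) * (1 + γ * (1 - z)) := by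
      have := mul_nonneg (mul_nonneg h.γ0 u0) (mul_nonneg h.γ0 hz.le)
      linarith
    have G := gqx_pos y1lt
    have G2 : 0 ≤ gqx (z * (α * (1 + γ * (u + (1 - z)))))
        * (2 - z * (α * (1 + γ * (u + (1 - z))))) := mul_nonneg G.le (by linarith)
    rw [gqx_sub' y1lt, eS]
    have r0 : 0 ≤ 1 - z / (1 - u) := by
      rw [sub_nonneg, div_le_one u1]; linarith
    have c1 : z * (ε0 * (1 + γ * (u + (1 - z)))) * gqx (z * (α * (1 + γ * (u + (1 - z)))))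
        ≤ (1 + γ * u) * (z * (ε0 * (1 + γ * (1 - z))
          * gqx (z * (α * (1 + γ * (u + (1 - z))))))) := by
      have := mul_le_mul_of_nonneg_right b1 (mul_nonneg (mul_nonneg z0 h.ε00) G.le)
      linarith
    have c2 : C * (z * (α * (1 + γ * (u + (1 - z)))) * (gqx (z * (α * (1 + γ * (u + (1 - z)))))
          * (2 - z * (α * (1 + γ * (u + (1 - z)))))) * ((1 - z / (1 - u)) * ((1 - u) * Q)))
        ≤ (1 + γ * u) * (C * (z * (α * (1 + γ * (1 - z)))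
          * (gqx (z * (α * (1 + γ * (u + (1 - z)))))
          * (2 - z * (α * (1 + γ * (u + (1 - z)))))) * ((1 - z / (1 - u)) * ((1 - u) * Q)))) := by
      have := mul_le_mul_of_nonneg_right b1 (mul_nonneg (mul_nonneg h.C0 (mul_nonneg
        (mul_nonneg z0 h.α0) G2)) (mul_nonneg r0 qn))
      linarith
    refine (add_le_add c1 c2).trans (le_trans (le_of_eq ?_) (a1.trans (le_of_eq ?_))) <;> ring
  -- the chord
  set l := w / (1 - z) with hl
  have l0 : 0 ≤ l := div_nonneg w0 hz.le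
  have l1 : l ≤ 1 := by rw [hl, div_le_one hz]; linarith
  have ew : w = l * (1 - z) := by rw [hl]; field_simp
  have g1 := gqx_chord y0lt y1lt l0 l1
  have ey : (1 - l) * (z * (α * (1 + γ * u))) + l * (z * (α * (1 + γ * (u + (1 - z)))))
      = z * (α * (1 + γ * (u + w))) := by rw [ew]; ring
  rw [ey] at g1
  have hf : z * (ε0 * (1 + γ * u)) ≤ z * (ε0 * (1 + γ * (u + (1 - z)))) :=
    mul_le_mul_of_nonneg_left (mul_le_mul_of_nonneg_left (by
      have := mul_nonneg h.γ0 hz.le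
      linarith) h.ε00) z0
  have hgm : gqx (z * (α * (1 + γ * u))) ≤ gqx (z * (α * (1 + γ * (u + (1 - z))))) :=
    gqx_mono (mul_le_mul_of_nonneg_left (mul_le_mul_of_nonneg_left (by
      have := mul_nonneg h.γ0 hz.le
      linarith) h.α0) z0) y1lt
  have pc := prod_chord l0 l1 (mul_nonneg z0 (mul_nonneg h.ε00 θ0.le)) hf hgm g1
  have ef : (1 - l) * (z * (ε0 * (1 + γ * u))) + l * (z * (ε0 * (1 + γ * (u + (1 - z)))))
      = z * (ε0 * (1 + γ * (u + w))) := by rw [ew]; ring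
  rw [ef] at pc
  have c3 := mul_le_mul_of_nonneg_left g1 CS
  have d0 := mul_le_mul_of_nonneg_left E0 (show 0 ≤ 1 - l by linarith)
  have d1 := mul_le_mul_of_nonneg_left E1 l0
  have e4 : w * ((1 + γ * u) * (ga2 + gb2 * ((1 - u) * Q)))
      = l * ((1 - z) * ((1 + γ * u) * (ga2 + gb2 * ((1 - u) * Q)))) := by rw [ew]; ring
  rw [e4]
  nlinarith

end amq

end Pool.Agent.RX.RCN.K
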