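import Pool.Agent.RX.RCN.Fin_1
import Pool.Agent.RX.RCN.T1F
import Pool.Agent.RX.RCN.XqA

/-! The first part of the inequality of the centres with the joint bound of amplification and
direct error (MP_73ccd0_lc, route M). -/

namespace Pool.Agent.RX.RCN.K

open Set Finset MeasureTheory Pool.Agent.RX.RCRSHalf Pool.Agent.RX.RCG Pool.Agent.RX.RCG.Ct
open Pool.Agent.RX.RCN.Ker Pool.Agent.RX.RCM.Jen

set_option linter.unusedSectionVars false

variable {V : Type*} [Fintype V] [DecidableEq V]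

/-- the scalars of the first part at the time `t`, second form -/
structure T1u (k : Kf) (κd : ℝ → ℝ → ℝ → ℝ) (A : ℝ → ℝ → ℝ) (t : ℝ) (ch : ℝ → ℝ)
    (α γ mt C ε0 : ℝ) : Prop where
  ch1 : ∀ y ∈ Icc (0 : ℝ) 1, (1 + t) * k.fh y t ≤ ch y
  ch0 : ∀ y ∈ Icc (0 : ℝ) 1, 0 ≤ ch y
  chm : ∀ y ∈ Icc (0 : ℝ) 1, ∀ y' ∈ Icc (0 : ℝ) 1, y ≤ y' → y * ch y ≤ y' * ch y'
  A1 : ∀ w ∈ Icc (0 : ℝ) 1, A w t ≤ α * (1 + γ * w)
  α0 : 0 ≤ α
  γ0 : 0 ≤ γ
  γ1 : γ ≤ 1
  m1 : α * (1 + γ / 2) ≤ mt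
  mt1 : mt < 1
  m2 : mt * γ ≤ 1 - mt + γ / 4
  a1 : α * (1 + γ) < 1
  cj : CJ C mt
  C0 : 0 ≤ C
  ε : ∀ z ∈ Icc (0 : ℝ) 1, ∀ w ∈ Icc (0 : ℝ) 1,
    ∫ s in (0 : ℝ)..t, k.fh z s * (κd w t s - k.Pe w t) ≤ ε0 * (1 + γ * w)
  ε00 : 0 ≤ ε0

variable {x : V → V → ℝ} {P : V → Prop} [DecidablePred P] {k : Kf} {N : ℕ}
variable {κd : ℝ → ℝ → ℝ → ℝ} {R : V → V → V → ℝ → ℝ → ℝ} {L Lt : V → V → V → V → ℝ → ℝ → ℝ}

/-- **one entry of the first part** -/
theorem em_entryQ {A : ℝ → ℝ → ℝ} {t : ℝ} {ch : ℝ → ℝ} {α γ mt C ε0 : ℝ}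
    (hs : T1u k κd A t ch α γ mt C ε0)
    (hf : Lf N k κd R L Lt) (hx : Wt x P 1) (hk : k.Ok)
    (hfc : ∀ y ∈ Icc (0 : ℝ) 1, ContinuousOn (k.fh y) (Icc 0 bt))
    (cPe : ∀ w, ContinuousOn (k.Pe w) (Icc 0 bt)) (hA : Ab k κd A) (ht : t ∈ Icc (0 : ℝ) bt)
    {a b c : V} (ha : P a) (hb : P b) (hc : P c) (hab : a ≠ b) (hac : a ≠ c) (hbc : b ≠ c) :
    emin ((xdOf x κd R L Lt).E x P k) P a b c t
        * amp k.mb ((xdOf x κd R L Lt).E x P k) x P a b c t
      ≤ x b c * (ε0 * (1 + γ * (x a b + x a c)))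
          / (1 - x b c * (α * (1 + γ * (x a b + x a c)))) ^ 2
        + (C * LamL x P k κd R L Lt a b c t
          + C * (x b c * psb (x b c) (α * (1 + γ * (x a b + x a c)))
            * LamL x P k κd R L Lt a b c t)) := by
  have hΛ := LamL_nonneg (R := R) (L := L) (Lt := Lt) hf hx hk a b c ht
  have z0 := hx.nonneg b c
  -- the main part
  have q1 : ∀ {u v : V}, P u → P v → xr x P u v = x u v := fun hu hv => by
    unfold xr; rw [if_pos ⟨hu, hv⟩]
  have hw := two_mem hx a hbc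
  have hz := x_mem hx b c
  have e0 := e0L_nonneg hf hx hk a hbc ht
  have u0 := hx.nonneg a b
  have y0 := hx.nonneg a c
  have i1 : xr x P a b + xr x P a c ≤ 1 := xr_add_le hx hbc
  have m0 : 0 ≤ k.mb (xr x P a b) (xr x P a c) (xr x P b c) t :=
    hk.mb_nonneg (xmem1 hx a b) (xmem1 hx a c) (xmem1 hx b c) i1 ht
  have hm' : k.mb (xr x P a b) (xr x P a c) (xr x P b c) t + e0L x P k κd a b c t
      ≤ x b c * (α * (1 + γ * (x a b + x a c))) := by
    have e : ∀ s, fq x P k.fh b c s = k.fh (x b c) s := fun s => by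
      unfold fq; rw [if_pos hc]
    have j1 := mul_le_mul_of_nonneg_left ((hA.fi _ hw _ hz t ht).trans (hs.A1 _ hw)) z0
    rw [q1 ha hb, q1 ha hc, q1 hb hc]
    unfold e0L Kf.mb
    simp only [e]
    calc _ = x b c * (k.Pe (x a b + x a c) t * k.fi (x b c) t
          + ∫ s in (0 : ℝ)..t, k.fh (x b c) s
            * (κd (x a b + x a c) t s - k.Pe (x a b + x a c) t)) := by ring
      _ ≤ _ := j1
  set m := k.mb (xr x P a b) (xr x P a c) (xr x P b c) t with hmdef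
  set e := e0L x P k κd a b c t with hedef
  have g1 : γ * (x a b + x a c) ≤ γ * 1 := mul_le_mul_of_nonneg_left hw.2 hs.γ0
  have g0 : 0 ≤ γ * (x a b + x a c) := mul_nonneg hs.γ0 hw.1
  have g2 : α * (1 + γ * (x a b + x a c)) ≤ α * (1 + γ) :=
    mul_le_mul_of_nonneg_left (by linarith) hs.α0
  have g3 : m + e ≤ x b c * (α * (1 + γ)) := hm'.trans (mul_le_mul_of_nonneg_left g2 z0)
  have A10 : 0 ≤ α * (1 + γ) := mul_nonneg hs.α0 (by linarith [hs.γ0])
  have g4 : x b c * (α * (1 + γ)) ≤ α * (1 + γ) := mul_le_of_le_one_left A10 hz.2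
  have g5 : x b c * (α * (1 + γ * (x a b + x a c))) < 1 :=
    lt_of_le_of_lt ((mul_le_mul_of_nonneg_left g2 z0).trans g4) hs.a1
  have hM : m + e < 1 := lt_of_le_of_lt (g3.trans g4) hs.a1
  have hmu : muL x P k κd a b c t t ≤ mt * (1 - m - e) := by
    refine (muL_le hf hx hfc hA ht hs.A1 hs.α0 hs.γ0 hab hac hbc).trans ?_
    refine (mu_scalar hs.α0 hs.γ0 hs.m1 hs.mt1.le hs.m2 u0 z0 y0 (x_mem hx a c).2
      hs.γ1).trans ?_
    have mt0 : 0 ≤ mt := le_trans (mul_nonneg hs.α0 (by linarith [hs.γ0])) hs.m1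
    exact mul_le_mul_of_nonneg_left (by linarith) mt0
  have hE0 : 0 ≤ (xdOf x κd R L Lt).E x P k a b c t := E_nonneg' hf hx hk a hbc ht
  have hE0' : 0 ≤ (xdOf x κd R L Lt).E x P k a c b t := E_nonneg' hf hx hk a hbc.symm ht
  have he0 : 0 ≤ emin ((xdOf x κd R L Lt).E x P k) P a b c t := by
    unfold emin
    rw [if_pos hc]
    exact le_min hE0 hE0'
  have he1 : emin ((xdOf x κd R L Lt).E x P k) P a b c t
      ≤ (xdOf x κd R L Lt).E x P k a b c t := by
    unfold emin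
    rw [if_pos hc]
    exact min_le_left _ _
  have key := em_amp hf hx hk hfc cPe hs.cj hs.C0 hs.mt1 a hbc ht m0 hM hmu he0 he1
  have p1 : 0 < 1 - m - e := by linarith
  have p3 : 0 < 1 - x b c * (α * (1 + γ * (x a b + x a c))) := by linarith
  have d3 : (1 - x b c * (α * (1 + γ * (x a b + x a c)))) ^ 2 ≤ (1 - m - e) ^ 2 :=
    pow_le_pow_left₀ p3.le (by linarith) 2
  unfold amp
  refine key.trans (add_le_add ?_ ?_)
  · -- the direct part
    have d1 : (1 - m - e) ^ 2 ≤ (1 - m) * (1 - m - e) := by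
      have : 0 ≤ e * (1 - m - e) := mul_nonneg e0 (by linarith)
      nlinarith
    have d2 : e ≤ x b c * (ε0 * (1 + γ * (x a b + x a c))) := by
      have ee : ∀ s, fq x P k.fh b c s = k.fh (x b c) s := fun s => by
        unfold fq; rw [if_pos hc]
      rw [hedef]
      unfold e0L
      simp only [ee]
      exact mul_le_mul_of_nonneg_left (hs.ε _ hz _ hw) z0
    exact div_le_div₀ (e0.trans d2) d2 (by positivity) (d3.trans d1)
  · have hp := psi_le g5 (add_nonneg m0 e0) hm'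
    have c0 : 0 ≤ C * LamL x P k κd R L Lt a b c t := mul_nonneg hs.C0 hΛ
    have h1 := mul_le_mul_of_nonneg_left hp c0
    rw [div_eq_mul_inv, show 1 - m - e = 1 - (m + e) by ring]
    linarith

/-- the sum of the amplified errors at a neighbour of the centre -/
theorem em_sumQ {A : ℝ → ℝ → ℝ} {t : ℝ} {ch : ℝ → ℝ} {α γ mt C ε0 : ℝ}
    (hs : T1u k κd A t ch α γ mt C ε0)
    (hf : Lf N k κd R L Lt) (hx : Wt x P 1) (hk : k.Ok)
    (hfc : ∀ y ∈ Icc (0 : ℝ) 1, ContinuousOn (k.fh y) (Icc 0 bt))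
    (cPe : ∀ w, ContinuousOn (k.Pe w) (Icc 0 bt)) (hA : Ab k κd A) (ht : t ∈ Icc (0 : ℝ) bt)
    {a b : V} (ha : P a) (hb : P b) (hab : a ≠ b) {rw G1 G2 : ℝ} (G10 : 0 ≤ G1) (G20 : 0 ≤ G2)
    (hrow : ∑ c ∈ ({a, b} : Finset V)ᶜ, (if P c then LamL x P k κd R L Lt a b c t else 0)
      ≤ (1 - x a b) * rw)
    (hent : ∀ c ∈ ({a, b} : Finset V)ᶜ, P c →
      x b c * (ε0 * (1 + γ * (x a b + x a c)))
          / (1 - x b c * (α * (1 + γ * (x a b + x a c)))) ^ 2
        + C * (x b c * psb (x b c) (α * (1 + γ * (x a b + x a c)))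
            * LamL x P k κd R L Lt a b c t) ≤ x b c * G1 + x a c * G2) :
    ∑ c ∈ ({a, b} : Finset V)ᶜ, emin ((xdOf x κd R L Lt).E x P k) P a b c t
        * amp k.mb ((xdOf x κd R L Lt).E x P k) x P a b c t
      ≤ (1 - x a b) * (G1 + G2 + C * rw) := by
  have h1 : ∀ c ∈ ({a, b} : Finset V)ᶜ, emin ((xdOf x κd R L Lt).E x P k) P a b c t
        * amp k.mb ((xdOf x κd R L Lt).E x P k) x P a b c t
      ≤ (x b c * G1 + x a c * G2)
        + C * (if P c then LamL x P k κd R L Lt a b c t else 0) := by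
    intro c hc
    have hc' := hc
    rw [mem2] at hc'
    by_cases hPc : P c
    swap
    · rw [if_neg hPc]
      have ee : emin ((xdOf x κd R L Lt).E x P k) P a b c t = 0 := by
        unfold emin; rw [if_neg hPc]
      rw [ee, zero_mul, mul_zero, add_zero]
      exact add_nonneg (mul_nonneg (hx.nonneg b c) G10) (mul_nonneg (hx.nonneg a c) G20)
    rw [if_pos hPc]
    have k1 := em_entryQ hs hf hx hk hfc cPe hA ht ha hb hPc hab
      (Ne.symm hc'.1) (Ne.symm hc'.2)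
    have k2 := hent c hc hPc
    linarith
  refine (Finset.sum_le_sum h1).trans ?_
  rw [Finset.sum_add_distrib, Finset.sum_add_distrib, ← Finset.sum_mul, ← Finset.sum_mul,
    ← Finset.mul_sum]
  have r1 := row_one hx b a (({a, b} : Finset V)ᶜ) fun d hd => by
    rw [mem2] at hd; exact hd.1
  have r2 := row_one hx a b (({a, b} : Finset V)ᶜ) fun d hd => by
    rw [mem2] at hd; exact hd.2
  rw [hx.symm b a] at r1
  have j1 := mul_le_mul_of_nonneg_right r1 G10
  have j3 := mul_le_mul_of_nonneg_right r2 G20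
  have j2 := mul_le_mul_of_nonneg_left hrow hs.C0
  calc _ ≤ ((1 - x a b) * G1 + (1 - x a b) * G2) + C * ((1 - x a b) * rw) :=
        add_le_add (add_le_add j1 j3) j2
    _ = _ := by ring

/-- **the first part of the inequality of the centres** -/
theorem t1_absQ {A : ℝ → ℝ → ℝ} {t : ℝ} {ch : ℝ → ℝ} {α γ mt C ε0 k1 : ℝ}
    (hs : T1u k κd A t ch α γ mt C ε0)
    (hf : Lf N k κd R L Lt) (hx : Wt x P 1) (hk : k.Ok)
    (hfc : ∀ y ∈ Icc (0 : ℝ) 1, ContinuousOn (k.fh y) (Icc 0 bt))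
    (cPe : ∀ w, ContinuousOn (k.Pe w) (Icc 0 bt)) (hA : Ab k κd A)
    (hms : ∀ x y z t, k.mb x y z t = k.mb y x z t) (ht : t ∈ Icc (0 : ℝ) bt)
    {a : V} (ha : P a)
    (hgap : ∀ b d, P b → P d → a ≠ b → a ≠ d → b ≠ d →
      k.mb (xr x P a b) (xr x P a d) (xr x P b d) t
        + min ((xdOf x κd R L Lt).E x P k a b d t) ((xdOf x κd R L Lt).E x P k a d b t) ≤ 1)
    {rw G1 G2 : ℝ → ℝ} (G10 : ∀ u ∈ Icc (0 : ℝ) 1, 0 ≤ G1 u)
    (G20 : ∀ u ∈ Icc (0 : ℝ) 1, 0 ≤ G2 u)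
    (hrow : ∀ b, P b → a ≠ b →
      ∑ c ∈ ({a, b} : Finset V)ᶜ, (if P c then LamL x P k κd R L Lt a b c t else 0)
        ≤ (1 - x a b) * rw (x a b))
    (hent : ∀ b, P b → a ≠ b → ∀ c ∈ ({a, b} : Finset V)ᶜ, P c →
      x b c * (ε0 * (1 + γ * (x a b + x a c)))
          / (1 - x b c * (α * (1 + γ * (x a b + x a c)))) ^ 2
        + C * (x b c * psb (x b c) (α * (1 + γ * (x a b + x a c)))
            * LamL x P k κd R L Lt a b c t) ≤ x b c * G1 (x a b) + x a c * G2 (x a b))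
    (hfin : ∀ u ∈ Icc (0 : ℝ) 1, ch u * (G1 u + G2 u + C * rw u) ≤ k1) :
    ∑ b, xr x P a b * ∑ d ∈ ({a, b} : Finset V)ᶜ,
        wS k.fh k.mb ((xdOf x κd R L Lt).E x P k) x P a b d t
      ≤ k1 * ∑ b, xr x P a b ^ 2 * (1 - xr x P a b) := by
  classical
  set E := (xdOf x κd R L Lt).E x P k with hE
  have hu0 : ∀ b, 0 ≤ xr x P a b := fun b => xr_nonneg hx a b
  have hm1 := xmem1 (P := P) hx a
  have hxe : ∀ {b : V}, P b → xr x P a b = x a b := fun hb => by
    unfold xr; rw [if_pos ⟨ha, hb⟩]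
  have hxz : ∀ {b : V}, ¬ P b → xr x P a b = 0 := fun hb => by
    unfold xr; rw [if_neg fun h => hb h.2]
  have hxa : xr x P a a = 0 := by rw [hxe ha, hx.diag]
  -- the nonnegativity
  have hn : ∀ b d, P b → a ≠ b → d ∈ ({a, b} : Finset V)ᶜ →
      0 ≤ emin E P a b d t * amp k.mb E x P a b d t := by
    intro b d hb hab hd
    rw [mem2] at hd
    by_cases hPd : P d
    · have i1 : xr x P a b + xr x P a d ≤ 1 := xr_add_le hx (Ne.symm hd.2)
      have m0 : 0 ≤ k.mb (xr x P a b) (xr x P a d) (xr x P b d) t :=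
        hk.mb_nonneg (xmem1 hx a b) (xmem1 hx a d) (xmem1 hx b d) i1 ht
      have e1 : 0 ≤ E a b d t := E_nonneg' hf hx hk a (Ne.symm hd.2) ht
      have e2 : 0 ≤ E a d b t := E_nonneg' hf hx hk a hd.2 ht
      have g := hgap b d hb hPd hab (Ne.symm hd.1) (Ne.symm hd.2)
      have ee : emin E P a b d t = min (E a b d t) (E a d b t) := by
        unfold emin; rw [if_pos hPd]
      have e3 : 0 ≤ emin E P a b d t := by rw [ee]; exact le_min e1 e2
      rw [← ee] at g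
      refine mul_nonneg e3 (inv_nonneg.2 (mul_nonneg ?_ ?_)) <;> linarith
    · have ee : emin E P a b d t = 0 := by unfold emin; rw [if_neg hPd]
      rw [ee, zero_mul]
  -- the symmetric matrix
  set M : V → V → ℝ := fun b d =>
    if P b ∧ P d ∧ a ≠ b ∧ a ≠ d ∧ b ≠ d then emin E P a b d t * amp k.mb E x P a b d t else 0
    with hMdef
  have hM0 : ∀ b d, 0 ≤ M b d := by
    intro b d
    rw [hMdef]
    beta_reduce
    split_ifs with h
    · exact hn b d h.1 h.2.2.1 (mem2.2 ⟨Ne.symm h.2.2.2.1, Ne.symm h.2.2.2.2⟩)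
    · exact le_rfl
  have hMs : ∀ b d, M b d = M d b := by
    intro b d
    rw [hMdef]
    beta_reduce
    by_cases h : P b ∧ P d ∧ a ≠ b ∧ a ≠ d ∧ b ≠ d
    · rw [if_pos h, if_pos ⟨h.2.1, h.1, h.2.2.2.1, h.2.2.1, Ne.symm h.2.2.2.2⟩]
      have e1 : emin E P a b d t = emin E P a d b t := by
        unfold emin
        rw [if_pos h.2.1, if_pos h.1, min_comm]
      unfold amp
      rw [← e1, hms (xr x P a d) (xr x P a b), xr_symm hx d b]
    · rw [if_neg h, if_neg fun h' => h ⟨h'.2.1, h'.1, h'.2.2.2.1, h'.2.2.1,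
        Ne.symm h'.2.2.2.2⟩]
  -- the sum with the matrix
  have hT : ∑ b, xr x P a b * ∑ d ∈ ({a, b} : Finset V)ᶜ,
        wS k.fh k.mb E x P a b d t
      ≤ ∑ b, ∑ d, xr x P a b * xr x P a d * ch (xr x P a d) * M b d := by
    refine Finset.sum_le_sum fun b _ => ?_
    by_cases hb : P b ∧ a ≠ b
    · rw [Finset.mul_sum]
      refine le_trans (Finset.sum_le_sum fun d hd => ?_)
        (Finset.sum_le_sum_of_subset_of_nonneg (Finset.subset_univ _) fun d _ _ =>
          mul_nonneg (mul_nonneg (mul_nonneg (hu0 b) (hu0 d)) (hs.ch0 _ (hm1 d))) (hM0 b d))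
      have hd' := hd
      rw [mem2] at hd'
      by_cases hPd : P d
      · have e1 : M b d = emin E P a b d t * amp k.mb E x P a b d t := by
          rw [hMdef]
          beta_reduce
          rw [if_pos ⟨hb.1, hPd, hb.2, Ne.symm hd'.1, Ne.symm hd'.2⟩]
        rw [e1]
        unfold wS
        have k1 := hs.ch1 _ (hm1 d)
        have k2 := hn b d hb.1 hb.2 hd
        calc xr x P a b * (xr x P a d * ((1 + t) * k.fh (xr x P a d) t)
              * (emin E P a b d t * amp k.mb E x P a b d t))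
            = (xr x P a b * xr x P a d * (emin E P a b d t * amp k.mb E x P a b d t))
              * ((1 + t) * k.fh (xr x P a d) t) := by ring
          _ ≤ (xr x P a b * xr x P a d * (emin E P a b d t * amp k.mb E x P a b d t))
              * ch (xr x P a d) :=
            mul_le_mul_of_nonneg_left k1 (mul_nonneg (mul_nonneg (hu0 b) (hu0 d)) k2)
          _ = _ := by ring
      · unfold wS
        rw [hxz hPd]
        simp
    · have : xr x P a b = 0 := by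
        by_cases h : P b
        · have hab : a = b := by
            by_contra h'
            exact hb ⟨h, h'⟩
          rw [← hab]; exact hxa
        · exact hxz h
      rw [this]
      simp
  refine hT.trans ((symm_sum (u := fun b => xr x P a b) (c := fun b => ch (xr x P a b)) hMs hM0
    fun b d => ?_).trans ?_)
  · beta_reduce
    rcases le_total (xr x P a b) (xr x P a d) with h | h
    · have := hs.chm _ (hm1 b) _ (hm1 d) h
      exact mul_nonneg_of_nonpos_of_nonpos (by linarith) (by linarith)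
    · have := hs.chm _ (hm1 d) _ (hm1 b) h
      exact mul_nonneg (by linarith) (by linarith)
  · rw [Finset.mul_sum]
    refine Finset.sum_le_sum fun b _ => ?_
    by_cases hb : P b ∧ a ≠ b
    · have h1 : ∑ d, M b d ≤ ∑ c ∈ ({a, b} : Finset V)ᶜ, emin E P a b c t
          * amp k.mb E x P a b c t := by
        rw [← Finset.sum_subset (Finset.subset_univ (({a, b} : Finset V)ᶜ)) fun d _ hd => ?_]
        · refine Finset.sum_le_sum fun d hd => ?_
          rw [hMdef]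
          beta_reduce
          split_ifs
          · exact le_rfl
          · exact hn b d hb.1 hb.2 hd
        · rw [hMdef]
          beta_reduce
          rw [mem2] at hd
          rw [if_neg fun h => hd ⟨Ne.symm h.2.2.2.1, Ne.symm h.2.2.2.2⟩]
      have hu := x_mem hx a b
      have h2 := h1.trans (em_sumQ hs hf hx hk hfc cPe hA ht ha hb.1 hb.2 (G10 _ hu) (G20 _ hu)
        (hrow b hb.1 hb.2) (hent b hb.1 hb.2))
      have h3 := hfin _ hu
      beta_reduce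
      rw [← Finset.mul_sum, hxe hb.1]
      have c0 := hs.ch0 _ hu
      have h4 := mul_le_mul_of_nonneg_left h2 (mul_nonneg (sq_nonneg (x a b)) c0)
      have h5 := mul_le_mul_of_nonneg_left h3 (mul_nonneg (sq_nonneg (x a b))
        (show 0 ≤ 1 - x a b by linarith [hu.2]))
      calc _ ≤ x a b ^ 2 * ch (x a b) * ((1 - x a b)
            * (G1 (x a b) + G2 (x a b) + C * rw (x a b))) := h4
        _ = x a b ^ 2 * (1 - x a b) * (ch (x a b)
            * (G1 (x a b) + G2 (x a b) + C * rw (x a b))) := by ring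
        _ ≤ x a b ^ 2 * (1 - x a b) * k1 := h5
        _ = _ := by ring
    · have : xr x P a b = 0 := by
        by_cases h : P b
        · have hab : a = b := by
            by_contra h'
            exact hb ⟨h, h'⟩
          rw [← hab]; exact hxa
        · exact hxz h
      rw [this]
      simp

section

variable {a b : V} {Z : Hzd} {F : Lz V} {sl : ℝ → ℝ → ℝ} {B E1 : ℝ → ℝ → ℝ}
  {mb κ0 φ Fs J x2 x2' : ℝ → ℝ} {t γ α0 cE Y δ ω ωH oA oB IA x1 mM : ℝ}
  {X Xt : V → V → ℝ → ℝ}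

/-- **the first part of the inequality of the centres, with numbers** -/
theorem t1_numQ {A : ℝ → ℝ → ℝ} {ch : ℝ → ℝ} {mt C ε0 k1 ga1 ga2 gb1 gb2 : ℝ} {α : ℝ}
    (hs : T1u k κd A t ch α γ mt C ε0)
    (hc : T1c k B mb κ0 φ Fs J x2 x2' t γ α0 cE Y δ ω oA oB IA x1)
    (hC : Z.Cf B E1) (hZ : Z.Ok sl)
    (hf : Lf N k κd R L Lt) (hx : Wt x P 1) (hk : k.Ok)
    (hfc : ∀ y ∈ Icc (0 : ℝ) 1, ContinuousOn (k.fh y) (Icc 0 bt))
    (cPe : ∀ w, ContinuousOn (k.Pe w) (Icc 0 bt)) (hA : Ab k κd A)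
    (hms : ∀ x y z t, k.mb x y z t = k.mb y x z t) (ht : t ∈ Icc (0 : ℝ) bt)
    {a : V} (ha : P a)
    (hw : ∀ b, P b → a ≠ b → ∃ (F : Lz V) (X Xt : V → V → ℝ → ℝ),
      T1w Z F x P R L Lt X Xt a b mb x2 x2' t γ Y δ ωH mM x1)
    (hgap : ∀ b d, P b → P d → a ≠ b → a ≠ d → b ≠ d →
      k.mb (xr x P a b) (xr x P a d) (xr x P b d) t
        + min ((xdOf x κd R L Lt).E x P k a b d t) ((xdOf x κd R L Lt).E x P k a d b t) ≤ 1)
    (hκ : ∀ w ∈ Icc (0 : ℝ) 1, ∀ s ∈ Icc 0 t, κd w t s ≤ κ0 s * (1 + γ * w))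
    {RA RH EA EH : ℝ} (RA0 : 0 ≤ RA) (RH0 : 0 ≤ RH) (EA0 : 0 ≤ EA) (EH0 : 0 ≤ EH)
    (hRA : (ω * (Real.exp Y * IA) + x1) * α0 + ∫ s in (0 : ℝ)..t, φ s * κ0 s
      * (Real.exp Y * (Real.exp Y * Real.exp δ) * J s + x2 s) ≤ RA)
    (hRH : ∫ s in (0 : ℝ)..t, Fs s * (ωH * (Real.exp Y * IA)
      + (Real.exp Y * (Real.exp Y * Real.exp δ) * J s + x2' s)) ≤ RH)
    (hEA : (oA * J t + x1) * α0 + ∫ s in (0 : ℝ)..t, φ s * κ0 s
      * (x2 s + cE * (oB * J s)) ≤ EA)
    (hEH : ∫ s in (0 : ℝ)..t, Fs s * (mM * (oA * J t + oB * J s) + x2' s) ≤ EH)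
    (hq : Amq α γ ε0 C (EA + (1 + γ / 2) * EH) ga1 ga2 gb1 gb2)
    (hfin : ∀ u ∈ Icc (0 : ℝ) 1, ch u * ((1 + γ * u) * (ga1 + ga2 + (gb1 + gb2)
      * ((1 - u) * ((1 + γ * u) * (EA + (1 - u) * ((1 + γ / 2) * EH))))
      + C * (RA + (1 - u) * ((1 + γ / 2) * RH)))) ≤ k1) :
    ∑ b, xr x P a b * ∑ d ∈ ({a, b} : Finset V)ᶜ,
        wS k.fh k.mb ((xdOf x κd R L Lt).E x P k) x P a b d t
      ≤ k1 * ∑ b, xr x P a b ^ 2 * (1 - xr x P a b) := by
  have γ0 := hc.γ0
  have q0 : ∀ u ∈ Icc (0 : ℝ) 1, 0 ≤ EA + (1 - u) * ((1 + γ / 2) * EH) := fun u hu =>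
    add_nonneg EA0 (mul_nonneg (by linarith [hu.2]) (mul_nonneg (by linarith) EH0))
  have q1 : ∀ u ∈ Icc (0 : ℝ) 1, 0 ≤ 1 + γ * u := fun u hu => by
    have := mul_nonneg γ0 hu.1
    linarith
  have q2 : ∀ u ∈ Icc (0 : ℝ) 1,
      0 ≤ (1 + γ * u) * (EA + (1 - u) * ((1 + γ / 2) * EH)) := fun u hu =>
    mul_nonneg (q1 u hu) (q0 u hu)
  refine t1_absQ hs hf hx hk hfc cPe hA hms ht ha hgap
    (rw := fun u => (1 + γ * u) * (RA + (1 - u) * ((1 + γ / 2) * RH)))
    (G1 := fun u => (1 + γ * u) * (ga1 + gb1 * ((1 - u)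
      * ((1 + γ * u) * (EA + (1 - u) * ((1 + γ / 2) * EH))))))
    (G2 := fun u => (1 + γ * u) * (ga2 + gb2 * ((1 - u)
      * ((1 + γ * u) * (EA + (1 - u) * ((1 + γ / 2) * EH))))))
    (fun u hu => mul_nonneg (q1 u hu) (add_nonneg hq.a10 (mul_nonneg hq.b10
      (mul_nonneg (by linarith [hu.2]) (q2 u hu)))))
    (fun u hu => mul_nonneg (q1 u hu) (add_nonneg hq.a20 (mul_nonneg hq.b20
      (mul_nonneg (by linarith [hu.2]) (q2 u hu)))))
    (fun b hb hab => ?_) (fun b hb hab c hcc hPc => ?_)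
    (fun u hu => ?_)
  · obtain ⟨F, X, Xt, hw'⟩ := hw b hb hab
    exact lam_row hf hx hk hfc ht
      (T1w.toT1r hc hx hk hfc ht hw' hC hZ hf hab hκ hRA hRH hEA hEH) hab RA0 RH0
  · obtain ⟨F, X, Xt, hw'⟩ := hw b hb hab
    have h1 := lam_entry hf hx hk hfc ht
      (T1w.toT1r hc hx hk hfc ht hw' hC hZ hf hab hκ hRA hRH hEA hEH) hab EA0 EH0 hcc hPc
    have hc' := hcc
    rw [mem2] at hc'
    have u0 := hx.nonneg a b
    have z0 := hx.nonneg b c
    have um := x_mem hx a b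
    have huz : x a b + x b c ≤ 1 := by
      have := row_one hx b a {c} (by simpa using hc'.1)
      rw [Finset.sum_singleton, hx.symm b a] at this
      linarith
    have hwz : x a c + x b c ≤ 1 := by
      have := row_one hx c a {b} (by simpa using hab.symm)
      rw [Finset.sum_singleton, hx.symm c a, hx.symm c b] at this
      linarith
    have huw := (two_mem hx a (Ne.symm hc'.2)).2
    refine hq.main u0 z0 (hx.nonneg a c) huz hwz huw (q2 _ um) ?_ h1
    -- the bound of the entry at `u = 0`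
    have γ1 := hs.γ1
    have i1 : (1 - x a b) * (1 + γ * x a b) ≤ 1 := by
      have i := mul_nonneg u0 (show 0 ≤ 1 - γ by linarith)
      have i' := mul_nonneg γ0 (mul_nonneg u0 u0)
      nlinarith
    have i2 : EA + (1 - x a b) * ((1 + γ / 2) * EH) ≤ EA + (1 + γ / 2) * EH := by
      have := mul_nonneg u0 (mul_nonneg (show 0 ≤ 1 + γ / 2 by linarith) EH0)
      linarith
    have i3 := mul_le_mul_of_nonneg_right i1 (q0 _ um)
    calc _ = (1 - x a b) * (1 + γ * x a b) * (EA + (1 - x a b) * ((1 + γ / 2) * EH)) := by ring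
      _ ≤ 1 * (EA + (1 - x a b) * ((1 + γ / 2) * EH)) := i3
      _ ≤ _ := by rw [one_mul]; exact i2
  · refine le_trans (le_of_eq ?_) (hfin u hu)
    ring

end

end Pool.Agent.RX.RCN.K
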