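import Pool.Agent.RX.RCN.T1H_2
import Pool.Agent.RX.RCN.XqB

/-! The first part of the inequality of the centres: the scalar conditions of a cell, second form
(MP_73ccd0_lc, route M). -/

namespace Pool.Agent.RX.RCN.K

open Set Finset MeasureTheory Pool.Agent.RX.RCRSHalf Pool.Agent.RX.RCG Pool.Agent.RX.RCG.Ct
open Pool.Agent.RX.RCN.Ker

set_option linter.unusedSectionVars false

variable {k : Kf} {B : ℝ → ℝ → ℝ} {κd : ℝ → ℝ → ℝ → ℝ} {τ t : ℝ}
  {b0 b1 mb C kc ke p0 p1 p2 q0 : ℝ → ℝ} {ee bB β cE : ℝ}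

/-! ### the numbers of a cell -/

/-- the numbers of the cell `[α, τ]`, second form -/
structure T1m (τ : ℝ) (mb C p0 p1 p2 q0 kc X2 Y2 : ℝ → ℝ) (ee bB cE : ℝ)
    (K kv Cv Y δ eY ω oA oP cw M2 v0 mM ωH IA x1 α0 mt CC ga1 ga2 gb1 gb2 e0 e1 ε0
      g0 g1 g2 h0 h1 h2 RA RH EA EH c0 c1 k1 : ℝ) : Prop where
  kv1 : 1 ≤ kv
  K1 : (1 + ee * τ) * kv ≤ K
  C1 : C τ ≤ Cv
  Y0 : 0 ≤ Y
  d0 : 0 ≤ δ
  d1 : δ ≤ 1
  Cδ : Cv ≤ Y + δ
  HeY : Real.exp Y ≤ eY
  w1 : ∀ q ∈ Icc (0 : ℝ) 1, (1 - q) * (1 + τ * q) * (eY * ex4 (q * δ)) ≤ ω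
  a1 : ∀ q ∈ Icc (0 : ℝ) 1, (2 - q) / 4 * (1 + τ * q) * (eY * (eY * ex4 (q * δ))) ≤ oA
  HoP : ∀ q ∈ Icc (0 : ℝ) 1, (2 - q) / 4 * (eY * (eY * ex4 (q * δ))) ≤ oP
  Hcw : ∀ w ∈ Icc (0 : ℝ) 1, (1 + τ * w) * (1 - w / 2) ≤ 1 + cw
  cw0 : 0 ≤ cw
  HM2 : eY * (eY * ex4 δ) ≤ M2
  v00 : 0 ≤ v0
  v01 : v0 ≤ 1
  mv : mM * (1 - v0) ≤ 1
  HmM : ∀ s ∈ Icc 0 τ, mb s ≤ mM
  wH : eY * ex4 (v0 * δ) ≤ ωH
  ia : bB * ((∫ s in (0 : ℝ)..τ, (Cv - C s))) ≤ IA
  x10 : 0 ≤ x1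
  cX : ContinuousOn X2 (Icc 0 τ)
  cY : ContinuousOn Y2 (Icc 0 τ)
  x2 : ∀ s ∈ Icc 0 τ, 0 ≤ X2 s
  y2 : ∀ s ∈ Icc 0 τ, 0 ≤ Y2 s
  Hg0 : ∫ s in (0 : ℝ)..τ, p0 s ≤ g0
  Hg1 : ∫ s in (0 : ℝ)..τ, p0 s * X2 s ≤ g1
  Hg2 : ∫ s in (0 : ℝ)..τ, p0 s * C s ^ 2 ≤ g2
  Hh0 : ∫ s in (0 : ℝ)..τ, (∫ r in (0 : ℝ)..s, p0 r) ≤ h0
  Hh1 : ∫ s in (0 : ℝ)..τ, (∫ r in (0 : ℝ)..s, p0 r) * Y2 s ≤ h1
  Hh2 : ∫ s in (0 : ℝ)..τ, (∫ r in (0 : ℝ)..s, p0 r) * C s ^ 2 ≤ h2
  Hα0 : K * g0 ≤ α0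
  m1 : α0 * (1 + τ / 2) ≤ mt
  mt1 : mt < 1
  m2 : mt * τ ≤ 1 - mt + τ / 4
  a2 : α0 * (1 + τ) < 1
  cj : RCM.Jen.CJ CC mt
  CC0 : 0 ≤ CC
  He0 : kv * (∫ s in (0 : ℝ)..τ, p0 s) - (∫ s in (0 : ℝ)..τ, q0 s) ≤ e0
  He1 : kv * (∫ s in (0 : ℝ)..τ, p1 s) - (∫ s in (0 : ℝ)..τ, p2 s) ≤ e1
  e10 : 0 ≤ e1
  e00 : 0 ≤ e0
  Hε0 : (1 + ee * τ) * (e0 + e1 / 2) ≤ ε0
  RA0 : 0 ≤ RA
  RH0 : 0 ≤ RH
  EA0 : 0 ≤ EA
  EH0 : 0 ≤ EH
  HRA : (ω * (eY * IA) + x1) * α0 + K * (M2 * (bB / 2) * g2 + g1) ≤ RA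
  HRH : K * (ωH * (eY * IA) * h0 + M2 * (bB / 2) * h2 + h1) ≤ RH
  HEA : (oA * (bB / 2 * Cv ^ 2) + x1) * α0 + K * (g1 + cE * (oP * (1 + cw)) * (bB / 2) * g2) ≤ EA
  HEH : K * (mM * (oA * (bB / 2 * Cv ^ 2) * h0 + oP * (1 + cw) * (bB / 2) * h2) + h1) ≤ EH
  c00 : 0 ≤ c0
  c10 : 0 ≤ c1
  amq : Amq α0 τ ε0 CC (EA + (1 + τ / 2) * EH) ga1 ga2 gb1 gb2
  fin : ∀ u ∈ Icc (0 : ℝ) 1, (c0 + c1 * eta u) * ((1 + τ * u) * (ga1 + ga2 + (gb1 + gb2)
      * ((1 - u) * ((1 + τ * u) * (EA + (1 - u) * ((1 + τ / 2) * EH))))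
      + CC * (RA + (1 - u) * ((1 + τ / 2) * RH)))) ≤ k1

section

variable {X2 Y2 : ℝ → ℝ} {K kv Cv Y δ eY ω oA oP cw M2 v0 mM ωH IA x1 α0 mt CC ga1 ga2 gb1 gb2
  e0 e1 ε0
  g0 g1 g2 h0 h1 h2 RA RH EA EH c0 c1 k1 : ℝ}
variable (h : T1g k B κd τ b0 b1 mb C kc ke p0 p1 p2 q0 ee bB β cE)
  (n : T1m τ mb C p0 p1 p2 q0 kc X2 Y2 ee bB cE K kv Cv Y δ eY ω oA oP cw M2 v0 mM ωH IA x1
    α0 mt CC ga1 ga2 gb1 gb2 e0 e1 ε0 g0 g1 g2 h0 h1 h2 RA RH EA EH c0 c1 k1)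
  (hfc : ∀ y ∈ Icc (0 : ℝ) 1, ContinuousOn (k.fh y) (Icc 0 bt))

include h n

theorem T1m.K0 : 0 ≤ K :=
  (mul_nonneg (add_nonneg zero_le_one (mul_nonneg h.ee0 h.τ0)) (zero_le_one.trans n.kv1)).trans
    n.K1

theorem T1m.eY1 : 1 ≤ eY := (Real.one_le_exp n.Y0).trans n.HeY

theorem T1m.Kt (ht : t ∈ Icc 0 τ) (hkv : kc t ≤ kv) : (1 + ee * t) * kc t ≤ K := by
  have h1 := h.kc1 t ht
  have h2 := h.ee0
  have h3 := mul_le_mul_of_nonneg_left ht.2 h2
  refine le_trans ?_ n.K1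
  exact mul_le_mul (by linarith) hkv (by linarith) (by
    have := mul_nonneg h2 h.τ0
    linarith)

theorem T1m.p0i {s : ℝ} (hs : s ∈ Icc 0 τ) : 0 ≤ ∫ r in (0 : ℝ)..s, p0 r :=
  intervalIntegral.integral_nonneg hs.1 fun _ hr => (h.p0n ⟨hr.1, hr.2.trans hs.2⟩).2

theorem T1m.g00 : 0 ≤ g0 := (n.p0i h ⟨h.τ0, le_rfl⟩).trans n.Hg0

theorem T1m.α00 : 0 ≤ α0 := (mul_nonneg (n.K0 h) (n.g00 h)).trans n.Hα0

/-- the scalars -/
theorem T1m.t1s (ht : t ∈ Icc 0 τ) (hfc : ∀ y ∈ Icc (0 : ℝ) 1, ContinuousOn (k.fh y) (Icc 0 bt))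
    (hkv : kc t ≤ kv) {A : ℝ → ℝ → ℝ}
    (hA : ∀ w ∈ Icc (0 : ℝ) 1, A w t ≤ α0 * (1 + τ * w))
    (hc0 : b0 t ≤ c0 * (1 + t)) (hc1 : b1 t - b0 t + 1 ≤ c1 * (1 + t)) :
    T1u k κd A t (fun y => c0 + c1 * eta y) α0 τ mt CC ε0 := by
  have t1 : 0 < 1 + t := by linarith [ht.1]
  have α00 := n.α00 h
  have τ0 := h.τ0
  have K0 := n.K0 h
  refine
    { ch1 := fun y hy => ?_
      ch0 := fun y hy => add_nonneg n.c00 (mul_nonneg n.c10 (eta_nonneg hy.1))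
      chm := fun y hy y' hy' hyy => ?_
      A1 := fun w hw => ?_
      α0 := α00
      γ0 := τ0
      γ1 := h.τ1.trans bt_le
      m1 := n.m1
      mt1 := n.mt1
      m2 := n.m2
      a1 := n.a2
      cj := n.cj
      C0 := n.CC0
      ε := fun z hz w hw => ?_
      ε00 := ?_ }
  · have e : (1 + t) * k.fh y t = k.b y t * (1 + t)⁻¹ := by
      unfold Kf.fh
      field_simp
    rw [e]
    have i1 := h.b_le y ht
    have i2 := mul_le_mul_of_nonneg_left hc1 (eta_nonneg hy.1)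
    have i3 : k.b y t ≤ (c0 + c1 * eta y) * (1 + t) := by linarith
    have := mul_le_mul_of_nonneg_right i3 (inv_nonneg.2 t1.le)
    rwa [mul_assoc _ (1 + t), mul_inv_cancel₀ t1.ne', mul_one] at this
  · have g : eta y ≤ eta y' := min_le_min_right _ hyy
    have g0 := eta_nonneg hy.1
    have i1 := mul_le_mul_of_nonneg_left g n.c10
    exact mul_le_mul hyy (by linarith) (add_nonneg n.c00 (mul_nonneg n.c10 g0)) hy'.1
  · exact hA w hw
  · have e : (∫ s in (0 : ℝ)..t, k.fh z s * (κd w t s - k.Pe w t))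
        = (1 + w * t) * (1 + ee * t) * ∫ s in (0 : ℝ)..t, k.fh z s * (kc t * ke s - 1) := by
      rw [← intervalIntegral.integral_const_mul]
      refine intervalIntegral.integral_congr fun s _ => ?_
      rw [h.κ, h.Pe]
      ring
    rw [e]
    have i1 := h.E1 hfc ht n.kv1 hkv n.He0 n.He1 n.e10 hz
    have e2 : 0 ≤ e0 + e1 / 2 := by
      have := n.e00
      have := n.e10
      linarith
    have w0 : 0 ≤ (1 + w * t) * (1 + ee * t) := mul_nonneg (by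
      have := mul_nonneg hw.1 ht.1
      linarith) (by have := mul_nonneg h.ee0 ht.1; linarith)
    have w1 : (1 + w * t) * (1 + ee * t) ≤ (1 + τ * w) * (1 + ee * τ) := by
      have a1 := mul_le_mul_of_nonneg_left ht.2 hw.1
      have a2 := mul_le_mul_of_nonneg_left ht.2 h.ee0
      exact mul_le_mul (by linarith) (by linarith)
        (by have := mul_nonneg h.ee0 ht.1; linarith) (by have := mul_nonneg τ0 hw.1; linarith)
    have w2 : 0 ≤ 1 + τ * w := by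
      have := mul_nonneg τ0 hw.1
      linarith
    calc _ ≤ (1 + w * t) * (1 + ee * t) * (e0 + e1 / 2) := mul_le_mul_of_nonneg_left i1 w0
      _ ≤ (1 + τ * w) * (1 + ee * τ) * (e0 + e1 / 2) := mul_le_mul_of_nonneg_right w1 e2
      _ = (1 + ee * τ) * (e0 + e1 / 2) * (1 + τ * w) := by ring
      _ ≤ _ := mul_le_mul_of_nonneg_right n.Hε0 w2
  · refine le_trans ?_ n.Hε0
    have := n.e00
    have := n.e10
    have := mul_nonneg h.ee0 τ0
    positivity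

theorem T1m.JJ {s : ℝ} (hs : s ∈ Icc 0 τ) : ∫ ρ in (0 : ℝ)..s, B s ρ * mb ρ
    ≤ bB / 2 * C s ^ 2 := by
  have m : ∀ r ∈ Icc 0 s, r ∈ Icc 0 τ := fun r hr => ⟨hr.1, hr.2.trans hs.2⟩
  have m0 : (0 : ℝ) ∈ Icc 0 s := ⟨le_rfl, hs.1⟩
  have ms : s ∈ Icc 0 s := ⟨hs.1, le_rfl⟩
  have sub : Icc 0 s ⊆ Icc 0 τ := Icc_subset_Icc_right hs.2
  have cg : ContinuousOn (fun ρ => bB * ((C s - C ρ) * mb ρ)) (Icc 0 s) :=
    continuousOn_const.mul ((continuousOn_const.sub (h.cC.mono sub)).mul (h.cm.mono sub))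
  refine (intervalIntegral.integral_mono_on hs.1 (ii_of hs.1 ((h.cB s hs).mul
    (h.cm.mono sub)) m0 ms) (ii_of hs.1 cg m0 ms) fun r hr => ?_).trans (le_of_eq ?_)
  · have := mul_le_mul_of_nonneg_right (h.hB s hs r hr)
      (zero_le_one.trans (h.m1 r (m r hr)))
    show B s r * mb r ≤ bB * ((C s - C r) * mb r)
    linarith
  · have d : ∀ ρ ∈ uIcc 0 s, HasDerivAt (fun ρ => bB * (C s * C ρ - C ρ ^ 2 / 2))
        (bB * ((C s - C ρ) * mb ρ)) ρ := fun ρ hρ => by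
      rw [uIcc_of_le hs.1] at hρ
      have d1 := h.dC ρ (m ρ hρ)
      refine ((d1.const_mul (C s)).sub ((d1.pow 2).div_const 2)).const_mul bB |>.congr_deriv ?_
      push_cast
      ring
    rw [intervalIntegral.integral_eq_sub_of_hasDerivAt d (ii_of hs.1 cg m0 ms), h.C0]
    ring

include hfc in
/-- the data at the time `t` -/
theorem T1m.t1c (ht : t ∈ Icc 0 τ) :
    T1c k B mb (fun s => K * ke s) (fun s => b0 s * ((1 + s) ^ 2)⁻¹)
      (fun s => K * ∫ r in (0 : ℝ)..s, p0 r) (fun s => bB / 2 * C s ^ 2)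
      X2 Y2 t τ α0 cE Y δ ω oA (oP * (1 + cw)) IA
      x1 := by
  have m : ∀ r ∈ Icc 0 t, r ∈ Icc 0 τ := fun r hr => ⟨hr.1, hr.2.trans ht.2⟩
  have sub : Icc 0 t ⊆ Icc 0 τ := Icc_subset_Icc_right ht.2
  have τ0 := h.τ0
  have K0 := n.K0 h
  have eY1 := n.eY1 h
  have eY0 : 0 ≤ eY := zero_le_one.trans eY1
  have cq : ContinuousOn (fun s : ℝ => ((1 + s) ^ 2)⁻¹) (Icc 0 t) := by
    refine ContinuousOn.inv₀ (by fun_prop) fun s hs => ?_
    have := hs.1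
    positivity
  have cp : ContinuousOn (fun s => ∫ r in (0 : ℝ)..s, p0 r) (Icc 0 t) :=
    (prim_cont τ0 h.cp0).mono sub
  -- the exponentials
  have ex : ∀ q ∈ Icc (0 : ℝ) 1, Real.exp (q * δ) ≤ ex4 (q * δ) := fun q hq =>
    exp_le_ex4 (mul_nonneg hq.1 n.d0) (mul_le_one₀ hq.2 n.d0 n.d1)
  have ex1 : ∀ q ∈ Icc (0 : ℝ) 1, Real.exp Y * Real.exp (q * δ) ≤ eY * ex4 (q * δ) :=
    fun q hq => mul_le_mul n.HeY (ex q hq) (Real.exp_pos _).le eY0
  have ex2 : ∀ q ∈ Icc (0 : ℝ) 1, Real.exp Y * (Real.exp Y * Real.exp (q * δ))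
      ≤ eY * (eY * ex4 (q * δ)) := fun q hq =>
    mul_le_mul n.HeY (ex1 q hq) (mul_nonneg (Real.exp_pos _).le (Real.exp_pos _).le) eY0
  have e20 : ∀ q ∈ Icc (0 : ℝ) 1, 0 ≤ eY * (eY * ex4 (q * δ)) := fun q hq =>
    mul_nonneg eY0 (mul_nonneg eY0 (ex4_nonneg (mul_nonneg hq.1 n.d0)))
  -- the densities
  have bl : ∀ y ∈ Icc (0 : ℝ) 1, ∀ s ∈ Icc 0 t, k.b y s ≤ b0 s * (1 + β * eta y) := by
    intro y hy s hs
    have i1 := h.b_le y (m s hs)
    have i2 := h.b01 s (m s hs)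
    have i3 := h.b1β s (m s hs)
    have g0 := eta_nonneg hy.1
    have i4 := mul_le_mul_of_nonneg_left (show b1 s - b0 s + 1 ≤ β by linarith) g0
    have i5 : β * eta y ≤ b0 s * (β * eta y) :=
      le_mul_of_one_le_left (mul_nonneg h.β0 g0) i2
    linarith
  have bn : ∀ s ∈ Icc 0 t, 0 ≤ b0 s := fun s hs => zero_le_one.trans (h.b01 s (m s hs))
  exact
    { γ0 := τ0
      γ1 := h.τ1.trans bt_le
      δ0 := n.d0
      cκ0 := continuousOn_const.mul (h.cke.mono sub)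
      k0 := fun s hs => mul_nonneg K0 (zero_le_one.trans (h.ke1 s (m s hs)))
      cφ := (h.cb0.mono sub).mul cq
      cFs := continuousOn_const.mul cp
      Fs0 := fun s hs => mul_nonneg K0 (n.p0i h (m s hs))
      cJ := continuousOn_const.mul ((h.cC.mono sub).pow 2)
      J0 := fun s hs => mul_nonneg (by linarith [h.bB0]) (sq_nonneg _)
      cx2 := n.cX.mono sub
      cx2' := n.cY.mono sub
      x20 := fun s hs => n.x2 s (m s hs)
      x20' := fun s hs => n.y2 s (m s hs)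
      x10 := n.x10
      IA0 := by
        refine le_trans (mul_nonneg h.bB0 (intervalIntegral.integral_nonneg τ0 fun s hs => ?_))
          n.ia
        have := h.C_le hs
        have := n.C1
        linarith
      f1 := fun y hy s hs => by
        have q := h.q0' (m s hs)
        have i1 := bl y hy s hs
        have g1 := eta_le y
        have g0 := eta_nonneg hy.1
        have i2 : (1 + β * eta y) * (1 - y) ≤ 1 := by
          have a1 : β * eta y ≤ 1 * y := mul_le_mul h.β1 g1 g0 zero_le_one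
          have a2 := mul_le_mul_of_nonneg_right (show 1 + β * eta y ≤ 1 + y by linarith)
            (show 0 ≤ 1 - y by linarith [hy.2])
          nlinarith [sq_nonneg y]
        have i3 := mul_le_mul_of_nonneg_right i1 (show 0 ≤ 1 - y by linarith [hy.2])
        have i4 := mul_le_mul_of_nonneg_left i2 (bn s hs)
        have i5 : k.b y s * (1 - y) ≤ b0 s := by linarith
        have i6 := mul_le_mul_of_nonneg_right i5 q.le
        calc k.fh y s * (1 - y) = k.b y s * (1 - y) * ((1 + s) ^ 2)⁻¹ := by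
              unfold Kf.fh; ring
          _ ≤ _ := i6
      f2 := fun s hs => by
        have q := h.q0' (m s hs)
        show ((1 + s) ^ 2)⁻¹ ≤ b0 s * ((1 + s) ^ 2)⁻¹
        exact le_mul_of_one_le_left q.le (h.b01 s (m s hs))
      f3 := fun y hy s hs => by
        have q := h.q0' (m s hs)
        have i1 := bl y hy s hs
        have i3 := mul_le_mul_of_nonneg_right i1 (show 0 ≤ 1 - y / 2 by linarith [hy.2])
        have i4 := mul_le_mul_of_nonneg_left (h.cE2 y hy) (bn s hs)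
        have i5 : k.b y s * (1 - y / 2) ≤ cE * b0 s := by linarith
        have i6 := mul_le_mul_of_nonneg_right i5 q.le
        calc k.fh y s * (1 - y / 2) = k.b y s * (1 - y / 2) * ((1 + s) ^ 2)⁻¹ := by
              unfold Kf.fh; ring
          _ ≤ cE * b0 s * ((1 + s) ^ 2)⁻¹ := i6
          _ = _ := by ring
      cE1 := h.cE1
      F1 := fun y hy s hs => h.F1 hfc K0 hy (m s hs)
      F2 := fun s hs => by
        have ms := m s hs
        have sub' : Icc 0 s ⊆ Icc 0 τ := Icc_subset_Icc_right ms.2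
        have m0 : (0 : ℝ) ∈ Icc 0 s := ⟨le_rfl, hs.1⟩
        have mss : s ∈ Icc 0 s := ⟨hs.1, le_rfl⟩
        rw [← intervalIntegral.integral_const_mul]
        refine intervalIntegral.integral_mono_on hs.1 (ii_of hs.1 ((qq_cont.mono
          (Icc_subset_Icc_right (ms.2.trans h.τ1))).mul (continuousOn_const.mul
          (h.cke.mono sub'))) m0 mss) (ii_of hs.1 (continuousOn_const.mul (h.cp0.mono sub'))
          m0 mss) fun r hr => ?_
        have mr : r ∈ Icc 0 τ := ⟨hr.1, hr.2.trans ms.2⟩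
        have q := h.q0' mr
        have i1 := (h.p0n mr).1
        have i2 := h.b01 r mr
        have i3 := h.ke1 r mr
        have i4 := mul_le_mul_of_nonneg_left i1 K0
        have i5 : ((1 + r) ^ 2)⁻¹ * (K * ke r) ≤ b0 r * (((1 + r) ^ 2)⁻¹ * (K * ke r)) :=
          le_mul_of_one_le_left (mul_nonneg q.le (mul_nonneg K0 (by linarith))) i2
        calc qq r * (K * ke r) = ((1 + r) ^ 2)⁻¹ * (K * ke r) := rfl
          _ ≤ b0 r * (((1 + r) ^ 2)⁻¹ * (K * ke r)) := i5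
          _ = K * (b0 r * ((1 + r) ^ 2)⁻¹ * ke r) := by ring
          _ ≤ _ := i4
      Ft := by
        refine (mul_le_mul_of_nonneg_left ?_ K0).trans n.Hα0
        exact (int_ext ht.1 ht.2 h.cp0 fun s hs => (h.p0n hs).2).trans n.Hg0
      w1 := fun q hq => by
        refine le_trans ?_ (n.w1 q hq)
        exact mul_le_mul_of_nonneg_left (ex1 q hq) (mul_nonneg (by linarith [hq.2])
          (by have := mul_nonneg τ0 hq.1; linarith))
      a1 := fun q hq => by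
        refine le_trans ?_ (n.a1 q hq)
        exact mul_le_mul_of_nonneg_left (ex2 q hq) (mul_nonneg (by linarith [hq.2])
          (by have := mul_nonneg τ0 hq.1; linarith))
      b1 := fun p v w hp0 hp1 hv hw hvw => by
        have hp : p ∈ Icc (0 : ℝ) 1 := ⟨hp0, hp1⟩
        have i1 := n.HoP p hp
        have i2 := n.Hcw w ⟨hw, by linarith⟩
        have w0 := mul_nonneg τ0 hw
        have E0 := e20 p hp
        have v1 : 0 ≤ 1 - v / 2 := by linarith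
        have oP0 : 0 ≤ oP := le_trans (mul_nonneg (by linarith) E0) i1
        have j1 : 2 - p - (w + v) ≤ (2 - p) * ((1 - v / 2) * (1 - w / 2)) := by
          nlinarith [mul_nonneg hp0 hv, mul_nonneg hp0 hw, mul_nonneg hv hw,
            mul_nonneg (mul_nonneg hv hw) (show 0 ≤ 2 - p by linarith)]
        have j0 : 0 ≤ 2 - p - (w + v) := by linarith
        calc (1 + τ * w) * ((2 - p - (w + v)) / 4
              * (Real.exp Y * (Real.exp Y * Real.exp (p * δ))))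
            ≤ (1 + τ * w) * ((2 - p - (w + v)) / 4 * (eY * (eY * ex4 (p * δ)))) :=
              mul_le_mul_of_nonneg_left (mul_le_mul_of_nonneg_left (ex2 p hp)
                (by linarith)) (by linarith)
          _ ≤ (1 + τ * w) * ((2 - p) * ((1 - v / 2) * (1 - w / 2)) / 4
              * (eY * (eY * ex4 (p * δ)))) :=
              mul_le_mul_of_nonneg_left (mul_le_mul_of_nonneg_right (by linarith) E0)
                (by linarith)
          _ = ((2 - p) / 4 * (eY * (eY * ex4 (p * δ)))) * ((1 + τ * w) * (1 - w / 2))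
              * (1 - v / 2) := by ring
          _ ≤ oP * (1 + cw) * (1 - v / 2) :=
              mul_le_mul_of_nonneg_right (mul_le_mul i1 i2 (mul_nonneg (by linarith)
                (by linarith)) oP0) v1
      IA1 := by
        have ct : ContinuousOn (fun ρ => bB * (Cv - C ρ)) (Icc 0 τ) :=
          continuousOn_const.mul (continuousOn_const.sub h.cC)
        have hm := m t ⟨ht.1, le_rfl⟩
        have := int_le_ext (f := fun ρ => B t ρ * 1) ht.1 ht.2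
          ((h.cB t hm).mul continuousOn_const) ct (fun ρ hρ => by
            have a1 := h.hB t hm ρ hρ
            have a2 := h.C_le hm
            have a3 := n.C1
            have a4 := mul_le_mul_of_nonneg_left (show C t - C ρ ≤ Cv - C ρ by linarith) h.bB0
            linarith) (fun ρ hρ => mul_nonneg h.bB0 (by
              have := h.C_le hρ
              have := n.C1
              linarith))
        refine this.trans ?_
        rw [intervalIntegral.integral_const_mul]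
        exact n.ia
      J1 := fun s hs => n.JJ h (m s hs)
      cB := fun s hs => h.cB s (m s hs)
      cm := h.cm.mono sub }

/-- the integrals against the densities -/
theorem T1m.i1 (ht : t ∈ Icc 0 τ) {a b' G1 G2 : ℝ} {x' y' : ℝ → ℝ} (a0 : 0 ≤ a) (b00 : 0 ≤ b')
    (cx : ContinuousOn x' (Icc 0 τ)) (cy : ContinuousOn y' (Icc 0 τ))
    (x0 : ∀ s ∈ Icc 0 τ, 0 ≤ x' s) (y0 : ∀ s ∈ Icc 0 τ, 0 ≤ y' s)
    (h1 : ∫ s in (0 : ℝ)..τ, p0 s * x' s ≤ G1) (h2 : ∫ s in (0 : ℝ)..τ, p0 s * y' s ≤ G2) :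
    ∫ s in (0 : ℝ)..t, b0 s * ((1 + s) ^ 2)⁻¹ * (K * ke s) * (a * x' s + b' * y' s)
      ≤ K * (a * G1 + b' * G2) := by
  have m : ∀ r ∈ Icc 0 t, r ∈ Icc 0 τ := fun r hr => ⟨hr.1, hr.2.trans ht.2⟩
  have sub : Icc 0 t ⊆ Icc 0 τ := Icc_subset_Icc_right ht.2
  have τ0 := h.τ0
  have K0 := n.K0 h
  have cq : ContinuousOn (fun s : ℝ => ((1 + s) ^ 2)⁻¹) (Icc 0 t) := by
    refine ContinuousOn.inv₀ (by fun_prop) fun s hs => ?_
    have := hs.1
    positivity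
  have c1 := h.cp0.mul cx
  have c2 := h.cp0.mul cy
  have cg : ContinuousOn (fun s => K * (a * (p0 s * x' s) + b' * (p0 s * y' s))) (Icc 0 τ) :=
    continuousOn_const.mul ((continuousOn_const.mul c1).add (continuousOn_const.mul c2))
  have key := int_le_ext (f := fun s => b0 s * ((1 + s) ^ 2)⁻¹ * (K * ke s)
      * (a * x' s + b' * y' s)) ht.1 ht.2
    ((((h.cb0.mono sub).mul cq).mul (continuousOn_const.mul (h.cke.mono sub))).mul
      ((continuousOn_const.mul (cx.mono sub)).add (continuousOn_const.mul (cy.mono sub)))) cg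
    (fun s hs => by
      have i1 := (h.p0n (m s hs)).1
      have w0 : 0 ≤ K * (a * x' s + b' * y' s) := mul_nonneg K0 (add_nonneg
        (mul_nonneg a0 (x0 s (m s hs))) (mul_nonneg b00 (y0 s (m s hs))))
      have := mul_le_mul_of_nonneg_right i1 w0
      calc _ = b0 s * ((1 + s) ^ 2)⁻¹ * ke s * (K * (a * x' s + b' * y' s)) := by ring
        _ ≤ _ := this
        _ = _ := by ring)
    (fun s hs => by
      have := (h.p0n hs).2
      have := x0 s hs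
      have := y0 s hs
      positivity)
  refine key.trans ?_
  rw [intervalIntegral.integral_const_mul]
  refine mul_le_mul_of_nonneg_left ?_ K0
  have e := int_lin (a := a) (b := b') τ0 (f := fun s => p0 s * x' s)
    (g := fun s => p0 s * y' s) c1 c2
  rw [e]
  exact add_le_add (mul_le_mul_of_nonneg_left h1 a0) (mul_le_mul_of_nonneg_left h2 b00)

/-- the integrals against the integrated densities -/
theorem T1m.i2 (ht : t ∈ Icc 0 τ) {f : ℝ → ℝ} {a b' G : ℝ} (a0 : 0 ≤ a) (b00 : 0 ≤ b')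
    (hf : ∀ s ∈ Icc 0 t, f s ≤ a + b' * C s ^ 2 + Y2 s)
    (cf : ContinuousOn f (Icc 0 t)) (hG : a * h0 + b' * h2 + h1 ≤ G) :
    ∫ s in (0 : ℝ)..t, (K * ∫ r in (0 : ℝ)..s, p0 r) * f s ≤ K * G := by
  have m : ∀ r ∈ Icc 0 t, r ∈ Icc 0 τ := fun r hr => ⟨hr.1, hr.2.trans ht.2⟩
  have sub : Icc 0 t ⊆ Icc 0 τ := Icc_subset_Icc_right ht.2
  have τ0 := h.τ0
  have K0 := n.K0 h
  have cP : ContinuousOn (fun s => ∫ r in (0 : ℝ)..s, p0 r) (Icc 0 τ) := prim_cont τ0 h.cp0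
  have cy : ContinuousOn (fun s : ℝ => Y2 s) (Icc 0 τ) := n.cY
  have cg : ContinuousOn (fun s => K * ((∫ r in (0 : ℝ)..s, p0 r)
      * (a + b' * C s ^ 2 + Y2 s))) (Icc 0 τ) :=
    continuousOn_const.mul (cP.mul ((continuousOn_const.add (continuousOn_const.mul
      (h.cC.pow 2))).add cy))
  have key := int_le_ext (f := fun s => (K * ∫ r in (0 : ℝ)..s, p0 r) * f s) ht.1 ht.2
    ((continuousOn_const.mul (cP.mono sub)).mul cf) cg
    (fun s hs => by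
      have := mul_le_mul_of_nonneg_left (hf s hs) (mul_nonneg K0 (n.p0i h (m s hs)))
      refine this.trans (le_of_eq ?_)
      ring)
    (fun s hs => by
      have i1 := n.p0i h hs
      have i2 := n.y2 s hs
      positivity)
  refine key.trans ?_
  rw [intervalIntegral.integral_const_mul]
  refine mul_le_mul_of_nonneg_left ?_ K0
  have c0' := cP
  have c2' := cP.mul (h.cC.pow 2)
  have c1' := cP.mul cy
  have m0 : (0 : ℝ) ∈ Icc 0 τ := ⟨le_rfl, τ0⟩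
  have mτ : τ ∈ Icc 0 τ := ⟨τ0, le_rfl⟩
  have e : (∫ s in (0 : ℝ)..τ, (∫ r in (0 : ℝ)..s, p0 r)
        * (a + b' * C s ^ 2 + Y2 s))
      = (a * (∫ s in (0 : ℝ)..τ, (∫ r in (0 : ℝ)..s, p0 r))
          + b' * (∫ s in (0 : ℝ)..τ, (∫ r in (0 : ℝ)..s, p0 r) * C s ^ 2))
        + ∫ s in (0 : ℝ)..τ, (∫ r in (0 : ℝ)..s, p0 r) * Y2 s := by
    have e1 := int_lin (a := a) (b := b') τ0 (f := fun s => ∫ r in (0 : ℝ)..s, p0 r)
      (g := fun s => (∫ r in (0 : ℝ)..s, p0 r) * C s ^ 2) c0' c2'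
    have e3 := int_add2 τ0 (f := fun s => a * (∫ r in (0 : ℝ)..s, p0 r)
        + b' * ((∫ r in (0 : ℝ)..s, p0 r) * C s ^ 2))
      (g := fun s => (∫ r in (0 : ℝ)..s, p0 r) * Y2 s)
      ((continuousOn_const.mul c0').add (continuousOn_const.mul c2')) c1'
    rw [e1] at e3
    rw [← e3]
    refine intervalIntegral.integral_congr fun s _ => ?_
    ring
  rw [e]
  have j0 := mul_le_mul_of_nonneg_left n.Hh0 a0
  have j2 := mul_le_mul_of_nonneg_left n.Hh2 b00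
  have j1 := n.Hh1
  linarith

end

section main

variable {V : Type*} [Fintype V] [DecidableEq V] {x : V → V → ℝ} {P : V → Prop}
  [DecidablePred P] {Z : Hzd} {sl : ℝ → ℝ → ℝ} {E1 : ℝ → ℝ → ℝ} {N : ℕ}
  {R : V → V → V → ℝ → ℝ → ℝ} {L Lt : V → V → V → V → ℝ → ℝ → ℝ} {A : ℝ → ℝ → ℝ}

variable {X2 Y2 : ℝ → ℝ} {K kv Cv Y δ eY ω oA oP cw M2 v0 mM ωH IA x1 α0 mt CC ga1 ga2 gb1 gb2
  e0 e1 ε0
  g0 g1 g2 h0 h1 h2 RA RH EA EH c0 c1 k1 : ℝ}

/-- **the first part of the inequality of the centres in a cell** -/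
theorem T1m.main (h : T1g k B κd τ b0 b1 mb C kc ke p0 p1 p2 q0 ee bB β cE)
    (n : T1m τ mb C p0 p1 p2 q0 kc X2 Y2 ee bB cE K kv Cv Y δ eY ω oA oP cw M2 v0 mM ωH IA x1
      α0 mt CC ga1 ga2 gb1 gb2 e0 e1 ε0 g0 g1 g2 h0 h1 h2 RA RH EA EH c0 c1 k1)
    (hC : Z.Cf B E1) (hZ : Z.Ok sl) (hf : Lf N k κd R L Lt) (hx : Wt x P 1) (hk : k.Ok)
    (hfc : ∀ y ∈ Icc (0 : ℝ) 1, ContinuousOn (k.fh y) (Icc 0 bt))
    (cPe : ∀ w, ContinuousOn (k.Pe w) (Icc 0 bt)) (hA : Ab k κd A)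
    (hms : ∀ x y z t, k.mb x y z t = k.mb y x z t) (ht : t ∈ Icc 0 τ) (hkv : kc t ≤ kv)
    (hc0 : b0 t ≤ c0 * (1 + t)) (hc1 : b1 t - b0 t + 1 ≤ c1 * (1 + t))
    (hA1 : ∀ w ∈ Icc (0 : ℝ) 1, A w t ≤ α0 * (1 + τ * w)) {a : V} (ha : P a)
    (hw : ∀ b, P b → a ≠ b → ∃ (F : Lz V) (X Xt : V → V → ℝ → ℝ),
      T1w Z F x P R L Lt X Xt a b mb X2 Y2 t τ Y δ (Real.exp Y * Real.exp (v0 * δ)) mM x1)
    (hgap : ∀ b d, P b → P d → a ≠ b → a ≠ d → b ≠ d →
      k.mb (xr x P a b) (xr x P a d) (xr x P b d) t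
        + min ((xdOf x κd R L Lt).E x P k a b d t) ((xdOf x κd R L Lt).E x P k a d b t) ≤ 1) :
    ∑ b, xr x P a b * ∑ d ∈ ({a, b} : Finset V)ᶜ,
        wS k.fh k.mb ((xdOf x κd R L Lt).E x P k) x P a b d t
      ≤ k1 * ∑ b, xr x P a b ^ 2 * (1 - xr x P a b) := by
  have m : ∀ r ∈ Icc 0 t, r ∈ Icc 0 τ := fun r hr => ⟨hr.1, hr.2.trans ht.2⟩
  have sub : Icc 0 t ⊆ Icc 0 τ := Icc_subset_Icc_right ht.2
  have τ0 := h.τ0
  have K0 := n.K0 h
  have eY1 := n.eY1 h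
  have eY0 : 0 ≤ eY := zero_le_one.trans eY1
  have ht1 : t ∈ Icc (0 : ℝ) bt := ⟨ht.1, ht.2.trans h.τ1⟩
  have α00 := n.α00 h
  have mττ : τ ∈ Icc 0 τ := ⟨τ0, le_rfl⟩
  have hcc := n.t1c h hfc ht
  have w0 := hcc.w0
  have a0 := hcc.a0
  have b0' := hcc.b0
  have IA0 := hcc.IA0
  have Ct : C t ≤ Cv := (h.C_le ht).trans n.C1
  have Ct0 := h.C_nn ht
  have Cv0 : 0 ≤ Cv := Ct0.trans Ct
  have bB0 := h.bB0
  have bB2 : 0 ≤ bB / 2 := by linarith
  have cE0 : 0 ≤ cE := zero_le_one.trans h.cE1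
  have cx' : ContinuousOn (fun s : ℝ => X2 s) (Icc 0 τ) := n.cX
  have cYt : ContinuousOn Y2 (Icc 0 t) := n.cY.mono sub
  have cC2 : ContinuousOn (fun s => C s ^ 2) (Icc 0 τ) := h.cC.pow 2
  have cCt := h.cC.mono sub
  have g20 : 0 ≤ g2 := le_trans (intervalIntegral.integral_nonneg τ0 fun s hs =>
    mul_nonneg (h.p0n hs).2 (sq_nonneg _)) n.Hg2
  have h20 : 0 ≤ h2 := le_trans (intervalIntegral.integral_nonneg τ0 fun s hs =>
    mul_nonneg (n.p0i h hs) (sq_nonneg _)) n.Hh2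
  have h00 : 0 ≤ h0 := le_trans (intervalIntegral.integral_nonneg τ0 fun s hs =>
    n.p0i h hs) n.Hh0
  have mM0 : 0 ≤ mM := le_trans zero_le_one ((h.m1 0 ⟨le_rfl, τ0⟩).trans
    (n.HmM 0 ⟨le_rfl, τ0⟩))
  -- the exponentials
  have x0 := Real.exp_pos Y
  have xδ := Real.exp_pos δ
  have eδ : Real.exp δ ≤ ex4 δ := exp_le_ex4 n.d0 n.d1
  have E2 : Real.exp Y * (Real.exp Y * Real.exp δ) ≤ M2 :=
    (mul_le_mul n.HeY (mul_le_mul n.HeY eδ xδ.le eY0) (mul_pos x0 xδ).le eY0).trans n.HM2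
  have E20 : 0 ≤ Real.exp Y * (Real.exp Y * Real.exp δ) := by positivity
  have EH' : Real.exp Y * Real.exp (v0 * δ) ≤ ωH := by
    refine (mul_le_mul n.HeY (exp_le_ex4 (mul_nonneg n.v00 n.d0)
      (mul_le_one₀ n.v01 n.d0 n.d1)) (Real.exp_pos _).le eY0).trans n.wH
  have EH0 : 0 ≤ Real.exp Y * Real.exp (v0 * δ) := by positivity
  have yIA : Real.exp Y * IA ≤ eY * IA := mul_le_mul_of_nonneg_right n.HeY IA0
  have yIA0 : 0 ≤ Real.exp Y * IA := mul_nonneg x0.le IA0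
  have Jt : bB / 2 * C t ^ 2 ≤ bB / 2 * Cv ^ 2 :=
    mul_le_mul_of_nonneg_left (pow_le_pow_left₀ Ct0 Ct 2) bB2
  have Jt0 : 0 ≤ bB / 2 * C t ^ 2 := mul_nonneg bB2 (sq_nonneg _)
  refine t1_numQ (n.t1s h ht hfc hkv hA1 hc0 hc1) hcc hC hZ hf hx hk hfc cPe hA hms ht1 ha
    hw hgap (fun w hw s hs => ?_) n.RA0 n.RH0 n.EA0 n.EH0 ?_ ?_ ?_ ?_ n.amq n.fin
  · -- the density factor
    have kt := n.Kt h ht hkv
    have k1 := h.ke1 s (m s hs)
    have i1 : 1 + w * t ≤ 1 + τ * w := by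
      have := mul_le_mul_of_nonneg_left ht.2 hw.1
      linarith
    have i2 : (1 + ee * t) * kc t * ke s ≤ K * ke s :=
      mul_le_mul_of_nonneg_right kt (by linarith)
    rw [h.κ]
    calc (1 + w * t) * (1 + ee * t) * (kc t * ke s)
        = (1 + w * t) * ((1 + ee * t) * kc t * ke s) := by ring
      _ ≤ (1 + τ * w) * (K * ke s) := by
          refine mul_le_mul i1 i2 (mul_nonneg (mul_nonneg ?_ ?_) (by linarith)) ?_
          · have := mul_nonneg h.ee0 ht.1; linarith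
          · linarith [h.kc1 t ht]
          · have := mul_nonneg τ0 hw.1; linarith
      _ = _ := by ring
  · have I1 := n.i1 h ht (a := Real.exp Y * (Real.exp Y * Real.exp δ) * (bB / 2)) (b' := 1)
      (x' := fun s => C s ^ 2) (y' := fun s => X2 s) (mul_nonneg E20 bB2) zero_le_one
      cC2 cx' (fun s _ => sq_nonneg _) n.x2 n.Hg2 n.Hg1
    have e : (∫ s in (0 : ℝ)..t, b0 s * ((1 + s) ^ 2)⁻¹ * (K * ke s)
        * (Real.exp Y * (Real.exp Y * Real.exp δ) * (bB / 2 * C s ^ 2) + X2 s))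
        ≤ K * (M2 * (bB / 2) * g2 + g1) := by
      refine le_trans (le_of_eq ?_) (I1.trans (mul_le_mul_of_nonneg_left ?_ K0))
      · refine intervalIntegral.integral_congr fun s _ => ?_
        ring
      · have := mul_le_mul_of_nonneg_right (mul_le_mul_of_nonneg_right E2 bB2) g20
        linarith
    have j1 : (ω * (Real.exp Y * IA) + x1) * α0 ≤ (ω * (eY * IA) + x1) * α0 :=
      mul_le_mul_of_nonneg_right (by
        have := mul_le_mul_of_nonneg_left yIA w0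
        linarith) α00
    exact (add_le_add j1 e).trans n.HRA
  · have I2 := n.i2 h ht (f := fun s => Real.exp Y * Real.exp (v0 * δ) * (Real.exp Y * IA)
        + (Real.exp Y * (Real.exp Y * Real.exp δ) * (bB / 2 * C s ^ 2) + Y2 s))
      (a := ωH * (eY * IA)) (b' := M2 * (bB / 2)) (G := ωH * (eY * IA) * h0
        + M2 * (bB / 2) * h2 + h1)
      (mul_nonneg (EH0.trans EH') (mul_nonneg eY0 IA0)) (mul_nonneg (E20.trans E2) bB2)
      (fun s _ => by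
        have i1 : Real.exp Y * Real.exp (v0 * δ) * (Real.exp Y * IA) ≤ ωH * (eY * IA) :=
          mul_le_mul EH' yIA yIA0 (EH0.trans EH')
        have i2 := mul_le_mul_of_nonneg_right E2 (mul_nonneg bB2 (sq_nonneg (C s)))
        linarith) (by fun_prop) le_rfl
    exact I2.trans n.HRH
  · have I1 := n.i1 h ht (a := 1) (b' := cE * (oP * (1 + cw)) * (bB / 2))
      (x' := fun s => X2 s) (y' := fun s => C s ^ 2) zero_le_one
      (mul_nonneg (mul_nonneg cE0 b0') bB2) cx' cC2 n.x2 (fun s _ => sq_nonneg _) n.Hg1 n.Hg2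
    have e : (∫ s in (0 : ℝ)..t, b0 s * ((1 + s) ^ 2)⁻¹ * (K * ke s)
        * (X2 s + cE * (oP * (1 + cw) * (bB / 2 * C s ^ 2))))
        ≤ K * (g1 + cE * (oP * (1 + cw)) * (bB / 2) * g2) := by
      refine le_trans (le_of_eq ?_) (I1.trans (le_of_eq ?_))
      · refine intervalIntegral.integral_congr fun s _ => ?_
        ring
      · ring
    have j1 : (oA * (bB / 2 * C t ^ 2) + x1) * α0 ≤ (oA * (bB / 2 * Cv ^ 2) + x1) * α0 :=
      mul_le_mul_of_nonneg_right (by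
        have := mul_le_mul_of_nonneg_left Jt a0
        linarith) α00
    exact (add_le_add j1 e).trans n.HEA
  · have I2 := n.i2 h ht (f := fun s => mM * (oA * (bB / 2 * C t ^ 2)
        + oP * (1 + cw) * (bB / 2 * C s ^ 2)) + Y2 s)
      (a := mM * (oA * (bB / 2 * Cv ^ 2))) (b' := mM * (oP * (1 + cw)) * (bB / 2))
      (G := mM * (oA * (bB / 2 * Cv ^ 2)) * h0 + mM * (oP * (1 + cw)) * (bB / 2) * h2 + h1)
      (mul_nonneg mM0 (mul_nonneg a0 (Jt0.trans Jt))) (mul_nonneg (mul_nonneg mM0 b0') bB2)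
      (fun s _ => by
        have i1 := mul_le_mul_of_nonneg_left (mul_le_mul_of_nonneg_left Jt a0) mM0
        linarith) (by fun_prop) le_rfl
    refine I2.trans (le_trans (le_of_eq ?_) n.HEH)
    ring

end main

end Pool.Agent.RX.RCN.K
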