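import Pool.Agent.RX.RCN.CkT
import Pool.Agent.RX.RCN.T1G
import Pool.Agent.RX.RCN.T1J
import Pool.Agent.RX.RCN.T1K
import Pool.Agent.RX.RCN.XqC

/-! The first part of the inequality of the centres: the check of a cell, second form
(MP_73ccd0_lc, route M). -/

namespace Pool.Agent.RX.RCN.K

open Set Finset MeasureTheory Pool.Agent.RX.RCRSHalf Pool.Agent.RX.RCG Pool.Agent.RX.RCG.Ct
open Pool.Agent.RX.RCN.Ker Pool.Agent.RX.RCRS Pool.Agent.RX.RCM9 Pool.Agent.RX.RCM9.Bern Pool.Agent.RX.RCM9.Pk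
open Pool.Agent.RX.RCN.Ck1

set_option linter.unusedSectionVars false

theorem int_pv3 (a b d : List ℚ) (x y z t : ℝ) :
    ∫ s in (0 : ℝ)..t, ((x * pv a s + y * pv b s) + z * pv d s)
      = x * pv (pri a) t + y * pv (pri b) t + z * pv (pri d) t := by
  have i1 : IntervalIntegrable (fun s => x * pv a s + y * pv b s) volume 0 t :=
    ((continuous_const.mul (continuous_pv a)).add
      (continuous_const.mul (continuous_pv b))).intervalIntegrable _ _
  have i2 : IntervalIntegrable (fun s => z * pv d s) volume 0 t :=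
    (continuous_const.mul (continuous_pv d)).intervalIntegrable _ _
  rw [intervalIntegral.integral_add i1 i2, int_pv2, intervalIntegral.integral_const_mul, int_pri]

/-- the value of the bracket -/
theorem T1q.pv_fb (c : T1q) (u : ℝ) : pv c.fb u = (1 + c.τ * u) * ((c.a1 : ℝ) + c.a2
      + (c.b1 + c.b2) * ((1 - u) * ((1 + c.τ * u) * (c.EA + (1 - u) * ((1 + c.τ / 2) * c.EH))))
    + c.CC * (c.RA + (1 - u) * ((1 + c.τ / 2) * c.RH))) := by
  simp only [T1q.fb, pv_ladd, pv_lmul, pv_lsmul, pv_cons, pv_nil]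
  push_cast
  ring

theorem T1q.q0_cast (c : T1q) : ((c.q0 : ℚ) : ℝ) = c.EA + (1 + c.τ / 2) * c.EH := by
  unfold T1q.q0
  push_cast
  ring

/-- the numbers of the joint bound -/
theorem T1q.amq {c : T1q} {D : ℤ} {n : ℕ} (hA : c.okA = true) (hQ : c.okQ D n = true)
    (α0 : 0 ≤ (c.α0 : ℝ)) (τ0 : 0 ≤ (c.τ : ℝ)) (τ1 : (c.τ : ℝ) ≤ 1) (ε0 : 0 ≤ (c.ε0 : ℝ))
    (C0 : 0 ≤ (c.CC : ℝ)) (a1 : (c.α0 : ℝ) * (1 + c.τ) < 1) :
    Amq (c.α0 : ℝ) c.τ c.ε0 c.CC (c.EA + (1 + c.τ / 2) * c.EH) c.a1 c.a2 c.b1 c.b2 := by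
  simp only [T1q.okA, Bool.and_eq_true, decide_eq_true_eq, and_assoc] at hA
  simp only [T1q.okQ, Bool.and_eq_true, and_assoc] at hQ
  obtain ⟨n1, n2, n3, n4, n5, n6, n7⟩ := hA
  obtain ⟨p1, p2, p3⟩ := hQ
  exact
    { α0 := α0
      γ0 := τ0
      γ1 := τ1
      ε00 := ε0
      C0 := C0
      a10 := by exact_mod_cast n1
      a20 := by exact_mod_cast n2
      b10 := by exact_mod_cast n3
      b20 := by exact_mod_cast n4
      a1 := a1
      c1 := by exact_mod_cast n5
      c2 := by exact_mod_cast n6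
      h1 := by exact_mod_cast n7
      h2 := fun z hz => by
        have h := nn_sub p1 (i01 hz)
        simp only [T1q.sq1, pv_ladd, pv_lsub, pv_lmul, pv_lsmul, pv_cons, pv_nil] at h
        push_cast at h
        rw [T1q.q0_cast] at h
        refine le_trans (le_of_eq ?_) (h.trans (le_of_eq ?_)) <;> ring
      h3 := fun z hz => by
        have h := nn_sub p2 (i01 hz)
        simp only [T1q.sq1, T1q.y2l, pv_lsub, pv_lmul, pv_cons, pv_nil] at h
        push_cast at h
        refine le_trans (le_of_eq ?_) (h.trans (le_of_eq ?_)) <;> ring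
      h4 := fun z hz => by
        have h := nn_sub p3 (i01 hz)
        simp only [T1q.sq1, T1q.y0l, T1q.y2l, pv_ladd, pv_lsub, pv_lmul, pv_lsmul, pv_cons,
          pv_nil] at h
        push_cast at h
        rw [T1q.q0_cast] at h
        refine le_trans (le_of_eq ?_) (h.trans (le_of_eq ?_)) <;> ring }

/-- **soundness of the checks** -/
theorem T1q.n_of {l : T1l} {c : T1q} {D : ℤ} {n m : ℕ} (hl : l.ax = true)
    (hN : c.okN l = true) (hM : c.okM l = true) (hA : c.okA = true) (hP : c.okP l D n m = true)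
    (hQ : c.okQ D n = true) (τ1' : (c.τ : ℝ) ≤ 1) (α00 : 0 ≤ (c.α0 : ℝ)) (ee0 : 0 ≤ (l.ee : ℝ))
    (hCs : ∀ s ∈ Icc 0 (c.τ : ℝ), pv l.Cl s ∈ Icc (0 : ℝ) c.Cv) :
    T1m (c.τ : ℝ) (pv l.mb) (pv l.Cl) (pv l.p0) (pv l.p1) (pv l.p2) (pv l.q0) (pv l.kc)
      (fun s => pv c.X2 (pv l.Cl s)) (fun s => pv c.Y2 (pv l.Cl s)) l.ee l.bB
      l.cE c.K c.kv c.Cv c.Y c.δ c.eY c.ω c.oA c.oP c.cw c.M2 c.v0 c.mM c.ωH c.IA c.x1 c.α0 c.mt
      c.CC c.a1 c.a2 c.b1 c.b2 c.e0 c.e1 c.ε0 c.g0 c.g1 c.g2 c.h0 c.h1 c.h2 c.RA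
      c.RH c.EA c.EH c.c0 c.c1 c.k1 := by
  simp only [T1l.ax, Bool.and_eq_true, decide_eq_true_eq, and_assoc] at hl
  simp only [T1q.okN, Bool.and_eq_true, decide_eq_true_eq, and_assoc] at hN
  simp only [T1q.okM, Bool.and_eq_true, decide_eq_true_eq, and_assoc] at hM
  simp only [T1q.okP, Bool.and_eq_true, and_assoc] at hP
  obtain ⟨aC, aP0, aP1, aP2, aQ0, aS0, aG2, aH0, aHC, aH2, aIC⟩ := hl
  obtain ⟨n1, n2, n3, n4, n5, _, n6, n6', n7, n8, n9, n10, n11, n12, n13, n14, n15, n16, n17,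
    n18, n23, n24, n25, n26, n27, n29⟩ := hN
  obtain ⟨m1, m2, m3, m4, m5, m6, m9, m10, m11, m12, m13, m14, m15, m16, m17, m18, m19,
    m20, m21, m22, m23⟩ := hM
  obtain ⟨p1, p2, p3, p4, p5, p8, p9, p10, pX, pY⟩ := hP
  have τ0 : (0 : ℝ) < (c.τ : ℝ) := by exact_mod_cast n1.trans_lt n2
  have eP0 : ∀ s, ∫ r in (0 : ℝ)..s, pv l.p0 r = pv l.P0 s := fun s => by rw [int_pri, ← aP0]
  have eP0' : (fun s : ℝ => ∫ r in (0 : ℝ)..s, pv l.p0 r) = pv l.P0 := funext eP0
  have E4 : ∀ z : ℚ, 0 ≤ z → z ≤ 1 → Real.exp (z : ℝ) ≤ ((e4q z : ℚ) : ℝ) := fun z h0 h1 => by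
    rw [e4q_cast]
    exact exp_le_ex4 (by exact_mod_cast h0) (by exact_mod_cast h1)
  have cC : Continuous fun s => pv l.Cl s := continuous_pv _
  have cc : ∀ q : List ℚ, Continuous fun s => pv q (pv l.Cl s) := fun q =>
    (continuous_pv q).comp cC
  have mC : ∀ s ∈ Icc 0 (c.τ : ℝ), pv l.Cl s ∈ Icc ((0 : ℚ) : ℝ) (c.Cv : ℝ) := fun s hs => by
    simpa using hCs s hs
  have m12' : (0 : ℝ) ≤ c.e0 := by exact_mod_cast m12
  have m11' : (0 : ℝ) ≤ c.e1 := by exact_mod_cast m11
  have m13' : (1 + (l.ee : ℝ) * c.τ) * (c.e0 + c.e1 / 2) ≤ c.ε0 := by exact_mod_cast m13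
  have ε0' : (0 : ℝ) ≤ c.ε0 := by
    refine le_trans ?_ m13'
    positivity
  exact
    { kv1 := by exact_mod_cast n3
      K1 := by exact_mod_cast n4
      C1 := by rw [← evq_pv]; exact_mod_cast n5
      Y0 := by exact_mod_cast n6
      d0 := by exact_mod_cast n7
      d1 := by exact_mod_cast n8
      Cδ := by exact_mod_cast n9
      HeY := (E4 c.Y n6 n6').trans (by exact_mod_cast n10)
      w1 := fun q hq => by
        have h := nn_sub p1 (i01 hq)
        simp only [pv_lmul, pv_lsmul, pv_e4, pv_cons, pv_nil] at h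
        push_cast at h
        calc _ = (1 + q * (-1 + q * 0)) * (1 + q * ((c.τ : ℝ) + q * 0))
              * ((c.eY : ℝ) * ex4 (q * c.δ)) := by ring
          _ ≤ (c.ω : ℝ) + q * 0 := h
          _ = _ := by ring
      a1 := fun q hq => by
        have h := nn_sub p2 (i01 hq)
        simp only [pv_lmul, pv_lsmul, pv_e4, pv_cons, pv_nil] at h
        push_cast at h
        refine le_trans (le_of_eq ?_) (h.trans (le_of_eq ?_)) <;> ring
      HoP := fun q hq => by
        have h := nn_sub p3 (i01 hq)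
        simp only [pv_lmul, pv_lsmul, pv_e4, pv_cons, pv_nil] at h
        push_cast at h
        refine le_trans (le_of_eq ?_) (h.trans (le_of_eq ?_)) <;> ring
      Hcw := fun w hw => by
        have h := nn_sub p4 (i01 hw)
        simp only [pv_lmul, pv_cons, pv_nil] at h
        push_cast at h
        refine le_trans (le_of_eq ?_) (h.trans (le_of_eq ?_)) <;> ring
      cw0 := by exact_mod_cast n11
      HM2 := by
        have : ((c.eY * (c.eY * e4q c.δ) : ℚ) : ℝ) ≤ (c.M2 : ℝ) := by exact_mod_cast n12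
        push_cast at this
        rwa [e4q_cast] at this
      v00 := by exact_mod_cast n13
      v01 := by exact_mod_cast n14
      mv := by exact_mod_cast n15
      HmM := fun s hs => by
        have h := nn_sub p5 (t := s) (by simpa using hs)
        simp only [pv_cons, pv_nil, mul_zero, add_zero] at h
        exact h
      wH := by
        have : ((c.eY * e4q (c.v0 * c.δ) : ℚ) : ℝ) ≤ (c.ωH : ℝ) := by exact_mod_cast n16
        push_cast at this
        rw [e4q_cast] at this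
        push_cast at this
        exact this
      ia := by
        rw [intervalIntegral.integral_sub (by simp) ((continuous_pv _).intervalIntegrable _ _),
          intervalIntegral.integral_const, int_pri, ← aIC, ← evq_pv, smul_eq_mul, sub_zero,
          mul_comm (c.τ : ℝ)]
        exact_mod_cast n17
      x10 := by exact_mod_cast n18
      cX := (cc _).continuousOn
      cY := (cc _).continuousOn
      x2 := fun s hs => nn_le pX (mC s hs)
      y2 := fun s hs => nn_le pY (mC s hs)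
      Hg0 := by rw [eP0, ← evq_pv]; exact_mod_cast n23
      Hg1 := by
        have e : (fun s : ℝ => pv l.p0 s * pv c.X2 (pv l.Cl s))
            = fun s => ((c.x20 : ℝ) * pv l.p0 s + c.x21 * pv (lmul l.p0 l.Cl) s)
              + c.x22 * pv (lmul l.p0 (lmul l.Cl l.Cl)) s := by
          funext s
          simp only [T1q.X2, pv_lmul, pv_cons, pv_nil]
          ring
        rw [e, int_pv3, ← aP0, ← aS0, ← aG2, ← evq_pv, ← evq_pv, ← evq_pv]
        exact_mod_cast n24
      Hg2 := by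
        have e : (fun s : ℝ => pv l.p0 s * pv l.Cl s ^ 2) = pv (lmul l.p0 (lmul l.Cl l.Cl)) := by
          funext s
          rw [pv_lmul, pv_lmul]
          ring
        rw [e, int_pri, ← aG2, ← evq_pv]
        exact_mod_cast n25
      Hh0 := by
        rw [eP0', int_pri, ← aH0, ← evq_pv]
        exact_mod_cast n26
      Hh1 := by
        have e : (fun s : ℝ => (∫ r in (0 : ℝ)..s, pv l.p0 r) * pv c.Y2 (pv l.Cl s))
            = fun s => ((c.y20 : ℝ) * pv l.P0 s + c.y21 * pv (lmul l.P0 l.Cl) s)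
              + c.y22 * pv (lmul l.P0 (lmul l.Cl l.Cl)) s := by
          funext s
          simp only [T1q.Y2, eP0, pv_lmul, pv_cons, pv_nil]
          ring
        rw [e, int_pv3, ← aH0, ← aHC, ← aH2, ← evq_pv, ← evq_pv, ← evq_pv]
        exact_mod_cast n27
      Hh2 := by
        have e : (fun s : ℝ => (∫ r in (0 : ℝ)..s, pv l.p0 r) * pv l.Cl s ^ 2)
            = pv (lmul l.P0 (lmul l.Cl l.Cl)) := by
          funext s
          rw [eP0, pv_lmul, pv_lmul]
          ring
        rw [e, int_pri, ← aH2, ← evq_pv]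
        exact_mod_cast n29
      Hα0 := by exact_mod_cast m1
      m1 := by exact_mod_cast m2
      mt1 := by exact_mod_cast m3
      m2 := by exact_mod_cast m4
      a2 := by exact_mod_cast m5
      cj := fun p hp => by
        have h := nn_sub p8 (i01 hp)
        simp only [pv_lmul, pv_lsmul, pv_cons, pv_nil] at h
        push_cast at h
        refine le_trans (le_of_eq ?_) (h.trans (le_of_eq ?_)) <;> ring
      CC0 := by exact_mod_cast m6
      He0 := by
        rw [eP0, int_pri, ← aQ0, ← evq_pv, ← evq_pv]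
        exact_mod_cast m9
      He1 := by
        rw [int_pri, int_pri, ← aP1, ← aP2, ← evq_pv, ← evq_pv]
        exact_mod_cast m10
      e10 := by exact_mod_cast m11
      e00 := by exact_mod_cast m12
      Hε0 := m13'
      RA0 := by exact_mod_cast m14
      RH0 := by exact_mod_cast m15
      EA0 := by exact_mod_cast m16
      EH0 := by exact_mod_cast m17
      HRA := by exact_mod_cast m18
      HRH := by exact_mod_cast m19
      HEA := by exact_mod_cast m20
      HEH := by exact_mod_cast m21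
      c00 := by exact_mod_cast m22
      c10 := by exact_mod_cast m23
      amq := T1q.amq hA hQ α00 τ0.le τ1' ε0' (by exact_mod_cast m6) (by exact_mod_cast m5)
      fin := fun u hu => by
        rcases le_total u (1 / 2) with h1 | h1
        · have h := nn_sub p9 (t := u) (by
            constructor
            · simpa using hu.1
            · push_cast; exact h1)
          rw [pv_lmul, T1q.pv_fb] at h
          simp only [pv_cons, pv_nil] at h
          rw [show eta u = u from min_eq_left (by linarith)]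
          refine le_trans (le_of_eq ?_) (h.trans (le_of_eq ?_)) <;> ring
        · have h := nn_sub p10 (t := u) (by
            constructor
            · push_cast; exact h1
            · simpa using hu.2)
          rw [pv_lmul, T1q.pv_fb] at h
          simp only [pv_cons, pv_nil] at h
          push_cast at h
          rw [show eta u = 1 / 2 from min_eq_right h1]
          refine le_trans (le_of_eq ?_) (h.trans (le_of_eq ?_)) <;> ring }

variable {p : Ps} {g : GDat} {V : Type} [Fintype V] [DecidableEq V]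
variable {Gr : SimpleGraph V} [Fintype Gr.edgeSet] [DecidableEq Gr.edgeSet]
variable {x : Gr.edgeSet → ℝ}

/-- **the first part of the inequality of the centres in a numeric cell** -/
theorem t1_cellQ {l : T1l} {c : T1q} {D D' : ℤ} {n m j n' : ℕ} {σ τ' : ℚ} (hp : p.Ok)
    (hg : g.Pos p.d) (hq : T1p p l.bB) (ho : l.Of p g) (hl : l.ax = true)
    (hG : l.okG D' n' τ' = true) (hc : c.ok l D n m σ j = true) (hτ : c.τ ≤ btq)
    (hx : IsFractionalMatching Gr x) {C : Cx (V ⊕ V)} (hC : Cls p.z.hz (xe x) (P0 V) C)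
    (hlo : C.lo = pv p.lo)
    {t : ℝ} (ht : t ∈ Icc (c.α : ℝ) c.τ) {a : V ⊕ V} (ha : P0 V a)
    (hX : ∀ b, P0 V b → a ≠ b → ∃ (sg τ1 : ℝ) (X Xt : ℕ → ℝ → V ⊕ V → V ⊕ V → ℝ),
      ∀ s ∈ Icc 0 t, ∀ j, Act C t s j →
        Xw p.z.hz (p.y.lz2 p.z (xe x) (P0 V) a b sg τ1) (xe x) (P0 V) C
          ((p.da (g.kd p.d) (C.pd (xe x) (P0 V))).R x) a b t s c.τ c.x1
          (pv c.X2 (pv l.Cl s)) (pv c.Y2 (pv l.Cl s)) j (X j s) (Xt j s)) :
    ∑ b, xr (xe x) (P0 V) a b * ∑ d ∈ ({a, b} : Finset (V ⊕ V))ᶜ,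
        wS (p.da (g.kd p.d) (C.pd (xe x) (P0 V))).k.fh
          (p.da (g.kd p.d) (C.pd (xe x) (P0 V))).k.mb
          ((p.da (g.kd p.d) (C.pd (xe x) (P0 V))).E x) (xe x) (P0 V) a b d t
      ≤ (σ : ℝ) * p.d.dt.kt t
        * ∑ b, xr (xe x) (P0 V) a b ^ 2 * (1 - xr (xe x) (P0 V) a b) := by
  have hw := wt_xe hx zero_le_one le_rfl fun e => (hx.1 e).2
  set D0 := p.da (g.kd p.d) (C.pd (xe x) (P0 V)) with hD0
  have hCp : Cls D0.Z (xe x) (P0 V) D0.C := hC.pd hw
  have hD : D0.Ok := da_ok hp hlo (fun w => kd_cn _ w) (kP_of hp hg)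
  have hf : Lf D0.C.N D0.k D0.κd (D0.R x) D0.L D0.Lt := Da.lf hD hx hCp
  have kok : D0.k.Ok := Dt.kf_ok hD.T hD.k
  have kq := Dt.kq hD.T hD.k
  have gp := gp_of (V := V) hp hg (C.pd (xe x) (P0 V))
  -- the checks
  have hcc := hc
  simp only [T1q.ok, Bool.and_eq_true, and_assoc] at hcc
  obtain ⟨cN, cM, cA, cP, cQ, cC⟩ := hcc
  have cN2 := cN
  simp only [T1q.okN, Bool.and_eq_true, decide_eq_true_eq, and_assoc] at cN2
  obtain ⟨n1, n2, n3, n4, n5, nY, nY0, nY1, nd0, nd1, nC, -⟩ := cN2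
  simp only [T1q.okC, Bool.and_eq_true, and_assoc] at cC
  obtain ⟨c1, c2, c3, c4, c5⟩ := cC
  have α0 : (0 : ℝ) ≤ c.α := by exact_mod_cast n1
  have t0 : 0 ≤ t := α0.trans ht.1
  have τ1 : (c.τ : ℝ) ≤ bt := by unfold bt; exact_mod_cast hτ
  have ht' : t ∈ Icc (0 : ℝ) (c.τ : ℝ) := ⟨t0, ht.2⟩
  have htb : t ∈ Icc (0 : ℝ) bt := ⟨t0, ht.2.trans τ1⟩
  have τ0 : (0 : ℝ) ≤ c.τ := t0.trans ht.2
  have gg := t1g_of hp hg hq ho hl hG τ0 τ1
  have C1 : pv l.Cl c.τ ≤ (c.Cv : ℝ) := by rw [← evq_pv]; exact_mod_cast n5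
  have K0 : (0 : ℝ) ≤ c.K := by
    have a1 : (1 + (l.ee : ℝ) * c.τ) * c.kv ≤ c.K := by exact_mod_cast n4
    have a2 : (1 : ℝ) ≤ c.kv := by exact_mod_cast n3
    refine le_trans ?_ a1
    have := gg.ee0
    positivity
  have α00 : (0 : ℝ) ≤ c.α0 := by
    have cM2 := cM
    simp only [T1q.okM, Bool.and_eq_true, decide_eq_true_eq, and_assoc] at cM2
    have cN3 := cN
    simp only [T1q.okN, Bool.and_eq_true, decide_eq_true_eq, and_assoc] at cN3
    have g00 : (0 : ℝ) ≤ c.g0 := by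
      have a1 : pv l.P0 c.τ ≤ (c.g0 : ℝ) := by
        rw [← evq_pv]
        exact_mod_cast cN3.2.2.2.2.2.2.2.2.2.2.2.2.2.2.2.2.2.2.2.2.1
      refine le_trans ?_ a1
      have a2 := hl
      simp only [T1l.ax, Bool.and_eq_true, decide_eq_true_eq, and_assoc] at a2
      rw [a2.2.1, ← int_pri]
      exact intervalIntegral.integral_nonneg τ0 fun s hs => (gg.p0n hs).2
    have a3 : (c.K : ℝ) * c.g0 ≤ c.α0 := by exact_mod_cast cM2.1
    exact (mul_nonneg K0 g00).trans a3
  have nn' := T1q.n_of hl cN cM cA cP cQ (τ1.trans bt_le) α00 gg.ee0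
    fun s hs => ⟨gg.C_nn hs, (gg.C_le hs).trans C1⟩
  have k1 := nn_sub c1 ht
  have k2 := nn_sub c2 ht
  have k3 := nn_sub c3 ht
  have k4 := nn_sub c4 ht
  have k5 := nn_sub c5 ht
  simp only [pv_cons, pv_nil, pv_ladd, pv_lsub, pv_lsmul, mul_zero, add_zero] at k1 k2 k3 k4 k5
  push_cast at k3
  have eC : l.Cl = pri p.z.mb := by
    have := hl
    simp only [T1l.ax, Bool.and_eq_true, decide_eq_true_eq, and_assoc] at this
    rw [this.1, ho.mb]
  have Ctau : pv (pri p.z.mb) c.τ ≤ (c.Cv : ℝ) := by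
    have := nn'.C1
    rwa [eC] at this
  have Th : ∀ s ∈ Icc 0 t, p.z.Th t s ≤ (c.Cv : ℝ) - pv l.Cl s := fun s hs => by
    have h1 := hq.Th hs.1 hs.2 htb.2
    have h2 := gg.C_le ht'
    rw [eC] at h2
    rw [eC]
    linarith
  have C0 : ∀ s ∈ Icc 0 t, 0 ≤ pv l.Cl s := fun s hs => gg.C_nn ⟨hs.1, hs.2.trans ht.2⟩
  have m1 : ∀ y ∈ Icc (0 : ℝ) 1, ∀ r ∈ Icc 0 t, p.z.hz.rr y r * (1 - y) ≤ 1 := fun y hy r hr =>
    hq.m1 hp hy ⟨hr.1, hr.2.trans htb.2⟩
  -- the gap
  have hgap : ∀ b d, P0 V b → P0 V d → a ≠ b → a ≠ d → b ≠ d →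
      D0.k.mb (xr (xe x) (P0 V) a b) (xr (xe x) (P0 V) a d) (xr (xe x) (P0 V) b d) t
        + min ((xdOf (xe x) D0.κd (D0.R x) D0.L D0.Lt).E (xe x) (P0 V) D0.k a b d t)
          ((xdOf (xe x) D0.κd (D0.R x) D0.L D0.Lt).E (xe x) (P0 V) D0.k a d b t) ≤ 1 :=
    fun b d hb hd hab had hbd => by
      have := gap_of_A hf hw kok kq.fc hD.k.cPe gp.ab kq.ms gp.hA gp.a0 gp.hγ gp.le ha hb hd hab
        had hbd htb
      linarith [gp.d0]
  have key := T1m.main gg nn' hD.Cf hD.Z hf hw kok kq.fc hD.k.cPe gp.ab kq.ms ht' k1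
    (by linarith) (by linarith) (fun w hw' => by
      have a1 : pv g.al t ≤ (c.α0 : ℝ) := by rw [← ho.al]; exact k4
      have a0 := gp.a0 t htb
      have w1 : 0 ≤ 1 + w * t := by
        have := mul_nonneg hw'.1 t0
        linarith
      have w2 : 1 + w * t ≤ 1 + c.τ * w := by
        have := mul_le_mul_of_nonneg_left ht.2 hw'.1
        linarith
      show (1 + w * t) * pv g.al t ≤ _
      calc (1 + w * t) * pv g.al t ≤ (1 + c.τ * w) * c.α0 :=
            mul_le_mul w2 a1 a0 (w1.trans w2)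
        _ = _ := mul_comm _ _) ha (fun b hb hab => by
      obtain ⟨sg, τ2, X, Xt, hX'⟩ := hX b hb hab
      refine ⟨p.y.lz2 p.z (xe x) (P0 V) a b sg τ2, _, _,
        t1w_of (C := C) τ0 hD.Z hw hab htb hC.ε0 ?_ (fun s hs => ?_) m1
          (fun d s hs => ?_) (fun d s hs => ?_) (fun s hs => ?_) nn'.v00 nn'.mv
          (X := X) (Xt := Xt) hX' (fun s hs => ?_)⟩
      · rw [hC.last _ (ci_lt hC.N0 htb.2)]
        exact (ci_mem hC.N0 htb.1 htb.2).2
      · have := kin_ps (sg := sg) (τ := τ2) hp hw hab htb hs m1 (Y := c.Y) (δ := c.δ)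
          (fun r hr => ?_) (fun r hr => ?_) nn'.d0 nn'.d1
        · rw [ho.mb]
          exact this
        · refine (Y_anti hp hr.1 hr.2 htb.2).trans ((hp.y.Y_mono le_rfl t0 ht.2 τ1).trans ?_)
          have e : p.y.Y c.τ 0 = ((c.τ ^ 3 * evq l.Yl c.τ : ℚ) : ℝ) := by
            push_cast
            rw [evq_pv, ho.Yl]
            unfold YDat.Y
            rw [sub_zero]
            congr 1
            cases p.y.QY with
            | nil => rfl
            | cons a l => simp [pv2]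
          rw [e]
          exact_mod_cast nY
        · have := Th r hr
          have := C0 r hr
          have := nn'.Cδ
          linarith
      · exact rha_nonneg hD.kap.k0 hD.Z hw kok hD.κP a b d htb hs
      · exact min_le_left _ _
      · exact nn'.HmM s ⟨hs.1, hs.2.trans ht.2⟩
      · exact nn'.y2 s ⟨hs.1, hs.2.trans ht.2⟩) hgap
  have S0 : 0 ≤ ∑ b, xr (xe x) (P0 V) a b ^ 2 * (1 - xr (xe x) (P0 V) a b) :=
    Finset.sum_nonneg fun b _ => mul_nonneg (sq_nonneg _) (by
      have := xr_le_d hw a b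
      linarith)
  have e : p.d.dt.kt t = pv l.kt t := by rw [ho.kt]; rfl
  rw [e]
  exact key.trans (mul_le_mul_of_nonneg_right k5 S0)

end Pool.Agent.RX.RCN.K
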