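import Pool.Agent.RX.RCN.MDat
import Pool.Agent.RX.RCN.Yl

/-! The bounds of the tails by groups of cells, and the clock of a cell (MP_73ccd0_lc, route M). -/

set_option autoImplicit false

namespace Pool.Agent.RX.RCN.K

open Set Finset MeasureTheory Pool.Agent.RX.RCRSHalf Pool.Agent.RX.RCG Pool.Agent.RX.RCG.Ct
open Pool.Agent.RX.RCN.Ker Pool.Agent.RX.RCRS Pool.Agent.RX.RCM9 Pool.Agent.RX.RCM9.Bern Pool.Agent.RX.RCM9.Pk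

set_option linter.unusedSectionVars false

/-- the clock -/
noncomputable def Ps.Cc (p : Ps) (t : ℝ) : ℝ := pv (pri p.z.mb) t

/-- the bounds of the scalar functions in the clock -/
structure Ckp (p : Ps) (y B : List ℚ) : Prop where
  Th : ∀ {τ r : ℝ}, 0 ≤ r → r ≤ τ → τ ≤ bt → p.z.Th τ r ≤ p.Cc τ - p.Cc r
  Y : ∀ {τ r : ℝ}, 0 ≤ r → r ≤ τ → τ ≤ bt → p.y.Y τ r ≤ pv y (p.Cc τ - p.Cc r)
  B : ∀ {τ r : ℝ}, 0 ≤ r → r ≤ τ → τ ≤ bt → p.g.rB τ r ≤ pv B (p.Cc τ - p.Cc r)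

theorem Ps.hasDerivAt_Cc (p : Ps) (t : ℝ) : HasDerivAt p.Cc (pv p.z.mb t) t :=
  hasDerivAt_pri p.z.mb t

theorem Ps.Cc_mono {p : Ps} (hp : p.Ok) {r t : ℝ} (h0 : 0 ≤ r) (h1 : r ≤ t) (h2 : t ≤ bt) :
    p.Cc r ≤ p.Cc t := by
  have key := nonneg_of_forward (a := r) (s := t)
    (U := fun z => p.Cc z - p.Cc r) (U' := fun z => pv p.z.mb z - 0)
    (fun z _ => (p.hasDerivAt_Cc z).sub (hasDerivAt_const _ _))
    (by simp)
    (fun z hz _ => by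
      have h2 := hp.z.mb_one (t := z) ⟨h0.trans hz.1, hz.2.trans h2⟩
      linarith)
    t ⟨h1, le_rfl⟩
  linarith

/-- a group of cells: the bounds are valid for the cells `i < n` -/
structure MGr where
  n : ℕ
  U : ℚ
  m : ℚ
  q : ℚ

/-- the conditions of a group -/
structure MGr.Ok (r : MGr) (g : MDat) (z : HDat) (N : ℕ) : Prop where
  m0 : 0 ≤ r.m
  m1 : r.m ≤ g.m
  q1 : r.q ≤ g.q
  one : r.m ≤ 1
  hq : 1 + r.m / 2 + r.m ^ 2 / 6 + r.m ^ 3 / 19 ≤ r.q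
  U0 : 0 < r.U
  U1 : r.U ≤ g.U
  nN : r.n ≤ N
  hU : ev (pri z.mb) (RCN.btq * (r.n / N)) ≤ r.U
  nn : NN (qc r.m - 2 * (MDat.l * pe2 g.Pf MDat.k (qc r.U * vZ)))

theorem MGr.Ok.q0 {r : MGr} {g : MDat} {z : HDat} {N : ℕ} (h : r.Ok g z N) : 0 ≤ r.q := by
  have := h.hq
  have h0 := h.m0
  have : (0 : ℚ) ≤ 1 + r.m / 2 + r.m ^ 2 / 6 + r.m ^ 3 / 19 := by positivity
  linarith

theorem MGr.Ok.exp {r : MGr} {g : MDat} {z : HDat} {N : ℕ} (h : r.Ok g z N) :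
    Real.exp (r.m : ℝ) - 1 ≤ (r.q : ℝ) * r.m := by
  have h0 : (0 : ℝ) ≤ r.m := by exact_mod_cast h.m0
  have h1 : (r.m : ℝ) ≤ 1 := by exact_mod_cast h.one
  have h2 := exp_le_T4 h0 h1
  have h3 : ((1 + r.m / 2 + r.m ^ 2 / 6 + r.m ^ 3 / 19 : ℚ) : ℝ) ≤ (r.q : ℝ) :=
    Rat.cast_le.2 h.hq
  push_cast at h3
  have h4 := mul_le_mul_of_nonneg_left h3 h0
  nlinarith

theorem MGr.Ok.bd {r : MGr} {g : MDat} {z : HDat} {N : ℕ} (h : r.Ok g z N) :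
    ∀ k ∈ Icc (0 : ℝ) 1, ∀ u ∈ Icc 0 (r.U : ℝ), 2 * ((1 - k) * pv2 g.Pf k u) ≤ r.m := by
  intro k hk u hu
  have U0 : (0 : ℝ) < r.U := by exact_mod_cast h.U0
  have h01 : (0 : ℝ) ∈ Icc (0 : ℝ) 1 := ⟨le_rfl, zero_le_one⟩
  have key := h.nn k (u / r.U) 0 0 hk ⟨div_nonneg hu.1 U0.le, (div_le_one U0).2 hu.2⟩ h01
    ⟨le_rfl, RCN.bt_nn⟩
  have vk : MDat.k.val (pt' k (u / r.U) 0 0) = k := rfl
  have vl : MDat.l.val (pt' k (u / r.U) 0 0) = 1 - k := by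
    show ((1 : E).val _ - vX.val _ : ℝ) = _
    rw [val_one, val_vX]
  simp only [val_sub, val_mul, val_qc, val_two, vl, val_pe2, vk] at key
  rw [val_vZ, mul_div_cancel₀ u U0.ne'] at key
  linarith

theorem cb_bt {N i n : ℕ} (N0 : 0 < N) (hi : i < n) : cb N i ≤ bt * ((n : ℝ) / N) := by
  unfold cb
  have hN : (0 : ℝ) < N := by exact_mod_cast N0
  have h1 : ((i : ℝ) + 1) ≤ n := by exact_mod_cast hi
  exact mul_le_mul_of_nonneg_left (div_le_div_of_nonneg_right h1 hN.le) bt_nn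

/-- the clock of a cell of the group -/
theorem MGr.Ok.clock {r : MGr} {g : MDat} {p : Ps} {N : ℕ} (h : r.Ok g p.z N) (hp : p.Ok)
    (N0 : 0 < N) {i : ℕ} (hi : i < r.n) : p.Cc (cb N i) ≤ r.U := by
  have hN : (0 : ℝ) < N := by exact_mod_cast N0
  have h1 : ((ev (pri p.z.mb) (RCN.btq * (r.n / N)) : ℚ) : ℝ) ≤ (r.U : ℝ) := Rat.cast_le.2 h.hU
  rw [← pv_ev] at h1
  push_cast at h1
  have hn : ((r.n : ℝ) / N) ≤ 1 := by
    rw [div_le_one hN]; exact_mod_cast h.nN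
  have h2 : bt * ((r.n : ℝ) / N) ≤ bt := by
    have := mul_le_mul_of_nonneg_left hn bt_nn
    linarith
  have h3 := Ps.Cc_mono hp (r := cb N i) (t := bt * ((r.n : ℝ) / N))
    (by unfold cb; have := bt_pos; positivity) (cb_bt N0 hi) h2
  exact h3.trans h1

variable {V : Type*} [Fintype V] [DecidableEq V]
variable {p : Ps} {x : V → V → ℝ} {P : V → Prop} [DecidablePred P] {a b : V}
  {sg τ U : ℝ} {gp gm : V → V → ℝ → ℝ} {y B : List ℚ} {Gp Gm : ℝ → ℝ → ℝ}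

/-- **the clock of a cell and the data of the world in terms of it** -/
theorem Ps.wck (hp : p.Ok) (hx : Wt x P 1) (hab : a ≠ b) (hτ : τ ∈ Icc (0 : ℝ) bt)
    (sg0 : 0 ≤ sg) (sgτ : sg ≤ τ) (hc : Ckp p y B) (hU : p.Cc τ ≤ U)
    (ps : ∀ i j, ∀ r ∈ Icc 0 τ, gp i j r = gp j i r)
    (ms : ∀ i j, ∀ r ∈ Icc 0 τ, gm i j r = gm j i r)
    (rp : ∀ e ∈ ({a, b} : Finset V)ᶜ, ∀ r ∈ Icc 0 τ, ∑ f ∈ ({a, b} : Finset V)ᶜ, gp e f r
      ≤ (1 - RCM.kx x {a, b} e) * Gp (RCM.kx x {a, b} e) (p.Cc τ - p.Cc r))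
    (rm : ∀ e ∈ ({a, b} : Finset V)ᶜ, ∀ r ∈ Icc 0 τ, ∑ f ∈ ({a, b} : Finset V)ᶜ, gm e f r
      ≤ (1 - RCM.kx x {a, b} e) * Gm (RCM.kx x {a, b} e) (p.Cc τ - p.Cc r)) :
    Wck p.z.hz (p.y.lz2 p.z x P a b sg τ) x P τ {a, b} p.g.rB gp gm U (pv y) (pv B) Gp Gm
      (pv p.z.mb) (fun r => p.Cc τ - p.Cc r) := by
  have m1 : ∀ r ∈ Icc 0 τ, r ∈ Icc (0 : ℝ) bt := fun r hr => ⟨hr.1, hr.2.trans hτ.2⟩
  have c0 : p.Cc 0 = 0 := pri_zero _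
  refine ⟨fun r hr => zero_le_one.trans (hp.z.mb_one (m1 r hr)), fun r hr => ?_, fun r hr => ?_,
    fun r hr u v => Hzd.hh_le hx (fun _ hy _ hs => hp.z.rr_mb hy hs) (fun _ hs => hp.z.mb_one hs)
      (m1 r hr) u v, fun r hr e he => ?_, fun r hr => hc.B hr.1 hr.2 hτ.2, ps, ms, rp, rm⟩
  · have := (hasDerivAt_const r (p.Cc τ)).sub (p.hasDerivAt_Cc r)
    exact this.congr_deriv (by ring)
  · have h1 := Ps.Cc_mono hp hr.1 hr.2 hτ.2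
    have h2 := Ps.Cc_mono hp le_rfl hr.1 (hr.2.trans hτ.2)
    exact ⟨by show 0 ≤ p.Cc τ - p.Cc r; linarith, by show p.Cc τ - p.Cc r ≤ U; linarith⟩
  · have hk : RCM.kx x {a, b} e = x a e + x b e := by
      unfold RCM.kx
      rw [Finset.sum_pair hab]
    have k0 := RCM.kx0 (wt_of hx) {a, b} e
    have k1 := RCM.kx1 (wt_of hx) {a, b} e
    have h1 := lz2_y1_le (P := P) hp hx hab hτ sg0 sgτ e hr
    rw [← hk] at h1
    have h2 := mul_le_mul_of_nonneg_left (hc.Th hr.1 hr.2 hτ.2) k0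
    have h3 := mul_le_mul_of_nonneg_left (hc.Y hr.1 hr.2 hτ.2) (sub_nonneg.2 k1)
    show _ ≤ RCM.kx x {a, b} e * (p.Cc τ - p.Cc r)
      + (1 - RCM.kx x {a, b} e) * pv y (p.Cc τ - p.Cc r)
    linarith

end Pool.Agent.RX.RCN.K
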