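import Pool.Agent.RX.RCN.CkT
import Pool.Agent.RX.RCN.MGr
import Pool.Agent.RX.RCN.XlG

/-! The first part of the inequality of the centres for all times, quadratic bounds of the rows
(MP_73ccd0_lc, route M). -/

namespace Pool.Agent.RX.RCN.K

open Set Finset MeasureTheory Pool.Agent.RX.RCRSHalf Pool.Agent.RX.RCG Pool.Agent.RX.RCG.Ct
open Pool.Agent.RX.RCN.Ker Pool.Agent.RX.RCRS Pool.Agent.RX.RCM9 Pool.Agent.RX.RCM9.Bern Pool.Agent.RX.RCM9.Pk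
open Pool.Agent.RX.RCN.Ck1

set_option linter.unusedSectionVars false

/-- a quadratic polynomial at a shifted point -/
theorem quad_sh {q0 q1 q2 w δ v m F x : ℝ} (δ0 : 0 ≤ δ) (δw : δ ≤ w)
    (hm : m = min 0 q2 * w ^ 2)
    (h1 : F ≤ m + (q0 + v * (q1 + v * q2)))
    (h2 : F ≤ m + (q0 + v * (q1 + v * q2)) - w * (q1 + 2 * q2 * v)) (hx : x = v - δ) :
    F ≤ q0 + x * (q1 + x * q2) := by
  subst hx
  have e : q0 + (v - δ) * (q1 + (v - δ) * q2)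
      = (q0 + v * (q1 + v * q2)) - δ * (q1 + 2 * q2 * v) + q2 * δ ^ 2 := by ring
  have m1 : m ≤ q2 * δ ^ 2 := by
    rw [hm]
    have d2 : δ ^ 2 ≤ w ^ 2 := pow_le_pow_left₀ δ0 δw 2
    have s0 := sq_nonneg δ
    rcases le_total 0 q2 with h | h
    · rw [min_eq_left h, zero_mul]
      exact mul_nonneg h s0
    · rw [min_eq_right h]
      exact mul_le_mul_of_nonpos_left d2 h
  have m2 : F - m ≤ (q0 + v * (q1 + v * q2)) - δ * (q1 + 2 * q2 * v) := by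
    rcases le_total 0 (q1 + 2 * q2 * v) with h | h
    · have := mul_le_mul_of_nonneg_right δw h
      linarith
    · have := mul_nonpos_of_nonneg_of_nonpos δ0 h
      linarith
  rw [e]
  linarith

/-- a numeric cell covers the cell `i` of the analysis -/
def CovT (T : T1l) (g : MDat) (gr : ℕ → MGr) (N : ℕ) (σ : ℕ → ℚ) (GR : List (List ℚ))
    (nb la : List ℚ) (Uo : ℚ) (i : ℕ) : Prop :=
  ∃ (c : T1q) (e : X1k) (y : Yl) (k : Nl) (d : Dl) (gR : List ℚ) (L : ℚ),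
    (∃ D n m j, c.ok T D n m (σ i) j = true) ∧
    (∃ D n, e.okq (rlB y gR d.kp (drl e.Ca c.Cv L d.dR)) c D n = true) ∧
    (∃ D n, okDr e.Ca c.Cv L d.dR D n = true) ∧ (∃ D n, d.ok y k nb la D n = true) ∧
    GoodB y k gR g T.bB GR ∧ 0 ≤ d.kp ∧ 0 ≤ c.α ∧ c.τ ≤ btq ∧
    e.Ca ≤ evq T.Cl c.α ∧ d.Ca ≤ evq T.Cl c.α ∧ evq T.Cl c.τ ≤ d.Cv ∧ d.Cv ≤ Uo ∧
    c.α * N ≤ btq * i ∧ btq * (i + 1) ≤ c.τ * N ∧ (gr i).m = y.m ∧ (gr i).q = y.q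

/-- the next numeric cell -/
theorem CovT.step {T : T1l} {g : MDat} {gr : ℕ → MGr} {N : ℕ} {σ : ℕ → ℚ} {sq : ℚ}
    {GR : List (List ℚ)} {nb la : List ℚ} {Uo : ℚ} {i0 i1 : ℕ}
    (h : ∀ i < i0, CovT T g gr N σ GR nb la Uo i) {c : T1q} {e : X1k} {y : Yl} {k : Nl} {d : Dl}
    {gR : List ℚ} {L : ℚ} {D D' D2 D3 : ℤ} {n m j n' n2 n3 : ℕ}
    (hc : c.ok T D n m sq j = true)
    (he : e.okq (rlB y gR d.kp (drl e.Ca c.Cv L d.dR)) c D' n' = true)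
    (hr : okDr e.Ca c.Cv L d.dR D2 n2 = true) (hd : d.ok y k nb la D3 n3 = true)
    (hl : GoodB y k gR g T.bB GR)
    (h1 : 0 ≤ d.kp ∧ 0 ≤ c.α ∧ c.τ ≤ btq ∧ e.Ca ≤ evq T.Cl c.α ∧ d.Ca ≤ evq T.Cl c.α ∧
      evq T.Cl c.τ ≤ d.Cv ∧ d.Cv ≤ Uo ∧ c.α * N ≤ btq * i0 ∧ btq * i1 ≤ c.τ * N)
    (h2 : ∀ i < i1, i0 ≤ i → (gr i).m = y.m ∧ (gr i).q = y.q ∧ σ i = sq) :
    ∀ i < i1, CovT T g gr N σ GR nb la Uo i := by
  intro i hi
  rcases lt_or_ge i i0 with h0 | h0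
  · exact h i h0
  · obtain ⟨a0, a1, a2, a3, a6, a7, a8, a4, a5⟩ := h1
    have b0 : (0 : ℚ) ≤ btq := by unfold btq; norm_num
    have c1 : (i0 : ℚ) ≤ i := by exact_mod_cast h0
    have c2 : ((i : ℚ) + 1) ≤ i1 := by exact_mod_cast hi
    exact ⟨c, e, y, k, d, gR, L, ⟨D, n, m, j, by rw [(h2 i hi h0).2.2]; exact hc⟩,
      ⟨D', n', he⟩, ⟨D2, n2, hr⟩, ⟨D3, n3, hd⟩, hl, a0, a1, a2, a3, a6, a7, a8,
      a4.trans (mul_le_mul_of_nonneg_left c1 b0), (mul_le_mul_of_nonneg_left c2 b0).trans a5,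
      (h2 i hi h0).1, (h2 i hi h0).2.1⟩

variable {V : Type} [Fintype V] [DecidableEq V]
variable {Gr : SimpleGraph V} [Fintype Gr.edgeSet] [DecidableEq Gr.edgeSet]
variable {p : Ps} {x : Gr.edgeSet → ℝ}

end Pool.Agent.RX.RCN.K
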