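import Pool.Agent.RX.RCN.T1G

/-! The first part of the inequality of the centres: from the rows of a class to `Xw`
(MP_73ccd0_lc, route M). -/

namespace Pool.Agent.RX.RCN.K

open Set Finset MeasureTheory Pool.Agent.RX.RCRSHalf Pool.Agent.RX.RCG Pool.Agent.RX.RCG.Ct
open Pool.Agent.RX.RCN.Ker Pool.Agent.RX.RCRS

set_option linter.unusedSectionVars false

variable {V : Type*} [Fintype V] [DecidableEq V] {x : V → V → ℝ} {P : V → Prop}
  [DecidablePred P] {a b : V} {Z : Hzd} {F : Lz V} {C : Cx V} {t s : ℝ}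

/-- the numbers of the rows at the time `s`; `Eg` is the gauge -/
structure Xn0 (Eg : ℝ → ℝ) (γ mM v0 Am A3 W Θ x1 x2 x2' : ℝ) : Prop where
  γ0 : 0 ≤ γ
  γ1 : γ ≤ 1
  Am0 : 0 ≤ Am
  A30 : 0 ≤ A3
  Θ0 : 0 ≤ Θ
  x20 : 0 ≤ x2
  E0 : ∀ k ∈ Icc (0 : ℝ) 1, 0 ≤ Eg k
  x1 : ∀ k ∈ Icc (0 : ℝ) 1, (1 + γ * k) * ((1 - k) * Eg k) * Am ≤ x1
  w1 : ∀ k ∈ Icc (0 : ℝ) 1, k ≤ v0 → Eg k ≤ W
  w2 : ∀ k ∈ Icc (0 : ℝ) 1, v0 ≤ k → mM * ((1 - k) * Eg k) ≤ W
  x2' : W * (Am + A3) + (x2 + Θ) ≤ x2'

/-- **the world of a class from the rows** -/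
theorem xw_abs (hx : Wt x P 1) (hab : a ≠ b) {Eg : ℝ → ℝ}
    {γ mM v0 Am A3 W Θ x1 x2 x2' : ℝ} (hn : Xn0 Eg γ mM v0 Am A3 W Θ x1 x2 x2')
    {R : V → V → V → ℝ → ℝ → ℝ} (R0 : ∀ d, 0 ≤ R a b d t s)
    (Rm : ∀ d ∈ ({a, b} : Finset V)ᶜ, R a b d t s ≤ x b d * mM)
    (R1 : ∀ d ∈ ({a, b} : Finset V)ᶜ, R a b d t s * (1 - x b d) ≤ x b d) {j : ℕ}
    {X Xt : V → V → ℝ}
    (x0 : ∀ d ∈ ({a, b} : Finset V)ᶜ, ∀ c ∈ ({a, b, d} : Finset V)ᶜ, 0 ≤ X c d)
    (t0 : ∀ d ∈ ({a, b} : Finset V)ᶜ, ∀ c ∈ ({a, b, d} : Finset V)ᶜ, 0 ≤ Xt c d)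
    (l : ∀ d ∈ ({a, b} : Finset V)ᶜ, P d → ∀ c ∈ ({a, b, d} : Finset V)ᶜ, P c →
      C.L (ci C.N t) j a b c d t s ≤ N2 Z F x P {a, b} t s t c d 0
        + N2 Z F x P {a, b} t s s d c 0 + X c d)
    (lt : ∀ d ∈ ({a, b} : Finset V)ᶜ, P d → ∀ c ∈ ({a, b, d} : Finset V)ᶜ, P c →
      C.Lt (ci C.N t) j a b c d t s ≤ N2 Z F x P {a, b} t s t c d 0
        + N2 Z F x P {a, b} t s s d c 0 + Xt c d)
    (rD : ∀ d ∈ ({a, b} : Finset V)ᶜ, ∑ c ∈ ({a, b, d} : Finset V)ᶜ, X c d
      ≤ (1 - (x a d + x b d)) * (Eg (x a d + x b d) * Am + x2))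
    (rT : ∀ d ∈ ({a, b} : Finset V)ᶜ, ∑ c ∈ ({a, b, d} : Finset V)ᶜ, Xt c d
      ≤ (1 - (x a d + x b d)) * (Eg (x a d + x b d) * (Am + A3) + (x2 + Θ))) :
    Xw Z F x P C R a b t s γ x1 x2 x2' j X Xt := by
  have hk : ∀ d ∈ ({a, b} : Finset V)ᶜ, x a d + x b d ∈ Icc (0 : ℝ) 1 := fun d _ => by
    have := (two_mem hx d hab).2
    rw [hx.symm d a, hx.symm d b] at this
    exact ⟨add_nonneg (hx.nonneg a d) (hx.nonneg b d), this⟩
  exact
    { x0 := x0
      t0 := t0
      l := l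
      lt := lt
      r := fun d hd => by
        obtain ⟨k0, k1⟩ := hk d hd
        have v0 := hx.nonneg a d
        have w0 := hx.nonneg b d
        have g0 : 0 ≤ 1 + γ * x a d := by
          have := mul_nonneg hn.γ0 v0
          linarith
        have key := mul_le_mul_of_nonneg_left (rD d hd) g0
        have i1 := hn.x1 _ (hk d hd)
        have i2 : 0 ≤ (1 - (x a d + x b d)) * Eg (x a d + x b d) * Am :=
          mul_nonneg (mul_nonneg (by linarith) (hn.E0 _ (hk d hd))) hn.Am0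
        have i3 : (1 + γ * x a d) * ((1 - (x a d + x b d)) * Eg (x a d + x b d) * Am)
            ≤ (1 + γ * (x a d + x b d))
              * ((1 - (x a d + x b d)) * Eg (x a d + x b d) * Am) := by
          refine mul_le_mul_of_nonneg_right ?_ i2
          have := mul_nonneg hn.γ0 w0
          linarith
        have i4 : (1 + γ * x a d) * (1 - (x a d + x b d)) ≤ 1 - x b d := by
          have j1 : γ * x a d ≤ x a d := mul_le_of_le_one_left v0 hn.γ1
          have j2 := mul_le_mul_of_nonneg_right (by linarith : 1 + γ * x a d ≤ 1 + x a d)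
            (by linarith : 0 ≤ 1 - (x a d + x b d))
          nlinarith [mul_nonneg v0 w0, mul_nonneg v0 v0]
        have i5 := mul_le_mul_of_nonneg_right i4 hn.x20
        refine key.trans ?_
        calc (1 + γ * x a d) * ((1 - (x a d + x b d)) * (Eg (x a d + x b d) * Am + x2))
            = (1 + γ * x a d) * ((1 - (x a d + x b d)) * Eg (x a d + x b d) * Am)
              + (1 + γ * x a d) * (1 - (x a d + x b d)) * x2 := by ring
          _ ≤ (1 + γ * (x a d + x b d))
              * ((1 - (x a d + x b d)) * Eg (x a d + x b d) * Am)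
              + (1 - x b d) * x2 := add_le_add i3 i5
          _ = (1 + γ * (x a d + x b d))
              * ((1 - (x a d + x b d)) * Eg (x a d + x b d)) * Am
              + (1 - x b d) * x2 := by ring
          _ ≤ _ := by linarith
      rt := fun d hd => by
        obtain ⟨k0, k1⟩ := hk d hd
        have v0' := hx.nonneg a d
        have w0 := hx.nonneg b d
        have r0 := R0 d
        have rm := Rm d hd
        have r1 := R1 d hd
        have key := mul_le_mul_of_nonneg_left (rT d hd) r0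
        have e0 := hn.E0 _ (hk d hd)
        -- the rate against the gauge
        have i1 : R a b d t s * ((1 - (x a d + x b d)) * Eg (x a d + x b d)) ≤ x b d * W := by
          rcases le_total (x a d + x b d) v0 with h1 | h1
          · have a1 := hn.w1 _ (hk d hd) h1
            have a2 : R a b d t s * (1 - (x a d + x b d)) ≤ x b d :=
              (mul_le_mul_of_nonneg_left (by linarith) r0).trans r1
            calc R a b d t s * ((1 - (x a d + x b d)) * Eg (x a d + x b d))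
                = R a b d t s * (1 - (x a d + x b d)) * Eg (x a d + x b d) := by ring
              _ ≤ x b d * Eg (x a d + x b d) := mul_le_mul_of_nonneg_right a2 e0
              _ ≤ x b d * W := mul_le_mul_of_nonneg_left a1 w0
          · have a1 := hn.w2 _ (hk d hd) h1
            have a2 : 0 ≤ (1 - (x a d + x b d)) * Eg (x a d + x b d) :=
              mul_nonneg (by linarith) e0
            calc R a b d t s * ((1 - (x a d + x b d)) * Eg (x a d + x b d))
                ≤ x b d * mM * ((1 - (x a d + x b d)) * Eg (x a d + x b d)) :=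
                  mul_le_mul_of_nonneg_right rm a2
              _ = x b d * (mM * ((1 - (x a d + x b d)) * Eg (x a d + x b d))) := by ring
              _ ≤ x b d * W := mul_le_mul_of_nonneg_left a1 w0
        have i2 : R a b d t s * (1 - (x a d + x b d)) ≤ x b d :=
          (mul_le_mul_of_nonneg_left (by linarith) r0).trans r1
        have A0 : 0 ≤ Am + A3 := add_nonneg hn.Am0 hn.A30
        have i3 := mul_le_mul_of_nonneg_right i1 A0
        have i4 := mul_le_mul_of_nonneg_right i2 (add_nonneg hn.x20 hn.Θ0)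
        have i5 := mul_le_mul_of_nonneg_left hn.x2' w0
        refine key.trans ?_
        calc R a b d t s * ((1 - (x a d + x b d))
              * (Eg (x a d + x b d) * (Am + A3) + (x2 + Θ)))
            = R a b d t s * ((1 - (x a d + x b d)) * Eg (x a d + x b d)) * (Am + A3)
              + R a b d t s * (1 - (x a d + x b d)) * (x2 + Θ) := by ring
          _ ≤ x b d * W * (Am + A3) + x b d * (x2 + Θ) := add_le_add i3 i4
          _ = x b d * (W * (Am + A3) + (x2 + Θ)) := by ring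
          _ ≤ _ := i5 }

/-- the sum of the direct parts -/
theorem direct_row (hx : Wt x P 1) (hab : a ≠ b) {H : V → V → ℝ} {Θ : ℝ} (Θ0 : 0 ≤ Θ)
    (hH : ∀ c d, H c d ≤ x c d * Θ) {d : V} (hd : d ∈ ({a, b} : Finset V)ᶜ) :
    ∑ c ∈ ({a, b, d} : Finset V)ᶜ, H c d ≤ (1 - (x a d + x b d)) * Θ := by
  refine (Finset.sum_le_sum fun c _ => hH c d).trans ?_
  rw [← Finset.sum_mul]
  refine mul_le_mul_of_nonneg_right ?_ Θ0
  have hd' := hd
  rw [mem2] at hd'
  have h := row_three hx d hab (Ne.symm hd'.1) (Ne.symm hd'.2)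
  have e : ∑ c ∈ ({a, b, d} : Finset V)ᶜ, x c d = ∑ c ∈ ({a, b, d} : Finset V)ᶜ, x d c :=
    Finset.sum_congr rfl fun c _ => hx.symm c d
  rw [e]
  rw [hx.diag d, hx.symm d a, hx.symm d b] at h
  linarith

end Pool.Agent.RX.RCN.K
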