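import Pool.Agent.RX.RCN.YfA

/-! Two-time rows of the closure exponents in the clock (MP_73ccd0_lc, route M). -/

namespace Pool.Agent.RX.RCN.K

open Set Finset MeasureTheory Pool.Agent.RX.RCRSHalf Pool.Agent.RX.RCG Pool.Agent.RX.RCG.Ct

set_option linter.unusedSectionVars false

variable {V : Type*} [Fintype V] [DecidableEq V]
variable {Z : Hzd} {F : Lz V} {x : V → V → ℝ} {P : V → Prop} [DecidablePred P]
variable {sl : ℝ → ℝ → ℝ} {τ sg : ℝ} {D : Finset V} {B E1 : ℝ → ℝ → ℝ}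
variable {G : Fm V} {f : Yf} {Gk Mk : ℝ → ℝ → ℝ} {mb u : ℝ → ℝ} {dlt : ℝ}

/-- the additional part of the released closure -/
noncomputable def Yf.rT (f : Yf) (us k : ℝ) : ℝ :=
  f.Eg k us * (f.gV us * f.Gm us + (1 + f.gW us) * f.Gp us + f.VT us)

variable (hf : f.Ok Gk Mk dlt) (hC : Z.Cf B E1) (hZ : Z.Ok sl) (hgs : G.gs = G.gm) (cB : ContinuousOn (B τ) (Icc 0 τ)) {s : ℝ} (hs : s ∈ Icc 0 τ) (hsg : s ≤ sg) {d : V} (hd : d ∈ Dᶜ)

include hf hC hZ hgs cB hs hsg hd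

end Pool.Agent.RX.RCN.K
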