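import Pool.Agent.RX.RCN.YfB
import Pool.Agent.RX.RCN.YfC

/-! Two-time rows without the part of level 1/2 (MP_73ccd0_lc, route M). -/

namespace Pool.Agent.RX.RCN.K

open Set Finset MeasureTheory Pool.Agent.RX.RCRSHalf Pool.Agent.RX.RCG Pool.Agent.RX.RCG.Ct

set_option linter.unusedSectionVars false

variable {V : Type*} [Fintype V] [DecidableEq V]

section defs

variable (Z : Hzd) (F : Lz V) (x : V → V → ℝ) (P : V → Prop) [DecidablePred P]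
variable (G : Fm V) (τ : ℝ) (D : Finset V)

/-- the deleted closure: level 2 and the tails at 0 -/
noncomputable def X0D (s : ℝ) (c d : V) : ℝ :=
  Kdd Z F x P D c d τ s G.d3 G.c4 (G.p c) (G.n c) (G.pd s d) (G.nd s d)
    + (G.n c d 0 + G.nd s d c 0)

/-- the released closure -/
noncomputable def X0T (s : ℝ) (c d : V) : ℝ :=
  Kdd Z F x P D c d τ s G.d3 G.c4 (G.p c) (G.n c) (G.pt s d) (G.nt s d)
    + (G.n c d 0 + G.nt s d c 0) + G.p c d s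

end defs

variable {Z : Hzd} {F : Lz V} {x : V → V → ℝ} {P : V → Prop} [DecidablePred P]
variable {sl : ℝ → ℝ → ℝ} {sg τ : ℝ} {B E1 : ℝ → ℝ → ℝ} {m' q : ℝ} {D : Finset V}
variable {G : Fm V} {E E' κ κ' : V → ℝ → ℝ} {k : Yk} {j : Yr}
variable {W W' V1 V1' U1 U1' : ℝ → ℝ}

section rows

variable (h : k.Ok Z F x P G.gp G.gm G.gs τ D B m' q E E' κ κ')
  (hc : k.Ch q τ k.bb k.b3 W W' V1 V1' U1 U1') {dlt : ℝ}
  (hj : j.Ok k τ q dlt (k.al W U1) (k.ga q V1))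
  (hC : Z.Cf B E1) (hZ : Z.Ok sl)
  (hx : Wt x P 1) (hτ : τ ≤ bt) (hG : G.Tk Z F x P sg τ D B m' q)
  (cB : ContinuousOn (B τ) (Icc 0 τ)) {s : ℝ} (hs : s ∈ Icc 0 τ) (hsg : s ≤ sg)

include h hc hj hC hZ hx hτ hG cB hs hsg

theorem Yk.Ok.row0_gen (hd0 : 0 ≤ dlt) {pd nd : V → ℝ → ℝ} {d : V} (hd : d ∈ Dᶜ)
    (td : Tls Z F x P τ D G.gp G.gs B q m' s d pd nd) {Pb Nb : ℝ}
    (hA : ∑ e ∈ Dᶜ.erase d, pd e s ≤ Pb) (hN : ∑ e ∈ Dᶜ.erase d, nd e s ≤ Nb) :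
    ∑ c ∈ Dᶜ.erase d, (Kdd Z F x P D c d τ s (D3f Z x P B τ q m') (C4f Z x P B τ q)
        (G.p c) (G.n c) pd nd + (G.n c d 0 + nd c 0))
      ≤ dmp x D d * (E d 0 * U1 0 + j.g1 s) + j.gV s * Pb + (1 + j.gW s) * Nb := by
  have key := h.row_gen hc hj hC hZ hx hτ hG cB hs hsg hd td (D1 := 0) (D2 := 0) le_rfl le_rfl
    hd0 hA hN le_rfl
  have e1 : ∑ c ∈ Dᶜ.erase d, (Kdd Z F x P D c d τ s (D3f Z x P B τ q m') (C4f Z x P B τ q)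
        (G.p c) (G.n c) pd nd + G.gm c d 0 + (G.n c d 0 + nd c 0)
      + (x c d * 0 + (N1 Z F x P D τ c d 0 + G.n c d 0 + (N1 Z F x P D s d c 0 + nd c 0)) * 0))
      = ∑ c ∈ Dᶜ.erase d, (Kdd Z F x P D c d τ s (D3f Z x P B τ q m') (C4f Z x P B τ q)
        (G.p c) (G.n c) pd nd + (G.n c d 0 + nd c 0)) + ∑ c ∈ Dᶜ.erase d, G.gm c d 0 := by
    rw [← Finset.sum_add_distrib]
    exact Finset.sum_congr rfl fun c _ => by ring
  rw [e1] at key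
  have e2 : dmp x D d * (E d 0 * ((1 + 0) * U1 0) + κ d 0 * (0 * W 0) + 0 + j.g1 s)
      = dmp x D d * (E d 0 * U1 0 + j.g1 s) := by ring
  rw [e2] at key
  linarith

theorem Yk.Ok.X0D_row (hd0 : 0 ≤ dlt) {d : V} (hd : d ∈ Dᶜ) :
    ∑ c ∈ Dᶜ.erase d, X0D Z F x P G τ D s c d ≤ dmp x D d * (E d 0 * U1 0 + j.g1 s) := by
  have hs' : s ∈ Icc 0 sg := ⟨hs.1, hsg⟩
  have key := h.row0_gen hc hj hC hZ hx hτ hG cB hs hsg hd0 hd (hG.td s hs' d hd)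
    (Pb := 0) (Nb := 0) (le_of_eq (Finset.sum_eq_zero fun e he => hG.pd s hs' d hd e he))
    (le_of_eq (Finset.sum_eq_zero fun e he => hG.nd s hs' d hd e he))
  unfold X0D
  rw [hG.d3, hG.c4]
  refine key.trans (le_of_eq ?_)
  ring

theorem Yk.Ok.X0T_row (hd0 : 0 ≤ dlt) {d : V} (hd : d ∈ Dᶜ) :
    ∑ c ∈ Dᶜ.erase d, X0T Z F x P G τ D s c d
      ≤ dmp x D d * (E d 0 * U1 0
        + E d s * (j.gV s * k.Gm s + (1 + j.gW s) * k.Gp s + V1 s) + j.g1 s) := by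
  have hs' : s ∈ Icc 0 sg := ⟨hs.1, hsg⟩
  have τ0 := hs.1.trans hs.2
  have z3 : ∑ e ∈ Dᶜ.erase d, G.pt s d e s ≤ k.Gm s * (dmp x D d * E d s) := by
    have a1 : ∑ e ∈ Dᶜ.erase d, G.pt s d e s = ∑ e ∈ Dᶜ.erase d, G.gm d e s :=
      Finset.sum_congr rfl fun e he => hG.ptT s hs' d hd e he
    rw [a1]
    exact (Finset.sum_le_sum_of_subset_of_nonneg (Finset.erase_subset _ _) fun c _ _ =>
        h.gm0 d c s hs).trans (h.mr d hd s hs)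
  have z4 : ∑ e ∈ Dᶜ.erase d, G.nt s d e s ≤ k.Gp s * (dmp x D d * E d s) := by
    have a1 : ∑ e ∈ Dᶜ.erase d, G.nt s d e s = ∑ e ∈ Dᶜ.erase d, G.gp d e s :=
      Finset.sum_congr rfl fun e he => hG.ntT s hs' d hd e he
    rw [a1]
    exact (Finset.sum_le_sum_of_subset_of_nonneg (Finset.erase_subset _ _) fun c _ _ =>
        h.gp0 d c s hs).trans (h.pr d hd s hs)
  have key := h.row0_gen hc hj hC hZ hx hτ hG cB hs hsg hd0 hd (hG.tt s hs' d hd) z3 z4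
  have a6 := (h.fam_c hC hZ hx τ0 hτ hG hc).pt d hd s hs
  have e1 : ∑ c ∈ Dᶜ.erase d, X0T Z F x P G τ D s c d
      = ∑ c ∈ Dᶜ.erase d, (Kdd Z F x P D c d τ s (D3f Z x P B τ q m') (C4f Z x P B τ q)
        (G.p c) (G.n c) (G.pt s d) (G.nt s d) + (G.n c d 0 + G.nt s d c 0))
        + ∑ c ∈ Dᶜ.erase d, G.p c d s := by
    rw [← Finset.sum_add_distrib]
    refine Finset.sum_congr rfl fun c _ => ?_
    unfold X0T
    rw [hG.d3, hG.c4]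
  rw [e1]
  refine (add_le_add key a6).trans (le_of_eq ?_)
  ring

end rows

/-! ### in the clock -/

/-- the row of the deleted closure without level 1/2, times `1 - k` -/
noncomputable def Yf.rD0 (f : Yf) (U0 us k : ℝ) : ℝ := f.Eg k U0 * f.UT U0 + f.g1 us

variable {f : Yf} {Gk Mk : ℝ → ℝ → ℝ} {mb u : ℝ → ℝ} {dlt : ℝ}

variable (hf : f.Ok Gk Mk dlt) (hC : Z.Cf B E1) (hZ : Z.Ok sl) (hx : Wt x P 1)
  (hW : Wx Z F x P τ D B G.gp G.gm f.U f.b1 f.z f.dl Gk Mk mb u) (hgs : G.gs = G.gm)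
  (hG : G.Tk Z F x P sg τ D B f.m f.q)
  (cB : ContinuousOn (B τ) (Icc 0 τ)) {s : ℝ} (hs : s ∈ Icc 0 τ) (hsg : s ≤ sg)
  (hd0 : 0 ≤ dlt) {d : V} (hd : d ∈ Dᶜ)

include hf hC hZ hx hW hgs hG cB hs hsg hd0 hd

/-- **rows of the deleted closure** -/
theorem Yf.Ok.X0D_row : ∑ c ∈ Dᶜ.erase d, X0D Z F x P G τ D s c d
    ≤ (1 - RCM.kx x D d) * f.rD0 (u 0) (u s) (RCM.kx x D d) := by
  have h : (f.yk mb u).Ok Z F x P G.gp G.gm G.gs τ D B f.m f.q (f.E u x D)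
      (f.E' mb u x D) (f.κ u x D) (f.κ' mb u x D) := by
    rw [hgs]
    exact hf.kOk hZ hx hW
  exact h.X0D_row (hf.ch hW) (hf.rOk hW) hC hZ hx hW.τ1.2 hG cB hs hsg hd0 hd

/-- **rows of the released closure** -/
theorem Yf.Ok.X0T_row : ∑ c ∈ Dᶜ.erase d, X0T Z F x P G τ D s c d
    ≤ (1 - RCM.kx x D d) * (f.rD0 (u 0) (u s) (RCM.kx x D d)
      + f.rT (u s) (RCM.kx x D d)) := by
  have h : (f.yk mb u).Ok Z F x P G.gp G.gm G.gs τ D B f.m f.q (f.E u x D)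
      (f.E' mb u x D) (f.κ u x D) (f.κ' mb u x D) := by
    rw [hgs]
    exact hf.kOk hZ hx hW
  refine (h.X0T_row (hf.ch hW) (hf.rOk hW) hC hZ hx hW.τ1.2 hG cB hs hsg hd0 hd).trans
    (le_of_eq ?_)
  show dmp x D d * (f.Eg (RCM.kx x D d) (u 0) * f.UT (u 0)
    + f.Eg (RCM.kx x D d) (u s) * (f.gV (u s) * f.Gm (u s) + (1 + f.gW (u s)) * f.Gp (u s)
      + f.VT (u s)) + f.g1 (u s)) = _
  rw [dmp_eq]
  unfold Yf.rD0 Yf.rT
  ring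

end Pool.Agent.RX.RCN.K
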