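import Pool.Agent.RX.RCN.T1M
import Pool.Agent.RX.RCN.XwA
import Pool.Agent.RX.RCN.YkS

/-! The first part of the inequality of the centres: the two-time rows of the class without the
insertion term (MP_73ccd0_lc, route M). -/

namespace Pool.Agent.RX.RCN.K

open Set Finset MeasureTheory Pool.Agent.RX.RCRSHalf Pool.Agent.RX.RCG Pool.Agent.RX.RCG.Ct
open Pool.Agent.RX.RCN.Ker Pool.Agent.RX.RCRS

set_option linter.unusedSectionVars false

variable {V : Type*} [Fintype V] [DecidableEq V] {x : V → V → ℝ} {P : V → Prop}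
  [DecidablePred P] {a b : V} {Z : Hzd} {F : Lz V} {sl : ℝ → ℝ → ℝ} {C : Cx V}
  {G : Fm V} {B E1 : ℝ → ℝ → ℝ} {α τ t s sg dlt : ℝ} {g : Yf} {Gk Mk : ℝ → ℝ → ℝ}
  {mb u : ℝ → ℝ}

/-- **the rows of the class**, second form of the closures -/
theorem xw_ofB (hy : g.Ok Gk Mk dlt) (hd0 : 0 ≤ dlt) (hC : Z.Cf B E1) (hZ : Z.Ok sl)
    (hx : Wt x P 1) (hab : a ≠ b)
    (hW : Wx Z F x P τ {a, b} B G.gp G.gm g.U g.b1 g.z g.dl Gk Mk mb u) (hgs : G.gs = G.gm)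
    (hT : G.Tk Z F x P sg τ {a, b} B g.m g.q)
    (cB : ContinuousOn (B τ) (Icc 0 τ)) (ht : t ∈ Icc α τ) (hs : s ∈ Icc 0 t) (hsg : s ≤ sg)
    {gR : V → V → ℝ} {kp GR : ℝ} (kp0 : 0 ≤ kp) {γ mM v0 Am A3 W Θ x1 x2 x2' : ℝ} {j : ℕ}
    (X0 : ∀ d ∈ ({a, b} : Finset V)ᶜ, ∀ c ∈ ({a, b, d} : Finset V)ᶜ,
      0 ≤ X0D Z F x P G τ {a, b} s c d + (gR c d + x c d * kp))
    (T0 : ∀ d ∈ ({a, b} : Finset V)ᶜ, ∀ c ∈ ({a, b, d} : Finset V)ᶜ,
      0 ≤ X0T Z F x P G τ {a, b} s c d + (gR c d + x c d * kp))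
    (hL : ∀ d ∈ ({a, b} : Finset V)ᶜ, P d → ∀ c ∈ ({a, b, d} : Finset V)ᶜ, P c →
      C.L (ci C.N t) j a b c d t s ≤ N2 Z F x P {a, b} t s t c d 0
        + N2 Z F x P {a, b} t s s d c 0
        + (X0D Z F x P G τ {a, b} s c d + (gR c d + x c d * kp)))
    (hLt : ∀ d ∈ ({a, b} : Finset V)ᶜ, P d → ∀ c ∈ ({a, b, d} : Finset V)ᶜ, P c →
      C.Lt (ci C.N t) j a b c d t s ≤ N2 Z F x P {a, b} t s t c d 0
        + N2 Z F x P {a, b} t s s d c 0
        + (x c d * Θ + (X0T Z F x P G τ {a, b} s c d + (gR c d + x c d * kp))))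
    (hR : ∀ d ∈ ({a, b} : Finset V)ᶜ, ∑ c ∈ (({a, b} : Finset V)ᶜ).erase d, gR c d
      ≤ (1 - (x a d + x b d)) * (g.Eg (x a d + x b d) (u 0) * GR))
    (hn : Xn0 (fun k => g.Eg k (u 0)) γ mM v0 Am A3 W Θ x1 x2 x2')
    (hA : GR + g.UT (u 0) ≤ Am) (hB : kp + g.g1 (u s) ≤ x2)
    (hA3 : g.gV (u s) * g.Gm (u s) + (1 + g.gW (u s)) * g.Gp (u s) + g.VT (u s) ≤ A3)
    {R : V → V → V → ℝ → ℝ → ℝ}
    (R0 : ∀ d, 0 ≤ R a b d t s) (Rm : ∀ d ∈ ({a, b} : Finset V)ᶜ, R a b d t s ≤ x b d * mM)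
    (R1 : ∀ d ∈ ({a, b} : Finset V)ᶜ, R a b d t s * (1 - x b d) ≤ x b d) :
    Xw Z F x P C R a b t s γ x1 x2 x2' j
      (fun c d => X0D Z F x P G τ {a, b} s c d + (gR c d + x c d * kp))
      (fun c d => x c d * Θ + (X0T Z F x P G τ {a, b} s c d + (gR c d + x c d * kp))) := by
  have t0 : 0 ≤ t := hs.1.trans hs.2
  have hsτ : s ∈ Icc 0 τ := ⟨hs.1, hs.2.trans ht.2⟩
  have m0 : (0 : ℝ) ∈ Icc 0 τ := ⟨le_rfl, t0.trans ht.2⟩
  have hU0 := hW.um 0 m0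
  have hUs := hW.um s hsτ
  have hus : u s ≤ u 0 := by
    have key := nonneg_of_forward (a := 0) (s := s)
      (U := fun z => u 0 - u z) (U' := fun z => 0 - -mb z)
      (fun z hz => (hasDerivAt_const _ _).sub (hW.du z ⟨hz.1, hz.2.trans hsτ.2⟩))
      (by simp)
      (fun z hz _ => by
        have := hW.mb0 z ⟨hz.1, hz.2.trans hsτ.2⟩
        linarith)
      s ⟨hs.1, le_rfl⟩
    linarith
  have Dd : ∀ d ∈ ({a, b} : Finset V)ᶜ, ({a, b, d} : Finset V)ᶜ = (({a, b} : Finset V)ᶜ).erase d :=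
    fun d _ => by
      ext z
      simp only [Finset.mem_compl, Finset.mem_insert, Finset.mem_singleton, not_or,
        Finset.mem_erase]
      tauto
  have kxe : ∀ d, RCM.kx x {a, b} d = x a d + x b d := fun d => by
    unfold RCM.kx
    rw [Finset.sum_pair hab]
  have hk : ∀ d, x a d + x b d ∈ Icc (0 : ℝ) 1 := fun d => by
    rw [← kxe]; exact kx_mem hx {a, b} d
  have rTk : ∀ k ∈ Icc (0 : ℝ) 1, g.rT (u s) k ≤ g.Eg k (u 0) * A3 := fun k hk => by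
    have a1 := hy.Eg_mono hk hUs hU0 hus
    have a0 := (hy.ka_le (u := u s) hk)
    unfold Yf.rT
    exact (mul_le_mul_of_nonneg_left hA3 (a0.1.trans a0.2)).trans
      (mul_le_mul_of_nonneg_right a1 hn.A30)
  have rDk : ∀ k ∈ Icc (0 : ℝ) 1, g.Eg k (u 0) * GR + kp + g.rD0 (u 0) (u s) k
      ≤ g.Eg k (u 0) * Am + x2 := fun k hk => by
    have e0 : 0 ≤ g.Eg k (u 0) := (hy.ka_le (u := u 0) hk).1.trans (hy.ka_le (u := u 0) hk).2
    have a1 := mul_le_mul_of_nonneg_left hA e0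
    unfold Yf.rD0
    linarith
  have rx : ∀ d ∈ ({a, b} : Finset V)ᶜ, ∀ {q : ℝ}, 0 ≤ q →
      ∑ c ∈ (({a, b} : Finset V)ᶜ).erase d, x c d * q ≤ (1 - (x a d + x b d)) * q :=
    fun d hd q hq => by
      have h := direct_row hx hab hq (H := fun c d => x c d * q) (fun _ _ => le_rfl) hd
      rwa [Dd d hd] at h
  refine xw_abs hx hab hn R0 Rm R1
    (fun d hd c hc => X0 d hd c hc)
    (fun d hd c hc => add_nonneg (mul_nonneg (hx.nonneg c d) hn.Θ0) (T0 d hd c hc))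
    (fun d hd Pd c hc Pc => hL d hd Pd c hc Pc) (fun d hd Pd c hc Pc => hLt d hd Pd c hc Pc)
    (fun d hd => ?_) (fun d hd => ?_)
  · rw [Dd d hd, Finset.sum_add_distrib, Finset.sum_add_distrib]
    have k1 := hy.X0D_row hC hZ hx hW hgs hT cB hsτ hsg hd0 hd
    rw [kxe] at k1
    have k2 := hR d hd
    have k3 := rx d hd kp0
    have k4 := mul_le_mul_of_nonneg_left (rDk _ (hk d)) (by linarith [(hk d).2] :
      0 ≤ 1 - (x a d + x b d))
    refine (add_le_add k1 (add_le_add k2 k3)).trans (le_trans (le_of_eq ?_) k4)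
    ring
  · rw [Dd d hd, Finset.sum_add_distrib, Finset.sum_add_distrib, Finset.sum_add_distrib]
    have k1 := hy.X0T_row hC hZ hx hW hgs hT cB hsτ hsg hd0 hd
    rw [kxe] at k1
    have k2 := hR d hd
    have k3 := rx d hd kp0
    have k5 := rx d hd hn.Θ0
    have k4 := mul_le_mul_of_nonneg_left (add_le_add (rDk _ (hk d)) (rTk _ (hk d)))
      (by linarith [(hk d).2] : 0 ≤ 1 - (x a d + x b d))
    refine (add_le_add k5 (add_le_add k1 (add_le_add k2 k3))).trans ?_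
    calc _ = (1 - (x a d + x b d)) * (g.Eg (x a d + x b d) (u 0) * GR + kp
            + g.rD0 (u 0) (u s) (x a d + x b d) + g.rT (u s) (x a d + x b d))
          + (1 - (x a d + x b d)) * Θ := by ring
      _ ≤ (1 - (x a d + x b d)) * (g.Eg (x a d + x b d) (u 0) * Am + x2
            + g.Eg (x a d + x b d) (u 0) * A3) + (1 - (x a d + x b d)) * Θ := by linarith
      _ = _ := by ring

end Pool.Agent.RX.RCN.K
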