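import Pool.Agent.RX.RCN.DrT
import Pool.Agent.RX.RCN.One_1
import Pool.Agent.RX.RCN.XlB
import Pool.Agent.RX.RCN.XlC
import Pool.Agent.RX.RCN.XlD
import Pool.Agent.RX.RCN.XlF
import Pool.Agent.RX.RCN.XqD
import Pool.Agent.RX.RCN.XqE_1
import Pool.Agent.RX.RCN.XwB

/-! The first part of the inequality of the centres for all times, quadratic bounds of the rows
(MP_73ccd0_lc, route M). -/

namespace Pool.Agent.RX.RCN.K

open Set Finset MeasureTheory Pool.Agent.RX.RCRSHalf Pool.Agent.RX.RCG Pool.Agent.RX.RCG.Ct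
open Pool.Agent.RX.RCN.Ker Pool.Agent.RX.RCRS Pool.Agent.RX.RCM9 Pool.Agent.RX.RCM9.Bern Pool.Agent.RX.RCM9.Pk
open Pool.Agent.RX.RCN.Ck1

set_option linter.unusedSectionVars false

set_option maxHeartbeats 4000000 in
/-- **the numbers of the rows from the checks** -/
theorem X1k.xnq {e : X1k} {l : Rl} {c : T1q} {D D' : ℤ} {n n' : ℕ}
    (h : e.okq l c D n = true) (hM : l.okM D' n' = true) {U us Θ : ℝ}
    (hU0 : 0 < U) (hU : U ≤ c.Cv) (hUa : (e.Ca : ℝ) ≤ U) (hus : us ∈ Icc 0 U)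
    (Θ0 : 0 ≤ Θ) (hΘ : Θ ≤ pv l.dr us) :
    Xn0 (l.Eg U) c.τ c.mM c.v0 e.Am (l.A3 U us) e.W Θ c.x1
      (pv c.X2 (U - us)) (pv c.Y2 (U - us)) ∧
    pv l.Gm0 U + ((1 + l.d1 U us) * pv l.UT U + l.d1 U us * pv l.WT U) ≤ e.Am ∧
    l.dd + l.d2 U us + l.g1 U us ≤ pv c.X2 (U - us) := by
  simp only [X1k.okq, Bool.and_eq_true, decide_eq_true_eq, and_assoc] at h
  obtain ⟨Ca0, CaCv, Cv0, CvU, Am0, τ0, τ1, k00, mM0, W0, κ00, v00, hA, hc1, hκ, hx1, hzd,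
    hw1, hw2, pX, pB1, pB2, pT1, pT2⟩ := h
  simp only [Rl.okM, Bool.and_eq_true, decide_eq_true_eq, and_assoc] at hM
  obtain ⟨dlt0, dd0, z0c, dl0c, mz, mdl, Gm00, mGm, Gmc, Gpc, WTc, mWT, VTc, UTc, mUT, mD1, mD2,
    mV, mW, m1⟩ := hM
  have Cv0' : (0 : ℝ) < c.Cv := by exact_mod_cast Cv0
  have CvU' : (c.Cv : ℝ) ≤ l.Ug := by exact_mod_cast CvU
  have mm : ∀ u ∈ Icc 0 (l.Ug : ℝ), u ∈ Icc ((0 : ℚ) : ℝ) (l.Ug : ℝ) := fun u hu => by
    simpa using hu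
  have UU : U ∈ Icc 0 (l.Ug : ℝ) := ⟨hU0.le, hU.trans CvU'⟩
  have us1 : us ≤ c.Cv := hus.2.trans hU
  have uU : us ∈ Icc 0 (l.Ug : ℝ) := ⟨hus.1, us1.trans CvU'⟩
  have Q : ∀ {q r : ℚ}, q ≤ r → (q : ℝ) ≤ (r : ℝ) := fun h => by exact_mod_cast h
  -- values at the end of the clock
  have up : ∀ {p : List ℚ}, nn D' n' 0 l.Ug (pd p) = true → ∀ {u : ℝ}, 0 ≤ u → u ≤ c.Cv →
      pv p u ≤ ((evq p c.Cv : ℚ) : ℝ) := fun hp u h0 h1 => by
    rw [evq_pv]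
    exact pv_mono_of (U := (l.Ug : ℝ)) (fun z hz => nn_le hp (mm z hz)) h0 h1 CvU'
  have upi : ∀ {p : List ℚ}, nn D' n' 0 l.Ug p = true → ∀ {u : ℝ}, 0 ≤ u → u ≤ c.Cv →
      pv (pri p) u ≤ ((evq (pri p) c.Cv : ℚ) : ℝ) := fun hp u h0 h1 => by
    rw [evq_pv]
    exact pri_mono_of (U := (l.Ug : ℝ)) (fun z hz => nn_le hp (mm z hz)) h0 h1 CvU'
  have dif : ∀ {p : List ℚ}, nn D' n' 0 l.Ug p = true → 0 ≤ pv (pri p) U - pv (pri p) us :=
    fun hp => by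
      have := pri_mono_of (U := (l.Ug : ℝ)) (fun z hz => nn_le hp (mm z hz)) hus.1 hus.2 UU.2
      linarith
  have pos : ∀ {p : List ℚ}, nn D' n' 0 l.Ug p = true → 0 ≤ pv (pri p) us := fun {p} hp => by
    have h1 := pri_mono_of (p := p) (U := (l.Ug : ℝ)) (fun z hz => nn_le hp (mm z hz)) le_rfl
      hus.1 uU.2
    rwa [pri_zero] at h1
  have gm1 := up mGm hU0.le hU
  have ut1 := up mUT hU0.le hU
  have wt1 := up mWT hU0.le hU
  have d11 := upi mD1 hU0.le hU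
  have d21 := upi mD2 hU0.le hU
  have v1 := upi mV hU0.le hU
  have w1 := upi mW hU0.le hU
  have g1 := upi m1 hU0.le hU
  have UT0 : 0 ≤ pv l.UT U := nn_le UTc (mm U UU)
  have WT0 : 0 ≤ pv l.WT U := nn_le WTc (mm U UU)
  have VTs : 0 ≤ pv l.VT us := nn_le VTc (mm us uU)
  have Gms : 0 ≤ pv l.Gm us := nn_le Gmc (mm us uU)
  have Gps : 0 ≤ pv l.Gp us := nn_le Gpc (mm us uU)
  have D1s : 0 ≤ pv (pri l.D1) U - pv (pri l.D1) us := dif mD1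
  have D2s : 0 ≤ pv (pri l.D2) U - pv (pri l.D2) us := dif mD2
  have Vs := dif mV
  have Ws := dif mW
  have D1p := pos mD1
  have dlt0' : (0 : ℝ) ≤ l.dlt := by exact_mod_cast dlt0
  have Am0' : (0 : ℝ) ≤ e.Am := by exact_mod_cast Am0
  have W0' : (0 : ℝ) ≤ e.W := by exact_mod_cast W0
  have z1 := up mz hU0.le hU
  have dl1 := up mdl hU0.le hU
  have z0 : 0 ≤ pv l.z U := nn_le z0c (mm U UU)
  have dl0 : 0 ≤ pv l.dl U := nn_le dl0c (mm U UU)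
  set zτ : ℝ := ((evq l.z c.Cv : ℚ) : ℝ) with hzτ
  set dτ : ℝ := ((evq l.dl c.Cv : ℚ) : ℝ) with hdτ
  have v00' : (0 : ℝ) ≤ c.v0 := by exact_mod_cast v00
  have mM0' : (0 : ℝ) ≤ c.mM := by exact_mod_cast mM0
  have γ0 : (0 : ℝ) ≤ c.τ := by exact_mod_cast τ0
  have k00' : (0 : ℝ) ≤ e.k0 := by exact_mod_cast k00
  have κ00' : (0 : ℝ) ≤ e.κ0 := by exact_mod_cast κ00
  have hzd' : zτ + c.v0 * dτ ≤ 1 := by
    have := Q hzd
    push_cast at this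
    rw [hzτ, hdτ]
    exact this
  have zτ1 : zτ ≤ 1 := by
    have := mul_nonneg v00' (dl0.trans dl1)
    linarith
  have gk : 0 < 1 + (c.τ : ℝ) * e.k0 := by positivity
  set g : ℝ := (c.τ : ℝ) / (1 + c.τ * e.k0) with hg
  have g0 : 0 ≤ g := div_nonneg γ0 gk.le
  have hc1' : dτ + g ≤ 3 / 2 := by
    have := Q hc1
    push_cast at this
    rw [hdτ, hg]
    exact this
  have Ez : Real.exp (pv l.z U) ≤ ex4 zτ :=
    (Real.exp_le_exp.2 z1).trans (exp_le_ex4 (z0.trans z1) zτ1)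
  -- gauges
  have gz : ∀ k ∈ Icc (0 : ℝ) 1, ∀ g' : ℝ, 0 ≤ g' → dτ + g' ≤ 3 / 2 →
      (1 - k) * ((1 + 3 / 5 * k) * (Real.exp (pv l.z U + k * pv l.dl U)
        * Real.exp (k * g'))) ≤ ex4 zτ * pv Mh (dτ + g') := fun k hk g' hg0 hg1 => by
    have a1 := Mh_le hk (c := dτ + g') ⟨add_nonneg (dl0.trans dl1) hg0, hg1⟩
    have a2 : Real.exp (pv l.z U + k * pv l.dl U) * Real.exp (k * g')
        ≤ Real.exp (pv l.z U) * Real.exp (k * (dτ + g')) := by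
      rw [← Real.exp_add, ← Real.exp_add]
      refine Real.exp_le_exp.2 ?_
      have := mul_le_mul_of_nonneg_left dl1 hk.1
      linarith
    have k1 : 0 ≤ 1 - k := by linarith [hk.2]
    have k2 : 0 ≤ 1 + 3 / 5 * k := by linarith [hk.1]
    have a3 : 0 ≤ (1 - k) * ((1 + 3 / 5 * k) * Real.exp (k * (dτ + g'))) :=
      mul_nonneg k1 (mul_nonneg k2 (Real.exp_pos _).le)
    calc _ ≤ (1 - k) * ((1 + 3 / 5 * k) * (Real.exp (pv l.z U)
          * Real.exp (k * (dτ + g')))) :=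
          mul_le_mul_of_nonneg_left (mul_le_mul_of_nonneg_left a2 k2) k1
      _ = Real.exp (pv l.z U) * ((1 - k) * ((1 + 3 / 5 * k) * Real.exp (k * (dτ + g')))) := by
          ring
      _ ≤ ex4 zτ * pv Mh (dτ + g') :=
          mul_le_mul Ez a1 a3 ((Real.exp_pos _).le.trans Ez)
  have eqM : ∀ q : ℚ, pv Mh (q : ℝ) = ((evq Mh q : ℚ) : ℝ) := fun q => (evq_pv Mh q).symm
  have A30 : 0 ≤ l.A3 U us := by
    unfold Rl.A3 Rl.gV Rl.gW
    have a1 : 0 ≤ 1 + ((l.dlt : ℝ) + (pv (pri l.hW) U - pv (pri l.hW) us)) := by linarith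
    exact add_nonneg (add_nonneg (mul_nonneg Vs Gms) (mul_nonneg a1 Gps)) VTs
  have hA3 : l.A3 U us ≤ pv (X1k.rTq l c) us := by
    unfold Rl.A3 Rl.gV Rl.gW
    simp only [X1k.rTq, pv_ladd, pv_lmul, pv_lsub, pv_cons, pv_nil, mul_zero, add_zero]
    push_cast
    have a1 := mul_le_mul_of_nonneg_right (sub_le_sub_right v1 (pv (pri l.hV) us)) Gms
    have a2 := mul_le_mul_of_nonneg_right (sub_le_sub_right w1 (pv (pri l.hW) us)) Gps
    linarith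
  have mus : us ∈ Icc ((0 : ℚ) : ℝ) (c.Cv : ℝ) := ⟨by simpa using hus.1, us1⟩
  -- the shift of the clock
  have sh : ∀ (q0 q1 q2 : ℚ) {F : ℝ},
      F ≤ pv (X1k.shq c.Cv (c.Cv - e.Ca) 0 q0 q1 q2) us →
      F ≤ pv (X1k.shq c.Cv (c.Cv - e.Ca) (c.Cv - e.Ca) q0 q1 q2) us →
      F ≤ pv [q0, q1, q2] (U - us) := fun q0 q1 q2 F h1 h2 => by
    simp only [X1k.shq, cmpl, pv_ladd, pv_lmul, pv_lsmul, pv_cons, pv_nil, mul_zero,
      add_zero] at h1 h2 ⊢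
    push_cast at h1 h2
    refine quad_sh (w := (c.Cv : ℝ) - e.Ca) (δ := c.Cv - U) (by linarith) (by linarith) (v := c.Cv - us)
      (m := min 0 (q2 : ℝ) * ((c.Cv : ℝ) - e.Ca) ^ 2) rfl (by linarith) (by linarith) (by ring)
  have hB : l.dd + l.d2 U us + l.g1 U us ≤ pv c.X2 (U - us) := by
    have b0 : l.dd + l.d2 U us + l.g1 U us ≤ pv (X1k.rBq l c) us := by
      simp only [X1k.rBq, pv_ladd, pv_lsub, pv_cons, pv_nil, mul_zero, add_zero]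
      unfold Rl.d2 Rl.g1
      linarith
    exact sh _ _ _ (b0.trans (nn_sub pB1 mus)) (b0.trans (nn_sub pB2 mus))
  refine ⟨?_, ?_, hB⟩
  swap
  · unfold Rl.d1
    have h1 := Q hA
    push_cast at h1
    have h2 : (pv (pri l.D1) U - pv (pri l.D1) us) * (pv l.WT U + pv l.UT U)
        ≤ ((evq (pri l.D1) c.Cv : ℚ) : ℝ)
          * (((evq l.WT c.Cv : ℚ) : ℝ) + ((evq l.UT c.Cv : ℚ) : ℝ)) :=
      mul_le_mul (by linarith) (by linarith) (add_nonneg WT0 UT0) (by linarith)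
    linarith
  refine
    { γ0 := γ0
      γ1 := by exact_mod_cast τ1
      Am0 := Am0'
      A30 := A30
      Θ0 := Θ0
      x20 := ?_
      E0 := fun k hk => ?_
      x1 := fun k hk => ?_
      w1 := fun k hk hv => ?_
      w2 := fun k hk _ => ?_
      x2' := ?_ }
  · exact nn_le pX ⟨by simpa using hus.2, by linarith [hus.1]⟩
  · show 0 ≤ (1 + 3 / 5 * k) * Real.exp (pv l.z U + k * pv l.dl U)
    have := hk.1
    positivity
  · have h1 := one_add_le (k := k) γ0 k00'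
    have h2 := gz k hk g g0 hc1'
    rw [← hg] at h1
    have k1 : 0 ≤ 1 - k := by linarith [hk.2]
    have k2 : 0 ≤ 1 + 3 / 5 * k := by linarith [hk.1]
    set x : ℝ := (c.τ : ℝ) * e.k0 / (1 + c.τ * e.k0) with hxx
    have x0 : 0 ≤ x := div_nonneg (mul_nonneg γ0 k00') gk.le
    have h3 : (1 + (c.τ : ℝ) * e.k0) * Real.exp (-x) ≤ e.κ0 := by
      have a1 := Q hκ
      push_cast at a1
      rw [← hxx] at a1
      have a2 := Real.quadratic_le_exp_of_nonneg x0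
      have a3 : (1 + (c.τ : ℝ) * e.k0) ≤ e.κ0 * Real.exp x :=
        a1.trans (mul_le_mul_of_nonneg_left a2 κ00')
      have a4 := mul_le_mul_of_nonneg_right a3 (Real.exp_pos (-x)).le
      have a5 : Real.exp x * Real.exp (-x) = 1 := by rw [← Real.exp_add]; simp
      rw [mul_assoc, a5, mul_one] at a4
      exact a4
    have e0 : 0 ≤ Real.exp (pv l.z U + k * pv l.dl U) := (Real.exp_pos _).le
    have h4 : (1 + (c.τ : ℝ) * k) * ((1 - k) * ((1 + 3 / 5 * k)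
        * Real.exp (pv l.z U + k * pv l.dl U))) ≤ e.κ0 * (ex4 zτ * pv Mh (dτ + g)) := by
      calc _ ≤ (1 + (c.τ : ℝ) * e.k0) * (Real.exp (k * g) * Real.exp (-x))
            * ((1 - k) * ((1 + 3 / 5 * k) * Real.exp (pv l.z U + k * pv l.dl U))) :=
            mul_le_mul_of_nonneg_right h1 (mul_nonneg k1 (mul_nonneg k2 e0))
        _ = ((1 + (c.τ : ℝ) * e.k0) * Real.exp (-x)) * ((1 - k) * ((1 + 3 / 5 * k)
            * (Real.exp (pv l.z U + k * pv l.dl U) * Real.exp (k * g)))) := by ring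
        _ ≤ _ := mul_le_mul h3 h2 (mul_nonneg k1 (mul_nonneg k2
            (mul_nonneg e0 (Real.exp_pos _).le))) κ00'
    have h5 := mul_le_mul_of_nonneg_right h4 Am0'
    have h6 := Q hx1
    push_cast at h6
    rw [e4q_cast] at h6
    have h7 : pv Mh (dτ + g) = ((evq Mh (evq l.dl c.Cv + c.τ / (1 + c.τ * e.k0)) : ℚ) : ℝ) := by
      rw [← eqM]
      congr 1
      rw [hdτ, hg]
      push_cast
      ring
    rw [h7] at h5
    show (1 + (c.τ : ℝ) * k) * ((1 - k) * ((1 + 3 / 5 * k)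
      * Real.exp (pv l.z U + k * pv l.dl U))) * e.Am ≤ c.x1
    refine h5.trans (le_trans (le_of_eq ?_) h6)
    rw [hzτ]
    ring
  · show (1 + 3 / 5 * k) * Real.exp (pv l.z U + k * pv l.dl U) ≤ e.W
    have k2 : 0 ≤ 1 + 3 / 5 * k := by linarith [hk.1]
    have h1 := Q hw1
    push_cast at h1
    rw [e4q_cast] at h1
    push_cast at h1
    have h2 : Real.exp (pv l.z U + k * pv l.dl U) ≤ ex4 (zτ + c.v0 * dτ) := by
      have a1 : k * pv l.dl U ≤ c.v0 * dτ := mul_le_mul hv dl1 dl0 v00'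
      have a2 : 0 ≤ zτ + c.v0 * dτ := add_nonneg (z0.trans z1) (mul_nonneg v00' (dl0.trans dl1))
      exact (Real.exp_le_exp.2 (by linarith)).trans (exp_le_ex4 a2 hzd')
    have h3 : 1 + 3 / 5 * k ≤ 1 + 3 / 5 * (c.v0 : ℝ) := by linarith
    exact (mul_le_mul h3 h2 (Real.exp_pos _).le (k2.trans h3)).trans h1
  · show (c.mM : ℝ) * ((1 - k) * ((1 + 3 / 5 * k)
      * Real.exp (pv l.z U + k * pv l.dl U))) ≤ e.W
    have h1 := gz k hk 0 le_rfl (by linarith)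
    rw [mul_zero, Real.exp_zero, mul_one, add_zero] at h1
    have h2 := mul_le_mul_of_nonneg_left h1 mM0'
    have h3 := Q hw2
    push_cast at h3
    rw [e4q_cast, ← eqM] at h3
    exact h2.trans h3
  · have t1 := nn_sub pT1 mus
    have t2 := nn_sub pT2 mus
    have hF := mul_le_mul_of_nonneg_left (add_le_add_right hA3 (e.Am : ℝ)) W0'
    have eT : Θ + (e.W : ℝ) * ((e.Am : ℝ) + l.A3 U us)
        ≤ pv (ladd l.dr (lmul [e.W] (ladd [e.Am] (X1k.rTq l c)))) us := by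
      simp only [pv_ladd, pv_lmul, pv_cons, pv_nil, mul_zero, add_zero]
      linarith
    have key := sh _ _ _ (eT.trans t1) (eT.trans t2)
    have e2 : pv [c.y20 - c.x20, c.y21 - c.x21, c.y22 - c.x22] (U - us)
        = pv c.Y2 (U - us) - pv c.X2 (U - us) := by
      simp only [T1q.X2, T1q.Y2, pv_cons, pv_nil]
      push_cast
      ring
    rw [e2] at key
    linarith

variable {V : Type} [Fintype V] [DecidableEq V]
variable {Gr : SimpleGraph V} [Fintype Gr.edgeSet] [DecidableEq Gr.edgeSet]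
variable {p : Ps} {g : GDat} {x : Gr.edgeSet → ℝ}

/-- **the first part of the inequality of the centres** -/
theorem t1_allT {T : T1l} {D : ℤ} {n : ℕ} {σ : ℕ → ℚ} {τ' : ℚ} {gd : MDat} {gr : ℕ → MGr}
    {Hp Hm GR HR : List (List ℚ)} {nb la : List ℚ} {Uo : ℚ} {N : ℕ}
    {G : ℕ → V ⊕ V → V ⊕ V → Fm (V ⊕ V)}
    {H : ℕ → V ⊕ V → Fm (V ⊕ V)} (hp : p.Ok)
    (hg : g.Pos p.d) (hq : T1p p T.bB) (ho : T.Of p g) (hl : T.ax = true)
    (hG : T.okG D n τ' = true) (hx : IsFractionalMatching Gr x) (N0 : 0 < N)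
    (hF : Fct p (xe x) (P0 V) gd gr Hp Hm N G H) (hFr : Fcr p (xe x) (P0 V) GR HR N G H)
    (hck0 : Ckp p gd.y gd.B) (hB0 : gd.B = [0, T.bB]) (hS : DnS p Uo nb la)
    (hc : ∀ i < N, CovT T gd gr N σ GR nb la Uo i) {t : ℝ}
    (ht : t ∈ Icc (0 : ℝ) bt) {a : V ⊕ V} (ha : P0 V a) :
    ∑ b, xr (xe x) (P0 V) a b * ∑ d ∈ ({a, b} : Finset (V ⊕ V))ᶜ,
        wS (p.da (g.kd p.d) (p.cO (xe x) (P0 V) N G)).k.fh
          (p.da (g.kd p.d) (p.cO (xe x) (P0 V) N G)).k.mb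
          ((p.da (g.kd p.d) (p.cO (xe x) (P0 V) N G)).E x) (xe x) (P0 V) a b d t
      ≤ (σ (ci N t) : ℝ) * p.d.dt.kt t
        * ∑ b, xr (xe x) (P0 V) a b ^ 2 * (1 - xr (xe x) (P0 V) a b) := by
  have hw := wt_xe hx zero_le_one le_rfl fun e => (hx.1 e).2
  have cb0 : ∀ i, 0 ≤ cb N i := fun i => by
    unfold cb
    have := bt_pos
    positivity
  have hC : Cls p.z.hz (xe x) (P0 V)
      (p.cx (xe x) (P0 V) N (fun _ => 0) (fun i _ => cb N i) 1 (fun i _ => G i)) :=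
    Ps.cls hp hw N0 one_pos (fun i _ => rfl) (fun i _ j _ => cb0 i)
      (m := fun i _ _ _ => ((gr i).m : ℝ)) (q := fun i _ _ _ => ((gr i).q : ℝ))
      fun i hi j _ a b ha hb hab => hF.cl i hi a b ha hb hab
  have hD : (p.da (g.kd p.d) (p.cO (xe x) (P0 V) N G)).Ok :=
    da_ok hp rfl (fun w => kd_cn _ w) (kP_of hp hg)
  have kok : (p.da (g.kd p.d) (p.cO (xe x) (P0 V) N G)).k.Ok := Dt.kf_ok hD.T hD.k
  have hi := ci_lt N0 ht.2
  have hm := ci_mem N0 ht.1 ht.2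
  obtain ⟨c, e, y, k, dl, gR, L, ⟨D1, n1, m1, j1, hck⟩, ⟨D2, n2, hek⟩, ⟨D3, n3, hdr⟩,
    ⟨D4, n4, hdl⟩, hlg, kp0, α0, τb, hCa, hdCa, hdCv, hUo, hα, hτ, em, eq⟩ := hc _ hi
  obtain ⟨⟨Dy, ny, hyo⟩, ⟨Dk, nk, hko⟩, ⟨Dr, nr, hro⟩, hYF, hb1, hz, hd, hgR⟩ := hlg
  have N0' : (0 : ℝ) < N := Nat.cast_pos.2 N0
  have tα : (c.α : ℝ) ≤ ca N (ci N t) := by
    have h1 : (c.α : ℝ) * N ≤ (btq : ℝ) * (ci N t : ℝ) := by exact_mod_cast hα
    unfold ca bt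
    rw [← mul_div_assoc, le_div_iff₀ N0']
    exact h1
  have tτ : cb N (ci N t) ≤ (c.τ : ℝ) := by
    have h1 : (btq : ℝ) * ((ci N t : ℝ) + 1) ≤ (c.τ : ℝ) * N := by exact_mod_cast hτ
    unfold cb bt
    rw [← mul_div_assoc, div_le_iff₀ N0']
    exact h1
  have ht' : t ∈ Icc (c.α : ℝ) c.τ := ⟨tα.trans hm.1, hm.2.trans tτ⟩
  have cab : ca N (ci N t) ≤ cb N (ci N t) := hm.1.trans hm.2
  have τb1 : cb N (ci N t) ∈ Icc (0 : ℝ) bt := ⟨cb0 _, cb_le_bt hi⟩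
  have α0' : (0 : ℝ) ≤ c.α := by exact_mod_cast α0
  -- the clock
  have eC : T.Cl = pri p.z.mb := by
    have := hl
    simp only [T1l.ax, Bool.and_eq_true, decide_eq_true_eq, and_assoc] at this
    rw [this.1, ho.mb]
  have eCc : ∀ s, pv T.Cl s = p.Cc s := fun s => by rw [eC]; rfl
  have hcc := hck
  simp only [T1q.ok, T1q.okN, T1q.okP, Bool.and_eq_true, decide_eq_true_eq, and_assoc] at hcc
  have Cv : p.Cc c.τ ≤ (c.Cv : ℝ) := by
    rw [← eCc, ← evq_pv]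
    exact_mod_cast hcc.2.2.2.2.1
  have hmM : ∀ s ∈ Icc 0 t, pv p.z.mb s ≤ (c.mM : ℝ) := fun s hs => by
    have h : nn D1 n1 0 c.τ (lsub [c.mM] T.mb) = true := by
      simp only [T1q.ok, T1q.okP, Bool.and_eq_true, and_assoc] at hck
      exact hck.2.2.2.2.2.2.2.1
    have h1 := nn_sub h (t := s) ⟨by simpa using hs.1, hs.2.trans ht'.2⟩
    simp only [pv_cons, pv_nil, mul_zero, add_zero] at h1
    rw [ho.mb] at h1
    exact h1
  have cab' : (c.α : ℝ) ≤ bt := tα.trans (cab.trans τb1.2)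
  have dgA : (dl.Ca : ℝ) ≤ p.Cc (ca N (ci N t)) := by
    have h1 : (dl.Ca : ℝ) ≤ pv T.Cl c.α := by
      rw [← evq_pv]
      exact_mod_cast hdCa
    rw [eCc] at h1
    exact h1.trans (Ps.Cc_mono hp α0' tα (cab.trans τb1.2))
  have dgB : p.Cc (cb N (ci N t)) ≤ (dl.Cv : ℝ) := by
    have h1 : pv T.Cl c.τ ≤ (dl.Cv : ℝ) := by
      rw [← evq_pv]
      exact_mod_cast hdCv
    rw [eCc] at h1
    exact (Ps.Cc_mono hp (cb0 _) tτ (by
      unfold bt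
      exact_mod_cast τb)).trans h1
  have hDg : Dg p gd gr N (ci N t) dl y k nb la Uo :=
    { hl := ⟨Dy, ny, hyo⟩
      hk := ⟨Dk, nk, hko⟩
      hc := ⟨D4, n4, hdl⟩
      fx := hYF
      S := hS
      CU := hUo
      m := em
      q := eq
      y := hz
      zd := hd
      B := fun u hu => by
        rw [hB0, hb1]
        simp only [pv, mul_zero, add_zero]
        push_cast
        exact le_of_eq (by ring)
      Ca := dgA
      Cv := dgB }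
  set τ : ℝ := cb N (ci N t) with hτd
  have ht0 : t ∈ Icc (0 : ℝ) τ := ⟨ht.1, hm.2⟩
  have U0 : 0 < p.Cc τ := by
    refine Ps.Cc_pos hp ?_ τb1.2
    rw [hτd]
    unfold cb
    have := bt_pos
    positivity
  have UCv : p.Cc τ ≤ (c.Cv : ℝ) := (Ps.Cc_mono hp τb1.1 tτ (by
    unfold bt
    exact_mod_cast τb)).trans Cv
  have CvU : (c.Cv : ℝ) ≤ y.Ug := by
    have h := hek
    simp only [X1k.okq, Bool.and_eq_true, decide_eq_true_eq, and_assoc] at h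
    have h1 : c.Cv ≤ y.Ug := h.2.2.2.1
    exact_mod_cast h1
  have Ca0 : (0 : ℚ) ≤ e.Ca := by
    have h := hek
    simp only [X1k.okq, Bool.and_eq_true, decide_eq_true_eq, and_assoc] at h
    exact h.1
  have Ua : (e.Ca : ℝ) ≤ p.Cc τ := by
    have h1 : (e.Ca : ℝ) ≤ pv T.Cl c.α := by
      rw [← evq_pv]
      exact_mod_cast hCa
    rw [eCc] at h1
    exact h1.trans (Ps.Cc_mono hp α0' (ht'.1.trans ht0.2) τb1.2)
  have hy := Yl.ok_of hyo hYF U0 (UCv.trans CvU)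
  have c00 : p.Cc 0 = 0 := pri_zero _
  have dlt0 : (0 : ℝ) ≤ y.dlt := by
    simp only [Rl.okM, Bool.and_eq_true, decide_eq_true_eq, and_assoc] at hro
    have h : (0 : ℚ) ≤ y.dlt := hro.1
    exact_mod_cast h
  have kp0' : (0 : ℝ) ≤ dl.kp := by exact_mod_cast kp0
  have hroK : (rlB y gR dl.kp (drl e.Ca c.Cv L dl.dR)).okM Dr nr = true := by
    simp only [Rl.okM, Bool.and_eq_true, decide_eq_true_eq, and_assoc] at hro ⊢
    exact ⟨hro.1, kp0, hro.2.2⟩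
  refine t1_cellQ hp hg hq ho hl hG hck τb hx hC rfl ht' ha fun b hb hab =>
    ⟨τ, τ, fun _ s c d => X0D p.z.hz (p.F2 (xe x) (P0 V) N (ci N t) a b) (xe x) (P0 V)
        (G (ci N t) a b) τ {a, b} s c d + (gmR p.z.hz (p.F2 (xe x) (P0 V) N (ci N t) a b) (xe x)
          (P0 V) (G (ci N t) a b) c d τ + xe x c d * dl.kp),
      fun _ s c d => xe x c d * pv dl.dR (p.Cc s)
        + (X0T p.z.hz (p.F2 (xe x) (P0 V) N (ci N t) a b) (xe x) (P0 V)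
        (G (ci N t) a b) τ {a, b} s c d + (gmR p.z.hz (p.F2 (xe x) (P0 V) N (ci N t) a b) (xe x)
          (P0 V) (G (ci N t) a b) c d τ + xe x c d * dl.kp)),
      fun s hs j hj => ?_⟩
  have hcl := hF.cl _ hi a b ha hb hab
  have hs0 : s ∈ Icc (0 : ℝ) τ := ⟨hs.1, hs.2.trans ht0.2⟩
  have hsb : s ∈ Icc (0 : ℝ) bt := ⟨hs.1, hs0.2.trans τb1.2⟩
  have hsτ : s ≤ τ := hs.2.trans ht0.2
  have hWx := pair_wx hF hp hw hck0 hi ha hb hab (b1 := (y.b1 : ℝ)) (z := pv y.z) (dl := pv y.dl)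
    (fun u hu => hz u ⟨hu.1, hu.2.trans (UCv.trans CvU)⟩)
    (fun u hu => hd u ⟨hu.1, hu.2.trans (UCv.trans CvU)⟩)
    (fun u hu => hDg.B u ⟨hu.1, hu.2.trans (UCv.trans CvU)⟩)
  have hus : p.Cc τ - p.Cc s ∈ Icc 0 (p.Cc τ) := hWx.um s hs0
  have e1 : p.Cc τ - (p.Cc τ - p.Cc s) = p.Cc s := by ring
  have hdrR : pv dl.dR (p.Cc s) ≤ pv (drl e.Ca c.Cv L dl.dR) (p.Cc τ - p.Cc s) := by
    have h1 := drl_le hdr (U := p.Cc τ) ⟨Ua, UCv⟩ hus Ca0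
    rwa [e1] at h1
  have fa := Dl.fa_of hdl hko
  have dR0 : 0 ≤ pv dl.dR (p.Cc s) :=
    fa.dR0 _ ⟨by linarith [hus.2], (by linarith [hus.1] : p.Cc s ≤ p.Cc τ).trans dgB⟩
  obtain ⟨hn, hA, hB⟩ := X1k.xnq hek hroK U0 UCv Ua hus (Θ := pv dl.dR (p.Cc s)) dR0 hdrR
  rw [e1] at hn hB
  rw [eCc]
  have hTk : (G (ci N t) a b).Tk p.z.hz (p.y.lz2 p.z (xe x) (P0 V) a b τ τ) (xe x) (P0 V) τ τ
      {a, b} p.g.rB (y.yf (p.Cc τ)).m (y.yf (p.Cc τ)).q := by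
    have h1 := hcl.tk
    rw [em, eq] at h1
    exact h1
  have hj0 : j = 0 := Nat.le_zero.1 hj.1
  subst hj0
  have Rh : ∀ d, (p.da (g.kd p.d) (p.cO (xe x) (P0 V) N G)).R x a b d t s
      ≤ p.z.hz.hh (xe x) (P0 V) s b d := fun d => min_le_left _ _
  have uu0 : p.Cc τ - p.Cc 0 = p.Cc τ := by rw [c00, sub_zero]
  have hne : ∀ d ∈ ({a, b} : Finset (V ⊕ V))ᶜ, ∀ c ∈ ({a, b, d} : Finset (V ⊕ V))ᶜ,
      c ∈ ({a, b} : Finset (V ⊕ V))ᶜ ∧ c ≠ d := fun d _ c hc => by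
    simp only [Finset.mem_compl, Finset.mem_insert, Finset.mem_singleton, not_or] at hc ⊢
    tauto
  refine xw_ofB (C := p.cx (xe x) (P0 V) N (fun _ => 0) (fun i _ => cb N i) 1 (fun i _ => G i))
    (α := ca N (ci N t)) (sg := τ) (u := fun r => p.Cc τ - p.Cc r) (dlt := (y.dlt : ℝ)) hy dlt0
    hp.g.cf (hp.z.ok hp.d) hw hab hWx (hF.gs _ hi a b ha hb hab) hTk (rB_cont p τ) hm hs
    (hs.2.trans ht0.2)
    (gR := fun c d => gmR p.z.hz (p.F2 (xe x) (P0 V) N (ci N t) a b) (xe x) (P0 V)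
      (G (ci N t) a b) c d τ) (kp := (dl.kp : ℝ)) (GR := pv gR (p.Cc τ)) kp0'
    (R := (p.da (g.kd p.d) (p.cO (xe x) (P0 V) N G)).R x)
    (Am := (e.Am : ℝ)) (A3 := (rlB y gR dl.kp (drl e.Ca c.Cv L dl.dR)).A3 (p.Cc τ)
      (p.Cc τ - p.Cc s)) (W := (e.W : ℝ))
    (Θ := pv dl.dR (p.Cc s)) (mM := (c.mM : ℝ)) (v0 := (c.v0 : ℝ))
    (fun d hd c hc => ?_) (fun d hd c hc => ?_) (fun d hd Pd c hc Pc => ?_)
    (fun d hd Pd c hc Pc => ?_) (fun d hd => ?_) ?_ ?_ ?_ ?_ (fun d => ?_) (fun d _ => ?_)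
    (fun d _ => ?_)
  · have h1 := (hF.xs0 hp hw hi ha hb hab (κ := (dl.kp : ℝ)) kp0' hs0 (hne d hd c hc).1 hd
      (hne d hd c hc).2).1
    exact h1
  · have h1 := (hF.xs0 hp hw hi ha hb hab (κ := (dl.kp : ℝ)) kp0' hs0 (hne d hd c hc).1 hd
      (hne d hd c hc).2).2
    exact h1
  · have h1 := (hF.dir hp hw hi ha hb hab hck0 hDg (t := t) (s := s) hm hs (hne d hd c hc).1 hd
      (hne d hd c hc).2 (Or.inl ⟨Pc, Pd⟩)).1
    exact h1
  · have h1 := (hF.dir hp hw hi ha hb hab hck0 hDg (t := t) (s := s) hm hs (hne d hd c hc).1 hd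
      (hne d hd c hc).2 (Or.inl ⟨Pc, Pd⟩)).2
    refine h1.trans (le_of_eq ?_)
    unfold XST
    ring
  · have h1 := hF.gR1 hFr hw hi ha hb hab hd
    have hk := kx_mem hw ({a, b} : Finset (V ⊕ V)) d
    have ek : RCM.kx (xe x) {a, b} d = xe x a d + xe x b d := by
      unfold RCM.kx
      rw [Finset.sum_pair hab]
    have h2 := hgR _ hk (p.Cc τ) ⟨U0.le, UCv.trans CvU⟩
    have h3 : 0 ≤ 1 - RCM.kx (xe x) {a, b} d := by linarith [hk.2]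
    refine h1.trans ((mul_le_mul_of_nonneg_left h2 h3).trans (le_of_eq ?_))
    rw [ek]
    show _ = (1 - (xe x a d + xe x b d)) * ((y.yf (p.Cc τ)).Eg (xe x a d + xe x b d)
      (p.Cc τ - p.Cc 0) * pv gR (p.Cc τ))
    rw [uu0]
    unfold Yf.Eg
    show _ = (1 - (xe x a d + xe x b d)) * ((1 + 3 / 5 * (xe x a d + xe x b d))
      * Real.exp (pv y.z (p.Cc τ) + (xe x a d + xe x b d) * pv y.dl (p.Cc τ))
        * pv gR (p.Cc τ))
    ring
  · show Xn0 (fun k => (y.yf (p.Cc τ)).Eg k (p.Cc τ - p.Cc 0)) _ _ _ _ _ _ _ _ _ _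
    rw [uu0]
    exact hn
  · show pv gR (p.Cc τ) + pv y.UT (p.Cc τ - p.Cc 0) ≤ _
    rw [uu0]
    have h0 : (rlB y gR dl.kp (drl e.Ca c.Cv L dl.dR)).d1 (p.Cc τ) (p.Cc τ - p.Cc s) = 0 := by
      show pv (pri []) _ - pv (pri []) _ = 0
      simp [pri, piA, pv]
    have h1 := hA
    rw [h0] at h1
    simp only [add_zero, one_mul, zero_mul] at h1
    exact h1
  · show (dl.kp : ℝ) + (y.yf (p.Cc τ)).g1 (p.Cc τ - p.Cc s) ≤ _
    have h0 : (rlB y gR dl.kp (drl e.Ca c.Cv L dl.dR)).d2 (p.Cc τ) (p.Cc τ - p.Cc s) = 0 := by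
      show pv (pri []) _ - pv (pri []) _ = 0
      simp [pri, piA, pv]
    have h1 := hB
    rw [h0, add_zero] at h1
    exact h1
  · exact le_rfl
  · exact rha_nonneg hD.kap.k0 hD.Z hw kok hD.κP a b d ht hs
  · refine (Rh d).trans ?_
    refine (Hzd.hh_le hw (fun _ hy _ hs => hp.z.rr_mb hy hs) (fun _ hs => hp.z.mb_one hs)
      hsb b d).trans ?_
    exact mul_le_mul_of_nonneg_left (hmM s hs) (hw.nonneg b d)
  · refine (mul_le_mul_of_nonneg_right (Rh d) (by linarith [(x_mem hw b d).2])).trans ?_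
    exact hh_one hw hs.1 (fun y hy => hq.m1 hp hy hsb) b d

/-- **the first part in the form of the assembly**, quadratic bounds -/
theorem t1_fctT {T : T1l} {D : ℤ} {n : ℕ} {s1 : ℕ → ℚ} {τ' : ℚ} {gd : MDat} {gr : ℕ → MGr}
    {Hp Hm GR HR : List (List ℚ)} {nb la : List ℚ} {Uo : ℚ} {N : ℕ}
    {G : ℕ → V ⊕ V → V ⊕ V → Fm (V ⊕ V)}
    {H : ℕ → V ⊕ V → Fm (V ⊕ V)} (hp : p.Ok)
    (hg : g.Pos p.d) (hq : T1p p T.bB) (ho : T.Of p g) (hl : T.ax = true)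
    (hG : T.okG D n τ' = true) (hk1 : p.d.k1 = 0)
    (hsh : ∀ y ∈ Icc (0 : ℝ) 1, 1 - y ≤ pv p.d.shT y)
    (hkt : ∀ t ∈ Icc (0 : ℝ) bt, 0 ≤ pv p.d.ktl t)
    (hx : IsFractionalMatching Gr x) (N0 : 0 < N) (hs1 : ∀ i < N, 0 ≤ s1 i)
    (hF : Fct p (xe x) (P0 V) gd gr Hp Hm N G H) (hFr : Fcr p (xe x) (P0 V) GR HR N G H)
    (hck0 : Ckp p gd.y gd.B) (hB0 : gd.B = [0, T.bB]) (hS : DnS p Uo nb la)
    (hc : ∀ i < N, CovT T gd gr N s1 GR nb la Uo i)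
    (a : V ⊕ V) (ha : P0 V a) (t : ℝ) (ht : t ∈ Icc (0 : ℝ) bt) :
    ∑ b, xr (xe x) (P0 V) a b * ∑ d ∈ ({a, b} : Finset (V ⊕ V))ᶜ,
        wS (p.da (g.kd p.d) (p.cO (xe x) (P0 V) N G)).k.fh
          (p.da (g.kd p.d) (p.cO (xe x) (P0 V) N G)).k.mb
          ((p.da (g.kd p.d) (p.cO (xe x) (P0 V) N G)).E x) (xe x) (P0 V) a b d t
      ≤ s1 (ci N t) * pv p.d.ktl t * (∑ b, (p.da (g.kd p.d) (p.cO (xe x) (P0 V) N G)).T.sT
          (xr (xe x) (P0 V) a b)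
        - (p.da (g.kd p.d) (p.cO (xe x) (P0 V) N G)).T.k1 * Qs (xe x) (P0 V) a) := by
  have hw := wt_xe hx zero_le_one le_rfl fun e => (hx.1 e).2
  refine (t1_allT hp hg hq ho hl hG hx N0 hF hFr hck0 hB0 hS hc ht ha).trans ?_
  have h0 : (0 : ℝ) ≤ s1 (ci N t) := by exact_mod_cast hs1 _ (ci_lt N0 ht.2)
  exact mul_le_mul_of_nonneg_left (s1_le_sT hw a hk1 hsh) (mul_nonneg h0 (hkt t ht))

end Pool.Agent.RX.RCN.K
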