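import Pool.Agent.RX.RCN.FinA
import Pool.Agent.RX.RCN.One_2
import Pool.Agent.RX.RCN.PqE_2
import Pool.Agent.RX.RCN.PqF
import Pool.Agent.RX.RCN.T3c_1
import Pool.Agent.RX.RCN.XqE_2

/-! The theorem from the certificates, second form of the closures (MP_73ccd0_lc, route M). -/

namespace Pool.Agent.RX.RCN.K

open Set Finset MeasureTheory Pool.Agent.RX.RCRSHalf Pool.Agent.RX.RCG Pool.Agent.RX.RCG.Ct
open Pool.Agent.RX.RCN.Ker Pool.Agent.RX.RCRS Pool.Agent.RX.RCM9 Pool.Agent.RX.RCM9.Bern Pool.Agent.RX.RCM9.Pk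
open Pool.Agent.RX.RCM9.G

set_option linter.unusedSectionVars false

/-- the certificates of the first type, second form of the closures -/
structure CT1B (md : MDat) (lg : List MGr) (N : ℕ) (T : T1l) (s1 : ℕ → ℚ) (nb la : List ℚ)
    (Uo : ℚ) : Prop where
  s0 : ∀ i < N, 0 ≤ s1 i
  hc : ∀ i < N, CovT T md (grL lg) N s1 CertG2.GmR nb la Uo i

/-- the certificates of the inequality of the pairs, second form of the closures -/
structure CPB (p : Ps) (md : MDat) (lg : List MGr) (N : ℕ) (T : T1l) (nb la : List ℚ)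
    (Uo : ℚ) : Prop where
  hi : ∃ D n, inc3 CertG2.GmR (57 / 100) D n = true
  hw : ∃ (w : Pg) (Dw : ℤ) (nw : ℕ) (τg Ug : ℚ), Ug = 57 / 100 ∧ btq ≤ τg ∧
    w.ok T Dw nw τg Ug = true ∧
    (∀ i < N, CovR T md (grL lg) N w Ug p.d.kpl p.d.shP CertG2.GmR nb la Uo i) ∧
    ∃ (kp : List ℚ) (y : Cq) (l : Yl) (k : Nl) (z : Zl) (m : En) (d : Dl) (gR : List ℚ),
      CovS T md (grL lg) N w Ug kp CertG2.GmR nb la Uo (N - 1) y l k z m d gR ∧ y.Kc = 1 ∧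
      NN (y.c.n.eA 1 p.d.shE p.d.shD) ∧ NN (y.c.n.eB 1 p.d.shE p.d.shD)
  hl : ∃ (w : Pg) (Ug : ℚ) (kp : List ℚ) (y : Cq) (l : Yl) (k : Nl) (z : Zl) (m : En) (d : Dl)
    (gR : List ℚ) (pl : Pl) (D' : ℤ) (n' : ℕ),
      CovS T md (grL lg) N w Ug kp CertG2.GmR nb la Uo (N - 1) y l k z m d gR ∧
      Ug ≤ 57 / 100 ∧ pl.okB y l z m (Ui T N (N - 1)) laq lbq D' n' = true ∧
      ∀ q ∈ pl.ps, NN (plE q.1 q.2.1 pl.R2)

variable {V : Type} [Fintype V] [DecidableEq V]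
variable {Gr : SimpleGraph V} [Fintype Gr.edgeSet] [DecidableEq Gr.edgeSet]

/-- **the theorem from the certificates**, second form of the closures -/
theorem final_ofB {p : Ps} {g : GDat} {md : MDat} {lg : List MGr} {N : ℕ} {T : T1l}
    {u : RCE.UDat} {q : RCE.TDat} {s1 s2 : ℕ → ℚ} {nb la : List ℚ} {Uo : ℚ}
    (h : CA p g md lg N T u q) (hS : DnS p Uo nb la) (hP : CPB p md lg N T nb la Uo)
    (h1 : CT1B md lg N T s1 nb la Uo)
    (h2 : CT2B p g md CertGS.Hp CertGS.Hm CertG2.GmR CertGS.HmR nb la Uo (grL lg) N s2)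
    (hs : ∀ i < N, s1 i + s2 i ≤ 1) {x : Gr.edgeSet → ℝ} (hx : IsFractionalMatching Gr x) :
    ∃ S : Scheme Gr, ∀ e : Gr.edgeSet, cT * x e ≤ S.selProb x e := by
  have hw := wt_xe hx zero_le_one le_rfl fun e => (hx.1 e).2
  obtain ⟨c, a, b, hy, ey, en⟩ := h.hy
  obtain ⟨G, H, hF, hR⟩ := exists_fctW (p := p) (g := md) (l := lg) (N := N) h.hp hw h.N0 h.hm
    h.hl h.hN h.hq hy ey h.eB h.eP h.eM h.y2 h.yS en h.U2 h.US
  obtain ⟨D, n, τ', hG⟩ := h.hG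
  obtain ⟨Di, ni, hi⟩ := hP.hi
  obtain ⟨w, Dw, nw, τg, Ug, eUg, w1, w2, w3, kp, y, l, k, z, m, d, gR, c1, c2, c3, c4⟩ := hP.hw
  subst eUg
  obtain ⟨w', Ug', kp', y', l', k', z', m', d', gR', pl, D', n', l1, l0, l2, l3⟩ := hP.hl
  obtain ⟨yd, hD⟩ := h.hD
  have hc : Ckp p md.y md.B := by
    rw [ey, h.eB]
    exact h.hq.ckp hy
  have hTT : TT (p.da (g.kd p.d) (p.cO (xe x) (P0 V) N G)) x :=
    tt_of12 hx h.N0 h.kt hs
      (fun a ha t ht => t1_fctT h.hp h.hg h.hq h.ho h.ax hG h.k1 h.sT h.kt hx h.N0 h1.s0 hF hR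
        hc h.eB hS h1.hc a ha t ht)
      (fun a ha t ht => h2.t2 h.hp h.hg hc hS h.k1 h.sT h.kt hx h.N0 hF hR a ha t ht)
      (da_ok h.hp rfl (fun w => kd_cn _ w) (kP_of h.hp h.hg))
  exact half_of_O h.hp h.hg hx h.N0 (fun i hi a b ha hb hab => hF.cl i hi a b ha hb hab)
    hTT
    (pp_allB h.hp h.hg h.hq h.ho h.ax hG w1 w2 hx hi h.N0 hF hR hc h.eB hS w3)
    (pe_allB h.hp h.hg h.hq h.ho h.ax hG w1 w2 hx hi h.N0 hF hR hc h.eB hS c1 c2 c3 c4)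
    (pl_allB h.hp h.ho h.ax hx hi h.N0 hF hR hc h.eB hS l1 l0 l2 l3)
    (dn_all h.hp hD hx _ rfl (fun w => kd_cn _ w) (kP_of h.hp h.hg))

end Pool.Agent.RX.RCN.K
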