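import Pool.Agent.RX.RCN.FctW_1

/-! The groups of cells (MP_73ccd0_lc, route M). -/

set_option autoImplicit false

namespace Pool.Agent.RX.RCN.K

def gr0 : MGr := ⟨400, 2007/10000, 17/5000, 100171/100000⟩

def gr1 : MGr := ⟨500, 627/2500, 27/4000, 100339/100000⟩

def gr2 : MGr := ⟨560, 2809/10000, 193/20000, 20097/20000⟩

def gr3 : MGr := ⟨600, 301/1000, 3/250, 100603/100000⟩

def gr4 : MGr := ⟨650, 3261/10000, 31/2000, 5039/5000⟩

def gr5 : MGr := ⟨680, 3411/10000, 179/10000, 100901/100000⟩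

def gr6 : MGr := ⟨720, 903/2500, 27/1250, 3159/3125⟩

def gr7 : MGr := ⟨760, 953/2500, 103/4000, 101299/100000⟩

def gr8 : MGr := ⟨790, 3963/10000, 117/4000, 101477/100000⟩

def gr9 : MGr := ⟨820, 2057/5000, 331/10000, 50837/50000⟩

def gr10 : MGr := ⟨850, 533/1250, 373/10000, 101889/100000⟩

def gr11 : MGr := ⟨880, 276/625, 21/500, 10213/10000⟩

def gr12 : MGr := ⟨900, 4517/10000, 907/20000, 102303/100000⟩

def gr13 : MGr := ⟨920, 2309/5000, 979/20000, 102489/100000⟩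

def gr14 : MGr := ⟨940, 4719/10000, 211/4000, 20537/20000⟩

def gr15 : MGr := ⟨960, 4821/10000, 1137/20000, 51449/50000⟩

def gr16 : MGr := ⟨980, 4923/10000, 49/800, 103127/100000⟩

def gr17 : MGr := ⟨1000, 2513/5000, 1319/20000, 25843/25000⟩

def gr18 : MGr := ⟨1010, 5077/10000, 1369/20000, 103503/100000⟩

def gr19 : MGr := ⟨1020, 641/1250, 71/1000, 25909/25000⟩

def gr20 : MGr := ⟨1030, 5179/10000, 1473/20000, 3243/3125⟩

def gr21 : MGr := ⟨1040, 523/1000, 191/2500, 1299/1250⟩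

def gr22 : MGr := ⟨1050, 2641/5000, 793/10000, 104073/100000⟩

def gr23 : MGr := ⟨1060, 5333/10000, 329/4000, 104229/100000⟩

def gr24 : MGr := ⟨1070, 673/1250, 1707/20000, 104393/100000⟩

def gr25 : MGr := ⟨1080, 2717/5000, 1769/20000, 104557/100000⟩

def gr26 : MGr := ⟨1090, 1097/2000, 367/4000, 26183/25000⟩

def gr27 : MGr := ⟨1100, 1107/2000, 951/10000, 104911/100000⟩

/-- the groups -/
def grpW : List MGr :=
  [gr0, gr1, gr2, gr3, gr4, gr5, gr6, gr7, gr8, gr9, gr10, gr11, gr12, gr13, gr14, gr15, gr16,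
   gr17, gr18, gr19, gr20, gr21, gr22, gr23, gr24, gr25, gr26, gr27]

/-- the group of a cell -/
def grW : ℕ → MGr := grL grpW

end Pool.Agent.RX.RCN.K
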