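import Pool.Agent.RX.RCN.PqE_1

/-! The inequality of the pairs: numeric cells which cover many cells of the analysis, second form
of the closures (MP_73ccd0_lc, route M). -/

namespace Pool.Agent.RX.RCN.K

open Set Finset MeasureTheory Pool.Agent.RX.RCRSHalf Pool.Agent.RX.RCG Pool.Agent.RX.RCG.Ct
open Pool.Agent.RX.RCN.Ker Pool.Agent.RX.RCRS Pool.Agent.RX.RCM9 Pool.Agent.RX.RCM9.Bern Pool.Agent.RX.RCM9.Pk
open Pool.Agent.RX.RCN.Ck1

set_option linter.unusedSectionVars false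

/-- one more numeric cell -/
theorem CovR.step {T : T1l} {g : MDat} {gr : ℕ → MGr} {N : ℕ} {w : Pg} {Ug : ℚ} {kp sh : List ℚ}
    {GR : List (List ℚ)} {nb la : List ℚ} {Uo : ℚ} {i0 i1 : ℕ}
    (h : ∀ i < i0, CovR T g gr N w Ug kp sh GR nb la Uo i) {y : Cq} {l : Yl} {k : Nl} {z : Zl}
    {m : En} {d : Dl} {gR : List ℚ} {a b : ℚ} {D D1 D2 D3 D4 : ℤ} {n n1 n2 n3 n4 : ℕ}
    (hl : GoodB l k gR g T.bB GR) (hz : z.ok l D n = true) (hn : z.okN l m D1 n1 = true)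
    (hd : d.ok l k nb la D2 n2 = true) (hy : y.ok l z m GR T N w Ug kp D3 n3 = true)
    (hyd : y.okD d D4 n4 = true)
    (h1 : 0 ≤ d.kp ∧ d.Cv ≤ Uo ∧ 0 ≤ a ∧ b ≤ btq ∧ a * N ≤ btq * i0 ∧ btq * i1 ≤ b * N ∧
      d.Ca ≤ evq T.Cl a ∧ evq T.Cl b ≤ d.Cv ∧ y.c.α * N ≤ btq * i0 ∧ btq * i1 ≤ y.c.τ * N)
    (h2 : ∀ i < i1, i0 ≤ i → (gr i).m = l.m ∧ (gr i).q = l.q)
    (hA : NN (y.c.n.eA y.Kc [sh] [])) (hB : NN (y.c.n.eB y.Kc [sh] [])) :
    ∀ i < i1, CovR T g gr N w Ug kp sh GR nb la Uo i := by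
  intro i hi
  rcases lt_or_ge i i0 with h0 | h0
  · exact h i h0
  · obtain ⟨a0, a1, a2, a3, a4, a5, a6, a7, a8, a9⟩ := h1
    have b0 : (0 : ℚ) ≤ btq := by unfold btq; norm_num
    have c1 : (i0 : ℚ) ≤ i := by exact_mod_cast h0
    have c2 : ((i : ℚ) + 1) ≤ i1 := by exact_mod_cast hi
    have c3 := mul_le_mul_of_nonneg_left c1 b0
    have c4 := mul_le_mul_of_nonneg_left c2 b0
    exact ⟨y, l, k, z, m, d, gR,
      { lg := hl
        zo := ⟨D, n, hz⟩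
        zn := ⟨D1, n1, hn⟩
        dl := ⟨D2, n2, hd⟩
        yo := ⟨D3, n3, hy⟩
        yd := ⟨D4, n4, hyd⟩
        kp0 := a0
        CU := a1
        ab := ⟨a, b, a2, a3, a4.trans c3, c4.trans a5, a6, a7⟩
        hα := a8.trans c3
        hτ := c4.trans a9
        em := (h2 i hi h0).1
        eq := (h2 i hi h0).2 }, hA, hB⟩

variable {V : Type} [Fintype V] [DecidableEq V]
variable {Gr : SimpleGraph V} [Fintype Gr.edgeSet] [DecidableEq Gr.edgeSet]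
variable {p : Ps} {g : GDat} {x : Gr.edgeSet → ℝ}

end Pool.Agent.RX.RCN.K
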