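import Pool.Agent.RX.RCN.VLd

/-! Generated (helper59): checks of the direct part in the cells of a group (MP_73ccd0_lc, route M). -/

set_option autoImplicit false

namespace Pool.Agent.RX.RCN.V2L

open Pool.Agent.RX.RCN Pool.Agent.RX.RCN.K Pool.Agent.RX.RCM9 Pool.Agent.RX.RCN.Ck1

theorem d0_ok : d0.ok y0 k0 nb la (10 ^ 30) 24 = true := by decide +kernel

theorem d1_ok : d1.ok y0 k0 nb la (10 ^ 30) 24 = true := by decide +kernel

theorem d2_ok : d2.ok y0 k0 nb la (10 ^ 30) 32 = true := by decide +kernel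

theorem d3_ok : d3.ok y0 k0 nb la (10 ^ 30) 32 = true := by decide +kernel

theorem d4_ok : d4.ok y0 k0 nb la (10 ^ 30) 16 = true := by decide +kernel

theorem d5_ok : d5.ok y0 k0 nb la (10 ^ 30) 16 = true := by decide +kernel

theorem d6_ok : d6.ok y0 k0 nb la (10 ^ 30) 16 = true := by decide +kernel

theorem d7_ok : d7.ok y0 k0 nb la (10 ^ 30) 24 = true := by decide +kernel

theorem d8_ok : d8.ok y0 k0 nb la (10 ^ 30) 24 = true := by decide +kernel

theorem d9_ok : d9.ok y0 k0 nb la (10 ^ 30) 24 = true := by decide +kernel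

end Pool.Agent.RX.RCN.V2L
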