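import Pool.Agent.RX.RCN.VLd

/-! Generated (helper59): checks of the direct part in the cells of a group (MP_73ccd0_lc, route M). -/

set_option autoImplicit false

namespace Pool.Agent.RX.RCN.V2L

open Pool.Agent.RX.RCN Pool.Agent.RX.RCN.K Pool.Agent.RX.RCM9 Pool.Agent.RX.RCN.Ck1

theorem d30_ok : d30.ok y0 k0 nb la (10 ^ 30) 32 = true := by decide +kernel

theorem d31_ok : d31.ok y0 k0 nb la (10 ^ 30) 32 = true := by decide +kernel

theorem d32_ok : d32.ok y0 k0 nb la (10 ^ 30) 32 = true := by decide +kernel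

theorem d33_ok : d33.ok y0 k0 nb la (10 ^ 30) 32 = true := by decide +kernel

theorem d34_ok : d34.ok y0 k0 nb la (10 ^ 30) 32 = true := by decide +kernel

theorem d35_ok : d35.ok y0 k0 nb la (10 ^ 30) 32 = true := by decide +kernel

theorem d36_ok : d36.ok y0 k0 nb la (10 ^ 30) 32 = true := by decide +kernel

theorem d37_ok : d37.ok y0 k0 nb la (10 ^ 30) 32 = true := by decide +kernel

theorem d38_ok : d38.ok y0 k0 nb la (10 ^ 30) 24 = true := by decide +kernel

theorem d39_ok : d39.ok y0 k0 nb la (10 ^ 30) 24 = true := by decide +kernel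

end Pool.Agent.RX.RCN.V2L
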