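import Pool.Agent.RX.RCN.VLd

/-! Generated (helper59): checks of the direct part in the cells of a group (MP_73ccd0_lc, route M). -/

set_option autoImplicit false

namespace Pool.Agent.RX.RCN.V2L

open Pool.Agent.RX.RCN Pool.Agent.RX.RCN.K Pool.Agent.RX.RCM9 Pool.Agent.RX.RCN.Ck1

theorem d88_ok : d88.ok y12 k12 nb la (10 ^ 30) 24 = true := by decide +kernel

theorem d89_ok : d89.ok y12 k12 nb la (10 ^ 30) 24 = true := by decide +kernel

end Pool.Agent.RX.RCN.V2L
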