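import Pool.Agent.RX.RCN.VLd

/-! Generated (helper59): checks of the direct part in the cells of a group (MP_73ccd0_lc, route M). -/

set_option autoImplicit false

namespace Pool.Agent.RX.RCN.V2L

open Pool.Agent.RX.RCN Pool.Agent.RX.RCN.K Pool.Agent.RX.RCM9 Pool.Agent.RX.RCN.Ck1

theorem d50_ok : d50.ok y2 k2 nb la (10 ^ 30) 24 = true := by decide +kernel

theorem d51_ok : d51.ok y2 k2 nb la (10 ^ 30) 24 = true := by decide +kernel

theorem d52_ok : d52.ok y2 k2 nb la (10 ^ 30) 24 = true := by decide +kernel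

theorem d53_ok : d53.ok y2 k2 nb la (10 ^ 30) 24 = true := by decide +kernel

theorem d54_ok : d54.ok y2 k2 nb la (10 ^ 30) 24 = true := by decide +kernel

theorem d55_ok : d55.ok y2 k2 nb la (10 ^ 30) 24 = true := by decide +kernel

end Pool.Agent.RX.RCN.V2L
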