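import Pool.Agent.RX.RCN.CPqE
import Pool.Agent.RX.RCN.CPqK0
import Pool.Agent.RX.RCN.CPqK1
import Pool.Agent.RX.RCN.CPqK2
import Pool.Agent.RX.RCN.CPqK3
import Pool.Agent.RX.RCN.CPqK4
import Pool.Agent.RX.RCN.CPqK5
import Pool.Agent.RX.RCN.CPqK6
import Pool.Agent.RX.RCN.CPqK7
import Pool.Agent.RX.RCN.CPqK8
import Pool.Agent.RX.RCN.CPqN0
import Pool.Agent.RX.RCN.CPqN1
import Pool.Agent.RX.RCN.CPqN2
import Pool.Agent.RX.RCN.CPqN3
import Pool.Agent.RX.RCN.CPqN4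
import Pool.Agent.RX.RCN.CPqN5
import Pool.Agent.RX.RCN.CPqN6
import Pool.Agent.RX.RCN.CPqN7
import Pool.Agent.RX.RCN.CPqW
import Pool.Agent.RX.RCN.CPqZ0
import Pool.Agent.RX.RCN.CPqZ1
import Pool.Agent.RX.RCN.CPqZ2
import Pool.Agent.RX.RCN.CPqZ3
import Pool.Agent.RX.RCN.CPqZ4
import Pool.Agent.RX.RCN.CPqZ5
import Pool.Agent.RX.RCN.CPqZ6
import Pool.Agent.RX.RCN.CV1F
import Pool.Agent.RX.RCN.FinB
import Pool.Agent.RX.RCN.GrW
import Pool.Agent.RX.RCN.PW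
import Pool.Agent.RX.RCN.PqE_3
import Pool.Agent.RX.RCN.VLc0_1
import Pool.Agent.RX.RCN.VLc0_2
import Pool.Agent.RX.RCN.VLc0_3
import Pool.Agent.RX.RCN.VLc0_4
import Pool.Agent.RX.RCN.VLc1
import Pool.Agent.RX.RCN.VLc10
import Pool.Agent.RX.RCN.VLc11
import Pool.Agent.RX.RCN.VLc12
import Pool.Agent.RX.RCN.VLc13
import Pool.Agent.RX.RCN.VLc14
import Pool.Agent.RX.RCN.VLc15
import Pool.Agent.RX.RCN.VLc16
import Pool.Agent.RX.RCN.VLc17
import Pool.Agent.RX.RCN.VLc18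
import Pool.Agent.RX.RCN.VLc19
import Pool.Agent.RX.RCN.VLc2
import Pool.Agent.RX.RCN.VLc20
import Pool.Agent.RX.RCN.VLc21
import Pool.Agent.RX.RCN.VLc22
import Pool.Agent.RX.RCN.VLc23
import Pool.Agent.RX.RCN.VLc24
import Pool.Agent.RX.RCN.VLc25
import Pool.Agent.RX.RCN.VLc26
import Pool.Agent.RX.RCN.VLc27
import Pool.Agent.RX.RCN.VLc3
import Pool.Agent.RX.RCN.VLc4
import Pool.Agent.RX.RCN.VLc5
import Pool.Agent.RX.RCN.VLc6
import Pool.Agent.RX.RCN.VLc7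
import Pool.Agent.RX.RCN.VLc8
import Pool.Agent.RX.RCN.VLc9

/-! The inequality of the pairs: all certificates (MP_73ccd0_lc, route M; generated). -/

set_option autoImplicit false

namespace Pool.Agent.RX.RCN.CPq

open Pool.Agent.RX.RCN Pool.Agent.RX.RCN.K Pool.Agent.RX.RCM9 Pool.Agent.RX.RCN.Ck1

theorem kp_eq : pW.d.kpl = kpP := by decide +kernel

theorem sh_eq : pW.d.shP = shP := by decide +kernel

theorem e_eq : pW.d.shE = eP := by decide +kernel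

theorem d_eq : pW.d.shD = dP := by decide +kernel

theorem GR_eq : CertG2.GmR = GRP := by decide +kernel

theorem gd0 : GoodB V2L.y0 V2L.k0 CertG2.sGmR mW (CV1.tL).bB GRP := GR_eq ▸ CV1.y0_good

theorem g0 : ∀ i < 400, 0 ≤ i → (grW i).m = V2L.y0.m ∧ (grW i).q = V2L.y0.q := by
  decide +kernel

theorem gd1 : GoodB V2L.y1 V2L.k1 CertG2.sGmR mW (CV1.tL).bB GRP := GR_eq ▸ CV1.y1_good

theorem g1 : ∀ i < 500, 400 ≤ i → (grW i).m = V2L.y1.m ∧ (grW i).q = V2L.y1.q := by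
  decide +kernel

theorem gd2 : GoodB V2L.y2 V2L.k2 CertG2.sGmR mW (CV1.tL).bB GRP := GR_eq ▸ CV1.y2_good

theorem g2 : ∀ i < 560, 500 ≤ i → (grW i).m = V2L.y2.m ∧ (grW i).q = V2L.y2.q := by
  decide +kernel

theorem gd3 : GoodB V2L.y3 V2L.k3 CertG2.sGmR mW (CV1.tL).bB GRP := GR_eq ▸ CV1.y3_good

theorem g3 : ∀ i < 600, 560 ≤ i → (grW i).m = V2L.y3.m ∧ (grW i).q = V2L.y3.q := by
  decide +kernel

theorem gd4 : GoodB V2L.y4 V2L.k4 CertG2.sGmR mW (CV1.tL).bB GRP := GR_eq ▸ CV1.y4_good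

theorem g4 : ∀ i < 650, 600 ≤ i → (grW i).m = V2L.y4.m ∧ (grW i).q = V2L.y4.q := by
  decide +kernel

theorem gd5 : GoodB V2L.y5 V2L.k5 CertG2.sGmR mW (CV1.tL).bB GRP := GR_eq ▸ CV1.y5_good

theorem g5 : ∀ i < 680, 650 ≤ i → (grW i).m = V2L.y5.m ∧ (grW i).q = V2L.y5.q := by
  decide +kernel

theorem gd6 : GoodB V2L.y6 V2L.k6 CertG2.sGmR mW (CV1.tL).bB GRP := GR_eq ▸ CV1.y6_good

theorem g6 : ∀ i < 720, 680 ≤ i → (grW i).m = V2L.y6.m ∧ (grW i).q = V2L.y6.q := by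
  decide +kernel

theorem gd7 : GoodB V2L.y7 V2L.k7 CertG2.sGmR mW (CV1.tL).bB GRP := GR_eq ▸ CV1.y7_good

theorem g7 : ∀ i < 760, 720 ≤ i → (grW i).m = V2L.y7.m ∧ (grW i).q = V2L.y7.q := by
  decide +kernel

theorem gd8 : GoodB V2L.y8 V2L.k8 CertG2.sGmR mW (CV1.tL).bB GRP := GR_eq ▸ CV1.y8_good

theorem g8 : ∀ i < 790, 760 ≤ i → (grW i).m = V2L.y8.m ∧ (grW i).q = V2L.y8.q := by
  decide +kernel

theorem gd9 : GoodB V2L.y9 V2L.k9 CertG2.sGmR mW (CV1.tL).bB GRP := GR_eq ▸ CV1.y9_good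

theorem g9 : ∀ i < 820, 790 ≤ i → (grW i).m = V2L.y9.m ∧ (grW i).q = V2L.y9.q := by
  decide +kernel

theorem gd10 : GoodB V2L.y10 V2L.k10 CertG2.sGmR mW (CV1.tL).bB GRP := GR_eq ▸ CV1.y10_good

theorem g10 : ∀ i < 850, 820 ≤ i → (grW i).m = V2L.y10.m ∧ (grW i).q = V2L.y10.q := by
  decide +kernel

theorem gd11 : GoodB V2L.y11 V2L.k11 CertG2.sGmR mW (CV1.tL).bB GRP := GR_eq ▸ CV1.y11_good

theorem g11 : ∀ i < 880, 850 ≤ i → (grW i).m = V2L.y11.m ∧ (grW i).q = V2L.y11.q := by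
  decide +kernel

theorem gd12 : GoodB V2L.y12 V2L.k12 CertG2.sGmR mW (CV1.tL).bB GRP := GR_eq ▸ CV1.y12_good

theorem g12 : ∀ i < 900, 880 ≤ i → (grW i).m = V2L.y12.m ∧ (grW i).q = V2L.y12.q := by
  decide +kernel

theorem gd13 : GoodB V2L.y13 V2L.k13 CertG2.sGmR mW (CV1.tL).bB GRP := GR_eq ▸ CV1.y13_good

theorem g13 : ∀ i < 920, 900 ≤ i → (grW i).m = V2L.y13.m ∧ (grW i).q = V2L.y13.q := by
  decide +kernel

theorem gd14 : GoodB V2L.y14 V2L.k14 CertG2.sGmR mW (CV1.tL).bB GRP := GR_eq ▸ CV1.y14_good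

theorem g14 : ∀ i < 940, 920 ≤ i → (grW i).m = V2L.y14.m ∧ (grW i).q = V2L.y14.q := by
  decide +kernel

theorem gd15 : GoodB V2L.y15 V2L.k15 CertG2.sGmR mW (CV1.tL).bB GRP := GR_eq ▸ CV1.y15_good

theorem g15 : ∀ i < 960, 940 ≤ i → (grW i).m = V2L.y15.m ∧ (grW i).q = V2L.y15.q := by
  decide +kernel

theorem gd16 : GoodB V2L.y16 V2L.k16 CertG2.sGmR mW (CV1.tL).bB GRP := GR_eq ▸ CV1.y16_good

theorem g16 : ∀ i < 980, 960 ≤ i → (grW i).m = V2L.y16.m ∧ (grW i).q = V2L.y16.q := by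
  decide +kernel

theorem gd17 : GoodB V2L.y17 V2L.k17 CertG2.sGmR mW (CV1.tL).bB GRP := GR_eq ▸ CV1.y17_good

theorem g17 : ∀ i < 1000, 980 ≤ i → (grW i).m = V2L.y17.m ∧ (grW i).q = V2L.y17.q := by
  decide +kernel

theorem gd18 : GoodB V2L.y18 V2L.k18 CertG2.sGmR mW (CV1.tL).bB GRP := GR_eq ▸ CV1.y18_good

theorem g18 : ∀ i < 1010, 1000 ≤ i → (grW i).m = V2L.y18.m ∧ (grW i).q = V2L.y18.q := by
  decide +kernel

theorem gd19 : GoodB V2L.y19 V2L.k19 CertG2.sGmR mW (CV1.tL).bB GRP := GR_eq ▸ CV1.y19_good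

theorem g19 : ∀ i < 1020, 1010 ≤ i → (grW i).m = V2L.y19.m ∧ (grW i).q = V2L.y19.q := by
  decide +kernel

theorem gd20 : GoodB V2L.y20 V2L.k20 CertG2.sGmR mW (CV1.tL).bB GRP := GR_eq ▸ CV1.y20_good

theorem g20 : ∀ i < 1030, 1020 ≤ i → (grW i).m = V2L.y20.m ∧ (grW i).q = V2L.y20.q := by
  decide +kernel

theorem gd21 : GoodB V2L.y21 V2L.k21 CertG2.sGmR mW (CV1.tL).bB GRP := GR_eq ▸ CV1.y21_good

theorem g21 : ∀ i < 1040, 1030 ≤ i → (grW i).m = V2L.y21.m ∧ (grW i).q = V2L.y21.q := by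
  decide +kernel

theorem gd22 : GoodB V2L.y22 V2L.k22 CertG2.sGmR mW (CV1.tL).bB GRP := GR_eq ▸ CV1.y22_good

theorem g22 : ∀ i < 1050, 1040 ≤ i → (grW i).m = V2L.y22.m ∧ (grW i).q = V2L.y22.q := by
  decide +kernel

theorem gd23 : GoodB V2L.y23 V2L.k23 CertG2.sGmR mW (CV1.tL).bB GRP := GR_eq ▸ CV1.y23_good

theorem g23 : ∀ i < 1060, 1050 ≤ i → (grW i).m = V2L.y23.m ∧ (grW i).q = V2L.y23.q := by
  decide +kernel

theorem gd24 : GoodB V2L.y24 V2L.k24 CertG2.sGmR mW (CV1.tL).bB GRP := GR_eq ▸ CV1.y24_good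

theorem g24 : ∀ i < 1070, 1060 ≤ i → (grW i).m = V2L.y24.m ∧ (grW i).q = V2L.y24.q := by
  decide +kernel

theorem gd25 : GoodB V2L.y25 V2L.k25 CertG2.sGmR mW (CV1.tL).bB GRP := GR_eq ▸ CV1.y25_good

theorem g25 : ∀ i < 1080, 1070 ≤ i → (grW i).m = V2L.y25.m ∧ (grW i).q = V2L.y25.q := by
  decide +kernel

theorem gd26 : GoodB V2L.y26 V2L.k26 CertG2.sGmR mW (CV1.tL).bB GRP := GR_eq ▸ CV1.y26_good

theorem g26 : ∀ i < 1090, 1080 ≤ i → (grW i).m = V2L.y26.m ∧ (grW i).q = V2L.y26.q := by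
  decide +kernel

theorem gd27 : GoodB V2L.y27 V2L.k27 CertG2.sGmR mW (CV1.tL).bB GRP := GR_eq ▸ CV1.y27_good

theorem g27 : ∀ i < 1100, 1090 ≤ i → (grW i).m = V2L.y27.m ∧ (grW i).q = V2L.y27.q := by
  decide +kernel

/-- the cells of the analysis up to `i` are covered -/
def Cv (n : ℕ) : Prop := ∀ i < n, CovR CV1.tL mW grW 1100 wP (57 / 100) kpP shP GRP V2L.nb V2L.la V2L.Uo i

theorem c0 : Cv 0 := fun _ h => absurd h (Nat.not_lt_zero _)

theorem c0_0 : Cv 10 :=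
  CovR.step (i0 := 0) (a := 0) (b := 1 / 200) c0 gd0 z0_ok m0_ok V2L.d0_ok y0_ok y0_d0 (by decide +kernel)
    (fun i h1 h2 => g0 i (by omega) (by omega)) cP0_A0 cP0_B0

theorem c0_1 : Cv 20 :=
  CovR.step (i0 := 10) (a := 1 / 200) (b := 1 / 100) c0_0 gd0 z0_ok m0_ok V2L.d1_ok y0_ok y0_d1 (by decide +kernel)
    (fun i h1 h2 => g0 i (by omega) (by omega)) cP0_A0 cP0_B0

theorem c0_2 : Cv 30 :=
  CovR.step (i0 := 20) (a := 1 / 100) (b := 3 / 200) c0_1 gd0 z0_ok m0_ok V2L.d2_ok y0_ok y0_d2 (by decide +kernel)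
    (fun i h1 h2 => g0 i (by omega) (by omega)) cP0_A0 cP0_B0

theorem c0_3 : Cv 40 :=
  CovR.step (i0 := 30) (a := 3 / 200) (b := 1 / 50) c0_2 gd0 z0_ok m0_ok V2L.d3_ok y0_ok y0_d3 (by decide +kernel)
    (fun i h1 h2 => g0 i (by omega) (by omega)) cP0_A0 cP0_B0

theorem c0_4 : Cv 50 :=
  CovR.step (i0 := 40) (a := 1 / 50) (b := 1 / 40) c0_3 gd0 z0_ok m0_ok V2L.d4_ok y0_ok y0_d4 (by decide +kernel)
    (fun i h1 h2 => g0 i (by omega) (by omega)) cP0_A0 cP0_B0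

theorem c0_5 : Cv 60 :=
  CovR.step (i0 := 50) (a := 1 / 40) (b := 3 / 100) c0_4 gd0 z0_ok m0_ok V2L.d5_ok y0_ok y0_d5 (by decide +kernel)
    (fun i h1 h2 => g0 i (by omega) (by omega)) cP0_A0 cP0_B0

theorem c0_6 : Cv 70 :=
  CovR.step (i0 := 60) (a := 3 / 100) (b := 7 / 200) c0_5 gd0 z0_ok m0_ok V2L.d6_ok y0_ok y0_d6 (by decide +kernel)
    (fun i h1 h2 => g0 i (by omega) (by omega)) cP0_A0 cP0_B0

theorem c0_7 : Cv 80 :=
  CovR.step (i0 := 70) (a := 7 / 200) (b := 1 / 25) c0_6 gd0 z0_ok m0_ok V2L.d7_ok y0_ok y0_d7 (by decide +kernel)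
    (fun i h1 h2 => g0 i (by omega) (by omega)) cP0_A0 cP0_B0

theorem c0_8 : Cv 90 :=
  CovR.step (i0 := 80) (a := 1 / 25) (b := 9 / 200) c0_7 gd0 z0_ok m0_ok V2L.d8_ok y0_ok y0_d8 (by decide +kernel)
    (fun i h1 h2 => g0 i (by omega) (by omega)) cP0_A0 cP0_B0

theorem c0_9 : Cv 100 :=
  CovR.step (i0 := 90) (a := 9 / 200) (b := 1 / 20) c0_8 gd0 z0_ok m0_ok V2L.d9_ok y0_ok y0_d9 (by decide +kernel)
    (fun i h1 h2 => g0 i (by omega) (by omega)) cP0_A0 cP0_B0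

theorem c0_10 : Cv 110 :=
  CovR.step (i0 := 100) (a := 1 / 20) (b := 11 / 200) c0_9 gd0 z0_ok m0_ok V2L.d10_ok y0_ok y0_d10 (by decide +kernel)
    (fun i h1 h2 => g0 i (by omega) (by omega)) cP0_A0 cP0_B0

theorem c1_11 : Cv 120 :=
  CovR.step (i0 := 110) (a := 11 / 200) (b := 3 / 50) c0_10 gd0 z0_ok m0_ok V2L.d11_ok y1_ok y1_d11 (by decide +kernel)
    (fun i h1 h2 => g0 i (by omega) (by omega)) cP0_A1 cP0_B1

theorem c1_12 : Cv 130 :=
  CovR.step (i0 := 120) (a := 3 / 50) (b := 13 / 200) c1_11 gd0 z0_ok m0_ok V2L.d12_ok y1_ok y1_d12 (by decide +kernel)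
    (fun i h1 h2 => g0 i (by omega) (by omega)) cP0_A1 cP0_B1

theorem c1_13 : Cv 140 :=
  CovR.step (i0 := 130) (a := 13 / 200) (b := 7 / 100) c1_12 gd0 z0_ok m0_ok V2L.d13_ok y1_ok y1_d13 (by decide +kernel)
    (fun i h1 h2 => g0 i (by omega) (by omega)) cP0_A1 cP0_B1

theorem c1_14 : Cv 150 :=
  CovR.step (i0 := 140) (a := 7 / 100) (b := 3 / 40) c1_13 gd0 z0_ok m0_ok V2L.d14_ok y1_ok y1_d14 (by decide +kernel)
    (fun i h1 h2 => g0 i (by omega) (by omega)) cP0_A1 cP0_B1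

theorem c1_15 : Cv 160 :=
  CovR.step (i0 := 150) (a := 3 / 40) (b := 2 / 25) c1_14 gd0 z0_ok m0_ok V2L.d15_ok y1_ok y1_d15 (by decide +kernel)
    (fun i h1 h2 => g0 i (by omega) (by omega)) cP0_A1 cP0_B1

theorem c1_16 : Cv 170 :=
  CovR.step (i0 := 160) (a := 2 / 25) (b := 17 / 200) c1_15 gd0 z0_ok m0_ok V2L.d16_ok y1_ok y1_d16 (by decide +kernel)
    (fun i h1 h2 => g0 i (by omega) (by omega)) cP0_A1 cP0_B1

theorem c2_17 : Cv 180 :=
  CovR.step (i0 := 170) (a := 17 / 200) (b := 9 / 100) c1_16 gd0 z0_ok m0_ok V2L.d17_ok y2_ok y2_d17 (by decide +kernel)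
    (fun i h1 h2 => g0 i (by omega) (by omega)) cP0_A2 cP0_B2

theorem c2_18 : Cv 190 :=
  CovR.step (i0 := 180) (a := 9 / 100) (b := 19 / 200) c2_17 gd0 z0_ok m0_ok V2L.d18_ok y2_ok y2_d18 (by decide +kernel)
    (fun i h1 h2 => g0 i (by omega) (by omega)) cP0_A2 cP0_B2

theorem c2_19 : Cv 200 :=
  CovR.step (i0 := 190) (a := 19 / 200) (b := 1 / 10) c2_18 gd0 z0_ok m0_ok V2L.d19_ok y2_ok y2_d19 (by decide +kernel)
    (fun i h1 h2 => g0 i (by omega) (by omega)) cP0_A2 cP0_B2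

theorem c2_20 : Cv 210 :=
  CovR.step (i0 := 200) (a := 1 / 10) (b := 21 / 200) c2_19 gd0 z0_ok m0_ok V2L.d20_ok y2_ok y2_d20 (by decide +kernel)
    (fun i h1 h2 => g0 i (by omega) (by omega)) cP0_A2 cP0_B2

theorem c2_21 : Cv 220 :=
  CovR.step (i0 := 210) (a := 21 / 200) (b := 11 / 100) c2_20 gd0 z0_ok m0_ok V2L.d21_ok y2_ok y2_d21 (by decide +kernel)
    (fun i h1 h2 => g0 i (by omega) (by omega)) cP0_A2 cP0_B2

theorem c2_22 : Cv 230 :=
  CovR.step (i0 := 220) (a := 11 / 100) (b := 23 / 200) c2_21 gd0 z0_ok m0_ok V2L.d22_ok y2_ok y2_d22 (by decide +kernel)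
    (fun i h1 h2 => g0 i (by omega) (by omega)) cP0_A2 cP0_B2

theorem c3_23 : Cv 240 :=
  CovR.step (i0 := 230) (a := 23 / 200) (b := 3 / 25) c2_22 gd0 z0_ok m0_ok V2L.d23_ok y3_ok y3_d23 (by decide +kernel)
    (fun i h1 h2 => g0 i (by omega) (by omega)) cP0_A3 cP0_B3

theorem c3_24 : Cv 250 :=
  CovR.step (i0 := 240) (a := 3 / 25) (b := 1 / 8) c3_23 gd0 z0_ok m0_ok V2L.d24_ok y3_ok y3_d24 (by decide +kernel)
    (fun i h1 h2 => g0 i (by omega) (by omega)) cP0_A3 cP0_B3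

theorem c3_25 : Cv 260 :=
  CovR.step (i0 := 250) (a := 1 / 8) (b := 13 / 100) c3_24 gd0 z0_ok m0_ok V2L.d25_ok y3_ok y3_d25 (by decide +kernel)
    (fun i h1 h2 => g0 i (by omega) (by omega)) cP0_A3 cP0_B3

theorem c3_26 : Cv 270 :=
  CovR.step (i0 := 260) (a := 13 / 100) (b := 27 / 200) c3_25 gd0 z0_ok m0_ok V2L.d26_ok y3_ok y3_d26 (by decide +kernel)
    (fun i h1 h2 => g0 i (by omega) (by omega)) cP0_A3 cP0_B3

theorem c3_27 : Cv 280 :=
  CovR.step (i0 := 270) (a := 27 / 200) (b := 7 / 50) c3_26 gd0 z0_ok m0_ok V2L.d27_ok y3_ok y3_d27 (by decide +kernel)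
    (fun i h1 h2 => g0 i (by omega) (by omega)) cP0_A3 cP0_B3

theorem c4_28 : Cv 290 :=
  CovR.step (i0 := 280) (a := 7 / 50) (b := 29 / 200) c3_27 gd0 z0_ok m0_ok V2L.d28_ok y4_ok y4_d28 (by decide +kernel)
    (fun i h1 h2 => g0 i (by omega) (by omega)) cP0_A4 cP0_B4

theorem c4_29 : Cv 300 :=
  CovR.step (i0 := 290) (a := 29 / 200) (b := 3 / 20) c4_28 gd0 z0_ok m0_ok V2L.d29_ok y4_ok y4_d29 (by decide +kernel)
    (fun i h1 h2 => g0 i (by omega) (by omega)) cP0_A4 cP0_B4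

theorem c4_30 : Cv 310 :=
  CovR.step (i0 := 300) (a := 3 / 20) (b := 31 / 200) c4_29 gd0 z0_ok m0_ok V2L.d30_ok y4_ok y4_d30 (by decide +kernel)
    (fun i h1 h2 => g0 i (by omega) (by omega)) cP0_A4 cP0_B4

theorem c4_31 : Cv 320 :=
  CovR.step (i0 := 310) (a := 31 / 200) (b := 4 / 25) c4_30 gd0 z0_ok m0_ok V2L.d31_ok y4_ok y4_d31 (by decide +kernel)
    (fun i h1 h2 => g0 i (by omega) (by omega)) cP0_A4 cP0_B4

theorem c5_32 : Cv 330 :=
  CovR.step (i0 := 320) (a := 4 / 25) (b := 33 / 200) c4_31 gd0 z0_ok m0_ok V2L.d32_ok y5_ok y5_d32 (by decide +kernel)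
    (fun i h1 h2 => g0 i (by omega) (by omega)) cP0_A5 cP0_B5

theorem c5_33 : Cv 340 :=
  CovR.step (i0 := 330) (a := 33 / 200) (b := 17 / 100) c5_32 gd0 z0_ok m0_ok V2L.d33_ok y5_ok y5_d33 (by decide +kernel)
    (fun i h1 h2 => g0 i (by omega) (by omega)) cP0_A5 cP0_B5

theorem c5_34 : Cv 350 :=
  CovR.step (i0 := 340) (a := 17 / 100) (b := 7 / 40) c5_33 gd0 z0_ok m0_ok V2L.d34_ok y5_ok y5_d34 (by decide +kernel)
    (fun i h1 h2 => g0 i (by omega) (by omega)) cP0_A5 cP0_B5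

theorem c5_35 : Cv 360 :=
  CovR.step (i0 := 350) (a := 7 / 40) (b := 9 / 50) c5_34 gd0 z0_ok m0_ok V2L.d35_ok y5_ok y5_d35 (by decide +kernel)
    (fun i h1 h2 => g0 i (by omega) (by omega)) cP0_A5 cP0_B5

theorem c6_36 : Cv 370 :=
  CovR.step (i0 := 360) (a := 9 / 50) (b := 37 / 200) c5_35 gd0 z0_ok m0_ok V2L.d36_ok y6_ok y6_d36 (by decide +kernel)
    (fun i h1 h2 => g0 i (by omega) (by omega)) cP0_A6 cP0_B6

theorem c6_37 : Cv 380 :=
  CovR.step (i0 := 370) (a := 37 / 200) (b := 19 / 100) c6_36 gd0 z0_ok m0_ok V2L.d37_ok y6_ok y6_d37 (by decide +kernel)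
    (fun i h1 h2 => g0 i (by omega) (by omega)) cP0_A6 cP0_B6

theorem c7_38 : Cv 390 :=
  CovR.step (i0 := 380) (a := 19 / 100) (b := 39 / 200) c6_37 gd0 z0_ok m0_ok V2L.d38_ok y7_ok y7_d38 (by decide +kernel)
    (fun i h1 h2 => g0 i (by omega) (by omega)) cP0_A7 cP0_B7

theorem c7_39 : Cv 400 :=
  CovR.step (i0 := 390) (a := 39 / 200) (b := 1 / 5) c7_38 gd0 z0_ok m0_ok V2L.d39_ok y7_ok y7_d39 (by decide +kernel)
    (fun i h1 h2 => g0 i (by omega) (by omega)) cP0_A7 cP0_B7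

theorem c8_40 : Cv 410 :=
  CovR.step (i0 := 400) (a := 1 / 5) (b := 41 / 200) c7_39 gd1 z1_ok m1_ok V2L.d40_ok y8_ok y8_d40 (by decide +kernel)
    (fun i h1 h2 => g1 i (by omega) (by omega)) cP0_A8 cP0_B8

theorem c8_41 : Cv 420 :=
  CovR.step (i0 := 410) (a := 41 / 200) (b := 21 / 100) c8_40 gd1 z1_ok m1_ok V2L.d41_ok y8_ok y8_d41 (by decide +kernel)
    (fun i h1 h2 => g1 i (by omega) (by omega)) cP0_A8 cP0_B8

theorem c8_42 : Cv 430 :=
  CovR.step (i0 := 420) (a := 21 / 100) (b := 43 / 200) c8_41 gd1 z1_ok m1_ok V2L.d42_ok y8_ok y8_d42 (by decide +kernel)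
    (fun i h1 h2 => g1 i (by omega) (by omega)) cP0_A8 cP0_B8

theorem c9_43 : Cv 440 :=
  CovR.step (i0 := 430) (a := 43 / 200) (b := 11 / 50) c8_42 gd1 z1_ok m1_ok V2L.d43_ok y9_ok y9_d43 (by decide +kernel)
    (fun i h1 h2 => g1 i (by omega) (by omega)) cP0_A9 cP0_B9

theorem c9_44 : Cv 450 :=
  CovR.step (i0 := 440) (a := 11 / 50) (b := 9 / 40) c9_43 gd1 z1_ok m1_ok V2L.d44_ok y9_ok y9_d44 (by decide +kernel)
    (fun i h1 h2 => g1 i (by omega) (by omega)) cP0_A9 cP0_B9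

theorem c10_45 : Cv 460 :=
  CovR.step (i0 := 450) (a := 9 / 40) (b := 23 / 100) c9_44 gd1 z1_ok m1_ok V2L.d45_ok y10_ok y10_d45 (by decide +kernel)
    (fun i h1 h2 => g1 i (by omega) (by omega)) cP0_A10 cP0_B10

theorem c10_46 : Cv 470 :=
  CovR.step (i0 := 460) (a := 23 / 100) (b := 47 / 200) c10_45 gd1 z1_ok m1_ok V2L.d46_ok y10_ok y10_d46 (by decide +kernel)
    (fun i h1 h2 => g1 i (by omega) (by omega)) cP0_A10 cP0_B10

theorem c11_47 : Cv 480 :=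
  CovR.step (i0 := 470) (a := 47 / 200) (b := 6 / 25) c10_46 gd1 z1_ok m1_ok V2L.d47_ok y11_ok y11_d47 (by decide +kernel)
    (fun i h1 h2 => g1 i (by omega) (by omega)) cP0_A11 cP1_B11

theorem c11_48 : Cv 490 :=
  CovR.step (i0 := 480) (a := 6 / 25) (b := 49 / 200) c11_47 gd1 z1_ok m1_ok V2L.d48_ok y11_ok y11_d48 (by decide +kernel)
    (fun i h1 h2 => g1 i (by omega) (by omega)) cP0_A11 cP1_B11

theorem c12_49 : Cv 500 :=
  CovR.step (i0 := 490) (a := 49 / 200) (b := 1 / 4) c11_48 gd1 z1_ok m1_ok V2L.d49_ok y12_ok y12_d49 (by decide +kernel)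
    (fun i h1 h2 => g1 i (by omega) (by omega)) cP1_A12 cP1_B12

theorem c13_50 : Cv 510 :=
  CovR.step (i0 := 500) (a := 1 / 4) (b := 51 / 200) c12_49 gd2 z2_ok m2_ok V2L.d50_ok y13_ok y13_d50 (by decide +kernel)
    (fun i h1 h2 => g2 i (by omega) (by omega)) cP1_A13 cP1_B13

theorem c13_51 : Cv 520 :=
  CovR.step (i0 := 510) (a := 51 / 200) (b := 13 / 50) c13_50 gd2 z2_ok m2_ok V2L.d51_ok y13_ok y13_d51 (by decide +kernel)
    (fun i h1 h2 => g2 i (by omega) (by omega)) cP1_A13 cP1_B13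

theorem c14_52 : Cv 530 :=
  CovR.step (i0 := 520) (a := 13 / 50) (b := 53 / 200) c13_51 gd2 z2_ok m2_ok V2L.d52_ok y14_ok y14_d52 (by decide +kernel)
    (fun i h1 h2 => g2 i (by omega) (by omega)) cP1_A14 cP1_B14

theorem c14_53 : Cv 540 :=
  CovR.step (i0 := 530) (a := 53 / 200) (b := 27 / 100) c14_52 gd2 z2_ok m2_ok V2L.d53_ok y14_ok y14_d53 (by decide +kernel)
    (fun i h1 h2 => g2 i (by omega) (by omega)) cP1_A14 cP1_B14

theorem c15_54 : Cv 550 :=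
  CovR.step (i0 := 540) (a := 27 / 100) (b := 11 / 40) c14_53 gd2 z2_ok m2_ok V2L.d54_ok y15_ok y15_d54 (by decide +kernel)
    (fun i h1 h2 => g2 i (by omega) (by omega)) cP1_A15 cP1_B15

theorem c15_55 : Cv 560 :=
  CovR.step (i0 := 550) (a := 11 / 40) (b := 7 / 25) c15_54 gd2 z2_ok m2_ok V2L.d55_ok y15_ok y15_d55 (by decide +kernel)
    (fun i h1 h2 => g2 i (by omega) (by omega)) cP1_A15 cP1_B15

theorem c16_56 : Cv 570 :=
  CovR.step (i0 := 560) (a := 7 / 25) (b := 57 / 200) c15_55 gd3 z3_ok m3_ok V2L.d56_ok y16_ok y16_d56 (by decide +kernel)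
    (fun i h1 h2 => g3 i (by omega) (by omega)) cP1_A16 cP1_B16

theorem c17_57 : Cv 580 :=
  CovR.step (i0 := 570) (a := 57 / 200) (b := 29 / 100) c16_56 gd3 z3_ok m3_ok V2L.d57_ok y17_ok y17_d57 (by decide +kernel)
    (fun i h1 h2 => g3 i (by omega) (by omega)) cP1_A17 cP1_B17

theorem c18_58 : Cv 590 :=
  CovR.step (i0 := 580) (a := 29 / 100) (b := 59 / 200) c17_57 gd3 z3_ok m3_ok V2L.d58_ok y18_ok y18_d58 (by decide +kernel)
    (fun i h1 h2 => g3 i (by omega) (by omega)) cP1_A18 cP1_B18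

theorem c19_59 : Cv 600 :=
  CovR.step (i0 := 590) (a := 59 / 200) (b := 3 / 10) c18_58 gd3 z3_ok m3_ok V2L.d59_ok y19_ok y19_d59 (by decide +kernel)
    (fun i h1 h2 => g3 i (by omega) (by omega)) cP1_A19 cP1_B19

theorem c20_60 : Cv 610 :=
  CovR.step (i0 := 600) (a := 3 / 10) (b := 61 / 200) c19_59 gd4 z4_ok m4_ok V2L.d60_ok y20_ok y20_d60 (by decide +kernel)
    (fun i h1 h2 => g4 i (by omega) (by omega)) cP1_A20 cP1_B20

theorem c21_61 : Cv 620 :=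
  CovR.step (i0 := 610) (a := 61 / 200) (b := 31 / 100) c20_60 gd4 z4_ok m4_ok V2L.d61_ok y21_ok y21_d61 (by decide +kernel)
    (fun i h1 h2 => g4 i (by omega) (by omega)) cP1_A21 cP1_B21

theorem c22_62 : Cv 630 :=
  CovR.step (i0 := 620) (a := 31 / 100) (b := 63 / 200) c21_61 gd4 z4_ok m4_ok V2L.d62_ok y22_ok y22_d62 (by decide +kernel)
    (fun i h1 h2 => g4 i (by omega) (by omega)) cP1_A22 cP1_B22

theorem c23_63 : Cv 640 :=
  CovR.step (i0 := 630) (a := 63 / 200) (b := 8 / 25) c22_62 gd4 z4_ok m4_ok V2L.d63_ok y23_ok y23_d63 (by decide +kernel)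
    (fun i h1 h2 => g4 i (by omega) (by omega)) cP2_A23 cP2_B23

theorem c24_64 : Cv 650 :=
  CovR.step (i0 := 640) (a := 8 / 25) (b := 13 / 40) c23_63 gd4 z4_ok m4_ok V2L.d64_ok y24_ok y24_d64 (by decide +kernel)
    (fun i h1 h2 => g4 i (by omega) (by omega)) cP2_A24 cP2_B24

theorem c25_65 : Cv 660 :=
  CovR.step (i0 := 650) (a := 13 / 40) (b := 33 / 100) c24_64 gd5 z5_ok m5_ok V2L.d65_ok y25_ok y25_d65 (by decide +kernel)
    (fun i h1 h2 => g5 i (by omega) (by omega)) cP2_A25 cP2_B25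

theorem c26_66 : Cv 670 :=
  CovR.step (i0 := 660) (a := 33 / 100) (b := 67 / 200) c25_65 gd5 z5_ok m5_ok V2L.d66_ok y26_ok y26_d66 (by decide +kernel)
    (fun i h1 h2 => g5 i (by omega) (by omega)) cP2_A26 cP2_B26

theorem c27_67 : Cv 680 :=
  CovR.step (i0 := 670) (a := 67 / 200) (b := 17 / 50) c26_66 gd5 z5_ok m5_ok V2L.d67_ok y27_ok y27_d67 (by decide +kernel)
    (fun i h1 h2 => g5 i (by omega) (by omega)) cP2_A27 cP2_B27

theorem c28_68 : Cv 690 :=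
  CovR.step (i0 := 680) (a := 17 / 50) (b := 69 / 200) c27_67 gd6 z6_ok m6_ok V2L.d68_ok y28_ok y28_d68 (by decide +kernel)
    (fun i h1 h2 => g6 i (by omega) (by omega)) cP2_A28 cP2_B28

theorem c29_69 : Cv 700 :=
  CovR.step (i0 := 690) (a := 69 / 200) (b := 7 / 20) c28_68 gd6 z6_ok m6_ok V2L.d69_ok y29_ok y29_d69 (by decide +kernel)
    (fun i h1 h2 => g6 i (by omega) (by omega)) cP2_A29 cP2_B29

theorem c30_70 : Cv 710 :=
  CovR.step (i0 := 700) (a := 7 / 20) (b := 71 / 200) c29_69 gd6 z6_ok m6_ok V2L.d70_ok y30_ok y30_d70 (by decide +kernel)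
    (fun i h1 h2 => g6 i (by omega) (by omega)) cP2_A30 cP2_B30

theorem c31_71 : Cv 720 :=
  CovR.step (i0 := 710) (a := 71 / 200) (b := 9 / 25) c30_70 gd6 z6_ok m6_ok V2L.d71_ok y31_ok y31_d71 (by decide +kernel)
    (fun i h1 h2 => g6 i (by omega) (by omega)) cP2_A31 cP2_B31

theorem c32_72 : Cv 725 :=
  CovR.step (i0 := 720) (a := 9 / 25) (b := 73 / 200) c31_71 gd7 z7_ok m7_ok V2L.d72_ok y32_ok y32_d72 (by decide +kernel)
    (fun i h1 h2 => g7 i (by omega) (by omega)) cP2_A32 cP2_B32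

theorem c33_72 : Cv 730 :=
  CovR.step (i0 := 725) (a := 9 / 25) (b := 73 / 200) c32_72 gd7 z7_ok m7_ok V2L.d72_ok y33_ok y33_d72 (by decide +kernel)
    (fun i h1 h2 => g7 i (by omega) (by omega)) cP2_A33 cP2_B33

theorem c34_73 : Cv 735 :=
  CovR.step (i0 := 730) (a := 73 / 200) (b := 37 / 100) c33_72 gd7 z7_ok m7_ok V2L.d73_ok y34_ok y34_d73 (by decide +kernel)
    (fun i h1 h2 => g7 i (by omega) (by omega)) cP2_A34 cP3_B34

theorem c35_73 : Cv 740 :=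
  CovR.step (i0 := 735) (a := 73 / 200) (b := 37 / 100) c34_73 gd7 z7_ok m7_ok V2L.d73_ok y35_ok y35_d73 (by decide +kernel)
    (fun i h1 h2 => g7 i (by omega) (by omega)) cP3_A35 cP3_B35

theorem c36_74 : Cv 750 :=
  CovR.step (i0 := 740) (a := 37 / 100) (b := 3 / 8) c35_73 gd7 z7_ok m7_ok V2L.d74_ok y36_ok y36_d74 (by decide +kernel)
    (fun i h1 h2 => g7 i (by omega) (by omega)) cP3_A36 cP3_B36

theorem c37_75 : Cv 760 :=
  CovR.step (i0 := 750) (a := 3 / 8) (b := 19 / 50) c36_74 gd7 z7_ok m7_ok V2L.d75_ok y37_ok y37_d75 (by decide +kernel)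
    (fun i h1 h2 => g7 i (by omega) (by omega)) cP3_A37 cP3_B37

theorem c38_76 : Cv 765 :=
  CovR.step (i0 := 760) (a := 19 / 50) (b := 77 / 200) c37_75 gd8 z8_ok m8_ok V2L.d76_ok y38_ok y38_d76 (by decide +kernel)
    (fun i h1 h2 => g8 i (by omega) (by omega)) cP3_A38 cP3_B38

theorem c39_76 : Cv 770 :=
  CovR.step (i0 := 765) (a := 19 / 50) (b := 77 / 200) c38_76 gd8 z8_ok m8_ok V2L.d76_ok y39_ok y39_d76 (by decide +kernel)
    (fun i h1 h2 => g8 i (by omega) (by omega)) cP3_A39 cP3_B39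

theorem c40_77 : Cv 780 :=
  CovR.step (i0 := 770) (a := 77 / 200) (b := 39 / 100) c39_76 gd8 z8_ok m8_ok V2L.d77_ok y40_ok y40_d77 (by decide +kernel)
    (fun i h1 h2 => g8 i (by omega) (by omega)) cP3_A40 cP3_B40

theorem c41_78 : Cv 790 :=
  CovR.step (i0 := 780) (a := 39 / 100) (b := 79 / 200) c40_77 gd8 z8_ok m8_ok V2L.d78_ok y41_ok y41_d78 (by decide +kernel)
    (fun i h1 h2 => g8 i (by omega) (by omega)) cP3_A41 cP3_B41

theorem c42_79 : Cv 800 :=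
  CovR.step (i0 := 790) (a := 79 / 200) (b := 2 / 5) c41_78 gd9 z9_ok m9_ok V2L.d79_ok y42_ok y42_d79 (by decide +kernel)
    (fun i h1 h2 => g9 i (by omega) (by omega)) cP3_A42 cP3_B42

theorem c43_80 : Cv 810 :=
  CovR.step (i0 := 800) (a := 2 / 5) (b := 81 / 200) c42_79 gd9 z9_ok m9_ok V2L.d80_ok y43_ok y43_d80 (by decide +kernel)
    (fun i h1 h2 => g9 i (by omega) (by omega)) cP3_A43 cP3_B43

theorem c44_81 : Cv 820 :=
  CovR.step (i0 := 810) (a := 81 / 200) (b := 41 / 100) c43_80 gd9 z9_ok m9_ok V2L.d81_ok y44_ok y44_d81 (by decide +kernel)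
    (fun i h1 h2 => g9 i (by omega) (by omega)) cP3_A44 cP3_B44

theorem c45_82 : Cv 830 :=
  CovR.step (i0 := 820) (a := 41 / 100) (b := 83 / 200) c44_81 gd10 z10_ok m10_ok V2L.d82_ok y45_ok y45_d82 (by decide +kernel)
    (fun i h1 h2 => g10 i (by omega) (by omega)) cP3_A45 cP3_B45

theorem c46_83 : Cv 840 :=
  CovR.step (i0 := 830) (a := 83 / 200) (b := 21 / 50) c45_82 gd10 z10_ok m10_ok V2L.d83_ok y46_ok y46_d83 (by decide +kernel)
    (fun i h1 h2 => g10 i (by omega) (by omega)) cP4_A46 cP4_B46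

theorem c47_84 : Cv 850 :=
  CovR.step (i0 := 840) (a := 21 / 50) (b := 17 / 40) c46_83 gd10 z10_ok m10_ok V2L.d84_ok y47_ok y47_d84 (by decide +kernel)
    (fun i h1 h2 => g10 i (by omega) (by omega)) cP4_A47 cP4_B47

theorem c48_85 : Cv 860 :=
  CovR.step (i0 := 850) (a := 17 / 40) (b := 43 / 100) c47_84 gd11 z11_ok m11_ok V2L.d85_ok y48_ok y48_d85 (by decide +kernel)
    (fun i h1 h2 => g11 i (by omega) (by omega)) cP4_A48 cP4_B48

theorem c49_86 : Cv 870 :=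
  CovR.step (i0 := 860) (a := 43 / 100) (b := 87 / 200) c48_85 gd11 z11_ok m11_ok V2L.d86_ok y49_ok y49_d86 (by decide +kernel)
    (fun i h1 h2 => g11 i (by omega) (by omega)) cP4_A49 cP4_B49

theorem c50_87 : Cv 880 :=
  CovR.step (i0 := 870) (a := 87 / 200) (b := 11 / 25) c49_86 gd11 z11_ok m11_ok V2L.d87_ok y50_ok y50_d87 (by decide +kernel)
    (fun i h1 h2 => g11 i (by omega) (by omega)) cP4_A50 cP4_B50

theorem c51_88 : Cv 890 :=
  CovR.step (i0 := 880) (a := 11 / 25) (b := 89 / 200) c50_87 gd12 z12_ok m12_ok V2L.d88_ok y51_ok y51_d88 (by decide +kernel)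
    (fun i h1 h2 => g12 i (by omega) (by omega)) cP4_A51 cP4_B51

theorem c52_89 : Cv 900 :=
  CovR.step (i0 := 890) (a := 89 / 200) (b := 9 / 20) c51_88 gd12 z12_ok m12_ok V2L.d89_ok y52_ok y52_d89 (by decide +kernel)
    (fun i h1 h2 => g12 i (by omega) (by omega)) cP4_A52 cP4_B52

theorem c53_90 : Cv 910 :=
  CovR.step (i0 := 900) (a := 9 / 20) (b := 91 / 200) c52_89 gd13 z13_ok m13_ok V2L.d90_ok y53_ok y53_d90 (by decide +kernel)
    (fun i h1 h2 => g13 i (by omega) (by omega)) cP4_A53 cP4_B53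

theorem c54_91 : Cv 920 :=
  CovR.step (i0 := 910) (a := 91 / 200) (b := 23 / 50) c53_90 gd13 z13_ok m13_ok V2L.d91_ok y54_ok y54_d91 (by decide +kernel)
    (fun i h1 h2 => g13 i (by omega) (by omega)) cP4_A54 cP4_B54

theorem c55_92 : Cv 930 :=
  CovR.step (i0 := 920) (a := 23 / 50) (b := 93 / 200) c54_91 gd14 z14_ok m14_ok V2L.d92_ok y55_ok y55_d92 (by decide +kernel)
    (fun i h1 h2 => g14 i (by omega) (by omega)) cP4_A55 cP4_B55

theorem c56_93 : Cv 940 :=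
  CovR.step (i0 := 930) (a := 93 / 200) (b := 47 / 100) c55_92 gd14 z14_ok m14_ok V2L.d93_ok y56_ok y56_d93 (by decide +kernel)
    (fun i h1 h2 => g14 i (by omega) (by omega)) cP4_A56 cP4_B56

theorem c57_94 : Cv 945 :=
  CovR.step (i0 := 940) (a := 47 / 100) (b := 19 / 40) c56_93 gd15 z15_ok m15_ok V2L.d94_ok y57_ok y57_d94 (by decide +kernel)
    (fun i h1 h2 => g15 i (by omega) (by omega)) cP4_A57 cP5_B57

theorem c58_94 : Cv 950 :=
  CovR.step (i0 := 945) (a := 47 / 100) (b := 19 / 40) c57_94 gd15 z15_ok m15_ok V2L.d94_ok y58_ok y58_d94 (by decide +kernel)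
    (fun i h1 h2 => g15 i (by omega) (by omega)) cP5_A58 cP5_B58

theorem c59_95 : Cv 955 :=
  CovR.step (i0 := 950) (a := 19 / 40) (b := 12 / 25) c58_94 gd15 z15_ok m15_ok V2L.d95_ok y59_ok y59_d95 (by decide +kernel)
    (fun i h1 h2 => g15 i (by omega) (by omega)) cP5_A59 cP5_B59

theorem c60_95 : Cv 960 :=
  CovR.step (i0 := 955) (a := 19 / 40) (b := 12 / 25) c59_95 gd15 z15_ok m15_ok V2L.d95_ok y60_ok y60_d95 (by decide +kernel)
    (fun i h1 h2 => g15 i (by omega) (by omega)) cP5_A60 cP5_B60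

theorem c61_96 : Cv 965 :=
  CovR.step (i0 := 960) (a := 12 / 25) (b := 97 / 200) c60_95 gd16 z16_ok m16_ok V2L.d96_ok y61_ok y61_d96 (by decide +kernel)
    (fun i h1 h2 => g16 i (by omega) (by omega)) cP5_A61 cP5_B61

theorem c62_96 : Cv 970 :=
  CovR.step (i0 := 965) (a := 12 / 25) (b := 97 / 200) c61_96 gd16 z16_ok m16_ok V2L.d96_ok y62_ok y62_d96 (by decide +kernel)
    (fun i h1 h2 => g16 i (by omega) (by omega)) cP5_A62 cP5_B62

theorem c63_97 : Cv 975 :=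
  CovR.step (i0 := 970) (a := 97 / 200) (b := 49 / 100) c62_96 gd16 z16_ok m16_ok V2L.d97_ok y63_ok y63_d97 (by decide +kernel)
    (fun i h1 h2 => g16 i (by omega) (by omega)) cP5_A63 cP5_B63

theorem c64_97 : Cv 980 :=
  CovR.step (i0 := 975) (a := 97 / 200) (b := 49 / 100) c63_97 gd16 z16_ok m16_ok V2L.d97_ok y64_ok y64_d97 (by decide +kernel)
    (fun i h1 h2 => g16 i (by omega) (by omega)) cP5_A64 cP5_B64

theorem c65_98 : Cv 985 :=
  CovR.step (i0 := 980) (a := 49 / 100) (b := 99 / 200) c64_97 gd17 z17_ok m17_ok V2L.d98_ok y65_ok y65_d98 (by decide +kernel)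
    (fun i h1 h2 => g17 i (by omega) (by omega)) cP5_A65 cP5_B65

theorem c66_98 : Cv 990 :=
  CovR.step (i0 := 985) (a := 49 / 100) (b := 99 / 200) c65_98 gd17 z17_ok m17_ok V2L.d98_ok y66_ok y66_d98 (by decide +kernel)
    (fun i h1 h2 => g17 i (by omega) (by omega)) cP5_A66 cP5_B66

theorem c67_99 : Cv 995 :=
  CovR.step (i0 := 990) (a := 99 / 200) (b := 1 / 2) c66_98 gd17 z17_ok m17_ok V2L.d99_ok y67_ok y67_d99 (by decide +kernel)
    (fun i h1 h2 => g17 i (by omega) (by omega)) cP5_A67 cP5_B67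

theorem c68_99 : Cv 1000 :=
  CovR.step (i0 := 995) (a := 99 / 200) (b := 1 / 2) c67_99 gd17 z17_ok m17_ok V2L.d99_ok y68_ok y68_d99 (by decide +kernel)
    (fun i h1 h2 => g17 i (by omega) (by omega)) cP5_A68 cP5_B68

theorem c69_100 : Cv 1005 :=
  CovR.step (i0 := 1000) (a := 1 / 2) (b := 101 / 200) c68_99 gd18 z18_ok m18_ok V2L.d100_ok y69_ok y69_d100 (by decide +kernel)
    (fun i h1 h2 => g18 i (by omega) (by omega)) cP6_A69 cP6_B69

theorem c70_100 : Cv 1010 :=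
  CovR.step (i0 := 1005) (a := 1 / 2) (b := 101 / 200) c69_100 gd18 z18_ok m18_ok V2L.d100_ok y70_ok y70_d100 (by decide +kernel)
    (fun i h1 h2 => g18 i (by omega) (by omega)) cP6_A70 cP6_B70

theorem c71_101 : Cv 1015 :=
  CovR.step (i0 := 1010) (a := 101 / 200) (b := 51 / 100) c70_100 gd19 z19_ok m19_ok V2L.d101_ok y71_ok y71_d101 (by decide +kernel)
    (fun i h1 h2 => g19 i (by omega) (by omega)) cP6_A71 cP6_B71

theorem c72_101 : Cv 1020 :=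
  CovR.step (i0 := 1015) (a := 101 / 200) (b := 51 / 100) c71_101 gd19 z19_ok m19_ok V2L.d101_ok y72_ok y72_d101 (by decide +kernel)
    (fun i h1 h2 => g19 i (by omega) (by omega)) cP6_A72 cP6_B72

theorem c73_102 : Cv 1025 :=
  CovR.step (i0 := 1020) (a := 51 / 100) (b := 103 / 200) c72_101 gd20 z20_ok m20_ok V2L.d102_ok y73_ok y73_d102 (by decide +kernel)
    (fun i h1 h2 => g20 i (by omega) (by omega)) cP6_A73 cP6_B73

theorem c74_102 : Cv 1030 :=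
  CovR.step (i0 := 1025) (a := 51 / 100) (b := 103 / 200) c73_102 gd20 z20_ok m20_ok V2L.d102_ok y74_ok y74_d102 (by decide +kernel)
    (fun i h1 h2 => g20 i (by omega) (by omega)) cP6_A74 cP6_B74

theorem c75_103 : Cv 1035 :=
  CovR.step (i0 := 1030) (a := 103 / 200) (b := 13 / 25) c74_102 gd21 z21_ok m21_ok V2L.d103_ok y75_ok y75_d103 (by decide +kernel)
    (fun i h1 h2 => g21 i (by omega) (by omega)) cP6_A75 cP6_B75

theorem c76_103 : Cv 1040 :=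
  CovR.step (i0 := 1035) (a := 103 / 200) (b := 13 / 25) c75_103 gd21 z21_ok m21_ok V2L.d103_ok y76_ok y76_d103 (by decide +kernel)
    (fun i h1 h2 => g21 i (by omega) (by omega)) cP6_A76 cP6_B76

theorem c77_104 : Cv 1045 :=
  CovR.step (i0 := 1040) (a := 13 / 25) (b := 21 / 40) c76_103 gd22 z22_ok m22_ok V2L.d104_ok y77_ok y77_d104 (by decide +kernel)
    (fun i h1 h2 => g22 i (by omega) (by omega)) cP6_A77 cP6_B77

theorem c78_104 : Cv 1050 :=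
  CovR.step (i0 := 1045) (a := 13 / 25) (b := 21 / 40) c77_104 gd22 z22_ok m22_ok V2L.d104_ok y78_ok y78_d104 (by decide +kernel)
    (fun i h1 h2 => g22 i (by omega) (by omega)) cP6_A78 cP6_B78

theorem c79_105 : Cv 1055 :=
  CovR.step (i0 := 1050) (a := 21 / 40) (b := 53 / 100) c78_104 gd23 z23_ok m23_ok V2L.d105_ok y79_ok y79_d105 (by decide +kernel)
    (fun i h1 h2 => g23 i (by omega) (by omega)) cP6_A79 cP6_B79

theorem c80_105 : Cv 1060 :=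
  CovR.step (i0 := 1055) (a := 21 / 40) (b := 53 / 100) c79_105 gd23 z23_ok m23_ok V2L.d105_ok y80_ok y80_d105 (by decide +kernel)
    (fun i h1 h2 => g23 i (by omega) (by omega)) cP6_A80 cP7_B80

theorem c81_106 : Cv 1065 :=
  CovR.step (i0 := 1060) (a := 53 / 100) (b := 107 / 200) c80_105 gd24 z24_ok m24_ok V2L.d106_ok y81_ok y81_d106 (by decide +kernel)
    (fun i h1 h2 => g24 i (by omega) (by omega)) cP7_A81 cP7_B81

theorem c82_106 : Cv 1070 :=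
  CovR.step (i0 := 1065) (a := 53 / 100) (b := 107 / 200) c81_106 gd24 z24_ok m24_ok V2L.d106_ok y82_ok y82_d106 (by decide +kernel)
    (fun i h1 h2 => g24 i (by omega) (by omega)) cP7_A82 cP7_B82

theorem c83_107 : Cv 1075 :=
  CovR.step (i0 := 1070) (a := 107 / 200) (b := 27 / 50) c82_106 gd25 z25_ok m25_ok V2L.d107_ok y83_ok y83_d107 (by decide +kernel)
    (fun i h1 h2 => g25 i (by omega) (by omega)) cP7_A83 cP7_B83

theorem c84_107 : Cv 1080 :=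
  CovR.step (i0 := 1075) (a := 107 / 200) (b := 27 / 50) c83_107 gd25 z25_ok m25_ok V2L.d107_ok y84_ok y84_d107 (by decide +kernel)
    (fun i h1 h2 => g25 i (by omega) (by omega)) cP7_A84 cP7_B84

theorem c85_108 : Cv 1085 :=
  CovR.step (i0 := 1080) (a := 27 / 50) (b := 109 / 200) c84_107 gd26 z26_ok m26_ok V2L.d108_ok y85_ok y85_d108 (by decide +kernel)
    (fun i h1 h2 => g26 i (by omega) (by omega)) cP7_A85 cP7_B85

theorem c86_108 : Cv 1090 :=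
  CovR.step (i0 := 1085) (a := 27 / 50) (b := 109 / 200) c85_108 gd26 z26_ok m26_ok V2L.d108_ok y86_ok y86_d108 (by decide +kernel)
    (fun i h1 h2 => g26 i (by omega) (by omega)) cP7_A86 cP7_B86

theorem c87_109 : Cv 1100 :=
  CovR.step (i0 := 1090) (a := 109 / 200) (b := 11 / 20) c86_108 gd27 z27_ok m27_ok V2L.d109_ok y87_ok y87_d109 (by decide +kernel)
    (fun i h1 h2 => g27 i (by omega) (by omega)) cP7_A87 cP7_B87

theorem gr_eq : grL grpW = grW := rfl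

/-- the last cell -/
theorem cE : CovS CV1.tL mW (grL grpW) 1100 wP (57 / 100) [1] GRP V2L.nb V2L.la V2L.Uo 1099
    yE V2L.y27 V2L.k27 z27 m27 V2L.d109 CertG2.sGmR where
  lg := gd27
  zo := ⟨_, _, z27_ok⟩
  zn := ⟨_, _, m27_ok⟩
  dl := ⟨_, _, V2L.d109_ok⟩
  yo := ⟨_, _, yE_ok⟩
  yd := ⟨_, _, yE_d⟩
  kp0 := by decide +kernel
  CU := by decide +kernel
  ab := ⟨109 / 200, 11 / 20, by decide +kernel⟩
  hα := by decide +kernel
  hτ := by decide +kernel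
  em := (g27 1099 (by omega) (by omega)).1
  eq := (g27 1099 (by omega) (by omega)).2

/-- **the certificates of the inequality of the pairs** -/
theorem cp : CPB pW mW grpW 1100 CV1.tL V2L.nb V2L.la V2L.Uo where
  hi := ⟨10 ^ 30, 1, by rw [GR_eq]; exact GR_inc⟩
  hw := ⟨wP, 10 ^ 30, 24, 11 / 20, 57 / 100, rfl, by decide +kernel, wP_ok, by
      rw [kp_eq, sh_eq, gr_eq, GR_eq]
      exact c87_109, [1], yE, V2L.y27, V2L.k27, z27, m27, V2L.d109, CertG2.sGmR, cE, rfl, by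
      rw [e_eq, d_eq]
      exact cP7_EA, by
      rw [e_eq, d_eq]
      exact cP7_EB⟩
  hl := ⟨wP, 57 / 100, [1], yE, V2L.y27, V2L.k27, z27, m27, V2L.d109, CertG2.sGmR, pL, 10 ^ 30, 32,
    by rw [GR_eq]; exact cE, by decide +kernel, pL_ok, by
    intro q hq
    simp only [pL, List.mem_cons, List.not_mem_nil, or_false] at hq
    subst hq
    exact cP7_L0⟩

end Pool.Agent.RX.RCN.CPq
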