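import Pool.Agent.RX.RCN.CPqD
import Pool.Agent.RX.RCN.CV1D
import Pool.Agent.RX.RCN.VLd

/-! Checks of the end (MP_73ccd0_lc, route M; generated). -/

set_option autoImplicit false

namespace Pool.Agent.RX.RCN.CPq

open Pool.Agent.RX.RCN Pool.Agent.RX.RCN.K Pool.Agent.RX.RCM9 Pool.Agent.RX.RCN.Ck1

theorem yE_ok : yE.ok V2L.y27 z27 m27 GRP CV1.tL 1100 wP (57 / 100) [1] (10 ^ 30) 32 = true := by
  decide +kernel

theorem GR_inc : inc3 GRP (57 / 100) (10 ^ 30) 1 = true := by decide +kernel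

theorem yE_d : yE.okD V2L.d109 (10 ^ 30) 16 = true := by decide +kernel

theorem pL_ok : pL.okB yE V2L.y27 z27 m27 (Ui CV1.tL 1100 1099) laq lbq (10 ^ 30) 32 = true := by
  decide +kernel

end Pool.Agent.RX.RCN.CPq
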