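import Pool.Agent.RX.RCN.CPqD
import Pool.Agent.RX.RCN.CkE

/-! Certificates of `P4` (generated by gencert.py). -/

set_option autoImplicit false

namespace Pool.Agent.RX.RCN.CPq

open Pool.Agent.RX.RCN.K Pool.Agent.RX.RCM9 Pool.Agent.RX.RCM9.Bern Pool.Agent.RX.RCM9.Pk

theorem cP4_A46 : NN (y46.c.n.eA y46.Kc [shP] []) :=
  NN.of (K := 178) (D := ⟨15, 13, 6, 1⟩) (Box.of 4 (by decide +kernel))
    (by decide +kernel)

theorem cP4_B46 : NN (y46.c.n.eB y46.Kc [shP] []) :=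
  NN.of (K := 191) (D := ⟨17, 13, 6, 1⟩) (Box.of 4 (by decide +kernel))
    (by decide +kernel)

theorem cP4_A47 : NN (y47.c.n.eA y47.Kc [shP] []) :=
  NN.of (K := 172) (D := ⟨15, 13, 6, 1⟩) (Box.of 4 (by decide +kernel))
    (by decide +kernel)

theorem cP4_B47 : NN (y47.c.n.eB y47.Kc [shP] []) :=
  NN.of (K := 185) (D := ⟨17, 13, 6, 1⟩) (Box.of 4 (by decide +kernel))
    (by decide +kernel)

theorem cP4_A48 : NN (y48.c.n.eA y48.Kc [shP] []) :=
  NN.of (K := 195) (D := ⟨15, 13, 6, 1⟩) (Box.of 4 (by decide +kernel))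
    (by decide +kernel)

theorem cP4_B48 : NN (y48.c.n.eB y48.Kc [shP] []) :=
  NN.of (K := 209) (D := ⟨17, 13, 6, 1⟩) (Box.of 4 (by decide +kernel))
    (by decide +kernel)

theorem cP4_A49 : NN (y49.c.n.eA y49.Kc [shP] []) :=
  NN.of (K := 189) (D := ⟨15, 13, 6, 1⟩) (Box.of 4 (by decide +kernel))
    (by decide +kernel)

theorem cP4_B49 : NN (y49.c.n.eB y49.Kc [shP] []) :=
  NN.of (K := 202) (D := ⟨17, 13, 6, 1⟩) (Box.of 4 (by decide +kernel))
    (by decide +kernel)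

theorem cP4_A50 : NN (y50.c.n.eA y50.Kc [shP] []) :=
  NN.of (K := 179) (D := ⟨15, 13, 6, 1⟩) (Box.of 4 (by decide +kernel))
    (by decide +kernel)

theorem cP4_B50 : NN (y50.c.n.eB y50.Kc [shP] []) :=
  NN.of (K := 193) (D := ⟨17, 13, 6, 1⟩) (Box.of 4 (by decide +kernel))
    (by decide +kernel)

theorem cP4_A51 : NN (y51.c.n.eA y51.Kc [shP] []) :=
  NN.of (K := 195) (D := ⟨15, 13, 6, 1⟩) (Box.of 4 (by decide +kernel))
    (by decide +kernel)

theorem cP4_B51 : NN (y51.c.n.eB y51.Kc [shP] []) :=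
  NN.of (K := 208) (D := ⟨17, 13, 6, 1⟩) (Box.of 4 (by decide +kernel))
    (by decide +kernel)

theorem cP4_A52 : NN (y52.c.n.eA y52.Kc [shP] []) :=
  NN.of (K := 184) (D := ⟨15, 13, 6, 1⟩) (Box.of 4 (by decide +kernel))
    (by decide +kernel)

theorem cP4_B52 : NN (y52.c.n.eB y52.Kc [shP] []) :=
  NN.of (K := 197) (D := ⟨17, 13, 6, 1⟩) (Box.of 4 (by decide +kernel))
    (by decide +kernel)

theorem cP4_A53 : NN (y53.c.n.eA y53.Kc [shP] []) :=
  NN.of (K := 191) (D := ⟨15, 13, 6, 1⟩) (Box.of 4 (by decide +kernel))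
    (by decide +kernel)

theorem cP4_B53 : NN (y53.c.n.eB y53.Kc [shP] []) :=
  NN.of (K := 204) (D := ⟨17, 13, 6, 1⟩) (Box.of 4 (by decide +kernel))
    (by decide +kernel)

theorem cP4_A54 : NN (y54.c.n.eA y54.Kc [shP] []) :=
  NN.of (K := 180) (D := ⟨15, 13, 6, 1⟩) (Box.of 4 (by decide +kernel))
    (by decide +kernel)

theorem cP4_B54 : NN (y54.c.n.eB y54.Kc [shP] []) :=
  NN.of (K := 194) (D := ⟨17, 13, 6, 1⟩) (Box.of 4 (by decide +kernel))
    (by decide +kernel)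

theorem cP4_A55 : NN (y55.c.n.eA y55.Kc [shP] []) :=
  NN.of (K := 193) (D := ⟨15, 13, 6, 1⟩) (Box.of 4 (by decide +kernel))
    (by decide +kernel)

theorem cP4_B55 : NN (y55.c.n.eB y55.Kc [shP] []) :=
  NN.of (K := 207) (D := ⟨17, 13, 6, 1⟩) (Box.of 4 (by decide +kernel))
    (by decide +kernel)

theorem cP4_A56 : NN (y56.c.n.eA y56.Kc [shP] []) :=
  NN.of (K := 191) (D := ⟨15, 13, 6, 1⟩) (Box.of 4 (by decide +kernel))
    (by decide +kernel)

theorem cP4_B56 : NN (y56.c.n.eB y56.Kc [shP] []) :=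
  NN.of (K := 209) (D := ⟨17, 13, 6, 1⟩) (Box.of 4 (by decide +kernel))
    (by decide +kernel)

theorem cP4_A57 : NN (y57.c.n.eA y57.Kc [shP] []) :=
  NN.of (K := 189) (D := ⟨15, 13, 6, 1⟩) (Box.of 4 (by decide +kernel))
    (by decide +kernel)

end Pool.Agent.RX.RCN.CPq
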