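import Mathlib

/-! Generated (helper30): the shares (MP_73ccd0_lc, route M). -/

set_option autoImplicit false

namespace Pool.Agent.RX.RCN.CV1

open Pool.Agent.RX.RCN

/-- the shares of the first part -/
def sgL : List ℚ := [443 / 500, 443 / 500, 443 / 500, 443 / 500, 443 / 500, 443 / 500, 443 / 500,
    443 / 500, 443 / 500, 443 / 500, 187 / 250, 187 / 250, 187 / 250, 187 / 250, 187 / 250, 187 /
    250, 187 / 250, 187 / 250, 187 / 250, 187 / 250, 163 / 250, 163 / 250, 163 / 250, 163 / 250,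
    163 / 250, 163 / 250, 163 / 250, 163 / 250, 163 / 250, 163 / 250, 287 / 500, 287 / 500, 287 /
    500, 287 / 500, 287 / 500, 287 / 500, 287 / 500, 287 / 500, 287 / 500, 287 / 500, 137 / 250,
    137 / 250, 137 / 250, 137 / 250, 137 / 250, 53 / 100, 53 / 100, 53 / 100, 53 / 100, 53 / 100,
    263 / 500, 263 / 500, 263 / 500, 261 / 500, 261 / 500, 261 / 500, 261 / 500, 261 / 500, 13 /
    25, 13 / 25, 127 / 250, 127 / 250, 127 / 250, 127 / 250, 127 / 250, 257 / 500, 257 / 500, 257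
    / 500, 63 / 125, 63 / 125, 63 / 125, 63 / 125, 1 / 2, 1 / 2, 251 / 500, 251 / 500, 63 / 125,
    63 / 125, 63 / 125, 251 / 500, 251 / 500, 251 / 500, 1 / 2, 1 / 2, 1 / 2, 62 / 125, 62 / 125,
    62 / 125, 1 / 2, 251 / 500, 249 / 500, 249 / 500, 247 / 500, 62 / 125, 49 / 100, 49 / 100,
    121 / 250, 243 / 500, 239 / 500, 12 / 25, 119 / 250, 237 / 500, 59 / 125, 117 / 250, 58 /
    125, 58 / 125, 23 / 50, 229 / 500, 227 / 500, 113 / 250]

/-- the share of the first part -/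
def sg1 (i : ℕ) : ℚ := sgL.getD (i / 10) 0

end Pool.Agent.RX.RCN.CV1
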