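import Pool.Agent.RX.RCN.GapD

set_option autoImplicit false

namespace Pool.Agent.RX.RCN.K

open Pool.Agent.RX.RCM9

def gW : GDat where
  kc := [500001 / 500000, -1 / 15625, 943 / 200000, 105881 / 1000000, 96767 / 125000, -394161 /
    125000, 791717 / 125000, -861129 / 200000]
  ke := [1000003 / 1000000, -51 / 250000, 8849 / 1000000, 1897 / 1000000, 859129 / 1000000,
    -2220177 / 1000000, 1671893 / 500000, -393743 / 250000]
  Qd := [126293 / 125000, -622459 / 1000000, -1461599 / 1000000, -22099699 / 500000, 4907241 /
    15625, -105282447 / 125000, 1069182319 / 1000000, -547377999 / 1000000]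
  al := [1 / 100000, 214991 / 200000, -1056607 / 1000000, 6814523 / 1000000, -22978887 / 500000,
    144632471 / 1000000, -212570977 / 1000000, 119515567 / 1000000]
  kM := 1039 / 1000
  dl := 1 / 100

end Pool.Agent.RX.RCN.K
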