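import Pool.Agent.RX.RCM9.DW
import Pool.Agent.RX.RCN.Ins

set_option autoImplicit false

namespace Pool.Agent.RX.RCN.K

open Pool.Agent.RX.RCM9

/-- the data of the assembly -/
def pW : Ps where
  d := dW
  z := zW
  y := yW
  g := kW
  κ := 1 / 64
  lo := [2891 / 312500, 150376763 / 10000000, -691767521 / 5000000, 745646519 / 1000000,
    -24750881359 / 10000000, 48697172141 / 10000000, -12981142257 / 2500000, 23114281893 /
    10000000]

end Pool.Agent.RX.RCN.K
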