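import Pool.Agent.RX.RCN.CV1F
import Pool.Agent.RX.RCN.CV1K0
import Pool.Agent.RX.RCN.CV1K1
import Pool.Agent.RX.RCN.CV1K2
import Pool.Agent.RX.RCN.CV1K3
import Pool.Agent.RX.RCN.CV1K4
import Pool.Agent.RX.RCN.CV1K5
import Pool.Agent.RX.RCN.CV1K6
import Pool.Agent.RX.RCN.CV1S
import Pool.Agent.RX.RCN.GW
import Pool.Agent.RX.RCN.GrW
import Pool.Agent.RX.RCN.PW
import Pool.Agent.RX.RCN.T1J
import Pool.Agent.RX.RCN.VLc0_1
import Pool.Agent.RX.RCN.VLc0_2
import Pool.Agent.RX.RCN.VLc0_3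
import Pool.Agent.RX.RCN.VLc0_4
import Pool.Agent.RX.RCN.VLc1
import Pool.Agent.RX.RCN.VLc10
import Pool.Agent.RX.RCN.VLc11
import Pool.Agent.RX.RCN.VLc12
import Pool.Agent.RX.RCN.VLc13
import Pool.Agent.RX.RCN.VLc14
import Pool.Agent.RX.RCN.VLc15
import Pool.Agent.RX.RCN.VLc16
import Pool.Agent.RX.RCN.VLc17
import Pool.Agent.RX.RCN.VLc18
import Pool.Agent.RX.RCN.VLc19
import Pool.Agent.RX.RCN.VLc2
import Pool.Agent.RX.RCN.VLc20
import Pool.Agent.RX.RCN.VLc21
import Pool.Agent.RX.RCN.VLc22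
import Pool.Agent.RX.RCN.VLc23
import Pool.Agent.RX.RCN.VLc24
import Pool.Agent.RX.RCN.VLc25
import Pool.Agent.RX.RCN.VLc26
import Pool.Agent.RX.RCN.VLc27
import Pool.Agent.RX.RCN.VLc3
import Pool.Agent.RX.RCN.VLc4
import Pool.Agent.RX.RCN.VLc5
import Pool.Agent.RX.RCN.VLc6
import Pool.Agent.RX.RCN.VLc7
import Pool.Agent.RX.RCN.VLc8
import Pool.Agent.RX.RCN.VLc9
import Pool.Agent.RX.RCN.XqE_1

/-! Generated (helper30): the first part of the inequality of the centres (MP_73ccd0_lc, route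
    M). -/

set_option autoImplicit false

namespace Pool.Agent.RX.RCN.CV1

open Pool.Agent.RX.RCN Pool.Agent.RX.RCN.K Pool.Agent.RX.RCM9 Pool.Agent.RX.RCN.Ck1 Pool.Agent.RX.RCN.V2L

theorem tL_of : tL.Of pW gW :=
  ⟨by decide +kernel, by decide +kernel, by decide +kernel, by decide +kernel, by decide +kernel,
    by decide +kernel, by decide +kernel, by decide +kernel, by decide +kernel⟩

theorem v0 : ∀ i < 0, CovT tL mW grW 1100 sg1 CertG2.GmR V2L.nb V2L.la V2L.Uo i := fun i h =>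
    absurd h (Nat.not_lt_zero i)

theorem v1 : ∀ i < 10, CovT tL mW grW 1100 sg1 CertG2.GmR V2L.nb V2L.la V2L.Uo i :=
  CovT.step v0 c0_ok e0_ok r0_ok V2L.d0_ok y0_good (by decide +kernel)
    (rng_of (w := 10) rfl (by decide +kernel))

theorem v2 : ∀ i < 20, CovT tL mW grW 1100 sg1 CertG2.GmR V2L.nb V2L.la V2L.Uo i :=
  CovT.step v1 c1_ok e1_ok r1_ok V2L.d1_ok y0_good (by decide +kernel)
    (rng_of (w := 10) rfl (by decide +kernel))

theorem v3 : ∀ i < 30, CovT tL mW grW 1100 sg1 CertG2.GmR V2L.nb V2L.la V2L.Uo i :=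
  CovT.step v2 c2_ok e2_ok r2_ok V2L.d2_ok y0_good (by decide +kernel)
    (rng_of (w := 10) rfl (by decide +kernel))

theorem v4 : ∀ i < 40, CovT tL mW grW 1100 sg1 CertG2.GmR V2L.nb V2L.la V2L.Uo i :=
  CovT.step v3 c3_ok e3_ok r3_ok V2L.d3_ok y0_good (by decide +kernel)
    (rng_of (w := 10) rfl (by decide +kernel))

theorem v5 : ∀ i < 50, CovT tL mW grW 1100 sg1 CertG2.GmR V2L.nb V2L.la V2L.Uo i :=
  CovT.step v4 c4_ok e4_ok r4_ok V2L.d4_ok y0_good (by decide +kernel)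
    (rng_of (w := 10) rfl (by decide +kernel))

theorem v6 : ∀ i < 60, CovT tL mW grW 1100 sg1 CertG2.GmR V2L.nb V2L.la V2L.Uo i :=
  CovT.step v5 c5_ok e5_ok r5_ok V2L.d5_ok y0_good (by decide +kernel)
    (rng_of (w := 10) rfl (by decide +kernel))

theorem v7 : ∀ i < 70, CovT tL mW grW 1100 sg1 CertG2.GmR V2L.nb V2L.la V2L.Uo i :=
  CovT.step v6 c6_ok e6_ok r6_ok V2L.d6_ok y0_good (by decide +kernel)
    (rng_of (w := 10) rfl (by decide +kernel))

theorem v8 : ∀ i < 80, CovT tL mW grW 1100 sg1 CertG2.GmR V2L.nb V2L.la V2L.Uo i :=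
  CovT.step v7 c7_ok e7_ok r7_ok V2L.d7_ok y0_good (by decide +kernel)
    (rng_of (w := 10) rfl (by decide +kernel))

theorem v9 : ∀ i < 90, CovT tL mW grW 1100 sg1 CertG2.GmR V2L.nb V2L.la V2L.Uo i :=
  CovT.step v8 c8_ok e8_ok r8_ok V2L.d8_ok y0_good (by decide +kernel)
    (rng_of (w := 10) rfl (by decide +kernel))

theorem v10 : ∀ i < 100, CovT tL mW grW 1100 sg1 CertG2.GmR V2L.nb V2L.la V2L.Uo i :=
  CovT.step v9 c9_ok e9_ok r9_ok V2L.d9_ok y0_good (by decide +kernel)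
    (rng_of (w := 10) rfl (by decide +kernel))

theorem v11 : ∀ i < 110, CovT tL mW grW 1100 sg1 CertG2.GmR V2L.nb V2L.la V2L.Uo i :=
  CovT.step v10 c10_ok e10_ok r10_ok V2L.d10_ok y0_good (by decide +kernel)
    (rng_of (w := 10) rfl (by decide +kernel))

theorem v12 : ∀ i < 120, CovT tL mW grW 1100 sg1 CertG2.GmR V2L.nb V2L.la V2L.Uo i :=
  CovT.step v11 c11_ok e11_ok r11_ok V2L.d11_ok y0_good (by decide +kernel)
    (rng_of (w := 10) rfl (by decide +kernel))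

theorem v13 : ∀ i < 130, CovT tL mW grW 1100 sg1 CertG2.GmR V2L.nb V2L.la V2L.Uo i :=
  CovT.step v12 c12_ok e12_ok r12_ok V2L.d12_ok y0_good (by decide +kernel)
    (rng_of (w := 10) rfl (by decide +kernel))

theorem v14 : ∀ i < 140, CovT tL mW grW 1100 sg1 CertG2.GmR V2L.nb V2L.la V2L.Uo i :=
  CovT.step v13 c13_ok e13_ok r13_ok V2L.d13_ok y0_good (by decide +kernel)
    (rng_of (w := 10) rfl (by decide +kernel))

theorem v15 : ∀ i < 150, CovT tL mW grW 1100 sg1 CertG2.GmR V2L.nb V2L.la V2L.Uo i :=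
  CovT.step v14 c14_ok e14_ok r14_ok V2L.d14_ok y0_good (by decide +kernel)
    (rng_of (w := 10) rfl (by decide +kernel))

theorem v16 : ∀ i < 160, CovT tL mW grW 1100 sg1 CertG2.GmR V2L.nb V2L.la V2L.Uo i :=
  CovT.step v15 c15_ok e15_ok r15_ok V2L.d15_ok y0_good (by decide +kernel)
    (rng_of (w := 10) rfl (by decide +kernel))

theorem v17 : ∀ i < 170, CovT tL mW grW 1100 sg1 CertG2.GmR V2L.nb V2L.la V2L.Uo i :=
  CovT.step v16 c16_ok e16_ok r16_ok V2L.d16_ok y0_good (by decide +kernel)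
    (rng_of (w := 10) rfl (by decide +kernel))

theorem v18 : ∀ i < 180, CovT tL mW grW 1100 sg1 CertG2.GmR V2L.nb V2L.la V2L.Uo i :=
  CovT.step v17 c17_ok e17_ok r17_ok V2L.d17_ok y0_good (by decide +kernel)
    (rng_of (w := 10) rfl (by decide +kernel))

theorem v19 : ∀ i < 190, CovT tL mW grW 1100 sg1 CertG2.GmR V2L.nb V2L.la V2L.Uo i :=
  CovT.step v18 c18_ok e18_ok r18_ok V2L.d18_ok y0_good (by decide +kernel)
    (rng_of (w := 10) rfl (by decide +kernel))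

theorem v20 : ∀ i < 200, CovT tL mW grW 1100 sg1 CertG2.GmR V2L.nb V2L.la V2L.Uo i :=
  CovT.step v19 c19_ok e19_ok r19_ok V2L.d19_ok y0_good (by decide +kernel)
    (rng_of (w := 10) rfl (by decide +kernel))

theorem v21 : ∀ i < 210, CovT tL mW grW 1100 sg1 CertG2.GmR V2L.nb V2L.la V2L.Uo i :=
  CovT.step v20 c20_ok e20_ok r20_ok V2L.d20_ok y0_good (by decide +kernel)
    (rng_of (w := 10) rfl (by decide +kernel))

theorem v22 : ∀ i < 220, CovT tL mW grW 1100 sg1 CertG2.GmR V2L.nb V2L.la V2L.Uo i :=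
  CovT.step v21 c21_ok e21_ok r21_ok V2L.d21_ok y0_good (by decide +kernel)
    (rng_of (w := 10) rfl (by decide +kernel))

theorem v23 : ∀ i < 230, CovT tL mW grW 1100 sg1 CertG2.GmR V2L.nb V2L.la V2L.Uo i :=
  CovT.step v22 c22_ok e22_ok r22_ok V2L.d22_ok y0_good (by decide +kernel)
    (rng_of (w := 10) rfl (by decide +kernel))

theorem v24 : ∀ i < 240, CovT tL mW grW 1100 sg1 CertG2.GmR V2L.nb V2L.la V2L.Uo i :=
  CovT.step v23 c23_ok e23_ok r23_ok V2L.d23_ok y0_good (by decide +kernel)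
    (rng_of (w := 10) rfl (by decide +kernel))

theorem v25 : ∀ i < 250, CovT tL mW grW 1100 sg1 CertG2.GmR V2L.nb V2L.la V2L.Uo i :=
  CovT.step v24 c24_ok e24_ok r24_ok V2L.d24_ok y0_good (by decide +kernel)
    (rng_of (w := 10) rfl (by decide +kernel))

theorem v26 : ∀ i < 260, CovT tL mW grW 1100 sg1 CertG2.GmR V2L.nb V2L.la V2L.Uo i :=
  CovT.step v25 c25_ok e25_ok r25_ok V2L.d25_ok y0_good (by decide +kernel)
    (rng_of (w := 10) rfl (by decide +kernel))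

theorem v27 : ∀ i < 270, CovT tL mW grW 1100 sg1 CertG2.GmR V2L.nb V2L.la V2L.Uo i :=
  CovT.step v26 c26_ok e26_ok r26_ok V2L.d26_ok y0_good (by decide +kernel)
    (rng_of (w := 10) rfl (by decide +kernel))

theorem v28 : ∀ i < 280, CovT tL mW grW 1100 sg1 CertG2.GmR V2L.nb V2L.la V2L.Uo i :=
  CovT.step v27 c27_ok e27_ok r27_ok V2L.d27_ok y0_good (by decide +kernel)
    (rng_of (w := 10) rfl (by decide +kernel))

theorem v29 : ∀ i < 290, CovT tL mW grW 1100 sg1 CertG2.GmR V2L.nb V2L.la V2L.Uo i :=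
  CovT.step v28 c28_ok e28_ok r28_ok V2L.d28_ok y0_good (by decide +kernel)
    (rng_of (w := 10) rfl (by decide +kernel))

theorem v30 : ∀ i < 300, CovT tL mW grW 1100 sg1 CertG2.GmR V2L.nb V2L.la V2L.Uo i :=
  CovT.step v29 c29_ok e29_ok r29_ok V2L.d29_ok y0_good (by decide +kernel)
    (rng_of (w := 10) rfl (by decide +kernel))

theorem v31 : ∀ i < 310, CovT tL mW grW 1100 sg1 CertG2.GmR V2L.nb V2L.la V2L.Uo i :=
  CovT.step v30 c30_ok e30_ok r30_ok V2L.d30_ok y0_good (by decide +kernel)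
    (rng_of (w := 10) rfl (by decide +kernel))

theorem v32 : ∀ i < 320, CovT tL mW grW 1100 sg1 CertG2.GmR V2L.nb V2L.la V2L.Uo i :=
  CovT.step v31 c31_ok e31_ok r31_ok V2L.d31_ok y0_good (by decide +kernel)
    (rng_of (w := 10) rfl (by decide +kernel))

theorem v33 : ∀ i < 330, CovT tL mW grW 1100 sg1 CertG2.GmR V2L.nb V2L.la V2L.Uo i :=
  CovT.step v32 c32_ok e32_ok r32_ok V2L.d32_ok y0_good (by decide +kernel)
    (rng_of (w := 10) rfl (by decide +kernel))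

theorem v34 : ∀ i < 340, CovT tL mW grW 1100 sg1 CertG2.GmR V2L.nb V2L.la V2L.Uo i :=
  CovT.step v33 c33_ok e33_ok r33_ok V2L.d33_ok y0_good (by decide +kernel)
    (rng_of (w := 10) rfl (by decide +kernel))

theorem v35 : ∀ i < 350, CovT tL mW grW 1100 sg1 CertG2.GmR V2L.nb V2L.la V2L.Uo i :=
  CovT.step v34 c34_ok e34_ok r34_ok V2L.d34_ok y0_good (by decide +kernel)
    (rng_of (w := 10) rfl (by decide +kernel))

theorem v36 : ∀ i < 360, CovT tL mW grW 1100 sg1 CertG2.GmR V2L.nb V2L.la V2L.Uo i :=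
  CovT.step v35 c35_ok e35_ok r35_ok V2L.d35_ok y0_good (by decide +kernel)
    (rng_of (w := 10) rfl (by decide +kernel))

theorem v37 : ∀ i < 370, CovT tL mW grW 1100 sg1 CertG2.GmR V2L.nb V2L.la V2L.Uo i :=
  CovT.step v36 c36_ok e36_ok r36_ok V2L.d36_ok y0_good (by decide +kernel)
    (rng_of (w := 10) rfl (by decide +kernel))

theorem v38 : ∀ i < 380, CovT tL mW grW 1100 sg1 CertG2.GmR V2L.nb V2L.la V2L.Uo i :=
  CovT.step v37 c37_ok e37_ok r37_ok V2L.d37_ok y0_good (by decide +kernel)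
    (rng_of (w := 10) rfl (by decide +kernel))

theorem v39 : ∀ i < 390, CovT tL mW grW 1100 sg1 CertG2.GmR V2L.nb V2L.la V2L.Uo i :=
  CovT.step v38 c38_ok e38_ok r38_ok V2L.d38_ok y0_good (by decide +kernel)
    (rng_of (w := 10) rfl (by decide +kernel))

theorem v40 : ∀ i < 400, CovT tL mW grW 1100 sg1 CertG2.GmR V2L.nb V2L.la V2L.Uo i :=
  CovT.step v39 c39_ok e39_ok r39_ok V2L.d39_ok y0_good (by decide +kernel)
    (rng_of (w := 10) rfl (by decide +kernel))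

theorem v41 : ∀ i < 410, CovT tL mW grW 1100 sg1 CertG2.GmR V2L.nb V2L.la V2L.Uo i :=
  CovT.step v40 c40_ok e40_ok r40_ok V2L.d40_ok y1_good (by decide +kernel)
    (rng_of (w := 10) rfl (by decide +kernel))

theorem v42 : ∀ i < 420, CovT tL mW grW 1100 sg1 CertG2.GmR V2L.nb V2L.la V2L.Uo i :=
  CovT.step v41 c41_ok e41_ok r41_ok V2L.d41_ok y1_good (by decide +kernel)
    (rng_of (w := 10) rfl (by decide +kernel))

theorem v43 : ∀ i < 430, CovT tL mW grW 1100 sg1 CertG2.GmR V2L.nb V2L.la V2L.Uo i :=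
  CovT.step v42 c42_ok e42_ok r42_ok V2L.d42_ok y1_good (by decide +kernel)
    (rng_of (w := 10) rfl (by decide +kernel))

theorem v44 : ∀ i < 440, CovT tL mW grW 1100 sg1 CertG2.GmR V2L.nb V2L.la V2L.Uo i :=
  CovT.step v43 c43_ok e43_ok r43_ok V2L.d43_ok y1_good (by decide +kernel)
    (rng_of (w := 10) rfl (by decide +kernel))

theorem v45 : ∀ i < 450, CovT tL mW grW 1100 sg1 CertG2.GmR V2L.nb V2L.la V2L.Uo i :=
  CovT.step v44 c44_ok e44_ok r44_ok V2L.d44_ok y1_good (by decide +kernel)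
    (rng_of (w := 10) rfl (by decide +kernel))

theorem v46 : ∀ i < 460, CovT tL mW grW 1100 sg1 CertG2.GmR V2L.nb V2L.la V2L.Uo i :=
  CovT.step v45 c45_ok e45_ok r45_ok V2L.d45_ok y1_good (by decide +kernel)
    (rng_of (w := 10) rfl (by decide +kernel))

theorem v47 : ∀ i < 470, CovT tL mW grW 1100 sg1 CertG2.GmR V2L.nb V2L.la V2L.Uo i :=
  CovT.step v46 c46_ok e46_ok r46_ok V2L.d46_ok y1_good (by decide +kernel)
    (rng_of (w := 10) rfl (by decide +kernel))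

theorem v48 : ∀ i < 480, CovT tL mW grW 1100 sg1 CertG2.GmR V2L.nb V2L.la V2L.Uo i :=
  CovT.step v47 c47_ok e47_ok r47_ok V2L.d47_ok y1_good (by decide +kernel)
    (rng_of (w := 10) rfl (by decide +kernel))

theorem v49 : ∀ i < 490, CovT tL mW grW 1100 sg1 CertG2.GmR V2L.nb V2L.la V2L.Uo i :=
  CovT.step v48 c48_ok e48_ok r48_ok V2L.d48_ok y1_good (by decide +kernel)
    (rng_of (w := 10) rfl (by decide +kernel))

theorem v50 : ∀ i < 500, CovT tL mW grW 1100 sg1 CertG2.GmR V2L.nb V2L.la V2L.Uo i :=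
  CovT.step v49 c49_ok e49_ok r49_ok V2L.d49_ok y1_good (by decide +kernel)
    (rng_of (w := 10) rfl (by decide +kernel))

theorem v51 : ∀ i < 510, CovT tL mW grW 1100 sg1 CertG2.GmR V2L.nb V2L.la V2L.Uo i :=
  CovT.step v50 c50_ok e50_ok r50_ok V2L.d50_ok y2_good (by decide +kernel)
    (rng_of (w := 10) rfl (by decide +kernel))

theorem v52 : ∀ i < 520, CovT tL mW grW 1100 sg1 CertG2.GmR V2L.nb V2L.la V2L.Uo i :=
  CovT.step v51 c51_ok e51_ok r51_ok V2L.d51_ok y2_good (by decide +kernel)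
    (rng_of (w := 10) rfl (by decide +kernel))

theorem v53 : ∀ i < 530, CovT tL mW grW 1100 sg1 CertG2.GmR V2L.nb V2L.la V2L.Uo i :=
  CovT.step v52 c52_ok e52_ok r52_ok V2L.d52_ok y2_good (by decide +kernel)
    (rng_of (w := 10) rfl (by decide +kernel))

theorem v54 : ∀ i < 540, CovT tL mW grW 1100 sg1 CertG2.GmR V2L.nb V2L.la V2L.Uo i :=
  CovT.step v53 c53_ok e53_ok r53_ok V2L.d53_ok y2_good (by decide +kernel)
    (rng_of (w := 10) rfl (by decide +kernel))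

theorem v55 : ∀ i < 550, CovT tL mW grW 1100 sg1 CertG2.GmR V2L.nb V2L.la V2L.Uo i :=
  CovT.step v54 c54_ok e54_ok r54_ok V2L.d54_ok y2_good (by decide +kernel)
    (rng_of (w := 10) rfl (by decide +kernel))

theorem v56 : ∀ i < 560, CovT tL mW grW 1100 sg1 CertG2.GmR V2L.nb V2L.la V2L.Uo i :=
  CovT.step v55 c55_ok e55_ok r55_ok V2L.d55_ok y2_good (by decide +kernel)
    (rng_of (w := 10) rfl (by decide +kernel))

theorem v57 : ∀ i < 570, CovT tL mW grW 1100 sg1 CertG2.GmR V2L.nb V2L.la V2L.Uo i :=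
  CovT.step v56 c56_ok e56_ok r56_ok V2L.d56_ok y3_good (by decide +kernel)
    (rng_of (w := 10) rfl (by decide +kernel))

theorem v58 : ∀ i < 580, CovT tL mW grW 1100 sg1 CertG2.GmR V2L.nb V2L.la V2L.Uo i :=
  CovT.step v57 c57_ok e57_ok r57_ok V2L.d57_ok y3_good (by decide +kernel)
    (rng_of (w := 10) rfl (by decide +kernel))

theorem v59 : ∀ i < 590, CovT tL mW grW 1100 sg1 CertG2.GmR V2L.nb V2L.la V2L.Uo i :=
  CovT.step v58 c58_ok e58_ok r58_ok V2L.d58_ok y3_good (by decide +kernel)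
    (rng_of (w := 10) rfl (by decide +kernel))

theorem v60 : ∀ i < 600, CovT tL mW grW 1100 sg1 CertG2.GmR V2L.nb V2L.la V2L.Uo i :=
  CovT.step v59 c59_ok e59_ok r59_ok V2L.d59_ok y3_good (by decide +kernel)
    (rng_of (w := 10) rfl (by decide +kernel))

theorem v61 : ∀ i < 610, CovT tL mW grW 1100 sg1 CertG2.GmR V2L.nb V2L.la V2L.Uo i :=
  CovT.step v60 c60_ok e60_ok r60_ok V2L.d60_ok y4_good (by decide +kernel)
    (rng_of (w := 10) rfl (by decide +kernel))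

theorem v62 : ∀ i < 620, CovT tL mW grW 1100 sg1 CertG2.GmR V2L.nb V2L.la V2L.Uo i :=
  CovT.step v61 c61_ok e61_ok r61_ok V2L.d61_ok y4_good (by decide +kernel)
    (rng_of (w := 10) rfl (by decide +kernel))

theorem v63 : ∀ i < 630, CovT tL mW grW 1100 sg1 CertG2.GmR V2L.nb V2L.la V2L.Uo i :=
  CovT.step v62 c62_ok e62_ok r62_ok V2L.d62_ok y4_good (by decide +kernel)
    (rng_of (w := 10) rfl (by decide +kernel))

theorem v64 : ∀ i < 640, CovT tL mW grW 1100 sg1 CertG2.GmR V2L.nb V2L.la V2L.Uo i :=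
  CovT.step v63 c63_ok e63_ok r63_ok V2L.d63_ok y4_good (by decide +kernel)
    (rng_of (w := 10) rfl (by decide +kernel))

theorem v65 : ∀ i < 650, CovT tL mW grW 1100 sg1 CertG2.GmR V2L.nb V2L.la V2L.Uo i :=
  CovT.step v64 c64_ok e64_ok r64_ok V2L.d64_ok y4_good (by decide +kernel)
    (rng_of (w := 10) rfl (by decide +kernel))

theorem v66 : ∀ i < 660, CovT tL mW grW 1100 sg1 CertG2.GmR V2L.nb V2L.la V2L.Uo i :=
  CovT.step v65 c65_ok e65_ok r65_ok V2L.d65_ok y5_good (by decide +kernel)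
    (rng_of (w := 10) rfl (by decide +kernel))

theorem v67 : ∀ i < 670, CovT tL mW grW 1100 sg1 CertG2.GmR V2L.nb V2L.la V2L.Uo i :=
  CovT.step v66 c66_ok e66_ok r66_ok V2L.d66_ok y5_good (by decide +kernel)
    (rng_of (w := 10) rfl (by decide +kernel))

theorem v68 : ∀ i < 680, CovT tL mW grW 1100 sg1 CertG2.GmR V2L.nb V2L.la V2L.Uo i :=
  CovT.step v67 c67_ok e67_ok r67_ok V2L.d67_ok y5_good (by decide +kernel)
    (rng_of (w := 10) rfl (by decide +kernel))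

theorem v69 : ∀ i < 690, CovT tL mW grW 1100 sg1 CertG2.GmR V2L.nb V2L.la V2L.Uo i :=
  CovT.step v68 c68_ok e68_ok r68_ok V2L.d68_ok y6_good (by decide +kernel)
    (rng_of (w := 10) rfl (by decide +kernel))

theorem v70 : ∀ i < 700, CovT tL mW grW 1100 sg1 CertG2.GmR V2L.nb V2L.la V2L.Uo i :=
  CovT.step v69 c69_ok e69_ok r69_ok V2L.d69_ok y6_good (by decide +kernel)
    (rng_of (w := 10) rfl (by decide +kernel))

theorem v71 : ∀ i < 710, CovT tL mW grW 1100 sg1 CertG2.GmR V2L.nb V2L.la V2L.Uo i :=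
  CovT.step v70 c70_ok e70_ok r70_ok V2L.d70_ok y6_good (by decide +kernel)
    (rng_of (w := 10) rfl (by decide +kernel))

theorem v72 : ∀ i < 720, CovT tL mW grW 1100 sg1 CertG2.GmR V2L.nb V2L.la V2L.Uo i :=
  CovT.step v71 c71_ok e71_ok r71_ok V2L.d71_ok y6_good (by decide +kernel)
    (rng_of (w := 10) rfl (by decide +kernel))

theorem v73 : ∀ i < 730, CovT tL mW grW 1100 sg1 CertG2.GmR V2L.nb V2L.la V2L.Uo i :=
  CovT.step v72 c72_ok e72_ok r72_ok V2L.d72_ok y7_good (by decide +kernel)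
    (rng_of (w := 10) rfl (by decide +kernel))

theorem v74 : ∀ i < 740, CovT tL mW grW 1100 sg1 CertG2.GmR V2L.nb V2L.la V2L.Uo i :=
  CovT.step v73 c73_ok e73_ok r73_ok V2L.d73_ok y7_good (by decide +kernel)
    (rng_of (w := 10) rfl (by decide +kernel))

theorem v75 : ∀ i < 750, CovT tL mW grW 1100 sg1 CertG2.GmR V2L.nb V2L.la V2L.Uo i :=
  CovT.step v74 c74_ok e74_ok r74_ok V2L.d74_ok y7_good (by decide +kernel)
    (rng_of (w := 10) rfl (by decide +kernel))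

theorem v76 : ∀ i < 760, CovT tL mW grW 1100 sg1 CertG2.GmR V2L.nb V2L.la V2L.Uo i :=
  CovT.step v75 c75_ok e75_ok r75_ok V2L.d75_ok y7_good (by decide +kernel)
    (rng_of (w := 10) rfl (by decide +kernel))

theorem v77 : ∀ i < 770, CovT tL mW grW 1100 sg1 CertG2.GmR V2L.nb V2L.la V2L.Uo i :=
  CovT.step v76 c76_ok e76_ok r76_ok V2L.d76_ok y8_good (by decide +kernel)
    (rng_of (w := 10) rfl (by decide +kernel))

theorem v78 : ∀ i < 780, CovT tL mW grW 1100 sg1 CertG2.GmR V2L.nb V2L.la V2L.Uo i :=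
  CovT.step v77 c77_ok e77_ok r77_ok V2L.d77_ok y8_good (by decide +kernel)
    (rng_of (w := 10) rfl (by decide +kernel))

theorem v79 : ∀ i < 790, CovT tL mW grW 1100 sg1 CertG2.GmR V2L.nb V2L.la V2L.Uo i :=
  CovT.step v78 c78_ok e78_ok r78_ok V2L.d78_ok y8_good (by decide +kernel)
    (rng_of (w := 10) rfl (by decide +kernel))

theorem v80 : ∀ i < 800, CovT tL mW grW 1100 sg1 CertG2.GmR V2L.nb V2L.la V2L.Uo i :=
  CovT.step v79 c79_ok e79_ok r79_ok V2L.d79_ok y9_good (by decide +kernel)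
    (rng_of (w := 10) rfl (by decide +kernel))

theorem v81 : ∀ i < 810, CovT tL mW grW 1100 sg1 CertG2.GmR V2L.nb V2L.la V2L.Uo i :=
  CovT.step v80 c80_ok e80_ok r80_ok V2L.d80_ok y9_good (by decide +kernel)
    (rng_of (w := 10) rfl (by decide +kernel))

theorem v82 : ∀ i < 820, CovT tL mW grW 1100 sg1 CertG2.GmR V2L.nb V2L.la V2L.Uo i :=
  CovT.step v81 c81_ok e81_ok r81_ok V2L.d81_ok y9_good (by decide +kernel)
    (rng_of (w := 10) rfl (by decide +kernel))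

theorem v83 : ∀ i < 830, CovT tL mW grW 1100 sg1 CertG2.GmR V2L.nb V2L.la V2L.Uo i :=
  CovT.step v82 c82_ok e82_ok r82_ok V2L.d82_ok y10_good (by decide +kernel)
    (rng_of (w := 10) rfl (by decide +kernel))

theorem v84 : ∀ i < 840, CovT tL mW grW 1100 sg1 CertG2.GmR V2L.nb V2L.la V2L.Uo i :=
  CovT.step v83 c83_ok e83_ok r83_ok V2L.d83_ok y10_good (by decide +kernel)
    (rng_of (w := 10) rfl (by decide +kernel))

theorem v85 : ∀ i < 850, CovT tL mW grW 1100 sg1 CertG2.GmR V2L.nb V2L.la V2L.Uo i :=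
  CovT.step v84 c84_ok e84_ok r84_ok V2L.d84_ok y10_good (by decide +kernel)
    (rng_of (w := 10) rfl (by decide +kernel))

theorem v86 : ∀ i < 860, CovT tL mW grW 1100 sg1 CertG2.GmR V2L.nb V2L.la V2L.Uo i :=
  CovT.step v85 c85_ok e85_ok r85_ok V2L.d85_ok y11_good (by decide +kernel)
    (rng_of (w := 10) rfl (by decide +kernel))

theorem v87 : ∀ i < 870, CovT tL mW grW 1100 sg1 CertG2.GmR V2L.nb V2L.la V2L.Uo i :=
  CovT.step v86 c86_ok e86_ok r86_ok V2L.d86_ok y11_good (by decide +kernel)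
    (rng_of (w := 10) rfl (by decide +kernel))

theorem v88 : ∀ i < 880, CovT tL mW grW 1100 sg1 CertG2.GmR V2L.nb V2L.la V2L.Uo i :=
  CovT.step v87 c87_ok e87_ok r87_ok V2L.d87_ok y11_good (by decide +kernel)
    (rng_of (w := 10) rfl (by decide +kernel))

theorem v89 : ∀ i < 890, CovT tL mW grW 1100 sg1 CertG2.GmR V2L.nb V2L.la V2L.Uo i :=
  CovT.step v88 c88_ok e88_ok r88_ok V2L.d88_ok y12_good (by decide +kernel)
    (rng_of (w := 10) rfl (by decide +kernel))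

theorem v90 : ∀ i < 900, CovT tL mW grW 1100 sg1 CertG2.GmR V2L.nb V2L.la V2L.Uo i :=
  CovT.step v89 c89_ok e89_ok r89_ok V2L.d89_ok y12_good (by decide +kernel)
    (rng_of (w := 10) rfl (by decide +kernel))

theorem v91 : ∀ i < 910, CovT tL mW grW 1100 sg1 CertG2.GmR V2L.nb V2L.la V2L.Uo i :=
  CovT.step v90 c90_ok e90_ok r90_ok V2L.d90_ok y13_good (by decide +kernel)
    (rng_of (w := 10) rfl (by decide +kernel))

theorem v92 : ∀ i < 920, CovT tL mW grW 1100 sg1 CertG2.GmR V2L.nb V2L.la V2L.Uo i :=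
  CovT.step v91 c91_ok e91_ok r91_ok V2L.d91_ok y13_good (by decide +kernel)
    (rng_of (w := 10) rfl (by decide +kernel))

theorem v93 : ∀ i < 930, CovT tL mW grW 1100 sg1 CertG2.GmR V2L.nb V2L.la V2L.Uo i :=
  CovT.step v92 c92_ok e92_ok r92_ok V2L.d92_ok y14_good (by decide +kernel)
    (rng_of (w := 10) rfl (by decide +kernel))

theorem v94 : ∀ i < 940, CovT tL mW grW 1100 sg1 CertG2.GmR V2L.nb V2L.la V2L.Uo i :=
  CovT.step v93 c93_ok e93_ok r93_ok V2L.d93_ok y14_good (by decide +kernel)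
    (rng_of (w := 10) rfl (by decide +kernel))

theorem v95 : ∀ i < 950, CovT tL mW grW 1100 sg1 CertG2.GmR V2L.nb V2L.la V2L.Uo i :=
  CovT.step v94 c94_ok e94_ok r94_ok V2L.d94_ok y15_good (by decide +kernel)
    (rng_of (w := 10) rfl (by decide +kernel))

theorem v96 : ∀ i < 960, CovT tL mW grW 1100 sg1 CertG2.GmR V2L.nb V2L.la V2L.Uo i :=
  CovT.step v95 c95_ok e95_ok r95_ok V2L.d95_ok y15_good (by decide +kernel)
    (rng_of (w := 10) rfl (by decide +kernel))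

theorem v97 : ∀ i < 970, CovT tL mW grW 1100 sg1 CertG2.GmR V2L.nb V2L.la V2L.Uo i :=
  CovT.step v96 c96_ok e96_ok r96_ok V2L.d96_ok y16_good (by decide +kernel)
    (rng_of (w := 10) rfl (by decide +kernel))

theorem v98 : ∀ i < 980, CovT tL mW grW 1100 sg1 CertG2.GmR V2L.nb V2L.la V2L.Uo i :=
  CovT.step v97 c97_ok e97_ok r97_ok V2L.d97_ok y16_good (by decide +kernel)
    (rng_of (w := 10) rfl (by decide +kernel))

theorem v99 : ∀ i < 990, CovT tL mW grW 1100 sg1 CertG2.GmR V2L.nb V2L.la V2L.Uo i :=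
  CovT.step v98 c98_ok e98_ok r98_ok V2L.d98_ok y17_good (by decide +kernel)
    (rng_of (w := 10) rfl (by decide +kernel))

theorem v100 : ∀ i < 1000, CovT tL mW grW 1100 sg1 CertG2.GmR V2L.nb V2L.la V2L.Uo i :=
  CovT.step v99 c99_ok e99_ok r99_ok V2L.d99_ok y17_good (by decide +kernel)
    (rng_of (w := 10) rfl (by decide +kernel))

theorem v101 : ∀ i < 1010, CovT tL mW grW 1100 sg1 CertG2.GmR V2L.nb V2L.la V2L.Uo i :=
  CovT.step v100 c100_ok e100_ok r100_ok V2L.d100_ok y18_good (by decide +kernel)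
    (rng_of (w := 10) rfl (by decide +kernel))

theorem v102 : ∀ i < 1020, CovT tL mW grW 1100 sg1 CertG2.GmR V2L.nb V2L.la V2L.Uo i :=
  CovT.step v101 c101_ok e101_ok r101_ok V2L.d101_ok y19_good (by decide +kernel)
    (rng_of (w := 10) rfl (by decide +kernel))

theorem v103 : ∀ i < 1030, CovT tL mW grW 1100 sg1 CertG2.GmR V2L.nb V2L.la V2L.Uo i :=
  CovT.step v102 c102_ok e102_ok r102_ok V2L.d102_ok y20_good (by decide +kernel)
    (rng_of (w := 10) rfl (by decide +kernel))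

theorem v104 : ∀ i < 1040, CovT tL mW grW 1100 sg1 CertG2.GmR V2L.nb V2L.la V2L.Uo i :=
  CovT.step v103 c103_ok e103_ok r103_ok V2L.d103_ok y21_good (by decide +kernel)
    (rng_of (w := 10) rfl (by decide +kernel))

theorem v105 : ∀ i < 1050, CovT tL mW grW 1100 sg1 CertG2.GmR V2L.nb V2L.la V2L.Uo i :=
  CovT.step v104 c104_ok e104_ok r104_ok V2L.d104_ok y22_good (by decide +kernel)
    (rng_of (w := 10) rfl (by decide +kernel))

theorem v106 : ∀ i < 1060, CovT tL mW grW 1100 sg1 CertG2.GmR V2L.nb V2L.la V2L.Uo i :=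
  CovT.step v105 c105_ok e105_ok r105_ok V2L.d105_ok y23_good (by decide +kernel)
    (rng_of (w := 10) rfl (by decide +kernel))

theorem v107 : ∀ i < 1070, CovT tL mW grW 1100 sg1 CertG2.GmR V2L.nb V2L.la V2L.Uo i :=
  CovT.step v106 c106_ok e106_ok r106_ok V2L.d106_ok y24_good (by decide +kernel)
    (rng_of (w := 10) rfl (by decide +kernel))

theorem v108 : ∀ i < 1080, CovT tL mW grW 1100 sg1 CertG2.GmR V2L.nb V2L.la V2L.Uo i :=
  CovT.step v107 c107_ok e107_ok r107_ok V2L.d107_ok y25_good (by decide +kernel)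
    (rng_of (w := 10) rfl (by decide +kernel))

theorem v109 : ∀ i < 1090, CovT tL mW grW 1100 sg1 CertG2.GmR V2L.nb V2L.la V2L.Uo i :=
  CovT.step v108 c108_ok e108_ok r108_ok V2L.d108_ok y26_good (by decide +kernel)
    (rng_of (w := 10) rfl (by decide +kernel))

theorem v110 : ∀ i < 1100, CovT tL mW grW 1100 sg1 CertG2.GmR V2L.nb V2L.la V2L.Uo i :=
  CovT.step v109 c109_ok e109_ok r109_ok V2L.d109_ok y27_good (by decide +kernel)
    (rng_of (w := 10) rfl (by decide +kernel))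

/-- **all cells** -/
theorem cov : ∀ i < 1100, CovT tL mW grW 1100 sg1 CertG2.GmR V2L.nb V2L.la V2L.Uo i := v110

theorem sg1_nn : ∀ i < 1100, 0 ≤ sg1 i := by decide +kernel

end Pool.Agent.RX.RCN.CV1
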