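import Pool.Agent.RX.RCN.CV1D

/-! Generated (helper30): global checks (MP_73ccd0_lc, route M). -/

set_option autoImplicit false

namespace Pool.Agent.RX.RCN.CV1

open Pool.Agent.RX.RCN Pool.Agent.RX.RCN.K Pool.Agent.RX.RCM9 Pool.Agent.RX.RCN.Ck1

theorem tL_ok : tL.okG (10 ^ 30) 96 (11 / 20) = true := by decide +kernel

theorem tL_ax : tL.ax = true := by decide +kernel

end Pool.Agent.RX.RCN.CV1
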