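import Pool.Agent.RX.RCM.NuC
import Pool.Agent.RX.RCM.NuD_1
import Pool.Agent.RX.RCM.NuR

/-! Cells of general worlds: the closures for the density bounds (MP_73ccd0_lc, route M). -/

namespace Pool.Agent.RX.RCN.K

open Set Finset MeasureTheory Pool.Agent.RX.RCRSHalf Pool.Agent.RX.RCG Pool.Agent.RX.RCG.Ct
set_option linter.unusedSectionVars false

variable {V : Type*} [Fintype V] [DecidableEq V]
variable {h : ℝ → V → V → ℝ} {H : V → V → ℝ → ℝ}

variable {Z : Hzd} {F : Lz V} {x : V → V → ℝ} {P : V → Prop} [DecidablePred P]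
  {G : Fm V} {A D : Finset V} {sg α τ : ℝ} {B E1 : ℝ → ℝ → ℝ} {sl : ℝ → ℝ → ℝ} {t : ℝ}

/-- the data of the cell `[α, τ]`, class `s ≤ sg`, of the world `(A, D)` -/
structure Cl1 (Z : Hzd) (F : Lz V) (x : V → V → ℝ) (P : V → Prop) [DecidablePred P]
    (G : Fm V) (A D : Finset V) (sg α τ : ℝ) (B : ℝ → ℝ → ℝ) : Prop where
  kF : F.OkN Z x P A D sg α τ
  kn : ∀ e, C3 α τ fun t s r => F.n2 t s e r
  kG : ∃ m q, G.Ok Z F x P sg τ D B m q
  kE : G.Ed D sg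
  kt : Ctl G sg τ
  kj : Cj F G α τ

section cells

variable (Z : Hzd) (x : V → V → ℝ) (P : V → Prop) [DecidablePred P] (N : ℕ) (M : ℕ → ℕ)
  (sg : ℕ → ℕ → ℝ) (ε : ℝ) (F : ℕ → ℕ → V → V → Lz V) (G : ℕ → ℕ → V → V → Fm V)

variable {Z x P N M sg ε F G}

end cells

end Pool.Agent.RX.RCN.K
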