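import Pool.Agent.RX.RCM.NuS_2
import Pool.Agent.RX.RCM.NuSc
import Pool.Agent.RX.RCN.Brg_1
import Pool.Agent.RX.RCN.Cw

/-! Cells of general worlds: the closures with the signed direct part (MP_73ccd0_lc, route M). -/

namespace Pool.Agent.RX.RCN.K

open Set Finset MeasureTheory Pool.Agent.RX.RCRSHalf Pool.Agent.RX.RCG Pool.Agent.RX.RCG.Ct
set_option linter.unusedSectionVars false

variable {V : Type*} [Fintype V] [DecidableEq V]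
variable {h : ℝ → V → V → ℝ} {H : V → V → ℝ → ℝ}

variable {Z : Hzd} {F : Lz V} {x : V → V → ℝ} {P : V → Prop} [DecidablePred P] {lo : ℝ → ℝ}
  {G : Fm V} {A D : Finset V} {sg α τ : ℝ} {B E1 : ℝ → ℝ → ℝ} {sl : ℝ → ℝ → ℝ} {t : ℝ}

/-- **the deleted closure of a cell** -/
theorem Cl1.cloS (hC : Cl1 Z F x P G A D sg α τ B) (hCf : Z.Cf B E1) (hZ : Z.Ok sl)
    (hx : Wt x P 1) (cl : ContinuousOn lo (Icc 0 bt)) (hh : Haz h H) (ht : t ∈ Icc α τ)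
    (hle : ∀ u v, ∀ r ∈ Icc 0 t, h r u v ≤ Z.hh x P r u v)
    (hHle : ∀ u v, ∀ σ ∈ Icc 0 t, ∀ r ∈ Icc 0 σ, H u v σ - H u v r ≤ Z.Hh x P σ u v r)
    (hlo : ∀ u v, P u → P v → ∀ r ∈ Icc 0 t, x u v * lo r ≤ h r u v)
    {c d : V} (hc : c ∈ Dᶜ) (hd : d ∈ Dᶜ) (hcd : c ≠ d) {s : ℝ} (hs : s ∈ Icc 0 t)
    (hsg : s ≤ sg) : RCM.CloD h t s A D c d (Real.exp (LdS Z F x P lo G τ D c d t s)) := by
  obtain ⟨m, q, hG⟩ := hC.kG
  exact clo_delS hh hCf hG hC.kj.ctn hC.kt hC.kF hZ hx ht hs hsg hle hHle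
    (cl.mono (Icc_subset_Icc_right (ht.2.trans hC.kF.τ1))) hlo hc hd hcd

/-- **the released closure of a cell** -/
theorem Cl1.relS (hC : Cl1 Z F x P G A D sg α τ B) (hCf : Z.Cf B E1) (hZ : Z.Ok sl)
    (hx : Wt x P 1) (cl : ContinuousOn lo (Icc 0 bt)) (hh : Haz h H) (ht : t ∈ Icc α τ)
    (hle : ∀ u v, ∀ r ∈ Icc 0 t, h r u v ≤ Z.hh x P r u v)
    (hHle : ∀ u v, ∀ σ ∈ Icc 0 t, ∀ r ∈ Icc 0 σ, H u v σ - H u v r ≤ Z.Hh x P σ u v r)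
    (hlo : ∀ u v, P u → P v → ∀ r ∈ Icc 0 t, x u v * lo r ≤ h r u v)
    {c d : V} (hc : c ∈ Dᶜ) (hd : d ∈ Dᶜ) (hcd : c ≠ d) {s : ℝ} (hs : s ∈ Icc 0 t)
    (hsg : s ≤ sg) : RCM.CloDt h t s A D c d (Real.exp (LtS Z F x P lo G τ D c d t s)) := by
  obtain ⟨m, q, hG⟩ := hC.kG
  exact clo_relS hh hCf hG hC.kj.ctn hC.kt hC.kF hZ hx ht hs hsg hle hHle
    (cl.mono (Icc_subset_Icc_right (ht.2.trans hC.kF.τ1))) hlo hc hd hcd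

theorem Cl1.cdS (hC : Cl1 Z F x P G A D sg α τ B) (hCf : Z.Cf B E1) (hZ : Z.Ok sl)
    (hx : Wt x P 1) (cl : ContinuousOn lo (Icc 0 bt)) {c d : V} (hc : c ∈ Dᶜ) (hd : d ∈ Dᶜ)
    (hcd : c ≠ d) :
    ContinuousOn (fun p : ℝ × ℝ => LdS Z F x P lo G τ D c d p.1 p.2) (Ws α τ sg) := by
  obtain ⟨m, q, hG⟩ := hC.kG
  exact LdS_cont hCf hG hC.kE hC.kj hC.kn hC.kF hZ hx cl hc hd hcd

theorem Cl1.crS (hC : Cl1 Z F x P G A D sg α τ B) (hCf : Z.Cf B E1) (hZ : Z.Ok sl)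
    (hx : Wt x P 1) (cl : ContinuousOn lo (Icc 0 bt)) {c d : V} (hc : c ∈ Dᶜ) (hd : d ∈ Dᶜ)
    (hcd : c ≠ d) :
    ContinuousOn (fun p : ℝ × ℝ => LtS Z F x P lo G τ D c d p.1 p.2) (Ws α τ sg) := by
  obtain ⟨m, q, hG⟩ := hC.kG
  exact LtS_cont hCf hG hC.kj hC.kn hC.kF hZ hx cl hc hd hcd

section le

variable (hC : Cl1 Z F x P G A D sg α τ B) (hZ : Z.Ok sl) (hx : Wt x P 1)
  (cl : ContinuousOn lo (Icc 0 bt)) (l0 : ∀ r ∈ Icc 0 bt, 0 ≤ lo r) (ht : t ∈ Icc α τ) {s : ℝ}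
  (hs : s ∈ Icc 0 t) (hsg : s ≤ sg) (c d : V)
include hC hZ hx cl l0 ht hs hsg

end le

section cells

variable (Z : Hzd) (x : V → V → ℝ) (P : V → Prop) [DecidablePred P] (N : ℕ) (M : ℕ → ℕ)
  (sg : ℕ → ℕ → ℝ) (ε : ℝ) (lo : ℝ → ℝ) (F : ℕ → ℕ → V → V → Lz V) (G : ℕ → ℕ → V → V → Fm V)

/-- the cells and classes with the exponents with the signed direct part -/
noncomputable def cxS : Cx V where
  N := N
  M := M
  sg := sg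
  ε := ε
  lo := lo
  L i j a b c d t s := LdS Z (F i j a b) x P lo (G i j a b) (cb N i) {a, b} c d t s
  Lt i j a b c d t s := LtS Z (F i j a b) x P lo (G i j a b) (cb N i) {a, b} c d t s

variable {Z x P N M sg ε lo F G}

/-- **the conditions on the cells and classes from the data of the cells** -/
theorem cls_ofS (hCf : Z.Cf B E1) (hZ : Z.Ok sl) (hx : Wt x P 1) (N0 : 0 < N) (ε0 : 0 < ε)
    (cl : ContinuousOn lo (Icc 0 bt))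
    (last : ∀ i < N, sg i (M i) = cb N i) (sg0 : ∀ i < N, ∀ j ≤ M i, 0 ≤ sg i j)
    (hC : ∀ i < N, ∀ j ≤ M i, ∀ a b, P a → P b → a ≠ b →
      Cl1 Z (F i j a b) x P (G i j a b) {a} {a, b} (sg i j) (ca N i) (cb N i) B) :
    Cls Z x P (cxS Z x P N M sg ε lo F G) where
  N0 := N0
  ε0 := ε0
  sg0 := sg0
  last := last
  cL := fun i hi j hj _ _ _ _ ⟨ha, hb, hab, hc, hd, hcd⟩ =>
    (hC i hi j hj _ _ ha hb hab).cdS hCf hZ hx cl hc hd hcd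
  cLt := fun i hi j hj _ _ _ _ ⟨ha, hb, hab, hc, hd, hcd⟩ =>
    (hC i hi j hj _ _ ha hb hab).crS hCf hZ hx cl hc hd hcd
  vL := fun i hi j hj _ _ _ hh ht hle hHle hlo _ _ _ _ ⟨ha, hb, hab, hc, hd, hcd⟩ _ hs hsg =>
    (hC i hi j hj _ _ ha hb hab).cloS hCf hZ hx cl hh ht hle hHle hlo hc hd hcd hs hsg
  vLt := fun i hi j hj _ _ _ hh ht hle hHle hlo _ _ _ _ ⟨ha, hb, hab, hc, hd, hcd⟩ _ hs hsg =>
    (hC i hi j hj _ _ ha hb hab).relS hCf hZ hx cl hh ht hle hHle hlo hc hd hcd hs hsg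

end cells

end Pool.Agent.RX.RCN.K
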