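import Pool.Agent.RX.RCM.FmE
import Pool.Agent.RX.RCM9.DatZ
import Pool.Agent.RX.RCN.CwS
import Pool.Agent.RX.RCN.Ins

/-! The data of a cell with the polynomial functions (MP_73ccd0_lc, route M). -/

namespace Pool.Agent.RX.RCN.K

open Set Finset MeasureTheory Pool.Agent.RX.RCRSHalf Pool.Agent.RX.RCG Pool.Agent.RX.RCG.Ct
open Pool.Agent.RX.RCN.Ker Pool.Agent.RX.RCRS Pool.Agent.RX.RCM9 Pool.Agent.RX.RCM9.Bern Pool.Agent.RX.RCM9.Pk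

set_option linter.unusedSectionVars false

variable {V : Type*} [Fintype V] [DecidableEq V]

/-- the data of the cell `[α, τ]`, class `s ≤ sg`, of the world `({a}, {a, b})` -/
structure Cl2 (p : Ps) (x : V → V → ℝ) (P : V → Prop) [DecidablePred P] (a b : V)
    (sg α τ m q : ℝ) (G : Fm V) : Prop where
  cl : Cl1 p.z.hz (p.y.lz2 p.z x P a b sg τ) x P G {a} {a, b} sg α τ p.g.rB
  ok : G.Ok p.z.hz (p.y.lz2 p.z x P a b sg τ) x P sg τ {a, b} p.g.rB m q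
  gd : Gd p.z.hz (p.y.lz2 p.z x P a b sg τ) x P τ {a, b} G.gp G.gm G.gs
  pe : ∀ c, ∀ e ∈ (({a, b} : Finset V)ᶜ).erase c, G.p c e τ = 0 ∧ G.n c e τ = 0
  tp : ∀ c, Tls p.z.hz (p.y.lz2 p.z x P a b sg τ) x P τ {a, b} G.gp G.gs p.g.rB q m τ c
    (G.p c) (G.n c)
  td : ∀ s ∈ Icc 0 sg, ∀ d, Tls p.z.hz (p.y.lz2 p.z x P a b sg τ) x P τ {a, b} G.gp G.gs p.g.rB
    q m s d (G.pd s d) (G.nd s d)
  tt : ∀ s ∈ Icc 0 sg, ∀ d, Tls p.z.hz (p.y.lz2 p.z x P a b sg τ) x P τ {a, b} G.gp G.gs p.g.rB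
    q m s d (G.pt s d) (G.nt s d)

variable {p : Ps} {x : V → V → ℝ} {P : V → Prop} [DecidablePred P] {a b : V}
  {sg α τ m q : ℝ} {gp gm gs : V → V → ℝ → ℝ}

/-- **existence of the data of a cell** -/
theorem exists_cl2 (hp : p.Ok) (hx : Wt x P 1) (hab : a ≠ b) (α0 : 0 ≤ α) (ατ : α ≤ τ)
    (τ1 : τ ≤ bt) (sg0 : 0 ≤ sg) (sgτ : sg ≤ τ)
    (hG : Gd p.z.hz (p.y.lz2 p.z x P a b sg τ) x P τ {a, b} gp gm gs)
    (q0 : 0 ≤ q) (m0 : 0 ≤ m) (hq : Real.exp m - 1 ≤ q * m)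
    (hmT : ∀ c ∈ ({a, b} : Finset V)ᶜ, ∀ p' n : V → ℝ → ℝ,
      Tls p.z.hz (p.y.lz2 p.z x P a b sg τ) x P τ {a, b} gp gs p.g.rB q m τ c p' n →
      (∀ e ∈ (({a, b} : Finset V)ᶜ).erase c, p' e τ = 0) →
      (∀ e ∈ (({a, b} : Finset V)ᶜ).erase c, n e τ = 0) →
      ∀ e f, e ≠ f → ∀ r ∈ Icc 0 τ, p' e r + p' f r ≤ m)
    (hms : ∀ s ∈ Icc 0 sg, ∀ d ∈ ({a, b} : Finset V)ᶜ, ∀ p' n : V → ℝ → ℝ,
      Tls p.z.hz (p.y.lz2 p.z x P a b sg τ) x P τ {a, b} gp gs p.g.rB q m s d p' n →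
      (∀ e ∈ (({a, b} : Finset V)ᶜ).erase d, p' e s ≤ gm d e s) →
      (∀ e ∈ (({a, b} : Finset V)ᶜ).erase d, n e s ≤ gp d e s) →
      ∀ e f, e ≠ f → ∀ r ∈ Icc 0 s, p' e r + p' f r ≤ m) :
    ∃ G : Fm V, G.gp = gp ∧ G.gm = gm ∧ G.gs = gs ∧ Cl2 p x P a b sg α τ m q G := by
  have hτ : τ ∈ Icc (0 : ℝ) bt := ⟨α0.trans ατ, τ1⟩
  have hF := YDat.lz2_okN (P := P) hp.y hp.z hp.d hx hab α0 ατ τ1 sg0 sgτ
  have cB : ContinuousOn (p.g.rB τ) (Icc 0 τ) := by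
    unfold KDat.rB
    exact ((continuous_const.sub continuous_id).mul
      ((continuous_pv2' p.g.QB).comp (continuous_id.prodMk continuous_const))).continuousOn
  obtain ⟨G, e1, e2, e3, ok, ed, ct, cj, pe, tp, td, tt⟩ :=
    exists_fm hp.g.cf (hp.z.ok hp.d) hx hF.toOk
      (fun e => YDat.lz2_c3 (P := P) hp.z hp.d hx α0 ατ τ1 e)
      (fun e => YDat.lz2_y1 (P := P) hp.y hp.z hp.d hx hab hτ sg0 sgτ e) hG cB q0 m0 hq hmT hms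
  subst e1 e2 e3
  exact ⟨G, rfl, rfl, rfl,
    { cl :=
        { kF := hF
          kn := fun e => YDat.lz2_n2 (P := P) hp.z hp.d hx α0 ατ τ1 e
          kG := ⟨m, q, ok⟩
          kE := ed
          kt := ct
          kj := cj }
      ok := ok
      gd := hG
      pe := pe
      tp := tp
      td := td
      tt := tt }⟩

/-- the cells and classes of the assembly -/
noncomputable def Ps.cx (p : Ps) (x : V → V → ℝ) (P : V → Prop) [DecidablePred P] (N : ℕ)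
    (M : ℕ → ℕ) (sg : ℕ → ℕ → ℝ) (ε : ℝ) (G : ℕ → ℕ → V → V → Fm V) : Cx V :=
  cxS p.z.hz x P N M sg ε (pv p.lo) (fun i j a b => p.y.lz2 p.z x P a b (sg i j) (cb N i)) G

theorem Ps.cls (hp : p.Ok) (hx : Wt x P 1) {N : ℕ} {M : ℕ → ℕ} {sg : ℕ → ℕ → ℝ} {ε : ℝ}
    {G : ℕ → ℕ → V → V → Fm V} (N0 : 0 < N) (ε0 : 0 < ε)
    (last : ∀ i < N, sg i (M i) = cb N i) (sg0 : ∀ i < N, ∀ j ≤ M i, 0 ≤ sg i j)
    {m q : ℕ → ℕ → V → V → ℝ}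
    (hG : ∀ i < N, ∀ j ≤ M i, ∀ a b, P a → P b → a ≠ b →
      Cl2 p x P a b (sg i j) (ca N i) (cb N i) (m i j a b) (q i j a b) (G i j a b)) :
    Cls p.z.hz x P (p.cx x P N M sg ε G) := by
  exact cls_ofS hp.g.cf (hp.z.ok hp.d) hx N0 ε0 (continuous_pv p.lo).continuousOn last sg0
    fun i hi j hj a b ha hb hab => (hG i hi j hj a b ha hb hab).cl

end Pool.Agent.RX.RCN.K
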