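import Pool.Agent.RX.RCN.PW

/-! Certificates of `pW.Ok` (generated by gencert.py). -/

set_option autoImplicit false

namespace Pool.Agent.RX.RCN.K

open Set Pool.Agent.RX.RCM9 Pool.Agent.RX.RCM9.Bern Pool.Agent.RX.RCM9.Pk

theorem cP_κ0 : 0 < pW.κ := by decide +kernel

theorem cP_κ2 : pW.κ ≤ 1 / 2 := by decide +kernel

theorem cP_Kl : NN (pW.eKl) :=
  NN.of (K := 101) (D := ⟨2, 1, 1, 11⟩) (Box.of 4 (by decide +kernel))
    (by decide +kernel)

theorem cP_Kh : NN (pW.eKh) :=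
  NN.of (K := 101) (D := ⟨2, 1, 1, 11⟩) (Box.of 4 (by decide +kernel))
    (by decide +kernel)

theorem cP_mtb : ev pW.z.mb btq ≤ mtq := by decide +kernel

theorem cP_lo0 : NN (pW.eLo0) :=
  NN.of (K := 75) (D := ⟨1, 1, 1, 8⟩) (Box.of 4 (by decide +kernel))
    (by decide +kernel)

theorem cP_lol : NN (pW.eLol) :=
  NN.of (K := 237) (D := ⟨2, 1, 1, 18⟩) (Box.of 18715 (by decide +kernel))
    (by decide +kernel)

theorem cP_loh : NN (pW.eLoh) :=
  NN.of (K := 237) (D := ⟨2, 1, 1, 18⟩) (Box.of 18715 (by decide +kernel))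
    (by decide +kernel)

end Pool.Agent.RX.RCN.K
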