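import Pool.Agent.RX.RCM9.CertB
import Pool.Agent.RX.RCM9.CertC
import Pool.Agent.RX.RCM9.CertD
import Pool.Agent.RX.RCM9.CertH
import Pool.Agent.RX.RCM9.CertK
import Pool.Agent.RX.RCM9.CertS
import Pool.Agent.RX.RCM9.CertT
import Pool.Agent.RX.RCM9.CertY
import Pool.Agent.RX.RCN.CertP

/-! The conditions of the assembly for the data set (generated by gencert.py). -/

set_option autoImplicit false

namespace Pool.Agent.RX.RCN.K

open Pool.Agent.RX.RCM9

theorem pW_ok : pW.Ok where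
  d := Dat.posD
  b := Dat.posB
  s := Dat.posS
  k := Dat.posK
  z := HDat.posH
  y := YDat.posY
  g := KDat.posC
  κ0 := cP_κ0
  κ2 := cP_κ2
  Kl := cP_Kl
  Kh := cP_Kh
  te := Dat.posT
  mtb := cP_mtb
  lo0 := cP_lo0
  lol := cP_lol
  loh := cP_loh

end Pool.Agent.RX.RCN.K
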