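import Pool.Agent.RX.RCN.FW_1

/-! Certificates of `fP.Pos` (generated by gencert.py). -/

set_option autoImplicit false

namespace Pool.Agent.RX.RCN.K.FDat

open Set Pool.Agent.RX.RCN.K Pool.Agent.RX.RCM9 Pool.Agent.RX.RCM9.Bern Pool.Agent.RX.RCM9.Pk

theorem cFP_U0 : 0 < fP.U := by decide +kernel

theorem cFP_z0 : NN (fP.zE) :=
  NN.of (K := 28) (D := ⟨1, 4, 1, 1⟩) (Box.of 4 (by decide +kernel))
    (by decide +kernel)

theorem cFP_d0 : NN (fP.dE) :=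
  NN.of (K := 32) (D := ⟨1, 4, 1, 1⟩) (Box.of 4 (by decide +kernel))
    (by decide +kernel)

theorem cFP_vv : NN (1 - (fP.zE + fP.dE)) :=
  NN.of (K := 34) (D := ⟨1, 4, 1, 1⟩) (Box.of 4 (by decide +kernel))
    (by decide +kernel)

theorem cFP_eu : NN (fP.c2 - eT4 fP.v1) :=
  NN.of (K := 146) (D := ⟨5, 13, 1, 1⟩) (Box.of 288 (by decide +kernel))
    (by decide +kernel)

theorem cFP_er : NN (fP.r2 - eT4 fP.v2) :=
  NN.of (K := 151) (D := ⟨5, 13, 1, 1⟩) (Box.of 288 (by decide +kernel))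
    (by decide +kernel)

theorem cFP_P0 : NN (fP.gp2) :=
  NN.of (K := 101) (D := ⟨3, 10, 1, 1⟩) (Box.of 4 (by decide +kernel))
    (by decide +kernel)

theorem cFP_M0 : NN (fP.gm2) :=
  NN.of (K := 107) (D := ⟨3, 11, 1, 1⟩) (Box.of 4 (by decide +kernel))
    (by decide +kernel)

theorem cFP_fM : NN (pe fP.FM fP.u - l * (fP.c2 * fP.gm2)) :=
  NN.of (K := 240) (D := ⟨7, 16, 1, 1⟩) (Box.of 314087446528 (by decide +kernel))
    (by decide +kernel)

theorem cFP_fP : NN (pe fP.FP fP.u - l * (fP.c2 * fP.gp2)) :=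
  NN.of (K := 245) (D := ⟨7, 15, 1, 1⟩) (Box.of 1284517948311552 (by decide +kernel))
    (by decide +kernel)

theorem cFP_aM : NN (pe fP.AM fP.u - l * fP.c2 * (fP.r2 * l * fP.gm2 + pe fP.FM fP.u)) :=
  NN.of (K := 243) (D := ⟨10, 21, 1, 1⟩) (Box.of 4 (by decide +kernel))
    (by decide +kernel)

theorem cFP_aP : NN (pe fP.AP fP.u - l * fP.c2 * (fP.r2 * l * fP.gp2 + pe fP.FP fP.u)) :=
  NN.of (K := 237) (D := ⟨10, 20, 1, 1⟩) (Box.of 4 (by decide +kernel))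
    (by decide +kernel)

theorem posFP : fP.Pos where
  U0 := cFP_U0
  z0 := cFP_z0
  d0 := cFP_d0
  vv := cFP_vv
  eu := cFP_eu
  er := cFP_er
  P0 := cFP_P0
  M0 := cFP_M0
  fM := cFP_fM
  fP := cFP_fP
  aM := cFP_aM
  aP := cFP_aP

end Pool.Agent.RX.RCN.K.FDat
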