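import Pool.Agent.RX.RCN.FW_2

/-! Certificates of `fS.Pos` (generated by gencert.py). -/

set_option autoImplicit false

namespace Pool.Agent.RX.RCN.K.FDat

open Set Pool.Agent.RX.RCN.K Pool.Agent.RX.RCM9 Pool.Agent.RX.RCM9.Bern Pool.Agent.RX.RCM9.Pk

theorem cFS_U0 : 0 < fS.U := by decide +kernel

theorem cFS_z0 : NN (fS.zE) :=
  NN.of (K := 32) (D := ⟨1, 4, 1, 1⟩) (Box.of 4 (by decide +kernel))
    (by decide +kernel)

theorem cFS_d0 : NN (fS.dE) :=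
  NN.of (K := 32) (D := ⟨1, 4, 1, 1⟩) (Box.of 4 (by decide +kernel))
    (by decide +kernel)

theorem cFS_vv : NN (1 - (fS.zE + fS.dE)) :=
  NN.of (K := 35) (D := ⟨1, 4, 1, 1⟩) (Box.of 4 (by decide +kernel))
    (by decide +kernel)

theorem cFS_eu : NN (fS.c2 - eT4 fS.v1) :=
  NN.of (K := 151) (D := ⟨5, 13, 1, 1⟩) (Box.of 288 (by decide +kernel))
    (by decide +kernel)

theorem cFS_er : NN (fS.r2 - eT4 fS.v2) :=
  NN.of (K := 155) (D := ⟨5, 13, 1, 1⟩) (Box.of 288 (by decide +kernel))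
    (by decide +kernel)

theorem cFS_P0 : NN (fS.gp2) :=
  NN.of (K := 113) (D := ⟨3, 11, 1, 1⟩) (Box.of 4 (by decide +kernel))
    (by decide +kernel)

theorem cFS_M0 : NN (fS.gm2) :=
  NN.of (K := 120) (D := ⟨3, 12, 1, 1⟩) (Box.of 4 (by decide +kernel))
    (by decide +kernel)

theorem cFS_fM : NN (pe fS.FM fS.u - l * (fS.c2 * fS.gm2)) :=
  NN.of (K := 243) (D := ⟨7, 17, 1, 1⟩) (Box.of 1198144 (by decide +kernel))
    (by decide +kernel)

theorem cFS_fP : NN (pe fS.FP fS.u - l * (fS.c2 * fS.gp2)) :=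
  NN.of (K := 247) (D := ⟨7, 16, 1, 1⟩) (Box.of 76677153 (by decide +kernel))
    (by decide +kernel)

theorem cFS_aM : NN (pe fS.AM fS.u - l * fS.c2 * (fS.r2 * l * fS.gm2 + pe fS.FM fS.u)) :=
  NN.of (K := 294) (D := ⟨10, 22, 1, 1⟩) (Box.of 289 (by decide +kernel))
    (by decide +kernel)

theorem cFS_aP : NN (pe fS.AP fS.u - l * fS.c2 * (fS.r2 * l * fS.gp2 + pe fS.FP fS.u)) :=
  NN.of (K := 249) (D := ⟨10, 21, 1, 1⟩) (Box.of 4 (by decide +kernel))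
    (by decide +kernel)

theorem posFS : fS.Pos where
  U0 := cFS_U0
  z0 := cFS_z0
  d0 := cFS_d0
  vv := cFS_vv
  eu := cFS_eu
  er := cFS_er
  P0 := cFS_P0
  M0 := cFS_M0
  fM := cFS_fM
  fP := cFS_fP
  aM := cFS_aM
  aP := cFS_aP

end Pool.Agent.RX.RCN.K.FDat
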