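import Pool.Agent.RX.RCM9.DW
import Pool.Agent.RX.RCN.GW

/-! Certificates of `gW.Pos dW` (generated by gencert.py). -/

set_option autoImplicit false

namespace Pool.Agent.RX.RCN.K.GDat

open Set Pool.Agent.RX.RCN.K Pool.Agent.RX.RCM9 Pool.Agent.RX.RCM9.Bern Pool.Agent.RX.RCM9.Pk

theorem cG_Kc : NN (gW.eKc) :=
  NN.of (K := 89) (D := ⟨1, 1, 1, 8⟩) (Box.of 18715 (by decide +kernel))
    (by decide +kernel)

theorem cG_Ke : NN (gW.eKe) :=
  NN.of (K := 103) (D := ⟨1, 1, 1, 8⟩) (Box.of 1198299 (by decide +kernel))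
    (by decide +kernel)

theorem cG_Km : NN (gW.eKm) :=
  NN.of (K := 61) (D := ⟨1, 1, 1, 8⟩) (Box.of 4 (by decide +kernel))
    (by decide +kernel)

theorem cG_Ql : NN (gW.eQl dW) :=
  NN.of (K := 250) (D := ⟨2, 1, 1, 16⟩) (Box.of 82065653354350299 (by decide +kernel))
    (by decide +kernel)

theorem cG_Qh : NN (gW.eQh dW) :=
  NN.of (K := 250) (D := ⟨2, 1, 1, 16⟩) (Box.of 4891494115 (by decide +kernel))
    (by decide +kernel)

theorem cG_Qq : NN (gW.eQq) :=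
  NN.of (K := 81) (D := ⟨1, 1, 1, 10⟩) (Box.of 4 (by decide +kernel))
    (by decide +kernel)

theorem cG_Af : NN (gW.eAf dW) :=
  NN.of (K := 209) (D := ⟨1, 1, 1, 17⟩) (Box.of 18659 (by decide +kernel))
    (by decide +kernel)

theorem cG_Al : NN (gW.eAl dW) :=
  NN.of (K := 339) (D := ⟨2, 1, 1, 18⟩) (Box.of 1194267 (by decide +kernel))
    (by decide +kernel)

theorem cG_Ah : NN (gW.eAh dW) :=
  NN.of (K := 277) (D := ⟨2, 1, 1, 18⟩) (Box.of 4 (by decide +kernel))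
    (by decide +kernel)

theorem cG_Ad : NN (gW.eAd) :=
  NN.of (K := 73) (D := ⟨1, 1, 1, 9⟩) (Box.of 4 (by decide +kernel))
    (by decide +kernel)

theorem cG_bl : NN (ebl dW) :=
  NN.of (K := 82) (D := ⟨2, 1, 1, 9⟩) (Box.of 4 (by decide +kernel))
    (by decide +kernel)

theorem cG_bh : NN (ebh dW) :=
  NN.of (K := 82) (D := ⟨2, 1, 1, 9⟩) (Box.of 4 (by decide +kernel))
    (by decide +kernel)

theorem cG_d0 : 0 < gW.dl := by decide +kernel

theorem cG_d1 : gW.dl ≤ 1 := by decide +kernel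

theorem posG : gW.Pos dW where
  Kc := cG_Kc
  Ke := cG_Ke
  Km := cG_Km
  Ql := cG_Ql
  Qh := cG_Qh
  Qqd := cG_Qq
  Af := cG_Af
  Al := cG_Al
  Ah := cG_Ah
  Ad := cG_Ad
  bl := cG_bl
  bh := cG_bh
  d0 := cG_d0
  d1 := cG_d1

end Pool.Agent.RX.RCN.K.GDat
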