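import Pool.Agent.RX.RCN.GrW
import Pool.Agent.RX.RCN.MW

/-! Certificates of `Gr` (generated by gencert.py). -/

set_option autoImplicit false

namespace Pool.Agent.RX.RCN.K

open Set Pool.Agent.RX.RCN.K Pool.Agent.RX.RCM9 Pool.Agent.RX.RCM9.Bern Pool.Agent.RX.RCM9.Pk

theorem cGr_nn0 : NN (qc gr0.m - 2 * (MDat.l * pe2 mW.Pf MDat.k (qc gr0.U * vZ))) :=
  NN.of (K := 187) (D := ⟨4, 11, 1, 1⟩) (Box.of 18688 (by decide +kernel))
    (by decide +kernel)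

theorem cGr_nn1 : NN (qc gr1.m - 2 * (MDat.l * pe2 mW.Pf MDat.k (qc gr1.U * vZ))) :=
  NN.of (K := 176) (D := ⟨4, 11, 1, 1⟩) (Box.of 1198080 (by decide +kernel))
    (by decide +kernel)

theorem cGr_nn2 : NN (qc gr2.m - 2 * (MDat.l * pe2 mW.Pf MDat.k (qc gr2.U * vZ))) :=
  NN.of (K := 190) (D := ⟨4, 11, 1, 1⟩) (Box.of 18688 (by decide +kernel))
    (by decide +kernel)

theorem cGr_nn3 : NN (qc gr3.m - 2 * (MDat.l * pe2 mW.Pf MDat.k (qc gr3.U * vZ))) :=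
  NN.of (K := 164) (D := ⟨4, 11, 1, 1⟩) (Box.of 1198080 (by decide +kernel))
    (by decide +kernel)

theorem cGr_nn4 : NN (qc gr4.m - 2 * (MDat.l * pe2 mW.Pf MDat.k (qc gr4.U * vZ))) :=
  NN.of (K := 198) (D := ⟨4, 11, 1, 1⟩) (Box.of 1198080 (by decide +kernel))
    (by decide +kernel)

theorem cGr_nn5 : NN (qc gr5.m - 2 * (MDat.l * pe2 mW.Pf MDat.k (qc gr5.U * vZ))) :=
  NN.of (K := 199) (D := ⟨4, 11, 1, 1⟩) (Box.of 1198080 (by decide +kernel))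
    (by decide +kernel)

theorem cGr_nn6 : NN (qc gr6.m - 2 * (MDat.l * pe2 mW.Pf MDat.k (qc gr6.U * vZ))) :=
  NN.of (K := 173) (D := ⟨4, 11, 1, 1⟩) (Box.of 18688 (by decide +kernel))
    (by decide +kernel)

theorem cGr_nn7 : NN (qc gr7.m - 2 * (MDat.l * pe2 mW.Pf MDat.k (qc gr7.U * vZ))) :=
  NN.of (K := 173) (D := ⟨4, 11, 1, 1⟩) (Box.of 18688 (by decide +kernel))
    (by decide +kernel)

theorem cGr_nn8 : NN (qc gr8.m - 2 * (MDat.l * pe2 mW.Pf MDat.k (qc gr8.U * vZ))) :=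
  NN.of (K := 194) (D := ⟨4, 11, 1, 1⟩) (Box.of 18688 (by decide +kernel))
    (by decide +kernel)

theorem cGr_nn9 : NN (qc gr9.m - 2 * (MDat.l * pe2 mW.Pf MDat.k (qc gr9.U * vZ))) :=
  NN.of (K := 191) (D := ⟨4, 11, 1, 1⟩) (Box.of 1198080 (by decide +kernel))
    (by decide +kernel)

theorem cGr_nn10 : NN (qc gr10.m - 2 * (MDat.l * pe2 mW.Pf MDat.k (qc gr10.U * vZ))) :=
  NN.of (K := 171) (D := ⟨4, 11, 1, 1⟩) (Box.of 1198080 (by decide +kernel))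
    (by decide +kernel)

theorem cGr_nn11 : NN (qc gr11.m - 2 * (MDat.l * pe2 mW.Pf MDat.k (qc gr11.U * vZ))) :=
  NN.of (K := 155) (D := ⟨4, 11, 1, 1⟩) (Box.of 18688 (by decide +kernel))
    (by decide +kernel)

theorem cGr_nn12 : NN (qc gr12.m - 2 * (MDat.l * pe2 mW.Pf MDat.k (qc gr12.U * vZ))) :=
  NN.of (K := 195) (D := ⟨4, 11, 1, 1⟩) (Box.of 18688 (by decide +kernel))
    (by decide +kernel)

theorem cGr_nn13 : NN (qc gr13.m - 2 * (MDat.l * pe2 mW.Pf MDat.k (qc gr13.U * vZ))) :=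
  NN.of (K := 185) (D := ⟨4, 11, 1, 1⟩) (Box.of 18688 (by decide +kernel))
    (by decide +kernel)

theorem cGr_nn14 : NN (qc gr14.m - 2 * (MDat.l * pe2 mW.Pf MDat.k (qc gr14.U * vZ))) :=
  NN.of (K := 196) (D := ⟨4, 11, 1, 1⟩) (Box.of 18688 (by decide +kernel))
    (by decide +kernel)

theorem cGr_nn15 : NN (qc gr15.m - 2 * (MDat.l * pe2 mW.Pf MDat.k (qc gr15.U * vZ))) :=
  NN.of (K := 196) (D := ⟨4, 11, 1, 1⟩) (Box.of 18688 (by decide +kernel))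
    (by decide +kernel)

theorem cGr_nn16 : NN (qc gr16.m - 2 * (MDat.l * pe2 mW.Pf MDat.k (qc gr16.U * vZ))) :=
  NN.of (K := 189) (D := ⟨4, 11, 1, 1⟩) (Box.of 288 (by decide +kernel))
    (by decide +kernel)

theorem cGr_nn17 : NN (qc gr17.m - 2 * (MDat.l * pe2 mW.Pf MDat.k (qc gr17.U * vZ))) :=
  NN.of (K := 173) (D := ⟨4, 11, 1, 1⟩) (Box.of 4 (by decide +kernel))
    (by decide +kernel)

theorem cGr_nn18 : NN (qc gr18.m - 2 * (MDat.l * pe2 mW.Pf MDat.k (qc gr18.U * vZ))) :=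
  NN.of (K := 183) (D := ⟨4, 11, 1, 1⟩) (Box.of 4 (by decide +kernel))
    (by decide +kernel)

theorem cGr_nn19 : NN (qc gr19.m - 2 * (MDat.l * pe2 mW.Pf MDat.k (qc gr19.U * vZ))) :=
  NN.of (K := 153) (D := ⟨4, 11, 1, 1⟩) (Box.of 4 (by decide +kernel))
    (by decide +kernel)

theorem cGr_nn20 : NN (qc gr20.m - 2 * (MDat.l * pe2 mW.Pf MDat.k (qc gr20.U * vZ))) :=
  NN.of (K := 183) (D := ⟨4, 11, 1, 1⟩) (Box.of 4 (by decide +kernel))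
    (by decide +kernel)

theorem cGr_nn21 : NN (qc gr21.m - 2 * (MDat.l * pe2 mW.Pf MDat.k (qc gr21.U * vZ))) :=
  NN.of (K := 150) (D := ⟨4, 11, 1, 1⟩) (Box.of 4 (by decide +kernel))
    (by decide +kernel)

theorem cGr_nn22 : NN (qc gr22.m - 2 * (MDat.l * pe2 mW.Pf MDat.k (qc gr22.U * vZ))) :=
  NN.of (K := 173) (D := ⟨4, 11, 1, 1⟩) (Box.of 4 (by decide +kernel))
    (by decide +kernel)

theorem cGr_nn23 : NN (qc gr23.m - 2 * (MDat.l * pe2 mW.Pf MDat.k (qc gr23.U * vZ))) :=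
  NN.of (K := 183) (D := ⟨4, 11, 1, 1⟩) (Box.of 4 (by decide +kernel))
    (by decide +kernel)

theorem cGr_nn24 : NN (qc gr24.m - 2 * (MDat.l * pe2 mW.Pf MDat.k (qc gr24.U * vZ))) :=
  NN.of (K := 154) (D := ⟨4, 11, 1, 1⟩) (Box.of 4 (by decide +kernel))
    (by decide +kernel)

theorem cGr_nn25 : NN (qc gr25.m - 2 * (MDat.l * pe2 mW.Pf MDat.k (qc gr25.U * vZ))) :=
  NN.of (K := 174) (D := ⟨4, 11, 1, 1⟩) (Box.of 4 (by decide +kernel))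
    (by decide +kernel)

theorem cGr_nn26 : NN (qc gr26.m - 2 * (MDat.l * pe2 mW.Pf MDat.k (qc gr26.U * vZ))) :=
  NN.of (K := 160) (D := ⟨4, 11, 1, 1⟩) (Box.of 4 (by decide +kernel))
    (by decide +kernel)

theorem cGr_nn27 : NN (qc gr27.m - 2 * (MDat.l * pe2 mW.Pf MDat.k (qc gr27.U * vZ))) :=
  NN.of (K := 161) (D := ⟨4, 11, 1, 1⟩) (Box.of 4 (by decide +kernel))
    (by decide +kernel)

end Pool.Agent.RX.RCN.K
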