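import Pool.Agent.RX.RCE.Nn
import Pool.Agent.RX.RCM9.DatOk
import Pool.Agent.RX.RCN.LamD

/-! The density bound for the symbolic certificate (MP_73ccd0_lc, route M). -/

set_option autoImplicit false
set_option linter.unusedSectionVars false

namespace Pool.Agent.RX.RCM9.Dat

open Set Bern Pk Pool.Agent.RX.RCN.K Pool.Agent.RX.RCE

/-- the polynomials `cl`, `lup`, `lu` as lists -/
def cll : List ℚ :=
  [0, 0, 362 / 729, (-464 / 729), 452 / 729, (-1664 / 3645), 160 / 729, (-256 / 5103)]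

def lupl : List ℚ := [1, (-161 / 162), 76 / 81, (-20 / 27), 32 / 81, (-8 / 81)]

def lul : List ℚ := [0, 1, (-161 / 324), 76 / 243, (-5 / 27), 32 / 405, (-4 / 243)]

theorem pv_cll (t : ℝ) : pv cll t = Lm.cl t := by
  unfold cll Lm.cl
  simp only [pv]
  push_cast
  ring

theorem pv_lupl (t : ℝ) : pv lupl t = Lm.lup t := by
  unfold lupl Lm.lup
  simp only [pv]
  push_cast
  ring

theorem pv_lul (t : ℝ) : pv lul t = Lm.lu t := by
  unfold lul Lm.lu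
  simp only [pv]
  push_cast
  ring

variable (d : Dat)

/-- the early bound of the corrections -/
def p0l : List ℚ :=
  ladd (lsmul (1 / 2) (ladd (ladd d.F d.F3) d.F2)) (lsmul d.SP d.Gp)

def nl : List ℚ := lsmul d.SP d.np

def Bpl' : List ℚ := lmul d.D (ladd (lmul [0, 1] lupl) d.p0l)

theorem pv_p0l (t : ℝ) : pv d.p0l t = d.dt.p0 t := by
  unfold p0l Dt.p0
  rw [pv_ladd, pv_lsmul, pv_lsmul, pv_ladd, pv_ladd]
  show ((1 / 2 : ℚ) : ℝ) * (pv d.F t + pv d.F3 t + pv d.F2 t) + (d.SP : ℝ) * pv d.Gp t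
    = (pv d.F t + pv d.F3 t + pv d.F2 t) / 2 + (d.SP : ℝ) * pv d.Gp t
  push_cast
  ring

theorem pv_nl (t : ℝ) : pv d.nl t = d.dt.SP * d.dt.np t := by
  unfold nl
  rw [pv_lsmul]
  rfl

theorem pv_Bpl' (t : ℝ) : pv d.Bpl' t = d.dt.D t * (t * Lm.lup t + d.dt.p0 t) := by
  unfold Bpl'
  rw [pv_lmul, pv_ladd, pv_lmul, pv_lupl, pv_p0l]
  show pv d.D t * (pv [0, 1] t * Lm.lup t + d.dt.p0 t) = pv d.D t * (t * Lm.lup t + d.dt.p0 t)
  simp [pv]

/-- the weights in `[0, 3/5]` and in `[3/5, 1]` -/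
def wA : E := E.num 3 5 * vX
def wB : E := E.num 3 5 + E.num 2 5 * vX

def eM (w : E) : E :=
  w * (1 - w) * pe cll vT + (qc d.ee * vT - qc d.ee ^ 2 * vT ^ 2 * hlf)

def eI1 : E := d.eM wA + E.num 7 16 * wA ^ 2 * ((1 + vT) * pe d.Z vT - pe (pri d.Z) vT)
  + (wA ^ 2 * hlf - wA) * ((1 + vT) * pe d.p0l vT) - wA * pe (pri d.nl) vT

def eI2 : E := d.eM wA + wA ^ 2 * ((1 + vT) * pe d.Z vT - pe (pri d.Z) vT)
  + (wA ^ 2 * hlf - wA) * ((1 + vT) * pe d.p0l vT) - wA * pe (pri d.nl) vT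

def eI3 : E := (1 + qc d.th * pe d.Z vT * (1 + vT))
    * (d.eM wB - (1 - wB) * (pe lul vT + pe (pri d.Bpl') vT))
  + (1 - wB) * vT
  + (1 + vT) * (E.num 7 16 * wB ^ 2 * pe d.Z vT - (wB - wB ^ 2 * hlf) * pe d.p0l vT)

/-- the polynomial inequalities of the main factor -/
structure PosM : Prop where
  i1 : NN d.eI1
  i2 : NN d.eI2
  i3 : NN d.eI3

variable {d}

/-- **the scalar inequalities of the main factor** -/
theorem PosM.ld (hM : d.PosM) (h : d.dt.Ok) (ee0 : 0 ≤ d.ee) :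
    (d.dt.ld (pv (pri d.Z)) (pv (pri d.nl)) (pv (pri d.Bpl')) (d.ee : ℝ)).Ok := by
  have ee : (0 : ℝ) ≤ (d.ee : ℝ) := by exact_mod_cast ee0
  refine Dt.ld_ok h ee (fun t _ => hasDerivAt_pri d.Z t) (pri_zero _)
    (fun t _ => (hasDerivAt_pri d.nl t).congr_deriv (d.pv_nl t)) (pri_zero _)
    (fun t _ => (hasDerivAt_pri d.Bpl' t).congr_deriv (d.pv_Bpl' t)) (pri_zero _)
    (fun w hw t ht => ?_) (fun w hw t ht => ?_) (fun w hw t ht => ?_)
  · have h2 := hM.i1 (5 / 3 * w) 0 0 t ⟨by linarith [hw.1], by linarith [hw.2]⟩ z01 z01 ht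
    simp only [eI1, eM, wA, val_sub, val_mul, val_add, val_pow, val_one, val_qc, val_pe, val_num,
      val_hlf, val_vX, val_vT, pv_cll, pv_p0l] at h2
    push_cast at h2
    rw [show (3 : ℝ) / 5 * (5 / 3 * w) = w by ring] at h2
    show 0 ≤ w * (1 - w) * Lm.cl t + ((d.ee : ℝ) * t - (d.ee : ℝ) ^ 2 * t ^ 2 / 2)
        + 7 / 16 * w ^ 2 * ((1 + t) * pv d.Z t - pv (pri d.Z) t)
        + (w ^ 2 / 2 - w) * ((1 + t) * d.dt.p0 t) - w * pv (pri d.nl) t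
    linarith
  · have h2 := hM.i2 (5 / 3 * w) 0 0 t ⟨by linarith [hw.1], by linarith [hw.2]⟩ z01 z01 ht
    simp only [eI2, eM, wA, val_sub, val_mul, val_add, val_pow, val_one, val_qc, val_pe, val_num,
      val_hlf, val_vX, val_vT, pv_cll, pv_p0l] at h2
    push_cast at h2
    rw [show (3 : ℝ) / 5 * (5 / 3 * w) = w by ring] at h2
    show 0 ≤ w * (1 - w) * Lm.cl t + ((d.ee : ℝ) * t - (d.ee : ℝ) ^ 2 * t ^ 2 / 2)
        + w ^ 2 * ((1 + t) * pv d.Z t - pv (pri d.Z) t)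
        + (w ^ 2 / 2 - w) * ((1 + t) * d.dt.p0 t) - w * pv (pri d.nl) t
    linarith
  · have h2 := hM.i3 (5 / 2 * (w - 3 / 5)) 0 0 t ⟨by linarith [hw.1], by linarith [hw.2]⟩
      z01 z01 ht
    simp only [eI3, eM, wB, val_sub, val_mul, val_add, val_pow, val_one, val_qc, val_pe, val_num,
      val_hlf, val_vX, val_vT, pv_cll, pv_p0l, pv_lul] at h2
    push_cast at h2
    rw [show (3 : ℝ) / 5 + 2 / 5 * (5 / 2 * (w - 3 / 5)) = w by ring] at h2
    show 0 ≤ (1 + (d.th : ℝ) * pv d.Z t * (1 + t)) * (w * (1 - w) * Lm.cl t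
          + ((d.ee : ℝ) * t - (d.ee : ℝ) ^ 2 * t ^ 2 / 2)
          - (1 - w) * (Lm.lu t + pv (pri d.Bpl') t))
        + (1 - w) * t
        + (1 + t) * (7 / 16 * w ^ 2 * pv d.Z t - (w - w ^ 2 / 2) * d.dt.p0 t)
    linarith

end Pool.Agent.RX.RCM9.Dat

namespace Pool.Agent.RX.RCN.K

open Set Finset MeasureTheory Pool.Agent.RX.RCRSHalf Pool.Agent.RX.RCG Pool.Agent.RX.RCG.Ct
open Pool.Agent.RX.RCN.Ker Pool.Agent.RX.RCE

open Pool.Agent.RX.RCM9 Pool.Agent.RX.RCM9.Bern Pool.Agent.RX.RCM9.Pk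

theorem btq_nn' : (0 : ℚ) ≤ btq := by decide +kernel

variable {V : Type} [Fintype V] [DecidableEq V]
variable {Gr : SimpleGraph V} [Fintype Gr.edgeSet] [DecidableEq Gr.edgeSet]

end Pool.Agent.RX.RCN.K
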