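import Pool.Agent.RX.RCM9.DW
import Pool.Agent.RX.RCN.DnP_1

/-! Certificates of `dW.PosM` (generated by gencert.py). -/

set_option autoImplicit false

namespace Pool.Agent.RX.RCM9.Dat

open Set Pool.Agent.RX.RCN.K Pool.Agent.RX.RCM9 Pool.Agent.RX.RCM9.Bern Pool.Agent.RX.RCM9.Pk

theorem cLd_i1 : NN (dW.eI1) :=
  NN.of (K := 241) (D := ⟨3, 1, 1, 15⟩) (Box.of 18688 (by decide +kernel))
    (by decide +kernel)

theorem cLd_i2 : NN (dW.eI2) :=
  NN.of (K := 241) (D := ⟨3, 1, 1, 15⟩) (Box.of 18688 (by decide +kernel))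
    (by decide +kernel)

theorem cLd_i3 : NN (dW.eI3) :=
  NN.of (K := 383) (D := ⟨3, 1, 1, 29⟩) (Box.of 4 (by decide +kernel))
    (by decide +kernel)

theorem posLd : dW.PosM where
  i1 := cLd_i1
  i2 := cLd_i2
  i3 := cLd_i3

end Pool.Agent.RX.RCM9.Dat
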