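import Pool.Agent.RX.RCN.MW

/-! Certificates of `mW.Pos` (generated by gencert.py). -/

set_option autoImplicit false

namespace Pool.Agent.RX.RCN.K.MDat

open Set Pool.Agent.RX.RCN.K Pool.Agent.RX.RCM9 Pool.Agent.RX.RCM9.Bern Pool.Agent.RX.RCM9.Pk

theorem cM_U0 : 0 < mW.U := by decide +kernel

theorem cM_U1 : mW.U ≤ 1 := by decide +kernel

theorem cM_q0 : 0 ≤ mW.q := by decide +kernel

theorem cM_m0 : 0 ≤ mW.m := by decide +kernel

theorem cM_ie0 : 0 ≤ mW.ie := by decide +kernel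

theorem cM_hie : 1 ≤ mW.ie * (1 - 2 / 9 * mW.U) := by decide +kernel

theorem cM_y0 : NN (mW.yE) :=
  NN.of (K := 31) (D := ⟨1, 4, 1, 1⟩) (Box.of 4 (by decide +kernel))
    (by decide +kernel)

theorem cM_yu : NN (mW.u - mW.yE) :=
  NN.of (K := 35) (D := ⟨1, 4, 1, 1⟩) (Box.of 4 (by decide +kernel))
    (by decide +kernel)

theorem cM_B0 : NN (mW.bE) :=
  NN.of (K := 15) (D := ⟨1, 2, 1, 1⟩) (Box.of 4 (by decide +kernel))
    (by decide +kernel)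

theorem cM_Bη : NN (qc (1 - 2 / 9 * mW.U) * mW.b4 - mW.bE) :=
  NN.of (K := 28) (D := ⟨1, 2, 1, 1⟩) (Box.of 4 (by decide +kernel))
    (by decide +kernel)

theorem cM_ey : NN (pe mW.Ey mW.u - eT4 mW.yE) :=
  NN.of (K := 142) (D := ⟨1, 13, 1, 1⟩) (Box.of 4 (by decide +kernel))
    (by decide +kernel)

theorem cM_eu : NN (mW.c2 - eT4 (k * mW.u + l * mW.yE)) :=
  NN.of (K := 158) (D := ⟨5, 13, 1, 1⟩) (Box.of 288 (by decide +kernel))
    (by decide +kernel)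

theorem cM_er : NN (mW.r2 - eT4 mW.vr) :=
  NN.of (K := 154) (D := ⟨5, 13, 1, 1⟩) (Box.of 4 (by decide +kernel))
    (by decide +kernel)

theorem cM_P0 : NN (mW.p2) :=
  NN.of (K := 124) (D := ⟨3, 11, 1, 1⟩) (Box.of 4 (by decide +kernel))
    (by decide +kernel)

theorem cM_M0 : NN (mW.m2) :=
  NN.of (K := 118) (D := ⟨3, 10, 1, 1⟩) (Box.of 4 (by decide +kernel))
    (by decide +kernel)

theorem cM_hFM : NN (pe mW.FM mW.u - l * (mW.c2 * mW.m2)) :=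
  NN.of (K := 248) (D := ⟨6, 14, 1, 1⟩) (Box.of 20070592169984 (by decide +kernel))
    (by decide +kernel)

theorem cM_hFP : NN (pe mW.FP mW.u - l * (mW.c2 * mW.p2)) :=
  NN.of (K := 245) (D := ⟨6, 15, 1, 1⟩) (Box.of 313603014720 (by decide +kernel))
    (by decide +kernel)

theorem cM_hFQ : NN (pe mW.FQ mW.u - l ^ 2 * (mW.c2 * mW.p2)) :=
  NN.of (K := 216) (D := ⟨7, 15, 1, 1⟩) (Box.of 289 (by decide +kernel))
    (by decide +kernel)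

theorem cM_hAM : NN (pe mW.AM mW.u - mW.c2 * (l ^ 2 * (mW.r2 * mW.m2) + l * pe mW.FM mW.u)) :=
  NN.of (K := 245) (D := ⟨9, 18, 1, 1⟩) (Box.of 4 (by decide +kernel))
    (by decide +kernel)

theorem cM_hAP : NN (pe mW.AP mW.u - qc mW.q * mW.c2 * (mW.b4 * (l ^ 2 * (mW.r2 * mW.p2) + l * pe mW.FP mW.u) + mW.bE * (l * kq) * pe mW.FQ mW.u)) :=
  NN.of (K := 310) (D := ⟨9, 20, 1, 1⟩) (Box.of 289 (by decide +kernel))
    (by decide +kernel)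

theorem cM_hAD : NN (pe mW.AD mW.u - mW.c2 * mW.bE * (mW.r2 * (l ^ 2 * qc (mW.ie / 4) * mW.bq + l ^ 3 * qc (4 / 27 * mW.ie ^ 2) * mW.qm) + pe mW.Ey mW.u * (2 - k) * (mW.bq * E.num 1 4 + E.num 4 27 * mW.qm))) :=
  NN.of (K := 220) (D := ⟨8, 13, 1, 1⟩) (Box.of 4 (by decide +kernel))
    (by decide +kernel)

theorem cM_oP : NN (pe2 (mW.Pf.map pd) k mW.u - (mW.c2 * pe mW.FM mW.u + mW.gm2 * pe mW.AM mW.u + mW.gp2 * (pe mW.AD mW.u + pe mW.AP mW.u))) :=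
  NN.of (K := 322) (D := ⟨3, 18, 1, 1⟩) (Box.of 314094666273 (by decide +kernel))
    (by decide +kernel)

theorem cM_oM : NN (pe2 (mW.Mf.map pd) k mW.u - (mW.c2 * (pe mW.Ey mW.u * mW.bE * kq + qc mW.q * (pe mW.FP mW.u + mW.bE * kq * pe mW.FQ mW.u)) + mW.gp2 * pe mW.AM mW.u + mW.gm2 * (pe mW.AD mW.u + pe mW.AP mW.u))) :=
  NN.of (K := 212) (D := ⟨4, 19, 1, 1⟩) (Box.of 4 (by decide +kernel))
    (by decide +kernel)

theorem cM_eP : NN (mW.p2 - mW.gm2) :=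
  NN.of (K := 150) (D := ⟨3, 11, 1, 1⟩) (Box.of 18465 (by decide +kernel))
    (by decide +kernel)

theorem cM_eM : NN (mW.m2 - mW.gp2) :=
  NN.of (K := 119) (D := ⟨3, 10, 1, 1⟩) (Box.of 4 (by decide +kernel))
    (by decide +kernel)

theorem posM : mW.Pos where
  U0 := cM_U0
  U1 := cM_U1
  q0 := cM_q0
  m0 := cM_m0
  ie0 := cM_ie0
  hie := cM_hie
  y0 := cM_y0
  yu := cM_yu
  B0 := cM_B0
  Bη := cM_Bη
  ey := cM_ey
  eu := cM_eu
  er := cM_er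
  P0 := cM_P0
  M0 := cM_M0
  hFM := cM_hFM
  hFP := cM_hFP
  hFQ := cM_hFQ
  hAM := cM_hAM
  hAP := cM_hAP
  hAD := cM_hAD
  oP := cM_oP
  oM := cM_oM
  eP := cM_eP
  eM := cM_eM

end Pool.Agent.RX.RCN.K.MDat
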