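import Pool.Agent.RX.RCN.PW
import Pool.Agent.RX.RCN.T1J

/-! Certificates of `T1p pW (26 / 25)` (generated by gencert.py). -/

set_option autoImplicit false

namespace Pool.Agent.RX.RCN.K

open Set Pool.Agent.RX.RCM9 Pool.Agent.RX.RCM9.Bern Pool.Agent.RX.RCM9.Pk

theorem cT1p_m1l : NN (fm1l pW.z) :=
  NN.of (K := 115) (D := ⟨4, 1, 1, 11⟩) (Box.of 4 (by decide +kernel))
    (by decide +kernel)

theorem cT1p_m1h : NN (fm1h pW.z) :=
  NN.of (K := 114) (D := ⟨4, 1, 1, 11⟩) (Box.of 4 (by decide +kernel))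
    (by decide +kernel)

theorem cT1p_th : NN (fthC pW.z) :=
  NN.of (K := 208) (D := ⟨1, 10, 1, 11⟩) (Box.of 313054869787 (by decide +kernel))
    (by decide +kernel)

theorem cT1p_B : NN (fBC pW.z pW.g (26/25)) :=
  NN.of (K := 151) (D := ⟨1, 10, 1, 11⟩) (Box.of 18531 (by decide +kernel))
    (by decide +kernel)

theorem posT1p : T1p pW (26 / 25) where
  m1l := cT1p_m1l
  m1h := cT1p_m1h
  th := cT1p_th
  B := cT1p_B

end Pool.Agent.RX.RCN.K
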