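import Pool.Agent.RX.RCN.MGr
import Pool.Agent.RX.RCN.T1J

/-! The bounds of the exponents in the clock from polynomial inequalities
(MP_73ccd0_lc, route M). -/

namespace Pool.Agent.RX.RCN.K

open Set Finset MeasureTheory Pool.Agent.RX.RCRSHalf Pool.Agent.RX.RCG Pool.Agent.RX.RCG.Ct
open Pool.Agent.RX.RCN.Ker Pool.Agent.RX.RCRS Pool.Agent.RX.RCM9 Pool.Agent.RX.RCM9.Bern Pool.Agent.RX.RCM9.Pk

set_option linter.unusedSectionVars false

/-- the divided difference of the clock -/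
def cQ (z : HDat) : E := pe2 (dvd (pri z.mb)) HDat.rZ vT

/-- `Y` below a cube of the clock -/
def fYC (z : HDat) (y : YDat) (c : ℚ) : E := qc c * cQ z ^ 3 - pe2 y.QY HDat.rZ vT

/-- `2 N` below a square and a cube of the clock -/
def fNC (z : HDat) (y : YDat) (a b : ℚ) : E :=
  qc a * cQ z ^ 2 + qc b * (cQ z ^ 3 * (vT - HDat.rZ)) - 2 * pe2 y.QN HDat.rZ vT

/-- the inequalities -/
structure Ynp (z : HDat) (y : YDat) (c a b : ℚ) : Prop where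
  yc : NN (fYC z y c)
  nc : NN (fNC z y a b)

variable {p : Ps} {bB c a b : ℚ}

theorem Ynp.Y (h : Ynp p.z p.y c a b) {r t : ℝ} (hr : 0 ≤ r) (hrt : r ≤ t) (ht : t ≤ bt) :
    p.y.Y t r ≤ pv [0, 0, 0, c] (p.Cc t - p.Cc r) := by
  obtain ⟨u, hu, h1⟩ := YDat.at_rt h.yc hr hrt ht
  simp only [fYC, cQ, HDat.rZ, val_sub, val_pe2, val_mul, val_pow, val_vT, val_vZ, val_qc,
    hu] at h1
  have h2 := mul_nonneg (pow_nonneg (sub_nonneg.2 hrt) 3) h1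
  have h3 := pv2_dvd (pri p.z.mb) r t
  have e1 : pv [0, 0, 0, c] (p.Cc t - p.Cc r) = c * (p.Cc t - p.Cc r) ^ 3 := by
    simp only [pv]
    push_cast
    ring
  have e2 : p.Cc t - p.Cc r = (t - r) * pv2 (dvd (pri p.z.mb)) r t := h3.symm
  rw [e1, e2]
  unfold YDat.Y
  have e3 : (t - r) ^ 3 * ((c : ℝ) * pv2 (dvd (pri p.z.mb)) r t ^ 3 - pv2 p.y.QY r t)
      = c * ((t - r) * pv2 (dvd (pri p.z.mb)) r t) ^ 3 - (t - r) ^ 3 * pv2 p.y.QY r t := by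
    ring
  linarith

theorem Ynp.N (h : Ynp p.z p.y c a b) {r t : ℝ} (hr : 0 ≤ r) (hrt : r ≤ t) (ht : t ≤ bt) :
    2 * p.y.N t r ≤ pv [0, 0, a, b] (p.Cc t - p.Cc r) := by
  obtain ⟨u, hu, h1⟩ := YDat.at_rt h.nc hr hrt ht
  simp only [fNC, cQ, HDat.rZ, val_sub, val_add, val_pe2, val_mul, val_pow, val_vT, val_vZ,
    val_qc, val_two, hu] at h1
  have h2 := mul_nonneg (pow_nonneg (sub_nonneg.2 hrt) 2) h1
  have h3 := pv2_dvd (pri p.z.mb) r t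
  have e1 : pv [0, 0, a, b] (p.Cc t - p.Cc r)
      = a * (p.Cc t - p.Cc r) ^ 2 + b * (p.Cc t - p.Cc r) ^ 3 := by
    simp only [pv]
    push_cast
    ring
  have e2 : p.Cc t - p.Cc r = (t - r) * pv2 (dvd (pri p.z.mb)) r t := h3.symm
  rw [e1, e2]
  unfold YDat.N
  have e3 : (t - r) ^ 2 * ((a : ℝ) * pv2 (dvd (pri p.z.mb)) r t ^ 2
      + b * (pv2 (dvd (pri p.z.mb)) r t ^ 3 * (t - r)) - 2 * pv2 p.y.QN r t)
      = a * ((t - r) * pv2 (dvd (pri p.z.mb)) r t) ^ 2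
        + b * ((t - r) * pv2 (dvd (pri p.z.mb)) r t) ^ 3 - 2 * ((t - r) ^ 2 * pv2 p.y.QN r t) := by
    ring
  linarith

/-- **the bounds in the clock** -/
theorem T1p.ckp (h : T1p p bB) (hy : Ynp p.z p.y c a b) : Ckp p [0, 0, 0, c] [0, bB] where
  Th h0 h1 h2 := h.Th h0 h1 h2
  Y h0 h1 h2 := hy.Y h0 h1 h2
  B h0 h1 h2 := by
    refine (h.Bc h0 h1 h2).trans (le_of_eq ?_)
    show (bB : ℝ) * (p.Cc _ - p.Cc _) = _
    simp only [pv]
    push_cast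
    ring

end Pool.Agent.RX.RCN.K
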