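import Pool.Agent.RX.RCM9.DW
import Pool.Agent.RX.RCN.CkW

/-! Certificates of `Yn` (generated by gencert.py). -/

set_option autoImplicit false

namespace Pool.Agent.RX.RCN.K

open Set Pool.Agent.RX.RCN.K Pool.Agent.RX.RCM9 Pool.Agent.RX.RCM9.Bern Pool.Agent.RX.RCM9.Pk

theorem cYn_yc : NN (fYC zW yW (13 / 100)) :=
  NN.of (K := 292) (D := ⟨1, 28, 1, 28⟩) (Box.of 4 (by decide +kernel))
    (by decide +kernel)

theorem cYn_nc : NN (fNC zW yW (17 / 25) (17 / 100)) :=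
  NN.of (K := 299) (D := ⟨1, 29, 1, 29⟩) (Box.of 4 (by decide +kernel))
    (by decide +kernel)

end Pool.Agent.RX.RCN.K
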