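import Pool.Agent.RX.RCN.CkD

/-! The Bool checks of the signed direct part (MP_73ccd0_lc, route M). -/

namespace Pool.Agent.RX.RCN.K

open Pool.Agent.RX.RCM9 Pool.Agent.RX.RCM9.Bern Pool.Agent.RX.RCN.Ck1

set_option linter.unusedSectionVars false

/-- lists for the lower functions alone -/
structure Nl where
  nV : List ℚ
  nW : List ℚ
  nw : List ℚ
  n1 : List ℚ
  T2 : List ℚ

namespace Nl

/-- the value at the end of the group minus the primitive -/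
def ad (l : Yl) (h : List ℚ) : List ℚ := lsub [evq (pri h) l.Ug] (pri h)

variable (k : Nl) (l : Yl)

def ok (D : ℤ) (n : ℕ) : Bool :=
  nn D n 0 l.Ug k.nV && nn D n 0 l.Ug k.nW && nn D n 0 l.Ug k.nw && nn D n 0 l.Ug k.n1
  && nn D n 0 l.Ug (lsub k.nV (ladd (lmul (lmul l.AP l.C4l) (ad l k.nV))
    (lmul (ladd (lmul l.R l.C1l) (lmul l.AM l.C4l)) (ladd [1] (ad l k.nW)))))
  && nn D n 0 l.Ug (lsub k.nW (ladd (lmul (ladd l.R l.AM) (ad l k.nV))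
    (lmul l.AP (ladd [1] (ad l k.nW)))))
  && nn D n 0 l.Ug (lsub k.nw (ladd (ladd (lmul l.AP (ad l k.nV))
    (lmul l.AM (ladd [1] (ad l k.nW)))) (lmul l.R (ad l k.nW))))
  && nn D n 0 l.Ug (lsub k.n1 (ladd (lsmul l.b1 (ad l k.nw)) (lmul l.x3l
    (ladd (lmul l.AP (ad l k.nV)) (lmul l.AM (ladd [1] (ad l k.nW)))))))
  && nn D n 0 l.Ug (lsub k.T2 (lmul (lmul (cmpl Mh l.dl) (e4l l.z))
    (ladd (lmul (ad l k.nV) l.Gm) (lmul (ladd [1] (ad l k.nW)) l.Gp))))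
  && nn D n 0 l.Ug (pd k.T2) && nn D n 0 l.Ug (pd l.R)

end Nl

/-- the bound of `1 - T` in the clock; `nb` bounds twice the lower function of level 0 -/
def ol (nb : List ℚ) : List ℚ := lsub nb (lsmul (1 / 4) (lmul nb nb))

/-- lists of a numeric cell -/
structure Dl where
  Ca : ℚ
  Cv : ℚ
  k1 : ℚ
  ks : ℚ
  dd : ℚ
  kp : ℚ
  e : List ℚ
  j1 : List ℚ
  nu : List ℚ
  k2 : List ℚ
  dR : List ℚ

namespace Dl

def l3 (z : List ℚ) : List ℚ :=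
  lsub (ladd [1] (lsmul (1 / 2) (lmul z z))) (ladd z (lsmul (1 / 6) (lmul z (lmul z z))))

variable (c : Dl) (l : Yl) (k : Nl) (nb la : List ℚ)

def rev : List ℚ := [c.Cv, -1]

def Rh : List ℚ := cmpl l.R c.rev

def W2 : List ℚ := pri (pri (c.Rh l))

def om : List ℚ := cmpl (ol nb) c.rev

def zl : List ℚ := lsub (ladd [1] (c.om nb)) (lsmul (2 * c.ks) c.e)

def j2 : List ℚ := lsub (ladd [1] (c.om nb)) (lsmul c.k1 c.e)

def ν1 : ℚ := l.b1 / 2 * evq (c.W2 l) c.Cv + evq (pri k.n1) c.Cv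

def LE : List ℚ := pri (lmul la c.e)

def J : List ℚ := lsub (pri c.j1) (lmul (lsmul 2 (lsub c.k2 [c.ks])) (c.LE la))

def nuB : List ℚ := ladd (lsmul (l.b1 / 2) (c.W2 l)) (cmpl k.T2 c.rev)

def ok (D : ℤ) (n : ℕ) : Bool :=
  decide (0 ≤ c.Ca) && decide (c.Ca < c.Cv) && decide (c.Cv ≤ l.Ug) && decide (0 ≤ c.ks)
  && decide (evq c.e 0 ≤ 1) && decide (0 ≤ c.ν1 l k)
  && decide (c.k1 ≤ 1 - c.ν1 l k + (c.ν1 l k) ^ 2 / 2 - (c.ν1 l k) ^ 3 / 6)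
  && nn D n 0 c.Cv c.e && nn D n 0 c.Cv (lsub (lsmul (-1) (pd c.e)) (lmul (c.Rh l) c.e))
  && (decide (c.Ca = 0) || nn D n 0 c.Ca (lsub (lsmul 2 c.nu)
    (ladd [c.ν1 l k + evq (pri k.n1) c.Cv] (lsub (c.nuB l k) (cmpl (pri k.n1) [c.Ca, -1])))))
  && nn D n c.Ca c.Cv (lsub (lsmul 2 c.nu) (ladd [c.ν1 l k + evq (pri k.n1) c.Cv] (c.nuB l k)))
  && nn D n 0 c.Cv c.nu
  && nn D n 0 c.Cv (lsub (l3 c.nu) c.k2) && nn D n 0 c.Cv (lsub c.k2 [c.ks])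
  && nn D n 0 c.Cv (lsub c.j1 (c.zl nb)) && nn D n 0 c.Cv (lsub c.j1 (lmul la (c.zl nb)))
  && nn D n 0 c.Cv (c.j2 nb) && nn D n 0 c.Cv (lsub (lsmul c.k1 c.e) (c.om nb))
  && nn D n 0 c.Cv (lsub [c.dd] (c.J la))
  && nn D n 0 c.Cv (lsub c.dR (ladd (c.J la)
    (lsub [evq (pri (c.j2 nb)) c.Cv] (pri (c.j2 nb)))))
  && nn D n 0 c.Cv c.dR
  && decide (c.dd + (c.Cv - c.Ca) * evq (ol nb) (c.Cv - c.Ca) ≤ c.kp)

end Dl

end Pool.Agent.RX.RCN.K
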