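import Pool.Agent.RX.RCN.CkL_1

/-! The Bool checks of the signed direct part (MP_73ccd0_lc, route M). -/

namespace Pool.Agent.RX.RCN.K

open Pool.Agent.RX.RCM9 Pool.Agent.RX.RCM9.Bern Pool.Agent.RX.RCN.Ck1

set_option linter.unusedSectionVars false

namespace Nl

variable (k : Nl) (l : Yl)

end Nl

namespace Dl

variable (c : Dl) (l : Yl) (k : Nl) (nb la : List ℚ)

end Dl

/-- the checks; `U` is the end of the clock, `mb` the clock rate, `lo` the lower bound of the
hazards -/
def dnsOk (mb lo nb la : List ℚ) (U T : ℚ) (D : ℤ) (n : ℕ) : Bool :=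
  nn D n 0 U (pd (ol nb)) && nn D n 0 U (lsub [2] nb) && nn D n 0 U la
  && nn D n 0 U (lsub [1] la) && nn D n 0 T (lsub lo (lmul (cmpl la (pri mb)) mb))
  && nn D n 0 T (lsub mb lo)

end Pool.Agent.RX.RCN.K
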