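import Pool.Agent.RX.RCN.CkL_1
import Pool.Agent.RX.RCN.CkP
import Pool.Agent.RX.RCN.CkZ

/-! The structures and the checks (Bool) of the inequality of the pairs, second form of the
closures (MP_73ccd0_lc, route M). -/

set_option autoImplicit false

namespace Pool.Agent.RX.RCN.K

open Pool.Agent.RX.RCM9 Pool.Agent.RX.RCN.Ck1

/-- the lists of the columns of a group -/
structure Zl where
  y : Yz
  j : Yv
  n : Yv

/-- bounds of the decrease of the functions -/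
structure En where
  e : ℚ
  jV : ℚ
  jU : ℚ
  j1 : ℚ
  nV : ℚ
  nU : ℚ
  n1 : ℚ
  gV : ℚ
  gW : ℚ
  g1 : ℚ

/-- the shifted function for all ends in an interval of length `w` -/
def sh2 (f : List ℚ) (e U w : ℚ) : List ℚ := ladd (shl f U) [e * w]

/-- the integral over the last piece for all ends -/
def dd2 (f : List ℚ) (e U w : ℚ) : List ℚ := ladd (ddl f U) [0, e * w]

/-- the second integral for all ends -/
def sc2 (b : ℚ) (f : List ℚ) (e U w : ℚ) : List ℚ := ladd (scl b f U) [0, 0, b * e * w / 2]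

/-- the value at the end for all ends -/
def ue2 (f : List ℚ) (e U w : ℚ) : ℚ := evq f U + e * w

/-- the checks of the gauge at the end -/
def Yl.okR (l : Yl) (U : ℚ) (κ : List ℚ) (D : ℤ) (n : ℕ) : Bool :=
  decide (0 < U) && (decide (U ≤ l.Ug) && (decide (evq l.z U + evq l.dl U ≤ 1)
    && (decide (0 ≤ evq l.z U) && (decide (0 ≤ evq l.dl U)
    && (cvx l.z && (cvx (ladd l.z l.dl)
    && nn D n 0 1 (lsub κ (e4l [evq l.z U, evq l.dl U]))))))))

namespace Zl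

variable (z : Zl) (l : Yl) (gk : List ℚ) (m : En) (kp U w : ℚ) (dR κ : List ℚ)

/-- the checks of the lists of a group -/
def ok (D : ℤ) (n : ℕ) : Bool :=
  z.y.ok l D n && (z.j.ok l z.y 0 0 (z.y.p1 l) z.y.p2 D n && z.n.ok l z.y 1 0 [] [] D n)

/-- the functions which decrease at most at the rate `e` -/
def fin : List (List ℚ) := [l.μ1, l.R, l.Gm, l.Gp, l.VT, l.UT, l.WT, z.y.VP, z.y.UP, z.y.WP]

/-- the checks of the decrease -/
def okN (D : ℤ) (n : ℕ) : Bool :=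
  decide (0 ≤ m.e) && (((z.fin l).all fun f => nn D n 0 l.Ug (ladd (pd f) [m.e]))
  && ([(z.j.rV, m.jV), (z.j.rU, m.jU), (z.j.r1, m.j1), (z.n.rV, m.nV), (z.n.rU, m.nU),
    (z.n.r1, m.n1), (l.hV, m.gV), (l.hW, m.gW), (l.h1, m.g1)].all fun f =>
      decide (0 ≤ f.2) && nn D n 0 l.Ug (ladd (pd f.1) [f.2])))

/-- the columns of the deleted closure -/
def q1 : List (List ℚ) :=
  lad2 (otr κ (sc2 l.b1 l.μ1 m.e U w)) (lad2
    (otr (Xl.El κ) (dd2 z.n.r1 m.n1 U w)) (lad2 (otr gk [1])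
    [ladd [ue2 z.y.WP m.e U w + ue2 z.y.UP m.e U w + kp] (dd2 z.j.r1 m.j1 U w)]))

/-- the rows of the deleted closure -/
def q2 : List (List ℚ) :=
  lad2 (otr κ [ue2 l.WT m.e U w]) (lad2 (otr (Xl.El κ) [ue2 l.UT m.e U w]) (lad2 (otr gk [1])
    [ladd [kp] (ladd (sc2 l.b1 l.R m.e U w) (dd2 l.h1 m.g1 U w))]))

def c3 : List ℚ :=
  ladd (lmul (dd2 z.j.rV m.jV U w) (sh2 l.Gm m.e U w))
    (ladd (lmul (dd2 z.j.rU m.jU U w) (sh2 l.Gp m.e U w)) (sh2 z.y.VP m.e U w))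

def n3 : List ℚ :=
  ladd (lmul (dd2 z.n.rV m.nV U w) (sh2 l.Gm m.e U w))
    (lmul (ladd [1] (dd2 z.n.rU m.nU U w)) (sh2 l.Gp m.e U w))

def w4 : List ℚ :=
  ladd (lmul (dd2 l.hV m.gV U w) (sh2 l.Gm m.e U w))
    (ladd (lmul (ladd [1 + l.dlt] (dd2 l.hW m.gW U w)) (sh2 l.Gp m.e U w)) (sh2 l.VT m.e U w))

/-- the columns of the released closure -/
def q3 : List (List ℚ) :=
  lad2 [ladd dR (z.c3 l m U w)] (lad2 (otr (Xl.El κ) (z.n3 l m U w)) (z.q1 l gk m kp U w κ))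

/-- the rows of the released closure -/
def q4 : List (List ℚ) :=
  lad2 [dR] (lad2 (lad2 (otr [1, 3 / 5] (lmul [0, 1 / U] (w4 l m U w)))
      (otr (Xl.El κ) (lmul [1, -1 / U] (w4 l m U w)))) (q2 l gk m kp U w κ))

end Zl

/-- the data of a numeric cell -/
structure Cq where
  c : Pt
  Kc : ℚ
  κ : List ℚ
  U : ℚ
  Ua : ℚ
  kp : ℚ
  dR : List ℚ
  gk : List ℚ

namespace Cq

variable (y : Cq) (l : Yl) (z : Zl) (m : En)

/-- the polynomial rows of a numeric cell -/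
def pc : Pc where
  K := y.c.K
  U := y.U
  l1 := z.q1 l y.gk m y.kp y.U (y.U - y.Ua) y.κ
  l2 := Zl.q2 l y.gk m y.kp y.U (y.U - y.Ua) y.κ
  h1 := z.q3 l y.gk m y.kp y.U (y.U - y.Ua) y.dR y.κ
  h2 := Zl.q4 l y.gk m y.kp y.U (y.U - y.Ua) y.dR y.κ

/-- the checks of a numeric cell -/
def ok (GR : List (List ℚ)) (T : T1l) (N : ℕ) (w : Pg) (Ug : ℚ) (kp : List ℚ) (D : ℤ) (n : ℕ) :
    Bool :=
  decide (0 < y.Ua) && (decide (y.Ua ≤ evq T.Cl (y.c.α + btq / N))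
  && (decide (evq T.Cl y.c.τ ≤ y.U) && (decide (y.c.τ ≤ btq) && (decide (0 ≤ y.kp)
  && (l.okR y.U y.κ D n && ((y.pc l z m).ok w y.c.n Ug && (nn D n 0 y.U y.dR
  && (y.c.ok T D n && (nn D n y.c.α y.c.τ (lsub kp [y.Kc])
  && (nn D n 0 1 (lsub y.gk (at2 GR y.U)) && nn D n 0 1 y.gk))))))))))

/-- the direct part of the cell -/
def okD (d : Dl) (D : ℤ) (n : ℕ) : Bool :=
  decide (d.kp ≤ y.kp) && nn D n 0 d.Cv (lsub y.dR d.dR)

end Cq

/-- a three-term list of lists increases in the second variable -/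
def inc3 (GR : List (List ℚ)) (U : ℚ) (D : ℤ) (n : ℕ) : Bool :=
  match GR with
  | [a, b, c] => nn D n 0 U (pd a) && (nn D n 0 U (pd b) && nn D n 0 U (ladd (pd b) (pd c)))
  | _ => false

/-- the checks of the sums -/
def Pl.okB (y : Pl) (c : Cq) (l : Yl) (z : Zl) (m : En) (U la lb : ℚ) (D : ℤ)
    (n : ℕ) : Bool :=
  decide (0 < U) && (decide (U ≤ c.U) && (decide (c.Ua ≤ U)
  && (nn D n 0 1 (lsub y.R1 (at2 (c.pc l z m).l1 U))
  && (nn D n 0 1 (lsub y.R2 (at2 (c.pc l z m).l2 U))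
  && (!y.ps.isEmpty && plok D n y.R1 la lb 0 y.ps)))))

end Pool.Agent.RX.RCN.K
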