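import Pool.Agent.RX.RCN.CkD

/-! The structures and the checks (Bool) of the numeric cells of the first part, second form:
quadratic bounds of the rows, joint bound of amplification and direct error
(MP_73ccd0_lc, route M). -/

set_option autoImplicit false

namespace Pool.Agent.RX.RCN.K

open Pool.Agent.RX.RCM9 Pool.Agent.RX.RCN.Ck1

/-- the numbers of a cell, second form -/
structure T1q where
  α : ℚ
  τ : ℚ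
  kv : ℚ
  K : ℚ
  Cv : ℚ
  Y : ℚ
  δ : ℚ
  eY : ℚ
  ω : ℚ
  oA : ℚ
  oP : ℚ
  cw : ℚ
  M2 : ℚ
  v0 : ℚ
  mM : ℚ
  ωH : ℚ
  IA : ℚ
  x1 : ℚ
  x20 : ℚ
  x21 : ℚ
  x22 : ℚ
  y20 : ℚ
  y21 : ℚ
  y22 : ℚ
  α0 : ℚ
  mt : ℚ
  CC : ℚ
  a1 : ℚ
  a2 : ℚ
  b1 : ℚ
  b2 : ℚ
  e0 : ℚ
  e1 : ℚ
  ε0 : ℚ
  g0 : ℚ
  g1 : ℚ
  g2 : ℚ
  h0 : ℚ
  h1 : ℚ
  h2 : ℚ
  RA : ℚ
  RH : ℚ
  EA : ℚ
  EH : ℚ
  c0 : ℚ
  c1 : ℚ
  k1 : ℚ

namespace T1q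

variable (l : T1l) (c : T1q) (D : ℤ) (n m : ℕ)

/-- the bounds of the rows as polynomials in the clock -/
def X2 : List ℚ := [c.x20, c.x21, c.x22]

def Y2 : List ℚ := [c.y20, c.y21, c.y22]

/-- the bound of the entries at `u = 0` -/
def q0 : ℚ := c.EA + (1 + c.τ / 2) * c.EH

/-- the bracket of the last condition, as a polynomial in `u` -/
def fb : List ℚ :=
  lmul [1, c.τ] (ladd (ladd [c.a1 + c.a2] (lsmul (c.b1 + c.b2) (lmul [1, -1] (lmul [1, c.τ]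
    (ladd [c.EA] (lmul [1, -1] [(1 + c.τ / 2) * c.EH]))))))
    (lsmul c.CC (ladd [c.RA] (lmul [1, -1] [(1 + c.τ / 2) * c.RH]))))

/-- `z α (1 + γ (1 - z))` -/
def y0l : List ℚ := lmul [0, c.α0] [1 + c.τ, -c.τ]

/-- `z α (1 + 2 γ (1 - z))` -/
def y2l : List ℚ := lmul [0, c.α0] [1 + 2 * c.τ, -(2 * c.τ)]

/-- `(1 - p) ^ 2` -/
def sq1 (p : List ℚ) : List ℚ := lmul (lsub [1] p) (lsub [1] p)

/-- the checks of the numbers -/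
def okN : Bool :=
  decide (0 ≤ c.α) && decide (c.α < c.τ) && decide (1 ≤ c.kv)
  && decide ((1 + l.ee * c.τ) * c.kv ≤ c.K) && decide (evq l.Cl c.τ ≤ c.Cv)
  && decide (c.τ ^ 3 * evq l.Yl c.τ ≤ c.Y)
  && decide (0 ≤ c.Y) && decide (c.Y ≤ 1) && decide (0 ≤ c.δ) && decide (c.δ ≤ 1)
  && decide (c.Cv ≤ c.Y + c.δ)
  && decide (e4q c.Y ≤ c.eY) && decide (0 ≤ c.cw) && decide (c.eY * (c.eY * e4q c.δ) ≤ c.M2)
  && decide (0 ≤ c.v0) && decide (c.v0 ≤ 1) && decide (c.mM * (1 - c.v0) ≤ 1)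
  && decide (c.eY * e4q (c.v0 * c.δ) ≤ c.ωH)
  && decide (l.bB * (c.Cv * c.τ - evq l.IC c.τ) ≤ c.IA) && decide (0 ≤ c.x1)
  && decide (evq l.P0 c.τ ≤ c.g0)
  && decide (c.x20 * evq l.P0 c.τ + c.x21 * evq l.S0 c.τ + c.x22 * evq l.G2 c.τ ≤ c.g1)
  && decide (evq l.G2 c.τ ≤ c.g2) && decide (evq l.H0 c.τ ≤ c.h0)
  && decide (c.y20 * evq l.H0 c.τ + c.y21 * evq l.HC c.τ + c.y22 * evq l.H2 c.τ ≤ c.h1)
  && decide (evq l.H2 c.τ ≤ c.h2)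

def okM : Bool :=
  decide (c.K * c.g0 ≤ c.α0)
  && decide (c.α0 * (1 + c.τ / 2) ≤ c.mt) && decide (c.mt < 1)
  && decide (c.mt * c.τ ≤ 1 - c.mt + c.τ / 4) && decide (c.α0 * (1 + c.τ) < 1)
  && decide (0 ≤ c.CC)
  && decide (c.kv * evq l.P0 c.τ - evq l.Q0 c.τ ≤ c.e0)
  && decide (c.kv * evq l.P1 c.τ - evq l.P2 c.τ ≤ c.e1)
  && decide (0 ≤ c.e1) && decide (0 ≤ c.e0)
  && decide ((1 + l.ee * c.τ) * (c.e0 + c.e1 / 2) ≤ c.ε0)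
  && decide (0 ≤ c.RA) && decide (0 ≤ c.RH) && decide (0 ≤ c.EA) && decide (0 ≤ c.EH)
  && decide ((c.ω * (c.eY * c.IA) + c.x1) * c.α0
    + c.K * (c.M2 * (l.bB / 2) * c.g2 + c.g1) ≤ c.RA)
  && decide (c.K * (c.ωH * (c.eY * c.IA) * c.h0 + c.M2 * (l.bB / 2) * c.h2 + c.h1) ≤ c.RH)
  && decide ((c.oA * (l.bB / 2 * c.Cv ^ 2) + c.x1) * c.α0
    + c.K * (c.g1 + l.cE * (c.oP * (1 + c.cw)) * (l.bB / 2) * c.g2) ≤ c.EA)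
  && decide (c.K * (c.mM * (c.oA * (l.bB / 2 * c.Cv ^ 2) * c.h0
    + c.oP * (1 + c.cw) * (l.bB / 2) * c.h2) + c.h1) ≤ c.EH)
  && decide (0 ≤ c.c0) && decide (0 ≤ c.c1)

/-- the numbers of the joint bound -/
def okA : Bool :=
  decide (0 ≤ c.a1) && decide (0 ≤ c.a2) && decide (0 ≤ c.b1) && decide (0 ≤ c.b2)
  && decide (2 * c.α0 * c.τ ≤ 1 - c.α0)
  && decide (2 * c.α0 * c.τ ≤ 1 - c.α0 * (1 + (2 * c.τ - 1) / 4))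
  && decide (c.ε0 ≤ c.a1 * (1 - c.α0) ^ 2)

/-- the checks of the polynomials -/
def okP : Bool :=
  nn D n 0 1 (lsub [c.ω] (lmul (lmul [1, -1] [1, c.τ]) (lsmul c.eY (e4 c.δ))))
  && nn D n 0 1 (lsub [c.oA] (lmul (lmul [1 / 2, -1 / 4] [1, c.τ])
    (lsmul (c.eY * c.eY) (e4 c.δ))))
  && nn D n 0 1 (lsub [c.oP] (lmul [1 / 2, -1 / 4] (lsmul (c.eY * c.eY) (e4 c.δ))))
  && nn D n 0 1 (lsub [1 + c.cw] (lmul [1, c.τ] [1, -1 / 2]))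
  && nn D n 0 c.τ (lsub [c.mM] l.mb)
  && nn D n 0 1 (lsub (lsmul c.CC (lmul [6, -3] [1, -c.mt])) [6, -6, 1])
  && nn D m 0 (1 / 2) (lsub [c.k1] (lmul [c.c0, c.c1] c.fb))
  && nn D m (1 / 2) 1 (lsub [c.k1] (lmul [c.c0 + c.c1 / 2] c.fb))
  && nn D 4 0 c.Cv c.X2 && nn D 4 0 c.Cv c.Y2

/-- the checks of the joint bound -/
def okQ : Bool :=
  nn D n 0 1 (lsub (lsmul (c.a1 + c.b1 * c.q0) (sq1 [0, c.α0]))
    (ladd [c.ε0] (lsmul (c.CC * c.q0) (lmul (lmul [c.α0] [2, -c.α0]) [1, -1]))))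
  && nn D n 0 1 (lsub (lmul [c.a2, c.a1 - c.a2] (sq1 c.y2l))
    (lmul [0, c.ε0] [1 + c.τ, -c.τ]))
  && nn D n 0 1 (lsub (lmul [c.a2 + c.b2 * c.q0, (c.a1 + c.b1 * c.q0) - (c.a2 + c.b2 * c.q0)]
      (lmul (sq1 c.y0l) (sq1 c.y2l)))
    (lmul [0, 1] (ladd (lmul (lsmul c.ε0 [1 + c.τ, -c.τ]) (sq1 c.y0l))
      (lmul (lsmul (c.CC * c.q0) (lmul (lmul (lsmul c.α0 [1 + c.τ, -c.τ]) (lsub [2] c.y0l))
        [1, -1])) (sq1 c.y2l)))))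

/-- the checks on the cell -/
def okC (σ : ℚ) (j : ℕ) : Bool :=
  nn D j c.α c.τ (lsub [c.kv] l.kc)
  && nn D j c.α c.τ (lsub [c.c0, c.c0] l.be0)
  && nn D j c.α c.τ (lsub [c.c1, c.c1] (ladd l.be1 (lsub [1] l.be0)))
  && nn D j c.α c.τ (lsub [c.α0] l.al)
  && nn D j c.α c.τ (lsub (lsmul σ l.kt) [c.k1])

def ok (σ : ℚ) (j : ℕ) : Bool :=
  c.okN l && c.okM l && c.okA && c.okP l D n m && c.okQ D n && c.okC l D σ j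

end T1q

namespace X1k

variable (e : X1k) (l : Rl) (c : T1q)

/-- the part without gauge -/
def rBq : List ℚ :=
  ladd [l.dd] (ladd (lsub [evq (pri l.D2) c.Cv] (pri l.D2)) (lsub [evq (pri l.h1) c.Cv] (pri l.h1)))

/-- the part of the released closure -/
def rTq : List ℚ :=
  ladd (lmul (lsub [evq (pri l.hV) c.Cv] (pri l.hV)) l.Gm)
    (ladd (lmul (lsub [1 + l.dlt + evq (pri l.hW) c.Cv] (pri l.hW)) l.Gp) l.VT)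

/-- `Q (Cv - u - d) + min (0, Q₂) w²`, for a quadratic `Q` -/
def shq (Cv w d : ℚ) (a b g : ℚ) : List ℚ :=
  ladd [min 0 g * w ^ 2 - d * b] (ladd (cmpl [a, b, g] [Cv, -1]) (lsmul (-(2 * d * g)) [Cv, -1]))

/-- the checks -/
def okq (D : ℤ) (n : ℕ) : Bool :=
  decide (0 ≤ e.Ca) && decide (e.Ca ≤ c.Cv) && decide (0 < c.Cv) && decide (c.Cv ≤ l.Ug)
  && decide (0 ≤ e.Am) && decide (0 ≤ c.τ) && decide (c.τ ≤ 1)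
  && decide (0 ≤ e.k0) && decide (0 ≤ c.mM) && decide (0 ≤ e.W) && decide (0 ≤ e.κ0)
  && decide (0 ≤ c.v0)
  && decide (evq l.Gm0 c.Cv + ((1 + evq (pri l.D1) c.Cv) * evq l.UT c.Cv
    + evq (pri l.D1) c.Cv * evq l.WT c.Cv) ≤ e.Am)
  && decide (evq l.dl c.Cv + c.τ / (1 + c.τ * e.k0) ≤ 3 / 2)
  && decide (1 + c.τ * e.k0 ≤ e.κ0 * (1 + c.τ * e.k0 / (1 + c.τ * e.k0)
    + (c.τ * e.k0 / (1 + c.τ * e.k0)) ^ 2 / 2))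
  && decide (e4q (evq l.z c.Cv) * evq Mh (evq l.dl c.Cv + c.τ / (1 + c.τ * e.k0)) * e.κ0 * e.Am
    ≤ c.x1)
  && decide (evq l.z c.Cv + c.v0 * evq l.dl c.Cv ≤ 1)
  && decide ((1 + 3 / 5 * c.v0) * e4q (evq l.z c.Cv + c.v0 * evq l.dl c.Cv) ≤ e.W)
  && decide (c.mM * (e4q (evq l.z c.Cv) * evq Mh (evq l.dl c.Cv)) ≤ e.W)
  && nn D 4 0 c.Cv c.X2
  && nn D n 0 c.Cv (lsub (shq c.Cv (c.Cv - e.Ca) 0 c.x20 c.x21 c.x22) (rBq l c))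
  && nn D n 0 c.Cv (lsub (shq c.Cv (c.Cv - e.Ca) (c.Cv - e.Ca) c.x20 c.x21 c.x22) (rBq l c))
  && nn D n 0 c.Cv (lsub (shq c.Cv (c.Cv - e.Ca) 0 (c.y20 - c.x20) (c.y21 - c.x21)
      (c.y22 - c.x22)) (ladd l.dr (lmul [e.W] (ladd [e.Am] (rTq l c)))))
  && nn D n 0 c.Cv (lsub (shq c.Cv (c.Cv - e.Ca) (c.Cv - e.Ca) (c.y20 - c.x20) (c.y21 - c.x21)
      (c.y22 - c.x22)) (ladd l.dr (lmul [e.W] (ladd [e.Am] (rTq l c)))))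

end X1k

end Pool.Agent.RX.RCN.K
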