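import Pool.Agent.RX.RCE.BqC
import Pool.Agent.RX.RCE.CkOf
import Pool.Agent.RX.RCN.DnP_1
import Pool.Agent.RX.RCN.GapD
import Pool.Agent.RX.RCN.MGr
import Pool.Agent.RX.RCN.Top_2

/-! The density bound for the symbolic certificate (MP_73ccd0_lc, route M). -/

set_option autoImplicit false
set_option linter.unusedSectionVars false

namespace Pool.Agent.RX.RCM9.Dat

open Set Bern Pk Pool.Agent.RX.RCN.K Pool.Agent.RX.RCE

variable (d : Dat)

variable {d}

end Pool.Agent.RX.RCM9.Dat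

namespace Pool.Agent.RX.RCN.K

open Set Finset MeasureTheory Pool.Agent.RX.RCRSHalf Pool.Agent.RX.RCG Pool.Agent.RX.RCG.Ct
open Pool.Agent.RX.RCN.Ker Pool.Agent.RX.RCRS Pool.Agent.RX.RCE
open Pool.Agent.RX.RCM9 Pool.Agent.RX.RCM9.Bern Pool.Agent.RX.RCM9.Pk

/-- what the density bound needs from the generated numbers -/
structure DnC (p : Ps) (g : GDat) (y : List ℚ) (u : UDat) (q : TDat) : Prop where
  M : p.d.PosM
  uP : u.Pos
  uB : u.Bd
  qP : q.Pos u
  qB : q.Bd u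
  bq : q.BPos p.d.be0 p.d.be1
  bt : q.bt = btq
  mb : q.mb = p.z.mb
  kc : q.kc = g.kc
  ke : q.ke = g.ke
  ck : Ckp p y u.be

variable {V : Type} [Fintype V] [DecidableEq V]
variable {Gr : SimpleGraph V} [Fintype Gr.edgeSet] [DecidableEq Gr.edgeSet]

/-- **the density bound of the certified processes** -/
theorem dn_all {p : Ps} (hp : p.Ok) {g : GDat} {y : List ℚ} {u : UDat} {q : TDat}
    (h : DnC p g y u q) {x : Gr.edgeSet → ℝ} (hx : IsFractionalMatching Gr x) (C : Cx (V ⊕ V))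
    (hlo : C.lo = pv p.lo) (cκ : ∀ w, CN C.N (g.kd p.d w))
    (κP : ∀ w ∈ Icc (0 : ℝ) 1, ∀ t s, 0 ≤ s → s ≤ t → t ≤ bt → p.d.rPe w t ≤ g.kd p.d w t s)
    (hw : Wr (p.da (g.kd p.d) C).T.ek.kd (xe x) (P0 V) ((p.da (g.kd p.d) C).w x)) :
    Dn (p.da (g.kd p.d) C) x := by
  intro h' H t hCp hle hHle a b ha hb hab _ d hd hbd s hs
  have hwt := wt_xe hx zero_le_one le_rfl fun e => (hx.1 e).2
  have hD := da_ok hp hlo cκ κP
  have hbt : (q.bt : ℝ) = bt := by rw [h.bt]; rfl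
  have hT : p.d.dt.Ok := Dat.ok hp.d hp.b
  have hZ := hp.z.ok hp.d
  have hC : q.C = p.Cc := by
    funext r
    show pv (pri q.mb) r = pv (pri p.z.mb) r
    rw [h.mb]
  have key := dn_core (T := p.d.dt) (b0 := pv p.d.be0) (b1 := pv p.d.be1) (Pe := p.d.rPe)
    (Pt := p.d.rP) (Z := p.z.hz) (B := p.g.rB) (E1 := p.g.rE1) (sl := p.d.rsig) (u := u) (q := q)
    (h := h') (H := H) (t := t) (w := (p.da (g.kd p.d) C).w x)
    hT (Dat.kok hp.k) hwt hw (Dt.cor hx hT hw)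
    (h.M.ld hT hp.k.ee0) hp.g.cf hZ h.uP h.uB h.qP h.qB (fun r hr => ?_) (fun r hr => ?_)
    (h.bq.ok (by rw [h.bt]; exact btq_nn')) hCp.1 (by rw [hbt]; exact hCp.1.ht.2) hle hHle
    ha hb hab hd hbd hs
  · rw [h.kc, h.ke] at key
    have e : (p.da (g.kd p.d) C).κd (xe x a b + xe x a d) t s
        = (1 + (xe x a b + xe x a d) * t) * (1 + (p.d.ee : ℝ) * t)
          * (pv g.kc t * pv g.ke s) := rfl
    rw [e]
    exact key
  · rw [hbt] at hr
    have hmb : (pv q.mb : ℝ → ℝ) = pv p.z.mb := by rw [h.mb]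
    rw [hC, hmb]
    refine ck_of hZ (fun z _ => p.hasDerivAt_Cc z) (continuous_pv _).continuousOn
      (fun z hz => hp.z.mb_one hz) (fun z hz t ht => hp.z.rr_mb hz ht) (tU := bt) le_rfl ?_
      (fun _ => rfl) (fun r t h0 h1 h2 => h.ck.B h0 h1 h2) r hr
    have h3 : (evq q.Cl q.bt : ℝ) ≤ (u.U0 : ℝ) := by exact_mod_cast h.qB.CU
    have h4 : p.Cc bt = (evq q.Cl q.bt : ℝ) := by
      rw [← hC, ← hbt]
      exact pv_evq _ _
    have h5 : p.Cc 0 = 0 := pri_zero _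
    rw [h4, h5, sub_zero]
    exact h3
  · unfold KDat.rB
    exact ((continuous_const.sub continuous_id).mul
      ((continuous_pv2' p.g.QB).comp (continuous_id.prodMk continuous_const))).continuousOn

end Pool.Agent.RX.RCN.K
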