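import Pool.Agent.RX.RCE.T55v
import Pool.Agent.RX.RCN.CertLd
import Pool.Agent.RX.RCN.DnP_2
import Pool.Agent.RX.RCN.GW
import Pool.Agent.RX.RCN.PW

/-! The density part of the data set of the assembly (MP_73ccd0_lc, route M). -/

set_option autoImplicit false

namespace Pool.Agent.RX.RCN.K

open Pool.Agent.RX.RCM9 Pool.Agent.RX.RCE

/-- **the certificates of the density theorem** -/
theorem dnC_of {y : List ℚ} (hc : Ckp pW y [0, 26 / 25]) : DnC pW gW y U55v.u T55v.t where
  M := Dat.posLd
  uP := U55v.pos
  uB := U55v.bd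
  qP := T55v.tpos
  qB := T55v.tbd
  bq := T55v.bpos
  bt := by decide +kernel
  mb := by decide +kernel
  kc := by decide +kernel
  ke := by decide +kernel
  ck := hc

end Pool.Agent.RX.RCN.K
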