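import Pool.Agent.RX.RCN.CertGr
import Pool.Agent.RX.RCN.CertYn
import Pool.Agent.RX.RCN.PW

/-! The families of all cells for the data set (MP_73ccd0_lc, route M). -/

set_option autoImplicit false

namespace Pool.Agent.RX.RCN.K

open Set Pool.Agent.RX.RCRSHalf Pool.Agent.RX.RCG Pool.Agent.RX.RCG.Ct Pool.Agent.RX.RCM9
open Pool.Agent.RX.RCM9.Bern Pool.Agent.RX.RCM9.Pk

/-- the inequalities of the exponents in the clock -/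
theorem ynW : Ynp zW yW (13 / 100) (17 / 25) (17 / 100) where
  yc := cYn_yc
  nc := cYn_nc

/-- the groups satisfy their conditions -/
theorem grW_ok : ∀ r ∈ grpW, r.Ok mW zW 1100 := by
  have h : ∀ r : MGr, (0 ≤ r.m ∧ r.m ≤ mW.m ∧ r.q ≤ mW.q ∧ r.m ≤ 1 ∧
      1 + r.m / 2 + r.m ^ 2 / 6 + r.m ^ 3 / 19 ≤ r.q ∧ 0 < r.U ∧ r.U ≤ mW.U ∧ r.n ≤ 1100 ∧
      ev (pri zW.mb) (RCN.btq * (r.n / (1100 : ℕ))) ≤ r.U) →
      NN (qc r.m - 2 * (MDat.l * pe2 mW.Pf MDat.k (qc r.U * vZ))) → r.Ok mW zW 1100 :=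
    fun r h hn => ⟨h.1, h.2.1, h.2.2.1, h.2.2.2.1, h.2.2.2.2.1, h.2.2.2.2.2.1, h.2.2.2.2.2.2.1,
      h.2.2.2.2.2.2.2.1, h.2.2.2.2.2.2.2.2, hn⟩
  have key : ∀ r ∈ grpW, (0 ≤ r.m ∧ r.m ≤ mW.m ∧ r.q ≤ mW.q ∧ r.m ≤ 1 ∧
      1 + r.m / 2 + r.m ^ 2 / 6 + r.m ^ 3 / 19 ≤ r.q ∧ 0 < r.U ∧ r.U ≤ mW.U ∧ r.n ≤ 1100 ∧
      ev (pri zW.mb) (RCN.btq * (r.n / (1100 : ℕ))) ≤ r.U) := by decide +kernel
  intro r hr
  refine h r (key r hr) ?_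
  simp only [grpW, List.mem_cons, List.not_mem_nil, or_false] at hr
  rcases hr with rfl | rfl | rfl | rfl | rfl | rfl | rfl | rfl | rfl | rfl | rfl | rfl | rfl | rfl | rfl | rfl | rfl | rfl |
    rfl | rfl | rfl | rfl | rfl | rfl | rfl | rfl | rfl | rfl
  exacts [cGr_nn0, cGr_nn1, cGr_nn2, cGr_nn3, cGr_nn4, cGr_nn5, cGr_nn6, cGr_nn7, cGr_nn8, cGr_nn9,
    cGr_nn10, cGr_nn11, cGr_nn12, cGr_nn13, cGr_nn14, cGr_nn15, cGr_nn16, cGr_nn17, cGr_nn18,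
    cGr_nn19, cGr_nn20, cGr_nn21, cGr_nn22, cGr_nn23, cGr_nn24, cGr_nn25, cGr_nn26, cGr_nn27]

/-- the groups cover all cells -/
theorem grW_all : (grpW.any fun r => decide (1100 ≤ r.n)) = true := by decide +kernel

theorem ckW (hq : T1p pW (26 / 25)) : Ckp pW mW.y mW.B := hq.ckp (p := pW) ynW

variable {V : Type*} [Fintype V] [DecidableEq V] {x : V → V → ℝ} {P : V → Prop} [DecidablePred P]

end Pool.Agent.RX.RCN.K
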