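import Pool.Agent.RX.RCN.DrU
import Pool.Agent.RX.RCN.FctT
import Pool.Agent.RX.RCN.VLd

/-! The facts on the data for the signed direct part (MP_73ccd0_lc, route M). -/

set_option autoImplicit false

namespace Pool.Agent.RX.RCN.K

open Pool.Agent.RX.RCM9 Pool.Agent.RX.RCN.Ck1

theorem dnsW_ok : dnsOk pW.z.mb pW.lo V2L.nb V2L.la V2L.Uo RCN.btq (10 ^ 30) 16 = true := by
  decide +kernel

theorem dnsW : DnS pW (V2L.Uo : ℚ) V2L.nb V2L.la :=
  dns_of (p := pW) (a := 17 / 25) (b := 17 / 100) ynW rfl dnsW_ok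

end Pool.Agent.RX.RCN.K
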