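import Pool.Agent.RX.RCN.XrD
import Pool.Agent.RX.RCN.XrH

/-! Bounds of the exponents with the signed direct part: single pairs (MP_73ccd0_lc, route M). -/

namespace Pool.Agent.RX.RCN.K

open Set Finset MeasureTheory Pool.Agent.RX.RCRSHalf Pool.Agent.RX.RCG Pool.Agent.RX.RCG.Ct

set_option linter.unusedSectionVars false

variable {V : Type*} [Fintype V] [DecidableEq V]

theorem v_exp_le {v δ : ℝ} (v0 : 0 ≤ v) (v1 : v ≤ 1) (δ1 : δ ≤ 1) :
    v * Real.exp ((1 - v) * δ) ≤ 1 := by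
  have h1 : Real.exp ((1 - v) * δ) ≤ Real.exp (1 - v) := by
    refine Real.exp_le_exp.2 ?_
    have := mul_le_mul_of_nonneg_left δ1 (by linarith : 0 ≤ 1 - v)
    linarith
  have h2 : v ≤ Real.exp (v - 1) := by
    have := Real.add_one_le_exp (v - 1)
    linarith
  have h3 : Real.exp (v - 1) * Real.exp (1 - v) = 1 := by
    rw [← Real.exp_add]; simp
  calc v * Real.exp ((1 - v) * δ) ≤ Real.exp (v - 1) * Real.exp (1 - v) :=
        mul_le_mul h2 h1 (Real.exp_pos _).le (Real.exp_pos _).le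
    _ = 1 := h3

theorem k_exp_le {k δ : ℝ} (k0 : 0 ≤ k) (k1 : k ≤ 1) (δ0 : 0 ≤ δ) (δ1 : δ ≤ 1) :
    Real.exp (k * δ) * (1 - k / 2) ≤ Real.exp (2 * δ / 3) := by
  have h1 : 1 - k / 2 ≤ Real.exp (-(k / 2)) := by
    have := Real.add_one_le_exp (-(k / 2))
    linarith
  calc Real.exp (k * δ) * (1 - k / 2) ≤ Real.exp (k * δ) * Real.exp (-(k / 2)) :=
        mul_le_mul_of_nonneg_left h1 (Real.exp_pos _).le
    _ = Real.exp (k * (δ - 1 / 2)) := by rw [← Real.exp_add]; congr 1; ring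
    _ ≤ Real.exp (2 * δ / 3) := by
      refine Real.exp_le_exp.2 ?_
      rcases le_total δ (1 / 2) with h | h
      · have := mul_nonneg k0 (sub_nonneg.2 h)
        nlinarith
      · have := mul_le_mul_of_nonneg_right k1 (sub_nonneg.2 h)
        nlinarith

/-- the weights of a vertex to a removed set and two others -/
theorem kx_two {x : V → V → ℝ} (hx : RCM.Wt x) {D : Finset V} {c d f : V} (hc : c ∈ Dᶜ)
    (hd : d ∈ Dᶜ) (hcd : c ≠ d) : RCM.kx x D f + x c f + x d f ≤ 1 := by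
  have h1 := hx.row f
  have hc' : c ∉ D := Finset.mem_compl.1 hc
  have hd' : d ∉ D := Finset.mem_compl.1 hd
  have h2 : ∑ w ∈ insert c (insert d D), x w f ≤ ∑ w, x f w := by
    refine (Finset.sum_le_sum_of_subset_of_nonneg (Finset.subset_univ _)
      fun w _ _ => hx.nn w f).trans (le_of_eq ?_)
    exact Finset.sum_congr rfl fun w _ => hx.symm w f
  rw [Finset.sum_insert (by
    rw [Finset.mem_insert]
    rintro (h | h)
    · exact hcd h
    · exact hc' h), Finset.sum_insert hd'] at h2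
  unfold RCM.kx
  linarith

section wx

variable {Z : Hzd} {F : Lz V} {x : V → V → ℝ} {P : V → Prop} [DecidablePred P]
variable {sl : ℝ → ℝ → ℝ} {τ : ℝ} {D : Finset V} {B E1 : ℝ → ℝ → ℝ}
variable {gp gm : V → V → ℝ → ℝ} {U b1 : ℝ} {z dl : ℝ → ℝ} {Gk Mk : ℝ → ℝ → ℝ}
variable {mb u : ℝ → ℝ}

/-- **the leading part of a single pair is at most half of the row** -/
theorem K1D_half (hC : Z.Cf B E1) (hZ : Z.Ok sl) (hx : Wt x P 1)
    (hW : Wx Z F x P τ D B gp gm U b1 z dl Gk Mk mb u) {c d : V} (hc : c ∈ Dᶜ) (hd : d ∈ Dᶜ)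
    (hcd : c ≠ d) {σ : ℝ} (hσ : σ ∈ Icc 0 τ) {r : ℝ} (hr : r ∈ Icc 0 σ)
    (z0 : 0 ≤ dl (u r)) (z1 : dl (u r) ≤ 1) {R : ℝ}
    (hR : Real.exp (2 * z (u r) + 2 * dl (u r) / 3) ≤ R) :
    ∑ f ∈ Dᶜ.erase c, K1 Z F x P r d f * Z.Dd x P σ c f r
      ≤ 1 / 2 * (mb r * R * B σ r) := by
  have hx' := wt_of hx
  have hrτ : r ∈ Icc 0 τ := ⟨hr.1, hr.2.trans hσ.2⟩
  have hσb : σ ∈ Icc (0 : ℝ) bt := ⟨hσ.1, hσ.2.trans hW.τ1.2⟩
  have hr1 : r ∈ Icc (0 : ℝ) bt := ⟨hr.1, hrτ.2.trans hW.τ1.2⟩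
  have m0 := hW.mb0 r hrτ
  have B0 : 0 ≤ B σ r := hC.B_nonneg hr.1 hr.2 hσb.2
  set y := z (u r) with hy
  set δ := dl (u r) with hδ
  have kd0 := RCM.kx0 hx' D d
  have kd1 := RCM.kx1 hx' D d
  -- pointwise
  have pt : ∀ f ∈ Dᶜ.erase c, K1 Z F x P r d f * Z.Dd x P σ c f r
      ≤ mb r * B σ r * (Real.exp (2 * y + RCM.kx x D d * δ) * ((x c f + x d f) / 4)) := by
    intro f hf
    obtain ⟨hfc, hfU⟩ := Finset.mem_erase.1 hf
    have xc := xw_mem hx c f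
    have xd := xw_mem hx d f
    have D1 := hC.Dd_le hZ hx hσb c f hr
    have D0 := hZ.Dd_nonneg hx hσb c f hr
    have rhs0 : 0 ≤ mb r * B σ r * (Real.exp (2 * y + RCM.kx x D d * δ)
        * ((x c f + x d f) / 4)) :=
      mul_nonneg (mul_nonneg m0 B0) (mul_nonneg (Real.exp_pos _).le (by linarith [xc.1, xd.1]))
    rcases eq_or_ne d f with hdf | hdf
    · have h0 : Z.hh x P r d f = 0 := by
        have h1 := hW.hm r hrτ d f
        rw [hdf, hx.diag, zero_mul] at h1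
        rw [hdf]
        exact le_antisymm h1 (hZ.hh_nonneg hx hr1 f f)
      have h3 : K1 Z F x P r d f = 0 := by
        show Z.hh x P r d f * Real.exp (F.y1 d r + F.y1 f r) = 0
        rw [h0, zero_mul]
      rw [h3, zero_mul]
      exact rhs0
    · have kf := kx_two hx' hc hd hcd (f := f)
      have kf0 := RCM.kx0 hx' D f
      have h1 := hW.hm r hrτ d f
      have h2 := hW.hy r hrτ d hd f hfU hdf
      have hv0 : 0 ≤ x c f + x d f := add_nonneg xc.1 xd.1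
      have hv1 : x c f + x d f ≤ 1 := by linarith
      have h3 : K1 Z F x P r d f ≤ (x d f * mb r)
          * (Real.exp (2 * y + RCM.kx x D d * δ)
            * Real.exp ((1 - (x c f + x d f)) * δ)) := by
        refine mul_le_mul h1 ?_ (Real.exp_pos _).le (mul_nonneg xd.1 m0)
        rw [← Real.exp_add]
        refine Real.exp_le_exp.2 (h2.trans ?_)
        have := mul_le_mul_of_nonneg_right (by linarith :
          RCM.kx x D f ≤ 1 - (x c f + x d f)) z0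
        show 2 * y + (RCM.kx x D d + RCM.kx x D f) * δ ≤ _
        linarith
      have h4 := mul_le_mul h3 D1 D0 (mul_nonneg (mul_nonneg xd.1 m0)
        (mul_nonneg (Real.exp_pos _).le (Real.exp_pos _).le))
      refine h4.trans ?_
      have h5 := v_exp_le hv0 hv1 (δ := δ) z1
      have h6 : x d f * x c f ≤ (x c f + x d f) * (x c f + x d f) / 4 := by
        nlinarith [sq_nonneg (x c f - x d f)]
      have h7 : x d f * x c f * Real.exp ((1 - (x c f + x d f)) * δ)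
          ≤ (x c f + x d f) / 4 := by
        have i1 := mul_le_mul_of_nonneg_right h6
          (Real.exp_pos ((1 - (x c f + x d f)) * δ)).le
        have i2 := mul_le_mul_of_nonneg_left h5 hv0
        linarith
      have h8 := mul_le_mul_of_nonneg_left h7 (mul_nonneg (mul_nonneg m0 B0)
        (Real.exp_pos (2 * y + RCM.kx x D d * δ)).le)
      refine le_trans (le_of_eq (by ring)) (h8.trans (le_of_eq (by ring)))
  refine (Finset.sum_le_sum pt).trans ?_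
  rw [← Finset.mul_sum, ← Finset.mul_sum, ← Finset.sum_div]
  have hs : ∑ f ∈ Dᶜ.erase c, (x c f + x d f) ≤ 2 - RCM.kx x D d := by
    rw [Finset.sum_add_distrib]
    have a1 : ∑ f ∈ Dᶜ.erase c, x c f ≤ 1 :=
      (Finset.sum_le_sum_of_subset_of_nonneg (Finset.subset_univ _)
        fun f _ _ => hx'.nn c f).trans (hx'.row c)
    have a2 : ∑ f ∈ Dᶜ.erase c, x d f ≤ ∑ f ∈ Dᶜ, x d f :=
      Finset.sum_le_sum_of_subset_of_nonneg (Finset.erase_subset _ _) fun f _ _ => hx'.nn d f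
    have a3 := RCM.row_U hx' D d
    linarith
  have h9 : Real.exp (2 * y + RCM.kx x D d * δ) * ((∑ f ∈ Dᶜ.erase c, (x c f + x d f)) / 4)
      ≤ 1 / 2 * R := by
    have i1 := k_exp_le kd0 kd1 z0 z1
    have i2 : Real.exp (2 * y + RCM.kx x D d * δ) * ((∑ f ∈ Dᶜ.erase c, (x c f + x d f)) / 4)
        ≤ Real.exp (2 * y + RCM.kx x D d * δ) * ((2 - RCM.kx x D d) / 4) :=
      mul_le_mul_of_nonneg_left (by linarith) (Real.exp_pos _).le
    have i3 : Real.exp (2 * y + RCM.kx x D d * δ) * ((2 - RCM.kx x D d) / 4)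
        = 1 / 2 * (Real.exp (2 * y) * (Real.exp (RCM.kx x D d * δ)
          * (1 - RCM.kx x D d / 2))) := by
      rw [Real.exp_add]; ring
    have i4 := mul_le_mul_of_nonneg_left i1 (Real.exp_pos (2 * y)).le
    rw [← Real.exp_add] at i4
    linarith
  have := mul_le_mul_of_nonneg_left h9 (mul_nonneg m0 B0)
  linarith

/-- **the leading part of a single pair** -/
theorem N1_half (hC : Z.Cf B E1) (hZ : Z.Ok sl) (hx : Wt x P 1)
    (hW : Wx Z F x P τ D B gp gm U b1 z dl Gk Mk mb u) {c d : V} (hc : c ∈ Dᶜ) (hd : d ∈ Dᶜ)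
    (hcd : c ≠ d) {σ : ℝ} (hσ : σ ∈ Icc 0 τ)
    (z0 : ∀ r ∈ Icc 0 σ, 0 ≤ dl (u r)) (z1 : ∀ r ∈ Icc 0 σ, dl (u r) ≤ 1) {R g g' : ℝ → ℝ}
    (hR : ∀ r ∈ Icc 0 σ, Real.exp (2 * z (u r) + 2 * dl (u r) / 3) ≤ R r)
    (dg : ∀ r ∈ Icc 0 σ, HasDerivAt g (g' r) r)
    (hg : ∀ r ∈ Icc 0 σ, mb r * R r * (b1 * (u r - u σ)) ≤ g' r) :
    N1 Z F x P D σ c d 0 ≤ 1 / 2 * (g σ - g 0) := by
  have hσb : σ ∈ Icc (0 : ℝ) bt := ⟨hσ.1, hσ.2.trans hW.τ1.2⟩
  have e1 : N1 Z F x P D σ c d 0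
      = ∫ ρ in (0 : ℝ)..σ, ∑ f ∈ Dᶜ.erase c, K1 Z F x P ρ d f * Z.Dd x P σ c f ρ := by
    unfold N1
    exact RCM.bk_eq ⟨le_rfl, hσ.1⟩
  rw [e1]
  have key := int_le_prim (f := fun ρ => ∑ f ∈ Dᶜ.erase c, K1 Z F x P ρ d f
      * Z.Dd x P σ c f ρ) (g := fun r => 1 / 2 * g r) (g' := fun r => 1 / 2 * g' r) hσ.1
    (continuousOn_finsetSum _ fun f _ =>
      ((Tb_cont hZ hx hW.τ1.2 hW.cy d f).mono (Icc_subset_Icc_right hσ.2)).mul
        ((hZ.Dd_cont hx σ c f).mono (Icc_subset_Icc_right hσb.2)))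
    (fun r hr => (dg r hr).const_mul _) fun r hr => ?_
  · linarith
  · have hrτ : r ∈ Icc 0 τ := ⟨hr.1, hr.2.trans hσ.2⟩
    refine (K1D_half hC hZ hx hW hc hd hcd hσ hr (z0 r hr) (z1 r hr) (hR r hr)).trans ?_
    have h1 := hW.Bσ σ hσ r hr
    have m0 := hW.mb0 r hrτ
    have R0 : 0 ≤ R r := (Real.exp_pos _).le.trans (hR r hr)
    have h2 := mul_le_mul_of_nonneg_left h1 (mul_nonneg m0 R0)
    have := hg r hr
    linarith

end wx

section zl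

variable {Z : Hzd} {F : Lz V} {x : V → V → ℝ} {P : V → Prop} [DecidablePred P]
variable {sl : ℝ → ℝ → ℝ} {α τ sg : ℝ} {B E1 : ℝ → ℝ → ℝ} {m' q : ℝ} {A D : Finset V}
variable {G : Fm V}

/-- the exponents of the insertion factors -/
theorem ze_le (hc : Ctn F G α τ) (hF : F.Ok Z x P A D sg α τ)
    (hZ : Z.Ok sl) (hx : Wt x P 1) {t s : ℝ} (ht : t ∈ Icc α τ) (hs : s ∈ Icc 0 t) (hsg : s ≤ sg)
    (y0 : ∀ e ∈ Dᶜ, ∀ r ∈ Icc 0 τ, 0 ≤ F.y1 e r)
    {ρ ζ ζ' : ℝ → ℝ} (rK : ∀ e ∈ Dᶜ, ∀ r ∈ Icc 0 τ, ∑ f ∈ Dᶜ, K1 Z F x P r e f ≤ ρ r)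
    (dζ : ∀ r ∈ Icc 0 τ, HasDerivAt ζ (ζ' r) r) (hζ : ∀ r ∈ Icc 0 τ, ρ r ≤ ζ' r)
    {c d : V} (hcU : c ∈ Dᶜ) (hdU : d ∈ Dᶜ) (hcd : c ≠ d) {r : ℝ} (hr : r ∈ Icc 0 t) :
    Z.Hh x P r c d 0 + ∫ ρ in (0 : ℝ)..r, ∑ f ∈ (Dᶜ.erase c).erase d, K2 Z F x P t s ρ d f
      ≤ ζ r - ζ 0 := by
  have hrτ : r ∈ Icc 0 τ := ⟨hr.1, hr.2.trans ht.2⟩
  have t1 : t ≤ bt := ht.2.trans hF.τ1
  have m1 : ∀ z ∈ Icc 0 r, z ∈ Icc (0 : ℝ) bt := fun z hz => ⟨hz.1, hz.2.trans (hr.2.trans t1)⟩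
  have sub : Icc 0 r ⊆ Icc 0 t := Icc_subset_Icc_right hr.2
  have ch : ContinuousOn (fun z => Z.hh x P z c d) (Icc 0 r) := (hZ.hh_cont hx c d).mono m1
  have cK : ContinuousOn (fun z => ∑ f ∈ (Dᶜ.erase c).erase d, K2 Z F x P t s z d f) (Icc 0 r) :=
    continuousOn_finsetSum _ fun f _ => (hc.K2 hF hZ hx ht hs d f).mono sub
  have ii : ∀ {f : ℝ → ℝ}, ContinuousOn f (Icc 0 r) → IntervalIntegrable f volume 0 r :=
    fun {f} hf => by
    rw [← uIcc_of_le hr.1] at hf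
    exact hf.intervalIntegrable
  have e1 : Z.Hh x P r c d 0 = ∫ z in (0 : ℝ)..r, Z.hh x P z c d := by
    have h1 := intervalIntegral.integral_eq_sub_of_hasDerivAt
      (f := fun z => -Z.Hh x P r c d z) (f' := fun z => Z.hh x P z c d) (a := 0) (b := r)
      (fun z hz => by
        rw [uIcc_of_le hr.1] at hz
        have := (hZ.Hh_deriv (t := r) hx c d (m1 z hz)).fun_neg
        rwa [neg_neg] at this) (ii ch)
    rw [h1, Hzd.Hh_self]
    ring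
  rw [e1, ← intervalIntegral.integral_add (ii ch) (ii cK)]
  refine int_le_prim (f := fun z => Z.hh x P z c d
    + ∑ f ∈ (Dᶜ.erase c).erase d, K2 Z F x P t s z d f) hr.1 (ch.add cK)
    (fun z hz => dζ z ⟨hz.1, hz.2.trans hrτ.2⟩) fun z hz => ?_
  have hzτ : z ∈ Icc 0 τ := ⟨hz.1, hz.2.trans hrτ.2⟩
  have hzt : z ∈ Icc 0 t := sub hz
  refine le_trans ?_ (hζ z hzτ)
  refine le_trans ?_ (rK d hdU z hzτ)
  have a1 : Z.hh x P z c d ≤ K1 Z F x P z d c := by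
    rw [K1_symm hx]
    have h1 := hZ.hh_nonneg hx (m1 z hz) c d
    have h2 := Real.one_le_exp (add_nonneg (y0 c hcU z hzτ) (y0 d hdU z hzτ))
    show Z.hh x P z c d ≤ Z.hh x P z c d * Real.exp (F.y1 c z + F.y1 d z)
    exact le_mul_of_one_le_right h1 h2
  have a2 : ∑ f ∈ (Dᶜ.erase c).erase d, K2 Z F x P t s z d f
      ≤ ∑ f ∈ (Dᶜ.erase c).erase d, K1 Z F x P z d f :=
    Finset.sum_le_sum fun f _ => K2_le hF hZ hx ht hs hsg hzt d f
  have a3 : ∑ f ∈ (Dᶜ.erase c).erase d, K1 Z F x P z d f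
      ≤ ∑ f ∈ Dᶜ.erase c, K1 Z F x P z d f :=
    Finset.sum_le_sum_of_subset_of_nonneg (Finset.erase_subset _ _) fun f _ _ =>
      K1_nonneg hZ hx (m1 z hz) d f
  have a4 := Finset.add_sum_erase Dᶜ (fun f => K1 Z F x P z d f) hcU
  show Z.hh x P z c d + ∑ f ∈ (Dᶜ.erase c).erase d, K2 Z F x P t s z d f ≤ _
  linarith

end zl

end Pool.Agent.RX.RCN.K
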