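import Pool.Agent.RX.RCN.YfB

/-! Rows of the exponents with the signed direct part, and the tails of a single pair
(MP_73ccd0_lc, route M). -/

namespace Pool.Agent.RX.RCN.K

open Set Finset MeasureTheory Pool.Agent.RX.RCRSHalf Pool.Agent.RX.RCG Pool.Agent.RX.RCG.Ct

set_option linter.unusedSectionVars false

variable {V : Type*} [Fintype V] [DecidableEq V]

section defs

variable (Z : Hzd) (F : Lz V) (x : V → V → ℝ) (P : V → Prop) [DecidablePred P] (G : Fm V)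
variable (τ : ℝ) (D : Finset V) (κ : ℝ)

end defs

variable {Z : Hzd} {F : Lz V} {x : V → V → ℝ} {P : V → Prop} [DecidablePred P]
variable {sl : ℝ → ℝ → ℝ} {sg τ : ℝ} {B E1 : ℝ → ℝ → ℝ} {m' q : ℝ} {D : Finset V}
variable {G : Fm V} {E E' κ κ' : V → ℝ → ℝ} {k : Yk} {j : Yr}

section nrow

variable {gp gm gs : V → V → ℝ → ℝ}

/-- **rows of the lower functions with the adjoint functional**: fixed vertex `d`, horizon `s` -/
theorem Yk.Ok.N_row (h : k.Ok Z F x P gp gm gs τ D B m' q E E' κ κ') (hC : Z.Cf B E1)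
    (hZ : Z.Ok sl) (hx : Wt x P 1) (hτ : τ ≤ bt)
    {s : ℝ} (hs : s ∈ Icc 0 τ) {pd nd : V → ℝ → ℝ} {d : V}
    (hd : d ∈ Dᶜ) (td : Tls Z F x P τ D gp gs B q m' s d pd nd) {j : Yr} {dlt : ℝ}
    (hj : j.Ok k τ q dlt (fun _ => 0) (fun _ => 0)) (δ0 : 0 ≤ dlt) :
    ∑ e ∈ Dᶜ.erase d, nd e 0
      ≤ j.gV s * ∑ e ∈ Dᶜ.erase d, pd e s + (1 + j.gW s) * ∑ e ∈ Dᶜ.erase d, nd e s
        + dmp x D d * j.g1 s := by
  have hs1 : s ∈ Icc (0 : ℝ) bt := ⟨hs.1, hs.2.trans hτ⟩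
  have mτ : ∀ r ∈ Icc 0 s, r ∈ Icc 0 τ := fun r hr => ⟨hr.1, hr.2.trans hs.2⟩
  have d0 := dmp_nonneg hx D d
  obtain ⟨p', n', hpn⟩ := h.tu hC hZ hx hτ hs td
  have ci : ∀ e, ContinuousOn (fun ρ => ∑ f ∈ Dᶜ.erase d, K1 Z F x P ρ e f * Z.Dd x P s d f ρ)
      (Icc 0 s) := fun e => continuousOn_finsetSum _ fun f _ =>
    ((h.cT e f).mono (Icc_subset_Icc_right hs.2)).mul
      ((hZ.Dd_cont hx s d f).mono (Icc_subset_Icc_right hs1.2))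
  have hge : ∀ (g : V → V → ℝ → ℝ) (A : ℝ → ℝ), (∀ i j, ∀ r ∈ Icc 0 τ, 0 ≤ g i j r) →
      (∀ r ∈ Icc 0 τ, ∀ z ∈ Dᶜ, RCM.qc Dᶜ (K1 Z F x P r) (fun y => ∑ e ∈ Dᶜ, g e y r) z
        ≤ k.m r * A r) →
      ∀ r ∈ Icc 0 s, ∀ a : V → ℝ, (∀ x ∈ Dᶜ.erase d, 0 ≤ a x) →
        ∑ e ∈ Dᶜ.erase d, RCM.Qo (Dᶜ.erase d) (K1 Z F x P r) (fun x => g e x r) a
          ≤ k.m r * A r * ∑ x ∈ Dᶜ.erase d, a x := by
    intro g A g0 hA r hr a a0
    have H := h.kv r (mτ r hr)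
    have e1 : ∑ e ∈ Dᶜ.erase d, RCM.Qo (Dᶜ.erase d) (K1 Z F x P r) (fun x => g e x r) a
        = RCM.Qo (Dᶜ.erase d) (K1 Z F x P r) (fun x => ∑ e ∈ Dᶜ.erase d, g e x r) a := by
      have := RCM.Qo_sum1 (Dᶜ.erase d) (K1 Z F x P r) a (Dᶜ.erase d) (fun _ => 1)
        (fun e x => g e x r)
      simpa only [one_mul] using this
    rw [e1]
    refine RCM.Qo_le_of (Finset.erase_subset _ _) H.T0
      (fun f _ => Finset.sum_nonneg fun e _ => g0 e f r (mτ r hr)) (fun f hf => ?_)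
      (hA r (mτ r hr)) a0
    exact Finset.sum_le_sum_of_subset_of_nonneg (Finset.erase_subset _ _)
      fun e _ _ => g0 e f r (mτ r hr)
  have f1 : ∀ r ∈ Icc 0 s, ∀ b ∈ Dᶜ.erase d, ∑ e ∈ Dᶜ.erase d, K1 Z F x P r e b
      ≤ k.m r * k.R r := fun r hr b hb => by
    have H := h.kv r (mτ r hr)
    refine le_trans ?_ (H.row_R (Finset.mem_of_mem_erase hb))
    refine (Finset.sum_le_sum_of_subset_of_nonneg (Finset.erase_subset _ _)
      fun e _ _ => H.T0 e b).trans (le_of_eq ?_)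
    exact Finset.sum_congr rfl fun e _ => H.Ts e b
  have f2 : ∀ r ∈ Icc 0 s, -∑ e ∈ Dᶜ.erase d, -∑ f ∈ Dᶜ.erase d,
      K1 Z F x P r e f * Z.Dd x P s d f r
      ≤ k.m r * k.R r * (dmp x D d * (k.bb r - k.bb s)) := fun r hr => by
    have H := h.kv r (mτ r hr)
    have s1 : ∑ e ∈ Dᶜ.erase d, ∑ f ∈ Dᶜ.erase d, K1 Z F x P r e f * Z.Dd x P s d f r
        ≤ ∑ f ∈ Dᶜ.erase d, (k.m r * k.R r) * Z.Dd x P s d f r := by
      rw [Finset.sum_comm]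
      refine Finset.sum_le_sum fun f hf => ?_
      rw [← Finset.sum_mul]
      exact mul_le_mul_of_nonneg_right (f1 r hr f hf) (hZ.Dd_nonneg hx hs1 d f hr)
    rw [← Finset.mul_sum] at s1
    have R0 : 0 ≤ k.m r * k.R r := (Finset.sum_nonneg fun e _ => H.T0 d e).trans (H.row_R hd)
    have s2 := mul_le_mul_of_nonneg_left
      (sum_pos_x hx (D := D) (h.be0 hC hτ hs hr) (fun c f => h.Dσ hC hZ hx hτ hs hr c f) d) R0
    rw [Finset.sum_neg_distrib, neg_neg]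
    exact s1.trans s2
  have f3 : ∀ r ∈ Icc 0 s, ∑ e ∈ Dᶜ.erase d, D3f Z x P B τ q m' s d e r
      ≤ dmp x D d * (k.bb r - k.bb s) + dmp x D d * k.x3 r := fun r hr => by
    have b0 : 0 ≤ k.bb r - k.bb s + k.x3 r :=
      add_nonneg (h.be0 hC hτ hs hr) (h.x30 r (mτ r hr))
    refine (sum_pos_x hx b0 (fun c f => h.D3σ hC hZ hx hτ hs hr c f) d).trans
      (le_of_eq (by ring))
  obtain ⟨φ, dφ, hφ⟩ := RCM.tl_adj (lam := fun r => k.m r * k.R r)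
    (As := fun r => k.m r * k.AM r) (Ap := fun r => k.m r * k.AP r)
    (be := fun r => dmp x D d * (k.bb r - k.bb s)) (be' := fun r => dmp x D d * k.bb' r)
    (xx := fun r => dmp x D d * k.x3 r)
    (n1' := fun e r => -∑ f ∈ Dᶜ.erase d, K1 Z F x P r e f * Z.Dd x P s d f r)
    (g1 := fun r => dmp x D d * j.g1 r) (g1' := fun r => dmp x D d * j.g1' r)
    (gV := j.gV) (gW := j.gW) (gw := j.gw) (gV' := j.gV') (gW' := j.gW') (gw' := j.gw')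
    (α := fun _ => 0) (β := fun _ => 0) hpn
    (fun e _ r hr => RCM.bk_deriv hs.1 (ci e) hr)
    (fun i r hr => D3f_nonneg hC hZ hx hτ h.q0 h.m0 hs.2 d i hr)
    (fun i r hr => N1_nonneg hZ hx hs1 d i hr)
    (fun r hr => h.C10 hC hτ (mτ r hr)) (fun r hr => h.C40 hC hτ (mτ r hr))
    (fun r hr => mul_nonneg (h.kv r (mτ r hr)).m0 (h.AM0 r (mτ r hr)))
    (fun r hr => mul_nonneg (h.kv r (mτ r hr)).m0 (h.AP0 r (mτ r hr)))
    f1 (hge gs k.AM h.gs0 h.aM) (hge gp k.AP h.gp0 h.aP)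
    (fun r hr => ((h.dbb r (mτ r hr)).sub_const _).const_mul _)
    (fun r hr => mul_nonneg d0 (h.be0 hC hτ hs hr))
    f2 f3
    (fun r hr => hj.dV r (mτ r hr)) (fun r hr => hj.dW r (mτ r hr))
    (fun r hr => hj.dw r (mτ r hr)) (fun r hr => (hj.d1 r (mτ r hr)).const_mul _)
    (fun r hr => hj.V0 r (mτ r hr)) (fun r hr => hj.W0 r (mτ r hr))
    (fun r hr => hj.α0 r (mτ r hr)) (fun r hr => hj.oV r (mτ r hr))
    (fun r hr => hj.oW r (mτ r hr)) (fun r hr => hj.ow r (mτ r hr)) (fun r hr => by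
      have := mul_le_mul_of_nonneg_left (hj.o1 r (mτ r hr)) d0
      refine le_trans (le_of_eq ?_) this
      ring)
  have key := int_le_prim (f := fun _ => (0 : ℝ)) hs.1 continuousOn_const dφ fun z hz => by
    have := hφ z hz
    simpa using this
  have W00 : ∑ e ∈ Dᶜ.erase d, N1 Z F x P D s d e s = 0 := Finset.sum_eq_zero fun e _ => by
    unfold N1
    exact RCM.bk_self _ _
  have h00 : (0 : ℝ) ∈ Icc 0 s := ⟨le_rfl, hs.1⟩
  have z1 : 0 ≤ ∑ e ∈ Dᶜ.erase d, pd e 0 := Finset.sum_nonneg fun e _ => td.p0 e 0 h00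
  have z2 : 0 ≤ ∑ e ∈ Dᶜ.erase d, nd e 0 := Finset.sum_nonneg fun e _ => td.n0 e 0 h00
  have z3 : 0 ≤ ∑ e ∈ Dᶜ.erase d, N1 Z F x P D s d e 0 := Finset.sum_nonneg fun e _ =>
    N1_nonneg hZ hx hs1 d e h00
  have gW0 := δ0.trans hj.Wd
  have y1 := mul_nonneg (hj.V0 0 (mτ 0 h00)) z1
  have y2 := mul_nonneg gW0 z2
  have y3 := mul_nonneg gW0 z3
  have y4 := mul_nonneg hj.w0 (mul_nonneg d0 (h.be0 hC hτ hs h00))
  have y5 := mul_nonneg d0 hj.g0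
  rw [W00] at key
  simp only [sub_self, mul_zero, add_zero, intervalIntegral.integral_zero] at key
  linarith

end nrow

/-! ### the functions of the clock for the lower functions alone -/

/-- adjoint functions without sources -/
structure Yn where
  gV : ℝ → ℝ
  gV' : ℝ → ℝ
  gW : ℝ → ℝ
  gW' : ℝ → ℝ
  gw : ℝ → ℝ
  gw' : ℝ → ℝ
  g1 : ℝ → ℝ
  g1' : ℝ → ℝ

structure Yn.Ok (n : Yn) (f : Yf) : Prop where
  dgV : ∀ u ∈ Icc 0 f.U, HasDerivAt n.gV (-n.gV' u) u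
  dgW : ∀ u ∈ Icc 0 f.U, HasDerivAt n.gW (-n.gW' u) u
  dgw : ∀ u ∈ Icc 0 f.U, HasDerivAt n.gw (-n.gw' u) u
  dg1 : ∀ u ∈ Icc 0 f.U, HasDerivAt n.g1 (-n.g1' u) u
  gV0 : ∀ u ∈ Icc 0 f.U, 0 ≤ n.gV u
  gW0 : ∀ u ∈ Icc 0 f.U, 0 ≤ n.gW u
  gw0 : ∀ u ∈ Icc 0 f.U, 0 ≤ n.gw u
  g10 : ∀ u ∈ Icc 0 f.U, 0 ≤ n.g1 u
  ogV : ∀ u ∈ Icc 0 f.U, f.AP u * f.C4 u * n.gV u
    + (f.R u * f.C1 u + f.AM u * f.C4 u) * (1 + n.gW u) ≤ n.gV' u
  ogW : ∀ u ∈ Icc 0 f.U, (f.R u + f.AM u) * n.gV u + f.AP u * (1 + n.gW u) ≤ n.gW' u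
  ogw : ∀ u ∈ Icc 0 f.U, f.AP u * n.gV u + f.AM u * (1 + n.gW u) + f.R u * n.gW u ≤ n.gw' u
  og1 : ∀ u ∈ Icc 0 f.U, f.b1 * n.gw u + f.x3 u * (f.AP u * n.gV u + f.AM u * (1 + n.gW u))
    ≤ n.g1' u

noncomputable def Yn.yr (n : Yn) (mb u : ℝ → ℝ) : Yr where
  gV := fun r => n.gV (u r)
  gV' := fun r => -n.gV' (u r) * -mb r
  gW := fun r => n.gW (u r)
  gW' := fun r => -n.gW' (u r) * -mb r
  gw := fun r => n.gw (u r)
  gw' := fun r => -n.gw' (u r) * -mb r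
  g1 := fun r => n.g1 (u r)
  g1' := fun r => -n.g1' (u r) * -mb r

section clock

variable {f : Yf} {n : Yn} {Gk Mk : ℝ → ℝ → ℝ} {mb u : ℝ → ℝ} {dlt : ℝ}

theorem Yn.Ok.rOk {gp gm : V → V → ℝ → ℝ} (hn : n.Ok f)
    (hW : Wx Z F x P τ D B gp gm f.U f.b1 f.z f.dl Gk Mk mb u) :
    (n.yr mb u).Ok (f.yk mb u) τ f.q 0 (fun _ => 0) (fun _ => 0) := by
  have um := hW.um
  have mb0 := hW.mb0
  have du := hW.du
  have m0 : (0 : ℝ) ∈ Icc 0 τ := ⟨le_rfl, hW.τ1.1⟩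
  refine
    { dV := fun r hr => (hn.dgV _ (um r hr)).comp r (du r hr)
      dW := fun r hr => (hn.dgW _ (um r hr)).comp r (du r hr)
      dw := fun r hr => (hn.dgw _ (um r hr)).comp r (du r hr)
      d1 := fun r hr => (hn.dg1 _ (um r hr)).comp r (du r hr)
      V0 := fun r hr => hn.gV0 _ (um r hr)
      W0 := fun r hr => hn.gW0 _ (um r hr)
      Wd := hn.gW0 _ (um 0 m0)
      w0 := hn.gw0 _ (um 0 m0)
      g0 := hn.g10 _ (um 0 m0)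
      α0 := fun r hr => le_rfl
      oV := fun r hr => ?_
      oW := fun r hr => ?_
      ow := fun r hr => ?_
      o1 := fun r hr => ?_ }
  · have := mul_le_mul_of_nonneg_left (hn.ogV _ (um r hr)) (mb0 r hr)
    show mb r * f.AP (u r) * f.C4 (u r) * n.gV (u r)
      + (mb r * f.R (u r) * f.C1 (u r) + mb r * f.AM (u r) * f.C4 (u r)) * (1 + n.gW (u r))
      + f.C4 (u r) * 0 ≤ -n.gV' (u r) * -mb r
    linarith
  · have := mul_le_mul_of_nonneg_left (hn.ogW _ (um r hr)) (mb0 r hr)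
    show (mb r * f.R (u r) + mb r * f.AM (u r)) * n.gV (u r)
      + mb r * f.AP (u r) * (1 + n.gW (u r)) + 0 ≤ -n.gW' (u r) * -mb r
    linarith
  · have := mul_le_mul_of_nonneg_left (hn.ogw _ (um r hr)) (mb0 r hr)
    show mb r * f.AP (u r) * n.gV (u r) + mb r * f.AM (u r) * (1 + n.gW (u r))
      + mb r * f.R (u r) * n.gW (u r) + 0 ≤ -n.gw' (u r) * -mb r
    linarith
  · have := mul_le_mul_of_nonneg_left (hn.og1 _ (um r hr)) (mb0 r hr)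
    show -(f.b1 * -mb r) * n.gw (u r) + f.x3 (u r) * (mb r * f.AP (u r) * n.gV (u r)
      + mb r * f.AM (u r) * (1 + n.gW (u r)) + 0) ≤ -n.g1' (u r) * -mb r
    linarith

variable (hf : f.Ok Gk Mk dlt) (hn : n.Ok f) (hC : Z.Cf B E1) (hZ : Z.Ok sl) (hx : Wt x P 1)
  (hW : Wx Z F x P τ D B G.gp G.gm f.U f.b1 f.z f.dl Gk Mk mb u) (hgs : G.gs = G.gm)
  (hG : G.Tk Z F x P sg τ D B f.m f.q)

include hf hn hC hZ hx hW hgs hG

/-- the lower functions of the target with the horizon `τ` -/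
theorem Yn.Ok.nc_le {c : V} (hc : c ∈ Dᶜ) : ∑ e ∈ Dᶜ.erase c, G.n c e 0
    ≤ (1 - RCM.kx x D c) * n.g1 (u τ) := by
  have τ0 := hW.τ1.1
  have hττ : τ ∈ Icc 0 τ := ⟨τ0, le_rfl⟩
  have h : (f.yk mb u).Ok Z F x P G.gp G.gm G.gs τ D B f.m f.q (f.E u x D)
      (f.E' mb u x D) (f.κ u x D) (f.κ' mb u x D) := by
    rw [hgs]; exact hf.kOk hZ hx hW
  have key := h.N_row hC hZ hx hW.τ1.2 hττ hc (hG.tc c hc) (hn.rOk hW) le_rfl
  rw [Finset.sum_eq_zero fun e he => (hG.ec c e he).1,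
    Finset.sum_eq_zero fun e he => (hG.ec c e he).2] at key
  rw [mul_zero, mul_zero, zero_add, zero_add, dmp_eq] at key
  exact key

/-- the lower functions of the deleted closure -/
theorem Yn.Ok.nd_le {s : ℝ} (hs : s ∈ Icc 0 τ) (hsg : s ≤ sg) {d : V} (hd : d ∈ Dᶜ) :
    ∑ e ∈ Dᶜ.erase d, G.nd s d e 0 ≤ (1 - RCM.kx x D d) * n.g1 (u s) := by
  have hs' : s ∈ Icc 0 sg := ⟨hs.1, hsg⟩
  have h : (f.yk mb u).Ok Z F x P G.gp G.gm G.gs τ D B f.m f.q (f.E u x D)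
      (f.E' mb u x D) (f.κ u x D) (f.κ' mb u x D) := by
    rw [hgs]; exact hf.kOk hZ hx hW
  have key := h.N_row hC hZ hx hW.τ1.2 hs hd (hG.td s hs' d hd) (hn.rOk hW) le_rfl
  rw [Finset.sum_eq_zero fun e he => hG.pd s hs' d hd e he,
    Finset.sum_eq_zero fun e he => hG.nd s hs' d hd e he] at key
  rw [mul_zero, mul_zero, zero_add, zero_add, dmp_eq] at key
  exact key

/-- the lower functions of the released closure -/
theorem Yn.Ok.nt_le {s : ℝ} (hs : s ∈ Icc 0 τ) (hsg : s ≤ sg) {d : V} (hd : d ∈ Dᶜ) :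
    ∑ e ∈ Dᶜ.erase d, G.nt s d e 0 ≤ (1 - RCM.kx x D d) * (f.Eg (RCM.kx x D d) (u s)
      * (n.gV (u s) * f.Gm (u s) + (1 + n.gW (u s)) * f.Gp (u s)) + n.g1 (u s)) := by
  have hs' : s ∈ Icc 0 sg := ⟨hs.1, hsg⟩
  have h : (f.yk mb u).Ok Z F x P G.gp G.gm G.gs τ D B f.m f.q (f.E u x D)
      (f.E' mb u x D) (f.κ u x D) (f.κ' mb u x D) := by
    rw [hgs]; exact hf.kOk hZ hx hW
  have key := h.N_row hC hZ hx hW.τ1.2 hs hd (hG.tt s hs' d hd) (hn.rOk hW) le_rfl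
  have z3 : ∑ e ∈ Dᶜ.erase d, G.pt s d e s ≤ f.Gm (u s) * (dmp x D d * f.E u x D d s) := by
    have a1 : ∑ e ∈ Dᶜ.erase d, G.pt s d e s = ∑ e ∈ Dᶜ.erase d, G.gm d e s :=
      Finset.sum_congr rfl fun e he => hG.ptT s hs' d hd e he
    rw [a1]
    exact (Finset.sum_le_sum_of_subset_of_nonneg (Finset.erase_subset _ _) fun c _ _ =>
        h.gm0 d c s hs).trans (h.mr d hd s hs)
  have z4 : ∑ e ∈ Dᶜ.erase d, G.nt s d e s ≤ f.Gp (u s) * (dmp x D d * f.E u x D d s) := by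
    have a1 : ∑ e ∈ Dᶜ.erase d, G.nt s d e s = ∑ e ∈ Dᶜ.erase d, G.gp d e s :=
      Finset.sum_congr rfl fun e he => hG.ntT s hs' d hd e he
    rw [a1]
    exact (Finset.sum_le_sum_of_subset_of_nonneg (Finset.erase_subset _ _) fun c _ _ =>
        h.gp0 d c s hs).trans (h.pr d hd s hs)
  have us := hW.um s hs
  have b1 := mul_le_mul_of_nonneg_left z3 (hn.gV0 _ us)
  have b2 := mul_le_mul_of_nonneg_left z4 (by linarith [hn.gW0 _ us] : 0 ≤ 1 + n.gW (u s))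
  have e0 : f.E u x D d s = f.Eg (RCM.kx x D d) (u s) := rfl
  rw [e0] at b1 b2
  refine key.trans ?_
  show n.gV (u s) * _ + (1 + n.gW (u s)) * _ + dmp x D d * n.g1 (u s) ≤ _
  rw [dmp_eq] at *
  nlinarith [b1, b2]

end clock

/-! ### rows -/

section rows

variable {f : Yf} {Gk Mk : ℝ → ℝ → ℝ} {mb u : ℝ → ℝ} {dlt : ℝ} {κ : ℝ}

variable (hf : f.Ok Gk Mk dlt) (δ0 : 0 ≤ dlt) (hC : Z.Cf B E1) (hZ : Z.Ok sl) (hx : Wt x P 1) (hW : Wx Z F x P τ D B G.gp G.gm f.U f.b1 f.z f.dl Gk Mk mb u) (hgs : G.gs = G.gm) (hG : G.Tk Z F x P sg τ D B f.m f.q) (cB : ContinuousOn (B τ) (Icc 0 τ)) {s : ℝ} (hs : s ∈ Icc 0 τ) (hsg : s ≤ sg) (κ0 : 0 ≤ κ) {d : V} (hd : d ∈ Dᶜ) {R : ℝ}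

include hf δ0 hC hZ hx hW hgs hG cB hs hsg κ0 hd

end rows

end Pool.Agent.RX.RCN.K
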