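import Pool.Agent.RX.RCG.Wk
import Pool.Agent.RX.RCM.NuSd
import Pool.Agent.RX.RCRSHalf.Cert

/-! The exponents with the signed direct part: the scalar bound in the clock (MP_73ccd0_lc,
route M). -/

namespace Pool.Agent.RX.RCN.K

open Set Finset MeasureTheory Pool.Agent.RX.RCRSHalf Pool.Agent.RX.RCG Pool.Agent.RX.RCG.Ct

set_option linter.unusedSectionVars false

variable {V : Type*} [Fintype V] [DecidableEq V]
variable {Z : Hzd} {F : Lz V} {x : V → V → ℝ} {P : V → Prop} [DecidablePred P] {lo : ℝ → ℝ}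
variable {sl : ℝ → ℝ → ℝ} {α τ sg : ℝ} {B E1 : ℝ → ℝ → ℝ} {m q : ℝ} {A D : Finset V} {G : Fm V}

/-! ### the pair function without its direct part -/

theorem Bw_contN (hF : F.OkN Z x P A D sg α τ) (hZ : Z.Ok sl) (hx : Wt x P 1) (c d : V) :
    ContinuousOn (fun r => RCM.Bw (Z.hh x P) F.n1 r c d) (Icc 0 τ) := by
  unfold RCM.Bw
  exact ((hZ.hh_cont hx c d).mono (Icc_subset_Icc_right hF.τ1)).mul
    (continuousOn_const.sub ((continuousOn_const.sub (hF.n1c c)).mul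
      (continuousOn_const.sub (hF.n1c d))))

/-- the pair function without its direct part at an earlier time -/
theorem gmR_le (hF : F.OkN Z x P A D sg α τ) (hZ : Z.Ok sl) (hx : Wt x P 1) {c d : V} {t : ℝ}
    (ht : t ∈ Icc α τ) {M M' : ℝ → ℝ} (dM : ∀ r ∈ Icc t τ, HasDerivAt M (M' r) r)
    (hM : ∀ r ∈ Icc t τ, RCM.Bw (Z.hh x P) F.n1 r c d ≤ x c d * M' r) :
    gmR Z F x P G c d t ≤ gmR Z F x P G c d τ + x c d * (M τ - M t) := by
  have t0 : 0 ≤ t := hF.α0.trans ht.1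
  have cB := Bw_contN hF hZ hx c d (α := α) (sg := sg) (A := A) (D := D)
  have i1 : IntervalIntegrable (fun r => RCM.Bw (Z.hh x P) F.n1 r c d) volume 0 t :=
    (cB.mono (by rw [uIcc_of_le t0]; exact Icc_subset_Icc_right ht.2)).intervalIntegrable
  have i2 : IntervalIntegrable (fun r => RCM.Bw (Z.hh x P) F.n1 r c d) volume t τ :=
    (cB.mono (by rw [uIcc_of_le ht.2]; exact Icc_subset_Icc_left t0)).intervalIntegrable
  have e := intervalIntegral.integral_add_adjacent_intervals i1 i2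
  have key := int_le_prim' (f := fun r => RCM.Bw (Z.hh x P) F.n1 r c d)
    (g := fun r => x c d * M r) (g' := fun r => x c d * M' r) ht.2
    (cB.mono (Icc_subset_Icc_left t0)) (fun r hr => (dM r hr).const_mul _) hM
  unfold gmR
  linarith

/-! ### the exponents -/

section exps

variable {κ dR t s : ℝ} {c d : V}

end exps

/-! ### the scalar bound of the direct part in the clock -/

/-- scalar functions of the clock on `[0, Cv]` -/
structure Dz (Cv k1 ks : ℝ) (RR Rh e ω la j1 J1 LE j2 J2 : ℝ → ℝ) : Prop where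
  dRR : ∀ v ∈ Icc 0 Cv, HasDerivAt RR (Rh v) v
  e0 : ∀ v ∈ Icc 0 Cv, 0 ≤ e v
  he : ∀ v ∈ Icc 0 Cv, e v ≤ Real.exp (-(RR v - RR 0))
  la0 : ∀ v ∈ Icc 0 Cv, 0 ≤ la v
  la1 : ∀ v ∈ Icc 0 Cv, la v ≤ 1
  j1a : ∀ v ∈ Icc 0 Cv, 1 + ω v - 2 * ks * e v ≤ j1 v
  j1b : ∀ v ∈ Icc 0 Cv, la v * (1 + ω v - 2 * ks * e v) ≤ j1 v
  dJ1 : ∀ v ∈ Icc 0 Cv, HasDerivAt J1 (j1 v) v
  dLE : ∀ v ∈ Icc 0 Cv, HasDerivAt LE (la v * e v) v
  j2a : ∀ v ∈ Icc 0 Cv, 1 + ω v - k1 * e v ≤ j2 v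
  j20 : ∀ v ∈ Icc 0 Cv, 0 ≤ j2 v
  dJ2 : ∀ v ∈ Icc 0 Cv, HasDerivAt J2 (j2 v) v
  ωk : ∀ v ∈ Icc 0 Cv, ω v ≤ k1 * e v

/-- what the direct part needs from the pair `c`, `d` in the cell -/
structure Dp (Z : Hzd) (F : Lz V) (x : V → V → ℝ) (P : V → Prop) [DecidablePred P] (lo : ℝ → ℝ)
    (D : Finset V) (t s Cv : ℝ) (mb C : ℝ → ℝ) (RR ω la : ℝ → ℝ) (c d : V) : Prop where
  hm : ∀ r ∈ Icc 0 t, Z.hh x P r c d ≤ x c d * mb r
  hP : (P c ∧ P d) ∨ x c d = 0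
  mb0 : ∀ r ∈ Icc 0 t, 0 ≤ mb r
  l0 : ∀ r ∈ Icc 0 t, 0 ≤ lo r
  lm : ∀ r ∈ Icc 0 t, lo r ≤ mb r
  ll : ∀ r ∈ Icc 0 t, la (C r) * mb r ≤ lo r
  dC : ∀ r ∈ Icc 0 t, HasDerivAt C (mb r) r
  Cm : ∀ r ∈ Icc 0 t, C r ∈ Icc 0 Cv
  hω : ∀ r ∈ Icc 0 t, wN F t s c d r ≤ ω (C r)
  h1 : ∀ r ∈ Icc 0 t, Z.Hh x P r c d 0
    + ∫ ρ in (0 : ℝ)..r, ∑ f ∈ (Dᶜ.erase c).erase d, K2 Z F x P t s ρ d f ≤ RR (C r) - RR 0
  h2 : ∀ r ∈ Icc 0 t, Z.Hh x P r c d 0
    + ∫ ρ in (0 : ℝ)..r, ∑ f ∈ (Dᶜ.erase d).erase c, K2 Z F x P t s ρ c f ≤ RR (C r) - RR 0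

section dz

variable {Cv k1 ks k2 : ℝ} {RR Rh e ω la j1 J1 LE j2 J2 mb C : ℝ → ℝ}

variable (hd : Dz Cv k1 ks RR Rh e ω la j1 J1 LE j2 J2) (hc : Ctn F G α τ)
  (hF : F.OkN Z x P A D sg α τ) (hZ : Z.Ok sl) (hx : Wt x P 1)
  {t s : ℝ} (ht : t ∈ Icc α τ) (hs : s ∈ Icc 0 t) (cl : ContinuousOn lo (Icc 0 t)) {c d : V}
  (hp : Dp Z F x P lo D t s Cv mb C RR ω la c d) (hk : ks ≤ k2)
  {n1 n2 : ℝ} (hn1 : k1 ≤ Real.exp (-n1)) (hn2 : 2 * k2 ≤ Real.exp (-n1) + Real.exp (-n2))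

include hd hc hF hZ hx ht hs cl hp hk hn1 hn2

/-- the first part -/
theorem Dz.sx (ε : ℝ) {j j' : ℝ → ℝ} (dj : ∀ r ∈ Icc s t, HasDerivAt j (j' r) r)
    (ja : ∀ r ∈ Icc s t, mb r * (ε + ω (C r) - k1 * e (C r)) ≤ j' r)
    (jb : ∀ r ∈ Icc s t, lo r * (ε + ω (C r) - k1 * e (C r)) ≤ j' r) :
    DiS Z F x P lo D c d t s ε n1 n2 ≤ x c d * ((J1 (C s) - 2 * (k2 - ks) * LE (C s)
      - (J1 (C 0) - 2 * (k2 - ks) * LE (C 0))) + (j t - j s)) := by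
  have key : Sx Z F x P lo D t s ε mb (fun r => e (C r)) (fun r => ω (C r)) k1 k2
      (fun r => J1 (C r) - 2 * (k2 - ks) * LE (C r))
      (fun r => j1 (C r) * mb r - 2 * (k2 - ks) * (la (C r) * e (C r) * mb r)) j j' c d :=
    { hm := hp.hm
      hP := hp.hP
      l0 := hp.l0
      hω := hp.hω
      he1 := fun r hr => (hd.he _ (hp.Cm r hr)).trans (Real.exp_le_exp.2 (neg_le_neg (hp.h1 r hr)))
      he2 := fun r hr => (hd.he _ (hp.Cm r hr)).trans (Real.exp_le_exp.2 (neg_le_neg (hp.h2 r hr)))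
      e0 := fun r hr => hd.e0 _ (hp.Cm r hr)
      d1 := fun r hr => by
        have hr' : r ∈ Icc 0 t := ⟨hr.1, hr.2.trans hs.2⟩
        exact ((hd.dJ1 _ (hp.Cm r hr')).comp r (hp.dC r hr')).sub
          (((hd.dLE _ (hp.Cm r hr')).comp r (hp.dC r hr')).const_mul _)
      d2 := dj
      a1 := fun r hr => by
        have hr' : r ∈ Icc 0 t := ⟨hr.1, hr.2.trans hs.2⟩
        have i1 := mul_le_mul_of_nonneg_left (hd.j1a _ (hp.Cm r hr')) (hp.mb0 r hr')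
        have i2 : 0 ≤ (k2 - ks) * ((1 - la (C r)) * (e (C r) * mb r)) :=
          mul_nonneg (sub_nonneg.2 hk) (mul_nonneg (sub_nonneg.2 (hd.la1 _ (hp.Cm r hr')))
            (mul_nonneg (hd.e0 _ (hp.Cm r hr')) (hp.mb0 r hr')))
        nlinarith
      b1 := fun r hr => by
        have hr' : r ∈ Icc 0 t := ⟨hr.1, hr.2.trans hs.2⟩
        have e0 := hd.e0 _ (hp.Cm r hr')
        have m0 := hp.mb0 r hr'
        -- lo z ≤ mb j1
        have i1 : lo r * (1 + ω (C r) - 2 * ks * e (C r)) ≤ mb r * j1 (C r) := by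
          rcases le_total 0 (1 + ω (C r) - 2 * ks * e (C r)) with h | h
          · exact (mul_le_mul_of_nonneg_right (hp.lm r hr') h).trans
              (mul_le_mul_of_nonneg_left (hd.j1a _ (hp.Cm r hr')) m0)
          · have i3 := mul_le_mul_of_nonneg_left (hd.j1b _ (hp.Cm r hr')) m0
            have i4 := mul_le_mul_of_nonpos_right (hp.ll r hr') h
            nlinarith
        have i2 : 0 ≤ (k2 - ks) * ((lo r - la (C r) * mb r) * e (C r)) :=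
          mul_nonneg (sub_nonneg.2 hk) (mul_nonneg (sub_nonneg.2 (hp.ll r hr')) e0)
        nlinarith
      a2 := ja
      b2 := jb }
  have := key.DiS_le hc hF hZ hx ht hs cl hn1 hn2
  exact this

/-- **the deleted closure** -/
theorem Dz.del : DiS Z F x P lo D c d t s 0 n1 n2 ≤ x c d * (J1 (C s) - J1 (C 0)
    - 2 * (k2 - ks) * (LE (C s) - LE (C 0))) := by
  have key := hd.sx hc hF hZ hx ht hs cl hp hk hn1 hn2 0 (j := fun _ => 0) (j' := fun _ => 0)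
    (fun r _ => hasDerivAt_const r 0) (fun r hr => ?_) (fun r hr => ?_)
  · refine key.trans (le_of_eq ?_)
    ring
  · have hr' : r ∈ Icc 0 t := ⟨hs.1.trans hr.1, hr.2⟩
    have := hd.ωk _ (hp.Cm r hr')
    exact mul_nonpos_of_nonneg_of_nonpos (hp.mb0 r hr') (by linarith)
  · have hr' : r ∈ Icc 0 t := ⟨hs.1.trans hr.1, hr.2⟩
    have := hd.ωk _ (hp.Cm r hr')
    exact mul_nonpos_of_nonneg_of_nonpos (hp.l0 r hr') (by linarith)

/-- **the released closure** -/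
theorem Dz.rel : DiS Z F x P lo D c d t s 1 n1 n2 ≤ x c d * (J1 (C s) - J1 (C 0)
    - 2 * (k2 - ks) * (LE (C s) - LE (C 0)) + (J2 (C t) - J2 (C s))) := by
  have key := hd.sx hc hF hZ hx ht hs cl hp hk hn1 hn2 1 (j := fun r => J2 (C r))
    (j' := fun r => j2 (C r) * mb r) (fun r hr => ?_) (fun r hr => ?_) (fun r hr => ?_)
  · refine key.trans (le_of_eq ?_)
    ring
  · have hr' : r ∈ Icc 0 t := ⟨hs.1.trans hr.1, hr.2⟩
    exact (hd.dJ2 _ (hp.Cm r hr')).comp r (hp.dC r hr')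
  · have hr' : r ∈ Icc 0 t := ⟨hs.1.trans hr.1, hr.2⟩
    have := mul_le_mul_of_nonneg_left (hd.j2a _ (hp.Cm r hr')) (hp.mb0 r hr')
    linarith
  · have hr' : r ∈ Icc 0 t := ⟨hs.1.trans hr.1, hr.2⟩
    have h1 := hd.j2a _ (hp.Cm r hr')
    have h2 := hd.j20 _ (hp.Cm r hr')
    rcases le_total 0 (1 + ω (C r) - k1 * e (C r)) with h | h
    · have i1 := mul_le_mul_of_nonneg_right (hp.lm r hr') h
      have i2 := mul_le_mul_of_nonneg_left h1 (hp.mb0 r hr')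
      linarith
    · have i1 := mul_nonpos_of_nonneg_of_nonpos (hp.l0 r hr') h
      have i2 := mul_nonneg h2 (hp.mb0 r hr')
      linarith

end dz

end Pool.Agent.RX.RCN.K
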