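import Pool.Agent.RX.RCN.CkL_1
import Pool.Agent.RX.RCN.DrB
import Pool.Agent.RX.RCN.YlA

/-! The exponents with the signed direct part: the lists of a group (MP_73ccd0_lc, route M). -/

namespace Pool.Agent.RX.RCN.K

open Set Finset Pool.Agent.RX.RCRSHalf Pool.Agent.RX.RCM9 Pool.Agent.RX.RCM9.Bern Pool.Agent.RX.RCM9.Pk
  Pool.Agent.RX.RCN.Ck1

set_option linter.unusedSectionVars false

/-- monotone lists -/
theorem pv_mono {l : List ℚ} {U : ℝ} (h : ∀ u ∈ Icc 0 U, 0 ≤ pv (pd l) u) {u v : ℝ}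
    (h0 : 0 ≤ u) (huv : u ≤ v) (hv : v ≤ U) : pv l u ≤ pv l v := by
  have key := nonneg_of_forward (a := u) (s := v)
    (U := fun z => pv l z - pv l u) (U' := fun z => pv (pd l) z - 0)
    (fun z _ => (hasDerivAt_pv l z).sub (hasDerivAt_const _ _)) (by simp)
    (fun z hz _ => by
      have := h z ⟨h0.trans hz.1, hz.2.trans hv⟩
      linarith) v ⟨huv, le_rfl⟩
  linarith

namespace Nl

variable (k : Nl) (l : Yl)

/-- the functions of a cell with the end `U` of the clock -/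
noncomputable def yn (U : ℝ) : Yn where
  gV := fun u => pv (pri k.nV) U - pv (pri k.nV) u
  gV' := pv k.nV
  gW := fun u => pv (pri k.nW) U - pv (pri k.nW) u
  gW' := pv k.nW
  gw := fun u => pv (pri k.nw) U - pv (pri k.nw) u
  gw' := pv k.nw
  g1 := fun u => pv (pri k.n1) U - pv (pri k.n1) u
  g1' := pv k.n1

variable {k l} {D : ℤ} {n : ℕ}

theorem pv_ad (h : List ℚ) (u : ℝ) :
    pv (ad l h) u = ((evq (pri h) l.Ug : ℚ) : ℝ) - pv (pri h) u := by
  rw [ad, pv_lsub]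
  simp only [pv, mul_zero, add_zero]

theorem up {p : List ℚ} (hp : nn D n 0 l.Ug p = true) {U : ℝ} (U0 : 0 ≤ U) (hU : U ≤ l.Ug) :
    pv (pri p) U ≤ ((evq (pri p) l.Ug : ℚ) : ℝ) := by
  rw [evq_pv]
  have := Xl.pri_sub_nonneg (p := p) (U := (l.Ug : ℝ)) (fun u hu => nn_le hp (by simpa using hu))
    (u := U) ⟨U0, hU⟩
  linarith

theorem pri_mono {p : List ℚ} (hp : nn D n 0 l.Ug p = true) {u v : ℝ} (h0 : 0 ≤ u) (h : u ≤ v)
    (hv : v ≤ l.Ug) : pv (pri p) u ≤ pv (pri p) v := by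
  have := Xl.pri_sub_nonneg (p := p) (U := v) (fun w hw => nn_le hp (by
    simpa using (⟨hw.1, hw.2.trans hv⟩ : w ∈ Icc (0 : ℝ) l.Ug))) (u := u) ⟨h0, h⟩
  linarith

/-- **soundness** -/
theorem ok_of {Gk Mk : ℝ → ℝ → ℝ} (h : k.ok l D n = true) {U : ℝ} (U0 : 0 < U) (hU : U ≤ l.Ug)
    (hF : l.Fx Gk Mk) {D' : ℤ} {n' : ℕ} (hl : l.ok D' n' = true) : (k.yn U).Ok (l.yf U) := by
  simp only [ok, Bool.and_eq_true, and_assoc] at h
  obtain ⟨nV0, nW0, nw0, n10, oV, oW, ow, o1, -, -, -⟩ := h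
  have hf := Yl.ok_of hl hF U0 hU
  have mm : ∀ u ∈ Icc 0 U, u ∈ Icc ((0 : ℚ) : ℝ) (l.Ug : ℝ) := fun u hu => by
    refine ⟨?_, hu.2.trans hU⟩
    simpa using hu.1
  have mm' : ∀ u ∈ Icc 0 U, u ∈ Icc (0 : ℝ) (l.Ug : ℝ) := fun u hu => ⟨hu.1, hu.2.trans hU⟩
  have k1 : (1 : ℝ) ∈ Icc (0 : ℝ) 1 := ⟨zero_le_one, le_rfl⟩
  have AM0 : ∀ u ∈ Icc 0 U, 0 ≤ pv l.AM u := fun u hu => by
    have := hF.aM 1 k1 u (mm' u hu); simpa using this
  have AP0 : ∀ u ∈ Icc 0 U, 0 ≤ pv l.AP u := fun u hu => by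
    have := hF.aP 1 k1 u (mm' u hu); simpa using this
  have R0 : ∀ u ∈ Icc 0 U, 0 ≤ pv l.R u := fun u hu => by
    have := hf.hR 1 k1 u hu
    have e : (l.yf U).rw 1 u = 0 := by
      unfold Yf.rw
      simp
    rw [e, mul_zero] at this
    exact this
  have q0 := hf.q0
  have m0 := hf.m0
  have b0 := hf.b0
  have q0' : (0 : ℝ) ≤ l.q := q0
  have m0' : (0 : ℝ) ≤ l.m := m0
  have b0' : (0 : ℝ) ≤ l.b1 := b0
  have C40 : ∀ u ∈ Icc 0 U, 0 ≤ pv l.C4l u := fun u hu => by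
    have := hu.1
    simp only [Yl.C4l, pv]
    push_cast
    positivity
  have C10 : ∀ u ∈ Icc 0 U, 0 ≤ pv l.C1l u := fun u hu => by
    have := hu.1
    simp only [Yl.C1l, pv]
    push_cast
    positivity
  have x30 : ∀ u ∈ Icc 0 U, 0 ≤ pv l.x3l u := fun u hu => by
    rw [Yl.pv_x3l]
    have := hu.1
    positivity
  have nv : ∀ {p : List ℚ}, nn D n 0 l.Ug p = true → ∀ u ∈ Icc 0 U,
      0 ≤ pv (pri p) U - pv (pri p) u := fun {p} hp u hu =>
    Xl.pri_sub_nonneg (fun v hv => nn_le hp (mm v hv)) hu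
  have le : ∀ {p : List ℚ}, nn D n 0 l.Ug p = true → ∀ u,
      pv (pri p) U - pv (pri p) u ≤ pv (ad l p) u := fun {p} hp u => by
    rw [pv_ad]; linarith [up (l := l) hp U0.le hU]
  exact
    { dgV := fun u _ => Xl.dneg_pri _ _ _
      dgW := fun u _ => Xl.dneg_pri _ _ _
      dgw := fun u _ => Xl.dneg_pri _ _ _
      dg1 := fun u _ => Xl.dneg_pri _ _ _
      gV0 := fun u hu => nv nV0 u hu
      gW0 := fun u hu => nv nW0 u hu
      gw0 := fun u hu => nv nw0 u hu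
      g10 := fun u hu => nv n10 u hu
      ogV := fun u hu => by
        have h := nn_sub oV (mm u hu)
        simp only [pv_ladd, pv_lmul, pv, mul_zero, add_zero] at h
        rw [← Yl.pv_C4l (U := U), ← Yl.pv_C1l (U := U)]
        have a1 := mul_le_mul_of_nonneg_left (le nV0 u) (mul_nonneg (AP0 u hu) (C40 u hu))
        have a2 := mul_le_mul_of_nonneg_left (le nW0 u) (add_nonneg
          (mul_nonneg (R0 u hu) (C10 u hu)) (mul_nonneg (AM0 u hu) (C40 u hu)))
        show pv l.AP u * pv l.C4l u * (pv (pri k.nV) U - pv (pri k.nV) u)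
          + (pv l.R u * pv l.C1l u + pv l.AM u * pv l.C4l u)
            * (1 + (pv (pri k.nW) U - pv (pri k.nW) u)) ≤ pv k.nV u
        push_cast at h
        linarith
      ogW := fun u hu => by
        have h := nn_sub oW (mm u hu)
        simp only [pv_ladd, pv_lmul, pv, mul_zero, add_zero] at h
        have a1 := mul_le_mul_of_nonneg_left (le nV0 u) (add_nonneg (R0 u hu) (AM0 u hu))
        have a2 := mul_le_mul_of_nonneg_left (le nW0 u) (AP0 u hu)
        show (pv l.R u + pv l.AM u) * (pv (pri k.nV) U - pv (pri k.nV) u)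
          + pv l.AP u * (1 + (pv (pri k.nW) U - pv (pri k.nW) u)) ≤ pv k.nW u
        push_cast at h
        linarith
      ogw := fun u hu => by
        have h := nn_sub ow (mm u hu)
        simp only [pv_ladd, pv_lmul, pv, mul_zero, add_zero] at h
        have a1 := mul_le_mul_of_nonneg_left (le nV0 u) (AP0 u hu)
        have a2 := mul_le_mul_of_nonneg_left (le nW0 u) (AM0 u hu)
        have a4 := mul_le_mul_of_nonneg_left (le nW0 u) (R0 u hu)
        show pv l.AP u * (pv (pri k.nV) U - pv (pri k.nV) u)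
          + pv l.AM u * (1 + (pv (pri k.nW) U - pv (pri k.nW) u))
          + pv l.R u * (pv (pri k.nW) U - pv (pri k.nW) u) ≤ pv k.nw u
        push_cast at h
        linarith
      og1 := fun u hu => by
        have h := nn_sub o1 (mm u hu)
        simp only [pv_ladd, pv_lmul, pv_lsmul, pv, mul_zero, add_zero] at h
        have a0 := mul_le_mul_of_nonneg_left (le nw0 u) b0'
        have a1 := mul_le_mul_of_nonneg_left (le nV0 u) (AP0 u hu)
        have a2 := mul_le_mul_of_nonneg_left (le nW0 u) (AM0 u hu)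
        have a4 : pv l.AP u * (pv (pri k.nV) U - pv (pri k.nV) u)
            + pv l.AM u * (1 + (pv (pri k.nW) U - pv (pri k.nW) u))
            ≤ pv l.AP u * pv (ad l k.nV) u + pv l.AM u * (1 + pv (ad l k.nW) u) := by linarith
        have a5 := mul_le_mul_of_nonneg_left a4 (x30 u hu)
        show (l.b1 : ℝ) * (pv (pri k.nw) U - pv (pri k.nw) u)
          + pv l.x3l u * (pv l.AP u * (pv (pri k.nV) U - pv (pri k.nV) u)
          + pv l.AM u * (1 + (pv (pri k.nW) U - pv (pri k.nW) u))) ≤ pv k.n1 u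
        push_cast at h
        linarith }

/-- the boundary part of the released closure for a single pair -/
theorem T2_le {Gk Mk : ℝ → ℝ → ℝ} (h : k.ok l D n = true) {U : ℝ} (U0 : 0 < U) (hU : U ≤ l.Ug)
    (hF : l.Fx Gk Mk) {D' : ℤ} {n' : ℕ} (hl : l.ok D' n' = true) {u : ℝ} (hu : u ∈ Icc 0 U)
    {y : ℝ} (hy : y ∈ Icc (0 : ℝ) 1) :
    (1 - y) * ((l.yf U).Eg y u * ((k.yn U).gV u * (l.yf U).Gm u
      + (1 + (k.yn U).gW u) * (l.yf U).Gp u)) ≤ pv k.T2 u := by
  have hn := ok_of h U0 hU hF hl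
  have hf := Yl.ok_of hl hF U0 hU
  simp only [ok, Bool.and_eq_true, and_assoc] at h
  obtain ⟨nV0, nW0, -, -, -, -, -, -, oT, -, -⟩ := h
  have hl' := hl
  simp only [Yl.ok, Bool.and_eq_true, and_assoc] at hl'
  obtain ⟨hA, -, -⟩ := hl'
  simp only [Yl.okA, Bool.and_eq_true, decide_eq_true_eq, and_assoc] at hA
  obtain ⟨-, -, -, -, -, -, -, -, -, -, z0, d0, -, -, dl1, -, zd, -⟩ := hA
  have hu' : u ∈ Icc ((0 : ℚ) : ℝ) (l.Ug : ℝ) := ⟨by simpa using hu.1, hu.2.trans hU⟩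
  have a0 := nn_le z0 hu'
  have a1 := nn_le d0 hu'
  have a2 := nn_sub dl1 hu'
  have a3 := nn_sub zd hu'
  simp only [pv_ladd, pv_lsmul, pv] at a2 a3
  push_cast at a2 a3
  have h1 := Mh_le hy (c := pv l.dl u) ⟨a1, by linarith⟩
  have h2 := exp_le_ex4 (z := pv l.z u) a0 (by linarith)
  have h3 : (0 : ℝ) ≤ (1 - y) * ((1 + 3 / 5 * y) * Real.exp (y * pv l.dl u)) :=
    mul_nonneg (by linarith [hy.2]) (mul_nonneg (by linarith [hy.1]) (Real.exp_pos _).le)
  have h4 := mul_le_mul h1 h2 (Real.exp_pos _).le (h3.trans h1)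
  have h5 := nn_sub oT hu'
  simp only [pv_ladd, pv_lmul, pv_cmpl, pv_e4l, pv, mul_zero, add_zero] at h5
  push_cast at h5
  have v0 := hn.gV0 u hu
  have w0 := hn.gW0 u hu
  have p0 := hf.Gp0 u hu
  have g0 := hf.Gm0 u hu
  have vl : (k.yn U).gV u ≤ pv (ad l k.nV) u := by
    rw [pv_ad]
    show pv (pri k.nV) U - pv (pri k.nV) u ≤ _
    linarith [up (l := l) nV0 U0.le hU]
  have wl : (k.yn U).gW u ≤ pv (ad l k.nW) u := by
    rw [pv_ad]
    show pv (pri k.nW) U - pv (pri k.nW) u ≤ _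
    linarith [up (l := l) nW0 U0.le hU]
  have b0 : 0 ≤ (k.yn U).gV u * (l.yf U).Gm u + (1 + (k.yn U).gW u) * (l.yf U).Gp u :=
    add_nonneg (mul_nonneg v0 g0) (mul_nonneg (by linarith) p0)
  have b1 : (k.yn U).gV u * (l.yf U).Gm u + (1 + (k.yn U).gW u) * (l.yf U).Gp u
      ≤ pv (ad l k.nV) u * pv l.Gm u + (1 + pv (ad l k.nW) u) * pv l.Gp u :=
    add_le_add (mul_le_mul_of_nonneg_right vl g0)
      (mul_le_mul_of_nonneg_right (by linarith) p0)
  have e : (1 - y) * (l.yf U).Eg y u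
      = (1 - y) * ((1 + 3 / 5 * y) * Real.exp (y * pv l.dl u)) * Real.exp (pv l.z u) := by
    show (1 - y) * ((1 + 3 / 5 * y) * Real.exp (pv l.z u + y * pv l.dl u)) = _
    rw [Real.exp_add]
    ring
  rw [← mul_assoc, e]
  exact (mul_le_mul h4 b1 b0 ((mul_nonneg h3 (Real.exp_pos _).le).trans h4)).trans h5

end Nl

end Pool.Agent.RX.RCN.K
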