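import Pool.Agent.RX.RCN.CkL_1
import Pool.Agent.RX.RCN.MGr

/-! The exponents with the signed direct part: the lists of a numeric cell (MP_73ccd0_lc,
route M). -/

namespace Pool.Agent.RX.RCN.K

open Set Finset MeasureTheory Pool.Agent.RX.RCRSHalf Pool.Agent.RX.RCG Pool.Agent.RX.RCG.Ct
open Pool.Agent.RX.RCM9 Pool.Agent.RX.RCM9.Bern Pool.Agent.RX.RCM9.Pk Pool.Agent.RX.RCN.Ck1

set_option linter.unusedSectionVars false

/-- lower bound of `e^{-z}` -/
theorem l3_le {z : ℝ} (hz : 0 ≤ z) : 1 - z + z ^ 2 / 2 - z ^ 3 / 6 ≤ Real.exp (-z) := by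
  have de : ∀ x : ℝ, HasDerivAt (fun v : ℝ => Real.exp (-v)) (-Real.exp (-x)) x := by
    intro x
    have := (hasDerivAt_neg x).exp
    refine this.congr_deriv ?_
    ring
  have up : ∀ v : ℝ, 0 ≤ v → Real.exp (-v) ≤ 1 - v + v ^ 2 / 2 := by
    intro v hv
    have key := nonneg_of_forward (a := 0) (s := v)
      (U := fun z => 1 - z + z ^ 2 / 2 - Real.exp (-z)) (U' := fun z => -1 + z + Real.exp (-z))
      (fun z _ => by
        have h1 := (((hasDerivAt_id' z).const_sub 1).add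
          (((hasDerivAt_id' z).pow 2).div_const 2)).sub (de z)
        refine h1.congr_deriv ?_
        norm_num) (by simp)
      (fun z hz _ => by
        have := Real.one_sub_le_exp_neg z
        linarith) v ⟨hv, le_rfl⟩
    linarith
  have key := nonneg_of_forward (a := 0) (s := z)
    (U := fun z => Real.exp (-z) - (1 - z + z ^ 2 / 2 - z ^ 3 / 6))
    (U' := fun z => -Real.exp (-z) - (-1 + z - z ^ 2 / 2))
    (fun z _ => by
      have h1 := (de z).sub ((((hasDerivAt_id' z).const_sub 1).add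
        (((hasDerivAt_id' z).pow 2).div_const 2)).sub (((hasDerivAt_id' z).pow 3).div_const 6))
      refine h1.congr_deriv ?_
      norm_num
      ring) (by simp)
    (fun z hz _ => by
      have := up z hz.1
      linarith) z ⟨hz, le_rfl⟩
  linarith

theorem pv_ol (nb : List ℚ) (u : ℝ) : pv (ol nb) u = pv nb u - pv nb u ^ 2 / 4 := by
  rw [ol, pv_lsub, pv_lsmul, pv_lmul]
  push_cast
  ring

namespace Dl

theorem pv_l3 (z : List ℚ) (u : ℝ) :
    pv (l3 z) u = 1 - pv z u + pv z u ^ 2 / 2 - pv z u ^ 3 / 6 := by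
  simp only [l3, pv_lsub, pv_ladd, pv_lsmul, pv_lmul, pv]
  push_cast
  ring

variable (c : Dl)

theorem pv_rev (v : ℝ) : pv c.rev v = (c.Cv : ℝ) - v := by
  simp only [rev, pv]
  push_cast
  ring

end Dl

/-- facts on the data used for the direct part -/
structure DnS (p : Ps) (Uo : ℝ) (nb la : List ℚ) : Prop where
  N : ∀ τ r : ℝ, 0 ≤ r → r ≤ τ → τ ≤ bt → 2 * p.y.N τ r ≤ pv nb (p.Cc τ - p.Cc r)
  om : ∀ u ∈ Icc 0 Uo, 0 ≤ pv (pd (ol nb)) u
  n2 : ∀ u ∈ Icc 0 Uo, pv nb u ≤ 2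
  la0 : ∀ v ∈ Icc 0 Uo, 0 ≤ pv la v
  la1 : ∀ v ∈ Icc 0 Uo, pv la v ≤ 1
  ll : ∀ r ∈ Icc 0 bt, pv la (p.Cc r) * pv p.z.mb r ≤ pv p.lo r
  lm : ∀ r ∈ Icc 0 bt, pv p.lo r ≤ pv p.z.mb r

end Pool.Agent.RX.RCN.K
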