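import Pool.Agent.RX.RCN.DrD
import Pool.Agent.RX.RCN.DrE

/-! The exponents with the signed direct part in a numeric cell (MP_73ccd0_lc, route M). -/

namespace Pool.Agent.RX.RCN.K

open Set Finset MeasureTheory Pool.Agent.RX.RCRSHalf Pool.Agent.RX.RCG Pool.Agent.RX.RCG.Ct
open Pool.Agent.RX.RCM9 Pool.Agent.RX.RCM9.Bern Pool.Agent.RX.RCM9.Pk Pool.Agent.RX.RCN.Ck1

set_option linter.unusedSectionVars false

namespace Dl

/-- the facts of a numeric cell -/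
structure Fa (c : Dl) (l : Yl) (k : Nl) (nb la : List ℚ) : Prop where
  Ca0 : (0 : ℝ) ≤ c.Ca
  CC : (c.Ca : ℝ) < c.Cv
  CU : (c.Cv : ℝ) ≤ l.Ug
  e1 : pv c.e 0 ≤ 1
  ν0 : (0 : ℝ) ≤ (c.ν1 l k : ℝ)
  k1 : (c.k1 : ℝ) ≤ Real.exp (-(c.ν1 l k : ℝ))
  e0 : ∀ v ∈ Icc (0 : ℝ) c.Cv, 0 ≤ pv c.e v
  ee : ∀ v ∈ Icc (0 : ℝ) c.Cv, pv (pd c.e) v + pv (c.Rh l) v * pv c.e v ≤ 0
  nu : ∀ C ∈ Icc (c.Ca : ℝ) c.Cv, ∀ w ∈ Icc (0 : ℝ) C, (c.ν1 l k : ℝ)
    + ((l.b1 : ℝ) / 2 * pv (c.W2 l) w + pv k.T2 (c.Cv - w))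
    + (pv (pri k.n1) C - pv (pri k.n1) (C - w)) ≤ 2 * pv c.nu w
  k2 : ∀ w ∈ Icc (0 : ℝ) c.Cv, pv c.k2 w ≤ Real.exp (-pv c.nu w)
  ks : ∀ w ∈ Icc (0 : ℝ) c.Cv, (c.ks : ℝ) ≤ pv c.k2 w
  j1a : ∀ v ∈ Icc (0 : ℝ) c.Cv, 1 + pv (c.om nb) v - 2 * (c.ks : ℝ) * pv c.e v ≤ pv c.j1 v
  j1b : ∀ v ∈ Icc (0 : ℝ) c.Cv,
    pv la v * (1 + pv (c.om nb) v - 2 * (c.ks : ℝ) * pv c.e v) ≤ pv c.j1 v
  j2 : ∀ v ∈ Icc (0 : ℝ) c.Cv, 0 ≤ pv (c.j2 nb) v
  j2e : ∀ v, pv (c.j2 nb) v = 1 + pv (c.om nb) v - (c.k1 : ℝ) * pv c.e v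
  ωk : ∀ v ∈ Icc (0 : ℝ) c.Cv, pv (c.om nb) v ≤ (c.k1 : ℝ) * pv c.e v
  del : ∀ w ∈ Icc (0 : ℝ) c.Cv, pv (pri c.j1) w
    - 2 * (pv c.k2 w - (c.ks : ℝ)) * pv (c.LE la) w ≤ c.dd
  rel : ∀ w ∈ Icc (0 : ℝ) c.Cv, pv (pri c.j1) w
    - 2 * (pv c.k2 w - (c.ks : ℝ)) * pv (c.LE la) w
    + (pv (pri (c.j2 nb)) c.Cv - pv (pri (c.j2 nb)) w) ≤ pv c.dR w
  dR0 : ∀ w ∈ Icc (0 : ℝ) c.Cv, 0 ≤ pv c.dR w
  kp : (c.dd : ℝ) + ((c.Cv : ℝ) - c.Ca) * pv (ol nb) ((c.Cv : ℝ) - c.Ca) ≤ c.kp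

theorem fa_of {c : Dl} {l : Yl} {k : Nl} {nb la : List ℚ} {D D' : ℤ} {n n' : ℕ}
    (h : c.ok l k nb la D n = true) (hk : k.ok l D' n' = true) : c.Fa l k nb la := by
  simp only [ok, Bool.and_eq_true, Bool.or_eq_true, decide_eq_true_eq, and_assoc] at h
  obtain ⟨Ca0, CC, CU, ks0, e1, ν0, k1, e0, ee, nA, nB, nu0, k2, ks, ja, jb, j2, ωk, dl, rl,
    dR0, kp⟩ := h
  have Ca0' : (0 : ℝ) ≤ c.Ca := by exact_mod_cast Ca0
  have CC' : (c.Ca : ℝ) < c.Cv := by exact_mod_cast CC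
  have CU' : (c.Cv : ℝ) ≤ l.Ug := by exact_mod_cast CU
  have m : ∀ v ∈ Icc (0 : ℝ) c.Cv, v ∈ Icc ((0 : ℚ) : ℝ) (c.Cv : ℝ) := fun v hv => by
    simpa using hv
  have ν0' : (0 : ℝ) ≤ (c.ν1 l k : ℝ) := by exact_mod_cast ν0
  have hn1 : nn D' n' 0 l.Ug k.n1 = true := by
    simp only [Nl.ok, Bool.and_eq_true, and_assoc] at hk
    exact hk.2.2.2.1
  have e3 : ∀ v, pv (c.j2 nb) v = 1 + pv (c.om nb) v - (c.k1 : ℝ) * pv c.e v := fun v => by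
    rw [Dl.j2, pv_lsub, pv_ladd, pv_lsmul]
    simp only [pv, mul_zero, add_zero, Rat.cast_one]
  have e4 : ∀ v, pv (c.zl nb) v = 1 + pv (c.om nb) v - 2 * (c.ks : ℝ) * pv c.e v := fun v => by
    rw [Dl.zl, pv_lsub, pv_ladd, pv_lsmul]
    simp only [pv, mul_zero, add_zero, Rat.cast_one]
    push_cast
    ring
  have e5 : ∀ w, pv (c.J la) w = pv (pri c.j1) w
      - 2 * (pv c.k2 w - (c.ks : ℝ)) * pv (c.LE la) w := fun w => by
    rw [Dl.J, pv_lsub, pv_lmul, pv_lsmul, pv_lsub]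
    simp only [pv, mul_zero, add_zero]
    push_cast
    ring
  have e6 : ∀ w, pv (c.nuB l k) w = (l.b1 : ℝ) / 2 * pv (c.W2 l) w + pv k.T2 (c.Cv - w) :=
    fun w => by
    rw [Dl.nuB, pv_ladd, pv_lsmul, pv_cmpl, pv_rev]
    push_cast
    ring
  have e7 : ((evq (pri k.n1) c.Cv : ℚ) : ℝ) = pv (pri k.n1) c.Cv := evq_pv _ _
  refine
    { Ca0 := Ca0', CC := CC', CU := CU', e1 := ?_, ν0 := ν0', k1 := ?_
      e0 := fun v hv => nn_le e0 (m v hv), ee := fun v hv => ?_, nu := ?_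
      k2 := fun w hw => ?_, ks := fun w hw => ?_, j1a := fun v hv => ?_, j1b := fun v hv => ?_
      j2 := fun v hv => nn_le j2 (m v hv), j2e := e3, ωk := fun v hv => ?_
      del := fun w hw => ?_, rel := fun w hw => ?_, dR0 := fun w hw => nn_le dR0 (m w hw)
      kp := ?_ }
  · have h1 : ((evq c.e 0 : ℚ) : ℝ) ≤ 1 := by exact_mod_cast e1
    rw [evq_pv] at h1
    simpa using h1
  · have h1 : (c.k1 : ℝ) ≤ 1 - (c.ν1 l k : ℝ) + (c.ν1 l k : ℝ) ^ 2 / 2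
        - (c.ν1 l k : ℝ) ^ 3 / 6 := by exact_mod_cast k1
    exact h1.trans (l3_le ν0')
  · have h1 := nn_sub ee (m v hv)
    rw [pv_lsmul, pv_lmul] at h1
    push_cast at h1
    linarith
  · intro C hC w hw
    have hwv : w ∈ Icc (0 : ℝ) c.Cv := ⟨hw.1, hw.2.trans hC.2⟩
    have h1 : pv (pri k.n1) C ≤ pv (pri k.n1) c.Cv :=
      Nl.pri_mono hn1 (Ca0'.trans hC.1) hC.2 CU'
    rcases le_or_gt w c.Ca with h2 | h2
    · rcases nA with h3 | h3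
      · have hw0 : w = 0 := by
          have : (c.Ca : ℝ) = 0 := by exact_mod_cast h3
          linarith [hw.1]
        have h4 := nn_sub nB (t := w) ⟨by rw [hw0]; exact_mod_cast h3.le, hwv.2⟩
        rw [pv_lsmul, pv_ladd, e6] at h4
        simp only [pv, mul_zero, add_zero] at h4
        push_cast at h4
        rw [e7] at h4
        have h5 : 0 ≤ pv (pri k.n1) (C - w) := by
          have := Nl.pri_mono hn1 (u := 0) le_rfl (by linarith [hw.2] : 0 ≤ C - w)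
            (by linarith [hC.2, hw.1, CU'])
          rwa [pri_zero] at this
        linarith
      · have h4 := nn_sub h3 (t := w) ⟨by simpa using hw.1, h2⟩
        rw [pv_lsmul, pv_ladd, pv_lsub, e6, pv_cmpl] at h4
        simp only [pv, mul_zero, add_zero] at h4
        push_cast at h4
        rw [e7] at h4
        have e8 : (c.Ca : ℝ) + w * -1 = c.Ca - w := by ring
        rw [e8] at h4
        have h5 : pv (pri k.n1) (c.Ca - w) ≤ pv (pri k.n1) (C - w) :=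
          Nl.pri_mono hn1 (by linarith) (by linarith [hC.1]) (by linarith [hC.2, hw.1, CU'])
        linarith
    · have h4 := nn_sub nB (t := w) ⟨h2.le, hwv.2⟩
      rw [pv_lsmul, pv_ladd, e6] at h4
      simp only [pv, mul_zero, add_zero] at h4
      push_cast at h4
      rw [e7] at h4
      have h5 : 0 ≤ pv (pri k.n1) (C - w) := by
        have := Nl.pri_mono hn1 (u := 0) le_rfl (by linarith [hw.2] : 0 ≤ C - w)
          (by linarith [hC.2, hw.1, CU'])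
        rwa [pri_zero] at this
      linarith
  · have h1 := nn_sub k2 (m w hw)
    rw [pv_l3] at h1
    exact h1.trans (l3_le (nn_le nu0 (m w hw)))
  · have h1 := nn_sub ks (m w hw)
    simp only [pv, mul_zero, add_zero] at h1
    exact h1
  · have h1 := nn_sub ja (m v hv)
    rwa [e4] at h1
  · have h1 := nn_sub jb (m v hv)
    rwa [pv_lmul, e4] at h1
  · have h1 := nn_sub ωk (m v hv)
    rwa [pv_lsmul] at h1
  · have h1 := nn_sub dl (m w hw)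
    rw [e5] at h1
    simp only [pv, mul_zero, add_zero] at h1
    exact h1
  · have h1 := nn_sub rl (m w hw)
    rw [pv_ladd, pv_lsub, e5] at h1
    simp only [pv, mul_zero, add_zero] at h1
    rwa [evq_pv] at h1
  · have h1 : (c.dd : ℝ) + ((c.Cv : ℝ) - c.Ca) * ((evq (ol nb) (c.Cv - c.Ca) : ℚ) : ℝ) ≤ c.kp := by
      exact_mod_cast kp
    rw [evq_pv] at h1
    push_cast at h1
    exact h1

end Dl

end Pool.Agent.RX.RCN.K
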