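import Pool.Agent.RX.RCN.DrA
import Pool.Agent.RX.RCN.DrC
import Pool.Agent.RX.RCN.DrF

/-! The exponents with the signed direct part in a numeric cell: the bounds (MP_73ccd0_lc,
route M). -/

namespace Pool.Agent.RX.RCN.K

open Set Finset MeasureTheory Pool.Agent.RX.RCRSHalf Pool.Agent.RX.RCG Pool.Agent.RX.RCG.Ct
open Pool.Agent.RX.RCM9 Pool.Agent.RX.RCM9.Bern Pool.Agent.RX.RCM9.Pk Pool.Agent.RX.RCN.Ck1

set_option linter.unusedSectionVars false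

/-- the kernel bound of a group of cells -/
theorem Yl.exR {l : Yl} {D : ℤ} {n : ℕ} (h : l.ok D n = true) {u : ℝ}
    (hu : u ∈ Icc (0 : ℝ) l.Ug) :
    Real.exp (2 * pv l.z u + 2 * pv l.dl u / 3) ≤ pv l.R u ∧ 0 ≤ pv l.dl u ∧ pv l.dl u ≤ 1 := by
  simp only [Yl.ok, Bool.and_eq_true, and_assoc] at h
  obtain ⟨hA, -, -⟩ := h
  simp only [Yl.okA, Bool.and_eq_true, decide_eq_true_eq, and_assoc] at hA
  obtain ⟨-, -, -, -, -, -, -, -, -, -, z0, d0, -, -, dl1, -, zd, -, -, -, -, hR, -⟩ := hA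
  have hu' : u ∈ Icc ((0 : ℚ) : ℝ) (l.Ug : ℝ) := by simpa using hu
  have a0 := nn_le z0 hu'
  have a1 := nn_le d0 hu'
  have a2 := nn_sub dl1 hu'
  have a3 := nn_sub zd hu'
  have a4 := nn_sub hR hu'
  simp only [pv_ladd, pv_lsmul, pv] at a2 a3
  rw [pv_e4l, pv_ladd, pv_lsmul, pv_lsmul] at a4
  push_cast at a2 a3 a4
  refine ⟨?_, a1, by linarith⟩
  have e1 : 2 * pv l.z u + 2 / 3 * pv l.dl u = 2 * pv l.z u + 2 * pv l.dl u / 3 := by ring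
  rw [e1] at a4
  exact (exp_le_ex4 (by positivity) (by linarith)).trans a4

/-- data of the world of a cell -/
structure Dw {V : Type*} [Fintype V] [DecidableEq V] (Z : Hzd) (F : Lz V) (x : V → V → ℝ)
    (P : V → Prop) [DecidablePred P] (lo : ℝ → ℝ) (D : Finset V) (G : Fm V) (α sg τ : ℝ)
    (B : ℝ → ℝ → ℝ) (mb C : ℝ → ℝ) (Gk Mk : ℝ → ℝ → ℝ) (c : Dl) (l : Yl) (nb la : List ℚ) :
    Prop where
  wx : Wx Z F x P τ D B G.gp G.gm (C τ) l.b1 (pv l.z) (pv l.dl) Gk Mk mb (fun r => C τ - C r)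
  gs : G.gs = G.gm
  tk : G.Tk Z F x P sg τ D B l.m l.q
  fx : l.Fx Gk Mk
  cl : ContinuousOn lo (Icc 0 τ)
  dC : ∀ r ∈ Icc 0 τ, HasDerivAt C (mb r) r
  C0 : C 0 = 0
  Cp : 0 < C τ
  Ca : (c.Ca : ℝ) ≤ C α
  Cv : C τ ≤ c.Cv
  N : ∀ e, ∀ r ∈ Icc 0 τ, 2 * F.n1 e r ≤ pv nb (C τ - C r)
  n0 : ∀ e, ∀ r ∈ Icc 0 τ, 0 ≤ F.n1 e r
  om : ∀ u ∈ Icc (0 : ℝ) c.Cv, 0 ≤ pv (pd (ol nb)) u
  n2 : ∀ u ∈ Icc (0 : ℝ) c.Cv, pv nb u ≤ 2
  la0 : ∀ v ∈ Icc (0 : ℝ) c.Cv, 0 ≤ pv la v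
  la1 : ∀ v ∈ Icc (0 : ℝ) c.Cv, pv la v ≤ 1
  ll : ∀ r ∈ Icc 0 τ, pv la (C r) * mb r ≤ lo r
  lm : ∀ r ∈ Icc 0 τ, lo r ≤ mb r

namespace Dl.Fa

variable {c : Dl} {l : Yl} {k : Nl} {nb la : List ℚ} (fa : c.Fa l k nb la)
include fa

theorem Cv0 : (0 : ℝ) < c.Cv := fa.Ca0.trans_lt fa.CC

theorem dd0 : (0 : ℝ) ≤ c.dd := by
  have := fa.del 0 ⟨le_rfl, fa.Cv0.le⟩
  rw [pri_zero, Dl.LE, pri_zero] at this
  linarith

theorem he {v : ℝ} (hv : v ∈ Icc (0 : ℝ) c.Cv) :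
    pv c.e v ≤ Real.exp (-(pv (pri (c.Rh l)) v - pv (pri (c.Rh l)) 0)) := by
  rw [pri_zero, sub_zero]
  have key := nonneg_of_forward (a := 0) (s := v)
    (U := fun z => 1 - pv c.e z * Real.exp (pv (pri (c.Rh l)) z))
    (U' := fun z => -((pv (pd c.e) z + pv (c.Rh l) z * pv c.e z)
      * Real.exp (pv (pri (c.Rh l)) z)))
    (fun z _ => by
      have h1 := ((hasDerivAt_pv c.e z).mul (hasDerivAt_pri (c.Rh l) z).exp).const_sub 1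
      refine h1.congr_deriv ?_
      ring) (by
        have := fa.e1
        simp only [pri_zero, Real.exp_zero, mul_one]
        linarith)
    (fun z hz _ => by
      have h1 := fa.ee z ⟨hz.1, hz.2.trans hv.2⟩
      have h2 := mul_nonneg (neg_nonneg.2 h1) (Real.exp_pos (pv (pri (c.Rh l)) z)).le
      linarith) v ⟨hv.1, le_rfl⟩
  have e1 : Real.exp (pv (pri (c.Rh l)) v) * Real.exp (-pv (pri (c.Rh l)) v) = 1 := by
    rw [← Real.exp_add]; simp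
  have e2 := mul_le_mul_of_nonneg_right (sub_nonneg.1 key)
    (Real.exp_pos (-pv (pri (c.Rh l)) v)).le
  rw [mul_assoc, e1] at e2
  linarith

theorem dz (la0 : ∀ v ∈ Icc (0 : ℝ) c.Cv, 0 ≤ pv la v)
    (la1 : ∀ v ∈ Icc (0 : ℝ) c.Cv, pv la v ≤ 1) :
    Dz c.Cv c.k1 c.ks (pv (pri (c.Rh l))) (pv (c.Rh l)) (pv c.e) (pv (c.om nb)) (pv la)
      (pv c.j1) (pv (pri c.j1)) (pv (c.LE la)) (pv (c.j2 nb)) (pv (pri (c.j2 nb))) where
  dRR v _ := hasDerivAt_pri _ _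
  e0 := fa.e0
  he v hv := fa.he hv
  la0 := la0
  la1 := la1
  j1a := fa.j1a
  j1b := fa.j1b
  dJ1 v _ := hasDerivAt_pri _ _
  dLE v _ := by
    have := hasDerivAt_pri (lmul la c.e) v
    rwa [pv_lmul] at this
  j2a v _ := (fa.j2e v).ge
  j20 := fa.j2
  dJ2 v _ := hasDerivAt_pri _ _
  ωk := fa.ωk

end Dl.Fa

theorem ol_mono {nb : List ℚ} {Cv : ℝ} (om : ∀ u ∈ Icc (0 : ℝ) Cv, 0 ≤ pv (pd (ol nb)) u)
    {u v : ℝ} (h0 : 0 ≤ u) (huv : u ≤ v) (hv : v ≤ Cv) : pv (ol nb) u ≤ pv (ol nb) v :=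
  pv_mono om h0 huv hv

/-- a majorant of `1 - T` -/
theorem ol_ge {nb : List ℚ} {n1 n2 u : ℝ}
    (h1 : 2 * n1 ≤ pv nb u) (h2 : 2 * n2 ≤ pv nb u) (h3 : pv nb u ≤ 2) :
    1 - (1 - n1) * (1 - n2) ≤ pv (ol nb) u := by
  rw [pv_ol]
  nlinarith [mul_nonneg (sub_nonneg.2 h1) (sub_nonneg.2 h3),
    mul_nonneg (sub_nonneg.2 h2) (by linarith : 0 ≤ 1 - n1)]

variable {V : Type*} [Fintype V] [DecidableEq V]
variable {Z : Hzd} {F : Lz V} {x : V → V → ℝ} {P : V → Prop} [DecidablePred P] {lo : ℝ → ℝ}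
variable {sl : ℝ → ℝ → ℝ} {α τ sg : ℝ} {B E1 : ℝ → ℝ → ℝ} {A D : Finset V} {G : Fm V}
variable {mb C : ℝ → ℝ} {Gk Mk : ℝ → ℝ → ℝ} {c : Dl} {l : Yl} {k : Nl} {nb la : List ℚ}

namespace Dw

variable (w : Dw Z F x P lo D G α sg τ B mb C Gk Mk c l nb la)

include w

theorem Cm {r : ℝ} (hr : r ∈ Icc 0 τ) : C r ∈ Icc 0 (C τ) := by
  have h1 := w.wx.um r hr
  have h2 := w.wx.um r hr
  refine ⟨?_, by linarith [h1.1]⟩
  linarith [h2.2]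

theorem Cmono {r r' : ℝ} (hr : 0 ≤ r) (hrr : r ≤ r') (hr' : r' ≤ τ) : C r ≤ C r' := by
  have key := nonneg_of_forward (a := r) (s := r')
    (U := fun z => C z - C r) (U' := fun z => mb z - 0)
    (fun z hz => (w.dC z ⟨hr.trans hz.1, hz.2.trans hr'⟩).sub (hasDerivAt_const _ _))
    (by simp)
    (fun z hz _ => by
      have := w.wx.mb0 z ⟨hr.trans hz.1, hz.2.trans hr'⟩
      linarith) r' ⟨hrr, le_rfl⟩
  linarith

/-- the leading part of a single pair in the clock -/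
theorem n1_half (fa : c.Fa l k nb la) {Dn Dk : ℤ} {nn' nk : ℕ} (hl : l.ok Dn nn' = true)
    (hk : k.ok l Dk nk = true) (hC : Z.Cf B E1) (hZ : Z.Ok sl) (hx : Wt x P 1) {i j : V}
    (hi : i ∈ Dᶜ) (hj : j ∈ Dᶜ) (hij : i ≠ j) {σ : ℝ} (hσ : σ ∈ Icc 0 τ) :
    N1 Z F x P D σ i j 0 ≤ (l.b1 : ℝ) / 2 * pv (c.W2 l) (C σ) := by
  have Cτ := w.Cv
  have CU := fa.CU
  have b0 : (0 : ℝ) ≤ l.b1 := by
    simp only [Yl.ok, Yl.okA, Bool.and_eq_true, decide_eq_true_eq, and_assoc] at hl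
    have : (0 : ℚ) ≤ l.b1 := hl.2.2.2.1
    exact_mod_cast this
  have hR' : ∀ u ∈ Icc (0 : ℝ) l.Ug, 0 ≤ pv (pd l.R) u := fun u hu => by
    simp only [Nl.ok, Bool.and_eq_true, and_assoc] at hk
    exact nn_le hk.2.2.2.2.2.2.2.2.2.2 (by simpa using hu)
  have um : ∀ r ∈ Icc 0 σ, r ∈ Icc 0 τ := fun r hr => ⟨hr.1, hr.2.trans hσ.2⟩
  have mU : ∀ r ∈ Icc 0 σ, C τ - C r ∈ Icc (0 : ℝ) l.Ug := fun r hr => by
    have := w.wx.um r (um r hr)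
    exact ⟨this.1, this.2.trans (Cτ.trans CU)⟩
  have key := N1_half (P := P) hC hZ hx w.wx hi hj hij hσ
    (fun r hr => (Yl.exR hl (mU r hr)).2.1) (fun r hr => (Yl.exR hl (mU r hr)).2.2)
    (R := fun r => pv l.R (C τ - C r))
    (g := fun r => (l.b1 : ℝ) * (pv (c.W2 l) (C r) + (C σ - C r) * pv (pri (c.Rh l)) (C r)))
    (g' := fun r => (l.b1 : ℝ) * (pv (pri (c.Rh l)) (C r) * mb r
      + (-mb r * pv (pri (c.Rh l)) (C r) + (C σ - C r) * (pv (c.Rh l) (C r) * mb r))))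
    (fun r hr => (Yl.exR hl (mU r hr)).1) (fun r hr => ?_) (fun r hr => ?_)
  · refine key.trans (le_of_eq ?_)
    have e0 : pv (c.W2 l) (C 0) = 0 := by rw [w.C0, Dl.W2, pri_zero]
    have e1 : pv (pri (c.Rh l)) (C 0) = 0 := by rw [w.C0, pri_zero]
    simp only [e0, e1, sub_self, zero_mul, mul_zero, add_zero, sub_zero]
    ring
  · have d1 := w.dC r (um r hr)
    have h1 := (hasDerivAt_pri (pri (c.Rh l)) (C r)).comp r d1
    have h2 := (hasDerivAt_pri (c.Rh l) (C r)).comp r d1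
    have h3 := ((d1.const_sub (C σ)).mul h2)
    exact (h1.add h3).const_mul _
  · have m0 := w.wx.mb0 r (um r hr)
    have d0 : 0 ≤ C σ - C r := sub_nonneg.2 (w.Cmono hr.1 hr.2 hσ.2)
    have h1 : pv l.R (C τ - C r) ≤ pv (c.Rh l) (C r) := by
      rw [Dl.Rh, pv_cmpl, Dl.pv_rev]
      exact pv_mono hR' (mU r hr).1 (by linarith)
        (by linarith [(w.Cm (um r hr)).1])
    have h2 := mul_le_mul_of_nonneg_left h1 (mul_nonneg (mul_nonneg b0 d0) m0)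
    have e1 : C τ - C r - (C τ - C σ) = C σ - C r := by ring
    rw [e1]
    linarith

/-- the row of the kernel in the clock -/
theorem dp (fa : c.Fa l k nb la) {Dn Dk : ℤ} {nn' nk : ℕ} (hl : l.ok Dn nn' = true)
    (hk : k.ok l Dk nk = true) (hc : Ctn F G α τ) (hF : F.OkN Z x P A D sg α τ)
    (hZ : Z.Ok sl) (hx : Wt x P 1) {t s : ℝ} (ht : t ∈ Icc α τ) (hs : s ∈ Icc 0 t)
    (hsg : s ≤ sg) {i j : V} (hi : i ∈ Dᶜ) (hj : j ∈ Dᶜ) (hij : i ≠ j)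
    (hP : (P i ∧ P j) ∨ x i j = 0) :
    Dp Z F x P lo D t s c.Cv mb C (pv (pri (c.Rh l))) (pv (c.om nb)) (pv la) i j := by
  have Cτ := w.Cv
  have CU := fa.CU
  have mt : ∀ r ∈ Icc 0 t, r ∈ Icc 0 τ := fun r hr => ⟨hr.1, hr.2.trans ht.2⟩
  have hf := Yl.ok_of hl w.fx w.Cp (Cτ.trans CU)
  have hR' : ∀ u ∈ Icc (0 : ℝ) l.Ug, 0 ≤ pv (pd l.R) u := fun u hu => by
    simp only [Nl.ok, Bool.and_eq_true, and_assoc] at hk
    exact nn_le hk.2.2.2.2.2.2.2.2.2.2 (by simpa using hu)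
  have CmV : ∀ r ∈ Icc 0 τ, C r ∈ Icc (0 : ℝ) c.Cv := fun r hr =>
    ⟨(w.Cm hr).1, (w.Cm hr).2.trans Cτ⟩
  have hK : ((l.yf (C τ)).yk mb (fun r => C τ - C r)).Ok Z F x P G.gp G.gm G.gm τ D B l.m l.q
      ((l.yf (C τ)).E (fun r => C τ - C r) x D) ((l.yf (C τ)).E' mb (fun r => C τ - C r) x D)
      ((l.yf (C τ)).κ (fun r => C τ - C r) x D)
      ((l.yf (C τ)).κ' mb (fun r => C τ - C r) x D) := hf.kOk hZ hx w.wx
  have rK : ∀ e ∈ Dᶜ, ∀ r ∈ Icc 0 τ, ∑ f ∈ Dᶜ, K1 Z F x P r e f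
      ≤ mb r * pv (c.Rh l) (C r) := fun e he r hr => by
    have H := hK.kv r hr
    have h1 : ∑ f ∈ Dᶜ, K1 Z F x P r e f ≤ mb r * pv l.R (C τ - C r) := H.row_R he
    refine h1.trans (mul_le_mul_of_nonneg_left ?_ (w.wx.mb0 r hr))
    rw [Dl.Rh, pv_cmpl, Dl.pv_rev]
    exact pv_mono hR' (w.wx.um r hr).1 (by linarith) (by linarith [(w.Cm hr).1])
  have dζ : ∀ r ∈ Icc 0 τ, HasDerivAt (fun r => pv (pri (c.Rh l)) (C r))
      (pv (c.Rh l) (C r) * mb r) r := fun r hr =>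
    (hasDerivAt_pri (c.Rh l) (C r)).comp r (w.dC r hr)
  have Z0 : ∀ {r : ℝ} {i j : V}, i ∈ Dᶜ → j ∈ Dᶜ → i ≠ j → r ∈ Icc 0 t →
      Z.Hh x P r i j 0
        + ∫ ρ in (0 : ℝ)..r, ∑ f ∈ (Dᶜ.erase i).erase j, K2 Z F x P t s ρ j f
      ≤ pv (pri (c.Rh l)) (C r) - pv (pri (c.Rh l)) 0 := fun {r i j} hi hj hij hr => by
    have := ze_le (ρ := fun r => mb r * pv (c.Rh l) (C r)) hc hF.toOk hZ hx ht hs hsg w.wx.y0
      rK dζ (fun r _ => (mul_comm _ _).le) hi hj hij hr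
    simpa only [w.C0] using this
  refine
    { hm := fun r hr => w.wx.hm r (mt r hr) i j
      hP := hP
      mb0 := fun r hr => w.wx.mb0 r (mt r hr)
      l0 := fun r hr => (mul_nonneg (w.la0 _ (CmV r (mt r hr)))
        (w.wx.mb0 r (mt r hr))).trans (w.ll r (mt r hr))
      lm := fun r hr => w.lm r (mt r hr)
      ll := fun r hr => w.ll r (mt r hr)
      dC := fun r hr => w.dC r (mt r hr)
      Cm := fun r hr => CmV r (mt r hr)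
      hω := fun r hr => ?_
      h1 := fun r hr => Z0 hi hj hij hr
      h2 := fun r hr => ?_ }
  · have hrτ := mt r hr
    have a1 := hF.nm t ht s hs hsg i r hr
    have a2 := hF.nm t ht s hs hsg j r hr
    have b1 := w.N i r hrτ
    have b2 := w.N j r hrτ
    have um := w.wx.um r hrτ
    have c1 := ol_ge (nb := nb) (n1 := F.n2 t s i r) (n2 := F.n2 t s j r) (u := C τ - C r)
      (by linarith) (by linarith) (w.n2 _ ⟨um.1, um.2.trans Cτ⟩)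
    refine (show wN F t s i j r ≤ _ from c1).trans ?_
    rw [Dl.om, pv_cmpl, Dl.pv_rev]
    exact ol_mono w.om um.1 (by linarith) (by linarith [(w.Cm hrτ).1])
  · rw [Hzd.Hh_symm hx]
    exact Z0 hj hi hij.symm hr

end Dw

end Pool.Agent.RX.RCN.K
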