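import Pool.Agent.RX.RCN.DrG
import Pool.Agent.RX.RCN.XrE

/-! The exponents with the signed direct part in a numeric cell: main theorem (MP_73ccd0_lc,
route M). -/

namespace Pool.Agent.RX.RCN.K

open Set Finset MeasureTheory Pool.Agent.RX.RCRSHalf Pool.Agent.RX.RCG Pool.Agent.RX.RCG.Ct
open Pool.Agent.RX.RCM9 Pool.Agent.RX.RCM9.Bern Pool.Agent.RX.RCM9.Pk Pool.Agent.RX.RCN.Ck1

set_option linter.unusedSectionVars false

variable {V : Type*} [Fintype V] [DecidableEq V]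
variable {Z : Hzd} {F : Lz V} {x : V → V → ℝ} {P : V → Prop} [DecidablePred P] {lo : ℝ → ℝ}
variable {sl : ℝ → ℝ → ℝ} {α τ sg : ℝ} {B E1 : ℝ → ℝ → ℝ} {A D : Finset V} {G : Fm V}
variable {mb C : ℝ → ℝ} {Gk Mk : ℝ → ℝ → ℝ} {c : Dl} {l : Yl} {k : Nl} {nb la : List ℚ}

section main

variable (w : Dw Z F x P lo D G α sg τ B mb C Gk Mk c l nb la)
  (fa : c.Fa l k nb la) {Dn Dk : ℤ} {nn' nk : ℕ} (hl : l.ok Dn nn' = true)
  (hk : k.ok l Dk nk = true) (hc : Ctn F G α τ) (hF : F.OkN Z x P A D sg α τ)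
  (hC : Z.Cf B E1) (hZ : Z.Ok sl) (hx : Wt x P 1)
  {t s : ℝ} (ht : t ∈ Icc α τ) (hs : s ∈ Icc 0 t) (hsg : s ≤ sg) {i j : V}
  (hi : i ∈ Dᶜ) (hj : j ∈ Dᶜ) (hij : i ≠ j)

include w fa hl hk hc hF hC hZ hx ht hs hsg hi hj hij

/-- the leading parts of a pair -/
theorem Dw.lead {σ : ℝ} (h0 : 0 ≤ σ) (hσ : σ ≤ t) :
    N2 Z F x P D t s σ i j 0 ≤ (l.b1 : ℝ) / 2 * pv (c.W2 l) (C σ) :=
  (N2_le_N1 hc hF.toOk hZ hx ht hs hsg h0 hσ le_rfl (hσ.trans ht.2) i j).trans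
    (w.n1_half fa hl hk hC hZ hx hi hj hij ⟨h0, hσ.trans ht.2⟩)

/-- the first exponent -/
theorem Dw.first : N2 Z F x P D t s t i j 0 + G.n i j 0 ≤ (c.ν1 l k : ℝ) := by
  have τ0 := w.wx.τ1.1
  have Cτ := w.Cv
  have CU := fa.CU
  have t0 : 0 ≤ t := hs.1.trans hs.2
  have htτ : t ∈ Icc 0 τ := ⟨t0, ht.2⟩
  have hττ : τ ∈ Icc 0 τ := ⟨τ0, le_rfl⟩
  have hf := Yl.ok_of hl w.fx w.Cp (Cτ.trans CU)
  have hn := Nl.ok_of hk w.Cp (Cτ.trans CU) w.fx hl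
  have b0 : (0 : ℝ) ≤ l.b1 := hf.b0
  have a1 := w.lead fa hl hk hc hF hC hZ hx ht hs hsg hi hj hij t0 le_rfl
  -- monotone leading part
  have Rh0 : ∀ v ∈ Icc (0 : ℝ) c.Cv, 0 ≤ pv (c.Rh l) v := fun v hv => by
    rw [Dl.Rh, pv_cmpl, Dl.pv_rev]
    have hu : (c.Cv : ℝ) - v ∈ Icc (0 : ℝ) l.Ug :=
      ⟨by linarith [hv.2], by linarith [hv.1]⟩
    exact (Real.exp_pos _).le.trans (Yl.exR hl hu).1
  have P0 : ∀ v ∈ Icc (0 : ℝ) c.Cv, 0 ≤ pv (pri (c.Rh l)) v := fun v hv => by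
    have := pv_mono (l := pri (c.Rh l)) (U := (c.Cv : ℝ)) (fun u hu => by
      rw [pd_pri]; exact Rh0 u hu) le_rfl hv.1 hv.2
    rwa [pri_zero] at this
  have a2 : pv (c.W2 l) (C t) ≤ pv (c.W2 l) c.Cv := by
    have hC1 := w.Cm htτ
    refine pv_mono (l := c.W2 l) (U := (c.Cv : ℝ)) (fun u hu => ?_) hC1.1
      (hC1.2.trans Cτ) le_rfl
    rw [Dl.W2, pd_pri]
    exact P0 u hu
  have a3 := mul_le_mul_of_nonneg_left a2 (by linarith : 0 ≤ (l.b1 : ℝ) / 2)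
  -- the tail
  have b1 := hn.nc_le (Z := Z) (F := F) (x := x) (P := P) (G := G) (sg := sg) (D := D) (B := B)
    (mb := mb) (u := fun r => C τ - C r) hf hC hZ hx w.wx w.gs w.tk hi
  have b2 : G.n i j 0 ≤ ∑ e ∈ Dᶜ.erase i, G.n i e 0 :=
    Finset.single_le_sum (f := fun e => G.n i e 0)
      (fun e _ => (w.tk.tc i hi).n0 e 0 ⟨le_rfl, τ0⟩)
      (Finset.mem_erase.2 ⟨hij.symm, hj⟩)
  have b3 : (k.yn (C τ)).g1 (C τ - C τ) = pv (pri k.n1) (C τ) := by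
    show pv (pri k.n1) (C τ) - pv (pri k.n1) (C τ - C τ) = _
    rw [sub_self, pri_zero, sub_zero]
  have hn1 : nn Dk nk 0 l.Ug k.n1 = true := by
    simp only [Nl.ok, Bool.and_eq_true, and_assoc] at hk
    exact hk.2.2.2.1
  have b4 : pv (pri k.n1) (C τ) ≤ pv (pri k.n1) c.Cv := Nl.pri_mono hn1 w.Cp.le Cτ CU
  have b5 : 0 ≤ pv (pri k.n1) (C τ) := by
    have := Nl.pri_mono hn1 (u := 0) le_rfl w.Cp.le (Cτ.trans CU)
    rwa [pri_zero] at this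
  have b6 : (1 - RCM.kx x D i) * (k.yn (C τ)).g1 (C τ - C τ) ≤ pv (pri k.n1) (C τ) := by
    rw [b3]
    have k0 := RCM.kx0 (wt_of hx) D i
    nlinarith [mul_nonneg k0 b5]
  have e1 : ((c.ν1 l k : ℚ) : ℝ) = (l.b1 : ℝ) / 2 * pv (c.W2 l) c.Cv + pv (pri k.n1) c.Cv := by
    rw [Dl.ν1]
    push_cast
    rw [evq_pv, evq_pv]
  rw [e1]
  have b7 : ∑ e ∈ Dᶜ.erase i, G.n i e 0 ≤ (1 - RCM.kx x D i) * (k.yn (C τ)).g1 (C τ - C τ) := b1
  linarith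

/-- the second exponent, deleted -/
theorem Dw.secD : N2 Z F x P D t s s j i 0 + G.nd s j i 0
    ≤ (l.b1 : ℝ) / 2 * pv (c.W2 l) (C s) + pv k.T2 (c.Cv - C s)
      + (pv (pri k.n1) (C τ) - pv (pri k.n1) (C τ - C s)) := by
  have Cτ := w.Cv
  have CU := fa.CU
  have hsτ : s ∈ Icc 0 τ := ⟨hs.1, hs.2.trans ht.2⟩
  have hs' : s ∈ Icc 0 sg := ⟨hs.1, hsg⟩
  have hf := Yl.ok_of hl w.fx w.Cp (Cτ.trans CU)
  have hn := Nl.ok_of hk w.Cp (Cτ.trans CU) w.fx hl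
  have a1 := w.lead fa hl hk hc hF hC hZ hx ht hs hsg hj hi hij.symm hs.1 hs.2
  have um := w.wx.um s hsτ
  have b1 : ∑ e ∈ Dᶜ.erase j, G.nd s j e 0 ≤ (1 - RCM.kx x D j) * (k.yn (C τ)).g1 (C τ - C s) :=
    hn.nd_le (Z := Z) (F := F) (x := x) (P := P) (G := G) (sg := sg) (D := D) (B := B)
      (mb := mb) (u := fun r => C τ - C r) hf hC hZ hx w.wx w.gs w.tk hsτ hsg hj
  have b2 : G.nd s j i 0 ≤ ∑ e ∈ Dᶜ.erase j, G.nd s j e 0 :=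
    Finset.single_le_sum (f := fun e => G.nd s j e 0)
      (fun e _ => (w.tk.td s hs' j hj).n0 e 0 ⟨le_rfl, hs.1⟩)
      (Finset.mem_erase.2 ⟨hij, hi⟩)
  have g0 := hn.g10 _ um
  have k0 := RCM.kx0 (wt_of hx) D j
  have b3 : (1 - RCM.kx x D j) * (k.yn (C τ)).g1 (C τ - C s) ≤ (k.yn (C τ)).g1 (C τ - C s) := by
    nlinarith [mul_nonneg k0 g0]
  have e3 : (k.yn (C τ)).g1 (C τ - C s) = pv (pri k.n1) (C τ) - pv (pri k.n1) (C τ - C s) := rfl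
  have T0 : 0 ≤ pv k.T2 (c.Cv - C s) := by
    have hu : (c.Cv : ℝ) - C s ∈ Icc (0 : ℝ) l.Ug := by
      have := w.Cm hsτ
      exact ⟨by linarith [this.2], by linarith [this.1]⟩
    have hp : ∀ u ∈ Icc (0 : ℝ) l.Ug, 0 ≤ pv (pd k.T2) u := fun u hu => by
      simp only [Nl.ok, Bool.and_eq_true, and_assoc] at hk
      exact nn_le hk.2.2.2.2.2.2.2.2.2.1 (by simpa using hu)
    have h0 := Nl.T2_le hk w.Cp (Cτ.trans CU) w.fx hl (u := 0) ⟨le_rfl, w.Cp.le⟩ (y := 1)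
      ⟨zero_le_one, le_rfl⟩
    rw [sub_self, zero_mul] at h0
    exact h0.trans (pv_mono hp le_rfl hu.1 hu.2)
  linarith

/-- the second exponent, released -/
theorem Dw.secT : N2 Z F x P D t s s j i 0 + G.nt s j i 0
    ≤ (l.b1 : ℝ) / 2 * pv (c.W2 l) (C s) + pv k.T2 (c.Cv - C s)
      + (pv (pri k.n1) (C τ) - pv (pri k.n1) (C τ - C s)) := by
  have Cτ := w.Cv
  have CU := fa.CU
  have hsτ : s ∈ Icc 0 τ := ⟨hs.1, hs.2.trans ht.2⟩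
  have hs' : s ∈ Icc 0 sg := ⟨hs.1, hsg⟩
  have hf := Yl.ok_of hl w.fx w.Cp (Cτ.trans CU)
  have hn := Nl.ok_of hk w.Cp (Cτ.trans CU) w.fx hl
  have a1 := w.lead fa hl hk hc hF hC hZ hx ht hs hsg hj hi hij.symm hs.1 hs.2
  have um := w.wx.um s hsτ
  have b1 : ∑ e ∈ Dᶜ.erase j, G.nt s j e 0 ≤ (1 - RCM.kx x D j)
      * ((l.yf (C τ)).Eg (RCM.kx x D j) (C τ - C s)
      * ((k.yn (C τ)).gV (C τ - C s) * (l.yf (C τ)).Gm (C τ - C s)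
        + (1 + (k.yn (C τ)).gW (C τ - C s)) * (l.yf (C τ)).Gp (C τ - C s))
        + (k.yn (C τ)).g1 (C τ - C s)) :=
    hn.nt_le (Z := Z) (F := F) (x := x) (P := P) (G := G) (sg := sg) (D := D) (B := B)
      (mb := mb) (u := fun r => C τ - C r) hf hC hZ hx w.wx w.gs w.tk hsτ hsg hj
  have b2 : G.nt s j i 0 ≤ ∑ e ∈ Dᶜ.erase j, G.nt s j e 0 :=
    Finset.single_le_sum (f := fun e => G.nt s j e 0)
      (fun e _ => (w.tk.tt s hs' j hj).n0 e 0 ⟨le_rfl, hs.1⟩)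
      (Finset.mem_erase.2 ⟨hij, hi⟩)
  have g0 := hn.g10 _ um
  have k0 := RCM.kx0 (wt_of hx) D j
  have k1 := RCM.kx1 (wt_of hx) D j
  have b3 : (1 - RCM.kx x D j) * (k.yn (C τ)).g1 (C τ - C s) ≤ (k.yn (C τ)).g1 (C τ - C s) := by
    nlinarith [mul_nonneg k0 g0]
  have e3 : (k.yn (C τ)).g1 (C τ - C s) = pv (pri k.n1) (C τ) - pv (pri k.n1) (C τ - C s) := rfl
  have b4 := Nl.T2_le hk w.Cp (Cτ.trans CU) w.fx hl um ⟨k0, k1⟩
  have b5 : pv k.T2 (C τ - C s) ≤ pv k.T2 (c.Cv - C s) := by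
    have hp : ∀ u ∈ Icc (0 : ℝ) l.Ug, 0 ≤ pv (pd k.T2) u := fun u hu => by
      simp only [Nl.ok, Bool.and_eq_true, and_assoc] at hk
      exact nn_le hk.2.2.2.2.2.2.2.2.2.1 (by simpa using hu)
    exact pv_mono hp um.1 (by linarith) (by linarith [(w.Cm hsτ).1])
  rw [mul_add] at b1
  linarith

/-- the pair function without its direct part at the time `t` -/
theorem Dw.gR (hP : (P i ∧ P j) ∨ x i j = 0) : gmR Z F x P G i j t ≤ gmR Z F x P G i j τ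
    + x i j * (((c.Cv : ℝ) - c.Ca) * pv (ol nb) (c.Cv - c.Ca)) := by
  have x0 := (xw_mem hx i j).1
  have α0 := hF.α0
  have Cτ := w.Cv
  have t0 : 0 ≤ t := hs.1.trans hs.2
  have mt : ∀ r ∈ Icc t τ, r ∈ Icc 0 τ := fun r hr => ⟨t0.trans hr.1, hr.2⟩
  set κ : ℝ := pv (ol nb) (c.Cv - c.Ca) with hκ
  have hCα : (c.Ca : ℝ) ≤ C t := w.Ca.trans (w.Cmono α0 ht.1 ht.2)
  have key := gmR_le (G := G) (c := i) (d := j) hF hZ hx ht (M := fun r => κ * C r)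
    (M' := fun r => κ * mb r) (fun r hr => (w.dC r (mt r hr)).const_mul _) fun r hr => ?_
  · have κ0 : 0 ≤ κ := by
      have h0 := ol_ge (nb := nb) (n1 := F.n1 i τ) (n2 := F.n1 i τ) (u := C τ - C τ)
        (w.N i τ ⟨w.wx.τ1.1, le_rfl⟩) (w.N i τ ⟨w.wx.τ1.1, le_rfl⟩)
        (w.n2 _ ⟨by simp, by rw [sub_self]; exact fa.Cv0.le⟩)
      have n0 := w.n0 i τ ⟨w.wx.τ1.1, le_rfl⟩
      have n1 := w.n2 0 ⟨le_rfl, fa.Cv0.le⟩
      have n2 := w.N i τ ⟨w.wx.τ1.1, le_rfl⟩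
      rw [sub_self] at h0 n2
      have h1 : 0 ≤ 1 - (1 - F.n1 i τ) * (1 - F.n1 i τ) := by nlinarith
      exact (h1.trans h0).trans (ol_mono w.om le_rfl (by linarith [fa.CC])
        (by linarith [fa.Ca0]))
    have h1 : κ * C τ - κ * C t ≤ ((c.Cv : ℝ) - c.Ca) * κ := by
      have := mul_le_mul_of_nonneg_left (by linarith : C τ - C t ≤ (c.Cv : ℝ) - c.Ca) κ0
      linarith
    have h2 := mul_le_mul_of_nonneg_left h1 x0
    linarith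
  · have hrτ := mt r hr
    have um := w.wx.um r hrτ
    have h1 := ol_ge (nb := nb) (n1 := F.n1 i r) (n2 := F.n1 j r) (u := C τ - C r)
      (w.N i r hrτ) (w.N j r hrτ) (w.n2 _ ⟨um.1, um.2.trans Cτ⟩)
    have h2 : pv (ol nb) (C τ - C r) ≤ κ := ol_mono w.om um.1
      (by linarith [w.Cmono t0 hr.1 hr.2]) (by linarith [fa.Ca0])
    have h3 := w.wx.hm r hrτ i j
    have m0 := w.wx.mb0 r hrτ
    have n1 := w.n0 i r hrτ
    have n2 := w.n0 j r hrτ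
    have n3 := w.N i r hrτ
    have n4 := w.N j r hrτ
    have n5 := w.n2 _ ⟨um.1, um.2.trans Cτ⟩
    have h4 : 0 ≤ 1 - (1 - F.n1 i r) * (1 - F.n1 j r) := by nlinarith
    show Z.hh x P r i j * (1 - (1 - F.n1 i r) * (1 - F.n1 j r)) ≤ _
    have h5 := mul_le_mul h3 (h1.trans h2) h4 (mul_nonneg x0 m0)
    linarith

end main

end Pool.Agent.RX.RCN.K
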