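import Pool.Agent.RX.RCN.DrH
import Pool.Agent.RX.RCN.YkS

/-! **The exponents with the signed direct part in a numeric cell** (MP_73ccd0_lc, route M). -/

namespace Pool.Agent.RX.RCN.K

open Set Finset MeasureTheory Pool.Agent.RX.RCRSHalf Pool.Agent.RX.RCG Pool.Agent.RX.RCG.Ct
open Pool.Agent.RX.RCM9 Pool.Agent.RX.RCM9.Bern Pool.Agent.RX.RCM9.Pk Pool.Agent.RX.RCN.Ck1

set_option linter.unusedSectionVars false

variable {V : Type*} [Fintype V] [DecidableEq V]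
variable {Z : Hzd} {F : Lz V} {x : V → V → ℝ} {P : V → Prop} [DecidablePred P] {lo : ℝ → ℝ}
variable {sl : ℝ → ℝ → ℝ} {α τ sg : ℝ} {B E1 : ℝ → ℝ → ℝ} {A D : Finset V} {G : Fm V}
variable {mb C : ℝ → ℝ} {Gk Mk : ℝ → ℝ → ℝ} {c : Dl} {l : Yl} {k : Nl} {nb la : List ℚ}

section defs

variable (Z : Hzd) (F : Lz V) (x : V → V → ℝ) (P : V → Prop) [DecidablePred P]
variable (G : Fm V) (τ : ℝ) (D : Finset V) (κ : ℝ)

/-- the deleted closure without the leading parts -/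
noncomputable def XSD (s : ℝ) (i j : V) : ℝ :=
  X0D Z F x P G τ D s i j + (gmR Z F x P G i j τ + x i j * κ)

/-- the released closure without the leading parts and the direct part -/
noncomputable def XST (s : ℝ) (i j : V) : ℝ :=
  X0T Z F x P G τ D s i j + (gmR Z F x P G i j τ + x i j * κ)

end defs

section main

variable (w : Dw Z F x P lo D G α sg τ B mb C Gk Mk c l nb la)
  (fa : c.Fa l k nb la) {Dn Dk : ℤ} {nn' nk : ℕ} (hl : l.ok Dn nn' = true)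
  (hk : k.ok l Dk nk = true) (hc : Ctn F G α τ) (hF : F.OkN Z x P A D sg α τ)
  (hC : Z.Cf B E1) (hZ : Z.Ok sl) (hx : Wt x P 1)
  {t s : ℝ} (ht : t ∈ Icc α τ) (hs : s ∈ Icc 0 t) (hsg : s ≤ sg) {i j : V}
  (hi : i ∈ Dᶜ) (hj : j ∈ Dᶜ) (hij : i ≠ j) (hP : (P i ∧ P j) ∨ x i j = 0)

include w fa hl hk hc hF hC hZ hx ht hs hsg hi hj hij hP

/-- **the deleted closure** -/
theorem Dw.LdS_le : LdS Z F x P lo G τ D i j t s
    ≤ N2 Z F x P D t s t i j 0 + N2 Z F x P D t s s j i 0 + XSD Z F x P G τ D c.kp s i j := by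
  have x0 := (xw_mem hx i j).1
  have hsτ : s ∈ Icc 0 τ := ⟨hs.1, hs.2.trans ht.2⟩
  have hwC : C s ∈ Icc (0 : ℝ) c.Cv := ⟨(w.Cm hsτ).1, (w.Cm hsτ).2.trans w.Cv⟩
  have hdz := fa.dz w.la0 w.la1
  have hdp := w.dp fa hl hk hc hF hZ hx ht hs hsg hi hj hij hP
  have a1 := w.first fa hl hk hc hF hC hZ hx ht hs hsg hi hj hij
  have a2 := w.secD fa hl hk hc hF hC hZ hx ht hs hsg hi hj hij
  have a3 := w.gR fa hl hk hc hF hC hZ hx ht hs hsg hi hj hij hP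
  have hCτ : C τ ∈ Icc (c.Ca : ℝ) c.Cv :=
    ⟨w.Ca.trans (w.Cmono hF.α0 (ht.1.trans ht.2) le_rfl), w.Cv⟩
  have b1 := fa.nu (C τ) hCτ (C s) (w.Cm hsτ)
  have b2 : (c.k1 : ℝ) ≤ Real.exp (-(N2 Z F x P D t s t i j 0 + G.n i j 0)) :=
    fa.k1.trans (Real.exp_le_exp.2 (neg_le_neg a1))
  have b3 := exp_two_ge (n1 := N2 Z F x P D t s t i j 0 + G.n i j 0)
    (n2 := N2 Z F x P D t s s j i 0 + G.nd s j i 0) (ν := pv c.nu (C s)) (by linarith)
  have b4 := fa.k2 (C s) hwC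
  have key := hdz.del hc hF hZ hx ht hs (w.cl.mono (Icc_subset_Icc_right ht.2)) hdp
    (k2 := pv c.k2 (C s)) (fa.ks (C s) hwC) b2 (by linarith)
  have e0 : pv (pri c.j1) (C 0) = 0 := by rw [w.C0, pri_zero]
  have e1 : pv (c.LE la) (C 0) = 0 := by rw [w.C0, Dl.LE, pri_zero]
  rw [e0, e1, sub_zero, sub_zero] at key
  have b5 := mul_le_mul_of_nonneg_left (fa.del (C s) hwC) x0
  have b6 := mul_le_mul_of_nonneg_left fa.kp x0
  unfold LdS XSD X0D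
  linarith

/-- **the released closure** -/
theorem Dw.LtS_le : LtS Z F x P lo G τ D i j t s
    ≤ N2 Z F x P D t s t i j 0 + N2 Z F x P D t s s j i 0 + x i j * pv c.dR (C s)
      + XST Z F x P G τ D c.kp s i j := by
  have x0 := (xw_mem hx i j).1
  have hsτ : s ∈ Icc 0 τ := ⟨hs.1, hs.2.trans ht.2⟩
  have htτ : t ∈ Icc 0 τ := ⟨hs.1.trans hs.2, ht.2⟩
  have hwC : C s ∈ Icc (0 : ℝ) c.Cv := ⟨(w.Cm hsτ).1, (w.Cm hsτ).2.trans w.Cv⟩
  have htC : C t ∈ Icc (0 : ℝ) c.Cv := ⟨(w.Cm htτ).1, (w.Cm htτ).2.trans w.Cv⟩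
  have hdz := fa.dz w.la0 w.la1
  have hdp := w.dp fa hl hk hc hF hZ hx ht hs hsg hi hj hij hP
  have a1 := w.first fa hl hk hc hF hC hZ hx ht hs hsg hi hj hij
  have a2 := w.secT fa hl hk hc hF hC hZ hx ht hs hsg hi hj hij
  have a3 := w.gR fa hl hk hc hF hC hZ hx ht hs hsg hi hj hij hP
  have hCτ : C τ ∈ Icc (c.Ca : ℝ) c.Cv :=
    ⟨w.Ca.trans (w.Cmono hF.α0 (ht.1.trans ht.2) le_rfl), w.Cv⟩
  have b1 := fa.nu (C τ) hCτ (C s) (w.Cm hsτ)
  have b2 : (c.k1 : ℝ) ≤ Real.exp (-(N2 Z F x P D t s t i j 0 + G.n i j 0)) :=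
    fa.k1.trans (Real.exp_le_exp.2 (neg_le_neg a1))
  have b3 := exp_two_ge (n1 := N2 Z F x P D t s t i j 0 + G.n i j 0)
    (n2 := N2 Z F x P D t s s j i 0 + G.nt s j i 0) (ν := pv c.nu (C s)) (by linarith)
  have b4 := fa.k2 (C s) hwC
  have key := hdz.rel hc hF hZ hx ht hs (w.cl.mono (Icc_subset_Icc_right ht.2)) hdp
    (k2 := pv c.k2 (C s)) (fa.ks (C s) hwC) b2 (by linarith)
  have e0 : pv (pri c.j1) (C 0) = 0 := by rw [w.C0, pri_zero]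
  have e1 : pv (c.LE la) (C 0) = 0 := by rw [w.C0, Dl.LE, pri_zero]
  rw [e0, e1, sub_zero, sub_zero] at key
  have e2 : pv (pri (c.j2 nb)) (C t) ≤ pv (pri (c.j2 nb)) c.Cv :=
    pv_mono (l := pri (c.j2 nb)) (U := (c.Cv : ℝ)) (fun u hu => by
      rw [pd_pri]; exact fa.j2 u hu) htC.1 htC.2 le_rfl
  have b5 := mul_le_mul_of_nonneg_left ((add_le_add_right (sub_le_sub_right e2
    (pv (pri (c.j2 nb)) (C s))) _).trans (fa.rel (C s) hwC)) x0
  have b6 := mul_le_mul_of_nonneg_left fa.kp x0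
  have b7 := mul_nonneg x0 fa.dd0
  unfold LtS XST X0T
  linarith

end main

/-! ### nonnegativity -/

section nn

variable {κ : ℝ}

end nn

end Pool.Agent.RX.RCN.K
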