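import Pool.Agent.RX.RCN.GexC
import Pool.Agent.RX.RCN.StF
import Pool.Agent.RX.RCN.YkS

/-! The parts of the exponents with the signed direct part: comparison with the star world, rows
of level 1/2, nonnegativity (MP_73ccd0_lc, route M). -/

namespace Pool.Agent.RX.RCN.K

open Set Finset MeasureTheory Pool.Agent.RX.RCRSHalf Pool.Agent.RX.RCG Pool.Agent.RX.RCG.Ct
open Pool.Agent.RX.RCN.Ker Pool.Agent.RX.RCRS Pool.Agent.RX.RCM9 Pool.Agent.RX.RCM9.Bern Pool.Agent.RX.RCM9.Pk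

set_option linter.unusedSectionVars false

variable {V : Type*} [Fintype V] [DecidableEq V]
variable {Z : Hzd} {F F' : Lz V} {x : V → V → ℝ} {P : V → Prop} [DecidablePred P]
variable {sl : ℝ → ℝ → ℝ} {τ sg : ℝ} {B E1 : ℝ → ℝ → ℝ} {m q κ κ' : ℝ} {D D' : Finset V}
variable {G G' : Fm V}

section star

variable (h : Cs Z F F' x P sg τ D D' B m q G G') (hC : Z.Cf B E1) (hZ : Z.Ok sl)
    (hx : Wt x P 1) (hτ : τ ≤ bt) {s : ℝ} (hs : s ∈ Icc 0 τ) (hsg : s ≤ sg)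
    {c d : V} (hc : c ∈ Dᶜ) (hd : d ∈ Dᶜ) (hcd : c ≠ d)
include h hC hZ hx hτ hs hsg hc hd hcd

/-- comparison of the deleted closures -/
theorem Cs.x0d : X0D Z F x P G τ D s c d ≤ X0D Z F' x P G' τ D' s c d := by
  have hDc : Dᶜ ⊆ D'ᶜ := Finset.compl_subset_compl.2 h.dd
  have hs' : s ∈ Icc 0 sg := ⟨hs.1, hsg⟩
  have τ0 : 0 ≤ τ := hs.1.trans hs.2
  have h00 : (0 : ℝ) ∈ Icc 0 τ := ⟨le_rfl, τ0⟩
  have h0s : (0 : ℝ) ∈ Icc 0 s := ⟨le_rfl, hs.1⟩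
  have hcd' : c ∈ Dᶜ.erase d := Finset.mem_erase.2 ⟨hcd, hc⟩
  have hdc' : d ∈ Dᶜ.erase c := Finset.mem_erase.2 ⟨hcd.symm, hd⟩
  have t := h.td hC hZ hx hτ hs hsg hd
  have k := h.kdd hC hZ hx hτ hs hc hd (h.tk.td s hs' d hd) (h.tk'.td s hs' d (hDc hd)) t
  have n1 := (h.tc hC hZ hx hτ τ0 hc d hdc' 0 h00).2
  have n2 := (t c hcd' 0 h0s).2
  unfold X0D
  rw [h.tk.d3, h.tk.c4, h.tk'.d3, h.tk'.c4]
  exact add_le_add k (add_le_add n1 n2)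

/-- comparison of the released closures -/
theorem Cs.x0t : X0T Z F x P G τ D s c d ≤ X0T Z F' x P G' τ D' s c d := by
  have hDc : Dᶜ ⊆ D'ᶜ := Finset.compl_subset_compl.2 h.dd
  have hs' : s ∈ Icc 0 sg := ⟨hs.1, hsg⟩
  have τ0 : 0 ≤ τ := hs.1.trans hs.2
  have h00 : (0 : ℝ) ∈ Icc 0 τ := ⟨le_rfl, τ0⟩
  have h0s : (0 : ℝ) ∈ Icc 0 s := ⟨le_rfl, hs.1⟩
  have hcd' : c ∈ Dᶜ.erase d := Finset.mem_erase.2 ⟨hcd, hc⟩
  have hdc' : d ∈ Dᶜ.erase c := Finset.mem_erase.2 ⟨hcd.symm, hd⟩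
  have t := h.tt hC hZ hx hτ hs hsg hd
  have k := h.kdd hC hZ hx hτ hs hc hd (h.tk.tt s hs' d hd) (h.tk'.tt s hs' d (hDc hd)) t
  have n1 := (h.tc hC hZ hx hτ τ0 hc d hdc' 0 h00).2
  have n2 := (t c hcd' 0 h0s).2
  have p1 := (h.tc hC hZ hx hτ τ0 hc d hdc' s hs).1
  unfold X0T
  rw [h.tk.d3, h.tk.c4, h.tk'.d3, h.tk'.c4]
  exact add_le_add (add_le_add k (add_le_add n1 n2)) p1

end star

/-! ### the pair function without its direct part -/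

/-- comparison of the pair functions without their direct parts -/
theorem gmR_cmp (h : RCM.Gs Dᶜ τ (K1 Z F x P) (RCM.Ab (Z.hh x P) F.y1)
      (RCM.Bw (Z.hh x P) F.n1) G.gp G.gm)
    (h' : RCM.Gs D'ᶜ τ (K1 Z F' x P) (RCM.Ab (Z.hh x P) F'.y1)
      (RCM.Bw (Z.hh x P) F'.n1) G'.gp G'.gm)
    (hDD : D' ⊆ D) (hZ : Z.Ok sl) (hx : Wt x P 1) (hτ : τ ∈ Icc (0 : ℝ) bt)
    (hdm : Dm F F' τ D) (hg : ∀ i ∈ Dᶜ, ∀ j ∈ Dᶜ, i ≠ j → ∀ r ∈ Icc 0 τ,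
      G.gp i j r ≤ G'.gp i j r ∧ G.gm i j r ≤ G'.gm i j r)
    (cn : ∀ e, ContinuousOn (F.n1 e) (Icc 0 τ)) (cn' : ∀ e, ContinuousOn (F'.n1 e) (Icc 0 τ))
    {i j : V} (hi : i ∈ Dᶜ) (hj : j ∈ Dᶜ) (hij : i ≠ j) :
    gmR Z F x P G i j τ ≤ gmR Z F' x P G' i j τ := by
  classical
  have hDc : Dᶜ ⊆ D'ᶜ := Finset.compl_subset_compl.2 hDD
  have m1 : ∀ r ∈ Icc 0 τ, r ∈ Icc (0 : ℝ) bt := fun r hr => ⟨hr.1, hr.2.trans hτ.2⟩
  have cB := Bw_cont hZ hx hτ.2 cn i j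
  have cB' := Bw_cont hZ hx hτ.2 cn' i j
  have key := int_le_prim (f := fun r => RCM.Bw (Z.hh x P) F'.n1 r i j
      - RCM.Bw (Z.hh x P) F.n1 r i j)
    (g := fun r => G.gm i j r - G'.gm i j r)
    (g' := fun r => -(RCM.Bw (Z.hh x P) F.n1 r i j + RCM.Fm Dᶜ (K1 Z F x P r)
        (fun a b => G.gp a b r) (fun a b => G.gm a b r) i j)
      - -(RCM.Bw (Z.hh x P) F'.n1 r i j + RCM.Fm D'ᶜ (K1 Z F' x P r)
        (fun a b => G'.gp a b r) (fun a b => G'.gm a b r) i j)) hτ.1 (cB'.sub cB)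
    (fun r hr => (h.dm i hi j hj hij r hr).sub (h'.dm i (hDc hi) j (hDc hj) hij r hr))
    fun r hr => ?_
  · have ii : ∀ {f : ℝ → ℝ}, ContinuousOn f (Icc 0 τ) → IntervalIntegrable f volume 0 τ :=
      fun {f} hf => by
      rw [← uIcc_of_le hτ.1] at hf
      exact hf.intervalIntegrable
    rw [intervalIntegral.integral_sub (ii cB') (ii cB), h.zm i hi j hj hij,
      h'.zm i (hDc hi) j (hDc hj) hij] at key
    unfold gmR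
    linarith
  · let pt : V → V → ℝ := fun a b => if a ∈ Dᶜ ∧ b ∈ Dᶜ ∧ a ≠ b then G.gp a b r else 0
    let mt : V → V → ℝ := fun a b => if a ∈ Dᶜ ∧ b ∈ Dᶜ ∧ a ≠ b then G.gm a b r else 0
    have pt0 : ∀ a b, 0 ≤ pt a b := fun a b => by
      show 0 ≤ if a ∈ Dᶜ ∧ b ∈ Dᶜ ∧ a ≠ b then G.gp a b r else 0
      split_ifs
      · exact h.p0 a b r hr
      · exact le_rfl
    have mt0 : ∀ a b, 0 ≤ mt a b := fun a b => by
      show 0 ≤ if a ∈ Dᶜ ∧ b ∈ Dᶜ ∧ a ≠ b then G.gm a b r else 0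
      split_ifs
      · exact h.m0 a b r hr
      · exact le_rfl
    have e1 : RCM.Fm Dᶜ (K1 Z F x P r) (fun a b => G.gp a b r) (fun a b => G.gm a b r) i j
        = RCM.Fm Dᶜ (K1 Z F x P r) pt mt i j := by
      refine RCM.Fm_congr hi hj (fun a ha b hb hab => ?_) (fun a ha b hb hab => ?_)
      · show G.gp a b r = if a ∈ Dᶜ ∧ b ∈ Dᶜ ∧ a ≠ b then G.gp a b r else 0
        rw [if_pos ⟨ha, hb, hab⟩]
      · show G.gm a b r = if a ∈ Dᶜ ∧ b ∈ Dᶜ ∧ a ≠ b then G.gm a b r else 0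
        rw [if_pos ⟨ha, hb, hab⟩]
    have e2 : RCM.Fm Dᶜ (K1 Z F x P r) pt mt i j ≤ RCM.Fm D'ᶜ (K1 Z F' x P r) pt mt i j :=
      RCM.Fm_mono_U hDc (fun i j => K1_nonneg hZ hx (m1 r hr) i j)
        (fun i hi j hj => hdm.K hZ hx hτ.2 hi hj hr) pt0 mt0 hi hj
    have e3 : RCM.Fm D'ᶜ (K1 Z F' x P r) pt mt i j ≤ RCM.Fm D'ᶜ (K1 Z F' x P r)
        (fun a b => G'.gp a b r) (fun a b => G'.gm a b r) i j :=
      RCM.Fm_mono (fun i j => K1_nonneg hZ hx (m1 r hr) i j) pt0 mt0 (fun a b => by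
        show (if a ∈ Dᶜ ∧ b ∈ Dᶜ ∧ a ≠ b then G.gp a b r else 0) ≤ _
        split_ifs with hc
        · exact (hg a hc.1 b hc.2.1 hc.2.2 r hr).1
        · exact h'.p0 a b r hr) (fun a b => by
        show (if a ∈ Dᶜ ∧ b ∈ Dᶜ ∧ a ≠ b then G.gm a b r else 0) ≤ _
        split_ifs with hc
        · exact (hg a hc.1 b hc.2.1 hc.2.2 r hr).2
        · exact h'.m0 a b r hr) i j
    rw [e1]
    linarith

/-- the pair function without its direct part is nonnegative -/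
theorem gmR_nonneg_s (h : RCM.Gs Dᶜ τ (K1 Z F x P) (RCM.Ab (Z.hh x P) F.y1)
      (RCM.Bw (Z.hh x P) F.n1) G.gp G.gm) (hZ : Z.Ok sl) (hx : Wt x P 1)
    (hτ : τ ∈ Icc (0 : ℝ) bt) (cn : ∀ e, ContinuousOn (F.n1 e) (Icc 0 τ))
    {i j : V} (hi : i ∈ Dᶜ) (hj : j ∈ Dᶜ) (hij : i ≠ j) : 0 ≤ gmR Z F x P G i j τ := by
  have m1 : ∀ r ∈ Icc 0 τ, r ∈ Icc (0 : ℝ) bt := fun r hr => ⟨hr.1, hr.2.trans hτ.2⟩
  have key := int_le_prim (f := fun r => RCM.Bw (Z.hh x P) F.n1 r i j)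
    (g := fun r => -G.gm i j r)
    (g' := fun r => - -(RCM.Bw (Z.hh x P) F.n1 r i j + RCM.Fm Dᶜ (K1 Z F x P r)
        (fun a b => G.gp a b r) (fun a b => G.gm a b r) i j)) hτ.1
    (Bw_cont hZ hx hτ.2 cn i j)
    (fun r hr => (h.dm i hi j hj hij r hr).neg) fun r hr => ?_
  · rw [h.zm i hi j hj hij] at key
    unfold gmR
    linarith
  · have T0 := K1_nonneg (F := F) hZ hx (m1 r hr)
    have p0 : ∀ a b, 0 ≤ G.gp a b r := fun a b => h.p0 a b r hr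
    have q0 : ∀ a b, 0 ≤ G.gm a b r := fun a b => h.m0 a b r hr
    have : 0 ≤ RCM.Fm Dᶜ (K1 Z F x P r) (fun a b => G.gp a b r) (fun a b => G.gm a b r) i j :=
      add_nonneg (RCM.Lf1_nonneg T0 p0 i j) (add_nonneg (RCM.qd_nonneg T0 p0 q0 i j)
        (RCM.qd_nonneg T0 q0 p0 i j))
    linarith

theorem gmR_symm (hx : Wt x P 1) (τ0 : 0 ≤ τ)
    (ms : ∀ i j, ∀ r ∈ Icc 0 τ, G.gm i j r = G.gm j i r) (i j : V) :
    gmR Z F x P G i j τ = gmR Z F x P G j i τ := by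
  unfold gmR
  rw [ms i j 0 ⟨le_rfl, τ0⟩]
  congr 1
  refine intervalIntegral.integral_congr fun r _ => ?_
  show Z.hh x P r i j * (1 - (1 - F.n1 i r) * (1 - F.n1 j r))
    = Z.hh x P r j i * (1 - (1 - F.n1 j r) * (1 - F.n1 i r))
  rw [Hzd.hh_symm hx r i j]
  ring

section rows

variable {p : Ps} {GR : List (List ℚ)}

/-- rows of the pair function without its direct part -/
theorem Grr.row (h : Grr p F x P τ D GR G.gm) (hτ : 0 ≤ τ) {e : V} (he : e ∈ Dᶜ) :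
    ∑ f ∈ Dᶜ.erase e, gmR p.z.hz F x P G e f τ
      ≤ (1 - RCM.kx x D e) * pv2 GR (RCM.kx x D e) (p.Cc τ) := by
  have h0 : (0 : ℝ) ∈ Icc 0 τ := ⟨le_rfl, hτ⟩
  have key := h e he 0 h0
  have e0 : p.Cc 0 = 0 := pri_zero _
  rw [e0, sub_zero] at key
  refine le_trans (le_of_eq ?_) key
  refine Finset.sum_congr rfl fun f _ => ?_
  unfold gmR
  rw [RCM.bk_eq h0]

/-- columns of the pair function without its direct part -/
theorem Grr.col (h : Grr p F x P τ D GR G.gm) (hx : Wt x P 1) (hτ : 0 ≤ τ)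
    (ms : ∀ i j, ∀ r ∈ Icc 0 τ, G.gm i j r = G.gm j i r) {e : V} (he : e ∈ Dᶜ) :
    ∑ f ∈ Dᶜ.erase e, gmR p.z.hz F x P G f e τ
      ≤ (1 - RCM.kx x D e) * pv2 GR (RCM.kx x D e) (p.Cc τ) := by
  refine le_trans (le_of_eq ?_) (h.row hτ he)
  exact Finset.sum_congr rfl fun f _ => gmR_symm hx hτ ms f e

end rows

/-! ### nonnegativity -/

namespace St

variable (hC : Z.Cf B E1) (hZ : Z.Ok sl) (hx : Wt x P 1) (hτ : τ ≤ bt)
  (hG : G.Tk Z F x P sg τ D B m q) {s : ℝ} (hs : s ∈ Icc 0 τ)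
  (hsg : s ≤ sg) {c d : V} (hcU : c ∈ Dᶜ) (hdU : d ∈ Dᶜ)
include hC hZ hx hτ hG hs hsg hcU hdU

theorem X0D_nonneg : 0 ≤ X0D Z F x P G τ D s c d := by
  have h00 : (0 : ℝ) ∈ Icc 0 τ := ⟨le_rfl, hs.1.trans hs.2⟩
  have hl := hG.td s ⟨hs.1, hsg⟩ d hdU
  have hn := hl.n0 c 0 ⟨le_rfl, hs.1⟩
  unfold X0D
  exact add_nonneg (St.Kdd_nonneg hC hZ hx hτ hG hs hcU hl)
    (add_nonneg ((hG.tc c hcU).n0 d 0 h00) hn)

theorem X0T_nonneg : 0 ≤ X0T Z F x P G τ D s c d := by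
  have h00 : (0 : ℝ) ∈ Icc 0 τ := ⟨le_rfl, hs.1.trans hs.2⟩
  have hl := hG.tt s ⟨hs.1, hsg⟩ d hdU
  have hn := hl.n0 c 0 ⟨le_rfl, hs.1⟩
  unfold X0T
  exact add_nonneg (add_nonneg (St.Kdd_nonneg hC hZ hx hτ hG hs hcU hl)
    (add_nonneg ((hG.tc c hcU).n0 d 0 h00) hn)) ((hG.tc c hcU).p0 d s hs)

end St

end Pool.Agent.RX.RCN.K
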