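import Pool.Agent.RX.RCN.MGr

/-! The families of all cells from the list data (MP_73ccd0_lc, route M). -/

namespace Pool.Agent.RX.RCN.K

open Set Finset MeasureTheory Pool.Agent.RX.RCRSHalf Pool.Agent.RX.RCG Pool.Agent.RX.RCG.Ct
open Pool.Agent.RX.RCN.Ker Pool.Agent.RX.RCRS Pool.Agent.RX.RCM9 Pool.Agent.RX.RCM9.Bern Pool.Agent.RX.RCM9.Pk
set_option linter.unusedSectionVars false

/-- the group of a cell: the first one which contains it -/
def grL : List MGr → ℕ → MGr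
  | [], _ => ⟨0, 0, 0, 0⟩
  | r :: l, i => if i < r.n then r else grL l i

theorem grL_mem {l : List MGr} {i : ℕ} (h : ∃ r ∈ l, i < r.n) : grL l i ∈ l ∧ i < (grL l i).n := by
  induction l with
  | nil => simp at h
  | cons r l ih =>
    by_cases hr : i < r.n
    · simp [grL, hr]
    · obtain ⟨v, hv, h1⟩ := h
      rcases List.mem_cons.1 hv with rfl | h2
      · exact absurd h1 hr
      · obtain ⟨h3, h4⟩ := ih ⟨v, h2, h1⟩
        simp only [grL, hr, if_false]
        exact ⟨List.mem_cons_of_mem _ h3, h4⟩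

theorem gr_ok {l : List MGr} {g : MDat} {z : HDat} {N : ℕ} (hl : ∀ r ∈ l, r.Ok g z N)
    (hN : (l.any fun r => decide (N ≤ r.n)) = true) :
    ∀ i < N, i < (grL l i).n ∧ (grL l i).Ok g z N := by
  intro i hi
  obtain ⟨r, hr, h1⟩ := List.any_eq_true.1 hN
  obtain ⟨h2, h3⟩ := grL_mem (i := i) ⟨r, hr, hi.trans_le (of_decide_eq_true h1)⟩
  exact ⟨h3, hl _ h2⟩

theorem cc_bt {p : Ps} {U : ℚ} (h : ev (pri p.z.mb) RCN.btq ≤ U) : p.Cc bt ≤ U := by
  have h1 : ((ev (pri p.z.mb) RCN.btq : ℚ) : ℝ) ≤ U := Rat.cast_le.2 h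
  rw [← pv_ev] at h1
  exact h1

variable {V : Type*} [Fintype V] [DecidableEq V]
variable {p : Ps} {x : V → V → ℝ} {P : V → Prop} [DecidablePred P] {gr : ℕ → MGr} {Hp Hm GR HR : List (List ℚ)} {N : ℕ}

end Pool.Agent.RX.RCN.K
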