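import Pool.Agent.RX.RCM.FmE
import Pool.Agent.RX.RCM.GTg
import Pool.Agent.RX.RCM9.DatZ
import Pool.Agent.RX.RCN.Ins

/-! The level 1/2 of the cells with the polynomial functions (MP_73ccd0_lc, route M). -/

namespace Pool.Agent.RX.RCN.K

open Set Finset MeasureTheory Pool.Agent.RX.RCRSHalf Pool.Agent.RX.RCG Pool.Agent.RX.RCG.Ct
open Pool.Agent.RX.RCN.Ker Pool.Agent.RX.RCRS Pool.Agent.RX.RCM9 Pool.Agent.RX.RCM9.Bern Pool.Agent.RX.RCM9.Pk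

set_option linter.unusedSectionVars false

variable {V : Type*} [Fintype V] [DecidableEq V]
variable {p : Ps} {x : V → V → ℝ} {P : V → Prop} [DecidablePred P] {a b : V} {sg τ : ℝ}

/-- the clock -/
noncomputable def Ps.ck (p : Ps) : ℝ → ℝ := pv (pri p.z.mb)

theorem Ps.ck_deriv (p : Ps) (t : ℝ) : HasDerivAt p.ck (pv p.z.mb t) t := hasDerivAt_pri _ t

theorem Ps.ck_zero (p : Ps) : p.ck 0 = 0 := pri_zero _

theorem Ps.ck_mono (hp : p.Ok) {s t : ℝ} (hs : 0 ≤ s) (hst : s ≤ t) (ht : t ≤ bt) :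
    p.ck s ≤ p.ck t := by
  have hm : MonotoneOn p.ck (Icc 0 bt) := by
    refine monotoneOn_of_deriv_nonneg (convex_Icc 0 bt)
      (fun t _ => (p.ck_deriv t).continuousAt.continuousWithinAt)
      (fun t _ => (p.ck_deriv t).differentiableAt.differentiableWithinAt) ?_
    intro t ht
    rw [(p.ck_deriv t).deriv]
    exact zero_le_one.trans (hp.z.mb_one (interior_subset ht))
  exact hm ⟨hs, hst.trans ht⟩ ⟨hs.trans hst, ht⟩ hst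

/-- level 0 in the clock variable -/
structure Ps.Gh (p : Ps) (U : ℝ) (Yb : ℝ → ℝ) : Prop where
  T : ∀ r t : ℝ, 0 ≤ r → r ≤ t → t ≤ bt → p.z.Th t r ≤ p.ck t - p.ck r
  Y : ∀ r t : ℝ, 0 ≤ r → r ≤ t → t ≤ bt → p.y.Y t r ≤ Yb (p.ck t - p.ck r)
  U : p.ck bt ≤ U

theorem ckx_of (hp : p.Ok) {U : ℝ} {Yb : ℝ → ℝ} (h : p.Gh U Yb) {D : Finset V}
    (hτ : τ ∈ Icc (0 : ℝ) bt) {θ : V → ℝ → ℝ}
    (hθ : ∀ w ∈ D, ∀ r ∈ Icc 0 τ, θ w r ≤ p.z.Th τ r) :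
    RCM.Ck U Yb D τ (pv p.z.mb) θ (p.y.Y τ) p.ck where
  dC r _ := p.ck_deriv r
  U := by
    rw [p.ck_zero, sub_zero]
    exact (Ps.ck_mono hp hτ.1 hτ.2 le_rfl).trans h.U
  θ w hw r hr := (hθ w hw r hr).trans (h.T r τ hr.1 hr.2 hτ.2)
  Y r hr := h.Y r τ hr.1 hr.2 hτ.2

theorem hs_of (hx : Wt x P 1) {Z : Hzd} : RCM.Hs (Z.hh x P) where
  s r u v := Hzd.hh_symm hx r u v
  z r u := Hzd.hh_zero (hx.diag u) r

/-- the cell of the world of `a`, `b` -/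
theorem cl_two (hp : p.Ok) (hx : Wt x P 1) (hab : a ≠ b) (hτ : τ ∈ Icc (0 : ℝ) bt)
    (hs : sg ∈ Icc 0 τ) {U : ℝ} {Yb : ℝ → ℝ} (h : p.Gh U Yb) :
    ∃ Y' N N' : ℝ → ℝ, RCM.Cl (p.z.hz.hh x P) x {a, b} τ (pv p.z.mb) (p.y.th2 p.z a τ sg)
      (p.y.Y τ) Y' N N' p.ck 2 U Yb := by
  obtain ⟨Y', N, N', hL⟩ := YDat.sy2 (P := P) hp.y hp.z hp.d hx hab hτ hs
  refine ⟨Y', N, N', hL, ⟨wt_of hx, Finset.card_le_two, Or.inr rfl⟩, hs_of hx, hτ.1,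
    ckx_of hp h hτ fun w _ r hr => ?_⟩
  unfold YDat.th2
  split_ifs
  · exact le_rfl
  · exact hp.y.tb_le hp.z hs.1 hs.2 hr.1 hr.2 le_rfl hτ.2

/-- `Gd` from `Ggq` -/
theorem gdx_of {Z : Hzd} {F : Lz V} {D : Finset V} {C : ℝ → ℝ} {c : RCM.Ct}
    {gp gm : V → V → ℝ → ℝ}
    (h : RCM.Ggq x D τ C c (RCM.Tb (Z.hh x P) F.y1) (RCM.Ab (Z.hh x P) F.y1)
      (RCM.Bw (Z.hh x P) F.n1) gp gm) : Gd Z F x P τ D gp gm gm where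
  g := h.g
  pz := h.pz
  mz := h.mz
  s0 i j r hr := h.m0 i j r hr
  es e _ i _ j _ _ r _ := by
    have := Real.add_one_le_exp (-(gm e i r + gm e j r))
    linarith
  cp := h.cp
  cm := h.cm
  cs := h.cm

/-- **level 1/2 of the world of `a`, `b` with its rows** -/
theorem exists_g2 (hp : p.Ok) (hx : Wt x P 1) (hab : a ≠ b) (hτ : τ ∈ Icc (0 : ℝ) bt)
    (hs : sg ∈ Icc 0 τ) {c : RCM.Ct} (hc : c.Ok 2) (h : p.Gh c.b.U c.b.Yb) :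
    ∃ gp gm : V → V → ℝ → ℝ,
      Gd p.z.hz (p.y.lz2 p.z x P a b sg τ) x P τ {a, b} gp gm gm ∧
      RCM.Ggq x {a, b} τ p.ck c (K1 p.z.hz (p.y.lz2 p.z x P a b sg τ) x P)
        (RCM.Ab (p.z.hz.hh x P) (p.y.lz2 p.z x P a b sg τ).y1)
        (RCM.Bw (p.z.hz.hh x P) (p.y.lz2 p.z x P a b sg τ).n1) gp gm ∧
      ∀ e ∈ ({a, b} : Finset V)ᶜ, ∀ r ∈ Icc 0 τ,
        ∑ f ∈ (({a, b} : Finset V)ᶜ).erase e, (gm e f r - RCM.bk (fun r =>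
          RCM.Bw (p.z.hz.hh x P) (p.y.lz2 p.z x P a b sg τ).n1 r e f) τ r)
          ≤ (1 - RCM.kx x {a, b} e) * (c.mR.Mb (RCM.kx x {a, b} e) (p.ck τ - p.ck r)
            + c.zm true (RCM.kx x {a, b} e) (p.ck τ - p.ck r)) := by
  obtain ⟨Y', N, N', hL⟩ := cl_two (P := P) hp hx hab hτ hs h
  obtain ⟨gp, gm, hG, hR⟩ := hL.exists_q hc
  exact ⟨gp, gm, gdx_of (F := p.y.lz2 p.z x P a b sg τ) hG, hG, hR⟩

end Pool.Agent.RX.RCN.K
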