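import Pool.Agent.RX.RCM9.CertG2
import Pool.Agent.RX.RCM9.CertG2X
import Pool.Agent.RX.RCM9.DatG2
import Pool.Agent.RX.RCN.GexA

/-! The level 1/2 of the cells with rows by rational lists (MP_73ccd0_lc, route M). -/

namespace Pool.Agent.RX.RCN.K

open Set Finset MeasureTheory Pool.Agent.RX.RCRSHalf Pool.Agent.RX.RCG Pool.Agent.RX.RCG.Ct
open Pool.Agent.RX.RCN.Ker Pool.Agent.RX.RCRS Pool.Agent.RX.RCM9 Pool.Agent.RX.RCM9.Bern Pool.Agent.RX.RCM9.Pk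
open Pool.Agent.RX.RCM9.G

set_option linter.unusedSectionVars false

variable {V : Type*} [Fintype V] [DecidableEq V]

/-- level 1/2 of a cell with exact derivatives and rows by lists; `k` is the weight to `D`,
`u = C τ - C r` -/
structure Gx (D : Finset V) (x : V → V → ℝ) (τ : ℝ) (C : ℝ → ℝ) (T A B : ℝ → V → V → ℝ)
    (h1 : List ℚ) (Gp Gm GmR Gph Gmh : List (List ℚ)) (gp gm : V → V → ℝ → ℝ) : Prop where
  dp : ∀ i ∈ Dᶜ, ∀ j ∈ Dᶜ, i ≠ j → ∀ r ∈ Icc 0 τ, HasDerivAt (gp i j)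
    (-(A r i j + RCM.Fp Dᶜ (T r) (fun a b => gp a b r) (fun a b => gm a b r) i j)) r
  dm : ∀ i ∈ Dᶜ, ∀ j ∈ Dᶜ, i ≠ j → ∀ r ∈ Icc 0 τ, HasDerivAt (gm i j)
    (-(B r i j + RCM.Fm Dᶜ (T r) (fun a b => gp a b r) (fun a b => gm a b r) i j)) r
  p0 : ∀ i j, ∀ r ∈ Icc 0 τ, 0 ≤ gp i j r
  m0 : ∀ i j, ∀ r ∈ Icc 0 τ, 0 ≤ gm i j r
  ps : ∀ i j, ∀ r ∈ Icc 0 τ, gp i j r = gp j i r
  ms : ∀ i j, ∀ r ∈ Icc 0 τ, gm i j r = gm j i r
  pz : ∀ i r, gp i i r = 0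
  mz : ∀ i r, gm i i r = 0
  pe : ∀ i j, gp i j τ = 0
  me : ∀ i j, gm i j τ = 0
  cp : ∀ i j, ContinuousOn (gp i j) (Icc 0 τ)
  cm : ∀ i j, ContinuousOn (gm i j) (Icc 0 τ)
  /-- plain rows -/
  rp : ∀ e ∈ Dᶜ, ∀ r ∈ Icc 0 τ, ∑ f ∈ Dᶜ, gp e f r
    ≤ (1 - RCM.kx x D e) * pv2 Gp (RCM.kx x D e) (C τ - C r)
  rm : ∀ e ∈ Dᶜ, ∀ r ∈ Icc 0 τ, ∑ f ∈ Dᶜ, gm e f r
    ≤ (1 - RCM.kx x D e) * pv2 Gm (RCM.kx x D e) (C τ - C r)
  /-- rows of `gm` without the direct part -/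
  rR : ∀ e ∈ Dᶜ, ∀ r ∈ Icc 0 τ,
    ∑ f ∈ Dᶜ.erase e, (gm e f r - RCM.bk (fun r => B r e f) τ r)
      ≤ (1 - RCM.kx x D e) * pv2 GmR (RCM.kx x D e) (C τ - C r)
  /-- rows with the test `(1 - k) h1 k` -/
  rph : ∀ e ∈ Dᶜ, ∀ r ∈ Icc 0 τ,
    ∑ f ∈ Dᶜ, gp e f r * ((1 - RCM.kx x D f) * pv h1 (RCM.kx x D f))
      ≤ (1 - RCM.kx x D e) * pv2 Gph (RCM.kx x D e) (C τ - C r)
  rmh : ∀ e ∈ Dᶜ, ∀ r ∈ Icc 0 τ,
    ∑ f ∈ Dᶜ, gm e f r * ((1 - RCM.kx x D f) * pv h1 (RCM.kx x D f))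
      ≤ (1 - RCM.kx x D e) * pv2 Gmh (RCM.kx x D e) (C τ - C r)

/-- a list dominates the functions of the certificate -/
theorem le_list {d : GDat} {U0 : 0 < d.U} {l a b : List (List ℚ)}
    (h : NG (d.e2 l gW - (d.e2 a gW + d.e2 b gW))) {k u : ℝ} (hk : k ∈ Icc (0 : ℝ) 1)
    (hu : u ∈ Icc (0 : ℝ) d.U) : pv2 a k u + pv2 b k u ≤ pv2 l k u := by
  obtain ⟨T, hT, h1⟩ := GDat.at_u U0 h z01 z01 hk hu
  simp only [val_sub, val_add, GDat.val_e2, val_gW, hT] at h1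
  linarith

theorem nn_list1 {d : GDat} {U0 : 0 < d.U} {l : List ℚ}
    (h : NG (d.e1 l)) {u : ℝ} (hu : u ∈ Icc (0 : ℝ) d.U) : 0 ≤ pv l u := by
  obtain ⟨T, hT, h1⟩ := GDat.at_u U0 h z01 z01 z01 hu
  simpa only [GDat.val_e1, hT] using h1

/-- the rows by lists -/
theorem gx_of {d : GDat} (hd : d.Pos) {D : Finset V} {x : V → V → ℝ} (hx : RCM.Wt x) {τ : ℝ}
    {C : ℝ → ℝ} {T A B : ℝ → V → V → ℝ} {gp gm : V → V → ℝ → ℝ}
    (hu : ∀ r ∈ Icc 0 τ, C τ - C r ∈ Icc (0 : ℝ) d.U)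
    (h : RCM.Ggq x D τ C d.ct T A B gp gm)
    (hR : ∀ e ∈ Dᶜ, ∀ r ∈ Icc 0 τ,
      ∑ f ∈ Dᶜ.erase e, (gm e f r - RCM.bk (fun r => B r e f) τ r)
        ≤ (1 - RCM.kx x D e) * (d.ct.mR.Mb (RCM.kx x D e) (C τ - C r)
          + d.ct.zm true (RCM.kx x D e) (C τ - C r)))
    {Gp Gm GmR Gph Gmh : List (List ℚ)}
    (h1 : NG (d.e2 Gp gW - (d.e2 (d.Pb true) gW + d.e2 (d.zp true) gW)))
    (h2 : NG (d.e2 Gm gW - (d.e2 d.m.Mb gW + d.e2 (d.zm true) gW)))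
    (h3 : NG (d.e2 GmR gW - (d.e2 d.mR.Mb gW + d.e2 (d.zm true) gW)))
    (h4 : NG (d.e2 Gph gW - (d.e2 (d.Pb false) gW + d.e2 (d.zp false) gW)))
    (h5 : NG (d.e2 Gmh gW - (d.e2 d.m.Mb gW + d.e2 (d.zm false) gW))) :
    Gx D x τ C T A B d.h1 Gp Gm GmR Gph Gmh gp gm := by
  have U0 := hd.U0
  have kk : ∀ e, RCM.kx x D e ∈ Icc (0 : ℝ) 1 := fun e => ⟨RCM.kx0 hx D e, RCM.kx1 hx D e⟩
  have n1 : ∀ e, 0 ≤ 1 - RCM.kx x D e := fun e => by linarith [(kk e).2]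
  refine
    { dp := h.dp
      dm := h.dm
      p0 := h.p0
      m0 := h.m0
      ps := h.ps
      ms := h.ms
      pz := h.pz
      mz := h.mz
      pe := h.pe
      me := h.me
      cp := h.cp
      cm := h.cm
      rp := fun e he r hr => ?_
      rm := fun e he r hr => ?_
      rR := fun e he r hr => (hR e he r hr).trans (mul_le_mul_of_nonneg_left
        (le_list (U0 := U0) h3 (kk e) (hu r hr)) (n1 e))
      rph := fun e he r hr => ?_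
      rmh := fun e he r hr => ?_ }
  · have a1 := h.rp true e he r hr
    have a2 : ∀ f, d.ct.h true (RCM.kx x D f) = 1 := fun f => by simp [RCM.Ct.h]
    simp only [a2, mul_one] at a1
    exact a1.trans (mul_le_mul_of_nonneg_left (le_list (U0 := U0) h1 (kk e) (hu r hr)) (n1 e))
  · have a1 := h.rm true e he r hr
    have a2 : ∀ f, d.ct.h true (RCM.kx x D f) = 1 := fun f => by simp [RCM.Ct.h]
    simp only [a2, mul_one] at a1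
    exact a1.trans (mul_le_mul_of_nonneg_left (le_list (U0 := U0) h2 (kk e) (hu r hr)) (n1 e))
  · have a1 := h.rp false e he r hr
    have a2 : ∀ f, d.ct.h false (RCM.kx x D f)
        = (1 - RCM.kx x D f) * pv d.h1 (RCM.kx x D f) := fun f => by
      simp [RCM.Ct.h, GDat.ct]
    simp only [a2] at a1
    exact a1.trans (mul_le_mul_of_nonneg_left (le_list (U0 := U0) h4 (kk e) (hu r hr)) (n1 e))
  · have a1 := h.rm false e he r hr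
    have a2 : ∀ f, d.ct.h false (RCM.kx x D f)
        = (1 - RCM.kx x D f) * pv d.h1 (RCM.kx x D f) := fun f => by
      simp [RCM.Ct.h, GDat.ct]
    simp only [a2] at a1
    exact a1.trans (mul_le_mul_of_nonneg_left (le_list (U0 := U0) h5 (kk e) (hu r hr)) (n1 e))

variable {p : Ps} {x : V → V → ℝ} {P : V → Prop} [DecidablePred P] {a b : V} {sg τ : ℝ}

theorem ck_um (hp : p.Ok) {U : ℝ} {Yb : ℝ → ℝ} (h : p.Gh U Yb) (hτ : τ ∈ Icc (0 : ℝ) bt) {r : ℝ}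
    (hr : r ∈ Icc 0 τ) : p.ck τ - p.ck r ∈ Icc 0 U := by
  have h1 := Ps.ck_mono hp hr.1 hr.2 hτ.2
  have h2 := Ps.ck_mono hp le_rfl hr.1 (hr.2.trans hτ.2)
  have h3 := Ps.ck_mono hp hτ.1 hτ.2 le_rfl
  rw [p.ck_zero] at h2
  exact ⟨by linarith, by linarith [h.U]⟩

/-- **level 1/2 of the world of `a`, `b` with the rows of a certificate** -/
theorem exists_gx2_of {d : GDat} (hd : d.Pos) (hcap : d.cap = 2)
    {Gp Gm GmR Gph Gmh : List (List ℚ)}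
    (h1 : NG (d.e2 Gp gW - (d.e2 (d.Pb true) gW + d.e2 (d.zp true) gW)))
    (h2 : NG (d.e2 Gm gW - (d.e2 d.m.Mb gW + d.e2 (d.zm true) gW)))
    (h3 : NG (d.e2 GmR gW - (d.e2 d.mR.Mb gW + d.e2 (d.zm true) gW)))
    (h4 : NG (d.e2 Gph gW - (d.e2 (d.Pb false) gW + d.e2 (d.zp false) gW)))
    (h5 : NG (d.e2 Gmh gW - (d.e2 d.m.Mb gW + d.e2 (d.zm false) gW)))
    (hp : p.Ok) (hx : Wt x P 1) (hab : a ≠ b) (hτ : τ ∈ Icc (0 : ℝ) bt)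
    (hs : sg ∈ Icc 0 τ) (h : p.Gh d.U (pv d.yb)) :
    ∃ gp gm : V → V → ℝ → ℝ,
      Gd p.z.hz (p.y.lz2 p.z x P a b sg τ) x P τ {a, b} gp gm gm ∧
      Gx {a, b} x τ p.ck (K1 p.z.hz (p.y.lz2 p.z x P a b sg τ) x P)
        (RCM.Ab (p.z.hz.hh x P) (p.y.lz2 p.z x P a b sg τ).y1)
        (RCM.Bw (p.z.hz.hh x P) (p.y.lz2 p.z x P a b sg τ).n1) d.h1
        Gp Gm GmR Gph Gmh gp gm := by
  have hok := hd.ok
  rw [hcap] at hok
  obtain ⟨gp, gm, e1, e2, e3⟩ := exists_g2 (P := P) hp hx hab hτ hs (c := d.ct) hok h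
  exact ⟨gp, gm, e1, gx_of hd (wt_of hx) (fun r hr => ck_um hp h hτ hr) e2 e3 h1 h2 h3 h4 h5⟩

/-- **level 1/2 of the world of `a`, `b` with the rows of the certificate** -/
theorem exists_gx2 (hp : p.Ok) (hx : Wt x P 1) (hab : a ≠ b) (hτ : τ ∈ Icc (0 : ℝ) bt)
    (hs : sg ∈ Icc 0 τ) (h : p.Gh CertG2.d.U (pv CertG2.d.yb)) :
    ∃ gp gm : V → V → ℝ → ℝ,
      Gd p.z.hz (p.y.lz2 p.z x P a b sg τ) x P τ {a, b} gp gm gm ∧
      Gx {a, b} x τ p.ck (K1 p.z.hz (p.y.lz2 p.z x P a b sg τ) x P)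
        (RCM.Ab (p.z.hz.hh x P) (p.y.lz2 p.z x P a b sg τ).y1)
        (RCM.Bw (p.z.hz.hh x P) (p.y.lz2 p.z x P a b sg τ).n1) CertG2.d.h1
        CertG2.Gp CertG2.Gm CertG2.GmR CertG2.Gph CertG2.Gmh gp gm :=
  exists_gx2_of CertG2.pos rfl CertG2.leGp CertG2.leGm CertG2.leGmR CertG2.leGph CertG2.leGmh
    hp hx hab hτ hs h

/-- the scalar form of a list -/
theorem sc_le {d : GDat} {U0 : 0 < d.U} {l : List ℚ} {g : List (List ℚ)} {y2 : List ℚ}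
    (hl : NG (d.e1 l)) (hy : NG (d.e1 y2))
    (h : NG (d.e1 l * ((1 + E.num 3 5 * gW) * (1 + (gW * d.u + (1 - gW) * d.e1 y2)
      * (1 + (gW * d.u + (1 - gW) * d.e1 y2) * E.num 1 2
        + (gW * d.u + (1 - gW) * d.e1 y2) ^ 2 * E.num 1 6
        + (gW * d.u + (1 - gW) * d.e1 y2) ^ 3 * E.num 1 24))) - d.e2 g gW))
    {k u : ℝ} (hk : k ∈ Icc (0 : ℝ) 1) (hu : u ∈ Icc (0 : ℝ) d.U) :
    pv2 g k u ≤ pv l u * ((1 + 3 / 5 * k) * Real.exp (k * u + (1 - k) * pv y2 u)) := by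
  obtain ⟨T, hT, h1⟩ := GDat.at_u U0 h z01 z01 hk hu
  have l0 := nn_list1 (U0 := U0) hl hu
  have y0 := nn_list1 (U0 := U0) hy hu
  simp only [val_sub, val_add, val_mul, val_pow, GDat.val_e1, GDat.val_e2, GDat.val_u, val_gW,
    val_one, val_num, hT] at h1
  push_cast at h1
  set v := k * u + (1 - k) * pv y2 u with hv
  have v0 : 0 ≤ v := add_nonneg (mul_nonneg hk.1 hu.1) (mul_nonneg (by linarith [hk.2]) y0)
  have h2 : 1 + v + v ^ 2 / 2 + v ^ 3 / 6 + v ^ 4 / 24 ≤ Real.exp v := by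
    have := Real.sum_le_exp_of_nonneg v0 5
    simp only [Finset.sum_range_succ, Finset.sum_range_zero, Nat.factorial] at this
    norm_num at this
    linarith
  have h3 : 0 ≤ pv l u * (1 + 3 / 5 * k) := mul_nonneg l0 (by linarith [hk.1])
  have h4 := mul_le_mul_of_nonneg_left h2 h3
  nlinarith

end Pool.Agent.RX.RCN.K
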