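import Pool.Agent.RX.RCN.Fct
import Pool.Agent.RX.RCN.GexB

/-! The level 1/2 of the cells in the form used by the families (MP_73ccd0_lc, route M). -/

namespace Pool.Agent.RX.RCN.K

open Set Finset MeasureTheory Pool.Agent.RX.RCRSHalf Pool.Agent.RX.RCG Pool.Agent.RX.RCG.Ct
open Pool.Agent.RX.RCN.Ker Pool.Agent.RX.RCRS Pool.Agent.RX.RCM9 Pool.Agent.RX.RCM9.Bern Pool.Agent.RX.RCM9.Pk
open Pool.Agent.RX.RCM9.G

set_option linter.unusedSectionVars false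

variable {V : Type*} [Fintype V] [DecidableEq V]

theorem Gx.gsw {Z : Hzd} {F : Lz V} {x : V → V → ℝ} {P : V → Prop} [DecidablePred P] {τ : ℝ}
    {D : Finset V} {C : ℝ → ℝ} {h1 : List ℚ} {Gp Gm GmR Gph Gmh : List (List ℚ)}
    {gp gm : V → V → ℝ → ℝ}
    (h : Gx D x τ C (K1 Z F x P) (RCM.Ab (Z.hh x P) F.y1) (RCM.Bw (Z.hh x P) F.n1) h1
      Gp Gm GmR Gph Gmh gp gm) : Gsw Z F x P τ D gp gm where
  dp := h.dp
  dm := h.dm
  zp i _ j _ _ := h.pe i j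
  zm i _ j _ _ := h.me i j
  p0 := h.p0
  m0 := h.m0

theorem Gx.glr {p : Ps} {F : Lz V} {x : V → V → ℝ} {P : V → Prop} [DecidablePred P] {τ : ℝ}
    {D : Finset V} {h1 : List ℚ} {Gp Gm GmR Gph Gmh : List (List ℚ)}
    {gp gm : V → V → ℝ → ℝ}
    (h : Gx D x τ p.ck (K1 p.z.hz F x P) (RCM.Ab (p.z.hz.hh x P) F.y1)
      (RCM.Bw (p.z.hz.hh x P) F.n1) h1 Gp Gm GmR Gph Gmh gp gm) :
    Glr p F x P τ D Gp Gm gp gm where
  gs := h.gsw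
  zp := h.pz
  zm := h.mz
  cp := h.cp
  cm := h.cm
  ps := h.ps
  ms := h.ms
  rp := h.rp
  rm := h.rm

variable {p : Ps} {x : V → V → ℝ} {P : V → Prop} [DecidablePred P]

/-- level 0 in the clock from the list checks -/
theorem Ckp.gh {y B : List ℚ} (hp : p.Ok) (h : Ckp p y B) {U : ℝ} {Yb : ℝ → ℝ}
    (hU : p.Cc bt ≤ U) (hy : ∀ u ∈ Icc (0 : ℝ) U, pv y u ≤ Yb u) : p.Gh U Yb where
  T r t h0 h1 h2 := h.Th h0 h1 h2
  Y r t h0 h1 h2 := by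
    have e0 : p.Cc 0 = 0 := pri_zero _
    have m1 := Ps.Cc_mono hp h0 h1 h2
    have m2 := Ps.Cc_mono hp le_rfl h0 (h1.trans h2)
    have m3 := Ps.Cc_mono hp (h0.trans h1) h2 le_rfl
    refine (h.Y h0 h1 h2).trans (hy _ ⟨?_, ?_⟩)
    · linarith
    · rw [e0] at m2
      linarith
  U := hU

/-- rows of `gm` without the direct part -/
def Grr (p : Ps) (F : Lz V) (x : V → V → ℝ) (P : V → Prop) [DecidablePred P] (τ : ℝ)
    (D : Finset V) (GmR : List (List ℚ)) (gm : V → V → ℝ → ℝ) : Prop :=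
  ∀ e ∈ Dᶜ, ∀ r ∈ Icc 0 τ, ∑ f ∈ Dᶜ.erase e,
    (gm e f r - RCM.bk (fun r => RCM.Bw (p.z.hz.hh x P) F.n1 r e f) τ r)
      ≤ (1 - RCM.kx x D e) * pv2 GmR (RCM.kx x D e) (p.Cc τ - p.Cc r)

/-- **level 1/2 of the cells for the worlds `{a, b}`** -/
theorem exists_glr2R (hp : p.Ok) (hx : Wt x P 1) (h : p.Gh CertG2.d.U (pv CertG2.d.yb)) (N : ℕ) :
    ∀ i < N, ∀ a b, P a → P b → a ≠ b → ∃ gp gm : V → V → ℝ → ℝ,
      Gd p.z.hz (p.y.lz2 p.z x P a b (cb N i) (cb N i)) x P (cb N i) {a, b} gp gm gm ∧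
      Glr p (p.y.lz2 p.z x P a b (cb N i) (cb N i)) x P (cb N i) {a, b}
        CertG2.Gp CertG2.Gm gp gm ∧
      Grr p (p.y.lz2 p.z x P a b (cb N i) (cb N i)) x P (cb N i) {a, b} CertG2.GmR gm := by
  intro i hi a b _ _ hab
  have cb0 : 0 ≤ cb N i := by
    unfold cb
    have := bt_pos
    positivity
  obtain ⟨gp, gm, h1, h2⟩ := exists_gx2 (P := P) hp hx hab ⟨cb0, cb_le_bt hi⟩
    (⟨cb0, le_rfl⟩ : cb N i ∈ Icc 0 (cb N i)) h
  exact ⟨gp, gm, h1, h2.glr, h2.rR⟩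

end Pool.Agent.RX.RCN.K
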