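import Pool.Agent.RX.RCM9.DatGS
import Pool.Agent.RX.RCN.GexC
import Pool.Agent.RX.RCN.StK

/-! The level 1/2 of the star worlds (MP_73ccd0_lc, route M). -/

namespace Pool.Agent.RX.RCN.K

open Set Finset MeasureTheory Pool.Agent.RX.RCRSHalf Pool.Agent.RX.RCG Pool.Agent.RX.RCG.Ct
open Pool.Agent.RX.RCN.Ker Pool.Agent.RX.RCRS Pool.Agent.RX.RCM9 Pool.Agent.RX.RCM9.Bern Pool.Agent.RX.RCM9.Pk
open Pool.Agent.RX.RCM9.G

set_option linter.unusedSectionVars false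

variable {V : Type*} [Fintype V] [DecidableEq V]
variable {p : Ps} {x : V → V → ℝ} {P : V → Prop} [DecidablePred P] {a : V} {τ : ℝ}

theorem Ckp.mono {y y' B : List ℚ} (hp : p.Ok) (h : Ckp p y B) {U : ℝ}
    (hU : p.Cc bt ≤ U) (hy : ∀ u ∈ Icc (0 : ℝ) U, pv y u ≤ pv y' u) : Ckp p y' B where
  Th := h.Th
  Y {τ r} h0 h1 h2 := (h.gh hp hU hy).Y r τ h0 h1 h2
  B := h.B

/-- regularity of the star world -/
theorem star_rd (hp : p.Ok) (hx : Wt x P 1) (a : V) (hτ : τ ∈ Icc (0 : ℝ) bt) :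
    RCM.Rd τ (K1 p.z.hz (p.lzs x a τ) x P) (RCM.Ab (p.z.hz.hh x P) (p.lzs x a τ).y1)
      (RCM.Bw (p.z.hz.hh x P) (p.lzs x a τ).n1) where
  τ0 := hτ.1
  cT e f := Tb_cont (hp.z.ok hp.d) hx hτ.2 (fun e => p.ys_cont x a τ e) e f
  cA e f := Ab_cont (hp.z.ok hp.d) hx hτ.2 (fun e => p.ys_cont x a τ e) e f
  cB e f := by
    refine Bw_cont (hp.z.ok hp.d) hx hτ.2 (fun e => ?_) e f
    exact ((YDat.cont_N (y := p.y)).comp (continuous_const.prodMk continuous_id)).continuousOn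
  T0 r hr i j := K1_nonneg (hp.z.ok hp.d) hx ⟨hr.1, hr.2.trans hτ.2⟩ i j
  A0 r hr i j := by
    rcases eq_or_ne i j with rfl | hij
    · show 0 ≤ p.z.hz.hh x P r i i * _
      rw [Hzd.hh_zero (hx.diag i), zero_mul]
    · have h1 : 0 ≤ (p.lzs x a τ).y1 i r + (p.lzs x a τ).y1 j r := by
        have hb : x a i + x a j ≤ 1 := by
          have h3 : ∑ w ∈ ({i, j} : Finset V), x a w ≤ ∑ w, x a w :=
            Finset.sum_le_sum_of_subset_of_nonneg (Finset.subset_univ _)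
              fun w _ _ => hx.nonneg a w
          rw [Finset.sum_pair hij] at h3
          linarith [hx.row a]
        have Y0 := hp.y.Y0 hr.1 hr.2 hτ.2
        have hYT := hp.y.YTh hr.1 hr.2 hτ.2
        have e0 := hx.nonneg a i
        have f0 := hx.nonneg a j
        have h3 := mul_nonneg (by linarith : 0 ≤ 1 - (x a i + x a j)) Y0
        have h4 := mul_nonneg (by linarith : 0 ≤ x a i + x a j + 1) (Y0.trans hYT)
        show 0 ≤ p.ys x a τ i r + p.ys x a τ j r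
        unfold Ps.ys
        linarith
      exact mul_nonneg ((hp.z.ok hp.d).hh_nonneg hx ⟨hr.1, hr.2.trans hτ.2⟩ i j)
        (by linarith [Real.one_le_exp h1])
  B0 r hr i j := by
    have n0 := hp.y.N0 hr.1 hr.2 hτ.2
    have n1 := hp.y.N1 hr.1 hr.2 hτ.2
    refine mul_nonneg ((hp.z.ok hp.d).hh_nonneg hx ⟨hr.1, hr.2.trans hτ.2⟩ i j) ?_
    show 0 ≤ 1 - (1 - p.y.N τ r) * (1 - p.y.N τ r)
    nlinarith
  Ts r i j := K1_symm hx r i j
  As r i j := by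
    unfold RCM.Ab
    rw [Hzd.hh_symm hx, add_comm ((p.lzs x a τ).y1 i r)]
  Bs r i j := by
    unfold RCM.Bw
    rw [Hzd.hh_symm hx, mul_comm (1 - (p.lzs x a τ).n1 i r)]
  Tz r i := by
    show p.z.hz.hh x P r i i * _ = 0
    rw [Hzd.hh_zero (hx.diag i), zero_mul]
  Az r i := by
    show p.z.hz.hh x P r i i * _ = 0
    rw [Hzd.hh_zero (hx.diag i), zero_mul]

/-- the star as a cell with bounds -/
theorem star_sq (hp : p.Ok) (hx : Wt x P 1) (a : V) (hτ : τ ∈ Icc (0 : ℝ) bt)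
    {y B nb : List ℚ} (hc : Ckp p y B) {U : ℝ} (hU : p.Cc bt ≤ U)
    (hN : ∀ r t : ℝ, 0 ≤ r → r ≤ t → t ≤ bt → 2 * p.y.N t r ≤ pv nb (p.Cc t - p.Cc r)) :
    RCM.Sgq x {a} τ (pv p.z.mb) p.Cc 1 U (GDat.fs y) (pv nb) (K1 p.z.hz (p.lzs x a τ) x P)
      (RCM.Ab (p.z.hz.hh x P) (p.lzs x a τ).y1) (RCM.Bw (p.z.hz.hh x P) (p.lzs x a τ).n1) where
  g := ⟨wt_of hx, by simp, Or.inl rfl⟩
  rd := star_rd hp hx a hτ
  mb0 r hr := zero_le_one.trans (hp.z.mb_one ⟨hr.1, hr.2.trans hτ.2⟩)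
  dC r _ := p.hasDerivAt_Cc r
  U := by
    have e0 : p.Cc 0 = 0 := pri_zero _
    have := Ps.Cc_mono hp hτ.1 hτ.2 le_rfl
    rw [e0]
    linarith
  T i _ j _ hij r hr := by
    rw [kx_one, kx_one]
    exact Ps.star_T hp hx hτ.2 hc hij hr
  A i _ j _ hij r hr := by
    rw [kx_one, kx_one]
    exact Ps.star_A hp hx hτ.2 hc hij hr
  B i _ j _ hij r hr := by
    have m1 : r ∈ Icc (0 : ℝ) bt := ⟨hr.1, hr.2.trans hτ.2⟩
    refine (Ps.star_B hp hx hτ.2 hc hij hr).trans ?_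
    exact mul_le_mul_of_nonneg_left (mul_le_mul_of_nonneg_left (hN r τ hr.1 hr.2 hτ.2)
      (hx.nonneg i j)) (zero_le_one.trans (hp.z.mb_one m1))

/-- **level 1/2 of the star worlds** -/
theorem exists_glr1R {d : GDat} {y B nb : List ℚ} (hp : p.Ok) (hx : Wt x P 1)
    (hd : d.SPos nb) (hcap : d.cap = 1) {Hp Hm HmR : List (List ℚ)}
    (h1 : NG (d.e2 Hp gW - (d.e2 (d.Pb true) gW + d.e2 (d.zp true) gW)))
    (h2 : NG (d.e2 Hm gW - (d.e2 d.m.Mb gW + d.e2 (d.zm true) gW)))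
    (h3 : NG (d.e2 HmR gW - (d.e2 d.mR.Mb gW + d.e2 (d.zm true) gW)))
    (hc : Ckp p y B) (hU : p.Cc bt ≤ d.U)
    (hy : ∀ u ∈ Icc (0 : ℝ) d.U, pv y u ≤ pv d.yb u)
    (hN : ∀ r t : ℝ, 0 ≤ r → r ≤ t → t ≤ bt → 2 * p.y.N t r ≤ pv nb (p.Cc t - p.Cc r))
    (N : ℕ) : ∀ i < N, ∀ a, P a → ∃ gp gm : V → V → ℝ → ℝ,
      Glr p (p.lzs x a (cb N i)) x P (cb N i) {a} Hp Hm gp gm ∧
      Grr p (p.lzs x a (cb N i)) x P (cb N i) {a} HmR gm := by
  intro i hi a _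
  have cb0 : 0 ≤ cb N i := by
    unfold cb
    have := bt_pos
    positivity
  have hτ : cb N i ∈ Icc (0 : ℝ) bt := ⟨cb0, cb_le_bt hi⟩
  have hs := star_sq (P := P) hp hx a hτ (hc.mono hp hU hy) hU hN
  have hoks := hd.oks
  rw [hcap] at hoks
  obtain ⟨gp, gm, hG, hR⟩ := RCM.Sgq.exists_s (c := d.ct) hs hoks
    (fun k _ u _ => (Real.exp_pos _).le) (fun k hk u hu => hd.hF hk hu)
  have kk : ∀ e, RCM.kx x {a} e ∈ Icc (0 : ℝ) 1 := fun e => hs.g.ks e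
  have n1 : ∀ e, 0 ≤ 1 - RCM.kx x {a} e := fun e => by linarith [(kk e).2]
  have a2 : ∀ f, d.ct.h true (RCM.kx x {a} f) = 1 := fun f => by simp [RCM.Ct.h]
  refine ⟨gp, gm,
    { gs :=
        { dp := hG.dp
          dm := hG.dm
          zp := fun i _ j _ _ => hG.pe i j
          zm := fun i _ j _ _ => hG.me i j
          p0 := hG.p0
          m0 := hG.m0 }
      zp := hG.pz
      zm := hG.mz
      cp := hG.cp
      cm := hG.cm
      ps := hG.ps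
      ms := hG.ms
      rp := fun e he r hr => ?_
      rm := fun e he r hr => ?_ },
    fun e he r hr => (hR e he r hr).trans (mul_le_mul_of_nonneg_left
      (le_list (U0 := hd.U0) h3 (kk e) (hs.um hr)) (n1 e))⟩
  · have a1 := hG.rp true e he r hr
    simp only [a2, mul_one] at a1
    exact a1.trans (mul_le_mul_of_nonneg_left (le_list (U0 := hd.U0) h1 (kk e) (hs.um hr))
      (n1 e))
  · have a1 := hG.rm true e he r hr
    simp only [a2, mul_one] at a1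
    exact a1.trans (mul_le_mul_of_nonneg_left (le_list (U0 := hd.U0) h2 (kk e) (hs.um hr))
      (n1 e))

end Pool.Agent.RX.RCN.K
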