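import Pool.Agent.RX.RCM9.CertGS
import Pool.Agent.RX.RCN.GexS_1

/-! The level 1/2 of the star worlds with the numeric functions (MP_73ccd0_lc, route M). -/

namespace Pool.Agent.RX.RCN.K

open Set Finset MeasureTheory Pool.Agent.RX.RCRSHalf Pool.Agent.RX.RCG Pool.Agent.RX.RCG.Ct
open Pool.Agent.RX.RCN.Ker Pool.Agent.RX.RCRS Pool.Agent.RX.RCM9 Pool.Agent.RX.RCM9.Bern Pool.Agent.RX.RCM9.Pk
open Pool.Agent.RX.RCM9.G

set_option linter.unusedSectionVars false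

variable {V : Type*} [Fintype V] [DecidableEq V]
variable {p : Ps} {x : V → V → ℝ} {P : V → Prop} [DecidablePred P]

/-- **level 1/2 of the star worlds, numeric form** -/
theorem exists_glrSR {y B : List ℚ} (hp : p.Ok) (hx : Wt x P 1)
    (hc : Ckp p y B) (hU : p.Cc bt ≤ CertGS.d.U)
    (hy : ∀ u ∈ Icc (0 : ℝ) CertGS.d.U, pv y u ≤ pv CertGS.d.yb u)
    (hN : ∀ r t : ℝ, 0 ≤ r → r ≤ t → t ≤ bt → 2 * p.y.N t r ≤ pv CertGS.nb (p.Cc t - p.Cc r))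
    (N : ℕ) : ∀ i < N, ∀ a, P a → ∃ gp gm : V → V → ℝ → ℝ,
      Glr p (p.lzs x a (cb N i)) x P (cb N i) {a} CertGS.Hp CertGS.Hm gp gm ∧
      Grr p (p.lzs x a (cb N i)) x P (cb N i) {a} CertGS.HmR gm :=
  exists_glr1R hp hx CertGS.pos rfl CertGS.leHp CertGS.leHm CertGS.leHmR hc hU hy hN N

end Pool.Agent.RX.RCN.K
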