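import Pool.Agent.RX.RCN.MBd
import Pool.Agent.RX.RCN.StB

/-! Existence of the data of a cell from the bounds of level 1/2 (MP_73ccd0_lc, route M). -/

namespace Pool.Agent.RX.RCN.K

open Set Finset MeasureTheory Pool.Agent.RX.RCRSHalf Pool.Agent.RX.RCG Pool.Agent.RX.RCG.Ct
open Pool.Agent.RX.RCN.Ker Pool.Agent.RX.RCRS Pool.Agent.RX.RCM9 Pool.Agent.RX.RCM9.Bern Pool.Agent.RX.RCM9.Pk

set_option linter.unusedSectionVars false

/-- smaller clock and smaller constants -/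
theorem Msc.mono {U q m ie U' q' m' : ℝ} {y B : ℝ → ℝ} {Eu Er Gp Gm Pf Pf' Mf Mf' : ℝ → ℝ → ℝ}
    {Ey FM FP FQ AM AP AD : ℝ → ℝ} (h : Msc U q m ie y B Eu Er Gp Gm Pf Pf' Mf Mf' Ey FM FP FQ AM
      AP AD) (hU : U' ≤ U) (hq : q' ≤ q) (q0 : 0 ≤ q') (hm : m' ≤ m) (m0 : 0 ≤ m') :
    Msc U' q' m' ie y B Eu Er Gp Gm Pf Pf' Mf Mf' Ey FM FP FQ AM AP AD := by
  have s : ∀ u ∈ Icc 0 U', u ∈ Icc 0 U := fun u hu => ⟨hu.1, hu.2.trans hU⟩
  have Eu0 : ∀ k ∈ Icc (0 : ℝ) 1, ∀ u ∈ Icc 0 U', 0 ≤ Eu k u := fun k hk u hu =>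
    (Real.exp_pos _).le.trans (h.eu k hk u (s u hu))
  have Er0 : ∀ k ∈ Icc (0 : ℝ) 1, ∀ u ∈ Icc 0 U', 0 ≤ Er k u := fun k hk u hu =>
    (Real.exp_pos _).le.trans (h.er k hk u (s u hu))
  have Ey0 : ∀ u ∈ Icc 0 U', 0 ≤ Ey u := fun u hu =>
    (Real.exp_pos _).le.trans (h.ey u (s u hu))
  have FP0 : ∀ u ∈ Icc 0 U', 0 ≤ FP u := fun u hu => by
    have h0 : (0 : ℝ) ∈ Icc (0 : ℝ) 1 := ⟨le_rfl, zero_le_one⟩
    have := h.hFP 0 h0 u (s u hu)
    have h1 := mul_nonneg (Eu0 0 h0 u hu) (h.P0 0 h0 u (s u hu))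
    linarith
  have FQ0 : ∀ u ∈ Icc 0 U', 0 ≤ FQ u := fun u hu => by
    have h0 : (0 : ℝ) ∈ Icc (0 : ℝ) 1 := ⟨le_rfl, zero_le_one⟩
    have := h.hFQ 0 h0 u (s u hu)
    have h1 := mul_nonneg (Eu0 0 h0 u hu) (h.P0 0 h0 u (s u hu))
    linarith
  have qm : q' * m' ≤ q * m := mul_le_mul hq hm m0 (q0.trans hq)
  refine
    { U1 := hU.trans h.U1
      q0 := q0
      m0 := m0
      y0 := fun u hu => h.y0 u (s u hu)
      yu := fun u hu => h.yu u (s u hu)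
      B0 := fun u hu => h.B0 u (s u hu)
      ie0 := h.ie0
      hie := by
        have := mul_le_mul_of_nonneg_left hU h.ie0
        linarith [h.hie]
      Bη := fun u hu => by
        have h1 := h.Bη u (s u hu)
        have h2 : 0 ≤ (U - U') * (1 + B u / 4) := mul_nonneg (sub_nonneg.2 hU)
          (by linarith [h.B0 u (s u hu)])
        nlinarith
      ey := fun u hu => h.ey u (s u hu)
      eu := fun k hk u hu => h.eu k hk u (s u hu)
      er := fun k hk u hu => h.er k hk u (s u hu)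
      dP := fun k hk u hu => h.dP k hk u (s u hu)
      dM := fun k hk u hu => h.dM k hk u (s u hu)
      P0 := fun k hk u hu => h.P0 k hk u (s u hu)
      M0 := fun k hk u hu => h.M0 k hk u (s u hu)
      hFM := fun k hk u hu => h.hFM k hk u (s u hu)
      hFP := fun k hk u hu => h.hFP k hk u (s u hu)
      hFQ := fun k hk u hu => h.hFQ k hk u (s u hu)
      hAM := fun k hk u hu => h.hAM k hk u (s u hu)
      hAP := fun k hk u hu => ?_
      hAD := fun k hk u hu => ?_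
      oP := fun k hk u hu => h.oP k hk u (s u hu)
      oM := fun k hk u hu => ?_
      eP := fun k hk u hu => h.eP k hk u (s u hu)
      eM := fun k hk u hu => h.eM k hk u (s u hu) }
  · refine le_trans ?_ (h.hAP k hk u (s u hu))
    have k1 : 0 ≤ 1 - k := sub_nonneg.2 hk.2
    have k0 := hk.1
    have b0 := h.B0 u (s u hu)
    have p0 := h.P0 k hk u (s u hu)
    have e0 := Eu0 k hk u hu
    have r0 := Er0 k hk u hu
    have f0 := FP0 u hu
    have g0 := FQ0 u hu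
    rw [mul_assoc, mul_assoc q]
    exact mul_le_mul_of_nonneg_right hq (by positivity)
  · refine le_trans ?_ (h.hAD k hk u (s u hu))
    have k1 : 0 ≤ 1 - k := sub_nonneg.2 hk.2
    have k2 : 0 ≤ 2 - k := by linarith
    have b0 := h.B0 u (s u hu)
    have e0 := Eu0 k hk u hu
    have r0 := Er0 k hk u hu
    have y0 := Ey0 u hu
    have i0 := h.ie0
    have hb : (1 + q' * m') * B u / 4 ≤ (1 + q * m) * B u / 4 := by
      have := mul_le_mul_of_nonneg_right qm b0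
      linarith
    refine mul_le_mul_of_nonneg_left (add_le_add (mul_le_mul_of_nonneg_left (add_le_add
      (mul_le_mul_of_nonneg_left (by linarith) (by positivity))
      (mul_le_mul_of_nonneg_left qm (by positivity))) r0)
      (mul_le_mul_of_nonneg_left (add_le_add (by linarith)
        (mul_le_mul_of_nonneg_left qm (by norm_num))) (mul_nonneg y0 k2))) (mul_nonneg e0 b0)
  · refine le_trans ?_ (h.oM k hk u (s u hu))
    have k0 := hk.1
    have b0 := h.B0 u (s u hu)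
    have e0 := Eu0 k hk u hu
    have f0 := FP0 u hu
    have g0 := FQ0 u hu
    have := mul_le_mul_of_nonneg_right hq (by positivity :
      0 ≤ Eu k u * (FP u + B u * (1 / 2 + 3 / 4 * k) * FQ u))
    nlinarith

variable {V : Type*} [Fintype V] [DecidableEq V]
variable {p : Ps} {x : V → V → ℝ} {P : V → Prop} [DecidablePred P] {a b : V}
  {sg α τ m q : ℝ} {gp gm : V → V → ℝ → ℝ}

/-- **existence of the data of a cell**, the bound `m` from the scalar data -/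
theorem Ps.ex_cl2 (hp : p.Ok) (hx : Wt x P 1) (hab : a ≠ b) (α0 : 0 ≤ α) (ατ : α ≤ τ)
    (τ1 : τ ≤ bt) (sg0 : 0 ≤ sg) (sgτ : sg ≤ τ)
    (hG : Gd p.z.hz (p.y.lz2 p.z x P a b sg τ) x P τ {a, b} gp gm gm)
    {U ie : ℝ} {y Bu : ℝ → ℝ} {Eu Er Gp Gm Pf Pf' Mf Mf' : ℝ → ℝ → ℝ}
    {Ey FM FP FQ AM AP AD : ℝ → ℝ} {mb u : ℝ → ℝ}
    (hS : Msc U q m ie y Bu Eu Er Gp Gm Pf Pf' Mf Mf' Ey FM FP FQ AM AP AD)
    (hW : Wck p.z.hz (p.y.lz2 p.z x P a b sg τ) x P τ {a, b} p.g.rB gp gm U y Bu Gp Gm mb u)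
    (hq : Real.exp m - 1 ≤ q * m)
    (hm : ∀ k ∈ Icc (0 : ℝ) 1, ∀ u ∈ Icc 0 U, 2 * ((1 - k) * Pf k u) ≤ m) :
    ∃ G : Fm V, G.gp = gp ∧ G.gm = gm ∧ G.gs = gm ∧ Cl2 p x P a b sg α τ m q G := by
  have hτ : τ ∈ Icc (0 : ℝ) bt := ⟨α0.trans ατ, τ1⟩
  have hZ := hp.z.ok hp.d
  have hx' := wt_of hx
  have hD : ({a, b} : Finset V).card ≤ 2 := Finset.card_le_two
  have key : ∀ s ∈ Icc 0 τ, ∀ d ∈ ({a, b} : Finset V)ᶜ, ∀ p' n : V → ℝ → ℝ,
      Tls p.z.hz (p.y.lz2 p.z x P a b sg τ) x P τ {a, b} gp gm p.g.rB q m s d p' n →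
      (∀ e ∈ (({a, b} : Finset V)ᶜ).erase d, p' e s ≤ gm d e s) →
      (∀ e ∈ (({a, b} : Finset V)ᶜ).erase d, n e s ≤ gp d e s) →
      ∀ e f, e ≠ f → ∀ r ∈ Icc 0 s, p' e r + p' f r ≤ m := by
    intro s hs d hd p' n hl ep en e f _ r hr
    have hu := hW.um r ⟨hr.1, hr.2.trans hs.2⟩
    have one : ∀ e, p' e r ≤ m / 2 := by
      intro e
      by_cases he : e ∈ (({a, b} : Finset V)ᶜ).erase d
      · have h1 := tls_bd hp.g.cf hZ hx hD hτ
          (fun e => YDat.lz2_y1 (P := P) hp.y hp.z hp.d hx hab hτ sg0 sgτ e) (rB_cont p τ) hG hS hW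
          hs hd hl ep en e he r hr
        have h2 := hm _ ⟨RCM.kx0 hx' {a, b} e, RCM.kx1 hx' {a, b} e⟩ _ hu
        linarith
      · rw [hl.pz e he r]
        linarith [hS.m0]
    linarith [one e, one f]
  obtain ⟨gp', gm', hg⟩ := hG.g
  refine exists_cl2 hp hx hab α0 ατ τ1 sg0 sgτ hG hS.q0 hS.m0 hq
    (fun c hc p' n hl e1 e2 => key τ ⟨hτ.1, le_rfl⟩ c hc p' n hl
      (fun e he => by rw [e1 e he]; exact hg.gm0 c e τ ⟨hτ.1, le_rfl⟩)
      (fun e he => by rw [e2 e he]; exact hg.gp0 c e τ ⟨hτ.1, le_rfl⟩))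
    fun s hs d hd p' n hl e1 e2 => key s ⟨hs.1, hs.2.trans sgτ⟩ d hd p' n hl e1 e2

end Pool.Agent.RX.RCN.K
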