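import Pool.Agent.RX.RCN.CkW
import Pool.Agent.RX.RCN.FctW_1
import Pool.Agent.RX.RCN.GexT
import Pool.Agent.RX.RCN.MBe

/-! The families of all cells from the list data (MP_73ccd0_lc, route M). -/

namespace Pool.Agent.RX.RCN.K

open Set Finset MeasureTheory Pool.Agent.RX.RCRSHalf Pool.Agent.RX.RCG Pool.Agent.RX.RCG.Ct
open Pool.Agent.RX.RCN.Ker Pool.Agent.RX.RCRS Pool.Agent.RX.RCM9 Pool.Agent.RX.RCM9.Bern Pool.Agent.RX.RCM9.Pk
open Pool.Agent.RX.RCM9.G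

set_option linter.unusedSectionVars false

/-- rows of level 1/2 without the direct part -/
structure Fcr {V : Type*} [Fintype V] [DecidableEq V] (p : Ps) (x : V → V → ℝ) (P : V → Prop)
    [DecidablePred P] (GR HR : List (List ℚ)) (N : ℕ) (G : ℕ → V → V → Fm V)
    (H : ℕ → V → Fm V) : Prop where
  gr : ∀ i < N, ∀ a b, P a → P b → a ≠ b →
    Grr p (p.y.lz2 p.z x P a b (cb N i) (cb N i)) x P (cb N i) {a, b} GR (G i a b).gm
  hr : ∀ i < N, ∀ a, P a → Grr p (p.lzs x a (cb N i)) x P (cb N i) {a} HR (H i a).gm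

variable {V : Type*} [Fintype V] [DecidableEq V]
variable {p : Ps} {x : V → V → ℝ} {P : V → Prop} [DecidablePred P] {g : MDat} {gr : ℕ → MGr}
  {Hp Hm GR HR : List (List ℚ)} {N : ℕ}

/-- **existence of the families with the rows without the direct part** -/
theorem exists_fctR (hp : p.Ok) (hx : Wt x P 1) (N0 : 0 < N) (hg : g.Pos)
    (hgr : ∀ i < N, i < (gr i).n ∧ (gr i).Ok g p.z N) (hc : Ckp p g.y g.B)
    (h2 : ∀ i < N, ∀ a b, P a → P b → a ≠ b → ∃ gp gm : V → V → ℝ → ℝ,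
      Gd p.z.hz (p.y.lz2 p.z x P a b (cb N i) (cb N i)) x P (cb N i) {a, b} gp gm gm ∧
      Glr p (p.y.lz2 p.z x P a b (cb N i) (cb N i)) x P (cb N i) {a, b} g.Gp g.Gm gp gm ∧
      Grr p (p.y.lz2 p.z x P a b (cb N i) (cb N i)) x P (cb N i) {a, b} GR gm)
    (h1 : ∀ i < N, ∀ a, P a → ∃ gp gm : V → V → ℝ → ℝ,
      Glr p (p.lzs x a (cb N i)) x P (cb N i) {a} Hp Hm gp gm ∧
      Grr p (p.lzs x a (cb N i)) x P (cb N i) {a} HR gm) :
    ∃ G H, Fct p x P g gr Hp Hm N G H ∧ Fcr p x P GR HR N G H := by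
  classical
  have cb0 : ∀ i, 0 ≤ cb N i := fun i => by
    unfold cb
    have := bt_pos
    positivity
  have hτ : ∀ i < N, cb N i ∈ Icc (0 : ℝ) bt := fun i hi => ⟨cb0 i, cb_le_bt hi⟩
  have cab : ∀ i, ca N i ≤ cb N i := fun i => by
    unfold ca cb
    refine mul_le_mul_of_nonneg_left (div_le_div_of_nonneg_right (by linarith) ?_) bt_nn
    exact Nat.cast_nonneg N
  have e2 : ∀ i < N, ∀ a b, P a → P b → a ≠ b → ∃ G : Fm V,
      Cl2 p x P a b (cb N i) (ca N i) (cb N i) ((gr i).m : ℝ) ((gr i).q : ℝ) G ∧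
      G.gs = G.gm ∧
      Wck p.z.hz (p.y.lz2 p.z x P a b (cb N i) (cb N i)) x P (cb N i) {a, b} p.g.rB
        G.gp G.gm ((gr i).U : ℝ) (pv g.y) (pv g.B) (pv2 g.Gp) (pv2 g.Gm)
        (pv p.z.mb) (fun r => p.Cc (cb N i) - p.Cc r) ∧
      Glr p (p.y.lz2 p.z x P a b (cb N i) (cb N i)) x P (cb N i) {a, b} g.Gp g.Gm G.gp G.gm ∧
      Grr p (p.y.lz2 p.z x P a b (cb N i) (cb N i)) x P (cb N i) {a, b} GR G.gm := by
    intro i hi a b ha hb hab
    obtain ⟨gp, gm, hgd, hgl, hrr⟩ := h2 i hi a b ha hb hab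
    obtain ⟨hin, hr⟩ := hgr i hi
    have hU := hr.clock hp N0 hin
    have hW := Ps.wck (P := P) (Gp := pv2 g.Gp) (Gm := pv2 g.Gm) hp hx hab (hτ i hi) (cb0 i) le_rfl
      hc hU hgl.ps hgl.ms hgl.rp hgl.rm
    have hM := hg.msc.mono (U' := ((gr i).U : ℝ)) (q' := ((gr i).q : ℝ)) (m' := ((gr i).m : ℝ))
      (by exact_mod_cast hr.U1) (by exact_mod_cast hr.q1) (by exact_mod_cast hr.q0)
      (by exact_mod_cast hr.m1) (by exact_mod_cast hr.m0)
    obtain ⟨G, e1, e2, e3, hG⟩ := Ps.ex_cl2 (α := ca N i) hp hx hab (ca_nonneg N i) (cab i)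
      (cb_le_bt hi) (cb0 i) le_rfl hgd hM hW hr.exp hr.bd
    exact ⟨G, hG, by rw [e3, e2], by rw [e1, e2]; exact hW, by rw [e1, e2]; exact hgl,
      by rw [e2]; exact hrr⟩
  have e1 : ∀ i < N, ∀ a, P a → ∃ H : Fm V,
      H.Tk p.z.hz (p.lzs x a (cb N i)) x P (cb N i) (cb N i) {a} p.g.rB ((gr i).m : ℝ)
        ((gr i).q : ℝ) ∧ H.gs = H.gm ∧
      Glr p (p.lzs x a (cb N i)) x P (cb N i) {a} Hp Hm H.gp H.gm ∧
      Grr p (p.lzs x a (cb N i)) x P (cb N i) {a} HR H.gm := by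
    intro i hi a ha
    obtain ⟨gp, gm, hgl, hrr⟩ := h1 i hi a ha
    obtain ⟨hin, hr⟩ := hgr i hi
    obtain ⟨H, e1, e2, e3, hH⟩ := exists_tk (F := p.lzs x a (cb N i)) (D := {a}) (P := P)
      (gp := gp) (gm := gm) (gs := gm) (q := ((gr i).q : ℝ)) (m := ((gr i).m : ℝ))
      hp.g.cf (hp.z.ok hp.d) hx (hτ i hi) le_rfl (fun e => p.ys_cont x a (cb N i) e)
      (rB_cont p (cb N i)) (by exact_mod_cast hr.q0) (by exact_mod_cast hr.m0)
      hgl.gs.p0 hgl.gs.m0 hgl.gs.m0 hgl.cp hgl.cm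
    exact ⟨H, hH, by rw [e3, e2], by rw [e1, e2]; exact hgl, by rw [e2]; exact hrr⟩
  have : Nonempty (Fm V) := ⟨⟨fun _ _ _ => 0, fun _ _ _ => 0, fun _ _ _ => 0, fun _ _ _ => 0,
    fun _ _ _ _ => 0, fun _ _ _ => 0, fun _ _ _ => 0, fun _ _ _ => 0, fun _ _ _ _ => 0,
    fun _ _ _ _ => 0, fun _ _ _ _ => 0, fun _ _ _ _ => 0⟩⟩
  choose! G hG using e2
  choose! H hH using e1
  refine ⟨G, H,
    { cl := fun i hi a b ha hb hab => (hG i hi a b ha hb hab).1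
      gs := fun i hi a b ha hb hab => (hG i hi a b ha hb hab).2.1
      wk := fun i hi a b ha hb hab => (hG i hi a b ha hb hab).2.2.1
      gl := fun i hi a b ha hb hab => (hG i hi a b ha hb hab).2.2.2.1
      tk := fun i hi a ha => (hH i hi a ha).1
      hs := fun i hi a ha => (hH i hi a ha).2.1
      hg := fun i hi a ha => (hH i hi a ha).2.2.1
      gc := fun i hi a b ha hb hab => ?_ },
    { gr := fun i hi a b ha hb hab => (hG i hi a b ha hb hab).2.2.2.2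
      hr := fun i hi a ha => (hH i hi a ha).2.2.2 }⟩
  have w := hG i hi b a hb ha hab.symm
  have s := hH i hi a ha
  exact star_gc hp hx hab (hτ i hi) (cb0 i) le_rfl w.2.2.2.1.gs s.2.2.1.gs w.2.1 s.2.1
    w.2.2.2.1.zp w.2.2.2.1.zm s.2.2.1.zp

/-- **the families from the lists** -/
theorem exists_fctW {l : List MGr} {bB c a b : ℚ} (hp : p.Ok) (hx : Wt x P 1) (N0 : 0 < N)
    (hg : g.Pos) (hl : ∀ r ∈ l, r.Ok g p.z N) (hN : (l.any fun r => decide (N ≤ r.n)) = true)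
    (hq : T1p p bB) (hy : Ynp p.z p.y c a b) (ey : g.y = [0, 0, 0, c]) (eB : g.B = [0, bB])
    (eP : g.Gp = CertG2.Gp) (eM : g.Gm = CertG2.Gm) (y2 : CertG2.d.yb = g.y)
    (yS : CertGS.d.yb = g.y) (en : CertGS.nb = [0, 0, a, b])
    (U2 : ev (pri p.z.mb) RCN.btq ≤ CertG2.d.U) (US : ev (pri p.z.mb) RCN.btq ≤ CertGS.d.U) :
    ∃ G H, Fct p x P g (grL l) CertGS.Hp CertGS.Hm N G H ∧
      Fcr p x P CertG2.GmR CertGS.HmR N G H := by
  have hc : Ckp p g.y g.B := by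
    rw [ey, eB]
    exact hq.ckp hy
  refine exists_fctR hp hx N0 hg (gr_ok hl hN) hc ?_ ?_
  · rw [eP, eM]
    exact exists_glr2R hp hx (hc.gh hp (cc_bt U2) fun u _ => by rw [y2]) N
  · refine exists_glrSR hp hx hc (cc_bt US) (fun u _ => by rw [yS]) (fun r t h0 h1 h2 => ?_) N
    rw [en]
    exact hy.N h0 h1 h2

end Pool.Agent.RX.RCN.K
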