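import Pool.Agent.RX.RCN.Fct
import Pool.Agent.RX.RCN.XrH

/-! The world of two vertices of a cell with its clock (MP_73ccd0_lc, route M). -/

namespace Pool.Agent.RX.RCN.K

open Set Finset MeasureTheory Pool.Agent.RX.RCRSHalf Pool.Agent.RX.RCG Pool.Agent.RX.RCG.Ct
open Pool.Agent.RX.RCN.Ker Pool.Agent.RX.RCRS Pool.Agent.RX.RCM9 Pool.Agent.RX.RCM9.Bern Pool.Agent.RX.RCM9.Pk

set_option linter.unusedSectionVars false

variable {V : Type*} [Fintype V] [DecidableEq V]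
variable {p : Ps} {x : V → V → ℝ} {P : V → Prop} [DecidablePred P] {g : MDat} {gr : ℕ → MGr}
  {Hp Hm : List (List ℚ)} {N n : ℕ} {G : ℕ → V → V → Fm V} {H : ℕ → V → Fm V} {a b : V}

theorem Ps.Cc_zero (p : Ps) : p.Cc 0 = 0 := pri_zero _

/-- the clock runs in `[0, U]` -/
theorem Ps.clk (hp : p.Ok) {τ r : ℝ} (hτ : τ ≤ bt) (hr : r ∈ Icc 0 τ) :
    p.Cc τ - p.Cc r ∈ Icc 0 (p.Cc τ) := by
  have h1 := Ps.Cc_mono hp hr.1 hr.2 hτ
  have h2 := Ps.Cc_mono hp le_rfl hr.1 (hr.2.trans hτ)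
  rw [p.Cc_zero] at h2
  exact ⟨by linarith, by linarith⟩

/-- **the world of the pair** -/
theorem pair_wx (h : Fct p x P g gr Hp Hm N G H) (hp : p.Ok) (hx : Wt x P 1)
    (hc : Ckp p g.y g.B) (hn : n < N) (ha : P a) (hb : P b) (hab : a ≠ b) {b1 : ℝ}
    {z dl : ℝ → ℝ} (hz : ∀ u ∈ Icc 0 (p.Cc (cb N n)), pv g.y u ≤ z u)
    (hd : ∀ u ∈ Icc 0 (p.Cc (cb N n)), u ≤ z u + dl u)
    (hB : ∀ u ∈ Icc 0 (p.Cc (cb N n)), pv g.B u ≤ b1 * u) :
    Wx p.z.hz (p.y.lz2 p.z x P a b (cb N n) (cb N n)) x P (cb N n) {a, b} p.g.rB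
      (G n a b).gp (G n a b).gm (p.Cc (cb N n)) b1 z dl (pv2 g.Gp) (pv2 g.Gm) (pv p.z.mb)
      (fun r => p.Cc (cb N n) - p.Cc r) := by
  set τ := cb N n with hτd
  have hτ0 : 0 ≤ τ := by
    rw [hτd]; unfold cb
    have := bt_pos
    positivity
  have hτ1 : τ ≤ bt := cb_le_bt hn
  have hτ : τ ∈ Icc (0 : ℝ) bt := ⟨hτ0, hτ1⟩
  have m1 : ∀ r ∈ Icc 0 τ, r ∈ Icc (0 : ℝ) bt := fun r hr => ⟨hr.1, hr.2.trans hτ1⟩
  have w := h.wk n hn a b ha hb hab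
  have gl := h.gl n hn a b ha hb hab
  have hL := l0s2 (P := P) hp hx hab hτ hτ0 le_rfl
  refine
    { mb0 := w.mb0
      du := w.du
      um := fun r hr => Ps.clk hp hτ1 hr
      hm := w.hm
      hy := fun r hr e he f hf _ => ?_
      hB := fun r hr => (w.hB r hr).trans (hB _ (Ps.clk hp hτ1 hr))
      ps := w.ps
      ms := w.ms
      rp := w.rp
      rm := w.rm
      D2 := Finset.card_le_two
      τ1 := hτ
      cy := fun e => YDat.lz2_y1 (P := P) hp.y hp.z hp.d hx hab hτ hτ0 le_rfl e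
      y0 := fun e _ r hr => hL.yx_nonneg (wt_of hx) e hr
      cm := (continuous_pv p.z.mb).continuousOn
      Bσ := fun σ hσ r hr => ?_
      p0 := gl.gs.p0
      n0 := gl.gs.m0
      cp := gl.cp
      cg := gl.cm }
  · have hu := Ps.clk hp hτ1 hr
    have key : ∀ e ∈ ({a, b} : Finset V)ᶜ, (p.y.lz2 p.z x P a b τ τ).y1 e r
        ≤ z (p.Cc τ - p.Cc r) + RCM.kx x {a, b} e * dl (p.Cc τ - p.Cc r) := fun e he => by
      refine (w.hy r hr e he).trans ?_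
      have k0 := RCM.kx0 (wt_of hx) {a, b} e
      have k1 := RCM.kx1 (wt_of hx) {a, b} e
      have h1 := mul_le_mul_of_nonneg_left (hz _ hu) (sub_nonneg.2 k1)
      have h2 := mul_le_mul_of_nonneg_left (hd _ hu) k0
      show RCM.kx x {a, b} e * (p.Cc τ - p.Cc r)
        + (1 - RCM.kx x {a, b} e) * pv g.y (p.Cc τ - p.Cc r) ≤ _
      linarith
    have h1 := key e he
    have h2 := key f hf
    linarith
  · have hσ1 : σ ≤ bt := hσ.2.trans hτ1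
    have h1 := hc.B hr.1 hr.2 hσ1
    have h2 := Ps.Cc_mono hp hr.1 hr.2 hσ1
    have h3 := Ps.Cc_mono hp hσ.1 hσ.2 hτ1
    have h4 := Ps.Cc_mono hp le_rfl hr.1 (hr.2.trans hσ1)
    rw [p.Cc_zero] at h4
    refine h1.trans ((hB _ ⟨by linarith, by linarith⟩).trans (le_of_eq ?_))
    ring

end Pool.Agent.RX.RCN.K
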