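import Pool.Agent.RX.RCN.DrI
import Pool.Agent.RX.RCN.DrS
import Pool.Agent.RX.RCN.FctW_2
import Pool.Agent.RX.RCN.Wxp

/-! **The exponents with the signed direct part for the families of all cells** (MP_73ccd0_lc,
route M). -/

namespace Pool.Agent.RX.RCN.K

open Set Finset MeasureTheory Pool.Agent.RX.RCRSHalf Pool.Agent.RX.RCG Pool.Agent.RX.RCG.Ct
open Pool.Agent.RX.RCN.Ker Pool.Agent.RX.RCRS Pool.Agent.RX.RCM9 Pool.Agent.RX.RCM9.Bern Pool.Agent.RX.RCM9.Pk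

set_option linter.unusedSectionVars false

/-- the numeric data of the direct part fit to the cell `n` -/
structure Dg (p : Ps) (g : MDat) (gr : ℕ → MGr) (N n : ℕ) (c : Dl) (l : Yl) (k : Nl)
    (nb la : List ℚ) (Uo : ℚ) : Prop where
  hl : ∃ D n, l.ok D n = true
  hk : ∃ D n, k.ok l D n = true
  hc : ∃ D n, c.ok l k nb la D n = true
  fx : l.Fx (pv2 g.Gp) (pv2 g.Gm)
  S : DnS p Uo nb la
  CU : c.Cv ≤ Uo
  m : (gr n).m = l.m
  q : (gr n).q = l.q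
  y : ∀ u ∈ Icc (0 : ℝ) l.Ug, pv g.y u ≤ pv l.z u
  zd : ∀ u ∈ Icc (0 : ℝ) l.Ug, u ≤ pv l.z u + pv l.dl u
  B : ∀ u ∈ Icc (0 : ℝ) l.Ug, pv g.B u ≤ l.b1 * u
  Ca : (c.Ca : ℝ) ≤ p.Cc (ca N n)
  Cv : p.Cc (cb N n) ≤ c.Cv

variable {V : Type*} [Fintype V] [DecidableEq V]
variable {p : Ps} {x : V → V → ℝ} {P : V → Prop} [DecidablePred P] {g : MDat} {gr : ℕ → MGr}
  {Hp Hm GR HR : List (List ℚ)} {N n : ℕ} {G : ℕ → V → V → Fm V} {H : ℕ → V → Fm V} {a b : V}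
  {c : Dl} {l : Yl} {k : Nl} {nb la : List ℚ} {Uo : ℚ} {κ κ' : ℝ}

/-- the world of a pair -/
noncomputable abbrev Ps.F2 (p : Ps) (x : V → V → ℝ) (P : V → Prop) [DecidablePred P] (N n : ℕ) (a b : V) :
    Lz V := p.y.lz2 p.z x P a b (cb N n) (cb N n)

theorem cb_nn (N n : ℕ) : 0 ≤ cb N n := by
  unfold cb
  have := bt_pos
  positivity

theorem Ps.Cc_pos' (hp : p.Ok) {t : ℝ} (h0 : 0 < t) (h1 : t ≤ bt) : 0 < p.Cc t := by
  have key := nonneg_of_forward (a := 0) (s := t)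
    (U := fun z => p.Cc z - z) (U' := fun z => pv p.z.mb z - 1)
    (fun z _ => (p.hasDerivAt_Cc z).sub (hasDerivAt_id z))
    (by
      have : p.Cc 0 = 0 := pri_zero _
      simp [this])
    (fun z hz _ => by
      have := hp.z.mb_one (t := z) ⟨hz.1, hz.2.trans h1⟩
      linarith)
    t ⟨h0.le, le_rfl⟩
  linarith

theorem Ps.ns_cont (p : Ps) (x : V → V → ℝ) (a : V) (τ : ℝ) (e : V) {S : Set ℝ} :
    ContinuousOn ((p.lzs x a τ).n1 e) S := fun r _ =>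
  (YDat.hasDerivAt_N (y := p.y) τ r).continuousAt.continuousWithinAt

theorem ca_le_cb (N n : ℕ) : ca N n ≤ cb N n := by
  unfold ca cb
  refine mul_le_mul_of_nonneg_left (div_le_div_of_nonneg_right (by linarith) ?_) bt_nn
  exact Nat.cast_nonneg N

section pair

variable (h : Fct p x P g gr Hp Hm N G H) (hp : p.Ok) (hx : Wt x P 1) (hn : n < N)
  (ha : P a) (hb : P b) (hab : a ≠ b)

include h hp hx hn ha hb hab

/-- the data of the world -/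
theorem Fct.dw (hc : Ckp p g.y g.B) (d : Dg p g gr N n c l k nb la Uo) :
    Dw p.z.hz (p.F2 x P N n a b) x P (pv p.lo) {a, b} (G n a b) (ca N n) (cb N n) (cb N n)
      p.g.rB (pv p.z.mb) p.Cc (pv2 g.Gp) (pv2 g.Gm) c l nb la := by
  have hτ1 : cb N n ≤ bt := cb_le_bt hn
  have hτ : cb N n ∈ Icc (0 : ℝ) bt := ⟨cb_nn N n, hτ1⟩
  have hL := l0s2 (P := P) hp hx hab hτ (cb_nn N n) le_rfl
  obtain ⟨D', n', hck⟩ := d.hc
  obtain ⟨Dk, nk, hkk⟩ := d.hk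
  have fa := Dl.fa_of hck hkk
  have CvU : p.Cc (cb N n) ≤ l.Ug := d.Cv.trans fa.CU
  have mU : ∀ u ∈ Icc 0 (p.Cc (cb N n)), u ∈ Icc (0 : ℝ) l.Ug := fun u hu =>
    ⟨hu.1, hu.2.trans CvU⟩
  have CUo : (c.Cv : ℝ) ≤ (Uo : ℝ) := by exact_mod_cast d.CU
  have mo : ∀ u ∈ Icc (0 : ℝ) c.Cv, u ∈ Icc (0 : ℝ) (Uo : ℝ) := fun u hu =>
    ⟨hu.1, hu.2.trans CUo⟩
  have mb : ∀ r ∈ Icc 0 (cb N n), r ∈ Icc (0 : ℝ) bt := fun r hr => ⟨hr.1, hr.2.trans hτ1⟩
  have hcl := h.cl n hn a b ha hb hab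
  have N0 : 0 < N := by omega
  exact
    { wx := pair_wx h hp hx hc hn ha hb hab (fun u hu => d.y u (mU u hu))
        (fun u hu => d.zd u (mU u hu)) (fun u hu => d.B u (mU u hu))
      gs := h.gs n hn a b ha hb hab
      tk := by
        have h1 := hcl.tk
        rw [d.m, d.q] at h1
        exact h1
      fx := d.fx
      cl := (continuous_pv p.lo).continuousOn
      dC := fun r _ => p.hasDerivAt_Cc r
      C0 := p.Cc_zero
      Cp := by
        refine Ps.Cc_pos' hp ?_ hτ1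
        unfold cb
        have := bt_pos
        positivity
      Ca := d.Ca
      Cv := d.Cv
      N := fun e r hr => by
        have h1 := lz2_n1_le (P := P) hp hx hab hτ (cb_nn N n) le_rfl e hr
        have h2 := d.S.N (cb N n) r hr.1 hr.2 hτ1
        linarith
      n0 := fun e r hr => hL.nx_nonneg (wt_of hx) e hr
      om := fun u hu => d.S.om u (mo u hu)
      n2 := fun u hu => d.S.n2 u (mo u hu)
      la0 := fun v hv => d.S.la0 v (mo v hv)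
      la1 := fun v hv => d.S.la1 v (mo v hv)
      ll := fun r hr => d.S.ll r (mb r hr)
      lm := fun r hr => d.S.lm r (mb r hr) }

/-- **the exponents of the world of a pair** -/
theorem Fct.dir (hc : Ckp p g.y g.B) (d : Dg p g gr N n c l k nb la Uo) {t s : ℝ}
    (ht : t ∈ Icc (ca N n) (cb N n)) (hs : s ∈ Icc 0 t) {i j : V}
    (hi : i ∈ ({a, b} : Finset V)ᶜ) (hj : j ∈ ({a, b} : Finset V)ᶜ) (hij : i ≠ j)
    (hP : (P i ∧ P j) ∨ x i j = 0) :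
    LdS p.z.hz (p.F2 x P N n a b) x P (pv p.lo) (G n a b) (cb N n) {a, b} i j t s
      ≤ N2 p.z.hz (p.F2 x P N n a b) x P {a, b} t s t i j 0
        + N2 p.z.hz (p.F2 x P N n a b) x P {a, b} t s s j i 0
        + XSD p.z.hz (p.F2 x P N n a b) x P (G n a b) (cb N n) {a, b} c.kp s i j ∧
    LtS p.z.hz (p.F2 x P N n a b) x P (pv p.lo) (G n a b) (cb N n) {a, b} i j t s
      ≤ N2 p.z.hz (p.F2 x P N n a b) x P {a, b} t s t i j 0
        + N2 p.z.hz (p.F2 x P N n a b) x P {a, b} t s s j i 0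
        + x i j * pv c.dR (p.Cc s)
        + XST p.z.hz (p.F2 x P N n a b) x P (G n a b) (cb N n) {a, b} c.kp s i j := by
  have w := h.dw hp hx hn ha hb hab hc d
  obtain ⟨D', n', hck⟩ := d.hc
  obtain ⟨Dk, nk, hkk⟩ := d.hk
  obtain ⟨Dn, nn, hll⟩ := d.hl
  have fa := Dl.fa_of hck hkk
  have hcl := h.cl n hn a b ha hb hab
  have hsg : s ≤ cb N n := hs.2.trans ht.2
  exact ⟨w.LdS_le fa hll hkk hcl.cl.kj.ctn hcl.cl.kF hp.g.cf (hp.z.ok hp.d) hx ht hs hsg hi hj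
      hij hP,
    w.LtS_le fa hll hkk hcl.cl.kj.ctn hcl.cl.kF hp.g.cf (hp.z.ok hp.d) hx ht hs hsg hi hj
      hij hP⟩

/-- signs -/
theorem Fct.xs0 (κ0 : 0 ≤ κ) {s : ℝ} (hs : s ∈ Icc 0 (cb N n)) {i j : V}
    (hi : i ∈ ({a, b} : Finset V)ᶜ) (hj : j ∈ ({a, b} : Finset V)ᶜ) (hij : i ≠ j) :
    0 ≤ XSD p.z.hz (p.F2 x P N n a b) x P (G n a b) (cb N n) {a, b} κ s i j ∧
    0 ≤ XST p.z.hz (p.F2 x P N n a b) x P (G n a b) (cb N n) {a, b} κ s i j := by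
  have hcl := h.cl n hn a b ha hb hab
  have hZ := hp.z.ok hp.d
  have hτ1 : cb N n ≤ bt := cb_le_bt hn
  have hτ : cb N n ∈ Icc (0 : ℝ) bt := ⟨cb_nn N n, hτ1⟩
  have hL := l0s2 (P := P) hp hx hab hτ (cb_nn N n) le_rfl
  have cn : ∀ e, ContinuousOn ((p.F2 x P N n a b).n1 e) (Icc 0 (cb N n)) := fun e =>
    hL.nx_cont (cb_nn N n) e
  have g0 := gmR_nonneg_s (G := G n a b) (h.gl n hn a b ha hb hab).gs hZ hx hτ cn hi hj hij
  have x0 := mul_nonneg (hx.nonneg i j) κ0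
  have h1 := St.X0D_nonneg hp.g.cf hZ hx hτ1 hcl.tk hs hs.2 hi hj
  have h2 := St.X0T_nonneg hp.g.cf hZ hx hτ1 hcl.tk hs hs.2 hi hj
  unfold XSD XST
  constructor <;> linarith

end pair

/-! ### the star -/

section star

variable (h : Fct p x P g gr Hp Hm N G H) (hp : p.Ok) (hx : Wt x P 1) (hn : n < N) (ha : P a)

include h hp hx hn ha

/-- signs in the star world -/
theorem Fct.ms0 (κ0 : 0 ≤ κ) {s : ℝ} (hs : s ∈ Icc 0 (cb N n)) {i j : V}
    (hi : i ≠ a) (hj : j ≠ a) (hij : i ≠ j) :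
    0 ≤ XSD p.z.hz (p.lzs x a (cb N n)) x P (H n a) (cb N n) {a} κ s i j ∧
    0 ≤ XST p.z.hz (p.lzs x a (cb N n)) x P (H n a) (cb N n) {a} κ s i j := by
  have hZ := hp.z.ok hp.d
  have hτ1 : cb N n ≤ bt := cb_le_bt hn
  have hτ : cb N n ∈ Icc (0 : ℝ) bt := ⟨cb_nn N n, hτ1⟩
  have hi' : i ∈ ({a} : Finset V)ᶜ := by simp [hi]
  have hj' : j ∈ ({a} : Finset V)ᶜ := by simp [hj]
  have cn : ∀ e, ContinuousOn ((p.lzs x a (cb N n)).n1 e) (Icc 0 (cb N n)) := fun e =>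
    p.ns_cont x a (cb N n) e
  have g0 := gmR_nonneg_s (G := H n a) (h.hg n hn a ha).gs hZ hx hτ cn hi' hj' hij
  have x0 := mul_nonneg (hx.nonneg i j) κ0
  have h1 := St.X0D_nonneg hp.g.cf hZ hx hτ1 (h.tk n hn a ha) hs hs.2 hi' hj'
  have h2 := St.X0T_nonneg hp.g.cf hZ hx hτ1 (h.tk n hn a ha) hs hs.2 hi' hj'
  unfold XSD XST
  constructor <;> linarith

/-- **the star is above the worlds of the pairs** -/
theorem Fct.xs_le (κκ : κ ≤ κ') (hb : P b) (hba : b ≠ a) {s : ℝ} (hs : s ∈ Icc 0 (cb N n))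
    {i j : V} (hia : i ≠ a) (hib : i ≠ b) (hja : j ≠ a) (hjb : j ≠ b) (hij : i ≠ j) :
    XSD p.z.hz (p.F2 x P N n b a) x P (G n b a) (cb N n) {b, a} κ s i j
      ≤ XSD p.z.hz (p.lzs x a (cb N n)) x P (H n a) (cb N n) {a} κ' s i j ∧
    XST p.z.hz (p.F2 x P N n b a) x P (G n b a) (cb N n) {b, a} κ s i j
      ≤ XST p.z.hz (p.lzs x a (cb N n)) x P (H n a) (cb N n) {a} κ' s i j := by
  have hZ := hp.z.ok hp.d
  have hτ1 : cb N n ≤ bt := cb_le_bt hn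
  have hτ : cb N n ∈ Icc (0 : ℝ) bt := ⟨cb_nn N n, hτ1⟩
  have hcl := h.cl n hn b a hb ha hba
  have hcs := star_cs hp hx hba.symm hτ (cb_nn N n) le_rfl hcl (h.tk n hn a ha)
    (h.gc n hn a b ha hb hba.symm)
  have hi : i ∈ ({b, a} : Finset V)ᶜ := by simp [hia, hib]
  have hj : j ∈ ({b, a} : Finset V)ᶜ := by simp [hja, hjb]
  have hL := l0s2 (P := P) hp hx hba hτ (cb_nn N n) le_rfl
  have h1 := hcs.x0d hp.g.cf hZ hx hτ1 hs hs.2 hi hj hij
  have h2 := hcs.x0t hp.g.cf hZ hx hτ1 hs hs.2 hi hj hij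
  have h3 := gmR_cmp (G := G n b a) (G' := H n a) (F := p.F2 x P N n b a)
    (F' := p.lzs x a (cb N n)) (D := {b, a}) (D' := {a}) (h.gl n hn b a hb ha hba).gs
    (h.hg n hn a ha).gs (by simp) hZ hx hτ hcs.dm
    (fun i hi j hj hij r hr => ⟨hcs.gc.p i hi j hj hij r hr, hcs.gc.m i hi j hj hij r hr⟩)
    (fun e => hL.nx_cont (cb_nn N n) e) (fun e => p.ns_cont x a (cb N n) e) hi hj hij
  have x0 := mul_le_mul_of_nonneg_left κκ (hx.nonneg i j)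
  unfold XSD XST
  constructor <;> linarith

end star

/-! ### rows of level 1/2 -/

section rows

variable (h : Fct p x P g gr Hp Hm N G H) (hr : Fcr p x P GR HR N G H) (hx : Wt x P 1)
  (hn : n < N) (ha : P a)

include h hr hx hn ha

/-- the first vertex varies, world of a pair -/
theorem Fct.gR1 (hb : P b) (hab : a ≠ b) {e : V} (he : e ∈ ({a, b} : Finset V)ᶜ) :
    ∑ f ∈ ({a, b} : Finset V)ᶜ.erase e,
      gmR p.z.hz (p.F2 x P N n a b) x P (G n a b) f e (cb N n)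
      ≤ (1 - RCM.kx x {a, b} e) * pv2 GR (RCM.kx x {a, b} e) (p.Cc (cb N n)) :=
  (hr.gr n hn a b ha hb hab).col hx (cb_nn N n) (h.gl n hn a b ha hb hab).ms he

/-- the second vertex varies, world of a pair -/
theorem Fct.gR2 (hb : P b) (hab : a ≠ b) {e : V} (he : e ∈ ({a, b} : Finset V)ᶜ) :
    ∑ f ∈ ({a, b} : Finset V)ᶜ.erase e,
      gmR p.z.hz (p.F2 x P N n a b) x P (G n a b) e f (cb N n)
      ≤ (1 - RCM.kx x {a, b} e) * pv2 GR (RCM.kx x {a, b} e) (p.Cc (cb N n)) :=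
  (hr.gr n hn a b ha hb hab).row (cb_nn N n) he

/-- the first vertex varies, star -/
theorem Fct.gS1 {e : V} (he : e ∈ ({a} : Finset V)ᶜ) :
    ∑ f ∈ ({a} : Finset V)ᶜ.erase e,
      gmR p.z.hz (p.lzs x a (cb N n)) x P (H n a) f e (cb N n)
      ≤ (1 - RCM.kx x {a} e) * pv2 HR (RCM.kx x {a} e) (p.Cc (cb N n)) :=
  (hr.hr n hn a ha).col hx (cb_nn N n) (h.hg n hn a ha).ms he

end rows

end Pool.Agent.RX.RCN.K
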