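import Pool.Agent.RX.RCN.CkL_2
import Pool.Agent.RX.RCN.CkW
import Pool.Agent.RX.RCN.DrE
import Pool.Agent.RX.RCN.XlA

/-! The facts on the data for the signed direct part from list checks (MP_73ccd0_lc, route M). -/

namespace Pool.Agent.RX.RCN.K

open Set Finset Pool.Agent.RX.RCRSHalf Pool.Agent.RX.RCM9 Pool.Agent.RX.RCM9.Bern Pool.Agent.RX.RCM9.Pk
  Pool.Agent.RX.RCN.Ck1

set_option linter.unusedSectionVars false

/-- **the facts on the data** -/
theorem dns_of {p : Ps} {c a b : ℚ} {nb la : List ℚ} {U : ℚ} {D : ℤ} {n : ℕ}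
    (hy : Ynp p.z p.y c a b) (en : nb = [0, 0, a, b])
    (h : dnsOk p.z.mb p.lo nb la U RCN.btq D n = true) : DnS p U nb la := by
  simp only [dnsOk, Bool.and_eq_true, and_assoc] at h
  obtain ⟨h1, h2, h3, h4, h5, h6⟩ := h
  have m : ∀ u ∈ Icc (0 : ℝ) U, u ∈ Icc ((0 : ℚ) : ℝ) (U : ℝ) := fun u hu => by simpa using hu
  have mt : ∀ r ∈ Icc (0 : ℝ) bt, r ∈ Icc ((0 : ℚ) : ℝ) (RCN.btq : ℝ) := fun r hr => by
    unfold bt at hr
    simpa using hr
  refine
    { N := fun τ r h0 h1 h2 => by
        rw [en]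
        exact hy.N h0 h1 h2
      om := fun u hu => nn_le h1 (m u hu)
      n2 := fun u hu => ?_
      la0 := fun v hv => nn_le h3 (m v hv)
      la1 := fun v hv => ?_
      ll := fun r hr => ?_
      lm := fun r hr => nn_sub h6 (mt r hr) }
  · have := nn_sub h2 (m u hu)
    simp only [pv, mul_zero, add_zero] at this
    push_cast at this
    exact this
  · have := nn_sub h4 (m v hv)
    simp only [pv, mul_zero, add_zero] at this
    push_cast at this
    exact this
  · have := nn_sub h5 (mt r hr)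
    rwa [pv_lmul, pv_cmpl] at this

end Pool.Agent.RX.RCN.K
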