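import Pool.Agent.RX.RCN.MDat
import Pool.Agent.RX.RCN.YlA

/-! The pair operators of the rows of level 1/2 with rational polynomials
(MP_73ccd0_lc, route M). -/

set_option autoImplicit false

namespace Pool.Agent.RX.RCN.K

open Set Pool.Agent.RX.RCM9 Pool.Agent.RX.RCM9.Bern Pool.Agent.RX.RCM9.Pk

/-- polynomials in the clock `u`, and in `(k, u)` (outer list: powers of `k`) -/
structure FDat where
  U : ℚ
  z : List ℚ
  dl : List ℚ
  Eu : List (List ℚ)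
  Er : List (List ℚ)
  Gp : List (List ℚ)
  Gm : List (List ℚ)
  FM : List ℚ
  FP : List ℚ
  AM : List ℚ
  AP : List ℚ

namespace FDat

variable (g : FDat)

def k : E := vX
def u : E := qc g.U * vZ
def l : E := 1 - vX
def zE : E := pe g.z g.u
def dE : E := pe g.dl g.u
def v1 : E := g.zE + k * g.dE
def v2 : E := g.zE + (2 + k) * g.dE * E.num 1 3
def c2 : E := pe2 g.Eu k g.u
def r2 : E := pe2 g.Er k g.u
def gp2 : E := pe2 g.Gp k g.u
def gm2 : E := pe2 g.Gm k g.u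

/-- the conditions -/
structure Pos : Prop where
  U0 : 0 < g.U
  z0 : NN g.zE
  d0 : NN g.dE
  vv : NN (1 - (g.zE + g.dE))
  eu : NN (g.c2 - eT4 g.v1)
  er : NN (g.r2 - eT4 g.v2)
  P0 : NN g.gp2
  M0 : NN g.gm2
  fM : NN (pe g.FM g.u - l * (g.c2 * g.gm2))
  fP : NN (pe g.FP g.u - l * (g.c2 * g.gp2))
  aM : NN (pe g.AM g.u - l * g.c2 * (g.r2 * l * g.gm2 + pe g.FM g.u))
  aP : NN (pe g.AP g.u - l * g.c2 * (g.r2 * l * g.gp2 + pe g.FP g.u))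

variable {g}

/-- **the facts in two variables** -/
theorem Pos.fx (h : g.Pos) {y : Yl} (hU : y.Ug ≤ g.U) (ez : y.z = g.z) (ed : y.dl = g.dl)
    (e1 : y.FM = g.FM) (e2 : y.FP = g.FP) (e3 : y.AM = g.AM) (e4 : y.AP = g.AP)
    (hp : ∀ k ∈ Icc (0 : ℝ) 1, ∀ u ∈ Icc (0 : ℝ) g.U, pv2 g.Gp k u
      ≤ pv y.Gp u * ((1 + 3 / 5 * k) * Real.exp (pv g.z u + k * pv g.dl u)))
    (hm : ∀ k ∈ Icc (0 : ℝ) 1, ∀ u ∈ Icc (0 : ℝ) g.U, pv2 g.Gm k u
      ≤ pv y.Gm u * ((1 + 3 / 5 * k) * Real.exp (pv g.z u + k * pv g.dl u))) :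
    y.Fx (pv2 g.Gp) (pv2 g.Gm) := by
  have U0 : (0 : ℝ) < g.U := by exact_mod_cast h.U0
  have h01 : (0 : ℝ) ∈ Icc (0 : ℝ) 1 := ⟨le_rfl, zero_le_one⟩
  have t0 : (0 : ℝ) ∈ Icc (0 : ℝ) RCN.bt := ⟨le_rfl, RCN.bt_nn⟩
  have hUr : (y.Ug : ℝ) ≤ g.U := by exact_mod_cast hU
  have mm : ∀ u ∈ Icc (0 : ℝ) (y.Ug : ℝ), u ∈ Icc (0 : ℝ) (g.U : ℝ) := fun u hu =>
    ⟨hu.1, hu.2.trans hUr⟩
  have key : ∀ e : E, NN e → ∀ k ∈ Icc (0 : ℝ) 1, ∀ u ∈ Icc (0 : ℝ) (g.U : ℝ),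
      0 ≤ e.val (pt' k (u / g.U) 0 0) := fun e he k hk u hu =>
    he k (u / g.U) 0 0 hk ⟨div_nonneg hu.1 U0.le, (div_le_one U0).2 hu.2⟩ h01 t0
  have vu : ∀ k u, g.u.val (pt' k (u / g.U) 0 0) = u := fun k u => by
    show ((qc g.U).val _ * vZ.val _ : ℝ) = u
    rw [val_qc, val_vZ]
    exact mul_div_cancel₀ u U0.ne'
  have vk : ∀ k u, FDat.k.val (pt' k (u / g.U) 0 0) = k := fun k u => rfl
  have vl : ∀ k u, FDat.l.val (pt' k (u / g.U) 0 0) = 1 - k := fun k u => by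
    show ((1 : E).val _ - vX.val _ : ℝ) = _
    rw [val_one, val_vX]
  have n2 : ∀ ρ, (E.num 1 2).val ρ = 1 / 2 := val_hlf
  have n3 : ∀ ρ, (E.num 1 3).val ρ = 1 / 3 := fun ρ => by
    show (((1 : ℤ) : ℝ)) / ((3 : ℕ) : ℝ) = _
    norm_num
  have n6 : ∀ ρ, (E.num 1 6).val ρ = 1 / 6 := fun ρ => by
    show (((1 : ℤ) : ℝ)) / ((6 : ℕ) : ℝ) = _
    norm_num
  have n19 : ∀ ρ, (E.num 1 19).val ρ = 1 / 19 := fun ρ => by
    show (((1 : ℤ) : ℝ)) / ((19 : ℕ) : ℝ) = _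
    norm_num
  have vpe : ∀ (L : List ℚ) k u, (pe L g.u).val (pt' k (u / g.U) 0 0) = pv L u :=
    fun L k u => by rw [val_pe, vu]
  have vpe2 : ∀ (L : List (List ℚ)) k u,
      (pe2 L FDat.k g.u).val (pt' k (u / g.U) 0 0) = pv2 L k u := fun L k u => by
    rw [val_pe2, vu, vk]
  have vz : ∀ k u, g.zE.val (pt' k (u / g.U) 0 0) = pv g.z u := vpe g.z
  have vd : ∀ k u, g.dE.val (pt' k (u / g.U) 0 0) = pv g.dl u := vpe g.dl
  have v1 : ∀ k u, g.v1.val (pt' k (u / g.U) 0 0) = pv g.z u + k * pv g.dl u := fun k u => by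
    show (g.zE.val _ + FDat.k.val _ * g.dE.val _ : ℝ) = _
    rw [vz, vd, vk]
  have v2 : ∀ k u, g.v2.val (pt' k (u / g.U) 0 0) = pv g.z u + (2 + k) * pv g.dl u / 3 :=
    fun k u => by
    show (g.zE.val _ + ((2 : E).val _ + FDat.k.val _) * g.dE.val _ * (E.num 1 3).val _ : ℝ) = _
    rw [vz, vd, vk, n3, val_two]
    ring
  have eT : ∀ (v : E) (ρ : ℕ → ℝ), (eT4 v).val ρ = 1 + v.val ρ * (1 + v.val ρ / 2
      + v.val ρ ^ 2 / 6 + v.val ρ ^ 3 / 19) := fun v ρ => by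
    show ((1 : E).val ρ + v.val ρ * ((1 : E).val ρ + v.val ρ * (E.num 1 2).val ρ
      + v.val ρ ^ 2 * (E.num 1 6).val ρ + v.val ρ ^ 3 * (E.num 1 19).val ρ) : ℝ) = _
    rw [val_one, n2, n6, n19]; ring
  have z0 : ∀ u ∈ Icc (0 : ℝ) (g.U : ℝ), 0 ≤ pv g.z u := fun u hu => by
    have := key _ h.z0 0 h01 u hu
    rwa [vz] at this
  have d0 : ∀ u ∈ Icc (0 : ℝ) (g.U : ℝ), 0 ≤ pv g.dl u := fun u hu => by
    have := key _ h.d0 0 h01 u hu
    rwa [vd] at this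
  have vv : ∀ u ∈ Icc (0 : ℝ) (g.U : ℝ), pv g.z u + pv g.dl u ≤ 1 := fun u hu => by
    have := key _ h.vv 0 h01 u hu
    rw [val_sub, val_add, val_one, vz, vd] at this
    linarith
  have ex1 : ∀ k ∈ Icc (0 : ℝ) 1, ∀ u ∈ Icc (0 : ℝ) (g.U : ℝ),
      Real.exp (pv g.z u + k * pv g.dl u) ≤ pv2 g.Eu k u := fun k hk u hu => by
    have a1 := key _ h.eu k hk u hu
    rw [val_sub, eT, v1] at a1
    have a2 : g.c2.val (pt' k (u / g.U) 0 0) = pv2 g.Eu k u := vpe2 g.Eu k u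
    rw [a2] at a1
    have b0 := z0 u hu
    have b1 := mul_nonneg hk.1 (d0 u hu)
    have b2 := mul_le_mul_of_nonneg_right hk.2 (d0 u hu)
    have a3 := exp_le_T4 (v := pv g.z u + k * pv g.dl u) (by linarith) (by linarith [vv u hu])
    linarith
  have ex2 : ∀ k ∈ Icc (0 : ℝ) 1, ∀ u ∈ Icc (0 : ℝ) (g.U : ℝ),
      Real.exp (pv g.z u + (2 + k) * pv g.dl u / 3) ≤ pv2 g.Er k u := fun k hk u hu => by
    have a1 := key _ h.er k hk u hu
    rw [val_sub, eT, v2] at a1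
    have a2 : g.r2.val (pt' k (u / g.U) 0 0) = pv2 g.Er k u := vpe2 g.Er k u
    rw [a2] at a1
    have b0 := z0 u hu
    have b1 := mul_nonneg (by linarith [hk.1] : 0 ≤ 2 + k) (d0 u hu)
    have b2 := mul_le_mul_of_nonneg_right (by linarith [hk.2] : 2 + k ≤ 3) (d0 u hu)
    have a3 := exp_le_T4 (v := pv g.z u + (2 + k) * pv g.dl u / 3) (by linarith)
      (by linarith [vv u hu])
    linarith
  have P0 : ∀ k ∈ Icc (0 : ℝ) 1, ∀ u ∈ Icc (0 : ℝ) (g.U : ℝ), 0 ≤ pv2 g.Gp k u :=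
    fun k hk u hu => by
    have := key _ h.P0 k hk u hu
    have a2 : g.gp2.val (pt' k (u / g.U) 0 0) = pv2 g.Gp k u := vpe2 g.Gp k u
    rwa [a2] at this
  have M0 : ∀ k ∈ Icc (0 : ℝ) 1, ∀ u ∈ Icc (0 : ℝ) (g.U : ℝ), 0 ≤ pv2 g.Gm k u :=
    fun k hk u hu => by
    have := key _ h.M0 k hk u hu
    have a2 : g.gm2.val (pt' k (u / g.U) 0 0) = pv2 g.Gm k u := vpe2 g.Gm k u
    rwa [a2] at this
  -- the two forms
  have f1 : ∀ (Fl : List ℚ) (Gl : List (List ℚ)), NN (pe Fl g.u - FDat.l * (g.c2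
      * pe2 Gl FDat.k g.u)) → (∀ k ∈ Icc (0 : ℝ) 1, ∀ u ∈ Icc (0 : ℝ) (g.U : ℝ), 0 ≤ pv2 Gl k u) →
      ∀ k ∈ Icc (0 : ℝ) 1, ∀ u ∈ Icc (0 : ℝ) (g.U : ℝ),
      (1 - k) * (Real.exp (pv g.z u + k * pv g.dl u) * pv2 Gl k u) ≤ pv Fl u :=
    fun Fl Gl hF G0 k hk u hu => by
    have a1 := key _ hF k hk u hu
    rw [val_sub, val_mul, val_mul, vpe, vl, vpe2] at a1
    have a2 : g.c2.val (pt' k (u / g.U) 0 0) = pv2 g.Eu k u := vpe2 g.Eu k u
    rw [a2] at a1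
    have a3 := mul_le_mul_of_nonneg_left (mul_le_mul_of_nonneg_right (ex1 k hk u hu)
      (G0 k hk u hu)) (by linarith [hk.2] : 0 ≤ 1 - k)
    linarith
  have f2 : ∀ (Fl Al : List ℚ) (Gl : List (List ℚ)),
      NN (pe Fl g.u - FDat.l * (g.c2 * pe2 Gl FDat.k g.u)) →
      NN (pe Al g.u - FDat.l * g.c2 * (g.r2 * FDat.l * pe2 Gl FDat.k g.u + pe Fl g.u)) →
      (∀ k ∈ Icc (0 : ℝ) 1, ∀ u ∈ Icc (0 : ℝ) (g.U : ℝ), 0 ≤ pv2 Gl k u) →
      ∀ k ∈ Icc (0 : ℝ) 1, ∀ u ∈ Icc (0 : ℝ) (g.U : ℝ),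
      (1 - k) * Real.exp (pv g.z u + k * pv g.dl u)
        * (Real.exp (pv g.z u + (2 + k) * pv g.dl u / 3) * (1 - k) * pv2 Gl k u + pv Fl u)
        ≤ pv Al u :=
    fun Fl Al Gl hF hA G0 k hk u hu => by
    have a1 := key _ hA k hk u hu
    rw [val_sub, val_mul, val_mul, val_add, val_mul, val_mul, vpe, vpe, vl, vpe2] at a1
    have a2 : g.c2.val (pt' k (u / g.U) 0 0) = pv2 g.Eu k u := vpe2 g.Eu k u
    have a3 : g.r2.val (pt' k (u / g.U) 0 0) = pv2 g.Er k u := vpe2 g.Er k u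
    rw [a2, a3] at a1
    have k0 : 0 ≤ 1 - k := by linarith [hk.2]
    have g0 := G0 k hk u hu
    have F0 : 0 ≤ pv Fl u := (mul_nonneg k0 (mul_nonneg (Real.exp_pos _).le g0)).trans
      (f1 Fl Gl hF G0 k hk u hu)
    have x1 := ex1 k hk u hu
    have x2 := ex2 k hk u hu
    have a4 : Real.exp (pv g.z u + (2 + k) * pv g.dl u / 3) * (1 - k) * pv2 Gl k u + pv Fl u
        ≤ pv2 g.Er k u * (1 - k) * pv2 Gl k u + pv Fl u :=
      add_le_add (mul_le_mul_of_nonneg_right (mul_le_mul_of_nonneg_right x2 k0) g0) le_rfl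
    have a5 : 0 ≤ Real.exp (pv g.z u + (2 + k) * pv g.dl u / 3) * (1 - k) * pv2 Gl k u
        + pv Fl u := add_nonneg (mul_nonneg (mul_nonneg (Real.exp_pos _).le k0) g0) F0
    have a6 := mul_le_mul (mul_le_mul_of_nonneg_left x1 k0) a4 a5
      (mul_nonneg k0 ((Real.exp_pos _).le.trans x1))
    linarith
  exact
    { hp := fun k hk u hu => by
        have := hp k hk u (mm u hu)
        rw [ez, ed]
        exact this
      hg := fun k hk u hu => by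
        have := hm k hk u (mm u hu)
        rw [ez, ed]
        exact this
      fM := fun k hk u hu => by
        rw [ez, ed, e1]
        exact f1 _ _ h.fM M0 k hk u (mm u hu)
      fP := fun k hk u hu => by
        rw [ez, ed, e2]
        exact f1 _ _ h.fP P0 k hk u (mm u hu)
      aM := fun k hk u hu => by
        rw [ez, ed, e1, e3]
        exact f2 _ _ _ h.fM h.aM M0 k hk u (mm u hu)
      aP := fun k hk u hu => by
        rw [ez, ed, e2, e4]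
        exact f2 _ _ _ h.fP h.aP P0 k hk u (mm u hu)
      M0 := fun k hk u hu => M0 k hk u (mm u hu)
      G0 := fun k hk u hu => P0 k hk u (mm u hu) }

end FDat

end Pool.Agent.RX.RCN.K
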