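import Pool.Agent.RX.RCN.FDat

set_option autoImplicit false

namespace Pool.Agent.RX.RCN.K

open Pool.Agent.RX.RCM9

def fP : FDat where
  U := 57 / 100
  z := [0, 0, 0, 13 / 100]
  dl := [0, 1, 0, -13 / 100]
  Eu := [[1, 991 / 5000000, -469 / 5000000, 1312857 / 10000000, -68763 / 10000000, 62689 /
    5000000], [0, 2499997 / 2500000, 1103 / 10000000, -658227 / 5000000, 12273 / 80000, -112029
    / 5000000], [0, 9 / 5000000, 124957 / 250000, 3269 / 1250000, -1058829 / 5000000, 102791 /
    1000000], [0, -17 / 10000000, 153 / 1000000, 822227 / 5000000, 58537 / 500000, -231341 /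
    2500000]]
  Er := [[1, 41681 / 62500, 2221717 / 10000000, 936761 / 10000000, 181697 / 5000000, 15627 /
    1000000], [0, 3333331 / 10000000, 111119 / 500000, 5381 / 200000, 34447 / 10000000, 6093 /
    10000000], [0, -1 / 2500000, 69487 / 1250000, 458177 / 10000000, 12491 / 1000000, -160027 /
    10000000]]
  Gp := [[0, 0, 424217 / 1250000, 857497 / 10000000, 5339159 / 40000000, 3481713 / 25000000,
    518529 / 20000000, 1680247 / 5000000, -5600619 / 10000000, 6932189 / 10000000], [0, 0,
    10130299 / 20000000, 4582073 / 30000000, 2845299 / 20000000, 551261 / 25000000, -302591 /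
    30000000, 75883 / 200000, -6096591 / 10000000, 7616791 / 10000000], [0, 0, 1547317 /
    10000000, 12916981 / 30000000, 3883083 / 20000000, 13296479 / 50000000, 538849 / 12000000,
    1503587 / 5000000, -4889011 / 10000000, 767573 / 1250000]]
  Gm := [[0, 0, 0, 5654963 / 30000000, 2257931 / 40000000, 2168489 / 25000000, 149759 / 2400000,
    962961 / 10000000, 1627 / 62500, -228039 / 2500000, 1977443 / 5000000], [0, 0, 0, 286369 /
    1250000, 425089 / 8000000, -7208881 / 50000000, 3326407 / 12000000, 441861 / 10000000,
    514197 / 2500000, -6311 / 15625, 37733 / 62500], [0, 0, 0, 180577 / 30000000, 255387 /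
    2000000, 1021407 / 10000000, 16846603 / 60000000, 2007 / 2000000, 2573807 / 10000000,
    -2411827 / 5000000, 5998583 / 10000000]]
  FM := [0, 0, 0, 953187 / 5000000, 735537 / 10000000, 1265979 / 10000000, -85279 / 5000000,
    1548381 / 2500000, -2198347 / 2500000, 1330289 / 1250000]
  FP := [0, 0, 3580707 / 10000000, 458651 / 2500000, 728739 / 2500000, 1354883 / 5000000, 1282113
    / 10000000, -176819 / 1000000, 860079 / 1250000]
  AM := [0, 0, 0, 3797143 / 10000000, 1277969 / 5000000, 386689 / 1250000, 189281 / 10000000,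
    1006563 / 625000, -25847563 / 10000000, 29898241 / 10000000]
  AP := [0, 0, 3492513 / 5000000, 4956741 / 10000000, 5791971 / 10000000, 2146727 / 5000000,
    3454923 / 2500000, -21028059 / 10000000, 29303691 / 10000000]

end Pool.Agent.RX.RCN.K
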