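import Pool.Agent.RX.RCN.FDat

set_option autoImplicit false

namespace Pool.Agent.RX.RCN.K

open Pool.Agent.RX.RCM9

def fS : FDat where
  U := 57 / 100
  z := [0, 1 / 2, 0, 13 / 200]
  dl := [0, 1, 0, -13 / 100]
  Eu := [[1, 5001973 / 10000000, 1249363 / 10000000, 866889 / 10000000, 155729 / 5000000, 39127 /
    2500000], [0, 9999987 / 10000000, 2500547 / 5000000, -64991 / 10000000, 29953 / 625000, 4771
    / 2500000], [0, 7 / 2500000, 1249369 / 2500000, 634269 / 2500000, -1379429 / 10000000, 13989
    / 1000000], [0, -63 / 10000000, 177 / 312500, 1585463 / 10000000, 1263957 / 5000000, -12438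
    / 78125]]
  Er := [[1, 364661 / 312500, 340311 / 500000, 242349 / 1000000, 772859 / 10000000, -60959 /
    2500000], [0, 833329 / 2500000, 30394 / 78125, 888621 / 5000000, 584443 / 10000000, -73659 /
    1250000], [0, -1 / 625000, 111391 / 2000000, 360391 / 5000000, 72991 / 1250000, -44389 /
    1000000]]
  Gp := [[0, 0, 1501003 / 2000000, 750903 / 2000000, 3854979 / 8000000, 156542 / 390625, 417678143
    / 60000000, -232877753 / 5000000, 359671089 / 2000000, -128037043 / 400000, 2320353851 /
    10000000], [0, 0, 10000403 / 20000000, 5002503 / 10000000, 5511653 / 20000000, 2429691 /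
    10000000, 266050861 / 60000000, -145798577 / 5000000, 1138826411 / 10000000, -204430369 /
    1000000, 747299609 / 5000000], [0, 0, 0, 1267087 / 7500000, 9365563 / 40000000, 7580419 /
    50000000, 1685249 / 1200000, -94868213 / 10000000, 370439227 / 10000000, -662433143 /
    10000000, 481802707 / 10000000]]
  Gm := [[0, 0, 0, 38089 / 60000, 1771033 / 4000000, 3514913 / 12500000, 31160531 / 60000000,
    18668203 / 2500000, -241485279 / 5000000, 1918079463 / 10000000, -1753193397 / 5000000,
    2642727003 / 10000000], [0, 0, 0, 2501657 / 15000000, 6889843 / 20000000, 5107091 /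
    25000000, 3210153 / 10000000, 22383189 / 5000000, -146587441 / 5000000, 591676427 / 5000000,
    -2192182147 / 10000000, 1674210157 / 10000000], [0, 0, 0, -1 / 5000000, 2241133 / 40000000,
    1339657 / 50000000, 2452429 / 7500000, 800363 / 1250000, -763647 / 125000, 292466433 /
    10000000, -58861601 / 1000000, 238107723 / 5000000]]
  FM := [0, 0, 0, 3187983 / 5000000, 422681 / 625000, 29337723 / 10000000, -110415679 / 5000000,
    1051410851 / 10000000, -1063504591 / 5000000, 43791039 / 250000]
  FP := [0, 0, 376631 / 500000, 6677837 / 10000000, 29807891 / 10000000, -98459763 / 5000000,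
    221966897 / 2500000, -425797181 / 2500000, 42622199 / 312500]
  AM := [0, 0, 0, 511013 / 400000, 930679 / 400000, 3247263 / 312500, -71536001 / 1000000,
    703608443 / 2000000, -7264763683 / 10000000, 3068507897 / 5000000]
  AP := [0, 0, 15087559 / 10000000, 25311361 / 10000000, 24408753 / 2500000, -4577588 / 78125,
    356221829 / 1250000, -1430820433 / 2500000, 4771910577 / 10000000]

end Pool.Agent.RX.RCN.K
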