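import Pool.Agent.RX.RCG.Boot
import Pool.Agent.RX.RCG.FinB
import Pool.Agent.RX.RCN.Ident

/-! The final step with general selection probabilities, and the pair probabilities after the end
time (MP_73ccd0_lc, route M). -/

namespace Pool.Agent.RX.RCN

open MeasureTheory Set Finset Pool.Agent.RX.RCRS Pool.Agent.RX.RCRSHalf Pool.Agent.RX.RCG

set_option linter.unusedSectionVars false

section fin

variable {V : Type} [Fintype V] [DecidableEq V] {G : SimpleGraph V}
    [Fintype G.edgeSet] [DecidableEq G.edgeSet] {x : G.edgeSet → ℝ}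
    {h : ℝ → V ⊕ V → V ⊕ V → ℝ} {H : V ⊕ V → V ⊕ V → ℝ → ℝ} {φ : V ⊕ V → V ⊕ V → ℝ → ℝ}

/-- hazards on the extended graph with the right properties give a scheme which selects every edge
with the probability given by the integral of its density -/
theorem scheme_of_sol_gen (hS : Sol x h H φ) (hx : IsFractionalMatching G x) {c : G.edgeSet → ℝ}
    (hφ : ∀ e : G.edgeSet, ∫ t in Ico (0:ℝ) 1, φ (Sum.inl (fe e)) (Sum.inl (se e)) t = c e) :
    ∃ S : Scheme G, ∀ e : G.edgeSet, S.selProb x e = x e * c e := by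
  have hh := hS.hz
  have hm : ∀ e, Measurable (accI x h H (Sum.inl e : G.edgeSet ⊕ V)) := fun e =>
    measurable_accI hh _
  have hlamP : ∀ v : V, IsProbabilityMeasure
      (mixture (defect x v) (accI x h H (Sum.inr v : G.edgeSet ⊕ V))) := fun v =>
    mixture_prob (defect_nonneg hx v) (defect_le_one hx v) (measurable_accI hh _)
  have hprob : ∀ i, IsProbabilityMeasure (lwI2 x h H i) := by
    intro i
    rcases i with e | v
    · exact mixture_prob (hx.1 e).1 (hx.1 e).2 (measurable_accI hh _)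
    · exact hlamP v
  have hsf : ∀ i, SigmaFinite (laws (fun e => accI x h H (Sum.inl e)) x
      (fun v => mixture (defect x v) (accI x h H (Sum.inr v))) i) := fun i =>
    (inferInstance : SigmaFinite (lwI2 x h H i))
  refine ⟨scheme (fun e => accI x h H (Sum.inl e)) hm
    (fun v => mixture (defect x v) (accI x h H (Sum.inr v))), fun e => ?_⟩
  rw [scheme_selProb hm x hx.1 (fun v => mixture (defect x v) (accI x h H (Sum.inr v))) e]
  have e1 := prob_sel (ends G) (lwI2 x h H) (dnI2 x h H) (hzI2 h) (ringLawI2 hS hx)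
    Finset.univ (Sum.inl e) (Finset.mem_univ _) le_rfl
  have e2 : (Measure.pi (laws (fun e => accI x h H (Sum.inl e)) x
      (fun v => mixture (defect x v) (accI x h H (Sum.inr v))))).real
      {ρ | sel (ends G) Finset.univ ρ (Sum.inl e) ∧ ρ (Sum.inl e) < 1}
      = (Measure.pi (lwI2 x h H)).real
      {ρ | sel (ends G) Finset.univ ρ (Sum.inl e) ∧ ρ (Sum.inl e) < 1} := rfl
  rw [e2, e1]
  have e3 : ∀ t ∈ Ico (0:ℝ) 1, dnI2 x h H (Sum.inl e) t *
      pf (ends G) (lwI2 x h H) (Finset.univ.erase (Sum.inl e)) (ends G (Sum.inl e)) t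
      = x e * φ (Sum.inl (fe e)) (Sum.inl (se e)) t := by
    intro t ht
    have ht2 : t ∈ Icc (0:ℝ) 1 := ⟨ht.1, ht.2.le⟩
    rw [dn_eq2 hS (Sum.inl e) ht]
    have e4 := pf_erase (ends G) (lwI2 x h H) (dnI2 x h H) (hzI2 h) (ringLawI2 hS hx)
      Finset.univ (ends G (Sum.inl e)) (Finset.mem_univ (Sum.inl e)) Finset.Subset.rfl
      (ends_nonempty _) ht2
    rw [mul_assoc, ← e4, pf_eq_pr2 hS hx _ ht2]
    unfold hzI2
    rw [cut_of_mem ht, ends_rep]
    have h1 := hS.fl t ht2 (Sum.inl (fe e)) (Sum.inl (se e))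
    have e5 : xe x (Sum.inl (fe e)) (Sum.inl (se e)) = x e := xw_rep x e
    rw [e5] at h1
    rw [Finset.image_insert, Finset.image_singleton]
    exact h1
  rw [setIntegral_congr_fun measurableSet_Ico e3, integral_const_mul, hφ e]

/-- the reduction to the certificate with a lower bound of the integrals -/
theorem sel_of_cert (hx : IsFractionalMatching G x) {cap : V ⊕ V → V ⊕ V → ℝ → ℝ} {δ c : ℝ}
    (hD : Data (xe x) φ cap δ) (hC : Certified (xe x) φ cap)
    (hφ : ∀ e : G.edgeSet, x e ≠ 0 →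
      c ≤ ∫ t in Ico (0:ℝ) 1, φ (Sum.inl (fe e)) (Sum.inl (se e)) t) :
    ∃ S : Scheme G, ∀ e : G.edgeSet, c * x e ≤ S.selProb x e := by
  obtain ⟨h, H, hh, hprop⟩ := bootstrap hD hC
  obtain ⟨S, hS⟩ := scheme_of_sol_gen (φ := φ) ⟨hh, fun t ht a b => (hprop t ht a b).1,
    fun t ht a b hab => (hprop t ht a b).2.1 hab,
    fun t ht a b hab => ((hprop t ht a b).2.2 hab).1,
    fun t ht a b hab => ((hprop t ht a b).2.2 hab).2⟩ hx
    (c := fun e => ∫ t in Ico (0:ℝ) 1, φ (Sum.inl (fe e)) (Sum.inl (se e)) t) (fun e => rfl)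
  refine ⟨S, fun e => ?_⟩
  rw [hS e, mul_comm]
  by_cases h0 : x e = 0
  · rw [h0, zero_mul, zero_mul]
  · exact mul_le_mul_of_nonneg_left (hφ e h0) (hx.1 e).1

end fin

variable {V : Type*} [Fintype V] [DecidableEq V]
variable {h : ℝ → V → V → ℝ} {H : V → V → ℝ → ℝ}

theorem ppp_le_pp (hh : Haz h H) {a b c : V} {W : Finset V} (hW : W ⊆ {a, b, c}) {r : ℝ}
    (hr : r ∈ Icc (0 : ℝ) 1) : ppp h a b c r ≤ pr (lw h ∅ r) W := by
  unfold ppp pr
  refine Finset.sum_le_sum fun F _ => mul_le_mul_of_nonneg_left ?_ ((hh.lw ∅).nonneg F r hr)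
  split_ifs with h1 h2
  · exact le_rfl
  · refine absurd (fun y hy => h1 ?_) h2
    have := hW hy
    simp only [Finset.mem_insert, Finset.mem_singleton] at this ⊢
    tauto
  · exact zero_le_one
  · exact le_rfl

/-- the free probabilities decrease slowly -/
theorem bb_tail (hh : Haz h H) (v : V) {F : ℝ} {s t : ℝ} (hs : 0 ≤ s) (hst : s ≤ t) (ht : t ≤ 1)
    (hf : ∀ r ∈ Icc s t, ∑ c, h r v c * pp h v c r ≤ F) :
    bb h ∅ v s - F * (t - s) ≤ bb h ∅ v t := by
  have key := nonneg_of_forward (a := s) (s := t)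
    (U := fun r => bb h ∅ v r - (bb h ∅ v s - F * (r - s)))
    (U' := fun r => -(∑ c, h r v c * pp h v c r) - (0 - F * 1))
    (fun r hr => by
      have hr1 : r ∈ Icc (0 : ℝ) 1 := ⟨hs.trans hr.1, hr.2.trans ht⟩
      have d2 : HasDerivAt (fun r => F * (r - s)) (F * 1) r :=
        ((hasDerivAt_id r).sub_const s).const_mul F
      exact (bb_deriv hh v hr1).sub ((hasDerivAt_const r _).sub d2))
    (by simp)
    (fun r hr _ => by
      have := hf r hr
      linarith)
    t ⟨hst, le_rfl⟩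
  linarith

section acc

variable {x : V → V → ℝ} {a b : V} {F s t : ℝ}

/-- the outgoing flux of a pair -/
theorem flux_le (hh : Haz h H) (hab : a ≠ b) (x0 : ∀ u v, 0 ≤ x u v) (xr : ∀ u, ∑ c, x u c ≤ 1)
    (xs : ∀ u v, x u v = x v u) (F0 : 0 ≤ F) {r : ℝ} (hr : r ∈ Icc (0 : ℝ) 1)
    (hf : ∀ u v, h r u v * pp h u v r ≤ x u v * F) :
    ∑ c ∈ ({a, b} : Finset V)ᶜ, (h r a c + h r b c) * ppp h a b c r
      ≤ 2 * (1 - x a b) * F := by
  have h1 : ∑ c ∈ ({a, b} : Finset V)ᶜ, (h r a c + h r b c) * ppp h a b c r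
      ≤ ∑ c ∈ ({a, b} : Finset V)ᶜ, (x a c * F + x b c * F) := by
    refine Finset.sum_le_sum fun c _ => ?_
    have i1 : ppp h a b c r ≤ pp h a c r := ppp_le_pp hh (by
      intro y hy
      simp only [Finset.mem_insert, Finset.mem_singleton] at hy ⊢
      tauto) hr
    have i2 : ppp h a b c r ≤ pp h b c r := ppp_le_pp hh (by
      intro y hy
      simp only [Finset.mem_insert, Finset.mem_singleton] at hy ⊢
      tauto) hr
    have j1 := mul_le_mul_of_nonneg_left i1 (hh.nonneg r a c)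
    have j2 := mul_le_mul_of_nonneg_left i2 (hh.nonneg r b c)
    have j3 := hf a c
    have j4 := hf b c
    rw [add_mul]
    linarith
  have h2 : ∀ u v : V, u ≠ v → ∑ c ∈ ({u, v} : Finset V)ᶜ, x u c ≤ 1 - x u v := fun u v huv => by
    have hv : v ∉ ({u, v} : Finset V)ᶜ := by simp
    have i1 : ∑ c ∈ insert v ({u, v} : Finset V)ᶜ, x u c ≤ ∑ c, x u c :=
      Finset.sum_le_sum_of_subset_of_nonneg (Finset.subset_univ _) fun c _ _ => x0 u c
    rw [Finset.sum_insert hv] at i1
    have := xr u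
    linarith
  have h3 := h2 a b hab
  have h4 := h2 b a hab.symm
  rw [Finset.pair_comm, xs b a] at h4
  rw [Finset.sum_add_distrib, ← Finset.sum_mul, ← Finset.sum_mul] at h1
  have h5 := mul_le_mul_of_nonneg_right (add_le_add h3 h4) F0
  linarith

/-- the pair probabilities decrease slowly -/
theorem pp_tail (hh : Haz h H) (hab : a ≠ b) (x0 : ∀ u v, 0 ≤ x u v) (xr : ∀ u, ∑ c, x u c ≤ 1)
    (xs : ∀ u v, x u v = x v u) (F0 : 0 ≤ F) (hs : 0 ≤ s) (hst : s ≤ t) (ht : t ≤ 1)
    (hf : ∀ r ∈ Icc s t, ∀ u v, h r u v * pp h u v r ≤ x u v * F) :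
    pp h a b s - (2 - x a b) * F * (t - s) ≤ pp h a b t := by
  have key := nonneg_of_forward (a := s) (s := t)
    (U := fun r => pp h a b r - (pp h a b s - (2 - x a b) * F * (r - s)))
    (U' := fun r => -(h r a b * pp h a b r
      + ∑ c ∈ ({a, b} : Finset V)ᶜ, (h r a c + h r b c) * ppp h a b c r)
        - (0 - (2 - x a b) * F * 1))
    (fun r hr => by
      have hr1 : r ∈ Icc (0 : ℝ) 1 := ⟨hs.trans hr.1, hr.2.trans ht⟩
      have d2 : HasDerivAt (fun r => (2 - x a b) * F * (r - s)) ((2 - x a b) * F * 1) r :=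
        ((hasDerivAt_id r).sub_const s).const_mul _
      exact (pp_deriv hh hab hr1).sub ((hasDerivAt_const r _).sub d2))
    (by simp)
    (fun r hr _ => by
      have hr1 : r ∈ Icc (0 : ℝ) 1 := ⟨hs.trans hr.1, hr.2.trans ht⟩
      have h1 := flux_le hh hab x0 xr xs F0 hr1 (hf r hr)
      have h2 := hf r hr a b
      linarith)
    t ⟨hst, le_rfl⟩
  linarith

/-- the lower bound of `e^{-H}` from the acceptance condition -/
theorem expH_of (hh : Haz h H) (x0 : 0 ≤ x a b)
    (ha : ∀ r ∈ Icc 0 t, h r a b ≤ x a b * Real.exp (H a b r)) {s : ℝ} (hs : s ∈ Icc 0 t) :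
    1 - x a b * s ≤ Real.exp (-H a b s) := by
  have key := nonneg_of_forward (a := 0) (s := t)
    (U := fun s => Real.exp (-H a b s) - (1 - x a b * s))
    (U' := fun s => Real.exp (-H a b s) * (-h s a b) - (0 - x a b * 1))
    (fun r _ => by
      have d1 : HasDerivAt (fun s => Real.exp (-H a b s))
          (Real.exp (-H a b r) * (-h r a b)) r := ((hh.Hd a b r).neg).exp
      have d2 := ((hasDerivAt_id r).const_mul (x a b)).const_sub 1
      refine (d1.sub d2).congr_deriv ?_
      ring)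
    (by simp [hh.H0])
    (fun r hr _ => by
      have h1 := ha r hr
      have h2 := mul_le_mul_of_nonneg_left h1 (Real.exp_pos (-H a b r)).le
      have h3 : Real.exp (-H a b r) * (x a b * Real.exp (H a b r)) = x a b := by
        rw [mul_left_comm, ← Real.exp_add, neg_add_cancel, Real.exp_zero, mul_one]
      rw [h3] at h2
      linarith)
    s hs
  linarith

end acc

end Pool.Agent.RX.RCN
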