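import Pool.Agent.RX.RCM.GCmp
import Pool.Agent.RX.RCN.StB

/-! Level 1/2 of the star world: comparison, and the bounds of its kernel and sources
(MP_73ccd0_lc, route M). -/

namespace Pool.Agent.RX.RCN.K

open Set Finset MeasureTheory Pool.Agent.RX.RCRSHalf Pool.Agent.RX.RCG Pool.Agent.RX.RCG.Ct
open Pool.Agent.RX.RCN.Ker Pool.Agent.RX.RCRS Pool.Agent.RX.RCM9 Pool.Agent.RX.RCM9.Bern Pool.Agent.RX.RCM9.Pk

set_option linter.unusedSectionVars false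

variable {V : Type*} [Fintype V] [DecidableEq V]
variable {p : Ps} {x : V → V → ℝ} {P : V → Prop} [DecidablePred P] {a b : V} {sg α τ : ℝ}
variable {m q : ℝ} {G G' : Fm V}

/-- a solution of level 1/2 in the world of `F` -/
def Gsw (Z : Hzd) (F : Lz V) (x : V → V → ℝ) (P : V → Prop) [DecidablePred P] (τ : ℝ)
    (D : Finset V) (gp gm : V → V → ℝ → ℝ) : Prop :=
  RCM.Gs Dᶜ τ (K1 Z F x P) (RCM.Ab (Z.hh x P) F.y1) (RCM.Bw (Z.hh x P) F.n1) gp gm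

section sources

variable {Z : Hzd} {F : Lz V} {sl : ℝ → ℝ → ℝ}

theorem Ab_cont (hZ : Z.Ok sl) (hx : Wt x P 1) (hτ : τ ≤ bt)
    (cy : ∀ e, ContinuousOn (F.y1 e) (Icc 0 τ)) (e f : V) :
    ContinuousOn (fun r => RCM.Ab (Z.hh x P) F.y1 r e f) (Icc 0 τ) := by
  unfold RCM.Ab
  exact ((hZ.hh_cont hx e f).mono (Icc_subset_Icc_right hτ)).mul
    ((Real.continuous_exp.comp_continuousOn ((cy e).add (cy f))).sub continuousOn_const)

theorem Bw_cont (hZ : Z.Ok sl) (hx : Wt x P 1) (hτ : τ ≤ bt)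
    (cn : ∀ e, ContinuousOn (F.n1 e) (Icc 0 τ)) (e f : V) :
    ContinuousOn (fun r => RCM.Bw (Z.hh x P) F.n1 r e f) (Icc 0 τ) := by
  unfold RCM.Bw
  exact ((hZ.hh_cont hx e f).mono (Icc_subset_Icc_right hτ)).mul
    (continuousOn_const.sub ((continuousOn_const.sub (cn e)).mul
      (continuousOn_const.sub (cn f))))

end sources

/-- **level 1/2 of the world `{b, a}` is below that of the star** -/
theorem star_g (hp : p.Ok) (hx : Wt x P 1) (hab : a ≠ b) (hτ : τ ∈ Icc (0 : ℝ) bt)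
    (sg0 : 0 ≤ sg) (sgτ : sg ≤ τ) {gp gm gp' gm' : V → V → ℝ → ℝ}
    (h : Gsw p.z.hz (p.y.lz2 p.z x P b a sg τ) x P τ {b, a} gp gm)
    (h' : Gsw p.z.hz (p.lzs x a τ) x P τ {a} gp' gm') :
    ∀ i ∈ ({b, a} : Finset V)ᶜ, ∀ j ∈ ({b, a} : Finset V)ᶜ, i ≠ j → ∀ r ∈ Icc 0 τ,
      gp i j r ≤ gp' i j r ∧ gm i j r ≤ gm' i j r := by
  have hZ := hp.z.ok hp.d
  have hL := l0s2 (P := P) hp hx hab.symm hτ sg0 sgτ
  have hx' := wt_of hx
  have hdm := star_dm (P := P) hp hx hab hτ sg0 sgτ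
  have m1 : ∀ r ∈ Icc 0 τ, r ∈ Icc (0 : ℝ) bt := fun r hr => ⟨hr.1, hr.2.trans hτ.2⟩
  have y0 : ∀ e, ∀ r ∈ Icc 0 τ, 0 ≤ (p.y.lz2 p.z x P b a sg τ).y1 e r := fun e r hr =>
    hL.yx_nonneg hx' e hr
  have n0 : ∀ e, ∀ r ∈ Icc 0 τ, 0 ≤ (p.y.lz2 p.z x P b a sg τ).n1 e r := fun e r hr =>
    hL.nx_nonneg hx' e hr
  have n1 : ∀ e, ∀ r ∈ Icc 0 τ, (p.y.lz2 p.z x P b a sg τ).n1 e r ≤ 1 := fun e r hr =>
    hL.nx_one hx' hτ.1 e hr
  refine RCM.Gs.cmp h h' (Finset.compl_subset_compl.2 (by simp))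
    (fun e f => Tb_cont hZ hx hτ.2 (fun e => hL.yx_cont hτ.1 e) e f)
    (fun r hr i j => K1_nonneg hZ hx (m1 r hr) i j) (fun r hr i j => K1_nonneg hZ hx (m1 r hr) i j)
    (fun r hr i hi j hj => hdm.K hZ hx hτ.2 hi hj hr)
    (Ab_cont hZ hx hτ.2 fun e => hL.yx_cont hτ.1 e)
    (Bw_cont hZ hx hτ.2 fun e => hL.nx_cont hτ.1 e)
    (fun r hr i _ j _ _ => mul_nonneg (hZ.hh_nonneg hx (m1 r hr) i j) ?_)
    (fun r hr i _ j _ _ => mul_nonneg (hZ.hh_nonneg hx (m1 r hr) i j) ?_)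
    (fun r hr i hi j hj _ => hdm.Aa hZ hx hτ.2 hi hj hr)
    (fun r hr i hi j hj _ => hdm.W hZ hx hτ.2 hi hj hr)
  · have := Real.one_le_exp (add_nonneg (y0 i r hr) (y0 j r hr))
    linarith
  · have a1 := n0 i r hr
    have a2 := n0 j r hr
    have a3 := n1 i r hr
    have a4 := n1 j r hr
    nlinarith

/-- **the comparison of the families** -/
theorem star_gc (hp : p.Ok) (hx : Wt x P 1) (hab : a ≠ b) (hτ : τ ∈ Icc (0 : ℝ) bt)
    (sg0 : 0 ≤ sg) (sgτ : sg ≤ τ)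
    (h : Gsw p.z.hz (p.y.lz2 p.z x P b a sg τ) x P τ {b, a} G.gp G.gm)
    (h' : Gsw p.z.hz (p.lzs x a τ) x P τ {a} G'.gp G'.gm)
    (es : G.gs = G.gm) (es' : G'.gs = G'.gm) (zp : ∀ i r, G.gp i i r = 0)
    (zm : ∀ i r, G.gm i i r = 0) (zp' : ∀ i r, G'.gp i i r = 0) :
    Gc G G' τ {b, a} := by
  have key := star_g hp hx hab hτ sg0 sgτ h h'
  refine ⟨fun i hi j hj hij r hr => (key i hi j hj hij r hr).1,
    fun i hi j hj hij r hr => (key i hi j hj hij r hr).2, fun i hi j hj r hr => ?_, zp, zp'⟩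
  rw [es, es']
  rcases eq_or_ne i j with rfl | hij
  · rw [zm]
    exact h'.m0 i i r hr
  · exact (key i hi j hj hij r hr).2


end Pool.Agent.RX.RCN.K
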