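import Pool.Agent.RX.RCN.MGr
import Pool.Agent.RX.RCN.StG

/-! The facts on the families of all cells (MP_73ccd0_lc, route M). -/

namespace Pool.Agent.RX.RCN.K

open Set Finset MeasureTheory Pool.Agent.RX.RCRSHalf Pool.Agent.RX.RCG Pool.Agent.RX.RCG.Ct
open Pool.Agent.RX.RCN.Ker Pool.Agent.RX.RCRS Pool.Agent.RX.RCM9 Pool.Agent.RX.RCM9.Bern Pool.Agent.RX.RCM9.Pk

set_option linter.unusedSectionVars false

variable {V : Type*} [Fintype V] [DecidableEq V]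

/-- level 1/2 of a world: exact solution, symmetry, rows in the clock `u r = C τ - C r` -/
structure Glr (p : Ps) (F : Lz V) (x : V → V → ℝ) (P : V → Prop) [DecidablePred P] (τ : ℝ)
    (D : Finset V) (Gp Gm : List (List ℚ)) (gp gm : V → V → ℝ → ℝ) : Prop where
  gs : Gsw p.z.hz F x P τ D gp gm
  zp : ∀ i r, gp i i r = 0
  zm : ∀ i r, gm i i r = 0
  cp : ∀ i j, ContinuousOn (gp i j) (Icc 0 τ)
  cm : ∀ i j, ContinuousOn (gm i j) (Icc 0 τ)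
  ps : ∀ i j, ∀ r ∈ Icc 0 τ, gp i j r = gp j i r
  ms : ∀ i j, ∀ r ∈ Icc 0 τ, gm i j r = gm j i r
  rp : ∀ e ∈ Dᶜ, ∀ r ∈ Icc 0 τ, ∑ f ∈ Dᶜ, gp e f r
    ≤ (1 - RCM.kx x D e) * pv2 Gp (RCM.kx x D e) (p.Cc τ - p.Cc r)
  rm : ∀ e ∈ Dᶜ, ∀ r ∈ Icc 0 τ, ∑ f ∈ Dᶜ, gm e f r
    ≤ (1 - RCM.kx x D e) * pv2 Gm (RCM.kx x D e) (p.Cc τ - p.Cc r)

/-- **the facts on the families** `G i a b` (worlds `{a, b}`) and `H i a` (star world of `a`) -/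
structure Fct (p : Ps) (x : V → V → ℝ) (P : V → Prop) [DecidablePred P] (g : MDat) (gr : ℕ → MGr)
    (Hp Hm : List (List ℚ)) (N : ℕ) (G : ℕ → V → V → Fm V) (H : ℕ → V → Fm V) : Prop where
  cl : ∀ i < N, ∀ a b, P a → P b → a ≠ b →
    Cl2 p x P a b (cb N i) (ca N i) (cb N i) ((gr i).m : ℝ) ((gr i).q : ℝ) (G i a b)
  gs : ∀ i < N, ∀ a b, P a → P b → a ≠ b → (G i a b).gs = (G i a b).gm
  wk : ∀ i < N, ∀ a b, P a → P b → a ≠ b →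
    Wck p.z.hz (p.y.lz2 p.z x P a b (cb N i) (cb N i)) x P (cb N i) {a, b} p.g.rB
      (G i a b).gp (G i a b).gm ((gr i).U : ℝ) (pv g.y) (pv g.B) (pv2 g.Gp) (pv2 g.Gm)
      (pv p.z.mb) (fun r => p.Cc (cb N i) - p.Cc r)
  gl : ∀ i < N, ∀ a b, P a → P b → a ≠ b →
    Glr p (p.y.lz2 p.z x P a b (cb N i) (cb N i)) x P (cb N i) {a, b} g.Gp g.Gm
      (G i a b).gp (G i a b).gm
  tk : ∀ i < N, ∀ a, P a → (H i a).Tk p.z.hz (p.lzs x a (cb N i)) x P (cb N i) (cb N i) {a}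
    p.g.rB ((gr i).m : ℝ) ((gr i).q : ℝ)
  hs : ∀ i < N, ∀ a, P a → (H i a).gs = (H i a).gm
  hg : ∀ i < N, ∀ a, P a → Glr p (p.lzs x a (cb N i)) x P (cb N i) {a} Hp Hm
    (H i a).gp (H i a).gm
  gc : ∀ i < N, ∀ a b, P a → P b → a ≠ b → Gc (G i b a) (H i a) (cb N i) {b, a}

variable {p : Ps} {x : V → V → ℝ} {P : V → Prop} [DecidablePred P] {g : MDat} {gr : ℕ → MGr}
  {Hp Hm : List (List ℚ)} {N : ℕ}

end Pool.Agent.RX.RCN.K
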