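import Pool.Agent.RX.RCM9.CertG2X
import Pool.Agent.RX.RCM9.CertGSD
import Pool.Agent.RX.RCN.CkW
import Pool.Agent.RX.RCN.DnP_2

/-! The theorem from the certificates (MP_73ccd0_lc, route M). -/

namespace Pool.Agent.RX.RCN.K

open Set Finset MeasureTheory Pool.Agent.RX.RCRSHalf Pool.Agent.RX.RCG Pool.Agent.RX.RCG.Ct
open Pool.Agent.RX.RCN.Ker Pool.Agent.RX.RCRS Pool.Agent.RX.RCM9 Pool.Agent.RX.RCM9.Bern Pool.Agent.RX.RCM9.Pk
open Pool.Agent.RX.RCM9.G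

set_option linter.unusedSectionVars false

/-- the first certificates: the frame, the densities, the families -/
structure CA (p : Ps) (g : GDat) (md : MDat) (lg : List MGr) (N : ℕ) (T : T1l) (u : RCE.UDat)
    (q : RCE.TDat) : Prop where
  hp : p.Ok
  hg : g.Pos p.d
  hD : ∃ y, DnC p g y u q
  N0 : 0 < N
  hm : md.Pos
  hl : ∀ r ∈ lg, r.Ok md p.z N
  hN : (lg.any fun r => decide (N ≤ r.n)) = true
  hq : T1p p T.bB
  hy : ∃ c a b, Ynp p.z p.y c a b ∧ md.y = [0, 0, 0, c] ∧ CertGS.nb = [0, 0, a, b]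
  eB : md.B = [0, T.bB]
  eP : md.Gp = CertG2.Gp
  eM : md.Gm = CertG2.Gm
  y2 : CertG2.d.yb = md.y
  yS : CertGS.d.yb = md.y
  U2 : ev (pri p.z.mb) RCN.btq ≤ CertG2.d.U
  US : ev (pri p.z.mb) RCN.btq ≤ CertGS.d.U
  ho : T.Of p g
  ax : T.ax = true
  hG : ∃ D n τ', T.okG D n τ' = true
  k1 : p.d.k1 = 0
  sT : ∀ y ∈ Icc (0 : ℝ) 1, 1 - y ≤ pv p.d.shT y
  kt : ∀ t ∈ Icc (0 : ℝ) bt, 0 ≤ pv p.d.ktl t

end Pool.Agent.RX.RCN.K
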