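import Mathlib

/-! The second type: the certificates, version 2 (generated). -/

set_option autoImplicit false

namespace Pool.Agent.RX.RCN.K

open Set

/-- the share of the second type -/
def sg3 (i : ℕ) : ℚ :=
  if i < 100 then 57 / 500 else if i < 200 then 63 / 250 else if i < 300 then 87 / 250 else if i < 400 then 213 / 500 else if i < 450 then 113 / 250 else if i < 500 then 47 / 100 else if i < 530 then 237 / 500 else if i < 580 then 239 / 500 else if i < 600 then 12 / 25 else if i < 650 then 123 / 250 else if i < 680 then 243 / 500 else if i < 720 then 62 / 125 else if i < 740 then 1 / 2 else if i < 760 then 249 / 500 else if i < 790 then 62 / 125 else if i < 820 then 249 / 500 else if i < 850 then 1 / 2 else if i < 880 then 63 / 125 else if i < 890 then 1 / 2 else if i < 900 then 249 / 500 else if i < 920 then 251 / 500 else if i < 930 then 253 / 500 else if i < 940 then 63 / 125 else if i < 960 then 51 / 100 else if i < 970 then 129 / 250 else if i < 980 then 257 / 500 else if i < 990 then 261 / 500 else if i < 1000 then 13 / 25 else if i < 1010 then 131 / 250 else if i < 1020 then 263 / 500 else if i < 1030 then 66 / 125 else if i < 1040 then 133 / 250 else if i < 1060 then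 67 / 125 else if i < 1070 then 27 / 50 else if i < 1080 then 271 / 500 else if i < 1090 then 273 / 500 else 137 / 250

end Pool.Agent.RX.RCN.K
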