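import Pool.Agent.RX.RCN.CV1
import Pool.Agent.RX.RCN.CV1E
import Pool.Agent.RX.RCN.CertA
import Pool.Agent.RX.RCN.CertG
import Pool.Agent.RX.RCN.CertM
import Pool.Agent.RX.RCN.CertT1p
import Pool.Agent.RX.RCN.DnW
import Pool.Agent.RX.RCN.FctT
import Pool.Agent.RX.RCN.FinB
import Pool.Agent.RX.RCN.T3WF_1

/-! The certificates of the data set, put together (MP_73ccd0_lc, route M). -/

set_option autoImplicit false

namespace Pool.Agent.RX.RCN.K

open Set Pool.Agent.RX.RCRSHalf Pool.Agent.RX.RCG Pool.Agent.RX.RCG.Ct Pool.Agent.RX.RCRS Pool.Agent.RX.RCM9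
open Pool.Agent.RX.RCM9.Bern Pool.Agent.RX.RCM9.Pk Pool.Agent.RX.RCM9.G

/-- the certificates of the frame -/
theorem caW : CA pW gW mW grpW 1100 CV1.tL RCE.U55v.u RCE.T55v.t where
  hp := pW_ok
  hg := GDat.posG
  hD := ⟨_, dnC_of (ckW posT1p)⟩
  N0 := by norm_num
  hm := MDat.posM
  hl := grW_ok
  hN := grW_all
  hq := posT1p
  hy := ⟨13 / 100, 17 / 25, 17 / 100, ynW, by decide +kernel, by decide +kernel⟩
  eB := by decide +kernel
  eP := by decide +kernel
  eM := by decide +kernel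
  y2 := by decide +kernel
  yS := by decide +kernel
  U2 := by decide +kernel
  US := by decide +kernel
  ho := CV1.tL_of
  ax := CV1.tL_ax
  hG := ⟨_, _, _, CV1.tL_ok⟩
  k1 := by decide +kernel
  sT := fun y _ => by
    have h : pW.d.shT = [1, -1] := by decide +kernel
    rw [h]
    norm_num [pv]
  kt := fun t ht => by
    have h2 := pW_ok.d.kt.t ht
    rwa [val_pe, val_vT] at h2

/-- the certificates of the first type -/
theorem ct1W : CT1B mW grpW 1100 CV1.tL CV1.sg1 V2L.nb V2L.la V2L.Uo where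
  s0 := CV1.sg1_nn
  hc := CV1.cov

theorem sg_le : ∀ i < 1100, CV1.sg1 i + sg3 i ≤ 1 := by decide +kernel

end Pool.Agent.RX.RCN.K
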