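import Pool.Agent.RX.RCN.GexB

/-! The level 1/2 of the star worlds (MP_73ccd0_lc, route M). -/

namespace Pool.Agent.RX.RCN.K

open Set Finset MeasureTheory Pool.Agent.RX.RCRSHalf Pool.Agent.RX.RCG Pool.Agent.RX.RCG.Ct
open Pool.Agent.RX.RCN.Ker Pool.Agent.RX.RCRS Pool.Agent.RX.RCM9 Pool.Agent.RX.RCM9.Bern Pool.Agent.RX.RCM9.Pk
open Pool.Agent.RX.RCM9.G

set_option linter.unusedSectionVars false

variable {V : Type*} [Fintype V] [DecidableEq V]
variable {p : Ps} {x : V → V → ℝ} {P : V → Prop} [DecidablePred P] {a : V} {τ : ℝ}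

/-- the scalar form of a list of the star world -/
theorem sc_leS {d : GDat} {U0 : 0 < d.U} {l : List ℚ} {g : List (List ℚ)} {y2 : List ℚ}
    (hl : NG (d.e1 l)) (hv : NG ((gW + E.num 1 2) * d.u + (E.num 1 2 - gW) * d.e1 y2))
    (h : NG (d.e1 l * ((1 + E.num 3 5 * gW)
      * (1 + ((gW + E.num 1 2) * d.u + (E.num 1 2 - gW) * d.e1 y2)
      * (1 + ((gW + E.num 1 2) * d.u + (E.num 1 2 - gW) * d.e1 y2) * E.num 1 2
        + ((gW + E.num 1 2) * d.u + (E.num 1 2 - gW) * d.e1 y2) ^ 2 * E.num 1 6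
        + ((gW + E.num 1 2) * d.u + (E.num 1 2 - gW) * d.e1 y2) ^ 3 * E.num 1 24)))
        - d.e2 g gW))
    {k u : ℝ} (hk : k ∈ Icc (0 : ℝ) 1) (hu : u ∈ Icc (0 : ℝ) d.U) :
    pv2 g k u ≤ pv l u * ((1 + 3 / 5 * k)
      * Real.exp ((u + pv y2 u) / 2 + k * (u - pv y2 u))) := by
  obtain ⟨T, hT, h1⟩ := GDat.at_u U0 h z01 z01 hk hu
  obtain ⟨T2, hT2, h2⟩ := GDat.at_u U0 hv z01 z01 hk hu
  have l0 := nn_list1 (U0 := U0) hl hu
  simp only [val_sub, val_add, val_mul, val_pow, GDat.val_e1, GDat.val_e2, GDat.val_u, val_gW,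
    val_one, val_num, hT] at h1
  simp only [val_sub, val_add, val_mul, GDat.val_e1, GDat.val_u, val_gW, val_num, hT2] at h2
  push_cast at h1 h2
  have e : (u + pv y2 u) / 2 + k * (u - pv y2 u)
      = (k + 1 / 2) * u + (1 / 2 - k) * pv y2 u := by ring
  rw [e]
  set v := (k + 1 / 2) * u + (1 / 2 - k) * pv y2 u with hv
  have h3 : 1 + v + v ^ 2 / 2 + v ^ 3 / 6 + v ^ 4 / 24 ≤ Real.exp v := by
    have := Real.sum_le_exp_of_nonneg h2 5
    simp only [Finset.sum_range_succ, Finset.sum_range_zero, Nat.factorial] at this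
    norm_num at this
    linarith
  have h4 : 0 ≤ pv l u * (1 + 3 / 5 * k) := mul_nonneg l0 (by linarith [hk.1])
  have h5 := mul_le_mul_of_nonneg_left h3 h4
  nlinarith

end Pool.Agent.RX.RCN.K
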