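import Pool.Agent.RX.RCM9.CertGSX
import Pool.Agent.RX.RCN.CertFS
import Pool.Agent.RX.RCN.GexS_2

/-! The facts in two variables of the two-time rows: the worlds `{a, b}` and the star
(MP_73ccd0_lc, route M). -/

set_option autoImplicit false

namespace Pool.Agent.RX.RCN.K

open Set Pool.Agent.RX.RCM9 Pool.Agent.RX.RCM9.Bern Pool.Agent.RX.RCM9.Pk

theorem fS_Gp : fS.Gp = CertGS.Hp := by decide +kernel

theorem fS_Gm : fS.Gm = CertGS.Hm := by decide +kernel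

theorem CertGS_U0 : 0 < CertGS.d.U := by decide +kernel

theorem fS_z (k u : ℝ) : pv fS.z u + k * pv fS.dl u
    = (u + pv CertGS.yb2 u) / 2 + k * (u - pv CertGS.yb2 u) := by
  have e1 : pv fS.z u = (u + pv CertGS.yb2 u) / 2 := by
    unfold fS CertGS.yb2
    simp only [pv]
    push_cast
    ring
  have e2 : pv fS.dl u = u - pv CertGS.yb2 u := by
    unfold fS CertGS.yb2
    simp only [pv]
    push_cast
    ring
  rw [e1, e2]

/-- **the star** -/
theorem fxS {y : Yl} (hU : y.Ug ≤ fS.U) (ez : y.z = fS.z) (ed : y.dl = fS.dl)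
    (e1 : y.FM = fS.FM) (e2 : y.FP = fS.FP) (e3 : y.AM = fS.AM) (e4 : y.AP = fS.AP)
    (ep : y.Gp = CertGS.sHp) (em : y.Gm = CertGS.sHm) :
    y.Fx (pv2 CertGS.Hp) (pv2 CertGS.Hm) := by
  have hd : (fS.U : ℝ) ≤ (CertGS.d.U : ℝ) := by
    have : fS.U ≤ CertGS.d.U := by decide +kernel
    exact_mod_cast this
  have h := FDat.posFS.fx hU ez ed e1 e2 e3 e4 (fun k hk u hu => ?_) (fun k hk u hu => ?_)
  · rwa [fS_Gp, fS_Gm] at h
  · rw [fS_Gp, ep, fS_z]
    exact sc_leS (U0 := CertGS_U0) CertGS.sHp0 CertGS.yv0 CertGS.sHp_le hk ⟨hu.1, hu.2.trans hd⟩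
  · rw [fS_Gm, em, fS_z]
    exact sc_leS (U0 := CertGS_U0) CertGS.sHm0 CertGS.yv0 CertGS.sHm_le hk ⟨hu.1, hu.2.trans hd⟩

end Pool.Agent.RX.RCN.K
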