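import Pool.Agent.RX.RCN.T3X15

/-! The checks of the lists of a group (generated). -/

set_option autoImplicit false

namespace Pool.Agent.RX.RCN.K

open Pool.Agent.RX.RCM9

theorem t3y15_okB : t3y15.okB (10 ^ 15) 128 = true := by decide +kernel

theorem t3y15_okC : t3y15.okC (10 ^ 15) 128 = true := by decide +kernel

end Pool.Agent.RX.RCN.K
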