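import Pool.Agent.RX.RCN.T3X1
import Pool.Agent.RX.RCN.VLd

/-! The checks of the lists of a group (generated). -/

set_option autoImplicit false

namespace Pool.Agent.RX.RCN.K

open Pool.Agent.RX.RCM9

theorem t3z1_ok : t3z1.ok V2L.y1 (10 ^ 30) 8 = true := by decide +kernel

theorem t3j1_ok : t3j1.ok V2L.y1 t3z1 0 0 (t3z1.p1 V2L.y1) t3z1.p2 (10 ^ 30) 8 = true := by decide +kernel

theorem t3i1_ok : t3i1.ok V2L.y1 t3z1 1 0 [] [] (10 ^ 30) 8 = true := by decide +kernel

theorem t3y1_okA : t3y1.okA (10 ^ 15) 16 = true := by decide +kernel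

theorem t3y1_okB : t3y1.okB (10 ^ 15) 16 = true := by decide +kernel

theorem t3y1_okC : t3y1.okC (10 ^ 15) 16 = true := by decide +kernel

end Pool.Agent.RX.RCN.K
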