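import Pool.Agent.RX.RCN.T3X13
import Pool.Agent.RX.RCN.VLd

/-! The checks of the lists of a group (generated). -/

set_option autoImplicit false

namespace Pool.Agent.RX.RCN.K

open Pool.Agent.RX.RCM9

theorem t3z13_ok : t3z13.ok V2L.y13 (10 ^ 30) 8 = true := by decide +kernel

theorem t3j13_ok : t3j13.ok V2L.y13 t3z13 0 0 (t3z13.p1 V2L.y13) t3z13.p2 (10 ^ 30) 8 = true := by decide +kernel

theorem t3i13_ok : t3i13.ok V2L.y13 t3z13 1 0 [] [] (10 ^ 30) 8 = true := by decide +kernel

theorem t3y13_okA : t3y13.okA (10 ^ 15) 128 = true := by decide +kernel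

end Pool.Agent.RX.RCN.K
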