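import Pool.Agent.RX.RCN.T3X14
import Pool.Agent.RX.RCN.VLd

/-! The checks of the lists of a group (generated). -/

set_option autoImplicit false

namespace Pool.Agent.RX.RCN.K

open Pool.Agent.RX.RCM9

theorem t3z14_ok : t3z14.ok V2L.y14 (10 ^ 30) 8 = true := by decide +kernel

theorem t3j14_ok : t3j14.ok V2L.y14 t3z14 0 0 (t3z14.p1 V2L.y14) t3z14.p2 (10 ^ 30) 8 = true := by decide +kernel

theorem t3i14_ok : t3i14.ok V2L.y14 t3z14 1 0 [] [] (10 ^ 30) 8 = true := by decide +kernel

theorem t3y14_okA : t3y14.okA (10 ^ 15) 128 = true := by decide +kernel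

end Pool.Agent.RX.RCN.K
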