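import Pool.Agent.RX.RCN.T3X24
import Pool.Agent.RX.RCN.VLd

/-! The checks of the lists of a group (generated). -/

set_option autoImplicit false

namespace Pool.Agent.RX.RCN.K

open Pool.Agent.RX.RCM9

theorem t3z24_ok : t3z24.ok V2L.y24 (10 ^ 30) 16 = true := by decide +kernel

theorem t3j24_ok : t3j24.ok V2L.y24 t3z24 0 0 (t3z24.p1 V2L.y24) t3z24.p2 (10 ^ 30) 16 = true := by decide +kernel

theorem t3i24_ok : t3i24.ok V2L.y24 t3z24 1 0 [] [] (10 ^ 30) 16 = true := by decide +kernel

theorem t3y24_okA : t3y24.okA (10 ^ 15) 64 = true := by decide +kernel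

theorem t3y24_okB : t3y24.okB (10 ^ 15) 64 = true := by decide +kernel

theorem t3y24_okC : t3y24.okC (10 ^ 15) 64 = true := by decide +kernel

end Pool.Agent.RX.RCN.K
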