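import Pool.Agent.RX.RCN.T3X27
import Pool.Agent.RX.RCN.VLd

/-! The checks of the lists of a group (generated). -/

set_option autoImplicit false

namespace Pool.Agent.RX.RCN.K

open Pool.Agent.RX.RCM9

theorem t3z27_ok : t3z27.ok V2L.y27 (10 ^ 30) 16 = true := by decide +kernel

theorem t3j27_ok : t3j27.ok V2L.y27 t3z27 0 0 (t3z27.p1 V2L.y27) t3z27.p2 (10 ^ 30) 16 = true := by decide +kernel

theorem t3i27_ok : t3i27.ok V2L.y27 t3z27 1 0 [] [] (10 ^ 30) 16 = true := by decide +kernel

theorem t3y27_okA : t3y27.okA (10 ^ 15) 128 = true := by decide +kernel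

end Pool.Agent.RX.RCN.K
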