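import Pool.Agent.RX.RCN.T3X5
import Pool.Agent.RX.RCN.VLd

/-! The checks of the lists of a group (generated). -/

set_option autoImplicit false

namespace Pool.Agent.RX.RCN.K

open Pool.Agent.RX.RCM9

theorem t3z5_ok : t3z5.ok V2L.y5 (10 ^ 30) 8 = true := by decide +kernel

theorem t3j5_ok : t3j5.ok V2L.y5 t3z5 0 0 (t3z5.p1 V2L.y5) t3z5.p2 (10 ^ 30) 8 = true := by decide +kernel

theorem t3i5_ok : t3i5.ok V2L.y5 t3z5 1 0 [] [] (10 ^ 30) 8 = true := by decide +kernel

theorem t3y5_okA : t3y5.okA (10 ^ 15) 16 = true := by decide +kernel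

theorem t3y5_okB : t3y5.okB (10 ^ 15) 16 = true := by decide +kernel

theorem t3y5_okC : t3y5.okC (10 ^ 15) 16 = true := by decide +kernel

end Pool.Agent.RX.RCN.K
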