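import Pool.Agent.RX.RCN.T2D_1

/-! The structures and the polynomial conditions of the cells of the second type
(MP_73ccd0_lc, route M). -/

set_option autoImplicit false

namespace Pool.Agent.RX.RCN.K

open Set Pool.Agent.RX.RCM9 Pool.Agent.RX.RCM9.Bern Pool.Agent.RX.RCM9.Pk

set_option linter.unusedSectionVars false

section

theorem NC.of {K : ℕ} {D : Dim} {e : E} (h : Box K D e []) (h0 : hdr K D e = true) : NC e :=
  fun _ _ _ _ hX hZ hU hT => h.pos4 h0 hX.1 hX.2 hZ.1 hZ.2 hU.1 hU.2 hT.1 hT.2

variable (c : Cel)

end

section

variable (d : Dat) (q : Iq) (c : Cel)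

end

section

variable (c : Cel) (n : Chn)

end

section

variable (c : Cel) (n : Chn)

end

section

end

section

end

section

end

section

end

namespace Xcd

end Xcd

end Pool.Agent.RX.RCN.K
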