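import Pool.Agent.RX.RCM9.DW
import Pool.Agent.RX.RCN.T2D_2

/-! Certificates (generated). -/

set_option autoImplicit false

namespace Pool.Agent.RX.RCN.K

open Set Pool.Agent.RX.RCM9 Pool.Agent.RX.RCM9.Bern Pool.Agent.RX.RCM9.Pk

def qW : Iq where
  bt := 11 / 20
  kc := [500001 / 500000, -1 / 15625, 943 / 200000, 105881 / 1000000, 96767 / 125000, -394161 /
    125000, 791717 / 125000, -861129 / 200000]
  ke := [1000003 / 1000000, -51 / 250000, 8849 / 1000000, 1897 / 1000000, 859129 / 1000000,
    -2220177 / 1000000, 1671893 / 500000, -393743 / 250000]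
  p0 := [12545491 / 12500000, -11472133 / 100000000, -28805283 / 2000000, 7914035899 / 100000000,
    -3095173419 / 12500000, 51325036607 / 100000000, -73269960017 / 100000000, 8936672437 /
    12500000, -43810484667 / 100000000, 12470301011 / 100000000]
  ph := [2190531 / 100000000, 779137329 / 50000000, -2731895287 / 20000000, 6100462551 / 10000000,
    -3017227659 / 2000000, 195940167741 / 100000000, -104671757431 / 100000000, -7829559483 /
    100000000, 2642461933 / 10000000, -19648357129 / 100000000]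
  p1 := [1004459 / 50000000, 366000051 / 25000000, -12788886087 / 100000000, 56847018539 /
    100000000, -27638089601 / 20000000, 169813039829 / 100000000, -6734175009 / 10000000,
    -44317673979 / 100000000, 48807088109 / 100000000, -26024279697 / 100000000]
  q0 := [1003627 / 1000000, -11451021 / 100000000, -1441202101 / 100000000, 3957678619 / 50000000,
    -12431792949 / 50000000, 12953693029 / 25000000, -74571261551 / 100000000, 36784291297 /
    50000000, -22881102507 / 50000000, 6661862731 / 50000000]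
  qh := [43783 / 2000000, 779171787 / 50000000, -6831754651 / 50000000, 2443609873 / 4000000,
    -75988461287 / 50000000, 203128853509 / 100000000, -131771433547 / 100000000, 5149339953 /
    10000000, -43324298393 / 100000000, 7164396407 / 50000000]
  q1 := [5019 / 250000, 732034573 / 50000000, -399778509 / 3125000, 28466334991 / 50000000,
    -69648218731 / 50000000, 35386254337 / 20000000, -47091000719 / 50000000, 2890465937 /
    20000000, -10148004691 / 50000000, 1525201743 / 20000000]

def fW : Fx where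
  al := [10036591 / 10000000, 68807 / 5000000, -68690551 / 5000000, 283195119 / 5000000,
    -112969427 / 1000000, 681593661 / 5000000, -209320839 / 2500000]
  mb := zW.mb

def t3al : List ℚ :=
  [1 / 100000, 214991 / 200000, -1056607 / 1000000, 6814523 / 1000000, -22978887 / 500000,
    144632471 / 1000000, -212570977 / 1000000, 119515567 / 1000000]

def t3GR : List (List ℚ) :=
  [[0, 0, 0, 313489 / 2500000, -79377 / 2500000, 10030369 / 50000000, 7631 / 2400000, 962961
    / 10000000, 1627 / 62500, -228039 / 2500000, 1977443 / 5000000],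
    [0, 0, 0, 3390917 / 10000000, 1776543 / 40000000, -1919019 / 5000000, 25112953 / 60000000,
    441861 / 10000000, 514197 / 2500000, -6311 / 15625, 37733 / 62500],
    [0, 0, 0, -49783 / 750000, 4225639 / 20000000, 8654587 / 50000000, 267659 / 1250000, 2007
    / 2000000, 2573807 / 10000000, -2411827 / 5000000, 5998583 / 10000000]]

def t3HR : List (List ℚ) :=
  [[0, 0, 0, 8163 / 20000, 1601033 / 4000000, 3514913 / 12500000, 31160531 / 60000000,
    18668203 / 2500000, -241485279 / 5000000, 1918079463 / 10000000, -1753193397 / 5000000,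
    2642727003 / 10000000],
    [0, 0, 0, 2501657 / 15000000, 6889843 / 20000000, 5107091 / 25000000, 3210153 / 10000000,
    22383189 / 5000000, -146587441 / 5000000, 591676427 / 5000000, -2192182147 / 10000000,
    1674210157 / 10000000],
    [0, 0, 0, -1 / 5000000, 2241133 / 40000000, 1339657 / 50000000, 2452429 / 7500000, 800363
    / 1250000, -763647 / 125000, 292466433 / 10000000, -58861601 / 1000000, 238107723 / 5000000]]

theorem t3q_p0 : NC (kp dW qW 1 0 qW.p0 (tg qW)) :=
  NC.of (K := 163) (D := ⟨1, 1, 1, 16⟩) (Box.of 291 (by decide +kernel))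
    (by decide +kernel)

theorem t3q_q0 : NC (kq' dW 1 0 qW.q0 (tg qW)) :=
  NC.of (K := 139) (D := ⟨1, 1, 1, 12⟩) (Box.of 1194267 (by decide +kernel))
    (by decide +kernel)

theorem t3f_a0 : NC (kal dW qW fW 1 0 (tg qW)) :=
  NC.of (K := 273) (D := ⟨1, 1, 1, 16⟩) (Box.of 4908238619 (by decide +kernel))
    (by decide +kernel)

theorem t3q_ph : NC (kp dW qW (1 / 2) (1 / 2) qW.ph (tg qW)) :=
  NC.of (K := 221) (D := ⟨1, 1, 1, 16⟩) (Box.of 76429595 (by decide +kernel))
    (by decide +kernel)

theorem t3q_qh : NC (kq' dW (1 / 2) (1 / 2) qW.qh (tg qW)) :=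
  NC.of (K := 142) (D := ⟨1, 1, 1, 12⟩) (Box.of 1194267 (by decide +kernel))
    (by decide +kernel)

theorem t3f_ah : NC (kal dW qW fW (1 / 2) (1 / 2) (tg qW)) :=
  NC.of (K := 303) (D := ⟨1, 1, 1, 16⟩) (Box.of 82311883831232227 (by decide +kernel))
    (by decide +kernel)

theorem t3q_p1 : NC (kp dW qW 0 (1 / 2) qW.p1 (tg qW)) :=
  NC.of (K := 194) (D := ⟨1, 1, 1, 16⟩) (Box.of 1194267 (by decide +kernel))
    (by decide +kernel)

theorem t3q_q1 : NC (kq' dW 0 (1 / 2) qW.q1 (tg qW)) :=
  NC.of (K := 140) (D := ⟨1, 1, 1, 12⟩) (Box.of 1194267 (by decide +kernel))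
    (by decide +kernel)

theorem t3f_a1 : NC (kal dW qW fW 0 (1 / 2) (tg qW)) :=
  NC.of (K := 192) (D := ⟨1, 1, 1, 16⟩) (Box.of 18659 (by decide +kernel))
    (by decide +kernel)

theorem t3q_kc0 : NC (pe qW.kc (tg qW)) :=
  NC.of (K := 60) (D := ⟨1, 1, 1, 8⟩) (Box.of 4 (by decide +kernel))
    (by decide +kernel)

theorem t3q_ke0 : NC (pe qW.ke (tg qW)) :=
  NC.of (K := 60) (D := ⟨1, 1, 1, 8⟩) (Box.of 4 (by decide +kernel))
    (by decide +kernel)

theorem t3f_ke1 : NC (pe qW.ke (tg qW) - 1) :=
  NC.of (K := 103) (D := ⟨1, 1, 1, 8⟩) (Box.of 1198299 (by decide +kernel))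
    (by decide +kernel)

theorem t3f_aq : NC (kaq qW fW (tg qW)) :=
  NC.of (K := 75) (D := ⟨1, 1, 1, 9⟩) (Box.of 4 (by decide +kernel))
    (by decide +kernel)

theorem t3f_mb0 : NC (pe fW.mb (tg qW)) :=
  NC.of (K := 82) (D := ⟨1, 1, 1, 9⟩) (Box.of 4 (by decide +kernel))
    (by decide +kernel)

theorem t3z_l : NC (eWl zW) :=
  NC.of (K := 127) (D := ⟨4, 10, 1, 11⟩) (Box.of 4 (by decide +kernel))
    (by decide +kernel)

theorem t3z_h : NC (eWh zW) :=
  NC.of (K := 126) (D := ⟨4, 10, 1, 11⟩) (Box.of 4 (by decide +kernel))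
    (by decide +kernel)

theorem t3q_ok : qW.Ok dW where
  kc0 := t3q_kc0
  ke0 := t3q_ke0
  p0 := t3q_p0
  ph := t3q_ph
  p1 := t3q_p1
  q0 := t3q_q0
  qh := t3q_qh
  q1 := t3q_q1

theorem t3f_ok : fW.Ok dW qW where
  ke1 := t3f_ke1
  a0 := t3f_a0
  ah := t3f_ah
  a1 := t3f_a1
  aq := t3f_aq
  mb0 := t3f_mb0

theorem t3z_ok : Wz zW where
  l := t3z_l
  h := t3z_h

end Pool.Agent.RX.RCN.K
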