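import Pool.Agent.RX.RCN.T3D
import Pool.Agent.RX.RCN.T3Wq
import Pool.Agent.RX.RCN.T3X0
import Pool.Agent.RX.RCN.VLd

/-! Certificates (generated). -/

set_option autoImplicit false

namespace Pool.Agent.RX.RCN.K

open Set Pool.Agent.RX.RCM9 Pool.Agent.RX.RCM9.Bern Pool.Agent.RX.RCM9.Pk Xce

def t3c0 : Cel where
  t0 := 0
  t1 := 1 / 20
  C := 4097 / 4096
  th := 103 / 2048
  B0 := 137 / 128
  Bh := 1191 / 2048
  B1 := 1119 / 2048
  D0 := 203 / 4096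
  Dh := 65 / 4096
  D1 := 61 / 4096
  E0 := 5 / 2097152
  Eh := 3 / 2097152
  E1 := 3 / 2097152
  Q0 := 1099 / 1024
  Q1 := 1099 / 1024
  Q2 := 1099 / 1024
  Ac := 1099 / 1024
  gI := 1099 / 1024
  J := 3 / 1048576

def t3n0 : Chn where
  lb := 513 / 512
  nb := 263 / 1024
  Mb := 1029 / 1024
  b2 := 1029 / 1024
  Yb := 1 / 4096
  E2 := 4099 / 4096
  e1 := 1057 / 1024
  Z1 := 69 / 64
  Z2 := 35 / 64
  KB := 1029 / 1024
  cb := 1025 / 1024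
  rb := 25 / 512
  om := 263 / 256
  fb := 129 / 128
  kap := 2049 / 2048
  ab := 1029 / 1024

def t3e0 : Xge where
  lm := 3 / 5
  dl := 103 / 2048
  e2 := 11 / 8192
  eY := 4097 / 4096
  gE := 1099 / 1024

def t3r0 : Xr where
  d1 := [83 / 1250000, 260471 / 100000000, 1393403 / 100000000, 385279 / 10000000, 1869033 /
    25000000, 6914333 / 100000000, -2322201 / 20000000]
  d2 := [4243 / 100000000, 47293 / 5000000, 11308309 / 100000000, -73740743 / 10000000, 7018597813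
    / 25000000, -247433165013 / 50000000, 3279606047589 / 100000000]
  dy := [17339 / 100000000, 336869 / 20000000, 2641751 / 10000000, -446418917 / 25000000,
    16969698251 / 25000000, -298629441133 / 25000000, 1976936131027 / 25000000]
  t1 := [165851 / 100000000, -10052591 / 100000000, 1337479393 / 100000000, -129734185151 /
    100000000, 556741414939 / 10000000, -25841172911031 / 25000000, 174476988702711 / 25000000]
  t2 := [3603 / 50000000, 403129 / 100000000, 2359769 / 6250000, -168855359 / 100000000,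
    -922085219 / 2000000, 268961914223 / 20000000, -11210466557273 / 100000000]
  ty := [358581 / 100000000, -19359271 / 100000000, 2565842907 / 100000000, -254210528341 /
    100000000, 5551525879281 / 50000000, -104173350895281 / 50000000, 1416874409389379 /
    100000000]
  hz := [3567 / 2500000, 465267 / 10000000, -1002637459 / 50000000, 56185551709 / 50000000,
    -2378537175253 / 100000000, 17516970317241 / 100000000, 722853693 / 50000000]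
  om := [1003967 / 1000000, 6377703 / 6250000, -1370439069 / 100000000, 5074716773 / 100000000,
    -3740069091 / 50000000, -1259030609 / 12500000, 22962239829 / 25000000, -39971503927 /
    20000000, 44773800849 / 100000000]
  sD := 9 / 8
  sT := 321 / 256
  xi := [14851 / 100000000, 1959981 / 100000000, 10107383 / 100000000, -715321431 / 50000000,
    -2699178657 / 10000000, 5087748081589 / 100000000, -67253079740023 / 50000000,
    1077284308372839 / 100000000, 26848463052101 / 12500000, -290123425334643 / 10000000]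

def t3f0 : Dl where
  Ca := 0
  Cv := 50157 / 1000000
  k1 := 4996147 / 5000000
  ks := 62423 / 62500
  dd := 0
  kp := 869 / 10000000
  e := [9999997 / 10000000, -258506764799 / 250000000000, 175991632599 / 200000000000,
    -156816062567 / 250000000000, 221481544599 / 500000000000, -302403658093 / 1000000000000,
    12361531137 / 62500000000, -124034337709 / 1000000000000, 2502703741 / 40000000000]
  j1 := [-3694531 / 1000000000, -778825171 / 62500000, 53538154889 / 500000000, -54450773321 /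
    125000000, 1016507504427 / 1000000000, -141592511013 / 100000000, 79322853901 / 62500000,
    -857811241393 / 1000000000]
  nu := [1230741 / 1000000000, -62669 / 2000000, 436986861 / 1000000000, 49823367 / 500000000,
    2176023 / 50000000, -108159329 / 1000000000, -6974058543 / 1000000000]
  k2 := [124846227 / 125000000, 31295959 / 1000000000, -108989769 / 250000000, -113192357 /
    1000000000, 24212679 / 500000000, 78216687 / 500000000, 1737779829 / 250000000]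
  dR := [35597 / 25000000, 1159211 / 25000000, -1992638943 / 100000000, 22263406441 / 20000000,
    -2348905373979 / 100000000, 53890771429 / 312500]

def t3d0 : Xce where
  u0 := 1 / 2000
  u1 := 50157 / 1000000
  l := V2L.y0
  y := t3z0
  j := t3j0
  i := t3i0
  ls := t3y0
  k := V2L.k0
  c := t3f0
  ga := 33 / 500000
  gb := -3 / 62500
  hb := 1 / 12500
  gs := [160001727 / 100000000, 12 / 5, 9 / 5, 79599997 / 100000000, 26587679 / 100000000,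
    -11705931 / 100000000, -1720729 / 25000000]
  d1 := [3313 / 50000000, 64923 / 25000000, 690813 / 50000000, 3892917 / 100000000, 1714433 /
    25000000, 6743713 / 100000000, -278383 / 12500000]
  d2 := [4211 / 100000000, 943033 / 100000000, 5612981 / 50000000, -365110653 / 50000000,
    27723961983 / 100000000, -487218541501 / 100000000, 3218962529399 / 100000000]
  dy := [8639 / 50000000, 1679313 / 100000000, 3278981 / 12500000, -1768502781 / 100000000,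
    33517065873 / 50000000, -235214049949 / 20000000, 7761542608603 / 100000000]
  t1 := [82877 / 50000000, -5011269 / 50000000, 166169767 / 12500000, -8033563337 / 6250000,
    5498663637441 / 100000000, -50884188065573 / 50000000, 684982555072539 / 100000000]
  t2 := [287 / 4000000, 200981 / 50000000, 37514913 / 100000000, -167310231 / 100000000,
    -45524553513 / 100000000, 661920966383 / 50000000, -11001683248163 / 100000000]
  ty := [22397 / 6250000, -1206349 / 6250000, 637575673 / 25000000, -251867118727 / 100000000,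
    5483005852403 / 50000000, -205130071303983 / 100000000, 43457475228923 / 3125000]

def t3m0 : ℚ := 109 / 2048

def t3h0 : ℚ := 57 / 500

theorem t3k0_M_r1 : NC (fM t3c0 (1 - eh) eh ek (elo t3c0.B0 t3c0.Bh eh) (elo t3c0.D0 t3c0.Dh ek) (elo t3c0.E0 t3c0.Eh ek)) :=
  NC.of (K := 31) (D := ⟨4, 3, 1, 1⟩) (Box.of 4 (by decide +kernel))
    (by decide +kernel)

theorem t3k0_M_r2 : NC (fM t3c0 eh (1 - eh) ek (ehi t3c0.Bh t3c0.B1 (1 - eh)) (elo t3c0.D0 t3c0.Dh ek) (elo t3c0.E0 t3c0.Eh ek)) :=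
  NC.of (K := 31) (D := ⟨4, 3, 1, 1⟩) (Box.of 4 (by decide +kernel))
    (by decide +kernel)

theorem t3k0_M_r3 : NC (fM t3c0 (1 - eh) ek eh (elo t3c0.B0 t3c0.Bh ek) (elo t3c0.D0 t3c0.Dh eh) (elo t3c0.E0 t3c0.Eh eh)) :=
  NC.of (K := 29) (D := ⟨4, 2, 1, 1⟩) (Box.of 4 (by decide +kernel))
    (by decide +kernel)

theorem t3k0_M_r4 : NC (fM t3c0 eh ek (1 - eh) (elo t3c0.B0 t3c0.Bh ek) (ehi t3c0.Dh t3c0.D1 (1 - eh)) (ehi t3c0.Eh t3c0.E1 (1 - eh))) :=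
  NC.of (K := 29) (D := ⟨4, 2, 1, 1⟩) (Box.of 4 (by decide +kernel))
    (by decide +kernel)

theorem t3k0_r0_r1 : NC (f0 t3c0 (1 - eh) eh ek (elo t3c0.B0 t3c0.Bh eh) (elo t3c0.D0 t3c0.Dh ek) (elo t3c0.E0 t3c0.Eh ek)) :=
  NC.of (K := 125) (D := ⟨13, 9, 1, 1⟩) (Box.of 4 (by decide +kernel))
    (by decide +kernel)

theorem t3k0_r0_r2 : NC (f0 t3c0 eh (1 - eh) ek (ehi t3c0.Bh t3c0.B1 (1 - eh)) (elo t3c0.D0 t3c0.Dh ek) (elo t3c0.E0 t3c0.Eh ek)) :=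
  NC.of (K := 124) (D := ⟨13, 9, 1, 1⟩) (Box.of 4 (by decide +kernel))
    (by decide +kernel)

theorem t3k0_r0_r3 : NC (f0 t3c0 (1 - eh) ek eh (elo t3c0.B0 t3c0.Bh ek) (elo t3c0.D0 t3c0.Dh eh) (elo t3c0.E0 t3c0.Eh eh)) :=
  NC.of (K := 120) (D := ⟨13, 5, 1, 1⟩) (Box.of 4 (by decide +kernel))
    (by decide +kernel)

theorem t3k0_r0_r4 : NC (f0 t3c0 eh ek (1 - eh) (elo t3c0.B0 t3c0.Bh ek) (ehi t3c0.Dh t3c0.D1 (1 - eh)) (ehi t3c0.Eh t3c0.E1 (1 - eh))) :=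
  NC.of (K := 121) (D := ⟨13, 5, 1, 1⟩) (Box.of 4 (by decide +kernel))
    (by decide +kernel)

theorem t3k0_r1_r1 : NC (f1 t3c0 (1 - eh) eh ek (elo t3c0.B0 t3c0.Bh eh) (elo t3c0.D0 t3c0.Dh ek) (elo t3c0.E0 t3c0.Eh ek)) :=
  NC.of (K := 206) (D := ⟨16, 9, 1, 1⟩) (Box.of 4 (by decide +kernel))
    (by decide +kernel)

theorem t3k0_r1_r2 : NC (f1 t3c0 eh (1 - eh) ek (ehi t3c0.Bh t3c0.B1 (1 - eh)) (elo t3c0.D0 t3c0.Dh ek) (elo t3c0.E0 t3c0.Eh ek)) :=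
  NC.of (K := 203) (D := ⟨16, 9, 1, 1⟩) (Box.of 4 (by decide +kernel))
    (by decide +kernel)

theorem t3k0_r1_r3 : NC (f1 t3c0 (1 - eh) ek eh (elo t3c0.B0 t3c0.Bh ek) (elo t3c0.D0 t3c0.Dh eh) (elo t3c0.E0 t3c0.Eh eh)) :=
  NC.of (K := 210) (D := ⟨16, 12, 1, 1⟩) (Box.of 4 (by decide +kernel))
    (by decide +kernel)

theorem t3k0_r1_r4 : NC (f1 t3c0 eh ek (1 - eh) (elo t3c0.B0 t3c0.Bh ek) (ehi t3c0.Dh t3c0.D1 (1 - eh)) (ehi t3c0.Eh t3c0.E1 (1 - eh))) :=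
  NC.of (K := 211) (D := ⟨16, 12, 1, 1⟩) (Box.of 4 (by decide +kernel))
    (by decide +kernel)

theorem t3k0_r2_r1 : NC (f2 t3c0 (1 - eh) eh ek (elo t3c0.B0 t3c0.Bh eh) (elo t3c0.D0 t3c0.Dh ek) (elo t3c0.E0 t3c0.Eh ek)) :=
  NC.of (K := 209) (D := ⟨16, 11, 1, 1⟩) (Box.of 4 (by decide +kernel))
    (by decide +kernel)

theorem t3k0_r2_r2 : NC (f2 t3c0 eh (1 - eh) ek (ehi t3c0.Bh t3c0.B1 (1 - eh)) (elo t3c0.D0 t3c0.Dh ek) (elo t3c0.E0 t3c0.Eh ek)) :=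
  NC.of (K := 206) (D := ⟨16, 11, 1, 1⟩) (Box.of 4 (by decide +kernel))
    (by decide +kernel)

theorem t3k0_r2_r3 : NC (f2 t3c0 (1 - eh) ek eh (elo t3c0.B0 t3c0.Bh ek) (elo t3c0.D0 t3c0.Dh eh) (elo t3c0.E0 t3c0.Eh eh)) :=
  NC.of (K := 210) (D := ⟨16, 12, 1, 1⟩) (Box.of 4 (by decide +kernel))
    (by decide +kernel)

theorem t3k0_r2_r4 : NC (f2 t3c0 eh ek (1 - eh) (elo t3c0.B0 t3c0.Bh ek) (ehi t3c0.Dh t3c0.D1 (1 - eh)) (ehi t3c0.Eh t3c0.E1 (1 - eh))) :=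
  NC.of (K := 211) (D := ⟨16, 12, 1, 1⟩) (Box.of 4 (by decide +kernel))
    (by decide +kernel)

theorem t3k0_rc_r1 : NC (fc t3c0 (1 - eh) eh ek (elo t3c0.B0 t3c0.Bh eh) (elo t3c0.D0 t3c0.Dh ek) (elo t3c0.E0 t3c0.Eh ek)) :=
  NC.of (K := 124) (D := ⟨13, 9, 1, 1⟩) (Box.of 4 (by decide +kernel))
    (by decide +kernel)

theorem t3k0_rc_r2 : NC (fc t3c0 eh (1 - eh) ek (ehi t3c0.Bh t3c0.B1 (1 - eh)) (elo t3c0.D0 t3c0.Dh ek) (elo t3c0.E0 t3c0.Eh ek)) :=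
  NC.of (K := 123) (D := ⟨13, 9, 1, 1⟩) (Box.of 4 (by decide +kernel))
    (by decide +kernel)

theorem t3k0_rc_r3 : NC (fc t3c0 (1 - eh) ek eh (elo t3c0.B0 t3c0.Bh ek) (elo t3c0.D0 t3c0.Dh eh) (elo t3c0.E0 t3c0.Eh eh)) :=
  NC.of (K := 120) (D := ⟨13, 5, 1, 1⟩) (Box.of 4 (by decide +kernel))
    (by decide +kernel)

theorem t3k0_rc_r4 : NC (fc t3c0 eh ek (1 - eh) (elo t3c0.B0 t3c0.Bh ek) (ehi t3c0.Dh t3c0.D1 (1 - eh)) (ehi t3c0.Eh t3c0.E1 (1 - eh))) :=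
  NC.of (K := 121) (D := ⟨13, 5, 1, 1⟩) (Box.of 4 (by decide +kernel))
    (by decide +kernel)

theorem t3k0_rI_r1 : NC (fI t3c0 (1 - eh) eh ek (elo t3c0.B0 t3c0.Bh eh) (elo t3c0.D0 t3c0.Dh ek) (elo t3c0.E0 t3c0.Eh ek)) :=
  NC.of (K := 125) (D := ⟨13, 9, 1, 1⟩) (Box.of 4 (by decide +kernel))
    (by decide +kernel)

theorem t3k0_rI_r2 : NC (fI t3c0 eh (1 - eh) ek (ehi t3c0.Bh t3c0.B1 (1 - eh)) (elo t3c0.D0 t3c0.Dh ek) (elo t3c0.E0 t3c0.Eh ek)) :=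
  NC.of (K := 124) (D := ⟨13, 9, 1, 1⟩) (Box.of 4 (by decide +kernel))
    (by decide +kernel)

theorem t3k0_rI_r3 : NC (fI t3c0 (1 - eh) ek eh (elo t3c0.B0 t3c0.Bh ek) (elo t3c0.D0 t3c0.Dh eh) (elo t3c0.E0 t3c0.Eh eh)) :=
  NC.of (K := 120) (D := ⟨13, 5, 1, 1⟩) (Box.of 4 (by decide +kernel))
    (by decide +kernel)

theorem t3k0_rI_r4 : NC (fI t3c0 eh ek (1 - eh) (elo t3c0.B0 t3c0.Bh ek) (ehi t3c0.Dh t3c0.D1 (1 - eh)) (ehi t3c0.Eh t3c0.E1 (1 - eh))) :=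
  NC.of (K := 121) (D := ⟨13, 5, 1, 1⟩) (Box.of 4 (by decide +kernel))
    (by decide +kernel)

theorem t3k0_rJ_r1 : NC (fJ t3c0 (1 - eh) eh ek (elo t3c0.B0 t3c0.Bh eh) (elo t3c0.D0 t3c0.Dh ek) (elo t3c0.E0 t3c0.Eh ek)) :=
  NC.of (K := 56) (D := ⟨7, 5, 1, 1⟩) (Box.of 4 (by decide +kernel))
    (by decide +kernel)

theorem t3k0_rJ_r2 : NC (fJ t3c0 eh (1 - eh) ek (ehi t3c0.Bh t3c0.B1 (1 - eh)) (elo t3c0.D0 t3c0.Dh ek) (elo t3c0.E0 t3c0.Eh ek)) :=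
  NC.of (K := 56) (D := ⟨7, 5, 1, 1⟩) (Box.of 4 (by decide +kernel))
    (by decide +kernel)

theorem t3k0_rJ_r3 : NC (fJ t3c0 (1 - eh) ek eh (elo t3c0.B0 t3c0.Bh ek) (elo t3c0.D0 t3c0.Dh eh) (elo t3c0.E0 t3c0.Eh eh)) :=
  NC.of (K := 54) (D := ⟨7, 3, 1, 1⟩) (Box.of 4 (by decide +kernel))
    (by decide +kernel)

theorem t3k0_rJ_r4 : NC (fJ t3c0 eh ek (1 - eh) (elo t3c0.B0 t3c0.Bh ek) (ehi t3c0.Dh t3c0.D1 (1 - eh)) (ehi t3c0.Eh t3c0.E1 (1 - eh))) :=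
  NC.of (K := 53) (D := ⟨7, 3, 1, 1⟩) (Box.of 4 (by decide +kernel))
    (by decide +kernel)

theorem t3k0_gE_r1 : NC (fE t3c0 t3e0 (1 - eh) eh ek (elo t3c0.B0 t3c0.Bh eh) (elo t3c0.D0 t3c0.Dh ek) (elo t3c0.E0 t3c0.Eh ek)) :=
  NC.of (K := 125) (D := ⟨13, 9, 1, 1⟩) (Box.of 4 (by decide +kernel))
    (by decide +kernel)

theorem t3k0_gE_r2 : NC (fE t3c0 t3e0 eh (1 - eh) ek (ehi t3c0.Bh t3c0.B1 (1 - eh)) (elo t3c0.D0 t3c0.Dh ek) (elo t3c0.E0 t3c0.Eh ek)) :=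
  NC.of (K := 124) (D := ⟨13, 9, 1, 1⟩) (Box.of 4 (by decide +kernel))
    (by decide +kernel)

theorem t3k0_gE_r3 : NC (fE t3c0 t3e0 (1 - eh) ek eh (elo t3c0.B0 t3c0.Bh ek) (elo t3c0.D0 t3c0.Dh eh) (elo t3c0.E0 t3c0.Eh eh)) :=
  NC.of (K := 123) (D := ⟨13, 7, 1, 1⟩) (Box.of 4 (by decide +kernel))
    (by decide +kernel)

theorem t3k0_gE_r4 : NC (fE t3c0 t3e0 eh ek (1 - eh) (elo t3c0.B0 t3c0.Bh ek) (ehi t3c0.Dh t3c0.D1 (1 - eh)) (ehi t3c0.Eh t3c0.E1 (1 - eh))) :=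
  NC.of (K := 125) (D := ⟨13, 7, 1, 1⟩) (Box.of 4 (by decide +kernel))
    (by decide +kernel)

theorem t3k0_B0 : NC (kB dW 1 0 t3c0.B0 (tcl t3c0)) :=
  NC.of (K := 73) (D := ⟨1, 1, 1, 9⟩) (Box.of 4 (by decide +kernel))
    (by decide +kernel)

theorem t3k0_E0 : NC (kE dW qW qW.p0 qW.q0 t3c0.E0 (tcl t3c0)) :=
  NC.of (K := 159) (D := ⟨1, 1, 1, 19⟩) (Box.of 4 (by decide +kernel))
    (by decide +kernel)

theorem t3k0_D0 : NC (kD dW qW 1 0 qW.p0 qW.q0 t3c0.D0 (tcl t3c0)) :=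
  NC.of (K := 273) (D := ⟨1, 1, 1, 20⟩) (Box.of 4 (by decide +kernel))
    (by decide +kernel)

theorem t3k0_Bh : NC (kB dW (1 / 2) (1 / 2) t3c0.Bh (tcl t3c0)) :=
  NC.of (K := 74) (D := ⟨1, 1, 1, 9⟩) (Box.of 4 (by decide +kernel))
    (by decide +kernel)

theorem t3k0_Eh : NC (kE dW qW qW.ph qW.qh t3c0.Eh (tcl t3c0)) :=
  NC.of (K := 160) (D := ⟨1, 1, 1, 19⟩) (Box.of 4 (by decide +kernel))
    (by decide +kernel)

theorem t3k0_Dh : NC (kD dW qW (1 / 2) (1 / 2) qW.ph qW.qh t3c0.Dh (tcl t3c0)) :=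
  NC.of (K := 275) (D := ⟨1, 1, 1, 20⟩) (Box.of 4 (by decide +kernel))
    (by decide +kernel)

theorem t3k0_B1 : NC (kB dW 0 (1 / 2) t3c0.B1 (tcl t3c0)) :=
  NC.of (K := 74) (D := ⟨1, 1, 1, 9⟩) (Box.of 4 (by decide +kernel))
    (by decide +kernel)

theorem t3k0_E1 : NC (kE dW qW qW.p1 qW.q1 t3c0.E1 (tcl t3c0)) :=
  NC.of (K := 160) (D := ⟨1, 1, 1, 19⟩) (Box.of 4 (by decide +kernel))
    (by decide +kernel)

theorem t3k0_D1 : NC (kD dW qW 0 (1 / 2) qW.p1 qW.q1 t3c0.D1 (tcl t3c0)) :=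
  NC.of (K := 275) (D := ⟨1, 1, 1, 20⟩) (Box.of 4 (by decide +kernel))
    (by decide +kernel)

theorem t3k0_l : NC (qc t3n0.lb - (1 - vX) * pe (exl t3c0.th) vX ^ 2) :=
  NC.of (K := 117) (D := ⟨10, 1, 1, 1⟩) (Box.of 4 (by decide +kernel))
    (by decide +kernel)

theorem t3k0_n : NC (qc t3n0.nb - vX * (1 - vX) * pe (exl t3c0.th) vX) :=
  NC.of (K := 99) (D := ⟨7, 1, 1, 1⟩) (Box.of 1196064 (by decide +kernel))
    (by decide +kernel)

theorem t3k0_rb : NC (krb t3n0 fW (t1v t3c0)) :=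
  NC.of (K := 140) (D := ⟨1, 1, 1, 16⟩) (Box.of 4 (by decide +kernel))
    (by decide +kernel)

theorem t3k0_kap : NC (kkap dW qW t3n0 (tcl t3c0)) :=
  NC.of (K := 75) (D := ⟨1, 1, 1, 9⟩) (Box.of 4 (by decide +kernel))
    (by decide +kernel)

theorem t3k0_wb2 : NC (qc t3n0.b2 - pe2 kW.QB (vZ * t1v t3c0) (t1v t3c0)) :=
  NC.of (K := 93) (D := ⟨1, 6, 1, 11⟩) (Box.of 4 (by decide +kernel))
    (by decide +kernel)

theorem t3k0_wmb : NC (qc t3n0.Mb - pe zW.mb (t1v t3c0)) :=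
  NC.of (K := 75) (D := ⟨1, 1, 1, 9⟩) (Box.of 4 (by decide +kernel))
    (by decide +kernel)

theorem t3k0_wth : NC (qc (t3c0.th / t3c0.t1) - pe2 zW.Qt (vZ * t1v t3c0) (t1v t3c0)) :=
  NC.of (K := 91) (D := ⟨1, 6, 1, 11⟩) (Box.of 4 (by decide +kernel))
    (by decide +kernel)

theorem t3k0_wyb : NC (qc t3n0.Yb - (t1v t3c0 - vZ * t1v t3c0) ^ 3 * pe2 yW.QY (vZ * t1v t3c0) (t1v t3c0)) :=
  NC.of (K := 89) (D := ⟨1, 8, 1, 12⟩) (Box.of 4 (by decide +kernel))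
    (by decide +kernel)

theorem t3k0_wmu : NC (qc t3m0 - pe t3al (tcl t3c0) * (1 + hlf * tcl t3c0)) :=
  NC.of (K := 65) (D := ⟨1, 1, 1, 9⟩) (Box.of 4 (by decide +kernel))
    (by decide +kernel)

theorem t3k0_wcj : NC (qc t3c0.C * ((6 - 3 * vX) * (1 - qc t3m0 * vX)) - (6 - 6 * vX + vX ^ 2)) :=
  NC.of (K := 33) (D := ⟨3, 1, 1, 1⟩) (Box.of 4 (by decide +kernel))
    (by decide +kernel)

theorem t3k0_nd1 : NC (pe t3r0.d1 (t1v t3c0)) :=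
  NC.of (K := 48) (D := ⟨1, 1, 1, 7⟩) (Box.of 4 (by decide +kernel))
    (by decide +kernel)

theorem t3k0_nd2 : NC (pe t3r0.d2 (t1v t3c0)) :=
  NC.of (K := 55) (D := ⟨1, 1, 1, 7⟩) (Box.of 4 (by decide +kernel))
    (by decide +kernel)

theorem t3k0_ndy : NC (pe t3r0.dy (t1v t3c0)) :=
  NC.of (K := 55) (D := ⟨1, 1, 1, 7⟩) (Box.of 4 (by decide +kernel))
    (by decide +kernel)

theorem t3k0_nt1 : NC (pe t3r0.t1 (t1v t3c0)) :=
  NC.of (K := 73) (D := ⟨1, 1, 1, 7⟩) (Box.of 291 (by decide +kernel))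
    (by decide +kernel)

theorem t3k0_nt2 : NC (pe t3r0.t2 (t1v t3c0)) :=
  NC.of (K := 56) (D := ⟨1, 1, 1, 7⟩) (Box.of 4 (by decide +kernel))
    (by decide +kernel)

theorem t3k0_nty : NC (pe t3r0.ty (t1v t3c0)) :=
  NC.of (K := 76) (D := ⟨1, 1, 1, 7⟩) (Box.of 291 (by decide +kernel))
    (by decide +kernel)

theorem t3k0_nhz : NC (pe t3r0.hz (t1v t3c0)) :=
  NC.of (K := 85) (D := ⟨1, 1, 1, 7⟩) (Box.of 18659 (by decide +kernel))
    (by decide +kernel)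

theorem t3k0_xi : NC (eXi fW t3c0 t3e0 t3r0 (t1v t3c0)) :=
  NC.of (K := 238) (D := ⟨1, 1, 1, 22⟩) (Box.of 4 (by decide +kernel))
    (by decide +kernel)

theorem t3k0_om : NC (eOm fW t3r0 (t1v t3c0)) :=
  NC.of (K := 136) (D := ⟨1, 1, 1, 16⟩) (Box.of 4 (by decide +kernel))
    (by decide +kernel)

theorem t3k0_fin : NC (eFin dW t3c0 t3n0 t3r0 t3h0 (tcl t3c0)) :=
  NC.of (K := 172) (D := ⟨1, 1, 1, 14⟩) (Box.of 4 (by decide +kernel))
    (by decide +kernel)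

theorem t3k0_xdl : NC (qc t3e0.dl - pe t3d0.l.dl t3d0.eU) :=
  NC.of (K := 70) (D := ⟨1, 4, 1, 1⟩) (Box.of 4 (by decide +kernel))
    (by decide +kernel)

theorem t3k0_xeY : NC (qc t3e0.eY - pe (e4l t3d0.l.z) t3d0.eU) :=
  NC.of (K := 288) (D := ⟨1, 13, 1, 1⟩) (Box.of 4 (by decide +kernel))
    (by decide +kernel)

theorem t3k0_xgr : NC (qc t3d0.ga * ((1 + qc (3 / 5) * vX) * (1 + (t3d0.eg + hlf * t3d0.eg ^ 2))) + qc t3d0.gb - pe2 t3GR vX t3d0.eU) :=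
  NC.of (K := 232) (D := ⟨4, 11, 1, 1⟩) (Box.of 4 (by decide +kernel))
    (by decide +kernel)

theorem t3k0_xhr : NC (qc t3d0.hb - pe2 t3HR vX t3d0.eU) :=
  NC.of (K := 251) (D := ⟨3, 12, 1, 1⟩) (Box.of 4 (by decide +kernel))
    (by decide +kernel)

theorem t3k0_xgs : NC (pe t3d0.gs t3d0.e1 - qc (8 / 5) * pe (e4l (ladd t3d0.ls.z t3d0.ls.dl)) t3d0.e1) :=
  NC.of (K := 295) (D := ⟨1, 1, 1, 13⟩) (Box.of 4 (by decide +kernel))
    (by decide +kernel)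

theorem t3k0_xd1 : NC (pe t3d0.d1 t3d0.e1 - t3d0.eA t3d0.eU t3d0.e1) :=
  NC.of (K := 275) (D := ⟨1, 12, 1, 12⟩) (Box.of 4 (by decide +kernel))
    (by decide +kernel)

theorem t3k0_xd2 : NC (pe t3d0.d2 t3d0.e1 - t3d0.eB t3d0.eU t3d0.e1) :=
  NC.of (K := 302) (D := ⟨1, 12, 1, 12⟩) (Box.of 291 (by decide +kernel))
    (by decide +kernel)

theorem t3k0_xt1 : NC (pe t3d0.t1 t3d0.e1 - t3d0.eAT t3d0.eU t3d0.e1) :=
  NC.of (K := 598) (D := ⟨1, 19, 1, 19⟩) (Box.of 82065653354350299 (by decide +kernel))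
    (by decide +kernel)

theorem t3k0_xt2 : NC (pe t3d0.t2 t3d0.e1 - t3d0.eBT t3d0.eU t3d0.e1) :=
  NC.of (K := 527) (D := ⟨1, 19, 1, 19⟩) (Box.of 18715 (by decide +kernel))
    (by decide +kernel)

theorem t3k0_xdy : NC (pe t3d0.dy t3d0.e1 - t3d0.eSD t3d0.eU t3d0.e1) :=
  NC.of (K := 452) (D := ⟨1, 18, 1, 12⟩) (Box.of 291 (by decide +kernel))
    (by decide +kernel)

theorem t3k0_xty : NC (pe t3d0.ty t3d0.e1 - t3d0.eST t3d0.eU t3d0.e1) :=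
  NC.of (K := 825) (D := ⟨1, 26, 1, 26⟩) (Box.of 1282275833661659 (by decide +kernel))
    (by decide +kernel)

theorem t3k0_xd1s : NC (pe t3r0.d1 (t1v t3c0) - pe t3d0.d1 (Xcd.ew zW t3c0)) :=
  NC.of (K := 499) (D := ⟨1, 1, 1, 55⟩) (Box.of 4 (by decide +kernel))
    (by decide +kernel)

theorem t3k0_xd2s : NC (pe t3r0.d2 (t1v t3c0) - pe t3d0.d2 (Xcd.ew zW t3c0)) :=
  NC.of (K := 507) (D := ⟨1, 1, 1, 55⟩) (Box.of 4 (by decide +kernel))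
    (by decide +kernel)

theorem t3k0_xt1s : NC (pe t3r0.t1 (t1v t3c0) - pe t3d0.t1 (Xcd.ew zW t3c0)) :=
  NC.of (K := 514) (D := ⟨1, 1, 1, 55⟩) (Box.of 4 (by decide +kernel))
    (by decide +kernel)

theorem t3k0_xt2s : NC (pe t3r0.t2 (t1v t3c0) - pe t3d0.t2 (Xcd.ew zW t3c0)) :=
  NC.of (K := 507) (D := ⟨1, 1, 1, 55⟩) (Box.of 4 (by decide +kernel))
    (by decide +kernel)

theorem t3k0_xdys : NC (pe t3r0.dy (t1v t3c0) - pe t3d0.dy (Xcd.ew zW t3c0)) :=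
  NC.of (K := 508) (D := ⟨1, 1, 1, 55⟩) (Box.of 4 (by decide +kernel))
    (by decide +kernel)

theorem t3k0_xtys : NC (pe t3r0.ty (t1v t3c0) - pe t3d0.ty (Xcd.ew zW t3c0)) :=
  NC.of (K := 510) (D := ⟨1, 1, 1, 55⟩) (Box.of 4 (by decide +kernel))
    (by decide +kernel)

theorem t3k0_xhz : NC (pe t3r0.hz (t1v t3c0) - pe t3d0.c.dR (Xcd.ew zW t3c0)) :=
  NC.of (K := 424) (D := ⟨1, 1, 1, 46⟩) (Box.of 4 (by decide +kernel))
    (by decide +kernel)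

theorem t3f0_ok : t3f0.ok V2L.y0 V2L.k0 V2L.nb V2L.la (10 ^ 30) 32 = true := by decide +kernel

theorem t3k0_sg : t3c0.Sg := by
  constructor <;> decide +kernel

theorem t3k0_rgs : t3c0.Rgs where
  M := ⟨t3k0_M_r1, t3k0_M_r2, t3k0_M_r3, t3k0_M_r4⟩
  r0 := ⟨t3k0_r0_r1, t3k0_r0_r2, t3k0_r0_r3, t3k0_r0_r4⟩
  r1 := ⟨t3k0_r1_r1, t3k0_r1_r2, t3k0_r1_r3, t3k0_r1_r4⟩
  r2 := ⟨t3k0_r2_r1, t3k0_r2_r2, t3k0_r2_r3, t3k0_r2_r4⟩
  rc := ⟨t3k0_rc_r1, t3k0_rc_r2, t3k0_rc_r3, t3k0_rc_r4⟩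
  rI := ⟨t3k0_rI_r1, t3k0_rI_r2, t3k0_rI_r3, t3k0_rI_r4⟩
  rJ := ⟨t3k0_rJ_r1, t3k0_rJ_r2, t3k0_rJ_r3, t3k0_rJ_r4⟩

theorem t3k0_xn : t3e0.Ok t3c0 where
  lm := by decide +kernel
  dl0 := by decide +kernel
  dl1 := by decide +kernel
  e2 := by decide +kernel
  eY := by decide +kernel
  gE := ⟨t3k0_gE_r1, t3k0_gE_r2, t3k0_gE_r3, t3k0_gE_r4⟩

theorem t3k0_vl : t3c0.Vl dW qW where
  bt := by decide +kernel
  B0 := t3k0_B0
  E0 := t3k0_E0
  D0 := t3k0_D0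
  Bh := t3k0_Bh
  Eh := t3k0_Eh
  Dh := t3k0_Dh
  B1 := t3k0_B1
  E1 := t3k0_E1
  D1 := t3k0_D1

theorem t3k0_rat : t3n0.Rat t3c0 := by
  constructor <;> decide +kernel

theorem t3k0_ck : t3n0.Ck t3c0 := ⟨t3k0_l, t3k0_n⟩

theorem t3k0_fck : t3n0.Fck dW qW fW t3c0 := ⟨t3k0_rb, t3k0_kap⟩

theorem t3k0_w : Wcl zW kW yW t3al t3c0 t3n0 t3m0 where
  b2 := t3k0_wb2
  mb := t3k0_wmb
  th := t3k0_wth
  yb := t3k0_wyb
  mu := t3k0_wmu
  cj := t3k0_wcj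
  mt1 := by decide +kernel
  mt2 := by decide +kernel

theorem t3k0_ok : CelOk dW qW fW t3c0 t3n0 where
  s := t3k0_sg
  r := t3k0_rgs
  v := t3k0_vl
  rt := t3k0_rat
  k := t3k0_ck
  fc := t3k0_fck
  q01 := by decide +kernel
  q12 := by decide +kernel
  h2 := by decide +kernel

theorem t3k0_xr : t3r0.Ok fW t3c0 t3e0 where
  sD := by decide +kernel
  sT := by decide +kernel
  nd1 := t3k0_nd1
  nd2 := t3k0_nd2
  ndy := t3k0_ndy
  nt1 := t3k0_nt1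
  nt2 := t3k0_nt2
  nty := t3k0_nty
  nhz := t3k0_nhz
  xi := t3k0_xi
  om := t3k0_om

theorem t3k0_X : t3d0.Ck t3GR t3HR zW t3c0 t3e0 t3r0 where
  u0 := by decide +kernel
  u01 := by decide +kernel
  ul := by decide +kernel
  us := by decide +kernel
  uc := by decide +kernel
  ga0 := by decide +kernel
  kp0 := by decide +kernel
  lm := by decide +kernel
  dl := t3k0_xdl
  eY := t3k0_xeY
  gr := t3k0_xgr
  hr := t3k0_xhr
  gs := t3k0_xgs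
  d1 := t3k0_xd1
  d2 := t3k0_xd2
  t1 := t3k0_xt1
  t2 := t3k0_xt2
  dy := t3k0_xdy
  ty := t3k0_xty
  d1s := t3k0_xd1s
  d2s := t3k0_xd2s
  t1s := t3k0_xt1s
  t2s := t3k0_xt2s
  dys := t3k0_xdys
  tys := t3k0_xtys
  hz := t3k0_xhz

end Pool.Agent.RX.RCN.K
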