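import Pool.Agent.RX.RCN.T3D
import Pool.Agent.RX.RCN.T3Wq
import Pool.Agent.RX.RCN.T3X0
import Pool.Agent.RX.RCN.VLd

/-! Certificates (generated). -/

set_option autoImplicit false

namespace Pool.Agent.RX.RCN.K

open Set Pool.Agent.RX.RCM9 Pool.Agent.RX.RCM9.Bern Pool.Agent.RX.RCM9.Pk Xce

def t3c1 : Cel where
  t0 := 1 / 20
  t1 := 1 / 10
  C := 4097 / 4096
  th := 103 / 1024
  B0 := 281 / 256
  Bh := 1715 / 2048
  B1 := 101 / 128
  D0 := 99 / 1024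
  Dh := 97 / 2048
  D1 := 91 / 2048
  E0 := 101 / 4194304
  Eh := 7 / 524288
  E1 := 53 / 4194304
  Q0 := 1127 / 1024
  Q1 := 1127 / 1024
  Q2 := 1127 / 1024
  Ac := 1127 / 1024
  gI := 1127 / 1024
  J := 117 / 4194304

def t3n1 : Chn where
  lb := 513 / 512
  nb := 135 / 512
  Mb := 1029 / 1024
  b2 := 259 / 256
  Yb := 1 / 4096
  E2 := 4099 / 4096
  e1 := 271 / 256
  Z1 := 567 / 512
  Z2 := 291 / 512
  KB := 1033 / 1024
  cb := 257 / 256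
  rb := 99 / 1024
  om := 263 / 256
  fb := 129 / 128
  kap := 4099 / 4096
  ab := 1029 / 1024

def t3e1 : Xge where
  lm := 3 / 5
  dl := 411 / 4096
  e2 := 43 / 8192
  eY := 4097 / 4096
  gE := 1127 / 1024

def t3r1 : Xr where
  d1 := [29589 / 100000000, 73831 / 50000000, 449271 / 50000000, 166429 / 6250000, 1396913 /
    25000000, 160173 / 2500000, -276623 / 10000000]
  d2 := [541 / 100000000, 543227 / 100000000, 5162403 / 25000000, -346425381 / 50000000,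
    12497315933 / 100000000, -106314110181 / 100000000, 343604455627 / 100000000]
  dy := [9871 / 12500000, 6311 / 800000, 11987523 / 25000000, -311182011 / 20000000, 5418162279 /
    20000000, -112413576671 / 50000000, 22307562639 / 3125000]
  t1 := [649607 / 100000000, -1176747 / 12500000, -3764227 / 1000000, 22803352759 / 100000000,
    -507855859179 / 100000000, 1255059784683 / 25000000, -17946542093257 / 100000000]
  t2 := [5459 / 25000000, 199827 / 50000000, -38836153 / 100000000, 1268901 / 80000, -106305047 /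
    500000, 116009190609 / 100000000, -48859425909 / 25000000]
  ty := [784493 / 50000000, -7604459 / 25000000, -116079383 / 50000000, 7565068833 / 25000000,
    -77692155913 / 10000000, 129371752831 / 1562500, -7747748389477 / 25000000]
  hz := [74161 / 12500000, 1324913 / 10000000, -1158448517 / 50000000, 6375455779 / 10000000,
    -167631754663 / 25000000, 2463151013423 / 100000000, -3022546731 / 25000000]
  om := [1003967 / 1000000, 51021621 / 50000000, -342609311 / 25000000, 317157441 / 6250000,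
    -3734733263 / 50000000, -10391482329 / 100000000, 4863806627 / 5000000, -249335333701 /
    100000000, 233939372397 / 100000000]
  sD := 79 / 64
  sT := 163 / 128
  xi := [10959 / 20000000, 2638623 / 100000000, 15349163 / 50000000, -16242513 / 390625,
    12201865319 / 10000000, -404213099073 / 25000000, 5017499107931 / 50000000, -2447138385647 /
    12500000, -42548332002503 / 100000000, 1591590689497 / 1562500]

def t3f1 : Dl where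
  Ca := 501557 / 10000000
  Cv := 100309 / 1000000
  k1 := 9971139 / 10000000
  ks := 39817 / 40000
  dd := 0
  kp := 869 / 10000000
  e := [999999699999 / 1000000000000, -534673841799 / 500000000000, 931002493921 / 1000000000000,
    -137410875949 / 200000000000, 499787600881 / 1000000000000, -350212249773 / 1000000000000,
    235006931483 / 1000000000000, -149592001851 / 1000000000000, 74419888739 / 1000000000000]
  j1 := [-3650171 / 1000000000, -12311530377 / 1000000000, 52993772199 / 500000000, -108194528101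
    / 250000000, 254361877 / 250000, -1438983253367 / 1000000000, 65346569433 / 50000000,
    -199710139279 / 250000000]
  nu := [143241 / 31250000, -7372099 / 125000000, 27817677 / 100000000, 1505798749 / 200000000,
    -3106781703 / 20000000, 1406400789837 / 1000000000, -4642825990521 / 1000000000]
  k2 := [62214161 / 62500000, 14676211 / 250000000, -2146853 / 7812500, -7535658689 / 1000000000,
    38759328583 / 250000000, -35070843769 / 25000000, 231553010727 / 50000000]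
  dR := [296031 / 50000000, 2641 / 20000, -460423903 / 20000000, 31572110293 / 50000000,
    -661873350587 / 100000000, 2421768860231 / 100000000]

def t3d1 : Xce where
  u0 := 1583 / 31250
  u1 := 100309 / 1000000
  l := V2L.y0
  y := t3z0
  j := t3j0
  i := t3i0
  ls := t3y0
  k := V2L.k0
  c := t3f1
  ga := 59 / 200000
  gb := -93 / 1000000
  hb := 21 / 31250
  gs := [80000931 / 50000000, 12 / 5, 180000001 / 100000000, 39799961 / 50000000, 13294847 /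
    50000000, -11731203 / 100000000, -3380239 / 50000000]
  d1 := [29559 / 100000000, 147221 / 100000000, 891159 / 100000000, 1340887 / 50000000, 260293 /
    5000000, 6660369 / 100000000, -344979 / 100000000]
  d2 := [49 / 10000000, 541611 / 100000000, 2051389 / 10000000, -68623589 / 10000000, 3085470491 /
    25000000, -26170065343 / 25000000, 337305534739 / 100000000]
  dy := [39419 / 50000000, 15731 / 2000000, 23819761 / 50000000, -192645321 / 12500000,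
    26754742589 / 100000000, -221374566231 / 100000000, 350378245173 / 50000000]
  t1 := [324639 / 50000000, -1173149 / 12500000, -23378049 / 6250000, 4518409747 / 20000000,
    -250816746521 / 50000000, 1235922053693 / 25000000, -17619047580309 / 100000000]
  t2 := [4357 / 20000000, 79687 / 20000000, -19297297 / 50000000, 39279769 / 2500000, -4198285389
    / 20000000, 14267802981 / 12500000, -19152792273 / 10000000]
  ty := [392049 / 25000000, -7581279 / 25000000, -230535953 / 100000000, 1873501559 / 6250000,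
    -767355389491 / 100000000, 8153264924097 / 100000000, -30424853942569 / 100000000]

def t3m1 : ℚ := 27 / 256

def t3h1 : ℚ := 63 / 250

theorem t3k1_M_r1 : NC (fM t3c1 (1 - eh) eh ek (elo t3c1.B0 t3c1.Bh eh) (elo t3c1.D0 t3c1.Dh ek) (elo t3c1.E0 t3c1.Eh ek)) :=
  NC.of (K := 30) (D := ⟨4, 3, 1, 1⟩) (Box.of 4 (by decide +kernel))
    (by decide +kernel)

theorem t3k1_M_r2 : NC (fM t3c1 eh (1 - eh) ek (ehi t3c1.Bh t3c1.B1 (1 - eh)) (elo t3c1.D0 t3c1.Dh ek) (elo t3c1.E0 t3c1.Eh ek)) :=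
  NC.of (K := 30) (D := ⟨4, 3, 1, 1⟩) (Box.of 4 (by decide +kernel))
    (by decide +kernel)

theorem t3k1_M_r3 : NC (fM t3c1 (1 - eh) ek eh (elo t3c1.B0 t3c1.Bh ek) (elo t3c1.D0 t3c1.Dh eh) (elo t3c1.E0 t3c1.Eh eh)) :=
  NC.of (K := 28) (D := ⟨4, 2, 1, 1⟩) (Box.of 4 (by decide +kernel))
    (by decide +kernel)

theorem t3k1_M_r4 : NC (fM t3c1 eh ek (1 - eh) (elo t3c1.B0 t3c1.Bh ek) (ehi t3c1.Dh t3c1.D1 (1 - eh)) (ehi t3c1.Eh t3c1.E1 (1 - eh))) :=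
  NC.of (K := 27) (D := ⟨4, 2, 1, 1⟩) (Box.of 4 (by decide +kernel))
    (by decide +kernel)

theorem t3k1_r0_r1 : NC (f0 t3c1 (1 - eh) eh ek (elo t3c1.B0 t3c1.Bh eh) (elo t3c1.D0 t3c1.Dh ek) (elo t3c1.E0 t3c1.Eh ek)) :=
  NC.of (K := 129) (D := ⟨13, 9, 1, 1⟩) (Box.of 4 (by decide +kernel))
    (by decide +kernel)

theorem t3k1_r0_r2 : NC (f0 t3c1 eh (1 - eh) ek (ehi t3c1.Bh t3c1.B1 (1 - eh)) (elo t3c1.D0 t3c1.Dh ek) (elo t3c1.E0 t3c1.Eh ek)) :=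
  NC.of (K := 129) (D := ⟨13, 9, 1, 1⟩) (Box.of 4 (by decide +kernel))
    (by decide +kernel)

theorem t3k1_r0_r3 : NC (f0 t3c1 (1 - eh) ek eh (elo t3c1.B0 t3c1.Bh ek) (elo t3c1.D0 t3c1.Dh eh) (elo t3c1.E0 t3c1.Eh eh)) :=
  NC.of (K := 125) (D := ⟨13, 5, 1, 1⟩) (Box.of 4 (by decide +kernel))
    (by decide +kernel)

theorem t3k1_r0_r4 : NC (f0 t3c1 eh ek (1 - eh) (elo t3c1.B0 t3c1.Bh ek) (ehi t3c1.Dh t3c1.D1 (1 - eh)) (ehi t3c1.Eh t3c1.E1 (1 - eh))) :=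
  NC.of (K := 122) (D := ⟨13, 5, 1, 1⟩) (Box.of 4 (by decide +kernel))
    (by decide +kernel)

theorem t3k1_r1_r1 : NC (f1 t3c1 (1 - eh) eh ek (elo t3c1.B0 t3c1.Bh eh) (elo t3c1.D0 t3c1.Dh ek) (elo t3c1.E0 t3c1.Eh ek)) :=
  NC.of (K := 207) (D := ⟨16, 9, 1, 1⟩) (Box.of 4 (by decide +kernel))
    (by decide +kernel)

theorem t3k1_r1_r2 : NC (f1 t3c1 eh (1 - eh) ek (ehi t3c1.Bh t3c1.B1 (1 - eh)) (elo t3c1.D0 t3c1.Dh ek) (elo t3c1.E0 t3c1.Eh ek)) :=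
  NC.of (K := 207) (D := ⟨16, 9, 1, 1⟩) (Box.of 4 (by decide +kernel))
    (by decide +kernel)

theorem t3k1_r1_r3 : NC (f1 t3c1 (1 - eh) ek eh (elo t3c1.B0 t3c1.Bh ek) (elo t3c1.D0 t3c1.Dh eh) (elo t3c1.E0 t3c1.Eh eh)) :=
  NC.of (K := 210) (D := ⟨16, 12, 1, 1⟩) (Box.of 4 (by decide +kernel))
    (by decide +kernel)

theorem t3k1_r1_r4 : NC (f1 t3c1 eh ek (1 - eh) (elo t3c1.B0 t3c1.Bh ek) (ehi t3c1.Dh t3c1.D1 (1 - eh)) (ehi t3c1.Eh t3c1.E1 (1 - eh))) :=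
  NC.of (K := 212) (D := ⟨16, 12, 1, 1⟩) (Box.of 4 (by decide +kernel))
    (by decide +kernel)

theorem t3k1_r2_r1 : NC (f2 t3c1 (1 - eh) eh ek (elo t3c1.B0 t3c1.Bh eh) (elo t3c1.D0 t3c1.Dh ek) (elo t3c1.E0 t3c1.Eh ek)) :=
  NC.of (K := 209) (D := ⟨16, 11, 1, 1⟩) (Box.of 4 (by decide +kernel))
    (by decide +kernel)

theorem t3k1_r2_r2 : NC (f2 t3c1 eh (1 - eh) ek (ehi t3c1.Bh t3c1.B1 (1 - eh)) (elo t3c1.D0 t3c1.Dh ek) (elo t3c1.E0 t3c1.Eh ek)) :=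
  NC.of (K := 210) (D := ⟨16, 11, 1, 1⟩) (Box.of 4 (by decide +kernel))
    (by decide +kernel)

theorem t3k1_r2_r3 : NC (f2 t3c1 (1 - eh) ek eh (elo t3c1.B0 t3c1.Bh ek) (elo t3c1.D0 t3c1.Dh eh) (elo t3c1.E0 t3c1.Eh eh)) :=
  NC.of (K := 211) (D := ⟨16, 12, 1, 1⟩) (Box.of 4 (by decide +kernel))
    (by decide +kernel)

theorem t3k1_r2_r4 : NC (f2 t3c1 eh ek (1 - eh) (elo t3c1.B0 t3c1.Bh ek) (ehi t3c1.Dh t3c1.D1 (1 - eh)) (ehi t3c1.Eh t3c1.E1 (1 - eh))) :=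
  NC.of (K := 212) (D := ⟨16, 12, 1, 1⟩) (Box.of 4 (by decide +kernel))
    (by decide +kernel)

theorem t3k1_rc_r1 : NC (fc t3c1 (1 - eh) eh ek (elo t3c1.B0 t3c1.Bh eh) (elo t3c1.D0 t3c1.Dh ek) (elo t3c1.E0 t3c1.Eh ek)) :=
  NC.of (K := 129) (D := ⟨13, 9, 1, 1⟩) (Box.of 4 (by decide +kernel))
    (by decide +kernel)

theorem t3k1_rc_r2 : NC (fc t3c1 eh (1 - eh) ek (ehi t3c1.Bh t3c1.B1 (1 - eh)) (elo t3c1.D0 t3c1.Dh ek) (elo t3c1.E0 t3c1.Eh ek)) :=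
  NC.of (K := 128) (D := ⟨13, 9, 1, 1⟩) (Box.of 4 (by decide +kernel))
    (by decide +kernel)

theorem t3k1_rc_r3 : NC (fc t3c1 (1 - eh) ek eh (elo t3c1.B0 t3c1.Bh ek) (elo t3c1.D0 t3c1.Dh eh) (elo t3c1.E0 t3c1.Eh eh)) :=
  NC.of (K := 124) (D := ⟨13, 5, 1, 1⟩) (Box.of 4 (by decide +kernel))
    (by decide +kernel)

theorem t3k1_rc_r4 : NC (fc t3c1 eh ek (1 - eh) (elo t3c1.B0 t3c1.Bh ek) (ehi t3c1.Dh t3c1.D1 (1 - eh)) (ehi t3c1.Eh t3c1.E1 (1 - eh))) :=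
  NC.of (K := 121) (D := ⟨13, 5, 1, 1⟩) (Box.of 4 (by decide +kernel))
    (by decide +kernel)

theorem t3k1_rI_r1 : NC (fI t3c1 (1 - eh) eh ek (elo t3c1.B0 t3c1.Bh eh) (elo t3c1.D0 t3c1.Dh ek) (elo t3c1.E0 t3c1.Eh ek)) :=
  NC.of (K := 121) (D := ⟨13, 9, 1, 1⟩) (Box.of 4 (by decide +kernel))
    (by decide +kernel)

theorem t3k1_rI_r2 : NC (fI t3c1 eh (1 - eh) ek (ehi t3c1.Bh t3c1.B1 (1 - eh)) (elo t3c1.D0 t3c1.Dh ek) (elo t3c1.E0 t3c1.Eh ek)) :=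
  NC.of (K := 120) (D := ⟨13, 9, 1, 1⟩) (Box.of 4 (by decide +kernel))
    (by decide +kernel)

theorem t3k1_rI_r3 : NC (fI t3c1 (1 - eh) ek eh (elo t3c1.B0 t3c1.Bh ek) (elo t3c1.D0 t3c1.Dh eh) (elo t3c1.E0 t3c1.Eh eh)) :=
  NC.of (K := 116) (D := ⟨13, 5, 1, 1⟩) (Box.of 4 (by decide +kernel))
    (by decide +kernel)

theorem t3k1_rI_r4 : NC (fI t3c1 eh ek (1 - eh) (elo t3c1.B0 t3c1.Bh ek) (ehi t3c1.Dh t3c1.D1 (1 - eh)) (ehi t3c1.Eh t3c1.E1 (1 - eh))) :=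
  NC.of (K := 113) (D := ⟨13, 5, 1, 1⟩) (Box.of 4 (by decide +kernel))
    (by decide +kernel)

theorem t3k1_rJ_r1 : NC (fJ t3c1 (1 - eh) eh ek (elo t3c1.B0 t3c1.Bh eh) (elo t3c1.D0 t3c1.Dh ek) (elo t3c1.E0 t3c1.Eh ek)) :=
  NC.of (K := 64) (D := ⟨7, 5, 1, 1⟩) (Box.of 4 (by decide +kernel))
    (by decide +kernel)

theorem t3k1_rJ_r2 : NC (fJ t3c1 eh (1 - eh) ek (ehi t3c1.Bh t3c1.B1 (1 - eh)) (elo t3c1.D0 t3c1.Dh ek) (elo t3c1.E0 t3c1.Eh ek)) :=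
  NC.of (K := 64) (D := ⟨7, 5, 1, 1⟩) (Box.of 4 (by decide +kernel))
    (by decide +kernel)

theorem t3k1_rJ_r3 : NC (fJ t3c1 (1 - eh) ek eh (elo t3c1.B0 t3c1.Bh ek) (elo t3c1.D0 t3c1.Dh eh) (elo t3c1.E0 t3c1.Eh eh)) :=
  NC.of (K := 61) (D := ⟨7, 3, 1, 1⟩) (Box.of 4 (by decide +kernel))
    (by decide +kernel)

theorem t3k1_rJ_r4 : NC (fJ t3c1 eh ek (1 - eh) (elo t3c1.B0 t3c1.Bh ek) (ehi t3c1.Dh t3c1.D1 (1 - eh)) (ehi t3c1.Eh t3c1.E1 (1 - eh))) :=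
  NC.of (K := 59) (D := ⟨7, 3, 1, 1⟩) (Box.of 4 (by decide +kernel))
    (by decide +kernel)

theorem t3k1_gE_r1 : NC (fE t3c1 t3e1 (1 - eh) eh ek (elo t3c1.B0 t3c1.Bh eh) (elo t3c1.D0 t3c1.Dh ek) (elo t3c1.E0 t3c1.Eh ek)) :=
  NC.of (K := 121) (D := ⟨13, 9, 1, 1⟩) (Box.of 4 (by decide +kernel))
    (by decide +kernel)

theorem t3k1_gE_r2 : NC (fE t3c1 t3e1 eh (1 - eh) ek (ehi t3c1.Bh t3c1.B1 (1 - eh)) (elo t3c1.D0 t3c1.Dh ek) (elo t3c1.E0 t3c1.Eh ek)) :=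
  NC.of (K := 122) (D := ⟨13, 9, 1, 1⟩) (Box.of 4 (by decide +kernel))
    (by decide +kernel)

theorem t3k1_gE_r3 : NC (fE t3c1 t3e1 (1 - eh) ek eh (elo t3c1.B0 t3c1.Bh ek) (elo t3c1.D0 t3c1.Dh eh) (elo t3c1.E0 t3c1.Eh eh)) :=
  NC.of (K := 119) (D := ⟨13, 7, 1, 1⟩) (Box.of 4 (by decide +kernel))
    (by decide +kernel)

theorem t3k1_gE_r4 : NC (fE t3c1 t3e1 eh ek (1 - eh) (elo t3c1.B0 t3c1.Bh ek) (ehi t3c1.Dh t3c1.D1 (1 - eh)) (ehi t3c1.Eh t3c1.E1 (1 - eh))) :=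
  NC.of (K := 117) (D := ⟨13, 7, 1, 1⟩) (Box.of 4 (by decide +kernel))
    (by decide +kernel)

theorem t3k1_B0 : NC (kB dW 1 0 t3c1.B0 (tcl t3c1)) :=
  NC.of (K := 73) (D := ⟨1, 1, 1, 9⟩) (Box.of 4 (by decide +kernel))
    (by decide +kernel)

theorem t3k1_E0 : NC (kE dW qW qW.p0 qW.q0 t3c1.E0 (tcl t3c1)) :=
  NC.of (K := 160) (D := ⟨1, 1, 1, 19⟩) (Box.of 4 (by decide +kernel))
    (by decide +kernel)

theorem t3k1_D0 : NC (kD dW qW 1 0 qW.p0 qW.q0 t3c1.D0 (tcl t3c1)) :=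
  NC.of (K := 274) (D := ⟨1, 1, 1, 20⟩) (Box.of 4 (by decide +kernel))
    (by decide +kernel)

theorem t3k1_Bh : NC (kB dW (1 / 2) (1 / 2) t3c1.Bh (tcl t3c1)) :=
  NC.of (K := 75) (D := ⟨1, 1, 1, 9⟩) (Box.of 4 (by decide +kernel))
    (by decide +kernel)

theorem t3k1_Eh : NC (kE dW qW qW.ph qW.qh t3c1.Eh (tcl t3c1)) :=
  NC.of (K := 162) (D := ⟨1, 1, 1, 19⟩) (Box.of 4 (by decide +kernel))
    (by decide +kernel)

theorem t3k1_Dh : NC (kD dW qW (1 / 2) (1 / 2) qW.ph qW.qh t3c1.Dh (tcl t3c1)) :=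
  NC.of (K := 277) (D := ⟨1, 1, 1, 20⟩) (Box.of 4 (by decide +kernel))
    (by decide +kernel)

theorem t3k1_B1 : NC (kB dW 0 (1 / 2) t3c1.B1 (tcl t3c1)) :=
  NC.of (K := 74) (D := ⟨1, 1, 1, 9⟩) (Box.of 4 (by decide +kernel))
    (by decide +kernel)

theorem t3k1_E1 : NC (kE dW qW qW.p1 qW.q1 t3c1.E1 (tcl t3c1)) :=
  NC.of (K := 162) (D := ⟨1, 1, 1, 19⟩) (Box.of 4 (by decide +kernel))
    (by decide +kernel)

theorem t3k1_D1 : NC (kD dW qW 0 (1 / 2) qW.p1 qW.q1 t3c1.D1 (tcl t3c1)) :=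
  NC.of (K := 277) (D := ⟨1, 1, 1, 20⟩) (Box.of 4 (by decide +kernel))
    (by decide +kernel)

theorem t3k1_l : NC (qc t3n1.lb - (1 - vX) * pe (exl t3c1.th) vX ^ 2) :=
  NC.of (K := 109) (D := ⟨10, 1, 1, 1⟩) (Box.of 4 (by decide +kernel))
    (by decide +kernel)

theorem t3k1_n : NC (qc t3n1.nb - vX * (1 - vX) * pe (exl t3c1.th) vX) :=
  NC.of (K := 95) (D := ⟨7, 1, 1, 1⟩) (Box.of 1196064 (by decide +kernel))
    (by decide +kernel)

theorem t3k1_rb : NC (krb t3n1 fW (t1v t3c1)) :=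
  NC.of (K := 129) (D := ⟨1, 1, 1, 16⟩) (Box.of 4 (by decide +kernel))
    (by decide +kernel)

theorem t3k1_kap : NC (kkap dW qW t3n1 (tcl t3c1)) :=
  NC.of (K := 75) (D := ⟨1, 1, 1, 9⟩) (Box.of 4 (by decide +kernel))
    (by decide +kernel)

theorem t3k1_wb2 : NC (qc t3n1.b2 - pe2 kW.QB (vZ * t1v t3c1) (t1v t3c1)) :=
  NC.of (K := 84) (D := ⟨1, 6, 1, 11⟩) (Box.of 4 (by decide +kernel))
    (by decide +kernel)

theorem t3k1_wmb : NC (qc t3n1.Mb - pe zW.mb (t1v t3c1)) :=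
  NC.of (K := 67) (D := ⟨1, 1, 1, 9⟩) (Box.of 4 (by decide +kernel))
    (by decide +kernel)

theorem t3k1_wth : NC (qc (t3c1.th / t3c1.t1) - pe2 zW.Qt (vZ * t1v t3c1) (t1v t3c1)) :=
  NC.of (K := 83) (D := ⟨1, 6, 1, 11⟩) (Box.of 4 (by decide +kernel))
    (by decide +kernel)

theorem t3k1_wyb : NC (qc t3n1.Yb - (t1v t3c1 - vZ * t1v t3c1) ^ 3 * pe2 yW.QY (vZ * t1v t3c1) (t1v t3c1)) :=
  NC.of (K := 80) (D := ⟨1, 8, 1, 12⟩) (Box.of 4 (by decide +kernel))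
    (by decide +kernel)

theorem t3k1_wmu : NC (qc t3m1 - pe t3al (tcl t3c1) * (1 + hlf * tcl t3c1)) :=
  NC.of (K := 66) (D := ⟨1, 1, 1, 9⟩) (Box.of 4 (by decide +kernel))
    (by decide +kernel)

theorem t3k1_wcj : NC (qc t3c1.C * ((6 - 3 * vX) * (1 - qc t3m1 * vX)) - (6 - 6 * vX + vX ^ 2)) :=
  NC.of (K := 30) (D := ⟨3, 1, 1, 1⟩) (Box.of 4 (by decide +kernel))
    (by decide +kernel)

theorem t3k1_nd1 : NC (pe t3r1.d1 (t1v t3c1)) :=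
  NC.of (K := 43) (D := ⟨1, 1, 1, 7⟩) (Box.of 4 (by decide +kernel))
    (by decide +kernel)

theorem t3k1_nd2 : NC (pe t3r1.d2 (t1v t3c1)) :=
  NC.of (K := 52) (D := ⟨1, 1, 1, 7⟩) (Box.of 4 (by decide +kernel))
    (by decide +kernel)

theorem t3k1_ndy : NC (pe t3r1.dy (t1v t3c1)) :=
  NC.of (K := 51) (D := ⟨1, 1, 1, 7⟩) (Box.of 4 (by decide +kernel))
    (by decide +kernel)

theorem t3k1_nt1 : NC (pe t3r1.t1 (t1v t3c1)) :=
  NC.of (K := 70) (D := ⟨1, 1, 1, 7⟩) (Box.of 291 (by decide +kernel))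
    (by decide +kernel)

theorem t3k1_nt2 : NC (pe t3r1.t2 (t1v t3c1)) :=
  NC.of (K := 52) (D := ⟨1, 1, 1, 7⟩) (Box.of 4 (by decide +kernel))
    (by decide +kernel)

theorem t3k1_nty : NC (pe t3r1.ty (t1v t3c1)) :=
  NC.of (K := 68) (D := ⟨1, 1, 1, 7⟩) (Box.of 291 (by decide +kernel))
    (by decide +kernel)

theorem t3k1_nhz : NC (pe t3r1.hz (t1v t3c1)) :=
  NC.of (K := 81) (D := ⟨1, 1, 1, 7⟩) (Box.of 1194267 (by decide +kernel))
    (by decide +kernel)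

theorem t3k1_xi : NC (eXi fW t3c1 t3e1 t3r1 (t1v t3c1)) :=
  NC.of (K := 227) (D := ⟨1, 1, 1, 22⟩) (Box.of 4 (by decide +kernel))
    (by decide +kernel)

theorem t3k1_om : NC (eOm fW t3r1 (t1v t3c1)) :=
  NC.of (K := 122) (D := ⟨1, 1, 1, 16⟩) (Box.of 4 (by decide +kernel))
    (by decide +kernel)

theorem t3k1_fin : NC (eFin dW t3c1 t3n1 t3r1 t3h1 (tcl t3c1)) :=
  NC.of (K := 176) (D := ⟨1, 1, 1, 14⟩) (Box.of 4 (by decide +kernel))
    (by decide +kernel)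

theorem t3k1_xdl : NC (qc t3e1.dl - pe t3d1.l.dl t3d1.eU) :=
  NC.of (K := 71) (D := ⟨1, 4, 1, 1⟩) (Box.of 4 (by decide +kernel))
    (by decide +kernel)

theorem t3k1_xeY : NC (qc t3e1.eY - pe (e4l t3d1.l.z) t3d1.eU) :=
  NC.of (K := 288) (D := ⟨1, 13, 1, 1⟩) (Box.of 4 (by decide +kernel))
    (by decide +kernel)

theorem t3k1_xgr : NC (qc t3d1.ga * ((1 + qc (3 / 5) * vX) * (1 + (t3d1.eg + hlf * t3d1.eg ^ 2))) + qc t3d1.gb - pe2 t3GR vX t3d1.eU) :=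
  NC.of (K := 234) (D := ⟨4, 11, 1, 1⟩) (Box.of 4 (by decide +kernel))
    (by decide +kernel)

theorem t3k1_xhr : NC (qc t3d1.hb - pe2 t3HR vX t3d1.eU) :=
  NC.of (K := 254) (D := ⟨3, 12, 1, 1⟩) (Box.of 4 (by decide +kernel))
    (by decide +kernel)

theorem t3k1_xgs : NC (pe t3d1.gs t3d1.e1 - qc (8 / 5) * pe (e4l (ladd t3d1.ls.z t3d1.ls.dl)) t3d1.e1) :=
  NC.of (K := 295) (D := ⟨1, 1, 1, 13⟩) (Box.of 4 (by decide +kernel))
    (by decide +kernel)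

theorem t3k1_xd1 : NC (pe t3d1.d1 t3d1.e1 - t3d1.eA t3d1.eU t3d1.e1) :=
  NC.of (K := 276) (D := ⟨1, 12, 1, 12⟩) (Box.of 4 (by decide +kernel))
    (by decide +kernel)

theorem t3k1_xd2 : NC (pe t3d1.d2 t3d1.e1 - t3d1.eB t3d1.eU t3d1.e1) :=
  NC.of (K := 326) (D := ⟨1, 12, 1, 12⟩) (Box.of 1194267 (by decide +kernel))
    (by decide +kernel)

theorem t3k1_xt1 : NC (pe t3d1.t1 t3d1.e1 - t3d1.eAT t3d1.eU t3d1.e1) :=
  NC.of (K := 566) (D := ⟨1, 19, 1, 19⟩) (Box.of 4891719963 (by decide +kernel))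
    (by decide +kernel)

theorem t3k1_xt2 : NC (pe t3d1.t2 t3d1.e1 - t3d1.eBT t3d1.eU t3d1.e1) :=
  NC.of (K := 529) (D := ⟨1, 19, 1, 19⟩) (Box.of 1194267 (by decide +kernel))
    (by decide +kernel)

theorem t3k1_xdy : NC (pe t3d1.dy t3d1.e1 - t3d1.eSD t3d1.eU t3d1.e1) :=
  NC.of (K := 476) (D := ⟨1, 18, 1, 12⟩) (Box.of 1194267 (by decide +kernel))
    (by decide +kernel)

theorem t3k1_xty : NC (pe t3d1.ty t3d1.e1 - t3d1.eST t3d1.eU t3d1.e1) :=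
  NC.of (K := 782) (D := ⟨1, 26, 1, 26⟩) (Box.of 76429595 (by decide +kernel))
    (by decide +kernel)

theorem t3k1_xd1s : NC (pe t3r1.d1 (t1v t3c1) - pe t3d1.d1 (Xcd.ew zW t3c1)) :=
  NC.of (K := 455) (D := ⟨1, 1, 1, 55⟩) (Box.of 4 (by decide +kernel))
    (by decide +kernel)

theorem t3k1_xd2s : NC (pe t3r1.d2 (t1v t3c1) - pe t3d1.d2 (Xcd.ew zW t3c1)) :=
  NC.of (K := 461) (D := ⟨1, 1, 1, 55⟩) (Box.of 4 (by decide +kernel))
    (by decide +kernel)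

theorem t3k1_xt1s : NC (pe t3r1.t1 (t1v t3c1) - pe t3d1.t1 (Xcd.ew zW t3c1)) :=
  NC.of (K := 467) (D := ⟨1, 1, 1, 55⟩) (Box.of 4 (by decide +kernel))
    (by decide +kernel)

theorem t3k1_xt2s : NC (pe t3r1.t2 (t1v t3c1) - pe t3d1.t2 (Xcd.ew zW t3c1)) :=
  NC.of (K := 459) (D := ⟨1, 1, 1, 55⟩) (Box.of 4 (by decide +kernel))
    (by decide +kernel)

theorem t3k1_xdys : NC (pe t3r1.dy (t1v t3c1) - pe t3d1.dy (Xcd.ew zW t3c1)) :=
  NC.of (K := 461) (D := ⟨1, 1, 1, 55⟩) (Box.of 4 (by decide +kernel))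
    (by decide +kernel)

theorem t3k1_xtys : NC (pe t3r1.ty (t1v t3c1) - pe t3d1.ty (Xcd.ew zW t3c1)) :=
  NC.of (K := 467) (D := ⟨1, 1, 1, 55⟩) (Box.of 4 (by decide +kernel))
    (by decide +kernel)

theorem t3k1_xhz : NC (pe t3r1.hz (t1v t3c1) - pe t3d1.c.dR (Xcd.ew zW t3c1)) :=
  NC.of (K := 395) (D := ⟨1, 1, 1, 46⟩) (Box.of 4 (by decide +kernel))
    (by decide +kernel)

theorem t3f1_ok : t3f1.ok V2L.y0 V2L.k0 V2L.nb V2L.la (10 ^ 30) 32 = true := by decide +kernel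

theorem t3k1_sg : t3c1.Sg := by
  constructor <;> decide +kernel

theorem t3k1_rgs : t3c1.Rgs where
  M := ⟨t3k1_M_r1, t3k1_M_r2, t3k1_M_r3, t3k1_M_r4⟩
  r0 := ⟨t3k1_r0_r1, t3k1_r0_r2, t3k1_r0_r3, t3k1_r0_r4⟩
  r1 := ⟨t3k1_r1_r1, t3k1_r1_r2, t3k1_r1_r3, t3k1_r1_r4⟩
  r2 := ⟨t3k1_r2_r1, t3k1_r2_r2, t3k1_r2_r3, t3k1_r2_r4⟩
  rc := ⟨t3k1_rc_r1, t3k1_rc_r2, t3k1_rc_r3, t3k1_rc_r4⟩
  rI := ⟨t3k1_rI_r1, t3k1_rI_r2, t3k1_rI_r3, t3k1_rI_r4⟩
  rJ := ⟨t3k1_rJ_r1, t3k1_rJ_r2, t3k1_rJ_r3, t3k1_rJ_r4⟩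

theorem t3k1_xn : t3e1.Ok t3c1 where
  lm := by decide +kernel
  dl0 := by decide +kernel
  dl1 := by decide +kernel
  e2 := by decide +kernel
  eY := by decide +kernel
  gE := ⟨t3k1_gE_r1, t3k1_gE_r2, t3k1_gE_r3, t3k1_gE_r4⟩

theorem t3k1_vl : t3c1.Vl dW qW where
  bt := by decide +kernel
  B0 := t3k1_B0
  E0 := t3k1_E0
  D0 := t3k1_D0
  Bh := t3k1_Bh
  Eh := t3k1_Eh
  Dh := t3k1_Dh
  B1 := t3k1_B1
  E1 := t3k1_E1
  D1 := t3k1_D1

theorem t3k1_rat : t3n1.Rat t3c1 := by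
  constructor <;> decide +kernel

theorem t3k1_ck : t3n1.Ck t3c1 := ⟨t3k1_l, t3k1_n⟩

theorem t3k1_fck : t3n1.Fck dW qW fW t3c1 := ⟨t3k1_rb, t3k1_kap⟩

theorem t3k1_w : Wcl zW kW yW t3al t3c1 t3n1 t3m1 where
  b2 := t3k1_wb2
  mb := t3k1_wmb
  th := t3k1_wth
  yb := t3k1_wyb
  mu := t3k1_wmu
  cj := t3k1_wcj
  mt1 := by decide +kernel
  mt2 := by decide +kernel

theorem t3k1_ok : CelOk dW qW fW t3c1 t3n1 where
  s := t3k1_sg
  r := t3k1_rgs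
  v := t3k1_vl
  rt := t3k1_rat
  k := t3k1_ck
  fc := t3k1_fck
  q01 := by decide +kernel
  q12 := by decide +kernel
  h2 := by decide +kernel

theorem t3k1_xr : t3r1.Ok fW t3c1 t3e1 where
  sD := by decide +kernel
  sT := by decide +kernel
  nd1 := t3k1_nd1
  nd2 := t3k1_nd2
  ndy := t3k1_ndy
  nt1 := t3k1_nt1
  nt2 := t3k1_nt2
  nty := t3k1_nty
  nhz := t3k1_nhz
  xi := t3k1_xi
  om := t3k1_om

theorem t3k1_X : t3d1.Ck t3GR t3HR zW t3c1 t3e1 t3r1 where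
  u0 := by decide +kernel
  u01 := by decide +kernel
  ul := by decide +kernel
  us := by decide +kernel
  uc := by decide +kernel
  ga0 := by decide +kernel
  kp0 := by decide +kernel
  lm := by decide +kernel
  dl := t3k1_xdl
  eY := t3k1_xeY
  gr := t3k1_xgr
  hr := t3k1_xhr
  gs := t3k1_xgs
  d1 := t3k1_xd1
  d2 := t3k1_xd2
  t1 := t3k1_xt1
  t2 := t3k1_xt2
  dy := t3k1_xdy
  ty := t3k1_xty
  d1s := t3k1_xd1s
  d2s := t3k1_xd2s
  t1s := t3k1_xt1s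
  t2s := t3k1_xt2s
  dys := t3k1_xdys
  tys := t3k1_xtys
  hz := t3k1_xhz

end Pool.Agent.RX.RCN.K
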