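import Pool.Agent.RX.RCN.T3D
import Pool.Agent.RX.RCN.T3Wq
import Pool.Agent.RX.RCN.T3X4
import Pool.Agent.RX.RCN.VLd

/-! Certificates (generated). -/

set_option autoImplicit false

namespace Pool.Agent.RX.RCN.K

open Set Pool.Agent.RX.RCM9 Pool.Agent.RX.RCM9.Bern Pool.Agent.RX.RCM9.Pk Xce

def t3c10 : Cel where
  t0 := 3 / 10
  t1 := 39 / 125
  C := 4097 / 4096
  th := 1283 / 4096
  B0 := 2231 / 2048
  Bh := 2255 / 2048
  B1 := 1083 / 1024
  D0 := 1065 / 4096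
  Dh := 399 / 2048
  D1 := 757 / 4096
  E0 := 7927 / 4194304
  Eh := 6169 / 4194304
  E1 := 1463 / 1048576
  Q0 := 1119 / 1024
  Q1 := 1119 / 1024
  Q2 := 1119 / 1024
  Ac := 1119 / 1024
  gI := 1119 / 1024
  J := 2295 / 1048576

def t3n10 : Chn where
  lb := 513 / 512
  nb := 151 / 512
  Mb := 1029 / 1024
  b2 := 65 / 64
  Yb := 15 / 4096
  E2 := 4127 / 4096
  e1 := 151 / 128
  Z1 := 285 / 256
  Z2 := 619 / 1024
  KB := 131 / 128
  cb := 527 / 512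
  rb := 295 / 1024
  om := 263 / 256
  fb := 129 / 128
  kap := 2063 / 2048
  ab := 1029 / 1024

def t3e10 : Xge where
  lm := 3 / 5
  dl := 1267 / 4096
  e2 := 873 / 16384
  eY := 4113 / 4096
  gE := 281 / 256

def t3r10 : Xr where
  d1 := [765069 / 100000000, 105799 / 100000000, 496239 / 50000000, 2232467 / 100000000, 60519 /
    25000000, 876077 / 25000000, 2562509 / 100000000]
  d2 := [3941 / 100000000, 474913 / 100000000, 1863467 / 20000000, -20676677 / 50000000, 214671593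
    / 100000000, -422230237 / 100000000, 254033273 / 100000000]
  dy := [3935399 / 100000000, 1385721 / 100000000, 5946491 / 50000000, 12486499 / 50000000,
    -15741007 / 25000000, 88354551 / 100000000, -12929051 / 25000000]
  t1 := [3237657 / 50000000, -2164493 / 6250000, 72944617 / 100000000, -97839141 / 25000000,
    2706178731 / 100000000, -8110868371 / 100000000, 9156991619 / 100000000]
  t2 := [23809 / 2500000, -1005079 / 20000000, 515083 / 100000000, 175860809 / 100000000,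
    -486211531 / 50000000, 2589093167 / 100000000, -1294511209 / 50000000]
  ty := [13924869 / 50000000, -44263511 / 25000000, 101331127 / 25000000, -129053933 / 100000000,
    -10736797 / 5000000, -151127123 / 50000000, 97183811 / 12500000]
  hz := [3454173 / 50000000, -9028229 / 50000000, -145250369 / 100000000, -233825993 / 4000000,
    16955071977 / 25000000, -241570715237 / 100000000, 8887286051 / 3125000]
  om := [1003967 / 1000000, 102073929 / 100000000, -274610083 / 20000000, 16123957 / 312500,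
    -8841773613 / 100000000, 860913449 / 50000000, 18832336183 / 50000000, -97181837449 /
    100000000, 8151019931 / 10000000]
  sD := 477 / 256
  sT := 431 / 256
  xi := [1930819 / 100000000, 24593471 / 100000000, -31501059 / 25000000, 14035529 / 50000000,
    -1383860023 / 20000000, 5522867553 / 6250000, -364301518267 / 100000000, 608762430843 /
    100000000, -44708943399 / 12500000, 43859083623 / 50000000]

def t3f10 : Dl where
  Ca := 3009319 / 10000000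
  Cv := 312973 / 1000000
  k1 := 2422727 / 2500000
  ks := 956481 / 1000000
  dd := 0
  kp := 3 / 2500000
  e := [499999849983 / 500000000000, -1238595153727 / 1000000000000, 302893550341 / 250000000000,
    -1041095303943 / 1000000000000, 862229404527 / 1000000000000, -677306014573 / 1000000000000,
    246613169017 / 500000000000, -2993530153 / 10000000000, 53822795427 / 500000000000]
  j1 := [-781323 / 250000000, -10540376569 / 1000000000, 93313913783 / 1000000000, -984835349 /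
    2500000, 969426013977 / 1000000000, -1439731839183 / 1000000000, 315789899067 / 250000000,
    -545231488161 / 1000000000]
  nu := [22246373 / 500000000, -6842571 / 40000000, 192319681 / 500000000, 255437587 / 1000000000,
    -478548861 / 250000000, 29274283 / 3906250, -9720009171 / 1000000000]
  k2 := [191296429 / 200000000, 81809147 / 500000000, -353675963 / 1000000000, -312525427 /
    1000000000, 483047101 / 250000000, -1459219237 / 200000000, 9501576817 / 1000000000]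
  dR := [6894479 / 100000000, -3598291 / 20000000, -144632677 / 100000000, -361802869 / 6250000,
    66973620091 / 100000000, -237836497599 / 100000000, 279141993357 / 100000000]

def t3d10 : Xce where
  u0 := 37679 / 125000
  u1 := 312973 / 1000000
  l := V2L.y4
  y := t3z4
  j := t3j4
  i := t3i4
  ls := t3y4
  k := V2L.k4
  c := t3f10
  ga := 1909 / 250000
  gb := -821 / 500000
  hb := 29431 / 1000000
  gs := [40000639 / 25000000, 59999997 / 25000000, 180000601 / 100000000, 1989719 / 2500000,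
    26686579 / 100000000, -97107 / 800000, -759069 / 12500000]
  d1 := [382289 / 50000000, 26331 / 25000000, 248001 / 25000000, 266877 / 12500000, 70701 /
    10000000, 2182949 / 100000000, 3745949 / 100000000]
  d2 := [441 / 12500000, 472853 / 100000000, 4641179 / 50000000, -41276863 / 100000000, 42781347 /
    20000000, -210459769 / 50000000, 10181083 / 4000000]
  dy := [122889 / 3125000, 1380067 / 100000000, 2374277 / 20000000, 24044159 / 100000000,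
    -14482001 / 25000000, 1506249 / 2000000, -9792203 / 25000000]
  t1 := [3236019 / 50000000, -1380791 / 4000000, 4521047 / 6250000, -77202311 / 20000000,
    266396447 / 10000000, -1991082077 / 25000000, 8967697933 / 100000000]
  t2 := [475939 / 50000000, -5009409 / 100000000, 498927 / 100000000, 174358381 / 100000000,
    -961011143 / 100000000, 159418333 / 6250000, -101716817 / 4000000]
  ty := [27835651 / 100000000, -88242459 / 50000000, 80435907 / 20000000, -121304241 / 100000000,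
    -242893073 / 100000000, -229406841 / 100000000, 352839543 / 50000000]

def t3m10 : ℚ := 1279 / 4096

def t3h10 : ℚ := 123 / 250

theorem t3k10_M_r1 : NC (fM t3c10 (1 - eh) eh ek (elo t3c10.B0 t3c10.Bh eh) (elo t3c10.D0 t3c10.Dh ek) (elo t3c10.E0 t3c10.Eh ek)) :=
  NC.of (K := 32) (D := ⟨4, 3, 1, 1⟩) (Box.of 4 (by decide +kernel))
    (by decide +kernel)

theorem t3k10_M_r2 : NC (fM t3c10 eh (1 - eh) ek (ehi t3c10.Bh t3c10.B1 (1 - eh)) (elo t3c10.D0 t3c10.Dh ek) (elo t3c10.E0 t3c10.Eh ek)) :=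
  NC.of (K := 32) (D := ⟨4, 3, 1, 1⟩) (Box.of 4 (by decide +kernel))
    (by decide +kernel)

theorem t3k10_M_r3 : NC (fM t3c10 (1 - eh) ek eh (elo t3c10.B0 t3c10.Bh ek) (elo t3c10.D0 t3c10.Dh eh) (elo t3c10.E0 t3c10.Eh eh)) :=
  NC.of (K := 31) (D := ⟨4, 2, 1, 1⟩) (Box.of 4 (by decide +kernel))
    (by decide +kernel)

theorem t3k10_M_r4 : NC (fM t3c10 eh ek (1 - eh) (elo t3c10.B0 t3c10.Bh ek) (ehi t3c10.Dh t3c10.D1 (1 - eh)) (ehi t3c10.Eh t3c10.E1 (1 - eh))) :=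
  NC.of (K := 31) (D := ⟨4, 2, 1, 1⟩) (Box.of 4 (by decide +kernel))
    (by decide +kernel)

theorem t3k10_r0_r1 : NC (f0 t3c10 (1 - eh) eh ek (elo t3c10.B0 t3c10.Bh eh) (elo t3c10.D0 t3c10.Dh ek) (elo t3c10.E0 t3c10.Eh ek)) :=
  NC.of (K := 147) (D := ⟨13, 9, 1, 1⟩) (Box.of 4 (by decide +kernel))
    (by decide +kernel)

theorem t3k10_r0_r2 : NC (f0 t3c10 eh (1 - eh) ek (ehi t3c10.Bh t3c10.B1 (1 - eh)) (elo t3c10.D0 t3c10.Dh ek) (elo t3c10.E0 t3c10.Eh ek)) :=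
  NC.of (K := 147) (D := ⟨13, 9, 1, 1⟩) (Box.of 4 (by decide +kernel))
    (by decide +kernel)

theorem t3k10_r0_r3 : NC (f0 t3c10 (1 - eh) ek eh (elo t3c10.B0 t3c10.Bh ek) (elo t3c10.D0 t3c10.Dh eh) (elo t3c10.E0 t3c10.Eh eh)) :=
  NC.of (K := 142) (D := ⟨13, 5, 1, 1⟩) (Box.of 4 (by decide +kernel))
    (by decide +kernel)

theorem t3k10_r0_r4 : NC (f0 t3c10 eh ek (1 - eh) (elo t3c10.B0 t3c10.Bh ek) (ehi t3c10.Dh t3c10.D1 (1 - eh)) (ehi t3c10.Eh t3c10.E1 (1 - eh))) :=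
  NC.of (K := 143) (D := ⟨13, 5, 1, 1⟩) (Box.of 4 (by decide +kernel))
    (by decide +kernel)

theorem t3k10_r1_r1 : NC (f1 t3c10 (1 - eh) eh ek (elo t3c10.B0 t3c10.Bh eh) (elo t3c10.D0 t3c10.Dh ek) (elo t3c10.E0 t3c10.Eh ek)) :=
  NC.of (K := 238) (D := ⟨16, 9, 1, 1⟩) (Box.of 4 (by decide +kernel))
    (by decide +kernel)

theorem t3k10_r1_r2 : NC (f1 t3c10 eh (1 - eh) ek (ehi t3c10.Bh t3c10.B1 (1 - eh)) (elo t3c10.D0 t3c10.Dh ek) (elo t3c10.E0 t3c10.Eh ek)) :=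
  NC.of (K := 242) (D := ⟨16, 9, 1, 1⟩) (Box.of 4 (by decide +kernel))
    (by decide +kernel)

theorem t3k10_r1_r3 : NC (f1 t3c10 (1 - eh) ek eh (elo t3c10.B0 t3c10.Bh ek) (elo t3c10.D0 t3c10.Dh eh) (elo t3c10.E0 t3c10.Eh eh)) :=
  NC.of (K := 242) (D := ⟨16, 12, 1, 1⟩) (Box.of 4 (by decide +kernel))
    (by decide +kernel)

theorem t3k10_r1_r4 : NC (f1 t3c10 eh ek (1 - eh) (elo t3c10.B0 t3c10.Bh ek) (ehi t3c10.Dh t3c10.D1 (1 - eh)) (ehi t3c10.Eh t3c10.E1 (1 - eh))) :=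
  NC.of (K := 243) (D := ⟨16, 12, 1, 1⟩) (Box.of 4 (by decide +kernel))
    (by decide +kernel)

theorem t3k10_r2_r1 : NC (f2 t3c10 (1 - eh) eh ek (elo t3c10.B0 t3c10.Bh eh) (elo t3c10.D0 t3c10.Dh ek) (elo t3c10.E0 t3c10.Eh ek)) :=
  NC.of (K := 241) (D := ⟨16, 11, 1, 1⟩) (Box.of 4 (by decide +kernel))
    (by decide +kernel)

theorem t3k10_r2_r2 : NC (f2 t3c10 eh (1 - eh) ek (ehi t3c10.Bh t3c10.B1 (1 - eh)) (elo t3c10.D0 t3c10.Dh ek) (elo t3c10.E0 t3c10.Eh ek)) :=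
  NC.of (K := 244) (D := ⟨16, 11, 1, 1⟩) (Box.of 4 (by decide +kernel))
    (by decide +kernel)

theorem t3k10_r2_r3 : NC (f2 t3c10 (1 - eh) ek eh (elo t3c10.B0 t3c10.Bh ek) (elo t3c10.D0 t3c10.Dh eh) (elo t3c10.E0 t3c10.Eh eh)) :=
  NC.of (K := 242) (D := ⟨16, 12, 1, 1⟩) (Box.of 4 (by decide +kernel))
    (by decide +kernel)

theorem t3k10_r2_r4 : NC (f2 t3c10 eh ek (1 - eh) (elo t3c10.B0 t3c10.Bh ek) (ehi t3c10.Dh t3c10.D1 (1 - eh)) (ehi t3c10.Eh t3c10.E1 (1 - eh))) :=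
  NC.of (K := 244) (D := ⟨16, 12, 1, 1⟩) (Box.of 4 (by decide +kernel))
    (by decide +kernel)

theorem t3k10_rc_r1 : NC (fc t3c10 (1 - eh) eh ek (elo t3c10.B0 t3c10.Bh eh) (elo t3c10.D0 t3c10.Dh ek) (elo t3c10.E0 t3c10.Eh ek)) :=
  NC.of (K := 146) (D := ⟨13, 9, 1, 1⟩) (Box.of 4 (by decide +kernel))
    (by decide +kernel)

theorem t3k10_rc_r2 : NC (fc t3c10 eh (1 - eh) ek (ehi t3c10.Bh t3c10.B1 (1 - eh)) (elo t3c10.D0 t3c10.Dh ek) (elo t3c10.E0 t3c10.Eh ek)) :=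
  NC.of (K := 146) (D := ⟨13, 9, 1, 1⟩) (Box.of 4 (by decide +kernel))
    (by decide +kernel)

theorem t3k10_rc_r3 : NC (fc t3c10 (1 - eh) ek eh (elo t3c10.B0 t3c10.Bh ek) (elo t3c10.D0 t3c10.Dh eh) (elo t3c10.E0 t3c10.Eh eh)) :=
  NC.of (K := 141) (D := ⟨13, 5, 1, 1⟩) (Box.of 4 (by decide +kernel))
    (by decide +kernel)

theorem t3k10_rc_r4 : NC (fc t3c10 eh ek (1 - eh) (elo t3c10.B0 t3c10.Bh ek) (ehi t3c10.Dh t3c10.D1 (1 - eh)) (ehi t3c10.Eh t3c10.E1 (1 - eh))) :=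
  NC.of (K := 142) (D := ⟨13, 5, 1, 1⟩) (Box.of 4 (by decide +kernel))
    (by decide +kernel)

theorem t3k10_rI_r1 : NC (fI t3c10 (1 - eh) eh ek (elo t3c10.B0 t3c10.Bh eh) (elo t3c10.D0 t3c10.Dh ek) (elo t3c10.E0 t3c10.Eh ek)) :=
  NC.of (K := 139) (D := ⟨13, 9, 1, 1⟩) (Box.of 4 (by decide +kernel))
    (by decide +kernel)

theorem t3k10_rI_r2 : NC (fI t3c10 eh (1 - eh) ek (ehi t3c10.Bh t3c10.B1 (1 - eh)) (elo t3c10.D0 t3c10.Dh ek) (elo t3c10.E0 t3c10.Eh ek)) :=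
  NC.of (K := 140) (D := ⟨13, 9, 1, 1⟩) (Box.of 4 (by decide +kernel))
    (by decide +kernel)

theorem t3k10_rI_r3 : NC (fI t3c10 (1 - eh) ek eh (elo t3c10.B0 t3c10.Bh ek) (elo t3c10.D0 t3c10.Dh eh) (elo t3c10.E0 t3c10.Eh eh)) :=
  NC.of (K := 134) (D := ⟨13, 5, 1, 1⟩) (Box.of 4 (by decide +kernel))
    (by decide +kernel)

theorem t3k10_rI_r4 : NC (fI t3c10 eh ek (1 - eh) (elo t3c10.B0 t3c10.Bh ek) (ehi t3c10.Dh t3c10.D1 (1 - eh)) (ehi t3c10.Eh t3c10.E1 (1 - eh))) :=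
  NC.of (K := 135) (D := ⟨13, 5, 1, 1⟩) (Box.of 4 (by decide +kernel))
    (by decide +kernel)

theorem t3k10_rJ_r1 : NC (fJ t3c10 (1 - eh) eh ek (elo t3c10.B0 t3c10.Bh eh) (elo t3c10.D0 t3c10.Dh ek) (elo t3c10.E0 t3c10.Eh ek)) :=
  NC.of (K := 86) (D := ⟨7, 5, 1, 1⟩) (Box.of 289 (by decide +kernel))
    (by decide +kernel)

theorem t3k10_rJ_r2 : NC (fJ t3c10 eh (1 - eh) ek (ehi t3c10.Bh t3c10.B1 (1 - eh)) (elo t3c10.D0 t3c10.Dh ek) (elo t3c10.E0 t3c10.Eh ek)) :=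
  NC.of (K := 86) (D := ⟨7, 5, 1, 1⟩) (Box.of 289 (by decide +kernel))
    (by decide +kernel)

theorem t3k10_rJ_r3 : NC (fJ t3c10 (1 - eh) ek eh (elo t3c10.B0 t3c10.Bh ek) (elo t3c10.D0 t3c10.Dh eh) (elo t3c10.E0 t3c10.Eh eh)) :=
  NC.of (K := 74) (D := ⟨7, 3, 1, 1⟩) (Box.of 4 (by decide +kernel))
    (by decide +kernel)

theorem t3k10_rJ_r4 : NC (fJ t3c10 eh ek (1 - eh) (elo t3c10.B0 t3c10.Bh ek) (ehi t3c10.Dh t3c10.D1 (1 - eh)) (ehi t3c10.Eh t3c10.E1 (1 - eh))) :=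
  NC.of (K := 74) (D := ⟨7, 3, 1, 1⟩) (Box.of 4 (by decide +kernel))
    (by decide +kernel)

theorem t3k10_gE_r1 : NC (fE t3c10 t3e10 (1 - eh) eh ek (elo t3c10.B0 t3c10.Bh eh) (elo t3c10.D0 t3c10.Dh ek) (elo t3c10.E0 t3c10.Eh ek)) :=
  NC.of (K := 136) (D := ⟨13, 9, 1, 1⟩) (Box.of 4 (by decide +kernel))
    (by decide +kernel)

theorem t3k10_gE_r2 : NC (fE t3c10 t3e10 eh (1 - eh) ek (ehi t3c10.Bh t3c10.B1 (1 - eh)) (elo t3c10.D0 t3c10.Dh ek) (elo t3c10.E0 t3c10.Eh ek)) :=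
  NC.of (K := 137) (D := ⟨13, 9, 1, 1⟩) (Box.of 4 (by decide +kernel))
    (by decide +kernel)

theorem t3k10_gE_r3 : NC (fE t3c10 t3e10 (1 - eh) ek eh (elo t3c10.B0 t3c10.Bh ek) (elo t3c10.D0 t3c10.Dh eh) (elo t3c10.E0 t3c10.Eh eh)) :=
  NC.of (K := 156) (D := ⟨13, 7, 1, 1⟩) (Box.of 288 (by decide +kernel))
    (by decide +kernel)

theorem t3k10_gE_r4 : NC (fE t3c10 t3e10 eh ek (1 - eh) (elo t3c10.B0 t3c10.Bh ek) (ehi t3c10.Dh t3c10.D1 (1 - eh)) (ehi t3c10.Eh t3c10.E1 (1 - eh))) :=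
  NC.of (K := 135) (D := ⟨13, 7, 1, 1⟩) (Box.of 4 (by decide +kernel))
    (by decide +kernel)

theorem t3k10_B0 : NC (kB dW 1 0 t3c10.B0 (tcl t3c10)) :=
  NC.of (K := 104) (D := ⟨1, 1, 1, 9⟩) (Box.of 4 (by decide +kernel))
    (by decide +kernel)

theorem t3k10_E0 : NC (kE dW qW qW.p0 qW.q0 t3c10.E0 (tcl t3c10)) :=
  NC.of (K := 229) (D := ⟨1, 1, 1, 19⟩) (Box.of 4 (by decide +kernel))
    (by decide +kernel)

theorem t3k10_D0 : NC (kD dW qW 1 0 qW.p0 qW.q0 t3c10.D0 (tcl t3c10)) :=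
  NC.of (K := 347) (D := ⟨1, 1, 1, 20⟩) (Box.of 4 (by decide +kernel))
    (by decide +kernel)

theorem t3k10_Bh : NC (kB dW (1 / 2) (1 / 2) t3c10.Bh (tcl t3c10)) :=
  NC.of (K := 107) (D := ⟨1, 1, 1, 9⟩) (Box.of 4 (by decide +kernel))
    (by decide +kernel)

theorem t3k10_Eh : NC (kE dW qW qW.ph qW.qh t3c10.Eh (tcl t3c10)) :=
  NC.of (K := 233) (D := ⟨1, 1, 1, 19⟩) (Box.of 4 (by decide +kernel))
    (by decide +kernel)

theorem t3k10_Dh : NC (kD dW qW (1 / 2) (1 / 2) qW.ph qW.qh t3c10.Dh (tcl t3c10)) :=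
  NC.of (K := 351) (D := ⟨1, 1, 1, 20⟩) (Box.of 4 (by decide +kernel))
    (by decide +kernel)

theorem t3k10_B1 : NC (kB dW 0 (1 / 2) t3c10.B1 (tcl t3c10)) :=
  NC.of (K := 107) (D := ⟨1, 1, 1, 9⟩) (Box.of 4 (by decide +kernel))
    (by decide +kernel)

theorem t3k10_E1 : NC (kE dW qW qW.p1 qW.q1 t3c10.E1 (tcl t3c10)) :=
  NC.of (K := 233) (D := ⟨1, 1, 1, 19⟩) (Box.of 4 (by decide +kernel))
    (by decide +kernel)

theorem t3k10_D1 : NC (kD dW qW 0 (1 / 2) qW.p1 qW.q1 t3c10.D1 (tcl t3c10)) :=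
  NC.of (K := 351) (D := ⟨1, 1, 1, 20⟩) (Box.of 4 (by decide +kernel))
    (by decide +kernel)

theorem t3k10_l : NC (qc t3n10.lb - (1 - vX) * pe (exl t3c10.th) vX ^ 2) :=
  NC.of (K := 125) (D := ⟨10, 1, 1, 1⟩) (Box.of 4 (by decide +kernel))
    (by decide +kernel)

theorem t3k10_n : NC (qc t3n10.nb - vX * (1 - vX) * pe (exl t3c10.th) vX) :=
  NC.of (K := 116) (D := ⟨7, 1, 1, 1⟩) (Box.of 76677152 (by decide +kernel))
    (by decide +kernel)

theorem t3k10_rb : NC (krb t3n10 fW (t1v t3c10)) :=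
  NC.of (K := 190) (D := ⟨1, 1, 1, 16⟩) (Box.of 4 (by decide +kernel))
    (by decide +kernel)

theorem t3k10_kap : NC (kkap dW qW t3n10 (tcl t3c10)) :=
  NC.of (K := 104) (D := ⟨1, 1, 1, 9⟩) (Box.of 4 (by decide +kernel))
    (by decide +kernel)

theorem t3k10_wb2 : NC (qc t3n10.b2 - pe2 kW.QB (vZ * t1v t3c10) (t1v t3c10)) :=
  NC.of (K := 145) (D := ⟨1, 6, 1, 11⟩) (Box.of 291 (by decide +kernel))
    (by decide +kernel)

theorem t3k10_wmb : NC (qc t3n10.Mb - pe zW.mb (t1v t3c10)) :=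
  NC.of (K := 116) (D := ⟨1, 1, 1, 9⟩) (Box.of 291 (by decide +kernel))
    (by decide +kernel)

theorem t3k10_wth : NC (qc (t3c10.th / t3c10.t1) - pe2 zW.Qt (vZ * t1v t3c10) (t1v t3c10)) :=
  NC.of (K := 156) (D := ⟨1, 6, 1, 11⟩) (Box.of 291 (by decide +kernel))
    (by decide +kernel)

theorem t3k10_wyb : NC (qc t3n10.Yb - (t1v t3c10 - vZ * t1v t3c10) ^ 3 * pe2 yW.QY (vZ * t1v t3c10) (t1v t3c10)) :=
  NC.of (K := 133) (D := ⟨1, 8, 1, 12⟩) (Box.of 4 (by decide +kernel))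
    (by decide +kernel)

theorem t3k10_wmu : NC (qc t3m10 - pe t3al (tcl t3c10) * (1 + hlf * tcl t3c10)) :=
  NC.of (K := 99) (D := ⟨1, 1, 1, 9⟩) (Box.of 4 (by decide +kernel))
    (by decide +kernel)

theorem t3k10_wcj : NC (qc t3c10.C * ((6 - 3 * vX) * (1 - qc t3m10 * vX)) - (6 - 6 * vX + vX ^ 2)) :=
  NC.of (K := 34) (D := ⟨3, 1, 1, 1⟩) (Box.of 4 (by decide +kernel))
    (by decide +kernel)

theorem t3k10_nd1 : NC (pe t3r10.d1 (t1v t3c10)) :=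
  NC.of (K := 72) (D := ⟨1, 1, 1, 7⟩) (Box.of 4 (by decide +kernel))
    (by decide +kernel)

theorem t3k10_nd2 : NC (pe t3r10.d2 (t1v t3c10)) :=
  NC.of (K := 75) (D := ⟨1, 1, 1, 7⟩) (Box.of 4 (by decide +kernel))
    (by decide +kernel)

theorem t3k10_ndy : NC (pe t3r10.dy (t1v t3c10)) :=
  NC.of (K := 75) (D := ⟨1, 1, 1, 7⟩) (Box.of 4 (by decide +kernel))
    (by decide +kernel)

theorem t3k10_nt1 : NC (pe t3r10.t1 (t1v t3c10)) :=
  NC.of (K := 79) (D := ⟨1, 1, 1, 7⟩) (Box.of 4 (by decide +kernel))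
    (by decide +kernel)

theorem t3k10_nt2 : NC (pe t3r10.t2 (t1v t3c10)) :=
  NC.of (K := 77) (D := ⟨1, 1, 1, 7⟩) (Box.of 4 (by decide +kernel))
    (by decide +kernel)

theorem t3k10_nty : NC (pe t3r10.ty (t1v t3c10)) :=
  NC.of (K := 79) (D := ⟨1, 1, 1, 7⟩) (Box.of 4 (by decide +kernel))
    (by decide +kernel)

theorem t3k10_nhz : NC (pe t3r10.hz (t1v t3c10)) :=
  NC.of (K := 120) (D := ⟨1, 1, 1, 7⟩) (Box.of 1197795 (by decide +kernel))
    (by decide +kernel)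

theorem t3k10_xi : NC (eXi fW t3c10 t3e10 t3r10 (t1v t3c10)) :=
  NC.of (K := 313) (D := ⟨1, 1, 1, 22⟩) (Box.of 4 (by decide +kernel))
    (by decide +kernel)

theorem t3k10_om : NC (eOm fW t3r10 (t1v t3c10)) :=
  NC.of (K := 182) (D := ⟨1, 1, 1, 16⟩) (Box.of 4 (by decide +kernel))
    (by decide +kernel)

theorem t3k10_fin : NC (eFin dW t3c10 t3n10 t3r10 t3h10 (tcl t3c10)) :=
  NC.of (K := 233) (D := ⟨1, 1, 1, 14⟩) (Box.of 4 (by decide +kernel))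
    (by decide +kernel)

theorem t3k10_xdl : NC (qc t3e10.dl - pe t3d10.l.dl t3d10.eU) :=
  NC.of (K := 72) (D := ⟨1, 4, 1, 1⟩) (Box.of 4 (by decide +kernel))
    (by decide +kernel)

theorem t3k10_xeY : NC (qc t3e10.eY - pe (e4l t3d10.l.z) t3d10.eU) :=
  NC.of (K := 288) (D := ⟨1, 13, 1, 1⟩) (Box.of 4 (by decide +kernel))
    (by decide +kernel)

theorem t3k10_xgr : NC (qc t3d10.ga * ((1 + qc (3 / 5) * vX) * (1 + (t3d10.eg + hlf * t3d10.eg ^ 2))) + qc t3d10.gb - pe2 t3GR vX t3d10.eU) :=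
  NC.of (K := 239) (D := ⟨4, 11, 1, 1⟩) (Box.of 4 (by decide +kernel))
    (by decide +kernel)

theorem t3k10_xhr : NC (qc t3d10.hb - pe2 t3HR vX t3d10.eU) :=
  NC.of (K := 260) (D := ⟨3, 12, 1, 1⟩) (Box.of 4 (by decide +kernel))
    (by decide +kernel)

theorem t3k10_xgs : NC (pe t3d10.gs t3d10.e1 - qc (8 / 5) * pe (e4l (ladd t3d10.ls.z t3d10.ls.dl)) t3d10.e1) :=
  NC.of (K := 296) (D := ⟨1, 1, 1, 13⟩) (Box.of 4 (by decide +kernel))
    (by decide +kernel)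

theorem t3k10_xd1 : NC (pe t3d10.d1 t3d10.e1 - t3d10.eA t3d10.eU t3d10.e1) :=
  NC.of (K := 285) (D := ⟨1, 12, 1, 12⟩) (Box.of 4 (by decide +kernel))
    (by decide +kernel)

theorem t3k10_xd2 : NC (pe t3d10.d2 t3d10.e1 - t3d10.eB t3d10.eU t3d10.e1) :=
  NC.of (K := 308) (D := ⟨1, 12, 1, 12⟩) (Box.of 291 (by decide +kernel))
    (by decide +kernel)

theorem t3k10_xt1 : NC (pe t3d10.t1 t3d10.e1 - t3d10.eAT t3d10.eU t3d10.e1) :=
  NC.of (K := 501) (D := ⟨1, 19, 1, 19⟩) (Box.of 291 (by decide +kernel))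
    (by decide +kernel)

theorem t3k10_xt2 : NC (pe t3d10.t2 t3d10.e1 - t3d10.eBT t3d10.eU t3d10.e1) :=
  NC.of (K := 532) (D := ⟨1, 19, 1, 19⟩) (Box.of 18659 (by decide +kernel))
    (by decide +kernel)

theorem t3k10_xdy : NC (pe t3d10.dy t3d10.e1 - t3d10.eSD t3d10.eU t3d10.e1) :=
  NC.of (K := 438) (D := ⟨1, 18, 1, 12⟩) (Box.of 4 (by decide +kernel))
    (by decide +kernel)

theorem t3k10_xty : NC (pe t3d10.ty t3d10.e1 - t3d10.eST t3d10.eU t3d10.e1) :=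
  NC.of (K := 656) (D := ⟨1, 26, 1, 26⟩) (Box.of 4 (by decide +kernel))
    (by decide +kernel)

theorem t3k10_xd1s : NC (pe t3r10.d1 (t1v t3c10) - pe t3d10.d1 (Xcd.ew zW t3c10)) :=
  NC.of (K := 664) (D := ⟨1, 1, 1, 55⟩) (Box.of 4 (by decide +kernel))
    (by decide +kernel)

theorem t3k10_xd2s : NC (pe t3r10.d2 (t1v t3c10) - pe t3d10.d2 (Xcd.ew zW t3c10)) :=
  NC.of (K := 665) (D := ⟨1, 1, 1, 55⟩) (Box.of 4 (by decide +kernel))
    (by decide +kernel)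

theorem t3k10_xt1s : NC (pe t3r10.t1 (t1v t3c10) - pe t3d10.t1 (Xcd.ew zW t3c10)) :=
  NC.of (K := 674) (D := ⟨1, 1, 1, 55⟩) (Box.of 4 (by decide +kernel))
    (by decide +kernel)

theorem t3k10_xt2s : NC (pe t3r10.t2 (t1v t3c10) - pe t3d10.t2 (Xcd.ew zW t3c10)) :=
  NC.of (K := 668) (D := ⟨1, 1, 1, 55⟩) (Box.of 4 (by decide +kernel))
    (by decide +kernel)

theorem t3k10_xdys : NC (pe t3r10.dy (t1v t3c10) - pe t3d10.dy (Xcd.ew zW t3c10)) :=
  NC.of (K := 666) (D := ⟨1, 1, 1, 55⟩) (Box.of 4 (by decide +kernel))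
    (by decide +kernel)

theorem t3k10_xtys : NC (pe t3r10.ty (t1v t3c10) - pe t3d10.ty (Xcd.ew zW t3c10)) :=
  NC.of (K := 670) (D := ⟨1, 1, 1, 55⟩) (Box.of 4 (by decide +kernel))
    (by decide +kernel)

theorem t3k10_xhz : NC (pe t3r10.hz (t1v t3c10) - pe t3d10.c.dR (Xcd.ew zW t3c10)) :=
  NC.of (K := 679) (D := ⟨1, 1, 1, 55⟩) (Box.of 4 (by decide +kernel))
    (by decide +kernel)

theorem t3f10_ok : t3f10.ok V2L.y4 V2L.k4 V2L.nb V2L.la (10 ^ 30) 32 = true := by decide +kernel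

theorem t3k10_sg : t3c10.Sg := by
  constructor <;> decide +kernel

theorem t3k10_rgs : t3c10.Rgs where
  M := ⟨t3k10_M_r1, t3k10_M_r2, t3k10_M_r3, t3k10_M_r4⟩
  r0 := ⟨t3k10_r0_r1, t3k10_r0_r2, t3k10_r0_r3, t3k10_r0_r4⟩
  r1 := ⟨t3k10_r1_r1, t3k10_r1_r2, t3k10_r1_r3, t3k10_r1_r4⟩
  r2 := ⟨t3k10_r2_r1, t3k10_r2_r2, t3k10_r2_r3, t3k10_r2_r4⟩
  rc := ⟨t3k10_rc_r1, t3k10_rc_r2, t3k10_rc_r3, t3k10_rc_r4⟩
  rI := ⟨t3k10_rI_r1, t3k10_rI_r2, t3k10_rI_r3, t3k10_rI_r4⟩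
  rJ := ⟨t3k10_rJ_r1, t3k10_rJ_r2, t3k10_rJ_r3, t3k10_rJ_r4⟩

theorem t3k10_xn : t3e10.Ok t3c10 where
  lm := by decide +kernel
  dl0 := by decide +kernel
  dl1 := by decide +kernel
  e2 := by decide +kernel
  eY := by decide +kernel
  gE := ⟨t3k10_gE_r1, t3k10_gE_r2, t3k10_gE_r3, t3k10_gE_r4⟩

theorem t3k10_vl : t3c10.Vl dW qW where
  bt := by decide +kernel
  B0 := t3k10_B0
  E0 := t3k10_E0
  D0 := t3k10_D0
  Bh := t3k10_Bh
  Eh := t3k10_Eh
  Dh := t3k10_Dh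
  B1 := t3k10_B1
  E1 := t3k10_E1
  D1 := t3k10_D1

theorem t3k10_rat : t3n10.Rat t3c10 := by
  constructor <;> decide +kernel

theorem t3k10_ck : t3n10.Ck t3c10 := ⟨t3k10_l, t3k10_n⟩

theorem t3k10_fck : t3n10.Fck dW qW fW t3c10 := ⟨t3k10_rb, t3k10_kap⟩

theorem t3k10_w : Wcl zW kW yW t3al t3c10 t3n10 t3m10 where
  b2 := t3k10_wb2
  mb := t3k10_wmb
  th := t3k10_wth
  yb := t3k10_wyb
  mu := t3k10_wmu
  cj := t3k10_wcj
  mt1 := by decide +kernel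
  mt2 := by decide +kernel

theorem t3k10_ok : CelOk dW qW fW t3c10 t3n10 where
  s := t3k10_sg
  r := t3k10_rgs
  v := t3k10_vl
  rt := t3k10_rat
  k := t3k10_ck
  fc := t3k10_fck
  q01 := by decide +kernel
  q12 := by decide +kernel
  h2 := by decide +kernel

theorem t3k10_xr : t3r10.Ok fW t3c10 t3e10 where
  sD := by decide +kernel
  sT := by decide +kernel
  nd1 := t3k10_nd1
  nd2 := t3k10_nd2
  ndy := t3k10_ndy
  nt1 := t3k10_nt1
  nt2 := t3k10_nt2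
  nty := t3k10_nty
  nhz := t3k10_nhz
  xi := t3k10_xi
  om := t3k10_om

theorem t3k10_X : t3d10.Ck t3GR t3HR zW t3c10 t3e10 t3r10 where
  u0 := by decide +kernel
  u01 := by decide +kernel
  ul := by decide +kernel
  us := by decide +kernel
  uc := by decide +kernel
  ga0 := by decide +kernel
  kp0 := by decide +kernel
  lm := by decide +kernel
  dl := t3k10_xdl
  eY := t3k10_xeY
  gr := t3k10_xgr
  hr := t3k10_xhr
  gs := t3k10_xgs
  d1 := t3k10_xd1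
  d2 := t3k10_xd2
  t1 := t3k10_xt1
  t2 := t3k10_xt2
  dy := t3k10_xdy
  ty := t3k10_xty
  d1s := t3k10_xd1s
  d2s := t3k10_xd2s
  t1s := t3k10_xt1s
  t2s := t3k10_xt2s
  dys := t3k10_xdys
  tys := t3k10_xtys
  hz := t3k10_xhz

end Pool.Agent.RX.RCN.K
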