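import Pool.Agent.RX.RCN.T3D
import Pool.Agent.RX.RCN.T3Wq
import Pool.Agent.RX.RCN.T3X4
import Pool.Agent.RX.RCN.VLd

/-! Certificates (generated). -/

set_option autoImplicit false

namespace Pool.Agent.RX.RCN.K

open Set Pool.Agent.RX.RCM9 Pool.Agent.RX.RCM9.Bern Pool.Agent.RX.RCM9.Pk Xce

def t3c11 : Cel where
  t0 := 39 / 125
  t1 := 13 / 40
  C := 4097 / 4096
  th := 1337 / 4096
  B0 := 2227 / 2048
  Bh := 71 / 64
  B1 := 1093 / 1024
  D0 := 275 / 1024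
  Dh := 833 / 4096
  D1 := 791 / 4096
  E0 := 9291 / 4194304
  Eh := 7307 / 4194304
  E1 := 867 / 524288
  Q0 := 279 / 256
  Q1 := 279 / 256
  Q2 := 279 / 256
  Ac := 279 / 256
  gI := 279 / 256
  J := 5519 / 2097152

def t3n11 : Chn where
  lb := 513 / 512
  nb := 19 / 64
  Mb := 1029 / 1024
  b2 := 65 / 64
  Yb := 17 / 4096
  E2 := 4131 / 4096
  e1 := 1217 / 1024
  Z1 := 569 / 512
  Z2 := 155 / 256
  KB := 1049 / 1024
  cb := 33 / 32
  rb := 305 / 1024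
  om := 263 / 256
  fb := 129 / 128
  kap := 2065 / 2048
  ab := 1029 / 1024

def t3e11 : Xge where
  lm := 3 / 5
  dl := 659 / 2048
  e2 := 949 / 16384
  eY := 4115 / 4096
  gE := 1125 / 1024

def t3r11 : Xr where
  d1 := [870831 / 100000000, 82733 / 100000000, 457947 / 50000000, 2200387 / 100000000, 99757 /
    100000000, 1666989 / 50000000, 1197843 / 50000000]
  d2 := [1021 / 25000000, 218487 / 50000000, 4578221 / 100000000, 5360567 / 20000000, -211372549 /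
    100000000, 746023807 / 100000000, -113333111 / 12500000]
  dy := [4697409 / 100000000, 544077 / 50000000, 10878911 / 100000000, 5648139 / 20000000,
    -13722121 / 20000000, 93266229 / 100000000, -6732169 / 12500000]
  t1 := [1764669 / 25000000, -36038461 / 100000000, 59051 / 80000, -49170657 / 12500000,
    2608311527 / 100000000, -1501688739 / 20000000, 2034906501 / 25000000]
  t2 := [1104129 / 100000000, -1451607 / 25000000, 2550491 / 100000000, 33753427 / 25000000,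
    -639210289 / 100000000, 734341173 / 50000000, -1257702529 / 100000000]
  ty := [15847369 / 50000000, -3031719 / 1562500, 431689877 / 100000000, -8849773 / 6250000,
    -257863637 / 100000000, -25825007 / 25000000, 506260819 / 100000000]
  hz := [3797649 / 50000000, -987573 / 4000000, 48070081 / 50000000, -8778111889 / 100000000,
    80421227523 / 100000000, -129965062857 / 50000000, 14311571333 / 5000000]
  om := [100396699 / 100000000, 102084489 / 100000000, -343457031 / 25000000, 323828791 / 6250000,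
    -9133686923 / 100000000, 3849021061 / 100000000, 14565532127 / 50000000, -39725863931 /
    50000000, 13322980367 / 20000000]
  sD := 493 / 256
  sT := 441 / 256
  xi := [1125187 / 50000000, 27087633 / 100000000, -150798737 / 100000000, 16454443 / 4000000,
    -10963570431 / 100000000, 52918739833 / 50000000, -195642037971 / 50000000, 605877139529 /
    100000000, -326042733657 / 100000000, 6568357393 / 10000000]

def t3f11 : Dl where
  Ca := 3129713 / 10000000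
  Cv := 65203 / 200000
  k1 := 1208091 / 1250000
  ks := 59563 / 62500
  dd := 0
  kp := 1 / 625000
  e := [19999993999 / 20000000000, -625139797119 / 500000000000, 77064339857 / 62500000000,
    -267441869717 / 250000000000, 8932635899 / 10000000000, -706540354629 / 1000000000000,
    516192424029 / 1000000000000, -62317714759 / 200000000000, 110159537697 / 1000000000000]
  j1 := [-3076289 / 1000000000, -2075342063 / 200000000, 92149730667 / 1000000000, -195101935223 /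
    500000000, 963286169029 / 1000000000, -1432932947387 / 1000000000, 625520857023 / 500000000,
    -26505870813 / 50000000]
  nu := [48129617 / 1000000000, -177298889 / 1000000000, 385814809 / 1000000000, 58889613 /
    250000000, -356296859 / 200000000, 423065069 / 62500000, -8435784987 / 1000000000]
  k2 := [953009793 / 1000000000, 5280193 / 31250000, -176229579 / 500000000, -295141963 /
    1000000000, 360304357 / 200000000, -6582398607 / 1000000000, 8235764539 / 1000000000]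
  dR := [1516011 / 20000000, -6150789 / 25000000, 9523983 / 10000000, -8693785247 / 100000000,
    79416564183 / 100000000, -127952161379 / 50000000, 140467397547 / 50000000]

def t3d11 : Xce where
  u0 := 4898 / 15625
  u1 := 65203 / 200000
  l := V2L.y4
  y := t3z4
  j := t3j4
  i := t3i4
  ls := t3y4
  k := V2L.k4
  c := t3f11
  ga := 2173 / 250000
  gb := -253 / 125000
  hb := 17123 / 500000
  gs := [80001303 / 50000000, 14999999 / 6250000, 180000753 / 100000000, 39793249 / 50000000,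
    26701681 / 100000000, -12184423 / 100000000, -6020293 / 100000000]
  d1 := [435143 / 50000000, 82319 / 100000000, 183279 / 20000000, 2094689 / 100000000, 314871 /
    50000000, 360481 / 20000000, 3847451 / 100000000]
  d2 := [917 / 25000000, 43501 / 10000000, 571697 / 12500000, 26229931 / 100000000, -41349539 /
    20000000, 728889651 / 100000000, -442088227 / 50000000]
  dy := [4694069 / 100000000, 54169 / 5000000, 10865969 / 100000000, 6808643 / 25000000, -63130057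
    / 100000000, 78835729 / 100000000, -39594197 / 100000000]
  t1 := [3527553 / 50000000, -17960841 / 50000000, 36594619 / 50000000, -193928539 / 50000000,
    641607291 / 25000000, -7368700783 / 100000000, 1991616821 / 25000000]
  t2 := [1103571 / 100000000, -5788007 / 100000000, 63033 / 2500000, 133882529 / 100000000,
    -631785737 / 100000000, 1446956071 / 100000000, -617646383 / 50000000]
  ty := [3167871 / 10000000, -193405773 / 100000000, 428296349 / 100000000, -66362623 / 50000000,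
    -72781401 / 25000000, -2291077 / 12500000, 84743771 / 20000000]

def t3m11 : ℚ := 83 / 256

def t3h11 : ℚ := 123 / 250

theorem t3k11_M_r1 : NC (fM t3c11 (1 - eh) eh ek (elo t3c11.B0 t3c11.Bh eh) (elo t3c11.D0 t3c11.Dh ek) (elo t3c11.E0 t3c11.Eh ek)) :=
  NC.of (K := 33) (D := ⟨4, 3, 1, 1⟩) (Box.of 4 (by decide +kernel))
    (by decide +kernel)

theorem t3k11_M_r2 : NC (fM t3c11 eh (1 - eh) ek (ehi t3c11.Bh t3c11.B1 (1 - eh)) (elo t3c11.D0 t3c11.Dh ek) (elo t3c11.E0 t3c11.Eh ek)) :=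
  NC.of (K := 33) (D := ⟨4, 3, 1, 1⟩) (Box.of 4 (by decide +kernel))
    (by decide +kernel)

theorem t3k11_M_r3 : NC (fM t3c11 (1 - eh) ek eh (elo t3c11.B0 t3c11.Bh ek) (elo t3c11.D0 t3c11.Dh eh) (elo t3c11.E0 t3c11.Eh eh)) :=
  NC.of (K := 31) (D := ⟨4, 2, 1, 1⟩) (Box.of 4 (by decide +kernel))
    (by decide +kernel)

theorem t3k11_M_r4 : NC (fM t3c11 eh ek (1 - eh) (elo t3c11.B0 t3c11.Bh ek) (ehi t3c11.Dh t3c11.D1 (1 - eh)) (ehi t3c11.Eh t3c11.E1 (1 - eh))) :=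
  NC.of (K := 31) (D := ⟨4, 2, 1, 1⟩) (Box.of 4 (by decide +kernel))
    (by decide +kernel)

theorem t3k11_r0_r1 : NC (f0 t3c11 (1 - eh) eh ek (elo t3c11.B0 t3c11.Bh eh) (elo t3c11.D0 t3c11.Dh ek) (elo t3c11.E0 t3c11.Eh ek)) :=
  NC.of (K := 143) (D := ⟨13, 9, 1, 1⟩) (Box.of 4 (by decide +kernel))
    (by decide +kernel)

theorem t3k11_r0_r2 : NC (f0 t3c11 eh (1 - eh) ek (ehi t3c11.Bh t3c11.B1 (1 - eh)) (elo t3c11.D0 t3c11.Dh ek) (elo t3c11.E0 t3c11.Eh ek)) :=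
  NC.of (K := 144) (D := ⟨13, 9, 1, 1⟩) (Box.of 4 (by decide +kernel))
    (by decide +kernel)

theorem t3k11_r0_r3 : NC (f0 t3c11 (1 - eh) ek eh (elo t3c11.B0 t3c11.Bh ek) (elo t3c11.D0 t3c11.Dh eh) (elo t3c11.E0 t3c11.Eh eh)) :=
  NC.of (K := 139) (D := ⟨13, 5, 1, 1⟩) (Box.of 4 (by decide +kernel))
    (by decide +kernel)

theorem t3k11_r0_r4 : NC (f0 t3c11 eh ek (1 - eh) (elo t3c11.B0 t3c11.Bh ek) (ehi t3c11.Dh t3c11.D1 (1 - eh)) (ehi t3c11.Eh t3c11.E1 (1 - eh))) :=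
  NC.of (K := 135) (D := ⟨13, 5, 1, 1⟩) (Box.of 4 (by decide +kernel))
    (by decide +kernel)

theorem t3k11_r1_r1 : NC (f1 t3c11 (1 - eh) eh ek (elo t3c11.B0 t3c11.Bh eh) (elo t3c11.D0 t3c11.Dh ek) (elo t3c11.E0 t3c11.Eh ek)) :=
  NC.of (K := 229) (D := ⟨16, 9, 1, 1⟩) (Box.of 4 (by decide +kernel))
    (by decide +kernel)

theorem t3k11_r1_r2 : NC (f1 t3c11 eh (1 - eh) ek (ehi t3c11.Bh t3c11.B1 (1 - eh)) (elo t3c11.D0 t3c11.Dh ek) (elo t3c11.E0 t3c11.Eh ek)) :=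
  NC.of (K := 228) (D := ⟨16, 9, 1, 1⟩) (Box.of 4 (by decide +kernel))
    (by decide +kernel)

theorem t3k11_r1_r3 : NC (f1 t3c11 (1 - eh) ek eh (elo t3c11.B0 t3c11.Bh ek) (elo t3c11.D0 t3c11.Dh eh) (elo t3c11.E0 t3c11.Eh eh)) :=
  NC.of (K := 233) (D := ⟨16, 12, 1, 1⟩) (Box.of 4 (by decide +kernel))
    (by decide +kernel)

theorem t3k11_r1_r4 : NC (f1 t3c11 eh ek (1 - eh) (elo t3c11.B0 t3c11.Bh ek) (ehi t3c11.Dh t3c11.D1 (1 - eh)) (ehi t3c11.Eh t3c11.E1 (1 - eh))) :=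
  NC.of (K := 233) (D := ⟨16, 12, 1, 1⟩) (Box.of 4 (by decide +kernel))
    (by decide +kernel)

theorem t3k11_r2_r1 : NC (f2 t3c11 (1 - eh) eh ek (elo t3c11.B0 t3c11.Bh eh) (elo t3c11.D0 t3c11.Dh ek) (elo t3c11.E0 t3c11.Eh ek)) :=
  NC.of (K := 232) (D := ⟨16, 11, 1, 1⟩) (Box.of 4 (by decide +kernel))
    (by decide +kernel)

theorem t3k11_r2_r2 : NC (f2 t3c11 eh (1 - eh) ek (ehi t3c11.Bh t3c11.B1 (1 - eh)) (elo t3c11.D0 t3c11.Dh ek) (elo t3c11.E0 t3c11.Eh ek)) :=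
  NC.of (K := 231) (D := ⟨16, 11, 1, 1⟩) (Box.of 4 (by decide +kernel))
    (by decide +kernel)

theorem t3k11_r2_r3 : NC (f2 t3c11 (1 - eh) ek eh (elo t3c11.B0 t3c11.Bh ek) (elo t3c11.D0 t3c11.Dh eh) (elo t3c11.E0 t3c11.Eh eh)) :=
  NC.of (K := 233) (D := ⟨16, 12, 1, 1⟩) (Box.of 4 (by decide +kernel))
    (by decide +kernel)

theorem t3k11_r2_r4 : NC (f2 t3c11 eh ek (1 - eh) (elo t3c11.B0 t3c11.Bh ek) (ehi t3c11.Dh t3c11.D1 (1 - eh)) (ehi t3c11.Eh t3c11.E1 (1 - eh))) :=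
  NC.of (K := 235) (D := ⟨16, 12, 1, 1⟩) (Box.of 4 (by decide +kernel))
    (by decide +kernel)

theorem t3k11_rc_r1 : NC (fc t3c11 (1 - eh) eh ek (elo t3c11.B0 t3c11.Bh eh) (elo t3c11.D0 t3c11.Dh ek) (elo t3c11.E0 t3c11.Eh ek)) :=
  NC.of (K := 143) (D := ⟨13, 9, 1, 1⟩) (Box.of 4 (by decide +kernel))
    (by decide +kernel)

theorem t3k11_rc_r2 : NC (fc t3c11 eh (1 - eh) ek (ehi t3c11.Bh t3c11.B1 (1 - eh)) (elo t3c11.D0 t3c11.Dh ek) (elo t3c11.E0 t3c11.Eh ek)) :=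
  NC.of (K := 143) (D := ⟨13, 9, 1, 1⟩) (Box.of 4 (by decide +kernel))
    (by decide +kernel)

theorem t3k11_rc_r3 : NC (fc t3c11 (1 - eh) ek eh (elo t3c11.B0 t3c11.Bh ek) (elo t3c11.D0 t3c11.Dh eh) (elo t3c11.E0 t3c11.Eh eh)) :=
  NC.of (K := 138) (D := ⟨13, 5, 1, 1⟩) (Box.of 4 (by decide +kernel))
    (by decide +kernel)

theorem t3k11_rc_r4 : NC (fc t3c11 eh ek (1 - eh) (elo t3c11.B0 t3c11.Bh ek) (ehi t3c11.Dh t3c11.D1 (1 - eh)) (ehi t3c11.Eh t3c11.E1 (1 - eh))) :=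
  NC.of (K := 135) (D := ⟨13, 5, 1, 1⟩) (Box.of 4 (by decide +kernel))
    (by decide +kernel)

theorem t3k11_rI_r1 : NC (fI t3c11 (1 - eh) eh ek (elo t3c11.B0 t3c11.Bh eh) (elo t3c11.D0 t3c11.Dh ek) (elo t3c11.E0 t3c11.Eh ek)) :=
  NC.of (K := 128) (D := ⟨13, 9, 1, 1⟩) (Box.of 4 (by decide +kernel))
    (by decide +kernel)

theorem t3k11_rI_r2 : NC (fI t3c11 eh (1 - eh) ek (ehi t3c11.Bh t3c11.B1 (1 - eh)) (elo t3c11.D0 t3c11.Dh ek) (elo t3c11.E0 t3c11.Eh ek)) :=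
  NC.of (K := 129) (D := ⟨13, 9, 1, 1⟩) (Box.of 4 (by decide +kernel))
    (by decide +kernel)

theorem t3k11_rI_r3 : NC (fI t3c11 (1 - eh) ek eh (elo t3c11.B0 t3c11.Bh ek) (elo t3c11.D0 t3c11.Dh eh) (elo t3c11.E0 t3c11.Eh eh)) :=
  NC.of (K := 124) (D := ⟨13, 5, 1, 1⟩) (Box.of 4 (by decide +kernel))
    (by decide +kernel)

theorem t3k11_rI_r4 : NC (fI t3c11 eh ek (1 - eh) (elo t3c11.B0 t3c11.Bh ek) (ehi t3c11.Dh t3c11.D1 (1 - eh)) (ehi t3c11.Eh t3c11.E1 (1 - eh))) :=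
  NC.of (K := 121) (D := ⟨13, 5, 1, 1⟩) (Box.of 4 (by decide +kernel))
    (by decide +kernel)

theorem t3k11_rJ_r1 : NC (fJ t3c11 (1 - eh) eh ek (elo t3c11.B0 t3c11.Bh eh) (elo t3c11.D0 t3c11.Dh ek) (elo t3c11.E0 t3c11.Eh ek)) :=
  NC.of (K := 96) (D := ⟨7, 5, 1, 1⟩) (Box.of 18529 (by decide +kernel))
    (by decide +kernel)

theorem t3k11_rJ_r2 : NC (fJ t3c11 eh (1 - eh) ek (ehi t3c11.Bh t3c11.B1 (1 - eh)) (elo t3c11.D0 t3c11.Dh ek) (elo t3c11.E0 t3c11.Eh ek)) :=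
  NC.of (K := 96) (D := ⟨7, 5, 1, 1⟩) (Box.of 18529 (by decide +kernel))
    (by decide +kernel)

theorem t3k11_rJ_r3 : NC (fJ t3c11 (1 - eh) ek eh (elo t3c11.B0 t3c11.Bh ek) (elo t3c11.D0 t3c11.Dh eh) (elo t3c11.E0 t3c11.Eh eh)) :=
  NC.of (K := 76) (D := ⟨7, 3, 1, 1⟩) (Box.of 4 (by decide +kernel))
    (by decide +kernel)

theorem t3k11_rJ_r4 : NC (fJ t3c11 eh ek (1 - eh) (elo t3c11.B0 t3c11.Bh ek) (ehi t3c11.Dh t3c11.D1 (1 - eh)) (ehi t3c11.Eh t3c11.E1 (1 - eh))) :=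
  NC.of (K := 74) (D := ⟨7, 3, 1, 1⟩) (Box.of 4 (by decide +kernel))
    (by decide +kernel)

theorem t3k11_gE_r1 : NC (fE t3c11 t3e11 (1 - eh) eh ek (elo t3c11.B0 t3c11.Bh eh) (elo t3c11.D0 t3c11.Dh ek) (elo t3c11.E0 t3c11.Eh ek)) :=
  NC.of (K := 133) (D := ⟨13, 9, 1, 1⟩) (Box.of 4 (by decide +kernel))
    (by decide +kernel)

theorem t3k11_gE_r2 : NC (fE t3c11 t3e11 eh (1 - eh) ek (ehi t3c11.Bh t3c11.B1 (1 - eh)) (elo t3c11.D0 t3c11.Dh ek) (elo t3c11.E0 t3c11.Eh ek)) :=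
  NC.of (K := 135) (D := ⟨13, 9, 1, 1⟩) (Box.of 4 (by decide +kernel))
    (by decide +kernel)

theorem t3k11_gE_r3 : NC (fE t3c11 t3e11 (1 - eh) ek eh (elo t3c11.B0 t3c11.Bh ek) (elo t3c11.D0 t3c11.Dh eh) (elo t3c11.E0 t3c11.Eh eh)) :=
  NC.of (K := 154) (D := ⟨13, 7, 1, 1⟩) (Box.of 288 (by decide +kernel))
    (by decide +kernel)

theorem t3k11_gE_r4 : NC (fE t3c11 t3e11 eh ek (1 - eh) (elo t3c11.B0 t3c11.Bh ek) (ehi t3c11.Dh t3c11.D1 (1 - eh)) (ehi t3c11.Eh t3c11.E1 (1 - eh))) :=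
  NC.of (K := 129) (D := ⟨13, 7, 1, 1⟩) (Box.of 4 (by decide +kernel))
    (by decide +kernel)

theorem t3k11_B0 : NC (kB dW 1 0 t3c11.B0 (tcl t3c11)) :=
  NC.of (K := 119) (D := ⟨1, 1, 1, 9⟩) (Box.of 4 (by decide +kernel))
    (by decide +kernel)

theorem t3k11_E0 : NC (kE dW qW qW.p0 qW.q0 t3c11.E0 (tcl t3c11)) :=
  NC.of (K := 265) (D := ⟨1, 1, 1, 19⟩) (Box.of 4 (by decide +kernel))
    (by decide +kernel)

theorem t3k11_D0 : NC (kD dW qW 1 0 qW.p0 qW.q0 t3c11.D0 (tcl t3c11)) :=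
  NC.of (K := 385) (D := ⟨1, 1, 1, 20⟩) (Box.of 4 (by decide +kernel))
    (by decide +kernel)

theorem t3k11_Bh : NC (kB dW (1 / 2) (1 / 2) t3c11.Bh (tcl t3c11)) :=
  NC.of (K := 122) (D := ⟨1, 1, 1, 9⟩) (Box.of 4 (by decide +kernel))
    (by decide +kernel)

theorem t3k11_Eh : NC (kE dW qW qW.ph qW.qh t3c11.Eh (tcl t3c11)) :=
  NC.of (K := 269) (D := ⟨1, 1, 1, 19⟩) (Box.of 4 (by decide +kernel))
    (by decide +kernel)

theorem t3k11_Dh : NC (kD dW qW (1 / 2) (1 / 2) qW.ph qW.qh t3c11.Dh (tcl t3c11)) :=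
  NC.of (K := 389) (D := ⟨1, 1, 1, 20⟩) (Box.of 4 (by decide +kernel))
    (by decide +kernel)

theorem t3k11_B1 : NC (kB dW 0 (1 / 2) t3c11.B1 (tcl t3c11)) :=
  NC.of (K := 122) (D := ⟨1, 1, 1, 9⟩) (Box.of 4 (by decide +kernel))
    (by decide +kernel)

theorem t3k11_E1 : NC (kE dW qW qW.p1 qW.q1 t3c11.E1 (tcl t3c11)) :=
  NC.of (K := 269) (D := ⟨1, 1, 1, 19⟩) (Box.of 4 (by decide +kernel))
    (by decide +kernel)

theorem t3k11_D1 : NC (kD dW qW 0 (1 / 2) qW.p1 qW.q1 t3c11.D1 (tcl t3c11)) :=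
  NC.of (K := 389) (D := ⟨1, 1, 1, 20⟩) (Box.of 4 (by decide +kernel))
    (by decide +kernel)

theorem t3k11_l : NC (qc t3n11.lb - (1 - vX) * pe (exl t3c11.th) vX ^ 2) :=
  NC.of (K := 125) (D := ⟨10, 1, 1, 1⟩) (Box.of 4 (by decide +kernel))
    (by decide +kernel)

theorem t3k11_n : NC (qc t3n11.nb - vX * (1 - vX) * pe (exl t3c11.th) vX) :=
  NC.of (K := 116) (D := ⟨7, 1, 1, 1⟩) (Box.of 76677152 (by decide +kernel))
    (by decide +kernel)

theorem t3k11_rb : NC (krb t3n11 fW (t1v t3c11)) :=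
  NC.of (K := 163) (D := ⟨1, 1, 1, 16⟩) (Box.of 4 (by decide +kernel))
    (by decide +kernel)

theorem t3k11_kap : NC (kkap dW qW t3n11 (tcl t3c11)) :=
  NC.of (K := 120) (D := ⟨1, 1, 1, 9⟩) (Box.of 4 (by decide +kernel))
    (by decide +kernel)

theorem t3k11_wb2 : NC (qc t3n11.b2 - pe2 kW.QB (vZ * t1v t3c11) (t1v t3c11)) :=
  NC.of (K := 129) (D := ⟨1, 6, 1, 11⟩) (Box.of 291 (by decide +kernel))
    (by decide +kernel)

theorem t3k11_wmb : NC (qc t3n11.Mb - pe zW.mb (t1v t3c11)) :=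
  NC.of (K := 102) (D := ⟨1, 1, 1, 9⟩) (Box.of 291 (by decide +kernel))
    (by decide +kernel)

theorem t3k11_wth : NC (qc (t3c11.th / t3c11.t1) - pe2 zW.Qt (vZ * t1v t3c11) (t1v t3c11)) :=
  NC.of (K := 132) (D := ⟨1, 6, 1, 11⟩) (Box.of 291 (by decide +kernel))
    (by decide +kernel)

theorem t3k11_wyb : NC (qc t3n11.Yb - (t1v t3c11 - vZ * t1v t3c11) ^ 3 * pe2 yW.QY (vZ * t1v t3c11) (t1v t3c11)) :=
  NC.of (K := 112) (D := ⟨1, 8, 1, 12⟩) (Box.of 4 (by decide +kernel))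
    (by decide +kernel)

theorem t3k11_wmu : NC (qc t3m11 - pe t3al (tcl t3c11) * (1 + hlf * tcl t3c11)) :=
  NC.of (K := 115) (D := ⟨1, 1, 1, 9⟩) (Box.of 4 (by decide +kernel))
    (by decide +kernel)

theorem t3k11_wcj : NC (qc t3c11.C * ((6 - 3 * vX) * (1 - qc t3m11 * vX)) - (6 - 6 * vX + vX ^ 2)) :=
  NC.of (K := 30) (D := ⟨3, 1, 1, 1⟩) (Box.of 4 (by decide +kernel))
    (by decide +kernel)

theorem t3k11_nd1 : NC (pe t3r11.d1 (t1v t3c11)) :=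
  NC.of (K := 61) (D := ⟨1, 1, 1, 7⟩) (Box.of 4 (by decide +kernel))
    (by decide +kernel)

theorem t3k11_nd2 : NC (pe t3r11.d2 (t1v t3c11)) :=
  NC.of (K := 62) (D := ⟨1, 1, 1, 7⟩) (Box.of 4 (by decide +kernel))
    (by decide +kernel)

theorem t3k11_ndy : NC (pe t3r11.dy (t1v t3c11)) :=
  NC.of (K := 62) (D := ⟨1, 1, 1, 7⟩) (Box.of 4 (by decide +kernel))
    (by decide +kernel)

theorem t3k11_nt1 : NC (pe t3r11.t1 (t1v t3c11)) :=
  NC.of (K := 67) (D := ⟨1, 1, 1, 7⟩) (Box.of 4 (by decide +kernel))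
    (by decide +kernel)

theorem t3k11_nt2 : NC (pe t3r11.t2 (t1v t3c11)) :=
  NC.of (K := 67) (D := ⟨1, 1, 1, 7⟩) (Box.of 4 (by decide +kernel))
    (by decide +kernel)

theorem t3k11_nty : NC (pe t3r11.ty (t1v t3c11)) :=
  NC.of (K := 69) (D := ⟨1, 1, 1, 7⟩) (Box.of 4 (by decide +kernel))
    (by decide +kernel)

theorem t3k11_nhz : NC (pe t3r11.hz (t1v t3c11)) :=
  NC.of (K := 106) (D := ⟨1, 1, 1, 7⟩) (Box.of 1197795 (by decide +kernel))
    (by decide +kernel)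

theorem t3k11_xi : NC (eXi fW t3c11 t3e11 t3r11 (t1v t3c11)) :=
  NC.of (K := 280) (D := ⟨1, 1, 1, 22⟩) (Box.of 4 (by decide +kernel))
    (by decide +kernel)

theorem t3k11_om : NC (eOm fW t3r11 (t1v t3c11)) :=
  NC.of (K := 154) (D := ⟨1, 1, 1, 16⟩) (Box.of 4 (by decide +kernel))
    (by decide +kernel)

theorem t3k11_fin : NC (eFin dW t3c11 t3n11 t3r11 t3h11 (tcl t3c11)) :=
  NC.of (K := 253) (D := ⟨1, 1, 1, 14⟩) (Box.of 4 (by decide +kernel))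
    (by decide +kernel)

theorem t3k11_xdl : NC (qc t3e11.dl - pe t3d11.l.dl t3d11.eU) :=
  NC.of (K := 72) (D := ⟨1, 4, 1, 1⟩) (Box.of 4 (by decide +kernel))
    (by decide +kernel)

theorem t3k11_xeY : NC (qc t3e11.eY - pe (e4l t3d11.l.z) t3d11.eU) :=
  NC.of (K := 288) (D := ⟨1, 13, 1, 1⟩) (Box.of 4 (by decide +kernel))
    (by decide +kernel)

theorem t3k11_xgr : NC (qc t3d11.ga * ((1 + qc (3 / 5) * vX) * (1 + (t3d11.eg + hlf * t3d11.eg ^ 2))) + qc t3d11.gb - pe2 t3GR vX t3d11.eU) :=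
  NC.of (K := 240) (D := ⟨4, 11, 1, 1⟩) (Box.of 4 (by decide +kernel))
    (by decide +kernel)

theorem t3k11_xhr : NC (qc t3d11.hb - pe2 t3HR vX t3d11.eU) :=
  NC.of (K := 261) (D := ⟨3, 12, 1, 1⟩) (Box.of 4 (by decide +kernel))
    (by decide +kernel)

theorem t3k11_xgs : NC (pe t3d11.gs t3d11.e1 - qc (8 / 5) * pe (e4l (ladd t3d11.ls.z t3d11.ls.dl)) t3d11.e1) :=
  NC.of (K := 268) (D := ⟨1, 1, 1, 13⟩) (Box.of 4 (by decide +kernel))
    (by decide +kernel)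

theorem t3k11_xd1 : NC (pe t3d11.d1 t3d11.e1 - t3d11.eA t3d11.eU t3d11.e1) :=
  NC.of (K := 285) (D := ⟨1, 12, 1, 12⟩) (Box.of 4 (by decide +kernel))
    (by decide +kernel)

theorem t3k11_xd2 : NC (pe t3d11.d2 t3d11.e1 - t3d11.eB t3d11.eU t3d11.e1) :=
  NC.of (K := 329) (D := ⟨1, 12, 1, 12⟩) (Box.of 18659 (by decide +kernel))
    (by decide +kernel)

theorem t3k11_xt1 : NC (pe t3d11.t1 t3d11.e1 - t3d11.eAT t3d11.eU t3d11.e1) :=
  NC.of (K := 501) (D := ⟨1, 19, 1, 19⟩) (Box.of 291 (by decide +kernel))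
    (by decide +kernel)

theorem t3k11_xt2 : NC (pe t3d11.t2 t3d11.e1 - t3d11.eBT t3d11.eU t3d11.e1) :=
  NC.of (K := 532) (D := ⟨1, 19, 1, 19⟩) (Box.of 18659 (by decide +kernel))
    (by decide +kernel)

theorem t3k11_xdy : NC (pe t3d11.dy t3d11.e1 - t3d11.eSD t3d11.eU t3d11.e1) :=
  NC.of (K := 441) (D := ⟨1, 18, 1, 12⟩) (Box.of 4 (by decide +kernel))
    (by decide +kernel)

theorem t3k11_xty : NC (pe t3d11.ty t3d11.e1 - t3d11.eST t3d11.eU t3d11.e1) :=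
  NC.of (K := 659) (D := ⟨1, 26, 1, 26⟩) (Box.of 4 (by decide +kernel))
    (by decide +kernel)

theorem t3k11_xd1s : NC (pe t3r11.d1 (t1v t3c11) - pe t3d11.d1 (Xcd.ew zW t3c11)) :=
  NC.of (K := 558) (D := ⟨1, 1, 1, 55⟩) (Box.of 4 (by decide +kernel))
    (by decide +kernel)

theorem t3k11_xd2s : NC (pe t3r11.d2 (t1v t3c11) - pe t3d11.d2 (Xcd.ew zW t3c11)) :=
  NC.of (K := 564) (D := ⟨1, 1, 1, 55⟩) (Box.of 4 (by decide +kernel))
    (by decide +kernel)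

theorem t3k11_xt1s : NC (pe t3r11.t1 (t1v t3c11) - pe t3d11.t1 (Xcd.ew zW t3c11)) :=
  NC.of (K := 567) (D := ⟨1, 1, 1, 55⟩) (Box.of 4 (by decide +kernel))
    (by decide +kernel)

theorem t3k11_xt2s : NC (pe t3r11.t2 (t1v t3c11) - pe t3d11.t2 (Xcd.ew zW t3c11)) :=
  NC.of (K := 565) (D := ⟨1, 1, 1, 55⟩) (Box.of 4 (by decide +kernel))
    (by decide +kernel)

theorem t3k11_xdys : NC (pe t3r11.dy (t1v t3c11) - pe t3d11.dy (Xcd.ew zW t3c11)) :=
  NC.of (K := 562) (D := ⟨1, 1, 1, 55⟩) (Box.of 4 (by decide +kernel))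
    (by decide +kernel)

theorem t3k11_xtys : NC (pe t3r11.ty (t1v t3c11) - pe t3d11.ty (Xcd.ew zW t3c11)) :=
  NC.of (K := 563) (D := ⟨1, 1, 1, 55⟩) (Box.of 4 (by decide +kernel))
    (by decide +kernel)

theorem t3k11_xhz : NC (pe t3r11.hz (t1v t3c11) - pe t3d11.c.dR (Xcd.ew zW t3c11)) :=
  NC.of (K := 573) (D := ⟨1, 1, 1, 55⟩) (Box.of 4 (by decide +kernel))
    (by decide +kernel)

theorem t3f11_ok : t3f11.ok V2L.y4 V2L.k4 V2L.nb V2L.la (10 ^ 30) 32 = true := by decide +kernel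

theorem t3k11_sg : t3c11.Sg := by
  constructor <;> decide +kernel

theorem t3k11_rgs : t3c11.Rgs where
  M := ⟨t3k11_M_r1, t3k11_M_r2, t3k11_M_r3, t3k11_M_r4⟩
  r0 := ⟨t3k11_r0_r1, t3k11_r0_r2, t3k11_r0_r3, t3k11_r0_r4⟩
  r1 := ⟨t3k11_r1_r1, t3k11_r1_r2, t3k11_r1_r3, t3k11_r1_r4⟩
  r2 := ⟨t3k11_r2_r1, t3k11_r2_r2, t3k11_r2_r3, t3k11_r2_r4⟩
  rc := ⟨t3k11_rc_r1, t3k11_rc_r2, t3k11_rc_r3, t3k11_rc_r4⟩
  rI := ⟨t3k11_rI_r1, t3k11_rI_r2, t3k11_rI_r3, t3k11_rI_r4⟩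
  rJ := ⟨t3k11_rJ_r1, t3k11_rJ_r2, t3k11_rJ_r3, t3k11_rJ_r4⟩

theorem t3k11_xn : t3e11.Ok t3c11 where
  lm := by decide +kernel
  dl0 := by decide +kernel
  dl1 := by decide +kernel
  e2 := by decide +kernel
  eY := by decide +kernel
  gE := ⟨t3k11_gE_r1, t3k11_gE_r2, t3k11_gE_r3, t3k11_gE_r4⟩

theorem t3k11_vl : t3c11.Vl dW qW where
  bt := by decide +kernel
  B0 := t3k11_B0
  E0 := t3k11_E0
  D0 := t3k11_D0
  Bh := t3k11_Bh
  Eh := t3k11_Eh
  Dh := t3k11_Dh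
  B1 := t3k11_B1
  E1 := t3k11_E1
  D1 := t3k11_D1

theorem t3k11_rat : t3n11.Rat t3c11 := by
  constructor <;> decide +kernel

theorem t3k11_ck : t3n11.Ck t3c11 := ⟨t3k11_l, t3k11_n⟩

theorem t3k11_fck : t3n11.Fck dW qW fW t3c11 := ⟨t3k11_rb, t3k11_kap⟩

theorem t3k11_w : Wcl zW kW yW t3al t3c11 t3n11 t3m11 where
  b2 := t3k11_wb2
  mb := t3k11_wmb
  th := t3k11_wth
  yb := t3k11_wyb
  mu := t3k11_wmu
  cj := t3k11_wcj
  mt1 := by decide +kernel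
  mt2 := by decide +kernel

theorem t3k11_ok : CelOk dW qW fW t3c11 t3n11 where
  s := t3k11_sg
  r := t3k11_rgs
  v := t3k11_vl
  rt := t3k11_rat
  k := t3k11_ck
  fc := t3k11_fck
  q01 := by decide +kernel
  q12 := by decide +kernel
  h2 := by decide +kernel

theorem t3k11_xr : t3r11.Ok fW t3c11 t3e11 where
  sD := by decide +kernel
  sT := by decide +kernel
  nd1 := t3k11_nd1
  nd2 := t3k11_nd2
  ndy := t3k11_ndy
  nt1 := t3k11_nt1
  nt2 := t3k11_nt2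
  nty := t3k11_nty
  nhz := t3k11_nhz
  xi := t3k11_xi
  om := t3k11_om

theorem t3k11_X : t3d11.Ck t3GR t3HR zW t3c11 t3e11 t3r11 where
  u0 := by decide +kernel
  u01 := by decide +kernel
  ul := by decide +kernel
  us := by decide +kernel
  uc := by decide +kernel
  ga0 := by decide +kernel
  kp0 := by decide +kernel
  lm := by decide +kernel
  dl := t3k11_xdl
  eY := t3k11_xeY
  gr := t3k11_xgr
  hr := t3k11_xhr
  gs := t3k11_xgs
  d1 := t3k11_xd1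
  d2 := t3k11_xd2
  t1 := t3k11_xt1
  t2 := t3k11_xt2
  dy := t3k11_xdy
  ty := t3k11_xty
  d1s := t3k11_xd1s
  d2s := t3k11_xd2s
  t1s := t3k11_xt1s
  t2s := t3k11_xt2s
  dys := t3k11_xdys
  tys := t3k11_xtys
  hz := t3k11_xhz

end Pool.Agent.RX.RCN.K
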