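import Pool.Agent.RX.RCN.T3D
import Pool.Agent.RX.RCN.T3Wq
import Pool.Agent.RX.RCN.T3X5
import Pool.Agent.RX.RCN.VLd

/-! Certificates (generated). -/

set_option autoImplicit false

namespace Pool.Agent.RX.RCN.K

open Set Pool.Agent.RX.RCM9 Pool.Agent.RX.RCM9.Bern Pool.Agent.RX.RCM9.Pk Xce

def t3c12 : Cel where
  t0 := 13 / 40
  t1 := 83 / 250
  C := 4097 / 4096
  th := 683 / 2048
  B0 := 1111 / 1024
  Bh := 2281 / 2048
  B1 := 549 / 512
  D0 := 559 / 2048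
  Dh := 213 / 1024
  D1 := 809 / 4096
  E0 := 631 / 262144
  Eh := 7983 / 4194304
  E1 := 7581 / 4194304
  Q0 := 557 / 512
  Q1 := 557 / 512
  Q2 := 557 / 512
  Ac := 557 / 512
  gI := 557 / 512
  J := 3029 / 1048576

def t3n12 : Chn where
  lb := 513 / 512
  nb := 305 / 1024
  Mb := 1029 / 1024
  b2 := 65 / 64
  Yb := 19 / 4096
  E2 := 4135 / 4096
  e1 := 611 / 512
  Z1 := 1137 / 1024
  Z2 := 621 / 1024
  KB := 525 / 512
  cb := 529 / 512
  rb := 155 / 512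
  om := 263 / 256
  fb := 129 / 128
  kap := 1033 / 1024
  ab := 1029 / 1024

def t3e12 : Xge where
  lm := 3 / 5
  dl := 1345 / 4096
  e2 := 495 / 8192
  eY := 4117 / 4096
  gE := 281 / 256

def t3r12 : Xr where
  d1 := [186437 / 20000000, 26661 / 25000000, 1061017 / 100000000, 2392363 / 100000000, 41119 /
    100000000, 3215837 / 100000000, 460533 / 20000000]
  d2 := [3951 / 100000000, 663619 / 100000000, 948227 / 20000000, 24339653 / 100000000, -4744727 /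
    3125000, 477909179 / 100000000, -542368809 / 100000000]
  dy := [2582177 / 50000000, 7991 / 500000, 1621077 / 12500000, 31000257 / 100000000, -14964571 /
    20000000, 12578811 / 12500000, -58313499 / 100000000]
  t1 := [7381587 / 100000000, -36178361 / 100000000, 29009551 / 50000000, -11327781 / 6250000,
    1258864143 / 100000000, -3530516177 / 100000000, 936082083 / 25000000]
  t2 := [1194001 / 100000000, -6050777 / 100000000, 302959 / 4000000, 38990547 / 50000000,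
    -158218523 / 50000000, 133040813 / 20000000, -16696679 / 3125000]
  ty := [16981009 / 50000000, -320657 / 160000, 424281321 / 100000000, -53338759 / 100000000,
    -119582309 / 25000000, 60314809 / 25000000, 235791437 / 100000000]
  hz := [63979 / 800000, -14383311 / 50000000, 237857661 / 100000000, -10425139297 / 100000000,
    17452288621 / 20000000, -134822811943 / 50000000, 287329871177 / 100000000]
  om := [100396699 / 100000000, 81673 / 80000, -137431173 / 10000000, 2597149713 / 50000000,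
    -9304781819 / 100000000, 632371719 / 12500000, 24421532003 / 100000000, -69959740401 /
    100000000, 14720152659 / 25000000]
  sD := 495 / 256
  sT := 445 / 256
  xi := [1220767 / 50000000, 14505819 / 50000000, -159285443 / 100000000, 111765289 / 20000000,
    -3160077701 / 25000000, 28243882901 / 25000000, -100467177369 / 25000000, 151932998397 /
    25000000, -20434911453 / 6250000, 68617174663 / 100000000]

def t3f12 : Dl where
  Ca := 815033 / 2500000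
  Cv := 333037 / 1000000
  k1 := 75352 / 78125
  ks := 950697 / 1000000
  dd := 0
  kp := 3 / 10000000
  e := [999999699939 / 1000000000000, -2454387143 / 1953125000, 62241374993 / 50000000000,
    -1085623853737 / 1000000000000, 455261218939 / 500000000000, -361433441899 / 500000000000,
    132257008103 / 250000000000, -4975292129 / 15625000000, 22317197221 / 200000000000]
  j1 := [-3046411 / 1000000000, -10276198267 / 1000000000, 91427692529 / 1000000000, -193915508427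
    / 500000000, 959141733889 / 1000000000, -1428026154149 / 1000000000, 248686813691 /
    200000000, -521727641889 / 1000000000]
  nu := [3159861 / 62500000, -904827 / 5000000, 197693473 / 500000000, 55309743 / 1000000000,
    -109219307 / 250000000, 455657649 / 200000000, -1442798071 / 500000000]
  k2 := [95069851 / 100000000, 172046009 / 1000000000, -360270049 / 1000000000, -121634019 /
    1000000000, 249951637 / 500000000, -2237248397 / 1000000000, 2865893297 / 1000000000]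
  dR := [7981327 / 100000000, -28667461 / 100000000, 118033867 / 50000000, -10325400041 /
    100000000, 86171529421 / 100000000, -53093545449 / 20000000, 141005064339 / 50000000]

def t3d12 : Xce where
  u0 := 326513 / 1000000
  u1 := 333037 / 1000000
  l := V2L.y5
  y := t3z5
  j := t3j5
  i := t3i5
  ls := t3y5
  k := V2L.k5
  c := t3f12
  ga := 1163 / 125000
  gb := -113 / 50000
  hb := 37099 / 1000000
  gs := [160002633 / 100000000, 119999991 / 50000000, 90000423 / 50000000, 3979257 / 5000000,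
    26710473 / 100000000, -12210421 / 100000000, -2995843 / 50000000]
  d1 := [931589 / 100000000, 6633 / 6250000, 265431 / 25000000, 567327 / 25000000, 671409 /
    100000000, 1397389 / 100000000, 4064103 / 100000000]
  d2 := [863 / 25000000, 132173 / 20000000, 947773 / 20000000, 23743659 / 100000000, -36913241 /
    25000000, 29004801 / 6250000, -525726823 / 100000000]
  dy := [1032103 / 20000000, 397877 / 25000000, 12955887 / 100000000, 14894051 / 50000000,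
    -34067093 / 50000000, 16572633 / 20000000, -10148483 / 25000000]
  t1 := [3688927 / 50000000, -1803047 / 5000000, 28742039 / 50000000, -22198429 / 12500000,
    123290131 / 10000000, -3449909919 / 100000000, 228124847 / 6250000]
  t2 := [5967 / 500000, -753977 / 12500000, 7520809 / 100000000, 9660537 / 12500000, -62481961 /
    20000000, 654167817 / 100000000, -130855899 / 25000000]
  ty := [2121553 / 6250000, -19976547 / 10000000, 210447613 / 50000000, -5605793 / 12500000,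
    -31953007 / 6250000, 163552099 / 50000000, 19006777 / 12500000]

def t3m12 : ℚ := 677 / 2048

def t3h12 : ℚ := 243 / 500

theorem t3k12_M_r1 : NC (fM t3c12 (1 - eh) eh ek (elo t3c12.B0 t3c12.Bh eh) (elo t3c12.D0 t3c12.Dh ek) (elo t3c12.E0 t3c12.Eh ek)) :=
  NC.of (K := 32) (D := ⟨4, 3, 1, 1⟩) (Box.of 4 (by decide +kernel))
    (by decide +kernel)

theorem t3k12_M_r2 : NC (fM t3c12 eh (1 - eh) ek (ehi t3c12.Bh t3c12.B1 (1 - eh)) (elo t3c12.D0 t3c12.Dh ek) (elo t3c12.E0 t3c12.Eh ek)) :=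
  NC.of (K := 32) (D := ⟨4, 3, 1, 1⟩) (Box.of 4 (by decide +kernel))
    (by decide +kernel)

theorem t3k12_M_r3 : NC (fM t3c12 (1 - eh) ek eh (elo t3c12.B0 t3c12.Bh ek) (elo t3c12.D0 t3c12.Dh eh) (elo t3c12.E0 t3c12.Eh eh)) :=
  NC.of (K := 31) (D := ⟨4, 2, 1, 1⟩) (Box.of 4 (by decide +kernel))
    (by decide +kernel)

theorem t3k12_M_r4 : NC (fM t3c12 eh ek (1 - eh) (elo t3c12.B0 t3c12.Bh ek) (ehi t3c12.Dh t3c12.D1 (1 - eh)) (ehi t3c12.Eh t3c12.E1 (1 - eh))) :=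
  NC.of (K := 32) (D := ⟨4, 2, 1, 1⟩) (Box.of 4 (by decide +kernel))
    (by decide +kernel)

theorem t3k12_r0_r1 : NC (f0 t3c12 (1 - eh) eh ek (elo t3c12.B0 t3c12.Bh eh) (elo t3c12.D0 t3c12.Dh ek) (elo t3c12.E0 t3c12.Eh ek)) :=
  NC.of (K := 149) (D := ⟨13, 9, 1, 1⟩) (Box.of 4 (by decide +kernel))
    (by decide +kernel)

theorem t3k12_r0_r2 : NC (f0 t3c12 eh (1 - eh) ek (ehi t3c12.Bh t3c12.B1 (1 - eh)) (elo t3c12.D0 t3c12.Dh ek) (elo t3c12.E0 t3c12.Eh ek)) :=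
  NC.of (K := 149) (D := ⟨13, 9, 1, 1⟩) (Box.of 4 (by decide +kernel))
    (by decide +kernel)

theorem t3k12_r0_r3 : NC (f0 t3c12 (1 - eh) ek eh (elo t3c12.B0 t3c12.Bh ek) (elo t3c12.D0 t3c12.Dh eh) (elo t3c12.E0 t3c12.Eh eh)) :=
  NC.of (K := 144) (D := ⟨13, 5, 1, 1⟩) (Box.of 4 (by decide +kernel))
    (by decide +kernel)

theorem t3k12_r0_r4 : NC (f0 t3c12 eh ek (1 - eh) (elo t3c12.B0 t3c12.Bh ek) (ehi t3c12.Dh t3c12.D1 (1 - eh)) (ehi t3c12.Eh t3c12.E1 (1 - eh))) :=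
  NC.of (K := 149) (D := ⟨13, 5, 1, 1⟩) (Box.of 4 (by decide +kernel))
    (by decide +kernel)

theorem t3k12_r1_r1 : NC (f1 t3c12 (1 - eh) eh ek (elo t3c12.B0 t3c12.Bh eh) (elo t3c12.D0 t3c12.Dh ek) (elo t3c12.E0 t3c12.Eh ek)) :=
  NC.of (K := 237) (D := ⟨16, 9, 1, 1⟩) (Box.of 4 (by decide +kernel))
    (by decide +kernel)

theorem t3k12_r1_r2 : NC (f1 t3c12 eh (1 - eh) ek (ehi t3c12.Bh t3c12.B1 (1 - eh)) (elo t3c12.D0 t3c12.Dh ek) (elo t3c12.E0 t3c12.Eh ek)) :=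
  NC.of (K := 238) (D := ⟨16, 9, 1, 1⟩) (Box.of 4 (by decide +kernel))
    (by decide +kernel)

theorem t3k12_r1_r3 : NC (f1 t3c12 (1 - eh) ek eh (elo t3c12.B0 t3c12.Bh ek) (elo t3c12.D0 t3c12.Dh eh) (elo t3c12.E0 t3c12.Eh eh)) :=
  NC.of (K := 240) (D := ⟨16, 12, 1, 1⟩) (Box.of 4 (by decide +kernel))
    (by decide +kernel)

theorem t3k12_r1_r4 : NC (f1 t3c12 eh ek (1 - eh) (elo t3c12.B0 t3c12.Bh ek) (ehi t3c12.Dh t3c12.D1 (1 - eh)) (ehi t3c12.Eh t3c12.E1 (1 - eh))) :=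
  NC.of (K := 241) (D := ⟨16, 12, 1, 1⟩) (Box.of 4 (by decide +kernel))
    (by decide +kernel)

theorem t3k12_r2_r1 : NC (f2 t3c12 (1 - eh) eh ek (elo t3c12.B0 t3c12.Bh eh) (elo t3c12.D0 t3c12.Dh ek) (elo t3c12.E0 t3c12.Eh ek)) :=
  NC.of (K := 239) (D := ⟨16, 11, 1, 1⟩) (Box.of 4 (by decide +kernel))
    (by decide +kernel)

theorem t3k12_r2_r2 : NC (f2 t3c12 eh (1 - eh) ek (ehi t3c12.Bh t3c12.B1 (1 - eh)) (elo t3c12.D0 t3c12.Dh ek) (elo t3c12.E0 t3c12.Eh ek)) :=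
  NC.of (K := 240) (D := ⟨16, 11, 1, 1⟩) (Box.of 4 (by decide +kernel))
    (by decide +kernel)

theorem t3k12_r2_r3 : NC (f2 t3c12 (1 - eh) ek eh (elo t3c12.B0 t3c12.Bh ek) (elo t3c12.D0 t3c12.Dh eh) (elo t3c12.E0 t3c12.Eh eh)) :=
  NC.of (K := 240) (D := ⟨16, 12, 1, 1⟩) (Box.of 4 (by decide +kernel))
    (by decide +kernel)

theorem t3k12_r2_r4 : NC (f2 t3c12 eh ek (1 - eh) (elo t3c12.B0 t3c12.Bh ek) (ehi t3c12.Dh t3c12.D1 (1 - eh)) (ehi t3c12.Eh t3c12.E1 (1 - eh))) :=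
  NC.of (K := 242) (D := ⟨16, 12, 1, 1⟩) (Box.of 4 (by decide +kernel))
    (by decide +kernel)

theorem t3k12_rc_r1 : NC (fc t3c12 (1 - eh) eh ek (elo t3c12.B0 t3c12.Bh eh) (elo t3c12.D0 t3c12.Dh ek) (elo t3c12.E0 t3c12.Eh ek)) :=
  NC.of (K := 148) (D := ⟨13, 9, 1, 1⟩) (Box.of 4 (by decide +kernel))
    (by decide +kernel)

theorem t3k12_rc_r2 : NC (fc t3c12 eh (1 - eh) ek (ehi t3c12.Bh t3c12.B1 (1 - eh)) (elo t3c12.D0 t3c12.Dh ek) (elo t3c12.E0 t3c12.Eh ek)) :=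
  NC.of (K := 148) (D := ⟨13, 9, 1, 1⟩) (Box.of 4 (by decide +kernel))
    (by decide +kernel)

theorem t3k12_rc_r3 : NC (fc t3c12 (1 - eh) ek eh (elo t3c12.B0 t3c12.Bh ek) (elo t3c12.D0 t3c12.Dh eh) (elo t3c12.E0 t3c12.Eh eh)) :=
  NC.of (K := 144) (D := ⟨13, 5, 1, 1⟩) (Box.of 4 (by decide +kernel))
    (by decide +kernel)

theorem t3k12_rc_r4 : NC (fc t3c12 eh ek (1 - eh) (elo t3c12.B0 t3c12.Bh ek) (ehi t3c12.Dh t3c12.D1 (1 - eh)) (ehi t3c12.Eh t3c12.E1 (1 - eh))) :=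
  NC.of (K := 148) (D := ⟨13, 5, 1, 1⟩) (Box.of 4 (by decide +kernel))
    (by decide +kernel)

theorem t3k12_rI_r1 : NC (fI t3c12 (1 - eh) eh ek (elo t3c12.B0 t3c12.Bh eh) (elo t3c12.D0 t3c12.Dh ek) (elo t3c12.E0 t3c12.Eh ek)) :=
  NC.of (K := 137) (D := ⟨13, 9, 1, 1⟩) (Box.of 4 (by decide +kernel))
    (by decide +kernel)

theorem t3k12_rI_r2 : NC (fI t3c12 eh (1 - eh) ek (ehi t3c12.Bh t3c12.B1 (1 - eh)) (elo t3c12.D0 t3c12.Dh ek) (elo t3c12.E0 t3c12.Eh ek)) :=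
  NC.of (K := 138) (D := ⟨13, 9, 1, 1⟩) (Box.of 4 (by decide +kernel))
    (by decide +kernel)

theorem t3k12_rI_r3 : NC (fI t3c12 (1 - eh) ek eh (elo t3c12.B0 t3c12.Bh ek) (elo t3c12.D0 t3c12.Dh eh) (elo t3c12.E0 t3c12.Eh eh)) :=
  NC.of (K := 132) (D := ⟨13, 5, 1, 1⟩) (Box.of 4 (by decide +kernel))
    (by decide +kernel)

theorem t3k12_rI_r4 : NC (fI t3c12 eh ek (1 - eh) (elo t3c12.B0 t3c12.Bh ek) (ehi t3c12.Dh t3c12.D1 (1 - eh)) (ehi t3c12.Eh t3c12.E1 (1 - eh))) :=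
  NC.of (K := 137) (D := ⟨13, 5, 1, 1⟩) (Box.of 4 (by decide +kernel))
    (by decide +kernel)

theorem t3k12_rJ_r1 : NC (fJ t3c12 (1 - eh) eh ek (elo t3c12.B0 t3c12.Bh eh) (elo t3c12.D0 t3c12.Dh ek) (elo t3c12.E0 t3c12.Eh ek)) :=
  NC.of (K := 88) (D := ⟨7, 5, 1, 1⟩) (Box.of 289 (by decide +kernel))
    (by decide +kernel)

theorem t3k12_rJ_r2 : NC (fJ t3c12 eh (1 - eh) ek (ehi t3c12.Bh t3c12.B1 (1 - eh)) (elo t3c12.D0 t3c12.Dh ek) (elo t3c12.E0 t3c12.Eh ek)) :=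
  NC.of (K := 88) (D := ⟨7, 5, 1, 1⟩) (Box.of 289 (by decide +kernel))
    (by decide +kernel)

theorem t3k12_rJ_r3 : NC (fJ t3c12 (1 - eh) ek eh (elo t3c12.B0 t3c12.Bh ek) (elo t3c12.D0 t3c12.Dh eh) (elo t3c12.E0 t3c12.Eh eh)) :=
  NC.of (K := 77) (D := ⟨7, 3, 1, 1⟩) (Box.of 4 (by decide +kernel))
    (by decide +kernel)

theorem t3k12_rJ_r4 : NC (fJ t3c12 eh ek (1 - eh) (elo t3c12.B0 t3c12.Bh ek) (ehi t3c12.Dh t3c12.D1 (1 - eh)) (ehi t3c12.Eh t3c12.E1 (1 - eh))) :=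
  NC.of (K := 79) (D := ⟨7, 3, 1, 1⟩) (Box.of 4 (by decide +kernel))
    (by decide +kernel)

theorem t3k12_gE_r1 : NC (fE t3c12 t3e12 (1 - eh) eh ek (elo t3c12.B0 t3c12.Bh eh) (elo t3c12.D0 t3c12.Dh ek) (elo t3c12.E0 t3c12.Eh ek)) :=
  NC.of (K := 136) (D := ⟨13, 9, 1, 1⟩) (Box.of 4 (by decide +kernel))
    (by decide +kernel)

theorem t3k12_gE_r2 : NC (fE t3c12 t3e12 eh (1 - eh) ek (ehi t3c12.Bh t3c12.B1 (1 - eh)) (elo t3c12.D0 t3c12.Dh ek) (elo t3c12.E0 t3c12.Eh ek)) :=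
  NC.of (K := 137) (D := ⟨13, 9, 1, 1⟩) (Box.of 4 (by decide +kernel))
    (by decide +kernel)

theorem t3k12_gE_r3 : NC (fE t3c12 t3e12 (1 - eh) ek eh (elo t3c12.B0 t3c12.Bh ek) (elo t3c12.D0 t3c12.Dh eh) (elo t3c12.E0 t3c12.Eh eh)) :=
  NC.of (K := 156) (D := ⟨13, 7, 1, 1⟩) (Box.of 288 (by decide +kernel))
    (by decide +kernel)

theorem t3k12_gE_r4 : NC (fE t3c12 t3e12 eh ek (1 - eh) (elo t3c12.B0 t3c12.Bh ek) (ehi t3c12.Dh t3c12.D1 (1 - eh)) (ehi t3c12.Eh t3c12.E1 (1 - eh))) :=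
  NC.of (K := 139) (D := ⟨13, 7, 1, 1⟩) (Box.of 4 (by decide +kernel))
    (by decide +kernel)

theorem t3k12_B0 : NC (kB dW 1 0 t3c12.B0 (tcl t3c12)) :=
  NC.of (K := 119) (D := ⟨1, 1, 1, 9⟩) (Box.of 4 (by decide +kernel))
    (by decide +kernel)

theorem t3k12_E0 : NC (kE dW qW qW.p0 qW.q0 t3c12.E0 (tcl t3c12)) :=
  NC.of (K := 265) (D := ⟨1, 1, 1, 19⟩) (Box.of 4 (by decide +kernel))
    (by decide +kernel)

theorem t3k12_D0 : NC (kD dW qW 1 0 qW.p0 qW.q0 t3c12.D0 (tcl t3c12)) :=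
  NC.of (K := 385) (D := ⟨1, 1, 1, 20⟩) (Box.of 4 (by decide +kernel))
    (by decide +kernel)

theorem t3k12_Bh : NC (kB dW (1 / 2) (1 / 2) t3c12.Bh (tcl t3c12)) :=
  NC.of (K := 122) (D := ⟨1, 1, 1, 9⟩) (Box.of 4 (by decide +kernel))
    (by decide +kernel)

theorem t3k12_Eh : NC (kE dW qW qW.ph qW.qh t3c12.Eh (tcl t3c12)) :=
  NC.of (K := 269) (D := ⟨1, 1, 1, 19⟩) (Box.of 4 (by decide +kernel))
    (by decide +kernel)

theorem t3k12_Dh : NC (kD dW qW (1 / 2) (1 / 2) qW.ph qW.qh t3c12.Dh (tcl t3c12)) :=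
  NC.of (K := 389) (D := ⟨1, 1, 1, 20⟩) (Box.of 4 (by decide +kernel))
    (by decide +kernel)

theorem t3k12_B1 : NC (kB dW 0 (1 / 2) t3c12.B1 (tcl t3c12)) :=
  NC.of (K := 122) (D := ⟨1, 1, 1, 9⟩) (Box.of 4 (by decide +kernel))
    (by decide +kernel)

theorem t3k12_E1 : NC (kE dW qW qW.p1 qW.q1 t3c12.E1 (tcl t3c12)) :=
  NC.of (K := 269) (D := ⟨1, 1, 1, 19⟩) (Box.of 4 (by decide +kernel))
    (by decide +kernel)

theorem t3k12_D1 : NC (kD dW qW 0 (1 / 2) qW.p1 qW.q1 t3c12.D1 (tcl t3c12)) :=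
  NC.of (K := 389) (D := ⟨1, 1, 1, 20⟩) (Box.of 4 (by decide +kernel))
    (by decide +kernel)

theorem t3k12_l : NC (qc t3n12.lb - (1 - vX) * pe (exl t3c12.th) vX ^ 2) :=
  NC.of (K := 117) (D := ⟨10, 1, 1, 1⟩) (Box.of 4 (by decide +kernel))
    (by decide +kernel)

theorem t3k12_n : NC (qc t3n12.nb - vX * (1 - vX) * pe (exl t3c12.th) vX) :=
  NC.of (K := 112) (D := ⟨7, 1, 1, 1⟩) (Box.of 76677152 (by decide +kernel))
    (by decide +kernel)

theorem t3k12_rb : NC (krb t3n12 fW (t1v t3c12)) :=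
  NC.of (K := 203) (D := ⟨1, 1, 1, 16⟩) (Box.of 4 (by decide +kernel))
    (by decide +kernel)

theorem t3k12_kap : NC (kkap dW qW t3n12 (tcl t3c12)) :=
  NC.of (K := 120) (D := ⟨1, 1, 1, 9⟩) (Box.of 4 (by decide +kernel))
    (by decide +kernel)

theorem t3k12_wb2 : NC (qc t3n12.b2 - pe2 kW.QB (vZ * t1v t3c12) (t1v t3c12)) :=
  NC.of (K := 156) (D := ⟨1, 6, 1, 11⟩) (Box.of 291 (by decide +kernel))
    (by decide +kernel)

theorem t3k12_wmb : NC (qc t3n12.Mb - pe zW.mb (t1v t3c12)) :=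
  NC.of (K := 123) (D := ⟨1, 1, 1, 9⟩) (Box.of 291 (by decide +kernel))
    (by decide +kernel)

theorem t3k12_wth : NC (qc (t3c12.th / t3c12.t1) - pe2 zW.Qt (vZ * t1v t3c12) (t1v t3c12)) :=
  NC.of (K := 162) (D := ⟨1, 6, 1, 11⟩) (Box.of 291 (by decide +kernel))
    (by decide +kernel)

theorem t3k12_wyb : NC (qc t3n12.Yb - (t1v t3c12 - vZ * t1v t3c12) ^ 3 * pe2 yW.QY (vZ * t1v t3c12) (t1v t3c12)) :=
  NC.of (K := 141) (D := ⟨1, 8, 1, 12⟩) (Box.of 4 (by decide +kernel))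
    (by decide +kernel)

theorem t3k12_wmu : NC (qc t3m12 - pe t3al (tcl t3c12) * (1 + hlf * tcl t3c12)) :=
  NC.of (K := 115) (D := ⟨1, 1, 1, 9⟩) (Box.of 4 (by decide +kernel))
    (by decide +kernel)

theorem t3k12_wcj : NC (qc t3c12.C * ((6 - 3 * vX) * (1 - qc t3m12 * vX)) - (6 - 6 * vX + vX ^ 2)) :=
  NC.of (K := 33) (D := ⟨3, 1, 1, 1⟩) (Box.of 4 (by decide +kernel))
    (by decide +kernel)

theorem t3k12_nd1 : NC (pe t3r12.d1 (t1v t3c12)) :=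
  NC.of (K := 76) (D := ⟨1, 1, 1, 7⟩) (Box.of 4 (by decide +kernel))
    (by decide +kernel)

theorem t3k12_nd2 : NC (pe t3r12.d2 (t1v t3c12)) :=
  NC.of (K := 81) (D := ⟨1, 1, 1, 7⟩) (Box.of 4 (by decide +kernel))
    (by decide +kernel)

theorem t3k12_ndy : NC (pe t3r12.dy (t1v t3c12)) :=
  NC.of (K := 81) (D := ⟨1, 1, 1, 7⟩) (Box.of 4 (by decide +kernel))
    (by decide +kernel)

theorem t3k12_nt1 : NC (pe t3r12.t1 (t1v t3c12)) :=
  NC.of (K := 83) (D := ⟨1, 1, 1, 7⟩) (Box.of 4 (by decide +kernel))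
    (by decide +kernel)

theorem t3k12_nt2 : NC (pe t3r12.t2 (t1v t3c12)) :=
  NC.of (K := 81) (D := ⟨1, 1, 1, 7⟩) (Box.of 4 (by decide +kernel))
    (by decide +kernel)

theorem t3k12_nty : NC (pe t3r12.ty (t1v t3c12)) :=
  NC.of (K := 85) (D := ⟨1, 1, 1, 7⟩) (Box.of 4 (by decide +kernel))
    (by decide +kernel)

theorem t3k12_nhz : NC (pe t3r12.hz (t1v t3c12)) :=
  NC.of (K := 127) (D := ⟨1, 1, 1, 7⟩) (Box.of 1197795 (by decide +kernel))
    (by decide +kernel)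

theorem t3k12_xi : NC (eXi fW t3c12 t3e12 t3r12 (t1v t3c12)) :=
  NC.of (K := 330) (D := ⟨1, 1, 1, 22⟩) (Box.of 4 (by decide +kernel))
    (by decide +kernel)

theorem t3k12_om : NC (eOm fW t3r12 (t1v t3c12)) :=
  NC.of (K := 195) (D := ⟨1, 1, 1, 16⟩) (Box.of 4 (by decide +kernel))
    (by decide +kernel)

theorem t3k12_fin : NC (eFin dW t3c12 t3n12 t3r12 t3h12 (tcl t3c12)) :=
  NC.of (K := 260) (D := ⟨1, 1, 1, 14⟩) (Box.of 4 (by decide +kernel))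
    (by decide +kernel)

theorem t3k12_xdl : NC (qc t3e12.dl - pe t3d12.l.dl t3d12.eU) :=
  NC.of (K := 72) (D := ⟨1, 4, 1, 1⟩) (Box.of 4 (by decide +kernel))
    (by decide +kernel)

theorem t3k12_xeY : NC (qc t3e12.eY - pe (e4l t3d12.l.z) t3d12.eU) :=
  NC.of (K := 288) (D := ⟨1, 13, 1, 1⟩) (Box.of 4 (by decide +kernel))
    (by decide +kernel)

theorem t3k12_xgr : NC (qc t3d12.ga * ((1 + qc (3 / 5) * vX) * (1 + (t3d12.eg + hlf * t3d12.eg ^ 2))) + qc t3d12.gb - pe2 t3GR vX t3d12.eU) :=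
  NC.of (K := 240) (D := ⟨4, 11, 1, 1⟩) (Box.of 4 (by decide +kernel))
    (by decide +kernel)

theorem t3k12_xhr : NC (qc t3d12.hb - pe2 t3HR vX t3d12.eU) :=
  NC.of (K := 261) (D := ⟨3, 12, 1, 1⟩) (Box.of 4 (by decide +kernel))
    (by decide +kernel)

theorem t3k12_xgs : NC (pe t3d12.gs t3d12.e1 - qc (8 / 5) * pe (e4l (ladd t3d12.ls.z t3d12.ls.dl)) t3d12.e1) :=
  NC.of (K := 296) (D := ⟨1, 1, 1, 13⟩) (Box.of 4 (by decide +kernel))
    (by decide +kernel)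

theorem t3k12_xd1 : NC (pe t3d12.d1 t3d12.e1 - t3d12.eA t3d12.eU t3d12.e1) :=
  NC.of (K := 285) (D := ⟨1, 12, 1, 12⟩) (Box.of 4 (by decide +kernel))
    (by decide +kernel)

theorem t3k12_xd2 : NC (pe t3d12.d2 t3d12.e1 - t3d12.eB t3d12.eU t3d12.e1) :=
  NC.of (K := 306) (D := ⟨1, 12, 1, 12⟩) (Box.of 291 (by decide +kernel))
    (by decide +kernel)

theorem t3k12_xt1 : NC (pe t3d12.t1 t3d12.e1 - t3d12.eAT t3d12.eU t3d12.e1) :=
  NC.of (K := 467) (D := ⟨1, 19, 1, 19⟩) (Box.of 4 (by decide +kernel))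
    (by decide +kernel)

theorem t3k12_xt2 : NC (pe t3d12.t2 t3d12.e1 - t3d12.eBT t3d12.eU t3d12.e1) :=
  NC.of (K := 501) (D := ⟨1, 19, 1, 19⟩) (Box.of 291 (by decide +kernel))
    (by decide +kernel)

theorem t3k12_xdy : NC (pe t3d12.dy t3d12.e1 - t3d12.eSD t3d12.eU t3d12.e1) :=
  NC.of (K := 440) (D := ⟨1, 18, 1, 12⟩) (Box.of 4 (by decide +kernel))
    (by decide +kernel)

theorem t3k12_xty : NC (pe t3d12.ty t3d12.e1 - t3d12.eST t3d12.eU t3d12.e1) :=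
  NC.of (K := 659) (D := ⟨1, 26, 1, 26⟩) (Box.of 4 (by decide +kernel))
    (by decide +kernel)

theorem t3k12_xd1s : NC (pe t3r12.d1 (t1v t3c12) - pe t3d12.d1 (Xcd.ew zW t3c12)) :=
  NC.of (K := 713) (D := ⟨1, 1, 1, 55⟩) (Box.of 4 (by decide +kernel))
    (by decide +kernel)

theorem t3k12_xd2s : NC (pe t3r12.d2 (t1v t3c12) - pe t3d12.d2 (Xcd.ew zW t3c12)) :=
  NC.of (K := 720) (D := ⟨1, 1, 1, 55⟩) (Box.of 4 (by decide +kernel))
    (by decide +kernel)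

theorem t3k12_xt1s : NC (pe t3r12.t1 (t1v t3c12) - pe t3d12.t1 (Xcd.ew zW t3c12)) :=
  NC.of (K := 719) (D := ⟨1, 1, 1, 55⟩) (Box.of 4 (by decide +kernel))
    (by decide +kernel)

theorem t3k12_xt2s : NC (pe t3r12.t2 (t1v t3c12) - pe t3d12.t2 (Xcd.ew zW t3c12)) :=
  NC.of (K := 719) (D := ⟨1, 1, 1, 55⟩) (Box.of 4 (by decide +kernel))
    (by decide +kernel)

theorem t3k12_xdys : NC (pe t3r12.dy (t1v t3c12) - pe t3d12.dy (Xcd.ew zW t3c12)) :=
  NC.of (K := 716) (D := ⟨1, 1, 1, 55⟩) (Box.of 4 (by decide +kernel))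
    (by decide +kernel)

theorem t3k12_xtys : NC (pe t3r12.ty (t1v t3c12) - pe t3d12.ty (Xcd.ew zW t3c12)) :=
  NC.of (K := 718) (D := ⟨1, 1, 1, 55⟩) (Box.of 4 (by decide +kernel))
    (by decide +kernel)

theorem t3k12_xhz : NC (pe t3r12.hz (t1v t3c12) - pe t3d12.c.dR (Xcd.ew zW t3c12)) :=
  NC.of (K := 728) (D := ⟨1, 1, 1, 55⟩) (Box.of 4 (by decide +kernel))
    (by decide +kernel)

theorem t3f12_ok : t3f12.ok V2L.y5 V2L.k5 V2L.nb V2L.la (10 ^ 30) 32 = true := by decide +kernel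

theorem t3k12_sg : t3c12.Sg := by
  constructor <;> decide +kernel

theorem t3k12_rgs : t3c12.Rgs where
  M := ⟨t3k12_M_r1, t3k12_M_r2, t3k12_M_r3, t3k12_M_r4⟩
  r0 := ⟨t3k12_r0_r1, t3k12_r0_r2, t3k12_r0_r3, t3k12_r0_r4⟩
  r1 := ⟨t3k12_r1_r1, t3k12_r1_r2, t3k12_r1_r3, t3k12_r1_r4⟩
  r2 := ⟨t3k12_r2_r1, t3k12_r2_r2, t3k12_r2_r3, t3k12_r2_r4⟩
  rc := ⟨t3k12_rc_r1, t3k12_rc_r2, t3k12_rc_r3, t3k12_rc_r4⟩
  rI := ⟨t3k12_rI_r1, t3k12_rI_r2, t3k12_rI_r3, t3k12_rI_r4⟩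
  rJ := ⟨t3k12_rJ_r1, t3k12_rJ_r2, t3k12_rJ_r3, t3k12_rJ_r4⟩

theorem t3k12_xn : t3e12.Ok t3c12 where
  lm := by decide +kernel
  dl0 := by decide +kernel
  dl1 := by decide +kernel
  e2 := by decide +kernel
  eY := by decide +kernel
  gE := ⟨t3k12_gE_r1, t3k12_gE_r2, t3k12_gE_r3, t3k12_gE_r4⟩

theorem t3k12_vl : t3c12.Vl dW qW where
  bt := by decide +kernel
  B0 := t3k12_B0
  E0 := t3k12_E0
  D0 := t3k12_D0
  Bh := t3k12_Bh
  Eh := t3k12_Eh
  Dh := t3k12_Dh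
  B1 := t3k12_B1
  E1 := t3k12_E1
  D1 := t3k12_D1

theorem t3k12_rat : t3n12.Rat t3c12 := by
  constructor <;> decide +kernel

theorem t3k12_ck : t3n12.Ck t3c12 := ⟨t3k12_l, t3k12_n⟩

theorem t3k12_fck : t3n12.Fck dW qW fW t3c12 := ⟨t3k12_rb, t3k12_kap⟩

theorem t3k12_w : Wcl zW kW yW t3al t3c12 t3n12 t3m12 where
  b2 := t3k12_wb2
  mb := t3k12_wmb
  th := t3k12_wth
  yb := t3k12_wyb
  mu := t3k12_wmu
  cj := t3k12_wcj
  mt1 := by decide +kernel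
  mt2 := by decide +kernel

theorem t3k12_ok : CelOk dW qW fW t3c12 t3n12 where
  s := t3k12_sg
  r := t3k12_rgs
  v := t3k12_vl
  rt := t3k12_rat
  k := t3k12_ck
  fc := t3k12_fck
  q01 := by decide +kernel
  q12 := by decide +kernel
  h2 := by decide +kernel

theorem t3k12_xr : t3r12.Ok fW t3c12 t3e12 where
  sD := by decide +kernel
  sT := by decide +kernel
  nd1 := t3k12_nd1
  nd2 := t3k12_nd2
  ndy := t3k12_ndy
  nt1 := t3k12_nt1
  nt2 := t3k12_nt2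
  nty := t3k12_nty
  nhz := t3k12_nhz
  xi := t3k12_xi
  om := t3k12_om

theorem t3k12_X : t3d12.Ck t3GR t3HR zW t3c12 t3e12 t3r12 where
  u0 := by decide +kernel
  u01 := by decide +kernel
  ul := by decide +kernel
  us := by decide +kernel
  uc := by decide +kernel
  ga0 := by decide +kernel
  kp0 := by decide +kernel
  lm := by decide +kernel
  dl := t3k12_xdl
  eY := t3k12_xeY
  gr := t3k12_xgr
  hr := t3k12_xhr
  gs := t3k12_xgs
  d1 := t3k12_xd1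
  d2 := t3k12_xd2
  t1 := t3k12_xt1
  t2 := t3k12_xt2
  dy := t3k12_xdy
  ty := t3k12_xty
  d1s := t3k12_xd1s
  d2s := t3k12_xd2s
  t1s := t3k12_xt1s
  t2s := t3k12_xt2s
  dys := t3k12_xdys
  tys := t3k12_xtys
  hz := t3k12_xhz

end Pool.Agent.RX.RCN.K
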