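import Pool.Agent.RX.RCN.T3D
import Pool.Agent.RX.RCN.T3Wq
import Pool.Agent.RX.RCN.T3X6
import Pool.Agent.RX.RCN.VLd

/-! Certificates (generated). -/

set_option autoImplicit false

namespace Pool.Agent.RX.RCN.K

open Set Pool.Agent.RX.RCM9 Pool.Agent.RX.RCM9.Bern Pool.Agent.RX.RCM9.Pk Xce

def t3c14 : Cel where
  t0 := 17 / 50
  t1 := 7 / 20
  C := 4097 / 4096
  th := 45 / 128
  B0 := 2215 / 2048
  Bh := 2301 / 2048
  B1 := 555 / 512
  D0 := 1165 / 4096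
  Dh := 225 / 1024
  D1 := 855 / 4096
  E0 := 3103 / 1048576
  Eh := 1243 / 524288
  E1 := 9453 / 4194304
  Q0 := 555 / 512
  Q1 := 555 / 512
  Q2 := 555 / 512
  Ac := 555 / 512
  gI := 555 / 512
  J := 15549 / 4194304

def t3n14 : Chn where
  lb := 513 / 512
  nb := 77 / 256
  Mb := 1029 / 1024
  b2 := 65 / 64
  Yb := 11 / 2048
  E2 := 4141 / 4096
  e1 := 1233 / 1024
  Z1 := 567 / 512
  Z2 := 311 / 512
  KB := 263 / 256
  cb := 1061 / 1024
  rb := 323 / 1024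
  om := 263 / 256
  fb := 129 / 128
  kap := 2069 / 2048
  ab := 1029 / 1024

def t3e14 : Xge where
  lm := 3 / 5
  dl := 177 / 512
  e2 := 1105 / 16384
  eY := 515 / 512
  gE := 563 / 512

def t3r14 : Xr where
  d1 := [55249 / 5000000, 153487 / 100000000, 81171 / 6250000, 2664697 / 100000000, -473 /
    4000000, 1592211 / 50000000, 2075577 / 100000000]
  d2 := [811 / 20000000, 513149 / 50000000, 933859 / 100000000, 75013107 / 100000000, -8158921 /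
    2000000, 269864471 / 25000000, -133012099 / 12500000]
  dy := [3283571 / 50000000, 558429 / 25000000, 15362699 / 100000000, 37820701 / 100000000,
    -87789139 / 100000000, 28270923 / 25000000, -64221507 / 100000000]
  t1 := [4131681 / 50000000, -18955983 / 50000000, 31353857 / 50000000, -31638651 / 12500000,
    102309373 / 6250000, -2202003847 / 50000000, 2233680039 / 50000000]
  t2 := [1451173 / 100000000, -663273 / 10000000, 5650941 / 100000000, 25019451 / 25000000,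
    -382903607 / 100000000, 14866431 / 2000000, -533820447 / 100000000]
  ty := [40483151 / 100000000, -55376729 / 25000000, 425600439 / 100000000, 89559949 / 100000000,
    -427838553 / 50000000, 831900379 / 100000000, -219463577 / 100000000]
  hz := [9069079 / 100000000, -1972101 / 5000000, 584691377 / 100000000, -2826954189 / 20000000,
    100900725821 / 100000000, -14192792857 / 5000000, 280928131439 / 100000000]
  om := [100396701 / 100000000, 102112671 / 100000000, -1375789127 / 100000000, 2616348499 /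
    50000000, -4895221193 / 50000000, 4184723203 / 50000000, 12000908577 / 100000000,
    -45827376073 / 100000000, 9980742769 / 25000000]
  sD := 127 / 64
  sT := 57 / 32
  xi := [1502709 / 50000000, 52979 / 156250, -19135531 / 10000000, 1040407789 / 100000000,
    -17445749063 / 100000000, 33017154331 / 25000000, -428578362341 / 100000000, 609012647067 /
    100000000, -318491815397 / 100000000, 66383387427 / 100000000]

def t3f14 : Dl where
  Ca := 3410599 / 10000000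
  Cv := 87773 / 250000
  k1 := 9597333 / 10000000
  ks := 472437 / 500000
  dd := 0
  kp := 7 / 10000000
  e := [999999699897 / 1000000000000, -1273266762291 / 1000000000000, 637990519393 / 500000000000,
    -281948756341 / 250000000000, 956741237969 / 1000000000000, -766775929027 / 1000000000000,
    281725776367 / 500000000000, -336509070281 / 1000000000000, 115293075551 / 1000000000000]
  j1 := [-1484557 / 500000000, -2003279539 / 200000000, 22391499239 / 250000000, -381710183959 /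
    1000000000, 237078051043 / 250000000, -1414725977859 / 1000000000, 244622832059 / 200000000,
    -500508723073 / 1000000000]
  nu := [28350957 / 500000000, -37867909 / 200000000, 193719571 / 500000000, 20305553 / 125000000,
    -145250029 / 125000000, 2196308873 / 500000000, -5118944717 / 1000000000]
  k2 := [94487501 / 100000000, 17890353 / 100000000, -348943693 / 1000000000, -22695323 /
    100000000, 597272583 / 500000000, -4261070057 / 1000000000, 1249629811 / 250000000]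
  dR := [1131361 / 12500000, -39309321 / 100000000, 580743523 / 100000000, -7000294847 / 50000000,
    49821243273 / 50000000, -27945937351 / 10000000, 27572677569 / 10000000]

def t3d14 : Xce where
  u0 := 8539 / 25000
  u1 := 87773 / 250000
  l := V2L.y6
  y := t3z6
  j := t3j6
  i := t3i6
  ls := t3y6
  k := V2L.k6
  c := t3f14
  ga := 2757 / 250000
  gb := -2979 / 1000000
  hb := 5671 / 125000
  gs := [10000169 / 6250000, 9599999 / 4000000, 45000283 / 25000000, 79581151 / 100000000,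
    26735343 / 100000000, -12281237 / 100000000, -739579 / 12500000]
  d1 := [276063 / 25000000, 76393 / 50000000, 1299541 / 100000000, 2517343 / 100000000, 756419 /
    100000000, 194889 / 20000000, 531461 / 12500000]
  d2 := [3411 / 100000000, 10223 / 1000000, 959751 / 100000000, 18471353 / 25000000, -400224583 /
    100000000, 527643143 / 50000000, -1036719131 / 100000000]
  dy := [6562137 / 100000000, 111231 / 5000000, 15352059 / 100000000, 3631411 / 10000000,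
    -79498051 / 100000000, 91048807 / 100000000, -42175447 / 100000000]
  t1 := [8259187 / 100000000, -236181 / 625000, 62136657 / 100000000, -24871357 / 10000000,
    321194631 / 20000000, -4309203397 / 100000000, 43591609 / 1000000]
  t2 := [362611 / 25000000, -330607 / 5000000, 5615167 / 100000000, 3096847 / 3125000, -377558639
    / 100000000, 182404397 / 25000000, -130340223 / 25000000]
  ty := [8092539 / 20000000, -13799553 / 6250000, 84417297 / 20000000, 98105673 / 100000000,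
    -891397883 / 100000000, 927817657 / 100000000, -39191099 / 12500000]

def t3m14 : ℚ := 1421 / 4096

def t3h14 : ℚ := 62 / 125

theorem t3k14_M_r1 : NC (fM t3c14 (1 - eh) eh ek (elo t3c14.B0 t3c14.Bh eh) (elo t3c14.D0 t3c14.Dh ek) (elo t3c14.E0 t3c14.Eh ek)) :=
  NC.of (K := 32) (D := ⟨4, 3, 1, 1⟩) (Box.of 4 (by decide +kernel))
    (by decide +kernel)

theorem t3k14_M_r2 : NC (fM t3c14 eh (1 - eh) ek (ehi t3c14.Bh t3c14.B1 (1 - eh)) (elo t3c14.D0 t3c14.Dh ek) (elo t3c14.E0 t3c14.Eh ek)) :=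
  NC.of (K := 32) (D := ⟨4, 3, 1, 1⟩) (Box.of 4 (by decide +kernel))
    (by decide +kernel)

theorem t3k14_M_r3 : NC (fM t3c14 (1 - eh) ek eh (elo t3c14.B0 t3c14.Bh ek) (elo t3c14.D0 t3c14.Dh eh) (elo t3c14.E0 t3c14.Eh eh)) :=
  NC.of (K := 31) (D := ⟨4, 2, 1, 1⟩) (Box.of 4 (by decide +kernel))
    (by decide +kernel)

theorem t3k14_M_r4 : NC (fM t3c14 eh ek (1 - eh) (elo t3c14.B0 t3c14.Bh ek) (ehi t3c14.Dh t3c14.D1 (1 - eh)) (ehi t3c14.Eh t3c14.E1 (1 - eh))) :=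
  NC.of (K := 31) (D := ⟨4, 2, 1, 1⟩) (Box.of 4 (by decide +kernel))
    (by decide +kernel)

theorem t3k14_r0_r1 : NC (f0 t3c14 (1 - eh) eh ek (elo t3c14.B0 t3c14.Bh eh) (elo t3c14.D0 t3c14.Dh ek) (elo t3c14.E0 t3c14.Eh ek)) :=
  NC.of (K := 139) (D := ⟨13, 9, 1, 1⟩) (Box.of 4 (by decide +kernel))
    (by decide +kernel)

theorem t3k14_r0_r2 : NC (f0 t3c14 eh (1 - eh) ek (ehi t3c14.Bh t3c14.B1 (1 - eh)) (elo t3c14.D0 t3c14.Dh ek) (elo t3c14.E0 t3c14.Eh ek)) :=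
  NC.of (K := 139) (D := ⟨13, 9, 1, 1⟩) (Box.of 4 (by decide +kernel))
    (by decide +kernel)

theorem t3k14_r0_r3 : NC (f0 t3c14 (1 - eh) ek eh (elo t3c14.B0 t3c14.Bh ek) (elo t3c14.D0 t3c14.Dh eh) (elo t3c14.E0 t3c14.Eh eh)) :=
  NC.of (K := 134) (D := ⟨13, 5, 1, 1⟩) (Box.of 4 (by decide +kernel))
    (by decide +kernel)

theorem t3k14_r0_r4 : NC (f0 t3c14 eh ek (1 - eh) (elo t3c14.B0 t3c14.Bh ek) (ehi t3c14.Dh t3c14.D1 (1 - eh)) (ehi t3c14.Eh t3c14.E1 (1 - eh))) :=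
  NC.of (K := 135) (D := ⟨13, 5, 1, 1⟩) (Box.of 4 (by decide +kernel))
    (by decide +kernel)

theorem t3k14_r1_r1 : NC (f1 t3c14 (1 - eh) eh ek (elo t3c14.B0 t3c14.Bh eh) (elo t3c14.D0 t3c14.Dh ek) (elo t3c14.E0 t3c14.Eh ek)) :=
  NC.of (K := 182) (D := ⟨16, 9, 1, 1⟩) (Box.of 4 (by decide +kernel))
    (by decide +kernel)

theorem t3k14_r1_r2 : NC (f1 t3c14 eh (1 - eh) ek (ehi t3c14.Bh t3c14.B1 (1 - eh)) (elo t3c14.D0 t3c14.Dh ek) (elo t3c14.E0 t3c14.Eh ek)) :=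
  NC.of (K := 185) (D := ⟨16, 9, 1, 1⟩) (Box.of 4 (by decide +kernel))
    (by decide +kernel)

theorem t3k14_r1_r3 : NC (f1 t3c14 (1 - eh) ek eh (elo t3c14.B0 t3c14.Bh ek) (elo t3c14.D0 t3c14.Dh eh) (elo t3c14.E0 t3c14.Eh eh)) :=
  NC.of (K := 185) (D := ⟨16, 12, 1, 1⟩) (Box.of 4 (by decide +kernel))
    (by decide +kernel)

theorem t3k14_r1_r4 : NC (f1 t3c14 eh ek (1 - eh) (elo t3c14.B0 t3c14.Bh ek) (ehi t3c14.Dh t3c14.D1 (1 - eh)) (ehi t3c14.Eh t3c14.E1 (1 - eh))) :=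
  NC.of (K := 186) (D := ⟨16, 12, 1, 1⟩) (Box.of 4 (by decide +kernel))
    (by decide +kernel)

theorem t3k14_r2_r1 : NC (f2 t3c14 (1 - eh) eh ek (elo t3c14.B0 t3c14.Bh eh) (elo t3c14.D0 t3c14.Dh ek) (elo t3c14.E0 t3c14.Eh ek)) :=
  NC.of (K := 184) (D := ⟨16, 11, 1, 1⟩) (Box.of 4 (by decide +kernel))
    (by decide +kernel)

theorem t3k14_r2_r2 : NC (f2 t3c14 eh (1 - eh) ek (ehi t3c14.Bh t3c14.B1 (1 - eh)) (elo t3c14.D0 t3c14.Dh ek) (elo t3c14.E0 t3c14.Eh ek)) :=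
  NC.of (K := 187) (D := ⟨16, 11, 1, 1⟩) (Box.of 4 (by decide +kernel))
    (by decide +kernel)

theorem t3k14_r2_r3 : NC (f2 t3c14 (1 - eh) ek eh (elo t3c14.B0 t3c14.Bh ek) (elo t3c14.D0 t3c14.Dh eh) (elo t3c14.E0 t3c14.Eh eh)) :=
  NC.of (K := 185) (D := ⟨16, 12, 1, 1⟩) (Box.of 4 (by decide +kernel))
    (by decide +kernel)

theorem t3k14_r2_r4 : NC (f2 t3c14 eh ek (1 - eh) (elo t3c14.B0 t3c14.Bh ek) (ehi t3c14.Dh t3c14.D1 (1 - eh)) (ehi t3c14.Eh t3c14.E1 (1 - eh))) :=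
  NC.of (K := 187) (D := ⟨16, 12, 1, 1⟩) (Box.of 4 (by decide +kernel))
    (by decide +kernel)

theorem t3k14_rc_r1 : NC (fc t3c14 (1 - eh) eh ek (elo t3c14.B0 t3c14.Bh eh) (elo t3c14.D0 t3c14.Dh ek) (elo t3c14.E0 t3c14.Eh ek)) :=
  NC.of (K := 139) (D := ⟨13, 9, 1, 1⟩) (Box.of 4 (by decide +kernel))
    (by decide +kernel)

theorem t3k14_rc_r2 : NC (fc t3c14 eh (1 - eh) ek (ehi t3c14.Bh t3c14.B1 (1 - eh)) (elo t3c14.D0 t3c14.Dh ek) (elo t3c14.E0 t3c14.Eh ek)) :=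
  NC.of (K := 138) (D := ⟨13, 9, 1, 1⟩) (Box.of 4 (by decide +kernel))
    (by decide +kernel)

theorem t3k14_rc_r3 : NC (fc t3c14 (1 - eh) ek eh (elo t3c14.B0 t3c14.Bh ek) (elo t3c14.D0 t3c14.Dh eh) (elo t3c14.E0 t3c14.Eh eh)) :=
  NC.of (K := 134) (D := ⟨13, 5, 1, 1⟩) (Box.of 4 (by decide +kernel))
    (by decide +kernel)

theorem t3k14_rc_r4 : NC (fc t3c14 eh ek (1 - eh) (elo t3c14.B0 t3c14.Bh ek) (ehi t3c14.Dh t3c14.D1 (1 - eh)) (ehi t3c14.Eh t3c14.E1 (1 - eh))) :=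
  NC.of (K := 135) (D := ⟨13, 5, 1, 1⟩) (Box.of 4 (by decide +kernel))
    (by decide +kernel)

theorem t3k14_rI_r1 : NC (fI t3c14 (1 - eh) eh ek (elo t3c14.B0 t3c14.Bh eh) (elo t3c14.D0 t3c14.Dh ek) (elo t3c14.E0 t3c14.Eh ek)) :=
  NC.of (K := 126) (D := ⟨13, 9, 1, 1⟩) (Box.of 4 (by decide +kernel))
    (by decide +kernel)

theorem t3k14_rI_r2 : NC (fI t3c14 eh (1 - eh) ek (ehi t3c14.Bh t3c14.B1 (1 - eh)) (elo t3c14.D0 t3c14.Dh ek) (elo t3c14.E0 t3c14.Eh ek)) :=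
  NC.of (K := 127) (D := ⟨13, 9, 1, 1⟩) (Box.of 4 (by decide +kernel))
    (by decide +kernel)

theorem t3k14_rI_r3 : NC (fI t3c14 (1 - eh) ek eh (elo t3c14.B0 t3c14.Bh ek) (elo t3c14.D0 t3c14.Dh eh) (elo t3c14.E0 t3c14.Eh eh)) :=
  NC.of (K := 122) (D := ⟨13, 5, 1, 1⟩) (Box.of 4 (by decide +kernel))
    (by decide +kernel)

theorem t3k14_rI_r4 : NC (fI t3c14 eh ek (1 - eh) (elo t3c14.B0 t3c14.Bh ek) (ehi t3c14.Dh t3c14.D1 (1 - eh)) (ehi t3c14.Eh t3c14.E1 (1 - eh))) :=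
  NC.of (K := 123) (D := ⟨13, 5, 1, 1⟩) (Box.of 4 (by decide +kernel))
    (by decide +kernel)

theorem t3k14_rJ_r1 : NC (fJ t3c14 (1 - eh) eh ek (elo t3c14.B0 t3c14.Bh eh) (elo t3c14.D0 t3c14.Dh ek) (elo t3c14.E0 t3c14.Eh ek)) :=
  NC.of (K := 77) (D := ⟨7, 5, 1, 1⟩) (Box.of 4 (by decide +kernel))
    (by decide +kernel)

theorem t3k14_rJ_r2 : NC (fJ t3c14 eh (1 - eh) ek (ehi t3c14.Bh t3c14.B1 (1 - eh)) (elo t3c14.D0 t3c14.Dh ek) (elo t3c14.E0 t3c14.Eh ek)) :=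
  NC.of (K := 77) (D := ⟨7, 5, 1, 1⟩) (Box.of 4 (by decide +kernel))
    (by decide +kernel)

theorem t3k14_rJ_r3 : NC (fJ t3c14 (1 - eh) ek eh (elo t3c14.B0 t3c14.Bh ek) (elo t3c14.D0 t3c14.Dh eh) (elo t3c14.E0 t3c14.Eh eh)) :=
  NC.of (K := 74) (D := ⟨7, 3, 1, 1⟩) (Box.of 4 (by decide +kernel))
    (by decide +kernel)

theorem t3k14_rJ_r4 : NC (fJ t3c14 eh ek (1 - eh) (elo t3c14.B0 t3c14.Bh ek) (ehi t3c14.Dh t3c14.D1 (1 - eh)) (ehi t3c14.Eh t3c14.E1 (1 - eh))) :=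
  NC.of (K := 74) (D := ⟨7, 3, 1, 1⟩) (Box.of 4 (by decide +kernel))
    (by decide +kernel)

theorem t3k14_gE_r1 : NC (fE t3c14 t3e14 (1 - eh) eh ek (elo t3c14.B0 t3c14.Bh eh) (elo t3c14.D0 t3c14.Dh ek) (elo t3c14.E0 t3c14.Eh ek)) :=
  NC.of (K := 150) (D := ⟨13, 9, 1, 1⟩) (Box.of 288 (by decide +kernel))
    (by decide +kernel)

theorem t3k14_gE_r2 : NC (fE t3c14 t3e14 eh (1 - eh) ek (ehi t3c14.Bh t3c14.B1 (1 - eh)) (elo t3c14.D0 t3c14.Dh ek) (elo t3c14.E0 t3c14.Eh ek)) :=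
  NC.of (K := 129) (D := ⟨13, 9, 1, 1⟩) (Box.of 4 (by decide +kernel))
    (by decide +kernel)

theorem t3k14_gE_r3 : NC (fE t3c14 t3e14 (1 - eh) ek eh (elo t3c14.B0 t3c14.Bh ek) (elo t3c14.D0 t3c14.Dh eh) (elo t3c14.E0 t3c14.Eh eh)) :=
  NC.of (K := 148) (D := ⟨13, 7, 1, 1⟩) (Box.of 288 (by decide +kernel))
    (by decide +kernel)

theorem t3k14_gE_r4 : NC (fE t3c14 t3e14 eh ek (1 - eh) (elo t3c14.B0 t3c14.Bh ek) (ehi t3c14.Dh t3c14.D1 (1 - eh)) (ehi t3c14.Eh t3c14.E1 (1 - eh))) :=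
  NC.of (K := 127) (D := ⟨13, 7, 1, 1⟩) (Box.of 4 (by decide +kernel))
    (by decide +kernel)

theorem t3k14_B0 : NC (kB dW 1 0 t3c14.B0 (tcl t3c14)) :=
  NC.of (K := 93) (D := ⟨1, 1, 1, 9⟩) (Box.of 4 (by decide +kernel))
    (by decide +kernel)

theorem t3k14_E0 : NC (kE dW qW qW.p0 qW.q0 t3c14.E0 (tcl t3c14)) :=
  NC.of (K := 206) (D := ⟨1, 1, 1, 19⟩) (Box.of 4 (by decide +kernel))
    (by decide +kernel)

theorem t3k14_D0 : NC (kD dW qW 1 0 qW.p0 qW.q0 t3c14.D0 (tcl t3c14)) :=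
  NC.of (K := 322) (D := ⟨1, 1, 1, 20⟩) (Box.of 4 (by decide +kernel))
    (by decide +kernel)

theorem t3k14_Bh : NC (kB dW (1 / 2) (1 / 2) t3c14.Bh (tcl t3c14)) :=
  NC.of (K := 96) (D := ⟨1, 1, 1, 9⟩) (Box.of 4 (by decide +kernel))
    (by decide +kernel)

theorem t3k14_Eh : NC (kE dW qW qW.ph qW.qh t3c14.Eh (tcl t3c14)) :=
  NC.of (K := 210) (D := ⟨1, 1, 1, 19⟩) (Box.of 4 (by decide +kernel))
    (by decide +kernel)

theorem t3k14_Dh : NC (kD dW qW (1 / 2) (1 / 2) qW.ph qW.qh t3c14.Dh (tcl t3c14)) :=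
  NC.of (K := 326) (D := ⟨1, 1, 1, 20⟩) (Box.of 4 (by decide +kernel))
    (by decide +kernel)

theorem t3k14_B1 : NC (kB dW 0 (1 / 2) t3c14.B1 (tcl t3c14)) :=
  NC.of (K := 96) (D := ⟨1, 1, 1, 9⟩) (Box.of 4 (by decide +kernel))
    (by decide +kernel)

theorem t3k14_E1 : NC (kE dW qW qW.p1 qW.q1 t3c14.E1 (tcl t3c14)) :=
  NC.of (K := 210) (D := ⟨1, 1, 1, 19⟩) (Box.of 4 (by decide +kernel))
    (by decide +kernel)

theorem t3k14_D1 : NC (kD dW qW 0 (1 / 2) qW.p1 qW.q1 t3c14.D1 (tcl t3c14)) :=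
  NC.of (K := 326) (D := ⟨1, 1, 1, 20⟩) (Box.of 4 (by decide +kernel))
    (by decide +kernel)

theorem t3k14_l : NC (qc t3n14.lb - (1 - vX) * pe (exl t3c14.th) vX ^ 2) :=
  NC.of (K := 82) (D := ⟨10, 1, 1, 1⟩) (Box.of 4 (by decide +kernel))
    (by decide +kernel)

theorem t3k14_n : NC (qc t3n14.nb - vX * (1 - vX) * pe (exl t3c14.th) vX) :=
  NC.of (K := 94) (D := ⟨7, 1, 1, 1⟩) (Box.of 76677152 (by decide +kernel))
    (by decide +kernel)

theorem t3k14_rb : NC (krb t3n14 fW (t1v t3c14)) :=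
  NC.of (K := 149) (D := ⟨1, 1, 1, 16⟩) (Box.of 4 (by decide +kernel))
    (by decide +kernel)

theorem t3k14_kap : NC (kkap dW qW t3n14 (tcl t3c14)) :=
  NC.of (K := 93) (D := ⟨1, 1, 1, 9⟩) (Box.of 4 (by decide +kernel))
    (by decide +kernel)

theorem t3k14_wb2 : NC (qc t3n14.b2 - pe2 kW.QB (vZ * t1v t3c14) (t1v t3c14)) :=
  NC.of (K := 120) (D := ⟨1, 6, 1, 11⟩) (Box.of 291 (by decide +kernel))
    (by decide +kernel)

theorem t3k14_wmb : NC (qc t3n14.Mb - pe zW.mb (t1v t3c14)) :=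
  NC.of (K := 94) (D := ⟨1, 1, 1, 9⟩) (Box.of 291 (by decide +kernel))
    (by decide +kernel)

theorem t3k14_wth : NC (qc (t3c14.th / t3c14.t1) - pe2 zW.Qt (vZ * t1v t3c14) (t1v t3c14)) :=
  NC.of (K := 122) (D := ⟨1, 6, 1, 11⟩) (Box.of 291 (by decide +kernel))
    (by decide +kernel)

theorem t3k14_wyb : NC (qc t3n14.Yb - (t1v t3c14 - vZ * t1v t3c14) ^ 3 * pe2 yW.QY (vZ * t1v t3c14) (t1v t3c14)) :=
  NC.of (K := 101) (D := ⟨1, 8, 1, 12⟩) (Box.of 4 (by decide +kernel))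
    (by decide +kernel)

theorem t3k14_wmu : NC (qc t3m14 - pe t3al (tcl t3c14) * (1 + hlf * tcl t3c14)) :=
  NC.of (K := 89) (D := ⟨1, 1, 1, 9⟩) (Box.of 4 (by decide +kernel))
    (by decide +kernel)

theorem t3k14_wcj : NC (qc t3c14.C * ((6 - 3 * vX) * (1 - qc t3m14 * vX)) - (6 - 6 * vX + vX ^ 2)) :=
  NC.of (K := 34) (D := ⟨3, 1, 1, 1⟩) (Box.of 4 (by decide +kernel))
    (by decide +kernel)

theorem t3k14_nd1 : NC (pe t3r14.d1 (t1v t3c14)) :=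
  NC.of (K := 57) (D := ⟨1, 1, 1, 7⟩) (Box.of 4 (by decide +kernel))
    (by decide +kernel)

theorem t3k14_nd2 : NC (pe t3r14.d2 (t1v t3c14)) :=
  NC.of (K := 57) (D := ⟨1, 1, 1, 7⟩) (Box.of 4 (by decide +kernel))
    (by decide +kernel)

theorem t3k14_ndy : NC (pe t3r14.dy (t1v t3c14)) :=
  NC.of (K := 60) (D := ⟨1, 1, 1, 7⟩) (Box.of 4 (by decide +kernel))
    (by decide +kernel)

theorem t3k14_nt1 : NC (pe t3r14.t1 (t1v t3c14)) :=
  NC.of (K := 62) (D := ⟨1, 1, 1, 7⟩) (Box.of 4 (by decide +kernel))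
    (by decide +kernel)

theorem t3k14_nt2 : NC (pe t3r14.t2 (t1v t3c14)) :=
  NC.of (K := 60) (D := ⟨1, 1, 1, 7⟩) (Box.of 4 (by decide +kernel))
    (by decide +kernel)

theorem t3k14_nty : NC (pe t3r14.ty (t1v t3c14)) :=
  NC.of (K := 64) (D := ⟨1, 1, 1, 7⟩) (Box.of 4 (by decide +kernel))
    (by decide +kernel)

theorem t3k14_nhz : NC (pe t3r14.hz (t1v t3c14)) :=
  NC.of (K := 105) (D := ⟨1, 1, 1, 7⟩) (Box.of 1197795 (by decide +kernel))
    (by decide +kernel)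

theorem t3k14_xi : NC (eXi fW t3c14 t3e14 t3r14 (t1v t3c14)) :=
  NC.of (K := 248) (D := ⟨1, 1, 1, 22⟩) (Box.of 4 (by decide +kernel))
    (by decide +kernel)

theorem t3k14_om : NC (eOm fW t3r14 (t1v t3c14)) :=
  NC.of (K := 140) (D := ⟨1, 1, 1, 16⟩) (Box.of 4 (by decide +kernel))
    (by decide +kernel)

theorem t3k14_fin : NC (eFin dW t3c14 t3n14 t3r14 t3h14 (tcl t3c14)) :=
  NC.of (K := 211) (D := ⟨1, 1, 1, 14⟩) (Box.of 4 (by decide +kernel))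
    (by decide +kernel)

theorem t3k14_xdl : NC (qc t3e14.dl - pe t3d14.l.dl t3d14.eU) :=
  NC.of (K := 66) (D := ⟨1, 4, 1, 1⟩) (Box.of 4 (by decide +kernel))
    (by decide +kernel)

theorem t3k14_xeY : NC (qc t3e14.eY - pe (e4l t3d14.l.z) t3d14.eU) :=
  NC.of (K := 264) (D := ⟨1, 13, 1, 1⟩) (Box.of 4 (by decide +kernel))
    (by decide +kernel)

theorem t3k14_xgr : NC (qc t3d14.ga * ((1 + qc (3 / 5) * vX) * (1 + (t3d14.eg + hlf * t3d14.eg ^ 2))) + qc t3d14.gb - pe2 t3GR vX t3d14.eU) :=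
  NC.of (K := 227) (D := ⟨4, 11, 1, 1⟩) (Box.of 288 (by decide +kernel))
    (by decide +kernel)

theorem t3k14_xhr : NC (qc t3d14.hb - pe2 t3HR vX t3d14.eU) :=
  NC.of (K := 239) (D := ⟨3, 12, 1, 1⟩) (Box.of 4 (by decide +kernel))
    (by decide +kernel)

theorem t3k14_xgs : NC (pe t3d14.gs t3d14.e1 - qc (8 / 5) * pe (e4l (ladd t3d14.ls.z t3d14.ls.dl)) t3d14.e1) :=
  NC.of (K := 272) (D := ⟨1, 1, 1, 13⟩) (Box.of 4 (by decide +kernel))
    (by decide +kernel)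

theorem t3k14_xd1 : NC (pe t3d14.d1 t3d14.e1 - t3d14.eA t3d14.eU t3d14.e1) :=
  NC.of (K := 262) (D := ⟨1, 12, 1, 12⟩) (Box.of 4 (by decide +kernel))
    (by decide +kernel)

theorem t3k14_xd2 : NC (pe t3d14.d2 t3d14.e1 - t3d14.eB t3d14.eU t3d14.e1) :=
  NC.of (K := 306) (D := ⟨1, 12, 1, 12⟩) (Box.of 18659 (by decide +kernel))
    (by decide +kernel)

theorem t3k14_xt1 : NC (pe t3d14.t1 t3d14.e1 - t3d14.eAT t3d14.eU t3d14.e1) :=
  NC.of (K := 467) (D := ⟨1, 19, 1, 19⟩) (Box.of 291 (by decide +kernel))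
    (by decide +kernel)

theorem t3k14_xt2 : NC (pe t3d14.t2 t3d14.e1 - t3d14.eBT t3d14.eU t3d14.e1) :=
  NC.of (K := 465) (D := ⟨1, 19, 1, 19⟩) (Box.of 291 (by decide +kernel))
    (by decide +kernel)

theorem t3k14_xdy : NC (pe t3d14.dy t3d14.e1 - t3d14.eSD t3d14.eU t3d14.e1) :=
  NC.of (K := 404) (D := ⟨1, 18, 1, 12⟩) (Box.of 4 (by decide +kernel))
    (by decide +kernel)

theorem t3k14_xty : NC (pe t3d14.ty t3d14.e1 - t3d14.eST t3d14.eU t3d14.e1) :=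
  NC.of (K := 608) (D := ⟨1, 26, 1, 26⟩) (Box.of 4 (by decide +kernel))
    (by decide +kernel)

theorem t3k14_xd1s : NC (pe t3r14.d1 (t1v t3c14) - pe t3d14.d1 (Xcd.ew zW t3c14)) :=
  NC.of (K := 509) (D := ⟨1, 1, 1, 55⟩) (Box.of 4 (by decide +kernel))
    (by decide +kernel)

theorem t3k14_xd2s : NC (pe t3r14.d2 (t1v t3c14) - pe t3d14.d2 (Xcd.ew zW t3c14)) :=
  NC.of (K := 520) (D := ⟨1, 1, 1, 55⟩) (Box.of 4 (by decide +kernel))
    (by decide +kernel)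

theorem t3k14_xt1s : NC (pe t3r14.t1 (t1v t3c14) - pe t3d14.t1 (Xcd.ew zW t3c14)) :=
  NC.of (K := 516) (D := ⟨1, 1, 1, 55⟩) (Box.of 4 (by decide +kernel))
    (by decide +kernel)

theorem t3k14_xt2s : NC (pe t3r14.t2 (t1v t3c14) - pe t3d14.t2 (Xcd.ew zW t3c14)) :=
  NC.of (K := 518) (D := ⟨1, 1, 1, 55⟩) (Box.of 4 (by decide +kernel))
    (by decide +kernel)

theorem t3k14_xdys : NC (pe t3r14.dy (t1v t3c14) - pe t3d14.dy (Xcd.ew zW t3c14)) :=
  NC.of (K := 517) (D := ⟨1, 1, 1, 55⟩) (Box.of 4 (by decide +kernel))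
    (by decide +kernel)

theorem t3k14_xtys : NC (pe t3r14.ty (t1v t3c14) - pe t3d14.ty (Xcd.ew zW t3c14)) :=
  NC.of (K := 517) (D := ⟨1, 1, 1, 55⟩) (Box.of 4 (by decide +kernel))
    (by decide +kernel)

theorem t3k14_xhz : NC (pe t3r14.hz (t1v t3c14) - pe t3d14.c.dR (Xcd.ew zW t3c14)) :=
  NC.of (K := 525) (D := ⟨1, 1, 1, 55⟩) (Box.of 4 (by decide +kernel))
    (by decide +kernel)

theorem t3f14_ok : t3f14.ok V2L.y6 V2L.k6 V2L.nb V2L.la (10 ^ 30) 32 = true := by decide +kernel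

theorem t3k14_sg : t3c14.Sg := by
  constructor <;> decide +kernel

theorem t3k14_rgs : t3c14.Rgs where
  M := ⟨t3k14_M_r1, t3k14_M_r2, t3k14_M_r3, t3k14_M_r4⟩
  r0 := ⟨t3k14_r0_r1, t3k14_r0_r2, t3k14_r0_r3, t3k14_r0_r4⟩
  r1 := ⟨t3k14_r1_r1, t3k14_r1_r2, t3k14_r1_r3, t3k14_r1_r4⟩
  r2 := ⟨t3k14_r2_r1, t3k14_r2_r2, t3k14_r2_r3, t3k14_r2_r4⟩
  rc := ⟨t3k14_rc_r1, t3k14_rc_r2, t3k14_rc_r3, t3k14_rc_r4⟩
  rI := ⟨t3k14_rI_r1, t3k14_rI_r2, t3k14_rI_r3, t3k14_rI_r4⟩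
  rJ := ⟨t3k14_rJ_r1, t3k14_rJ_r2, t3k14_rJ_r3, t3k14_rJ_r4⟩

theorem t3k14_xn : t3e14.Ok t3c14 where
  lm := by decide +kernel
  dl0 := by decide +kernel
  dl1 := by decide +kernel
  e2 := by decide +kernel
  eY := by decide +kernel
  gE := ⟨t3k14_gE_r1, t3k14_gE_r2, t3k14_gE_r3, t3k14_gE_r4⟩

theorem t3k14_vl : t3c14.Vl dW qW where
  bt := by decide +kernel
  B0 := t3k14_B0
  E0 := t3k14_E0
  D0 := t3k14_D0
  Bh := t3k14_Bh
  Eh := t3k14_Eh
  Dh := t3k14_Dh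
  B1 := t3k14_B1
  E1 := t3k14_E1
  D1 := t3k14_D1

theorem t3k14_rat : t3n14.Rat t3c14 := by
  constructor <;> decide +kernel

theorem t3k14_ck : t3n14.Ck t3c14 := ⟨t3k14_l, t3k14_n⟩

theorem t3k14_fck : t3n14.Fck dW qW fW t3c14 := ⟨t3k14_rb, t3k14_kap⟩

theorem t3k14_w : Wcl zW kW yW t3al t3c14 t3n14 t3m14 where
  b2 := t3k14_wb2
  mb := t3k14_wmb
  th := t3k14_wth
  yb := t3k14_wyb
  mu := t3k14_wmu
  cj := t3k14_wcj
  mt1 := by decide +kernel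
  mt2 := by decide +kernel

theorem t3k14_ok : CelOk dW qW fW t3c14 t3n14 where
  s := t3k14_sg
  r := t3k14_rgs
  v := t3k14_vl
  rt := t3k14_rat
  k := t3k14_ck
  fc := t3k14_fck
  q01 := by decide +kernel
  q12 := by decide +kernel
  h2 := by decide +kernel

theorem t3k14_xr : t3r14.Ok fW t3c14 t3e14 where
  sD := by decide +kernel
  sT := by decide +kernel
  nd1 := t3k14_nd1
  nd2 := t3k14_nd2
  ndy := t3k14_ndy
  nt1 := t3k14_nt1
  nt2 := t3k14_nt2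
  nty := t3k14_nty
  nhz := t3k14_nhz
  xi := t3k14_xi
  om := t3k14_om

theorem t3k14_X : t3d14.Ck t3GR t3HR zW t3c14 t3e14 t3r14 where
  u0 := by decide +kernel
  u01 := by decide +kernel
  ul := by decide +kernel
  us := by decide +kernel
  uc := by decide +kernel
  ga0 := by decide +kernel
  kp0 := by decide +kernel
  lm := by decide +kernel
  dl := t3k14_xdl
  eY := t3k14_xeY
  gr := t3k14_xgr
  hr := t3k14_xhr
  gs := t3k14_xgs
  d1 := t3k14_xd1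
  d2 := t3k14_xd2
  t1 := t3k14_xt1
  t2 := t3k14_xt2
  dy := t3k14_xdy
  ty := t3k14_xty
  d1s := t3k14_xd1s
  d2s := t3k14_xd2s
  t1s := t3k14_xt1s
  t2s := t3k14_xt2s
  dys := t3k14_xdys
  tys := t3k14_xtys
  hz := t3k14_xhz

end Pool.Agent.RX.RCN.K
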