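import Pool.Agent.RX.RCN.T3D
import Pool.Agent.RX.RCN.T3Wq
import Pool.Agent.RX.RCN.T3X6
import Pool.Agent.RX.RCN.VLd

/-! Certificates (generated). -/

set_option autoImplicit false

namespace Pool.Agent.RX.RCN.K

open Set Pool.Agent.RX.RCM9 Pool.Agent.RX.RCM9.Bern Pool.Agent.RX.RCM9.Pk Xce

def t3c15 : Cel where
  t0 := 7 / 20
  t1 := 9 / 25
  C := 4097 / 4096
  th := 1481 / 4096
  B0 := 2211 / 2048
  Bh := 2311 / 2048
  B1 := 2233 / 2048
  D0 := 595 / 2048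
  Dh := 463 / 2048
  D1 := 55 / 256
  E0 := 1733 / 524288
  Eh := 11185 / 4194304
  E1 := 5319 / 2097152
  Q0 := 277 / 256
  Q1 := 277 / 256
  Q2 := 277 / 256
  Ac := 277 / 256
  gI := 277 / 256
  J := 8895 / 2097152

def t3n15 : Chn where
  lb := 513 / 512
  nb := 155 / 512
  Mb := 1029 / 1024
  b2 := 65 / 64
  Yb := 3 / 512
  E2 := 4145 / 4096
  e1 := 155 / 128
  Z1 := 1133 / 1024
  Z2 := 39 / 64
  KB := 1053 / 1024
  cb := 1063 / 1024
  rb := 165 / 512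
  om := 263 / 256
  fb := 129 / 128
  kap := 4141 / 4096
  ab := 1029 / 1024

def t3e15 : Xge where
  lm := 3 / 5
  dl := 1455 / 4096
  e2 := 585 / 8192
  eY := 2061 / 2048
  gE := 141 / 128

def t3r15 : Xr where
  d1 := [605421 / 50000000, 127921 / 100000000, 49089 / 4000000, 2590949 / 100000000, 20877 /
    12500000, 1194817 / 50000000, 2568513 / 100000000]
  d2 := [4331 / 100000000, 907219 / 100000000, 273063 / 20000000, 59470767 / 100000000, -277158819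
    / 100000000, 638679547 / 100000000, -110073049 / 20000000]
  dy := [1498029 / 20000000, 77387 / 4000000, 7126277 / 50000000, 40710907 / 100000000, -22566199
    / 25000000, 55084107 / 50000000, -922343 / 1562500]
  t1 := [1097343 / 12500000, -19467281 / 50000000, 3858319 / 6250000, -1188887 / 500000, 187744997
    / 12500000, -981795627 / 25000000, 967877703 / 25000000]
  t2 := [161139 / 10000000, -1492283 / 20000000, 669413 / 6250000, 32509813 / 100000000, 4523541 /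
    50000000, -16053213 / 6250000, 6206079 / 1562500]
  ty := [8916711 / 20000000, -237848229 / 100000000, 90031813 / 20000000, 73784581 / 100000000,
    -85706127 / 10000000, 108588331 / 12500000, -272436513 / 100000000]
  hz := [1171871 / 12500000, 370039 / 4000000, -1146739093 / 100000000, 3698924443 / 50000000,
    -4511956927 / 25000000, 15587208659 / 100000000, 20784821 / 100000000]
  om := [100396701 / 100000000, 51063729 / 50000000, -275354231 / 20000000, 5257260543 /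
    100000000, -10089322757 / 100000000, 5164320573 / 50000000, 4934156457 / 100000000,
    -32631288921 / 100000000, 29962298899 / 100000000]
  sD := 521 / 256
  sT := 29 / 16
  xi := [840981 / 25000000, 8967413 / 25000000, -146315563 / 100000000, -241757919 / 25000000,
    426466389 / 5000000, -513797273 / 2500000, 1397769237 / 20000000, 44686047717 / 100000000,
    -34327974603 / 50000000, 36065173493 / 100000000]

def t3f15 : Dl where
  Ca := 3510903 / 10000000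
  Cv := 180561 / 500000
  k1 := 1196809 / 1250000
  ks := 941927 / 1000000
  dd := 0
  kp := 7 / 10000000
  e := [199999939973 / 200000000000, -641330228023 / 500000000000, 1293812735167 / 1000000000000,
    -1152127199253 / 1000000000000, 491806506437 / 500000000000, -198105107801 / 250000000000,
    583488128987 / 1000000000000, -34689443393 / 100000000000, 2934454367 / 25000000000]
  j1 := [-2927453 / 1000000000, -2469142949 / 250000000, 44285290191 / 500000000, -378458179403 /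
    1000000000, 942537926459 / 1000000000, -281475005129 / 200000000, 75733883819 / 62500000,
    -15284055419 / 31250000]
  nu := [14956369 / 250000000, -97039697 / 500000000, 97494703 / 250000000, 13127093 / 100000000,
    -985452309 / 1000000000, 468407553 / 125000000, -851457151 / 200000000]
  k2 := [235482033 / 250000000, 36562277 / 200000000, -87351571 / 250000000, -39734437 /
    200000000, 205036963 / 200000000, -454760839 / 125000000, 2080962941 / 500000000]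
  dR := [4678073 / 50000000, 9232433 / 100000000, -56998093 / 5000000, 3666212939 / 50000000,
    -17838771281 / 100000000, 7687191709 / 50000000]

def t3d15 : Xce where
  u0 := 35159 / 100000
  u1 := 180561 / 500000
  l := V2L.y6
  y := t3z6
  j := t3j6
  i := t3i6
  ls := t3y6
  k := V2L.k6
  c := t3f15
  ga := 2417 / 200000
  gb := -863 / 250000
  hb := 3163 / 62500
  gs := [32000549 / 20000000, 239999969 / 100000000, 180001323 / 100000000, 19894649 / 25000000,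
    13375323 / 50000000, -12323103 / 100000000, -5874009 / 100000000]
  d1 := [1210059 / 100000000, 31853 / 25000000, 1225553 / 100000000, 2475777 / 100000000, 192243 /
    25000000, 597987 / 100000000, 4353711 / 100000000]
  d2 := [1839 / 50000000, 113017 / 12500000, 687071 / 50000000, 14661069 / 25000000, -67968263 /
    25000000, 623333761 / 100000000, -534387607 / 100000000]
  dy := [149693 / 2000000, 1928151 / 100000000, 7103 / 50000, 1981883 / 5000000, -84318231 /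
    100000000, 4700319 / 5000000, -5316429 / 12500000]
  t1 := [8774323 / 100000000, -38809973 / 100000000, 15302641 / 25000000, -58502469 / 25000000,
    1475295427 / 100000000, -3846543147 / 100000000, 59078287 / 1562500]
  t2 := [80529 / 5000000, -7438093 / 100000000, 5319003 / 50000000, 16110779 / 50000000, 1150903 /
    12500000, -254269351 / 100000000, 6119277 / 1562500]
  ty := [22280521 / 50000000, -11854131 / 5000000, 89291663 / 20000000, 82824471 / 100000000,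
    -894328821 / 100000000, 483639413 / 50000000, -73577479 / 20000000]

def t3m15 : ℚ := 729 / 2048

def t3h15 : ℚ := 62 / 125

theorem t3k15_M_r1 : NC (fM t3c15 (1 - eh) eh ek (elo t3c15.B0 t3c15.Bh eh) (elo t3c15.D0 t3c15.Dh ek) (elo t3c15.E0 t3c15.Eh ek)) :=
  NC.of (K := 28) (D := ⟨4, 3, 1, 1⟩) (Box.of 4 (by decide +kernel))
    (by decide +kernel)

theorem t3k15_M_r2 : NC (fM t3c15 eh (1 - eh) ek (ehi t3c15.Bh t3c15.B1 (1 - eh)) (elo t3c15.D0 t3c15.Dh ek) (elo t3c15.E0 t3c15.Eh ek)) :=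
  NC.of (K := 28) (D := ⟨4, 3, 1, 1⟩) (Box.of 4 (by decide +kernel))
    (by decide +kernel)

theorem t3k15_M_r3 : NC (fM t3c15 (1 - eh) ek eh (elo t3c15.B0 t3c15.Bh ek) (elo t3c15.D0 t3c15.Dh eh) (elo t3c15.E0 t3c15.Eh eh)) :=
  NC.of (K := 27) (D := ⟨4, 2, 1, 1⟩) (Box.of 4 (by decide +kernel))
    (by decide +kernel)

theorem t3k15_M_r4 : NC (fM t3c15 eh ek (1 - eh) (elo t3c15.B0 t3c15.Bh ek) (ehi t3c15.Dh t3c15.D1 (1 - eh)) (ehi t3c15.Eh t3c15.E1 (1 - eh))) :=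
  NC.of (K := 28) (D := ⟨4, 2, 1, 1⟩) (Box.of 4 (by decide +kernel))
    (by decide +kernel)

theorem t3k15_r0_r1 : NC (f0 t3c15 (1 - eh) eh ek (elo t3c15.B0 t3c15.Bh eh) (elo t3c15.D0 t3c15.Dh ek) (elo t3c15.E0 t3c15.Eh ek)) :=
  NC.of (K := 128) (D := ⟨13, 9, 1, 1⟩) (Box.of 4 (by decide +kernel))
    (by decide +kernel)

theorem t3k15_r0_r2 : NC (f0 t3c15 eh (1 - eh) ek (ehi t3c15.Bh t3c15.B1 (1 - eh)) (elo t3c15.D0 t3c15.Dh ek) (elo t3c15.E0 t3c15.Eh ek)) :=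
  NC.of (K := 128) (D := ⟨13, 9, 1, 1⟩) (Box.of 4 (by decide +kernel))
    (by decide +kernel)

theorem t3k15_r0_r3 : NC (f0 t3c15 (1 - eh) ek eh (elo t3c15.B0 t3c15.Bh ek) (elo t3c15.D0 t3c15.Dh eh) (elo t3c15.E0 t3c15.Eh eh)) :=
  NC.of (K := 123) (D := ⟨13, 5, 1, 1⟩) (Box.of 4 (by decide +kernel))
    (by decide +kernel)

theorem t3k15_r0_r4 : NC (f0 t3c15 eh ek (1 - eh) (elo t3c15.B0 t3c15.Bh ek) (ehi t3c15.Dh t3c15.D1 (1 - eh)) (ehi t3c15.Eh t3c15.E1 (1 - eh))) :=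
  NC.of (K := 128) (D := ⟨13, 5, 1, 1⟩) (Box.of 4 (by decide +kernel))
    (by decide +kernel)

theorem t3k15_r1_r1 : NC (f1 t3c15 (1 - eh) eh ek (elo t3c15.B0 t3c15.Bh eh) (elo t3c15.D0 t3c15.Dh ek) (elo t3c15.E0 t3c15.Eh ek)) :=
  NC.of (K := 231) (D := ⟨16, 9, 1, 1⟩) (Box.of 4 (by decide +kernel))
    (by decide +kernel)

theorem t3k15_r1_r2 : NC (f1 t3c15 eh (1 - eh) ek (ehi t3c15.Bh t3c15.B1 (1 - eh)) (elo t3c15.D0 t3c15.Dh ek) (elo t3c15.E0 t3c15.Eh ek)) :=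
  NC.of (K := 233) (D := ⟨16, 9, 1, 1⟩) (Box.of 4 (by decide +kernel))
    (by decide +kernel)

theorem t3k15_r1_r3 : NC (f1 t3c15 (1 - eh) ek eh (elo t3c15.B0 t3c15.Bh ek) (elo t3c15.D0 t3c15.Dh eh) (elo t3c15.E0 t3c15.Eh eh)) :=
  NC.of (K := 235) (D := ⟨16, 12, 1, 1⟩) (Box.of 4 (by decide +kernel))
    (by decide +kernel)

theorem t3k15_r1_r4 : NC (f1 t3c15 eh ek (1 - eh) (elo t3c15.B0 t3c15.Bh ek) (ehi t3c15.Dh t3c15.D1 (1 - eh)) (ehi t3c15.Eh t3c15.E1 (1 - eh))) :=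
  NC.of (K := 236) (D := ⟨16, 12, 1, 1⟩) (Box.of 4 (by decide +kernel))
    (by decide +kernel)

theorem t3k15_r2_r1 : NC (f2 t3c15 (1 - eh) eh ek (elo t3c15.B0 t3c15.Bh eh) (elo t3c15.D0 t3c15.Dh ek) (elo t3c15.E0 t3c15.Eh ek)) :=
  NC.of (K := 234) (D := ⟨16, 11, 1, 1⟩) (Box.of 4 (by decide +kernel))
    (by decide +kernel)

theorem t3k15_r2_r2 : NC (f2 t3c15 eh (1 - eh) ek (ehi t3c15.Bh t3c15.B1 (1 - eh)) (elo t3c15.D0 t3c15.Dh ek) (elo t3c15.E0 t3c15.Eh ek)) :=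
  NC.of (K := 235) (D := ⟨16, 11, 1, 1⟩) (Box.of 4 (by decide +kernel))
    (by decide +kernel)

theorem t3k15_r2_r3 : NC (f2 t3c15 (1 - eh) ek eh (elo t3c15.B0 t3c15.Bh ek) (elo t3c15.D0 t3c15.Dh eh) (elo t3c15.E0 t3c15.Eh eh)) :=
  NC.of (K := 235) (D := ⟨16, 12, 1, 1⟩) (Box.of 4 (by decide +kernel))
    (by decide +kernel)

theorem t3k15_r2_r4 : NC (f2 t3c15 eh ek (1 - eh) (elo t3c15.B0 t3c15.Bh ek) (ehi t3c15.Dh t3c15.D1 (1 - eh)) (ehi t3c15.Eh t3c15.E1 (1 - eh))) :=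
  NC.of (K := 237) (D := ⟨16, 12, 1, 1⟩) (Box.of 4 (by decide +kernel))
    (by decide +kernel)

theorem t3k15_rc_r1 : NC (fc t3c15 (1 - eh) eh ek (elo t3c15.B0 t3c15.Bh eh) (elo t3c15.D0 t3c15.Dh ek) (elo t3c15.E0 t3c15.Eh ek)) :=
  NC.of (K := 127) (D := ⟨13, 9, 1, 1⟩) (Box.of 4 (by decide +kernel))
    (by decide +kernel)

theorem t3k15_rc_r2 : NC (fc t3c15 eh (1 - eh) ek (ehi t3c15.Bh t3c15.B1 (1 - eh)) (elo t3c15.D0 t3c15.Dh ek) (elo t3c15.E0 t3c15.Eh ek)) :=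
  NC.of (K := 127) (D := ⟨13, 9, 1, 1⟩) (Box.of 4 (by decide +kernel))
    (by decide +kernel)

theorem t3k15_rc_r3 : NC (fc t3c15 (1 - eh) ek eh (elo t3c15.B0 t3c15.Bh ek) (elo t3c15.D0 t3c15.Dh eh) (elo t3c15.E0 t3c15.Eh eh)) :=
  NC.of (K := 122) (D := ⟨13, 5, 1, 1⟩) (Box.of 4 (by decide +kernel))
    (by decide +kernel)

theorem t3k15_rc_r4 : NC (fc t3c15 eh ek (1 - eh) (elo t3c15.B0 t3c15.Bh ek) (ehi t3c15.Dh t3c15.D1 (1 - eh)) (ehi t3c15.Eh t3c15.E1 (1 - eh))) :=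
  NC.of (K := 127) (D := ⟨13, 5, 1, 1⟩) (Box.of 4 (by decide +kernel))
    (by decide +kernel)

theorem t3k15_rI_r1 : NC (fI t3c15 (1 - eh) eh ek (elo t3c15.B0 t3c15.Bh eh) (elo t3c15.D0 t3c15.Dh ek) (elo t3c15.E0 t3c15.Eh ek)) :=
  NC.of (K := 118) (D := ⟨13, 9, 1, 1⟩) (Box.of 4 (by decide +kernel))
    (by decide +kernel)

theorem t3k15_rI_r2 : NC (fI t3c15 eh (1 - eh) ek (ehi t3c15.Bh t3c15.B1 (1 - eh)) (elo t3c15.D0 t3c15.Dh ek) (elo t3c15.E0 t3c15.Eh ek)) :=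
  NC.of (K := 118) (D := ⟨13, 9, 1, 1⟩) (Box.of 4 (by decide +kernel))
    (by decide +kernel)

theorem t3k15_rI_r3 : NC (fI t3c15 (1 - eh) ek eh (elo t3c15.B0 t3c15.Bh ek) (elo t3c15.D0 t3c15.Dh eh) (elo t3c15.E0 t3c15.Eh eh)) :=
  NC.of (K := 113) (D := ⟨13, 5, 1, 1⟩) (Box.of 4 (by decide +kernel))
    (by decide +kernel)

theorem t3k15_rI_r4 : NC (fI t3c15 eh ek (1 - eh) (elo t3c15.B0 t3c15.Bh ek) (ehi t3c15.Dh t3c15.D1 (1 - eh)) (ehi t3c15.Eh t3c15.E1 (1 - eh))) :=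
  NC.of (K := 118) (D := ⟨13, 5, 1, 1⟩) (Box.of 4 (by decide +kernel))
    (by decide +kernel)

theorem t3k15_rJ_r1 : NC (fJ t3c15 (1 - eh) eh ek (elo t3c15.B0 t3c15.Bh eh) (elo t3c15.D0 t3c15.Dh ek) (elo t3c15.E0 t3c15.Eh ek)) :=
  NC.of (K := 71) (D := ⟨7, 5, 1, 1⟩) (Box.of 4 (by decide +kernel))
    (by decide +kernel)

theorem t3k15_rJ_r2 : NC (fJ t3c15 eh (1 - eh) ek (ehi t3c15.Bh t3c15.B1 (1 - eh)) (elo t3c15.D0 t3c15.Dh ek) (elo t3c15.E0 t3c15.Eh ek)) :=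
  NC.of (K := 71) (D := ⟨7, 5, 1, 1⟩) (Box.of 4 (by decide +kernel))
    (by decide +kernel)

theorem t3k15_rJ_r3 : NC (fJ t3c15 (1 - eh) ek eh (elo t3c15.B0 t3c15.Bh ek) (elo t3c15.D0 t3c15.Dh eh) (elo t3c15.E0 t3c15.Eh eh)) :=
  NC.of (K := 69) (D := ⟨7, 3, 1, 1⟩) (Box.of 4 (by decide +kernel))
    (by decide +kernel)

theorem t3k15_rJ_r4 : NC (fJ t3c15 eh ek (1 - eh) (elo t3c15.B0 t3c15.Bh ek) (ehi t3c15.Dh t3c15.D1 (1 - eh)) (ehi t3c15.Eh t3c15.E1 (1 - eh))) :=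
  NC.of (K := 71) (D := ⟨7, 3, 1, 1⟩) (Box.of 4 (by decide +kernel))
    (by decide +kernel)

theorem t3k15_gE_r1 : NC (fE t3c15 t3e15 (1 - eh) eh ek (elo t3c15.B0 t3c15.Bh eh) (elo t3c15.D0 t3c15.Dh ek) (elo t3c15.E0 t3c15.Eh ek)) :=
  NC.of (K := 139) (D := ⟨13, 9, 1, 1⟩) (Box.of 288 (by decide +kernel))
    (by decide +kernel)

theorem t3k15_gE_r2 : NC (fE t3c15 t3e15 eh (1 - eh) ek (ehi t3c15.Bh t3c15.B1 (1 - eh)) (elo t3c15.D0 t3c15.Dh ek) (elo t3c15.E0 t3c15.Eh ek)) :=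
  NC.of (K := 118) (D := ⟨13, 9, 1, 1⟩) (Box.of 4 (by decide +kernel))
    (by decide +kernel)

theorem t3k15_gE_r3 : NC (fE t3c15 t3e15 (1 - eh) ek eh (elo t3c15.B0 t3c15.Bh ek) (elo t3c15.D0 t3c15.Dh eh) (elo t3c15.E0 t3c15.Eh eh)) :=
  NC.of (K := 137) (D := ⟨13, 7, 1, 1⟩) (Box.of 288 (by decide +kernel))
    (by decide +kernel)

theorem t3k15_gE_r4 : NC (fE t3c15 t3e15 eh ek (1 - eh) (elo t3c15.B0 t3c15.Bh ek) (ehi t3c15.Dh t3c15.D1 (1 - eh)) (ehi t3c15.Eh t3c15.E1 (1 - eh))) :=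
  NC.of (K := 120) (D := ⟨13, 7, 1, 1⟩) (Box.of 4 (by decide +kernel))
    (by decide +kernel)

theorem t3k15_B0 : NC (kB dW 1 0 t3c15.B0 (tcl t3c15)) :=
  NC.of (K := 93) (D := ⟨1, 1, 1, 9⟩) (Box.of 4 (by decide +kernel))
    (by decide +kernel)

theorem t3k15_E0 : NC (kE dW qW qW.p0 qW.q0 t3c15.E0 (tcl t3c15)) :=
  NC.of (K := 206) (D := ⟨1, 1, 1, 19⟩) (Box.of 4 (by decide +kernel))
    (by decide +kernel)

theorem t3k15_D0 : NC (kD dW qW 1 0 qW.p0 qW.q0 t3c15.D0 (tcl t3c15)) :=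
  NC.of (K := 322) (D := ⟨1, 1, 1, 20⟩) (Box.of 4 (by decide +kernel))
    (by decide +kernel)

theorem t3k15_Bh : NC (kB dW (1 / 2) (1 / 2) t3c15.Bh (tcl t3c15)) :=
  NC.of (K := 96) (D := ⟨1, 1, 1, 9⟩) (Box.of 4 (by decide +kernel))
    (by decide +kernel)

theorem t3k15_Eh : NC (kE dW qW qW.ph qW.qh t3c15.Eh (tcl t3c15)) :=
  NC.of (K := 210) (D := ⟨1, 1, 1, 19⟩) (Box.of 4 (by decide +kernel))
    (by decide +kernel)

theorem t3k15_Dh : NC (kD dW qW (1 / 2) (1 / 2) qW.ph qW.qh t3c15.Dh (tcl t3c15)) :=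
  NC.of (K := 326) (D := ⟨1, 1, 1, 20⟩) (Box.of 4 (by decide +kernel))
    (by decide +kernel)

theorem t3k15_B1 : NC (kB dW 0 (1 / 2) t3c15.B1 (tcl t3c15)) :=
  NC.of (K := 96) (D := ⟨1, 1, 1, 9⟩) (Box.of 4 (by decide +kernel))
    (by decide +kernel)

theorem t3k15_E1 : NC (kE dW qW qW.p1 qW.q1 t3c15.E1 (tcl t3c15)) :=
  NC.of (K := 210) (D := ⟨1, 1, 1, 19⟩) (Box.of 4 (by decide +kernel))
    (by decide +kernel)

theorem t3k15_D1 : NC (kD dW qW 0 (1 / 2) qW.p1 qW.q1 t3c15.D1 (tcl t3c15)) :=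
  NC.of (K := 326) (D := ⟨1, 1, 1, 20⟩) (Box.of 4 (by decide +kernel))
    (by decide +kernel)

theorem t3k15_l : NC (qc t3n15.lb - (1 - vX) * pe (exl t3c15.th) vX ^ 2) :=
  NC.of (K := 125) (D := ⟨10, 1, 1, 1⟩) (Box.of 4 (by decide +kernel))
    (by decide +kernel)

theorem t3k15_n : NC (qc t3n15.nb - vX * (1 - vX) * pe (exl t3c15.th) vX) :=
  NC.of (K := 116) (D := ⟨7, 1, 1, 1⟩) (Box.of 76677152 (by decide +kernel))
    (by decide +kernel)

theorem t3k15_rb : NC (krb t3n15 fW (t1v t3c15)) :=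
  NC.of (K := 156) (D := ⟨1, 1, 1, 16⟩) (Box.of 4 (by decide +kernel))
    (by decide +kernel)

theorem t3k15_kap : NC (kkap dW qW t3n15 (tcl t3c15)) :=
  NC.of (K := 93) (D := ⟨1, 1, 1, 9⟩) (Box.of 4 (by decide +kernel))
    (by decide +kernel)

theorem t3k15_wb2 : NC (qc t3n15.b2 - pe2 kW.QB (vZ * t1v t3c15) (t1v t3c15)) :=
  NC.of (K := 123) (D := ⟨1, 6, 1, 11⟩) (Box.of 291 (by decide +kernel))
    (by decide +kernel)

theorem t3k15_wmb : NC (qc t3n15.Mb - pe zW.mb (t1v t3c15)) :=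
  NC.of (K := 99) (D := ⟨1, 1, 1, 9⟩) (Box.of 291 (by decide +kernel))
    (by decide +kernel)

theorem t3k15_wth : NC (qc (t3c15.th / t3c15.t1) - pe2 zW.Qt (vZ * t1v t3c15) (t1v t3c15)) :=
  NC.of (K := 131) (D := ⟨1, 6, 1, 11⟩) (Box.of 291 (by decide +kernel))
    (by decide +kernel)

theorem t3k15_wyb : NC (qc t3n15.Yb - (t1v t3c15 - vZ * t1v t3c15) ^ 3 * pe2 yW.QY (vZ * t1v t3c15) (t1v t3c15)) :=
  NC.of (K := 106) (D := ⟨1, 8, 1, 12⟩) (Box.of 4 (by decide +kernel))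
    (by decide +kernel)

theorem t3k15_wmu : NC (qc t3m15 - pe t3al (tcl t3c15) * (1 + hlf * tcl t3c15)) :=
  NC.of (K := 89) (D := ⟨1, 1, 1, 9⟩) (Box.of 4 (by decide +kernel))
    (by decide +kernel)

theorem t3k15_wcj : NC (qc t3c15.C * ((6 - 3 * vX) * (1 - qc t3m15 * vX)) - (6 - 6 * vX + vX ^ 2)) :=
  NC.of (K := 33) (D := ⟨3, 1, 1, 1⟩) (Box.of 4 (by decide +kernel))
    (by decide +kernel)

theorem t3k15_nd1 : NC (pe t3r15.d1 (t1v t3c15)) :=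
  NC.of (K := 59) (D := ⟨1, 1, 1, 7⟩) (Box.of 4 (by decide +kernel))
    (by decide +kernel)

theorem t3k15_nd2 : NC (pe t3r15.d2 (t1v t3c15)) :=
  NC.of (K := 59) (D := ⟨1, 1, 1, 7⟩) (Box.of 4 (by decide +kernel))
    (by decide +kernel)

theorem t3k15_ndy : NC (pe t3r15.dy (t1v t3c15)) :=
  NC.of (K := 62) (D := ⟨1, 1, 1, 7⟩) (Box.of 4 (by decide +kernel))
    (by decide +kernel)

theorem t3k15_nt1 : NC (pe t3r15.t1 (t1v t3c15)) :=
  NC.of (K := 64) (D := ⟨1, 1, 1, 7⟩) (Box.of 4 (by decide +kernel))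
    (by decide +kernel)

theorem t3k15_nt2 : NC (pe t3r15.t2 (t1v t3c15)) :=
  NC.of (K := 61) (D := ⟨1, 1, 1, 7⟩) (Box.of 4 (by decide +kernel))
    (by decide +kernel)

theorem t3k15_nty : NC (pe t3r15.ty (t1v t3c15)) :=
  NC.of (K := 66) (D := ⟨1, 1, 1, 7⟩) (Box.of 4 (by decide +kernel))
    (by decide +kernel)

theorem t3k15_nhz : NC (pe t3r15.hz (t1v t3c15)) :=
  NC.of (K := 80) (D := ⟨1, 1, 1, 7⟩) (Box.of 291 (by decide +kernel))
    (by decide +kernel)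

theorem t3k15_xi : NC (eXi fW t3c15 t3e15 t3r15 (t1v t3c15)) :=
  NC.of (K := 254) (D := ⟨1, 1, 1, 22⟩) (Box.of 4 (by decide +kernel))
    (by decide +kernel)

theorem t3k15_om : NC (eOm fW t3r15 (t1v t3c15)) :=
  NC.of (K := 148) (D := ⟨1, 1, 1, 16⟩) (Box.of 4 (by decide +kernel))
    (by decide +kernel)

theorem t3k15_fin : NC (eFin dW t3c15 t3n15 t3r15 t3h15 (tcl t3c15)) :=
  NC.of (K := 208) (D := ⟨1, 1, 1, 14⟩) (Box.of 4 (by decide +kernel))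
    (by decide +kernel)

theorem t3k15_xdl : NC (qc t3e15.dl - pe t3d15.l.dl t3d15.eU) :=
  NC.of (K := 69) (D := ⟨1, 4, 1, 1⟩) (Box.of 4 (by decide +kernel))
    (by decide +kernel)

theorem t3k15_xeY : NC (qc t3e15.eY - pe (e4l t3d15.l.z) t3d15.eU) :=
  NC.of (K := 276) (D := ⟨1, 13, 1, 1⟩) (Box.of 4 (by decide +kernel))
    (by decide +kernel)

theorem t3k15_xgr : NC (qc t3d15.ga * ((1 + qc (3 / 5) * vX) * (1 + (t3d15.eg + hlf * t3d15.eg ^ 2))) + qc t3d15.gb - pe2 t3GR vX t3d15.eU) :=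
  NC.of (K := 250) (D := ⟨4, 11, 1, 1⟩) (Box.of 1181728 (by decide +kernel))
    (by decide +kernel)

theorem t3k15_xhr : NC (qc t3d15.hb - pe2 t3HR vX t3d15.eU) :=
  NC.of (K := 250) (D := ⟨3, 12, 1, 1⟩) (Box.of 4 (by decide +kernel))
    (by decide +kernel)

theorem t3k15_xgs : NC (pe t3d15.gs t3d15.e1 - qc (8 / 5) * pe (e4l (ladd t3d15.ls.z t3d15.ls.dl)) t3d15.e1) :=
  NC.of (K := 284) (D := ⟨1, 1, 1, 13⟩) (Box.of 4 (by decide +kernel))
    (by decide +kernel)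

theorem t3k15_xd1 : NC (pe t3d15.d1 t3d15.e1 - t3d15.eA t3d15.eU t3d15.e1) :=
  NC.of (K := 272) (D := ⟨1, 12, 1, 12⟩) (Box.of 4 (by decide +kernel))
    (by decide +kernel)

theorem t3k15_xd2 : NC (pe t3d15.d2 t3d15.e1 - t3d15.eB t3d15.eU t3d15.e1) :=
  NC.of (K := 296) (D := ⟨1, 12, 1, 12⟩) (Box.of 291 (by decide +kernel))
    (by decide +kernel)

theorem t3k15_xt1 : NC (pe t3d15.t1 t3d15.e1 - t3d15.eAT t3d15.eU t3d15.e1) :=
  NC.of (K := 485) (D := ⟨1, 19, 1, 19⟩) (Box.of 291 (by decide +kernel))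
    (by decide +kernel)

theorem t3k15_xt2 : NC (pe t3d15.t2 t3d15.e1 - t3d15.eBT t3d15.eU t3d15.e1) :=
  NC.of (K := 483) (D := ⟨1, 19, 1, 19⟩) (Box.of 291 (by decide +kernel))
    (by decide +kernel)

theorem t3k15_xdy : NC (pe t3d15.dy t3d15.e1 - t3d15.eSD t3d15.eU t3d15.e1) :=
  NC.of (K := 425) (D := ⟨1, 18, 1, 12⟩) (Box.of 4 (by decide +kernel))
    (by decide +kernel)

theorem t3k15_xty : NC (pe t3d15.ty t3d15.e1 - t3d15.eST t3d15.eU t3d15.e1) :=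
  NC.of (K := 637) (D := ⟨1, 26, 1, 26⟩) (Box.of 4 (by decide +kernel))
    (by decide +kernel)

theorem t3k15_xd1s : NC (pe t3r15.d1 (t1v t3c15) - pe t3d15.d1 (Xcd.ew zW t3c15)) :=
  NC.of (K := 543) (D := ⟨1, 1, 1, 55⟩) (Box.of 4 (by decide +kernel))
    (by decide +kernel)

theorem t3k15_xd2s : NC (pe t3r15.d2 (t1v t3c15) - pe t3d15.d2 (Xcd.ew zW t3c15)) :=
  NC.of (K := 550) (D := ⟨1, 1, 1, 55⟩) (Box.of 4 (by decide +kernel))
    (by decide +kernel)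

theorem t3k15_xt1s : NC (pe t3r15.t1 (t1v t3c15) - pe t3d15.t1 (Xcd.ew zW t3c15)) :=
  NC.of (K := 547) (D := ⟨1, 1, 1, 55⟩) (Box.of 4 (by decide +kernel))
    (by decide +kernel)

theorem t3k15_xt2s : NC (pe t3r15.t2 (t1v t3c15) - pe t3d15.t2 (Xcd.ew zW t3c15)) :=
  NC.of (K := 543) (D := ⟨1, 1, 1, 55⟩) (Box.of 4 (by decide +kernel))
    (by decide +kernel)

theorem t3k15_xdys : NC (pe t3r15.dy (t1v t3c15) - pe t3d15.dy (Xcd.ew zW t3c15)) :=
  NC.of (K := 544) (D := ⟨1, 1, 1, 55⟩) (Box.of 4 (by decide +kernel))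
    (by decide +kernel)

theorem t3k15_xtys : NC (pe t3r15.ty (t1v t3c15) - pe t3d15.ty (Xcd.ew zW t3c15)) :=
  NC.of (K := 548) (D := ⟨1, 1, 1, 55⟩) (Box.of 4 (by decide +kernel))
    (by decide +kernel)

theorem t3k15_xhz : NC (pe t3r15.hz (t1v t3c15) - pe t3d15.c.dR (Xcd.ew zW t3c15)) :=
  NC.of (K := 468) (D := ⟨1, 1, 1, 46⟩) (Box.of 4 (by decide +kernel))
    (by decide +kernel)

theorem t3f15_ok : t3f15.ok V2L.y6 V2L.k6 V2L.nb V2L.la (10 ^ 30) 32 = true := by decide +kernel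

theorem t3k15_sg : t3c15.Sg := by
  constructor <;> decide +kernel

theorem t3k15_rgs : t3c15.Rgs where
  M := ⟨t3k15_M_r1, t3k15_M_r2, t3k15_M_r3, t3k15_M_r4⟩
  r0 := ⟨t3k15_r0_r1, t3k15_r0_r2, t3k15_r0_r3, t3k15_r0_r4⟩
  r1 := ⟨t3k15_r1_r1, t3k15_r1_r2, t3k15_r1_r3, t3k15_r1_r4⟩
  r2 := ⟨t3k15_r2_r1, t3k15_r2_r2, t3k15_r2_r3, t3k15_r2_r4⟩
  rc := ⟨t3k15_rc_r1, t3k15_rc_r2, t3k15_rc_r3, t3k15_rc_r4⟩
  rI := ⟨t3k15_rI_r1, t3k15_rI_r2, t3k15_rI_r3, t3k15_rI_r4⟩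
  rJ := ⟨t3k15_rJ_r1, t3k15_rJ_r2, t3k15_rJ_r3, t3k15_rJ_r4⟩

theorem t3k15_xn : t3e15.Ok t3c15 where
  lm := by decide +kernel
  dl0 := by decide +kernel
  dl1 := by decide +kernel
  e2 := by decide +kernel
  eY := by decide +kernel
  gE := ⟨t3k15_gE_r1, t3k15_gE_r2, t3k15_gE_r3, t3k15_gE_r4⟩

theorem t3k15_vl : t3c15.Vl dW qW where
  bt := by decide +kernel
  B0 := t3k15_B0
  E0 := t3k15_E0
  D0 := t3k15_D0
  Bh := t3k15_Bh
  Eh := t3k15_Eh
  Dh := t3k15_Dh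
  B1 := t3k15_B1
  E1 := t3k15_E1
  D1 := t3k15_D1

theorem t3k15_rat : t3n15.Rat t3c15 := by
  constructor <;> decide +kernel

theorem t3k15_ck : t3n15.Ck t3c15 := ⟨t3k15_l, t3k15_n⟩

theorem t3k15_fck : t3n15.Fck dW qW fW t3c15 := ⟨t3k15_rb, t3k15_kap⟩

theorem t3k15_w : Wcl zW kW yW t3al t3c15 t3n15 t3m15 where
  b2 := t3k15_wb2
  mb := t3k15_wmb
  th := t3k15_wth
  yb := t3k15_wyb
  mu := t3k15_wmu
  cj := t3k15_wcj
  mt1 := by decide +kernel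
  mt2 := by decide +kernel

theorem t3k15_ok : CelOk dW qW fW t3c15 t3n15 where
  s := t3k15_sg
  r := t3k15_rgs
  v := t3k15_vl
  rt := t3k15_rat
  k := t3k15_ck
  fc := t3k15_fck
  q01 := by decide +kernel
  q12 := by decide +kernel
  h2 := by decide +kernel

theorem t3k15_xr : t3r15.Ok fW t3c15 t3e15 where
  sD := by decide +kernel
  sT := by decide +kernel
  nd1 := t3k15_nd1
  nd2 := t3k15_nd2
  ndy := t3k15_ndy
  nt1 := t3k15_nt1
  nt2 := t3k15_nt2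
  nty := t3k15_nty
  nhz := t3k15_nhz
  xi := t3k15_xi
  om := t3k15_om

theorem t3k15_X : t3d15.Ck t3GR t3HR zW t3c15 t3e15 t3r15 where
  u0 := by decide +kernel
  u01 := by decide +kernel
  ul := by decide +kernel
  us := by decide +kernel
  uc := by decide +kernel
  ga0 := by decide +kernel
  kp0 := by decide +kernel
  lm := by decide +kernel
  dl := t3k15_xdl
  eY := t3k15_xeY
  gr := t3k15_xgr
  hr := t3k15_xhr
  gs := t3k15_xgs
  d1 := t3k15_xd1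
  d2 := t3k15_xd2
  t1 := t3k15_xt1
  t2 := t3k15_xt2
  dy := t3k15_xdy
  ty := t3k15_xty
  d1s := t3k15_xd1s
  d2s := t3k15_xd2s
  t1s := t3k15_xt1s
  t2s := t3k15_xt2s
  dys := t3k15_xdys
  tys := t3k15_xtys
  hz := t3k15_xhz

end Pool.Agent.RX.RCN.K
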