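import Pool.Agent.RX.RCN.T3D
import Pool.Agent.RX.RCN.T3Wq
import Pool.Agent.RX.RCN.T3X7
import Pool.Agent.RX.RCN.VLd

/-! Certificates (generated). -/

set_option autoImplicit false

namespace Pool.Agent.RX.RCN.K

open Set Pool.Agent.RX.RCM9 Pool.Agent.RX.RCM9.Bern Pool.Agent.RX.RCM9.Pk Xce

def t3c16 : Cel where
  t0 := 9 / 25
  t1 := 37 / 100
  C := 4097 / 4096
  th := 761 / 2048
  B0 := 2207 / 2048
  Bh := 1161 / 1024
  B1 := 2245 / 2048
  D0 := 1215 / 4096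
  Dh := 119 / 512
  D1 := 453 / 2048
  E0 := 15443 / 4194304
  Eh := 12543 / 4194304
  E1 := 373 / 131072
  Q0 := 553 / 512
  Q1 := 553 / 512
  Q2 := 553 / 512
  Ac := 553 / 512
  gI := 553 / 512
  J := 10153 / 2097152

def t3n16 : Chn where
  lb := 513 / 512
  nb := 39 / 128
  Mb := 1029 / 1024
  b2 := 65 / 64
  Yb := 13 / 2048
  E2 := 4149 / 4096
  e1 := 623 / 512
  Z1 := 283 / 256
  Z2 := 625 / 1024
  KB := 527 / 512
  cb := 1065 / 1024
  rb := 21 / 64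
  om := 263 / 256
  fb := 129 / 128
  kap := 4145 / 4096
  ab := 1029 / 1024

def t3e16 : Xge where
  lm := 3 / 5
  dl := 747 / 2048
  e2 := 619 / 8192
  eY := 1031 / 1024
  gE := 565 / 512

def t3r16 : Xr where
  d1 := [331369 / 25000000, 39623 / 20000000, 1541287 / 100000000, 86699 / 3125000, 730339 /
    100000000, 564593 / 50000000, 1785449 / 50000000]
  d2 := [1317 / 25000000, 321293 / 25000000, 1329963 / 100000000, 4384453 / 6250000, -330073619 /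
    100000000, 7666381 / 1000000, -66597139 / 10000000]
  dy := [4272517 / 50000000, 599561 / 20000000, 17964353 / 100000000, 22664463 / 50000000,
    -48144113 / 50000000, 109412749 / 100000000, -54005331 / 100000000]
  t1 := [931471 / 10000000, -9896527 / 25000000, 59866379 / 100000000, -113266337 / 50000000,
    284563 / 20000, -1824341559 / 50000000, 352610589 / 10000000]
  t2 := [223413 / 12500000, -7512551 / 100000000, 508631 / 6250000, 66826123 / 100000000, -9710359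
    / 6250000, 135651633 / 100000000, 10202397 / 25000000]
  ty := [49096179 / 100000000, -247217979 / 100000000, 16857973 / 4000000, 276248741 / 100000000,
    -652083769 / 50000000, 72120441 / 5000000, -310889293 / 50000000]
  hz := [2474797 / 25000000, 992789 / 25000000, -499889093 / 50000000, 3017583713 / 50000000,
    -541671949 / 4000000, 5321522333 / 50000000, 6816001 / 25000000]
  om := [1003967 / 1000000, 102144633 / 100000000, -1377881741 / 100000000, 5284302533 /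
    100000000, -1040956891 / 10000000, 3092881279 / 25000000, -111793451 / 5000000, -19604236613
    / 100000000, 20395591207 / 100000000]
  sD := 131 / 64
  sT := 235 / 128
  xi := [943159 / 25000000, 78583 / 200000, -79964891 / 50000000, -796717989 / 100000000,
    7010894051 / 100000000, -15580290391 / 100000000, 3871344287 / 100000000, 31848835959 /
    100000000, -21922723057 / 50000000, 20258542303 / 100000000]

def t3f16 : Dl where
  Ca := 3611203 / 10000000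
  Cv := 23197 / 62500
  k1 := 4770041 / 5000000
  ks := 469019 / 500000
  dd := 0
  kp := 7 / 10000000
  e := [999999699823 / 1000000000000, -646086256157 / 500000000000, 328008097379 / 250000000000,
    -1177133213559 / 1000000000000, 1011384560403 / 1000000000000, -409514672737 / 500000000000,
    604288331639 / 1000000000000, -357661974721 / 1000000000000, 11956980251 / 100000000000]
  j1 := [-2878183 / 1000000000, -4855616841 / 500000000, 1747535813 / 20000000, -93609638183 /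
    250000000, 467500555603 / 500000000, -1397510475713 / 1000000000, 1198328399119 /
    1000000000, -119280735317 / 250000000]
  nu := [63962189 / 1000000000, -99348667 / 500000000, 193179453 / 500000000, 39627711 /
    250000000, -110195371 / 100000000, 995787317 / 250000000, -2193510191 / 500000000]
  k2 := [234509879 / 250000000, 291233 / 1562500, -343675451 / 1000000000, -45051161 / 200000000,
    113165459 / 100000000, -962752583 / 250000000, 4272981181 / 1000000000]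
  dR := [493967 / 5000000, 396919 / 10000000, -248480373 / 25000000, 5982572131 / 100000000,
    -6694963139 / 50000000, 10511747099 / 100000000]

def t3d16 : Xce where
  u0 := 18081 / 50000
  u1 := 23197 / 62500
  l := V2L.y7
  y := t3z7
  j := t3j7
  i := t3i7
  ls := t3y7
  k := V2L.k7
  c := t3f16
  ga := 3307 / 250000
  gb := -999 / 250000
  hb := 28183 / 500000
  gs := [80001393 / 50000000, 59999991 / 25000000, 180001539 / 100000000, 79575777 / 100000000,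
    1070683 / 4000000, -2473363 / 20000000, -233229 / 4000000]
  d1 := [66229 / 5000000, 197661 / 100000000, 765047 / 50000000, 273833 / 10000000, 46421 /
    5000000, 134887 / 50000000, 2268767 / 50000000]
  d2 := [2217 / 50000000, 80107 / 6250000, 1316509 / 100000000, 17367589 / 25000000, -162678209 /
    50000000, 47010889 / 6250000, -650396043 / 100000000]
  dy := [4269191 / 50000000, 2990137 / 100000000, 8917359 / 50000000, 4485531 / 10000000,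
    -93400137 / 100000000, 5019573 / 5000000, -43784379 / 100000000]
  t1 := [931003 / 10000000, -39460851 / 100000000, 14848141 / 25000000, -3488989 / 1562500,
    1399423749 / 100000000, -3578154771 / 100000000, 689516127 / 20000000]
  t2 := [893203 / 50000000, -187229 / 2500000, 4042177 / 50000000, 3309029 / 5000000, -15293543 /
    10000000, 131518473 / 100000000, 21254629 / 50000000]
  ty := [49071441 / 100000000, -246427397 / 100000000, 418031281 / 100000000, 56430517 / 20000000,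
    -1328758957 / 100000000, 378296833 / 25000000, -43243699 / 6250000]

def t3m16 : ℚ := 1495 / 4096

def t3h16 : ℚ := 1 / 2

theorem t3k16_M_r1 : NC (fM t3c16 (1 - eh) eh ek (elo t3c16.B0 t3c16.Bh eh) (elo t3c16.D0 t3c16.Dh ek) (elo t3c16.E0 t3c16.Eh ek)) :=
  NC.of (K := 32) (D := ⟨4, 3, 1, 1⟩) (Box.of 4 (by decide +kernel))
    (by decide +kernel)

theorem t3k16_M_r2 : NC (fM t3c16 eh (1 - eh) ek (ehi t3c16.Bh t3c16.B1 (1 - eh)) (elo t3c16.D0 t3c16.Dh ek) (elo t3c16.E0 t3c16.Eh ek)) :=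
  NC.of (K := 32) (D := ⟨4, 3, 1, 1⟩) (Box.of 4 (by decide +kernel))
    (by decide +kernel)

theorem t3k16_M_r3 : NC (fM t3c16 (1 - eh) ek eh (elo t3c16.B0 t3c16.Bh ek) (elo t3c16.D0 t3c16.Dh eh) (elo t3c16.E0 t3c16.Eh eh)) :=
  NC.of (K := 31) (D := ⟨4, 2, 1, 1⟩) (Box.of 4 (by decide +kernel))
    (by decide +kernel)

theorem t3k16_M_r4 : NC (fM t3c16 eh ek (1 - eh) (elo t3c16.B0 t3c16.Bh ek) (ehi t3c16.Dh t3c16.D1 (1 - eh)) (ehi t3c16.Eh t3c16.E1 (1 - eh))) :=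
  NC.of (K := 30) (D := ⟨4, 2, 1, 1⟩) (Box.of 4 (by decide +kernel))
    (by decide +kernel)

theorem t3k16_r0_r1 : NC (f0 t3c16 (1 - eh) eh ek (elo t3c16.B0 t3c16.Bh eh) (elo t3c16.D0 t3c16.Dh ek) (elo t3c16.E0 t3c16.Eh ek)) :=
  NC.of (K := 146) (D := ⟨13, 9, 1, 1⟩) (Box.of 4 (by decide +kernel))
    (by decide +kernel)

theorem t3k16_r0_r2 : NC (f0 t3c16 eh (1 - eh) ek (ehi t3c16.Bh t3c16.B1 (1 - eh)) (elo t3c16.D0 t3c16.Dh ek) (elo t3c16.E0 t3c16.Eh ek)) :=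
  NC.of (K := 147) (D := ⟨13, 9, 1, 1⟩) (Box.of 4 (by decide +kernel))
    (by decide +kernel)

theorem t3k16_r0_r3 : NC (f0 t3c16 (1 - eh) ek eh (elo t3c16.B0 t3c16.Bh ek) (elo t3c16.D0 t3c16.Dh eh) (elo t3c16.E0 t3c16.Eh eh)) :=
  NC.of (K := 141) (D := ⟨13, 5, 1, 1⟩) (Box.of 4 (by decide +kernel))
    (by decide +kernel)

theorem t3k16_r0_r4 : NC (f0 t3c16 eh ek (1 - eh) (elo t3c16.B0 t3c16.Bh ek) (ehi t3c16.Dh t3c16.D1 (1 - eh)) (ehi t3c16.Eh t3c16.E1 (1 - eh))) :=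
  NC.of (K := 138) (D := ⟨13, 5, 1, 1⟩) (Box.of 4 (by decide +kernel))
    (by decide +kernel)

theorem t3k16_r1_r1 : NC (f1 t3c16 (1 - eh) eh ek (elo t3c16.B0 t3c16.Bh eh) (elo t3c16.D0 t3c16.Dh ek) (elo t3c16.E0 t3c16.Eh ek)) :=
  NC.of (K := 226) (D := ⟨16, 9, 1, 1⟩) (Box.of 4 (by decide +kernel))
    (by decide +kernel)

theorem t3k16_r1_r2 : NC (f1 t3c16 eh (1 - eh) ek (ehi t3c16.Bh t3c16.B1 (1 - eh)) (elo t3c16.D0 t3c16.Dh ek) (elo t3c16.E0 t3c16.Eh ek)) :=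
  NC.of (K := 227) (D := ⟨16, 9, 1, 1⟩) (Box.of 4 (by decide +kernel))
    (by decide +kernel)

theorem t3k16_r1_r3 : NC (f1 t3c16 (1 - eh) ek eh (elo t3c16.B0 t3c16.Bh ek) (elo t3c16.D0 t3c16.Dh eh) (elo t3c16.E0 t3c16.Eh eh)) :=
  NC.of (K := 230) (D := ⟨16, 12, 1, 1⟩) (Box.of 4 (by decide +kernel))
    (by decide +kernel)

theorem t3k16_r1_r4 : NC (f1 t3c16 eh ek (1 - eh) (elo t3c16.B0 t3c16.Bh ek) (ehi t3c16.Dh t3c16.D1 (1 - eh)) (ehi t3c16.Eh t3c16.E1 (1 - eh))) :=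
  NC.of (K := 230) (D := ⟨16, 12, 1, 1⟩) (Box.of 4 (by decide +kernel))
    (by decide +kernel)

theorem t3k16_r2_r1 : NC (f2 t3c16 (1 - eh) eh ek (elo t3c16.B0 t3c16.Bh eh) (elo t3c16.D0 t3c16.Dh ek) (elo t3c16.E0 t3c16.Eh ek)) :=
  NC.of (K := 229) (D := ⟨16, 11, 1, 1⟩) (Box.of 4 (by decide +kernel))
    (by decide +kernel)

theorem t3k16_r2_r2 : NC (f2 t3c16 eh (1 - eh) ek (ehi t3c16.Bh t3c16.B1 (1 - eh)) (elo t3c16.D0 t3c16.Dh ek) (elo t3c16.E0 t3c16.Eh ek)) :=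
  NC.of (K := 230) (D := ⟨16, 11, 1, 1⟩) (Box.of 4 (by decide +kernel))
    (by decide +kernel)

theorem t3k16_r2_r3 : NC (f2 t3c16 (1 - eh) ek eh (elo t3c16.B0 t3c16.Bh ek) (elo t3c16.D0 t3c16.Dh eh) (elo t3c16.E0 t3c16.Eh eh)) :=
  NC.of (K := 230) (D := ⟨16, 12, 1, 1⟩) (Box.of 4 (by decide +kernel))
    (by decide +kernel)

theorem t3k16_r2_r4 : NC (f2 t3c16 eh ek (1 - eh) (elo t3c16.B0 t3c16.Bh ek) (ehi t3c16.Dh t3c16.D1 (1 - eh)) (ehi t3c16.Eh t3c16.E1 (1 - eh))) :=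
  NC.of (K := 232) (D := ⟨16, 12, 1, 1⟩) (Box.of 4 (by decide +kernel))
    (by decide +kernel)

theorem t3k16_rc_r1 : NC (fc t3c16 (1 - eh) eh ek (elo t3c16.B0 t3c16.Bh eh) (elo t3c16.D0 t3c16.Dh ek) (elo t3c16.E0 t3c16.Eh ek)) :=
  NC.of (K := 146) (D := ⟨13, 9, 1, 1⟩) (Box.of 4 (by decide +kernel))
    (by decide +kernel)

theorem t3k16_rc_r2 : NC (fc t3c16 eh (1 - eh) ek (ehi t3c16.Bh t3c16.B1 (1 - eh)) (elo t3c16.D0 t3c16.Dh ek) (elo t3c16.E0 t3c16.Eh ek)) :=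
  NC.of (K := 146) (D := ⟨13, 9, 1, 1⟩) (Box.of 4 (by decide +kernel))
    (by decide +kernel)

theorem t3k16_rc_r3 : NC (fc t3c16 (1 - eh) ek eh (elo t3c16.B0 t3c16.Bh ek) (elo t3c16.D0 t3c16.Dh eh) (elo t3c16.E0 t3c16.Eh eh)) :=
  NC.of (K := 141) (D := ⟨13, 5, 1, 1⟩) (Box.of 4 (by decide +kernel))
    (by decide +kernel)

theorem t3k16_rc_r4 : NC (fc t3c16 eh ek (1 - eh) (elo t3c16.B0 t3c16.Bh ek) (ehi t3c16.Dh t3c16.D1 (1 - eh)) (ehi t3c16.Eh t3c16.E1 (1 - eh))) :=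
  NC.of (K := 138) (D := ⟨13, 5, 1, 1⟩) (Box.of 4 (by decide +kernel))
    (by decide +kernel)

theorem t3k16_rI_r1 : NC (fI t3c16 (1 - eh) eh ek (elo t3c16.B0 t3c16.Bh eh) (elo t3c16.D0 t3c16.Dh ek) (elo t3c16.E0 t3c16.Eh ek)) :=
  NC.of (K := 136) (D := ⟨13, 9, 1, 1⟩) (Box.of 4 (by decide +kernel))
    (by decide +kernel)

theorem t3k16_rI_r2 : NC (fI t3c16 eh (1 - eh) ek (ehi t3c16.Bh t3c16.B1 (1 - eh)) (elo t3c16.D0 t3c16.Dh ek) (elo t3c16.E0 t3c16.Eh ek)) :=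
  NC.of (K := 136) (D := ⟨13, 9, 1, 1⟩) (Box.of 4 (by decide +kernel))
    (by decide +kernel)

theorem t3k16_rI_r3 : NC (fI t3c16 (1 - eh) ek eh (elo t3c16.B0 t3c16.Bh ek) (elo t3c16.D0 t3c16.Dh eh) (elo t3c16.E0 t3c16.Eh eh)) :=
  NC.of (K := 131) (D := ⟨13, 5, 1, 1⟩) (Box.of 4 (by decide +kernel))
    (by decide +kernel)

theorem t3k16_rI_r4 : NC (fI t3c16 eh ek (1 - eh) (elo t3c16.B0 t3c16.Bh ek) (ehi t3c16.Dh t3c16.D1 (1 - eh)) (ehi t3c16.Eh t3c16.E1 (1 - eh))) :=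
  NC.of (K := 128) (D := ⟨13, 5, 1, 1⟩) (Box.of 4 (by decide +kernel))
    (by decide +kernel)

theorem t3k16_rJ_r1 : NC (fJ t3c16 (1 - eh) eh ek (elo t3c16.B0 t3c16.Bh eh) (elo t3c16.D0 t3c16.Dh ek) (elo t3c16.E0 t3c16.Eh ek)) :=
  NC.of (K := 80) (D := ⟨7, 5, 1, 1⟩) (Box.of 4 (by decide +kernel))
    (by decide +kernel)

theorem t3k16_rJ_r2 : NC (fJ t3c16 eh (1 - eh) ek (ehi t3c16.Bh t3c16.B1 (1 - eh)) (elo t3c16.D0 t3c16.Dh ek) (elo t3c16.E0 t3c16.Eh ek)) :=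
  NC.of (K := 80) (D := ⟨7, 5, 1, 1⟩) (Box.of 4 (by decide +kernel))
    (by decide +kernel)

theorem t3k16_rJ_r3 : NC (fJ t3c16 (1 - eh) ek eh (elo t3c16.B0 t3c16.Bh ek) (elo t3c16.D0 t3c16.Dh eh) (elo t3c16.E0 t3c16.Eh eh)) :=
  NC.of (K := 77) (D := ⟨7, 3, 1, 1⟩) (Box.of 4 (by decide +kernel))
    (by decide +kernel)

theorem t3k16_rJ_r4 : NC (fJ t3c16 eh ek (1 - eh) (elo t3c16.B0 t3c16.Bh ek) (ehi t3c16.Dh t3c16.D1 (1 - eh)) (ehi t3c16.Eh t3c16.E1 (1 - eh))) :=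
  NC.of (K := 75) (D := ⟨7, 3, 1, 1⟩) (Box.of 4 (by decide +kernel))
    (by decide +kernel)

theorem t3k16_gE_r1 : NC (fE t3c16 t3e16 (1 - eh) eh ek (elo t3c16.B0 t3c16.Bh eh) (elo t3c16.D0 t3c16.Dh ek) (elo t3c16.E0 t3c16.Eh ek)) :=
  NC.of (K := 159) (D := ⟨13, 9, 1, 1⟩) (Box.of 288 (by decide +kernel))
    (by decide +kernel)

theorem t3k16_gE_r2 : NC (fE t3c16 t3e16 eh (1 - eh) ek (ehi t3c16.Bh t3c16.B1 (1 - eh)) (elo t3c16.D0 t3c16.Dh ek) (elo t3c16.E0 t3c16.Eh ek)) :=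
  NC.of (K := 138) (D := ⟨13, 9, 1, 1⟩) (Box.of 4 (by decide +kernel))
    (by decide +kernel)

theorem t3k16_gE_r3 : NC (fE t3c16 t3e16 (1 - eh) ek eh (elo t3c16.B0 t3c16.Bh ek) (elo t3c16.D0 t3c16.Dh eh) (elo t3c16.E0 t3c16.Eh eh)) :=
  NC.of (K := 157) (D := ⟨13, 7, 1, 1⟩) (Box.of 288 (by decide +kernel))
    (by decide +kernel)

theorem t3k16_gE_r4 : NC (fE t3c16 t3e16 eh ek (1 - eh) (elo t3c16.B0 t3c16.Bh ek) (ehi t3c16.Dh t3c16.D1 (1 - eh)) (ehi t3c16.Eh t3c16.E1 (1 - eh))) :=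
  NC.of (K := 132) (D := ⟨13, 7, 1, 1⟩) (Box.of 4 (by decide +kernel))
    (by decide +kernel)

theorem t3k16_B0 : NC (kB dW 1 0 t3c16.B0 (tcl t3c16)) :=
  NC.of (K := 93) (D := ⟨1, 1, 1, 9⟩) (Box.of 4 (by decide +kernel))
    (by decide +kernel)

theorem t3k16_E0 : NC (kE dW qW qW.p0 qW.q0 t3c16.E0 (tcl t3c16)) :=
  NC.of (K := 206) (D := ⟨1, 1, 1, 19⟩) (Box.of 4 (by decide +kernel))
    (by decide +kernel)

theorem t3k16_D0 : NC (kD dW qW 1 0 qW.p0 qW.q0 t3c16.D0 (tcl t3c16)) :=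
  NC.of (K := 323) (D := ⟨1, 1, 1, 20⟩) (Box.of 4 (by decide +kernel))
    (by decide +kernel)

theorem t3k16_Bh : NC (kB dW (1 / 2) (1 / 2) t3c16.Bh (tcl t3c16)) :=
  NC.of (K := 96) (D := ⟨1, 1, 1, 9⟩) (Box.of 4 (by decide +kernel))
    (by decide +kernel)

theorem t3k16_Eh : NC (kE dW qW qW.ph qW.qh t3c16.Eh (tcl t3c16)) :=
  NC.of (K := 210) (D := ⟨1, 1, 1, 19⟩) (Box.of 4 (by decide +kernel))
    (by decide +kernel)

theorem t3k16_Dh : NC (kD dW qW (1 / 2) (1 / 2) qW.ph qW.qh t3c16.Dh (tcl t3c16)) :=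
  NC.of (K := 327) (D := ⟨1, 1, 1, 20⟩) (Box.of 4 (by decide +kernel))
    (by decide +kernel)

theorem t3k16_B1 : NC (kB dW 0 (1 / 2) t3c16.B1 (tcl t3c16)) :=
  NC.of (K := 96) (D := ⟨1, 1, 1, 9⟩) (Box.of 4 (by decide +kernel))
    (by decide +kernel)

theorem t3k16_E1 : NC (kE dW qW qW.p1 qW.q1 t3c16.E1 (tcl t3c16)) :=
  NC.of (K := 210) (D := ⟨1, 1, 1, 19⟩) (Box.of 4 (by decide +kernel))
    (by decide +kernel)

theorem t3k16_D1 : NC (kD dW qW 0 (1 / 2) qW.p1 qW.q1 t3c16.D1 (tcl t3c16)) :=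
  NC.of (K := 326) (D := ⟨1, 1, 1, 20⟩) (Box.of 4 (by decide +kernel))
    (by decide +kernel)

theorem t3k16_l : NC (qc t3n16.lb - (1 - vX) * pe (exl t3c16.th) vX ^ 2) :=
  NC.of (K := 117) (D := ⟨10, 1, 1, 1⟩) (Box.of 4 (by decide +kernel))
    (by decide +kernel)

theorem t3k16_n : NC (qc t3n16.nb - vX * (1 - vX) * pe (exl t3c16.th) vX) :=
  NC.of (K := 100) (D := ⟨7, 1, 1, 1⟩) (Box.of 1196064 (by decide +kernel))
    (by decide +kernel)

theorem t3k16_rb : NC (krb t3n16 fW (t1v t3c16)) :=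
  NC.of (K := 180) (D := ⟨1, 1, 1, 16⟩) (Box.of 4 (by decide +kernel))
    (by decide +kernel)

theorem t3k16_kap : NC (kkap dW qW t3n16 (tcl t3c16)) :=
  NC.of (K := 93) (D := ⟨1, 1, 1, 9⟩) (Box.of 4 (by decide +kernel))
    (by decide +kernel)

theorem t3k16_wb2 : NC (qc t3n16.b2 - pe2 kW.QB (vZ * t1v t3c16) (t1v t3c16)) :=
  NC.of (K := 143) (D := ⟨1, 6, 1, 11⟩) (Box.of 291 (by decide +kernel))
    (by decide +kernel)

theorem t3k16_wmb : NC (qc t3n16.Mb - pe zW.mb (t1v t3c16)) :=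
  NC.of (K := 113) (D := ⟨1, 1, 1, 9⟩) (Box.of 291 (by decide +kernel))
    (by decide +kernel)

theorem t3k16_wth : NC (qc (t3c16.th / t3c16.t1) - pe2 zW.Qt (vZ * t1v t3c16) (t1v t3c16)) :=
  NC.of (K := 148) (D := ⟨1, 6, 1, 11⟩) (Box.of 291 (by decide +kernel))
    (by decide +kernel)

theorem t3k16_wyb : NC (qc t3n16.Yb - (t1v t3c16 - vZ * t1v t3c16) ^ 3 * pe2 yW.QY (vZ * t1v t3c16) (t1v t3c16)) :=
  NC.of (K := 128) (D := ⟨1, 8, 1, 12⟩) (Box.of 4 (by decide +kernel))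
    (by decide +kernel)

theorem t3k16_wmu : NC (qc t3m16 - pe t3al (tcl t3c16) * (1 + hlf * tcl t3c16)) :=
  NC.of (K := 89) (D := ⟨1, 1, 1, 9⟩) (Box.of 4 (by decide +kernel))
    (by decide +kernel)

theorem t3k16_wcj : NC (qc t3c16.C * ((6 - 3 * vX) * (1 - qc t3m16 * vX)) - (6 - 6 * vX + vX ^ 2)) :=
  NC.of (K := 34) (D := ⟨3, 1, 1, 1⟩) (Box.of 4 (by decide +kernel))
    (by decide +kernel)

theorem t3k16_nd1 : NC (pe t3r16.d1 (t1v t3c16)) :=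
  NC.of (K := 70) (D := ⟨1, 1, 1, 7⟩) (Box.of 4 (by decide +kernel))
    (by decide +kernel)

theorem t3k16_nd2 : NC (pe t3r16.d2 (t1v t3c16)) :=
  NC.of (K := 71) (D := ⟨1, 1, 1, 7⟩) (Box.of 4 (by decide +kernel))
    (by decide +kernel)

theorem t3k16_ndy : NC (pe t3r16.dy (t1v t3c16)) :=
  NC.of (K := 74) (D := ⟨1, 1, 1, 7⟩) (Box.of 4 (by decide +kernel))
    (by decide +kernel)

theorem t3k16_nt1 : NC (pe t3r16.t1 (t1v t3c16)) :=
  NC.of (K := 73) (D := ⟨1, 1, 1, 7⟩) (Box.of 4 (by decide +kernel))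
    (by decide +kernel)

theorem t3k16_nt2 : NC (pe t3r16.t2 (t1v t3c16)) :=
  NC.of (K := 72) (D := ⟨1, 1, 1, 7⟩) (Box.of 4 (by decide +kernel))
    (by decide +kernel)

theorem t3k16_nty : NC (pe t3r16.ty (t1v t3c16)) :=
  NC.of (K := 77) (D := ⟨1, 1, 1, 7⟩) (Box.of 4 (by decide +kernel))
    (by decide +kernel)

theorem t3k16_nhz : NC (pe t3r16.hz (t1v t3c16)) :=
  NC.of (K := 102) (D := ⟨1, 1, 1, 7⟩) (Box.of 18659 (by decide +kernel))
    (by decide +kernel)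

theorem t3k16_xi : NC (eXi fW t3c16 t3e16 t3r16 (t1v t3c16)) :=
  NC.of (K := 301) (D := ⟨1, 1, 1, 22⟩) (Box.of 4 (by decide +kernel))
    (by decide +kernel)

theorem t3k16_om : NC (eOm fW t3r16 (t1v t3c16)) :=
  NC.of (K := 175) (D := ⟨1, 1, 1, 16⟩) (Box.of 4 (by decide +kernel))
    (by decide +kernel)

theorem t3k16_fin : NC (eFin dW t3c16 t3n16 t3r16 t3h16 (tcl t3c16)) :=
  NC.of (K := 210) (D := ⟨1, 1, 1, 14⟩) (Box.of 4 (by decide +kernel))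
    (by decide +kernel)

theorem t3k16_xdl : NC (qc t3e16.dl - pe t3d16.l.dl t3d16.eU) :=
  NC.of (K := 67) (D := ⟨1, 4, 1, 1⟩) (Box.of 4 (by decide +kernel))
    (by decide +kernel)

theorem t3k16_xeY : NC (qc t3e16.eY - pe (e4l t3d16.l.z) t3d16.eU) :=
  NC.of (K := 264) (D := ⟨1, 13, 1, 1⟩) (Box.of 4 (by decide +kernel))
    (by decide +kernel)

theorem t3k16_xgr : NC (qc t3d16.ga * ((1 + qc (3 / 5) * vX) * (1 + (t3d16.eg + hlf * t3d16.eg ^ 2))) + qc t3d16.gb - pe2 t3GR vX t3d16.eU) :=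
  NC.of (K := 241) (D := ⟨4, 11, 1, 1⟩) (Box.of 1181728 (by decide +kernel))
    (by decide +kernel)

theorem t3k16_xhr : NC (qc t3d16.hb - pe2 t3HR vX t3d16.eU) :=
  NC.of (K := 240) (D := ⟨3, 12, 1, 1⟩) (Box.of 4 (by decide +kernel))
    (by decide +kernel)

theorem t3k16_xgs : NC (pe t3d16.gs t3d16.e1 - qc (8 / 5) * pe (e4l (ladd t3d16.ls.z t3d16.ls.dl)) t3d16.e1) :=
  NC.of (K := 248) (D := ⟨1, 1, 1, 13⟩) (Box.of 4 (by decide +kernel))
    (by decide +kernel)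

theorem t3k16_xd1 : NC (pe t3d16.d1 t3d16.e1 - t3d16.eA t3d16.eU t3d16.e1) :=
  NC.of (K := 261) (D := ⟨1, 12, 1, 12⟩) (Box.of 4 (by decide +kernel))
    (by decide +kernel)

theorem t3k16_xd2 : NC (pe t3d16.d2 t3d16.e1 - t3d16.eB t3d16.eU t3d16.e1) :=
  NC.of (K := 287) (D := ⟨1, 12, 1, 12⟩) (Box.of 291 (by decide +kernel))
    (by decide +kernel)

theorem t3k16_xt1 : NC (pe t3d16.t1 t3d16.e1 - t3d16.eAT t3d16.eU t3d16.e1) :=
  NC.of (K := 467) (D := ⟨1, 19, 1, 19⟩) (Box.of 291 (by decide +kernel))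
    (by decide +kernel)

theorem t3k16_xt2 : NC (pe t3d16.t2 t3d16.e1 - t3d16.eBT t3d16.eU t3d16.e1) :=
  NC.of (K := 466) (D := ⟨1, 19, 1, 19⟩) (Box.of 291 (by decide +kernel))
    (by decide +kernel)

theorem t3k16_xdy : NC (pe t3d16.dy t3d16.e1 - t3d16.eSD t3d16.eU t3d16.e1) :=
  NC.of (K := 402) (D := ⟨1, 18, 1, 12⟩) (Box.of 4 (by decide +kernel))
    (by decide +kernel)

theorem t3k16_xty : NC (pe t3d16.ty t3d16.e1 - t3d16.eST t3d16.eU t3d16.e1) :=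
  NC.of (K := 608) (D := ⟨1, 26, 1, 26⟩) (Box.of 4 (by decide +kernel))
    (by decide +kernel)

theorem t3k16_xd1s : NC (pe t3r16.d1 (t1v t3c16) - pe t3d16.d1 (Xcd.ew zW t3c16)) :=
  NC.of (K := 639) (D := ⟨1, 1, 1, 55⟩) (Box.of 4 (by decide +kernel))
    (by decide +kernel)

theorem t3k16_xd2s : NC (pe t3r16.d2 (t1v t3c16) - pe t3d16.d2 (Xcd.ew zW t3c16)) :=
  NC.of (K := 647) (D := ⟨1, 1, 1, 55⟩) (Box.of 4 (by decide +kernel))
    (by decide +kernel)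

theorem t3k16_xt1s : NC (pe t3r16.t1 (t1v t3c16) - pe t3d16.t1 (Xcd.ew zW t3c16)) :=
  NC.of (K := 647) (D := ⟨1, 1, 1, 55⟩) (Box.of 4 (by decide +kernel))
    (by decide +kernel)

theorem t3k16_xt2s : NC (pe t3r16.t2 (t1v t3c16) - pe t3d16.t2 (Xcd.ew zW t3c16)) :=
  NC.of (K := 644) (D := ⟨1, 1, 1, 55⟩) (Box.of 4 (by decide +kernel))
    (by decide +kernel)

theorem t3k16_xdys : NC (pe t3r16.dy (t1v t3c16) - pe t3d16.dy (Xcd.ew zW t3c16)) :=
  NC.of (K := 644) (D := ⟨1, 1, 1, 55⟩) (Box.of 4 (by decide +kernel))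
    (by decide +kernel)

theorem t3k16_xtys : NC (pe t3r16.ty (t1v t3c16) - pe t3d16.ty (Xcd.ew zW t3c16)) :=
  NC.of (K := 644) (D := ⟨1, 1, 1, 55⟩) (Box.of 4 (by decide +kernel))
    (by decide +kernel)

theorem t3k16_xhz : NC (pe t3r16.hz (t1v t3c16) - pe t3d16.c.dR (Xcd.ew zW t3c16)) :=
  NC.of (K := 550) (D := ⟨1, 1, 1, 46⟩) (Box.of 4 (by decide +kernel))
    (by decide +kernel)

theorem t3f16_ok : t3f16.ok V2L.y7 V2L.k7 V2L.nb V2L.la (10 ^ 30) 32 = true := by decide +kernel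

theorem t3k16_sg : t3c16.Sg := by
  constructor <;> decide +kernel

theorem t3k16_rgs : t3c16.Rgs where
  M := ⟨t3k16_M_r1, t3k16_M_r2, t3k16_M_r3, t3k16_M_r4⟩
  r0 := ⟨t3k16_r0_r1, t3k16_r0_r2, t3k16_r0_r3, t3k16_r0_r4⟩
  r1 := ⟨t3k16_r1_r1, t3k16_r1_r2, t3k16_r1_r3, t3k16_r1_r4⟩
  r2 := ⟨t3k16_r2_r1, t3k16_r2_r2, t3k16_r2_r3, t3k16_r2_r4⟩
  rc := ⟨t3k16_rc_r1, t3k16_rc_r2, t3k16_rc_r3, t3k16_rc_r4⟩
  rI := ⟨t3k16_rI_r1, t3k16_rI_r2, t3k16_rI_r3, t3k16_rI_r4⟩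
  rJ := ⟨t3k16_rJ_r1, t3k16_rJ_r2, t3k16_rJ_r3, t3k16_rJ_r4⟩

theorem t3k16_xn : t3e16.Ok t3c16 where
  lm := by decide +kernel
  dl0 := by decide +kernel
  dl1 := by decide +kernel
  e2 := by decide +kernel
  eY := by decide +kernel
  gE := ⟨t3k16_gE_r1, t3k16_gE_r2, t3k16_gE_r3, t3k16_gE_r4⟩

theorem t3k16_vl : t3c16.Vl dW qW where
  bt := by decide +kernel
  B0 := t3k16_B0
  E0 := t3k16_E0
  D0 := t3k16_D0
  Bh := t3k16_Bh
  Eh := t3k16_Eh
  Dh := t3k16_Dh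
  B1 := t3k16_B1
  E1 := t3k16_E1
  D1 := t3k16_D1

theorem t3k16_rat : t3n16.Rat t3c16 := by
  constructor <;> decide +kernel

theorem t3k16_ck : t3n16.Ck t3c16 := ⟨t3k16_l, t3k16_n⟩

theorem t3k16_fck : t3n16.Fck dW qW fW t3c16 := ⟨t3k16_rb, t3k16_kap⟩

theorem t3k16_w : Wcl zW kW yW t3al t3c16 t3n16 t3m16 where
  b2 := t3k16_wb2
  mb := t3k16_wmb
  th := t3k16_wth
  yb := t3k16_wyb
  mu := t3k16_wmu
  cj := t3k16_wcj
  mt1 := by decide +kernel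
  mt2 := by decide +kernel

theorem t3k16_ok : CelOk dW qW fW t3c16 t3n16 where
  s := t3k16_sg
  r := t3k16_rgs
  v := t3k16_vl
  rt := t3k16_rat
  k := t3k16_ck
  fc := t3k16_fck
  q01 := by decide +kernel
  q12 := by decide +kernel
  h2 := by decide +kernel

theorem t3k16_xr : t3r16.Ok fW t3c16 t3e16 where
  sD := by decide +kernel
  sT := by decide +kernel
  nd1 := t3k16_nd1
  nd2 := t3k16_nd2
  ndy := t3k16_ndy
  nt1 := t3k16_nt1
  nt2 := t3k16_nt2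
  nty := t3k16_nty
  nhz := t3k16_nhz
  xi := t3k16_xi
  om := t3k16_om

theorem t3k16_X : t3d16.Ck t3GR t3HR zW t3c16 t3e16 t3r16 where
  u0 := by decide +kernel
  u01 := by decide +kernel
  ul := by decide +kernel
  us := by decide +kernel
  uc := by decide +kernel
  ga0 := by decide +kernel
  kp0 := by decide +kernel
  lm := by decide +kernel
  dl := t3k16_xdl
  eY := t3k16_xeY
  gr := t3k16_xgr
  hr := t3k16_xhr
  gs := t3k16_xgs
  d1 := t3k16_xd1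
  d2 := t3k16_xd2
  t1 := t3k16_xt1
  t2 := t3k16_xt2
  dy := t3k16_xdy
  ty := t3k16_xty
  d1s := t3k16_xd1s
  d2s := t3k16_xd2s
  t1s := t3k16_xt1s
  t2s := t3k16_xt2s
  dys := t3k16_xdys
  tys := t3k16_xtys
  hz := t3k16_xhz

end Pool.Agent.RX.RCN.K
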