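import Pool.Agent.RX.RCN.T3D
import Pool.Agent.RX.RCN.T3Wq
import Pool.Agent.RX.RCN.T3X7
import Pool.Agent.RX.RCN.VLd

/-! Certificates (generated). -/

set_option autoImplicit false

namespace Pool.Agent.RX.RCN.K

open Set Pool.Agent.RX.RCM9 Pool.Agent.RX.RCM9.Bern Pool.Agent.RX.RCM9.Pk Xce

def t3c17 : Cel where
  t0 := 37 / 100
  t1 := 19 / 50
  C := 4097 / 4096
  th := 1563 / 4096
  B0 := 1101 / 1024
  Bh := 583 / 512
  B1 := 1129 / 1024
  D0 := 155 / 512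
  Dh := 489 / 2048
  D1 := 931 / 4096
  E0 := 17159 / 4194304
  Eh := 14027 / 4194304
  E1 := 13355 / 4194304
  Q0 := 69 / 64
  Q1 := 69 / 64
  Q2 := 69 / 64
  Ac := 69 / 64
  gI := 69 / 64
  J := 23109 / 4194304

def t3n17 : Chn where
  lb := 513 / 512
  nb := 313 / 1024
  Mb := 1029 / 1024
  b2 := 65 / 64
  Yb := 7 / 1024
  E2 := 4153 / 4096
  e1 := 1253 / 1024
  Z1 := 1131 / 1024
  Z2 := 313 / 512
  KB := 1055 / 1024
  cb := 1067 / 1024
  rb := 343 / 1024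
  om := 263 / 256
  fb := 129 / 128
  kap := 4149 / 4096
  ab := 1029 / 1024

def t3e17 : Xge where
  lm := 3 / 5
  dl := 1533 / 4096
  e2 := 327 / 4096
  eY := 2063 / 2048
  gE := 283 / 256

def t3r17 : Xr where
  d1 := [289633 / 20000000, 1311 / 781250, 734533 / 50000000, 655389 / 25000000, 1329787 /
    100000000, -630667 / 100000000, 4936573 / 100000000]
  d2 := [5569 / 100000000, 562649 / 50000000, 277453 / 10000000, 43536773 / 100000000, -78494987 /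
    50000000, 142293917 / 50000000, -291277 / 156250]
  dy := [1216449 / 12500000, 82841 / 3125000, 16614931 / 100000000, 48403563 / 100000000,
    -97022631 / 100000000, 100955041 / 100000000, -1741319 / 4000000]
  t1 := [4935559 / 50000000, -10151839 / 25000000, 59003171 / 100000000, -42823793 / 20000000,
    82240623 / 6250000, -1642150347 / 50000000, 3088803533 / 100000000]
  t2 := [1978607 / 100000000, -8703313 / 100000000, 19551017 / 100000000, -25711671 / 50000000,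
    404253273 / 100000000, -1072378889 / 100000000, 1009453279 / 100000000]
  ty := [27013071 / 50000000, -265854419 / 100000000, 449792051 / 100000000, 49832771 / 20000000,
    -630534847 / 50000000, 1380459839 / 100000000, -586777373 / 100000000]
  hz := [655481 / 6250000, -225659 / 25000000, -434792113 / 50000000, 4878615521 / 100000000,
    -9890623363 / 100000000, 853671367 / 12500000, 11532777 / 50000000]
  om := [50198349 / 50000000, 12770561 / 12500000, -689566369 / 50000000, 1328493697 / 25000000,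
    -10751806007 / 100000000, 7248760663 / 50000000, -9501503081 / 100000000, -6751333733 /
    100000000, 1400753121 / 12500000]
  sD := 269 / 128
  sT := 239 / 128
  xi := [4212889 / 100000000, 41830457 / 100000000, -177502063 / 100000000, -644452463 /
    100000000, 2882356499 / 50000000, -177865527 / 1562500, -222854051 / 50000000, 552995757 /
    2000000, -3315208857 / 10000000, 13624586607 / 100000000]

def t3f17 : Dl where
  Ca := 3711507 / 10000000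
  Cv := 5956 / 15625
  k1 := 9515687 / 10000000
  ks := 934941 / 1000000
  dd := 0
  kp := 7 / 10000000
  e := [999999699769 / 1000000000000, -1301807842633 / 1000000000000, 266130849609 / 200000000000,
    -1202839753031 / 1000000000000, 260021979699 / 250000000000, -846603604233 / 1000000000000,
    31287861873 / 50000000000, -184313782463 / 500000000000, 15218024091 / 125000000000]
  j1 := [-2834153 / 1000000000, -9563771119 / 1000000000, 8632595027 / 100000000, -370967019421 /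
    1000000000, 464303813101 / 500000000, -694477566973 / 500000000, 1185896575371 / 1000000000,
    -465831208019 / 1000000000]
  nu := [16817333 / 250000000, -101691583 / 500000000, 194504509 / 500000000, 5156457 / 40000000,
    -236036877 / 250000000, 107227491 / 31250000, -737259273 / 200000000]
  k2 := [3739769 / 4000000, 95078169 / 500000000, -86038291 / 250000000, -99317983 / 500000000,
    981259809 / 1000000000, -3320925939 / 1000000000, 898838359 / 250000000]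
  dR := [2093339 / 20000000, -222887 / 25000000, -432241299 / 50000000, 4836220889 / 100000000,
    -1956277581 / 20000000, 843956277 / 12500000]

def t3d17 : Xce where
  u0 := 371651 / 1000000
  u1 := 5956 / 15625
  l := V2L.y7
  y := t3z7
  j := t3j7
  i := t3i7
  ls := t3y7
  k := V2L.k7
  c := t3f17
  ga := 14453 / 1000000
  gb := -4603 / 1000000
  hb := 62693 / 1000000
  gs := [160002827 / 100000000, 239999957 / 100000000, 22500223 / 12500000, 79572671 / 100000000,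
    26784683 / 100000000, -12412417 / 100000000, -231471 / 4000000]
  d1 := [289441 / 20000000, 83851 / 50000000, 724971 / 50000000, 2686417 / 100000000, 492809 /
    50000000, -136049 / 100000000, 2321971 / 50000000]
  d2 := [2363 / 50000000, 1123109 / 100000000, 2726517 / 100000000, 21703579 / 50000000, -39012261
    / 25000000, 281626747 / 100000000, -183493679 / 100000000]
  dy := [2431079 / 25000000, 10338 / 390625, 16420981 / 100000000, 3047681 / 6250000, -24689223 /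
    25000000, 20713471 / 20000000, -44224287 / 100000000]
  t1 := [4933083 / 50000000, -5059991 / 12500000, 58561633 / 100000000, -211300753 / 100000000,
    1295381719 / 100000000, -3223343897 / 100000000, 3022060387 / 100000000]
  t2 := [1977603 / 100000000, -67773 / 781250, 9697451 / 50000000, -6332363 / 12500000, 99569467 /
    25000000, -1054465071 / 100000000, 495123159 / 50000000]
  ty := [26999477 / 50000000, -132504181 / 50000000, 223125059 / 50000000, 254690801 / 100000000,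
    -1282581059 / 100000000, 721306853 / 50000000, -648011481 / 100000000]

def t3m17 : ℚ := 383 / 1024

def t3h17 : ℚ := 249 / 500

theorem t3k17_M_r1 : NC (fM t3c17 (1 - eh) eh ek (elo t3c17.B0 t3c17.Bh eh) (elo t3c17.D0 t3c17.Dh ek) (elo t3c17.E0 t3c17.Eh ek)) :=
  NC.of (K := 30) (D := ⟨4, 3, 1, 1⟩) (Box.of 4 (by decide +kernel))
    (by decide +kernel)

theorem t3k17_M_r2 : NC (fM t3c17 eh (1 - eh) ek (ehi t3c17.Bh t3c17.B1 (1 - eh)) (elo t3c17.D0 t3c17.Dh ek) (elo t3c17.E0 t3c17.Eh ek)) :=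
  NC.of (K := 30) (D := ⟨4, 3, 1, 1⟩) (Box.of 4 (by decide +kernel))
    (by decide +kernel)

theorem t3k17_M_r3 : NC (fM t3c17 (1 - eh) ek eh (elo t3c17.B0 t3c17.Bh ek) (elo t3c17.D0 t3c17.Dh eh) (elo t3c17.E0 t3c17.Eh eh)) :=
  NC.of (K := 29) (D := ⟨4, 2, 1, 1⟩) (Box.of 4 (by decide +kernel))
    (by decide +kernel)

theorem t3k17_M_r4 : NC (fM t3c17 eh ek (1 - eh) (elo t3c17.B0 t3c17.Bh ek) (ehi t3c17.Dh t3c17.D1 (1 - eh)) (ehi t3c17.Eh t3c17.E1 (1 - eh))) :=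
  NC.of (K := 30) (D := ⟨4, 2, 1, 1⟩) (Box.of 4 (by decide +kernel))
    (by decide +kernel)

theorem t3k17_r0_r1 : NC (f0 t3c17 (1 - eh) eh ek (elo t3c17.B0 t3c17.Bh eh) (elo t3c17.D0 t3c17.Dh ek) (elo t3c17.E0 t3c17.Eh ek)) :=
  NC.of (K := 136) (D := ⟨13, 9, 1, 1⟩) (Box.of 4 (by decide +kernel))
    (by decide +kernel)

theorem t3k17_r0_r2 : NC (f0 t3c17 eh (1 - eh) ek (ehi t3c17.Bh t3c17.B1 (1 - eh)) (elo t3c17.D0 t3c17.Dh ek) (elo t3c17.E0 t3c17.Eh ek)) :=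
  NC.of (K := 137) (D := ⟨13, 9, 1, 1⟩) (Box.of 4 (by decide +kernel))
    (by decide +kernel)

theorem t3k17_r0_r3 : NC (f0 t3c17 (1 - eh) ek eh (elo t3c17.B0 t3c17.Bh ek) (elo t3c17.D0 t3c17.Dh eh) (elo t3c17.E0 t3c17.Eh eh)) :=
  NC.of (K := 131) (D := ⟨13, 5, 1, 1⟩) (Box.of 4 (by decide +kernel))
    (by decide +kernel)

theorem t3k17_r0_r4 : NC (f0 t3c17 eh ek (1 - eh) (elo t3c17.B0 t3c17.Bh ek) (ehi t3c17.Dh t3c17.D1 (1 - eh)) (ehi t3c17.Eh t3c17.E1 (1 - eh))) :=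
  NC.of (K := 136) (D := ⟨13, 5, 1, 1⟩) (Box.of 4 (by decide +kernel))
    (by decide +kernel)

theorem t3k17_r1_r1 : NC (f1 t3c17 (1 - eh) eh ek (elo t3c17.B0 t3c17.Bh eh) (elo t3c17.D0 t3c17.Dh ek) (elo t3c17.E0 t3c17.Eh ek)) :=
  NC.of (K := 233) (D := ⟨16, 9, 1, 1⟩) (Box.of 4 (by decide +kernel))
    (by decide +kernel)

theorem t3k17_r1_r2 : NC (f1 t3c17 eh (1 - eh) ek (ehi t3c17.Bh t3c17.B1 (1 - eh)) (elo t3c17.D0 t3c17.Dh ek) (elo t3c17.E0 t3c17.Eh ek)) :=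
  NC.of (K := 234) (D := ⟨16, 9, 1, 1⟩) (Box.of 4 (by decide +kernel))
    (by decide +kernel)

theorem t3k17_r1_r3 : NC (f1 t3c17 (1 - eh) ek eh (elo t3c17.B0 t3c17.Bh ek) (elo t3c17.D0 t3c17.Dh eh) (elo t3c17.E0 t3c17.Eh eh)) :=
  NC.of (K := 236) (D := ⟨16, 12, 1, 1⟩) (Box.of 4 (by decide +kernel))
    (by decide +kernel)

theorem t3k17_r1_r4 : NC (f1 t3c17 eh ek (1 - eh) (elo t3c17.B0 t3c17.Bh ek) (ehi t3c17.Dh t3c17.D1 (1 - eh)) (ehi t3c17.Eh t3c17.E1 (1 - eh))) :=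
  NC.of (K := 237) (D := ⟨16, 12, 1, 1⟩) (Box.of 4 (by decide +kernel))
    (by decide +kernel)

theorem t3k17_r2_r1 : NC (f2 t3c17 (1 - eh) eh ek (elo t3c17.B0 t3c17.Bh eh) (elo t3c17.D0 t3c17.Dh ek) (elo t3c17.E0 t3c17.Eh ek)) :=
  NC.of (K := 236) (D := ⟨16, 11, 1, 1⟩) (Box.of 4 (by decide +kernel))
    (by decide +kernel)

theorem t3k17_r2_r2 : NC (f2 t3c17 eh (1 - eh) ek (ehi t3c17.Bh t3c17.B1 (1 - eh)) (elo t3c17.D0 t3c17.Dh ek) (elo t3c17.E0 t3c17.Eh ek)) :=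
  NC.of (K := 237) (D := ⟨16, 11, 1, 1⟩) (Box.of 4 (by decide +kernel))
    (by decide +kernel)

theorem t3k17_r2_r3 : NC (f2 t3c17 (1 - eh) ek eh (elo t3c17.B0 t3c17.Bh ek) (elo t3c17.D0 t3c17.Dh eh) (elo t3c17.E0 t3c17.Eh eh)) :=
  NC.of (K := 237) (D := ⟨16, 12, 1, 1⟩) (Box.of 4 (by decide +kernel))
    (by decide +kernel)

theorem t3k17_r2_r4 : NC (f2 t3c17 eh ek (1 - eh) (elo t3c17.B0 t3c17.Bh ek) (ehi t3c17.Dh t3c17.D1 (1 - eh)) (ehi t3c17.Eh t3c17.E1 (1 - eh))) :=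
  NC.of (K := 238) (D := ⟨16, 12, 1, 1⟩) (Box.of 4 (by decide +kernel))
    (by decide +kernel)

theorem t3k17_rc_r1 : NC (fc t3c17 (1 - eh) eh ek (elo t3c17.B0 t3c17.Bh eh) (elo t3c17.D0 t3c17.Dh ek) (elo t3c17.E0 t3c17.Eh ek)) :=
  NC.of (K := 136) (D := ⟨13, 9, 1, 1⟩) (Box.of 4 (by decide +kernel))
    (by decide +kernel)

theorem t3k17_rc_r2 : NC (fc t3c17 eh (1 - eh) ek (ehi t3c17.Bh t3c17.B1 (1 - eh)) (elo t3c17.D0 t3c17.Dh ek) (elo t3c17.E0 t3c17.Eh ek)) :=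
  NC.of (K := 136) (D := ⟨13, 9, 1, 1⟩) (Box.of 4 (by decide +kernel))
    (by decide +kernel)

theorem t3k17_rc_r3 : NC (fc t3c17 (1 - eh) ek eh (elo t3c17.B0 t3c17.Bh ek) (elo t3c17.D0 t3c17.Dh eh) (elo t3c17.E0 t3c17.Eh eh)) :=
  NC.of (K := 131) (D := ⟨13, 5, 1, 1⟩) (Box.of 4 (by decide +kernel))
    (by decide +kernel)

theorem t3k17_rc_r4 : NC (fc t3c17 eh ek (1 - eh) (elo t3c17.B0 t3c17.Bh ek) (ehi t3c17.Dh t3c17.D1 (1 - eh)) (ehi t3c17.Eh t3c17.E1 (1 - eh))) :=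
  NC.of (K := 136) (D := ⟨13, 5, 1, 1⟩) (Box.of 4 (by decide +kernel))
    (by decide +kernel)

theorem t3k17_rI_r1 : NC (fI t3c17 (1 - eh) eh ek (elo t3c17.B0 t3c17.Bh eh) (elo t3c17.D0 t3c17.Dh ek) (elo t3c17.E0 t3c17.Eh ek)) :=
  NC.of (K := 122) (D := ⟨13, 9, 1, 1⟩) (Box.of 4 (by decide +kernel))
    (by decide +kernel)

theorem t3k17_rI_r2 : NC (fI t3c17 eh (1 - eh) ek (ehi t3c17.Bh t3c17.B1 (1 - eh)) (elo t3c17.D0 t3c17.Dh ek) (elo t3c17.E0 t3c17.Eh ek)) :=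
  NC.of (K := 122) (D := ⟨13, 9, 1, 1⟩) (Box.of 4 (by decide +kernel))
    (by decide +kernel)

theorem t3k17_rI_r3 : NC (fI t3c17 (1 - eh) ek eh (elo t3c17.B0 t3c17.Bh ek) (elo t3c17.D0 t3c17.Dh eh) (elo t3c17.E0 t3c17.Eh eh)) :=
  NC.of (K := 117) (D := ⟨13, 5, 1, 1⟩) (Box.of 4 (by decide +kernel))
    (by decide +kernel)

theorem t3k17_rI_r4 : NC (fI t3c17 eh ek (1 - eh) (elo t3c17.B0 t3c17.Bh ek) (ehi t3c17.Dh t3c17.D1 (1 - eh)) (ehi t3c17.Eh t3c17.E1 (1 - eh))) :=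
  NC.of (K := 122) (D := ⟨13, 5, 1, 1⟩) (Box.of 4 (by decide +kernel))
    (by decide +kernel)

theorem t3k17_rJ_r1 : NC (fJ t3c17 (1 - eh) eh ek (elo t3c17.B0 t3c17.Bh eh) (elo t3c17.D0 t3c17.Dh ek) (elo t3c17.E0 t3c17.Eh ek)) :=
  NC.of (K := 79) (D := ⟨7, 5, 1, 1⟩) (Box.of 4 (by decide +kernel))
    (by decide +kernel)

theorem t3k17_rJ_r2 : NC (fJ t3c17 eh (1 - eh) ek (ehi t3c17.Bh t3c17.B1 (1 - eh)) (elo t3c17.D0 t3c17.Dh ek) (elo t3c17.E0 t3c17.Eh ek)) :=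
  NC.of (K := 79) (D := ⟨7, 5, 1, 1⟩) (Box.of 4 (by decide +kernel))
    (by decide +kernel)

theorem t3k17_rJ_r3 : NC (fJ t3c17 (1 - eh) ek eh (elo t3c17.B0 t3c17.Bh ek) (elo t3c17.D0 t3c17.Dh eh) (elo t3c17.E0 t3c17.Eh eh)) :=
  NC.of (K := 76) (D := ⟨7, 3, 1, 1⟩) (Box.of 4 (by decide +kernel))
    (by decide +kernel)

theorem t3k17_rJ_r4 : NC (fJ t3c17 eh ek (1 - eh) (elo t3c17.B0 t3c17.Bh ek) (ehi t3c17.Dh t3c17.D1 (1 - eh)) (ehi t3c17.Eh t3c17.E1 (1 - eh))) :=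
  NC.of (K := 79) (D := ⟨7, 3, 1, 1⟩) (Box.of 4 (by decide +kernel))
    (by decide +kernel)

theorem t3k17_gE_r1 : NC (fE t3c17 t3e17 (1 - eh) eh ek (elo t3c17.B0 t3c17.Bh eh) (elo t3c17.D0 t3c17.Dh ek) (elo t3c17.E0 t3c17.Eh ek)) :=
  NC.of (K := 149) (D := ⟨13, 9, 1, 1⟩) (Box.of 288 (by decide +kernel))
    (by decide +kernel)

theorem t3k17_gE_r2 : NC (fE t3c17 t3e17 eh (1 - eh) ek (ehi t3c17.Bh t3c17.B1 (1 - eh)) (elo t3c17.D0 t3c17.Dh ek) (elo t3c17.E0 t3c17.Eh ek)) :=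
  NC.of (K := 128) (D := ⟨13, 9, 1, 1⟩) (Box.of 4 (by decide +kernel))
    (by decide +kernel)

theorem t3k17_gE_r3 : NC (fE t3c17 t3e17 (1 - eh) ek eh (elo t3c17.B0 t3c17.Bh ek) (elo t3c17.D0 t3c17.Dh eh) (elo t3c17.E0 t3c17.Eh eh)) :=
  NC.of (K := 159) (D := ⟨13, 7, 1, 1⟩) (Box.of 18696 (by decide +kernel))
    (by decide +kernel)

theorem t3k17_gE_r4 : NC (fE t3c17 t3e17 eh ek (1 - eh) (elo t3c17.B0 t3c17.Bh ek) (ehi t3c17.Dh t3c17.D1 (1 - eh)) (ehi t3c17.Eh t3c17.E1 (1 - eh))) :=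
  NC.of (K := 130) (D := ⟨13, 7, 1, 1⟩) (Box.of 4 (by decide +kernel))
    (by decide +kernel)

theorem t3k17_B0 : NC (kB dW 1 0 t3c17.B0 (tcl t3c17)) :=
  NC.of (K := 93) (D := ⟨1, 1, 1, 9⟩) (Box.of 4 (by decide +kernel))
    (by decide +kernel)

theorem t3k17_E0 : NC (kE dW qW qW.p0 qW.q0 t3c17.E0 (tcl t3c17)) :=
  NC.of (K := 206) (D := ⟨1, 1, 1, 19⟩) (Box.of 4 (by decide +kernel))
    (by decide +kernel)

theorem t3k17_D0 : NC (kD dW qW 1 0 qW.p0 qW.q0 t3c17.D0 (tcl t3c17)) :=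
  NC.of (K := 323) (D := ⟨1, 1, 1, 20⟩) (Box.of 4 (by decide +kernel))
    (by decide +kernel)

theorem t3k17_Bh : NC (kB dW (1 / 2) (1 / 2) t3c17.Bh (tcl t3c17)) :=
  NC.of (K := 96) (D := ⟨1, 1, 1, 9⟩) (Box.of 4 (by decide +kernel))
    (by decide +kernel)

theorem t3k17_Eh : NC (kE dW qW qW.ph qW.qh t3c17.Eh (tcl t3c17)) :=
  NC.of (K := 210) (D := ⟨1, 1, 1, 19⟩) (Box.of 4 (by decide +kernel))
    (by decide +kernel)

theorem t3k17_Dh : NC (kD dW qW (1 / 2) (1 / 2) qW.ph qW.qh t3c17.Dh (tcl t3c17)) :=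
  NC.of (K := 327) (D := ⟨1, 1, 1, 20⟩) (Box.of 4 (by decide +kernel))
    (by decide +kernel)

theorem t3k17_B1 : NC (kB dW 0 (1 / 2) t3c17.B1 (tcl t3c17)) :=
  NC.of (K := 96) (D := ⟨1, 1, 1, 9⟩) (Box.of 4 (by decide +kernel))
    (by decide +kernel)

theorem t3k17_E1 : NC (kE dW qW qW.p1 qW.q1 t3c17.E1 (tcl t3c17)) :=
  NC.of (K := 210) (D := ⟨1, 1, 1, 19⟩) (Box.of 4 (by decide +kernel))
    (by decide +kernel)

theorem t3k17_D1 : NC (kD dW qW 0 (1 / 2) qW.p1 qW.q1 t3c17.D1 (tcl t3c17)) :=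
  NC.of (K := 327) (D := ⟨1, 1, 1, 20⟩) (Box.of 4 (by decide +kernel))
    (by decide +kernel)

theorem t3k17_l : NC (qc t3n17.lb - (1 - vX) * pe (exl t3c17.th) vX ^ 2) :=
  NC.of (K := 122) (D := ⟨10, 1, 1, 1⟩) (Box.of 4 (by decide +kernel))
    (by decide +kernel)

theorem t3k17_n : NC (qc t3n17.nb - vX * (1 - vX) * pe (exl t3c17.th) vX) :=
  NC.of (K := 114) (D := ⟨7, 1, 1, 1⟩) (Box.of 76677152 (by decide +kernel))
    (by decide +kernel)

theorem t3k17_rb : NC (krb t3n17 fW (t1v t3c17)) :=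
  NC.of (K := 170) (D := ⟨1, 1, 1, 16⟩) (Box.of 4 (by decide +kernel))
    (by decide +kernel)

theorem t3k17_kap : NC (kkap dW qW t3n17 (tcl t3c17)) :=
  NC.of (K := 93) (D := ⟨1, 1, 1, 9⟩) (Box.of 4 (by decide +kernel))
    (by decide +kernel)

theorem t3k17_wb2 : NC (qc t3n17.b2 - pe2 kW.QB (vZ * t1v t3c17) (t1v t3c17)) :=
  NC.of (K := 134) (D := ⟨1, 6, 1, 11⟩) (Box.of 291 (by decide +kernel))
    (by decide +kernel)

theorem t3k17_wmb : NC (qc t3n17.Mb - pe zW.mb (t1v t3c17)) :=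
  NC.of (K := 105) (D := ⟨1, 1, 1, 9⟩) (Box.of 291 (by decide +kernel))
    (by decide +kernel)

theorem t3k17_wth : NC (qc (t3c17.th / t3c17.t1) - pe2 zW.Qt (vZ * t1v t3c17) (t1v t3c17)) :=
  NC.of (K := 138) (D := ⟨1, 6, 1, 11⟩) (Box.of 291 (by decide +kernel))
    (by decide +kernel)

theorem t3k17_wyb : NC (qc t3n17.Yb - (t1v t3c17 - vZ * t1v t3c17) ^ 3 * pe2 yW.QY (vZ * t1v t3c17) (t1v t3c17)) :=
  NC.of (K := 117) (D := ⟨1, 8, 1, 12⟩) (Box.of 4 (by decide +kernel))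
    (by decide +kernel)

theorem t3k17_wmu : NC (qc t3m17 - pe t3al (tcl t3c17) * (1 + hlf * tcl t3c17)) :=
  NC.of (K := 89) (D := ⟨1, 1, 1, 9⟩) (Box.of 4 (by decide +kernel))
    (by decide +kernel)

theorem t3k17_wcj : NC (qc t3c17.C * ((6 - 3 * vX) * (1 - qc t3m17 * vX)) - (6 - 6 * vX + vX ^ 2)) :=
  NC.of (K := 32) (D := ⟨3, 1, 1, 1⟩) (Box.of 4 (by decide +kernel))
    (by decide +kernel)

theorem t3k17_nd1 : NC (pe t3r17.d1 (t1v t3c17)) :=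
  NC.of (K := 65) (D := ⟨1, 1, 1, 7⟩) (Box.of 4 (by decide +kernel))
    (by decide +kernel)

theorem t3k17_nd2 : NC (pe t3r17.d2 (t1v t3c17)) :=
  NC.of (K := 63) (D := ⟨1, 1, 1, 7⟩) (Box.of 4 (by decide +kernel))
    (by decide +kernel)

theorem t3k17_ndy : NC (pe t3r17.dy (t1v t3c17)) :=
  NC.of (K := 64) (D := ⟨1, 1, 1, 7⟩) (Box.of 4 (by decide +kernel))
    (by decide +kernel)

theorem t3k17_nt1 : NC (pe t3r17.t1 (t1v t3c17)) :=
  NC.of (K := 71) (D := ⟨1, 1, 1, 7⟩) (Box.of 4 (by decide +kernel))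
    (by decide +kernel)

theorem t3k17_nt2 : NC (pe t3r17.t2 (t1v t3c17)) :=
  NC.of (K := 69) (D := ⟨1, 1, 1, 7⟩) (Box.of 4 (by decide +kernel))
    (by decide +kernel)

theorem t3k17_nty : NC (pe t3r17.ty (t1v t3c17)) :=
  NC.of (K := 72) (D := ⟨1, 1, 1, 7⟩) (Box.of 4 (by decide +kernel))
    (by decide +kernel)

theorem t3k17_nhz : NC (pe t3r17.hz (t1v t3c17)) :=
  NC.of (K := 97) (D := ⟨1, 1, 1, 7⟩) (Box.of 18659 (by decide +kernel))
    (by decide +kernel)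

theorem t3k17_xi : NC (eXi fW t3c17 t3e17 t3r17 (t1v t3c17)) :=
  NC.of (K := 282) (D := ⟨1, 1, 1, 22⟩) (Box.of 4 (by decide +kernel))
    (by decide +kernel)

theorem t3k17_om : NC (eOm fW t3r17 (t1v t3c17)) :=
  NC.of (K := 161) (D := ⟨1, 1, 1, 16⟩) (Box.of 4 (by decide +kernel))
    (by decide +kernel)

theorem t3k17_fin : NC (eFin dW t3c17 t3n17 t3r17 t3h17 (tcl t3c17)) :=
  NC.of (K := 219) (D := ⟨1, 1, 1, 14⟩) (Box.of 4 (by decide +kernel))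
    (by decide +kernel)

theorem t3k17_xdl : NC (qc t3e17.dl - pe t3d17.l.dl t3d17.eU) :=
  NC.of (K := 73) (D := ⟨1, 4, 1, 1⟩) (Box.of 4 (by decide +kernel))
    (by decide +kernel)

theorem t3k17_xeY : NC (qc t3e17.eY - pe (e4l t3d17.l.z) t3d17.eU) :=
  NC.of (K := 288) (D := ⟨1, 13, 1, 1⟩) (Box.of 4 (by decide +kernel))
    (by decide +kernel)

theorem t3k17_xgr : NC (qc t3d17.ga * ((1 + qc (3 / 5) * vX) * (1 + (t3d17.eg + hlf * t3d17.eg ^ 2))) + qc t3d17.gb - pe2 t3GR vX t3d17.eU) :=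
  NC.of (K := 261) (D := ⟨4, 11, 1, 1⟩) (Box.of 1181728 (by decide +kernel))
    (by decide +kernel)

theorem t3k17_xhr : NC (qc t3d17.hb - pe2 t3HR vX t3d17.eU) :=
  NC.of (K := 262) (D := ⟨3, 12, 1, 1⟩) (Box.of 4 (by decide +kernel))
    (by decide +kernel)

theorem t3k17_xgs : NC (pe t3d17.gs t3d17.e1 - qc (8 / 5) * pe (e4l (ladd t3d17.ls.z t3d17.ls.dl)) t3d17.e1) :=
  NC.of (K := 224) (D := ⟨1, 1, 1, 13⟩) (Box.of 4 (by decide +kernel))
    (by decide +kernel)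

theorem t3k17_xd1 : NC (pe t3d17.d1 t3d17.e1 - t3d17.eA t3d17.eU t3d17.e1) :=
  NC.of (K := 284) (D := ⟨1, 12, 1, 12⟩) (Box.of 4 (by decide +kernel))
    (by decide +kernel)

theorem t3k17_xd2 : NC (pe t3d17.d2 t3d17.e1 - t3d17.eB t3d17.eU t3d17.e1) :=
  NC.of (K := 309) (D := ⟨1, 12, 1, 12⟩) (Box.of 291 (by decide +kernel))
    (by decide +kernel)

theorem t3k17_xt1 : NC (pe t3d17.t1 t3d17.e1 - t3d17.eAT t3d17.eU t3d17.e1) :=
  NC.of (K := 503) (D := ⟨1, 19, 1, 19⟩) (Box.of 291 (by decide +kernel))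
    (by decide +kernel)

theorem t3k17_xt2 : NC (pe t3d17.t2 t3d17.e1 - t3d17.eBT t3d17.eU t3d17.e1) :=
  NC.of (K := 503) (D := ⟨1, 19, 1, 19⟩) (Box.of 291 (by decide +kernel))
    (by decide +kernel)

theorem t3k17_xdy : NC (pe t3d17.dy t3d17.e1 - t3d17.eSD t3d17.eU t3d17.e1) :=
  NC.of (K := 437) (D := ⟨1, 18, 1, 12⟩) (Box.of 4 (by decide +kernel))
    (by decide +kernel)

theorem t3k17_xty : NC (pe t3d17.ty t3d17.e1 - t3d17.eST t3d17.eU t3d17.e1) :=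
  NC.of (K := 659) (D := ⟨1, 26, 1, 26⟩) (Box.of 4 (by decide +kernel))
    (by decide +kernel)

theorem t3k17_xd1s : NC (pe t3r17.d1 (t1v t3c17) - pe t3d17.d1 (Xcd.ew zW t3c17)) :=
  NC.of (K := 592) (D := ⟨1, 1, 1, 55⟩) (Box.of 4 (by decide +kernel))
    (by decide +kernel)

theorem t3k17_xd2s : NC (pe t3r17.d2 (t1v t3c17) - pe t3d17.d2 (Xcd.ew zW t3c17)) :=
  NC.of (K := 599) (D := ⟨1, 1, 1, 55⟩) (Box.of 4 (by decide +kernel))
    (by decide +kernel)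

theorem t3k17_xt1s : NC (pe t3r17.t1 (t1v t3c17) - pe t3d17.t1 (Xcd.ew zW t3c17)) :=
  NC.of (K := 603) (D := ⟨1, 1, 1, 55⟩) (Box.of 4 (by decide +kernel))
    (by decide +kernel)

theorem t3k17_xt2s : NC (pe t3r17.t2 (t1v t3c17) - pe t3d17.t2 (Xcd.ew zW t3c17)) :=
  NC.of (K := 600) (D := ⟨1, 1, 1, 55⟩) (Box.of 4 (by decide +kernel))
    (by decide +kernel)

theorem t3k17_xdys : NC (pe t3r17.dy (t1v t3c17) - pe t3d17.dy (Xcd.ew zW t3c17)) :=
  NC.of (K := 597) (D := ⟨1, 1, 1, 55⟩) (Box.of 4 (by decide +kernel))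
    (by decide +kernel)

theorem t3k17_xtys : NC (pe t3r17.ty (t1v t3c17) - pe t3d17.ty (Xcd.ew zW t3c17)) :=
  NC.of (K := 601) (D := ⟨1, 1, 1, 55⟩) (Box.of 4 (by decide +kernel))
    (by decide +kernel)

theorem t3k17_xhz : NC (pe t3r17.hz (t1v t3c17) - pe t3d17.c.dR (Xcd.ew zW t3c17)) :=
  NC.of (K := 507) (D := ⟨1, 1, 1, 46⟩) (Box.of 4 (by decide +kernel))
    (by decide +kernel)

theorem t3f17_ok : t3f17.ok V2L.y7 V2L.k7 V2L.nb V2L.la (10 ^ 30) 32 = true := by decide +kernel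

theorem t3k17_sg : t3c17.Sg := by
  constructor <;> decide +kernel

theorem t3k17_rgs : t3c17.Rgs where
  M := ⟨t3k17_M_r1, t3k17_M_r2, t3k17_M_r3, t3k17_M_r4⟩
  r0 := ⟨t3k17_r0_r1, t3k17_r0_r2, t3k17_r0_r3, t3k17_r0_r4⟩
  r1 := ⟨t3k17_r1_r1, t3k17_r1_r2, t3k17_r1_r3, t3k17_r1_r4⟩
  r2 := ⟨t3k17_r2_r1, t3k17_r2_r2, t3k17_r2_r3, t3k17_r2_r4⟩
  rc := ⟨t3k17_rc_r1, t3k17_rc_r2, t3k17_rc_r3, t3k17_rc_r4⟩
  rI := ⟨t3k17_rI_r1, t3k17_rI_r2, t3k17_rI_r3, t3k17_rI_r4⟩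
  rJ := ⟨t3k17_rJ_r1, t3k17_rJ_r2, t3k17_rJ_r3, t3k17_rJ_r4⟩

theorem t3k17_xn : t3e17.Ok t3c17 where
  lm := by decide +kernel
  dl0 := by decide +kernel
  dl1 := by decide +kernel
  e2 := by decide +kernel
  eY := by decide +kernel
  gE := ⟨t3k17_gE_r1, t3k17_gE_r2, t3k17_gE_r3, t3k17_gE_r4⟩

theorem t3k17_vl : t3c17.Vl dW qW where
  bt := by decide +kernel
  B0 := t3k17_B0
  E0 := t3k17_E0
  D0 := t3k17_D0
  Bh := t3k17_Bh
  Eh := t3k17_Eh
  Dh := t3k17_Dh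
  B1 := t3k17_B1
  E1 := t3k17_E1
  D1 := t3k17_D1

theorem t3k17_rat : t3n17.Rat t3c17 := by
  constructor <;> decide +kernel

theorem t3k17_ck : t3n17.Ck t3c17 := ⟨t3k17_l, t3k17_n⟩

theorem t3k17_fck : t3n17.Fck dW qW fW t3c17 := ⟨t3k17_rb, t3k17_kap⟩

theorem t3k17_w : Wcl zW kW yW t3al t3c17 t3n17 t3m17 where
  b2 := t3k17_wb2
  mb := t3k17_wmb
  th := t3k17_wth
  yb := t3k17_wyb
  mu := t3k17_wmu
  cj := t3k17_wcj
  mt1 := by decide +kernel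
  mt2 := by decide +kernel

theorem t3k17_ok : CelOk dW qW fW t3c17 t3n17 where
  s := t3k17_sg
  r := t3k17_rgs
  v := t3k17_vl
  rt := t3k17_rat
  k := t3k17_ck
  fc := t3k17_fck
  q01 := by decide +kernel
  q12 := by decide +kernel
  h2 := by decide +kernel

theorem t3k17_xr : t3r17.Ok fW t3c17 t3e17 where
  sD := by decide +kernel
  sT := by decide +kernel
  nd1 := t3k17_nd1
  nd2 := t3k17_nd2
  ndy := t3k17_ndy
  nt1 := t3k17_nt1
  nt2 := t3k17_nt2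
  nty := t3k17_nty
  nhz := t3k17_nhz
  xi := t3k17_xi
  om := t3k17_om

theorem t3k17_X : t3d17.Ck t3GR t3HR zW t3c17 t3e17 t3r17 where
  u0 := by decide +kernel
  u01 := by decide +kernel
  ul := by decide +kernel
  us := by decide +kernel
  uc := by decide +kernel
  ga0 := by decide +kernel
  kp0 := by decide +kernel
  lm := by decide +kernel
  dl := t3k17_xdl
  eY := t3k17_xeY
  gr := t3k17_xgr
  hr := t3k17_xhr
  gs := t3k17_xgs
  d1 := t3k17_xd1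
  d2 := t3k17_xd2
  t1 := t3k17_xt1
  t2 := t3k17_xt2
  dy := t3k17_xdy
  ty := t3k17_xty
  d1s := t3k17_xd1s
  d2s := t3k17_xd2s
  t1s := t3k17_xt1s
  t2s := t3k17_xt2s
  dys := t3k17_xdys
  tys := t3k17_xtys
  hz := t3k17_xhz

end Pool.Agent.RX.RCN.K
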