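import Pool.Agent.RX.RCN.T3D
import Pool.Agent.RX.RCN.T3Wq
import Pool.Agent.RX.RCN.T3X8
import Pool.Agent.RX.RCN.VLd

/-! Certificates (generated). -/

set_option autoImplicit false

namespace Pool.Agent.RX.RCN.K

open Set Pool.Agent.RX.RCM9 Pool.Agent.RX.RCM9.Bern Pool.Agent.RX.RCM9.Pk Xce

def t3c18 : Cel where
  t0 := 19 / 50
  t1 := 387 / 1000
  C := 4097 / 4096
  th := 199 / 512
  B0 := 2197 / 2048
  Bh := 2339 / 2048
  B1 := 2267 / 2048
  D0 := 1257 / 4096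
  Dh := 249 / 1024
  D1 := 237 / 1024
  E0 := 18445 / 4194304
  Eh := 15145 / 4194304
  E1 := 14425 / 4194304
  Q0 := 1101 / 1024
  Q1 := 1101 / 1024
  Q2 := 1101 / 1024
  Ac := 1101 / 1024
  gI := 1101 / 1024
  J := 6301 / 1048576

def t3n18 : Chn where
  lb := 513 / 512
  nb := 315 / 1024
  Mb := 1029 / 1024
  b2 := 65 / 64
  Yb := 15 / 2048
  E2 := 4157 / 4096
  e1 := 629 / 512
  Z1 := 1129 / 1024
  Z2 := 313 / 512
  KB := 1055 / 1024
  cb := 267 / 256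
  rb := 347 / 1024
  om := 263 / 256
  fb := 129 / 128
  kap := 519 / 512
  ab := 1029 / 1024

def t3e18 : Xge where
  lm := 3 / 5
  dl := 195 / 512
  e2 := 679 / 8192
  eY := 129 / 128
  gE := 1133 / 1024

def t3r18 : Xr where
  d1 := [1540139 / 100000000, 44479 / 20000000, 214127 / 12500000, 270063 / 10000000, 2042381 /
    100000000, -14137 / 625000, 776241 / 12500000]
  d2 := [641 / 10000000, 11057 / 781250, 4074219 / 100000000, 18930473 / 50000000, -8173693 /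
    6250000, 237500767 / 100000000, -40062379 / 25000000]
  dy := [10666223 / 100000000, 732331 / 20000000, 19913177 / 100000000, 10411727 / 20000000,
    -100022921 / 100000000, 95281011 / 100000000, -35017921 / 100000000]
  t1 := [10271867 / 100000000, -40788049 / 100000000, 10181727 / 20000000, -128547519 / 100000000,
    425991911 / 50000000, -2100754037 / 100000000, 1954958987 / 100000000]
  t2 := [2121949 / 100000000, -8679159 / 100000000, 17602053 / 100000000, -391737 / 1562500,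
    53933559 / 20000000, -29152739 / 4000000, 339493227 / 50000000]
  ty := [28892653 / 50000000, -271575143 / 100000000, 207776999 / 50000000, 443966999 / 100000000,
    -830009527 / 50000000, 921174897 / 50000000, -416960037 / 50000000]
  hz := [2735163 / 25000000, -9817 / 200000, -768402559 / 100000000, 4023101709 / 100000000,
    -7298377919 / 100000000, 2113539677 / 50000000, 16288757 / 100000000]
  om := [100396699 / 100000000, 102180157 / 100000000, -1380099021 / 100000000, 533640163 /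
    10000000, -2200975259 / 20000000, 80176909 / 500000, -3660554691 / 25000000, 2142930053 /
    100000000, 2493436597 / 50000000]
  sD := 541 / 256
  sT := 483 / 256
  xi := [4558363 / 100000000, 22298703 / 50000000, -92803439 / 50000000, -554767337 / 100000000,
    2498191879 / 50000000, -2301120067 / 25000000, -663591497 / 100000000, 19951886563 /
    100000000, -21522904631 / 100000000, 3425750667 / 50000000]

def t3f18 : Dl where
  Ca := 3811823 / 10000000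
  Cv := 24263 / 62500
  k1 := 9488153 / 10000000
  ks := 14562 / 15625
  dd := 0
  kp := 3 / 10000000
  e := [999999699723 / 1000000000000, -1308627990669 / 1000000000000, 1343935602007 /
    1000000000000, -610632674561 / 500000000000, 106076059977 / 100000000000, -86653163527 /
    100000000000, 641286654977 / 1000000000000, -37656320277 / 100000000000, 61671222341 /
    500000000000]
  j1 := [-1398489 / 500000000, -4719616203 / 500000000, 85423608539 / 1000000000, -367889700999 /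
    1000000000, 922656542999 / 1000000000, -345228836113 / 250000000, 4702289423 / 4000000,
    -457444055689 / 1000000000]
  nu := [1761337 / 25000000, -51701647 / 250000000, 394536857 / 1000000000, 14771839 / 500000000,
    -36203907 / 125000000, 1550974333 / 1000000000, -1686720369 / 1000000000]
  k2 := [931969841 / 1000000000, 48186779 / 250000000, -21732289 / 62500000, -104521781 /
    1000000000, 89032301 / 250000000, -1527030703 / 1000000000, 844356209 / 500000000]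
  dR := [2729693 / 25000000, -4887641 / 100000000, -763860281 / 100000000, 49849221 / 1250000,
    -3608866451 / 50000000, 2090860739 / 50000000]

def t3d18 : Xce where
  u0 := 381683 / 1000000
  u1 := 24263 / 62500
  l := V2L.y8
  y := t3z8
  j := t3j8
  i := t3i8
  ls := t3y8
  k := V2L.k8
  c := t3f18
  ga := 1537 / 100000
  gb := -2541 / 500000
  hb := 16873 / 250000
  gs := [160002857 / 100000000, 239999951 / 100000000, 90000987 / 50000000, 79570317 / 100000000,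
    26797741 / 100000000, -3111371 / 25000000, -5755613 / 100000000]
  d1 := [307817 / 20000000, 55601 / 25000000, 841837 / 50000000, 178941 / 6250000, 148583 /
    12500000, -282459 / 50000000, 4852733 / 100000000]
  d2 := [2703 / 50000000, 176631 / 12500000, 499081 / 12500000, 9517997 / 25000000, -65814949 /
    50000000, 11935951 / 5000000, -160865909 / 100000000]
  dy := [10657863 / 100000000, 731369 / 20000000, 19617863 / 100000000, 53286749 / 100000000,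
    -13282481 / 12500000, 21703601 / 20000000, -5634823 / 12500000]
  t1 := [5133359 / 50000000, -4066063 / 10000000, 10106531 / 20000000, -63347521 / 50000000,
    419067059 / 50000000, -51504803 / 2500000, 1911128289 / 100000000]
  t2 := [424173 / 20000000, -8649859 / 100000000, 8712771 / 50000000, -24188677 / 100000000,
    26354459 / 10000000, -712029691 / 100000000, 331131263 / 50000000]
  ty := [9241 / 16000, -270713009 / 100000000, 16490507 / 4000000, 111807193 / 25000000,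
    -837020457 / 50000000, 1890789699 / 100000000, -35369761 / 4000000]

def t3m18 : ℚ := 779 / 2048

def t3h18 : ℚ := 62 / 125

theorem t3k18_M_r1 : NC (fM t3c18 (1 - eh) eh ek (elo t3c18.B0 t3c18.Bh eh) (elo t3c18.D0 t3c18.Dh ek) (elo t3c18.E0 t3c18.Eh ek)) :=
  NC.of (K := 35) (D := ⟨4, 3, 1, 1⟩) (Box.of 4 (by decide +kernel))
    (by decide +kernel)

theorem t3k18_M_r2 : NC (fM t3c18 eh (1 - eh) ek (ehi t3c18.Bh t3c18.B1 (1 - eh)) (elo t3c18.D0 t3c18.Dh ek) (elo t3c18.E0 t3c18.Eh ek)) :=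
  NC.of (K := 35) (D := ⟨4, 3, 1, 1⟩) (Box.of 4 (by decide +kernel))
    (by decide +kernel)

theorem t3k18_M_r3 : NC (fM t3c18 (1 - eh) ek eh (elo t3c18.B0 t3c18.Bh ek) (elo t3c18.D0 t3c18.Dh eh) (elo t3c18.E0 t3c18.Eh eh)) :=
  NC.of (K := 34) (D := ⟨4, 2, 1, 1⟩) (Box.of 4 (by decide +kernel))
    (by decide +kernel)

theorem t3k18_M_r4 : NC (fM t3c18 eh ek (1 - eh) (elo t3c18.B0 t3c18.Bh ek) (ehi t3c18.Dh t3c18.D1 (1 - eh)) (ehi t3c18.Eh t3c18.E1 (1 - eh))) :=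
  NC.of (K := 31) (D := ⟨4, 2, 1, 1⟩) (Box.of 4 (by decide +kernel))
    (by decide +kernel)

theorem t3k18_r0_r1 : NC (f0 t3c18 (1 - eh) eh ek (elo t3c18.B0 t3c18.Bh eh) (elo t3c18.D0 t3c18.Dh ek) (elo t3c18.E0 t3c18.Eh ek)) :=
  NC.of (K := 164) (D := ⟨13, 9, 1, 1⟩) (Box.of 4 (by decide +kernel))
    (by decide +kernel)

theorem t3k18_r0_r2 : NC (f0 t3c18 eh (1 - eh) ek (ehi t3c18.Bh t3c18.B1 (1 - eh)) (elo t3c18.D0 t3c18.Dh ek) (elo t3c18.E0 t3c18.Eh ek)) :=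
  NC.of (K := 164) (D := ⟨13, 9, 1, 1⟩) (Box.of 4 (by decide +kernel))
    (by decide +kernel)

theorem t3k18_r0_r3 : NC (f0 t3c18 (1 - eh) ek eh (elo t3c18.B0 t3c18.Bh ek) (elo t3c18.D0 t3c18.Dh eh) (elo t3c18.E0 t3c18.Eh eh)) :=
  NC.of (K := 159) (D := ⟨13, 5, 1, 1⟩) (Box.of 4 (by decide +kernel))
    (by decide +kernel)

theorem t3k18_r0_r4 : NC (f0 t3c18 eh ek (1 - eh) (elo t3c18.B0 t3c18.Bh ek) (ehi t3c18.Dh t3c18.D1 (1 - eh)) (ehi t3c18.Eh t3c18.E1 (1 - eh))) :=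
  NC.of (K := 148) (D := ⟨13, 5, 1, 1⟩) (Box.of 4 (by decide +kernel))
    (by decide +kernel)

theorem t3k18_r1_r1 : NC (f1 t3c18 (1 - eh) eh ek (elo t3c18.B0 t3c18.Bh eh) (elo t3c18.D0 t3c18.Dh ek) (elo t3c18.E0 t3c18.Eh ek)) :=
  NC.of (K := 220) (D := ⟨16, 9, 1, 1⟩) (Box.of 4 (by decide +kernel))
    (by decide +kernel)

theorem t3k18_r1_r2 : NC (f1 t3c18 eh (1 - eh) ek (ehi t3c18.Bh t3c18.B1 (1 - eh)) (elo t3c18.D0 t3c18.Dh ek) (elo t3c18.E0 t3c18.Eh ek)) :=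
  NC.of (K := 221) (D := ⟨16, 9, 1, 1⟩) (Box.of 4 (by decide +kernel))
    (by decide +kernel)

theorem t3k18_r1_r3 : NC (f1 t3c18 (1 - eh) ek eh (elo t3c18.B0 t3c18.Bh ek) (elo t3c18.D0 t3c18.Dh eh) (elo t3c18.E0 t3c18.Eh eh)) :=
  NC.of (K := 223) (D := ⟨16, 12, 1, 1⟩) (Box.of 4 (by decide +kernel))
    (by decide +kernel)

theorem t3k18_r1_r4 : NC (f1 t3c18 eh ek (1 - eh) (elo t3c18.B0 t3c18.Bh ek) (ehi t3c18.Dh t3c18.D1 (1 - eh)) (ehi t3c18.Eh t3c18.E1 (1 - eh))) :=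
  NC.of (K := 224) (D := ⟨16, 12, 1, 1⟩) (Box.of 4 (by decide +kernel))
    (by decide +kernel)

theorem t3k18_r2_r1 : NC (f2 t3c18 (1 - eh) eh ek (elo t3c18.B0 t3c18.Bh eh) (elo t3c18.D0 t3c18.Dh ek) (elo t3c18.E0 t3c18.Eh ek)) :=
  NC.of (K := 222) (D := ⟨16, 11, 1, 1⟩) (Box.of 4 (by decide +kernel))
    (by decide +kernel)

theorem t3k18_r2_r2 : NC (f2 t3c18 eh (1 - eh) ek (ehi t3c18.Bh t3c18.B1 (1 - eh)) (elo t3c18.D0 t3c18.Dh ek) (elo t3c18.E0 t3c18.Eh ek)) :=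
  NC.of (K := 223) (D := ⟨16, 11, 1, 1⟩) (Box.of 4 (by decide +kernel))
    (by decide +kernel)

theorem t3k18_r2_r3 : NC (f2 t3c18 (1 - eh) ek eh (elo t3c18.B0 t3c18.Bh ek) (elo t3c18.D0 t3c18.Dh eh) (elo t3c18.E0 t3c18.Eh eh)) :=
  NC.of (K := 223) (D := ⟨16, 12, 1, 1⟩) (Box.of 4 (by decide +kernel))
    (by decide +kernel)

theorem t3k18_r2_r4 : NC (f2 t3c18 eh ek (1 - eh) (elo t3c18.B0 t3c18.Bh ek) (ehi t3c18.Dh t3c18.D1 (1 - eh)) (ehi t3c18.Eh t3c18.E1 (1 - eh))) :=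
  NC.of (K := 225) (D := ⟨16, 12, 1, 1⟩) (Box.of 4 (by decide +kernel))
    (by decide +kernel)

theorem t3k18_rc_r1 : NC (fc t3c18 (1 - eh) eh ek (elo t3c18.B0 t3c18.Bh eh) (elo t3c18.D0 t3c18.Dh ek) (elo t3c18.E0 t3c18.Eh ek)) :=
  NC.of (K := 163) (D := ⟨13, 9, 1, 1⟩) (Box.of 4 (by decide +kernel))
    (by decide +kernel)

theorem t3k18_rc_r2 : NC (fc t3c18 eh (1 - eh) ek (ehi t3c18.Bh t3c18.B1 (1 - eh)) (elo t3c18.D0 t3c18.Dh ek) (elo t3c18.E0 t3c18.Eh ek)) :=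
  NC.of (K := 163) (D := ⟨13, 9, 1, 1⟩) (Box.of 4 (by decide +kernel))
    (by decide +kernel)

theorem t3k18_rc_r3 : NC (fc t3c18 (1 - eh) ek eh (elo t3c18.B0 t3c18.Bh ek) (elo t3c18.D0 t3c18.Dh eh) (elo t3c18.E0 t3c18.Eh eh)) :=
  NC.of (K := 158) (D := ⟨13, 5, 1, 1⟩) (Box.of 4 (by decide +kernel))
    (by decide +kernel)

theorem t3k18_rc_r4 : NC (fc t3c18 eh ek (1 - eh) (elo t3c18.B0 t3c18.Bh ek) (ehi t3c18.Dh t3c18.D1 (1 - eh)) (ehi t3c18.Eh t3c18.E1 (1 - eh))) :=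
  NC.of (K := 147) (D := ⟨13, 5, 1, 1⟩) (Box.of 4 (by decide +kernel))
    (by decide +kernel)

theorem t3k18_rI_r1 : NC (fI t3c18 (1 - eh) eh ek (elo t3c18.B0 t3c18.Bh eh) (elo t3c18.D0 t3c18.Dh ek) (elo t3c18.E0 t3c18.Eh ek)) :=
  NC.of (K := 151) (D := ⟨13, 9, 1, 1⟩) (Box.of 4 (by decide +kernel))
    (by decide +kernel)

theorem t3k18_rI_r2 : NC (fI t3c18 eh (1 - eh) ek (ehi t3c18.Bh t3c18.B1 (1 - eh)) (elo t3c18.D0 t3c18.Dh ek) (elo t3c18.E0 t3c18.Eh ek)) :=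
  NC.of (K := 152) (D := ⟨13, 9, 1, 1⟩) (Box.of 4 (by decide +kernel))
    (by decide +kernel)

theorem t3k18_rI_r3 : NC (fI t3c18 (1 - eh) ek eh (elo t3c18.B0 t3c18.Bh ek) (elo t3c18.D0 t3c18.Dh eh) (elo t3c18.E0 t3c18.Eh eh)) :=
  NC.of (K := 146) (D := ⟨13, 5, 1, 1⟩) (Box.of 4 (by decide +kernel))
    (by decide +kernel)

theorem t3k18_rI_r4 : NC (fI t3c18 eh ek (1 - eh) (elo t3c18.B0 t3c18.Bh ek) (ehi t3c18.Dh t3c18.D1 (1 - eh)) (ehi t3c18.Eh t3c18.E1 (1 - eh))) :=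
  NC.of (K := 136) (D := ⟨13, 5, 1, 1⟩) (Box.of 4 (by decide +kernel))
    (by decide +kernel)

theorem t3k18_rJ_r1 : NC (fJ t3c18 (1 - eh) eh ek (elo t3c18.B0 t3c18.Bh eh) (elo t3c18.D0 t3c18.Dh ek) (elo t3c18.E0 t3c18.Eh ek)) :=
  NC.of (K := 87) (D := ⟨7, 5, 1, 1⟩) (Box.of 4 (by decide +kernel))
    (by decide +kernel)

theorem t3k18_rJ_r2 : NC (fJ t3c18 eh (1 - eh) ek (ehi t3c18.Bh t3c18.B1 (1 - eh)) (elo t3c18.D0 t3c18.Dh ek) (elo t3c18.E0 t3c18.Eh ek)) :=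
  NC.of (K := 87) (D := ⟨7, 5, 1, 1⟩) (Box.of 4 (by decide +kernel))
    (by decide +kernel)

theorem t3k18_rJ_r3 : NC (fJ t3c18 (1 - eh) ek eh (elo t3c18.B0 t3c18.Bh ek) (elo t3c18.D0 t3c18.Dh eh) (elo t3c18.E0 t3c18.Eh eh)) :=
  NC.of (K := 84) (D := ⟨7, 3, 1, 1⟩) (Box.of 4 (by decide +kernel))
    (by decide +kernel)

theorem t3k18_rJ_r4 : NC (fJ t3c18 eh ek (1 - eh) (elo t3c18.B0 t3c18.Bh ek) (ehi t3c18.Dh t3c18.D1 (1 - eh)) (ehi t3c18.Eh t3c18.E1 (1 - eh))) :=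
  NC.of (K := 78) (D := ⟨7, 3, 1, 1⟩) (Box.of 4 (by decide +kernel))
    (by decide +kernel)

theorem t3k18_gE_r1 : NC (fE t3c18 t3e18 (1 - eh) eh ek (elo t3c18.B0 t3c18.Bh eh) (elo t3c18.D0 t3c18.Dh ek) (elo t3c18.E0 t3c18.Eh ek)) :=
  NC.of (K := 175) (D := ⟨13, 9, 1, 1⟩) (Box.of 288 (by decide +kernel))
    (by decide +kernel)

theorem t3k18_gE_r2 : NC (fE t3c18 t3e18 eh (1 - eh) ek (ehi t3c18.Bh t3c18.B1 (1 - eh)) (elo t3c18.D0 t3c18.Dh ek) (elo t3c18.E0 t3c18.Eh ek)) :=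
  NC.of (K := 153) (D := ⟨13, 9, 1, 1⟩) (Box.of 4 (by decide +kernel))
    (by decide +kernel)

theorem t3k18_gE_r3 : NC (fE t3c18 t3e18 (1 - eh) ek eh (elo t3c18.B0 t3c18.Bh ek) (elo t3c18.D0 t3c18.Dh eh) (elo t3c18.E0 t3c18.Eh eh)) :=
  NC.of (K := 195) (D := ⟨13, 7, 1, 1⟩) (Box.of 18688 (by decide +kernel))
    (by decide +kernel)

theorem t3k18_gE_r4 : NC (fE t3c18 t3e18 eh ek (1 - eh) (elo t3c18.B0 t3c18.Bh ek) (ehi t3c18.Dh t3c18.D1 (1 - eh)) (ehi t3c18.Eh t3c18.E1 (1 - eh))) :=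
  NC.of (K := 140) (D := ⟨13, 7, 1, 1⟩) (Box.of 4 (by decide +kernel))
    (by decide +kernel)

theorem t3k18_B0 : NC (kB dW 1 0 t3c18.B0 (tcl t3c18)) :=
  NC.of (K := 120) (D := ⟨1, 1, 1, 9⟩) (Box.of 4 (by decide +kernel))
    (by decide +kernel)

theorem t3k18_E0 : NC (kE dW qW qW.p0 qW.q0 t3c18.E0 (tcl t3c18)) :=
  NC.of (K := 266) (D := ⟨1, 1, 1, 19⟩) (Box.of 4 (by decide +kernel))
    (by decide +kernel)

theorem t3k18_D0 : NC (kD dW qW 1 0 qW.p0 qW.q0 t3c18.D0 (tcl t3c18)) :=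
  NC.of (K := 386) (D := ⟨1, 1, 1, 20⟩) (Box.of 4 (by decide +kernel))
    (by decide +kernel)

theorem t3k18_Bh : NC (kB dW (1 / 2) (1 / 2) t3c18.Bh (tcl t3c18)) :=
  NC.of (K := 123) (D := ⟨1, 1, 1, 9⟩) (Box.of 4 (by decide +kernel))
    (by decide +kernel)

theorem t3k18_Eh : NC (kE dW qW qW.ph qW.qh t3c18.Eh (tcl t3c18)) :=
  NC.of (K := 270) (D := ⟨1, 1, 1, 19⟩) (Box.of 4 (by decide +kernel))
    (by decide +kernel)

theorem t3k18_Dh : NC (kD dW qW (1 / 2) (1 / 2) qW.ph qW.qh t3c18.Dh (tcl t3c18)) :=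
  NC.of (K := 390) (D := ⟨1, 1, 1, 20⟩) (Box.of 4 (by decide +kernel))
    (by decide +kernel)

theorem t3k18_B1 : NC (kB dW 0 (1 / 2) t3c18.B1 (tcl t3c18)) :=
  NC.of (K := 123) (D := ⟨1, 1, 1, 9⟩) (Box.of 4 (by decide +kernel))
    (by decide +kernel)

theorem t3k18_E1 : NC (kE dW qW qW.p1 qW.q1 t3c18.E1 (tcl t3c18)) :=
  NC.of (K := 270) (D := ⟨1, 1, 1, 19⟩) (Box.of 4 (by decide +kernel))
    (by decide +kernel)

theorem t3k18_D1 : NC (kD dW qW 0 (1 / 2) qW.p1 qW.q1 t3c18.D1 (tcl t3c18)) :=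
  NC.of (K := 390) (D := ⟨1, 1, 1, 20⟩) (Box.of 4 (by decide +kernel))
    (by decide +kernel)

theorem t3k18_l : NC (qc t3n18.lb - (1 - vX) * pe (exl t3c18.th) vX ^ 2) :=
  NC.of (K := 101) (D := ⟨10, 1, 1, 1⟩) (Box.of 4 (by decide +kernel))
    (by decide +kernel)

theorem t3k18_n : NC (qc t3n18.nb - vX * (1 - vX) * pe (exl t3c18.th) vX) :=
  NC.of (K := 92) (D := ⟨7, 1, 1, 1⟩) (Box.of 1196064 (by decide +kernel))
    (by decide +kernel)

theorem t3k18_rb : NC (krb t3n18 fW (t1v t3c18)) :=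
  NC.of (K := 234) (D := ⟨1, 1, 1, 16⟩) (Box.of 4 (by decide +kernel))
    (by decide +kernel)

theorem t3k18_kap : NC (kkap dW qW t3n18 (tcl t3c18)) :=
  NC.of (K := 120) (D := ⟨1, 1, 1, 9⟩) (Box.of 4 (by decide +kernel))
    (by decide +kernel)

theorem t3k18_wb2 : NC (qc t3n18.b2 - pe2 kW.QB (vZ * t1v t3c18) (t1v t3c18)) :=
  NC.of (K := 177) (D := ⟨1, 6, 1, 11⟩) (Box.of 291 (by decide +kernel))
    (by decide +kernel)

theorem t3k18_wmb : NC (qc t3n18.Mb - pe zW.mb (t1v t3c18)) :=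
  NC.of (K := 140) (D := ⟨1, 1, 1, 9⟩) (Box.of 291 (by decide +kernel))
    (by decide +kernel)

theorem t3k18_wth : NC (qc (t3c18.th / t3c18.t1) - pe2 zW.Qt (vZ * t1v t3c18) (t1v t3c18)) :=
  NC.of (K := 185) (D := ⟨1, 6, 1, 11⟩) (Box.of 291 (by decide +kernel))
    (by decide +kernel)

theorem t3k18_wyb : NC (qc t3n18.Yb - (t1v t3c18 - vZ * t1v t3c18) ^ 3 * pe2 yW.QY (vZ * t1v t3c18) (t1v t3c18)) :=
  NC.of (K := 165) (D := ⟨1, 8, 1, 12⟩) (Box.of 4 (by decide +kernel))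
    (by decide +kernel)

theorem t3k18_wmu : NC (qc t3m18 - pe t3al (tcl t3c18) * (1 + hlf * tcl t3c18)) :=
  NC.of (K := 116) (D := ⟨1, 1, 1, 9⟩) (Box.of 4 (by decide +kernel))
    (by decide +kernel)

theorem t3k18_wcj : NC (qc t3c18.C * ((6 - 3 * vX) * (1 - qc t3m18 * vX)) - (6 - 6 * vX + vX ^ 2)) :=
  NC.of (K := 33) (D := ⟨3, 1, 1, 1⟩) (Box.of 4 (by decide +kernel))
    (by decide +kernel)

theorem t3k18_nd1 : NC (pe t3r18.d1 (t1v t3c18)) :=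
  NC.of (K := 88) (D := ⟨1, 1, 1, 7⟩) (Box.of 4 (by decide +kernel))
    (by decide +kernel)

theorem t3k18_nd2 : NC (pe t3r18.d2 (t1v t3c18)) :=
  NC.of (K := 91) (D := ⟨1, 1, 1, 7⟩) (Box.of 4 (by decide +kernel))
    (by decide +kernel)

theorem t3k18_ndy : NC (pe t3r18.dy (t1v t3c18)) :=
  NC.of (K := 94) (D := ⟨1, 1, 1, 7⟩) (Box.of 4 (by decide +kernel))
    (by decide +kernel)

theorem t3k18_nt1 : NC (pe t3r18.t1 (t1v t3c18)) :=
  NC.of (K := 96) (D := ⟨1, 1, 1, 7⟩) (Box.of 4 (by decide +kernel))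
    (by decide +kernel)

theorem t3k18_nt2 : NC (pe t3r18.t2 (t1v t3c18)) :=
  NC.of (K := 94) (D := ⟨1, 1, 1, 7⟩) (Box.of 4 (by decide +kernel))
    (by decide +kernel)

theorem t3k18_nty : NC (pe t3r18.ty (t1v t3c18)) :=
  NC.of (K := 97) (D := ⟨1, 1, 1, 7⟩) (Box.of 4 (by decide +kernel))
    (by decide +kernel)

theorem t3k18_nhz : NC (pe t3r18.hz (t1v t3c18)) :=
  NC.of (K := 124) (D := ⟨1, 1, 1, 7⟩) (Box.of 18659 (by decide +kernel))
    (by decide +kernel)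

theorem t3k18_xi : NC (eXi fW t3c18 t3e18 t3r18 (t1v t3c18)) :=
  NC.of (K := 375) (D := ⟨1, 1, 1, 22⟩) (Box.of 4 (by decide +kernel))
    (by decide +kernel)

theorem t3k18_om : NC (eOm fW t3r18 (t1v t3c18)) :=
  NC.of (K := 225) (D := ⟨1, 1, 1, 16⟩) (Box.of 4 (by decide +kernel))
    (by decide +kernel)

theorem t3k18_fin : NC (eFin dW t3c18 t3n18 t3r18 t3h18 (tcl t3c18)) :=
  NC.of (K := 257) (D := ⟨1, 1, 1, 14⟩) (Box.of 4 (by decide +kernel))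
    (by decide +kernel)

theorem t3k18_xdl : NC (qc t3e18.dl - pe t3d18.l.dl t3d18.eU) :=
  NC.of (K := 73) (D := ⟨1, 4, 1, 1⟩) (Box.of 4 (by decide +kernel))
    (by decide +kernel)

theorem t3k18_xeY : NC (qc t3e18.eY - pe (e4l t3d18.l.z) t3d18.eU) :=
  NC.of (K := 288) (D := ⟨1, 13, 1, 1⟩) (Box.of 4 (by decide +kernel))
    (by decide +kernel)

theorem t3k18_xgr : NC (qc t3d18.ga * ((1 + qc (3 / 5) * vX) * (1 + (t3d18.eg + hlf * t3d18.eg ^ 2))) + qc t3d18.gb - pe2 t3GR vX t3d18.eU) :=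
  NC.of (K := 261) (D := ⟨4, 11, 1, 1⟩) (Box.of 1181728 (by decide +kernel))
    (by decide +kernel)

theorem t3k18_xhr : NC (qc t3d18.hb - pe2 t3HR vX t3d18.eU) :=
  NC.of (K := 262) (D := ⟨3, 12, 1, 1⟩) (Box.of 4 (by decide +kernel))
    (by decide +kernel)

theorem t3k18_xgs : NC (pe t3d18.gs t3d18.e1 - qc (8 / 5) * pe (e4l (ladd t3d18.ls.z t3d18.ls.dl)) t3d18.e1) :=
  NC.of (K := 248) (D := ⟨1, 1, 1, 13⟩) (Box.of 4 (by decide +kernel))
    (by decide +kernel)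

theorem t3k18_xd1 : NC (pe t3d18.d1 t3d18.e1 - t3d18.eA t3d18.eU t3d18.e1) :=
  NC.of (K := 284) (D := ⟨1, 12, 1, 12⟩) (Box.of 4 (by decide +kernel))
    (by decide +kernel)

theorem t3k18_xd2 : NC (pe t3d18.d2 t3d18.e1 - t3d18.eB t3d18.eU t3d18.e1) :=
  NC.of (K := 309) (D := ⟨1, 12, 1, 12⟩) (Box.of 291 (by decide +kernel))
    (by decide +kernel)

theorem t3k18_xt1 : NC (pe t3d18.t1 t3d18.e1 - t3d18.eAT t3d18.eU t3d18.e1) :=
  NC.of (K := 470) (D := ⟨1, 19, 1, 19⟩) (Box.of 4 (by decide +kernel))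
    (by decide +kernel)

theorem t3k18_xt2 : NC (pe t3d18.t2 t3d18.e1 - t3d18.eBT t3d18.eU t3d18.e1) :=
  NC.of (K := 503) (D := ⟨1, 19, 1, 19⟩) (Box.of 291 (by decide +kernel))
    (by decide +kernel)

theorem t3k18_xdy : NC (pe t3d18.dy t3d18.e1 - t3d18.eSD t3d18.eU t3d18.e1) :=
  NC.of (K := 443) (D := ⟨1, 18, 1, 12⟩) (Box.of 4 (by decide +kernel))
    (by decide +kernel)

theorem t3k18_xty : NC (pe t3d18.ty t3d18.e1 - t3d18.eST t3d18.eU t3d18.e1) :=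
  NC.of (K := 664) (D := ⟨1, 26, 1, 26⟩) (Box.of 4 (by decide +kernel))
    (by decide +kernel)

theorem t3k18_xd1s : NC (pe t3r18.d1 (t1v t3c18) - pe t3d18.d1 (Xcd.ew zW t3c18)) :=
  NC.of (K := 815) (D := ⟨1, 1, 1, 55⟩) (Box.of 4 (by decide +kernel))
    (by decide +kernel)

theorem t3k18_xd2s : NC (pe t3r18.d2 (t1v t3c18) - pe t3d18.d2 (Xcd.ew zW t3c18)) :=
  NC.of (K := 821) (D := ⟨1, 1, 1, 55⟩) (Box.of 4 (by decide +kernel))
    (by decide +kernel)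

theorem t3k18_xt1s : NC (pe t3r18.t1 (t1v t3c18) - pe t3d18.t1 (Xcd.ew zW t3c18)) :=
  NC.of (K := 824) (D := ⟨1, 1, 1, 55⟩) (Box.of 4 (by decide +kernel))
    (by decide +kernel)

theorem t3k18_xt2s : NC (pe t3r18.t2 (t1v t3c18) - pe t3d18.t2 (Xcd.ew zW t3c18)) :=
  NC.of (K := 822) (D := ⟨1, 1, 1, 55⟩) (Box.of 4 (by decide +kernel))
    (by decide +kernel)

theorem t3k18_xdys : NC (pe t3r18.dy (t1v t3c18) - pe t3d18.dy (Xcd.ew zW t3c18)) :=
  NC.of (K := 817) (D := ⟨1, 1, 1, 55⟩) (Box.of 4 (by decide +kernel))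
    (by decide +kernel)

theorem t3k18_xtys : NC (pe t3r18.ty (t1v t3c18) - pe t3d18.ty (Xcd.ew zW t3c18)) :=
  NC.of (K := 819) (D := ⟨1, 1, 1, 55⟩) (Box.of 4 (by decide +kernel))
    (by decide +kernel)

theorem t3k18_xhz : NC (pe t3r18.hz (t1v t3c18) - pe t3d18.c.dR (Xcd.ew zW t3c18)) :=
  NC.of (K := 694) (D := ⟨1, 1, 1, 46⟩) (Box.of 4 (by decide +kernel))
    (by decide +kernel)

theorem t3f18_ok : t3f18.ok V2L.y8 V2L.k8 V2L.nb V2L.la (10 ^ 30) 32 = true := by decide +kernel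

theorem t3k18_sg : t3c18.Sg := by
  constructor <;> decide +kernel

theorem t3k18_rgs : t3c18.Rgs where
  M := ⟨t3k18_M_r1, t3k18_M_r2, t3k18_M_r3, t3k18_M_r4⟩
  r0 := ⟨t3k18_r0_r1, t3k18_r0_r2, t3k18_r0_r3, t3k18_r0_r4⟩
  r1 := ⟨t3k18_r1_r1, t3k18_r1_r2, t3k18_r1_r3, t3k18_r1_r4⟩
  r2 := ⟨t3k18_r2_r1, t3k18_r2_r2, t3k18_r2_r3, t3k18_r2_r4⟩
  rc := ⟨t3k18_rc_r1, t3k18_rc_r2, t3k18_rc_r3, t3k18_rc_r4⟩
  rI := ⟨t3k18_rI_r1, t3k18_rI_r2, t3k18_rI_r3, t3k18_rI_r4⟩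
  rJ := ⟨t3k18_rJ_r1, t3k18_rJ_r2, t3k18_rJ_r3, t3k18_rJ_r4⟩

theorem t3k18_xn : t3e18.Ok t3c18 where
  lm := by decide +kernel
  dl0 := by decide +kernel
  dl1 := by decide +kernel
  e2 := by decide +kernel
  eY := by decide +kernel
  gE := ⟨t3k18_gE_r1, t3k18_gE_r2, t3k18_gE_r3, t3k18_gE_r4⟩

theorem t3k18_vl : t3c18.Vl dW qW where
  bt := by decide +kernel
  B0 := t3k18_B0
  E0 := t3k18_E0
  D0 := t3k18_D0
  Bh := t3k18_Bh
  Eh := t3k18_Eh
  Dh := t3k18_Dh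
  B1 := t3k18_B1
  E1 := t3k18_E1
  D1 := t3k18_D1

theorem t3k18_rat : t3n18.Rat t3c18 := by
  constructor <;> decide +kernel

theorem t3k18_ck : t3n18.Ck t3c18 := ⟨t3k18_l, t3k18_n⟩

theorem t3k18_fck : t3n18.Fck dW qW fW t3c18 := ⟨t3k18_rb, t3k18_kap⟩

theorem t3k18_w : Wcl zW kW yW t3al t3c18 t3n18 t3m18 where
  b2 := t3k18_wb2
  mb := t3k18_wmb
  th := t3k18_wth
  yb := t3k18_wyb
  mu := t3k18_wmu
  cj := t3k18_wcj
  mt1 := by decide +kernel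
  mt2 := by decide +kernel

theorem t3k18_ok : CelOk dW qW fW t3c18 t3n18 where
  s := t3k18_sg
  r := t3k18_rgs
  v := t3k18_vl
  rt := t3k18_rat
  k := t3k18_ck
  fc := t3k18_fck
  q01 := by decide +kernel
  q12 := by decide +kernel
  h2 := by decide +kernel

theorem t3k18_xr : t3r18.Ok fW t3c18 t3e18 where
  sD := by decide +kernel
  sT := by decide +kernel
  nd1 := t3k18_nd1
  nd2 := t3k18_nd2
  ndy := t3k18_ndy
  nt1 := t3k18_nt1
  nt2 := t3k18_nt2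
  nty := t3k18_nty
  nhz := t3k18_nhz
  xi := t3k18_xi
  om := t3k18_om

theorem t3k18_X : t3d18.Ck t3GR t3HR zW t3c18 t3e18 t3r18 where
  u0 := by decide +kernel
  u01 := by decide +kernel
  ul := by decide +kernel
  us := by decide +kernel
  uc := by decide +kernel
  ga0 := by decide +kernel
  kp0 := by decide +kernel
  lm := by decide +kernel
  dl := t3k18_xdl
  eY := t3k18_xeY
  gr := t3k18_xgr
  hr := t3k18_xhr
  gs := t3k18_xgs
  d1 := t3k18_xd1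
  d2 := t3k18_xd2
  t1 := t3k18_xt1
  t2 := t3k18_xt2
  dy := t3k18_xdy
  ty := t3k18_xty
  d1s := t3k18_xd1s
  d2s := t3k18_xd2s
  t1s := t3k18_xt1s
  t2s := t3k18_xt2s
  dys := t3k18_xdys
  tys := t3k18_xtys
  hz := t3k18_xhz

end Pool.Agent.RX.RCN.K
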