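import Pool.Agent.RX.RCN.T3D
import Pool.Agent.RX.RCN.T3Wq
import Pool.Agent.RX.RCN.T3X8
import Pool.Agent.RX.RCN.VLd

/-! Certificates (generated). -/

set_option autoImplicit false

namespace Pool.Agent.RX.RCN.K

open Set Pool.Agent.RX.RCM9 Pool.Agent.RX.RCM9.Bern Pool.Agent.RX.RCM9.Pk Xce

def t3c19 : Cel where
  t0 := 387 / 1000
  t1 := 79 / 200
  C := 4097 / 4096
  th := 1625 / 4096
  B0 := 2193 / 2048
  Bh := 2347 / 2048
  B1 := 2277 / 2048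
  D0 := 1277 / 4096
  Dh := 1017 / 4096
  D1 := 969 / 4096
  E0 := 10003 / 2097152
  Eh := 4127 / 1048576
  E1 := 7865 / 2097152
  Q0 := 1099 / 1024
  Q1 := 1099 / 1024
  Q2 := 275 / 256
  Ac := 1099 / 1024
  gI := 1099 / 1024
  J := 27889 / 4194304

def t3n19 : Chn where
  lb := 513 / 512
  nb := 79 / 256
  Mb := 515 / 512
  b2 := 65 / 64
  Yb := 31 / 4096
  E2 := 4159 / 4096
  e1 := 1263 / 1024
  Z1 := 141 / 128
  Z2 := 627 / 1024
  KB := 33 / 32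
  cb := 535 / 512
  rb := 11 / 32
  om := 263 / 256
  fb := 129 / 128
  kap := 1039 / 1024
  ab := 1029 / 1024

def t3e19 : Xge where
  lm := 3 / 5
  dl := 1591 / 4096
  e2 := 177 / 2048
  eY := 2065 / 2048
  gE := 71 / 64

def t3r19 : Xr where
  d1 := [825357 / 50000000, 9937 / 5000000, 207899 / 12500000, 1274249 / 50000000, 167137 /
    6250000, -1960213 / 50000000, 300401 / 4000000]
  d2 := [7203 / 100000000, 1167813 / 100000000, 8220467 / 100000000, -2685107 / 25000000, 55826681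
    / 50000000, -155466777 / 50000000, 299806949 / 100000000]
  dy := [2365829 / 20000000, 670827 / 20000000, 2331341 / 12500000, 13681463 / 25000000, -49971373
    / 50000000, 86376177 / 100000000, -24858179 / 100000000]
  t1 := [10746021 / 100000000, -41672519 / 100000000, 52557251 / 100000000, -148228033 /
    100000000, 936516421 / 100000000, -1131080917 / 50000000, 257485779 / 12500000]
  t2 := [2294793 / 100000000, -4688983 / 50000000, 17978263 / 100000000, -26998777 / 100000000,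
    269309119 / 100000000, -694132683 / 100000000, 617067421 / 100000000]
  ty := [62372181 / 100000000, -144140079 / 50000000, 442060739 / 100000000, 408366683 /
    100000000, -315602153 / 20000000, 68181021 / 4000000, -18493587 / 2500000]
  hz := [11569527 / 100000000, -9005273 / 100000000, -66768699 / 10000000, 3198325907 / 100000000,
    -1223210677 / 25000000, 1912863477 / 100000000, 4255917 / 50000000]
  om := [1003967 / 1000000, 51100017 / 50000000, -1381302009 / 100000000, 1072759723 / 20000000,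
    -5654100083 / 50000000, 713749001 / 4000000, -20572340491 / 100000000, 12207853261 /
    100000000, -239601747 / 12500000]
  sD := 551 / 256
  sT := 245 / 128
  xi := [124553 / 2500000, 11720913 / 25000000, -197323931 / 100000000, -476199733 / 100000000,
    215014979 / 5000000, -6720228097 / 100000000, -1013595433 / 25000000, 10535714501 /
    50000000, -20909173909 / 100000000, 6276121799 / 100000000]

def t3f19 : Dl where
  Ca := 194103 / 500000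
  Cv := 396237 / 1000000
  k1 := 236691 / 250000
  ks := 464691 / 500000
  dd := 0
  kp := 1 / 2500000
  e := [999999699661 / 1000000000000, -658250027823 / 500000000000, 169921003197 / 125000000000,
    -310692268233 / 250000000000, 1084982411009 / 1000000000000, -177983557541 / 200000000000,
    329719533121 / 500000000000, -192864042651 / 500000000000, 244417843 / 1953125000]
  j1 := [-69003 / 25000000, -1863208991 / 200000000, 42272284299 / 500000000, -36495781021 /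
    100000000, 183421333963 / 200000000, -686629041041 / 500000000, 1164952251241 / 1000000000,
    -112121883751 / 250000000]
  nu := [73232351 / 1000000000, -26303093 / 125000000, 393577119 / 1000000000, 10517481 /
    200000000, -92574129 / 200000000, 1986435329 / 1000000000, -2081720729 / 1000000000]
  k2 := [464691713 / 500000000, 195575237 / 1000000000, -5392267 / 15625000, -6391699 / 50000000,
    130418137 / 250000000, -242503341 / 125000000, 2059245557 / 1000000000]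
  dR := [5773207 / 50000000, -4487279 / 50000000, -663693553 / 100000000, 792504449 / 25000000,
    -4838021563 / 100000000, 1894333249 / 100000000]

def t3d19 : Xce where
  u0 := 194353 / 500000
  u1 := 396237 / 1000000
  l := V2L.y8
  y := t3z8
  j := t3j8
  i := t3i8
  ls := t3y8
  k := V2L.k8
  c := t3f19
  ga := 8237 / 500000
  gb := -5671 / 1000000
  hb := 3669 / 50000
  gs := [160002891 / 100000000, 29999993 / 12500000, 180002211 / 100000000, 9945929 / 12500000,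
    26813427 / 100000000, -2496889 / 20000000, -5719601 / 100000000]
  d1 := [1031 / 62500, 49777 / 25000000, 1625027 / 100000000, 563667 / 20000000, 1257089 /
    100000000, -8579 / 1000000, 4919777 / 100000000]
  d2 := [6187 / 100000000, 29179 / 2500000, 8086661 / 100000000, -4885037 / 50000000, 21237923 /
    20000000, -297349233 / 100000000, 14357747 / 5000000]
  dy := [1477521 / 12500000, 3352689 / 100000000, 9142793 / 50000000, 5683329 / 10000000,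
    -110934749 / 100000000, 27814549 / 25000000, -9105833 / 20000000]
  t1 := [10740637 / 100000000, -1038571 / 2500000, 52183657 / 100000000, -73165501 / 50000000,
    115289953 / 12500000, -22207493 / 1000000, 1007787971 / 50000000]
  t2 := [458723 / 20000000, -9345641 / 100000000, 1110679 / 6250000, -12885541 / 50000000,
    65375971 / 25000000, -168467541 / 25000000, 298956557 / 50000000]
  ty := [62340837 / 100000000, -3592091 / 1250000, 27413889 / 6250000, 205874941 / 50000000,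
    -1591838609 / 100000000, 218995817 / 12500000, -788799057 / 100000000]

def t3m19 : ℚ := 397 / 1024

def t3h19 : ℚ := 62 / 125

theorem t3k19_M_r1 : NC (fM t3c19 (1 - eh) eh ek (elo t3c19.B0 t3c19.Bh eh) (elo t3c19.D0 t3c19.Dh ek) (elo t3c19.E0 t3c19.Eh ek)) :=
  NC.of (K := 32) (D := ⟨4, 3, 1, 1⟩) (Box.of 4 (by decide +kernel))
    (by decide +kernel)

theorem t3k19_M_r2 : NC (fM t3c19 eh (1 - eh) ek (ehi t3c19.Bh t3c19.B1 (1 - eh)) (elo t3c19.D0 t3c19.Dh ek) (elo t3c19.E0 t3c19.Eh ek)) :=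
  NC.of (K := 32) (D := ⟨4, 3, 1, 1⟩) (Box.of 4 (by decide +kernel))
    (by decide +kernel)

theorem t3k19_M_r3 : NC (fM t3c19 (1 - eh) ek eh (elo t3c19.B0 t3c19.Bh ek) (elo t3c19.D0 t3c19.Dh eh) (elo t3c19.E0 t3c19.Eh eh)) :=
  NC.of (K := 31) (D := ⟨4, 2, 1, 1⟩) (Box.of 4 (by decide +kernel))
    (by decide +kernel)

theorem t3k19_M_r4 : NC (fM t3c19 eh ek (1 - eh) (elo t3c19.B0 t3c19.Bh ek) (ehi t3c19.Dh t3c19.D1 (1 - eh)) (ehi t3c19.Eh t3c19.E1 (1 - eh))) :=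
  NC.of (K := 31) (D := ⟨4, 2, 1, 1⟩) (Box.of 4 (by decide +kernel))
    (by decide +kernel)

theorem t3k19_r0_r1 : NC (f0 t3c19 (1 - eh) eh ek (elo t3c19.B0 t3c19.Bh eh) (elo t3c19.D0 t3c19.Dh ek) (elo t3c19.E0 t3c19.Eh ek)) :=
  NC.of (K := 159) (D := ⟨13, 9, 1, 1⟩) (Box.of 4 (by decide +kernel))
    (by decide +kernel)

theorem t3k19_r0_r2 : NC (f0 t3c19 eh (1 - eh) ek (ehi t3c19.Bh t3c19.B1 (1 - eh)) (elo t3c19.D0 t3c19.Dh ek) (elo t3c19.E0 t3c19.Eh ek)) :=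
  NC.of (K := 159) (D := ⟨13, 9, 1, 1⟩) (Box.of 4 (by decide +kernel))
    (by decide +kernel)

theorem t3k19_r0_r3 : NC (f0 t3c19 (1 - eh) ek eh (elo t3c19.B0 t3c19.Bh ek) (elo t3c19.D0 t3c19.Dh eh) (elo t3c19.E0 t3c19.Eh eh)) :=
  NC.of (K := 154) (D := ⟨13, 5, 1, 1⟩) (Box.of 4 (by decide +kernel))
    (by decide +kernel)

theorem t3k19_r0_r4 : NC (f0 t3c19 eh ek (1 - eh) (elo t3c19.B0 t3c19.Bh ek) (ehi t3c19.Dh t3c19.D1 (1 - eh)) (ehi t3c19.Eh t3c19.E1 (1 - eh))) :=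
  NC.of (K := 155) (D := ⟨13, 5, 1, 1⟩) (Box.of 4 (by decide +kernel))
    (by decide +kernel)

theorem t3k19_r1_r1 : NC (f1 t3c19 (1 - eh) eh ek (elo t3c19.B0 t3c19.Bh eh) (elo t3c19.D0 t3c19.Dh ek) (elo t3c19.E0 t3c19.Eh ek)) :=
  NC.of (K := 243) (D := ⟨16, 9, 1, 1⟩) (Box.of 4 (by decide +kernel))
    (by decide +kernel)

theorem t3k19_r1_r2 : NC (f1 t3c19 eh (1 - eh) ek (ehi t3c19.Bh t3c19.B1 (1 - eh)) (elo t3c19.D0 t3c19.Dh ek) (elo t3c19.E0 t3c19.Eh ek)) :=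
  NC.of (K := 244) (D := ⟨16, 9, 1, 1⟩) (Box.of 4 (by decide +kernel))
    (by decide +kernel)

theorem t3k19_r1_r3 : NC (f1 t3c19 (1 - eh) ek eh (elo t3c19.B0 t3c19.Bh ek) (elo t3c19.D0 t3c19.Dh eh) (elo t3c19.E0 t3c19.Eh eh)) :=
  NC.of (K := 246) (D := ⟨16, 12, 1, 1⟩) (Box.of 4 (by decide +kernel))
    (by decide +kernel)

theorem t3k19_r1_r4 : NC (f1 t3c19 eh ek (1 - eh) (elo t3c19.B0 t3c19.Bh ek) (ehi t3c19.Dh t3c19.D1 (1 - eh)) (ehi t3c19.Eh t3c19.E1 (1 - eh))) :=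
  NC.of (K := 247) (D := ⟨16, 12, 1, 1⟩) (Box.of 4 (by decide +kernel))
    (by decide +kernel)

theorem t3k19_r2_r1 : NC (f2 t3c19 (1 - eh) eh ek (elo t3c19.B0 t3c19.Bh eh) (elo t3c19.D0 t3c19.Dh ek) (elo t3c19.E0 t3c19.Eh ek)) :=
  NC.of (K := 246) (D := ⟨16, 11, 1, 1⟩) (Box.of 4 (by decide +kernel))
    (by decide +kernel)

theorem t3k19_r2_r2 : NC (f2 t3c19 eh (1 - eh) ek (ehi t3c19.Bh t3c19.B1 (1 - eh)) (elo t3c19.D0 t3c19.Dh ek) (elo t3c19.E0 t3c19.Eh ek)) :=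
  NC.of (K := 247) (D := ⟨16, 11, 1, 1⟩) (Box.of 4 (by decide +kernel))
    (by decide +kernel)

theorem t3k19_r2_r3 : NC (f2 t3c19 (1 - eh) ek eh (elo t3c19.B0 t3c19.Bh ek) (elo t3c19.D0 t3c19.Dh eh) (elo t3c19.E0 t3c19.Eh eh)) :=
  NC.of (K := 247) (D := ⟨16, 12, 1, 1⟩) (Box.of 4 (by decide +kernel))
    (by decide +kernel)

theorem t3k19_r2_r4 : NC (f2 t3c19 eh ek (1 - eh) (elo t3c19.B0 t3c19.Bh ek) (ehi t3c19.Dh t3c19.D1 (1 - eh)) (ehi t3c19.Eh t3c19.E1 (1 - eh))) :=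
  NC.of (K := 248) (D := ⟨16, 12, 1, 1⟩) (Box.of 4 (by decide +kernel))
    (by decide +kernel)

theorem t3k19_rc_r1 : NC (fc t3c19 (1 - eh) eh ek (elo t3c19.B0 t3c19.Bh eh) (elo t3c19.D0 t3c19.Dh ek) (elo t3c19.E0 t3c19.Eh ek)) :=
  NC.of (K := 159) (D := ⟨13, 9, 1, 1⟩) (Box.of 4 (by decide +kernel))
    (by decide +kernel)

theorem t3k19_rc_r2 : NC (fc t3c19 eh (1 - eh) ek (ehi t3c19.Bh t3c19.B1 (1 - eh)) (elo t3c19.D0 t3c19.Dh ek) (elo t3c19.E0 t3c19.Eh ek)) :=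
  NC.of (K := 159) (D := ⟨13, 9, 1, 1⟩) (Box.of 4 (by decide +kernel))
    (by decide +kernel)

theorem t3k19_rc_r3 : NC (fc t3c19 (1 - eh) ek eh (elo t3c19.B0 t3c19.Bh ek) (elo t3c19.D0 t3c19.Dh eh) (elo t3c19.E0 t3c19.Eh eh)) :=
  NC.of (K := 154) (D := ⟨13, 5, 1, 1⟩) (Box.of 4 (by decide +kernel))
    (by decide +kernel)

theorem t3k19_rc_r4 : NC (fc t3c19 eh ek (1 - eh) (elo t3c19.B0 t3c19.Bh ek) (ehi t3c19.Dh t3c19.D1 (1 - eh)) (ehi t3c19.Eh t3c19.E1 (1 - eh))) :=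
  NC.of (K := 155) (D := ⟨13, 5, 1, 1⟩) (Box.of 4 (by decide +kernel))
    (by decide +kernel)

theorem t3k19_rI_r1 : NC (fI t3c19 (1 - eh) eh ek (elo t3c19.B0 t3c19.Bh eh) (elo t3c19.D0 t3c19.Dh ek) (elo t3c19.E0 t3c19.Eh ek)) :=
  NC.of (K := 138) (D := ⟨13, 9, 1, 1⟩) (Box.of 4 (by decide +kernel))
    (by decide +kernel)

theorem t3k19_rI_r2 : NC (fI t3c19 eh (1 - eh) ek (ehi t3c19.Bh t3c19.B1 (1 - eh)) (elo t3c19.D0 t3c19.Dh ek) (elo t3c19.E0 t3c19.Eh ek)) :=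
  NC.of (K := 138) (D := ⟨13, 9, 1, 1⟩) (Box.of 4 (by decide +kernel))
    (by decide +kernel)

theorem t3k19_rI_r3 : NC (fI t3c19 (1 - eh) ek eh (elo t3c19.B0 t3c19.Bh ek) (elo t3c19.D0 t3c19.Dh eh) (elo t3c19.E0 t3c19.Eh eh)) :=
  NC.of (K := 133) (D := ⟨13, 5, 1, 1⟩) (Box.of 4 (by decide +kernel))
    (by decide +kernel)

theorem t3k19_rI_r4 : NC (fI t3c19 eh ek (1 - eh) (elo t3c19.B0 t3c19.Bh ek) (ehi t3c19.Dh t3c19.D1 (1 - eh)) (ehi t3c19.Eh t3c19.E1 (1 - eh))) :=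
  NC.of (K := 134) (D := ⟨13, 5, 1, 1⟩) (Box.of 4 (by decide +kernel))
    (by decide +kernel)

theorem t3k19_rJ_r1 : NC (fJ t3c19 (1 - eh) eh ek (elo t3c19.B0 t3c19.Bh eh) (elo t3c19.D0 t3c19.Dh ek) (elo t3c19.E0 t3c19.Eh ek)) :=
  NC.of (K := 87) (D := ⟨7, 5, 1, 1⟩) (Box.of 4 (by decide +kernel))
    (by decide +kernel)

theorem t3k19_rJ_r2 : NC (fJ t3c19 eh (1 - eh) ek (ehi t3c19.Bh t3c19.B1 (1 - eh)) (elo t3c19.D0 t3c19.Dh ek) (elo t3c19.E0 t3c19.Eh ek)) :=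
  NC.of (K := 87) (D := ⟨7, 5, 1, 1⟩) (Box.of 4 (by decide +kernel))
    (by decide +kernel)

theorem t3k19_rJ_r3 : NC (fJ t3c19 (1 - eh) ek eh (elo t3c19.B0 t3c19.Bh ek) (elo t3c19.D0 t3c19.Dh eh) (elo t3c19.E0 t3c19.Eh eh)) :=
  NC.of (K := 84) (D := ⟨7, 3, 1, 1⟩) (Box.of 4 (by decide +kernel))
    (by decide +kernel)

theorem t3k19_rJ_r4 : NC (fJ t3c19 eh ek (1 - eh) (elo t3c19.B0 t3c19.Bh ek) (ehi t3c19.Dh t3c19.D1 (1 - eh)) (ehi t3c19.Eh t3c19.E1 (1 - eh))) :=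
  NC.of (K := 84) (D := ⟨7, 3, 1, 1⟩) (Box.of 4 (by decide +kernel))
    (by decide +kernel)

theorem t3k19_gE_r1 : NC (fE t3c19 t3e19 (1 - eh) eh ek (elo t3c19.B0 t3c19.Bh eh) (elo t3c19.D0 t3c19.Dh ek) (elo t3c19.E0 t3c19.Eh ek)) :=
  NC.of (K := 153) (D := ⟨13, 9, 1, 1⟩) (Box.of 288 (by decide +kernel))
    (by decide +kernel)

theorem t3k19_gE_r2 : NC (fE t3c19 t3e19 eh (1 - eh) ek (ehi t3c19.Bh t3c19.B1 (1 - eh)) (elo t3c19.D0 t3c19.Dh ek) (elo t3c19.E0 t3c19.Eh ek)) :=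
  NC.of (K := 132) (D := ⟨13, 9, 1, 1⟩) (Box.of 4 (by decide +kernel))
    (by decide +kernel)

theorem t3k19_gE_r3 : NC (fE t3c19 t3e19 (1 - eh) ek eh (elo t3c19.B0 t3c19.Bh ek) (elo t3c19.D0 t3c19.Dh eh) (elo t3c19.E0 t3c19.Eh eh)) :=
  NC.of (K := 174) (D := ⟨13, 7, 1, 1⟩) (Box.of 18688 (by decide +kernel))
    (by decide +kernel)

theorem t3k19_gE_r4 : NC (fE t3c19 t3e19 eh ek (1 - eh) (elo t3c19.B0 t3c19.Bh ek) (ehi t3c19.Dh t3c19.D1 (1 - eh)) (ehi t3c19.Eh t3c19.E1 (1 - eh))) :=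
  NC.of (K := 130) (D := ⟨13, 7, 1, 1⟩) (Box.of 4 (by decide +kernel))
    (by decide +kernel)

theorem t3k19_B0 : NC (kB dW 1 0 t3c19.B0 (tcl t3c19)) :=
  NC.of (K := 120) (D := ⟨1, 1, 1, 9⟩) (Box.of 4 (by decide +kernel))
    (by decide +kernel)

theorem t3k19_E0 : NC (kE dW qW qW.p0 qW.q0 t3c19.E0 (tcl t3c19)) :=
  NC.of (K := 266) (D := ⟨1, 1, 1, 19⟩) (Box.of 4 (by decide +kernel))
    (by decide +kernel)

theorem t3k19_D0 : NC (kD dW qW 1 0 qW.p0 qW.q0 t3c19.D0 (tcl t3c19)) :=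
  NC.of (K := 386) (D := ⟨1, 1, 1, 20⟩) (Box.of 4 (by decide +kernel))
    (by decide +kernel)

theorem t3k19_Bh : NC (kB dW (1 / 2) (1 / 2) t3c19.Bh (tcl t3c19)) :=
  NC.of (K := 123) (D := ⟨1, 1, 1, 9⟩) (Box.of 4 (by decide +kernel))
    (by decide +kernel)

theorem t3k19_Eh : NC (kE dW qW qW.ph qW.qh t3c19.Eh (tcl t3c19)) :=
  NC.of (K := 270) (D := ⟨1, 1, 1, 19⟩) (Box.of 4 (by decide +kernel))
    (by decide +kernel)

theorem t3k19_Dh : NC (kD dW qW (1 / 2) (1 / 2) qW.ph qW.qh t3c19.Dh (tcl t3c19)) :=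
  NC.of (K := 390) (D := ⟨1, 1, 1, 20⟩) (Box.of 4 (by decide +kernel))
    (by decide +kernel)

theorem t3k19_B1 : NC (kB dW 0 (1 / 2) t3c19.B1 (tcl t3c19)) :=
  NC.of (K := 123) (D := ⟨1, 1, 1, 9⟩) (Box.of 4 (by decide +kernel))
    (by decide +kernel)

theorem t3k19_E1 : NC (kE dW qW qW.p1 qW.q1 t3c19.E1 (tcl t3c19)) :=
  NC.of (K := 270) (D := ⟨1, 1, 1, 19⟩) (Box.of 4 (by decide +kernel))
    (by decide +kernel)

theorem t3k19_D1 : NC (kD dW qW 0 (1 / 2) qW.p1 qW.q1 t3c19.D1 (tcl t3c19)) :=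
  NC.of (K := 390) (D := ⟨1, 1, 1, 20⟩) (Box.of 4 (by decide +kernel))
    (by decide +kernel)

theorem t3k19_l : NC (qc t3n19.lb - (1 - vX) * pe (exl t3c19.th) vX ^ 2) :=
  NC.of (K := 125) (D := ⟨10, 1, 1, 1⟩) (Box.of 4 (by decide +kernel))
    (by decide +kernel)

theorem t3k19_n : NC (qc t3n19.nb - vX * (1 - vX) * pe (exl t3c19.th) vX) :=
  NC.of (K := 116) (D := ⟨7, 1, 1, 1⟩) (Box.of 76677152 (by decide +kernel))
    (by decide +kernel)

theorem t3k19_rb : NC (krb t3n19 fW (t1v t3c19)) :=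
  NC.of (K := 195) (D := ⟨1, 1, 1, 16⟩) (Box.of 4 (by decide +kernel))
    (by decide +kernel)

theorem t3k19_kap : NC (kkap dW qW t3n19 (tcl t3c19)) :=
  NC.of (K := 120) (D := ⟨1, 1, 1, 9⟩) (Box.of 4 (by decide +kernel))
    (by decide +kernel)

theorem t3k19_wb2 : NC (qc t3n19.b2 - pe2 kW.QB (vZ * t1v t3c19) (t1v t3c19)) :=
  NC.of (K := 154) (D := ⟨1, 6, 1, 11⟩) (Box.of 291 (by decide +kernel))
    (by decide +kernel)

theorem t3k19_wmb : NC (qc t3n19.Mb - pe zW.mb (t1v t3c19)) :=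
  NC.of (K := 122) (D := ⟨1, 1, 1, 9⟩) (Box.of 291 (by decide +kernel))
    (by decide +kernel)

theorem t3k19_wth : NC (qc (t3c19.th / t3c19.t1) - pe2 zW.Qt (vZ * t1v t3c19) (t1v t3c19)) :=
  NC.of (K := 159) (D := ⟨1, 6, 1, 11⟩) (Box.of 291 (by decide +kernel))
    (by decide +kernel)

theorem t3k19_wyb : NC (qc t3n19.Yb - (t1v t3c19 - vZ * t1v t3c19) ^ 3 * pe2 yW.QY (vZ * t1v t3c19) (t1v t3c19)) :=
  NC.of (K := 139) (D := ⟨1, 8, 1, 12⟩) (Box.of 4 (by decide +kernel))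
    (by decide +kernel)

theorem t3k19_wmu : NC (qc t3m19 - pe t3al (tcl t3c19) * (1 + hlf * tcl t3c19)) :=
  NC.of (K := 116) (D := ⟨1, 1, 1, 9⟩) (Box.of 4 (by decide +kernel))
    (by decide +kernel)

theorem t3k19_wcj : NC (qc t3c19.C * ((6 - 3 * vX) * (1 - qc t3m19 * vX)) - (6 - 6 * vX + vX ^ 2)) :=
  NC.of (K := 32) (D := ⟨3, 1, 1, 1⟩) (Box.of 4 (by decide +kernel))
    (by decide +kernel)

theorem t3k19_nd1 : NC (pe t3r19.d1 (t1v t3c19)) :=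
  NC.of (K := 73) (D := ⟨1, 1, 1, 7⟩) (Box.of 4 (by decide +kernel))
    (by decide +kernel)

theorem t3k19_nd2 : NC (pe t3r19.d2 (t1v t3c19)) :=
  NC.of (K := 79) (D := ⟨1, 1, 1, 7⟩) (Box.of 4 (by decide +kernel))
    (by decide +kernel)

theorem t3k19_ndy : NC (pe t3r19.dy (t1v t3c19)) :=
  NC.of (K := 81) (D := ⟨1, 1, 1, 7⟩) (Box.of 4 (by decide +kernel))
    (by decide +kernel)

theorem t3k19_nt1 : NC (pe t3r19.t1 (t1v t3c19)) :=
  NC.of (K := 80) (D := ⟨1, 1, 1, 7⟩) (Box.of 4 (by decide +kernel))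
    (by decide +kernel)

theorem t3k19_nt2 : NC (pe t3r19.t2 (t1v t3c19)) :=
  NC.of (K := 81) (D := ⟨1, 1, 1, 7⟩) (Box.of 4 (by decide +kernel))
    (by decide +kernel)

theorem t3k19_nty : NC (pe t3r19.ty (t1v t3c19)) :=
  NC.of (K := 79) (D := ⟨1, 1, 1, 7⟩) (Box.of 4 (by decide +kernel))
    (by decide +kernel)

theorem t3k19_nhz : NC (pe t3r19.hz (t1v t3c19)) :=
  NC.of (K := 109) (D := ⟨1, 1, 1, 7⟩) (Box.of 18659 (by decide +kernel))
    (by decide +kernel)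

theorem t3k19_xi : NC (eXi fW t3c19 t3e19 t3r19 (t1v t3c19)) :=
  NC.of (K := 315) (D := ⟨1, 1, 1, 22⟩) (Box.of 4 (by decide +kernel))
    (by decide +kernel)

theorem t3k19_om : NC (eOm fW t3r19 (t1v t3c19)) :=
  NC.of (K := 191) (D := ⟨1, 1, 1, 16⟩) (Box.of 4 (by decide +kernel))
    (by decide +kernel)

theorem t3k19_fin : NC (eFin dW t3c19 t3n19 t3r19 t3h19 (tcl t3c19)) :=
  NC.of (K := 259) (D := ⟨1, 1, 1, 14⟩) (Box.of 4 (by decide +kernel))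
    (by decide +kernel)

theorem t3k19_xdl : NC (qc t3e19.dl - pe t3d19.l.dl t3d19.eU) :=
  NC.of (K := 73) (D := ⟨1, 4, 1, 1⟩) (Box.of 4 (by decide +kernel))
    (by decide +kernel)

theorem t3k19_xeY : NC (qc t3e19.eY - pe (e4l t3d19.l.z) t3d19.eU) :=
  NC.of (K := 288) (D := ⟨1, 13, 1, 1⟩) (Box.of 4 (by decide +kernel))
    (by decide +kernel)

theorem t3k19_xgr : NC (qc t3d19.ga * ((1 + qc (3 / 5) * vX) * (1 + (t3d19.eg + hlf * t3d19.eg ^ 2))) + qc t3d19.gb - pe2 t3GR vX t3d19.eU) :=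
  NC.of (K := 261) (D := ⟨4, 11, 1, 1⟩) (Box.of 1181728 (by decide +kernel))
    (by decide +kernel)

theorem t3k19_xhr : NC (qc t3d19.hb - pe2 t3HR vX t3d19.eU) :=
  NC.of (K := 262) (D := ⟨3, 12, 1, 1⟩) (Box.of 4 (by decide +kernel))
    (by decide +kernel)

theorem t3k19_xgs : NC (pe t3d19.gs t3d19.e1 - qc (8 / 5) * pe (e4l (ladd t3d19.ls.z t3d19.ls.dl)) t3d19.e1) :=
  NC.of (K := 296) (D := ⟨1, 1, 1, 13⟩) (Box.of 4 (by decide +kernel))
    (by decide +kernel)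

theorem t3k19_xd1 : NC (pe t3d19.d1 t3d19.e1 - t3d19.eA t3d19.eU t3d19.e1) :=
  NC.of (K := 284) (D := ⟨1, 12, 1, 12⟩) (Box.of 4 (by decide +kernel))
    (by decide +kernel)

theorem t3k19_xd2 : NC (pe t3d19.d2 t3d19.e1 - t3d19.eB t3d19.eU t3d19.e1) :=
  NC.of (K := 309) (D := ⟨1, 12, 1, 12⟩) (Box.of 291 (by decide +kernel))
    (by decide +kernel)

theorem t3k19_xt1 : NC (pe t3d19.t1 t3d19.e1 - t3d19.eAT t3d19.eU t3d19.e1) :=
  NC.of (K := 470) (D := ⟨1, 19, 1, 19⟩) (Box.of 4 (by decide +kernel))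
    (by decide +kernel)

theorem t3k19_xt2 : NC (pe t3d19.t2 t3d19.e1 - t3d19.eBT t3d19.eU t3d19.e1) :=
  NC.of (K := 503) (D := ⟨1, 19, 1, 19⟩) (Box.of 291 (by decide +kernel))
    (by decide +kernel)

theorem t3k19_xdy : NC (pe t3d19.dy t3d19.e1 - t3d19.eSD t3d19.eU t3d19.e1) :=
  NC.of (K := 443) (D := ⟨1, 18, 1, 12⟩) (Box.of 4 (by decide +kernel))
    (by decide +kernel)

theorem t3k19_xty : NC (pe t3d19.ty t3d19.e1 - t3d19.eST t3d19.eU t3d19.e1) :=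
  NC.of (K := 665) (D := ⟨1, 26, 1, 26⟩) (Box.of 4 (by decide +kernel))
    (by decide +kernel)

theorem t3k19_xd1s : NC (pe t3r19.d1 (t1v t3c19) - pe t3d19.d1 (Xcd.ew zW t3c19)) :=
  NC.of (K := 691) (D := ⟨1, 1, 1, 55⟩) (Box.of 4 (by decide +kernel))
    (by decide +kernel)

theorem t3k19_xd2s : NC (pe t3r19.d2 (t1v t3c19) - pe t3d19.d2 (Xcd.ew zW t3c19)) :=
  NC.of (K := 693) (D := ⟨1, 1, 1, 55⟩) (Box.of 4 (by decide +kernel))
    (by decide +kernel)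

theorem t3k19_xt1s : NC (pe t3r19.t1 (t1v t3c19) - pe t3d19.t1 (Xcd.ew zW t3c19)) :=
  NC.of (K := 699) (D := ⟨1, 1, 1, 55⟩) (Box.of 4 (by decide +kernel))
    (by decide +kernel)

theorem t3k19_xt2s : NC (pe t3r19.t2 (t1v t3c19) - pe t3d19.t2 (Xcd.ew zW t3c19)) :=
  NC.of (K := 697) (D := ⟨1, 1, 1, 55⟩) (Box.of 4 (by decide +kernel))
    (by decide +kernel)

theorem t3k19_xdys : NC (pe t3r19.dy (t1v t3c19) - pe t3d19.dy (Xcd.ew zW t3c19)) :=
  NC.of (K := 693) (D := ⟨1, 1, 1, 55⟩) (Box.of 4 (by decide +kernel))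
    (by decide +kernel)

theorem t3k19_xtys : NC (pe t3r19.ty (t1v t3c19) - pe t3d19.ty (Xcd.ew zW t3c19)) :=
  NC.of (K := 699) (D := ⟨1, 1, 1, 55⟩) (Box.of 4 (by decide +kernel))
    (by decide +kernel)

theorem t3k19_xhz : NC (pe t3r19.hz (t1v t3c19) - pe t3d19.c.dR (Xcd.ew zW t3c19)) :=
  NC.of (K := 590) (D := ⟨1, 1, 1, 46⟩) (Box.of 4 (by decide +kernel))
    (by decide +kernel)

theorem t3f19_ok : t3f19.ok V2L.y8 V2L.k8 V2L.nb V2L.la (10 ^ 30) 32 = true := by decide +kernel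

theorem t3k19_sg : t3c19.Sg := by
  constructor <;> decide +kernel

theorem t3k19_rgs : t3c19.Rgs where
  M := ⟨t3k19_M_r1, t3k19_M_r2, t3k19_M_r3, t3k19_M_r4⟩
  r0 := ⟨t3k19_r0_r1, t3k19_r0_r2, t3k19_r0_r3, t3k19_r0_r4⟩
  r1 := ⟨t3k19_r1_r1, t3k19_r1_r2, t3k19_r1_r3, t3k19_r1_r4⟩
  r2 := ⟨t3k19_r2_r1, t3k19_r2_r2, t3k19_r2_r3, t3k19_r2_r4⟩
  rc := ⟨t3k19_rc_r1, t3k19_rc_r2, t3k19_rc_r3, t3k19_rc_r4⟩
  rI := ⟨t3k19_rI_r1, t3k19_rI_r2, t3k19_rI_r3, t3k19_rI_r4⟩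
  rJ := ⟨t3k19_rJ_r1, t3k19_rJ_r2, t3k19_rJ_r3, t3k19_rJ_r4⟩

theorem t3k19_xn : t3e19.Ok t3c19 where
  lm := by decide +kernel
  dl0 := by decide +kernel
  dl1 := by decide +kernel
  e2 := by decide +kernel
  eY := by decide +kernel
  gE := ⟨t3k19_gE_r1, t3k19_gE_r2, t3k19_gE_r3, t3k19_gE_r4⟩

theorem t3k19_vl : t3c19.Vl dW qW where
  bt := by decide +kernel
  B0 := t3k19_B0
  E0 := t3k19_E0
  D0 := t3k19_D0
  Bh := t3k19_Bh
  Eh := t3k19_Eh
  Dh := t3k19_Dh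
  B1 := t3k19_B1
  E1 := t3k19_E1
  D1 := t3k19_D1

theorem t3k19_rat : t3n19.Rat t3c19 := by
  constructor <;> decide +kernel

theorem t3k19_ck : t3n19.Ck t3c19 := ⟨t3k19_l, t3k19_n⟩

theorem t3k19_fck : t3n19.Fck dW qW fW t3c19 := ⟨t3k19_rb, t3k19_kap⟩

theorem t3k19_w : Wcl zW kW yW t3al t3c19 t3n19 t3m19 where
  b2 := t3k19_wb2
  mb := t3k19_wmb
  th := t3k19_wth
  yb := t3k19_wyb
  mu := t3k19_wmu
  cj := t3k19_wcj
  mt1 := by decide +kernel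
  mt2 := by decide +kernel

theorem t3k19_ok : CelOk dW qW fW t3c19 t3n19 where
  s := t3k19_sg
  r := t3k19_rgs
  v := t3k19_vl
  rt := t3k19_rat
  k := t3k19_ck
  fc := t3k19_fck
  q01 := by decide +kernel
  q12 := by decide +kernel
  h2 := by decide +kernel

theorem t3k19_xr : t3r19.Ok fW t3c19 t3e19 where
  sD := by decide +kernel
  sT := by decide +kernel
  nd1 := t3k19_nd1
  nd2 := t3k19_nd2
  ndy := t3k19_ndy
  nt1 := t3k19_nt1
  nt2 := t3k19_nt2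
  nty := t3k19_nty
  nhz := t3k19_nhz
  xi := t3k19_xi
  om := t3k19_om

theorem t3k19_X : t3d19.Ck t3GR t3HR zW t3c19 t3e19 t3r19 where
  u0 := by decide +kernel
  u01 := by decide +kernel
  ul := by decide +kernel
  us := by decide +kernel
  uc := by decide +kernel
  ga0 := by decide +kernel
  kp0 := by decide +kernel
  lm := by decide +kernel
  dl := t3k19_xdl
  eY := t3k19_xeY
  gr := t3k19_xgr
  hr := t3k19_xhr
  gs := t3k19_xgs
  d1 := t3k19_xd1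
  d2 := t3k19_xd2
  t1 := t3k19_xt1
  t2 := t3k19_xt2
  dy := t3k19_xdy
  ty := t3k19_xty
  d1s := t3k19_xd1s
  d2s := t3k19_xd2s
  t1s := t3k19_xt1s
  t2s := t3k19_xt2s
  dys := t3k19_xdys
  tys := t3k19_xtys
  hz := t3k19_xhz

end Pool.Agent.RX.RCN.K
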