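import Pool.Agent.RX.RCN.T3D
import Pool.Agent.RX.RCN.T3Wq
import Pool.Agent.RX.RCN.T3X0
import Pool.Agent.RX.RCN.VLd

/-! Certificates (generated). -/

set_option autoImplicit false

namespace Pool.Agent.RX.RCN.K

open Set Pool.Agent.RX.RCM9 Pool.Agent.RX.RCM9.Bern Pool.Agent.RX.RCM9.Pk Xce

def t3c2 : Cel where
  t0 := 1 / 10
  t1 := 3 / 20
  C := 4097 / 4096
  th := 617 / 4096
  B0 := 283 / 256
  Bh := 1945 / 2048
  B1 := 1837 / 2048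
  D0 := 575 / 4096
  Dh := 85 / 1024
  D1 := 5 / 64
  E0 := 235 / 2097152
  Eh := 295 / 4194304
  E1 := 139 / 2097152
  Q0 := 1135 / 1024
  Q1 := 1135 / 1024
  Q2 := 1135 / 1024
  Ac := 1135 / 1024
  gI := 1135 / 1024
  J := 545 / 4194304

def t3n2 : Chn where
  lb := 513 / 512
  nb := 277 / 1024
  Mb := 1029 / 1024
  b2 := 65 / 64
  Yb := 1 / 2048
  E2 := 4101 / 4096
  e1 := 555 / 512
  Z1 := 1143 / 1024
  Z2 := 595 / 1024
  KB := 1037 / 1024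
  cb := 1031 / 1024
  rb := 37 / 256
  om := 263 / 256
  fb := 129 / 128
  kap := 2051 / 2048
  ab := 1029 / 1024

def t3e2 : Xge where
  lm := 3 / 5
  dl := 615 / 4096
  e2 := 195 / 16384
  eY := 4099 / 4096
  gE := 1135 / 1024

def t3r2 : Xr where
  d1 := [86983 / 100000000, 37921 / 50000000, 563621 / 100000000, 887243 / 50000000, 797437 /
    20000000, 5285443 / 100000000, 334033 / 20000000]
  d2 := [611 / 50000000, 112131 / 100000000, 13466209 / 100000000, -117750821 / 100000000, 5908589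
    / 2500000, 19847303 / 625000, -1735502659 / 12500000]
  dy := [271473 / 100000000, 297483 / 50000000, -18898031 / 100000000, 893160673 / 100000000,
    -481024089 / 4000000, 71106709119 / 100000000, -155614406287 / 100000000]
  t1 := [28899 / 2000000, -2515877 / 20000000, -324241507 / 100000000, 10588157453 / 100000000,
    -8268501399 / 6250000, 375985182553 / 50000000, -48895219383 / 3125000]
  t2 := [80859 / 100000000, -384181 / 25000000, 2372079 / 4000000, -813833209 / 50000000,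
    5593735081 / 25000000, -2721048049 / 2000000, 302069326733 / 100000000]
  ty := [3921463 / 100000000, -4318847 / 10000000, -563263999 / 100000000, 22466801503 /
    100000000, -287781422347 / 100000000, 1654842032351 / 100000000, -435712362043 / 12500000]
  hz := [1385551 / 100000000, 4920639 / 20000000, -2578919507 / 100000000, 46789598261 /
    100000000, -326711300717 / 100000000, 798256647351 / 100000000, -459832411 / 25000000]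
  om := [1003967 / 1000000, 102043233 / 100000000, -685217349 / 50000000, 126857411 / 2500000,
    -3730238543 / 50000000, -1322890697 / 12500000, 49752587763 / 50000000, -131358402067 /
    50000000, 5328149827 / 2000000]
  sD := 89 / 64
  sT := 347 / 256
  xi := [173779 / 100000000, 2329883 / 50000000, 1339249 / 50000000, -3118477143 / 100000000,
    32267617957 / 50000000, -536095920071 / 100000000, 924543515677 / 50000000, -1092930788443 /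
    100000000, -5628611599029 / 100000000, 2108704808531 / 25000000]

def t3f2 : Dl where
  Ca := 100307 / 1000000
  Cv := 30093 / 200000
  k1 := 9935469 / 10000000
  ks := 197987 / 200000
  dd := 0
  kp := 869 / 10000000
  e := [999999699999 / 1000000000000, -276542151753 / 250000000000, 987050970873 / 1000000000000,
    -754464334319 / 1000000000000, 565515016903 / 1000000000000, -50872812373 / 125000000000,
    69904904881 / 250000000000, -88803172791 / 500000000000, 20241908839 / 250000000000]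
  j1 := [-447047 / 125000000, -12062538761 / 1000000000, 104193863873 / 1000000000, -427654435729
    / 1000000000, 1014517595807 / 1000000000, -18199815393 / 12500000, 331440136701 / 250000000,
    -184783507019 / 250000000]
  nu := [10113953 / 1000000000, -22095633 / 250000000, 443195683 / 1000000000, -232134949 /
    250000000, 16094797093 / 1000000000, -56889539717 / 500000000, 286192006659 / 1000000000]
  k2 := [61871051 / 62500000, 87494499 / 1000000000, -435026447 / 1000000000, 88789993 /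
    100000000, -15933163201 / 1000000000, 113223378057 / 1000000000, -71179454997 / 250000000]
  dR := [1382633 / 100000000, 12263997 / 50000000, -2562842617 / 100000000, 46349823257 /
    100000000, -20161124961 / 6250000, 785248136579 / 100000000]

def t3d2 : Xce where
  u0 := 100807 / 1000000
  u1 := 30093 / 200000
  l := V2L.y0
  y := t3z0
  j := t3j0
  i := t3i0
  ls := t3y0
  k := V2L.k0
  c := t3f2
  ga := 217 / 250000
  gb := -133 / 1000000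
  hb := 2437 / 1000000
  gs := [160002007 / 100000000, 12 / 5, 180000011 / 100000000, 39799777 / 50000000, 26595769 /
    100000000, -11777657 / 100000000, -3313293 / 50000000]
  d1 := [86921 / 100000000, 37809 / 50000000, 139743 / 25000000, 1787321 / 100000000, 147261 /
    4000000, 6065303 / 100000000, 892253 / 100000000]
  d2 := [1157 / 100000000, 111843 / 100000000, 668809 / 5000000, -14559411 / 12500000, 231501741 /
    100000000, 97982739 / 3125000, -852664139 / 6250000]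
  dy := [135613 / 50000000, 118651 / 20000000, -9397059 / 50000000, 110654329 / 12500000,
    -11880956727 / 100000000, 17507337171 / 25000000, -152774610713 / 100000000]
  t1 := [1444223 / 100000000, -12541209 / 100000000, -161052353 / 50000000, 10485889073 /
    100000000, -26122679201 / 20000000, 148025010581 / 20000000, -1535262148641 / 100000000]
  t2 := [80793 / 100000000, -1531949 / 100000000, 58939489 / 100000000, -100801513 / 6250000,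
    11051636381 / 50000000, -133989437989 / 100000000, 1482890051 / 500000]
  ty := [3919491 / 100000000, -8611383 / 20000000, -279703459 / 50000000, 2780821647 / 12500000,
    -284080506901 / 100000000, 814269734529 / 50000000, -1709868989557 / 50000000]

def t3m2 : ℚ := 643 / 4096

def t3h2 : ℚ := 87 / 250

theorem t3k2_M_r1 : NC (fM t3c2 (1 - eh) eh ek (elo t3c2.B0 t3c2.Bh eh) (elo t3c2.D0 t3c2.Dh ek) (elo t3c2.E0 t3c2.Eh ek)) :=
  NC.of (K := 32) (D := ⟨4, 3, 1, 1⟩) (Box.of 4 (by decide +kernel))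
    (by decide +kernel)

theorem t3k2_M_r2 : NC (fM t3c2 eh (1 - eh) ek (ehi t3c2.Bh t3c2.B1 (1 - eh)) (elo t3c2.D0 t3c2.Dh ek) (elo t3c2.E0 t3c2.Eh ek)) :=
  NC.of (K := 32) (D := ⟨4, 3, 1, 1⟩) (Box.of 4 (by decide +kernel))
    (by decide +kernel)

theorem t3k2_M_r3 : NC (fM t3c2 (1 - eh) ek eh (elo t3c2.B0 t3c2.Bh ek) (elo t3c2.D0 t3c2.Dh eh) (elo t3c2.E0 t3c2.Eh eh)) :=
  NC.of (K := 30) (D := ⟨4, 2, 1, 1⟩) (Box.of 4 (by decide +kernel))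
    (by decide +kernel)

theorem t3k2_M_r4 : NC (fM t3c2 eh ek (1 - eh) (elo t3c2.B0 t3c2.Bh ek) (ehi t3c2.Dh t3c2.D1 (1 - eh)) (ehi t3c2.Eh t3c2.E1 (1 - eh))) :=
  NC.of (K := 28) (D := ⟨4, 2, 1, 1⟩) (Box.of 4 (by decide +kernel))
    (by decide +kernel)

theorem t3k2_r0_r1 : NC (f0 t3c2 (1 - eh) eh ek (elo t3c2.B0 t3c2.Bh eh) (elo t3c2.D0 t3c2.Dh ek) (elo t3c2.E0 t3c2.Eh ek)) :=
  NC.of (K := 136) (D := ⟨13, 9, 1, 1⟩) (Box.of 4 (by decide +kernel))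
    (by decide +kernel)

theorem t3k2_r0_r2 : NC (f0 t3c2 eh (1 - eh) ek (ehi t3c2.Bh t3c2.B1 (1 - eh)) (elo t3c2.D0 t3c2.Dh ek) (elo t3c2.E0 t3c2.Eh ek)) :=
  NC.of (K := 136) (D := ⟨13, 9, 1, 1⟩) (Box.of 4 (by decide +kernel))
    (by decide +kernel)

theorem t3k2_r0_r3 : NC (f0 t3c2 (1 - eh) ek eh (elo t3c2.B0 t3c2.Bh ek) (elo t3c2.D0 t3c2.Dh eh) (elo t3c2.E0 t3c2.Eh eh)) :=
  NC.of (K := 131) (D := ⟨13, 5, 1, 1⟩) (Box.of 4 (by decide +kernel))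
    (by decide +kernel)

theorem t3k2_r0_r4 : NC (f0 t3c2 eh ek (1 - eh) (elo t3c2.B0 t3c2.Bh ek) (ehi t3c2.Dh t3c2.D1 (1 - eh)) (ehi t3c2.Eh t3c2.E1 (1 - eh))) :=
  NC.of (K := 124) (D := ⟨13, 5, 1, 1⟩) (Box.of 4 (by decide +kernel))
    (by decide +kernel)

theorem t3k2_r1_r1 : NC (f1 t3c2 (1 - eh) eh ek (elo t3c2.B0 t3c2.Bh eh) (elo t3c2.D0 t3c2.Dh ek) (elo t3c2.E0 t3c2.Eh ek)) :=
  NC.of (K := 221) (D := ⟨16, 9, 1, 1⟩) (Box.of 4 (by decide +kernel))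
    (by decide +kernel)

theorem t3k2_r1_r2 : NC (f1 t3c2 eh (1 - eh) ek (ehi t3c2.Bh t3c2.B1 (1 - eh)) (elo t3c2.D0 t3c2.Dh ek) (elo t3c2.E0 t3c2.Eh ek)) :=
  NC.of (K := 220) (D := ⟨16, 9, 1, 1⟩) (Box.of 4 (by decide +kernel))
    (by decide +kernel)

theorem t3k2_r1_r3 : NC (f1 t3c2 (1 - eh) ek eh (elo t3c2.B0 t3c2.Bh ek) (elo t3c2.D0 t3c2.Dh eh) (elo t3c2.E0 t3c2.Eh eh)) :=
  NC.of (K := 225) (D := ⟨16, 12, 1, 1⟩) (Box.of 4 (by decide +kernel))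
    (by decide +kernel)

theorem t3k2_r1_r4 : NC (f1 t3c2 eh ek (1 - eh) (elo t3c2.B0 t3c2.Bh ek) (ehi t3c2.Dh t3c2.D1 (1 - eh)) (ehi t3c2.Eh t3c2.E1 (1 - eh))) :=
  NC.of (K := 226) (D := ⟨16, 12, 1, 1⟩) (Box.of 4 (by decide +kernel))
    (by decide +kernel)

theorem t3k2_r2_r1 : NC (f2 t3c2 (1 - eh) eh ek (elo t3c2.B0 t3c2.Bh eh) (elo t3c2.D0 t3c2.Dh ek) (elo t3c2.E0 t3c2.Eh ek)) :=
  NC.of (K := 224) (D := ⟨16, 11, 1, 1⟩) (Box.of 4 (by decide +kernel))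
    (by decide +kernel)

theorem t3k2_r2_r2 : NC (f2 t3c2 eh (1 - eh) ek (ehi t3c2.Bh t3c2.B1 (1 - eh)) (elo t3c2.D0 t3c2.Dh ek) (elo t3c2.E0 t3c2.Eh ek)) :=
  NC.of (K := 222) (D := ⟨16, 11, 1, 1⟩) (Box.of 4 (by decide +kernel))
    (by decide +kernel)

theorem t3k2_r2_r3 : NC (f2 t3c2 (1 - eh) ek eh (elo t3c2.B0 t3c2.Bh ek) (elo t3c2.D0 t3c2.Dh eh) (elo t3c2.E0 t3c2.Eh eh)) :=
  NC.of (K := 225) (D := ⟨16, 12, 1, 1⟩) (Box.of 4 (by decide +kernel))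
    (by decide +kernel)

theorem t3k2_r2_r4 : NC (f2 t3c2 eh ek (1 - eh) (elo t3c2.B0 t3c2.Bh ek) (ehi t3c2.Dh t3c2.D1 (1 - eh)) (ehi t3c2.Eh t3c2.E1 (1 - eh))) :=
  NC.of (K := 226) (D := ⟨16, 12, 1, 1⟩) (Box.of 4 (by decide +kernel))
    (by decide +kernel)

theorem t3k2_rc_r1 : NC (fc t3c2 (1 - eh) eh ek (elo t3c2.B0 t3c2.Bh eh) (elo t3c2.D0 t3c2.Dh ek) (elo t3c2.E0 t3c2.Eh ek)) :=
  NC.of (K := 135) (D := ⟨13, 9, 1, 1⟩) (Box.of 4 (by decide +kernel))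
    (by decide +kernel)

theorem t3k2_rc_r2 : NC (fc t3c2 eh (1 - eh) ek (ehi t3c2.Bh t3c2.B1 (1 - eh)) (elo t3c2.D0 t3c2.Dh ek) (elo t3c2.E0 t3c2.Eh ek)) :=
  NC.of (K := 135) (D := ⟨13, 9, 1, 1⟩) (Box.of 4 (by decide +kernel))
    (by decide +kernel)

theorem t3k2_rc_r3 : NC (fc t3c2 (1 - eh) ek eh (elo t3c2.B0 t3c2.Bh ek) (elo t3c2.D0 t3c2.Dh eh) (elo t3c2.E0 t3c2.Eh eh)) :=
  NC.of (K := 130) (D := ⟨13, 5, 1, 1⟩) (Box.of 4 (by decide +kernel))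
    (by decide +kernel)

theorem t3k2_rc_r4 : NC (fc t3c2 eh ek (1 - eh) (elo t3c2.B0 t3c2.Bh ek) (ehi t3c2.Dh t3c2.D1 (1 - eh)) (ehi t3c2.Eh t3c2.E1 (1 - eh))) :=
  NC.of (K := 123) (D := ⟨13, 5, 1, 1⟩) (Box.of 4 (by decide +kernel))
    (by decide +kernel)

theorem t3k2_rI_r1 : NC (fI t3c2 (1 - eh) eh ek (elo t3c2.B0 t3c2.Bh eh) (elo t3c2.D0 t3c2.Dh ek) (elo t3c2.E0 t3c2.Eh ek)) :=
  NC.of (K := 128) (D := ⟨13, 9, 1, 1⟩) (Box.of 4 (by decide +kernel))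
    (by decide +kernel)

theorem t3k2_rI_r2 : NC (fI t3c2 eh (1 - eh) ek (ehi t3c2.Bh t3c2.B1 (1 - eh)) (elo t3c2.D0 t3c2.Dh ek) (elo t3c2.E0 t3c2.Eh ek)) :=
  NC.of (K := 129) (D := ⟨13, 9, 1, 1⟩) (Box.of 4 (by decide +kernel))
    (by decide +kernel)

theorem t3k2_rI_r3 : NC (fI t3c2 (1 - eh) ek eh (elo t3c2.B0 t3c2.Bh ek) (elo t3c2.D0 t3c2.Dh eh) (elo t3c2.E0 t3c2.Eh eh)) :=
  NC.of (K := 124) (D := ⟨13, 5, 1, 1⟩) (Box.of 4 (by decide +kernel))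
    (by decide +kernel)

theorem t3k2_rI_r4 : NC (fI t3c2 eh ek (1 - eh) (elo t3c2.B0 t3c2.Bh ek) (ehi t3c2.Dh t3c2.D1 (1 - eh)) (ehi t3c2.Eh t3c2.E1 (1 - eh))) :=
  NC.of (K := 117) (D := ⟨13, 5, 1, 1⟩) (Box.of 4 (by decide +kernel))
    (by decide +kernel)

theorem t3k2_rJ_r1 : NC (fJ t3c2 (1 - eh) eh ek (elo t3c2.B0 t3c2.Bh eh) (elo t3c2.D0 t3c2.Dh ek) (elo t3c2.E0 t3c2.Eh ek)) :=
  NC.of (K := 69) (D := ⟨7, 5, 1, 1⟩) (Box.of 4 (by decide +kernel))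
    (by decide +kernel)

theorem t3k2_rJ_r2 : NC (fJ t3c2 eh (1 - eh) ek (ehi t3c2.Bh t3c2.B1 (1 - eh)) (elo t3c2.D0 t3c2.Dh ek) (elo t3c2.E0 t3c2.Eh ek)) :=
  NC.of (K := 69) (D := ⟨7, 5, 1, 1⟩) (Box.of 4 (by decide +kernel))
    (by decide +kernel)

theorem t3k2_rJ_r3 : NC (fJ t3c2 (1 - eh) ek eh (elo t3c2.B0 t3c2.Bh ek) (elo t3c2.D0 t3c2.Dh eh) (elo t3c2.E0 t3c2.Eh eh)) :=
  NC.of (K := 67) (D := ⟨7, 3, 1, 1⟩) (Box.of 4 (by decide +kernel))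
    (by decide +kernel)

theorem t3k2_rJ_r4 : NC (fJ t3c2 eh ek (1 - eh) (elo t3c2.B0 t3c2.Bh ek) (ehi t3c2.Dh t3c2.D1 (1 - eh)) (ehi t3c2.Eh t3c2.E1 (1 - eh))) :=
  NC.of (K := 62) (D := ⟨7, 3, 1, 1⟩) (Box.of 4 (by decide +kernel))
    (by decide +kernel)

theorem t3k2_gE_r1 : NC (fE t3c2 t3e2 (1 - eh) eh ek (elo t3c2.B0 t3c2.Bh eh) (elo t3c2.D0 t3c2.Dh ek) (elo t3c2.E0 t3c2.Eh ek)) :=
  NC.of (K := 129) (D := ⟨13, 9, 1, 1⟩) (Box.of 4 (by decide +kernel))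
    (by decide +kernel)

theorem t3k2_gE_r2 : NC (fE t3c2 t3e2 eh (1 - eh) ek (ehi t3c2.Bh t3c2.B1 (1 - eh)) (elo t3c2.D0 t3c2.Dh ek) (elo t3c2.E0 t3c2.Eh ek)) :=
  NC.of (K := 130) (D := ⟨13, 9, 1, 1⟩) (Box.of 4 (by decide +kernel))
    (by decide +kernel)

theorem t3k2_gE_r3 : NC (fE t3c2 t3e2 (1 - eh) ek eh (elo t3c2.B0 t3c2.Bh ek) (elo t3c2.D0 t3c2.Dh eh) (elo t3c2.E0 t3c2.Eh eh)) :=
  NC.of (K := 127) (D := ⟨13, 7, 1, 1⟩) (Box.of 4 (by decide +kernel))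
    (by decide +kernel)

theorem t3k2_gE_r4 : NC (fE t3c2 t3e2 eh ek (1 - eh) (elo t3c2.B0 t3c2.Bh ek) (ehi t3c2.Dh t3c2.D1 (1 - eh)) (ehi t3c2.Eh t3c2.E1 (1 - eh))) :=
  NC.of (K := 121) (D := ⟨13, 7, 1, 1⟩) (Box.of 4 (by decide +kernel))
    (by decide +kernel)

theorem t3k2_B0 : NC (kB dW 1 0 t3c2.B0 (tcl t3c2)) :=
  NC.of (K := 73) (D := ⟨1, 1, 1, 9⟩) (Box.of 4 (by decide +kernel))
    (by decide +kernel)

theorem t3k2_E0 : NC (kE dW qW qW.p0 qW.q0 t3c2.E0 (tcl t3c2)) :=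
  NC.of (K := 161) (D := ⟨1, 1, 1, 19⟩) (Box.of 4 (by decide +kernel))
    (by decide +kernel)

theorem t3k2_D0 : NC (kD dW qW 1 0 qW.p0 qW.q0 t3c2.D0 (tcl t3c2)) :=
  NC.of (K := 275) (D := ⟨1, 1, 1, 20⟩) (Box.of 4 (by decide +kernel))
    (by decide +kernel)

theorem t3k2_Bh : NC (kB dW (1 / 2) (1 / 2) t3c2.Bh (tcl t3c2)) :=
  NC.of (K := 75) (D := ⟨1, 1, 1, 9⟩) (Box.of 4 (by decide +kernel))
    (by decide +kernel)

theorem t3k2_Eh : NC (kE dW qW qW.ph qW.qh t3c2.Eh (tcl t3c2)) :=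
  NC.of (K := 164) (D := ⟨1, 1, 1, 19⟩) (Box.of 4 (by decide +kernel))
    (by decide +kernel)

theorem t3k2_Dh : NC (kD dW qW (1 / 2) (1 / 2) qW.ph qW.qh t3c2.Dh (tcl t3c2)) :=
  NC.of (K := 278) (D := ⟨1, 1, 1, 20⟩) (Box.of 4 (by decide +kernel))
    (by decide +kernel)

theorem t3k2_B1 : NC (kB dW 0 (1 / 2) t3c2.B1 (tcl t3c2)) :=
  NC.of (K := 75) (D := ⟨1, 1, 1, 9⟩) (Box.of 4 (by decide +kernel))
    (by decide +kernel)

theorem t3k2_E1 : NC (kE dW qW qW.p1 qW.q1 t3c2.E1 (tcl t3c2)) :=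
  NC.of (K := 164) (D := ⟨1, 1, 1, 19⟩) (Box.of 4 (by decide +kernel))
    (by decide +kernel)

theorem t3k2_D1 : NC (kD dW qW 0 (1 / 2) qW.p1 qW.q1 t3c2.D1 (tcl t3c2)) :=
  NC.of (K := 278) (D := ⟨1, 1, 1, 20⟩) (Box.of 4 (by decide +kernel))
    (by decide +kernel)

theorem t3k2_l : NC (qc t3n2.lb - (1 - vX) * pe (exl t3c2.th) vX ^ 2) :=
  NC.of (K := 125) (D := ⟨10, 1, 1, 1⟩) (Box.of 4 (by decide +kernel))
    (by decide +kernel)

theorem t3k2_n : NC (qc t3n2.nb - vX * (1 - vX) * pe (exl t3c2.th) vX) :=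
  NC.of (K := 103) (D := ⟨7, 1, 1, 1⟩) (Box.of 1196064 (by decide +kernel))
    (by decide +kernel)

theorem t3k2_rb : NC (krb t3n2 fW (t1v t3c2)) :=
  NC.of (K := 142) (D := ⟨1, 1, 1, 16⟩) (Box.of 4 (by decide +kernel))
    (by decide +kernel)

theorem t3k2_kap : NC (kkap dW qW t3n2 (tcl t3c2)) :=
  NC.of (K := 75) (D := ⟨1, 1, 1, 9⟩) (Box.of 4 (by decide +kernel))
    (by decide +kernel)

theorem t3k2_wb2 : NC (qc t3n2.b2 - pe2 kW.QB (vZ * t1v t3c2) (t1v t3c2)) :=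
  NC.of (K := 95) (D := ⟨1, 6, 1, 11⟩) (Box.of 4 (by decide +kernel))
    (by decide +kernel)

theorem t3k2_wmb : NC (qc t3n2.Mb - pe zW.mb (t1v t3c2)) :=
  NC.of (K := 75) (D := ⟨1, 1, 1, 9⟩) (Box.of 4 (by decide +kernel))
    (by decide +kernel)

theorem t3k2_wth : NC (qc (t3c2.th / t3c2.t1) - pe2 zW.Qt (vZ * t1v t3c2) (t1v t3c2)) :=
  NC.of (K := 95) (D := ⟨1, 6, 1, 11⟩) (Box.of 4 (by decide +kernel))
    (by decide +kernel)

theorem t3k2_wyb : NC (qc t3n2.Yb - (t1v t3c2 - vZ * t1v t3c2) ^ 3 * pe2 yW.QY (vZ * t1v t3c2) (t1v t3c2)) :=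
  NC.of (K := 93) (D := ⟨1, 8, 1, 12⟩) (Box.of 4 (by decide +kernel))
    (by decide +kernel)

theorem t3k2_wmu : NC (qc t3m2 - pe t3al (tcl t3c2) * (1 + hlf * tcl t3c2)) :=
  NC.of (K := 67) (D := ⟨1, 1, 1, 9⟩) (Box.of 4 (by decide +kernel))
    (by decide +kernel)

theorem t3k2_wcj : NC (qc t3c2.C * ((6 - 3 * vX) * (1 - qc t3m2 * vX)) - (6 - 6 * vX + vX ^ 2)) :=
  NC.of (K := 34) (D := ⟨3, 1, 1, 1⟩) (Box.of 4 (by decide +kernel))
    (by decide +kernel)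

theorem t3k2_nd1 : NC (pe t3r2.d1 (t1v t3c2)) :=
  NC.of (K := 51) (D := ⟨1, 1, 1, 7⟩) (Box.of 4 (by decide +kernel))
    (by decide +kernel)

theorem t3k2_nd2 : NC (pe t3r2.d2 (t1v t3c2)) :=
  NC.of (K := 53) (D := ⟨1, 1, 1, 7⟩) (Box.of 4 (by decide +kernel))
    (by decide +kernel)

theorem t3k2_ndy : NC (pe t3r2.dy (t1v t3c2)) :=
  NC.of (K := 60) (D := ⟨1, 1, 1, 7⟩) (Box.of 4 (by decide +kernel))
    (by decide +kernel)

theorem t3k2_nt1 : NC (pe t3r2.t1 (t1v t3c2)) :=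
  NC.of (K := 73) (D := ⟨1, 1, 1, 7⟩) (Box.of 291 (by decide +kernel))
    (by decide +kernel)

theorem t3k2_nt2 : NC (pe t3r2.t2 (t1v t3c2)) :=
  NC.of (K := 73) (D := ⟨1, 1, 1, 7⟩) (Box.of 291 (by decide +kernel))
    (by decide +kernel)

theorem t3k2_nty : NC (pe t3r2.ty (t1v t3c2)) :=
  NC.of (K := 75) (D := ⟨1, 1, 1, 7⟩) (Box.of 291 (by decide +kernel))
    (by decide +kernel)

theorem t3k2_nhz : NC (pe t3r2.hz (t1v t3c2)) :=
  NC.of (K := 88) (D := ⟨1, 1, 1, 7⟩) (Box.of 1194267 (by decide +kernel))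
    (by decide +kernel)

theorem t3k2_xi : NC (eXi fW t3c2 t3e2 t3r2 (t1v t3c2)) :=
  NC.of (K := 248) (D := ⟨1, 1, 1, 22⟩) (Box.of 4 (by decide +kernel))
    (by decide +kernel)

theorem t3k2_om : NC (eOm fW t3r2 (t1v t3c2)) :=
  NC.of (K := 137) (D := ⟨1, 1, 1, 16⟩) (Box.of 4 (by decide +kernel))
    (by decide +kernel)

theorem t3k2_fin : NC (eFin dW t3c2 t3n2 t3r2 t3h2 (tcl t3c2)) :=
  NC.of (K := 174) (D := ⟨1, 1, 1, 14⟩) (Box.of 4 (by decide +kernel))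
    (by decide +kernel)

theorem t3k2_xdl : NC (qc t3e2.dl - pe t3d2.l.dl t3d2.eU) :=
  NC.of (K := 71) (D := ⟨1, 4, 1, 1⟩) (Box.of 4 (by decide +kernel))
    (by decide +kernel)

theorem t3k2_xeY : NC (qc t3e2.eY - pe (e4l t3d2.l.z) t3d2.eU) :=
  NC.of (K := 288) (D := ⟨1, 13, 1, 1⟩) (Box.of 4 (by decide +kernel))
    (by decide +kernel)

theorem t3k2_xgr : NC (qc t3d2.ga * ((1 + qc (3 / 5) * vX) * (1 + (t3d2.eg + hlf * t3d2.eg ^ 2))) + qc t3d2.gb - pe2 t3GR vX t3d2.eU) :=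
  NC.of (K := 236) (D := ⟨4, 11, 1, 1⟩) (Box.of 4 (by decide +kernel))
    (by decide +kernel)

theorem t3k2_xhr : NC (qc t3d2.hb - pe2 t3HR vX t3d2.eU) :=
  NC.of (K := 256) (D := ⟨3, 12, 1, 1⟩) (Box.of 4 (by decide +kernel))
    (by decide +kernel)

theorem t3k2_xgs : NC (pe t3d2.gs t3d2.e1 - qc (8 / 5) * pe (e4l (ladd t3d2.ls.z t3d2.ls.dl)) t3d2.e1) :=
  NC.of (K := 268) (D := ⟨1, 1, 1, 13⟩) (Box.of 4 (by decide +kernel))
    (by decide +kernel)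

theorem t3k2_xd1 : NC (pe t3d2.d1 t3d2.e1 - t3d2.eA t3d2.eU t3d2.e1) :=
  NC.of (K := 277) (D := ⟨1, 12, 1, 12⟩) (Box.of 4 (by decide +kernel))
    (by decide +kernel)

theorem t3k2_xd2 : NC (pe t3d2.d2 t3d2.e1 - t3d2.eB t3d2.eU t3d2.e1) :=
  NC.of (K := 346) (D := ⟨1, 12, 1, 12⟩) (Box.of 76433627 (by decide +kernel))
    (by decide +kernel)

theorem t3k2_xt1 : NC (pe t3d2.t1 t3d2.e1 - t3d2.eAT t3d2.eU t3d2.e1) :=
  NC.of (K := 567) (D := ⟨1, 19, 1, 19⟩) (Box.of 76429595 (by decide +kernel))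
    (by decide +kernel)

theorem t3k2_xt2 : NC (pe t3d2.t2 t3d2.e1 - t3d2.eBT t3d2.eU t3d2.e1) :=
  NC.of (K := 564) (D := ⟨1, 19, 1, 19⟩) (Box.of 20036484974811 (by decide +kernel))
    (by decide +kernel)

theorem t3k2_xdy : NC (pe t3d2.dy t3d2.e1 - t3d2.eSD t3d2.eU t3d2.e1) :=
  NC.of (K := 477) (D := ⟨1, 18, 1, 12⟩) (Box.of 1194267 (by decide +kernel))
    (by decide +kernel)

theorem t3k2_xty : NC (pe t3d2.ty t3d2.e1 - t3d2.eST t3d2.eU t3d2.e1) :=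
  NC.of (K := 739) (D := ⟨1, 26, 1, 26⟩) (Box.of 1194267 (by decide +kernel))
    (by decide +kernel)

theorem t3k2_xd1s : NC (pe t3r2.d1 (t1v t3c2) - pe t3d2.d1 (Xcd.ew zW t3c2)) :=
  NC.of (K := 504) (D := ⟨1, 1, 1, 55⟩) (Box.of 4 (by decide +kernel))
    (by decide +kernel)

theorem t3k2_xd2s : NC (pe t3r2.d2 (t1v t3c2) - pe t3d2.d2 (Xcd.ew zW t3c2)) :=
  NC.of (K := 504) (D := ⟨1, 1, 1, 55⟩) (Box.of 4 (by decide +kernel))
    (by decide +kernel)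

theorem t3k2_xt1s : NC (pe t3r2.t1 (t1v t3c2) - pe t3d2.t1 (Xcd.ew zW t3c2)) :=
  NC.of (K := 515) (D := ⟨1, 1, 1, 55⟩) (Box.of 4 (by decide +kernel))
    (by decide +kernel)

theorem t3k2_xt2s : NC (pe t3r2.t2 (t1v t3c2) - pe t3d2.t2 (Xcd.ew zW t3c2)) :=
  NC.of (K := 505) (D := ⟨1, 1, 1, 55⟩) (Box.of 4 (by decide +kernel))
    (by decide +kernel)

theorem t3k2_xdys : NC (pe t3r2.dy (t1v t3c2) - pe t3d2.dy (Xcd.ew zW t3c2)) :=
  NC.of (K := 512) (D := ⟨1, 1, 1, 55⟩) (Box.of 4 (by decide +kernel))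
    (by decide +kernel)

theorem t3k2_xtys : NC (pe t3r2.ty (t1v t3c2) - pe t3d2.ty (Xcd.ew zW t3c2)) :=
  NC.of (K := 515) (D := ⟨1, 1, 1, 55⟩) (Box.of 4 (by decide +kernel))
    (by decide +kernel)

theorem t3k2_xhz : NC (pe t3r2.hz (t1v t3c2) - pe t3d2.c.dR (Xcd.ew zW t3c2)) :=
  NC.of (K := 436) (D := ⟨1, 1, 1, 46⟩) (Box.of 4 (by decide +kernel))
    (by decide +kernel)

theorem t3f2_ok : t3f2.ok V2L.y0 V2L.k0 V2L.nb V2L.la (10 ^ 30) 32 = true := by decide +kernel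

theorem t3k2_sg : t3c2.Sg := by
  constructor <;> decide +kernel

theorem t3k2_rgs : t3c2.Rgs where
  M := ⟨t3k2_M_r1, t3k2_M_r2, t3k2_M_r3, t3k2_M_r4⟩
  r0 := ⟨t3k2_r0_r1, t3k2_r0_r2, t3k2_r0_r3, t3k2_r0_r4⟩
  r1 := ⟨t3k2_r1_r1, t3k2_r1_r2, t3k2_r1_r3, t3k2_r1_r4⟩
  r2 := ⟨t3k2_r2_r1, t3k2_r2_r2, t3k2_r2_r3, t3k2_r2_r4⟩
  rc := ⟨t3k2_rc_r1, t3k2_rc_r2, t3k2_rc_r3, t3k2_rc_r4⟩
  rI := ⟨t3k2_rI_r1, t3k2_rI_r2, t3k2_rI_r3, t3k2_rI_r4⟩
  rJ := ⟨t3k2_rJ_r1, t3k2_rJ_r2, t3k2_rJ_r3, t3k2_rJ_r4⟩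

theorem t3k2_xn : t3e2.Ok t3c2 where
  lm := by decide +kernel
  dl0 := by decide +kernel
  dl1 := by decide +kernel
  e2 := by decide +kernel
  eY := by decide +kernel
  gE := ⟨t3k2_gE_r1, t3k2_gE_r2, t3k2_gE_r3, t3k2_gE_r4⟩

theorem t3k2_vl : t3c2.Vl dW qW where
  bt := by decide +kernel
  B0 := t3k2_B0
  E0 := t3k2_E0
  D0 := t3k2_D0
  Bh := t3k2_Bh
  Eh := t3k2_Eh
  Dh := t3k2_Dh
  B1 := t3k2_B1
  E1 := t3k2_E1
  D1 := t3k2_D1

theorem t3k2_rat : t3n2.Rat t3c2 := by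
  constructor <;> decide +kernel

theorem t3k2_ck : t3n2.Ck t3c2 := ⟨t3k2_l, t3k2_n⟩

theorem t3k2_fck : t3n2.Fck dW qW fW t3c2 := ⟨t3k2_rb, t3k2_kap⟩

theorem t3k2_w : Wcl zW kW yW t3al t3c2 t3n2 t3m2 where
  b2 := t3k2_wb2
  mb := t3k2_wmb
  th := t3k2_wth
  yb := t3k2_wyb
  mu := t3k2_wmu
  cj := t3k2_wcj
  mt1 := by decide +kernel
  mt2 := by decide +kernel

theorem t3k2_ok : CelOk dW qW fW t3c2 t3n2 where
  s := t3k2_sg
  r := t3k2_rgs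
  v := t3k2_vl
  rt := t3k2_rat
  k := t3k2_ck
  fc := t3k2_fck
  q01 := by decide +kernel
  q12 := by decide +kernel
  h2 := by decide +kernel

theorem t3k2_xr : t3r2.Ok fW t3c2 t3e2 where
  sD := by decide +kernel
  sT := by decide +kernel
  nd1 := t3k2_nd1
  nd2 := t3k2_nd2
  ndy := t3k2_ndy
  nt1 := t3k2_nt1
  nt2 := t3k2_nt2
  nty := t3k2_nty
  nhz := t3k2_nhz
  xi := t3k2_xi
  om := t3k2_om

theorem t3k2_X : t3d2.Ck t3GR t3HR zW t3c2 t3e2 t3r2 where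
  u0 := by decide +kernel
  u01 := by decide +kernel
  ul := by decide +kernel
  us := by decide +kernel
  uc := by decide +kernel
  ga0 := by decide +kernel
  kp0 := by decide +kernel
  lm := by decide +kernel
  dl := t3k2_xdl
  eY := t3k2_xeY
  gr := t3k2_xgr
  hr := t3k2_xhr
  gs := t3k2_xgs
  d1 := t3k2_xd1
  d2 := t3k2_xd2
  t1 := t3k2_xt1
  t2 := t3k2_xt2
  dy := t3k2_xdy
  ty := t3k2_xty
  d1s := t3k2_xd1s
  d2s := t3k2_xd2s
  t1s := t3k2_xt1s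
  t2s := t3k2_xt2s
  dys := t3k2_xdys
  tys := t3k2_xtys
  hz := t3k2_xhz

end Pool.Agent.RX.RCN.K
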