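import Pool.Agent.RX.RCN.T3D
import Pool.Agent.RX.RCN.T3Wq
import Pool.Agent.RX.RCN.T3X9
import Pool.Agent.RX.RCN.VLd

/-! Certificates (generated). -/

set_option autoImplicit false

namespace Pool.Agent.RX.RCN.K

open Set Pool.Agent.RX.RCM9 Pool.Agent.RX.RCM9.Bern Pool.Agent.RX.RCM9.Pk Xce

def t3c20 : Cel where
  t0 := 79 / 200
  t1 := 201 / 500
  C := 4097 / 4096
  th := 1653 / 4096
  B0 := 2189 / 2048
  Bh := 1177 / 1024
  B1 := 1143 / 1024
  D0 := 647 / 2048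
  Dh := 1035 / 4096
  D1 := 493 / 2048
  E0 := 10727 / 2097152
  Eh := 17777 / 4194304
  E1 := 8473 / 2097152
  Q0 := 1097 / 1024
  Q1 := 1097 / 1024
  Q2 := 549 / 512
  Ac := 1097 / 1024
  gI := 1097 / 1024
  J := 15195 / 2097152

def t3n20 : Chn where
  lb := 513 / 512
  nb := 317 / 1024
  Mb := 515 / 512
  b2 := 65 / 64
  Yb := 33 / 4096
  E2 := 4163 / 4096
  e1 := 1267 / 1024
  Z1 := 1127 / 1024
  Z2 := 627 / 1024
  KB := 1057 / 1024
  cb := 1071 / 1024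
  rb := 89 / 256
  om := 263 / 256
  fb := 129 / 128
  kap := 4159 / 4096
  ab := 1029 / 1024

def t3e20 : Xge where
  lm := 3 / 5
  dl := 809 / 2048
  e2 := 367 / 4096
  eY := 1033 / 1024
  gE := 569 / 512

def t3r20 : Xr where
  d1 := [1753941 / 100000000, 53907 / 20000000, 122003 / 6250000, 1286087 / 50000000, 3716853 /
    100000000, -3088503 / 50000000, 2333411 / 25000000]
  d2 := [957 / 12500000, 1629233 / 100000000, 75633 / 1250000, 917511 / 5000000, -9368889 /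
    50000000, -8078419 / 25000000, 18387923 / 25000000]
  dy := [12965961 / 100000000, 2288193 / 50000000, 22403437 / 100000000, 14642777 / 25000000,
    -50409767 / 50000000, 37021007 / 50000000, -5175967 / 50000000]
  t1 := [5586303 / 50000000, -20968011 / 50000000, 48777089 / 100000000, -117207303 / 100000000,
    777605319 / 100000000, -23272933 / 1250000, 1680157467 / 100000000]
  t2 := [2457543 / 100000000, -9365871 / 100000000, 17480187 / 100000000, -1252907 / 6250000,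
    245102763 / 100000000, -63579313 / 10000000, 11246857 / 2000000]
  ty := [16680709 / 25000000, -293289923 / 100000000, 197627363 / 50000000, 323734281 / 50000000,
    -408777887 / 20000000, 1104479861 / 50000000, -493803889 / 50000000]
  hz := [12120883 / 100000000, -13266779 / 100000000, -567489793 / 100000000, 1204916077 /
    50000000, -2665146033 / 100000000, -20711373 / 12500000, -1022233 / 50000000]
  om := [100396701 / 100000000, 25554827 / 25000000, -172805901 / 12500000, 5389399603 /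
    100000000, -5793195959 / 50000000, 19471393209 / 100000000, -5162076639 / 20000000,
    2616481853 / 12500000, -3894298711 / 50000000]
  sD := 277 / 128
  sT := 247 / 128
  xi := [1078479 / 20000000, 25143999 / 50000000, -105411131 / 50000000, -340746249 / 100000000,
    3359542131 / 100000000, -542571227 / 12500000, -3785698851 / 100000000, 5372942057 /
    50000000, -4279664477 / 100000000, -3423475031 / 100000000]

def t3f20 : Dl where
  Ca := 792471 / 2000000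
  Cv := 201633 / 500000
  k1 := 9437381 / 10000000
  ks := 463087 / 500000
  dd := 0
  kp := 3 / 10000000
  e := [199999939919 / 200000000000, -661729758109 / 500000000000, 1373102412803 / 1000000000000,
    -1261991691167 / 1000000000000, 34585231031 / 31250000000, -910977448963 / 1000000000000,
    168950777247 / 250000000000, -78800146927 / 200000000000, 126791911857 / 1000000000000]
  j1 := [-544101 / 200000000, -573972019 / 62500000, 20895339593 / 250000000, -361637834151 /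
    1000000000, 56908626941 / 62500000, -1364215097421 / 1000000000, 1153837539731 / 1000000000,
    -440077841029 / 1000000000]
  nu := [76690007 / 1000000000, -106816681 / 500000000, 394039617 / 1000000000, 1580823 /
    62500000, -130964959 / 500000000, 352937843 / 250000000, -736358747 / 500000000]
  k2 := [231543813 / 250000000, 98937541 / 500000000, -343767949 / 1000000000, -3198603 /
    31250000, 329120453 / 1000000000, -1391563679 / 1000000000, 147947807 / 100000000]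
  dR := [6048343 / 50000000, -3306521 / 25000000, -564025351 / 100000000, 2387831563 / 100000000,
    -2632777319 / 100000000, -163978149 / 100000000]

def t3d20 : Xce where
  u0 := 6199 / 15625
  u1 := 201633 / 500000
  l := V2L.y9
  y := t3z9
  j := t3j9
  i := t3i9
  ls := t3y9
  k := V2L.k9
  c := t3f20
  ga := 17503 / 1000000
  gb := -6247 / 1000000
  hb := 39457 / 500000
  gs := [160002921 / 100000000, 239999937 / 100000000, 180002437 / 100000000, 7956473 / 10000000,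
    26827847 / 100000000, -6259793 / 50000000, -5687733 / 100000000]
  d1 := [350543 / 20000000, 270153 / 100000000, 1897879 / 100000000, 1500243 / 50000000, 1488207 /
    100000000, -1229139 / 100000000, 19928 / 390625]
  d2 := [6447 / 100000000, 407111 / 25000000, 5891069 / 100000000, 19490007 / 100000000, -12404777
    / 50000000, -17869273 / 100000000, 60587587 / 100000000]
  dy := [6477819 / 50000000, 4575643 / 100000000, 10940201 / 50000000, 6214061 / 10000000,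
    -59652923 / 50000000, 23285289 / 20000000, -23138547 / 50000000]
  t1 := [1116701 / 10000000, -20902907 / 50000000, 9686859 / 20000000, -57838419 / 50000000,
    765755701 / 100000000, -913731409 / 50000000, 821802837 / 50000000]
  t2 := [245627 / 10000000, -2333043 / 25000000, 17231977 / 100000000, -18394523 / 100000000,
    58788463 / 25000000, -122162419 / 20000000, 539352251 / 100000000]
  ty := [66689321 / 100000000, -73090537 / 25000000, 196056901 / 50000000, 648544919 / 100000000,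
    -51286911 / 2500000, 2247474657 / 100000000, -515549211 / 50000000]

def t3m20 : ℚ := 807 / 2048

def t3h20 : ℚ := 249 / 500

theorem t3k20_M_r1 : NC (fM t3c20 (1 - eh) eh ek (elo t3c20.B0 t3c20.Bh eh) (elo t3c20.D0 t3c20.Dh ek) (elo t3c20.E0 t3c20.Eh ek)) :=
  NC.of (K := 34) (D := ⟨4, 3, 1, 1⟩) (Box.of 4 (by decide +kernel))
    (by decide +kernel)

theorem t3k20_M_r2 : NC (fM t3c20 eh (1 - eh) ek (ehi t3c20.Bh t3c20.B1 (1 - eh)) (elo t3c20.D0 t3c20.Dh ek) (elo t3c20.E0 t3c20.Eh ek)) :=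
  NC.of (K := 34) (D := ⟨4, 3, 1, 1⟩) (Box.of 4 (by decide +kernel))
    (by decide +kernel)

theorem t3k20_M_r3 : NC (fM t3c20 (1 - eh) ek eh (elo t3c20.B0 t3c20.Bh ek) (elo t3c20.D0 t3c20.Dh eh) (elo t3c20.E0 t3c20.Eh eh)) :=
  NC.of (K := 33) (D := ⟨4, 2, 1, 1⟩) (Box.of 4 (by decide +kernel))
    (by decide +kernel)

theorem t3k20_M_r4 : NC (fM t3c20 eh ek (1 - eh) (elo t3c20.B0 t3c20.Bh ek) (ehi t3c20.Dh t3c20.D1 (1 - eh)) (ehi t3c20.Eh t3c20.E1 (1 - eh))) :=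
  NC.of (K := 33) (D := ⟨4, 2, 1, 1⟩) (Box.of 4 (by decide +kernel))
    (by decide +kernel)

theorem t3k20_r0_r1 : NC (f0 t3c20 (1 - eh) eh ek (elo t3c20.B0 t3c20.Bh eh) (elo t3c20.D0 t3c20.Dh ek) (elo t3c20.E0 t3c20.Eh ek)) :=
  NC.of (K := 164) (D := ⟨13, 9, 1, 1⟩) (Box.of 4 (by decide +kernel))
    (by decide +kernel)

theorem t3k20_r0_r2 : NC (f0 t3c20 eh (1 - eh) ek (ehi t3c20.Bh t3c20.B1 (1 - eh)) (elo t3c20.D0 t3c20.Dh ek) (elo t3c20.E0 t3c20.Eh ek)) :=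
  NC.of (K := 164) (D := ⟨13, 9, 1, 1⟩) (Box.of 4 (by decide +kernel))
    (by decide +kernel)

theorem t3k20_r0_r3 : NC (f0 t3c20 (1 - eh) ek eh (elo t3c20.B0 t3c20.Bh ek) (elo t3c20.D0 t3c20.Dh eh) (elo t3c20.E0 t3c20.Eh eh)) :=
  NC.of (K := 159) (D := ⟨13, 5, 1, 1⟩) (Box.of 4 (by decide +kernel))
    (by decide +kernel)

theorem t3k20_r0_r4 : NC (f0 t3c20 eh ek (1 - eh) (elo t3c20.B0 t3c20.Bh ek) (ehi t3c20.Dh t3c20.D1 (1 - eh)) (ehi t3c20.Eh t3c20.E1 (1 - eh))) :=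
  NC.of (K := 160) (D := ⟨13, 5, 1, 1⟩) (Box.of 4 (by decide +kernel))
    (by decide +kernel)

theorem t3k20_r1_r1 : NC (f1 t3c20 (1 - eh) eh ek (elo t3c20.B0 t3c20.Bh eh) (elo t3c20.D0 t3c20.Dh ek) (elo t3c20.E0 t3c20.Eh ek)) :=
  NC.of (K := 246) (D := ⟨16, 9, 1, 1⟩) (Box.of 4 (by decide +kernel))
    (by decide +kernel)

theorem t3k20_r1_r2 : NC (f1 t3c20 eh (1 - eh) ek (ehi t3c20.Bh t3c20.B1 (1 - eh)) (elo t3c20.D0 t3c20.Dh ek) (elo t3c20.E0 t3c20.Eh ek)) :=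
  NC.of (K := 244) (D := ⟨16, 9, 1, 1⟩) (Box.of 4 (by decide +kernel))
    (by decide +kernel)

theorem t3k20_r1_r3 : NC (f1 t3c20 (1 - eh) ek eh (elo t3c20.B0 t3c20.Bh ek) (elo t3c20.D0 t3c20.Dh eh) (elo t3c20.E0 t3c20.Eh eh)) :=
  NC.of (K := 250) (D := ⟨16, 12, 1, 1⟩) (Box.of 4 (by decide +kernel))
    (by decide +kernel)

theorem t3k20_r1_r4 : NC (f1 t3c20 eh ek (1 - eh) (elo t3c20.B0 t3c20.Bh ek) (ehi t3c20.Dh t3c20.D1 (1 - eh)) (ehi t3c20.Eh t3c20.E1 (1 - eh))) :=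
  NC.of (K := 251) (D := ⟨16, 12, 1, 1⟩) (Box.of 4 (by decide +kernel))
    (by decide +kernel)

theorem t3k20_r2_r1 : NC (f2 t3c20 (1 - eh) eh ek (elo t3c20.B0 t3c20.Bh eh) (elo t3c20.D0 t3c20.Dh ek) (elo t3c20.E0 t3c20.Eh ek)) :=
  NC.of (K := 249) (D := ⟨16, 11, 1, 1⟩) (Box.of 4 (by decide +kernel))
    (by decide +kernel)

theorem t3k20_r2_r2 : NC (f2 t3c20 eh (1 - eh) ek (ehi t3c20.Bh t3c20.B1 (1 - eh)) (elo t3c20.D0 t3c20.Dh ek) (elo t3c20.E0 t3c20.Eh ek)) :=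
  NC.of (K := 246) (D := ⟨16, 11, 1, 1⟩) (Box.of 4 (by decide +kernel))
    (by decide +kernel)

theorem t3k20_r2_r3 : NC (f2 t3c20 (1 - eh) ek eh (elo t3c20.B0 t3c20.Bh ek) (elo t3c20.D0 t3c20.Dh eh) (elo t3c20.E0 t3c20.Eh eh)) :=
  NC.of (K := 250) (D := ⟨16, 12, 1, 1⟩) (Box.of 4 (by decide +kernel))
    (by decide +kernel)

theorem t3k20_r2_r4 : NC (f2 t3c20 eh ek (1 - eh) (elo t3c20.B0 t3c20.Bh ek) (ehi t3c20.Dh t3c20.D1 (1 - eh)) (ehi t3c20.Eh t3c20.E1 (1 - eh))) :=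
  NC.of (K := 252) (D := ⟨16, 12, 1, 1⟩) (Box.of 4 (by decide +kernel))
    (by decide +kernel)

theorem t3k20_rc_r1 : NC (fc t3c20 (1 - eh) eh ek (elo t3c20.B0 t3c20.Bh eh) (elo t3c20.D0 t3c20.Dh ek) (elo t3c20.E0 t3c20.Eh ek)) :=
  NC.of (K := 163) (D := ⟨13, 9, 1, 1⟩) (Box.of 4 (by decide +kernel))
    (by decide +kernel)

theorem t3k20_rc_r2 : NC (fc t3c20 eh (1 - eh) ek (ehi t3c20.Bh t3c20.B1 (1 - eh)) (elo t3c20.D0 t3c20.Dh ek) (elo t3c20.E0 t3c20.Eh ek)) :=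
  NC.of (K := 163) (D := ⟨13, 9, 1, 1⟩) (Box.of 4 (by decide +kernel))
    (by decide +kernel)

theorem t3k20_rc_r3 : NC (fc t3c20 (1 - eh) ek eh (elo t3c20.B0 t3c20.Bh ek) (elo t3c20.D0 t3c20.Dh eh) (elo t3c20.E0 t3c20.Eh eh)) :=
  NC.of (K := 159) (D := ⟨13, 5, 1, 1⟩) (Box.of 4 (by decide +kernel))
    (by decide +kernel)

theorem t3k20_rc_r4 : NC (fc t3c20 eh ek (1 - eh) (elo t3c20.B0 t3c20.Bh ek) (ehi t3c20.Dh t3c20.D1 (1 - eh)) (ehi t3c20.Eh t3c20.E1 (1 - eh))) :=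
  NC.of (K := 159) (D := ⟨13, 5, 1, 1⟩) (Box.of 4 (by decide +kernel))
    (by decide +kernel)

theorem t3k20_rI_r1 : NC (fI t3c20 (1 - eh) eh ek (elo t3c20.B0 t3c20.Bh eh) (elo t3c20.D0 t3c20.Dh ek) (elo t3c20.E0 t3c20.Eh ek)) :=
  NC.of (K := 147) (D := ⟨13, 9, 1, 1⟩) (Box.of 4 (by decide +kernel))
    (by decide +kernel)

theorem t3k20_rI_r2 : NC (fI t3c20 eh (1 - eh) ek (ehi t3c20.Bh t3c20.B1 (1 - eh)) (elo t3c20.D0 t3c20.Dh ek) (elo t3c20.E0 t3c20.Eh ek)) :=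
  NC.of (K := 148) (D := ⟨13, 9, 1, 1⟩) (Box.of 4 (by decide +kernel))
    (by decide +kernel)

theorem t3k20_rI_r3 : NC (fI t3c20 (1 - eh) ek eh (elo t3c20.B0 t3c20.Bh ek) (elo t3c20.D0 t3c20.Dh eh) (elo t3c20.E0 t3c20.Eh eh)) :=
  NC.of (K := 142) (D := ⟨13, 5, 1, 1⟩) (Box.of 4 (by decide +kernel))
    (by decide +kernel)

theorem t3k20_rI_r4 : NC (fI t3c20 eh ek (1 - eh) (elo t3c20.B0 t3c20.Bh ek) (ehi t3c20.Dh t3c20.D1 (1 - eh)) (ehi t3c20.Eh t3c20.E1 (1 - eh))) :=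
  NC.of (K := 144) (D := ⟨13, 5, 1, 1⟩) (Box.of 4 (by decide +kernel))
    (by decide +kernel)

theorem t3k20_rJ_r1 : NC (fJ t3c20 (1 - eh) eh ek (elo t3c20.B0 t3c20.Bh eh) (elo t3c20.D0 t3c20.Dh ek) (elo t3c20.E0 t3c20.Eh ek)) :=
  NC.of (K := 88) (D := ⟨7, 5, 1, 1⟩) (Box.of 4 (by decide +kernel))
    (by decide +kernel)

theorem t3k20_rJ_r2 : NC (fJ t3c20 eh (1 - eh) ek (ehi t3c20.Bh t3c20.B1 (1 - eh)) (elo t3c20.D0 t3c20.Dh ek) (elo t3c20.E0 t3c20.Eh ek)) :=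
  NC.of (K := 88) (D := ⟨7, 5, 1, 1⟩) (Box.of 4 (by decide +kernel))
    (by decide +kernel)

theorem t3k20_rJ_r3 : NC (fJ t3c20 (1 - eh) ek eh (elo t3c20.B0 t3c20.Bh ek) (elo t3c20.D0 t3c20.Dh eh) (elo t3c20.E0 t3c20.Eh eh)) :=
  NC.of (K := 85) (D := ⟨7, 3, 1, 1⟩) (Box.of 4 (by decide +kernel))
    (by decide +kernel)

theorem t3k20_rJ_r4 : NC (fJ t3c20 eh ek (1 - eh) (elo t3c20.B0 t3c20.Bh ek) (ehi t3c20.Dh t3c20.D1 (1 - eh)) (ehi t3c20.Eh t3c20.E1 (1 - eh))) :=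
  NC.of (K := 86) (D := ⟨7, 3, 1, 1⟩) (Box.of 4 (by decide +kernel))
    (by decide +kernel)

theorem t3k20_gE_r1 : NC (fE t3c20 t3e20 (1 - eh) eh ek (elo t3c20.B0 t3c20.Bh eh) (elo t3c20.D0 t3c20.Dh ek) (elo t3c20.E0 t3c20.Eh ek)) :=
  NC.of (K := 191) (D := ⟨13, 9, 1, 1⟩) (Box.of 18688 (by decide +kernel))
    (by decide +kernel)

theorem t3k20_gE_r2 : NC (fE t3c20 t3e20 eh (1 - eh) ek (ehi t3c20.Bh t3c20.B1 (1 - eh)) (elo t3c20.D0 t3c20.Dh ek) (elo t3c20.E0 t3c20.Eh ek)) :=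
  NC.of (K := 148) (D := ⟨13, 9, 1, 1⟩) (Box.of 4 (by decide +kernel))
    (by decide +kernel)

theorem t3k20_gE_r3 : NC (fE t3c20 t3e20 (1 - eh) ek eh (elo t3c20.B0 t3c20.Bh ek) (elo t3c20.D0 t3c20.Dh eh) (elo t3c20.E0 t3c20.Eh eh)) :=
  NC.of (K := 189) (D := ⟨13, 7, 1, 1⟩) (Box.of 18688 (by decide +kernel))
    (by decide +kernel)

theorem t3k20_gE_r4 : NC (fE t3c20 t3e20 eh ek (1 - eh) (elo t3c20.B0 t3c20.Bh ek) (ehi t3c20.Dh t3c20.D1 (1 - eh)) (ehi t3c20.Eh t3c20.E1 (1 - eh))) :=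
  NC.of (K := 146) (D := ⟨13, 7, 1, 1⟩) (Box.of 4 (by decide +kernel))
    (by decide +kernel)

theorem t3k20_B0 : NC (kB dW 1 0 t3c20.B0 (tcl t3c20)) :=
  NC.of (K := 120) (D := ⟨1, 1, 1, 9⟩) (Box.of 4 (by decide +kernel))
    (by decide +kernel)

theorem t3k20_E0 : NC (kE dW qW qW.p0 qW.q0 t3c20.E0 (tcl t3c20)) :=
  NC.of (K := 266) (D := ⟨1, 1, 1, 19⟩) (Box.of 4 (by decide +kernel))
    (by decide +kernel)

theorem t3k20_D0 : NC (kD dW qW 1 0 qW.p0 qW.q0 t3c20.D0 (tcl t3c20)) :=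
  NC.of (K := 386) (D := ⟨1, 1, 1, 20⟩) (Box.of 4 (by decide +kernel))
    (by decide +kernel)

theorem t3k20_Bh : NC (kB dW (1 / 2) (1 / 2) t3c20.Bh (tcl t3c20)) :=
  NC.of (K := 123) (D := ⟨1, 1, 1, 9⟩) (Box.of 4 (by decide +kernel))
    (by decide +kernel)

theorem t3k20_Eh : NC (kE dW qW qW.ph qW.qh t3c20.Eh (tcl t3c20)) :=
  NC.of (K := 270) (D := ⟨1, 1, 1, 19⟩) (Box.of 4 (by decide +kernel))
    (by decide +kernel)

theorem t3k20_Dh : NC (kD dW qW (1 / 2) (1 / 2) qW.ph qW.qh t3c20.Dh (tcl t3c20)) :=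
  NC.of (K := 390) (D := ⟨1, 1, 1, 20⟩) (Box.of 4 (by decide +kernel))
    (by decide +kernel)

theorem t3k20_B1 : NC (kB dW 0 (1 / 2) t3c20.B1 (tcl t3c20)) :=
  NC.of (K := 123) (D := ⟨1, 1, 1, 9⟩) (Box.of 4 (by decide +kernel))
    (by decide +kernel)

theorem t3k20_E1 : NC (kE dW qW qW.p1 qW.q1 t3c20.E1 (tcl t3c20)) :=
  NC.of (K := 270) (D := ⟨1, 1, 1, 19⟩) (Box.of 4 (by decide +kernel))
    (by decide +kernel)

theorem t3k20_D1 : NC (kD dW qW 0 (1 / 2) qW.p1 qW.q1 t3c20.D1 (tcl t3c20)) :=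
  NC.of (K := 390) (D := ⟨1, 1, 1, 20⟩) (Box.of 4 (by decide +kernel))
    (by decide +kernel)

theorem t3k20_l : NC (qc t3n20.lb - (1 - vX) * pe (exl t3c20.th) vX ^ 2) :=
  NC.of (K := 122) (D := ⟨10, 1, 1, 1⟩) (Box.of 4 (by decide +kernel))
    (by decide +kernel)

theorem t3k20_n : NC (qc t3n20.nb - vX * (1 - vX) * pe (exl t3c20.th) vX) :=
  NC.of (K := 114) (D := ⟨7, 1, 1, 1⟩) (Box.of 76677152 (by decide +kernel))
    (by decide +kernel)

theorem t3k20_rb : NC (krb t3n20 fW (t1v t3c20)) :=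
  NC.of (K := 218) (D := ⟨1, 1, 1, 16⟩) (Box.of 4 (by decide +kernel))
    (by decide +kernel)

theorem t3k20_kap : NC (kkap dW qW t3n20 (tcl t3c20)) :=
  NC.of (K := 120) (D := ⟨1, 1, 1, 9⟩) (Box.of 4 (by decide +kernel))
    (by decide +kernel)

theorem t3k20_wb2 : NC (qc t3n20.b2 - pe2 kW.QB (vZ * t1v t3c20) (t1v t3c20)) :=
  NC.of (K := 167) (D := ⟨1, 6, 1, 11⟩) (Box.of 291 (by decide +kernel))
    (by decide +kernel)

theorem t3k20_wmb : NC (qc t3n20.Mb - pe zW.mb (t1v t3c20)) :=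
  NC.of (K := 132) (D := ⟨1, 1, 1, 9⟩) (Box.of 291 (by decide +kernel))
    (by decide +kernel)

theorem t3k20_wth : NC (qc (t3c20.th / t3c20.t1) - pe2 zW.Qt (vZ * t1v t3c20) (t1v t3c20)) :=
  NC.of (K := 192) (D := ⟨1, 6, 1, 11⟩) (Box.of 18715 (by decide +kernel))
    (by decide +kernel)

theorem t3k20_wyb : NC (qc t3n20.Yb - (t1v t3c20 - vZ * t1v t3c20) ^ 3 * pe2 yW.QY (vZ * t1v t3c20) (t1v t3c20)) :=
  NC.of (K := 154) (D := ⟨1, 8, 1, 12⟩) (Box.of 4 (by decide +kernel))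
    (by decide +kernel)

theorem t3k20_wmu : NC (qc t3m20 - pe t3al (tcl t3c20) * (1 + hlf * tcl t3c20)) :=
  NC.of (K := 116) (D := ⟨1, 1, 1, 9⟩) (Box.of 4 (by decide +kernel))
    (by decide +kernel)

theorem t3k20_wcj : NC (qc t3c20.C * ((6 - 3 * vX) * (1 - qc t3m20 * vX)) - (6 - 6 * vX + vX ^ 2)) :=
  NC.of (K := 33) (D := ⟨3, 1, 1, 1⟩) (Box.of 4 (by decide +kernel))
    (by decide +kernel)

theorem t3k20_nd1 : NC (pe t3r20.d1 (t1v t3c20)) :=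
  NC.of (K := 83) (D := ⟨1, 1, 1, 7⟩) (Box.of 4 (by decide +kernel))
    (by decide +kernel)

theorem t3k20_nd2 : NC (pe t3r20.d2 (t1v t3c20)) :=
  NC.of (K := 84) (D := ⟨1, 1, 1, 7⟩) (Box.of 4 (by decide +kernel))
    (by decide +kernel)

theorem t3k20_ndy : NC (pe t3r20.dy (t1v t3c20)) :=
  NC.of (K := 88) (D := ⟨1, 1, 1, 7⟩) (Box.of 4 (by decide +kernel))
    (by decide +kernel)

theorem t3k20_nt1 : NC (pe t3r20.t1 (t1v t3c20)) :=
  NC.of (K := 91) (D := ⟨1, 1, 1, 7⟩) (Box.of 4 (by decide +kernel))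
    (by decide +kernel)

theorem t3k20_nt2 : NC (pe t3r20.t2 (t1v t3c20)) :=
  NC.of (K := 83) (D := ⟨1, 1, 1, 7⟩) (Box.of 4 (by decide +kernel))
    (by decide +kernel)

theorem t3k20_nty : NC (pe t3r20.ty (t1v t3c20)) :=
  NC.of (K := 92) (D := ⟨1, 1, 1, 7⟩) (Box.of 4 (by decide +kernel))
    (by decide +kernel)

theorem t3k20_nhz : NC (pe t3r20.hz (t1v t3c20)) :=
  NC.of (K := 116) (D := ⟨1, 1, 1, 7⟩) (Box.of 18659 (by decide +kernel))
    (by decide +kernel)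

theorem t3k20_xi : NC (eXi fW t3c20 t3e20 t3r20 (t1v t3c20)) :=
  NC.of (K := 352) (D := ⟨1, 1, 1, 22⟩) (Box.of 4 (by decide +kernel))
    (by decide +kernel)

theorem t3k20_om : NC (eOm fW t3r20 (t1v t3c20)) :=
  NC.of (K := 211) (D := ⟨1, 1, 1, 16⟩) (Box.of 4 (by decide +kernel))
    (by decide +kernel)

theorem t3k20_fin : NC (eFin dW t3c20 t3n20 t3r20 t3h20 (tcl t3c20)) :=
  NC.of (K := 264) (D := ⟨1, 1, 1, 14⟩) (Box.of 4 (by decide +kernel))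
    (by decide +kernel)

theorem t3k20_xdl : NC (qc t3e20.dl - pe t3d20.l.dl t3d20.eU) :=
  NC.of (K := 70) (D := ⟨1, 4, 1, 1⟩) (Box.of 4 (by decide +kernel))
    (by decide +kernel)

theorem t3k20_xeY : NC (qc t3e20.eY - pe (e4l t3d20.l.z) t3d20.eU) :=
  NC.of (K := 276) (D := ⟨1, 13, 1, 1⟩) (Box.of 4 (by decide +kernel))
    (by decide +kernel)

theorem t3k20_xgr : NC (qc t3d20.ga * ((1 + qc (3 / 5) * vX) * (1 + (t3d20.eg + hlf * t3d20.eg ^ 2))) + qc t3d20.gb - pe2 t3GR vX t3d20.eU) :=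
  NC.of (K := 251) (D := ⟨4, 11, 1, 1⟩) (Box.of 1181728 (by decide +kernel))
    (by decide +kernel)

theorem t3k20_xhr : NC (qc t3d20.hb - pe2 t3HR vX t3d20.eU) :=
  NC.of (K := 251) (D := ⟨3, 12, 1, 1⟩) (Box.of 4 (by decide +kernel))
    (by decide +kernel)

theorem t3k20_xgs : NC (pe t3d20.gs t3d20.e1 - qc (8 / 5) * pe (e4l (ladd t3d20.ls.z t3d20.ls.dl)) t3d20.e1) :=
  NC.of (K := 284) (D := ⟨1, 1, 1, 13⟩) (Box.of 4 (by decide +kernel))
    (by decide +kernel)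

theorem t3k20_xd1 : NC (pe t3d20.d1 t3d20.e1 - t3d20.eA t3d20.eU t3d20.e1) :=
  NC.of (K := 277) (D := ⟨1, 12, 1, 12⟩) (Box.of 4 (by decide +kernel))
    (by decide +kernel)

theorem t3k20_xd2 : NC (pe t3d20.d2 t3d20.e1 - t3d20.eB t3d20.eU t3d20.e1) :=
  NC.of (K := 297) (D := ⟨1, 12, 1, 12⟩) (Box.of 291 (by decide +kernel))
    (by decide +kernel)

theorem t3k20_xt1 : NC (pe t3d20.t1 t3d20.e1 - t3d20.eAT t3d20.eU t3d20.e1) :=
  NC.of (K := 453) (D := ⟨1, 19, 1, 19⟩) (Box.of 4 (by decide +kernel))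
    (by decide +kernel)

theorem t3k20_xt2 : NC (pe t3d20.t2 t3d20.e1 - t3d20.eBT t3d20.eU t3d20.e1) :=
  NC.of (K := 486) (D := ⟨1, 19, 1, 19⟩) (Box.of 291 (by decide +kernel))
    (by decide +kernel)

theorem t3k20_xdy : NC (pe t3d20.dy t3d20.e1 - t3d20.eSD t3d20.eU t3d20.e1) :=
  NC.of (K := 424) (D := ⟨1, 18, 1, 12⟩) (Box.of 4 (by decide +kernel))
    (by decide +kernel)

theorem t3k20_xty : NC (pe t3d20.ty t3d20.e1 - t3d20.eST t3d20.eU t3d20.e1) :=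
  NC.of (K := 640) (D := ⟨1, 26, 1, 26⟩) (Box.of 4 (by decide +kernel))
    (by decide +kernel)

theorem t3k20_xd1s : NC (pe t3r20.d1 (t1v t3c20) - pe t3d20.d1 (Xcd.ew zW t3c20)) :=
  NC.of (K := 761) (D := ⟨1, 1, 1, 55⟩) (Box.of 4 (by decide +kernel))
    (by decide +kernel)

theorem t3k20_xd2s : NC (pe t3r20.d2 (t1v t3c20) - pe t3d20.d2 (Xcd.ew zW t3c20)) :=
  NC.of (K := 773) (D := ⟨1, 1, 1, 55⟩) (Box.of 4 (by decide +kernel))
    (by decide +kernel)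

theorem t3k20_xt1s : NC (pe t3r20.t1 (t1v t3c20) - pe t3d20.t1 (Xcd.ew zW t3c20)) :=
  NC.of (K := 777) (D := ⟨1, 1, 1, 55⟩) (Box.of 4 (by decide +kernel))
    (by decide +kernel)

theorem t3k20_xt2s : NC (pe t3r20.t2 (t1v t3c20) - pe t3d20.t2 (Xcd.ew zW t3c20)) :=
  NC.of (K := 776) (D := ⟨1, 1, 1, 55⟩) (Box.of 4 (by decide +kernel))
    (by decide +kernel)

theorem t3k20_xdys : NC (pe t3r20.dy (t1v t3c20) - pe t3d20.dy (Xcd.ew zW t3c20)) :=
  NC.of (K := 772) (D := ⟨1, 1, 1, 55⟩) (Box.of 4 (by decide +kernel))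
    (by decide +kernel)

theorem t3k20_xtys : NC (pe t3r20.ty (t1v t3c20) - pe t3d20.ty (Xcd.ew zW t3c20)) :=
  NC.of (K := 777) (D := ⟨1, 1, 1, 55⟩) (Box.of 4 (by decide +kernel))
    (by decide +kernel)

theorem t3k20_xhz : NC (pe t3r20.hz (t1v t3c20) - pe t3d20.c.dR (Xcd.ew zW t3c20)) :=
  NC.of (K := 653) (D := ⟨1, 1, 1, 46⟩) (Box.of 4 (by decide +kernel))
    (by decide +kernel)

theorem t3f20_ok : t3f20.ok V2L.y9 V2L.k9 V2L.nb V2L.la (10 ^ 30) 32 = true := by decide +kernel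

theorem t3k20_sg : t3c20.Sg := by
  constructor <;> decide +kernel

theorem t3k20_rgs : t3c20.Rgs where
  M := ⟨t3k20_M_r1, t3k20_M_r2, t3k20_M_r3, t3k20_M_r4⟩
  r0 := ⟨t3k20_r0_r1, t3k20_r0_r2, t3k20_r0_r3, t3k20_r0_r4⟩
  r1 := ⟨t3k20_r1_r1, t3k20_r1_r2, t3k20_r1_r3, t3k20_r1_r4⟩
  r2 := ⟨t3k20_r2_r1, t3k20_r2_r2, t3k20_r2_r3, t3k20_r2_r4⟩
  rc := ⟨t3k20_rc_r1, t3k20_rc_r2, t3k20_rc_r3, t3k20_rc_r4⟩
  rI := ⟨t3k20_rI_r1, t3k20_rI_r2, t3k20_rI_r3, t3k20_rI_r4⟩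
  rJ := ⟨t3k20_rJ_r1, t3k20_rJ_r2, t3k20_rJ_r3, t3k20_rJ_r4⟩

theorem t3k20_xn : t3e20.Ok t3c20 where
  lm := by decide +kernel
  dl0 := by decide +kernel
  dl1 := by decide +kernel
  e2 := by decide +kernel
  eY := by decide +kernel
  gE := ⟨t3k20_gE_r1, t3k20_gE_r2, t3k20_gE_r3, t3k20_gE_r4⟩

theorem t3k20_vl : t3c20.Vl dW qW where
  bt := by decide +kernel
  B0 := t3k20_B0
  E0 := t3k20_E0
  D0 := t3k20_D0
  Bh := t3k20_Bh
  Eh := t3k20_Eh
  Dh := t3k20_Dh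
  B1 := t3k20_B1
  E1 := t3k20_E1
  D1 := t3k20_D1

theorem t3k20_rat : t3n20.Rat t3c20 := by
  constructor <;> decide +kernel

theorem t3k20_ck : t3n20.Ck t3c20 := ⟨t3k20_l, t3k20_n⟩

theorem t3k20_fck : t3n20.Fck dW qW fW t3c20 := ⟨t3k20_rb, t3k20_kap⟩

theorem t3k20_w : Wcl zW kW yW t3al t3c20 t3n20 t3m20 where
  b2 := t3k20_wb2
  mb := t3k20_wmb
  th := t3k20_wth
  yb := t3k20_wyb
  mu := t3k20_wmu
  cj := t3k20_wcj
  mt1 := by decide +kernel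
  mt2 := by decide +kernel

theorem t3k20_ok : CelOk dW qW fW t3c20 t3n20 where
  s := t3k20_sg
  r := t3k20_rgs
  v := t3k20_vl
  rt := t3k20_rat
  k := t3k20_ck
  fc := t3k20_fck
  q01 := by decide +kernel
  q12 := by decide +kernel
  h2 := by decide +kernel

theorem t3k20_xr : t3r20.Ok fW t3c20 t3e20 where
  sD := by decide +kernel
  sT := by decide +kernel
  nd1 := t3k20_nd1
  nd2 := t3k20_nd2
  ndy := t3k20_ndy
  nt1 := t3k20_nt1
  nt2 := t3k20_nt2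
  nty := t3k20_nty
  nhz := t3k20_nhz
  xi := t3k20_xi
  om := t3k20_om

theorem t3k20_X : t3d20.Ck t3GR t3HR zW t3c20 t3e20 t3r20 where
  u0 := by decide +kernel
  u01 := by decide +kernel
  ul := by decide +kernel
  us := by decide +kernel
  uc := by decide +kernel
  ga0 := by decide +kernel
  kp0 := by decide +kernel
  lm := by decide +kernel
  dl := t3k20_xdl
  eY := t3k20_xeY
  gr := t3k20_xgr
  hr := t3k20_xhr
  gs := t3k20_xgs
  d1 := t3k20_xd1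
  d2 := t3k20_xd2
  t1 := t3k20_xt1
  t2 := t3k20_xt2
  dy := t3k20_xdy
  ty := t3k20_xty
  d1s := t3k20_xd1s
  d2s := t3k20_xd2s
  t1s := t3k20_xt1s
  t2s := t3k20_xt2s
  dys := t3k20_xdys
  tys := t3k20_xtys
  hz := t3k20_xhz

end Pool.Agent.RX.RCN.K
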