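import Pool.Agent.RX.RCN.T3D
import Pool.Agent.RX.RCN.T3Wq
import Pool.Agent.RX.RCN.T3X9
import Pool.Agent.RX.RCN.VLd

/-! Certificates (generated). -/

set_option autoImplicit false

namespace Pool.Agent.RX.RCN.K

open Set Pool.Agent.RX.RCM9 Pool.Agent.RX.RCM9.Bern Pool.Agent.RX.RCM9.Pk Xce

def t3c21 : Cel where
  t0 := 201 / 500
  t1 := 41 / 100
  C := 4097 / 4096
  th := 843 / 2048
  B0 := 2185 / 2048
  Bh := 2363 / 2048
  B1 := 2297 / 2048
  D0 := 1313 / 4096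
  Dh := 33 / 128
  D1 := 503 / 2048
  E0 := 2901 / 524288
  Eh := 19321 / 4194304
  E1 := 9213 / 2097152
  Q0 := 1095 / 1024
  Q1 := 1095 / 1024
  Q2 := 549 / 512
  Ac := 1095 / 1024
  gI := 1095 / 1024
  J := 16777 / 2097152

def t3n21 : Chn where
  lb := 513 / 512
  nb := 319 / 1024
  Mb := 1031 / 1024
  b2 := 65 / 64
  Yb := 35 / 4096
  E2 := 4167 / 4096
  e1 := 1273 / 1024
  Z1 := 563 / 512
  Z2 := 629 / 1024
  KB := 529 / 512
  cb := 1073 / 1024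
  rb := 361 / 1024
  om := 263 / 256
  fb := 129 / 128
  kap := 4163 / 4096
  ab := 1029 / 1024

def t3e21 : Xge where
  lm := 3 / 5
  dl := 1649 / 4096
  e2 := 1529 / 16384
  eY := 2067 / 2048
  gE := 571 / 512

def t3r21 : Xr where
  d1 := [1878039 / 100000000, 30341 / 12500000, 951439 / 50000000, 297001 / 12500000, 1132473 /
    25000000, -8164851 / 100000000, 169817 / 1562500]
  d2 := [227 / 2500000, 686153 / 50000000, 1879339 / 20000000, -7543581 / 50000000, 24631903 /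
    20000000, -30456219 / 10000000, 132541519 / 50000000]
  dy := [7188707 / 50000000, 84663 / 2000000, 5235233 / 25000000, 61444551 / 100000000, -100017783
    / 100000000, 15756751 / 25000000, 712323 / 50000000]
  t1 := [11675741 / 100000000, -5351197 / 12500000, 50066861 / 100000000, -16599959 / 12500000,
    841261879 / 100000000, -1976159951 / 100000000, 69910889 / 4000000]
  t2 := [2652531 / 100000000, -100979 / 1000000, 429827 / 2500000, -2972579 / 20000000, 42170483 /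
    20000000, -132594931 / 25000000, 448895063 / 100000000]
  ty := [72030573 / 100000000, -311978221 / 100000000, 106568987 / 25000000, 148891967 / 25000000,
    -1912552579 / 100000000, 995984563 / 50000000, -26331117 / 3125000]
  hz := [1589357 / 12500000, -4383441 / 25000000, -235038251 / 50000000, 834911917 / 50000000,
    -66614271 / 10000000, -965558659 / 50000000, -9993637 / 50000000]
  om := [100396701 / 100000000, 6390231 / 6250000, -691935043 / 50000000, 2710315021 / 50000000,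
    -2979889303 / 25000000, 2673122921 / 12500000, -31855464029 / 100000000, 15407410923 /
    50000000, -1431799 / 10000]
  sD := 565 / 256
  sT := 501 / 256
  xi := [5894787 / 100000000, 3298873 / 6250000, -56334253 / 25000000, -121407689 / 50000000,
    2623515661 / 100000000, -1969223951 / 100000000, -3332454989 / 50000000, 5483461389 /
    50000000, -455761811 / 20000000, -4929574161 / 100000000]

def t3f21 : Dl where
  Ca := 4032643 / 10000000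
  Cv := 411303 / 1000000
  k1 := 1883181 / 2000000
  ks := 184699 / 200000
  dd := 0
  kp := 1 / 2500000
  e := [999999699507 / 1000000000000, -1331496106351 / 1000000000000, 1389068042831 /
    1000000000000, -1284435836151 / 1000000000000, 1132216420201 / 1000000000000, -935698209523
    / 1000000000000, 138986596607 / 200000000000, -403556223953 / 1000000000000, 128650994013 /
    1000000000000]
  j1 := [-536429 / 200000000, -2263911903 / 250000000, 16533492341 / 200000000, -179281425839 /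
    500000000, 452289595219 / 500000000, -54232114939 / 40000000, 571309347307 / 500000000,
    -86240218083 / 200000000]
  nu := [79586291 / 1000000000, -108599561 / 500000000, 49095481 / 125000000, 51555229 /
    1000000000, -445453681 / 1000000000, 371458381 / 200000000, -932960501 / 500000000]
  k2 := [461748209 / 500000000, 100298131 / 500000000, -340823087 / 1000000000, -1607049 /
    12500000, 251750237 / 500000000, -1811770947 / 1000000000, 3692793 / 2000000]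
  dR := [507579 / 4000000, -17484489 / 100000000, -233534663 / 50000000, 1653018519 / 100000000,
    -324951963 / 50000000, -1922294509 / 100000000]

def t3d21 : Xce where
  u0 := 80753 / 200000
  u1 := 411303 / 1000000
  l := V2L.y9
  y := t3z9
  j := t3j9
  i := t3i9
  ls := t3y9
  k := V2L.k9
  c := t3f21
  ga := 9371 / 500000
  gb := -139 / 20000
  hb := 8571 / 100000
  gs := [40000739 / 25000000, 29999991 / 12500000, 180002719 / 100000000, 79561427 / 100000000,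
    13422573 / 50000000, -12560961 / 100000000, -1130181 / 20000000]
  d1 := [234593 / 12500000, 243831 / 100000000, 28697 / 1562500, 736379 / 25000000, 12377 /
    781250, -384291 / 25000000, 8077 / 156250]
  d2 := [491 / 6250000, 343339 / 25000000, 9184077 / 100000000, -13272831 / 100000000, 22696059 /
    20000000, -28157671 / 10000000, 244776663 / 100000000]
  dy := [2873267 / 20000000, 2118373 / 50000000, 20324813 / 100000000, 13228537 / 20000000, -77757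
    / 62500, 2985591 / 2500000, -11716161 / 25000000]
  t1 := [2333979 / 20000000, -21338507 / 50000000, 49724897 / 100000000, -1640223 / 1250000,
    829075537 / 100000000, -1941025221 / 100000000, 427702921 / 25000000]
  t2 := [662787 / 25000000, -10060717 / 100000000, 1690937 / 10000000, -6425339 / 50000000,
    39859949 / 20000000, -50237329 / 10000000, 423995699 / 100000000]
  ty := [71994403 / 100000000, -15549651 / 5000000, 422942799 / 100000000, 298560119 / 50000000,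
    -240211707 / 12500000, 81347771 / 4000000, -888703461 / 100000000]

def t3m21 : ℚ := 1643 / 4096

def t3h21 : ℚ := 249 / 500

theorem t3k21_M_r1 : NC (fM t3c21 (1 - eh) eh ek (elo t3c21.B0 t3c21.Bh eh) (elo t3c21.D0 t3c21.Dh ek) (elo t3c21.E0 t3c21.Eh ek)) :=
  NC.of (K := 32) (D := ⟨4, 3, 1, 1⟩) (Box.of 4 (by decide +kernel))
    (by decide +kernel)

theorem t3k21_M_r2 : NC (fM t3c21 eh (1 - eh) ek (ehi t3c21.Bh t3c21.B1 (1 - eh)) (elo t3c21.D0 t3c21.Dh ek) (elo t3c21.E0 t3c21.Eh ek)) :=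
  NC.of (K := 32) (D := ⟨4, 3, 1, 1⟩) (Box.of 4 (by decide +kernel))
    (by decide +kernel)

theorem t3k21_M_r3 : NC (fM t3c21 (1 - eh) ek eh (elo t3c21.B0 t3c21.Bh ek) (elo t3c21.D0 t3c21.Dh eh) (elo t3c21.E0 t3c21.Eh eh)) :=
  NC.of (K := 31) (D := ⟨4, 2, 1, 1⟩) (Box.of 4 (by decide +kernel))
    (by decide +kernel)

theorem t3k21_M_r4 : NC (fM t3c21 eh ek (1 - eh) (elo t3c21.B0 t3c21.Bh ek) (ehi t3c21.Dh t3c21.D1 (1 - eh)) (ehi t3c21.Eh t3c21.E1 (1 - eh))) :=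
  NC.of (K := 30) (D := ⟨4, 2, 1, 1⟩) (Box.of 4 (by decide +kernel))
    (by decide +kernel)

theorem t3k21_r0_r1 : NC (f0 t3c21 (1 - eh) eh ek (elo t3c21.B0 t3c21.Bh eh) (elo t3c21.D0 t3c21.Dh ek) (elo t3c21.E0 t3c21.Eh ek)) :=
  NC.of (K := 157) (D := ⟨13, 9, 1, 1⟩) (Box.of 4 (by decide +kernel))
    (by decide +kernel)

theorem t3k21_r0_r2 : NC (f0 t3c21 eh (1 - eh) ek (ehi t3c21.Bh t3c21.B1 (1 - eh)) (elo t3c21.D0 t3c21.Dh ek) (elo t3c21.E0 t3c21.Eh ek)) :=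
  NC.of (K := 157) (D := ⟨13, 9, 1, 1⟩) (Box.of 4 (by decide +kernel))
    (by decide +kernel)

theorem t3k21_r0_r3 : NC (f0 t3c21 (1 - eh) ek eh (elo t3c21.B0 t3c21.Bh ek) (elo t3c21.D0 t3c21.Dh eh) (elo t3c21.E0 t3c21.Eh eh)) :=
  NC.of (K := 152) (D := ⟨13, 5, 1, 1⟩) (Box.of 4 (by decide +kernel))
    (by decide +kernel)

theorem t3k21_r0_r4 : NC (f0 t3c21 eh ek (1 - eh) (elo t3c21.B0 t3c21.Bh ek) (ehi t3c21.Dh t3c21.D1 (1 - eh)) (ehi t3c21.Eh t3c21.E1 (1 - eh))) :=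
  NC.of (K := 149) (D := ⟨13, 5, 1, 1⟩) (Box.of 4 (by decide +kernel))
    (by decide +kernel)

theorem t3k21_r1_r1 : NC (f1 t3c21 (1 - eh) eh ek (elo t3c21.B0 t3c21.Bh eh) (elo t3c21.D0 t3c21.Dh ek) (elo t3c21.E0 t3c21.Eh ek)) :=
  NC.of (K := 230) (D := ⟨16, 9, 1, 1⟩) (Box.of 4 (by decide +kernel))
    (by decide +kernel)

theorem t3k21_r1_r2 : NC (f1 t3c21 eh (1 - eh) ek (ehi t3c21.Bh t3c21.B1 (1 - eh)) (elo t3c21.D0 t3c21.Dh ek) (elo t3c21.E0 t3c21.Eh ek)) :=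
  NC.of (K := 231) (D := ⟨16, 9, 1, 1⟩) (Box.of 4 (by decide +kernel))
    (by decide +kernel)

theorem t3k21_r1_r3 : NC (f1 t3c21 (1 - eh) ek eh (elo t3c21.B0 t3c21.Bh ek) (elo t3c21.D0 t3c21.Dh eh) (elo t3c21.E0 t3c21.Eh eh)) :=
  NC.of (K := 233) (D := ⟨16, 12, 1, 1⟩) (Box.of 4 (by decide +kernel))
    (by decide +kernel)

theorem t3k21_r1_r4 : NC (f1 t3c21 eh ek (1 - eh) (elo t3c21.B0 t3c21.Bh ek) (ehi t3c21.Dh t3c21.D1 (1 - eh)) (ehi t3c21.Eh t3c21.E1 (1 - eh))) :=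
  NC.of (K := 234) (D := ⟨16, 12, 1, 1⟩) (Box.of 4 (by decide +kernel))
    (by decide +kernel)

theorem t3k21_r2_r1 : NC (f2 t3c21 (1 - eh) eh ek (elo t3c21.B0 t3c21.Bh eh) (elo t3c21.D0 t3c21.Dh ek) (elo t3c21.E0 t3c21.Eh ek)) :=
  NC.of (K := 233) (D := ⟨16, 11, 1, 1⟩) (Box.of 4 (by decide +kernel))
    (by decide +kernel)

theorem t3k21_r2_r2 : NC (f2 t3c21 eh (1 - eh) ek (ehi t3c21.Bh t3c21.B1 (1 - eh)) (elo t3c21.D0 t3c21.Dh ek) (elo t3c21.E0 t3c21.Eh ek)) :=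
  NC.of (K := 234) (D := ⟨16, 11, 1, 1⟩) (Box.of 4 (by decide +kernel))
    (by decide +kernel)

theorem t3k21_r2_r3 : NC (f2 t3c21 (1 - eh) ek eh (elo t3c21.B0 t3c21.Bh ek) (elo t3c21.D0 t3c21.Dh eh) (elo t3c21.E0 t3c21.Eh eh)) :=
  NC.of (K := 234) (D := ⟨16, 12, 1, 1⟩) (Box.of 4 (by decide +kernel))
    (by decide +kernel)

theorem t3k21_r2_r4 : NC (f2 t3c21 eh ek (1 - eh) (elo t3c21.B0 t3c21.Bh ek) (ehi t3c21.Dh t3c21.D1 (1 - eh)) (ehi t3c21.Eh t3c21.E1 (1 - eh))) :=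
  NC.of (K := 235) (D := ⟨16, 12, 1, 1⟩) (Box.of 4 (by decide +kernel))
    (by decide +kernel)

theorem t3k21_rc_r1 : NC (fc t3c21 (1 - eh) eh ek (elo t3c21.B0 t3c21.Bh eh) (elo t3c21.D0 t3c21.Dh ek) (elo t3c21.E0 t3c21.Eh ek)) :=
  NC.of (K := 157) (D := ⟨13, 9, 1, 1⟩) (Box.of 4 (by decide +kernel))
    (by decide +kernel)

theorem t3k21_rc_r2 : NC (fc t3c21 eh (1 - eh) ek (ehi t3c21.Bh t3c21.B1 (1 - eh)) (elo t3c21.D0 t3c21.Dh ek) (elo t3c21.E0 t3c21.Eh ek)) :=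
  NC.of (K := 157) (D := ⟨13, 9, 1, 1⟩) (Box.of 4 (by decide +kernel))
    (by decide +kernel)

theorem t3k21_rc_r3 : NC (fc t3c21 (1 - eh) ek eh (elo t3c21.B0 t3c21.Bh ek) (elo t3c21.D0 t3c21.Dh eh) (elo t3c21.E0 t3c21.Eh eh)) :=
  NC.of (K := 152) (D := ⟨13, 5, 1, 1⟩) (Box.of 4 (by decide +kernel))
    (by decide +kernel)

theorem t3k21_rc_r4 : NC (fc t3c21 eh ek (1 - eh) (elo t3c21.B0 t3c21.Bh ek) (ehi t3c21.Dh t3c21.D1 (1 - eh)) (ehi t3c21.Eh t3c21.E1 (1 - eh))) :=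
  NC.of (K := 149) (D := ⟨13, 5, 1, 1⟩) (Box.of 4 (by decide +kernel))
    (by decide +kernel)

theorem t3k21_rI_r1 : NC (fI t3c21 (1 - eh) eh ek (elo t3c21.B0 t3c21.Bh eh) (elo t3c21.D0 t3c21.Dh ek) (elo t3c21.E0 t3c21.Eh ek)) :=
  NC.of (K := 138) (D := ⟨13, 9, 1, 1⟩) (Box.of 4 (by decide +kernel))
    (by decide +kernel)

theorem t3k21_rI_r2 : NC (fI t3c21 eh (1 - eh) ek (ehi t3c21.Bh t3c21.B1 (1 - eh)) (elo t3c21.D0 t3c21.Dh ek) (elo t3c21.E0 t3c21.Eh ek)) :=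
  NC.of (K := 138) (D := ⟨13, 9, 1, 1⟩) (Box.of 4 (by decide +kernel))
    (by decide +kernel)

theorem t3k21_rI_r3 : NC (fI t3c21 (1 - eh) ek eh (elo t3c21.B0 t3c21.Bh ek) (elo t3c21.D0 t3c21.Dh eh) (elo t3c21.E0 t3c21.Eh eh)) :=
  NC.of (K := 133) (D := ⟨13, 5, 1, 1⟩) (Box.of 4 (by decide +kernel))
    (by decide +kernel)

theorem t3k21_rI_r4 : NC (fI t3c21 eh ek (1 - eh) (elo t3c21.B0 t3c21.Bh ek) (ehi t3c21.Dh t3c21.D1 (1 - eh)) (ehi t3c21.Eh t3c21.E1 (1 - eh))) :=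
  NC.of (K := 130) (D := ⟨13, 5, 1, 1⟩) (Box.of 4 (by decide +kernel))
    (by decide +kernel)

theorem t3k21_rJ_r1 : NC (fJ t3c21 (1 - eh) eh ek (elo t3c21.B0 t3c21.Bh eh) (elo t3c21.D0 t3c21.Dh ek) (elo t3c21.E0 t3c21.Eh ek)) :=
  NC.of (K := 85) (D := ⟨7, 5, 1, 1⟩) (Box.of 4 (by decide +kernel))
    (by decide +kernel)

theorem t3k21_rJ_r2 : NC (fJ t3c21 eh (1 - eh) ek (ehi t3c21.Bh t3c21.B1 (1 - eh)) (elo t3c21.D0 t3c21.Dh ek) (elo t3c21.E0 t3c21.Eh ek)) :=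
  NC.of (K := 85) (D := ⟨7, 5, 1, 1⟩) (Box.of 4 (by decide +kernel))
    (by decide +kernel)

theorem t3k21_rJ_r3 : NC (fJ t3c21 (1 - eh) ek eh (elo t3c21.B0 t3c21.Bh ek) (elo t3c21.D0 t3c21.Dh eh) (elo t3c21.E0 t3c21.Eh eh)) :=
  NC.of (K := 82) (D := ⟨7, 3, 1, 1⟩) (Box.of 4 (by decide +kernel))
    (by decide +kernel)

theorem t3k21_rJ_r4 : NC (fJ t3c21 eh ek (1 - eh) (elo t3c21.B0 t3c21.Bh ek) (ehi t3c21.Dh t3c21.D1 (1 - eh)) (ehi t3c21.Eh t3c21.E1 (1 - eh))) :=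
  NC.of (K := 80) (D := ⟨7, 3, 1, 1⟩) (Box.of 4 (by decide +kernel))
    (by decide +kernel)

theorem t3k21_gE_r1 : NC (fE t3c21 t3e21 (1 - eh) eh ek (elo t3c21.B0 t3c21.Bh eh) (elo t3c21.D0 t3c21.Dh ek) (elo t3c21.E0 t3c21.Eh ek)) :=
  NC.of (K := 182) (D := ⟨13, 9, 1, 1⟩) (Box.of 18688 (by decide +kernel))
    (by decide +kernel)

theorem t3k21_gE_r2 : NC (fE t3c21 t3e21 eh (1 - eh) ek (ehi t3c21.Bh t3c21.B1 (1 - eh)) (elo t3c21.D0 t3c21.Dh ek) (elo t3c21.E0 t3c21.Eh ek)) :=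
  NC.of (K := 138) (D := ⟨13, 9, 1, 1⟩) (Box.of 4 (by decide +kernel))
    (by decide +kernel)

theorem t3k21_gE_r3 : NC (fE t3c21 t3e21 (1 - eh) ek eh (elo t3c21.B0 t3c21.Bh ek) (elo t3c21.D0 t3c21.Dh eh) (elo t3c21.E0 t3c21.Eh eh)) :=
  NC.of (K := 180) (D := ⟨13, 7, 1, 1⟩) (Box.of 18688 (by decide +kernel))
    (by decide +kernel)

theorem t3k21_gE_r4 : NC (fE t3c21 t3e21 eh ek (1 - eh) (elo t3c21.B0 t3c21.Bh ek) (ehi t3c21.Dh t3c21.D1 (1 - eh)) (ehi t3c21.Eh t3c21.E1 (1 - eh))) :=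
  NC.of (K := 132) (D := ⟨13, 7, 1, 1⟩) (Box.of 4 (by decide +kernel))
    (by decide +kernel)

theorem t3k21_B0 : NC (kB dW 1 0 t3c21.B0 (tcl t3c21)) :=
  NC.of (K := 112) (D := ⟨1, 1, 1, 9⟩) (Box.of 4 (by decide +kernel))
    (by decide +kernel)

theorem t3k21_E0 : NC (kE dW qW qW.p0 qW.q0 t3c21.E0 (tcl t3c21)) :=
  NC.of (K := 248) (D := ⟨1, 1, 1, 19⟩) (Box.of 4 (by decide +kernel))
    (by decide +kernel)

theorem t3k21_D0 : NC (kD dW qW 1 0 qW.p0 qW.q0 t3c21.D0 (tcl t3c21)) :=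
  NC.of (K := 367) (D := ⟨1, 1, 1, 20⟩) (Box.of 4 (by decide +kernel))
    (by decide +kernel)

theorem t3k21_Bh : NC (kB dW (1 / 2) (1 / 2) t3c21.Bh (tcl t3c21)) :=
  NC.of (K := 115) (D := ⟨1, 1, 1, 9⟩) (Box.of 4 (by decide +kernel))
    (by decide +kernel)

theorem t3k21_Eh : NC (kE dW qW qW.ph qW.qh t3c21.Eh (tcl t3c21)) :=
  NC.of (K := 252) (D := ⟨1, 1, 1, 19⟩) (Box.of 4 (by decide +kernel))
    (by decide +kernel)

theorem t3k21_Dh : NC (kD dW qW (1 / 2) (1 / 2) qW.ph qW.qh t3c21.Dh (tcl t3c21)) :=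
  NC.of (K := 371) (D := ⟨1, 1, 1, 20⟩) (Box.of 4 (by decide +kernel))
    (by decide +kernel)

theorem t3k21_B1 : NC (kB dW 0 (1 / 2) t3c21.B1 (tcl t3c21)) :=
  NC.of (K := 115) (D := ⟨1, 1, 1, 9⟩) (Box.of 4 (by decide +kernel))
    (by decide +kernel)

theorem t3k21_E1 : NC (kE dW qW qW.p1 qW.q1 t3c21.E1 (tcl t3c21)) :=
  NC.of (K := 252) (D := ⟨1, 1, 1, 19⟩) (Box.of 4 (by decide +kernel))
    (by decide +kernel)

theorem t3k21_D1 : NC (kD dW qW 0 (1 / 2) qW.p1 qW.q1 t3c21.D1 (tcl t3c21)) :=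
  NC.of (K := 371) (D := ⟨1, 1, 1, 20⟩) (Box.of 4 (by decide +kernel))
    (by decide +kernel)

theorem t3k21_l : NC (qc t3n21.lb - (1 - vX) * pe (exl t3c21.th) vX ^ 2) :=
  NC.of (K := 114) (D := ⟨10, 1, 1, 1⟩) (Box.of 4 (by decide +kernel))
    (by decide +kernel)

theorem t3k21_n : NC (qc t3n21.nb - vX * (1 - vX) * pe (exl t3c21.th) vX) :=
  NC.of (K := 98) (D := ⟨7, 1, 1, 1⟩) (Box.of 1196064 (by decide +kernel))
    (by decide +kernel)

theorem t3k21_rb : NC (krb t3n21 fW (t1v t3c21)) :=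
  NC.of (K := 185) (D := ⟨1, 1, 1, 16⟩) (Box.of 4 (by decide +kernel))
    (by decide +kernel)

theorem t3k21_kap : NC (kkap dW qW t3n21 (tcl t3c21)) :=
  NC.of (K := 112) (D := ⟨1, 1, 1, 9⟩) (Box.of 4 (by decide +kernel))
    (by decide +kernel)

theorem t3k21_wb2 : NC (qc t3n21.b2 - pe2 kW.QB (vZ * t1v t3c21) (t1v t3c21)) :=
  NC.of (K := 144) (D := ⟨1, 6, 1, 11⟩) (Box.of 291 (by decide +kernel))
    (by decide +kernel)

theorem t3k21_wmb : NC (qc t3n21.Mb - pe zW.mb (t1v t3c21)) :=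
  NC.of (K := 114) (D := ⟨1, 1, 1, 9⟩) (Box.of 291 (by decide +kernel))
    (by decide +kernel)

theorem t3k21_wth : NC (qc (t3c21.th / t3c21.t1) - pe2 zW.Qt (vZ * t1v t3c21) (t1v t3c21)) :=
  NC.of (K := 168) (D := ⟨1, 6, 1, 11⟩) (Box.of 18715 (by decide +kernel))
    (by decide +kernel)

theorem t3k21_wyb : NC (qc t3n21.Yb - (t1v t3c21 - vZ * t1v t3c21) ^ 3 * pe2 yW.QY (vZ * t1v t3c21) (t1v t3c21)) :=
  NC.of (K := 129) (D := ⟨1, 8, 1, 12⟩) (Box.of 4 (by decide +kernel))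
    (by decide +kernel)

theorem t3k21_wmu : NC (qc t3m21 - pe t3al (tcl t3c21) * (1 + hlf * tcl t3c21)) :=
  NC.of (K := 108) (D := ⟨1, 1, 1, 9⟩) (Box.of 4 (by decide +kernel))
    (by decide +kernel)

theorem t3k21_wcj : NC (qc t3c21.C * ((6 - 3 * vX) * (1 - qc t3m21 * vX)) - (6 - 6 * vX + vX ^ 2)) :=
  NC.of (K := 34) (D := ⟨3, 1, 1, 1⟩) (Box.of 4 (by decide +kernel))
    (by decide +kernel)

theorem t3k21_nd1 : NC (pe t3r21.d1 (t1v t3c21)) :=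
  NC.of (K := 70) (D := ⟨1, 1, 1, 7⟩) (Box.of 4 (by decide +kernel))
    (by decide +kernel)

theorem t3k21_nd2 : NC (pe t3r21.d2 (t1v t3c21)) :=
  NC.of (K := 73) (D := ⟨1, 1, 1, 7⟩) (Box.of 4 (by decide +kernel))
    (by decide +kernel)

theorem t3k21_ndy : NC (pe t3r21.dy (t1v t3c21)) :=
  NC.of (K := 74) (D := ⟨1, 1, 1, 7⟩) (Box.of 4 (by decide +kernel))
    (by decide +kernel)

theorem t3k21_nt1 : NC (pe t3r21.t1 (t1v t3c21)) :=
  NC.of (K := 72) (D := ⟨1, 1, 1, 7⟩) (Box.of 4 (by decide +kernel))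
    (by decide +kernel)

theorem t3k21_nt2 : NC (pe t3r21.t2 (t1v t3c21)) :=
  NC.of (K := 75) (D := ⟨1, 1, 1, 7⟩) (Box.of 4 (by decide +kernel))
    (by decide +kernel)

theorem t3k21_nty : NC (pe t3r21.ty (t1v t3c21)) :=
  NC.of (K := 76) (D := ⟨1, 1, 1, 7⟩) (Box.of 4 (by decide +kernel))
    (by decide +kernel)

theorem t3k21_nhz : NC (pe t3r21.hz (t1v t3c21)) :=
  NC.of (K := 102) (D := ⟨1, 1, 1, 7⟩) (Box.of 18659 (by decide +kernel))
    (by decide +kernel)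

theorem t3k21_xi : NC (eXi fW t3c21 t3e21 t3r21 (t1v t3c21)) :=
  NC.of (K := 305) (D := ⟨1, 1, 1, 22⟩) (Box.of 4 (by decide +kernel))
    (by decide +kernel)

theorem t3k21_om : NC (eOm fW t3r21 (t1v t3c21)) :=
  NC.of (K := 176) (D := ⟨1, 1, 1, 16⟩) (Box.of 4 (by decide +kernel))
    (by decide +kernel)

theorem t3k21_fin : NC (eFin dW t3c21 t3n21 t3r21 t3h21 (tcl t3c21)) :=
  NC.of (K := 248) (D := ⟨1, 1, 1, 14⟩) (Box.of 4 (by decide +kernel))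
    (by decide +kernel)

theorem t3k21_xdl : NC (qc t3e21.dl - pe t3d21.l.dl t3d21.eU) :=
  NC.of (K := 73) (D := ⟨1, 4, 1, 1⟩) (Box.of 4 (by decide +kernel))
    (by decide +kernel)

theorem t3k21_xeY : NC (qc t3e21.eY - pe (e4l t3d21.l.z) t3d21.eU) :=
  NC.of (K := 288) (D := ⟨1, 13, 1, 1⟩) (Box.of 4 (by decide +kernel))
    (by decide +kernel)

theorem t3k21_xgr : NC (qc t3d21.ga * ((1 + qc (3 / 5) * vX) * (1 + (t3d21.eg + hlf * t3d21.eg ^ 2))) + qc t3d21.gb - pe2 t3GR vX t3d21.eU) :=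
  NC.of (K := 254) (D := ⟨4, 11, 1, 1⟩) (Box.of 18464 (by decide +kernel))
    (by decide +kernel)

theorem t3k21_xhr : NC (qc t3d21.hb - pe2 t3HR vX t3d21.eU) :=
  NC.of (K := 263) (D := ⟨3, 12, 1, 1⟩) (Box.of 4 (by decide +kernel))
    (by decide +kernel)

theorem t3k21_xgs : NC (pe t3d21.gs t3d21.e1 - qc (8 / 5) * pe (e4l (ladd t3d21.ls.z t3d21.ls.dl)) t3d21.e1) :=
  NC.of (K := 296) (D := ⟨1, 1, 1, 13⟩) (Box.of 4 (by decide +kernel))
    (by decide +kernel)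

theorem t3k21_xd1 : NC (pe t3d21.d1 t3d21.e1 - t3d21.eA t3d21.eU t3d21.e1) :=
  NC.of (K := 288) (D := ⟨1, 12, 1, 12⟩) (Box.of 4 (by decide +kernel))
    (by decide +kernel)

theorem t3k21_xd2 : NC (pe t3d21.d2 t3d21.e1 - t3d21.eB t3d21.eU t3d21.e1) :=
  NC.of (K := 308) (D := ⟨1, 12, 1, 12⟩) (Box.of 291 (by decide +kernel))
    (by decide +kernel)

theorem t3k21_xt1 : NC (pe t3d21.t1 t3d21.e1 - t3d21.eAT t3d21.eU t3d21.e1) :=
  NC.of (K := 472) (D := ⟨1, 19, 1, 19⟩) (Box.of 4 (by decide +kernel))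
    (by decide +kernel)

theorem t3k21_xt2 : NC (pe t3d21.t2 t3d21.e1 - t3d21.eBT t3d21.eU t3d21.e1) :=
  NC.of (K := 471) (D := ⟨1, 19, 1, 19⟩) (Box.of 4 (by decide +kernel))
    (by decide +kernel)

theorem t3k21_xdy : NC (pe t3d21.dy t3d21.e1 - t3d21.eSD t3d21.eU t3d21.e1) :=
  NC.of (K := 438) (D := ⟨1, 18, 1, 12⟩) (Box.of 4 (by decide +kernel))
    (by decide +kernel)

theorem t3k21_xty : NC (pe t3d21.ty t3d21.e1 - t3d21.eST t3d21.eU t3d21.e1) :=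
  NC.of (K := 663) (D := ⟨1, 26, 1, 26⟩) (Box.of 4 (by decide +kernel))
    (by decide +kernel)

theorem t3k21_xd1s : NC (pe t3r21.d1 (t1v t3c21) - pe t3d21.d1 (Xcd.ew zW t3c21)) :=
  NC.of (K := 635) (D := ⟨1, 1, 1, 55⟩) (Box.of 4 (by decide +kernel))
    (by decide +kernel)

theorem t3k21_xd2s : NC (pe t3r21.d2 (t1v t3c21) - pe t3d21.d2 (Xcd.ew zW t3c21)) :=
  NC.of (K := 651) (D := ⟨1, 1, 1, 55⟩) (Box.of 4 (by decide +kernel))
    (by decide +kernel)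

theorem t3k21_xt1s : NC (pe t3r21.t1 (t1v t3c21) - pe t3d21.t1 (Xcd.ew zW t3c21)) :=
  NC.of (K := 651) (D := ⟨1, 1, 1, 55⟩) (Box.of 4 (by decide +kernel))
    (by decide +kernel)

theorem t3k21_xt2s : NC (pe t3r21.t2 (t1v t3c21) - pe t3d21.t2 (Xcd.ew zW t3c21)) :=
  NC.of (K := 651) (D := ⟨1, 1, 1, 55⟩) (Box.of 4 (by decide +kernel))
    (by decide +kernel)

theorem t3k21_xdys : NC (pe t3r21.dy (t1v t3c21) - pe t3d21.dy (Xcd.ew zW t3c21)) :=
  NC.of (K := 647) (D := ⟨1, 1, 1, 55⟩) (Box.of 4 (by decide +kernel))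
    (by decide +kernel)

theorem t3k21_xtys : NC (pe t3r21.ty (t1v t3c21) - pe t3d21.ty (Xcd.ew zW t3c21)) :=
  NC.of (K := 653) (D := ⟨1, 1, 1, 55⟩) (Box.of 4 (by decide +kernel))
    (by decide +kernel)

theorem t3k21_xhz : NC (pe t3r21.hz (t1v t3c21) - pe t3d21.c.dR (Xcd.ew zW t3c21)) :=
  NC.of (K := 551) (D := ⟨1, 1, 1, 46⟩) (Box.of 4 (by decide +kernel))
    (by decide +kernel)

theorem t3f21_ok : t3f21.ok V2L.y9 V2L.k9 V2L.nb V2L.la (10 ^ 30) 32 = true := by decide +kernel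

theorem t3k21_sg : t3c21.Sg := by
  constructor <;> decide +kernel

theorem t3k21_rgs : t3c21.Rgs where
  M := ⟨t3k21_M_r1, t3k21_M_r2, t3k21_M_r3, t3k21_M_r4⟩
  r0 := ⟨t3k21_r0_r1, t3k21_r0_r2, t3k21_r0_r3, t3k21_r0_r4⟩
  r1 := ⟨t3k21_r1_r1, t3k21_r1_r2, t3k21_r1_r3, t3k21_r1_r4⟩
  r2 := ⟨t3k21_r2_r1, t3k21_r2_r2, t3k21_r2_r3, t3k21_r2_r4⟩
  rc := ⟨t3k21_rc_r1, t3k21_rc_r2, t3k21_rc_r3, t3k21_rc_r4⟩
  rI := ⟨t3k21_rI_r1, t3k21_rI_r2, t3k21_rI_r3, t3k21_rI_r4⟩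
  rJ := ⟨t3k21_rJ_r1, t3k21_rJ_r2, t3k21_rJ_r3, t3k21_rJ_r4⟩

theorem t3k21_xn : t3e21.Ok t3c21 where
  lm := by decide +kernel
  dl0 := by decide +kernel
  dl1 := by decide +kernel
  e2 := by decide +kernel
  eY := by decide +kernel
  gE := ⟨t3k21_gE_r1, t3k21_gE_r2, t3k21_gE_r3, t3k21_gE_r4⟩

theorem t3k21_vl : t3c21.Vl dW qW where
  bt := by decide +kernel
  B0 := t3k21_B0
  E0 := t3k21_E0
  D0 := t3k21_D0
  Bh := t3k21_Bh
  Eh := t3k21_Eh
  Dh := t3k21_Dh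
  B1 := t3k21_B1
  E1 := t3k21_E1
  D1 := t3k21_D1

theorem t3k21_rat : t3n21.Rat t3c21 := by
  constructor <;> decide +kernel

theorem t3k21_ck : t3n21.Ck t3c21 := ⟨t3k21_l, t3k21_n⟩

theorem t3k21_fck : t3n21.Fck dW qW fW t3c21 := ⟨t3k21_rb, t3k21_kap⟩

theorem t3k21_w : Wcl zW kW yW t3al t3c21 t3n21 t3m21 where
  b2 := t3k21_wb2
  mb := t3k21_wmb
  th := t3k21_wth
  yb := t3k21_wyb
  mu := t3k21_wmu
  cj := t3k21_wcj
  mt1 := by decide +kernel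
  mt2 := by decide +kernel

theorem t3k21_ok : CelOk dW qW fW t3c21 t3n21 where
  s := t3k21_sg
  r := t3k21_rgs
  v := t3k21_vl
  rt := t3k21_rat
  k := t3k21_ck
  fc := t3k21_fck
  q01 := by decide +kernel
  q12 := by decide +kernel
  h2 := by decide +kernel

theorem t3k21_xr : t3r21.Ok fW t3c21 t3e21 where
  sD := by decide +kernel
  sT := by decide +kernel
  nd1 := t3k21_nd1
  nd2 := t3k21_nd2
  ndy := t3k21_ndy
  nt1 := t3k21_nt1
  nt2 := t3k21_nt2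
  nty := t3k21_nty
  nhz := t3k21_nhz
  xi := t3k21_xi
  om := t3k21_om

theorem t3k21_X : t3d21.Ck t3GR t3HR zW t3c21 t3e21 t3r21 where
  u0 := by decide +kernel
  u01 := by decide +kernel
  ul := by decide +kernel
  us := by decide +kernel
  uc := by decide +kernel
  ga0 := by decide +kernel
  kp0 := by decide +kernel
  lm := by decide +kernel
  dl := t3k21_xdl
  eY := t3k21_xeY
  gr := t3k21_xgr
  hr := t3k21_xhr
  gs := t3k21_xgs
  d1 := t3k21_xd1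
  d2 := t3k21_xd2
  t1 := t3k21_xt1
  t2 := t3k21_xt2
  dy := t3k21_xdy
  ty := t3k21_xty
  d1s := t3k21_xd1s
  d2s := t3k21_xd2s
  t1s := t3k21_xt1s
  t2s := t3k21_xt2s
  dys := t3k21_xdys
  tys := t3k21_xtys
  hz := t3k21_xhz

end Pool.Agent.RX.RCN.K
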