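import Pool.Agent.RX.RCN.T3D
import Pool.Agent.RX.RCN.T3Wq
import Pool.Agent.RX.RCN.T3X10
import Pool.Agent.RX.RCN.VLd

/-! Certificates (generated). -/

set_option autoImplicit false

namespace Pool.Agent.RX.RCN.K

open Set Pool.Agent.RX.RCM9 Pool.Agent.RX.RCM9.Bern Pool.Agent.RX.RCM9.Pk Xce

def t3c22 : Cel where
  t0 := 41 / 100
  t1 := 417 / 1000
  C := 4097 / 4096
  th := 1715 / 4096
  B0 := 2181 / 2048
  Bh := 1185 / 1024
  B1 := 2307 / 2048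
  D0 := 665 / 2048
  Dh := 537 / 2048
  D1 := 1 / 4
  E0 := 97 / 16384
  Eh := 20757 / 4194304
  E1 := 19803 / 4194304
  Q0 := 1093 / 1024
  Q1 := 1093 / 1024
  Q2 := 1099 / 1024
  Ac := 1093 / 1024
  gI := 1093 / 1024
  J := 18243 / 2097152

def t3n22 : Chn where
  lb := 513 / 512
  nb := 5 / 16
  Mb := 1031 / 1024
  b2 := 65 / 64
  Yb := 37 / 4096
  E2 := 4171 / 4096
  e1 := 639 / 512
  Z1 := 1125 / 1024
  Z2 := 629 / 1024
  KB := 529 / 512
  cb := 537 / 512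
  rb := 183 / 512
  om := 263 / 256
  fb := 129 / 128
  kap := 4167 / 4096
  ab := 1029 / 1024

def t3e22 : Xge where
  lm := 3 / 5
  dl := 1675 / 4096
  e2 := 1581 / 16384
  eY := 517 / 512
  gE := 1145 / 1024

def t3r22 : Xr where
  d1 := [1994317 / 100000000, 12991 / 4000000, 555343 / 25000000, 2316349 / 100000000, 5973347 /
    100000000, -1402801 / 12500000, 6658647 / 50000000]
  d2 := [2513 / 25000000, 889673 / 50000000, 2488127 / 25000000, -13257953 / 100000000, 118878467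
    / 100000000, -297299623 / 100000000, 4062231 / 1562500]
  dy := [7879659 / 50000000, 5702667 / 100000000, 25180599 / 100000000, 32729637 / 50000000,
    -98167161 / 100000000, 21340127 / 50000000, 22874319 / 100000000]
  t1 := [6064707 / 50000000, -5379867 / 12500000, 46766781 / 100000000, -54642091 / 50000000,
    90737207 / 12500000, -844904931 / 50000000, 369964867 / 25000000]
  t2 := [2836723 / 100000000, -10062131 / 100000000, 16981521 / 100000000, -12659389 / 100000000,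
    212702411 / 100000000, -267313583 / 50000000, 225276457 / 50000000]
  ty := [77078663 / 100000000, -315953239 / 100000000, 363793929 / 100000000, 888224301 /
    100000000, -76877341 / 3125000, 1277825871 / 50000000, -220568449 / 20000000]
  hz := [13474707 / 100000000, -53183157 / 100000000, 141052627 / 20000000, -582521223 / 5000000,
    64191707841 / 100000000, -72008695097 / 50000000, 57664229661 / 50000000]
  om := [100396701 / 100000000, 20453459 / 20000000, -1385222589 / 100000000, 5449785753 /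
    100000000, -6112502591 / 50000000, 722117457 / 3125000, -7439883869 / 20000000, 39393363131
    / 100000000, -19882826119 / 100000000]
  sD := 71 / 32
  sT := 253 / 128
  xi := [6384207 / 100000000, 56716799 / 100000000, -273267107 / 100000000, 566734647 / 50000000,
    -13681514507 / 100000000, 85201930651 / 100000000, -118340575009 / 50000000, 30913296881 /
    10000000, -91144407053 / 50000000, 6590622253 / 12500000]

def t3f22 : Dl where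
  Ca := 4113017 / 10000000
  Cv := 418341 / 1000000
  k1 := 93827 / 100000
  ks := 920057 / 1000000
  dd := 0
  kp := 3 / 10000000
  e := [124999962427 / 125000000000, -334651080841 / 250000000000, 280656618073 / 200000000000,
    -260901709667 / 200000000000, 115510992047 / 100000000000, -191593826789 / 200000000000,
    712184918573 / 1000000000000, -412184982867 / 1000000000000, 1303552153 / 10000000000]
  j1 := [-1320049 / 500000000, -8915289393 / 1000000000, 20410939867 / 250000000, -354999356723 /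
    1000000000, 22434664243 / 25000000, -1345757258443 / 1000000000, 1130741074647 / 1000000000,
    -422777849737 / 1000000000]
  nu := [16663127 / 200000000, -2754241 / 12500000, 19662243 / 50000000, 11440361 / 500000000,
    -4812737 / 20000000, 258801277 / 200000000, -1292879389 / 1000000000]
  k2 := [920058471 / 1000000000, 202742711 / 1000000000, -5303589 / 15625000, -12725651 /
    125000000, 481527 / 1562500, -5107751 / 4000000, 1303875887 / 1000000000]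
  dR := [3361859 / 25000000, -52980927 / 100000000, 174950947 / 25000000, -11531449337 /
    100000000, 7918684531 / 12500000, -141692517097 / 100000000, 11311388247 / 10000000]

def t3d22 : Xce where
  u0 := 411803 / 1000000
  u1 := 418341 / 1000000
  l := V2L.y10
  y := t3z10
  j := t3j10
  i := t3i10
  ls := t3y10
  k := V2L.k10
  c := t3f22
  ga := 19901 / 1000000
  gb := -191 / 25000
  hb := 11513 / 125000
  gs := [80001493 / 50000000, 2999999 / 1250000, 45000747 / 25000000, 39779169 / 50000000,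
    26861027 / 100000000, -6299127 / 50000000, -2809157 / 50000000]
  d1 := [1992891 / 100000000, 163161 / 50000000, 26653 / 1250000, 623197 / 20000000, 234121 /
    12500000, -122403 / 6250000, 5364943 / 100000000]
  d2 := [4301 / 50000000, 178099 / 10000000, 193619 / 2000000, -5424091 / 50000000, 53103977 /
    50000000, -267471047 / 100000000, 233821899 / 100000000]
  dy := [15746577 / 100000000, 5708543 / 100000000, 24334603 / 100000000, 18090543 / 25000000,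
    -133698683 / 100000000, 124723819 / 100000000, -23719871 / 50000000]
  t1 := [6061671 / 50000000, -21452967 / 50000000, 2322609 / 5000000, -53996873 / 50000000,
    715488901 / 100000000, -829936977 / 50000000, 1448506911 / 100000000]
  t2 := [1417613 / 50000000, -5011481 / 50000000, 8318219 / 50000000, -624067 / 6250000, 49444029
    / 25000000, -99796303 / 20000000, 419206741 / 100000000]
  ty := [38519987 / 50000000, -314956071 / 100000000, 72169133 / 20000000, 177419493 / 20000000,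
    -492540249 / 20000000, 64738407 / 2500000, -1145170689 / 100000000]

def t3m22 : ℚ := 1669 / 4096

def t3h22 : ℚ := 1 / 2

theorem t3k22_M_r1 : NC (fM t3c22 (1 - eh) eh ek (elo t3c22.B0 t3c22.Bh eh) (elo t3c22.D0 t3c22.Dh ek) (elo t3c22.E0 t3c22.Eh ek)) :=
  NC.of (K := 33) (D := ⟨4, 3, 1, 1⟩) (Box.of 4 (by decide +kernel))
    (by decide +kernel)

theorem t3k22_M_r2 : NC (fM t3c22 eh (1 - eh) ek (ehi t3c22.Bh t3c22.B1 (1 - eh)) (elo t3c22.D0 t3c22.Dh ek) (elo t3c22.E0 t3c22.Eh ek)) :=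
  NC.of (K := 33) (D := ⟨4, 3, 1, 1⟩) (Box.of 4 (by decide +kernel))
    (by decide +kernel)

theorem t3k22_M_r3 : NC (fM t3c22 (1 - eh) ek eh (elo t3c22.B0 t3c22.Bh ek) (elo t3c22.D0 t3c22.Dh eh) (elo t3c22.E0 t3c22.Eh eh)) :=
  NC.of (K := 32) (D := ⟨4, 2, 1, 1⟩) (Box.of 4 (by decide +kernel))
    (by decide +kernel)

theorem t3k22_M_r4 : NC (fM t3c22 eh ek (1 - eh) (elo t3c22.B0 t3c22.Bh ek) (ehi t3c22.Dh t3c22.D1 (1 - eh)) (ehi t3c22.Eh t3c22.E1 (1 - eh))) :=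
  NC.of (K := 33) (D := ⟨4, 2, 1, 1⟩) (Box.of 4 (by decide +kernel))
    (by decide +kernel)

theorem t3k22_r0_r1 : NC (f0 t3c22 (1 - eh) eh ek (elo t3c22.B0 t3c22.Bh eh) (elo t3c22.D0 t3c22.Dh ek) (elo t3c22.E0 t3c22.Eh ek)) :=
  NC.of (K := 158) (D := ⟨13, 9, 1, 1⟩) (Box.of 4 (by decide +kernel))
    (by decide +kernel)

theorem t3k22_r0_r2 : NC (f0 t3c22 eh (1 - eh) ek (ehi t3c22.Bh t3c22.B1 (1 - eh)) (elo t3c22.D0 t3c22.Dh ek) (elo t3c22.E0 t3c22.Eh ek)) :=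
  NC.of (K := 158) (D := ⟨13, 9, 1, 1⟩) (Box.of 4 (by decide +kernel))
    (by decide +kernel)

theorem t3k22_r0_r3 : NC (f0 t3c22 (1 - eh) ek eh (elo t3c22.B0 t3c22.Bh ek) (elo t3c22.D0 t3c22.Dh eh) (elo t3c22.E0 t3c22.Eh eh)) :=
  NC.of (K := 153) (D := ⟨13, 5, 1, 1⟩) (Box.of 4 (by decide +kernel))
    (by decide +kernel)

theorem t3k22_r0_r4 : NC (f0 t3c22 eh ek (1 - eh) (elo t3c22.B0 t3c22.Bh ek) (ehi t3c22.Dh t3c22.D1 (1 - eh)) (ehi t3c22.Eh t3c22.E1 (1 - eh))) :=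
  NC.of (K := 158) (D := ⟨13, 5, 1, 1⟩) (Box.of 4 (by decide +kernel))
    (by decide +kernel)

theorem t3k22_r1_r1 : NC (f1 t3c22 (1 - eh) eh ek (elo t3c22.B0 t3c22.Bh eh) (elo t3c22.D0 t3c22.Dh ek) (elo t3c22.E0 t3c22.Eh ek)) :=
  NC.of (K := 248) (D := ⟨16, 9, 1, 1⟩) (Box.of 4 (by decide +kernel))
    (by decide +kernel)

theorem t3k22_r1_r2 : NC (f1 t3c22 eh (1 - eh) ek (ehi t3c22.Bh t3c22.B1 (1 - eh)) (elo t3c22.D0 t3c22.Dh ek) (elo t3c22.E0 t3c22.Eh ek)) :=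
  NC.of (K := 249) (D := ⟨16, 9, 1, 1⟩) (Box.of 4 (by decide +kernel))
    (by decide +kernel)

theorem t3k22_r1_r3 : NC (f1 t3c22 (1 - eh) ek eh (elo t3c22.B0 t3c22.Bh ek) (elo t3c22.D0 t3c22.Dh eh) (elo t3c22.E0 t3c22.Eh eh)) :=
  NC.of (K := 251) (D := ⟨16, 12, 1, 1⟩) (Box.of 4 (by decide +kernel))
    (by decide +kernel)

theorem t3k22_r1_r4 : NC (f1 t3c22 eh ek (1 - eh) (elo t3c22.B0 t3c22.Bh ek) (ehi t3c22.Dh t3c22.D1 (1 - eh)) (ehi t3c22.Eh t3c22.E1 (1 - eh))) :=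
  NC.of (K := 252) (D := ⟨16, 12, 1, 1⟩) (Box.of 4 (by decide +kernel))
    (by decide +kernel)

theorem t3k22_r2_r1 : NC (f2 t3c22 (1 - eh) eh ek (elo t3c22.B0 t3c22.Bh eh) (elo t3c22.D0 t3c22.Dh ek) (elo t3c22.E0 t3c22.Eh ek)) :=
  NC.of (K := 250) (D := ⟨16, 11, 1, 1⟩) (Box.of 4 (by decide +kernel))
    (by decide +kernel)

theorem t3k22_r2_r2 : NC (f2 t3c22 eh (1 - eh) ek (ehi t3c22.Bh t3c22.B1 (1 - eh)) (elo t3c22.D0 t3c22.Dh ek) (elo t3c22.E0 t3c22.Eh ek)) :=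
  NC.of (K := 252) (D := ⟨16, 11, 1, 1⟩) (Box.of 4 (by decide +kernel))
    (by decide +kernel)

theorem t3k22_r2_r3 : NC (f2 t3c22 (1 - eh) ek eh (elo t3c22.B0 t3c22.Bh ek) (elo t3c22.D0 t3c22.Dh eh) (elo t3c22.E0 t3c22.Eh eh)) :=
  NC.of (K := 252) (D := ⟨16, 12, 1, 1⟩) (Box.of 4 (by decide +kernel))
    (by decide +kernel)

theorem t3k22_r2_r4 : NC (f2 t3c22 eh ek (1 - eh) (elo t3c22.B0 t3c22.Bh ek) (ehi t3c22.Dh t3c22.D1 (1 - eh)) (ehi t3c22.Eh t3c22.E1 (1 - eh))) :=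
  NC.of (K := 253) (D := ⟨16, 12, 1, 1⟩) (Box.of 4 (by decide +kernel))
    (by decide +kernel)

theorem t3k22_rc_r1 : NC (fc t3c22 (1 - eh) eh ek (elo t3c22.B0 t3c22.Bh eh) (elo t3c22.D0 t3c22.Dh ek) (elo t3c22.E0 t3c22.Eh ek)) :=
  NC.of (K := 157) (D := ⟨13, 9, 1, 1⟩) (Box.of 4 (by decide +kernel))
    (by decide +kernel)

theorem t3k22_rc_r2 : NC (fc t3c22 eh (1 - eh) ek (ehi t3c22.Bh t3c22.B1 (1 - eh)) (elo t3c22.D0 t3c22.Dh ek) (elo t3c22.E0 t3c22.Eh ek)) :=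
  NC.of (K := 157) (D := ⟨13, 9, 1, 1⟩) (Box.of 4 (by decide +kernel))
    (by decide +kernel)

theorem t3k22_rc_r3 : NC (fc t3c22 (1 - eh) ek eh (elo t3c22.B0 t3c22.Bh ek) (elo t3c22.D0 t3c22.Dh eh) (elo t3c22.E0 t3c22.Eh eh)) :=
  NC.of (K := 153) (D := ⟨13, 5, 1, 1⟩) (Box.of 4 (by decide +kernel))
    (by decide +kernel)

theorem t3k22_rc_r4 : NC (fc t3c22 eh ek (1 - eh) (elo t3c22.B0 t3c22.Bh ek) (ehi t3c22.Dh t3c22.D1 (1 - eh)) (ehi t3c22.Eh t3c22.E1 (1 - eh))) :=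
  NC.of (K := 158) (D := ⟨13, 5, 1, 1⟩) (Box.of 4 (by decide +kernel))
    (by decide +kernel)

theorem t3k22_rI_r1 : NC (fI t3c22 (1 - eh) eh ek (elo t3c22.B0 t3c22.Bh eh) (elo t3c22.D0 t3c22.Dh ek) (elo t3c22.E0 t3c22.Eh ek)) :=
  NC.of (K := 143) (D := ⟨13, 9, 1, 1⟩) (Box.of 4 (by decide +kernel))
    (by decide +kernel)

theorem t3k22_rI_r2 : NC (fI t3c22 eh (1 - eh) ek (ehi t3c22.Bh t3c22.B1 (1 - eh)) (elo t3c22.D0 t3c22.Dh ek) (elo t3c22.E0 t3c22.Eh ek)) :=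
  NC.of (K := 144) (D := ⟨13, 9, 1, 1⟩) (Box.of 4 (by decide +kernel))
    (by decide +kernel)

theorem t3k22_rI_r3 : NC (fI t3c22 (1 - eh) ek eh (elo t3c22.B0 t3c22.Bh ek) (elo t3c22.D0 t3c22.Dh eh) (elo t3c22.E0 t3c22.Eh eh)) :=
  NC.of (K := 138) (D := ⟨13, 5, 1, 1⟩) (Box.of 4 (by decide +kernel))
    (by decide +kernel)

theorem t3k22_rI_r4 : NC (fI t3c22 eh ek (1 - eh) (elo t3c22.B0 t3c22.Bh ek) (ehi t3c22.Dh t3c22.D1 (1 - eh)) (ehi t3c22.Eh t3c22.E1 (1 - eh))) :=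
  NC.of (K := 144) (D := ⟨13, 5, 1, 1⟩) (Box.of 4 (by decide +kernel))
    (by decide +kernel)

theorem t3k22_rJ_r1 : NC (fJ t3c22 (1 - eh) eh ek (elo t3c22.B0 t3c22.Bh eh) (elo t3c22.D0 t3c22.Dh ek) (elo t3c22.E0 t3c22.Eh ek)) :=
  NC.of (K := 85) (D := ⟨7, 5, 1, 1⟩) (Box.of 4 (by decide +kernel))
    (by decide +kernel)

theorem t3k22_rJ_r2 : NC (fJ t3c22 eh (1 - eh) ek (ehi t3c22.Bh t3c22.B1 (1 - eh)) (elo t3c22.D0 t3c22.Dh ek) (elo t3c22.E0 t3c22.Eh ek)) :=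
  NC.of (K := 86) (D := ⟨7, 5, 1, 1⟩) (Box.of 4 (by decide +kernel))
    (by decide +kernel)

theorem t3k22_rJ_r3 : NC (fJ t3c22 (1 - eh) ek eh (elo t3c22.B0 t3c22.Bh ek) (elo t3c22.D0 t3c22.Dh eh) (elo t3c22.E0 t3c22.Eh eh)) :=
  NC.of (K := 83) (D := ⟨7, 3, 1, 1⟩) (Box.of 4 (by decide +kernel))
    (by decide +kernel)

theorem t3k22_rJ_r4 : NC (fJ t3c22 eh ek (1 - eh) (elo t3c22.B0 t3c22.Bh ek) (ehi t3c22.Dh t3c22.D1 (1 - eh)) (ehi t3c22.Eh t3c22.E1 (1 - eh))) :=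
  NC.of (K := 85) (D := ⟨7, 3, 1, 1⟩) (Box.of 4 (by decide +kernel))
    (by decide +kernel)

theorem t3k22_gE_r1 : NC (fE t3c22 t3e22 (1 - eh) eh ek (elo t3c22.B0 t3c22.Bh eh) (elo t3c22.D0 t3c22.Dh ek) (elo t3c22.E0 t3c22.Eh ek)) :=
  NC.of (K := 189) (D := ⟨13, 9, 1, 1⟩) (Box.of 18688 (by decide +kernel))
    (by decide +kernel)

theorem t3k22_gE_r2 : NC (fE t3c22 t3e22 eh (1 - eh) ek (ehi t3c22.Bh t3c22.B1 (1 - eh)) (elo t3c22.D0 t3c22.Dh ek) (elo t3c22.E0 t3c22.Eh ek)) :=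
  NC.of (K := 146) (D := ⟨13, 9, 1, 1⟩) (Box.of 4 (by decide +kernel))
    (by decide +kernel)

theorem t3k22_gE_r3 : NC (fE t3c22 t3e22 (1 - eh) ek eh (elo t3c22.B0 t3c22.Bh ek) (elo t3c22.D0 t3c22.Dh eh) (elo t3c22.E0 t3c22.Eh eh)) :=
  NC.of (K := 187) (D := ⟨13, 7, 1, 1⟩) (Box.of 18688 (by decide +kernel))
    (by decide +kernel)

theorem t3k22_gE_r4 : NC (fE t3c22 t3e22 eh ek (1 - eh) (elo t3c22.B0 t3c22.Bh ek) (ehi t3c22.Dh t3c22.D1 (1 - eh)) (ehi t3c22.Eh t3c22.E1 (1 - eh))) :=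
  NC.of (K := 148) (D := ⟨13, 7, 1, 1⟩) (Box.of 4 (by decide +kernel))
    (by decide +kernel)

theorem t3k22_B0 : NC (kB dW 1 0 t3c22.B0 (tcl t3c22)) :=
  NC.of (K := 120) (D := ⟨1, 1, 1, 9⟩) (Box.of 4 (by decide +kernel))
    (by decide +kernel)

theorem t3k22_E0 : NC (kE dW qW qW.p0 qW.q0 t3c22.E0 (tcl t3c22)) :=
  NC.of (K := 267) (D := ⟨1, 1, 1, 19⟩) (Box.of 4 (by decide +kernel))
    (by decide +kernel)

theorem t3k22_D0 : NC (kD dW qW 1 0 qW.p0 qW.q0 t3c22.D0 (tcl t3c22)) :=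
  NC.of (K := 386) (D := ⟨1, 1, 1, 20⟩) (Box.of 4 (by decide +kernel))
    (by decide +kernel)

theorem t3k22_Bh : NC (kB dW (1 / 2) (1 / 2) t3c22.Bh (tcl t3c22)) :=
  NC.of (K := 123) (D := ⟨1, 1, 1, 9⟩) (Box.of 4 (by decide +kernel))
    (by decide +kernel)

theorem t3k22_Eh : NC (kE dW qW qW.ph qW.qh t3c22.Eh (tcl t3c22)) :=
  NC.of (K := 271) (D := ⟨1, 1, 1, 19⟩) (Box.of 4 (by decide +kernel))
    (by decide +kernel)

theorem t3k22_Dh : NC (kD dW qW (1 / 2) (1 / 2) qW.ph qW.qh t3c22.Dh (tcl t3c22)) :=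
  NC.of (K := 390) (D := ⟨1, 1, 1, 20⟩) (Box.of 4 (by decide +kernel))
    (by decide +kernel)

theorem t3k22_B1 : NC (kB dW 0 (1 / 2) t3c22.B1 (tcl t3c22)) :=
  NC.of (K := 123) (D := ⟨1, 1, 1, 9⟩) (Box.of 4 (by decide +kernel))
    (by decide +kernel)

theorem t3k22_E1 : NC (kE dW qW qW.p1 qW.q1 t3c22.E1 (tcl t3c22)) :=
  NC.of (K := 270) (D := ⟨1, 1, 1, 19⟩) (Box.of 4 (by decide +kernel))
    (by decide +kernel)

theorem t3k22_D1 : NC (kD dW qW 0 (1 / 2) qW.p1 qW.q1 t3c22.D1 (tcl t3c22)) :=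
  NC.of (K := 390) (D := ⟨1, 1, 1, 20⟩) (Box.of 4 (by decide +kernel))
    (by decide +kernel)

theorem t3k22_l : NC (qc t3n22.lb - (1 - vX) * pe (exl t3c22.th) vX ^ 2) :=
  NC.of (K := 125) (D := ⟨10, 1, 1, 1⟩) (Box.of 4 (by decide +kernel))
    (by decide +kernel)

theorem t3k22_n : NC (qc t3n22.nb - vX * (1 - vX) * pe (exl t3c22.th) vX) :=
  NC.of (K := 104) (D := ⟨7, 1, 1, 1⟩) (Box.of 1196064 (by decide +kernel))
    (by decide +kernel)

theorem t3k22_rb : NC (krb t3n22 fW (t1v t3c22)) :=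
  NC.of (K := 234) (D := ⟨1, 1, 1, 16⟩) (Box.of 4 (by decide +kernel))
    (by decide +kernel)

theorem t3k22_kap : NC (kkap dW qW t3n22 (tcl t3c22)) :=
  NC.of (K := 120) (D := ⟨1, 1, 1, 9⟩) (Box.of 4 (by decide +kernel))
    (by decide +kernel)

theorem t3k22_wb2 : NC (qc t3n22.b2 - pe2 kW.QB (vZ * t1v t3c22) (t1v t3c22)) :=
  NC.of (K := 178) (D := ⟨1, 6, 1, 11⟩) (Box.of 291 (by decide +kernel))
    (by decide +kernel)

theorem t3k22_wmb : NC (qc t3n22.Mb - pe zW.mb (t1v t3c22)) :=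
  NC.of (K := 140) (D := ⟨1, 1, 1, 9⟩) (Box.of 291 (by decide +kernel))
    (by decide +kernel)

theorem t3k22_wth : NC (qc (t3c22.th / t3c22.t1) - pe2 zW.Qt (vZ * t1v t3c22) (t1v t3c22)) :=
  NC.of (K := 205) (D := ⟨1, 6, 1, 11⟩) (Box.of 18715 (by decide +kernel))
    (by decide +kernel)

theorem t3k22_wyb : NC (qc t3n22.Yb - (t1v t3c22 - vZ * t1v t3c22) ^ 3 * pe2 yW.QY (vZ * t1v t3c22) (t1v t3c22)) :=
  NC.of (K := 166) (D := ⟨1, 8, 1, 12⟩) (Box.of 4 (by decide +kernel))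
    (by decide +kernel)

theorem t3k22_wmu : NC (qc t3m22 - pe t3al (tcl t3c22) * (1 + hlf * tcl t3c22)) :=
  NC.of (K := 116) (D := ⟨1, 1, 1, 9⟩) (Box.of 4 (by decide +kernel))
    (by decide +kernel)

theorem t3k22_wcj : NC (qc t3c22.C * ((6 - 3 * vX) * (1 - qc t3m22 * vX)) - (6 - 6 * vX + vX ^ 2)) :=
  NC.of (K := 34) (D := ⟨3, 1, 1, 1⟩) (Box.of 4 (by decide +kernel))
    (by decide +kernel)

theorem t3k22_nd1 : NC (pe t3r22.d1 (t1v t3c22)) :=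
  NC.of (K := 91) (D := ⟨1, 1, 1, 7⟩) (Box.of 4 (by decide +kernel))
    (by decide +kernel)

theorem t3k22_nd2 : NC (pe t3r22.d2 (t1v t3c22)) :=
  NC.of (K := 91) (D := ⟨1, 1, 1, 7⟩) (Box.of 4 (by decide +kernel))
    (by decide +kernel)

theorem t3k22_ndy : NC (pe t3r22.dy (t1v t3c22)) :=
  NC.of (K := 95) (D := ⟨1, 1, 1, 7⟩) (Box.of 4 (by decide +kernel))
    (by decide +kernel)

theorem t3k22_nt1 : NC (pe t3r22.t1 (t1v t3c22)) :=
  NC.of (K := 95) (D := ⟨1, 1, 1, 7⟩) (Box.of 4 (by decide +kernel))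
    (by decide +kernel)

theorem t3k22_nt2 : NC (pe t3r22.t2 (t1v t3c22)) :=
  NC.of (K := 94) (D := ⟨1, 1, 1, 7⟩) (Box.of 4 (by decide +kernel))
    (by decide +kernel)

theorem t3k22_nty : NC (pe t3r22.ty (t1v t3c22)) :=
  NC.of (K := 97) (D := ⟨1, 1, 1, 7⟩) (Box.of 4 (by decide +kernel))
    (by decide +kernel)

theorem t3k22_nhz : NC (pe t3r22.hz (t1v t3c22)) :=
  NC.of (K := 126) (D := ⟨1, 1, 1, 7⟩) (Box.of 18659 (by decide +kernel))
    (by decide +kernel)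

theorem t3k22_xi : NC (eXi fW t3c22 t3e22 t3r22 (t1v t3c22)) :=
  NC.of (K := 374) (D := ⟨1, 1, 1, 22⟩) (Box.of 4 (by decide +kernel))
    (by decide +kernel)

theorem t3k22_om : NC (eOm fW t3r22 (t1v t3c22)) :=
  NC.of (K := 226) (D := ⟨1, 1, 1, 16⟩) (Box.of 4 (by decide +kernel))
    (by decide +kernel)

theorem t3k22_fin : NC (eFin dW t3c22 t3n22 t3r22 t3h22 (tcl t3c22)) :=
  NC.of (K := 257) (D := ⟨1, 1, 1, 14⟩) (Box.of 4 (by decide +kernel))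
    (by decide +kernel)

theorem t3k22_xdl : NC (qc t3e22.dl - pe t3d22.l.dl t3d22.eU) :=
  NC.of (K := 73) (D := ⟨1, 4, 1, 1⟩) (Box.of 4 (by decide +kernel))
    (by decide +kernel)

theorem t3k22_xeY : NC (qc t3e22.eY - pe (e4l t3d22.l.z) t3d22.eU) :=
  NC.of (K := 288) (D := ⟨1, 13, 1, 1⟩) (Box.of 4 (by decide +kernel))
    (by decide +kernel)

theorem t3k22_xgr : NC (qc t3d22.ga * ((1 + qc (3 / 5) * vX) * (1 + (t3d22.eg + hlf * t3d22.eg ^ 2))) + qc t3d22.gb - pe2 t3GR vX t3d22.eU) :=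
  NC.of (K := 261) (D := ⟨4, 11, 1, 1⟩) (Box.of 1196064 (by decide +kernel))
    (by decide +kernel)

theorem t3k22_xhr : NC (qc t3d22.hb - pe2 t3HR vX t3d22.eU) :=
  NC.of (K := 263) (D := ⟨3, 12, 1, 1⟩) (Box.of 4 (by decide +kernel))
    (by decide +kernel)

theorem t3k22_xgs : NC (pe t3d22.gs t3d22.e1 - qc (8 / 5) * pe (e4l (ladd t3d22.ls.z t3d22.ls.dl)) t3d22.e1) :=
  NC.of (K := 296) (D := ⟨1, 1, 1, 13⟩) (Box.of 4 (by decide +kernel))
    (by decide +kernel)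

theorem t3k22_xd1 : NC (pe t3d22.d1 t3d22.e1 - t3d22.eA t3d22.eU t3d22.e1) :=
  NC.of (K := 286) (D := ⟨1, 12, 1, 12⟩) (Box.of 4 (by decide +kernel))
    (by decide +kernel)

theorem t3k22_xd2 : NC (pe t3d22.d2 t3d22.e1 - t3d22.eB t3d22.eU t3d22.e1) :=
  NC.of (K := 309) (D := ⟨1, 12, 1, 12⟩) (Box.of 291 (by decide +kernel))
    (by decide +kernel)

theorem t3k22_xt1 : NC (pe t3d22.t1 t3d22.e1 - t3d22.eAT t3d22.eU t3d22.e1) :=
  NC.of (K := 468) (D := ⟨1, 19, 1, 19⟩) (Box.of 4 (by decide +kernel))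
    (by decide +kernel)

theorem t3k22_xt2 : NC (pe t3d22.t2 t3d22.e1 - t3d22.eBT t3d22.eU t3d22.e1) :=
  NC.of (K := 472) (D := ⟨1, 19, 1, 19⟩) (Box.of 4 (by decide +kernel))
    (by decide +kernel)

theorem t3k22_xdy : NC (pe t3d22.dy t3d22.e1 - t3d22.eSD t3d22.eU t3d22.e1) :=
  NC.of (K := 438) (D := ⟨1, 18, 1, 12⟩) (Box.of 4 (by decide +kernel))
    (by decide +kernel)

theorem t3k22_xty : NC (pe t3d22.ty t3d22.e1 - t3d22.eST t3d22.eU t3d22.e1) :=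
  NC.of (K := 666) (D := ⟨1, 26, 1, 26⟩) (Box.of 4 (by decide +kernel))
    (by decide +kernel)

theorem t3k22_xd1s : NC (pe t3r22.d1 (t1v t3c22) - pe t3d22.d1 (Xcd.ew zW t3c22)) :=
  NC.of (K := 819) (D := ⟨1, 1, 1, 55⟩) (Box.of 4 (by decide +kernel))
    (by decide +kernel)

theorem t3k22_xd2s : NC (pe t3r22.d2 (t1v t3c22) - pe t3d22.d2 (Xcd.ew zW t3c22)) :=
  NC.of (K := 825) (D := ⟨1, 1, 1, 55⟩) (Box.of 4 (by decide +kernel))
    (by decide +kernel)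

theorem t3k22_xt1s : NC (pe t3r22.t1 (t1v t3c22) - pe t3d22.t1 (Xcd.ew zW t3c22)) :=
  NC.of (K := 827) (D := ⟨1, 1, 1, 55⟩) (Box.of 4 (by decide +kernel))
    (by decide +kernel)

theorem t3k22_xt2s : NC (pe t3r22.t2 (t1v t3c22) - pe t3d22.t2 (Xcd.ew zW t3c22)) :=
  NC.of (K := 826) (D := ⟨1, 1, 1, 55⟩) (Box.of 4 (by decide +kernel))
    (by decide +kernel)

theorem t3k22_xdys : NC (pe t3r22.dy (t1v t3c22) - pe t3d22.dy (Xcd.ew zW t3c22)) :=
  NC.of (K := 822) (D := ⟨1, 1, 1, 55⟩) (Box.of 4 (by decide +kernel))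
    (by decide +kernel)

theorem t3k22_xtys : NC (pe t3r22.ty (t1v t3c22) - pe t3d22.ty (Xcd.ew zW t3c22)) :=
  NC.of (K := 827) (D := ⟨1, 1, 1, 55⟩) (Box.of 4 (by decide +kernel))
    (by decide +kernel)

theorem t3k22_xhz : NC (pe t3r22.hz (t1v t3c22) - pe t3d22.c.dR (Xcd.ew zW t3c22)) :=
  NC.of (K := 830) (D := ⟨1, 1, 1, 55⟩) (Box.of 4 (by decide +kernel))
    (by decide +kernel)

theorem t3f22_ok : t3f22.ok V2L.y10 V2L.k10 V2L.nb V2L.la (10 ^ 30) 32 = true := by decide +kernel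

theorem t3k22_sg : t3c22.Sg := by
  constructor <;> decide +kernel

theorem t3k22_rgs : t3c22.Rgs where
  M := ⟨t3k22_M_r1, t3k22_M_r2, t3k22_M_r3, t3k22_M_r4⟩
  r0 := ⟨t3k22_r0_r1, t3k22_r0_r2, t3k22_r0_r3, t3k22_r0_r4⟩
  r1 := ⟨t3k22_r1_r1, t3k22_r1_r2, t3k22_r1_r3, t3k22_r1_r4⟩
  r2 := ⟨t3k22_r2_r1, t3k22_r2_r2, t3k22_r2_r3, t3k22_r2_r4⟩
  rc := ⟨t3k22_rc_r1, t3k22_rc_r2, t3k22_rc_r3, t3k22_rc_r4⟩
  rI := ⟨t3k22_rI_r1, t3k22_rI_r2, t3k22_rI_r3, t3k22_rI_r4⟩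
  rJ := ⟨t3k22_rJ_r1, t3k22_rJ_r2, t3k22_rJ_r3, t3k22_rJ_r4⟩

theorem t3k22_xn : t3e22.Ok t3c22 where
  lm := by decide +kernel
  dl0 := by decide +kernel
  dl1 := by decide +kernel
  e2 := by decide +kernel
  eY := by decide +kernel
  gE := ⟨t3k22_gE_r1, t3k22_gE_r2, t3k22_gE_r3, t3k22_gE_r4⟩

theorem t3k22_vl : t3c22.Vl dW qW where
  bt := by decide +kernel
  B0 := t3k22_B0
  E0 := t3k22_E0
  D0 := t3k22_D0
  Bh := t3k22_Bh
  Eh := t3k22_Eh
  Dh := t3k22_Dh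
  B1 := t3k22_B1
  E1 := t3k22_E1
  D1 := t3k22_D1

theorem t3k22_rat : t3n22.Rat t3c22 := by
  constructor <;> decide +kernel

theorem t3k22_ck : t3n22.Ck t3c22 := ⟨t3k22_l, t3k22_n⟩

theorem t3k22_fck : t3n22.Fck dW qW fW t3c22 := ⟨t3k22_rb, t3k22_kap⟩

theorem t3k22_w : Wcl zW kW yW t3al t3c22 t3n22 t3m22 where
  b2 := t3k22_wb2
  mb := t3k22_wmb
  th := t3k22_wth
  yb := t3k22_wyb
  mu := t3k22_wmu
  cj := t3k22_wcj
  mt1 := by decide +kernel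
  mt2 := by decide +kernel

theorem t3k22_ok : CelOk dW qW fW t3c22 t3n22 where
  s := t3k22_sg
  r := t3k22_rgs
  v := t3k22_vl
  rt := t3k22_rat
  k := t3k22_ck
  fc := t3k22_fck
  q01 := by decide +kernel
  q12 := by decide +kernel
  h2 := by decide +kernel

theorem t3k22_xr : t3r22.Ok fW t3c22 t3e22 where
  sD := by decide +kernel
  sT := by decide +kernel
  nd1 := t3k22_nd1
  nd2 := t3k22_nd2
  ndy := t3k22_ndy
  nt1 := t3k22_nt1
  nt2 := t3k22_nt2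
  nty := t3k22_nty
  nhz := t3k22_nhz
  xi := t3k22_xi
  om := t3k22_om

theorem t3k22_X : t3d22.Ck t3GR t3HR zW t3c22 t3e22 t3r22 where
  u0 := by decide +kernel
  u01 := by decide +kernel
  ul := by decide +kernel
  us := by decide +kernel
  uc := by decide +kernel
  ga0 := by decide +kernel
  kp0 := by decide +kernel
  lm := by decide +kernel
  dl := t3k22_xdl
  eY := t3k22_xeY
  gr := t3k22_xgr
  hr := t3k22_xhr
  gs := t3k22_xgs
  d1 := t3k22_xd1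
  d2 := t3k22_xd2
  t1 := t3k22_xt1
  t2 := t3k22_xt2
  dy := t3k22_xdy
  ty := t3k22_xty
  d1s := t3k22_xd1s
  d2s := t3k22_xd2s
  t1s := t3k22_xt1s
  t2s := t3k22_xt2s
  dys := t3k22_xdys
  tys := t3k22_xtys
  hz := t3k22_xhz

end Pool.Agent.RX.RCN.K
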