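import Pool.Agent.RX.RCN.T3D
import Pool.Agent.RX.RCN.T3Wq
import Pool.Agent.RX.RCN.T3X10
import Pool.Agent.RX.RCN.VLd

/-! Certificates (generated). -/

set_option autoImplicit false

namespace Pool.Agent.RX.RCN.K

open Set Pool.Agent.RX.RCM9 Pool.Agent.RX.RCM9.Bern Pool.Agent.RX.RCM9.Pk Xce

def t3c23 : Cel where
  t0 := 417 / 1000
  t1 := 17 / 40
  C := 4097 / 4096
  th := 437 / 1024
  B0 := 2177 / 2048
  Bh := 595 / 512
  B1 := 1159 / 1024
  D0 := 1349 / 4096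
  Dh := 547 / 2048
  D1 := 261 / 1024
  E0 := 6699 / 1048576
  Eh := 22499 / 4194304
  E1 := 5369 / 1048576
  Q0 := 1091 / 1024
  Q1 := 1091 / 1024
  Q2 := 1101 / 1024
  Ac := 1091 / 1024
  gI := 1091 / 1024
  J := 40187 / 4194304

def t3n23 : Chn where
  lb := 513 / 512
  nb := 321 / 1024
  Mb := 1033 / 1024
  b2 := 65 / 64
  Yb := 39 / 4096
  E2 := 4175 / 4096
  e1 := 321 / 256
  Z1 := 1125 / 1024
  Z2 := 315 / 512
  KB := 1059 / 1024
  cb := 269 / 256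
  rb := 371 / 1024
  om := 263 / 256
  fb := 129 / 128
  kap := 4171 / 4096
  ab := 1029 / 1024

def t3e23 : Xge where
  lm := 3 / 5
  dl := 853 / 2048
  e2 := 1645 / 16384
  eY := 2069 / 2048
  gE := 1149 / 1024

def t3r23 : Xr where
  d1 := [1067121 / 50000000, 294509 / 100000000, 6791 / 312500, 1039047 / 50000000, 1387493 /
    20000000, -210063 / 1562500, 1873441 / 12500000]
  d2 := [483 / 5000000, 874139 / 50000000, 1426331 / 20000000, 3430239 / 25000000, -9868249 /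
    100000000, -37328 / 390625, 4474939 / 25000000]
  dy := [17478869 / 100000000, 5320739 / 100000000, 366829 / 1562500, 68654267 / 100000000,
    -48524269 / 50000000, 30554743 / 100000000, 1765779 / 5000000]
  t1 := [12664813 / 100000000, -43923563 / 100000000, 9647323 / 20000000, -126220737 / 100000000,
    793967251 / 100000000, -72468833 / 4000000, 777124253 / 50000000]
  t2 := [76369 / 2500000, -5341983 / 50000000, 6030219 / 50000000, 7698749 / 20000000, -27074961 /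
    100000000, -285073 / 3125000, 18369777 / 100000000]
  ty := [83248999 / 100000000, -168479137 / 50000000, 199886933 / 50000000, 822005219 / 100000000,
    -1147560753 / 50000000, 28732263 / 1250000, -235150239 / 25000000]
  hz := [14007527 / 100000000, -12605001 / 25000000, 284629701 / 50000000, -9714355061 /
    100000000, 10593038063 / 20000000, -14541208031 / 12500000, 90937213867 / 100000000]
  om := [100396701 / 100000000, 25574277 / 25000000, -1386901281 / 100000000, 5485334051 /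
    100000000, -6295410297 / 50000000, 314179197 / 1250000, -43373827407 / 100000000, 9825678843
    / 20000000, -26085292123 / 100000000]
  sD := 579 / 256
  sT := 257 / 128
  xi := [3487797 / 50000000, 59700473 / 100000000, -144669691 / 50000000, 259835147 / 25000000,
    -717732719 / 6250000, 35256252807 / 50000000, -1925316653 / 1000000, 246907669983 /
    100000000, -142608481501 / 100000000, 39333538709 / 100000000]

def t3f23 : Dl where
  Ca := 836679 / 2000000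
  Cv := 53299 / 125000
  k1 := 9360233 / 10000000
  ks := 229321 / 250000
  dd := 0
  kp := 1 / 2500000
  e := [999999699293 / 1000000000000, -673408997727 / 500000000000, 354954406641 / 250000000000,
    -165995056057 / 125000000000, 236392345887 / 200000000000, -984123855547 / 1000000000000,
    732359202621 / 1000000000000, -105538988983 / 250000000000, 132277564457 / 1000000000000]
  j1 := [-520037 / 200000000, -351303431 / 40000000, 80694119101 / 1000000000, -70355124809 /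
    200000000, 445500890679 / 500000000, -668288437431 / 500000000, 1118938154103 / 1000000000,
    -41398039681 / 100000000]
  nu := [86333859 / 1000000000, -223845173 / 1000000000, 78309413 / 200000000, 6606819 /
    125000000, -435489517 / 1000000000, 1750387663 / 1000000000, -336835597 / 200000000]
  k2 := [458642693 / 500000000, 102674137 / 500000000, -67211983 / 200000000, -512933 / 3906250,
    492143327 / 1000000000, -852359587 / 500000000, 833443741 / 500000000]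
  dR := [6989553 / 50000000, -50219467 / 100000000, 282236497 / 50000000, -2402945331 / 25000000,
    52255022457 / 100000000, -3575585593 / 3125000, 89163823559 / 100000000]

def t3d23 : Xce where
  u0 := 418841 / 1000000
  u1 := 53299 / 125000
  l := V2L.y10
  y := t3z10
  j := t3j10
  i := t3i10
  ls := t3y10
  k := V2L.k10
  c := t3f23
  ga := 10649 / 500000
  gb := -4239 / 500000
  hb := 99967 / 1000000
  gs := [80001511 / 50000000, 239999909 / 100000000, 180003321 / 100000000, 7955457 / 10000000,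
    26880057 / 100000000, -12642143 / 100000000, -1116129 / 20000000]
  d1 := [2132737 / 100000000, 74167 / 25000000, 2068817 / 100000000, 3048299 / 100000000, 1998671
    / 100000000, -2281237 / 100000000, 217301 / 4000000]
  d2 := [8193 / 100000000, 1751113 / 100000000, 6844477 / 100000000, 4060827 / 25000000, -2274253
    / 10000000, 3111 / 15625, -7243839 / 100000000]
  dy := [17465203 / 100000000, 1066377 / 20000000, 11258993 / 50000000, 38442657 / 50000000,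
    -139318627 / 100000000, 64043681 / 50000000, -48234821 / 100000000]
  t1 := [12658367 / 100000000, -10944799 / 25000000, 23869867 / 50000000, -30834389 / 25000000,
    194239293 / 25000000, -1768799063 / 100000000, 302655943 / 20000000]
  t2 := [3053139 / 100000000, -2660367 / 25000000, 11704743 / 100000000, 20563093 / 50000000,
    -8221267 / 20000000, 22984393 / 100000000, -8771049 / 100000000]
  ty := [83207227 / 100000000, -335896771 / 100000000, 396608629 / 100000000, 205355407 /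
    25000000, -2299385283 / 100000000, 2335529209 / 100000000, -492603257 / 50000000]

def t3m23 : ℚ := 849 / 2048

def t3h23 : ℚ := 1 / 2

theorem t3k23_M_r1 : NC (fM t3c23 (1 - eh) eh ek (elo t3c23.B0 t3c23.Bh eh) (elo t3c23.D0 t3c23.Dh ek) (elo t3c23.E0 t3c23.Eh ek)) :=
  NC.of (K := 33) (D := ⟨4, 3, 1, 1⟩) (Box.of 4 (by decide +kernel))
    (by decide +kernel)

theorem t3k23_M_r2 : NC (fM t3c23 eh (1 - eh) ek (ehi t3c23.Bh t3c23.B1 (1 - eh)) (elo t3c23.D0 t3c23.Dh ek) (elo t3c23.E0 t3c23.Eh ek)) :=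
  NC.of (K := 33) (D := ⟨4, 3, 1, 1⟩) (Box.of 4 (by decide +kernel))
    (by decide +kernel)

theorem t3k23_M_r3 : NC (fM t3c23 (1 - eh) ek eh (elo t3c23.B0 t3c23.Bh ek) (elo t3c23.D0 t3c23.Dh eh) (elo t3c23.E0 t3c23.Eh eh)) :=
  NC.of (K := 32) (D := ⟨4, 2, 1, 1⟩) (Box.of 4 (by decide +kernel))
    (by decide +kernel)

theorem t3k23_M_r4 : NC (fM t3c23 eh ek (1 - eh) (elo t3c23.B0 t3c23.Bh ek) (ehi t3c23.Dh t3c23.D1 (1 - eh)) (ehi t3c23.Eh t3c23.E1 (1 - eh))) :=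
  NC.of (K := 31) (D := ⟨4, 2, 1, 1⟩) (Box.of 4 (by decide +kernel))
    (by decide +kernel)

theorem t3k23_r0_r1 : NC (f0 t3c23 (1 - eh) eh ek (elo t3c23.B0 t3c23.Bh eh) (elo t3c23.D0 t3c23.Dh ek) (elo t3c23.E0 t3c23.Eh ek)) :=
  NC.of (K := 154) (D := ⟨13, 9, 1, 1⟩) (Box.of 4 (by decide +kernel))
    (by decide +kernel)

theorem t3k23_r0_r2 : NC (f0 t3c23 eh (1 - eh) ek (ehi t3c23.Bh t3c23.B1 (1 - eh)) (elo t3c23.D0 t3c23.Dh ek) (elo t3c23.E0 t3c23.Eh ek)) :=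
  NC.of (K := 154) (D := ⟨13, 9, 1, 1⟩) (Box.of 4 (by decide +kernel))
    (by decide +kernel)

theorem t3k23_r0_r3 : NC (f0 t3c23 (1 - eh) ek eh (elo t3c23.B0 t3c23.Bh ek) (elo t3c23.D0 t3c23.Dh eh) (elo t3c23.E0 t3c23.Eh eh)) :=
  NC.of (K := 149) (D := ⟨13, 5, 1, 1⟩) (Box.of 4 (by decide +kernel))
    (by decide +kernel)

theorem t3k23_r0_r4 : NC (f0 t3c23 eh ek (1 - eh) (elo t3c23.B0 t3c23.Bh ek) (ehi t3c23.Dh t3c23.D1 (1 - eh)) (ehi t3c23.Eh t3c23.E1 (1 - eh))) :=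
  NC.of (K := 146) (D := ⟨13, 5, 1, 1⟩) (Box.of 4 (by decide +kernel))
    (by decide +kernel)

theorem t3k23_r1_r1 : NC (f1 t3c23 (1 - eh) eh ek (elo t3c23.B0 t3c23.Bh eh) (elo t3c23.D0 t3c23.Dh ek) (elo t3c23.E0 t3c23.Eh ek)) :=
  NC.of (K := 220) (D := ⟨16, 9, 1, 1⟩) (Box.of 4 (by decide +kernel))
    (by decide +kernel)

theorem t3k23_r1_r2 : NC (f1 t3c23 eh (1 - eh) ek (ehi t3c23.Bh t3c23.B1 (1 - eh)) (elo t3c23.D0 t3c23.Dh ek) (elo t3c23.E0 t3c23.Eh ek)) :=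
  NC.of (K := 219) (D := ⟨16, 9, 1, 1⟩) (Box.of 4 (by decide +kernel))
    (by decide +kernel)

theorem t3k23_r1_r3 : NC (f1 t3c23 (1 - eh) ek eh (elo t3c23.B0 t3c23.Bh ek) (elo t3c23.D0 t3c23.Dh eh) (elo t3c23.E0 t3c23.Eh eh)) :=
  NC.of (K := 223) (D := ⟨16, 12, 1, 1⟩) (Box.of 4 (by decide +kernel))
    (by decide +kernel)

theorem t3k23_r1_r4 : NC (f1 t3c23 eh ek (1 - eh) (elo t3c23.B0 t3c23.Bh ek) (ehi t3c23.Dh t3c23.D1 (1 - eh)) (ehi t3c23.Eh t3c23.E1 (1 - eh))) :=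
  NC.of (K := 224) (D := ⟨16, 12, 1, 1⟩) (Box.of 4 (by decide +kernel))
    (by decide +kernel)

theorem t3k23_r2_r1 : NC (f2 t3c23 (1 - eh) eh ek (elo t3c23.B0 t3c23.Bh eh) (elo t3c23.D0 t3c23.Dh ek) (elo t3c23.E0 t3c23.Eh ek)) :=
  NC.of (K := 250) (D := ⟨16, 11, 1, 1⟩) (Box.of 288 (by decide +kernel))
    (by decide +kernel)

theorem t3k23_r2_r2 : NC (f2 t3c23 eh (1 - eh) ek (ehi t3c23.Bh t3c23.B1 (1 - eh)) (elo t3c23.D0 t3c23.Dh ek) (elo t3c23.E0 t3c23.Eh ek)) :=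
  NC.of (K := 222) (D := ⟨16, 11, 1, 1⟩) (Box.of 4 (by decide +kernel))
    (by decide +kernel)

theorem t3k23_r2_r3 : NC (f2 t3c23 (1 - eh) ek eh (elo t3c23.B0 t3c23.Bh ek) (elo t3c23.D0 t3c23.Dh eh) (elo t3c23.E0 t3c23.Eh eh)) :=
  NC.of (K := 251) (D := ⟨16, 12, 1, 1⟩) (Box.of 288 (by decide +kernel))
    (by decide +kernel)

theorem t3k23_r2_r4 : NC (f2 t3c23 eh ek (1 - eh) (elo t3c23.B0 t3c23.Bh ek) (ehi t3c23.Dh t3c23.D1 (1 - eh)) (ehi t3c23.Eh t3c23.E1 (1 - eh))) :=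
  NC.of (K := 225) (D := ⟨16, 12, 1, 1⟩) (Box.of 4 (by decide +kernel))
    (by decide +kernel)

theorem t3k23_rc_r1 : NC (fc t3c23 (1 - eh) eh ek (elo t3c23.B0 t3c23.Bh eh) (elo t3c23.D0 t3c23.Dh ek) (elo t3c23.E0 t3c23.Eh ek)) :=
  NC.of (K := 154) (D := ⟨13, 9, 1, 1⟩) (Box.of 4 (by decide +kernel))
    (by decide +kernel)

theorem t3k23_rc_r2 : NC (fc t3c23 eh (1 - eh) ek (ehi t3c23.Bh t3c23.B1 (1 - eh)) (elo t3c23.D0 t3c23.Dh ek) (elo t3c23.E0 t3c23.Eh ek)) :=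
  NC.of (K := 153) (D := ⟨13, 9, 1, 1⟩) (Box.of 4 (by decide +kernel))
    (by decide +kernel)

theorem t3k23_rc_r3 : NC (fc t3c23 (1 - eh) ek eh (elo t3c23.B0 t3c23.Bh ek) (elo t3c23.D0 t3c23.Dh eh) (elo t3c23.E0 t3c23.Eh eh)) :=
  NC.of (K := 149) (D := ⟨13, 5, 1, 1⟩) (Box.of 4 (by decide +kernel))
    (by decide +kernel)

theorem t3k23_rc_r4 : NC (fc t3c23 eh ek (1 - eh) (elo t3c23.B0 t3c23.Bh ek) (ehi t3c23.Dh t3c23.D1 (1 - eh)) (ehi t3c23.Eh t3c23.E1 (1 - eh))) :=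
  NC.of (K := 146) (D := ⟨13, 5, 1, 1⟩) (Box.of 4 (by decide +kernel))
    (by decide +kernel)

theorem t3k23_rI_r1 : NC (fI t3c23 (1 - eh) eh ek (elo t3c23.B0 t3c23.Bh eh) (elo t3c23.D0 t3c23.Dh ek) (elo t3c23.E0 t3c23.Eh ek)) :=
  NC.of (K := 133) (D := ⟨13, 9, 1, 1⟩) (Box.of 4 (by decide +kernel))
    (by decide +kernel)

theorem t3k23_rI_r2 : NC (fI t3c23 eh (1 - eh) ek (ehi t3c23.Bh t3c23.B1 (1 - eh)) (elo t3c23.D0 t3c23.Dh ek) (elo t3c23.E0 t3c23.Eh ek)) :=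
  NC.of (K := 133) (D := ⟨13, 9, 1, 1⟩) (Box.of 4 (by decide +kernel))
    (by decide +kernel)

theorem t3k23_rI_r3 : NC (fI t3c23 (1 - eh) ek eh (elo t3c23.B0 t3c23.Bh ek) (elo t3c23.D0 t3c23.Dh eh) (elo t3c23.E0 t3c23.Eh eh)) :=
  NC.of (K := 128) (D := ⟨13, 5, 1, 1⟩) (Box.of 4 (by decide +kernel))
    (by decide +kernel)

theorem t3k23_rI_r4 : NC (fI t3c23 eh ek (1 - eh) (elo t3c23.B0 t3c23.Bh ek) (ehi t3c23.Dh t3c23.D1 (1 - eh)) (ehi t3c23.Eh t3c23.E1 (1 - eh))) :=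
  NC.of (K := 125) (D := ⟨13, 5, 1, 1⟩) (Box.of 4 (by decide +kernel))
    (by decide +kernel)

theorem t3k23_rJ_r1 : NC (fJ t3c23 (1 - eh) eh ek (elo t3c23.B0 t3c23.Bh eh) (elo t3c23.D0 t3c23.Dh ek) (elo t3c23.E0 t3c23.Eh ek)) :=
  NC.of (K := 85) (D := ⟨7, 5, 1, 1⟩) (Box.of 4 (by decide +kernel))
    (by decide +kernel)

theorem t3k23_rJ_r2 : NC (fJ t3c23 eh (1 - eh) ek (ehi t3c23.Bh t3c23.B1 (1 - eh)) (elo t3c23.D0 t3c23.Dh ek) (elo t3c23.E0 t3c23.Eh ek)) :=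
  NC.of (K := 85) (D := ⟨7, 5, 1, 1⟩) (Box.of 4 (by decide +kernel))
    (by decide +kernel)

theorem t3k23_rJ_r3 : NC (fJ t3c23 (1 - eh) ek eh (elo t3c23.B0 t3c23.Bh ek) (elo t3c23.D0 t3c23.Dh eh) (elo t3c23.E0 t3c23.Eh eh)) :=
  NC.of (K := 82) (D := ⟨7, 3, 1, 1⟩) (Box.of 4 (by decide +kernel))
    (by decide +kernel)

theorem t3k23_rJ_r4 : NC (fJ t3c23 eh ek (1 - eh) (elo t3c23.B0 t3c23.Bh ek) (ehi t3c23.Dh t3c23.D1 (1 - eh)) (ehi t3c23.Eh t3c23.E1 (1 - eh))) :=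
  NC.of (K := 80) (D := ⟨7, 3, 1, 1⟩) (Box.of 4 (by decide +kernel))
    (by decide +kernel)

theorem t3k23_gE_r1 : NC (fE t3c23 t3e23 (1 - eh) eh ek (elo t3c23.B0 t3c23.Bh eh) (elo t3c23.D0 t3c23.Dh ek) (elo t3c23.E0 t3c23.Eh ek)) :=
  NC.of (K := 179) (D := ⟨13, 9, 1, 1⟩) (Box.of 18688 (by decide +kernel))
    (by decide +kernel)

theorem t3k23_gE_r2 : NC (fE t3c23 t3e23 eh (1 - eh) ek (ehi t3c23.Bh t3c23.B1 (1 - eh)) (elo t3c23.D0 t3c23.Dh ek) (elo t3c23.E0 t3c23.Eh ek)) :=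
  NC.of (K := 135) (D := ⟨13, 9, 1, 1⟩) (Box.of 4 (by decide +kernel))
    (by decide +kernel)

theorem t3k23_gE_r3 : NC (fE t3c23 t3e23 (1 - eh) ek eh (elo t3c23.B0 t3c23.Bh ek) (elo t3c23.D0 t3c23.Dh eh) (elo t3c23.E0 t3c23.Eh eh)) :=
  NC.of (K := 177) (D := ⟨13, 7, 1, 1⟩) (Box.of 18688 (by decide +kernel))
    (by decide +kernel)

theorem t3k23_gE_r4 : NC (fE t3c23 t3e23 eh ek (1 - eh) (elo t3c23.B0 t3c23.Bh ek) (ehi t3c23.Dh t3c23.D1 (1 - eh)) (ehi t3c23.Eh t3c23.E1 (1 - eh))) :=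
  NC.of (K := 129) (D := ⟨13, 7, 1, 1⟩) (Box.of 4 (by decide +kernel))
    (by decide +kernel)

theorem t3k23_B0 : NC (kB dW 1 0 t3c23.B0 (tcl t3c23)) :=
  NC.of (K := 120) (D := ⟨1, 1, 1, 9⟩) (Box.of 4 (by decide +kernel))
    (by decide +kernel)

theorem t3k23_E0 : NC (kE dW qW qW.p0 qW.q0 t3c23.E0 (tcl t3c23)) :=
  NC.of (K := 267) (D := ⟨1, 1, 1, 19⟩) (Box.of 4 (by decide +kernel))
    (by decide +kernel)

theorem t3k23_D0 : NC (kD dW qW 1 0 qW.p0 qW.q0 t3c23.D0 (tcl t3c23)) :=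
  NC.of (K := 387) (D := ⟨1, 1, 1, 20⟩) (Box.of 4 (by decide +kernel))
    (by decide +kernel)

theorem t3k23_Bh : NC (kB dW (1 / 2) (1 / 2) t3c23.Bh (tcl t3c23)) :=
  NC.of (K := 123) (D := ⟨1, 1, 1, 9⟩) (Box.of 4 (by decide +kernel))
    (by decide +kernel)

theorem t3k23_Eh : NC (kE dW qW qW.ph qW.qh t3c23.Eh (tcl t3c23)) :=
  NC.of (K := 271) (D := ⟨1, 1, 1, 19⟩) (Box.of 4 (by decide +kernel))
    (by decide +kernel)

theorem t3k23_Dh : NC (kD dW qW (1 / 2) (1 / 2) qW.ph qW.qh t3c23.Dh (tcl t3c23)) :=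
  NC.of (K := 391) (D := ⟨1, 1, 1, 20⟩) (Box.of 4 (by decide +kernel))
    (by decide +kernel)

theorem t3k23_B1 : NC (kB dW 0 (1 / 2) t3c23.B1 (tcl t3c23)) :=
  NC.of (K := 123) (D := ⟨1, 1, 1, 9⟩) (Box.of 4 (by decide +kernel))
    (by decide +kernel)

theorem t3k23_E1 : NC (kE dW qW qW.p1 qW.q1 t3c23.E1 (tcl t3c23)) :=
  NC.of (K := 271) (D := ⟨1, 1, 1, 19⟩) (Box.of 4 (by decide +kernel))
    (by decide +kernel)

theorem t3k23_D1 : NC (kD dW qW 0 (1 / 2) qW.p1 qW.q1 t3c23.D1 (tcl t3c23)) :=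
  NC.of (K := 390) (D := ⟨1, 1, 1, 20⟩) (Box.of 4 (by decide +kernel))
    (by decide +kernel)

theorem t3k23_l : NC (qc t3n23.lb - (1 - vX) * pe (exl t3c23.th) vX ^ 2) :=
  NC.of (K := 110) (D := ⟨10, 1, 1, 1⟩) (Box.of 4 (by decide +kernel))
    (by decide +kernel)

theorem t3k23_n : NC (qc t3n23.nb - vX * (1 - vX) * pe (exl t3c23.th) vX) :=
  NC.of (K := 108) (D := ⟨7, 1, 1, 1⟩) (Box.of 76677152 (by decide +kernel))
    (by decide +kernel)

theorem t3k23_rb : NC (krb t3n23 fW (t1v t3c23)) :=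
  NC.of (K := 166) (D := ⟨1, 1, 1, 16⟩) (Box.of 4 (by decide +kernel))
    (by decide +kernel)

theorem t3k23_kap : NC (kkap dW qW t3n23 (tcl t3c23)) :=
  NC.of (K := 120) (D := ⟨1, 1, 1, 9⟩) (Box.of 4 (by decide +kernel))
    (by decide +kernel)

theorem t3k23_wb2 : NC (qc t3n23.b2 - pe2 kW.QB (vZ * t1v t3c23) (t1v t3c23)) :=
  NC.of (K := 131) (D := ⟨1, 6, 1, 11⟩) (Box.of 291 (by decide +kernel))
    (by decide +kernel)

theorem t3k23_wmb : NC (qc t3n23.Mb - pe zW.mb (t1v t3c23)) :=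
  NC.of (K := 103) (D := ⟨1, 1, 1, 9⟩) (Box.of 291 (by decide +kernel))
    (by decide +kernel)

theorem t3k23_wth : NC (qc (t3c23.th / t3c23.t1) - pe2 zW.Qt (vZ * t1v t3c23) (t1v t3c23)) :=
  NC.of (K := 154) (D := ⟨1, 6, 1, 11⟩) (Box.of 18715 (by decide +kernel))
    (by decide +kernel)

theorem t3k23_wyb : NC (qc t3n23.Yb - (t1v t3c23 - vZ * t1v t3c23) ^ 3 * pe2 yW.QY (vZ * t1v t3c23) (t1v t3c23)) :=
  NC.of (K := 115) (D := ⟨1, 8, 1, 12⟩) (Box.of 4 (by decide +kernel))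
    (by decide +kernel)

theorem t3k23_wmu : NC (qc t3m23 - pe t3al (tcl t3c23) * (1 + hlf * tcl t3c23)) :=
  NC.of (K := 116) (D := ⟨1, 1, 1, 9⟩) (Box.of 4 (by decide +kernel))
    (by decide +kernel)

theorem t3k23_wcj : NC (qc t3c23.C * ((6 - 3 * vX) * (1 - qc t3m23 * vX)) - (6 - 6 * vX + vX ^ 2)) :=
  NC.of (K := 33) (D := ⟨3, 1, 1, 1⟩) (Box.of 4 (by decide +kernel))
    (by decide +kernel)

theorem t3k23_nd1 : NC (pe t3r23.d1 (t1v t3c23)) :=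
  NC.of (K := 61) (D := ⟨1, 1, 1, 7⟩) (Box.of 4 (by decide +kernel))
    (by decide +kernel)

theorem t3k23_nd2 : NC (pe t3r23.d2 (t1v t3c23)) :=
  NC.of (K := 62) (D := ⟨1, 1, 1, 7⟩) (Box.of 4 (by decide +kernel))
    (by decide +kernel)

theorem t3k23_ndy : NC (pe t3r23.dy (t1v t3c23)) :=
  NC.of (K := 63) (D := ⟨1, 1, 1, 7⟩) (Box.of 4 (by decide +kernel))
    (by decide +kernel)

theorem t3k23_nt1 : NC (pe t3r23.t1 (t1v t3c23)) :=
  NC.of (K := 68) (D := ⟨1, 1, 1, 7⟩) (Box.of 4 (by decide +kernel))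
    (by decide +kernel)

theorem t3k23_nt2 : NC (pe t3r23.t2 (t1v t3c23)) :=
  NC.of (K := 66) (D := ⟨1, 1, 1, 7⟩) (Box.of 4 (by decide +kernel))
    (by decide +kernel)

theorem t3k23_nty : NC (pe t3r23.ty (t1v t3c23)) :=
  NC.of (K := 69) (D := ⟨1, 1, 1, 7⟩) (Box.of 4 (by decide +kernel))
    (by decide +kernel)

theorem t3k23_nhz : NC (pe t3r23.hz (t1v t3c23)) :=
  NC.of (K := 99) (D := ⟨1, 1, 1, 7⟩) (Box.of 18659 (by decide +kernel))
    (by decide +kernel)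

theorem t3k23_xi : NC (eXi fW t3c23 t3e23 t3r23 (t1v t3c23)) :=
  NC.of (K := 281) (D := ⟨1, 1, 1, 22⟩) (Box.of 4 (by decide +kernel))
    (by decide +kernel)

theorem t3k23_om : NC (eOm fW t3r23 (t1v t3c23)) :=
  NC.of (K := 157) (D := ⟨1, 1, 1, 16⟩) (Box.of 4 (by decide +kernel))
    (by decide +kernel)

theorem t3k23_fin : NC (eFin dW t3c23 t3n23 t3r23 t3h23 (tcl t3c23)) :=
  NC.of (K := 250) (D := ⟨1, 1, 1, 14⟩) (Box.of 4 (by decide +kernel))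
    (by decide +kernel)

theorem t3k23_xdl : NC (qc t3e23.dl - pe t3d23.l.dl t3d23.eU) :=
  NC.of (K := 73) (D := ⟨1, 4, 1, 1⟩) (Box.of 4 (by decide +kernel))
    (by decide +kernel)

theorem t3k23_xeY : NC (qc t3e23.eY - pe (e4l t3d23.l.z) t3d23.eU) :=
  NC.of (K := 288) (D := ⟨1, 13, 1, 1⟩) (Box.of 4 (by decide +kernel))
    (by decide +kernel)

theorem t3k23_xgr : NC (qc t3d23.ga * ((1 + qc (3 / 5) * vX) * (1 + (t3d23.eg + hlf * t3d23.eg ^ 2))) + qc t3d23.gb - pe2 t3GR vX t3d23.eU) :=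
  NC.of (K := 261) (D := ⟨4, 11, 1, 1⟩) (Box.of 1196064 (by decide +kernel))
    (by decide +kernel)

theorem t3k23_xhr : NC (qc t3d23.hb - pe2 t3HR vX t3d23.eU) :=
  NC.of (K := 263) (D := ⟨3, 12, 1, 1⟩) (Box.of 4 (by decide +kernel))
    (by decide +kernel)

theorem t3k23_xgs : NC (pe t3d23.gs t3d23.e1 - qc (8 / 5) * pe (e4l (ladd t3d23.ls.z t3d23.ls.dl)) t3d23.e1) :=
  NC.of (K := 260) (D := ⟨1, 1, 1, 13⟩) (Box.of 4 (by decide +kernel))
    (by decide +kernel)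

theorem t3k23_xd1 : NC (pe t3d23.d1 t3d23.e1 - t3d23.eA t3d23.eU t3d23.e1) :=
  NC.of (K := 286) (D := ⟨1, 12, 1, 12⟩) (Box.of 4 (by decide +kernel))
    (by decide +kernel)

theorem t3k23_xd2 : NC (pe t3d23.d2 t3d23.e1 - t3d23.eB t3d23.eU t3d23.e1) :=
  NC.of (K := 288) (D := ⟨1, 12, 1, 12⟩) (Box.of 4 (by decide +kernel))
    (by decide +kernel)

theorem t3k23_xt1 : NC (pe t3d23.t1 t3d23.e1 - t3d23.eAT t3d23.eU t3d23.e1) :=
  NC.of (K := 468) (D := ⟨1, 19, 1, 19⟩) (Box.of 4 (by decide +kernel))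
    (by decide +kernel)

theorem t3k23_xt2 : NC (pe t3d23.t2 t3d23.e1 - t3d23.eBT t3d23.eU t3d23.e1) :=
  NC.of (K := 472) (D := ⟨1, 19, 1, 19⟩) (Box.of 4 (by decide +kernel))
    (by decide +kernel)

theorem t3k23_xdy : NC (pe t3d23.dy t3d23.e1 - t3d23.eSD t3d23.eU t3d23.e1) :=
  NC.of (K := 437) (D := ⟨1, 18, 1, 12⟩) (Box.of 4 (by decide +kernel))
    (by decide +kernel)

theorem t3k23_xty : NC (pe t3d23.ty t3d23.e1 - t3d23.eST t3d23.eU t3d23.e1) :=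
  NC.of (K := 665) (D := ⟨1, 26, 1, 26⟩) (Box.of 4 (by decide +kernel))
    (by decide +kernel)

theorem t3k23_xd1s : NC (pe t3r23.d1 (t1v t3c23) - pe t3d23.d1 (Xcd.ew zW t3c23)) :=
  NC.of (K := 565) (D := ⟨1, 1, 1, 55⟩) (Box.of 4 (by decide +kernel))
    (by decide +kernel)

theorem t3k23_xd2s : NC (pe t3r23.d2 (t1v t3c23) - pe t3d23.d2 (Xcd.ew zW t3c23)) :=
  NC.of (K := 570) (D := ⟨1, 1, 1, 55⟩) (Box.of 4 (by decide +kernel))
    (by decide +kernel)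

theorem t3k23_xt1s : NC (pe t3r23.t1 (t1v t3c23) - pe t3d23.t1 (Xcd.ew zW t3c23)) :=
  NC.of (K := 575) (D := ⟨1, 1, 1, 55⟩) (Box.of 4 (by decide +kernel))
    (by decide +kernel)

theorem t3k23_xt2s : NC (pe t3r23.t2 (t1v t3c23) - pe t3d23.t2 (Xcd.ew zW t3c23)) :=
  NC.of (K := 571) (D := ⟨1, 1, 1, 55⟩) (Box.of 4 (by decide +kernel))
    (by decide +kernel)

theorem t3k23_xdys : NC (pe t3r23.dy (t1v t3c23) - pe t3d23.dy (Xcd.ew zW t3c23)) :=
  NC.of (K := 573) (D := ⟨1, 1, 1, 55⟩) (Box.of 4 (by decide +kernel))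
    (by decide +kernel)

theorem t3k23_xtys : NC (pe t3r23.ty (t1v t3c23) - pe t3d23.ty (Xcd.ew zW t3c23)) :=
  NC.of (K := 576) (D := ⟨1, 1, 1, 55⟩) (Box.of 4 (by decide +kernel))
    (by decide +kernel)

theorem t3k23_xhz : NC (pe t3r23.hz (t1v t3c23) - pe t3d23.c.dR (Xcd.ew zW t3c23)) :=
  NC.of (K := 583) (D := ⟨1, 1, 1, 55⟩) (Box.of 4 (by decide +kernel))
    (by decide +kernel)

theorem t3f23_ok : t3f23.ok V2L.y10 V2L.k10 V2L.nb V2L.la (10 ^ 30) 32 = true := by decide +kernel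

theorem t3k23_sg : t3c23.Sg := by
  constructor <;> decide +kernel

theorem t3k23_rgs : t3c23.Rgs where
  M := ⟨t3k23_M_r1, t3k23_M_r2, t3k23_M_r3, t3k23_M_r4⟩
  r0 := ⟨t3k23_r0_r1, t3k23_r0_r2, t3k23_r0_r3, t3k23_r0_r4⟩
  r1 := ⟨t3k23_r1_r1, t3k23_r1_r2, t3k23_r1_r3, t3k23_r1_r4⟩
  r2 := ⟨t3k23_r2_r1, t3k23_r2_r2, t3k23_r2_r3, t3k23_r2_r4⟩
  rc := ⟨t3k23_rc_r1, t3k23_rc_r2, t3k23_rc_r3, t3k23_rc_r4⟩
  rI := ⟨t3k23_rI_r1, t3k23_rI_r2, t3k23_rI_r3, t3k23_rI_r4⟩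
  rJ := ⟨t3k23_rJ_r1, t3k23_rJ_r2, t3k23_rJ_r3, t3k23_rJ_r4⟩

theorem t3k23_xn : t3e23.Ok t3c23 where
  lm := by decide +kernel
  dl0 := by decide +kernel
  dl1 := by decide +kernel
  e2 := by decide +kernel
  eY := by decide +kernel
  gE := ⟨t3k23_gE_r1, t3k23_gE_r2, t3k23_gE_r3, t3k23_gE_r4⟩

theorem t3k23_vl : t3c23.Vl dW qW where
  bt := by decide +kernel
  B0 := t3k23_B0
  E0 := t3k23_E0
  D0 := t3k23_D0
  Bh := t3k23_Bh
  Eh := t3k23_Eh
  Dh := t3k23_Dh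
  B1 := t3k23_B1
  E1 := t3k23_E1
  D1 := t3k23_D1

theorem t3k23_rat : t3n23.Rat t3c23 := by
  constructor <;> decide +kernel

theorem t3k23_ck : t3n23.Ck t3c23 := ⟨t3k23_l, t3k23_n⟩

theorem t3k23_fck : t3n23.Fck dW qW fW t3c23 := ⟨t3k23_rb, t3k23_kap⟩

theorem t3k23_w : Wcl zW kW yW t3al t3c23 t3n23 t3m23 where
  b2 := t3k23_wb2
  mb := t3k23_wmb
  th := t3k23_wth
  yb := t3k23_wyb
  mu := t3k23_wmu
  cj := t3k23_wcj
  mt1 := by decide +kernel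
  mt2 := by decide +kernel

theorem t3k23_ok : CelOk dW qW fW t3c23 t3n23 where
  s := t3k23_sg
  r := t3k23_rgs
  v := t3k23_vl
  rt := t3k23_rat
  k := t3k23_ck
  fc := t3k23_fck
  q01 := by decide +kernel
  q12 := by decide +kernel
  h2 := by decide +kernel

theorem t3k23_xr : t3r23.Ok fW t3c23 t3e23 where
  sD := by decide +kernel
  sT := by decide +kernel
  nd1 := t3k23_nd1
  nd2 := t3k23_nd2
  ndy := t3k23_ndy
  nt1 := t3k23_nt1
  nt2 := t3k23_nt2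
  nty := t3k23_nty
  nhz := t3k23_nhz
  xi := t3k23_xi
  om := t3k23_om

theorem t3k23_X : t3d23.Ck t3GR t3HR zW t3c23 t3e23 t3r23 where
  u0 := by decide +kernel
  u01 := by decide +kernel
  ul := by decide +kernel
  us := by decide +kernel
  uc := by decide +kernel
  ga0 := by decide +kernel
  kp0 := by decide +kernel
  lm := by decide +kernel
  dl := t3k23_xdl
  eY := t3k23_xeY
  gr := t3k23_xgr
  hr := t3k23_xhr
  gs := t3k23_xgs
  d1 := t3k23_xd1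
  d2 := t3k23_xd2
  t1 := t3k23_xt1
  t2 := t3k23_xt2
  dy := t3k23_xdy
  ty := t3k23_xty
  d1s := t3k23_xd1s
  d2s := t3k23_xd2s
  t1s := t3k23_xt1s
  t2s := t3k23_xt2s
  dys := t3k23_xdys
  tys := t3k23_xtys
  hz := t3k23_xhz

end Pool.Agent.RX.RCN.K
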