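import Pool.Agent.RX.RCN.T3D
import Pool.Agent.RX.RCN.T3Wq
import Pool.Agent.RX.RCN.T3X11
import Pool.Agent.RX.RCN.VLd

/-! Certificates (generated). -/

set_option autoImplicit false

namespace Pool.Agent.RX.RCN.K

open Set Pool.Agent.RX.RCM9 Pool.Agent.RX.RCM9.Bern Pool.Agent.RX.RCM9.Pk Xce

def t3c24 : Cel where
  t0 := 17 / 40
  t1 := 54 / 125
  C := 4097 / 4096
  th := 1779 / 4096
  B0 := 543 / 512
  Bh := 597 / 512
  B1 := 2329 / 2048
  D0 := 1365 / 4096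
  Dh := 139 / 512
  D1 := 1061 / 4096
  E0 := 28611 / 4194304
  Eh := 12059 / 2097152
  E1 := 11515 / 2097152
  Q0 := 1089 / 1024
  Q1 := 1089 / 1024
  Q2 := 551 / 512
  Ac := 1089 / 1024
  gI := 1089 / 1024
  J := 341 / 32768

def t3n24 : Chn where
  lb := 513 / 512
  nb := 323 / 1024
  Mb := 517 / 512
  b2 := 65 / 64
  Yb := 41 / 4096
  E2 := 4179 / 4096
  e1 := 645 / 512
  Z1 := 281 / 256
  Z2 := 79 / 128
  KB := 265 / 256
  cb := 539 / 512
  rb := 375 / 1024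
  om := 263 / 256
  fb := 129 / 128
  kap := 4175 / 4096
  ab := 1029 / 1024

def t3e24 : Xge where
  lm := 3 / 5
  dl := 1733 / 4096
  e2 := 1701 / 16384
  eY := 1035 / 1024
  gE := 1153 / 1024

def t3r24 : Xr where
  d1 := [453277 / 20000000, 196193 / 50000000, 2531667 / 100000000, 77277 / 4000000, 137521 /
    1562500, -3459121 / 20000000, 18031363 / 100000000]
  d2 := [11551 / 100000000, 2161649 / 100000000, 4634327 / 50000000, 1007 / 5000000, 56770323 /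
    100000000, -6017833 / 4000000, 128713581 / 100000000]
  dy := [19174497 / 100000000, 714281 / 10000000, 28406281 / 100000000, 72967463 / 100000000,
    -92181571 / 100000000, 25399 / 2000000, 12873519 / 20000000]
  t1 := [13148683 / 100000000, -44076519 / 100000000, 2229923 / 5000000, -50798017 / 50000000,
    679308793 / 100000000, -1539807611 / 100000000, 655332317 / 50000000]
  t2 := [3264237 / 100000000, -10670657 / 100000000, 879359 / 6250000, 513711 / 3125000, 88218313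
    / 100000000, -254333603 / 100000000, 211797511 / 100000000]
  ty := [89154911 / 100000000, -339101527 / 100000000, 157889021 / 50000000, 118037639 / 10000000,
    -2917891773 / 100000000, 717782313 / 25000000, -1164806871 / 100000000]
  hz := [7265387 / 50000000, -5934519 / 12500000, 108099007 / 25000000, -7857445459 / 100000000,
    42640413209 / 100000000, -22948206773 / 25000000, 7004632521 / 10000000]
  om := [1003967 / 1000000, 25581481 / 25000000, -277699169 / 20000000, 5518514241 / 100000000,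
    -12926308787 / 100000000, 6740095177 / 25000000, -3052483263 / 6250000, 57595060331 /
    100000000, -31384862781 / 100000000]
  sD := 291 / 128
  sT := 259 / 128
  xi := [3782573 / 50000000, 7970393 / 12500000, -11610257 / 4000000, 838494019 / 100000000,
    -2243225523 / 25000000, 2248354947 / 4000000, -76264114613 / 50000000, 3855465723 / 2000000,
    -6785503617 / 6250000, 5562826493 / 20000000]

def t3f24 : Dl where
  Ca := 4263899 / 10000000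
  Cv := 433443 / 1000000
  k1 := 4661703 / 5000000
  ks := 913569 / 1000000
  dd := 0
  kp := 3 / 10000000
  e := [199999939833 / 200000000000, -1354084960429 / 1000000000000, 1434543098633 /
    1000000000000, -134894089399 / 100000000000, 301521728061 / 250000000000, -1007693339139 /
    1000000000000, 375279264551 / 500000000000, -215581921813 / 500000000000, 134040094233 /
    1000000000000]
  j1 := [-1277661 / 500000000, -8633144263 / 1000000000, 19899983543 / 250000000, -4349093673 /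
    12500000, 110386233249 / 125000000, -1325414008121 / 1000000000, 1106236778411 / 1000000000,
    -202759623819 / 500000000]
  nu := [22597827 / 250000000, -226897659 / 1000000000, 195954929 / 500000000, 11683247 /
    500000000, -228199209 / 1000000000, 1200656333 / 1000000000, -229192497 / 200000000]
  k2 := [913570637 / 1000000000, 103655257 / 500000000, -10452371 / 31250000, -51888497 /
    500000000, 295357309 / 1000000000, -1185488011 / 1000000000, 232073381 / 200000000]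
  dR := [14501287 / 100000000, -47283821 / 100000000, 107115713 / 25000000, -62179071 / 800000,
    8411981847 / 20000000, -90266272287 / 100000000, 34332451461 / 50000000]

def t3d24 : Xce where
  u0 := 106723 / 250000
  u1 := 433443 / 1000000
  l := V2L.y11
  y := t3z11
  j := t3j11
  i := t3i11
  ls := t3y11
  k := V2L.k11
  c := t3f24
  ga := 4523 / 200000
  gb := -4651 / 500000
  hb := 53687 / 500000
  gs := [160003053 / 100000000, 239999899 / 100000000, 90001819 / 50000000, 39775527 / 50000000,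
    13448751 / 50000000, -1268167 / 10000000, -1386829 / 25000000]
  d1 := [90589 / 4000000, 98799 / 25000000, 299631 / 12500000, 3207309 / 100000000, 2359647 /
    100000000, -276087 / 10000000, 1411347 / 25000000]
  d2 := [1227 / 12500000, 2165617 / 100000000, 4448501 / 50000000, 1722087 / 50000000, 39280719 /
    100000000, -2756983 / 2500000, 94348489 / 100000000]
  dy := [9579373 / 50000000, 7157963 / 100000000, 27131721 / 100000000, 21065189 / 25000000,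
    -29942539 / 20000000, 6673581 / 5000000, -485487 / 1000000]
  t1 := [13141957 / 100000000, -21962543 / 50000000, 21979361 / 50000000, -24354433 / 25000000,
    328607339 / 50000000, -372012653 / 25000000, 15803461 / 1250000]
  t2 := [3262479 / 100000000, -10625261 / 100000000, 13615679 / 100000000, 20193611 / 100000000,
    34169739 / 50000000, -41726663 / 20000000, 34585649 / 20000000]
  ty := [44554849 / 50000000, -1351951 / 400000, 312160193 / 100000000, 1184858989 / 100000000,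
    -147464721 / 5000000, 118744261 / 4000000, -1258420101 / 100000000]

def t3m24 : ℚ := 431 / 1024

def t3h24 : ℚ := 63 / 125

theorem t3k24_M_r1 : NC (fM t3c24 (1 - eh) eh ek (elo t3c24.B0 t3c24.Bh eh) (elo t3c24.D0 t3c24.Dh ek) (elo t3c24.E0 t3c24.Eh ek)) :=
  NC.of (K := 32) (D := ⟨4, 3, 1, 1⟩) (Box.of 4 (by decide +kernel))
    (by decide +kernel)

theorem t3k24_M_r2 : NC (fM t3c24 eh (1 - eh) ek (ehi t3c24.Bh t3c24.B1 (1 - eh)) (elo t3c24.D0 t3c24.Dh ek) (elo t3c24.E0 t3c24.Eh ek)) :=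
  NC.of (K := 32) (D := ⟨4, 3, 1, 1⟩) (Box.of 4 (by decide +kernel))
    (by decide +kernel)

theorem t3k24_M_r3 : NC (fM t3c24 (1 - eh) ek eh (elo t3c24.B0 t3c24.Bh ek) (elo t3c24.D0 t3c24.Dh eh) (elo t3c24.E0 t3c24.Eh eh)) :=
  NC.of (K := 31) (D := ⟨4, 2, 1, 1⟩) (Box.of 4 (by decide +kernel))
    (by decide +kernel)

theorem t3k24_M_r4 : NC (fM t3c24 eh ek (1 - eh) (elo t3c24.B0 t3c24.Bh ek) (ehi t3c24.Dh t3c24.D1 (1 - eh)) (ehi t3c24.Eh t3c24.E1 (1 - eh))) :=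
  NC.of (K := 31) (D := ⟨4, 2, 1, 1⟩) (Box.of 4 (by decide +kernel))
    (by decide +kernel)

theorem t3k24_r0_r1 : NC (f0 t3c24 (1 - eh) eh ek (elo t3c24.B0 t3c24.Bh eh) (elo t3c24.D0 t3c24.Dh ek) (elo t3c24.E0 t3c24.Eh ek)) :=
  NC.of (K := 151) (D := ⟨13, 9, 1, 1⟩) (Box.of 4 (by decide +kernel))
    (by decide +kernel)

theorem t3k24_r0_r2 : NC (f0 t3c24 eh (1 - eh) ek (ehi t3c24.Bh t3c24.B1 (1 - eh)) (elo t3c24.D0 t3c24.Dh ek) (elo t3c24.E0 t3c24.Eh ek)) :=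
  NC.of (K := 151) (D := ⟨13, 9, 1, 1⟩) (Box.of 4 (by decide +kernel))
    (by decide +kernel)

theorem t3k24_r0_r3 : NC (f0 t3c24 (1 - eh) ek eh (elo t3c24.B0 t3c24.Bh ek) (elo t3c24.D0 t3c24.Dh eh) (elo t3c24.E0 t3c24.Eh eh)) :=
  NC.of (K := 146) (D := ⟨13, 5, 1, 1⟩) (Box.of 4 (by decide +kernel))
    (by decide +kernel)

theorem t3k24_r0_r4 : NC (f0 t3c24 eh ek (1 - eh) (elo t3c24.B0 t3c24.Bh ek) (ehi t3c24.Dh t3c24.D1 (1 - eh)) (ehi t3c24.Eh t3c24.E1 (1 - eh))) :=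
  NC.of (K := 147) (D := ⟨13, 5, 1, 1⟩) (Box.of 4 (by decide +kernel))
    (by decide +kernel)

theorem t3k24_r1_r1 : NC (f1 t3c24 (1 - eh) eh ek (elo t3c24.B0 t3c24.Bh eh) (elo t3c24.D0 t3c24.Dh ek) (elo t3c24.E0 t3c24.Eh ek)) :=
  NC.of (K := 236) (D := ⟨16, 9, 1, 1⟩) (Box.of 4 (by decide +kernel))
    (by decide +kernel)

theorem t3k24_r1_r2 : NC (f1 t3c24 eh (1 - eh) ek (ehi t3c24.Bh t3c24.B1 (1 - eh)) (elo t3c24.D0 t3c24.Dh ek) (elo t3c24.E0 t3c24.Eh ek)) :=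
  NC.of (K := 243) (D := ⟨16, 9, 1, 1⟩) (Box.of 4 (by decide +kernel))
    (by decide +kernel)

theorem t3k24_r1_r3 : NC (f1 t3c24 (1 - eh) ek eh (elo t3c24.B0 t3c24.Bh ek) (elo t3c24.D0 t3c24.Dh eh) (elo t3c24.E0 t3c24.Eh eh)) :=
  NC.of (K := 239) (D := ⟨16, 12, 1, 1⟩) (Box.of 4 (by decide +kernel))
    (by decide +kernel)

theorem t3k24_r1_r4 : NC (f1 t3c24 eh ek (1 - eh) (elo t3c24.B0 t3c24.Bh ek) (ehi t3c24.Dh t3c24.D1 (1 - eh)) (ehi t3c24.Eh t3c24.E1 (1 - eh))) :=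
  NC.of (K := 240) (D := ⟨16, 12, 1, 1⟩) (Box.of 4 (by decide +kernel))
    (by decide +kernel)

theorem t3k24_r2_r1 : NC (f2 t3c24 (1 - eh) eh ek (elo t3c24.B0 t3c24.Bh eh) (elo t3c24.D0 t3c24.Dh ek) (elo t3c24.E0 t3c24.Eh ek)) :=
  NC.of (K := 266) (D := ⟨16, 11, 1, 1⟩) (Box.of 288 (by decide +kernel))
    (by decide +kernel)

theorem t3k24_r2_r2 : NC (f2 t3c24 eh (1 - eh) ek (ehi t3c24.Bh t3c24.B1 (1 - eh)) (elo t3c24.D0 t3c24.Dh ek) (elo t3c24.E0 t3c24.Eh ek)) :=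
  NC.of (K := 246) (D := ⟨16, 11, 1, 1⟩) (Box.of 4 (by decide +kernel))
    (by decide +kernel)

theorem t3k24_r2_r3 : NC (f2 t3c24 (1 - eh) ek eh (elo t3c24.B0 t3c24.Bh ek) (elo t3c24.D0 t3c24.Dh eh) (elo t3c24.E0 t3c24.Eh eh)) :=
  NC.of (K := 268) (D := ⟨16, 12, 1, 1⟩) (Box.of 288 (by decide +kernel))
    (by decide +kernel)

theorem t3k24_r2_r4 : NC (f2 t3c24 eh ek (1 - eh) (elo t3c24.B0 t3c24.Bh ek) (ehi t3c24.Dh t3c24.D1 (1 - eh)) (ehi t3c24.Eh t3c24.E1 (1 - eh))) :=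
  NC.of (K := 242) (D := ⟨16, 12, 1, 1⟩) (Box.of 4 (by decide +kernel))
    (by decide +kernel)

theorem t3k24_rc_r1 : NC (fc t3c24 (1 - eh) eh ek (elo t3c24.B0 t3c24.Bh eh) (elo t3c24.D0 t3c24.Dh ek) (elo t3c24.E0 t3c24.Eh ek)) :=
  NC.of (K := 151) (D := ⟨13, 9, 1, 1⟩) (Box.of 4 (by decide +kernel))
    (by decide +kernel)

theorem t3k24_rc_r2 : NC (fc t3c24 eh (1 - eh) ek (ehi t3c24.Bh t3c24.B1 (1 - eh)) (elo t3c24.D0 t3c24.Dh ek) (elo t3c24.E0 t3c24.Eh ek)) :=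
  NC.of (K := 151) (D := ⟨13, 9, 1, 1⟩) (Box.of 4 (by decide +kernel))
    (by decide +kernel)

theorem t3k24_rc_r3 : NC (fc t3c24 (1 - eh) ek eh (elo t3c24.B0 t3c24.Bh ek) (elo t3c24.D0 t3c24.Dh eh) (elo t3c24.E0 t3c24.Eh eh)) :=
  NC.of (K := 146) (D := ⟨13, 5, 1, 1⟩) (Box.of 4 (by decide +kernel))
    (by decide +kernel)

theorem t3k24_rc_r4 : NC (fc t3c24 eh ek (1 - eh) (elo t3c24.B0 t3c24.Bh ek) (ehi t3c24.Dh t3c24.D1 (1 - eh)) (ehi t3c24.Eh t3c24.E1 (1 - eh))) :=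
  NC.of (K := 147) (D := ⟨13, 5, 1, 1⟩) (Box.of 4 (by decide +kernel))
    (by decide +kernel)

theorem t3k24_rI_r1 : NC (fI t3c24 (1 - eh) eh ek (elo t3c24.B0 t3c24.Bh eh) (elo t3c24.D0 t3c24.Dh ek) (elo t3c24.E0 t3c24.Eh ek)) :=
  NC.of (K := 139) (D := ⟨13, 9, 1, 1⟩) (Box.of 4 (by decide +kernel))
    (by decide +kernel)

theorem t3k24_rI_r2 : NC (fI t3c24 eh (1 - eh) ek (ehi t3c24.Bh t3c24.B1 (1 - eh)) (elo t3c24.D0 t3c24.Dh ek) (elo t3c24.E0 t3c24.Eh ek)) :=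
  NC.of (K := 140) (D := ⟨13, 9, 1, 1⟩) (Box.of 4 (by decide +kernel))
    (by decide +kernel)

theorem t3k24_rI_r3 : NC (fI t3c24 (1 - eh) ek eh (elo t3c24.B0 t3c24.Bh ek) (elo t3c24.D0 t3c24.Dh eh) (elo t3c24.E0 t3c24.Eh eh)) :=
  NC.of (K := 134) (D := ⟨13, 5, 1, 1⟩) (Box.of 4 (by decide +kernel))
    (by decide +kernel)

theorem t3k24_rI_r4 : NC (fI t3c24 eh ek (1 - eh) (elo t3c24.B0 t3c24.Bh ek) (ehi t3c24.Dh t3c24.D1 (1 - eh)) (ehi t3c24.Eh t3c24.E1 (1 - eh))) :=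
  NC.of (K := 136) (D := ⟨13, 5, 1, 1⟩) (Box.of 4 (by decide +kernel))
    (by decide +kernel)

theorem t3k24_rJ_r1 : NC (fJ t3c24 (1 - eh) eh ek (elo t3c24.B0 t3c24.Bh eh) (elo t3c24.D0 t3c24.Dh ek) (elo t3c24.E0 t3c24.Eh ek)) :=
  NC.of (K := 76) (D := ⟨7, 5, 1, 1⟩) (Box.of 4 (by decide +kernel))
    (by decide +kernel)

theorem t3k24_rJ_r2 : NC (fJ t3c24 eh (1 - eh) ek (ehi t3c24.Bh t3c24.B1 (1 - eh)) (elo t3c24.D0 t3c24.Dh ek) (elo t3c24.E0 t3c24.Eh ek)) :=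
  NC.of (K := 76) (D := ⟨7, 5, 1, 1⟩) (Box.of 4 (by decide +kernel))
    (by decide +kernel)

theorem t3k24_rJ_r3 : NC (fJ t3c24 (1 - eh) ek eh (elo t3c24.B0 t3c24.Bh ek) (elo t3c24.D0 t3c24.Dh eh) (elo t3c24.E0 t3c24.Eh eh)) :=
  NC.of (K := 74) (D := ⟨7, 3, 1, 1⟩) (Box.of 4 (by decide +kernel))
    (by decide +kernel)

theorem t3k24_rJ_r4 : NC (fJ t3c24 eh ek (1 - eh) (elo t3c24.B0 t3c24.Bh ek) (ehi t3c24.Dh t3c24.D1 (1 - eh)) (ehi t3c24.Eh t3c24.E1 (1 - eh))) :=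
  NC.of (K := 74) (D := ⟨7, 3, 1, 1⟩) (Box.of 4 (by decide +kernel))
    (by decide +kernel)

theorem t3k24_gE_r1 : NC (fE t3c24 t3e24 (1 - eh) eh ek (elo t3c24.B0 t3c24.Bh eh) (elo t3c24.D0 t3c24.Dh ek) (elo t3c24.E0 t3c24.Eh ek)) :=
  NC.of (K := 186) (D := ⟨13, 9, 1, 1⟩) (Box.of 18688 (by decide +kernel))
    (by decide +kernel)

theorem t3k24_gE_r2 : NC (fE t3c24 t3e24 eh (1 - eh) ek (ehi t3c24.Bh t3c24.B1 (1 - eh)) (elo t3c24.D0 t3c24.Dh ek) (elo t3c24.E0 t3c24.Eh ek)) :=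
  NC.of (K := 142) (D := ⟨13, 9, 1, 1⟩) (Box.of 4 (by decide +kernel))
    (by decide +kernel)

theorem t3k24_gE_r3 : NC (fE t3c24 t3e24 (1 - eh) ek eh (elo t3c24.B0 t3c24.Bh ek) (elo t3c24.D0 t3c24.Dh eh) (elo t3c24.E0 t3c24.Eh eh)) :=
  NC.of (K := 183) (D := ⟨13, 7, 1, 1⟩) (Box.of 18688 (by decide +kernel))
    (by decide +kernel)

theorem t3k24_gE_r4 : NC (fE t3c24 t3e24 eh ek (1 - eh) (elo t3c24.B0 t3c24.Bh ek) (ehi t3c24.Dh t3c24.D1 (1 - eh)) (ehi t3c24.Eh t3c24.E1 (1 - eh))) :=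
  NC.of (K := 140) (D := ⟨13, 7, 1, 1⟩) (Box.of 4 (by decide +kernel))
    (by decide +kernel)

theorem t3k24_B0 : NC (kB dW 1 0 t3c24.B0 (tcl t3c24)) :=
  NC.of (K := 120) (D := ⟨1, 1, 1, 9⟩) (Box.of 4 (by decide +kernel))
    (by decide +kernel)

theorem t3k24_E0 : NC (kE dW qW qW.p0 qW.q0 t3c24.E0 (tcl t3c24)) :=
  NC.of (K := 267) (D := ⟨1, 1, 1, 19⟩) (Box.of 4 (by decide +kernel))
    (by decide +kernel)

theorem t3k24_D0 : NC (kD dW qW 1 0 qW.p0 qW.q0 t3c24.D0 (tcl t3c24)) :=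
  NC.of (K := 387) (D := ⟨1, 1, 1, 20⟩) (Box.of 4 (by decide +kernel))
    (by decide +kernel)

theorem t3k24_Bh : NC (kB dW (1 / 2) (1 / 2) t3c24.Bh (tcl t3c24)) :=
  NC.of (K := 123) (D := ⟨1, 1, 1, 9⟩) (Box.of 4 (by decide +kernel))
    (by decide +kernel)

theorem t3k24_Eh : NC (kE dW qW qW.ph qW.qh t3c24.Eh (tcl t3c24)) :=
  NC.of (K := 271) (D := ⟨1, 1, 1, 19⟩) (Box.of 4 (by decide +kernel))
    (by decide +kernel)

theorem t3k24_Dh : NC (kD dW qW (1 / 2) (1 / 2) qW.ph qW.qh t3c24.Dh (tcl t3c24)) :=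
  NC.of (K := 391) (D := ⟨1, 1, 1, 20⟩) (Box.of 4 (by decide +kernel))
    (by decide +kernel)

theorem t3k24_B1 : NC (kB dW 0 (1 / 2) t3c24.B1 (tcl t3c24)) :=
  NC.of (K := 123) (D := ⟨1, 1, 1, 9⟩) (Box.of 4 (by decide +kernel))
    (by decide +kernel)

theorem t3k24_E1 : NC (kE dW qW qW.p1 qW.q1 t3c24.E1 (tcl t3c24)) :=
  NC.of (K := 271) (D := ⟨1, 1, 1, 19⟩) (Box.of 4 (by decide +kernel))
    (by decide +kernel)

theorem t3k24_D1 : NC (kD dW qW 0 (1 / 2) qW.p1 qW.q1 t3c24.D1 (tcl t3c24)) :=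
  NC.of (K := 391) (D := ⟨1, 1, 1, 20⟩) (Box.of 4 (by decide +kernel))
    (by decide +kernel)

theorem t3k24_l : NC (qc t3n24.lb - (1 - vX) * pe (exl t3c24.th) vX ^ 2) :=
  NC.of (K := 122) (D := ⟨10, 1, 1, 1⟩) (Box.of 4 (by decide +kernel))
    (by decide +kernel)

theorem t3k24_n : NC (qc t3n24.nb - vX * (1 - vX) * pe (exl t3c24.th) vX) :=
  NC.of (K := 102) (D := ⟨7, 1, 1, 1⟩) (Box.of 1196064 (by decide +kernel))
    (by decide +kernel)

theorem t3k24_rb : NC (krb t3n24 fW (t1v t3c24)) :=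
  NC.of (K := 194) (D := ⟨1, 1, 1, 16⟩) (Box.of 4 (by decide +kernel))
    (by decide +kernel)

theorem t3k24_kap : NC (kkap dW qW t3n24 (tcl t3c24)) :=
  NC.of (K := 120) (D := ⟨1, 1, 1, 9⟩) (Box.of 4 (by decide +kernel))
    (by decide +kernel)

theorem t3k24_wb2 : NC (qc t3n24.b2 - pe2 kW.QB (vZ * t1v t3c24) (t1v t3c24)) :=
  NC.of (K := 148) (D := ⟨1, 6, 1, 11⟩) (Box.of 291 (by decide +kernel))
    (by decide +kernel)

theorem t3k24_wmb : NC (qc t3n24.Mb - pe zW.mb (t1v t3c24)) :=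
  NC.of (K := 118) (D := ⟨1, 1, 1, 9⟩) (Box.of 291 (by decide +kernel))
    (by decide +kernel)

theorem t3k24_wth : NC (qc (t3c24.th / t3c24.t1) - pe2 zW.Qt (vZ * t1v t3c24) (t1v t3c24)) :=
  NC.of (K := 157) (D := ⟨1, 6, 1, 11⟩) (Box.of 291 (by decide +kernel))
    (by decide +kernel)

theorem t3k24_wyb : NC (qc t3n24.Yb - (t1v t3c24 - vZ * t1v t3c24) ^ 3 * pe2 yW.QY (vZ * t1v t3c24) (t1v t3c24)) :=
  NC.of (K := 137) (D := ⟨1, 8, 1, 12⟩) (Box.of 4 (by decide +kernel))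
    (by decide +kernel)

theorem t3k24_wmu : NC (qc t3m24 - pe t3al (tcl t3c24) * (1 + hlf * tcl t3c24)) :=
  NC.of (K := 116) (D := ⟨1, 1, 1, 9⟩) (Box.of 4 (by decide +kernel))
    (by decide +kernel)

theorem t3k24_wcj : NC (qc t3c24.C * ((6 - 3 * vX) * (1 - qc t3m24 * vX)) - (6 - 6 * vX + vX ^ 2)) :=
  NC.of (K := 32) (D := ⟨3, 1, 1, 1⟩) (Box.of 4 (by decide +kernel))
    (by decide +kernel)

theorem t3k24_nd1 : NC (pe t3r24.d1 (t1v t3c24)) :=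
  NC.of (K := 74) (D := ⟨1, 1, 1, 7⟩) (Box.of 4 (by decide +kernel))
    (by decide +kernel)

theorem t3k24_nd2 : NC (pe t3r24.d2 (t1v t3c24)) :=
  NC.of (K := 75) (D := ⟨1, 1, 1, 7⟩) (Box.of 4 (by decide +kernel))
    (by decide +kernel)

theorem t3k24_ndy : NC (pe t3r24.dy (t1v t3c24)) :=
  NC.of (K := 75) (D := ⟨1, 1, 1, 7⟩) (Box.of 4 (by decide +kernel))
    (by decide +kernel)

theorem t3k24_nt1 : NC (pe t3r24.t1 (t1v t3c24)) :=
  NC.of (K := 79) (D := ⟨1, 1, 1, 7⟩) (Box.of 4 (by decide +kernel))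
    (by decide +kernel)

theorem t3k24_nt2 : NC (pe t3r24.t2 (t1v t3c24)) :=
  NC.of (K := 76) (D := ⟨1, 1, 1, 7⟩) (Box.of 4 (by decide +kernel))
    (by decide +kernel)

theorem t3k24_nty : NC (pe t3r24.ty (t1v t3c24)) :=
  NC.of (K := 81) (D := ⟨1, 1, 1, 7⟩) (Box.of 4 (by decide +kernel))
    (by decide +kernel)

theorem t3k24_nhz : NC (pe t3r24.hz (t1v t3c24)) :=
  NC.of (K := 106) (D := ⟨1, 1, 1, 7⟩) (Box.of 18659 (by decide +kernel))
    (by decide +kernel)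

theorem t3k24_xi : NC (eXi fW t3c24 t3e24 t3r24 (t1v t3c24)) :=
  NC.of (K := 317) (D := ⟨1, 1, 1, 22⟩) (Box.of 4 (by decide +kernel))
    (by decide +kernel)

theorem t3k24_om : NC (eOm fW t3r24 (t1v t3c24)) :=
  NC.of (K := 185) (D := ⟨1, 1, 1, 16⟩) (Box.of 4 (by decide +kernel))
    (by decide +kernel)

theorem t3k24_fin : NC (eFin dW t3c24 t3n24 t3r24 t3h24 (tcl t3c24)) :=
  NC.of (K := 263) (D := ⟨1, 1, 1, 14⟩) (Box.of 4 (by decide +kernel))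
    (by decide +kernel)

theorem t3k24_xdl : NC (qc t3e24.dl - pe t3d24.l.dl t3d24.eU) :=
  NC.of (K := 73) (D := ⟨1, 4, 1, 1⟩) (Box.of 4 (by decide +kernel))
    (by decide +kernel)

theorem t3k24_xeY : NC (qc t3e24.eY - pe (e4l t3d24.l.z) t3d24.eU) :=
  NC.of (K := 288) (D := ⟨1, 13, 1, 1⟩) (Box.of 4 (by decide +kernel))
    (by decide +kernel)

theorem t3k24_xgr : NC (qc t3d24.ga * ((1 + qc (3 / 5) * vX) * (1 + (t3d24.eg + hlf * t3d24.eg ^ 2))) + qc t3d24.gb - pe2 t3GR vX t3d24.eU) :=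
  NC.of (K := 262) (D := ⟨4, 11, 1, 1⟩) (Box.of 1196064 (by decide +kernel))
    (by decide +kernel)

theorem t3k24_xhr : NC (qc t3d24.hb - pe2 t3HR vX t3d24.eU) :=
  NC.of (K := 263) (D := ⟨3, 12, 1, 1⟩) (Box.of 4 (by decide +kernel))
    (by decide +kernel)

theorem t3k24_xgs : NC (pe t3d24.gs t3d24.e1 - qc (8 / 5) * pe (e4l (ladd t3d24.ls.z t3d24.ls.dl)) t3d24.e1) :=
  NC.of (K := 296) (D := ⟨1, 1, 1, 13⟩) (Box.of 4 (by decide +kernel))
    (by decide +kernel)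

theorem t3k24_xd1 : NC (pe t3d24.d1 t3d24.e1 - t3d24.eA t3d24.eU t3d24.e1) :=
  NC.of (K := 285) (D := ⟨1, 12, 1, 12⟩) (Box.of 4 (by decide +kernel))
    (by decide +kernel)

theorem t3k24_xd2 : NC (pe t3d24.d2 t3d24.e1 - t3d24.eB t3d24.eU t3d24.e1) :=
  NC.of (K := 288) (D := ⟨1, 12, 1, 12⟩) (Box.of 4 (by decide +kernel))
    (by decide +kernel)

theorem t3k24_xt1 : NC (pe t3d24.t1 t3d24.e1 - t3d24.eAT t3d24.eU t3d24.e1) :=
  NC.of (K := 471) (D := ⟨1, 19, 1, 19⟩) (Box.of 4 (by decide +kernel))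
    (by decide +kernel)

theorem t3k24_xt2 : NC (pe t3d24.t2 t3d24.e1 - t3d24.eBT t3d24.eU t3d24.e1) :=
  NC.of (K := 469) (D := ⟨1, 19, 1, 19⟩) (Box.of 4 (by decide +kernel))
    (by decide +kernel)

theorem t3k24_xdy : NC (pe t3d24.dy t3d24.e1 - t3d24.eSD t3d24.eU t3d24.e1) :=
  NC.of (K := 444) (D := ⟨1, 18, 1, 12⟩) (Box.of 4 (by decide +kernel))
    (by decide +kernel)

theorem t3k24_xty : NC (pe t3d24.ty t3d24.e1 - t3d24.eST t3d24.eU t3d24.e1) :=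
  NC.of (K := 665) (D := ⟨1, 26, 1, 26⟩) (Box.of 4 (by decide +kernel))
    (by decide +kernel)

theorem t3k24_xd1s : NC (pe t3r24.d1 (t1v t3c24) - pe t3d24.d1 (Xcd.ew zW t3c24)) :=
  NC.of (K := 675) (D := ⟨1, 1, 1, 55⟩) (Box.of 4 (by decide +kernel))
    (by decide +kernel)

theorem t3k24_xd2s : NC (pe t3r24.d2 (t1v t3c24) - pe t3d24.d2 (Xcd.ew zW t3c24)) :=
  NC.of (K := 681) (D := ⟨1, 1, 1, 55⟩) (Box.of 4 (by decide +kernel))
    (by decide +kernel)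

theorem t3k24_xt1s : NC (pe t3r24.t1 (t1v t3c24) - pe t3d24.t1 (Xcd.ew zW t3c24)) :=
  NC.of (K := 678) (D := ⟨1, 1, 1, 55⟩) (Box.of 4 (by decide +kernel))
    (by decide +kernel)

theorem t3k24_xt2s : NC (pe t3r24.t2 (t1v t3c24) - pe t3d24.t2 (Xcd.ew zW t3c24)) :=
  NC.of (K := 680) (D := ⟨1, 1, 1, 55⟩) (Box.of 4 (by decide +kernel))
    (by decide +kernel)

theorem t3k24_xdys : NC (pe t3r24.dy (t1v t3c24) - pe t3d24.dy (Xcd.ew zW t3c24)) :=
  NC.of (K := 674) (D := ⟨1, 1, 1, 55⟩) (Box.of 4 (by decide +kernel))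
    (by decide +kernel)

theorem t3k24_xtys : NC (pe t3r24.ty (t1v t3c24) - pe t3d24.ty (Xcd.ew zW t3c24)) :=
  NC.of (K := 685) (D := ⟨1, 1, 1, 55⟩) (Box.of 4 (by decide +kernel))
    (by decide +kernel)

theorem t3k24_xhz : NC (pe t3r24.hz (t1v t3c24) - pe t3d24.c.dR (Xcd.ew zW t3c24)) :=
  NC.of (K := 690) (D := ⟨1, 1, 1, 55⟩) (Box.of 4 (by decide +kernel))
    (by decide +kernel)

theorem t3f24_ok : t3f24.ok V2L.y11 V2L.k11 V2L.nb V2L.la (10 ^ 30) 32 = true := by decide +kernel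

theorem t3k24_sg : t3c24.Sg := by
  constructor <;> decide +kernel

theorem t3k24_rgs : t3c24.Rgs where
  M := ⟨t3k24_M_r1, t3k24_M_r2, t3k24_M_r3, t3k24_M_r4⟩
  r0 := ⟨t3k24_r0_r1, t3k24_r0_r2, t3k24_r0_r3, t3k24_r0_r4⟩
  r1 := ⟨t3k24_r1_r1, t3k24_r1_r2, t3k24_r1_r3, t3k24_r1_r4⟩
  r2 := ⟨t3k24_r2_r1, t3k24_r2_r2, t3k24_r2_r3, t3k24_r2_r4⟩
  rc := ⟨t3k24_rc_r1, t3k24_rc_r2, t3k24_rc_r3, t3k24_rc_r4⟩
  rI := ⟨t3k24_rI_r1, t3k24_rI_r2, t3k24_rI_r3, t3k24_rI_r4⟩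
  rJ := ⟨t3k24_rJ_r1, t3k24_rJ_r2, t3k24_rJ_r3, t3k24_rJ_r4⟩

theorem t3k24_xn : t3e24.Ok t3c24 where
  lm := by decide +kernel
  dl0 := by decide +kernel
  dl1 := by decide +kernel
  e2 := by decide +kernel
  eY := by decide +kernel
  gE := ⟨t3k24_gE_r1, t3k24_gE_r2, t3k24_gE_r3, t3k24_gE_r4⟩

theorem t3k24_vl : t3c24.Vl dW qW where
  bt := by decide +kernel
  B0 := t3k24_B0
  E0 := t3k24_E0
  D0 := t3k24_D0
  Bh := t3k24_Bh
  Eh := t3k24_Eh
  Dh := t3k24_Dh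
  B1 := t3k24_B1
  E1 := t3k24_E1
  D1 := t3k24_D1

theorem t3k24_rat : t3n24.Rat t3c24 := by
  constructor <;> decide +kernel

theorem t3k24_ck : t3n24.Ck t3c24 := ⟨t3k24_l, t3k24_n⟩

theorem t3k24_fck : t3n24.Fck dW qW fW t3c24 := ⟨t3k24_rb, t3k24_kap⟩

theorem t3k24_w : Wcl zW kW yW t3al t3c24 t3n24 t3m24 where
  b2 := t3k24_wb2
  mb := t3k24_wmb
  th := t3k24_wth
  yb := t3k24_wyb
  mu := t3k24_wmu
  cj := t3k24_wcj
  mt1 := by decide +kernel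
  mt2 := by decide +kernel

theorem t3k24_ok : CelOk dW qW fW t3c24 t3n24 where
  s := t3k24_sg
  r := t3k24_rgs
  v := t3k24_vl
  rt := t3k24_rat
  k := t3k24_ck
  fc := t3k24_fck
  q01 := by decide +kernel
  q12 := by decide +kernel
  h2 := by decide +kernel

theorem t3k24_xr : t3r24.Ok fW t3c24 t3e24 where
  sD := by decide +kernel
  sT := by decide +kernel
  nd1 := t3k24_nd1
  nd2 := t3k24_nd2
  ndy := t3k24_ndy
  nt1 := t3k24_nt1
  nt2 := t3k24_nt2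
  nty := t3k24_nty
  nhz := t3k24_nhz
  xi := t3k24_xi
  om := t3k24_om

theorem t3k24_X : t3d24.Ck t3GR t3HR zW t3c24 t3e24 t3r24 where
  u0 := by decide +kernel
  u01 := by decide +kernel
  ul := by decide +kernel
  us := by decide +kernel
  uc := by decide +kernel
  ga0 := by decide +kernel
  kp0 := by decide +kernel
  lm := by decide +kernel
  dl := t3k24_xdl
  eY := t3k24_xeY
  gr := t3k24_xgr
  hr := t3k24_xhr
  gs := t3k24_xgs
  d1 := t3k24_xd1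
  d2 := t3k24_xd2
  t1 := t3k24_xt1
  t2 := t3k24_xt2
  dy := t3k24_xdy
  ty := t3k24_xty
  d1s := t3k24_xd1s
  d2s := t3k24_xd2s
  t1s := t3k24_xt1s
  t2s := t3k24_xt2s
  dys := t3k24_xdys
  tys := t3k24_xtys
  hz := t3k24_xhz

end Pool.Agent.RX.RCN.K
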