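import Pool.Agent.RX.RCN.T3D
import Pool.Agent.RX.RCN.T3Wq
import Pool.Agent.RX.RCN.T3X11
import Pool.Agent.RX.RCN.VLd

/-! Certificates (generated). -/

set_option autoImplicit false

namespace Pool.Agent.RX.RCN.K

open Set Pool.Agent.RX.RCM9 Pool.Agent.RX.RCM9.Bern Pool.Agent.RX.RCM9.Pk Xce

def t3c25 : Cel where
  t0 := 54 / 125
  t1 := 11 / 25
  C := 4097 / 4096
  th := 907 / 2048
  B0 := 271 / 256
  Bh := 1199 / 1024
  B1 := 2341 / 2048
  D0 := 173 / 512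
  Dh := 283 / 1024
  D1 := 1081 / 4096
  E0 := 30801 / 4194304
  Eh := 13039 / 2097152
  E1 := 24913 / 4194304
  Q0 := 1087 / 1024
  Q1 := 1087 / 1024
  Q2 := 553 / 512
  Ac := 1087 / 1024
  gI := 1087 / 1024
  J := 375 / 32768

def t3n25 : Chn where
  lb := 513 / 512
  nb := 81 / 256
  Mb := 1035 / 1024
  b2 := 65 / 64
  Yb := 11 / 1024
  E2 := 4185 / 4096
  e1 := 649 / 512
  Z1 := 1123 / 1024
  Z2 := 79 / 128
  KB := 1061 / 1024
  cb := 1079 / 1024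
  rb := 95 / 256
  om := 263 / 256
  fb := 129 / 128
  kap := 1045 / 1024
  ab := 1029 / 1024

def t3e25 : Xge where
  lm := 3 / 5
  dl := 441 / 1024
  e2 := 1767 / 16384
  eY := 4143 / 4096
  gE := 579 / 512

def t3r25 : Xr where
  d1 := [1212921 / 50000000, 358237 / 100000000, 155213 / 6250000, 1665469 / 100000000, 1966123 /
    20000000, -19542377 / 100000000, 19655407 / 100000000]
  d2 := [11531 / 100000000, 130939 / 6250000, 372139 / 5000000, 1832241 / 12500000, -256243 /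
    4000000, -10391199 / 50000000, 14063019 / 50000000]
  dy := [1063967 / 5000000, 419829 / 6250000, 26400023 / 100000000, 76732487 / 100000000, -3667959
    / 4000000, -9875277 / 100000000, 37860803 / 50000000]
  t1 := [13720749 / 100000000, -2248309 / 5000000, 46201117 / 100000000, -120092277 / 100000000,
    754397601 / 100000000, -104788169 / 6250000, 174757631 / 12500000]
  t2 := [1755527 / 50000000, -11420921 / 100000000, 5578889 / 50000000, 8921329 / 20000000,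
    -17419177 / 50000000, 31059 / 50000000, 7146919 / 50000000]
  ty := [96375041 / 100000000, -363311943 / 100000000, 22891559 / 6250000, 16078033 / 1562500,
    -2447307099 / 100000000, 206451749 / 10000000, -615809337 / 100000000]
  hz := [7542541 / 50000000, -44629459 / 100000000, 303038969 / 100000000, -1533516903 / 25000000,
    16618634541 / 50000000, -69905741703 / 100000000, 2590679331 / 5000000]
  om := [100396699 / 100000000, 102362297 / 100000000, -1390474123 / 100000000, 5558970953 /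
    100000000, -13328314149 / 100000000, 29110670141 / 100000000, -861951807 / 1562500,
    33611661341 / 50000000, -18653659351 / 50000000]
  sD := 593 / 256
  sT := 263 / 128
  xi := [413863 / 5000000, 16773007 / 25000000, -153824309 / 50000000, 149251009 / 20000000,
    -3488213861 / 50000000, 43673485879 / 100000000, -58224331697 / 50000000, 71308677449 /
    50000000, -18769682799 / 25000000, 7940168513 / 50000000]

def t3f25 : Dl where
  Ca := 270901 / 625000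
  Cv := 441513 / 1000000
  k1 := 116249 / 125000
  ks := 910701 / 1000000
  dd := 0
  kp := 1 / 2500000
  e := [199999939799 / 200000000000, -1362487963817 / 1000000000000, 362920735243 / 250000000000,
    -1373470795943 / 1000000000000, 154300303121 / 125000000000, -1035387116499 / 1000000000000,
    48240471679 / 62500000000, -441576026383 / 1000000000000, 68014719861 / 500000000000]
  j1 := [-2513803 / 1000000000, -8495561419 / 1000000000, 78613633667 / 1000000000, -344549118131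
    / 1000000000, 876261915603 / 1000000000, -1315453018731 / 1000000000, 546932608133 /
    500000000, -396802082053 / 1000000000]
  nu := [93535127 / 1000000000, -230330933 / 1000000000, 77930509 / 200000000, 14412849 /
    250000000, -54458891 / 125000000, 834498613 / 500000000, -1535588429 / 1000000000]
  k2 := [910702611 / 1000000000, 209787347 / 1000000000, -330565309 / 1000000000, -17131881 /
    125000000, 244913689 / 500000000, -1621466903 / 1000000000, 1519466283 / 1000000000]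
  dR := [15054503 / 100000000, -44448467 / 100000000, 15000783 / 5000000, -3033179827 / 50000000,
    16390038369 / 50000000, -34366710487 / 50000000, 50783538161 / 100000000]

def t3d25 : Xce where
  u0 := 54243 / 125000
  u1 := 441513 / 1000000
  l := V2L.y11
  y := t3z11
  j := t3j11
  i := t3i11
  ls := t3y11
  k := V2L.k11
  c := t3f25
  ga := 24207 / 1000000
  gb := -10299 / 1000000
  hb := 116501 / 1000000
  gs := [16000309 / 10000000, 119999943 / 50000000, 180004031 / 100000000, 7954677 / 10000000,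
    26918387 / 100000000, -3182043 / 25000000, -344299 / 6250000]
  d1 := [606023 / 25000000, 361743 / 100000000, 233197 / 10000000, 156199 / 5000000, 1258601 /
    50000000, -193631 / 6250000, 5711959 / 100000000]
  d2 := [4887 / 50000000, 262551 / 12500000, 3523433 / 50000000, 18325471 / 100000000, -24936861 /
    100000000, 21398733 / 100000000, -7680207 / 100000000]
  dy := [21262461 / 100000000, 6738177 / 100000000, 25007099 / 100000000, 44693979 / 50000000,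
    -38989733 / 25000000, 68673103 / 50000000, -24820633 / 50000000]
  t1 := [3428421 / 25000000, -11201769 / 25000000, 90821 / 200000, -28585231 / 25000000, 362573699
    / 50000000, -201251601 / 12500000, 670153633 / 50000000]
  t2 := [3509153 / 100000000, -2842851 / 25000000, 10670979 / 100000000, 607709 / 1250000,
    -55577347 / 100000000, 46901607 / 100000000, -623957 / 2500000]
  ty := [48163027 / 50000000, -362097267 / 100000000, 2825853 / 781250, 260116043 / 25000000,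
    -2507831459 / 100000000, 138778347 / 6250000, -754207541 / 100000000]

def t3m25 : ℚ := 1753 / 4096

def t3h25 : ℚ := 63 / 125

theorem t3k25_M_r1 : NC (fM t3c25 (1 - eh) eh ek (elo t3c25.B0 t3c25.Bh eh) (elo t3c25.D0 t3c25.Dh ek) (elo t3c25.E0 t3c25.Eh ek)) :=
  NC.of (K := 28) (D := ⟨4, 3, 1, 1⟩) (Box.of 4 (by decide +kernel))
    (by decide +kernel)

theorem t3k25_M_r2 : NC (fM t3c25 eh (1 - eh) ek (ehi t3c25.Bh t3c25.B1 (1 - eh)) (elo t3c25.D0 t3c25.Dh ek) (elo t3c25.E0 t3c25.Eh ek)) :=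
  NC.of (K := 28) (D := ⟨4, 3, 1, 1⟩) (Box.of 4 (by decide +kernel))
    (by decide +kernel)

theorem t3k25_M_r3 : NC (fM t3c25 (1 - eh) ek eh (elo t3c25.B0 t3c25.Bh ek) (elo t3c25.D0 t3c25.Dh eh) (elo t3c25.E0 t3c25.Eh eh)) :=
  NC.of (K := 27) (D := ⟨4, 2, 1, 1⟩) (Box.of 4 (by decide +kernel))
    (by decide +kernel)

theorem t3k25_M_r4 : NC (fM t3c25 eh ek (1 - eh) (elo t3c25.B0 t3c25.Bh ek) (ehi t3c25.Dh t3c25.D1 (1 - eh)) (ehi t3c25.Eh t3c25.E1 (1 - eh))) :=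
  NC.of (K := 29) (D := ⟨4, 2, 1, 1⟩) (Box.of 4 (by decide +kernel))
    (by decide +kernel)

theorem t3k25_r0_r1 : NC (f0 t3c25 (1 - eh) eh ek (elo t3c25.B0 t3c25.Bh eh) (elo t3c25.D0 t3c25.Dh ek) (elo t3c25.E0 t3c25.Eh ek)) :=
  NC.of (K := 137) (D := ⟨13, 9, 1, 1⟩) (Box.of 4 (by decide +kernel))
    (by decide +kernel)

theorem t3k25_r0_r2 : NC (f0 t3c25 eh (1 - eh) ek (ehi t3c25.Bh t3c25.B1 (1 - eh)) (elo t3c25.D0 t3c25.Dh ek) (elo t3c25.E0 t3c25.Eh ek)) :=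
  NC.of (K := 137) (D := ⟨13, 9, 1, 1⟩) (Box.of 4 (by decide +kernel))
    (by decide +kernel)

theorem t3k25_r0_r3 : NC (f0 t3c25 (1 - eh) ek eh (elo t3c25.B0 t3c25.Bh ek) (elo t3c25.D0 t3c25.Dh eh) (elo t3c25.E0 t3c25.Eh eh)) :=
  NC.of (K := 132) (D := ⟨13, 5, 1, 1⟩) (Box.of 4 (by decide +kernel))
    (by decide +kernel)

theorem t3k25_r0_r4 : NC (f0 t3c25 eh ek (1 - eh) (elo t3c25.B0 t3c25.Bh ek) (ehi t3c25.Dh t3c25.D1 (1 - eh)) (ehi t3c25.Eh t3c25.E1 (1 - eh))) :=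
  NC.of (K := 141) (D := ⟨13, 5, 1, 1⟩) (Box.of 4 (by decide +kernel))
    (by decide +kernel)

theorem t3k25_r1_r1 : NC (f1 t3c25 (1 - eh) eh ek (elo t3c25.B0 t3c25.Bh eh) (elo t3c25.D0 t3c25.Dh ek) (elo t3c25.E0 t3c25.Eh ek)) :=
  NC.of (K := 229) (D := ⟨16, 9, 1, 1⟩) (Box.of 4 (by decide +kernel))
    (by decide +kernel)

theorem t3k25_r1_r2 : NC (f1 t3c25 eh (1 - eh) ek (ehi t3c25.Bh t3c25.B1 (1 - eh)) (elo t3c25.D0 t3c25.Dh ek) (elo t3c25.E0 t3c25.Eh ek)) :=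
  NC.of (K := 232) (D := ⟨16, 9, 1, 1⟩) (Box.of 4 (by decide +kernel))
    (by decide +kernel)

theorem t3k25_r1_r3 : NC (f1 t3c25 (1 - eh) ek eh (elo t3c25.B0 t3c25.Bh ek) (elo t3c25.D0 t3c25.Dh eh) (elo t3c25.E0 t3c25.Eh eh)) :=
  NC.of (K := 233) (D := ⟨16, 12, 1, 1⟩) (Box.of 4 (by decide +kernel))
    (by decide +kernel)

theorem t3k25_r1_r4 : NC (f1 t3c25 eh ek (1 - eh) (elo t3c25.B0 t3c25.Bh ek) (ehi t3c25.Dh t3c25.D1 (1 - eh)) (ehi t3c25.Eh t3c25.E1 (1 - eh))) :=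
  NC.of (K := 233) (D := ⟨16, 12, 1, 1⟩) (Box.of 4 (by decide +kernel))
    (by decide +kernel)

theorem t3k25_r2_r1 : NC (f2 t3c25 (1 - eh) eh ek (elo t3c25.B0 t3c25.Bh eh) (elo t3c25.D0 t3c25.Dh ek) (elo t3c25.E0 t3c25.Eh ek)) :=
  NC.of (K := 260) (D := ⟨16, 11, 1, 1⟩) (Box.of 288 (by decide +kernel))
    (by decide +kernel)

theorem t3k25_r2_r2 : NC (f2 t3c25 eh (1 - eh) ek (ehi t3c25.Bh t3c25.B1 (1 - eh)) (elo t3c25.D0 t3c25.Dh ek) (elo t3c25.E0 t3c25.Eh ek)) :=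
  NC.of (K := 235) (D := ⟨16, 11, 1, 1⟩) (Box.of 4 (by decide +kernel))
    (by decide +kernel)

theorem t3k25_r2_r3 : NC (f2 t3c25 (1 - eh) ek eh (elo t3c25.B0 t3c25.Bh ek) (elo t3c25.D0 t3c25.Dh eh) (elo t3c25.E0 t3c25.Eh eh)) :=
  NC.of (K := 261) (D := ⟨16, 12, 1, 1⟩) (Box.of 288 (by decide +kernel))
    (by decide +kernel)

theorem t3k25_r2_r4 : NC (f2 t3c25 eh ek (1 - eh) (elo t3c25.B0 t3c25.Bh ek) (ehi t3c25.Dh t3c25.D1 (1 - eh)) (ehi t3c25.Eh t3c25.E1 (1 - eh))) :=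
  NC.of (K := 235) (D := ⟨16, 12, 1, 1⟩) (Box.of 4 (by decide +kernel))
    (by decide +kernel)

theorem t3k25_rc_r1 : NC (fc t3c25 (1 - eh) eh ek (elo t3c25.B0 t3c25.Bh eh) (elo t3c25.D0 t3c25.Dh ek) (elo t3c25.E0 t3c25.Eh ek)) :=
  NC.of (K := 137) (D := ⟨13, 9, 1, 1⟩) (Box.of 4 (by decide +kernel))
    (by decide +kernel)

theorem t3k25_rc_r2 : NC (fc t3c25 eh (1 - eh) ek (ehi t3c25.Bh t3c25.B1 (1 - eh)) (elo t3c25.D0 t3c25.Dh ek) (elo t3c25.E0 t3c25.Eh ek)) :=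
  NC.of (K := 137) (D := ⟨13, 9, 1, 1⟩) (Box.of 4 (by decide +kernel))
    (by decide +kernel)

theorem t3k25_rc_r3 : NC (fc t3c25 (1 - eh) ek eh (elo t3c25.B0 t3c25.Bh ek) (elo t3c25.D0 t3c25.Dh eh) (elo t3c25.E0 t3c25.Eh eh)) :=
  NC.of (K := 132) (D := ⟨13, 5, 1, 1⟩) (Box.of 4 (by decide +kernel))
    (by decide +kernel)

theorem t3k25_rc_r4 : NC (fc t3c25 eh ek (1 - eh) (elo t3c25.B0 t3c25.Bh ek) (ehi t3c25.Dh t3c25.D1 (1 - eh)) (ehi t3c25.Eh t3c25.E1 (1 - eh))) :=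
  NC.of (K := 141) (D := ⟨13, 5, 1, 1⟩) (Box.of 4 (by decide +kernel))
    (by decide +kernel)

theorem t3k25_rI_r1 : NC (fI t3c25 (1 - eh) eh ek (elo t3c25.B0 t3c25.Bh eh) (elo t3c25.D0 t3c25.Dh ek) (elo t3c25.E0 t3c25.Eh ek)) :=
  NC.of (K := 122) (D := ⟨13, 9, 1, 1⟩) (Box.of 4 (by decide +kernel))
    (by decide +kernel)

theorem t3k25_rI_r2 : NC (fI t3c25 eh (1 - eh) ek (ehi t3c25.Bh t3c25.B1 (1 - eh)) (elo t3c25.D0 t3c25.Dh ek) (elo t3c25.E0 t3c25.Eh ek)) :=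
  NC.of (K := 122) (D := ⟨13, 9, 1, 1⟩) (Box.of 4 (by decide +kernel))
    (by decide +kernel)

theorem t3k25_rI_r3 : NC (fI t3c25 (1 - eh) ek eh (elo t3c25.B0 t3c25.Bh ek) (elo t3c25.D0 t3c25.Dh eh) (elo t3c25.E0 t3c25.Eh eh)) :=
  NC.of (K := 117) (D := ⟨13, 5, 1, 1⟩) (Box.of 4 (by decide +kernel))
    (by decide +kernel)

theorem t3k25_rI_r4 : NC (fI t3c25 eh ek (1 - eh) (elo t3c25.B0 t3c25.Bh ek) (ehi t3c25.Dh t3c25.D1 (1 - eh)) (ehi t3c25.Eh t3c25.E1 (1 - eh))) :=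
  NC.of (K := 126) (D := ⟨13, 5, 1, 1⟩) (Box.of 4 (by decide +kernel))
    (by decide +kernel)

theorem t3k25_rJ_r1 : NC (fJ t3c25 (1 - eh) eh ek (elo t3c25.B0 t3c25.Bh eh) (elo t3c25.D0 t3c25.Dh ek) (elo t3c25.E0 t3c25.Eh ek)) :=
  NC.of (K := 70) (D := ⟨7, 5, 1, 1⟩) (Box.of 4 (by decide +kernel))
    (by decide +kernel)

theorem t3k25_rJ_r2 : NC (fJ t3c25 eh (1 - eh) ek (ehi t3c25.Bh t3c25.B1 (1 - eh)) (elo t3c25.D0 t3c25.Dh ek) (elo t3c25.E0 t3c25.Eh ek)) :=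
  NC.of (K := 70) (D := ⟨7, 5, 1, 1⟩) (Box.of 4 (by decide +kernel))
    (by decide +kernel)

theorem t3k25_rJ_r3 : NC (fJ t3c25 (1 - eh) ek eh (elo t3c25.B0 t3c25.Bh ek) (elo t3c25.D0 t3c25.Dh eh) (elo t3c25.E0 t3c25.Eh eh)) :=
  NC.of (K := 67) (D := ⟨7, 3, 1, 1⟩) (Box.of 4 (by decide +kernel))
    (by decide +kernel)

theorem t3k25_rJ_r4 : NC (fJ t3c25 eh ek (1 - eh) (elo t3c25.B0 t3c25.Bh ek) (ehi t3c25.Dh t3c25.D1 (1 - eh)) (ehi t3c25.Eh t3c25.E1 (1 - eh))) :=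
  NC.of (K := 71) (D := ⟨7, 3, 1, 1⟩) (Box.of 4 (by decide +kernel))
    (by decide +kernel)

theorem t3k25_gE_r1 : NC (fE t3c25 t3e25 (1 - eh) eh ek (elo t3c25.B0 t3c25.Bh eh) (elo t3c25.D0 t3c25.Dh ek) (elo t3c25.E0 t3c25.Eh ek)) :=
  NC.of (K := 166) (D := ⟨13, 9, 1, 1⟩) (Box.of 18688 (by decide +kernel))
    (by decide +kernel)

theorem t3k25_gE_r2 : NC (fE t3c25 t3e25 eh (1 - eh) ek (ehi t3c25.Bh t3c25.B1 (1 - eh)) (elo t3c25.D0 t3c25.Dh ek) (elo t3c25.E0 t3c25.Eh ek)) :=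
  NC.of (K := 122) (D := ⟨13, 9, 1, 1⟩) (Box.of 4 (by decide +kernel))
    (by decide +kernel)

theorem t3k25_gE_r3 : NC (fE t3c25 t3e25 (1 - eh) ek eh (elo t3c25.B0 t3c25.Bh ek) (elo t3c25.D0 t3c25.Dh eh) (elo t3c25.E0 t3c25.Eh eh)) :=
  NC.of (K := 164) (D := ⟨13, 7, 1, 1⟩) (Box.of 18688 (by decide +kernel))
    (by decide +kernel)

theorem t3k25_gE_r4 : NC (fE t3c25 t3e25 eh ek (1 - eh) (elo t3c25.B0 t3c25.Bh ek) (ehi t3c25.Dh t3c25.D1 (1 - eh)) (ehi t3c25.Eh t3c25.E1 (1 - eh))) :=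
  NC.of (K := 129) (D := ⟨13, 7, 1, 1⟩) (Box.of 4 (by decide +kernel))
    (by decide +kernel)

theorem t3k25_B0 : NC (kB dW 1 0 t3c25.B0 (tcl t3c25)) :=
  NC.of (K := 99) (D := ⟨1, 1, 1, 9⟩) (Box.of 4 (by decide +kernel))
    (by decide +kernel)

theorem t3k25_E0 : NC (kE dW qW qW.p0 qW.q0 t3c25.E0 (tcl t3c25)) :=
  NC.of (K := 218) (D := ⟨1, 1, 1, 19⟩) (Box.of 4 (by decide +kernel))
    (by decide +kernel)

theorem t3k25_D0 : NC (kD dW qW 1 0 qW.p0 qW.q0 t3c25.D0 (tcl t3c25)) :=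
  NC.of (K := 331) (D := ⟨1, 1, 1, 20⟩) (Box.of 4 (by decide +kernel))
    (by decide +kernel)

theorem t3k25_Bh : NC (kB dW (1 / 2) (1 / 2) t3c25.Bh (tcl t3c25)) :=
  NC.of (K := 104) (D := ⟨1, 1, 1, 9⟩) (Box.of 4 (by decide +kernel))
    (by decide +kernel)

theorem t3k25_Eh : NC (kE dW qW qW.ph qW.qh t3c25.Eh (tcl t3c25)) :=
  NC.of (K := 221) (D := ⟨1, 1, 1, 19⟩) (Box.of 4 (by decide +kernel))
    (by decide +kernel)

theorem t3k25_Dh : NC (kD dW qW (1 / 2) (1 / 2) qW.ph qW.qh t3c25.Dh (tcl t3c25)) :=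
  NC.of (K := 336) (D := ⟨1, 1, 1, 20⟩) (Box.of 4 (by decide +kernel))
    (by decide +kernel)

theorem t3k25_B1 : NC (kB dW 0 (1 / 2) t3c25.B1 (tcl t3c25)) :=
  NC.of (K := 104) (D := ⟨1, 1, 1, 9⟩) (Box.of 4 (by decide +kernel))
    (by decide +kernel)

theorem t3k25_E1 : NC (kE dW qW qW.p1 qW.q1 t3c25.E1 (tcl t3c25)) :=
  NC.of (K := 222) (D := ⟨1, 1, 1, 19⟩) (Box.of 4 (by decide +kernel))
    (by decide +kernel)

theorem t3k25_D1 : NC (kD dW qW 0 (1 / 2) qW.p1 qW.q1 t3c25.D1 (tcl t3c25)) :=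
  NC.of (K := 336) (D := ⟨1, 1, 1, 20⟩) (Box.of 4 (by decide +kernel))
    (by decide +kernel)

theorem t3k25_l : NC (qc t3n25.lb - (1 - vX) * pe (exl t3c25.th) vX ^ 2) :=
  NC.of (K := 118) (D := ⟨10, 1, 1, 1⟩) (Box.of 4 (by decide +kernel))
    (by decide +kernel)

theorem t3k25_n : NC (qc t3n25.nb - vX * (1 - vX) * pe (exl t3c25.th) vX) :=
  NC.of (K := 112) (D := ⟨7, 1, 1, 1⟩) (Box.of 76677152 (by decide +kernel))
    (by decide +kernel)

theorem t3k25_rb : NC (krb t3n25 fW (t1v t3c25)) :=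
  NC.of (K := 157) (D := ⟨1, 1, 1, 16⟩) (Box.of 4 (by decide +kernel))
    (by decide +kernel)

theorem t3k25_kap : NC (kkap dW qW t3n25 (tcl t3c25)) :=
  NC.of (K := 98) (D := ⟨1, 1, 1, 9⟩) (Box.of 4 (by decide +kernel))
    (by decide +kernel)

theorem t3k25_wb2 : NC (qc t3n25.b2 - pe2 kW.QB (vZ * t1v t3c25) (t1v t3c25)) :=
  NC.of (K := 144) (D := ⟨1, 6, 1, 11⟩) (Box.of 18715 (by decide +kernel))
    (by decide +kernel)

theorem t3k25_wmb : NC (qc t3n25.Mb - pe zW.mb (t1v t3c25)) :=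
  NC.of (K := 100) (D := ⟨1, 1, 1, 9⟩) (Box.of 291 (by decide +kernel))
    (by decide +kernel)

theorem t3k25_wth : NC (qc (t3c25.th / t3c25.t1) - pe2 zW.Qt (vZ * t1v t3c25) (t1v t3c25)) :=
  NC.of (K := 133) (D := ⟨1, 6, 1, 11⟩) (Box.of 291 (by decide +kernel))
    (by decide +kernel)

theorem t3k25_wyb : NC (qc t3n25.Yb - (t1v t3c25 - vZ * t1v t3c25) ^ 3 * pe2 yW.QY (vZ * t1v t3c25) (t1v t3c25)) :=
  NC.of (K := 110) (D := ⟨1, 8, 1, 12⟩) (Box.of 4 (by decide +kernel))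
    (by decide +kernel)

theorem t3k25_wmu : NC (qc t3m25 - pe t3al (tcl t3c25) * (1 + hlf * tcl t3c25)) :=
  NC.of (K := 98) (D := ⟨1, 1, 1, 9⟩) (Box.of 4 (by decide +kernel))
    (by decide +kernel)

theorem t3k25_wcj : NC (qc t3c25.C * ((6 - 3 * vX) * (1 - qc t3m25 * vX)) - (6 - 6 * vX + vX ^ 2)) :=
  NC.of (K := 34) (D := ⟨3, 1, 1, 1⟩) (Box.of 4 (by decide +kernel))
    (by decide +kernel)

theorem t3k25_nd1 : NC (pe t3r25.d1 (t1v t3c25)) :=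
  NC.of (K := 60) (D := ⟨1, 1, 1, 7⟩) (Box.of 4 (by decide +kernel))
    (by decide +kernel)

theorem t3k25_nd2 : NC (pe t3r25.d2 (t1v t3c25)) :=
  NC.of (K := 60) (D := ⟨1, 1, 1, 7⟩) (Box.of 4 (by decide +kernel))
    (by decide +kernel)

theorem t3k25_ndy : NC (pe t3r25.dy (t1v t3c25)) :=
  NC.of (K := 63) (D := ⟨1, 1, 1, 7⟩) (Box.of 4 (by decide +kernel))
    (by decide +kernel)

theorem t3k25_nt1 : NC (pe t3r25.t1 (t1v t3c25)) :=
  NC.of (K := 65) (D := ⟨1, 1, 1, 7⟩) (Box.of 4 (by decide +kernel))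
    (by decide +kernel)

theorem t3k25_nt2 : NC (pe t3r25.t2 (t1v t3c25)) :=
  NC.of (K := 62) (D := ⟨1, 1, 1, 7⟩) (Box.of 4 (by decide +kernel))
    (by decide +kernel)

theorem t3k25_nty : NC (pe t3r25.ty (t1v t3c25)) :=
  NC.of (K := 67) (D := ⟨1, 1, 1, 7⟩) (Box.of 4 (by decide +kernel))
    (by decide +kernel)

theorem t3k25_nhz : NC (pe t3r25.hz (t1v t3c25)) :=
  NC.of (K := 92) (D := ⟨1, 1, 1, 7⟩) (Box.of 18659 (by decide +kernel))
    (by decide +kernel)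

theorem t3k25_xi : NC (eXi fW t3c25 t3e25 t3r25 (t1v t3c25)) :=
  NC.of (K := 271) (D := ⟨1, 1, 1, 22⟩) (Box.of 4 (by decide +kernel))
    (by decide +kernel)

theorem t3k25_om : NC (eOm fW t3r25 (t1v t3c25)) :=
  NC.of (K := 150) (D := ⟨1, 1, 1, 16⟩) (Box.of 4 (by decide +kernel))
    (by decide +kernel)

theorem t3k25_fin : NC (eFin dW t3c25 t3n25 t3r25 t3h25 (tcl t3c25)) :=
  NC.of (K := 221) (D := ⟨1, 1, 1, 14⟩) (Box.of 4 (by decide +kernel))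
    (by decide +kernel)

theorem t3k25_xdl : NC (qc t3e25.dl - pe t3d25.l.dl t3d25.eU) :=
  NC.of (K := 73) (D := ⟨1, 4, 1, 1⟩) (Box.of 4 (by decide +kernel))
    (by decide +kernel)

theorem t3k25_xeY : NC (qc t3e25.eY - pe (e4l t3d25.l.z) t3d25.eU) :=
  NC.of (K := 288) (D := ⟨1, 13, 1, 1⟩) (Box.of 4 (by decide +kernel))
    (by decide +kernel)

theorem t3k25_xgr : NC (qc t3d25.ga * ((1 + qc (3 / 5) * vX) * (1 + (t3d25.eg + hlf * t3d25.eg ^ 2))) + qc t3d25.gb - pe2 t3GR vX t3d25.eU) :=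
  NC.of (K := 255) (D := ⟨4, 11, 1, 1⟩) (Box.of 18464 (by decide +kernel))
    (by decide +kernel)

theorem t3k25_xhr : NC (qc t3d25.hb - pe2 t3HR vX t3d25.eU) :=
  NC.of (K := 263) (D := ⟨3, 12, 1, 1⟩) (Box.of 4 (by decide +kernel))
    (by decide +kernel)

theorem t3k25_xgs : NC (pe t3d25.gs t3d25.e1 - qc (8 / 5) * pe (e4l (ladd t3d25.ls.z t3d25.ls.dl)) t3d25.e1) :=
  NC.of (K := 296) (D := ⟨1, 1, 1, 13⟩) (Box.of 4 (by decide +kernel))
    (by decide +kernel)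

theorem t3k25_xd1 : NC (pe t3d25.d1 t3d25.e1 - t3d25.eA t3d25.eU t3d25.e1) :=
  NC.of (K := 285) (D := ⟨1, 12, 1, 12⟩) (Box.of 4 (by decide +kernel))
    (by decide +kernel)

theorem t3k25_xd2 : NC (pe t3d25.d2 t3d25.e1 - t3d25.eB t3d25.eU t3d25.e1) :=
  NC.of (K := 288) (D := ⟨1, 12, 1, 12⟩) (Box.of 4 (by decide +kernel))
    (by decide +kernel)

theorem t3k25_xt1 : NC (pe t3d25.t1 t3d25.e1 - t3d25.eAT t3d25.eU t3d25.e1) :=
  NC.of (K := 504) (D := ⟨1, 19, 1, 19⟩) (Box.of 291 (by decide +kernel))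
    (by decide +kernel)

theorem t3k25_xt2 : NC (pe t3d25.t2 t3d25.e1 - t3d25.eBT t3d25.eU t3d25.e1) :=
  NC.of (K := 470) (D := ⟨1, 19, 1, 19⟩) (Box.of 4 (by decide +kernel))
    (by decide +kernel)

theorem t3k25_xdy : NC (pe t3d25.dy t3d25.e1 - t3d25.eSD t3d25.eU t3d25.e1) :=
  NC.of (K := 443) (D := ⟨1, 18, 1, 12⟩) (Box.of 4 (by decide +kernel))
    (by decide +kernel)

theorem t3k25_xty : NC (pe t3d25.ty t3d25.e1 - t3d25.eST t3d25.eU t3d25.e1) :=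
  NC.of (K := 664) (D := ⟨1, 26, 1, 26⟩) (Box.of 4 (by decide +kernel))
    (by decide +kernel)

theorem t3k25_xd1s : NC (pe t3r25.d1 (t1v t3c25) - pe t3d25.d1 (Xcd.ew zW t3c25)) :=
  NC.of (K := 552) (D := ⟨1, 1, 1, 55⟩) (Box.of 4 (by decide +kernel))
    (by decide +kernel)

theorem t3k25_xd2s : NC (pe t3r25.d2 (t1v t3c25) - pe t3d25.d2 (Xcd.ew zW t3c25)) :=
  NC.of (K := 553) (D := ⟨1, 1, 1, 55⟩) (Box.of 4 (by decide +kernel))
    (by decide +kernel)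

theorem t3k25_xt1s : NC (pe t3r25.t1 (t1v t3c25) - pe t3d25.t1 (Xcd.ew zW t3c25)) :=
  NC.of (K := 559) (D := ⟨1, 1, 1, 55⟩) (Box.of 4 (by decide +kernel))
    (by decide +kernel)

theorem t3k25_xt2s : NC (pe t3r25.t2 (t1v t3c25) - pe t3d25.t2 (Xcd.ew zW t3c25)) :=
  NC.of (K := 550) (D := ⟨1, 1, 1, 55⟩) (Box.of 4 (by decide +kernel))
    (by decide +kernel)

theorem t3k25_xdys : NC (pe t3r25.dy (t1v t3c25) - pe t3d25.dy (Xcd.ew zW t3c25)) :=
  NC.of (K := 555) (D := ⟨1, 1, 1, 55⟩) (Box.of 4 (by decide +kernel))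
    (by decide +kernel)

theorem t3k25_xtys : NC (pe t3r25.ty (t1v t3c25) - pe t3d25.ty (Xcd.ew zW t3c25)) :=
  NC.of (K := 560) (D := ⟨1, 1, 1, 55⟩) (Box.of 4 (by decide +kernel))
    (by decide +kernel)

theorem t3k25_xhz : NC (pe t3r25.hz (t1v t3c25) - pe t3d25.c.dR (Xcd.ew zW t3c25)) :=
  NC.of (K := 566) (D := ⟨1, 1, 1, 55⟩) (Box.of 4 (by decide +kernel))
    (by decide +kernel)

theorem t3f25_ok : t3f25.ok V2L.y11 V2L.k11 V2L.nb V2L.la (10 ^ 30) 32 = true := by decide +kernel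

theorem t3k25_sg : t3c25.Sg := by
  constructor <;> decide +kernel

theorem t3k25_rgs : t3c25.Rgs where
  M := ⟨t3k25_M_r1, t3k25_M_r2, t3k25_M_r3, t3k25_M_r4⟩
  r0 := ⟨t3k25_r0_r1, t3k25_r0_r2, t3k25_r0_r3, t3k25_r0_r4⟩
  r1 := ⟨t3k25_r1_r1, t3k25_r1_r2, t3k25_r1_r3, t3k25_r1_r4⟩
  r2 := ⟨t3k25_r2_r1, t3k25_r2_r2, t3k25_r2_r3, t3k25_r2_r4⟩
  rc := ⟨t3k25_rc_r1, t3k25_rc_r2, t3k25_rc_r3, t3k25_rc_r4⟩
  rI := ⟨t3k25_rI_r1, t3k25_rI_r2, t3k25_rI_r3, t3k25_rI_r4⟩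
  rJ := ⟨t3k25_rJ_r1, t3k25_rJ_r2, t3k25_rJ_r3, t3k25_rJ_r4⟩

theorem t3k25_xn : t3e25.Ok t3c25 where
  lm := by decide +kernel
  dl0 := by decide +kernel
  dl1 := by decide +kernel
  e2 := by decide +kernel
  eY := by decide +kernel
  gE := ⟨t3k25_gE_r1, t3k25_gE_r2, t3k25_gE_r3, t3k25_gE_r4⟩

theorem t3k25_vl : t3c25.Vl dW qW where
  bt := by decide +kernel
  B0 := t3k25_B0
  E0 := t3k25_E0
  D0 := t3k25_D0
  Bh := t3k25_Bh
  Eh := t3k25_Eh
  Dh := t3k25_Dh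
  B1 := t3k25_B1
  E1 := t3k25_E1
  D1 := t3k25_D1

theorem t3k25_rat : t3n25.Rat t3c25 := by
  constructor <;> decide +kernel

theorem t3k25_ck : t3n25.Ck t3c25 := ⟨t3k25_l, t3k25_n⟩

theorem t3k25_fck : t3n25.Fck dW qW fW t3c25 := ⟨t3k25_rb, t3k25_kap⟩

theorem t3k25_w : Wcl zW kW yW t3al t3c25 t3n25 t3m25 where
  b2 := t3k25_wb2
  mb := t3k25_wmb
  th := t3k25_wth
  yb := t3k25_wyb
  mu := t3k25_wmu
  cj := t3k25_wcj
  mt1 := by decide +kernel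
  mt2 := by decide +kernel

theorem t3k25_ok : CelOk dW qW fW t3c25 t3n25 where
  s := t3k25_sg
  r := t3k25_rgs
  v := t3k25_vl
  rt := t3k25_rat
  k := t3k25_ck
  fc := t3k25_fck
  q01 := by decide +kernel
  q12 := by decide +kernel
  h2 := by decide +kernel

theorem t3k25_xr : t3r25.Ok fW t3c25 t3e25 where
  sD := by decide +kernel
  sT := by decide +kernel
  nd1 := t3k25_nd1
  nd2 := t3k25_nd2
  ndy := t3k25_ndy
  nt1 := t3k25_nt1
  nt2 := t3k25_nt2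
  nty := t3k25_nty
  nhz := t3k25_nhz
  xi := t3k25_xi
  om := t3k25_om

theorem t3k25_X : t3d25.Ck t3GR t3HR zW t3c25 t3e25 t3r25 where
  u0 := by decide +kernel
  u01 := by decide +kernel
  ul := by decide +kernel
  us := by decide +kernel
  uc := by decide +kernel
  ga0 := by decide +kernel
  kp0 := by decide +kernel
  lm := by decide +kernel
  dl := t3k25_xdl
  eY := t3k25_xeY
  gr := t3k25_xgr
  hr := t3k25_xhr
  gs := t3k25_xgs
  d1 := t3k25_xd1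
  d2 := t3k25_xd2
  t1 := t3k25_xt1
  t2 := t3k25_xt2
  dy := t3k25_xdy
  ty := t3k25_xty
  d1s := t3k25_xd1s
  d2s := t3k25_xd2s
  t1s := t3k25_xt1s
  t2s := t3k25_xt2s
  dys := t3k25_xdys
  tys := t3k25_xtys
  hz := t3k25_xhz

end Pool.Agent.RX.RCN.K
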