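import Pool.Agent.RX.RCN.T3D
import Pool.Agent.RX.RCN.T3Wq
import Pool.Agent.RX.RCN.T3X12
import Pool.Agent.RX.RCN.VLd

/-! Certificates (generated). -/

set_option autoImplicit false

namespace Pool.Agent.RX.RCN.K

open Set Pool.Agent.RX.RCM9 Pool.Agent.RX.RCM9.Bern Pool.Agent.RX.RCM9.Pk Xce

def t3c26 : Cel where
  t0 := 11 / 25
  t1 := 89 / 200
  C := 4097 / 4096
  th := 1837 / 4096
  B0 := 1081 / 1024
  Bh := 601 / 512
  B1 := 2349 / 2048
  D0 := 349 / 1024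
  Dh := 1145 / 4096
  D1 := 547 / 2048
  E0 := 32235 / 4194304
  Eh := 13683 / 2097152
  E1 := 3269 / 524288
  Q0 := 271 / 256
  Q1 := 271 / 256
  Q2 := 277 / 256
  Ac := 271 / 256
  gI := 271 / 256
  J := 793 / 65536

def t3n26 : Chn where
  lb := 513 / 512
  nb := 325 / 1024
  Mb := 259 / 256
  b2 := 65 / 64
  Yb := 45 / 4096
  E2 := 4187 / 4096
  e1 := 1303 / 1024
  Z1 := 561 / 512
  Z2 := 79 / 128
  KB := 531 / 512
  cb := 1081 / 1024
  rb := 383 / 1024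
  om := 263 / 256
  fb := 129 / 128
  kap := 4183 / 4096
  ab := 1029 / 1024

def t3e26 : Xge where
  lm := 3 / 5
  dl := 1783 / 4096
  e2 := 1809 / 16384
  eY := 4145 / 4096
  gE := 145 / 128

def t3r26 : Xr where
  d1 := [253317 / 10000000, 8359 / 2000000, 1357863 / 50000000, 149031 / 10000000, 452473 /
    4000000, -22517837 / 100000000, 10942591 / 50000000]
  d2 := [6293 / 50000000, 608217 / 25000000, 1975339 / 25000000, 7525381 / 50000000, -2249909 /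
    50000000, -26445233 / 100000000, 6639501 / 20000000]
  dy := [11375851 / 50000000, 4061153 / 50000000, 5988831 / 20000000, 16022967 / 20000000,
    -87041587 / 100000000, -34291763 / 100000000, 9926057 / 10000000]
  t1 := [14087473 / 100000000, -22439627 / 50000000, 38471221 / 100000000, -6271099 / 12500000,
    429549447 / 100000000, -96303649 / 10000000, 4041719 / 500000]
  t2 := [919439 / 25000000, -11354569 / 100000000, 332327 / 3125000, 47253767 / 100000000,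
    -6948959 / 20000000, -69813 / 1562500, 611149 / 3125000]
  ty := [50643051 / 50000000, -72933467 / 20000000, 18607533 / 6250000, 1309041837 / 100000000,
    -1457473987 / 50000000, 618450351 / 25000000, -191956541 / 25000000]
  hz := [60446 / 390625, -42484941 / 100000000, 26181431 / 12500000, -2467614059 / 50000000,
    26922363439 / 100000000, -6957731573 / 12500000, 1259059883 / 3125000]
  om := [100396699 / 100000000, 51193529 / 50000000, -1391801243 / 100000000, 5585713343 /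
    100000000, -13590133633 / 100000000, 15245226133 / 50000000, -59163612281 / 100000000,
    286015927 / 390625, -1637653191 / 4000000]
  sD := 149 / 64
  sT := 531 / 256
  xi := [4384479 / 50000000, 14044593 / 20000000, -4843923 / 1562500, 610956777 / 100000000,
    -2632802023 / 50000000, 17083966467 / 50000000, -90309574649 / 100000000, 106597892737 /
    100000000, -5011695563 / 10000000, 6488225173 / 100000000]

def t3f26 : Dl where
  Ca := 4415109 / 10000000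
  Cv := 223281 / 500000
  k1 := 9272221 / 10000000
  ks := 453997 / 500000
  dd := 0
  kp := 1 / 10000000
  e := [124999962359 / 125000000000, -1367792667221 / 1000000000000, 731282417137 / 500000000000,
    -694553075917 / 500000000000, 626259093341 / 500000000000, -1053151621763 / 1000000000000,
    157103662141 / 200000000000, -112068421783 / 250000000000, 34331663231 / 250000000000]
  j1 := [-2480823 / 1000000000, -4193002689 / 500000000, 3112424799 / 40000000, -42713568677 /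
    125000000, 34813854803 / 40000000, -653511397113 / 500000000, 542238593311 / 500000000,
    -6106534743 / 15625000]
  nu := [48255971 / 500000000, -116353413 / 500000000, 396542117 / 1000000000, -11379221 /
    250000000, 28830183 / 200000000, 123086213 / 500000000, -49158423 / 200000000]
  k2 := [9079953 / 10000000, 52832377 / 250000000, -167785969 / 500000000, -2062069 / 50000000,
    -3161593 / 62500000, -297003079 / 1000000000, 319741491 / 1000000000]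
  dR := [15442907 / 100000000, -8463869 / 20000000, 41456623 / 20000000, -244079193 / 5000000,
    26557011081 / 100000000, -54738852397 / 100000000, 39496597639 / 100000000]

def t3d26 : Xce where
  u0 := 221007 / 500000
  u1 := 223281 / 500000
  l := V2L.y12
  y := t3z12
  j := t3j12
  i := t3i12
  ls := t3y12
  k := V2L.k12
  c := t3f26
  ga := 25277 / 1000000
  gb := -1099 / 100000
  hb := 122591 / 1000000
  gs := [160003113 / 100000000, 239999877 / 100000000, 90002147 / 50000000, 79543943 / 100000000,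
    5386393 / 20000000, -6378979 / 50000000, -5484467 / 100000000]
  d1 := [506261 / 20000000, 211003 / 50000000, 1270743 / 50000000, 317801 / 10000000, 2888459 /
    100000000, -3621943 / 100000000, 5917371 / 100000000]
  d2 := [2657 / 25000000, 1219513 / 50000000, 7449389 / 100000000, 19286897 / 100000000, -25823989
    / 100000000, 5494799 / 25000000, -7819163 / 100000000]
  dy := [22733091 / 100000000, 8146989 / 100000000, 28291311 / 100000000, 95306397 / 100000000,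
    -81912383 / 50000000, 35275693 / 25000000, -24864443 / 50000000]
  t1 := [7040103 / 50000000, -8943771 / 20000000, 18844103 / 50000000, -1787829 / 4000000,
    201388961 / 50000000, -452263559 / 50000000, 759430201 / 100000000]
  t2 := [1837873 / 50000000, -1412867 / 12500000, 2521043 / 25000000, 51940249 / 100000000,
    -29403739 / 50000000, 49689743 / 100000000, -25715283 / 100000000]
  ty := [101234493 / 100000000, -90857941 / 25000000, 58619323 / 20000000, 661457829 / 50000000,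
    -374061533 / 12500000, 2671446649 / 100000000, -235370913 / 25000000]

def t3m26 : ℚ := 1771 / 4096

def t3h26 : ℚ := 1 / 2

theorem t3k26_M_r1 : NC (fM t3c26 (1 - eh) eh ek (elo t3c26.B0 t3c26.Bh eh) (elo t3c26.D0 t3c26.Dh ek) (elo t3c26.E0 t3c26.Eh ek)) :=
  NC.of (K := 33) (D := ⟨4, 3, 1, 1⟩) (Box.of 4 (by decide +kernel))
    (by decide +kernel)

theorem t3k26_M_r2 : NC (fM t3c26 eh (1 - eh) ek (ehi t3c26.Bh t3c26.B1 (1 - eh)) (elo t3c26.D0 t3c26.Dh ek) (elo t3c26.E0 t3c26.Eh ek)) :=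
  NC.of (K := 33) (D := ⟨4, 3, 1, 1⟩) (Box.of 4 (by decide +kernel))
    (by decide +kernel)

theorem t3k26_M_r3 : NC (fM t3c26 (1 - eh) ek eh (elo t3c26.B0 t3c26.Bh ek) (elo t3c26.D0 t3c26.Dh eh) (elo t3c26.E0 t3c26.Eh eh)) :=
  NC.of (K := 32) (D := ⟨4, 2, 1, 1⟩) (Box.of 4 (by decide +kernel))
    (by decide +kernel)

theorem t3k26_M_r4 : NC (fM t3c26 eh ek (1 - eh) (elo t3c26.B0 t3c26.Bh ek) (ehi t3c26.Dh t3c26.D1 (1 - eh)) (ehi t3c26.Eh t3c26.E1 (1 - eh))) :=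
  NC.of (K := 32) (D := ⟨4, 2, 1, 1⟩) (Box.of 4 (by decide +kernel))
    (by decide +kernel)

theorem t3k26_r0_r1 : NC (f0 t3c26 (1 - eh) eh ek (elo t3c26.B0 t3c26.Bh eh) (elo t3c26.D0 t3c26.Dh ek) (elo t3c26.E0 t3c26.Eh ek)) :=
  NC.of (K := 149) (D := ⟨13, 9, 1, 1⟩) (Box.of 4 (by decide +kernel))
    (by decide +kernel)

theorem t3k26_r0_r2 : NC (f0 t3c26 eh (1 - eh) ek (ehi t3c26.Bh t3c26.B1 (1 - eh)) (elo t3c26.D0 t3c26.Dh ek) (elo t3c26.E0 t3c26.Eh ek)) :=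
  NC.of (K := 149) (D := ⟨13, 9, 1, 1⟩) (Box.of 4 (by decide +kernel))
    (by decide +kernel)

theorem t3k26_r0_r3 : NC (f0 t3c26 (1 - eh) ek eh (elo t3c26.B0 t3c26.Bh ek) (elo t3c26.D0 t3c26.Dh eh) (elo t3c26.E0 t3c26.Eh eh)) :=
  NC.of (K := 144) (D := ⟨13, 5, 1, 1⟩) (Box.of 4 (by decide +kernel))
    (by decide +kernel)

theorem t3k26_r0_r4 : NC (f0 t3c26 eh ek (1 - eh) (elo t3c26.B0 t3c26.Bh ek) (ehi t3c26.Dh t3c26.D1 (1 - eh)) (ehi t3c26.Eh t3c26.E1 (1 - eh))) :=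
  NC.of (K := 145) (D := ⟨13, 5, 1, 1⟩) (Box.of 4 (by decide +kernel))
    (by decide +kernel)

theorem t3k26_r1_r1 : NC (f1 t3c26 (1 - eh) eh ek (elo t3c26.B0 t3c26.Bh eh) (elo t3c26.D0 t3c26.Dh ek) (elo t3c26.E0 t3c26.Eh ek)) :=
  NC.of (K := 233) (D := ⟨16, 9, 1, 1⟩) (Box.of 4 (by decide +kernel))
    (by decide +kernel)

theorem t3k26_r1_r2 : NC (f1 t3c26 eh (1 - eh) ek (ehi t3c26.Bh t3c26.B1 (1 - eh)) (elo t3c26.D0 t3c26.Dh ek) (elo t3c26.E0 t3c26.Eh ek)) :=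
  NC.of (K := 236) (D := ⟨16, 9, 1, 1⟩) (Box.of 4 (by decide +kernel))
    (by decide +kernel)

theorem t3k26_r1_r3 : NC (f1 t3c26 (1 - eh) ek eh (elo t3c26.B0 t3c26.Bh ek) (elo t3c26.D0 t3c26.Dh eh) (elo t3c26.E0 t3c26.Eh eh)) :=
  NC.of (K := 236) (D := ⟨16, 12, 1, 1⟩) (Box.of 4 (by decide +kernel))
    (by decide +kernel)

theorem t3k26_r1_r4 : NC (f1 t3c26 eh ek (1 - eh) (elo t3c26.B0 t3c26.Bh ek) (ehi t3c26.Dh t3c26.D1 (1 - eh)) (ehi t3c26.Eh t3c26.E1 (1 - eh))) :=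
  NC.of (K := 237) (D := ⟨16, 12, 1, 1⟩) (Box.of 4 (by decide +kernel))
    (by decide +kernel)

theorem t3k26_r2_r1 : NC (f2 t3c26 (1 - eh) eh ek (elo t3c26.B0 t3c26.Bh eh) (elo t3c26.D0 t3c26.Dh ek) (elo t3c26.E0 t3c26.Eh ek)) :=
  NC.of (K := 263) (D := ⟨16, 11, 1, 1⟩) (Box.of 288 (by decide +kernel))
    (by decide +kernel)

theorem t3k26_r2_r2 : NC (f2 t3c26 eh (1 - eh) ek (ehi t3c26.Bh t3c26.B1 (1 - eh)) (elo t3c26.D0 t3c26.Dh ek) (elo t3c26.E0 t3c26.Eh ek)) :=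
  NC.of (K := 239) (D := ⟨16, 11, 1, 1⟩) (Box.of 4 (by decide +kernel))
    (by decide +kernel)

theorem t3k26_r2_r3 : NC (f2 t3c26 (1 - eh) ek eh (elo t3c26.B0 t3c26.Bh ek) (elo t3c26.D0 t3c26.Dh eh) (elo t3c26.E0 t3c26.Eh eh)) :=
  NC.of (K := 264) (D := ⟨16, 12, 1, 1⟩) (Box.of 288 (by decide +kernel))
    (by decide +kernel)

theorem t3k26_r2_r4 : NC (f2 t3c26 eh ek (1 - eh) (elo t3c26.B0 t3c26.Bh ek) (ehi t3c26.Dh t3c26.D1 (1 - eh)) (ehi t3c26.Eh t3c26.E1 (1 - eh))) :=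
  NC.of (K := 238) (D := ⟨16, 12, 1, 1⟩) (Box.of 4 (by decide +kernel))
    (by decide +kernel)

theorem t3k26_rc_r1 : NC (fc t3c26 (1 - eh) eh ek (elo t3c26.B0 t3c26.Bh eh) (elo t3c26.D0 t3c26.Dh ek) (elo t3c26.E0 t3c26.Eh ek)) :=
  NC.of (K := 148) (D := ⟨13, 9, 1, 1⟩) (Box.of 4 (by decide +kernel))
    (by decide +kernel)

theorem t3k26_rc_r2 : NC (fc t3c26 eh (1 - eh) ek (ehi t3c26.Bh t3c26.B1 (1 - eh)) (elo t3c26.D0 t3c26.Dh ek) (elo t3c26.E0 t3c26.Eh ek)) :=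
  NC.of (K := 148) (D := ⟨13, 9, 1, 1⟩) (Box.of 4 (by decide +kernel))
    (by decide +kernel)

theorem t3k26_rc_r3 : NC (fc t3c26 (1 - eh) ek eh (elo t3c26.B0 t3c26.Bh ek) (elo t3c26.D0 t3c26.Dh eh) (elo t3c26.E0 t3c26.Eh eh)) :=
  NC.of (K := 143) (D := ⟨13, 5, 1, 1⟩) (Box.of 4 (by decide +kernel))
    (by decide +kernel)

theorem t3k26_rc_r4 : NC (fc t3c26 eh ek (1 - eh) (elo t3c26.B0 t3c26.Bh ek) (ehi t3c26.Dh t3c26.D1 (1 - eh)) (ehi t3c26.Eh t3c26.E1 (1 - eh))) :=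
  NC.of (K := 144) (D := ⟨13, 5, 1, 1⟩) (Box.of 4 (by decide +kernel))
    (by decide +kernel)

theorem t3k26_rI_r1 : NC (fI t3c26 (1 - eh) eh ek (elo t3c26.B0 t3c26.Bh eh) (elo t3c26.D0 t3c26.Dh ek) (elo t3c26.E0 t3c26.Eh ek)) :=
  NC.of (K := 138) (D := ⟨13, 9, 1, 1⟩) (Box.of 4 (by decide +kernel))
    (by decide +kernel)

theorem t3k26_rI_r2 : NC (fI t3c26 eh (1 - eh) ek (ehi t3c26.Bh t3c26.B1 (1 - eh)) (elo t3c26.D0 t3c26.Dh ek) (elo t3c26.E0 t3c26.Eh ek)) :=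
  NC.of (K := 138) (D := ⟨13, 9, 1, 1⟩) (Box.of 4 (by decide +kernel))
    (by decide +kernel)

theorem t3k26_rI_r3 : NC (fI t3c26 (1 - eh) ek eh (elo t3c26.B0 t3c26.Bh ek) (elo t3c26.D0 t3c26.Dh eh) (elo t3c26.E0 t3c26.Eh eh)) :=
  NC.of (K := 133) (D := ⟨13, 5, 1, 1⟩) (Box.of 4 (by decide +kernel))
    (by decide +kernel)

theorem t3k26_rI_r4 : NC (fI t3c26 eh ek (1 - eh) (elo t3c26.B0 t3c26.Bh ek) (ehi t3c26.Dh t3c26.D1 (1 - eh)) (ehi t3c26.Eh t3c26.E1 (1 - eh))) :=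
  NC.of (K := 134) (D := ⟨13, 5, 1, 1⟩) (Box.of 4 (by decide +kernel))
    (by decide +kernel)

theorem t3k26_rJ_r1 : NC (fJ t3c26 (1 - eh) eh ek (elo t3c26.B0 t3c26.Bh eh) (elo t3c26.D0 t3c26.Dh ek) (elo t3c26.E0 t3c26.Eh ek)) :=
  NC.of (K := 78) (D := ⟨7, 5, 1, 1⟩) (Box.of 4 (by decide +kernel))
    (by decide +kernel)

theorem t3k26_rJ_r2 : NC (fJ t3c26 eh (1 - eh) ek (ehi t3c26.Bh t3c26.B1 (1 - eh)) (elo t3c26.D0 t3c26.Dh ek) (elo t3c26.E0 t3c26.Eh ek)) :=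
  NC.of (K := 78) (D := ⟨7, 5, 1, 1⟩) (Box.of 4 (by decide +kernel))
    (by decide +kernel)

theorem t3k26_rJ_r3 : NC (fJ t3c26 (1 - eh) ek eh (elo t3c26.B0 t3c26.Bh ek) (elo t3c26.D0 t3c26.Dh eh) (elo t3c26.E0 t3c26.Eh eh)) :=
  NC.of (K := 76) (D := ⟨7, 3, 1, 1⟩) (Box.of 4 (by decide +kernel))
    (by decide +kernel)

theorem t3k26_rJ_r4 : NC (fJ t3c26 eh ek (1 - eh) (elo t3c26.B0 t3c26.Bh ek) (ehi t3c26.Dh t3c26.D1 (1 - eh)) (ehi t3c26.Eh t3c26.E1 (1 - eh))) :=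
  NC.of (K := 76) (D := ⟨7, 3, 1, 1⟩) (Box.of 4 (by decide +kernel))
    (by decide +kernel)

theorem t3k26_gE_r1 : NC (fE t3c26 t3e26 (1 - eh) eh ek (elo t3c26.B0 t3c26.Bh eh) (elo t3c26.D0 t3c26.Dh ek) (elo t3c26.E0 t3c26.Eh ek)) :=
  NC.of (K := 182) (D := ⟨13, 9, 1, 1⟩) (Box.of 18688 (by decide +kernel))
    (by decide +kernel)

theorem t3k26_gE_r2 : NC (fE t3c26 t3e26 eh (1 - eh) ek (ehi t3c26.Bh t3c26.B1 (1 - eh)) (elo t3c26.D0 t3c26.Dh ek) (elo t3c26.E0 t3c26.Eh ek)) :=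
  NC.of (K := 138) (D := ⟨13, 9, 1, 1⟩) (Box.of 4 (by decide +kernel))
    (by decide +kernel)

theorem t3k26_gE_r3 : NC (fE t3c26 t3e26 (1 - eh) ek eh (elo t3c26.B0 t3c26.Bh ek) (elo t3c26.D0 t3c26.Dh eh) (elo t3c26.E0 t3c26.Eh eh)) :=
  NC.of (K := 180) (D := ⟨13, 7, 1, 1⟩) (Box.of 18688 (by decide +kernel))
    (by decide +kernel)

theorem t3k26_gE_r4 : NC (fE t3c26 t3e26 eh ek (1 - eh) (elo t3c26.B0 t3c26.Bh ek) (ehi t3c26.Dh t3c26.D1 (1 - eh)) (ehi t3c26.Eh t3c26.E1 (1 - eh))) :=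
  NC.of (K := 137) (D := ⟨13, 7, 1, 1⟩) (Box.of 4 (by decide +kernel))
    (by decide +kernel)

theorem t3k26_B0 : NC (kB dW 1 0 t3c26.B0 (tcl t3c26)) :=
  NC.of (K := 102) (D := ⟨1, 1, 1, 9⟩) (Box.of 4 (by decide +kernel))
    (by decide +kernel)

theorem t3k26_E0 : NC (kE dW qW qW.p0 qW.q0 t3c26.E0 (tcl t3c26)) :=
  NC.of (K := 225) (D := ⟨1, 1, 1, 19⟩) (Box.of 4 (by decide +kernel))
    (by decide +kernel)

theorem t3k26_D0 : NC (kD dW qW 1 0 qW.p0 qW.q0 t3c26.D0 (tcl t3c26)) :=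
  NC.of (K := 343) (D := ⟨1, 1, 1, 20⟩) (Box.of 4 (by decide +kernel))
    (by decide +kernel)

theorem t3k26_Bh : NC (kB dW (1 / 2) (1 / 2) t3c26.Bh (tcl t3c26)) :=
  NC.of (K := 105) (D := ⟨1, 1, 1, 9⟩) (Box.of 4 (by decide +kernel))
    (by decide +kernel)

theorem t3k26_Eh : NC (kE dW qW qW.ph qW.qh t3c26.Eh (tcl t3c26)) :=
  NC.of (K := 229) (D := ⟨1, 1, 1, 19⟩) (Box.of 4 (by decide +kernel))
    (by decide +kernel)

theorem t3k26_Dh : NC (kD dW qW (1 / 2) (1 / 2) qW.ph qW.qh t3c26.Dh (tcl t3c26)) :=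
  NC.of (K := 347) (D := ⟨1, 1, 1, 20⟩) (Box.of 4 (by decide +kernel))
    (by decide +kernel)

theorem t3k26_B1 : NC (kB dW 0 (1 / 2) t3c26.B1 (tcl t3c26)) :=
  NC.of (K := 105) (D := ⟨1, 1, 1, 9⟩) (Box.of 4 (by decide +kernel))
    (by decide +kernel)

theorem t3k26_E1 : NC (kE dW qW qW.p1 qW.q1 t3c26.E1 (tcl t3c26)) :=
  NC.of (K := 229) (D := ⟨1, 1, 1, 19⟩) (Box.of 4 (by decide +kernel))
    (by decide +kernel)

theorem t3k26_D1 : NC (kD dW qW 0 (1 / 2) qW.p1 qW.q1 t3c26.D1 (tcl t3c26)) :=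
  NC.of (K := 347) (D := ⟨1, 1, 1, 20⟩) (Box.of 4 (by decide +kernel))
    (by decide +kernel)

theorem t3k26_l : NC (qc t3n26.lb - (1 - vX) * pe (exl t3c26.th) vX ^ 2) :=
  NC.of (K := 126) (D := ⟨10, 1, 1, 1⟩) (Box.of 4 (by decide +kernel))
    (by decide +kernel)

theorem t3k26_n : NC (qc t3n26.nb - vX * (1 - vX) * pe (exl t3c26.th) vX) :=
  NC.of (K := 116) (D := ⟨7, 1, 1, 1⟩) (Box.of 76677152 (by decide +kernel))
    (by decide +kernel)

theorem t3k26_rb : NC (krb t3n26 fW (t1v t3c26)) :=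
  NC.of (K := 201) (D := ⟨1, 1, 1, 16⟩) (Box.of 4 (by decide +kernel))
    (by decide +kernel)

theorem t3k26_kap : NC (kkap dW qW t3n26 (tcl t3c26)) :=
  NC.of (K := 102) (D := ⟨1, 1, 1, 9⟩) (Box.of 4 (by decide +kernel))
    (by decide +kernel)

theorem t3k26_wb2 : NC (qc t3n26.b2 - pe2 kW.QB (vZ * t1v t3c26) (t1v t3c26)) :=
  NC.of (K := 174) (D := ⟨1, 6, 1, 11⟩) (Box.of 18715 (by decide +kernel))
    (by decide +kernel)

theorem t3k26_wmb : NC (qc t3n26.Mb - pe zW.mb (t1v t3c26)) :=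
  NC.of (K := 122) (D := ⟨1, 1, 1, 9⟩) (Box.of 291 (by decide +kernel))
    (by decide +kernel)

theorem t3k26_wth : NC (qc (t3c26.th / t3c26.t1) - pe2 zW.Qt (vZ * t1v t3c26) (t1v t3c26)) :=
  NC.of (K := 161) (D := ⟨1, 6, 1, 11⟩) (Box.of 291 (by decide +kernel))
    (by decide +kernel)

theorem t3k26_wyb : NC (qc t3n26.Yb - (t1v t3c26 - vZ * t1v t3c26) ^ 3 * pe2 yW.QY (vZ * t1v t3c26) (t1v t3c26)) :=
  NC.of (K := 141) (D := ⟨1, 8, 1, 12⟩) (Box.of 4 (by decide +kernel))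
    (by decide +kernel)

theorem t3k26_wmu : NC (qc t3m26 - pe t3al (tcl t3c26) * (1 + hlf * tcl t3c26)) :=
  NC.of (K := 98) (D := ⟨1, 1, 1, 9⟩) (Box.of 4 (by decide +kernel))
    (by decide +kernel)

theorem t3k26_wcj : NC (qc t3c26.C * ((6 - 3 * vX) * (1 - qc t3m26 * vX)) - (6 - 6 * vX + vX ^ 2)) :=
  NC.of (K := 34) (D := ⟨3, 1, 1, 1⟩) (Box.of 4 (by decide +kernel))
    (by decide +kernel)

theorem t3k26_nd1 : NC (pe t3r26.d1 (t1v t3c26)) :=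
  NC.of (K := 77) (D := ⟨1, 1, 1, 7⟩) (Box.of 4 (by decide +kernel))
    (by decide +kernel)

theorem t3k26_nd2 : NC (pe t3r26.d2 (t1v t3c26)) :=
  NC.of (K := 76) (D := ⟨1, 1, 1, 7⟩) (Box.of 4 (by decide +kernel))
    (by decide +kernel)

theorem t3k26_ndy : NC (pe t3r26.dy (t1v t3c26)) :=
  NC.of (K := 78) (D := ⟨1, 1, 1, 7⟩) (Box.of 4 (by decide +kernel))
    (by decide +kernel)

theorem t3k26_nt1 : NC (pe t3r26.t1 (t1v t3c26)) :=
  NC.of (K := 75) (D := ⟨1, 1, 1, 7⟩) (Box.of 4 (by decide +kernel))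
    (by decide +kernel)

theorem t3k26_nt2 : NC (pe t3r26.t2 (t1v t3c26)) :=
  NC.of (K := 75) (D := ⟨1, 1, 1, 7⟩) (Box.of 4 (by decide +kernel))
    (by decide +kernel)

theorem t3k26_nty : NC (pe t3r26.ty (t1v t3c26)) :=
  NC.of (K := 83) (D := ⟨1, 1, 1, 7⟩) (Box.of 4 (by decide +kernel))
    (by decide +kernel)

theorem t3k26_nhz : NC (pe t3r26.hz (t1v t3c26)) :=
  NC.of (K := 107) (D := ⟨1, 1, 1, 7⟩) (Box.of 18659 (by decide +kernel))
    (by decide +kernel)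

theorem t3k26_xi : NC (eXi fW t3c26 t3e26 t3r26 (t1v t3c26)) :=
  NC.of (K := 324) (D := ⟨1, 1, 1, 22⟩) (Box.of 4 (by decide +kernel))
    (by decide +kernel)

theorem t3k26_om : NC (eOm fW t3r26 (t1v t3c26)) :=
  NC.of (K := 192) (D := ⟨1, 1, 1, 16⟩) (Box.of 4 (by decide +kernel))
    (by decide +kernel)

theorem t3k26_fin : NC (eFin dW t3c26 t3n26 t3r26 t3h26 (tcl t3c26)) :=
  NC.of (K := 226) (D := ⟨1, 1, 1, 14⟩) (Box.of 4 (by decide +kernel))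
    (by decide +kernel)

theorem t3k26_xdl : NC (qc t3e26.dl - pe t3d26.l.dl t3d26.eU) :=
  NC.of (K := 70) (D := ⟨1, 4, 1, 1⟩) (Box.of 4 (by decide +kernel))
    (by decide +kernel)

theorem t3k26_xeY : NC (qc t3e26.eY - pe (e4l t3d26.l.z) t3d26.eU) :=
  NC.of (K := 276) (D := ⟨1, 13, 1, 1⟩) (Box.of 4 (by decide +kernel))
    (by decide +kernel)

theorem t3k26_xgr : NC (qc t3d26.ga * ((1 + qc (3 / 5) * vX) * (1 + (t3d26.eg + hlf * t3d26.eg ^ 2))) + qc t3d26.gb - pe2 t3GR vX t3d26.eU) :=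
  NC.of (K := 252) (D := ⟨4, 11, 1, 1⟩) (Box.of 1196288 (by decide +kernel))
    (by decide +kernel)

theorem t3k26_xhr : NC (qc t3d26.hb - pe2 t3HR vX t3d26.eU) :=
  NC.of (K := 253) (D := ⟨3, 12, 1, 1⟩) (Box.of 4 (by decide +kernel))
    (by decide +kernel)

theorem t3k26_xgs : NC (pe t3d26.gs t3d26.e1 - qc (8 / 5) * pe (e4l (ladd t3d26.ls.z t3d26.ls.dl)) t3d26.e1) :=
  NC.of (K := 284) (D := ⟨1, 1, 1, 13⟩) (Box.of 4 (by decide +kernel))
    (by decide +kernel)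

theorem t3k26_xd1 : NC (pe t3d26.d1 t3d26.e1 - t3d26.eA t3d26.eU t3d26.e1) :=
  NC.of (K := 272) (D := ⟨1, 12, 1, 12⟩) (Box.of 4 (by decide +kernel))
    (by decide +kernel)

theorem t3k26_xd2 : NC (pe t3d26.d2 t3d26.e1 - t3d26.eB t3d26.eU t3d26.e1) :=
  NC.of (K := 278) (D := ⟨1, 12, 1, 12⟩) (Box.of 4 (by decide +kernel))
    (by decide +kernel)

theorem t3k26_xt1 : NC (pe t3d26.t1 t3d26.e1 - t3d26.eAT t3d26.eU t3d26.e1) :=
  NC.of (K := 455) (D := ⟨1, 19, 1, 19⟩) (Box.of 4 (by decide +kernel))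
    (by decide +kernel)

theorem t3k26_xt2 : NC (pe t3d26.t2 t3d26.e1 - t3d26.eBT t3d26.eU t3d26.e1) :=
  NC.of (K := 455) (D := ⟨1, 19, 1, 19⟩) (Box.of 4 (by decide +kernel))
    (by decide +kernel)

theorem t3k26_xdy : NC (pe t3d26.dy t3d26.e1 - t3d26.eSD t3d26.eU t3d26.e1) :=
  NC.of (K := 429) (D := ⟨1, 18, 1, 12⟩) (Box.of 4 (by decide +kernel))
    (by decide +kernel)

theorem t3k26_xty : NC (pe t3d26.ty t3d26.e1 - t3d26.eST t3d26.eU t3d26.e1) :=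
  NC.of (K := 643) (D := ⟨1, 26, 1, 26⟩) (Box.of 4 (by decide +kernel))
    (by decide +kernel)

theorem t3k26_xd1s : NC (pe t3r26.d1 (t1v t3c26) - pe t3d26.d1 (Xcd.ew zW t3c26)) :=
  NC.of (K := 697) (D := ⟨1, 1, 1, 55⟩) (Box.of 4 (by decide +kernel))
    (by decide +kernel)

theorem t3k26_xd2s : NC (pe t3r26.d2 (t1v t3c26) - pe t3d26.d2 (Xcd.ew zW t3c26)) :=
  NC.of (K := 698) (D := ⟨1, 1, 1, 55⟩) (Box.of 4 (by decide +kernel))
    (by decide +kernel)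

theorem t3k26_xt1s : NC (pe t3r26.t1 (t1v t3c26) - pe t3d26.t1 (Xcd.ew zW t3c26)) :=
  NC.of (K := 704) (D := ⟨1, 1, 1, 55⟩) (Box.of 4 (by decide +kernel))
    (by decide +kernel)

theorem t3k26_xt2s : NC (pe t3r26.t2 (t1v t3c26) - pe t3d26.t2 (Xcd.ew zW t3c26)) :=
  NC.of (K := 699) (D := ⟨1, 1, 1, 55⟩) (Box.of 4 (by decide +kernel))
    (by decide +kernel)

theorem t3k26_xdys : NC (pe t3r26.dy (t1v t3c26) - pe t3d26.dy (Xcd.ew zW t3c26)) :=
  NC.of (K := 700) (D := ⟨1, 1, 1, 55⟩) (Box.of 4 (by decide +kernel))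
    (by decide +kernel)

theorem t3k26_xtys : NC (pe t3r26.ty (t1v t3c26) - pe t3d26.ty (Xcd.ew zW t3c26)) :=
  NC.of (K := 703) (D := ⟨1, 1, 1, 55⟩) (Box.of 4 (by decide +kernel))
    (by decide +kernel)

theorem t3k26_xhz : NC (pe t3r26.hz (t1v t3c26) - pe t3d26.c.dR (Xcd.ew zW t3c26)) :=
  NC.of (K := 710) (D := ⟨1, 1, 1, 55⟩) (Box.of 4 (by decide +kernel))
    (by decide +kernel)

theorem t3f26_ok : t3f26.ok V2L.y12 V2L.k12 V2L.nb V2L.la (10 ^ 30) 32 = true := by decide +kernel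

theorem t3k26_sg : t3c26.Sg := by
  constructor <;> decide +kernel

theorem t3k26_rgs : t3c26.Rgs where
  M := ⟨t3k26_M_r1, t3k26_M_r2, t3k26_M_r3, t3k26_M_r4⟩
  r0 := ⟨t3k26_r0_r1, t3k26_r0_r2, t3k26_r0_r3, t3k26_r0_r4⟩
  r1 := ⟨t3k26_r1_r1, t3k26_r1_r2, t3k26_r1_r3, t3k26_r1_r4⟩
  r2 := ⟨t3k26_r2_r1, t3k26_r2_r2, t3k26_r2_r3, t3k26_r2_r4⟩
  rc := ⟨t3k26_rc_r1, t3k26_rc_r2, t3k26_rc_r3, t3k26_rc_r4⟩
  rI := ⟨t3k26_rI_r1, t3k26_rI_r2, t3k26_rI_r3, t3k26_rI_r4⟩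
  rJ := ⟨t3k26_rJ_r1, t3k26_rJ_r2, t3k26_rJ_r3, t3k26_rJ_r4⟩

theorem t3k26_xn : t3e26.Ok t3c26 where
  lm := by decide +kernel
  dl0 := by decide +kernel
  dl1 := by decide +kernel
  e2 := by decide +kernel
  eY := by decide +kernel
  gE := ⟨t3k26_gE_r1, t3k26_gE_r2, t3k26_gE_r3, t3k26_gE_r4⟩

theorem t3k26_vl : t3c26.Vl dW qW where
  bt := by decide +kernel
  B0 := t3k26_B0
  E0 := t3k26_E0
  D0 := t3k26_D0
  Bh := t3k26_Bh
  Eh := t3k26_Eh
  Dh := t3k26_Dh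
  B1 := t3k26_B1
  E1 := t3k26_E1
  D1 := t3k26_D1

theorem t3k26_rat : t3n26.Rat t3c26 := by
  constructor <;> decide +kernel

theorem t3k26_ck : t3n26.Ck t3c26 := ⟨t3k26_l, t3k26_n⟩

theorem t3k26_fck : t3n26.Fck dW qW fW t3c26 := ⟨t3k26_rb, t3k26_kap⟩

theorem t3k26_w : Wcl zW kW yW t3al t3c26 t3n26 t3m26 where
  b2 := t3k26_wb2
  mb := t3k26_wmb
  th := t3k26_wth
  yb := t3k26_wyb
  mu := t3k26_wmu
  cj := t3k26_wcj
  mt1 := by decide +kernel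
  mt2 := by decide +kernel

theorem t3k26_ok : CelOk dW qW fW t3c26 t3n26 where
  s := t3k26_sg
  r := t3k26_rgs
  v := t3k26_vl
  rt := t3k26_rat
  k := t3k26_ck
  fc := t3k26_fck
  q01 := by decide +kernel
  q12 := by decide +kernel
  h2 := by decide +kernel

theorem t3k26_xr : t3r26.Ok fW t3c26 t3e26 where
  sD := by decide +kernel
  sT := by decide +kernel
  nd1 := t3k26_nd1
  nd2 := t3k26_nd2
  ndy := t3k26_ndy
  nt1 := t3k26_nt1
  nt2 := t3k26_nt2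
  nty := t3k26_nty
  nhz := t3k26_nhz
  xi := t3k26_xi
  om := t3k26_om

theorem t3k26_X : t3d26.Ck t3GR t3HR zW t3c26 t3e26 t3r26 where
  u0 := by decide +kernel
  u01 := by decide +kernel
  ul := by decide +kernel
  us := by decide +kernel
  uc := by decide +kernel
  ga0 := by decide +kernel
  kp0 := by decide +kernel
  lm := by decide +kernel
  dl := t3k26_xdl
  eY := t3k26_xeY
  gr := t3k26_xgr
  hr := t3k26_xhr
  gs := t3k26_xgs
  d1 := t3k26_xd1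
  d2 := t3k26_xd2
  t1 := t3k26_xt1
  t2 := t3k26_xt2
  dy := t3k26_xdy
  ty := t3k26_xty
  d1s := t3k26_xd1s
  d2s := t3k26_xd2s
  t1s := t3k26_xt1s
  t2s := t3k26_xt2s
  dys := t3k26_xdys
  tys := t3k26_xtys
  hz := t3k26_xhz

end Pool.Agent.RX.RCN.K
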