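import Pool.Agent.RX.RCN.T3D
import Pool.Agent.RX.RCN.T3Wq
import Pool.Agent.RX.RCN.T3X13
import Pool.Agent.RX.RCN.VLd

/-! Certificates (generated). -/

set_option autoImplicit false

namespace Pool.Agent.RX.RCN.K

open Set Pool.Agent.RX.RCM9 Pool.Agent.RX.RCM9.Bern Pool.Agent.RX.RCM9.Pk Xce

def t3c28 : Cel where
  t0 := 9 / 20
  t1 := 91 / 200
  C := 4097 / 4096
  th := 1883 / 4096
  B0 := 539 / 512
  Bh := 151 / 128
  B1 := 591 / 512
  D0 := 1419 / 4096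
  Dh := 1171 / 4096
  D1 := 1119 / 4096
  E0 := 4407 / 524288
  Eh := 30093 / 4194304
  E1 := 14387 / 2097152
  Q0 := 1081 / 1024
  Q1 := 1081 / 1024
  Q2 := 1115 / 1024
  Ac := 1081 / 1024
  gI := 1081 / 1024
  J := 445 / 32768

def t3n28 : Chn where
  lb := 513 / 512
  nb := 327 / 1024
  Mb := 1039 / 1024
  b2 := 65 / 64
  Yb := 3 / 256
  E2 := 2097 / 2048
  e1 := 1315 / 1024
  Z1 := 1121 / 1024
  Z2 := 317 / 512
  KB := 1063 / 1024
  cb := 1083 / 1024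
  rb := 389 / 1024
  om := 263 / 256
  fb := 129 / 128
  kap := 4189 / 4096
  ab := 1029 / 1024

def t3e28 : Xge where
  lm := 3 / 5
  dl := 1821 / 4096
  e2 := 1893 / 16384
  eY := 1037 / 1024
  gE := 1167 / 1024

def t3r28 : Xr where
  d1 := [1382067 / 50000000, 474229 / 100000000, 59117 / 2000000, 28603 / 2500000, 13480957 /
    100000000, -26865623 / 100000000, 5023533 / 20000000]
  d2 := [1759 / 12500000, 1364079 / 50000000, 4035911 / 50000000, 15880007 / 100000000, -465027 /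
    20000000, -16903227 / 50000000, 19930257 / 50000000]
  dy := [1625561 / 6250000, 9463753 / 100000000, 4048067 / 12500000, 86756309 / 100000000,
    -20614953 / 25000000, -6638801 / 10000000, 130489551 / 100000000]
  t1 := [3712973 / 25000000, -45322727 / 100000000, 6704607 / 20000000, -10361427 / 50000000,
    19896817 / 6250000, -373023699 / 50000000, 128131681 / 20000000]
  t2 := [4028717 / 100000000, -11819257 / 100000000, 4941479 / 50000000, 25220111 / 50000000,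
    -418139 / 1250000, -503697 / 4000000, 3497621 / 12500000]
  ty := [55964281 / 50000000, -190880259 / 50000000, 126488887 / 50000000, 302887953 / 20000000,
    -1548322429 / 50000000, 148221297 / 6250000, -579683769 / 100000000]
  hz := [16158529 / 100000000, -2400199 / 6250000, 38030589 / 100000000, -2801461161 / 100000000,
    15987056621 / 100000000, -3958166827 / 12500000, 4280823507 / 20000000]
  om := [100396699 / 100000000, 102441739 / 100000000, -1394682581 / 100000000, 2821396623 /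
    50000000, -3534881127 / 25000000, 33336836499 / 100000000, -67273548203 / 100000000,
    85177744689 / 100000000, -24032996633 / 50000000]
  sD := 303 / 128
  sT := 135 / 64
  xi := [15771 / 160000, 37969153 / 50000000, -162170731 / 50000000, 41868103 / 10000000,
    -2497512981 / 100000000, 18749003733 / 100000000, -48564395421 / 100000000, 49874640601 /
    100000000, -10952982719 / 100000000, -812965557 / 10000000]

def t3f28 : Dl where
  Ca := 4516153 / 10000000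
  Cv := 228339 / 500000
  k1 := 184549 / 200000
  ks := 903257 / 1000000
  dd := 0
  kp := 1 / 10000000
  e := [199999939717 / 200000000000, -1378532759641 / 1000000000000, 371185484001 / 250000000000,
    -17763946591 / 12500000000, 128975285459 / 100000000000, -544859513541 / 500000000000,
    813572421157 / 1000000000000, -230952243821 / 500000000000, 69965865847 / 500000000000]
  j1 := [-302409 / 125000000, -4091102911 / 500000000, 38163513021 / 500000000, -168246749121 /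
    500000000, 107435726187 / 125000000, -645657144243 / 500000000, 266652774559 / 250000000,
    -189685989317 / 500000000]
  nu := [101740961 / 1000000000, -236876741 / 1000000000, 197325641 / 500000000, -37834797 /
    1000000000, 115696981 / 1000000000, 72140183 / 250000000, -52839153 / 200000000]
  k2 := [451629461 / 500000000, 213999473 / 1000000000, -165610231 / 500000000, -12345567 /
    250000000, -23869403 / 1000000000, -336834363 / 1000000000, 67255349 / 200000000]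
  dR := [8063137 / 50000000, -38290963 / 100000000, 18965357 / 50000000, -1388504507 / 50000000,
    987326369 / 6250000, -31193609903 / 100000000, 21021553841 / 100000000]

def t3d28 : Xce where
  u0 := 11303 / 25000
  u1 := 228339 / 500000
  l := V2L.y13
  y := t3z13
  j := t3j13
  i := t3i13
  ls := t3y13
  k := V2L.k13
  c := t3f28
  ga := 27581 / 1000000
  gb := -12479 / 1000000
  hb := 16969 / 125000
  gs := [160003159 / 100000000, 119999929 / 50000000, 180004863 / 100000000, 3181517 / 4000000,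
    6740097 / 25000000, -12819259 / 100000000, -42463 / 781250]
  d1 := [345259 / 12500000, 59911 / 12500000, 549259 / 20000000, 3190579 / 100000000, 3348191 /
    100000000, -4246227 / 100000000, 1223979 / 20000000]
  d2 := [11879 / 100000000, 1367991 / 50000000, 3771961 / 50000000, 10452261 / 50000000, -6871387
    / 25000000, 4619689 / 20000000, -1629413 / 20000000]
  dy := [12993767 / 50000000, 949577 / 10000000, 15190931 / 50000000, 10546461 / 10000000,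
    -44129077 / 25000000, 147535823 / 100000000, -12624293 / 25000000]
  t1 := [11597 / 78125, -5644241 / 12500000, 32580601 / 100000000, -6845591 / 50000000, 4453289 /
    1562500, -337521057 / 50000000, 583013833 / 100000000]
  t2 := [503311 / 12500000, -11762351 / 100000000, 9229397 / 100000000, 2810137 / 5000000,
    -3132343 / 5000000, 3287481 / 6250000, -26157463 / 100000000]
  ty := [111871291 / 100000000, -380439621 / 100000000, 123868401 / 50000000, 153513141 /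
    10000000, -1605256051 / 50000000, 2649862669 / 100000000, -102242373 / 12500000]

def t3m28 : ℚ := 113 / 256

def t3h28 : ℚ := 251 / 500

theorem t3k28_M_r1 : NC (fM t3c28 (1 - eh) eh ek (elo t3c28.B0 t3c28.Bh eh) (elo t3c28.D0 t3c28.Dh ek) (elo t3c28.E0 t3c28.Eh ek)) :=
  NC.of (K := 32) (D := ⟨4, 3, 1, 1⟩) (Box.of 4 (by decide +kernel))
    (by decide +kernel)

theorem t3k28_M_r2 : NC (fM t3c28 eh (1 - eh) ek (ehi t3c28.Bh t3c28.B1 (1 - eh)) (elo t3c28.D0 t3c28.Dh ek) (elo t3c28.E0 t3c28.Eh ek)) :=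
  NC.of (K := 32) (D := ⟨4, 3, 1, 1⟩) (Box.of 4 (by decide +kernel))
    (by decide +kernel)

theorem t3k28_M_r3 : NC (fM t3c28 (1 - eh) ek eh (elo t3c28.B0 t3c28.Bh ek) (elo t3c28.D0 t3c28.Dh eh) (elo t3c28.E0 t3c28.Eh eh)) :=
  NC.of (K := 31) (D := ⟨4, 2, 1, 1⟩) (Box.of 4 (by decide +kernel))
    (by decide +kernel)

theorem t3k28_M_r4 : NC (fM t3c28 eh ek (1 - eh) (elo t3c28.B0 t3c28.Bh ek) (ehi t3c28.Dh t3c28.D1 (1 - eh)) (ehi t3c28.Eh t3c28.E1 (1 - eh))) :=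
  NC.of (K := 31) (D := ⟨4, 2, 1, 1⟩) (Box.of 4 (by decide +kernel))
    (by decide +kernel)

theorem t3k28_r0_r1 : NC (f0 t3c28 (1 - eh) eh ek (elo t3c28.B0 t3c28.Bh eh) (elo t3c28.D0 t3c28.Dh ek) (elo t3c28.E0 t3c28.Eh ek)) :=
  NC.of (K := 148) (D := ⟨13, 9, 1, 1⟩) (Box.of 4 (by decide +kernel))
    (by decide +kernel)

theorem t3k28_r0_r2 : NC (f0 t3c28 eh (1 - eh) ek (ehi t3c28.Bh t3c28.B1 (1 - eh)) (elo t3c28.D0 t3c28.Dh ek) (elo t3c28.E0 t3c28.Eh ek)) :=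
  NC.of (K := 148) (D := ⟨13, 9, 1, 1⟩) (Box.of 4 (by decide +kernel))
    (by decide +kernel)

theorem t3k28_r0_r3 : NC (f0 t3c28 (1 - eh) ek eh (elo t3c28.B0 t3c28.Bh ek) (elo t3c28.D0 t3c28.Dh eh) (elo t3c28.E0 t3c28.Eh eh)) :=
  NC.of (K := 143) (D := ⟨13, 5, 1, 1⟩) (Box.of 4 (by decide +kernel))
    (by decide +kernel)

theorem t3k28_r0_r4 : NC (f0 t3c28 eh ek (1 - eh) (elo t3c28.B0 t3c28.Bh ek) (ehi t3c28.Dh t3c28.D1 (1 - eh)) (ehi t3c28.Eh t3c28.E1 (1 - eh))) :=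
  NC.of (K := 144) (D := ⟨13, 5, 1, 1⟩) (Box.of 4 (by decide +kernel))
    (by decide +kernel)

theorem t3k28_r1_r1 : NC (f1 t3c28 (1 - eh) eh ek (elo t3c28.B0 t3c28.Bh eh) (elo t3c28.D0 t3c28.Dh ek) (elo t3c28.E0 t3c28.Eh ek)) :=
  NC.of (K := 230) (D := ⟨16, 9, 1, 1⟩) (Box.of 4 (by decide +kernel))
    (by decide +kernel)

theorem t3k28_r1_r2 : NC (f1 t3c28 eh (1 - eh) ek (ehi t3c28.Bh t3c28.B1 (1 - eh)) (elo t3c28.D0 t3c28.Dh ek) (elo t3c28.E0 t3c28.Eh ek)) :=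
  NC.of (K := 231) (D := ⟨16, 9, 1, 1⟩) (Box.of 4 (by decide +kernel))
    (by decide +kernel)

theorem t3k28_r1_r3 : NC (f1 t3c28 (1 - eh) ek eh (elo t3c28.B0 t3c28.Bh ek) (elo t3c28.D0 t3c28.Dh eh) (elo t3c28.E0 t3c28.Eh eh)) :=
  NC.of (K := 233) (D := ⟨16, 12, 1, 1⟩) (Box.of 4 (by decide +kernel))
    (by decide +kernel)

theorem t3k28_r1_r4 : NC (f1 t3c28 eh ek (1 - eh) (elo t3c28.B0 t3c28.Bh ek) (ehi t3c28.Dh t3c28.D1 (1 - eh)) (ehi t3c28.Eh t3c28.E1 (1 - eh))) :=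
  NC.of (K := 234) (D := ⟨16, 12, 1, 1⟩) (Box.of 4 (by decide +kernel))
    (by decide +kernel)

theorem t3k28_r2_r1 : NC (f2 t3c28 (1 - eh) eh ek (elo t3c28.B0 t3c28.Bh eh) (elo t3c28.D0 t3c28.Dh ek) (elo t3c28.E0 t3c28.Eh ek)) :=
  NC.of (K := 261) (D := ⟨16, 11, 1, 1⟩) (Box.of 288 (by decide +kernel))
    (by decide +kernel)

theorem t3k28_r2_r2 : NC (f2 t3c28 eh (1 - eh) ek (ehi t3c28.Bh t3c28.B1 (1 - eh)) (elo t3c28.D0 t3c28.Dh ek) (elo t3c28.E0 t3c28.Eh ek)) :=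
  NC.of (K := 234) (D := ⟨16, 11, 1, 1⟩) (Box.of 4 (by decide +kernel))
    (by decide +kernel)

theorem t3k28_r2_r3 : NC (f2 t3c28 (1 - eh) ek eh (elo t3c28.B0 t3c28.Bh ek) (elo t3c28.D0 t3c28.Dh eh) (elo t3c28.E0 t3c28.Eh eh)) :=
  NC.of (K := 262) (D := ⟨16, 12, 1, 1⟩) (Box.of 288 (by decide +kernel))
    (by decide +kernel)

theorem t3k28_r2_r4 : NC (f2 t3c28 eh ek (1 - eh) (elo t3c28.B0 t3c28.Bh ek) (ehi t3c28.Dh t3c28.D1 (1 - eh)) (ehi t3c28.Eh t3c28.E1 (1 - eh))) :=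
  NC.of (K := 236) (D := ⟨16, 12, 1, 1⟩) (Box.of 4 (by decide +kernel))
    (by decide +kernel)

theorem t3k28_rc_r1 : NC (fc t3c28 (1 - eh) eh ek (elo t3c28.B0 t3c28.Bh eh) (elo t3c28.D0 t3c28.Dh ek) (elo t3c28.E0 t3c28.Eh ek)) :=
  NC.of (K := 148) (D := ⟨13, 9, 1, 1⟩) (Box.of 4 (by decide +kernel))
    (by decide +kernel)

theorem t3k28_rc_r2 : NC (fc t3c28 eh (1 - eh) ek (ehi t3c28.Bh t3c28.B1 (1 - eh)) (elo t3c28.D0 t3c28.Dh ek) (elo t3c28.E0 t3c28.Eh ek)) :=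
  NC.of (K := 147) (D := ⟨13, 9, 1, 1⟩) (Box.of 4 (by decide +kernel))
    (by decide +kernel)

theorem t3k28_rc_r3 : NC (fc t3c28 (1 - eh) ek eh (elo t3c28.B0 t3c28.Bh ek) (elo t3c28.D0 t3c28.Dh eh) (elo t3c28.E0 t3c28.Eh eh)) :=
  NC.of (K := 143) (D := ⟨13, 5, 1, 1⟩) (Box.of 4 (by decide +kernel))
    (by decide +kernel)

theorem t3k28_rc_r4 : NC (fc t3c28 eh ek (1 - eh) (elo t3c28.B0 t3c28.Bh ek) (ehi t3c28.Dh t3c28.D1 (1 - eh)) (ehi t3c28.Eh t3c28.E1 (1 - eh))) :=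
  NC.of (K := 144) (D := ⟨13, 5, 1, 1⟩) (Box.of 4 (by decide +kernel))
    (by decide +kernel)

theorem t3k28_rI_r1 : NC (fI t3c28 (1 - eh) eh ek (elo t3c28.B0 t3c28.Bh eh) (elo t3c28.D0 t3c28.Dh ek) (elo t3c28.E0 t3c28.Eh ek)) :=
  NC.of (K := 138) (D := ⟨13, 9, 1, 1⟩) (Box.of 4 (by decide +kernel))
    (by decide +kernel)

theorem t3k28_rI_r2 : NC (fI t3c28 eh (1 - eh) ek (ehi t3c28.Bh t3c28.B1 (1 - eh)) (elo t3c28.D0 t3c28.Dh ek) (elo t3c28.E0 t3c28.Eh ek)) :=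
  NC.of (K := 138) (D := ⟨13, 9, 1, 1⟩) (Box.of 4 (by decide +kernel))
    (by decide +kernel)

theorem t3k28_rI_r3 : NC (fI t3c28 (1 - eh) ek eh (elo t3c28.B0 t3c28.Bh ek) (elo t3c28.D0 t3c28.Dh eh) (elo t3c28.E0 t3c28.Eh eh)) :=
  NC.of (K := 133) (D := ⟨13, 5, 1, 1⟩) (Box.of 4 (by decide +kernel))
    (by decide +kernel)

theorem t3k28_rI_r4 : NC (fI t3c28 eh ek (1 - eh) (elo t3c28.B0 t3c28.Bh ek) (ehi t3c28.Dh t3c28.D1 (1 - eh)) (ehi t3c28.Eh t3c28.E1 (1 - eh))) :=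
  NC.of (K := 134) (D := ⟨13, 5, 1, 1⟩) (Box.of 4 (by decide +kernel))
    (by decide +kernel)

theorem t3k28_rJ_r1 : NC (fJ t3c28 (1 - eh) eh ek (elo t3c28.B0 t3c28.Bh eh) (elo t3c28.D0 t3c28.Dh ek) (elo t3c28.E0 t3c28.Eh ek)) :=
  NC.of (K := 75) (D := ⟨7, 5, 1, 1⟩) (Box.of 4 (by decide +kernel))
    (by decide +kernel)

theorem t3k28_rJ_r2 : NC (fJ t3c28 eh (1 - eh) ek (ehi t3c28.Bh t3c28.B1 (1 - eh)) (elo t3c28.D0 t3c28.Dh ek) (elo t3c28.E0 t3c28.Eh ek)) :=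
  NC.of (K := 75) (D := ⟨7, 5, 1, 1⟩) (Box.of 4 (by decide +kernel))
    (by decide +kernel)

theorem t3k28_rJ_r3 : NC (fJ t3c28 (1 - eh) ek eh (elo t3c28.B0 t3c28.Bh ek) (elo t3c28.D0 t3c28.Dh eh) (elo t3c28.E0 t3c28.Eh eh)) :=
  NC.of (K := 72) (D := ⟨7, 3, 1, 1⟩) (Box.of 4 (by decide +kernel))
    (by decide +kernel)

theorem t3k28_rJ_r4 : NC (fJ t3c28 eh ek (1 - eh) (elo t3c28.B0 t3c28.Bh ek) (ehi t3c28.Dh t3c28.D1 (1 - eh)) (ehi t3c28.Eh t3c28.E1 (1 - eh))) :=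
  NC.of (K := 73) (D := ⟨7, 3, 1, 1⟩) (Box.of 4 (by decide +kernel))
    (by decide +kernel)

theorem t3k28_gE_r1 : NC (fE t3c28 t3e28 (1 - eh) eh ek (elo t3c28.B0 t3c28.Bh eh) (elo t3c28.D0 t3c28.Dh ek) (elo t3c28.E0 t3c28.Eh ek)) :=
  NC.of (K := 184) (D := ⟨13, 9, 1, 1⟩) (Box.of 18688 (by decide +kernel))
    (by decide +kernel)

theorem t3k28_gE_r2 : NC (fE t3c28 t3e28 eh (1 - eh) ek (ehi t3c28.Bh t3c28.B1 (1 - eh)) (elo t3c28.D0 t3c28.Dh ek) (elo t3c28.E0 t3c28.Eh ek)) :=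
  NC.of (K := 140) (D := ⟨13, 9, 1, 1⟩) (Box.of 4 (by decide +kernel))
    (by decide +kernel)

theorem t3k28_gE_r3 : NC (fE t3c28 t3e28 (1 - eh) ek eh (elo t3c28.B0 t3c28.Bh ek) (elo t3c28.D0 t3c28.Dh eh) (elo t3c28.E0 t3c28.Eh eh)) :=
  NC.of (K := 182) (D := ⟨13, 7, 1, 1⟩) (Box.of 18688 (by decide +kernel))
    (by decide +kernel)

theorem t3k28_gE_r4 : NC (fE t3c28 t3e28 eh ek (1 - eh) (elo t3c28.B0 t3c28.Bh ek) (ehi t3c28.Dh t3c28.D1 (1 - eh)) (ehi t3c28.Eh t3c28.E1 (1 - eh))) :=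
  NC.of (K := 139) (D := ⟨13, 7, 1, 1⟩) (Box.of 4 (by decide +kernel))
    (by decide +kernel)

theorem t3k28_B0 : NC (kB dW 1 0 t3c28.B0 (tcl t3c28)) :=
  NC.of (K := 102) (D := ⟨1, 1, 1, 9⟩) (Box.of 4 (by decide +kernel))
    (by decide +kernel)

theorem t3k28_E0 : NC (kE dW qW qW.p0 qW.q0 t3c28.E0 (tcl t3c28)) :=
  NC.of (K := 225) (D := ⟨1, 1, 1, 19⟩) (Box.of 4 (by decide +kernel))
    (by decide +kernel)

theorem t3k28_D0 : NC (kD dW qW 1 0 qW.p0 qW.q0 t3c28.D0 (tcl t3c28)) :=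
  NC.of (K := 343) (D := ⟨1, 1, 1, 20⟩) (Box.of 4 (by decide +kernel))
    (by decide +kernel)

theorem t3k28_Bh : NC (kB dW (1 / 2) (1 / 2) t3c28.Bh (tcl t3c28)) :=
  NC.of (K := 105) (D := ⟨1, 1, 1, 9⟩) (Box.of 4 (by decide +kernel))
    (by decide +kernel)

theorem t3k28_Eh : NC (kE dW qW qW.ph qW.qh t3c28.Eh (tcl t3c28)) :=
  NC.of (K := 229) (D := ⟨1, 1, 1, 19⟩) (Box.of 4 (by decide +kernel))
    (by decide +kernel)

theorem t3k28_Dh : NC (kD dW qW (1 / 2) (1 / 2) qW.ph qW.qh t3c28.Dh (tcl t3c28)) :=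
  NC.of (K := 347) (D := ⟨1, 1, 1, 20⟩) (Box.of 4 (by decide +kernel))
    (by decide +kernel)

theorem t3k28_B1 : NC (kB dW 0 (1 / 2) t3c28.B1 (tcl t3c28)) :=
  NC.of (K := 105) (D := ⟨1, 1, 1, 9⟩) (Box.of 4 (by decide +kernel))
    (by decide +kernel)

theorem t3k28_E1 : NC (kE dW qW qW.p1 qW.q1 t3c28.E1 (tcl t3c28)) :=
  NC.of (K := 229) (D := ⟨1, 1, 1, 19⟩) (Box.of 4 (by decide +kernel))
    (by decide +kernel)

theorem t3k28_D1 : NC (kD dW qW 0 (1 / 2) qW.p1 qW.q1 t3c28.D1 (tcl t3c28)) :=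
  NC.of (K := 347) (D := ⟨1, 1, 1, 20⟩) (Box.of 4 (by decide +kernel))
    (by decide +kernel)

theorem t3k28_l : NC (qc t3n28.lb - (1 - vX) * pe (exl t3c28.th) vX ^ 2) :=
  NC.of (K := 126) (D := ⟨10, 1, 1, 1⟩) (Box.of 4 (by decide +kernel))
    (by decide +kernel)

theorem t3k28_n : NC (qc t3n28.nb - vX * (1 - vX) * pe (exl t3c28.th) vX) :=
  NC.of (K := 116) (D := ⟨7, 1, 1, 1⟩) (Box.of 76677152 (by decide +kernel))
    (by decide +kernel)

theorem t3k28_rb : NC (krb t3n28 fW (t1v t3c28)) :=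
  NC.of (K := 201) (D := ⟨1, 1, 1, 16⟩) (Box.of 4 (by decide +kernel))
    (by decide +kernel)

theorem t3k28_kap : NC (kkap dW qW t3n28 (tcl t3c28)) :=
  NC.of (K := 102) (D := ⟨1, 1, 1, 9⟩) (Box.of 4 (by decide +kernel))
    (by decide +kernel)

theorem t3k28_wb2 : NC (qc t3n28.b2 - pe2 kW.QB (vZ * t1v t3c28) (t1v t3c28)) :=
  NC.of (K := 175) (D := ⟨1, 6, 1, 11⟩) (Box.of 18715 (by decide +kernel))
    (by decide +kernel)

theorem t3k28_wmb : NC (qc t3n28.Mb - pe zW.mb (t1v t3c28)) :=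
  NC.of (K := 123) (D := ⟨1, 1, 1, 9⟩) (Box.of 291 (by decide +kernel))
    (by decide +kernel)

theorem t3k28_wth : NC (qc (t3c28.th / t3c28.t1) - pe2 zW.Qt (vZ * t1v t3c28) (t1v t3c28)) :=
  NC.of (K := 158) (D := ⟨1, 6, 1, 11⟩) (Box.of 291 (by decide +kernel))
    (by decide +kernel)

theorem t3k28_wyb : NC (qc t3n28.Yb - (t1v t3c28 - vZ * t1v t3c28) ^ 3 * pe2 yW.QY (vZ * t1v t3c28) (t1v t3c28)) :=
  NC.of (K := 141) (D := ⟨1, 8, 1, 12⟩) (Box.of 4 (by decide +kernel))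
    (by decide +kernel)

theorem t3k28_wmu : NC (qc t3m28 - pe t3al (tcl t3c28) * (1 + hlf * tcl t3c28)) :=
  NC.of (K := 98) (D := ⟨1, 1, 1, 9⟩) (Box.of 4 (by decide +kernel))
    (by decide +kernel)

theorem t3k28_wcj : NC (qc t3c28.C * ((6 - 3 * vX) * (1 - qc t3m28 * vX)) - (6 - 6 * vX + vX ^ 2)) :=
  NC.of (K := 30) (D := ⟨3, 1, 1, 1⟩) (Box.of 4 (by decide +kernel))
    (by decide +kernel)

theorem t3k28_nd1 : NC (pe t3r28.d1 (t1v t3c28)) :=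
  NC.of (K := 76) (D := ⟨1, 1, 1, 7⟩) (Box.of 4 (by decide +kernel))
    (by decide +kernel)

theorem t3k28_nd2 : NC (pe t3r28.d2 (t1v t3c28)) :=
  NC.of (K := 78) (D := ⟨1, 1, 1, 7⟩) (Box.of 4 (by decide +kernel))
    (by decide +kernel)

theorem t3k28_ndy : NC (pe t3r28.dy (t1v t3c28)) :=
  NC.of (K := 82) (D := ⟨1, 1, 1, 7⟩) (Box.of 4 (by decide +kernel))
    (by decide +kernel)

theorem t3k28_nt1 : NC (pe t3r28.t1 (t1v t3c28)) :=
  NC.of (K := 80) (D := ⟨1, 1, 1, 7⟩) (Box.of 4 (by decide +kernel))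
    (by decide +kernel)

theorem t3k28_nt2 : NC (pe t3r28.t2 (t1v t3c28)) :=
  NC.of (K := 77) (D := ⟨1, 1, 1, 7⟩) (Box.of 4 (by decide +kernel))
    (by decide +kernel)

theorem t3k28_nty : NC (pe t3r28.ty (t1v t3c28)) :=
  NC.of (K := 85) (D := ⟨1, 1, 1, 7⟩) (Box.of 4 (by decide +kernel))
    (by decide +kernel)

theorem t3k28_nhz : NC (pe t3r28.hz (t1v t3c28)) :=
  NC.of (K := 109) (D := ⟨1, 1, 1, 7⟩) (Box.of 18659 (by decide +kernel))
    (by decide +kernel)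

theorem t3k28_xi : NC (eXi fW t3c28 t3e28 t3r28 (t1v t3c28)) :=
  NC.of (K := 326) (D := ⟨1, 1, 1, 22⟩) (Box.of 4 (by decide +kernel))
    (by decide +kernel)

theorem t3k28_om : NC (eOm fW t3r28 (t1v t3c28)) :=
  NC.of (K := 192) (D := ⟨1, 1, 1, 16⟩) (Box.of 4 (by decide +kernel))
    (by decide +kernel)

theorem t3k28_fin : NC (eFin dW t3c28 t3n28 t3r28 t3h28 (tcl t3c28)) :=
  NC.of (K := 227) (D := ⟨1, 1, 1, 14⟩) (Box.of 4 (by decide +kernel))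
    (by decide +kernel)

theorem t3k28_xdl : NC (qc t3e28.dl - pe t3d28.l.dl t3d28.eU) :=
  NC.of (K := 70) (D := ⟨1, 4, 1, 1⟩) (Box.of 4 (by decide +kernel))
    (by decide +kernel)

theorem t3k28_xeY : NC (qc t3e28.eY - pe (e4l t3d28.l.z) t3d28.eU) :=
  NC.of (K := 276) (D := ⟨1, 13, 1, 1⟩) (Box.of 4 (by decide +kernel))
    (by decide +kernel)

theorem t3k28_xgr : NC (qc t3d28.ga * ((1 + qc (3 / 5) * vX) * (1 + (t3d28.eg + hlf * t3d28.eg ^ 2))) + qc t3d28.gb - pe2 t3GR vX t3d28.eU) :=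
  NC.of (K := 252) (D := ⟨4, 11, 1, 1⟩) (Box.of 1196288 (by decide +kernel))
    (by decide +kernel)

theorem t3k28_xhr : NC (qc t3d28.hb - pe2 t3HR vX t3d28.eU) :=
  NC.of (K := 253) (D := ⟨3, 12, 1, 1⟩) (Box.of 4 (by decide +kernel))
    (by decide +kernel)

theorem t3k28_xgs : NC (pe t3d28.gs t3d28.e1 - qc (8 / 5) * pe (e4l (ladd t3d28.ls.z t3d28.ls.dl)) t3d28.e1) :=
  NC.of (K := 284) (D := ⟨1, 1, 1, 13⟩) (Box.of 4 (by decide +kernel))
    (by decide +kernel)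

theorem t3k28_xd1 : NC (pe t3d28.d1 t3d28.e1 - t3d28.eA t3d28.eU t3d28.e1) :=
  NC.of (K := 274) (D := ⟨1, 12, 1, 12⟩) (Box.of 4 (by decide +kernel))
    (by decide +kernel)

theorem t3k28_xd2 : NC (pe t3d28.d2 t3d28.e1 - t3d28.eB t3d28.eU t3d28.e1) :=
  NC.of (K := 278) (D := ⟨1, 12, 1, 12⟩) (Box.of 4 (by decide +kernel))
    (by decide +kernel)

theorem t3k28_xt1 : NC (pe t3d28.t1 t3d28.e1 - t3d28.eAT t3d28.eU t3d28.e1) :=
  NC.of (K := 453) (D := ⟨1, 19, 1, 19⟩) (Box.of 4 (by decide +kernel))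
    (by decide +kernel)

theorem t3k28_xt2 : NC (pe t3d28.t2 t3d28.e1 - t3d28.eBT t3d28.eU t3d28.e1) :=
  NC.of (K := 455) (D := ⟨1, 19, 1, 19⟩) (Box.of 4 (by decide +kernel))
    (by decide +kernel)

theorem t3k28_xdy : NC (pe t3d28.dy t3d28.e1 - t3d28.eSD t3d28.eU t3d28.e1) :=
  NC.of (K := 426) (D := ⟨1, 18, 1, 12⟩) (Box.of 4 (by decide +kernel))
    (by decide +kernel)

theorem t3k28_xty : NC (pe t3d28.ty t3d28.e1 - t3d28.eST t3d28.eU t3d28.e1) :=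
  NC.of (K := 641) (D := ⟨1, 26, 1, 26⟩) (Box.of 4 (by decide +kernel))
    (by decide +kernel)

theorem t3k28_xd1s : NC (pe t3r28.d1 (t1v t3c28) - pe t3d28.d1 (Xcd.ew zW t3c28)) :=
  NC.of (K := 696) (D := ⟨1, 1, 1, 55⟩) (Box.of 4 (by decide +kernel))
    (by decide +kernel)

theorem t3k28_xd2s : NC (pe t3r28.d2 (t1v t3c28) - pe t3d28.d2 (Xcd.ew zW t3c28)) :=
  NC.of (K := 697) (D := ⟨1, 1, 1, 55⟩) (Box.of 4 (by decide +kernel))
    (by decide +kernel)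

theorem t3k28_xt1s : NC (pe t3r28.t1 (t1v t3c28) - pe t3d28.t1 (Xcd.ew zW t3c28)) :=
  NC.of (K := 705) (D := ⟨1, 1, 1, 55⟩) (Box.of 4 (by decide +kernel))
    (by decide +kernel)

theorem t3k28_xt2s : NC (pe t3r28.t2 (t1v t3c28) - pe t3d28.t2 (Xcd.ew zW t3c28)) :=
  NC.of (K := 701) (D := ⟨1, 1, 1, 55⟩) (Box.of 4 (by decide +kernel))
    (by decide +kernel)

theorem t3k28_xdys : NC (pe t3r28.dy (t1v t3c28) - pe t3d28.dy (Xcd.ew zW t3c28)) :=
  NC.of (K := 700) (D := ⟨1, 1, 1, 55⟩) (Box.of 4 (by decide +kernel))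
    (by decide +kernel)

theorem t3k28_xtys : NC (pe t3r28.ty (t1v t3c28) - pe t3d28.ty (Xcd.ew zW t3c28)) :=
  NC.of (K := 703) (D := ⟨1, 1, 1, 55⟩) (Box.of 4 (by decide +kernel))
    (by decide +kernel)

theorem t3k28_xhz : NC (pe t3r28.hz (t1v t3c28) - pe t3d28.c.dR (Xcd.ew zW t3c28)) :=
  NC.of (K := 710) (D := ⟨1, 1, 1, 55⟩) (Box.of 4 (by decide +kernel))
    (by decide +kernel)

theorem t3f28_ok : t3f28.ok V2L.y13 V2L.k13 V2L.nb V2L.la (10 ^ 30) 32 = true := by decide +kernel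

theorem t3k28_sg : t3c28.Sg := by
  constructor <;> decide +kernel

theorem t3k28_rgs : t3c28.Rgs where
  M := ⟨t3k28_M_r1, t3k28_M_r2, t3k28_M_r3, t3k28_M_r4⟩
  r0 := ⟨t3k28_r0_r1, t3k28_r0_r2, t3k28_r0_r3, t3k28_r0_r4⟩
  r1 := ⟨t3k28_r1_r1, t3k28_r1_r2, t3k28_r1_r3, t3k28_r1_r4⟩
  r2 := ⟨t3k28_r2_r1, t3k28_r2_r2, t3k28_r2_r3, t3k28_r2_r4⟩
  rc := ⟨t3k28_rc_r1, t3k28_rc_r2, t3k28_rc_r3, t3k28_rc_r4⟩
  rI := ⟨t3k28_rI_r1, t3k28_rI_r2, t3k28_rI_r3, t3k28_rI_r4⟩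
  rJ := ⟨t3k28_rJ_r1, t3k28_rJ_r2, t3k28_rJ_r3, t3k28_rJ_r4⟩

theorem t3k28_xn : t3e28.Ok t3c28 where
  lm := by decide +kernel
  dl0 := by decide +kernel
  dl1 := by decide +kernel
  e2 := by decide +kernel
  eY := by decide +kernel
  gE := ⟨t3k28_gE_r1, t3k28_gE_r2, t3k28_gE_r3, t3k28_gE_r4⟩

theorem t3k28_vl : t3c28.Vl dW qW where
  bt := by decide +kernel
  B0 := t3k28_B0
  E0 := t3k28_E0
  D0 := t3k28_D0
  Bh := t3k28_Bh
  Eh := t3k28_Eh
  Dh := t3k28_Dh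
  B1 := t3k28_B1
  E1 := t3k28_E1
  D1 := t3k28_D1

theorem t3k28_rat : t3n28.Rat t3c28 := by
  constructor <;> decide +kernel

theorem t3k28_ck : t3n28.Ck t3c28 := ⟨t3k28_l, t3k28_n⟩

theorem t3k28_fck : t3n28.Fck dW qW fW t3c28 := ⟨t3k28_rb, t3k28_kap⟩

theorem t3k28_w : Wcl zW kW yW t3al t3c28 t3n28 t3m28 where
  b2 := t3k28_wb2
  mb := t3k28_wmb
  th := t3k28_wth
  yb := t3k28_wyb
  mu := t3k28_wmu
  cj := t3k28_wcj
  mt1 := by decide +kernel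
  mt2 := by decide +kernel

theorem t3k28_ok : CelOk dW qW fW t3c28 t3n28 where
  s := t3k28_sg
  r := t3k28_rgs
  v := t3k28_vl
  rt := t3k28_rat
  k := t3k28_ck
  fc := t3k28_fck
  q01 := by decide +kernel
  q12 := by decide +kernel
  h2 := by decide +kernel

theorem t3k28_xr : t3r28.Ok fW t3c28 t3e28 where
  sD := by decide +kernel
  sT := by decide +kernel
  nd1 := t3k28_nd1
  nd2 := t3k28_nd2
  ndy := t3k28_ndy
  nt1 := t3k28_nt1
  nt2 := t3k28_nt2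
  nty := t3k28_nty
  nhz := t3k28_nhz
  xi := t3k28_xi
  om := t3k28_om

theorem t3k28_X : t3d28.Ck t3GR t3HR zW t3c28 t3e28 t3r28 where
  u0 := by decide +kernel
  u01 := by decide +kernel
  ul := by decide +kernel
  us := by decide +kernel
  uc := by decide +kernel
  ga0 := by decide +kernel
  kp0 := by decide +kernel
  lm := by decide +kernel
  dl := t3k28_xdl
  eY := t3k28_xeY
  gr := t3k28_xgr
  hr := t3k28_xhr
  gs := t3k28_xgs
  d1 := t3k28_xd1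
  d2 := t3k28_xd2
  t1 := t3k28_xt1
  t2 := t3k28_xt2
  dy := t3k28_xdy
  ty := t3k28_xty
  d1s := t3k28_xd1s
  d2s := t3k28_xd2s
  t1s := t3k28_xt1s
  t2s := t3k28_xt2s
  dys := t3k28_xdys
  tys := t3k28_xtys
  hz := t3k28_xhz

end Pool.Agent.RX.RCN.K
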