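import Pool.Agent.RX.RCN.T3D
import Pool.Agent.RX.RCN.T3Wq
import Pool.Agent.RX.RCN.T3X13
import Pool.Agent.RX.RCN.VLd

/-! Certificates (generated). -/

set_option autoImplicit false

namespace Pool.Agent.RX.RCN.K

open Set Pool.Agent.RX.RCM9 Pool.Agent.RX.RCM9.Bern Pool.Agent.RX.RCM9.Pk Xce

def t3c29 : Cel where
  t0 := 91 / 200
  t1 := 23 / 50
  C := 4097 / 4096
  th := 953 / 2048
  B0 := 269 / 256
  Bh := 1211 / 1024
  B1 := 593 / 512
  D0 := 715 / 2048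
  Dh := 1183 / 4096
  D1 := 1131 / 4096
  E0 := 18423 / 2097152
  Eh := 15767 / 2097152
  E1 := 15081 / 2097152
  Q0 := 1079 / 1024
  Q1 := 1079 / 1024
  Q2 := 559 / 512
  Ac := 1079 / 1024
  gI := 1079 / 1024
  J := 941 / 65536

def t3n29 : Chn where
  lb := 513 / 512
  nb := 41 / 128
  Mb := 65 / 64
  b2 := 65 / 64
  Yb := 25 / 2048
  E2 := 2099 / 2048
  e1 := 165 / 128
  Z1 := 35 / 32
  Z2 := 317 / 512
  KB := 1063 / 1024
  cb := 271 / 256
  rb := 393 / 1024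
  om := 263 / 256
  fb := 129 / 128
  kap := 4193 / 4096
  ab := 1029 / 1024

def t3e29 : Xge where
  lm := 3 / 5
  dl := 115 / 256
  e2 := 121 / 1024
  eY := 2075 / 2048
  gE := 585 / 512

def t3r29 : Xr where
  d1 := [722207 / 25000000, 111551 / 25000000, 729291 / 25000000, 491731 / 50000000, 13992189 /
    100000000, -27866249 / 100000000, 25733611 / 100000000]
  d2 := [2913 / 20000000, 2652947 / 100000000, 3878241 / 50000000, 2042847 / 12500000, -1195433 /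
    50000000, -4341571 / 12500000, 40816863 / 100000000]
  dy := [27783791 / 100000000, 9162991 / 100000000, 15383173 / 50000000, 90104749 / 100000000,
    -84677977 / 100000000, -3423297 / 5000000, 133512871 / 100000000]
  t1 := [15250111 / 100000000, -45849909 / 100000000, 33700059 / 100000000, -24097363 / 100000000,
    40993867 / 12500000, -377062969 / 50000000, 318209489 / 50000000]
  t2 := [168517 / 4000000, -2483027 / 20000000, 38231 / 390625, 50706999 / 100000000, -1612149 /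
    5000000, -15667901 / 100000000, 30559717 / 100000000]
  ty := [117645099 / 100000000, -200282673 / 50000000, 298630967 / 100000000, 680955497 /
    50000000, -66449591 / 2500000, 847195973 / 50000000, -82250881 / 50000000]
  hz := [16521801 / 100000000, -36563193 / 100000000, -37087143 / 100000000, -47263803 / 2500000,
    5720242839 / 50000000, -21963246823 / 100000000, 13987210777 / 100000000]
  om := [1003967 / 1000000, 51235941 / 50000000, -1396244959 / 100000000, 2836617689 / 50000000,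
    -2885538769 / 20000000, 17402573519 / 50000000, -892347159 / 1250000, 9114333669 / 10000000,
    -25780706219 / 50000000]
  sD := 613 / 256
  sT := 545 / 256
  xi := [652471 / 6250000, 78335387 / 100000000, -336924643 / 100000000, 91793833 / 25000000,
    -28573357 / 2000000, 3147542493 / 25000000, -32034621229 / 100000000, 5555367241 / 20000000,
    3166633 / 78125, -6789816233 / 50000000]

def t3f29 : Dl where
  Ca := 4566759 / 10000000
  Cv := 28859 / 62500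
  k1 := 9211831 / 10000000
  ks := 180279 / 200000
  dd := 0
  kp := 1 / 10000000
  e := [999999698417 / 1000000000000, -1383968264151 / 1000000000000, 748019656771 / 500000000000,
    -1437496049973 / 1000000000000, 1308881694673 / 1000000000000, -1108531354817 /
    1000000000000, 206989861613 / 250000000000, -29302315883 / 62500000000, 141239284903 /
    1000000000000]
  j1 := [-2391941 / 1000000000, -404608487 / 50000000, 75680017963 / 1000000000, -20890613719 /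
    62500000, 427415794019 / 500000000, -25688287873 / 20000000, 1058413484179 / 1000000000,
    -9350160323 / 25000000]
  nu := [51902293 / 500000000, -239026319 / 1000000000, 394722849 / 1000000000, -36453603 /
    1000000000, 47853363 / 500000000, 317571027 / 1000000000, -277735603 / 1000000000]
  k2 := [901396481 / 1000000000, 107749101 / 500000000, -6602591 / 20000000, -10307649 /
    200000000, -2079951 / 500000000, -364714627 / 1000000000, 347646167 / 1000000000]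
  dR := [16488821 / 100000000, -36467767 / 100000000, -3639103 / 10000000, -7336418 / 390625,
    2264803423 / 20000000, -2709837939 / 12500000, 6886016017 / 50000000]

def t3d29 : Xce where
  u0 := 457181 / 1000000
  u1 := 28859 / 62500
  l := V2L.y13
  y := t3z13
  j := t3j13
  i := t3i13
  ls := t3y13
  k := V2L.k13
  c := t3f29
  ga := 14413 / 500000
  gb := -531 / 40000
  hb := 142863 / 1000000
  gs := [160003183 / 100000000, 239999847 / 100000000, 180005171 / 100000000, 3181389 / 4000000,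
    26975247 / 100000000, -12850779 / 100000000, -5410383 / 100000000]
  d1 := [2886699 / 100000000, 451627 / 100000000, 540031 / 20000000, 3108721 / 100000000, 1752113
    / 50000000, -4511459 / 100000000, 308623 / 5000000]
  d2 := [12359 / 100000000, 2661517 / 100000000, 1803997 / 25000000, 21511821 / 100000000,
    -28234617 / 100000000, 11813 / 50000, -2083599 / 25000000]
  dy := [13880709 / 50000000, 36791 / 400000, 2872213 / 10000000, 13663891 / 12500000, -22643487 /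
    12500000, 150645121 / 100000000, -644747 / 1250000]
  t1 := [3048427 / 20000000, -22837907 / 50000000, 8165531 / 25000000, -8078493 / 50000000,
    72704083 / 25000000, -42244443 / 6250000, 286880307 / 50000000]
  t2 := [421059 / 10000000, -6177567 / 50000000, 364023 / 4000000, 56791273 / 100000000, -3929151
    / 6250000, 52402821 / 100000000, -25742787 / 100000000]
  ty := [117584817 / 100000000, -199586097 / 50000000, 292752963 / 100000000, 173405331 /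
    12500000, -2790672293 / 100000000, 251130343 / 12500000, -85845637 / 20000000]

def t3m29 : ℚ := 913 / 2048

def t3h29 : ℚ := 251 / 500

theorem t3k29_M_r1 : NC (fM t3c29 (1 - eh) eh ek (elo t3c29.B0 t3c29.Bh eh) (elo t3c29.D0 t3c29.Dh ek) (elo t3c29.E0 t3c29.Eh ek)) :=
  NC.of (K := 31) (D := ⟨4, 3, 1, 1⟩) (Box.of 4 (by decide +kernel))
    (by decide +kernel)

theorem t3k29_M_r2 : NC (fM t3c29 eh (1 - eh) ek (ehi t3c29.Bh t3c29.B1 (1 - eh)) (elo t3c29.D0 t3c29.Dh ek) (elo t3c29.E0 t3c29.Eh ek)) :=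
  NC.of (K := 31) (D := ⟨4, 3, 1, 1⟩) (Box.of 4 (by decide +kernel))
    (by decide +kernel)

theorem t3k29_M_r3 : NC (fM t3c29 (1 - eh) ek eh (elo t3c29.B0 t3c29.Bh ek) (elo t3c29.D0 t3c29.Dh eh) (elo t3c29.E0 t3c29.Eh eh)) :=
  NC.of (K := 30) (D := ⟨4, 2, 1, 1⟩) (Box.of 4 (by decide +kernel))
    (by decide +kernel)

theorem t3k29_M_r4 : NC (fM t3c29 eh ek (1 - eh) (elo t3c29.B0 t3c29.Bh ek) (ehi t3c29.Dh t3c29.D1 (1 - eh)) (ehi t3c29.Eh t3c29.E1 (1 - eh))) :=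
  NC.of (K := 29) (D := ⟨4, 2, 1, 1⟩) (Box.of 4 (by decide +kernel))
    (by decide +kernel)

theorem t3k29_r0_r1 : NC (f0 t3c29 (1 - eh) eh ek (elo t3c29.B0 t3c29.Bh eh) (elo t3c29.D0 t3c29.Dh ek) (elo t3c29.E0 t3c29.Eh ek)) :=
  NC.of (K := 151) (D := ⟨13, 9, 1, 1⟩) (Box.of 4 (by decide +kernel))
    (by decide +kernel)

theorem t3k29_r0_r2 : NC (f0 t3c29 eh (1 - eh) ek (ehi t3c29.Bh t3c29.B1 (1 - eh)) (elo t3c29.D0 t3c29.Dh ek) (elo t3c29.E0 t3c29.Eh ek)) :=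
  NC.of (K := 151) (D := ⟨13, 9, 1, 1⟩) (Box.of 4 (by decide +kernel))
    (by decide +kernel)

theorem t3k29_r0_r3 : NC (f0 t3c29 (1 - eh) ek eh (elo t3c29.B0 t3c29.Bh ek) (elo t3c29.D0 t3c29.Dh eh) (elo t3c29.E0 t3c29.Eh eh)) :=
  NC.of (K := 146) (D := ⟨13, 5, 1, 1⟩) (Box.of 4 (by decide +kernel))
    (by decide +kernel)

theorem t3k29_r0_r4 : NC (f0 t3c29 eh ek (1 - eh) (elo t3c29.B0 t3c29.Bh ek) (ehi t3c29.Dh t3c29.D1 (1 - eh)) (ehi t3c29.Eh t3c29.E1 (1 - eh))) :=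
  NC.of (K := 143) (D := ⟨13, 5, 1, 1⟩) (Box.of 4 (by decide +kernel))
    (by decide +kernel)

theorem t3k29_r1_r1 : NC (f1 t3c29 (1 - eh) eh ek (elo t3c29.B0 t3c29.Bh eh) (elo t3c29.D0 t3c29.Dh ek) (elo t3c29.E0 t3c29.Eh ek)) :=
  NC.of (K := 231) (D := ⟨16, 9, 1, 1⟩) (Box.of 4 (by decide +kernel))
    (by decide +kernel)

theorem t3k29_r1_r2 : NC (f1 t3c29 eh (1 - eh) ek (ehi t3c29.Bh t3c29.B1 (1 - eh)) (elo t3c29.D0 t3c29.Dh ek) (elo t3c29.E0 t3c29.Eh ek)) :=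
  NC.of (K := 232) (D := ⟨16, 9, 1, 1⟩) (Box.of 4 (by decide +kernel))
    (by decide +kernel)

theorem t3k29_r1_r3 : NC (f1 t3c29 (1 - eh) ek eh (elo t3c29.B0 t3c29.Bh ek) (elo t3c29.D0 t3c29.Dh eh) (elo t3c29.E0 t3c29.Eh eh)) :=
  NC.of (K := 234) (D := ⟨16, 12, 1, 1⟩) (Box.of 4 (by decide +kernel))
    (by decide +kernel)

theorem t3k29_r1_r4 : NC (f1 t3c29 eh ek (1 - eh) (elo t3c29.B0 t3c29.Bh ek) (ehi t3c29.Dh t3c29.D1 (1 - eh)) (ehi t3c29.Eh t3c29.E1 (1 - eh))) :=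
  NC.of (K := 235) (D := ⟨16, 12, 1, 1⟩) (Box.of 4 (by decide +kernel))
    (by decide +kernel)

theorem t3k29_r2_r1 : NC (f2 t3c29 (1 - eh) eh ek (elo t3c29.B0 t3c29.Bh eh) (elo t3c29.D0 t3c29.Dh ek) (elo t3c29.E0 t3c29.Eh ek)) :=
  NC.of (K := 261) (D := ⟨16, 11, 1, 1⟩) (Box.of 288 (by decide +kernel))
    (by decide +kernel)

theorem t3k29_r2_r2 : NC (f2 t3c29 eh (1 - eh) ek (ehi t3c29.Bh t3c29.B1 (1 - eh)) (elo t3c29.D0 t3c29.Dh ek) (elo t3c29.E0 t3c29.Eh ek)) :=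
  NC.of (K := 235) (D := ⟨16, 11, 1, 1⟩) (Box.of 4 (by decide +kernel))
    (by decide +kernel)

theorem t3k29_r2_r3 : NC (f2 t3c29 (1 - eh) ek eh (elo t3c29.B0 t3c29.Bh ek) (elo t3c29.D0 t3c29.Dh eh) (elo t3c29.E0 t3c29.Eh eh)) :=
  NC.of (K := 262) (D := ⟨16, 12, 1, 1⟩) (Box.of 288 (by decide +kernel))
    (by decide +kernel)

theorem t3k29_r2_r4 : NC (f2 t3c29 eh ek (1 - eh) (elo t3c29.B0 t3c29.Bh ek) (ehi t3c29.Dh t3c29.D1 (1 - eh)) (ehi t3c29.Eh t3c29.E1 (1 - eh))) :=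
  NC.of (K := 236) (D := ⟨16, 12, 1, 1⟩) (Box.of 4 (by decide +kernel))
    (by decide +kernel)

theorem t3k29_rc_r1 : NC (fc t3c29 (1 - eh) eh ek (elo t3c29.B0 t3c29.Bh eh) (elo t3c29.D0 t3c29.Dh ek) (elo t3c29.E0 t3c29.Eh ek)) :=
  NC.of (K := 150) (D := ⟨13, 9, 1, 1⟩) (Box.of 4 (by decide +kernel))
    (by decide +kernel)

theorem t3k29_rc_r2 : NC (fc t3c29 eh (1 - eh) ek (ehi t3c29.Bh t3c29.B1 (1 - eh)) (elo t3c29.D0 t3c29.Dh ek) (elo t3c29.E0 t3c29.Eh ek)) :=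
  NC.of (K := 150) (D := ⟨13, 9, 1, 1⟩) (Box.of 4 (by decide +kernel))
    (by decide +kernel)

theorem t3k29_rc_r3 : NC (fc t3c29 (1 - eh) ek eh (elo t3c29.B0 t3c29.Bh ek) (elo t3c29.D0 t3c29.Dh eh) (elo t3c29.E0 t3c29.Eh eh)) :=
  NC.of (K := 146) (D := ⟨13, 5, 1, 1⟩) (Box.of 4 (by decide +kernel))
    (by decide +kernel)

theorem t3k29_rc_r4 : NC (fc t3c29 eh ek (1 - eh) (elo t3c29.B0 t3c29.Bh ek) (ehi t3c29.Dh t3c29.D1 (1 - eh)) (ehi t3c29.Eh t3c29.E1 (1 - eh))) :=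
  NC.of (K := 143) (D := ⟨13, 5, 1, 1⟩) (Box.of 4 (by decide +kernel))
    (by decide +kernel)

theorem t3k29_rI_r1 : NC (fI t3c29 (1 - eh) eh ek (elo t3c29.B0 t3c29.Bh eh) (elo t3c29.D0 t3c29.Dh ek) (elo t3c29.E0 t3c29.Eh ek)) :=
  NC.of (K := 134) (D := ⟨13, 9, 1, 1⟩) (Box.of 4 (by decide +kernel))
    (by decide +kernel)

theorem t3k29_rI_r2 : NC (fI t3c29 eh (1 - eh) ek (ehi t3c29.Bh t3c29.B1 (1 - eh)) (elo t3c29.D0 t3c29.Dh ek) (elo t3c29.E0 t3c29.Eh ek)) :=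
  NC.of (K := 134) (D := ⟨13, 9, 1, 1⟩) (Box.of 4 (by decide +kernel))
    (by decide +kernel)

theorem t3k29_rI_r3 : NC (fI t3c29 (1 - eh) ek eh (elo t3c29.B0 t3c29.Bh ek) (elo t3c29.D0 t3c29.Dh eh) (elo t3c29.E0 t3c29.Eh eh)) :=
  NC.of (K := 129) (D := ⟨13, 5, 1, 1⟩) (Box.of 4 (by decide +kernel))
    (by decide +kernel)

theorem t3k29_rI_r4 : NC (fI t3c29 eh ek (1 - eh) (elo t3c29.B0 t3c29.Bh ek) (ehi t3c29.Dh t3c29.D1 (1 - eh)) (ehi t3c29.Eh t3c29.E1 (1 - eh))) :=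
  NC.of (K := 126) (D := ⟨13, 5, 1, 1⟩) (Box.of 4 (by decide +kernel))
    (by decide +kernel)

theorem t3k29_rJ_r1 : NC (fJ t3c29 (1 - eh) eh ek (elo t3c29.B0 t3c29.Bh eh) (elo t3c29.D0 t3c29.Dh ek) (elo t3c29.E0 t3c29.Eh ek)) :=
  NC.of (K := 78) (D := ⟨7, 5, 1, 1⟩) (Box.of 4 (by decide +kernel))
    (by decide +kernel)

theorem t3k29_rJ_r2 : NC (fJ t3c29 eh (1 - eh) ek (ehi t3c29.Bh t3c29.B1 (1 - eh)) (elo t3c29.D0 t3c29.Dh ek) (elo t3c29.E0 t3c29.Eh ek)) :=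
  NC.of (K := 78) (D := ⟨7, 5, 1, 1⟩) (Box.of 4 (by decide +kernel))
    (by decide +kernel)

theorem t3k29_rJ_r3 : NC (fJ t3c29 (1 - eh) ek eh (elo t3c29.B0 t3c29.Bh ek) (elo t3c29.D0 t3c29.Dh eh) (elo t3c29.E0 t3c29.Eh eh)) :=
  NC.of (K := 75) (D := ⟨7, 3, 1, 1⟩) (Box.of 4 (by decide +kernel))
    (by decide +kernel)

theorem t3k29_rJ_r4 : NC (fJ t3c29 eh ek (1 - eh) (elo t3c29.B0 t3c29.Bh ek) (ehi t3c29.Dh t3c29.D1 (1 - eh)) (ehi t3c29.Eh t3c29.E1 (1 - eh))) :=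
  NC.of (K := 73) (D := ⟨7, 3, 1, 1⟩) (Box.of 4 (by decide +kernel))
    (by decide +kernel)

theorem t3k29_gE_r1 : NC (fE t3c29 t3e29 (1 - eh) eh ek (elo t3c29.B0 t3c29.Bh eh) (elo t3c29.D0 t3c29.Dh ek) (elo t3c29.E0 t3c29.Eh ek)) :=
  NC.of (K := 178) (D := ⟨13, 9, 1, 1⟩) (Box.of 18688 (by decide +kernel))
    (by decide +kernel)

theorem t3k29_gE_r2 : NC (fE t3c29 t3e29 eh (1 - eh) ek (ehi t3c29.Bh t3c29.B1 (1 - eh)) (elo t3c29.D0 t3c29.Dh ek) (elo t3c29.E0 t3c29.Eh ek)) :=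
  NC.of (K := 134) (D := ⟨13, 9, 1, 1⟩) (Box.of 4 (by decide +kernel))
    (by decide +kernel)

theorem t3k29_gE_r3 : NC (fE t3c29 t3e29 (1 - eh) ek eh (elo t3c29.B0 t3c29.Bh ek) (elo t3c29.D0 t3c29.Dh eh) (elo t3c29.E0 t3c29.Eh eh)) :=
  NC.of (K := 176) (D := ⟨13, 7, 1, 1⟩) (Box.of 18688 (by decide +kernel))
    (by decide +kernel)

theorem t3k29_gE_r4 : NC (fE t3c29 t3e29 eh ek (1 - eh) (elo t3c29.B0 t3c29.Bh ek) (ehi t3c29.Dh t3c29.D1 (1 - eh)) (ehi t3c29.Eh t3c29.E1 (1 - eh))) :=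
  NC.of (K := 129) (D := ⟨13, 7, 1, 1⟩) (Box.of 4 (by decide +kernel))
    (by decide +kernel)

theorem t3k29_B0 : NC (kB dW 1 0 t3c29.B0 (tcl t3c29)) :=
  NC.of (K := 102) (D := ⟨1, 1, 1, 9⟩) (Box.of 4 (by decide +kernel))
    (by decide +kernel)

theorem t3k29_E0 : NC (kE dW qW qW.p0 qW.q0 t3c29.E0 (tcl t3c29)) :=
  NC.of (K := 225) (D := ⟨1, 1, 1, 19⟩) (Box.of 4 (by decide +kernel))
    (by decide +kernel)

theorem t3k29_D0 : NC (kD dW qW 1 0 qW.p0 qW.q0 t3c29.D0 (tcl t3c29)) :=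
  NC.of (K := 343) (D := ⟨1, 1, 1, 20⟩) (Box.of 4 (by decide +kernel))
    (by decide +kernel)

theorem t3k29_Bh : NC (kB dW (1 / 2) (1 / 2) t3c29.Bh (tcl t3c29)) :=
  NC.of (K := 105) (D := ⟨1, 1, 1, 9⟩) (Box.of 4 (by decide +kernel))
    (by decide +kernel)

theorem t3k29_Eh : NC (kE dW qW qW.ph qW.qh t3c29.Eh (tcl t3c29)) :=
  NC.of (K := 229) (D := ⟨1, 1, 1, 19⟩) (Box.of 4 (by decide +kernel))
    (by decide +kernel)

theorem t3k29_Dh : NC (kD dW qW (1 / 2) (1 / 2) qW.ph qW.qh t3c29.Dh (tcl t3c29)) :=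
  NC.of (K := 347) (D := ⟨1, 1, 1, 20⟩) (Box.of 4 (by decide +kernel))
    (by decide +kernel)

theorem t3k29_B1 : NC (kB dW 0 (1 / 2) t3c29.B1 (tcl t3c29)) :=
  NC.of (K := 105) (D := ⟨1, 1, 1, 9⟩) (Box.of 4 (by decide +kernel))
    (by decide +kernel)

theorem t3k29_E1 : NC (kE dW qW qW.p1 qW.q1 t3c29.E1 (tcl t3c29)) :=
  NC.of (K := 229) (D := ⟨1, 1, 1, 19⟩) (Box.of 4 (by decide +kernel))
    (by decide +kernel)

theorem t3k29_D1 : NC (kD dW qW 0 (1 / 2) qW.p1 qW.q1 t3c29.D1 (tcl t3c29)) :=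
  NC.of (K := 347) (D := ⟨1, 1, 1, 20⟩) (Box.of 4 (by decide +kernel))
    (by decide +kernel)

theorem t3k29_l : NC (qc t3n29.lb - (1 - vX) * pe (exl t3c29.th) vX ^ 2) :=
  NC.of (K := 118) (D := ⟨10, 1, 1, 1⟩) (Box.of 4 (by decide +kernel))
    (by decide +kernel)

theorem t3k29_n : NC (qc t3n29.nb - vX * (1 - vX) * pe (exl t3c29.th) vX) :=
  NC.of (K := 112) (D := ⟨7, 1, 1, 1⟩) (Box.of 76677152 (by decide +kernel))
    (by decide +kernel)

theorem t3k29_rb : NC (krb t3n29 fW (t1v t3c29)) :=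
  NC.of (K := 173) (D := ⟨1, 1, 1, 16⟩) (Box.of 4 (by decide +kernel))
    (by decide +kernel)

theorem t3k29_kap : NC (kkap dW qW t3n29 (tcl t3c29)) :=
  NC.of (K := 102) (D := ⟨1, 1, 1, 9⟩) (Box.of 4 (by decide +kernel))
    (by decide +kernel)

theorem t3k29_wb2 : NC (qc t3n29.b2 - pe2 kW.QB (vZ * t1v t3c29) (t1v t3c29)) :=
  NC.of (K := 155) (D := ⟨1, 6, 1, 11⟩) (Box.of 1186075 (by decide +kernel))
    (by decide +kernel)

theorem t3k29_wmb : NC (qc t3n29.Mb - pe zW.mb (t1v t3c29)) :=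
  NC.of (K := 107) (D := ⟨1, 1, 1, 9⟩) (Box.of 291 (by decide +kernel))
    (by decide +kernel)

theorem t3k29_wth : NC (qc (t3c29.th / t3c29.t1) - pe2 zW.Qt (vZ * t1v t3c29) (t1v t3c29)) :=
  NC.of (K := 140) (D := ⟨1, 6, 1, 11⟩) (Box.of 291 (by decide +kernel))
    (by decide +kernel)

theorem t3k29_wyb : NC (qc t3n29.Yb - (t1v t3c29 - vZ * t1v t3c29) ^ 3 * pe2 yW.QY (vZ * t1v t3c29) (t1v t3c29)) :=
  NC.of (K := 119) (D := ⟨1, 8, 1, 12⟩) (Box.of 4 (by decide +kernel))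
    (by decide +kernel)

theorem t3k29_wmu : NC (qc t3m29 - pe t3al (tcl t3c29) * (1 + hlf * tcl t3c29)) :=
  NC.of (K := 98) (D := ⟨1, 1, 1, 9⟩) (Box.of 4 (by decide +kernel))
    (by decide +kernel)

theorem t3k29_wcj : NC (qc t3c29.C * ((6 - 3 * vX) * (1 - qc t3m29 * vX)) - (6 - 6 * vX + vX ^ 2)) :=
  NC.of (K := 33) (D := ⟨3, 1, 1, 1⟩) (Box.of 4 (by decide +kernel))
    (by decide +kernel)

theorem t3k29_nd1 : NC (pe t3r29.d1 (t1v t3c29)) :=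
  NC.of (K := 66) (D := ⟨1, 1, 1, 7⟩) (Box.of 4 (by decide +kernel))
    (by decide +kernel)

theorem t3k29_nd2 : NC (pe t3r29.d2 (t1v t3c29)) :=
  NC.of (K := 67) (D := ⟨1, 1, 1, 7⟩) (Box.of 4 (by decide +kernel))
    (by decide +kernel)

theorem t3k29_ndy : NC (pe t3r29.dy (t1v t3c29)) :=
  NC.of (K := 70) (D := ⟨1, 1, 1, 7⟩) (Box.of 4 (by decide +kernel))
    (by decide +kernel)

theorem t3k29_nt1 : NC (pe t3r29.t1 (t1v t3c29)) :=
  NC.of (K := 69) (D := ⟨1, 1, 1, 7⟩) (Box.of 4 (by decide +kernel))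
    (by decide +kernel)

theorem t3k29_nt2 : NC (pe t3r29.t2 (t1v t3c29)) :=
  NC.of (K := 68) (D := ⟨1, 1, 1, 7⟩) (Box.of 4 (by decide +kernel))
    (by decide +kernel)

theorem t3k29_nty : NC (pe t3r29.ty (t1v t3c29)) :=
  NC.of (K := 72) (D := ⟨1, 1, 1, 7⟩) (Box.of 4 (by decide +kernel))
    (by decide +kernel)

theorem t3k29_nhz : NC (pe t3r29.hz (t1v t3c29)) :=
  NC.of (K := 99) (D := ⟨1, 1, 1, 7⟩) (Box.of 18659 (by decide +kernel))
    (by decide +kernel)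

theorem t3k29_xi : NC (eXi fW t3c29 t3e29 t3r29 (t1v t3c29)) :=
  NC.of (K := 290) (D := ⟨1, 1, 1, 22⟩) (Box.of 4 (by decide +kernel))
    (by decide +kernel)

theorem t3k29_om : NC (eOm fW t3r29 (t1v t3c29)) :=
  NC.of (K := 164) (D := ⟨1, 1, 1, 16⟩) (Box.of 4 (by decide +kernel))
    (by decide +kernel)

theorem t3k29_fin : NC (eFin dW t3c29 t3n29 t3r29 t3h29 (tcl t3c29)) :=
  NC.of (K := 229) (D := ⟨1, 1, 1, 14⟩) (Box.of 4 (by decide +kernel))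
    (by decide +kernel)

theorem t3k29_xdl : NC (qc t3e29.dl - pe t3d29.l.dl t3d29.eU) :=
  NC.of (K := 73) (D := ⟨1, 4, 1, 1⟩) (Box.of 4 (by decide +kernel))
    (by decide +kernel)

theorem t3k29_xeY : NC (qc t3e29.eY - pe (e4l t3d29.l.z) t3d29.eU) :=
  NC.of (K := 288) (D := ⟨1, 13, 1, 1⟩) (Box.of 4 (by decide +kernel))
    (by decide +kernel)

theorem t3k29_xgr : NC (qc t3d29.ga * ((1 + qc (3 / 5) * vX) * (1 + (t3d29.eg + hlf * t3d29.eg ^ 2))) + qc t3d29.gb - pe2 t3GR vX t3d29.eU) :=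
  NC.of (K := 255) (D := ⟨4, 11, 1, 1⟩) (Box.of 18688 (by decide +kernel))
    (by decide +kernel)

theorem t3k29_xhr : NC (qc t3d29.hb - pe2 t3HR vX t3d29.eU) :=
  NC.of (K := 264) (D := ⟨3, 12, 1, 1⟩) (Box.of 4 (by decide +kernel))
    (by decide +kernel)

theorem t3k29_xgs : NC (pe t3d29.gs t3d29.e1 - qc (8 / 5) * pe (e4l (ladd t3d29.ls.z t3d29.ls.dl)) t3d29.e1) :=
  NC.of (K := 248) (D := ⟨1, 1, 1, 13⟩) (Box.of 4 (by decide +kernel))
    (by decide +kernel)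

theorem t3k29_xd1 : NC (pe t3d29.d1 t3d29.e1 - t3d29.eA t3d29.eU t3d29.e1) :=
  NC.of (K := 285) (D := ⟨1, 12, 1, 12⟩) (Box.of 4 (by decide +kernel))
    (by decide +kernel)

theorem t3k29_xd2 : NC (pe t3d29.d2 t3d29.e1 - t3d29.eB t3d29.eU t3d29.e1) :=
  NC.of (K := 289) (D := ⟨1, 12, 1, 12⟩) (Box.of 4 (by decide +kernel))
    (by decide +kernel)

theorem t3k29_xt1 : NC (pe t3d29.t1 t3d29.e1 - t3d29.eAT t3d29.eU t3d29.e1) :=
  NC.of (K := 471) (D := ⟨1, 19, 1, 19⟩) (Box.of 4 (by decide +kernel))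
    (by decide +kernel)

theorem t3k29_xt2 : NC (pe t3d29.t2 t3d29.e1 - t3d29.eBT t3d29.eU t3d29.e1) :=
  NC.of (K := 473) (D := ⟨1, 19, 1, 19⟩) (Box.of 4 (by decide +kernel))
    (by decide +kernel)

theorem t3k29_xdy : NC (pe t3d29.dy t3d29.e1 - t3d29.eSD t3d29.eU t3d29.e1) :=
  NC.of (K := 448) (D := ⟨1, 18, 1, 12⟩) (Box.of 4 (by decide +kernel))
    (by decide +kernel)

theorem t3k29_xty : NC (pe t3d29.ty t3d29.e1 - t3d29.eST t3d29.eU t3d29.e1) :=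
  NC.of (K := 671) (D := ⟨1, 26, 1, 26⟩) (Box.of 4 (by decide +kernel))
    (by decide +kernel)

theorem t3k29_xd1s : NC (pe t3r29.d1 (t1v t3c29) - pe t3d29.d1 (Xcd.ew zW t3c29)) :=
  NC.of (K := 598) (D := ⟨1, 1, 1, 55⟩) (Box.of 4 (by decide +kernel))
    (by decide +kernel)

theorem t3k29_xd2s : NC (pe t3r29.d2 (t1v t3c29) - pe t3d29.d2 (Xcd.ew zW t3c29)) :=
  NC.of (K := 602) (D := ⟨1, 1, 1, 55⟩) (Box.of 4 (by decide +kernel))
    (by decide +kernel)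

theorem t3k29_xt1s : NC (pe t3r29.t1 (t1v t3c29) - pe t3d29.t1 (Xcd.ew zW t3c29)) :=
  NC.of (K := 608) (D := ⟨1, 1, 1, 55⟩) (Box.of 4 (by decide +kernel))
    (by decide +kernel)

theorem t3k29_xt2s : NC (pe t3r29.t2 (t1v t3c29) - pe t3d29.t2 (Xcd.ew zW t3c29)) :=
  NC.of (K := 605) (D := ⟨1, 1, 1, 55⟩) (Box.of 4 (by decide +kernel))
    (by decide +kernel)

theorem t3k29_xdys : NC (pe t3r29.dy (t1v t3c29) - pe t3d29.dy (Xcd.ew zW t3c29)) :=
  NC.of (K := 600) (D := ⟨1, 1, 1, 55⟩) (Box.of 4 (by decide +kernel))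
    (by decide +kernel)

theorem t3k29_xtys : NC (pe t3r29.ty (t1v t3c29) - pe t3d29.ty (Xcd.ew zW t3c29)) :=
  NC.of (K := 607) (D := ⟨1, 1, 1, 55⟩) (Box.of 4 (by decide +kernel))
    (by decide +kernel)

theorem t3k29_xhz : NC (pe t3r29.hz (t1v t3c29) - pe t3d29.c.dR (Xcd.ew zW t3c29)) :=
  NC.of (K := 613) (D := ⟨1, 1, 1, 55⟩) (Box.of 4 (by decide +kernel))
    (by decide +kernel)

theorem t3f29_ok : t3f29.ok V2L.y13 V2L.k13 V2L.nb V2L.la (10 ^ 30) 32 = true := by decide +kernel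

theorem t3k29_sg : t3c29.Sg := by
  constructor <;> decide +kernel

theorem t3k29_rgs : t3c29.Rgs where
  M := ⟨t3k29_M_r1, t3k29_M_r2, t3k29_M_r3, t3k29_M_r4⟩
  r0 := ⟨t3k29_r0_r1, t3k29_r0_r2, t3k29_r0_r3, t3k29_r0_r4⟩
  r1 := ⟨t3k29_r1_r1, t3k29_r1_r2, t3k29_r1_r3, t3k29_r1_r4⟩
  r2 := ⟨t3k29_r2_r1, t3k29_r2_r2, t3k29_r2_r3, t3k29_r2_r4⟩
  rc := ⟨t3k29_rc_r1, t3k29_rc_r2, t3k29_rc_r3, t3k29_rc_r4⟩
  rI := ⟨t3k29_rI_r1, t3k29_rI_r2, t3k29_rI_r3, t3k29_rI_r4⟩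
  rJ := ⟨t3k29_rJ_r1, t3k29_rJ_r2, t3k29_rJ_r3, t3k29_rJ_r4⟩

theorem t3k29_xn : t3e29.Ok t3c29 where
  lm := by decide +kernel
  dl0 := by decide +kernel
  dl1 := by decide +kernel
  e2 := by decide +kernel
  eY := by decide +kernel
  gE := ⟨t3k29_gE_r1, t3k29_gE_r2, t3k29_gE_r3, t3k29_gE_r4⟩

theorem t3k29_vl : t3c29.Vl dW qW where
  bt := by decide +kernel
  B0 := t3k29_B0
  E0 := t3k29_E0
  D0 := t3k29_D0
  Bh := t3k29_Bh
  Eh := t3k29_Eh
  Dh := t3k29_Dh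
  B1 := t3k29_B1
  E1 := t3k29_E1
  D1 := t3k29_D1

theorem t3k29_rat : t3n29.Rat t3c29 := by
  constructor <;> decide +kernel

theorem t3k29_ck : t3n29.Ck t3c29 := ⟨t3k29_l, t3k29_n⟩

theorem t3k29_fck : t3n29.Fck dW qW fW t3c29 := ⟨t3k29_rb, t3k29_kap⟩

theorem t3k29_w : Wcl zW kW yW t3al t3c29 t3n29 t3m29 where
  b2 := t3k29_wb2
  mb := t3k29_wmb
  th := t3k29_wth
  yb := t3k29_wyb
  mu := t3k29_wmu
  cj := t3k29_wcj
  mt1 := by decide +kernel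
  mt2 := by decide +kernel

theorem t3k29_ok : CelOk dW qW fW t3c29 t3n29 where
  s := t3k29_sg
  r := t3k29_rgs
  v := t3k29_vl
  rt := t3k29_rat
  k := t3k29_ck
  fc := t3k29_fck
  q01 := by decide +kernel
  q12 := by decide +kernel
  h2 := by decide +kernel

theorem t3k29_xr : t3r29.Ok fW t3c29 t3e29 where
  sD := by decide +kernel
  sT := by decide +kernel
  nd1 := t3k29_nd1
  nd2 := t3k29_nd2
  ndy := t3k29_ndy
  nt1 := t3k29_nt1
  nt2 := t3k29_nt2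
  nty := t3k29_nty
  nhz := t3k29_nhz
  xi := t3k29_xi
  om := t3k29_om

theorem t3k29_X : t3d29.Ck t3GR t3HR zW t3c29 t3e29 t3r29 where
  u0 := by decide +kernel
  u01 := by decide +kernel
  ul := by decide +kernel
  us := by decide +kernel
  uc := by decide +kernel
  ga0 := by decide +kernel
  kp0 := by decide +kernel
  lm := by decide +kernel
  dl := t3k29_xdl
  eY := t3k29_xeY
  gr := t3k29_xgr
  hr := t3k29_xhr
  gs := t3k29_xgs
  d1 := t3k29_xd1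
  d2 := t3k29_xd2
  t1 := t3k29_xt1
  t2 := t3k29_xt2
  dy := t3k29_xdy
  ty := t3k29_xty
  d1s := t3k29_xd1s
  d2s := t3k29_xd2s
  t1s := t3k29_xt1s
  t2s := t3k29_xt2s
  dys := t3k29_xdys
  tys := t3k29_xtys
  hz := t3k29_xhz

end Pool.Agent.RX.RCN.K
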