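import Pool.Agent.RX.RCN.T3D
import Pool.Agent.RX.RCN.T3Wq
import Pool.Agent.RX.RCN.T3X0
import Pool.Agent.RX.RCN.VLd

/-! Certificates (generated). -/

set_option autoImplicit false

namespace Pool.Agent.RX.RCN.K

open Set Pool.Agent.RX.RCM9 Pool.Agent.RX.RCM9.Bern Pool.Agent.RX.RCM9.Pk Xce

def t3c3 : Cel where
  t0 := 3 / 20
  t1 := 1 / 5
  C := 4097 / 4096
  th := 823 / 4096
  B0 := 283 / 256
  Bh := 1033 / 1024
  B1 := 245 / 256
  D0 := 185 / 1024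
  Dh := 243 / 2048
  D1 := 229 / 2048
  E0 := 89 / 262144
  Eh := 245 / 1048576
  E1 := 925 / 4194304
  Q0 := 1135 / 1024
  Q1 := 1135 / 1024
  Q2 := 1135 / 1024
  Ac := 1135 / 1024
  gI := 1135 / 1024
  J := 1647 / 4194304

def t3n3 : Chn where
  lb := 513 / 512
  nb := 285 / 1024
  Mb := 1029 / 1024
  b2 := 65 / 64
  Yb := 1 / 1024
  E2 := 4105 / 4096
  e1 := 285 / 256
  Z1 := 1147 / 1024
  Z2 := 605 / 1024
  KB := 65 / 64
  cb := 1037 / 1024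
  rb := 197 / 1024
  om := 263 / 256
  fb := 129 / 128
  kap := 2053 / 2048
  ab := 1029 / 1024

def t3e3 : Xge where
  lm := 3 / 5
  dl := 409 / 2048
  e2 := 175 / 8192
  eY := 4101 / 4096
  gE := 1135 / 1024

def t3r3 : Xr where
  d1 := [39911 / 20000000, 31377 / 100000000, 171527 / 50000000, 145191 / 12500000, 2620571 /
    100000000, 4344383 / 100000000, 783513 / 25000000]
  d2 := [377 / 50000000, 10343 / 4000000, -4994207 / 50000000, 60049763 / 25000000, -1844588861 /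
    100000000, 197944819 / 3125000, -8015654103 / 100000000]
  dy := [357587 / 50000000, -23777 / 50000000, 271561 / 6250000, 1964439 / 2000000, -229497159 /
    12500000, 11628973781 / 100000000, -29868947 / 125000]
  t1 := [2586443 / 100000000, -2361889 / 12500000, -81958639 / 50000000, 4156342939 / 100000000,
    -17637258603 / 50000000, 33642784501 / 25000000, -22852139513 / 12500000]
  t2 := [207033 / 100000000, -2736763 / 100000000, 4201619 / 12500000, -24631801 / 6250000,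
    1247221959 / 50000000, -5331882151 / 100000000, 31330149 / 100000000]
  ty := [1998423 / 25000000, -14950247 / 20000000, -3057993 / 2000000, 2036081219 / 25000000,
    -1401725277 / 2000000, 4049504723 / 1562500, -168421988921 / 50000000]
  hz := [2564471 / 100000000, 5795611 / 25000000, -2451170241 / 100000000, 39994530893 /
    100000000, -11461145933 / 4000000, 60941414521 / 6250000, -128928365639 / 10000000]
  om := [1003967 / 1000000, 102043921 / 100000000, -1370519087 / 100000000, 1015648433 / 20000000,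
    -1887802517 / 25000000, -4724163369 / 50000000, 366510573 / 400000, -234176402747 /
    100000000, 224284990417 / 100000000]
  sD := 403 / 256
  sT := 373 / 256
  xi := [211423 / 50000000, 8412377 / 100000000, -406651 / 1250000, -2698297679 / 100000000,
    2500636749 / 5000000, -378067715781 / 100000000, 1322876103093 / 100000000, -155100562741 /
    10000000, -289014777383 / 20000000, 1309139452753 / 50000000]

def t3f3 : Dl where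
  Ca := 150463 / 1000000
  Cv := 200617 / 1000000
  k1 := 9884307 / 10000000
  ks := 245591 / 250000
  dd := 0
  kp := 869 / 10000000
  e := [999999699999 / 1000000000000, -35772063211 / 31250000000, 1048752135451 / 1000000000000,
    -207669324919 / 250000000000, 641812518647 / 1000000000000, -118637792299 / 250000000000,
    333006713961 / 1000000000000, -104802093 / 500000000, 88204288821 / 1000000000000]
  j1 := [-434169 / 125000000, -11714905389 / 1000000000, 101704607813 / 1000000000, -420249564263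
    / 1000000000, 1007295352461 / 1000000000, -1464600402531 / 1000000000, 331579094069 /
    250000000, -679211419709 / 1000000000]
  nu := [17791451 / 1000000000, -14402273 / 125000000, 44141703 / 100000000, -807186659 /
    1000000000, 382478597 / 40000000, -2329458013 / 50000000, 20592603047 / 250000000]
  k2 := [982365661 / 1000000000, 28297563 / 250000000, -21371673 / 50000000, 754119757 /
    1000000000, -2349244777 / 250000000, 46171337623 / 1000000000, -81584351223 / 1000000000]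
  dR := [2559203 / 100000000, 11557081 / 50000000, -76126569 / 3125000, 39622867019 / 100000000,
    -141485880171 / 50000000, 239979238961 / 25000000, -632619737151 / 50000000]

def t3d3 : Xce where
  u0 := 150963 / 1000000
  u1 := 200617 / 1000000
  l := V2L.y0
  y := t3z0
  j := t3j0
  i := t3i0
  ls := t3y0
  k := V2L.k0
  c := t3f3
  ga := 249 / 125000
  gb := -67 / 250000
  hb := 3129 / 500000
  gs := [160002163 / 100000000, 239999999 / 100000000, 180000053 / 100000000, 79598439 /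
    100000000, 3326141 / 12500000, -2962793 / 25000000, -1618761 / 25000000]
  d1 := [49859 / 25000000, 31289 / 100000000, 85009 / 25000000, 234699 / 20000000, 2367561 /
    100000000, 2600129 / 50000000, 342003 / 20000000]
  d2 := [683 / 100000000, 257841 / 100000000, -9931891 / 100000000, 119051047 / 50000000,
    -72922941 / 4000000, 3120943437 / 50000000, -3937779351 / 50000000]
  dy := [89339 / 12500000, -47323 / 100000000, 431071 / 10000000, 97504403 / 100000000, -226918309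
    / 12500000, 1432413779 / 12500000, -11735172557 / 50000000]
  t1 := [1292569 / 50000000, -2354531 / 12500000, -20354539 / 12500000, 4115329139 / 100000000,
    -8702498073 / 25000000, 66178050299 / 50000000, -179192468701 / 100000000]
  t2 := [103463 / 50000000, -2728187 / 100000000, 16702509 / 50000000, -1220401 / 312500,
    1232348151 / 50000000, -5254850201 / 100000000, 39141049 / 100000000]
  ty := [7989659 / 100000000, -14903623 / 20000000, -151767651 / 100000000, 503839767 / 6250000,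
    -69132535641 / 100000000, 25473861879 / 10000000, -82462983899 / 25000000]

def t3m3 : ℚ := 847 / 4096

def t3h3 : ℚ := 213 / 500

theorem t3k3_M_r1 : NC (fM t3c3 (1 - eh) eh ek (elo t3c3.B0 t3c3.Bh eh) (elo t3c3.D0 t3c3.Dh ek) (elo t3c3.E0 t3c3.Eh ek)) :=
  NC.of (K := 29) (D := ⟨4, 3, 1, 1⟩) (Box.of 4 (by decide +kernel))
    (by decide +kernel)

theorem t3k3_M_r2 : NC (fM t3c3 eh (1 - eh) ek (ehi t3c3.Bh t3c3.B1 (1 - eh)) (elo t3c3.D0 t3c3.Dh ek) (elo t3c3.E0 t3c3.Eh ek)) :=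
  NC.of (K := 29) (D := ⟨4, 3, 1, 1⟩) (Box.of 4 (by decide +kernel))
    (by decide +kernel)

theorem t3k3_M_r3 : NC (fM t3c3 (1 - eh) ek eh (elo t3c3.B0 t3c3.Bh ek) (elo t3c3.D0 t3c3.Dh eh) (elo t3c3.E0 t3c3.Eh eh)) :=
  NC.of (K := 27) (D := ⟨4, 2, 1, 1⟩) (Box.of 4 (by decide +kernel))
    (by decide +kernel)

theorem t3k3_M_r4 : NC (fM t3c3 eh ek (1 - eh) (elo t3c3.B0 t3c3.Bh ek) (ehi t3c3.Dh t3c3.D1 (1 - eh)) (ehi t3c3.Eh t3c3.E1 (1 - eh))) :=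
  NC.of (K := 26) (D := ⟨4, 2, 1, 1⟩) (Box.of 4 (by decide +kernel))
    (by decide +kernel)

theorem t3k3_r0_r1 : NC (f0 t3c3 (1 - eh) eh ek (elo t3c3.B0 t3c3.Bh eh) (elo t3c3.D0 t3c3.Dh ek) (elo t3c3.E0 t3c3.Eh ek)) :=
  NC.of (K := 126) (D := ⟨13, 9, 1, 1⟩) (Box.of 4 (by decide +kernel))
    (by decide +kernel)

theorem t3k3_r0_r2 : NC (f0 t3c3 eh (1 - eh) ek (ehi t3c3.Bh t3c3.B1 (1 - eh)) (elo t3c3.D0 t3c3.Dh ek) (elo t3c3.E0 t3c3.Eh ek)) :=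
  NC.of (K := 126) (D := ⟨13, 9, 1, 1⟩) (Box.of 4 (by decide +kernel))
    (by decide +kernel)

theorem t3k3_r0_r3 : NC (f0 t3c3 (1 - eh) ek eh (elo t3c3.B0 t3c3.Bh ek) (elo t3c3.D0 t3c3.Dh eh) (elo t3c3.E0 t3c3.Eh eh)) :=
  NC.of (K := 121) (D := ⟨13, 5, 1, 1⟩) (Box.of 4 (by decide +kernel))
    (by decide +kernel)

theorem t3k3_r0_r4 : NC (f0 t3c3 eh ek (1 - eh) (elo t3c3.B0 t3c3.Bh ek) (ehi t3c3.Dh t3c3.D1 (1 - eh)) (ehi t3c3.Eh t3c3.E1 (1 - eh))) :=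
  NC.of (K := 118) (D := ⟨13, 5, 1, 1⟩) (Box.of 4 (by decide +kernel))
    (by decide +kernel)

theorem t3k3_r1_r1 : NC (f1 t3c3 (1 - eh) eh ek (elo t3c3.B0 t3c3.Bh eh) (elo t3c3.D0 t3c3.Dh ek) (elo t3c3.E0 t3c3.Eh ek)) :=
  NC.of (K := 221) (D := ⟨16, 9, 1, 1⟩) (Box.of 4 (by decide +kernel))
    (by decide +kernel)

theorem t3k3_r1_r2 : NC (f1 t3c3 eh (1 - eh) ek (ehi t3c3.Bh t3c3.B1 (1 - eh)) (elo t3c3.D0 t3c3.Dh ek) (elo t3c3.E0 t3c3.Eh ek)) :=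
  NC.of (K := 222) (D := ⟨16, 9, 1, 1⟩) (Box.of 4 (by decide +kernel))
    (by decide +kernel)

theorem t3k3_r1_r3 : NC (f1 t3c3 (1 - eh) ek eh (elo t3c3.B0 t3c3.Bh ek) (elo t3c3.D0 t3c3.Dh eh) (elo t3c3.E0 t3c3.Eh eh)) :=
  NC.of (K := 225) (D := ⟨16, 12, 1, 1⟩) (Box.of 4 (by decide +kernel))
    (by decide +kernel)

theorem t3k3_r1_r4 : NC (f1 t3c3 eh ek (1 - eh) (elo t3c3.B0 t3c3.Bh ek) (ehi t3c3.Dh t3c3.D1 (1 - eh)) (ehi t3c3.Eh t3c3.E1 (1 - eh))) :=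
  NC.of (K := 226) (D := ⟨16, 12, 1, 1⟩) (Box.of 4 (by decide +kernel))
    (by decide +kernel)

theorem t3k3_r2_r1 : NC (f2 t3c3 (1 - eh) eh ek (elo t3c3.B0 t3c3.Bh eh) (elo t3c3.D0 t3c3.Dh ek) (elo t3c3.E0 t3c3.Eh ek)) :=
  NC.of (K := 224) (D := ⟨16, 11, 1, 1⟩) (Box.of 4 (by decide +kernel))
    (by decide +kernel)

theorem t3k3_r2_r2 : NC (f2 t3c3 eh (1 - eh) ek (ehi t3c3.Bh t3c3.B1 (1 - eh)) (elo t3c3.D0 t3c3.Dh ek) (elo t3c3.E0 t3c3.Eh ek)) :=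
  NC.of (K := 225) (D := ⟨16, 11, 1, 1⟩) (Box.of 4 (by decide +kernel))
    (by decide +kernel)

theorem t3k3_r2_r3 : NC (f2 t3c3 (1 - eh) ek eh (elo t3c3.B0 t3c3.Bh ek) (elo t3c3.D0 t3c3.Dh eh) (elo t3c3.E0 t3c3.Eh eh)) :=
  NC.of (K := 225) (D := ⟨16, 12, 1, 1⟩) (Box.of 4 (by decide +kernel))
    (by decide +kernel)

theorem t3k3_r2_r4 : NC (f2 t3c3 eh ek (1 - eh) (elo t3c3.B0 t3c3.Bh ek) (ehi t3c3.Dh t3c3.D1 (1 - eh)) (ehi t3c3.Eh t3c3.E1 (1 - eh))) :=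
  NC.of (K := 226) (D := ⟨16, 12, 1, 1⟩) (Box.of 4 (by decide +kernel))
    (by decide +kernel)

theorem t3k3_rc_r1 : NC (fc t3c3 (1 - eh) eh ek (elo t3c3.B0 t3c3.Bh eh) (elo t3c3.D0 t3c3.Dh ek) (elo t3c3.E0 t3c3.Eh ek)) :=
  NC.of (K := 125) (D := ⟨13, 9, 1, 1⟩) (Box.of 4 (by decide +kernel))
    (by decide +kernel)

theorem t3k3_rc_r2 : NC (fc t3c3 eh (1 - eh) ek (ehi t3c3.Bh t3c3.B1 (1 - eh)) (elo t3c3.D0 t3c3.Dh ek) (elo t3c3.E0 t3c3.Eh ek)) :=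
  NC.of (K := 125) (D := ⟨13, 9, 1, 1⟩) (Box.of 4 (by decide +kernel))
    (by decide +kernel)

theorem t3k3_rc_r3 : NC (fc t3c3 (1 - eh) ek eh (elo t3c3.B0 t3c3.Bh ek) (elo t3c3.D0 t3c3.Dh eh) (elo t3c3.E0 t3c3.Eh eh)) :=
  NC.of (K := 120) (D := ⟨13, 5, 1, 1⟩) (Box.of 4 (by decide +kernel))
    (by decide +kernel)

theorem t3k3_rc_r4 : NC (fc t3c3 eh ek (1 - eh) (elo t3c3.B0 t3c3.Bh ek) (ehi t3c3.Dh t3c3.D1 (1 - eh)) (ehi t3c3.Eh t3c3.E1 (1 - eh))) :=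
  NC.of (K := 117) (D := ⟨13, 5, 1, 1⟩) (Box.of 4 (by decide +kernel))
    (by decide +kernel)

theorem t3k3_rI_r1 : NC (fI t3c3 (1 - eh) eh ek (elo t3c3.B0 t3c3.Bh eh) (elo t3c3.D0 t3c3.Dh ek) (elo t3c3.E0 t3c3.Eh ek)) :=
  NC.of (K := 116) (D := ⟨13, 9, 1, 1⟩) (Box.of 4 (by decide +kernel))
    (by decide +kernel)

theorem t3k3_rI_r2 : NC (fI t3c3 eh (1 - eh) ek (ehi t3c3.Bh t3c3.B1 (1 - eh)) (elo t3c3.D0 t3c3.Dh ek) (elo t3c3.E0 t3c3.Eh ek)) :=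
  NC.of (K := 117) (D := ⟨13, 9, 1, 1⟩) (Box.of 4 (by decide +kernel))
    (by decide +kernel)

theorem t3k3_rI_r3 : NC (fI t3c3 (1 - eh) ek eh (elo t3c3.B0 t3c3.Bh ek) (elo t3c3.D0 t3c3.Dh eh) (elo t3c3.E0 t3c3.Eh eh)) :=
  NC.of (K := 112) (D := ⟨13, 5, 1, 1⟩) (Box.of 4 (by decide +kernel))
    (by decide +kernel)

theorem t3k3_rI_r4 : NC (fI t3c3 eh ek (1 - eh) (elo t3c3.B0 t3c3.Bh ek) (ehi t3c3.Dh t3c3.D1 (1 - eh)) (ehi t3c3.Eh t3c3.E1 (1 - eh))) :=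
  NC.of (K := 109) (D := ⟨13, 5, 1, 1⟩) (Box.of 4 (by decide +kernel))
    (by decide +kernel)

theorem t3k3_rJ_r1 : NC (fJ t3c3 (1 - eh) eh ek (elo t3c3.B0 t3c3.Bh eh) (elo t3c3.D0 t3c3.Dh ek) (elo t3c3.E0 t3c3.Eh ek)) :=
  NC.of (K := 66) (D := ⟨7, 5, 1, 1⟩) (Box.of 4 (by decide +kernel))
    (by decide +kernel)

theorem t3k3_rJ_r2 : NC (fJ t3c3 eh (1 - eh) ek (ehi t3c3.Bh t3c3.B1 (1 - eh)) (elo t3c3.D0 t3c3.Dh ek) (elo t3c3.E0 t3c3.Eh ek)) :=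
  NC.of (K := 66) (D := ⟨7, 5, 1, 1⟩) (Box.of 4 (by decide +kernel))
    (by decide +kernel)

theorem t3k3_rJ_r3 : NC (fJ t3c3 (1 - eh) ek eh (elo t3c3.B0 t3c3.Bh ek) (elo t3c3.D0 t3c3.Dh eh) (elo t3c3.E0 t3c3.Eh eh)) :=
  NC.of (K := 63) (D := ⟨7, 3, 1, 1⟩) (Box.of 4 (by decide +kernel))
    (by decide +kernel)

theorem t3k3_rJ_r4 : NC (fJ t3c3 eh ek (1 - eh) (elo t3c3.B0 t3c3.Bh ek) (ehi t3c3.Dh t3c3.D1 (1 - eh)) (ehi t3c3.Eh t3c3.E1 (1 - eh))) :=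
  NC.of (K := 61) (D := ⟨7, 3, 1, 1⟩) (Box.of 4 (by decide +kernel))
    (by decide +kernel)

theorem t3k3_gE_r1 : NC (fE t3c3 t3e3 (1 - eh) eh ek (elo t3c3.B0 t3c3.Bh eh) (elo t3c3.D0 t3c3.Dh ek) (elo t3c3.E0 t3c3.Eh ek)) :=
  NC.of (K := 117) (D := ⟨13, 9, 1, 1⟩) (Box.of 4 (by decide +kernel))
    (by decide +kernel)

theorem t3k3_gE_r2 : NC (fE t3c3 t3e3 eh (1 - eh) ek (ehi t3c3.Bh t3c3.B1 (1 - eh)) (elo t3c3.D0 t3c3.Dh ek) (elo t3c3.E0 t3c3.Eh ek)) :=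
  NC.of (K := 118) (D := ⟨13, 9, 1, 1⟩) (Box.of 4 (by decide +kernel))
    (by decide +kernel)

theorem t3k3_gE_r3 : NC (fE t3c3 t3e3 (1 - eh) ek eh (elo t3c3.B0 t3c3.Bh ek) (elo t3c3.D0 t3c3.Dh eh) (elo t3c3.E0 t3c3.Eh eh)) :=
  NC.of (K := 115) (D := ⟨13, 7, 1, 1⟩) (Box.of 4 (by decide +kernel))
    (by decide +kernel)

theorem t3k3_gE_r4 : NC (fE t3c3 t3e3 eh ek (1 - eh) (elo t3c3.B0 t3c3.Bh ek) (ehi t3c3.Dh t3c3.D1 (1 - eh)) (ehi t3c3.Eh t3c3.E1 (1 - eh))) :=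
  NC.of (K := 113) (D := ⟨13, 7, 1, 1⟩) (Box.of 4 (by decide +kernel))
    (by decide +kernel)

theorem t3k3_B0 : NC (kB dW 1 0 t3c3.B0 (tcl t3c3)) :=
  NC.of (K := 73) (D := ⟨1, 1, 1, 9⟩) (Box.of 4 (by decide +kernel))
    (by decide +kernel)

theorem t3k3_E0 : NC (kE dW qW qW.p0 qW.q0 t3c3.E0 (tcl t3c3)) :=
  NC.of (K := 162) (D := ⟨1, 1, 1, 19⟩) (Box.of 4 (by decide +kernel))
    (by decide +kernel)

theorem t3k3_D0 : NC (kD dW qW 1 0 qW.p0 qW.q0 t3c3.D0 (tcl t3c3)) :=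
  NC.of (K := 276) (D := ⟨1, 1, 1, 20⟩) (Box.of 4 (by decide +kernel))
    (by decide +kernel)

theorem t3k3_Bh : NC (kB dW (1 / 2) (1 / 2) t3c3.Bh (tcl t3c3)) :=
  NC.of (K := 76) (D := ⟨1, 1, 1, 9⟩) (Box.of 4 (by decide +kernel))
    (by decide +kernel)

theorem t3k3_Eh : NC (kE dW qW qW.ph qW.qh t3c3.Eh (tcl t3c3)) :=
  NC.of (K := 165) (D := ⟨1, 1, 1, 19⟩) (Box.of 4 (by decide +kernel))
    (by decide +kernel)

theorem t3k3_Dh : NC (kD dW qW (1 / 2) (1 / 2) qW.ph qW.qh t3c3.Dh (tcl t3c3)) :=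
  NC.of (K := 279) (D := ⟨1, 1, 1, 20⟩) (Box.of 4 (by decide +kernel))
    (by decide +kernel)

theorem t3k3_B1 : NC (kB dW 0 (1 / 2) t3c3.B1 (tcl t3c3)) :=
  NC.of (K := 76) (D := ⟨1, 1, 1, 9⟩) (Box.of 4 (by decide +kernel))
    (by decide +kernel)

theorem t3k3_E1 : NC (kE dW qW qW.p1 qW.q1 t3c3.E1 (tcl t3c3)) :=
  NC.of (K := 165) (D := ⟨1, 1, 1, 19⟩) (Box.of 4 (by decide +kernel))
    (by decide +kernel)

theorem t3k3_D1 : NC (kD dW qW 0 (1 / 2) qW.p1 qW.q1 t3c3.D1 (tcl t3c3)) :=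
  NC.of (K := 279) (D := ⟨1, 1, 1, 20⟩) (Box.of 4 (by decide +kernel))
    (by decide +kernel)

theorem t3k3_l : NC (qc t3n3.lb - (1 - vX) * pe (exl t3c3.th) vX ^ 2) :=
  NC.of (K := 125) (D := ⟨10, 1, 1, 1⟩) (Box.of 4 (by decide +kernel))
    (by decide +kernel)

theorem t3k3_n : NC (qc t3n3.nb - vX * (1 - vX) * pe (exl t3c3.th) vX) :=
  NC.of (K := 103) (D := ⟨7, 1, 1, 1⟩) (Box.of 1196064 (by decide +kernel))
    (by decide +kernel)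

theorem t3k3_rb : NC (krb t3n3 fW (t1v t3c3)) :=
  NC.of (K := 118) (D := ⟨1, 1, 1, 16⟩) (Box.of 4 (by decide +kernel))
    (by decide +kernel)

theorem t3k3_kap : NC (kkap dW qW t3n3 (tcl t3c3)) :=
  NC.of (K := 75) (D := ⟨1, 1, 1, 9⟩) (Box.of 4 (by decide +kernel))
    (by decide +kernel)

theorem t3k3_wb2 : NC (qc t3n3.b2 - pe2 kW.QB (vZ * t1v t3c3) (t1v t3c3)) :=
  NC.of (K := 76) (D := ⟨1, 6, 1, 11⟩) (Box.of 4 (by decide +kernel))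
    (by decide +kernel)

theorem t3k3_wmb : NC (qc t3n3.Mb - pe zW.mb (t1v t3c3)) :=
  NC.of (K := 62) (D := ⟨1, 1, 1, 9⟩) (Box.of 4 (by decide +kernel))
    (by decide +kernel)

theorem t3k3_wth : NC (qc (t3c3.th / t3c3.t1) - pe2 zW.Qt (vZ * t1v t3c3) (t1v t3c3)) :=
  NC.of (K := 81) (D := ⟨1, 6, 1, 11⟩) (Box.of 4 (by decide +kernel))
    (by decide +kernel)

theorem t3k3_wyb : NC (qc t3n3.Yb - (t1v t3c3 - vZ * t1v t3c3) ^ 3 * pe2 yW.QY (vZ * t1v t3c3) (t1v t3c3)) :=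
  NC.of (K := 75) (D := ⟨1, 8, 1, 12⟩) (Box.of 4 (by decide +kernel))
    (by decide +kernel)

theorem t3k3_wmu : NC (qc t3m3 - pe t3al (tcl t3c3) * (1 + hlf * tcl t3c3)) :=
  NC.of (K := 68) (D := ⟨1, 1, 1, 9⟩) (Box.of 4 (by decide +kernel))
    (by decide +kernel)

theorem t3k3_wcj : NC (qc t3c3.C * ((6 - 3 * vX) * (1 - qc t3m3 * vX)) - (6 - 6 * vX + vX ^ 2)) :=
  NC.of (K := 34) (D := ⟨3, 1, 1, 1⟩) (Box.of 4 (by decide +kernel))
    (by decide +kernel)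

theorem t3k3_nd1 : NC (pe t3r3.d1 (t1v t3c3)) :=
  NC.of (K := 42) (D := ⟨1, 1, 1, 7⟩) (Box.of 4 (by decide +kernel))
    (by decide +kernel)

theorem t3k3_nd2 : NC (pe t3r3.d2 (t1v t3c3)) :=
  NC.of (K := 59) (D := ⟨1, 1, 1, 7⟩) (Box.of 291 (by decide +kernel))
    (by decide +kernel)

theorem t3k3_ndy : NC (pe t3r3.dy (t1v t3c3)) :=
  NC.of (K := 45) (D := ⟨1, 1, 1, 7⟩) (Box.of 4 (by decide +kernel))
    (by decide +kernel)

theorem t3k3_nt1 : NC (pe t3r3.t1 (t1v t3c3)) :=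
  NC.of (K := 51) (D := ⟨1, 1, 1, 7⟩) (Box.of 4 (by decide +kernel))
    (by decide +kernel)

theorem t3k3_nt2 : NC (pe t3r3.t2 (t1v t3c3)) :=
  NC.of (K := 48) (D := ⟨1, 1, 1, 7⟩) (Box.of 4 (by decide +kernel))
    (by decide +kernel)

theorem t3k3_nty : NC (pe t3r3.ty (t1v t3c3)) :=
  NC.of (K := 52) (D := ⟨1, 1, 1, 7⟩) (Box.of 4 (by decide +kernel))
    (by decide +kernel)

theorem t3k3_nhz : NC (pe t3r3.hz (t1v t3c3)) :=
  NC.of (K := 64) (D := ⟨1, 1, 1, 7⟩) (Box.of 291 (by decide +kernel))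
    (by decide +kernel)

theorem t3k3_xi : NC (eXi fW t3c3 t3e3 t3r3 (t1v t3c3)) :=
  NC.of (K := 217) (D := ⟨1, 1, 1, 22⟩) (Box.of 4 (by decide +kernel))
    (by decide +kernel)

theorem t3k3_om : NC (eOm fW t3r3 (t1v t3c3)) :=
  NC.of (K := 110) (D := ⟨1, 1, 1, 16⟩) (Box.of 4 (by decide +kernel))
    (by decide +kernel)

theorem t3k3_fin : NC (eFin dW t3c3 t3n3 t3r3 t3h3 (tcl t3c3)) :=
  NC.of (K := 182) (D := ⟨1, 1, 1, 14⟩) (Box.of 4 (by decide +kernel))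
    (by decide +kernel)

theorem t3k3_xdl : NC (qc t3e3.dl - pe t3d3.l.dl t3d3.eU) :=
  NC.of (K := 72) (D := ⟨1, 4, 1, 1⟩) (Box.of 4 (by decide +kernel))
    (by decide +kernel)

theorem t3k3_xeY : NC (qc t3e3.eY - pe (e4l t3d3.l.z) t3d3.eU) :=
  NC.of (K := 288) (D := ⟨1, 13, 1, 1⟩) (Box.of 4 (by decide +kernel))
    (by decide +kernel)

theorem t3k3_xgr : NC (qc t3d3.ga * ((1 + qc (3 / 5) * vX) * (1 + (t3d3.eg + hlf * t3d3.eg ^ 2))) + qc t3d3.gb - pe2 t3GR vX t3d3.eU) :=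
  NC.of (K := 237) (D := ⟨4, 11, 1, 1⟩) (Box.of 4 (by decide +kernel))
    (by decide +kernel)

theorem t3k3_xhr : NC (qc t3d3.hb - pe2 t3HR vX t3d3.eU) :=
  NC.of (K := 257) (D := ⟨3, 12, 1, 1⟩) (Box.of 4 (by decide +kernel))
    (by decide +kernel)

theorem t3k3_xgs : NC (pe t3d3.gs t3d3.e1 - qc (8 / 5) * pe (e4l (ladd t3d3.ls.z t3d3.ls.dl)) t3d3.e1) :=
  NC.of (K := 296) (D := ⟨1, 1, 1, 13⟩) (Box.of 4 (by decide +kernel))
    (by decide +kernel)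

theorem t3k3_xd1 : NC (pe t3d3.d1 t3d3.e1 - t3d3.eA t3d3.eU t3d3.e1) :=
  NC.of (K := 279) (D := ⟨1, 12, 1, 12⟩) (Box.of 4 (by decide +kernel))
    (by decide +kernel)

theorem t3k3_xd2 : NC (pe t3d3.d2 t3d3.e1 - t3d3.eB t3d3.eU t3d3.e1) :=
  NC.of (K := 327) (D := ⟨1, 12, 1, 12⟩) (Box.of 1194267 (by decide +kernel))
    (by decide +kernel)

theorem t3k3_xt1 : NC (pe t3d3.t1 t3d3.e1 - t3d3.eAT t3d3.eU t3d3.e1) :=
  NC.of (K := 567) (D := ⟨1, 19, 1, 19⟩) (Box.of 76429595 (by decide +kernel))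
    (by decide +kernel)

theorem t3k3_xt2 : NC (pe t3d3.t2 t3d3.e1 - t3d3.eBT t3d3.eU t3d3.e1) :=
  NC.of (K := 563) (D := ⟨1, 19, 1, 19⟩) (Box.of 76433627 (by decide +kernel))
    (by decide +kernel)

theorem t3k3_xdy : NC (pe t3d3.dy t3d3.e1 - t3d3.eSD t3d3.eU t3d3.e1) :=
  NC.of (K := 476) (D := ⟨1, 18, 1, 12⟩) (Box.of 18659 (by decide +kernel))
    (by decide +kernel)

theorem t3k3_xty : NC (pe t3d3.ty t3d3.e1 - t3d3.eST t3d3.eU t3d3.e1) :=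
  NC.of (K := 739) (D := ⟨1, 26, 1, 26⟩) (Box.of 18659 (by decide +kernel))
    (by decide +kernel)

theorem t3k3_xd1s : NC (pe t3r3.d1 (t1v t3c3) - pe t3d3.d1 (Xcd.ew zW t3c3)) :=
  NC.of (K := 407) (D := ⟨1, 1, 1, 55⟩) (Box.of 4 (by decide +kernel))
    (by decide +kernel)

theorem t3k3_xd2s : NC (pe t3r3.d2 (t1v t3c3) - pe t3d3.d2 (Xcd.ew zW t3c3)) :=
  NC.of (K := 414) (D := ⟨1, 1, 1, 55⟩) (Box.of 4 (by decide +kernel))
    (by decide +kernel)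

theorem t3k3_xt1s : NC (pe t3r3.t1 (t1v t3c3) - pe t3d3.t1 (Xcd.ew zW t3c3)) :=
  NC.of (K := 419) (D := ⟨1, 1, 1, 55⟩) (Box.of 4 (by decide +kernel))
    (by decide +kernel)

theorem t3k3_xt2s : NC (pe t3r3.t2 (t1v t3c3) - pe t3d3.t2 (Xcd.ew zW t3c3)) :=
  NC.of (K := 415) (D := ⟨1, 1, 1, 55⟩) (Box.of 4 (by decide +kernel))
    (by decide +kernel)

theorem t3k3_xdys : NC (pe t3r3.dy (t1v t3c3) - pe t3d3.dy (Xcd.ew zW t3c3)) :=
  NC.of (K := 415) (D := ⟨1, 1, 1, 55⟩) (Box.of 4 (by decide +kernel))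
    (by decide +kernel)

theorem t3k3_xtys : NC (pe t3r3.ty (t1v t3c3) - pe t3d3.ty (Xcd.ew zW t3c3)) :=
  NC.of (K := 418) (D := ⟨1, 1, 1, 55⟩) (Box.of 4 (by decide +kernel))
    (by decide +kernel)

theorem t3k3_xhz : NC (pe t3r3.hz (t1v t3c3) - pe t3d3.c.dR (Xcd.ew zW t3c3)) :=
  NC.of (K := 421) (D := ⟨1, 1, 1, 55⟩) (Box.of 4 (by decide +kernel))
    (by decide +kernel)

theorem t3f3_ok : t3f3.ok V2L.y0 V2L.k0 V2L.nb V2L.la (10 ^ 30) 32 = true := by decide +kernel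

theorem t3k3_sg : t3c3.Sg := by
  constructor <;> decide +kernel

theorem t3k3_rgs : t3c3.Rgs where
  M := ⟨t3k3_M_r1, t3k3_M_r2, t3k3_M_r3, t3k3_M_r4⟩
  r0 := ⟨t3k3_r0_r1, t3k3_r0_r2, t3k3_r0_r3, t3k3_r0_r4⟩
  r1 := ⟨t3k3_r1_r1, t3k3_r1_r2, t3k3_r1_r3, t3k3_r1_r4⟩
  r2 := ⟨t3k3_r2_r1, t3k3_r2_r2, t3k3_r2_r3, t3k3_r2_r4⟩
  rc := ⟨t3k3_rc_r1, t3k3_rc_r2, t3k3_rc_r3, t3k3_rc_r4⟩
  rI := ⟨t3k3_rI_r1, t3k3_rI_r2, t3k3_rI_r3, t3k3_rI_r4⟩
  rJ := ⟨t3k3_rJ_r1, t3k3_rJ_r2, t3k3_rJ_r3, t3k3_rJ_r4⟩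

theorem t3k3_xn : t3e3.Ok t3c3 where
  lm := by decide +kernel
  dl0 := by decide +kernel
  dl1 := by decide +kernel
  e2 := by decide +kernel
  eY := by decide +kernel
  gE := ⟨t3k3_gE_r1, t3k3_gE_r2, t3k3_gE_r3, t3k3_gE_r4⟩

theorem t3k3_vl : t3c3.Vl dW qW where
  bt := by decide +kernel
  B0 := t3k3_B0
  E0 := t3k3_E0
  D0 := t3k3_D0
  Bh := t3k3_Bh
  Eh := t3k3_Eh
  Dh := t3k3_Dh
  B1 := t3k3_B1
  E1 := t3k3_E1
  D1 := t3k3_D1

theorem t3k3_rat : t3n3.Rat t3c3 := by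
  constructor <;> decide +kernel

theorem t3k3_ck : t3n3.Ck t3c3 := ⟨t3k3_l, t3k3_n⟩

theorem t3k3_fck : t3n3.Fck dW qW fW t3c3 := ⟨t3k3_rb, t3k3_kap⟩

theorem t3k3_w : Wcl zW kW yW t3al t3c3 t3n3 t3m3 where
  b2 := t3k3_wb2
  mb := t3k3_wmb
  th := t3k3_wth
  yb := t3k3_wyb
  mu := t3k3_wmu
  cj := t3k3_wcj
  mt1 := by decide +kernel
  mt2 := by decide +kernel

theorem t3k3_ok : CelOk dW qW fW t3c3 t3n3 where
  s := t3k3_sg
  r := t3k3_rgs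
  v := t3k3_vl
  rt := t3k3_rat
  k := t3k3_ck
  fc := t3k3_fck
  q01 := by decide +kernel
  q12 := by decide +kernel
  h2 := by decide +kernel

theorem t3k3_xr : t3r3.Ok fW t3c3 t3e3 where
  sD := by decide +kernel
  sT := by decide +kernel
  nd1 := t3k3_nd1
  nd2 := t3k3_nd2
  ndy := t3k3_ndy
  nt1 := t3k3_nt1
  nt2 := t3k3_nt2
  nty := t3k3_nty
  nhz := t3k3_nhz
  xi := t3k3_xi
  om := t3k3_om

theorem t3k3_X : t3d3.Ck t3GR t3HR zW t3c3 t3e3 t3r3 where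
  u0 := by decide +kernel
  u01 := by decide +kernel
  ul := by decide +kernel
  us := by decide +kernel
  uc := by decide +kernel
  ga0 := by decide +kernel
  kp0 := by decide +kernel
  lm := by decide +kernel
  dl := t3k3_xdl
  eY := t3k3_xeY
  gr := t3k3_xgr
  hr := t3k3_xhr
  gs := t3k3_xgs
  d1 := t3k3_xd1
  d2 := t3k3_xd2
  t1 := t3k3_xt1
  t2 := t3k3_xt2
  dy := t3k3_xdy
  ty := t3k3_xty
  d1s := t3k3_xd1s
  d2s := t3k3_xd2s
  t1s := t3k3_xt1s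
  t2s := t3k3_xt2s
  dys := t3k3_xdys
  tys := t3k3_xtys
  hz := t3k3_xhz

end Pool.Agent.RX.RCN.K
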