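import Pool.Agent.RX.RCN.T3D
import Pool.Agent.RX.RCN.T3Wq
import Pool.Agent.RX.RCN.T3X14
import Pool.Agent.RX.RCN.VLd

/-! Certificates (generated). -/

set_option autoImplicit false

namespace Pool.Agent.RX.RCN.K

open Set Pool.Agent.RX.RCM9 Pool.Agent.RX.RCM9.Bern Pool.Agent.RX.RCM9.Pk Xce

def t3c30 : Cel where
  t0 := 23 / 50
  t1 := 93 / 200
  C := 4097 / 4096
  th := 965 / 2048
  B0 := 537 / 512
  Bh := 2427 / 2048
  B1 := 595 / 512
  D0 := 721 / 2048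
  Dh := 299 / 1024
  D1 := 143 / 512
  E0 := 38491 / 4194304
  Eh := 33029 / 4194304
  E1 := 31601 / 4194304
  Q0 := 1077 / 1024
  Q1 := 1077 / 1024
  Q2 := 1123 / 1024
  Ac := 1077 / 1024
  gI := 1077 / 1024
  J := 249 / 16384

def t3n30 : Chn where
  lb := 513 / 512
  nb := 329 / 1024
  Mb := 1041 / 1024
  b2 := 65 / 64
  Yb := 13 / 1024
  E2 := 2101 / 2048
  e1 := 1327 / 1024
  Z1 := 1119 / 1024
  Z2 := 635 / 1024
  KB := 133 / 128
  cb := 1085 / 1024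
  rb := 99 / 256
  om := 263 / 256
  fb := 129 / 128
  kap := 1049 / 1024
  ab := 1029 / 1024

def t3e30 : Xge where
  lm := 3 / 5
  dl := 1859 / 4096
  e2 := 1979 / 16384
  eY := 4151 / 4096
  gE := 1173 / 1024

def t3r30 : Xr where
  d1 := [1512533 / 50000000, 268889 / 50000000, 200553 / 6250000, 801907 / 100000000, 243359 /
    1562500, -15467521 / 50000000, 1404053 / 5000000]
  d2 := [15787 / 100000000, 3057313 / 100000000, 820069 / 10000000, 4233873 / 25000000, -360367 /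
    50000000, -40073781 / 100000000, 2852851 / 6250000]
  dy := [29731377 / 100000000, 5516393 / 50000000, 34975603 / 100000000, 47282061 / 50000000,
    -39573733 / 50000000, -48711881 / 50000000, 10060963 / 6250000]
  t1 := [1566313 / 10000000, -9155983 / 20000000, 5845973 / 20000000, 196423 / 6250000, 45989993 /
    20000000, -575171659 / 100000000, 509812979 / 100000000]
  t2 := [4409623 / 100000000, -1534393 / 12500000, 8953887 / 100000000, 5406137 / 10000000,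
    -6564321 / 20000000, -19723209 / 100000000, 7124677 / 20000000]
  ty := [123787981 / 100000000, -9973023 / 2500000, 98570087 / 50000000, 1749647591 / 100000000,
    -206518223 / 6250000, 1140064261 / 50000000, -200278993 / 50000000]
  hz := [846781 / 5000000, -17109621 / 50000000, -25961033 / 20000000, -199527859 / 25000000,
    6129459417 / 100000000, -43542381 / 400000, 1423322717 / 25000000]
  om := [100396701 / 100000000, 2050081 / 2000000, -1397894101 / 100000000, 2852507959 / 50000000,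
    -14725232891 / 100000000, 36304572213 / 100000000, -75543133693 / 100000000, 48551299229 /
    50000000, -55014923803 / 100000000]
  sD := 77 / 32
  sT := 275 / 128
  xi := [5542803 / 50000000, 82185051 / 100000000, -170209813 / 50000000, 118298229 / 50000000,
    78098107 / 100000000, 2458336829 / 50000000, -1542907101 / 12500000, 929947469 / 50000000,
    21939103907 / 100000000, -20357643187 / 100000000]

def t3f30 : Dl where
  Ca := 2308713 / 5000000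
  Cv := 466817 / 1000000
  k1 := 4590097 / 5000000
  ks := 898331 / 1000000
  dd := 0
  kp := 1 / 10000000
  e := [999999698231 / 1000000000000, -1389450005647 / 1000000000000, 753741348439 / 500000000000,
    -1454139547121 / 1000000000000, 1328375186727 / 1000000000000, -563872396937 / 500000000000,
    842674306899 / 1000000000000, -475947255121 / 1000000000000, 14259909451 / 100000000000]
  j1 := [-73609 / 31250000, -7971501071 / 1000000000, 1168587531 / 15625000, -41381843773 /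
    125000000, 424019694571 / 500000000, -25493864211 / 20000000, 524060175717 / 500000000,
    -367939041241 / 1000000000]
  nu := [53604643 / 500000000, -240937819 / 1000000000, 392247567 / 1000000000, -13948553 /
    500000000, 82285483 / 1000000000, 841589 / 2500000, -285295739 / 1000000000]
  k2 := [56145753 / 62500000, 27060889 / 125000000, -163183893 / 500000000, -14850001 / 250000000,
    69879 / 10000000, -381265521 / 1000000000, 355018439 / 1000000000]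
  dR := [8450907 / 50000000, -8541733 / 25000000, -127563233 / 100000000, -805346997 / 100000000,
    3060166353 / 50000000, -5427737187 / 50000000, 227755689 / 4000000]

def t3d30 : Xce where
  u0 := 57781 / 125000
  u1 := 466817 / 1000000
  l := V2L.y14
  y := t3z14
  j := t3j14
  i := t3i14
  ls := t3y14
  k := V2L.k14
  c := t3f30
  ga := 3773 / 125000
  gb := -14149 / 1000000
  hb := 150361 / 1000000
  gs := [160003207 / 100000000, 59999959 / 25000000, 36001099 / 20000000, 79531393 / 100000000,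
    6747639 / 25000000, -805181 / 6250000, -5385307 / 100000000]
  d1 := [604557 / 20000000, 108749 / 20000000, 1483103 / 50000000, 3180781 / 100000000, 386807 /
    10000000, -153429 / 3125000, 395607 / 6250000]
  d2 := [6671 / 50000000, 3066423 / 100000000, 7605393 / 100000000, 22655947 / 100000000, -5853321
    / 20000000, 6073861 / 25000000, -849779 / 10000000]
  dy := [29706699 / 100000000, 2214243 / 20000000, 32629277 / 100000000, 58348647 / 50000000,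
    -23755819 / 12500000, 154045067 / 100000000, -51162549 / 100000000]
  t1 := [978431 / 6250000, -45601713 / 100000000, 7026319 / 25000000, 11920417 / 100000000,
    37868691 / 20000000, -245229583 / 50000000, 110661431 / 25000000]
  t2 := [440713 / 10000000, -381657 / 3125000, 32801 / 400000, 6086171 / 10000000, -33462651 /
    50000000, 55901587 / 100000000, -3350129 / 12500000]
  ty := [123724383 / 100000000, -397510601 / 100000000, 95633291 / 50000000, 222195271 / 12500000,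
    -864159321 / 25000000, 330370001 / 12500000, -88186261 / 12500000]

def t3m30 : ℚ := 461 / 1024

def t3h30 : ℚ := 253 / 500

theorem t3k30_M_r1 : NC (fM t3c30 (1 - eh) eh ek (elo t3c30.B0 t3c30.Bh eh) (elo t3c30.D0 t3c30.Dh ek) (elo t3c30.E0 t3c30.Eh ek)) :=
  NC.of (K := 32) (D := ⟨4, 3, 1, 1⟩) (Box.of 4 (by decide +kernel))
    (by decide +kernel)

theorem t3k30_M_r2 : NC (fM t3c30 eh (1 - eh) ek (ehi t3c30.Bh t3c30.B1 (1 - eh)) (elo t3c30.D0 t3c30.Dh ek) (elo t3c30.E0 t3c30.Eh ek)) :=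
  NC.of (K := 32) (D := ⟨4, 3, 1, 1⟩) (Box.of 4 (by decide +kernel))
    (by decide +kernel)

theorem t3k30_M_r3 : NC (fM t3c30 (1 - eh) ek eh (elo t3c30.B0 t3c30.Bh ek) (elo t3c30.D0 t3c30.Dh eh) (elo t3c30.E0 t3c30.Eh eh)) :=
  NC.of (K := 31) (D := ⟨4, 2, 1, 1⟩) (Box.of 4 (by decide +kernel))
    (by decide +kernel)

theorem t3k30_M_r4 : NC (fM t3c30 eh ek (1 - eh) (elo t3c30.B0 t3c30.Bh ek) (ehi t3c30.Dh t3c30.D1 (1 - eh)) (ehi t3c30.Eh t3c30.E1 (1 - eh))) :=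
  NC.of (K := 30) (D := ⟨4, 2, 1, 1⟩) (Box.of 4 (by decide +kernel))
    (by decide +kernel)

theorem t3k30_r0_r1 : NC (f0 t3c30 (1 - eh) eh ek (elo t3c30.B0 t3c30.Bh eh) (elo t3c30.D0 t3c30.Dh ek) (elo t3c30.E0 t3c30.Eh ek)) :=
  NC.of (K := 151) (D := ⟨13, 9, 1, 1⟩) (Box.of 4 (by decide +kernel))
    (by decide +kernel)

theorem t3k30_r0_r2 : NC (f0 t3c30 eh (1 - eh) ek (ehi t3c30.Bh t3c30.B1 (1 - eh)) (elo t3c30.D0 t3c30.Dh ek) (elo t3c30.E0 t3c30.Eh ek)) :=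
  NC.of (K := 151) (D := ⟨13, 9, 1, 1⟩) (Box.of 4 (by decide +kernel))
    (by decide +kernel)

theorem t3k30_r0_r3 : NC (f0 t3c30 (1 - eh) ek eh (elo t3c30.B0 t3c30.Bh ek) (elo t3c30.D0 t3c30.Dh eh) (elo t3c30.E0 t3c30.Eh eh)) :=
  NC.of (K := 146) (D := ⟨13, 5, 1, 1⟩) (Box.of 4 (by decide +kernel))
    (by decide +kernel)

theorem t3k30_r0_r4 : NC (f0 t3c30 eh ek (1 - eh) (elo t3c30.B0 t3c30.Bh ek) (ehi t3c30.Dh t3c30.D1 (1 - eh)) (ehi t3c30.Eh t3c30.E1 (1 - eh))) :=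
  NC.of (K := 143) (D := ⟨13, 5, 1, 1⟩) (Box.of 4 (by decide +kernel))
    (by decide +kernel)

theorem t3k30_r1_r1 : NC (f1 t3c30 (1 - eh) eh ek (elo t3c30.B0 t3c30.Bh eh) (elo t3c30.D0 t3c30.Dh ek) (elo t3c30.E0 t3c30.Eh ek)) :=
  NC.of (K := 229) (D := ⟨16, 9, 1, 1⟩) (Box.of 4 (by decide +kernel))
    (by decide +kernel)

theorem t3k30_r1_r2 : NC (f1 t3c30 eh (1 - eh) ek (ehi t3c30.Bh t3c30.B1 (1 - eh)) (elo t3c30.D0 t3c30.Dh ek) (elo t3c30.E0 t3c30.Eh ek)) :=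
  NC.of (K := 230) (D := ⟨16, 9, 1, 1⟩) (Box.of 4 (by decide +kernel))
    (by decide +kernel)

theorem t3k30_r1_r3 : NC (f1 t3c30 (1 - eh) ek eh (elo t3c30.B0 t3c30.Bh ek) (elo t3c30.D0 t3c30.Dh eh) (elo t3c30.E0 t3c30.Eh eh)) :=
  NC.of (K := 232) (D := ⟨16, 12, 1, 1⟩) (Box.of 4 (by decide +kernel))
    (by decide +kernel)

theorem t3k30_r1_r4 : NC (f1 t3c30 eh ek (1 - eh) (elo t3c30.B0 t3c30.Bh ek) (ehi t3c30.Dh t3c30.D1 (1 - eh)) (ehi t3c30.Eh t3c30.E1 (1 - eh))) :=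
  NC.of (K := 233) (D := ⟨16, 12, 1, 1⟩) (Box.of 4 (by decide +kernel))
    (by decide +kernel)

theorem t3k30_r2_r1 : NC (f2 t3c30 (1 - eh) eh ek (elo t3c30.B0 t3c30.Bh eh) (elo t3c30.D0 t3c30.Dh ek) (elo t3c30.E0 t3c30.Eh ek)) :=
  NC.of (K := 259) (D := ⟨16, 11, 1, 1⟩) (Box.of 288 (by decide +kernel))
    (by decide +kernel)

theorem t3k30_r2_r2 : NC (f2 t3c30 eh (1 - eh) ek (ehi t3c30.Bh t3c30.B1 (1 - eh)) (elo t3c30.D0 t3c30.Dh ek) (elo t3c30.E0 t3c30.Eh ek)) :=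
  NC.of (K := 233) (D := ⟨16, 11, 1, 1⟩) (Box.of 4 (by decide +kernel))
    (by decide +kernel)

theorem t3k30_r2_r3 : NC (f2 t3c30 (1 - eh) ek eh (elo t3c30.B0 t3c30.Bh ek) (elo t3c30.D0 t3c30.Dh eh) (elo t3c30.E0 t3c30.Eh eh)) :=
  NC.of (K := 260) (D := ⟨16, 12, 1, 1⟩) (Box.of 288 (by decide +kernel))
    (by decide +kernel)

theorem t3k30_r2_r4 : NC (f2 t3c30 eh ek (1 - eh) (elo t3c30.B0 t3c30.Bh ek) (ehi t3c30.Dh t3c30.D1 (1 - eh)) (ehi t3c30.Eh t3c30.E1 (1 - eh))) :=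
  NC.of (K := 234) (D := ⟨16, 12, 1, 1⟩) (Box.of 4 (by decide +kernel))
    (by decide +kernel)

theorem t3k30_rc_r1 : NC (fc t3c30 (1 - eh) eh ek (elo t3c30.B0 t3c30.Bh eh) (elo t3c30.D0 t3c30.Dh ek) (elo t3c30.E0 t3c30.Eh ek)) :=
  NC.of (K := 150) (D := ⟨13, 9, 1, 1⟩) (Box.of 4 (by decide +kernel))
    (by decide +kernel)

theorem t3k30_rc_r2 : NC (fc t3c30 eh (1 - eh) ek (ehi t3c30.Bh t3c30.B1 (1 - eh)) (elo t3c30.D0 t3c30.Dh ek) (elo t3c30.E0 t3c30.Eh ek)) :=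
  NC.of (K := 150) (D := ⟨13, 9, 1, 1⟩) (Box.of 4 (by decide +kernel))
    (by decide +kernel)

theorem t3k30_rc_r3 : NC (fc t3c30 (1 - eh) ek eh (elo t3c30.B0 t3c30.Bh ek) (elo t3c30.D0 t3c30.Dh eh) (elo t3c30.E0 t3c30.Eh eh)) :=
  NC.of (K := 146) (D := ⟨13, 5, 1, 1⟩) (Box.of 4 (by decide +kernel))
    (by decide +kernel)

theorem t3k30_rc_r4 : NC (fc t3c30 eh ek (1 - eh) (elo t3c30.B0 t3c30.Bh ek) (ehi t3c30.Dh t3c30.D1 (1 - eh)) (ehi t3c30.Eh t3c30.E1 (1 - eh))) :=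
  NC.of (K := 143) (D := ⟨13, 5, 1, 1⟩) (Box.of 4 (by decide +kernel))
    (by decide +kernel)

theorem t3k30_rI_r1 : NC (fI t3c30 (1 - eh) eh ek (elo t3c30.B0 t3c30.Bh eh) (elo t3c30.D0 t3c30.Dh ek) (elo t3c30.E0 t3c30.Eh ek)) :=
  NC.of (K := 138) (D := ⟨13, 9, 1, 1⟩) (Box.of 4 (by decide +kernel))
    (by decide +kernel)

theorem t3k30_rI_r2 : NC (fI t3c30 eh (1 - eh) ek (ehi t3c30.Bh t3c30.B1 (1 - eh)) (elo t3c30.D0 t3c30.Dh ek) (elo t3c30.E0 t3c30.Eh ek)) :=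
  NC.of (K := 138) (D := ⟨13, 9, 1, 1⟩) (Box.of 4 (by decide +kernel))
    (by decide +kernel)

theorem t3k30_rI_r3 : NC (fI t3c30 (1 - eh) ek eh (elo t3c30.B0 t3c30.Bh ek) (elo t3c30.D0 t3c30.Dh eh) (elo t3c30.E0 t3c30.Eh eh)) :=
  NC.of (K := 133) (D := ⟨13, 5, 1, 1⟩) (Box.of 4 (by decide +kernel))
    (by decide +kernel)

theorem t3k30_rI_r4 : NC (fI t3c30 eh ek (1 - eh) (elo t3c30.B0 t3c30.Bh ek) (ehi t3c30.Dh t3c30.D1 (1 - eh)) (ehi t3c30.Eh t3c30.E1 (1 - eh))) :=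
  NC.of (K := 130) (D := ⟨13, 5, 1, 1⟩) (Box.of 4 (by decide +kernel))
    (by decide +kernel)

theorem t3k30_rJ_r1 : NC (fJ t3c30 (1 - eh) eh ek (elo t3c30.B0 t3c30.Bh eh) (elo t3c30.D0 t3c30.Dh ek) (elo t3c30.E0 t3c30.Eh ek)) :=
  NC.of (K := 76) (D := ⟨7, 5, 1, 1⟩) (Box.of 4 (by decide +kernel))
    (by decide +kernel)

theorem t3k30_rJ_r2 : NC (fJ t3c30 eh (1 - eh) ek (ehi t3c30.Bh t3c30.B1 (1 - eh)) (elo t3c30.D0 t3c30.Dh ek) (elo t3c30.E0 t3c30.Eh ek)) :=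
  NC.of (K := 76) (D := ⟨7, 5, 1, 1⟩) (Box.of 4 (by decide +kernel))
    (by decide +kernel)

theorem t3k30_rJ_r3 : NC (fJ t3c30 (1 - eh) ek eh (elo t3c30.B0 t3c30.Bh ek) (elo t3c30.D0 t3c30.Dh eh) (elo t3c30.E0 t3c30.Eh eh)) :=
  NC.of (K := 73) (D := ⟨7, 3, 1, 1⟩) (Box.of 4 (by decide +kernel))
    (by decide +kernel)

theorem t3k30_rJ_r4 : NC (fJ t3c30 eh ek (1 - eh) (elo t3c30.B0 t3c30.Bh ek) (ehi t3c30.Dh t3c30.D1 (1 - eh)) (ehi t3c30.Eh t3c30.E1 (1 - eh))) :=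
  NC.of (K := 71) (D := ⟨7, 3, 1, 1⟩) (Box.of 4 (by decide +kernel))
    (by decide +kernel)

theorem t3k30_gE_r1 : NC (fE t3c30 t3e30 (1 - eh) eh ek (elo t3c30.B0 t3c30.Bh eh) (elo t3c30.D0 t3c30.Dh ek) (elo t3c30.E0 t3c30.Eh ek)) :=
  NC.of (K := 184) (D := ⟨13, 9, 1, 1⟩) (Box.of 18688 (by decide +kernel))
    (by decide +kernel)

theorem t3k30_gE_r2 : NC (fE t3c30 t3e30 eh (1 - eh) ek (ehi t3c30.Bh t3c30.B1 (1 - eh)) (elo t3c30.D0 t3c30.Dh ek) (elo t3c30.E0 t3c30.Eh ek)) :=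
  NC.of (K := 140) (D := ⟨13, 9, 1, 1⟩) (Box.of 4 (by decide +kernel))
    (by decide +kernel)

theorem t3k30_gE_r3 : NC (fE t3c30 t3e30 (1 - eh) ek eh (elo t3c30.B0 t3c30.Bh ek) (elo t3c30.D0 t3c30.Dh eh) (elo t3c30.E0 t3c30.Eh eh)) :=
  NC.of (K := 182) (D := ⟨13, 7, 1, 1⟩) (Box.of 18688 (by decide +kernel))
    (by decide +kernel)

theorem t3k30_gE_r4 : NC (fE t3c30 t3e30 eh ek (1 - eh) (elo t3c30.B0 t3c30.Bh ek) (ehi t3c30.Dh t3c30.D1 (1 - eh)) (ehi t3c30.Eh t3c30.E1 (1 - eh))) :=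
  NC.of (K := 135) (D := ⟨13, 7, 1, 1⟩) (Box.of 4 (by decide +kernel))
    (by decide +kernel)

theorem t3k30_B0 : NC (kB dW 1 0 t3c30.B0 (tcl t3c30)) :=
  NC.of (K := 102) (D := ⟨1, 1, 1, 9⟩) (Box.of 4 (by decide +kernel))
    (by decide +kernel)

theorem t3k30_E0 : NC (kE dW qW qW.p0 qW.q0 t3c30.E0 (tcl t3c30)) :=
  NC.of (K := 226) (D := ⟨1, 1, 1, 19⟩) (Box.of 4 (by decide +kernel))
    (by decide +kernel)

theorem t3k30_D0 : NC (kD dW qW 1 0 qW.p0 qW.q0 t3c30.D0 (tcl t3c30)) :=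
  NC.of (K := 343) (D := ⟨1, 1, 1, 20⟩) (Box.of 4 (by decide +kernel))
    (by decide +kernel)

theorem t3k30_Bh : NC (kB dW (1 / 2) (1 / 2) t3c30.Bh (tcl t3c30)) :=
  NC.of (K := 105) (D := ⟨1, 1, 1, 9⟩) (Box.of 4 (by decide +kernel))
    (by decide +kernel)

theorem t3k30_Eh : NC (kE dW qW qW.ph qW.qh t3c30.Eh (tcl t3c30)) :=
  NC.of (K := 230) (D := ⟨1, 1, 1, 19⟩) (Box.of 4 (by decide +kernel))
    (by decide +kernel)

theorem t3k30_Dh : NC (kD dW qW (1 / 2) (1 / 2) qW.ph qW.qh t3c30.Dh (tcl t3c30)) :=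
  NC.of (K := 347) (D := ⟨1, 1, 1, 20⟩) (Box.of 4 (by decide +kernel))
    (by decide +kernel)

theorem t3k30_B1 : NC (kB dW 0 (1 / 2) t3c30.B1 (tcl t3c30)) :=
  NC.of (K := 105) (D := ⟨1, 1, 1, 9⟩) (Box.of 4 (by decide +kernel))
    (by decide +kernel)

theorem t3k30_E1 : NC (kE dW qW qW.p1 qW.q1 t3c30.E1 (tcl t3c30)) :=
  NC.of (K := 229) (D := ⟨1, 1, 1, 19⟩) (Box.of 4 (by decide +kernel))
    (by decide +kernel)

theorem t3k30_D1 : NC (kD dW qW 0 (1 / 2) qW.p1 qW.q1 t3c30.D1 (tcl t3c30)) :=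
  NC.of (K := 347) (D := ⟨1, 1, 1, 20⟩) (Box.of 4 (by decide +kernel))
    (by decide +kernel)

theorem t3k30_l : NC (qc t3n30.lb - (1 - vX) * pe (exl t3c30.th) vX ^ 2) :=
  NC.of (K := 118) (D := ⟨10, 1, 1, 1⟩) (Box.of 4 (by decide +kernel))
    (by decide +kernel)

theorem t3k30_n : NC (qc t3n30.nb - vX * (1 - vX) * pe (exl t3c30.th) vX) :=
  NC.of (K := 112) (D := ⟨7, 1, 1, 1⟩) (Box.of 76677152 (by decide +kernel))
    (by decide +kernel)

theorem t3k30_rb : NC (krb t3n30 fW (t1v t3c30)) :=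
  NC.of (K := 200) (D := ⟨1, 1, 1, 16⟩) (Box.of 4 (by decide +kernel))
    (by decide +kernel)

theorem t3k30_kap : NC (kkap dW qW t3n30 (tcl t3c30)) :=
  NC.of (K := 102) (D := ⟨1, 1, 1, 9⟩) (Box.of 4 (by decide +kernel))
    (by decide +kernel)

theorem t3k30_wb2 : NC (qc t3n30.b2 - pe2 kW.QB (vZ * t1v t3c30) (t1v t3c30)) :=
  NC.of (K := 175) (D := ⟨1, 6, 1, 11⟩) (Box.of 1186075 (by decide +kernel))
    (by decide +kernel)

theorem t3k30_wmb : NC (qc t3n30.Mb - pe zW.mb (t1v t3c30)) :=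
  NC.of (K := 123) (D := ⟨1, 1, 1, 9⟩) (Box.of 291 (by decide +kernel))
    (by decide +kernel)

theorem t3k30_wth : NC (qc (t3c30.th / t3c30.t1) - pe2 zW.Qt (vZ * t1v t3c30) (t1v t3c30)) :=
  NC.of (K := 161) (D := ⟨1, 6, 1, 11⟩) (Box.of 291 (by decide +kernel))
    (by decide +kernel)

theorem t3k30_wyb : NC (qc t3n30.Yb - (t1v t3c30 - vZ * t1v t3c30) ^ 3 * pe2 yW.QY (vZ * t1v t3c30) (t1v t3c30)) :=
  NC.of (K := 141) (D := ⟨1, 8, 1, 12⟩) (Box.of 4 (by decide +kernel))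
    (by decide +kernel)

theorem t3k30_wmu : NC (qc t3m30 - pe t3al (tcl t3c30) * (1 + hlf * tcl t3c30)) :=
  NC.of (K := 98) (D := ⟨1, 1, 1, 9⟩) (Box.of 4 (by decide +kernel))
    (by decide +kernel)

theorem t3k30_wcj : NC (qc t3c30.C * ((6 - 3 * vX) * (1 - qc t3m30 * vX)) - (6 - 6 * vX + vX ^ 2)) :=
  NC.of (K := 32) (D := ⟨3, 1, 1, 1⟩) (Box.of 4 (by decide +kernel))
    (by decide +kernel)

theorem t3k30_nd1 : NC (pe t3r30.d1 (t1v t3c30)) :=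
  NC.of (K := 74) (D := ⟨1, 1, 1, 7⟩) (Box.of 4 (by decide +kernel))
    (by decide +kernel)

theorem t3k30_nd2 : NC (pe t3r30.d2 (t1v t3c30)) :=
  NC.of (K := 76) (D := ⟨1, 1, 1, 7⟩) (Box.of 4 (by decide +kernel))
    (by decide +kernel)

theorem t3k30_ndy : NC (pe t3r30.dy (t1v t3c30)) :=
  NC.of (K := 78) (D := ⟨1, 1, 1, 7⟩) (Box.of 4 (by decide +kernel))
    (by decide +kernel)

theorem t3k30_nt1 : NC (pe t3r30.t1 (t1v t3c30)) :=
  NC.of (K := 82) (D := ⟨1, 1, 1, 7⟩) (Box.of 4 (by decide +kernel))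
    (by decide +kernel)

theorem t3k30_nt2 : NC (pe t3r30.t2 (t1v t3c30)) :=
  NC.of (K := 78) (D := ⟨1, 1, 1, 7⟩) (Box.of 4 (by decide +kernel))
    (by decide +kernel)

theorem t3k30_nty : NC (pe t3r30.ty (t1v t3c30)) :=
  NC.of (K := 85) (D := ⟨1, 1, 1, 7⟩) (Box.of 4 (by decide +kernel))
    (by decide +kernel)

theorem t3k30_nhz : NC (pe t3r30.hz (t1v t3c30)) :=
  NC.of (K := 108) (D := ⟨1, 1, 1, 7⟩) (Box.of 18659 (by decide +kernel))
    (by decide +kernel)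

theorem t3k30_xi : NC (eXi fW t3c30 t3e30 t3r30 (t1v t3c30)) :=
  NC.of (K := 326) (D := ⟨1, 1, 1, 22⟩) (Box.of 4 (by decide +kernel))
    (by decide +kernel)

theorem t3k30_om : NC (eOm fW t3r30 (t1v t3c30)) :=
  NC.of (K := 193) (D := ⟨1, 1, 1, 16⟩) (Box.of 4 (by decide +kernel))
    (by decide +kernel)

theorem t3k30_fin : NC (eFin dW t3c30 t3n30 t3r30 t3h30 (tcl t3c30)) :=
  NC.of (K := 231) (D := ⟨1, 1, 1, 14⟩) (Box.of 4 (by decide +kernel))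
    (by decide +kernel)

theorem t3k30_xdl : NC (qc t3e30.dl - pe t3d30.l.dl t3d30.eU) :=
  NC.of (K := 73) (D := ⟨1, 4, 1, 1⟩) (Box.of 4 (by decide +kernel))
    (by decide +kernel)

theorem t3k30_xeY : NC (qc t3e30.eY - pe (e4l t3d30.l.z) t3d30.eU) :=
  NC.of (K := 288) (D := ⟨1, 13, 1, 1⟩) (Box.of 4 (by decide +kernel))
    (by decide +kernel)

theorem t3k30_xgr : NC (qc t3d30.ga * ((1 + qc (3 / 5) * vX) * (1 + (t3d30.eg + hlf * t3d30.eg ^ 2))) + qc t3d30.gb - pe2 t3GR vX t3d30.eU) :=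
  NC.of (K := 262) (D := ⟨4, 11, 1, 1⟩) (Box.of 1198080 (by decide +kernel))
    (by decide +kernel)

theorem t3k30_xhr : NC (qc t3d30.hb - pe2 t3HR vX t3d30.eU) :=
  NC.of (K := 264) (D := ⟨3, 12, 1, 1⟩) (Box.of 4 (by decide +kernel))
    (by decide +kernel)

theorem t3k30_xgs : NC (pe t3d30.gs t3d30.e1 - qc (8 / 5) * pe (e4l (ladd t3d30.ls.z t3d30.ls.dl)) t3d30.e1) :=
  NC.of (K := 296) (D := ⟨1, 1, 1, 13⟩) (Box.of 4 (by decide +kernel))
    (by decide +kernel)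

theorem t3k30_xd1 : NC (pe t3d30.d1 t3d30.e1 - t3d30.eA t3d30.eU t3d30.e1) :=
  NC.of (K := 287) (D := ⟨1, 12, 1, 12⟩) (Box.of 4 (by decide +kernel))
    (by decide +kernel)

theorem t3k30_xd2 : NC (pe t3d30.d2 t3d30.e1 - t3d30.eB t3d30.eU t3d30.e1) :=
  NC.of (K := 289) (D := ⟨1, 12, 1, 12⟩) (Box.of 4 (by decide +kernel))
    (by decide +kernel)

theorem t3k30_xt1 : NC (pe t3d30.t1 t3d30.e1 - t3d30.eAT t3d30.eU t3d30.e1) :=
  NC.of (K := 471) (D := ⟨1, 19, 1, 19⟩) (Box.of 4 (by decide +kernel))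
    (by decide +kernel)

theorem t3k30_xt2 : NC (pe t3d30.t2 t3d30.e1 - t3d30.eBT t3d30.eU t3d30.e1) :=
  NC.of (K := 474) (D := ⟨1, 19, 1, 19⟩) (Box.of 4 (by decide +kernel))
    (by decide +kernel)

theorem t3k30_xdy : NC (pe t3d30.dy t3d30.e1 - t3d30.eSD t3d30.eU t3d30.e1) :=
  NC.of (K := 449) (D := ⟨1, 18, 1, 12⟩) (Box.of 4 (by decide +kernel))
    (by decide +kernel)

theorem t3k30_xty : NC (pe t3d30.ty t3d30.e1 - t3d30.eST t3d30.eU t3d30.e1) :=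
  NC.of (K := 672) (D := ⟨1, 26, 1, 26⟩) (Box.of 4 (by decide +kernel))
    (by decide +kernel)

theorem t3k30_xd1s : NC (pe t3r30.d1 (t1v t3c30) - pe t3d30.d1 (Xcd.ew zW t3c30)) :=
  NC.of (K := 695) (D := ⟨1, 1, 1, 55⟩) (Box.of 4 (by decide +kernel))
    (by decide +kernel)

theorem t3k30_xd2s : NC (pe t3r30.d2 (t1v t3c30) - pe t3d30.d2 (Xcd.ew zW t3c30)) :=
  NC.of (K := 697) (D := ⟨1, 1, 1, 55⟩) (Box.of 4 (by decide +kernel))
    (by decide +kernel)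

theorem t3k30_xt1s : NC (pe t3r30.t1 (t1v t3c30) - pe t3d30.t1 (Xcd.ew zW t3c30)) :=
  NC.of (K := 704) (D := ⟨1, 1, 1, 55⟩) (Box.of 4 (by decide +kernel))
    (by decide +kernel)

theorem t3k30_xt2s : NC (pe t3r30.t2 (t1v t3c30) - pe t3d30.t2 (Xcd.ew zW t3c30)) :=
  NC.of (K := 699) (D := ⟨1, 1, 1, 55⟩) (Box.of 4 (by decide +kernel))
    (by decide +kernel)

theorem t3k30_xdys : NC (pe t3r30.dy (t1v t3c30) - pe t3d30.dy (Xcd.ew zW t3c30)) :=
  NC.of (K := 703) (D := ⟨1, 1, 1, 55⟩) (Box.of 4 (by decide +kernel))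
    (by decide +kernel)

theorem t3k30_xtys : NC (pe t3r30.ty (t1v t3c30) - pe t3d30.ty (Xcd.ew zW t3c30)) :=
  NC.of (K := 704) (D := ⟨1, 1, 1, 55⟩) (Box.of 4 (by decide +kernel))
    (by decide +kernel)

theorem t3k30_xhz : NC (pe t3r30.hz (t1v t3c30) - pe t3d30.c.dR (Xcd.ew zW t3c30)) :=
  NC.of (K := 705) (D := ⟨1, 1, 1, 55⟩) (Box.of 4 (by decide +kernel))
    (by decide +kernel)

theorem t3f30_ok : t3f30.ok V2L.y14 V2L.k14 V2L.nb V2L.la (10 ^ 30) 32 = true := by decide +kernel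

theorem t3k30_sg : t3c30.Sg := by
  constructor <;> decide +kernel

theorem t3k30_rgs : t3c30.Rgs where
  M := ⟨t3k30_M_r1, t3k30_M_r2, t3k30_M_r3, t3k30_M_r4⟩
  r0 := ⟨t3k30_r0_r1, t3k30_r0_r2, t3k30_r0_r3, t3k30_r0_r4⟩
  r1 := ⟨t3k30_r1_r1, t3k30_r1_r2, t3k30_r1_r3, t3k30_r1_r4⟩
  r2 := ⟨t3k30_r2_r1, t3k30_r2_r2, t3k30_r2_r3, t3k30_r2_r4⟩
  rc := ⟨t3k30_rc_r1, t3k30_rc_r2, t3k30_rc_r3, t3k30_rc_r4⟩
  rI := ⟨t3k30_rI_r1, t3k30_rI_r2, t3k30_rI_r3, t3k30_rI_r4⟩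
  rJ := ⟨t3k30_rJ_r1, t3k30_rJ_r2, t3k30_rJ_r3, t3k30_rJ_r4⟩

theorem t3k30_xn : t3e30.Ok t3c30 where
  lm := by decide +kernel
  dl0 := by decide +kernel
  dl1 := by decide +kernel
  e2 := by decide +kernel
  eY := by decide +kernel
  gE := ⟨t3k30_gE_r1, t3k30_gE_r2, t3k30_gE_r3, t3k30_gE_r4⟩

theorem t3k30_vl : t3c30.Vl dW qW where
  bt := by decide +kernel
  B0 := t3k30_B0
  E0 := t3k30_E0
  D0 := t3k30_D0
  Bh := t3k30_Bh
  Eh := t3k30_Eh
  Dh := t3k30_Dh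
  B1 := t3k30_B1
  E1 := t3k30_E1
  D1 := t3k30_D1

theorem t3k30_rat : t3n30.Rat t3c30 := by
  constructor <;> decide +kernel

theorem t3k30_ck : t3n30.Ck t3c30 := ⟨t3k30_l, t3k30_n⟩

theorem t3k30_fck : t3n30.Fck dW qW fW t3c30 := ⟨t3k30_rb, t3k30_kap⟩

theorem t3k30_w : Wcl zW kW yW t3al t3c30 t3n30 t3m30 where
  b2 := t3k30_wb2
  mb := t3k30_wmb
  th := t3k30_wth
  yb := t3k30_wyb
  mu := t3k30_wmu
  cj := t3k30_wcj
  mt1 := by decide +kernel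
  mt2 := by decide +kernel

theorem t3k30_ok : CelOk dW qW fW t3c30 t3n30 where
  s := t3k30_sg
  r := t3k30_rgs
  v := t3k30_vl
  rt := t3k30_rat
  k := t3k30_ck
  fc := t3k30_fck
  q01 := by decide +kernel
  q12 := by decide +kernel
  h2 := by decide +kernel

theorem t3k30_xr : t3r30.Ok fW t3c30 t3e30 where
  sD := by decide +kernel
  sT := by decide +kernel
  nd1 := t3k30_nd1
  nd2 := t3k30_nd2
  ndy := t3k30_ndy
  nt1 := t3k30_nt1
  nt2 := t3k30_nt2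
  nty := t3k30_nty
  nhz := t3k30_nhz
  xi := t3k30_xi
  om := t3k30_om

theorem t3k30_X : t3d30.Ck t3GR t3HR zW t3c30 t3e30 t3r30 where
  u0 := by decide +kernel
  u01 := by decide +kernel
  ul := by decide +kernel
  us := by decide +kernel
  uc := by decide +kernel
  ga0 := by decide +kernel
  kp0 := by decide +kernel
  lm := by decide +kernel
  dl := t3k30_xdl
  eY := t3k30_xeY
  gr := t3k30_xgr
  hr := t3k30_xhr
  gs := t3k30_xgs
  d1 := t3k30_xd1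
  d2 := t3k30_xd2
  t1 := t3k30_xt1
  t2 := t3k30_xt2
  dy := t3k30_xdy
  ty := t3k30_xty
  d1s := t3k30_xd1s
  d2s := t3k30_xd2s
  t1s := t3k30_xt1s
  t2s := t3k30_xt2s
  dys := t3k30_xdys
  tys := t3k30_xtys
  hz := t3k30_xhz

end Pool.Agent.RX.RCN.K
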