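import Pool.Agent.RX.RCN.T3D
import Pool.Agent.RX.RCN.T3Wq
import Pool.Agent.RX.RCN.T3X14
import Pool.Agent.RX.RCN.VLd

/-! Certificates (generated). -/

set_option autoImplicit false

namespace Pool.Agent.RX.RCN.K

open Set Pool.Agent.RX.RCM9 Pool.Agent.RX.RCM9.Bern Pool.Agent.RX.RCM9.Pk Xce

def t3c31 : Cel where
  t0 := 93 / 200
  t1 := 47 / 100
  C := 4097 / 4096
  th := 977 / 2048
  B0 := 67 / 64
  Bh := 2433 / 2048
  B1 := 2387 / 2048
  D0 := 1453 / 4096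
  Dh := 1209 / 4096
  D1 := 289 / 1024
  E0 := 157 / 16384
  Eh := 34579 / 4194304
  E1 := 33095 / 4194304
  Q0 := 1075 / 1024
  Q1 := 1075 / 1024
  Q2 := 1127 / 1024
  Ac := 1075 / 1024
  gI := 1075 / 1024
  J := 1053 / 65536

def t3n31 : Chn where
  lb := 513 / 512
  nb := 165 / 512
  Mb := 521 / 512
  b2 := 65 / 64
  Yb := 53 / 4096
  E2 := 1051 / 1024
  e1 := 1333 / 1024
  Z1 := 1119 / 1024
  Z2 := 635 / 1024
  KB := 1065 / 1024
  cb := 1087 / 1024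
  rb := 399 / 1024
  om := 263 / 256
  fb := 129 / 128
  kap := 525 / 512
  ab := 1029 / 1024

def t3e31 : Xge where
  lm := 3 / 5
  dl := 939 / 2048
  e2 := 253 / 2048
  eY := 4153 / 4096
  gE := 1177 / 1024

def t3r31 : Xr where
  d1 := [3108797 / 100000000, 507553 / 100000000, 1583459 / 50000000, 16661 / 2500000, 15929427 /
    100000000, -15779837 / 50000000, 886983 / 3125000]
  d2 := [86533 / 100000000, 2981771 / 100000000, 6131 / 78125, 1095911 / 6250000, -63727 /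
    5000000, -40008371 / 100000000, 11452933 / 25000000]
  dy := [15890731 / 50000000, 1338859 / 12500000, 8284161 / 25000000, 4930549 / 5000000, -83398913
    / 100000000, -95559837 / 100000000, 160884519 / 100000000]
  t1 := [8014419 / 50000000, -180941 / 390625, 14753337 / 50000000, -74459 / 12500000, 47999081 /
    20000000, -291750669 / 50000000, 20246311 / 4000000]
  t2 := [4679449 / 100000000, -12903679 / 100000000, 1768541 / 20000000, 3400449 / 6250000,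
    -31988993 / 100000000, -10965561 / 50000000, 37441823 / 100000000]
  ty := [32551647 / 25000000, -209950591 / 50000000, 125854409 / 50000000, 1560480963 / 100000000,
    -2775658543 / 100000000, 186773879 / 12500000, 398773 / 625000]
  hz := [8712113 / 50000000, -1616361 / 5000000, -203055047 / 100000000, 25091163 / 50000000,
    415682777 / 20000000, -2611902117 / 100000000, -178598877 / 50000000]
  om := [50198351 / 50000000, 51269183 / 50000000, -1399634289 / 100000000, 5738186659 /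
    100000000, -1879051479 / 12500000, 7567151943 / 20000000, -39870231491 / 50000000,
    51528394949 / 50000000, -7303516379 / 12500000]
  sD := 623 / 256
  sT := 555 / 256
  xi := [11762479 / 100000000, 84958651 / 100000000, -177312929 / 50000000, 46845387 / 25000000,
    280027599 / 25000000, -477537123 / 50000000, 3356310301 / 100000000, -3982305781 / 20000000,
    9553509179 / 25000000, -26687803137 / 100000000]

def t3f31 : Dl where
  Ca := 933631 / 2000000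
  Cv := 471897 / 1000000
  k1 := 2291029 / 2500000
  ks := 896429 / 1000000
  dd := 0
  kp := 1 / 10000000
  e := [39999987921 / 40000000000, -348744655929 / 250000000000, 759537192033 / 500000000000,
    -1471049842011 / 1000000000000, 21066084657 / 15625000000, -286829523233 / 250000000000,
    857605814021 / 1000000000000, -483093047671 / 1000000000000, 143938847701 / 1000000000000]
  j1 := [-18183 / 7812500, -1969836947 / 250000000, 14825274963 / 200000000, -82185200649 /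
    250000000, 421592225043 / 500000000, -1267457670391 / 1000000000, 519849809371 / 500000000,
    -181303673731 / 500000000]
  nu := [4373109 / 40000000, -243046059 / 1000000000, 392053467 / 1000000000, -25135843 /
    1000000000, 14733471 / 250000000, 73872403 / 200000000, -300502387 / 1000000000]
  k2 := [112053819 / 125000000, 217921391 / 1000000000, -162514579 / 500000000, -7844233 /
    125000000, 29554263 / 1000000000, -412158207 / 1000000000, 367693869 / 1000000000]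
  dR := [4347361 / 25000000, -32318609 / 100000000, -199368953 / 100000000, 25657789 / 100000000,
    2159553971 / 100000000, -1394099463 / 50000000, -11688811 / 6250000]

def t3d31 : Xce where
  u0 := 233661 / 500000
  u1 := 471897 / 1000000
  l := V2L.y14
  y := t3z14
  j := t3j14
  i := t3i14
  ls := t3y14
  k := V2L.k14
  c := t3f31
  ga := 1551 / 50000
  gb := -717 / 50000
  hb := 158271 / 1000000
  gs := [16000323 / 10000000, 14999989 / 6250000, 180005837 / 100000000, 79527923 / 100000000,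
    27006323 / 100000000, -6457809 / 50000000, -1340009 / 25000000]
  d1 := [3106471 / 100000000, 513771 / 100000000, 584057 / 20000000, 617509 / 20000000, 4041877 /
    100000000, -5180951 / 100000000, 1595129 / 25000000]
  d2 := [42021 / 50000000, 2991329 / 100000000, 7248667 / 100000000, 233071 / 1000000, -7516237 /
    25000000, 497151 / 2000000, -8696309 / 100000000]
  dy := [7938931 / 25000000, 10751019 / 100000000, 30781673 / 100000000, 4836099 / 4000000,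
    -39020337 / 20000000, 19697649 / 12500000, -26246377 / 50000000]
  t1 := [1602037 / 10000000, -11534259 / 25000000, 14140409 / 50000000, 1823817 / 20000000,
    195576271 / 100000000, -1966983 / 400000, 434239991 / 100000000]
  t2 := [116921 / 2500000, -1283859 / 10000000, 2015779 / 25000000, 30725779 / 50000000, -13426951
    / 20000000, 27849203 / 50000000, -6602471 / 25000000]
  ty := [130139613 / 100000000, -209205503 / 50000000, 9805293 / 4000000, 796691227 / 50000000,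
    -736898267 / 25000000, 1893607719 / 100000000, -26687889 / 10000000]

def t3m31 : ℚ := 931 / 2048

def t3h31 : ℚ := 63 / 125

theorem t3k31_M_r1 : NC (fM t3c31 (1 - eh) eh ek (elo t3c31.B0 t3c31.Bh eh) (elo t3c31.D0 t3c31.Dh ek) (elo t3c31.E0 t3c31.Eh ek)) :=
  NC.of (K := 31) (D := ⟨4, 3, 1, 1⟩) (Box.of 4 (by decide +kernel))
    (by decide +kernel)

theorem t3k31_M_r2 : NC (fM t3c31 eh (1 - eh) ek (ehi t3c31.Bh t3c31.B1 (1 - eh)) (elo t3c31.D0 t3c31.Dh ek) (elo t3c31.E0 t3c31.Eh ek)) :=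
  NC.of (K := 31) (D := ⟨4, 3, 1, 1⟩) (Box.of 4 (by decide +kernel))
    (by decide +kernel)

theorem t3k31_M_r3 : NC (fM t3c31 (1 - eh) ek eh (elo t3c31.B0 t3c31.Bh ek) (elo t3c31.D0 t3c31.Dh eh) (elo t3c31.E0 t3c31.Eh eh)) :=
  NC.of (K := 30) (D := ⟨4, 2, 1, 1⟩) (Box.of 4 (by decide +kernel))
    (by decide +kernel)

theorem t3k31_M_r4 : NC (fM t3c31 eh ek (1 - eh) (elo t3c31.B0 t3c31.Bh ek) (ehi t3c31.Dh t3c31.D1 (1 - eh)) (ehi t3c31.Eh t3c31.E1 (1 - eh))) :=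
  NC.of (K := 31) (D := ⟨4, 2, 1, 1⟩) (Box.of 4 (by decide +kernel))
    (by decide +kernel)

theorem t3k31_r0_r1 : NC (f0 t3c31 (1 - eh) eh ek (elo t3c31.B0 t3c31.Bh eh) (elo t3c31.D0 t3c31.Dh ek) (elo t3c31.E0 t3c31.Eh ek)) :=
  NC.of (K := 151) (D := ⟨13, 9, 1, 1⟩) (Box.of 4 (by decide +kernel))
    (by decide +kernel)

theorem t3k31_r0_r2 : NC (f0 t3c31 eh (1 - eh) ek (ehi t3c31.Bh t3c31.B1 (1 - eh)) (elo t3c31.D0 t3c31.Dh ek) (elo t3c31.E0 t3c31.Eh ek)) :=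
  NC.of (K := 151) (D := ⟨13, 9, 1, 1⟩) (Box.of 4 (by decide +kernel))
    (by decide +kernel)

theorem t3k31_r0_r3 : NC (f0 t3c31 (1 - eh) ek eh (elo t3c31.B0 t3c31.Bh ek) (elo t3c31.D0 t3c31.Dh eh) (elo t3c31.E0 t3c31.Eh eh)) :=
  NC.of (K := 146) (D := ⟨13, 5, 1, 1⟩) (Box.of 4 (by decide +kernel))
    (by decide +kernel)

theorem t3k31_r0_r4 : NC (f0 t3c31 eh ek (1 - eh) (elo t3c31.B0 t3c31.Bh ek) (ehi t3c31.Dh t3c31.D1 (1 - eh)) (ehi t3c31.Eh t3c31.E1 (1 - eh))) :=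
  NC.of (K := 151) (D := ⟨13, 5, 1, 1⟩) (Box.of 4 (by decide +kernel))
    (by decide +kernel)

theorem t3k31_r1_r1 : NC (f1 t3c31 (1 - eh) eh ek (elo t3c31.B0 t3c31.Bh eh) (elo t3c31.D0 t3c31.Dh ek) (elo t3c31.E0 t3c31.Eh ek)) :=
  NC.of (K := 233) (D := ⟨16, 9, 1, 1⟩) (Box.of 4 (by decide +kernel))
    (by decide +kernel)

theorem t3k31_r1_r2 : NC (f1 t3c31 eh (1 - eh) ek (ehi t3c31.Bh t3c31.B1 (1 - eh)) (elo t3c31.D0 t3c31.Dh ek) (elo t3c31.E0 t3c31.Eh ek)) :=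
  NC.of (K := 232) (D := ⟨16, 9, 1, 1⟩) (Box.of 4 (by decide +kernel))
    (by decide +kernel)

theorem t3k31_r1_r3 : NC (f1 t3c31 (1 - eh) ek eh (elo t3c31.B0 t3c31.Bh ek) (elo t3c31.D0 t3c31.Dh eh) (elo t3c31.E0 t3c31.Eh eh)) :=
  NC.of (K := 236) (D := ⟨16, 12, 1, 1⟩) (Box.of 4 (by decide +kernel))
    (by decide +kernel)

theorem t3k31_r1_r4 : NC (f1 t3c31 eh ek (1 - eh) (elo t3c31.B0 t3c31.Bh ek) (ehi t3c31.Dh t3c31.D1 (1 - eh)) (ehi t3c31.Eh t3c31.E1 (1 - eh))) :=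
  NC.of (K := 237) (D := ⟨16, 12, 1, 1⟩) (Box.of 4 (by decide +kernel))
    (by decide +kernel)

theorem t3k31_r2_r1 : NC (f2 t3c31 (1 - eh) eh ek (elo t3c31.B0 t3c31.Bh eh) (elo t3c31.D0 t3c31.Dh ek) (elo t3c31.E0 t3c31.Eh ek)) :=
  NC.of (K := 263) (D := ⟨16, 11, 1, 1⟩) (Box.of 288 (by decide +kernel))
    (by decide +kernel)

theorem t3k31_r2_r2 : NC (f2 t3c31 eh (1 - eh) ek (ehi t3c31.Bh t3c31.B1 (1 - eh)) (elo t3c31.D0 t3c31.Dh ek) (elo t3c31.E0 t3c31.Eh ek)) :=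
  NC.of (K := 235) (D := ⟨16, 11, 1, 1⟩) (Box.of 4 (by decide +kernel))
    (by decide +kernel)

theorem t3k31_r2_r3 : NC (f2 t3c31 (1 - eh) ek eh (elo t3c31.B0 t3c31.Bh ek) (elo t3c31.D0 t3c31.Dh eh) (elo t3c31.E0 t3c31.Eh eh)) :=
  NC.of (K := 264) (D := ⟨16, 12, 1, 1⟩) (Box.of 288 (by decide +kernel))
    (by decide +kernel)

theorem t3k31_r2_r4 : NC (f2 t3c31 eh ek (1 - eh) (elo t3c31.B0 t3c31.Bh ek) (ehi t3c31.Dh t3c31.D1 (1 - eh)) (ehi t3c31.Eh t3c31.E1 (1 - eh))) :=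
  NC.of (K := 238) (D := ⟨16, 12, 1, 1⟩) (Box.of 4 (by decide +kernel))
    (by decide +kernel)

theorem t3k31_rc_r1 : NC (fc t3c31 (1 - eh) eh ek (elo t3c31.B0 t3c31.Bh eh) (elo t3c31.D0 t3c31.Dh ek) (elo t3c31.E0 t3c31.Eh ek)) :=
  NC.of (K := 150) (D := ⟨13, 9, 1, 1⟩) (Box.of 4 (by decide +kernel))
    (by decide +kernel)

theorem t3k31_rc_r2 : NC (fc t3c31 eh (1 - eh) ek (ehi t3c31.Bh t3c31.B1 (1 - eh)) (elo t3c31.D0 t3c31.Dh ek) (elo t3c31.E0 t3c31.Eh ek)) :=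
  NC.of (K := 150) (D := ⟨13, 9, 1, 1⟩) (Box.of 4 (by decide +kernel))
    (by decide +kernel)

theorem t3k31_rc_r3 : NC (fc t3c31 (1 - eh) ek eh (elo t3c31.B0 t3c31.Bh ek) (elo t3c31.D0 t3c31.Dh eh) (elo t3c31.E0 t3c31.Eh eh)) :=
  NC.of (K := 146) (D := ⟨13, 5, 1, 1⟩) (Box.of 4 (by decide +kernel))
    (by decide +kernel)

theorem t3k31_rc_r4 : NC (fc t3c31 eh ek (1 - eh) (elo t3c31.B0 t3c31.Bh ek) (ehi t3c31.Dh t3c31.D1 (1 - eh)) (ehi t3c31.Eh t3c31.E1 (1 - eh))) :=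
  NC.of (K := 151) (D := ⟨13, 5, 1, 1⟩) (Box.of 4 (by decide +kernel))
    (by decide +kernel)

theorem t3k31_rI_r1 : NC (fI t3c31 (1 - eh) eh ek (elo t3c31.B0 t3c31.Bh eh) (elo t3c31.D0 t3c31.Dh ek) (elo t3c31.E0 t3c31.Eh ek)) :=
  NC.of (K := 134) (D := ⟨13, 9, 1, 1⟩) (Box.of 4 (by decide +kernel))
    (by decide +kernel)

theorem t3k31_rI_r2 : NC (fI t3c31 eh (1 - eh) ek (ehi t3c31.Bh t3c31.B1 (1 - eh)) (elo t3c31.D0 t3c31.Dh ek) (elo t3c31.E0 t3c31.Eh ek)) :=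
  NC.of (K := 134) (D := ⟨13, 9, 1, 1⟩) (Box.of 4 (by decide +kernel))
    (by decide +kernel)

theorem t3k31_rI_r3 : NC (fI t3c31 (1 - eh) ek eh (elo t3c31.B0 t3c31.Bh ek) (elo t3c31.D0 t3c31.Dh eh) (elo t3c31.E0 t3c31.Eh eh)) :=
  NC.of (K := 129) (D := ⟨13, 5, 1, 1⟩) (Box.of 4 (by decide +kernel))
    (by decide +kernel)

theorem t3k31_rI_r4 : NC (fI t3c31 eh ek (1 - eh) (elo t3c31.B0 t3c31.Bh ek) (ehi t3c31.Dh t3c31.D1 (1 - eh)) (ehi t3c31.Eh t3c31.E1 (1 - eh))) :=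
  NC.of (K := 135) (D := ⟨13, 5, 1, 1⟩) (Box.of 4 (by decide +kernel))
    (by decide +kernel)

theorem t3k31_rJ_r1 : NC (fJ t3c31 (1 - eh) eh ek (elo t3c31.B0 t3c31.Bh eh) (elo t3c31.D0 t3c31.Dh ek) (elo t3c31.E0 t3c31.Eh ek)) :=
  NC.of (K := 78) (D := ⟨7, 5, 1, 1⟩) (Box.of 4 (by decide +kernel))
    (by decide +kernel)

theorem t3k31_rJ_r2 : NC (fJ t3c31 eh (1 - eh) ek (ehi t3c31.Bh t3c31.B1 (1 - eh)) (elo t3c31.D0 t3c31.Dh ek) (elo t3c31.E0 t3c31.Eh ek)) :=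
  NC.of (K := 78) (D := ⟨7, 5, 1, 1⟩) (Box.of 4 (by decide +kernel))
    (by decide +kernel)

theorem t3k31_rJ_r3 : NC (fJ t3c31 (1 - eh) ek eh (elo t3c31.B0 t3c31.Bh ek) (elo t3c31.D0 t3c31.Dh eh) (elo t3c31.E0 t3c31.Eh eh)) :=
  NC.of (K := 75) (D := ⟨7, 3, 1, 1⟩) (Box.of 4 (by decide +kernel))
    (by decide +kernel)

theorem t3k31_rJ_r4 : NC (fJ t3c31 eh ek (1 - eh) (elo t3c31.B0 t3c31.Bh ek) (ehi t3c31.Dh t3c31.D1 (1 - eh)) (ehi t3c31.Eh t3c31.E1 (1 - eh))) :=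
  NC.of (K := 77) (D := ⟨7, 3, 1, 1⟩) (Box.of 4 (by decide +kernel))
    (by decide +kernel)

theorem t3k31_gE_r1 : NC (fE t3c31 t3e31 (1 - eh) eh ek (elo t3c31.B0 t3c31.Bh eh) (elo t3c31.D0 t3c31.Dh ek) (elo t3c31.E0 t3c31.Eh ek)) :=
  NC.of (K := 180) (D := ⟨13, 9, 1, 1⟩) (Box.of 18688 (by decide +kernel))
    (by decide +kernel)

theorem t3k31_gE_r2 : NC (fE t3c31 t3e31 eh (1 - eh) ek (ehi t3c31.Bh t3c31.B1 (1 - eh)) (elo t3c31.D0 t3c31.Dh ek) (elo t3c31.E0 t3c31.Eh ek)) :=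
  NC.of (K := 136) (D := ⟨13, 9, 1, 1⟩) (Box.of 4 (by decide +kernel))
    (by decide +kernel)

theorem t3k31_gE_r3 : NC (fE t3c31 t3e31 (1 - eh) ek eh (elo t3c31.B0 t3c31.Bh ek) (elo t3c31.D0 t3c31.Dh eh) (elo t3c31.E0 t3c31.Eh eh)) :=
  NC.of (K := 178) (D := ⟨13, 7, 1, 1⟩) (Box.of 18688 (by decide +kernel))
    (by decide +kernel)

theorem t3k31_gE_r4 : NC (fE t3c31 t3e31 eh ek (1 - eh) (elo t3c31.B0 t3c31.Bh ek) (ehi t3c31.Dh t3c31.D1 (1 - eh)) (ehi t3c31.Eh t3c31.E1 (1 - eh))) :=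
  NC.of (K := 139) (D := ⟨13, 7, 1, 1⟩) (Box.of 4 (by decide +kernel))
    (by decide +kernel)

theorem t3k31_B0 : NC (kB dW 1 0 t3c31.B0 (tcl t3c31)) :=
  NC.of (K := 102) (D := ⟨1, 1, 1, 9⟩) (Box.of 4 (by decide +kernel))
    (by decide +kernel)

theorem t3k31_E0 : NC (kE dW qW qW.p0 qW.q0 t3c31.E0 (tcl t3c31)) :=
  NC.of (K := 226) (D := ⟨1, 1, 1, 19⟩) (Box.of 4 (by decide +kernel))
    (by decide +kernel)

theorem t3k31_D0 : NC (kD dW qW 1 0 qW.p0 qW.q0 t3c31.D0 (tcl t3c31)) :=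
  NC.of (K := 343) (D := ⟨1, 1, 1, 20⟩) (Box.of 4 (by decide +kernel))
    (by decide +kernel)

theorem t3k31_Bh : NC (kB dW (1 / 2) (1 / 2) t3c31.Bh (tcl t3c31)) :=
  NC.of (K := 105) (D := ⟨1, 1, 1, 9⟩) (Box.of 4 (by decide +kernel))
    (by decide +kernel)

theorem t3k31_Eh : NC (kE dW qW qW.ph qW.qh t3c31.Eh (tcl t3c31)) :=
  NC.of (K := 230) (D := ⟨1, 1, 1, 19⟩) (Box.of 4 (by decide +kernel))
    (by decide +kernel)

theorem t3k31_Dh : NC (kD dW qW (1 / 2) (1 / 2) qW.ph qW.qh t3c31.Dh (tcl t3c31)) :=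
  NC.of (K := 347) (D := ⟨1, 1, 1, 20⟩) (Box.of 4 (by decide +kernel))
    (by decide +kernel)

theorem t3k31_B1 : NC (kB dW 0 (1 / 2) t3c31.B1 (tcl t3c31)) :=
  NC.of (K := 105) (D := ⟨1, 1, 1, 9⟩) (Box.of 4 (by decide +kernel))
    (by decide +kernel)

theorem t3k31_E1 : NC (kE dW qW qW.p1 qW.q1 t3c31.E1 (tcl t3c31)) :=
  NC.of (K := 229) (D := ⟨1, 1, 1, 19⟩) (Box.of 4 (by decide +kernel))
    (by decide +kernel)

theorem t3k31_D1 : NC (kD dW qW 0 (1 / 2) qW.p1 qW.q1 t3c31.D1 (tcl t3c31)) :=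
  NC.of (K := 347) (D := ⟨1, 1, 1, 20⟩) (Box.of 4 (by decide +kernel))
    (by decide +kernel)

theorem t3k31_l : NC (qc t3n31.lb - (1 - vX) * pe (exl t3c31.th) vX ^ 2) :=
  NC.of (K := 118) (D := ⟨10, 1, 1, 1⟩) (Box.of 4 (by decide +kernel))
    (by decide +kernel)

theorem t3k31_n : NC (qc t3n31.nb - vX * (1 - vX) * pe (exl t3c31.th) vX) :=
  NC.of (K := 112) (D := ⟨7, 1, 1, 1⟩) (Box.of 76677152 (by decide +kernel))
    (by decide +kernel)

theorem t3k31_rb : NC (krb t3n31 fW (t1v t3c31)) :=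
  NC.of (K := 187) (D := ⟨1, 1, 1, 16⟩) (Box.of 4 (by decide +kernel))
    (by decide +kernel)

theorem t3k31_kap : NC (kkap dW qW t3n31 (tcl t3c31)) :=
  NC.of (K := 102) (D := ⟨1, 1, 1, 9⟩) (Box.of 4 (by decide +kernel))
    (by decide +kernel)

theorem t3k31_wb2 : NC (qc t3n31.b2 - pe2 kW.QB (vZ * t1v t3c31) (t1v t3c31)) :=
  NC.of (K := 165) (D := ⟨1, 6, 1, 11⟩) (Box.of 1186075 (by decide +kernel))
    (by decide +kernel)

theorem t3k31_wmb : NC (qc t3n31.Mb - pe zW.mb (t1v t3c31)) :=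
  NC.of (K := 115) (D := ⟨1, 1, 1, 9⟩) (Box.of 291 (by decide +kernel))
    (by decide +kernel)

theorem t3k31_wth : NC (qc (t3c31.th / t3c31.t1) - pe2 zW.Qt (vZ * t1v t3c31) (t1v t3c31)) :=
  NC.of (K := 150) (D := ⟨1, 6, 1, 11⟩) (Box.of 291 (by decide +kernel))
    (by decide +kernel)

theorem t3k31_wyb : NC (qc t3n31.Yb - (t1v t3c31 - vZ * t1v t3c31) ^ 3 * pe2 yW.QY (vZ * t1v t3c31) (t1v t3c31)) :=
  NC.of (K := 131) (D := ⟨1, 8, 1, 12⟩) (Box.of 4 (by decide +kernel))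
    (by decide +kernel)

theorem t3k31_wmu : NC (qc t3m31 - pe t3al (tcl t3c31) * (1 + hlf * tcl t3c31)) :=
  NC.of (K := 98) (D := ⟨1, 1, 1, 9⟩) (Box.of 4 (by decide +kernel))
    (by decide +kernel)

theorem t3k31_wcj : NC (qc t3c31.C * ((6 - 3 * vX) * (1 - qc t3m31 * vX)) - (6 - 6 * vX + vX ^ 2)) :=
  NC.of (K := 33) (D := ⟨3, 1, 1, 1⟩) (Box.of 4 (by decide +kernel))
    (by decide +kernel)

theorem t3k31_nd1 : NC (pe t3r31.d1 (t1v t3c31)) :=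
  NC.of (K := 70) (D := ⟨1, 1, 1, 7⟩) (Box.of 4 (by decide +kernel))
    (by decide +kernel)

theorem t3k31_nd2 : NC (pe t3r31.d2 (t1v t3c31)) :=
  NC.of (K := 71) (D := ⟨1, 1, 1, 7⟩) (Box.of 4 (by decide +kernel))
    (by decide +kernel)

theorem t3k31_ndy : NC (pe t3r31.dy (t1v t3c31)) :=
  NC.of (K := 76) (D := ⟨1, 1, 1, 7⟩) (Box.of 4 (by decide +kernel))
    (by decide +kernel)

theorem t3k31_nt1 : NC (pe t3r31.t1 (t1v t3c31)) :=
  NC.of (K := 72) (D := ⟨1, 1, 1, 7⟩) (Box.of 4 (by decide +kernel))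
    (by decide +kernel)

theorem t3k31_nt2 : NC (pe t3r31.t2 (t1v t3c31)) :=
  NC.of (K := 74) (D := ⟨1, 1, 1, 7⟩) (Box.of 4 (by decide +kernel))
    (by decide +kernel)

theorem t3k31_nty : NC (pe t3r31.ty (t1v t3c31)) :=
  NC.of (K := 73) (D := ⟨1, 1, 1, 7⟩) (Box.of 4 (by decide +kernel))
    (by decide +kernel)

theorem t3k31_nhz : NC (pe t3r31.hz (t1v t3c31)) :=
  NC.of (K := 102) (D := ⟨1, 1, 1, 7⟩) (Box.of 18659 (by decide +kernel))
    (by decide +kernel)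

theorem t3k31_xi : NC (eXi fW t3c31 t3e31 t3r31 (t1v t3c31)) :=
  NC.of (K := 310) (D := ⟨1, 1, 1, 22⟩) (Box.of 4 (by decide +kernel))
    (by decide +kernel)

theorem t3k31_om : NC (eOm fW t3r31 (t1v t3c31)) :=
  NC.of (K := 178) (D := ⟨1, 1, 1, 16⟩) (Box.of 4 (by decide +kernel))
    (by decide +kernel)

theorem t3k31_fin : NC (eFin dW t3c31 t3n31 t3r31 t3h31 (tcl t3c31)) :=
  NC.of (K := 228) (D := ⟨1, 1, 1, 14⟩) (Box.of 4 (by decide +kernel))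
    (by decide +kernel)

theorem t3k31_xdl : NC (qc t3e31.dl - pe t3d31.l.dl t3d31.eU) :=
  NC.of (K := 73) (D := ⟨1, 4, 1, 1⟩) (Box.of 4 (by decide +kernel))
    (by decide +kernel)

theorem t3k31_xeY : NC (qc t3e31.eY - pe (e4l t3d31.l.z) t3d31.eU) :=
  NC.of (K := 288) (D := ⟨1, 13, 1, 1⟩) (Box.of 4 (by decide +kernel))
    (by decide +kernel)

theorem t3k31_xgr : NC (qc t3d31.ga * ((1 + qc (3 / 5) * vX) * (1 + (t3d31.eg + hlf * t3d31.eg ^ 2))) + qc t3d31.gb - pe2 t3GR vX t3d31.eU) :=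
  NC.of (K := 262) (D := ⟨4, 11, 1, 1⟩) (Box.of 1198080 (by decide +kernel))
    (by decide +kernel)

theorem t3k31_xhr : NC (qc t3d31.hb - pe2 t3HR vX t3d31.eU) :=
  NC.of (K := 264) (D := ⟨3, 12, 1, 1⟩) (Box.of 4 (by decide +kernel))
    (by decide +kernel)

theorem t3k31_xgs : NC (pe t3d31.gs t3d31.e1 - qc (8 / 5) * pe (e4l (ladd t3d31.ls.z t3d31.ls.dl)) t3d31.e1) :=
  NC.of (K := 296) (D := ⟨1, 1, 1, 13⟩) (Box.of 4 (by decide +kernel))
    (by decide +kernel)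

theorem t3k31_xd1 : NC (pe t3d31.d1 t3d31.e1 - t3d31.eA t3d31.eU t3d31.e1) :=
  NC.of (K := 287) (D := ⟨1, 12, 1, 12⟩) (Box.of 4 (by decide +kernel))
    (by decide +kernel)

theorem t3k31_xd2 : NC (pe t3d31.d2 t3d31.e1 - t3d31.eB t3d31.eU t3d31.e1) :=
  NC.of (K := 289) (D := ⟨1, 12, 1, 12⟩) (Box.of 4 (by decide +kernel))
    (by decide +kernel)

theorem t3k31_xt1 : NC (pe t3d31.t1 t3d31.e1 - t3d31.eAT t3d31.eU t3d31.e1) :=
  NC.of (K := 471) (D := ⟨1, 19, 1, 19⟩) (Box.of 4 (by decide +kernel))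
    (by decide +kernel)

theorem t3k31_xt2 : NC (pe t3d31.t2 t3d31.e1 - t3d31.eBT t3d31.eU t3d31.e1) :=
  NC.of (K := 474) (D := ⟨1, 19, 1, 19⟩) (Box.of 4 (by decide +kernel))
    (by decide +kernel)

theorem t3k31_xdy : NC (pe t3d31.dy t3d31.e1 - t3d31.eSD t3d31.eU t3d31.e1) :=
  NC.of (K := 447) (D := ⟨1, 18, 1, 12⟩) (Box.of 4 (by decide +kernel))
    (by decide +kernel)

theorem t3k31_xty : NC (pe t3d31.ty t3d31.e1 - t3d31.eST t3d31.eU t3d31.e1) :=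
  NC.of (K := 670) (D := ⟨1, 26, 1, 26⟩) (Box.of 4 (by decide +kernel))
    (by decide +kernel)

theorem t3k31_xd1s : NC (pe t3r31.d1 (t1v t3c31) - pe t3d31.d1 (Xcd.ew zW t3c31)) :=
  NC.of (K := 650) (D := ⟨1, 1, 1, 55⟩) (Box.of 4 (by decide +kernel))
    (by decide +kernel)

theorem t3k31_xd2s : NC (pe t3r31.d2 (t1v t3c31) - pe t3d31.d2 (Xcd.ew zW t3c31)) :=
  NC.of (K := 653) (D := ⟨1, 1, 1, 55⟩) (Box.of 4 (by decide +kernel))
    (by decide +kernel)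

theorem t3k31_xt1s : NC (pe t3r31.t1 (t1v t3c31) - pe t3d31.t1 (Xcd.ew zW t3c31)) :=
  NC.of (K := 658) (D := ⟨1, 1, 1, 55⟩) (Box.of 4 (by decide +kernel))
    (by decide +kernel)

theorem t3k31_xt2s : NC (pe t3r31.t2 (t1v t3c31) - pe t3d31.t2 (Xcd.ew zW t3c31)) :=
  NC.of (K := 652) (D := ⟨1, 1, 1, 55⟩) (Box.of 4 (by decide +kernel))
    (by decide +kernel)

theorem t3k31_xdys : NC (pe t3r31.dy (t1v t3c31) - pe t3d31.dy (Xcd.ew zW t3c31)) :=
  NC.of (K := 654) (D := ⟨1, 1, 1, 55⟩) (Box.of 4 (by decide +kernel))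
    (by decide +kernel)

theorem t3k31_xtys : NC (pe t3r31.ty (t1v t3c31) - pe t3d31.ty (Xcd.ew zW t3c31)) :=
  NC.of (K := 655) (D := ⟨1, 1, 1, 55⟩) (Box.of 4 (by decide +kernel))
    (by decide +kernel)

theorem t3k31_xhz : NC (pe t3r31.hz (t1v t3c31) - pe t3d31.c.dR (Xcd.ew zW t3c31)) :=
  NC.of (K := 654) (D := ⟨1, 1, 1, 55⟩) (Box.of 4 (by decide +kernel))
    (by decide +kernel)

theorem t3f31_ok : t3f31.ok V2L.y14 V2L.k14 V2L.nb V2L.la (10 ^ 30) 32 = true := by decide +kernel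

theorem t3k31_sg : t3c31.Sg := by
  constructor <;> decide +kernel

theorem t3k31_rgs : t3c31.Rgs where
  M := ⟨t3k31_M_r1, t3k31_M_r2, t3k31_M_r3, t3k31_M_r4⟩
  r0 := ⟨t3k31_r0_r1, t3k31_r0_r2, t3k31_r0_r3, t3k31_r0_r4⟩
  r1 := ⟨t3k31_r1_r1, t3k31_r1_r2, t3k31_r1_r3, t3k31_r1_r4⟩
  r2 := ⟨t3k31_r2_r1, t3k31_r2_r2, t3k31_r2_r3, t3k31_r2_r4⟩
  rc := ⟨t3k31_rc_r1, t3k31_rc_r2, t3k31_rc_r3, t3k31_rc_r4⟩
  rI := ⟨t3k31_rI_r1, t3k31_rI_r2, t3k31_rI_r3, t3k31_rI_r4⟩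
  rJ := ⟨t3k31_rJ_r1, t3k31_rJ_r2, t3k31_rJ_r3, t3k31_rJ_r4⟩

theorem t3k31_xn : t3e31.Ok t3c31 where
  lm := by decide +kernel
  dl0 := by decide +kernel
  dl1 := by decide +kernel
  e2 := by decide +kernel
  eY := by decide +kernel
  gE := ⟨t3k31_gE_r1, t3k31_gE_r2, t3k31_gE_r3, t3k31_gE_r4⟩

theorem t3k31_vl : t3c31.Vl dW qW where
  bt := by decide +kernel
  B0 := t3k31_B0
  E0 := t3k31_E0
  D0 := t3k31_D0
  Bh := t3k31_Bh
  Eh := t3k31_Eh
  Dh := t3k31_Dh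
  B1 := t3k31_B1
  E1 := t3k31_E1
  D1 := t3k31_D1

theorem t3k31_rat : t3n31.Rat t3c31 := by
  constructor <;> decide +kernel

theorem t3k31_ck : t3n31.Ck t3c31 := ⟨t3k31_l, t3k31_n⟩

theorem t3k31_fck : t3n31.Fck dW qW fW t3c31 := ⟨t3k31_rb, t3k31_kap⟩

theorem t3k31_w : Wcl zW kW yW t3al t3c31 t3n31 t3m31 where
  b2 := t3k31_wb2
  mb := t3k31_wmb
  th := t3k31_wth
  yb := t3k31_wyb
  mu := t3k31_wmu
  cj := t3k31_wcj
  mt1 := by decide +kernel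
  mt2 := by decide +kernel

theorem t3k31_ok : CelOk dW qW fW t3c31 t3n31 where
  s := t3k31_sg
  r := t3k31_rgs
  v := t3k31_vl
  rt := t3k31_rat
  k := t3k31_ck
  fc := t3k31_fck
  q01 := by decide +kernel
  q12 := by decide +kernel
  h2 := by decide +kernel

theorem t3k31_xr : t3r31.Ok fW t3c31 t3e31 where
  sD := by decide +kernel
  sT := by decide +kernel
  nd1 := t3k31_nd1
  nd2 := t3k31_nd2
  ndy := t3k31_ndy
  nt1 := t3k31_nt1
  nt2 := t3k31_nt2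
  nty := t3k31_nty
  nhz := t3k31_nhz
  xi := t3k31_xi
  om := t3k31_om

theorem t3k31_X : t3d31.Ck t3GR t3HR zW t3c31 t3e31 t3r31 where
  u0 := by decide +kernel
  u01 := by decide +kernel
  ul := by decide +kernel
  us := by decide +kernel
  uc := by decide +kernel
  ga0 := by decide +kernel
  kp0 := by decide +kernel
  lm := by decide +kernel
  dl := t3k31_xdl
  eY := t3k31_xeY
  gr := t3k31_xgr
  hr := t3k31_xhr
  gs := t3k31_xgs
  d1 := t3k31_xd1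
  d2 := t3k31_xd2
  t1 := t3k31_xt1
  t2 := t3k31_xt2
  dy := t3k31_xdy
  ty := t3k31_xty
  d1s := t3k31_xd1s
  d2s := t3k31_xd2s
  t1s := t3k31_xt1s
  t2s := t3k31_xt2s
  dys := t3k31_xdys
  tys := t3k31_xtys
  hz := t3k31_xhz

end Pool.Agent.RX.RCN.K
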