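import Pool.Agent.RX.RCN.T3D
import Pool.Agent.RX.RCN.T3Wq
import Pool.Agent.RX.RCN.T3X15
import Pool.Agent.RX.RCN.VLd

/-! Certificates (generated). -/

set_option autoImplicit false

namespace Pool.Agent.RX.RCN.K

open Set Pool.Agent.RX.RCM9 Pool.Agent.RX.RCM9.Bern Pool.Agent.RX.RCM9.Pk Xce

def t3c32 : Cel where
  t0 := 47 / 100
  t1 := 19 / 40
  C := 4097 / 4096
  th := 989 / 2048
  B0 := 535 / 512
  Bh := 1219 / 1024
  B1 := 1197 / 1024
  D0 := 1465 / 4096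
  Dh := 1221 / 4096
  D1 := 1169 / 4096
  E0 := 41949 / 4194304
  Eh := 36185 / 4194304
  E1 := 34643 / 4194304
  Q0 := 1073 / 1024
  Q1 := 1073 / 1024
  Q2 := 283 / 256
  Ac := 1073 / 1024
  gI := 537 / 512
  J := 139 / 8192

def t3n32 : Chn where
  lb := 513 / 512
  nb := 83 / 256
  Mb := 261 / 256
  b2 := 521 / 512
  Yb := 55 / 4096
  E2 := 263 / 256
  e1 := 1339 / 1024
  Z1 := 559 / 512
  Z2 := 637 / 1024
  KB := 533 / 512
  cb := 17 / 16
  rb := 403 / 1024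
  om := 263 / 256
  fb := 129 / 128
  kap := 4203 / 4096
  ab := 1029 / 1024

def t3e32 : Xge where
  lm := 3 / 5
  dl := 1897 / 4096
  e2 := 517 / 4096
  eY := 4155 / 4096
  gE := 1181 / 1024

def t3r32 : Xr where
  d1 := [3202397 / 100000000, 76393 / 12500000, 347621 / 10000000, 492349 / 100000000, 8733283 /
    50000000, -17230243 / 50000000, 7645067 / 25000000]
  d2 := [79071 / 50000000, 686103 / 20000000, 8282701 / 100000000, 18293417 / 100000000, 66679 /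
    100000000, -22394597 / 50000000, 25115529 / 50000000]
  dy := [34098137 / 100000000, 12916389 / 100000000, 9454641 / 25000000, 51979423 / 50000000,
    -78047393 / 100000000, -125966681 / 100000000, 189776053 / 100000000]
  t1 := [8203313 / 50000000, -46180331 / 100000000, 24831861 / 100000000, 25646729 / 100000000,
    151414161 / 100000000, -107283307 / 25000000, 50142167 / 12500000]
  t2 := [4963639 / 100000000, -12708111 / 100000000, 779797 / 10000000, 29159949 / 50000000,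
    -33414441 / 100000000, -12443383 / 50000000, 8363509 / 20000000]
  ty := [68620959 / 50000000, -415946691 / 100000000, 15721739 / 12500000, 2030534039 / 100000000,
    -713460413 / 20000000, 2232577657 / 100000000, -123294463 / 50000000]
  hz := [3586427 / 20000000, -1867799 / 6250000, -147705147 / 50000000, 43794321 / 4000000,
    -350236127 / 12500000, 7170842433 / 100000000, -3696431373 / 50000000]
  om := [50198351 / 50000000, 20514991 / 20000000, -700734891 / 50000000, 5772797293 / 100000000,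
    -959342093 / 6250000, 4924900677 / 12500000, -4199008341 / 5000000, 109006552447 /
    100000000, -30901123371 / 50000000]
  sD := 313 / 128
  sT := 35 / 16
  xi := [6260561 / 50000000, 89350347 / 100000000, -71433191 / 20000000, 20709157 / 100000000,
    1466443609 / 50000000, -1271854551 / 12500000, 28547378619 / 100000000, -29308393659 /
    50000000, 289027947 / 400000, -41478658871 / 100000000]

def t3f32 : Dl where
  Ca := 4718949 / 10000000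
  Cv := 476983 / 1000000
  k1 := 9130081 / 10000000
  ks := 223297 / 250000
  dd := 0
  kp := 1 / 10000000
  e := [999999697797 / 1000000000000, -700276836199 / 500000000000, 1530814595211 / 1000000000000,
    -744115191161 / 500000000000, 1368460655869 / 1000000000000, -116730724749 / 100000000000,
    872876761119 / 1000000000000, -24521096023 / 50000000000, 14533190651 / 100000000000]
  j1 := [-1144611 / 500000000, -7753140847 / 1000000000, 914901857 / 12500000, -162683380989 /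
    500000000, 167189765801 / 200000000, -628545774307 / 500000000, 128621115909 / 125000000,
    -17825259351 / 50000000]
  nu := [28237231 / 250000000, -61216943 / 250000000, 194599439 / 500000000, -15290939 /
    1000000000, 43346099 / 1000000000, 390916893 / 1000000000, -61844977 / 200000000]
  k2 := [893189439 / 1000000000, 21876577 / 100000000, -40112583 / 125000000, -2864183 / 40000000,
    1059109 / 25000000, -53828081 / 125000000, 188026879 / 500000000]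
  dR := [17896339 / 100000000, -29939953 / 100000000, -144853711 / 50000000, 52356229 / 5000000,
    -520705703 / 20000000, 1683369353 / 25000000, -7012843541 / 100000000]

def t3d32 : Xce where
  u0 := 236201 / 500000
  u1 := 476983 / 1000000
  l := V2L.y15
  y := t3z15
  j := t3j15
  i := t3i15
  ls := t3y15
  k := V2L.k15
  c := t3f32
  ga := 1997 / 62500
  gb := -14621 / 1000000
  hb := 166619 / 1000000
  gs := [32000651 / 20000000, 239999811 / 100000000, 45001549 / 25000000, 9940539 / 12500000,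
    5404511 / 20000000, -12948943 / 100000000, -2667287 / 50000000]
  d1 := [799983 / 25000000, 9653 / 1562500, 1602991 / 50000000, 98291 / 3125000, 111479 / 2500000,
    -5618791 / 100000000, 3274271 / 50000000]
  d2 := [77677 / 50000000, 1720147 / 50000000, 3817037 / 50000000, 491271 / 2000000, -15591409 /
    50000000, 25579111 / 100000000, -2218401 / 25000000]
  dy := [34069679 / 100000000, 12959363 / 100000000, 35152181 / 100000000, 129248921 / 100000000,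
    -40923833 / 20000000, 10041357 / 6250000, -51704461 / 100000000]
  t1 := [2049739 / 12500000, -574903 / 1250000, 2939293 / 12500000, 7249641 / 20000000, 103311753
    / 100000000, -330466717 / 100000000, 16220171 / 5000000]
  t2 := [992157 / 20000000, -3160313 / 25000000, 1739407 / 25000000, 66023221 / 100000000,
    -35893497 / 50000000, 7469629 / 12500000, -27723173 / 100000000]
  ty := [34292789 / 25000000, -207222433 / 50000000, 119316443 / 100000000, 103278391 / 5000000,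
    -3758329909 / 100000000, 33500881 / 1250000, -617640451 / 100000000]

def t3m32 : ℚ := 235 / 512

def t3h32 : ℚ := 51 / 100

theorem t3k32_M_r1 : NC (fM t3c32 (1 - eh) eh ek (elo t3c32.B0 t3c32.Bh eh) (elo t3c32.D0 t3c32.Dh ek) (elo t3c32.E0 t3c32.Eh ek)) :=
  NC.of (K := 32) (D := ⟨4, 3, 1, 1⟩) (Box.of 4 (by decide +kernel))
    (by decide +kernel)

theorem t3k32_M_r2 : NC (fM t3c32 eh (1 - eh) ek (ehi t3c32.Bh t3c32.B1 (1 - eh)) (elo t3c32.D0 t3c32.Dh ek) (elo t3c32.E0 t3c32.Eh ek)) :=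
  NC.of (K := 32) (D := ⟨4, 3, 1, 1⟩) (Box.of 4 (by decide +kernel))
    (by decide +kernel)

theorem t3k32_M_r3 : NC (fM t3c32 (1 - eh) ek eh (elo t3c32.B0 t3c32.Bh ek) (elo t3c32.D0 t3c32.Dh eh) (elo t3c32.E0 t3c32.Eh eh)) :=
  NC.of (K := 31) (D := ⟨4, 2, 1, 1⟩) (Box.of 4 (by decide +kernel))
    (by decide +kernel)

theorem t3k32_M_r4 : NC (fM t3c32 eh ek (1 - eh) (elo t3c32.B0 t3c32.Bh ek) (ehi t3c32.Dh t3c32.D1 (1 - eh)) (ehi t3c32.Eh t3c32.E1 (1 - eh))) :=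
  NC.of (K := 31) (D := ⟨4, 2, 1, 1⟩) (Box.of 4 (by decide +kernel))
    (by decide +kernel)

theorem t3k32_r0_r1 : NC (f0 t3c32 (1 - eh) eh ek (elo t3c32.B0 t3c32.Bh eh) (elo t3c32.D0 t3c32.Dh ek) (elo t3c32.E0 t3c32.Eh ek)) :=
  NC.of (K := 143) (D := ⟨13, 9, 1, 1⟩) (Box.of 4 (by decide +kernel))
    (by decide +kernel)

theorem t3k32_r0_r2 : NC (f0 t3c32 eh (1 - eh) ek (ehi t3c32.Bh t3c32.B1 (1 - eh)) (elo t3c32.D0 t3c32.Dh ek) (elo t3c32.E0 t3c32.Eh ek)) :=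
  NC.of (K := 143) (D := ⟨13, 9, 1, 1⟩) (Box.of 4 (by decide +kernel))
    (by decide +kernel)

theorem t3k32_r0_r3 : NC (f0 t3c32 (1 - eh) ek eh (elo t3c32.B0 t3c32.Bh ek) (elo t3c32.D0 t3c32.Dh eh) (elo t3c32.E0 t3c32.Eh eh)) :=
  NC.of (K := 139) (D := ⟨13, 5, 1, 1⟩) (Box.of 4 (by decide +kernel))
    (by decide +kernel)

theorem t3k32_r0_r4 : NC (f0 t3c32 eh ek (1 - eh) (elo t3c32.B0 t3c32.Bh ek) (ehi t3c32.Dh t3c32.D1 (1 - eh)) (ehi t3c32.Eh t3c32.E1 (1 - eh))) :=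
  NC.of (K := 140) (D := ⟨13, 5, 1, 1⟩) (Box.of 4 (by decide +kernel))
    (by decide +kernel)

theorem t3k32_r1_r1 : NC (f1 t3c32 (1 - eh) eh ek (elo t3c32.B0 t3c32.Bh eh) (elo t3c32.D0 t3c32.Dh ek) (elo t3c32.E0 t3c32.Eh ek)) :=
  NC.of (K := 219) (D := ⟨16, 9, 1, 1⟩) (Box.of 4 (by decide +kernel))
    (by decide +kernel)

theorem t3k32_r1_r2 : NC (f1 t3c32 eh (1 - eh) ek (ehi t3c32.Bh t3c32.B1 (1 - eh)) (elo t3c32.D0 t3c32.Dh ek) (elo t3c32.E0 t3c32.Eh ek)) :=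
  NC.of (K := 219) (D := ⟨16, 9, 1, 1⟩) (Box.of 4 (by decide +kernel))
    (by decide +kernel)

theorem t3k32_r1_r3 : NC (f1 t3c32 (1 - eh) ek eh (elo t3c32.B0 t3c32.Bh ek) (elo t3c32.D0 t3c32.Dh eh) (elo t3c32.E0 t3c32.Eh eh)) :=
  NC.of (K := 223) (D := ⟨16, 12, 1, 1⟩) (Box.of 4 (by decide +kernel))
    (by decide +kernel)

theorem t3k32_r1_r4 : NC (f1 t3c32 eh ek (1 - eh) (elo t3c32.B0 t3c32.Bh ek) (ehi t3c32.Dh t3c32.D1 (1 - eh)) (ehi t3c32.Eh t3c32.E1 (1 - eh))) :=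
  NC.of (K := 224) (D := ⟨16, 12, 1, 1⟩) (Box.of 4 (by decide +kernel))
    (by decide +kernel)

theorem t3k32_r2_r1 : NC (f2 t3c32 (1 - eh) eh ek (elo t3c32.B0 t3c32.Bh eh) (elo t3c32.D0 t3c32.Dh ek) (elo t3c32.E0 t3c32.Eh ek)) :=
  NC.of (K := 250) (D := ⟨16, 11, 1, 1⟩) (Box.of 288 (by decide +kernel))
    (by decide +kernel)

theorem t3k32_r2_r2 : NC (f2 t3c32 eh (1 - eh) ek (ehi t3c32.Bh t3c32.B1 (1 - eh)) (elo t3c32.D0 t3c32.Dh ek) (elo t3c32.E0 t3c32.Eh ek)) :=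
  NC.of (K := 221) (D := ⟨16, 11, 1, 1⟩) (Box.of 4 (by decide +kernel))
    (by decide +kernel)

theorem t3k32_r2_r3 : NC (f2 t3c32 (1 - eh) ek eh (elo t3c32.B0 t3c32.Bh ek) (elo t3c32.D0 t3c32.Dh eh) (elo t3c32.E0 t3c32.Eh eh)) :=
  NC.of (K := 251) (D := ⟨16, 12, 1, 1⟩) (Box.of 288 (by decide +kernel))
    (by decide +kernel)

theorem t3k32_r2_r4 : NC (f2 t3c32 eh ek (1 - eh) (elo t3c32.B0 t3c32.Bh ek) (ehi t3c32.Dh t3c32.D1 (1 - eh)) (ehi t3c32.Eh t3c32.E1 (1 - eh))) :=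
  NC.of (K := 225) (D := ⟨16, 12, 1, 1⟩) (Box.of 4 (by decide +kernel))
    (by decide +kernel)

theorem t3k32_rc_r1 : NC (fc t3c32 (1 - eh) eh ek (elo t3c32.B0 t3c32.Bh eh) (elo t3c32.D0 t3c32.Dh ek) (elo t3c32.E0 t3c32.Eh ek)) :=
  NC.of (K := 143) (D := ⟨13, 9, 1, 1⟩) (Box.of 4 (by decide +kernel))
    (by decide +kernel)

theorem t3k32_rc_r2 : NC (fc t3c32 eh (1 - eh) ek (ehi t3c32.Bh t3c32.B1 (1 - eh)) (elo t3c32.D0 t3c32.Dh ek) (elo t3c32.E0 t3c32.Eh ek)) :=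
  NC.of (K := 143) (D := ⟨13, 9, 1, 1⟩) (Box.of 4 (by decide +kernel))
    (by decide +kernel)

theorem t3k32_rc_r3 : NC (fc t3c32 (1 - eh) ek eh (elo t3c32.B0 t3c32.Bh ek) (elo t3c32.D0 t3c32.Dh eh) (elo t3c32.E0 t3c32.Eh eh)) :=
  NC.of (K := 138) (D := ⟨13, 5, 1, 1⟩) (Box.of 4 (by decide +kernel))
    (by decide +kernel)

theorem t3k32_rc_r4 : NC (fc t3c32 eh ek (1 - eh) (elo t3c32.B0 t3c32.Bh ek) (ehi t3c32.Dh t3c32.D1 (1 - eh)) (ehi t3c32.Eh t3c32.E1 (1 - eh))) :=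
  NC.of (K := 139) (D := ⟨13, 5, 1, 1⟩) (Box.of 4 (by decide +kernel))
    (by decide +kernel)

theorem t3k32_rI_r1 : NC (fI t3c32 (1 - eh) eh ek (elo t3c32.B0 t3c32.Bh eh) (elo t3c32.D0 t3c32.Dh ek) (elo t3c32.E0 t3c32.Eh ek)) :=
  NC.of (K := 127) (D := ⟨13, 9, 1, 1⟩) (Box.of 4 (by decide +kernel))
    (by decide +kernel)

theorem t3k32_rI_r2 : NC (fI t3c32 eh (1 - eh) ek (ehi t3c32.Bh t3c32.B1 (1 - eh)) (elo t3c32.D0 t3c32.Dh ek) (elo t3c32.E0 t3c32.Eh ek)) :=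
  NC.of (K := 127) (D := ⟨13, 9, 1, 1⟩) (Box.of 4 (by decide +kernel))
    (by decide +kernel)

theorem t3k32_rI_r3 : NC (fI t3c32 (1 - eh) ek eh (elo t3c32.B0 t3c32.Bh ek) (elo t3c32.D0 t3c32.Dh eh) (elo t3c32.E0 t3c32.Eh eh)) :=
  NC.of (K := 122) (D := ⟨13, 5, 1, 1⟩) (Box.of 4 (by decide +kernel))
    (by decide +kernel)

theorem t3k32_rI_r4 : NC (fI t3c32 eh ek (1 - eh) (elo t3c32.B0 t3c32.Bh ek) (ehi t3c32.Dh t3c32.D1 (1 - eh)) (ehi t3c32.Eh t3c32.E1 (1 - eh))) :=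
  NC.of (K := 123) (D := ⟨13, 5, 1, 1⟩) (Box.of 4 (by decide +kernel))
    (by decide +kernel)

theorem t3k32_rJ_r1 : NC (fJ t3c32 (1 - eh) eh ek (elo t3c32.B0 t3c32.Bh eh) (elo t3c32.D0 t3c32.Dh ek) (elo t3c32.E0 t3c32.Eh ek)) :=
  NC.of (K := 71) (D := ⟨7, 5, 1, 1⟩) (Box.of 4 (by decide +kernel))
    (by decide +kernel)

theorem t3k32_rJ_r2 : NC (fJ t3c32 eh (1 - eh) ek (ehi t3c32.Bh t3c32.B1 (1 - eh)) (elo t3c32.D0 t3c32.Dh ek) (elo t3c32.E0 t3c32.Eh ek)) :=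
  NC.of (K := 71) (D := ⟨7, 5, 1, 1⟩) (Box.of 4 (by decide +kernel))
    (by decide +kernel)

theorem t3k32_rJ_r3 : NC (fJ t3c32 (1 - eh) ek eh (elo t3c32.B0 t3c32.Bh ek) (elo t3c32.D0 t3c32.Dh eh) (elo t3c32.E0 t3c32.Eh eh)) :=
  NC.of (K := 68) (D := ⟨7, 3, 1, 1⟩) (Box.of 4 (by decide +kernel))
    (by decide +kernel)

theorem t3k32_rJ_r4 : NC (fJ t3c32 eh ek (1 - eh) (elo t3c32.B0 t3c32.Bh ek) (ehi t3c32.Dh t3c32.D1 (1 - eh)) (ehi t3c32.Eh t3c32.E1 (1 - eh))) :=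
  NC.of (K := 69) (D := ⟨7, 3, 1, 1⟩) (Box.of 4 (by decide +kernel))
    (by decide +kernel)

theorem t3k32_gE_r1 : NC (fE t3c32 t3e32 (1 - eh) eh ek (elo t3c32.B0 t3c32.Bh eh) (elo t3c32.D0 t3c32.Dh ek) (elo t3c32.E0 t3c32.Eh ek)) :=
  NC.of (K := 175) (D := ⟨13, 9, 1, 1⟩) (Box.of 18688 (by decide +kernel))
    (by decide +kernel)

theorem t3k32_gE_r2 : NC (fE t3c32 t3e32 eh (1 - eh) ek (ehi t3c32.Bh t3c32.B1 (1 - eh)) (elo t3c32.D0 t3c32.Dh ek) (elo t3c32.E0 t3c32.Eh ek)) :=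
  NC.of (K := 131) (D := ⟨13, 9, 1, 1⟩) (Box.of 4 (by decide +kernel))
    (by decide +kernel)

theorem t3k32_gE_r3 : NC (fE t3c32 t3e32 (1 - eh) ek eh (elo t3c32.B0 t3c32.Bh ek) (elo t3c32.D0 t3c32.Dh eh) (elo t3c32.E0 t3c32.Eh eh)) :=
  NC.of (K := 173) (D := ⟨13, 7, 1, 1⟩) (Box.of 18688 (by decide +kernel))
    (by decide +kernel)

theorem t3k32_gE_r4 : NC (fE t3c32 t3e32 eh ek (1 - eh) (elo t3c32.B0 t3c32.Bh ek) (ehi t3c32.Dh t3c32.D1 (1 - eh)) (ehi t3c32.Eh t3c32.E1 (1 - eh))) :=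
  NC.of (K := 129) (D := ⟨13, 7, 1, 1⟩) (Box.of 4 (by decide +kernel))
    (by decide +kernel)

theorem t3k32_B0 : NC (kB dW 1 0 t3c32.B0 (tcl t3c32)) :=
  NC.of (K := 102) (D := ⟨1, 1, 1, 9⟩) (Box.of 4 (by decide +kernel))
    (by decide +kernel)

theorem t3k32_E0 : NC (kE dW qW qW.p0 qW.q0 t3c32.E0 (tcl t3c32)) :=
  NC.of (K := 226) (D := ⟨1, 1, 1, 19⟩) (Box.of 4 (by decide +kernel))
    (by decide +kernel)

theorem t3k32_D0 : NC (kD dW qW 1 0 qW.p0 qW.q0 t3c32.D0 (tcl t3c32)) :=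
  NC.of (K := 343) (D := ⟨1, 1, 1, 20⟩) (Box.of 4 (by decide +kernel))
    (by decide +kernel)

theorem t3k32_Bh : NC (kB dW (1 / 2) (1 / 2) t3c32.Bh (tcl t3c32)) :=
  NC.of (K := 105) (D := ⟨1, 1, 1, 9⟩) (Box.of 4 (by decide +kernel))
    (by decide +kernel)

theorem t3k32_Eh : NC (kE dW qW qW.ph qW.qh t3c32.Eh (tcl t3c32)) :=
  NC.of (K := 230) (D := ⟨1, 1, 1, 19⟩) (Box.of 4 (by decide +kernel))
    (by decide +kernel)

theorem t3k32_Dh : NC (kD dW qW (1 / 2) (1 / 2) qW.ph qW.qh t3c32.Dh (tcl t3c32)) :=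
  NC.of (K := 347) (D := ⟨1, 1, 1, 20⟩) (Box.of 4 (by decide +kernel))
    (by decide +kernel)

theorem t3k32_B1 : NC (kB dW 0 (1 / 2) t3c32.B1 (tcl t3c32)) :=
  NC.of (K := 105) (D := ⟨1, 1, 1, 9⟩) (Box.of 4 (by decide +kernel))
    (by decide +kernel)

theorem t3k32_E1 : NC (kE dW qW qW.p1 qW.q1 t3c32.E1 (tcl t3c32)) :=
  NC.of (K := 230) (D := ⟨1, 1, 1, 19⟩) (Box.of 4 (by decide +kernel))
    (by decide +kernel)

theorem t3k32_D1 : NC (kD dW qW 0 (1 / 2) qW.p1 qW.q1 t3c32.D1 (tcl t3c32)) :=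
  NC.of (K := 347) (D := ⟨1, 1, 1, 20⟩) (Box.of 4 (by decide +kernel))
    (by decide +kernel)

theorem t3k32_l : NC (qc t3n32.lb - (1 - vX) * pe (exl t3c32.th) vX ^ 2) :=
  NC.of (K := 118) (D := ⟨10, 1, 1, 1⟩) (Box.of 4 (by decide +kernel))
    (by decide +kernel)

theorem t3k32_n : NC (qc t3n32.nb - vX * (1 - vX) * pe (exl t3c32.th) vX) :=
  NC.of (K := 100) (D := ⟨7, 1, 1, 1⟩) (Box.of 1196064 (by decide +kernel))
    (by decide +kernel)

theorem t3k32_rb : NC (krb t3n32 fW (t1v t3c32)) :=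
  NC.of (K := 167) (D := ⟨1, 1, 1, 16⟩) (Box.of 4 (by decide +kernel))
    (by decide +kernel)

theorem t3k32_kap : NC (kkap dW qW t3n32 (tcl t3c32)) :=
  NC.of (K := 102) (D := ⟨1, 1, 1, 9⟩) (Box.of 4 (by decide +kernel))
    (by decide +kernel)

theorem t3k32_wb2 : NC (qc t3n32.b2 - pe2 kW.QB (vZ * t1v t3c32) (t1v t3c32)) :=
  NC.of (K := 143) (D := ⟨1, 6, 1, 11⟩) (Box.of 18531 (by decide +kernel))
    (by decide +kernel)

theorem t3k32_wmb : NC (qc t3n32.Mb - pe zW.mb (t1v t3c32)) :=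
  NC.of (K := 104) (D := ⟨1, 1, 1, 9⟩) (Box.of 291 (by decide +kernel))
    (by decide +kernel)

theorem t3k32_wth : NC (qc (t3c32.th / t3c32.t1) - pe2 zW.Qt (vZ * t1v t3c32) (t1v t3c32)) :=
  NC.of (K := 136) (D := ⟨1, 6, 1, 11⟩) (Box.of 291 (by decide +kernel))
    (by decide +kernel)

theorem t3k32_wyb : NC (qc t3n32.Yb - (t1v t3c32 - vZ * t1v t3c32) ^ 3 * pe2 yW.QY (vZ * t1v t3c32) (t1v t3c32)) :=
  NC.of (K := 116) (D := ⟨1, 8, 1, 12⟩) (Box.of 4 (by decide +kernel))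
    (by decide +kernel)

theorem t3k32_wmu : NC (qc t3m32 - pe t3al (tcl t3c32) * (1 + hlf * tcl t3c32)) :=
  NC.of (K := 98) (D := ⟨1, 1, 1, 9⟩) (Box.of 4 (by decide +kernel))
    (by decide +kernel)

theorem t3k32_wcj : NC (qc t3c32.C * ((6 - 3 * vX) * (1 - qc t3m32 * vX)) - (6 - 6 * vX + vX ^ 2)) :=
  NC.of (K := 31) (D := ⟨3, 1, 1, 1⟩) (Box.of 4 (by decide +kernel))
    (by decide +kernel)

theorem t3k32_nd1 : NC (pe t3r32.d1 (t1v t3c32)) :=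
  NC.of (K := 63) (D := ⟨1, 1, 1, 7⟩) (Box.of 4 (by decide +kernel))
    (by decide +kernel)

theorem t3k32_nd2 : NC (pe t3r32.d2 (t1v t3c32)) :=
  NC.of (K := 64) (D := ⟨1, 1, 1, 7⟩) (Box.of 4 (by decide +kernel))
    (by decide +kernel)

theorem t3k32_ndy : NC (pe t3r32.dy (t1v t3c32)) :=
  NC.of (K := 68) (D := ⟨1, 1, 1, 7⟩) (Box.of 4 (by decide +kernel))
    (by decide +kernel)

theorem t3k32_nt1 : NC (pe t3r32.t1 (t1v t3c32)) :=
  NC.of (K := 65) (D := ⟨1, 1, 1, 7⟩) (Box.of 4 (by decide +kernel))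
    (by decide +kernel)

theorem t3k32_nt2 : NC (pe t3r32.t2 (t1v t3c32)) :=
  NC.of (K := 64) (D := ⟨1, 1, 1, 7⟩) (Box.of 4 (by decide +kernel))
    (by decide +kernel)

theorem t3k32_nty : NC (pe t3r32.ty (t1v t3c32)) :=
  NC.of (K := 71) (D := ⟨1, 1, 1, 7⟩) (Box.of 4 (by decide +kernel))
    (by decide +kernel)

theorem t3k32_nhz : NC (pe t3r32.hz (t1v t3c32)) :=
  NC.of (K := 95) (D := ⟨1, 1, 1, 7⟩) (Box.of 18659 (by decide +kernel))
    (by decide +kernel)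

theorem t3k32_xi : NC (eXi fW t3c32 t3e32 t3r32 (t1v t3c32)) :=
  NC.of (K := 273) (D := ⟨1, 1, 1, 22⟩) (Box.of 4 (by decide +kernel))
    (by decide +kernel)

theorem t3k32_om : NC (eOm fW t3r32 (t1v t3c32)) :=
  NC.of (K := 186) (D := ⟨1, 1, 1, 16⟩) (Box.of 291 (by decide +kernel))
    (by decide +kernel)

theorem t3k32_fin : NC (eFin dW t3c32 t3n32 t3r32 t3h32 (tcl t3c32)) :=
  NC.of (K := 228) (D := ⟨1, 1, 1, 14⟩) (Box.of 4 (by decide +kernel))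
    (by decide +kernel)

theorem t3k32_xdl : NC (qc t3e32.dl - pe t3d32.l.dl t3d32.eU) :=
  NC.of (K := 73) (D := ⟨1, 4, 1, 1⟩) (Box.of 4 (by decide +kernel))
    (by decide +kernel)

theorem t3k32_xeY : NC (qc t3e32.eY - pe (e4l t3d32.l.z) t3d32.eU) :=
  NC.of (K := 288) (D := ⟨1, 13, 1, 1⟩) (Box.of 4 (by decide +kernel))
    (by decide +kernel)

theorem t3k32_xgr : NC (qc t3d32.ga * ((1 + qc (3 / 5) * vX) * (1 + (t3d32.eg + hlf * t3d32.eg ^ 2))) + qc t3d32.gb - pe2 t3GR vX t3d32.eU) :=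
  NC.of (K := 262) (D := ⟨4, 11, 1, 1⟩) (Box.of 1198080 (by decide +kernel))
    (by decide +kernel)

theorem t3k32_xhr : NC (qc t3d32.hb - pe2 t3HR vX t3d32.eU) :=
  NC.of (K := 264) (D := ⟨3, 12, 1, 1⟩) (Box.of 4 (by decide +kernel))
    (by decide +kernel)

theorem t3k32_xgs : NC (pe t3d32.gs t3d32.e1 - qc (8 / 5) * pe (e4l (ladd t3d32.ls.z t3d32.ls.dl)) t3d32.e1) :=
  NC.of (K := 296) (D := ⟨1, 1, 1, 13⟩) (Box.of 4 (by decide +kernel))
    (by decide +kernel)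

theorem t3k32_xd1 : NC (pe t3d32.d1 t3d32.e1 - t3d32.eA t3d32.eU t3d32.e1) :=
  NC.of (K := 288) (D := ⟨1, 12, 1, 12⟩) (Box.of 4 (by decide +kernel))
    (by decide +kernel)

theorem t3k32_xd2 : NC (pe t3d32.d2 t3d32.e1 - t3d32.eB t3d32.eU t3d32.e1) :=
  NC.of (K := 290) (D := ⟨1, 12, 1, 12⟩) (Box.of 4 (by decide +kernel))
    (by decide +kernel)

theorem t3k32_xt1 : NC (pe t3d32.t1 t3d32.e1 - t3d32.eAT t3d32.eU t3d32.e1) :=
  NC.of (K := 472) (D := ⟨1, 19, 1, 19⟩) (Box.of 4 (by decide +kernel))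
    (by decide +kernel)

theorem t3k32_xt2 : NC (pe t3d32.t2 t3d32.e1 - t3d32.eBT t3d32.eU t3d32.e1) :=
  NC.of (K := 474) (D := ⟨1, 19, 1, 19⟩) (Box.of 4 (by decide +kernel))
    (by decide +kernel)

theorem t3k32_xdy : NC (pe t3d32.dy t3d32.e1 - t3d32.eSD t3d32.eU t3d32.e1) :=
  NC.of (K := 448) (D := ⟨1, 18, 1, 12⟩) (Box.of 4 (by decide +kernel))
    (by decide +kernel)

theorem t3k32_xty : NC (pe t3d32.ty t3d32.e1 - t3d32.eST t3d32.eU t3d32.e1) :=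
  NC.of (K := 671) (D := ⟨1, 26, 1, 26⟩) (Box.of 4 (by decide +kernel))
    (by decide +kernel)

theorem t3k32_xd1s : NC (pe t3r32.d1 (t1v t3c32) - pe t3d32.d1 (Xcd.ew zW t3c32)) :=
  NC.of (K := 574) (D := ⟨1, 1, 1, 55⟩) (Box.of 4 (by decide +kernel))
    (by decide +kernel)

theorem t3k32_xd2s : NC (pe t3r32.d2 (t1v t3c32) - pe t3d32.d2 (Xcd.ew zW t3c32)) :=
  NC.of (K := 574) (D := ⟨1, 1, 1, 55⟩) (Box.of 4 (by decide +kernel))
    (by decide +kernel)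

theorem t3k32_xt1s : NC (pe t3r32.t1 (t1v t3c32) - pe t3d32.t1 (Xcd.ew zW t3c32)) :=
  NC.of (K := 577) (D := ⟨1, 1, 1, 55⟩) (Box.of 4 (by decide +kernel))
    (by decide +kernel)

theorem t3k32_xt2s : NC (pe t3r32.t2 (t1v t3c32) - pe t3d32.t2 (Xcd.ew zW t3c32)) :=
  NC.of (K := 578) (D := ⟨1, 1, 1, 55⟩) (Box.of 4 (by decide +kernel))
    (by decide +kernel)

theorem t3k32_xdys : NC (pe t3r32.dy (t1v t3c32) - pe t3d32.dy (Xcd.ew zW t3c32)) :=
  NC.of (K := 579) (D := ⟨1, 1, 1, 55⟩) (Box.of 4 (by decide +kernel))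
    (by decide +kernel)

theorem t3k32_xtys : NC (pe t3r32.ty (t1v t3c32) - pe t3d32.ty (Xcd.ew zW t3c32)) :=
  NC.of (K := 582) (D := ⟨1, 1, 1, 55⟩) (Box.of 4 (by decide +kernel))
    (by decide +kernel)

theorem t3k32_xhz : NC (pe t3r32.hz (t1v t3c32) - pe t3d32.c.dR (Xcd.ew zW t3c32)) :=
  NC.of (K := 585) (D := ⟨1, 1, 1, 55⟩) (Box.of 4 (by decide +kernel))
    (by decide +kernel)

theorem t3f32_ok : t3f32.ok V2L.y15 V2L.k15 V2L.nb V2L.la (10 ^ 30) 32 = true := by decide +kernel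

theorem t3k32_sg : t3c32.Sg := by
  constructor <;> decide +kernel

theorem t3k32_rgs : t3c32.Rgs where
  M := ⟨t3k32_M_r1, t3k32_M_r2, t3k32_M_r3, t3k32_M_r4⟩
  r0 := ⟨t3k32_r0_r1, t3k32_r0_r2, t3k32_r0_r3, t3k32_r0_r4⟩
  r1 := ⟨t3k32_r1_r1, t3k32_r1_r2, t3k32_r1_r3, t3k32_r1_r4⟩
  r2 := ⟨t3k32_r2_r1, t3k32_r2_r2, t3k32_r2_r3, t3k32_r2_r4⟩
  rc := ⟨t3k32_rc_r1, t3k32_rc_r2, t3k32_rc_r3, t3k32_rc_r4⟩
  rI := ⟨t3k32_rI_r1, t3k32_rI_r2, t3k32_rI_r3, t3k32_rI_r4⟩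
  rJ := ⟨t3k32_rJ_r1, t3k32_rJ_r2, t3k32_rJ_r3, t3k32_rJ_r4⟩

theorem t3k32_xn : t3e32.Ok t3c32 where
  lm := by decide +kernel
  dl0 := by decide +kernel
  dl1 := by decide +kernel
  e2 := by decide +kernel
  eY := by decide +kernel
  gE := ⟨t3k32_gE_r1, t3k32_gE_r2, t3k32_gE_r3, t3k32_gE_r4⟩

theorem t3k32_vl : t3c32.Vl dW qW where
  bt := by decide +kernel
  B0 := t3k32_B0
  E0 := t3k32_E0
  D0 := t3k32_D0
  Bh := t3k32_Bh
  Eh := t3k32_Eh
  Dh := t3k32_Dh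
  B1 := t3k32_B1
  E1 := t3k32_E1
  D1 := t3k32_D1

theorem t3k32_rat : t3n32.Rat t3c32 := by
  constructor <;> decide +kernel

theorem t3k32_ck : t3n32.Ck t3c32 := ⟨t3k32_l, t3k32_n⟩

theorem t3k32_fck : t3n32.Fck dW qW fW t3c32 := ⟨t3k32_rb, t3k32_kap⟩

theorem t3k32_w : Wcl zW kW yW t3al t3c32 t3n32 t3m32 where
  b2 := t3k32_wb2
  mb := t3k32_wmb
  th := t3k32_wth
  yb := t3k32_wyb
  mu := t3k32_wmu
  cj := t3k32_wcj
  mt1 := by decide +kernel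
  mt2 := by decide +kernel

theorem t3k32_ok : CelOk dW qW fW t3c32 t3n32 where
  s := t3k32_sg
  r := t3k32_rgs
  v := t3k32_vl
  rt := t3k32_rat
  k := t3k32_ck
  fc := t3k32_fck
  q01 := by decide +kernel
  q12 := by decide +kernel
  h2 := by decide +kernel

theorem t3k32_xr : t3r32.Ok fW t3c32 t3e32 where
  sD := by decide +kernel
  sT := by decide +kernel
  nd1 := t3k32_nd1
  nd2 := t3k32_nd2
  ndy := t3k32_ndy
  nt1 := t3k32_nt1
  nt2 := t3k32_nt2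
  nty := t3k32_nty
  nhz := t3k32_nhz
  xi := t3k32_xi
  om := t3k32_om

theorem t3k32_X : t3d32.Ck t3GR t3HR zW t3c32 t3e32 t3r32 where
  u0 := by decide +kernel
  u01 := by decide +kernel
  ul := by decide +kernel
  us := by decide +kernel
  uc := by decide +kernel
  ga0 := by decide +kernel
  kp0 := by decide +kernel
  lm := by decide +kernel
  dl := t3k32_xdl
  eY := t3k32_xeY
  gr := t3k32_xgr
  hr := t3k32_xhr
  gs := t3k32_xgs
  d1 := t3k32_xd1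
  d2 := t3k32_xd2
  t1 := t3k32_xt1
  t2 := t3k32_xt2
  dy := t3k32_xdy
  ty := t3k32_xty
  d1s := t3k32_xd1s
  d2s := t3k32_xd2s
  t1s := t3k32_xt1s
  t2s := t3k32_xt2s
  dys := t3k32_xdys
  tys := t3k32_xtys
  hz := t3k32_xhz

end Pool.Agent.RX.RCN.K
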