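import Pool.Agent.RX.RCN.T3D
import Pool.Agent.RX.RCN.T3Wq
import Pool.Agent.RX.RCN.T3X15
import Pool.Agent.RX.RCN.VLd

/-! Certificates (generated). -/

set_option autoImplicit false

namespace Pool.Agent.RX.RCN.K

open Set Pool.Agent.RX.RCM9 Pool.Agent.RX.RCM9.Bern Pool.Agent.RX.RCM9.Pk Xce

def t3c33 : Cel where
  t0 := 19 / 40
  t1 := 12 / 25
  C := 4097 / 4096
  th := 1001 / 2048
  B0 := 267 / 256
  Bh := 1221 / 1024
  B1 := 75 / 64
  D0 := 369 / 1024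
  Dh := 617 / 2048
  D1 := 1181 / 4096
  E0 := 171 / 16384
  Eh := 37849 / 4194304
  E1 := 36247 / 4194304
  Q0 := 1071 / 1024
  Q1 := 1071 / 1024
  Q2 := 569 / 512
  Ac := 1071 / 1024
  gI := 67 / 64
  J := 1175 / 65536

def t3n33 : Chn where
  lb := 513 / 512
  nb := 333 / 1024
  Mb := 1045 / 1024
  b2 := 1043 / 1024
  Yb := 57 / 4096
  E2 := 1053 / 1024
  e1 := 673 / 512
  Z1 := 1117 / 1024
  Z2 := 637 / 1024
  KB := 1067 / 1024
  cb := 1089 / 1024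
  rb := 203 / 512
  om := 263 / 256
  fb := 129 / 128
  kap := 4207 / 4096
  ab := 1029 / 1024

def t3e33 : Xge where
  lm := 3 / 5
  dl := 479 / 1024
  e2 := 2113 / 16384
  eY := 4157 / 4096
  gE := 37 / 32

def t3r33 : Xr where
  d1 := [824461 / 25000000, 11571 / 2000000, 857547 / 25000000, 78479 / 20000000, 17615879 /
    100000000, -17307863 / 50000000, 15252227 / 50000000]
  d2 := [115303 / 50000000, 838769 / 25000000, 7888251 / 100000000, 74388 / 390625, -1022993 /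
    100000000, -4365317 / 10000000, 24779951 / 50000000]
  dy := [18237349 / 50000000, 3142753 / 25000000, 35730263 / 100000000, 54395681 / 50000000,
    -84585863 / 100000000, -119725159 / 100000000, 186289771 / 100000000]
  t1 := [16791527 / 100000000, -11663427 / 25000000, 23952077 / 100000000, 2932971 / 10000000,
    69534197 / 50000000, -406065137 / 100000000, 190683289 / 50000000]
  t2 := [5251727 / 100000000, -2674193 / 20000000, 1533333 / 20000000, 58789399 / 100000000,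
    -4143551 / 12500000, -5172721 / 20000000, 21312017 / 50000000]
  ty := [144476907 / 100000000, -109874781 / 25000000, 95658247 / 50000000, 898447833 / 50000000,
    -117290733 / 4000000, 165069703 / 12500000, 54865319 / 20000000]
  hz := [18271933 / 100000000, -23636097 / 100000000, -19373447 / 5000000, 1272502933 / 100000000,
    -220936557 / 20000000, 35927913 / 100000000, -25368539 / 100000000]
  om := [100396703 / 100000000, 51306971 / 50000000, -350851183 / 25000000, 1452223499 / 25000000,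
    -1959577751 / 12500000, 40995206341 / 100000000, -88262121163 / 100000000, 28737948399 /
    25000000, -3256902281 / 5000000]
  sD := 317 / 128
  sT := 565 / 256
  xi := [13273861 / 100000000, 23045317 / 25000000, -369533761 / 100000000, -13093697 / 100000000,
    709175047 / 25000000, -322791211 / 5000000, 5891365829 / 50000000, -27199345203 / 100000000,
    21738517229 / 50000000, -288298349 / 1000000]

def t3f33 : Dl where
  Ca := 476981 / 1000000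
  Cv := 19283 / 40000
  k1 := 9113547 / 10000000
  ks := 891249 / 1000000
  dd := 0
  kp := 1 / 10000000
  e := [199999939509 / 200000000000, -43942993317 / 31250000000, 308541124597 / 200000000000,
    -1505684655521 / 1000000000000, 1389063773579 / 1000000000000, -593833281239 / 500000000000,
    444183977849 / 500000000000, -497785201791 / 1000000000000, 146704246667 / 1000000000000]
  j1 := [-1130219 / 500000000, -7658954741 / 1000000000, 9064153367 / 125000000, -322983738503 /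
    1000000000, 830894920601 / 1000000000, -624763451991 / 500000000, 1020338537557 /
    1000000000, -87803193167 / 250000000]
  nu := [115121817 / 1000000000, -123462611 / 500000000, 388678139 / 1000000000, -1367031 /
    125000000, 16239431 / 1000000000, 213847001 / 500000000, -326183681 / 1000000000]
  k2 := [445625101 / 500000000, 220127413 / 1000000000, -319266141 / 1000000000, -76321233 /
    1000000000, 680763 / 10000000, -58094711 / 125000000, 195039887 / 500000000]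
  dR := [911773 / 5000000, -11790709 / 50000000, -384634793 / 100000000, 1256444429 / 100000000,
    -1072667119 / 100000000]

def t3d33 : Xce where
  u0 := 477489 / 1000000
  u1 := 19283 / 40000
  l := V2L.y15
  y := t3z15
  j := t3j15
  i := t3i15
  ls := t3y15
  k := V2L.k15
  c := t3f33
  ga := 6581 / 200000
  gb := -7451 / 500000
  hb := 87717 / 500000
  gs := [160003279 / 100000000, 239999797 / 100000000, 180006573 / 100000000, 19880139 / 25000000,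
    27039261 / 100000000, -12982877 / 100000000, -5308923 / 100000000]
  d1 := [329533 / 10000000, 585291 / 100000000, 3160671 / 100000000, 303931 / 10000000, 2325753 /
    50000000, -368471 / 6250000, 6597159 / 100000000]
  d2 := [113887 / 50000000, 841239 / 25000000, 7246017 / 100000000, 1263099 / 5000000, -8008567 /
    25000000, 26178347 / 100000000, -1135503 / 12500000]
  dy := [18222513 / 50000000, 6307253 / 50000000, 6618607 / 20000000, 33463743 / 25000000,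
    -105083017 / 50000000, 164717933 / 100000000, -10667253 / 20000000]
  t1 := [8391283 / 50000000, -11615003 / 25000000, 11269591 / 50000000, 2549311 / 6250000,
    87566683 / 100000000, -60257961 / 20000000, 3758093 / 1250000]
  t2 := [5248797 / 100000000, -6650719 / 50000000, 1703019 / 25000000, 66615371 / 100000000,
    -71994401 / 100000000, 29781401 / 50000000, -27363123 / 100000000]
  ty := [36100589 / 25000000, -21895479 / 5000000, 184103069 / 100000000, 367417987 / 20000000,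
    -3142794089 / 100000000, 1803070693 / 100000000, -60184163 / 50000000]

def t3m33 : ℚ := 949 / 2048

def t3h33 : ℚ := 51 / 100

theorem t3k33_M_r1 : NC (fM t3c33 (1 - eh) eh ek (elo t3c33.B0 t3c33.Bh eh) (elo t3c33.D0 t3c33.Dh ek) (elo t3c33.E0 t3c33.Eh ek)) :=
  NC.of (K := 29) (D := ⟨4, 3, 1, 1⟩) (Box.of 4 (by decide +kernel))
    (by decide +kernel)

theorem t3k33_M_r2 : NC (fM t3c33 eh (1 - eh) ek (ehi t3c33.Bh t3c33.B1 (1 - eh)) (elo t3c33.D0 t3c33.Dh ek) (elo t3c33.E0 t3c33.Eh ek)) :=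
  NC.of (K := 29) (D := ⟨4, 3, 1, 1⟩) (Box.of 4 (by decide +kernel))
    (by decide +kernel)

theorem t3k33_M_r3 : NC (fM t3c33 (1 - eh) ek eh (elo t3c33.B0 t3c33.Bh ek) (elo t3c33.D0 t3c33.Dh eh) (elo t3c33.E0 t3c33.Eh eh)) :=
  NC.of (K := 28) (D := ⟨4, 2, 1, 1⟩) (Box.of 4 (by decide +kernel))
    (by decide +kernel)

theorem t3k33_M_r4 : NC (fM t3c33 eh ek (1 - eh) (elo t3c33.B0 t3c33.Bh ek) (ehi t3c33.Dh t3c33.D1 (1 - eh)) (ehi t3c33.Eh t3c33.E1 (1 - eh))) :=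
  NC.of (K := 29) (D := ⟨4, 2, 1, 1⟩) (Box.of 4 (by decide +kernel))
    (by decide +kernel)

theorem t3k33_r0_r1 : NC (f0 t3c33 (1 - eh) eh ek (elo t3c33.B0 t3c33.Bh eh) (elo t3c33.D0 t3c33.Dh ek) (elo t3c33.E0 t3c33.Eh ek)) :=
  NC.of (K := 138) (D := ⟨13, 9, 1, 1⟩) (Box.of 4 (by decide +kernel))
    (by decide +kernel)

theorem t3k33_r0_r2 : NC (f0 t3c33 eh (1 - eh) ek (ehi t3c33.Bh t3c33.B1 (1 - eh)) (elo t3c33.D0 t3c33.Dh ek) (elo t3c33.E0 t3c33.Eh ek)) :=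
  NC.of (K := 138) (D := ⟨13, 9, 1, 1⟩) (Box.of 4 (by decide +kernel))
    (by decide +kernel)

theorem t3k33_r0_r3 : NC (f0 t3c33 (1 - eh) ek eh (elo t3c33.B0 t3c33.Bh ek) (elo t3c33.D0 t3c33.Dh eh) (elo t3c33.E0 t3c33.Eh eh)) :=
  NC.of (K := 133) (D := ⟨13, 5, 1, 1⟩) (Box.of 4 (by decide +kernel))
    (by decide +kernel)

theorem t3k33_r0_r4 : NC (f0 t3c33 eh ek (1 - eh) (elo t3c33.B0 t3c33.Bh ek) (ehi t3c33.Dh t3c33.D1 (1 - eh)) (ehi t3c33.Eh t3c33.E1 (1 - eh))) :=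
  NC.of (K := 138) (D := ⟨13, 5, 1, 1⟩) (Box.of 4 (by decide +kernel))
    (by decide +kernel)

theorem t3k33_r1_r1 : NC (f1 t3c33 (1 - eh) eh ek (elo t3c33.B0 t3c33.Bh eh) (elo t3c33.D0 t3c33.Dh ek) (elo t3c33.E0 t3c33.Eh ek)) :=
  NC.of (K := 226) (D := ⟨16, 9, 1, 1⟩) (Box.of 4 (by decide +kernel))
    (by decide +kernel)

theorem t3k33_r1_r2 : NC (f1 t3c33 eh (1 - eh) ek (ehi t3c33.Bh t3c33.B1 (1 - eh)) (elo t3c33.D0 t3c33.Dh ek) (elo t3c33.E0 t3c33.Eh ek)) :=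
  NC.of (K := 227) (D := ⟨16, 9, 1, 1⟩) (Box.of 4 (by decide +kernel))
    (by decide +kernel)

theorem t3k33_r1_r3 : NC (f1 t3c33 (1 - eh) ek eh (elo t3c33.B0 t3c33.Bh ek) (elo t3c33.D0 t3c33.Dh eh) (elo t3c33.E0 t3c33.Eh eh)) :=
  NC.of (K := 229) (D := ⟨16, 12, 1, 1⟩) (Box.of 4 (by decide +kernel))
    (by decide +kernel)

theorem t3k33_r1_r4 : NC (f1 t3c33 eh ek (1 - eh) (elo t3c33.B0 t3c33.Bh ek) (ehi t3c33.Dh t3c33.D1 (1 - eh)) (ehi t3c33.Eh t3c33.E1 (1 - eh))) :=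
  NC.of (K := 230) (D := ⟨16, 12, 1, 1⟩) (Box.of 4 (by decide +kernel))
    (by decide +kernel)

theorem t3k33_r2_r1 : NC (f2 t3c33 (1 - eh) eh ek (elo t3c33.B0 t3c33.Bh eh) (elo t3c33.D0 t3c33.Dh ek) (elo t3c33.E0 t3c33.Eh ek)) :=
  NC.of (K := 257) (D := ⟨16, 11, 1, 1⟩) (Box.of 288 (by decide +kernel))
    (by decide +kernel)

theorem t3k33_r2_r2 : NC (f2 t3c33 eh (1 - eh) ek (ehi t3c33.Bh t3c33.B1 (1 - eh)) (elo t3c33.D0 t3c33.Dh ek) (elo t3c33.E0 t3c33.Eh ek)) :=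
  NC.of (K := 230) (D := ⟨16, 11, 1, 1⟩) (Box.of 4 (by decide +kernel))
    (by decide +kernel)

theorem t3k33_r2_r3 : NC (f2 t3c33 (1 - eh) ek eh (elo t3c33.B0 t3c33.Bh ek) (elo t3c33.D0 t3c33.Dh eh) (elo t3c33.E0 t3c33.Eh eh)) :=
  NC.of (K := 258) (D := ⟨16, 12, 1, 1⟩) (Box.of 288 (by decide +kernel))
    (by decide +kernel)

theorem t3k33_r2_r4 : NC (f2 t3c33 eh ek (1 - eh) (elo t3c33.B0 t3c33.Bh ek) (ehi t3c33.Dh t3c33.D1 (1 - eh)) (ehi t3c33.Eh t3c33.E1 (1 - eh))) :=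
  NC.of (K := 232) (D := ⟨16, 12, 1, 1⟩) (Box.of 4 (by decide +kernel))
    (by decide +kernel)

theorem t3k33_rc_r1 : NC (fc t3c33 (1 - eh) eh ek (elo t3c33.B0 t3c33.Bh eh) (elo t3c33.D0 t3c33.Dh ek) (elo t3c33.E0 t3c33.Eh ek)) :=
  NC.of (K := 138) (D := ⟨13, 9, 1, 1⟩) (Box.of 4 (by decide +kernel))
    (by decide +kernel)

theorem t3k33_rc_r2 : NC (fc t3c33 eh (1 - eh) ek (ehi t3c33.Bh t3c33.B1 (1 - eh)) (elo t3c33.D0 t3c33.Dh ek) (elo t3c33.E0 t3c33.Eh ek)) :=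
  NC.of (K := 137) (D := ⟨13, 9, 1, 1⟩) (Box.of 4 (by decide +kernel))
    (by decide +kernel)

theorem t3k33_rc_r3 : NC (fc t3c33 (1 - eh) ek eh (elo t3c33.B0 t3c33.Bh ek) (elo t3c33.D0 t3c33.Dh eh) (elo t3c33.E0 t3c33.Eh eh)) :=
  NC.of (K := 133) (D := ⟨13, 5, 1, 1⟩) (Box.of 4 (by decide +kernel))
    (by decide +kernel)

theorem t3k33_rc_r4 : NC (fc t3c33 eh ek (1 - eh) (elo t3c33.B0 t3c33.Bh ek) (ehi t3c33.Dh t3c33.D1 (1 - eh)) (ehi t3c33.Eh t3c33.E1 (1 - eh))) :=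
  NC.of (K := 138) (D := ⟨13, 5, 1, 1⟩) (Box.of 4 (by decide +kernel))
    (by decide +kernel)

theorem t3k33_rI_r1 : NC (fI t3c33 (1 - eh) eh ek (elo t3c33.B0 t3c33.Bh eh) (elo t3c33.D0 t3c33.Dh ek) (elo t3c33.E0 t3c33.Eh ek)) :=
  NC.of (K := 118) (D := ⟨13, 9, 1, 1⟩) (Box.of 4 (by decide +kernel))
    (by decide +kernel)

theorem t3k33_rI_r2 : NC (fI t3c33 eh (1 - eh) ek (ehi t3c33.Bh t3c33.B1 (1 - eh)) (elo t3c33.D0 t3c33.Dh ek) (elo t3c33.E0 t3c33.Eh ek)) :=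
  NC.of (K := 118) (D := ⟨13, 9, 1, 1⟩) (Box.of 4 (by decide +kernel))
    (by decide +kernel)

theorem t3k33_rI_r3 : NC (fI t3c33 (1 - eh) ek eh (elo t3c33.B0 t3c33.Bh ek) (elo t3c33.D0 t3c33.Dh eh) (elo t3c33.E0 t3c33.Eh eh)) :=
  NC.of (K := 113) (D := ⟨13, 5, 1, 1⟩) (Box.of 4 (by decide +kernel))
    (by decide +kernel)

theorem t3k33_rI_r4 : NC (fI t3c33 eh ek (1 - eh) (elo t3c33.B0 t3c33.Bh ek) (ehi t3c33.Dh t3c33.D1 (1 - eh)) (ehi t3c33.Eh t3c33.E1 (1 - eh))) :=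
  NC.of (K := 119) (D := ⟨13, 5, 1, 1⟩) (Box.of 4 (by decide +kernel))
    (by decide +kernel)

theorem t3k33_rJ_r1 : NC (fJ t3c33 (1 - eh) eh ek (elo t3c33.B0 t3c33.Bh eh) (elo t3c33.D0 t3c33.Dh ek) (elo t3c33.E0 t3c33.Eh ek)) :=
  NC.of (K := 72) (D := ⟨7, 5, 1, 1⟩) (Box.of 4 (by decide +kernel))
    (by decide +kernel)

theorem t3k33_rJ_r2 : NC (fJ t3c33 eh (1 - eh) ek (ehi t3c33.Bh t3c33.B1 (1 - eh)) (elo t3c33.D0 t3c33.Dh ek) (elo t3c33.E0 t3c33.Eh ek)) :=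
  NC.of (K := 72) (D := ⟨7, 5, 1, 1⟩) (Box.of 4 (by decide +kernel))
    (by decide +kernel)

theorem t3k33_rJ_r3 : NC (fJ t3c33 (1 - eh) ek eh (elo t3c33.B0 t3c33.Bh ek) (elo t3c33.D0 t3c33.Dh eh) (elo t3c33.E0 t3c33.Eh eh)) :=
  NC.of (K := 69) (D := ⟨7, 3, 1, 1⟩) (Box.of 4 (by decide +kernel))
    (by decide +kernel)

theorem t3k33_rJ_r4 : NC (fJ t3c33 eh ek (1 - eh) (elo t3c33.B0 t3c33.Bh ek) (ehi t3c33.Dh t3c33.D1 (1 - eh)) (ehi t3c33.Eh t3c33.E1 (1 - eh))) :=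
  NC.of (K := 71) (D := ⟨7, 3, 1, 1⟩) (Box.of 4 (by decide +kernel))
    (by decide +kernel)

theorem t3k33_gE_r1 : NC (fE t3c33 t3e33 (1 - eh) eh ek (elo t3c33.B0 t3c33.Bh eh) (elo t3c33.D0 t3c33.Dh ek) (elo t3c33.E0 t3c33.Eh ek)) :=
  NC.of (K := 162) (D := ⟨13, 9, 1, 1⟩) (Box.of 18688 (by decide +kernel))
    (by decide +kernel)

theorem t3k33_gE_r2 : NC (fE t3c33 t3e33 eh (1 - eh) ek (ehi t3c33.Bh t3c33.B1 (1 - eh)) (elo t3c33.D0 t3c33.Dh ek) (elo t3c33.E0 t3c33.Eh ek)) :=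
  NC.of (K := 118) (D := ⟨13, 9, 1, 1⟩) (Box.of 4 (by decide +kernel))
    (by decide +kernel)

theorem t3k33_gE_r3 : NC (fE t3c33 t3e33 (1 - eh) ek eh (elo t3c33.B0 t3c33.Bh ek) (elo t3c33.D0 t3c33.Dh eh) (elo t3c33.E0 t3c33.Eh eh)) :=
  NC.of (K := 160) (D := ⟨13, 7, 1, 1⟩) (Box.of 18688 (by decide +kernel))
    (by decide +kernel)

theorem t3k33_gE_r4 : NC (fE t3c33 t3e33 eh ek (1 - eh) (elo t3c33.B0 t3c33.Bh ek) (ehi t3c33.Dh t3c33.D1 (1 - eh)) (ehi t3c33.Eh t3c33.E1 (1 - eh))) :=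
  NC.of (K := 121) (D := ⟨13, 7, 1, 1⟩) (Box.of 4 (by decide +kernel))
    (by decide +kernel)

theorem t3k33_B0 : NC (kB dW 1 0 t3c33.B0 (tcl t3c33)) :=
  NC.of (K := 102) (D := ⟨1, 1, 1, 9⟩) (Box.of 4 (by decide +kernel))
    (by decide +kernel)

theorem t3k33_E0 : NC (kE dW qW qW.p0 qW.q0 t3c33.E0 (tcl t3c33)) :=
  NC.of (K := 226) (D := ⟨1, 1, 1, 19⟩) (Box.of 4 (by decide +kernel))
    (by decide +kernel)

theorem t3k33_D0 : NC (kD dW qW 1 0 qW.p0 qW.q0 t3c33.D0 (tcl t3c33)) :=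
  NC.of (K := 343) (D := ⟨1, 1, 1, 20⟩) (Box.of 4 (by decide +kernel))
    (by decide +kernel)

theorem t3k33_Bh : NC (kB dW (1 / 2) (1 / 2) t3c33.Bh (tcl t3c33)) :=
  NC.of (K := 105) (D := ⟨1, 1, 1, 9⟩) (Box.of 4 (by decide +kernel))
    (by decide +kernel)

theorem t3k33_Eh : NC (kE dW qW qW.ph qW.qh t3c33.Eh (tcl t3c33)) :=
  NC.of (K := 230) (D := ⟨1, 1, 1, 19⟩) (Box.of 4 (by decide +kernel))
    (by decide +kernel)

theorem t3k33_Dh : NC (kD dW qW (1 / 2) (1 / 2) qW.ph qW.qh t3c33.Dh (tcl t3c33)) :=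
  NC.of (K := 347) (D := ⟨1, 1, 1, 20⟩) (Box.of 4 (by decide +kernel))
    (by decide +kernel)

theorem t3k33_B1 : NC (kB dW 0 (1 / 2) t3c33.B1 (tcl t3c33)) :=
  NC.of (K := 105) (D := ⟨1, 1, 1, 9⟩) (Box.of 4 (by decide +kernel))
    (by decide +kernel)

theorem t3k33_E1 : NC (kE dW qW qW.p1 qW.q1 t3c33.E1 (tcl t3c33)) :=
  NC.of (K := 230) (D := ⟨1, 1, 1, 19⟩) (Box.of 4 (by decide +kernel))
    (by decide +kernel)

theorem t3k33_D1 : NC (kD dW qW 0 (1 / 2) qW.p1 qW.q1 t3c33.D1 (tcl t3c33)) :=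
  NC.of (K := 347) (D := ⟨1, 1, 1, 20⟩) (Box.of 4 (by decide +kernel))
    (by decide +kernel)

theorem t3k33_l : NC (qc t3n33.lb - (1 - vX) * pe (exl t3c33.th) vX ^ 2) :=
  NC.of (K := 118) (D := ⟨10, 1, 1, 1⟩) (Box.of 4 (by decide +kernel))
    (by decide +kernel)

theorem t3k33_n : NC (qc t3n33.nb - vX * (1 - vX) * pe (exl t3c33.th) vX) :=
  NC.of (K := 100) (D := ⟨7, 1, 1, 1⟩) (Box.of 1196064 (by decide +kernel))
    (by decide +kernel)

theorem t3k33_rb : NC (krb t3n33 fW (t1v t3c33)) :=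
  NC.of (K := 159) (D := ⟨1, 1, 1, 16⟩) (Box.of 4 (by decide +kernel))
    (by decide +kernel)

theorem t3k33_kap : NC (kkap dW qW t3n33 (tcl t3c33)) :=
  NC.of (K := 102) (D := ⟨1, 1, 1, 9⟩) (Box.of 4 (by decide +kernel))
    (by decide +kernel)

theorem t3k33_wb2 : NC (qc t3n33.b2 - pe2 kW.QB (vZ * t1v t3c33) (t1v t3c33)) :=
  NC.of (K := 138) (D := ⟨1, 6, 1, 11⟩) (Box.of 18531 (by decide +kernel))
    (by decide +kernel)

theorem t3k33_wmb : NC (qc t3n33.Mb - pe zW.mb (t1v t3c33)) :=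
  NC.of (K := 101) (D := ⟨1, 1, 1, 9⟩) (Box.of 291 (by decide +kernel))
    (by decide +kernel)

theorem t3k33_wth : NC (qc (t3c33.th / t3c33.t1) - pe2 zW.Qt (vZ * t1v t3c33) (t1v t3c33)) :=
  NC.of (K := 134) (D := ⟨1, 6, 1, 11⟩) (Box.of 291 (by decide +kernel))
    (by decide +kernel)

theorem t3k33_wyb : NC (qc t3n33.Yb - (t1v t3c33 - vZ * t1v t3c33) ^ 3 * pe2 yW.QY (vZ * t1v t3c33) (t1v t3c33)) :=
  NC.of (K := 113) (D := ⟨1, 8, 1, 12⟩) (Box.of 4 (by decide +kernel))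
    (by decide +kernel)

theorem t3k33_wmu : NC (qc t3m33 - pe t3al (tcl t3c33) * (1 + hlf * tcl t3c33)) :=
  NC.of (K := 99) (D := ⟨1, 1, 1, 9⟩) (Box.of 4 (by decide +kernel))
    (by decide +kernel)

theorem t3k33_wcj : NC (qc t3c33.C * ((6 - 3 * vX) * (1 - qc t3m33 * vX)) - (6 - 6 * vX + vX ^ 2)) :=
  NC.of (K := 33) (D := ⟨3, 1, 1, 1⟩) (Box.of 4 (by decide +kernel))
    (by decide +kernel)

theorem t3k33_nd1 : NC (pe t3r33.d1 (t1v t3c33)) :=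
  NC.of (K := 61) (D := ⟨1, 1, 1, 7⟩) (Box.of 4 (by decide +kernel))
    (by decide +kernel)

theorem t3k33_nd2 : NC (pe t3r33.d2 (t1v t3c33)) :=
  NC.of (K := 61) (D := ⟨1, 1, 1, 7⟩) (Box.of 4 (by decide +kernel))
    (by decide +kernel)

theorem t3k33_ndy : NC (pe t3r33.dy (t1v t3c33)) :=
  NC.of (K := 64) (D := ⟨1, 1, 1, 7⟩) (Box.of 4 (by decide +kernel))
    (by decide +kernel)

theorem t3k33_nt1 : NC (pe t3r33.t1 (t1v t3c33)) :=
  NC.of (K := 64) (D := ⟨1, 1, 1, 7⟩) (Box.of 4 (by decide +kernel))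
    (by decide +kernel)

theorem t3k33_nt2 : NC (pe t3r33.t2 (t1v t3c33)) :=
  NC.of (K := 63) (D := ⟨1, 1, 1, 7⟩) (Box.of 4 (by decide +kernel))
    (by decide +kernel)

theorem t3k33_nty : NC (pe t3r33.ty (t1v t3c33)) :=
  NC.of (K := 65) (D := ⟨1, 1, 1, 7⟩) (Box.of 4 (by decide +kernel))
    (by decide +kernel)

theorem t3k33_nhz : NC (pe t3r33.hz (t1v t3c33)) :=
  NC.of (K := 79) (D := ⟨1, 1, 1, 7⟩) (Box.of 291 (by decide +kernel))
    (by decide +kernel)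

theorem t3k33_xi : NC (eXi fW t3c33 t3e33 t3r33 (t1v t3c33)) :=
  NC.of (K := 261) (D := ⟨1, 1, 1, 22⟩) (Box.of 4 (by decide +kernel))
    (by decide +kernel)

theorem t3k33_om : NC (eOm fW t3r33 (t1v t3c33)) :=
  NC.of (K := 179) (D := ⟨1, 1, 1, 16⟩) (Box.of 291 (by decide +kernel))
    (by decide +kernel)

theorem t3k33_fin : NC (eFin dW t3c33 t3n33 t3r33 t3h33 (tcl t3c33)) :=
  NC.of (K := 229) (D := ⟨1, 1, 1, 14⟩) (Box.of 4 (by decide +kernel))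
    (by decide +kernel)

theorem t3k33_xdl : NC (qc t3e33.dl - pe t3d33.l.dl t3d33.eU) :=
  NC.of (K := 73) (D := ⟨1, 4, 1, 1⟩) (Box.of 4 (by decide +kernel))
    (by decide +kernel)

theorem t3k33_xeY : NC (qc t3e33.eY - pe (e4l t3d33.l.z) t3d33.eU) :=
  NC.of (K := 288) (D := ⟨1, 13, 1, 1⟩) (Box.of 4 (by decide +kernel))
    (by decide +kernel)

theorem t3k33_xgr : NC (qc t3d33.ga * ((1 + qc (3 / 5) * vX) * (1 + (t3d33.eg + hlf * t3d33.eg ^ 2))) + qc t3d33.gb - pe2 t3GR vX t3d33.eU) :=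
  NC.of (K := 262) (D := ⟨4, 11, 1, 1⟩) (Box.of 1198080 (by decide +kernel))
    (by decide +kernel)

theorem t3k33_xhr : NC (qc t3d33.hb - pe2 t3HR vX t3d33.eU) :=
  NC.of (K := 265) (D := ⟨3, 12, 1, 1⟩) (Box.of 4 (by decide +kernel))
    (by decide +kernel)

theorem t3k33_xgs : NC (pe t3d33.gs t3d33.e1 - qc (8 / 5) * pe (e4l (ladd t3d33.ls.z t3d33.ls.dl)) t3d33.e1) :=
  NC.of (K := 241) (D := ⟨1, 1, 1, 13⟩) (Box.of 4 (by decide +kernel))
    (by decide +kernel)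

theorem t3k33_xd1 : NC (pe t3d33.d1 t3d33.e1 - t3d33.eA t3d33.eU t3d33.e1) :=
  NC.of (K := 288) (D := ⟨1, 12, 1, 12⟩) (Box.of 4 (by decide +kernel))
    (by decide +kernel)

theorem t3k33_xd2 : NC (pe t3d33.d2 t3d33.e1 - t3d33.eB t3d33.eU t3d33.e1) :=
  NC.of (K := 290) (D := ⟨1, 12, 1, 12⟩) (Box.of 4 (by decide +kernel))
    (by decide +kernel)

theorem t3k33_xt1 : NC (pe t3d33.t1 t3d33.e1 - t3d33.eAT t3d33.eU t3d33.e1) :=
  NC.of (K := 472) (D := ⟨1, 19, 1, 19⟩) (Box.of 4 (by decide +kernel))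
    (by decide +kernel)

theorem t3k33_xt2 : NC (pe t3d33.t2 t3d33.e1 - t3d33.eBT t3d33.eU t3d33.e1) :=
  NC.of (K := 474) (D := ⟨1, 19, 1, 19⟩) (Box.of 4 (by decide +kernel))
    (by decide +kernel)

theorem t3k33_xdy : NC (pe t3d33.dy t3d33.e1 - t3d33.eSD t3d33.eU t3d33.e1) :=
  NC.of (K := 449) (D := ⟨1, 18, 1, 12⟩) (Box.of 4 (by decide +kernel))
    (by decide +kernel)

theorem t3k33_xty : NC (pe t3d33.ty t3d33.e1 - t3d33.eST t3d33.eU t3d33.e1) :=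
  NC.of (K := 673) (D := ⟨1, 26, 1, 26⟩) (Box.of 4 (by decide +kernel))
    (by decide +kernel)

theorem t3k33_xd1s : NC (pe t3r33.d1 (t1v t3c33) - pe t3d33.d1 (Xcd.ew zW t3c33)) :=
  NC.of (K := 557) (D := ⟨1, 1, 1, 55⟩) (Box.of 4 (by decide +kernel))
    (by decide +kernel)

theorem t3k33_xd2s : NC (pe t3r33.d2 (t1v t3c33) - pe t3d33.d2 (Xcd.ew zW t3c33)) :=
  NC.of (K := 555) (D := ⟨1, 1, 1, 55⟩) (Box.of 4 (by decide +kernel))
    (by decide +kernel)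

theorem t3k33_xt1s : NC (pe t3r33.t1 (t1v t3c33) - pe t3d33.t1 (Xcd.ew zW t3c33)) :=
  NC.of (K := 556) (D := ⟨1, 1, 1, 55⟩) (Box.of 4 (by decide +kernel))
    (by decide +kernel)

theorem t3k33_xt2s : NC (pe t3r33.t2 (t1v t3c33) - pe t3d33.t2 (Xcd.ew zW t3c33)) :=
  NC.of (K := 559) (D := ⟨1, 1, 1, 55⟩) (Box.of 4 (by decide +kernel))
    (by decide +kernel)

theorem t3k33_xdys : NC (pe t3r33.dy (t1v t3c33) - pe t3d33.dy (Xcd.ew zW t3c33)) :=
  NC.of (K := 558) (D := ⟨1, 1, 1, 55⟩) (Box.of 4 (by decide +kernel))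
    (by decide +kernel)

theorem t3k33_xtys : NC (pe t3r33.ty (t1v t3c33) - pe t3d33.ty (Xcd.ew zW t3c33)) :=
  NC.of (K := 562) (D := ⟨1, 1, 1, 55⟩) (Box.of 4 (by decide +kernel))
    (by decide +kernel)

theorem t3k33_xhz : NC (pe t3r33.hz (t1v t3c33) - pe t3d33.c.dR (Xcd.ew zW t3c33)) :=
  NC.of (K := 388) (D := ⟨1, 1, 1, 37⟩) (Box.of 4 (by decide +kernel))
    (by decide +kernel)

theorem t3f33_ok : t3f33.ok V2L.y15 V2L.k15 V2L.nb V2L.la (10 ^ 30) 32 = true := by decide +kernel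

theorem t3k33_sg : t3c33.Sg := by
  constructor <;> decide +kernel

theorem t3k33_rgs : t3c33.Rgs where
  M := ⟨t3k33_M_r1, t3k33_M_r2, t3k33_M_r3, t3k33_M_r4⟩
  r0 := ⟨t3k33_r0_r1, t3k33_r0_r2, t3k33_r0_r3, t3k33_r0_r4⟩
  r1 := ⟨t3k33_r1_r1, t3k33_r1_r2, t3k33_r1_r3, t3k33_r1_r4⟩
  r2 := ⟨t3k33_r2_r1, t3k33_r2_r2, t3k33_r2_r3, t3k33_r2_r4⟩
  rc := ⟨t3k33_rc_r1, t3k33_rc_r2, t3k33_rc_r3, t3k33_rc_r4⟩
  rI := ⟨t3k33_rI_r1, t3k33_rI_r2, t3k33_rI_r3, t3k33_rI_r4⟩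
  rJ := ⟨t3k33_rJ_r1, t3k33_rJ_r2, t3k33_rJ_r3, t3k33_rJ_r4⟩

theorem t3k33_xn : t3e33.Ok t3c33 where
  lm := by decide +kernel
  dl0 := by decide +kernel
  dl1 := by decide +kernel
  e2 := by decide +kernel
  eY := by decide +kernel
  gE := ⟨t3k33_gE_r1, t3k33_gE_r2, t3k33_gE_r3, t3k33_gE_r4⟩

theorem t3k33_vl : t3c33.Vl dW qW where
  bt := by decide +kernel
  B0 := t3k33_B0
  E0 := t3k33_E0
  D0 := t3k33_D0
  Bh := t3k33_Bh
  Eh := t3k33_Eh
  Dh := t3k33_Dh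
  B1 := t3k33_B1
  E1 := t3k33_E1
  D1 := t3k33_D1

theorem t3k33_rat : t3n33.Rat t3c33 := by
  constructor <;> decide +kernel

theorem t3k33_ck : t3n33.Ck t3c33 := ⟨t3k33_l, t3k33_n⟩

theorem t3k33_fck : t3n33.Fck dW qW fW t3c33 := ⟨t3k33_rb, t3k33_kap⟩

theorem t3k33_w : Wcl zW kW yW t3al t3c33 t3n33 t3m33 where
  b2 := t3k33_wb2
  mb := t3k33_wmb
  th := t3k33_wth
  yb := t3k33_wyb
  mu := t3k33_wmu
  cj := t3k33_wcj
  mt1 := by decide +kernel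
  mt2 := by decide +kernel

theorem t3k33_ok : CelOk dW qW fW t3c33 t3n33 where
  s := t3k33_sg
  r := t3k33_rgs
  v := t3k33_vl
  rt := t3k33_rat
  k := t3k33_ck
  fc := t3k33_fck
  q01 := by decide +kernel
  q12 := by decide +kernel
  h2 := by decide +kernel

theorem t3k33_xr : t3r33.Ok fW t3c33 t3e33 where
  sD := by decide +kernel
  sT := by decide +kernel
  nd1 := t3k33_nd1
  nd2 := t3k33_nd2
  ndy := t3k33_ndy
  nt1 := t3k33_nt1
  nt2 := t3k33_nt2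
  nty := t3k33_nty
  nhz := t3k33_nhz
  xi := t3k33_xi
  om := t3k33_om

theorem t3k33_X : t3d33.Ck t3GR t3HR zW t3c33 t3e33 t3r33 where
  u0 := by decide +kernel
  u01 := by decide +kernel
  ul := by decide +kernel
  us := by decide +kernel
  uc := by decide +kernel
  ga0 := by decide +kernel
  kp0 := by decide +kernel
  lm := by decide +kernel
  dl := t3k33_xdl
  eY := t3k33_xeY
  gr := t3k33_xgr
  hr := t3k33_xhr
  gs := t3k33_xgs
  d1 := t3k33_xd1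
  d2 := t3k33_xd2
  t1 := t3k33_xt1
  t2 := t3k33_xt2
  dy := t3k33_xdy
  ty := t3k33_xty
  d1s := t3k33_xd1s
  d2s := t3k33_xd2s
  t1s := t3k33_xt1s
  t2s := t3k33_xt2s
  dys := t3k33_xdys
  tys := t3k33_xtys
  hz := t3k33_xhz

end Pool.Agent.RX.RCN.K
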