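import Pool.Agent.RX.RCN.T3D
import Pool.Agent.RX.RCN.T3Wq
import Pool.Agent.RX.RCN.T3X16
import Pool.Agent.RX.RCN.VLd

/-! Certificates (generated). -/

set_option autoImplicit false

namespace Pool.Agent.RX.RCN.K

open Set Pool.Agent.RX.RCM9 Pool.Agent.RX.RCM9.Bern Pool.Agent.RX.RCM9.Pk Xce

def t3c34 : Cel where
  t0 := 12 / 25
  t1 := 97 / 200
  C := 4097 / 4096
  th := 1013 / 2048
  B0 := 533 / 512
  Bh := 2445 / 2048
  B1 := 1203 / 1024
  D0 := 1487 / 4096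
  Dh := 1247 / 4096
  D1 := 597 / 2048
  E0 := 357 / 32768
  Eh := 39571 / 4194304
  E1 := 37909 / 4194304
  Q0 := 1069 / 1024
  Q1 := 1069 / 1024
  Q2 := 1143 / 1024
  Ac := 535 / 512
  gI := 1071 / 1024
  J := 1239 / 65536

def t3n34 : Chn where
  lb := 513 / 512
  nb := 167 / 512
  Mb := 523 / 512
  b2 := 1045 / 1024
  Yb := 59 / 4096
  E2 := 527 / 512
  e1 := 169 / 128
  Z1 := 1117 / 1024
  Z2 := 639 / 1024
  KB := 1069 / 1024
  cb := 1091 / 1024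
  rb := 205 / 512
  om := 263 / 256
  fb := 129 / 128
  kap := 4211 / 4096
  ab := 1029 / 1024

def t3e34 : Xge where
  lm := 3 / 5
  dl := 1935 / 4096
  e2 := 2159 / 16384
  eY := 4159 / 4096
  gE := 297 / 256

def t3r34 : Xr where
  d1 := [3385963 / 100000000, 138893 / 20000000, 3753683 / 100000000, 7367 / 3125000, 9523021 /
    50000000, -1163057 / 3125000, 32451017 / 100000000]
  d2 := [327027 / 100000000, 3848371 / 100000000, 207587 / 2500000, 9981333 / 50000000, 49911 /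
    100000000, -24010027 / 50000000, 53693779 / 100000000]
  dy := [39229187 / 100000000, 3789397 / 25000000, 40904383 / 100000000, 57490779 / 50000000,
    -39333237 / 50000000, -153240831 / 100000000, 54473627 / 25000000]
  t1 := [17173503 / 100000000, -46532463 / 100000000, 20089881 / 100000000, 24910031 / 50000000,
    3479481 / 5000000, -282956543 / 100000000, 296829279 / 100000000]
  t2 := [278969 / 5000000, -6559017 / 50000000, 6378047 / 100000000, 15840563 / 25000000,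
    -35751933 / 100000000, -27130737 / 100000000, 22951529 / 50000000]
  ty := [152555087 / 100000000, -54091831 / 12500000, 3622663 / 10000000, 2365226623 / 100000000,
    -780025977 / 20000000, 561553741 / 25000000, -63446331 / 50000000]
  hz := [18755327 / 100000000, -26886867 / 100000000, -340973389 / 100000000, 539029891 /
    50000000, -10759601 / 1250000, -1231733 / 4000000, 4624817 / 20000000]
  om := [100396703 / 100000000, 2053109 / 2000000, -35136077 / 2500000, 5846517733 / 100000000,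
    -8007004881 / 50000000, 21311903783 / 50000000, -92585556807 / 100000000, 120891563633 /
    100000000, -17108953931 / 25000000]
  sD := 319 / 128
  sT := 571 / 256
  xi := [7071297 / 50000000, 48517367 / 50000000, -379944789 / 100000000, -8032713 / 100000000,
    3011784993 / 100000000, -7958352471 / 100000000, 17772868923 / 100000000, -1257565443 /
    3125000, 58972852861 / 100000000, -9161281033 / 25000000]

def t3f34 : Dl where
  Ca := 37662 / 78125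
  Cv := 243587 / 500000
  k1 := 4538537 / 5000000
  ks := 88783 / 100000
  dd := 0
  kp := 1 / 10000000
  e := [199999939453 / 200000000000, -352961682891 / 250000000000, 155475241471 / 100000000000,
    -304684663169 / 200000000000, 352516180831 / 250000000000, -1208464715801 / 1000000000000,
    56513499523 / 62500000000, -252669627027 / 500000000000, 148131120623 / 1000000000000]
  j1 := [-455713 / 1000000000, -7465179903 / 1000000000, 69563034503 / 1000000000, -59147076029 /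
    200000000, 686941271913 / 1000000000, -417357774727 / 500000000, 414234707603 / 1000000000]
  nu := [118963587 / 1000000000, -124321891 / 500000000, 192703801 / 500000000, 310843 /
    1000000000, -239619 / 125000000, 452181339 / 1000000000, -336246811 / 1000000000]
  k2 := [177566353 / 200000000, 55203739 / 250000000, -157374607 / 500000000, -43115483 /
    500000000, 82867917 / 1000000000, -9709761 / 20000000, 79909233 / 200000000]
  dR := [748703 / 4000000, -5355793 / 20000000, -33939469 / 10000000, 214450543 / 20000000,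
    -216538983 / 25000000]

def t3d34 : Xce where
  u0 := 241291 / 500000
  u1 := 243587 / 500000
  l := V2L.y16
  y := t3z16
  j := t3j16
  i := t3i16
  ls := t3y16
  k := V2L.k16
  c := t3f34
  ga := 16891 / 500000
  gb := -7529 / 500000
  hb := 739 / 4000
  gs := [20000413 / 12500000, 239999783 / 100000000, 18000697 / 10000000, 79516649 / 100000000,
    5411291 / 20000000, -6508717 / 50000000, -1320769 / 25000000]
  d1 := [422913 / 12500000, 350731 / 50000000, 3464189 / 100000000, 3077443 / 100000000, 5128153 /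
    100000000, -6376617 / 100000000, 6775899 / 100000000]
  d2 := [161931 / 50000000, 1929097 / 50000000, 3807821 / 50000000, 266387 / 1000000, -8311071 /
    25000000, 26955987 / 100000000, -9277263 / 100000000]
  dy := [3919631 / 10000000, 15203337 / 100000000, 37934299 / 100000000, 28648831 / 20000000,
    -11009 / 5000, 167200061 / 100000000, -26015669 / 50000000]
  t1 := [17164293 / 100000000, -46334551 / 100000000, 9292309 / 50000000, 62160137 / 100000000,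
    2899049 / 20000000, -171573217 / 100000000, 52899831 / 25000000]
  t2 := [1115227 / 20000000, -6523667 / 50000000, 136889 / 2500000, 71729047 / 100000000,
    -19327737 / 25000000, 32130507 / 50000000, -14484901 / 50000000]
  ty := [152476223 / 100000000, -431142189 / 100000000, 29318019 / 100000000, 2406562097 /
    100000000, -4127148527 / 100000000, 1386482891 / 50000000, -279756683 / 50000000]

def t3m34 : ℚ := 479 / 1024

def t3h34 : ℚ := 129 / 250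

theorem t3k34_M_r1 : NC (fM t3c34 (1 - eh) eh ek (elo t3c34.B0 t3c34.Bh eh) (elo t3c34.D0 t3c34.Dh ek) (elo t3c34.E0 t3c34.Eh ek)) :=
  NC.of (K := 32) (D := ⟨4, 3, 1, 1⟩) (Box.of 4 (by decide +kernel))
    (by decide +kernel)

theorem t3k34_M_r2 : NC (fM t3c34 eh (1 - eh) ek (ehi t3c34.Bh t3c34.B1 (1 - eh)) (elo t3c34.D0 t3c34.Dh ek) (elo t3c34.E0 t3c34.Eh ek)) :=
  NC.of (K := 32) (D := ⟨4, 3, 1, 1⟩) (Box.of 4 (by decide +kernel))
    (by decide +kernel)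

theorem t3k34_M_r3 : NC (fM t3c34 (1 - eh) ek eh (elo t3c34.B0 t3c34.Bh ek) (elo t3c34.D0 t3c34.Dh eh) (elo t3c34.E0 t3c34.Eh eh)) :=
  NC.of (K := 31) (D := ⟨4, 2, 1, 1⟩) (Box.of 4 (by decide +kernel))
    (by decide +kernel)

theorem t3k34_M_r4 : NC (fM t3c34 eh ek (1 - eh) (elo t3c34.B0 t3c34.Bh ek) (ehi t3c34.Dh t3c34.D1 (1 - eh)) (ehi t3c34.Eh t3c34.E1 (1 - eh))) :=
  NC.of (K := 32) (D := ⟨4, 2, 1, 1⟩) (Box.of 4 (by decide +kernel))
    (by decide +kernel)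

theorem t3k34_r0_r1 : NC (f0 t3c34 (1 - eh) eh ek (elo t3c34.B0 t3c34.Bh eh) (elo t3c34.D0 t3c34.Dh ek) (elo t3c34.E0 t3c34.Eh ek)) :=
  NC.of (K := 149) (D := ⟨13, 9, 1, 1⟩) (Box.of 4 (by decide +kernel))
    (by decide +kernel)

theorem t3k34_r0_r2 : NC (f0 t3c34 eh (1 - eh) ek (ehi t3c34.Bh t3c34.B1 (1 - eh)) (elo t3c34.D0 t3c34.Dh ek) (elo t3c34.E0 t3c34.Eh ek)) :=
  NC.of (K := 149) (D := ⟨13, 9, 1, 1⟩) (Box.of 4 (by decide +kernel))
    (by decide +kernel)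

theorem t3k34_r0_r3 : NC (f0 t3c34 (1 - eh) ek eh (elo t3c34.B0 t3c34.Bh ek) (elo t3c34.D0 t3c34.Dh eh) (elo t3c34.E0 t3c34.Eh eh)) :=
  NC.of (K := 144) (D := ⟨13, 5, 1, 1⟩) (Box.of 4 (by decide +kernel))
    (by decide +kernel)

theorem t3k34_r0_r4 : NC (f0 t3c34 eh ek (1 - eh) (elo t3c34.B0 t3c34.Bh ek) (ehi t3c34.Dh t3c34.D1 (1 - eh)) (ehi t3c34.Eh t3c34.E1 (1 - eh))) :=
  NC.of (K := 149) (D := ⟨13, 5, 1, 1⟩) (Box.of 4 (by decide +kernel))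
    (by decide +kernel)

theorem t3k34_r1_r1 : NC (f1 t3c34 (1 - eh) eh ek (elo t3c34.B0 t3c34.Bh eh) (elo t3c34.D0 t3c34.Dh ek) (elo t3c34.E0 t3c34.Eh ek)) :=
  NC.of (K := 227) (D := ⟨16, 9, 1, 1⟩) (Box.of 4 (by decide +kernel))
    (by decide +kernel)

theorem t3k34_r1_r2 : NC (f1 t3c34 eh (1 - eh) ek (ehi t3c34.Bh t3c34.B1 (1 - eh)) (elo t3c34.D0 t3c34.Dh ek) (elo t3c34.E0 t3c34.Eh ek)) :=
  NC.of (K := 228) (D := ⟨16, 9, 1, 1⟩) (Box.of 4 (by decide +kernel))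
    (by decide +kernel)

theorem t3k34_r1_r3 : NC (f1 t3c34 (1 - eh) ek eh (elo t3c34.B0 t3c34.Bh ek) (elo t3c34.D0 t3c34.Dh eh) (elo t3c34.E0 t3c34.Eh eh)) :=
  NC.of (K := 230) (D := ⟨16, 12, 1, 1⟩) (Box.of 4 (by decide +kernel))
    (by decide +kernel)

theorem t3k34_r1_r4 : NC (f1 t3c34 eh ek (1 - eh) (elo t3c34.B0 t3c34.Bh ek) (ehi t3c34.Dh t3c34.D1 (1 - eh)) (ehi t3c34.Eh t3c34.E1 (1 - eh))) :=
  NC.of (K := 231) (D := ⟨16, 12, 1, 1⟩) (Box.of 4 (by decide +kernel))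
    (by decide +kernel)

theorem t3k34_r2_r1 : NC (f2 t3c34 (1 - eh) eh ek (elo t3c34.B0 t3c34.Bh eh) (elo t3c34.D0 t3c34.Dh ek) (elo t3c34.E0 t3c34.Eh ek)) :=
  NC.of (K := 257) (D := ⟨16, 11, 1, 1⟩) (Box.of 288 (by decide +kernel))
    (by decide +kernel)

theorem t3k34_r2_r2 : NC (f2 t3c34 eh (1 - eh) ek (ehi t3c34.Bh t3c34.B1 (1 - eh)) (elo t3c34.D0 t3c34.Dh ek) (elo t3c34.E0 t3c34.Eh ek)) :=
  NC.of (K := 231) (D := ⟨16, 11, 1, 1⟩) (Box.of 4 (by decide +kernel))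
    (by decide +kernel)

theorem t3k34_r2_r3 : NC (f2 t3c34 (1 - eh) ek eh (elo t3c34.B0 t3c34.Bh ek) (elo t3c34.D0 t3c34.Dh eh) (elo t3c34.E0 t3c34.Eh eh)) :=
  NC.of (K := 259) (D := ⟨16, 12, 1, 1⟩) (Box.of 288 (by decide +kernel))
    (by decide +kernel)

theorem t3k34_r2_r4 : NC (f2 t3c34 eh ek (1 - eh) (elo t3c34.B0 t3c34.Bh ek) (ehi t3c34.Dh t3c34.D1 (1 - eh)) (ehi t3c34.Eh t3c34.E1 (1 - eh))) :=
  NC.of (K := 233) (D := ⟨16, 12, 1, 1⟩) (Box.of 4 (by decide +kernel))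
    (by decide +kernel)

theorem t3k34_rc_r1 : NC (fc t3c34 (1 - eh) eh ek (elo t3c34.B0 t3c34.Bh eh) (elo t3c34.D0 t3c34.Dh ek) (elo t3c34.E0 t3c34.Eh ek)) :=
  NC.of (K := 146) (D := ⟨13, 9, 1, 1⟩) (Box.of 4 (by decide +kernel))
    (by decide +kernel)

theorem t3k34_rc_r2 : NC (fc t3c34 eh (1 - eh) ek (ehi t3c34.Bh t3c34.B1 (1 - eh)) (elo t3c34.D0 t3c34.Dh ek) (elo t3c34.E0 t3c34.Eh ek)) :=
  NC.of (K := 146) (D := ⟨13, 9, 1, 1⟩) (Box.of 4 (by decide +kernel))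
    (by decide +kernel)

theorem t3k34_rc_r3 : NC (fc t3c34 (1 - eh) ek eh (elo t3c34.B0 t3c34.Bh ek) (elo t3c34.D0 t3c34.Dh eh) (elo t3c34.E0 t3c34.Eh eh)) :=
  NC.of (K := 142) (D := ⟨13, 5, 1, 1⟩) (Box.of 4 (by decide +kernel))
    (by decide +kernel)

theorem t3k34_rc_r4 : NC (fc t3c34 eh ek (1 - eh) (elo t3c34.B0 t3c34.Bh ek) (ehi t3c34.Dh t3c34.D1 (1 - eh)) (ehi t3c34.Eh t3c34.E1 (1 - eh))) :=
  NC.of (K := 147) (D := ⟨13, 5, 1, 1⟩) (Box.of 4 (by decide +kernel))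
    (by decide +kernel)

theorem t3k34_rI_r1 : NC (fI t3c34 (1 - eh) eh ek (elo t3c34.B0 t3c34.Bh eh) (elo t3c34.D0 t3c34.Dh ek) (elo t3c34.E0 t3c34.Eh ek)) :=
  NC.of (K := 138) (D := ⟨13, 9, 1, 1⟩) (Box.of 4 (by decide +kernel))
    (by decide +kernel)

theorem t3k34_rI_r2 : NC (fI t3c34 eh (1 - eh) ek (ehi t3c34.Bh t3c34.B1 (1 - eh)) (elo t3c34.D0 t3c34.Dh ek) (elo t3c34.E0 t3c34.Eh ek)) :=
  NC.of (K := 138) (D := ⟨13, 9, 1, 1⟩) (Box.of 4 (by decide +kernel))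
    (by decide +kernel)

theorem t3k34_rI_r3 : NC (fI t3c34 (1 - eh) ek eh (elo t3c34.B0 t3c34.Bh ek) (elo t3c34.D0 t3c34.Dh eh) (elo t3c34.E0 t3c34.Eh eh)) :=
  NC.of (K := 133) (D := ⟨13, 5, 1, 1⟩) (Box.of 4 (by decide +kernel))
    (by decide +kernel)

theorem t3k34_rI_r4 : NC (fI t3c34 eh ek (1 - eh) (elo t3c34.B0 t3c34.Bh ek) (ehi t3c34.Dh t3c34.D1 (1 - eh)) (ehi t3c34.Eh t3c34.E1 (1 - eh))) :=
  NC.of (K := 139) (D := ⟨13, 5, 1, 1⟩) (Box.of 4 (by decide +kernel))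
    (by decide +kernel)

theorem t3k34_rJ_r1 : NC (fJ t3c34 (1 - eh) eh ek (elo t3c34.B0 t3c34.Bh eh) (elo t3c34.D0 t3c34.Dh ek) (elo t3c34.E0 t3c34.Eh ek)) :=
  NC.of (K := 77) (D := ⟨7, 5, 1, 1⟩) (Box.of 4 (by decide +kernel))
    (by decide +kernel)

theorem t3k34_rJ_r2 : NC (fJ t3c34 eh (1 - eh) ek (ehi t3c34.Bh t3c34.B1 (1 - eh)) (elo t3c34.D0 t3c34.Dh ek) (elo t3c34.E0 t3c34.Eh ek)) :=
  NC.of (K := 77) (D := ⟨7, 5, 1, 1⟩) (Box.of 4 (by decide +kernel))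
    (by decide +kernel)

theorem t3k34_rJ_r3 : NC (fJ t3c34 (1 - eh) ek eh (elo t3c34.B0 t3c34.Bh ek) (elo t3c34.D0 t3c34.Dh eh) (elo t3c34.E0 t3c34.Eh eh)) :=
  NC.of (K := 74) (D := ⟨7, 3, 1, 1⟩) (Box.of 4 (by decide +kernel))
    (by decide +kernel)

theorem t3k34_rJ_r4 : NC (fJ t3c34 eh ek (1 - eh) (elo t3c34.B0 t3c34.Bh ek) (ehi t3c34.Dh t3c34.D1 (1 - eh)) (ehi t3c34.Eh t3c34.E1 (1 - eh))) :=
  NC.of (K := 77) (D := ⟨7, 3, 1, 1⟩) (Box.of 4 (by decide +kernel))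
    (by decide +kernel)

theorem t3k34_gE_r1 : NC (fE t3c34 t3e34 (1 - eh) eh ek (elo t3c34.B0 t3c34.Bh eh) (elo t3c34.D0 t3c34.Dh ek) (elo t3c34.E0 t3c34.Eh ek)) :=
  NC.of (K := 180) (D := ⟨13, 9, 1, 1⟩) (Box.of 18688 (by decide +kernel))
    (by decide +kernel)

theorem t3k34_gE_r2 : NC (fE t3c34 t3e34 eh (1 - eh) ek (ehi t3c34.Bh t3c34.B1 (1 - eh)) (elo t3c34.D0 t3c34.Dh ek) (elo t3c34.E0 t3c34.Eh ek)) :=
  NC.of (K := 136) (D := ⟨13, 9, 1, 1⟩) (Box.of 4 (by decide +kernel))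
    (by decide +kernel)

theorem t3k34_gE_r3 : NC (fE t3c34 t3e34 (1 - eh) ek eh (elo t3c34.B0 t3c34.Bh ek) (elo t3c34.D0 t3c34.Dh eh) (elo t3c34.E0 t3c34.Eh eh)) :=
  NC.of (K := 178) (D := ⟨13, 7, 1, 1⟩) (Box.of 18688 (by decide +kernel))
    (by decide +kernel)

theorem t3k34_gE_r4 : NC (fE t3c34 t3e34 eh ek (1 - eh) (elo t3c34.B0 t3c34.Bh ek) (ehi t3c34.Dh t3c34.D1 (1 - eh)) (ehi t3c34.Eh t3c34.E1 (1 - eh))) :=
  NC.of (K := 139) (D := ⟨13, 7, 1, 1⟩) (Box.of 4 (by decide +kernel))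
    (by decide +kernel)

theorem t3k34_B0 : NC (kB dW 1 0 t3c34.B0 (tcl t3c34)) :=
  NC.of (K := 102) (D := ⟨1, 1, 1, 9⟩) (Box.of 4 (by decide +kernel))
    (by decide +kernel)

theorem t3k34_E0 : NC (kE dW qW qW.p0 qW.q0 t3c34.E0 (tcl t3c34)) :=
  NC.of (K := 226) (D := ⟨1, 1, 1, 19⟩) (Box.of 4 (by decide +kernel))
    (by decide +kernel)

theorem t3k34_D0 : NC (kD dW qW 1 0 qW.p0 qW.q0 t3c34.D0 (tcl t3c34)) :=
  NC.of (K := 343) (D := ⟨1, 1, 1, 20⟩) (Box.of 4 (by decide +kernel))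
    (by decide +kernel)

theorem t3k34_Bh : NC (kB dW (1 / 2) (1 / 2) t3c34.Bh (tcl t3c34)) :=
  NC.of (K := 105) (D := ⟨1, 1, 1, 9⟩) (Box.of 4 (by decide +kernel))
    (by decide +kernel)

theorem t3k34_Eh : NC (kE dW qW qW.ph qW.qh t3c34.Eh (tcl t3c34)) :=
  NC.of (K := 230) (D := ⟨1, 1, 1, 19⟩) (Box.of 4 (by decide +kernel))
    (by decide +kernel)

theorem t3k34_Dh : NC (kD dW qW (1 / 2) (1 / 2) qW.ph qW.qh t3c34.Dh (tcl t3c34)) :=
  NC.of (K := 347) (D := ⟨1, 1, 1, 20⟩) (Box.of 4 (by decide +kernel))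
    (by decide +kernel)

theorem t3k34_B1 : NC (kB dW 0 (1 / 2) t3c34.B1 (tcl t3c34)) :=
  NC.of (K := 105) (D := ⟨1, 1, 1, 9⟩) (Box.of 4 (by decide +kernel))
    (by decide +kernel)

theorem t3k34_E1 : NC (kE dW qW qW.p1 qW.q1 t3c34.E1 (tcl t3c34)) :=
  NC.of (K := 230) (D := ⟨1, 1, 1, 19⟩) (Box.of 4 (by decide +kernel))
    (by decide +kernel)

theorem t3k34_D1 : NC (kD dW qW 0 (1 / 2) qW.p1 qW.q1 t3c34.D1 (tcl t3c34)) :=
  NC.of (K := 347) (D := ⟨1, 1, 1, 20⟩) (Box.of 4 (by decide +kernel))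
    (by decide +kernel)

theorem t3k34_l : NC (qc t3n34.lb - (1 - vX) * pe (exl t3c34.th) vX ^ 2) :=
  NC.of (K := 118) (D := ⟨10, 1, 1, 1⟩) (Box.of 4 (by decide +kernel))
    (by decide +kernel)

theorem t3k34_n : NC (qc t3n34.nb - vX * (1 - vX) * pe (exl t3c34.th) vX) :=
  NC.of (K := 100) (D := ⟨7, 1, 1, 1⟩) (Box.of 1196064 (by decide +kernel))
    (by decide +kernel)

theorem t3k34_rb : NC (krb t3n34 fW (t1v t3c34)) :=
  NC.of (K := 201) (D := ⟨1, 1, 1, 16⟩) (Box.of 4 (by decide +kernel))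
    (by decide +kernel)

theorem t3k34_kap : NC (kkap dW qW t3n34 (tcl t3c34)) :=
  NC.of (K := 102) (D := ⟨1, 1, 1, 9⟩) (Box.of 4 (by decide +kernel))
    (by decide +kernel)

theorem t3k34_wb2 : NC (qc t3n34.b2 - pe2 kW.QB (vZ * t1v t3c34) (t1v t3c34)) :=
  NC.of (K := 166) (D := ⟨1, 6, 1, 11⟩) (Box.of 18531 (by decide +kernel))
    (by decide +kernel)

theorem t3k34_wmb : NC (qc t3n34.Mb - pe zW.mb (t1v t3c34)) :=
  NC.of (K := 123) (D := ⟨1, 1, 1, 9⟩) (Box.of 291 (by decide +kernel))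
    (by decide +kernel)

theorem t3k34_wth : NC (qc (t3c34.th / t3c34.t1) - pe2 zW.Qt (vZ * t1v t3c34) (t1v t3c34)) :=
  NC.of (K := 162) (D := ⟨1, 6, 1, 11⟩) (Box.of 291 (by decide +kernel))
    (by decide +kernel)

theorem t3k34_wyb : NC (qc t3n34.Yb - (t1v t3c34 - vZ * t1v t3c34) ^ 3 * pe2 yW.QY (vZ * t1v t3c34) (t1v t3c34)) :=
  NC.of (K := 142) (D := ⟨1, 8, 1, 12⟩) (Box.of 4 (by decide +kernel))
    (by decide +kernel)

theorem t3k34_wmu : NC (qc t3m34 - pe t3al (tcl t3c34) * (1 + hlf * tcl t3c34)) :=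
  NC.of (K := 99) (D := ⟨1, 1, 1, 9⟩) (Box.of 4 (by decide +kernel))
    (by decide +kernel)

theorem t3k34_wcj : NC (qc t3c34.C * ((6 - 3 * vX) * (1 - qc t3m34 * vX)) - (6 - 6 * vX + vX ^ 2)) :=
  NC.of (K := 32) (D := ⟨3, 1, 1, 1⟩) (Box.of 4 (by decide +kernel))
    (by decide +kernel)

theorem t3k34_nd1 : NC (pe t3r34.d1 (t1v t3c34)) :=
  NC.of (K := 79) (D := ⟨1, 1, 1, 7⟩) (Box.of 4 (by decide +kernel))
    (by decide +kernel)

theorem t3k34_nd2 : NC (pe t3r34.d2 (t1v t3c34)) :=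
  NC.of (K := 79) (D := ⟨1, 1, 1, 7⟩) (Box.of 4 (by decide +kernel))
    (by decide +kernel)

theorem t3k34_ndy : NC (pe t3r34.dy (t1v t3c34)) :=
  NC.of (K := 80) (D := ⟨1, 1, 1, 7⟩) (Box.of 4 (by decide +kernel))
    (by decide +kernel)

theorem t3k34_nt1 : NC (pe t3r34.t1 (t1v t3c34)) :=
  NC.of (K := 82) (D := ⟨1, 1, 1, 7⟩) (Box.of 4 (by decide +kernel))
    (by decide +kernel)

theorem t3k34_nt2 : NC (pe t3r34.t2 (t1v t3c34)) :=
  NC.of (K := 80) (D := ⟨1, 1, 1, 7⟩) (Box.of 4 (by decide +kernel))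
    (by decide +kernel)

theorem t3k34_nty : NC (pe t3r34.ty (t1v t3c34)) :=
  NC.of (K := 85) (D := ⟨1, 1, 1, 7⟩) (Box.of 4 (by decide +kernel))
    (by decide +kernel)

theorem t3k34_nhz : NC (pe t3r34.hz (t1v t3c34)) :=
  NC.of (K := 107) (D := ⟨1, 1, 1, 7⟩) (Box.of 18659 (by decide +kernel))
    (by decide +kernel)

theorem t3k34_xi : NC (eXi fW t3c34 t3e34 t3r34 (t1v t3c34)) :=
  NC.of (K := 329) (D := ⟨1, 1, 1, 22⟩) (Box.of 4 (by decide +kernel))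
    (by decide +kernel)

theorem t3k34_om : NC (eOm fW t3r34 (t1v t3c34)) :=
  NC.of (K := 221) (D := ⟨1, 1, 1, 16⟩) (Box.of 291 (by decide +kernel))
    (by decide +kernel)

theorem t3k34_fin : NC (eFin dW t3c34 t3n34 t3r34 t3h34 (tcl t3c34)) :=
  NC.of (K := 232) (D := ⟨1, 1, 1, 14⟩) (Box.of 4 (by decide +kernel))
    (by decide +kernel)

theorem t3k34_xdl : NC (qc t3e34.dl - pe t3d34.l.dl t3d34.eU) :=
  NC.of (K := 70) (D := ⟨1, 4, 1, 1⟩) (Box.of 4 (by decide +kernel))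
    (by decide +kernel)

theorem t3k34_xeY : NC (qc t3e34.eY - pe (e4l t3d34.l.z) t3d34.eU) :=
  NC.of (K := 276) (D := ⟨1, 13, 1, 1⟩) (Box.of 4 (by decide +kernel))
    (by decide +kernel)

theorem t3k34_xgr : NC (qc t3d34.ga * ((1 + qc (3 / 5) * vX) * (1 + (t3d34.eg + hlf * t3d34.eg ^ 2))) + qc t3d34.gb - pe2 t3GR vX t3d34.eU) :=
  NC.of (K := 245) (D := ⟨4, 11, 1, 1⟩) (Box.of 18688 (by decide +kernel))
    (by decide +kernel)

theorem t3k34_xhr : NC (qc t3d34.hb - pe2 t3HR vX t3d34.eU) :=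
  NC.of (K := 254) (D := ⟨3, 12, 1, 1⟩) (Box.of 4 (by decide +kernel))
    (by decide +kernel)

theorem t3k34_xgs : NC (pe t3d34.gs t3d34.e1 - qc (8 / 5) * pe (e4l (ladd t3d34.ls.z t3d34.ls.dl)) t3d34.e1) :=
  NC.of (K := 284) (D := ⟨1, 1, 1, 13⟩) (Box.of 4 (by decide +kernel))
    (by decide +kernel)

theorem t3k34_xd1 : NC (pe t3d34.d1 t3d34.e1 - t3d34.eA t3d34.eU t3d34.e1) :=
  NC.of (K := 277) (D := ⟨1, 12, 1, 12⟩) (Box.of 4 (by decide +kernel))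
    (by decide +kernel)

theorem t3k34_xd2 : NC (pe t3d34.d2 t3d34.e1 - t3d34.eB t3d34.eU t3d34.e1) :=
  NC.of (K := 279) (D := ⟨1, 12, 1, 12⟩) (Box.of 4 (by decide +kernel))
    (by decide +kernel)

theorem t3k34_xt1 : NC (pe t3d34.t1 t3d34.e1 - t3d34.eAT t3d34.eU t3d34.e1) :=
  NC.of (K := 455) (D := ⟨1, 19, 1, 19⟩) (Box.of 4 (by decide +kernel))
    (by decide +kernel)

theorem t3k34_xt2 : NC (pe t3d34.t2 t3d34.e1 - t3d34.eBT t3d34.eU t3d34.e1) :=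
  NC.of (K := 457) (D := ⟨1, 19, 1, 19⟩) (Box.of 4 (by decide +kernel))
    (by decide +kernel)

theorem t3k34_xdy : NC (pe t3d34.dy t3d34.e1 - t3d34.eSD t3d34.eU t3d34.e1) :=
  NC.of (K := 426) (D := ⟨1, 18, 1, 12⟩) (Box.of 4 (by decide +kernel))
    (by decide +kernel)

theorem t3k34_xty : NC (pe t3d34.ty t3d34.e1 - t3d34.eST t3d34.eU t3d34.e1) :=
  NC.of (K := 645) (D := ⟨1, 26, 1, 26⟩) (Box.of 4 (by decide +kernel))
    (by decide +kernel)

theorem t3k34_xd1s : NC (pe t3r34.d1 (t1v t3c34) - pe t3d34.d1 (Xcd.ew zW t3c34)) :=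
  NC.of (K := 702) (D := ⟨1, 1, 1, 55⟩) (Box.of 4 (by decide +kernel))
    (by decide +kernel)

theorem t3k34_xd2s : NC (pe t3r34.d2 (t1v t3c34) - pe t3d34.d2 (Xcd.ew zW t3c34)) :=
  NC.of (K := 703) (D := ⟨1, 1, 1, 55⟩) (Box.of 4 (by decide +kernel))
    (by decide +kernel)

theorem t3k34_xt1s : NC (pe t3r34.t1 (t1v t3c34) - pe t3d34.t1 (Xcd.ew zW t3c34)) :=
  NC.of (K := 705) (D := ⟨1, 1, 1, 55⟩) (Box.of 4 (by decide +kernel))
    (by decide +kernel)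

theorem t3k34_xt2s : NC (pe t3r34.t2 (t1v t3c34) - pe t3d34.t2 (Xcd.ew zW t3c34)) :=
  NC.of (K := 703) (D := ⟨1, 1, 1, 55⟩) (Box.of 4 (by decide +kernel))
    (by decide +kernel)

theorem t3k34_xdys : NC (pe t3r34.dy (t1v t3c34) - pe t3d34.dy (Xcd.ew zW t3c34)) :=
  NC.of (K := 704) (D := ⟨1, 1, 1, 55⟩) (Box.of 4 (by decide +kernel))
    (by decide +kernel)

theorem t3k34_xtys : NC (pe t3r34.ty (t1v t3c34) - pe t3d34.ty (Xcd.ew zW t3c34)) :=
  NC.of (K := 708) (D := ⟨1, 1, 1, 55⟩) (Box.of 4 (by decide +kernel))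
    (by decide +kernel)

theorem t3k34_xhz : NC (pe t3r34.hz (t1v t3c34) - pe t3d34.c.dR (Xcd.ew zW t3c34)) :=
  NC.of (K := 482) (D := ⟨1, 1, 1, 37⟩) (Box.of 4 (by decide +kernel))
    (by decide +kernel)

theorem t3f34_ok : t3f34.ok V2L.y16 V2L.k16 V2L.nb V2L.la (10 ^ 30) 32 = true := by decide +kernel

theorem t3k34_sg : t3c34.Sg := by
  constructor <;> decide +kernel

theorem t3k34_rgs : t3c34.Rgs where
  M := ⟨t3k34_M_r1, t3k34_M_r2, t3k34_M_r3, t3k34_M_r4⟩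
  r0 := ⟨t3k34_r0_r1, t3k34_r0_r2, t3k34_r0_r3, t3k34_r0_r4⟩
  r1 := ⟨t3k34_r1_r1, t3k34_r1_r2, t3k34_r1_r3, t3k34_r1_r4⟩
  r2 := ⟨t3k34_r2_r1, t3k34_r2_r2, t3k34_r2_r3, t3k34_r2_r4⟩
  rc := ⟨t3k34_rc_r1, t3k34_rc_r2, t3k34_rc_r3, t3k34_rc_r4⟩
  rI := ⟨t3k34_rI_r1, t3k34_rI_r2, t3k34_rI_r3, t3k34_rI_r4⟩
  rJ := ⟨t3k34_rJ_r1, t3k34_rJ_r2, t3k34_rJ_r3, t3k34_rJ_r4⟩

theorem t3k34_xn : t3e34.Ok t3c34 where
  lm := by decide +kernel
  dl0 := by decide +kernel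
  dl1 := by decide +kernel
  e2 := by decide +kernel
  eY := by decide +kernel
  gE := ⟨t3k34_gE_r1, t3k34_gE_r2, t3k34_gE_r3, t3k34_gE_r4⟩

theorem t3k34_vl : t3c34.Vl dW qW where
  bt := by decide +kernel
  B0 := t3k34_B0
  E0 := t3k34_E0
  D0 := t3k34_D0
  Bh := t3k34_Bh
  Eh := t3k34_Eh
  Dh := t3k34_Dh
  B1 := t3k34_B1
  E1 := t3k34_E1
  D1 := t3k34_D1

theorem t3k34_rat : t3n34.Rat t3c34 := by
  constructor <;> decide +kernel

theorem t3k34_ck : t3n34.Ck t3c34 := ⟨t3k34_l, t3k34_n⟩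

theorem t3k34_fck : t3n34.Fck dW qW fW t3c34 := ⟨t3k34_rb, t3k34_kap⟩

theorem t3k34_w : Wcl zW kW yW t3al t3c34 t3n34 t3m34 where
  b2 := t3k34_wb2
  mb := t3k34_wmb
  th := t3k34_wth
  yb := t3k34_wyb
  mu := t3k34_wmu
  cj := t3k34_wcj
  mt1 := by decide +kernel
  mt2 := by decide +kernel

theorem t3k34_ok : CelOk dW qW fW t3c34 t3n34 where
  s := t3k34_sg
  r := t3k34_rgs
  v := t3k34_vl
  rt := t3k34_rat
  k := t3k34_ck
  fc := t3k34_fck
  q01 := by decide +kernel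
  q12 := by decide +kernel
  h2 := by decide +kernel

theorem t3k34_xr : t3r34.Ok fW t3c34 t3e34 where
  sD := by decide +kernel
  sT := by decide +kernel
  nd1 := t3k34_nd1
  nd2 := t3k34_nd2
  ndy := t3k34_ndy
  nt1 := t3k34_nt1
  nt2 := t3k34_nt2
  nty := t3k34_nty
  nhz := t3k34_nhz
  xi := t3k34_xi
  om := t3k34_om

theorem t3k34_X : t3d34.Ck t3GR t3HR zW t3c34 t3e34 t3r34 where
  u0 := by decide +kernel
  u01 := by decide +kernel
  ul := by decide +kernel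
  us := by decide +kernel
  uc := by decide +kernel
  ga0 := by decide +kernel
  kp0 := by decide +kernel
  lm := by decide +kernel
  dl := t3k34_xdl
  eY := t3k34_xeY
  gr := t3k34_xgr
  hr := t3k34_xhr
  gs := t3k34_xgs
  d1 := t3k34_xd1
  d2 := t3k34_xd2
  t1 := t3k34_xt1
  t2 := t3k34_xt2
  dy := t3k34_xdy
  ty := t3k34_xty
  d1s := t3k34_xd1s
  d2s := t3k34_xd2s
  t1s := t3k34_xt1s
  t2s := t3k34_xt2s
  dys := t3k34_xdys
  tys := t3k34_xtys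
  hz := t3k34_xhz

end Pool.Agent.RX.RCN.K
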