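import Pool.Agent.RX.RCN.T3D
import Pool.Agent.RX.RCN.T3Wq
import Pool.Agent.RX.RCN.T3X16
import Pool.Agent.RX.RCN.VLd

/-! Certificates (generated). -/

set_option autoImplicit false

namespace Pool.Agent.RX.RCN.K

open Set Pool.Agent.RX.RCM9 Pool.Agent.RX.RCM9.Bern Pool.Agent.RX.RCM9.Pk Xce

def t3c35 : Cel where
  t0 := 97 / 200
  t1 := 49 / 100
  C := 4097 / 4096
  th := 1025 / 2048
  B0 := 133 / 128
  Bh := 153 / 128
  B1 := 2411 / 2048
  D0 := 1499 / 4096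
  Dh := 1259 / 4096
  D1 := 603 / 2048
  E0 := 93 / 8192
  Eh := 41353 / 4194304
  E1 := 39629 / 4194304
  Q0 := 1067 / 1024
  Q1 := 267 / 256
  Q2 := 1149 / 1024
  Ac := 1069 / 1024
  gI := 1069 / 1024
  J := 1307 / 65536

def t3n35 : Chn where
  lb := 513 / 512
  nb := 335 / 1024
  Mb := 131 / 128
  b2 := 1047 / 1024
  Yb := 61 / 4096
  E2 := 1055 / 1024
  e1 := 1359 / 1024
  Z1 := 279 / 256
  Z2 := 5 / 8
  KB := 1071 / 1024
  cb := 273 / 256
  rb := 207 / 512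
  om := 263 / 256
  fb := 129 / 128
  kap := 4215 / 4096
  ab := 1029 / 1024

def t3e35 : Xge where
  lm := 3 / 5
  dl := 977 / 2048
  e2 := 2205 / 16384
  eY := 4161 / 4096
  gE := 149 / 128

def t3r35 : Xr where
  d1 := [3486417 / 100000000, 659281 / 100000000, 3704817 / 100000000, 40437 / 25000000, 9515077 /
    50000000, -36990369 / 100000000, 32069053 / 100000000]
  d2 := [205537 / 50000000, 754651 / 20000000, 7872361 / 100000000, 10393503 / 50000000, -1204097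
    / 100000000, -46615311 / 100000000, 52826601 / 100000000]
  dy := [41996459 / 100000000, 1478519 / 10000000, 38570299 / 100000000, 3008037 / 2500000,
    -43019911 / 50000000, -145798607 / 100000000, 213576869 / 100000000]
  t1 := [17572363 / 100000000, -47049549 / 100000000, 5003387 / 25000000, 23730339 / 50000000,
    78509059 / 100000000, -73947253 / 25000000, 300694099 / 100000000]
  t2 := [5897103 / 100000000, -863593 / 6250000, 622393 / 10000000, 7997827 / 12500000, -113017 /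
    312500, -26673789 / 100000000, 22784389 / 50000000]
  ty := [80374839 / 50000000, -28710883 / 6250000, 7213713 / 6250000, 2077163507 / 100000000,
    -1569119871 / 50000000, 59353081 / 5000000, 459174427 / 100000000]
  hz := [4822267 / 25000000, -14550047 / 50000000, -156159207 / 50000000, 479874121 / 50000000,
    -718957671 / 100000000, -231017 / 390625, 22253801 / 50000000]
  om := [3137397 / 3125000, 102699599 / 100000000, -87974277 / 6250000, 23542809 / 400000,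
    -16361722251 / 100000000, 22142371343 / 50000000, -24237233473 / 25000000, 126823924549 /
    100000000, -71695308023 / 100000000]
  sD := 645 / 256
  sT := 577 / 256
  xi := [15008053 / 100000000, 50175203 / 50000000, -40257059 / 10000000, 68899289 / 100000000,
    2905288203 / 100000000, -8506914233 / 100000000, 21032659743 / 100000000, -47935582689 /
    100000000, 4259665589 / 6250000, -10280823349 / 25000000]

def t3f35 : Dl where
  Ca := 2435863 / 5000000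
  Cv := 492279 / 1000000
  k1 := 362403 / 400000
  ks := 442927 / 500000
  dd := 0
  kp := 1 / 10000000
  e := [999999696957 / 1000000000000, -708783031049 / 500000000000, 313391003591 / 200000000000,
    -154144646037 / 100000000000, 715726688547 / 500000000000, -1229648064397 / 1000000000000,
    115036461157 / 125000000000, -128232180077 / 250000000000, 14953724581 / 100000000000]
  j1 := [-449801 / 1000000000, -1483416129 / 200000000, 70272340207 / 1000000000, -308453292789 /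
    1000000000, 758138378107 / 1000000000, -10183514913 / 10000000, 126320388051 / 200000000,
    -5683836613 / 62500000]
  nu := [15148973 / 125000000, -62660199 / 250000000, 192245643 / 500000000, 6503761 / 1000000000,
    -33231873 / 1000000000, 123348361 / 250000000, -355059117 / 1000000000]
  k2 := [442927529 / 500000000, 222095599 / 1000000000, -7819111 / 25000000, -23124561 /
    250000000, 56028217 / 500000000, -523122727 / 1000000000, 414977317 / 1000000000]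
  dR := [9625063 / 50000000, -28973821 / 100000000, -155621133 / 50000000, 479109969 / 50000000,
    -739996927 / 100000000]

def t3d35 : Xce where
  u0 := 487681 / 1000000
  u1 := 492279 / 1000000
  l := V2L.y16
  y := t3z16
  j := t3j16
  i := t3i16
  ls := t3y16
  k := V2L.k16
  c := t3f35
  ga := 6957 / 200000
  gb := -15343 / 1000000
  hb := 973 / 5000
  gs := [625013 / 390625, 239999767 / 100000000, 180007387 / 100000000, 19878147 / 25000000,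
    13537071 / 50000000, -3263153 / 25000000, -2628519 / 50000000]
  d1 := [870927 / 25000000, 333119 / 50000000, 3419987 / 100000000, 1478601 / 50000000, 2669871 /
    50000000, -3329103 / 50000000, 6821827 / 100000000]
  d2 := [20393 / 5000000, 3783103 / 100000000, 7193289 / 100000000, 13694267 / 50000000, -17076759
    / 50000000, 13797767 / 50000000, -9500479 / 100000000]
  dy := [41962169 / 100000000, 926961 / 6250000, 3563571 / 10000000, 74150769 / 50000000,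
    -226305239 / 100000000, 171897383 / 100000000, -54034713 / 100000000]
  t1 := [17562899 / 100000000, -182992 / 390625, 2301473 / 12500000, 30329211 / 50000000, 20071883
    / 100000000, -89261273 / 50000000, 211726093 / 100000000]
  t2 := [2946903 / 50000000, -859033 / 6250000, 5321763 / 100000000, 14464933 / 20000000,
    -19381207 / 25000000, 64090251 / 100000000, -28646761 / 100000000]
  ty := [80333279 / 50000000, -228842827 / 50000000, 107715793 / 100000000, 265454459 / 12500000,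
    -3383696311 / 100000000, 1745249457 / 100000000, 815123 / 12500000]

def t3m35 : ℚ := 1935 / 4096

def t3h35 : ℚ := 257 / 500

theorem t3k35_M_r1 : NC (fM t3c35 (1 - eh) eh ek (elo t3c35.B0 t3c35.Bh eh) (elo t3c35.D0 t3c35.Dh ek) (elo t3c35.E0 t3c35.Eh ek)) :=
  NC.of (K := 31) (D := ⟨4, 3, 1, 1⟩) (Box.of 4 (by decide +kernel))
    (by decide +kernel)

theorem t3k35_M_r2 : NC (fM t3c35 eh (1 - eh) ek (ehi t3c35.Bh t3c35.B1 (1 - eh)) (elo t3c35.D0 t3c35.Dh ek) (elo t3c35.E0 t3c35.Eh ek)) :=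
  NC.of (K := 31) (D := ⟨4, 3, 1, 1⟩) (Box.of 4 (by decide +kernel))
    (by decide +kernel)

theorem t3k35_M_r3 : NC (fM t3c35 (1 - eh) ek eh (elo t3c35.B0 t3c35.Bh ek) (elo t3c35.D0 t3c35.Dh eh) (elo t3c35.E0 t3c35.Eh eh)) :=
  NC.of (K := 30) (D := ⟨4, 2, 1, 1⟩) (Box.of 4 (by decide +kernel))
    (by decide +kernel)

theorem t3k35_M_r4 : NC (fM t3c35 eh ek (1 - eh) (elo t3c35.B0 t3c35.Bh ek) (ehi t3c35.Dh t3c35.D1 (1 - eh)) (ehi t3c35.Eh t3c35.E1 (1 - eh))) :=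
  NC.of (K := 31) (D := ⟨4, 2, 1, 1⟩) (Box.of 4 (by decide +kernel))
    (by decide +kernel)

theorem t3k35_r0_r1 : NC (f0 t3c35 (1 - eh) eh ek (elo t3c35.B0 t3c35.Bh eh) (elo t3c35.D0 t3c35.Dh ek) (elo t3c35.E0 t3c35.Eh ek)) :=
  NC.of (K := 151) (D := ⟨13, 9, 1, 1⟩) (Box.of 4 (by decide +kernel))
    (by decide +kernel)

theorem t3k35_r0_r2 : NC (f0 t3c35 eh (1 - eh) ek (ehi t3c35.Bh t3c35.B1 (1 - eh)) (elo t3c35.D0 t3c35.Dh ek) (elo t3c35.E0 t3c35.Eh ek)) :=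
  NC.of (K := 151) (D := ⟨13, 9, 1, 1⟩) (Box.of 4 (by decide +kernel))
    (by decide +kernel)

theorem t3k35_r0_r3 : NC (f0 t3c35 (1 - eh) ek eh (elo t3c35.B0 t3c35.Bh ek) (elo t3c35.D0 t3c35.Dh eh) (elo t3c35.E0 t3c35.Eh eh)) :=
  NC.of (K := 146) (D := ⟨13, 5, 1, 1⟩) (Box.of 4 (by decide +kernel))
    (by decide +kernel)

theorem t3k35_r0_r4 : NC (f0 t3c35 eh ek (1 - eh) (elo t3c35.B0 t3c35.Bh ek) (ehi t3c35.Dh t3c35.D1 (1 - eh)) (ehi t3c35.Eh t3c35.E1 (1 - eh))) :=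
  NC.of (K := 151) (D := ⟨13, 5, 1, 1⟩) (Box.of 4 (by decide +kernel))
    (by decide +kernel)

theorem t3k35_r1_r1 : NC (f1 t3c35 (1 - eh) eh ek (elo t3c35.B0 t3c35.Bh eh) (elo t3c35.D0 t3c35.Dh ek) (elo t3c35.E0 t3c35.Eh ek)) :=
  NC.of (K := 223) (D := ⟨16, 9, 1, 1⟩) (Box.of 4 (by decide +kernel))
    (by decide +kernel)

theorem t3k35_r1_r2 : NC (f1 t3c35 eh (1 - eh) ek (ehi t3c35.Bh t3c35.B1 (1 - eh)) (elo t3c35.D0 t3c35.Dh ek) (elo t3c35.E0 t3c35.Eh ek)) :=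
  NC.of (K := 234) (D := ⟨16, 9, 1, 1⟩) (Box.of 4 (by decide +kernel))
    (by decide +kernel)

theorem t3k35_r1_r3 : NC (f1 t3c35 (1 - eh) ek eh (elo t3c35.B0 t3c35.Bh ek) (elo t3c35.D0 t3c35.Dh eh) (elo t3c35.E0 t3c35.Eh eh)) :=
  NC.of (K := 226) (D := ⟨16, 12, 1, 1⟩) (Box.of 4 (by decide +kernel))
    (by decide +kernel)

theorem t3k35_r1_r4 : NC (f1 t3c35 eh ek (1 - eh) (elo t3c35.B0 t3c35.Bh ek) (ehi t3c35.Dh t3c35.D1 (1 - eh)) (ehi t3c35.Eh t3c35.E1 (1 - eh))) :=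
  NC.of (K := 227) (D := ⟨16, 12, 1, 1⟩) (Box.of 4 (by decide +kernel))
    (by decide +kernel)

theorem t3k35_r2_r1 : NC (f2 t3c35 (1 - eh) eh ek (elo t3c35.B0 t3c35.Bh eh) (elo t3c35.D0 t3c35.Dh ek) (elo t3c35.E0 t3c35.Eh ek)) :=
  NC.of (K := 253) (D := ⟨16, 11, 1, 1⟩) (Box.of 288 (by decide +kernel))
    (by decide +kernel)

theorem t3k35_r2_r2 : NC (f2 t3c35 eh (1 - eh) ek (ehi t3c35.Bh t3c35.B1 (1 - eh)) (elo t3c35.D0 t3c35.Dh ek) (elo t3c35.E0 t3c35.Eh ek)) :=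
  NC.of (K := 237) (D := ⟨16, 11, 1, 1⟩) (Box.of 4 (by decide +kernel))
    (by decide +kernel)

theorem t3k35_r2_r3 : NC (f2 t3c35 (1 - eh) ek eh (elo t3c35.B0 t3c35.Bh ek) (elo t3c35.D0 t3c35.Dh eh) (elo t3c35.E0 t3c35.Eh eh)) :=
  NC.of (K := 255) (D := ⟨16, 12, 1, 1⟩) (Box.of 288 (by decide +kernel))
    (by decide +kernel)

theorem t3k35_r2_r4 : NC (f2 t3c35 eh ek (1 - eh) (elo t3c35.B0 t3c35.Bh ek) (ehi t3c35.Dh t3c35.D1 (1 - eh)) (ehi t3c35.Eh t3c35.E1 (1 - eh))) :=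
  NC.of (K := 229) (D := ⟨16, 12, 1, 1⟩) (Box.of 4 (by decide +kernel))
    (by decide +kernel)

theorem t3k35_rc_r1 : NC (fc t3c35 (1 - eh) eh ek (elo t3c35.B0 t3c35.Bh eh) (elo t3c35.D0 t3c35.Dh ek) (elo t3c35.E0 t3c35.Eh ek)) :=
  NC.of (K := 151) (D := ⟨13, 9, 1, 1⟩) (Box.of 4 (by decide +kernel))
    (by decide +kernel)

theorem t3k35_rc_r2 : NC (fc t3c35 eh (1 - eh) ek (ehi t3c35.Bh t3c35.B1 (1 - eh)) (elo t3c35.D0 t3c35.Dh ek) (elo t3c35.E0 t3c35.Eh ek)) :=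
  NC.of (K := 150) (D := ⟨13, 9, 1, 1⟩) (Box.of 4 (by decide +kernel))
    (by decide +kernel)

theorem t3k35_rc_r3 : NC (fc t3c35 (1 - eh) ek eh (elo t3c35.B0 t3c35.Bh ek) (elo t3c35.D0 t3c35.Dh eh) (elo t3c35.E0 t3c35.Eh eh)) :=
  NC.of (K := 146) (D := ⟨13, 5, 1, 1⟩) (Box.of 4 (by decide +kernel))
    (by decide +kernel)

theorem t3k35_rc_r4 : NC (fc t3c35 eh ek (1 - eh) (elo t3c35.B0 t3c35.Bh ek) (ehi t3c35.Dh t3c35.D1 (1 - eh)) (ehi t3c35.Eh t3c35.E1 (1 - eh))) :=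
  NC.of (K := 151) (D := ⟨13, 5, 1, 1⟩) (Box.of 4 (by decide +kernel))
    (by decide +kernel)

theorem t3k35_rI_r1 : NC (fI t3c35 (1 - eh) eh ek (elo t3c35.B0 t3c35.Bh eh) (elo t3c35.D0 t3c35.Dh ek) (elo t3c35.E0 t3c35.Eh ek)) :=
  NC.of (K := 134) (D := ⟨13, 9, 1, 1⟩) (Box.of 4 (by decide +kernel))
    (by decide +kernel)

theorem t3k35_rI_r2 : NC (fI t3c35 eh (1 - eh) ek (ehi t3c35.Bh t3c35.B1 (1 - eh)) (elo t3c35.D0 t3c35.Dh ek) (elo t3c35.E0 t3c35.Eh ek)) :=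
  NC.of (K := 134) (D := ⟨13, 9, 1, 1⟩) (Box.of 4 (by decide +kernel))
    (by decide +kernel)

theorem t3k35_rI_r3 : NC (fI t3c35 (1 - eh) ek eh (elo t3c35.B0 t3c35.Bh ek) (elo t3c35.D0 t3c35.Dh eh) (elo t3c35.E0 t3c35.Eh eh)) :=
  NC.of (K := 129) (D := ⟨13, 5, 1, 1⟩) (Box.of 4 (by decide +kernel))
    (by decide +kernel)

theorem t3k35_rI_r4 : NC (fI t3c35 eh ek (1 - eh) (elo t3c35.B0 t3c35.Bh ek) (ehi t3c35.Dh t3c35.D1 (1 - eh)) (ehi t3c35.Eh t3c35.E1 (1 - eh))) :=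
  NC.of (K := 135) (D := ⟨13, 5, 1, 1⟩) (Box.of 4 (by decide +kernel))
    (by decide +kernel)

theorem t3k35_rJ_r1 : NC (fJ t3c35 (1 - eh) eh ek (elo t3c35.B0 t3c35.Bh eh) (elo t3c35.D0 t3c35.Dh ek) (elo t3c35.E0 t3c35.Eh ek)) :=
  NC.of (K := 78) (D := ⟨7, 5, 1, 1⟩) (Box.of 4 (by decide +kernel))
    (by decide +kernel)

theorem t3k35_rJ_r2 : NC (fJ t3c35 eh (1 - eh) ek (ehi t3c35.Bh t3c35.B1 (1 - eh)) (elo t3c35.D0 t3c35.Dh ek) (elo t3c35.E0 t3c35.Eh ek)) :=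
  NC.of (K := 78) (D := ⟨7, 5, 1, 1⟩) (Box.of 4 (by decide +kernel))
    (by decide +kernel)

theorem t3k35_rJ_r3 : NC (fJ t3c35 (1 - eh) ek eh (elo t3c35.B0 t3c35.Bh ek) (elo t3c35.D0 t3c35.Dh eh) (elo t3c35.E0 t3c35.Eh eh)) :=
  NC.of (K := 75) (D := ⟨7, 3, 1, 1⟩) (Box.of 4 (by decide +kernel))
    (by decide +kernel)

theorem t3k35_rJ_r4 : NC (fJ t3c35 eh ek (1 - eh) (elo t3c35.B0 t3c35.Bh ek) (ehi t3c35.Dh t3c35.D1 (1 - eh)) (ehi t3c35.Eh t3c35.E1 (1 - eh))) :=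
  NC.of (K := 78) (D := ⟨7, 3, 1, 1⟩) (Box.of 4 (by decide +kernel))
    (by decide +kernel)

theorem t3k35_gE_r1 : NC (fE t3c35 t3e35 (1 - eh) eh ek (elo t3c35.B0 t3c35.Bh eh) (elo t3c35.D0 t3c35.Dh ek) (elo t3c35.E0 t3c35.Eh ek)) :=
  NC.of (K := 174) (D := ⟨13, 9, 1, 1⟩) (Box.of 18688 (by decide +kernel))
    (by decide +kernel)

theorem t3k35_gE_r2 : NC (fE t3c35 t3e35 eh (1 - eh) ek (ehi t3c35.Bh t3c35.B1 (1 - eh)) (elo t3c35.D0 t3c35.Dh ek) (elo t3c35.E0 t3c35.Eh ek)) :=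
  NC.of (K := 130) (D := ⟨13, 9, 1, 1⟩) (Box.of 4 (by decide +kernel))
    (by decide +kernel)

theorem t3k35_gE_r3 : NC (fE t3c35 t3e35 (1 - eh) ek eh (elo t3c35.B0 t3c35.Bh ek) (elo t3c35.D0 t3c35.Dh eh) (elo t3c35.E0 t3c35.Eh eh)) :=
  NC.of (K := 172) (D := ⟨13, 7, 1, 1⟩) (Box.of 18688 (by decide +kernel))
    (by decide +kernel)

theorem t3k35_gE_r4 : NC (fE t3c35 t3e35 eh ek (1 - eh) (elo t3c35.B0 t3c35.Bh ek) (ehi t3c35.Dh t3c35.D1 (1 - eh)) (ehi t3c35.Eh t3c35.E1 (1 - eh))) :=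
  NC.of (K := 133) (D := ⟨13, 7, 1, 1⟩) (Box.of 4 (by decide +kernel))
    (by decide +kernel)

theorem t3k35_B0 : NC (kB dW 1 0 t3c35.B0 (tcl t3c35)) :=
  NC.of (K := 102) (D := ⟨1, 1, 1, 9⟩) (Box.of 4 (by decide +kernel))
    (by decide +kernel)

theorem t3k35_E0 : NC (kE dW qW qW.p0 qW.q0 t3c35.E0 (tcl t3c35)) :=
  NC.of (K := 226) (D := ⟨1, 1, 1, 19⟩) (Box.of 4 (by decide +kernel))
    (by decide +kernel)

theorem t3k35_D0 : NC (kD dW qW 1 0 qW.p0 qW.q0 t3c35.D0 (tcl t3c35)) :=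
  NC.of (K := 344) (D := ⟨1, 1, 1, 20⟩) (Box.of 4 (by decide +kernel))
    (by decide +kernel)

theorem t3k35_Bh : NC (kB dW (1 / 2) (1 / 2) t3c35.Bh (tcl t3c35)) :=
  NC.of (K := 106) (D := ⟨1, 1, 1, 9⟩) (Box.of 4 (by decide +kernel))
    (by decide +kernel)

theorem t3k35_Eh : NC (kE dW qW qW.ph qW.qh t3c35.Eh (tcl t3c35)) :=
  NC.of (K := 230) (D := ⟨1, 1, 1, 19⟩) (Box.of 4 (by decide +kernel))
    (by decide +kernel)

theorem t3k35_Dh : NC (kD dW qW (1 / 2) (1 / 2) qW.ph qW.qh t3c35.Dh (tcl t3c35)) :=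
  NC.of (K := 347) (D := ⟨1, 1, 1, 20⟩) (Box.of 4 (by decide +kernel))
    (by decide +kernel)

theorem t3k35_B1 : NC (kB dW 0 (1 / 2) t3c35.B1 (tcl t3c35)) :=
  NC.of (K := 105) (D := ⟨1, 1, 1, 9⟩) (Box.of 4 (by decide +kernel))
    (by decide +kernel)

theorem t3k35_E1 : NC (kE dW qW qW.p1 qW.q1 t3c35.E1 (tcl t3c35)) :=
  NC.of (K := 230) (D := ⟨1, 1, 1, 19⟩) (Box.of 4 (by decide +kernel))
    (by decide +kernel)

theorem t3k35_D1 : NC (kD dW qW 0 (1 / 2) qW.p1 qW.q1 t3c35.D1 (tcl t3c35)) :=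
  NC.of (K := 347) (D := ⟨1, 1, 1, 20⟩) (Box.of 4 (by decide +kernel))
    (by decide +kernel)

theorem t3k35_l : NC (qc t3n35.lb - (1 - vX) * pe (exl t3c35.th) vX ^ 2) :=
  NC.of (K := 118) (D := ⟨10, 1, 1, 1⟩) (Box.of 4 (by decide +kernel))
    (by decide +kernel)

theorem t3k35_n : NC (qc t3n35.nb - vX * (1 - vX) * pe (exl t3c35.th) vX) :=
  NC.of (K := 112) (D := ⟨7, 1, 1, 1⟩) (Box.of 76677152 (by decide +kernel))
    (by decide +kernel)

theorem t3k35_rb : NC (krb t3n35 fW (t1v t3c35)) :=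
  NC.of (K := 186) (D := ⟨1, 1, 1, 16⟩) (Box.of 4 (by decide +kernel))
    (by decide +kernel)

theorem t3k35_kap : NC (kkap dW qW t3n35 (tcl t3c35)) :=
  NC.of (K := 102) (D := ⟨1, 1, 1, 9⟩) (Box.of 4 (by decide +kernel))
    (by decide +kernel)

theorem t3k35_wb2 : NC (qc t3n35.b2 - pe2 kW.QB (vZ * t1v t3c35) (t1v t3c35)) :=
  NC.of (K := 156) (D := ⟨1, 6, 1, 11⟩) (Box.of 18531 (by decide +kernel))
    (by decide +kernel)

theorem t3k35_wmb : NC (qc t3n35.Mb - pe zW.mb (t1v t3c35)) :=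
  NC.of (K := 115) (D := ⟨1, 1, 1, 9⟩) (Box.of 291 (by decide +kernel))
    (by decide +kernel)

theorem t3k35_wth : NC (qc (t3c35.th / t3c35.t1) - pe2 zW.Qt (vZ * t1v t3c35) (t1v t3c35)) :=
  NC.of (K := 151) (D := ⟨1, 6, 1, 11⟩) (Box.of 291 (by decide +kernel))
    (by decide +kernel)

theorem t3k35_wyb : NC (qc t3n35.Yb - (t1v t3c35 - vZ * t1v t3c35) ^ 3 * pe2 yW.QY (vZ * t1v t3c35) (t1v t3c35)) :=
  NC.of (K := 131) (D := ⟨1, 8, 1, 12⟩) (Box.of 4 (by decide +kernel))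
    (by decide +kernel)

theorem t3k35_wmu : NC (qc t3m35 - pe t3al (tcl t3c35) * (1 + hlf * tcl t3c35)) :=
  NC.of (K := 99) (D := ⟨1, 1, 1, 9⟩) (Box.of 4 (by decide +kernel))
    (by decide +kernel)

theorem t3k35_wcj : NC (qc t3c35.C * ((6 - 3 * vX) * (1 - qc t3m35 * vX)) - (6 - 6 * vX + vX ^ 2)) :=
  NC.of (K := 34) (D := ⟨3, 1, 1, 1⟩) (Box.of 4 (by decide +kernel))
    (by decide +kernel)

theorem t3k35_nd1 : NC (pe t3r35.d1 (t1v t3c35)) :=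
  NC.of (K := 73) (D := ⟨1, 1, 1, 7⟩) (Box.of 4 (by decide +kernel))
    (by decide +kernel)

theorem t3k35_nd2 : NC (pe t3r35.d2 (t1v t3c35)) :=
  NC.of (K := 73) (D := ⟨1, 1, 1, 7⟩) (Box.of 4 (by decide +kernel))
    (by decide +kernel)

theorem t3k35_ndy : NC (pe t3r35.dy (t1v t3c35)) :=
  NC.of (K := 77) (D := ⟨1, 1, 1, 7⟩) (Box.of 4 (by decide +kernel))
    (by decide +kernel)

theorem t3k35_nt1 : NC (pe t3r35.t1 (t1v t3c35)) :=
  NC.of (K := 76) (D := ⟨1, 1, 1, 7⟩) (Box.of 4 (by decide +kernel))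
    (by decide +kernel)

theorem t3k35_nt2 : NC (pe t3r35.t2 (t1v t3c35)) :=
  NC.of (K := 74) (D := ⟨1, 1, 1, 7⟩) (Box.of 4 (by decide +kernel))
    (by decide +kernel)

theorem t3k35_nty : NC (pe t3r35.ty (t1v t3c35)) :=
  NC.of (K := 80) (D := ⟨1, 1, 1, 7⟩) (Box.of 4 (by decide +kernel))
    (by decide +kernel)

theorem t3k35_nhz : NC (pe t3r35.hz (t1v t3c35)) :=
  NC.of (K := 102) (D := ⟨1, 1, 1, 7⟩) (Box.of 18659 (by decide +kernel))
    (by decide +kernel)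

theorem t3k35_xi : NC (eXi fW t3c35 t3e35 t3r35 (t1v t3c35)) :=
  NC.of (K := 303) (D := ⟨1, 1, 1, 22⟩) (Box.of 4 (by decide +kernel))
    (by decide +kernel)

theorem t3k35_om : NC (eOm fW t3r35 (t1v t3c35)) :=
  NC.of (K := 206) (D := ⟨1, 1, 1, 16⟩) (Box.of 291 (by decide +kernel))
    (by decide +kernel)

theorem t3k35_fin : NC (eFin dW t3c35 t3n35 t3r35 t3h35 (tcl t3c35)) :=
  NC.of (K := 229) (D := ⟨1, 1, 1, 14⟩) (Box.of 4 (by decide +kernel))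
    (by decide +kernel)

theorem t3k35_xdl : NC (qc t3e35.dl - pe t3d35.l.dl t3d35.eU) :=
  NC.of (K := 73) (D := ⟨1, 4, 1, 1⟩) (Box.of 4 (by decide +kernel))
    (by decide +kernel)

theorem t3k35_xeY : NC (qc t3e35.eY - pe (e4l t3d35.l.z) t3d35.eU) :=
  NC.of (K := 288) (D := ⟨1, 13, 1, 1⟩) (Box.of 4 (by decide +kernel))
    (by decide +kernel)

theorem t3k35_xgr : NC (qc t3d35.ga * ((1 + qc (3 / 5) * vX) * (1 + (t3d35.eg + hlf * t3d35.eg ^ 2))) + qc t3d35.gb - pe2 t3GR vX t3d35.eU) :=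
  NC.of (K := 255) (D := ⟨4, 11, 1, 1⟩) (Box.of 18688 (by decide +kernel))
    (by decide +kernel)

theorem t3k35_xhr : NC (qc t3d35.hb - pe2 t3HR vX t3d35.eU) :=
  NC.of (K := 265) (D := ⟨3, 12, 1, 1⟩) (Box.of 4 (by decide +kernel))
    (by decide +kernel)

theorem t3k35_xgs : NC (pe t3d35.gs t3d35.e1 - qc (8 / 5) * pe (e4l (ladd t3d35.ls.z t3d35.ls.dl)) t3d35.e1) :=
  NC.of (K := 296) (D := ⟨1, 1, 1, 13⟩) (Box.of 4 (by decide +kernel))
    (by decide +kernel)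

theorem t3k35_xd1 : NC (pe t3d35.d1 t3d35.e1 - t3d35.eA t3d35.eU t3d35.e1) :=
  NC.of (K := 288) (D := ⟨1, 12, 1, 12⟩) (Box.of 4 (by decide +kernel))
    (by decide +kernel)

theorem t3k35_xd2 : NC (pe t3d35.d2 t3d35.e1 - t3d35.eB t3d35.eU t3d35.e1) :=
  NC.of (K := 290) (D := ⟨1, 12, 1, 12⟩) (Box.of 4 (by decide +kernel))
    (by decide +kernel)

theorem t3k35_xt1 : NC (pe t3d35.t1 t3d35.e1 - t3d35.eAT t3d35.eU t3d35.e1) :=
  NC.of (K := 474) (D := ⟨1, 19, 1, 19⟩) (Box.of 4 (by decide +kernel))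
    (by decide +kernel)

theorem t3k35_xt2 : NC (pe t3d35.t2 t3d35.e1 - t3d35.eBT t3d35.eU t3d35.e1) :=
  NC.of (K := 475) (D := ⟨1, 19, 1, 19⟩) (Box.of 4 (by decide +kernel))
    (by decide +kernel)

theorem t3k35_xdy : NC (pe t3d35.dy t3d35.e1 - t3d35.eSD t3d35.eU t3d35.e1) :=
  NC.of (K := 444) (D := ⟨1, 18, 1, 12⟩) (Box.of 4 (by decide +kernel))
    (by decide +kernel)

theorem t3k35_xty : NC (pe t3d35.ty t3d35.e1 - t3d35.eST t3d35.eU t3d35.e1) :=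
  NC.of (K := 672) (D := ⟨1, 26, 1, 26⟩) (Box.of 4 (by decide +kernel))
    (by decide +kernel)

theorem t3k35_xd1s : NC (pe t3r35.d1 (t1v t3c35) - pe t3d35.d1 (Xcd.ew zW t3c35)) :=
  NC.of (K := 654) (D := ⟨1, 1, 1, 55⟩) (Box.of 4 (by decide +kernel))
    (by decide +kernel)

theorem t3k35_xd2s : NC (pe t3r35.d2 (t1v t3c35) - pe t3d35.d2 (Xcd.ew zW t3c35)) :=
  NC.of (K := 655) (D := ⟨1, 1, 1, 55⟩) (Box.of 4 (by decide +kernel))
    (by decide +kernel)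

theorem t3k35_xt1s : NC (pe t3r35.t1 (t1v t3c35) - pe t3d35.t1 (Xcd.ew zW t3c35)) :=
  NC.of (K := 659) (D := ⟨1, 1, 1, 55⟩) (Box.of 4 (by decide +kernel))
    (by decide +kernel)

theorem t3k35_xt2s : NC (pe t3r35.t2 (t1v t3c35) - pe t3d35.t2 (Xcd.ew zW t3c35)) :=
  NC.of (K := 657) (D := ⟨1, 1, 1, 55⟩) (Box.of 4 (by decide +kernel))
    (by decide +kernel)

theorem t3k35_xdys : NC (pe t3r35.dy (t1v t3c35) - pe t3d35.dy (Xcd.ew zW t3c35)) :=
  NC.of (K := 658) (D := ⟨1, 1, 1, 55⟩) (Box.of 4 (by decide +kernel))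
    (by decide +kernel)

theorem t3k35_xtys : NC (pe t3r35.ty (t1v t3c35) - pe t3d35.ty (Xcd.ew zW t3c35)) :=
  NC.of (K := 656) (D := ⟨1, 1, 1, 55⟩) (Box.of 4 (by decide +kernel))
    (by decide +kernel)

theorem t3k35_xhz : NC (pe t3r35.hz (t1v t3c35) - pe t3d35.c.dR (Xcd.ew zW t3c35)) :=
  NC.of (K := 452) (D := ⟨1, 1, 1, 37⟩) (Box.of 4 (by decide +kernel))
    (by decide +kernel)

theorem t3f35_ok : t3f35.ok V2L.y16 V2L.k16 V2L.nb V2L.la (10 ^ 30) 32 = true := by decide +kernel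

theorem t3k35_sg : t3c35.Sg := by
  constructor <;> decide +kernel

theorem t3k35_rgs : t3c35.Rgs where
  M := ⟨t3k35_M_r1, t3k35_M_r2, t3k35_M_r3, t3k35_M_r4⟩
  r0 := ⟨t3k35_r0_r1, t3k35_r0_r2, t3k35_r0_r3, t3k35_r0_r4⟩
  r1 := ⟨t3k35_r1_r1, t3k35_r1_r2, t3k35_r1_r3, t3k35_r1_r4⟩
  r2 := ⟨t3k35_r2_r1, t3k35_r2_r2, t3k35_r2_r3, t3k35_r2_r4⟩
  rc := ⟨t3k35_rc_r1, t3k35_rc_r2, t3k35_rc_r3, t3k35_rc_r4⟩
  rI := ⟨t3k35_rI_r1, t3k35_rI_r2, t3k35_rI_r3, t3k35_rI_r4⟩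
  rJ := ⟨t3k35_rJ_r1, t3k35_rJ_r2, t3k35_rJ_r3, t3k35_rJ_r4⟩

theorem t3k35_xn : t3e35.Ok t3c35 where
  lm := by decide +kernel
  dl0 := by decide +kernel
  dl1 := by decide +kernel
  e2 := by decide +kernel
  eY := by decide +kernel
  gE := ⟨t3k35_gE_r1, t3k35_gE_r2, t3k35_gE_r3, t3k35_gE_r4⟩

theorem t3k35_vl : t3c35.Vl dW qW where
  bt := by decide +kernel
  B0 := t3k35_B0
  E0 := t3k35_E0
  D0 := t3k35_D0
  Bh := t3k35_Bh
  Eh := t3k35_Eh
  Dh := t3k35_Dh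
  B1 := t3k35_B1
  E1 := t3k35_E1
  D1 := t3k35_D1

theorem t3k35_rat : t3n35.Rat t3c35 := by
  constructor <;> decide +kernel

theorem t3k35_ck : t3n35.Ck t3c35 := ⟨t3k35_l, t3k35_n⟩

theorem t3k35_fck : t3n35.Fck dW qW fW t3c35 := ⟨t3k35_rb, t3k35_kap⟩

theorem t3k35_w : Wcl zW kW yW t3al t3c35 t3n35 t3m35 where
  b2 := t3k35_wb2
  mb := t3k35_wmb
  th := t3k35_wth
  yb := t3k35_wyb
  mu := t3k35_wmu
  cj := t3k35_wcj
  mt1 := by decide +kernel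
  mt2 := by decide +kernel

theorem t3k35_ok : CelOk dW qW fW t3c35 t3n35 where
  s := t3k35_sg
  r := t3k35_rgs
  v := t3k35_vl
  rt := t3k35_rat
  k := t3k35_ck
  fc := t3k35_fck
  q01 := by decide +kernel
  q12 := by decide +kernel
  h2 := by decide +kernel

theorem t3k35_xr : t3r35.Ok fW t3c35 t3e35 where
  sD := by decide +kernel
  sT := by decide +kernel
  nd1 := t3k35_nd1
  nd2 := t3k35_nd2
  ndy := t3k35_ndy
  nt1 := t3k35_nt1
  nt2 := t3k35_nt2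
  nty := t3k35_nty
  nhz := t3k35_nhz
  xi := t3k35_xi
  om := t3k35_om

theorem t3k35_X : t3d35.Ck t3GR t3HR zW t3c35 t3e35 t3r35 where
  u0 := by decide +kernel
  u01 := by decide +kernel
  ul := by decide +kernel
  us := by decide +kernel
  uc := by decide +kernel
  ga0 := by decide +kernel
  kp0 := by decide +kernel
  lm := by decide +kernel
  dl := t3k35_xdl
  eY := t3k35_xeY
  gr := t3k35_xgr
  hr := t3k35_xhr
  gs := t3k35_xgs
  d1 := t3k35_xd1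
  d2 := t3k35_xd2
  t1 := t3k35_xt1
  t2 := t3k35_xt2
  dy := t3k35_xdy
  ty := t3k35_xty
  d1s := t3k35_xd1s
  d2s := t3k35_xd2s
  t1s := t3k35_xt1s
  t2s := t3k35_xt2s
  dys := t3k35_xdys
  tys := t3k35_xtys
  hz := t3k35_xhz

end Pool.Agent.RX.RCN.K
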