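import Pool.Agent.RX.RCN.T3D
import Pool.Agent.RX.RCN.T3Wq
import Pool.Agent.RX.RCN.T3X17
import Pool.Agent.RX.RCN.VLd

/-! Certificates (generated). -/

set_option autoImplicit false

namespace Pool.Agent.RX.RCN.K

open Set Pool.Agent.RX.RCM9 Pool.Agent.RX.RCM9.Bern Pool.Agent.RX.RCM9.Pk Xce

def t3c36 : Cel where
  t0 := 49 / 100
  t1 := 99 / 200
  C := 4097 / 4096
  th := 1037 / 2048
  B0 := 2123 / 2048
  Bh := 2449 / 2048
  B1 := 1207 / 1024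
  D0 := 755 / 2048
  Dh := 159 / 512
  D1 := 1219 / 4096
  E0 := 775 / 65536
  Eh := 675 / 65536
  E1 := 647 / 65536
  Q0 := 133 / 128
  Q1 := 1067 / 1024
  Q2 := 1155 / 1024
  Ac := 1067 / 1024
  gI := 1067 / 1024
  J := 1377 / 65536

def t3n36 : Chn where
  lb := 513 / 512
  nb := 21 / 64
  Mb := 1049 / 1024
  b2 := 131 / 128
  Yb := 63 / 4096
  E2 := 33 / 32
  e1 := 1365 / 1024
  Z1 := 557 / 512
  Z2 := 5 / 8
  KB := 67 / 64
  cb := 1093 / 1024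
  rb := 417 / 1024
  om := 263 / 256
  fb := 129 / 128
  kap := 4219 / 4096
  ab := 1029 / 1024

def t3e36 : Xge where
  lm := 3 / 5
  dl := 1973 / 4096
  e2 := 563 / 4096
  eY := 4163 / 4096
  gE := 1195 / 1024

def t3r36 : Xr where
  d1 := [897423 / 25000000, 39523 / 5000000, 202547 / 5000000, -7191 / 50000000, 1026389 /
    5000000, -9912981 / 25000000, 34046273 / 100000000]
  d2 := [508131 / 100000000, 540929 / 12500000, 4090141 / 50000000, 180191 / 800000, -2537843 /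
    100000000, -47184709 / 100000000, 27312349 / 50000000]
  dy := [45473919 / 100000000, 8970297 / 50000000, 43708589 / 100000000, 8338393 / 6250000,
    -50038427 / 50000000, -148409649 / 100000000, 226169897 / 100000000]
  t1 := [17978081 / 100000000, -46883391 / 100000000, 16343243 / 100000000, 65241177 / 100000000,
    2031241 / 10000000, -96817109 / 50000000, 9243469 / 4000000]
  t2 := [780719 / 12500000, -13488073 / 100000000, 232361 / 5000000, 69322379 / 100000000,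
    -40029169 / 100000000, -26288489 / 100000000, 47861219 / 100000000]
  ty := [85220227 / 50000000, -448997453 / 100000000, -79382209 / 100000000, 2783058717 /
    100000000, -871615041 / 20000000, 297750783 / 12500000, -70844003 / 100000000]
  hz := [3977841 / 20000000, -1002243 / 3125000, -274595509 / 100000000, 404030899 / 50000000,
    -8392729 / 1562500, -10400273 / 10000000, 38998401 / 50000000]
  om := [3137397 / 3125000, 102746501 / 100000000, -1409843907 / 100000000, 740808967 / 12500000,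
    -65311566 / 390625, 45977367521 / 100000000, -12668725693 / 12500000, 132745811147 /
    100000000, -74915684239 / 100000000]
  sD := 163 / 64
  sT := 585 / 256
  xi := [16025539 / 100000000, 52946241 / 50000000, -413330561 / 100000000, 54369307 / 100000000,
    1613754327 / 50000000, -5305827029 / 50000000, 28853511623 / 100000000, -2590425267 /
    4000000, 88050528429 / 100000000, -1597373263 / 3125000]

def t3f36 : Dl where
  Ca := 4922777 / 10000000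
  Cv := 49739 / 100000
  k1 := 1127593 / 1250000
  ks := 882229 / 1000000
  dd := 0
  kp := 1 / 10000000
  e := [124999962077 / 125000000000, -1423334448349 / 1000000000000, 394829029501 / 250000000000,
    -311952344473 / 200000000000, 726626705549 / 500000000000, -625643178909 / 500000000000,
    468368379473 / 500000000000, -520714713079 / 1000000000000, 3774974597 / 25000000000]
  j1 := [-26483 / 40000000, -726250079 / 100000000, 34289817977 / 500000000, -294910534427 /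
    1000000000, 42662810629 / 62500000, -772270575697 / 1000000000, 110416118751 / 500000000,
    44828602859 / 250000000]
  nu := [25058037 / 200000000, -126118241 / 500000000, 380713337 / 1000000000, 19420539 /
    1000000000, -54224213 / 1000000000, 52103647 / 100000000, -366506107 / 1000000000]
  k2 := [882230619 / 1000000000, 222601829 / 1000000000, -76945597 / 250000000, -103650279 /
    1000000000, 128960037 / 1000000000, -109241321 / 200000000, 53196341 / 125000000]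
  dR := [4962209 / 25000000, -3191669 / 10000000, -68571399 / 25000000, 813076497 / 100000000,
    -582634489 / 100000000]

def t3d36 : Xce where
  u0 := 492787 / 1000000
  u1 := 49739 / 100000
  l := V2L.y17
  y := t3z17
  j := t3j17
  i := t3i17
  ls := t3y17
  k := V2L.k17
  c := t3f36
  ga := 35813 / 1000000
  gb := -15629 / 1000000
  hb := 102511 / 500000
  gs := [160003353 / 100000000, 239999751 / 100000000, 11250489 / 6250000, 4969273 / 6250000,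
    6773083 / 25000000, -6544209 / 50000000, -5230809 / 100000000]
  d1 := [179341 / 5000000, 797617 / 100000000, 3746177 / 100000000, 297507 / 10000000, 1470743 /
    25000000, -7187533 / 100000000, 1402741 / 20000000]
  d2 := [126163 / 25000000, 4330957 / 100000000, 3776981 / 50000000, 46239 / 160000, -17731769 /
    50000000, 5686759 / 20000000, -4854861 / 50000000]
  dy := [45436129 / 100000000, 224329 / 1250000, 41181459 / 100000000, 31819967 / 20000000,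
    -237144659 / 100000000, 43457173 / 25000000, -52169499 / 100000000]
  t1 := [17968361 / 100000000, -23338099 / 50000000, 7330957 / 50000000, 39600509 / 50000000,
    -2059873 / 5000000, -70817321 / 100000000, 6920411 / 5000000]
  t2 := [6242089 / 100000000, -6707267 / 50000000, 231781 / 6250000, 78105503 / 100000000,
    -41841101 / 50000000, 69608819 / 100000000, -1913863 / 6250000]
  ty := [85176113 / 50000000, -17892739 / 4000000, -8649981 / 10000000, 282904189 / 10000000,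
    -4615381797 / 100000000, 1488667737 / 50000000, -556980553 / 100000000]

def t3m36 : ℚ := 1953 / 4096

def t3h36 : ℚ := 261 / 500

theorem t3k36_M_r1 : NC (fM t3c36 (1 - eh) eh ek (elo t3c36.B0 t3c36.Bh eh) (elo t3c36.D0 t3c36.Dh ek) (elo t3c36.E0 t3c36.Eh ek)) :=
  NC.of (K := 32) (D := ⟨4, 3, 1, 1⟩) (Box.of 4 (by decide +kernel))
    (by decide +kernel)

theorem t3k36_M_r2 : NC (fM t3c36 eh (1 - eh) ek (ehi t3c36.Bh t3c36.B1 (1 - eh)) (elo t3c36.D0 t3c36.Dh ek) (elo t3c36.E0 t3c36.Eh ek)) :=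
  NC.of (K := 32) (D := ⟨4, 3, 1, 1⟩) (Box.of 4 (by decide +kernel))
    (by decide +kernel)

theorem t3k36_M_r3 : NC (fM t3c36 (1 - eh) ek eh (elo t3c36.B0 t3c36.Bh ek) (elo t3c36.D0 t3c36.Dh eh) (elo t3c36.E0 t3c36.Eh eh)) :=
  NC.of (K := 31) (D := ⟨4, 2, 1, 1⟩) (Box.of 4 (by decide +kernel))
    (by decide +kernel)

theorem t3k36_M_r4 : NC (fM t3c36 eh ek (1 - eh) (elo t3c36.B0 t3c36.Bh ek) (ehi t3c36.Dh t3c36.D1 (1 - eh)) (ehi t3c36.Eh t3c36.E1 (1 - eh))) :=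
  NC.of (K := 32) (D := ⟨4, 2, 1, 1⟩) (Box.of 4 (by decide +kernel))
    (by decide +kernel)

theorem t3k36_r0_r1 : NC (f0 t3c36 (1 - eh) eh ek (elo t3c36.B0 t3c36.Bh eh) (elo t3c36.D0 t3c36.Dh ek) (elo t3c36.E0 t3c36.Eh ek)) :=
  NC.of (K := 147) (D := ⟨13, 9, 1, 1⟩) (Box.of 4 (by decide +kernel))
    (by decide +kernel)

theorem t3k36_r0_r2 : NC (f0 t3c36 eh (1 - eh) ek (ehi t3c36.Bh t3c36.B1 (1 - eh)) (elo t3c36.D0 t3c36.Dh ek) (elo t3c36.E0 t3c36.Eh ek)) :=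
  NC.of (K := 147) (D := ⟨13, 9, 1, 1⟩) (Box.of 4 (by decide +kernel))
    (by decide +kernel)

theorem t3k36_r0_r3 : NC (f0 t3c36 (1 - eh) ek eh (elo t3c36.B0 t3c36.Bh ek) (elo t3c36.D0 t3c36.Dh eh) (elo t3c36.E0 t3c36.Eh eh)) :=
  NC.of (K := 142) (D := ⟨13, 5, 1, 1⟩) (Box.of 4 (by decide +kernel))
    (by decide +kernel)

theorem t3k36_r0_r4 : NC (f0 t3c36 eh ek (1 - eh) (elo t3c36.B0 t3c36.Bh ek) (ehi t3c36.Dh t3c36.D1 (1 - eh)) (ehi t3c36.Eh t3c36.E1 (1 - eh))) :=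
  NC.of (K := 147) (D := ⟨13, 5, 1, 1⟩) (Box.of 4 (by decide +kernel))
    (by decide +kernel)

theorem t3k36_r1_r1 : NC (f1 t3c36 (1 - eh) eh ek (elo t3c36.B0 t3c36.Bh eh) (elo t3c36.D0 t3c36.Dh ek) (elo t3c36.E0 t3c36.Eh ek)) :=
  NC.of (K := 229) (D := ⟨16, 9, 1, 1⟩) (Box.of 4 (by decide +kernel))
    (by decide +kernel)

theorem t3k36_r1_r2 : NC (f1 t3c36 eh (1 - eh) ek (ehi t3c36.Bh t3c36.B1 (1 - eh)) (elo t3c36.D0 t3c36.Dh ek) (elo t3c36.E0 t3c36.Eh ek)) :=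
  NC.of (K := 232) (D := ⟨16, 9, 1, 1⟩) (Box.of 4 (by decide +kernel))
    (by decide +kernel)

theorem t3k36_r1_r3 : NC (f1 t3c36 (1 - eh) ek eh (elo t3c36.B0 t3c36.Bh ek) (elo t3c36.D0 t3c36.Dh eh) (elo t3c36.E0 t3c36.Eh eh)) :=
  NC.of (K := 232) (D := ⟨16, 12, 1, 1⟩) (Box.of 4 (by decide +kernel))
    (by decide +kernel)

theorem t3k36_r1_r4 : NC (f1 t3c36 eh ek (1 - eh) (elo t3c36.B0 t3c36.Bh ek) (ehi t3c36.Dh t3c36.D1 (1 - eh)) (ehi t3c36.Eh t3c36.E1 (1 - eh))) :=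
  NC.of (K := 233) (D := ⟨16, 12, 1, 1⟩) (Box.of 4 (by decide +kernel))
    (by decide +kernel)

theorem t3k36_r2_r1 : NC (f2 t3c36 (1 - eh) eh ek (elo t3c36.B0 t3c36.Bh eh) (elo t3c36.D0 t3c36.Dh ek) (elo t3c36.E0 t3c36.Eh ek)) :=
  NC.of (K := 259) (D := ⟨16, 11, 1, 1⟩) (Box.of 288 (by decide +kernel))
    (by decide +kernel)

theorem t3k36_r2_r2 : NC (f2 t3c36 eh (1 - eh) ek (ehi t3c36.Bh t3c36.B1 (1 - eh)) (elo t3c36.D0 t3c36.Dh ek) (elo t3c36.E0 t3c36.Eh ek)) :=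
  NC.of (K := 235) (D := ⟨16, 11, 1, 1⟩) (Box.of 4 (by decide +kernel))
    (by decide +kernel)

theorem t3k36_r2_r3 : NC (f2 t3c36 (1 - eh) ek eh (elo t3c36.B0 t3c36.Bh ek) (elo t3c36.D0 t3c36.Dh eh) (elo t3c36.E0 t3c36.Eh eh)) :=
  NC.of (K := 261) (D := ⟨16, 12, 1, 1⟩) (Box.of 288 (by decide +kernel))
    (by decide +kernel)

theorem t3k36_r2_r4 : NC (f2 t3c36 eh ek (1 - eh) (elo t3c36.B0 t3c36.Bh ek) (ehi t3c36.Dh t3c36.D1 (1 - eh)) (ehi t3c36.Eh t3c36.E1 (1 - eh))) :=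
  NC.of (K := 235) (D := ⟨16, 12, 1, 1⟩) (Box.of 4 (by decide +kernel))
    (by decide +kernel)

theorem t3k36_rc_r1 : NC (fc t3c36 (1 - eh) eh ek (elo t3c36.B0 t3c36.Bh eh) (elo t3c36.D0 t3c36.Dh ek) (elo t3c36.E0 t3c36.Eh ek)) :=
  NC.of (K := 153) (D := ⟨13, 9, 1, 1⟩) (Box.of 4 (by decide +kernel))
    (by decide +kernel)

theorem t3k36_rc_r2 : NC (fc t3c36 eh (1 - eh) ek (ehi t3c36.Bh t3c36.B1 (1 - eh)) (elo t3c36.D0 t3c36.Dh ek) (elo t3c36.E0 t3c36.Eh ek)) :=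
  NC.of (K := 152) (D := ⟨13, 9, 1, 1⟩) (Box.of 4 (by decide +kernel))
    (by decide +kernel)

theorem t3k36_rc_r3 : NC (fc t3c36 (1 - eh) ek eh (elo t3c36.B0 t3c36.Bh ek) (elo t3c36.D0 t3c36.Dh eh) (elo t3c36.E0 t3c36.Eh eh)) :=
  NC.of (K := 148) (D := ⟨13, 5, 1, 1⟩) (Box.of 4 (by decide +kernel))
    (by decide +kernel)

theorem t3k36_rc_r4 : NC (fc t3c36 eh ek (1 - eh) (elo t3c36.B0 t3c36.Bh ek) (ehi t3c36.Dh t3c36.D1 (1 - eh)) (ehi t3c36.Eh t3c36.E1 (1 - eh))) :=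
  NC.of (K := 153) (D := ⟨13, 5, 1, 1⟩) (Box.of 4 (by decide +kernel))
    (by decide +kernel)

theorem t3k36_rI_r1 : NC (fI t3c36 (1 - eh) eh ek (elo t3c36.B0 t3c36.Bh eh) (elo t3c36.D0 t3c36.Dh ek) (elo t3c36.E0 t3c36.Eh ek)) :=
  NC.of (K := 138) (D := ⟨13, 9, 1, 1⟩) (Box.of 4 (by decide +kernel))
    (by decide +kernel)

theorem t3k36_rI_r2 : NC (fI t3c36 eh (1 - eh) ek (ehi t3c36.Bh t3c36.B1 (1 - eh)) (elo t3c36.D0 t3c36.Dh ek) (elo t3c36.E0 t3c36.Eh ek)) :=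
  NC.of (K := 138) (D := ⟨13, 9, 1, 1⟩) (Box.of 4 (by decide +kernel))
    (by decide +kernel)

theorem t3k36_rI_r3 : NC (fI t3c36 (1 - eh) ek eh (elo t3c36.B0 t3c36.Bh ek) (elo t3c36.D0 t3c36.Dh eh) (elo t3c36.E0 t3c36.Eh eh)) :=
  NC.of (K := 156) (D := ⟨13, 5, 1, 1⟩) (Box.of 288 (by decide +kernel))
    (by decide +kernel)

theorem t3k36_rI_r4 : NC (fI t3c36 eh ek (1 - eh) (elo t3c36.B0 t3c36.Bh ek) (ehi t3c36.Dh t3c36.D1 (1 - eh)) (ehi t3c36.Eh t3c36.E1 (1 - eh))) :=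
  NC.of (K := 139) (D := ⟨13, 5, 1, 1⟩) (Box.of 4 (by decide +kernel))
    (by decide +kernel)

theorem t3k36_rJ_r1 : NC (fJ t3c36 (1 - eh) eh ek (elo t3c36.B0 t3c36.Bh eh) (elo t3c36.D0 t3c36.Dh ek) (elo t3c36.E0 t3c36.Eh ek)) :=
  NC.of (K := 79) (D := ⟨7, 5, 1, 1⟩) (Box.of 4 (by decide +kernel))
    (by decide +kernel)

theorem t3k36_rJ_r2 : NC (fJ t3c36 eh (1 - eh) ek (ehi t3c36.Bh t3c36.B1 (1 - eh)) (elo t3c36.D0 t3c36.Dh ek) (elo t3c36.E0 t3c36.Eh ek)) :=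
  NC.of (K := 79) (D := ⟨7, 5, 1, 1⟩) (Box.of 4 (by decide +kernel))
    (by decide +kernel)

theorem t3k36_rJ_r3 : NC (fJ t3c36 (1 - eh) ek eh (elo t3c36.B0 t3c36.Bh ek) (elo t3c36.D0 t3c36.Dh eh) (elo t3c36.E0 t3c36.Eh eh)) :=
  NC.of (K := 76) (D := ⟨7, 3, 1, 1⟩) (Box.of 4 (by decide +kernel))
    (by decide +kernel)

theorem t3k36_rJ_r4 : NC (fJ t3c36 eh ek (1 - eh) (elo t3c36.B0 t3c36.Bh ek) (ehi t3c36.Dh t3c36.D1 (1 - eh)) (ehi t3c36.Eh t3c36.E1 (1 - eh))) :=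
  NC.of (K := 79) (D := ⟨7, 3, 1, 1⟩) (Box.of 4 (by decide +kernel))
    (by decide +kernel)

theorem t3k36_gE_r1 : NC (fE t3c36 t3e36 (1 - eh) eh ek (elo t3c36.B0 t3c36.Bh eh) (elo t3c36.D0 t3c36.Dh ek) (elo t3c36.E0 t3c36.Eh ek)) :=
  NC.of (K := 184) (D := ⟨13, 9, 1, 1⟩) (Box.of 18688 (by decide +kernel))
    (by decide +kernel)

theorem t3k36_gE_r2 : NC (fE t3c36 t3e36 eh (1 - eh) ek (ehi t3c36.Bh t3c36.B1 (1 - eh)) (elo t3c36.D0 t3c36.Dh ek) (elo t3c36.E0 t3c36.Eh ek)) :=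
  NC.of (K := 140) (D := ⟨13, 9, 1, 1⟩) (Box.of 4 (by decide +kernel))
    (by decide +kernel)

theorem t3k36_gE_r3 : NC (fE t3c36 t3e36 (1 - eh) ek eh (elo t3c36.B0 t3c36.Bh ek) (elo t3c36.D0 t3c36.Dh eh) (elo t3c36.E0 t3c36.Eh eh)) :=
  NC.of (K := 182) (D := ⟨13, 7, 1, 1⟩) (Box.of 18688 (by decide +kernel))
    (by decide +kernel)

theorem t3k36_gE_r4 : NC (fE t3c36 t3e36 eh ek (1 - eh) (elo t3c36.B0 t3c36.Bh ek) (ehi t3c36.Dh t3c36.D1 (1 - eh)) (ehi t3c36.Eh t3c36.E1 (1 - eh))) :=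
  NC.of (K := 143) (D := ⟨13, 7, 1, 1⟩) (Box.of 4 (by decide +kernel))
    (by decide +kernel)

theorem t3k36_B0 : NC (kB dW 1 0 t3c36.B0 (tcl t3c36)) :=
  NC.of (K := 102) (D := ⟨1, 1, 1, 9⟩) (Box.of 4 (by decide +kernel))
    (by decide +kernel)

theorem t3k36_E0 : NC (kE dW qW qW.p0 qW.q0 t3c36.E0 (tcl t3c36)) :=
  NC.of (K := 226) (D := ⟨1, 1, 1, 19⟩) (Box.of 4 (by decide +kernel))
    (by decide +kernel)

theorem t3k36_D0 : NC (kD dW qW 1 0 qW.p0 qW.q0 t3c36.D0 (tcl t3c36)) :=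
  NC.of (K := 344) (D := ⟨1, 1, 1, 20⟩) (Box.of 4 (by decide +kernel))
    (by decide +kernel)

theorem t3k36_Bh : NC (kB dW (1 / 2) (1 / 2) t3c36.Bh (tcl t3c36)) :=
  NC.of (K := 106) (D := ⟨1, 1, 1, 9⟩) (Box.of 4 (by decide +kernel))
    (by decide +kernel)

theorem t3k36_Eh : NC (kE dW qW qW.ph qW.qh t3c36.Eh (tcl t3c36)) :=
  NC.of (K := 230) (D := ⟨1, 1, 1, 19⟩) (Box.of 4 (by decide +kernel))
    (by decide +kernel)

theorem t3k36_Dh : NC (kD dW qW (1 / 2) (1 / 2) qW.ph qW.qh t3c36.Dh (tcl t3c36)) :=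
  NC.of (K := 347) (D := ⟨1, 1, 1, 20⟩) (Box.of 4 (by decide +kernel))
    (by decide +kernel)

theorem t3k36_B1 : NC (kB dW 0 (1 / 2) t3c36.B1 (tcl t3c36)) :=
  NC.of (K := 105) (D := ⟨1, 1, 1, 9⟩) (Box.of 4 (by decide +kernel))
    (by decide +kernel)

theorem t3k36_E1 : NC (kE dW qW qW.p1 qW.q1 t3c36.E1 (tcl t3c36)) :=
  NC.of (K := 230) (D := ⟨1, 1, 1, 19⟩) (Box.of 4 (by decide +kernel))
    (by decide +kernel)

theorem t3k36_D1 : NC (kD dW qW 0 (1 / 2) qW.p1 qW.q1 t3c36.D1 (tcl t3c36)) :=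
  NC.of (K := 347) (D := ⟨1, 1, 1, 20⟩) (Box.of 4 (by decide +kernel))
    (by decide +kernel)

theorem t3k36_l : NC (qc t3n36.lb - (1 - vX) * pe (exl t3c36.th) vX ^ 2) :=
  NC.of (K := 118) (D := ⟨10, 1, 1, 1⟩) (Box.of 4 (by decide +kernel))
    (by decide +kernel)

theorem t3k36_n : NC (qc t3n36.nb - vX * (1 - vX) * pe (exl t3c36.th) vX) :=
  NC.of (K := 112) (D := ⟨7, 1, 1, 1⟩) (Box.of 76677152 (by decide +kernel))
    (by decide +kernel)

theorem t3k36_rb : NC (krb t3n36 fW (t1v t3c36)) :=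
  NC.of (K := 202) (D := ⟨1, 1, 1, 16⟩) (Box.of 4 (by decide +kernel))
    (by decide +kernel)

theorem t3k36_kap : NC (kkap dW qW t3n36 (tcl t3c36)) :=
  NC.of (K := 102) (D := ⟨1, 1, 1, 9⟩) (Box.of 4 (by decide +kernel))
    (by decide +kernel)

theorem t3k36_wb2 : NC (qc t3n36.b2 - pe2 kW.QB (vZ * t1v t3c36) (t1v t3c36)) :=
  NC.of (K := 177) (D := ⟨1, 6, 1, 11⟩) (Box.of 1185891 (by decide +kernel))
    (by decide +kernel)

theorem t3k36_wmb : NC (qc t3n36.Mb - pe zW.mb (t1v t3c36)) :=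
  NC.of (K := 123) (D := ⟨1, 1, 1, 9⟩) (Box.of 291 (by decide +kernel))
    (by decide +kernel)

theorem t3k36_wth : NC (qc (t3c36.th / t3c36.t1) - pe2 zW.Qt (vZ * t1v t3c36) (t1v t3c36)) :=
  NC.of (K := 162) (D := ⟨1, 6, 1, 11⟩) (Box.of 291 (by decide +kernel))
    (by decide +kernel)

theorem t3k36_wyb : NC (qc t3n36.Yb - (t1v t3c36 - vZ * t1v t3c36) ^ 3 * pe2 yW.QY (vZ * t1v t3c36) (t1v t3c36)) :=
  NC.of (K := 142) (D := ⟨1, 8, 1, 12⟩) (Box.of 4 (by decide +kernel))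
    (by decide +kernel)

theorem t3k36_wmu : NC (qc t3m36 - pe t3al (tcl t3c36) * (1 + hlf * tcl t3c36)) :=
  NC.of (K := 99) (D := ⟨1, 1, 1, 9⟩) (Box.of 4 (by decide +kernel))
    (by decide +kernel)

theorem t3k36_wcj : NC (qc t3c36.C * ((6 - 3 * vX) * (1 - qc t3m36 * vX)) - (6 - 6 * vX + vX ^ 2)) :=
  NC.of (K := 34) (D := ⟨3, 1, 1, 1⟩) (Box.of 4 (by decide +kernel))
    (by decide +kernel)

theorem t3k36_nd1 : NC (pe t3r36.d1 (t1v t3c36)) :=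
  NC.of (K := 79) (D := ⟨1, 1, 1, 7⟩) (Box.of 4 (by decide +kernel))
    (by decide +kernel)

theorem t3k36_nd2 : NC (pe t3r36.d2 (t1v t3c36)) :=
  NC.of (K := 78) (D := ⟨1, 1, 1, 7⟩) (Box.of 4 (by decide +kernel))
    (by decide +kernel)

theorem t3k36_ndy : NC (pe t3r36.dy (t1v t3c36)) :=
  NC.of (K := 83) (D := ⟨1, 1, 1, 7⟩) (Box.of 4 (by decide +kernel))
    (by decide +kernel)

theorem t3k36_nt1 : NC (pe t3r36.t1 (t1v t3c36)) :=
  NC.of (K := 77) (D := ⟨1, 1, 1, 7⟩) (Box.of 4 (by decide +kernel))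
    (by decide +kernel)

theorem t3k36_nt2 : NC (pe t3r36.t2 (t1v t3c36)) :=
  NC.of (K := 81) (D := ⟨1, 1, 1, 7⟩) (Box.of 4 (by decide +kernel))
    (by decide +kernel)

theorem t3k36_nty : NC (pe t3r36.ty (t1v t3c36)) :=
  NC.of (K := 86) (D := ⟨1, 1, 1, 7⟩) (Box.of 4 (by decide +kernel))
    (by decide +kernel)

theorem t3k36_nhz : NC (pe t3r36.hz (t1v t3c36)) :=
  NC.of (K := 108) (D := ⟨1, 1, 1, 7⟩) (Box.of 18659 (by decide +kernel))
    (by decide +kernel)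

theorem t3k36_xi : NC (eXi fW t3c36 t3e36 t3r36 (t1v t3c36)) :=
  NC.of (K := 332) (D := ⟨1, 1, 1, 22⟩) (Box.of 4 (by decide +kernel))
    (by decide +kernel)

theorem t3k36_om : NC (eOm fW t3r36 (t1v t3c36)) :=
  NC.of (K := 221) (D := ⟨1, 1, 1, 16⟩) (Box.of 291 (by decide +kernel))
    (by decide +kernel)

theorem t3k36_fin : NC (eFin dW t3c36 t3n36 t3r36 t3h36 (tcl t3c36)) :=
  NC.of (K := 218) (D := ⟨1, 1, 1, 14⟩) (Box.of 4 (by decide +kernel))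
    (by decide +kernel)

theorem t3k36_xdl : NC (qc t3e36.dl - pe t3d36.l.dl t3d36.eU) :=
  NC.of (K := 73) (D := ⟨1, 4, 1, 1⟩) (Box.of 4 (by decide +kernel))
    (by decide +kernel)

theorem t3k36_xeY : NC (qc t3e36.eY - pe (e4l t3d36.l.z) t3d36.eU) :=
  NC.of (K := 288) (D := ⟨1, 13, 1, 1⟩) (Box.of 4 (by decide +kernel))
    (by decide +kernel)

theorem t3k36_xgr : NC (qc t3d36.ga * ((1 + qc (3 / 5) * vX) * (1 + (t3d36.eg + hlf * t3d36.eg ^ 2))) + qc t3d36.gb - pe2 t3GR vX t3d36.eU) :=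
  NC.of (K := 256) (D := ⟨4, 11, 1, 1⟩) (Box.of 18688 (by decide +kernel))
    (by decide +kernel)

theorem t3k36_xhr : NC (qc t3d36.hb - pe2 t3HR vX t3d36.eU) :=
  NC.of (K := 265) (D := ⟨3, 12, 1, 1⟩) (Box.of 4 (by decide +kernel))
    (by decide +kernel)

theorem t3k36_xgs : NC (pe t3d36.gs t3d36.e1 - qc (8 / 5) * pe (e4l (ladd t3d36.ls.z t3d36.ls.dl)) t3d36.e1) :=
  NC.of (K := 256) (D := ⟨1, 1, 1, 13⟩) (Box.of 4 (by decide +kernel))
    (by decide +kernel)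

theorem t3k36_xd1 : NC (pe t3d36.d1 t3d36.e1 - t3d36.eA t3d36.eU t3d36.e1) :=
  NC.of (K := 290) (D := ⟨1, 12, 1, 12⟩) (Box.of 4 (by decide +kernel))
    (by decide +kernel)

theorem t3k36_xd2 : NC (pe t3d36.d2 t3d36.e1 - t3d36.eB t3d36.eU t3d36.e1) :=
  NC.of (K := 290) (D := ⟨1, 12, 1, 12⟩) (Box.of 4 (by decide +kernel))
    (by decide +kernel)

theorem t3k36_xt1 : NC (pe t3d36.t1 t3d36.e1 - t3d36.eAT t3d36.eU t3d36.e1) :=
  NC.of (K := 472) (D := ⟨1, 19, 1, 19⟩) (Box.of 4 (by decide +kernel))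
    (by decide +kernel)

theorem t3k36_xt2 : NC (pe t3d36.t2 t3d36.e1 - t3d36.eBT t3d36.eU t3d36.e1) :=
  NC.of (K := 474) (D := ⟨1, 19, 1, 19⟩) (Box.of 4 (by decide +kernel))
    (by decide +kernel)

theorem t3k36_xdy : NC (pe t3d36.dy t3d36.e1 - t3d36.eSD t3d36.eU t3d36.e1) :=
  NC.of (K := 451) (D := ⟨1, 18, 1, 12⟩) (Box.of 4 (by decide +kernel))
    (by decide +kernel)

theorem t3k36_xty : NC (pe t3d36.ty t3d36.e1 - t3d36.eST t3d36.eU t3d36.e1) :=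
  NC.of (K := 674) (D := ⟨1, 26, 1, 26⟩) (Box.of 4 (by decide +kernel))
    (by decide +kernel)

theorem t3k36_xd1s : NC (pe t3r36.d1 (t1v t3c36) - pe t3d36.d1 (Xcd.ew zW t3c36)) :=
  NC.of (K := 701) (D := ⟨1, 1, 1, 55⟩) (Box.of 4 (by decide +kernel))
    (by decide +kernel)

theorem t3k36_xd2s : NC (pe t3r36.d2 (t1v t3c36) - pe t3d36.d2 (Xcd.ew zW t3c36)) :=
  NC.of (K := 703) (D := ⟨1, 1, 1, 55⟩) (Box.of 4 (by decide +kernel))
    (by decide +kernel)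

theorem t3k36_xt1s : NC (pe t3r36.t1 (t1v t3c36) - pe t3d36.t1 (Xcd.ew zW t3c36)) :=
  NC.of (K := 703) (D := ⟨1, 1, 1, 55⟩) (Box.of 4 (by decide +kernel))
    (by decide +kernel)

theorem t3k36_xt2s : NC (pe t3r36.t2 (t1v t3c36) - pe t3d36.t2 (Xcd.ew zW t3c36)) :=
  NC.of (K := 701) (D := ⟨1, 1, 1, 55⟩) (Box.of 4 (by decide +kernel))
    (by decide +kernel)

theorem t3k36_xdys : NC (pe t3r36.dy (t1v t3c36) - pe t3d36.dy (Xcd.ew zW t3c36)) :=
  NC.of (K := 706) (D := ⟨1, 1, 1, 55⟩) (Box.of 4 (by decide +kernel))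
    (by decide +kernel)

theorem t3k36_xtys : NC (pe t3r36.ty (t1v t3c36) - pe t3d36.ty (Xcd.ew zW t3c36)) :=
  NC.of (K := 710) (D := ⟨1, 1, 1, 55⟩) (Box.of 4 (by decide +kernel))
    (by decide +kernel)

theorem t3k36_xhz : NC (pe t3r36.hz (t1v t3c36) - pe t3d36.c.dR (Xcd.ew zW t3c36)) :=
  NC.of (K := 485) (D := ⟨1, 1, 1, 37⟩) (Box.of 4 (by decide +kernel))
    (by decide +kernel)

theorem t3f36_ok : t3f36.ok V2L.y17 V2L.k17 V2L.nb V2L.la (10 ^ 30) 32 = true := by decide +kernel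

theorem t3k36_sg : t3c36.Sg := by
  constructor <;> decide +kernel

theorem t3k36_rgs : t3c36.Rgs where
  M := ⟨t3k36_M_r1, t3k36_M_r2, t3k36_M_r3, t3k36_M_r4⟩
  r0 := ⟨t3k36_r0_r1, t3k36_r0_r2, t3k36_r0_r3, t3k36_r0_r4⟩
  r1 := ⟨t3k36_r1_r1, t3k36_r1_r2, t3k36_r1_r3, t3k36_r1_r4⟩
  r2 := ⟨t3k36_r2_r1, t3k36_r2_r2, t3k36_r2_r3, t3k36_r2_r4⟩
  rc := ⟨t3k36_rc_r1, t3k36_rc_r2, t3k36_rc_r3, t3k36_rc_r4⟩
  rI := ⟨t3k36_rI_r1, t3k36_rI_r2, t3k36_rI_r3, t3k36_rI_r4⟩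
  rJ := ⟨t3k36_rJ_r1, t3k36_rJ_r2, t3k36_rJ_r3, t3k36_rJ_r4⟩

theorem t3k36_xn : t3e36.Ok t3c36 where
  lm := by decide +kernel
  dl0 := by decide +kernel
  dl1 := by decide +kernel
  e2 := by decide +kernel
  eY := by decide +kernel
  gE := ⟨t3k36_gE_r1, t3k36_gE_r2, t3k36_gE_r3, t3k36_gE_r4⟩

theorem t3k36_vl : t3c36.Vl dW qW where
  bt := by decide +kernel
  B0 := t3k36_B0
  E0 := t3k36_E0
  D0 := t3k36_D0
  Bh := t3k36_Bh
  Eh := t3k36_Eh
  Dh := t3k36_Dh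
  B1 := t3k36_B1
  E1 := t3k36_E1
  D1 := t3k36_D1

theorem t3k36_rat : t3n36.Rat t3c36 := by
  constructor <;> decide +kernel

theorem t3k36_ck : t3n36.Ck t3c36 := ⟨t3k36_l, t3k36_n⟩

theorem t3k36_fck : t3n36.Fck dW qW fW t3c36 := ⟨t3k36_rb, t3k36_kap⟩

theorem t3k36_w : Wcl zW kW yW t3al t3c36 t3n36 t3m36 where
  b2 := t3k36_wb2
  mb := t3k36_wmb
  th := t3k36_wth
  yb := t3k36_wyb
  mu := t3k36_wmu
  cj := t3k36_wcj
  mt1 := by decide +kernel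
  mt2 := by decide +kernel

theorem t3k36_ok : CelOk dW qW fW t3c36 t3n36 where
  s := t3k36_sg
  r := t3k36_rgs
  v := t3k36_vl
  rt := t3k36_rat
  k := t3k36_ck
  fc := t3k36_fck
  q01 := by decide +kernel
  q12 := by decide +kernel
  h2 := by decide +kernel

theorem t3k36_xr : t3r36.Ok fW t3c36 t3e36 where
  sD := by decide +kernel
  sT := by decide +kernel
  nd1 := t3k36_nd1
  nd2 := t3k36_nd2
  ndy := t3k36_ndy
  nt1 := t3k36_nt1
  nt2 := t3k36_nt2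
  nty := t3k36_nty
  nhz := t3k36_nhz
  xi := t3k36_xi
  om := t3k36_om

theorem t3k36_X : t3d36.Ck t3GR t3HR zW t3c36 t3e36 t3r36 where
  u0 := by decide +kernel
  u01 := by decide +kernel
  ul := by decide +kernel
  us := by decide +kernel
  uc := by decide +kernel
  ga0 := by decide +kernel
  kp0 := by decide +kernel
  lm := by decide +kernel
  dl := t3k36_xdl
  eY := t3k36_xeY
  gr := t3k36_xgr
  hr := t3k36_xhr
  gs := t3k36_xgs
  d1 := t3k36_xd1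
  d2 := t3k36_xd2
  t1 := t3k36_xt1
  t2 := t3k36_xt2
  dy := t3k36_xdy
  ty := t3k36_xty
  d1s := t3k36_xd1s
  d2s := t3k36_xd2s
  t1s := t3k36_xt1s
  t2s := t3k36_xt2s
  dys := t3k36_xdys
  tys := t3k36_xtys
  hz := t3k36_xhz

end Pool.Agent.RX.RCN.K
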