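import Pool.Agent.RX.RCN.T3D
import Pool.Agent.RX.RCN.T3Wq
import Pool.Agent.RX.RCN.T3X17
import Pool.Agent.RX.RCN.VLd

/-! Certificates (generated). -/

set_option autoImplicit false

namespace Pool.Agent.RX.RCN.K

open Set Pool.Agent.RX.RCM9 Pool.Agent.RX.RCM9.Bern Pool.Agent.RX.RCM9.Pk Xce

def t3c37 : Cel where
  t0 := 99 / 200
  t1 := 1 / 2
  C := 4097 / 4096
  th := 2097 / 4096
  B0 := 1059 / 1024
  Bh := 2449 / 2048
  B1 := 151 / 128
  D0 := 1521 / 4096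
  Dh := 1285 / 4096
  D1 := 77 / 256
  E0 := 807 / 65536
  Eh := 705 / 65536
  E1 := 169 / 16384
  Q0 := 531 / 512
  Q1 := 1065 / 1024
  Q2 := 145 / 128
  Ac := 1065 / 1024
  gI := 533 / 512
  J := 725 / 32768

def t3n37 : Chn where
  lb := 513 / 512
  nb := 337 / 1024
  Mb := 525 / 512
  b2 := 525 / 512
  Yb := 65 / 4096
  E2 := 4229 / 4096
  e1 := 1371 / 1024
  Z1 := 557 / 512
  Z2 := 641 / 1024
  KB := 537 / 512
  cb := 1095 / 1024
  rb := 421 / 1024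
  om := 263 / 256
  fb := 129 / 128
  kap := 4223 / 4096
  ab := 1029 / 1024

def t3e37 : Xge where
  lm := 3 / 5
  dl := 249 / 512
  e2 := 575 / 4096
  eY := 4165 / 4096
  gE := 599 / 512

def t3r37 : Xr where
  d1 := [1847513 / 50000000, 754081 / 100000000, 3974637 / 100000000, 9897 / 10000000, 1239801 /
    6250000, -1531307 / 4000000, 32932203 / 100000000]
  d2 := [605207 / 100000000, 4273079 / 100000000, 7326479 / 100000000, 13172153 / 50000000,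
    -14464377 / 100000000, -13797499 / 50000000, 41897327 / 100000000]
  dy := [4871533 / 10000000, 17629983 / 100000000, 3928879 / 10000000, 598289 / 390625, -158416787
    / 100000000, -13505811 / 25000000, 41260969 / 25000000]
  t1 := [1839047 / 10000000, -2370133 / 5000000, 4064219 / 25000000, 15745953 / 25000000, 28523697
    / 100000000, -204868849 / 100000000, 23395719 / 10000000]
  t2 := [3298107 / 50000000, -14226559 / 100000000, 4480419 / 100000000, 69991907 / 100000000,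
    -8132483 / 20000000, -25360527 / 100000000, 1178481 / 2500000]
  ty := [89888417 / 50000000, -239681931 / 50000000, 16772883 / 100000000, 2428333871 / 100000000,
    -1722096941 / 50000000, 287400421 / 25000000, 29563059 / 5000000]
  hz := [10307719 / 50000000, -26554323 / 50000000, 140104103 / 100000000, -90879429 / 5000000,
    5772090407 / 100000000, -5001977031 / 100000000, -381128201 / 100000000]
  om := [3137397 / 3125000, 25699063 / 25000000, -1412211959 / 100000000, 1193767621 / 20000000,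
    -8544011779 / 50000000, 1192514669 / 2500000, -5289233523 / 5000000, 108322566 / 78125,
    -4880966447 / 6250000]
  sD := 661 / 256
  sT := 591 / 256
  xi := [16991631 / 100000000, 109762549 / 100000000, -459952693 / 100000000, 580285509 /
    100000000, 122318453 / 100000000, -1619251771 / 50000000, 6536110619 / 25000000,
    -80906538313 / 100000000, 22977338239 / 20000000, -66002293007 / 100000000]

def t3f37 : Dl where
  Ca := 4973883 / 10000000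
  Cv := 100501 / 200000
  k1 := 4501643 / 5000000
  ks := 880217 / 1000000
  dd := 0
  kp := 1 / 10000000
  e := [499999848121 / 500000000000, -71457514049 / 50000000000, 79591661913 / 50000000000,
    -315673050859 / 200000000000, 368862180519 / 250000000000, -1273316387689 / 1000000000000,
    953409869939 / 1000000000000, -132133328643 / 250000000000, 15243901291 / 100000000000]
  j1 := [-2101 / 2000000, -1791239241 / 250000000, 68160803583 / 1000000000, -149302302791 /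
    500000000, 181438561613 / 250000000, -938688796073 / 1000000000, 504128081379 / 1000000000]
  nu := [31893181 / 250000000, -254159961 / 1000000000, 379322271 / 1000000000, 1108667 /
    40000000, -90208669 / 1000000000, 113409949 / 200000000, -96814633 / 250000000]
  k2 := [440109209 / 500000000, 223790717 / 1000000000, -305387007 / 1000000000, -4466617 /
    40000000, 161947817 / 1000000000, -587575151 / 1000000000, 221222571 / 500000000]
  dR := [5143571 / 25000000, -53225159 / 100000000, 18291013 / 12500000, -1866423903 / 100000000,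
    373409333 / 6250000, -5448295197 / 100000000]

def t3d37 : Xce where
  u0 := 248949 / 500000
  u1 := 100501 / 200000
  l := V2L.y17
  y := t3z17
  j := t3j17
  i := t3i17
  ls := t3y17
  k := V2L.k17
  c := t3f37
  ga := 7373 / 200000
  gb := -3183 / 200000
  hb := 54013 / 250000
  gs := [80001689 / 50000000, 239999733 / 100000000, 45002071 / 25000000, 15900797 / 20000000,
    6777757 / 25000000, -6562421 / 50000000, -13011 / 250000]
  d1 := [369213 / 10000000, 379707 / 50000000, 3703607 / 100000000, 1419471 / 50000000, 6114647 /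
    100000000, -7473451 / 100000000, 1764131 / 25000000]
  d2 := [601829 / 100000000, 425663 / 10000000, 1773593 / 25000000, 14852257 / 50000000, -36434921
    / 100000000, 14558273 / 50000000, -621657 / 6250000]
  dy := [48676603 / 100000000, 4385781 / 25000000, 19304509 / 50000000, 3293501 / 2000000,
    -60992401 / 25000000, 17933677 / 10000000, -13660411 / 25000000]
  t1 := [1148781 / 6250000, -1474699 / 3125000, 14496077 / 100000000, 77627003 / 100000000,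
    -35530161 / 100000000, -15567547 / 20000000, 27766537 / 20000000]
  t2 := [1648123 / 25000000, -1415079 / 10000000, 886569 / 25000000, 78706919 / 100000000,
    -41957151 / 50000000, 2171203 / 3125000, -30342103 / 100000000]
  ty := [5615119 / 3125000, -238789893 / 50000000, 4414803 / 50000000, 61982127 / 2500000,
    -1859073191 / 50000000, 442815859 / 25000000, 44909571 / 50000000]

def t3m37 : ℚ := 1971 / 4096

def t3h37 : ℚ := 13 / 25

theorem t3k37_M_r1 : NC (fM t3c37 (1 - eh) eh ek (elo t3c37.B0 t3c37.Bh eh) (elo t3c37.D0 t3c37.Dh ek) (elo t3c37.E0 t3c37.Eh ek)) :=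
  NC.of (K := 30) (D := ⟨4, 3, 1, 1⟩) (Box.of 4 (by decide +kernel))
    (by decide +kernel)

theorem t3k37_M_r2 : NC (fM t3c37 eh (1 - eh) ek (ehi t3c37.Bh t3c37.B1 (1 - eh)) (elo t3c37.D0 t3c37.Dh ek) (elo t3c37.E0 t3c37.Eh ek)) :=
  NC.of (K := 30) (D := ⟨4, 3, 1, 1⟩) (Box.of 4 (by decide +kernel))
    (by decide +kernel)

theorem t3k37_M_r3 : NC (fM t3c37 (1 - eh) ek eh (elo t3c37.B0 t3c37.Bh ek) (elo t3c37.D0 t3c37.Dh eh) (elo t3c37.E0 t3c37.Eh eh)) :=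
  NC.of (K := 29) (D := ⟨4, 2, 1, 1⟩) (Box.of 4 (by decide +kernel))
    (by decide +kernel)

theorem t3k37_M_r4 : NC (fM t3c37 eh ek (1 - eh) (elo t3c37.B0 t3c37.Bh ek) (ehi t3c37.Dh t3c37.D1 (1 - eh)) (ehi t3c37.Eh t3c37.E1 (1 - eh))) :=
  NC.of (K := 30) (D := ⟨4, 2, 1, 1⟩) (Box.of 4 (by decide +kernel))
    (by decide +kernel)

theorem t3k37_r0_r1 : NC (f0 t3c37 (1 - eh) eh ek (elo t3c37.B0 t3c37.Bh eh) (elo t3c37.D0 t3c37.Dh ek) (elo t3c37.E0 t3c37.Eh ek)) :=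
  NC.of (K := 126) (D := ⟨13, 9, 1, 1⟩) (Box.of 4 (by decide +kernel))
    (by decide +kernel)

theorem t3k37_r0_r2 : NC (f0 t3c37 eh (1 - eh) ek (ehi t3c37.Bh t3c37.B1 (1 - eh)) (elo t3c37.D0 t3c37.Dh ek) (elo t3c37.E0 t3c37.Eh ek)) :=
  NC.of (K := 126) (D := ⟨13, 9, 1, 1⟩) (Box.of 4 (by decide +kernel))
    (by decide +kernel)

theorem t3k37_r0_r3 : NC (f0 t3c37 (1 - eh) ek eh (elo t3c37.B0 t3c37.Bh ek) (elo t3c37.D0 t3c37.Dh eh) (elo t3c37.E0 t3c37.Eh eh)) :=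
  NC.of (K := 121) (D := ⟨13, 5, 1, 1⟩) (Box.of 4 (by decide +kernel))
    (by decide +kernel)

theorem t3k37_r0_r4 : NC (f0 t3c37 eh ek (1 - eh) (elo t3c37.B0 t3c37.Bh ek) (ehi t3c37.Dh t3c37.D1 (1 - eh)) (ehi t3c37.Eh t3c37.E1 (1 - eh))) :=
  NC.of (K := 126) (D := ⟨13, 5, 1, 1⟩) (Box.of 4 (by decide +kernel))
    (by decide +kernel)

theorem t3k37_r1_r1 : NC (f1 t3c37 (1 - eh) eh ek (elo t3c37.B0 t3c37.Bh eh) (elo t3c37.D0 t3c37.Dh ek) (elo t3c37.E0 t3c37.Eh ek)) :=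
  NC.of (K := 219) (D := ⟨16, 9, 1, 1⟩) (Box.of 4 (by decide +kernel))
    (by decide +kernel)

theorem t3k37_r1_r2 : NC (f1 t3c37 eh (1 - eh) ek (ehi t3c37.Bh t3c37.B1 (1 - eh)) (elo t3c37.D0 t3c37.Dh ek) (elo t3c37.E0 t3c37.Eh ek)) :=
  NC.of (K := 220) (D := ⟨16, 9, 1, 1⟩) (Box.of 4 (by decide +kernel))
    (by decide +kernel)

theorem t3k37_r1_r3 : NC (f1 t3c37 (1 - eh) ek eh (elo t3c37.B0 t3c37.Bh ek) (elo t3c37.D0 t3c37.Dh eh) (elo t3c37.E0 t3c37.Eh eh)) :=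
  NC.of (K := 222) (D := ⟨16, 12, 1, 1⟩) (Box.of 4 (by decide +kernel))
    (by decide +kernel)

theorem t3k37_r1_r4 : NC (f1 t3c37 eh ek (1 - eh) (elo t3c37.B0 t3c37.Bh ek) (ehi t3c37.Dh t3c37.D1 (1 - eh)) (ehi t3c37.Eh t3c37.E1 (1 - eh))) :=
  NC.of (K := 223) (D := ⟨16, 12, 1, 1⟩) (Box.of 4 (by decide +kernel))
    (by decide +kernel)

theorem t3k37_r2_r1 : NC (f2 t3c37 (1 - eh) eh ek (elo t3c37.B0 t3c37.Bh eh) (elo t3c37.D0 t3c37.Dh ek) (elo t3c37.E0 t3c37.Eh ek)) :=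
  NC.of (K := 250) (D := ⟨16, 11, 1, 1⟩) (Box.of 288 (by decide +kernel))
    (by decide +kernel)

theorem t3k37_r2_r2 : NC (f2 t3c37 eh (1 - eh) ek (ehi t3c37.Bh t3c37.B1 (1 - eh)) (elo t3c37.D0 t3c37.Dh ek) (elo t3c37.E0 t3c37.Eh ek)) :=
  NC.of (K := 223) (D := ⟨16, 11, 1, 1⟩) (Box.of 4 (by decide +kernel))
    (by decide +kernel)

theorem t3k37_r2_r3 : NC (f2 t3c37 (1 - eh) ek eh (elo t3c37.B0 t3c37.Bh ek) (elo t3c37.D0 t3c37.Dh eh) (elo t3c37.E0 t3c37.Eh eh)) :=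
  NC.of (K := 251) (D := ⟨16, 12, 1, 1⟩) (Box.of 288 (by decide +kernel))
    (by decide +kernel)

theorem t3k37_r2_r4 : NC (f2 t3c37 eh ek (1 - eh) (elo t3c37.B0 t3c37.Bh ek) (ehi t3c37.Dh t3c37.D1 (1 - eh)) (ehi t3c37.Eh t3c37.E1 (1 - eh))) :=
  NC.of (K := 225) (D := ⟨16, 12, 1, 1⟩) (Box.of 4 (by decide +kernel))
    (by decide +kernel)

theorem t3k37_rc_r1 : NC (fc t3c37 (1 - eh) eh ek (elo t3c37.B0 t3c37.Bh eh) (elo t3c37.D0 t3c37.Dh ek) (elo t3c37.E0 t3c37.Eh ek)) :=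
  NC.of (K := 151) (D := ⟨13, 9, 1, 1⟩) (Box.of 288 (by decide +kernel))
    (by decide +kernel)

theorem t3k37_rc_r2 : NC (fc t3c37 eh (1 - eh) ek (ehi t3c37.Bh t3c37.B1 (1 - eh)) (elo t3c37.D0 t3c37.Dh ek) (elo t3c37.E0 t3c37.Eh ek)) :=
  NC.of (K := 128) (D := ⟨13, 9, 1, 1⟩) (Box.of 4 (by decide +kernel))
    (by decide +kernel)

theorem t3k37_rc_r3 : NC (fc t3c37 (1 - eh) ek eh (elo t3c37.B0 t3c37.Bh ek) (elo t3c37.D0 t3c37.Dh eh) (elo t3c37.E0 t3c37.Eh eh)) :=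
  NC.of (K := 146) (D := ⟨13, 5, 1, 1⟩) (Box.of 288 (by decide +kernel))
    (by decide +kernel)

theorem t3k37_rc_r4 : NC (fc t3c37 eh ek (1 - eh) (elo t3c37.B0 t3c37.Bh ek) (ehi t3c37.Dh t3c37.D1 (1 - eh)) (ehi t3c37.Eh t3c37.E1 (1 - eh))) :=
  NC.of (K := 128) (D := ⟨13, 5, 1, 1⟩) (Box.of 4 (by decide +kernel))
    (by decide +kernel)

theorem t3k37_rI_r1 : NC (fI t3c37 (1 - eh) eh ek (elo t3c37.B0 t3c37.Bh eh) (elo t3c37.D0 t3c37.Dh ek) (elo t3c37.E0 t3c37.Eh ek)) :=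
  NC.of (K := 110) (D := ⟨13, 9, 1, 1⟩) (Box.of 4 (by decide +kernel))
    (by decide +kernel)

theorem t3k37_rI_r2 : NC (fI t3c37 eh (1 - eh) ek (ehi t3c37.Bh t3c37.B1 (1 - eh)) (elo t3c37.D0 t3c37.Dh ek) (elo t3c37.E0 t3c37.Eh ek)) :=
  NC.of (K := 110) (D := ⟨13, 9, 1, 1⟩) (Box.of 4 (by decide +kernel))
    (by decide +kernel)

theorem t3k37_rI_r3 : NC (fI t3c37 (1 - eh) ek eh (elo t3c37.B0 t3c37.Bh ek) (elo t3c37.D0 t3c37.Dh eh) (elo t3c37.E0 t3c37.Eh eh)) :=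
  NC.of (K := 105) (D := ⟨13, 5, 1, 1⟩) (Box.of 4 (by decide +kernel))
    (by decide +kernel)

theorem t3k37_rI_r4 : NC (fI t3c37 eh ek (1 - eh) (elo t3c37.B0 t3c37.Bh ek) (ehi t3c37.Dh t3c37.D1 (1 - eh)) (ehi t3c37.Eh t3c37.E1 (1 - eh))) :=
  NC.of (K := 110) (D := ⟨13, 5, 1, 1⟩) (Box.of 4 (by decide +kernel))
    (by decide +kernel)

theorem t3k37_rJ_r1 : NC (fJ t3c37 (1 - eh) eh ek (elo t3c37.B0 t3c37.Bh eh) (elo t3c37.D0 t3c37.Dh ek) (elo t3c37.E0 t3c37.Eh ek)) :=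
  NC.of (K := 66) (D := ⟨7, 5, 1, 1⟩) (Box.of 4 (by decide +kernel))
    (by decide +kernel)

theorem t3k37_rJ_r2 : NC (fJ t3c37 eh (1 - eh) ek (ehi t3c37.Bh t3c37.B1 (1 - eh)) (elo t3c37.D0 t3c37.Dh ek) (elo t3c37.E0 t3c37.Eh ek)) :=
  NC.of (K := 66) (D := ⟨7, 5, 1, 1⟩) (Box.of 4 (by decide +kernel))
    (by decide +kernel)

theorem t3k37_rJ_r3 : NC (fJ t3c37 (1 - eh) ek eh (elo t3c37.B0 t3c37.Bh ek) (elo t3c37.D0 t3c37.Dh eh) (elo t3c37.E0 t3c37.Eh eh)) :=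
  NC.of (K := 63) (D := ⟨7, 3, 1, 1⟩) (Box.of 4 (by decide +kernel))
    (by decide +kernel)

theorem t3k37_rJ_r4 : NC (fJ t3c37 eh ek (1 - eh) (elo t3c37.B0 t3c37.Bh ek) (ehi t3c37.Dh t3c37.D1 (1 - eh)) (ehi t3c37.Eh t3c37.E1 (1 - eh))) :=
  NC.of (K := 66) (D := ⟨7, 3, 1, 1⟩) (Box.of 4 (by decide +kernel))
    (by decide +kernel)

theorem t3k37_gE_r1 : NC (fE t3c37 t3e37 (1 - eh) eh ek (elo t3c37.B0 t3c37.Bh eh) (elo t3c37.D0 t3c37.Dh ek) (elo t3c37.E0 t3c37.Eh ek)) :=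
  NC.of (K := 158) (D := ⟨13, 9, 1, 1⟩) (Box.of 18688 (by decide +kernel))
    (by decide +kernel)

theorem t3k37_gE_r2 : NC (fE t3c37 t3e37 eh (1 - eh) ek (ehi t3c37.Bh t3c37.B1 (1 - eh)) (elo t3c37.D0 t3c37.Dh ek) (elo t3c37.E0 t3c37.Eh ek)) :=
  NC.of (K := 114) (D := ⟨13, 9, 1, 1⟩) (Box.of 4 (by decide +kernel))
    (by decide +kernel)

theorem t3k37_gE_r3 : NC (fE t3c37 t3e37 (1 - eh) ek eh (elo t3c37.B0 t3c37.Bh ek) (elo t3c37.D0 t3c37.Dh eh) (elo t3c37.E0 t3c37.Eh eh)) :=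
  NC.of (K := 156) (D := ⟨13, 7, 1, 1⟩) (Box.of 18688 (by decide +kernel))
    (by decide +kernel)

theorem t3k37_gE_r4 : NC (fE t3c37 t3e37 eh ek (1 - eh) (elo t3c37.B0 t3c37.Bh ek) (ehi t3c37.Dh t3c37.D1 (1 - eh)) (ehi t3c37.Eh t3c37.E1 (1 - eh))) :=
  NC.of (K := 117) (D := ⟨13, 7, 1, 1⟩) (Box.of 4 (by decide +kernel))
    (by decide +kernel)

theorem t3k37_B0 : NC (kB dW 1 0 t3c37.B0 (tcl t3c37)) :=
  NC.of (K := 102) (D := ⟨1, 1, 1, 9⟩) (Box.of 4 (by decide +kernel))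
    (by decide +kernel)

theorem t3k37_E0 : NC (kE dW qW qW.p0 qW.q0 t3c37.E0 (tcl t3c37)) :=
  NC.of (K := 226) (D := ⟨1, 1, 1, 19⟩) (Box.of 4 (by decide +kernel))
    (by decide +kernel)

theorem t3k37_D0 : NC (kD dW qW 1 0 qW.p0 qW.q0 t3c37.D0 (tcl t3c37)) :=
  NC.of (K := 344) (D := ⟨1, 1, 1, 20⟩) (Box.of 4 (by decide +kernel))
    (by decide +kernel)

theorem t3k37_Bh : NC (kB dW (1 / 2) (1 / 2) t3c37.Bh (tcl t3c37)) :=
  NC.of (K := 106) (D := ⟨1, 1, 1, 9⟩) (Box.of 4 (by decide +kernel))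
    (by decide +kernel)

theorem t3k37_Eh : NC (kE dW qW qW.ph qW.qh t3c37.Eh (tcl t3c37)) :=
  NC.of (K := 230) (D := ⟨1, 1, 1, 19⟩) (Box.of 4 (by decide +kernel))
    (by decide +kernel)

theorem t3k37_Dh : NC (kD dW qW (1 / 2) (1 / 2) qW.ph qW.qh t3c37.Dh (tcl t3c37)) :=
  NC.of (K := 348) (D := ⟨1, 1, 1, 20⟩) (Box.of 4 (by decide +kernel))
    (by decide +kernel)

theorem t3k37_B1 : NC (kB dW 0 (1 / 2) t3c37.B1 (tcl t3c37)) :=
  NC.of (K := 105) (D := ⟨1, 1, 1, 9⟩) (Box.of 4 (by decide +kernel))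
    (by decide +kernel)

theorem t3k37_E1 : NC (kE dW qW qW.p1 qW.q1 t3c37.E1 (tcl t3c37)) :=
  NC.of (K := 230) (D := ⟨1, 1, 1, 19⟩) (Box.of 4 (by decide +kernel))
    (by decide +kernel)

theorem t3k37_D1 : NC (kD dW qW 0 (1 / 2) qW.p1 qW.q1 t3c37.D1 (tcl t3c37)) :=
  NC.of (K := 347) (D := ⟨1, 1, 1, 20⟩) (Box.of 4 (by decide +kernel))
    (by decide +kernel)

theorem t3k37_l : NC (qc t3n37.lb - (1 - vX) * pe (exl t3c37.th) vX ^ 2) :=
  NC.of (K := 140) (D := ⟨10, 1, 1, 1⟩) (Box.of 288 (by decide +kernel))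
    (by decide +kernel)

theorem t3k37_n : NC (qc t3n37.nb - vX * (1 - vX) * pe (exl t3c37.th) vX) :=
  NC.of (K := 114) (D := ⟨7, 1, 1, 1⟩) (Box.of 76677152 (by decide +kernel))
    (by decide +kernel)

theorem t3k37_rb : NC (krb t3n37 fW (t1v t3c37)) :=
  NC.of (K := 104) (D := ⟨1, 1, 1, 16⟩) (Box.of 4 (by decide +kernel))
    (by decide +kernel)

theorem t3k37_kap : NC (kkap dW qW t3n37 (tcl t3c37)) :=
  NC.of (K := 102) (D := ⟨1, 1, 1, 9⟩) (Box.of 4 (by decide +kernel))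
    (by decide +kernel)

theorem t3k37_wb2 : NC (qc t3n37.b2 - pe2 kW.QB (vZ * t1v t3c37) (t1v t3c37)) :=
  NC.of (K := 111) (D := ⟨1, 6, 1, 11⟩) (Box.of 1185891 (by decide +kernel))
    (by decide +kernel)

theorem t3k37_wmb : NC (qc t3n37.Mb - pe zW.mb (t1v t3c37)) :=
  NC.of (K := 70) (D := ⟨1, 1, 1, 9⟩) (Box.of 291 (by decide +kernel))
    (by decide +kernel)

theorem t3k37_wth : NC (qc (t3c37.th / t3c37.t1) - pe2 zW.Qt (vZ * t1v t3c37) (t1v t3c37)) :=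
  NC.of (K := 90) (D := ⟨1, 6, 1, 11⟩) (Box.of 291 (by decide +kernel))
    (by decide +kernel)

theorem t3k37_wyb : NC (qc t3n37.Yb - (t1v t3c37 - vZ * t1v t3c37) ^ 3 * pe2 yW.QY (vZ * t1v t3c37) (t1v t3c37)) :=
  NC.of (K := 69) (D := ⟨1, 8, 1, 12⟩) (Box.of 4 (by decide +kernel))
    (by decide +kernel)

theorem t3k37_wmu : NC (qc t3m37 - pe t3al (tcl t3c37) * (1 + hlf * tcl t3c37)) :=
  NC.of (K := 99) (D := ⟨1, 1, 1, 9⟩) (Box.of 4 (by decide +kernel))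
    (by decide +kernel)

theorem t3k37_wcj : NC (qc t3c37.C * ((6 - 3 * vX) * (1 - qc t3m37 * vX)) - (6 - 6 * vX + vX ^ 2)) :=
  NC.of (K := 34) (D := ⟨3, 1, 1, 1⟩) (Box.of 4 (by decide +kernel))
    (by decide +kernel)

theorem t3k37_nd1 : NC (pe t3r37.d1 (t1v t3c37)) :=
  NC.of (K := 39) (D := ⟨1, 1, 1, 7⟩) (Box.of 4 (by decide +kernel))
    (by decide +kernel)

theorem t3k37_nd2 : NC (pe t3r37.d2 (t1v t3c37)) :=
  NC.of (K := 40) (D := ⟨1, 1, 1, 7⟩) (Box.of 4 (by decide +kernel))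
    (by decide +kernel)

theorem t3k37_ndy : NC (pe t3r37.dy (t1v t3c37)) :=
  NC.of (K := 41) (D := ⟨1, 1, 1, 7⟩) (Box.of 4 (by decide +kernel))
    (by decide +kernel)

theorem t3k37_nt1 : NC (pe t3r37.t1 (t1v t3c37)) :=
  NC.of (K := 41) (D := ⟨1, 1, 1, 7⟩) (Box.of 4 (by decide +kernel))
    (by decide +kernel)

theorem t3k37_nt2 : NC (pe t3r37.t2 (t1v t3c37)) :=
  NC.of (K := 40) (D := ⟨1, 1, 1, 7⟩) (Box.of 4 (by decide +kernel))
    (by decide +kernel)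

theorem t3k37_nty : NC (pe t3r37.ty (t1v t3c37)) :=
  NC.of (K := 44) (D := ⟨1, 1, 1, 7⟩) (Box.of 4 (by decide +kernel))
    (by decide +kernel)

theorem t3k37_nhz : NC (pe t3r37.hz (t1v t3c37)) :=
  NC.of (K := 71) (D := ⟨1, 1, 1, 7⟩) (Box.of 18659 (by decide +kernel))
    (by decide +kernel)

theorem t3k37_xi : NC (eXi fW t3c37 t3e37 t3r37 (t1v t3c37)) :=
  NC.of (K := 194) (D := ⟨1, 1, 1, 22⟩) (Box.of 4 (by decide +kernel))
    (by decide +kernel)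

theorem t3k37_om : NC (eOm fW t3r37 (t1v t3c37)) :=
  NC.of (K := 123) (D := ⟨1, 1, 1, 16⟩) (Box.of 291 (by decide +kernel))
    (by decide +kernel)

theorem t3k37_fin : NC (eFin dW t3c37 t3n37 t3r37 t3h37 (tcl t3c37)) :=
  NC.of (K := 227) (D := ⟨1, 1, 1, 14⟩) (Box.of 4 (by decide +kernel))
    (by decide +kernel)

theorem t3k37_xdl : NC (qc t3e37.dl - pe t3d37.l.dl t3d37.eU) :=
  NC.of (K := 73) (D := ⟨1, 4, 1, 1⟩) (Box.of 4 (by decide +kernel))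
    (by decide +kernel)

theorem t3k37_xeY : NC (qc t3e37.eY - pe (e4l t3d37.l.z) t3d37.eU) :=
  NC.of (K := 288) (D := ⟨1, 13, 1, 1⟩) (Box.of 4 (by decide +kernel))
    (by decide +kernel)

theorem t3k37_xgr : NC (qc t3d37.ga * ((1 + qc (3 / 5) * vX) * (1 + (t3d37.eg + hlf * t3d37.eg ^ 2))) + qc t3d37.gb - pe2 t3GR vX t3d37.eU) :=
  NC.of (K := 256) (D := ⟨4, 11, 1, 1⟩) (Box.of 18688 (by decide +kernel))
    (by decide +kernel)

theorem t3k37_xhr : NC (qc t3d37.hb - pe2 t3HR vX t3d37.eU) :=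
  NC.of (K := 265) (D := ⟨3, 12, 1, 1⟩) (Box.of 4 (by decide +kernel))
    (by decide +kernel)

theorem t3k37_xgs : NC (pe t3d37.gs t3d37.e1 - qc (8 / 5) * pe (e4l (ladd t3d37.ls.z t3d37.ls.dl)) t3d37.e1) :=
  NC.of (K := 268) (D := ⟨1, 1, 1, 13⟩) (Box.of 4 (by decide +kernel))
    (by decide +kernel)

theorem t3k37_xd1 : NC (pe t3d37.d1 t3d37.e1 - t3d37.eA t3d37.eU t3d37.e1) :=
  NC.of (K := 290) (D := ⟨1, 12, 1, 12⟩) (Box.of 4 (by decide +kernel))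
    (by decide +kernel)

theorem t3k37_xd2 : NC (pe t3d37.d2 t3d37.e1 - t3d37.eB t3d37.eU t3d37.e1) :=
  NC.of (K := 290) (D := ⟨1, 12, 1, 12⟩) (Box.of 4 (by decide +kernel))
    (by decide +kernel)

theorem t3k37_xt1 : NC (pe t3d37.t1 t3d37.e1 - t3d37.eAT t3d37.eU t3d37.e1) :=
  NC.of (K := 473) (D := ⟨1, 19, 1, 19⟩) (Box.of 4 (by decide +kernel))
    (by decide +kernel)

theorem t3k37_xt2 : NC (pe t3d37.t2 t3d37.e1 - t3d37.eBT t3d37.eU t3d37.e1) :=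
  NC.of (K := 474) (D := ⟨1, 19, 1, 19⟩) (Box.of 4 (by decide +kernel))
    (by decide +kernel)

theorem t3k37_xdy : NC (pe t3d37.dy t3d37.e1 - t3d37.eSD t3d37.eU t3d37.e1) :=
  NC.of (K := 442) (D := ⟨1, 18, 1, 12⟩) (Box.of 4 (by decide +kernel))
    (by decide +kernel)

theorem t3k37_xty : NC (pe t3d37.ty t3d37.e1 - t3d37.eST t3d37.eU t3d37.e1) :=
  NC.of (K := 666) (D := ⟨1, 26, 1, 26⟩) (Box.of 4 (by decide +kernel))
    (by decide +kernel)

theorem t3k37_xd1s : NC (pe t3r37.d1 (t1v t3c37) - pe t3d37.d1 (Xcd.ew zW t3c37)) :=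
  NC.of (K := 369) (D := ⟨1, 1, 1, 55⟩) (Box.of 4 (by decide +kernel))
    (by decide +kernel)

theorem t3k37_xd2s : NC (pe t3r37.d2 (t1v t3c37) - pe t3d37.d2 (Xcd.ew zW t3c37)) :=
  NC.of (K := 367) (D := ⟨1, 1, 1, 55⟩) (Box.of 4 (by decide +kernel))
    (by decide +kernel)

theorem t3k37_xt1s : NC (pe t3r37.t1 (t1v t3c37) - pe t3d37.t1 (Xcd.ew zW t3c37)) :=
  NC.of (K := 373) (D := ⟨1, 1, 1, 55⟩) (Box.of 4 (by decide +kernel))
    (by decide +kernel)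

theorem t3k37_xt2s : NC (pe t3r37.t2 (t1v t3c37) - pe t3d37.t2 (Xcd.ew zW t3c37)) :=
  NC.of (K := 373) (D := ⟨1, 1, 1, 55⟩) (Box.of 4 (by decide +kernel))
    (by decide +kernel)

theorem t3k37_xdys : NC (pe t3r37.dy (t1v t3c37) - pe t3d37.dy (Xcd.ew zW t3c37)) :=
  NC.of (K := 372) (D := ⟨1, 1, 1, 55⟩) (Box.of 4 (by decide +kernel))
    (by decide +kernel)

theorem t3k37_xtys : NC (pe t3r37.ty (t1v t3c37) - pe t3d37.ty (Xcd.ew zW t3c37)) :=
  NC.of (K := 375) (D := ⟨1, 1, 1, 55⟩) (Box.of 4 (by decide +kernel))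
    (by decide +kernel)

theorem t3k37_xhz : NC (pe t3r37.hz (t1v t3c37) - pe t3d37.c.dR (Xcd.ew zW t3c37)) :=
  NC.of (K := 323) (D := ⟨1, 1, 1, 46⟩) (Box.of 4 (by decide +kernel))
    (by decide +kernel)

theorem t3f37_ok : t3f37.ok V2L.y17 V2L.k17 V2L.nb V2L.la (10 ^ 30) 32 = true := by decide +kernel

theorem t3k37_sg : t3c37.Sg := by
  constructor <;> decide +kernel

theorem t3k37_rgs : t3c37.Rgs where
  M := ⟨t3k37_M_r1, t3k37_M_r2, t3k37_M_r3, t3k37_M_r4⟩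
  r0 := ⟨t3k37_r0_r1, t3k37_r0_r2, t3k37_r0_r3, t3k37_r0_r4⟩
  r1 := ⟨t3k37_r1_r1, t3k37_r1_r2, t3k37_r1_r3, t3k37_r1_r4⟩
  r2 := ⟨t3k37_r2_r1, t3k37_r2_r2, t3k37_r2_r3, t3k37_r2_r4⟩
  rc := ⟨t3k37_rc_r1, t3k37_rc_r2, t3k37_rc_r3, t3k37_rc_r4⟩
  rI := ⟨t3k37_rI_r1, t3k37_rI_r2, t3k37_rI_r3, t3k37_rI_r4⟩
  rJ := ⟨t3k37_rJ_r1, t3k37_rJ_r2, t3k37_rJ_r3, t3k37_rJ_r4⟩

theorem t3k37_xn : t3e37.Ok t3c37 where
  lm := by decide +kernel
  dl0 := by decide +kernel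
  dl1 := by decide +kernel
  e2 := by decide +kernel
  eY := by decide +kernel
  gE := ⟨t3k37_gE_r1, t3k37_gE_r2, t3k37_gE_r3, t3k37_gE_r4⟩

theorem t3k37_vl : t3c37.Vl dW qW where
  bt := by decide +kernel
  B0 := t3k37_B0
  E0 := t3k37_E0
  D0 := t3k37_D0
  Bh := t3k37_Bh
  Eh := t3k37_Eh
  Dh := t3k37_Dh
  B1 := t3k37_B1
  E1 := t3k37_E1
  D1 := t3k37_D1

theorem t3k37_rat : t3n37.Rat t3c37 := by
  constructor <;> decide +kernel

theorem t3k37_ck : t3n37.Ck t3c37 := ⟨t3k37_l, t3k37_n⟩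

theorem t3k37_fck : t3n37.Fck dW qW fW t3c37 := ⟨t3k37_rb, t3k37_kap⟩

theorem t3k37_w : Wcl zW kW yW t3al t3c37 t3n37 t3m37 where
  b2 := t3k37_wb2
  mb := t3k37_wmb
  th := t3k37_wth
  yb := t3k37_wyb
  mu := t3k37_wmu
  cj := t3k37_wcj
  mt1 := by decide +kernel
  mt2 := by decide +kernel

theorem t3k37_ok : CelOk dW qW fW t3c37 t3n37 where
  s := t3k37_sg
  r := t3k37_rgs
  v := t3k37_vl
  rt := t3k37_rat
  k := t3k37_ck
  fc := t3k37_fck
  q01 := by decide +kernel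
  q12 := by decide +kernel
  h2 := by decide +kernel

theorem t3k37_xr : t3r37.Ok fW t3c37 t3e37 where
  sD := by decide +kernel
  sT := by decide +kernel
  nd1 := t3k37_nd1
  nd2 := t3k37_nd2
  ndy := t3k37_ndy
  nt1 := t3k37_nt1
  nt2 := t3k37_nt2
  nty := t3k37_nty
  nhz := t3k37_nhz
  xi := t3k37_xi
  om := t3k37_om

theorem t3k37_X : t3d37.Ck t3GR t3HR zW t3c37 t3e37 t3r37 where
  u0 := by decide +kernel
  u01 := by decide +kernel
  ul := by decide +kernel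
  us := by decide +kernel
  uc := by decide +kernel
  ga0 := by decide +kernel
  kp0 := by decide +kernel
  lm := by decide +kernel
  dl := t3k37_xdl
  eY := t3k37_xeY
  gr := t3k37_xgr
  hr := t3k37_xhr
  gs := t3k37_xgs
  d1 := t3k37_xd1
  d2 := t3k37_xd2
  t1 := t3k37_xt1
  t2 := t3k37_xt2
  dy := t3k37_xdy
  ty := t3k37_xty
  d1s := t3k37_xd1s
  d2s := t3k37_xd2s
  t1s := t3k37_xt1s
  t2s := t3k37_xt2s
  dys := t3k37_xdys
  tys := t3k37_xtys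
  hz := t3k37_xhz

end Pool.Agent.RX.RCN.K
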