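import Pool.Agent.RX.RCN.T3D
import Pool.Agent.RX.RCN.T3Wq
import Pool.Agent.RX.RCN.T3X18
import Pool.Agent.RX.RCN.VLd

/-! Certificates (generated). -/

set_option autoImplicit false

namespace Pool.Agent.RX.RCN.K

open Set Pool.Agent.RX.RCM9 Pool.Agent.RX.RCM9.Bern Pool.Agent.RX.RCM9.Pk Xce

def t3c38 : Cel where
  t0 := 1 / 2
  t1 := 101 / 200
  C := 4097 / 4096
  th := 265 / 512
  B0 := 2113 / 2048
  Bh := 153 / 128
  B1 := 151 / 128
  D0 := 383 / 1024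
  Dh := 1297 / 4096
  D1 := 311 / 1024
  E0 := 105 / 8192
  Eh := 23 / 2048
  E1 := 353 / 32768
  Q0 := 1059 / 1024
  Q1 := 133 / 128
  Q2 := 583 / 512
  Ac := 133 / 128
  gI := 133 / 128
  J := 1525 / 65536

def t3n38 : Chn where
  lb := 513 / 512
  nb := 169 / 512
  Mb := 525 / 512
  b2 := 263 / 256
  Yb := 67 / 4096
  E2 := 4233 / 4096
  e1 := 43 / 32
  Z1 := 1111 / 1024
  Z2 := 321 / 512
  KB := 1075 / 1024
  cb := 137 / 128
  rb := 425 / 1024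
  om := 263 / 256
  fb := 129 / 128
  kap := 4227 / 4096
  ab := 1029 / 1024

def t3e38 : Xge where
  lm := 3 / 5
  dl := 1005 / 2048
  e2 := 2345 / 16384
  eY := 4167 / 4096
  gE := 75 / 64

def t3r38 : Xr where
  d1 := [379477 / 10000000, 406953 / 50000000, 3952373 / 100000000, 1291413 / 100000000, 633543 /
    4000000, -15724099 / 50000000, 7132213 / 25000000]
  d2 := [36361 / 5000000, 2271829 / 50000000, 3463103 / 50000000, 7548571 / 25000000, -12648647 /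
    50000000, -648329 / 6250000, 3895191 / 12500000]
  dy := [26139139 / 50000000, 299993 / 1562500, 19681907 / 50000000, 86731139 / 50000000,
    -104703327 / 50000000, 3891471 / 20000000, 121620319 / 100000000]
  t1 := [18801529 / 100000000, -47547367 / 100000000, 14171483 / 100000000, 1424897 / 2000000,
    4434227 / 100000000, -164978731 / 100000000, 51670047 / 25000000]
  t2 := [3493271 / 50000000, -7210337 / 50000000, 869169 / 25000000, 36692529 / 50000000, -5467971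
    / 12500000, -23500573 / 100000000, 47192521 / 100000000]
  ty := [94930179 / 50000000, -244352207 / 50000000, -8299137 / 20000000, 2627243733 / 100000000,
    -906876811 / 25000000, 1160164567 / 100000000, 320197819 / 50000000]
  hz := [10533851 / 50000000, -12750657 / 25000000, 89108657 / 100000000, -709299323 / 50000000,
    1156350637 / 25000000, -796998123 / 20000000, -294610461 / 100000000]
  om := [20079341 / 20000000, 20569787 / 20000000, -707347083 / 50000000, 1202559577 / 20000000,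
    -17466282661 / 100000000, 12363193333 / 25000000, -110248814433 / 100000000, 36134844481 /
    25000000, -3249298621 / 4000000]
  sD := 167 / 64
  sT := 299 / 128
  xi := [18035409 / 100000000, 22881123 / 20000000, -473958289 / 100000000, 529829613 / 100000000,
    403753891 / 50000000, -6067080693 / 100000000, 32574440159 / 100000000, -90776333667 /
    100000000, 62514990911 / 50000000, -17680720831 / 25000000]

def t3f38 : Dl where
  Ca := 1256259 / 2500000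
  Cv := 63453 / 125000
  k1 := 4486881 / 5000000
  ks := 438659 / 500000
  dd := 3 / 100000
  kp := 301 / 10000000
  e := [249999923957 / 250000000000, -1435014198837 / 1000000000000, 1604508963423 /
    1000000000000, -798632115257 / 500000000000, 1498059969407 / 1000000000000, -1295795263893 /
    1000000000000, 485211484329 / 500000000000, -134127247873 / 250000000000, 76957652051 /
    500000000000]
  j1 := [1744423 / 1000000000, -7055562707 / 1000000000, 33811563947 / 500000000, -299192874357 /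
    1000000000, 36848207099 / 50000000, -193723458527 / 200000000, 264621878891 / 500000000]
  nu := [16358749 / 125000000, -51166993 / 200000000, 376335457 / 1000000000, 199219 / 5000000,
    -30465777 / 250000000, 607210217 / 1000000000, -404735963 / 1000000000]
  k2 := [877319693 / 1000000000, 11226457 / 50000000, -15067589 / 50000000, -30609967 / 250000000,
    47346411 / 250000000, -311176577 / 500000000, 457224563 / 1000000000]
  dR := [10512823 / 50000000, -51075581 / 100000000, 11789153 / 12500000, -364541387 / 25000000,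
    4785352139 / 100000000, -4333423403 / 100000000]

def t3d38 : Xce where
  u0 := 251507 / 500000
  u1 := 63453 / 125000
  l := V2L.y18
  y := t3z18
  j := t3j18
  i := t3i18
  ls := t3y18
  k := V2L.k18
  c := t3f38
  ga := 1893 / 50000
  gb := -8047 / 500000
  hb := 227733 / 1000000
  gs := [40000851 / 25000000, 47999943 / 20000000, 36001753 / 20000000, 15899887 / 20000000, 42391
    / 156250, -13161891 / 100000000, -5177811 / 100000000]
  d1 := [947961 / 25000000, 404939 / 50000000, 770459 / 20000000, 2760891 / 100000000, 6539473 /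
    100000000, -7903047 / 100000000, 3588471 / 50000000]
  d2 := [22613 / 3125000, 4512263 / 100000000, 3507391 / 50000000, 30939253 / 100000000, -18820819
    / 50000000, 2991939 / 10000000, -10182947 / 100000000]
  dy := [13059149 / 25000000, 3808783 / 20000000, 10029337 / 25000000, 173265497 / 100000000,
    -252577343 / 100000000, 182295459 / 100000000, -13633337 / 25000000]
  t1 := [9395653 / 50000000, -47331349 / 100000000, 12346551 / 100000000, 86468943 / 100000000,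
    -30919883 / 50000000, -17090151 / 50000000, 27315729 / 25000000]
  t2 := [1745647 / 25000000, -14344319 / 100000000, 318017 / 12500000, 82148761 / 100000000,
    -87436489 / 100000000, 72502371 / 100000000, -3918491 / 12500000]
  ty := [189762113 / 100000000, -486876319 / 100000000, -24727343 / 50000000, 535946459 /
    20000000, -3913178477 / 100000000, 1808751637 / 100000000, 29540039 / 25000000]

def t3m38 : ℚ := 995 / 2048

def t3h38 : ℚ := 131 / 250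

theorem t3k38_M_r1 : NC (fM t3c38 (1 - eh) eh ek (elo t3c38.B0 t3c38.Bh eh) (elo t3c38.D0 t3c38.Dh ek) (elo t3c38.E0 t3c38.Eh ek)) :=
  NC.of (K := 33) (D := ⟨4, 3, 1, 1⟩) (Box.of 4 (by decide +kernel))
    (by decide +kernel)

theorem t3k38_M_r2 : NC (fM t3c38 eh (1 - eh) ek (ehi t3c38.Bh t3c38.B1 (1 - eh)) (elo t3c38.D0 t3c38.Dh ek) (elo t3c38.E0 t3c38.Eh ek)) :=
  NC.of (K := 33) (D := ⟨4, 3, 1, 1⟩) (Box.of 4 (by decide +kernel))
    (by decide +kernel)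

theorem t3k38_M_r3 : NC (fM t3c38 (1 - eh) ek eh (elo t3c38.B0 t3c38.Bh ek) (elo t3c38.D0 t3c38.Dh eh) (elo t3c38.E0 t3c38.Eh eh)) :=
  NC.of (K := 32) (D := ⟨4, 2, 1, 1⟩) (Box.of 4 (by decide +kernel))
    (by decide +kernel)

theorem t3k38_M_r4 : NC (fM t3c38 eh ek (1 - eh) (elo t3c38.B0 t3c38.Bh ek) (ehi t3c38.Dh t3c38.D1 (1 - eh)) (ehi t3c38.Eh t3c38.E1 (1 - eh))) :=
  NC.of (K := 32) (D := ⟨4, 2, 1, 1⟩) (Box.of 4 (by decide +kernel))
    (by decide +kernel)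

theorem t3k38_r0_r1 : NC (f0 t3c38 (1 - eh) eh ek (elo t3c38.B0 t3c38.Bh eh) (elo t3c38.D0 t3c38.Dh ek) (elo t3c38.E0 t3c38.Eh ek)) :=
  NC.of (K := 146) (D := ⟨13, 9, 1, 1⟩) (Box.of 4 (by decide +kernel))
    (by decide +kernel)

theorem t3k38_r0_r2 : NC (f0 t3c38 eh (1 - eh) ek (ehi t3c38.Bh t3c38.B1 (1 - eh)) (elo t3c38.D0 t3c38.Dh ek) (elo t3c38.E0 t3c38.Eh ek)) :=
  NC.of (K := 146) (D := ⟨13, 9, 1, 1⟩) (Box.of 4 (by decide +kernel))
    (by decide +kernel)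

theorem t3k38_r0_r3 : NC (f0 t3c38 (1 - eh) ek eh (elo t3c38.B0 t3c38.Bh ek) (elo t3c38.D0 t3c38.Dh eh) (elo t3c38.E0 t3c38.Eh eh)) :=
  NC.of (K := 141) (D := ⟨13, 5, 1, 1⟩) (Box.of 4 (by decide +kernel))
    (by decide +kernel)

theorem t3k38_r0_r4 : NC (f0 t3c38 eh ek (1 - eh) (elo t3c38.B0 t3c38.Bh ek) (ehi t3c38.Dh t3c38.D1 (1 - eh)) (ehi t3c38.Eh t3c38.E1 (1 - eh))) :=
  NC.of (K := 142) (D := ⟨13, 5, 1, 1⟩) (Box.of 4 (by decide +kernel))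
    (by decide +kernel)

theorem t3k38_r1_r1 : NC (f1 t3c38 (1 - eh) eh ek (elo t3c38.B0 t3c38.Bh eh) (elo t3c38.D0 t3c38.Dh ek) (elo t3c38.E0 t3c38.Eh ek)) :=
  NC.of (K := 204) (D := ⟨16, 9, 1, 1⟩) (Box.of 4 (by decide +kernel))
    (by decide +kernel)

theorem t3k38_r1_r2 : NC (f1 t3c38 eh (1 - eh) ek (ehi t3c38.Bh t3c38.B1 (1 - eh)) (elo t3c38.D0 t3c38.Dh ek) (elo t3c38.E0 t3c38.Eh ek)) :=
  NC.of (K := 195) (D := ⟨16, 9, 1, 1⟩) (Box.of 4 (by decide +kernel))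
    (by decide +kernel)

theorem t3k38_r1_r3 : NC (f1 t3c38 (1 - eh) ek eh (elo t3c38.B0 t3c38.Bh ek) (elo t3c38.D0 t3c38.Dh eh) (elo t3c38.E0 t3c38.Eh eh)) :=
  NC.of (K := 207) (D := ⟨16, 12, 1, 1⟩) (Box.of 4 (by decide +kernel))
    (by decide +kernel)

theorem t3k38_r1_r4 : NC (f1 t3c38 eh ek (1 - eh) (elo t3c38.B0 t3c38.Bh ek) (ehi t3c38.Dh t3c38.D1 (1 - eh)) (ehi t3c38.Eh t3c38.E1 (1 - eh))) :=
  NC.of (K := 208) (D := ⟨16, 12, 1, 1⟩) (Box.of 4 (by decide +kernel))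
    (by decide +kernel)

theorem t3k38_r2_r1 : NC (f2 t3c38 (1 - eh) eh ek (elo t3c38.B0 t3c38.Bh eh) (elo t3c38.D0 t3c38.Dh ek) (elo t3c38.E0 t3c38.Eh ek)) :=
  NC.of (K := 234) (D := ⟨16, 11, 1, 1⟩) (Box.of 288 (by decide +kernel))
    (by decide +kernel)

theorem t3k38_r2_r2 : NC (f2 t3c38 eh (1 - eh) ek (ehi t3c38.Bh t3c38.B1 (1 - eh)) (elo t3c38.D0 t3c38.Dh ek) (elo t3c38.E0 t3c38.Eh ek)) :=
  NC.of (K := 198) (D := ⟨16, 11, 1, 1⟩) (Box.of 4 (by decide +kernel))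
    (by decide +kernel)

theorem t3k38_r2_r3 : NC (f2 t3c38 (1 - eh) ek eh (elo t3c38.B0 t3c38.Bh ek) (elo t3c38.D0 t3c38.Dh eh) (elo t3c38.E0 t3c38.Eh eh)) :=
  NC.of (K := 235) (D := ⟨16, 12, 1, 1⟩) (Box.of 288 (by decide +kernel))
    (by decide +kernel)

theorem t3k38_r2_r4 : NC (f2 t3c38 eh ek (1 - eh) (elo t3c38.B0 t3c38.Bh ek) (ehi t3c38.Dh t3c38.D1 (1 - eh)) (ehi t3c38.Eh t3c38.E1 (1 - eh))) :=
  NC.of (K := 209) (D := ⟨16, 12, 1, 1⟩) (Box.of 4 (by decide +kernel))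
    (by decide +kernel)

theorem t3k38_rc_r1 : NC (fc t3c38 (1 - eh) eh ek (elo t3c38.B0 t3c38.Bh eh) (elo t3c38.D0 t3c38.Dh ek) (elo t3c38.E0 t3c38.Eh ek)) :=
  NC.of (K := 162) (D := ⟨13, 9, 1, 1⟩) (Box.of 288 (by decide +kernel))
    (by decide +kernel)

theorem t3k38_rc_r2 : NC (fc t3c38 eh (1 - eh) ek (ehi t3c38.Bh t3c38.B1 (1 - eh)) (elo t3c38.D0 t3c38.Dh ek) (elo t3c38.E0 t3c38.Eh ek)) :=
  NC.of (K := 139) (D := ⟨13, 9, 1, 1⟩) (Box.of 4 (by decide +kernel))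
    (by decide +kernel)

theorem t3k38_rc_r3 : NC (fc t3c38 (1 - eh) ek eh (elo t3c38.B0 t3c38.Bh ek) (elo t3c38.D0 t3c38.Dh eh) (elo t3c38.E0 t3c38.Eh eh)) :=
  NC.of (K := 157) (D := ⟨13, 5, 1, 1⟩) (Box.of 288 (by decide +kernel))
    (by decide +kernel)

theorem t3k38_rc_r4 : NC (fc t3c38 eh ek (1 - eh) (elo t3c38.B0 t3c38.Bh ek) (ehi t3c38.Dh t3c38.D1 (1 - eh)) (ehi t3c38.Eh t3c38.E1 (1 - eh))) :=
  NC.of (K := 135) (D := ⟨13, 5, 1, 1⟩) (Box.of 4 (by decide +kernel))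
    (by decide +kernel)

theorem t3k38_rI_r1 : NC (fI t3c38 (1 - eh) eh ek (elo t3c38.B0 t3c38.Bh eh) (elo t3c38.D0 t3c38.Dh ek) (elo t3c38.E0 t3c38.Eh ek)) :=
  NC.of (K := 136) (D := ⟨13, 9, 1, 1⟩) (Box.of 4 (by decide +kernel))
    (by decide +kernel)

theorem t3k38_rI_r2 : NC (fI t3c38 eh (1 - eh) ek (ehi t3c38.Bh t3c38.B1 (1 - eh)) (elo t3c38.D0 t3c38.Dh ek) (elo t3c38.E0 t3c38.Eh ek)) :=
  NC.of (K := 136) (D := ⟨13, 9, 1, 1⟩) (Box.of 4 (by decide +kernel))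
    (by decide +kernel)

theorem t3k38_rI_r3 : NC (fI t3c38 (1 - eh) ek eh (elo t3c38.B0 t3c38.Bh ek) (elo t3c38.D0 t3c38.Dh eh) (elo t3c38.E0 t3c38.Eh eh)) :=
  NC.of (K := 154) (D := ⟨13, 5, 1, 1⟩) (Box.of 288 (by decide +kernel))
    (by decide +kernel)

theorem t3k38_rI_r4 : NC (fI t3c38 eh ek (1 - eh) (elo t3c38.B0 t3c38.Bh ek) (ehi t3c38.Dh t3c38.D1 (1 - eh)) (ehi t3c38.Eh t3c38.E1 (1 - eh))) :=
  NC.of (K := 133) (D := ⟨13, 5, 1, 1⟩) (Box.of 4 (by decide +kernel))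
    (by decide +kernel)

theorem t3k38_rJ_r1 : NC (fJ t3c38 (1 - eh) eh ek (elo t3c38.B0 t3c38.Bh eh) (elo t3c38.D0 t3c38.Dh ek) (elo t3c38.E0 t3c38.Eh ek)) :=
  NC.of (K := 76) (D := ⟨7, 5, 1, 1⟩) (Box.of 4 (by decide +kernel))
    (by decide +kernel)

theorem t3k38_rJ_r2 : NC (fJ t3c38 eh (1 - eh) ek (ehi t3c38.Bh t3c38.B1 (1 - eh)) (elo t3c38.D0 t3c38.Dh ek) (elo t3c38.E0 t3c38.Eh ek)) :=
  NC.of (K := 76) (D := ⟨7, 5, 1, 1⟩) (Box.of 4 (by decide +kernel))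
    (by decide +kernel)

theorem t3k38_rJ_r3 : NC (fJ t3c38 (1 - eh) ek eh (elo t3c38.B0 t3c38.Bh ek) (elo t3c38.D0 t3c38.Dh eh) (elo t3c38.E0 t3c38.Eh eh)) :=
  NC.of (K := 73) (D := ⟨7, 3, 1, 1⟩) (Box.of 4 (by decide +kernel))
    (by decide +kernel)

theorem t3k38_rJ_r4 : NC (fJ t3c38 eh ek (1 - eh) (elo t3c38.B0 t3c38.Bh ek) (ehi t3c38.Dh t3c38.D1 (1 - eh)) (ehi t3c38.Eh t3c38.E1 (1 - eh))) :=
  NC.of (K := 73) (D := ⟨7, 3, 1, 1⟩) (Box.of 4 (by decide +kernel))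
    (by decide +kernel)

theorem t3k38_gE_r1 : NC (fE t3c38 t3e38 (1 - eh) eh ek (elo t3c38.B0 t3c38.Bh eh) (elo t3c38.D0 t3c38.Dh ek) (elo t3c38.E0 t3c38.Eh ek)) :=
  NC.of (K := 180) (D := ⟨13, 9, 1, 1⟩) (Box.of 18688 (by decide +kernel))
    (by decide +kernel)

theorem t3k38_gE_r2 : NC (fE t3c38 t3e38 eh (1 - eh) ek (ehi t3c38.Bh t3c38.B1 (1 - eh)) (elo t3c38.D0 t3c38.Dh ek) (elo t3c38.E0 t3c38.Eh ek)) :=
  NC.of (K := 136) (D := ⟨13, 9, 1, 1⟩) (Box.of 4 (by decide +kernel))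
    (by decide +kernel)

theorem t3k38_gE_r3 : NC (fE t3c38 t3e38 (1 - eh) ek eh (elo t3c38.B0 t3c38.Bh ek) (elo t3c38.D0 t3c38.Dh eh) (elo t3c38.E0 t3c38.Eh eh)) :=
  NC.of (K := 178) (D := ⟨13, 7, 1, 1⟩) (Box.of 18688 (by decide +kernel))
    (by decide +kernel)

theorem t3k38_gE_r4 : NC (fE t3c38 t3e38 eh ek (1 - eh) (elo t3c38.B0 t3c38.Bh ek) (ehi t3c38.Dh t3c38.D1 (1 - eh)) (ehi t3c38.Eh t3c38.E1 (1 - eh))) :=
  NC.of (K := 135) (D := ⟨13, 7, 1, 1⟩) (Box.of 4 (by decide +kernel))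
    (by decide +kernel)

theorem t3k38_B0 : NC (kB dW 1 0 t3c38.B0 (tcl t3c38)) :=
  NC.of (K := 102) (D := ⟨1, 1, 1, 9⟩) (Box.of 4 (by decide +kernel))
    (by decide +kernel)

theorem t3k38_E0 : NC (kE dW qW qW.p0 qW.q0 t3c38.E0 (tcl t3c38)) :=
  NC.of (K := 226) (D := ⟨1, 1, 1, 19⟩) (Box.of 4 (by decide +kernel))
    (by decide +kernel)

theorem t3k38_D0 : NC (kD dW qW 1 0 qW.p0 qW.q0 t3c38.D0 (tcl t3c38)) :=
  NC.of (K := 344) (D := ⟨1, 1, 1, 20⟩) (Box.of 4 (by decide +kernel))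
    (by decide +kernel)

theorem t3k38_Bh : NC (kB dW (1 / 2) (1 / 2) t3c38.Bh (tcl t3c38)) :=
  NC.of (K := 106) (D := ⟨1, 1, 1, 9⟩) (Box.of 4 (by decide +kernel))
    (by decide +kernel)

theorem t3k38_Eh : NC (kE dW qW qW.ph qW.qh t3c38.Eh (tcl t3c38)) :=
  NC.of (K := 230) (D := ⟨1, 1, 1, 19⟩) (Box.of 4 (by decide +kernel))
    (by decide +kernel)

theorem t3k38_Dh : NC (kD dW qW (1 / 2) (1 / 2) qW.ph qW.qh t3c38.Dh (tcl t3c38)) :=
  NC.of (K := 348) (D := ⟨1, 1, 1, 20⟩) (Box.of 4 (by decide +kernel))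
    (by decide +kernel)

theorem t3k38_B1 : NC (kB dW 0 (1 / 2) t3c38.B1 (tcl t3c38)) :=
  NC.of (K := 106) (D := ⟨1, 1, 1, 9⟩) (Box.of 4 (by decide +kernel))
    (by decide +kernel)

theorem t3k38_E1 : NC (kE dW qW qW.p1 qW.q1 t3c38.E1 (tcl t3c38)) :=
  NC.of (K := 230) (D := ⟨1, 1, 1, 19⟩) (Box.of 4 (by decide +kernel))
    (by decide +kernel)

theorem t3k38_D1 : NC (kD dW qW 0 (1 / 2) qW.p1 qW.q1 t3c38.D1 (tcl t3c38)) :=
  NC.of (K := 347) (D := ⟨1, 1, 1, 20⟩) (Box.of 4 (by decide +kernel))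
    (by decide +kernel)

theorem t3k38_l : NC (qc t3n38.lb - (1 - vX) * pe (exl t3c38.th) vX ^ 2) :=
  NC.of (K := 119) (D := ⟨10, 1, 1, 1⟩) (Box.of 288 (by decide +kernel))
    (by decide +kernel)

theorem t3k38_n : NC (qc t3n38.nb - vX * (1 - vX) * pe (exl t3c38.th) vX) :=
  NC.of (K := 104) (D := ⟨7, 1, 1, 1⟩) (Box.of 76677152 (by decide +kernel))
    (by decide +kernel)

theorem t3k38_rb : NC (krb t3n38 fW (t1v t3c38)) :=
  NC.of (K := 203) (D := ⟨1, 1, 1, 16⟩) (Box.of 4 (by decide +kernel))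
    (by decide +kernel)

theorem t3k38_kap : NC (kkap dW qW t3n38 (tcl t3c38)) :=
  NC.of (K := 102) (D := ⟨1, 1, 1, 9⟩) (Box.of 4 (by decide +kernel))
    (by decide +kernel)

theorem t3k38_wb2 : NC (qc t3n38.b2 - pe2 kW.QB (vZ * t1v t3c38) (t1v t3c38)) :=
  NC.of (K := 177) (D := ⟨1, 6, 1, 11⟩) (Box.of 1186017 (by decide +kernel))
    (by decide +kernel)

theorem t3k38_wmb : NC (qc t3n38.Mb - pe zW.mb (t1v t3c38)) :=
  NC.of (K := 123) (D := ⟨1, 1, 1, 9⟩) (Box.of 291 (by decide +kernel))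
    (by decide +kernel)

theorem t3k38_wth : NC (qc (t3c38.th / t3c38.t1) - pe2 zW.Qt (vZ * t1v t3c38) (t1v t3c38)) :=
  NC.of (K := 162) (D := ⟨1, 6, 1, 11⟩) (Box.of 291 (by decide +kernel))
    (by decide +kernel)

theorem t3k38_wyb : NC (qc t3n38.Yb - (t1v t3c38 - vZ * t1v t3c38) ^ 3 * pe2 yW.QY (vZ * t1v t3c38) (t1v t3c38)) :=
  NC.of (K := 143) (D := ⟨1, 8, 1, 12⟩) (Box.of 4 (by decide +kernel))
    (by decide +kernel)

theorem t3k38_wmu : NC (qc t3m38 - pe t3al (tcl t3c38) * (1 + hlf * tcl t3c38)) :=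
  NC.of (K := 99) (D := ⟨1, 1, 1, 9⟩) (Box.of 4 (by decide +kernel))
    (by decide +kernel)

theorem t3k38_wcj : NC (qc t3c38.C * ((6 - 3 * vX) * (1 - qc t3m38 * vX)) - (6 - 6 * vX + vX ^ 2)) :=
  NC.of (K := 33) (D := ⟨3, 1, 1, 1⟩) (Box.of 4 (by decide +kernel))
    (by decide +kernel)

theorem t3k38_nd1 : NC (pe t3r38.d1 (t1v t3c38)) :=
  NC.of (K := 77) (D := ⟨1, 1, 1, 7⟩) (Box.of 4 (by decide +kernel))
    (by decide +kernel)

theorem t3k38_nd2 : NC (pe t3r38.d2 (t1v t3c38)) :=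
  NC.of (K := 77) (D := ⟨1, 1, 1, 7⟩) (Box.of 4 (by decide +kernel))
    (by decide +kernel)

theorem t3k38_ndy : NC (pe t3r38.dy (t1v t3c38)) :=
  NC.of (K := 83) (D := ⟨1, 1, 1, 7⟩) (Box.of 4 (by decide +kernel))
    (by decide +kernel)

theorem t3k38_nt1 : NC (pe t3r38.t1 (t1v t3c38)) :=
  NC.of (K := 80) (D := ⟨1, 1, 1, 7⟩) (Box.of 4 (by decide +kernel))
    (by decide +kernel)

theorem t3k38_nt2 : NC (pe t3r38.t2 (t1v t3c38)) :=
  NC.of (K := 81) (D := ⟨1, 1, 1, 7⟩) (Box.of 4 (by decide +kernel))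
    (by decide +kernel)

theorem t3k38_nty : NC (pe t3r38.ty (t1v t3c38)) :=
  NC.of (K := 85) (D := ⟨1, 1, 1, 7⟩) (Box.of 4 (by decide +kernel))
    (by decide +kernel)

theorem t3k38_nhz : NC (pe t3r38.hz (t1v t3c38)) :=
  NC.of (K := 110) (D := ⟨1, 1, 1, 7⟩) (Box.of 18659 (by decide +kernel))
    (by decide +kernel)

theorem t3k38_xi : NC (eXi fW t3c38 t3e38 t3r38 (t1v t3c38)) :=
  NC.of (K := 321) (D := ⟨1, 1, 1, 22⟩) (Box.of 4 (by decide +kernel))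
    (by decide +kernel)

theorem t3k38_om : NC (eOm fW t3r38 (t1v t3c38)) :=
  NC.of (K := 222) (D := ⟨1, 1, 1, 16⟩) (Box.of 291 (by decide +kernel))
    (by decide +kernel)

theorem t3k38_fin : NC (eFin dW t3c38 t3n38 t3r38 t3h38 (tcl t3c38)) :=
  NC.of (K := 228) (D := ⟨1, 1, 1, 14⟩) (Box.of 4 (by decide +kernel))
    (by decide +kernel)

theorem t3k38_xdl : NC (qc t3e38.dl - pe t3d38.l.dl t3d38.eU) :=
  NC.of (K := 70) (D := ⟨1, 4, 1, 1⟩) (Box.of 4 (by decide +kernel))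
    (by decide +kernel)

theorem t3k38_xeY : NC (qc t3e38.eY - pe (e4l t3d38.l.z) t3d38.eU) :=
  NC.of (K := 276) (D := ⟨1, 13, 1, 1⟩) (Box.of 4 (by decide +kernel))
    (by decide +kernel)

theorem t3k38_xgr : NC (qc t3d38.ga * ((1 + qc (3 / 5) * vX) * (1 + (t3d38.eg + hlf * t3d38.eg ^ 2))) + qc t3d38.gb - pe2 t3GR vX t3d38.eU) :=
  NC.of (K := 246) (D := ⟨4, 11, 1, 1⟩) (Box.of 18688 (by decide +kernel))
    (by decide +kernel)

theorem t3k38_xhr : NC (qc t3d38.hb - pe2 t3HR vX t3d38.eU) :=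
  NC.of (K := 254) (D := ⟨3, 12, 1, 1⟩) (Box.of 4 (by decide +kernel))
    (by decide +kernel)

theorem t3k38_xgs : NC (pe t3d38.gs t3d38.e1 - qc (8 / 5) * pe (e4l (ladd t3d38.ls.z t3d38.ls.dl)) t3d38.e1) :=
  NC.of (K := 260) (D := ⟨1, 1, 1, 13⟩) (Box.of 4 (by decide +kernel))
    (by decide +kernel)

theorem t3k38_xd1 : NC (pe t3d38.d1 t3d38.e1 - t3d38.eA t3d38.eU t3d38.e1) :=
  NC.of (K := 279) (D := ⟨1, 12, 1, 12⟩) (Box.of 4 (by decide +kernel))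
    (by decide +kernel)

theorem t3k38_xd2 : NC (pe t3d38.d2 t3d38.e1 - t3d38.eB t3d38.eU t3d38.e1) :=
  NC.of (K := 276) (D := ⟨1, 12, 1, 12⟩) (Box.of 4 (by decide +kernel))
    (by decide +kernel)

theorem t3k38_xt1 : NC (pe t3d38.t1 t3d38.e1 - t3d38.eAT t3d38.eU t3d38.e1) :=
  NC.of (K := 454) (D := ⟨1, 19, 1, 19⟩) (Box.of 4 (by decide +kernel))
    (by decide +kernel)

theorem t3k38_xt2 : NC (pe t3d38.t2 t3d38.e1 - t3d38.eBT t3d38.eU t3d38.e1) :=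
  NC.of (K := 457) (D := ⟨1, 19, 1, 19⟩) (Box.of 4 (by decide +kernel))
    (by decide +kernel)

theorem t3k38_xdy : NC (pe t3d38.dy t3d38.e1 - t3d38.eSD t3d38.eU t3d38.e1) :=
  NC.of (K := 435) (D := ⟨1, 18, 1, 12⟩) (Box.of 4 (by decide +kernel))
    (by decide +kernel)

theorem t3k38_xty : NC (pe t3d38.ty t3d38.e1 - t3d38.eST t3d38.eU t3d38.e1) :=
  NC.of (K := 650) (D := ⟨1, 26, 1, 26⟩) (Box.of 4 (by decide +kernel))
    (by decide +kernel)

theorem t3k38_xd1s : NC (pe t3r38.d1 (t1v t3c38) - pe t3d38.d1 (Xcd.ew zW t3c38)) :=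
  NC.of (K := 703) (D := ⟨1, 1, 1, 55⟩) (Box.of 4 (by decide +kernel))
    (by decide +kernel)

theorem t3k38_xd2s : NC (pe t3r38.d2 (t1v t3c38) - pe t3d38.d2 (Xcd.ew zW t3c38)) :=
  NC.of (K := 705) (D := ⟨1, 1, 1, 55⟩) (Box.of 4 (by decide +kernel))
    (by decide +kernel)

theorem t3k38_xt1s : NC (pe t3r38.t1 (t1v t3c38) - pe t3d38.t1 (Xcd.ew zW t3c38)) :=
  NC.of (K := 706) (D := ⟨1, 1, 1, 55⟩) (Box.of 4 (by decide +kernel))
    (by decide +kernel)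

theorem t3k38_xt2s : NC (pe t3r38.t2 (t1v t3c38) - pe t3d38.t2 (Xcd.ew zW t3c38)) :=
  NC.of (K := 703) (D := ⟨1, 1, 1, 55⟩) (Box.of 4 (by decide +kernel))
    (by decide +kernel)

theorem t3k38_xdys : NC (pe t3r38.dy (t1v t3c38) - pe t3d38.dy (Xcd.ew zW t3c38)) :=
  NC.of (K := 705) (D := ⟨1, 1, 1, 55⟩) (Box.of 4 (by decide +kernel))
    (by decide +kernel)

theorem t3k38_xtys : NC (pe t3r38.ty (t1v t3c38) - pe t3d38.ty (Xcd.ew zW t3c38)) :=
  NC.of (K := 707) (D := ⟨1, 1, 1, 55⟩) (Box.of 4 (by decide +kernel))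
    (by decide +kernel)

theorem t3k38_xhz : NC (pe t3r38.hz (t1v t3c38) - pe t3d38.c.dR (Xcd.ew zW t3c38)) :=
  NC.of (K := 601) (D := ⟨1, 1, 1, 46⟩) (Box.of 4 (by decide +kernel))
    (by decide +kernel)

theorem t3f38_ok : t3f38.ok V2L.y18 V2L.k18 V2L.nb V2L.la (10 ^ 30) 32 = true := by decide +kernel

theorem t3k38_sg : t3c38.Sg := by
  constructor <;> decide +kernel

theorem t3k38_rgs : t3c38.Rgs where
  M := ⟨t3k38_M_r1, t3k38_M_r2, t3k38_M_r3, t3k38_M_r4⟩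
  r0 := ⟨t3k38_r0_r1, t3k38_r0_r2, t3k38_r0_r3, t3k38_r0_r4⟩
  r1 := ⟨t3k38_r1_r1, t3k38_r1_r2, t3k38_r1_r3, t3k38_r1_r4⟩
  r2 := ⟨t3k38_r2_r1, t3k38_r2_r2, t3k38_r2_r3, t3k38_r2_r4⟩
  rc := ⟨t3k38_rc_r1, t3k38_rc_r2, t3k38_rc_r3, t3k38_rc_r4⟩
  rI := ⟨t3k38_rI_r1, t3k38_rI_r2, t3k38_rI_r3, t3k38_rI_r4⟩
  rJ := ⟨t3k38_rJ_r1, t3k38_rJ_r2, t3k38_rJ_r3, t3k38_rJ_r4⟩

theorem t3k38_xn : t3e38.Ok t3c38 where
  lm := by decide +kernel
  dl0 := by decide +kernel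
  dl1 := by decide +kernel
  e2 := by decide +kernel
  eY := by decide +kernel
  gE := ⟨t3k38_gE_r1, t3k38_gE_r2, t3k38_gE_r3, t3k38_gE_r4⟩

theorem t3k38_vl : t3c38.Vl dW qW where
  bt := by decide +kernel
  B0 := t3k38_B0
  E0 := t3k38_E0
  D0 := t3k38_D0
  Bh := t3k38_Bh
  Eh := t3k38_Eh
  Dh := t3k38_Dh
  B1 := t3k38_B1
  E1 := t3k38_E1
  D1 := t3k38_D1

theorem t3k38_rat : t3n38.Rat t3c38 := by
  constructor <;> decide +kernel

theorem t3k38_ck : t3n38.Ck t3c38 := ⟨t3k38_l, t3k38_n⟩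

theorem t3k38_fck : t3n38.Fck dW qW fW t3c38 := ⟨t3k38_rb, t3k38_kap⟩

theorem t3k38_w : Wcl zW kW yW t3al t3c38 t3n38 t3m38 where
  b2 := t3k38_wb2
  mb := t3k38_wmb
  th := t3k38_wth
  yb := t3k38_wyb
  mu := t3k38_wmu
  cj := t3k38_wcj
  mt1 := by decide +kernel
  mt2 := by decide +kernel

theorem t3k38_ok : CelOk dW qW fW t3c38 t3n38 where
  s := t3k38_sg
  r := t3k38_rgs
  v := t3k38_vl
  rt := t3k38_rat
  k := t3k38_ck
  fc := t3k38_fck
  q01 := by decide +kernel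
  q12 := by decide +kernel
  h2 := by decide +kernel

theorem t3k38_xr : t3r38.Ok fW t3c38 t3e38 where
  sD := by decide +kernel
  sT := by decide +kernel
  nd1 := t3k38_nd1
  nd2 := t3k38_nd2
  ndy := t3k38_ndy
  nt1 := t3k38_nt1
  nt2 := t3k38_nt2
  nty := t3k38_nty
  nhz := t3k38_nhz
  xi := t3k38_xi
  om := t3k38_om

theorem t3k38_X : t3d38.Ck t3GR t3HR zW t3c38 t3e38 t3r38 where
  u0 := by decide +kernel
  u01 := by decide +kernel
  ul := by decide +kernel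
  us := by decide +kernel
  uc := by decide +kernel
  ga0 := by decide +kernel
  kp0 := by decide +kernel
  lm := by decide +kernel
  dl := t3k38_xdl
  eY := t3k38_xeY
  gr := t3k38_xgr
  hr := t3k38_xhr
  gs := t3k38_xgs
  d1 := t3k38_xd1
  d2 := t3k38_xd2
  t1 := t3k38_xt1
  t2 := t3k38_xt2
  dy := t3k38_xdy
  ty := t3k38_xty
  d1s := t3k38_xd1s
  d2s := t3k38_xd2s
  t1s := t3k38_xt1s
  t2s := t3k38_xt2s
  dys := t3k38_xdys
  tys := t3k38_xtys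
  hz := t3k38_xhz

end Pool.Agent.RX.RCN.K
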