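import Pool.Agent.RX.RCN.T3D
import Pool.Agent.RX.RCN.T3Wq
import Pool.Agent.RX.RCN.T3X19
import Pool.Agent.RX.RCN.VLd

/-! Certificates (generated). -/

set_option autoImplicit false

namespace Pool.Agent.RX.RCN.K

open Set Pool.Agent.RX.RCM9 Pool.Agent.RX.RCM9.Bern Pool.Agent.RX.RCM9.Pk Xce

def t3c39 : Cel where
  t0 := 101 / 200
  t1 := 51 / 100
  C := 4097 / 4096
  th := 1071 / 2048
  B0 := 527 / 512
  Bh := 2445 / 2048
  B1 := 151 / 128
  D0 := 1543 / 4096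
  Dh := 655 / 2048
  D1 := 1257 / 4096
  E0 := 437 / 32768
  Eh := 3 / 256
  E1 := 737 / 65536
  Q0 := 1057 / 1024
  Q1 := 1063 / 1024
  Q2 := 1171 / 1024
  Ac := 1063 / 1024
  gI := 531 / 512
  J := 1603 / 65536

def t3n39 : Chn where
  lb := 1027 / 1024
  nb := 339 / 1024
  Mb := 525 / 512
  b2 := 1053 / 1024
  Yb := 69 / 4096
  E2 := 4237 / 4096
  e1 := 1381 / 1024
  Z1 := 555 / 512
  Z2 := 643 / 1024
  KB := 1077 / 1024
  cb := 549 / 512
  rb := 429 / 1024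
  om := 263 / 256
  fb := 129 / 128
  kap := 529 / 512
  ab := 1029 / 1024

def t3e39 : Xge where
  lm := 3 / 5
  dl := 2029 / 4096
  e2 := 1197 / 8192
  eY := 4169 / 4096
  gE := 1203 / 1024

def t3r39 : Xr where
  d1 := [3906017 / 100000000, 437021 / 50000000, 1982113 / 50000000, 2370059 / 100000000, 1198597
    / 10000000, -24563949 / 100000000, 23970809 / 100000000]
  d2 := [842743 / 100000000, 1207229 / 25000000, 811939 / 12500000, 34294347 / 100000000,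
    -18557683 / 50000000, 545939 / 6250000, 9554553 / 50000000]
  dy := [7016623 / 12500000, 10456861 / 50000000, 4920037 / 12500000, 195969333 / 100000000,
    -267873621 / 100000000, 4247211 / 4000000, 13861567 / 20000000]
  t1 := [19228307 / 100000000, -23845331 / 50000000, 12278573 / 100000000, 78180309 / 100000000,
    -3258577 / 20000000, -8023139 / 6250000, 90097171 / 50000000]
  t2 := [7381081 / 100000000, -3642431 / 25000000, 877873 / 50000000, 8158627 / 10000000, -7879239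
    / 12500000, 4816217 / 100000000, 6130933 / 20000000]
  ty := [200636873 / 100000000, -248877277 / 50000000, -26839609 / 25000000, 284841151 / 10000000,
    -3841766157 / 100000000, 1198500817 / 100000000, 338134763 / 50000000]
  hz := [10772373 / 50000000, -1995629 / 4000000, 27036627 / 50000000, -28398699 / 2500000,
    951266231 / 25000000, -130403621 / 4000000, -227853699 / 100000000]
  om := [20079341 / 20000000, 102904607 / 100000000, -708645493 / 50000000, 3029164339 / 50000000,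
    -17854160813 / 100000000, 51231680381 / 100000000, -114736140993 / 100000000, 150397936367 /
    100000000, -42161878967 / 50000000]
  sD := 169 / 64
  sT := 605 / 256
  xi := [2393951 / 12500000, 954999 / 800000, -489833721 / 100000000, 246604579 / 50000000,
    1411702663 / 100000000, -8800598781 / 100000000, 39706810533 / 100000000, -12898127973 /
    12500000, 5538082387 / 4000000, -15421774313 / 20000000]

def t3f39 : Dl where
  Ca := 203049 / 400000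
  Cv := 102549 / 200000
  k1 := 4471697 / 5000000
  ks := 21859 / 25000
  dd := 31 / 1000000
  kp := 311 / 10000000
  e := [499999847687 / 500000000000, -720462264253 / 500000000000, 404335182237 / 250000000000,
    -202057016827 / 125000000000, 1521082616627 / 1000000000000, -131870686331 / 100000000000,
    246934905057 / 250000000000, -136149946767 / 250000000000, 155408384589 / 1000000000000]
  j1 := [189231 / 100000000, -3467691487 / 500000000, 66690051061 / 1000000000, -59026307263 /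
    200000000, 727021061811 / 1000000000, -964699682263 / 1000000000, 560061020063 / 1000000000,
    -20021682889 / 500000000]
  nu := [67123111 / 500000000, -128724163 / 500000000, 373047511 / 1000000000, 26550139 /
    500000000, -38941269 / 250000000, 649678999 / 1000000000, -423137649 / 1000000000]
  k2 := [437180671 / 500000000, 225188987 / 1000000000, -37132423 / 125000000, -134090771 /
    1000000000, 10928067 / 50000000, -658860069 / 1000000000, 472692277 / 1000000000]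
  dR := [10750869 / 50000000, -49928627 / 100000000, 11692559 / 20000000, -1168080971 / 100000000,
    3931179959 / 100000000, -1765874101 / 50000000]

def t3d39 : Xce where
  u0 := 508133 / 1000000
  u1 := 102549 / 200000
  l := V2L.y19
  y := t3z19
  j := t3j19
  i := t3i19
  ls := t3y19
  k := V2L.k19
  c := t3f39
  ga := 38969 / 1000000
  gb := -16387 / 1000000
  hb := 60027 / 250000
  gs := [160003429 / 100000000, 14999981 / 6250000, 18000927 / 10000000, 19873679 / 25000000,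
    1696873 / 6250000, -6599777 / 50000000, -5151053 / 100000000]
  d1 := [156119 / 4000000, 215879 / 25000000, 4006909 / 100000000, 2671747 / 100000000, 698741 /
    10000000, -8346073 / 100000000, 7299719 / 100000000]
  d2 := [838907 / 100000000, 956473 / 20000000, 1383977 / 20000000, 32223921 / 100000000,
    -38891251 / 100000000, 3843729 / 12500000, -1303401 / 12500000]
  dy := [28044053 / 50000000, 2068253 / 10000000, 20864537 / 50000000, 45569037 / 25000000,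
    -6532163 / 2500000, 9248389 / 5000000, -54243709 / 100000000]
  t1 := [3843567 / 20000000, -47471667 / 100000000, 10407459 / 100000000, 93818437 / 100000000,
    -8407327 / 10000000, 95663 / 2000000, 40764483 / 50000000]
  t2 := [1844311 / 25000000, -14527849 / 100000000, 1460361 / 100000000, 85779797 / 100000000,
    -3648601 / 4000000, 9473243 / 12500000, -16236919 / 50000000]
  ty := [40106609 / 20000000, -247941019 / 50000000, -57658199 / 50000000, 2902492891 / 100000000,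
    -4139826399 / 100000000, 1875571247 / 100000000, 132065059 / 100000000]

def t3m39 : ℚ := 251 / 512

def t3h39 : ℚ := 263 / 500

theorem t3k39_M_r1 : NC (fM t3c39 (1 - eh) eh ek (elo t3c39.B0 t3c39.Bh eh) (elo t3c39.D0 t3c39.Dh ek) (elo t3c39.E0 t3c39.Eh ek)) :=
  NC.of (K := 32) (D := ⟨4, 3, 1, 1⟩) (Box.of 4 (by decide +kernel))
    (by decide +kernel)

theorem t3k39_M_r2 : NC (fM t3c39 eh (1 - eh) ek (ehi t3c39.Bh t3c39.B1 (1 - eh)) (elo t3c39.D0 t3c39.Dh ek) (elo t3c39.E0 t3c39.Eh ek)) :=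
  NC.of (K := 32) (D := ⟨4, 3, 1, 1⟩) (Box.of 4 (by decide +kernel))
    (by decide +kernel)

theorem t3k39_M_r3 : NC (fM t3c39 (1 - eh) ek eh (elo t3c39.B0 t3c39.Bh ek) (elo t3c39.D0 t3c39.Dh eh) (elo t3c39.E0 t3c39.Eh eh)) :=
  NC.of (K := 31) (D := ⟨4, 2, 1, 1⟩) (Box.of 4 (by decide +kernel))
    (by decide +kernel)

theorem t3k39_M_r4 : NC (fM t3c39 eh ek (1 - eh) (elo t3c39.B0 t3c39.Bh ek) (ehi t3c39.Dh t3c39.D1 (1 - eh)) (ehi t3c39.Eh t3c39.E1 (1 - eh))) :=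
  NC.of (K := 31) (D := ⟨4, 2, 1, 1⟩) (Box.of 4 (by decide +kernel))
    (by decide +kernel)

theorem t3k39_r0_r1 : NC (f0 t3c39 (1 - eh) eh ek (elo t3c39.B0 t3c39.Bh eh) (elo t3c39.D0 t3c39.Dh ek) (elo t3c39.E0 t3c39.Eh ek)) :=
  NC.of (K := 155) (D := ⟨13, 9, 1, 1⟩) (Box.of 4 (by decide +kernel))
    (by decide +kernel)

theorem t3k39_r0_r2 : NC (f0 t3c39 eh (1 - eh) ek (ehi t3c39.Bh t3c39.B1 (1 - eh)) (elo t3c39.D0 t3c39.Dh ek) (elo t3c39.E0 t3c39.Eh ek)) :=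
  NC.of (K := 155) (D := ⟨13, 9, 1, 1⟩) (Box.of 4 (by decide +kernel))
    (by decide +kernel)

theorem t3k39_r0_r3 : NC (f0 t3c39 (1 - eh) ek eh (elo t3c39.B0 t3c39.Bh ek) (elo t3c39.D0 t3c39.Dh eh) (elo t3c39.E0 t3c39.Eh eh)) :=
  NC.of (K := 150) (D := ⟨13, 5, 1, 1⟩) (Box.of 4 (by decide +kernel))
    (by decide +kernel)

theorem t3k39_r0_r4 : NC (f0 t3c39 eh ek (1 - eh) (elo t3c39.B0 t3c39.Bh ek) (ehi t3c39.Dh t3c39.D1 (1 - eh)) (ehi t3c39.Eh t3c39.E1 (1 - eh))) :=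
  NC.of (K := 151) (D := ⟨13, 5, 1, 1⟩) (Box.of 4 (by decide +kernel))
    (by decide +kernel)

theorem t3k39_r1_r1 : NC (f1 t3c39 (1 - eh) eh ek (elo t3c39.B0 t3c39.Bh eh) (elo t3c39.D0 t3c39.Dh ek) (elo t3c39.E0 t3c39.Eh ek)) :=
  NC.of (K := 230) (D := ⟨16, 9, 1, 1⟩) (Box.of 4 (by decide +kernel))
    (by decide +kernel)

theorem t3k39_r1_r2 : NC (f1 t3c39 eh (1 - eh) ek (ehi t3c39.Bh t3c39.B1 (1 - eh)) (elo t3c39.D0 t3c39.Dh ek) (elo t3c39.E0 t3c39.Eh ek)) :=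
  NC.of (K := 231) (D := ⟨16, 9, 1, 1⟩) (Box.of 4 (by decide +kernel))
    (by decide +kernel)

theorem t3k39_r1_r3 : NC (f1 t3c39 (1 - eh) ek eh (elo t3c39.B0 t3c39.Bh ek) (elo t3c39.D0 t3c39.Dh eh) (elo t3c39.E0 t3c39.Eh eh)) :=
  NC.of (K := 233) (D := ⟨16, 12, 1, 1⟩) (Box.of 4 (by decide +kernel))
    (by decide +kernel)

theorem t3k39_r1_r4 : NC (f1 t3c39 eh ek (1 - eh) (elo t3c39.B0 t3c39.Bh ek) (ehi t3c39.Dh t3c39.D1 (1 - eh)) (ehi t3c39.Eh t3c39.E1 (1 - eh))) :=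
  NC.of (K := 234) (D := ⟨16, 12, 1, 1⟩) (Box.of 4 (by decide +kernel))
    (by decide +kernel)

theorem t3k39_r2_r1 : NC (f2 t3c39 (1 - eh) eh ek (elo t3c39.B0 t3c39.Bh eh) (elo t3c39.D0 t3c39.Dh ek) (elo t3c39.E0 t3c39.Eh ek)) :=
  NC.of (K := 260) (D := ⟨16, 11, 1, 1⟩) (Box.of 288 (by decide +kernel))
    (by decide +kernel)

theorem t3k39_r2_r2 : NC (f2 t3c39 eh (1 - eh) ek (ehi t3c39.Bh t3c39.B1 (1 - eh)) (elo t3c39.D0 t3c39.Dh ek) (elo t3c39.E0 t3c39.Eh ek)) :=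
  NC.of (K := 234) (D := ⟨16, 11, 1, 1⟩) (Box.of 4 (by decide +kernel))
    (by decide +kernel)

theorem t3k39_r2_r3 : NC (f2 t3c39 (1 - eh) ek eh (elo t3c39.B0 t3c39.Bh ek) (elo t3c39.D0 t3c39.Dh eh) (elo t3c39.E0 t3c39.Eh eh)) :=
  NC.of (K := 262) (D := ⟨16, 12, 1, 1⟩) (Box.of 288 (by decide +kernel))
    (by decide +kernel)

theorem t3k39_r2_r4 : NC (f2 t3c39 eh ek (1 - eh) (elo t3c39.B0 t3c39.Bh ek) (ehi t3c39.Dh t3c39.D1 (1 - eh)) (ehi t3c39.Eh t3c39.E1 (1 - eh))) :=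
  NC.of (K := 236) (D := ⟨16, 12, 1, 1⟩) (Box.of 4 (by decide +kernel))
    (by decide +kernel)

theorem t3k39_rc_r1 : NC (fc t3c39 (1 - eh) eh ek (elo t3c39.B0 t3c39.Bh eh) (elo t3c39.D0 t3c39.Dh ek) (elo t3c39.E0 t3c39.Eh ek)) :=
  NC.of (K := 155) (D := ⟨13, 9, 1, 1⟩) (Box.of 4 (by decide +kernel))
    (by decide +kernel)

theorem t3k39_rc_r2 : NC (fc t3c39 eh (1 - eh) ek (ehi t3c39.Bh t3c39.B1 (1 - eh)) (elo t3c39.D0 t3c39.Dh ek) (elo t3c39.E0 t3c39.Eh ek)) :=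
  NC.of (K := 154) (D := ⟨13, 9, 1, 1⟩) (Box.of 4 (by decide +kernel))
    (by decide +kernel)

theorem t3k39_rc_r3 : NC (fc t3c39 (1 - eh) ek eh (elo t3c39.B0 t3c39.Bh ek) (elo t3c39.D0 t3c39.Dh eh) (elo t3c39.E0 t3c39.Eh eh)) :=
  NC.of (K := 150) (D := ⟨13, 5, 1, 1⟩) (Box.of 4 (by decide +kernel))
    (by decide +kernel)

theorem t3k39_rc_r4 : NC (fc t3c39 eh ek (1 - eh) (elo t3c39.B0 t3c39.Bh ek) (ehi t3c39.Dh t3c39.D1 (1 - eh)) (ehi t3c39.Eh t3c39.E1 (1 - eh))) :=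
  NC.of (K := 151) (D := ⟨13, 5, 1, 1⟩) (Box.of 4 (by decide +kernel))
    (by decide +kernel)

theorem t3k39_rI_r1 : NC (fI t3c39 (1 - eh) eh ek (elo t3c39.B0 t3c39.Bh eh) (elo t3c39.D0 t3c39.Dh ek) (elo t3c39.E0 t3c39.Eh ek)) :=
  NC.of (K := 136) (D := ⟨13, 9, 1, 1⟩) (Box.of 4 (by decide +kernel))
    (by decide +kernel)

theorem t3k39_rI_r2 : NC (fI t3c39 eh (1 - eh) ek (ehi t3c39.Bh t3c39.B1 (1 - eh)) (elo t3c39.D0 t3c39.Dh ek) (elo t3c39.E0 t3c39.Eh ek)) :=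
  NC.of (K := 136) (D := ⟨13, 9, 1, 1⟩) (Box.of 4 (by decide +kernel))
    (by decide +kernel)

theorem t3k39_rI_r3 : NC (fI t3c39 (1 - eh) ek eh (elo t3c39.B0 t3c39.Bh ek) (elo t3c39.D0 t3c39.Dh eh) (elo t3c39.E0 t3c39.Eh eh)) :=
  NC.of (K := 154) (D := ⟨13, 5, 1, 1⟩) (Box.of 288 (by decide +kernel))
    (by decide +kernel)

theorem t3k39_rI_r4 : NC (fI t3c39 eh ek (1 - eh) (elo t3c39.B0 t3c39.Bh ek) (ehi t3c39.Dh t3c39.D1 (1 - eh)) (ehi t3c39.Eh t3c39.E1 (1 - eh))) :=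
  NC.of (K := 133) (D := ⟨13, 5, 1, 1⟩) (Box.of 4 (by decide +kernel))
    (by decide +kernel)

theorem t3k39_rJ_r1 : NC (fJ t3c39 (1 - eh) eh ek (elo t3c39.B0 t3c39.Bh eh) (elo t3c39.D0 t3c39.Dh ek) (elo t3c39.E0 t3c39.Eh ek)) :=
  NC.of (K := 80) (D := ⟨7, 5, 1, 1⟩) (Box.of 4 (by decide +kernel))
    (by decide +kernel)

theorem t3k39_rJ_r2 : NC (fJ t3c39 eh (1 - eh) ek (ehi t3c39.Bh t3c39.B1 (1 - eh)) (elo t3c39.D0 t3c39.Dh ek) (elo t3c39.E0 t3c39.Eh ek)) :=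
  NC.of (K := 80) (D := ⟨7, 5, 1, 1⟩) (Box.of 4 (by decide +kernel))
    (by decide +kernel)

theorem t3k39_rJ_r3 : NC (fJ t3c39 (1 - eh) ek eh (elo t3c39.B0 t3c39.Bh ek) (elo t3c39.D0 t3c39.Dh eh) (elo t3c39.E0 t3c39.Eh eh)) :=
  NC.of (K := 78) (D := ⟨7, 3, 1, 1⟩) (Box.of 4 (by decide +kernel))
    (by decide +kernel)

theorem t3k39_rJ_r4 : NC (fJ t3c39 eh ek (1 - eh) (elo t3c39.B0 t3c39.Bh ek) (ehi t3c39.Dh t3c39.D1 (1 - eh)) (ehi t3c39.Eh t3c39.E1 (1 - eh))) :=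
  NC.of (K := 78) (D := ⟨7, 3, 1, 1⟩) (Box.of 4 (by decide +kernel))
    (by decide +kernel)

theorem t3k39_gE_r1 : NC (fE t3c39 t3e39 (1 - eh) eh ek (elo t3c39.B0 t3c39.Bh eh) (elo t3c39.D0 t3c39.Dh ek) (elo t3c39.E0 t3c39.Eh ek)) :=
  NC.of (K := 184) (D := ⟨13, 9, 1, 1⟩) (Box.of 18688 (by decide +kernel))
    (by decide +kernel)

theorem t3k39_gE_r2 : NC (fE t3c39 t3e39 eh (1 - eh) ek (ehi t3c39.Bh t3c39.B1 (1 - eh)) (elo t3c39.D0 t3c39.Dh ek) (elo t3c39.E0 t3c39.Eh ek)) :=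
  NC.of (K := 140) (D := ⟨13, 9, 1, 1⟩) (Box.of 4 (by decide +kernel))
    (by decide +kernel)

theorem t3k39_gE_r3 : NC (fE t3c39 t3e39 (1 - eh) ek eh (elo t3c39.B0 t3c39.Bh ek) (elo t3c39.D0 t3c39.Dh eh) (elo t3c39.E0 t3c39.Eh eh)) :=
  NC.of (K := 182) (D := ⟨13, 7, 1, 1⟩) (Box.of 18688 (by decide +kernel))
    (by decide +kernel)

theorem t3k39_gE_r4 : NC (fE t3c39 t3e39 eh ek (1 - eh) (elo t3c39.B0 t3c39.Bh ek) (ehi t3c39.Dh t3c39.D1 (1 - eh)) (ehi t3c39.Eh t3c39.E1 (1 - eh))) :=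
  NC.of (K := 139) (D := ⟨13, 7, 1, 1⟩) (Box.of 4 (by decide +kernel))
    (by decide +kernel)

theorem t3k39_B0 : NC (kB dW 1 0 t3c39.B0 (tcl t3c39)) :=
  NC.of (K := 102) (D := ⟨1, 1, 1, 9⟩) (Box.of 4 (by decide +kernel))
    (by decide +kernel)

theorem t3k39_E0 : NC (kE dW qW qW.p0 qW.q0 t3c39.E0 (tcl t3c39)) :=
  NC.of (K := 226) (D := ⟨1, 1, 1, 19⟩) (Box.of 4 (by decide +kernel))
    (by decide +kernel)

theorem t3k39_D0 : NC (kD dW qW 1 0 qW.p0 qW.q0 t3c39.D0 (tcl t3c39)) :=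
  NC.of (K := 344) (D := ⟨1, 1, 1, 20⟩) (Box.of 4 (by decide +kernel))
    (by decide +kernel)

theorem t3k39_Bh : NC (kB dW (1 / 2) (1 / 2) t3c39.Bh (tcl t3c39)) :=
  NC.of (K := 106) (D := ⟨1, 1, 1, 9⟩) (Box.of 4 (by decide +kernel))
    (by decide +kernel)

theorem t3k39_Eh : NC (kE dW qW qW.ph qW.qh t3c39.Eh (tcl t3c39)) :=
  NC.of (K := 230) (D := ⟨1, 1, 1, 19⟩) (Box.of 4 (by decide +kernel))
    (by decide +kernel)

theorem t3k39_Dh : NC (kD dW qW (1 / 2) (1 / 2) qW.ph qW.qh t3c39.Dh (tcl t3c39)) :=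
  NC.of (K := 348) (D := ⟨1, 1, 1, 20⟩) (Box.of 4 (by decide +kernel))
    (by decide +kernel)

theorem t3k39_B1 : NC (kB dW 0 (1 / 2) t3c39.B1 (tcl t3c39)) :=
  NC.of (K := 106) (D := ⟨1, 1, 1, 9⟩) (Box.of 4 (by decide +kernel))
    (by decide +kernel)

theorem t3k39_E1 : NC (kE dW qW qW.p1 qW.q1 t3c39.E1 (tcl t3c39)) :=
  NC.of (K := 230) (D := ⟨1, 1, 1, 19⟩) (Box.of 4 (by decide +kernel))
    (by decide +kernel)

theorem t3k39_D1 : NC (kD dW qW 0 (1 / 2) qW.p1 qW.q1 t3c39.D1 (tcl t3c39)) :=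
  NC.of (K := 348) (D := ⟨1, 1, 1, 20⟩) (Box.of 4 (by decide +kernel))
    (by decide +kernel)

theorem t3k39_l : NC (qc t3n39.lb - (1 - vX) * pe (exl t3c39.th) vX ^ 2) :=
  NC.of (K := 132) (D := ⟨10, 1, 1, 1⟩) (Box.of 288 (by decide +kernel))
    (by decide +kernel)

theorem t3k39_n : NC (qc t3n39.nb - vX * (1 - vX) * pe (exl t3c39.th) vX) :=
  NC.of (K := 110) (D := ⟨7, 1, 1, 1⟩) (Box.of 76677152 (by decide +kernel))
    (by decide +kernel)

theorem t3k39_rb : NC (krb t3n39 fW (t1v t3c39)) :=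
  NC.of (K := 188) (D := ⟨1, 1, 1, 16⟩) (Box.of 4 (by decide +kernel))
    (by decide +kernel)

theorem t3k39_kap : NC (kkap dW qW t3n39 (tcl t3c39)) :=
  NC.of (K := 102) (D := ⟨1, 1, 1, 9⟩) (Box.of 4 (by decide +kernel))
    (by decide +kernel)

theorem t3k39_wb2 : NC (qc t3n39.b2 - pe2 kW.QB (vZ * t1v t3c39) (t1v t3c39)) :=
  NC.of (K := 167) (D := ⟨1, 6, 1, 11⟩) (Box.of 1186017 (by decide +kernel))
    (by decide +kernel)

theorem t3k39_wmb : NC (qc t3n39.Mb - pe zW.mb (t1v t3c39)) :=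
  NC.of (K := 116) (D := ⟨1, 1, 1, 9⟩) (Box.of 291 (by decide +kernel))
    (by decide +kernel)

theorem t3k39_wth : NC (qc (t3c39.th / t3c39.t1) - pe2 zW.Qt (vZ * t1v t3c39) (t1v t3c39)) :=
  NC.of (K := 146) (D := ⟨1, 6, 1, 11⟩) (Box.of 291 (by decide +kernel))
    (by decide +kernel)

theorem t3k39_wyb : NC (qc t3n39.Yb - (t1v t3c39 - vZ * t1v t3c39) ^ 3 * pe2 yW.QY (vZ * t1v t3c39) (t1v t3c39)) :=
  NC.of (K := 132) (D := ⟨1, 8, 1, 12⟩) (Box.of 4 (by decide +kernel))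
    (by decide +kernel)

theorem t3k39_wmu : NC (qc t3m39 - pe t3al (tcl t3c39) * (1 + hlf * tcl t3c39)) :=
  NC.of (K := 99) (D := ⟨1, 1, 1, 9⟩) (Box.of 4 (by decide +kernel))
    (by decide +kernel)

theorem t3k39_wcj : NC (qc t3c39.C * ((6 - 3 * vX) * (1 - qc t3m39 * vX)) - (6 - 6 * vX + vX ^ 2)) :=
  NC.of (K := 31) (D := ⟨3, 1, 1, 1⟩) (Box.of 4 (by decide +kernel))
    (by decide +kernel)

theorem t3k39_nd1 : NC (pe t3r39.d1 (t1v t3c39)) :=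
  NC.of (K := 73) (D := ⟨1, 1, 1, 7⟩) (Box.of 4 (by decide +kernel))
    (by decide +kernel)

theorem t3k39_nd2 : NC (pe t3r39.d2 (t1v t3c39)) :=
  NC.of (K := 73) (D := ⟨1, 1, 1, 7⟩) (Box.of 4 (by decide +kernel))
    (by decide +kernel)

theorem t3k39_ndy : NC (pe t3r39.dy (t1v t3c39)) :=
  NC.of (K := 75) (D := ⟨1, 1, 1, 7⟩) (Box.of 4 (by decide +kernel))
    (by decide +kernel)

theorem t3k39_nt1 : NC (pe t3r39.t1 (t1v t3c39)) :=
  NC.of (K := 75) (D := ⟨1, 1, 1, 7⟩) (Box.of 4 (by decide +kernel))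
    (by decide +kernel)

theorem t3k39_nt2 : NC (pe t3r39.t2 (t1v t3c39)) :=
  NC.of (K := 73) (D := ⟨1, 1, 1, 7⟩) (Box.of 4 (by decide +kernel))
    (by decide +kernel)

theorem t3k39_nty : NC (pe t3r39.ty (t1v t3c39)) :=
  NC.of (K := 79) (D := ⟨1, 1, 1, 7⟩) (Box.of 4 (by decide +kernel))
    (by decide +kernel)

theorem t3k39_nhz : NC (pe t3r39.hz (t1v t3c39)) :=
  NC.of (K := 92) (D := ⟨1, 1, 1, 7⟩) (Box.of 291 (by decide +kernel))
    (by decide +kernel)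

theorem t3k39_xi : NC (eXi fW t3c39 t3e39 t3r39 (t1v t3c39)) :=
  NC.of (K := 311) (D := ⟨1, 1, 1, 22⟩) (Box.of 4 (by decide +kernel))
    (by decide +kernel)

theorem t3k39_om : NC (eOm fW t3r39 (t1v t3c39)) :=
  NC.of (K := 207) (D := ⟨1, 1, 1, 16⟩) (Box.of 291 (by decide +kernel))
    (by decide +kernel)

theorem t3k39_fin : NC (eFin dW t3c39 t3n39 t3r39 t3h39 (tcl t3c39)) :=
  NC.of (K := 229) (D := ⟨1, 1, 1, 14⟩) (Box.of 4 (by decide +kernel))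
    (by decide +kernel)

theorem t3k39_xdl : NC (qc t3e39.dl - pe t3d39.l.dl t3d39.eU) :=
  NC.of (K := 73) (D := ⟨1, 4, 1, 1⟩) (Box.of 4 (by decide +kernel))
    (by decide +kernel)

theorem t3k39_xeY : NC (qc t3e39.eY - pe (e4l t3d39.l.z) t3d39.eU) :=
  NC.of (K := 288) (D := ⟨1, 13, 1, 1⟩) (Box.of 4 (by decide +kernel))
    (by decide +kernel)

theorem t3k39_xgr : NC (qc t3d39.ga * ((1 + qc (3 / 5) * vX) * (1 + (t3d39.eg + hlf * t3d39.eg ^ 2))) + qc t3d39.gb - pe2 t3GR vX t3d39.eU) :=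
  NC.of (K := 256) (D := ⟨4, 11, 1, 1⟩) (Box.of 18688 (by decide +kernel))
    (by decide +kernel)

theorem t3k39_xhr : NC (qc t3d39.hb - pe2 t3HR vX t3d39.eU) :=
  NC.of (K := 265) (D := ⟨3, 12, 1, 1⟩) (Box.of 4 (by decide +kernel))
    (by decide +kernel)

theorem t3k39_xgs : NC (pe t3d39.gs t3d39.e1 - qc (8 / 5) * pe (e4l (ladd t3d39.ls.z t3d39.ls.dl)) t3d39.e1) :=
  NC.of (K := 268) (D := ⟨1, 1, 1, 13⟩) (Box.of 4 (by decide +kernel))
    (by decide +kernel)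

theorem t3k39_xd1 : NC (pe t3d39.d1 t3d39.e1 - t3d39.eA t3d39.eU t3d39.e1) :=
  NC.of (K := 284) (D := ⟨1, 12, 1, 12⟩) (Box.of 4 (by decide +kernel))
    (by decide +kernel)

theorem t3k39_xd2 : NC (pe t3d39.d2 t3d39.e1 - t3d39.eB t3d39.eU t3d39.e1) :=
  NC.of (K := 289) (D := ⟨1, 12, 1, 12⟩) (Box.of 4 (by decide +kernel))
    (by decide +kernel)

theorem t3k39_xt1 : NC (pe t3d39.t1 t3d39.e1 - t3d39.eAT t3d39.eU t3d39.e1) :=
  NC.of (K := 474) (D := ⟨1, 19, 1, 19⟩) (Box.of 4 (by decide +kernel))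
    (by decide +kernel)

theorem t3k39_xt2 : NC (pe t3d39.t2 t3d39.e1 - t3d39.eBT t3d39.eU t3d39.e1) :=
  NC.of (K := 475) (D := ⟨1, 19, 1, 19⟩) (Box.of 4 (by decide +kernel))
    (by decide +kernel)

theorem t3k39_xdy : NC (pe t3d39.dy t3d39.e1 - t3d39.eSD t3d39.eU t3d39.e1) :=
  NC.of (K := 452) (D := ⟨1, 18, 1, 12⟩) (Box.of 4 (by decide +kernel))
    (by decide +kernel)

theorem t3k39_xty : NC (pe t3d39.ty t3d39.e1 - t3d39.eST t3d39.eU t3d39.e1) :=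
  NC.of (K := 675) (D := ⟨1, 26, 1, 26⟩) (Box.of 4 (by decide +kernel))
    (by decide +kernel)

theorem t3k39_xd1s : NC (pe t3r39.d1 (t1v t3c39) - pe t3d39.d1 (Xcd.ew zW t3c39)) :=
  NC.of (K := 657) (D := ⟨1, 1, 1, 55⟩) (Box.of 4 (by decide +kernel))
    (by decide +kernel)

theorem t3k39_xd2s : NC (pe t3r39.d2 (t1v t3c39) - pe t3d39.d2 (Xcd.ew zW t3c39)) :=
  NC.of (K := 654) (D := ⟨1, 1, 1, 55⟩) (Box.of 4 (by decide +kernel))
    (by decide +kernel)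

theorem t3k39_xt1s : NC (pe t3r39.t1 (t1v t3c39) - pe t3d39.t1 (Xcd.ew zW t3c39)) :=
  NC.of (K := 659) (D := ⟨1, 1, 1, 55⟩) (Box.of 4 (by decide +kernel))
    (by decide +kernel)

theorem t3k39_xt2s : NC (pe t3r39.t2 (t1v t3c39) - pe t3d39.t2 (Xcd.ew zW t3c39)) :=
  NC.of (K := 658) (D := ⟨1, 1, 1, 55⟩) (Box.of 4 (by decide +kernel))
    (by decide +kernel)

theorem t3k39_xdys : NC (pe t3r39.dy (t1v t3c39) - pe t3d39.dy (Xcd.ew zW t3c39)) :=
  NC.of (K := 660) (D := ⟨1, 1, 1, 55⟩) (Box.of 4 (by decide +kernel))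
    (by decide +kernel)

theorem t3k39_xtys : NC (pe t3r39.ty (t1v t3c39) - pe t3d39.ty (Xcd.ew zW t3c39)) :=
  NC.of (K := 662) (D := ⟨1, 1, 1, 55⟩) (Box.of 4 (by decide +kernel))
    (by decide +kernel)

theorem t3k39_xhz : NC (pe t3r39.hz (t1v t3c39) - pe t3d39.c.dR (Xcd.ew zW t3c39)) :=
  NC.of (K := 560) (D := ⟨1, 1, 1, 46⟩) (Box.of 4 (by decide +kernel))
    (by decide +kernel)

theorem t3f39_ok : t3f39.ok V2L.y19 V2L.k19 V2L.nb V2L.la (10 ^ 30) 32 = true := by decide +kernel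

theorem t3k39_sg : t3c39.Sg := by
  constructor <;> decide +kernel

theorem t3k39_rgs : t3c39.Rgs where
  M := ⟨t3k39_M_r1, t3k39_M_r2, t3k39_M_r3, t3k39_M_r4⟩
  r0 := ⟨t3k39_r0_r1, t3k39_r0_r2, t3k39_r0_r3, t3k39_r0_r4⟩
  r1 := ⟨t3k39_r1_r1, t3k39_r1_r2, t3k39_r1_r3, t3k39_r1_r4⟩
  r2 := ⟨t3k39_r2_r1, t3k39_r2_r2, t3k39_r2_r3, t3k39_r2_r4⟩
  rc := ⟨t3k39_rc_r1, t3k39_rc_r2, t3k39_rc_r3, t3k39_rc_r4⟩
  rI := ⟨t3k39_rI_r1, t3k39_rI_r2, t3k39_rI_r3, t3k39_rI_r4⟩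
  rJ := ⟨t3k39_rJ_r1, t3k39_rJ_r2, t3k39_rJ_r3, t3k39_rJ_r4⟩

theorem t3k39_xn : t3e39.Ok t3c39 where
  lm := by decide +kernel
  dl0 := by decide +kernel
  dl1 := by decide +kernel
  e2 := by decide +kernel
  eY := by decide +kernel
  gE := ⟨t3k39_gE_r1, t3k39_gE_r2, t3k39_gE_r3, t3k39_gE_r4⟩

theorem t3k39_vl : t3c39.Vl dW qW where
  bt := by decide +kernel
  B0 := t3k39_B0
  E0 := t3k39_E0
  D0 := t3k39_D0
  Bh := t3k39_Bh
  Eh := t3k39_Eh
  Dh := t3k39_Dh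
  B1 := t3k39_B1
  E1 := t3k39_E1
  D1 := t3k39_D1

theorem t3k39_rat : t3n39.Rat t3c39 := by
  constructor <;> decide +kernel

theorem t3k39_ck : t3n39.Ck t3c39 := ⟨t3k39_l, t3k39_n⟩

theorem t3k39_fck : t3n39.Fck dW qW fW t3c39 := ⟨t3k39_rb, t3k39_kap⟩

theorem t3k39_w : Wcl zW kW yW t3al t3c39 t3n39 t3m39 where
  b2 := t3k39_wb2
  mb := t3k39_wmb
  th := t3k39_wth
  yb := t3k39_wyb
  mu := t3k39_wmu
  cj := t3k39_wcj
  mt1 := by decide +kernel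
  mt2 := by decide +kernel

theorem t3k39_ok : CelOk dW qW fW t3c39 t3n39 where
  s := t3k39_sg
  r := t3k39_rgs
  v := t3k39_vl
  rt := t3k39_rat
  k := t3k39_ck
  fc := t3k39_fck
  q01 := by decide +kernel
  q12 := by decide +kernel
  h2 := by decide +kernel

theorem t3k39_xr : t3r39.Ok fW t3c39 t3e39 where
  sD := by decide +kernel
  sT := by decide +kernel
  nd1 := t3k39_nd1
  nd2 := t3k39_nd2
  ndy := t3k39_ndy
  nt1 := t3k39_nt1
  nt2 := t3k39_nt2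
  nty := t3k39_nty
  nhz := t3k39_nhz
  xi := t3k39_xi
  om := t3k39_om

theorem t3k39_X : t3d39.Ck t3GR t3HR zW t3c39 t3e39 t3r39 where
  u0 := by decide +kernel
  u01 := by decide +kernel
  ul := by decide +kernel
  us := by decide +kernel
  uc := by decide +kernel
  ga0 := by decide +kernel
  kp0 := by decide +kernel
  lm := by decide +kernel
  dl := t3k39_xdl
  eY := t3k39_xeY
  gr := t3k39_xgr
  hr := t3k39_xhr
  gs := t3k39_xgs
  d1 := t3k39_xd1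
  d2 := t3k39_xd2
  t1 := t3k39_xt1
  t2 := t3k39_xt2
  dy := t3k39_xdy
  ty := t3k39_xty
  d1s := t3k39_xd1s
  d2s := t3k39_xd2s
  t1s := t3k39_xt1s
  t2s := t3k39_xt2s
  dys := t3k39_xdys
  tys := t3k39_xtys
  hz := t3k39_xhz

end Pool.Agent.RX.RCN.K
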