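import Pool.Agent.RX.RCN.T3D
import Pool.Agent.RX.RCN.T3Wq
import Pool.Agent.RX.RCN.T3X1
import Pool.Agent.RX.RCN.VLd

/-! Certificates (generated). -/

set_option autoImplicit false

namespace Pool.Agent.RX.RCN.K

open Set Pool.Agent.RX.RCM9 Pool.Agent.RX.RCM9.Bern Pool.Agent.RX.RCM9.Pk Xce

def t3c4 : Cel where
  t0 := 1 / 5
  t1 := 9 / 40
  C := 4097 / 4096
  th := 463 / 2048
  B0 := 565 / 512
  Bh := 1057 / 1024
  B1 := 2011 / 2048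
  D0 := 817 / 4096
  Dh := 557 / 4096
  D1 := 263 / 2048
  E0 := 2243 / 4194304
  Eh := 799 / 2097152
  E1 := 1509 / 4194304
  Q0 := 1133 / 1024
  Q1 := 1133 / 1024
  Q2 := 1133 / 1024
  Ac := 1133 / 1024
  gI := 1133 / 1024
  J := 2533 / 4194304

def t3n4 : Chn where
  lb := 513 / 512
  nb := 9 / 32
  Mb := 1029 / 1024
  b2 := 65 / 64
  Yb := 3 / 2048
  E2 := 4109 / 4096
  e1 := 1155 / 1024
  Z1 := 573 / 512
  Z2 := 19 / 32
  KB := 521 / 512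
  cb := 65 / 64
  rb := 55 / 256
  om := 263 / 256
  fb := 129 / 128
  kap := 4109 / 4096
  ab := 1029 / 1024

def t3e4 : Xge where
  lm := 3 / 5
  dl := 919 / 4096
  e2 := 223 / 8192
  eY := 4103 / 4096
  gE := 1133 / 1024

def t3r4 : Xr where
  d1 := [11169 / 4000000, 787 / 1250000, 293371 / 50000000, 1482349 / 100000000, 2071717 /
    100000000, 1420917 / 50000000, 1032117 / 20000000]
  d2 := [103 / 10000000, 456543 / 100000000, -3376397 / 100000000, 12225279 / 12500000, -239736921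
    / 50000000, 802971427 / 100000000, 7659953 / 25000000]
  dy := [43241 / 4000000, 889021 / 100000000, -10015117 / 100000000, 323171593 / 100000000,
    -1364396103 / 50000000, 5300571889 / 50000000, -3785497437 / 25000000]
  t1 := [1646779 / 50000000, -26897859 / 100000000, 26347861 / 20000000, -1656472827 / 100000000,
    1936757773 / 12500000, -65928416537 / 100000000, 21065037279 / 20000000]
  t2 := [61137 / 20000000, -570151 / 20000000, 3589927 / 20000000, -41525641 / 100000000,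
    -47787627 / 12500000, 2096259851 / 50000000, -2412366467 / 25000000]
  ty := [10897029 / 100000000, -20547123 / 20000000, 498638427 / 100000000, -395956277 / 10000000,
    17037924301 / 50000000, -4509757401 / 3125000, 45748155603 / 20000000]
  hz := [3302163 / 100000000, 8438293 / 50000000, -381919511 / 20000000, 25312259633 / 100000000,
    -17847541923 / 12500000, 93384970111 / 25000000, -370196237697 / 100000000]
  om := [1003967 / 1000000, 51022689 / 50000000, -1370675247 / 100000000, 1271147421 / 25000000,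
    -7677350237 / 100000000, -2023124077 / 25000000, 16716451169 / 20000000, -209391467251 /
    100000000, 193345724053 / 100000000]
  sD := 411 / 256
  sT := 383 / 256
  xi := [61513 / 10000000, 5732641 / 50000000, -14246767 / 25000000, -418653717 / 25000000,
    25097248737 / 100000000, -136163807089 / 100000000, 302807294639 / 100000000, -6900278711 /
    10000000, -646246494821 / 100000000, 44076216729 / 6250000]

def t3f4 : Dl where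
  Ca := 2006151 / 10000000
  Cv := 56423 / 250000
  k1 := 1969831 / 2000000
  ks := 122187 / 125000
  dd := 0
  kp := 27 / 2500000
  e := [499999849999 / 500000000000, -1164694870417 / 1000000000000, 27048861079 / 25000000000,
    -872518167257 / 1000000000000, 171136030389 / 250000000000, -102613888479 / 200000000000,
    363514434579 / 1000000000000, -113697047851 / 500000000000, 46113770107 / 500000000000]
  j1 := [-3408567 / 1000000000, -1437037089 / 125000000, 50069730409 / 500000000, -207724734107 /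
    500000000, 500688154831 / 500000000, -1464435382727 / 1000000000, 1319451543041 /
    1000000000, -649042107427 / 1000000000]
  nu := [22759157 / 1000000000, -63714341 / 500000000, 37303299 / 100000000, 158368907 /
    200000000, -7939686781 / 1000000000, 4882412649 / 125000000, -69404470851 / 1000000000]
  k2 := [195499531 / 200000000, 3113947 / 25000000, -71282049 / 200000000, -829952959 /
    1000000000, 1973690239 / 250000000, -9618371889 / 250000000, 13685367691 / 200000000]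
  dR := [411931 / 12500000, 3365781 / 20000000, -1897873617 / 100000000, 12538694393 / 50000000,
    -35251007023 / 25000000, 367694962161 / 100000000, -363189954791 / 100000000]

def t3d4 : Xce where
  u0 := 40223 / 200000
  u1 := 56423 / 250000
  l := V2L.y1
  y := t3z1
  j := t3j1
  i := t3i1
  ls := t3y1
  k := V2L.k1
  c := t3f4
  ga := 2787 / 1000000
  gb := -83 / 250000
  hb := 4651 / 500000
  gs := [32000449 / 20000000, 239999999 / 100000000, 180000101 / 100000000, 39798689 / 50000000,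
    26619727 / 100000000, -2974893 / 25000000, -6392713 / 100000000]
  d1 := [279049 / 100000000, 62779 / 100000000, 116341 / 20000000, 752793 / 50000000, 1678299 /
    100000000, 4374121 / 100000000, 530427 / 20000000]
  d2 := [443 / 50000000, 113787 / 25000000, -1680109 / 50000000, 48518729 / 50000000, -237507467 /
    50000000, 398447033 / 50000000, 10215499 / 50000000]
  dy := [540109 / 50000000, 886359 / 100000000, -9964727 / 100000000, 160248611 / 50000000,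
    -1349200211 / 50000000, 2613049649 / 25000000, -3721237949 / 25000000]
  t1 := [658379 / 20000000, -26813297 / 100000000, 65469647 / 50000000, -1642503701 / 100000000,
    15320695033 / 100000000, -8124919601 / 12500000, 103527132937 / 100000000]
  t2 := [38191 / 12500000, -177607 / 6250000, 8916059 / 50000000, -41068171 / 100000000,
    -189006027 / 50000000, 4129482677 / 100000000, -9473835343 / 100000000]
  ty := [2722881 / 25000000, -51206247 / 50000000, 247784991 / 50000000, -3926781437 / 100000000,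
    1053382917 / 3125000, -71174274177 / 50000000, 224956059409 / 100000000]

def t3m4 : ℚ := 473 / 2048

def t3h4 : ℚ := 113 / 250

theorem t3k4_M_r1 : NC (fM t3c4 (1 - eh) eh ek (elo t3c4.B0 t3c4.Bh eh) (elo t3c4.D0 t3c4.Dh ek) (elo t3c4.E0 t3c4.Eh ek)) :=
  NC.of (K := 32) (D := ⟨4, 3, 1, 1⟩) (Box.of 4 (by decide +kernel))
    (by decide +kernel)

theorem t3k4_M_r2 : NC (fM t3c4 eh (1 - eh) ek (ehi t3c4.Bh t3c4.B1 (1 - eh)) (elo t3c4.D0 t3c4.Dh ek) (elo t3c4.E0 t3c4.Eh ek)) :=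
  NC.of (K := 32) (D := ⟨4, 3, 1, 1⟩) (Box.of 4 (by decide +kernel))
    (by decide +kernel)

theorem t3k4_M_r3 : NC (fM t3c4 (1 - eh) ek eh (elo t3c4.B0 t3c4.Bh ek) (elo t3c4.D0 t3c4.Dh eh) (elo t3c4.E0 t3c4.Eh eh)) :=
  NC.of (K := 30) (D := ⟨4, 2, 1, 1⟩) (Box.of 4 (by decide +kernel))
    (by decide +kernel)

theorem t3k4_M_r4 : NC (fM t3c4 eh ek (1 - eh) (elo t3c4.B0 t3c4.Bh ek) (ehi t3c4.Dh t3c4.D1 (1 - eh)) (ehi t3c4.Eh t3c4.E1 (1 - eh))) :=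
  NC.of (K := 32) (D := ⟨4, 2, 1, 1⟩) (Box.of 4 (by decide +kernel))
    (by decide +kernel)

theorem t3k4_r0_r1 : NC (f0 t3c4 (1 - eh) eh ek (elo t3c4.B0 t3c4.Bh eh) (elo t3c4.D0 t3c4.Dh ek) (elo t3c4.E0 t3c4.Eh ek)) :=
  NC.of (K := 134) (D := ⟨13, 9, 1, 1⟩) (Box.of 4 (by decide +kernel))
    (by decide +kernel)

theorem t3k4_r0_r2 : NC (f0 t3c4 eh (1 - eh) ek (ehi t3c4.Bh t3c4.B1 (1 - eh)) (elo t3c4.D0 t3c4.Dh ek) (elo t3c4.E0 t3c4.Eh ek)) :=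
  NC.of (K := 134) (D := ⟨13, 9, 1, 1⟩) (Box.of 4 (by decide +kernel))
    (by decide +kernel)

theorem t3k4_r0_r3 : NC (f0 t3c4 (1 - eh) ek eh (elo t3c4.B0 t3c4.Bh ek) (elo t3c4.D0 t3c4.Dh eh) (elo t3c4.E0 t3c4.Eh eh)) :=
  NC.of (K := 129) (D := ⟨13, 5, 1, 1⟩) (Box.of 4 (by decide +kernel))
    (by decide +kernel)

theorem t3k4_r0_r4 : NC (f0 t3c4 eh ek (1 - eh) (elo t3c4.B0 t3c4.Bh ek) (ehi t3c4.Dh t3c4.D1 (1 - eh)) (ehi t3c4.Eh t3c4.E1 (1 - eh))) :=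
  NC.of (K := 134) (D := ⟨13, 5, 1, 1⟩) (Box.of 4 (by decide +kernel))
    (by decide +kernel)

theorem t3k4_r1_r1 : NC (f1 t3c4 (1 - eh) eh ek (elo t3c4.B0 t3c4.Bh eh) (elo t3c4.D0 t3c4.Dh ek) (elo t3c4.E0 t3c4.Eh ek)) :=
  NC.of (K := 210) (D := ⟨16, 9, 1, 1⟩) (Box.of 4 (by decide +kernel))
    (by decide +kernel)

theorem t3k4_r1_r2 : NC (f1 t3c4 eh (1 - eh) ek (ehi t3c4.Bh t3c4.B1 (1 - eh)) (elo t3c4.D0 t3c4.Dh ek) (elo t3c4.E0 t3c4.Eh ek)) :=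
  NC.of (K := 212) (D := ⟨16, 9, 1, 1⟩) (Box.of 4 (by decide +kernel))
    (by decide +kernel)

theorem t3k4_r1_r3 : NC (f1 t3c4 (1 - eh) ek eh (elo t3c4.B0 t3c4.Bh ek) (elo t3c4.D0 t3c4.Dh eh) (elo t3c4.E0 t3c4.Eh eh)) :=
  NC.of (K := 213) (D := ⟨16, 12, 1, 1⟩) (Box.of 4 (by decide +kernel))
    (by decide +kernel)

theorem t3k4_r1_r4 : NC (f1 t3c4 eh ek (1 - eh) (elo t3c4.B0 t3c4.Bh ek) (ehi t3c4.Dh t3c4.D1 (1 - eh)) (ehi t3c4.Eh t3c4.E1 (1 - eh))) :=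
  NC.of (K := 214) (D := ⟨16, 12, 1, 1⟩) (Box.of 4 (by decide +kernel))
    (by decide +kernel)

theorem t3k4_r2_r1 : NC (f2 t3c4 (1 - eh) eh ek (elo t3c4.B0 t3c4.Bh eh) (elo t3c4.D0 t3c4.Dh ek) (elo t3c4.E0 t3c4.Eh ek)) :=
  NC.of (K := 212) (D := ⟨16, 11, 1, 1⟩) (Box.of 4 (by decide +kernel))
    (by decide +kernel)

theorem t3k4_r2_r2 : NC (f2 t3c4 eh (1 - eh) ek (ehi t3c4.Bh t3c4.B1 (1 - eh)) (elo t3c4.D0 t3c4.Dh ek) (elo t3c4.E0 t3c4.Eh ek)) :=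
  NC.of (K := 215) (D := ⟨16, 11, 1, 1⟩) (Box.of 4 (by decide +kernel))
    (by decide +kernel)

theorem t3k4_r2_r3 : NC (f2 t3c4 (1 - eh) ek eh (elo t3c4.B0 t3c4.Bh ek) (elo t3c4.D0 t3c4.Dh eh) (elo t3c4.E0 t3c4.Eh eh)) :=
  NC.of (K := 213) (D := ⟨16, 12, 1, 1⟩) (Box.of 4 (by decide +kernel))
    (by decide +kernel)

theorem t3k4_r2_r4 : NC (f2 t3c4 eh ek (1 - eh) (elo t3c4.B0 t3c4.Bh ek) (ehi t3c4.Dh t3c4.D1 (1 - eh)) (ehi t3c4.Eh t3c4.E1 (1 - eh))) :=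
  NC.of (K := 215) (D := ⟨16, 12, 1, 1⟩) (Box.of 4 (by decide +kernel))
    (by decide +kernel)

theorem t3k4_rc_r1 : NC (fc t3c4 (1 - eh) eh ek (elo t3c4.B0 t3c4.Bh eh) (elo t3c4.D0 t3c4.Dh ek) (elo t3c4.E0 t3c4.Eh ek)) :=
  NC.of (K := 133) (D := ⟨13, 9, 1, 1⟩) (Box.of 4 (by decide +kernel))
    (by decide +kernel)

theorem t3k4_rc_r2 : NC (fc t3c4 eh (1 - eh) ek (ehi t3c4.Bh t3c4.B1 (1 - eh)) (elo t3c4.D0 t3c4.Dh ek) (elo t3c4.E0 t3c4.Eh ek)) :=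
  NC.of (K := 133) (D := ⟨13, 9, 1, 1⟩) (Box.of 4 (by decide +kernel))
    (by decide +kernel)

theorem t3k4_rc_r3 : NC (fc t3c4 (1 - eh) ek eh (elo t3c4.B0 t3c4.Bh ek) (elo t3c4.D0 t3c4.Dh eh) (elo t3c4.E0 t3c4.Eh eh)) :=
  NC.of (K := 129) (D := ⟨13, 5, 1, 1⟩) (Box.of 4 (by decide +kernel))
    (by decide +kernel)

theorem t3k4_rc_r4 : NC (fc t3c4 eh ek (1 - eh) (elo t3c4.B0 t3c4.Bh ek) (ehi t3c4.Dh t3c4.D1 (1 - eh)) (ehi t3c4.Eh t3c4.E1 (1 - eh))) :=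
  NC.of (K := 133) (D := ⟨13, 5, 1, 1⟩) (Box.of 4 (by decide +kernel))
    (by decide +kernel)

theorem t3k4_rI_r1 : NC (fI t3c4 (1 - eh) eh ek (elo t3c4.B0 t3c4.Bh eh) (elo t3c4.D0 t3c4.Dh ek) (elo t3c4.E0 t3c4.Eh ek)) :=
  NC.of (K := 128) (D := ⟨13, 9, 1, 1⟩) (Box.of 4 (by decide +kernel))
    (by decide +kernel)

theorem t3k4_rI_r2 : NC (fI t3c4 eh (1 - eh) ek (ehi t3c4.Bh t3c4.B1 (1 - eh)) (elo t3c4.D0 t3c4.Dh ek) (elo t3c4.E0 t3c4.Eh ek)) :=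
  NC.of (K := 129) (D := ⟨13, 9, 1, 1⟩) (Box.of 4 (by decide +kernel))
    (by decide +kernel)

theorem t3k4_rI_r3 : NC (fI t3c4 (1 - eh) ek eh (elo t3c4.B0 t3c4.Bh ek) (elo t3c4.D0 t3c4.Dh eh) (elo t3c4.E0 t3c4.Eh eh)) :=
  NC.of (K := 124) (D := ⟨13, 5, 1, 1⟩) (Box.of 4 (by decide +kernel))
    (by decide +kernel)

theorem t3k4_rI_r4 : NC (fI t3c4 eh ek (1 - eh) (elo t3c4.B0 t3c4.Bh ek) (ehi t3c4.Dh t3c4.D1 (1 - eh)) (ehi t3c4.Eh t3c4.E1 (1 - eh))) :=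
  NC.of (K := 129) (D := ⟨13, 5, 1, 1⟩) (Box.of 4 (by decide +kernel))
    (by decide +kernel)

theorem t3k4_rJ_r1 : NC (fJ t3c4 (1 - eh) eh ek (elo t3c4.B0 t3c4.Bh eh) (elo t3c4.D0 t3c4.Dh ek) (elo t3c4.E0 t3c4.Eh ek)) :=
  NC.of (K := 71) (D := ⟨7, 5, 1, 1⟩) (Box.of 4 (by decide +kernel))
    (by decide +kernel)

theorem t3k4_rJ_r2 : NC (fJ t3c4 eh (1 - eh) ek (ehi t3c4.Bh t3c4.B1 (1 - eh)) (elo t3c4.D0 t3c4.Dh ek) (elo t3c4.E0 t3c4.Eh ek)) :=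
  NC.of (K := 71) (D := ⟨7, 5, 1, 1⟩) (Box.of 4 (by decide +kernel))
    (by decide +kernel)

theorem t3k4_rJ_r3 : NC (fJ t3c4 (1 - eh) ek eh (elo t3c4.B0 t3c4.Bh ek) (elo t3c4.D0 t3c4.Dh eh) (elo t3c4.E0 t3c4.Eh eh)) :=
  NC.of (K := 68) (D := ⟨7, 3, 1, 1⟩) (Box.of 4 (by decide +kernel))
    (by decide +kernel)

theorem t3k4_rJ_r4 : NC (fJ t3c4 eh ek (1 - eh) (elo t3c4.B0 t3c4.Bh ek) (ehi t3c4.Dh t3c4.D1 (1 - eh)) (ehi t3c4.Eh t3c4.E1 (1 - eh))) :=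
  NC.of (K := 70) (D := ⟨7, 3, 1, 1⟩) (Box.of 4 (by decide +kernel))
    (by decide +kernel)

theorem t3k4_gE_r1 : NC (fE t3c4 t3e4 (1 - eh) eh ek (elo t3c4.B0 t3c4.Bh eh) (elo t3c4.D0 t3c4.Dh ek) (elo t3c4.E0 t3c4.Eh ek)) :=
  NC.of (K := 129) (D := ⟨13, 9, 1, 1⟩) (Box.of 4 (by decide +kernel))
    (by decide +kernel)

theorem t3k4_gE_r2 : NC (fE t3c4 t3e4 eh (1 - eh) ek (ehi t3c4.Bh t3c4.B1 (1 - eh)) (elo t3c4.D0 t3c4.Dh ek) (elo t3c4.E0 t3c4.Eh ek)) :=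
  NC.of (K := 130) (D := ⟨13, 9, 1, 1⟩) (Box.of 4 (by decide +kernel))
    (by decide +kernel)

theorem t3k4_gE_r3 : NC (fE t3c4 t3e4 (1 - eh) ek eh (elo t3c4.B0 t3c4.Bh ek) (elo t3c4.D0 t3c4.Dh eh) (elo t3c4.E0 t3c4.Eh eh)) :=
  NC.of (K := 127) (D := ⟨13, 7, 1, 1⟩) (Box.of 4 (by decide +kernel))
    (by decide +kernel)

theorem t3k4_gE_r4 : NC (fE t3c4 t3e4 eh ek (1 - eh) (elo t3c4.B0 t3c4.Bh ek) (ehi t3c4.Dh t3c4.D1 (1 - eh)) (ehi t3c4.Eh t3c4.E1 (1 - eh))) :=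
  NC.of (K := 133) (D := ⟨13, 7, 1, 1⟩) (Box.of 4 (by decide +kernel))
    (by decide +kernel)

theorem t3k4_B0 : NC (kB dW 1 0 t3c4.B0 (tcl t3c4)) :=
  NC.of (K := 81) (D := ⟨1, 1, 1, 9⟩) (Box.of 4 (by decide +kernel))
    (by decide +kernel)

theorem t3k4_E0 : NC (kE dW qW qW.p0 qW.q0 t3c4.E0 (tcl t3c4)) :=
  NC.of (K := 180) (D := ⟨1, 1, 1, 19⟩) (Box.of 4 (by decide +kernel))
    (by decide +kernel)

theorem t3k4_D0 : NC (kD dW qW 1 0 qW.p0 qW.q0 t3c4.D0 (tcl t3c4)) :=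
  NC.of (K := 295) (D := ⟨1, 1, 1, 20⟩) (Box.of 4 (by decide +kernel))
    (by decide +kernel)

theorem t3k4_Bh : NC (kB dW (1 / 2) (1 / 2) t3c4.Bh (tcl t3c4)) :=
  NC.of (K := 84) (D := ⟨1, 1, 1, 9⟩) (Box.of 4 (by decide +kernel))
    (by decide +kernel)

theorem t3k4_Eh : NC (kE dW qW qW.ph qW.qh t3c4.Eh (tcl t3c4)) :=
  NC.of (K := 184) (D := ⟨1, 1, 1, 19⟩) (Box.of 4 (by decide +kernel))
    (by decide +kernel)

theorem t3k4_Dh : NC (kD dW qW (1 / 2) (1 / 2) qW.ph qW.qh t3c4.Dh (tcl t3c4)) :=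
  NC.of (K := 299) (D := ⟨1, 1, 1, 20⟩) (Box.of 4 (by decide +kernel))
    (by decide +kernel)

theorem t3k4_B1 : NC (kB dW 0 (1 / 2) t3c4.B1 (tcl t3c4)) :=
  NC.of (K := 84) (D := ⟨1, 1, 1, 9⟩) (Box.of 4 (by decide +kernel))
    (by decide +kernel)

theorem t3k4_E1 : NC (kE dW qW qW.p1 qW.q1 t3c4.E1 (tcl t3c4)) :=
  NC.of (K := 184) (D := ⟨1, 1, 1, 19⟩) (Box.of 4 (by decide +kernel))
    (by decide +kernel)

theorem t3k4_D1 : NC (kD dW qW 0 (1 / 2) qW.p1 qW.q1 t3c4.D1 (tcl t3c4)) :=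
  NC.of (K := 299) (D := ⟨1, 1, 1, 20⟩) (Box.of 4 (by decide +kernel))
    (by decide +kernel)

theorem t3k4_l : NC (qc t3n4.lb - (1 - vX) * pe (exl t3c4.th) vX ^ 2) :=
  NC.of (K := 117) (D := ⟨10, 1, 1, 1⟩) (Box.of 4 (by decide +kernel))
    (by decide +kernel)

theorem t3k4_n : NC (qc t3n4.nb - vX * (1 - vX) * pe (exl t3c4.th) vX) :=
  NC.of (K := 112) (D := ⟨7, 1, 1, 1⟩) (Box.of 76677152 (by decide +kernel))
    (by decide +kernel)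

theorem t3k4_rb : NC (krb t3n4 fW (t1v t3c4)) :=
  NC.of (K := 158) (D := ⟨1, 1, 1, 16⟩) (Box.of 4 (by decide +kernel))
    (by decide +kernel)

theorem t3k4_kap : NC (kkap dW qW t3n4 (tcl t3c4)) :=
  NC.of (K := 83) (D := ⟨1, 1, 1, 9⟩) (Box.of 4 (by decide +kernel))
    (by decide +kernel)

theorem t3k4_wb2 : NC (qc t3n4.b2 - pe2 kW.QB (vZ * t1v t3c4) (t1v t3c4)) :=
  NC.of (K := 126) (D := ⟨1, 6, 1, 11⟩) (Box.of 291 (by decide +kernel))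
    (by decide +kernel)

theorem t3k4_wmb : NC (qc t3n4.Mb - pe zW.mb (t1v t3c4)) :=
  NC.of (K := 84) (D := ⟨1, 1, 1, 9⟩) (Box.of 4 (by decide +kernel))
    (by decide +kernel)

theorem t3k4_wth : NC (qc (t3c4.th / t3c4.t1) - pe2 zW.Qt (vZ * t1v t3c4) (t1v t3c4)) :=
  NC.of (K := 128) (D := ⟨1, 6, 1, 11⟩) (Box.of 291 (by decide +kernel))
    (by decide +kernel)

theorem t3k4_wyb : NC (qc t3n4.Yb - (t1v t3c4 - vZ * t1v t3c4) ^ 3 * pe2 yW.QY (vZ * t1v t3c4) (t1v t3c4)) :=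
  NC.of (K := 108) (D := ⟨1, 8, 1, 12⟩) (Box.of 4 (by decide +kernel))
    (by decide +kernel)

theorem t3k4_wmu : NC (qc t3m4 - pe t3al (tcl t3c4) * (1 + hlf * tcl t3c4)) :=
  NC.of (K := 76) (D := ⟨1, 1, 1, 9⟩) (Box.of 4 (by decide +kernel))
    (by decide +kernel)

theorem t3k4_wcj : NC (qc t3c4.C * ((6 - 3 * vX) * (1 - qc t3m4 * vX)) - (6 - 6 * vX + vX ^ 2)) :=
  NC.of (K := 33) (D := ⟨3, 1, 1, 1⟩) (Box.of 4 (by decide +kernel))
    (by decide +kernel)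

theorem t3k4_nd1 : NC (pe t3r4.d1 (t1v t3c4)) :=
  NC.of (K := 58) (D := ⟨1, 1, 1, 7⟩) (Box.of 4 (by decide +kernel))
    (by decide +kernel)

theorem t3k4_nd2 : NC (pe t3r4.d2 (t1v t3c4)) :=
  NC.of (K := 62) (D := ⟨1, 1, 1, 7⟩) (Box.of 4 (by decide +kernel))
    (by decide +kernel)

theorem t3k4_ndy : NC (pe t3r4.dy (t1v t3c4)) :=
  NC.of (K := 65) (D := ⟨1, 1, 1, 7⟩) (Box.of 4 (by decide +kernel))
    (by decide +kernel)

theorem t3k4_nt1 : NC (pe t3r4.t1 (t1v t3c4)) :=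
  NC.of (K := 67) (D := ⟨1, 1, 1, 7⟩) (Box.of 4 (by decide +kernel))
    (by decide +kernel)

theorem t3k4_nt2 : NC (pe t3r4.t2 (t1v t3c4)) :=
  NC.of (K := 63) (D := ⟨1, 1, 1, 7⟩) (Box.of 4 (by decide +kernel))
    (by decide +kernel)

theorem t3k4_nty : NC (pe t3r4.ty (t1v t3c4)) :=
  NC.of (K := 68) (D := ⟨1, 1, 1, 7⟩) (Box.of 4 (by decide +kernel))
    (by decide +kernel)

theorem t3k4_nhz : NC (pe t3r4.hz (t1v t3c4)) :=
  NC.of (K := 84) (D := ⟨1, 1, 1, 7⟩) (Box.of 291 (by decide +kernel))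
    (by decide +kernel)

theorem t3k4_xi : NC (eXi fW t3c4 t3e4 t3r4 (t1v t3c4)) :=
  NC.of (K := 275) (D := ⟨1, 1, 1, 22⟩) (Box.of 4 (by decide +kernel))
    (by decide +kernel)

theorem t3k4_om : NC (eOm fW t3r4 (t1v t3c4)) :=
  NC.of (K := 152) (D := ⟨1, 1, 1, 16⟩) (Box.of 4 (by decide +kernel))
    (by decide +kernel)

theorem t3k4_fin : NC (eFin dW t3c4 t3n4 t3r4 t3h4 (tcl t3c4)) :=
  NC.of (K := 192) (D := ⟨1, 1, 1, 14⟩) (Box.of 4 (by decide +kernel))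
    (by decide +kernel)

theorem t3k4_xdl : NC (qc t3e4.dl - pe t3d4.l.dl t3d4.eU) :=
  NC.of (K := 72) (D := ⟨1, 4, 1, 1⟩) (Box.of 4 (by decide +kernel))
    (by decide +kernel)

theorem t3k4_xeY : NC (qc t3e4.eY - pe (e4l t3d4.l.z) t3d4.eU) :=
  NC.of (K := 288) (D := ⟨1, 13, 1, 1⟩) (Box.of 4 (by decide +kernel))
    (by decide +kernel)

theorem t3k4_xgr : NC (qc t3d4.ga * ((1 + qc (3 / 5) * vX) * (1 + (t3d4.eg + hlf * t3d4.eg ^ 2))) + qc t3d4.gb - pe2 t3GR vX t3d4.eU) :=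
  NC.of (K := 238) (D := ⟨4, 11, 1, 1⟩) (Box.of 4 (by decide +kernel))
    (by decide +kernel)

theorem t3k4_xhr : NC (qc t3d4.hb - pe2 t3HR vX t3d4.eU) :=
  NC.of (K := 258) (D := ⟨3, 12, 1, 1⟩) (Box.of 4 (by decide +kernel))
    (by decide +kernel)

theorem t3k4_xgs : NC (pe t3d4.gs t3d4.e1 - qc (8 / 5) * pe (e4l (ladd t3d4.ls.z t3d4.ls.dl)) t3d4.e1) :=
  NC.of (K := 272) (D := ⟨1, 1, 1, 13⟩) (Box.of 4 (by decide +kernel))
    (by decide +kernel)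

theorem t3k4_xd1 : NC (pe t3d4.d1 t3d4.e1 - t3d4.eA t3d4.eU t3d4.e1) :=
  NC.of (K := 281) (D := ⟨1, 12, 1, 12⟩) (Box.of 4 (by decide +kernel))
    (by decide +kernel)

theorem t3k4_xd2 : NC (pe t3d4.d2 t3d4.e1 - t3d4.eB t3d4.eU t3d4.e1) :=
  NC.of (K := 327) (D := ⟨1, 12, 1, 12⟩) (Box.of 1194267 (by decide +kernel))
    (by decide +kernel)

theorem t3k4_xt1 : NC (pe t3d4.t1 t3d4.e1 - t3d4.eAT t3d4.eU t3d4.e1) :=
  NC.of (K := 530) (D := ⟨1, 19, 1, 19⟩) (Box.of 18659 (by decide +kernel))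
    (by decide +kernel)

theorem t3k4_xt2 : NC (pe t3d4.t2 t3d4.e1 - t3d4.eBT t3d4.eU t3d4.e1) :=
  NC.of (K := 530) (D := ⟨1, 19, 1, 19⟩) (Box.of 1194267 (by decide +kernel))
    (by decide +kernel)

theorem t3k4_xdy : NC (pe t3d4.dy t3d4.e1 - t3d4.eSD t3d4.eU t3d4.e1) :=
  NC.of (K := 459) (D := ⟨1, 18, 1, 12⟩) (Box.of 291 (by decide +kernel))
    (by decide +kernel)

theorem t3k4_xty : NC (pe t3d4.ty t3d4.e1 - t3d4.eST t3d4.eU t3d4.e1) :=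
  NC.of (K := 697) (D := ⟨1, 26, 1, 26⟩) (Box.of 291 (by decide +kernel))
    (by decide +kernel)

theorem t3k4_xd1s : NC (pe t3r4.d1 (t1v t3c4) - pe t3d4.d1 (Xcd.ew zW t3c4)) :=
  NC.of (K := 552) (D := ⟨1, 1, 1, 55⟩) (Box.of 4 (by decide +kernel))
    (by decide +kernel)

theorem t3k4_xd2s : NC (pe t3r4.d2 (t1v t3c4) - pe t3d4.d2 (Xcd.ew zW t3c4)) :=
  NC.of (K := 557) (D := ⟨1, 1, 1, 55⟩) (Box.of 4 (by decide +kernel))
    (by decide +kernel)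

theorem t3k4_xt1s : NC (pe t3r4.t1 (t1v t3c4) - pe t3d4.t1 (Xcd.ew zW t3c4)) :=
  NC.of (K := 564) (D := ⟨1, 1, 1, 55⟩) (Box.of 4 (by decide +kernel))
    (by decide +kernel)

theorem t3k4_xt2s : NC (pe t3r4.t2 (t1v t3c4) - pe t3d4.t2 (Xcd.ew zW t3c4)) :=
  NC.of (K := 560) (D := ⟨1, 1, 1, 55⟩) (Box.of 4 (by decide +kernel))
    (by decide +kernel)

theorem t3k4_xdys : NC (pe t3r4.dy (t1v t3c4) - pe t3d4.dy (Xcd.ew zW t3c4)) :=
  NC.of (K := 559) (D := ⟨1, 1, 1, 55⟩) (Box.of 4 (by decide +kernel))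
    (by decide +kernel)

theorem t3k4_xtys : NC (pe t3r4.ty (t1v t3c4) - pe t3d4.ty (Xcd.ew zW t3c4)) :=
  NC.of (K := 565) (D := ⟨1, 1, 1, 55⟩) (Box.of 4 (by decide +kernel))
    (by decide +kernel)

theorem t3k4_xhz : NC (pe t3r4.hz (t1v t3c4) - pe t3d4.c.dR (Xcd.ew zW t3c4)) :=
  NC.of (K := 567) (D := ⟨1, 1, 1, 55⟩) (Box.of 4 (by decide +kernel))
    (by decide +kernel)

theorem t3f4_ok : t3f4.ok V2L.y1 V2L.k1 V2L.nb V2L.la (10 ^ 30) 32 = true := by decide +kernel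

theorem t3k4_sg : t3c4.Sg := by
  constructor <;> decide +kernel

theorem t3k4_rgs : t3c4.Rgs where
  M := ⟨t3k4_M_r1, t3k4_M_r2, t3k4_M_r3, t3k4_M_r4⟩
  r0 := ⟨t3k4_r0_r1, t3k4_r0_r2, t3k4_r0_r3, t3k4_r0_r4⟩
  r1 := ⟨t3k4_r1_r1, t3k4_r1_r2, t3k4_r1_r3, t3k4_r1_r4⟩
  r2 := ⟨t3k4_r2_r1, t3k4_r2_r2, t3k4_r2_r3, t3k4_r2_r4⟩
  rc := ⟨t3k4_rc_r1, t3k4_rc_r2, t3k4_rc_r3, t3k4_rc_r4⟩
  rI := ⟨t3k4_rI_r1, t3k4_rI_r2, t3k4_rI_r3, t3k4_rI_r4⟩
  rJ := ⟨t3k4_rJ_r1, t3k4_rJ_r2, t3k4_rJ_r3, t3k4_rJ_r4⟩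

theorem t3k4_xn : t3e4.Ok t3c4 where
  lm := by decide +kernel
  dl0 := by decide +kernel
  dl1 := by decide +kernel
  e2 := by decide +kernel
  eY := by decide +kernel
  gE := ⟨t3k4_gE_r1, t3k4_gE_r2, t3k4_gE_r3, t3k4_gE_r4⟩

theorem t3k4_vl : t3c4.Vl dW qW where
  bt := by decide +kernel
  B0 := t3k4_B0
  E0 := t3k4_E0
  D0 := t3k4_D0
  Bh := t3k4_Bh
  Eh := t3k4_Eh
  Dh := t3k4_Dh
  B1 := t3k4_B1
  E1 := t3k4_E1
  D1 := t3k4_D1

theorem t3k4_rat : t3n4.Rat t3c4 := by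
  constructor <;> decide +kernel

theorem t3k4_ck : t3n4.Ck t3c4 := ⟨t3k4_l, t3k4_n⟩

theorem t3k4_fck : t3n4.Fck dW qW fW t3c4 := ⟨t3k4_rb, t3k4_kap⟩

theorem t3k4_w : Wcl zW kW yW t3al t3c4 t3n4 t3m4 where
  b2 := t3k4_wb2
  mb := t3k4_wmb
  th := t3k4_wth
  yb := t3k4_wyb
  mu := t3k4_wmu
  cj := t3k4_wcj
  mt1 := by decide +kernel
  mt2 := by decide +kernel

theorem t3k4_ok : CelOk dW qW fW t3c4 t3n4 where
  s := t3k4_sg
  r := t3k4_rgs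
  v := t3k4_vl
  rt := t3k4_rat
  k := t3k4_ck
  fc := t3k4_fck
  q01 := by decide +kernel
  q12 := by decide +kernel
  h2 := by decide +kernel

theorem t3k4_xr : t3r4.Ok fW t3c4 t3e4 where
  sD := by decide +kernel
  sT := by decide +kernel
  nd1 := t3k4_nd1
  nd2 := t3k4_nd2
  ndy := t3k4_ndy
  nt1 := t3k4_nt1
  nt2 := t3k4_nt2
  nty := t3k4_nty
  nhz := t3k4_nhz
  xi := t3k4_xi
  om := t3k4_om

theorem t3k4_X : t3d4.Ck t3GR t3HR zW t3c4 t3e4 t3r4 where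
  u0 := by decide +kernel
  u01 := by decide +kernel
  ul := by decide +kernel
  us := by decide +kernel
  uc := by decide +kernel
  ga0 := by decide +kernel
  kp0 := by decide +kernel
  lm := by decide +kernel
  dl := t3k4_xdl
  eY := t3k4_xeY
  gr := t3k4_xgr
  hr := t3k4_xhr
  gs := t3k4_xgs
  d1 := t3k4_xd1
  d2 := t3k4_xd2
  t1 := t3k4_xt1
  t2 := t3k4_xt2
  dy := t3k4_xdy
  ty := t3k4_xty
  d1s := t3k4_xd1s
  d2s := t3k4_xd2s
  t1s := t3k4_xt1s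
  t2s := t3k4_xt2s
  dys := t3k4_xdys
  tys := t3k4_xtys
  hz := t3k4_xhz

end Pool.Agent.RX.RCN.K
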