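import Pool.Agent.RX.RCN.T3D
import Pool.Agent.RX.RCN.T3Wq
import Pool.Agent.RX.RCN.T3X21
import Pool.Agent.RX.RCN.VLd

/-! Certificates (generated). -/

set_option autoImplicit false

namespace Pool.Agent.RX.RCN.K

open Set Pool.Agent.RX.RCM9 Pool.Agent.RX.RCM9.Bern Pool.Agent.RX.RCM9.Pk Xce

def t3c41 : Cel where
  t0 := 103 / 200
  t1 := 13 / 25
  C := 4097 / 4096
  th := 1091 / 2048
  B0 := 2097 / 2048
  Bh := 2433 / 2048
  B1 := 2409 / 2048
  D0 := 1565 / 4096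
  Dh := 1335 / 4096
  D1 := 641 / 2048
  E0 := 473 / 32768
  Eh := 417 / 32768
  E1 := 801 / 65536
  Q0 := 1051 / 1024
  Q1 := 265 / 256
  Q2 := 1179 / 1024
  Ac := 1059 / 1024
  gI := 1059 / 1024
  J := 55 / 2048

def t3n41 : Chn where
  lb := 257 / 256
  nb := 341 / 1024
  Mb := 525 / 512
  b2 := 1057 / 1024
  Yb := 73 / 4096
  E2 := 4245 / 4096
  e1 := 1387 / 1024
  Z1 := 553 / 512
  Z2 := 643 / 1024
  KB := 1081 / 1024
  cb := 1101 / 1024
  rb := 437 / 1024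
  om := 263 / 256
  fb := 129 / 128
  kap := 4241 / 4096
  ab := 1029 / 1024

def t3e41 : Xge where
  lm := 3 / 5
  dl := 2067 / 4096
  e2 := 2493 / 16384
  eY := 2087 / 2048
  gE := 1207 / 1024

def t3r41 : Xr where
  d1 := [2068177 / 50000000, 1006469 / 100000000, 3971163 / 100000000, 2431911 / 50000000, 687163
    / 25000000, -195299 / 2500000, 6397543 / 50000000]
  d2 := [1096051 / 100000000, 5456541 / 100000000, 1354101 / 25000000, 440633 / 1000000, -66325619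
    / 100000000, 14166709 / 25000000, -5674861 / 50000000]
  dy := [32826971 / 50000000, 6257987 / 25000000, 7744523 / 20000000, 126638029 / 50000000,
    -212296327 / 50000000, 43229093 / 12500000, -77590301 / 100000000]
  t1 := [5025613 / 25000000, -23950481 / 50000000, 1002841 / 12500000, 46829277 / 50000000,
    -59411791 / 100000000, -1448271 / 2500000, 132360593 / 100000000]
  t2 := [1645641 / 20000000, -3714293 / 25000000, -1653207 / 100000000, 48657147 / 50000000,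
    -50103823 / 50000000, 6122269 / 10000000, -3297833 / 100000000]
  ty := [113044269 / 50000000, -12906973 / 2500000, -67738969 / 25000000, 213211457 / 6250000,
    -4499804819 / 100000000, 1544151927 / 100000000, 302298359 / 50000000]
  hz := [898283 / 4000000, -9685083 / 20000000, -352251 / 10000000, -337730037 / 50000000,
    2493553481 / 100000000, -2135292819 / 100000000, -53687157 / 50000000]
  om := [3137397 / 3125000, 12878123 / 12500000, -711411491 / 50000000, 1230778931 / 20000000,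
    -18656351353 / 100000000, 2194279601 / 4000000, -123747956693 / 100000000, 80996439681 /
    50000000, -90353366917 / 100000000]
  sD := 87 / 32
  sT := 39 / 16
  xi := [21721411 / 100000000, 13030439 / 10000000, -105254141 / 20000000, 53657537 / 12500000,
    1328031601 / 50000000, -14850650801 / 100000000, 56984266523 / 100000000, -33804590823 /
    25000000, 173686776307 / 100000000, -93898378279 / 100000000]

def t3f41 : Dl where
  Ca := 5178653 / 10000000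
  Cv := 522987 / 1000000
  k1 := 8879993 / 10000000
  ks := 434129 / 500000
  dd := 0
  kp := 1 / 10000000
  e := [249999923581 / 250000000000, -90804986261 / 62500000000, 205433307221 / 125000000000,
    -1655716975669 / 1000000000000, 78418364139 / 50000000000, -1365834700379 / 1000000000000,
    1023284027491 / 1000000000000, -280561957281 / 500000000000, 79221996637 / 500000000000]
  j1 := [-73817 / 200000000, -6741300581 / 1000000000, 67061152569 / 1000000000, -319799646971 /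
    1000000000, 918273546117 / 1000000000, -811187523983 / 500000000, 1627980413987 /
    1000000000, -351650247981 / 500000000]
  nu := [70622697 / 500000000, -65115033 / 250000000, 365456887 / 1000000000, 162651 / 1953125,
    -230711489 / 1000000000, 741877159 / 1000000000, -462805551 / 1000000000]
  k2 := [868259853 / 1000000000, 226246533 / 1000000000, -28762343 / 100000000, -40048811 /
    250000000, 2823539 / 10000000, -18431091 / 25000000, 126435267 / 250000000]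
  dR := [22412247 / 100000000, -2419881 / 5000000, -2739 / 400000, -693187269 / 100000000,
    638641177 / 25000000, -282914297 / 12500000]

def t3d41 : Xce where
  u0 := 64797 / 125000
  u1 := 522987 / 1000000
  l := V2L.y21
  y := t3z21
  j := t3j21
  i := t3i21
  ls := t3y21
  k := V2L.k21
  c := t3f41
  ga := 8253 / 200000
  gb := -16971 / 1000000
  hb := 267129 / 1000000
  gs := [160003481 / 100000000, 239999653 / 100000000, 180010351 / 100000000, 15896951 / 20000000,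
    5438197 / 20000000, -1659587 / 12500000, -5097059 / 100000000]
  d1 := [2066533 / 50000000, 981731 / 100000000, 4335799 / 100000000, 2451831 / 100000000, 79687 /
    1000000, -464093 / 5000000, 7553963 / 100000000]
  d2 := [545857 / 50000000, 5372711 / 100000000, 6672427 / 100000000, 3496727 / 10000000, -2076777
    / 5000000, 507863 / 1562500, -341987 / 3125000]
  dy := [65601303 / 100000000, 24596199 / 100000000, 45497017 / 100000000, 1266273 / 625000,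
    -280629759 / 100000000, 19092019 / 10000000, -26887787 / 50000000]
  t1 := [20091497 / 100000000, -47678113 / 100000000, 3054607 / 50000000, 109678031 / 100000000,
    -128398897 / 100000000, 38291939 / 50000000, 6702099 / 20000000]
  t2 := [8223867 / 100000000, -3713683 / 25000000, -496517 / 50000000, 23424623 / 25000000,
    -19931449 / 20000000, 83242619 / 100000000, -17565117 / 50000000]
  ty := [225974457 / 100000000, -514611983 / 100000000, -273856819 / 100000000, 53674327 /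
    1562500, -589487701 / 12500000, 1057008359 / 50000000, 4561059 / 4000000]

def t3m41 : ℚ := 1023 / 2048

def t3h41 : ℚ := 133 / 250

theorem t3k41_M_r1 : NC (fM t3c41 (1 - eh) eh ek (elo t3c41.B0 t3c41.Bh eh) (elo t3c41.D0 t3c41.Dh ek) (elo t3c41.E0 t3c41.Eh ek)) :=
  NC.of (K := 29) (D := ⟨4, 3, 1, 1⟩) (Box.of 4 (by decide +kernel))
    (by decide +kernel)

theorem t3k41_M_r2 : NC (fM t3c41 eh (1 - eh) ek (ehi t3c41.Bh t3c41.B1 (1 - eh)) (elo t3c41.D0 t3c41.Dh ek) (elo t3c41.E0 t3c41.Eh ek)) :=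
  NC.of (K := 29) (D := ⟨4, 3, 1, 1⟩) (Box.of 4 (by decide +kernel))
    (by decide +kernel)

theorem t3k41_M_r3 : NC (fM t3c41 (1 - eh) ek eh (elo t3c41.B0 t3c41.Bh ek) (elo t3c41.D0 t3c41.Dh eh) (elo t3c41.E0 t3c41.Eh eh)) :=
  NC.of (K := 28) (D := ⟨4, 2, 1, 1⟩) (Box.of 4 (by decide +kernel))
    (by decide +kernel)

theorem t3k41_M_r4 : NC (fM t3c41 eh ek (1 - eh) (elo t3c41.B0 t3c41.Bh ek) (ehi t3c41.Dh t3c41.D1 (1 - eh)) (ehi t3c41.Eh t3c41.E1 (1 - eh))) :=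
  NC.of (K := 29) (D := ⟨4, 2, 1, 1⟩) (Box.of 4 (by decide +kernel))
    (by decide +kernel)

theorem t3k41_r0_r1 : NC (f0 t3c41 (1 - eh) eh ek (elo t3c41.B0 t3c41.Bh eh) (elo t3c41.D0 t3c41.Dh ek) (elo t3c41.E0 t3c41.Eh ek)) :=
  NC.of (K := 143) (D := ⟨13, 9, 1, 1⟩) (Box.of 4 (by decide +kernel))
    (by decide +kernel)

theorem t3k41_r0_r2 : NC (f0 t3c41 eh (1 - eh) ek (ehi t3c41.Bh t3c41.B1 (1 - eh)) (elo t3c41.D0 t3c41.Dh ek) (elo t3c41.E0 t3c41.Eh ek)) :=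
  NC.of (K := 143) (D := ⟨13, 9, 1, 1⟩) (Box.of 4 (by decide +kernel))
    (by decide +kernel)

theorem t3k41_r0_r3 : NC (f0 t3c41 (1 - eh) ek eh (elo t3c41.B0 t3c41.Bh ek) (elo t3c41.D0 t3c41.Dh eh) (elo t3c41.E0 t3c41.Eh eh)) :=
  NC.of (K := 138) (D := ⟨13, 5, 1, 1⟩) (Box.of 4 (by decide +kernel))
    (by decide +kernel)

theorem t3k41_r0_r4 : NC (f0 t3c41 eh ek (1 - eh) (elo t3c41.B0 t3c41.Bh ek) (ehi t3c41.Dh t3c41.D1 (1 - eh)) (ehi t3c41.Eh t3c41.E1 (1 - eh))) :=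
  NC.of (K := 143) (D := ⟨13, 5, 1, 1⟩) (Box.of 4 (by decide +kernel))
    (by decide +kernel)

theorem t3k41_r1_r1 : NC (f1 t3c41 (1 - eh) eh ek (elo t3c41.B0 t3c41.Bh eh) (elo t3c41.D0 t3c41.Dh ek) (elo t3c41.E0 t3c41.Eh ek)) :=
  NC.of (K := 259) (D := ⟨16, 9, 1, 1⟩) (Box.of 288 (by decide +kernel))
    (by decide +kernel)

theorem t3k41_r1_r2 : NC (f1 t3c41 eh (1 - eh) ek (ehi t3c41.Bh t3c41.B1 (1 - eh)) (elo t3c41.D0 t3c41.Dh ek) (elo t3c41.E0 t3c41.Eh ek)) :=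
  NC.of (K := 232) (D := ⟨16, 9, 1, 1⟩) (Box.of 4 (by decide +kernel))
    (by decide +kernel)

theorem t3k41_r1_r3 : NC (f1 t3c41 (1 - eh) ek eh (elo t3c41.B0 t3c41.Bh ek) (elo t3c41.D0 t3c41.Dh eh) (elo t3c41.E0 t3c41.Eh eh)) :=
  NC.of (K := 262) (D := ⟨16, 12, 1, 1⟩) (Box.of 288 (by decide +kernel))
    (by decide +kernel)

theorem t3k41_r1_r4 : NC (f1 t3c41 eh ek (1 - eh) (elo t3c41.B0 t3c41.Bh ek) (ehi t3c41.Dh t3c41.D1 (1 - eh)) (ehi t3c41.Eh t3c41.E1 (1 - eh))) :=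
  NC.of (K := 235) (D := ⟨16, 12, 1, 1⟩) (Box.of 4 (by decide +kernel))
    (by decide +kernel)

theorem t3k41_r2_r1 : NC (f2 t3c41 (1 - eh) eh ek (elo t3c41.B0 t3c41.Bh eh) (elo t3c41.D0 t3c41.Dh ek) (elo t3c41.E0 t3c41.Eh ek)) :=
  NC.of (K := 262) (D := ⟨16, 11, 1, 1⟩) (Box.of 288 (by decide +kernel))
    (by decide +kernel)

theorem t3k41_r2_r2 : NC (f2 t3c41 eh (1 - eh) ek (ehi t3c41.Bh t3c41.B1 (1 - eh)) (elo t3c41.D0 t3c41.Dh ek) (elo t3c41.E0 t3c41.Eh ek)) :=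
  NC.of (K := 235) (D := ⟨16, 11, 1, 1⟩) (Box.of 4 (by decide +kernel))
    (by decide +kernel)

theorem t3k41_r2_r3 : NC (f2 t3c41 (1 - eh) ek eh (elo t3c41.B0 t3c41.Bh ek) (elo t3c41.D0 t3c41.Dh eh) (elo t3c41.E0 t3c41.Eh eh)) :=
  NC.of (K := 263) (D := ⟨16, 12, 1, 1⟩) (Box.of 288 (by decide +kernel))
    (by decide +kernel)

theorem t3k41_r2_r4 : NC (f2 t3c41 eh ek (1 - eh) (elo t3c41.B0 t3c41.Bh ek) (ehi t3c41.Dh t3c41.D1 (1 - eh)) (ehi t3c41.Eh t3c41.E1 (1 - eh))) :=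
  NC.of (K := 237) (D := ⟨16, 12, 1, 1⟩) (Box.of 4 (by decide +kernel))
    (by decide +kernel)

theorem t3k41_rc_r1 : NC (fc t3c41 (1 - eh) eh ek (elo t3c41.B0 t3c41.Bh eh) (elo t3c41.D0 t3c41.Dh ek) (elo t3c41.E0 t3c41.Eh ek)) :=
  NC.of (K := 165) (D := ⟨13, 9, 1, 1⟩) (Box.of 288 (by decide +kernel))
    (by decide +kernel)

theorem t3k41_rc_r2 : NC (fc t3c41 eh (1 - eh) ek (ehi t3c41.Bh t3c41.B1 (1 - eh)) (elo t3c41.D0 t3c41.Dh ek) (elo t3c41.E0 t3c41.Eh ek)) :=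
  NC.of (K := 142) (D := ⟨13, 9, 1, 1⟩) (Box.of 4 (by decide +kernel))
    (by decide +kernel)

theorem t3k41_rc_r3 : NC (fc t3c41 (1 - eh) ek eh (elo t3c41.B0 t3c41.Bh ek) (elo t3c41.D0 t3c41.Dh eh) (elo t3c41.E0 t3c41.Eh eh)) :=
  NC.of (K := 160) (D := ⟨13, 5, 1, 1⟩) (Box.of 288 (by decide +kernel))
    (by decide +kernel)

theorem t3k41_rc_r4 : NC (fc t3c41 eh ek (1 - eh) (elo t3c41.B0 t3c41.Bh ek) (ehi t3c41.Dh t3c41.D1 (1 - eh)) (ehi t3c41.Eh t3c41.E1 (1 - eh))) :=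
  NC.of (K := 143) (D := ⟨13, 5, 1, 1⟩) (Box.of 4 (by decide +kernel))
    (by decide +kernel)

theorem t3k41_rI_r1 : NC (fI t3c41 (1 - eh) eh ek (elo t3c41.B0 t3c41.Bh eh) (elo t3c41.D0 t3c41.Dh ek) (elo t3c41.E0 t3c41.Eh ek)) :=
  NC.of (K := 126) (D := ⟨13, 9, 1, 1⟩) (Box.of 4 (by decide +kernel))
    (by decide +kernel)

theorem t3k41_rI_r2 : NC (fI t3c41 eh (1 - eh) ek (ehi t3c41.Bh t3c41.B1 (1 - eh)) (elo t3c41.D0 t3c41.Dh ek) (elo t3c41.E0 t3c41.Eh ek)) :=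
  NC.of (K := 126) (D := ⟨13, 9, 1, 1⟩) (Box.of 4 (by decide +kernel))
    (by decide +kernel)

theorem t3k41_rI_r3 : NC (fI t3c41 (1 - eh) ek eh (elo t3c41.B0 t3c41.Bh ek) (elo t3c41.D0 t3c41.Dh eh) (elo t3c41.E0 t3c41.Eh eh)) :=
  NC.of (K := 144) (D := ⟨13, 5, 1, 1⟩) (Box.of 288 (by decide +kernel))
    (by decide +kernel)

theorem t3k41_rI_r4 : NC (fI t3c41 eh ek (1 - eh) (elo t3c41.B0 t3c41.Bh ek) (ehi t3c41.Dh t3c41.D1 (1 - eh)) (ehi t3c41.Eh t3c41.E1 (1 - eh))) :=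
  NC.of (K := 127) (D := ⟨13, 5, 1, 1⟩) (Box.of 4 (by decide +kernel))
    (by decide +kernel)

theorem t3k41_rJ_r1 : NC (fJ t3c41 (1 - eh) eh ek (elo t3c41.B0 t3c41.Bh eh) (elo t3c41.D0 t3c41.Dh ek) (elo t3c41.E0 t3c41.Eh ek)) :=
  NC.of (K := 70) (D := ⟨7, 5, 1, 1⟩) (Box.of 4 (by decide +kernel))
    (by decide +kernel)

theorem t3k41_rJ_r2 : NC (fJ t3c41 eh (1 - eh) ek (ehi t3c41.Bh t3c41.B1 (1 - eh)) (elo t3c41.D0 t3c41.Dh ek) (elo t3c41.E0 t3c41.Eh ek)) :=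
  NC.of (K := 70) (D := ⟨7, 5, 1, 1⟩) (Box.of 4 (by decide +kernel))
    (by decide +kernel)

theorem t3k41_rJ_r3 : NC (fJ t3c41 (1 - eh) ek eh (elo t3c41.B0 t3c41.Bh ek) (elo t3c41.D0 t3c41.Dh eh) (elo t3c41.E0 t3c41.Eh eh)) :=
  NC.of (K := 67) (D := ⟨7, 3, 1, 1⟩) (Box.of 4 (by decide +kernel))
    (by decide +kernel)

theorem t3k41_rJ_r4 : NC (fJ t3c41 eh ek (1 - eh) (elo t3c41.B0 t3c41.Bh ek) (ehi t3c41.Dh t3c41.D1 (1 - eh)) (ehi t3c41.Eh t3c41.E1 (1 - eh))) :=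
  NC.of (K := 69) (D := ⟨7, 3, 1, 1⟩) (Box.of 4 (by decide +kernel))
    (by decide +kernel)

theorem t3k41_gE_r1 : NC (fE t3c41 t3e41 (1 - eh) eh ek (elo t3c41.B0 t3c41.Bh eh) (elo t3c41.D0 t3c41.Dh ek) (elo t3c41.E0 t3c41.Eh ek)) :=
  NC.of (K := 150) (D := ⟨13, 9, 1, 1⟩) (Box.of 288 (by decide +kernel))
    (by decide +kernel)

theorem t3k41_gE_r2 : NC (fE t3c41 t3e41 eh (1 - eh) ek (ehi t3c41.Bh t3c41.B1 (1 - eh)) (elo t3c41.D0 t3c41.Dh ek) (elo t3c41.E0 t3c41.Eh ek)) :=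
  NC.of (K := 128) (D := ⟨13, 9, 1, 1⟩) (Box.of 4 (by decide +kernel))
    (by decide +kernel)

theorem t3k41_gE_r3 : NC (fE t3c41 t3e41 (1 - eh) ek eh (elo t3c41.B0 t3c41.Bh ek) (elo t3c41.D0 t3c41.Dh eh) (elo t3c41.E0 t3c41.Eh eh)) :=
  NC.of (K := 147) (D := ⟨13, 7, 1, 1⟩) (Box.of 288 (by decide +kernel))
    (by decide +kernel)

theorem t3k41_gE_r4 : NC (fE t3c41 t3e41 eh ek (1 - eh) (elo t3c41.B0 t3c41.Bh ek) (ehi t3c41.Dh t3c41.D1 (1 - eh)) (ehi t3c41.Eh t3c41.E1 (1 - eh))) :=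
  NC.of (K := 131) (D := ⟨13, 7, 1, 1⟩) (Box.of 4 (by decide +kernel))
    (by decide +kernel)

theorem t3k41_B0 : NC (kB dW 1 0 t3c41.B0 (tcl t3c41)) :=
  NC.of (K := 102) (D := ⟨1, 1, 1, 9⟩) (Box.of 4 (by decide +kernel))
    (by decide +kernel)

theorem t3k41_E0 : NC (kE dW qW qW.p0 qW.q0 t3c41.E0 (tcl t3c41)) :=
  NC.of (K := 226) (D := ⟨1, 1, 1, 19⟩) (Box.of 4 (by decide +kernel))
    (by decide +kernel)

theorem t3k41_D0 : NC (kD dW qW 1 0 qW.p0 qW.q0 t3c41.D0 (tcl t3c41)) :=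
  NC.of (K := 344) (D := ⟨1, 1, 1, 20⟩) (Box.of 4 (by decide +kernel))
    (by decide +kernel)

theorem t3k41_Bh : NC (kB dW (1 / 2) (1 / 2) t3c41.Bh (tcl t3c41)) :=
  NC.of (K := 106) (D := ⟨1, 1, 1, 9⟩) (Box.of 4 (by decide +kernel))
    (by decide +kernel)

theorem t3k41_Eh : NC (kE dW qW qW.ph qW.qh t3c41.Eh (tcl t3c41)) :=
  NC.of (K := 230) (D := ⟨1, 1, 1, 19⟩) (Box.of 4 (by decide +kernel))
    (by decide +kernel)

theorem t3k41_Dh : NC (kD dW qW (1 / 2) (1 / 2) qW.ph qW.qh t3c41.Dh (tcl t3c41)) :=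
  NC.of (K := 348) (D := ⟨1, 1, 1, 20⟩) (Box.of 4 (by decide +kernel))
    (by decide +kernel)

theorem t3k41_B1 : NC (kB dW 0 (1 / 2) t3c41.B1 (tcl t3c41)) :=
  NC.of (K := 106) (D := ⟨1, 1, 1, 9⟩) (Box.of 4 (by decide +kernel))
    (by decide +kernel)

theorem t3k41_E1 : NC (kE dW qW qW.p1 qW.q1 t3c41.E1 (tcl t3c41)) :=
  NC.of (K := 230) (D := ⟨1, 1, 1, 19⟩) (Box.of 4 (by decide +kernel))
    (by decide +kernel)

theorem t3k41_D1 : NC (kD dW qW 0 (1 / 2) qW.p1 qW.q1 t3c41.D1 (tcl t3c41)) :=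
  NC.of (K := 348) (D := ⟨1, 1, 1, 20⟩) (Box.of 4 (by decide +kernel))
    (by decide +kernel)

theorem t3k41_l : NC (qc t3n41.lb - (1 - vX) * pe (exl t3c41.th) vX ^ 2) :=
  NC.of (K := 135) (D := ⟨10, 1, 1, 1⟩) (Box.of 288 (by decide +kernel))
    (by decide +kernel)

theorem t3k41_n : NC (qc t3n41.nb - vX * (1 - vX) * pe (exl t3c41.th) vX) :=
  NC.of (K := 112) (D := ⟨7, 1, 1, 1⟩) (Box.of 76677152 (by decide +kernel))
    (by decide +kernel)

theorem t3k41_rb : NC (krb t3n41 fW (t1v t3c41)) :=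
  NC.of (K := 161) (D := ⟨1, 1, 1, 16⟩) (Box.of 4 (by decide +kernel))
    (by decide +kernel)

theorem t3k41_kap : NC (kkap dW qW t3n41 (tcl t3c41)) :=
  NC.of (K := 102) (D := ⟨1, 1, 1, 9⟩) (Box.of 4 (by decide +kernel))
    (by decide +kernel)

theorem t3k41_wb2 : NC (qc t3n41.b2 - pe2 kW.QB (vZ * t1v t3c41) (t1v t3c41)) :=
  NC.of (K := 150) (D := ⟨1, 6, 1, 11⟩) (Box.of 1186017 (by decide +kernel))
    (by decide +kernel)

theorem t3k41_wmb : NC (qc t3n41.Mb - pe zW.mb (t1v t3c41)) :=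
  NC.of (K := 132) (D := ⟨1, 1, 1, 9⟩) (Box.of 1194211 (by decide +kernel))
    (by decide +kernel)

theorem t3k41_wth : NC (qc (t3c41.th / t3c41.t1) - pe2 zW.Qt (vZ * t1v t3c41) (t1v t3c41)) :=
  NC.of (K := 192) (D := ⟨1, 6, 1, 11⟩) (Box.of 76429539 (by decide +kernel))
    (by decide +kernel)

theorem t3k41_wyb : NC (qc t3n41.Yb - (t1v t3c41 - vZ * t1v t3c41) ^ 3 * pe2 yW.QY (vZ * t1v t3c41) (t1v t3c41)) :=
  NC.of (K := 114) (D := ⟨1, 8, 1, 12⟩) (Box.of 4 (by decide +kernel))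
    (by decide +kernel)

theorem t3k41_wmu : NC (qc t3m41 - pe t3al (tcl t3c41) * (1 + hlf * tcl t3c41)) :=
  NC.of (K := 99) (D := ⟨1, 1, 1, 9⟩) (Box.of 4 (by decide +kernel))
    (by decide +kernel)

theorem t3k41_wcj : NC (qc t3c41.C * ((6 - 3 * vX) * (1 - qc t3m41 * vX)) - (6 - 6 * vX + vX ^ 2)) :=
  NC.of (K := 33) (D := ⟨3, 1, 1, 1⟩) (Box.of 4 (by decide +kernel))
    (by decide +kernel)

theorem t3k41_nd1 : NC (pe t3r41.d1 (t1v t3c41)) :=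
  NC.of (K := 61) (D := ⟨1, 1, 1, 7⟩) (Box.of 4 (by decide +kernel))
    (by decide +kernel)

theorem t3k41_nd2 : NC (pe t3r41.d2 (t1v t3c41)) :=
  NC.of (K := 62) (D := ⟨1, 1, 1, 7⟩) (Box.of 4 (by decide +kernel))
    (by decide +kernel)

theorem t3k41_ndy : NC (pe t3r41.dy (t1v t3c41)) :=
  NC.of (K := 66) (D := ⟨1, 1, 1, 7⟩) (Box.of 4 (by decide +kernel))
    (by decide +kernel)

theorem t3k41_nt1 : NC (pe t3r41.t1 (t1v t3c41)) :=
  NC.of (K := 64) (D := ⟨1, 1, 1, 7⟩) (Box.of 4 (by decide +kernel))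
    (by decide +kernel)

theorem t3k41_nt2 : NC (pe t3r41.t2 (t1v t3c41)) :=
  NC.of (K := 63) (D := ⟨1, 1, 1, 7⟩) (Box.of 4 (by decide +kernel))
    (by decide +kernel)

theorem t3k41_nty : NC (pe t3r41.ty (t1v t3c41)) :=
  NC.of (K := 69) (D := ⟨1, 1, 1, 7⟩) (Box.of 4 (by decide +kernel))
    (by decide +kernel)

theorem t3k41_nhz : NC (pe t3r41.hz (t1v t3c41)) :=
  NC.of (K := 91) (D := ⟨1, 1, 1, 7⟩) (Box.of 18659 (by decide +kernel))
    (by decide +kernel)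

theorem t3k41_xi : NC (eXi fW t3c41 t3e41 t3r41 (t1v t3c41)) :=
  NC.of (K := 262) (D := ⟨1, 1, 1, 22⟩) (Box.of 4 (by decide +kernel))
    (by decide +kernel)

theorem t3k41_om : NC (eOm fW t3r41 (t1v t3c41)) :=
  NC.of (K := 180) (D := ⟨1, 1, 1, 16⟩) (Box.of 291 (by decide +kernel))
    (by decide +kernel)

theorem t3k41_fin : NC (eFin dW t3c41 t3n41 t3r41 t3h41 (tcl t3c41)) :=
  NC.of (K := 239) (D := ⟨1, 1, 1, 14⟩) (Box.of 4 (by decide +kernel))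
    (by decide +kernel)

theorem t3k41_xdl : NC (qc t3e41.dl - pe t3d41.l.dl t3d41.eU) :=
  NC.of (K := 73) (D := ⟨1, 4, 1, 1⟩) (Box.of 4 (by decide +kernel))
    (by decide +kernel)

theorem t3k41_xeY : NC (qc t3e41.eY - pe (e4l t3d41.l.z) t3d41.eU) :=
  NC.of (K := 288) (D := ⟨1, 13, 1, 1⟩) (Box.of 4 (by decide +kernel))
    (by decide +kernel)

theorem t3k41_xgr : NC (qc t3d41.ga * ((1 + qc (3 / 5) * vX) * (1 + (t3d41.eg + hlf * t3d41.eg ^ 2))) + qc t3d41.gb - pe2 t3GR vX t3d41.eU) :=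
  NC.of (K := 256) (D := ⟨4, 11, 1, 1⟩) (Box.of 18688 (by decide +kernel))
    (by decide +kernel)

theorem t3k41_xhr : NC (qc t3d41.hb - pe2 t3HR vX t3d41.eU) :=
  NC.of (K := 266) (D := ⟨3, 12, 1, 1⟩) (Box.of 4 (by decide +kernel))
    (by decide +kernel)

theorem t3k41_xgs : NC (pe t3d41.gs t3d41.e1 - qc (8 / 5) * pe (e4l (ladd t3d41.ls.z t3d41.ls.dl)) t3d41.e1) :=
  NC.of (K := 296) (D := ⟨1, 1, 1, 13⟩) (Box.of 4 (by decide +kernel))
    (by decide +kernel)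

theorem t3k41_xd1 : NC (pe t3d41.d1 t3d41.e1 - t3d41.eA t3d41.eU t3d41.e1) :=
  NC.of (K := 284) (D := ⟨1, 12, 1, 12⟩) (Box.of 4 (by decide +kernel))
    (by decide +kernel)

theorem t3k41_xd2 : NC (pe t3d41.d2 t3d41.e1 - t3d41.eB t3d41.eU t3d41.e1) :=
  NC.of (K := 290) (D := ⟨1, 12, 1, 12⟩) (Box.of 4 (by decide +kernel))
    (by decide +kernel)

theorem t3k41_xt1 : NC (pe t3d41.t1 t3d41.e1 - t3d41.eAT t3d41.eU t3d41.e1) :=
  NC.of (K := 476) (D := ⟨1, 19, 1, 19⟩) (Box.of 4 (by decide +kernel))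
    (by decide +kernel)

theorem t3k41_xt2 : NC (pe t3d41.t2 t3d41.e1 - t3d41.eBT t3d41.eU t3d41.e1) :=
  NC.of (K := 475) (D := ⟨1, 19, 1, 19⟩) (Box.of 4 (by decide +kernel))
    (by decide +kernel)

theorem t3k41_xdy : NC (pe t3d41.dy t3d41.e1 - t3d41.eSD t3d41.eU t3d41.e1) :=
  NC.of (K := 450) (D := ⟨1, 18, 1, 12⟩) (Box.of 4 (by decide +kernel))
    (by decide +kernel)

theorem t3k41_xty : NC (pe t3d41.ty t3d41.e1 - t3d41.eST t3d41.eU t3d41.e1) :=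
  NC.of (K := 676) (D := ⟨1, 26, 1, 26⟩) (Box.of 4 (by decide +kernel))
    (by decide +kernel)

theorem t3k41_xd1s : NC (pe t3r41.d1 (t1v t3c41) - pe t3d41.d1 (Xcd.ew zW t3c41)) :=
  NC.of (K := 562) (D := ⟨1, 1, 1, 55⟩) (Box.of 4 (by decide +kernel))
    (by decide +kernel)

theorem t3k41_xd2s : NC (pe t3r41.d2 (t1v t3c41) - pe t3d41.d2 (Xcd.ew zW t3c41)) :=
  NC.of (K := 557) (D := ⟨1, 1, 1, 55⟩) (Box.of 4 (by decide +kernel))
    (by decide +kernel)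

theorem t3k41_xt1s : NC (pe t3r41.t1 (t1v t3c41) - pe t3d41.t1 (Xcd.ew zW t3c41)) :=
  NC.of (K := 562) (D := ⟨1, 1, 1, 55⟩) (Box.of 4 (by decide +kernel))
    (by decide +kernel)

theorem t3k41_xt2s : NC (pe t3r41.t2 (t1v t3c41) - pe t3d41.t2 (Xcd.ew zW t3c41)) :=
  NC.of (K := 563) (D := ⟨1, 1, 1, 55⟩) (Box.of 4 (by decide +kernel))
    (by decide +kernel)

theorem t3k41_xdys : NC (pe t3r41.dy (t1v t3c41) - pe t3d41.dy (Xcd.ew zW t3c41)) :=
  NC.of (K := 564) (D := ⟨1, 1, 1, 55⟩) (Box.of 4 (by decide +kernel))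
    (by decide +kernel)

theorem t3k41_xtys : NC (pe t3r41.ty (t1v t3c41) - pe t3d41.ty (Xcd.ew zW t3c41)) :=
  NC.of (K := 562) (D := ⟨1, 1, 1, 55⟩) (Box.of 4 (by decide +kernel))
    (by decide +kernel)

theorem t3k41_xhz : NC (pe t3r41.hz (t1v t3c41) - pe t3d41.c.dR (Xcd.ew zW t3c41)) :=
  NC.of (K := 478) (D := ⟨1, 1, 1, 46⟩) (Box.of 4 (by decide +kernel))
    (by decide +kernel)

theorem t3f41_ok : t3f41.ok V2L.y21 V2L.k21 V2L.nb V2L.la (10 ^ 30) 32 = true := by decide +kernel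

theorem t3k41_sg : t3c41.Sg := by
  constructor <;> decide +kernel

theorem t3k41_rgs : t3c41.Rgs where
  M := ⟨t3k41_M_r1, t3k41_M_r2, t3k41_M_r3, t3k41_M_r4⟩
  r0 := ⟨t3k41_r0_r1, t3k41_r0_r2, t3k41_r0_r3, t3k41_r0_r4⟩
  r1 := ⟨t3k41_r1_r1, t3k41_r1_r2, t3k41_r1_r3, t3k41_r1_r4⟩
  r2 := ⟨t3k41_r2_r1, t3k41_r2_r2, t3k41_r2_r3, t3k41_r2_r4⟩
  rc := ⟨t3k41_rc_r1, t3k41_rc_r2, t3k41_rc_r3, t3k41_rc_r4⟩
  rI := ⟨t3k41_rI_r1, t3k41_rI_r2, t3k41_rI_r3, t3k41_rI_r4⟩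
  rJ := ⟨t3k41_rJ_r1, t3k41_rJ_r2, t3k41_rJ_r3, t3k41_rJ_r4⟩

theorem t3k41_xn : t3e41.Ok t3c41 where
  lm := by decide +kernel
  dl0 := by decide +kernel
  dl1 := by decide +kernel
  e2 := by decide +kernel
  eY := by decide +kernel
  gE := ⟨t3k41_gE_r1, t3k41_gE_r2, t3k41_gE_r3, t3k41_gE_r4⟩

theorem t3k41_vl : t3c41.Vl dW qW where
  bt := by decide +kernel
  B0 := t3k41_B0
  E0 := t3k41_E0
  D0 := t3k41_D0
  Bh := t3k41_Bh
  Eh := t3k41_Eh
  Dh := t3k41_Dh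
  B1 := t3k41_B1
  E1 := t3k41_E1
  D1 := t3k41_D1

theorem t3k41_rat : t3n41.Rat t3c41 := by
  constructor <;> decide +kernel

theorem t3k41_ck : t3n41.Ck t3c41 := ⟨t3k41_l, t3k41_n⟩

theorem t3k41_fck : t3n41.Fck dW qW fW t3c41 := ⟨t3k41_rb, t3k41_kap⟩

theorem t3k41_w : Wcl zW kW yW t3al t3c41 t3n41 t3m41 where
  b2 := t3k41_wb2
  mb := t3k41_wmb
  th := t3k41_wth
  yb := t3k41_wyb
  mu := t3k41_wmu
  cj := t3k41_wcj
  mt1 := by decide +kernel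
  mt2 := by decide +kernel

theorem t3k41_ok : CelOk dW qW fW t3c41 t3n41 where
  s := t3k41_sg
  r := t3k41_rgs
  v := t3k41_vl
  rt := t3k41_rat
  k := t3k41_ck
  fc := t3k41_fck
  q01 := by decide +kernel
  q12 := by decide +kernel
  h2 := by decide +kernel

theorem t3k41_xr : t3r41.Ok fW t3c41 t3e41 where
  sD := by decide +kernel
  sT := by decide +kernel
  nd1 := t3k41_nd1
  nd2 := t3k41_nd2
  ndy := t3k41_ndy
  nt1 := t3k41_nt1
  nt2 := t3k41_nt2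
  nty := t3k41_nty
  nhz := t3k41_nhz
  xi := t3k41_xi
  om := t3k41_om

theorem t3k41_X : t3d41.Ck t3GR t3HR zW t3c41 t3e41 t3r41 where
  u0 := by decide +kernel
  u01 := by decide +kernel
  ul := by decide +kernel
  us := by decide +kernel
  uc := by decide +kernel
  ga0 := by decide +kernel
  kp0 := by decide +kernel
  lm := by decide +kernel
  dl := t3k41_xdl
  eY := t3k41_xeY
  gr := t3k41_xgr
  hr := t3k41_xhr
  gs := t3k41_xgs
  d1 := t3k41_xd1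
  d2 := t3k41_xd2
  t1 := t3k41_xt1
  t2 := t3k41_xt2
  dy := t3k41_xdy
  ty := t3k41_xty
  d1s := t3k41_xd1s
  d2s := t3k41_xd2s
  t1s := t3k41_xt1s
  t2s := t3k41_xt2s
  dys := t3k41_xdys
  tys := t3k41_xtys
  hz := t3k41_xhz

end Pool.Agent.RX.RCN.K
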