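import Pool.Agent.RX.RCN.T3D
import Pool.Agent.RX.RCN.T3Wq
import Pool.Agent.RX.RCN.T3X22
import Pool.Agent.RX.RCN.VLd

/-! Certificates (generated). -/

set_option autoImplicit false

namespace Pool.Agent.RX.RCN.K

open Set Pool.Agent.RX.RCM9 Pool.Agent.RX.RCM9.Bern Pool.Agent.RX.RCM9.Pk Xce

def t3c42 : Cel where
  t0 := 13 / 25
  t1 := 21 / 40
  C := 2049 / 2048
  th := 2203 / 4096
  B0 := 2091 / 2048
  Bh := 2423 / 2048
  B1 := 1201 / 1024
  D0 := 197 / 512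
  Dh := 1347 / 4096
  D1 := 647 / 2048
  E0 := 983 / 65536
  Eh := 217 / 16384
  E1 := 417 / 32768
  Q0 := 1049 / 1024
  Q1 := 1059 / 1024
  Q2 := 1183 / 1024
  Ac := 1057 / 1024
  gI := 1057 / 1024
  J := 115 / 4096

def t3n42 : Chn where
  lb := 257 / 256
  nb := 171 / 512
  Mb := 525 / 512
  b2 := 1059 / 1024
  Yb := 75 / 4096
  E2 := 4249 / 4096
  e1 := 1391 / 1024
  Z1 := 1105 / 1024
  Z2 := 643 / 1024
  KB := 1083 / 1024
  cb := 551 / 512
  rb := 221 / 512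
  om := 263 / 256
  fb := 129 / 128
  kap := 4245 / 4096
  ab := 1029 / 1024

def t3e42 : Xge where
  lm := 3 / 5
  dl := 1043 / 2048
  e2 := 2543 / 16384
  eY := 261 / 256
  gE := 151 / 128

def t3r42 : Xr where
  d1 := [4249239 / 100000000, 541487 / 50000000, 1971733 / 50000000, 6473837 / 100000000, -163503
    / 5000000, 24349 / 800000, 279881 / 5000000]
  d2 := [1247211 / 100000000, 1452783 / 25000000, 2363291 / 50000000, 50107647 / 100000000,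
    -21237829 / 25000000, 1092901 / 1250000, -30905739 / 100000000]
  dy := [35307309 / 50000000, 6852039 / 25000000, 18887643 / 50000000, 28939829 / 10000000,
    -33043929 / 6250000, 101933447 / 20000000, -179430517 / 100000000]
  t1 := [164347 / 800000, -47977107 / 100000000, 5939459 / 100000000, 50305189 / 50000000,
    -3921209 / 5000000, -26021423 / 100000000, 55039291 / 50000000]
  t2 := [43473 / 500000, -2991833 / 20000000, -3614053 / 100000000, 13286103 / 12500000,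
    -122062291 / 100000000, 18966787 / 20000000, -23724243 / 100000000]
  ty := [239416411 / 100000000, -522587329 / 100000000, -379858401 / 100000000, 379316729 /
    10000000, -5056322221 / 100000000, 80915897 / 4000000, 197270757 / 50000000]
  hz := [22944523 / 100000000, -734883 / 1562500, -41052447 / 100000000, -197965789 / 50000000,
    1739741989 / 100000000, -305707629 / 20000000, -22982837 / 100000000]
  om := [3137397 / 3125000, 25772403 / 25000000, -1425750761 / 100000000, 38773451 / 625000,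
    -9534452273 / 50000000, 56694906363 / 100000000, -3206291953 / 2500000, 83852543677 /
    50000000, -93281534151 / 100000000]
  sD := 705 / 256
  sT := 633 / 256
  xi := [11525401 / 50000000, 136026979 / 100000000, -543424281 / 100000000, 374568271 /
    100000000, 691828861 / 20000000, -18685437257 / 100000000, 67924478647 / 100000000,
    -19420722639 / 12500000, 195481342063 / 100000000, -52043743791 / 50000000]

def t3f42 : Dl where
  Ca := 5229851 / 10000000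
  Cv := 264051 / 500000
  k1 := 70773 / 80000
  ks := 865093 / 1000000
  dd := 1 / 100000
  kp := 101 / 10000000
  e := [499999846861 / 500000000000, -364729676969 / 250000000000, 331349852277 / 200000000000,
    -1675772588743 / 1000000000000, 796308417193 / 500000000000, -1390039367323 / 1000000000000,
    520750701447 / 500000000000, -569551502781 / 1000000000000, 79992757873 / 500000000000]
  j1 := [34489 / 125000000, -6640990597 / 1000000000, 13439233193 / 200000000, -331255245073 /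
    1000000000, 40229467187 / 40000000, -1915535099849 / 1000000000, 2090502064513 / 1000000000,
    -982051182079 / 1000000000]
  nu := [2263999 / 15625000, -261840079 / 1000000000, 180539163 / 500000000, 100379417 /
    1000000000, -271791613 / 1000000000, 98945089 / 125000000, -60501033 / 125000000]
  k2 := [865094227 / 1000000000, 14163951 / 62500000, -282418489 / 1000000000, -43689603 /
    250000000, 63380631 / 200000000, -48686969 / 62500000, 523263347 / 1000000000]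
  dR := [22898723 / 100000000, -939237 / 2000000, -39360249 / 100000000, -402455823 / 100000000,
    175040661 / 10000000, -1550152747 / 100000000]

def t3d42 : Xce where
  u0 := 65437 / 125000
  u1 := 264051 / 500000
  l := V2L.y22
  y := t3z22
  j := t3j22
  i := t3i22
  ls := t3y22
  k := V2L.k22
  c := t3f42
  ga := 4239 / 100000
  gb := -17179 / 1000000
  hb := 281869 / 1000000
  gs := [160003507 / 100000000, 23999963 / 10000000, 180010929 / 100000000, 79479511 / 100000000,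
    5442453 / 20000000, -2663227 / 20000000, -2534929 / 50000000]
  d1 := [4245823 / 100000000, 1049047 / 100000000, 4514927 / 100000000, 2320901 / 100000000,
    4254913 / 50000000, -9779951 / 100000000, 1921959 / 25000000]
  d2 := [38831 / 3125000, 2851391 / 50000000, 6526587 / 100000000, 36442243 / 100000000, -4293909
    / 10000000, 16715369 / 50000000, -1121621 / 10000000]
  dy := [70557793 / 100000000, 26830449 / 100000000, 47621017 / 100000000, 106519871 / 50000000,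
    -18074533 / 6250000, 2997679 / 1562500, -10499149 / 20000000]
  t1 := [2053219 / 10000000, -47753517 / 100000000, 100789 / 2500000, 58291517 / 50000000,
    -147048099 / 100000000, 107354997 / 100000000, 1551871 / 12500000]
  t2 := [4344991 / 50000000, -14979863 / 100000000, -2400941 / 100000000, 9809641 / 10000000,
    -1305803 / 1250000, 21888199 / 25000000, -18357217 / 50000000]
  ty := [14956047 / 6250000, -521165413 / 100000000, -188207331 / 50000000, 471270627 / 12500000,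
    -1023277077 / 20000000, 2346820999 / 100000000, 2065569 / 4000000]

def t3m42 : ℚ := 2065 / 4096

def t3h42 : ℚ := 67 / 125

theorem t3k42_M_r1 : NC (fM t3c42 (1 - eh) eh ek (elo t3c42.B0 t3c42.Bh eh) (elo t3c42.D0 t3c42.Dh ek) (elo t3c42.E0 t3c42.Eh ek)) :=
  NC.of (K := 33) (D := ⟨4, 3, 1, 1⟩) (Box.of 4 (by decide +kernel))
    (by decide +kernel)

theorem t3k42_M_r2 : NC (fM t3c42 eh (1 - eh) ek (ehi t3c42.Bh t3c42.B1 (1 - eh)) (elo t3c42.D0 t3c42.Dh ek) (elo t3c42.E0 t3c42.Eh ek)) :=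
  NC.of (K := 33) (D := ⟨4, 3, 1, 1⟩) (Box.of 4 (by decide +kernel))
    (by decide +kernel)

theorem t3k42_M_r3 : NC (fM t3c42 (1 - eh) ek eh (elo t3c42.B0 t3c42.Bh ek) (elo t3c42.D0 t3c42.Dh eh) (elo t3c42.E0 t3c42.Eh eh)) :=
  NC.of (K := 32) (D := ⟨4, 2, 1, 1⟩) (Box.of 4 (by decide +kernel))
    (by decide +kernel)

theorem t3k42_M_r4 : NC (fM t3c42 eh ek (1 - eh) (elo t3c42.B0 t3c42.Bh ek) (ehi t3c42.Dh t3c42.D1 (1 - eh)) (ehi t3c42.Eh t3c42.E1 (1 - eh))) :=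
  NC.of (K := 32) (D := ⟨4, 2, 1, 1⟩) (Box.of 4 (by decide +kernel))
    (by decide +kernel)

theorem t3k42_r0_r1 : NC (f0 t3c42 (1 - eh) eh ek (elo t3c42.B0 t3c42.Bh eh) (elo t3c42.D0 t3c42.Dh ek) (elo t3c42.E0 t3c42.Eh ek)) :=
  NC.of (K := 144) (D := ⟨13, 9, 1, 1⟩) (Box.of 4 (by decide +kernel))
    (by decide +kernel)

theorem t3k42_r0_r2 : NC (f0 t3c42 eh (1 - eh) ek (ehi t3c42.Bh t3c42.B1 (1 - eh)) (elo t3c42.D0 t3c42.Dh ek) (elo t3c42.E0 t3c42.Eh ek)) :=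
  NC.of (K := 144) (D := ⟨13, 9, 1, 1⟩) (Box.of 4 (by decide +kernel))
    (by decide +kernel)

theorem t3k42_r0_r3 : NC (f0 t3c42 (1 - eh) ek eh (elo t3c42.B0 t3c42.Bh ek) (elo t3c42.D0 t3c42.Dh eh) (elo t3c42.E0 t3c42.Eh eh)) :=
  NC.of (K := 139) (D := ⟨13, 5, 1, 1⟩) (Box.of 4 (by decide +kernel))
    (by decide +kernel)

theorem t3k42_r0_r4 : NC (f0 t3c42 eh ek (1 - eh) (elo t3c42.B0 t3c42.Bh ek) (ehi t3c42.Dh t3c42.D1 (1 - eh)) (ehi t3c42.Eh t3c42.E1 (1 - eh))) :=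
  NC.of (K := 140) (D := ⟨13, 5, 1, 1⟩) (Box.of 4 (by decide +kernel))
    (by decide +kernel)

theorem t3k42_r1_r1 : NC (f1 t3c42 (1 - eh) eh ek (elo t3c42.B0 t3c42.Bh eh) (elo t3c42.D0 t3c42.Dh ek) (elo t3c42.E0 t3c42.Eh ek)) :=
  NC.of (K := 249) (D := ⟨16, 9, 1, 1⟩) (Box.of 288 (by decide +kernel))
    (by decide +kernel)

theorem t3k42_r1_r2 : NC (f1 t3c42 eh (1 - eh) ek (ehi t3c42.Bh t3c42.B1 (1 - eh)) (elo t3c42.D0 t3c42.Dh ek) (elo t3c42.E0 t3c42.Eh ek)) :=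
  NC.of (K := 225) (D := ⟨16, 9, 1, 1⟩) (Box.of 4 (by decide +kernel))
    (by decide +kernel)

theorem t3k42_r1_r3 : NC (f1 t3c42 (1 - eh) ek eh (elo t3c42.B0 t3c42.Bh ek) (elo t3c42.D0 t3c42.Dh eh) (elo t3c42.E0 t3c42.Eh eh)) :=
  NC.of (K := 253) (D := ⟨16, 12, 1, 1⟩) (Box.of 288 (by decide +kernel))
    (by decide +kernel)

theorem t3k42_r1_r4 : NC (f1 t3c42 eh ek (1 - eh) (elo t3c42.B0 t3c42.Bh ek) (ehi t3c42.Dh t3c42.D1 (1 - eh)) (ehi t3c42.Eh t3c42.E1 (1 - eh))) :=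
  NC.of (K := 226) (D := ⟨16, 12, 1, 1⟩) (Box.of 4 (by decide +kernel))
    (by decide +kernel)

theorem t3k42_r2_r1 : NC (f2 t3c42 (1 - eh) eh ek (elo t3c42.B0 t3c42.Bh eh) (elo t3c42.D0 t3c42.Dh ek) (elo t3c42.E0 t3c42.Eh ek)) :=
  NC.of (K := 252) (D := ⟨16, 11, 1, 1⟩) (Box.of 288 (by decide +kernel))
    (by decide +kernel)

theorem t3k42_r2_r2 : NC (f2 t3c42 eh (1 - eh) ek (ehi t3c42.Bh t3c42.B1 (1 - eh)) (elo t3c42.D0 t3c42.Dh ek) (elo t3c42.E0 t3c42.Eh ek)) :=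
  NC.of (K := 228) (D := ⟨16, 11, 1, 1⟩) (Box.of 4 (by decide +kernel))
    (by decide +kernel)

theorem t3k42_r2_r3 : NC (f2 t3c42 (1 - eh) ek eh (elo t3c42.B0 t3c42.Bh ek) (elo t3c42.D0 t3c42.Dh eh) (elo t3c42.E0 t3c42.Eh eh)) :=
  NC.of (K := 253) (D := ⟨16, 12, 1, 1⟩) (Box.of 288 (by decide +kernel))
    (by decide +kernel)

theorem t3k42_r2_r4 : NC (f2 t3c42 eh ek (1 - eh) (elo t3c42.B0 t3c42.Bh ek) (ehi t3c42.Dh t3c42.D1 (1 - eh)) (ehi t3c42.Eh t3c42.E1 (1 - eh))) :=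
  NC.of (K := 228) (D := ⟨16, 12, 1, 1⟩) (Box.of 4 (by decide +kernel))
    (by decide +kernel)

theorem t3k42_rc_r1 : NC (fc t3c42 (1 - eh) eh ek (elo t3c42.B0 t3c42.Bh eh) (elo t3c42.D0 t3c42.Dh ek) (elo t3c42.E0 t3c42.Eh ek)) :=
  NC.of (K := 166) (D := ⟨13, 9, 1, 1⟩) (Box.of 288 (by decide +kernel))
    (by decide +kernel)

theorem t3k42_rc_r2 : NC (fc t3c42 eh (1 - eh) ek (ehi t3c42.Bh t3c42.B1 (1 - eh)) (elo t3c42.D0 t3c42.Dh ek) (elo t3c42.E0 t3c42.Eh ek)) :=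
  NC.of (K := 143) (D := ⟨13, 9, 1, 1⟩) (Box.of 4 (by decide +kernel))
    (by decide +kernel)

theorem t3k42_rc_r3 : NC (fc t3c42 (1 - eh) ek eh (elo t3c42.B0 t3c42.Bh ek) (elo t3c42.D0 t3c42.Dh eh) (elo t3c42.E0 t3c42.Eh eh)) :=
  NC.of (K := 161) (D := ⟨13, 5, 1, 1⟩) (Box.of 288 (by decide +kernel))
    (by decide +kernel)

theorem t3k42_rc_r4 : NC (fc t3c42 eh ek (1 - eh) (elo t3c42.B0 t3c42.Bh ek) (ehi t3c42.Dh t3c42.D1 (1 - eh)) (ehi t3c42.Eh t3c42.E1 (1 - eh))) :=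
  NC.of (K := 140) (D := ⟨13, 5, 1, 1⟩) (Box.of 4 (by decide +kernel))
    (by decide +kernel)

theorem t3k42_rI_r1 : NC (fI t3c42 (1 - eh) eh ek (elo t3c42.B0 t3c42.Bh eh) (elo t3c42.D0 t3c42.Dh ek) (elo t3c42.E0 t3c42.Eh ek)) :=
  NC.of (K := 133) (D := ⟨13, 9, 1, 1⟩) (Box.of 4 (by decide +kernel))
    (by decide +kernel)

theorem t3k42_rI_r2 : NC (fI t3c42 eh (1 - eh) ek (ehi t3c42.Bh t3c42.B1 (1 - eh)) (elo t3c42.D0 t3c42.Dh ek) (elo t3c42.E0 t3c42.Eh ek)) :=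
  NC.of (K := 133) (D := ⟨13, 9, 1, 1⟩) (Box.of 4 (by decide +kernel))
    (by decide +kernel)

theorem t3k42_rI_r3 : NC (fI t3c42 (1 - eh) ek eh (elo t3c42.B0 t3c42.Bh ek) (elo t3c42.D0 t3c42.Dh eh) (elo t3c42.E0 t3c42.Eh eh)) :=
  NC.of (K := 151) (D := ⟨13, 5, 1, 1⟩) (Box.of 288 (by decide +kernel))
    (by decide +kernel)

theorem t3k42_rI_r4 : NC (fI t3c42 eh ek (1 - eh) (elo t3c42.B0 t3c42.Bh ek) (ehi t3c42.Dh t3c42.D1 (1 - eh)) (ehi t3c42.Eh t3c42.E1 (1 - eh))) :=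
  NC.of (K := 129) (D := ⟨13, 5, 1, 1⟩) (Box.of 4 (by decide +kernel))
    (by decide +kernel)

theorem t3k42_rJ_r1 : NC (fJ t3c42 (1 - eh) eh ek (elo t3c42.B0 t3c42.Bh eh) (elo t3c42.D0 t3c42.Dh ek) (elo t3c42.E0 t3c42.Eh ek)) :=
  NC.of (K := 71) (D := ⟨7, 5, 1, 1⟩) (Box.of 4 (by decide +kernel))
    (by decide +kernel)

theorem t3k42_rJ_r2 : NC (fJ t3c42 eh (1 - eh) ek (ehi t3c42.Bh t3c42.B1 (1 - eh)) (elo t3c42.D0 t3c42.Dh ek) (elo t3c42.E0 t3c42.Eh ek)) :=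
  NC.of (K := 71) (D := ⟨7, 5, 1, 1⟩) (Box.of 4 (by decide +kernel))
    (by decide +kernel)

theorem t3k42_rJ_r3 : NC (fJ t3c42 (1 - eh) ek eh (elo t3c42.B0 t3c42.Bh ek) (elo t3c42.D0 t3c42.Dh eh) (elo t3c42.E0 t3c42.Eh eh)) :=
  NC.of (K := 68) (D := ⟨7, 3, 1, 1⟩) (Box.of 4 (by decide +kernel))
    (by decide +kernel)

theorem t3k42_rJ_r4 : NC (fJ t3c42 eh ek (1 - eh) (elo t3c42.B0 t3c42.Bh ek) (ehi t3c42.Dh t3c42.D1 (1 - eh)) (ehi t3c42.Eh t3c42.E1 (1 - eh))) :=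
  NC.of (K := 69) (D := ⟨7, 3, 1, 1⟩) (Box.of 4 (by decide +kernel))
    (by decide +kernel)

theorem t3k42_gE_r1 : NC (fE t3c42 t3e42 (1 - eh) eh ek (elo t3c42.B0 t3c42.Bh eh) (elo t3c42.D0 t3c42.Dh ek) (elo t3c42.E0 t3c42.Eh ek)) :=
  NC.of (K := 150) (D := ⟨13, 9, 1, 1⟩) (Box.of 288 (by decide +kernel))
    (by decide +kernel)

theorem t3k42_gE_r2 : NC (fE t3c42 t3e42 eh (1 - eh) ek (ehi t3c42.Bh t3c42.B1 (1 - eh)) (elo t3c42.D0 t3c42.Dh ek) (elo t3c42.E0 t3c42.Eh ek)) :=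
  NC.of (K := 129) (D := ⟨13, 9, 1, 1⟩) (Box.of 4 (by decide +kernel))
    (by decide +kernel)

theorem t3k42_gE_r3 : NC (fE t3c42 t3e42 (1 - eh) ek eh (elo t3c42.B0 t3c42.Bh ek) (elo t3c42.D0 t3c42.Dh eh) (elo t3c42.E0 t3c42.Eh eh)) :=
  NC.of (K := 160) (D := ⟨13, 7, 1, 1⟩) (Box.of 18528 (by decide +kernel))
    (by decide +kernel)

theorem t3k42_gE_r4 : NC (fE t3c42 t3e42 eh ek (1 - eh) (elo t3c42.B0 t3c42.Bh ek) (ehi t3c42.Dh t3c42.D1 (1 - eh)) (ehi t3c42.Eh t3c42.E1 (1 - eh))) :=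
  NC.of (K := 128) (D := ⟨13, 7, 1, 1⟩) (Box.of 4 (by decide +kernel))
    (by decide +kernel)

theorem t3k42_B0 : NC (kB dW 1 0 t3c42.B0 (tcl t3c42)) :=
  NC.of (K := 102) (D := ⟨1, 1, 1, 9⟩) (Box.of 4 (by decide +kernel))
    (by decide +kernel)

theorem t3k42_E0 : NC (kE dW qW qW.p0 qW.q0 t3c42.E0 (tcl t3c42)) :=
  NC.of (K := 227) (D := ⟨1, 1, 1, 19⟩) (Box.of 4 (by decide +kernel))
    (by decide +kernel)

theorem t3k42_D0 : NC (kD dW qW 1 0 qW.p0 qW.q0 t3c42.D0 (tcl t3c42)) :=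
  NC.of (K := 344) (D := ⟨1, 1, 1, 20⟩) (Box.of 4 (by decide +kernel))
    (by decide +kernel)

theorem t3k42_Bh : NC (kB dW (1 / 2) (1 / 2) t3c42.Bh (tcl t3c42)) :=
  NC.of (K := 106) (D := ⟨1, 1, 1, 9⟩) (Box.of 4 (by decide +kernel))
    (by decide +kernel)

theorem t3k42_Eh : NC (kE dW qW qW.ph qW.qh t3c42.Eh (tcl t3c42)) :=
  NC.of (K := 230) (D := ⟨1, 1, 1, 19⟩) (Box.of 4 (by decide +kernel))
    (by decide +kernel)

theorem t3k42_Dh : NC (kD dW qW (1 / 2) (1 / 2) qW.ph qW.qh t3c42.Dh (tcl t3c42)) :=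
  NC.of (K := 348) (D := ⟨1, 1, 1, 20⟩) (Box.of 4 (by decide +kernel))
    (by decide +kernel)

theorem t3k42_B1 : NC (kB dW 0 (1 / 2) t3c42.B1 (tcl t3c42)) :=
  NC.of (K := 106) (D := ⟨1, 1, 1, 9⟩) (Box.of 4 (by decide +kernel))
    (by decide +kernel)

theorem t3k42_E1 : NC (kE dW qW qW.p1 qW.q1 t3c42.E1 (tcl t3c42)) :=
  NC.of (K := 230) (D := ⟨1, 1, 1, 19⟩) (Box.of 4 (by decide +kernel))
    (by decide +kernel)

theorem t3k42_D1 : NC (kD dW qW 0 (1 / 2) qW.p1 qW.q1 t3c42.D1 (tcl t3c42)) :=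
  NC.of (K := 348) (D := ⟨1, 1, 1, 20⟩) (Box.of 4 (by decide +kernel))
    (by decide +kernel)

theorem t3k42_l : NC (qc t3n42.lb - (1 - vX) * pe (exl t3c42.th) vX ^ 2) :=
  NC.of (K := 161) (D := ⟨10, 1, 1, 1⟩) (Box.of 18688 (by decide +kernel))
    (by decide +kernel)

theorem t3k42_n : NC (qc t3n42.nb - vX * (1 - vX) * pe (exl t3c42.th) vX) :=
  NC.of (K := 116) (D := ⟨7, 1, 1, 1⟩) (Box.of 76677152 (by decide +kernel))
    (by decide +kernel)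

theorem t3k42_rb : NC (krb t3n42 fW (t1v t3c42)) :=
  NC.of (K := 167) (D := ⟨1, 1, 1, 16⟩) (Box.of 4 (by decide +kernel))
    (by decide +kernel)

theorem t3k42_kap : NC (kkap dW qW t3n42 (tcl t3c42)) :=
  NC.of (K := 102) (D := ⟨1, 1, 1, 9⟩) (Box.of 4 (by decide +kernel))
    (by decide +kernel)

theorem t3k42_wb2 : NC (qc t3n42.b2 - pe2 kW.QB (vZ * t1v t3c42) (t1v t3c42)) :=
  NC.of (K := 144) (D := ⟨1, 6, 1, 11⟩) (Box.of 18657 (by decide +kernel))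
    (by decide +kernel)

theorem t3k42_wmb : NC (qc t3n42.Mb - pe zW.mb (t1v t3c42)) :=
  NC.of (K := 137) (D := ⟨1, 1, 1, 9⟩) (Box.of 1194211 (by decide +kernel))
    (by decide +kernel)

theorem t3k42_wth : NC (qc (t3c42.th / t3c42.t1) - pe2 zW.Qt (vZ * t1v t3c42) (t1v t3c42)) :=
  NC.of (K := 195) (D := ⟨1, 6, 1, 11⟩) (Box.of 76429539 (by decide +kernel))
    (by decide +kernel)

theorem t3k42_wyb : NC (qc t3n42.Yb - (t1v t3c42 - vZ * t1v t3c42) ^ 3 * pe2 yW.QY (vZ * t1v t3c42) (t1v t3c42)) :=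
  NC.of (K := 117) (D := ⟨1, 8, 1, 12⟩) (Box.of 4 (by decide +kernel))
    (by decide +kernel)

theorem t3k42_wmu : NC (qc t3m42 - pe t3al (tcl t3c42) * (1 + hlf * tcl t3c42)) :=
  NC.of (K := 99) (D := ⟨1, 1, 1, 9⟩) (Box.of 4 (by decide +kernel))
    (by decide +kernel)

theorem t3k42_wcj : NC (qc t3c42.C * ((6 - 3 * vX) * (1 - qc t3m42 * vX)) - (6 - 6 * vX + vX ^ 2)) :=
  NC.of (K := 47) (D := ⟨3, 1, 1, 1⟩) (Box.of 1198080 (by decide +kernel))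
    (by decide +kernel)

theorem t3k42_nd1 : NC (pe t3r42.d1 (t1v t3c42)) :=
  NC.of (K := 61) (D := ⟨1, 1, 1, 7⟩) (Box.of 4 (by decide +kernel))
    (by decide +kernel)

theorem t3k42_nd2 : NC (pe t3r42.d2 (t1v t3c42)) :=
  NC.of (K := 67) (D := ⟨1, 1, 1, 7⟩) (Box.of 4 (by decide +kernel))
    (by decide +kernel)

theorem t3k42_ndy : NC (pe t3r42.dy (t1v t3c42)) :=
  NC.of (K := 70) (D := ⟨1, 1, 1, 7⟩) (Box.of 4 (by decide +kernel))
    (by decide +kernel)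

theorem t3k42_nt1 : NC (pe t3r42.t1 (t1v t3c42)) :=
  NC.of (K := 67) (D := ⟨1, 1, 1, 7⟩) (Box.of 4 (by decide +kernel))
    (by decide +kernel)

theorem t3k42_nt2 : NC (pe t3r42.t2 (t1v t3c42)) :=
  NC.of (K := 68) (D := ⟨1, 1, 1, 7⟩) (Box.of 4 (by decide +kernel))
    (by decide +kernel)

theorem t3k42_nty : NC (pe t3r42.ty (t1v t3c42)) :=
  NC.of (K := 72) (D := ⟨1, 1, 1, 7⟩) (Box.of 4 (by decide +kernel))
    (by decide +kernel)

theorem t3k42_nhz : NC (pe t3r42.hz (t1v t3c42)) :=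
  NC.of (K := 95) (D := ⟨1, 1, 1, 7⟩) (Box.of 18659 (by decide +kernel))
    (by decide +kernel)

theorem t3k42_xi : NC (eXi fW t3c42 t3e42 t3r42 (t1v t3c42)) :=
  NC.of (K := 272) (D := ⟨1, 1, 1, 22⟩) (Box.of 4 (by decide +kernel))
    (by decide +kernel)

theorem t3k42_om : NC (eOm fW t3r42 (t1v t3c42)) :=
  NC.of (K := 187) (D := ⟨1, 1, 1, 16⟩) (Box.of 291 (by decide +kernel))
    (by decide +kernel)

theorem t3k42_fin : NC (eFin dW t3c42 t3n42 t3r42 t3h42 (tcl t3c42)) :=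
  NC.of (K := 232) (D := ⟨1, 1, 1, 14⟩) (Box.of 4 (by decide +kernel))
    (by decide +kernel)

theorem t3k42_xdl : NC (qc t3e42.dl - pe t3d42.l.dl t3d42.eU) :=
  NC.of (K := 70) (D := ⟨1, 4, 1, 1⟩) (Box.of 4 (by decide +kernel))
    (by decide +kernel)

theorem t3k42_xeY : NC (qc t3e42.eY - pe (e4l t3d42.l.z) t3d42.eU) :=
  NC.of (K := 276) (D := ⟨1, 13, 1, 1⟩) (Box.of 4 (by decide +kernel))
    (by decide +kernel)

theorem t3k42_xgr : NC (qc t3d42.ga * ((1 + qc (3 / 5) * vX) * (1 + (t3d42.eg + hlf * t3d42.eg ^ 2))) + qc t3d42.gb - pe2 t3GR vX t3d42.eU) :=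
  NC.of (K := 246) (D := ⟨4, 11, 1, 1⟩) (Box.of 18688 (by decide +kernel))
    (by decide +kernel)

theorem t3k42_xhr : NC (qc t3d42.hb - pe2 t3HR vX t3d42.eU) :=
  NC.of (K := 255) (D := ⟨3, 12, 1, 1⟩) (Box.of 4 (by decide +kernel))
    (by decide +kernel)

theorem t3k42_xgs : NC (pe t3d42.gs t3d42.e1 - qc (8 / 5) * pe (e4l (ladd t3d42.ls.z t3d42.ls.dl)) t3d42.e1) :=
  NC.of (K := 284) (D := ⟨1, 1, 1, 13⟩) (Box.of 4 (by decide +kernel))
    (by decide +kernel)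

theorem t3k42_xd1 : NC (pe t3d42.d1 t3d42.e1 - t3d42.eA t3d42.eU t3d42.e1) :=
  NC.of (K := 278) (D := ⟨1, 12, 1, 12⟩) (Box.of 4 (by decide +kernel))
    (by decide +kernel)

theorem t3k42_xd2 : NC (pe t3d42.d2 t3d42.e1 - t3d42.eB t3d42.eU t3d42.e1) :=
  NC.of (K := 279) (D := ⟨1, 12, 1, 12⟩) (Box.of 4 (by decide +kernel))
    (by decide +kernel)

theorem t3k42_xt1 : NC (pe t3d42.t1 t3d42.e1 - t3d42.eAT t3d42.eU t3d42.e1) :=
  NC.of (K := 457) (D := ⟨1, 19, 1, 19⟩) (Box.of 4 (by decide +kernel))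
    (by decide +kernel)

theorem t3k42_xt2 : NC (pe t3d42.t2 t3d42.e1 - t3d42.eBT t3d42.eU t3d42.e1) :=
  NC.of (K := 459) (D := ⟨1, 19, 1, 19⟩) (Box.of 4 (by decide +kernel))
    (by decide +kernel)

theorem t3k42_xdy : NC (pe t3d42.dy t3d42.e1 - t3d42.eSD t3d42.eU t3d42.e1) :=
  NC.of (K := 435) (D := ⟨1, 18, 1, 12⟩) (Box.of 4 (by decide +kernel))
    (by decide +kernel)

theorem t3k42_xty : NC (pe t3d42.ty t3d42.e1 - t3d42.eST t3d42.eU t3d42.e1) :=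
  NC.of (K := 651) (D := ⟨1, 26, 1, 26⟩) (Box.of 4 (by decide +kernel))
    (by decide +kernel)

theorem t3k42_xd1s : NC (pe t3r42.d1 (t1v t3c42) - pe t3d42.d1 (Xcd.ew zW t3c42)) :=
  NC.of (K := 579) (D := ⟨1, 1, 1, 55⟩) (Box.of 4 (by decide +kernel))
    (by decide +kernel)

theorem t3k42_xd2s : NC (pe t3r42.d2 (t1v t3c42) - pe t3d42.d2 (Xcd.ew zW t3c42)) :=
  NC.of (K := 578) (D := ⟨1, 1, 1, 55⟩) (Box.of 4 (by decide +kernel))
    (by decide +kernel)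

theorem t3k42_xt1s : NC (pe t3r42.t1 (t1v t3c42) - pe t3d42.t1 (Xcd.ew zW t3c42)) :=
  NC.of (K := 579) (D := ⟨1, 1, 1, 55⟩) (Box.of 4 (by decide +kernel))
    (by decide +kernel)

theorem t3k42_xt2s : NC (pe t3r42.t2 (t1v t3c42) - pe t3d42.t2 (Xcd.ew zW t3c42)) :=
  NC.of (K := 582) (D := ⟨1, 1, 1, 55⟩) (Box.of 4 (by decide +kernel))
    (by decide +kernel)

theorem t3k42_xdys : NC (pe t3r42.dy (t1v t3c42) - pe t3d42.dy (Xcd.ew zW t3c42)) :=
  NC.of (K := 582) (D := ⟨1, 1, 1, 55⟩) (Box.of 4 (by decide +kernel))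
    (by decide +kernel)

theorem t3k42_xtys : NC (pe t3r42.ty (t1v t3c42) - pe t3d42.ty (Xcd.ew zW t3c42)) :=
  NC.of (K := 581) (D := ⟨1, 1, 1, 55⟩) (Box.of 4 (by decide +kernel))
    (by decide +kernel)

theorem t3k42_xhz : NC (pe t3r42.hz (t1v t3c42) - pe t3d42.c.dR (Xcd.ew zW t3c42)) :=
  NC.of (K := 497) (D := ⟨1, 1, 1, 46⟩) (Box.of 4 (by decide +kernel))
    (by decide +kernel)

theorem t3f42_ok : t3f42.ok V2L.y22 V2L.k22 V2L.nb V2L.la (10 ^ 30) 32 = true := by decide +kernel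

theorem t3k42_sg : t3c42.Sg := by
  constructor <;> decide +kernel

theorem t3k42_rgs : t3c42.Rgs where
  M := ⟨t3k42_M_r1, t3k42_M_r2, t3k42_M_r3, t3k42_M_r4⟩
  r0 := ⟨t3k42_r0_r1, t3k42_r0_r2, t3k42_r0_r3, t3k42_r0_r4⟩
  r1 := ⟨t3k42_r1_r1, t3k42_r1_r2, t3k42_r1_r3, t3k42_r1_r4⟩
  r2 := ⟨t3k42_r2_r1, t3k42_r2_r2, t3k42_r2_r3, t3k42_r2_r4⟩
  rc := ⟨t3k42_rc_r1, t3k42_rc_r2, t3k42_rc_r3, t3k42_rc_r4⟩
  rI := ⟨t3k42_rI_r1, t3k42_rI_r2, t3k42_rI_r3, t3k42_rI_r4⟩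
  rJ := ⟨t3k42_rJ_r1, t3k42_rJ_r2, t3k42_rJ_r3, t3k42_rJ_r4⟩

theorem t3k42_xn : t3e42.Ok t3c42 where
  lm := by decide +kernel
  dl0 := by decide +kernel
  dl1 := by decide +kernel
  e2 := by decide +kernel
  eY := by decide +kernel
  gE := ⟨t3k42_gE_r1, t3k42_gE_r2, t3k42_gE_r3, t3k42_gE_r4⟩

theorem t3k42_vl : t3c42.Vl dW qW where
  bt := by decide +kernel
  B0 := t3k42_B0
  E0 := t3k42_E0
  D0 := t3k42_D0
  Bh := t3k42_Bh
  Eh := t3k42_Eh
  Dh := t3k42_Dh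
  B1 := t3k42_B1
  E1 := t3k42_E1
  D1 := t3k42_D1

theorem t3k42_rat : t3n42.Rat t3c42 := by
  constructor <;> decide +kernel

theorem t3k42_ck : t3n42.Ck t3c42 := ⟨t3k42_l, t3k42_n⟩

theorem t3k42_fck : t3n42.Fck dW qW fW t3c42 := ⟨t3k42_rb, t3k42_kap⟩

theorem t3k42_w : Wcl zW kW yW t3al t3c42 t3n42 t3m42 where
  b2 := t3k42_wb2
  mb := t3k42_wmb
  th := t3k42_wth
  yb := t3k42_wyb
  mu := t3k42_wmu
  cj := t3k42_wcj
  mt1 := by decide +kernel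
  mt2 := by decide +kernel

theorem t3k42_ok : CelOk dW qW fW t3c42 t3n42 where
  s := t3k42_sg
  r := t3k42_rgs
  v := t3k42_vl
  rt := t3k42_rat
  k := t3k42_ck
  fc := t3k42_fck
  q01 := by decide +kernel
  q12 := by decide +kernel
  h2 := by decide +kernel

theorem t3k42_xr : t3r42.Ok fW t3c42 t3e42 where
  sD := by decide +kernel
  sT := by decide +kernel
  nd1 := t3k42_nd1
  nd2 := t3k42_nd2
  ndy := t3k42_ndy
  nt1 := t3k42_nt1
  nt2 := t3k42_nt2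
  nty := t3k42_nty
  nhz := t3k42_nhz
  xi := t3k42_xi
  om := t3k42_om

theorem t3k42_X : t3d42.Ck t3GR t3HR zW t3c42 t3e42 t3r42 where
  u0 := by decide +kernel
  u01 := by decide +kernel
  ul := by decide +kernel
  us := by decide +kernel
  uc := by decide +kernel
  ga0 := by decide +kernel
  kp0 := by decide +kernel
  lm := by decide +kernel
  dl := t3k42_xdl
  eY := t3k42_xeY
  gr := t3k42_xgr
  hr := t3k42_xhr
  gs := t3k42_xgs
  d1 := t3k42_xd1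
  d2 := t3k42_xd2
  t1 := t3k42_xt1
  t2 := t3k42_xt2
  dy := t3k42_xdy
  ty := t3k42_xty
  d1s := t3k42_xd1s
  d2s := t3k42_xd2s
  t1s := t3k42_xt1s
  t2s := t3k42_xt2s
  dys := t3k42_xdys
  tys := t3k42_xtys
  hz := t3k42_xhz

end Pool.Agent.RX.RCN.K
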