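import Pool.Agent.RX.RCN.T3D
import Pool.Agent.RX.RCN.T3Wq
import Pool.Agent.RX.RCN.T3X23
import Pool.Agent.RX.RCN.VLd

/-! Certificates (generated). -/

set_option autoImplicit false

namespace Pool.Agent.RX.RCN.K

open Set Pool.Agent.RX.RCM9 Pool.Agent.RX.RCM9.Bern Pool.Agent.RX.RCM9.Pk Xce

def t3c43 : Cel where
  t0 := 21 / 40
  t1 := 53 / 100
  C := 2049 / 2048
  th := 1113 / 2048
  B0 := 2085 / 2048
  Bh := 301 / 256
  B1 := 1195 / 1024
  D0 := 1587 / 4096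
  Dh := 85 / 256
  D1 := 1307 / 4096
  E0 := 1021 / 65536
  Eh := 113 / 8192
  E1 := 869 / 65536
  Q0 := 523 / 512
  Q1 := 1057 / 1024
  Q2 := 593 / 512
  Ac := 1055 / 1024
  gI := 1055 / 1024
  J := 1921 / 65536

def t3n43 : Chn where
  lb := 1029 / 1024
  nb := 343 / 1024
  Mb := 525 / 512
  b2 := 1061 / 1024
  Yb := 39 / 2048
  E2 := 133 / 128
  e1 := 349 / 256
  Z1 := 1103 / 1024
  Z2 := 161 / 256
  KB := 1085 / 1024
  cb := 69 / 64
  rb := 223 / 512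
  om := 263 / 256
  fb := 129 / 128
  kap := 2125 / 2048
  ab := 1029 / 1024

def t3e43 : Xge where
  lm := 3 / 5
  dl := 263 / 512
  e2 := 81 / 512
  eY := 2089 / 2048
  gE := 151 / 128

def t3r43 : Xr where
  d1 := [4371747 / 100000000, 1163807 / 100000000, 60557 / 1562500, 8422351 / 100000000, -10573787
    / 100000000, 16115819 / 100000000, -1508073 / 50000000]
  d2 := [1396563 / 100000000, 24153 / 390625, 779159 / 20000000, 11422543 / 20000000, -53477863 /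
    50000000, 24774707 / 20000000, -27024213 / 50000000]
  dy := [9385639 / 12500000, 5961781 / 20000000, 8999481 / 25000000, 165235331 / 50000000,
    -130365673 / 20000000, 707546023 / 100000000, -303748729 / 100000000]
  t1 := [131237 / 625000, -24014677 / 50000000, 57449 / 1562500, 108234317 / 100000000, -19646047
    / 20000000, 124341 / 2500000, 22414871 / 25000000]
  t2 := [917171 / 10000000, -15050933 / 100000000, -1153073 / 20000000, 116268431 / 100000000,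
    -5888449 / 4000000, 16734939 / 12500000, -11891319 / 25000000]
  ty := [251955001 / 100000000, -65812373 / 12500000, -496391549 / 100000000, 83638003 / 2000000,
    -560648457 / 10000000, 1242952537 / 50000000, 38491531 / 20000000]
  hz := [5861519 / 25000000, -1145223 / 2500000, -14798941 / 20000000, -615417 / 400000,
    1102145529 / 100000000, -1050939499 / 100000000, 85101127 / 100000000]
  om := [100396707 / 100000000, 103156873 / 100000000, -1428775527 / 100000000, 6254820553 /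
    100000000, -9743849397 / 50000000, 14635912751 / 25000000, -16592546723 / 12500000,
    86672887269 / 50000000, -96146319027 / 100000000]
  sD := 711 / 256
  sT := 639 / 256
  xi := [24297901 / 100000000, 70773569 / 50000000, -279506213 / 50000000, 7855449 / 2500000,
    429377791 / 10000000, -4554062357 / 20000000, 79929226211 / 100000000, -88880915897 /
    50000000, 219579915269 / 100000000, -57609341573 / 50000000]

def t3f43 : Dl where
  Ca := 1320251 / 2500000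
  Cv := 53321 / 100000
  k1 := 8812581 / 10000000
  ks := 861883 / 1000000
  dd := 0
  kp := 1 / 10000000
  e := [999999493063 / 1000000000000, -1464997240227 / 1000000000000, 835087962307 / 500000000000,
    -848054358837 / 500000000000, 404317276931 / 250000000000, -1414668709541 / 1000000000000,
    530005738969 / 500000000000, -18065188309 / 31250000000, 80770926801 / 500000000000]
  j1 := [-454747 / 1000000000, -3147853817 / 500000000, 2972273839 / 50000000, -15477143577 /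
    62500000, 550661933417 / 1000000000, -157789293879 / 250000000, 59071432857 / 200000000]
  nu := [148610287 / 1000000000, -13156797 / 50000000, 11135013 / 31250000, 14856569 / 125000000,
    -157850243 / 500000000, 105507051 / 125000000, -506296187 / 1000000000]
  k2 := [215471241 / 250000000, 226907633 / 1000000000, -69228237 / 250000000, -190351451 /
    1000000000, 70720113 / 200000000, -20570131 / 25000000, 108310439 / 200000000]
  dR := [4679719 / 20000000, -45617891 / 100000000, -7500143 / 10000000, -8650527 / 6250000,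
    205832859 / 20000000, -45972629 / 5000000]

def t3d43 : Xce where
  u0 := 52861 / 100000
  u1 := 53321 / 100000
  l := V2L.y23
  y := t3z23
  j := t3j23
  i := t3i23
  ls := t3y23
  k := V2L.k23
  c := t3f43
  ga := 43611 / 1000000
  gb := -17479 / 1000000
  hb := 297499 / 1000000
  gs := [160003533 / 100000000, 119999803 / 50000000, 45002883 / 25000000, 79474089 / 100000000,
    27234057 / 100000000, -13356133 / 100000000, -5042537 / 100000000]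
  d1 := [873639 / 20000000, 559349 / 50000000, 2348791 / 50000000, 2172791 / 100000000, 9079183 /
    100000000, -10293113 / 100000000, 977921 / 12500000]
  d2 := [173957 / 12500000, 6045243 / 100000000, 6350839 / 100000000, 949351 / 2500000, -44391357
    / 100000000, 17194899 / 50000000, -718691 / 6250000]
  dy := [75024327 / 100000000, 14528787 / 50000000, 49626239 / 100000000, 222578207 / 100000000,
    -36871933 / 12500000, 37881451 / 20000000, -9926999 / 20000000]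
  t1 := [20986497 / 100000000, -11951231 / 25000000, 1771663 / 100000000, 31046963 / 25000000,
    -166617469 / 100000000, 137481209 / 100000000, -1758183 / 25000000]
  t2 := [9166803 / 100000000, -3774767 / 25000000, -3901611 / 100000000, 20538481 / 20000000,
    -54778617 / 50000000, 92150679 / 100000000, -1537077 / 4000000]
  ty := [251829057 / 100000000, -262634499 / 50000000, -48739931 / 10000000, 823228173 / 20000000,
    -5518731567 / 100000000, 2569875751 / 100000000, -2929827 / 100000000]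

def t3m43 : ℚ := 521 / 1024

def t3h43 : ℚ := 67 / 125

theorem t3k43_M_r1 : NC (fM t3c43 (1 - eh) eh ek (elo t3c43.B0 t3c43.Bh eh) (elo t3c43.D0 t3c43.Dh ek) (elo t3c43.E0 t3c43.Eh ek)) :=
  NC.of (K := 32) (D := ⟨4, 3, 1, 1⟩) (Box.of 4 (by decide +kernel))
    (by decide +kernel)

theorem t3k43_M_r2 : NC (fM t3c43 eh (1 - eh) ek (ehi t3c43.Bh t3c43.B1 (1 - eh)) (elo t3c43.D0 t3c43.Dh ek) (elo t3c43.E0 t3c43.Eh ek)) :=
  NC.of (K := 32) (D := ⟨4, 3, 1, 1⟩) (Box.of 4 (by decide +kernel))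
    (by decide +kernel)

theorem t3k43_M_r3 : NC (fM t3c43 (1 - eh) ek eh (elo t3c43.B0 t3c43.Bh ek) (elo t3c43.D0 t3c43.Dh eh) (elo t3c43.E0 t3c43.Eh eh)) :=
  NC.of (K := 31) (D := ⟨4, 2, 1, 1⟩) (Box.of 4 (by decide +kernel))
    (by decide +kernel)

theorem t3k43_M_r4 : NC (fM t3c43 eh ek (1 - eh) (elo t3c43.B0 t3c43.Bh ek) (ehi t3c43.Dh t3c43.D1 (1 - eh)) (ehi t3c43.Eh t3c43.E1 (1 - eh))) :=
  NC.of (K := 31) (D := ⟨4, 2, 1, 1⟩) (Box.of 4 (by decide +kernel))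
    (by decide +kernel)

theorem t3k43_r0_r1 : NC (f0 t3c43 (1 - eh) eh ek (elo t3c43.B0 t3c43.Bh eh) (elo t3c43.D0 t3c43.Dh ek) (elo t3c43.E0 t3c43.Eh ek)) :=
  NC.of (K := 148) (D := ⟨13, 9, 1, 1⟩) (Box.of 4 (by decide +kernel))
    (by decide +kernel)

theorem t3k43_r0_r2 : NC (f0 t3c43 eh (1 - eh) ek (ehi t3c43.Bh t3c43.B1 (1 - eh)) (elo t3c43.D0 t3c43.Dh ek) (elo t3c43.E0 t3c43.Eh ek)) :=
  NC.of (K := 148) (D := ⟨13, 9, 1, 1⟩) (Box.of 4 (by decide +kernel))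
    (by decide +kernel)

theorem t3k43_r0_r3 : NC (f0 t3c43 (1 - eh) ek eh (elo t3c43.B0 t3c43.Bh ek) (elo t3c43.D0 t3c43.Dh eh) (elo t3c43.E0 t3c43.Eh eh)) :=
  NC.of (K := 143) (D := ⟨13, 5, 1, 1⟩) (Box.of 4 (by decide +kernel))
    (by decide +kernel)

theorem t3k43_r0_r4 : NC (f0 t3c43 eh ek (1 - eh) (elo t3c43.B0 t3c43.Bh ek) (ehi t3c43.Dh t3c43.D1 (1 - eh)) (ehi t3c43.Eh t3c43.E1 (1 - eh))) :=
  NC.of (K := 144) (D := ⟨13, 5, 1, 1⟩) (Box.of 4 (by decide +kernel))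
    (by decide +kernel)

theorem t3k43_r1_r1 : NC (f1 t3c43 (1 - eh) eh ek (elo t3c43.B0 t3c43.Bh eh) (elo t3c43.D0 t3c43.Dh ek) (elo t3c43.E0 t3c43.Eh ek)) :=
  NC.of (K := 251) (D := ⟨16, 9, 1, 1⟩) (Box.of 288 (by decide +kernel))
    (by decide +kernel)

theorem t3k43_r1_r2 : NC (f1 t3c43 eh (1 - eh) ek (ehi t3c43.Bh t3c43.B1 (1 - eh)) (elo t3c43.D0 t3c43.Dh ek) (elo t3c43.E0 t3c43.Eh ek)) :=
  NC.of (K := 222) (D := ⟨16, 9, 1, 1⟩) (Box.of 4 (by decide +kernel))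
    (by decide +kernel)

theorem t3k43_r1_r3 : NC (f1 t3c43 (1 - eh) ek eh (elo t3c43.B0 t3c43.Bh ek) (elo t3c43.D0 t3c43.Dh eh) (elo t3c43.E0 t3c43.Eh eh)) :=
  NC.of (K := 254) (D := ⟨16, 12, 1, 1⟩) (Box.of 288 (by decide +kernel))
    (by decide +kernel)

theorem t3k43_r1_r4 : NC (f1 t3c43 eh ek (1 - eh) (elo t3c43.B0 t3c43.Bh ek) (ehi t3c43.Dh t3c43.D1 (1 - eh)) (ehi t3c43.Eh t3c43.E1 (1 - eh))) :=
  NC.of (K := 227) (D := ⟨16, 12, 1, 1⟩) (Box.of 4 (by decide +kernel))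
    (by decide +kernel)

theorem t3k43_r2_r1 : NC (f2 t3c43 (1 - eh) eh ek (elo t3c43.B0 t3c43.Bh eh) (elo t3c43.D0 t3c43.Dh ek) (elo t3c43.E0 t3c43.Eh ek)) :=
  NC.of (K := 254) (D := ⟨16, 11, 1, 1⟩) (Box.of 288 (by decide +kernel))
    (by decide +kernel)

theorem t3k43_r2_r2 : NC (f2 t3c43 eh (1 - eh) ek (ehi t3c43.Bh t3c43.B1 (1 - eh)) (elo t3c43.D0 t3c43.Dh ek) (elo t3c43.E0 t3c43.Eh ek)) :=
  NC.of (K := 225) (D := ⟨16, 11, 1, 1⟩) (Box.of 4 (by decide +kernel))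
    (by decide +kernel)

theorem t3k43_r2_r3 : NC (f2 t3c43 (1 - eh) ek eh (elo t3c43.B0 t3c43.Bh ek) (elo t3c43.D0 t3c43.Dh eh) (elo t3c43.E0 t3c43.Eh eh)) :=
  NC.of (K := 255) (D := ⟨16, 12, 1, 1⟩) (Box.of 288 (by decide +kernel))
    (by decide +kernel)

theorem t3k43_r2_r4 : NC (f2 t3c43 eh ek (1 - eh) (elo t3c43.B0 t3c43.Bh ek) (ehi t3c43.Dh t3c43.D1 (1 - eh)) (ehi t3c43.Eh t3c43.E1 (1 - eh))) :=
  NC.of (K := 229) (D := ⟨16, 12, 1, 1⟩) (Box.of 4 (by decide +kernel))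
    (by decide +kernel)

theorem t3k43_rc_r1 : NC (fc t3c43 (1 - eh) eh ek (elo t3c43.B0 t3c43.Bh eh) (elo t3c43.D0 t3c43.Dh ek) (elo t3c43.E0 t3c43.Eh ek)) :=
  NC.of (K := 173) (D := ⟨13, 9, 1, 1⟩) (Box.of 288 (by decide +kernel))
    (by decide +kernel)

theorem t3k43_rc_r2 : NC (fc t3c43 eh (1 - eh) ek (ehi t3c43.Bh t3c43.B1 (1 - eh)) (elo t3c43.D0 t3c43.Dh ek) (elo t3c43.E0 t3c43.Eh ek)) :=
  NC.of (K := 150) (D := ⟨13, 9, 1, 1⟩) (Box.of 4 (by decide +kernel))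
    (by decide +kernel)

theorem t3k43_rc_r3 : NC (fc t3c43 (1 - eh) ek eh (elo t3c43.B0 t3c43.Bh ek) (elo t3c43.D0 t3c43.Dh eh) (elo t3c43.E0 t3c43.Eh eh)) :=
  NC.of (K := 168) (D := ⟨13, 5, 1, 1⟩) (Box.of 288 (by decide +kernel))
    (by decide +kernel)

theorem t3k43_rc_r4 : NC (fc t3c43 eh ek (1 - eh) (elo t3c43.B0 t3c43.Bh ek) (ehi t3c43.Dh t3c43.D1 (1 - eh)) (ehi t3c43.Eh t3c43.E1 (1 - eh))) :=
  NC.of (K := 146) (D := ⟨13, 5, 1, 1⟩) (Box.of 4 (by decide +kernel))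
    (by decide +kernel)

theorem t3k43_rI_r1 : NC (fI t3c43 (1 - eh) eh ek (elo t3c43.B0 t3c43.Bh eh) (elo t3c43.D0 t3c43.Dh ek) (elo t3c43.E0 t3c43.Eh ek)) :=
  NC.of (K := 138) (D := ⟨13, 9, 1, 1⟩) (Box.of 4 (by decide +kernel))
    (by decide +kernel)

theorem t3k43_rI_r2 : NC (fI t3c43 eh (1 - eh) ek (ehi t3c43.Bh t3c43.B1 (1 - eh)) (elo t3c43.D0 t3c43.Dh ek) (elo t3c43.E0 t3c43.Eh ek)) :=
  NC.of (K := 138) (D := ⟨13, 9, 1, 1⟩) (Box.of 4 (by decide +kernel))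
    (by decide +kernel)

theorem t3k43_rI_r3 : NC (fI t3c43 (1 - eh) ek eh (elo t3c43.B0 t3c43.Bh ek) (elo t3c43.D0 t3c43.Dh eh) (elo t3c43.E0 t3c43.Eh eh)) :=
  NC.of (K := 156) (D := ⟨13, 5, 1, 1⟩) (Box.of 288 (by decide +kernel))
    (by decide +kernel)

theorem t3k43_rI_r4 : NC (fI t3c43 eh ek (1 - eh) (elo t3c43.B0 t3c43.Bh ek) (ehi t3c43.Dh t3c43.D1 (1 - eh)) (ehi t3c43.Eh t3c43.E1 (1 - eh))) :=
  NC.of (K := 135) (D := ⟨13, 5, 1, 1⟩) (Box.of 4 (by decide +kernel))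
    (by decide +kernel)

theorem t3k43_rJ_r1 : NC (fJ t3c43 (1 - eh) eh ek (elo t3c43.B0 t3c43.Bh eh) (elo t3c43.D0 t3c43.Dh ek) (elo t3c43.E0 t3c43.Eh ek)) :=
  NC.of (K := 78) (D := ⟨7, 5, 1, 1⟩) (Box.of 4 (by decide +kernel))
    (by decide +kernel)

theorem t3k43_rJ_r2 : NC (fJ t3c43 eh (1 - eh) ek (ehi t3c43.Bh t3c43.B1 (1 - eh)) (elo t3c43.D0 t3c43.Dh ek) (elo t3c43.E0 t3c43.Eh ek)) :=
  NC.of (K := 78) (D := ⟨7, 5, 1, 1⟩) (Box.of 4 (by decide +kernel))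
    (by decide +kernel)

theorem t3k43_rJ_r3 : NC (fJ t3c43 (1 - eh) ek eh (elo t3c43.B0 t3c43.Bh ek) (elo t3c43.D0 t3c43.Dh eh) (elo t3c43.E0 t3c43.Eh eh)) :=
  NC.of (K := 76) (D := ⟨7, 3, 1, 1⟩) (Box.of 4 (by decide +kernel))
    (by decide +kernel)

theorem t3k43_rJ_r4 : NC (fJ t3c43 eh ek (1 - eh) (elo t3c43.B0 t3c43.Bh ek) (ehi t3c43.Dh t3c43.D1 (1 - eh)) (ehi t3c43.Eh t3c43.E1 (1 - eh))) :=
  NC.of (K := 76) (D := ⟨7, 3, 1, 1⟩) (Box.of 4 (by decide +kernel))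
    (by decide +kernel)

theorem t3k43_gE_r1 : NC (fE t3c43 t3e43 (1 - eh) eh ek (elo t3c43.B0 t3c43.Bh eh) (elo t3c43.D0 t3c43.Dh ek) (elo t3c43.E0 t3c43.Eh ek)) :=
  NC.of (K := 156) (D := ⟨13, 9, 1, 1⟩) (Box.of 288 (by decide +kernel))
    (by decide +kernel)

theorem t3k43_gE_r2 : NC (fE t3c43 t3e43 eh (1 - eh) ek (ehi t3c43.Bh t3c43.B1 (1 - eh)) (elo t3c43.D0 t3c43.Dh ek) (elo t3c43.E0 t3c43.Eh ek)) :=
  NC.of (K := 134) (D := ⟨13, 9, 1, 1⟩) (Box.of 4 (by decide +kernel))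
    (by decide +kernel)

theorem t3k43_gE_r3 : NC (fE t3c43 t3e43 (1 - eh) ek eh (elo t3c43.B0 t3c43.Bh ek) (elo t3c43.D0 t3c43.Dh eh) (elo t3c43.E0 t3c43.Eh eh)) :=
  NC.of (K := 166) (D := ⟨13, 7, 1, 1⟩) (Box.of 18528 (by decide +kernel))
    (by decide +kernel)

theorem t3k43_gE_r4 : NC (fE t3c43 t3e43 eh ek (1 - eh) (elo t3c43.B0 t3c43.Bh ek) (ehi t3c43.Dh t3c43.D1 (1 - eh)) (ehi t3c43.Eh t3c43.E1 (1 - eh))) :=
  NC.of (K := 133) (D := ⟨13, 7, 1, 1⟩) (Box.of 4 (by decide +kernel))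
    (by decide +kernel)

theorem t3k43_B0 : NC (kB dW 1 0 t3c43.B0 (tcl t3c43)) :=
  NC.of (K := 102) (D := ⟨1, 1, 1, 9⟩) (Box.of 4 (by decide +kernel))
    (by decide +kernel)

theorem t3k43_E0 : NC (kE dW qW qW.p0 qW.q0 t3c43.E0 (tcl t3c43)) :=
  NC.of (K := 227) (D := ⟨1, 1, 1, 19⟩) (Box.of 4 (by decide +kernel))
    (by decide +kernel)

theorem t3k43_D0 : NC (kD dW qW 1 0 qW.p0 qW.q0 t3c43.D0 (tcl t3c43)) :=
  NC.of (K := 344) (D := ⟨1, 1, 1, 20⟩) (Box.of 4 (by decide +kernel))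
    (by decide +kernel)

theorem t3k43_Bh : NC (kB dW (1 / 2) (1 / 2) t3c43.Bh (tcl t3c43)) :=
  NC.of (K := 106) (D := ⟨1, 1, 1, 9⟩) (Box.of 4 (by decide +kernel))
    (by decide +kernel)

theorem t3k43_Eh : NC (kE dW qW qW.ph qW.qh t3c43.Eh (tcl t3c43)) :=
  NC.of (K := 230) (D := ⟨1, 1, 1, 19⟩) (Box.of 4 (by decide +kernel))
    (by decide +kernel)

theorem t3k43_Dh : NC (kD dW qW (1 / 2) (1 / 2) qW.ph qW.qh t3c43.Dh (tcl t3c43)) :=
  NC.of (K := 348) (D := ⟨1, 1, 1, 20⟩) (Box.of 4 (by decide +kernel))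
    (by decide +kernel)

theorem t3k43_B1 : NC (kB dW 0 (1 / 2) t3c43.B1 (tcl t3c43)) :=
  NC.of (K := 106) (D := ⟨1, 1, 1, 9⟩) (Box.of 4 (by decide +kernel))
    (by decide +kernel)

theorem t3k43_E1 : NC (kE dW qW qW.p1 qW.q1 t3c43.E1 (tcl t3c43)) :=
  NC.of (K := 230) (D := ⟨1, 1, 1, 19⟩) (Box.of 4 (by decide +kernel))
    (by decide +kernel)

theorem t3k43_D1 : NC (kD dW qW 0 (1 / 2) qW.p1 qW.q1 t3c43.D1 (tcl t3c43)) :=
  NC.of (K := 348) (D := ⟨1, 1, 1, 20⟩) (Box.of 4 (by decide +kernel))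
    (by decide +kernel)

theorem t3k43_l : NC (qc t3n43.lb - (1 - vX) * pe (exl t3c43.th) vX ^ 2) :=
  NC.of (K := 150) (D := ⟨10, 1, 1, 1⟩) (Box.of 18688 (by decide +kernel))
    (by decide +kernel)

theorem t3k43_n : NC (qc t3n43.nb - vX * (1 - vX) * pe (exl t3c43.th) vX) :=
  NC.of (K := 110) (D := ⟨7, 1, 1, 1⟩) (Box.of 76677152 (by decide +kernel))
    (by decide +kernel)

theorem t3k43_rb : NC (krb t3n43 fW (t1v t3c43)) :=
  NC.of (K := 187) (D := ⟨1, 1, 1, 16⟩) (Box.of 4 (by decide +kernel))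
    (by decide +kernel)

theorem t3k43_kap : NC (kkap dW qW t3n43 (tcl t3c43)) :=
  NC.of (K := 102) (D := ⟨1, 1, 1, 9⟩) (Box.of 4 (by decide +kernel))
    (by decide +kernel)

theorem t3k43_wb2 : NC (qc t3n43.b2 - pe2 kW.QB (vZ * t1v t3c43) (t1v t3c43)) :=
  NC.of (K := 157) (D := ⟨1, 6, 1, 11⟩) (Box.of 18531 (by decide +kernel))
    (by decide +kernel)

theorem t3k43_wmb : NC (qc t3n43.Mb - pe zW.mb (t1v t3c43)) :=
  NC.of (K := 163) (D := ⟨1, 1, 1, 9⟩) (Box.of 76429539 (by decide +kernel))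
    (by decide +kernel)

theorem t3k43_wth : NC (qc (t3c43.th / t3c43.t1) - pe2 zW.Qt (vZ * t1v t3c43) (t1v t3c43)) :=
  NC.of (K := 185) (D := ⟨1, 6, 1, 11⟩) (Box.of 1194211 (by decide +kernel))
    (by decide +kernel)

theorem t3k43_wyb : NC (qc t3n43.Yb - (t1v t3c43 - vZ * t1v t3c43) ^ 3 * pe2 yW.QY (vZ * t1v t3c43) (t1v t3c43)) :=
  NC.of (K := 132) (D := ⟨1, 8, 1, 12⟩) (Box.of 4 (by decide +kernel))
    (by decide +kernel)

theorem t3k43_wmu : NC (qc t3m43 - pe t3al (tcl t3c43) * (1 + hlf * tcl t3c43)) :=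
  NC.of (K := 99) (D := ⟨1, 1, 1, 9⟩) (Box.of 4 (by decide +kernel))
    (by decide +kernel)

theorem t3k43_wcj : NC (qc t3c43.C * ((6 - 3 * vX) * (1 - qc t3m43 * vX)) - (6 - 6 * vX + vX ^ 2)) :=
  NC.of (K := 50) (D := ⟨3, 1, 1, 1⟩) (Box.of 76693504 (by decide +kernel))
    (by decide +kernel)

theorem t3k43_nd1 : NC (pe t3r43.d1 (t1v t3c43)) :=
  NC.of (K := 72) (D := ⟨1, 1, 1, 7⟩) (Box.of 4 (by decide +kernel))
    (by decide +kernel)

theorem t3k43_nd2 : NC (pe t3r43.d2 (t1v t3c43)) :=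
  NC.of (K := 74) (D := ⟨1, 1, 1, 7⟩) (Box.of 4 (by decide +kernel))
    (by decide +kernel)

theorem t3k43_ndy : NC (pe t3r43.dy (t1v t3c43)) :=
  NC.of (K := 78) (D := ⟨1, 1, 1, 7⟩) (Box.of 4 (by decide +kernel))
    (by decide +kernel)

theorem t3k43_nt1 : NC (pe t3r43.t1 (t1v t3c43)) :=
  NC.of (K := 74) (D := ⟨1, 1, 1, 7⟩) (Box.of 4 (by decide +kernel))
    (by decide +kernel)

theorem t3k43_nt2 : NC (pe t3r43.t2 (t1v t3c43)) :=
  NC.of (K := 74) (D := ⟨1, 1, 1, 7⟩) (Box.of 4 (by decide +kernel))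
    (by decide +kernel)

theorem t3k43_nty : NC (pe t3r43.ty (t1v t3c43)) :=
  NC.of (K := 79) (D := ⟨1, 1, 1, 7⟩) (Box.of 4 (by decide +kernel))
    (by decide +kernel)

theorem t3k43_nhz : NC (pe t3r43.hz (t1v t3c43)) :=
  NC.of (K := 103) (D := ⟨1, 1, 1, 7⟩) (Box.of 18659 (by decide +kernel))
    (by decide +kernel)

theorem t3k43_xi : NC (eXi fW t3c43 t3e43 t3r43 (t1v t3c43)) :=
  NC.of (K := 340) (D := ⟨1, 1, 1, 22⟩) (Box.of 291 (by decide +kernel))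
    (by decide +kernel)

theorem t3k43_om : NC (eOm fW t3r43 (t1v t3c43)) :=
  NC.of (K := 207) (D := ⟨1, 1, 1, 16⟩) (Box.of 291 (by decide +kernel))
    (by decide +kernel)

theorem t3k43_fin : NC (eFin dW t3c43 t3n43 t3r43 t3h43 (tcl t3c43)) :=
  NC.of (K := 231) (D := ⟨1, 1, 1, 14⟩) (Box.of 4 (by decide +kernel))
    (by decide +kernel)

theorem t3k43_xdl : NC (qc t3e43.dl - pe t3d43.l.dl t3d43.eU) :=
  NC.of (K := 63) (D := ⟨1, 4, 1, 1⟩) (Box.of 4 (by decide +kernel))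
    (by decide +kernel)

theorem t3k43_xeY : NC (qc t3e43.eY - pe (e4l t3d43.l.z) t3d43.eU) :=
  NC.of (K := 248) (D := ⟨1, 13, 1, 1⟩) (Box.of 4 (by decide +kernel))
    (by decide +kernel)

theorem t3k43_xgr : NC (qc t3d43.ga * ((1 + qc (3 / 5) * vX) * (1 + (t3d43.eg + hlf * t3d43.eg ^ 2))) + qc t3d43.gb - pe2 t3GR vX t3d43.eU) :=
  NC.of (K := 223) (D := ⟨4, 11, 1, 1⟩) (Box.of 18688 (by decide +kernel))
    (by decide +kernel)

theorem t3k43_xhr : NC (qc t3d43.hb - pe2 t3HR vX t3d43.eU) :=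
  NC.of (K := 229) (D := ⟨3, 12, 1, 1⟩) (Box.of 4 (by decide +kernel))
    (by decide +kernel)

theorem t3k43_xgs : NC (pe t3d43.gs t3d43.e1 - qc (8 / 5) * pe (e4l (ladd t3d43.ls.z t3d43.ls.dl)) t3d43.e1) :=
  NC.of (K := 257) (D := ⟨1, 1, 1, 13⟩) (Box.of 4 (by decide +kernel))
    (by decide +kernel)

theorem t3k43_xd1 : NC (pe t3d43.d1 t3d43.e1 - t3d43.eA t3d43.eU t3d43.e1) :=
  NC.of (K := 251) (D := ⟨1, 12, 1, 12⟩) (Box.of 4 (by decide +kernel))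
    (by decide +kernel)

theorem t3k43_xd2 : NC (pe t3d43.d2 t3d43.e1 - t3d43.eB t3d43.eU t3d43.e1) :=
  NC.of (K := 254) (D := ⟨1, 12, 1, 12⟩) (Box.of 4 (by decide +kernel))
    (by decide +kernel)

theorem t3k43_xt1 : NC (pe t3d43.t1 t3d43.e1 - t3d43.eAT t3d43.eU t3d43.e1) :=
  NC.of (K := 415) (D := ⟨1, 19, 1, 19⟩) (Box.of 4 (by decide +kernel))
    (by decide +kernel)

theorem t3k43_xt2 : NC (pe t3d43.t2 t3d43.e1 - t3d43.eBT t3d43.eU t3d43.e1) :=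
  NC.of (K := 414) (D := ⟨1, 19, 1, 19⟩) (Box.of 4 (by decide +kernel))
    (by decide +kernel)

theorem t3k43_xdy : NC (pe t3d43.dy t3d43.e1 - t3d43.eSD t3d43.eU t3d43.e1) :=
  NC.of (K := 420) (D := ⟨1, 19, 1, 13⟩) (Box.of 4 (by decide +kernel))
    (by decide +kernel)

theorem t3k43_xty : NC (pe t3d43.ty t3d43.e1 - t3d43.eST t3d43.eU t3d43.e1) :=
  NC.of (K := 617) (D := ⟨1, 27, 1, 27⟩) (Box.of 4 (by decide +kernel))
    (by decide +kernel)

theorem t3k43_xd1s : NC (pe t3r43.d1 (t1v t3c43) - pe t3d43.d1 (Xcd.ew zW t3c43)) :=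
  NC.of (K := 656) (D := ⟨1, 1, 1, 55⟩) (Box.of 4 (by decide +kernel))
    (by decide +kernel)

theorem t3k43_xd2s : NC (pe t3r43.d2 (t1v t3c43) - pe t3d43.d2 (Xcd.ew zW t3c43)) :=
  NC.of (K := 656) (D := ⟨1, 1, 1, 55⟩) (Box.of 4 (by decide +kernel))
    (by decide +kernel)

theorem t3k43_xt1s : NC (pe t3r43.t1 (t1v t3c43) - pe t3d43.t1 (Xcd.ew zW t3c43)) :=
  NC.of (K := 658) (D := ⟨1, 1, 1, 55⟩) (Box.of 4 (by decide +kernel))
    (by decide +kernel)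

theorem t3k43_xt2s : NC (pe t3r43.t2 (t1v t3c43) - pe t3d43.t2 (Xcd.ew zW t3c43)) :=
  NC.of (K := 657) (D := ⟨1, 1, 1, 55⟩) (Box.of 4 (by decide +kernel))
    (by decide +kernel)

theorem t3k43_xdys : NC (pe t3r43.dy (t1v t3c43) - pe t3d43.dy (Xcd.ew zW t3c43)) :=
  NC.of (K := 659) (D := ⟨1, 1, 1, 55⟩) (Box.of 4 (by decide +kernel))
    (by decide +kernel)

theorem t3k43_xtys : NC (pe t3r43.ty (t1v t3c43) - pe t3d43.ty (Xcd.ew zW t3c43)) :=
  NC.of (K := 663) (D := ⟨1, 1, 1, 55⟩) (Box.of 4 (by decide +kernel))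
    (by decide +kernel)

theorem t3k43_xhz : NC (pe t3r43.hz (t1v t3c43) - pe t3d43.c.dR (Xcd.ew zW t3c43)) :=
  NC.of (K := 556) (D := ⟨1, 1, 1, 46⟩) (Box.of 4 (by decide +kernel))
    (by decide +kernel)

theorem t3f43_ok : t3f43.ok V2L.y23 V2L.k23 V2L.nb V2L.la (10 ^ 30) 32 = true := by decide +kernel

theorem t3k43_sg : t3c43.Sg := by
  constructor <;> decide +kernel

theorem t3k43_rgs : t3c43.Rgs where
  M := ⟨t3k43_M_r1, t3k43_M_r2, t3k43_M_r3, t3k43_M_r4⟩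
  r0 := ⟨t3k43_r0_r1, t3k43_r0_r2, t3k43_r0_r3, t3k43_r0_r4⟩
  r1 := ⟨t3k43_r1_r1, t3k43_r1_r2, t3k43_r1_r3, t3k43_r1_r4⟩
  r2 := ⟨t3k43_r2_r1, t3k43_r2_r2, t3k43_r2_r3, t3k43_r2_r4⟩
  rc := ⟨t3k43_rc_r1, t3k43_rc_r2, t3k43_rc_r3, t3k43_rc_r4⟩
  rI := ⟨t3k43_rI_r1, t3k43_rI_r2, t3k43_rI_r3, t3k43_rI_r4⟩
  rJ := ⟨t3k43_rJ_r1, t3k43_rJ_r2, t3k43_rJ_r3, t3k43_rJ_r4⟩

theorem t3k43_xn : t3e43.Ok t3c43 where
  lm := by decide +kernel
  dl0 := by decide +kernel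
  dl1 := by decide +kernel
  e2 := by decide +kernel
  eY := by decide +kernel
  gE := ⟨t3k43_gE_r1, t3k43_gE_r2, t3k43_gE_r3, t3k43_gE_r4⟩

theorem t3k43_vl : t3c43.Vl dW qW where
  bt := by decide +kernel
  B0 := t3k43_B0
  E0 := t3k43_E0
  D0 := t3k43_D0
  Bh := t3k43_Bh
  Eh := t3k43_Eh
  Dh := t3k43_Dh
  B1 := t3k43_B1
  E1 := t3k43_E1
  D1 := t3k43_D1

theorem t3k43_rat : t3n43.Rat t3c43 := by
  constructor <;> decide +kernel

theorem t3k43_ck : t3n43.Ck t3c43 := ⟨t3k43_l, t3k43_n⟩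

theorem t3k43_fck : t3n43.Fck dW qW fW t3c43 := ⟨t3k43_rb, t3k43_kap⟩

theorem t3k43_w : Wcl zW kW yW t3al t3c43 t3n43 t3m43 where
  b2 := t3k43_wb2
  mb := t3k43_wmb
  th := t3k43_wth
  yb := t3k43_wyb
  mu := t3k43_wmu
  cj := t3k43_wcj
  mt1 := by decide +kernel
  mt2 := by decide +kernel

theorem t3k43_ok : CelOk dW qW fW t3c43 t3n43 where
  s := t3k43_sg
  r := t3k43_rgs
  v := t3k43_vl
  rt := t3k43_rat
  k := t3k43_ck
  fc := t3k43_fck
  q01 := by decide +kernel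
  q12 := by decide +kernel
  h2 := by decide +kernel

theorem t3k43_xr : t3r43.Ok fW t3c43 t3e43 where
  sD := by decide +kernel
  sT := by decide +kernel
  nd1 := t3k43_nd1
  nd2 := t3k43_nd2
  ndy := t3k43_ndy
  nt1 := t3k43_nt1
  nt2 := t3k43_nt2
  nty := t3k43_nty
  nhz := t3k43_nhz
  xi := t3k43_xi
  om := t3k43_om

theorem t3k43_X : t3d43.Ck t3GR t3HR zW t3c43 t3e43 t3r43 where
  u0 := by decide +kernel
  u01 := by decide +kernel
  ul := by decide +kernel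
  us := by decide +kernel
  uc := by decide +kernel
  ga0 := by decide +kernel
  kp0 := by decide +kernel
  lm := by decide +kernel
  dl := t3k43_xdl
  eY := t3k43_xeY
  gr := t3k43_xgr
  hr := t3k43_xhr
  gs := t3k43_xgs
  d1 := t3k43_xd1
  d2 := t3k43_xd2
  t1 := t3k43_xt1
  t2 := t3k43_xt2
  dy := t3k43_xdy
  ty := t3k43_xty
  d1s := t3k43_xd1s
  d2s := t3k43_xd2s
  t1s := t3k43_xt1s
  t2s := t3k43_xt2s
  dys := t3k43_xdys
  tys := t3k43_xtys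
  hz := t3k43_xhz

end Pool.Agent.RX.RCN.K
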