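import Pool.Agent.RX.RCN.T3D
import Pool.Agent.RX.RCN.T3Wq
import Pool.Agent.RX.RCN.T3X24
import Pool.Agent.RX.RCN.VLd

/-! Certificates (generated). -/

set_option autoImplicit false

namespace Pool.Agent.RX.RCN.K

open Set Pool.Agent.RX.RCM9 Pool.Agent.RX.RCM9.Bern Pool.Agent.RX.RCM9.Pk Xce

def t3c44 : Cel where
  t0 := 53 / 100
  t1 := 107 / 200
  C := 1025 / 1024
  th := 2247 / 4096
  B0 := 2079 / 2048
  Bh := 1195 / 1024
  B1 := 2375 / 2048
  D0 := 799 / 2048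
  Dh := 343 / 1024
  D1 := 1319 / 4096
  E0 := 265 / 16384
  Eh := 941 / 65536
  E1 := 113 / 8192
  Q0 := 1043 / 1024
  Q1 := 1055 / 1024
  Q2 := 297 / 256
  Ac := 263 / 256
  gI := 527 / 512
  J := 2001 / 65536

def t3n44 : Chn where
  lb := 515 / 512
  nb := 43 / 128
  Mb := 525 / 512
  b2 := 1063 / 1024
  Yb := 5 / 256
  E2 := 1065 / 1024
  e1 := 175 / 128
  Z1 := 1101 / 1024
  Z2 := 161 / 256
  KB := 1087 / 1024
  cb := 1105 / 1024
  rb := 225 / 512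
  om := 263 / 256
  fb := 129 / 128
  kap := 4255 / 4096
  ab := 1029 / 1024

def t3e44 : Xge where
  lm := 3 / 5
  dl := 2123 / 4096
  e2 := 2643 / 16384
  eY := 4181 / 4096
  gE := 151 / 128

def t3r44 : Xr where
  d1 := [4496971 / 100000000, 626041 / 50000000, 1881077 / 50000000, 5393153 / 50000000, -9712199
    / 50000000, 15912521 / 50000000, -1329211 / 10000000]
  d2 := [97309 / 6250000, 329183 / 5000000, 2905073 / 100000000, 65274903 / 100000000, -8310449 /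
    6250000, 166967531 / 100000000, -81341459 / 100000000]
  dy := [81814877 / 100000000, 8214997 / 25000000, 33719757 / 100000000, 47905011 / 12500000,
    -202844889 / 25000000, 481361901 / 50000000, -92552609 / 20000000]
  t1 := [5364717 / 25000000, -48050383 / 100000000, 311331 / 25000000, 116439641 / 100000000,
    -59427549 / 50000000, 7162677 / 20000000, 70194567 / 100000000]
  t2 := [9672811 / 100000000, -7556079 / 50000000, -4094597 / 50000000, 25534507 / 20000000,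
    -176823879 / 100000000, 22509407 / 12500000, -75785339 / 100000000]
  ty := [269003141 / 100000000, -533476169 / 100000000, -157386143 / 25000000, 4640529841 /
    100000000, -6267440417 / 100000000, 1525329821 / 50000000, -543821 / 1000000]
  hz := [23919551 / 100000000, -19614687 / 100000000, -71700253 / 10000000, 5417501851 /
    100000000, -20158089831 / 100000000, 35582280723 / 100000000, -23269759073 / 100000000]
  om := [100396707 / 100000000, 103226927 / 100000000, -715945667 / 50000000, 3153453751 /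
    50000000, -3982158431 / 20000000, 30196975377 / 50000000, -137191304731 / 100000000,
    35777506247 / 20000000, -49467511541 / 50000000]
  sD := 725 / 256
  sT := 163 / 64
  xi := [12968553 / 50000000, 37062801 / 25000000, -554034433 / 100000000, -408950659 / 100000000,
    11445237081 / 100000000, -1091743723 / 2000000, 154341431019 / 100000000, -137155115107 /
    50000000, 291121511659 / 100000000, -142625052747 / 100000000]

def t3f44 : Dl where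
  Ca := 5332081 / 10000000
  Cv := 269153 / 500000
  k1 := 2194389 / 2500000
  ks := 85861 / 100000
  dd := 0
  kp := 1 / 10000000
  e := [999999492343 / 1000000000000, -735553162719 / 500000000000, 420932390607 / 250000000000,
    -343340634767 / 200000000000, 410574996549 / 250000000000, -35992487977 / 25000000000,
    107879615973 / 100000000000, -117343724959 / 200000000000, 815556531 / 5000000000]
  j1 := [-68617 / 1000000000, -1225920527 / 200000000, 57571880159 / 1000000000, -58906534773 /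
    250000000, 508064986907 / 1000000000, -556719186129 / 1000000000, 245901488219 / 1000000000]
  nu := [152413071 / 1000000000, -264332217 / 1000000000, 351127329 / 1000000000, 138797441 /
    1000000000, -72465501 / 200000000, 89920093 / 100000000, -529575747 / 1000000000]
  k2 := [42930573 / 50000000, 113540881 / 500000000, -135530083 / 500000000, -207025891 /
    1000000000, 392277609 / 1000000000, -868485863 / 1000000000, 560537501 / 1000000000]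
  dR := [23871797 / 100000000, -20216579 / 100000000, -697254167 / 100000000, 2618868951 /
    50000000, -19414830743 / 100000000, 34165864647 / 100000000, -22269386043 / 100000000]

def t3d44 : Xce where
  u0 := 533717 / 1000000
  u1 := 269153 / 500000
  l := V2L.y24
  y := t3z24
  j := t3j24
  i := t3i24
  ls := t3y24
  k := V2L.k24
  c := t3f44
  ga := 44859 / 1000000
  gb := -8889 / 500000
  hb := 62813 / 200000
  gs := [4000089 / 2500000, 239999581 / 100000000, 180012161 / 100000000, 7946849 / 10000000,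
    5451269 / 20000000, -267933 / 2000000, -40121 / 800000]
  d1 := [4493277 / 100000000, 596657 / 50000000, 488843 / 10000000, 501357 / 25000000, 9687043 /
    100000000, -5414219 / 50000000, 1592599 / 20000000]
  d2 := [387933 / 25000000, 6409989 / 100000000, 3074741 / 50000000, 7915853 / 20000000, -45901563
    / 100000000, 35385537 / 100000000, -5896717 / 50000000]
  dy := [408743 / 500000, 318833 / 1000000, 52227651 / 100000000, 14681611 / 6250000, -152431469 /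
    50000000, 19056419 / 10000000, -48378701 / 100000000]
  t1 := [10723601 / 50000000, -23912549 / 50000000, -82371 / 12500000, 5295943 / 4000000,
    -23390561 / 12500000, 20963613 / 12500000, -5146291 / 20000000]
  t2 := [9667599 / 100000000, -15194529 / 100000000, -5532139 / 100000000, 53793471 / 50000000,
    -115058329 / 100000000, 48575401 / 50000000, -20156637 / 50000000]
  ty := [134434327 / 50000000, -133114699 / 25000000, -614426061 / 100000000, 9055103 / 200000,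
    -6015812867 / 100000000, 2867441089 / 100000000, -85078789 / 100000000]

def t3m44 : ℚ := 263 / 512

def t3h44 : ℚ := 27 / 50

theorem t3k44_M_r1 : NC (fM t3c44 (1 - eh) eh ek (elo t3c44.B0 t3c44.Bh eh) (elo t3c44.D0 t3c44.Dh ek) (elo t3c44.E0 t3c44.Eh ek)) :=
  NC.of (K := 32) (D := ⟨4, 3, 1, 1⟩) (Box.of 4 (by decide +kernel))
    (by decide +kernel)

theorem t3k44_M_r2 : NC (fM t3c44 eh (1 - eh) ek (ehi t3c44.Bh t3c44.B1 (1 - eh)) (elo t3c44.D0 t3c44.Dh ek) (elo t3c44.E0 t3c44.Eh ek)) :=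
  NC.of (K := 32) (D := ⟨4, 3, 1, 1⟩) (Box.of 4 (by decide +kernel))
    (by decide +kernel)

theorem t3k44_M_r3 : NC (fM t3c44 (1 - eh) ek eh (elo t3c44.B0 t3c44.Bh ek) (elo t3c44.D0 t3c44.Dh eh) (elo t3c44.E0 t3c44.Eh eh)) :=
  NC.of (K := 31) (D := ⟨4, 2, 1, 1⟩) (Box.of 4 (by decide +kernel))
    (by decide +kernel)

theorem t3k44_M_r4 : NC (fM t3c44 eh ek (1 - eh) (elo t3c44.B0 t3c44.Bh ek) (ehi t3c44.Dh t3c44.D1 (1 - eh)) (ehi t3c44.Eh t3c44.E1 (1 - eh))) :=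
  NC.of (K := 32) (D := ⟨4, 2, 1, 1⟩) (Box.of 4 (by decide +kernel))
    (by decide +kernel)

theorem t3k44_r0_r1 : NC (f0 t3c44 (1 - eh) eh ek (elo t3c44.B0 t3c44.Bh eh) (elo t3c44.D0 t3c44.Dh ek) (elo t3c44.E0 t3c44.Eh ek)) :=
  NC.of (K := 153) (D := ⟨13, 9, 1, 1⟩) (Box.of 4 (by decide +kernel))
    (by decide +kernel)

theorem t3k44_r0_r2 : NC (f0 t3c44 eh (1 - eh) ek (ehi t3c44.Bh t3c44.B1 (1 - eh)) (elo t3c44.D0 t3c44.Dh ek) (elo t3c44.E0 t3c44.Eh ek)) :=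
  NC.of (K := 153) (D := ⟨13, 9, 1, 1⟩) (Box.of 4 (by decide +kernel))
    (by decide +kernel)

theorem t3k44_r0_r3 : NC (f0 t3c44 (1 - eh) ek eh (elo t3c44.B0 t3c44.Bh ek) (elo t3c44.D0 t3c44.Dh eh) (elo t3c44.E0 t3c44.Eh eh)) :=
  NC.of (K := 148) (D := ⟨13, 5, 1, 1⟩) (Box.of 4 (by decide +kernel))
    (by decide +kernel)

theorem t3k44_r0_r4 : NC (f0 t3c44 eh ek (1 - eh) (elo t3c44.B0 t3c44.Bh ek) (ehi t3c44.Dh t3c44.D1 (1 - eh)) (ehi t3c44.Eh t3c44.E1 (1 - eh))) :=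
  NC.of (K := 153) (D := ⟨13, 5, 1, 1⟩) (Box.of 4 (by decide +kernel))
    (by decide +kernel)

theorem t3k44_r1_r1 : NC (f1 t3c44 (1 - eh) eh ek (elo t3c44.B0 t3c44.Bh eh) (elo t3c44.D0 t3c44.Dh ek) (elo t3c44.E0 t3c44.Eh ek)) :=
  NC.of (K := 260) (D := ⟨16, 9, 1, 1⟩) (Box.of 288 (by decide +kernel))
    (by decide +kernel)

theorem t3k44_r1_r2 : NC (f1 t3c44 eh (1 - eh) ek (ehi t3c44.Bh t3c44.B1 (1 - eh)) (elo t3c44.D0 t3c44.Dh ek) (elo t3c44.E0 t3c44.Eh ek)) :=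
  NC.of (K := 233) (D := ⟨16, 9, 1, 1⟩) (Box.of 4 (by decide +kernel))
    (by decide +kernel)

theorem t3k44_r1_r3 : NC (f1 t3c44 (1 - eh) ek eh (elo t3c44.B0 t3c44.Bh ek) (elo t3c44.D0 t3c44.Dh eh) (elo t3c44.E0 t3c44.Eh eh)) :=
  NC.of (K := 263) (D := ⟨16, 12, 1, 1⟩) (Box.of 288 (by decide +kernel))
    (by decide +kernel)

theorem t3k44_r1_r4 : NC (f1 t3c44 eh ek (1 - eh) (elo t3c44.B0 t3c44.Bh ek) (ehi t3c44.Dh t3c44.D1 (1 - eh)) (ehi t3c44.Eh t3c44.E1 (1 - eh))) :=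
  NC.of (K := 236) (D := ⟨16, 12, 1, 1⟩) (Box.of 4 (by decide +kernel))
    (by decide +kernel)

theorem t3k44_r2_r1 : NC (f2 t3c44 (1 - eh) eh ek (elo t3c44.B0 t3c44.Bh eh) (elo t3c44.D0 t3c44.Dh ek) (elo t3c44.E0 t3c44.Eh ek)) :=
  NC.of (K := 262) (D := ⟨16, 11, 1, 1⟩) (Box.of 288 (by decide +kernel))
    (by decide +kernel)

theorem t3k44_r2_r2 : NC (f2 t3c44 eh (1 - eh) ek (ehi t3c44.Bh t3c44.B1 (1 - eh)) (elo t3c44.D0 t3c44.Dh ek) (elo t3c44.E0 t3c44.Eh ek)) :=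
  NC.of (K := 236) (D := ⟨16, 11, 1, 1⟩) (Box.of 4 (by decide +kernel))
    (by decide +kernel)

theorem t3k44_r2_r3 : NC (f2 t3c44 (1 - eh) ek eh (elo t3c44.B0 t3c44.Bh ek) (elo t3c44.D0 t3c44.Dh eh) (elo t3c44.E0 t3c44.Eh eh)) :=
  NC.of (K := 264) (D := ⟨16, 12, 1, 1⟩) (Box.of 288 (by decide +kernel))
    (by decide +kernel)

theorem t3k44_r2_r4 : NC (f2 t3c44 eh ek (1 - eh) (elo t3c44.B0 t3c44.Bh ek) (ehi t3c44.Dh t3c44.D1 (1 - eh)) (ehi t3c44.Eh t3c44.E1 (1 - eh))) :=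
  NC.of (K := 238) (D := ⟨16, 12, 1, 1⟩) (Box.of 4 (by decide +kernel))
    (by decide +kernel)

theorem t3k44_rc_r1 : NC (fc t3c44 (1 - eh) eh ek (elo t3c44.B0 t3c44.Bh eh) (elo t3c44.D0 t3c44.Dh ek) (elo t3c44.E0 t3c44.Eh ek)) :=
  NC.of (K := 171) (D := ⟨13, 9, 1, 1⟩) (Box.of 288 (by decide +kernel))
    (by decide +kernel)

theorem t3k44_rc_r2 : NC (fc t3c44 eh (1 - eh) ek (ehi t3c44.Bh t3c44.B1 (1 - eh)) (elo t3c44.D0 t3c44.Dh ek) (elo t3c44.E0 t3c44.Eh ek)) :=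
  NC.of (K := 148) (D := ⟨13, 9, 1, 1⟩) (Box.of 4 (by decide +kernel))
    (by decide +kernel)

theorem t3k44_rc_r3 : NC (fc t3c44 (1 - eh) ek eh (elo t3c44.B0 t3c44.Bh ek) (elo t3c44.D0 t3c44.Dh eh) (elo t3c44.E0 t3c44.Eh eh)) :=
  NC.of (K := 167) (D := ⟨13, 5, 1, 1⟩) (Box.of 288 (by decide +kernel))
    (by decide +kernel)

theorem t3k44_rc_r4 : NC (fc t3c44 eh ek (1 - eh) (elo t3c44.B0 t3c44.Bh ek) (ehi t3c44.Dh t3c44.D1 (1 - eh)) (ehi t3c44.Eh t3c44.E1 (1 - eh))) :=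
  NC.of (K := 149) (D := ⟨13, 5, 1, 1⟩) (Box.of 4 (by decide +kernel))
    (by decide +kernel)

theorem t3k44_rI_r1 : NC (fI t3c44 (1 - eh) eh ek (elo t3c44.B0 t3c44.Bh eh) (elo t3c44.D0 t3c44.Dh ek) (elo t3c44.E0 t3c44.Eh ek)) :=
  NC.of (K := 136) (D := ⟨13, 9, 1, 1⟩) (Box.of 4 (by decide +kernel))
    (by decide +kernel)

theorem t3k44_rI_r2 : NC (fI t3c44 eh (1 - eh) ek (ehi t3c44.Bh t3c44.B1 (1 - eh)) (elo t3c44.D0 t3c44.Dh ek) (elo t3c44.E0 t3c44.Eh ek)) :=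
  NC.of (K := 136) (D := ⟨13, 9, 1, 1⟩) (Box.of 4 (by decide +kernel))
    (by decide +kernel)

theorem t3k44_rI_r3 : NC (fI t3c44 (1 - eh) ek eh (elo t3c44.B0 t3c44.Bh ek) (elo t3c44.D0 t3c44.Dh eh) (elo t3c44.E0 t3c44.Eh eh)) :=
  NC.of (K := 154) (D := ⟨13, 5, 1, 1⟩) (Box.of 288 (by decide +kernel))
    (by decide +kernel)

theorem t3k44_rI_r4 : NC (fI t3c44 eh ek (1 - eh) (elo t3c44.B0 t3c44.Bh ek) (ehi t3c44.Dh t3c44.D1 (1 - eh)) (ehi t3c44.Eh t3c44.E1 (1 - eh))) :=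
  NC.of (K := 137) (D := ⟨13, 5, 1, 1⟩) (Box.of 4 (by decide +kernel))
    (by decide +kernel)

theorem t3k44_rJ_r1 : NC (fJ t3c44 (1 - eh) eh ek (elo t3c44.B0 t3c44.Bh eh) (elo t3c44.D0 t3c44.Dh ek) (elo t3c44.E0 t3c44.Eh ek)) :=
  NC.of (K := 80) (D := ⟨7, 5, 1, 1⟩) (Box.of 4 (by decide +kernel))
    (by decide +kernel)

theorem t3k44_rJ_r2 : NC (fJ t3c44 eh (1 - eh) ek (ehi t3c44.Bh t3c44.B1 (1 - eh)) (elo t3c44.D0 t3c44.Dh ek) (elo t3c44.E0 t3c44.Eh ek)) :=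
  NC.of (K := 80) (D := ⟨7, 5, 1, 1⟩) (Box.of 4 (by decide +kernel))
    (by decide +kernel)

theorem t3k44_rJ_r3 : NC (fJ t3c44 (1 - eh) ek eh (elo t3c44.B0 t3c44.Bh ek) (elo t3c44.D0 t3c44.Dh eh) (elo t3c44.E0 t3c44.Eh eh)) :=
  NC.of (K := 77) (D := ⟨7, 3, 1, 1⟩) (Box.of 4 (by decide +kernel))
    (by decide +kernel)

theorem t3k44_rJ_r4 : NC (fJ t3c44 eh ek (1 - eh) (elo t3c44.B0 t3c44.Bh ek) (ehi t3c44.Dh t3c44.D1 (1 - eh)) (ehi t3c44.Eh t3c44.E1 (1 - eh))) :=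
  NC.of (K := 79) (D := ⟨7, 3, 1, 1⟩) (Box.of 4 (by decide +kernel))
    (by decide +kernel)

theorem t3k44_gE_r1 : NC (fE t3c44 t3e44 (1 - eh) eh ek (elo t3c44.B0 t3c44.Bh eh) (elo t3c44.D0 t3c44.Dh ek) (elo t3c44.E0 t3c44.Eh ek)) :=
  NC.of (K := 156) (D := ⟨13, 9, 1, 1⟩) (Box.of 288 (by decide +kernel))
    (by decide +kernel)

theorem t3k44_gE_r2 : NC (fE t3c44 t3e44 eh (1 - eh) ek (ehi t3c44.Bh t3c44.B1 (1 - eh)) (elo t3c44.D0 t3c44.Dh ek) (elo t3c44.E0 t3c44.Eh ek)) :=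
  NC.of (K := 134) (D := ⟨13, 9, 1, 1⟩) (Box.of 4 (by decide +kernel))
    (by decide +kernel)

theorem t3k44_gE_r3 : NC (fE t3c44 t3e44 (1 - eh) ek eh (elo t3c44.B0 t3c44.Bh ek) (elo t3c44.D0 t3c44.Dh eh) (elo t3c44.E0 t3c44.Eh eh)) :=
  NC.of (K := 166) (D := ⟨13, 7, 1, 1⟩) (Box.of 18528 (by decide +kernel))
    (by decide +kernel)

theorem t3k44_gE_r4 : NC (fE t3c44 t3e44 eh ek (1 - eh) (elo t3c44.B0 t3c44.Bh ek) (ehi t3c44.Dh t3c44.D1 (1 - eh)) (ehi t3c44.Eh t3c44.E1 (1 - eh))) :=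
  NC.of (K := 137) (D := ⟨13, 7, 1, 1⟩) (Box.of 4 (by decide +kernel))
    (by decide +kernel)

theorem t3k44_B0 : NC (kB dW 1 0 t3c44.B0 (tcl t3c44)) :=
  NC.of (K := 102) (D := ⟨1, 1, 1, 9⟩) (Box.of 4 (by decide +kernel))
    (by decide +kernel)

theorem t3k44_E0 : NC (kE dW qW qW.p0 qW.q0 t3c44.E0 (tcl t3c44)) :=
  NC.of (K := 227) (D := ⟨1, 1, 1, 19⟩) (Box.of 4 (by decide +kernel))
    (by decide +kernel)

theorem t3k44_D0 : NC (kD dW qW 1 0 qW.p0 qW.q0 t3c44.D0 (tcl t3c44)) :=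
  NC.of (K := 344) (D := ⟨1, 1, 1, 20⟩) (Box.of 4 (by decide +kernel))
    (by decide +kernel)

theorem t3k44_Bh : NC (kB dW (1 / 2) (1 / 2) t3c44.Bh (tcl t3c44)) :=
  NC.of (K := 106) (D := ⟨1, 1, 1, 9⟩) (Box.of 4 (by decide +kernel))
    (by decide +kernel)

theorem t3k44_Eh : NC (kE dW qW qW.ph qW.qh t3c44.Eh (tcl t3c44)) :=
  NC.of (K := 231) (D := ⟨1, 1, 1, 19⟩) (Box.of 4 (by decide +kernel))
    (by decide +kernel)

theorem t3k44_Dh : NC (kD dW qW (1 / 2) (1 / 2) qW.ph qW.qh t3c44.Dh (tcl t3c44)) :=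
  NC.of (K := 348) (D := ⟨1, 1, 1, 20⟩) (Box.of 4 (by decide +kernel))
    (by decide +kernel)

theorem t3k44_B1 : NC (kB dW 0 (1 / 2) t3c44.B1 (tcl t3c44)) :=
  NC.of (K := 106) (D := ⟨1, 1, 1, 9⟩) (Box.of 4 (by decide +kernel))
    (by decide +kernel)

theorem t3k44_E1 : NC (kE dW qW qW.p1 qW.q1 t3c44.E1 (tcl t3c44)) :=
  NC.of (K := 230) (D := ⟨1, 1, 1, 19⟩) (Box.of 4 (by decide +kernel))
    (by decide +kernel)

theorem t3k44_D1 : NC (kD dW qW 0 (1 / 2) qW.p1 qW.q1 t3c44.D1 (tcl t3c44)) :=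
  NC.of (K := 348) (D := ⟨1, 1, 1, 20⟩) (Box.of 4 (by decide +kernel))
    (by decide +kernel)

theorem t3k44_l : NC (qc t3n44.lb - (1 - vX) * pe (exl t3c44.th) vX ^ 2) :=
  NC.of (K := 158) (D := ⟨10, 1, 1, 1⟩) (Box.of 18688 (by decide +kernel))
    (by decide +kernel)

theorem t3k44_n : NC (qc t3n44.nb - vX * (1 - vX) * pe (exl t3c44.th) vX) :=
  NC.of (K := 115) (D := ⟨7, 1, 1, 1⟩) (Box.of 76677152 (by decide +kernel))
    (by decide +kernel)

theorem t3k44_rb : NC (krb t3n44 fW (t1v t3c44)) :=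
  NC.of (K := 202) (D := ⟨1, 1, 1, 16⟩) (Box.of 4 (by decide +kernel))
    (by decide +kernel)

theorem t3k44_kap : NC (kkap dW qW t3n44 (tcl t3c44)) :=
  NC.of (K := 102) (D := ⟨1, 1, 1, 9⟩) (Box.of 4 (by decide +kernel))
    (by decide +kernel)

theorem t3k44_wb2 : NC (qc t3n44.b2 - pe2 kW.QB (vZ * t1v t3c44) (t1v t3c44)) :=
  NC.of (K := 167) (D := ⟨1, 6, 1, 11⟩) (Box.of 18531 (by decide +kernel))
    (by decide +kernel)

theorem t3k44_wmb : NC (qc t3n44.Mb - pe zW.mb (t1v t3c44)) :=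
  NC.of (K := 171) (D := ⟨1, 1, 1, 9⟩) (Box.of 76429539 (by decide +kernel))
    (by decide +kernel)

theorem t3k44_wth : NC (qc (t3c44.th / t3c44.t1) - pe2 zW.Qt (vZ * t1v t3c44) (t1v t3c44)) :=
  NC.of (K := 205) (D := ⟨1, 6, 1, 11⟩) (Box.of 75905251 (by decide +kernel))
    (by decide +kernel)

theorem t3k44_wyb : NC (qc t3n44.Yb - (t1v t3c44 - vZ * t1v t3c44) ^ 3 * pe2 yW.QY (vZ * t1v t3c44) (t1v t3c44)) :=
  NC.of (K := 143) (D := ⟨1, 8, 1, 12⟩) (Box.of 4 (by decide +kernel))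
    (by decide +kernel)

theorem t3k44_wmu : NC (qc t3m44 - pe t3al (tcl t3c44) * (1 + hlf * tcl t3c44)) :=
  NC.of (K := 99) (D := ⟨1, 1, 1, 9⟩) (Box.of 4 (by decide +kernel))
    (by decide +kernel)

theorem t3k44_wcj : NC (qc t3c44.C * ((6 - 3 * vX) * (1 - qc t3m44 * vX)) - (6 - 6 * vX + vX ^ 2)) :=
  NC.of (K := 43) (D := ⟨3, 1, 1, 1⟩) (Box.of 1198080 (by decide +kernel))
    (by decide +kernel)

theorem t3k44_nd1 : NC (pe t3r44.d1 (t1v t3c44)) :=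
  NC.of (K := 76) (D := ⟨1, 1, 1, 7⟩) (Box.of 4 (by decide +kernel))
    (by decide +kernel)

theorem t3k44_nd2 : NC (pe t3r44.d2 (t1v t3c44)) :=
  NC.of (K := 81) (D := ⟨1, 1, 1, 7⟩) (Box.of 4 (by decide +kernel))
    (by decide +kernel)

theorem t3k44_ndy : NC (pe t3r44.dy (t1v t3c44)) :=
  NC.of (K := 82) (D := ⟨1, 1, 1, 7⟩) (Box.of 4 (by decide +kernel))
    (by decide +kernel)

theorem t3k44_nt1 : NC (pe t3r44.t1 (t1v t3c44)) :=
  NC.of (K := 82) (D := ⟨1, 1, 1, 7⟩) (Box.of 4 (by decide +kernel))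
    (by decide +kernel)

theorem t3k44_nt2 : NC (pe t3r44.t2 (t1v t3c44)) :=
  NC.of (K := 82) (D := ⟨1, 1, 1, 7⟩) (Box.of 4 (by decide +kernel))
    (by decide +kernel)

theorem t3k44_nty : NC (pe t3r44.ty (t1v t3c44)) :=
  NC.of (K := 80) (D := ⟨1, 1, 1, 7⟩) (Box.of 4 (by decide +kernel))
    (by decide +kernel)

theorem t3k44_nhz : NC (pe t3r44.hz (t1v t3c44)) :=
  NC.of (K := 113) (D := ⟨1, 1, 1, 7⟩) (Box.of 18659 (by decide +kernel))
    (by decide +kernel)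

theorem t3k44_xi : NC (eXi fW t3c44 t3e44 t3r44 (t1v t3c44)) :=
  NC.of (K := 362) (D := ⟨1, 1, 1, 22⟩) (Box.of 291 (by decide +kernel))
    (by decide +kernel)

theorem t3k44_om : NC (eOm fW t3r44 (t1v t3c44)) :=
  NC.of (K := 222) (D := ⟨1, 1, 1, 16⟩) (Box.of 291 (by decide +kernel))
    (by decide +kernel)

theorem t3k44_fin : NC (eFin dW t3c44 t3n44 t3r44 t3h44 (tcl t3c44)) :=
  NC.of (K := 231) (D := ⟨1, 1, 1, 14⟩) (Box.of 4 (by decide +kernel))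
    (by decide +kernel)

theorem t3k44_xdl : NC (qc t3e44.dl - pe t3d44.l.dl t3d44.eU) :=
  NC.of (K := 73) (D := ⟨1, 4, 1, 1⟩) (Box.of 4 (by decide +kernel))
    (by decide +kernel)

theorem t3k44_xeY : NC (qc t3e44.eY - pe (e4l t3d44.l.z) t3d44.eU) :=
  NC.of (K := 288) (D := ⟨1, 13, 1, 1⟩) (Box.of 4 (by decide +kernel))
    (by decide +kernel)

theorem t3k44_xgr : NC (qc t3d44.ga * ((1 + qc (3 / 5) * vX) * (1 + (t3d44.eg + hlf * t3d44.eg ^ 2))) + qc t3d44.gb - pe2 t3GR vX t3d44.eU) :=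
  NC.of (K := 256) (D := ⟨4, 11, 1, 1⟩) (Box.of 18688 (by decide +kernel))
    (by decide +kernel)

theorem t3k44_xhr : NC (qc t3d44.hb - pe2 t3HR vX t3d44.eU) :=
  NC.of (K := 266) (D := ⟨3, 12, 1, 1⟩) (Box.of 4 (by decide +kernel))
    (by decide +kernel)

theorem t3k44_xgs : NC (pe t3d44.gs t3d44.e1 - qc (8 / 5) * pe (e4l (ladd t3d44.ls.z t3d44.ls.dl)) t3d44.e1) :=
  NC.of (K := 284) (D := ⟨1, 1, 1, 13⟩) (Box.of 4 (by decide +kernel))
    (by decide +kernel)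

theorem t3k44_xd1 : NC (pe t3d44.d1 t3d44.e1 - t3d44.eA t3d44.eU t3d44.e1) :=
  NC.of (K := 286) (D := ⟨1, 12, 1, 12⟩) (Box.of 4 (by decide +kernel))
    (by decide +kernel)

theorem t3k44_xd2 : NC (pe t3d44.d2 t3d44.e1 - t3d44.eB t3d44.eU t3d44.e1) :=
  NC.of (K := 291) (D := ⟨1, 12, 1, 12⟩) (Box.of 4 (by decide +kernel))
    (by decide +kernel)

theorem t3k44_xt1 : NC (pe t3d44.t1 t3d44.e1 - t3d44.eAT t3d44.eU t3d44.e1) :=
  NC.of (K := 474) (D := ⟨1, 19, 1, 19⟩) (Box.of 4 (by decide +kernel))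
    (by decide +kernel)

theorem t3k44_xt2 : NC (pe t3d44.t2 t3d44.e1 - t3d44.eBT t3d44.eU t3d44.e1) :=
  NC.of (K := 478) (D := ⟨1, 19, 1, 19⟩) (Box.of 4 (by decide +kernel))
    (by decide +kernel)

theorem t3k44_xdy : NC (pe t3d44.dy t3d44.e1 - t3d44.eSD t3d44.eU t3d44.e1) :=
  NC.of (K := 473) (D := ⟨1, 19, 1, 13⟩) (Box.of 4 (by decide +kernel))
    (by decide +kernel)

theorem t3k44_xty : NC (pe t3d44.ty t3d44.e1 - t3d44.eST t3d44.eU t3d44.e1) :=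
  NC.of (K := 696) (D := ⟨1, 27, 1, 27⟩) (Box.of 4 (by decide +kernel))
    (by decide +kernel)

theorem t3k44_xd1s : NC (pe t3r44.d1 (t1v t3c44) - pe t3d44.d1 (Xcd.ew zW t3c44)) :=
  NC.of (K := 705) (D := ⟨1, 1, 1, 55⟩) (Box.of 4 (by decide +kernel))
    (by decide +kernel)

theorem t3k44_xd2s : NC (pe t3r44.d2 (t1v t3c44) - pe t3d44.d2 (Xcd.ew zW t3c44)) :=
  NC.of (K := 707) (D := ⟨1, 1, 1, 55⟩) (Box.of 4 (by decide +kernel))
    (by decide +kernel)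

theorem t3k44_xt1s : NC (pe t3r44.t1 (t1v t3c44) - pe t3d44.t1 (Xcd.ew zW t3c44)) :=
  NC.of (K := 707) (D := ⟨1, 1, 1, 55⟩) (Box.of 4 (by decide +kernel))
    (by decide +kernel)

theorem t3k44_xt2s : NC (pe t3r44.t2 (t1v t3c44) - pe t3d44.t2 (Xcd.ew zW t3c44)) :=
  NC.of (K := 709) (D := ⟨1, 1, 1, 55⟩) (Box.of 4 (by decide +kernel))
    (by decide +kernel)

theorem t3k44_xdys : NC (pe t3r44.dy (t1v t3c44) - pe t3d44.dy (Xcd.ew zW t3c44)) :=
  NC.of (K := 710) (D := ⟨1, 1, 1, 55⟩) (Box.of 4 (by decide +kernel))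
    (by decide +kernel)

theorem t3k44_xtys : NC (pe t3r44.ty (t1v t3c44) - pe t3d44.ty (Xcd.ew zW t3c44)) :=
  NC.of (K := 712) (D := ⟨1, 1, 1, 55⟩) (Box.of 4 (by decide +kernel))
    (by decide +kernel)

theorem t3k44_xhz : NC (pe t3r44.hz (t1v t3c44) - pe t3d44.c.dR (Xcd.ew zW t3c44)) :=
  NC.of (K := 719) (D := ⟨1, 1, 1, 55⟩) (Box.of 4 (by decide +kernel))
    (by decide +kernel)

theorem t3f44_ok : t3f44.ok V2L.y24 V2L.k24 V2L.nb V2L.la (10 ^ 30) 32 = true := by decide +kernel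

theorem t3k44_sg : t3c44.Sg := by
  constructor <;> decide +kernel

theorem t3k44_rgs : t3c44.Rgs where
  M := ⟨t3k44_M_r1, t3k44_M_r2, t3k44_M_r3, t3k44_M_r4⟩
  r0 := ⟨t3k44_r0_r1, t3k44_r0_r2, t3k44_r0_r3, t3k44_r0_r4⟩
  r1 := ⟨t3k44_r1_r1, t3k44_r1_r2, t3k44_r1_r3, t3k44_r1_r4⟩
  r2 := ⟨t3k44_r2_r1, t3k44_r2_r2, t3k44_r2_r3, t3k44_r2_r4⟩
  rc := ⟨t3k44_rc_r1, t3k44_rc_r2, t3k44_rc_r3, t3k44_rc_r4⟩
  rI := ⟨t3k44_rI_r1, t3k44_rI_r2, t3k44_rI_r3, t3k44_rI_r4⟩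
  rJ := ⟨t3k44_rJ_r1, t3k44_rJ_r2, t3k44_rJ_r3, t3k44_rJ_r4⟩

theorem t3k44_xn : t3e44.Ok t3c44 where
  lm := by decide +kernel
  dl0 := by decide +kernel
  dl1 := by decide +kernel
  e2 := by decide +kernel
  eY := by decide +kernel
  gE := ⟨t3k44_gE_r1, t3k44_gE_r2, t3k44_gE_r3, t3k44_gE_r4⟩

theorem t3k44_vl : t3c44.Vl dW qW where
  bt := by decide +kernel
  B0 := t3k44_B0
  E0 := t3k44_E0
  D0 := t3k44_D0
  Bh := t3k44_Bh
  Eh := t3k44_Eh
  Dh := t3k44_Dh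
  B1 := t3k44_B1
  E1 := t3k44_E1
  D1 := t3k44_D1

theorem t3k44_rat : t3n44.Rat t3c44 := by
  constructor <;> decide +kernel

theorem t3k44_ck : t3n44.Ck t3c44 := ⟨t3k44_l, t3k44_n⟩

theorem t3k44_fck : t3n44.Fck dW qW fW t3c44 := ⟨t3k44_rb, t3k44_kap⟩

theorem t3k44_w : Wcl zW kW yW t3al t3c44 t3n44 t3m44 where
  b2 := t3k44_wb2
  mb := t3k44_wmb
  th := t3k44_wth
  yb := t3k44_wyb
  mu := t3k44_wmu
  cj := t3k44_wcj
  mt1 := by decide +kernel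
  mt2 := by decide +kernel

theorem t3k44_ok : CelOk dW qW fW t3c44 t3n44 where
  s := t3k44_sg
  r := t3k44_rgs
  v := t3k44_vl
  rt := t3k44_rat
  k := t3k44_ck
  fc := t3k44_fck
  q01 := by decide +kernel
  q12 := by decide +kernel
  h2 := by decide +kernel

theorem t3k44_xr : t3r44.Ok fW t3c44 t3e44 where
  sD := by decide +kernel
  sT := by decide +kernel
  nd1 := t3k44_nd1
  nd2 := t3k44_nd2
  ndy := t3k44_ndy
  nt1 := t3k44_nt1
  nt2 := t3k44_nt2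
  nty := t3k44_nty
  nhz := t3k44_nhz
  xi := t3k44_xi
  om := t3k44_om

theorem t3k44_X : t3d44.Ck t3GR t3HR zW t3c44 t3e44 t3r44 where
  u0 := by decide +kernel
  u01 := by decide +kernel
  ul := by decide +kernel
  us := by decide +kernel
  uc := by decide +kernel
  ga0 := by decide +kernel
  kp0 := by decide +kernel
  lm := by decide +kernel
  dl := t3k44_xdl
  eY := t3k44_xeY
  gr := t3k44_xgr
  hr := t3k44_xhr
  gs := t3k44_xgs
  d1 := t3k44_xd1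
  d2 := t3k44_xd2
  t1 := t3k44_xt1
  t2 := t3k44_xt2
  dy := t3k44_xdy
  ty := t3k44_xty
  d1s := t3k44_xd1s
  d2s := t3k44_xd2s
  t1s := t3k44_xt1s
  t2s := t3k44_xt2s
  dys := t3k44_xdys
  tys := t3k44_xtys
  hz := t3k44_xhz

end Pool.Agent.RX.RCN.K
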