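import Pool.Agent.RX.RCN.T3D
import Pool.Agent.RX.RCN.T3Wq
import Pool.Agent.RX.RCN.T3X25
import Pool.Agent.RX.RCN.VLd

/-! Certificates (generated). -/

set_option autoImplicit false

namespace Pool.Agent.RX.RCN.K

open Set Pool.Agent.RX.RCM9 Pool.Agent.RX.RCM9.Bern Pool.Agent.RX.RCM9.Pk Xce

def t3c45 : Cel where
  t0 := 107 / 200
  t1 := 27 / 50
  C := 2051 / 2048
  th := 2267 / 4096
  B0 := 259 / 256
  Bh := 2367 / 2048
  B1 := 2355 / 2048
  D0 := 1609 / 4096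
  Dh := 173 / 512
  D1 := 1331 / 4096
  E0 := 275 / 16384
  Eh := 489 / 32768
  E1 := 235 / 16384
  Q0 := 65 / 64
  Q1 := 263 / 256
  Q2 := 297 / 256
  Ac := 1049 / 1024
  gI := 263 / 256
  J := 2077 / 65536

def t3n45 : Chn where
  lb := 1031 / 1024
  nb := 345 / 1024
  Mb := 525 / 512
  b2 := 1065 / 1024
  Yb := 41 / 2048
  E2 := 533 / 512
  e1 := 1403 / 1024
  Z1 := 1099 / 1024
  Z2 := 161 / 256
  KB := 545 / 512
  cb := 1107 / 1024
  rb := 455 / 1024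
  om := 263 / 256
  fb := 129 / 128
  kap := 1065 / 1024
  ab := 1029 / 1024

def t3e45 : Xge where
  lm := 3 / 5
  dl := 2141 / 4096
  e2 := 673 / 4096
  eY := 4183 / 4096
  gE := 1207 / 1024

def t3r45 : Xr where
  d1 := [578101 / 12500000, 336399 / 25000000, 1794707 / 50000000, 13637747 / 100000000, -3759347
    / 12500000, 25279971 / 50000000, -25457 / 100000]
  d2 := [432357 / 25000000, 3502071 / 50000000, 865543 / 50000000, 74733987 / 100000000, -20440201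
    / 12500000, 217569027 / 100000000, -113288969 / 100000000]
  dy := [44085643 / 50000000, 35994443 / 100000000, 30295337 / 100000000, 222029857 / 50000000,
    -1000872337 / 100000000, 634897129 / 50000000, -81888029 / 12500000]
  t1 := [21925183 / 100000000, -9604531 / 20000000, -424113 / 25000000, 127676297 / 100000000,
    -149162671 / 100000000, 82054809 / 100000000, 41229527 / 100000000]
  t2 := [10199759 / 100000000, -15159607 / 100000000, -339849 / 3125000, 140610351 / 100000000,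
    -4230037 / 2000000, 117220971 / 50000000, -13625531 / 12500000]
  ty := [35687079 / 12500000, -6720383 / 1250000, -775763011 / 100000000, 5129726779 / 100000000,
    -6981511029 / 100000000, 1840783763 / 50000000, -169448583 / 50000000]
  hz := [4892951 / 20000000, -22543049 / 100000000, -644451521 / 100000000, 2353900191 / 50000000,
    -17030450853 / 100000000, 29384978537 / 100000000, -9408348421 / 50000000]
  om := [100396707 / 100000000, 4131973 / 4000000, -1435082669 / 100000000, 6359780059 /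
    100000000, -4067285791 / 20000000, 3111937219 / 5000000, -70794670047 / 50000000, 4607861843
    / 2500000, -50820756827 / 50000000]
  sD := 737 / 256
  sT := 663 / 256
  xi := [6876109 / 25000000, 30971981 / 20000000, -115947811 / 20000000, -326409737 / 100000000,
    5515058547 / 50000000, -26572169809 / 50000000, 76815751969 / 50000000, -140562364133 /
    50000000, 60996538431 / 20000000, -150373900721 / 100000000]

def t3f45 : Dl where
  Ca := 2691521 / 5000000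
  Cv := 271693 / 500000
  k1 := 1748377 / 2000000
  ks := 855297 / 1000000
  dd := 1 / 100000
  kp := 101 / 10000000
  e := [999999491557 / 1000000000000, -1477243064211 / 1000000000000, 424350785317 / 250000000000,
    -1737545641719 / 1000000000000, 1667697567523 / 1000000000000, -732559713117 / 500000000000,
    548922370983 / 500000000000, -595443550487 / 1000000000000, 164692666151 / 1000000000000]
  j1 := [62467 / 250000000, -1192383813 / 200000000, 55696776997 / 1000000000, -5595409261 /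
    25000000, 233517098971 / 500000000, -121630796163 / 250000000, 100111683591 / 500000000]
  nu := [78138047 / 500000000, -53086563 / 200000000, 345507861 / 1000000000, 160261421 /
    1000000000, -41199669 / 100000000, 957276953 / 1000000000, -276973159 / 500000000]
  k2 := [213824663 / 250000000, 227156241 / 1000000000, -264878923 / 1000000000, -112411039 /
    500000000, 108303789 / 250000000, -91626023 / 100000000, 290132383 / 500000000]
  dR := [12207957 / 50000000, -23005453 / 100000000, -314207073 / 50000000, 1141054589 / 25000000,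
    -16446254633 / 100000000, 14144138689 / 50000000, -112837189 / 625000]

def t3d45 : Xce where
  u0 := 134703 / 250000
  u1 := 271693 / 500000
  l := V2L.y25
  y := t3z25
  j := t3j25
  i := t3i25
  ls := t3y25
  k := V2L.k25
  c := t3f45
  ga := 46133 / 1000000
  gb := -4519 / 250000
  hb := 331621 / 1000000
  gs := [80001793 / 50000000, 119999777 / 50000000, 36002563 / 20000000, 15892543 / 20000000,
    13639557 / 50000000, -6718827 / 50000000, -997529 / 20000000]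
  d1 := [577621 / 12500000, 50811 / 4000000, 2541527 / 50000000, 1820791 / 100000000, 10321603 /
    100000000, -11377399 / 100000000, 810421 / 10000000]
  d2 := [1723897 / 100000000, 3393801 / 50000000, 592007 / 10000000, 41238129 / 100000000,
    -47457639 / 100000000, 18205553 / 50000000, -1209691 / 10000000]
  dy := [88099653 / 100000000, 34742277 / 100000000, 10958171 / 20000000, 246312321 / 100000000,
    -19491231 / 6250000, 37664627 / 20000000, -45615773 / 100000000]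
  t1 := [4382801 / 20000000, -11961609 / 25000000, -1420089 / 50000000, 138793749 / 100000000,
    -202295151 / 100000000, 190922311 / 100000000, -41013879 / 100000000]
  t2 := [2548557 / 25000000, -15283961 / 100000000, -7257693 / 100000000, 112692187 / 100000000,
    -120876437 / 100000000, 102469037 / 100000000, -21168263 / 50000000]
  ty := [285353941 / 100000000, -536891497 / 100000000, -376643791 / 50000000, 1240047391 /
    25000000, -6532578263 / 100000000, 3175318477 / 100000000, -169852657 / 100000000]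

def t3m45 : ℚ := 531 / 1024

def t3h45 : ℚ := 271 / 500

theorem t3k45_M_r1 : NC (fM t3c45 (1 - eh) eh ek (elo t3c45.B0 t3c45.Bh eh) (elo t3c45.D0 t3c45.Dh ek) (elo t3c45.E0 t3c45.Eh ek)) :=
  NC.of (K := 31) (D := ⟨4, 3, 1, 1⟩) (Box.of 4 (by decide +kernel))
    (by decide +kernel)

theorem t3k45_M_r2 : NC (fM t3c45 eh (1 - eh) ek (ehi t3c45.Bh t3c45.B1 (1 - eh)) (elo t3c45.D0 t3c45.Dh ek) (elo t3c45.E0 t3c45.Eh ek)) :=
  NC.of (K := 31) (D := ⟨4, 3, 1, 1⟩) (Box.of 4 (by decide +kernel))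
    (by decide +kernel)

theorem t3k45_M_r3 : NC (fM t3c45 (1 - eh) ek eh (elo t3c45.B0 t3c45.Bh ek) (elo t3c45.D0 t3c45.Dh eh) (elo t3c45.E0 t3c45.Eh eh)) :=
  NC.of (K := 30) (D := ⟨4, 2, 1, 1⟩) (Box.of 4 (by decide +kernel))
    (by decide +kernel)

theorem t3k45_M_r4 : NC (fM t3c45 eh ek (1 - eh) (elo t3c45.B0 t3c45.Bh ek) (ehi t3c45.Dh t3c45.D1 (1 - eh)) (ehi t3c45.Eh t3c45.E1 (1 - eh))) :=
  NC.of (K := 30) (D := ⟨4, 2, 1, 1⟩) (Box.of 4 (by decide +kernel))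
    (by decide +kernel)

theorem t3k45_r0_r1 : NC (f0 t3c45 (1 - eh) eh ek (elo t3c45.B0 t3c45.Bh eh) (elo t3c45.D0 t3c45.Dh ek) (elo t3c45.E0 t3c45.Eh ek)) :=
  NC.of (K := 143) (D := ⟨13, 9, 1, 1⟩) (Box.of 4 (by decide +kernel))
    (by decide +kernel)

theorem t3k45_r0_r2 : NC (f0 t3c45 eh (1 - eh) ek (ehi t3c45.Bh t3c45.B1 (1 - eh)) (elo t3c45.D0 t3c45.Dh ek) (elo t3c45.E0 t3c45.Eh ek)) :=
  NC.of (K := 143) (D := ⟨13, 9, 1, 1⟩) (Box.of 4 (by decide +kernel))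
    (by decide +kernel)

theorem t3k45_r0_r3 : NC (f0 t3c45 (1 - eh) ek eh (elo t3c45.B0 t3c45.Bh ek) (elo t3c45.D0 t3c45.Dh eh) (elo t3c45.E0 t3c45.Eh eh)) :=
  NC.of (K := 138) (D := ⟨13, 5, 1, 1⟩) (Box.of 4 (by decide +kernel))
    (by decide +kernel)

theorem t3k45_r0_r4 : NC (f0 t3c45 eh ek (1 - eh) (elo t3c45.B0 t3c45.Bh ek) (ehi t3c45.Dh t3c45.D1 (1 - eh)) (ehi t3c45.Eh t3c45.E1 (1 - eh))) :=
  NC.of (K := 139) (D := ⟨13, 5, 1, 1⟩) (Box.of 4 (by decide +kernel))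
    (by decide +kernel)

theorem t3k45_r1_r1 : NC (f1 t3c45 (1 - eh) eh ek (elo t3c45.B0 t3c45.Bh eh) (elo t3c45.D0 t3c45.Dh ek) (elo t3c45.E0 t3c45.Eh ek)) :=
  NC.of (K := 267) (D := ⟨16, 9, 1, 1⟩) (Box.of 288 (by decide +kernel))
    (by decide +kernel)

theorem t3k45_r1_r2 : NC (f1 t3c45 eh (1 - eh) ek (ehi t3c45.Bh t3c45.B1 (1 - eh)) (elo t3c45.D0 t3c45.Dh ek) (elo t3c45.E0 t3c45.Eh ek)) :=
  NC.of (K := 238) (D := ⟨16, 9, 1, 1⟩) (Box.of 4 (by decide +kernel))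
    (by decide +kernel)

theorem t3k45_r1_r3 : NC (f1 t3c45 (1 - eh) ek eh (elo t3c45.B0 t3c45.Bh ek) (elo t3c45.D0 t3c45.Dh eh) (elo t3c45.E0 t3c45.Eh eh)) :=
  NC.of (K := 270) (D := ⟨16, 12, 1, 1⟩) (Box.of 288 (by decide +kernel))
    (by decide +kernel)

theorem t3k45_r1_r4 : NC (f1 t3c45 eh ek (1 - eh) (elo t3c45.B0 t3c45.Bh ek) (ehi t3c45.Dh t3c45.D1 (1 - eh)) (ehi t3c45.Eh t3c45.E1 (1 - eh))) :=
  NC.of (K := 243) (D := ⟨16, 12, 1, 1⟩) (Box.of 4 (by decide +kernel))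
    (by decide +kernel)

theorem t3k45_r2_r1 : NC (f2 t3c45 (1 - eh) eh ek (elo t3c45.B0 t3c45.Bh eh) (elo t3c45.D0 t3c45.Dh ek) (elo t3c45.E0 t3c45.Eh ek)) :=
  NC.of (K := 270) (D := ⟨16, 11, 1, 1⟩) (Box.of 288 (by decide +kernel))
    (by decide +kernel)

theorem t3k45_r2_r2 : NC (f2 t3c45 eh (1 - eh) ek (ehi t3c45.Bh t3c45.B1 (1 - eh)) (elo t3c45.D0 t3c45.Dh ek) (elo t3c45.E0 t3c45.Eh ek)) :=
  NC.of (K := 241) (D := ⟨16, 11, 1, 1⟩) (Box.of 4 (by decide +kernel))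
    (by decide +kernel)

theorem t3k45_r2_r3 : NC (f2 t3c45 (1 - eh) ek eh (elo t3c45.B0 t3c45.Bh ek) (elo t3c45.D0 t3c45.Dh eh) (elo t3c45.E0 t3c45.Eh eh)) :=
  NC.of (K := 271) (D := ⟨16, 12, 1, 1⟩) (Box.of 288 (by decide +kernel))
    (by decide +kernel)

theorem t3k45_r2_r4 : NC (f2 t3c45 eh ek (1 - eh) (elo t3c45.B0 t3c45.Bh ek) (ehi t3c45.Dh t3c45.D1 (1 - eh)) (ehi t3c45.Eh t3c45.E1 (1 - eh))) :=
  NC.of (K := 245) (D := ⟨16, 12, 1, 1⟩) (Box.of 4 (by decide +kernel))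
    (by decide +kernel)

theorem t3k45_rc_r1 : NC (fc t3c45 (1 - eh) eh ek (elo t3c45.B0 t3c45.Bh eh) (elo t3c45.D0 t3c45.Dh ek) (elo t3c45.E0 t3c45.Eh ek)) :=
  NC.of (K := 173) (D := ⟨13, 9, 1, 1⟩) (Box.of 288 (by decide +kernel))
    (by decide +kernel)

theorem t3k45_rc_r2 : NC (fc t3c45 eh (1 - eh) ek (ehi t3c45.Bh t3c45.B1 (1 - eh)) (elo t3c45.D0 t3c45.Dh ek) (elo t3c45.E0 t3c45.Eh ek)) :=
  NC.of (K := 150) (D := ⟨13, 9, 1, 1⟩) (Box.of 4 (by decide +kernel))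
    (by decide +kernel)

theorem t3k45_rc_r3 : NC (fc t3c45 (1 - eh) ek eh (elo t3c45.B0 t3c45.Bh ek) (elo t3c45.D0 t3c45.Dh eh) (elo t3c45.E0 t3c45.Eh eh)) :=
  NC.of (K := 169) (D := ⟨13, 5, 1, 1⟩) (Box.of 288 (by decide +kernel))
    (by decide +kernel)

theorem t3k45_rc_r4 : NC (fc t3c45 eh ek (1 - eh) (elo t3c45.B0 t3c45.Bh ek) (ehi t3c45.Dh t3c45.D1 (1 - eh)) (ehi t3c45.Eh t3c45.E1 (1 - eh))) :=
  NC.of (K := 147) (D := ⟨13, 5, 1, 1⟩) (Box.of 4 (by decide +kernel))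
    (by decide +kernel)

theorem t3k45_rI_r1 : NC (fI t3c45 (1 - eh) eh ek (elo t3c45.B0 t3c45.Bh eh) (elo t3c45.D0 t3c45.Dh ek) (elo t3c45.E0 t3c45.Eh ek)) :=
  NC.of (K := 130) (D := ⟨13, 9, 1, 1⟩) (Box.of 4 (by decide +kernel))
    (by decide +kernel)

theorem t3k45_rI_r2 : NC (fI t3c45 eh (1 - eh) ek (ehi t3c45.Bh t3c45.B1 (1 - eh)) (elo t3c45.D0 t3c45.Dh ek) (elo t3c45.E0 t3c45.Eh ek)) :=
  NC.of (K := 130) (D := ⟨13, 9, 1, 1⟩) (Box.of 4 (by decide +kernel))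
    (by decide +kernel)

theorem t3k45_rI_r3 : NC (fI t3c45 (1 - eh) ek eh (elo t3c45.B0 t3c45.Bh ek) (elo t3c45.D0 t3c45.Dh eh) (elo t3c45.E0 t3c45.Eh eh)) :=
  NC.of (K := 148) (D := ⟨13, 5, 1, 1⟩) (Box.of 288 (by decide +kernel))
    (by decide +kernel)

theorem t3k45_rI_r4 : NC (fI t3c45 eh ek (1 - eh) (elo t3c45.B0 t3c45.Bh ek) (ehi t3c45.Dh t3c45.D1 (1 - eh)) (ehi t3c45.Eh t3c45.E1 (1 - eh))) :=
  NC.of (K := 127) (D := ⟨13, 5, 1, 1⟩) (Box.of 4 (by decide +kernel))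
    (by decide +kernel)

theorem t3k45_rJ_r1 : NC (fJ t3c45 (1 - eh) eh ek (elo t3c45.B0 t3c45.Bh eh) (elo t3c45.D0 t3c45.Dh ek) (elo t3c45.E0 t3c45.Eh ek)) :=
  NC.of (K := 79) (D := ⟨7, 5, 1, 1⟩) (Box.of 4 (by decide +kernel))
    (by decide +kernel)

theorem t3k45_rJ_r2 : NC (fJ t3c45 eh (1 - eh) ek (ehi t3c45.Bh t3c45.B1 (1 - eh)) (elo t3c45.D0 t3c45.Dh ek) (elo t3c45.E0 t3c45.Eh ek)) :=
  NC.of (K := 79) (D := ⟨7, 5, 1, 1⟩) (Box.of 4 (by decide +kernel))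
    (by decide +kernel)

theorem t3k45_rJ_r3 : NC (fJ t3c45 (1 - eh) ek eh (elo t3c45.B0 t3c45.Bh ek) (elo t3c45.D0 t3c45.Dh eh) (elo t3c45.E0 t3c45.Eh eh)) :=
  NC.of (K := 76) (D := ⟨7, 3, 1, 1⟩) (Box.of 4 (by decide +kernel))
    (by decide +kernel)

theorem t3k45_rJ_r4 : NC (fJ t3c45 eh ek (1 - eh) (elo t3c45.B0 t3c45.Bh ek) (ehi t3c45.Dh t3c45.D1 (1 - eh)) (ehi t3c45.Eh t3c45.E1 (1 - eh))) :=
  NC.of (K := 77) (D := ⟨7, 3, 1, 1⟩) (Box.of 4 (by decide +kernel))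
    (by decide +kernel)

theorem t3k45_gE_r1 : NC (fE t3c45 t3e45 (1 - eh) eh ek (elo t3c45.B0 t3c45.Bh eh) (elo t3c45.D0 t3c45.Dh ek) (elo t3c45.E0 t3c45.Eh ek)) :=
  NC.of (K := 158) (D := ⟨13, 9, 1, 1⟩) (Box.of 288 (by decide +kernel))
    (by decide +kernel)

theorem t3k45_gE_r2 : NC (fE t3c45 t3e45 eh (1 - eh) ek (ehi t3c45.Bh t3c45.B1 (1 - eh)) (elo t3c45.D0 t3c45.Dh ek) (elo t3c45.E0 t3c45.Eh ek)) :=
  NC.of (K := 136) (D := ⟨13, 9, 1, 1⟩) (Box.of 4 (by decide +kernel))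
    (by decide +kernel)

theorem t3k45_gE_r3 : NC (fE t3c45 t3e45 (1 - eh) ek eh (elo t3c45.B0 t3c45.Bh ek) (elo t3c45.D0 t3c45.Dh eh) (elo t3c45.E0 t3c45.Eh eh)) :=
  NC.of (K := 168) (D := ⟨13, 7, 1, 1⟩) (Box.of 18528 (by decide +kernel))
    (by decide +kernel)

theorem t3k45_gE_r4 : NC (fE t3c45 t3e45 eh ek (1 - eh) (elo t3c45.B0 t3c45.Bh ek) (ehi t3c45.Dh t3c45.D1 (1 - eh)) (ehi t3c45.Eh t3c45.E1 (1 - eh))) :=
  NC.of (K := 135) (D := ⟨13, 7, 1, 1⟩) (Box.of 4 (by decide +kernel))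
    (by decide +kernel)

theorem t3k45_B0 : NC (kB dW 1 0 t3c45.B0 (tcl t3c45)) :=
  NC.of (K := 102) (D := ⟨1, 1, 1, 9⟩) (Box.of 4 (by decide +kernel))
    (by decide +kernel)

theorem t3k45_E0 : NC (kE dW qW qW.p0 qW.q0 t3c45.E0 (tcl t3c45)) :=
  NC.of (K := 227) (D := ⟨1, 1, 1, 19⟩) (Box.of 4 (by decide +kernel))
    (by decide +kernel)

theorem t3k45_D0 : NC (kD dW qW 1 0 qW.p0 qW.q0 t3c45.D0 (tcl t3c45)) :=
  NC.of (K := 344) (D := ⟨1, 1, 1, 20⟩) (Box.of 4 (by decide +kernel))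
    (by decide +kernel)

theorem t3k45_Bh : NC (kB dW (1 / 2) (1 / 2) t3c45.Bh (tcl t3c45)) :=
  NC.of (K := 106) (D := ⟨1, 1, 1, 9⟩) (Box.of 4 (by decide +kernel))
    (by decide +kernel)

theorem t3k45_Eh : NC (kE dW qW qW.ph qW.qh t3c45.Eh (tcl t3c45)) :=
  NC.of (K := 231) (D := ⟨1, 1, 1, 19⟩) (Box.of 4 (by decide +kernel))
    (by decide +kernel)

theorem t3k45_Dh : NC (kD dW qW (1 / 2) (1 / 2) qW.ph qW.qh t3c45.Dh (tcl t3c45)) :=
  NC.of (K := 348) (D := ⟨1, 1, 1, 20⟩) (Box.of 4 (by decide +kernel))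
    (by decide +kernel)

theorem t3k45_B1 : NC (kB dW 0 (1 / 2) t3c45.B1 (tcl t3c45)) :=
  NC.of (K := 106) (D := ⟨1, 1, 1, 9⟩) (Box.of 4 (by decide +kernel))
    (by decide +kernel)

theorem t3k45_E1 : NC (kE dW qW qW.p1 qW.q1 t3c45.E1 (tcl t3c45)) :=
  NC.of (K := 230) (D := ⟨1, 1, 1, 19⟩) (Box.of 4 (by decide +kernel))
    (by decide +kernel)

theorem t3k45_D1 : NC (kD dW qW 0 (1 / 2) qW.p1 qW.q1 t3c45.D1 (tcl t3c45)) :=
  NC.of (K := 348) (D := ⟨1, 1, 1, 20⟩) (Box.of 4 (by decide +kernel))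
    (by decide +kernel)

theorem t3k45_l : NC (qc t3n45.lb - (1 - vX) * pe (exl t3c45.th) vX ^ 2) :=
  NC.of (K := 161) (D := ⟨10, 1, 1, 1⟩) (Box.of 18688 (by decide +kernel))
    (by decide +kernel)

theorem t3k45_n : NC (qc t3n45.nb - vX * (1 - vX) * pe (exl t3c45.th) vX) :=
  NC.of (K := 116) (D := ⟨7, 1, 1, 1⟩) (Box.of 76677152 (by decide +kernel))
    (by decide +kernel)

theorem t3k45_rb : NC (krb t3n45 fW (t1v t3c45)) :=
  NC.of (K := 175) (D := ⟨1, 1, 1, 16⟩) (Box.of 4 (by decide +kernel))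
    (by decide +kernel)

theorem t3k45_kap : NC (kkap dW qW t3n45 (tcl t3c45)) :=
  NC.of (K := 102) (D := ⟨1, 1, 1, 9⟩) (Box.of 4 (by decide +kernel))
    (by decide +kernel)

theorem t3k45_wb2 : NC (qc t3n45.b2 - pe2 kW.QB (vZ * t1v t3c45) (t1v t3c45)) :=
  NC.of (K := 147) (D := ⟨1, 6, 1, 11⟩) (Box.of 18531 (by decide +kernel))
    (by decide +kernel)

theorem t3k45_wmb : NC (qc t3n45.Mb - pe zW.mb (t1v t3c45)) :=
  NC.of (K := 156) (D := ⟨1, 1, 1, 9⟩) (Box.of 76429539 (by decide +kernel))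
    (by decide +kernel)

theorem t3k45_wth : NC (qc (t3c45.th / t3c45.t1) - pe2 zW.Qt (vZ * t1v t3c45) (t1v t3c45)) :=
  NC.of (K := 210) (D := ⟨1, 6, 1, 11⟩) (Box.of 4890966243 (by decide +kernel))
    (by decide +kernel)

theorem t3k45_wyb : NC (qc t3n45.Yb - (t1v t3c45 - vZ * t1v t3c45) ^ 3 * pe2 yW.QY (vZ * t1v t3c45) (t1v t3c45)) :=
  NC.of (K := 121) (D := ⟨1, 8, 1, 12⟩) (Box.of 4 (by decide +kernel))
    (by decide +kernel)

theorem t3k45_wmu : NC (qc t3m45 - pe t3al (tcl t3c45) * (1 + hlf * tcl t3c45)) :=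
  NC.of (K := 99) (D := ⟨1, 1, 1, 9⟩) (Box.of 4 (by decide +kernel))
    (by decide +kernel)

theorem t3k45_wcj : NC (qc t3c45.C * ((6 - 3 * vX) * (1 - qc t3m45 * vX)) - (6 - 6 * vX + vX ^ 2)) :=
  NC.of (K := 45) (D := ⟨3, 1, 1, 1⟩) (Box.of 1198080 (by decide +kernel))
    (by decide +kernel)

theorem t3k45_nd1 : NC (pe t3r45.d1 (t1v t3c45)) :=
  NC.of (K := 61) (D := ⟨1, 1, 1, 7⟩) (Box.of 4 (by decide +kernel))
    (by decide +kernel)

theorem t3k45_nd2 : NC (pe t3r45.d2 (t1v t3c45)) :=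
  NC.of (K := 70) (D := ⟨1, 1, 1, 7⟩) (Box.of 4 (by decide +kernel))
    (by decide +kernel)

theorem t3k45_ndy : NC (pe t3r45.dy (t1v t3c45)) :=
  NC.of (K := 71) (D := ⟨1, 1, 1, 7⟩) (Box.of 4 (by decide +kernel))
    (by decide +kernel)

theorem t3k45_nt1 : NC (pe t3r45.t1 (t1v t3c45)) :=
  NC.of (K := 71) (D := ⟨1, 1, 1, 7⟩) (Box.of 4 (by decide +kernel))
    (by decide +kernel)

theorem t3k45_nt2 : NC (pe t3r45.t2 (t1v t3c45)) :=
  NC.of (K := 68) (D := ⟨1, 1, 1, 7⟩) (Box.of 4 (by decide +kernel))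
    (by decide +kernel)

theorem t3k45_nty : NC (pe t3r45.ty (t1v t3c45)) :=
  NC.of (K := 74) (D := ⟨1, 1, 1, 7⟩) (Box.of 4 (by decide +kernel))
    (by decide +kernel)

theorem t3k45_nhz : NC (pe t3r45.hz (t1v t3c45)) :=
  NC.of (K := 100) (D := ⟨1, 1, 1, 7⟩) (Box.of 18659 (by decide +kernel))
    (by decide +kernel)

theorem t3k45_xi : NC (eXi fW t3c45 t3e45 t3r45 (t1v t3c45)) :=
  NC.of (K := 336) (D := ⟨1, 1, 1, 22⟩) (Box.of 291 (by decide +kernel))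
    (by decide +kernel)

theorem t3k45_om : NC (eOm fW t3r45 (t1v t3c45)) :=
  NC.of (K := 193) (D := ⟨1, 1, 1, 16⟩) (Box.of 291 (by decide +kernel))
    (by decide +kernel)

theorem t3k45_fin : NC (eFin dW t3c45 t3n45 t3r45 t3h45 (tcl t3c45)) :=
  NC.of (K := 235) (D := ⟨1, 1, 1, 14⟩) (Box.of 4 (by decide +kernel))
    (by decide +kernel)

theorem t3k45_xdl : NC (qc t3e45.dl - pe t3d45.l.dl t3d45.eU) :=
  NC.of (K := 70) (D := ⟨1, 4, 1, 1⟩) (Box.of 4 (by decide +kernel))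
    (by decide +kernel)

theorem t3k45_xeY : NC (qc t3e45.eY - pe (e4l t3d45.l.z) t3d45.eU) :=
  NC.of (K := 276) (D := ⟨1, 13, 1, 1⟩) (Box.of 4 (by decide +kernel))
    (by decide +kernel)

theorem t3k45_xgr : NC (qc t3d45.ga * ((1 + qc (3 / 5) * vX) * (1 + (t3d45.eg + hlf * t3d45.eg ^ 2))) + qc t3d45.gb - pe2 t3GR vX t3d45.eU) :=
  NC.of (K := 246) (D := ⟨4, 11, 1, 1⟩) (Box.of 18688 (by decide +kernel))
    (by decide +kernel)

theorem t3k45_xhr : NC (qc t3d45.hb - pe2 t3HR vX t3d45.eU) :=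
  NC.of (K := 255) (D := ⟨3, 12, 1, 1⟩) (Box.of 4 (by decide +kernel))
    (by decide +kernel)

theorem t3k45_xgs : NC (pe t3d45.gs t3d45.e1 - qc (8 / 5) * pe (e4l (ladd t3d45.ls.z t3d45.ls.dl)) t3d45.e1) :=
  NC.of (K := 284) (D := ⟨1, 1, 1, 13⟩) (Box.of 4 (by decide +kernel))
    (by decide +kernel)

theorem t3k45_xd1 : NC (pe t3d45.d1 t3d45.e1 - t3d45.eA t3d45.eU t3d45.e1) :=
  NC.of (K := 277) (D := ⟨1, 12, 1, 12⟩) (Box.of 4 (by decide +kernel))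
    (by decide +kernel)

theorem t3k45_xd2 : NC (pe t3d45.d2 t3d45.e1 - t3d45.eB t3d45.eU t3d45.e1) :=
  NC.of (K := 279) (D := ⟨1, 12, 1, 12⟩) (Box.of 4 (by decide +kernel))
    (by decide +kernel)

theorem t3k45_xt1 : NC (pe t3d45.t1 t3d45.e1 - t3d45.eAT t3d45.eU t3d45.e1) :=
  NC.of (K := 458) (D := ⟨1, 19, 1, 19⟩) (Box.of 4 (by decide +kernel))
    (by decide +kernel)

theorem t3k45_xt2 : NC (pe t3d45.t2 t3d45.e1 - t3d45.eBT t3d45.eU t3d45.e1) :=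
  NC.of (K := 454) (D := ⟨1, 19, 1, 19⟩) (Box.of 4 (by decide +kernel))
    (by decide +kernel)

theorem t3k45_xdy : NC (pe t3d45.dy t3d45.e1 - t3d45.eSD t3d45.eU t3d45.e1) :=
  NC.of (K := 459) (D := ⟨1, 19, 1, 13⟩) (Box.of 4 (by decide +kernel))
    (by decide +kernel)

theorem t3k45_xty : NC (pe t3d45.ty t3d45.e1 - t3d45.eST t3d45.eU t3d45.e1) :=
  NC.of (K := 676) (D := ⟨1, 27, 1, 27⟩) (Box.of 4 (by decide +kernel))
    (by decide +kernel)

theorem t3k45_xd1s : NC (pe t3r45.d1 (t1v t3c45) - pe t3d45.d1 (Xcd.ew zW t3c45)) :=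
  NC.of (K := 609) (D := ⟨1, 1, 1, 55⟩) (Box.of 4 (by decide +kernel))
    (by decide +kernel)

theorem t3k45_xd2s : NC (pe t3r45.d2 (t1v t3c45) - pe t3d45.d2 (Xcd.ew zW t3c45)) :=
  NC.of (K := 609) (D := ⟨1, 1, 1, 55⟩) (Box.of 4 (by decide +kernel))
    (by decide +kernel)

theorem t3k45_xt1s : NC (pe t3r45.t1 (t1v t3c45) - pe t3d45.t1 (Xcd.ew zW t3c45)) :=
  NC.of (K := 615) (D := ⟨1, 1, 1, 55⟩) (Box.of 4 (by decide +kernel))
    (by decide +kernel)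

theorem t3k45_xt2s : NC (pe t3r45.t2 (t1v t3c45) - pe t3d45.t2 (Xcd.ew zW t3c45)) :=
  NC.of (K := 613) (D := ⟨1, 1, 1, 55⟩) (Box.of 4 (by decide +kernel))
    (by decide +kernel)

theorem t3k45_xdys : NC (pe t3r45.dy (t1v t3c45) - pe t3d45.dy (Xcd.ew zW t3c45)) :=
  NC.of (K := 615) (D := ⟨1, 1, 1, 55⟩) (Box.of 4 (by decide +kernel))
    (by decide +kernel)

theorem t3k45_xtys : NC (pe t3r45.ty (t1v t3c45) - pe t3d45.ty (Xcd.ew zW t3c45)) :=
  NC.of (K := 617) (D := ⟨1, 1, 1, 55⟩) (Box.of 4 (by decide +kernel))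
    (by decide +kernel)

theorem t3k45_xhz : NC (pe t3r45.hz (t1v t3c45) - pe t3d45.c.dR (Xcd.ew zW t3c45)) :=
  NC.of (K := 616) (D := ⟨1, 1, 1, 55⟩) (Box.of 4 (by decide +kernel))
    (by decide +kernel)

theorem t3f45_ok : t3f45.ok V2L.y25 V2L.k25 V2L.nb V2L.la (10 ^ 30) 32 = true := by decide +kernel

theorem t3k45_sg : t3c45.Sg := by
  constructor <;> decide +kernel

theorem t3k45_rgs : t3c45.Rgs where
  M := ⟨t3k45_M_r1, t3k45_M_r2, t3k45_M_r3, t3k45_M_r4⟩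
  r0 := ⟨t3k45_r0_r1, t3k45_r0_r2, t3k45_r0_r3, t3k45_r0_r4⟩
  r1 := ⟨t3k45_r1_r1, t3k45_r1_r2, t3k45_r1_r3, t3k45_r1_r4⟩
  r2 := ⟨t3k45_r2_r1, t3k45_r2_r2, t3k45_r2_r3, t3k45_r2_r4⟩
  rc := ⟨t3k45_rc_r1, t3k45_rc_r2, t3k45_rc_r3, t3k45_rc_r4⟩
  rI := ⟨t3k45_rI_r1, t3k45_rI_r2, t3k45_rI_r3, t3k45_rI_r4⟩
  rJ := ⟨t3k45_rJ_r1, t3k45_rJ_r2, t3k45_rJ_r3, t3k45_rJ_r4⟩

theorem t3k45_xn : t3e45.Ok t3c45 where
  lm := by decide +kernel
  dl0 := by decide +kernel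
  dl1 := by decide +kernel
  e2 := by decide +kernel
  eY := by decide +kernel
  gE := ⟨t3k45_gE_r1, t3k45_gE_r2, t3k45_gE_r3, t3k45_gE_r4⟩

theorem t3k45_vl : t3c45.Vl dW qW where
  bt := by decide +kernel
  B0 := t3k45_B0
  E0 := t3k45_E0
  D0 := t3k45_D0
  Bh := t3k45_Bh
  Eh := t3k45_Eh
  Dh := t3k45_Dh
  B1 := t3k45_B1
  E1 := t3k45_E1
  D1 := t3k45_D1

theorem t3k45_rat : t3n45.Rat t3c45 := by
  constructor <;> decide +kernel

theorem t3k45_ck : t3n45.Ck t3c45 := ⟨t3k45_l, t3k45_n⟩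

theorem t3k45_fck : t3n45.Fck dW qW fW t3c45 := ⟨t3k45_rb, t3k45_kap⟩

theorem t3k45_w : Wcl zW kW yW t3al t3c45 t3n45 t3m45 where
  b2 := t3k45_wb2
  mb := t3k45_wmb
  th := t3k45_wth
  yb := t3k45_wyb
  mu := t3k45_wmu
  cj := t3k45_wcj
  mt1 := by decide +kernel
  mt2 := by decide +kernel

theorem t3k45_ok : CelOk dW qW fW t3c45 t3n45 where
  s := t3k45_sg
  r := t3k45_rgs
  v := t3k45_vl
  rt := t3k45_rat
  k := t3k45_ck
  fc := t3k45_fck
  q01 := by decide +kernel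
  q12 := by decide +kernel
  h2 := by decide +kernel

theorem t3k45_xr : t3r45.Ok fW t3c45 t3e45 where
  sD := by decide +kernel
  sT := by decide +kernel
  nd1 := t3k45_nd1
  nd2 := t3k45_nd2
  ndy := t3k45_ndy
  nt1 := t3k45_nt1
  nt2 := t3k45_nt2
  nty := t3k45_nty
  nhz := t3k45_nhz
  xi := t3k45_xi
  om := t3k45_om

theorem t3k45_X : t3d45.Ck t3GR t3HR zW t3c45 t3e45 t3r45 where
  u0 := by decide +kernel
  u01 := by decide +kernel
  ul := by decide +kernel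
  us := by decide +kernel
  uc := by decide +kernel
  ga0 := by decide +kernel
  kp0 := by decide +kernel
  lm := by decide +kernel
  dl := t3k45_xdl
  eY := t3k45_xeY
  gr := t3k45_xgr
  hr := t3k45_xhr
  gs := t3k45_xgs
  d1 := t3k45_xd1
  d2 := t3k45_xd2
  t1 := t3k45_xt1
  t2 := t3k45_xt2
  dy := t3k45_xdy
  ty := t3k45_xty
  d1s := t3k45_xd1s
  d2s := t3k45_xd2s
  t1s := t3k45_xt1s
  t2s := t3k45_xt2s
  dys := t3k45_xdys
  tys := t3k45_xtys
  hz := t3k45_xhz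

end Pool.Agent.RX.RCN.K
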