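import Pool.Agent.RX.RCN.T3D
import Pool.Agent.RX.RCN.T3Wq
import Pool.Agent.RX.RCN.T3X26
import Pool.Agent.RX.RCN.VLd

/-! Certificates (generated). -/

set_option autoImplicit false

namespace Pool.Agent.RX.RCN.K

open Set Pool.Agent.RX.RCM9 Pool.Agent.RX.RCM9.Bern Pool.Agent.RX.RCM9.Pk Xce

def t3c46 : Cel where
  t0 := 27 / 50
  t1 := 109 / 200
  C := 513 / 512
  th := 1145 / 2048
  B0 := 2065 / 2048
  Bh := 1169 / 1024
  B1 := 1165 / 1024
  D0 := 405 / 1024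
  Dh := 349 / 1024
  D1 := 1343 / 4096
  E0 := 571 / 32768
  Eh := 127 / 8192
  E1 := 489 / 32768
  Q0 := 1037 / 1024
  Q1 := 131 / 128
  Q2 := 593 / 512
  Ac := 1045 / 1024
  gI := 525 / 512
  J := 2149 / 65536

def t3n46 : Chn where
  lb := 129 / 128
  nb := 173 / 512
  Mb := 525 / 512
  b2 := 1067 / 1024
  Yb := 85 / 4096
  E2 := 2135 / 2048
  e1 := 1409 / 1024
  Z1 := 549 / 512
  Z2 := 643 / 1024
  KB := 1093 / 1024
  cb := 1109 / 1024
  rb := 459 / 1024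
  om := 263 / 256
  fb := 129 / 128
  kap := 4265 / 4096
  ab := 1029 / 1024

def t3e46 : Xge where
  lm := 3 / 5
  dl := 2159 / 4096
  e2 := 1371 / 8192
  eY := 2093 / 2048
  gE := 1205 / 1024

def t3r46 : Xr where
  d1 := [2377283 / 50000000, 725453 / 50000000, 3353143 / 100000000, 17080861 / 100000000,
    -42870737 / 100000000, 72875189 / 100000000, -39831219 / 100000000]
  d2 := [76827 / 4000000, 1866633 / 25000000, 87681 / 25000000, 85772559 / 100000000, -7979637 /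
    4000000, 17313657 / 6250000, -30131253 / 20000000]
  dy := [5941809 / 6250000, 39570557 / 100000000, 2580283 / 10000000, 258590987 / 50000000,
    -1232574651 / 100000000, 1646743093 / 100000000, -17818653 / 2000000]
  t1 := [11198523 / 50000000, -9583599 / 20000000, -17783 / 312500, 146160151 / 100000000,
    -20273847 / 10000000, 40762037 / 25000000, -7227581 / 100000000]
  t2 := [1075799 / 10000000, -15149773 / 100000000, -6973619 / 50000000, 155602833 / 100000000,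
    -252541429 / 100000000, 59765699 / 20000000, -148238707 / 100000000]
  ty := [151596033 / 50000000, -538812187 / 100000000, -59432451 / 6250000, 714099031 / 12500000,
    -3933237081 / 50000000, 900306997 / 20000000, -143459411 / 20000000]
  hz := [25024301 / 100000000, -13305221 / 50000000, -274402471 / 50000000, 765405997 / 20000000,
    -21376233 / 160000, 22451621091 / 100000000, -14027109397 / 100000000]
  om := [100396703 / 100000000, 4134957 / 4000000, -1438333823 / 100000000, 6413121213 /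
    100000000, -4152378523 / 20000000, 64066237561 / 100000000, -145907463253 / 100000000,
    37919154103 / 20000000, -52126085167 / 50000000]
  sD := 749 / 256
  sT := 337 / 128
  xi := [29169529 / 100000000, 80912023 / 50000000, -151762011 / 25000000, -115676539 / 50000000,
    5281308429 / 50000000, -6474303209 / 12500000, 77116364509 / 50000000, -58322668719 /
    20000000, 161609002901 / 50000000, -40034105777 / 25000000]

def t3f46 : Dl where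
  Ca := 2716921 / 5000000
  Cv := 137111 / 250000
  k1 := 870487 / 1000000
  ks := 851897 / 1000000
  dd := 101 / 1000000
  kp := 1011 / 10000000
  e := [999999490701 / 1000000000000, -185425032027 / 125000000000, 1711181050937 / 1000000000000,
    -879306756683 / 500000000000, 1693435652607 / 1000000000000, -186362856199 / 125000000000,
    1117138295597 / 1000000000000, -37765797079 / 62500000000, 166284899079 / 1000000000000]
  j1 := [379107 / 200000000, -6108652707 / 1000000000, 63254272749 / 1000000000, -316460448633 /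
    1000000000, 60649626223 / 62500000, -371893364621 / 200000000, 127453940163 / 62500000,
    -96276792591 / 100000000]
  nu := [160256813 / 1000000000, -66602709 / 250000000, 67874991 / 200000000, 91677713 /
    500000000, -464327281 / 1000000000, 1017852883 / 1000000000, -579204063 / 1000000000]
  k2 := [851898081 / 1000000000, 227096283 / 1000000000, -129145959 / 500000000, -243775001 /
    1000000000, 475966357 / 1000000000, -193134503 / 200000000, 600595359 / 1000000000]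
  dR := [4994869 / 20000000, -26917527 / 100000000, -33557489 / 6250000, 3723704723 / 100000000,
    -404703971 / 3125000, 21699467303 / 100000000, -1351532599 / 10000000]

def t3d46 : Xce where
  u0 := 54389 / 100000
  u1 := 137111 / 250000
  l := V2L.y26
  y := t3z26
  j := t3j26
  i := t3i26
  ls := t3y26
  k := V2L.k26
  c := t3f46
  ga := 23713 / 500000
  gb := -4591 / 250000
  hb := 35021 / 100000
  gs := [160003613 / 100000000, 119999763 / 50000000, 36002699 / 20000000, 7945677 / 10000000,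
    1365117 / 5000000, -13479091 / 100000000, -1240033 / 25000000]
  d1 := [4750573 / 100000000, 1355453 / 100000000, 5291187 / 100000000, 807783 / 50000000,
    11003987 / 100000000, -5977667 / 50000000, 8252523 / 100000000]
  d2 := [1914799 / 100000000, 1799603 / 25000000, 1417979 / 25000000, 42983587 / 100000000,
    -9815321 / 20000000, 18737717 / 50000000, -1241163 / 10000000]
  dy := [94991417 / 100000000, 37973453 / 100000000, 57783419 / 100000000, 257984313 / 100000000,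
    -39695763 / 12500000, 45950941 / 25000000, -41734753 / 100000000]
  t1 := [2238583 / 10000000, -47812501 / 100000000, -1354289 / 25000000, 29408709 / 20000000,
    -44338991 / 20000000, 109112651 / 50000000, -5728021 / 10000000]
  t2 := [5376057 / 50000000, -15325851 / 100000000, -9162081 / 100000000, 29556159 / 25000000,
    -127273399 / 100000000, 108350109 / 100000000, -8919043 / 20000000]
  ty := [151520263 / 50000000, -21537687 / 4000000, -919176517 / 100000000, 5472325913 /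
    100000000, -7170455489 / 100000000, 112244663 / 3125000, -11985881 / 4000000]

def t3m46 : ℚ := 2145 / 4096

def t3h46 : ℚ := 273 / 500

theorem t3k46_M_r1 : NC (fM t3c46 (1 - eh) eh ek (elo t3c46.B0 t3c46.Bh eh) (elo t3c46.D0 t3c46.Dh ek) (elo t3c46.E0 t3c46.Eh ek)) :=
  NC.of (K := 30) (D := ⟨4, 3, 1, 1⟩) (Box.of 4 (by decide +kernel))
    (by decide +kernel)

theorem t3k46_M_r2 : NC (fM t3c46 eh (1 - eh) ek (ehi t3c46.Bh t3c46.B1 (1 - eh)) (elo t3c46.D0 t3c46.Dh ek) (elo t3c46.E0 t3c46.Eh ek)) :=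
  NC.of (K := 30) (D := ⟨4, 3, 1, 1⟩) (Box.of 4 (by decide +kernel))
    (by decide +kernel)

theorem t3k46_M_r3 : NC (fM t3c46 (1 - eh) ek eh (elo t3c46.B0 t3c46.Bh ek) (elo t3c46.D0 t3c46.Dh eh) (elo t3c46.E0 t3c46.Eh eh)) :=
  NC.of (K := 29) (D := ⟨4, 2, 1, 1⟩) (Box.of 4 (by decide +kernel))
    (by decide +kernel)

theorem t3k46_M_r4 : NC (fM t3c46 eh ek (1 - eh) (elo t3c46.B0 t3c46.Bh ek) (ehi t3c46.Dh t3c46.D1 (1 - eh)) (ehi t3c46.Eh t3c46.E1 (1 - eh))) :=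
  NC.of (K := 32) (D := ⟨4, 2, 1, 1⟩) (Box.of 4 (by decide +kernel))
    (by decide +kernel)

theorem t3k46_r0_r1 : NC (f0 t3c46 (1 - eh) eh ek (elo t3c46.B0 t3c46.Bh eh) (elo t3c46.D0 t3c46.Dh ek) (elo t3c46.E0 t3c46.Eh ek)) :=
  NC.of (K := 143) (D := ⟨13, 9, 1, 1⟩) (Box.of 4 (by decide +kernel))
    (by decide +kernel)

theorem t3k46_r0_r2 : NC (f0 t3c46 eh (1 - eh) ek (ehi t3c46.Bh t3c46.B1 (1 - eh)) (elo t3c46.D0 t3c46.Dh ek) (elo t3c46.E0 t3c46.Eh ek)) :=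
  NC.of (K := 143) (D := ⟨13, 9, 1, 1⟩) (Box.of 4 (by decide +kernel))
    (by decide +kernel)

theorem t3k46_r0_r3 : NC (f0 t3c46 (1 - eh) ek eh (elo t3c46.B0 t3c46.Bh ek) (elo t3c46.D0 t3c46.Dh eh) (elo t3c46.E0 t3c46.Eh eh)) :=
  NC.of (K := 138) (D := ⟨13, 5, 1, 1⟩) (Box.of 4 (by decide +kernel))
    (by decide +kernel)

theorem t3k46_r0_r4 : NC (f0 t3c46 eh ek (1 - eh) (elo t3c46.B0 t3c46.Bh ek) (ehi t3c46.Dh t3c46.D1 (1 - eh)) (ehi t3c46.Eh t3c46.E1 (1 - eh))) :=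
  NC.of (K := 151) (D := ⟨13, 5, 1, 1⟩) (Box.of 4 (by decide +kernel))
    (by decide +kernel)

theorem t3k46_r1_r1 : NC (f1 t3c46 (1 - eh) eh ek (elo t3c46.B0 t3c46.Bh eh) (elo t3c46.D0 t3c46.Dh ek) (elo t3c46.E0 t3c46.Eh ek)) :=
  NC.of (K := 251) (D := ⟨16, 9, 1, 1⟩) (Box.of 288 (by decide +kernel))
    (by decide +kernel)

theorem t3k46_r1_r2 : NC (f1 t3c46 eh (1 - eh) ek (ehi t3c46.Bh t3c46.B1 (1 - eh)) (elo t3c46.D0 t3c46.Dh ek) (elo t3c46.E0 t3c46.Eh ek)) :=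
  NC.of (K := 220) (D := ⟨16, 9, 1, 1⟩) (Box.of 4 (by decide +kernel))
    (by decide +kernel)

theorem t3k46_r1_r3 : NC (f1 t3c46 (1 - eh) ek eh (elo t3c46.B0 t3c46.Bh ek) (elo t3c46.D0 t3c46.Dh eh) (elo t3c46.E0 t3c46.Eh eh)) :=
  NC.of (K := 254) (D := ⟨16, 12, 1, 1⟩) (Box.of 288 (by decide +kernel))
    (by decide +kernel)

theorem t3k46_r1_r4 : NC (f1 t3c46 eh ek (1 - eh) (elo t3c46.B0 t3c46.Bh ek) (ehi t3c46.Dh t3c46.D1 (1 - eh)) (ehi t3c46.Eh t3c46.E1 (1 - eh))) :=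
  NC.of (K := 227) (D := ⟨16, 12, 1, 1⟩) (Box.of 4 (by decide +kernel))
    (by decide +kernel)

theorem t3k46_r2_r1 : NC (f2 t3c46 (1 - eh) eh ek (elo t3c46.B0 t3c46.Bh eh) (elo t3c46.D0 t3c46.Dh ek) (elo t3c46.E0 t3c46.Eh ek)) :=
  NC.of (K := 254) (D := ⟨16, 11, 1, 1⟩) (Box.of 288 (by decide +kernel))
    (by decide +kernel)

theorem t3k46_r2_r2 : NC (f2 t3c46 eh (1 - eh) ek (ehi t3c46.Bh t3c46.B1 (1 - eh)) (elo t3c46.D0 t3c46.Dh ek) (elo t3c46.E0 t3c46.Eh ek)) :=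
  NC.of (K := 223) (D := ⟨16, 11, 1, 1⟩) (Box.of 4 (by decide +kernel))
    (by decide +kernel)

theorem t3k46_r2_r3 : NC (f2 t3c46 (1 - eh) ek eh (elo t3c46.B0 t3c46.Bh ek) (elo t3c46.D0 t3c46.Dh eh) (elo t3c46.E0 t3c46.Eh eh)) :=
  NC.of (K := 255) (D := ⟨16, 12, 1, 1⟩) (Box.of 288 (by decide +kernel))
    (by decide +kernel)

theorem t3k46_r2_r4 : NC (f2 t3c46 eh ek (1 - eh) (elo t3c46.B0 t3c46.Bh ek) (ehi t3c46.Dh t3c46.D1 (1 - eh)) (ehi t3c46.Eh t3c46.E1 (1 - eh))) :=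
  NC.of (K := 229) (D := ⟨16, 12, 1, 1⟩) (Box.of 4 (by decide +kernel))
    (by decide +kernel)

theorem t3k46_rc_r1 : NC (fc t3c46 (1 - eh) eh ek (elo t3c46.B0 t3c46.Bh eh) (elo t3c46.D0 t3c46.Dh ek) (elo t3c46.E0 t3c46.Eh ek)) :=
  NC.of (K := 165) (D := ⟨13, 9, 1, 1⟩) (Box.of 288 (by decide +kernel))
    (by decide +kernel)

theorem t3k46_rc_r2 : NC (fc t3c46 eh (1 - eh) ek (ehi t3c46.Bh t3c46.B1 (1 - eh)) (elo t3c46.D0 t3c46.Dh ek) (elo t3c46.E0 t3c46.Eh ek)) :=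
  NC.of (K := 142) (D := ⟨13, 9, 1, 1⟩) (Box.of 4 (by decide +kernel))
    (by decide +kernel)

theorem t3k46_rc_r3 : NC (fc t3c46 (1 - eh) ek eh (elo t3c46.B0 t3c46.Bh ek) (elo t3c46.D0 t3c46.Dh eh) (elo t3c46.E0 t3c46.Eh eh)) :=
  NC.of (K := 161) (D := ⟨13, 5, 1, 1⟩) (Box.of 288 (by decide +kernel))
    (by decide +kernel)

theorem t3k46_rc_r4 : NC (fc t3c46 eh ek (1 - eh) (elo t3c46.B0 t3c46.Bh ek) (ehi t3c46.Dh t3c46.D1 (1 - eh)) (ehi t3c46.Eh t3c46.E1 (1 - eh))) :=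
  NC.of (K := 151) (D := ⟨13, 5, 1, 1⟩) (Box.of 4 (by decide +kernel))
    (by decide +kernel)

theorem t3k46_rI_r1 : NC (fI t3c46 (1 - eh) eh ek (elo t3c46.B0 t3c46.Bh eh) (elo t3c46.D0 t3c46.Dh ek) (elo t3c46.E0 t3c46.Eh ek)) :=
  NC.of (K := 128) (D := ⟨13, 9, 1, 1⟩) (Box.of 4 (by decide +kernel))
    (by decide +kernel)

theorem t3k46_rI_r2 : NC (fI t3c46 eh (1 - eh) ek (ehi t3c46.Bh t3c46.B1 (1 - eh)) (elo t3c46.D0 t3c46.Dh ek) (elo t3c46.E0 t3c46.Eh ek)) :=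
  NC.of (K := 128) (D := ⟨13, 9, 1, 1⟩) (Box.of 4 (by decide +kernel))
    (by decide +kernel)

theorem t3k46_rI_r3 : NC (fI t3c46 (1 - eh) ek eh (elo t3c46.B0 t3c46.Bh ek) (elo t3c46.D0 t3c46.Dh eh) (elo t3c46.E0 t3c46.Eh eh)) :=
  NC.of (K := 146) (D := ⟨13, 5, 1, 1⟩) (Box.of 288 (by decide +kernel))
    (by decide +kernel)

theorem t3k46_rI_r4 : NC (fI t3c46 eh ek (1 - eh) (elo t3c46.B0 t3c46.Bh ek) (ehi t3c46.Dh t3c46.D1 (1 - eh)) (ehi t3c46.Eh t3c46.E1 (1 - eh))) :=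
  NC.of (K := 137) (D := ⟨13, 5, 1, 1⟩) (Box.of 4 (by decide +kernel))
    (by decide +kernel)

theorem t3k46_rJ_r1 : NC (fJ t3c46 (1 - eh) eh ek (elo t3c46.B0 t3c46.Bh eh) (elo t3c46.D0 t3c46.Dh ek) (elo t3c46.E0 t3c46.Eh ek)) :=
  NC.of (K := 75) (D := ⟨7, 5, 1, 1⟩) (Box.of 4 (by decide +kernel))
    (by decide +kernel)

theorem t3k46_rJ_r2 : NC (fJ t3c46 eh (1 - eh) ek (ehi t3c46.Bh t3c46.B1 (1 - eh)) (elo t3c46.D0 t3c46.Dh ek) (elo t3c46.E0 t3c46.Eh ek)) :=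
  NC.of (K := 75) (D := ⟨7, 5, 1, 1⟩) (Box.of 4 (by decide +kernel))
    (by decide +kernel)

theorem t3k46_rJ_r3 : NC (fJ t3c46 (1 - eh) ek eh (elo t3c46.B0 t3c46.Bh ek) (elo t3c46.D0 t3c46.Dh eh) (elo t3c46.E0 t3c46.Eh eh)) :=
  NC.of (K := 72) (D := ⟨7, 3, 1, 1⟩) (Box.of 4 (by decide +kernel))
    (by decide +kernel)

theorem t3k46_rJ_r4 : NC (fJ t3c46 eh ek (1 - eh) (elo t3c46.B0 t3c46.Bh ek) (ehi t3c46.Dh t3c46.D1 (1 - eh)) (ehi t3c46.Eh t3c46.E1 (1 - eh))) :=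
  NC.of (K := 79) (D := ⟨7, 3, 1, 1⟩) (Box.of 4 (by decide +kernel))
    (by decide +kernel)

theorem t3k46_gE_r1 : NC (fE t3c46 t3e46 (1 - eh) eh ek (elo t3c46.B0 t3c46.Bh eh) (elo t3c46.D0 t3c46.Dh ek) (elo t3c46.E0 t3c46.Eh ek)) :=
  NC.of (K := 154) (D := ⟨13, 9, 1, 1⟩) (Box.of 288 (by decide +kernel))
    (by decide +kernel)

theorem t3k46_gE_r2 : NC (fE t3c46 t3e46 eh (1 - eh) ek (ehi t3c46.Bh t3c46.B1 (1 - eh)) (elo t3c46.D0 t3c46.Dh ek) (elo t3c46.E0 t3c46.Eh ek)) :=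
  NC.of (K := 132) (D := ⟨13, 9, 1, 1⟩) (Box.of 4 (by decide +kernel))
    (by decide +kernel)

theorem t3k46_gE_r3 : NC (fE t3c46 t3e46 (1 - eh) ek eh (elo t3c46.B0 t3c46.Bh ek) (elo t3c46.D0 t3c46.Dh eh) (elo t3c46.E0 t3c46.Eh eh)) :=
  NC.of (K := 164) (D := ⟨13, 7, 1, 1⟩) (Box.of 18528 (by decide +kernel))
    (by decide +kernel)

theorem t3k46_gE_r4 : NC (fE t3c46 t3e46 eh ek (1 - eh) (elo t3c46.B0 t3c46.Bh ek) (ehi t3c46.Dh t3c46.D1 (1 - eh)) (ehi t3c46.Eh t3c46.E1 (1 - eh))) :=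
  NC.of (K := 143) (D := ⟨13, 7, 1, 1⟩) (Box.of 4 (by decide +kernel))
    (by decide +kernel)

theorem t3k46_B0 : NC (kB dW 1 0 t3c46.B0 (tcl t3c46)) :=
  NC.of (K := 103) (D := ⟨1, 1, 1, 9⟩) (Box.of 4 (by decide +kernel))
    (by decide +kernel)

theorem t3k46_E0 : NC (kE dW qW qW.p0 qW.q0 t3c46.E0 (tcl t3c46)) :=
  NC.of (K := 227) (D := ⟨1, 1, 1, 19⟩) (Box.of 4 (by decide +kernel))
    (by decide +kernel)

theorem t3k46_D0 : NC (kD dW qW 1 0 qW.p0 qW.q0 t3c46.D0 (tcl t3c46)) :=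
  NC.of (K := 344) (D := ⟨1, 1, 1, 20⟩) (Box.of 4 (by decide +kernel))
    (by decide +kernel)

theorem t3k46_Bh : NC (kB dW (1 / 2) (1 / 2) t3c46.Bh (tcl t3c46)) :=
  NC.of (K := 106) (D := ⟨1, 1, 1, 9⟩) (Box.of 4 (by decide +kernel))
    (by decide +kernel)

theorem t3k46_Eh : NC (kE dW qW qW.ph qW.qh t3c46.Eh (tcl t3c46)) :=
  NC.of (K := 231) (D := ⟨1, 1, 1, 19⟩) (Box.of 4 (by decide +kernel))
    (by decide +kernel)

theorem t3k46_Dh : NC (kD dW qW (1 / 2) (1 / 2) qW.ph qW.qh t3c46.Dh (tcl t3c46)) :=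
  NC.of (K := 348) (D := ⟨1, 1, 1, 20⟩) (Box.of 4 (by decide +kernel))
    (by decide +kernel)

theorem t3k46_B1 : NC (kB dW 0 (1 / 2) t3c46.B1 (tcl t3c46)) :=
  NC.of (K := 106) (D := ⟨1, 1, 1, 9⟩) (Box.of 4 (by decide +kernel))
    (by decide +kernel)

theorem t3k46_E1 : NC (kE dW qW qW.p1 qW.q1 t3c46.E1 (tcl t3c46)) :=
  NC.of (K := 231) (D := ⟨1, 1, 1, 19⟩) (Box.of 4 (by decide +kernel))
    (by decide +kernel)

theorem t3k46_D1 : NC (kD dW qW 0 (1 / 2) qW.p1 qW.q1 t3c46.D1 (tcl t3c46)) :=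
  NC.of (K := 348) (D := ⟨1, 1, 1, 20⟩) (Box.of 4 (by decide +kernel))
    (by decide +kernel)

theorem t3k46_l : NC (qc t3n46.lb - (1 - vX) * pe (exl t3c46.th) vX ^ 2) :=
  NC.of (K := 153) (D := ⟨10, 1, 1, 1⟩) (Box.of 18688 (by decide +kernel))
    (by decide +kernel)

theorem t3k46_n : NC (qc t3n46.nb - vX * (1 - vX) * pe (exl t3c46.th) vX) :=
  NC.of (K := 112) (D := ⟨7, 1, 1, 1⟩) (Box.of 76677152 (by decide +kernel))
    (by decide +kernel)

theorem t3k46_rb : NC (krb t3n46 fW (t1v t3c46)) :=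
  NC.of (K := 204) (D := ⟨1, 1, 1, 16⟩) (Box.of 4 (by decide +kernel))
    (by decide +kernel)

theorem t3k46_kap : NC (kkap dW qW t3n46 (tcl t3c46)) :=
  NC.of (K := 102) (D := ⟨1, 1, 1, 9⟩) (Box.of 4 (by decide +kernel))
    (by decide +kernel)

theorem t3k46_wb2 : NC (qc t3n46.b2 - pe2 kW.QB (vZ * t1v t3c46) (t1v t3c46)) :=
  NC.of (K := 168) (D := ⟨1, 6, 1, 11⟩) (Box.of 18531 (by decide +kernel))
    (by decide +kernel)

theorem t3k46_wmb : NC (qc t3n46.Mb - pe zW.mb (t1v t3c46)) :=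
  NC.of (K := 172) (D := ⟨1, 1, 1, 9⟩) (Box.of 76429539 (by decide +kernel))
    (by decide +kernel)

theorem t3k46_wth : NC (qc (t3c46.th / t3c46.t1) - pe2 zW.Qt (vZ * t1v t3c46) (t1v t3c46)) :=
  NC.of (K := 212) (D := ⟨1, 6, 1, 11⟩) (Box.of 76421347 (by decide +kernel))
    (by decide +kernel)

theorem t3k46_wyb : NC (qc t3n46.Yb - (t1v t3c46 - vZ * t1v t3c46) ^ 3 * pe2 yW.QY (vZ * t1v t3c46) (t1v t3c46)) :=
  NC.of (K := 144) (D := ⟨1, 8, 1, 12⟩) (Box.of 4 (by decide +kernel))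
    (by decide +kernel)

theorem t3k46_wmu : NC (qc t3m46 - pe t3al (tcl t3c46) * (1 + hlf * tcl t3c46)) :=
  NC.of (K := 99) (D := ⟨1, 1, 1, 9⟩) (Box.of 4 (by decide +kernel))
    (by decide +kernel)

theorem t3k46_wcj : NC (qc t3c46.C * ((6 - 3 * vX) * (1 - qc t3m46 * vX)) - (6 - 6 * vX + vX ^ 2)) :=
  NC.of (K := 45) (D := ⟨3, 1, 1, 1⟩) (Box.of 1198080 (by decide +kernel))
    (by decide +kernel)

theorem t3k46_nd1 : NC (pe t3r46.d1 (t1v t3c46)) :=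
  NC.of (K := 80) (D := ⟨1, 1, 1, 7⟩) (Box.of 4 (by decide +kernel))
    (by decide +kernel)

theorem t3k46_nd2 : NC (pe t3r46.d2 (t1v t3c46)) :=
  NC.of (K := 80) (D := ⟨1, 1, 1, 7⟩) (Box.of 4 (by decide +kernel))
    (by decide +kernel)

theorem t3k46_ndy : NC (pe t3r46.dy (t1v t3c46)) :=
  NC.of (K := 79) (D := ⟨1, 1, 1, 7⟩) (Box.of 4 (by decide +kernel))
    (by decide +kernel)

theorem t3k46_nt1 : NC (pe t3r46.t1 (t1v t3c46)) :=
  NC.of (K := 83) (D := ⟨1, 1, 1, 7⟩) (Box.of 4 (by decide +kernel))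
    (by decide +kernel)

theorem t3k46_nt2 : NC (pe t3r46.t2 (t1v t3c46)) :=
  NC.of (K := 83) (D := ⟨1, 1, 1, 7⟩) (Box.of 4 (by decide +kernel))
    (by decide +kernel)

theorem t3k46_nty : NC (pe t3r46.ty (t1v t3c46)) :=
  NC.of (K := 85) (D := ⟨1, 1, 1, 7⟩) (Box.of 4 (by decide +kernel))
    (by decide +kernel)

theorem t3k46_nhz : NC (pe t3r46.hz (t1v t3c46)) :=
  NC.of (K := 112) (D := ⟨1, 1, 1, 7⟩) (Box.of 18659 (by decide +kernel))
    (by decide +kernel)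

theorem t3k46_xi : NC (eXi fW t3c46 t3e46 t3r46 (t1v t3c46)) :=
  NC.of (K := 374) (D := ⟨1, 1, 1, 22⟩) (Box.of 291 (by decide +kernel))
    (by decide +kernel)

theorem t3k46_om : NC (eOm fW t3r46 (t1v t3c46)) :=
  NC.of (K := 223) (D := ⟨1, 1, 1, 16⟩) (Box.of 291 (by decide +kernel))
    (by decide +kernel)

theorem t3k46_fin : NC (eFin dW t3c46 t3n46 t3r46 t3h46 (tcl t3c46)) :=
  NC.of (K := 236) (D := ⟨1, 1, 1, 14⟩) (Box.of 4 (by decide +kernel))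
    (by decide +kernel)

theorem t3k46_xdl : NC (qc t3e46.dl - pe t3d46.l.dl t3d46.eU) :=
  NC.of (K := 70) (D := ⟨1, 4, 1, 1⟩) (Box.of 4 (by decide +kernel))
    (by decide +kernel)

theorem t3k46_xeY : NC (qc t3e46.eY - pe (e4l t3d46.l.z) t3d46.eU) :=
  NC.of (K := 276) (D := ⟨1, 13, 1, 1⟩) (Box.of 4 (by decide +kernel))
    (by decide +kernel)

theorem t3k46_xgr : NC (qc t3d46.ga * ((1 + qc (3 / 5) * vX) * (1 + (t3d46.eg + hlf * t3d46.eg ^ 2))) + qc t3d46.gb - pe2 t3GR vX t3d46.eU) :=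
  NC.of (K := 246) (D := ⟨4, 11, 1, 1⟩) (Box.of 18688 (by decide +kernel))
    (by decide +kernel)

theorem t3k46_xhr : NC (qc t3d46.hb - pe2 t3HR vX t3d46.eU) :=
  NC.of (K := 255) (D := ⟨3, 12, 1, 1⟩) (Box.of 4 (by decide +kernel))
    (by decide +kernel)

theorem t3k46_xgs : NC (pe t3d46.gs t3d46.e1 - qc (8 / 5) * pe (e4l (ladd t3d46.ls.z t3d46.ls.dl)) t3d46.e1) :=
  NC.of (K := 272) (D := ⟨1, 1, 1, 13⟩) (Box.of 4 (by decide +kernel))
    (by decide +kernel)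

theorem t3k46_xd1 : NC (pe t3d46.d1 t3d46.e1 - t3d46.eA t3d46.eU t3d46.e1) :=
  NC.of (K := 280) (D := ⟨1, 12, 1, 12⟩) (Box.of 4 (by decide +kernel))
    (by decide +kernel)

theorem t3k46_xd2 : NC (pe t3d46.d2 t3d46.e1 - t3d46.eB t3d46.eU t3d46.e1) :=
  NC.of (K := 280) (D := ⟨1, 12, 1, 12⟩) (Box.of 4 (by decide +kernel))
    (by decide +kernel)

theorem t3k46_xt1 : NC (pe t3d46.t1 t3d46.e1 - t3d46.eAT t3d46.eU t3d46.e1) :=
  NC.of (K := 454) (D := ⟨1, 19, 1, 19⟩) (Box.of 4 (by decide +kernel))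
    (by decide +kernel)

theorem t3k46_xt2 : NC (pe t3d46.t2 t3d46.e1 - t3d46.eBT t3d46.eU t3d46.e1) :=
  NC.of (K := 460) (D := ⟨1, 19, 1, 19⟩) (Box.of 4 (by decide +kernel))
    (by decide +kernel)

theorem t3k46_xdy : NC (pe t3d46.dy t3d46.e1 - t3d46.eSD t3d46.eU t3d46.e1) :=
  NC.of (K := 485) (D := ⟨1, 20, 1, 14⟩) (Box.of 4 (by decide +kernel))
    (by decide +kernel)

theorem t3k46_xty : NC (pe t3d46.ty t3d46.e1 - t3d46.eST t3d46.eU t3d46.e1) :=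
  NC.of (K := 701) (D := ⟨1, 28, 1, 28⟩) (Box.of 4 (by decide +kernel))
    (by decide +kernel)

theorem t3k46_xd1s : NC (pe t3r46.d1 (t1v t3c46) - pe t3d46.d1 (Xcd.ew zW t3c46)) :=
  NC.of (K := 708) (D := ⟨1, 1, 1, 55⟩) (Box.of 4 (by decide +kernel))
    (by decide +kernel)

theorem t3k46_xd2s : NC (pe t3r46.d2 (t1v t3c46) - pe t3d46.d2 (Xcd.ew zW t3c46)) :=
  NC.of (K := 706) (D := ⟨1, 1, 1, 55⟩) (Box.of 4 (by decide +kernel))
    (by decide +kernel)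

theorem t3k46_xt1s : NC (pe t3r46.t1 (t1v t3c46) - pe t3d46.t1 (Xcd.ew zW t3c46)) :=
  NC.of (K := 708) (D := ⟨1, 1, 1, 55⟩) (Box.of 4 (by decide +kernel))
    (by decide +kernel)

theorem t3k46_xt2s : NC (pe t3r46.t2 (t1v t3c46) - pe t3d46.t2 (Xcd.ew zW t3c46)) :=
  NC.of (K := 709) (D := ⟨1, 1, 1, 55⟩) (Box.of 4 (by decide +kernel))
    (by decide +kernel)

theorem t3k46_xdys : NC (pe t3r46.dy (t1v t3c46) - pe t3d46.dy (Xcd.ew zW t3c46)) :=
  NC.of (K := 711) (D := ⟨1, 1, 1, 55⟩) (Box.of 4 (by decide +kernel))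
    (by decide +kernel)

theorem t3k46_xtys : NC (pe t3r46.ty (t1v t3c46) - pe t3d46.ty (Xcd.ew zW t3c46)) :=
  NC.of (K := 710) (D := ⟨1, 1, 1, 55⟩) (Box.of 4 (by decide +kernel))
    (by decide +kernel)

theorem t3k46_xhz : NC (pe t3r46.hz (t1v t3c46) - pe t3d46.c.dR (Xcd.ew zW t3c46)) :=
  NC.of (K := 716) (D := ⟨1, 1, 1, 55⟩) (Box.of 4 (by decide +kernel))
    (by decide +kernel)

theorem t3f46_ok : t3f46.ok V2L.y26 V2L.k26 V2L.nb V2L.la (10 ^ 30) 32 = true := by decide +kernel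

theorem t3k46_sg : t3c46.Sg := by
  constructor <;> decide +kernel

theorem t3k46_rgs : t3c46.Rgs where
  M := ⟨t3k46_M_r1, t3k46_M_r2, t3k46_M_r3, t3k46_M_r4⟩
  r0 := ⟨t3k46_r0_r1, t3k46_r0_r2, t3k46_r0_r3, t3k46_r0_r4⟩
  r1 := ⟨t3k46_r1_r1, t3k46_r1_r2, t3k46_r1_r3, t3k46_r1_r4⟩
  r2 := ⟨t3k46_r2_r1, t3k46_r2_r2, t3k46_r2_r3, t3k46_r2_r4⟩
  rc := ⟨t3k46_rc_r1, t3k46_rc_r2, t3k46_rc_r3, t3k46_rc_r4⟩
  rI := ⟨t3k46_rI_r1, t3k46_rI_r2, t3k46_rI_r3, t3k46_rI_r4⟩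
  rJ := ⟨t3k46_rJ_r1, t3k46_rJ_r2, t3k46_rJ_r3, t3k46_rJ_r4⟩

theorem t3k46_xn : t3e46.Ok t3c46 where
  lm := by decide +kernel
  dl0 := by decide +kernel
  dl1 := by decide +kernel
  e2 := by decide +kernel
  eY := by decide +kernel
  gE := ⟨t3k46_gE_r1, t3k46_gE_r2, t3k46_gE_r3, t3k46_gE_r4⟩

theorem t3k46_vl : t3c46.Vl dW qW where
  bt := by decide +kernel
  B0 := t3k46_B0
  E0 := t3k46_E0
  D0 := t3k46_D0
  Bh := t3k46_Bh
  Eh := t3k46_Eh
  Dh := t3k46_Dh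
  B1 := t3k46_B1
  E1 := t3k46_E1
  D1 := t3k46_D1

theorem t3k46_rat : t3n46.Rat t3c46 := by
  constructor <;> decide +kernel

theorem t3k46_ck : t3n46.Ck t3c46 := ⟨t3k46_l, t3k46_n⟩

theorem t3k46_fck : t3n46.Fck dW qW fW t3c46 := ⟨t3k46_rb, t3k46_kap⟩

theorem t3k46_w : Wcl zW kW yW t3al t3c46 t3n46 t3m46 where
  b2 := t3k46_wb2
  mb := t3k46_wmb
  th := t3k46_wth
  yb := t3k46_wyb
  mu := t3k46_wmu
  cj := t3k46_wcj
  mt1 := by decide +kernel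
  mt2 := by decide +kernel

theorem t3k46_ok : CelOk dW qW fW t3c46 t3n46 where
  s := t3k46_sg
  r := t3k46_rgs
  v := t3k46_vl
  rt := t3k46_rat
  k := t3k46_ck
  fc := t3k46_fck
  q01 := by decide +kernel
  q12 := by decide +kernel
  h2 := by decide +kernel

theorem t3k46_xr : t3r46.Ok fW t3c46 t3e46 where
  sD := by decide +kernel
  sT := by decide +kernel
  nd1 := t3k46_nd1
  nd2 := t3k46_nd2
  ndy := t3k46_ndy
  nt1 := t3k46_nt1
  nt2 := t3k46_nt2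
  nty := t3k46_nty
  nhz := t3k46_nhz
  xi := t3k46_xi
  om := t3k46_om

theorem t3k46_X : t3d46.Ck t3GR t3HR zW t3c46 t3e46 t3r46 where
  u0 := by decide +kernel
  u01 := by decide +kernel
  ul := by decide +kernel
  us := by decide +kernel
  uc := by decide +kernel
  ga0 := by decide +kernel
  kp0 := by decide +kernel
  lm := by decide +kernel
  dl := t3k46_xdl
  eY := t3k46_xeY
  gr := t3k46_xgr
  hr := t3k46_xhr
  gs := t3k46_xgs
  d1 := t3k46_xd1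
  d2 := t3k46_xd2
  t1 := t3k46_xt1
  t2 := t3k46_xt2
  dy := t3k46_xdy
  ty := t3k46_xty
  d1s := t3k46_xd1s
  d2s := t3k46_xd2s
  t1s := t3k46_xt1s
  t2s := t3k46_xt2s
  dys := t3k46_xdys
  tys := t3k46_xtys
  hz := t3k46_xhz

end Pool.Agent.RX.RCN.K
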