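import Pool.Agent.RX.RCN.T3D
import Pool.Agent.RX.RCN.T3Wq
import Pool.Agent.RX.RCN.T3X27
import Pool.Agent.RX.RCN.VLd

/-! Certificates (generated). -/

set_option autoImplicit false

namespace Pool.Agent.RX.RCN.K

open Set Pool.Agent.RX.RCM9 Pool.Agent.RX.RCM9.Bern Pool.Agent.RX.RCM9.Pk Xce

def t3c47 : Cel where
  t0 := 109 / 200
  t1 := 11 / 20
  C := 1027 / 1024
  th := 2309 / 4096
  B0 := 2057 / 2048
  Bh := 2303 / 2048
  B1 := 2299 / 2048
  D0 := 815 / 2048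
  Dh := 11 / 32
  D1 := 1355 / 4096
  E0 := 37 / 2048
  Eh := 33 / 2048
  E1 := 127 / 8192
  Q0 := 517 / 512
  Q1 := 261 / 256
  Q2 := 591 / 512
  Ac := 65 / 64
  gI := 1049 / 1024
  J := 2219 / 65536

def t3n47 : Chn where
  lb := 1033 / 1024
  nb := 347 / 1024
  Mb := 525 / 512
  b2 := 1069 / 1024
  Yb := 87 / 4096
  E2 := 2137 / 2048
  e1 := 1411 / 1024
  Z1 := 137 / 128
  Z2 := 321 / 512
  KB := 1095 / 1024
  cb := 1111 / 1024
  rb := 29 / 64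
  om := 263 / 256
  fb := 129 / 128
  kap := 2135 / 2048
  ab := 1029 / 1024

def t3e47 : Xge where
  lm := 3 / 5
  dl := 1089 / 2048
  e2 := 699 / 4096
  eY := 1047 / 1024
  gE := 601 / 512

def t3r47 : Xr where
  d1 := [488203 / 10000000, 781707 / 50000000, 3034849 / 100000000, 165523 / 781250, -58067393 /
    100000000, 99150517 / 100000000, -7078827 / 12500000]
  d2 := [8254 / 390625, 1591 / 20000, -159469 / 12500000, 12318403 / 12500000, -241460751 /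
    100000000, 86553561 / 25000000, -38791197 / 20000000]
  dy := [10257323 / 10000000, 5437787 / 12500000, 4951567 / 25000000, 15110719 / 2500000,
    -1513390977 / 100000000, 1052497751 / 50000000, -294299853 / 25000000]
  t1 := [22869577 / 100000000, -2391197 / 5000000, -2321041 / 25000000, 162142471 / 100000000,
    -6235471 / 2500000, 47007883 / 20000000, -25547827 / 50000000]
  t2 := [11330447 / 100000000, -755709 / 5000000, -17374123 / 100000000, 34539849 / 20000000,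
    -300480081 / 100000000, 374172849 / 100000000, -24257061 / 12500000]
  ty := [40280801 / 12500000, -269283851 / 50000000, -1145500473 / 100000000, 6355488393 /
    100000000, -885160557 / 10000000, 2713952491 / 50000000, -71763959 / 6250000]
  hz := [25523681 / 100000000, -29500697 / 100000000, -242441417 / 50000000, 3229755291 /
    100000000, -10832536671 / 100000000, 17626665347 / 100000000, -2135879157 / 20000000]
  om := [50198351 / 50000000, 103449779 / 100000000, -1441619387 / 100000000, 202081833 / 3125000,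
    -4237034469 / 20000000, 32934678173 / 50000000, -30026473913 / 20000000, 97359734583 /
    50000000, -53381709639 / 50000000]
  sD := 381 / 128
  sT := 687 / 256
  xi := [772491 / 2500000, 169041163 / 100000000, -633795473 / 100000000, -22292347 / 12500000,
    10540125897 / 100000000, -13158945249 / 25000000, 80300015601 / 50000000, -310555993331 /
    100000000, 348336202517 / 100000000, -172566846499 / 100000000]

def t3f47 : Dl where
  Ca := 1371107 / 2500000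
  Cv := 22139 / 40000
  k1 := 4333597 / 5000000
  ks := 848459 / 1000000
  dd := 3 / 100000
  kp := 301 / 10000000
  e := [999999489771 / 1000000000000, -186196462933 / 125000000000, 1725049661107 / 1000000000000,
    -1779886853 / 1000000000, 859745306503 / 500000000000, -758512696107 / 500000000000,
    1136656665239 / 1000000000000, -613135635939 / 1000000000000, 167885601139 / 1000000000000]
  j1 := [637063 / 1000000000, -2967055391 / 500000000, 60890613919 / 1000000000, -295061965669 /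
    1000000000, 26724863539 / 31250000, -1524966778211 / 1000000000, 389564501441 / 250000000,
    -138862388227 / 200000000]
  nu := [82148537 / 500000000, -267273763 / 1000000000, 66552139 / 200000000, 41615703 /
    200000000, -64973793 / 125000000, 1081377931 / 1000000000, -151382409 / 250000000]
  k2 := [212115063 / 250000000, 226922557 / 1000000000, -981817 / 3906250, -131948559 / 500000000,
    2604873 / 5000000, -1017123771 / 1000000000, 62162969 / 100000000]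
  dR := [25472729 / 100000000, -29709063 / 100000000, -475781171 / 100000000, 1577135427 /
    50000000, -659099699 / 6250000, 17118384023 / 100000000, -5172744911 / 50000000]

def t3d47 : Xce where
  u0 := 274473 / 500000
  u1 := 22139 / 40000
  l := V2L.y27
  y := t3z27
  j := t3j27
  i := t3i27
  ls := t3y27
  k := V2L.k27
  c := t3f47
  ga := 6087 / 125000
  gb := -3717 / 200000
  hb := 184941 / 500000
  gs := [4000091 / 2500000, 239999497 / 100000000, 180014201 / 100000000, 79450657 / 100000000,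
    13663 / 50000, -13520917 / 100000000, -616577 / 12500000]
  d1 := [2438941 / 50000000, 1443789 / 100000000, 1100837 / 20000000, 1388387 / 100000000,
    11720959 / 100000000, -6275761 / 50000000, 4201731 / 50000000]
  d2 := [1053397 / 50000000, 953173 / 12500000, 336901 / 6250000, 44789941 / 100000000, -50744783
    / 100000000, 1205367 / 3125000, -509469 / 4000000]
  dy := [51244649 / 50000000, 41479031 / 100000000, 15256459 / 25000000, 53955441 / 20000000,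
    -322050241 / 100000000, 177487863 / 100000000, -18551803 / 50000000]
  t1 := [714317 / 3125000, -5970297 / 12500000, -159511 / 2000000, 30966001 / 20000000, -239311461
    / 100000000, 242641323 / 100000000, -71786257 / 100000000]
  t2 := [11324217 / 100000000, -15353063 / 100000000, -5592313 / 50000000, 31003407 / 25000000,
    -134050347 / 100000000, 57302147 / 50000000, -47009617 / 100000000]
  ty := [161042669 / 50000000, -4309361 / 800000, -3444639 / 312500, 753423193 / 12500000,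
    -7850621853 / 100000000, 251349769 / 6250000, -212823919 / 50000000]

def t3m47 : ℚ := 1083 / 2048

def t3h47 : ℚ := 137 / 250

theorem t3k47_M_r1 : NC (fM t3c47 (1 - eh) eh ek (elo t3c47.B0 t3c47.Bh eh) (elo t3c47.D0 t3c47.Dh ek) (elo t3c47.E0 t3c47.Eh ek)) :=
  NC.of (K := 31) (D := ⟨4, 3, 1, 1⟩) (Box.of 4 (by decide +kernel))
    (by decide +kernel)

theorem t3k47_M_r2 : NC (fM t3c47 eh (1 - eh) ek (ehi t3c47.Bh t3c47.B1 (1 - eh)) (elo t3c47.D0 t3c47.Dh ek) (elo t3c47.E0 t3c47.Eh ek)) :=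
  NC.of (K := 31) (D := ⟨4, 3, 1, 1⟩) (Box.of 4 (by decide +kernel))
    (by decide +kernel)

theorem t3k47_M_r3 : NC (fM t3c47 (1 - eh) ek eh (elo t3c47.B0 t3c47.Bh ek) (elo t3c47.D0 t3c47.Dh eh) (elo t3c47.E0 t3c47.Eh eh)) :=
  NC.of (K := 30) (D := ⟨4, 2, 1, 1⟩) (Box.of 4 (by decide +kernel))
    (by decide +kernel)

theorem t3k47_M_r4 : NC (fM t3c47 eh ek (1 - eh) (elo t3c47.B0 t3c47.Bh ek) (ehi t3c47.Dh t3c47.D1 (1 - eh)) (ehi t3c47.Eh t3c47.E1 (1 - eh))) :=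
  NC.of (K := 31) (D := ⟨4, 2, 1, 1⟩) (Box.of 4 (by decide +kernel))
    (by decide +kernel)

theorem t3k47_r0_r1 : NC (f0 t3c47 (1 - eh) eh ek (elo t3c47.B0 t3c47.Bh eh) (elo t3c47.D0 t3c47.Dh ek) (elo t3c47.E0 t3c47.Eh ek)) :=
  NC.of (K := 140) (D := ⟨13, 9, 1, 1⟩) (Box.of 4 (by decide +kernel))
    (by decide +kernel)

theorem t3k47_r0_r2 : NC (f0 t3c47 eh (1 - eh) ek (ehi t3c47.Bh t3c47.B1 (1 - eh)) (elo t3c47.D0 t3c47.Dh ek) (elo t3c47.E0 t3c47.Eh ek)) :=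
  NC.of (K := 139) (D := ⟨13, 9, 1, 1⟩) (Box.of 4 (by decide +kernel))
    (by decide +kernel)

theorem t3k47_r0_r3 : NC (f0 t3c47 (1 - eh) ek eh (elo t3c47.B0 t3c47.Bh ek) (elo t3c47.D0 t3c47.Dh eh) (elo t3c47.E0 t3c47.Eh eh)) :=
  NC.of (K := 135) (D := ⟨13, 5, 1, 1⟩) (Box.of 4 (by decide +kernel))
    (by decide +kernel)

theorem t3k47_r0_r4 : NC (f0 t3c47 eh ek (1 - eh) (elo t3c47.B0 t3c47.Bh ek) (ehi t3c47.Dh t3c47.D1 (1 - eh)) (ehi t3c47.Eh t3c47.E1 (1 - eh))) :=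
  NC.of (K := 140) (D := ⟨13, 5, 1, 1⟩) (Box.of 4 (by decide +kernel))
    (by decide +kernel)

theorem t3k47_r1_r1 : NC (f1 t3c47 (1 - eh) eh ek (elo t3c47.B0 t3c47.Bh eh) (elo t3c47.D0 t3c47.Dh ek) (elo t3c47.E0 t3c47.Eh ek)) :=
  NC.of (K := 253) (D := ⟨16, 9, 1, 1⟩) (Box.of 288 (by decide +kernel))
    (by decide +kernel)

theorem t3k47_r1_r2 : NC (f1 t3c47 eh (1 - eh) ek (ehi t3c47.Bh t3c47.B1 (1 - eh)) (elo t3c47.D0 t3c47.Dh ek) (elo t3c47.E0 t3c47.Eh ek)) :=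
  NC.of (K := 227) (D := ⟨16, 9, 1, 1⟩) (Box.of 4 (by decide +kernel))
    (by decide +kernel)

theorem t3k47_r1_r3 : NC (f1 t3c47 (1 - eh) ek eh (elo t3c47.B0 t3c47.Bh ek) (elo t3c47.D0 t3c47.Dh eh) (elo t3c47.E0 t3c47.Eh eh)) :=
  NC.of (K := 257) (D := ⟨16, 12, 1, 1⟩) (Box.of 288 (by decide +kernel))
    (by decide +kernel)

theorem t3k47_r1_r4 : NC (f1 t3c47 eh ek (1 - eh) (elo t3c47.B0 t3c47.Bh ek) (ehi t3c47.Dh t3c47.D1 (1 - eh)) (ehi t3c47.Eh t3c47.E1 (1 - eh))) :=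
  NC.of (K := 230) (D := ⟨16, 12, 1, 1⟩) (Box.of 4 (by decide +kernel))
    (by decide +kernel)

theorem t3k47_r2_r1 : NC (f2 t3c47 (1 - eh) eh ek (elo t3c47.B0 t3c47.Bh eh) (elo t3c47.D0 t3c47.Dh ek) (elo t3c47.E0 t3c47.Eh ek)) :=
  NC.of (K := 256) (D := ⟨16, 11, 1, 1⟩) (Box.of 288 (by decide +kernel))
    (by decide +kernel)

theorem t3k47_r2_r2 : NC (f2 t3c47 eh (1 - eh) ek (ehi t3c47.Bh t3c47.B1 (1 - eh)) (elo t3c47.D0 t3c47.Dh ek) (elo t3c47.E0 t3c47.Eh ek)) :=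
  NC.of (K := 230) (D := ⟨16, 11, 1, 1⟩) (Box.of 4 (by decide +kernel))
    (by decide +kernel)

theorem t3k47_r2_r3 : NC (f2 t3c47 (1 - eh) ek eh (elo t3c47.B0 t3c47.Bh ek) (elo t3c47.D0 t3c47.Dh eh) (elo t3c47.E0 t3c47.Eh eh)) :=
  NC.of (K := 257) (D := ⟨16, 12, 1, 1⟩) (Box.of 288 (by decide +kernel))
    (by decide +kernel)

theorem t3k47_r2_r4 : NC (f2 t3c47 eh ek (1 - eh) (elo t3c47.B0 t3c47.Bh ek) (ehi t3c47.Dh t3c47.D1 (1 - eh)) (ehi t3c47.Eh t3c47.E1 (1 - eh))) :=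
  NC.of (K := 232) (D := ⟨16, 12, 1, 1⟩) (Box.of 4 (by decide +kernel))
    (by decide +kernel)

theorem t3k47_rc_r1 : NC (fc t3c47 (1 - eh) eh ek (elo t3c47.B0 t3c47.Bh eh) (elo t3c47.D0 t3c47.Dh ek) (elo t3c47.E0 t3c47.Eh ek)) :=
  NC.of (K := 156) (D := ⟨13, 9, 1, 1⟩) (Box.of 288 (by decide +kernel))
    (by decide +kernel)

theorem t3k47_rc_r2 : NC (fc t3c47 eh (1 - eh) ek (ehi t3c47.Bh t3c47.B1 (1 - eh)) (elo t3c47.D0 t3c47.Dh ek) (elo t3c47.E0 t3c47.Eh ek)) :=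
  NC.of (K := 133) (D := ⟨13, 9, 1, 1⟩) (Box.of 4 (by decide +kernel))
    (by decide +kernel)

theorem t3k47_rc_r3 : NC (fc t3c47 (1 - eh) ek eh (elo t3c47.B0 t3c47.Bh ek) (elo t3c47.D0 t3c47.Dh eh) (elo t3c47.E0 t3c47.Eh eh)) :=
  NC.of (K := 151) (D := ⟨13, 5, 1, 1⟩) (Box.of 288 (by decide +kernel))
    (by decide +kernel)

theorem t3k47_rc_r4 : NC (fc t3c47 eh ek (1 - eh) (elo t3c47.B0 t3c47.Bh ek) (ehi t3c47.Dh t3c47.D1 (1 - eh)) (ehi t3c47.Eh t3c47.E1 (1 - eh))) :=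
  NC.of (K := 134) (D := ⟨13, 5, 1, 1⟩) (Box.of 4 (by decide +kernel))
    (by decide +kernel)

theorem t3k47_rI_r1 : NC (fI t3c47 (1 - eh) eh ek (elo t3c47.B0 t3c47.Bh eh) (elo t3c47.D0 t3c47.Dh ek) (elo t3c47.E0 t3c47.Eh ek)) :=
  NC.of (K := 125) (D := ⟨13, 9, 1, 1⟩) (Box.of 4 (by decide +kernel))
    (by decide +kernel)

theorem t3k47_rI_r2 : NC (fI t3c47 eh (1 - eh) ek (ehi t3c47.Bh t3c47.B1 (1 - eh)) (elo t3c47.D0 t3c47.Dh ek) (elo t3c47.E0 t3c47.Eh ek)) :=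
  NC.of (K := 125) (D := ⟨13, 9, 1, 1⟩) (Box.of 4 (by decide +kernel))
    (by decide +kernel)

theorem t3k47_rI_r3 : NC (fI t3c47 (1 - eh) ek eh (elo t3c47.B0 t3c47.Bh ek) (elo t3c47.D0 t3c47.Dh eh) (elo t3c47.E0 t3c47.Eh eh)) :=
  NC.of (K := 143) (D := ⟨13, 5, 1, 1⟩) (Box.of 288 (by decide +kernel))
    (by decide +kernel)

theorem t3k47_rI_r4 : NC (fI t3c47 eh ek (1 - eh) (elo t3c47.B0 t3c47.Bh ek) (ehi t3c47.Dh t3c47.D1 (1 - eh)) (ehi t3c47.Eh t3c47.E1 (1 - eh))) :=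
  NC.of (K := 125) (D := ⟨13, 5, 1, 1⟩) (Box.of 4 (by decide +kernel))
    (by decide +kernel)

theorem t3k47_rJ_r1 : NC (fJ t3c47 (1 - eh) eh ek (elo t3c47.B0 t3c47.Bh eh) (elo t3c47.D0 t3c47.Dh ek) (elo t3c47.E0 t3c47.Eh ek)) :=
  NC.of (K := 74) (D := ⟨7, 5, 1, 1⟩) (Box.of 4 (by decide +kernel))
    (by decide +kernel)

theorem t3k47_rJ_r2 : NC (fJ t3c47 eh (1 - eh) ek (ehi t3c47.Bh t3c47.B1 (1 - eh)) (elo t3c47.D0 t3c47.Dh ek) (elo t3c47.E0 t3c47.Eh ek)) :=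
  NC.of (K := 74) (D := ⟨7, 5, 1, 1⟩) (Box.of 4 (by decide +kernel))
    (by decide +kernel)

theorem t3k47_rJ_r3 : NC (fJ t3c47 (1 - eh) ek eh (elo t3c47.B0 t3c47.Bh ek) (elo t3c47.D0 t3c47.Dh eh) (elo t3c47.E0 t3c47.Eh eh)) :=
  NC.of (K := 72) (D := ⟨7, 3, 1, 1⟩) (Box.of 4 (by decide +kernel))
    (by decide +kernel)

theorem t3k47_rJ_r4 : NC (fJ t3c47 eh ek (1 - eh) (elo t3c47.B0 t3c47.Bh ek) (ehi t3c47.Dh t3c47.D1 (1 - eh)) (ehi t3c47.Eh t3c47.E1 (1 - eh))) :=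
  NC.of (K := 74) (D := ⟨7, 3, 1, 1⟩) (Box.of 4 (by decide +kernel))
    (by decide +kernel)

theorem t3k47_gE_r1 : NC (fE t3c47 t3e47 (1 - eh) eh ek (elo t3c47.B0 t3c47.Bh eh) (elo t3c47.D0 t3c47.Dh ek) (elo t3c47.E0 t3c47.Eh ek)) :=
  NC.of (K := 146) (D := ⟨13, 9, 1, 1⟩) (Box.of 288 (by decide +kernel))
    (by decide +kernel)

theorem t3k47_gE_r2 : NC (fE t3c47 t3e47 eh (1 - eh) ek (ehi t3c47.Bh t3c47.B1 (1 - eh)) (elo t3c47.D0 t3c47.Dh ek) (elo t3c47.E0 t3c47.Eh ek)) :=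
  NC.of (K := 125) (D := ⟨13, 9, 1, 1⟩) (Box.of 4 (by decide +kernel))
    (by decide +kernel)

theorem t3k47_gE_r3 : NC (fE t3c47 t3e47 (1 - eh) ek eh (elo t3c47.B0 t3c47.Bh ek) (elo t3c47.D0 t3c47.Dh eh) (elo t3c47.E0 t3c47.Eh eh)) :=
  NC.of (K := 156) (D := ⟨13, 7, 1, 1⟩) (Box.of 18528 (by decide +kernel))
    (by decide +kernel)

theorem t3k47_gE_r4 : NC (fE t3c47 t3e47 eh ek (1 - eh) (elo t3c47.B0 t3c47.Bh ek) (ehi t3c47.Dh t3c47.D1 (1 - eh)) (ehi t3c47.Eh t3c47.E1 (1 - eh))) :=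
  NC.of (K := 128) (D := ⟨13, 7, 1, 1⟩) (Box.of 4 (by decide +kernel))
    (by decide +kernel)

theorem t3k47_B0 : NC (kB dW 1 0 t3c47.B0 (tcl t3c47)) :=
  NC.of (K := 103) (D := ⟨1, 1, 1, 9⟩) (Box.of 4 (by decide +kernel))
    (by decide +kernel)

theorem t3k47_E0 : NC (kE dW qW qW.p0 qW.q0 t3c47.E0 (tcl t3c47)) :=
  NC.of (K := 227) (D := ⟨1, 1, 1, 19⟩) (Box.of 4 (by decide +kernel))
    (by decide +kernel)

theorem t3k47_D0 : NC (kD dW qW 1 0 qW.p0 qW.q0 t3c47.D0 (tcl t3c47)) :=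
  NC.of (K := 344) (D := ⟨1, 1, 1, 20⟩) (Box.of 4 (by decide +kernel))
    (by decide +kernel)

theorem t3k47_Bh : NC (kB dW (1 / 2) (1 / 2) t3c47.Bh (tcl t3c47)) :=
  NC.of (K := 106) (D := ⟨1, 1, 1, 9⟩) (Box.of 4 (by decide +kernel))
    (by decide +kernel)

theorem t3k47_Eh : NC (kE dW qW qW.ph qW.qh t3c47.Eh (tcl t3c47)) :=
  NC.of (K := 231) (D := ⟨1, 1, 1, 19⟩) (Box.of 4 (by decide +kernel))
    (by decide +kernel)

theorem t3k47_Dh : NC (kD dW qW (1 / 2) (1 / 2) qW.ph qW.qh t3c47.Dh (tcl t3c47)) :=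
  NC.of (K := 348) (D := ⟨1, 1, 1, 20⟩) (Box.of 4 (by decide +kernel))
    (by decide +kernel)

theorem t3k47_B1 : NC (kB dW 0 (1 / 2) t3c47.B1 (tcl t3c47)) :=
  NC.of (K := 106) (D := ⟨1, 1, 1, 9⟩) (Box.of 4 (by decide +kernel))
    (by decide +kernel)

theorem t3k47_E1 : NC (kE dW qW qW.p1 qW.q1 t3c47.E1 (tcl t3c47)) :=
  NC.of (K := 231) (D := ⟨1, 1, 1, 19⟩) (Box.of 4 (by decide +kernel))
    (by decide +kernel)

theorem t3k47_D1 : NC (kD dW qW 0 (1 / 2) qW.p1 qW.q1 t3c47.D1 (tcl t3c47)) :=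
  NC.of (K := 348) (D := ⟨1, 1, 1, 20⟩) (Box.of 4 (by decide +kernel))
    (by decide +kernel)

theorem t3k47_l : NC (qc t3n47.lb - (1 - vX) * pe (exl t3c47.th) vX ^ 2) :=
  NC.of (K := 161) (D := ⟨10, 1, 1, 1⟩) (Box.of 18688 (by decide +kernel))
    (by decide +kernel)

theorem t3k47_n : NC (qc t3n47.nb - vX * (1 - vX) * pe (exl t3c47.th) vX) :=
  NC.of (K := 116) (D := ⟨7, 1, 1, 1⟩) (Box.of 76677152 (by decide +kernel))
    (by decide +kernel)

theorem t3k47_rb : NC (krb t3n47 fW (t1v t3c47)) :=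
  NC.of (K := 150) (D := ⟨1, 1, 1, 16⟩) (Box.of 4 (by decide +kernel))
    (by decide +kernel)

theorem t3k47_kap : NC (kkap dW qW t3n47 (tcl t3c47)) :=
  NC.of (K := 102) (D := ⟨1, 1, 1, 9⟩) (Box.of 4 (by decide +kernel))
    (by decide +kernel)

theorem t3k47_wb2 : NC (qc t3n47.b2 - pe2 kW.QB (vZ * t1v t3c47) (t1v t3c47)) :=
  NC.of (K := 145) (D := ⟨1, 6, 1, 11⟩) (Box.of 75907683 (by decide +kernel))
    (by decide +kernel)

theorem t3k47_wmb : NC (qc t3n47.Mb - pe zW.mb (t1v t3c47)) :=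
  NC.of (K := 145) (D := ⟨1, 1, 1, 9⟩) (Box.of 76429539 (by decide +kernel))
    (by decide +kernel)

theorem t3k47_wth : NC (qc (t3c47.th / t3c47.t1) - pe2 zW.Qt (vZ * t1v t3c47) (t1v t3c47)) :=
  NC.of (K := 195) (D := ⟨1, 6, 1, 11⟩) (Box.of 4891482339 (by decide +kernel))
    (by decide +kernel)

theorem t3k47_wyb : NC (qc t3n47.Yb - (t1v t3c47 - vZ * t1v t3c47) ^ 3 * pe2 yW.QY (vZ * t1v t3c47) (t1v t3c47)) :=
  NC.of (K := 107) (D := ⟨1, 8, 1, 12⟩) (Box.of 4 (by decide +kernel))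
    (by decide +kernel)

theorem t3k47_wmu : NC (qc t3m47 - pe t3al (tcl t3c47) * (1 + hlf * tcl t3c47)) :=
  NC.of (K := 100) (D := ⟨1, 1, 1, 9⟩) (Box.of 4 (by decide +kernel))
    (by decide +kernel)

theorem t3k47_wcj : NC (qc t3c47.C * ((6 - 3 * vX) * (1 - qc t3m47 * vX)) - (6 - 6 * vX + vX ^ 2)) :=
  NC.of (K := 45) (D := ⟨3, 1, 1, 1⟩) (Box.of 1198080 (by decide +kernel))
    (by decide +kernel)

theorem t3k47_nd1 : NC (pe t3r47.d1 (t1v t3c47)) :=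
  NC.of (K := 59) (D := ⟨1, 1, 1, 7⟩) (Box.of 4 (by decide +kernel))
    (by decide +kernel)

theorem t3k47_nd2 : NC (pe t3r47.d2 (t1v t3c47)) :=
  NC.of (K := 60) (D := ⟨1, 1, 1, 7⟩) (Box.of 4 (by decide +kernel))
    (by decide +kernel)

theorem t3k47_ndy : NC (pe t3r47.dy (t1v t3c47)) :=
  NC.of (K := 63) (D := ⟨1, 1, 1, 7⟩) (Box.of 4 (by decide +kernel))
    (by decide +kernel)

theorem t3k47_nt1 : NC (pe t3r47.t1 (t1v t3c47)) :=
  NC.of (K := 62) (D := ⟨1, 1, 1, 7⟩) (Box.of 4 (by decide +kernel))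
    (by decide +kernel)

theorem t3k47_nt2 : NC (pe t3r47.t2 (t1v t3c47)) :=
  NC.of (K := 61) (D := ⟨1, 1, 1, 7⟩) (Box.of 4 (by decide +kernel))
    (by decide +kernel)

theorem t3k47_nty : NC (pe t3r47.ty (t1v t3c47)) :=
  NC.of (K := 65) (D := ⟨1, 1, 1, 7⟩) (Box.of 4 (by decide +kernel))
    (by decide +kernel)

theorem t3k47_nhz : NC (pe t3r47.hz (t1v t3c47)) :=
  NC.of (K := 90) (D := ⟨1, 1, 1, 7⟩) (Box.of 18659 (by decide +kernel))
    (by decide +kernel)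

theorem t3k47_xi : NC (eXi fW t3c47 t3e47 t3r47 (t1v t3c47)) :=
  NC.of (K := 299) (D := ⟨1, 1, 1, 22⟩) (Box.of 291 (by decide +kernel))
    (by decide +kernel)

theorem t3k47_om : NC (eOm fW t3r47 (t1v t3c47)) :=
  NC.of (K := 173) (D := ⟨1, 1, 1, 16⟩) (Box.of 291 (by decide +kernel))
    (by decide +kernel)

theorem t3k47_fin : NC (eFin dW t3c47 t3n47 t3r47 t3h47 (tcl t3c47)) :=
  NC.of (K := 237) (D := ⟨1, 1, 1, 14⟩) (Box.of 4 (by decide +kernel))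
    (by decide +kernel)

theorem t3k47_xdl : NC (qc t3e47.dl - pe t3d47.l.dl t3d47.eU) :=
  NC.of (K := 73) (D := ⟨1, 4, 1, 1⟩) (Box.of 4 (by decide +kernel))
    (by decide +kernel)

theorem t3k47_xeY : NC (qc t3e47.eY - pe (e4l t3d47.l.z) t3d47.eU) :=
  NC.of (K := 288) (D := ⟨1, 13, 1, 1⟩) (Box.of 4 (by decide +kernel))
    (by decide +kernel)

theorem t3k47_xgr : NC (qc t3d47.ga * ((1 + qc (3 / 5) * vX) * (1 + (t3d47.eg + hlf * t3d47.eg ^ 2))) + qc t3d47.gb - pe2 t3GR vX t3d47.eU) :=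
  NC.of (K := 256) (D := ⟨4, 11, 1, 1⟩) (Box.of 18688 (by decide +kernel))
    (by decide +kernel)

theorem t3k47_xhr : NC (qc t3d47.hb - pe2 t3HR vX t3d47.eU) :=
  NC.of (K := 266) (D := ⟨3, 12, 1, 1⟩) (Box.of 4 (by decide +kernel))
    (by decide +kernel)

theorem t3k47_xgs : NC (pe t3d47.gs t3d47.e1 - qc (8 / 5) * pe (e4l (ladd t3d47.ls.z t3d47.ls.dl)) t3d47.e1) :=
  NC.of (K := 241) (D := ⟨1, 1, 1, 13⟩) (Box.of 4 (by decide +kernel))
    (by decide +kernel)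

theorem t3k47_xd1 : NC (pe t3d47.d1 t3d47.e1 - t3d47.eA t3d47.eU t3d47.e1) :=
  NC.of (K := 289) (D := ⟨1, 12, 1, 12⟩) (Box.of 4 (by decide +kernel))
    (by decide +kernel)

theorem t3k47_xd2 : NC (pe t3d47.d2 t3d47.e1 - t3d47.eB t3d47.eU t3d47.e1) :=
  NC.of (K := 290) (D := ⟨1, 12, 1, 12⟩) (Box.of 4 (by decide +kernel))
    (by decide +kernel)

theorem t3k47_xt1 : NC (pe t3d47.t1 t3d47.e1 - t3d47.eAT t3d47.eU t3d47.e1) :=
  NC.of (K := 473) (D := ⟨1, 19, 1, 19⟩) (Box.of 4 (by decide +kernel))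
    (by decide +kernel)

theorem t3k47_xt2 : NC (pe t3d47.t2 t3d47.e1 - t3d47.eBT t3d47.eU t3d47.e1) :=
  NC.of (K := 478) (D := ⟨1, 19, 1, 19⟩) (Box.of 4 (by decide +kernel))
    (by decide +kernel)

theorem t3k47_xdy : NC (pe t3d47.dy t3d47.e1 - t3d47.eSD t3d47.eU t3d47.e1) :=
  NC.of (K := 504) (D := ⟨1, 20, 1, 14⟩) (Box.of 4 (by decide +kernel))
    (by decide +kernel)

theorem t3k47_xty : NC (pe t3d47.ty t3d47.e1 - t3d47.eST t3d47.eU t3d47.e1) :=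
  NC.of (K := 725) (D := ⟨1, 28, 1, 28⟩) (Box.of 4 (by decide +kernel))
    (by decide +kernel)

theorem t3k47_xd1s : NC (pe t3r47.d1 (t1v t3c47) - pe t3d47.d1 (Xcd.ew zW t3c47)) :=
  NC.of (K := 535) (D := ⟨1, 1, 1, 55⟩) (Box.of 4 (by decide +kernel))
    (by decide +kernel)

theorem t3k47_xd2s : NC (pe t3r47.d2 (t1v t3c47) - pe t3d47.d2 (Xcd.ew zW t3c47)) :=
  NC.of (K := 532) (D := ⟨1, 1, 1, 55⟩) (Box.of 4 (by decide +kernel))
    (by decide +kernel)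

theorem t3k47_xt1s : NC (pe t3r47.t1 (t1v t3c47) - pe t3d47.t1 (Xcd.ew zW t3c47)) :=
  NC.of (K := 539) (D := ⟨1, 1, 1, 55⟩) (Box.of 4 (by decide +kernel))
    (by decide +kernel)

theorem t3k47_xt2s : NC (pe t3r47.t2 (t1v t3c47) - pe t3d47.t2 (Xcd.ew zW t3c47)) :=
  NC.of (K := 538) (D := ⟨1, 1, 1, 55⟩) (Box.of 4 (by decide +kernel))
    (by decide +kernel)

theorem t3k47_xdys : NC (pe t3r47.dy (t1v t3c47) - pe t3d47.dy (Xcd.ew zW t3c47)) :=
  NC.of (K := 537) (D := ⟨1, 1, 1, 55⟩) (Box.of 4 (by decide +kernel))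
    (by decide +kernel)

theorem t3k47_xtys : NC (pe t3r47.ty (t1v t3c47) - pe t3d47.ty (Xcd.ew zW t3c47)) :=
  NC.of (K := 541) (D := ⟨1, 1, 1, 55⟩) (Box.of 4 (by decide +kernel))
    (by decide +kernel)

theorem t3k47_xhz : NC (pe t3r47.hz (t1v t3c47) - pe t3d47.c.dR (Xcd.ew zW t3c47)) :=
  NC.of (K := 545) (D := ⟨1, 1, 1, 55⟩) (Box.of 4 (by decide +kernel))
    (by decide +kernel)

theorem t3f47_ok : t3f47.ok V2L.y27 V2L.k27 V2L.nb V2L.la (10 ^ 30) 32 = true := by decide +kernel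

theorem t3k47_sg : t3c47.Sg := by
  constructor <;> decide +kernel

theorem t3k47_rgs : t3c47.Rgs where
  M := ⟨t3k47_M_r1, t3k47_M_r2, t3k47_M_r3, t3k47_M_r4⟩
  r0 := ⟨t3k47_r0_r1, t3k47_r0_r2, t3k47_r0_r3, t3k47_r0_r4⟩
  r1 := ⟨t3k47_r1_r1, t3k47_r1_r2, t3k47_r1_r3, t3k47_r1_r4⟩
  r2 := ⟨t3k47_r2_r1, t3k47_r2_r2, t3k47_r2_r3, t3k47_r2_r4⟩
  rc := ⟨t3k47_rc_r1, t3k47_rc_r2, t3k47_rc_r3, t3k47_rc_r4⟩
  rI := ⟨t3k47_rI_r1, t3k47_rI_r2, t3k47_rI_r3, t3k47_rI_r4⟩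
  rJ := ⟨t3k47_rJ_r1, t3k47_rJ_r2, t3k47_rJ_r3, t3k47_rJ_r4⟩

theorem t3k47_xn : t3e47.Ok t3c47 where
  lm := by decide +kernel
  dl0 := by decide +kernel
  dl1 := by decide +kernel
  e2 := by decide +kernel
  eY := by decide +kernel
  gE := ⟨t3k47_gE_r1, t3k47_gE_r2, t3k47_gE_r3, t3k47_gE_r4⟩

theorem t3k47_vl : t3c47.Vl dW qW where
  bt := by decide +kernel
  B0 := t3k47_B0
  E0 := t3k47_E0
  D0 := t3k47_D0
  Bh := t3k47_Bh
  Eh := t3k47_Eh
  Dh := t3k47_Dh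
  B1 := t3k47_B1
  E1 := t3k47_E1
  D1 := t3k47_D1

theorem t3k47_rat : t3n47.Rat t3c47 := by
  constructor <;> decide +kernel

theorem t3k47_ck : t3n47.Ck t3c47 := ⟨t3k47_l, t3k47_n⟩

theorem t3k47_fck : t3n47.Fck dW qW fW t3c47 := ⟨t3k47_rb, t3k47_kap⟩

theorem t3k47_w : Wcl zW kW yW t3al t3c47 t3n47 t3m47 where
  b2 := t3k47_wb2
  mb := t3k47_wmb
  th := t3k47_wth
  yb := t3k47_wyb
  mu := t3k47_wmu
  cj := t3k47_wcj
  mt1 := by decide +kernel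
  mt2 := by decide +kernel

theorem t3k47_ok : CelOk dW qW fW t3c47 t3n47 where
  s := t3k47_sg
  r := t3k47_rgs
  v := t3k47_vl
  rt := t3k47_rat
  k := t3k47_ck
  fc := t3k47_fck
  q01 := by decide +kernel
  q12 := by decide +kernel
  h2 := by decide +kernel

theorem t3k47_xr : t3r47.Ok fW t3c47 t3e47 where
  sD := by decide +kernel
  sT := by decide +kernel
  nd1 := t3k47_nd1
  nd2 := t3k47_nd2
  ndy := t3k47_ndy
  nt1 := t3k47_nt1
  nt2 := t3k47_nt2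
  nty := t3k47_nty
  nhz := t3k47_nhz
  xi := t3k47_xi
  om := t3k47_om

theorem t3k47_X : t3d47.Ck t3GR t3HR zW t3c47 t3e47 t3r47 where
  u0 := by decide +kernel
  u01 := by decide +kernel
  ul := by decide +kernel
  us := by decide +kernel
  uc := by decide +kernel
  ga0 := by decide +kernel
  kp0 := by decide +kernel
  lm := by decide +kernel
  dl := t3k47_xdl
  eY := t3k47_xeY
  gr := t3k47_xgr
  hr := t3k47_xhr
  gs := t3k47_xgs
  d1 := t3k47_xd1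
  d2 := t3k47_xd2
  t1 := t3k47_xt1
  t2 := t3k47_xt2
  dy := t3k47_xdy
  ty := t3k47_xty
  d1s := t3k47_xd1s
  d2s := t3k47_xd2s
  t1s := t3k47_xt1s
  t2s := t3k47_xt2s
  dys := t3k47_xdys
  tys := t3k47_xtys
  hz := t3k47_xhz

end Pool.Agent.RX.RCN.K
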