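import Pool.Agent.RX.RCN.T3D
import Pool.Agent.RX.RCN.T3Wq
import Pool.Agent.RX.RCN.T3X1
import Pool.Agent.RX.RCN.VLd

/-! Certificates (generated). -/

set_option autoImplicit false

namespace Pool.Agent.RX.RCN.K

open Set Pool.Agent.RX.RCM9 Pool.Agent.RX.RCM9.Bern Pool.Agent.RX.RCM9.Pk Xce

def t3c5 : Cel where
  t0 := 9 / 40
  t1 := 1 / 4
  C := 4097 / 4096
  th := 257 / 1024
  B0 := 2255 / 2048
  Bh := 1079 / 1024
  B1 := 2059 / 2048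
  D0 := 223 / 1024
  Dh := 157 / 1024
  D1 := 297 / 2048
  E0 := 1683 / 2097152
  Eh := 1235 / 2097152
  E1 := 73 / 131072
  Q0 := 1131 / 1024
  Q1 := 1131 / 1024
  Q2 := 1131 / 1024
  Ac := 1131 / 1024
  gI := 1131 / 1024
  J := 1895 / 2097152

def t3n5 : Chn where
  lb := 513 / 512
  nb := 73 / 256
  Mb := 1029 / 1024
  b2 := 65 / 64
  Yb := 1 / 512
  E2 := 4113 / 4096
  e1 := 1169 / 1024
  Z1 := 573 / 512
  Z2 := 153 / 256
  KB := 261 / 256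
  cb := 261 / 256
  rb := 243 / 1024
  om := 263 / 256
  fb := 129 / 128
  kap := 4113 / 4096
  ab := 1029 / 1024

def t3e5 : Xge where
  lm := 3 / 5
  dl := 255 / 1024
  e2 := 277 / 8192
  eY := 4105 / 4096
  gE := 1131 / 1024

def t3r5 : Xr where
  d1 := [76957 / 20000000, 36433 / 100000000, 19133 / 4000000, 337389 / 25000000, 710337 /
    50000000, 2994137 / 100000000, 4265391 / 100000000]
  d2 := [203 / 12500000, 8527 / 20000000, 5054717 / 50000000, -3592327 / 2500000, 636225583 /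
    50000000, -2389888353 / 50000000, 3247106719 / 50000000]
  dy := [50183 / 3125000, 275203 / 100000000, 2830373 / 50000000, 11214669 / 100000000, -15163383
    / 50000000, 47235681 / 100000000, -7831 / 31250]
  t1 := [4088519 / 100000000, -1845153 / 6250000, 120816671 / 100000000, -259249683 / 20000000,
    5436024763 / 50000000, -41378968729 / 100000000, 1182945171 / 2000000]
  t2 := [434841 / 100000000, -305601 / 10000000, -5814621 / 50000000, 81107161 / 20000000,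
    -3241757793 / 100000000, 11919111993 / 100000000, -8122949103 / 50000000]
  ty := [14524159 / 100000000, -61675249 / 50000000, 255212611 / 50000000, -3102001977 /
    100000000, 11378967181 / 50000000, -84377384973 / 100000000, 29277351889 / 25000000]
  hz := [4135363 / 100000000, 9106151 / 100000000, -1397428701 / 100000000, 14076332093 /
    100000000, -51728158519 / 100000000, 582534997 / 1000000, 13020897499 / 50000000]
  om := [1003967 / 1000000, 12756079 / 12500000, -171373803 / 12500000, 1274035301 / 25000000,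
    -7884064959 / 100000000, -3046850771 / 50000000, 72921208339 / 100000000, -179890686569 /
    100000000, 160286531359 / 100000000]
  sD := 219 / 128
  sT := 199 / 128
  xi := [877029 / 100000000, 2760517 / 20000000, -2987333 / 5000000, -366779339 / 25000000,
    15846398317 / 100000000, -9433585199 / 20000000, -7266937443 / 20000000, 410194287321 /
    100000000, -659364956451 / 100000000, 114092977193 / 25000000]

def t3f5 : Dl where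
  Ca := 451381 / 2000000
  Cv := 25077 / 100000
  k1 := 9813211 / 10000000
  ks := 97243 / 100000
  dd := 0
  kp := 27 / 2500000
  e := [249999924999 / 250000000000, -148151349951 / 125000000000, 558433447227 / 500000000000,
    -917117799017 / 1000000000000, 73071673323 / 100000000000, -5551540507 / 10000000000,
    49600031963 / 125000000000, -962143047 / 3906250000, 48163081349 / 500000000000]
  j1 := [-3338787 / 1000000000, -2815205807 / 250000000, 98461268323 / 1000000000, -41028637883 /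
    100000000, 248654537397 / 250000000, -1462041678159 / 1000000000, 40902733509 / 31250000,
    -123850469817 / 200000000]
  nu := [3494381 / 125000000, -140118223 / 1000000000, 377731739 / 1000000000, 290425153 /
    500000000, -5340759589 / 1000000000, 1499810569 / 62500000, -38401129269 / 1000000000]
  k2 := [243107959 / 250000000, 218003 / 1600000, -178739191 / 500000000, -312407471 / 500000000,
    5318459237 / 1000000000, -23566834351 / 1000000000, 18879832823 / 500000000]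
  dR := [4127031 / 100000000, 4541781 / 50000000, -694457553 / 50000000, 6973097227 / 50000000,
    -51080718899 / 100000000, 14322939553 / 25000000, 5136238133 / 20000000]

def t3d5 : Xce where
  u0 := 226191 / 1000000
  u1 := 25077 / 100000
  l := V2L.y1
  y := t3z1
  j := t3j1
  i := t3i1
  ls := t3y1
  k := V2L.k1
  c := t3f5
  ga := 3841 / 1000000
  gb := -549 / 1000000
  hb := 6677 / 500000
  gs := [160002331 / 100000000, 239999997 / 100000000, 180000179 / 100000000, 79595819 /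
    100000000, 416151 / 1562500, -2989131 / 25000000, -6306037 / 100000000]
  d1 := [96139 / 25000000, 18159 / 50000000, 474901 / 100000000, 270853 / 20000000, 242769 /
    20000000, 949493 / 25000000, 89371 / 3125000]
  d2 := [739 / 50000000, 42443 / 100000000, 5023721 / 50000000, -3558391 / 2500000, 1256358857 /
    100000000, -940841039 / 20000000, 1592789281 / 25000000]
  dy := [200599 / 12500000, 137137 / 50000000, 5624637 / 100000000, 11204397 / 100000000, -7777763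
    / 25000000, 12985851 / 25000000, -33298453 / 100000000]
  t1 := [4086451 / 100000000, -1471423 / 5000000, 120016201 / 100000000, -1284258873 / 100000000,
    10742936933 / 100000000, -40771900897 / 100000000, 5810879381 / 10000000]
  t2 := [434619 / 100000000, -3046183 / 100000000, -2892149 / 25000000, 401908489 / 100000000,
    -3202541137 / 100000000, 2347621751 / 20000000, -15949592209 / 100000000]
  ty := [3629203 / 25000000, -61479471 / 50000000, 507071917 / 100000000, -153663453 / 5000000,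
    22494510769 / 100000000, -83181889893 / 100000000, 115128173017 / 100000000]

def t3m5 : ℚ := 1043 / 4096

def t3h5 : ℚ := 47 / 100

theorem t3k5_M_r1 : NC (fM t3c5 (1 - eh) eh ek (elo t3c5.B0 t3c5.Bh eh) (elo t3c5.D0 t3c5.Dh ek) (elo t3c5.E0 t3c5.Eh ek)) :=
  NC.of (K := 29) (D := ⟨4, 3, 1, 1⟩) (Box.of 4 (by decide +kernel))
    (by decide +kernel)

theorem t3k5_M_r2 : NC (fM t3c5 eh (1 - eh) ek (ehi t3c5.Bh t3c5.B1 (1 - eh)) (elo t3c5.D0 t3c5.Dh ek) (elo t3c5.E0 t3c5.Eh ek)) :=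
  NC.of (K := 29) (D := ⟨4, 3, 1, 1⟩) (Box.of 4 (by decide +kernel))
    (by decide +kernel)

theorem t3k5_M_r3 : NC (fM t3c5 (1 - eh) ek eh (elo t3c5.B0 t3c5.Bh ek) (elo t3c5.D0 t3c5.Dh eh) (elo t3c5.E0 t3c5.Eh eh)) :=
  NC.of (K := 27) (D := ⟨4, 2, 1, 1⟩) (Box.of 4 (by decide +kernel))
    (by decide +kernel)

theorem t3k5_M_r4 : NC (fM t3c5 eh ek (1 - eh) (elo t3c5.B0 t3c5.Bh ek) (ehi t3c5.Dh t3c5.D1 (1 - eh)) (ehi t3c5.Eh t3c5.E1 (1 - eh))) :=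
  NC.of (K := 30) (D := ⟨4, 2, 1, 1⟩) (Box.of 4 (by decide +kernel))
    (by decide +kernel)

theorem t3k5_r0_r1 : NC (f0 t3c5 (1 - eh) eh ek (elo t3c5.B0 t3c5.Bh eh) (elo t3c5.D0 t3c5.Dh ek) (elo t3c5.E0 t3c5.Eh ek)) :=
  NC.of (K := 119) (D := ⟨13, 9, 1, 1⟩) (Box.of 4 (by decide +kernel))
    (by decide +kernel)

theorem t3k5_r0_r2 : NC (f0 t3c5 eh (1 - eh) ek (ehi t3c5.Bh t3c5.B1 (1 - eh)) (elo t3c5.D0 t3c5.Dh ek) (elo t3c5.E0 t3c5.Eh ek)) :=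
  NC.of (K := 119) (D := ⟨13, 9, 1, 1⟩) (Box.of 4 (by decide +kernel))
    (by decide +kernel)

theorem t3k5_r0_r3 : NC (f0 t3c5 (1 - eh) ek eh (elo t3c5.B0 t3c5.Bh ek) (elo t3c5.D0 t3c5.Dh eh) (elo t3c5.E0 t3c5.Eh eh)) :=
  NC.of (K := 114) (D := ⟨13, 5, 1, 1⟩) (Box.of 4 (by decide +kernel))
    (by decide +kernel)

theorem t3k5_r0_r4 : NC (f0 t3c5 eh ek (1 - eh) (elo t3c5.B0 t3c5.Bh ek) (ehi t3c5.Dh t3c5.D1 (1 - eh)) (ehi t3c5.Eh t3c5.E1 (1 - eh))) :=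
  NC.of (K := 123) (D := ⟨13, 5, 1, 1⟩) (Box.of 4 (by decide +kernel))
    (by decide +kernel)

theorem t3k5_r1_r1 : NC (f1 t3c5 (1 - eh) eh ek (elo t3c5.B0 t3c5.Bh eh) (elo t3c5.D0 t3c5.Dh ek) (elo t3c5.E0 t3c5.Eh ek)) :=
  NC.of (K := 200) (D := ⟨16, 9, 1, 1⟩) (Box.of 4 (by decide +kernel))
    (by decide +kernel)

theorem t3k5_r1_r2 : NC (f1 t3c5 eh (1 - eh) ek (ehi t3c5.Bh t3c5.B1 (1 - eh)) (elo t3c5.D0 t3c5.Dh ek) (elo t3c5.E0 t3c5.Eh ek)) :=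
  NC.of (K := 201) (D := ⟨16, 9, 1, 1⟩) (Box.of 4 (by decide +kernel))
    (by decide +kernel)

theorem t3k5_r1_r3 : NC (f1 t3c5 (1 - eh) ek eh (elo t3c5.B0 t3c5.Bh ek) (elo t3c5.D0 t3c5.Dh eh) (elo t3c5.E0 t3c5.Eh eh)) :=
  NC.of (K := 204) (D := ⟨16, 12, 1, 1⟩) (Box.of 4 (by decide +kernel))
    (by decide +kernel)

theorem t3k5_r1_r4 : NC (f1 t3c5 eh ek (1 - eh) (elo t3c5.B0 t3c5.Bh ek) (ehi t3c5.Dh t3c5.D1 (1 - eh)) (ehi t3c5.Eh t3c5.E1 (1 - eh))) :=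
  NC.of (K := 205) (D := ⟨16, 12, 1, 1⟩) (Box.of 4 (by decide +kernel))
    (by decide +kernel)

theorem t3k5_r2_r1 : NC (f2 t3c5 (1 - eh) eh ek (elo t3c5.B0 t3c5.Bh eh) (elo t3c5.D0 t3c5.Dh ek) (elo t3c5.E0 t3c5.Eh ek)) :=
  NC.of (K := 203) (D := ⟨16, 11, 1, 1⟩) (Box.of 4 (by decide +kernel))
    (by decide +kernel)

theorem t3k5_r2_r2 : NC (f2 t3c5 eh (1 - eh) ek (ehi t3c5.Bh t3c5.B1 (1 - eh)) (elo t3c5.D0 t3c5.Dh ek) (elo t3c5.E0 t3c5.Eh ek)) :=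
  NC.of (K := 204) (D := ⟨16, 11, 1, 1⟩) (Box.of 4 (by decide +kernel))
    (by decide +kernel)

theorem t3k5_r2_r3 : NC (f2 t3c5 (1 - eh) ek eh (elo t3c5.B0 t3c5.Bh ek) (elo t3c5.D0 t3c5.Dh eh) (elo t3c5.E0 t3c5.Eh eh)) :=
  NC.of (K := 204) (D := ⟨16, 12, 1, 1⟩) (Box.of 4 (by decide +kernel))
    (by decide +kernel)

theorem t3k5_r2_r4 : NC (f2 t3c5 eh ek (1 - eh) (elo t3c5.B0 t3c5.Bh ek) (ehi t3c5.Dh t3c5.D1 (1 - eh)) (ehi t3c5.Eh t3c5.E1 (1 - eh))) :=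
  NC.of (K := 205) (D := ⟨16, 12, 1, 1⟩) (Box.of 4 (by decide +kernel))
    (by decide +kernel)

theorem t3k5_rc_r1 : NC (fc t3c5 (1 - eh) eh ek (elo t3c5.B0 t3c5.Bh eh) (elo t3c5.D0 t3c5.Dh ek) (elo t3c5.E0 t3c5.Eh ek)) :=
  NC.of (K := 118) (D := ⟨13, 9, 1, 1⟩) (Box.of 4 (by decide +kernel))
    (by decide +kernel)

theorem t3k5_rc_r2 : NC (fc t3c5 eh (1 - eh) ek (ehi t3c5.Bh t3c5.B1 (1 - eh)) (elo t3c5.D0 t3c5.Dh ek) (elo t3c5.E0 t3c5.Eh ek)) :=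
  NC.of (K := 118) (D := ⟨13, 9, 1, 1⟩) (Box.of 4 (by decide +kernel))
    (by decide +kernel)

theorem t3k5_rc_r3 : NC (fc t3c5 (1 - eh) ek eh (elo t3c5.B0 t3c5.Bh ek) (elo t3c5.D0 t3c5.Dh eh) (elo t3c5.E0 t3c5.Eh eh)) :=
  NC.of (K := 113) (D := ⟨13, 5, 1, 1⟩) (Box.of 4 (by decide +kernel))
    (by decide +kernel)

theorem t3k5_rc_r4 : NC (fc t3c5 eh ek (1 - eh) (elo t3c5.B0 t3c5.Bh ek) (ehi t3c5.Dh t3c5.D1 (1 - eh)) (ehi t3c5.Eh t3c5.E1 (1 - eh))) :=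
  NC.of (K := 122) (D := ⟨13, 5, 1, 1⟩) (Box.of 4 (by decide +kernel))
    (by decide +kernel)

theorem t3k5_rI_r1 : NC (fI t3c5 (1 - eh) eh ek (elo t3c5.B0 t3c5.Bh eh) (elo t3c5.D0 t3c5.Dh ek) (elo t3c5.E0 t3c5.Eh ek)) :=
  NC.of (K := 107) (D := ⟨13, 9, 1, 1⟩) (Box.of 4 (by decide +kernel))
    (by decide +kernel)

theorem t3k5_rI_r2 : NC (fI t3c5 eh (1 - eh) ek (ehi t3c5.Bh t3c5.B1 (1 - eh)) (elo t3c5.D0 t3c5.Dh ek) (elo t3c5.E0 t3c5.Eh ek)) :=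
  NC.of (K := 108) (D := ⟨13, 9, 1, 1⟩) (Box.of 4 (by decide +kernel))
    (by decide +kernel)

theorem t3k5_rI_r3 : NC (fI t3c5 (1 - eh) ek eh (elo t3c5.B0 t3c5.Bh ek) (elo t3c5.D0 t3c5.Dh eh) (elo t3c5.E0 t3c5.Eh eh)) :=
  NC.of (K := 102) (D := ⟨13, 5, 1, 1⟩) (Box.of 4 (by decide +kernel))
    (by decide +kernel)

theorem t3k5_rI_r4 : NC (fI t3c5 eh ek (1 - eh) (elo t3c5.B0 t3c5.Bh ek) (ehi t3c5.Dh t3c5.D1 (1 - eh)) (ehi t3c5.Eh t3c5.E1 (1 - eh))) :=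
  NC.of (K := 111) (D := ⟨13, 5, 1, 1⟩) (Box.of 4 (by decide +kernel))
    (by decide +kernel)

theorem t3k5_rJ_r1 : NC (fJ t3c5 (1 - eh) eh ek (elo t3c5.B0 t3c5.Bh eh) (elo t3c5.D0 t3c5.Dh ek) (elo t3c5.E0 t3c5.Eh ek)) :=
  NC.of (K := 63) (D := ⟨7, 5, 1, 1⟩) (Box.of 4 (by decide +kernel))
    (by decide +kernel)

theorem t3k5_rJ_r2 : NC (fJ t3c5 eh (1 - eh) ek (ehi t3c5.Bh t3c5.B1 (1 - eh)) (elo t3c5.D0 t3c5.Dh ek) (elo t3c5.E0 t3c5.Eh ek)) :=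
  NC.of (K := 63) (D := ⟨7, 5, 1, 1⟩) (Box.of 4 (by decide +kernel))
    (by decide +kernel)

theorem t3k5_rJ_r3 : NC (fJ t3c5 (1 - eh) ek eh (elo t3c5.B0 t3c5.Bh ek) (elo t3c5.D0 t3c5.Dh eh) (elo t3c5.E0 t3c5.Eh eh)) :=
  NC.of (K := 60) (D := ⟨7, 3, 1, 1⟩) (Box.of 4 (by decide +kernel))
    (by decide +kernel)

theorem t3k5_rJ_r4 : NC (fJ t3c5 eh ek (1 - eh) (elo t3c5.B0 t3c5.Bh ek) (ehi t3c5.Dh t3c5.D1 (1 - eh)) (ehi t3c5.Eh t3c5.E1 (1 - eh))) :=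
  NC.of (K := 64) (D := ⟨7, 3, 1, 1⟩) (Box.of 4 (by decide +kernel))
    (by decide +kernel)

theorem t3k5_gE_r1 : NC (fE t3c5 t3e5 (1 - eh) eh ek (elo t3c5.B0 t3c5.Bh eh) (elo t3c5.D0 t3c5.Dh ek) (elo t3c5.E0 t3c5.Eh ek)) :=
  NC.of (K := 110) (D := ⟨13, 9, 1, 1⟩) (Box.of 4 (by decide +kernel))
    (by decide +kernel)

theorem t3k5_gE_r2 : NC (fE t3c5 t3e5 eh (1 - eh) ek (ehi t3c5.Bh t3c5.B1 (1 - eh)) (elo t3c5.D0 t3c5.Dh ek) (elo t3c5.E0 t3c5.Eh ek)) :=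
  NC.of (K := 111) (D := ⟨13, 9, 1, 1⟩) (Box.of 4 (by decide +kernel))
    (by decide +kernel)

theorem t3k5_gE_r3 : NC (fE t3c5 t3e5 (1 - eh) ek eh (elo t3c5.B0 t3c5.Bh ek) (elo t3c5.D0 t3c5.Dh eh) (elo t3c5.E0 t3c5.Eh eh)) :=
  NC.of (K := 108) (D := ⟨13, 7, 1, 1⟩) (Box.of 4 (by decide +kernel))
    (by decide +kernel)

theorem t3k5_gE_r4 : NC (fE t3c5 t3e5 eh ek (1 - eh) (elo t3c5.B0 t3c5.Bh ek) (ehi t3c5.Dh t3c5.D1 (1 - eh)) (ehi t3c5.Eh t3c5.E1 (1 - eh))) :=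
  NC.of (K := 118) (D := ⟨13, 7, 1, 1⟩) (Box.of 4 (by decide +kernel))
    (by decide +kernel)

theorem t3k5_B0 : NC (kB dW 1 0 t3c5.B0 (tcl t3c5)) :=
  NC.of (K := 82) (D := ⟨1, 1, 1, 9⟩) (Box.of 4 (by decide +kernel))
    (by decide +kernel)

theorem t3k5_E0 : NC (kE dW qW qW.p0 qW.q0 t3c5.E0 (tcl t3c5)) :=
  NC.of (K := 180) (D := ⟨1, 1, 1, 19⟩) (Box.of 4 (by decide +kernel))
    (by decide +kernel)

theorem t3k5_D0 : NC (kD dW qW 1 0 qW.p0 qW.q0 t3c5.D0 (tcl t3c5)) :=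
  NC.of (K := 296) (D := ⟨1, 1, 1, 20⟩) (Box.of 4 (by decide +kernel))
    (by decide +kernel)

theorem t3k5_Bh : NC (kB dW (1 / 2) (1 / 2) t3c5.Bh (tcl t3c5)) :=
  NC.of (K := 84) (D := ⟨1, 1, 1, 9⟩) (Box.of 4 (by decide +kernel))
    (by decide +kernel)

theorem t3k5_Eh : NC (kE dW qW qW.ph qW.qh t3c5.Eh (tcl t3c5)) :=
  NC.of (K := 184) (D := ⟨1, 1, 1, 19⟩) (Box.of 4 (by decide +kernel))
    (by decide +kernel)

theorem t3k5_Dh : NC (kD dW qW (1 / 2) (1 / 2) qW.ph qW.qh t3c5.Dh (tcl t3c5)) :=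
  NC.of (K := 299) (D := ⟨1, 1, 1, 20⟩) (Box.of 4 (by decide +kernel))
    (by decide +kernel)

theorem t3k5_B1 : NC (kB dW 0 (1 / 2) t3c5.B1 (tcl t3c5)) :=
  NC.of (K := 84) (D := ⟨1, 1, 1, 9⟩) (Box.of 4 (by decide +kernel))
    (by decide +kernel)

theorem t3k5_E1 : NC (kE dW qW qW.p1 qW.q1 t3c5.E1 (tcl t3c5)) :=
  NC.of (K := 184) (D := ⟨1, 1, 1, 19⟩) (Box.of 4 (by decide +kernel))
    (by decide +kernel)

theorem t3k5_D1 : NC (kD dW qW 0 (1 / 2) qW.p1 qW.q1 t3c5.D1 (tcl t3c5)) :=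
  NC.of (K := 299) (D := ⟨1, 1, 1, 20⟩) (Box.of 4 (by decide +kernel))
    (by decide +kernel)

theorem t3k5_l : NC (qc t3n5.lb - (1 - vX) * pe (exl t3c5.th) vX ^ 2) :=
  NC.of (K := 109) (D := ⟨10, 1, 1, 1⟩) (Box.of 4 (by decide +kernel))
    (by decide +kernel)

theorem t3k5_n : NC (qc t3n5.nb - vX * (1 - vX) * pe (exl t3c5.th) vX) :=
  NC.of (K := 108) (D := ⟨7, 1, 1, 1⟩) (Box.of 76677152 (by decide +kernel))
    (by decide +kernel)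

theorem t3k5_rb : NC (krb t3n5 fW (t1v t3c5)) :=
  NC.of (K := 111) (D := ⟨1, 1, 1, 16⟩) (Box.of 4 (by decide +kernel))
    (by decide +kernel)

theorem t3k5_kap : NC (kkap dW qW t3n5 (tcl t3c5)) :=
  NC.of (K := 83) (D := ⟨1, 1, 1, 9⟩) (Box.of 4 (by decide +kernel))
    (by decide +kernel)

theorem t3k5_wb2 : NC (qc t3n5.b2 - pe2 kW.QB (vZ * t1v t3c5) (t1v t3c5)) :=
  NC.of (K := 94) (D := ⟨1, 6, 1, 11⟩) (Box.of 291 (by decide +kernel))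
    (by decide +kernel)

theorem t3k5_wmb : NC (qc t3n5.Mb - pe zW.mb (t1v t3c5)) :=
  NC.of (K := 58) (D := ⟨1, 1, 1, 9⟩) (Box.of 4 (by decide +kernel))
    (by decide +kernel)

theorem t3k5_wth : NC (qc (t3c5.th / t3c5.t1) - pe2 zW.Qt (vZ * t1v t3c5) (t1v t3c5)) :=
  NC.of (K := 93) (D := ⟨1, 6, 1, 11⟩) (Box.of 291 (by decide +kernel))
    (by decide +kernel)

theorem t3k5_wyb : NC (qc t3n5.Yb - (t1v t3c5 - vZ * t1v t3c5) ^ 3 * pe2 yW.QY (vZ * t1v t3c5) (t1v t3c5)) :=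
  NC.of (K := 72) (D := ⟨1, 8, 1, 12⟩) (Box.of 4 (by decide +kernel))
    (by decide +kernel)

theorem t3k5_wmu : NC (qc t3m5 - pe t3al (tcl t3c5) * (1 + hlf * tcl t3c5)) :=
  NC.of (K := 76) (D := ⟨1, 1, 1, 9⟩) (Box.of 4 (by decide +kernel))
    (by decide +kernel)

theorem t3k5_wcj : NC (qc t3c5.C * ((6 - 3 * vX) * (1 - qc t3m5 * vX)) - (6 - 6 * vX + vX ^ 2)) :=
  NC.of (K := 34) (D := ⟨3, 1, 1, 1⟩) (Box.of 4 (by decide +kernel))
    (by decide +kernel)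

theorem t3k5_nd1 : NC (pe t3r5.d1 (t1v t3c5)) :=
  NC.of (K := 41) (D := ⟨1, 1, 1, 7⟩) (Box.of 4 (by decide +kernel))
    (by decide +kernel)

theorem t3k5_nd2 : NC (pe t3r5.d2 (t1v t3c5)) :=
  NC.of (K := 45) (D := ⟨1, 1, 1, 7⟩) (Box.of 4 (by decide +kernel))
    (by decide +kernel)

theorem t3k5_ndy : NC (pe t3r5.dy (t1v t3c5)) :=
  NC.of (K := 41) (D := ⟨1, 1, 1, 7⟩) (Box.of 4 (by decide +kernel))
    (by decide +kernel)

theorem t3k5_nt1 : NC (pe t3r5.t1 (t1v t3c5)) :=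
  NC.of (K := 48) (D := ⟨1, 1, 1, 7⟩) (Box.of 4 (by decide +kernel))
    (by decide +kernel)

theorem t3k5_nt2 : NC (pe t3r5.t2 (t1v t3c5)) :=
  NC.of (K := 46) (D := ⟨1, 1, 1, 7⟩) (Box.of 4 (by decide +kernel))
    (by decide +kernel)

theorem t3k5_nty : NC (pe t3r5.ty (t1v t3c5)) :=
  NC.of (K := 49) (D := ⟨1, 1, 1, 7⟩) (Box.of 4 (by decide +kernel))
    (by decide +kernel)

theorem t3k5_nhz : NC (pe t3r5.hz (t1v t3c5)) :=
  NC.of (K := 75) (D := ⟨1, 1, 1, 7⟩) (Box.of 18659 (by decide +kernel))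
    (by decide +kernel)

theorem t3k5_xi : NC (eXi fW t3c5 t3e5 t3r5 (t1v t3c5)) :=
  NC.of (K := 202) (D := ⟨1, 1, 1, 22⟩) (Box.of 4 (by decide +kernel))
    (by decide +kernel)

theorem t3k5_om : NC (eOm fW t3r5 (t1v t3c5)) :=
  NC.of (K := 103) (D := ⟨1, 1, 1, 16⟩) (Box.of 4 (by decide +kernel))
    (by decide +kernel)

theorem t3k5_fin : NC (eFin dW t3c5 t3n5 t3r5 t3h5 (tcl t3c5)) :=
  NC.of (K := 188) (D := ⟨1, 1, 1, 14⟩) (Box.of 4 (by decide +kernel))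
    (by decide +kernel)

theorem t3k5_xdl : NC (qc t3e5.dl - pe t3d5.l.dl t3d5.eU) :=
  NC.of (K := 72) (D := ⟨1, 4, 1, 1⟩) (Box.of 4 (by decide +kernel))
    (by decide +kernel)

theorem t3k5_xeY : NC (qc t3e5.eY - pe (e4l t3d5.l.z) t3d5.eU) :=
  NC.of (K := 288) (D := ⟨1, 13, 1, 1⟩) (Box.of 4 (by decide +kernel))
    (by decide +kernel)

theorem t3k5_xgr : NC (qc t3d5.ga * ((1 + qc (3 / 5) * vX) * (1 + (t3d5.eg + hlf * t3d5.eg ^ 2))) + qc t3d5.gb - pe2 t3GR vX t3d5.eU) :=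
  NC.of (K := 238) (D := ⟨4, 11, 1, 1⟩) (Box.of 4 (by decide +kernel))
    (by decide +kernel)

theorem t3k5_xhr : NC (qc t3d5.hb - pe2 t3HR vX t3d5.eU) :=
  NC.of (K := 259) (D := ⟨3, 12, 1, 1⟩) (Box.of 4 (by decide +kernel))
    (by decide +kernel)

theorem t3k5_xgs : NC (pe t3d5.gs t3d5.e1 - qc (8 / 5) * pe (e4l (ladd t3d5.ls.z t3d5.ls.dl)) t3d5.e1) :=
  NC.of (K := 256) (D := ⟨1, 1, 1, 13⟩) (Box.of 4 (by decide +kernel))
    (by decide +kernel)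

theorem t3k5_xd1 : NC (pe t3d5.d1 t3d5.e1 - t3d5.eA t3d5.eU t3d5.e1) :=
  NC.of (K := 282) (D := ⟨1, 12, 1, 12⟩) (Box.of 4 (by decide +kernel))
    (by decide +kernel)

theorem t3k5_xd2 : NC (pe t3d5.d2 t3d5.e1 - t3d5.eB t3d5.eU t3d5.e1) :=
  NC.of (K := 329) (D := ⟨1, 12, 1, 12⟩) (Box.of 1194267 (by decide +kernel))
    (by decide +kernel)

theorem t3k5_xt1 : NC (pe t3d5.t1 t3d5.e1 - t3d5.eAT t3d5.eU t3d5.e1) :=
  NC.of (K := 530) (D := ⟨1, 19, 1, 19⟩) (Box.of 18659 (by decide +kernel))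
    (by decide +kernel)

theorem t3k5_xt2 : NC (pe t3d5.t2 t3d5.e1 - t3d5.eBT t3d5.eU t3d5.e1) :=
  NC.of (K := 531) (D := ⟨1, 19, 1, 19⟩) (Box.of 1194267 (by decide +kernel))
    (by decide +kernel)

theorem t3k5_xdy : NC (pe t3d5.dy t3d5.e1 - t3d5.eSD t3d5.eU t3d5.e1) :=
  NC.of (K := 437) (D := ⟨1, 18, 1, 12⟩) (Box.of 4 (by decide +kernel))
    (by decide +kernel)

theorem t3k5_xty : NC (pe t3d5.ty t3d5.e1 - t3d5.eST t3d5.eU t3d5.e1) :=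
  NC.of (K := 698) (D := ⟨1, 26, 1, 26⟩) (Box.of 291 (by decide +kernel))
    (by decide +kernel)

theorem t3k5_xd1s : NC (pe t3r5.d1 (t1v t3c5) - pe t3d5.d1 (Xcd.ew zW t3c5)) :=
  NC.of (K := 390) (D := ⟨1, 1, 1, 55⟩) (Box.of 4 (by decide +kernel))
    (by decide +kernel)

theorem t3k5_xd2s : NC (pe t3r5.d2 (t1v t3c5) - pe t3d5.d2 (Xcd.ew zW t3c5)) :=
  NC.of (K := 400) (D := ⟨1, 1, 1, 55⟩) (Box.of 4 (by decide +kernel))
    (by decide +kernel)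

theorem t3k5_xt1s : NC (pe t3r5.t1 (t1v t3c5) - pe t3d5.t1 (Xcd.ew zW t3c5)) :=
  NC.of (K := 402) (D := ⟨1, 1, 1, 55⟩) (Box.of 4 (by decide +kernel))
    (by decide +kernel)

theorem t3k5_xt2s : NC (pe t3r5.t2 (t1v t3c5) - pe t3d5.t2 (Xcd.ew zW t3c5)) :=
  NC.of (K := 403) (D := ⟨1, 1, 1, 55⟩) (Box.of 4 (by decide +kernel))
    (by decide +kernel)

theorem t3k5_xdys : NC (pe t3r5.dy (t1v t3c5) - pe t3d5.dy (Xcd.ew zW t3c5)) :=
  NC.of (K := 398) (D := ⟨1, 1, 1, 55⟩) (Box.of 4 (by decide +kernel))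
    (by decide +kernel)

theorem t3k5_xtys : NC (pe t3r5.ty (t1v t3c5) - pe t3d5.ty (Xcd.ew zW t3c5)) :=
  NC.of (K := 406) (D := ⟨1, 1, 1, 55⟩) (Box.of 4 (by decide +kernel))
    (by decide +kernel)

theorem t3k5_xhz : NC (pe t3r5.hz (t1v t3c5) - pe t3d5.c.dR (Xcd.ew zW t3c5)) :=
  NC.of (K := 405) (D := ⟨1, 1, 1, 55⟩) (Box.of 4 (by decide +kernel))
    (by decide +kernel)

theorem t3f5_ok : t3f5.ok V2L.y1 V2L.k1 V2L.nb V2L.la (10 ^ 30) 32 = true := by decide +kernel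

theorem t3k5_sg : t3c5.Sg := by
  constructor <;> decide +kernel

theorem t3k5_rgs : t3c5.Rgs where
  M := ⟨t3k5_M_r1, t3k5_M_r2, t3k5_M_r3, t3k5_M_r4⟩
  r0 := ⟨t3k5_r0_r1, t3k5_r0_r2, t3k5_r0_r3, t3k5_r0_r4⟩
  r1 := ⟨t3k5_r1_r1, t3k5_r1_r2, t3k5_r1_r3, t3k5_r1_r4⟩
  r2 := ⟨t3k5_r2_r1, t3k5_r2_r2, t3k5_r2_r3, t3k5_r2_r4⟩
  rc := ⟨t3k5_rc_r1, t3k5_rc_r2, t3k5_rc_r3, t3k5_rc_r4⟩
  rI := ⟨t3k5_rI_r1, t3k5_rI_r2, t3k5_rI_r3, t3k5_rI_r4⟩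
  rJ := ⟨t3k5_rJ_r1, t3k5_rJ_r2, t3k5_rJ_r3, t3k5_rJ_r4⟩

theorem t3k5_xn : t3e5.Ok t3c5 where
  lm := by decide +kernel
  dl0 := by decide +kernel
  dl1 := by decide +kernel
  e2 := by decide +kernel
  eY := by decide +kernel
  gE := ⟨t3k5_gE_r1, t3k5_gE_r2, t3k5_gE_r3, t3k5_gE_r4⟩

theorem t3k5_vl : t3c5.Vl dW qW where
  bt := by decide +kernel
  B0 := t3k5_B0
  E0 := t3k5_E0
  D0 := t3k5_D0
  Bh := t3k5_Bh
  Eh := t3k5_Eh
  Dh := t3k5_Dh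
  B1 := t3k5_B1
  E1 := t3k5_E1
  D1 := t3k5_D1

theorem t3k5_rat : t3n5.Rat t3c5 := by
  constructor <;> decide +kernel

theorem t3k5_ck : t3n5.Ck t3c5 := ⟨t3k5_l, t3k5_n⟩

theorem t3k5_fck : t3n5.Fck dW qW fW t3c5 := ⟨t3k5_rb, t3k5_kap⟩

theorem t3k5_w : Wcl zW kW yW t3al t3c5 t3n5 t3m5 where
  b2 := t3k5_wb2
  mb := t3k5_wmb
  th := t3k5_wth
  yb := t3k5_wyb
  mu := t3k5_wmu
  cj := t3k5_wcj
  mt1 := by decide +kernel
  mt2 := by decide +kernel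

theorem t3k5_ok : CelOk dW qW fW t3c5 t3n5 where
  s := t3k5_sg
  r := t3k5_rgs
  v := t3k5_vl
  rt := t3k5_rat
  k := t3k5_ck
  fc := t3k5_fck
  q01 := by decide +kernel
  q12 := by decide +kernel
  h2 := by decide +kernel

theorem t3k5_xr : t3r5.Ok fW t3c5 t3e5 where
  sD := by decide +kernel
  sT := by decide +kernel
  nd1 := t3k5_nd1
  nd2 := t3k5_nd2
  ndy := t3k5_ndy
  nt1 := t3k5_nt1
  nt2 := t3k5_nt2
  nty := t3k5_nty
  nhz := t3k5_nhz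
  xi := t3k5_xi
  om := t3k5_om

theorem t3k5_X : t3d5.Ck t3GR t3HR zW t3c5 t3e5 t3r5 where
  u0 := by decide +kernel
  u01 := by decide +kernel
  ul := by decide +kernel
  us := by decide +kernel
  uc := by decide +kernel
  ga0 := by decide +kernel
  kp0 := by decide +kernel
  lm := by decide +kernel
  dl := t3k5_xdl
  eY := t3k5_xeY
  gr := t3k5_xgr
  hr := t3k5_xhr
  gs := t3k5_xgs
  d1 := t3k5_xd1
  d2 := t3k5_xd2
  t1 := t3k5_xt1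
  t2 := t3k5_xt2
  dy := t3k5_xdy
  ty := t3k5_xty
  d1s := t3k5_xd1s
  d2s := t3k5_xd2s
  t1s := t3k5_xt1s
  t2s := t3k5_xt2s
  dys := t3k5_xdys
  tys := t3k5_xtys
  hz := t3k5_xhz

end Pool.Agent.RX.RCN.K
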