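import Pool.Agent.RX.RCN.T3D
import Pool.Agent.RX.RCN.T3Wq
import Pool.Agent.RX.RCN.T3X2
import Pool.Agent.RX.RCN.VLd

/-! Certificates (generated). -/

set_option autoImplicit false

namespace Pool.Agent.RX.RCN.K

open Set Pool.Agent.RX.RCM9 Pool.Agent.RX.RCM9.Bern Pool.Agent.RX.RCM9.Pk Xce

def t3c6 : Cel where
  t0 := 1 / 4
  t1 := 53 / 200
  C := 4097 / 4096
  th := 545 / 2048
  B0 := 281 / 256
  Bh := 273 / 256
  B1 := 2087 / 2048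
  D0 := 935 / 4096
  Dh := 335 / 2048
  D1 := 317 / 2048
  E0 := 4215 / 4194304
  Eh := 3141 / 4194304
  E1 := 2973 / 4194304
  Q0 := 1127 / 1024
  Q1 := 1127 / 1024
  Q2 := 1127 / 1024
  Ac := 1127 / 1024
  gI := 1127 / 1024
  J := 4693 / 4194304

def t3n6 : Chn where
  lb := 513 / 512
  nb := 295 / 1024
  Mb := 1029 / 1024
  b2 := 65 / 64
  Yb := 5 / 2048
  E2 := 4117 / 4096
  e1 := 1179 / 1024
  Z1 := 1143 / 1024
  Z2 := 307 / 512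
  KB := 1045 / 1024
  cb := 523 / 512
  rb := 257 / 1024
  om := 263 / 256
  fb := 129 / 128
  kap := 4115 / 4096
  ab := 1029 / 1024

def t3e6 : Xge where
  lm := 3 / 5
  dl := 135 / 512
  e2 := 39 / 1024
  eY := 4107 / 4096
  gE := 1127 / 1024

def t3r6 : Xr where
  d1 := [57469 / 12500000, 63393 / 100000000, 678343 / 100000000, 1676027 / 100000000, 226527 /
    20000000, 695109 / 25000000, 269631 / 6250000]
  d2 := [23 / 1000000, 112659 / 50000000, 10561793 / 100000000, -114093303 / 100000000, 911179063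
    / 100000000, -3135483179 / 100000000, 984208049 / 25000000]
  dy := [201367 / 10000000, 725407 / 100000000, 2041019 / 25000000, 13990029 / 100000000,
    -37334713 / 100000000, 11080443 / 20000000, -2903003 / 10000000]
  t1 := [1151747 / 25000000, -30350717 / 100000000, 44438801 / 50000000, -340444887 / 50000000,
    2688885119 / 50000000, -9476389269 / 50000000, 6280508431 / 25000000]
  t2 := [133203 / 25000000, -3449 / 100000, -113421 / 3125000, 260626971 / 100000000, -1529503 /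
    80000, 3263644103 / 50000000, -4148517647 / 50000000]
  ty := [17105303 / 100000000, -132703629 / 100000000, 82082997 / 20000000, -131593369 / 12500000,
    6130193383 / 100000000, -5376939267 / 25000000, 27887453769 / 100000000]
  hz := [588139 / 12500000, 3369963 / 100000000, -1083208709 / 100000000, 8221614769 / 100000000,
    -5453477193 / 50000000, -3890817623 / 6250000, 152527601049 / 100000000]
  om := [1003967 / 1000000, 102051969 / 100000000, -171411367 / 12500000, 2553184513 / 50000000,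
    -4026909523 / 50000000, -1143239971 / 25000000, 4088347401 / 6250000, -40169763589 /
    25000000, 140394375093 / 100000000]
  sD := 443 / 256
  sT := 405 / 256
  xi := [1071823 / 100000000, 8077751 / 50000000, -8916623 / 12500000, -566080107 / 50000000,
    9838591233 / 100000000, -11134639 / 156250, -5682270719 / 4000000, 234550844877 / 50000000,
    -126235318659 / 25000000, 2707923943 / 1000000]

def t3f6 : Dl where
  Ca := 1253841 / 5000000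
  Cv := 132909 / 500000
  k1 := 9785633 / 10000000
  ks := 484399 / 500000
  dd := 0
  kp := 3 / 1250000
  e := [999999699993 / 1000000000000, -1197787834529 / 1000000000000, 569340818761 / 500000000000,
    -945292456337 / 1000000000000, 190051415941 / 250000000000, -291136101767 / 500000000000,
    209130143707 / 500000000000, -12918538913 / 50000000000, 791740141 / 8000000000]
  j1 := [-411353 / 125000000, -1387371133 / 125000000, 3892123789 / 40000000, -406639969191 /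
    1000000000, 494656626967 / 500000000, -729195674383 / 500000000, 1299956673589 / 1000000000,
    -150291798847 / 250000000]
  nu := [31697817 / 1000000000, -147877943 / 1000000000, 47980619 / 125000000, 377293779 /
    1000000000, -3195804259 / 1000000000, 43622781 / 3125000, -330870331 / 15625000]
  k2 := [484399517 / 500000000, 35815401 / 250000000, -5641553 / 15625000, -53293377 / 125000000,
    3203030641 / 1000000000, -273577183 / 20000000, 20798195543 / 1000000000]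
  dR := [4695663 / 100000000, 1682899 / 50000000, -269166581 / 25000000, 2036534681 / 25000000,
    -10766730417 / 100000000, -61342143153 / 100000000, 18725285521 / 12500000]

def t3d6 : Xce where
  u0 := 62817 / 250000
  u1 := 132909 / 500000
  l := V2L.y2
  y := t3z2
  j := t3j2
  i := t3i2
  ls := t3y2
  k := V2L.k2
  c := t3f6
  ga := 4589 / 1000000
  gb := -361 / 500000
  hb := 8183 / 500000
  gs := [160002383 / 100000000, 59999999 / 25000000, 90000123 / 50000000, 79594583 / 100000000,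
    213151 / 800000, -5997521 / 50000000, -156299 / 2500000]
  d1 := [459467 / 100000000, 15793 / 25000000, 67457 / 10000000, 6661 / 400000, 252779 / 25000000,
    133487 / 4000000, 3200353 / 100000000]
  d2 := [1039 / 50000000, 14029 / 6250000, 1312573 / 12500000, -56528371 / 50000000, 179964117 /
    20000000, -24109139 / 781250, 3861669609 / 100000000]
  dy := [201221 / 10000000, 722853 / 100000000, 8120967 / 100000000, 13844883 / 100000000,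
    -18687513 / 50000000, 29073077 / 50000000, -1762197 / 5000000]
  t1 := [287791 / 6250000, -6050689 / 20000000, 5514953 / 6250000, -134788587 / 20000000,
    331919339 / 6250000, -2333482621 / 12500000, 12338092281 / 50000000]
  t2 := [532541 / 100000000, -1718959 / 50000000, -3619791 / 100000000, 258363193 / 100000000,
    -377839557 / 20000000, 6429666641 / 100000000, -8147720243 / 100000000]
  ty := [17096647 / 100000000, -132280263 / 100000000, 81510961 / 20000000, -65053219 / 6250000,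
    6053989201 / 100000000, -106046441 / 500000, 27445730309 / 100000000]

def t3m6 : ℚ := 1101 / 4096

def t3h6 : ℚ := 237 / 500

theorem t3k6_M_r1 : NC (fM t3c6 (1 - eh) eh ek (elo t3c6.B0 t3c6.Bh eh) (elo t3c6.D0 t3c6.Dh ek) (elo t3c6.E0 t3c6.Eh ek)) :=
  NC.of (K := 33) (D := ⟨4, 3, 1, 1⟩) (Box.of 4 (by decide +kernel))
    (by decide +kernel)

theorem t3k6_M_r2 : NC (fM t3c6 eh (1 - eh) ek (ehi t3c6.Bh t3c6.B1 (1 - eh)) (elo t3c6.D0 t3c6.Dh ek) (elo t3c6.E0 t3c6.Eh ek)) :=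
  NC.of (K := 33) (D := ⟨4, 3, 1, 1⟩) (Box.of 4 (by decide +kernel))
    (by decide +kernel)

theorem t3k6_M_r3 : NC (fM t3c6 (1 - eh) ek eh (elo t3c6.B0 t3c6.Bh ek) (elo t3c6.D0 t3c6.Dh eh) (elo t3c6.E0 t3c6.Eh eh)) :=
  NC.of (K := 31) (D := ⟨4, 2, 1, 1⟩) (Box.of 4 (by decide +kernel))
    (by decide +kernel)

theorem t3k6_M_r4 : NC (fM t3c6 eh ek (1 - eh) (elo t3c6.B0 t3c6.Bh ek) (ehi t3c6.Dh t3c6.D1 (1 - eh)) (ehi t3c6.Eh t3c6.E1 (1 - eh))) :=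
  NC.of (K := 30) (D := ⟨4, 2, 1, 1⟩) (Box.of 4 (by decide +kernel))
    (by decide +kernel)

theorem t3k6_r0_r1 : NC (f0 t3c6 (1 - eh) eh ek (elo t3c6.B0 t3c6.Bh eh) (elo t3c6.D0 t3c6.Dh ek) (elo t3c6.E0 t3c6.Eh ek)) :=
  NC.of (K := 147) (D := ⟨13, 9, 1, 1⟩) (Box.of 4 (by decide +kernel))
    (by decide +kernel)

theorem t3k6_r0_r2 : NC (f0 t3c6 eh (1 - eh) ek (ehi t3c6.Bh t3c6.B1 (1 - eh)) (elo t3c6.D0 t3c6.Dh ek) (elo t3c6.E0 t3c6.Eh ek)) :=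
  NC.of (K := 147) (D := ⟨13, 9, 1, 1⟩) (Box.of 4 (by decide +kernel))
    (by decide +kernel)

theorem t3k6_r0_r3 : NC (f0 t3c6 (1 - eh) ek eh (elo t3c6.B0 t3c6.Bh ek) (elo t3c6.D0 t3c6.Dh eh) (elo t3c6.E0 t3c6.Eh eh)) :=
  NC.of (K := 142) (D := ⟨13, 5, 1, 1⟩) (Box.of 4 (by decide +kernel))
    (by decide +kernel)

theorem t3k6_r0_r4 : NC (f0 t3c6 eh ek (1 - eh) (elo t3c6.B0 t3c6.Bh ek) (ehi t3c6.Dh t3c6.D1 (1 - eh)) (ehi t3c6.Eh t3c6.E1 (1 - eh))) :=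
  NC.of (K := 135) (D := ⟨13, 5, 1, 1⟩) (Box.of 4 (by decide +kernel))
    (by decide +kernel)

theorem t3k6_r1_r1 : NC (f1 t3c6 (1 - eh) eh ek (elo t3c6.B0 t3c6.Bh eh) (elo t3c6.D0 t3c6.Dh ek) (elo t3c6.E0 t3c6.Eh ek)) :=
  NC.of (K := 212) (D := ⟨16, 9, 1, 1⟩) (Box.of 4 (by decide +kernel))
    (by decide +kernel)

theorem t3k6_r1_r2 : NC (f1 t3c6 eh (1 - eh) ek (ehi t3c6.Bh t3c6.B1 (1 - eh)) (elo t3c6.D0 t3c6.Dh ek) (elo t3c6.E0 t3c6.Eh ek)) :=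
  NC.of (K := 221) (D := ⟨16, 9, 1, 1⟩) (Box.of 4 (by decide +kernel))
    (by decide +kernel)

theorem t3k6_r1_r3 : NC (f1 t3c6 (1 - eh) ek eh (elo t3c6.B0 t3c6.Bh ek) (elo t3c6.D0 t3c6.Dh eh) (elo t3c6.E0 t3c6.Eh eh)) :=
  NC.of (K := 216) (D := ⟨16, 12, 1, 1⟩) (Box.of 4 (by decide +kernel))
    (by decide +kernel)

theorem t3k6_r1_r4 : NC (f1 t3c6 eh ek (1 - eh) (elo t3c6.B0 t3c6.Bh ek) (ehi t3c6.Dh t3c6.D1 (1 - eh)) (ehi t3c6.Eh t3c6.E1 (1 - eh))) :=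
  NC.of (K := 217) (D := ⟨16, 12, 1, 1⟩) (Box.of 4 (by decide +kernel))
    (by decide +kernel)

theorem t3k6_r2_r1 : NC (f2 t3c6 (1 - eh) eh ek (elo t3c6.B0 t3c6.Bh eh) (elo t3c6.D0 t3c6.Dh ek) (elo t3c6.E0 t3c6.Eh ek)) :=
  NC.of (K := 215) (D := ⟨16, 11, 1, 1⟩) (Box.of 4 (by decide +kernel))
    (by decide +kernel)

theorem t3k6_r2_r2 : NC (f2 t3c6 eh (1 - eh) ek (ehi t3c6.Bh t3c6.B1 (1 - eh)) (elo t3c6.D0 t3c6.Dh ek) (elo t3c6.E0 t3c6.Eh ek)) :=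
  NC.of (K := 224) (D := ⟨16, 11, 1, 1⟩) (Box.of 4 (by decide +kernel))
    (by decide +kernel)

theorem t3k6_r2_r3 : NC (f2 t3c6 (1 - eh) ek eh (elo t3c6.B0 t3c6.Bh ek) (elo t3c6.D0 t3c6.Dh eh) (elo t3c6.E0 t3c6.Eh eh)) :=
  NC.of (K := 216) (D := ⟨16, 12, 1, 1⟩) (Box.of 4 (by decide +kernel))
    (by decide +kernel)

theorem t3k6_r2_r4 : NC (f2 t3c6 eh ek (1 - eh) (elo t3c6.B0 t3c6.Bh ek) (ehi t3c6.Dh t3c6.D1 (1 - eh)) (ehi t3c6.Eh t3c6.E1 (1 - eh))) :=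
  NC.of (K := 217) (D := ⟨16, 12, 1, 1⟩) (Box.of 4 (by decide +kernel))
    (by decide +kernel)

theorem t3k6_rc_r1 : NC (fc t3c6 (1 - eh) eh ek (elo t3c6.B0 t3c6.Bh eh) (elo t3c6.D0 t3c6.Dh ek) (elo t3c6.E0 t3c6.Eh ek)) :=
  NC.of (K := 146) (D := ⟨13, 9, 1, 1⟩) (Box.of 4 (by decide +kernel))
    (by decide +kernel)

theorem t3k6_rc_r2 : NC (fc t3c6 eh (1 - eh) ek (ehi t3c6.Bh t3c6.B1 (1 - eh)) (elo t3c6.D0 t3c6.Dh ek) (elo t3c6.E0 t3c6.Eh ek)) :=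
  NC.of (K := 146) (D := ⟨13, 9, 1, 1⟩) (Box.of 4 (by decide +kernel))
    (by decide +kernel)

theorem t3k6_rc_r3 : NC (fc t3c6 (1 - eh) ek eh (elo t3c6.B0 t3c6.Bh ek) (elo t3c6.D0 t3c6.Dh eh) (elo t3c6.E0 t3c6.Eh eh)) :=
  NC.of (K := 141) (D := ⟨13, 5, 1, 1⟩) (Box.of 4 (by decide +kernel))
    (by decide +kernel)

theorem t3k6_rc_r4 : NC (fc t3c6 eh ek (1 - eh) (elo t3c6.B0 t3c6.Bh ek) (ehi t3c6.Dh t3c6.D1 (1 - eh)) (ehi t3c6.Eh t3c6.E1 (1 - eh))) :=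
  NC.of (K := 134) (D := ⟨13, 5, 1, 1⟩) (Box.of 4 (by decide +kernel))
    (by decide +kernel)

theorem t3k6_rI_r1 : NC (fI t3c6 (1 - eh) eh ek (elo t3c6.B0 t3c6.Bh eh) (elo t3c6.D0 t3c6.Dh ek) (elo t3c6.E0 t3c6.Eh ek)) :=
  NC.of (K := 142) (D := ⟨13, 9, 1, 1⟩) (Box.of 4 (by decide +kernel))
    (by decide +kernel)

theorem t3k6_rI_r2 : NC (fI t3c6 eh (1 - eh) ek (ehi t3c6.Bh t3c6.B1 (1 - eh)) (elo t3c6.D0 t3c6.Dh ek) (elo t3c6.E0 t3c6.Eh ek)) :=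
  NC.of (K := 142) (D := ⟨13, 9, 1, 1⟩) (Box.of 4 (by decide +kernel))
    (by decide +kernel)

theorem t3k6_rI_r3 : NC (fI t3c6 (1 - eh) ek eh (elo t3c6.B0 t3c6.Bh ek) (elo t3c6.D0 t3c6.Dh eh) (elo t3c6.E0 t3c6.Eh eh)) :=
  NC.of (K := 137) (D := ⟨13, 5, 1, 1⟩) (Box.of 4 (by decide +kernel))
    (by decide +kernel)

theorem t3k6_rI_r4 : NC (fI t3c6 eh ek (1 - eh) (elo t3c6.B0 t3c6.Bh ek) (ehi t3c6.Dh t3c6.D1 (1 - eh)) (ehi t3c6.Eh t3c6.E1 (1 - eh))) :=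
  NC.of (K := 130) (D := ⟨13, 5, 1, 1⟩) (Box.of 4 (by decide +kernel))
    (by decide +kernel)

theorem t3k6_rJ_r1 : NC (fJ t3c6 (1 - eh) eh ek (elo t3c6.B0 t3c6.Bh eh) (elo t3c6.D0 t3c6.Dh ek) (elo t3c6.E0 t3c6.Eh ek)) :=
  NC.of (K := 78) (D := ⟨7, 5, 1, 1⟩) (Box.of 4 (by decide +kernel))
    (by decide +kernel)

theorem t3k6_rJ_r2 : NC (fJ t3c6 eh (1 - eh) ek (ehi t3c6.Bh t3c6.B1 (1 - eh)) (elo t3c6.D0 t3c6.Dh ek) (elo t3c6.E0 t3c6.Eh ek)) :=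
  NC.of (K := 78) (D := ⟨7, 5, 1, 1⟩) (Box.of 4 (by decide +kernel))
    (by decide +kernel)

theorem t3k6_rJ_r3 : NC (fJ t3c6 (1 - eh) ek eh (elo t3c6.B0 t3c6.Bh ek) (elo t3c6.D0 t3c6.Dh eh) (elo t3c6.E0 t3c6.Eh eh)) :=
  NC.of (K := 75) (D := ⟨7, 3, 1, 1⟩) (Box.of 4 (by decide +kernel))
    (by decide +kernel)

theorem t3k6_rJ_r4 : NC (fJ t3c6 eh ek (1 - eh) (elo t3c6.B0 t3c6.Bh ek) (ehi t3c6.Dh t3c6.D1 (1 - eh)) (ehi t3c6.Eh t3c6.E1 (1 - eh))) :=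
  NC.of (K := 71) (D := ⟨7, 3, 1, 1⟩) (Box.of 4 (by decide +kernel))
    (by decide +kernel)

theorem t3k6_gE_r1 : NC (fE t3c6 t3e6 (1 - eh) eh ek (elo t3c6.B0 t3c6.Bh eh) (elo t3c6.D0 t3c6.Dh ek) (elo t3c6.E0 t3c6.Eh ek)) :=
  NC.of (K := 142) (D := ⟨13, 9, 1, 1⟩) (Box.of 4 (by decide +kernel))
    (by decide +kernel)

theorem t3k6_gE_r2 : NC (fE t3c6 t3e6 eh (1 - eh) ek (ehi t3c6.Bh t3c6.B1 (1 - eh)) (elo t3c6.D0 t3c6.Dh ek) (elo t3c6.E0 t3c6.Eh ek)) :=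
  NC.of (K := 144) (D := ⟨13, 9, 1, 1⟩) (Box.of 4 (by decide +kernel))
    (by decide +kernel)

theorem t3k6_gE_r3 : NC (fE t3c6 t3e6 (1 - eh) ek eh (elo t3c6.B0 t3c6.Bh ek) (elo t3c6.D0 t3c6.Dh eh) (elo t3c6.E0 t3c6.Eh eh)) :=
  NC.of (K := 140) (D := ⟨13, 7, 1, 1⟩) (Box.of 4 (by decide +kernel))
    (by decide +kernel)

theorem t3k6_gE_r4 : NC (fE t3c6 t3e6 eh ek (1 - eh) (elo t3c6.B0 t3c6.Bh ek) (ehi t3c6.Dh t3c6.D1 (1 - eh)) (ehi t3c6.Eh t3c6.E1 (1 - eh))) :=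
  NC.of (K := 134) (D := ⟨13, 7, 1, 1⟩) (Box.of 4 (by decide +kernel))
    (by decide +kernel)

theorem t3k6_B0 : NC (kB dW 1 0 t3c6.B0 (tcl t3c6)) :=
  NC.of (K := 100) (D := ⟨1, 1, 1, 9⟩) (Box.of 4 (by decide +kernel))
    (by decide +kernel)

theorem t3k6_E0 : NC (kE dW qW qW.p0 qW.q0 t3c6.E0 (tcl t3c6)) :=
  NC.of (K := 222) (D := ⟨1, 1, 1, 19⟩) (Box.of 4 (by decide +kernel))
    (by decide +kernel)

theorem t3k6_D0 : NC (kD dW qW 1 0 qW.p0 qW.q0 t3c6.D0 (tcl t3c6)) :=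
  NC.of (K := 340) (D := ⟨1, 1, 1, 20⟩) (Box.of 4 (by decide +kernel))
    (by decide +kernel)

theorem t3k6_Bh : NC (kB dW (1 / 2) (1 / 2) t3c6.Bh (tcl t3c6)) :=
  NC.of (K := 103) (D := ⟨1, 1, 1, 9⟩) (Box.of 4 (by decide +kernel))
    (by decide +kernel)

theorem t3k6_Eh : NC (kE dW qW qW.ph qW.qh t3c6.Eh (tcl t3c6)) :=
  NC.of (K := 226) (D := ⟨1, 1, 1, 19⟩) (Box.of 4 (by decide +kernel))
    (by decide +kernel)

theorem t3k6_Dh : NC (kD dW qW (1 / 2) (1 / 2) qW.ph qW.qh t3c6.Dh (tcl t3c6)) :=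
  NC.of (K := 344) (D := ⟨1, 1, 1, 20⟩) (Box.of 4 (by decide +kernel))
    (by decide +kernel)

theorem t3k6_B1 : NC (kB dW 0 (1 / 2) t3c6.B1 (tcl t3c6)) :=
  NC.of (K := 103) (D := ⟨1, 1, 1, 9⟩) (Box.of 4 (by decide +kernel))
    (by decide +kernel)

theorem t3k6_E1 : NC (kE dW qW qW.p1 qW.q1 t3c6.E1 (tcl t3c6)) :=
  NC.of (K := 226) (D := ⟨1, 1, 1, 19⟩) (Box.of 4 (by decide +kernel))
    (by decide +kernel)

theorem t3k6_D1 : NC (kD dW qW 0 (1 / 2) qW.p1 qW.q1 t3c6.D1 (tcl t3c6)) :=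
  NC.of (K := 344) (D := ⟨1, 1, 1, 20⟩) (Box.of 4 (by decide +kernel))
    (by decide +kernel)

theorem t3k6_l : NC (qc t3n6.lb - (1 - vX) * pe (exl t3c6.th) vX ^ 2) :=
  NC.of (K := 117) (D := ⟨10, 1, 1, 1⟩) (Box.of 4 (by decide +kernel))
    (by decide +kernel)

theorem t3k6_n : NC (qc t3n6.nb - vX * (1 - vX) * pe (exl t3c6.th) vX) :=
  NC.of (K := 99) (D := ⟨7, 1, 1, 1⟩) (Box.of 1196064 (by decide +kernel))
    (by decide +kernel)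

theorem t3k6_rb : NC (krb t3n6 fW (t1v t3c6)) :=
  NC.of (K := 196) (D := ⟨1, 1, 1, 16⟩) (Box.of 4 (by decide +kernel))
    (by decide +kernel)

theorem t3k6_kap : NC (kkap dW qW t3n6 (tcl t3c6)) :=
  NC.of (K := 101) (D := ⟨1, 1, 1, 9⟩) (Box.of 4 (by decide +kernel))
    (by decide +kernel)

theorem t3k6_wb2 : NC (qc t3n6.b2 - pe2 kW.QB (vZ * t1v t3c6) (t1v t3c6)) :=
  NC.of (K := 151) (D := ⟨1, 6, 1, 11⟩) (Box.of 291 (by decide +kernel))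
    (by decide +kernel)

theorem t3k6_wmb : NC (qc t3n6.Mb - pe zW.mb (t1v t3c6)) :=
  NC.of (K := 103) (D := ⟨1, 1, 1, 9⟩) (Box.of 4 (by decide +kernel))
    (by decide +kernel)

theorem t3k6_wth : NC (qc (t3c6.th / t3c6.t1) - pe2 zW.Qt (vZ * t1v t3c6) (t1v t3c6)) :=
  NC.of (K := 155) (D := ⟨1, 6, 1, 11⟩) (Box.of 291 (by decide +kernel))
    (by decide +kernel)

theorem t3k6_wyb : NC (qc t3n6.Yb - (t1v t3c6 - vZ * t1v t3c6) ^ 3 * pe2 yW.QY (vZ * t1v t3c6) (t1v t3c6)) :=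
  NC.of (K := 135) (D := ⟨1, 8, 1, 12⟩) (Box.of 4 (by decide +kernel))
    (by decide +kernel)

theorem t3k6_wmu : NC (qc t3m6 - pe t3al (tcl t3c6) * (1 + hlf * tcl t3c6)) :=
  NC.of (K := 95) (D := ⟨1, 1, 1, 9⟩) (Box.of 4 (by decide +kernel))
    (by decide +kernel)

theorem t3k6_wcj : NC (qc t3c6.C * ((6 - 3 * vX) * (1 - qc t3m6 * vX)) - (6 - 6 * vX + vX ^ 2)) :=
  NC.of (K := 34) (D := ⟨3, 1, 1, 1⟩) (Box.of 4 (by decide +kernel))
    (by decide +kernel)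

theorem t3k6_nd1 : NC (pe t3r6.d1 (t1v t3c6)) :=
  NC.of (K := 71) (D := ⟨1, 1, 1, 7⟩) (Box.of 4 (by decide +kernel))
    (by decide +kernel)

theorem t3k6_nd2 : NC (pe t3r6.d2 (t1v t3c6)) :=
  NC.of (K := 78) (D := ⟨1, 1, 1, 7⟩) (Box.of 4 (by decide +kernel))
    (by decide +kernel)

theorem t3k6_ndy : NC (pe t3r6.dy (t1v t3c6)) :=
  NC.of (K := 75) (D := ⟨1, 1, 1, 7⟩) (Box.of 4 (by decide +kernel))
    (by decide +kernel)

theorem t3k6_nt1 : NC (pe t3r6.t1 (t1v t3c6)) :=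
  NC.of (K := 81) (D := ⟨1, 1, 1, 7⟩) (Box.of 4 (by decide +kernel))
    (by decide +kernel)

theorem t3k6_nt2 : NC (pe t3r6.t2 (t1v t3c6)) :=
  NC.of (K := 80) (D := ⟨1, 1, 1, 7⟩) (Box.of 4 (by decide +kernel))
    (by decide +kernel)

theorem t3k6_nty : NC (pe t3r6.ty (t1v t3c6)) :=
  NC.of (K := 84) (D := ⟨1, 1, 1, 7⟩) (Box.of 4 (by decide +kernel))
    (by decide +kernel)

theorem t3k6_nhz : NC (pe t3r6.hz (t1v t3c6)) :=
  NC.of (K := 109) (D := ⟨1, 1, 1, 7⟩) (Box.of 18659 (by decide +kernel))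
    (by decide +kernel)

theorem t3k6_xi : NC (eXi fW t3c6 t3e6 t3r6 (t1v t3c6)) :=
  NC.of (K := 324) (D := ⟨1, 1, 1, 22⟩) (Box.of 4 (by decide +kernel))
    (by decide +kernel)

theorem t3k6_om : NC (eOm fW t3r6 (t1v t3c6)) :=
  NC.of (K := 188) (D := ⟨1, 1, 1, 16⟩) (Box.of 4 (by decide +kernel))
    (by decide +kernel)

theorem t3k6_fin : NC (eFin dW t3c6 t3n6 t3r6 t3h6 (tcl t3c6)) :=
  NC.of (K := 227) (D := ⟨1, 1, 1, 14⟩) (Box.of 4 (by decide +kernel))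
    (by decide +kernel)

theorem t3k6_xdl : NC (qc t3e6.dl - pe t3d6.l.dl t3d6.eU) :=
  NC.of (K := 69) (D := ⟨1, 4, 1, 1⟩) (Box.of 4 (by decide +kernel))
    (by decide +kernel)

theorem t3k6_xeY : NC (qc t3e6.eY - pe (e4l t3d6.l.z) t3d6.eU) :=
  NC.of (K := 276) (D := ⟨1, 13, 1, 1⟩) (Box.of 4 (by decide +kernel))
    (by decide +kernel)

theorem t3k6_xgr : NC (qc t3d6.ga * ((1 + qc (3 / 5) * vX) * (1 + (t3d6.eg + hlf * t3d6.eg ^ 2))) + qc t3d6.gb - pe2 t3GR vX t3d6.eU) :=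
  NC.of (K := 229) (D := ⟨4, 11, 1, 1⟩) (Box.of 4 (by decide +kernel))
    (by decide +kernel)

theorem t3k6_xhr : NC (qc t3d6.hb - pe2 t3HR vX t3d6.eU) :=
  NC.of (K := 248) (D := ⟨3, 12, 1, 1⟩) (Box.of 4 (by decide +kernel))
    (by decide +kernel)

theorem t3k6_xgs : NC (pe t3d6.gs t3d6.e1 - qc (8 / 5) * pe (e4l (ladd t3d6.ls.z t3d6.ls.dl)) t3d6.e1) :=
  NC.of (K := 284) (D := ⟨1, 1, 1, 13⟩) (Box.of 4 (by decide +kernel))
    (by decide +kernel)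

theorem t3k6_xd1 : NC (pe t3d6.d1 t3d6.e1 - t3d6.eA t3d6.eU t3d6.e1) :=
  NC.of (K := 274) (D := ⟨1, 12, 1, 12⟩) (Box.of 4 (by decide +kernel))
    (by decide +kernel)

theorem t3k6_xd2 : NC (pe t3d6.d2 t3d6.e1 - t3d6.eB t3d6.eU t3d6.e1) :=
  NC.of (K := 318) (D := ⟨1, 12, 1, 12⟩) (Box.of 1194267 (by decide +kernel))
    (by decide +kernel)

theorem t3k6_xt1 : NC (pe t3d6.t1 t3d6.e1 - t3d6.eAT t3d6.eU t3d6.e1) :=
  NC.of (K := 483) (D := ⟨1, 19, 1, 19⟩) (Box.of 291 (by decide +kernel))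
    (by decide +kernel)

theorem t3k6_xt2 : NC (pe t3d6.t2 t3d6.e1 - t3d6.eBT t3d6.eU t3d6.e1) :=
  NC.of (K := 512) (D := ⟨1, 19, 1, 19⟩) (Box.of 18659 (by decide +kernel))
    (by decide +kernel)

theorem t3k6_xdy : NC (pe t3d6.dy t3d6.e1 - t3d6.eSD t3d6.eU t3d6.e1) :=
  NC.of (K := 417) (D := ⟨1, 18, 1, 12⟩) (Box.of 4 (by decide +kernel))
    (by decide +kernel)

theorem t3k6_xty : NC (pe t3d6.ty t3d6.e1 - t3d6.eST t3d6.eU t3d6.e1) :=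
  NC.of (K := 625) (D := ⟨1, 26, 1, 26⟩) (Box.of 4 (by decide +kernel))
    (by decide +kernel)

theorem t3k6_xd1s : NC (pe t3r6.d1 (t1v t3c6) - pe t3d6.d1 (Xcd.ew zW t3c6)) :=
  NC.of (K := 680) (D := ⟨1, 1, 1, 55⟩) (Box.of 4 (by decide +kernel))
    (by decide +kernel)

theorem t3k6_xd2s : NC (pe t3r6.d2 (t1v t3c6) - pe t3d6.d2 (Xcd.ew zW t3c6)) :=
  NC.of (K := 687) (D := ⟨1, 1, 1, 55⟩) (Box.of 4 (by decide +kernel))
    (by decide +kernel)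

theorem t3k6_xt1s : NC (pe t3r6.t1 (t1v t3c6) - pe t3d6.t1 (Xcd.ew zW t3c6)) :=
  NC.of (K := 689) (D := ⟨1, 1, 1, 55⟩) (Box.of 4 (by decide +kernel))
    (by decide +kernel)

theorem t3k6_xt2s : NC (pe t3r6.t2 (t1v t3c6) - pe t3d6.t2 (Xcd.ew zW t3c6)) :=
  NC.of (K := 688) (D := ⟨1, 1, 1, 55⟩) (Box.of 4 (by decide +kernel))
    (by decide +kernel)

theorem t3k6_xdys : NC (pe t3r6.dy (t1v t3c6) - pe t3d6.dy (Xcd.ew zW t3c6)) :=
  NC.of (K := 679) (D := ⟨1, 1, 1, 55⟩) (Box.of 4 (by decide +kernel))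
    (by decide +kernel)

theorem t3k6_xtys : NC (pe t3r6.ty (t1v t3c6) - pe t3d6.ty (Xcd.ew zW t3c6)) :=
  NC.of (K := 690) (D := ⟨1, 1, 1, 55⟩) (Box.of 4 (by decide +kernel))
    (by decide +kernel)

theorem t3k6_xhz : NC (pe t3r6.hz (t1v t3c6) - pe t3d6.c.dR (Xcd.ew zW t3c6)) :=
  NC.of (K := 689) (D := ⟨1, 1, 1, 55⟩) (Box.of 4 (by decide +kernel))
    (by decide +kernel)

theorem t3f6_ok : t3f6.ok V2L.y2 V2L.k2 V2L.nb V2L.la (10 ^ 30) 32 = true := by decide +kernel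

theorem t3k6_sg : t3c6.Sg := by
  constructor <;> decide +kernel

theorem t3k6_rgs : t3c6.Rgs where
  M := ⟨t3k6_M_r1, t3k6_M_r2, t3k6_M_r3, t3k6_M_r4⟩
  r0 := ⟨t3k6_r0_r1, t3k6_r0_r2, t3k6_r0_r3, t3k6_r0_r4⟩
  r1 := ⟨t3k6_r1_r1, t3k6_r1_r2, t3k6_r1_r3, t3k6_r1_r4⟩
  r2 := ⟨t3k6_r2_r1, t3k6_r2_r2, t3k6_r2_r3, t3k6_r2_r4⟩
  rc := ⟨t3k6_rc_r1, t3k6_rc_r2, t3k6_rc_r3, t3k6_rc_r4⟩
  rI := ⟨t3k6_rI_r1, t3k6_rI_r2, t3k6_rI_r3, t3k6_rI_r4⟩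
  rJ := ⟨t3k6_rJ_r1, t3k6_rJ_r2, t3k6_rJ_r3, t3k6_rJ_r4⟩

theorem t3k6_xn : t3e6.Ok t3c6 where
  lm := by decide +kernel
  dl0 := by decide +kernel
  dl1 := by decide +kernel
  e2 := by decide +kernel
  eY := by decide +kernel
  gE := ⟨t3k6_gE_r1, t3k6_gE_r2, t3k6_gE_r3, t3k6_gE_r4⟩

theorem t3k6_vl : t3c6.Vl dW qW where
  bt := by decide +kernel
  B0 := t3k6_B0
  E0 := t3k6_E0
  D0 := t3k6_D0
  Bh := t3k6_Bh
  Eh := t3k6_Eh
  Dh := t3k6_Dh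
  B1 := t3k6_B1
  E1 := t3k6_E1
  D1 := t3k6_D1

theorem t3k6_rat : t3n6.Rat t3c6 := by
  constructor <;> decide +kernel

theorem t3k6_ck : t3n6.Ck t3c6 := ⟨t3k6_l, t3k6_n⟩

theorem t3k6_fck : t3n6.Fck dW qW fW t3c6 := ⟨t3k6_rb, t3k6_kap⟩

theorem t3k6_w : Wcl zW kW yW t3al t3c6 t3n6 t3m6 where
  b2 := t3k6_wb2
  mb := t3k6_wmb
  th := t3k6_wth
  yb := t3k6_wyb
  mu := t3k6_wmu
  cj := t3k6_wcj
  mt1 := by decide +kernel
  mt2 := by decide +kernel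

theorem t3k6_ok : CelOk dW qW fW t3c6 t3n6 where
  s := t3k6_sg
  r := t3k6_rgs
  v := t3k6_vl
  rt := t3k6_rat
  k := t3k6_ck
  fc := t3k6_fck
  q01 := by decide +kernel
  q12 := by decide +kernel
  h2 := by decide +kernel

theorem t3k6_xr : t3r6.Ok fW t3c6 t3e6 where
  sD := by decide +kernel
  sT := by decide +kernel
  nd1 := t3k6_nd1
  nd2 := t3k6_nd2
  ndy := t3k6_ndy
  nt1 := t3k6_nt1
  nt2 := t3k6_nt2
  nty := t3k6_nty
  nhz := t3k6_nhz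
  xi := t3k6_xi
  om := t3k6_om

theorem t3k6_X : t3d6.Ck t3GR t3HR zW t3c6 t3e6 t3r6 where
  u0 := by decide +kernel
  u01 := by decide +kernel
  ul := by decide +kernel
  us := by decide +kernel
  uc := by decide +kernel
  ga0 := by decide +kernel
  kp0 := by decide +kernel
  lm := by decide +kernel
  dl := t3k6_xdl
  eY := t3k6_xeY
  gr := t3k6_xgr
  hr := t3k6_xhr
  gs := t3k6_xgs
  d1 := t3k6_xd1
  d2 := t3k6_xd2
  t1 := t3k6_xt1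
  t2 := t3k6_xt2
  dy := t3k6_xdy
  ty := t3k6_xty
  d1s := t3k6_xd1s
  d2s := t3k6_xd2s
  t1s := t3k6_xt1s
  t2s := t3k6_xt2s
  dys := t3k6_xdys
  tys := t3k6_xtys
  hz := t3k6_xhz

end Pool.Agent.RX.RCN.K
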