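import Pool.Agent.RX.RCN.T3D
import Pool.Agent.RX.RCN.T3Wq
import Pool.Agent.RX.RCN.T3X2
import Pool.Agent.RX.RCN.VLd

/-! Certificates (generated). -/

set_option autoImplicit false

namespace Pool.Agent.RX.RCN.K

open Set Pool.Agent.RX.RCM9 Pool.Agent.RX.RCM9.Bern Pool.Agent.RX.RCM9.Pk Xce

def t3c7 : Cel where
  t0 := 53 / 200
  t1 := 7 / 25
  C := 4097 / 4096
  th := 9 / 32
  B0 := 2243 / 2048
  Bh := 69 / 64
  B1 := 1057 / 1024
  D0 := 489 / 2048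
  Dh := 711 / 4096
  D1 := 673 / 4096
  E0 := 5213 / 4194304
  Eh := 3943 / 4194304
  E1 := 3735 / 4194304
  Q0 := 1125 / 1024
  Q1 := 1125 / 1024
  Q2 := 1125 / 1024
  Ac := 1125 / 1024
  gI := 1125 / 1024
  J := 5823 / 4194304

def t3n7 : Chn where
  lb := 513 / 512
  nb := 297 / 1024
  Mb := 1029 / 1024
  b2 := 65 / 64
  Yb := 11 / 4096
  E2 := 4119 / 4096
  e1 := 297 / 256
  Z1 := 571 / 512
  Z2 := 77 / 128
  KB := 523 / 512
  cb := 131 / 128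
  rb := 269 / 1024
  om := 263 / 256
  fb := 129 / 128
  kap := 2059 / 2048
  ab := 1029 / 1024

def t3e7 : Xge where
  lm := 3 / 5
  dl := 285 / 1024
  e2 := 699 / 16384
  eY := 4109 / 4096
  gE := 1125 / 1024

def t3r7 : Xr where
  d1 := [545181 / 100000000, 22071 / 50000000, 3773 / 625000, 326389 / 20000000, 78973 / 10000000,
    2896051 / 100000000, 232417 / 6250000]
  d2 := [107 / 4000000, 114973 / 100000000, 8700853 / 100000000, -63833207 / 100000000, 199468043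
    / 50000000, -259894603 / 25000000, 958989661 / 100000000]
  dy := [2507409 / 100000000, 490429 / 100000000, 7472003 / 100000000, 16565859 / 100000000,
    -5400801 / 12500000, 63376289 / 100000000, -35388893 / 100000000]
  t1 := [5164651 / 100000000, -6384903 / 20000000, 86194399 / 100000000, -303590397 / 50000000,
    4540329721 / 100000000, -7554766357 / 50000000, 1182261447 / 6250000]
  t2 := [323293 / 50000000, -4137213 / 100000000, -801361 / 50000000, 41242997 / 20000000,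
    -667044059 / 50000000, 404991063 / 10000000, -4595407149 / 100000000]
  ty := [10028873 / 50000000, -29331059 / 20000000, 48406821 / 12500000, -278837677 / 100000000,
    2018181 / 800000, -26590547 / 2000000, 197028213 / 10000000]
  hz := [1069243 / 20000000, -2650161 / 100000000, -394104399 / 50000000, 412295357 / 12500000,
    19645557331 / 100000000, -28152269863 / 20000000, 221103424801 / 100000000]
  om := [1003967 / 1000000, 102056771 / 100000000, -1371700847 / 100000000, 2559792821 / 50000000,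
    -8261533221 / 100000000, -702889659 / 25000000, 7148075123 / 12500000, -35189100729 /
    25000000, 60440604121 / 50000000]
  sD := 461 / 256
  sT := 415 / 256
  xi := [259763 / 20000000, 9106563 / 50000000, -17923739 / 20000000, -742232409 / 100000000,
    1916658763 / 50000000, 29591532321 / 100000000, -116685705277 / 50000000, 130905008131 /
    25000000, -406497299471 / 100000000, 153480603933 / 100000000]

def t3f7 : Dl where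
  Ca := 664541 / 2500000
  Cv := 280867 / 1000000
  k1 := 9760411 / 10000000
  ks := 482667 / 500000
  dd := 0
  kp := 3 / 1250000
  e := [249999924997 / 250000000000, -1210575281511 / 1000000000000, 580589199939 / 500000000000,
    -243647579593 / 250000000000, 197780747529 / 250000000000, -610874976789 / 1000000000000,
    220419456861 / 500000000000, -54168121251 / 200000000000, 10160727211 / 100000000000]
  j1 := [-810707 / 250000000, -5468500623 / 500000000, 96150434789 / 1000000000, -8060636709 /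
    20000000, 984031930573 / 1000000000, -181790515773 / 125000000, 129019016483 / 100000000,
    -583437408961 / 1000000000]
  nu := [8819711 / 250000000, -77662089 / 500000000, 386858037 / 1000000000, 297087221 /
    1000000000, -1230446329 / 500000000, 10419403109 / 1000000000, -7505603481 / 500000000]
  k2 := [965335917 / 1000000000, 74968973 / 500000000, -180799999 / 500000000, -349945291 /
    1000000000, 2479717099 / 1000000000, -10196141531 / 1000000000, 736456927 / 50000000]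
  dR := [5335481 / 100000000, -526991 / 20000000, -391761313 / 50000000, 3268999129 / 100000000,
    19404590497 / 100000000, -69311337287 / 50000000, 108540740691 / 50000000]

def t3d7 : Xce where
  u0 := 266317 / 1000000
  u1 := 280867 / 1000000
  l := V2L.y2
  y := t3z2
  j := t3j2
  i := t3i2
  ls := t3y2
  k := V2L.k2
  c := t3f7
  ga := 2721 / 500000
  gb := -949 / 1000000
  hb := 19887 / 1000000
  gs := [160002437 / 100000000, 119999997 / 50000000, 45000083 / 25000000, 3183723 / 4000000,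
    13327819 / 50000000, -1203697 / 10000000, -387271 / 6250000]
  d1 := [544853 / 100000000, 43963 / 100000000, 300641 / 50000000, 1604503 / 100000000, 81201 /
    10000000, 2934367 / 100000000, 830613 / 25000000]
  d2 := [2453 / 100000000, 11439 / 10000000, 4327417 / 50000000, -63329413 / 100000000, 197212683
    / 50000000, -1024212753 / 100000000, 941228947 / 100000000]
  dy := [1252849 / 50000000, 488469 / 100000000, 7440331 / 100000000, 8130311 / 50000000,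
    -21025463 / 50000000, 61828911 / 100000000, -35780447 / 100000000]
  t1 := [5162037 / 100000000, -31821741 / 100000000, 85544043 / 100000000, -600434107 / 100000000,
    2239888277 / 50000000, -3717414471 / 25000000, 1160323 / 6250]
  t2 := [646257 / 100000000, -412391 / 10000000, -402001 / 25000000, 102235511 / 50000000,
    -131852277 / 10000000, 3990050031 / 100000000, -4513532391 / 100000000]
  ty := [10023797 / 50000000, -1142077 / 781250, 192212061 / 50000000, -136203231 / 50000000,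
    47196579 / 20000000, -648393853 / 50000000, 972584277 / 50000000]

def t3m7 : ℚ := 579 / 2048

def t3h7 : ℚ := 239 / 500

theorem t3k7_M_r1 : NC (fM t3c7 (1 - eh) eh ek (elo t3c7.B0 t3c7.Bh eh) (elo t3c7.D0 t3c7.Dh ek) (elo t3c7.E0 t3c7.Eh ek)) :=
  NC.of (K := 30) (D := ⟨4, 3, 1, 1⟩) (Box.of 4 (by decide +kernel))
    (by decide +kernel)

theorem t3k7_M_r2 : NC (fM t3c7 eh (1 - eh) ek (ehi t3c7.Bh t3c7.B1 (1 - eh)) (elo t3c7.D0 t3c7.Dh ek) (elo t3c7.E0 t3c7.Eh ek)) :=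
  NC.of (K := 30) (D := ⟨4, 3, 1, 1⟩) (Box.of 4 (by decide +kernel))
    (by decide +kernel)

theorem t3k7_M_r3 : NC (fM t3c7 (1 - eh) ek eh (elo t3c7.B0 t3c7.Bh ek) (elo t3c7.D0 t3c7.Dh eh) (elo t3c7.E0 t3c7.Eh eh)) :=
  NC.of (K := 28) (D := ⟨4, 2, 1, 1⟩) (Box.of 4 (by decide +kernel))
    (by decide +kernel)

theorem t3k7_M_r4 : NC (fM t3c7 eh ek (1 - eh) (elo t3c7.B0 t3c7.Bh ek) (ehi t3c7.Dh t3c7.D1 (1 - eh)) (ehi t3c7.Eh t3c7.E1 (1 - eh))) :=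
  NC.of (K := 28) (D := ⟨4, 2, 1, 1⟩) (Box.of 4 (by decide +kernel))
    (by decide +kernel)

theorem t3k7_r0_r1 : NC (f0 t3c7 (1 - eh) eh ek (elo t3c7.B0 t3c7.Bh eh) (elo t3c7.D0 t3c7.Dh ek) (elo t3c7.E0 t3c7.Eh ek)) :=
  NC.of (K := 146) (D := ⟨13, 9, 1, 1⟩) (Box.of 4 (by decide +kernel))
    (by decide +kernel)

theorem t3k7_r0_r2 : NC (f0 t3c7 eh (1 - eh) ek (ehi t3c7.Bh t3c7.B1 (1 - eh)) (elo t3c7.D0 t3c7.Dh ek) (elo t3c7.E0 t3c7.Eh ek)) :=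
  NC.of (K := 146) (D := ⟨13, 9, 1, 1⟩) (Box.of 4 (by decide +kernel))
    (by decide +kernel)

theorem t3k7_r0_r3 : NC (f0 t3c7 (1 - eh) ek eh (elo t3c7.B0 t3c7.Bh ek) (elo t3c7.D0 t3c7.Dh eh) (elo t3c7.E0 t3c7.Eh eh)) :=
  NC.of (K := 141) (D := ⟨13, 5, 1, 1⟩) (Box.of 4 (by decide +kernel))
    (by decide +kernel)

theorem t3k7_r0_r4 : NC (f0 t3c7 eh ek (1 - eh) (elo t3c7.B0 t3c7.Bh ek) (ehi t3c7.Dh t3c7.D1 (1 - eh)) (ehi t3c7.Eh t3c7.E1 (1 - eh))) :=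
  NC.of (K := 138) (D := ⟨13, 5, 1, 1⟩) (Box.of 4 (by decide +kernel))
    (by decide +kernel)

theorem t3k7_r1_r1 : NC (f1 t3c7 (1 - eh) eh ek (elo t3c7.B0 t3c7.Bh eh) (elo t3c7.D0 t3c7.Dh ek) (elo t3c7.E0 t3c7.Eh ek)) :=
  NC.of (K := 180) (D := ⟨16, 9, 1, 1⟩) (Box.of 4 (by decide +kernel))
    (by decide +kernel)

theorem t3k7_r1_r2 : NC (f1 t3c7 eh (1 - eh) ek (ehi t3c7.Bh t3c7.B1 (1 - eh)) (elo t3c7.D0 t3c7.Dh ek) (elo t3c7.E0 t3c7.Eh ek)) :=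
  NC.of (K := 179) (D := ⟨16, 9, 1, 1⟩) (Box.of 4 (by decide +kernel))
    (by decide +kernel)

theorem t3k7_r1_r3 : NC (f1 t3c7 (1 - eh) ek eh (elo t3c7.B0 t3c7.Bh ek) (elo t3c7.D0 t3c7.Dh eh) (elo t3c7.E0 t3c7.Eh eh)) :=
  NC.of (K := 184) (D := ⟨16, 12, 1, 1⟩) (Box.of 4 (by decide +kernel))
    (by decide +kernel)

theorem t3k7_r1_r4 : NC (f1 t3c7 eh ek (1 - eh) (elo t3c7.B0 t3c7.Bh ek) (ehi t3c7.Dh t3c7.D1 (1 - eh)) (ehi t3c7.Eh t3c7.E1 (1 - eh))) :=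
  NC.of (K := 185) (D := ⟨16, 12, 1, 1⟩) (Box.of 4 (by decide +kernel))
    (by decide +kernel)

theorem t3k7_r2_r1 : NC (f2 t3c7 (1 - eh) eh ek (elo t3c7.B0 t3c7.Bh eh) (elo t3c7.D0 t3c7.Dh ek) (elo t3c7.E0 t3c7.Eh ek)) :=
  NC.of (K := 183) (D := ⟨16, 11, 1, 1⟩) (Box.of 4 (by decide +kernel))
    (by decide +kernel)

theorem t3k7_r2_r2 : NC (f2 t3c7 eh (1 - eh) ek (ehi t3c7.Bh t3c7.B1 (1 - eh)) (elo t3c7.D0 t3c7.Dh ek) (elo t3c7.E0 t3c7.Eh ek)) :=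
  NC.of (K := 182) (D := ⟨16, 11, 1, 1⟩) (Box.of 4 (by decide +kernel))
    (by decide +kernel)

theorem t3k7_r2_r3 : NC (f2 t3c7 (1 - eh) ek eh (elo t3c7.B0 t3c7.Bh ek) (elo t3c7.D0 t3c7.Dh eh) (elo t3c7.E0 t3c7.Eh eh)) :=
  NC.of (K := 184) (D := ⟨16, 12, 1, 1⟩) (Box.of 4 (by decide +kernel))
    (by decide +kernel)

theorem t3k7_r2_r4 : NC (f2 t3c7 eh ek (1 - eh) (elo t3c7.B0 t3c7.Bh ek) (ehi t3c7.Dh t3c7.D1 (1 - eh)) (ehi t3c7.Eh t3c7.E1 (1 - eh))) :=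
  NC.of (K := 186) (D := ⟨16, 12, 1, 1⟩) (Box.of 4 (by decide +kernel))
    (by decide +kernel)

theorem t3k7_rc_r1 : NC (fc t3c7 (1 - eh) eh ek (elo t3c7.B0 t3c7.Bh eh) (elo t3c7.D0 t3c7.Dh ek) (elo t3c7.E0 t3c7.Eh ek)) :=
  NC.of (K := 146) (D := ⟨13, 9, 1, 1⟩) (Box.of 4 (by decide +kernel))
    (by decide +kernel)

theorem t3k7_rc_r2 : NC (fc t3c7 eh (1 - eh) ek (ehi t3c7.Bh t3c7.B1 (1 - eh)) (elo t3c7.D0 t3c7.Dh ek) (elo t3c7.E0 t3c7.Eh ek)) :=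
  NC.of (K := 145) (D := ⟨13, 9, 1, 1⟩) (Box.of 4 (by decide +kernel))
    (by decide +kernel)

theorem t3k7_rc_r3 : NC (fc t3c7 (1 - eh) ek eh (elo t3c7.B0 t3c7.Bh ek) (elo t3c7.D0 t3c7.Dh eh) (elo t3c7.E0 t3c7.Eh eh)) :=
  NC.of (K := 141) (D := ⟨13, 5, 1, 1⟩) (Box.of 4 (by decide +kernel))
    (by decide +kernel)

theorem t3k7_rc_r4 : NC (fc t3c7 eh ek (1 - eh) (elo t3c7.B0 t3c7.Bh ek) (ehi t3c7.Dh t3c7.D1 (1 - eh)) (ehi t3c7.Eh t3c7.E1 (1 - eh))) :=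
  NC.of (K := 138) (D := ⟨13, 5, 1, 1⟩) (Box.of 4 (by decide +kernel))
    (by decide +kernel)

theorem t3k7_rI_r1 : NC (fI t3c7 (1 - eh) eh ek (elo t3c7.B0 t3c7.Bh eh) (elo t3c7.D0 t3c7.Dh ek) (elo t3c7.E0 t3c7.Eh ek)) :=
  NC.of (K := 130) (D := ⟨13, 9, 1, 1⟩) (Box.of 4 (by decide +kernel))
    (by decide +kernel)

theorem t3k7_rI_r2 : NC (fI t3c7 eh (1 - eh) ek (ehi t3c7.Bh t3c7.B1 (1 - eh)) (elo t3c7.D0 t3c7.Dh ek) (elo t3c7.E0 t3c7.Eh ek)) :=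
  NC.of (K := 130) (D := ⟨13, 9, 1, 1⟩) (Box.of 4 (by decide +kernel))
    (by decide +kernel)

theorem t3k7_rI_r3 : NC (fI t3c7 (1 - eh) ek eh (elo t3c7.B0 t3c7.Bh ek) (elo t3c7.D0 t3c7.Dh eh) (elo t3c7.E0 t3c7.Eh eh)) :=
  NC.of (K := 125) (D := ⟨13, 5, 1, 1⟩) (Box.of 4 (by decide +kernel))
    (by decide +kernel)

theorem t3k7_rI_r4 : NC (fI t3c7 eh ek (1 - eh) (elo t3c7.B0 t3c7.Bh ek) (ehi t3c7.Dh t3c7.D1 (1 - eh)) (ehi t3c7.Eh t3c7.E1 (1 - eh))) :=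
  NC.of (K := 122) (D := ⟨13, 5, 1, 1⟩) (Box.of 4 (by decide +kernel))
    (by decide +kernel)

theorem t3k7_rJ_r1 : NC (fJ t3c7 (1 - eh) eh ek (elo t3c7.B0 t3c7.Bh eh) (elo t3c7.D0 t3c7.Dh ek) (elo t3c7.E0 t3c7.Eh ek)) :=
  NC.of (K := 90) (D := ⟨7, 5, 1, 1⟩) (Box.of 288 (by decide +kernel))
    (by decide +kernel)

theorem t3k7_rJ_r2 : NC (fJ t3c7 eh (1 - eh) ek (ehi t3c7.Bh t3c7.B1 (1 - eh)) (elo t3c7.D0 t3c7.Dh ek) (elo t3c7.E0 t3c7.Eh ek)) :=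
  NC.of (K := 78) (D := ⟨7, 5, 1, 1⟩) (Box.of 4 (by decide +kernel))
    (by decide +kernel)

theorem t3k7_rJ_r3 : NC (fJ t3c7 (1 - eh) ek eh (elo t3c7.B0 t3c7.Bh ek) (elo t3c7.D0 t3c7.Dh eh) (elo t3c7.E0 t3c7.Eh eh)) :=
  NC.of (K := 88) (D := ⟨7, 3, 1, 1⟩) (Box.of 288 (by decide +kernel))
    (by decide +kernel)

theorem t3k7_rJ_r4 : NC (fJ t3c7 eh ek (1 - eh) (elo t3c7.B0 t3c7.Bh ek) (ehi t3c7.Dh t3c7.D1 (1 - eh)) (ehi t3c7.Eh t3c7.E1 (1 - eh))) :=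
  NC.of (K := 73) (D := ⟨7, 3, 1, 1⟩) (Box.of 4 (by decide +kernel))
    (by decide +kernel)

theorem t3k7_gE_r1 : NC (fE t3c7 t3e7 (1 - eh) eh ek (elo t3c7.B0 t3c7.Bh eh) (elo t3c7.D0 t3c7.Dh ek) (elo t3c7.E0 t3c7.Eh ek)) :=
  NC.of (K := 130) (D := ⟨13, 9, 1, 1⟩) (Box.of 4 (by decide +kernel))
    (by decide +kernel)

theorem t3k7_gE_r2 : NC (fE t3c7 t3e7 eh (1 - eh) ek (ehi t3c7.Bh t3c7.B1 (1 - eh)) (elo t3c7.D0 t3c7.Dh ek) (elo t3c7.E0 t3c7.Eh ek)) :=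
  NC.of (K := 132) (D := ⟨13, 9, 1, 1⟩) (Box.of 4 (by decide +kernel))
    (by decide +kernel)

theorem t3k7_gE_r3 : NC (fE t3c7 t3e7 (1 - eh) ek eh (elo t3c7.B0 t3c7.Bh ek) (elo t3c7.D0 t3c7.Dh eh) (elo t3c7.E0 t3c7.Eh eh)) :=
  NC.of (K := 128) (D := ⟨13, 7, 1, 1⟩) (Box.of 4 (by decide +kernel))
    (by decide +kernel)

theorem t3k7_gE_r4 : NC (fE t3c7 t3e7 eh ek (1 - eh) (elo t3c7.B0 t3c7.Bh ek) (ehi t3c7.Dh t3c7.D1 (1 - eh)) (ehi t3c7.Eh t3c7.E1 (1 - eh))) :=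
  NC.of (K := 126) (D := ⟨13, 7, 1, 1⟩) (Box.of 4 (by decide +kernel))
    (by decide +kernel)

theorem t3k7_B0 : NC (kB dW 1 0 t3c7.B0 (tcl t3c7)) :=
  NC.of (K := 100) (D := ⟨1, 1, 1, 9⟩) (Box.of 4 (by decide +kernel))
    (by decide +kernel)

theorem t3k7_E0 : NC (kE dW qW qW.p0 qW.q0 t3c7.E0 (tcl t3c7)) :=
  NC.of (K := 223) (D := ⟨1, 1, 1, 19⟩) (Box.of 4 (by decide +kernel))
    (by decide +kernel)

theorem t3k7_D0 : NC (kD dW qW 1 0 qW.p0 qW.q0 t3c7.D0 (tcl t3c7)) :=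
  NC.of (K := 340) (D := ⟨1, 1, 1, 20⟩) (Box.of 4 (by decide +kernel))
    (by decide +kernel)

theorem t3k7_Bh : NC (kB dW (1 / 2) (1 / 2) t3c7.Bh (tcl t3c7)) :=
  NC.of (K := 103) (D := ⟨1, 1, 1, 9⟩) (Box.of 4 (by decide +kernel))
    (by decide +kernel)

theorem t3k7_Eh : NC (kE dW qW qW.ph qW.qh t3c7.Eh (tcl t3c7)) :=
  NC.of (K := 227) (D := ⟨1, 1, 1, 19⟩) (Box.of 4 (by decide +kernel))
    (by decide +kernel)

theorem t3k7_Dh : NC (kD dW qW (1 / 2) (1 / 2) qW.ph qW.qh t3c7.Dh (tcl t3c7)) :=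
  NC.of (K := 344) (D := ⟨1, 1, 1, 20⟩) (Box.of 4 (by decide +kernel))
    (by decide +kernel)

theorem t3k7_B1 : NC (kB dW 0 (1 / 2) t3c7.B1 (tcl t3c7)) :=
  NC.of (K := 103) (D := ⟨1, 1, 1, 9⟩) (Box.of 4 (by decide +kernel))
    (by decide +kernel)

theorem t3k7_E1 : NC (kE dW qW qW.p1 qW.q1 t3c7.E1 (tcl t3c7)) :=
  NC.of (K := 226) (D := ⟨1, 1, 1, 19⟩) (Box.of 4 (by decide +kernel))
    (by decide +kernel)

theorem t3k7_D1 : NC (kD dW qW 0 (1 / 2) qW.p1 qW.q1 t3c7.D1 (tcl t3c7)) :=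
  NC.of (K := 344) (D := ⟨1, 1, 1, 20⟩) (Box.of 4 (by decide +kernel))
    (by decide +kernel)

theorem t3k7_l : NC (qc t3n7.lb - (1 - vX) * pe (exl t3c7.th) vX ^ 2) :=
  NC.of (K := 66) (D := ⟨10, 1, 1, 1⟩) (Box.of 4 (by decide +kernel))
    (by decide +kernel)

theorem t3k7_n : NC (qc t3n7.nb - vX * (1 - vX) * pe (exl t3c7.th) vX) :=
  NC.of (K := 74) (D := ⟨7, 1, 1, 1⟩) (Box.of 1196064 (by decide +kernel))
    (by decide +kernel)

theorem t3k7_rb : NC (krb t3n7 fW (t1v t3c7)) :=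
  NC.of (K := 154) (D := ⟨1, 1, 1, 16⟩) (Box.of 4 (by decide +kernel))
    (by decide +kernel)

theorem t3k7_kap : NC (kkap dW qW t3n7 (tcl t3c7)) :=
  NC.of (K := 101) (D := ⟨1, 1, 1, 9⟩) (Box.of 4 (by decide +kernel))
    (by decide +kernel)

theorem t3k7_wb2 : NC (qc t3n7.b2 - pe2 kW.QB (vZ * t1v t3c7) (t1v t3c7)) :=
  NC.of (K := 121) (D := ⟨1, 6, 1, 11⟩) (Box.of 291 (by decide +kernel))
    (by decide +kernel)

theorem t3k7_wmb : NC (qc t3n7.Mb - pe zW.mb (t1v t3c7)) :=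
  NC.of (K := 81) (D := ⟨1, 1, 1, 9⟩) (Box.of 4 (by decide +kernel))
    (by decide +kernel)

theorem t3k7_wth : NC (qc (t3c7.th / t3c7.t1) - pe2 zW.Qt (vZ * t1v t3c7) (t1v t3c7)) :=
  NC.of (K := 125) (D := ⟨1, 6, 1, 11⟩) (Box.of 291 (by decide +kernel))
    (by decide +kernel)

theorem t3k7_wyb : NC (qc t3n7.Yb - (t1v t3c7 - vZ * t1v t3c7) ^ 3 * pe2 yW.QY (vZ * t1v t3c7) (t1v t3c7)) :=
  NC.of (K := 106) (D := ⟨1, 8, 1, 12⟩) (Box.of 4 (by decide +kernel))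
    (by decide +kernel)

theorem t3k7_wmu : NC (qc t3m7 - pe t3al (tcl t3c7) * (1 + hlf * tcl t3c7)) :=
  NC.of (K := 95) (D := ⟨1, 1, 1, 9⟩) (Box.of 4 (by decide +kernel))
    (by decide +kernel)

theorem t3k7_wcj : NC (qc t3c7.C * ((6 - 3 * vX) * (1 - qc t3m7 * vX)) - (6 - 6 * vX + vX ^ 2)) :=
  NC.of (K := 33) (D := ⟨3, 1, 1, 1⟩) (Box.of 4 (by decide +kernel))
    (by decide +kernel)

theorem t3k7_nd1 : NC (pe t3r7.d1 (t1v t3c7)) :=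
  NC.of (K := 57) (D := ⟨1, 1, 1, 7⟩) (Box.of 4 (by decide +kernel))
    (by decide +kernel)

theorem t3k7_nd2 : NC (pe t3r7.d2 (t1v t3c7)) :=
  NC.of (K := 61) (D := ⟨1, 1, 1, 7⟩) (Box.of 4 (by decide +kernel))
    (by decide +kernel)

theorem t3k7_ndy : NC (pe t3r7.dy (t1v t3c7)) :=
  NC.of (K := 60) (D := ⟨1, 1, 1, 7⟩) (Box.of 4 (by decide +kernel))
    (by decide +kernel)

theorem t3k7_nt1 : NC (pe t3r7.t1 (t1v t3c7)) :=
  NC.of (K := 65) (D := ⟨1, 1, 1, 7⟩) (Box.of 4 (by decide +kernel))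
    (by decide +kernel)

theorem t3k7_nt2 : NC (pe t3r7.t2 (t1v t3c7)) :=
  NC.of (K := 63) (D := ⟨1, 1, 1, 7⟩) (Box.of 4 (by decide +kernel))
    (by decide +kernel)

theorem t3k7_nty : NC (pe t3r7.ty (t1v t3c7)) :=
  NC.of (K := 62) (D := ⟨1, 1, 1, 7⟩) (Box.of 4 (by decide +kernel))
    (by decide +kernel)

theorem t3k7_nhz : NC (pe t3r7.hz (t1v t3c7)) :=
  NC.of (K := 92) (D := ⟨1, 1, 1, 7⟩) (Box.of 18659 (by decide +kernel))
    (by decide +kernel)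

theorem t3k7_xi : NC (eXi fW t3c7 t3e7 t3r7 (t1v t3c7)) :=
  NC.of (K := 265) (D := ⟨1, 1, 1, 22⟩) (Box.of 4 (by decide +kernel))
    (by decide +kernel)

theorem t3k7_om : NC (eOm fW t3r7 (t1v t3c7)) :=
  NC.of (K := 146) (D := ⟨1, 1, 1, 16⟩) (Box.of 4 (by decide +kernel))
    (by decide +kernel)

theorem t3k7_fin : NC (eFin dW t3c7 t3n7 t3r7 t3h7 (tcl t3c7)) :=
  NC.of (K := 213) (D := ⟨1, 1, 1, 14⟩) (Box.of 4 (by decide +kernel))
    (by decide +kernel)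

theorem t3k7_xdl : NC (qc t3e7.dl - pe t3d7.l.dl t3d7.eU) :=
  NC.of (K := 72) (D := ⟨1, 4, 1, 1⟩) (Box.of 4 (by decide +kernel))
    (by decide +kernel)

theorem t3k7_xeY : NC (qc t3e7.eY - pe (e4l t3d7.l.z) t3d7.eU) :=
  NC.of (K := 288) (D := ⟨1, 13, 1, 1⟩) (Box.of 4 (by decide +kernel))
    (by decide +kernel)

theorem t3k7_xgr : NC (qc t3d7.ga * ((1 + qc (3 / 5) * vX) * (1 + (t3d7.eg + hlf * t3d7.eg ^ 2))) + qc t3d7.gb - pe2 t3GR vX t3d7.eU) :=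
  NC.of (K := 239) (D := ⟨4, 11, 1, 1⟩) (Box.of 4 (by decide +kernel))
    (by decide +kernel)

theorem t3k7_xhr : NC (qc t3d7.hb - pe2 t3HR vX t3d7.eU) :=
  NC.of (K := 259) (D := ⟨3, 12, 1, 1⟩) (Box.of 4 (by decide +kernel))
    (by decide +kernel)

theorem t3k7_xgs : NC (pe t3d7.gs t3d7.e1 - qc (8 / 5) * pe (e4l (ladd t3d7.ls.z t3d7.ls.dl)) t3d7.e1) :=
  NC.of (K := 296) (D := ⟨1, 1, 1, 13⟩) (Box.of 4 (by decide +kernel))
    (by decide +kernel)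

theorem t3k7_xd1 : NC (pe t3d7.d1 t3d7.e1 - t3d7.eA t3d7.eU t3d7.e1) :=
  NC.of (K := 285) (D := ⟨1, 12, 1, 12⟩) (Box.of 4 (by decide +kernel))
    (by decide +kernel)

theorem t3k7_xd2 : NC (pe t3d7.d2 t3d7.e1 - t3d7.eB t3d7.eU t3d7.e1) :=
  NC.of (K := 328) (D := ⟨1, 12, 1, 12⟩) (Box.of 1194267 (by decide +kernel))
    (by decide +kernel)

theorem t3k7_xt1 : NC (pe t3d7.t1 t3d7.e1 - t3d7.eAT t3d7.eU t3d7.e1) :=
  NC.of (K := 501) (D := ⟨1, 19, 1, 19⟩) (Box.of 291 (by decide +kernel))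
    (by decide +kernel)

theorem t3k7_xt2 : NC (pe t3d7.t2 t3d7.e1 - t3d7.eBT t3d7.eU t3d7.e1) :=
  NC.of (K := 530) (D := ⟨1, 19, 1, 19⟩) (Box.of 18659 (by decide +kernel))
    (by decide +kernel)

theorem t3k7_xdy : NC (pe t3d7.dy t3d7.e1 - t3d7.eSD t3d7.eU t3d7.e1) :=
  NC.of (K := 436) (D := ⟨1, 18, 1, 12⟩) (Box.of 4 (by decide +kernel))
    (by decide +kernel)

theorem t3k7_xty : NC (pe t3d7.ty t3d7.e1 - t3d7.eST t3d7.eU t3d7.e1) :=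
  NC.of (K := 652) (D := ⟨1, 26, 1, 26⟩) (Box.of 4 (by decide +kernel))
    (by decide +kernel)

theorem t3k7_xd1s : NC (pe t3r7.d1 (t1v t3c7) - pe t3d7.d1 (Xcd.ew zW t3c7)) :=
  NC.of (K := 535) (D := ⟨1, 1, 1, 55⟩) (Box.of 4 (by decide +kernel))
    (by decide +kernel)

theorem t3k7_xd2s : NC (pe t3r7.d2 (t1v t3c7) - pe t3d7.d2 (Xcd.ew zW t3c7)) :=
  NC.of (K := 543) (D := ⟨1, 1, 1, 55⟩) (Box.of 4 (by decide +kernel))
    (by decide +kernel)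

theorem t3k7_xt1s : NC (pe t3r7.t1 (t1v t3c7) - pe t3d7.t1 (Xcd.ew zW t3c7)) :=
  NC.of (K := 533) (D := ⟨1, 1, 1, 55⟩) (Box.of 4 (by decide +kernel))
    (by decide +kernel)

theorem t3k7_xt2s : NC (pe t3r7.t2 (t1v t3c7) - pe t3d7.t2 (Xcd.ew zW t3c7)) :=
  NC.of (K := 545) (D := ⟨1, 1, 1, 55⟩) (Box.of 4 (by decide +kernel))
    (by decide +kernel)

theorem t3k7_xdys : NC (pe t3r7.dy (t1v t3c7) - pe t3d7.dy (Xcd.ew zW t3c7)) :=
  NC.of (K := 540) (D := ⟨1, 1, 1, 55⟩) (Box.of 4 (by decide +kernel))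
    (by decide +kernel)

theorem t3k7_xtys : NC (pe t3r7.ty (t1v t3c7) - pe t3d7.ty (Xcd.ew zW t3c7)) :=
  NC.of (K := 544) (D := ⟨1, 1, 1, 55⟩) (Box.of 4 (by decide +kernel))
    (by decide +kernel)

theorem t3k7_xhz : NC (pe t3r7.hz (t1v t3c7) - pe t3d7.c.dR (Xcd.ew zW t3c7)) :=
  NC.of (K := 549) (D := ⟨1, 1, 1, 55⟩) (Box.of 4 (by decide +kernel))
    (by decide +kernel)

theorem t3f7_ok : t3f7.ok V2L.y2 V2L.k2 V2L.nb V2L.la (10 ^ 30) 32 = true := by decide +kernel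

theorem t3k7_sg : t3c7.Sg := by
  constructor <;> decide +kernel

theorem t3k7_rgs : t3c7.Rgs where
  M := ⟨t3k7_M_r1, t3k7_M_r2, t3k7_M_r3, t3k7_M_r4⟩
  r0 := ⟨t3k7_r0_r1, t3k7_r0_r2, t3k7_r0_r3, t3k7_r0_r4⟩
  r1 := ⟨t3k7_r1_r1, t3k7_r1_r2, t3k7_r1_r3, t3k7_r1_r4⟩
  r2 := ⟨t3k7_r2_r1, t3k7_r2_r2, t3k7_r2_r3, t3k7_r2_r4⟩
  rc := ⟨t3k7_rc_r1, t3k7_rc_r2, t3k7_rc_r3, t3k7_rc_r4⟩
  rI := ⟨t3k7_rI_r1, t3k7_rI_r2, t3k7_rI_r3, t3k7_rI_r4⟩
  rJ := ⟨t3k7_rJ_r1, t3k7_rJ_r2, t3k7_rJ_r3, t3k7_rJ_r4⟩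

theorem t3k7_xn : t3e7.Ok t3c7 where
  lm := by decide +kernel
  dl0 := by decide +kernel
  dl1 := by decide +kernel
  e2 := by decide +kernel
  eY := by decide +kernel
  gE := ⟨t3k7_gE_r1, t3k7_gE_r2, t3k7_gE_r3, t3k7_gE_r4⟩

theorem t3k7_vl : t3c7.Vl dW qW where
  bt := by decide +kernel
  B0 := t3k7_B0
  E0 := t3k7_E0
  D0 := t3k7_D0
  Bh := t3k7_Bh
  Eh := t3k7_Eh
  Dh := t3k7_Dh
  B1 := t3k7_B1
  E1 := t3k7_E1
  D1 := t3k7_D1

theorem t3k7_rat : t3n7.Rat t3c7 := by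
  constructor <;> decide +kernel

theorem t3k7_ck : t3n7.Ck t3c7 := ⟨t3k7_l, t3k7_n⟩

theorem t3k7_fck : t3n7.Fck dW qW fW t3c7 := ⟨t3k7_rb, t3k7_kap⟩

theorem t3k7_w : Wcl zW kW yW t3al t3c7 t3n7 t3m7 where
  b2 := t3k7_wb2
  mb := t3k7_wmb
  th := t3k7_wth
  yb := t3k7_wyb
  mu := t3k7_wmu
  cj := t3k7_wcj
  mt1 := by decide +kernel
  mt2 := by decide +kernel

theorem t3k7_ok : CelOk dW qW fW t3c7 t3n7 where
  s := t3k7_sg
  r := t3k7_rgs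
  v := t3k7_vl
  rt := t3k7_rat
  k := t3k7_ck
  fc := t3k7_fck
  q01 := by decide +kernel
  q12 := by decide +kernel
  h2 := by decide +kernel

theorem t3k7_xr : t3r7.Ok fW t3c7 t3e7 where
  sD := by decide +kernel
  sT := by decide +kernel
  nd1 := t3k7_nd1
  nd2 := t3k7_nd2
  ndy := t3k7_ndy
  nt1 := t3k7_nt1
  nt2 := t3k7_nt2
  nty := t3k7_nty
  nhz := t3k7_nhz
  xi := t3k7_xi
  om := t3k7_om

theorem t3k7_X : t3d7.Ck t3GR t3HR zW t3c7 t3e7 t3r7 where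
  u0 := by decide +kernel
  u01 := by decide +kernel
  ul := by decide +kernel
  us := by decide +kernel
  uc := by decide +kernel
  ga0 := by decide +kernel
  kp0 := by decide +kernel
  lm := by decide +kernel
  dl := t3k7_xdl
  eY := t3k7_xeY
  gr := t3k7_xgr
  hr := t3k7_xhr
  gs := t3k7_xgs
  d1 := t3k7_xd1
  d2 := t3k7_xd2
  t1 := t3k7_xt1
  t2 := t3k7_xt2
  dy := t3k7_xdy
  ty := t3k7_xty
  d1s := t3k7_xd1s
  d2s := t3k7_xd2s
  t1s := t3k7_xt1s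
  t2s := t3k7_xt2s
  dys := t3k7_xdys
  tys := t3k7_xtys
  hz := t3k7_xhz

end Pool.Agent.RX.RCN.K
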