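import Pool.Agent.RX.RCN.T3D
import Pool.Agent.RX.RCN.T3Wq
import Pool.Agent.RX.RCN.T3X3
import Pool.Agent.RX.RCN.VLd

/-! Certificates (generated). -/

set_option autoImplicit false

namespace Pool.Agent.RX.RCN.K

open Set Pool.Agent.RX.RCM9 Pool.Agent.RX.RCM9.Bern Pool.Agent.RX.RCM9.Pk Xce

def t3c8 : Cel where
  t0 := 7 / 25
  t1 := 29 / 100
  C := 4097 / 4096
  th := 1193 / 4096
  B0 := 2239 / 2048
  Bh := 139 / 128
  B1 := 2131 / 2048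
  D0 := 503 / 2048
  Dh := 739 / 4096
  D1 := 175 / 1024
  E0 := 2985 / 2097152
  Eh := 4559 / 4194304
  E1 := 135 / 131072
  Q0 := 1123 / 1024
  Q1 := 1123 / 1024
  Q2 := 1123 / 1024
  Ac := 1123 / 1024
  gI := 1123 / 1024
  J := 6689 / 4194304

def t3n8 : Chn where
  lb := 513 / 512
  nb := 149 / 512
  Mb := 1029 / 1024
  b2 := 65 / 64
  Yb := 3 / 1024
  E2 := 4121 / 4096
  e1 := 1195 / 1024
  Z1 := 571 / 512
  Z2 := 77 / 128
  KB := 1047 / 1024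
  cb := 525 / 512
  rb := 139 / 512
  om := 263 / 256
  fb := 129 / 128
  kap := 4121 / 4096
  ab := 1029 / 1024

def t3e8 : Xge where
  lm := 3 / 5
  dl := 1179 / 4096
  e2 := 375 / 8192
  eY := 2055 / 2048
  gE := 281 / 256

def t3r8 : Xr where
  d1 := [152007 / 25000000, 67479 / 100000000, 381933 / 50000000, 471309 / 25000000, 302927 /
    50000000, 296951 / 10000000, 3471687 / 100000000]
  d2 := [1399 / 50000000, 319537 / 100000000, 8053837 / 100000000, -43830599 / 100000000,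
    272402587 / 100000000, -345366263 / 50000000, 617740419 / 100000000]
  dy := [2893871 / 100000000, 222423 / 25000000, 9475913 / 100000000, 23847 / 125000, -9897483 /
    20000000, 7149311 / 10000000, -40568709 / 100000000]
  t1 := [5553953 / 100000000, -8119761 / 25000000, 35277913 / 50000000, -22323487 / 6250000,
    82429741 / 3125000, -4215745423 / 50000000, 10160319953 / 100000000]
  t2 := [366257 / 50000000, -4403523 / 100000000, 30291 / 1250000, 29975609 / 20000000, -453754941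
    / 50000000, 2631561997 / 100000000, -718552213 / 25000000]
  ty := [5565471 / 25000000, -3878199 / 2500000, 24384427 / 6250000, -27831261 / 12500000,
    92836163 / 100000000, -493353497 / 50000000, 388757633 / 25000000]
  hz := [5811671 / 100000000, -3621747 / 50000000, -291227029 / 50000000, 38008079 / 25000000,
    18792541273 / 50000000, -91230171427 / 50000000, 126320279791 / 50000000]
  om := [100396699 / 100000000, 10206099 / 10000000, -1372046343 / 100000000, 513026261 /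
    10000000, -4211144453 / 50000000, -1506095559 / 100000000, 2567296173 / 5000000,
    -127227756911 / 100000000, 108202969879 / 100000000]
  sD := 463 / 256
  sT := 105 / 64
  xi := [1473923 / 100000000, 20215851 / 100000000, -100532027 / 100000000, -98769101 / 20000000,
    237075701 / 100000000, 25045269353 / 50000000, -35097536579 / 12500000, 69040286683 /
    12500000, -46826862117 / 12500000, 28998230451 / 25000000]

def t3f8 : Dl where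
  Ca := 175541 / 625000
  Cv := 2909 / 10000
  k1 := 9738903 / 10000000
  ks := 481303 / 500000
  dd := 0
  kp := 7 / 10000000
  e := [999999699983 / 1000000000000, -60961050929 / 50000000000, 588284060181 / 500000000000,
    -994772436469 / 1000000000000, 203142130057 / 250000000000, -630823360737 / 1000000000000,
    456595546411 / 1000000000000, -279506471041 / 1000000000000, 103468985093 / 1000000000000]
  j1 := [-801753 / 250000000, -1081613913 / 100000000, 95285097271 / 1000000000, -40026423949 /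
    100000000, 7837418529 / 8000000, -1450264917323 / 1000000000, 256466522183 / 200000000,
    -571410546843 / 1000000000]
  nu := [7621929 / 200000000, -16042899 / 100000000, 195536491 / 500000000, 181187631 /
    1000000000, -44092503 / 31250000, 1235727757 / 200000000, -1736026247 / 200000000]
  k2 := [481303543 / 500000000, 30885877 / 200000000, -2843221 / 7812500, -237876761 / 1000000000,
    58030519 / 40000000, -6044201341 / 1000000000, 853181041 / 100000000]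
  dR := [1450001 / 25000000, -3606769 / 50000000, -289531627 / 50000000, 3804389 / 2500000,
    18559927301 / 50000000, -89833662137 / 50000000, 248017629467 / 100000000]

def t3d8 : Xce where
  u0 := 140683 / 500000
  u1 := 2909 / 10000
  l := V2L.y3
  y := t3z3
  j := t3j3
  i := t3i3
  ls := t3y3
  k := V2L.k3
  c := t3f8
  ga := 6069 / 1000000
  gb := -1131 / 1000000
  hb := 22551 / 1000000
  gs := [80001237 / 50000000, 239999993 / 100000000, 90000201 / 50000000, 795919 / 1000000,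
    6666103 / 25000000, -12066877 / 100000000, -3849 / 62500]
  d1 := [607651 / 100000000, 16799 / 25000000, 152351 / 20000000, 459167 / 25000000, 756631 /
    100000000, 261731 / 10000000, 22053 / 625000]
  d2 := [1253 / 50000000, 318201 / 100000000, 8016551 / 100000000, -43579807 / 100000000,
    269900069 / 100000000, -68210721 / 10000000, 607850403 / 100000000]
  dy := [2891777 / 100000000, 886191 / 100000000, 2360977 / 25000000, 18578277 / 100000000,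
    -1885621 / 4000000, 6648151 / 10000000, -3712981 / 10000000]
  t1 := [2775571 / 50000000, -16187109 / 50000000, 34993859 / 50000000, -176256191 / 50000000,
    1299450139 / 50000000, -1657633817 / 20000000, 4981240297 / 50000000]
  t2 := [366071 / 50000000, -4389379 / 100000000, 2392599 / 100000000, 148660737 / 100000000,
    -224306251 / 25000000, 2593579451 / 100000000, -112965453 / 4000000]
  ty := [11125309 / 50000000, -77315283 / 50000000, 193618173 / 50000000, -215793237 / 100000000,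
    8988411 / 12500000, -936931859 / 100000000, 188579483 / 12500000]

def t3m8 : ℚ := 299 / 1024

def t3h8 : ℚ := 239 / 500

theorem t3k8_M_r1 : NC (fM t3c8 (1 - eh) eh ek (elo t3c8.B0 t3c8.Bh eh) (elo t3c8.D0 t3c8.Dh ek) (elo t3c8.E0 t3c8.Eh ek)) :=
  NC.of (K := 32) (D := ⟨4, 3, 1, 1⟩) (Box.of 4 (by decide +kernel))
    (by decide +kernel)

theorem t3k8_M_r2 : NC (fM t3c8 eh (1 - eh) ek (ehi t3c8.Bh t3c8.B1 (1 - eh)) (elo t3c8.D0 t3c8.Dh ek) (elo t3c8.E0 t3c8.Eh ek)) :=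
  NC.of (K := 32) (D := ⟨4, 3, 1, 1⟩) (Box.of 4 (by decide +kernel))
    (by decide +kernel)

theorem t3k8_M_r3 : NC (fM t3c8 (1 - eh) ek eh (elo t3c8.B0 t3c8.Bh ek) (elo t3c8.D0 t3c8.Dh eh) (elo t3c8.E0 t3c8.Eh eh)) :=
  NC.of (K := 30) (D := ⟨4, 2, 1, 1⟩) (Box.of 4 (by decide +kernel))
    (by decide +kernel)

theorem t3k8_M_r4 : NC (fM t3c8 eh ek (1 - eh) (elo t3c8.B0 t3c8.Bh ek) (ehi t3c8.Dh t3c8.D1 (1 - eh)) (ehi t3c8.Eh t3c8.E1 (1 - eh))) :=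
  NC.of (K := 31) (D := ⟨4, 2, 1, 1⟩) (Box.of 4 (by decide +kernel))
    (by decide +kernel)

theorem t3k8_r0_r1 : NC (f0 t3c8 (1 - eh) eh ek (elo t3c8.B0 t3c8.Bh eh) (elo t3c8.D0 t3c8.Dh ek) (elo t3c8.E0 t3c8.Eh ek)) :=
  NC.of (K := 148) (D := ⟨13, 9, 1, 1⟩) (Box.of 4 (by decide +kernel))
    (by decide +kernel)

theorem t3k8_r0_r2 : NC (f0 t3c8 eh (1 - eh) ek (ehi t3c8.Bh t3c8.B1 (1 - eh)) (elo t3c8.D0 t3c8.Dh ek) (elo t3c8.E0 t3c8.Eh ek)) :=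
  NC.of (K := 148) (D := ⟨13, 9, 1, 1⟩) (Box.of 4 (by decide +kernel))
    (by decide +kernel)

theorem t3k8_r0_r3 : NC (f0 t3c8 (1 - eh) ek eh (elo t3c8.B0 t3c8.Bh ek) (elo t3c8.D0 t3c8.Dh eh) (elo t3c8.E0 t3c8.Eh eh)) :=
  NC.of (K := 143) (D := ⟨13, 5, 1, 1⟩) (Box.of 4 (by decide +kernel))
    (by decide +kernel)

theorem t3k8_r0_r4 : NC (f0 t3c8 eh ek (1 - eh) (elo t3c8.B0 t3c8.Bh ek) (ehi t3c8.Dh t3c8.D1 (1 - eh)) (ehi t3c8.Eh t3c8.E1 (1 - eh))) :=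
  NC.of (K := 144) (D := ⟨13, 5, 1, 1⟩) (Box.of 4 (by decide +kernel))
    (by decide +kernel)

theorem t3k8_r1_r1 : NC (f1 t3c8 (1 - eh) eh ek (elo t3c8.B0 t3c8.Bh eh) (elo t3c8.D0 t3c8.Dh ek) (elo t3c8.E0 t3c8.Eh ek)) :=
  NC.of (K := 234) (D := ⟨16, 9, 1, 1⟩) (Box.of 4 (by decide +kernel))
    (by decide +kernel)

theorem t3k8_r1_r2 : NC (f1 t3c8 eh (1 - eh) ek (ehi t3c8.Bh t3c8.B1 (1 - eh)) (elo t3c8.D0 t3c8.Dh ek) (elo t3c8.E0 t3c8.Eh ek)) :=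
  NC.of (K := 235) (D := ⟨16, 9, 1, 1⟩) (Box.of 4 (by decide +kernel))
    (by decide +kernel)

theorem t3k8_r1_r3 : NC (f1 t3c8 (1 - eh) ek eh (elo t3c8.B0 t3c8.Bh ek) (elo t3c8.D0 t3c8.Dh eh) (elo t3c8.E0 t3c8.Eh eh)) :=
  NC.of (K := 237) (D := ⟨16, 12, 1, 1⟩) (Box.of 4 (by decide +kernel))
    (by decide +kernel)

theorem t3k8_r1_r4 : NC (f1 t3c8 eh ek (1 - eh) (elo t3c8.B0 t3c8.Bh ek) (ehi t3c8.Dh t3c8.D1 (1 - eh)) (ehi t3c8.Eh t3c8.E1 (1 - eh))) :=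
  NC.of (K := 238) (D := ⟨16, 12, 1, 1⟩) (Box.of 4 (by decide +kernel))
    (by decide +kernel)

theorem t3k8_r2_r1 : NC (f2 t3c8 (1 - eh) eh ek (elo t3c8.B0 t3c8.Bh eh) (elo t3c8.D0 t3c8.Dh ek) (elo t3c8.E0 t3c8.Eh ek)) :=
  NC.of (K := 236) (D := ⟨16, 11, 1, 1⟩) (Box.of 4 (by decide +kernel))
    (by decide +kernel)

theorem t3k8_r2_r2 : NC (f2 t3c8 eh (1 - eh) ek (ehi t3c8.Bh t3c8.B1 (1 - eh)) (elo t3c8.D0 t3c8.Dh ek) (elo t3c8.E0 t3c8.Eh ek)) :=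
  NC.of (K := 237) (D := ⟨16, 11, 1, 1⟩) (Box.of 4 (by decide +kernel))
    (by decide +kernel)

theorem t3k8_r2_r3 : NC (f2 t3c8 (1 - eh) ek eh (elo t3c8.B0 t3c8.Bh ek) (elo t3c8.D0 t3c8.Dh eh) (elo t3c8.E0 t3c8.Eh eh)) :=
  NC.of (K := 237) (D := ⟨16, 12, 1, 1⟩) (Box.of 4 (by decide +kernel))
    (by decide +kernel)

theorem t3k8_r2_r4 : NC (f2 t3c8 eh ek (1 - eh) (elo t3c8.B0 t3c8.Bh ek) (ehi t3c8.Dh t3c8.D1 (1 - eh)) (ehi t3c8.Eh t3c8.E1 (1 - eh))) :=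
  NC.of (K := 239) (D := ⟨16, 12, 1, 1⟩) (Box.of 4 (by decide +kernel))
    (by decide +kernel)

theorem t3k8_rc_r1 : NC (fc t3c8 (1 - eh) eh ek (elo t3c8.B0 t3c8.Bh eh) (elo t3c8.D0 t3c8.Dh ek) (elo t3c8.E0 t3c8.Eh ek)) :=
  NC.of (K := 148) (D := ⟨13, 9, 1, 1⟩) (Box.of 4 (by decide +kernel))
    (by decide +kernel)

theorem t3k8_rc_r2 : NC (fc t3c8 eh (1 - eh) ek (ehi t3c8.Bh t3c8.B1 (1 - eh)) (elo t3c8.D0 t3c8.Dh ek) (elo t3c8.E0 t3c8.Eh ek)) :=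
  NC.of (K := 147) (D := ⟨13, 9, 1, 1⟩) (Box.of 4 (by decide +kernel))
    (by decide +kernel)

theorem t3k8_rc_r3 : NC (fc t3c8 (1 - eh) ek eh (elo t3c8.B0 t3c8.Bh ek) (elo t3c8.D0 t3c8.Dh eh) (elo t3c8.E0 t3c8.Eh eh)) :=
  NC.of (K := 143) (D := ⟨13, 5, 1, 1⟩) (Box.of 4 (by decide +kernel))
    (by decide +kernel)

theorem t3k8_rc_r4 : NC (fc t3c8 eh ek (1 - eh) (elo t3c8.B0 t3c8.Bh ek) (ehi t3c8.Dh t3c8.D1 (1 - eh)) (ehi t3c8.Eh t3c8.E1 (1 - eh))) :=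
  NC.of (K := 144) (D := ⟨13, 5, 1, 1⟩) (Box.of 4 (by decide +kernel))
    (by decide +kernel)

theorem t3k8_rI_r1 : NC (fI t3c8 (1 - eh) eh ek (elo t3c8.B0 t3c8.Bh eh) (elo t3c8.D0 t3c8.Dh ek) (elo t3c8.E0 t3c8.Eh ek)) :=
  NC.of (K := 138) (D := ⟨13, 9, 1, 1⟩) (Box.of 4 (by decide +kernel))
    (by decide +kernel)

theorem t3k8_rI_r2 : NC (fI t3c8 eh (1 - eh) ek (ehi t3c8.Bh t3c8.B1 (1 - eh)) (elo t3c8.D0 t3c8.Dh ek) (elo t3c8.E0 t3c8.Eh ek)) :=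
  NC.of (K := 138) (D := ⟨13, 9, 1, 1⟩) (Box.of 4 (by decide +kernel))
    (by decide +kernel)

theorem t3k8_rI_r3 : NC (fI t3c8 (1 - eh) ek eh (elo t3c8.B0 t3c8.Bh ek) (elo t3c8.D0 t3c8.Dh eh) (elo t3c8.E0 t3c8.Eh eh)) :=
  NC.of (K := 133) (D := ⟨13, 5, 1, 1⟩) (Box.of 4 (by decide +kernel))
    (by decide +kernel)

theorem t3k8_rI_r4 : NC (fI t3c8 eh ek (1 - eh) (elo t3c8.B0 t3c8.Bh ek) (ehi t3c8.Dh t3c8.D1 (1 - eh)) (ehi t3c8.Eh t3c8.E1 (1 - eh))) :=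
  NC.of (K := 134) (D := ⟨13, 5, 1, 1⟩) (Box.of 4 (by decide +kernel))
    (by decide +kernel)

theorem t3k8_rJ_r1 : NC (fJ t3c8 (1 - eh) eh ek (elo t3c8.B0 t3c8.Bh eh) (elo t3c8.D0 t3c8.Dh ek) (elo t3c8.E0 t3c8.Eh ek)) :=
  NC.of (K := 100) (D := ⟨7, 5, 1, 1⟩) (Box.of 18528 (by decide +kernel))
    (by decide +kernel)

theorem t3k8_rJ_r2 : NC (fJ t3c8 eh (1 - eh) ek (ehi t3c8.Bh t3c8.B1 (1 - eh)) (elo t3c8.D0 t3c8.Dh ek) (elo t3c8.E0 t3c8.Eh ek)) :=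
  NC.of (K := 88) (D := ⟨7, 5, 1, 1⟩) (Box.of 289 (by decide +kernel))
    (by decide +kernel)

theorem t3k8_rJ_r3 : NC (fJ t3c8 (1 - eh) ek eh (elo t3c8.B0 t3c8.Bh ek) (elo t3c8.D0 t3c8.Dh eh) (elo t3c8.E0 t3c8.Eh eh)) :=
  NC.of (K := 89) (D := ⟨7, 3, 1, 1⟩) (Box.of 288 (by decide +kernel))
    (by decide +kernel)

theorem t3k8_rJ_r4 : NC (fJ t3c8 eh ek (1 - eh) (elo t3c8.B0 t3c8.Bh ek) (ehi t3c8.Dh t3c8.D1 (1 - eh)) (ehi t3c8.Eh t3c8.E1 (1 - eh))) :=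
  NC.of (K := 76) (D := ⟨7, 3, 1, 1⟩) (Box.of 4 (by decide +kernel))
    (by decide +kernel)

theorem t3k8_gE_r1 : NC (fE t3c8 t3e8 (1 - eh) eh ek (elo t3c8.B0 t3c8.Bh eh) (elo t3c8.D0 t3c8.Dh ek) (elo t3c8.E0 t3c8.Eh ek)) :=
  NC.of (K := 134) (D := ⟨13, 9, 1, 1⟩) (Box.of 4 (by decide +kernel))
    (by decide +kernel)

theorem t3k8_gE_r2 : NC (fE t3c8 t3e8 eh (1 - eh) ek (ehi t3c8.Bh t3c8.B1 (1 - eh)) (elo t3c8.D0 t3c8.Dh ek) (elo t3c8.E0 t3c8.Eh ek)) :=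
  NC.of (K := 136) (D := ⟨13, 9, 1, 1⟩) (Box.of 4 (by decide +kernel))
    (by decide +kernel)

theorem t3k8_gE_r3 : NC (fE t3c8 t3e8 (1 - eh) ek eh (elo t3c8.B0 t3c8.Bh ek) (elo t3c8.D0 t3c8.Dh eh) (elo t3c8.E0 t3c8.Eh eh)) :=
  NC.of (K := 132) (D := ⟨13, 7, 1, 1⟩) (Box.of 4 (by decide +kernel))
    (by decide +kernel)

theorem t3k8_gE_r4 : NC (fE t3c8 t3e8 eh ek (1 - eh) (elo t3c8.B0 t3c8.Bh ek) (ehi t3c8.Dh t3c8.D1 (1 - eh)) (ehi t3c8.Eh t3c8.E1 (1 - eh))) :=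
  NC.of (K := 134) (D := ⟨13, 7, 1, 1⟩) (Box.of 4 (by decide +kernel))
    (by decide +kernel)

theorem t3k8_B0 : NC (kB dW 1 0 t3c8.B0 (tcl t3c8)) :=
  NC.of (K := 92) (D := ⟨1, 1, 1, 9⟩) (Box.of 4 (by decide +kernel))
    (by decide +kernel)

theorem t3k8_E0 : NC (kE dW qW qW.p0 qW.q0 t3c8.E0 (tcl t3c8)) :=
  NC.of (K := 205) (D := ⟨1, 1, 1, 19⟩) (Box.of 4 (by decide +kernel))
    (by decide +kernel)

theorem t3k8_D0 : NC (kD dW qW 1 0 qW.p0 qW.q0 t3c8.D0 (tcl t3c8)) :=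
  NC.of (K := 321) (D := ⟨1, 1, 1, 20⟩) (Box.of 4 (by decide +kernel))
    (by decide +kernel)

theorem t3k8_Bh : NC (kB dW (1 / 2) (1 / 2) t3c8.Bh (tcl t3c8)) :=
  NC.of (K := 95) (D := ⟨1, 1, 1, 9⟩) (Box.of 4 (by decide +kernel))
    (by decide +kernel)

theorem t3k8_Eh : NC (kE dW qW qW.ph qW.qh t3c8.Eh (tcl t3c8)) :=
  NC.of (K := 209) (D := ⟨1, 1, 1, 19⟩) (Box.of 4 (by decide +kernel))
    (by decide +kernel)

theorem t3k8_Dh : NC (kD dW qW (1 / 2) (1 / 2) qW.ph qW.qh t3c8.Dh (tcl t3c8)) :=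
  NC.of (K := 325) (D := ⟨1, 1, 1, 20⟩) (Box.of 4 (by decide +kernel))
    (by decide +kernel)

theorem t3k8_B1 : NC (kB dW 0 (1 / 2) t3c8.B1 (tcl t3c8)) :=
  NC.of (K := 95) (D := ⟨1, 1, 1, 9⟩) (Box.of 4 (by decide +kernel))
    (by decide +kernel)

theorem t3k8_E1 : NC (kE dW qW qW.p1 qW.q1 t3c8.E1 (tcl t3c8)) :=
  NC.of (K := 209) (D := ⟨1, 1, 1, 19⟩) (Box.of 4 (by decide +kernel))
    (by decide +kernel)

theorem t3k8_D1 : NC (kD dW qW 0 (1 / 2) qW.p1 qW.q1 t3c8.D1 (tcl t3c8)) :=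
  NC.of (K := 325) (D := ⟨1, 1, 1, 20⟩) (Box.of 4 (by decide +kernel))
    (by decide +kernel)

theorem t3k8_l : NC (qc t3n8.lb - (1 - vX) * pe (exl t3c8.th) vX ^ 2) :=
  NC.of (K := 125) (D := ⟨10, 1, 1, 1⟩) (Box.of 4 (by decide +kernel))
    (by decide +kernel)

theorem t3k8_n : NC (qc t3n8.nb - vX * (1 - vX) * pe (exl t3c8.th) vX) :=
  NC.of (K := 116) (D := ⟨7, 1, 1, 1⟩) (Box.of 76677152 (by decide +kernel))
    (by decide +kernel)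

theorem t3k8_rb : NC (krb t3n8 fW (t1v t3c8)) :=
  NC.of (K := 181) (D := ⟨1, 1, 1, 16⟩) (Box.of 4 (by decide +kernel))
    (by decide +kernel)

theorem t3k8_kap : NC (kkap dW qW t3n8 (tcl t3c8)) :=
  NC.of (K := 93) (D := ⟨1, 1, 1, 9⟩) (Box.of 4 (by decide +kernel))
    (by decide +kernel)

theorem t3k8_wb2 : NC (qc t3n8.b2 - pe2 kW.QB (vZ * t1v t3c8) (t1v t3c8)) :=
  NC.of (K := 141) (D := ⟨1, 6, 1, 11⟩) (Box.of 291 (by decide +kernel))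
    (by decide +kernel)

theorem t3k8_wmb : NC (qc t3n8.Mb - pe zW.mb (t1v t3c8)) :=
  NC.of (K := 96) (D := ⟨1, 1, 1, 9⟩) (Box.of 4 (by decide +kernel))
    (by decide +kernel)

theorem t3k8_wth : NC (qc (t3c8.th / t3c8.t1) - pe2 zW.Qt (vZ * t1v t3c8) (t1v t3c8)) :=
  NC.of (K := 145) (D := ⟨1, 6, 1, 11⟩) (Box.of 291 (by decide +kernel))
    (by decide +kernel)

theorem t3k8_wyb : NC (qc t3n8.Yb - (t1v t3c8 - vZ * t1v t3c8) ^ 3 * pe2 yW.QY (vZ * t1v t3c8) (t1v t3c8)) :=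
  NC.of (K := 125) (D := ⟨1, 8, 1, 12⟩) (Box.of 4 (by decide +kernel))
    (by decide +kernel)

theorem t3k8_wmu : NC (qc t3m8 - pe t3al (tcl t3c8) * (1 + hlf * tcl t3c8)) :=
  NC.of (K := 88) (D := ⟨1, 1, 1, 9⟩) (Box.of 4 (by decide +kernel))
    (by decide +kernel)

theorem t3k8_wcj : NC (qc t3c8.C * ((6 - 3 * vX) * (1 - qc t3m8 * vX)) - (6 - 6 * vX + vX ^ 2)) :=
  NC.of (K := 32) (D := ⟨3, 1, 1, 1⟩) (Box.of 4 (by decide +kernel))
    (by decide +kernel)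

theorem t3k8_nd1 : NC (pe t3r8.d1 (t1v t3c8)) :=
  NC.of (K := 70) (D := ⟨1, 1, 1, 7⟩) (Box.of 4 (by decide +kernel))
    (by decide +kernel)

theorem t3k8_nd2 : NC (pe t3r8.d2 (t1v t3c8)) :=
  NC.of (K := 73) (D := ⟨1, 1, 1, 7⟩) (Box.of 4 (by decide +kernel))
    (by decide +kernel)

theorem t3k8_ndy : NC (pe t3r8.dy (t1v t3c8)) :=
  NC.of (K := 72) (D := ⟨1, 1, 1, 7⟩) (Box.of 4 (by decide +kernel))
    (by decide +kernel)

theorem t3k8_nt1 : NC (pe t3r8.t1 (t1v t3c8)) :=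
  NC.of (K := 76) (D := ⟨1, 1, 1, 7⟩) (Box.of 4 (by decide +kernel))
    (by decide +kernel)

theorem t3k8_nt2 : NC (pe t3r8.t2 (t1v t3c8)) :=
  NC.of (K := 72) (D := ⟨1, 1, 1, 7⟩) (Box.of 4 (by decide +kernel))
    (by decide +kernel)

theorem t3k8_nty : NC (pe t3r8.ty (t1v t3c8)) :=
  NC.of (K := 75) (D := ⟨1, 1, 1, 7⟩) (Box.of 4 (by decide +kernel))
    (by decide +kernel)

theorem t3k8_nhz : NC (pe t3r8.hz (t1v t3c8)) :=
  NC.of (K := 103) (D := ⟨1, 1, 1, 7⟩) (Box.of 18659 (by decide +kernel))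
    (by decide +kernel)

theorem t3k8_xi : NC (eXi fW t3c8 t3e8 t3r8 (t1v t3c8)) :=
  NC.of (K := 298) (D := ⟨1, 1, 1, 22⟩) (Box.of 4 (by decide +kernel))
    (by decide +kernel)

theorem t3k8_om : NC (eOm fW t3r8 (t1v t3c8)) :=
  NC.of (K := 173) (D := ⟨1, 1, 1, 16⟩) (Box.of 4 (by decide +kernel))
    (by decide +kernel)

theorem t3k8_fin : NC (eFin dW t3c8 t3n8 t3r8 t3h8 (tcl t3c8)) :=
  NC.of (K := 216) (D := ⟨1, 1, 1, 14⟩) (Box.of 4 (by decide +kernel))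
    (by decide +kernel)

theorem t3k8_xdl : NC (qc t3e8.dl - pe t3d8.l.dl t3d8.eU) :=
  NC.of (K := 69) (D := ⟨1, 4, 1, 1⟩) (Box.of 4 (by decide +kernel))
    (by decide +kernel)

theorem t3k8_xeY : NC (qc t3e8.eY - pe (e4l t3d8.l.z) t3d8.eU) :=
  NC.of (K := 276) (D := ⟨1, 13, 1, 1⟩) (Box.of 4 (by decide +kernel))
    (by decide +kernel)

theorem t3k8_xgr : NC (qc t3d8.ga * ((1 + qc (3 / 5) * vX) * (1 + (t3d8.eg + hlf * t3d8.eg ^ 2))) + qc t3d8.gb - pe2 t3GR vX t3d8.eU) :=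
  NC.of (K := 229) (D := ⟨4, 11, 1, 1⟩) (Box.of 4 (by decide +kernel))
    (by decide +kernel)

theorem t3k8_xhr : NC (qc t3d8.hb - pe2 t3HR vX t3d8.eU) :=
  NC.of (K := 249) (D := ⟨3, 12, 1, 1⟩) (Box.of 4 (by decide +kernel))
    (by decide +kernel)

theorem t3k8_xgs : NC (pe t3d8.gs t3d8.e1 - qc (8 / 5) * pe (e4l (ladd t3d8.ls.z t3d8.ls.dl)) t3d8.e1) :=
  NC.of (K := 216) (D := ⟨1, 1, 1, 13⟩) (Box.of 4 (by decide +kernel))
    (by decide +kernel)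

theorem t3k8_xd1 : NC (pe t3d8.d1 t3d8.e1 - t3d8.eA t3d8.eU t3d8.e1) :=
  NC.of (K := 268) (D := ⟨1, 12, 1, 12⟩) (Box.of 4 (by decide +kernel))
    (by decide +kernel)

theorem t3k8_xd2 : NC (pe t3d8.d2 t3d8.e1 - t3d8.eB t3d8.eU t3d8.e1) :=
  NC.of (K := 295) (D := ⟨1, 12, 1, 12⟩) (Box.of 291 (by decide +kernel))
    (by decide +kernel)

theorem t3k8_xt1 : NC (pe t3d8.t1 t3d8.e1 - t3d8.eAT t3d8.eU t3d8.e1) :=
  NC.of (K := 481) (D := ⟨1, 19, 1, 19⟩) (Box.of 291 (by decide +kernel))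
    (by decide +kernel)

theorem t3k8_xt2 : NC (pe t3d8.t2 t3d8.e1 - t3d8.eBT t3d8.eU t3d8.e1) :=
  NC.of (K := 480) (D := ⟨1, 19, 1, 19⟩) (Box.of 291 (by decide +kernel))
    (by decide +kernel)

theorem t3k8_xdy : NC (pe t3d8.dy t3d8.e1 - t3d8.eSD t3d8.eU t3d8.e1) :=
  NC.of (K := 413) (D := ⟨1, 18, 1, 12⟩) (Box.of 4 (by decide +kernel))
    (by decide +kernel)

theorem t3k8_xty : NC (pe t3d8.ty t3d8.e1 - t3d8.eST t3d8.eU t3d8.e1) :=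
  NC.of (K := 623) (D := ⟨1, 26, 1, 26⟩) (Box.of 4 (by decide +kernel))
    (by decide +kernel)

theorem t3k8_xd1s : NC (pe t3r8.d1 (t1v t3c8) - pe t3d8.d1 (Xcd.ew zW t3c8)) :=
  NC.of (K := 626) (D := ⟨1, 1, 1, 55⟩) (Box.of 4 (by decide +kernel))
    (by decide +kernel)

theorem t3k8_xd2s : NC (pe t3r8.d2 (t1v t3c8) - pe t3d8.d2 (Xcd.ew zW t3c8)) :=
  NC.of (K := 639) (D := ⟨1, 1, 1, 55⟩) (Box.of 4 (by decide +kernel))
    (by decide +kernel)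

theorem t3k8_xt1s : NC (pe t3r8.t1 (t1v t3c8) - pe t3d8.t1 (Xcd.ew zW t3c8)) :=
  NC.of (K := 642) (D := ⟨1, 1, 1, 55⟩) (Box.of 4 (by decide +kernel))
    (by decide +kernel)

theorem t3k8_xt2s : NC (pe t3r8.t2 (t1v t3c8) - pe t3d8.t2 (Xcd.ew zW t3c8)) :=
  NC.of (K := 637) (D := ⟨1, 1, 1, 55⟩) (Box.of 4 (by decide +kernel))
    (by decide +kernel)

theorem t3k8_xdys : NC (pe t3r8.dy (t1v t3c8) - pe t3d8.dy (Xcd.ew zW t3c8)) :=
  NC.of (K := 634) (D := ⟨1, 1, 1, 55⟩) (Box.of 4 (by decide +kernel))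
    (by decide +kernel)

theorem t3k8_xtys : NC (pe t3r8.ty (t1v t3c8) - pe t3d8.ty (Xcd.ew zW t3c8)) :=
  NC.of (K := 638) (D := ⟨1, 1, 1, 55⟩) (Box.of 4 (by decide +kernel))
    (by decide +kernel)

theorem t3k8_xhz : NC (pe t3r8.hz (t1v t3c8) - pe t3d8.c.dR (Xcd.ew zW t3c8)) :=
  NC.of (K := 647) (D := ⟨1, 1, 1, 55⟩) (Box.of 4 (by decide +kernel))
    (by decide +kernel)

theorem t3f8_ok : t3f8.ok V2L.y3 V2L.k3 V2L.nb V2L.la (10 ^ 30) 32 = true := by decide +kernel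

theorem t3k8_sg : t3c8.Sg := by
  constructor <;> decide +kernel

theorem t3k8_rgs : t3c8.Rgs where
  M := ⟨t3k8_M_r1, t3k8_M_r2, t3k8_M_r3, t3k8_M_r4⟩
  r0 := ⟨t3k8_r0_r1, t3k8_r0_r2, t3k8_r0_r3, t3k8_r0_r4⟩
  r1 := ⟨t3k8_r1_r1, t3k8_r1_r2, t3k8_r1_r3, t3k8_r1_r4⟩
  r2 := ⟨t3k8_r2_r1, t3k8_r2_r2, t3k8_r2_r3, t3k8_r2_r4⟩
  rc := ⟨t3k8_rc_r1, t3k8_rc_r2, t3k8_rc_r3, t3k8_rc_r4⟩
  rI := ⟨t3k8_rI_r1, t3k8_rI_r2, t3k8_rI_r3, t3k8_rI_r4⟩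
  rJ := ⟨t3k8_rJ_r1, t3k8_rJ_r2, t3k8_rJ_r3, t3k8_rJ_r4⟩

theorem t3k8_xn : t3e8.Ok t3c8 where
  lm := by decide +kernel
  dl0 := by decide +kernel
  dl1 := by decide +kernel
  e2 := by decide +kernel
  eY := by decide +kernel
  gE := ⟨t3k8_gE_r1, t3k8_gE_r2, t3k8_gE_r3, t3k8_gE_r4⟩

theorem t3k8_vl : t3c8.Vl dW qW where
  bt := by decide +kernel
  B0 := t3k8_B0
  E0 := t3k8_E0
  D0 := t3k8_D0
  Bh := t3k8_Bh
  Eh := t3k8_Eh
  Dh := t3k8_Dh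
  B1 := t3k8_B1
  E1 := t3k8_E1
  D1 := t3k8_D1

theorem t3k8_rat : t3n8.Rat t3c8 := by
  constructor <;> decide +kernel

theorem t3k8_ck : t3n8.Ck t3c8 := ⟨t3k8_l, t3k8_n⟩

theorem t3k8_fck : t3n8.Fck dW qW fW t3c8 := ⟨t3k8_rb, t3k8_kap⟩

theorem t3k8_w : Wcl zW kW yW t3al t3c8 t3n8 t3m8 where
  b2 := t3k8_wb2
  mb := t3k8_wmb
  th := t3k8_wth
  yb := t3k8_wyb
  mu := t3k8_wmu
  cj := t3k8_wcj
  mt1 := by decide +kernel
  mt2 := by decide +kernel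

theorem t3k8_ok : CelOk dW qW fW t3c8 t3n8 where
  s := t3k8_sg
  r := t3k8_rgs
  v := t3k8_vl
  rt := t3k8_rat
  k := t3k8_ck
  fc := t3k8_fck
  q01 := by decide +kernel
  q12 := by decide +kernel
  h2 := by decide +kernel

theorem t3k8_xr : t3r8.Ok fW t3c8 t3e8 where
  sD := by decide +kernel
  sT := by decide +kernel
  nd1 := t3k8_nd1
  nd2 := t3k8_nd2
  ndy := t3k8_ndy
  nt1 := t3k8_nt1
  nt2 := t3k8_nt2
  nty := t3k8_nty
  nhz := t3k8_nhz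
  xi := t3k8_xi
  om := t3k8_om

theorem t3k8_X : t3d8.Ck t3GR t3HR zW t3c8 t3e8 t3r8 where
  u0 := by decide +kernel
  u01 := by decide +kernel
  ul := by decide +kernel
  us := by decide +kernel
  uc := by decide +kernel
  ga0 := by decide +kernel
  kp0 := by decide +kernel
  lm := by decide +kernel
  dl := t3k8_xdl
  eY := t3k8_xeY
  gr := t3k8_xgr
  hr := t3k8_xhr
  gs := t3k8_xgs
  d1 := t3k8_xd1
  d2 := t3k8_xd2
  t1 := t3k8_xt1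
  t2 := t3k8_xt2
  dy := t3k8_xdy
  ty := t3k8_xty
  d1s := t3k8_xd1s
  d2s := t3k8_xd2s
  t1s := t3k8_xt1s
  t2s := t3k8_xt2s
  dys := t3k8_xdys
  tys := t3k8_xtys
  hz := t3k8_xhz

end Pool.Agent.RX.RCN.K
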