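import Pool.Agent.RX.RCN.T3D
import Pool.Agent.RX.RCN.T3Wq
import Pool.Agent.RX.RCN.T3X3
import Pool.Agent.RX.RCN.VLd

/-! Certificates (generated). -/

set_option autoImplicit false

namespace Pool.Agent.RX.RCN.K

open Set Pool.Agent.RX.RCM9 Pool.Agent.RX.RCM9.Bern Pool.Agent.RX.RCM9.Pk Xce

def t3c9 : Cel where
  t0 := 29 / 100
  t1 := 3 / 10
  C := 4097 / 4096
  th := 617 / 2048
  B0 := 2235 / 2048
  Bh := 2239 / 2048
  B1 := 2147 / 2048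
  D0 := 1033 / 4096
  Dh := 383 / 2048
  D1 := 363 / 2048
  E0 := 851 / 524288
  Eh := 1311 / 1048576
  E1 := 1243 / 1048576
  Q0 := 1121 / 1024
  Q1 := 1121 / 1024
  Q2 := 1121 / 1024
  Ac := 1121 / 1024
  gI := 1121 / 1024
  J := 7715 / 4194304

def t3n9 : Chn where
  lb := 513 / 512
  nb := 75 / 256
  Mb := 1029 / 1024
  b2 := 65 / 64
  Yb := 7 / 2048
  E2 := 4125 / 4096
  e1 := 1201 / 1024
  Z1 := 1141 / 1024
  Z2 := 309 / 512
  KB := 131 / 128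
  cb := 263 / 256
  rb := 143 / 512
  om := 263 / 256
  fb := 129 / 128
  kap := 4123 / 4096
  ab := 1029 / 1024

def t3e9 : Xge where
  lm := 3 / 5
  dl := 1219 / 4096
  e2 := 805 / 16384
  eY := 4111 / 4096
  gE := 281 / 256

def t3r9 : Xr where
  d1 := [676031 / 100000000, 52691 / 100000000, 354283 / 50000000, 1862599 / 100000000, 423181 /
    100000000, 2974137 / 100000000, 1581637 / 50000000]
  d2 := [1419 / 50000000, 64673 / 25000000, 6228753 / 100000000, -6190687 / 50000000, 2487179 /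
    6250000, 23101889 / 50000000, -217175481 / 100000000]
  dy := [3330787 / 100000000, 70559 / 10000000, 277403 / 3125000, 21165259 / 100000000, -53717997
    / 100000000, 15288471 / 20000000, -43938491 / 100000000]
  t1 := [2981087 / 50000000, -8382081 / 25000000, 17436409 / 25000000, -168550209 / 50000000,
    15053717 / 625000, -3715741783 / 50000000, 2161350081 / 25000000]
  t2 := [826573 / 100000000, -4935977 / 100000000, 246979 / 6250000, 29880351 / 25000000,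
    -646054889 / 100000000, 422652973 / 25000000, -208774199 / 12500000]
  ty := [24665863 / 100000000, -41632903 / 25000000, 408823831 / 100000000, -117404611 / 50000000,
    6917899 / 10000000, -408568313 / 50000000, 1270783513 / 100000000]
  hz := [3143931 / 50000000, -5901927 / 50000000, -195547457 / 50000000, -642404369 / 25000000,
    1617710681 / 3125000, -211300188667 / 100000000, 134646105737 / 50000000]
  om := [1003967 / 1000000, 102066187 / 100000000, -13724581 / 1000000, 1285643193 / 25000000,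
    -4300775889 / 50000000, -153723 / 156250, 22629306911 / 50000000, -113592105519 / 100000000,
    95850606857 / 100000000]
  sD := 475 / 256
  sT := 427 / 256
  xi := [416501 / 25000000, 2728769 / 12500000, -115458841 / 100000000, -224054423 / 100000000,
    -64909927 / 2000000, 68393805233 / 100000000, -159643673571 / 50000000, 570304087339 /
    100000000, -172986024369 / 50000000, 86559102203 / 100000000]

def t3f9 : Dl where
  Ca := 2908987 / 10000000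
  Cv := 150467 / 500000
  k1 := 60753 / 62500
  ks := 24003 / 25000
  dd := 0
  kp := 7 / 10000000
  e := [999999699977 / 1000000000000, -306991734309 / 250000000000, 298070538309 / 250000000000,
    -507747743153 / 500000000000, 834709456623 / 1000000000000, -325746484021 / 500000000000,
    472878000139 / 1000000000000, -288340157919 / 1000000000000, 105311605509 / 1000000000000]
  j1 := [-158621 / 50000000, -668712849 / 62500000, 94454773573 / 1000000000, -397636018733 /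
    1000000000, 243897588967 / 250000000, -723176634743 / 500000000, 1274420612841 / 1000000000,
    -279837981657 / 500000000]
  nu := [2543437 / 62500000, -82662661 / 500000000, 3928673 / 10000000, 29395581 / 200000000,
    -583571529 / 500000000, 2556875039 / 500000000, -6973816211 / 1000000000]
  k2 := [960121599 / 1000000000, 31746427 / 200000000, -363958759 / 1000000000, -103099533 /
    500000000, 242573591 / 200000000, -500285253 / 100000000, 85724143 / 12500000]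
  dR := [156881 / 2500000, -5879527 / 50000000, -388920309 / 100000000, -1271863607 / 50000000,
    2044893907 / 4000000, -26005902057 / 12500000, 264339820737 / 100000000]

def t3d9 : Xce where
  u0 := 291399 / 1000000
  u1 := 150467 / 500000
  l := V2L.y3
  y := t3z3
  j := t3j3
  i := t3i3
  ls := t3y3
  k := V2L.k3
  c := t3f9
  ga := 1687 / 250000
  gb := -1343 / 1000000
  hb := 5099 / 200000
  gs := [160002511 / 100000000, 239999991 / 100000000, 36000097 / 20000000, 19897643 / 25000000,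
    26673983 / 100000000, -12098393 / 100000000, -6119781 / 100000000]
  d1 := [33781 / 5000000, 1311 / 2500000, 141491 / 20000000, 360563 / 20000000, 132689 / 20000000,
    2319037 / 100000000, 225959 / 6250000]
  d2 := [509 / 20000000, 103 / 40000, 620491 / 10000000, -6229709 / 50000000, 40445913 /
    100000000, 21252051 / 50000000, -52602869 / 25000000]
  dy := [332847 / 10000000, 351283 / 50000000, 1770657 / 20000000, 10281143 / 50000000, -405303 /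
    800000, 8632289 / 12500000, -37474109 / 100000000]
  t1 := [5959157 / 100000000, -16709967 / 50000000, 69169709 / 100000000, -33243179 / 10000000,
    296402863 / 12500000, -7299106493 / 100000000, 8469954943 / 100000000]
  t2 := [826153 / 100000000, -2460051 / 50000000, 3908947 / 100000000, 7413207 / 6250000,
    -639106253 / 100000000, 1667296657 / 100000000, -821186599 / 50000000]
  ty := [12326691 / 50000000, -5187407 / 3125000, 405726251 / 100000000, -113476807 / 50000000,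
    8576691 / 20000000, -94050151 / 12500000, 1208502171 / 100000000]

def t3m9 : ℚ := 617 / 2048

def t3h9 : ℚ := 12 / 25

theorem t3k9_M_r1 : NC (fM t3c9 (1 - eh) eh ek (elo t3c9.B0 t3c9.Bh eh) (elo t3c9.D0 t3c9.Dh ek) (elo t3c9.E0 t3c9.Eh ek)) :=
  NC.of (K := 31) (D := ⟨4, 3, 1, 1⟩) (Box.of 4 (by decide +kernel))
    (by decide +kernel)

theorem t3k9_M_r2 : NC (fM t3c9 eh (1 - eh) ek (ehi t3c9.Bh t3c9.B1 (1 - eh)) (elo t3c9.D0 t3c9.Dh ek) (elo t3c9.E0 t3c9.Eh ek)) :=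
  NC.of (K := 31) (D := ⟨4, 3, 1, 1⟩) (Box.of 4 (by decide +kernel))
    (by decide +kernel)

theorem t3k9_M_r3 : NC (fM t3c9 (1 - eh) ek eh (elo t3c9.B0 t3c9.Bh ek) (elo t3c9.D0 t3c9.Dh eh) (elo t3c9.E0 t3c9.Eh eh)) :=
  NC.of (K := 29) (D := ⟨4, 2, 1, 1⟩) (Box.of 4 (by decide +kernel))
    (by decide +kernel)

theorem t3k9_M_r4 : NC (fM t3c9 eh ek (1 - eh) (elo t3c9.B0 t3c9.Bh ek) (ehi t3c9.Dh t3c9.D1 (1 - eh)) (ehi t3c9.Eh t3c9.E1 (1 - eh))) :=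
  NC.of (K := 28) (D := ⟨4, 2, 1, 1⟩) (Box.of 4 (by decide +kernel))
    (by decide +kernel)

theorem t3k9_r0_r1 : NC (f0 t3c9 (1 - eh) eh ek (elo t3c9.B0 t3c9.Bh eh) (elo t3c9.D0 t3c9.Dh ek) (elo t3c9.E0 t3c9.Eh ek)) :=
  NC.of (K := 139) (D := ⟨13, 9, 1, 1⟩) (Box.of 4 (by decide +kernel))
    (by decide +kernel)

theorem t3k9_r0_r2 : NC (f0 t3c9 eh (1 - eh) ek (ehi t3c9.Bh t3c9.B1 (1 - eh)) (elo t3c9.D0 t3c9.Dh ek) (elo t3c9.E0 t3c9.Eh ek)) :=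
  NC.of (K := 139) (D := ⟨13, 9, 1, 1⟩) (Box.of 4 (by decide +kernel))
    (by decide +kernel)

theorem t3k9_r0_r3 : NC (f0 t3c9 (1 - eh) ek eh (elo t3c9.B0 t3c9.Bh ek) (elo t3c9.D0 t3c9.Dh eh) (elo t3c9.E0 t3c9.Eh eh)) :=
  NC.of (K := 134) (D := ⟨13, 5, 1, 1⟩) (Box.of 4 (by decide +kernel))
    (by decide +kernel)

theorem t3k9_r0_r4 : NC (f0 t3c9 eh ek (1 - eh) (elo t3c9.B0 t3c9.Bh ek) (ehi t3c9.Dh t3c9.D1 (1 - eh)) (ehi t3c9.Eh t3c9.E1 (1 - eh))) :=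
  NC.of (K := 127) (D := ⟨13, 5, 1, 1⟩) (Box.of 4 (by decide +kernel))
    (by decide +kernel)

theorem t3k9_r1_r1 : NC (f1 t3c9 (1 - eh) eh ek (elo t3c9.B0 t3c9.Bh eh) (elo t3c9.D0 t3c9.Dh ek) (elo t3c9.E0 t3c9.Eh ek)) :=
  NC.of (K := 218) (D := ⟨16, 9, 1, 1⟩) (Box.of 4 (by decide +kernel))
    (by decide +kernel)

theorem t3k9_r1_r2 : NC (f1 t3c9 eh (1 - eh) ek (ehi t3c9.Bh t3c9.B1 (1 - eh)) (elo t3c9.D0 t3c9.Dh ek) (elo t3c9.E0 t3c9.Eh ek)) :=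
  NC.of (K := 220) (D := ⟨16, 9, 1, 1⟩) (Box.of 4 (by decide +kernel))
    (by decide +kernel)

theorem t3k9_r1_r3 : NC (f1 t3c9 (1 - eh) ek eh (elo t3c9.B0 t3c9.Bh ek) (elo t3c9.D0 t3c9.Dh eh) (elo t3c9.E0 t3c9.Eh eh)) :=
  NC.of (K := 222) (D := ⟨16, 12, 1, 1⟩) (Box.of 4 (by decide +kernel))
    (by decide +kernel)

theorem t3k9_r1_r4 : NC (f1 t3c9 eh ek (1 - eh) (elo t3c9.B0 t3c9.Bh ek) (ehi t3c9.Dh t3c9.D1 (1 - eh)) (ehi t3c9.Eh t3c9.E1 (1 - eh))) :=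
  NC.of (K := 223) (D := ⟨16, 12, 1, 1⟩) (Box.of 4 (by decide +kernel))
    (by decide +kernel)

theorem t3k9_r2_r1 : NC (f2 t3c9 (1 - eh) eh ek (elo t3c9.B0 t3c9.Bh eh) (elo t3c9.D0 t3c9.Dh ek) (elo t3c9.E0 t3c9.Eh ek)) :=
  NC.of (K := 221) (D := ⟨16, 11, 1, 1⟩) (Box.of 4 (by decide +kernel))
    (by decide +kernel)

theorem t3k9_r2_r2 : NC (f2 t3c9 eh (1 - eh) ek (ehi t3c9.Bh t3c9.B1 (1 - eh)) (elo t3c9.D0 t3c9.Dh ek) (elo t3c9.E0 t3c9.Eh ek)) :=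
  NC.of (K := 222) (D := ⟨16, 11, 1, 1⟩) (Box.of 4 (by decide +kernel))
    (by decide +kernel)

theorem t3k9_r2_r3 : NC (f2 t3c9 (1 - eh) ek eh (elo t3c9.B0 t3c9.Bh ek) (elo t3c9.D0 t3c9.Dh eh) (elo t3c9.E0 t3c9.Eh eh)) :=
  NC.of (K := 222) (D := ⟨16, 12, 1, 1⟩) (Box.of 4 (by decide +kernel))
    (by decide +kernel)

theorem t3k9_r2_r4 : NC (f2 t3c9 eh ek (1 - eh) (elo t3c9.B0 t3c9.Bh ek) (ehi t3c9.Dh t3c9.D1 (1 - eh)) (ehi t3c9.Eh t3c9.E1 (1 - eh))) :=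
  NC.of (K := 224) (D := ⟨16, 12, 1, 1⟩) (Box.of 4 (by decide +kernel))
    (by decide +kernel)

theorem t3k9_rc_r1 : NC (fc t3c9 (1 - eh) eh ek (elo t3c9.B0 t3c9.Bh eh) (elo t3c9.D0 t3c9.Dh ek) (elo t3c9.E0 t3c9.Eh ek)) :=
  NC.of (K := 138) (D := ⟨13, 9, 1, 1⟩) (Box.of 4 (by decide +kernel))
    (by decide +kernel)

theorem t3k9_rc_r2 : NC (fc t3c9 eh (1 - eh) ek (ehi t3c9.Bh t3c9.B1 (1 - eh)) (elo t3c9.D0 t3c9.Dh ek) (elo t3c9.E0 t3c9.Eh ek)) :=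
  NC.of (K := 138) (D := ⟨13, 9, 1, 1⟩) (Box.of 4 (by decide +kernel))
    (by decide +kernel)

theorem t3k9_rc_r3 : NC (fc t3c9 (1 - eh) ek eh (elo t3c9.B0 t3c9.Bh ek) (elo t3c9.D0 t3c9.Dh eh) (elo t3c9.E0 t3c9.Eh eh)) :=
  NC.of (K := 133) (D := ⟨13, 5, 1, 1⟩) (Box.of 4 (by decide +kernel))
    (by decide +kernel)

theorem t3k9_rc_r4 : NC (fc t3c9 eh ek (1 - eh) (elo t3c9.B0 t3c9.Bh ek) (ehi t3c9.Dh t3c9.D1 (1 - eh)) (ehi t3c9.Eh t3c9.E1 (1 - eh))) :=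
  NC.of (K := 126) (D := ⟨13, 5, 1, 1⟩) (Box.of 4 (by decide +kernel))
    (by decide +kernel)

theorem t3k9_rI_r1 : NC (fI t3c9 (1 - eh) eh ek (elo t3c9.B0 t3c9.Bh eh) (elo t3c9.D0 t3c9.Dh ek) (elo t3c9.E0 t3c9.Eh ek)) :=
  NC.of (K := 124) (D := ⟨13, 9, 1, 1⟩) (Box.of 4 (by decide +kernel))
    (by decide +kernel)

theorem t3k9_rI_r2 : NC (fI t3c9 eh (1 - eh) ek (ehi t3c9.Bh t3c9.B1 (1 - eh)) (elo t3c9.D0 t3c9.Dh ek) (elo t3c9.E0 t3c9.Eh ek)) :=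
  NC.of (K := 125) (D := ⟨13, 9, 1, 1⟩) (Box.of 4 (by decide +kernel))
    (by decide +kernel)

theorem t3k9_rI_r3 : NC (fI t3c9 (1 - eh) ek eh (elo t3c9.B0 t3c9.Bh ek) (elo t3c9.D0 t3c9.Dh eh) (elo t3c9.E0 t3c9.Eh eh)) :=
  NC.of (K := 120) (D := ⟨13, 5, 1, 1⟩) (Box.of 4 (by decide +kernel))
    (by decide +kernel)

theorem t3k9_rI_r4 : NC (fI t3c9 eh ek (1 - eh) (elo t3c9.B0 t3c9.Bh ek) (ehi t3c9.Dh t3c9.D1 (1 - eh)) (ehi t3c9.Eh t3c9.E1 (1 - eh))) :=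
  NC.of (K := 113) (D := ⟨13, 5, 1, 1⟩) (Box.of 4 (by decide +kernel))
    (by decide +kernel)

theorem t3k9_rJ_r1 : NC (fJ t3c9 (1 - eh) eh ek (elo t3c9.B0 t3c9.Bh eh) (elo t3c9.D0 t3c9.Dh ek) (elo t3c9.E0 t3c9.Eh ek)) :=
  NC.of (K := 96) (D := ⟨7, 5, 1, 1⟩) (Box.of 18465 (by decide +kernel))
    (by decide +kernel)

theorem t3k9_rJ_r2 : NC (fJ t3c9 eh (1 - eh) ek (ehi t3c9.Bh t3c9.B1 (1 - eh)) (elo t3c9.D0 t3c9.Dh ek) (elo t3c9.E0 t3c9.Eh ek)) :=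
  NC.of (K := 84) (D := ⟨7, 5, 1, 1⟩) (Box.of 289 (by decide +kernel))
    (by decide +kernel)

theorem t3k9_rJ_r3 : NC (fJ t3c9 (1 - eh) ek eh (elo t3c9.B0 t3c9.Bh ek) (elo t3c9.D0 t3c9.Dh eh) (elo t3c9.E0 t3c9.Eh eh)) :=
  NC.of (K := 84) (D := ⟨7, 3, 1, 1⟩) (Box.of 288 (by decide +kernel))
    (by decide +kernel)

theorem t3k9_rJ_r4 : NC (fJ t3c9 eh ek (1 - eh) (elo t3c9.B0 t3c9.Bh ek) (ehi t3c9.Dh t3c9.D1 (1 - eh)) (ehi t3c9.Eh t3c9.E1 (1 - eh))) :=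
  NC.of (K := 68) (D := ⟨7, 3, 1, 1⟩) (Box.of 4 (by decide +kernel))
    (by decide +kernel)

theorem t3k9_gE_r1 : NC (fE t3c9 t3e9 (1 - eh) eh ek (elo t3c9.B0 t3c9.Bh eh) (elo t3c9.D0 t3c9.Dh ek) (elo t3c9.E0 t3c9.Eh ek)) :=
  NC.of (K := 121) (D := ⟨13, 9, 1, 1⟩) (Box.of 4 (by decide +kernel))
    (by decide +kernel)

theorem t3k9_gE_r2 : NC (fE t3c9 t3e9 eh (1 - eh) ek (ehi t3c9.Bh t3c9.B1 (1 - eh)) (elo t3c9.D0 t3c9.Dh ek) (elo t3c9.E0 t3c9.Eh ek)) :=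
  NC.of (K := 123) (D := ⟨13, 9, 1, 1⟩) (Box.of 4 (by decide +kernel))
    (by decide +kernel)

theorem t3k9_gE_r3 : NC (fE t3c9 t3e9 (1 - eh) ek eh (elo t3c9.B0 t3c9.Bh ek) (elo t3c9.D0 t3c9.Dh eh) (elo t3c9.E0 t3c9.Eh eh)) :=
  NC.of (K := 119) (D := ⟨13, 7, 1, 1⟩) (Box.of 4 (by decide +kernel))
    (by decide +kernel)

theorem t3k9_gE_r4 : NC (fE t3c9 t3e9 eh ek (1 - eh) (elo t3c9.B0 t3c9.Bh ek) (ehi t3c9.Dh t3c9.D1 (1 - eh)) (ehi t3c9.Eh t3c9.E1 (1 - eh))) :=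
  NC.of (K := 113) (D := ⟨13, 7, 1, 1⟩) (Box.of 4 (by decide +kernel))
    (by decide +kernel)

theorem t3k9_B0 : NC (kB dW 1 0 t3c9.B0 (tcl t3c9)) :=
  NC.of (K := 92) (D := ⟨1, 1, 1, 9⟩) (Box.of 4 (by decide +kernel))
    (by decide +kernel)

theorem t3k9_E0 : NC (kE dW qW qW.p0 qW.q0 t3c9.E0 (tcl t3c9)) :=
  NC.of (K := 205) (D := ⟨1, 1, 1, 19⟩) (Box.of 4 (by decide +kernel))
    (by decide +kernel)

theorem t3k9_D0 : NC (kD dW qW 1 0 qW.p0 qW.q0 t3c9.D0 (tcl t3c9)) :=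
  NC.of (K := 321) (D := ⟨1, 1, 1, 20⟩) (Box.of 4 (by decide +kernel))
    (by decide +kernel)

theorem t3k9_Bh : NC (kB dW (1 / 2) (1 / 2) t3c9.Bh (tcl t3c9)) :=
  NC.of (K := 95) (D := ⟨1, 1, 1, 9⟩) (Box.of 4 (by decide +kernel))
    (by decide +kernel)

theorem t3k9_Eh : NC (kE dW qW qW.ph qW.qh t3c9.Eh (tcl t3c9)) :=
  NC.of (K := 209) (D := ⟨1, 1, 1, 19⟩) (Box.of 4 (by decide +kernel))
    (by decide +kernel)

theorem t3k9_Dh : NC (kD dW qW (1 / 2) (1 / 2) qW.ph qW.qh t3c9.Dh (tcl t3c9)) :=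
  NC.of (K := 325) (D := ⟨1, 1, 1, 20⟩) (Box.of 4 (by decide +kernel))
    (by decide +kernel)

theorem t3k9_B1 : NC (kB dW 0 (1 / 2) t3c9.B1 (tcl t3c9)) :=
  NC.of (K := 95) (D := ⟨1, 1, 1, 9⟩) (Box.of 4 (by decide +kernel))
    (by decide +kernel)

theorem t3k9_E1 : NC (kE dW qW qW.p1 qW.q1 t3c9.E1 (tcl t3c9)) :=
  NC.of (K := 209) (D := ⟨1, 1, 1, 19⟩) (Box.of 4 (by decide +kernel))
    (by decide +kernel)

theorem t3k9_D1 : NC (kD dW qW 0 (1 / 2) qW.p1 qW.q1 t3c9.D1 (tcl t3c9)) :=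
  NC.of (K := 325) (D := ⟨1, 1, 1, 20⟩) (Box.of 4 (by decide +kernel))
    (by decide +kernel)

theorem t3k9_l : NC (qc t3n9.lb - (1 - vX) * pe (exl t3c9.th) vX ^ 2) :=
  NC.of (K := 117) (D := ⟨10, 1, 1, 1⟩) (Box.of 4 (by decide +kernel))
    (by decide +kernel)

theorem t3k9_n : NC (qc t3n9.nb - vX * (1 - vX) * pe (exl t3c9.th) vX) :=
  NC.of (K := 112) (D := ⟨7, 1, 1, 1⟩) (Box.of 76677152 (by decide +kernel))
    (by decide +kernel)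

theorem t3k9_rb : NC (krb t3n9 fW (t1v t3c9)) :=
  NC.of (K := 132) (D := ⟨1, 1, 1, 16⟩) (Box.of 4 (by decide +kernel))
    (by decide +kernel)

theorem t3k9_kap : NC (kkap dW qW t3n9 (tcl t3c9)) :=
  NC.of (K := 93) (D := ⟨1, 1, 1, 9⟩) (Box.of 4 (by decide +kernel))
    (by decide +kernel)

theorem t3k9_wb2 : NC (qc t3n9.b2 - pe2 kW.QB (vZ * t1v t3c9) (t1v t3c9)) :=
  NC.of (K := 108) (D := ⟨1, 6, 1, 11⟩) (Box.of 291 (by decide +kernel))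
    (by decide +kernel)

theorem t3k9_wmb : NC (qc t3n9.Mb - pe zW.mb (t1v t3c9)) :=
  NC.of (K := 85) (D := ⟨1, 1, 1, 9⟩) (Box.of 291 (by decide +kernel))
    (by decide +kernel)

theorem t3k9_wth : NC (qc (t3c9.th / t3c9.t1) - pe2 zW.Qt (vZ * t1v t3c9) (t1v t3c9)) :=
  NC.of (K := 110) (D := ⟨1, 6, 1, 11⟩) (Box.of 291 (by decide +kernel))
    (by decide +kernel)

theorem t3k9_wyb : NC (qc t3n9.Yb - (t1v t3c9 - vZ * t1v t3c9) ^ 3 * pe2 yW.QY (vZ * t1v t3c9) (t1v t3c9)) :=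
  NC.of (K := 89) (D := ⟨1, 8, 1, 12⟩) (Box.of 4 (by decide +kernel))
    (by decide +kernel)

theorem t3k9_wmu : NC (qc t3m9 - pe t3al (tcl t3c9) * (1 + hlf * tcl t3c9)) :=
  NC.of (K := 88) (D := ⟨1, 1, 1, 9⟩) (Box.of 4 (by decide +kernel))
    (by decide +kernel)

theorem t3k9_wcj : NC (qc t3c9.C * ((6 - 3 * vX) * (1 - qc t3m9 * vX)) - (6 - 6 * vX + vX ^ 2)) :=
  NC.of (K := 33) (D := ⟨3, 1, 1, 1⟩) (Box.of 4 (by decide +kernel))
    (by decide +kernel)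

theorem t3k9_nd1 : NC (pe t3r9.d1 (t1v t3c9)) :=
  NC.of (K := 49) (D := ⟨1, 1, 1, 7⟩) (Box.of 4 (by decide +kernel))
    (by decide +kernel)

theorem t3k9_nd2 : NC (pe t3r9.d2 (t1v t3c9)) :=
  NC.of (K := 51) (D := ⟨1, 1, 1, 7⟩) (Box.of 4 (by decide +kernel))
    (by decide +kernel)

theorem t3k9_ndy : NC (pe t3r9.dy (t1v t3c9)) :=
  NC.of (K := 53) (D := ⟨1, 1, 1, 7⟩) (Box.of 4 (by decide +kernel))
    (by decide +kernel)

theorem t3k9_nt1 : NC (pe t3r9.t1 (t1v t3c9)) :=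
  NC.of (K := 54) (D := ⟨1, 1, 1, 7⟩) (Box.of 4 (by decide +kernel))
    (by decide +kernel)

theorem t3k9_nt2 : NC (pe t3r9.t2 (t1v t3c9)) :=
  NC.of (K := 52) (D := ⟨1, 1, 1, 7⟩) (Box.of 4 (by decide +kernel))
    (by decide +kernel)

theorem t3k9_nty : NC (pe t3r9.ty (t1v t3c9)) :=
  NC.of (K := 57) (D := ⟨1, 1, 1, 7⟩) (Box.of 4 (by decide +kernel))
    (by decide +kernel)

theorem t3k9_nhz : NC (pe t3r9.hz (t1v t3c9)) :=
  NC.of (K := 84) (D := ⟨1, 1, 1, 7⟩) (Box.of 18659 (by decide +kernel))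
    (by decide +kernel)

theorem t3k9_xi : NC (eXi fW t3c9 t3e9 t3r9 (t1v t3c9)) :=
  NC.of (K := 228) (D := ⟨1, 1, 1, 22⟩) (Box.of 4 (by decide +kernel))
    (by decide +kernel)

theorem t3k9_om : NC (eOm fW t3r9 (t1v t3c9)) :=
  NC.of (K := 125) (D := ⟨1, 1, 1, 16⟩) (Box.of 4 (by decide +kernel))
    (by decide +kernel)

theorem t3k9_fin : NC (eFin dW t3c9 t3n9 t3r9 t3h9 (tcl t3c9)) :=
  NC.of (K := 210) (D := ⟨1, 1, 1, 14⟩) (Box.of 4 (by decide +kernel))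
    (by decide +kernel)

theorem t3k9_xdl : NC (qc t3e9.dl - pe t3d9.l.dl t3d9.eU) :=
  NC.of (K := 72) (D := ⟨1, 4, 1, 1⟩) (Box.of 4 (by decide +kernel))
    (by decide +kernel)

theorem t3k9_xeY : NC (qc t3e9.eY - pe (e4l t3d9.l.z) t3d9.eU) :=
  NC.of (K := 288) (D := ⟨1, 13, 1, 1⟩) (Box.of 4 (by decide +kernel))
    (by decide +kernel)

theorem t3k9_xgr : NC (qc t3d9.ga * ((1 + qc (3 / 5) * vX) * (1 + (t3d9.eg + hlf * t3d9.eg ^ 2))) + qc t3d9.gb - pe2 t3GR vX t3d9.eU) :=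
  NC.of (K := 239) (D := ⟨4, 11, 1, 1⟩) (Box.of 4 (by decide +kernel))
    (by decide +kernel)

theorem t3k9_xhr : NC (qc t3d9.hb - pe2 t3HR vX t3d9.eU) :=
  NC.of (K := 260) (D := ⟨3, 12, 1, 1⟩) (Box.of 4 (by decide +kernel))
    (by decide +kernel)

theorem t3k9_xgs : NC (pe t3d9.gs t3d9.e1 - qc (8 / 5) * pe (e4l (ladd t3d9.ls.z t3d9.ls.dl)) t3d9.e1) :=
  NC.of (K := 284) (D := ⟨1, 1, 1, 13⟩) (Box.of 4 (by decide +kernel))
    (by decide +kernel)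

theorem t3k9_xd1 : NC (pe t3d9.d1 t3d9.e1 - t3d9.eA t3d9.eU t3d9.e1) :=
  NC.of (K := 279) (D := ⟨1, 12, 1, 12⟩) (Box.of 4 (by decide +kernel))
    (by decide +kernel)

theorem t3k9_xd2 : NC (pe t3d9.d2 t3d9.e1 - t3d9.eB t3d9.eU t3d9.e1) :=
  NC.of (K := 306) (D := ⟨1, 12, 1, 12⟩) (Box.of 291 (by decide +kernel))
    (by decide +kernel)

theorem t3k9_xt1 : NC (pe t3d9.t1 t3d9.e1 - t3d9.eAT t3d9.eU t3d9.e1) :=
  NC.of (K := 499) (D := ⟨1, 19, 1, 19⟩) (Box.of 291 (by decide +kernel))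
    (by decide +kernel)

theorem t3k9_xt2 : NC (pe t3d9.t2 t3d9.e1 - t3d9.eBT t3d9.eU t3d9.e1) :=
  NC.of (K := 498) (D := ⟨1, 19, 1, 19⟩) (Box.of 291 (by decide +kernel))
    (by decide +kernel)

theorem t3k9_xdy : NC (pe t3d9.dy t3d9.e1 - t3d9.eSD t3d9.eU t3d9.e1) :=
  NC.of (K := 440) (D := ⟨1, 18, 1, 12⟩) (Box.of 4 (by decide +kernel))
    (by decide +kernel)

theorem t3k9_xty : NC (pe t3d9.ty t3d9.e1 - t3d9.eST t3d9.eU t3d9.e1) :=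
  NC.of (K := 658) (D := ⟨1, 26, 1, 26⟩) (Box.of 4 (by decide +kernel))
    (by decide +kernel)

theorem t3k9_xd1s : NC (pe t3r9.d1 (t1v t3c9) - pe t3d9.d1 (Xcd.ew zW t3c9)) :=
  NC.of (K := 456) (D := ⟨1, 1, 1, 55⟩) (Box.of 4 (by decide +kernel))
    (by decide +kernel)

theorem t3k9_xd2s : NC (pe t3r9.d2 (t1v t3c9) - pe t3d9.d2 (Xcd.ew zW t3c9)) :=
  NC.of (K := 462) (D := ⟨1, 1, 1, 55⟩) (Box.of 4 (by decide +kernel))
    (by decide +kernel)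

theorem t3k9_xt1s : NC (pe t3r9.t1 (t1v t3c9) - pe t3d9.t1 (Xcd.ew zW t3c9)) :=
  NC.of (K := 470) (D := ⟨1, 1, 1, 55⟩) (Box.of 4 (by decide +kernel))
    (by decide +kernel)

theorem t3k9_xt2s : NC (pe t3r9.t2 (t1v t3c9) - pe t3d9.t2 (Xcd.ew zW t3c9)) :=
  NC.of (K := 467) (D := ⟨1, 1, 1, 55⟩) (Box.of 4 (by decide +kernel))
    (by decide +kernel)

theorem t3k9_xdys : NC (pe t3r9.dy (t1v t3c9) - pe t3d9.dy (Xcd.ew zW t3c9)) :=
  NC.of (K := 464) (D := ⟨1, 1, 1, 55⟩) (Box.of 4 (by decide +kernel))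
    (by decide +kernel)

theorem t3k9_xtys : NC (pe t3r9.ty (t1v t3c9) - pe t3d9.ty (Xcd.ew zW t3c9)) :=
  NC.of (K := 468) (D := ⟨1, 1, 1, 55⟩) (Box.of 4 (by decide +kernel))
    (by decide +kernel)

theorem t3k9_xhz : NC (pe t3r9.hz (t1v t3c9) - pe t3d9.c.dR (Xcd.ew zW t3c9)) :=
  NC.of (K := 475) (D := ⟨1, 1, 1, 55⟩) (Box.of 4 (by decide +kernel))
    (by decide +kernel)

theorem t3f9_ok : t3f9.ok V2L.y3 V2L.k3 V2L.nb V2L.la (10 ^ 30) 32 = true := by decide +kernel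

theorem t3k9_sg : t3c9.Sg := by
  constructor <;> decide +kernel

theorem t3k9_rgs : t3c9.Rgs where
  M := ⟨t3k9_M_r1, t3k9_M_r2, t3k9_M_r3, t3k9_M_r4⟩
  r0 := ⟨t3k9_r0_r1, t3k9_r0_r2, t3k9_r0_r3, t3k9_r0_r4⟩
  r1 := ⟨t3k9_r1_r1, t3k9_r1_r2, t3k9_r1_r3, t3k9_r1_r4⟩
  r2 := ⟨t3k9_r2_r1, t3k9_r2_r2, t3k9_r2_r3, t3k9_r2_r4⟩
  rc := ⟨t3k9_rc_r1, t3k9_rc_r2, t3k9_rc_r3, t3k9_rc_r4⟩
  rI := ⟨t3k9_rI_r1, t3k9_rI_r2, t3k9_rI_r3, t3k9_rI_r4⟩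
  rJ := ⟨t3k9_rJ_r1, t3k9_rJ_r2, t3k9_rJ_r3, t3k9_rJ_r4⟩

theorem t3k9_xn : t3e9.Ok t3c9 where
  lm := by decide +kernel
  dl0 := by decide +kernel
  dl1 := by decide +kernel
  e2 := by decide +kernel
  eY := by decide +kernel
  gE := ⟨t3k9_gE_r1, t3k9_gE_r2, t3k9_gE_r3, t3k9_gE_r4⟩

theorem t3k9_vl : t3c9.Vl dW qW where
  bt := by decide +kernel
  B0 := t3k9_B0
  E0 := t3k9_E0
  D0 := t3k9_D0
  Bh := t3k9_Bh
  Eh := t3k9_Eh
  Dh := t3k9_Dh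
  B1 := t3k9_B1
  E1 := t3k9_E1
  D1 := t3k9_D1

theorem t3k9_rat : t3n9.Rat t3c9 := by
  constructor <;> decide +kernel

theorem t3k9_ck : t3n9.Ck t3c9 := ⟨t3k9_l, t3k9_n⟩

theorem t3k9_fck : t3n9.Fck dW qW fW t3c9 := ⟨t3k9_rb, t3k9_kap⟩

theorem t3k9_w : Wcl zW kW yW t3al t3c9 t3n9 t3m9 where
  b2 := t3k9_wb2
  mb := t3k9_wmb
  th := t3k9_wth
  yb := t3k9_wyb
  mu := t3k9_wmu
  cj := t3k9_wcj
  mt1 := by decide +kernel
  mt2 := by decide +kernel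

theorem t3k9_ok : CelOk dW qW fW t3c9 t3n9 where
  s := t3k9_sg
  r := t3k9_rgs
  v := t3k9_vl
  rt := t3k9_rat
  k := t3k9_ck
  fc := t3k9_fck
  q01 := by decide +kernel
  q12 := by decide +kernel
  h2 := by decide +kernel

theorem t3k9_xr : t3r9.Ok fW t3c9 t3e9 where
  sD := by decide +kernel
  sT := by decide +kernel
  nd1 := t3k9_nd1
  nd2 := t3k9_nd2
  ndy := t3k9_ndy
  nt1 := t3k9_nt1
  nt2 := t3k9_nt2
  nty := t3k9_nty
  nhz := t3k9_nhz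
  xi := t3k9_xi
  om := t3k9_om

theorem t3k9_X : t3d9.Ck t3GR t3HR zW t3c9 t3e9 t3r9 where
  u0 := by decide +kernel
  u01 := by decide +kernel
  ul := by decide +kernel
  us := by decide +kernel
  uc := by decide +kernel
  ga0 := by decide +kernel
  kp0 := by decide +kernel
  lm := by decide +kernel
  dl := t3k9_xdl
  eY := t3k9_xeY
  gr := t3k9_xgr
  hr := t3k9_xhr
  gs := t3k9_xgs
  d1 := t3k9_xd1
  d2 := t3k9_xd2
  t1 := t3k9_xt1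
  t2 := t3k9_xt2
  dy := t3k9_xdy
  ty := t3k9_xty
  d1s := t3k9_xd1s
  d2s := t3k9_xd2s
  t1s := t3k9_xt1s
  t2s := t3k9_xt2s
  dys := t3k9_xdys
  tys := t3k9_xtys
  hz := t3k9_xhz

end Pool.Agent.RX.RCN.K
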