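import Pool.Agent.RX.RCN.T3c_1

/-! The second type with the signed direct part on the whole interval (MP_73ccd0_lc, route M). -/

namespace Pool.Agent.RX.RCN.K

open Set Finset MeasureTheory Pool.Agent.RX.RCRSHalf Pool.Agent.RX.RCG Pool.Agent.RX.RCG.Ct
open Pool.Agent.RX.RCN.Ker Pool.Agent.RX.RCRS
open Pool.Agent.RX.RCM hiding qc
open Pool.Agent.RX.RCM9 Pool.Agent.RX.RCM9.Bern Pool.Agent.RX.RCM9.Pk

set_option linter.unusedSectionVars false

section rows

variable {V : Type*} [Fintype V] [DecidableEq V]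
variable {p : Ps} {x : V → V → ℝ} {P : V → Prop} [DecidablePred P] {g : MDat} {gr : ℕ → MGr}
  {Hp Hm GR HR : List (List ℚ)} {N n : ℕ} {G : ℕ → V → V → Fm V} {H : ℕ → V → Fm V} {a : V}
  {d : Xce} {c : Cel} {e : Xge} {r : Xr} {nb la : List ℚ} {Uo : ℚ}

end rows

namespace T3q

instance (w : T3q) (mb : List ℚ) (N : ℕ) : Decidable (w.cv mb N) := by
  unfold cv
  infer_instance

/-- the groups of a cell by computation -/
def grpb (w : T3q) (gr : ℕ → MGr) (s2 : ℕ → ℚ) : Bool :=
  (List.range' w.i0 (w.i1 - w.i0)).all fun i => decide (w.d.l.m = (gr i).m) &&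
    decide (w.d.l.q = (gr i).q) && decide (w.d.ls.m = (gr i).m) && decide (w.d.ls.q = (gr i).q) &&
    decide (w.z.s = s2 i)

theorem grp_of {w : T3q} {gr : ℕ → MGr} {s2 : ℕ → ℚ} (h : w.grpb gr s2 = true) :
    w.grp gr s2 := by
  intro i h0 h1
  have hm : i ∈ List.range' w.i0 (w.i1 - w.i0) := by
    rw [List.mem_range'_1]
    omega
  have := List.all_eq_true.1 h i hm
  simp only [Bool.and_eq_true, decide_eq_true_eq, and_assoc] at this
  exact this

end T3q

section

variable {V : Type} [Fintype V] [DecidableEq V]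
variable {Gg : SimpleGraph V} [Fintype Gg.edgeSet] [DecidableEq Gg.edgeSet]
variable {p : Ps} {gd : GDat} {q : Iq} {f : Fx} {s2 : ℕ → ℚ} {g : MDat} {gr : ℕ → MGr}
  {Hp Hm GR HR : List (List ℚ)} {nb la : List ℚ} {Uo : ℚ}

end

end Pool.Agent.RX.RCN.K
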