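import Pool.Agent.RX.RCN.MW
import Pool.Agent.RX.RCN.T3b

/-! The lists of the groups of the second type, version with the signed direct part: the facts
from the certificates of level 1/2 (MP_73ccd0_lc, route M). -/

namespace Pool.Agent.RX.RCN.K

open Set Finset MeasureTheory Pool.Agent.RX.RCRSHalf
open Pool.Agent.RX.RCM hiding qc
open Pool.Agent.RX.RCM9 Pool.Agent.RX.RCM9.Bern Pool.Agent.RX.RCM9.Pk Pool.Agent.RX.RCM9.G

set_option linter.unusedSectionVars false

/-- the lists of a group -/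
structure XsW (l : Yl) (y : Yz) (j i : Yv) (ls : Yl) (k : Nl) : Prop where
  ok : ∃ (D : ℤ) (n : ℕ), l.ok D n = true
  oky : ∃ (D : ℤ) (n : ℕ), y.ok l D n = true ∧ j.ok l y 0 0 (y.p1 l) y.p2 D n = true ∧
    i.ok l y 1 0 [] [] D n = true
  oks : ∃ (D : ℤ) (n : ℕ), ls.ok D n = true
  okk : ∃ (D : ℤ) (n : ℕ), k.ok l D n = true
  z : l.z = [0, 0, 0, 13 / 100]
  dl : l.dl = [0, 1, 0, -13 / 100]
  zs : ls.z = [0, 1 / 2, 0, 13 / 200]
  dls : ls.dl = [0, 1, 0, -13 / 100]
  b : mW.B = [0, l.b1]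
  bs : mW.B = [0, ls.b1]
  fx : l.Fx (pv2 CertG2.Gp) (pv2 CertG2.Gm)
  fxs : ls.Fx (pv2 CertGS.Hp) (pv2 CertGS.Hm)

theorem XsW.lk {d : Xce} {nb la : List ℚ} {Uo : ℚ} (h : XsW d.l d.y d.j d.i d.ls d.k)
    (hc : ∃ (D : ℤ) (n : ℕ), d.c.ok d.l d.k nb la D n = true) (hU : d.c.Cv ≤ Uo) :
    d.Lk mW CertGS.Hp CertGS.Hm nb la Uo where
  ok := h.ok
  oky := h.oky
  oks := h.oks
  okk := h.okk
  okc := hc
  CU := hU
  fx := h.fx
  fxs := h.fxs
  y := fun u _ => by
    rw [h.z]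
    exact le_rfl
  zd := fun u _ => by
    rw [h.z, h.dl]
    simp only [pv]
    push_cast
    linarith
  B := fun u _ => by
    rw [h.b]
    simp only [pv]
    push_cast
    linarith
  ys := fun u _ => by
    have e : mW.y = [0, 0, 0, 13 / 100] := rfl
    rw [h.zs, e]
    simp only [pv]
    push_cast
    linarith
  zs := fun u hu => by
    rw [h.zs, h.dls]
    simp only [pv]
    push_cast
    linarith
  Bs := fun u _ => by
    rw [h.bs]
    simp only [pv]
    push_cast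
    linarith

end Pool.Agent.RX.RCN.K
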