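import Pool.Agent.RX.RCN.FxW_1
import Pool.Agent.RX.RCN.FxW_2
import Pool.Agent.RX.RCN.GW
import Pool.Agent.RX.RCN.GrW
import Pool.Agent.RX.RCN.PW
import Pool.Agent.RX.RCN.T3Ly13
import Pool.Agent.RX.RCN.T3Ly14
import Pool.Agent.RX.RCN.T3Ly15
import Pool.Agent.RX.RCN.T3Ly26
import Pool.Agent.RX.RCN.T3Ly27
import Pool.Agent.RX.RCN.T3Lz0
import Pool.Agent.RX.RCN.T3Lz1
import Pool.Agent.RX.RCN.T3Lz10
import Pool.Agent.RX.RCN.T3Lz11
import Pool.Agent.RX.RCN.T3Lz12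
import Pool.Agent.RX.RCN.T3Lz13
import Pool.Agent.RX.RCN.T3Lz14
import Pool.Agent.RX.RCN.T3Lz15
import Pool.Agent.RX.RCN.T3Lz16
import Pool.Agent.RX.RCN.T3Lz17
import Pool.Agent.RX.RCN.T3Lz18
import Pool.Agent.RX.RCN.T3Lz19
import Pool.Agent.RX.RCN.T3Lz2
import Pool.Agent.RX.RCN.T3Lz20
import Pool.Agent.RX.RCN.T3Lz21
import Pool.Agent.RX.RCN.T3Lz22
import Pool.Agent.RX.RCN.T3Lz23
import Pool.Agent.RX.RCN.T3Lz24
import Pool.Agent.RX.RCN.T3Lz25
import Pool.Agent.RX.RCN.T3Lz26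
import Pool.Agent.RX.RCN.T3Lz27
import Pool.Agent.RX.RCN.T3Lz3
import Pool.Agent.RX.RCN.T3Lz4
import Pool.Agent.RX.RCN.T3Lz5
import Pool.Agent.RX.RCN.T3Lz6
import Pool.Agent.RX.RCN.T3Lz7
import Pool.Agent.RX.RCN.T3Lz8
import Pool.Agent.RX.RCN.T3Lz9
import Pool.Agent.RX.RCN.T3WF_1
import Pool.Agent.RX.RCN.T3Wc0
import Pool.Agent.RX.RCN.T3Wc1
import Pool.Agent.RX.RCN.T3Wc10
import Pool.Agent.RX.RCN.T3Wc11
import Pool.Agent.RX.RCN.T3Wc12
import Pool.Agent.RX.RCN.T3Wc13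
import Pool.Agent.RX.RCN.T3Wc14
import Pool.Agent.RX.RCN.T3Wc15
import Pool.Agent.RX.RCN.T3Wc16
import Pool.Agent.RX.RCN.T3Wc17
import Pool.Agent.RX.RCN.T3Wc18
import Pool.Agent.RX.RCN.T3Wc19
import Pool.Agent.RX.RCN.T3Wc2
import Pool.Agent.RX.RCN.T3Wc20
import Pool.Agent.RX.RCN.T3Wc21
import Pool.Agent.RX.RCN.T3Wc22
import Pool.Agent.RX.RCN.T3Wc23
import Pool.Agent.RX.RCN.T3Wc24
import Pool.Agent.RX.RCN.T3Wc25
import Pool.Agent.RX.RCN.T3Wc26
import Pool.Agent.RX.RCN.T3Wc27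
import Pool.Agent.RX.RCN.T3Wc28
import Pool.Agent.RX.RCN.T3Wc29
import Pool.Agent.RX.RCN.T3Wc3
import Pool.Agent.RX.RCN.T3Wc30
import Pool.Agent.RX.RCN.T3Wc31
import Pool.Agent.RX.RCN.T3Wc32
import Pool.Agent.RX.RCN.T3Wc33
import Pool.Agent.RX.RCN.T3Wc34
import Pool.Agent.RX.RCN.T3Wc35
import Pool.Agent.RX.RCN.T3Wc36
import Pool.Agent.RX.RCN.T3Wc37
import Pool.Agent.RX.RCN.T3Wc38
import Pool.Agent.RX.RCN.T3Wc39
import Pool.Agent.RX.RCN.T3Wc4
import Pool.Agent.RX.RCN.T3Wc40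
import Pool.Agent.RX.RCN.T3Wc41
import Pool.Agent.RX.RCN.T3Wc42
import Pool.Agent.RX.RCN.T3Wc43
import Pool.Agent.RX.RCN.T3Wc44
import Pool.Agent.RX.RCN.T3Wc45
import Pool.Agent.RX.RCN.T3Wc46
import Pool.Agent.RX.RCN.T3Wc47
import Pool.Agent.RX.RCN.T3Wc5
import Pool.Agent.RX.RCN.T3Wc6
import Pool.Agent.RX.RCN.T3Wc7
import Pool.Agent.RX.RCN.T3Wc8
import Pool.Agent.RX.RCN.T3Wc9
import Pool.Agent.RX.RCN.T3c_2
import Pool.Agent.RX.RCN.T3o
import Pool.Agent.RX.RCN.VLy0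
import Pool.Agent.RX.RCN.VLy1
import Pool.Agent.RX.RCN.VLy10
import Pool.Agent.RX.RCN.VLy11
import Pool.Agent.RX.RCN.VLy12
import Pool.Agent.RX.RCN.VLy13
import Pool.Agent.RX.RCN.VLy14
import Pool.Agent.RX.RCN.VLy15
import Pool.Agent.RX.RCN.VLy16
import Pool.Agent.RX.RCN.VLy17
import Pool.Agent.RX.RCN.VLy18
import Pool.Agent.RX.RCN.VLy19
import Pool.Agent.RX.RCN.VLy2
import Pool.Agent.RX.RCN.VLy20
import Pool.Agent.RX.RCN.VLy21
import Pool.Agent.RX.RCN.VLy22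
import Pool.Agent.RX.RCN.VLy23
import Pool.Agent.RX.RCN.VLy24
import Pool.Agent.RX.RCN.VLy25
import Pool.Agent.RX.RCN.VLy26
import Pool.Agent.RX.RCN.VLy27
import Pool.Agent.RX.RCN.VLy3
import Pool.Agent.RX.RCN.VLy4
import Pool.Agent.RX.RCN.VLy5
import Pool.Agent.RX.RCN.VLy6
import Pool.Agent.RX.RCN.VLy7
import Pool.Agent.RX.RCN.VLy8
import Pool.Agent.RX.RCN.VLy9

/-! The second type: the certificates, version 2 (generated). -/

set_option autoImplicit false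

namespace Pool.Agent.RX.RCN.K

open Set Pool.Agent.RX.RCM9 Pool.Agent.RX.RCM9.Bern Pool.Agent.RX.RCM9.Pk

theorem t3GR_eq : t3GR = Pool.Agent.RX.RCM9.CertG2.GmR := by decide +kernel

theorem t3HR_eq : t3HR = Pool.Agent.RX.RCM9.CertGS.HmR := by decide +kernel

theorem t3l0 : XsW Pool.Agent.RX.RCN.V2L.y0 t3z0 t3j0 t3i0 t3y0 Pool.Agent.RX.RCN.V2L.k0 where
  ok := ⟨_, _, Pool.Agent.RX.RCN.V2L.y0_ok⟩
  oky := ⟨_, _, t3z0_ok, t3j0_ok, t3i0_ok⟩
  oks := ⟨_, _, by rw [Yl.ok, t3y0_okA, t3y0_okB, t3y0_okC]; rfl⟩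
  okk := ⟨_, _, Pool.Agent.RX.RCN.V2L.k0_ok⟩
  z := by decide +kernel
  dl := by decide +kernel
  zs := by decide +kernel
  dls := by decide +kernel
  b := by decide +kernel
  bs := by decide +kernel
  fx := fxP (by decide +kernel) (by decide +kernel) (by decide +kernel) (by decide +kernel) (by decide +kernel) (by decide +kernel) (by decide +kernel) (by decide +kernel) (by decide +kernel)
  fxs := fxS (by decide +kernel) (by decide +kernel) (by decide +kernel) (by decide +kernel) (by decide +kernel) (by decide +kernel) (by decide +kernel) (by decide +kernel) (by decide +kernel)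

theorem t3l1 : XsW Pool.Agent.RX.RCN.V2L.y1 t3z1 t3j1 t3i1 t3y1 Pool.Agent.RX.RCN.V2L.k1 where
  ok := ⟨_, _, Pool.Agent.RX.RCN.V2L.y1_ok⟩
  oky := ⟨_, _, t3z1_ok, t3j1_ok, t3i1_ok⟩
  oks := ⟨_, _, by rw [Yl.ok, t3y1_okA, t3y1_okB, t3y1_okC]; rfl⟩
  okk := ⟨_, _, Pool.Agent.RX.RCN.V2L.k1_ok⟩
  z := by decide +kernel
  dl := by decide +kernel
  zs := by decide +kernel
  dls := by decide +kernel
  b := by decide +kernel
  bs := by decide +kernel
  fx := fxP (by decide +kernel) (by decide +kernel) (by decide +kernel) (by decide +kernel) (by decide +kernel) (by decide +kernel) (by decide +kernel) (by decide +kernel) (by decide +kernel)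
  fxs := fxS (by decide +kernel) (by decide +kernel) (by decide +kernel) (by decide +kernel) (by decide +kernel) (by decide +kernel) (by decide +kernel) (by decide +kernel) (by decide +kernel)

theorem t3l2 : XsW Pool.Agent.RX.RCN.V2L.y2 t3z2 t3j2 t3i2 t3y2 Pool.Agent.RX.RCN.V2L.k2 where
  ok := ⟨_, _, Pool.Agent.RX.RCN.V2L.y2_ok⟩
  oky := ⟨_, _, t3z2_ok, t3j2_ok, t3i2_ok⟩
  oks := ⟨_, _, by rw [Yl.ok, t3y2_okA, t3y2_okB, t3y2_okC]; rfl⟩
  okk := ⟨_, _, Pool.Agent.RX.RCN.V2L.k2_ok⟩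
  z := by decide +kernel
  dl := by decide +kernel
  zs := by decide +kernel
  dls := by decide +kernel
  b := by decide +kernel
  bs := by decide +kernel
  fx := fxP (by decide +kernel) (by decide +kernel) (by decide +kernel) (by decide +kernel) (by decide +kernel) (by decide +kernel) (by decide +kernel) (by decide +kernel) (by decide +kernel)
  fxs := fxS (by decide +kernel) (by decide +kernel) (by decide +kernel) (by decide +kernel) (by decide +kernel) (by decide +kernel) (by decide +kernel) (by decide +kernel) (by decide +kernel)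

theorem t3l3 : XsW Pool.Agent.RX.RCN.V2L.y3 t3z3 t3j3 t3i3 t3y3 Pool.Agent.RX.RCN.V2L.k3 where
  ok := ⟨_, _, Pool.Agent.RX.RCN.V2L.y3_ok⟩
  oky := ⟨_, _, t3z3_ok, t3j3_ok, t3i3_ok⟩
  oks := ⟨_, _, by rw [Yl.ok, t3y3_okA, t3y3_okB, t3y3_okC]; rfl⟩
  okk := ⟨_, _, Pool.Agent.RX.RCN.V2L.k3_ok⟩
  z := by decide +kernel
  dl := by decide +kernel
  zs := by decide +kernel
  dls := by decide +kernel
  b := by decide +kernel
  bs := by decide +kernel
  fx := fxP (by decide +kernel) (by decide +kernel) (by decide +kernel) (by decide +kernel) (by decide +kernel) (by decide +kernel) (by decide +kernel) (by decide +kernel) (by decide +kernel)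
  fxs := fxS (by decide +kernel) (by decide +kernel) (by decide +kernel) (by decide +kernel) (by decide +kernel) (by decide +kernel) (by decide +kernel) (by decide +kernel) (by decide +kernel)

theorem t3l4 : XsW Pool.Agent.RX.RCN.V2L.y4 t3z4 t3j4 t3i4 t3y4 Pool.Agent.RX.RCN.V2L.k4 where
  ok := ⟨_, _, Pool.Agent.RX.RCN.V2L.y4_ok⟩
  oky := ⟨_, _, t3z4_ok, t3j4_ok, t3i4_ok⟩
  oks := ⟨_, _, by rw [Yl.ok, t3y4_okA, t3y4_okB, t3y4_okC]; rfl⟩
  okk := ⟨_, _, Pool.Agent.RX.RCN.V2L.k4_ok⟩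
  z := by decide +kernel
  dl := by decide +kernel
  zs := by decide +kernel
  dls := by decide +kernel
  b := by decide +kernel
  bs := by decide +kernel
  fx := fxP (by decide +kernel) (by decide +kernel) (by decide +kernel) (by decide +kernel) (by decide +kernel) (by decide +kernel) (by decide +kernel) (by decide +kernel) (by decide +kernel)
  fxs := fxS (by decide +kernel) (by decide +kernel) (by decide +kernel) (by decide +kernel) (by decide +kernel) (by decide +kernel) (by decide +kernel) (by decide +kernel) (by decide +kernel)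

theorem t3l5 : XsW Pool.Agent.RX.RCN.V2L.y5 t3z5 t3j5 t3i5 t3y5 Pool.Agent.RX.RCN.V2L.k5 where
  ok := ⟨_, _, Pool.Agent.RX.RCN.V2L.y5_ok⟩
  oky := ⟨_, _, t3z5_ok, t3j5_ok, t3i5_ok⟩
  oks := ⟨_, _, by rw [Yl.ok, t3y5_okA, t3y5_okB, t3y5_okC]; rfl⟩
  okk := ⟨_, _, Pool.Agent.RX.RCN.V2L.k5_ok⟩
  z := by decide +kernel
  dl := by decide +kernel
  zs := by decide +kernel
  dls := by decide +kernel
  b := by decide +kernel
  bs := by decide +kernel
  fx := fxP (by decide +kernel) (by decide +kernel) (by decide +kernel) (by decide +kernel) (by decide +kernel) (by decide +kernel) (by decide +kernel) (by decide +kernel) (by decide +kernel)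
  fxs := fxS (by decide +kernel) (by decide +kernel) (by decide +kernel) (by decide +kernel) (by decide +kernel) (by decide +kernel) (by decide +kernel) (by decide +kernel) (by decide +kernel)

theorem t3l6 : XsW Pool.Agent.RX.RCN.V2L.y6 t3z6 t3j6 t3i6 t3y6 Pool.Agent.RX.RCN.V2L.k6 where
  ok := ⟨_, _, Pool.Agent.RX.RCN.V2L.y6_ok⟩
  oky := ⟨_, _, t3z6_ok, t3j6_ok, t3i6_ok⟩
  oks := ⟨_, _, by rw [Yl.ok, t3y6_okA, t3y6_okB, t3y6_okC]; rfl⟩
  okk := ⟨_, _, Pool.Agent.RX.RCN.V2L.k6_ok⟩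
  z := by decide +kernel
  dl := by decide +kernel
  zs := by decide +kernel
  dls := by decide +kernel
  b := by decide +kernel
  bs := by decide +kernel
  fx := fxP (by decide +kernel) (by decide +kernel) (by decide +kernel) (by decide +kernel) (by decide +kernel) (by decide +kernel) (by decide +kernel) (by decide +kernel) (by decide +kernel)
  fxs := fxS (by decide +kernel) (by decide +kernel) (by decide +kernel) (by decide +kernel) (by decide +kernel) (by decide +kernel) (by decide +kernel) (by decide +kernel) (by decide +kernel)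

theorem t3l7 : XsW Pool.Agent.RX.RCN.V2L.y7 t3z7 t3j7 t3i7 t3y7 Pool.Agent.RX.RCN.V2L.k7 where
  ok := ⟨_, _, Pool.Agent.RX.RCN.V2L.y7_ok⟩
  oky := ⟨_, _, t3z7_ok, t3j7_ok, t3i7_ok⟩
  oks := ⟨_, _, by rw [Yl.ok, t3y7_okA, t3y7_okB, t3y7_okC]; rfl⟩
  okk := ⟨_, _, Pool.Agent.RX.RCN.V2L.k7_ok⟩
  z := by decide +kernel
  dl := by decide +kernel
  zs := by decide +kernel
  dls := by decide +kernel
  b := by decide +kernel
  bs := by decide +kernel
  fx := fxP (by decide +kernel) (by decide +kernel) (by decide +kernel) (by decide +kernel) (by decide +kernel) (by decide +kernel) (by decide +kernel) (by decide +kernel) (by decide +kernel)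
  fxs := fxS (by decide +kernel) (by decide +kernel) (by decide +kernel) (by decide +kernel) (by decide +kernel) (by decide +kernel) (by decide +kernel) (by decide +kernel) (by decide +kernel)

theorem t3l8 : XsW Pool.Agent.RX.RCN.V2L.y8 t3z8 t3j8 t3i8 t3y8 Pool.Agent.RX.RCN.V2L.k8 where
  ok := ⟨_, _, Pool.Agent.RX.RCN.V2L.y8_ok⟩
  oky := ⟨_, _, t3z8_ok, t3j8_ok, t3i8_ok⟩
  oks := ⟨_, _, by rw [Yl.ok, t3y8_okA, t3y8_okB, t3y8_okC]; rfl⟩
  okk := ⟨_, _, Pool.Agent.RX.RCN.V2L.k8_ok⟩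
  z := by decide +kernel
  dl := by decide +kernel
  zs := by decide +kernel
  dls := by decide +kernel
  b := by decide +kernel
  bs := by decide +kernel
  fx := fxP (by decide +kernel) (by decide +kernel) (by decide +kernel) (by decide +kernel) (by decide +kernel) (by decide +kernel) (by decide +kernel) (by decide +kernel) (by decide +kernel)
  fxs := fxS (by decide +kernel) (by decide +kernel) (by decide +kernel) (by decide +kernel) (by decide +kernel) (by decide +kernel) (by decide +kernel) (by decide +kernel) (by decide +kernel)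

theorem t3l9 : XsW Pool.Agent.RX.RCN.V2L.y9 t3z9 t3j9 t3i9 t3y9 Pool.Agent.RX.RCN.V2L.k9 where
  ok := ⟨_, _, Pool.Agent.RX.RCN.V2L.y9_ok⟩
  oky := ⟨_, _, t3z9_ok, t3j9_ok, t3i9_ok⟩
  oks := ⟨_, _, by rw [Yl.ok, t3y9_okA, t3y9_okB, t3y9_okC]; rfl⟩
  okk := ⟨_, _, Pool.Agent.RX.RCN.V2L.k9_ok⟩
  z := by decide +kernel
  dl := by decide +kernel
  zs := by decide +kernel
  dls := by decide +kernel
  b := by decide +kernel
  bs := by decide +kernel
  fx := fxP (by decide +kernel) (by decide +kernel) (by decide +kernel) (by decide +kernel) (by decide +kernel) (by decide +kernel) (by decide +kernel) (by decide +kernel) (by decide +kernel)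
  fxs := fxS (by decide +kernel) (by decide +kernel) (by decide +kernel) (by decide +kernel) (by decide +kernel) (by decide +kernel) (by decide +kernel) (by decide +kernel) (by decide +kernel)

theorem t3l10 : XsW Pool.Agent.RX.RCN.V2L.y10 t3z10 t3j10 t3i10 t3y10 Pool.Agent.RX.RCN.V2L.k10 where
  ok := ⟨_, _, Pool.Agent.RX.RCN.V2L.y10_ok⟩
  oky := ⟨_, _, t3z10_ok, t3j10_ok, t3i10_ok⟩
  oks := ⟨_, _, by rw [Yl.ok, t3y10_okA, t3y10_okB, t3y10_okC]; rfl⟩
  okk := ⟨_, _, Pool.Agent.RX.RCN.V2L.k10_ok⟩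
  z := by decide +kernel
  dl := by decide +kernel
  zs := by decide +kernel
  dls := by decide +kernel
  b := by decide +kernel
  bs := by decide +kernel
  fx := fxP (by decide +kernel) (by decide +kernel) (by decide +kernel) (by decide +kernel) (by decide +kernel) (by decide +kernel) (by decide +kernel) (by decide +kernel) (by decide +kernel)
  fxs := fxS (by decide +kernel) (by decide +kernel) (by decide +kernel) (by decide +kernel) (by decide +kernel) (by decide +kernel) (by decide +kernel) (by decide +kernel) (by decide +kernel)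

theorem t3l11 : XsW Pool.Agent.RX.RCN.V2L.y11 t3z11 t3j11 t3i11 t3y11 Pool.Agent.RX.RCN.V2L.k11 where
  ok := ⟨_, _, Pool.Agent.RX.RCN.V2L.y11_ok⟩
  oky := ⟨_, _, t3z11_ok, t3j11_ok, t3i11_ok⟩
  oks := ⟨_, _, by rw [Yl.ok, t3y11_okA, t3y11_okB, t3y11_okC]; rfl⟩
  okk := ⟨_, _, Pool.Agent.RX.RCN.V2L.k11_ok⟩
  z := by decide +kernel
  dl := by decide +kernel
  zs := by decide +kernel
  dls := by decide +kernel
  b := by decide +kernel
  bs := by decide +kernel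
  fx := fxP (by decide +kernel) (by decide +kernel) (by decide +kernel) (by decide +kernel) (by decide +kernel) (by decide +kernel) (by decide +kernel) (by decide +kernel) (by decide +kernel)
  fxs := fxS (by decide +kernel) (by decide +kernel) (by decide +kernel) (by decide +kernel) (by decide +kernel) (by decide +kernel) (by decide +kernel) (by decide +kernel) (by decide +kernel)

theorem t3l12 : XsW Pool.Agent.RX.RCN.V2L.y12 t3z12 t3j12 t3i12 t3y12 Pool.Agent.RX.RCN.V2L.k12 where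
  ok := ⟨_, _, Pool.Agent.RX.RCN.V2L.y12_ok⟩
  oky := ⟨_, _, t3z12_ok, t3j12_ok, t3i12_ok⟩
  oks := ⟨_, _, by rw [Yl.ok, t3y12_okA, t3y12_okB, t3y12_okC]; rfl⟩
  okk := ⟨_, _, Pool.Agent.RX.RCN.V2L.k12_ok⟩
  z := by decide +kernel
  dl := by decide +kernel
  zs := by decide +kernel
  dls := by decide +kernel
  b := by decide +kernel
  bs := by decide +kernel
  fx := fxP (by decide +kernel) (by decide +kernel) (by decide +kernel) (by decide +kernel) (by decide +kernel) (by decide +kernel) (by decide +kernel) (by decide +kernel) (by decide +kernel)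
  fxs := fxS (by decide +kernel) (by decide +kernel) (by decide +kernel) (by decide +kernel) (by decide +kernel) (by decide +kernel) (by decide +kernel) (by decide +kernel) (by decide +kernel)

theorem t3l13 : XsW Pool.Agent.RX.RCN.V2L.y13 t3z13 t3j13 t3i13 t3y13 Pool.Agent.RX.RCN.V2L.k13 where
  ok := ⟨_, _, Pool.Agent.RX.RCN.V2L.y13_ok⟩
  oky := ⟨_, _, t3z13_ok, t3j13_ok, t3i13_ok⟩
  oks := ⟨_, _, by rw [Yl.ok, t3y13_okA, t3y13_okB, t3y13_okC]; rfl⟩
  okk := ⟨_, _, Pool.Agent.RX.RCN.V2L.k13_ok⟩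
  z := by decide +kernel
  dl := by decide +kernel
  zs := by decide +kernel
  dls := by decide +kernel
  b := by decide +kernel
  bs := by decide +kernel
  fx := fxP (by decide +kernel) (by decide +kernel) (by decide +kernel) (by decide +kernel) (by decide +kernel) (by decide +kernel) (by decide +kernel) (by decide +kernel) (by decide +kernel)
  fxs := fxS (by decide +kernel) (by decide +kernel) (by decide +kernel) (by decide +kernel) (by decide +kernel) (by decide +kernel) (by decide +kernel) (by decide +kernel) (by decide +kernel)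

theorem t3l14 : XsW Pool.Agent.RX.RCN.V2L.y14 t3z14 t3j14 t3i14 t3y14 Pool.Agent.RX.RCN.V2L.k14 where
  ok := ⟨_, _, Pool.Agent.RX.RCN.V2L.y14_ok⟩
  oky := ⟨_, _, t3z14_ok, t3j14_ok, t3i14_ok⟩
  oks := ⟨_, _, by rw [Yl.ok, t3y14_okA, t3y14_okB, t3y14_okC]; rfl⟩
  okk := ⟨_, _, Pool.Agent.RX.RCN.V2L.k14_ok⟩
  z := by decide +kernel
  dl := by decide +kernel
  zs := by decide +kernel
  dls := by decide +kernel
  b := by decide +kernel
  bs := by decide +kernel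
  fx := fxP (by decide +kernel) (by decide +kernel) (by decide +kernel) (by decide +kernel) (by decide +kernel) (by decide +kernel) (by decide +kernel) (by decide +kernel) (by decide +kernel)
  fxs := fxS (by decide +kernel) (by decide +kernel) (by decide +kernel) (by decide +kernel) (by decide +kernel) (by decide +kernel) (by decide +kernel) (by decide +kernel) (by decide +kernel)

theorem t3l15 : XsW Pool.Agent.RX.RCN.V2L.y15 t3z15 t3j15 t3i15 t3y15 Pool.Agent.RX.RCN.V2L.k15 where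
  ok := ⟨_, _, Pool.Agent.RX.RCN.V2L.y15_ok⟩
  oky := ⟨_, _, t3z15_ok, t3j15_ok, t3i15_ok⟩
  oks := ⟨_, _, by rw [Yl.ok, t3y15_okA, t3y15_okB, t3y15_okC]; rfl⟩
  okk := ⟨_, _, Pool.Agent.RX.RCN.V2L.k15_ok⟩
  z := by decide +kernel
  dl := by decide +kernel
  zs := by decide +kernel
  dls := by decide +kernel
  b := by decide +kernel
  bs := by decide +kernel
  fx := fxP (by decide +kernel) (by decide +kernel) (by decide +kernel) (by decide +kernel) (by decide +kernel) (by decide +kernel) (by decide +kernel) (by decide +kernel) (by decide +kernel)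
  fxs := fxS (by decide +kernel) (by decide +kernel) (by decide +kernel) (by decide +kernel) (by decide +kernel) (by decide +kernel) (by decide +kernel) (by decide +kernel) (by decide +kernel)

theorem t3l16 : XsW Pool.Agent.RX.RCN.V2L.y16 t3z16 t3j16 t3i16 t3y16 Pool.Agent.RX.RCN.V2L.k16 where
  ok := ⟨_, _, Pool.Agent.RX.RCN.V2L.y16_ok⟩
  oky := ⟨_, _, t3z16_ok, t3j16_ok, t3i16_ok⟩
  oks := ⟨_, _, by rw [Yl.ok, t3y16_okA, t3y16_okB, t3y16_okC]; rfl⟩
  okk := ⟨_, _, Pool.Agent.RX.RCN.V2L.k16_ok⟩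
  z := by decide +kernel
  dl := by decide +kernel
  zs := by decide +kernel
  dls := by decide +kernel
  b := by decide +kernel
  bs := by decide +kernel
  fx := fxP (by decide +kernel) (by decide +kernel) (by decide +kernel) (by decide +kernel) (by decide +kernel) (by decide +kernel) (by decide +kernel) (by decide +kernel) (by decide +kernel)
  fxs := fxS (by decide +kernel) (by decide +kernel) (by decide +kernel) (by decide +kernel) (by decide +kernel) (by decide +kernel) (by decide +kernel) (by decide +kernel) (by decide +kernel)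

theorem t3l17 : XsW Pool.Agent.RX.RCN.V2L.y17 t3z17 t3j17 t3i17 t3y17 Pool.Agent.RX.RCN.V2L.k17 where
  ok := ⟨_, _, Pool.Agent.RX.RCN.V2L.y17_ok⟩
  oky := ⟨_, _, t3z17_ok, t3j17_ok, t3i17_ok⟩
  oks := ⟨_, _, by rw [Yl.ok, t3y17_okA, t3y17_okB, t3y17_okC]; rfl⟩
  okk := ⟨_, _, Pool.Agent.RX.RCN.V2L.k17_ok⟩
  z := by decide +kernel
  dl := by decide +kernel
  zs := by decide +kernel
  dls := by decide +kernel
  b := by decide +kernel
  bs := by decide +kernel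
  fx := fxP (by decide +kernel) (by decide +kernel) (by decide +kernel) (by decide +kernel) (by decide +kernel) (by decide +kernel) (by decide +kernel) (by decide +kernel) (by decide +kernel)
  fxs := fxS (by decide +kernel) (by decide +kernel) (by decide +kernel) (by decide +kernel) (by decide +kernel) (by decide +kernel) (by decide +kernel) (by decide +kernel) (by decide +kernel)

theorem t3l18 : XsW Pool.Agent.RX.RCN.V2L.y18 t3z18 t3j18 t3i18 t3y18 Pool.Agent.RX.RCN.V2L.k18 where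
  ok := ⟨_, _, Pool.Agent.RX.RCN.V2L.y18_ok⟩
  oky := ⟨_, _, t3z18_ok, t3j18_ok, t3i18_ok⟩
  oks := ⟨_, _, by rw [Yl.ok, t3y18_okA, t3y18_okB, t3y18_okC]; rfl⟩
  okk := ⟨_, _, Pool.Agent.RX.RCN.V2L.k18_ok⟩
  z := by decide +kernel
  dl := by decide +kernel
  zs := by decide +kernel
  dls := by decide +kernel
  b := by decide +kernel
  bs := by decide +kernel
  fx := fxP (by decide +kernel) (by decide +kernel) (by decide +kernel) (by decide +kernel) (by decide +kernel) (by decide +kernel) (by decide +kernel) (by decide +kernel) (by decide +kernel)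
  fxs := fxS (by decide +kernel) (by decide +kernel) (by decide +kernel) (by decide +kernel) (by decide +kernel) (by decide +kernel) (by decide +kernel) (by decide +kernel) (by decide +kernel)

theorem t3l19 : XsW Pool.Agent.RX.RCN.V2L.y19 t3z19 t3j19 t3i19 t3y19 Pool.Agent.RX.RCN.V2L.k19 where
  ok := ⟨_, _, Pool.Agent.RX.RCN.V2L.y19_ok⟩
  oky := ⟨_, _, t3z19_ok, t3j19_ok, t3i19_ok⟩
  oks := ⟨_, _, by rw [Yl.ok, t3y19_okA, t3y19_okB, t3y19_okC]; rfl⟩
  okk := ⟨_, _, Pool.Agent.RX.RCN.V2L.k19_ok⟩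
  z := by decide +kernel
  dl := by decide +kernel
  zs := by decide +kernel
  dls := by decide +kernel
  b := by decide +kernel
  bs := by decide +kernel
  fx := fxP (by decide +kernel) (by decide +kernel) (by decide +kernel) (by decide +kernel) (by decide +kernel) (by decide +kernel) (by decide +kernel) (by decide +kernel) (by decide +kernel)
  fxs := fxS (by decide +kernel) (by decide +kernel) (by decide +kernel) (by decide +kernel) (by decide +kernel) (by decide +kernel) (by decide +kernel) (by decide +kernel) (by decide +kernel)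

theorem t3l20 : XsW Pool.Agent.RX.RCN.V2L.y20 t3z20 t3j20 t3i20 t3y20 Pool.Agent.RX.RCN.V2L.k20 where
  ok := ⟨_, _, Pool.Agent.RX.RCN.V2L.y20_ok⟩
  oky := ⟨_, _, t3z20_ok, t3j20_ok, t3i20_ok⟩
  oks := ⟨_, _, by rw [Yl.ok, t3y20_okA, t3y20_okB, t3y20_okC]; rfl⟩
  okk := ⟨_, _, Pool.Agent.RX.RCN.V2L.k20_ok⟩
  z := by decide +kernel
  dl := by decide +kernel
  zs := by decide +kernel
  dls := by decide +kernel
  b := by decide +kernel
  bs := by decide +kernel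
  fx := fxP (by decide +kernel) (by decide +kernel) (by decide +kernel) (by decide +kernel) (by decide +kernel) (by decide +kernel) (by decide +kernel) (by decide +kernel) (by decide +kernel)
  fxs := fxS (by decide +kernel) (by decide +kernel) (by decide +kernel) (by decide +kernel) (by decide +kernel) (by decide +kernel) (by decide +kernel) (by decide +kernel) (by decide +kernel)

theorem t3l21 : XsW Pool.Agent.RX.RCN.V2L.y21 t3z21 t3j21 t3i21 t3y21 Pool.Agent.RX.RCN.V2L.k21 where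
  ok := ⟨_, _, Pool.Agent.RX.RCN.V2L.y21_ok⟩
  oky := ⟨_, _, t3z21_ok, t3j21_ok, t3i21_ok⟩
  oks := ⟨_, _, by rw [Yl.ok, t3y21_okA, t3y21_okB, t3y21_okC]; rfl⟩
  okk := ⟨_, _, Pool.Agent.RX.RCN.V2L.k21_ok⟩
  z := by decide +kernel
  dl := by decide +kernel
  zs := by decide +kernel
  dls := by decide +kernel
  b := by decide +kernel
  bs := by decide +kernel
  fx := fxP (by decide +kernel) (by decide +kernel) (by decide +kernel) (by decide +kernel) (by decide +kernel) (by decide +kernel) (by decide +kernel) (by decide +kernel) (by decide +kernel)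
  fxs := fxS (by decide +kernel) (by decide +kernel) (by decide +kernel) (by decide +kernel) (by decide +kernel) (by decide +kernel) (by decide +kernel) (by decide +kernel) (by decide +kernel)

theorem t3l22 : XsW Pool.Agent.RX.RCN.V2L.y22 t3z22 t3j22 t3i22 t3y22 Pool.Agent.RX.RCN.V2L.k22 where
  ok := ⟨_, _, Pool.Agent.RX.RCN.V2L.y22_ok⟩
  oky := ⟨_, _, t3z22_ok, t3j22_ok, t3i22_ok⟩
  oks := ⟨_, _, by rw [Yl.ok, t3y22_okA, t3y22_okB, t3y22_okC]; rfl⟩
  okk := ⟨_, _, Pool.Agent.RX.RCN.V2L.k22_ok⟩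
  z := by decide +kernel
  dl := by decide +kernel
  zs := by decide +kernel
  dls := by decide +kernel
  b := by decide +kernel
  bs := by decide +kernel
  fx := fxP (by decide +kernel) (by decide +kernel) (by decide +kernel) (by decide +kernel) (by decide +kernel) (by decide +kernel) (by decide +kernel) (by decide +kernel) (by decide +kernel)
  fxs := fxS (by decide +kernel) (by decide +kernel) (by decide +kernel) (by decide +kernel) (by decide +kernel) (by decide +kernel) (by decide +kernel) (by decide +kernel) (by decide +kernel)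

theorem t3l23 : XsW Pool.Agent.RX.RCN.V2L.y23 t3z23 t3j23 t3i23 t3y23 Pool.Agent.RX.RCN.V2L.k23 where
  ok := ⟨_, _, Pool.Agent.RX.RCN.V2L.y23_ok⟩
  oky := ⟨_, _, t3z23_ok, t3j23_ok, t3i23_ok⟩
  oks := ⟨_, _, by rw [Yl.ok, t3y23_okA, t3y23_okB, t3y23_okC]; rfl⟩
  okk := ⟨_, _, Pool.Agent.RX.RCN.V2L.k23_ok⟩
  z := by decide +kernel
  dl := by decide +kernel
  zs := by decide +kernel
  dls := by decide +kernel
  b := by decide +kernel
  bs := by decide +kernel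
  fx := fxP (by decide +kernel) (by decide +kernel) (by decide +kernel) (by decide +kernel) (by decide +kernel) (by decide +kernel) (by decide +kernel) (by decide +kernel) (by decide +kernel)
  fxs := fxS (by decide +kernel) (by decide +kernel) (by decide +kernel) (by decide +kernel) (by decide +kernel) (by decide +kernel) (by decide +kernel) (by decide +kernel) (by decide +kernel)

theorem t3l24 : XsW Pool.Agent.RX.RCN.V2L.y24 t3z24 t3j24 t3i24 t3y24 Pool.Agent.RX.RCN.V2L.k24 where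
  ok := ⟨_, _, Pool.Agent.RX.RCN.V2L.y24_ok⟩
  oky := ⟨_, _, t3z24_ok, t3j24_ok, t3i24_ok⟩
  oks := ⟨_, _, by rw [Yl.ok, t3y24_okA, t3y24_okB, t3y24_okC]; rfl⟩
  okk := ⟨_, _, Pool.Agent.RX.RCN.V2L.k24_ok⟩
  z := by decide +kernel
  dl := by decide +kernel
  zs := by decide +kernel
  dls := by decide +kernel
  b := by decide +kernel
  bs := by decide +kernel
  fx := fxP (by decide +kernel) (by decide +kernel) (by decide +kernel) (by decide +kernel) (by decide +kernel) (by decide +kernel) (by decide +kernel) (by decide +kernel) (by decide +kernel)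
  fxs := fxS (by decide +kernel) (by decide +kernel) (by decide +kernel) (by decide +kernel) (by decide +kernel) (by decide +kernel) (by decide +kernel) (by decide +kernel) (by decide +kernel)

theorem t3l25 : XsW Pool.Agent.RX.RCN.V2L.y25 t3z25 t3j25 t3i25 t3y25 Pool.Agent.RX.RCN.V2L.k25 where
  ok := ⟨_, _, Pool.Agent.RX.RCN.V2L.y25_ok⟩
  oky := ⟨_, _, t3z25_ok, t3j25_ok, t3i25_ok⟩
  oks := ⟨_, _, by rw [Yl.ok, t3y25_okA, t3y25_okB, t3y25_okC]; rfl⟩
  okk := ⟨_, _, Pool.Agent.RX.RCN.V2L.k25_ok⟩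
  z := by decide +kernel
  dl := by decide +kernel
  zs := by decide +kernel
  dls := by decide +kernel
  b := by decide +kernel
  bs := by decide +kernel
  fx := fxP (by decide +kernel) (by decide +kernel) (by decide +kernel) (by decide +kernel) (by decide +kernel) (by decide +kernel) (by decide +kernel) (by decide +kernel) (by decide +kernel)
  fxs := fxS (by decide +kernel) (by decide +kernel) (by decide +kernel) (by decide +kernel) (by decide +kernel) (by decide +kernel) (by decide +kernel) (by decide +kernel) (by decide +kernel)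

theorem t3l26 : XsW Pool.Agent.RX.RCN.V2L.y26 t3z26 t3j26 t3i26 t3y26 Pool.Agent.RX.RCN.V2L.k26 where
  ok := ⟨_, _, Pool.Agent.RX.RCN.V2L.y26_ok⟩
  oky := ⟨_, _, t3z26_ok, t3j26_ok, t3i26_ok⟩
  oks := ⟨_, _, by rw [Yl.ok, t3y26_okA, t3y26_okB, t3y26_okC]; rfl⟩
  okk := ⟨_, _, Pool.Agent.RX.RCN.V2L.k26_ok⟩
  z := by decide +kernel
  dl := by decide +kernel
  zs := by decide +kernel
  dls := by decide +kernel
  b := by decide +kernel
  bs := by decide +kernel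
  fx := fxP (by decide +kernel) (by decide +kernel) (by decide +kernel) (by decide +kernel) (by decide +kernel) (by decide +kernel) (by decide +kernel) (by decide +kernel) (by decide +kernel)
  fxs := fxS (by decide +kernel) (by decide +kernel) (by decide +kernel) (by decide +kernel) (by decide +kernel) (by decide +kernel) (by decide +kernel) (by decide +kernel) (by decide +kernel)

theorem t3l27 : XsW Pool.Agent.RX.RCN.V2L.y27 t3z27 t3j27 t3i27 t3y27 Pool.Agent.RX.RCN.V2L.k27 where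
  ok := ⟨_, _, Pool.Agent.RX.RCN.V2L.y27_ok⟩
  oky := ⟨_, _, t3z27_ok, t3j27_ok, t3i27_ok⟩
  oks := ⟨_, _, by rw [Yl.ok, t3y27_okA, t3y27_okB, t3y27_okC]; rfl⟩
  okk := ⟨_, _, Pool.Agent.RX.RCN.V2L.k27_ok⟩
  z := by decide +kernel
  dl := by decide +kernel
  zs := by decide +kernel
  dls := by decide +kernel
  b := by decide +kernel
  bs := by decide +kernel
  fx := fxP (by decide +kernel) (by decide +kernel) (by decide +kernel) (by decide +kernel) (by decide +kernel) (by decide +kernel) (by decide +kernel) (by decide +kernel) (by decide +kernel)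
  fxs := fxS (by decide +kernel) (by decide +kernel) (by decide +kernel) (by decide +kernel) (by decide +kernel) (by decide +kernel) (by decide +kernel) (by decide +kernel) (by decide +kernel)

def t3w0 : T3q where
  z := ⟨t3c0, t3n0, t3e0, t3r0, t3m0, t3h0⟩
  d := t3d0
  i0 := 0
  i1 := 100

theorem t3K0 : T3K pW gW qW fW mW Pool.Agent.RX.RCM9.CertGS.Hp Pool.Agent.RX.RCM9.CertGS.Hm Pool.Agent.RX.RCM9.CertG2.GmR Pool.Agent.RX.RCM9.CertGS.HmR Pool.Agent.RX.RCN.V2L.nb Pool.Agent.RX.RCN.V2L.la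
    Pool.Agent.RX.RCN.V2L.Uo t3w0 where
  c :=
    { ok := t3k0_ok
      iq := t3q_ok
      fx := t3f_ok
      b0 := by decide +kernel
      b1 := by decide +kernel
      kc := rfl
      ke := rfl
      mb := rfl
      w := t3k0_w
      xn := t3k0_xn
      xr := t3k0_xr
      fin := t3k0_fin }
  k := t3GR_eq ▸ t3HR_eq ▸ t3k0_X
  l := XsW.lk (d := t3d0) t3l0 ⟨_, _, t3f0_ok⟩ (by decide +kernel)

def t3w1 : T3q where
  z := ⟨t3c1, t3n1, t3e1, t3r1, t3m1, t3h1⟩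
  d := t3d1
  i0 := 100
  i1 := 200

theorem t3K1 : T3K pW gW qW fW mW Pool.Agent.RX.RCM9.CertGS.Hp Pool.Agent.RX.RCM9.CertGS.Hm Pool.Agent.RX.RCM9.CertG2.GmR Pool.Agent.RX.RCM9.CertGS.HmR Pool.Agent.RX.RCN.V2L.nb Pool.Agent.RX.RCN.V2L.la
    Pool.Agent.RX.RCN.V2L.Uo t3w1 where
  c :=
    { ok := t3k1_ok
      iq := t3q_ok
      fx := t3f_ok
      b0 := by decide +kernel
      b1 := by decide +kernel
      kc := rfl
      ke := rfl
      mb := rfl
      w := t3k1_w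
      xn := t3k1_xn
      xr := t3k1_xr
      fin := t3k1_fin }
  k := t3GR_eq ▸ t3HR_eq ▸ t3k1_X
  l := XsW.lk (d := t3d1) t3l0 ⟨_, _, t3f1_ok⟩ (by decide +kernel)

def t3w2 : T3q where
  z := ⟨t3c2, t3n2, t3e2, t3r2, t3m2, t3h2⟩
  d := t3d2
  i0 := 200
  i1 := 300

theorem t3K2 : T3K pW gW qW fW mW Pool.Agent.RX.RCM9.CertGS.Hp Pool.Agent.RX.RCM9.CertGS.Hm Pool.Agent.RX.RCM9.CertG2.GmR Pool.Agent.RX.RCM9.CertGS.HmR Pool.Agent.RX.RCN.V2L.nb Pool.Agent.RX.RCN.V2L.la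
    Pool.Agent.RX.RCN.V2L.Uo t3w2 where
  c :=
    { ok := t3k2_ok
      iq := t3q_ok
      fx := t3f_ok
      b0 := by decide +kernel
      b1 := by decide +kernel
      kc := rfl
      ke := rfl
      mb := rfl
      w := t3k2_w
      xn := t3k2_xn
      xr := t3k2_xr
      fin := t3k2_fin }
  k := t3GR_eq ▸ t3HR_eq ▸ t3k2_X
  l := XsW.lk (d := t3d2) t3l0 ⟨_, _, t3f2_ok⟩ (by decide +kernel)

def t3w3 : T3q where
  z := ⟨t3c3, t3n3, t3e3, t3r3, t3m3, t3h3⟩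
  d := t3d3
  i0 := 300
  i1 := 400

theorem t3K3 : T3K pW gW qW fW mW Pool.Agent.RX.RCM9.CertGS.Hp Pool.Agent.RX.RCM9.CertGS.Hm Pool.Agent.RX.RCM9.CertG2.GmR Pool.Agent.RX.RCM9.CertGS.HmR Pool.Agent.RX.RCN.V2L.nb Pool.Agent.RX.RCN.V2L.la
    Pool.Agent.RX.RCN.V2L.Uo t3w3 where
  c :=
    { ok := t3k3_ok
      iq := t3q_ok
      fx := t3f_ok
      b0 := by decide +kernel
      b1 := by decide +kernel
      kc := rfl
      ke := rfl
      mb := rfl
      w := t3k3_w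
      xn := t3k3_xn
      xr := t3k3_xr
      fin := t3k3_fin }
  k := t3GR_eq ▸ t3HR_eq ▸ t3k3_X
  l := XsW.lk (d := t3d3) t3l0 ⟨_, _, t3f3_ok⟩ (by decide +kernel)

def t3w4 : T3q where
  z := ⟨t3c4, t3n4, t3e4, t3r4, t3m4, t3h4⟩
  d := t3d4
  i0 := 400
  i1 := 450

theorem t3K4 : T3K pW gW qW fW mW Pool.Agent.RX.RCM9.CertGS.Hp Pool.Agent.RX.RCM9.CertGS.Hm Pool.Agent.RX.RCM9.CertG2.GmR Pool.Agent.RX.RCM9.CertGS.HmR Pool.Agent.RX.RCN.V2L.nb Pool.Agent.RX.RCN.V2L.la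
    Pool.Agent.RX.RCN.V2L.Uo t3w4 where
  c :=
    { ok := t3k4_ok
      iq := t3q_ok
      fx := t3f_ok
      b0 := by decide +kernel
      b1 := by decide +kernel
      kc := rfl
      ke := rfl
      mb := rfl
      w := t3k4_w
      xn := t3k4_xn
      xr := t3k4_xr
      fin := t3k4_fin }
  k := t3GR_eq ▸ t3HR_eq ▸ t3k4_X
  l := XsW.lk (d := t3d4) t3l1 ⟨_, _, t3f4_ok⟩ (by decide +kernel)

def t3w5 : T3q where
  z := ⟨t3c5, t3n5, t3e5, t3r5, t3m5, t3h5⟩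
  d := t3d5
  i0 := 450
  i1 := 500

theorem t3K5 : T3K pW gW qW fW mW Pool.Agent.RX.RCM9.CertGS.Hp Pool.Agent.RX.RCM9.CertGS.Hm Pool.Agent.RX.RCM9.CertG2.GmR Pool.Agent.RX.RCM9.CertGS.HmR Pool.Agent.RX.RCN.V2L.nb Pool.Agent.RX.RCN.V2L.la
    Pool.Agent.RX.RCN.V2L.Uo t3w5 where
  c :=
    { ok := t3k5_ok
      iq := t3q_ok
      fx := t3f_ok
      b0 := by decide +kernel
      b1 := by decide +kernel
      kc := rfl
      ke := rfl
      mb := rfl
      w := t3k5_w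
      xn := t3k5_xn
      xr := t3k5_xr
      fin := t3k5_fin }
  k := t3GR_eq ▸ t3HR_eq ▸ t3k5_X
  l := XsW.lk (d := t3d5) t3l1 ⟨_, _, t3f5_ok⟩ (by decide +kernel)

def t3w6 : T3q where
  z := ⟨t3c6, t3n6, t3e6, t3r6, t3m6, t3h6⟩
  d := t3d6
  i0 := 500
  i1 := 530

theorem t3K6 : T3K pW gW qW fW mW Pool.Agent.RX.RCM9.CertGS.Hp Pool.Agent.RX.RCM9.CertGS.Hm Pool.Agent.RX.RCM9.CertG2.GmR Pool.Agent.RX.RCM9.CertGS.HmR Pool.Agent.RX.RCN.V2L.nb Pool.Agent.RX.RCN.V2L.la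
    Pool.Agent.RX.RCN.V2L.Uo t3w6 where
  c :=
    { ok := t3k6_ok
      iq := t3q_ok
      fx := t3f_ok
      b0 := by decide +kernel
      b1 := by decide +kernel
      kc := rfl
      ke := rfl
      mb := rfl
      w := t3k6_w
      xn := t3k6_xn
      xr := t3k6_xr
      fin := t3k6_fin }
  k := t3GR_eq ▸ t3HR_eq ▸ t3k6_X
  l := XsW.lk (d := t3d6) t3l2 ⟨_, _, t3f6_ok⟩ (by decide +kernel)

def t3w7 : T3q where
  z := ⟨t3c7, t3n7, t3e7, t3r7, t3m7, t3h7⟩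
  d := t3d7
  i0 := 530
  i1 := 560

theorem t3K7 : T3K pW gW qW fW mW Pool.Agent.RX.RCM9.CertGS.Hp Pool.Agent.RX.RCM9.CertGS.Hm Pool.Agent.RX.RCM9.CertG2.GmR Pool.Agent.RX.RCM9.CertGS.HmR Pool.Agent.RX.RCN.V2L.nb Pool.Agent.RX.RCN.V2L.la
    Pool.Agent.RX.RCN.V2L.Uo t3w7 where
  c :=
    { ok := t3k7_ok
      iq := t3q_ok
      fx := t3f_ok
      b0 := by decide +kernel
      b1 := by decide +kernel
      kc := rfl
      ke := rfl
      mb := rfl
      w := t3k7_w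
      xn := t3k7_xn
      xr := t3k7_xr
      fin := t3k7_fin }
  k := t3GR_eq ▸ t3HR_eq ▸ t3k7_X
  l := XsW.lk (d := t3d7) t3l2 ⟨_, _, t3f7_ok⟩ (by decide +kernel)

def t3w8 : T3q where
  z := ⟨t3c8, t3n8, t3e8, t3r8, t3m8, t3h8⟩
  d := t3d8
  i0 := 560
  i1 := 580

theorem t3K8 : T3K pW gW qW fW mW Pool.Agent.RX.RCM9.CertGS.Hp Pool.Agent.RX.RCM9.CertGS.Hm Pool.Agent.RX.RCM9.CertG2.GmR Pool.Agent.RX.RCM9.CertGS.HmR Pool.Agent.RX.RCN.V2L.nb Pool.Agent.RX.RCN.V2L.la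
    Pool.Agent.RX.RCN.V2L.Uo t3w8 where
  c :=
    { ok := t3k8_ok
      iq := t3q_ok
      fx := t3f_ok
      b0 := by decide +kernel
      b1 := by decide +kernel
      kc := rfl
      ke := rfl
      mb := rfl
      w := t3k8_w
      xn := t3k8_xn
      xr := t3k8_xr
      fin := t3k8_fin }
  k := t3GR_eq ▸ t3HR_eq ▸ t3k8_X
  l := XsW.lk (d := t3d8) t3l3 ⟨_, _, t3f8_ok⟩ (by decide +kernel)

def t3w9 : T3q where
  z := ⟨t3c9, t3n9, t3e9, t3r9, t3m9, t3h9⟩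
  d := t3d9
  i0 := 580
  i1 := 600

theorem t3K9 : T3K pW gW qW fW mW Pool.Agent.RX.RCM9.CertGS.Hp Pool.Agent.RX.RCM9.CertGS.Hm Pool.Agent.RX.RCM9.CertG2.GmR Pool.Agent.RX.RCM9.CertGS.HmR Pool.Agent.RX.RCN.V2L.nb Pool.Agent.RX.RCN.V2L.la
    Pool.Agent.RX.RCN.V2L.Uo t3w9 where
  c :=
    { ok := t3k9_ok
      iq := t3q_ok
      fx := t3f_ok
      b0 := by decide +kernel
      b1 := by decide +kernel
      kc := rfl
      ke := rfl
      mb := rfl
      w := t3k9_w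
      xn := t3k9_xn
      xr := t3k9_xr
      fin := t3k9_fin }
  k := t3GR_eq ▸ t3HR_eq ▸ t3k9_X
  l := XsW.lk (d := t3d9) t3l3 ⟨_, _, t3f9_ok⟩ (by decide +kernel)

def t3w10 : T3q where
  z := ⟨t3c10, t3n10, t3e10, t3r10, t3m10, t3h10⟩
  d := t3d10
  i0 := 600
  i1 := 624

theorem t3K10 : T3K pW gW qW fW mW Pool.Agent.RX.RCM9.CertGS.Hp Pool.Agent.RX.RCM9.CertGS.Hm Pool.Agent.RX.RCM9.CertG2.GmR Pool.Agent.RX.RCM9.CertGS.HmR Pool.Agent.RX.RCN.V2L.nb Pool.Agent.RX.RCN.V2L.la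
    Pool.Agent.RX.RCN.V2L.Uo t3w10 where
  c :=
    { ok := t3k10_ok
      iq := t3q_ok
      fx := t3f_ok
      b0 := by decide +kernel
      b1 := by decide +kernel
      kc := rfl
      ke := rfl
      mb := rfl
      w := t3k10_w
      xn := t3k10_xn
      xr := t3k10_xr
      fin := t3k10_fin }
  k := t3GR_eq ▸ t3HR_eq ▸ t3k10_X
  l := XsW.lk (d := t3d10) t3l4 ⟨_, _, t3f10_ok⟩ (by decide +kernel)

def t3w11 : T3q where
  z := ⟨t3c11, t3n11, t3e11, t3r11, t3m11, t3h11⟩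
  d := t3d11
  i0 := 624
  i1 := 650

theorem t3K11 : T3K pW gW qW fW mW Pool.Agent.RX.RCM9.CertGS.Hp Pool.Agent.RX.RCM9.CertGS.Hm Pool.Agent.RX.RCM9.CertG2.GmR Pool.Agent.RX.RCM9.CertGS.HmR Pool.Agent.RX.RCN.V2L.nb Pool.Agent.RX.RCN.V2L.la
    Pool.Agent.RX.RCN.V2L.Uo t3w11 where
  c :=
    { ok := t3k11_ok
      iq := t3q_ok
      fx := t3f_ok
      b0 := by decide +kernel
      b1 := by decide +kernel
      kc := rfl
      ke := rfl
      mb := rfl
      w := t3k11_w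
      xn := t3k11_xn
      xr := t3k11_xr
      fin := t3k11_fin }
  k := t3GR_eq ▸ t3HR_eq ▸ t3k11_X
  l := XsW.lk (d := t3d11) t3l4 ⟨_, _, t3f11_ok⟩ (by decide +kernel)

def t3w12 : T3q where
  z := ⟨t3c12, t3n12, t3e12, t3r12, t3m12, t3h12⟩
  d := t3d12
  i0 := 650
  i1 := 664

theorem t3K12 : T3K pW gW qW fW mW Pool.Agent.RX.RCM9.CertGS.Hp Pool.Agent.RX.RCM9.CertGS.Hm Pool.Agent.RX.RCM9.CertG2.GmR Pool.Agent.RX.RCM9.CertGS.HmR Pool.Agent.RX.RCN.V2L.nb Pool.Agent.RX.RCN.V2L.la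
    Pool.Agent.RX.RCN.V2L.Uo t3w12 where
  c :=
    { ok := t3k12_ok
      iq := t3q_ok
      fx := t3f_ok
      b0 := by decide +kernel
      b1 := by decide +kernel
      kc := rfl
      ke := rfl
      mb := rfl
      w := t3k12_w
      xn := t3k12_xn
      xr := t3k12_xr
      fin := t3k12_fin }
  k := t3GR_eq ▸ t3HR_eq ▸ t3k12_X
  l := XsW.lk (d := t3d12) t3l5 ⟨_, _, t3f12_ok⟩ (by decide +kernel)

def t3w13 : T3q where
  z := ⟨t3c13, t3n13, t3e13, t3r13, t3m13, t3h13⟩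
  d := t3d13
  i0 := 664
  i1 := 680

theorem t3K13 : T3K pW gW qW fW mW Pool.Agent.RX.RCM9.CertGS.Hp Pool.Agent.RX.RCM9.CertGS.Hm Pool.Agent.RX.RCM9.CertG2.GmR Pool.Agent.RX.RCM9.CertGS.HmR Pool.Agent.RX.RCN.V2L.nb Pool.Agent.RX.RCN.V2L.la
    Pool.Agent.RX.RCN.V2L.Uo t3w13 where
  c :=
    { ok := t3k13_ok
      iq := t3q_ok
      fx := t3f_ok
      b0 := by decide +kernel
      b1 := by decide +kernel
      kc := rfl
      ke := rfl
      mb := rfl
      w := t3k13_w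
      xn := t3k13_xn
      xr := t3k13_xr
      fin := t3k13_fin }
  k := t3GR_eq ▸ t3HR_eq ▸ t3k13_X
  l := XsW.lk (d := t3d13) t3l5 ⟨_, _, t3f13_ok⟩ (by decide +kernel)

def t3w14 : T3q where
  z := ⟨t3c14, t3n14, t3e14, t3r14, t3m14, t3h14⟩
  d := t3d14
  i0 := 680
  i1 := 700

theorem t3K14 : T3K pW gW qW fW mW Pool.Agent.RX.RCM9.CertGS.Hp Pool.Agent.RX.RCM9.CertGS.Hm Pool.Agent.RX.RCM9.CertG2.GmR Pool.Agent.RX.RCM9.CertGS.HmR Pool.Agent.RX.RCN.V2L.nb Pool.Agent.RX.RCN.V2L.la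
    Pool.Agent.RX.RCN.V2L.Uo t3w14 where
  c :=
    { ok := t3k14_ok
      iq := t3q_ok
      fx := t3f_ok
      b0 := by decide +kernel
      b1 := by decide +kernel
      kc := rfl
      ke := rfl
      mb := rfl
      w := t3k14_w
      xn := t3k14_xn
      xr := t3k14_xr
      fin := t3k14_fin }
  k := t3GR_eq ▸ t3HR_eq ▸ t3k14_X
  l := XsW.lk (d := t3d14) t3l6 ⟨_, _, t3f14_ok⟩ (by decide +kernel)

def t3w15 : T3q where
  z := ⟨t3c15, t3n15, t3e15, t3r15, t3m15, t3h15⟩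
  d := t3d15
  i0 := 700
  i1 := 720

theorem t3K15 : T3K pW gW qW fW mW Pool.Agent.RX.RCM9.CertGS.Hp Pool.Agent.RX.RCM9.CertGS.Hm Pool.Agent.RX.RCM9.CertG2.GmR Pool.Agent.RX.RCM9.CertGS.HmR Pool.Agent.RX.RCN.V2L.nb Pool.Agent.RX.RCN.V2L.la
    Pool.Agent.RX.RCN.V2L.Uo t3w15 where
  c :=
    { ok := t3k15_ok
      iq := t3q_ok
      fx := t3f_ok
      b0 := by decide +kernel
      b1 := by decide +kernel
      kc := rfl
      ke := rfl
      mb := rfl
      w := t3k15_w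
      xn := t3k15_xn
      xr := t3k15_xr
      fin := t3k15_fin }
  k := t3GR_eq ▸ t3HR_eq ▸ t3k15_X
  l := XsW.lk (d := t3d15) t3l6 ⟨_, _, t3f15_ok⟩ (by decide +kernel)

def t3w16 : T3q where
  z := ⟨t3c16, t3n16, t3e16, t3r16, t3m16, t3h16⟩
  d := t3d16
  i0 := 720
  i1 := 740

theorem t3K16 : T3K pW gW qW fW mW Pool.Agent.RX.RCM9.CertGS.Hp Pool.Agent.RX.RCM9.CertGS.Hm Pool.Agent.RX.RCM9.CertG2.GmR Pool.Agent.RX.RCM9.CertGS.HmR Pool.Agent.RX.RCN.V2L.nb Pool.Agent.RX.RCN.V2L.la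
    Pool.Agent.RX.RCN.V2L.Uo t3w16 where
  c :=
    { ok := t3k16_ok
      iq := t3q_ok
      fx := t3f_ok
      b0 := by decide +kernel
      b1 := by decide +kernel
      kc := rfl
      ke := rfl
      mb := rfl
      w := t3k16_w
      xn := t3k16_xn
      xr := t3k16_xr
      fin := t3k16_fin }
  k := t3GR_eq ▸ t3HR_eq ▸ t3k16_X
  l := XsW.lk (d := t3d16) t3l7 ⟨_, _, t3f16_ok⟩ (by decide +kernel)

def t3w17 : T3q where
  z := ⟨t3c17, t3n17, t3e17, t3r17, t3m17, t3h17⟩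
  d := t3d17
  i0 := 740
  i1 := 760

theorem t3K17 : T3K pW gW qW fW mW Pool.Agent.RX.RCM9.CertGS.Hp Pool.Agent.RX.RCM9.CertGS.Hm Pool.Agent.RX.RCM9.CertG2.GmR Pool.Agent.RX.RCM9.CertGS.HmR Pool.Agent.RX.RCN.V2L.nb Pool.Agent.RX.RCN.V2L.la
    Pool.Agent.RX.RCN.V2L.Uo t3w17 where
  c :=
    { ok := t3k17_ok
      iq := t3q_ok
      fx := t3f_ok
      b0 := by decide +kernel
      b1 := by decide +kernel
      kc := rfl
      ke := rfl
      mb := rfl
      w := t3k17_w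
      xn := t3k17_xn
      xr := t3k17_xr
      fin := t3k17_fin }
  k := t3GR_eq ▸ t3HR_eq ▸ t3k17_X
  l := XsW.lk (d := t3d17) t3l7 ⟨_, _, t3f17_ok⟩ (by decide +kernel)

def t3w18 : T3q where
  z := ⟨t3c18, t3n18, t3e18, t3r18, t3m18, t3h18⟩
  d := t3d18
  i0 := 760
  i1 := 774

theorem t3K18 : T3K pW gW qW fW mW Pool.Agent.RX.RCM9.CertGS.Hp Pool.Agent.RX.RCM9.CertGS.Hm Pool.Agent.RX.RCM9.CertG2.GmR Pool.Agent.RX.RCM9.CertGS.HmR Pool.Agent.RX.RCN.V2L.nb Pool.Agent.RX.RCN.V2L.la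
    Pool.Agent.RX.RCN.V2L.Uo t3w18 where
  c :=
    { ok := t3k18_ok
      iq := t3q_ok
      fx := t3f_ok
      b0 := by decide +kernel
      b1 := by decide +kernel
      kc := rfl
      ke := rfl
      mb := rfl
      w := t3k18_w
      xn := t3k18_xn
      xr := t3k18_xr
      fin := t3k18_fin }
  k := t3GR_eq ▸ t3HR_eq ▸ t3k18_X
  l := XsW.lk (d := t3d18) t3l8 ⟨_, _, t3f18_ok⟩ (by decide +kernel)

def t3w19 : T3q where
  z := ⟨t3c19, t3n19, t3e19, t3r19, t3m19, t3h19⟩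
  d := t3d19
  i0 := 774
  i1 := 790

theorem t3K19 : T3K pW gW qW fW mW Pool.Agent.RX.RCM9.CertGS.Hp Pool.Agent.RX.RCM9.CertGS.Hm Pool.Agent.RX.RCM9.CertG2.GmR Pool.Agent.RX.RCM9.CertGS.HmR Pool.Agent.RX.RCN.V2L.nb Pool.Agent.RX.RCN.V2L.la
    Pool.Agent.RX.RCN.V2L.Uo t3w19 where
  c :=
    { ok := t3k19_ok
      iq := t3q_ok
      fx := t3f_ok
      b0 := by decide +kernel
      b1 := by decide +kernel
      kc := rfl
      ke := rfl
      mb := rfl
      w := t3k19_w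
      xn := t3k19_xn
      xr := t3k19_xr
      fin := t3k19_fin }
  k := t3GR_eq ▸ t3HR_eq ▸ t3k19_X
  l := XsW.lk (d := t3d19) t3l8 ⟨_, _, t3f19_ok⟩ (by decide +kernel)

def t3w20 : T3q where
  z := ⟨t3c20, t3n20, t3e20, t3r20, t3m20, t3h20⟩
  d := t3d20
  i0 := 790
  i1 := 804

theorem t3K20 : T3K pW gW qW fW mW Pool.Agent.RX.RCM9.CertGS.Hp Pool.Agent.RX.RCM9.CertGS.Hm Pool.Agent.RX.RCM9.CertG2.GmR Pool.Agent.RX.RCM9.CertGS.HmR Pool.Agent.RX.RCN.V2L.nb Pool.Agent.RX.RCN.V2L.la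
    Pool.Agent.RX.RCN.V2L.Uo t3w20 where
  c :=
    { ok := t3k20_ok
      iq := t3q_ok
      fx := t3f_ok
      b0 := by decide +kernel
      b1 := by decide +kernel
      kc := rfl
      ke := rfl
      mb := rfl
      w := t3k20_w
      xn := t3k20_xn
      xr := t3k20_xr
      fin := t3k20_fin }
  k := t3GR_eq ▸ t3HR_eq ▸ t3k20_X
  l := XsW.lk (d := t3d20) t3l9 ⟨_, _, t3f20_ok⟩ (by decide +kernel)

def t3w21 : T3q where
  z := ⟨t3c21, t3n21, t3e21, t3r21, t3m21, t3h21⟩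
  d := t3d21
  i0 := 804
  i1 := 820

theorem t3K21 : T3K pW gW qW fW mW Pool.Agent.RX.RCM9.CertGS.Hp Pool.Agent.RX.RCM9.CertGS.Hm Pool.Agent.RX.RCM9.CertG2.GmR Pool.Agent.RX.RCM9.CertGS.HmR Pool.Agent.RX.RCN.V2L.nb Pool.Agent.RX.RCN.V2L.la
    Pool.Agent.RX.RCN.V2L.Uo t3w21 where
  c :=
    { ok := t3k21_ok
      iq := t3q_ok
      fx := t3f_ok
      b0 := by decide +kernel
      b1 := by decide +kernel
      kc := rfl
      ke := rfl
      mb := rfl
      w := t3k21_w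
      xn := t3k21_xn
      xr := t3k21_xr
      fin := t3k21_fin }
  k := t3GR_eq ▸ t3HR_eq ▸ t3k21_X
  l := XsW.lk (d := t3d21) t3l9 ⟨_, _, t3f21_ok⟩ (by decide +kernel)

def t3w22 : T3q where
  z := ⟨t3c22, t3n22, t3e22, t3r22, t3m22, t3h22⟩
  d := t3d22
  i0 := 820
  i1 := 834

theorem t3K22 : T3K pW gW qW fW mW Pool.Agent.RX.RCM9.CertGS.Hp Pool.Agent.RX.RCM9.CertGS.Hm Pool.Agent.RX.RCM9.CertG2.GmR Pool.Agent.RX.RCM9.CertGS.HmR Pool.Agent.RX.RCN.V2L.nb Pool.Agent.RX.RCN.V2L.la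
    Pool.Agent.RX.RCN.V2L.Uo t3w22 where
  c :=
    { ok := t3k22_ok
      iq := t3q_ok
      fx := t3f_ok
      b0 := by decide +kernel
      b1 := by decide +kernel
      kc := rfl
      ke := rfl
      mb := rfl
      w := t3k22_w
      xn := t3k22_xn
      xr := t3k22_xr
      fin := t3k22_fin }
  k := t3GR_eq ▸ t3HR_eq ▸ t3k22_X
  l := XsW.lk (d := t3d22) t3l10 ⟨_, _, t3f22_ok⟩ (by decide +kernel)

def t3w23 : T3q where
  z := ⟨t3c23, t3n23, t3e23, t3r23, t3m23, t3h23⟩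
  d := t3d23
  i0 := 834
  i1 := 850

theorem t3K23 : T3K pW gW qW fW mW Pool.Agent.RX.RCM9.CertGS.Hp Pool.Agent.RX.RCM9.CertGS.Hm Pool.Agent.RX.RCM9.CertG2.GmR Pool.Agent.RX.RCM9.CertGS.HmR Pool.Agent.RX.RCN.V2L.nb Pool.Agent.RX.RCN.V2L.la
    Pool.Agent.RX.RCN.V2L.Uo t3w23 where
  c :=
    { ok := t3k23_ok
      iq := t3q_ok
      fx := t3f_ok
      b0 := by decide +kernel
      b1 := by decide +kernel
      kc := rfl
      ke := rfl
      mb := rfl
      w := t3k23_w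
      xn := t3k23_xn
      xr := t3k23_xr
      fin := t3k23_fin }
  k := t3GR_eq ▸ t3HR_eq ▸ t3k23_X
  l := XsW.lk (d := t3d23) t3l10 ⟨_, _, t3f23_ok⟩ (by decide +kernel)

def t3w24 : T3q where
  z := ⟨t3c24, t3n24, t3e24, t3r24, t3m24, t3h24⟩
  d := t3d24
  i0 := 850
  i1 := 864

theorem t3K24 : T3K pW gW qW fW mW Pool.Agent.RX.RCM9.CertGS.Hp Pool.Agent.RX.RCM9.CertGS.Hm Pool.Agent.RX.RCM9.CertG2.GmR Pool.Agent.RX.RCM9.CertGS.HmR Pool.Agent.RX.RCN.V2L.nb Pool.Agent.RX.RCN.V2L.la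
    Pool.Agent.RX.RCN.V2L.Uo t3w24 where
  c :=
    { ok := t3k24_ok
      iq := t3q_ok
      fx := t3f_ok
      b0 := by decide +kernel
      b1 := by decide +kernel
      kc := rfl
      ke := rfl
      mb := rfl
      w := t3k24_w
      xn := t3k24_xn
      xr := t3k24_xr
      fin := t3k24_fin }
  k := t3GR_eq ▸ t3HR_eq ▸ t3k24_X
  l := XsW.lk (d := t3d24) t3l11 ⟨_, _, t3f24_ok⟩ (by decide +kernel)

def t3w25 : T3q where
  z := ⟨t3c25, t3n25, t3e25, t3r25, t3m25, t3h25⟩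
  d := t3d25
  i0 := 864
  i1 := 880

theorem t3K25 : T3K pW gW qW fW mW Pool.Agent.RX.RCM9.CertGS.Hp Pool.Agent.RX.RCM9.CertGS.Hm Pool.Agent.RX.RCM9.CertG2.GmR Pool.Agent.RX.RCM9.CertGS.HmR Pool.Agent.RX.RCN.V2L.nb Pool.Agent.RX.RCN.V2L.la
    Pool.Agent.RX.RCN.V2L.Uo t3w25 where
  c :=
    { ok := t3k25_ok
      iq := t3q_ok
      fx := t3f_ok
      b0 := by decide +kernel
      b1 := by decide +kernel
      kc := rfl
      ke := rfl
      mb := rfl
      w := t3k25_w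
      xn := t3k25_xn
      xr := t3k25_xr
      fin := t3k25_fin }
  k := t3GR_eq ▸ t3HR_eq ▸ t3k25_X
  l := XsW.lk (d := t3d25) t3l11 ⟨_, _, t3f25_ok⟩ (by decide +kernel)

def t3w26 : T3q where
  z := ⟨t3c26, t3n26, t3e26, t3r26, t3m26, t3h26⟩
  d := t3d26
  i0 := 880
  i1 := 890

theorem t3K26 : T3K pW gW qW fW mW Pool.Agent.RX.RCM9.CertGS.Hp Pool.Agent.RX.RCM9.CertGS.Hm Pool.Agent.RX.RCM9.CertG2.GmR Pool.Agent.RX.RCM9.CertGS.HmR Pool.Agent.RX.RCN.V2L.nb Pool.Agent.RX.RCN.V2L.la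
    Pool.Agent.RX.RCN.V2L.Uo t3w26 where
  c :=
    { ok := t3k26_ok
      iq := t3q_ok
      fx := t3f_ok
      b0 := by decide +kernel
      b1 := by decide +kernel
      kc := rfl
      ke := rfl
      mb := rfl
      w := t3k26_w
      xn := t3k26_xn
      xr := t3k26_xr
      fin := t3k26_fin }
  k := t3GR_eq ▸ t3HR_eq ▸ t3k26_X
  l := XsW.lk (d := t3d26) t3l12 ⟨_, _, t3f26_ok⟩ (by decide +kernel)

def t3w27 : T3q where
  z := ⟨t3c27, t3n27, t3e27, t3r27, t3m27, t3h27⟩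
  d := t3d27
  i0 := 890
  i1 := 900

theorem t3K27 : T3K pW gW qW fW mW Pool.Agent.RX.RCM9.CertGS.Hp Pool.Agent.RX.RCM9.CertGS.Hm Pool.Agent.RX.RCM9.CertG2.GmR Pool.Agent.RX.RCM9.CertGS.HmR Pool.Agent.RX.RCN.V2L.nb Pool.Agent.RX.RCN.V2L.la
    Pool.Agent.RX.RCN.V2L.Uo t3w27 where
  c :=
    { ok := t3k27_ok
      iq := t3q_ok
      fx := t3f_ok
      b0 := by decide +kernel
      b1 := by decide +kernel
      kc := rfl
      ke := rfl
      mb := rfl
      w := t3k27_w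
      xn := t3k27_xn
      xr := t3k27_xr
      fin := t3k27_fin }
  k := t3GR_eq ▸ t3HR_eq ▸ t3k27_X
  l := XsW.lk (d := t3d27) t3l12 ⟨_, _, t3f27_ok⟩ (by decide +kernel)

def t3w28 : T3q where
  z := ⟨t3c28, t3n28, t3e28, t3r28, t3m28, t3h28⟩
  d := t3d28
  i0 := 900
  i1 := 910

theorem t3K28 : T3K pW gW qW fW mW Pool.Agent.RX.RCM9.CertGS.Hp Pool.Agent.RX.RCM9.CertGS.Hm Pool.Agent.RX.RCM9.CertG2.GmR Pool.Agent.RX.RCM9.CertGS.HmR Pool.Agent.RX.RCN.V2L.nb Pool.Agent.RX.RCN.V2L.la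
    Pool.Agent.RX.RCN.V2L.Uo t3w28 where
  c :=
    { ok := t3k28_ok
      iq := t3q_ok
      fx := t3f_ok
      b0 := by decide +kernel
      b1 := by decide +kernel
      kc := rfl
      ke := rfl
      mb := rfl
      w := t3k28_w
      xn := t3k28_xn
      xr := t3k28_xr
      fin := t3k28_fin }
  k := t3GR_eq ▸ t3HR_eq ▸ t3k28_X
  l := XsW.lk (d := t3d28) t3l13 ⟨_, _, t3f28_ok⟩ (by decide +kernel)

def t3w29 : T3q where
  z := ⟨t3c29, t3n29, t3e29, t3r29, t3m29, t3h29⟩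
  d := t3d29
  i0 := 910
  i1 := 920

theorem t3K29 : T3K pW gW qW fW mW Pool.Agent.RX.RCM9.CertGS.Hp Pool.Agent.RX.RCM9.CertGS.Hm Pool.Agent.RX.RCM9.CertG2.GmR Pool.Agent.RX.RCM9.CertGS.HmR Pool.Agent.RX.RCN.V2L.nb Pool.Agent.RX.RCN.V2L.la
    Pool.Agent.RX.RCN.V2L.Uo t3w29 where
  c :=
    { ok := t3k29_ok
      iq := t3q_ok
      fx := t3f_ok
      b0 := by decide +kernel
      b1 := by decide +kernel
      kc := rfl
      ke := rfl
      mb := rfl
      w := t3k29_w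
      xn := t3k29_xn
      xr := t3k29_xr
      fin := t3k29_fin }
  k := t3GR_eq ▸ t3HR_eq ▸ t3k29_X
  l := XsW.lk (d := t3d29) t3l13 ⟨_, _, t3f29_ok⟩ (by decide +kernel)

def t3w30 : T3q where
  z := ⟨t3c30, t3n30, t3e30, t3r30, t3m30, t3h30⟩
  d := t3d30
  i0 := 920
  i1 := 930

theorem t3K30 : T3K pW gW qW fW mW Pool.Agent.RX.RCM9.CertGS.Hp Pool.Agent.RX.RCM9.CertGS.Hm Pool.Agent.RX.RCM9.CertG2.GmR Pool.Agent.RX.RCM9.CertGS.HmR Pool.Agent.RX.RCN.V2L.nb Pool.Agent.RX.RCN.V2L.la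
    Pool.Agent.RX.RCN.V2L.Uo t3w30 where
  c :=
    { ok := t3k30_ok
      iq := t3q_ok
      fx := t3f_ok
      b0 := by decide +kernel
      b1 := by decide +kernel
      kc := rfl
      ke := rfl
      mb := rfl
      w := t3k30_w
      xn := t3k30_xn
      xr := t3k30_xr
      fin := t3k30_fin }
  k := t3GR_eq ▸ t3HR_eq ▸ t3k30_X
  l := XsW.lk (d := t3d30) t3l14 ⟨_, _, t3f30_ok⟩ (by decide +kernel)

def t3w31 : T3q where
  z := ⟨t3c31, t3n31, t3e31, t3r31, t3m31, t3h31⟩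
  d := t3d31
  i0 := 930
  i1 := 940

theorem t3K31 : T3K pW gW qW fW mW Pool.Agent.RX.RCM9.CertGS.Hp Pool.Agent.RX.RCM9.CertGS.Hm Pool.Agent.RX.RCM9.CertG2.GmR Pool.Agent.RX.RCM9.CertGS.HmR Pool.Agent.RX.RCN.V2L.nb Pool.Agent.RX.RCN.V2L.la
    Pool.Agent.RX.RCN.V2L.Uo t3w31 where
  c :=
    { ok := t3k31_ok
      iq := t3q_ok
      fx := t3f_ok
      b0 := by decide +kernel
      b1 := by decide +kernel
      kc := rfl
      ke := rfl
      mb := rfl
      w := t3k31_w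
      xn := t3k31_xn
      xr := t3k31_xr
      fin := t3k31_fin }
  k := t3GR_eq ▸ t3HR_eq ▸ t3k31_X
  l := XsW.lk (d := t3d31) t3l14 ⟨_, _, t3f31_ok⟩ (by decide +kernel)

def t3w32 : T3q where
  z := ⟨t3c32, t3n32, t3e32, t3r32, t3m32, t3h32⟩
  d := t3d32
  i0 := 940
  i1 := 950

theorem t3K32 : T3K pW gW qW fW mW Pool.Agent.RX.RCM9.CertGS.Hp Pool.Agent.RX.RCM9.CertGS.Hm Pool.Agent.RX.RCM9.CertG2.GmR Pool.Agent.RX.RCM9.CertGS.HmR Pool.Agent.RX.RCN.V2L.nb Pool.Agent.RX.RCN.V2L.la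
    Pool.Agent.RX.RCN.V2L.Uo t3w32 where
  c :=
    { ok := t3k32_ok
      iq := t3q_ok
      fx := t3f_ok
      b0 := by decide +kernel
      b1 := by decide +kernel
      kc := rfl
      ke := rfl
      mb := rfl
      w := t3k32_w
      xn := t3k32_xn
      xr := t3k32_xr
      fin := t3k32_fin }
  k := t3GR_eq ▸ t3HR_eq ▸ t3k32_X
  l := XsW.lk (d := t3d32) t3l15 ⟨_, _, t3f32_ok⟩ (by decide +kernel)

def t3w33 : T3q where
  z := ⟨t3c33, t3n33, t3e33, t3r33, t3m33, t3h33⟩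
  d := t3d33
  i0 := 950
  i1 := 960

theorem t3K33 : T3K pW gW qW fW mW Pool.Agent.RX.RCM9.CertGS.Hp Pool.Agent.RX.RCM9.CertGS.Hm Pool.Agent.RX.RCM9.CertG2.GmR Pool.Agent.RX.RCM9.CertGS.HmR Pool.Agent.RX.RCN.V2L.nb Pool.Agent.RX.RCN.V2L.la
    Pool.Agent.RX.RCN.V2L.Uo t3w33 where
  c :=
    { ok := t3k33_ok
      iq := t3q_ok
      fx := t3f_ok
      b0 := by decide +kernel
      b1 := by decide +kernel
      kc := rfl
      ke := rfl
      mb := rfl
      w := t3k33_w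
      xn := t3k33_xn
      xr := t3k33_xr
      fin := t3k33_fin }
  k := t3GR_eq ▸ t3HR_eq ▸ t3k33_X
  l := XsW.lk (d := t3d33) t3l15 ⟨_, _, t3f33_ok⟩ (by decide +kernel)

def t3w34 : T3q where
  z := ⟨t3c34, t3n34, t3e34, t3r34, t3m34, t3h34⟩
  d := t3d34
  i0 := 960
  i1 := 970

theorem t3K34 : T3K pW gW qW fW mW Pool.Agent.RX.RCM9.CertGS.Hp Pool.Agent.RX.RCM9.CertGS.Hm Pool.Agent.RX.RCM9.CertG2.GmR Pool.Agent.RX.RCM9.CertGS.HmR Pool.Agent.RX.RCN.V2L.nb Pool.Agent.RX.RCN.V2L.la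
    Pool.Agent.RX.RCN.V2L.Uo t3w34 where
  c :=
    { ok := t3k34_ok
      iq := t3q_ok
      fx := t3f_ok
      b0 := by decide +kernel
      b1 := by decide +kernel
      kc := rfl
      ke := rfl
      mb := rfl
      w := t3k34_w
      xn := t3k34_xn
      xr := t3k34_xr
      fin := t3k34_fin }
  k := t3GR_eq ▸ t3HR_eq ▸ t3k34_X
  l := XsW.lk (d := t3d34) t3l16 ⟨_, _, t3f34_ok⟩ (by decide +kernel)

def t3w35 : T3q where
  z := ⟨t3c35, t3n35, t3e35, t3r35, t3m35, t3h35⟩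
  d := t3d35
  i0 := 970
  i1 := 980

theorem t3K35 : T3K pW gW qW fW mW Pool.Agent.RX.RCM9.CertGS.Hp Pool.Agent.RX.RCM9.CertGS.Hm Pool.Agent.RX.RCM9.CertG2.GmR Pool.Agent.RX.RCM9.CertGS.HmR Pool.Agent.RX.RCN.V2L.nb Pool.Agent.RX.RCN.V2L.la
    Pool.Agent.RX.RCN.V2L.Uo t3w35 where
  c :=
    { ok := t3k35_ok
      iq := t3q_ok
      fx := t3f_ok
      b0 := by decide +kernel
      b1 := by decide +kernel
      kc := rfl
      ke := rfl
      mb := rfl
      w := t3k35_w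
      xn := t3k35_xn
      xr := t3k35_xr
      fin := t3k35_fin }
  k := t3GR_eq ▸ t3HR_eq ▸ t3k35_X
  l := XsW.lk (d := t3d35) t3l16 ⟨_, _, t3f35_ok⟩ (by decide +kernel)

def t3w36 : T3q where
  z := ⟨t3c36, t3n36, t3e36, t3r36, t3m36, t3h36⟩
  d := t3d36
  i0 := 980
  i1 := 990

theorem t3K36 : T3K pW gW qW fW mW Pool.Agent.RX.RCM9.CertGS.Hp Pool.Agent.RX.RCM9.CertGS.Hm Pool.Agent.RX.RCM9.CertG2.GmR Pool.Agent.RX.RCM9.CertGS.HmR Pool.Agent.RX.RCN.V2L.nb Pool.Agent.RX.RCN.V2L.la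
    Pool.Agent.RX.RCN.V2L.Uo t3w36 where
  c :=
    { ok := t3k36_ok
      iq := t3q_ok
      fx := t3f_ok
      b0 := by decide +kernel
      b1 := by decide +kernel
      kc := rfl
      ke := rfl
      mb := rfl
      w := t3k36_w
      xn := t3k36_xn
      xr := t3k36_xr
      fin := t3k36_fin }
  k := t3GR_eq ▸ t3HR_eq ▸ t3k36_X
  l := XsW.lk (d := t3d36) t3l17 ⟨_, _, t3f36_ok⟩ (by decide +kernel)

def t3w37 : T3q where
  z := ⟨t3c37, t3n37, t3e37, t3r37, t3m37, t3h37⟩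
  d := t3d37
  i0 := 990
  i1 := 1000

theorem t3K37 : T3K pW gW qW fW mW Pool.Agent.RX.RCM9.CertGS.Hp Pool.Agent.RX.RCM9.CertGS.Hm Pool.Agent.RX.RCM9.CertG2.GmR Pool.Agent.RX.RCM9.CertGS.HmR Pool.Agent.RX.RCN.V2L.nb Pool.Agent.RX.RCN.V2L.la
    Pool.Agent.RX.RCN.V2L.Uo t3w37 where
  c :=
    { ok := t3k37_ok
      iq := t3q_ok
      fx := t3f_ok
      b0 := by decide +kernel
      b1 := by decide +kernel
      kc := rfl
      ke := rfl
      mb := rfl
      w := t3k37_w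
      xn := t3k37_xn
      xr := t3k37_xr
      fin := t3k37_fin }
  k := t3GR_eq ▸ t3HR_eq ▸ t3k37_X
  l := XsW.lk (d := t3d37) t3l17 ⟨_, _, t3f37_ok⟩ (by decide +kernel)

def t3w38 : T3q where
  z := ⟨t3c38, t3n38, t3e38, t3r38, t3m38, t3h38⟩
  d := t3d38
  i0 := 1000
  i1 := 1010

theorem t3K38 : T3K pW gW qW fW mW Pool.Agent.RX.RCM9.CertGS.Hp Pool.Agent.RX.RCM9.CertGS.Hm Pool.Agent.RX.RCM9.CertG2.GmR Pool.Agent.RX.RCM9.CertGS.HmR Pool.Agent.RX.RCN.V2L.nb Pool.Agent.RX.RCN.V2L.la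
    Pool.Agent.RX.RCN.V2L.Uo t3w38 where
  c :=
    { ok := t3k38_ok
      iq := t3q_ok
      fx := t3f_ok
      b0 := by decide +kernel
      b1 := by decide +kernel
      kc := rfl
      ke := rfl
      mb := rfl
      w := t3k38_w
      xn := t3k38_xn
      xr := t3k38_xr
      fin := t3k38_fin }
  k := t3GR_eq ▸ t3HR_eq ▸ t3k38_X
  l := XsW.lk (d := t3d38) t3l18 ⟨_, _, t3f38_ok⟩ (by decide +kernel)

def t3w39 : T3q where
  z := ⟨t3c39, t3n39, t3e39, t3r39, t3m39, t3h39⟩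
  d := t3d39
  i0 := 1010
  i1 := 1020

theorem t3K39 : T3K pW gW qW fW mW Pool.Agent.RX.RCM9.CertGS.Hp Pool.Agent.RX.RCM9.CertGS.Hm Pool.Agent.RX.RCM9.CertG2.GmR Pool.Agent.RX.RCM9.CertGS.HmR Pool.Agent.RX.RCN.V2L.nb Pool.Agent.RX.RCN.V2L.la
    Pool.Agent.RX.RCN.V2L.Uo t3w39 where
  c :=
    { ok := t3k39_ok
      iq := t3q_ok
      fx := t3f_ok
      b0 := by decide +kernel
      b1 := by decide +kernel
      kc := rfl
      ke := rfl
      mb := rfl
      w := t3k39_w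
      xn := t3k39_xn
      xr := t3k39_xr
      fin := t3k39_fin }
  k := t3GR_eq ▸ t3HR_eq ▸ t3k39_X
  l := XsW.lk (d := t3d39) t3l19 ⟨_, _, t3f39_ok⟩ (by decide +kernel)

def t3w40 : T3q where
  z := ⟨t3c40, t3n40, t3e40, t3r40, t3m40, t3h40⟩
  d := t3d40
  i0 := 1020
  i1 := 1030

theorem t3K40 : T3K pW gW qW fW mW Pool.Agent.RX.RCM9.CertGS.Hp Pool.Agent.RX.RCM9.CertGS.Hm Pool.Agent.RX.RCM9.CertG2.GmR Pool.Agent.RX.RCM9.CertGS.HmR Pool.Agent.RX.RCN.V2L.nb Pool.Agent.RX.RCN.V2L.la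
    Pool.Agent.RX.RCN.V2L.Uo t3w40 where
  c :=
    { ok := t3k40_ok
      iq := t3q_ok
      fx := t3f_ok
      b0 := by decide +kernel
      b1 := by decide +kernel
      kc := rfl
      ke := rfl
      mb := rfl
      w := t3k40_w
      xn := t3k40_xn
      xr := t3k40_xr
      fin := t3k40_fin }
  k := t3GR_eq ▸ t3HR_eq ▸ t3k40_X
  l := XsW.lk (d := t3d40) t3l20 ⟨_, _, t3f40_ok⟩ (by decide +kernel)

def t3w41 : T3q where
  z := ⟨t3c41, t3n41, t3e41, t3r41, t3m41, t3h41⟩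
  d := t3d41
  i0 := 1030
  i1 := 1040

theorem t3K41 : T3K pW gW qW fW mW Pool.Agent.RX.RCM9.CertGS.Hp Pool.Agent.RX.RCM9.CertGS.Hm Pool.Agent.RX.RCM9.CertG2.GmR Pool.Agent.RX.RCM9.CertGS.HmR Pool.Agent.RX.RCN.V2L.nb Pool.Agent.RX.RCN.V2L.la
    Pool.Agent.RX.RCN.V2L.Uo t3w41 where
  c :=
    { ok := t3k41_ok
      iq := t3q_ok
      fx := t3f_ok
      b0 := by decide +kernel
      b1 := by decide +kernel
      kc := rfl
      ke := rfl
      mb := rfl
      w := t3k41_w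
      xn := t3k41_xn
      xr := t3k41_xr
      fin := t3k41_fin }
  k := t3GR_eq ▸ t3HR_eq ▸ t3k41_X
  l := XsW.lk (d := t3d41) t3l21 ⟨_, _, t3f41_ok⟩ (by decide +kernel)

def t3w42 : T3q where
  z := ⟨t3c42, t3n42, t3e42, t3r42, t3m42, t3h42⟩
  d := t3d42
  i0 := 1040
  i1 := 1050

theorem t3K42 : T3K pW gW qW fW mW Pool.Agent.RX.RCM9.CertGS.Hp Pool.Agent.RX.RCM9.CertGS.Hm Pool.Agent.RX.RCM9.CertG2.GmR Pool.Agent.RX.RCM9.CertGS.HmR Pool.Agent.RX.RCN.V2L.nb Pool.Agent.RX.RCN.V2L.la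
    Pool.Agent.RX.RCN.V2L.Uo t3w42 where
  c :=
    { ok := t3k42_ok
      iq := t3q_ok
      fx := t3f_ok
      b0 := by decide +kernel
      b1 := by decide +kernel
      kc := rfl
      ke := rfl
      mb := rfl
      w := t3k42_w
      xn := t3k42_xn
      xr := t3k42_xr
      fin := t3k42_fin }
  k := t3GR_eq ▸ t3HR_eq ▸ t3k42_X
  l := XsW.lk (d := t3d42) t3l22 ⟨_, _, t3f42_ok⟩ (by decide +kernel)

def t3w43 : T3q where
  z := ⟨t3c43, t3n43, t3e43, t3r43, t3m43, t3h43⟩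
  d := t3d43
  i0 := 1050
  i1 := 1060

theorem t3K43 : T3K pW gW qW fW mW Pool.Agent.RX.RCM9.CertGS.Hp Pool.Agent.RX.RCM9.CertGS.Hm Pool.Agent.RX.RCM9.CertG2.GmR Pool.Agent.RX.RCM9.CertGS.HmR Pool.Agent.RX.RCN.V2L.nb Pool.Agent.RX.RCN.V2L.la
    Pool.Agent.RX.RCN.V2L.Uo t3w43 where
  c :=
    { ok := t3k43_ok
      iq := t3q_ok
      fx := t3f_ok
      b0 := by decide +kernel
      b1 := by decide +kernel
      kc := rfl
      ke := rfl
      mb := rfl
      w := t3k43_w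
      xn := t3k43_xn
      xr := t3k43_xr
      fin := t3k43_fin }
  k := t3GR_eq ▸ t3HR_eq ▸ t3k43_X
  l := XsW.lk (d := t3d43) t3l23 ⟨_, _, t3f43_ok⟩ (by decide +kernel)

def t3w44 : T3q where
  z := ⟨t3c44, t3n44, t3e44, t3r44, t3m44, t3h44⟩
  d := t3d44
  i0 := 1060
  i1 := 1070

theorem t3K44 : T3K pW gW qW fW mW Pool.Agent.RX.RCM9.CertGS.Hp Pool.Agent.RX.RCM9.CertGS.Hm Pool.Agent.RX.RCM9.CertG2.GmR Pool.Agent.RX.RCM9.CertGS.HmR Pool.Agent.RX.RCN.V2L.nb Pool.Agent.RX.RCN.V2L.la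
    Pool.Agent.RX.RCN.V2L.Uo t3w44 where
  c :=
    { ok := t3k44_ok
      iq := t3q_ok
      fx := t3f_ok
      b0 := by decide +kernel
      b1 := by decide +kernel
      kc := rfl
      ke := rfl
      mb := rfl
      w := t3k44_w
      xn := t3k44_xn
      xr := t3k44_xr
      fin := t3k44_fin }
  k := t3GR_eq ▸ t3HR_eq ▸ t3k44_X
  l := XsW.lk (d := t3d44) t3l24 ⟨_, _, t3f44_ok⟩ (by decide +kernel)

def t3w45 : T3q where
  z := ⟨t3c45, t3n45, t3e45, t3r45, t3m45, t3h45⟩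
  d := t3d45
  i0 := 1070
  i1 := 1080

theorem t3K45 : T3K pW gW qW fW mW Pool.Agent.RX.RCM9.CertGS.Hp Pool.Agent.RX.RCM9.CertGS.Hm Pool.Agent.RX.RCM9.CertG2.GmR Pool.Agent.RX.RCM9.CertGS.HmR Pool.Agent.RX.RCN.V2L.nb Pool.Agent.RX.RCN.V2L.la
    Pool.Agent.RX.RCN.V2L.Uo t3w45 where
  c :=
    { ok := t3k45_ok
      iq := t3q_ok
      fx := t3f_ok
      b0 := by decide +kernel
      b1 := by decide +kernel
      kc := rfl
      ke := rfl
      mb := rfl
      w := t3k45_w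
      xn := t3k45_xn
      xr := t3k45_xr
      fin := t3k45_fin }
  k := t3GR_eq ▸ t3HR_eq ▸ t3k45_X
  l := XsW.lk (d := t3d45) t3l25 ⟨_, _, t3f45_ok⟩ (by decide +kernel)

def t3w46 : T3q where
  z := ⟨t3c46, t3n46, t3e46, t3r46, t3m46, t3h46⟩
  d := t3d46
  i0 := 1080
  i1 := 1090

theorem t3K46 : T3K pW gW qW fW mW Pool.Agent.RX.RCM9.CertGS.Hp Pool.Agent.RX.RCM9.CertGS.Hm Pool.Agent.RX.RCM9.CertG2.GmR Pool.Agent.RX.RCM9.CertGS.HmR Pool.Agent.RX.RCN.V2L.nb Pool.Agent.RX.RCN.V2L.la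
    Pool.Agent.RX.RCN.V2L.Uo t3w46 where
  c :=
    { ok := t3k46_ok
      iq := t3q_ok
      fx := t3f_ok
      b0 := by decide +kernel
      b1 := by decide +kernel
      kc := rfl
      ke := rfl
      mb := rfl
      w := t3k46_w
      xn := t3k46_xn
      xr := t3k46_xr
      fin := t3k46_fin }
  k := t3GR_eq ▸ t3HR_eq ▸ t3k46_X
  l := XsW.lk (d := t3d46) t3l26 ⟨_, _, t3f46_ok⟩ (by decide +kernel)

def t3w47 : T3q where
  z := ⟨t3c47, t3n47, t3e47, t3r47, t3m47, t3h47⟩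
  d := t3d47
  i0 := 1090
  i1 := 1100

theorem t3K47 : T3K pW gW qW fW mW Pool.Agent.RX.RCM9.CertGS.Hp Pool.Agent.RX.RCM9.CertGS.Hm Pool.Agent.RX.RCM9.CertG2.GmR Pool.Agent.RX.RCM9.CertGS.HmR Pool.Agent.RX.RCN.V2L.nb Pool.Agent.RX.RCN.V2L.la
    Pool.Agent.RX.RCN.V2L.Uo t3w47 where
  c :=
    { ok := t3k47_ok
      iq := t3q_ok
      fx := t3f_ok
      b0 := by decide +kernel
      b1 := by decide +kernel
      kc := rfl
      ke := rfl
      mb := rfl
      w := t3k47_w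
      xn := t3k47_xn
      xr := t3k47_xr
      fin := t3k47_fin }
  k := t3GR_eq ▸ t3HR_eq ▸ t3k47_X
  l := XsW.lk (d := t3d47) t3l27 ⟨_, _, t3f47_ok⟩ (by decide +kernel)

def t3W : List T3q := [t3w0, t3w1, t3w2, t3w3, t3w4, t3w5, t3w6, t3w7, t3w8, t3w9, t3w10, t3w11, t3w12, t3w13, t3w14, t3w15, t3w16, t3w17, t3w18, t3w19, t3w20, t3w21, t3w22, t3w23, t3w24, t3w25, t3w26, t3w27, t3w28, t3w29, t3w30, t3w31, t3w32, t3w33, t3w34, t3w35, t3w36, t3w37, t3w38, t3w39, t3w40, t3w41, t3w42, t3w43, t3w44, t3w45, t3w46, t3w47]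

theorem t3W_K : ∀ w ∈ t3W, T3K pW gW qW fW mW Pool.Agent.RX.RCM9.CertGS.Hp Pool.Agent.RX.RCM9.CertGS.Hm Pool.Agent.RX.RCM9.CertG2.GmR Pool.Agent.RX.RCM9.CertGS.HmR Pool.Agent.RX.RCN.V2L.nb
    Pool.Agent.RX.RCN.V2L.la Pool.Agent.RX.RCN.V2L.Uo w := by
  simp only [t3W, List.forall_mem_cons, List.not_mem_nil, false_imp_iff, implies_true, and_true]
  exact ⟨t3K0, t3K1, t3K2, t3K3, t3K4, t3K5, t3K6, t3K7, t3K8, t3K9, t3K10, t3K11, t3K12, t3K13, t3K14, t3K15, t3K16, t3K17, t3K18, t3K19, t3K20, t3K21, t3K22, t3K23, t3K24, t3K25, t3K26, t3K27, t3K28, t3K29, t3K30, t3K31, t3K32, t3K33, t3K34, t3K35, t3K36, t3K37, t3K38, t3K39, t3K40, t3K41, t3K42, t3K43, t3K44, t3K45, t3K46, t3K47⟩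

theorem t3W_cv : ∀ w ∈ t3W, w.cv pW.z.mb 1100 := by decide +kernel

theorem t3W_grpb : ∀ w ∈ t3W, w.grpb (grL grpW) sg3 = true := by decide +kernel

theorem t3W_grp : ∀ w ∈ t3W, w.grp (grL grpW) sg3 := fun w hw => T3q.grp_of (t3W_grpb w hw)

theorem t3W_chain : T3q.chain t3W 0 1100 = true := by decide +kernel

theorem sg3_nn : ∀ i < 1100, 0 ≤ sg3 i := by decide +kernel

/-- **the certificates of the second type** -/
theorem ct3_W : CT2B pW gW mW Pool.Agent.RX.RCM9.CertGS.Hp Pool.Agent.RX.RCM9.CertGS.Hm Pool.Agent.RX.RCM9.CertG2.GmR Pool.Agent.RX.RCM9.CertGS.HmR Pool.Agent.RX.RCN.V2L.nb Pool.Agent.RX.RCN.V2L.la Pool.Agent.RX.RCN.V2L.Uo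
    (grL grpW) 1100 sg3 :=
  ⟨t3z_ok, sg3_nn, qW, fW, t3W, t3W_K, t3W_cv, t3W_grp, t3W_chain⟩

end Pool.Agent.RX.RCN.K
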