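import Pool.Agent.RX.RCN.CPq
import Pool.Agent.RX.RCN.DnsV
import Pool.Agent.RX.RCN.FinV
import Pool.Agent.RX.RCN.T3WF_2

/-! The theorem for all graphs (MP_73ccd0_lc, route M). -/

set_option autoImplicit false

namespace Pool.Agent.RX.RCN.K

open Set Pool.Agent.RX.RCRSHalf Pool.Agent.RX.RCG Pool.Agent.RX.RCG.Ct Pool.Agent.RX.RCRS

variable {V : Type} [Fintype V] [DecidableEq V]
variable {Gr : SimpleGraph V} [Fintype Gr.edgeSet] [DecidableEq Gr.edgeSet]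

/-- **the theorem for all graphs** -/
theorem final_V {x : Gr.edgeSet → ℝ} (hx : IsFractionalMatching Gr x) :
    ∃ S : Scheme Gr, ∀ e : Gr.edgeSet, cT * x e ≤ S.selProb x e :=
  final_ofB caW dnsW CPq.cp ct1W ct3_W sg_le hx

theorem cT_ge : (963 / 2000 : ℝ) ≤ cT := by
  have h : (963 / 2000 : ℚ) ≤ btq / (1 + btq) + (1 - btq) * ((1 + btq) ^ 2)⁻¹ - ddq := by
    decide +kernel
  have h2 : ((963 / 2000 : ℚ) : ℝ)
      ≤ ((btq / (1 + btq) + (1 - btq) * ((1 + btq) ^ 2)⁻¹ - ddq : ℚ) : ℝ) := by exact_mod_cast h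
  unfold cT
  rw [wt_eq]
  unfold bt dd
  push_cast at h2 ⊢
  linarith

end Pool.Agent.RX.RCN.K
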