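import Pool.Agent.RX.RCN.Inst_1

/-! The assembly: bounds of the triple probabilities with an explicit error function and the graph
inequalities of the walk rates give a scheme (MP_73ccd0_lc, route M). -/

namespace Pool.Agent.RX.RCN.K

open Set Finset MeasureTheory Pool.Agent.RX.RCG Pool.Agent.RX.RCG.Ct

open Pool.Agent.RX.RCN.Ker

set_option linter.unusedSectionVars false

section defs

variable {V : Type*} [Fintype V] [DecidableEq V]
variable (fh : ℝ → ℝ → ℝ) (mb : ℝ → ℝ → ℝ → ℝ → ℝ) (E : V → V → V → ℝ → ℝ)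
variable (x : V → V → ℝ) (P : V → Prop) [DecidablePred P]

/-- the minimum of the two expansions -/
noncomputable def emin (a b d : V) (t : ℝ) : ℝ := if P d then min (E a b d t) (E a d b t) else 0

/-- the amplification -/
noncomputable def amp (a b d : V) (t : ℝ) : ℝ :=
  ((1 - mb (xr x P a b) (xr x P a d) (xr x P b d) t)
    * (1 - mb (xr x P a b) (xr x P a d) (xr x P b d) t - emin E P a b d t))⁻¹

/-- one side of the walk rate -/
noncomputable def wS (a b d : V) (t : ℝ) : ℝ :=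
  xr x P a d * ((1 + t) * fh (xr x P a d) t) * (emin E P a b d t * amp mb E x P a b d t)

/-- the walk rate -/
noncomputable def wE (a b : V) (t : ℝ) : ℝ :=
  if P a ∧ P b ∧ a ≠ b then
    ∑ d ∈ ({a, b} : Finset V)ᶜ, (wS fh mb E x P a b d t + wS fh mb E x P b a d t)
  else 0

end defs

variable {V : Type*} [Fintype V] [DecidableEq V]
variable {fh : ℝ → ℝ → ℝ} {mb : ℝ → ℝ → ℝ → ℝ → ℝ} {E : V → V → V → ℝ → ℝ}
variable {x : V → V → ℝ} {P : V → Prop} [DecidablePred P]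

/-- properties of the functions of the cost bounds -/
structure Kq (T : Dt) (fh : ℝ → ℝ → ℝ) (mb : ℝ → ℝ → ℝ → ℝ → ℝ) : Prop where
  f0 : ∀ y ∈ Icc (0 : ℝ) 1, ∀ t ∈ Icc (0 : ℝ) bt, 0 ≤ fh y t
  fc : ∀ y ∈ Icc (0 : ℝ) 1, ContinuousOn (fh y) (Icc 0 bt)
  m0 : ∀ x ∈ Icc (0 : ℝ) 1, ∀ y ∈ Icc (0 : ℝ) 1, ∀ z ∈ Icc (0 : ℝ) 1, ∀ t ∈ Icc (0 : ℝ) bt,
    x + y ≤ 1 → x + z ≤ 1 → y + z ≤ 1 → 0 ≤ mb x y z t
  ms : ∀ x y z t, mb x y z t = mb y x z t
  mz : ∀ x y t, mb x y 0 t = 0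
  mc : ∀ x ∈ Icc (0 : ℝ) 1, ∀ y ∈ Icc (0 : ℝ) 1, ∀ z ∈ Icc (0 : ℝ) 1,
    ContinuousOn (mb x y z) (Icc 0 bt)
  mq : ∀ x ∈ Icc (0 : ℝ) 1, ∀ y ∈ Icc (0 : ℝ) 1, ∀ z ∈ Icc (0 : ℝ) 1, ∀ t ∈ Icc (0 : ℝ) bt,
    x + y ≤ 1 → x + z ≤ 1 → y + z ≤ 1 →
    y * ((1 + t) * fh y t) * (mb x y z t / (1 - mb x y z t)) ≤ y * z * T.C1' x y z t

/-- the weights at a triple -/
theorem tri_le (hx : Wt x P 1) {a b d : V} (hab : a ≠ b) (hd : d ∈ ({a, b} : Finset V)ᶜ) :
    xr x P a b + xr x P a d ≤ 1 ∧ xr x P a b + xr x P b d ≤ 1 ∧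
      xr x P a d + xr x P b d ≤ 1 := yz_le hx hab hd

theorem wE_symm (a b : V) : wE fh mb E x P a b = wE fh mb E x P b a := by
  funext t
  unfold wE
  rw [Finset.pair_comm b a]
  by_cases h : P a ∧ P b ∧ a ≠ b
  · rw [if_pos h, if_pos ⟨h.2.1, h.1, h.2.2.symm⟩]
    exact Finset.sum_congr rfl fun d _ => add_comm _ _
  · rw [if_neg h, if_neg fun h' => h ⟨h'.2.1, h'.1, h'.2.2.symm⟩]

/-- the facts about the error function -/
structure Er (δ : ℝ) (mb : ℝ → ℝ → ℝ → ℝ → ℝ) (x : V → V → ℝ) (P : V → Prop) [DecidablePred P]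
    (E : V → V → V → ℝ → ℝ) : Prop where
  d0 : 0 < δ
  d1 : δ ≤ 1
  n : ∀ a b d, P a → P b → P d → a ≠ b → a ≠ d → b ≠ d → ∀ t ∈ Icc (0 : ℝ) bt, 0 ≤ E a b d t
  l : ∀ a b d, P a → P b → P d → a ≠ b → a ≠ d → b ≠ d → ∀ t ∈ Icc (0 : ℝ) bt,
    mb (xr x P a b) (xr x P a d) (xr x P b d) t + min (E a b d t) (E a d b t) ≤ 1 - δ
  c : ∀ a b d, P a → P b → P d → a ≠ b → a ≠ d → b ≠ d →
    AEMeasurable (E a b d) (volume.restrict (Icc 0 bt))

variable {T : Dt} {sl : ℝ → ℝ → ℝ} {δ : ℝ}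

theorem Er.n' (hE : Er δ mb x P E) {a b d : V} (ha : P a) (hb : P b) (hab : a ≠ b)
    (hd : d ∈ ({a, b} : Finset V)ᶜ) {t : ℝ} (ht : t ∈ Icc (0 : ℝ) bt) : 0 ≤ emin E P a b d t := by
  simp only [Finset.mem_compl, Finset.mem_insert, Finset.mem_singleton, not_or] at hd
  unfold emin
  split_ifs with hP
  · exact le_min (hE.n a b d ha hb hP hab (Ne.symm hd.1) (Ne.symm hd.2) t ht)
      (hE.n a d b ha hP hb (Ne.symm hd.1) hab hd.2 t ht)
  · exact le_rfl

theorem Er.l' (hf : Kq T fh mb) (hE : Er δ mb x P E) {a b d : V} (ha : P a) (hb : P b)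
    (hab : a ≠ b) (hd : d ∈ ({a, b} : Finset V)ᶜ) {t : ℝ} (ht : t ∈ Icc (0 : ℝ) bt) :
    mb (xr x P a b) (xr x P a d) (xr x P b d) t + emin E P a b d t ≤ 1 - δ := by
  simp only [Finset.mem_compl, Finset.mem_insert, Finset.mem_singleton, not_or] at hd
  unfold emin
  split_ifs with hP
  · exact hE.l a b d ha hb hP hab (Ne.symm hd.1) (Ne.symm hd.2) t ht
  · have e : xr x P b d = 0 := by unfold xr; rw [if_neg fun h => hP h.2]
    rw [e, hf.mz]
    linarith [hE.d1]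

theorem wS_nonneg (hx : Wt x P 1) (hf : Kq T fh mb) (hE : Er δ mb x P E) {a b d : V}
    (ha : P a) (hb : P b) (hab : a ≠ b) (hd : d ∈ ({a, b} : Finset V)ᶜ) {t : ℝ}
    (ht : t ∈ Icc (0 : ℝ) bt) : 0 ≤ wS fh mb E x P a b d t := by
  have hT : 0 ≤ 1 + t := by linarith [ht.1]
  have h3 := tri_le hx hab hd
  have m0 := hf.m0 _ (xmem1 hx a b) _ (xmem1 hx a d) _ (xmem1 hx b d) t ht h3.1 h3.2.1 h3.2.2
  have e0 := hE.n' ha hb hab hd ht
  have l0 := Er.l' hf hE ha hb hab hd ht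
  have d0 := hE.d0
  unfold wS amp
  refine mul_nonneg (mul_nonneg (xr_nonneg hx a d) (mul_nonneg hT
    (hf.f0 _ (xmem1 hx a d) t ht))) (mul_nonneg e0 (inv_nonneg.2 (mul_nonneg ?_ ?_)))
  · linarith
  · linarith

theorem wE_nonneg (hx : Wt x P 1) (hf : Kq T fh mb) (hE : Er δ mb x P E) (a b : V) {t : ℝ}
    (ht : t ∈ Icc (0 : ℝ) bt) : 0 ≤ wE fh mb E x P a b t := by
  unfold wE
  split_ifs with h
  · obtain ⟨ha, hb, hab⟩ := h
    refine Finset.sum_nonneg fun d hd => add_nonneg (wS_nonneg hx hf hE ha hb hab hd ht)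
      (wS_nonneg hx hf hE hb ha hab.symm (by rwa [Finset.pair_comm]) ht)
  · exact le_rfl

theorem emin_meas (hE : Er δ mb x P E) {a b d : V}
    (ha : P a) (hb : P b) (hab : a ≠ b) (hd : d ∈ ({a, b} : Finset V)ᶜ) :
    AEMeasurable (emin E P a b d) (volume.restrict (Icc 0 bt)) := by
  simp only [Finset.mem_compl, Finset.mem_insert, Finset.mem_singleton, not_or] at hd
  by_cases hP : P d
  · have : emin E P a b d = fun t => min (E a b d t) (E a d b t) := by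
      funext t; unfold emin; rw [if_pos hP]
    rw [this]
    exact (hE.c a b d ha hb hP hab (Ne.symm hd.1) (Ne.symm hd.2)).min
      (hE.c a d b ha hP hb (Ne.symm hd.1) hab hd.2)
  · have : emin E P a b d = fun _ => 0 := by
      funext t; unfold emin; rw [if_neg hP]
    rw [this]
    exact aemeasurable_const

theorem wS_int (hx : Wt x P 1) (hf : Kq T fh mb) (hE : Er δ mb x P E) {a b d : V}
    (ha : P a) (hb : P b) (hab : a ≠ b) (hd : d ∈ ({a, b} : Finset V)ᶜ) :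
    IntegrableOn (wS fh mb E x P a b d) (Icc 0 bt) := by
  have ce := emin_meas hE ha hb hab hd
  have cf : AEMeasurable (fh (xr x P a d)) (volume.restrict (Icc 0 bt)) :=
    (hf.fc _ (xmem1 hx a d)).aemeasurable measurableSet_Icc
  have cm : AEMeasurable (mb (xr x P a b) (xr x P a d) (xr x P b d))
      (volume.restrict (Icc 0 bt)) :=
    (hf.mc _ (xmem1 hx a b) _ (xmem1 hx a d) _ (xmem1 hx b d)).aemeasurable measurableSet_Icc
  have h3 := tri_le hx hab hd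
  obtain ⟨C, hC⟩ := isCompact_Icc.exists_bound_of_continuousOn (hf.fc _ (xmem1 hx a d))
  have hm : AEMeasurable (wS fh mb E x P a b d) (volume.restrict (Icc 0 bt)) := by
    unfold wS amp
    exact ((aemeasurable_const.mul ((aemeasurable_const.add aemeasurable_id').mul cf))).mul
      (ce.mul ((aemeasurable_const.sub cm).mul ((aemeasurable_const.sub cm).sub ce)).inv)
  have d0 := hE.d0
  refine Integrable.of_bound hm.aestronglyMeasurable (1 * (2 * C) * (1 * (δ * δ)⁻¹)) ?_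
  filter_upwards [ae_restrict_mem measurableSet_Icc] with t ht
  have m0 := hf.m0 _ (xmem1 hx a b) _ (xmem1 hx a d) _ (xmem1 hx b d) t ht h3.1 h3.2.1 h3.2.2
  have e0 := hE.n' ha hb hab hd ht
  have l0 := Er.l' hf hE ha hb hab hd ht
  have w0 := wS_nonneg hx hf hE ha hb hab hd ht
  have f0 := hf.f0 _ (xmem1 hx a d) t ht
  have f1 : fh (xr x P a d) t ≤ C := by
    have := hC t ht
    rwa [Real.norm_eq_abs, abs_of_nonneg f0] at this
  have x0 := xr_nonneg (P := P) hx a d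
  have x1 := (xmem1 (P := P) hx a d).2
  rw [Real.norm_eq_abs, abs_of_nonneg w0]
  unfold wS amp
  have hT : 0 ≤ 1 + t := by linarith [ht.1]
  have q1 : xr x P a d * ((1 + t) * fh (xr x P a d) t) ≤ 1 * (2 * C) :=
    mul_le_mul x1 (mul_le_mul (by linarith [ht.2, bt_le]) f1 f0 (by norm_num)) (mul_nonneg hT f0)
      (by norm_num)
  have q2 : ((1 - mb (xr x P a b) (xr x P a d) (xr x P b d) t)
      * (1 - mb (xr x P a b) (xr x P a d) (xr x P b d) t - emin E P a b d t))⁻¹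
      ≤ (δ * δ)⁻¹ := by
    refine inv_anti₀ (by positivity) (mul_le_mul ?_ ?_ d0.le ?_)
    · linarith
    · linarith
    · linarith
  have q3 : 0 ≤ ((1 - mb (xr x P a b) (xr x P a d) (xr x P b d) t)
      * (1 - mb (xr x P a b) (xr x P a d) (xr x P b d) t - emin E P a b d t))⁻¹ :=
    inv_nonneg.2 (mul_nonneg (by linarith) (by linarith))
  exact mul_le_mul q1 (mul_le_mul (by linarith) q2 q3 (by norm_num)) (mul_nonneg e0 q3)
    (by linarith)

theorem wE_int (hx : Wt x P 1) (hf : Kq T fh mb) (hE : Er δ mb x P E) (a b : V) :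
    IntegrableOn (wE fh mb E x P a b) (Icc 0 bt) := by
  by_cases h : P a ∧ P b ∧ a ≠ b
  · have e : wE fh mb E x P a b = fun t => ∑ d ∈ ({a, b} : Finset V)ᶜ,
        (wS fh mb E x P a b d t + wS fh mb E x P b a d t) := by
      funext t; unfold wE; rw [if_pos h]
    rw [e]
    obtain ⟨ha, hb, hab⟩ := h
    exact integrable_finsetSum _ fun d hd => (wS_int hx hf hE ha hb hab hd).add
      (wS_int hx hf hE hb ha hab.symm (by rwa [Finset.pair_comm]))
  · have e : wE fh mb E x P a b = fun _ => 0 := by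
      funext t; unfold wE; rw [if_neg h]
    rw [e]
    exact integrableOn_zero

variable {V : Type} [Fintype V] [DecidableEq V] {G : SimpleGraph V} [Fintype G.edgeSet]
  [DecidableEq G.edgeSet] {x : G.edgeSet → ℝ} {E : V ⊕ V → V ⊕ V → V ⊕ V → ℝ → ℝ}

end Pool.Agent.RX.RCN.K
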