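import Pool.Agent.RX.RCN.CertFP
import Pool.Agent.RX.RCN.GexB

/-! The facts in two variables of the two-time rows: the worlds `{a, b}` and the star
(MP_73ccd0_lc, route M). -/

set_option autoImplicit false

namespace Pool.Agent.RX.RCN.K

open Set Pool.Agent.RX.RCM9 Pool.Agent.RX.RCM9.Bern Pool.Agent.RX.RCM9.Pk

theorem fP_Gp : fP.Gp = CertG2.Gp := by decide +kernel

theorem fP_Gm : fP.Gm = CertG2.Gm := by decide +kernel

theorem CertG2_U0 : 0 < CertG2.d.U := by decide +kernel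

theorem fP_z (k u : ℝ) : pv fP.z u + k * pv fP.dl u
    = k * u + (1 - k) * pv CertG2.yb2 u := by
  have e1 : pv fP.z u = pv CertG2.yb2 u := by
    unfold fP CertG2.yb2
    simp only [pv]
  have e2 : pv fP.dl u = u - pv CertG2.yb2 u := by
    unfold fP CertG2.yb2
    simp only [pv]
    push_cast
    ring
  rw [e1, e2]
  ring

/-- **the worlds `{a, b}`** -/
theorem fxP {y : Yl} (hU : y.Ug ≤ fP.U) (ez : y.z = fP.z) (ed : y.dl = fP.dl)
    (e1 : y.FM = fP.FM) (e2 : y.FP = fP.FP) (e3 : y.AM = fP.AM) (e4 : y.AP = fP.AP)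
    (ep : y.Gp = CertG2.sGp) (em : y.Gm = CertG2.sGm) :
    y.Fx (pv2 CertG2.Gp) (pv2 CertG2.Gm) := by
  have hd : (fP.U : ℝ) ≤ (CertG2.d.U : ℝ) := by
    have : fP.U ≤ CertG2.d.U := by decide +kernel
    exact_mod_cast this
  have h := FDat.posFP.fx hU ez ed e1 e2 e3 e4 (fun k hk u hu => ?_) (fun k hk u hu => ?_)
  · rwa [fP_Gp, fP_Gm] at h
  · rw [fP_Gp, ep, fP_z]
    exact sc_le (U0 := CertG2_U0) CertG2.sGp0 CertG2.yb2_nn CertG2.sGp_le hk
      ⟨hu.1, hu.2.trans hd⟩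
  · rw [fP_Gm, em, fP_z]
    exact sc_le (U0 := CertG2_U0) CertG2.sGm0 CertG2.yb2_nn CertG2.sGm_le hk
      ⟨hu.1, hu.2.trans hd⟩

end Pool.Agent.RX.RCN.K
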