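import Pool.Agent.RX.RCG.CtG
import Pool.Agent.RX.RCN.Free
import Pool.Agent.RX.RCN.Ident

/-! From strict acceptance for the real pairs to the scheme (MP_73ccd0_lc, route M). -/

namespace Pool.Agent.RX.RCN

open MeasureTheory Set Finset Pool.Agent.RX.RCRS Pool.Agent.RX.RCRSHalf Pool.Agent.RX.RCG Pool.Agent.RX.RCG.Ct

set_option linter.unusedSectionVars false

/-- a common bound for finitely many continuous functions -/
theorem exists_bound {ι : Type*} [Fintype ι] {f : ι → ℝ → ℝ}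
    (hf : ∀ i, ContinuousOn (f i) (Icc 0 1)) :
    ∃ C : ℝ, 0 ≤ C ∧ ∀ i, ∀ t ∈ Icc (0 : ℝ) 1, f i t ≤ C := by
  have h1 : ∀ i, ∃ C : ℝ, ∀ t ∈ Icc (0 : ℝ) 1, |f i t| ≤ C := fun i => by
    obtain ⟨C, hC⟩ := isCompact_Icc.exists_bound_of_continuousOn (hf i)
    exact ⟨C, fun t ht => by simpa using hC t ht⟩
  choose C hC using h1
  have hC0 : ∀ i, 0 ≤ C i := fun i => (abs_nonneg _).trans (hC i 0 ⟨le_rfl, zero_le_one⟩)
  refine ⟨∑ i, C i, Finset.sum_nonneg fun i _ => hC0 i, fun i t ht => ?_⟩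
  exact ((le_abs_self _).trans (hC i t ht)).trans
    (Finset.single_le_sum (f := C) (fun j _ => hC0 j) (Finset.mem_univ i))

/-- a common positive lower bound for finitely many positive continuous functions -/
theorem exists_lower {ι : Type*} [Fintype ι] {f : ι → ℝ → ℝ}
    (hf : ∀ i, ContinuousOn (f i) (Icc 0 1)) (hp : ∀ i, ∀ t ∈ Icc (0 : ℝ) 1, 0 < f i t) :
    ∃ c : ℝ, 0 < c ∧ ∀ i, ∀ t ∈ Icc (0 : ℝ) 1, c ≤ f i t := by
  obtain ⟨C, hC0, hC⟩ := exists_bound (f := fun i t => (f i t)⁻¹) (fun i =>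
    (hf i).inv₀ fun t ht => (hp i t ht).ne')
  refine ⟨(C + 1)⁻¹, inv_pos.2 (by linarith), fun i t ht => ?_⟩
  have h1 := hC i t ht
  have h2 := hp i t ht
  rw [← inv_inv (f i t)]
  exact inv_anti₀ (inv_pos.2 h2) (by linarith)

section

variable {V : Type*} [Fintype V] [DecidableEq V]
variable {x : V → V → ℝ} {P : V → Prop} [DecidablePred P]
variable {h : ℝ → V → V → ℝ} {H : V → V → ℝ → ℝ}
variable {ψ ψ' : V → V → ℝ → ℝ} {φ : V → V → ℝ → ℝ} {ab : ℝ → ℝ → ℝ} {t : ℝ}

/-- an isolated pair (weight one): the pair probability is the free probability of the vertex -/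
theorem pp_iso (hK : Kn x P φ ab h H t) (hx : Wt x P 1) {u v : V} (huv : u ≠ v)
    (h1 : x u v = 1) {s : ℝ} (hs : s ∈ Icc 0 t) : (1 + s)⁻¹ ≤ pp h u v s := by
  have hh := hK.hh
  -- the hazards to other vertices vanish
  have hzero : ∀ {a b : V}, a ≠ b → x a b = 1 → ∀ c, c ≠ b → x a c = 0 := by
    intro a b hab hab1 c hc
    have h2 := hx.row a
    have h3 : x a b + x a c ≤ ∑ d, x a d := by
      rw [← Finset.sum_pair (f := fun d => x a d) (Ne.symm hc)]
      exact Finset.sum_le_sum_of_subset_of_nonneg (Finset.subset_univ _) fun d _ _ =>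
        hx.nonneg a d
    have h4 := hx.nonneg a c
    linarith
  have key := nonneg_of_forward (a := 0) (s := t)
    (U := fun s => pp h u v s - bb h ∅ u s)
    (U' := fun s => (-(h s u v * pp h u v s
      + ∑ c ∈ ({u, v} : Finset V)ᶜ, (h s u c + h s v c) * ppp h u v c s))
        - (-∑ c, h s u c * pp h u c s))
    (fun r hr => by
      have hr1 : r ∈ Icc (0 : ℝ) 1 := btI ⟨hr.1, hr.2.trans hK.ht.2⟩
      exact (pp_deriv hh huv hr1).sub (bb_deriv hh u hr1))
    (by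
      have e : pp h u v 0 = 1 := by
        unfold pp
        rw [(hh.lw ∅).pr_start, if_pos]
        rw [Finset.compl_empty]; exact Finset.subset_univ _
      simp only [e, bb_start hh (Finset.notMem_empty u), sub_self, le_refl])
    (fun r hr _ => by
      have hr1 : r ∈ Icc (0 : ℝ) 1 := btI ⟨hr.1, hr.2.trans hK.ht.2⟩
      have e1 : ∑ c ∈ ({u, v} : Finset V)ᶜ, (h r u c + h r v c) * ppp h u v c r = 0 := by
        refine Finset.sum_eq_zero fun c hc => ?_
        simp only [Finset.mem_compl, Finset.mem_insert, Finset.mem_singleton, not_or] at hc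
        have z1 := hzero huv h1 c hc.2
        have z2 := hzero huv.symm (by rw [hx.symm v u]; exact h1) c hc.1
        rw [hK.hz r hr1 _ _ z1, hK.hz r hr1 _ _ z2]
        ring
      have e2 : ∑ c, h r u c * pp h u c r = h r u v * pp h u v r := by
        refine Finset.sum_eq_single v (fun c _ hc => ?_) (fun h => absurd (Finset.mem_univ _) h)
        rw [hK.hz r hr1 _ _ (hzero huv h1 c hc), zero_mul]
      rw [e1, e2]
      linarith)
    s hs
  have := hK.lo s hs u
  linarith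

/-- the slope of the density of a pair after the end time -/
noncomputable def RR (x : V → V → ℝ) (φ : V → V → ℝ → ℝ) (C : V → V → ℝ) (a b : V) : ℝ :=
  (1 + bt) * ∑ d ∈ ({a, b} : Finset V)ᶜ, (x a d * φ a d bt + x b d * φ b d bt) + C a b + e0

theorem RR_symm {x : V → V → ℝ} {φ : V → V → ℝ → ℝ} {C : V → V → ℝ}
    (hC : ∀ a b, C a b = C b a) (a b : V) : RR x φ C a b = RR x φ C b a := by
  unfold RR
  rw [hC a b, Finset.pair_comm a b]
  congr 3
  exact Finset.sum_congr rfl fun d _ => by ring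

/-- the bound of the rate of a pair at the end time -/
noncomputable def VV (x : V → V → ℝ) (φ : V → V → ℝ → ℝ) (C : V → V → ℝ) (a b : V) : ℝ :=
  (1 + bt) * ∑ d ∈ ({a, b} : Finset V)ᶜ, (x a d * φ a d bt + x b d * φ b d bt) + C a b

/-- the bound of the weighted rate of a pair at the end time -/
noncomputable def KK (x : V → V → ℝ) (φ : V → V → ℝ → ℝ) (K : V → V → ℝ) (a b : V) : ℝ :=
  (1 + bt) * ∑ d ∈ ({a, b} : Finset V)ᶜ, (ksw (x a d) (x b d) * (x a d * φ a d bt)
    + ksw (x b d) (x a d) * (x b d * φ b d bt)) + K a b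

/-- the second order of the densities after the end time -/
noncomputable def QQ (x : V → V → ℝ) (φ : V → V → ℝ → ℝ) (C K : V → V → ℝ) (a b : V) : ℝ :=
  max 0 (VV x φ C a b ^ 2 - mt * la * VV x φ C a b - KK x φ K a b)

theorem QQ_symm {x : V → V → ℝ} {φ : V → V → ℝ → ℝ} {C K : V → V → ℝ}
    (hC : ∀ a b, C a b = C b a) (hK : ∀ a b, K a b = K b a) (a b : V) :
    QQ x φ C K a b = QQ x φ C K b a := by
  have e1 : VV x φ C a b = VV x φ C b a := by
    unfold VV
    rw [hC a b, Finset.pair_comm a b]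
    congr 2
    exact Finset.sum_congr rfl fun d _ => by ring
  have e2 : KK x φ K a b = KK x φ K b a := by
    unfold KK
    rw [hK a b, Finset.pair_comm a b]
    congr 2
    exact Finset.sum_congr rfl fun d _ => by ring
  unfold QQ
  rw [e1, e2]

/-- the conditions at the end time: a bound of the densities, bounds of the slopes of the densities
of the pairs and a bound of the loss, with a bound `C` of the costs and the second order `Q` -/
structure TEnd (x : V → V → ℝ) (P : V → Prop) (ψ ψ' φ : V → V → ℝ → ℝ) (C Q : V → V → ℝ) :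
    Prop where
  ph : ∀ a b, P a → P b → x a b ≠ 0 → φ a b bt ≤ ph
  cs : ∀ a b, C a b = C b a
  cn : ∀ a b, P a → P b → a ≠ b → x a b ≠ 0 → 0 ≤ C a b
  rw : ∀ a b, P a → P b → a ≠ b → x a b ≠ 0 → RR x φ C a b ≤ rm + e0
  qs : ∀ a b, Q a b = Q b a
  q0 : ∀ a b, P a → P b → a ≠ b → x a b ≠ 0 → 0 ≤ Q a b
  qv : ∀ a b, P a → P b → a ≠ b → x a b ≠ 0 → Q a b * (2 * vt)⁻¹ ≤ RR x φ C a b
  en : ∀ a b, P a → P b → a ≠ b → x a b ≠ 0 →
    cT ≤ bt / (1 + bt) - ψ a b bt
      + (((1 + bt) ^ 2)⁻¹ - ψ' a b bt) * ((1 - bt) - RR x φ C a b * ((1 - bt) ^ 2 / 2)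
        + Q a b * tG mt vt (1 - bt))

/-- the weighted death rate of a pair from a bound of the weighted costs -/
theorem rateW_of (hK : Kn x P φ ab h H t) (hx : Wt x P 1) {a b : V}
    (hxab : x a b ≠ 0) {C : ℝ} {k l : V → ℝ} (k0 : ∀ d ∈ ({a, b} : Finset V)ᶜ, 0 ≤ k d)
    (l0 : ∀ d ∈ ({a, b} : Finset V)ᶜ, 0 ≤ l d)
    (hC : ∑ d ∈ ({a, b} : Finset V)ᶜ,
      (k d * (dE h a d t * (rho h a b d t - 1)) + l d * (dE h b d t * (rho h b a d t - 1))) ≤ C) :
    ∑ d ∈ ({a, b} : Finset V)ᶜ, (k d * h t a d + l d * h t b d) * ppp h a b d t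
      ≤ ((1 + t) * ∑ d ∈ ({a, b} : Finset V)ᶜ,
          (k d * (x a d * φ a d t) + l d * (x b d * φ b d t)) + C) * pp h a b t := by
  have hh := hK.hh
  have ht := hK.ht
  have htt : t ∈ Icc 0 t := ⟨ht.1, le_rfl⟩
  have hp := hK.pos t htt a b hxab
  have hpba : pp h b a t = pp h a b t := by unfold pp; rw [Finset.pair_comm]
  have hposz : ∀ u d, h t u d ≠ 0 → 0 < pp h u d t := fun u d hd =>
    hK.pos t htt u d fun h0 => hd (hK.hz t (btI ht) u d h0)
  have e : ∀ d, (k d * h t a d + l d * h t b d) * ppp h a b d t / pp h a b t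
      = (k d * (dE h a d t * (rho h a b d t - 1)) + l d * (dE h b d t * (rho h b a d t - 1)))
        + (k d * dE h a d t + l d * dE h b d t) := fun d => by
    have h1 := dE_rho hh (b := b) (btI ht) hp (hposz a d)
    have h2 := dE_rho hh (a := b) (b := a) (c := d) (btI ht) (by rw [hpba]; exact hp) (hposz b d)
    have h3 : ppp h b a d t = ppp h a b d t := by
      unfold ppp; rw [Finset.insert_comm]
    rw [h3, hpba] at h2
    rw [add_mul, add_div, mul_assoc (k d), mul_assoc (l d), mul_div_assoc (k d),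
      mul_div_assoc (l d), ← h1, ← h2]
    ring
  have h1 : ∑ d ∈ ({a, b} : Finset V)ᶜ,
      (k d * h t a d + l d * h t b d) * ppp h a b d t / pp h a b t
      ≤ (1 + t) * ∑ d ∈ ({a, b} : Finset V)ᶜ,
          (k d * (x a d * φ a d t) + l d * (x b d * φ b d t)) + C := by
    rw [Finset.sum_congr rfl fun d _ => e d, Finset.sum_add_distrib, add_comm]
    refine add_le_add ?_ hC
    rw [Finset.mul_sum]
    refine Finset.sum_le_sum fun d hd => ?_
    have i1 := hK.dE_le hx a d htt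
    have i2 := hK.dE_le hx b d htt
    calc _ ≤ k d * (x a d * ((1 + t) * φ a d t)) + l d * (x b d * ((1 + t) * φ b d t)) :=
          add_le_add (mul_le_mul_of_nonneg_left i1 (k0 d hd))
            (mul_le_mul_of_nonneg_left i2 (l0 d hd))
      _ = _ := by ring
  rw [← Finset.sum_div, div_le_iff₀ hp] at h1
  exact h1

/-- the death rate of a pair from the cost bound -/
theorem rate_of (hK : Kn x P φ ab h H t) (hx : Wt x P 1) {a b : V}
    (hxab : x a b ≠ 0) {C : ℝ}
    (hC : ∑ d ∈ ({a, b} : Finset V)ᶜ,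
      (dE h a d t * (rho h a b d t - 1) + dE h b d t * (rho h b a d t - 1)) ≤ C) :
    ∑ d ∈ ({a, b} : Finset V)ᶜ, (h t a d + h t b d) * ppp h a b d t
      ≤ ((1 + t) * ∑ d ∈ ({a, b} : Finset V)ᶜ, (x a d * φ a d t + x b d * φ b d t) + C)
        * pp h a b t := by
  have := rateW_of hK hx hxab (k := fun _ => 1) (l := fun _ => 1) (fun _ _ => zero_le_one)
    (fun _ _ => zero_le_one) (C := C) (by simpa only [one_mul] using hC)
  simpa only [one_mul] using this

end

section final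

variable {V : Type} [Fintype V] [DecidableEq V] {G : SimpleGraph V} [Fintype G.edgeSet]
  [DecidableEq G.edgeSet] {x : G.edgeSet → ℝ} {ψ ψ' : V ⊕ V → V ⊕ V → ℝ → ℝ} {ab : ℝ → ℝ → ℝ}

open Classical in
/-- the slopes of the densities after the end time -/
noncomputable def Rx (x : V ⊕ V → V ⊕ V → ℝ) (ψ' : V ⊕ V → V ⊕ V → ℝ → ℝ)
    (C : V ⊕ V → V ⊕ V → ℝ) (a b : V ⊕ V) : ℝ :=
  if (P0 V a ∧ P0 V b) ∧ x a b ≠ 0 then RR x (dn x (P0 V) ψ') C a b else tk

open Classical in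
/-- the second order of the densities after the end time -/
noncomputable def Qx (x : V ⊕ V → V ⊕ V → ℝ) (Q : V ⊕ V → V ⊕ V → ℝ) (a b : V ⊕ V) : ℝ :=
  if (P0 V a ∧ P0 V b) ∧ x a b ≠ 0 then Q a b else 0

variable {C Q : V ⊕ V → V ⊕ V → ℝ}

theorem Rx_symm {y : V ⊕ V → V ⊕ V → ℝ} (hy : ∀ a b, y a b = y b a)
    (hC : ∀ a b, C a b = C b a) (a b : V ⊕ V) : Rx y ψ' C a b = Rx y ψ' C b a := by
  unfold Rx
  rw [hy a b, RR_symm hC a b]
  simp only [and_comm (a := P0 V a)]

theorem Qx_symm {y : V ⊕ V → V ⊕ V → ℝ} (hy : ∀ a b, y a b = y b a)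
    (hQ : ∀ a b, Q a b = Q b a) (a b : V ⊕ V) : Qx y Q a b = Qx y Q b a := by
  unfold Qx
  rw [hy a b, hQ a b]
  simp only [and_comm (a := P0 V a)]

theorem min_bt {t : ℝ} (ht : t ∈ Icc (0 : ℝ) 1) : min t bt ∈ Icc (0 : ℝ) bt :=
  ⟨le_min ht.1 bt_nn, min_le_right _ _⟩

theorem Rx_nn {y : V ⊕ V → V ⊕ V → ℝ} (hψ : Cor y (P0 V) ψ ψ') (y0 : ∀ a b, 0 ≤ y a b)
    (yd : ∀ a, y a a = 0) (hte : TEnd y (P0 V) ψ ψ' (dn y (P0 V) ψ') C Q) (a b : V ⊕ V) :
    0 ≤ Rx y ψ' C a b := by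
  unfold Rx
  split_ifs with hP
  · have hab : a ≠ b := fun e => hP.2 (by rw [e]; exact yd b)
    have h1 := hte.cn a b hP.1.1 hP.1.2 hab hP.2
    have h2 := e0_pos
    have h3 : 0 ≤ ∑ d ∈ ({a, b} : Finset (V ⊕ V))ᶜ,
        (y a d * dn y (P0 V) ψ' a d bt + y b d * dn y (P0 V) ψ' b d bt) :=
      Finset.sum_nonneg fun d _ => add_nonneg (mul_nonneg (y0 a d) (dn_pos hψ a d bt_m1).le)
        (mul_nonneg (y0 b d) (dn_pos hψ b d bt_m1).le)
    have h4 : 0 ≤ (1 + bt) := by linarith [bt_nn]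
    have h5 := mul_nonneg h4 h3
    unfold RR
    linarith
  · exact tk_pos.le

theorem Rx_lt {y : V ⊕ V → V ⊕ V → ℝ} (yd : ∀ a, y a a = 0)
    (hte : TEnd y (P0 V) ψ ψ' (dn y (P0 V) ψ') C Q) (a b : V ⊕ V) :
    Rx y ψ' C a b * (1 - bt) < 1 := by
  unfold Rx
  split_ifs with hP
  · have hab : a ≠ b := fun e => hP.2 (by rw [e]; exact yd b)
    have h1 := mul_le_mul_of_nonneg_right (hte.rw a b hP.1.1 hP.1.2 hab hP.2) wt_nn
    exact lt_of_le_of_lt h1 rm_lt
  · exact tk_lt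

end final

end Pool.Agent.RX.RCN
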