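import Pool.Agent.RX.RCN.Tl5

/-! The second order of the rate of a pair from the closures at the end time
(MP_73ccd0_lc, route M). -/

namespace Pool.Agent.RX.RCN

open MeasureTheory Set Finset Pool.Agent.RX.RCRSHalf Pool.Agent.RX.RCG

set_option linter.unusedSectionVars false

variable {V : Type*} [Fintype V] [DecidableEq V]
variable {h : ℝ → V → V → ℝ} {H : V → V → ℝ → ℝ}

/-- the algebra of the second order -/
theorem sec_alg {a A K p S v m la γ W : ℝ} (hp : 0 < p) (hS : S = a * p) (a0 : 0 ≤ a)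
    (haA : a ≤ A) (hAv : A ≤ v) (v0 : 0 < v) (m0 : 0 ≤ m) (la0 : 0 ≤ la)
    (hγ : γ ∈ Icc 0 (2 * v)⁻¹) (hW0 : 0 ≤ W)
    (hW : (S ^ 2 - m * la * p * S - K * p ^ 2) / p ≤ W) :
    S - γ * W ≤ (A - γ * max 0 (A ^ 2 - m * la * A - K)) * p := by
  have hg1 : γ * (2 * v) ≤ 1 := by
    have := mul_le_mul_of_nonneg_right hγ.2 (show 0 ≤ 2 * v by linarith)
    rwa [inv_mul_cancel₀ (by linarith)] at this
  have i0 : a * p ≤ A * p := mul_le_mul_of_nonneg_right haA hp.le
  rcases le_total 0 (A ^ 2 - m * la * A - K) with h1 | h1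
  · rw [max_eq_right h1]
    have e : (S ^ 2 - m * la * p * S - K * p ^ 2) / p
        = (a ^ 2 - m * la * a - K) * p := by
      rw [hS]
      field_simp
    rw [e] at hW
    have k1 := mul_le_mul_of_nonneg_left hW hγ.1
    have k2 : 0 ≤ (A - a) * (1 - γ * (A + a) + γ * (m * la)) := by
      refine mul_nonneg (by linarith) ?_
      have k3 : γ * (A + a) ≤ γ * (2 * v) := mul_le_mul_of_nonneg_left (by linarith) hγ.1
      have k4 := mul_nonneg hγ.1 (mul_nonneg m0 la0)
      linarith
    have k5 := mul_nonneg k2 hp.le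
    rw [hS]
    nlinarith
  · rw [max_eq_left h1, mul_zero, sub_zero]
    have := mul_nonneg hγ.1 hW0
    linarith

/-- **the rate of the second order from the closures at the end time** -/
theorem rate4 (hh : Haz h H) {T : ℝ} (hT : T ∈ Icc (0 : ℝ) 1) {x : V → V → ℝ} {a b : V}
    (hp : 0 < pp h a b T) {m v la lb A K : ℝ} {L : V → V → ℝ} {ka kb : V → ℝ} (m0 : 0 ≤ m)
    (v0 : 0 < v) (la0 : 0 ≤ la) (x0 : ∀ u v, 0 ≤ x u v) (hm : ∀ u c, h T u c ≤ x u c * m)
    (hA : ∑ c ∈ ({a, b} : Finset V)ᶜ, (h T a c + h T b c) * ppp h a b c T ≤ A * pp h a b T)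
    (hk : ∀ c ∈ ({a, b} : Finset V)ᶜ, m * (1 - lb) * (x a c + x b c) * (h T a c + h T b c)
      - 2 * (h T a c * h T b c) ≤ ka c * h T a c + kb c * h T b c)
    (hK : ∑ c ∈ ({a, b} : Finset V)ᶜ, (ka c * h T a c + kb c * h T b c) * ppp h a b c T
      ≤ K * pp h a b T)
    (hL0 : ∀ c e, 0 ≤ L c e)
    (hcl : ∀ c ∈ ({a, b} : Finset V)ᶜ, ∀ e ∈ ({a, b, c} : Finset V)ᶜ,
      ppp h a b e T * ppp h a b c T
        ≤ Real.exp (L c e) * (pr (lw h ∅ T) {a, b, c, e} * pp h a b T))
    (hla : ∀ c ∈ ({a, b} : Finset V)ᶜ, (x a c ≠ 0 ∨ x b c ≠ 0) →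
      ∑ e ∈ ({a, b, c} : Finset V)ᶜ, (x a e + x b e) * (1 - Real.exp (-(L c e)))
        ≤ la - lb * (x a c + x b c))
    (hAv : A ≤ v) {γ : ℝ} (hγ : γ ∈ Icc 0 (2 * v)⁻¹) :
    ∑ c ∈ ({a, b} : Finset V)ᶜ, ((h T a c + h T b c) * (ppp h a b c T - γ * Yq h T a b c)
        - γ * (2 * (h T a c * h T b c) * ppp h a b c T))
      ≤ (A - γ * max 0 (A ^ 2 - m * la * A - K)) * pp h a b T := by
  set U := ({a, b} : Finset V)ᶜ with hU
  set p := pp h a b T with hpd
  have g0 : ∀ c, 0 ≤ h T a c + h T b c := fun c => add_nonneg (hh.nonneg _ _ _) (hh.nonneg _ _ _)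
  have q0 : ∀ c, 0 ≤ ppp h a b c T := fun c => ppp_nonneg hh a b c hT
  have q1 : ∀ c, ppp h a b c T ≤ p := fun c => by
    refine pr_anti (fun F => (hh.lw (∅ : Finset V)).nonneg F T hT) ?_
    intro z hz
    simp only [Finset.mem_insert, Finset.mem_singleton] at hz ⊢
    tauto
  set B : V → ℝ := fun c => (h T a c + h T b c) * ppp h a b c T with hB
  have B0 : ∀ c, 0 ≤ B c := fun c => mul_nonneg (g0 c) (q0 c)
  have B1 : ∀ c, B c ≤ m * (x a c + x b c) * p := fun c => by
    have i1 := hm a c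
    have i2 := hm b c
    have i3 : h T a c + h T b c ≤ m * (x a c + x b c) := by linarith
    exact mul_le_mul i3 (q1 c) (q0 c) (mul_nonneg m0 (add_nonneg (x0 _ _) (x0 _ _)))
  set S := ∑ c ∈ U, B c with hS
  have S0 : 0 ≤ S := Finset.sum_nonneg fun c _ => B0 c
  have Y0 : ∀ c, 0 ≤ Yq h T a b c := fun c => by
    unfold Yq
    exact Finset.sum_nonneg fun e _ => mul_nonneg (g0 e) ((hh.lw ∅).pr_nonneg _ hT)
  set W := ∑ c ∈ U, (h T a c + h T b c) * Yq h T a b c with hW
  have W0 : 0 ≤ W := Finset.sum_nonneg fun c _ => mul_nonneg (g0 c) (Y0 c)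
  set D := ∑ c ∈ U, 2 * (h T a c * h T b c) * ppp h a b c T with hD
  have D0 : 0 ≤ D := Finset.sum_nonneg fun c _ => mul_nonneg (mul_nonneg zero_le_two
    (mul_nonneg (hh.nonneg _ _ _) (hh.nonneg _ _ _))) (q0 c)
  have e1 : ∑ c ∈ U, ((h T a c + h T b c) * (ppp h a b c T - γ * Yq h T a b c)
      - γ * (2 * (h T a c * h T b c) * ppp h a b c T)) = S - γ * (W + D) := by
    rw [hS, hW, hD, mul_add, Finset.mul_sum, Finset.mul_sum, ← Finset.sum_add_distrib,
      ← Finset.sum_sub_distrib]
    refine Finset.sum_congr rfl fun c _ => ?_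
    rw [hB]
    ring
  -- the lower bound of `Y`
  have hY : ∀ c ∈ U, (x a c ≠ 0 ∨ x b c ≠ 0) → ppp h a b c T
      * (S - m * (x a c + x b c) * p - m * (la - lb * (x a c + x b c)) * p)
      ≤ Yq h T a b c * p := by
    intro c hc hxc
    have hcU := hc
    simp only [hU, Finset.mem_compl, Finset.mem_insert, Finset.mem_singleton, not_or] at hcU
    have hsub : ({a, b, c} : Finset V)ᶜ = U.erase c := by
      ext z
      simp only [hU, Finset.mem_compl, Finset.mem_insert, Finset.mem_singleton,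
        Finset.mem_erase, not_or]
      tauto
    have s1 : S = B c + ∑ e ∈ ({a, b, c} : Finset V)ᶜ, B e := by
      rw [hsub, Finset.add_sum_erase U B hc]
    -- each term
    have k1 : ∀ e ∈ ({a, b, c} : Finset V)ᶜ,
        ppp h a b c T * (B e - m * p * ((x a e + x b e) * (1 - Real.exp (-(L c e)))))
          ≤ (h T a e + h T b e) * pr (lw h ∅ T) {a, b, c, e} * p := by
      intro e he
      have c1 := hcl c hc e he
      have c2 := mul_le_mul_of_nonneg_left c1 (Real.exp_pos (-(L c e))).le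
      have c3 : Real.exp (-(L c e)) * (Real.exp (L c e) * (pr (lw h ∅ T) {a, b, c, e} * p))
          = pr (lw h ∅ T) {a, b, c, e} * p := by
        rw [← mul_assoc, ← Real.exp_add, neg_add_cancel, Real.exp_zero, one_mul]
      rw [c3] at c2
      have c4 := mul_le_mul_of_nonneg_left c2 (g0 e)
      have c5 : 0 ≤ 1 - Real.exp (-(L c e)) := by
        have := Real.exp_le_one_iff.2 (show -(L c e) ≤ 0 by linarith [hL0 c e])
        linarith
      have c6 := mul_le_mul_of_nonneg_right (B1 e) c5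
      have c7 := mul_le_mul_of_nonneg_left c6 (q0 c)
      have e2 : ppp h a b c T * (B e * (1 - Real.exp (-(L c e))))
          = ppp h a b c T * B e
            - (h T a e + h T b e) * (Real.exp (-(L c e)) * (ppp h a b e T * ppp h a b c T)) := by
        rw [hB]
        ring
      rw [e2] at c7
      have e3 : ppp h a b c T * (B e - m * p * ((x a e + x b e) * (1 - Real.exp (-(L c e)))))
          = ppp h a b c T * B e
            - ppp h a b c T * (m * (x a e + x b e) * p * (1 - Real.exp (-(L c e)))) := by ring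
      rw [e3]
      have e4 : (h T a e + h T b e) * pr (lw h ∅ T) {a, b, c, e} * p
          = (h T a e + h T b e) * (pr (lw h ∅ T) {a, b, c, e} * p) := by ring
      rw [e4]
      linarith
    have k2 := Finset.sum_le_sum k1
    rw [← Finset.mul_sum, Finset.sum_sub_distrib, ← Finset.mul_sum, ← Finset.sum_mul] at k2
    have k3 : ∑ e ∈ ({a, b, c} : Finset V)ᶜ, (h T a e + h T b e) * pr (lw h ∅ T) {a, b, c, e}
        = Yq h T a b c := rfl
    rw [k3] at k2
    refine le_trans (mul_le_mul_of_nonneg_left ?_ (q0 c)) k2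
    have k4 := mul_le_mul_of_nonneg_left (hla c hc hxc) (mul_nonneg m0 hp.le)
    have k5 := B1 c
    have k6 : m * (la - lb * (x a c + x b c)) * p = m * p * (la - lb * (x a c + x b c)) := by ring
    rw [k6]
    linarith
  have hWl : S ^ 2 - m * la * p * S - K * p ^ 2 ≤ (W + D) * p := by
    have k1 : ∑ c ∈ U, B c * (S - m * (x a c + x b c) * p
        - m * (la - lb * (x a c + x b c)) * p) ≤ W * p := by
      rw [hW, Finset.sum_mul]
      refine Finset.sum_le_sum fun c hc => ?_
      by_cases hxc : x a c ≠ 0 ∨ x b c ≠ 0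
      swap
      · rw [not_or, not_not, not_not] at hxc
        have z1 := hm a c
        have z2 := hm b c
        rw [hxc.1, zero_mul] at z1
        rw [hxc.2, zero_mul] at z2
        have z3 : h T a c + h T b c = 0 := le_antisymm (by linarith) (g0 c)
        have z4 : B c = 0 := by rw [hB]; simp only [z3, zero_mul]
        rw [z4, z3, zero_mul, zero_mul, zero_mul]
      have i1 := mul_le_mul_of_nonneg_left (hY c hc hxc) (g0 c)
      calc B c * (S - m * (x a c + x b c) * p - m * (la - lb * (x a c + x b c)) * p)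
          = (h T a c + h T b c) * (ppp h a b c T
            * (S - m * (x a c + x b c) * p - m * (la - lb * (x a c + x b c)) * p)) := by
            rw [hB]; ring
        _ ≤ (h T a c + h T b c) * (Yq h T a b c * p) := i1
        _ = _ := by ring
    have k2 : ∑ c ∈ U, B c * (S - m * (x a c + x b c) * p
        - m * (la - lb * (x a c + x b c)) * p)
        = S ^ 2 - m * (1 - lb) * p * ∑ c ∈ U, (x a c + x b c) * B c - m * la * p * S := by
      have : ∀ c, B c * (S - m * (x a c + x b c) * p - m * (la - lb * (x a c + x b c)) * p)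
          = (S * B c - m * (1 - lb) * p * ((x a c + x b c) * B c)) - m * la * p * B c :=
        fun c => by ring
      rw [Finset.sum_congr rfl fun c _ => this c, Finset.sum_sub_distrib, Finset.sum_sub_distrib,
        ← Finset.mul_sum, ← Finset.mul_sum, ← Finset.mul_sum, ← hS]
      ring
    rw [k2] at k1
    have k3 : m * (1 - lb) * ∑ c ∈ U, (x a c + x b c) * B c - D
        ≤ ∑ c ∈ U, (ka c * h T a c + kb c * h T b c) * ppp h a b c T := by
      rw [hD, Finset.mul_sum, ← Finset.sum_sub_distrib]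
      refine Finset.sum_le_sum fun c hc => ?_
      have i1 := mul_le_mul_of_nonneg_right (hk c hc) (q0 c)
      refine le_trans (le_of_eq ?_) i1
      rw [hB]
      ring
    have k4 := mul_le_mul_of_nonneg_right (k3.trans hK) hp.le
    have k5 : K * p * p = K * p ^ 2 := by ring
    have k6 : (m * (1 - lb) * ∑ c ∈ U, (x a c + x b c) * B c - D) * p
        = m * (1 - lb) * p * ∑ c ∈ U, (x a c + x b c) * B c - D * p := by ring
    rw [k5, k6] at k4
    linarith
  rw [e1]
  have hSA : S ≤ A * p := hA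
  refine sec_alg (a := S / p) hp (by rw [div_mul_cancel₀ _ hp.ne']) (div_nonneg S0 hp.le)
    (by rw [div_le_iff₀ hp]; exact hSA) hAv v0 m0 la0 hγ (add_nonneg W0 D0) ?_
  rw [div_le_iff₀ hp]
  exact hWl

end Pool.Agent.RX.RCN
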