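import Pool.Agent.RX.RCN.Boot2
import Pool.Agent.RX.RCN.Fb
import Pool.Agent.RX.RCN.Half_1
import Pool.Agent.RX.RCN.Tl6

/-! From strict acceptance for the real pairs to the scheme (MP_73ccd0_lc, route M). -/

namespace Pool.Agent.RX.RCN

open MeasureTheory Set Finset Pool.Agent.RX.RCRS Pool.Agent.RX.RCRSHalf Pool.Agent.RX.RCG Pool.Agent.RX.RCG.Ct

set_option linter.unusedSectionVars false

section

variable {V : Type*} [Fintype V] [DecidableEq V]
variable {x : V → V → ℝ} {P : V → Prop} [DecidablePred P]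
variable {h : ℝ → V → V → ℝ} {H : V → V → ℝ → ℝ}
variable {ψ ψ' : V → V → ℝ → ℝ} {φ : V → V → ℝ → ℝ} {ab : ℝ → ℝ → ℝ} {t : ℝ}

/-- **the rate of the second order of a pair at the end time** -/
theorem rate4_of (hK : Kn x P φ ab h H bt) (hx : Wt x P 1) {a b : V}
    (hxab : x a b ≠ 0) {C K : V → V → ℝ} {L : V → V → ℝ}
    (hC : ∑ d ∈ ({a, b} : Finset V)ᶜ,
      (dE h a d bt * (rho h a b d bt - 1) + dE h b d bt * (rho h b a d bt - 1)) ≤ C a b)
    (hCK : ∑ d ∈ ({a, b} : Finset V)ᶜ,
      (ksw (x a d) (x b d) * (dE h a d bt * (rho h a b d bt - 1))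
        + ksw (x b d) (x a d) * (dE h b d bt * (rho h b a d bt - 1))) ≤ K a b)
    (hm : ∀ u c, h bt u c ≤ x u c * mt)
    (hlo : ∀ c ∈ ({a, b} : Finset V)ᶜ,
      (hlb + hls * x b c) * x b c * h bt a c ≤ h bt a c * h bt b c ∧
      (hlb + hls * x a c) * x a c * h bt b c ≤ h bt a c * h bt b c)
    (hL0 : ∀ c e, 0 ≤ L c e)
    (hcl : ∀ c ∈ ({a, b} : Finset V)ᶜ, ∀ e ∈ ({a, b, c} : Finset V)ᶜ,
      ppp h a b e bt * ppp h a b c bt
        ≤ Real.exp (L c e) * (pr (lw h ∅ bt) {a, b, c, e} * pp h a b bt))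
    (hla : ∀ c ∈ ({a, b} : Finset V)ᶜ, (x a c ≠ 0 ∨ x b c ≠ 0) →
      ∑ e ∈ ({a, b, c} : Finset V)ᶜ, (x a e + x b e) * (1 - Real.exp (-(L c e)))
        ≤ la - lb * (x a c + x b c))
    (hV : VV x φ C a b ≤ vt) {γ : ℝ} (hγ : γ ∈ Icc 0 (2 * vt)⁻¹) :
    ∑ d ∈ ({a, b} : Finset V)ᶜ, ((h bt a d + h bt b d) * (ppp h a b d bt - γ * Yq h bt a b d)
        - γ * (2 * (h bt a d * h bt b d) * ppp h a b d bt))
      ≤ (RR x φ C a b - e0 - γ * QQ x φ C K a b) * pp h a b bt := by
  have e : RR x φ C a b - e0 = VV x φ C a b := by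
    unfold RR VV
    ring
  have x1 : ∀ u w, x u w ≤ 1 := fun u w =>
    (Finset.single_le_sum (f := fun c => x u c) (fun c _ => hx.nonneg u c)
      (Finset.mem_univ w)).trans (hx.row u)
  rw [e]
  exact rate4 hK.hh (btI bt_m1) (hK.pos bt bt_m1 a b hxab)
    (ka := fun d => ksw (x a d) (x b d)) (kb := fun d => ksw (x b d) (x a d))
    mt_nn vt_pos la_nn hx.nonneg hm (rate_of hK hx hxab hC)
    (fun c hc => by
      obtain ⟨i1, i2⟩ := hlo c hc
      unfold ksw
      nlinarith)
    (rateW_of hK hx hxab (fun d _ => ksw_nn (hx.nonneg a d) (hx.nonneg b d) (x1 b d))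
      (fun d _ => ksw_nn (hx.nonneg b d) (hx.nonneg a d) (x1 a d)) hCK)
    hL0 hcl hla hV hγ

end

section final

variable {V : Type} [Fintype V] [DecidableEq V] {G : SimpleGraph V} [Fintype G.edgeSet]
  [DecidableEq G.edgeSet] {x : G.edgeSet → ℝ} {ψ ψ' : V ⊕ V → V ⊕ V → ℝ → ℝ} {ab : ℝ → ℝ → ℝ}

/-- the target densities: `dn` up to the end time, a polynomial afterwards -/
noncomputable def dx (x : V ⊕ V → V ⊕ V → ℝ) (ψ' : V ⊕ V → V ⊕ V → ℝ → ℝ)
    (C Q : V ⊕ V → V ⊕ V → ℝ) (a b : V ⊕ V) (t : ℝ) : ℝ :=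
  dn x (P0 V) ψ' a b (min t bt) * (1 - Rx x ψ' C a b * max (t - bt) 0
    + Qx x Q a b * tg2 mt vt (max (t - bt) 0))

variable {C Q : V ⊕ V → V ⊕ V → ℝ}

theorem dx_le {y : V ⊕ V → V ⊕ V → ℝ} {a b : V ⊕ V} {t : ℝ} (ht : t ≤ bt) :
    dx y ψ' C Q a b t = dn y (P0 V) ψ' a b t := by
  unfold dx
  rw [min_eq_left ht, max_eq_right (by linarith), mul_zero, sub_zero, tg2_zero, mul_zero,
    add_zero, mul_one]

theorem dx_ge {y : V ⊕ V → V ⊕ V → ℝ} {a b : V ⊕ V} {t : ℝ} (ht : bt ≤ t) :
    dx y ψ' C Q a b t = rho4 (Rx y ψ' C) (Qx y Q) mt vt bt a b t * dn y (P0 V) ψ' a b bt := by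
  unfold dx rho4
  rw [min_eq_right ht, max_eq_left (by linarith), mul_comm]

theorem dx_cont {y : V ⊕ V → V ⊕ V → ℝ} (hψ : Cor y (P0 V) ψ ψ') (a b : V ⊕ V) :
    ContinuousOn (dx y ψ' C Q a b) (Icc 0 1) := by
  unfold dx
  refine ContinuousOn.mul ?_ ?_
  · exact (dn_cont hψ a b).comp (by fun_prop) fun t ht => min_bt ht
  · have c2 : Continuous (tg2 mt vt) := continuous_iff_continuousAt.2 fun s =>
      (tg2_deriv mt vt s).continuousAt
    exact ((continuous_const.sub (continuous_const.mul (by fun_prop))).add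
      (continuous_const.mul (c2.comp (by fun_prop)))).continuousOn

/-- the numbers of the tail -/
theorem tn_of {y : V ⊕ V → V ⊕ V → ℝ} (hψ : Cor y (P0 V) ψ ψ') (y0 : ∀ a b, 0 ≤ y a b)
    (yd : ∀ a, y a a = 0) (hte : TEnd y (P0 V) ψ ψ' (dn y (P0 V) ψ') C Q) :
    Tn (Rx y ψ' C) (Qx y Q) mt vt bt where
  m0 := mt_nn
  m1 := mt_lt
  v0 := vt_pos
  v1 := vt_le
  R0 := Rx_nn hψ y0 yd hte
  Rw := Rx_lt yd hte
  Rv a b := by
    unfold Rx
    split_ifs with hP
    · have hab : a ≠ b := fun e => hP.2 (by rw [e]; exact yd b)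
      exact (hte.rw a b hP.1.1 hP.1.2 hab hP.2).trans rm_vt
    · exact tk_vt
  Q0 a b := by
    unfold Qx
    split_ifs with hP
    · have hab : a ≠ b := fun e => hP.2 (by rw [e]; exact yd b)
      exact hte.q0 a b hP.1.1 hP.1.2 hab hP.2
    · exact le_rfl
  Qv a b := by
    unfold Qx Rx
    split_ifs with hP
    · have hab : a ≠ b := fun e => hP.2 (by rw [e]; exact yd b)
      exact hte.qv a b hP.1.1 hP.1.2 hab hP.2
    · rw [zero_mul]
      exact tk_pos.le

theorem dx_pos {y : V ⊕ V → V ⊕ V → ℝ} (hψ : Cor y (P0 V) ψ ψ') (y0 : ∀ a b, 0 ≤ y a b)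
    (yd : ∀ a, y a a = 0) (hte : TEnd y (P0 V) ψ ψ' (dn y (P0 V) ψ') C Q)
    (a b : V ⊕ V) {t : ℝ} (ht : t ∈ Icc (0 : ℝ) 1) : 0 < dx y ψ' C Q a b t := by
  rcases le_total t bt with h | h
  · rw [dx_le h]
    exact dn_pos hψ a b ⟨ht.1, h⟩
  · rw [dx_ge h]
    exact mul_pos ((tn_of hψ y0 yd hte).rho_pos h ht.2) (dn_pos hψ a b bt_m1)

/-- The reduction of the theorem to strict acceptance on the real pairs. -/
theorem sel_of_strict (hx : IsFractionalMatching G x) (hψ : Cor (xe x) (P0 V) ψ ψ')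
    (hlo : ∀ s ∈ Icc (0 : ℝ) bt, ∀ a, P0 V a → 0 ≤ ∑ b, xr (xe x) (P0 V) a b * ψ a b s)
    (hup : ∀ s ∈ Icc (0 : ℝ) bt, ∀ a b, P0 V a → P0 V b → a ≠ b →
      (1 + s)⁻¹ + ∑ c, xr (xe x) (P0 V) a c * ψ a c s ≤ ab (xe x a b) s)
    (hte : TEnd (xe x) (P0 V) ψ ψ' (dn (xe x) (P0 V) ψ') C Q)
    (hrow : ∀ h H, Kn (xe x) (P0 V) (dn (xe x) (P0 V) ψ') ab h H bt → ∀ u, ∑ g, h bt u g ≤ mt)
    (hcb : ∀ h H, Kn (xe x) (P0 V) (dn (xe x) (P0 V) ψ') ab h H bt → ∀ u v, P0 V u → P0 V v →
      u ≠ v → xe x u v ≠ 0 → ∀ γ ∈ Icc 0 (2 * vt)⁻¹, ∑ d ∈ ({u, v} : Finset (V ⊕ V))ᶜ,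
        ((h bt u d + h bt v d) * (ppp h u v d bt - γ * Yq h bt u v d)
          - γ * (2 * (h bt u d * h bt v d) * ppp h u v d bt))
        ≤ (RR (xe x) (dn (xe x) (P0 V) ψ') C u v - e0 - γ * Q u v) * pp h u v bt)
    (hmain : ∀ h H t, Kn (xe x) (P0 V) (dn (xe x) (P0 V) ψ') ab h H t → ∀ u v, P0 V u → P0 V v →
      u ≠ v → xe x u v ≠ 0 → dn (xe x) (P0 V) ψ' u v t < Real.exp (H u v t) * pp h u v t) :
    ∃ S : Scheme G, ∀ e : G.edgeSet, cT * x e ≤ S.selProb x e := by
  have hd1 : ∀ e, x e ≤ 1 := fun e => (hx.1 e).2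
  have hw : Wt (xe x) (P0 V) 1 := wt_xe hx zero_le_one le_rfl hd1
  have hph' : ∀ a b, dn (xe x) (P0 V) ψ' a b bt ≤ ph := fun a b => by
    by_cases hP : (P0 V a ∧ P0 V b) ∧ xe x a b ≠ 0
    · exact hte.ph a b hP.1.1 hP.1.2 hP.2
    · unfold dn
      rw [if_neg hP]
      exact q2_ph
  -- a bound of the densities
  obtain ⟨C0, hC0, hC'⟩ := exists_bound (ι := (V ⊕ V) × (V ⊕ V))
    (f := fun p => dx (xe x) ψ' C Q p.1 p.2) (fun p => dx_cont hψ _ _)
  have hC : ∀ a b, ∀ t ∈ Icc (0 : ℝ) bt, dn (xe x) (P0 V) ψ' a b t ≤ C0 := fun a b t ht => by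
    have := hC' (a, b) t (btI ht)
    simp only [dx_le ht.2] at this
    exact this
  set g : (V ⊕ V) × (V ⊕ V) → ℝ := fun p =>
    if xe x p.1 p.2 < 1 then (1 - xe x p.1 p.2)⁻¹ else 0 with hg
  have hg0 : ∀ p, 0 ≤ g p := fun p => by
    simp only [hg]
    split_ifs with h
    · exact inv_nonneg.2 (by linarith)
    · exact le_rfl
  set M : ℝ := 4 * C0 + ∑ p, g p + 4 with hM
  have hsg : 0 ≤ ∑ p, g p := Finset.sum_nonneg fun p _ => hg0 p
  have hgM : ∀ a b, g (a, b) ≤ M := fun a b => by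
    have := Finset.single_le_sum (f := g) (fun p _ => hg0 p) (Finset.mem_univ (a, b))
    linarith
  have hM0 : 4 ≤ M := by linarith
  have hMC : 4 * C0 + 4 ≤ M := by linarith
  obtain ⟨c1, hc1, hc⟩ := exists_lower (ι := (V ⊕ V) × (V ⊕ V))
    (f := fun p => dx (xe x) ψ' C Q p.1 p.2) (fun p => dx_cont hψ _ _)
    (fun p t ht => dx_pos hψ (xe_nonneg x hx) (xe_diag x) hte p.1 p.2 ht)
  set δ : ℝ := min 1 (c1 / M) with hδ
  have hδ0 : 0 < δ := lt_min one_pos (div_pos hc1 (by linarith))
  have hδ1 : δ * M ≤ c1 := by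
    have h1 : δ ≤ c1 / M := min_le_right _ _
    have h2 := mul_le_mul_of_nonneg_right h1 (show 0 ≤ M by linarith)
    rwa [div_mul_cancel₀ _ (show M ≠ 0 by linarith)] at h2
  have hD : Data (xe x) (dx (xe x) ψ' C Q) (fun a b _ => M * xe x a b) δ := by
    refine ⟨xe_symm x, xe_nonneg x hx, xe_diag x, fun a b t => ?_,
      fun a b t ht => (dx_pos hψ (xe_nonneg x hx) (xe_diag x) hte a b ht).le,
      dx_cont hψ, fun a b t => ?_, fun a b t _ => ?_, fun a b => continuousOn_const, hδ0,
      min_le_left _ _, fun a b _ t ht => ?_, fun a b hab t _ => ?_, fun a b hab => ?_⟩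
    · unfold dx
      rw [dn_symm hw hψ a b, Rx_symm (xe_symm x) hte.cs a b, Qx_symm (xe_symm x) hte.qs a b]
    · rw [xe_symm x a b]
    · exact mul_nonneg (by linarith) (xe_nonneg x hx a b)
    · have h1 := hc (a, b) t ht
      have h2 : δ * (M * xe x a b) = xe x a b * (δ * M) := by ring
      rw [h2]
      exact mul_le_mul_of_nonneg_left (hδ1.trans h1) (xe_nonneg x hx a b)
    · have : 0 < xe x a b := lt_of_le_of_ne (xe_nonneg x hx a b) (Ne.symm hab)
      have : 0 < M := by linarith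
      positivity
    · have h2 : dx (xe x) ψ' C Q a b 0 ≤ M := by
        rw [dx_le bt_nn]
        have := hC a b 0 bt_m0
        linarith
      calc _ ≤ xe x a b * M := mul_le_mul_of_nonneg_left h2 (xe_nonneg x hx a b)
        _ = _ := mul_comm _ _
  have hq2 : ∀ s : ℝ, 0 ≤ s → ((1 + s) ^ 2)⁻¹ ≤ (1 + s)⁻¹ := by
    intro s hs
    have hT : 0 < 1 + s := by linarith
    have hT1 : (1 + s)⁻¹ ≤ 1 := inv_le_one_of_one_le₀ (by linarith)
    have e1 : ((1 + s) ^ 2)⁻¹ = (1 + s)⁻¹ * (1 + s)⁻¹ := by rw [pow_two, mul_inv]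
    rw [e1]
    exact mul_le_of_le_one_left (inv_pos.2 hT).le hT1
  -- the certification up to the end time
  have hCert0 : ∀ (h : ℝ → V ⊕ V → V ⊕ V → ℝ) (H : V ⊕ V → V ⊕ V → ℝ → ℝ), Haz h H →
      (∀ t ∈ Icc (0 : ℝ) 1, ∀ a b, xe x a b = 0 → h t a b = 0) →
      ∀ t ∈ Icc (0 : ℝ) bt,
      (∀ s ∈ Icc 0 t, ∀ a b, h s a b * pp h a b s = xe x a b * dn (xe x) (P0 V) ψ' a b s) →
      (∀ s ∈ Icc 0 t, ∀ a b, P0 V a ∧ P0 V b → xe x a b ≠ 0 →
        dn (xe x) (P0 V) ψ' a b s ≤ Real.exp (H a b s) * pp h a b s) →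
      Kn (xe x) (P0 V) (dn (xe x) (P0 V) ψ') ab h H t ∧
      (∀ v : V, (1 + t)⁻¹ ≤ bb h ∅ (Sum.inl v) t) ∧ ∀ a b, xe x a b ≠ 0 →
        (¬(P0 V a ∧ P0 V b) → (1 + t)⁻¹ ≤ pp h a b t) ∧
        (P0 V a ∧ P0 V b → dn (xe x) (P0 V) ψ' a b t < Real.exp (H a b t) * pp h a b t) ∧
        dn (xe x) (P0 V) ψ' a b t ≤ Real.exp (H a b t) * pp h a b t ∧
        dn (xe x) (P0 V) ψ' a b t < M * pp h a b t ∧
        (xe x a b = 1 → P0 V a → P0 V b → (1 + t)⁻¹ ≤ pp h a b t) := by
    intro h H hh hz t ht hfl hacR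
    have hH0 : ∀ a b, ∀ s, 0 ≤ s → 0 ≤ H a b s := fun a b s hs => hh.Hnn a b hs
    -- free probabilities of the real vertices
    have hlow : ∀ s ∈ Icc 0 t, ∀ v : V, (1 + s)⁻¹ ≤ bb h ∅ (Sum.inl v) s := by
      intro s hs v
      rw [free_eq hw hψ hh ht hfl (P0_inl v) hs]
      have := hlo s ⟨hs.1, hs.2.trans ht.2⟩ (Sum.inl v) (P0_inl v)
      linarith
    -- pendant pairs
    have hpp : ∀ s ∈ Icc 0 t, ∀ v : V, (1 + s)⁻¹ ≤ pp h (Sum.inl v) (Sum.inr v) s := by
      intro s hs v
      rw [pp_pend hh hz v ⟨hs.1, hs.2.trans (bt2 ht)⟩]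
      exact hlow s hs v
    have hpend : ∀ s ∈ Icc 0 t, ∀ a b, ¬(P0 V a ∧ P0 V b) → xe x a b ≠ 0 →
        (1 + s)⁻¹ ≤ pp h a b s := by
      intro s hs a b hR hab
      rcases a with a | a
      · rcases b with b | b
        · exact absurd ⟨P0_inl a, P0_inl b⟩ hR
        · have := xe_pend hab
          subst this
          exact hpp s hs b
      · rcases b with b | b
        · have hab2 : xe x (Sum.inl b) (Sum.inr a) ≠ 0 := by rwa [xe_symm]
          have := xe_pend hab2
          subst this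
          have e1 : pp h (Sum.inr a) (Sum.inl a) s = pp h (Sum.inl a) (Sum.inr a) s := by
            unfold pp; rw [Finset.pair_comm]
          rw [e1]
          exact hpp s hs a
        · exact absurd rfl hab
    have hac : ∀ s ∈ Icc 0 t, ∀ a b, xe x a b ≠ 0 →
        dn (xe x) (P0 V) ψ' a b s ≤ Real.exp (H a b s) * pp h a b s := by
      intro s hs a b hab
      by_cases hR : P0 V a ∧ P0 V b
      · exact hacR s hs a b hR hab
      · rw [dn_pend hR]
        have h1 := hpend s hs a b hR hab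
        have h2 := hq2 s hs.1
        have h3 : 1 ≤ Real.exp (H a b s) := Real.one_le_exp (hH0 a b s hs.1)
        have h4 : 0 ≤ pp h a b s := pp_nonneg hh a b ⟨hs.1, hs.2.trans (bt2 ht)⟩
        have h5 := mul_le_mul_of_nonneg_right h3 h4
        linarith
    have hK : Kn (xe x) (P0 V) (dn (xe x) (P0 V) ψ') ab h H t :=
      kn_of hw hψ hlo hup hh hz ht hfl hac
    refine ⟨hK, hlow t ⟨ht.1, le_rfl⟩, fun a b hab => ?_⟩
    have htt : t ∈ Icc 0 t := ⟨ht.1, le_rfl⟩
    have hab' : a ≠ b := fun e => hab (by rw [e]; exact xe_diag x b)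
    have hx0 : 0 < xe x a b := lt_of_le_of_ne (xe_nonneg x hx a b) (Ne.symm hab)
    refine ⟨fun hR => hpend t htt a b hR hab,
      fun hR => hmain h H t hK a b hR.1 hR.2 hab' hab, hac t htt a b hab, ?_,
      fun h1 _ _ => pp_iso hK hw hab' h1 htt⟩
    have hCt : dn (xe x) (P0 V) ψ' a b t ≤ C0 := hC a b t ht
    -- `φ < M pp`
    have hiso : (1 + t)⁻¹ ≤ pp h a b t → dn (xe x) (P0 V) ψ' a b t < M * pp h a b t := by
      intro h1
      have h2 : (1 / 2 : ℝ) ≤ (1 + t)⁻¹ := by
        rw [← one_div, div_le_div_iff₀ (by norm_num) (by linarith [ht.1])]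
        linarith [bt2 ht]
      have h3 : M * (1 / 2) ≤ M * pp h a b t :=
        mul_le_mul_of_nonneg_left (h2.trans h1) (by linarith)
      linarith
    by_cases hR : P0 V a ∧ P0 V b
    · by_cases h1 : xe x a b < 1
      · have h2 := hmain h H t hK a b hR.1 hR.2 hab' hab
        have h3 := hK.expH hw a b htt
        have h4 : 1 - xe x a b ≤ Real.exp (-H a b t) := by
          have : xe x a b * t ≤ xe x a b * 1 := mul_le_mul_of_nonneg_left (bt2 ht) hx0.le
          linarith
        have h5 : Real.exp (H a b t) ≤ (1 - xe x a b)⁻¹ := by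
          rw [Real.exp_neg] at h4
          have := inv_anti₀ (by linarith : (0 : ℝ) < 1 - xe x a b) h4
          rwa [inv_inv] at this
        have h6 : (1 - xe x a b)⁻¹ ≤ M := by
          have := hgM a b
          simp only [hg, if_pos h1] at this
          exact this
        have h7 : 0 ≤ pp h a b t := pp_nonneg hh a b (btI ht)
        have h8 := mul_le_mul_of_nonneg_right (h5.trans h6) h7
        linarith
      · have h2 : xe x a b = 1 := by
          have := (hw.row a)
          have h3 : xe x a b ≤ ∑ c, xe x a c :=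
            Finset.single_le_sum (f := fun c => xe x a c) (fun c _ => xe_nonneg x hx a c)
              (Finset.mem_univ b)
          push Not at h1
          linarith
        exact hiso (pp_iso hK hw hab' h2 htt)
    · exact hiso (hpend t htt a b hR hab)
  have hCert : Certified2 (xe x) (dx (xe x) ψ' C Q) (fun a b _ => M * xe x a b)
      (fun a b => P0 V a ∧ P0 V b) := by
    intro h H hh hcap hz t ht hfl hacR
    rcases le_or_gt t bt with htb | htb
    · intro a b hab
      have hx0 : 0 < xe x a b := lt_of_le_of_ne (xe_nonneg x hx a b) (Ne.symm hab)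
      obtain ⟨-, k1, k2, k3, -⟩ := (hCert0 h H hh hz t ⟨ht.1, htb⟩
        (fun s hs a b => by
          have := hfl s hs a b
          rwa [dx_le (hs.2.trans htb)] at this)
        (fun s hs a b hR hab => by
          have := hacR s hs a b hR hab
          rwa [dx_le (hs.2.trans htb)] at this)).2.2 a b hab
      rw [dx_le htb]
      refine ⟨k1, k2, ?_⟩
      have := mul_lt_mul_of_pos_left k3 hx0
      calc _ < xe x a b * (M * pp h a b t) := this
        _ = _ := by ring
    · obtain ⟨hKb, kb, kk⟩ := hCert0 h H hh hz bt bt_m1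
        (fun s hs a b => by
          have := hfl s ⟨hs.1, hs.2.trans htb.le⟩ a b
          rwa [dx_le hs.2] at this)
        (fun s hs a b hR hab => by
          have := hacR s ⟨hs.1, hs.2.trans htb.le⟩ a b hR hab
          rwa [dx_le hs.2] at this)
      have x0 := xe_nonneg x hx
      have hle1 : ∀ u v, xe x u v ≤ 1 := fun u v => by
        have h1 := hw.row u
        have h3 : xe x u v ≤ ∑ c, xe x u c :=
          Finset.single_le_sum (f := fun c => xe x u c) (fun c _ => x0 u c) (Finset.mem_univ v)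
        linarith
      have hfl' : ∀ r ∈ Icc bt t, ∀ u v, h r u v * pp h u v r = xe x u v * dx (xe x) ψ' C Q u v r :=
        fun r hr u v => hfl r ⟨bt_nn.trans hr.1, hr.2⟩ u v
      have hdn : ∀ r ∈ Icc bt t, ∀ u v, dx (xe x) ψ' C Q u v r ≤ dn (xe x) (P0 V) ψ' u v bt :=
        fun r hr u v => by
        rw [dx_ge hr.1]
        have h2 := mul_le_mul_of_nonneg_right ((tn_of hψ x0 (xe_diag x) hte).rho_le (a := u) (b := v)
          hr.1 (hr.2.trans ht.2)) (dn_pos hψ u v bt_m1).le
        linarith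
      have hfx : ∀ r ∈ Icc bt t, ∀ u v, h r u v * pp h u v r ≤ xe x u v * ph := fun r hr u v => by
        rw [hfl' r hr u v]
        exact mul_le_mul_of_nonneg_left ((hdn r hr u v).trans (hph' u v)) (x0 u v)
      have hMp : 0 < M := by linarith
      have hpT : ∀ u v, xe x u v ≠ 0 → 0 < pp h u v bt := fun u v h0 => by
        obtain ⟨-, -, -, k3, -⟩ := kk u v h0
        have h1 := dn_pos hψ u v bt_m1
        exact (pos_iff_pos_of_mul_pos (h1.trans k3)).1 hMp
      have hrate : ∀ u v, u ≠ v → xe x u v ≠ 0 → ∀ γ ∈ Icc 0 (2 * vt)⁻¹,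
          ∑ c ∈ ({u, v} : Finset (V ⊕ V))ᶜ, ((h bt u c + h bt v c)
            * (ppp h u v c bt - γ * Yq h bt u v c)
            - γ * (2 * (h bt u c * h bt v c) * ppp h u v c bt))
            < (Rx (xe x) ψ' C u v - γ * Qx (xe x) Q u v) * pp h u v bt := by
        intro u v huv h0 γ hγ
        have hp := hpT u v h0
        by_cases hR : P0 V u ∧ P0 V v
        · have k := hcb h H hKb u v hR.1 hR.2 huv h0 γ hγ
          unfold Rx Qx
          rw [if_pos ⟨hR, h0⟩, if_pos ⟨hR, h0⟩]
          refine lt_of_le_of_lt k (mul_lt_mul_of_pos_right ?_ hp)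
          linarith [e0_pos]
        · have k := flux_le hh huv x0 hw.row (xe_symm x) ph_pos.le (btI bt_m1)
            (fun a b => hfx bt ⟨le_rfl, htb.le⟩ a b)
          have k2 := (kk u v h0).1 hR
          have kY : ∑ c ∈ ({u, v} : Finset (V ⊕ V))ᶜ, ((h bt u c + h bt v c)
              * (ppp h u v c bt - γ * Yq h bt u v c)
              - γ * (2 * (h bt u c * h bt v c) * ppp h u v c bt))
              ≤ ∑ c ∈ ({u, v} : Finset (V ⊕ V))ᶜ, (h bt u c + h bt v c) * ppp h u v c bt := by
            refine Finset.sum_le_sum fun c _ => ?_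
            have y0 : 0 ≤ Yq h bt u v c := by
              unfold Yq
              exact Finset.sum_nonneg fun e _ => mul_nonneg
                (add_nonneg (hh.nonneg _ _ _) (hh.nonneg _ _ _))
                ((hh.lw ∅).pr_nonneg _ (btI bt_m1))
            have y1 := mul_nonneg hγ.1 y0
            have y2 := mul_le_mul_of_nonneg_left
              (show ppp h u v c bt - γ * Yq h bt u v c ≤ ppp h u v c bt by linarith)
              (add_nonneg (hh.nonneg bt u c) (hh.nonneg bt v c))
            have y3 : 0 ≤ γ * (2 * (h bt u c * h bt v c) * ppp h u v c bt) :=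
              mul_nonneg hγ.1 (mul_nonneg (mul_nonneg zero_le_two
                (mul_nonneg (hh.nonneg _ _ _) (hh.nonneg _ _ _)))
                (ppp_nonneg hh u v c (btI bt_m1)))
            linarith
          unfold Rx Qx
          rw [if_neg (fun hP => hR hP.1), if_neg (fun hP => hR hP.1), mul_zero, sub_zero]
          have k3 : 2 * (1 - xe x u v) * ph ≤ 2 * ph := by
            have := mul_nonneg (x0 u v) ph_pos.le
            linarith
          have k4 : tk * (1 + bt)⁻¹ ≤ tk * pp h u v bt :=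
            mul_le_mul_of_nonneg_left k2 tk_pos.le
          linarith [ph_tk]
      have hcl := tail_claim4 hh (tn_of hψ x0 (xe_diag x) hte) bt_nn ht.2 (hrow h H hKb) x0
        (fun r hr u v h0 => hz r ⟨bt_nn.trans hr.1, hr.2.trans ht.2⟩ u v h0) hfl'
        (fun r hr u v _ => by
          rw [dx_le (a := u) (b := v) le_rfl]
          exact dx_ge hr.1) (fun u v _ => by
          rw [dx_le (a := u) (b := v) le_rfl]
          exact dn_pos hψ u v bt_m1) hpT hrate (xe_diag x)
      have hq := bt_ph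
      have hphw : ph * (t - bt) ≤ (1 - bt) * ph := by
        rw [mul_comm (1 - bt)]
        exact mul_le_mul_of_nonneg_left (by linarith [ht.2]) ph_pos.le
      -- the free probabilities on the tail
      have hbt : ∀ v : V, (1 + bt)⁻¹ - ph * (t - bt) ≤ bb h ∅ (Sum.inl v) t := fun v => by
        have h1 := bb_tail hh (Sum.inl v) (F := ph) bt_nn htb.le ht.2 (fun r hr => by
          refine (Finset.sum_le_sum fun c _ => hfx r hr _ c).trans ?_
          rw [← Finset.sum_mul]
          exact mul_le_of_le_one_left ph_pos.le (hw.row _))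
        have h2 := kb v
        linarith
      intro a b hab
      have hx0 : 0 < xe x a b := lt_of_le_of_ne (xe_nonneg x hx a b) (Ne.symm hab)
      have hab' : a ≠ b := fun e => hab (by rw [e]; exact xe_diag x b)
      obtain ⟨k0, k1, k2, k3, k4⟩ := kk a b hab
      have htt : t ∈ Icc bt t := ⟨htb.le, le_rfl⟩
      have p0 : 0 ≤ pp h a b t := pp_nonneg hh a b ht
      have hdp : dx (xe x) ψ' C Q a b t ≤ C0 := hC' (a, b) t ht
      -- a bound which suffices for the cap
      have hcap2 : 1 / 4 ≤ pp h a b t →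
          dx (xe x) ψ' C Q a b t < M * pp h a b t := fun h1 => by
        have h2 : M * (1 / 4) ≤ M * pp h a b t := mul_le_mul_of_nonneg_left h1 (by linarith)
        linarith
      have fin2 : dx (xe x) ψ' C Q a b t < M * pp h a b t →
          xe x a b * dx (xe x) ψ' C Q a b t < M * xe x a b * pp h a b t := fun h1 => by
        have := mul_lt_mul_of_pos_left h1 hx0
        calc _ < xe x a b * (M * pp h a b t) := this
          _ = _ := by ring
      by_cases hR : P0 V a ∧ P0 V b
      · -- a real pair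
        have hacc : ∀ r ∈ Icc 0 t, h r a b ≤ xe x a b * Real.exp (H a b r) := fun r hr => by
          have h1 := hfl r hr a b
          have h2 := hacR r hr a b hR hab
          have h3 := dx_pos hψ x0 (xe_diag x) hte a b (t := r) ⟨hr.1, hr.2.trans ht.2⟩
          have h4 : 0 < pp h a b r :=
            pos_of_mul_pos_right (lt_of_lt_of_le h3 h2) (Real.exp_pos _).le
          refine le_of_mul_le_mul_right ?_ h4
          rw [h1, mul_assoc]
          exact mul_le_mul_of_nonneg_left h2 hx0.le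
        have hE : ∀ r ∈ Icc 0 t, 1 - xe x a b ≤ Real.exp (-H a b r) := fun r hr => by
          have h1 := expH_of hh hx0.le hacc hr
          have h2 : xe x a b * r ≤ xe x a b * 1 :=
            mul_le_mul_of_nonneg_left (hr.2.trans ht.2) hx0.le
          linarith
        have h2 := k1 hR
        have h3 : dx (xe x) ψ' C Q a b t < Real.exp (H a b t) * pp h a b t := by
          have i1 := hcl t htt a b hab
          have i3 : 0 < rho4 (Rx (xe x) ψ' C) (Qx (xe x) Q) mt vt bt a b t :=
            (tn_of hψ x0 (xe_diag x) hte).rho_pos htb.le ht.2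
          have i4 := mul_lt_mul_of_pos_left h2 i3
          rw [dx_ge htb.le]
          linarith
        refine ⟨fun _ => h3, h3.le, fin2 ?_⟩
        by_cases h4 : xe x a b < 1
        · have h5 : Real.exp (H a b t) ≤ (1 - xe x a b)⁻¹ := by
            have h6 := hE t ⟨ht.1, le_rfl⟩
            rw [Real.exp_neg] at h6
            have := inv_anti₀ (by linarith : (0 : ℝ) < 1 - xe x a b) h6
            rwa [inv_inv] at this
          have h6 : (1 - xe x a b)⁻¹ ≤ M := by
            have := hgM a b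
            simp only [hg, if_pos h4] at this
            exact this
          exact h3.trans_le (mul_le_mul_of_nonneg_right (h5.trans h6) p0)
        · have h5 : xe x a b = 1 := by
            have := hle1 a b
            push Not at h4
            linarith
          have h6 := pp_tail hh hab' x0 hw.row (xe_symm x) ph_pos.le bt_nn htb.le ht.2 hfx
          have h7 := k4 h5 hR.1 hR.2
          rw [h5] at h6
          refine hcap2 ?_
          linarith
      · -- a pendant pair
        have hppt : (1 + bt)⁻¹ - ph * (t - bt) ≤ pp h a b t := by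
          rcases a with a | a
          · rcases b with b | b
            · exact absurd ⟨P0_inl a, P0_inl b⟩ hR
            · have := xe_pend hab
              subst this
              rw [pp_pend hh hz b ht]
              exact hbt b
          · rcases b with b | b
            · have hab2 : xe x (Sum.inl b) (Sum.inr a) ≠ 0 := by rwa [xe_symm]
              have := xe_pend hab2
              subst this
              have e1 : pp h (Sum.inr a) (Sum.inl a) t = pp h (Sum.inl a) (Sum.inr a) t := by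
                unfold pp; rw [Finset.pair_comm]
              rw [e1, pp_pend hh hz a ht]
              exact hbt a
            · exact absurd rfl hab
        have e1 : 1 ≤ Real.exp (H a b t) := Real.one_le_exp (hh.Hnn a b ht.1)
        have h1 : dx (xe x) ψ' C Q a b t ≤ pp h a b t := by
          have h2 := hdn t htt a b
          rw [dn_pend hR] at h2
          have h3 := bt_q2
          linarith
        refine ⟨fun h => absurd h hR, h1.trans ?_, fin2 (hcap2 (by linarith))⟩
        have := mul_le_mul_of_nonneg_right e1 p0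
        linarith
  refine sel_of_cert hx hD
    (certified_of_certified2 (dx_cont hψ) (fun a b _ => by
      rw [dx_le bt_nn]; exact dn_zero hψ a b) hCert) (fun e hxe0 => ?_)
  -- the integral
  have hT : ∀ s : ℝ, 0 ≤ s → (1 + s) ≠ 0 := fun s hs => by linarith
  have hi : IntervalIntegrable (dx (xe x) ψ' C Q (Sum.inl (fe e)) (Sum.inl (se e)))
      MeasureTheory.volume 0 1 := by
    refine ContinuousOn.intervalIntegrable ?_
    rw [Set.uIcc_of_le zero_le_one]
    exact dx_cont hψ _ _
  have hi1 : IntervalIntegrable (dx (xe x) ψ' C Q (Sum.inl (fe e)) (Sum.inl (se e)))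
      MeasureTheory.volume 0 bt := hi.mono_set (by
    rw [Set.uIcc_of_le bt_nn, Set.uIcc_of_le zero_le_one]
    exact btS)
  have hi2 : IntervalIntegrable (dx (xe x) ψ' C Q (Sum.inl (fe e)) (Sum.inl (se e)))
      MeasureTheory.volume bt 1 := hi.mono_set (by
    rw [Set.uIcc_of_le bt_le, Set.uIcc_of_le zero_le_one]
    exact Icc_subset_Icc_left bt_nn)
  rw [integral_Ico_eq_integral_Ioc, ← intervalIntegral.integral_of_le zero_le_one,
    ← intervalIntegral.integral_add_adjacent_intervals hi1 hi2]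
  have e0 : ∫ t in (0 : ℝ)..bt, dx (xe x) ψ' C Q (Sum.inl (fe e)) (Sum.inl (se e)) t
      = ∫ t in (0 : ℝ)..bt, dn (xe x) (P0 V) ψ' (Sum.inl (fe e)) (Sum.inl (se e)) t := by
    refine intervalIntegral.integral_congr fun t ht => ?_
    rw [Set.uIcc_of_le bt_nn] at ht
    exact dx_le ht.2
  set a : V ⊕ V := Sum.inl (fe e) with ha
  set b : V ⊕ V := Sum.inl (se e) with hb
  have he : xe x a b ≠ 0 := by
    have : xe x a b = x e := xw_rep x e
    rw [this]; exact hxe0
  have hab : a ≠ b := fun e1 => he (by rw [e1]; exact xe_diag x b)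
  set R := Rx (xe x) ψ' C a b with hR
  have hR2 : R = RR (xe x) (dn (xe x) (P0 V) ψ') C a b := by
    rw [hR]
    unfold Rx
    rw [if_pos ⟨⟨P0_inl _, P0_inl _⟩, he⟩]
  have hQ2 : Qx (xe x) Q a b = Q a b := by
    unfold Qx
    rw [if_pos ⟨⟨P0_inl _, P0_inl _⟩, he⟩]
  have e2 : ∫ t in bt..1, dx (xe x) ψ' C Q a b t
      = dn (xe x) (P0 V) ψ' a b bt * ((1 - bt) - R * ((1 - bt) ^ 2 / 2)
        + Q a b * tG mt vt (1 - bt)) := by
    have e3 : ∫ t in bt..1, dx (xe x) ψ' C Q a b t
        = ∫ t in bt..1, (dn (xe x) (P0 V) ψ' a b bt * (1 - R * (t - bt)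
          + Q a b * tg2 mt vt (t - bt))) := by
      refine intervalIntegral.integral_congr fun t ht => ?_
      rw [Set.uIcc_of_le bt_le] at ht
      rw [dx_ge ht.1]
      unfold rho4
      rw [← hR, hQ2]
      ring
    rw [e3, intervalIntegral.integral_eq_sub_of_hasDerivAt
      (f := fun t => dn (xe x) (P0 V) ψ' a b bt * ((t - R / 2 * (t - bt) ^ 2)
        + Q a b * tG mt vt (t - bt)))
      (fun t _ => by
        have d2 := (((hasDerivAt_id t).sub_const bt).pow 2)
        have d3 := ((tG_deriv mt vt (t - bt)).comp_sub_const t bt).const_mul (Q a b)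
        have d1 := (((hasDerivAt_id t).sub (d2.const_mul (R / 2))).add d3).const_mul
          (dn (xe x) (P0 V) ψ' a b bt)
        refine d1.congr_deriv ?_
        simp only [id]
        push_cast
        ring)
      (by
        refine Continuous.intervalIntegrable ?_ _ _
        have c2 : Continuous (tg2 mt vt) := continuous_iff_continuousAt.2 fun s =>
          (tg2_deriv mt vt s).continuousAt
        exact continuous_const.mul ((continuous_const.sub (continuous_const.mul (by fun_prop))).add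
          (continuous_const.mul (c2.comp (by fun_prop)))))]
    simp only [sub_self, tG_zero]
    ring
  have d1 : ∀ t ∈ Set.uIcc (0 : ℝ) bt, HasDerivAt (fun s : ℝ => -(1 + s)⁻¹)
      (((1 + t) ^ 2)⁻¹) t := by
    intro t ht
    rw [Set.uIcc_of_le bt_nn] at ht
    have := (((hasDerivAt_id t).const_add 1).inv (hT t ht.1)).neg
    refine this.congr_deriv ?_
    simp only [id]; rw [neg_div, one_div, neg_neg]
  have hb1 : (1 + bt) ≠ 0 := hT bt bt_nn
  have e4 : bt / (1 + bt) = 1 - (1 + bt)⁻¹ := by field_simp; ring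
  have e1 : ∀ t, dn (xe x) (P0 V) ψ' a b t = ((1 + t) ^ 2)⁻¹ - ψ' a b t := fun t =>
    dn_real (P0_inl _) (P0_inl _) he t
  rw [e0, e2]
  simp only [e1]
  rw [intervalIntegral.integral_eq_sub_of_hasDerivAt
    (f := fun s => -(1 + s)⁻¹ - ψ a b s)
    (fun t ht => (d1 t ht).sub (hψ.d _ _ (P0_inl _) (P0_inl _) t (by
      rwa [Set.uIcc_of_le bt_nn] at ht))) (by
    refine ContinuousOn.intervalIntegrable ?_
    rw [Set.uIcc_of_le bt_nn]; exact cont_q2.sub (hψ.c _ _))]
  have h1 := hte.en a b (P0_inl _) (P0_inl _) hab he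
  rw [← hR2, e4] at h1
  rw [hψ.z0 _ _ (P0_inl _) (P0_inl _)]
  simp only [add_zero, inv_one]
  linarith

end final

end Pool.Agent.RX.RCN
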