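import Pool.Agent.RX.RCM.BEps
import Pool.Agent.RX.RCM.BMl
import Pool.Agent.RX.RCN.Free
import Pool.Agent.RX.RCN.Ident
import Pool.Agent.RX.RCN.Mex_1

/-! The (M) lemma in the certified process, with explicit integrals (MP_73ccd0_lc, route M). -/

namespace Pool.Agent.RX.RCN

open Set Finset MeasureTheory Pool.Agent.RX.RCRSHalf Pool.Agent.RX.RCG Pool.Agent.RX.RCG.Ct Pool.Agent.RX.RCM

set_option linter.unusedSectionVars false

variable {V : Type*} [Fintype V] [DecidableEq V]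
variable {x : V → V → ℝ} {P : V → Prop} [DecidablePred P]
variable {h : ℝ → V → V → ℝ} {H : V → V → ℝ → ℝ}
variable {ψ ψ' : V → V → ℝ → ℝ} {ab : ℝ → ℝ → ℝ} {t : ℝ}

/-- the (M) lemma in terms of closures and density bounds, the latter only for positive hazards -/
theorem mlem_clo' (hh : Haz h H) {a b c : V} (hab : a ≠ b) (hac : a ≠ c) (hbc : b ≠ c) {t : ℝ}
    (ht : t ∈ Icc (0 : ℝ) bt) {nu nut B : V → ℝ → ℝ}
    (nu0 : ∀ d ∈ ({a, b, c} : Finset V)ᶜ, ∀ s ∈ Icc 0 t, 0 ≤ nu d s)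
    (nu1 : ∀ d ∈ ({a, b, c} : Finset V)ᶜ, ∀ s ∈ Icc 0 t, nu d s ≤ 1)
    (hC : ∀ d ∈ ({a, b, c} : Finset V)ᶜ, ∀ s ∈ Icc 0 t, ∃ K,
      CloD h t s {a} {a, b} c d K ∧ (1 - nu d s) * K ≤ 1)
    (hCt : ∀ d ∈ ({a, b, c} : Finset V)ᶜ, ∀ s ∈ Icc 0 t, ∃ K,
      CloDt h t s {a} {a, b} c d K ∧ (1 - nut d s) * K ≤ 1)
    (hB : ∀ d ∈ ({a, b} : Finset V)ᶜ, ∀ s ∈ Icc 0 t, h s b d ≠ 0 → Dens h t s a b d (B d s))
    {Λ Λ' q q' : ℝ → ℝ}
    (dΛ : ∀ s ∈ Icc 0 t, HasDerivAt Λ (Λ' s) s) (dq : ∀ s ∈ Icc 0 t, HasDerivAt q (q' s) s)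
    (hl : ∀ Ra : Finset V → ℝ → ℝ, Wd h (fun r v => h r a v) t Ra → (∀ F, Ra F t = 1) →
      ∀ s ∈ Icc 0 t, ∑ d ∈ ({a, b, c} : Finset V)ᶜ, h s b d * (nut d s * eYt h a b d Ra s)
        ≤ Λ' s * eZ h a b Ra s)
    (Λm : ∀ s ∈ Icc 0 t, Λ s ≤ Λ t)
    (oq : ∀ s ∈ Icc 0 t, h s b c * pr (lw h ∅ s) {b, c} * B c s
      + ∑ d ∈ ({a, b, c} : Finset V)ᶜ, h s b d * pr (lw h ∅ s) {b, d}
        * (B d s * (1 - (1 - nu d s) * Real.exp (-(Λ t - Λ s)))) ≤ q' s) :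
    pr (lw h ∅ t) {a, b, c} * pr (lw h ∅ t) {a} * (1 - (q t - q 0))
      ≤ pr (lw h ∅ t) {a, b} * pr (lw h ∅ t) {a, c} := by
  obtain ⟨Ra, Rac, hRa', a1, hRac', c1⟩ := exists_worlds hh {a} (c := c) (by simp [hac.symm]) (btI ht)
  have hRa : Wd h (fun r v => h r a v) t Ra := hRa'.congr fun r v => by
    rw [Finset.sum_singleton]
  have hRac : Wd h (fun r v => h r a v + h r c v) t Rac := hRac'.congr fun r v => by
    rw [Finset.sum_singleton]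
  have hm : ∀ s ∈ Icc 0 t, s ∈ Icc (0 : ℝ) bt := fun s hs => ⟨hs.1, hs.2.trans ht.2⟩
  have hcm : c ∈ ({a, b} : Finset V)ᶜ := by
    rw [Finset.mem_compl]; simp [hac.symm, hbc.symm]
  have hdm : ∀ d ∈ ({a, b, c} : Finset V)ᶜ, d ∈ ({a, b} : Finset V)ᶜ := by
    intro d hd
    simp only [Finset.mem_compl, Finset.mem_insert, Finset.mem_singleton, not_or] at hd ⊢
    exact ⟨hd.1, hd.2.1⟩
  have hY : ∀ d ∈ ({a, b} : Finset V)ᶜ, ∀ s ∈ Icc 0 t, h s b d ≠ 0 →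
      eY h a b d Ra s ≤ pr (lw h ∅ t) {a} * (pr (lw h ∅ s) {b, d} * B d s) := by
    intro d hd s hs h0
    have e : (insert d ({a, b} : Finset V)) = ({a, b, d} : Finset V) := by
      ext z; simp only [Finset.mem_insert, Finset.mem_singleton]; tauto
    unfold eY
    rw [e]
    exact hB d hd s hs h0 Ra hRa.ev a1
  have x1 : ∀ W : Finset V, ∀ s ∈ Icc 0 t, 0 < ex (lw h ∅ s) W (fun F => Ra F s) :=
    fun W s hs => ex_pos hh (btI (hm s hs)) fun F => hRa.pos F s hs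
  have x2 : ∀ W : Finset V, ∀ s ∈ Icc 0 t, 0 < ex (lw h ∅ s) W (fun F => Rac F s) :=
    fun W s hs => ex_pos hh (btI (hm s hs)) fun F => hRac.pos F s hs
  refine mlem hh hab hac hbc (btI ht) hRa a1 hRac c1 (nu := nu) (nut := nut) nu1 (fun d hd s hs => ?_)
    (fun d hd s hs => ?_) dΛ dq (hl Ra hRa a1) (fun s hs => ?_)
  · obtain ⟨K, hK, hK1⟩ := hC d hd s hs
    unfold eY eZc eX eZ
    exact one_sub_mul_le (mul_pos (x1 _ s hs) (x2 _ s hs)).le (mul_pos (x2 _ s hs) (x1 _ s hs)).le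
      (hK Ra Rac hRa' a1 hRac' c1) hK1
  · obtain ⟨K, hK, hK1⟩ := hCt d hd s hs
    unfold eYt eZc eXt eZ
    have y1 : 0 < ex (lw h ∅ s) (insert d {a, b}) (fun F => Ra (insert d F) s) :=
      ex_pos hh (btI (hm s hs)) fun F => hRa.pos _ s hs
    have y2 : 0 < ex (lw h ∅ s) ({c, d} ∪ {a, b}) (fun F => Rac (insert d F) s) :=
      ex_pos hh (btI (hm s hs)) fun F => hRac.pos _ s hs
    exact one_sub_mul_le (mul_pos y1 (x2 _ s hs)).le (mul_pos y2 (x1 _ s hs)).le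
      (hK Ra Rac hRa' a1 hRac' c1) hK1
  · have hp : 0 ≤ pr (lw h ∅ t) {a} := (pr_pos' hh (btI ht) _).le
    have h1 := mul_le_mul_of_nonneg_left (oq s hs) hp
    refine le_trans ?_ h1
    rw [mul_add, Finset.mul_sum]
    refine add_le_add ?_ (Finset.sum_le_sum fun d hd => ?_)
    · by_cases h0 : h s b c = 0
      · rw [h0]; simp
      have := mul_le_mul_of_nonneg_left (hY c hcm s hs h0) (hh.nonneg s b c)
      refine this.trans (le_of_eq ?_)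
      ring
    · by_cases h0 : h s b d = 0
      · rw [h0]; simp
      have h2 := hY d (hdm d hd) s hs h0
      have e1 : Real.exp (-(Λ t - Λ s)) ≤ 1 := by
        rw [Real.exp_le_one_iff]
        linarith [Λm s hs]
      have e0 := (Real.exp_pos (-(Λ t - Λ s))).le
      have h3 : 0 ≤ 1 - (1 - nu d s) * Real.exp (-(Λ t - Λ s)) := by
        have := nu0 d hd s hs
        have := nu1 d hd s hs
        nlinarith
      have h4 := mul_le_mul_of_nonneg_left (mul_le_mul_of_nonneg_right h2 h3) (hh.nonneg s b d)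
      refine h4.trans (le_of_eq ?_)
      ring

/-- **the (M) lemma in the certified process** -/
theorem Kn.mex (hK : Kn x P (dn x P ψ') ab h H t) (hx : Wt x P 1) (hψ : Cor x P ψ ψ')
    {a b c : V} (hPb : P b) (hPc : P c) (hab : a ≠ b) (hac : a ≠ c) (hbc : b ≠ c)
    {fh nu nut B : V → ℝ → ℝ} {la : ℝ → ℝ} {Bc : ℝ}
    (nu0 : ∀ d ∈ ({a, b, c} : Finset V)ᶜ, ∀ s ∈ Icc 0 t, 0 ≤ nu d s)
    (nu1 : ∀ d ∈ ({a, b, c} : Finset V)ᶜ, ∀ s ∈ Icc 0 t, nu d s ≤ 1)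
    (hC : ∀ d ∈ ({a, b, c} : Finset V)ᶜ, ∀ s ∈ Icc 0 t, ∃ K,
      CloD h t s {a} {a, b} c d K ∧ (1 - nu d s) * K ≤ 1)
    (hCt : ∀ d ∈ ({a, b, c} : Finset V)ᶜ, ∀ s ∈ Icc 0 t, ∃ K,
      CloDt h t s {a} {a, b} c d K ∧ (1 - nut d s) * K ≤ 1)
    (B0 : ∀ d ∈ ({a, b} : Finset V)ᶜ, ∀ s ∈ Icc 0 t, 0 ≤ B d s)
    (hB : ∀ d ∈ ({a, b} : Finset V)ᶜ, x b d ≠ 0 → ∀ s ∈ Icc 0 t, Dens h t s a b d (B d s))
    (hBc : ∀ s ∈ Icc 0 t, Bc ≤ B c s)
    (hfh : ∀ d ∈ ({a, b} : Finset V)ᶜ, x b d ≠ 0 → ∀ s ∈ Icc 0 t, dn x P ψ' b d s ≤ fh d s)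
    (hl : ∀ Ra : Finset V → ℝ → ℝ, Wd h (fun r v => h r a v) t Ra → (∀ F, Ra F t = 1) →
      ∀ s ∈ Icc 0 t, ∑ d ∈ ({a, b, c} : Finset V)ᶜ, h s b d * (nut d s * eYt h a b d Ra s)
        ≤ la s * eZ h a b Ra s)
    (la0 : ∀ s ∈ Icc 0 t, 0 ≤ la s)
    (cfh : ∀ d ∈ ({a, b} : Finset V)ᶜ, ContinuousOn (fh d) (Icc 0 t))
    (cB : ∀ d ∈ ({a, b} : Finset V)ᶜ, ContinuousOn (B d) (Icc 0 t))
    (cnu : ∀ d ∈ ({a, b, c} : Finset V)ᶜ, ContinuousOn (nu d) (Icc 0 t))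
    (cla : ContinuousOn la (Icc 0 t)) :
    ppp h a b c t * bb h ∅ a t * (1 - x b c * (1 - (1 + t)⁻¹ - ψ b c t) * Bc
        - ∫ s in (0 : ℝ)..t, (x b c * fh c s * (B c s - Bc) + er x a b c t fh nu la B s))
      ≤ pp h a b t * pp h a c t := by
  have ht := hK.ht
  have hh := hK.hh
  have h0t : (0 : ℝ) ∈ Icc 0 t := ⟨le_rfl, ht.1⟩
  have htt : t ∈ Icc 0 t := ⟨ht.1, le_rfl⟩
  obtain ⟨Λ, dΛ, eΛ⟩ := exists_prim ht.1 cla
  have Λm : ∀ s ∈ Icc 0 t, Λ s ≤ Λ t := by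
    intro s hs
    have e := eΛ s hs t htt
    have : 0 ≤ ∫ z in s..t, la z :=
      intervalIntegral.integral_nonneg hs.2 fun z hz => la0 z ⟨hs.1.trans hz.1, hz.2⟩
    linarith
  have hcm : c ∈ ({a, b} : Finset V)ᶜ := by
    rw [Finset.mem_compl]; simp [hac.symm, hbc.symm]
  have hdm : ∀ d ∈ ({a, b, c} : Finset V)ᶜ, d ∈ ({a, b} : Finset V)ᶜ := by
    intro d hd
    simp only [Finset.mem_compl, Finset.mem_insert, Finset.mem_singleton, not_or] at hd ⊢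
    exact ⟨hd.1, hd.2.1⟩
  have eer : ∀ s ∈ Icc 0 t, er x a b c t fh nu la B s
      = ∑ d ∈ ({a, b, c} : Finset V)ᶜ, x b d * fh d s * (B d s * (1 - (1 - nu d s)
        * Real.exp (-(Λ t - Λ s)))) := by
    intro s hs
    unfold er
    refine Finset.sum_congr rfl fun d _ => ?_
    rw [eΛ s hs t htt]
  have cΛ : ContinuousOn Λ (Icc 0 t) := fun s hs => (dΛ s hs).continuousAt.continuousWithinAt
  have cer : ContinuousOn (fun s => x b c * fh c s * (B c s - Bc)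
      + er x a b c t fh nu la B s) (Icc 0 t) := by
    have : ContinuousOn (fun s => ∑ d ∈ ({a, b, c} : Finset V)ᶜ,
        x b d * fh d s * (B d s * (1 - (1 - nu d s) * Real.exp (-(Λ t - Λ s))))) (Icc 0 t) :=
      continuousOn_finsetSum _ fun d hd => (continuousOn_const.mul (cfh d (hdm d hd))).mul
        ((cB d (hdm d hd)).mul (continuousOn_const.sub ((continuousOn_const.sub (cnu d hd)).mul
          (Real.continuous_exp.comp_continuousOn (continuousOn_const.sub cΛ).neg))))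
    exact ((continuousOn_const.mul (cfh c hcm)).mul ((cB c hcm).sub continuousOn_const)).add
      (this.congr fun s hs => eer s hs)
  obtain ⟨Q, dQ, eQ⟩ := exists_prim ht.1 cer
  -- the first part
  have dm : ∀ s ∈ Icc 0 t, HasDerivAt (fun s => x b c * (1 - (1 + s)⁻¹ - ψ b c s) * Bc)
      (x b c * (((1 + s) ^ 2)⁻¹ - ψ' b c s) * Bc) s := by
    intro r hr
    have hr1 : r ∈ Icc (0 : ℝ) bt := ⟨hr.1, hr.2.trans ht.2⟩
    have hr0 : (1 + r) ≠ 0 := by linarith [hr.1]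
    have h1 : HasDerivAt (fun s : ℝ => (1 + s)⁻¹) (-((1 + r) ^ 2)⁻¹) r := by
      have := (((hasDerivAt_id r).const_add 1).inv hr0)
      refine this.congr_deriv ?_
      simp only [id]; rw [neg_div, one_div]
    have h2 := (((h1.const_sub 1).sub (hψ.d b c hPb hPc r hr1)).const_mul (x b c)).mul_const Bc
    refine h2.congr_deriv ?_
    ring
  have key := mlem_clo' hh hab hac hbc ht (nu := nu) (nut := nut)
    (B := B) nu0 nu1 hC hCt (fun d hd s hs h0 => hB d hd (fun hx0 => h0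
      (hK.hz s ⟨hs.1, hs.2.trans (bt2 ht)⟩ b d hx0)) s hs)
    (Λ := Λ) (Λ' := la)
    (q := fun s => x b c * (1 - (1 + s)⁻¹ - ψ b c s) * Bc + Q s)
    (q' := fun s => x b c * (((1 + s) ^ 2)⁻¹ - ψ' b c s) * Bc
      + (x b c * fh c s * (B c s - Bc) + er x a b c t fh nu la B s))
    dΛ (fun s hs => (dm s hs).add (dQ s hs))
    hl Λm
    (fun s hs => by
      show h s b c * pp h b c s * B c s + ∑ d ∈ ({a, b, c} : Finset V)ᶜ, h s b d * pp h b d s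
          * (B d s * (1 - (1 - nu d s) * Real.exp (-(Λ t - Λ s)))) ≤ _
      rw [eer s hs, hK.fl s hs b c, ← add_assoc]
      refine add_le_add ?_ (Finset.sum_le_sum fun d hd => ?_)
      · by_cases hx0 : x b c = 0
        · rw [hx0]; simp
        · have f1 := hfh c hcm hx0 s hs
          rw [dn_real hPb hPc hx0] at f1 ⊢
          have f2 := mul_le_mul_of_nonneg_right (mul_le_mul_of_nonneg_left f1 (hx.nonneg b c))
            (sub_nonneg.2 (hBc s hs))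
          linarith
      · have hd2 : d ∈ ({a, b} : Finset V)ᶜ := hdm d hd
        rw [hK.fl s hs b d]
        by_cases hx0 : x b d = 0
        · rw [hx0]; simp
        have f1 := hfh d hd2 hx0 s hs
        have f0 := (hK.fp s hs b d hx0).le
        have n0 := nu0 d hd s hs
        have n1 := nu1 d hd s hs
        have l0 : 0 ≤ Λ t - Λ s := sub_nonneg.2 (Λm s hs)
        have h3 : 0 ≤ B d s * (1 - (1 - nu d s) * Real.exp (-(Λ t - Λ s))) :=
          mul_nonneg (B0 d hd2 s hs) (one_sub_exp_nonneg n0 n1 l0)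
        exact mul_le_mul_of_nonneg_right
              (mul_le_mul_of_nonneg_left f1 (hx.nonneg b d)) h3)
  have e0 : ψ b c 0 = 0 := hψ.z0 b c hPb hPc
  have e1 := eQ 0 h0t t htt
  have e2 : (x b c * (1 - (1 + t)⁻¹ - ψ b c t) * Bc + Q t)
      - (x b c * (1 - (1 + (0 : ℝ))⁻¹ - ψ b c 0) * Bc + Q 0)
      = x b c * (1 - (1 + t)⁻¹ - ψ b c t) * Bc
        + ∫ s in (0 : ℝ)..t, (x b c * fh c s * (B c s - Bc)
          + er x a b c t fh nu la B s) := by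
    rw [e0, ← e1]
    simp
    ring
  simp only [e2] at key
  have e3 : bb h ∅ a t = pr (lw h ∅ t) {a} := rfl
  have e4 : ppp h a b c t = pr (lw h ∅ t) {a, b, c} := rfl
  have e5 : pp h a b t = pr (lw h ∅ t) {a, b} := rfl
  have e6 : pp h a c t = pr (lw h ∅ t) {a, c} := rfl
  rw [e3, e4, e5, e6, sub_sub]
  exact key

end Pool.Agent.RX.RCN
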