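import Pool.Agent.RX.RCN.Fin_2
import Pool.Agent.RX.RCN.Hm_2
import Pool.Agent.RX.RCN.Mex_2

/-! From the closures to the bound of the triple probabilities with an explicit error function
(MP_73ccd0_lc, route M). -/

namespace Pool.Agent.RX.RCN.K

open Set Finset MeasureTheory Pool.Agent.RX.RCRSHalf Pool.Agent.RX.RCG Pool.Agent.RX.RCG.Ct
open Pool.Agent.RX.RCN.Ker Pool.Agent.RX.RCRS Pool.Agent.RX.RCM

set_option linter.unusedSectionVars false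

section defs

variable {V : Type*} [Fintype V] [DecidableEq V]

variable (x : V → V → ℝ) (P : V → Prop) [DecidablePred P] (k : Kf) (X : Xd V)

end defs

variable {V : Type*} [Fintype V] [DecidableEq V]
variable {x : V → V → ℝ} {P : V → Prop} [DecidablePred P] {k : Kf} {X : Xd V} {N : ℕ}

variable {T : Dt} {sl : ℝ → ℝ → ℝ} {w : V → V → ℝ → ℝ}

/-- **the bound of the triple probabilities** -/
theorem hm_of_clo (hf : k.Fit T.cf T.ek) (hk : k.Ok) (h : T.Ok)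
    (hfc : ∀ y ∈ Icc (0 : ℝ) 1, ContinuousOn (k.fh y) (Icc 0 bt)) (hx : Wt x P 1)
    (hw : Wr T.ek.kd x P w)
    (hψ : Cor x P (psi T.cf x P (pfOf T.ek.kd x P w)) (psi' T.cf x P (pfOf T.ek.kd x P w)))
    (hX : Xd.Ok N X x k)
    (hpr : ∀ (h : ℝ → V → V → ℝ) (H : V → V → ℝ → ℝ) (t : ℝ), Cp T sl x P w h H t →
      ∀ a b c, P a → P b → P c → a ≠ b → a ≠ c → b ≠ c → x a b ≠ 0 → x a c ≠ 0 →
        X.Pr x h t a b c) :
    HM T sl k.mb x P w (X.E x P k) := by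
  intro h' H t hKS a b c ha hb hc hab hac hbc hxab hxac
  have hK := hKS.1
  have ht := hK.ht
  have hp := hpr h' H t hKS a b c ha hb hc hab hac hbc hxab hxac
  have e1 : ∀ {a b : V}, P a → P b → xr x P a b = x a b := fun ha hb => by
    unfold xr; rw [if_pos ⟨ha, hb⟩]
  have key := hK.mex hx hψ hb hc hab hac hbc
    (fh := fun d => fq x P k.fh b d) (nu := fun d => X.nu a b c d t)
    (nut := fun d => X.nut a b c d t) (B := fun d => X.B a b d t)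
    (la := X.la a b c t) (Bc := X.Bc x k a b c t)
    (fun d _ s hs => hX.nu0 a b c d t s hs.1 hs.2 ht.2)
    (fun d _ s hs => hX.nu1 a b c d t s hs.1 hs.2 ht.2)
    hp.clo hp.clot
    (fun d hd s hs => by
      simp only [Finset.mem_compl, Finset.mem_insert, Finset.mem_singleton, not_or] at hd
      exact hX.B0 a b d hab (Ne.symm hd.1) (Ne.symm hd.2) t s hs.1 hs.2 ht.2) hp.dens
    (fun s hs => hX.Bc a b c hab hac hbc t s hs.1 hs.2 ht.2)
    (fun d hd hbd s hs => by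
      have hs1 : s ∈ Icc (0 : ℝ) bt := ⟨hs.1, hs.2.trans ht.2⟩
      show _ ≤ fq x P k.fh b d s
      unfold fq
      split_ifs with hPd
      · exact hf.phi_le hk (T.ek_ok h) (T.kd_ok h) hx hw hb hPd hbd hs1
      · unfold dn
        rw [if_neg fun hh => hPd hh.1.2]
        exact le_rfl)
    hp.hl (fun s hs => hX.la0 a b c t s hs.1 hs.2 ht.2)
    (fun d _ => (fq_cont hfc hx hb d).mono (Icc_subset_Icc_right ht.2))
    (fun d _ => (hX.cB a b d).slice hX.N0 ht) (fun d _ => (hX.cnu a b c d).slice hX.N0 ht)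
    ((hX.cla a b c).slice hX.N0 ht)
  refine le_trans (mul_le_mul_of_nonneg_left ?_ ?_) key
  · have h2 := hf.fi_ge hk (T.ek_ok h) (T.kd_ok h) hx hw hb hc hbc ht
    have i1 : xr x P a b + xr x P a c ≤ 1 := xr_add_le hx hbc
    have hwm : xr x P a b + xr x P a c ∈ Icc (0 : ℝ) 1 :=
      ⟨add_nonneg (xr_nonneg hx a b) (xr_nonneg hx a c), i1⟩
    have h3 := hk.Pe0 _ hwm t ht
    have h4 := hX.dl0 a b c t ht.1 ht.2
    have h5 : x b c * (1 - (1 + t)⁻¹ - psi T.cf x P (pfOf T.ek.kd x P w) b c t)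
        * X.Bc x k a b c t
        ≤ xr x P b c * k.fi (xr x P b c) t
          * (k.Pe (xr x P a b + xr x P a c) t * (1 + X.dl a b c t)) := by
      unfold Xd.Bc
      rw [← e1 hb hc, ← e1 ha hb, ← e1 ha hc]
      refine mul_le_mul_of_nonneg_right ?_ (mul_nonneg h3 (by linarith))
      exact mul_le_mul_of_nonneg_left h2 (xr_nonneg hx b c)
    have e2 : xr x P b c * k.fi (xr x P b c) t
          * (k.Pe (xr x P a b + xr x P a c) t * (1 + X.dl a b c t))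
        = k.mb (xr x P a b) (xr x P a c) (xr x P b c) t
          + k.mb (xr x P a b) (xr x P a c) (xr x P b c) t * X.dl a b c t := by
      unfold Kf.mb; ring
    rw [e2] at h5
    unfold Xd.E
    have e3 : ∫ s in (0 : ℝ)..t, X.rate x P k a b c t s
        = ∫ s in (0 : ℝ)..t, (x b c * fq x P k.fh b c s * (X.B a b c t s - X.Bc x k a b c t)
          + er x a b c t (fun d => fq x P k.fh b d) (fun d => X.nu a b c d t) (X.la a b c t)
            (fun d => X.B a b d t) s) := rfl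
    rw [e3]
    linarith
  · have q1 : 0 < bb h' ∅ a t := bb_pos hK.hh (Finset.notMem_empty a) (btI ht)
    have q2 : 0 ≤ ppp h' a b c t := by
      unfold ppp pr
      exact Finset.sum_nonneg fun F _ => mul_nonneg
        ((hK.hh.lw (∅ : Finset V)).nonneg F t (btI ht)) (by split_ifs <;> norm_num)
    exact mul_nonneg q2 q1.le

section final

variable {V : Type} [Fintype V] [DecidableEq V] {G : SimpleGraph V} [Fintype G.edgeSet]
  [DecidableEq G.edgeSet] {x : G.edgeSet → ℝ} {X : Xd (V ⊕ V)} {δ : ℝ}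
variable {b0 b1 : ℝ → ℝ} {Pe : ℝ → ℝ → ℝ} {Pt : ℝ → ℝ → ℝ → ℝ}

/-- the walk rates of the assembled proof -/
noncomputable def wX (T : Dt) (b0 b1 : ℝ → ℝ) (Pe : ℝ → ℝ → ℝ) (Pt : ℝ → ℝ → ℝ → ℝ)
    (X : Xd (V ⊕ V)) (x : G.edgeSet → ℝ) : V ⊕ V → V ⊕ V → ℝ → ℝ :=
  wE (T.kf b0 b1 Pe Pt).fh (T.kf b0 b1 Pe Pt).mb
    (X.E (xe x) (P0 V) (T.kf b0 b1 Pe Pt)) (xe x) (P0 V)

/-- the properties of the walk rates -/
theorem wr_of_X (hx : IsFractionalMatching G x) (h : T.Ok)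
    (hk : T.KOk b0 b1 Pe Pt)
    (hX : Xd.Ok N X (xe x) (T.kf b0 b1 Pe Pt))
    (hd0 : 0 < δ) (hd1 : δ ≤ 1)
    (hl : ∀ a b d, P0 V a → P0 V b → P0 V d → a ≠ b → a ≠ d → b ≠ d → ∀ t ∈ Icc (0 : ℝ) bt,
      (T.kf b0 b1 Pe Pt).mb (xr (xe x) (P0 V) a b) (xr (xe x) (P0 V) a d)
        (xr (xe x) (P0 V) b d) t
        + min (X.E (xe x) (P0 V) (T.kf b0 b1 Pe Pt) a b d t)
            (X.E (xe x) (P0 V) (T.kf b0 b1 Pe Pt) a d b t) ≤ 1 - δ)
    (hT : ∀ a, P0 V a → ∀ t ∈ Icc (0 : ℝ) bt,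
      ∑ b, xr (xe x) (P0 V) a b * wX T b0 b1 Pe Pt X x a b t
        ≤ T.kt t * (∑ b, T.sT (xr (xe x) (P0 V) a b) - T.k1 * Qs (xe x) (P0 V) a))
    (hP : ∀ a b, P0 V a → P0 V b → a ≠ b → ∀ t ∈ Icc (0 : ℝ) bt,
      wX T b0 b1 Pe Pt X x a b t ≤ T.kp t * ∑ d ∈ ({a, b} : Finset (V ⊕ V))ᶜ,
        T.ka (xr (xe x) (P0 V) a d) (xr (xe x) (P0 V) b d)) :
    Wr T.ek.kd (xe x) (P0 V) (wX T b0 b1 Pe Pt X x) := by
  have hw := wt_xe hx zero_le_one le_rfl fun e => (hx.1 e).2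
  have kok := Dt.kf_ok h hk
  have kq := Dt.kq h hk
  have hE : Er δ (T.kf b0 b1 Pe Pt).mb (xe x) (P0 V)
      (X.E (xe x) (P0 V) (T.kf b0 b1 Pe Pt)) :=
    { d0 := hd0
      d1 := hd1
      n := fun a b d _ hb _ hab had hbd t ht => E_nonneg kok hw hX hb hab had hbd ht
      l := hl
      c := fun a b d ha hb hd _ _ hbd =>
        (E_cont kq.fc kq.mc (kf_cont hk) hw hX ha hb hbd hd).meas hX.N0 }
  exact wr_of_E hw kq hE hT hP

/-- **the assembly with the explicit error function** -/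
theorem half_of_X (hx : IsFractionalMatching G x) (h : T.Ok) (hsl : Sl T.cf T.cg sl)
    (hk : T.KOk b0 b1 Pe Pt) (hte : T.Te fun y => (T.kf b0 b1 Pe Pt).fh y bt)
    (hX : Xd.Ok N X (xe x) (T.kf b0 b1 Pe Pt))
    (hd0 : 0 < δ) (hd1 : δ ≤ 1)
    (hl : ∀ a b d, P0 V a → P0 V b → P0 V d → a ≠ b → a ≠ d → b ≠ d → ∀ t ∈ Icc (0 : ℝ) bt,
      (T.kf b0 b1 Pe Pt).mb (xr (xe x) (P0 V) a b) (xr (xe x) (P0 V) a d)
        (xr (xe x) (P0 V) b d) t
        + min (X.E (xe x) (P0 V) (T.kf b0 b1 Pe Pt) a b d t)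
            (X.E (xe x) (P0 V) (T.kf b0 b1 Pe Pt) a d b t) ≤ 1 - δ)
    (hT : ∀ a, P0 V a → ∀ t ∈ Icc (0 : ℝ) bt,
      ∑ b, xr (xe x) (P0 V) a b * wX T b0 b1 Pe Pt X x a b t
        ≤ T.kt t * (∑ b, T.sT (xr (xe x) (P0 V) a b) - T.k1 * Qs (xe x) (P0 V) a))
    (hP : ∀ a b, P0 V a → P0 V b → a ≠ b → ∀ t ∈ Icc (0 : ℝ) bt,
      wX T b0 b1 Pe Pt X x a b t ≤ T.kp t * ∑ d ∈ ({a, b} : Finset (V ⊕ V))ᶜ,
        T.ka (xr (xe x) (P0 V) a d) (xr (xe x) (P0 V) b d))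
    (hPE : ∀ a b, P0 V a → P0 V b → a ≠ b →
      wX T b0 b1 Pe Pt X x a b bt ≤ ∑ d ∈ ({a, b} : Finset (V ⊕ V))ᶜ,
        T.kE (xr (xe x) (P0 V) a b) (xr (xe x) (P0 V) a d) (xr (xe x) (P0 V) b d))
    (hpr : ∀ (h : ℝ → V ⊕ V → V ⊕ V → ℝ) (H : V ⊕ V → V ⊕ V → ℝ → ℝ) (t : ℝ),
      Cp T sl (xe x) (P0 V) (wX T b0 b1 Pe Pt X x) h H t →
      ∀ a b c, P0 V a → P0 V b → P0 V c → a ≠ b → a ≠ c → b ≠ c → xe x a b ≠ 0 →
        xe x a c ≠ 0 → X.Pr (xe x) h t a b c)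
    {L : V ⊕ V → V ⊕ V → V ⊕ V → V ⊕ V → ℝ}
    (hec : Ec T.cf (xe x) (P0 V) (pfOf T.ek.kd (xe x) (P0 V) (wX T b0 b1 Pe Pt X x)) sl L) :
    ∃ S : Scheme G, ∀ e : G.edgeSet, cT * x e ≤ S.selProb x e := by
  have hw := wt_xe hx zero_le_one le_rfl fun e => (hx.1 e).2
  have kok := Dt.kf_ok h hk
  have kq := Dt.kq h hk
  have hE : Er δ (T.kf b0 b1 Pe Pt).mb (xe x) (P0 V)
      (X.E (xe x) (P0 V) (T.kf b0 b1 Pe Pt)) :=
    { d0 := hd0
      d1 := hd1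
      n := fun a b d _ hb _ hab had hbd t ht => E_nonneg kok hw hX hb hab had hbd ht
      l := hl
      c := fun a b d ha hb hd _ _ hbd =>
        (E_cont kq.fc kq.mc (kf_cont hk) hw hX ha hb hbd hd).meas hX.N0 }
  have hwr := wr_of_E hw kq hE hT hP
  exact half_of_E hx h hsl kq hE hte
    (fun a b ha hb hab t ht => Dt.phi_le h hk hw hwr ha hb hab ht)
    (hm_of_clo (T.kf_fit b0 b1 Pe Pt) kok h kq.fc hw hwr (Dt.cor hx h hwr) hX hpr) hT hP hPE hec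

end final

end Pool.Agent.RX.RCN.K
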