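import Pool.Agent.RX.RCM9.TSum
import Pool.Agent.RX.RCN.Inst_2

/-! The certificate with symbolic functions, part B: the sum bound of the cherries and the final
abstract theorem (MP_73ccd0_lc, route M). -/

namespace Pool.Agent.RX.RCN.K

open Set Finset MeasureTheory Pool.Agent.RX.RCRSHalf Pool.Agent.RX.RCG Pool.Agent.RX.RCG.Ct
open Pool.Agent.RX.RCN.Ker

/-- the asymmetric part of the sum of the cherries -/
theorem asym_sum {V : Type*} [Fintype V] [DecidableEq V] {x : V → V → ℝ} {P : V → Prop}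
    [DecidablePred P] (hx : Wt x P 1) (a : V) :
    ∑ b, ∑ d, xr x P a b * xr x P a d * xr x P b d ^ 2 ≤ Qs x P a := by
  set U : Finset V := ({a} : Finset V)ᶜ with hU
  have haU : a ∉ U := by rw [hU]; simp
  have ins : (Finset.univ : Finset V) = insert a U := by
    ext z; simp only [hU, Finset.mem_univ, Finset.mem_insert, Finset.mem_compl,
      Finset.mem_singleton, true_iff]; tauto
  have e1 : ∑ b, ∑ d, xr x P a b * xr x P a d * xr x P b d ^ 2
      = ∑ b ∈ U, ∑ d ∈ U, xr x P a b * xr x P a d * xr x P b d ^ 2 := by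
    rw [ins, Finset.sum_insert haU, Finset.sum_eq_zero fun d _ => by rw [xr_diag hx]; ring,
      zero_add]
    refine Finset.sum_congr rfl fun b _ => ?_
    rw [Finset.sum_insert haU, xr_diag hx]
    ring
  have e2 : Qs x P a = ∑ b ∈ U, ∑ d ∈ U, xr x P a b ^ 2 * xr x P b d ^ 2 := by
    unfold Qs
    rw [ins, Finset.sum_insert haU, xr_diag hx, ← hU]
    simp only [ne_eq, OfNat.ofNat_ne_zero, not_false_eq_true, zero_pow, zero_mul, zero_add]
    exact Finset.sum_congr rfl fun b _ => Finset.mul_sum _ _ _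
  have e3 : Qs x P a = ∑ b ∈ U, ∑ d ∈ U, xr x P a d ^ 2 * xr x P b d ^ 2 := by
    rw [e2, Finset.sum_comm]
    exact Finset.sum_congr rfl fun b _ => Finset.sum_congr rfl fun d _ => by
      rw [xr_symm hx d b]
  have h : 2 * ∑ b ∈ U, ∑ d ∈ U, xr x P a b * xr x P a d * xr x P b d ^ 2
      ≤ Qs x P a + Qs x P a := by
    nth_rewrite 1 [e2]
    rw [e3, ← Finset.sum_add_distrib, Finset.mul_sum]
    refine Finset.sum_le_sum fun b _ => ?_
    rw [← Finset.sum_add_distrib, Finset.mul_sum]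
    refine Finset.sum_le_sum fun d _ => ?_
    nlinarith [mul_nonneg (sq_nonneg (xr x P a b - xr x P a d)) (sq_nonneg (xr x P b d))]
  rw [e1]
  linarith

/-- the asymmetric part is at most a sum over the edges -/
theorem Qs_le {V : Type*} [Fintype V] [DecidableEq V] {x : V → V → ℝ} {P : V → Prop}
    [DecidablePred P] (hx : Wt x P 1) (a : V) :
    Qs x P a ≤ ∑ b, (xr x P a b) ^ 2 * (1 - xr x P a b) ^ 2 := by
  unfold Qs
  refine Finset.sum_le_sum fun b _ => ?_
  by_cases hab : a = b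
  · subst hab
    rw [xr_diag hx a]
    simp
  have h1 : ∑ d ∈ ({a} : Finset V)ᶜ, xr x P b d ≤ 1 - xr x P a b := by
    have h2 := xr_row (P := P) hx b
    rw [← Finset.add_sum_erase _ _ (Finset.mem_univ a)] at h2
    have e : (Finset.univ.erase a) = ({a} : Finset V)ᶜ := by
      ext z; simp
    rw [e, xr_symm hx b a] at h2
    linarith
  have h0 : 0 ≤ ∑ d ∈ ({a} : Finset V)ᶜ, xr x P b d :=
    Finset.sum_nonneg fun d _ => xr_nonneg hx b d
  have h2 : ∑ d ∈ ({a} : Finset V)ᶜ, xr x P b d ^ 2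
      ≤ (∑ d ∈ ({a} : Finset V)ᶜ, xr x P b d) ^ 2 := by
    rw [pow_two, Finset.sum_mul]
    refine Finset.sum_le_sum fun d hd => ?_
    rw [pow_two]
    exact mul_le_mul_of_nonneg_left (Finset.single_le_sum (f := fun d => xr x P b d)
      (fun d _ => xr_nonneg hx b d) hd) (xr_nonneg hx b d)
  have h3 : ∑ d ∈ ({a} : Finset V)ᶜ, xr x P b d ^ 2 ≤ (1 - xr x P a b) ^ 2 :=
    h2.trans (pow_le_pow_left₀ h0 h1 2)
  exact mul_le_mul_of_nonneg_left h3 (sq_nonneg _)

theorem mu_sum {V : Type*} [Fintype V] [DecidableEq V] {x : V → V → ℝ} {P : V → Prop}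
    [DecidablePred P] (hx : Wt x P 1) {T : Dt} (h : T.Ok) (a : V) {t : ℝ}
    (ht : t ∈ Icc (0 : ℝ) bt) :
    ∑ b, xr x P a b * ∑ d, T.cf.mu (xr x P a b) (xr x P a d) (xr x P b d) t
      ≤ ∑ b, (xr x P a b) ^ 2 * (1 - xr x P a b) *
        (T.F t + xr x P a b * T.F3 t + (1 - xr x P a b) * T.F3a t
          + 4 * (xr x P a b * (1 - xr x P a b)) * T.F2 t)
        + T.Gs t * (T.k1 * Qs x P a) := by
  have hF := h.hF t ht
  have hF2 := h.hF2 t ht
  have hF3 := h.hF3 t ht
  have hs : Pool.Agent.RX.RCM9.SubW (xr x P) :=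
    { symm := fun a b => xr_symm hx a b
      nonneg := fun a b => xr_nonneg hx a b
      diag := fun a => xr_diag hx a
      row := fun a => xr_row hx a }
  have key := Pool.Agent.RX.RCM9.tsum_gen hs (fun v z => T.F t + v * T.F3 t + 4 * (v * z) * T.F2 t)
    (fun u => T.F t + u * T.F3 t + 4 * (u * (1 - u)) * T.F2 t)
    (fun u v z hu hz _ _ huv => by
      show u * (T.F t + u * T.F3 t + 4 * (u * z) * T.F2 t)
        ≤ v * (T.F t + v * T.F3 t + 4 * (v * z) * T.F2 t)
      have hv : 0 ≤ v := hu.trans huv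
      have h1 : u * z ≤ v * z := mul_le_mul_of_nonneg_right huv hz
      have h2 : T.F t + u * T.F3 t + 4 * (u * z) * T.F2 t
          ≤ T.F t + v * T.F3 t + 4 * (v * z) * T.F2 t := by
        have i1 := mul_le_mul_of_nonneg_right huv hF3
        have i2 := mul_le_mul_of_nonneg_right h1 hF2
        linarith
      have h3 : 0 ≤ T.F t + u * T.F3 t + 4 * (u * z) * T.F2 t := by positivity
      exact mul_le_mul huv h2 h3 hv)
    (fun u z hu hz huz => by
      show T.F t + u * T.F3 t + 4 * (u * z) * T.F2 t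
        ≤ T.F t + u * T.F3 t + 4 * (u * (1 - u)) * T.F2 t
      have h1 : u * z ≤ u * (1 - u) := mul_le_mul_of_nonneg_left (by linarith) hu
      have i2 := mul_le_mul_of_nonneg_right h1 hF2
      linarith)
    (fun u hu hu1 => by
      show 0 ≤ T.F t + u * T.F3 t + 4 * (u * (1 - u)) * T.F2 t
      have : 0 ≤ 1 - u := by linarith
      positivity) a
  have h2 : T.F3 t * ∑ b, ∑ d, xr x P a b * xr x P a d * xr x P b d ^ 2
      ≤ T.Gs t * (T.k1 * Qs x P a)
        + T.F3a t * ∑ b, (xr x P a b) ^ 2 * (1 - xr x P a b) ^ 2 := by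
    have i1 := mul_le_mul_of_nonneg_left (asym_sum hx (P := P) a) hF3
    have i2 := mul_le_mul_of_nonneg_right (h.F3G t ht) (Qs_nonneg x P a)
    have i3 := mul_le_mul_of_nonneg_left (Qs_le hx (P := P) a) (h.hF3a t ht)
    linarith
  have e9 : ∑ b, (xr x P a b) ^ 2 * (1 - xr x P a b) *
        (T.F t + xr x P a b * T.F3 t + (1 - xr x P a b) * T.F3a t
          + 4 * (xr x P a b * (1 - xr x P a b)) * T.F2 t)
        + T.Gs t * (T.k1 * Qs x P a)
      = ∑ b, (xr x P a b) ^ 2 * (1 - xr x P a b) *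
        (T.F t + xr x P a b * T.F3 t + 4 * (xr x P a b * (1 - xr x P a b)) * T.F2 t)
        + (T.Gs t * (T.k1 * Qs x P a)
          + T.F3a t * ∑ b, (xr x P a b) ^ 2 * (1 - xr x P a b) ^ 2) := by
    rw [Finset.mul_sum]
    have e10 : ∀ b, (xr x P a b) ^ 2 * (1 - xr x P a b) *
        (T.F t + xr x P a b * T.F3 t + (1 - xr x P a b) * T.F3a t
          + 4 * (xr x P a b * (1 - xr x P a b)) * T.F2 t)
        = (xr x P a b) ^ 2 * (1 - xr x P a b) *
        (T.F t + xr x P a b * T.F3 t + 4 * (xr x P a b * (1 - xr x P a b)) * T.F2 t)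
        + T.F3a t * ((xr x P a b) ^ 2 * (1 - xr x P a b) ^ 2) := fun b => by ring
    rw [Finset.sum_congr rfl fun b _ => e10 b, Finset.sum_add_distrib]
    ring
  rw [e9]
  refine le_trans (le_of_eq ?_) (add_le_add key h2)
  rw [Finset.mul_sum, ← Finset.sum_add_distrib]
  refine Finset.sum_congr rfl fun b _ => ?_
  rw [Finset.mul_sum, Finset.mul_sum, ← Finset.sum_add_distrib]
  refine Finset.sum_congr rfl fun d _ => ?_
  show xr x P a b * (xr x P a d * xr x P b d * (T.F t + (xr x P a d + xr x P b d) * T.F3 t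
      + 4 * (xr x P a d * xr x P b d) * T.F2 t))
    = xr x P a b * xr x P a d * xr x P b d * (T.F t + xr x P a d * T.F3 t
      + 4 * (xr x P a d * xr x P b d) * T.F2 t)
      + T.F3 t * (xr x P a b * xr x P a d * xr x P b d ^ 2)
  ring

end Pool.Agent.RX.RCN.K
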