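import Pool.Agent.RX.RCN.Half_2
import Pool.Agent.RX.RCN.Sig_2

/-! The acceptance condition with a slack: the certificate leaves room between `phi` and the
probability of the isolated pair, which gives smaller hazards (MP_73ccd0_lc, route M). -/

namespace Pool.Agent.RX.RCN.K

open Set Finset Pool.Agent.RX.RCRSHalf Pool.Agent.RX.RCG Pool.Agent.RX.RCG.Ct

set_option linter.unusedSectionVars false

variable {V : Type*} [Fintype V] [DecidableEq V]

variable {c : Cf} {g : Cg} {x : V → V → ℝ} {P : V → Prop} [DecidablePred P]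
variable {W : Pf V} {sl : ℝ → ℝ → ℝ}
variable {h : ℝ → V → V → ℝ} {H : V → V → ℝ → ℝ} {t : ℝ}

section haz

variable {φ : V → V → ℝ → ℝ} {ab : ℝ → ℝ → ℝ}

end haz

section final

open Pool.Agent.RX.RCRS

variable {V : Type} [Fintype V] [DecidableEq V] {G : SimpleGraph V} [Fintype G.edgeSet]
  [DecidableEq G.edgeSet] {x : G.edgeSet → ℝ} {W : Pf (V ⊕ V)}

/-- The abstract theorem with slack: the cost bound may be proved under the acceptance condition
with the slack `sl`. -/
theorem half_of_costS (hx : IsFractionalMatching G x) {c : Cf} {g : Cg} (hc : c.Ok)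
    (hg : g.Ok c) {sl : ℝ → ℝ → ℝ} (hsl : Sl c g sl)
    (hW : Wk c g (xe x) (P0 V) W) {K : V ⊕ V → V ⊕ V → ℝ}
    (hte : TEnd (xe x) (P0 V) (psi c (xe x) (P0 V) W) (psi' c (xe x) (P0 V) W)
      (dn (xe x) (P0 V) (psi' c (xe x) (P0 V) W)) (Ce c (xe x) (P0 V) W)
      (QQ (xe x) (dn (xe x) (P0 V) (psi' c (xe x) (P0 V) W)) (Ce c (xe x) (P0 V) W) K))
    {L : V ⊕ V → V ⊕ V → V ⊕ V → V ⊕ V → ℝ} (hec : Ec c (xe x) (P0 V) W sl L)
    (hhl : HazL c (xe x) (P0 V) W)
    (hcost : CostS c (xe x) (P0 V) W sl) (hcostK : CostK c (xe x) (P0 V) W sl K) :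
    ∃ S : Scheme G, ∀ e : G.edgeSet, cT * x e ≤ S.selProb x e := by
  have hw : Wt (xe x) (P0 V) 1 := wt_xe hx zero_le_one le_rfl fun e => (hx.1 e).2
  refine sel_of_strict (ab := c.ab) hx (cor_psi hc hg hw hW)
    (fun s hs a ha => corr_nonneg hg hw hW ha hs) (fun s hs a b ha hb hab => ?_) hte
    (fun h H hK u => ?_)
    (fun h H hK u v hu hv huv hxuv γ hγ => ?_)
    (fun h H t hK u v hu hv huv hxuv => strict_of_sl hc hg hw hW hsl hcost hK hu hv huv hxuv)
  · have := corr_up hc hw hW ha hab hs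
    have hxe : xr (xe x) (P0 V) a b = xe x a b := by unfold xr; rw [if_pos ⟨ha, hb⟩]
    rwa [hxe] at this
  · refine (Finset.sum_le_sum fun g _ => hec.hm h H hK (sg_of hc hg hw hW hsl hcost hK) u g).trans ?_
    rw [← Finset.sum_mul]
    exact mul_le_of_le_one_left mt_nn (hw.row u)
  · have hS := sg_of hc hg hw hW hsl hcost hK
    refine rate4_of (L := L u v) hK hw hxuv (hcost h H bt hK hS u v hu hv huv hxuv)
      (hcostK h H hK hS u v hu hv huv hxuv) (hec.hm h H hK hS)
      (fun d hd => ⟨hhl h H hK u v hu hv huv d hd, by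
        have := hhl h H hK v u hv hu huv.symm d (by rwa [Finset.pair_comm])
        rwa [mul_comm (h bt v d)] at this⟩) (hec.L0 u v)
      (hec.cl h H hK hS u v hu hv huv hxuv) (hec.la u v hu hv huv) ?_ hγ
    have h1 := hte.rw u v hu hv huv hxuv
    have h2 := rm_vt
    have h3 := e0_pos
    have e : RR (xe x) (dn (xe x) (P0 V) (psi' c (xe x) (P0 V) W)) (Ce c (xe x) (P0 V) W) u v
        = VV (xe x) (dn (xe x) (P0 V) (psi' c (xe x) (P0 V) W)) (Ce c (xe x) (P0 V) W) u v
          + e0 := rfl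
    linarith

end final

end Pool.Agent.RX.RCN.K
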