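import Pool.Agent.RX.RCN.InstB
import Pool.Agent.RX.RCN.Sig_3

/-! The slack of the certificate, and the final abstract theorem with slack
(MP_73ccd0_lc, route M). -/

namespace Pool.Agent.RX.RCN.K

open Set Finset MeasureTheory Pool.Agent.RX.RCRSHalf Pool.Agent.RX.RCG Pool.Agent.RX.RCG.Ct
open Pool.Agent.RX.RCN.Ker Pool.Agent.RX.RCRS

variable {T : Dt} {sl : ℝ → ℝ → ℝ}

variable {V : Type} [Fintype V] [DecidableEq V] {G : SimpleGraph V} [Fintype G.edgeSet]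
  [DecidableEq G.edgeSet] {x : G.edgeSet → ℝ} {w : V ⊕ V → V ⊕ V → ℝ → ℝ}

theorem Dt.wk (hx : IsFractionalMatching G x) (h : T.Ok) (hw : Wr T.ek.kd (xe x) (P0 V) w) :
    Wk T.cf T.cg (xe x) (P0 V) (pfOf T.ek.kd (xe x) (P0 V) w) :=
  wk_of (T.kd_ok h) (wt_xe hx zero_le_one le_rfl fun e => (hx.1 e).2) hw
    (sg1 := fun y t => y ^ 2 * (1 - y) * (T.F t + y * T.F3 t + (1 - y) * T.F3a t
      + 4 * (y * (1 - y)) * T.F2 t))
    (fun a _ t ht => mu_sum (wt_xe hx zero_le_one le_rfl fun e => (hx.1 e).2) h a ht)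
    (fun y _ t _ => by
      show y ^ 2 * (1 - y) * (T.F t + y * T.F3 t + (1 - y) * T.F3a t
        + 4 * (y * (1 - y)) * T.F2 t)
        + T.Gs t * T.sT y ≤ T.sgf y t
      unfold Dt.sgf
      linarith)

theorem Dt.cor (hx : IsFractionalMatching G x) (h : T.Ok) (hw : Wr T.ek.kd (xe x) (P0 V) w) :
    Cor (xe x) (P0 V) (psi T.cf (xe x) (P0 V) (pfOf T.ek.kd (xe x) (P0 V) w))
      (psi' T.cf (xe x) (P0 V) (pfOf T.ek.kd (xe x) (P0 V) w)) :=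
  cor_psi (T.cf_ok h) (T.cg_ok h) (wt_xe hx zero_le_one le_rfl fun e => (hx.1 e).2)
    (Dt.wk hx h hw)

/-- **the final abstract theorem with slack** -/
theorem half_of_dtS (hx : IsFractionalMatching G x) (h : T.Ok) (hsl : Sl T.cf T.cg sl)
    (hw : Wr T.ek.kd (xe x) (P0 V) w) {K : V ⊕ V → V ⊕ V → ℝ}
    (hte : TEnd (xe x) (P0 V) (psi T.cf (xe x) (P0 V) (pfOf T.ek.kd (xe x) (P0 V) w))
      (psi' T.cf (xe x) (P0 V) (pfOf T.ek.kd (xe x) (P0 V) w))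
      (dn (xe x) (P0 V) (psi' T.cf (xe x) (P0 V) (pfOf T.ek.kd (xe x) (P0 V) w)))
      (Ce T.cf (xe x) (P0 V) (pfOf T.ek.kd (xe x) (P0 V) w))
      (QQ (xe x) (dn (xe x) (P0 V) (psi' T.cf (xe x) (P0 V) (pfOf T.ek.kd (xe x) (P0 V) w)))
        (Ce T.cf (xe x) (P0 V) (pfOf T.ek.kd (xe x) (P0 V) w)) K))
    {L : V ⊕ V → V ⊕ V → V ⊕ V → V ⊕ V → ℝ}
    (hec : Ec T.cf (xe x) (P0 V) (pfOf T.ek.kd (xe x) (P0 V) w) sl L)
    (hhl : HazL T.cf (xe x) (P0 V) (pfOf T.ek.kd (xe x) (P0 V) w))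
    (hcost : CostS T.cf (xe x) (P0 V) (pfOf T.ek.kd (xe x) (P0 V) w) sl)
    (hcostK : CostK T.cf (xe x) (P0 V) (pfOf T.ek.kd (xe x) (P0 V) w) sl K) :
    ∃ S : Scheme G, ∀ e : G.edgeSet, cT * x e ≤ S.selProb x e :=
  half_of_costS hx (T.cf_ok h) (T.cg_ok h) hsl (Dt.wk hx h hw) hte hec hhl hcost hcostK

end Pool.Agent.RX.RCN.K
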