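import Pool.Agent.RX.RCN.KerA

/-! The correction with memory, part B (MP_73ccd0_lc, route M). -/

namespace Pool.Agent.RX.RCN.Ker

open Set MeasureTheory

/-- The weight function `M` of the correction: `M(0) = 0`, `M(bt) = 1`; a lower bound from `t1`
on. -/
structure Mok (M M' : ℝ → ℝ) (t1 : ℝ) : Prop where
  d : ∀ t ∈ Icc (0 : ℝ) bt, HasDerivAt M (M' t) t
  c : ContinuousOn M' (Icc 0 bt)
  M0 : M 0 = 0
  M1 : M bt + wt * M' bt = 1
  n : ∀ t ∈ Icc (0 : ℝ) bt, 0 ≤ M t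
  lb : ∀ t ∈ Icc (0 : ℝ) bt, t1 ≤ t →
    1 - (1 + t)⁻¹ ≤ ce * M t

/-- the derivative of the correction -/
noncomputable def Om' (M' w : ℝ → ℝ) (t : ℝ) : ℝ :=
  M' (cl t) * Ae w - qq (cl t) * I w (cl t)

/-- the correction -/
noncomputable def Om (M' w : ℝ → ℝ) (t : ℝ) : ℝ := ∫ s in (0 : ℝ)..t, Om' M' w s

variable {w v : ℝ → ℝ} {M M' : ℝ → ℝ} {t1 t : ℝ}

theorem Om'_cont (hM : Mok M M' t1) (hw : IntegrableOn w (Icc 0 bt)) : Continuous (Om' M' w) :=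
  ((comp_cl hM.c).mul continuous_const).sub (gI_cont qq_cont hw)

theorem Om_deriv (hM : Mok M M' t1) (hw : IntegrableOn w (Icc 0 bt)) (t : ℝ) :
    HasDerivAt (Om M' w) (Om' M' w t) t :=
  ((Om'_cont hM hw).integral_hasStrictDerivAt 0 t).hasDerivAt

theorem Om'_eq (ht : t ∈ Icc (0 : ℝ) bt) :
    Om' M' w t = M' t * Ae w - qq t * I w t := by
  unfold Om'; rw [cl_eq ht]

theorem int_M' (hM : Mok M M' t1) (ht : t ∈ Icc (0 : ℝ) bt) :
    ∫ s in (0 : ℝ)..t, M' (cl s) = M t := by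
  have h1 : ∫ s in (0 : ℝ)..t, M' (cl s) = ∫ s in (0 : ℝ)..t, M' s := by
    refine intervalIntegral.integral_congr fun s hs => ?_
    rw [uIcc_of_le ht.1] at hs
    show M' (cl s) = M' s
    rw [cl_eq ⟨hs.1, hs.2.trans ht.2⟩]
  rw [h1, intervalIntegral.integral_eq_sub_of_hasDerivAt (f := M), hM.M0, sub_zero]
  · intro s hs
    rw [uIcc_of_le ht.1] at hs
    exact hM.d s ⟨hs.1, hs.2.trans ht.2⟩
  · refine (hM.c.mono ?_).intervalIntegrable
    rw [uIcc_of_le ht.1]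
    exact Icc_subset_Icc_right ht.2

theorem Om_eq (hM : Mok M M' t1) (hw : IntegrableOn w (Icc 0 bt)) (ht : t ∈ Icc (0 : ℝ) bt) :
    Om M' w t = M t * Ae w - A qq w t := by
  have i1 : IntervalIntegrable (fun s => M' (cl s) * Ae w) volume 0 t :=
    ((comp_cl hM.c).mul continuous_const).intervalIntegrable _ _
  unfold Om Om'
  rw [intervalIntegral.integral_sub i1
    ((gI_cont qq_cont hw).intervalIntegrable _ _), intervalIntegral.integral_mul_const,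
    int_M' hM ht]
  rfl

theorem Om_zero : Om M' w 0 = 0 := intervalIntegral.integral_same

theorem Om_one (hM : Mok M M' t1) (hw : IntegrableOn w (Icc 0 bt)) :
    Om M' w bt + wt * Om' M' w bt = 0 := by
  rw [Om_eq hM hw bt_m1, Om'_eq bt_m1]
  have h1 : A qq w bt = Ae w - wt * (qq bt * I w bt) := by unfold Ae; ring
  rw [h1]
  have h2 : (M bt + wt * M' bt) * Ae w = Ae w := by rw [hM.M1, one_mul]
  linarith

theorem Om_nonneg (hM : Mok M M' t1) (hw : IntegrableOn w (Icc 0 bt))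
    (h0 : ∀ s ∈ Icc (0 : ℝ) bt, 0 ≤ w s) (ht : t ∈ Icc (0 : ℝ) bt) (h1 : t1 ≤ t) :
    0 ≤ Om M' w t := by
  rw [Om_eq hM hw ht]
  have a1 := A_ratio hw h0 ht
  have a2 := Ae_nonneg hw h0
  have a3 := mul_le_mul_of_nonneg_right (hM.lb t ht h1) a2
  have q0 := ce_pos
  refine le_of_mul_le_mul_left ?_ q0
  rw [mul_zero, mul_sub]
  linarith

theorem Om_lower (hM : Mok M M' t1) (hw : IntegrableOn w (Icc 0 bt))
    (h0 : ∀ s ∈ Icc (0 : ℝ) bt, 0 ≤ w s) (ht : t ∈ Icc (0 : ℝ) bt) :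
    -A qq w t ≤ Om M' w t := by
  rw [Om_eq hM hw ht]
  have a2 := Ae_nonneg hw h0
  have a3 := mul_nonneg (hM.n t ht) a2
  linarith

/-! linearity -/

theorem I_sub (hw : IntegrableOn w (Icc 0 bt)) (hv : IntegrableOn v (Icc 0 bt))
    (ht : t ∈ Icc (0 : ℝ) bt) : I (fun s => w s - v s) t = I w t - I v t := by
  unfold I
  have z : (0 : ℝ) ∈ Icc (0 : ℝ) bt := bt_m0
  exact intervalIntegral.integral_sub (w_int hw z ht) (w_int hv z ht)

theorem I_const_mul (c : ℝ) : I (fun s => c * w s) t = c * I w t := by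
  unfold I
  exact intervalIntegral.integral_const_mul c w

theorem I_sum {ι : Type*} (s : Finset ι) {f : ι → ℝ → ℝ}
    (hf : ∀ i ∈ s, IntegrableOn (f i) (Icc 0 bt)) (ht : t ∈ Icc (0 : ℝ) bt) :
    I (fun r => ∑ i ∈ s, f i r) t = ∑ i ∈ s, I (f i) t := by
  unfold I
  have z : (0 : ℝ) ∈ Icc (0 : ℝ) bt := bt_m0
  exact intervalIntegral.integral_finsetSum fun i hi => w_int (hf i hi) z ht

variable {g : ℝ → ℝ}

theorem A_sub (hg : ContinuousOn g (Icc 0 bt)) (hw : IntegrableOn w (Icc 0 bt))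
    (hv : IntegrableOn v (Icc 0 bt)) :
    A g (fun s => w s - v s) t = A g w t - A g v t := by
  unfold A
  rw [← intervalIntegral.integral_sub ((gI_cont hg hw).intervalIntegrable _ _)
    ((gI_cont hg hv).intervalIntegrable _ _)]
  refine intervalIntegral.integral_congr fun s _ => ?_
  show g (cl s) * I (fun s => w s - v s) (cl s) = g (cl s) * I w (cl s) - g (cl s) * I v (cl s)
  rw [I_sub hw hv (cl_mem s)]
  ring

theorem A_const_mul (c : ℝ) : A g (fun s => c * w s) t = c * A g w t := by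
  unfold A
  rw [← intervalIntegral.integral_const_mul]
  refine intervalIntegral.integral_congr fun s _ => ?_
  show g (cl s) * I (fun s => c * w s) (cl s) = c * (g (cl s) * I w (cl s))
  rw [I_const_mul]
  ring

theorem A_sum {ι : Type*} (s : Finset ι) {f : ι → ℝ → ℝ} (hg : ContinuousOn g (Icc 0 bt))
    (hf : ∀ i ∈ s, IntegrableOn (f i) (Icc 0 bt)) :
    A g (fun r => ∑ i ∈ s, f i r) t = ∑ i ∈ s, A g (f i) t := by
  unfold A
  rw [← intervalIntegral.integral_finsetSum fun i hi =>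
    (gI_cont hg (hf i hi)).intervalIntegrable _ _]
  refine intervalIntegral.integral_congr fun r _ => ?_
  show g (cl r) * I (fun r => ∑ i ∈ s, f i r) (cl r) = ∑ i ∈ s, g (cl r) * I (f i) (cl r)
  rw [I_sum s hf (cl_mem r), Finset.mul_sum]

theorem Ae_sub (hw : IntegrableOn w (Icc 0 bt)) (hv : IntegrableOn v (Icc 0 bt)) :
    Ae (fun s => w s - v s) = Ae w - Ae v := by
  unfold Ae
  rw [A_sub qq_cont hw hv, I_sub hw hv bt_m1]
  ring

theorem Ae_const_mul (c : ℝ) : Ae (fun s => c * w s) = c * Ae w := by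
  unfold Ae
  rw [A_const_mul, I_const_mul]
  ring

theorem Ae_sum {ι : Type*} (s : Finset ι) {f : ι → ℝ → ℝ}
    (hf : ∀ i ∈ s, IntegrableOn (f i) (Icc 0 bt)) :
    Ae (fun r => ∑ i ∈ s, f i r) = ∑ i ∈ s, Ae (f i) := by
  unfold Ae
  rw [A_sum s qq_cont hf, I_sum s hf bt_m1, Finset.sum_add_distrib, ← Finset.mul_sum,
    ← Finset.mul_sum]

theorem Om_sum {ι : Type*} (s : Finset ι) {f : ι → ℝ → ℝ} (hM : Mok M M' t1)
    (hf : ∀ i ∈ s, IntegrableOn (f i) (Icc 0 bt)) (ht : t ∈ Icc (0 : ℝ) bt) :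
    ∑ i ∈ s, Om M' (f i) t = Om M' (fun r => ∑ i ∈ s, f i r) t := by
  have hs : IntegrableOn (fun r => ∑ i ∈ s, f i r) (Icc 0 bt) :=
    integrable_finsetSum s fun i hi => hf i hi
  rw [Om_eq hM hs ht, Ae_sum s hf, A_sum s qq_cont hf, Finset.mul_sum,
    ← Finset.sum_sub_distrib]
  exact Finset.sum_congr rfl fun i hi => Om_eq hM (hf i hi) ht

/-- **monotonicity**: a pointwise bound `v ≤ w` gives `Om v ≤ Om w` from `t1` on -/
theorem Om_mono (hM : Mok M M' t1) (hw : IntegrableOn w (Icc 0 bt))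
    (hv : IntegrableOn v (Icc 0 bt)) (h : ∀ s ∈ Icc (0 : ℝ) bt, v s ≤ w s)
    (ht : t ∈ Icc (0 : ℝ) bt) (h1 : t1 ≤ t) : Om M' v t ≤ Om M' w t := by
  have hs : IntegrableOn (fun s => w s - v s) (Icc 0 bt) := hw.sub hv
  have := Om_nonneg hM hs (fun s hs => sub_nonneg.2 (h s hs)) ht h1
  rw [Om_eq hM hs ht, Ae_sub hw hv, A_sub qq_cont hw hv] at this
  rw [Om_eq hM hw ht, Om_eq hM hv ht]
  linarith

theorem A_mono (hg : ContinuousOn g (Icc 0 bt)) (g0 : ∀ s ∈ Icc (0 : ℝ) bt, 0 ≤ g s)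
    (hw : IntegrableOn w (Icc 0 bt))
    (hv : IntegrableOn v (Icc 0 bt)) (h : ∀ s ∈ Icc (0 : ℝ) bt, v s ≤ w s) (ht : 0 ≤ t) :
    A g v t ≤ A g w t := by
  have hs : IntegrableOn (fun s => w s - v s) (Icc 0 bt) := hw.sub hv
  have := A_nonneg hg g0 hs (fun s hs => sub_nonneg.2 (h s hs)) ht
  rw [A_sub hg hw hv] at this
  linarith

theorem Ae_mono (hw : IntegrableOn w (Icc 0 bt)) (hv : IntegrableOn v (Icc 0 bt))
    (h : ∀ s ∈ Icc (0 : ℝ) bt, v s ≤ w s) : Ae v ≤ Ae w := by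
  have := Ae_nonneg (hw.sub hv) (fun s hs => sub_nonneg.2 (h s hs))
  have e : Ae (fun s => w s - v s) = Ae w - Ae v := Ae_sub hw hv
  have e2 : (w - v) = fun s => w s - v s := rfl
  rw [e2, e] at this
  linarith

theorem I_mono_w (hw : IntegrableOn w (Icc 0 bt))
    (hv : IntegrableOn v (Icc 0 bt)) (h : ∀ s ∈ Icc (0 : ℝ) bt, v s ≤ w s)
    (ht : t ∈ Icc (0 : ℝ) bt) : I v t ≤ I w t := by
  have hs : IntegrableOn (fun s => w s - v s) (Icc 0 bt) := hw.sub hv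
  have := I_nonneg hs (fun s hs => sub_nonneg.2 (h s hs)) ht
  rw [I_sub hw hv ht] at this
  linarith

/-- upper bound of `Om v` for all times -/
theorem Om_le (hM : Mok M M' t1) (hw : IntegrableOn w (Icc 0 bt))
    (hv : IntegrableOn v (Icc 0 bt)) (v0 : ∀ s ∈ Icc (0 : ℝ) bt, 0 ≤ v s)
    (h : ∀ s ∈ Icc (0 : ℝ) bt, v s ≤ w s)
    (ht : t ∈ Icc (0 : ℝ) bt) {G : ℝ} (hG1 : t1 ≤ t → M t * Ae w - A qq w t ≤ G)
    (hG2 : t < t1 → M t * Ae w ≤ G) : Om M' v t ≤ G := by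
  rcases le_or_gt t1 t with h1 | h1
  · refine (Om_mono hM hw hv h ht h1).trans ?_
    rw [Om_eq hM hw ht]
    exact hG1 h1
  · rw [Om_eq hM hv ht]
    have q0 : ∀ s ∈ Icc (0 : ℝ) bt, 0 ≤ qq s := fun s hs => (qq_pos hs).le
    have a1 := Ae_mono hw hv h
    have a2 := A_nonneg qq_cont q0 hv v0 (t := t) ht.1
    have a3 := mul_le_mul_of_nonneg_left a1 (hM.n t ht)
    have a4 := hG2 h1
    linarith

end Pool.Agent.RX.RCN.Ker
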