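import Pool.Agent.RX.RCN.T1A

/-! The linear error of a centre from the rows and entries of the exponents of the closures
(MP_73ccd0_lc, route M). -/

namespace Pool.Agent.RX.RCN.K

open Set Finset MeasureTheory Pool.Agent.RX.RCRSHalf Pool.Agent.RX.RCG Pool.Agent.RX.RCG.Ct
open Pool.Agent.RX.RCN.Ker Pool.Agent.RX.RCM.Jen

set_option linter.unusedSectionVars false

variable {V : Type*} [Fintype V] [DecidableEq V]
variable {x : V → V → ℝ} {P : V → Prop} [DecidablePred P] {k : Kf} {N : ℕ}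
variable {κd : ℝ → ℝ → ℝ → ℝ} {R : V → V → V → ℝ → ℝ → ℝ} {L Lt : V → V → V → V → ℝ → ℝ → ℝ}

/-- exchange of two sums over distinct vertices outside the pair -/
theorem swap_tri (a b : V) (f : V → V → ℝ) :
    ∑ c ∈ ({a, b} : Finset V)ᶜ, ∑ d ∈ ({a, b, c} : Finset V)ᶜ, f c d
      = ∑ d ∈ ({a, b} : Finset V)ᶜ, ∑ c ∈ ({a, b, d} : Finset V)ᶜ, f c d := by
  rw [Finset.sum_comm' (t' := ({a, b} : Finset V)ᶜ) (s' := fun d => ({a, b, d} : Finset V)ᶜ)]
  intro c d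
  rw [mem2, mem2, mem3, mem3]
  constructor
  · rintro ⟨h1, h2, h3, h4⟩
    exact ⟨⟨h1.1, h1.2, Ne.symm h4⟩, h2, h3⟩
  · rintro ⟨⟨h1, h2, h3⟩, h4, h5⟩
    exact ⟨⟨h1, h2⟩, h4, h5, Ne.symm h3⟩

/-- the bound of the mass of the fluxes up to `s` -/
theorem muL_le_s (hf : Lf N k κd R L Lt) (hx : Wt x P 1) (hk : k.Ok)
    (hfc : ∀ y ∈ Icc (0 : ℝ) 1, ContinuousOn (k.fh y) (Icc 0 bt)) {t : ℝ}
    (ht : t ∈ Icc (0 : ℝ) bt) {γ : ℝ} (γ0 : 0 ≤ γ) {κ0 Fs : ℝ → ℝ} (cκ0 : ContinuousOn κ0 (Icc 0 t))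
    (hκ : ∀ w ∈ Icc (0 : ℝ) 1, ∀ s ∈ Icc 0 t, κd w t s ≤ κ0 s * (1 + γ * w))
    (Fs0 : ∀ s ∈ Icc 0 t, 0 ≤ Fs s) {a b : V} (hab : a ≠ b)
    (hF : ∀ d ∈ ({a, b} : Finset V)ᶜ, ∀ s ∈ Icc 0 t,
      ∫ r in (0 : ℝ)..s, fq x P k.fh b d r * κ0 r ≤ Fs s) (c : V) {s : ℝ} (hs : s ∈ Icc 0 t) :
    muL x P k κd a b c t s ≤ (1 - x a b) * ((1 + γ * x a b) * ((1 + γ / 2) * Fs s)) := by
  have cfq : ∀ d, ContinuousOn (fq x P k.fh b d) (Icc 0 t) := fun d =>
    (fq_cont' hfc hx b d).mono (Icc_subset_Icc_right ht.2)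
  have m0 : (0 : ℝ) ∈ Icc 0 t := ⟨le_rfl, ht.1⟩
  have u0 := hx.nonneg a b
  have hq : ∀ d, ∀ r ∈ Icc 0 t, 0 ≤ fq x P k.fh b d r := fun d r hr =>
    fq_nonneg' hk hx b d ⟨hr.1, hr.2.trans ht.2⟩
  have h1 : muL x P k κd a b c t s ≤ ∑ d ∈ ({a, b} : Finset V)ᶜ,
      ∫ r in (0 : ℝ)..s, flx x P k κd a b d t r := by
    unfold muL
    rw [intervalIntegral.integral_finsetSum fun d _ =>
      ii_of ht.1 (flx_slice hf hx hfc a b d ht) m0 hs]
    refine Finset.sum_le_sum_of_subset_of_nonneg ?_ fun d _ _ => ?_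
    · intro d hd
      rw [mem3] at hd
      rw [mem2]
      exact ⟨hd.1, hd.2.1⟩
    · exact intervalIntegral.integral_nonneg hs.1 fun r hr =>
        flux_nonneg hx hk hf.κP a b d ht ⟨hr.1, hr.2.trans hs.2⟩
  have h2 : ∀ d ∈ ({a, b} : Finset V)ᶜ, ∫ r in (0 : ℝ)..s, flx x P k κd a b d t r
      ≤ (1 + γ * x a b) * (x b d + γ * ((x b d + x a d) / 4)) * Fs s := by
    intro d hd
    have hd' := hd
    rw [mem2] at hd'
    have hw := two_mem hx a (Ne.symm hd'.2)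
    have v0 := hx.nonneg b d
    have w0 := hx.nonneg a d
    have hvw : x b d + x a d ≤ 1 := by
      have := row_one hx d b {a} (by simpa using hab)
      rw [Finset.sum_singleton] at this
      rw [hx.symm b d, hx.symm a d]
      linarith
    have i0 : ∫ r in (0 : ℝ)..s, flx x P k κd a b d t r
        ≤ ∫ r in (0 : ℝ)..s, (x b d * (1 + γ * (x a b + x a d)))
          * (fq x P k.fh b d r * κ0 r) := by
      refine intervalIntegral.integral_mono_on hs.1
        (ii_of ht.1 (flx_slice hf hx hfc a b d ht) m0 hs)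
        (ii_of ht.1 (continuousOn_const.mul ((cfq d).mul cκ0)) m0 hs) fun r hr => ?_
      have hr' : r ∈ Icc 0 t := ⟨hr.1, hr.2.trans hs.2⟩
      unfold flx
      have := mul_le_mul_of_nonneg_left (hκ _ hw r hr') (mul_nonneg v0 (hq d r hr'))
      calc _ ≤ x b d * fq x P k.fh b d r * (κ0 r * (1 + γ * (x a b + x a d))) := this
        _ = _ := by ring
    rw [intervalIntegral.integral_const_mul] at i0
    have g0 : 0 ≤ x b d * (1 + γ * (x a b + x a d)) :=
      mul_nonneg v0 (by nlinarith)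
    have i1 := i0.trans (mul_le_mul_of_nonneg_left (hF d hd s hs) g0)
    refine i1.trans (mul_le_mul_of_nonneg_right ?_ (Fs0 s hs))
    have i3 := vw_le v0 w0 hvw
    have i4 : γ * (x b d * x a d) ≤ γ * ((x b d + x a d) / 4) := mul_le_mul_of_nonneg_left i3 γ0
    have i5 : x b d * (1 + γ * (x a b + x a d))
        ≤ (1 + γ * x a b) * (x b d + γ * (x b d * x a d)) := by
      have : 0 ≤ γ * x a b * (γ * (x b d * x a d)) :=
        mul_nonneg (mul_nonneg γ0 u0) (mul_nonneg γ0 (mul_nonneg v0 w0))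
      nlinarith
    refine i5.trans (mul_le_mul_of_nonneg_left (by linarith) ?_)
    have := mul_nonneg γ0 u0
    linarith
  refine h1.trans ((Finset.sum_le_sum h2).trans ?_)
  rw [← Finset.sum_mul, ← Finset.mul_sum, Finset.sum_add_distrib, ← Finset.mul_sum,
    ← Finset.sum_div, Finset.sum_add_distrib]
  have r1 := row_one hx b a (({a, b} : Finset V)ᶜ) fun d hd => by rw [mem2] at hd; exact hd.1
  have r2 := row_one hx a b (({a, b} : Finset V)ᶜ) fun d hd => by rw [mem2] at hd; exact hd.2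
  rw [hx.symm b a] at r1
  have k0 : 0 ≤ 1 + γ * x a b := by
    have := mul_nonneg γ0 u0
    linarith
  have j1 : (∑ d ∈ ({a, b} : Finset V)ᶜ, x b d + ∑ d ∈ ({a, b} : Finset V)ᶜ, x a d) / 4
      ≤ (1 - x a b) / 2 := by linarith
  have j2 := mul_le_mul_of_nonneg_left j1 γ0
  have j3 : ∑ d ∈ ({a, b} : Finset V)ᶜ, x b d
      + γ * ((∑ d ∈ ({a, b} : Finset V)ᶜ, x b d + ∑ d ∈ ({a, b} : Finset V)ᶜ, x a d) / 4)
      ≤ (1 - x a b) * (1 + γ / 2) := by linarith
  calc _ ≤ (1 + γ * x a b) * ((1 - x a b) * (1 + γ / 2)) * Fs s :=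
        mul_le_mul_of_nonneg_right (mul_le_mul_of_nonneg_left j3 k0) (Fs0 s hs)
    _ = _ := by ring

/-- the data of the rows and entries at the time `t` -/
structure T1r (x : V → V → ℝ) (P : V → Prop) [DecidablePred P] (k : Kf) (κd : ℝ → ℝ → ℝ → ℝ)
    (R : V → V → V → ℝ → ℝ → ℝ) (L Lt : V → V → V → V → ℝ → ℝ → ℝ) (a b : V) (t γ : ℝ)
    (κ0 Fs : ℝ → ℝ) (rA eA : V → ℝ → ℝ) (rH eH : ℝ → ℝ) (RA RH EA EH : ℝ) : Prop where
  γ0 : 0 ≤ γ
  cκ0 : ContinuousOn κ0 (Icc 0 t)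
  k0 : ∀ s ∈ Icc 0 t, 0 ≤ κ0 s
  hκ : ∀ w ∈ Icc (0 : ℝ) 1, ∀ s ∈ Icc 0 t, κd w t s ≤ κ0 s * (1 + γ * w)
  cFs : ContinuousOn Fs (Icc 0 t)
  Fs0 : ∀ s ∈ Icc 0 t, 0 ≤ Fs s
  hF : ∀ d ∈ ({a, b} : Finset V)ᶜ, ∀ s ∈ Icc 0 t,
    ∫ r in (0 : ℝ)..s, fq x P k.fh b d r * κ0 r ≤ Fs s
  crA : ∀ d, ContinuousOn (rA d) (Icc 0 t)
  ceA : ∀ d, ContinuousOn (eA d) (Icc 0 t)
  crH : ContinuousOn rH (Icc 0 t)
  ceH : ContinuousOn eH (Icc 0 t)
  R0 : ∀ d ∈ ({a, b} : Finset V)ᶜ, x b d = 0 → ∀ s ∈ Icc 0 t, R a b d t s = 0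
  rL : ∀ d ∈ ({a, b} : Finset V)ᶜ, x b d ≠ 0 → ∀ s ∈ Icc 0 t,
    (1 + γ * x a d) * ∑ c ∈ ({a, b, d} : Finset V)ᶜ, (if P c then L a b c d t s else 0)
      ≤ rA d s
  rI : ∀ d ∈ ({a, b} : Finset V)ᶜ,
    ∫ s in (0 : ℝ)..t, fq x P k.fh b d s * κ0 s * rA d s ≤ RA
  rT : ∀ d ∈ ({a, b} : Finset V)ᶜ, x b d ≠ 0 → ∀ s ∈ Icc 0 t,
    R a b d t s * ∑ c ∈ ({a, b, d} : Finset V)ᶜ, (if P c then Lt a b c d t s else 0)
      ≤ x b d * rH s
  rJ : ∫ s in (0 : ℝ)..t, Fs s * rH s ≤ RH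
  eL : ∀ d ∈ ({a, b} : Finset V)ᶜ, x b d ≠ 0 → ∀ c ∈ ({a, b, d} : Finset V)ᶜ, P c →
    ∀ s ∈ Icc 0 t, (1 + γ * x a d) * L a b c d t s ≤ eA d s
  eI : ∀ d ∈ ({a, b} : Finset V)ᶜ,
    ∫ s in (0 : ℝ)..t, fq x P k.fh b d s * κ0 s * eA d s ≤ EA
  eT : ∀ d ∈ ({a, b} : Finset V)ᶜ, x b d ≠ 0 → ∀ c ∈ ({a, b, d} : Finset V)ᶜ, P c →
    ∀ s ∈ Icc 0 t, R a b d t s * Lt a b c d t s ≤ x b d * eH s
  eJ : ∫ s in (0 : ℝ)..t, Fs s * eH s ≤ EH

variable {a b : V} {t γ : ℝ} {κ0 Fs : ℝ → ℝ} {rA eA : V → ℝ → ℝ} {rH eH : ℝ → ℝ}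
  {RA RH EA EH : ℝ}

/-- the flux against a function -/
theorem flx_int_le (hf : Lf N k κd R L Lt) (hx : Wt x P 1) (hk : k.Ok)
    (hfc : ∀ y ∈ Icc (0 : ℝ) 1, ContinuousOn (k.fh y) (Icc 0 bt)) (ht : t ∈ Icc (0 : ℝ) bt)
    (hr : T1r x P k κd R L Lt a b t γ κ0 Fs rA eA rH eH RA RH EA EH) {d : V}
    (hd : d ∈ ({a, b} : Finset V)ᶜ) {f g : ℝ → ℝ} (cf : ContinuousOn f (Icc 0 t))
    (f0 : ∀ s ∈ Icc 0 t, 0 ≤ f s)
    (cg : ContinuousOn g (Icc 0 t)) (hfg : ∀ s ∈ Icc 0 t, (1 + γ * x a d) * f s ≤ g s) {G : ℝ}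
    (hG : ∫ s in (0 : ℝ)..t, fq x P k.fh b d s * κ0 s * g s ≤ G) :
    ∫ s in (0 : ℝ)..t, flx x P k κd a b d t s * f s ≤ x b d * ((1 + γ * x a b) * G) := by
  have cfq : ContinuousOn (fq x P k.fh b d) (Icc 0 t) :=
    (fq_cont' hfc hx b d).mono (Icc_subset_Icc_right ht.2)
  have m0 : (0 : ℝ) ∈ Icc 0 t := ⟨le_rfl, ht.1⟩
  have mt : t ∈ Icc 0 t := ⟨ht.1, le_rfl⟩
  have hd' := hd
  rw [mem2] at hd'
  have hw := two_mem hx a (Ne.symm hd'.2)
  have v0 := hx.nonneg b d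
  have u0 := hx.nonneg a b
  have w0 := hx.nonneg a d
  have γu : 0 ≤ γ * x a b := mul_nonneg hr.γ0 u0
  have γw : 0 ≤ γ * x a d := mul_nonneg hr.γ0 w0
  have h1 : ∫ s in (0 : ℝ)..t, flx x P k κd a b d t s * f s
      ≤ ∫ s in (0 : ℝ)..t, (x b d * (1 + γ * x a b)) * (fq x P k.fh b d s * κ0 s * g s) := by
    refine intervalIntegral.integral_mono_on ht.1
      (ii_of ht.1 ((flx_slice hf hx hfc a b d ht).mul cf) m0 mt)
      (ii_of ht.1 (continuousOn_const.mul ((cfq.mul hr.cκ0).mul cg)) m0 mt) fun s hs => ?_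
    have q0 : 0 ≤ fq x P k.fh b d s := fq_nonneg' hk hx b d ⟨hs.1, hs.2.trans ht.2⟩
    have k0 := hr.k0 s hs
    have i1 : κd (x a b + x a d) t s ≤ κ0 s * ((1 + γ * x a b) * (1 + γ * x a d)) := by
      refine (hr.hκ _ hw s hs).trans (mul_le_mul_of_nonneg_left ?_ k0)
      have := mul_nonneg γu γw
      nlinarith
    have i2 : flx x P k κd a b d t s * f s
        ≤ x b d * fq x P k.fh b d s * (κ0 s * ((1 + γ * x a b) * (1 + γ * x a d))) * f s := by
      unfold flx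
      exact mul_le_mul_of_nonneg_right (mul_le_mul_of_nonneg_left i1 (mul_nonneg v0 q0))
        (f0 s hs)
    have i3 := mul_le_mul_of_nonneg_left (hfg s hs)
      (mul_nonneg (mul_nonneg v0 (show 0 ≤ 1 + γ * x a b by linarith)) (mul_nonneg q0 k0))
    refine i2.trans ?_
    calc _ = x b d * (1 + γ * x a b) * (fq x P k.fh b d s * κ0 s)
          * ((1 + γ * x a d) * f s) := by ring
      _ ≤ x b d * (1 + γ * x a b) * (fq x P k.fh b d s * κ0 s) * g s := i3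
      _ = _ := by ring
  refine h1.trans ?_
  rw [intervalIntegral.integral_const_mul]
  calc _ ≤ x b d * (1 + γ * x a b) * G :=
        mul_le_mul_of_nonneg_left hG (mul_nonneg v0 (by linarith))
    _ = _ := by ring

/-- the integral of one term of the linear error -/
theorem lam_term (hf : Lf N k κd R L Lt) (hx : Wt x P 1)
    (hfc : ∀ y ∈ Icc (0 : ℝ) 1, ContinuousOn (k.fh y) (Icc 0 bt)) (ht : t ∈ Icc (0 : ℝ) bt)
    (a b c d : V) :
    (∫ s in (0 : ℝ)..t, (flx x P k κd a b d t s * L a b c d t s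
      + muL x P k κd a b c t s * (R a b d t s * Lt a b c d t s)))
      = (∫ s in (0 : ℝ)..t, flx x P k κd a b d t s * L a b c d t s)
        + ∫ s in (0 : ℝ)..t, muL x P k κd a b c t s * (R a b d t s * Lt a b c d t s) := by
  have cF := flx_slice hf hx hfc a b d ht
  have cL : ContinuousOn (L a b c d t) (Icc 0 t) := (hf.cL a b c d).slice hf.N0 ht
  have cLt : ContinuousOn (Lt a b c d t) (Icc 0 t) := (hf.cLt a b c d).slice hf.N0 ht
  have cR : ContinuousOn (R a b d t) (Icc 0 t) := (hf.cR a b d).slice hf.N0 ht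
  have cS : ContinuousOn (fun s => ∑ d ∈ ({a, b, c} : Finset V)ᶜ, flx x P k κd a b d t s)
      (Icc 0 t) := continuousOn_finsetSum _ fun d _ => flx_slice hf hx hfc a b d ht
  have cm : ContinuousOn (muL x P k κd a b c t) (Icc 0 t) := prim_cont ht.1 cS
  exact int_add2 ht.1 (cF.mul cL) (cm.mul (cR.mul cLt))

theorem mu_cont (hf : Lf N k κd R L Lt) (hx : Wt x P 1)
    (hfc : ∀ y ∈ Icc (0 : ℝ) 1, ContinuousOn (k.fh y) (Icc 0 bt)) (ht : t ∈ Icc (0 : ℝ) bt)
    (a b c : V) : ContinuousOn (muL x P k κd a b c t) (Icc 0 t) :=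
  prim_cont ht.1 (continuousOn_finsetSum _ fun d _ => flx_slice hf hx hfc a b d ht)

/-- the terms without weight vanish -/
theorem LamL_zero (hr : T1r x P k κd R L Lt a b t γ κ0 Fs rA eA rH eH RA RH EA EH)
    (ht : t ∈ Icc (0 : ℝ) bt) {c d : V} (hd : d ∈ ({a, b} : Finset V)ᶜ) (hbd : x b d = 0) :
    (∫ s in (0 : ℝ)..t, (flx x P k κd a b d t s * L a b c d t s
      + muL x P k κd a b c t s * (R a b d t s * Lt a b c d t s))) = 0 := by
  have e : ∀ s ∈ uIcc 0 t, (flx x P k κd a b d t s * L a b c d t s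
      + muL x P k κd a b c t s * (R a b d t s * Lt a b c d t s)) = 0 := fun s hs => by
    rw [uIcc_of_le ht.1] at hs
    rw [hr.R0 d hd hbd s hs]
    unfold flx
    rw [hbd]
    ring
  rw [intervalIntegral.integral_congr e]
  simp

/-- **the entries of the linear error** -/
theorem lam_entry (hf : Lf N k κd R L Lt) (hx : Wt x P 1) (hk : k.Ok)
    (hfc : ∀ y ∈ Icc (0 : ℝ) 1, ContinuousOn (k.fh y) (Icc 0 bt)) (ht : t ∈ Icc (0 : ℝ) bt)
    (hr : T1r x P k κd R L Lt a b t γ κ0 Fs rA eA rH eH RA RH EA EH) (hab : a ≠ b)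
    (EA0 : 0 ≤ EA) (EH0 : 0 ≤ EH) {c : V}
    (hc : c ∈ ({a, b} : Finset V)ᶜ) (hPc : P c) :
    LamL x P k κd R L Lt a b c t ≤ (1 - x a b - x b c)
      * ((1 + γ * x a b) * (EA + (1 - x a b) * ((1 + γ / 2) * EH))) := by
  have m0 : (0 : ℝ) ∈ Icc 0 t := ⟨le_rfl, ht.1⟩
  have mt : t ∈ Icc 0 t := ⟨ht.1, le_rfl⟩
  have hc' := hc
  rw [mem2] at hc'
  have u0 := hx.nonneg a b
  have u1 := (x_mem hx a b).2
  have γu : 0 ≤ γ * x a b := mul_nonneg hr.γ0 u0
  have key : ∀ d ∈ ({a, b, c} : Finset V)ᶜ, (∫ s in (0 : ℝ)..t,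
      (flx x P k κd a b d t s * L a b c d t s
      + muL x P k κd a b c t s * (R a b d t s * Lt a b c d t s)))
      ≤ x b d * ((1 + γ * x a b) * (EA + (1 - x a b) * ((1 + γ / 2) * EH))) := by
    intro d hd
    have hd3 := hd
    rw [mem3] at hd3
    have hd2 : d ∈ ({a, b} : Finset V)ᶜ := mem2.2 ⟨hd3.1, hd3.2.1⟩
    have hcd : c ∈ ({a, b, d} : Finset V)ᶜ := mem3.2 ⟨hc'.1, hc'.2, Ne.symm hd3.2.2⟩
    by_cases hbd : x b d = 0
    · rw [LamL_zero hr ht hd2 hbd, hbd, zero_mul]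
    have cL : ContinuousOn (L a b c d t) (Icc 0 t) := (hf.cL a b c d).slice hf.N0 ht
    have cLt : ContinuousOn (Lt a b c d t) (Icc 0 t) := (hf.cLt a b c d).slice hf.N0 ht
    have cR : ContinuousOn (R a b d t) (Icc 0 t) := (hf.cR a b d).slice hf.N0 ht
    have v0 := hx.nonneg b d
    have i1 := flx_int_le hf hx hk hfc ht hr hd2 cL (fun s hs => hf.L0 a b c d t s hs.1 hs.2 ht.2)
      (hr.ceA d) (fun s hs => hr.eL d hd2 hbd c hcd hPc s hs) (hr.eI d hd2)
    have i2 : (∫ s in (0 : ℝ)..t, muL x P k κd a b c t s * (R a b d t s * Lt a b c d t s))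
        ≤ ∫ s in (0 : ℝ)..t, ((1 - x a b) * ((1 + γ * x a b) * (1 + γ / 2)) * x b d)
          * (Fs s * eH s) := by
      refine intervalIntegral.integral_mono_on ht.1
        (ii_of ht.1 ((mu_cont hf hx hfc ht a b c).mul (cR.mul cLt)) m0 mt)
        (ii_of ht.1 (continuousOn_const.mul (hr.cFs.mul hr.ceH)) m0 mt) fun s hs => ?_
      have j1 := muL_le_s hf hx hk hfc ht hr.γ0 hr.cκ0 hr.hκ hr.Fs0 hab hr.hF c hs
      have j2 := hr.eT d hd2 hbd c hcd hPc s hs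
      have j0 : 0 ≤ R a b d t s * Lt a b c d t s := mul_nonneg (hf.R0 a b d t s hs.1 hs.2 ht.2)
        (hf.Lt0 a b c d t s hs.1 hs.2 ht.2)
      have j4 : 0 ≤ (1 - x a b) * ((1 + γ * x a b) * ((1 + γ / 2) * Fs s)) :=
        mul_nonneg (by linarith) (mul_nonneg (by linarith) (mul_nonneg (by linarith [hr.γ0])
          (hr.Fs0 s hs)))
      calc _ ≤ (1 - x a b) * ((1 + γ * x a b) * ((1 + γ / 2) * Fs s)) * (x b d * eH s) :=
            mul_le_mul j1 j2 j0 j4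
        _ = _ := by ring
    rw [intervalIntegral.integral_const_mul] at i2
    rw [lam_term hf hx hfc ht a b c d]
    have g0 : 0 ≤ (1 - x a b) * ((1 + γ * x a b) * (1 + γ / 2)) * x b d :=
      mul_nonneg (mul_nonneg (by linarith) (mul_nonneg (by linarith) (by linarith [hr.γ0]))) v0
    have i3 := i2.trans (mul_le_mul_of_nonneg_left hr.eJ g0)
    calc _ ≤ x b d * ((1 + γ * x a b) * EA)
          + (1 - x a b) * ((1 + γ * x a b) * (1 + γ / 2)) * x b d * EH := add_le_add i1 i3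
      _ = _ := by ring
  unfold LamL
  refine (Finset.sum_le_sum key).trans ?_
  rw [← Finset.sum_mul]
  have r1 := row_two hx b (a := a) (c := c) (Ne.symm hc'.1) (({a, b, c} : Finset V)ᶜ)
    fun d hd => by rw [mem3] at hd; exact ⟨hd.1, hd.2.2⟩
  rw [hx.symm b a] at r1
  refine mul_le_mul_of_nonneg_right r1 (mul_nonneg (by linarith) (add_nonneg EA0
    (mul_nonneg (by linarith) (mul_nonneg (by linarith [hr.γ0]) EH0))))

/-- **the rows of the linear error** -/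
theorem lam_row (hf : Lf N k κd R L Lt) (hx : Wt x P 1) (hk : k.Ok)
    (hfc : ∀ y ∈ Icc (0 : ℝ) 1, ContinuousOn (k.fh y) (Icc 0 bt)) (ht : t ∈ Icc (0 : ℝ) bt)
    (hr : T1r x P k κd R L Lt a b t γ κ0 Fs rA eA rH eH RA RH EA EH) (hab : a ≠ b)
    (RA0 : 0 ≤ RA) (RH0 : 0 ≤ RH) :
    ∑ c ∈ ({a, b} : Finset V)ᶜ, (if P c then LamL x P k κd R L Lt a b c t else 0)
      ≤ (1 - x a b) * ((1 + γ * x a b) * (RA + (1 - x a b) * ((1 + γ / 2) * RH))) := by
  have m0 : (0 : ℝ) ∈ Icc 0 t := ⟨le_rfl, ht.1⟩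
  have mt : t ∈ Icc 0 t := ⟨ht.1, le_rfl⟩
  have u0 := hx.nonneg a b
  have u1 := (x_mem hx a b).2
  have γu : 0 ≤ γ * x a b := mul_nonneg hr.γ0 u0
  have e0 : ∑ c ∈ ({a, b} : Finset V)ᶜ, (if P c then LamL x P k κd R L Lt a b c t else 0)
      = ∑ c ∈ ({a, b} : Finset V)ᶜ, ∑ d ∈ ({a, b, c} : Finset V)ᶜ,
        (if P c then ∫ s in (0 : ℝ)..t, (flx x P k κd a b d t s * L a b c d t s
          + muL x P k κd a b c t s * (R a b d t s * Lt a b c d t s)) else 0) := by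
    refine Finset.sum_congr rfl fun c _ => ?_
    unfold LamL
    split_ifs
    · rfl
    · simp
  rw [e0, swap_tri]
  have key : ∀ d ∈ ({a, b} : Finset V)ᶜ, (∑ c ∈ ({a, b, d} : Finset V)ᶜ,
      (if P c then ∫ s in (0 : ℝ)..t, (flx x P k κd a b d t s * L a b c d t s
      + muL x P k κd a b c t s * (R a b d t s * Lt a b c d t s)) else 0))
      ≤ x b d * ((1 + γ * x a b) * (RA + (1 - x a b) * ((1 + γ / 2) * RH))) := by
    intro d hd
    by_cases hbd : x b d = 0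
    · rw [hbd, zero_mul]
      refine le_of_eq (Finset.sum_eq_zero fun c _ => ?_)
      split_ifs
      · exact LamL_zero hr ht hd hbd
      · rfl
    have v0 := hx.nonneg b d
    have cL : ∀ c, ContinuousOn (fun s => if P c then L a b c d t s else 0) (Icc 0 t) :=
      fun c => by
        split_ifs
        · exact (hf.cL a b c d).slice hf.N0 ht
        · exact continuousOn_const
    have cLt : ∀ c, ContinuousOn (fun s => if P c then Lt a b c d t s else 0) (Icc 0 t) :=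
      fun c => by
        split_ifs
        · exact (hf.cLt a b c d).slice hf.N0 ht
        · exact continuousOn_const
    have L0 : ∀ c, ∀ s ∈ Icc 0 t, 0 ≤ (if P c then L a b c d t s else 0) := fun c s hs => by
      split_ifs
      · exact hf.L0 a b c d t s hs.1 hs.2 ht.2
      · exact le_rfl
    have Lt0 : ∀ c, ∀ s ∈ Icc 0 t, 0 ≤ (if P c then Lt a b c d t s else 0) := fun c s hs => by
      split_ifs
      · exact hf.Lt0 a b c d t s hs.1 hs.2 ht.2
      · exact le_rfl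
    have cR : ContinuousOn (R a b d t) (Icc 0 t) := (hf.cR a b d).slice hf.N0 ht
    have cF := flx_slice hf hx hfc a b d ht
    have e2 : ∀ c, (if P c then ∫ s in (0 : ℝ)..t, (flx x P k κd a b d t s * L a b c d t s
        + muL x P k κd a b c t s * (R a b d t s * Lt a b c d t s)) else 0)
        = (∫ s in (0 : ℝ)..t, flx x P k κd a b d t s * (if P c then L a b c d t s else 0))
          + ∫ s in (0 : ℝ)..t, muL x P k κd a b c t s
            * (R a b d t s * (if P c then Lt a b c d t s else 0)) := fun c => by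
      by_cases hPc : P c
      · simp only [if_pos hPc]
        exact lam_term hf hx hfc ht a b c d
      · simp only [if_neg hPc, mul_zero, intervalIntegral.integral_zero, add_zero]
    have e1 : (∑ c ∈ ({a, b, d} : Finset V)ᶜ, (if P c then ∫ s in (0 : ℝ)..t,
        (flx x P k κd a b d t s * L a b c d t s
        + muL x P k κd a b c t s * (R a b d t s * Lt a b c d t s)) else 0))
        = (∫ s in (0 : ℝ)..t, flx x P k κd a b d t s
            * ∑ c ∈ ({a, b, d} : Finset V)ᶜ, (if P c then L a b c d t s else 0))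
          + ∑ c ∈ ({a, b, d} : Finset V)ᶜ, ∫ s in (0 : ℝ)..t,
            muL x P k κd a b c t s * (R a b d t s * (if P c then Lt a b c d t s else 0)) := by
      simp only [e2]
      rw [Finset.sum_add_distrib]
      congr 1
      have := intervalIntegral.integral_finsetSum (μ := volume) (a := 0) (b := t)
        (s := ({a, b, d} : Finset V)ᶜ) (f := fun c s => flx x P k κd a b d t s
          * (if P c then L a b c d t s else 0))
        fun c _ => ii_of ht.1 (cF.mul (cL c)) m0 mt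
      rw [← this]
      simp only [Finset.mul_sum]
    have i1 := flx_int_le hf hx hk hfc ht hr hd
      (f := fun s => ∑ c ∈ ({a, b, d} : Finset V)ᶜ, (if P c then L a b c d t s else 0))
      (continuousOn_finsetSum _ fun c _ => cL c)
      (fun s hs => Finset.sum_nonneg fun c _ => L0 c s hs)
      (hr.crA d) (fun s hs => hr.rL d hd hbd s hs) (hr.rI d hd)
    have i2 : (∑ c ∈ ({a, b, d} : Finset V)ᶜ, ∫ s in (0 : ℝ)..t,
          muL x P k κd a b c t s * (R a b d t s * (if P c then Lt a b c d t s else 0)))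
        ≤ ∫ s in (0 : ℝ)..t, ((1 - x a b) * ((1 + γ * x a b) * (1 + γ / 2)) * x b d)
          * (Fs s * rH s) := by
      have := intervalIntegral.integral_finsetSum (μ := volume) (a := 0) (b := t)
        (s := ({a, b, d} : Finset V)ᶜ) (f := fun c s =>
          muL x P k κd a b c t s * (R a b d t s * (if P c then Lt a b c d t s else 0)))
        fun c _ => ii_of ht.1 ((mu_cont hf hx hfc ht a b c).mul (cR.mul (cLt c))) m0 mt
      rw [← this]
      refine intervalIntegral.integral_mono_on ht.1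
        (ii_of ht.1 (continuousOn_finsetSum _ fun c _ =>
          (mu_cont hf hx hfc ht a b c).mul (cR.mul (cLt c))) m0 mt)
        (ii_of ht.1 (continuousOn_const.mul (hr.cFs.mul hr.crH)) m0 mt) fun s hs => ?_
      have j4 : 0 ≤ (1 - x a b) * ((1 + γ * x a b) * ((1 + γ / 2) * Fs s)) :=
        mul_nonneg (by linarith) (mul_nonneg (by linarith) (mul_nonneg (by linarith [hr.γ0])
          (hr.Fs0 s hs)))
      have j1 : ∀ c ∈ ({a, b, d} : Finset V)ᶜ,
          muL x P k κd a b c t s * (R a b d t s * (if P c then Lt a b c d t s else 0))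
          ≤ (1 - x a b) * ((1 + γ * x a b) * ((1 + γ / 2) * Fs s))
            * (R a b d t s * (if P c then Lt a b c d t s else 0)) := fun c _ =>
        mul_le_mul_of_nonneg_right
          (muL_le_s hf hx hk hfc ht hr.γ0 hr.cκ0 hr.hκ hr.Fs0 hab hr.hF c hs)
          (mul_nonneg (hf.R0 a b d t s hs.1 hs.2 ht.2) (Lt0 c s hs))
      refine (Finset.sum_le_sum j1).trans ?_
      rw [← Finset.mul_sum, ← Finset.mul_sum]
      calc _ ≤ (1 - x a b) * ((1 + γ * x a b) * ((1 + γ / 2) * Fs s)) * (x b d * rH s) :=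
            mul_le_mul_of_nonneg_left (hr.rT d hd hbd s hs) j4
        _ = _ := by ring
    rw [intervalIntegral.integral_const_mul] at i2
    have g0 : 0 ≤ (1 - x a b) * ((1 + γ * x a b) * (1 + γ / 2)) * x b d :=
      mul_nonneg (mul_nonneg (by linarith) (mul_nonneg (by linarith) (by linarith [hr.γ0]))) v0
    have i3 := i2.trans (mul_le_mul_of_nonneg_left hr.rJ g0)
    rw [e1]
    calc _ ≤ x b d * ((1 + γ * x a b) * RA)
          + (1 - x a b) * ((1 + γ * x a b) * (1 + γ / 2)) * x b d * RH := add_le_add i1 i3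
      _ = _ := by ring
  refine (Finset.sum_le_sum key).trans ?_
  rw [← Finset.sum_mul]
  have r1 := row_one hx b a (({a, b} : Finset V)ᶜ) fun d hd => by rw [mem2] at hd; exact hd.1
  rw [hx.symm b a] at r1
  refine mul_le_mul_of_nonneg_right r1 (mul_nonneg (by linarith) (add_nonneg RA0
    (mul_nonneg (by linarith) (mul_nonneg (by linarith [hr.γ0]) RH0))))

end Pool.Agent.RX.RCN.K
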