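import Pool.Agent.RX.RCN.Fin_1
import Pool.Agent.RX.RCN.T1B

/-! The inequality of the pairs: one side of the walk rate from the rows and columns of the
exponents of the closures (MP_73ccd0_lc, route M). -/

namespace Pool.Agent.RX.RCN.K

open Set Finset MeasureTheory Pool.Agent.RX.RCRSHalf Pool.Agent.RX.RCG Pool.Agent.RX.RCG.Ct
open Pool.Agent.RX.RCN.Ker Pool.Agent.RX.RCM.Jen

set_option linter.unusedSectionVars false

variable {V : Type*} [Fintype V] [DecidableEq V]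
variable {x : V → V → ℝ} {P : V → Prop} [DecidablePred P] {k : Kf} {N : ℕ}
variable {κd : ℝ → ℝ → ℝ → ℝ} {R : V → V → V → ℝ → ℝ → ℝ} {L Lt : V → V → V → V → ℝ → ℝ → ℝ}

/-- the amplification -/
noncomputable def psf (α γ z w : ℝ) : ℝ := ((1 - z * (α * (1 + γ * w))) ^ 2)⁻¹

theorem psf_nonneg (α γ z w : ℝ) : 0 ≤ psf α γ z w := inv_nonneg.2 (sq_nonneg _)

/-- the scalars of the pairs at the time `t` -/
structure Ps1 (k : Kf) (κd : ℝ → ℝ → ℝ → ℝ) (A : ℝ → ℝ → ℝ) (t α γ mt C e1 : ℝ) : Prop where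
  A1 : ∀ w ∈ Icc (0 : ℝ) 1, A w t ≤ α * (1 + γ * w)
  α0 : 0 ≤ α
  γ0 : 0 ≤ γ
  γ1 : γ ≤ 1
  m1 : α * (1 + γ / 2) ≤ mt
  mt1 : mt < 1
  m2 : mt * γ ≤ 1 - mt + γ / 4
  a1 : α * (1 + γ) < 1
  cj : CJ C mt
  C0 : 0 ≤ C
  ε : ∀ z ∈ Icc (0 : ℝ) 1, ∀ w ∈ Icc (0 : ℝ) 1,
    ∫ s in (0 : ℝ)..t, k.fh z s * (κd w t s - k.Pe w t) ≤ e1 * (1 + γ * w)
  e0 : 0 ≤ e1

/-- **one entry** -/
theorem em_P {A : ℝ → ℝ → ℝ} {t α γ mt C e1 : ℝ} (hs : Ps1 k κd A t α γ mt C e1)
    (hf : Lf N k κd R L Lt) (hx : Wt x P 1) (hk : k.Ok)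
    (hfc : ∀ y ∈ Icc (0 : ℝ) 1, ContinuousOn (k.fh y) (Icc 0 bt))
    (cPe : ∀ w, ContinuousOn (k.Pe w) (Icc 0 bt)) (hA : Ab k κd A) (ht : t ∈ Icc (0 : ℝ) bt)
    {a b c : V} (ha : P a) (hb : P b) (hab : a ≠ b) (hac : a ≠ c) (hbc : b ≠ c) :
    emin ((xdOf x κd R L Lt).E x P k) P a b c t
        * amp k.mb ((xdOf x κd R L Lt).E x P k) x P a b c t
      ≤ psf α γ (x b c) (x a b + x a c) * (x b c * (e1 * (1 + γ * (x a b + x a c)))
        + C * LamL x P k κd R L Lt a b c t) := by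
  have hΛ := LamL_nonneg (R := R) (L := L) (Lt := Lt) hf hx hk a b c ht
  have z0 := hx.nonneg b c
  have hw := two_mem hx a hbc
  have w0 : 0 ≤ e1 * (1 + γ * (x a b + x a c)) :=
    mul_nonneg hs.e0 (by have := mul_nonneg hs.γ0 hw.1; linarith)
  have hr : 0 ≤ x b c * (e1 * (1 + γ * (x a b + x a c))) + C * LamL x P k κd R L Lt a b c t :=
    add_nonneg (mul_nonneg z0 w0) (mul_nonneg hs.C0 hΛ)
  by_cases hc : P c
  · have q1 : ∀ {u v : V}, P u → P v → xr x P u v = x u v := fun hu hv => by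
      unfold xr; rw [if_pos ⟨hu, hv⟩]
    have hz := x_mem hx b c
    have e0 := e0L_nonneg hf hx hk a hbc ht
    have huz : x a b + x b c ≤ 1 := by
      have := row_one hx b a {c} (by simpa using hac.symm)
      rw [Finset.sum_singleton, hx.symm b a] at this
      linarith
    have hyz : x a c + x b c ≤ 1 := by
      have := row_one hx c a {b} (by simpa using hab.symm)
      rw [Finset.sum_singleton, hx.symm c a, hx.symm c b] at this
      linarith
    have u0 := hx.nonneg a b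
    have y0 := hx.nonneg a c
    have i1 : xr x P a b + xr x P a c ≤ 1 := xr_add_le hx hbc
    have m0 : 0 ≤ k.mb (xr x P a b) (xr x P a c) (xr x P b c) t :=
      hk.mb_nonneg (xmem1 hx a b) (xmem1 hx a c) (xmem1 hx b c) i1 ht
    have ee : ∀ s, fq x P k.fh b c s = k.fh (x b c) s := fun s => by
      unfold fq; rw [if_pos hc]
    have hm' : k.mb (xr x P a b) (xr x P a c) (xr x P b c) t + e0L x P k κd a b c t
        ≤ x b c * (α * (1 + γ * (x a b + x a c))) := by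
      have j1 := mul_le_mul_of_nonneg_left ((hA.fi _ hw _ hz t ht).trans (hs.A1 _ hw)) z0
      rw [q1 ha hb, q1 ha hc, q1 hb hc]
      unfold e0L Kf.mb
      simp only [ee]
      calc _ = x b c * (k.Pe (x a b + x a c) t * k.fi (x b c) t
            + ∫ s in (0 : ℝ)..t, k.fh (x b c) s
              * (κd (x a b + x a c) t s - k.Pe (x a b + x a c) t)) := by ring
        _ ≤ _ := j1
    set m := k.mb (xr x P a b) (xr x P a c) (xr x P b c) t with hmdef
    set e := e0L x P k κd a b c t with hedef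
    have g1 : γ * (x a b + x a c) ≤ γ * 1 := mul_le_mul_of_nonneg_left hw.2 hs.γ0
    have g2 : α * (1 + γ * (x a b + x a c)) ≤ α * (1 + γ) :=
      mul_le_mul_of_nonneg_left (by linarith) hs.α0
    have g3 : m + e ≤ x b c * (α * (1 + γ)) := hm'.trans (mul_le_mul_of_nonneg_left g2 z0)
    have A10 : 0 ≤ α * (1 + γ) := mul_nonneg hs.α0 (by linarith [hs.γ0])
    have g4 : x b c * (α * (1 + γ)) ≤ α * (1 + γ) := mul_le_of_le_one_left A10 hz.2
    have hM : m + e < 1 := lt_of_le_of_lt (g3.trans g4) hs.a1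
    have hmu : muL x P k κd a b c t t ≤ mt * (1 - m - e) := by
      refine (muL_le hf hx hfc hA ht hs.A1 hs.α0 hs.γ0 hab hac hbc).trans ?_
      refine (mu_scalar hs.α0 hs.γ0 hs.m1 hs.mt1.le hs.m2 u0 z0 y0 (x_mem hx a c).2
        hs.γ1).trans ?_
      have mt0 : 0 ≤ mt := le_trans (mul_nonneg hs.α0 (by linarith [hs.γ0])) hs.m1
      exact mul_le_mul_of_nonneg_left (by linarith) mt0
    have hE0 : 0 ≤ (xdOf x κd R L Lt).E x P k a b c t := E_nonneg' hf hx hk a hbc ht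
    have hE0' : 0 ≤ (xdOf x κd R L Lt).E x P k a c b t := E_nonneg' hf hx hk a hbc.symm ht
    have he0 : 0 ≤ emin ((xdOf x κd R L Lt).E x P k) P a b c t := by
      unfold emin
      rw [if_pos hc]
      exact le_min hE0 hE0'
    have he1 : emin ((xdOf x κd R L Lt).E x P k) P a b c t
        ≤ (xdOf x κd R L Lt).E x P k a b c t := by
      unfold emin
      rw [if_pos hc]
      exact min_le_left _ _
    have key := em_amp hf hx hk hfc cPe hs.cj hs.C0 hs.mt1 a hbc ht m0 hM hmu he0 he1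
    have g5 : x b c * (α * (1 + γ * (x a b + x a c))) < 1 :=
      lt_of_le_of_lt ((mul_le_mul_of_nonneg_left g2 z0).trans g4) hs.a1
    have p1 : 0 < 1 - m - e := by linarith
    have p0 : 0 < (1 - x b c * (α * (1 + γ * (x a b + x a c)))) ^ 2 := by
      have : 0 < 1 - x b c * (α * (1 + γ * (x a b + x a c))) := by linarith
      positivity
    have d3 : (1 - x b c * (α * (1 + γ * (x a b + x a c)))) ^ 2 ≤ (1 - m - e) ^ 2 :=
      pow_le_pow_left₀ (by linarith) (by linarith) 2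
    have d1 : (1 - m - e) ^ 2 ≤ (1 - m) * (1 - m - e) := by
      have : 0 ≤ e * (1 - m - e) := mul_nonneg e0 p1.le
      nlinarith
    have d2 : e ≤ x b c * (e1 * (1 + γ * (x a b + x a c))) := by
      rw [hedef]
      unfold e0L
      simp only [ee]
      exact mul_le_mul_of_nonneg_left (hs.ε _ hz _ hw) z0
    unfold amp
    refine key.trans ?_
    have s1 : e / ((1 - m) * (1 - m - e))
        ≤ psf α γ (x b c) (x a b + x a c) * (x b c * (e1 * (1 + γ * (x a b + x a c)))) := by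
      unfold psf
      rw [inv_mul_eq_div]
      exact div_le_div₀ (mul_nonneg z0 w0) d2 p0 (d3.trans d1)
    have s2 : C * LamL x P k κd R L Lt a b c t / (1 - m - e) ^ 2
        ≤ psf α γ (x b c) (x a b + x a c) * (C * LamL x P k κd R L Lt a b c t) := by
      unfold psf
      rw [inv_mul_eq_div]
      exact div_le_div₀ (mul_nonneg hs.C0 hΛ) le_rfl p0 d3
    linarith
  · have : emin ((xdOf x κd R L Lt).E x P k) P a b c t = 0 := by
      unfold emin; rw [if_neg hc]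
    rw [this, zero_mul]
    exact mul_nonneg (psf_nonneg _ _ _ _) hr

/-- the weight of the mass of the fluxes -/
noncomputable def Mw (γ u y z : ℝ) : ℝ :=
  (1 + γ * u) * (1 - u - z) + γ * ((2 - 2 * u - z - y) / 4)

/-- the mass of the fluxes up to `s` -/
theorem muL_le2 (hf : Lf N k κd R L Lt) (hx : Wt x P 1) (hk : k.Ok)
    (hfc : ∀ y ∈ Icc (0 : ℝ) 1, ContinuousOn (k.fh y) (Icc 0 bt)) {t : ℝ}
    (ht : t ∈ Icc (0 : ℝ) bt) {γ : ℝ} (γ0 : 0 ≤ γ) {κ0 Fs : ℝ → ℝ}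
    (cκ0 : ContinuousOn κ0 (Icc 0 t))
    (hκ : ∀ w ∈ Icc (0 : ℝ) 1, ∀ s ∈ Icc 0 t, κd w t s ≤ κ0 s * (1 + γ * w))
    (Fs0 : ∀ s ∈ Icc 0 t, 0 ≤ Fs s) {a b c : V} (hab : a ≠ b) (hac : a ≠ c) (hbc : b ≠ c)
    (hF : ∀ d ∈ ({a, b} : Finset V)ᶜ, ∀ s ∈ Icc 0 t,
      ∫ r in (0 : ℝ)..s, fq x P k.fh b d r * κ0 r ≤ Fs s) {s : ℝ} (hs : s ∈ Icc 0 t) :
    muL x P k κd a b c t s ≤ Mw γ (x a b) (x a c) (x b c) * Fs s := by
  have cfq : ∀ d, ContinuousOn (fq x P k.fh b d) (Icc 0 t) := fun d =>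
    (fq_cont' hfc hx b d).mono (Icc_subset_Icc_right ht.2)
  have m0 : (0 : ℝ) ∈ Icc 0 t := ⟨le_rfl, ht.1⟩
  have u0 := hx.nonneg a b
  have hq : ∀ d, ∀ r ∈ Icc 0 t, 0 ≤ fq x P k.fh b d r := fun d r hr =>
    fq_nonneg' hk hx b d ⟨hr.1, hr.2.trans ht.2⟩
  have h1 : muL x P k κd a b c t s = ∑ d ∈ ({a, b, c} : Finset V)ᶜ,
      ∫ r in (0 : ℝ)..s, flx x P k κd a b d t r := by
    unfold muL
    rw [intervalIntegral.integral_finsetSum fun d _ =>
      ii_of ht.1 (flx_slice hf hx hfc a b d ht) m0 hs]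
  have h2 : ∀ d ∈ ({a, b, c} : Finset V)ᶜ, ∫ r in (0 : ℝ)..s, flx x P k κd a b d t r
      ≤ ((1 + γ * x a b) * x b d + γ * ((x b d + x a d) / 4)) * Fs s := by
    intro d hd'
    rw [mem3] at hd'
    have hd : d ∈ ({a, b} : Finset V)ᶜ := mem2.2 ⟨hd'.1, hd'.2.1⟩
    have hw := two_mem hx a (Ne.symm hd'.2.1)
    have v0 := hx.nonneg b d
    have w0 := hx.nonneg a d
    have hvw : x b d + x a d ≤ 1 := by
      have := row_one hx d b {a} (by simpa using hab)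
      rw [Finset.sum_singleton] at this
      rw [hx.symm b d, hx.symm a d]
      linarith
    have i0 : ∫ r in (0 : ℝ)..s, flx x P k κd a b d t r
        ≤ ∫ r in (0 : ℝ)..s, (x b d * (1 + γ * (x a b + x a d)))
          * (fq x P k.fh b d r * κ0 r) := by
      refine intervalIntegral.integral_mono_on hs.1
        (ii_of ht.1 (flx_slice hf hx hfc a b d ht) m0 hs)
        (ii_of ht.1 (continuousOn_const.mul ((cfq d).mul cκ0)) m0 hs) fun r hr => ?_
      have hr' : r ∈ Icc 0 t := ⟨hr.1, hr.2.trans hs.2⟩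
      unfold flx
      have := mul_le_mul_of_nonneg_left (hκ _ hw r hr') (mul_nonneg v0 (hq d r hr'))
      calc _ ≤ x b d * fq x P k.fh b d r * (κ0 r * (1 + γ * (x a b + x a d))) := this
        _ = _ := by ring
    rw [intervalIntegral.integral_const_mul] at i0
    have g0 : 0 ≤ x b d * (1 + γ * (x a b + x a d)) :=
      mul_nonneg v0 (by nlinarith)
    have i1 := i0.trans (mul_le_mul_of_nonneg_left (hF d hd s hs) g0)
    refine i1.trans (mul_le_mul_of_nonneg_right ?_ (Fs0 s hs))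
    have i3 := vw_le v0 w0 hvw
    have i4 : γ * (x b d * x a d) ≤ γ * ((x b d + x a d) / 4) := mul_le_mul_of_nonneg_left i3 γ0
    nlinarith
  rw [h1]
  refine (Finset.sum_le_sum h2).trans ?_
  rw [← Finset.sum_mul, Finset.sum_add_distrib, ← Finset.mul_sum, ← Finset.mul_sum,
    ← Finset.sum_div, Finset.sum_add_distrib]
  refine mul_le_mul_of_nonneg_right ?_ (Fs0 s hs)
  have r1 := row_two hx b (a := a) (c := c) hac (({a, b, c} : Finset V)ᶜ) fun d hd => by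
    rw [mem3] at hd; exact ⟨hd.1, hd.2.2⟩
  have r2 := row_two hx a (a := b) (c := c) hbc (({a, b, c} : Finset V)ᶜ) fun d hd => by
    rw [mem3] at hd; exact ⟨hd.2.1, hd.2.2⟩
  rw [hx.symm b a] at r1
  have k1 : 0 ≤ 1 + γ * x a b := by
    have := mul_nonneg γ0 u0
    linarith
  have j1 := mul_le_mul_of_nonneg_left r1 k1
  have j2 : (∑ d ∈ ({a, b, c} : Finset V)ᶜ, x b d + ∑ d ∈ ({a, b, c} : Finset V)ᶜ, x a d) / 4
      ≤ (2 - 2 * x a b - x b c - x a c) / 4 := by linarith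
  have j3 := mul_le_mul_of_nonneg_left j2 γ0
  unfold Mw
  linarith

theorem Mw_le {γ u y z : ℝ} (γ0 : 0 ≤ γ) (u0 : 0 ≤ u) (y0 : 0 ≤ y) (z0 : 0 ≤ z) :
    Mw γ u y z ≤ Mw γ u 0 0 := by
  unfold Mw
  have := mul_nonneg γ0 u0
  nlinarith [mul_nonneg γ0 y0, mul_nonneg γ0 z0, mul_nonneg this z0]

theorem Mw_nonneg {γ u y z : ℝ} (γ0 : 0 ≤ γ) (u0 : 0 ≤ u) (h1 : u + z ≤ 1)
    (h2 : u + y ≤ 1) : 0 ≤ Mw γ u y z := by
  unfold Mw
  have h3 := mul_nonneg γ0 u0
  have h4 : 0 ≤ γ * ((2 - 2 * u - z - y) / 4) := mul_nonneg γ0 (by linarith)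
  have h5 : 0 ≤ (1 + γ * u) * (1 - u - z) := mul_nonneg (by linarith) (by linarith)
  linarith

/-- the exponents between real vertices -/
noncomputable def rP (P : V → Prop) [DecidablePred P] (L : V → V → V → V → ℝ → ℝ → ℝ)
    (a b c d : V) (t s : ℝ) : ℝ :=
  if P c ∧ P d then L a b c d t s else 0

/-- the rows and columns of the exponents of the closures in the world of `a`, `b` -/
structure Pw (x : V → V → ℝ) (P : V → Prop) [DecidablePred P] (k : Kf) (κd : ℝ → ℝ → ℝ → ℝ)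
    (R : V → V → V → ℝ → ℝ → ℝ) (L Lt : V → V → V → V → ℝ → ℝ → ℝ) (a b : V) (t γ : ℝ)
    (κ0 Fs ρ : ℝ → ℝ) (l1 l2 h1 h2 : ℝ → ℝ → ℝ) : Prop where
  γ0 : 0 ≤ γ
  cκ0 : ContinuousOn κ0 (Icc 0 t)
  k0 : ∀ s ∈ Icc 0 t, 0 ≤ κ0 s
  hκ : ∀ w ∈ Icc (0 : ℝ) 1, ∀ s ∈ Icc 0 t, κd w t s ≤ κ0 s * (1 + γ * w)
  cFs : ContinuousOn Fs (Icc 0 t)
  Fs0 : ∀ s ∈ Icc 0 t, 0 ≤ Fs s
  hF : ∀ d ∈ ({a, b} : Finset V)ᶜ, ∀ s ∈ Icc 0 t,
    ∫ r in (0 : ℝ)..s, fq x P k.fh b d r * κ0 r ≤ Fs s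
  cρ : ContinuousOn ρ (Icc 0 t)
  ρ0 : ∀ s ∈ Icc 0 t, 0 ≤ ρ s
  hR : ∀ d, ∀ s ∈ Icc 0 t, R a b d t s ≤ x b d * ρ s
  cl1 : ∀ q ∈ Icc (0 : ℝ) 1, ContinuousOn (l1 q) (Icc 0 t)
  cl2 : ∀ q ∈ Icc (0 : ℝ) 1, ContinuousOn (l2 q) (Icc 0 t)
  ch1 : ∀ q ∈ Icc (0 : ℝ) 1, ContinuousOn (h1 q) (Icc 0 t)
  ch2 : ∀ q ∈ Icc (0 : ℝ) 1, ContinuousOn (h2 q) (Icc 0 t)
  r1 : ∀ c ∈ ({a, b} : Finset V)ᶜ, ∀ s ∈ Icc 0 t,
    ∑ d ∈ ({a, b, c} : Finset V)ᶜ, rP P L a b c d t s
      ≤ (1 - (x a c + x b c)) * l1 (x a c + x b c) s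
  r2 : ∀ d ∈ ({a, b} : Finset V)ᶜ, ∀ s ∈ Icc 0 t,
    ∑ c ∈ ({a, b, d} : Finset V)ᶜ, rP P L a b c d t s
      ≤ (1 - (x a d + x b d)) * l2 (x a d + x b d) s
  r3 : ∀ c ∈ ({a, b} : Finset V)ᶜ, ∀ s ∈ Icc 0 t,
    ∑ d ∈ ({a, b, c} : Finset V)ᶜ, rP P Lt a b c d t s
      ≤ (1 - (x a c + x b c)) * h1 (x a c + x b c) s
  r4 : ∀ d ∈ ({a, b} : Finset V)ᶜ, ∀ s ∈ Icc 0 t,
    ∑ c ∈ ({a, b, d} : Finset V)ᶜ, rP P Lt a b c d t s
      ≤ (1 - (x a d + x b d)) * h2 (x a d + x b d) s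
  pd : ∀ c d, ¬P d → x b d ≠ 0 → ∀ s ∈ Icc 0 t, L a b c d t s = 0 ∧ Lt a b c d t s = 0

variable {a b : V} {t γ : ℝ} {κ0 Fs ρ : ℝ → ℝ} {l1 l2 h1 h2 : ℝ → ℝ → ℝ}

/-- the density of the bound of the error at one vertex: `y, z` its weights, `v` the weight of the
amplified side -/
noncomputable def Bd (k : Kf) (γ : ℝ) (κ0 Fs ρ : ℝ → ℝ) (l1 l2 h1 h2 : ℝ → ℝ → ℝ)
    (θ θh u y z q v s : ℝ) : ℝ :=
  (1 - q) * (κ0 s * (1 + γ * u) * (θ * v ^ 2 * l1 q s
      + θ⁻¹ * (z * (1 + γ * y) * k.fh z s) ^ 2 * l2 q s)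
    + Fs s * (θh * v ^ 2 * Mw γ u y z * h1 q s
      + θh⁻¹ * (z * ρ s) ^ 2 * Mw γ u 0 0 * h2 q s)) / 2

/-- one term of the linear error -/
noncomputable def Td (k : Kf) (γ : ℝ) (κ0 Fs ρ : ℝ → ℝ) (θ θh u Mc vc yd zd l lt s : ℝ) : ℝ :=
  κ0 s * (1 + γ * u) * (θ * vc ^ 2) / 2 * l
    + κ0 s * (1 + γ * u) * (θ⁻¹ * (zd * (1 + γ * yd) * k.fh zd s) ^ 2) / 2 * l
    + Fs s * (θh * vc ^ 2 * Mc) / 2 * lt
    + Fs s * (θh⁻¹ * (zd * ρ s) ^ 2 * Mw γ u 0 0) / 2 * lt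

theorem amgm {θ a b : ℝ} (h : 0 < θ) : a * b ≤ (θ * a ^ 2 + θ⁻¹ * b ^ 2) / 2 := by
  have h1 := sq_nonneg (θ * a - b)
  have h2 : 0 ≤ θ⁻¹ * (θ * a - b) ^ 2 := mul_nonneg (inv_nonneg.2 h.le) h1
  have h3 : θ⁻¹ * (θ * a - b) ^ 2 = θ * a ^ 2 + θ⁻¹ * b ^ 2 - 2 * (a * b) := by
    field_simp
    ring
  linarith

/-- **the linear errors of one side** -/
theorem lam_side (hf : Lf N k κd R L Lt) (hx : Wt x P 1) (hk : k.Ok)
    (hfc : ∀ y ∈ Icc (0 : ℝ) 1, ContinuousOn (k.fh y) (Icc 0 bt)) (ht : t ∈ Icc (0 : ℝ) bt)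
    (hw : Pw x P k κd R L Lt a b t γ κ0 Fs ρ l1 l2 h1 h2) (ha : P a) (hb : P b) (hab : a ≠ b)
    {θ θh : ℝ → ℝ} (cθ : ContinuousOn θ (Icc 0 t)) (cθh : ContinuousOn θh (Icc 0 t))
    (θ0 : ∀ s ∈ Icc 0 t, 0 < θ s) (θh0 : ∀ s ∈ Icc 0 t, 0 < θh s) (v : V → ℝ)
    (v0 : ∀ c, 0 ≤ v c) (vz : ∀ c, ¬P c → v c = 0) :
    ∑ c ∈ ({a, b} : Finset V)ᶜ, v c * LamL x P k κd R L Lt a b c t
      ≤ ∑ c ∈ ({a, b} : Finset V)ᶜ, ∫ s in (0 : ℝ)..t,
        Bd k γ κ0 Fs ρ l1 l2 h1 h2 (θ s) (θh s) (x a b) (xr x P a c) (xr x P b c)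
          (x a c + x b c) (v c) s := by
  have m0 : (0 : ℝ) ∈ Icc 0 t := ⟨le_rfl, ht.1⟩
  have mt : t ∈ Icc 0 t := ⟨ht.1, le_rfl⟩
  have hsub : Icc (0 : ℝ) t ⊆ Icc 0 bt := Icc_subset_Icc_right ht.2
  have u0 := hx.nonneg a b
  have u1 := (x_mem hx a b).2
  have γ0 := hw.γ0
  have γu : 0 ≤ γ * x a b := mul_nonneg γ0 u0
  have cL : ∀ c d, ContinuousOn (L a b c d t) (Icc 0 t) := fun c d =>
    (hf.cL a b c d).slice hf.N0 ht
  have cLt : ∀ c d, ContinuousOn (Lt a b c d t) (Icc 0 t) := fun c d =>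
    (hf.cLt a b c d).slice hf.N0 ht
  have cR : ∀ d, ContinuousOn (R a b d t) (Icc 0 t) := fun d => (hf.cR a b d).slice hf.N0 ht
  have cF := fun d => flx_slice hf hx hfc a b d ht
  have cm := fun c => mu_cont hf hx hfc ht a b c
  have cfh : ∀ z ∈ Icc (0 : ℝ) 1, ContinuousOn (k.fh z) (Icc 0 t) := fun z hz =>
    (hfc z hz).mono hsub
  have xb1 := xmem1 (P := P) hx b
  have xa1 := xmem1 (P := P) hx a
  have iθ : ∀ s ∈ Icc 0 t, 0 < (θ s)⁻¹ := fun s hs => inv_pos.2 (θ0 s hs)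
  have iθh : ∀ s ∈ Icc 0 t, 0 < (θh s)⁻¹ := fun s hs => inv_pos.2 (θh0 s hs)
  have ci : ContinuousOn (fun s => (θ s)⁻¹) (Icc 0 t) := cθ.inv₀ fun s hs => (θ0 s hs).ne'
  have cih : ContinuousOn (fun s => (θh s)⁻¹) (Icc 0 t) := cθh.inv₀ fun s hs => (θh0 s hs).ne'
  have Mb0 : 0 ≤ Mw γ (x a b) 0 0 := Mw_nonneg γ0 u0 (by linarith) (by linarith)
  have hq : ∀ c ∈ ({a, b} : Finset V)ᶜ, x a c + x b c ∈ Icc (0 : ℝ) 1 := fun c hc => by
    have := two_mem hx c hab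
    rwa [hx.symm c a, hx.symm c b] at this
  have xre : ∀ {u w : V}, P u → P w → xr x P u w = x u w := fun hu hw => by
    unfold xr; rw [if_pos ⟨hu, hw⟩]
  have rz : ∀ (L : V → V → V → V → ℝ → ℝ → ℝ) (c d : V), ¬(P c ∧ P d) → ∀ s,
      rP P L a b c d t s = 0 := fun L c d h s => by unfold rP; rw [if_neg h]
  have rp : ∀ (L : V → V → V → V → ℝ → ℝ → ℝ) (c d : V), P c → P d → ∀ s,
      rP P L a b c d t s = L a b c d t s := fun L c d h1 h2 s => by
    unfold rP; rw [if_pos ⟨h1, h2⟩]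
  have cr : ∀ (L : V → V → V → V → ℝ → ℝ → ℝ) (c d : V),
      ContinuousOn (L a b c d t) (Icc 0 t) → ContinuousOn (rP P L a b c d t) (Icc 0 t) := by
    intro L c d h
    by_cases h1 : P c ∧ P d
    · have : rP P L a b c d t = L a b c d t := by
        funext s; exact rp L c d h1.1 h1.2 s
      rw [this]; exact h
    · have : rP P L a b c d t = fun _ => 0 := by
        funext s; exact rz L c d h1 s
      rw [this]; exact continuousOn_const
  -- the terms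
  set T : V → V → ℝ → ℝ := fun c d s => Td k γ κ0 Fs ρ (θ s) (θh s) (x a b)
    (Mw γ (x a b) (xr x P a c) (xr x P b c)) (v c) (xr x P a d) (xr x P b d)
    (rP P L a b c d t s) (rP P Lt a b c d t s) s with hT
  have cT : ∀ c d, ContinuousOn (T c d) (Icc 0 t) := by
    intro c d
    have c1 := cfh _ (xb1 d)
    have c2 := cr L c d (cL c d)
    have c3 := cr Lt c d (cLt c d)
    have c4 := hw.cκ0
    have c5 := hw.cFs
    have c6 := hw.cρ
    exact ((((((c4.mul continuousOn_const).mul (cθ.mul continuousOn_const)).div_const 2).mul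
      c2).add ((((c4.mul continuousOn_const).mul (ci.mul ((continuousOn_const.mul
        c1).pow 2))).div_const 2).mul c2)).add
      (((c5.mul ((cθh.mul continuousOn_const).mul continuousOn_const)).div_const 2).mul
        c3)).add
      (((c5.mul ((cih.mul ((continuousOn_const.mul c6).pow 2)).mul
        continuousOn_const)).div_const 2).mul c3)
  have step1 : ∀ c ∈ ({a, b} : Finset V)ᶜ, v c * LamL x P k κd R L Lt a b c t
      ≤ ∫ s in (0 : ℝ)..t, ∑ d ∈ ({a, b, c} : Finset V)ᶜ, T c d s := by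
    intro c hc
    have hc' := mem2.1 hc
    unfold LamL
    rw [Finset.mul_sum, intervalIntegral.integral_finsetSum fun d _ =>
      ii_of ht.1 (cT c d) m0 mt]
    refine Finset.sum_le_sum fun d hd => ?_
    have hd' := mem3.1 hd
    rw [← intervalIntegral.integral_const_mul]
    refine intervalIntegral.integral_mono_on ht.1 (ii_of ht.1 (continuousOn_const.mul
      (((cF d).mul (cL c d)).add ((cm c).mul ((cR d).mul (cLt c d))))) m0 mt)
      (ii_of ht.1 (cT c d) m0 mt) fun s hs => ?_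
    have k0 := hw.k0 s hs
    have F0 := hw.Fs0 s hs
    have ρ0 := hw.ρ0 s hs
    have iθs := iθ s hs
    have iθhs := iθh s hs
    have L0 : 0 ≤ L a b c d t s := hf.L0 a b c d t s hs.1 hs.2 ht.2
    have Lt0 : 0 ≤ Lt a b c d t s := hf.Lt0 a b c d t s hs.1 hs.2 ht.2
    have yz0 := (xa1 d).1
    have zz0 := (xb1 d).1
    have fh0 : 0 ≤ k.fh (xr x P b d) s := hk.fh_nonneg (xb1 d) (hsub hs)
    have hwd := two_mem hx a (Ne.symm hd'.2.1)
    -- the flux
    have f1 : flx x P k κd a b d t s * L a b c d t s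
        ≤ κ0 s * (1 + γ * x a b) * (xr x P b d * (1 + γ * xr x P a d) * k.fh (xr x P b d) s)
          * L a b c d t s := by
      by_cases hd1 : P d
      · refine mul_le_mul_of_nonneg_right ?_ L0
        unfold flx fq
        rw [if_pos hd1, xre hb hd1, xre ha hd1]
        rw [xre hb hd1] at fh0
        have w0 := hx.nonneg a d
        have i1 : κd (x a b + x a d) t s ≤ κ0 s * ((1 + γ * x a b) * (1 + γ * x a d)) := by
          refine (hw.hκ _ hwd s hs).trans (mul_le_mul_of_nonneg_left ?_ k0)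
          have := mul_nonneg γu (mul_nonneg γ0 w0)
          nlinarith
        have i2 := mul_le_mul_of_nonneg_left i1 (mul_nonneg (hx.nonneg b d) fh0)
        linarith
      · have r0 : 0 ≤ κ0 s * (1 + γ * x a b) * (xr x P b d * (1 + γ * xr x P a d)
            * k.fh (xr x P b d) s) * L a b c d t s :=
          mul_nonneg (mul_nonneg (mul_nonneg k0 (by linarith)) (mul_nonneg (mul_nonneg zz0
            (by have := mul_nonneg γ0 yz0; linarith)) fh0)) L0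
        by_cases hbd : x b d = 0
        · unfold flx
          rw [hbd, zero_mul, zero_mul, zero_mul]
          exact r0
        · rw [(hw.pd c d hd1 hbd s hs).1, mul_zero, mul_zero]
    have f2 : R a b d t s * Lt a b c d t s ≤ xr x P b d * ρ s * Lt a b c d t s := by
      by_cases hd1 : P d
      · rw [xre hb hd1]
        exact mul_le_mul_of_nonneg_right (hw.hR d s hs) Lt0
      · by_cases hbd : x b d = 0
        · have h3 := hw.hR d s hs
          rw [hbd, zero_mul] at h3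
          have h4 := hf.R0 a b d t s hs.1 hs.2 ht.2
          have h5 : R a b d t s = 0 := le_antisymm h3 h4
          rw [h5, zero_mul]
          exact mul_nonneg (mul_nonneg zz0 ρ0) Lt0
        · rw [(hw.pd c d hd1 hbd s hs).2, mul_zero, mul_zero]
    have f3 := muL_le2 hf hx hk hfc ht γ0 hw.cκ0 hw.hκ hw.Fs0 hab (Ne.symm hc'.1)
      (Ne.symm hc'.2) hw.hF hs
    have f4 : 0 ≤ R a b d t s * Lt a b c d t s :=
      mul_nonneg (hf.R0 a b d t s hs.1 hs.2 ht.2) Lt0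
    show v c * (flx x P k κd a b d t s * L a b c d t s
      + muL x P k κd a b c t s * (R a b d t s * Lt a b c d t s)) ≤
      Td k γ κ0 Fs ρ (θ s) (θh s) (x a b) (Mw γ (x a b) (xr x P a c) (xr x P b c)) (v c)
        (xr x P a d) (xr x P b d) (rP P L a b c d t s) (rP P Lt a b c d t s) s
    by_cases hcP : P c
    · rw [xre ha hcP, xre hb hcP]
      have M0 : 0 ≤ Mw γ (x a b) (x a c) (x b c) := by
        refine Mw_nonneg γ0 u0 ?_ ?_
        · have := row_one hx b a {c} (by simpa using hc'.1)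
          rw [Finset.sum_singleton, hx.symm b a] at this
          linarith
        · have := row_one hx a b {c} (by simpa using hc'.2)
          rw [Finset.sum_singleton] at this
          linarith
      have M1 := Mw_le (u := x a b) γ0 u0 (hx.nonneg a c) (hx.nonneg b c)
      set Mc := Mw γ (x a b) (x a c) (x b c)
      set Mb := Mw γ (x a b) 0 0
      set β := xr x P b d * (1 + γ * xr x P a d) * k.fh (xr x P b d) s
      set ζ := xr x P b d * ρ s
      have ζ0 : 0 ≤ ζ := mul_nonneg zz0 ρ0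
      have g1 : muL x P k κd a b c t s * (R a b d t s * Lt a b c d t s)
          ≤ Mc * Fs s * (ζ * Lt a b c d t s) :=
        mul_le_mul f3 f2 f4 (mul_nonneg M0 F0)
      have g2 := mul_le_mul_of_nonneg_left (add_le_add f1 g1) (v0 c)
      refine g2.trans ?_
      by_cases hd1 : P d
      swap
      · have z : xr x P b d = 0 := by unfold xr; rw [if_neg fun h => hd1 h.2]
        have eβ : β = 0 := by
          show xr x P b d * (1 + γ * xr x P a d) * k.fh (xr x P b d) s = 0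
          rw [z, zero_mul, zero_mul]
        have eζ : ζ = 0 := by
          show xr x P b d * ρ s = 0
          rw [z, zero_mul]
        rw [rz L c d (fun h => hd1 h.2), rz Lt c d (fun h => hd1 h.2), eβ, eζ]
        unfold Td
        simp
      rw [rp L c d hcP hd1, rp Lt c d hcP hd1]
      have a1 := mul_le_mul_of_nonneg_left (amgm (a := v c) (b := β) (θ0 s hs))
        (mul_nonneg (mul_nonneg k0 (show 0 ≤ 1 + γ * x a b by linarith)) L0)
      have a2 := mul_le_mul_of_nonneg_left (amgm (a := v c) (b := ζ) (θh0 s hs))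
        (mul_nonneg (mul_nonneg M0 F0) Lt0)
      have a3 : Mc * (Fs s * ((θh s)⁻¹ * ζ ^ 2) / 2 * Lt a b c d t s)
          ≤ Mb * (Fs s * ((θh s)⁻¹ * ζ ^ 2) / 2 * Lt a b c d t s) := by
        refine mul_le_mul_of_nonneg_right M1 ?_
        positivity
      show _ ≤ Td k γ κ0 Fs ρ (θ s) (θh s) (x a b) Mc (v c) (xr x P a d) (xr x P b d)
        (L a b c d t s) (Lt a b c d t s) s
      unfold Td
      calc _ = κ0 s * (1 + γ * x a b) * L a b c d t s * (v c * β)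
            + Mc * Fs s * Lt a b c d t s * (v c * ζ) := by ring
        _ ≤ κ0 s * (1 + γ * x a b) * L a b c d t s * ((θ s * v c ^ 2 + (θ s)⁻¹ * β ^ 2) / 2)
            + Mc * Fs s * Lt a b c d t s * ((θh s * v c ^ 2 + (θh s)⁻¹ * ζ ^ 2) / 2) :=
          add_le_add a1 a2
        _ = κ0 s * (1 + γ * x a b) * L a b c d t s * ((θ s * v c ^ 2 + (θ s)⁻¹ * β ^ 2) / 2)
            + Mc * Fs s * Lt a b c d t s * ((θh s * v c ^ 2) / 2)
            + Mc * (Fs s * ((θh s)⁻¹ * ζ ^ 2) / 2 * Lt a b c d t s) := by ring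
        _ ≤ κ0 s * (1 + γ * x a b) * L a b c d t s * ((θ s * v c ^ 2 + (θ s)⁻¹ * β ^ 2) / 2)
            + Mc * Fs s * Lt a b c d t s * ((θh s * v c ^ 2) / 2)
            + Mb * (Fs s * ((θh s)⁻¹ * ζ ^ 2) / 2 * Lt a b c d t s) := by linarith
        _ = _ := by ring
    · rw [vz c hcP, zero_mul, rz L c d (fun h => hcP h.1), rz Lt c d (fun h => hcP h.1)]
      unfold Td
      simp
  have cB : ∀ c ∈ ({a, b} : Finset V)ᶜ, ContinuousOn (fun s => Bd k γ κ0 Fs ρ l1 l2 h1 h2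
      (θ s) (θh s) (x a b) (xr x P a c) (xr x P b c) (x a c + x b c) (v c) s) (Icc 0 t) := by
    intro c hc
    have c1 := cfh _ (xb1 c)
    have c4 := hw.cκ0
    have c5 := hw.cFs
    have c6 := hw.cρ
    have j1 := hw.cl1 _ (hq c hc)
    have j2 := hw.cl2 _ (hq c hc)
    have j3 := hw.ch1 _ (hq c hc)
    have j4 := hw.ch2 _ (hq c hc)
    exact (continuousOn_const.mul (((c4.mul continuousOn_const).mul (((cθ.mul
      continuousOn_const).mul j1).add ((ci.mul ((continuousOn_const.mul c1).pow 2)).mul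
      j2))).add (c5.mul ((((cθh.mul continuousOn_const).mul continuousOn_const).mul j3).add
      (((cih.mul ((continuousOn_const.mul c6).pow 2)).mul continuousOn_const).mul
      j4))))).div_const 2
  refine (Finset.sum_le_sum step1).trans ?_
  rw [← intervalIntegral.integral_finsetSum fun c _ => ii_of ht.1
      (continuousOn_finsetSum _ fun d _ => cT c d) m0 mt,
    ← intervalIntegral.integral_finsetSum fun c hc => ii_of ht.1 (cB c hc) m0 mt]
  refine intervalIntegral.integral_mono_on ht.1 (ii_of ht.1 (continuousOn_finsetSum _ fun c _ =>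
    continuousOn_finsetSum _ fun d _ => cT c d) m0 mt)
    (ii_of ht.1 (continuousOn_finsetSum _ fun c hc => cB c hc) m0 mt) fun s hs => ?_
  have k0 := hw.k0 s hs
  have F0 := hw.Fs0 s hs
  have e1 : 0 ≤ 1 + γ * x a b := by linarith
  have split : (∑ c ∈ ({a, b} : Finset V)ᶜ, ∑ d ∈ ({a, b, c} : Finset V)ᶜ, T c d s)
      = ∑ c ∈ ({a, b} : Finset V)ᶜ, (κ0 s * (1 + γ * x a b) * (θ s * v c ^ 2) / 2
          * (∑ d ∈ ({a, b, c} : Finset V)ᶜ, rP P L a b c d t s)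
        + κ0 s * (1 + γ * x a b) * ((θ s)⁻¹ * (xr x P b c * (1 + γ * xr x P a c)
          * k.fh (xr x P b c) s) ^ 2) / 2 * (∑ d ∈ ({a, b, c} : Finset V)ᶜ, rP P L a b d c t s)
        + Fs s * (θh s * v c ^ 2 * Mw γ (x a b) (xr x P a c) (xr x P b c)) / 2
          * (∑ d ∈ ({a, b, c} : Finset V)ᶜ, rP P Lt a b c d t s)
        + Fs s * ((θh s)⁻¹ * (xr x P b c * ρ s) ^ 2 * Mw γ (x a b) 0 0) / 2
          * (∑ d ∈ ({a, b, c} : Finset V)ᶜ, rP P Lt a b d c t s)) := by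
    simp only [hT, Td, Finset.sum_add_distrib]
    congr 1
    · congr 1
      · congr 1
        · exact Finset.sum_congr rfl fun c _ => (Finset.mul_sum _ _ _).symm
        · rw [swap_tri]
          exact Finset.sum_congr rfl fun c _ => (Finset.mul_sum _ _ _).symm
      · exact Finset.sum_congr rfl fun c _ => (Finset.mul_sum _ _ _).symm
    · rw [swap_tri]
      exact Finset.sum_congr rfl fun c _ => (Finset.mul_sum _ _ _).symm
  rw [split]
  refine Finset.sum_le_sum fun c hc => ?_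
  have hc' := mem2.1 hc
  have i1 := hw.r1 c hc s hs
  have i2 := hw.r2 c hc s hs
  have i3 := hw.r3 c hc s hs
  have i4 := hw.r4 c hc s hs
  have iθs := iθ s hs
  have iθhs := iθh s hs
  have θs := θ0 s hs
  have θhs := θh0 s hs
  have n1 : 0 ≤ κ0 s * (1 + γ * x a b) * (θ s * v c ^ 2) / 2 := by positivity
  have n2 : 0 ≤ κ0 s * (1 + γ * x a b) * ((θ s)⁻¹ * (xr x P b c * (1 + γ * xr x P a c)
          * k.fh (xr x P b c) s) ^ 2) / 2 := by positivity
  have n3 : 0 ≤ Fs s * (θh s * v c ^ 2 * Mw γ (x a b) (xr x P a c) (xr x P b c)) / 2 := by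
    by_cases hcP : P c
    · rw [xre ha hcP, xre hb hcP]
      have M0 : 0 ≤ Mw γ (x a b) (x a c) (x b c) := by
        refine Mw_nonneg γ0 u0 ?_ ?_
        · have := row_one hx b a {c} (by simpa using hc'.1)
          rw [Finset.sum_singleton, hx.symm b a] at this
          linarith
        · have := row_one hx a b {c} (by simpa using hc'.2)
          rw [Finset.sum_singleton] at this
          linarith
      positivity
    · rw [vz c hcP]
      simp
  have n4 : 0 ≤ Fs s * ((θh s)⁻¹ * (xr x P b c * ρ s) ^ 2 * Mw γ (x a b) 0 0) / 2 := by positivity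
  have o1 := mul_le_mul_of_nonneg_left i1 n1
  have o2 := mul_le_mul_of_nonneg_left i2 n2
  have o3 := mul_le_mul_of_nonneg_left i3 n3
  have o4 := mul_le_mul_of_nonneg_left i4 n4
  refine (add_le_add (add_le_add (add_le_add o1 o2) o3) o4).trans (le_of_eq ?_)
  unfold Bd
  ring

/-- the amplified weight -/
noncomputable def vw (g : ℝ → ℝ) (α γ u y z : ℝ) : ℝ := y * g y * psf α γ z (u + y)

/-- the bound of the error of one side at one vertex -/
noncomputable def Pv (k : Kf) (g : ℝ → ℝ) (t α γ C e1 : ℝ) (κ0 Fs ρ : ℝ → ℝ)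
    (l1 l2 h1 h2 : ℝ → ℝ → ℝ) (θ θh : ℝ → ℝ) (u y z : ℝ) : ℝ :=
  vw g α γ u y z * (z * (e1 * (1 + γ * (u + y))))
    + C * ∫ s in (0 : ℝ)..t, Bd k γ κ0 Fs ρ l1 l2 h1 h2 (θ s) (θh s) u y z (y + z)
        (vw g α γ u y z) s

/-- one side of the walk rate -/
theorem side_le {A : ℝ → ℝ → ℝ} {α mt C e1 : ℝ} (hs : Ps1 k κd A t α γ mt C e1)
    (hf : Lf N k κd R L Lt) (hx : Wt x P 1) (hk : k.Ok)
    (hfc : ∀ y ∈ Icc (0 : ℝ) 1, ContinuousOn (k.fh y) (Icc 0 bt))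
    (cPe : ∀ w, ContinuousOn (k.Pe w) (Icc 0 bt)) (hA : Ab k κd A) (ht : t ∈ Icc (0 : ℝ) bt)
    (hw : Pw x P k κd R L Lt a b t γ κ0 Fs ρ l1 l2 h1 h2) (ha : P a) (hb : P b) (hab : a ≠ b)
    {θ θh : ℝ → ℝ} (cθ : ContinuousOn θ (Icc 0 t)) (cθh : ContinuousOn θh (Icc 0 t))
    (θ0 : ∀ s ∈ Icc 0 t, 0 < θ s) (θh0 : ∀ s ∈ Icc 0 t, 0 < θh s)
    {g : ℝ → ℝ}
    (hg : ∀ y ∈ Icc (0 : ℝ) 1, (1 + t) * k.fh y t ≤ g y) :
    ∑ c ∈ ({a, b} : Finset V)ᶜ, wS k.fh k.mb ((xdOf x κd R L Lt).E x P k) x P a b c t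
      ≤ ∑ c ∈ ({a, b} : Finset V)ᶜ, if P c then
          Pv k g t α γ C e1 κ0 Fs ρ l1 l2 h1 h2 θ θh (x a b) (x a c) (x b c) else 0 := by
  have t1 : 0 ≤ 1 + t := by linarith [ht.1]
  have g0 : ∀ y ∈ Icc (0 : ℝ) 1, 0 ≤ g y := fun y hy =>
    (mul_nonneg t1 (hk.fh_nonneg hy ht)).trans (hg y hy)
  set v : V → ℝ := fun c => if P c then vw g α γ (x a b) (x a c) (x b c) else 0 with hv
  have v0 : ∀ c, 0 ≤ v c := by
    intro c
    rw [hv]
    beta_reduce
    split_ifs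
    · exact mul_nonneg (mul_nonneg (hx.nonneg a c) (g0 _ (x_mem hx a c))) (psf_nonneg _ _ _ _)
    · exact le_rfl
  have vz : ∀ c, ¬P c → v c = 0 := fun c hc => by
    rw [hv]; beta_reduce; rw [if_neg hc]
  have key := lam_side hf hx hk hfc ht hw ha hb hab cθ cθh θ0 θh0 v v0 vz
  have hb1 : ∀ c ∈ ({a, b} : Finset V)ᶜ,
      wS k.fh k.mb ((xdOf x κd R L Lt).E x P k) x P a b c t
      ≤ v c * (x b c * (e1 * (1 + γ * (x a b + x a c))))
        + C * (v c * LamL x P k κd R L Lt a b c t) := by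
    intro c hc
    have hc' := mem2.1 hc
    by_cases hcP : P c
    · have e := em_P hs hf hx hk hfc cPe hA ht ha hb hab (Ne.symm hc'.1) (Ne.symm hc'.2)
      have hΛ := LamL_nonneg (R := R) (L := L) (Lt := Lt) hf hx hk a b c ht
      have hy := x_mem hx a c
      have hw2 := two_mem hx a (Ne.symm hc'.2)
      have w0 : 0 ≤ e1 * (1 + γ * (x a b + x a c)) :=
        mul_nonneg hs.e0 (by have := mul_nonneg hs.γ0 hw2.1; linarith)
      have hr : 0 ≤ psf α γ (x b c) (x a b + x a c) * (x b c * (e1 * (1 + γ * (x a b + x a c)))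
          + C * LamL x P k κd R L Lt a b c t) :=
        mul_nonneg (psf_nonneg _ _ _ _)
          (add_nonneg (mul_nonneg (hx.nonneg b c) w0) (mul_nonneg hs.C0 hΛ))
      have xre : xr x P a c = x a c := by unfold xr; rw [if_pos ⟨ha, hcP⟩]
      have ve : v c = x a c * g (x a c) * psf α γ (x b c) (x a b + x a c) := by
        rw [hv]; beta_reduce; rw [if_pos hcP]; rfl
      unfold wS
      rw [xre]
      have f0 : 0 ≤ (1 + t) * k.fh (x a c) t := mul_nonneg t1 (hk.fh_nonneg hy ht)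
      calc _ ≤ x a c * ((1 + t) * k.fh (x a c) t) * (psf α γ (x b c) (x a b + x a c)
            * (x b c * (e1 * (1 + γ * (x a b + x a c))) + C * LamL x P k κd R L Lt a b c t)) :=
            mul_le_mul_of_nonneg_left e (mul_nonneg hy.1 f0)
        _ ≤ x a c * g (x a c) * (psf α γ (x b c) (x a b + x a c)
            * (x b c * (e1 * (1 + γ * (x a b + x a c))) + C * LamL x P k κd R L Lt a b c t)) :=
            mul_le_mul_of_nonneg_right (mul_le_mul_of_nonneg_left (hg _ hy) hy.1) hr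
        _ = _ := by rw [ve]; ring
    · have xre : xr x P a c = 0 := by unfold xr; rw [if_neg fun h => hcP h.2]
      unfold wS
      rw [xre, vz c hcP]
      simp
  refine (Finset.sum_le_sum hb1).trans ?_
  rw [Finset.sum_add_distrib, ← Finset.mul_sum]
  have hb2 := mul_le_mul_of_nonneg_left key hs.C0
  refine (add_le_add le_rfl hb2).trans ?_
  rw [Finset.mul_sum, ← Finset.sum_add_distrib]
  refine Finset.sum_le_sum fun c hc => ?_
  by_cases hcP : P c
  · have xa : xr x P a c = x a c := by unfold xr; rw [if_pos ⟨ha, hcP⟩]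
    have xb : xr x P b c = x b c := by unfold xr; rw [if_pos ⟨hb, hcP⟩]
    have ve : v c = vw g α γ (x a b) (x a c) (x b c) := by
      rw [hv]; beta_reduce; rw [if_pos hcP]
    rw [if_pos hcP, xa, xb, ve]
    exact le_rfl
  · have xa : xr x P a c = 0 := by unfold xr; rw [if_neg fun h => hcP h.2]
    have xb : xr x P b c = 0 := by unfold xr; rw [if_neg fun h => hcP h.2]
    rw [if_neg hcP, xa, xb, vz c hcP, zero_mul, zero_add]
    have : ∀ s, Bd k γ κ0 Fs ρ l1 l2 h1 h2 (θ s) (θh s) (x a b) 0 0 (x a c + x b c) 0 s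
        = 0 := by
      intro s
      unfold Bd
      simp
    simp only [this]
    simp

/-- **the inequality of one pair** -/
theorem pp_abs {A : ℝ → ℝ → ℝ} {α mt C e1 : ℝ} (hs : Ps1 k κd A t α γ mt C e1)
    (hf : Lf N k κd R L Lt) (hx : Wt x P 1) (hk : k.Ok)
    (hfc : ∀ y ∈ Icc (0 : ℝ) 1, ContinuousOn (k.fh y) (Icc 0 bt))
    (cPe : ∀ w, ContinuousOn (k.Pe w) (Icc 0 bt)) (hA : Ab k κd A) (ht : t ∈ Icc (0 : ℝ) bt)
    (ha : P a) (hb : P b) (hab : a ≠ b)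
    (hw : Pw x P k κd R L Lt a b t γ κ0 Fs ρ l1 l2 h1 h2)
    (hw' : Pw x P k κd R L Lt b a t γ κ0 Fs ρ l1 l2 h1 h2)
    {θ θh : ℝ → ℝ} (cθ : ContinuousOn θ (Icc 0 t)) (cθh : ContinuousOn θh (Icc 0 t))
    (θ0 : ∀ s ∈ Icc 0 t, 0 < θ s) (θh0 : ∀ s ∈ Icc 0 t, 0 < θh s)
    {g : ℝ → ℝ}
    (hg : ∀ y ∈ Icc (0 : ℝ) 1, (1 + t) * k.fh y t ≤ g y) {K : ℝ}
    {kb : ℝ → ℝ → ℝ → ℝ} (kb0 : 0 ≤ K * kb (x a b) 0 0)
    (hfin : ∀ u y z : ℝ, 0 ≤ u → 0 ≤ y → 0 ≤ z → u + y ≤ 1 → u + z ≤ 1 → y + z ≤ 1 →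
      Pv k g t α γ C e1 κ0 Fs ρ l1 l2 h1 h2 θ θh u y z
        + Pv k g t α γ C e1 κ0 Fs ρ l1 l2 h1 h2 θ θh u z y ≤ K * kb u y z) :
    wE k.fh k.mb ((xdOf x κd R L Lt).E x P k) x P a b t
      ≤ K * ∑ c ∈ ({a, b} : Finset V)ᶜ, kb (x a b) (xr x P a c) (xr x P b c) := by
  have s1 := side_le hs hf hx hk hfc cPe hA ht hw ha hb hab cθ cθh θ0 θh0 hg
  have s2 := side_le hs hf hx hk hfc cPe hA ht hw' hb ha hab.symm cθ cθh θ0 θh0 hg
  unfold wE
  rw [if_pos ⟨ha, hb, hab⟩, Finset.sum_add_distrib]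
  have e : ({b, a} : Finset V) = {a, b} := Finset.pair_comm b a
  rw [e, hx.symm b a] at s2
  refine (add_le_add s1 s2).trans ?_
  rw [← Finset.sum_add_distrib, Finset.mul_sum]
  refine Finset.sum_le_sum fun c hc => ?_
  have hc' := mem2.1 hc
  by_cases hcP : P c
  · have xa : xr x P a c = x a c := by unfold xr; rw [if_pos ⟨ha, hcP⟩]
    have xb : xr x P b c = x b c := by unfold xr; rw [if_pos ⟨hb, hcP⟩]
    rw [if_pos hcP, if_pos hcP, xa, xb]
    refine hfin _ _ _ (hx.nonneg a b) (hx.nonneg a c) (hx.nonneg b c) ?_ ?_ ?_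
    · exact (two_mem hx a (Ne.symm hc'.2)).2
    · have := (two_mem hx b (Ne.symm hc'.1)).2
      rwa [hx.symm b a] at this
    · have := (two_mem hx c hab).2
      rwa [hx.symm c a, hx.symm c b] at this
  · have xa : xr x P a c = 0 := by unfold xr; rw [if_neg fun h => hcP h.2]
    have xb : xr x P b c = 0 := by unfold xr; rw [if_neg fun h => hcP h.2]
    rw [if_neg hcP, if_neg hcP, xa, xb, add_zero]
    exact kb0

end Pool.Agent.RX.RCN.K
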