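import Pool.Agent.RX.RCN.CkE
import Pool.Agent.RX.RCN.PpA

/-! The inequality of the pairs: the final polynomial inequality of a numeric cell
(MP_73ccd0_lc, route M). -/

set_option autoImplicit false

namespace Pool.Agent.RX.RCN.K

open Set Finset Pool.Agent.RX.RCM9 Pool.Agent.RX.RCM9.Bern Pool.Agent.RX.RCM9.Pk Pool.Agent.RX.RCN.Ck1

/-- the chord through the values at `0`, `1/2`, `1` -/
noncomputable def chp (a h b y : ℝ) : ℝ :=
  if y ≤ 1 / 2 then (1 - 2 * y) * a + 2 * y * h else (2 - 2 * y) * h + (2 * y - 1) * b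

namespace Pn

variable (c : Pn)

/-- the bound of one side; `ry`, `rz` in the place of the weights, `gy` the density, `i2` the
integral of the squares -/
noncomputable def Sr (u y z ry rz gy i2 : ℝ) : ℝ :=
  ry * rz * gy * (c.e1 * (1 + c.γ * (u + y))) * pv c.p2 (z * (c.α * (1 + c.γ * (u + y))))
    + c.Cj * ((1 - (y + z)) * (1 / 2))
      * ((1 + c.γ * u) * (ry ^ 2 * gy ^ 2 * pv c.p4 (z * (c.α * (1 + c.γ * (u + y))))
          * pv c.i1 (y + z) + (rz * (1 + c.γ * y)) ^ 2 * i2)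
        + (ry ^ 2 * gy ^ 2 * pv c.p4 (z * (c.α * (1 + c.γ * (u + y)))) * Mw c.γ u y z
            * pv c.h1 (y + z)
          + rz ^ 2 * Mw c.γ u 0 0 * pv c.h2 (y + z)))

/-- the density -/
noncomputable def gf (y : ℝ) : ℝ := chp c.g0 c.gh c.g1 y

/-- the integral of the squares -/
noncomputable def I2 (z k : ℝ) : ℝ := chp (pv c.a0 k) (pv c.ah k) (pv c.a1 k) z

/-- the bound of one side -/
noncomputable def Sd (u y z : ℝ) : ℝ := c.Sr u y z y z (c.gf y) (c.I2 z (y + z))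

theorem Sr_smul (u y z ry rz gy i2 m : ℝ) :
    c.Sr u y z (m * ry) (m * rz) gy i2 = m ^ 2 * c.Sr u y z ry rz gy i2 := by
  unfold Sr
  ring

variable {c}

theorem val_mwE (ρ : ℕ → ℝ) (u y z : E) :
    (c.mwE u y z).val ρ = Mw c.γ (u.val ρ) (y.val ρ) (z.val ρ) := by
  simp only [mwE, val_add, val_sub, val_mul, val_qc, val_one, val_two, Mw]
  push_cast
  ring

theorem val_sE (ρ : ℕ → ℝ) (u y z ry rz gy i2 : E) :
    (c.sE u y z ry rz gy i2).val ρ = c.Sr (u.val ρ) (y.val ρ) (z.val ρ) (ry.val ρ) (rz.val ρ)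
      (gy.val ρ) (i2.val ρ) := by
  simp only [sE, val_add, val_sub, val_mul, val_qc, val_one, val_pow, val_pe, val_mwE, val_zero,
    Sr]
  push_cast
  ring

theorem val_cE (ρ : ℕ → ℝ) (a h y2 : E) :
    (cE a h y2).val ρ = (1 - y2.val ρ) * a.val ρ + y2.val ρ * h.val ρ := by
  simp only [cE, val_add, val_sub, val_mul, val_one]

theorem chp_lo {a h b y : ℝ} (hy : y ≤ 1 / 2) : chp a h b y = (1 - 2 * y) * a + 2 * y * h := by
  unfold chp; rw [if_pos hy]

theorem chp_hi {a h b y : ℝ} (hy : 1 / 2 ≤ y) :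
    chp a h b y = (1 - (2 * y - 1)) * h + (2 * y - 1) * b := by
  unfold chp
  split_ifs with h1
  · have : y = 1 / 2 := le_antisymm h1 hy
    subst this
    ring
  · ring

variable (c) (K : ℚ) (LA LB : List (List ℚ))

/-- the right side -/
noncomputable def kbn (LA LB : List (List ℚ)) (u y z : ℝ) : ℝ :=
  (y ^ 2 + z ^ 2) * (1 / 2) * pv2 LA u (y + z) + y * z * pv2 LB u (y + z)

variable {c K LA LB}

theorem fin_lo (hA : NN (c.eA K LA LB)) {u y z : ℝ} (hu : 0 ≤ u) (hz : 0 ≤ z) (hzy : z ≤ y)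
    (hy : y ≤ 1 / 2) (huy : u + y ≤ 1) :
    c.Sd u y z + c.Sd u z y ≤ K * kbn LA LB u y z := by
  have hy0 : 0 ≤ y := hz.trans hzy
  rcases hy0.eq_or_lt with h0 | h0
  · have z0 : z = 0 := le_antisymm (by rw [h0]; exact hzy) hz
    subst z0
    rw [← h0]
    unfold Sd Sr kbn
    simp
  · have h1 : 0 < 1 - y := by linarith
    have hZ : z / y ∈ Icc (0 : ℝ) 1 := ⟨div_nonneg hz hy0, (div_le_one h0).2 hzy⟩
    have hU : u / (1 - y) ∈ Icc (0 : ℝ) 1 :=
      ⟨div_nonneg hu h1.le, (div_le_one h1).2 (by linarith)⟩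
    have hX : 2 * y ∈ Icc (0 : ℝ) 1 := ⟨by linarith, by linarith⟩
    have key := hA (2 * y) (z / y) (u / (1 - y)) 0 hX hZ hU ⟨le_rfl, bt_pos.le⟩
    simp only [eA, kE, val_sub, val_sE, val_cE, val_mul, val_add, val_pow, val_qc, val_pe,
      val_pe2, val_one, uA, yA, zA, val_vX, val_vZ, val_vU] at key
    have e1 : ((1 / 2 : ℚ) : ℝ) * (2 * y) = y := by push_cast; ring
    rw [e1] at key
    have e2 : z / y * y = z := div_mul_cancel₀ _ h0.ne'
    have e3 : u / (1 - y) * (1 - y) = u := div_mul_cancel₀ _ h1.ne'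
    have e4 : z / y * (2 * y) = 2 * z := by rw [← e2]; field_simp
    rw [e2, e3, e4] at key
    have g1 : c.gf y = (1 - 2 * y) * c.g0 + 2 * y * c.gh := chp_lo hy
    have g2 : c.gf z = (1 - 2 * z) * c.g0 + 2 * z * c.gh := chp_lo (hzy.trans hy)
    have g3 : c.I2 z (y + z) = (1 - 2 * z) * pv c.a0 (y + z) + 2 * z * pv c.ah (y + z) :=
      chp_lo (hzy.trans hy)
    have g4 : c.I2 y (z + y) = (1 - 2 * y) * pv c.a0 (y + z) + 2 * y * pv c.ah (y + z) := by
      rw [add_comm z y]; exact chp_lo hy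
    have s1 := c.Sr_smul u y z 1 (z / y) (c.gf y) (c.I2 z (y + z)) y
    have s2 := c.Sr_smul u z y (z / y) 1 (c.gf z) (c.I2 y (z + y)) y
    rw [mul_one, mul_comm y (z / y), e2] at s1
    rw [mul_one, mul_comm y (z / y), e2] at s2
    unfold Sd
    rw [s1, s2, g1, g2, g3, g4]
    have e5 : kbn LA LB u y z = y ^ 2 * ((1 ^ 2 + (z / y) ^ 2) * (1 / 2) * pv2 LA u (y + z)
        + 1 * (z / y) * pv2 LB u (y + z)) := by
      unfold kbn
      have : z = z / y * y := e2.symm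
      rw [show y ^ 2 * ((1 ^ 2 + (z / y) ^ 2) * (1 / 2) * pv2 LA u (y + z)
        + 1 * (z / y) * pv2 LB u (y + z)) = ((y ^ 2 + (z / y * y) ^ 2) * (1 / 2)
          * pv2 LA u (y + z) + y * (z / y * y) * pv2 LB u (y + z)) by ring, e2]
    rw [e5]
    push_cast at key
    have := mul_nonneg (sq_nonneg y) key
    nlinarith [this]

theorem fin_hi (hB : NN (c.eB K LA LB)) {u y z : ℝ} (hu : 0 ≤ u) (hz : 0 ≤ z)
    (hy : 1 / 2 ≤ y) (hyz : y + z ≤ 1) (huy : u + y ≤ 1) :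
    c.Sd u y z + c.Sd u z y ≤ K * kbn LA LB u y z := by
  have h1 : 0 ≤ 1 - y := by linarith
  obtain ⟨Z, U, hZ, hU, e2, e3⟩ : ∃ Z U : ℝ, Z ∈ Icc (0 : ℝ) 1 ∧ U ∈ Icc (0 : ℝ) 1 ∧
      Z * (1 - y) = z ∧ U * (1 - y) = u := by
    rcases h1.eq_or_lt with h0 | h0
    · exact ⟨0, 0, ⟨le_rfl, zero_le_one⟩, ⟨le_rfl, zero_le_one⟩, by linarith, by linarith⟩
    · exact ⟨z / (1 - y), u / (1 - y), ⟨div_nonneg hz h1, (div_le_one h0).2 (by linarith)⟩,
        ⟨div_nonneg hu h1, (div_le_one h0).2 (by linarith)⟩, div_mul_cancel₀ _ h0.ne',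
        div_mul_cancel₀ _ h0.ne'⟩
  have hX : 2 * y - 1 ∈ Icc (0 : ℝ) 1 := ⟨by linarith, by linarith⟩
  have key := hB (2 * y - 1) Z U 0 hX hZ hU ⟨le_rfl, bt_pos.le⟩
  simp only [eB, kE, val_sub, val_sE, val_cE, val_mul, val_add, val_pow, val_qc, val_pe,
    val_pe2, val_one, uB, yB, zB, val_vX, val_vZ, val_vU] at key
  have e1 : ((1 / 2 : ℚ) : ℝ) * (1 + (2 * y - 1)) = y := by push_cast; ring
  rw [e1] at key
  have e4 : Z * (1 - (2 * y - 1)) = 2 * z := by rw [← e2]; ring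
  rw [e2, e3, e4] at key
  have hz2 : z ≤ 1 / 2 := by linarith
  have g1 : c.gf y = (1 - (2 * y - 1)) * c.gh + (2 * y - 1) * c.g1 := chp_hi hy
  have g2 : c.gf z = (1 - 2 * z) * c.g0 + 2 * z * c.gh := chp_lo hz2
  have g3 : c.I2 z (y + z) = (1 - 2 * z) * pv c.a0 (y + z) + 2 * z * pv c.ah (y + z) :=
    chp_lo hz2
  have g4 : c.I2 y (z + y) = (1 - (2 * y - 1)) * pv c.ah (y + z)
      + (2 * y - 1) * pv c.a1 (y + z) := by
    rw [add_comm z y]; exact chp_hi hy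
  unfold Sd
  rw [g1, g2, g3, g4]
  unfold kbn
  push_cast at key
  linarith

/-- **the final inequality** -/
theorem fin (hA : NN (c.eA K LA LB)) (hB : NN (c.eB K LA LB)) {u y z : ℝ} (hu : 0 ≤ u)
    (hy : 0 ≤ y) (hz : 0 ≤ z) (huy : u + y ≤ 1) (huz : u + z ≤ 1) (hyz : y + z ≤ 1) :
    c.Sd u y z + c.Sd u z y ≤ K * kbn LA LB u y z := by
  have sym : K * kbn LA LB u z y = K * kbn LA LB u y z := by
    unfold kbn
    rw [add_comm z y]
    ring
  rcases le_total z y with h1 | h1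
  · rcases le_total y (1 / 2) with h2 | h2
    · exact fin_lo hA hu hz h1 h2 huy
    · exact fin_hi hB hu hz h2 hyz huy
  · rw [← sym, add_comm (c.Sd u y z)]
    rcases le_total z (1 / 2) with h2 | h2
    · exact fin_lo hA hu hy h1 h2 huz
    · exact fin_hi hB hu hy h2 (by linarith) huz

end Pn

end Pool.Agent.RX.RCN.K
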