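import Pool.Agent.RX.RCN.PpN

/-! The inequality of the pairs: the bound of one side by the numbers of a cell
(MP_73ccd0_lc, route M). -/

set_option autoImplicit false

namespace Pool.Agent.RX.RCN.K

open Set Finset MeasureTheory Pool.Agent.RX.RCRSHalf Pool.Agent.RX.RCG Pool.Agent.RX.RCG.Ct
open Pool.Agent.RX.RCN.Ker Pool.Agent.RX.RCM.Jen Pool.Agent.RX.RCM9 Pool.Agent.RX.RCN.Ck1

/-- the integrals of the rows -/
structure Pi (c : Pn) (k : Kf) (t : ℝ) (κ0 Fs ρ θ θh : ℝ → ℝ) (l1 l2 h1 h2 : ℝ → ℝ → ℝ) :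
    Prop where
  i1 : ∀ q ∈ Icc (0 : ℝ) 1, ∫ s in (0 : ℝ)..t, κ0 s * θ s * l1 q s ≤ pv c.i1 q
  i2 : ∀ q ∈ Icc (0 : ℝ) 1, ∀ z ∈ Icc (0 : ℝ) 1,
    ∫ s in (0 : ℝ)..t, κ0 s * (θ s)⁻¹ * k.fh z s ^ 2 * l2 q s ≤ c.I2 z q
  h1 : ∀ q ∈ Icc (0 : ℝ) 1, ∫ s in (0 : ℝ)..t, Fs s * θh s * h1 q s ≤ pv c.h1 q
  h2 : ∀ q ∈ Icc (0 : ℝ) 1, ∫ s in (0 : ℝ)..t, Fs s * (θh s)⁻¹ * ρ s ^ 2 * h2 q s ≤ pv c.h2 q

theorem nnl_pv {l : List ℚ} (h : nnl l = true) {q : ℝ} (hq : 0 ≤ q) : 0 ≤ pv l q := by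
  induction l with
  | nil => simp [pv]
  | cons a l ih =>
    simp only [nnl, List.all_cons, Bool.and_eq_true, decide_eq_true_eq] at h
    simp only [pv]
    have h1 : (0 : ℝ) ≤ (a : ℝ) := by exact_mod_cast h.1
    have h2 := mul_nonneg hq (ih h.2)
    linarith

namespace Pn

variable {c : Pn}

structure Good (c : Pn) : Prop where
  γ0 : (0 : ℝ) ≤ c.γ
  α0 : (0 : ℝ) ≤ c.α
  e0 : (0 : ℝ) ≤ c.e1
  C0 : (0 : ℝ) ≤ c.Cj
  q0 : (0 : ℝ) < c.qb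
  q1 : (c.qb : ℝ) < 1
  g0 : (0 : ℝ) ≤ c.g0
  gh : (0 : ℝ) ≤ c.gh
  g1 : (0 : ℝ) ≤ c.g1
  qz : ∀ z ∈ Icc (0 : ℝ) 1, z * (c.α * (1 + 2 * c.γ * (1 - z))) ≤ c.qb
  p2 : ∀ q ∈ Icc (0 : ℝ) c.qb, 1 ≤ (1 - q) ^ 2 * pv c.p2 q
  p4 : ∀ q ∈ Icc (0 : ℝ) c.qb, 1 ≤ (1 - q) ^ 4 * pv c.p4 q
  i1 : ∀ q : ℝ, 0 ≤ q → 0 ≤ pv c.i1 q
  h1 : ∀ q : ℝ, 0 ≤ q → 0 ≤ pv c.h1 q

theorem good (h : c.ok = true) : c.Good := by
  simp only [ok, Bool.and_eq_true, decide_eq_true_eq] at h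
  obtain ⟨a1, a2, a3, a4, a5, a6, a7, a8, a9, b1, b2, b3, b4, b5⟩ := h
  refine ⟨by exact_mod_cast a1, by exact_mod_cast a2, by exact_mod_cast a3,
    by exact_mod_cast a4, by exact_mod_cast a5, by exact_mod_cast a6, by exact_mod_cast a7,
    by exact_mod_cast a8, by exact_mod_cast a9, fun z hz => ?_, fun q hq => ?_, fun q hq => ?_,
    fun q hq => nnl_pv b4 hq, fun q hq => nnl_pv b5 hq⟩
  · have := nn_le b1 (t := z) (by simpa using hz)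
    simp only [pv] at this
    push_cast at this
    linarith
  · have := nn_sub b2 (t := q) (by simpa using hq)
    rw [pv_lmul] at this
    simp only [pv] at this
    push_cast at this
    have e : (1 - q) ^ 2 = 1 + q * (-2 + q * (1 + q * 0)) := by ring
    rw [e]
    linarith
  · have := nn_sub b3 (t := q) (by simpa using hq)
    rw [pv_lmul] at this
    simp only [pv] at this
    push_cast at this
    have e : (1 - q) ^ 4 = 1 + q * (-4 + q * (6 + q * (-4 + q * (1 + q * 0)))) := by ring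
    rw [e]
    linarith

theorem gf_nonneg (hc : c.Good) {y : ℝ} (hy : y ∈ Icc (0 : ℝ) 1) : 0 ≤ c.gf y := by
  unfold gf
  rcases le_total y (1 / 2) with h | h
  · rw [chp_lo h]
    exact add_nonneg (mul_nonneg (by linarith) hc.g0) (mul_nonneg (by linarith [hy.1]) hc.gh)
  · rw [chp_hi h]
    exact add_nonneg (mul_nonneg (by linarith [hy.2]) hc.gh)
      (mul_nonneg (by linarith) hc.g1)

/-- the argument of the amplification -/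
theorem q_mem (hc : c.Good) {u y z : ℝ} (hu : 0 ≤ u) (hy : 0 ≤ y) (hz : 0 ≤ z)
    (huz : u + z ≤ 1) (hyz : y + z ≤ 1) :
    z * (c.α * (1 + c.γ * (u + y))) ∈ Icc (0 : ℝ) c.qb := by
  have h1 : 0 ≤ c.γ * (u + y) := mul_nonneg hc.γ0 (by linarith)
  refine ⟨mul_nonneg hz (mul_nonneg hc.α0 (by linarith)), le_trans ?_
    (hc.qz z ⟨hz, by linarith⟩)⟩
  refine mul_le_mul_of_nonneg_left (mul_le_mul_of_nonneg_left ?_ hc.α0) hz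
  have h2 := mul_le_mul_of_nonneg_left (show u + y ≤ 2 * (1 - z) by linarith) hc.γ0
  linarith

theorem psf_le (hc : c.Good) {u y z : ℝ} (hu : 0 ≤ u) (hy : 0 ≤ y) (hz : 0 ≤ z)
    (huz : u + z ≤ 1) (hyz : y + z ≤ 1) :
    psf c.α c.γ z (u + y) ≤ pv c.p2 (z * (c.α * (1 + c.γ * (u + y)))) ∧
      psf c.α c.γ z (u + y) ^ 2 ≤ pv c.p4 (z * (c.α * (1 + c.γ * (u + y)))) := by
  have hq := q_mem hc hu hy hz huz hyz
  set q := z * (c.α * (1 + c.γ * (u + y))) with hqd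
  have e : psf c.α c.γ z (u + y) = ((1 - q) ^ 2)⁻¹ := rfl
  have h1 : 0 < 1 - q := by linarith [hq.2, hc.q1]
  rw [e]
  constructor
  · rw [inv_le_iff_one_le_mul₀ (by positivity), mul_comm]
    exact hc.p2 q hq
  · have e2 : (((1 - q) ^ 2)⁻¹) ^ 2 = ((1 - q) ^ 4)⁻¹ := by rw [inv_pow, ← pow_mul]
    rw [e2, inv_le_iff_one_le_mul₀ (by positivity), mul_comm]
    exact hc.p4 q hq

end Pn

theorem int4 {t : ℝ} (t0 : 0 ≤ t) {f1 f2 f3 f4 : ℝ → ℝ} (c1 : ContinuousOn f1 (Icc 0 t))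
    (c2 : ContinuousOn f2 (Icc 0 t)) (c3 : ContinuousOn f3 (Icc 0 t))
    (c4 : ContinuousOn f4 (Icc 0 t)) (a b c d : ℝ) :
    ∫ s in (0 : ℝ)..t, (a * f1 s + b * f2 s + c * f3 s + d * f4 s)
      = a * (∫ s in (0 : ℝ)..t, f1 s) + b * (∫ s in (0 : ℝ)..t, f2 s)
        + c * (∫ s in (0 : ℝ)..t, f3 s) + d * (∫ s in (0 : ℝ)..t, f4 s) := by
  have m0 : (0 : ℝ) ∈ Icc 0 t := ⟨le_rfl, t0⟩
  have mt : t ∈ Icc 0 t := ⟨t0, le_rfl⟩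
  have i1 : IntervalIntegrable (fun s => a * f1 s) volume 0 t := (ii_of t0 c1 m0 mt).const_mul a
  have i2 : IntervalIntegrable (fun s => b * f2 s) volume 0 t := (ii_of t0 c2 m0 mt).const_mul b
  have i3 : IntervalIntegrable (fun s => c * f3 s) volume 0 t := (ii_of t0 c3 m0 mt).const_mul c
  have i4 : IntervalIntegrable (fun s => d * f4 s) volume 0 t := (ii_of t0 c4 m0 mt).const_mul d
  have i12 : IntervalIntegrable (fun s => a * f1 s + b * f2 s) volume 0 t := i1.add i2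
  have i13 : IntervalIntegrable (fun s => a * f1 s + b * f2 s + c * f3 s) volume 0 t := i12.add i3
  rw [intervalIntegral.integral_add i13 i4, intervalIntegral.integral_add i12 i3,
    intervalIntegral.integral_add i1 i2]
  simp only [intervalIntegral.integral_const_mul]

/-- **the bound of one side** -/
theorem Pv_le {c : Pn} (hc : c.Good) {k : Kf} {t : ℝ} {κ0 Fs ρ θ θh : ℝ → ℝ}
    {l1 l2 h1 h2 : ℝ → ℝ → ℝ} (hi : Pi c k t κ0 Fs ρ θ θh l1 l2 h1 h2) (t0 : 0 ≤ t)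
    (cκ0 : ContinuousOn κ0 (Icc 0 t)) (cFs : ContinuousOn Fs (Icc 0 t))
    (cρ : ContinuousOn ρ (Icc 0 t)) (cθ : ContinuousOn θ (Icc 0 t))
    (cθh : ContinuousOn θh (Icc 0 t)) (θ0 : ∀ s ∈ Icc 0 t, 0 < θ s)
    (θh0 : ∀ s ∈ Icc 0 t, 0 < θh s)
    (cl1 : ∀ q ∈ Icc (0 : ℝ) 1, ContinuousOn (l1 q) (Icc 0 t))
    (cl2 : ∀ q ∈ Icc (0 : ℝ) 1, ContinuousOn (l2 q) (Icc 0 t))
    (ch1 : ∀ q ∈ Icc (0 : ℝ) 1, ContinuousOn (h1 q) (Icc 0 t))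
    (ch2 : ∀ q ∈ Icc (0 : ℝ) 1, ContinuousOn (h2 q) (Icc 0 t))
    (cfh : ∀ y ∈ Icc (0 : ℝ) 1, ContinuousOn (k.fh y) (Icc 0 t))
    {u y z : ℝ} (hu : 0 ≤ u) (hy : 0 ≤ y) (hz : 0 ≤ z) (huy : u + y ≤ 1) (huz : u + z ≤ 1)
    (hyz : y + z ≤ 1) :
    Pv k c.gf t c.α c.γ c.Cj c.e1 κ0 Fs ρ l1 l2 h1 h2 θ θh u y z ≤ c.Sd u y z := by
  have m0 : (0 : ℝ) ∈ Icc 0 t := ⟨le_rfl, t0⟩
  have mt : t ∈ Icc 0 t := ⟨t0, le_rfl⟩
  have hym : y ∈ Icc (0 : ℝ) 1 := ⟨hy, by linarith⟩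
  have hzm : z ∈ Icc (0 : ℝ) 1 := ⟨hz, by linarith⟩
  have hkm : y + z ∈ Icc (0 : ℝ) 1 := ⟨by linarith, hyz⟩
  have g0 := Pn.gf_nonneg hc hym
  obtain ⟨ps1, ps2⟩ := Pn.psf_le hc hu hy hz huz hyz
  have pn := psf_nonneg (c.α : ℝ) c.γ z (u + y)
  have ci : ContinuousOn (fun s => (θ s)⁻¹) (Icc 0 t) := cθ.inv₀ fun s hs => (θ0 s hs).ne'
  have cih : ContinuousOn (fun s => (θh s)⁻¹) (Icc 0 t) := cθh.inv₀ fun s hs => (θh0 s hs).ne'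
  have c1 : ContinuousOn (fun s => κ0 s * θ s * l1 (y + z) s) (Icc 0 t) :=
    (cκ0.mul cθ).mul (cl1 _ hkm)
  have c2 : ContinuousOn (fun s => κ0 s * (θ s)⁻¹ * k.fh z s ^ 2 * l2 (y + z) s) (Icc 0 t) :=
    ((cκ0.mul ci).mul ((cfh z hzm).pow 2)).mul (cl2 _ hkm)
  have c3 : ContinuousOn (fun s => Fs s * θh s * h1 (y + z) s) (Icc 0 t) :=
    (cFs.mul cθh).mul (ch1 _ hkm)
  have c4 : ContinuousOn (fun s => Fs s * (θh s)⁻¹ * ρ s ^ 2 * h2 (y + z) s) (Icc 0 t) :=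
    ((cFs.mul cih).mul (cρ.pow 2)).mul (ch2 _ hkm)
  set v := vw c.gf c.α c.γ u y z with hv
  have split : ∫ s in (0 : ℝ)..t, Bd k c.γ κ0 Fs ρ l1 l2 h1 h2 (θ s) (θh s) u y z (y + z) v s
      = ((1 - (y + z)) * (1 / 2)) * ((1 + c.γ * u) * (v ^ 2
            * (∫ s in (0 : ℝ)..t, κ0 s * θ s * l1 (y + z) s)
          + (z * (1 + c.γ * y)) ^ 2
            * (∫ s in (0 : ℝ)..t, κ0 s * (θ s)⁻¹ * k.fh z s ^ 2 * l2 (y + z) s))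
        + (v ^ 2 * Mw c.γ u y z * (∫ s in (0 : ℝ)..t, Fs s * θh s * h1 (y + z) s)
          + z ^ 2 * Mw c.γ u 0 0
            * (∫ s in (0 : ℝ)..t, Fs s * (θh s)⁻¹ * ρ s ^ 2 * h2 (y + z) s))) := by
    have e : ∀ s, Bd k c.γ κ0 Fs ρ l1 l2 h1 h2 (θ s) (θh s) u y z (y + z) v s
        = ((1 - (y + z)) * (1 / 2) * ((1 + c.γ * u) * v ^ 2)) * (κ0 s * θ s * l1 (y + z) s)
          + ((1 - (y + z)) * (1 / 2) * ((1 + c.γ * u) * (z * (1 + c.γ * y)) ^ 2))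
            * (κ0 s * (θ s)⁻¹ * k.fh z s ^ 2 * l2 (y + z) s)
          + ((1 - (y + z)) * (1 / 2) * (v ^ 2 * Mw c.γ u y z)) * (Fs s * θh s * h1 (y + z) s)
          + ((1 - (y + z)) * (1 / 2) * (z ^ 2 * Mw c.γ u 0 0))
            * (Fs s * (θh s)⁻¹ * ρ s ^ 2 * h2 (y + z) s) := by
      intro s
      unfold Bd
      ring
    simp only [e]
    rw [int4 t0 c1 c2 c3 c4]
    ring
  have b1 := hi.i1 _ hkm
  have b2 := hi.i2 _ hkm z hzm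
  have b3 := hi.h1 _ hkm
  have b4 := hi.h2 _ hkm
  set A := ∫ s in (0 : ℝ)..t, κ0 s * θ s * l1 (y + z) s
  set B := ∫ s in (0 : ℝ)..t, κ0 s * (θ s)⁻¹ * k.fh z s ^ 2 * l2 (y + z) s
  set H1 := ∫ s in (0 : ℝ)..t, Fs s * θh s * h1 (y + z) s
  set H2 := ∫ s in (0 : ℝ)..t, Fs s * (θh s)⁻¹ * ρ s ^ 2 * h2 (y + z) s
  set q := z * (c.α * (1 + c.γ * (u + y))) with hqd
  have γu : 0 ≤ c.γ * u := mul_nonneg hc.γ0 hu
  have γuy : 0 ≤ c.γ * (u + y) := mul_nonneg hc.γ0 (by linarith)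
  have e0 := hc.e0
  have C0 := hc.C0
  have I0 := hc.i1 (y + z) hkm.1
  have J0 := hc.h1 (y + z) hkm.1
  have M0 : 0 ≤ Mw c.γ u y z := Mw_nonneg hc.γ0 hu huz huy
  have M1 : 0 ≤ Mw c.γ u 0 0 := Mw_nonneg hc.γ0 hu (by linarith) (by linarith)
  have v2 : v ^ 2 ≤ y ^ 2 * c.gf y ^ 2 * pv c.p4 q := by
    rw [hv]
    unfold vw
    calc _ = y ^ 2 * c.gf y ^ 2 * psf c.α c.γ z (u + y) ^ 2 := by ring
      _ ≤ _ := mul_le_mul_of_nonneg_left ps2 (by positivity)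
  have v1 : v ≤ y * c.gf y * pv c.p2 q :=
    mul_le_mul_of_nonneg_left ps1 (mul_nonneg hy g0)
  have d0 : 0 ≤ (1 - (y + z)) * (1 / 2) := by linarith
  unfold Pv Pn.Sd Pn.Sr
  rw [split]
  refine add_le_add ?_ ?_
  · calc v * (z * (c.e1 * (1 + c.γ * (u + y))))
        ≤ y * c.gf y * pv c.p2 q * (z * (c.e1 * (1 + c.γ * (u + y)))) :=
          mul_le_mul_of_nonneg_right v1 (mul_nonneg hz (mul_nonneg e0 (by linarith)))
      _ = _ := by ring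
  · rw [mul_assoc (c.Cj : ℝ)]
    refine mul_le_mul_of_nonneg_left (mul_le_mul_of_nonneg_left ?_ d0) C0
    have v20 := sq_nonneg v
    have f1 : v ^ 2 * A ≤ y ^ 2 * c.gf y ^ 2 * pv c.p4 q * pv c.i1 (y + z) :=
      (mul_le_mul_of_nonneg_left b1 v20).trans (mul_le_mul_of_nonneg_right v2 I0)
    have f2 : (z * (1 + c.γ * y)) ^ 2 * B ≤ (z * (1 + c.γ * y)) ^ 2 * c.I2 z (y + z) :=
      mul_le_mul_of_nonneg_left b2 (sq_nonneg _)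
    have f3 : v ^ 2 * Mw c.γ u y z * H1
        ≤ y ^ 2 * c.gf y ^ 2 * pv c.p4 q * Mw c.γ u y z * pv c.h1 (y + z) := by
      refine (mul_le_mul_of_nonneg_left b3 (mul_nonneg v20 M0)).trans ?_
      exact mul_le_mul_of_nonneg_right (mul_le_mul_of_nonneg_right v2 M0) J0
    have f4 : z ^ 2 * Mw c.γ u 0 0 * H2 ≤ z ^ 2 * Mw c.γ u 0 0 * pv c.h2 (y + z) :=
      mul_le_mul_of_nonneg_left b4 (mul_nonneg (sq_nonneg _) M1)
    exact add_le_add (mul_le_mul_of_nonneg_left (add_le_add f1 f2) (by linarith))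
      (add_le_add f3 f4)

end Pool.Agent.RX.RCN.K
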