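import Pool.Agent.RX.RCM9.DatOk
import Pool.Agent.RX.RCN.PpO
import Pool.Agent.RX.RCN.T1I

/-! The inequality of the pairs: the integrals of rows given as polynomials
(MP_73ccd0_lc, route M). -/

set_option autoImplicit false

namespace Pool.Agent.RX.RCN.K

open Set Finset MeasureTheory Pool.Agent.RX.RCRSHalf Pool.Agent.RX.RCG Pool.Agent.RX.RCG.Ct
open Pool.Agent.RX.RCN.Ker Pool.Agent.RX.RCM.Jen Pool.Agent.RX.RCM9 Pool.Agent.RX.RCN.Ck1

theorem pv_itg (w : List ℚ) (L : List (List ℚ)) (U : ℚ) (q : ℝ) :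
    pv (itg w L U) q = pv2 ((L.map (lmul w)).map pri) q U := by
  induction L with
  | nil => simp [itg, pv, pv2]
  | cons a L ih =>
    unfold itg at ih ⊢
    simp only [List.map_cons, pv, pv2]
    rw [ih, ← evq_pv]

theorem pv_lcp (w C : List ℚ) (s : ℝ) : pv (lcp w C) s = pv w (pv C s) := by
  induction w with
  | nil => simp [lcp, pv]
  | cons a l ih =>
    simp only [lcp, pv_ladd, pv_lmul, ih, pv]
    ring

theorem pv2_cn (L : List (List ℚ)) (q : ℝ) : Continuous (pv2 L q) := by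
  induction L with
  | nil =>
    have : pv2 [] q = fun _ => 0 := by funext t; simp [pv2]
    rw [this]
    exact continuous_const
  | cons a L ih =>
    have : pv2 (a :: L) q = fun t => pv a t + q * pv2 L q t := by funext t; simp [pv2]
    rw [this]
    exact (continuous_pv a).add (continuous_const.mul ih)

/-- **the integral of a weight times a row** -/
theorem int_w {t : ℝ} (t0 : 0 ≤ t) {mb C f : ℝ → ℝ} (cm : ContinuousOn mb (Icc 0 t))
    (C0 : C 0 = 0) (dC : ∀ s ∈ Icc 0 t, HasDerivAt C (mb s) s) (Cn : ∀ s ∈ Icc 0 t, 0 ≤ C s)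
    {U : ℚ} (hU : ∀ s ∈ Icc 0 t, C s ≤ U)
    {w : List ℚ} {L : List (List ℚ)} {q : ℝ} (w0 : ∀ v ∈ Icc (0 : ℝ) U, 0 ≤ pv w v)
    (L0 : ∀ v ∈ Icc (0 : ℝ) U, 0 ≤ pv2 L q v) (cf : ContinuousOn f (Icc 0 t))
    (hf : ∀ s ∈ Icc 0 t, f s ≤ pv w (C s) * mb s) :
    ∫ s in (0 : ℝ)..t, f s * pv2 L q (C s) ≤ pv (itg w L U) q := by
  have m0 : (0 : ℝ) ∈ Icc 0 t := ⟨le_rfl, t0⟩
  have mt : t ∈ Icc 0 t := ⟨t0, le_rfl⟩
  have cC : ContinuousOn C (Icc 0 t) := fun s hs => (dC s hs).continuousAt.continuousWithinAt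
  have cL : ContinuousOn (fun s => pv2 L q (C s)) (Icc 0 t) :=
    (pv2_cn L q).comp_continuousOn cC
  have cw : ContinuousOn (fun s => pv w (C s)) (Icc 0 t) :=
    (continuous_pv w).comp_continuousOn cC
  set G : ℝ → ℝ := pv2 ((L.map (lmul w)).map pri) q with hG
  have dG : ∀ v, HasDerivAt G (pv w v * pv2 L q v) v := by
    intro v
    have := hasDerivAt_pv2 (L.map (lmul w)) q v
    rwa [pv2_map_lmul] at this
  have i1 : ∫ s in (0 : ℝ)..t, f s * pv2 L q (C s)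
      ≤ ∫ s in (0 : ℝ)..t, (pv w (C s) * pv2 L q (C s)) * mb s := by
    refine intervalIntegral.integral_mono_on t0 (ii_of t0 (cf.mul cL) m0 mt)
      (ii_of t0 ((cw.mul cL).mul cm) m0 mt) fun s hs => ?_
    have := mul_le_mul_of_nonneg_right (hf s hs) (L0 _ ⟨Cn s hs, hU s hs⟩)
    linarith
  have i2 : ∫ s in (0 : ℝ)..t, (pv w (C s) * pv2 L q (C s)) * mb s = G (C t) - G (C 0) := by
    refine intervalIntegral.integral_eq_sub_of_hasDerivAt (f := fun s => G (C s)) ?_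
      (ii_of t0 ((cw.mul cL).mul cm) m0 mt)
    intro s hs
    rw [uIcc_of_le t0] at hs
    exact (dG (C s)).comp s (dC s hs)
  have G0 : G (C 0) = 0 := by rw [C0, hG]; exact pv2_pri_zero _ _
  have hUt := hU t mt
  have i3 : G (C t) ≤ G U := by
    have := nonneg_of_forward (a := C t) (s := (U : ℝ)) (U := fun v => G v - G (C t))
      (U' := fun v => pv w v * pv2 L q v - 0)
      (fun v _ => (dG v).sub (hasDerivAt_const _ _)) (by simp)
      (fun v hv _ => by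
        have h0 := (Cn t mt).trans hv.1
        have := mul_nonneg (w0 v ⟨h0, hv.2⟩) (L0 v ⟨h0, hv.2⟩)
        linarith) (U : ℝ) ⟨hUt, le_rfl⟩
    linarith
  rw [pv_itg]
  rw [i2, G0, sub_zero] at i1
  exact i1.trans i3

theorem lle_pv {l m : List ℚ} (h : lle l m = true) {q : ℝ} (hq : 0 ≤ q) : pv l q ≤ pv m q := by
  have := nnl_pv h hq
  rw [pv_lsub] at this
  linarith

namespace Pg

variable (w : Pg) (l : T1l)

end Pg

variable {k : Kf} {B : ℝ → ℝ → ℝ} {κd : ℝ → ℝ → ℝ → ℝ} {τ : ℝ} {q0 p1 p2 : ℝ → ℝ}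
  {ee bB β cE : ℝ}

theorem chp_mono {a a' h h' b b' y : ℝ} (hy : y ∈ Icc (0 : ℝ) 1) (h1 : a ≤ a') (h2 : h ≤ h')
    (h3 : b ≤ b') : chp a h b y ≤ chp a' h' b' y := by
  rcases le_total y (1 / 2) with h | h
  · rw [Pn.chp_lo h, Pn.chp_lo h]
    have e1 := mul_le_mul_of_nonneg_left h1 (show 0 ≤ 1 - 2 * y by linarith)
    have e2 := mul_le_mul_of_nonneg_left h2 (show 0 ≤ 2 * y by linarith [hy.1])
    linarith
  · rw [Pn.chp_hi h, Pn.chp_hi h]
    have e1 := mul_le_mul_of_nonneg_left h2 (show 0 ≤ 1 - (2 * y - 1) by linarith [hy.2])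
    have e2 := mul_le_mul_of_nonneg_left h3 (show 0 ≤ 2 * y - 1 by linarith)
    linarith

/-- the square of a chord -/
theorem chp_sq {a h b y : ℝ} (hy : y ∈ Icc (0 : ℝ) 1) :
    chp a h b y ^ 2 ≤ chp (a ^ 2) (h ^ 2) (b ^ 2) y := by
  rcases le_total y (1 / 2) with h1 | h1
  · rw [Pn.chp_lo h1, Pn.chp_lo h1]
    have := mul_nonneg (mul_nonneg (show 0 ≤ 1 - 2 * y by linarith)
      (show 0 ≤ 2 * y by linarith [hy.1])) (sq_nonneg (a - h))
    nlinarith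
  · rw [Pn.chp_hi h1, Pn.chp_hi h1]
    have := mul_nonneg (mul_nonneg (show 0 ≤ 1 - (2 * y - 1) by linarith [hy.2])
      (show 0 ≤ 2 * y - 1 by linarith)) (sq_nonneg (h - b))
    nlinarith

/-- the density is a chord -/
theorem b_chp (b0 b1 : ℝ) (y : ℝ) :
    1 + (1 - y) * (b0 - 1) + eta y * b1 = chp b0 ((1 + b0 + b1) / 2) (1 + b1 / 2) y := by
  rcases le_total y (1 / 2) with h | h
  · rw [Pn.chp_lo h, Dat.eta_lo h]
    ring
  · rw [Pn.chp_hi h, Dat.eta_hi h]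
    ring

/-- **the integrals of the rows** -/
theorem pi_of {l : T1l} {w : Pg} {c : Pc} {n : Pn} {D : ℤ} {nu : ℕ} {τg Ug : ℚ}
    (hg : T1g k B κd τ (pv l.be0) (pv l.be1) (pv l.mb) (pv l.Cl) (pv l.kc) (pv l.ke) (pv l.p0)
      p1 p2 q0 ee bB β cE) (hτ : τ ≤ τg) (hw : w.ok l D nu τg Ug = true)
    (hc : c.ok w n Ug = true) {t : ℝ} (ht : t ∈ Icc 0 τ) (hU : pv l.Cl t ≤ c.U)
    (r1 : ∀ q ∈ Icc (0 : ℝ) 1, ∀ v ∈ Icc (0 : ℝ) c.U, 0 ≤ pv2 c.l1 q v)
    (r2 : ∀ q ∈ Icc (0 : ℝ) 1, ∀ v ∈ Icc (0 : ℝ) c.U, 0 ≤ pv2 c.l2 q v)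
    (r3 : ∀ q ∈ Icc (0 : ℝ) 1, ∀ v ∈ Icc (0 : ℝ) c.U, 0 ≤ pv2 c.h1 q v)
    (r4 : ∀ q ∈ Icc (0 : ℝ) 1, ∀ v ∈ Icc (0 : ℝ) c.U, 0 ≤ pv2 c.h2 q v) :
    Pi n k t (fun s => c.K * pv l.ke s) (fun s => c.K * pv (pri l.p0) s) (pv l.mb)
      (fun s => (w.th : ℝ) * ((1 + s) ^ 2)⁻¹) (fun _ => w.thh) (fun q s => pv2 c.l1 q (pv l.Cl s))
      (fun q s => pv2 c.l2 q (pv l.Cl s)) (fun q s => pv2 c.h1 q (pv l.Cl s))
      (fun q s => pv2 c.h2 q (pv l.Cl s)) := by
  simp only [Pg.ok, Bool.and_eq_true, decide_eq_true_eq] at hw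
  simp only [Pc.ok, Bool.and_eq_true, decide_eq_true_eq] at hc
  obtain ⟨a1, a2, a3, a4, a5, a6, a7, a8, b1, b2, b3, b4, b5, b6⟩ := hw
  obtain ⟨d1, d2, d3, d4, d5, d6, d7, d8, d9⟩ := hc
  have K0 : (0 : ℝ) ≤ c.K := by exact_mod_cast d1
  have U1 : (c.U : ℝ) ≤ Ug := by exact_mod_cast d3
  have th0 : (0 : ℝ) < w.th := by exact_mod_cast a1
  have thh0 : (0 : ℝ) < w.thh := by exact_mod_cast a2
  have sub : ∀ s ∈ Icc 0 t, s ∈ Icc 0 τ := fun s hs => ⟨hs.1, hs.2.trans ht.2⟩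
  have m : ∀ s ∈ Icc 0 t, s ∈ Icc ((0 : ℚ) : ℝ) (τg : ℝ) := fun s hs =>
    ⟨by simpa using hs.1, (sub s hs).2.trans hτ⟩
  have mU : ∀ v ∈ Icc (0 : ℝ) c.U, v ∈ Icc ((0 : ℚ) : ℝ) (Ug : ℝ) := fun v hv =>
    ⟨by simpa using hv.1, hv.2.trans U1⟩
  have Cn : ∀ s ∈ Icc 0 t, 0 ≤ pv l.Cl s := fun s hs => hg.C_nn (sub s hs)
  have CU : ∀ s ∈ Icc 0 t, pv l.Cl s ≤ c.U := fun s hs => by
    have := hg.C_mono hs.1 hs.2 ht.2
    linarith [hs.2]
  have dC : ∀ s ∈ Icc 0 t, HasDerivAt (pv l.Cl) (pv l.mb s) s := fun s hs => hg.dC s (sub s hs)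
  have cm : ContinuousOn (pv l.mb) (Icc 0 t) := (continuous_pv _).continuousOn
  have q1 : ∀ s ∈ Icc 0 t, 0 < (1 + s) ^ 2 := fun s hs => by have := hs.1; positivity
  have ci : ContinuousOn (fun s : ℝ => ((1 + s) ^ 2)⁻¹) (Icc 0 t) :=
    ContinuousOn.inv₀ (by fun_prop) fun s hs => (q1 s hs).ne'
  have cp : ∀ p : List ℚ, ContinuousOn (pv p) (Icc 0 t) := fun p =>
    (continuous_pv p).continuousOn
  -- one weight
  have W : ∀ {wt : List ℚ} {L : List (List ℚ)} {o : List ℚ} {f : ℝ → ℝ} {q : ℝ}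
      (_ : q ∈ Icc (0 : ℝ) 1) (_ : nn D nu 0 Ug wt = true)
      (_ : ∀ v ∈ Icc (0 : ℝ) c.U, 0 ≤ pv2 L q v) (_ : ContinuousOn f (Icc 0 t))
      (_ : ∀ s ∈ Icc 0 t, f s ≤ pv wt (pv l.Cl s) * pv l.mb s)
      (_ : lle (lsmul c.K (itg wt L c.U)) o = true),
      c.K * ∫ s in (0 : ℝ)..t, f s * pv2 L q (pv l.Cl s) ≤ pv o q := by
    intro wt L o f q hq hn hL cf hf ho
    have h1 := int_w ht.1 cm hg.C0 dC Cn CU (fun v hv => nn_le hn (mU v hv)) hL cf hf
    have h2 := lle_pv ho hq.1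
    rw [pv_lsmul] at h2
    exact (mul_le_mul_of_nonneg_left h1 K0).trans h2
  -- the values of the densities
  have w0v : ∀ {wt be : List ℚ} (_ : nn D nu 0 τg (lsub (lmul [1, 2, 1] (lmul (lcp wt l.Cl)
      (lsmul w.th l.mb))) (lmul l.ke (lmul be be))) = true), ∀ s ∈ Icc 0 t,
      pv l.ke s * ((w.th : ℝ) * ((1 + s) ^ 2)⁻¹)⁻¹ * (pv be s * ((1 + s) ^ 2)⁻¹) ^ 2
        ≤ pv wt (pv l.Cl s) * pv l.mb s := by
    intro wt be hn s hs
    have h := nn_sub hn (m s hs)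
    simp only [pv_lmul, pv_lsmul, pv_lcp, pv_cons, pv_nil] at h
    push_cast at h
    have q2 := q1 s hs
    have e1 : 1 + s * (2 + s * (1 + s * 0)) = (1 + s) ^ 2 := by ring
    rw [e1] at h
    have e2 : pv l.ke s * ((w.th : ℝ) * ((1 + s) ^ 2)⁻¹)⁻¹ * (pv be s * ((1 + s) ^ 2)⁻¹) ^ 2
        = pv l.ke s * (pv be s * pv be s) / ((1 + s) ^ 2 * w.th) := by
      have hs0 : (1 + s) ≠ 0 := by have := hs.1; positivity
      field_simp
    rw [e2, div_le_iff₀ (mul_pos q2 th0)]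
    linarith
  have cf2 : ∀ be : List ℚ, ContinuousOn (fun s => pv l.ke s * ((w.th : ℝ) * ((1 + s) ^ 2)⁻¹)⁻¹
      * (pv be s * ((1 + s) ^ 2)⁻¹) ^ 2) (Icc 0 t) := fun be =>
    ((cp _).mul (ContinuousOn.inv₀ (continuousOn_const.mul ci) fun s hs =>
      (mul_pos th0 (inv_pos.2 (q1 s hs))).ne')).mul (((cp be).mul ci).pow 2)
  refine ⟨fun q hq => ?_, fun q hq z hz => ?_, fun q hq => ?_, fun q hq => ?_⟩
  · have h := W (f := fun s => pv l.ke s * ((w.th : ℝ) * ((1 + s) ^ 2)⁻¹)) hq b1 (r1 q hq)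
      ((cp _).mul (continuousOn_const.mul ci)) (fun s hs => ?_) d4
    · rw [← intervalIntegral.integral_const_mul] at h
      refine le_trans (le_of_eq ?_) h
      refine intervalIntegral.integral_congr fun s _ => ?_
      beta_reduce
      ring
    · have h := nn_sub a3 (m s hs)
      simp only [pv_lmul, pv_lsmul, pv_lcp, pv_cons, pv_nil] at h
      push_cast at h
      have q2 := q1 s hs
      have e1 : 1 + s * (2 + s * (1 + s * 0)) = (1 + s) ^ 2 := by ring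
      rw [e1] at h
      have e2 : pv l.ke s * ((w.th : ℝ) * ((1 + s) ^ 2)⁻¹) = w.th * pv l.ke s / (1 + s) ^ 2 := by
        rw [div_eq_mul_inv]
        ring
      rw [e2, div_le_iff₀ q2]
      linarith
  · set F : ℝ → ℝ → ℝ := fun x s => pv l.ke s * ((w.th : ℝ) * ((1 + s) ^ 2)⁻¹)⁻¹
      * (x * ((1 + s) ^ 2)⁻¹) ^ 2 with hF
    have w0 := w0v (be := l.be0) a4
    have wh := w0v (be := lsmul (1 / 2) (ladd (ladd [1] l.be0) l.be1)) a5
    have w2 := w0v (be := ladd [1] (lsmul (1 / 2) l.be1)) a6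
    have i0 := W hq b2 (r2 q hq) (cf2 _) w0 d5
    have ih := W hq b3 (r2 q hq) (cf2 _) wh d6
    have i2 := W hq b4 (r2 q hq) (cf2 _) w2 d7
    refine le_trans ?_ (chp_mono hz i0 ih i2)
    -- the chord of the integrals is the integral of the chord
    set f0 : ℝ → ℝ := fun s => pv l.ke s * ((w.th : ℝ) * ((1 + s) ^ 2)⁻¹)⁻¹
      * (pv l.be0 s * ((1 + s) ^ 2)⁻¹) ^ 2 * pv2 c.l2 q (pv l.Cl s) with hf0
    set fh : ℝ → ℝ := fun s => pv l.ke s * ((w.th : ℝ) * ((1 + s) ^ 2)⁻¹)⁻¹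
      * (pv (lsmul (1 / 2) (ladd (ladd [1] l.be0) l.be1)) s * ((1 + s) ^ 2)⁻¹) ^ 2
      * pv2 c.l2 q (pv l.Cl s) with hfh
    set f2 : ℝ → ℝ := fun s => pv l.ke s * ((w.th : ℝ) * ((1 + s) ^ 2)⁻¹)⁻¹
      * (pv (ladd [1] (lsmul (1 / 2) l.be1)) s * ((1 + s) ^ 2)⁻¹) ^ 2
      * pv2 c.l2 q (pv l.Cl s) with hf2
    have cC : ContinuousOn (pv l.Cl) (Icc 0 t) := cp _
    have cL : ContinuousOn (fun s => pv2 c.l2 q (pv l.Cl s)) (Icc 0 t) :=
      (pv2_cn _ q).comp_continuousOn cC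
    have c0 : ContinuousOn f0 (Icc 0 t) := (cf2 _).mul cL
    have ch : ContinuousOn fh (Icc 0 t) := (cf2 _).mul cL
    have c2 : ContinuousOn f2 (Icc 0 t) := (cf2 _).mul cL
    have m0 : (0 : ℝ) ∈ Icc 0 t := ⟨le_rfl, ht.1⟩
    have mt : t ∈ Icc 0 t := ⟨ht.1, le_rfl⟩
    have J : chp (c.K * ∫ s in (0 : ℝ)..t, f0 s) (c.K * ∫ s in (0 : ℝ)..t, fh s)
        (c.K * ∫ s in (0 : ℝ)..t, f2 s) z
        = ∫ s in (0 : ℝ)..t, c.K * chp (f0 s) (fh s) (f2 s) z := by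
      rw [intervalIntegral.integral_const_mul]
      rcases le_total z (1 / 2) with h1 | h1
      · simp only [Pn.chp_lo h1]
        rw [intervalIntegral.integral_add ((ii_of ht.1 c0 m0 mt).const_mul _)
          ((ii_of ht.1 ch m0 mt).const_mul _), intervalIntegral.integral_const_mul,
          intervalIntegral.integral_const_mul]
        ring
      · simp only [Pn.chp_hi h1]
        rw [intervalIntegral.integral_add ((ii_of ht.1 ch m0 mt).const_mul _)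
          ((ii_of ht.1 c2 m0 mt).const_mul _), intervalIntegral.integral_const_mul,
          intervalIntegral.integral_const_mul]
        ring
    have cJ : ContinuousOn (fun s => chp (f0 s) (fh s) (f2 s) z) (Icc 0 t) := by
      rcases le_total z (1 / 2) with h1 | h1
      · simp only [Pn.chp_lo h1]
        exact (continuousOn_const.mul c0).add (continuousOn_const.mul ch)
      · simp only [Pn.chp_hi h1]
        exact (continuousOn_const.mul ch).add (continuousOn_const.mul c2)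
    have efh : ∀ s, k.fh z s = chp (pv l.be0 s) (pv (lsmul (1 / 2) (ladd (ladd [1] l.be0)
        l.be1)) s) (pv (ladd [1] (lsmul (1 / 2) l.be1)) s) z * ((1 + s) ^ 2)⁻¹ := by
      intro s
      unfold Kf.fh
      rw [hg.b, b_chp]
      simp only [pv_lsmul, pv_ladd, pv_cons, pv_nil]
      congr 2
      · push_cast; ring
      · push_cast; ring
    refine le_trans ?_ (le_of_eq J.symm)
    have cfz : ContinuousOn (k.fh z) (Icc 0 t) := by
      have : ContinuousOn (fun s => chp (pv l.be0 s) (pv (lsmul (1 / 2) (ladd (ladd [1] l.be0)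
          l.be1)) s) (pv (ladd [1] (lsmul (1 / 2) l.be1)) s) z * ((1 + s) ^ 2)⁻¹)
          (Icc 0 t) := by
        refine ContinuousOn.mul ?_ ci
        rcases le_total z (1 / 2) with h1 | h1
        · simp only [Pn.chp_lo h1]
          exact (continuousOn_const.mul (cp _)).add (continuousOn_const.mul (cp _))
        · simp only [Pn.chp_hi h1]
          exact (continuousOn_const.mul (cp _)).add (continuousOn_const.mul (cp _))
      exact this.congr fun s _ => efh s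
    refine intervalIntegral.integral_mono_on ht.1 (ii_of ht.1 ((((continuousOn_const.mul
      (cp _)).mul (ContinuousOn.inv₀ (continuousOn_const.mul ci) fun s hs =>
      (mul_pos th0 (inv_pos.2 (q1 s hs))).ne')).mul (cfz.pow 2)).mul cL) m0 mt)
      (ii_of ht.1 (continuousOn_const.mul cJ) m0 mt) fun s hs => ?_
    have ke0 : 0 ≤ pv l.ke s := le_trans zero_le_one (hg.ke1 s (sub s hs))
    have L0 := r2 q hq _ ⟨Cn s hs, CU s hs⟩
    have hth : 0 < ((w.th : ℝ) * ((1 + s) ^ 2)⁻¹)⁻¹ := inv_pos.2 (mul_pos th0 (inv_pos.2 (q1 s hs)))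
    have sq := mul_le_mul_of_nonneg_right (chp_sq (a := pv l.be0 s)
      (h := pv (lsmul (1 / 2) (ladd (ladd [1] l.be0) l.be1)) s)
      (b := pv (ladd [1] (lsmul (1 / 2) l.be1)) s) hz) (sq_nonneg (((1 + s) ^ 2)⁻¹))
    set M := pv l.ke s * ((w.th : ℝ) * ((1 + s) ^ 2)⁻¹)⁻¹ * pv2 c.l2 q (pv l.Cl s) with hM
    have M0 : 0 ≤ M := mul_nonneg (mul_nonneg ke0 hth.le) L0
    have e3 : chp (f0 s) (fh s) (f2 s) z = M * (chp (pv l.be0 s ^ 2)
        (pv (lsmul (1 / 2) (ladd (ladd [1] l.be0) l.be1)) s ^ 2)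
        (pv (ladd [1] (lsmul (1 / 2) l.be1)) s ^ 2) z * ((1 + s) ^ 2)⁻¹ ^ 2) := by
      rw [hf0, hfh, hf2, hM]
      rcases le_total z (1 / 2) with h1 | h1
      · rw [Pn.chp_lo h1, Pn.chp_lo h1]
        ring
      · rw [Pn.chp_hi h1, Pn.chp_hi h1]
        ring
    rw [e3, efh s]
    have := mul_le_mul_of_nonneg_left sq (mul_nonneg K0 M0)
    calc _ = c.K * M * (chp (pv l.be0 s) (pv (lsmul (1 / 2) (ladd (ladd [1] l.be0) l.be1)) s)
          (pv (ladd [1] (lsmul (1 / 2) l.be1)) s) z ^ 2 * ((1 + s) ^ 2)⁻¹ ^ 2) := by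
          rw [hM]; ring
      _ ≤ _ := this
      _ = _ := by ring
  · have h := W (f := fun s => pv (pri l.p0) s * w.thh) hq b5 (r3 q hq)
      ((cp _).mul continuousOn_const) (fun s hs => ?_) d8
    · rw [← intervalIntegral.integral_const_mul] at h
      refine le_trans (le_of_eq ?_) h
      refine intervalIntegral.integral_congr fun s _ => ?_
      beta_reduce
      ring
    · have h := nn_sub a7 (m s hs)
      simp only [pv_lmul, pv_lsmul, pv_lcp] at h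
      linarith
  · have h := W (f := fun s => pv (pri l.p0) s * (w.thh : ℝ)⁻¹ * pv l.mb s ^ 2) hq b6
      (r4 q hq) (((cp _).mul continuousOn_const).mul ((cp _).pow 2)) (fun s hs => ?_) d9
    · rw [← intervalIntegral.integral_const_mul] at h
      refine le_trans (le_of_eq ?_) h
      refine intervalIntegral.integral_congr fun s _ => ?_
      beta_reduce
      ring
    · have h := nn_sub a8 (m s hs)
      simp only [pv_lmul, pv_lsmul, pv_lcp] at h
      have e2 : pv (pri l.p0) s * (w.thh : ℝ)⁻¹ * pv l.mb s ^ 2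
          = pv (pri l.p0) s * (pv l.mb s * pv l.mb s) / w.thh := by
        rw [div_eq_mul_inv]
        ring
      rw [e2, div_le_iff₀ thh0]
      linarith

end Pool.Agent.RX.RCN.K
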