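import Pool.Agent.RX.RCN.Jn
import Pool.Agent.RX.RCN.T1H_1

/-! The first part of the inequality of the centres: the scalar conditions of a cell
(MP_73ccd0_lc, route M). -/

namespace Pool.Agent.RX.RCN.K

open Set Finset MeasureTheory Pool.Agent.RX.RCRSHalf Pool.Agent.RX.RCG Pool.Agent.RX.RCG.Ct
open Pool.Agent.RX.RCN.Ker

set_option linter.unusedSectionVars false

/-! ### elementary facts -/

/-- integrals over shorter intervals -/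
theorem int_ext {f : ℝ → ℝ} {t τ : ℝ} (h0 : 0 ≤ t) (h : t ≤ τ) (cf : ContinuousOn f (Icc 0 τ))
    (hf : ∀ s ∈ Icc 0 τ, 0 ≤ f s) : ∫ s in (0 : ℝ)..t, f s ≤ ∫ s in (0 : ℝ)..τ, f s := by
  have h1 : 0 ≤ τ := h0.trans h
  have i1 := ii_of h1 cf ⟨le_rfl, h1⟩ (⟨h0, h⟩ : t ∈ Icc 0 τ)
  have i2 := ii_of h1 cf (⟨h0, h⟩ : t ∈ Icc 0 τ) ⟨h1, le_rfl⟩
  rw [← intervalIntegral.integral_add_adjacent_intervals i1 i2]
  have : 0 ≤ ∫ s in t..τ, f s := intervalIntegral.integral_nonneg h fun s hs =>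
    hf s ⟨h0.trans hs.1, hs.2⟩
  linarith

/-- comparison of integrals, the second over a longer interval -/
theorem int_le_ext {f g : ℝ → ℝ} {t τ : ℝ} (h0 : 0 ≤ t) (h : t ≤ τ)
    (cf : ContinuousOn f (Icc 0 t)) (cg : ContinuousOn g (Icc 0 τ))
    (hfg : ∀ s ∈ Icc 0 t, f s ≤ g s) (hg : ∀ s ∈ Icc 0 τ, 0 ≤ g s) :
    ∫ s in (0 : ℝ)..t, f s ≤ ∫ s in (0 : ℝ)..τ, g s := by
  have m0 : (0 : ℝ) ∈ Icc 0 t := ⟨le_rfl, h0⟩
  have mt : t ∈ Icc 0 t := ⟨h0, le_rfl⟩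
  refine (intervalIntegral.integral_mono_on h0 (ii_of h0 cf m0 mt)
    (ii_of h0 (cg.mono (Icc_subset_Icc_right h)) m0 mt) hfg).trans (int_ext h0 h cg hg)

/-- the integral of a linear combination -/
theorem int_lin {f g : ℝ → ℝ} {t a b : ℝ} (h0 : 0 ≤ t) (cf : ContinuousOn f (Icc 0 t))
    (cg : ContinuousOn g (Icc 0 t)) :
    (∫ s in (0 : ℝ)..t, (a * f s + b * g s)) = a * (∫ s in (0 : ℝ)..t, f s)
      + b * ∫ s in (0 : ℝ)..t, g s := by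
  rw [int_add2 h0 (f := fun s => a * f s) (g := fun s => b * g s) (continuousOn_const.mul cf)
    (continuousOn_const.mul cg), intervalIntegral.integral_const_mul,
    intervalIntegral.integral_const_mul]

/-! ### the functions -/

variable {k : Kf} {B : ℝ → ℝ → ℝ} {κd : ℝ → ℝ → ℝ → ℝ} {τ t : ℝ}
  {b0 b1 mb C kc ke p0 p1 p2 q0 : ℝ → ℝ} {ee bB β cE : ℝ}

section

variable (h : T1g k B κd τ b0 b1 mb C kc ke p0 p1 p2 q0 ee bB β cE)

include h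

/-- the integrated densities -/
theorem T1g.F1 (hfc : ∀ y ∈ Icc (0 : ℝ) 1, ContinuousOn (k.fh y) (Icc 0 bt)) {K : ℝ}
    (K0 : 0 ≤ K) {y : ℝ} (hy : y ∈ Icc (0 : ℝ) 1) {s : ℝ} (hs : s ∈ Icc 0 τ) :
    ∫ r in (0 : ℝ)..s, k.fh y r * (K * ke r) ≤ K * ∫ r in (0 : ℝ)..s, p0 r := by
  have m : ∀ r ∈ Icc 0 s, r ∈ Icc 0 τ := fun r hr => ⟨hr.1, hr.2.trans hs.2⟩
  have m0 : (0 : ℝ) ∈ Icc 0 s := ⟨le_rfl, hs.1⟩
  have ms : s ∈ Icc 0 s := ⟨hs.1, le_rfl⟩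
  have sub : Icc 0 s ⊆ Icc 0 τ := Icc_subset_Icc_right hs.2
  have cf := ((h.cfh hfc hy).mono sub).mul (continuousOn_const.mul (h.cke.mono sub)
    (f := fun _ => K))
  have c0 := h.cp0.mono sub
  have c1 := h.cp1.mono sub
  have e1 : ∫ r in (0 : ℝ)..s, k.fh y r * (K * ke r)
      ≤ ∫ r in (0 : ℝ)..s, (K * p0 r + K * eta y * p1 r) := by
    refine intervalIntegral.integral_mono_on hs.1 (ii_of hs.1 cf m0 ms)
      (ii_of hs.1 ((continuousOn_const.mul c0).add (continuousOn_const.mul c1)) m0 ms)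
      fun r hr => ?_
    have q := h.q0' (m r hr)
    have k1 := h.ke1 r (m r hr)
    have i1 := h.b_le y (m r hr)
    have i2 := (h.p0n (m r hr)).1
    have i3 := h.p1n (m r hr)
    have w0 : 0 ≤ ((1 + r) ^ 2)⁻¹ * (K * ke r) := mul_nonneg q.le (mul_nonneg K0 (by linarith))
    have i4 := mul_le_mul_of_nonneg_right i1 w0
    have i5 := mul_le_mul_of_nonneg_left i2 K0
    have i6 := mul_le_mul_of_nonneg_left i3 (mul_nonneg K0 (eta_nonneg hy.1))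
    calc k.fh y r * (K * ke r) = k.b y r * (((1 + r) ^ 2)⁻¹ * (K * ke r)) := by
          unfold Kf.fh; ring
      _ ≤ (b0 r + eta y * (b1 r - b0 r + 1)) * (((1 + r) ^ 2)⁻¹ * (K * ke r)) := i4
      _ = K * (b0 r * ((1 + r) ^ 2)⁻¹ * ke r)
          + K * eta y * ((b1 r - b0 r + 1) * ((1 + r) ^ 2)⁻¹ * ke r) := by ring
      _ ≤ _ := add_le_add i5 i6
  refine e1.trans ?_
  rw [int_lin hs.1 c0 c1]
  have := mul_nonpos_of_nonneg_of_nonpos (mul_nonneg K0 (eta_nonneg hy.1)) (h.hP1 s hs)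
  linarith

/-- the integrated density errors -/
theorem T1g.E1 (hfc : ∀ y ∈ Icc (0 : ℝ) 1, ContinuousOn (k.fh y) (Icc 0 bt))
    (ht : t ∈ Icc 0 τ) {kv e0 e1 : ℝ} (hk1 : 1 ≤ kv) (hkv : kc t ≤ kv)
    (he0 : kv * (∫ s in (0 : ℝ)..τ, p0 s) - (∫ s in (0 : ℝ)..τ, q0 s) ≤ e0)
    (he1 : kv * (∫ s in (0 : ℝ)..τ, p1 s) - (∫ s in (0 : ℝ)..τ, p2 s) ≤ e1) (e10 : 0 ≤ e1)
    {y : ℝ} (hy : y ∈ Icc (0 : ℝ) 1) :
    ∫ s in (0 : ℝ)..t, k.fh y s * (kc t * ke s - 1) ≤ e0 + e1 / 2 := by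
  have m : ∀ r ∈ Icc 0 t, r ∈ Icc 0 τ := fun r hr => ⟨hr.1, hr.2.trans ht.2⟩
  have mτ : τ ∈ Icc 0 τ := ⟨h.τ0, le_rfl⟩
  have m00 : (0 : ℝ) ∈ Icc 0 τ := ⟨le_rfl, h.τ0⟩
  have sub : Icc 0 t ⊆ Icc 0 τ := Icc_subset_Icc_right ht.2
  have cf := h.cfh hfc hy
  have c2 : ContinuousOn (fun s => k.fh y s * (kv * ke s - 1)) (Icc 0 τ) :=
    cf.mul ((continuousOn_const.mul h.cke).sub continuousOn_const)
  have kk : ∀ s ∈ Icc 0 τ, 1 ≤ kv * ke s := fun s hs =>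
    one_le_mul_of_one_le_of_one_le hk1 (h.ke1 s hs)
  have a1 : ∫ s in (0 : ℝ)..t, k.fh y s * (kc t * ke s - 1)
      ≤ ∫ s in (0 : ℝ)..τ, k.fh y s * (kv * ke s - 1) := by
    refine int_le_ext ht.1 ht.2 ((cf.mono sub).mul ((continuousOn_const.mul
      (h.cke.mono sub)).sub continuousOn_const)) c2 (fun s hs => ?_) fun s hs =>
      mul_nonneg (h.fb y hy s hs) (by linarith [kk s hs])
    refine mul_le_mul_of_nonneg_left ?_ (h.fb y hy s (m s hs))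
    have := mul_le_mul_of_nonneg_right hkv (show 0 ≤ ke s by linarith [h.ke1 s (m s hs)])
    linarith
  have cA : ContinuousOn (fun s => kv * p0 s + (-1) * q0 s) (Icc 0 τ) :=
    (continuousOn_const.mul h.cp0).add (continuousOn_const.mul h.cq0)
  have cB' : ContinuousOn (fun s => kv * p1 s + (-1) * p2 s) (Icc 0 τ) :=
    (continuousOn_const.mul h.cp1).add (continuousOn_const.mul h.cp2)
  have a2 : ∫ s in (0 : ℝ)..τ, k.fh y s * (kv * ke s - 1)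
      ≤ ∫ s in (0 : ℝ)..τ, (1 * (kv * p0 s + (-1) * q0 s)
        + eta y * (kv * p1 s + (-1) * p2 s)) := by
    refine intervalIntegral.integral_mono_on h.τ0 (ii_of h.τ0 c2 m00 mτ)
      (ii_of h.τ0 ((continuousOn_const.mul cA).add (continuousOn_const.mul cB')) m00 mτ)
      fun r hr => ?_
    have q := h.q0' hr
    have k1 := h.ke1 r hr
    have i1 := h.b_le y hr
    have i2 := (h.p0n hr).1
    have i3 := h.p1n hr
    have i7 := h.p2n hr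
    have i8 := h.q0n hr
    have kv0 : 0 ≤ kv := by linarith
    have w0 : 0 ≤ ((1 + r) ^ 2)⁻¹ * (kv * ke r - 1) := mul_nonneg q.le (by linarith [kk r hr])
    have i4 := mul_le_mul_of_nonneg_right i1 w0
    have i5 := mul_le_mul_of_nonneg_left i2 kv0
    have i6 := mul_le_mul_of_nonneg_left i3 kv0
    have i9 : kv * ((b1 r - b0 r + 1) * ((1 + r) ^ 2)⁻¹ * ke r)
        - (b1 r - b0 r + 1) * ((1 + r) ^ 2)⁻¹ ≤ kv * p1 r - p2 r := by linarith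
    have i10 := mul_le_mul_of_nonneg_left i9 (eta_nonneg hy.1)
    calc k.fh y r * (kv * ke r - 1) = k.b y r * (((1 + r) ^ 2)⁻¹ * (kv * ke r - 1)) := by
          unfold Kf.fh; ring
      _ ≤ (b0 r + eta y * (b1 r - b0 r + 1)) * (((1 + r) ^ 2)⁻¹ * (kv * ke r - 1)) := i4
      _ = (kv * (b0 r * ((1 + r) ^ 2)⁻¹ * ke r) - b0 r * ((1 + r) ^ 2)⁻¹)
          + eta y * (kv * ((b1 r - b0 r + 1) * ((1 + r) ^ 2)⁻¹ * ke r)
            - (b1 r - b0 r + 1) * ((1 + r) ^ 2)⁻¹) := by ring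
      _ ≤ (kv * p0 r - q0 r) + eta y * (kv * p1 r - p2 r) :=
          add_le_add (by linarith) i10
      _ = _ := by ring
  rw [int_lin h.τ0 cA cB', int_lin h.τ0 h.cp0 h.cq0, int_lin h.τ0 h.cp1 h.cp2] at a2
  have g0 := eta_nonneg hy.1
  have g1 := eta_le_half y
  have i11 : eta y * (kv * (∫ s in (0 : ℝ)..τ, p1 s) + (-1) * ∫ s in (0 : ℝ)..τ, p2 s)
      ≤ 1 / 2 * e1 := by
    refine (mul_le_mul_of_nonneg_left (show _ ≤ e1 by linarith) g0).trans ?_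
    exact mul_le_mul_of_nonneg_right g1 e10
  linarith

end

/-! ### the numbers of a cell -/

section

variable {K kv Cv Y δ eY ω oA oP cw M2 v0 mM ωH IA x1 x20 x21 y20 y21 α0 mt CC κh κε e0 e1 εh
  g0 g1 g2 h0 h1 h2 RA RH EA EH c0 c1 k1 : ℝ}
variable (h : T1g k B κd τ b0 b1 mb C kc ke p0 p1 p2 q0 ee bB β cE) (hfc : ∀ y ∈ Icc (0 : ℝ) 1, ContinuousOn (k.fh y) (Icc 0 bt))

include h

end

section main

variable {V : Type*} [Fintype V] [DecidableEq V] {x : V → V → ℝ} {P : V → Prop}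
  [DecidablePred P] {Z : Hzd} {sl : ℝ → ℝ → ℝ} {E1 : ℝ → ℝ → ℝ} {N : ℕ}
  {R : V → V → V → ℝ → ℝ → ℝ} {L Lt : V → V → V → V → ℝ → ℝ → ℝ} {A : ℝ → ℝ → ℝ}

variable {K kv Cv Y δ eY ω oA oP cw M2 v0 mM ωH IA x1 x20 x21 y20 y21 α0 mt CC κh κε e0 e1 εh
  g0 g1 g2 h0 h1 h2 RA RH EA EH c0 c1 k1 : ℝ}

end main

end Pool.Agent.RX.RCN.K
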