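import Pool.Agent.RX.RCN.Pd
import Pool.Agent.RX.RCN.PpQ
import Pool.Agent.RX.RCN.T1H_2
import Pool.Agent.RX.RCN.T1J

/-! The inequality of the pairs in a numeric cell (MP_73ccd0_lc, route M). -/

namespace Pool.Agent.RX.RCN.K

open Set Finset MeasureTheory Pool.Agent.RX.RCRSHalf Pool.Agent.RX.RCG Pool.Agent.RX.RCG.Ct
open Pool.Agent.RX.RCN.Ker Pool.Agent.RX.RCRS Pool.Agent.RX.RCM9 Pool.Agent.RX.RCM9.Bern Pool.Agent.RX.RCM9.Pk
open Pool.Agent.RX.RCN.Ck1

set_option linter.unusedSectionVars false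

/-- the rows and columns of the exponents in the world of `a`, `b` -/
structure Rq {V : Type*} [Fintype V] [DecidableEq V] (x : V → V → ℝ) (P : V → Prop)
    [DecidablePred P] (L Lt : V → V → V → V → ℝ → ℝ → ℝ) (a b : V) (t : ℝ) (l1 l2 h1 h2 : ℝ → ℝ → ℝ) : Prop where
  r1 : ∀ c ∈ ({a, b} : Finset V)ᶜ, ∀ s ∈ Icc 0 t,
    ∑ d ∈ ({a, b, c} : Finset V)ᶜ, rP P L a b c d t s
      ≤ (1 - (x a c + x b c)) * l1 (x a c + x b c) s
  r2 : ∀ d ∈ ({a, b} : Finset V)ᶜ, ∀ s ∈ Icc 0 t,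
    ∑ c ∈ ({a, b, d} : Finset V)ᶜ, rP P L a b c d t s
      ≤ (1 - (x a d + x b d)) * l2 (x a d + x b d) s
  r3 : ∀ c ∈ ({a, b} : Finset V)ᶜ, ∀ s ∈ Icc 0 t,
    ∑ d ∈ ({a, b, c} : Finset V)ᶜ, rP P Lt a b c d t s
      ≤ (1 - (x a c + x b c)) * h1 (x a c + x b c) s
  r4 : ∀ d ∈ ({a, b} : Finset V)ᶜ, ∀ s ∈ Icc 0 t,
    ∑ c ∈ ({a, b, d} : Finset V)ᶜ, rP P Lt a b c d t s
      ≤ (1 - (x a d + x b d)) * h2 (x a d + x b d) s

namespace Pt

variable (l : T1l) (D : ℤ) (j : ℕ)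

end Pt

variable {p : Ps} {g : GDat}

variable {V : Type} [Fintype V] [DecidableEq V]
variable {Gr : SimpleGraph V} [Fintype Gr.edgeSet] [DecidableEq Gr.edgeSet]
variable {x : Gr.edgeSet → ℝ}

/-- **the inequality of one pair in a numeric cell** -/
theorem pp_cell {l : T1l} {c : Pt} {D Dw D' : ℤ} {j nw n' : ℕ} {τ' τg Ug : ℚ} {w : Pg} {pc : Pc}
    (hp : p.Ok) (hg : g.Pos p.d) (hq : T1p p l.bB) (ho : l.Of p g) (hl : l.ax = true)
    (hG : l.okG D' n' τ' = true) (hc : c.ok l D j = true) (hτ : c.τ ≤ btq) (hτg : btq ≤ τg)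
    (hw : w.ok l Dw nw τg Ug = true) (hpc : pc.ok w c.n Ug = true) (hK : pc.K = c.K)
    (hx : IsFractionalMatching Gr x) {C : Cx (V ⊕ V)} (hC : Cls p.z.hz (xe x) (P0 V) C)
    (hlo : C.lo = pv p.lo) {t : ℝ} (ht : t ∈ Icc (c.α : ℝ) c.τ) (hU : pv l.Cl t ≤ pc.U)
    (n1 : ∀ q ∈ Icc (0 : ℝ) 1, ∀ v ∈ Icc (0 : ℝ) pc.U, 0 ≤ pv2 pc.l1 q v)
    (n2 : ∀ q ∈ Icc (0 : ℝ) 1, ∀ v ∈ Icc (0 : ℝ) pc.U, 0 ≤ pv2 pc.l2 q v)
    (n3 : ∀ q ∈ Icc (0 : ℝ) 1, ∀ v ∈ Icc (0 : ℝ) pc.U, 0 ≤ pv2 pc.h1 q v)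
    (n4 : ∀ q ∈ Icc (0 : ℝ) 1, ∀ v ∈ Icc (0 : ℝ) pc.U, 0 ≤ pv2 pc.h2 q v)
    (hr : ∀ a b, P0 V a → P0 V b → a ≠ b →
      Rq (xe x) (P0 V) (p.da (g.kd p.d) (C.pd (xe x) (P0 V))).L
        (p.da (g.kd p.d) (C.pd (xe x) (P0 V))).Lt a b t
        (fun q s => pv2 pc.l1 q (pv l.Cl s)) (fun q s => pv2 pc.l2 q (pv l.Cl s))
        (fun q s => pv2 pc.h1 q (pv l.Cl s)) (fun q s => pv2 pc.h2 q (pv l.Cl s)))
    {Kc : ℚ} {LA LB : List (List ℚ)} (hA : NN (c.n.eA Kc LA LB)) (hB : NN (c.n.eB Kc LA LB))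
    {a b : V ⊕ V} (ha : P0 V a) (hb : P0 V b) (hab : a ≠ b) :
    (p.da (g.kd p.d) (C.pd (xe x) (P0 V))).w x a b t
      ≤ Kc * ∑ d ∈ ({a, b} : Finset (V ⊕ V))ᶜ,
        Pn.kbn LA LB (xe x a b) (xr (xe x) (P0 V) a d) (xr (xe x) (P0 V) b d) := by
  have hwt := wt_xe hx zero_le_one le_rfl fun e => (hx.1 e).2
  set D0 := p.da (g.kd p.d) (C.pd (xe x) (P0 V)) with hD0
  have hCp : Cls D0.Z (xe x) (P0 V) D0.C := hC.pd hwt
  have hD : D0.Ok := da_ok hp hlo (fun w => kd_cn _ w) (kP_of hp hg)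
  have hf : Lf D0.C.N D0.k D0.κd (D0.R x) D0.L D0.Lt := Da.lf hD hx hCp
  have kok : D0.k.Ok := Dt.kf_ok hD.T hD.k
  have kq := Dt.kq hD.T hD.k
  have gp := gp_of (V := V) hp hg (C.pd (xe x) (P0 V))
  simp only [Pt.ok, Bool.and_eq_true, decide_eq_true_eq] at hc
  obtain ⟨nok, c1, c2, c3, c4, c5, c6, c7, c8, c9, c10, c11, c12, c13, c14, p1, p2, p3, p4, p5,
    p6⟩ := hc
  have good := Pn.good nok
  have α0 : (0 : ℝ) ≤ c.α := by exact_mod_cast c1
  have t0 : 0 ≤ t := α0.trans ht.1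
  have τ1 : (c.τ : ℝ) ≤ bt := by unfold bt; exact_mod_cast hτ
  have ht' : t ∈ Icc (0 : ℝ) (c.τ : ℝ) := ⟨t0, ht.2⟩
  have htb : t ∈ Icc (0 : ℝ) bt := ⟨t0, ht.2.trans τ1⟩
  have τ0 : (0 : ℝ) ≤ c.τ := t0.trans ht.2
  have gg := t1g_of hp hg hq ho hl hG τ0 τ1
  have eγ : (c.n.γ : ℝ) = c.τ := by exact_mod_cast c5
  have hfc := kq.fc
  have kc1 : pv l.kc t ≤ c.kv := by
    have h := nn_sub p2 ht
    simpa [pv] using h
  have K1 : (1 + (l.ee : ℝ) * c.τ) * c.kv ≤ c.K := by exact_mod_cast c4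
  have kv1 : (1 : ℝ) ≤ c.kv := by exact_mod_cast c3
  have ee0 : (0 : ℝ) ≤ l.ee := gg.ee0
  have K0 : (0 : ℝ) ≤ c.K := by
    refine le_trans ?_ K1
    have := mul_nonneg ee0 τ0
    exact mul_nonneg (by linarith) (by linarith)
  have al1 : pv g.al t ≤ (c.n.α : ℝ) := by
    have h := nn_sub p6 ht
    rw [ho.al] at h
    simpa [pv] using h
  -- the integrals of the density
  have eP : ∀ q s, (∫ r in (0 : ℝ)..s, pv q r) = pv (pri q) s := fun q s => int_pri q s
  have aP : l.P0 = pri l.p0 ∧ l.P1 = pri l.p1 ∧ l.P2 = pri l.p2 ∧ l.Q0 = pri l.q0 := by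
    simp only [T1l.ax, Bool.and_eq_true, decide_eq_true_eq, and_assoc] at hl
    exact ⟨hl.2.1, hl.2.2.1, hl.2.2.2.1, hl.2.2.2.2.1⟩
  have He0 : (c.kv : ℝ) * (∫ s in (0 : ℝ)..(c.τ : ℝ), pv l.p0 s)
      - (∫ s in (0 : ℝ)..(c.τ : ℝ), pv l.q0 s) ≤ c.e0 := by
    rw [eP, eP, ← aP.1, ← aP.2.2.2, ← evq_pv, ← evq_pv]
    exact_mod_cast c10
  have He1 : (c.kv : ℝ) * (∫ s in (0 : ℝ)..(c.τ : ℝ), pv l.p1 s)
      - (∫ s in (0 : ℝ)..(c.τ : ℝ), pv l.p2 s) ≤ c.e1 := by
    rw [eP, eP, ← aP.2.1, ← aP.2.2.1, ← evq_pv, ← evq_pv]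
    exact_mod_cast c11
  have e10 : (0 : ℝ) ≤ c.e1 := by exact_mod_cast c12
  have e00 : (0 : ℝ) ≤ c.e0 := by exact_mod_cast c13
  have hn1 : (1 + (l.ee : ℝ) * c.τ) * ((c.e0 : ℝ) + c.e1 / 2) ≤ c.n.e1 := by exact_mod_cast c14
  have hs : Ps1 D0.k D0.κd (fun w t => (1 + w * t) * pv g.al t) t c.n.α c.n.γ c.mt c.n.Cj
      c.n.e1 := by
    refine
      { A1 := fun w hw' => ?_
        α0 := good.α0
        γ0 := good.γ0
        γ1 := ?_
        m1 := by exact_mod_cast c6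
        mt1 := by exact_mod_cast c7
        m2 := by exact_mod_cast c8
        a1 := by exact_mod_cast c9
        cj := fun q hq' => ?_
        C0 := good.C0
        ε := fun z hz w hw' => ?_
        e0 := good.e0 }
    · have a0 := gp.a0 t htb
      have w1 : 0 ≤ 1 + w * t := by
        have := mul_nonneg hw'.1 t0
        linarith
      have w2 : 1 + w * t ≤ 1 + c.n.γ * w := by
        have := mul_le_mul_of_nonneg_left ht.2 hw'.1
        rw [eγ]
        linarith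
      show (1 + w * t) * pv g.al t ≤ _
      calc (1 + w * t) * pv g.al t ≤ (1 + c.n.γ * w) * c.n.α :=
            mul_le_mul w2 al1 a0 (w1.trans w2)
        _ = _ := mul_comm _ _
    · rw [eγ]
      exact τ1.trans bt_le
    · have h := nn_sub p1 (t := q) (by simpa using hq')
      simp only [pv_lmul, pv_lsmul, pv] at h
      push_cast at h
      refine le_trans (le_of_eq ?_) (h.trans (le_of_eq ?_)) <;> ring
    · have e : (∫ s in (0 : ℝ)..t, D0.k.fh z s * (D0.κd w t s - D0.k.Pe w t))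
          = (1 + w * t) * (1 + l.ee * t)
            * ∫ s in (0 : ℝ)..t, D0.k.fh z s * (pv l.kc t * pv l.ke s - 1) := by
        rw [← intervalIntegral.integral_const_mul]
        refine intervalIntegral.integral_congr fun s _ => ?_
        have e1 : D0.κd w t s = (1 + w * t) * (1 + l.ee * t) * (pv l.kc t * pv l.ke s) :=
          gg.κ w t s
        have e2 : D0.k.Pe w t = (1 + w * t) * (1 + l.ee * t) := gg.Pe w t
        beta_reduce
        rw [e1, e2]
        ring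
      rw [e]
      have i1 := gg.E1 hfc ht' kv1 kc1 He0 He1 e10 hz
      have e2 : 0 ≤ (c.e0 : ℝ) + c.e1 / 2 := by linarith
      have w0 : 0 ≤ (1 + w * t) * (1 + l.ee * t) := mul_nonneg (by
        have := mul_nonneg hw'.1 t0
        linarith) (by have := mul_nonneg ee0 t0; linarith)
      have w1 : (1 + w * t) * (1 + l.ee * t) ≤ (1 + c.n.γ * w) * (1 + l.ee * c.τ) := by
        have a1 := mul_le_mul_of_nonneg_left ht.2 hw'.1
        have a2 := mul_le_mul_of_nonneg_left ht.2 ee0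
        rw [eγ]
        exact mul_le_mul (by linarith) (by linarith)
          (by have := mul_nonneg ee0 t0; linarith) (by have := mul_nonneg τ0 hw'.1; linarith)
      have g1 : 0 ≤ 1 + c.n.γ * w := by
        have := mul_nonneg good.γ0 hw'.1
        linarith
      calc _ ≤ (1 + w * t) * (1 + l.ee * t) * ((c.e0 : ℝ) + c.e1 / 2) :=
            mul_le_mul_of_nonneg_left i1 w0
        _ ≤ (1 + c.n.γ * w) * (1 + l.ee * c.τ) * ((c.e0 : ℝ) + c.e1 / 2) :=
            mul_le_mul_of_nonneg_right w1 e2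
        _ = (1 + (l.ee : ℝ) * c.τ) * ((c.e0 : ℝ) + c.e1 / 2) * (1 + c.n.γ * w) := by ring
        _ ≤ _ := mul_le_mul_of_nonneg_right hn1 g1
  -- the rows
  set κ0 : ℝ → ℝ := fun s => pc.K * pv l.ke s with hκ0
  set Fs : ℝ → ℝ := fun s => pc.K * pv (pri l.p0) s with hFs
  have eK : (pc.K : ℝ) = c.K := by exact_mod_cast hK
  have sub : ∀ s ∈ Icc 0 t, s ∈ Icc (0 : ℝ) c.τ := fun s hs => ⟨hs.1, hs.2.trans ht.2⟩
  have cCl : ContinuousOn (pv l.Cl) (Icc 0 t) := (continuous_pv _).continuousOn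
  have c2 : ∀ L : List (List ℚ), ∀ q : ℝ, ContinuousOn (fun s => pv2 L q (pv l.Cl s)) (Icc 0 t) :=
    fun L q => (pv2_cn L q).comp_continuousOn cCl
  have hPw : ∀ a b, P0 V a → P0 V b → a ≠ b → Pw (xe x) (P0 V) D0.k D0.κd (D0.R x) D0.L D0.Lt
      a b t c.n.γ κ0 Fs (pv l.mb) (fun q s => pv2 pc.l1 q (pv l.Cl s))
      (fun q s => pv2 pc.l2 q (pv l.Cl s)) (fun q s => pv2 pc.h1 q (pv l.Cl s))
      (fun q s => pv2 pc.h2 q (pv l.Cl s)) := by
    intro a b ha hb hab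
    have hrr := hr a b ha hb hab
    refine
      { γ0 := good.γ0
        cκ0 := continuousOn_const.mul (continuous_pv _).continuousOn
        k0 := fun s hs => ?_
        hκ := fun w hw' s hs => ?_
        cFs := continuousOn_const.mul (continuous_pv _).continuousOn
        Fs0 := fun s hs => ?_
        hF := fun d _ s hs => ?_
        cρ := (continuous_pv _).continuousOn
        ρ0 := fun s hs => zero_le_one.trans (gg.m1 s (sub s hs))
        hR := fun d s hs => ?_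
        cl1 := fun q _ => c2 _ q
        cl2 := fun q _ => c2 _ q
        ch1 := fun q _ => c2 _ q
        ch2 := fun q _ => c2 _ q
        r1 := hrr.r1
        r2 := hrr.r2
        r3 := hrr.r3
        r4 := hrr.r4
        pd := fun c d hd hbd s _ => Lc_pend hd hbd t s }
    · rw [hκ0, eK]
      exact mul_nonneg K0 (zero_le_one.trans (gg.ke1 s (sub s hs)))
    · have e1 : D0.κd w t s = (1 + w * t) * (1 + l.ee * t) * (pv l.kc t * pv l.ke s) :=
        gg.κ w t s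
      rw [e1, hκ0, eK]
      have ke0 := zero_le_one.trans (gg.ke1 s (sub s hs))
      have kt : (1 + l.ee * t) * pv l.kc t ≤ c.K := by
        have h1 := gg.kc1 t ht'
        have h3 := mul_le_mul_of_nonneg_left ht.2 ee0
        refine le_trans ?_ K1
        exact mul_le_mul (by linarith) kc1 (by linarith) (by
          have := mul_nonneg ee0 τ0
          linarith)
      have w1 : 1 + w * t ≤ 1 + c.n.γ * w := by
        have a1 := mul_le_mul_of_nonneg_left ht.2 hw'.1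
        rw [eγ]
        linarith
      have w0 : 0 ≤ 1 + w * t := by
        have := mul_nonneg hw'.1 t0
        linarith
      have b0 : 0 ≤ (1 + l.ee * t) * pv l.kc t := mul_nonneg (by
        have := mul_nonneg ee0 t0; linarith) (zero_le_one.trans (gg.kc1 t ht'))
      have key := mul_le_mul w1 kt b0 (w0.trans w1)
      have := mul_le_mul_of_nonneg_right key ke0
      calc _ = (1 + w * t) * ((1 + l.ee * t) * pv l.kc t) * pv l.ke s := by ring
        _ ≤ _ := this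
        _ = _ := by ring
    · rw [hFs, eK]
      refine mul_nonneg K0 ?_
      rw [← eP]
      exact intervalIntegral.integral_nonneg hs.1 fun r hr =>
        (gg.p0n ⟨hr.1, hr.2.trans (sub s hs).2⟩).2
    · have hs' := sub s hs
      rw [hκ0, hFs]
      beta_reduce
      rw [eK, ← eP]
      by_cases hd : P0 V d
      · have := gg.F1 hfc K0 (x_mem hwt b d) hs'
        refine le_trans (le_of_eq ?_) this
        refine intervalIntegral.integral_congr fun r _ => ?_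
        unfold fq
        rw [if_pos hd]
        rfl
      · rw [← intervalIntegral.integral_const_mul]
        have m0 : (0 : ℝ) ∈ Icc 0 s := ⟨le_rfl, hs.1⟩
        have ms : s ∈ Icc 0 s := ⟨hs.1, le_rfl⟩
        have cq : ContinuousOn (fun r : ℝ => ((1 + r) ^ 2)⁻¹) (Icc 0 s) :=
          ContinuousOn.inv₀ (by fun_prop) fun r hr => by
            have := hr.1
            positivity
        refine intervalIntegral.integral_mono_on hs.1 ?_
          (ii_of hs.1 (continuousOn_const.mul (continuous_pv _).continuousOn) m0 ms)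
          fun r hr => ?_
        · have e : (fun r => fq (xe x) (P0 V) D0.k.fh b d r * (c.K * pv l.ke r))
              = fun r => ((1 + r) ^ 2)⁻¹ * (c.K * pv l.ke r) := by
            funext r
            unfold fq
            rw [if_neg hd]
            rfl
          rw [e]
          exact ii_of hs.1 (cq.mul (continuousOn_const.mul (continuous_pv _).continuousOn)) m0 ms
        · have hr' : r ∈ Icc (0 : ℝ) c.τ := ⟨hr.1, hr.2.trans hs'.2⟩
          have e : fq (xe x) (P0 V) D0.k.fh b d r = ((1 + r) ^ 2)⁻¹ := by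
            unfold fq
            rw [if_neg hd]
            rfl
          rw [e]
          have i1 := (gg.p0n hr').1
          have i2 := gg.b01 r hr'
          have q := gg.q0' hr'
          have k1 := zero_le_one.trans (gg.ke1 r hr')
          have i3 : ((1 + r) ^ 2)⁻¹ * pv l.ke r ≤ pv l.p0 r := by
            refine le_trans ?_ i1
            have := mul_le_mul_of_nonneg_right i2 (mul_nonneg q.le k1)
            calc _ = 1 * (((1 + r) ^ 2)⁻¹ * pv l.ke r) := by ring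
              _ ≤ _ := this
              _ = _ := by ring
          calc _ = c.K * (((1 + r) ^ 2)⁻¹ * pv l.ke r) := by ring
            _ ≤ _ := mul_le_mul_of_nonneg_left i3 K0
    · have h1 : D0.R x a b d t s ≤ D0.Z.hh (xe x) (P0 V) s b d := min_le_left _ _
      have h2 := hp.z.hh_le (P := P0 V) hwt (s := s) ⟨hs.1, hs.2.trans htb.2⟩ b d
      rw [ho.mb]
      exact h1.trans h2
  have t1p : 0 < 1 + t := by linarith
  have hgf : ∀ y ∈ Icc (0 : ℝ) 1, (1 + t) * D0.k.fh y t ≤ c.n.gf y := by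
    intro y hy
    have e : (1 + t) * D0.k.fh y t = D0.k.b y t * (1 + t)⁻¹ := by
      unfold Kf.fh
      field_simp
    have eb : D0.k.b y t = 1 + (1 - y) * (pv l.be0 t - 1) + eta y * pv l.be1 t := gg.b y t
    rw [e, eb, b_chp, ← div_eq_mul_inv, div_le_iff₀ t1p]
    have i1 := nn_sub p3 ht
    have i2 := nn_sub p4 ht
    have i3 := nn_sub p5 ht
    simp only [pv_ladd, pv_lsmul, pv] at i1 i2 i3
    push_cast at i1 i2 i3
    have e2 : c.n.gf y * (1 + t) = chp (c.n.g0 * (1 + t)) (c.n.gh * (1 + t))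
        (c.n.g1 * (1 + t)) y := by
      unfold Pn.gf
      rcases le_total y (1 / 2) with h1 | h1
      · rw [Pn.chp_lo h1, Pn.chp_lo h1]; ring
      · rw [Pn.chp_hi h1, Pn.chp_hi h1]; ring
    rw [e2]
    exact chp_mono hy (by linarith) (by linarith) (by linarith)
  -- the weights
  set θ : ℝ → ℝ := fun s => (w.th : ℝ) * ((1 + s) ^ 2)⁻¹ with hθ
  have hwc := hw
  simp only [Pg.ok, Bool.and_eq_true, decide_eq_true_eq] at hwc
  have th0 : (0 : ℝ) < w.th := by exact_mod_cast hwc.1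
  have thh0 : (0 : ℝ) < w.thh := by exact_mod_cast hwc.2.1
  have q1 : ∀ s ∈ Icc 0 t, (0 : ℝ) < (1 + s) ^ 2 := fun s hs => by have := hs.1; positivity
  have cθ : ContinuousOn θ (Icc 0 t) := continuousOn_const.mul
    (ContinuousOn.inv₀ (by fun_prop) fun s hs => (q1 s hs).ne')
  have θ0 : ∀ s ∈ Icc 0 t, 0 < θ s := fun s hs => mul_pos th0 (inv_pos.2 (q1 s hs))
  have hpi := pi_of (n := c.n) gg (by
    have : ((btq : ℚ) : ℝ) ≤ (τg : ℝ) := by exact_mod_cast hτg
    exact τ1.trans this) hw hpc ht' hU n1 n2 n3 n4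
  have cfh : ∀ y ∈ Icc (0 : ℝ) 1, ContinuousOn (D0.k.fh y) (Icc 0 t) := fun y hy =>
    (hfc y hy).mono (Icc_subset_Icc_right htb.2)
  have hPv : ∀ u y z : ℝ, 0 ≤ u → 0 ≤ y → 0 ≤ z → u + y ≤ 1 → u + z ≤ 1 → y + z ≤ 1 →
      Pv D0.k c.n.gf t c.n.α c.n.γ c.n.Cj c.n.e1 κ0 Fs (pv l.mb)
        (fun q s => pv2 pc.l1 q (pv l.Cl s)) (fun q s => pv2 pc.l2 q (pv l.Cl s))
        (fun q s => pv2 pc.h1 q (pv l.Cl s)) (fun q s => pv2 pc.h2 q (pv l.Cl s)) θ
        (fun _ => w.thh) u y z ≤ c.n.Sd u y z := fun u y z h1 h2 h3 h4 h5 h6 =>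
    Pv_le good hpi t0 (continuousOn_const.mul (continuous_pv _).continuousOn)
      (continuousOn_const.mul (continuous_pv _).continuousOn) (continuous_pv _).continuousOn cθ
      continuousOn_const θ0 (fun _ _ => thh0) (fun q _ => c2 _ q) (fun q _ => c2 _ q)
      (fun q _ => c2 _ q) (fun q _ => c2 _ q) cfh h1 h2 h3 h4 h5 h6
  refine pp_abs hs hf hwt kok hfc hD.k.cPe gp.ab htb ha hb hab (hPw a b ha hb hab)
    (hPw b a hb ha hab.symm) cθ continuousOn_const θ0 (fun _ _ => thh0) hgf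
    (kb := Pn.kbn LA LB) (by unfold Pn.kbn; simp) fun u y z h1 h2 h3 h4 h5 h6 => ?_
  have e1 := hPv u y z h1 h2 h3 h4 h5 h6
  have e2 := hPv u z y h1 h3 h2 h5 h4 (by linarith)
  exact (add_le_add e1 e2).trans (Pn.fin hA hB h1 h2 h3 h4 h5 h6)

end Pool.Agent.RX.RCN.K
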