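import Pool.Agent.RX.RCN.CkQ
import Pool.Agent.RX.RCN.DrT
import Pool.Agent.RX.RCN.One_1
import Pool.Agent.RX.RCN.PpT
import Pool.Agent.RX.RCN.PqB
import Pool.Agent.RX.RCN.YlC

/-! The inequality of the pairs: the rows and columns of the closures of the frame, second form
(MP_73ccd0_lc, route M). -/

namespace Pool.Agent.RX.RCN.K

open Set Finset MeasureTheory Pool.Agent.RX.RCRSHalf Pool.Agent.RX.RCG Pool.Agent.RX.RCG.Ct
open Pool.Agent.RX.RCN.Ker Pool.Agent.RX.RCRS Pool.Agent.RX.RCM9 Pool.Agent.RX.RCM9.Bern Pool.Agent.RX.RCM9.Pk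
open Pool.Agent.RX.RCN.Ck1

set_option linter.unusedSectionVars false

section rows

variable {V : Type*} [Fintype V] [DecidableEq V] {p : Ps} {x : V → V → ℝ} {P : V → Prop}
  [DecidablePred P] {g : MDat} {gr : ℕ → MGr} {Hp Hm GR HR : List (List ℚ)} {N : ℕ}
  {G : ℕ → V → V → Fm V} {H : ℕ → V → Fm V} {bB Uo : ℚ} {l : Yl} {k : Nl} {d : Dl}
  {nb la : List ℚ}

/-- the exponents of the one class frame -/
theorem Lc_S {a b c d : V} {t s A : ℝ} (hs : s ≤ cb N (ci N t)) (A0 : 0 ≤ A)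
    (h : LdS p.z.hz (p.y.lz2 p.z x P a b (cb N (ci N t)) (cb N (ci N t))) x P (pv p.lo)
      (G (ci N t) a b) (cb N (ci N t)) {a, b} c d t s ≤ A) :
    Lc P (p.cO x P N G) a b c d t s ≤ A := by
  unfold Lc
  split_ifs
  · show max 0 ((p.cO x P N G).L (ci N t) 0 a b c d t (min s (cb N (ci N t)))) ≤ _
    rw [min_eq_left hs]
    show max 0 (if Pnd x P b d then (0 : ℝ) else LdS p.z.hz
      (p.y.lz2 p.z x P a b (cb N (ci N t)) (cb N (ci N t))) x P (pv p.lo) (G (ci N t) a b)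
      (cb N (ci N t)) {a, b} c d t s) ≤ _
    split_ifs
    · rw [max_self]; exact A0
    · exact max_le A0 h
  · exact A0

theorem Lr_S {a b c d : V} {t s A : ℝ} (hs : s ≤ cb N (ci N t)) (A0 : 0 ≤ A)
    (h : LtS p.z.hz (p.y.lz2 p.z x P a b (cb N (ci N t)) (cb N (ci N t))) x P (pv p.lo)
      (G (ci N t) a b) (cb N (ci N t)) {a, b} c d t s ≤ A) :
    Lr P (p.cO x P N G) a b c d t s ≤ A := by
  unfold Lr
  split_ifs
  · show max 0 ((p.cO x P N G).Lt (ci N t) 0 a b c d t (min s (cb N (ci N t)))) ≤ _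
    rw [min_eq_left hs]
    show max 0 (if Pnd x P b d then (0 : ℝ) else LtS p.z.hz
      (p.y.lz2 p.z x P a b (cb N (ci N t)) (cb N (ci N t))) x P (pv p.lo) (G (ci N t) a b)
      (cb N (ci N t)) {a, b} c d t s) ≤ _
    split_ifs
    · rw [max_self]; exact A0
    · exact max_le A0 h
  · exact A0

/-- a pair of vertices whose closure exponent is controlled -/
def Cp2 (x : V → V → ℝ) (P : V → Prop) (c d : V) : Prop := (P c ∧ P d) ∨ x c d = 0

/-- **the sums of the exponents over controlled pairs** -/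
theorem ro_core {U : ℝ} (hp : p.Ok) (hx : Wt x P 1) (N0 : 0 < N)
    (hF : Fct p x P g gr Hp Hm N G H) (hFr : Fcr p x P GR HR N G H) (hck0 : Ckp p g.y g.B)
    {t : ℝ} (ht : t ∈ Icc (0 : ℝ) bt)
    (hD : Dg p g gr N (ci N t) d l k nb la Uo) (hU : U = p.Cc (cb N (ci N t))) (U0 : 0 < U)
    {z : Zl} {D2 : ℤ} {n2 : ℕ} (hz : z.ok l D2 n2 = true) (dlt0 : 0 ≤ l.dlt) (kp0 : 0 ≤ d.kp)
    {a b : V} (ha : P a) (hb' : P b) (hab : a ≠ b) {s : ℝ} (hs : s ∈ Icc 0 t)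
    {L Lt : V → V → ℝ}
    (hL : ∀ c d, (L c d = 0) ∨ (L c d = Lc P (p.cO x P N G) a b c d t s ∧ Cp2 x P c d))
    (hLt : ∀ c d, (Lt c d = 0) ∨ (Lt c d = Lr P (p.cO x P N G) a b c d t s ∧ Cp2 x P c d)) :
    (∀ c ∈ ({a, b} : Finset V)ᶜ, ∑ e ∈ ({a, b, c} : Finset V)ᶜ, L c e
      ≤ (1 - (x a c + x b c)) * (l.yf U).po1 z.y.yg (z.j.jc 0 0 U) (z.n.jc 1 0 U)
        (pv (pri l.μ1)) (pv (pri (pri l.μ1))) (fun k => pv2 GR k U) d.kp U
        (U - p.Cc s) (x a c + x b c)) ∧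
    (∀ c ∈ ({a, b} : Finset V)ᶜ, ∑ e ∈ ({a, b, c} : Finset V)ᶜ, L e c
      ≤ (1 - (x a c + x b c)) * (l.yf U).po2 (pv (pri l.R)) (pv (pri (pri l.R)))
        (fun k => pv2 GR k U) d.kp U (U - p.Cc s) (x a c + x b c)) ∧
    (∀ c ∈ ({a, b} : Finset V)ᶜ, ∑ e ∈ ({a, b, c} : Finset V)ᶜ, Lt c e
      ≤ (1 - (x a c + x b c)) * (pv d.dR (p.Cc s)
        + (l.yf U).po1 z.y.yg (z.j.jc 0 0 U) (z.n.jc 1 0 U)
        (pv (pri l.μ1)) (pv (pri (pri l.μ1))) (fun k => pv2 GR k U) d.kp U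
        (U - p.Cc s) (x a c + x b c)
        + (l.yf U).cT z.y.yg (z.j.jc 0 0 U) (z.n.jc 1 0 U) U (U - p.Cc s) (x a c + x b c))) ∧
    (∀ c ∈ ({a, b} : Finset V)ᶜ, ∑ e ∈ ({a, b, c} : Finset V)ᶜ, Lt e c
      ≤ (1 - (x a c + x b c)) * (pv d.dR (p.Cc s)
        + (l.yf U).po2 (pv (pri l.R)) (pv (pri (pri l.R)))
        (fun k => pv2 GR k U) d.kp U (U - p.Cc s) (x a c + x b c)
        + (l.yf U).rT (U - p.Cc s) (x a c + x b c))) := by
  have hi := ci_lt N0 ht.2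
  have hm := ci_mem N0 ht.1 ht.2
  have cb0 : 0 ≤ cb N (ci N t) := cb_nn N _
  set τ : ℝ := cb N (ci N t) with hτd
  have τb' : τ ∈ Icc (0 : ℝ) bt := ⟨cb0, cb_le_bt hi⟩
  obtain ⟨Dd', nd', hdl⟩ := hD.hc
  obtain ⟨Dk, nk, hkk⟩ := hD.hk
  obtain ⟨Dl', nl', hll⟩ := hD.hl
  have fa := Dl.fa_of hdl hkk
  have UU : U ≤ l.Ug := by
    rw [hU]
    exact hD.Cv.trans fa.CU
  have hf := Yl.ok_of hll hD.fx U0 UU
  simp only [Zl.ok, Bool.and_eq_true] at hz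
  obtain ⟨hzy, hzj, hzn⟩ := hz
  have hy := Yz.ok_of (U := U) hzy UU
  have hj : (z.j.jc 0 0 U).Fk (l.yf U) 0 0 (z.y.yg.P1 (l.yf U)) z.y.yg.P2 := by
    have := Yv.ok_of hf hzy hzj UU le_rfl le_rfl
      (fun u => (Yz.pv_p1 (U := U) u).symm) (fun u => (Yz.pv_p2 u).symm)
    simpa using this
  have hn : (z.n.jc 1 0 U).Fk (l.yf U) 1 0 (fun _ => 0) (fun _ => 0) := by
    have := Yv.ok_of (P1 := fun _ => 0) (P2 := fun _ => 0) hf hzy hzn UU
      zero_le_one le_rfl (fun u => by simp [pv]) (fun u => by simp [pv])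
    simpa using this
  have c00 : p.Cc 0 = 0 := pri_zero _
  have w := hF.dw hp hx hi ha hb' hab hck0 hD
  have hcl := hF.cl _ hi a b ha hb' hab
  have hWx := w.wx
  rw [← hτd, ← hU] at hWx
  have hs0 : s ∈ Icc (0 : ℝ) τ := ⟨hs.1, hs.2.trans hm.2⟩
  have t0 : 0 ≤ t := ht.1
  have hus : U - p.Cc s ∈ Icc 0 U := hWx.um s hs0
  have Cs0 : p.Cc s ∈ Icc (0 : ℝ) d.Cv := by
    refine ⟨by linarith [hus.2], ?_⟩
    have h1 : U ≤ d.Cv := by rw [hU]; exact hD.Cv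
    linarith [hus.1]
  have Θ0 : 0 ≤ pv d.dR (p.Cc s) := fa.dR0 _ Cs0
  have kp0' : (0 : ℝ) ≤ d.kp := by exact_mod_cast kp0
  have dlt0' : (0 : ℝ) ≤ l.dlt := by exact_mod_cast dlt0
  have kxe : ∀ d, RCM.kx x {a, b} d = x a d + x b d := fun d => by
    unfold RCM.kx
    rw [Finset.sum_pair hab]
  have dme : ∀ d, dmp x {a, b} d = 1 - (x a d + x b d) := fun d => by
    rw [dmp_eq, kxe]
  have hk1 : ∀ d, RCM.kx x {a, b} d ∈ Icc (0 : ℝ) 1 := fun d => kx_mem hx {a, b} d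
  have d0 : ∀ d, 0 ≤ 1 - RCM.kx x {a, b} d := fun d => by linarith [(hk1 d).2]
  have gb : ∀ e, (1 - RCM.kx x {a, b} e) * pv2 GR (RCM.kx x {a, b} e) (p.Cc τ)
      ≤ dmp x {a, b} e * pv2 GR (RCM.kx x {a, b} e) U := fun e => by
    rw [dmp_eq, ← hU]
  have Dd : ∀ d, ({a, b, d} : Finset V)ᶜ = (({a, b} : Finset V)ᶜ).erase d :=
    fun d => by
      ext z
      simp only [Finset.mem_compl, Finset.mem_insert, Finset.mem_singleton, not_or,
        Finset.mem_erase]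
      tauto
  have nn1 : ∀ c e, 0 ≤ N2 p.z.hz (p.F2 x P N (ci N t) a b) x P {a, b} t s t c e 0 :=
    fun c e => N2_nonneg (hp.z.ok hp.d) hx t s ⟨t0, ht.2⟩ c e
  have nn2 : ∀ c e, 0 ≤ N2 p.z.hz (p.F2 x P N (ci N t) a b) x P {a, b} t s s e c 0 :=
    fun c e => N2_nonneg (hp.z.ok hp.d) hx t s ⟨hs.1, hs.2.trans ht.2⟩ e c
  have xs := fun (c e : V) (hc : c ∈ ({a, b} : Finset V)ᶜ) (he : e ∈ ({a, b} : Finset V)ᶜ)
    (hce : c ≠ e) => hF.xs0 hp hx hi ha hb' hab (κ := (d.kp : ℝ)) kp0' hs0 hc he hce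
  have hmτ : t ∈ Icc (ca N (ci N t)) (cb N (ci N t)) := hm
  have dir := fun (c e : V) (hc : c ∈ ({a, b} : Finset V)ᶜ) (he : e ∈ ({a, b} : Finset V)ᶜ)
    (hce : c ≠ e) (hP : Cp2 x P c e) =>
    hF.dir hp hx hi ha hb' hab hck0 hD (t := t) (s := s) hmτ hs hc he hce hP
  have ro := ro_ofB (D := {a, b}) (A := {a}) (F := p.F2 x P N (ci N t) a b)
    (G := G (ci N t) a b) (α := ca N (ci N t)) (τ := τ) (sg := τ)
    (u := fun r => U - p.Cc r) (M1 := pv (pri l.μ1)) (M2 := pv (pri (pri l.μ1)))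
    (R1 := pv (pri l.R)) (R2 := pv (pri (pri l.R)))
    hf (l.co U) dlt0' hp.g.cf (hp.z.ok hp.d) hx hWx
    (hF.gs _ hi a b ha hb' hab) hcl.cl.kj.ctn hcl.cl.kF w.tk (rB_cont p τ) hm hs
    hs0.2 (by rw [hU, sub_self]) (fun v _ => hasDerivAt_pri _ _) (fun v _ => hasDerivAt_pri _ _)
    (fun v _ => hasDerivAt_pri _ _) (fun v _ => hasDerivAt_pri _ _) hy hj hn
    (gR := fun c e => gmR p.z.hz (p.F2 x P N (ci N t) a b) x P (G (ci N t) a b) c e τ)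
    (gm := fun k => pv2 GR k U) (kp := (d.kp : ℝ)) kp0'
    (fun e he => (hF.gR1 hFr hx hi ha hb' hab he).trans (gb e))
    (fun e he => (hF.gR2 hFr hx hi ha hb' hab he).trans (gb e))
    (L := L) (Lt := Lt) (Θ := pv d.dR (p.Cc s)) Θ0
    (fun c hc e he hce => by
      have h1 := (xs c e hc he hce).1
      have h0 : 0 ≤ N2 p.z.hz (p.F2 x P N (ci N t) a b) x P {a, b} t s t c e 0
          + N2 p.z.hz (p.F2 x P N (ci N t) a b) x P {a, b} t s s e c 0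
          + XSD p.z.hz (p.F2 x P N (ci N t) a b) x P (G (ci N t) a b) τ {a, b} d.kp s c e :=
        add_nonneg (add_nonneg (nn1 c e) (nn2 c e)) h1
      rcases hL c e with h2 | ⟨h2, h3⟩
      · rw [h2]; exact h0
      · rw [h2]
        exact Lc_S hs0.2 h0 (dir c e hc he hce h3).1)
    (fun c hc e he hce => by
      have h1 := (xs c e hc he hce).2
      have h0 : 0 ≤ N2 p.z.hz (p.F2 x P N (ci N t) a b) x P {a, b} t s t c e 0
          + N2 p.z.hz (p.F2 x P N (ci N t) a b) x P {a, b} t s s e c 0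
          + (x c e * pv d.dR (p.Cc s)
          + XST p.z.hz (p.F2 x P N (ci N t) a b) x P (G (ci N t) a b) τ {a, b} d.kp s c e) :=
        add_nonneg (add_nonneg (nn1 c e) (nn2 c e))
          (add_nonneg (mul_nonneg (hx.nonneg c e) Θ0) h1)
      rcases hLt c e with h2 | ⟨h2, h3⟩
      · rw [h2]; exact h0
      · rw [h2]
        exact Lr_S hs0.2 h0 ((dir c e hc he hce h3).2.trans (le_of_eq (add_assoc _ _ _))))
  have e1 : U - p.Cc 0 = U := by rw [c00, sub_zero]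
  simp only [e1, dme, kxe] at ro
  obtain ⟨q1, q2, q3, q4⟩ := ro
  refine ⟨fun c hc => ?_, fun c hc => ?_, fun c hc => ?_, fun c hc => ?_⟩
  · rw [Dd c]; exact q1 c hc
  · rw [Dd c]; exact q2 c hc
  · rw [Dd c]; exact q3 c hc
  · rw [Dd c]; exact q4 c hc

/-- **the rows and columns of the frame from bounds of the four functions, second form** -/
theorem rq_coreB {U : ℝ} (hp : p.Ok) (hx : Wt x P 1) (N0 : 0 < N)
    (hF : Fct p x P g gr Hp Hm N G H) (hFr : Fcr p x P GR HR N G H) (hck0 : Ckp p g.y g.B)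
    {t : ℝ} (ht : t ∈ Icc (0 : ℝ) bt)
    (hD : Dg p g gr N (ci N t) d l k nb la Uo) (hU : U = p.Cc (cb N (ci N t))) (U0 : 0 < U)
    {z : Zl} {D2 : ℤ} {n2 : ℕ} (hz : z.ok l D2 n2 = true) (dlt0 : 0 ≤ l.dlt) (kp0 : 0 ≤ d.kp)
    {f1 f2 f3 f4 : ℝ → ℝ → ℝ}
    (hb : ∀ k ∈ Icc (0 : ℝ) 1, ∀ v ∈ Icc (0 : ℝ) U,
      (l.yf U).po1 z.y.yg (z.j.jc 0 0 U) (z.n.jc 1 0 U) (pv (pri l.μ1)) (pv (pri (pri l.μ1)))
        (fun k => pv2 GR k U) d.kp U (U - v) k ≤ f1 k v ∧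
      (l.yf U).po2 (pv (pri l.R)) (pv (pri (pri l.R)))
        (fun k => pv2 GR k U) d.kp U (U - v) k ≤ f2 k v ∧
      pv d.dR v + (l.yf U).po1 z.y.yg (z.j.jc 0 0 U) (z.n.jc 1 0 U) (pv (pri l.μ1))
          (pv (pri (pri l.μ1))) (fun k => pv2 GR k U) d.kp U (U - v) k
        + (l.yf U).cT z.y.yg (z.j.jc 0 0 U) (z.n.jc 1 0 U) U (U - v) k ≤ f3 k v ∧
      pv d.dR v + (l.yf U).po2 (pv (pri l.R)) (pv (pri (pri l.R)))
          (fun k => pv2 GR k U) d.kp U (U - v) k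
        + (l.yf U).rT (U - v) k ≤ f4 k v)
    {a b : V} (ha : P a) (hb' : P b) (hab : a ≠ b) :
    Rq x P (Lc P (p.cO x P N G)) (Lr P (p.cO x P N G)) a b t
      (fun q s => f1 q (p.Cc s)) (fun q s => f2 q (p.Cc s))
      (fun q s => f3 q (p.Cc s)) (fun q s => f4 q (p.Cc s)) := by
  have hi := ci_lt N0 ht.2
  have hm := ci_mem N0 ht.1 ht.2
  have hk : ∀ d, x a d + x b d ∈ Icc (0 : ℝ) 1 := fun d => by
    have := kx_mem hx ({a, b} : Finset V) d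
    unfold RCM.kx at this
    rwa [Finset.sum_pair hab] at this
  have d0 : ∀ d, 0 ≤ 1 - (x a d + x b d) := fun d => by linarith [(hk d).2]
  have key := fun (s : ℝ) (hs : s ∈ Icc 0 t) =>
    ro_core hp hx N0 hF hFr hck0 ht hD hU U0 hz dlt0 kp0 ha hb' hab hs
      (L := fun c d => rP P (Lc P (p.cO x P N G)) a b c d t s)
      (Lt := fun c d => rP P (Lr P (p.cO x P N G)) a b c d t s)
      (fun c d => by
        beta_reduce
        unfold rP
        split_ifs with h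
        · exact Or.inr ⟨rfl, Or.inl h⟩
        · exact Or.inl rfl)
      (fun c d => by
        beta_reduce
        unfold rP
        split_ifs with h
        · exact Or.inr ⟨rfl, Or.inl h⟩
        · exact Or.inl rfl)
  have hv : ∀ s ∈ Icc 0 t, p.Cc s ∈ Icc (0 : ℝ) U := fun s hs => by
    have h1 := Ps.clk hp (cb_le_bt hi) (r := s) ⟨hs.1, hs.2.trans hm.2⟩
    rw [← hU] at h1
    exact ⟨by linarith [h1.2], by linarith [h1.1]⟩
  exact
    { r1 := fun c hc s hs => ((key s hs).1 c hc).trans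
        (mul_le_mul_of_nonneg_left (hb _ (hk c) _ (hv s hs)).1 (d0 c))
      r2 := fun c hc s hs => ((key s hs).2.1 c hc).trans
        (mul_le_mul_of_nonneg_left (hb _ (hk c) _ (hv s hs)).2.1 (d0 c))
      r3 := fun c hc s hs => ((key s hs).2.2.1 c hc).trans
        (mul_le_mul_of_nonneg_left (hb _ (hk c) _ (hv s hs)).2.2.1 (d0 c))
      r4 := fun c hc s hs => ((key s hs).2.2.2 c hc).trans
        (mul_le_mul_of_nonneg_left (hb _ (hk c) _ (hv s hs)).2.2.2 (d0 c)) }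

end rows

end Pool.Agent.RX.RCN.K
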