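import Pool.Agent.RX.RCN.Jn

/-! The first part of the inequality of the centres (MP_73ccd0_lc, route M). -/

namespace Pool.Agent.RX.RCN.K

open Set Finset MeasureTheory Pool.Agent.RX.RCRSHalf Pool.Agent.RX.RCG Pool.Agent.RX.RCG.Ct
open Pool.Agent.RX.RCN.Ker Pool.Agent.RX.RCM.Jen

set_option linter.unusedSectionVars false

/-! ### scalar inequalities -/

theorem vw_le {v w : ℝ} (v0 : 0 ≤ v) (w0 : 0 ≤ w) (h : v + w ≤ 1) : v * w ≤ (v + w) / 4 := by
  have h1 := mul_nonneg (add_nonneg v0 w0) (sub_nonneg.2 h)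
  nlinarith [sq_nonneg (v - w)]

/-- the condition of the concavity lemma -/
theorem mu_scalar {α γ mt u z y : ℝ} (α0 : 0 ≤ α) (γ0 : 0 ≤ γ)
    (hm : α * (1 + γ / 2) ≤ mt) (mt1 : mt ≤ 1) (hm2 : mt * γ ≤ 1 - mt + γ / 4)
    (u0 : 0 ≤ u) (z0 : 0 ≤ z) (y0 : 0 ≤ y) (y1 : y ≤ 1) (γ1 : γ ≤ 1) :
    α * ((1 + γ * u) * (1 - u - z) + γ * ((2 - 2 * u - z - y) / 4))
      ≤ mt * (1 - z * (α * (1 + γ * (u + y)))) := by
  have mt0 : 0 ≤ mt := le_trans (mul_nonneg α0 (by linarith)) hm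
  -- at `z = 0`
  have h1 : (1 + γ * u) * (1 - u) + γ * ((2 - 2 * u - y) / 4) ≤ 1 + γ / 2 := by
    have i1 : 0 ≤ u * (1 - γ + γ * u + γ / 2) := by
      refine mul_nonneg u0 ?_
      nlinarith [mul_nonneg γ0 u0]
    nlinarith [mul_nonneg γ0 y0]
  have h2 : α * ((1 + γ * u) * (1 - u) + γ * ((2 - 2 * u - y) / 4)) ≤ mt :=
    (mul_le_mul_of_nonneg_left h1 α0).trans hm
  -- the coefficient of `z`
  have h3 : 0 ≤ (1 + γ * u) + γ / 4 - mt * (1 + γ * (u + y)) := by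
    have i1 : 0 ≤ (1 - mt) * (γ * u) := mul_nonneg (by linarith) (mul_nonneg γ0 u0)
    have i2 : mt * γ * y ≤ mt * γ * 1 := mul_le_mul_of_nonneg_left y1 (mul_nonneg mt0 γ0)
    nlinarith
  have h4 := mul_nonneg (mul_nonneg z0 α0) h3
  nlinarith

/-- the bound of the amplification minus one, divided by the weight -/
noncomputable def psb (z A : ℝ) : ℝ := A * (2 - z * A) / (1 - z * A) ^ 2

theorem psb_nonneg {z A : ℝ} (A0 : 0 ≤ A) (h : z * A < 1) : 0 ≤ psb z A :=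
  div_nonneg (mul_nonneg A0 (by linarith)) (sq_nonneg _)

/-- the amplification minus one -/
theorem psi_le {z A m : ℝ} (h1 : z * A < 1) (m0 : 0 ≤ m) (hm : m ≤ z * A) :
    ((1 - m) ^ 2)⁻¹ - 1 ≤ z * psb z A := by
  have g1 : 0 < 1 - z * A := by linarith
  have hm1 : 0 < 1 - m := by linarith
  have a1 : (1 - m)⁻¹ ≤ (1 - z * A)⁻¹ := inv_anti₀ g1 (by linarith)
  have a0 : 0 ≤ (1 - m)⁻¹ := inv_nonneg.2 hm1.le
  have h3 : (1 - m)⁻¹ + ((1 - m)⁻¹) ^ 2 ≤ (1 - z * A)⁻¹ + ((1 - z * A)⁻¹) ^ 2 :=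
    add_le_add a1 (pow_le_pow_left₀ a0 a1 2)
  have e1 : ((1 - m) ^ 2)⁻¹ - 1 = m * ((1 - m)⁻¹ + ((1 - m)⁻¹) ^ 2) := by
    field_simp
    ring
  have e2 : (1 - z * A)⁻¹ + ((1 - z * A)⁻¹) ^ 2 = (2 - z * A) / (1 - z * A) ^ 2 := by
    field_simp
    ring
  have b0 : 0 ≤ (2 - z * A) / (1 - z * A) ^ 2 := div_nonneg (by linarith) (sq_nonneg _)
  rw [e1]
  refine (mul_le_mul_of_nonneg_left (h3.trans (le_of_eq e2)) m0).trans ?_
  refine (mul_le_mul_of_nonneg_right hm b0).trans (le_of_eq ?_)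
  unfold psb
  ring

variable {V : Type*} [Fintype V] [DecidableEq V]

variable {x : V → V → ℝ} {P : V → Prop} [DecidablePred P] {k : Kf} {N : ℕ}
variable {κd : ℝ → ℝ → ℝ → ℝ} {R : V → V → V → ℝ → ℝ → ℝ} {L Lt : V → V → V → V → ℝ → ℝ → ℝ}

/-- the rows without two entries -/
theorem row_two (hx : Wt x P 1) (b : V) {a : V} {c : V} (hac : a ≠ c) (S : Finset V)
    (hS : ∀ d ∈ S, d ≠ a ∧ d ≠ c) : ∑ d ∈ S, x b d ≤ 1 - x b a - x b c := by
  have ha : a ∉ insert c S := by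
    rw [Finset.mem_insert]
    rintro (h | h)
    · exact hac h
    · exact (hS a h).1 rfl
  have hc : c ∉ S := fun h => (hS c h).2 rfl
  have h1 : ∑ d ∈ insert a (insert c S), x b d ≤ ∑ d, x b d :=
    Finset.sum_le_sum_of_subset_of_nonneg (Finset.subset_univ _) fun e _ _ => hx.nonneg b e
  rw [Finset.sum_insert ha, Finset.sum_insert hc] at h1
  have := h1.trans (hx.row b)
  linarith

theorem row_one (hx : Wt x P 1) (b a : V) (S : Finset V)
    (hS : ∀ d ∈ S, d ≠ a) : ∑ d ∈ S, x b d ≤ 1 - x b a := by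
  have ha : a ∉ S := fun h => hS a h rfl
  have h1 : ∑ d ∈ insert a S, x b d ≤ ∑ d, x b d :=
    Finset.sum_le_sum_of_subset_of_nonneg (Finset.subset_univ _) fun e _ _ => hx.nonneg b e
  rw [Finset.sum_insert ha] at h1
  have := h1.trans (hx.row b)
  linarith

theorem mem3 {a b c d : V} : d ∈ ({a, b, c} : Finset V)ᶜ ↔ d ≠ a ∧ d ≠ b ∧ d ≠ c := by
  simp only [Finset.mem_compl, Finset.mem_insert, Finset.mem_singleton, not_or]

theorem mem2 {a b d : V} : d ∈ ({a, b} : Finset V)ᶜ ↔ d ≠ a ∧ d ≠ b := by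
  simp only [Finset.mem_compl, Finset.mem_insert, Finset.mem_singleton, not_or]

/-- the mass of the fluxes -/
theorem muL_le (hf : Lf N k κd R L Lt) (hx : Wt x P 1)
    (hfc : ∀ y ∈ Icc (0 : ℝ) 1, ContinuousOn (k.fh y) (Icc 0 bt)) {A : ℝ → ℝ → ℝ}
    (hA : Ab k κd A) {t : ℝ} (ht : t ∈ Icc (0 : ℝ) bt) {α γ : ℝ}
    (hα : ∀ w ∈ Icc (0 : ℝ) 1, A w t ≤ α * (1 + γ * w)) (α0 : 0 ≤ α) (γ0 : 0 ≤ γ)
    {a b c : V} (hab : a ≠ b) (hac : a ≠ c) (hbc : b ≠ c) :
    muL x P k κd a b c t t ≤ α * ((1 + γ * x a b) * (1 - x a b - x b c)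
      + γ * ((2 - 2 * x a b - x b c - x a c) / 4)) := by
  have cfq : ∀ d, ContinuousOn (fq x P k.fh b d) (Icc 0 t) := fun d =>
    (fq_cont' hfc hx b d).mono (Icc_subset_Icc_right ht.2)
  have cκ : ∀ w, ContinuousOn (κd w t) (Icc 0 t) := fun w => (hf.cκ w).slice hf.N0 ht
  have m0 : (0 : ℝ) ∈ Icc 0 t := ⟨le_rfl, ht.1⟩
  have mt : t ∈ Icc 0 t := ⟨ht.1, le_rfl⟩
  have h1 : muL x P k κd a b c t t = ∑ d ∈ ({a, b, c} : Finset V)ᶜ, x b d
      * ∫ s in (0 : ℝ)..t, fq x P k.fh b d s * κd (x a b + x a d) t s := by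
    unfold muL
    rw [intervalIntegral.integral_finsetSum]
    · refine Finset.sum_congr rfl fun d _ => ?_
      rw [← intervalIntegral.integral_const_mul]
      refine intervalIntegral.integral_congr fun s _ => ?_
      unfold flx
      ring
    · intro d _
      exact ii_of ht.1 (flx_slice hf hx hfc a b d ht) m0 mt
  have h2 : ∀ d ∈ ({a, b, c} : Finset V)ᶜ, x b d
      * (∫ s in (0 : ℝ)..t, fq x P k.fh b d s * κd (x a b + x a d) t s)
      ≤ α * ((1 + γ * x a b) * x b d + γ * ((x b d + x a d) / 4)) := by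
    intro d hd
    rw [mem3] at hd
    have hw := two_mem hx a (Ne.symm hd.2.1)
    have i1 : (∫ s in (0 : ℝ)..t, fq x P k.fh b d s * κd (x a b + x a d) t s)
        ≤ A (x a b + x a d) t := by
      by_cases hP : P d
      · have e : ∀ s, fq x P k.fh b d s = k.fh (x b d) s := fun s => by
          unfold fq; rw [if_pos hP]
        simp only [e]
        exact hA.fh _ hw _ (x_mem hx b d) t ht
      · have e : ∀ s, fq x P k.fh b d s = qq s := fun s => by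
          unfold fq; rw [if_neg hP]
        simp only [e]
        exact hA.qq _ hw t ht
    have i2 := mul_le_mul_of_nonneg_left (i1.trans (hα _ hw)) (hx.nonneg b d)
    have hvw : x b d + x a d ≤ 1 := by
      have := row_one hx d b {a} (by simpa using hab)
      rw [Finset.sum_singleton] at this
      rw [hx.symm b d, hx.symm a d]
      linarith
    have i3 := vw_le (hx.nonneg b d) (hx.nonneg a d) hvw
    have i4 := mul_le_mul_of_nonneg_left i3 (mul_nonneg α0 γ0)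
    refine i2.trans ?_
    nlinarith
  rw [h1]
  refine (Finset.sum_le_sum h2).trans ?_
  rw [← Finset.mul_sum]
  refine mul_le_mul_of_nonneg_left ?_ α0
  rw [Finset.sum_add_distrib, ← Finset.mul_sum, ← Finset.mul_sum, ← Finset.sum_div,
    Finset.sum_add_distrib]
  have r1 := row_two hx b (a := a) (c := c) hac (({a, b, c} : Finset V)ᶜ) fun d hd => by
    rw [mem3] at hd; exact ⟨hd.1, hd.2.2⟩
  have r2 := row_two hx a (a := b) (c := c) hbc (({a, b, c} : Finset V)ᶜ) fun d hd => by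
    rw [mem3] at hd; exact ⟨hd.2.1, hd.2.2⟩
  rw [hx.symm b a] at r1
  have u0 := hx.nonneg a b
  have k1 : 0 ≤ 1 + γ * x a b := by
    have := mul_nonneg γ0 u0
    linarith
  have j1 := mul_le_mul_of_nonneg_left r1 k1
  have j2 : (∑ d ∈ ({a, b, c} : Finset V)ᶜ, x b d + ∑ d ∈ ({a, b, c} : Finset V)ᶜ, x a d) / 4
      ≤ (2 - 2 * x a b - x b c - x a c) / 4 := by linarith
  have j3 := mul_le_mul_of_nonneg_left j2 γ0
  linarith

theorem E_nonneg' (hf : Lf N k κd R L Lt) (hx : Wt x P 1) (hk : k.Ok) (a : V) {b c : V}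
    (hbc : b ≠ c) {t : ℝ} (ht : t ∈ Icc (0 : ℝ) bt) :
    0 ≤ (xdOf x κd R L Lt).E x P k a b c t := by
  rw [E_eq]
  refine intervalIntegral.integral_nonneg ht.1 fun s hs' => ?_
  unfold rtL
  exact add_nonneg (mul_nonneg (mul_nonneg (hx.nonneg b c) (fq_nonneg' hk hx b c
    ⟨hs'.1, hs'.2.trans ht.2⟩)) (sub_nonneg.2 (hf.κP _ (two_mem hx a hbc) t s hs'.1
      hs'.2 ht.2)))
    (Finset.sum_nonneg fun d _ => mul_nonneg (flux_nonneg hx hk hf.κP a b d ht hs')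
      (nuL_nonneg (llL_nonneg hf hs'.1 hs'.2 ht.2)))

/-- symmetrisation -/
theorem symm_sum {u c : V → ℝ} {M : V → V → ℝ} (hM : ∀ b d, M b d = M d b)
    (hM0 : ∀ b d, 0 ≤ M b d) (hm : ∀ b d, 0 ≤ (u b - u d) * (u b * c b - u d * c d)) :
    ∑ b, ∑ d, u b * u d * c d * M b d ≤ ∑ b, ∑ d, u b ^ 2 * c b * M b d := by
  have h1 : ∑ b, ∑ d, u b * u d * c d * M b d = ∑ b, ∑ d, u b * u d * c b * M b d := by
    rw [Finset.sum_comm]
    refine Finset.sum_congr rfl fun b _ => Finset.sum_congr rfl fun d _ => ?_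
    rw [hM d b]; ring
  have h2 : ∑ b, ∑ d, u b ^ 2 * c b * M b d = ∑ b, ∑ d, u d ^ 2 * c d * M b d := by
    rw [Finset.sum_comm]
    refine Finset.sum_congr rfl fun b _ => Finset.sum_congr rfl fun d _ => ?_
    rw [hM d b]
  have h3 : ∑ b, ∑ d, (u b * u d * c d * M b d + u b * u d * c b * M b d)
      ≤ ∑ b, ∑ d, (u b ^ 2 * c b * M b d + u d ^ 2 * c d * M b d) := by
    refine Finset.sum_le_sum fun b _ => Finset.sum_le_sum fun d _ => ?_
    have := mul_nonneg (hm b d) (hM0 b d)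
    nlinarith
  simp only [Finset.sum_add_distrib] at h3
  rw [← h1, ← h2] at h3
  linarith

end Pool.Agent.RX.RCN.K
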