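import Pool.Agent.RX.RCG.CtA

/-! The algebraic skeleton of the sum bound of the walk rates (MP_73ccd0_lc, route M). -/

namespace Pool.Agent.RX.RCN.K

open Set Finset MeasureTheory Pool.Agent.RX.RCG Pool.Agent.RX.RCG.Ct

set_option linter.unusedSectionVars false

variable {V : Type*} [Fintype V] [DecidableEq V]
variable {fh : ℝ → ℝ → ℝ} {mb : ℝ → ℝ → ℝ → ℝ → ℝ} {E : V → V → V → ℝ → ℝ}
variable {x : V → V → ℝ} {P : V → Prop} [DecidablePred P]
variable {δ : ℝ} {t : ℝ}

/-- the factor of a side -/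
noncomputable def gS (fh : ℝ → ℝ → ℝ) (x : V → V → ℝ) (P : V → Prop) [DecidablePred P]
    (a d : V) (t : ℝ) : ℝ := (1 + t) * fh (xr x P a d) t

end Pool.Agent.RX.RCN.K
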