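import Pool.Agent.RX.RCM.GrP
import Pool.Agent.RX.RCN.Fin_1
import Pool.Agent.RX.RCN.Jn
import Pool.Agent.RX.RCN.T2s_1
import Pool.Agent.RX.RCN.Tred

/-! The second type: from the rates to the sum of the walk rates (MP_73ccd0_lc, route M). -/

namespace Pool.Agent.RX.RCN.K

open Set Finset MeasureTheory Pool.Agent.RX.RCRSHalf Pool.Agent.RX.RCG Pool.Agent.RX.RCG.Ct
open Pool.Agent.RX.RCN.Ker Pool.Agent.RX.RCM Pool.Agent.RX.RCM.Jen

set_option linter.unusedSectionVars false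

variable {V : Type*} [Fintype V] [DecidableEq V]
variable {x : V → V → ℝ} {P : V → Prop} [DecidablePred P] {k : Kf} {N : ℕ}
variable {κd : ℝ → ℝ → ℝ → ℝ} {R : V → V → V → ℝ → ℝ → ℝ} {L Lt : V → V → V → V → ℝ → ℝ → ℝ}

/-- the mass without the third vertex is smaller -/
theorem muL_mua (hf : Lf N k κd R L Lt) (hx : Wt x P 1) (hk : k.Ok)
    (hfc : ∀ y ∈ Icc (0 : ℝ) 1, ContinuousOn (k.fh y) (Icc 0 bt)) (a b c : V) {t s : ℝ}
    (ht : t ∈ Icc (0 : ℝ) bt) (hs : s ∈ Icc 0 t) :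
    muL x P k κd a b c t s ≤ mua x P k κd a b t s := by
  have hsub : Icc (0 : ℝ) s ⊆ Icc 0 t := Icc_subset_Icc_right hs.2
  have cF : ∀ d, ContinuousOn (flx x P k κd a b d t) (Icc 0 t) := fun d =>
    flx_slice hf hx hfc a b d ht
  refine intervalIntegral.integral_mono_on hs.1
    (iiC hs.1 (continuousOn_finsetSum _ fun d _ => (cF d).mono hsub))
    (iiC hs.1 (continuousOn_finsetSum _ fun d _ => (cF d).mono hsub)) fun r hr => ?_
  exact sum3_le fun d _ => flux_nonneg hx hk hf.κP a b d ht ⟨hr.1, hr.2.trans hs.2⟩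

/-- the linear part with the full mass -/
theorem LamL_le (hf : Lf N k κd R L Lt) (hx : Wt x P 1) (hk : k.Ok)
    (hfc : ∀ y ∈ Icc (0 : ℝ) 1, ContinuousOn (k.fh y) (Icc 0 bt)) (a b d : V) {t : ℝ}
    (ht : t ∈ Icc (0 : ℝ) bt) :
    LamL x P k κd R L Lt b a d t ≤ ∑ e ∈ ({a, b, d} : Finset V)ᶜ, ∫ s in (0 : ℝ)..t,
      (flx x P k κd b a e t s * L b a d e t s
        + mua x P k κd b a t s * (R b a e t s * Lt b a d e t s)) := by
  unfold LamL
  rw [Finset.insert_comm b a {d}]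
  refine Finset.sum_le_sum fun e _ => ?_
  have cF : ContinuousOn (flx x P k κd b a e t) (Icc 0 t) := flx_slice hf hx hfc b a e ht
  have cL : ContinuousOn (L b a d e t) (Icc 0 t) := (hf.cL b a d e).slice hf.N0 ht
  have cLt : ContinuousOn (Lt b a d e t) (Icc 0 t) := (hf.cLt b a d e).slice hf.N0 ht
  have cR : ContinuousOn (R b a e t) (Icc 0 t) := (hf.cR b a e).slice hf.N0 ht
  have cmu : ContinuousOn (mua x P k κd b a t) (Icc 0 t) :=
    (mua_cn hfc hx hf.cκ b a).slice hf.N0 ht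
  have cm : ContinuousOn (muL x P k κd b a d t) (Icc 0 t) :=
    prim_cont ht.1 (continuousOn_finsetSum _ fun e _ => flx_slice hf hx hfc b a e ht)
  refine intervalIntegral.integral_mono_on ht.1
    (iiC ht.1 ((cF.mul cL).add (cm.mul (cR.mul cLt))))
    (iiC ht.1 ((cF.mul cL).add (cmu.mul (cR.mul cLt)))) fun s hs => ?_
  exact add_le_add le_rfl (mul_le_mul_of_nonneg_right (muL_mua hf hx hk hfc b a d ht hs)
    (mul_nonneg (hf.R0 b a e t s hs.1 hs.2 ht.2) (hf.Lt0 b a d e t s hs.1 hs.2 ht.2)))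

variable {a : V} {g : V → V → ℝ}

/-- **the sum of the linear parts** -/
theorem Lam_sum (hf : Lf N k κd R L Lt) (hx : Wt x P 1) (hk : k.Ok)
    (hfc : ∀ y ∈ Icc (0 : ℝ) 1, ContinuousOn (k.fh y) (Icc 0 bt)) {t : ℝ}
    (ht : t ∈ Icc (0 : ℝ) bt) (g0 : ∀ b d, 0 ≤ g b d) {Om : ℝ → ℝ}
    (cO : ContinuousOn Om (Icc 0 t))
    (h : ∀ s ∈ Icc 0 t, ∑ b ∈ ({a} : Finset V)ᶜ, ∑ d ∈ ({a, b} : Finset V)ᶜ,
        xr x P a b * (xr x P b d * g b d)
        * ∑ e ∈ ({a, b, d} : Finset V)ᶜ, (flx x P k κd b a e t s * L b a d e t s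
          + mua x P k κd b a t s * (R b a e t s * Lt b a d e t s))
      ≤ Om s * Gr.S0 (xr x P) a) :
    ∑ b ∈ ({a} : Finset V)ᶜ, ∑ d ∈ ({a, b} : Finset V)ᶜ,
        xr x P a b * (xr x P b d * g b d) * LamL x P k κd R L Lt b a d t
      ≤ (∫ s in (0 : ℝ)..t, Om s) * Gr.S0 (xr x P) a := by
  have key := sum3_int_le (A := ({a} : Finset V)ᶜ) (B := fun b => ({a, b} : Finset V)ᶜ)
    (C := fun b d => ({a, b, d} : Finset V)ᶜ)
    (c := fun b d _ => xr x P a b * (xr x P b d * g b d))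
    (F := fun b d e s => flx x P k κd b a e t s * L b a d e t s
          + mua x P k κd b a t s * (R b a e t s * Lt b a d e t s))
    (G := fun s => Om s * Gr.S0 (xr x P) a) ht.1
    (fun b d e => ?_) (cO.mul continuousOn_const) (fun s hs => ?_)
  · rw [intervalIntegral.integral_mul_const] at key
    refine le_trans (Finset.sum_le_sum fun b _ => Finset.sum_le_sum fun d _ => ?_) key
    rw [← Finset.mul_sum]
    exact mul_le_mul_of_nonneg_left (LamL_le hf hx hk hfc a b d ht)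
      (mul_nonneg (xr_nonneg hx a b) (mul_nonneg (xr_nonneg hx b d) (g0 b d)))
  · exact ((flx_slice hf hx hfc b a e ht).mul ((hf.cL b a d e).slice hf.N0 ht)).add
      (((mua_cn hfc hx hf.cκ b a).slice hf.N0 ht).mul
        (((hf.cR b a e).slice hf.N0 ht).mul ((hf.cLt b a d e).slice hf.N0 ht)))
  · refine le_trans (le_of_eq ?_) (h s hs)
    refine Finset.sum_congr rfl fun b _ => Finset.sum_congr rfl fun d _ => ?_
    rw [Finset.mul_sum]

/-- the sum over the triangles with a constant -/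
theorem tri_const {y : V → V → ℝ} (hy : Gr.Wg y) {J : ℝ} (hJ : 0 ≤ J) :
    ∑ b ∈ ({a} : Finset V)ᶜ, ∑ d ∈ ({a, b} : Finset V)ᶜ, y a b * y a d * y b d * J
      ≤ J * Gr.S0 y a := by
  have h1 := Gr.tri_le hy (a := a) (M := fun _ _ => J) (G := fun _ _ => J) fun b d _ => by
    nlinarith [mul_nonneg hJ (sq_nonneg (y a b - y a d))]
  refine h1.trans ?_
  unfold Gr.S0
  rw [Finset.mul_sum]
  refine Finset.sum_le_sum fun b hb => ?_
  have h2 := hy.row2 (Ne.symm (Gr.B39.mem1 hb))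
  rw [← Finset.sum_mul]
  have h3 := mul_le_mul_of_nonneg_right h2 hJ
  have h4 := mul_le_mul_of_nonneg_left h3 (sq_nonneg (y a b))
  nlinarith [h4]

/-- the conditions of the amplitudes of the second type at the time `t` -/
structure Mc (x : V → V → ℝ) (P : V → Prop) [DecidablePred P] (k : Kf)
    (κd : ℝ → ℝ → ℝ → ℝ) (a : V) (t C mt J : ℝ) (g : V → V → ℝ) : Prop where
  C0 : 0 ≤ C
  cj : CJ C mt
  mt1 : mt < 1
  J0 : 0 ≤ J
  M : ∀ b d, P b → P d → Gr.D3 a b d →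
    k.mb (xr x P b a) (xr x P b d) (xr x P a d) t + e0L x P k κd b a d t < 1
  mu : ∀ b d, P b → P d → Gr.D3 a b d → muL x P k κd b a d t t
    ≤ mt * (1 - k.mb (xr x P b a) (xr x P b d) (xr x P a d) t - e0L x P k κd b a d t)
  g0 : ∀ b d, 0 ≤ g b d
  g : ∀ b d, P b → P d → Gr.D3 a b d →
    gS k.fh x P b d t * (C / (1 - k.mb (xr x P b a) (xr x P b d) (xr x P a d) t
      - e0L x P k κd b a d t) ^ 2) ≤ g b d
  e : ∀ b d, P b → P d → Gr.D3 a b d →
    gS k.fh x P b d t * (e0L x P k κd b a d t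
      / ((1 - k.mb (xr x P b a) (xr x P b d) (xr x P a d) t)
        * (1 - k.mb (xr x P b a) (xr x P b d) (xr x P a d) t - e0L x P k κd b a d t)))
      ≤ xr x P a d * J

variable {t C mt J : ℝ}

/-- the walk rates of the second type, one summand -/
theorem wS_two (hf : Lf N k κd R L Lt) (hx : Wt x P 1) (hk : k.Ok)
    (hfc : ∀ y ∈ Icc (0 : ℝ) 1, ContinuousOn (k.fh y) (Icc 0 bt))
    (cPe : ∀ w, ContinuousOn (k.Pe w) (Icc 0 bt)) (ha : P a) (ht : t ∈ Icc (0 : ℝ) bt)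
    (hM : Mc x P k κd a t C mt J g)
    (m0 : ∀ b d, P b → P d → Gr.D3 a b d → 0 ≤ k.mb (xr x P b a) (xr x P b d) (xr x P a d) t)
    (e0 : ∀ b d, P b → P d → Gr.D3 a b d → 0 ≤ (xdOf x κd R L Lt).E x P k b a d t)
    (e1 : ∀ b d, P b → P d → Gr.D3 a b d → 0 ≤ (xdOf x κd R L Lt).E x P k b d a t)
    {b d : V} (hbd : Gr.D3 a b d) :
    xr x P a b * wS k.fh k.mb ((xdOf x κd R L Lt).E x P k) x P b a d t
      ≤ xr x P a b * xr x P a d * xr x P b d * J
        + xr x P a b * (xr x P b d * g b d) * LamL x P k κd R L Lt b a d t := by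
  have n0 := fun u v => xr_nonneg (P := P) hx u v
  have hL0 := LamL_nonneg hf hx hk b a d ht
  have r0 : 0 ≤ xr x P a b * xr x P a d * xr x P b d * J
        + xr x P a b * (xr x P b d * g b d) * LamL x P k κd R L Lt b a d t :=
    add_nonneg (mul_nonneg (mul_nonneg (mul_nonneg (n0 _ _) (n0 _ _)) (n0 _ _)) hM.J0)
      (mul_nonneg (mul_nonneg (n0 _ _) (mul_nonneg (n0 _ _) (hM.g0 _ _))) hL0)
  by_cases hb : P b
  swap
  · have : xr x P a b = 0 := by unfold xr; rw [if_neg fun h => hb h.2]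
    rw [this, zero_mul]
    rw [this] at r0
    exact r0
  by_cases hd : P d
  swap
  · have : xr x P b d = 0 := by unfold xr; rw [if_neg fun h => hd h.2]
    unfold wS
    rw [this, zero_mul, zero_mul, mul_zero]
    rw [this] at r0
    exact r0
  have had : a ≠ d := Ne.symm hbd.2.1
  have hm0 := m0 b d hb hd hbd
  have he0 := e0 b d hb hd hbd
  have he1 := e1 b d hb hd hbd
  have hMM := hM.M b d hb hd hbd
  have hmu := hM.mu b d hb hd hbd
  have hg := hM.g b d hb hd hbd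
  have he := hM.e b d hb hd hbd
  set m := k.mb (xr x P b a) (xr x P b d) (xr x P a d) t with hm
  set em := emin ((xdOf x κd R L Lt).E x P k) P b a d t with hem
  have em0 : 0 ≤ em := by
    rw [hem]; unfold emin; rw [if_pos hd]; exact le_min he0 he1
  have em1 : em ≤ (xdOf x κd R L Lt).E x P k b a d t := by
    rw [hem]; unfold emin; rw [if_pos hd]; exact min_le_left _ _
  have key := em_amp hf hx hk hfc cPe hM.cj hM.C0 hM.mt1 b had ht hm0 hMM hmu em0 em1
  have hG : 0 ≤ gS k.fh x P b d t :=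
    mul_nonneg (by linarith [ht.1]) (hk.fh_nonneg (xmem1 hx b d) ht)
  have hwS : wS k.fh k.mb ((xdOf x κd R L Lt).E x P k) x P b a d t
      = xr x P b d * (gS k.fh x P b d t * (em * ((1 - m) * (1 - m - em))⁻¹)) := by
    unfold wS amp gS
    rw [← hm, ← hem]
    ring
  have k1 := mul_le_mul_of_nonneg_left key hG
  have k2 := mul_le_mul_of_nonneg_right hg hL0
  have k3 : gS k.fh x P b d t * (em * ((1 - m) * (1 - m - em))⁻¹)
      ≤ xr x P a d * J + g b d * LamL x P k κd R L Lt b a d t := by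
    refine k1.trans ?_
    rw [mul_add]
    refine add_le_add he (le_trans (le_of_eq ?_) k2)
    ring
  rw [hwS]
  have k4 := mul_le_mul_of_nonneg_left k3 (mul_nonneg (n0 a b) (n0 b d))
  refine le_trans (le_of_eq ?_) (k4.trans (le_of_eq ?_)) <;> ring

/-- **the sum of the walk rates of the second type** -/
theorem T2_le (hf : Lf N k κd R L Lt) (hx : Wt x P 1) (hk : k.Ok)
    (hfc : ∀ y ∈ Icc (0 : ℝ) 1, ContinuousOn (k.fh y) (Icc 0 bt))
    (cPe : ∀ w, ContinuousOn (k.Pe w) (Icc 0 bt)) (ha : P a) (ht : t ∈ Icc (0 : ℝ) bt)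
    (hM : Mc x P k κd a t C mt J g)
    (m0 : ∀ b d, P b → P d → Gr.D3 a b d → 0 ≤ k.mb (xr x P b a) (xr x P b d) (xr x P a d) t)
    (e0 : ∀ b d, P b → P d → Gr.D3 a b d → 0 ≤ (xdOf x κd R L Lt).E x P k b a d t)
    (e1 : ∀ b d, P b → P d → Gr.D3 a b d → 0 ≤ (xdOf x κd R L Lt).E x P k b d a t)
    {Om : ℝ → ℝ} (cO : ContinuousOn Om (Icc 0 t))
    (h : ∀ s ∈ Icc 0 t, ∑ b ∈ ({a} : Finset V)ᶜ, ∑ d ∈ ({a, b} : Finset V)ᶜ,
        xr x P a b * (xr x P b d * g b d)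
        * ∑ e ∈ ({a, b, d} : Finset V)ᶜ, (flx x P k κd b a e t s * L b a d e t s
          + mua x P k κd b a t s * (R b a e t s * Lt b a d e t s))
      ≤ Om s * Gr.S0 (xr x P) a) :
    ∑ b, xr x P a b * ∑ d ∈ ({a, b} : Finset V)ᶜ,
        wS k.fh k.mb ((xdOf x κd R L Lt).E x P k) x P b a d t
      ≤ (J + ∫ s in (0 : ℝ)..t, Om s) * Gr.S0 (xr x P) a := by
  have e : ∑ b, xr x P a b * ∑ d ∈ ({a, b} : Finset V)ᶜ,
        wS k.fh k.mb ((xdOf x κd R L Lt).E x P k) x P b a d t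
      = ∑ b ∈ ({a} : Finset V)ᶜ, ∑ d ∈ ({a, b} : Finset V)ᶜ,
        xr x P a b * wS k.fh k.mb ((xdOf x κd R L Lt).E x P k) x P b a d t := by
    rw [← Finset.sum_add_sum_compl ({a} : Finset V), Finset.sum_singleton, xr_diag hx a,
      zero_mul, zero_add]
    exact Finset.sum_congr rfl fun b _ => by rw [Finset.mul_sum]
  rw [e]
  have s1 := Lam_sum hf hx hk hfc ht hM.g0 cO h
  have s2 := tri_const (a := a) (wg_xr hx) hM.J0
  refine (Finset.sum_le_sum fun b hb => Finset.sum_le_sum fun d hd =>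
    wS_two hf hx hk hfc cPe ha ht hM m0 e0 e1 (Gr.B39.mem2 hb hd)).trans ?_
  simp only [Finset.sum_add_distrib]
  rw [add_mul]
  exact add_le_add s2 s1

end Pool.Agent.RX.RCN.K
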