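import Pool.Agent.RX.RCN.T1A
import Pool.Agent.RX.RCN.T2u_1
import Pool.Agent.RX.RCN.T2v

/-! The amplitudes of the second type from scalar conditions (MP_73ccd0_lc, route M). -/

namespace Pool.Agent.RX.RCN.K

open Set Finset MeasureTheory Pool.Agent.RX.RCRSHalf Pool.Agent.RX.RCG Pool.Agent.RX.RCG.Ct
open Pool.Agent.RX.RCN.Ker Pool.Agent.RX.RCM Pool.Agent.RX.RCM.Jen

set_option linter.unusedSectionVars false

/-! ### scalar conditions -/

/-- the bound of the main part of a ratio -/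
noncomputable def Mf (t : ℝ) (DD : ℝ → ℝ) (u v w : ℝ) : ℝ := w * ((1 + (u + v) * t) * DD w)

/-- the bound of an amplitude -/
noncomputable def gf (t C : ℝ) (bb DD : ℝ → ℝ) (u v w : ℝ) : ℝ :=
  bb v / (1 + t) * (C / (1 - Mf t DD u v w) ^ 2)

/-- the amplitude with its factors -/
noncomputable def pf (t C : ℝ) (bb DD : ℝ → ℝ) (u v w : ℝ) : ℝ :=
  gf t C bb DD u v w * (1 + u * t) * (1 - w)

/-- three weights of a triple -/
structure Tr3 (u v w : ℝ) : Prop where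
  u0 : 0 ≤ u
  v0 : 0 ≤ v
  w0 : 0 ≤ w
  uv : u + v ≤ 1
  uw : u + w ≤ 1
  vw : v + w ≤ 1

/-- the scalar bounds of the amplitudes at the time `t` -/
structure Avs (t C Θ : ℝ) (bb DD EE : ℝ → ℝ) (Q0 Q1 Q2 Ac gI J : ℝ) : Prop where
  C0 : 0 ≤ C
  Θ0 : 0 < Θ
  Θ1 : Θ ≤ 1
  bb0 : ∀ v ∈ Icc (0 : ℝ) 1, 0 ≤ bb v
  EE0 : ∀ v ∈ Icc (0 : ℝ) 1, 0 ≤ EE v
  q0 : 0 ≤ Q0
  q1 : 0 ≤ Q1
  q2 : 0 ≤ Q2
  J0 : 0 ≤ J
  gI0 : 0 ≤ gI
  M1 : ∀ u v w, Tr3 u v w → Mf t DD u v w < 1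
  c0 : ∀ u v w, Tr3 u v w → (pf t C bb DD u v w) ^ 2 * (1 - v) ≤ Q0 ^ 2
  c1 : ∀ u v w, Tr3 u v w →
    (pf t C bb DD u v w * Real.exp (v * Θ)) ^ 2 * (1 - v) ≤ Q1 ^ 2
  c2 : ∀ u v w, Tr3 u v w →
    (pf t C bb DD u v w * Real.exp ((v + w) * Θ)) ^ 2 * (1 - v) ≤ Q2 ^ 2
  cc : ∀ u v w, Tr3 u v w → (pf t C bb DD u v w) ^ 2 ≤ Ac
  cI : ∀ u v w, Tr3 u v w →
    (gf t C bb DD u v w * (1 + t)) ^ 2 * (1 - w) * (1 - w - v) ≤ gI
  cJ : ∀ u v w, Tr3 u v w →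
    bb v / (1 + t) * ((1 + (u + v) * t) * EE w) / (1 - Mf t DD u v w) ^ 2 ≤ J

/-- three points of the exponential function -/
theorem exp_three {a b c l1 l2 l3 : ℝ} (h1 : 0 ≤ l1) (h2 : 0 ≤ l2) (h3 : 0 ≤ l3)
    (h : l1 + l2 + l3 = 1) :
    Real.exp (l1 * a + l2 * b + l3 * c)
      ≤ l1 * Real.exp a + l2 * Real.exp b + l3 * Real.exp c := by
  set z := l1 * a + l2 * b + l3 * c with hz
  have key : ∀ q : ℝ, Real.exp z * (1 + (q - z)) ≤ Real.exp q := fun q => by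
    have e : Real.exp q = Real.exp z * Real.exp (q - z) := by
      rw [← Real.exp_add]; congr 1; ring
    rw [e]
    refine mul_le_mul_of_nonneg_left ?_ (Real.exp_pos z).le
    have := Real.add_one_le_exp (q - z)
    linarith
  have k1 := mul_le_mul_of_nonneg_left (key a) h1
  have k2 := mul_le_mul_of_nonneg_left (key b) h2
  have k3 := mul_le_mul_of_nonneg_left (key c) h3
  have e : l1 * (Real.exp z * (1 + (a - z))) + l2 * (Real.exp z * (1 + (b - z)))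
      + l3 * (Real.exp z * (1 + (c - z))) = Real.exp z * ((l1 + l2 + l3) * (1 - z) + z) := by
    rw [hz]; ring
  rw [h] at e
  have e' : Real.exp z * (1 * (1 - z) + z) = Real.exp z := by ring
  linarith

/-- interpolation of the bounds of the amplitudes -/
noncomputable def qI (Q0 Q1 Q2 α β : ℝ) : ℝ := (1 - α) * Q0 + (α - β) * Q1 + β * Q2

theorem qI_nonneg {Q0 Q1 Q2 α β : ℝ} (h0 : 0 ≤ Q0) (h1 : 0 ≤ Q1) (h2 : 0 ≤ Q2) (hβ : 0 ≤ β)
    (hαβ : β ≤ α) (hα : α ≤ 1) : 0 ≤ qI Q0 Q1 Q2 α β :=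
  add_nonneg (add_nonneg (mul_nonneg (sub_nonneg.2 hα) h0) (mul_nonneg (sub_nonneg.2 hαβ) h1))
    (mul_nonneg hβ h2)

theorem sq_exp_le {p e v Q : ℝ} (hp : 0 ≤ p) (he : 0 ≤ e) (hv : v ≤ 1) (hQ : 0 ≤ Q)
    (h : (p * e) ^ 2 * (1 - v) ≤ Q ^ 2) : p * Real.sqrt (1 - v) * e ≤ Q := by
  have h1 : 0 ≤ p * Real.sqrt (1 - v) * e := mul_nonneg (mul_nonneg hp (Real.sqrt_nonneg _)) he
  have h2 : (p * Real.sqrt (1 - v) * e) ^ 2 ≤ Q ^ 2 := by
    refine le_trans (le_of_eq ?_) h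
    rw [mul_pow, mul_pow, Real.sq_sqrt (sub_nonneg.2 hv)]
    ring
  exact abs_le_of_sq_le_sq' h2 hQ |>.2

namespace Avs

variable {t C Θ : ℝ} {bb DD EE : ℝ → ℝ} {Q0 Q1 Q2 Ac gI J : ℝ}

/-- the bound with exponents -/
theorem ex (h : Avs t C Θ bb DD EE Q0 Q1 Q2 Ac gI J) {u v w : ℝ}
    (h3 : Tr3 u v w) {α β p : ℝ} (hβ : 0 ≤ β) (hαβ : β ≤ α) (hα : α ≤ 1) (hp0 : 0 ≤ p)
    (hp : p ≤ pf t C bb DD u v w) :
    (p * Real.exp (v * (α * Θ) + w * (β * Θ))) ^ 2 * (1 - v) ≤ qI Q0 Q1 Q2 α β ^ 2 := by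
  have hv1 : v ≤ 1 := by linarith [h3.vw, h3.w0]
  have hpf : 0 ≤ pf t C bb DD u v w := hp0.trans hp
  have e3 := exp_three (a := 0) (b := v * Θ) (c := (v + w) * Θ) (sub_nonneg.2 hα)
    (sub_nonneg.2 hαβ) hβ (by ring)
  rw [Real.exp_zero] at e3
  have ee : (1 - α) * 0 + (α - β) * (v * Θ) + β * ((v + w) * Θ) = v * (α * Θ) + w * (β * Θ) := by
    ring
  rw [ee] at e3
  have k0 := sq_exp_le (e := 1) hpf zero_le_one hv1 h.q0 (by rw [mul_one]; exact h.c0 u v w h3)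
  have k1 := sq_exp_le hpf (Real.exp_pos (v * Θ)).le hv1 h.q1 (h.c1 u v w h3)
  have k2 := sq_exp_le hpf (Real.exp_pos ((v + w) * Θ)).le hv1 h.q2 (h.c2 u v w h3)
  set q := pf t C bb DD u v w * Real.sqrt (1 - v) with hq
  have q0 : 0 ≤ q := mul_nonneg hpf (Real.sqrt_nonneg _)
  have s1 : q * Real.exp (v * (α * Θ) + w * (β * Θ)) ≤ qI Q0 Q1 Q2 α β := by
    refine (mul_le_mul_of_nonneg_left e3 q0).trans ?_
    unfold qI
    have j0 := mul_le_mul_of_nonneg_left k0 (sub_nonneg.2 hα)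
    have j1 := mul_le_mul_of_nonneg_left k1 (sub_nonneg.2 hαβ)
    have j2 := mul_le_mul_of_nonneg_left k2 hβ
    calc _ = (1 - α) * (q * 1) + (α - β) * (q * Real.exp (v * Θ))
          + β * (q * Real.exp ((v + w) * Θ)) := by ring
      _ ≤ _ := add_le_add (add_le_add j0 j1) j2
  have s2 : p * Real.sqrt (1 - v) * Real.exp (v * (α * Θ) + w * (β * Θ))
      ≤ qI Q0 Q1 Q2 α β := by
    refine le_trans (mul_le_mul_of_nonneg_right (mul_le_mul_of_nonneg_right hp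
      (Real.sqrt_nonneg _)) (Real.exp_pos _).le) s1
  have s0 : 0 ≤ p * Real.sqrt (1 - v) * Real.exp (v * (α * Θ) + w * (β * Θ)) :=
    mul_nonneg (mul_nonneg hp0 (Real.sqrt_nonneg _)) (Real.exp_pos _).le
  have s3 := pow_le_pow_left₀ s0 s2 2
  refine le_trans (le_of_eq ?_) s3
  rw [mul_pow, mul_pow, mul_pow, Real.sq_sqrt (sub_nonneg.2 hv1)]
  ring

end Avs

/-- the bound of the amplitudes along the second chain, as a function of the weight -/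
noncomputable def Pcf (Am Pm : ℝ → ℝ) (r v : ℝ) : ℝ :=
  if v < 1 then min (Am r / (1 - v)) (Pm r) else Pm r

theorem Pcf_nonneg {Am Pm : ℝ → ℝ} {r v : ℝ} (h1 : 0 ≤ Am r) (h2 : 0 ≤ Pm r) :
    0 ≤ Pcf Am Pm r v := by
  unfold Pcf
  split_ifs with h
  · exact le_min (div_nonneg h1 (sub_nonneg.2 h.le)) h2
  · exact h2

theorem Pcf_mono {Am Pm : ℝ → ℝ} {r v z : ℝ} (h1 : 0 ≤ Am r) (hzv : z ≤ v) :
    Pcf Am Pm r z ≤ Pcf Am Pm r v := by
  unfold Pcf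
  by_cases hv : v < 1
  · rw [if_pos hv, if_pos (lt_of_le_of_lt hzv hv)]
    refine min_le_min ?_ le_rfl
    exact div_le_div_of_nonneg_left h1 (sub_pos.2 hv) (by linarith)
  · rw [if_neg hv]
    split_ifs
    · exact min_le_right _ _
    · exact le_rfl

theorem Pcf_mul {Am Pm : ℝ → ℝ} {r v : ℝ} (h1 : 0 ≤ Am r) (hv1 : v ≤ 1) :
    Pcf Am Pm r v * (1 - v) ≤ Am r := by
  unfold Pcf
  split_ifs with hv
  · have h := min_le_left (Am r / (1 - v)) (Pm r)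
    have h2 := mul_le_mul_of_nonneg_right h (sub_nonneg.2 hv1)
    rwa [div_mul_cancel₀ _ (sub_pos.2 hv).ne'] at h2
  · have : v = 1 := le_antisymm hv1 (not_lt.1 hv)
    rw [this, sub_self, mul_zero]
    exact h1

theorem le_Pcf {Am Pm : ℝ → ℝ} {r v q : ℝ} (h1 : q * (1 - v) ≤ Am r) (h2 : q ≤ Pm r) :
    q ≤ Pcf Am Pm r v := by
  unfold Pcf
  split_ifs with hv
  · exact le_min ((le_div_iff₀ (sub_pos.2 hv)).2 h1) h2
  · exact h2

/-! ### the amplitudes -/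

variable {V : Type*} [Fintype V] [DecidableEq V]
variable {x : V → V → ℝ} {P : V → Prop} [DecidablePred P] {k : Kf} {N : ℕ}
variable {κd : ℝ → ℝ → ℝ → ℝ} {R : V → V → V → ℝ → ℝ → ℝ} {L Lt : V → V → V → V → ℝ → ℝ → ℝ}

/-- bounds of the density and of the ratio at the time `t` -/
structure Db (k : Kf) (κd : ℝ → ℝ → ℝ → ℝ) (t : ℝ) (bb DD EE : ℝ → ℝ) : Prop where
  b : ∀ v ∈ Icc (0 : ℝ) 1, (1 + t) * k.fh v t ≤ bb v / (1 + t)
  D : ∀ y ∈ Icc (0 : ℝ) 1, ∀ w ∈ Icc (0 : ℝ) 1, k.Pe y t * k.fi w t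
    + ∫ s in (0 : ℝ)..t, k.fh w s * (κd y t s - k.Pe y t) ≤ (1 + y * t) * DD w
  E : ∀ y ∈ Icc (0 : ℝ) 1, ∀ w ∈ Icc (0 : ℝ) 1,
    ∫ s in (0 : ℝ)..t, k.fh w s * (κd y t s - k.Pe y t) ≤ (1 + y * t) * EE w

/-- the main part of the ratio with the direct part of the error -/
noncomputable def mE (x : V → V → ℝ) (P : V → Prop) [DecidablePred P] (k : Kf)
    (κd : ℝ → ℝ → ℝ → ℝ) (a b d : V) (t : ℝ) : ℝ :=
  k.mb (xr x P b a) (xr x P b d) (xr x P a d) t + e0L x P k κd b a d t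

instance decD3 (a b d : V) : Decidable (Gr.D3 a b d) := by
  unfold Gr.D3
  infer_instance

/-- the amplitude of the second type -/
noncomputable def gT (x : V → V → ℝ) (P : V → Prop) [DecidablePred P] (k : Kf)
    (κd : ℝ → ℝ → ℝ → ℝ) (a : V) (t C : ℝ) (b d : V) : ℝ :=
  if P b ∧ P d ∧ Gr.D3 a b d then
    gS k.fh x P b d t * (C / (1 - mE x P k κd a b d t) ^ 2) else 0

variable {t C Θ : ℝ} {bb DD EE : ℝ → ℝ} {Q0 Q1 Q2 Ac gI J : ℝ} {a : V}

theorem tr3_of (hx : Wt x P 1) {b d : V} (h : Gr.D3 a b d) :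
    Tr3 (xr x P a b) (xr x P b d) (xr x P a d) := by
  have n0 := fun u v => xr_nonneg (P := P) hx u v
  have h1 := xr_add_le (P := P) hx (a := b) (b := a) (c := d) (Ne.symm h.2.1)
  have h2 := xr_add_le (P := P) hx (a := a) (b := b) (c := d) h.2.2
  have h3 := xr_add_le (P := P) hx (a := d) (b := b) (c := a) h.1
  rw [xr_symm hx b a] at h1
  rw [xr_symm hx d b, xr_symm hx d a] at h3
  exact ⟨n0 _ _, n0 _ _, n0 _ _, h1, h2, h3⟩


theorem xr_of {u v : V} (hu : P u) (hv : P v) : xr x P u v = x u v := by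
  unfold xr; rw [if_pos ⟨hu, hv⟩]

theorem fq_of {u v : V} (hv : P v) (s : ℝ) : fq x P k.fh u v s = k.fh (x u v) s := by
  unfold fq; rw [if_pos hv]

theorem mE_le (hx : Wt x P 1) (hD : Db k κd t bb DD EE) {b d : V} (ha : P a) (hb : P b)
    (hd : P d) (h3 : Gr.D3 a b d) :
    mE x P k κd a b d t ≤ Mf t DD (xr x P a b) (xr x P b d) (xr x P a d) := by
  have hw := two_mem hx b (b := a) (d := d) (Ne.symm h3.2.1)
  have h1 := mul_le_mul_of_nonneg_left (hD.D _ hw _ (x_mem hx a d)) (hx.nonneg a d)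
  unfold mE Mf e0L Kf.mb
  simp only [xr_of ha hb, xr_of hb ha, xr_of hb hd, xr_of ha hd, fq_of (k := k) (x := x) hd]
  rw [hx.symm a b]
  calc _ = x a d * (k.Pe (x b a + x b d) t * k.fi (x a d) t
        + ∫ s in (0 : ℝ)..t, k.fh (x a d) s
          * (κd (x b a + x b d) t s - k.Pe (x b a + x b d) t)) := by ring
    _ ≤ _ := h1

theorem e0_le (hx : Wt x P 1) (hD : Db k κd t bb DD EE) {b d : V} (ha : P a) (hb : P b)
    (hd : P d) (h3 : Gr.D3 a b d) :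
    e0L x P k κd b a d t
      ≤ xr x P a d * ((1 + (xr x P a b + xr x P b d) * t) * EE (xr x P a d)) := by
  have hw := two_mem hx b (b := a) (d := d) (Ne.symm h3.2.1)
  have h1 := mul_le_mul_of_nonneg_left (hD.E _ hw _ (x_mem hx a d)) (hx.nonneg a d)
  unfold e0L
  simp only [xr_of ha hb, xr_of hb hd, xr_of ha hd, fq_of (k := k) (x := x) hd]
  rw [hx.symm a b]
  exact h1

theorem gT_nonneg (hk : k.Ok) (hx : Wt x P 1) (ht : t ∈ Icc (0 : ℝ) bt) (hC : 0 ≤ C) (b d : V) :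
    0 ≤ gT x P k κd a t C b d := by
  unfold gT
  split_ifs
  · refine mul_nonneg (mul_nonneg (by linarith [ht.1]) (hk.fh_nonneg (xmem1 hx b d) ht)) ?_
    exact div_nonneg hC (sq_nonneg _)
  · exact le_rfl

theorem gT_le (hk : k.Ok) (hx : Wt x P 1) (ht : t ∈ Icc (0 : ℝ) bt)
    (hD : Db k κd t bb DD EE) (hA : Avs t C Θ bb DD EE Q0 Q1 Q2 Ac gI J) (ha : P a)
    {b d : V} (h3 : Gr.D3 a b d) :
    gT x P k κd a t C b d ≤ gf t C bb DD (xr x P a b) (xr x P b d) (xr x P a d) := by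
  have t1 : 0 < 1 + t := by linarith [ht.1]
  have hT := tr3_of (P := P) hx h3
  have hM := hA.M1 _ _ _ hT
  have hg0 : 0 ≤ bb (xr x P b d) / (1 + t) := div_nonneg (hA.bb0 _ (xmem1 hx b d)) t1.le
  unfold gT
  split_ifs with h
  · have h1 := mE_le hx hD ha h.1 h.2.1 h3
    have h2 := hD.b _ (xmem1 (P := P) hx b d)
    have h4 : 0 < 1 - Mf t DD (xr x P a b) (xr x P b d) (xr x P a d) := by linarith
    unfold gf gS
    refine mul_le_mul h2 ?_ (div_nonneg hA.C0 (sq_nonneg _)) hg0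
    exact div_le_div_of_nonneg_left hA.C0 (by positivity) (pow_le_pow_left₀ h4.le (by linarith) 2)
  · exact mul_nonneg hg0 (div_nonneg hA.C0 (sq_nonneg _))

theorem gT_pf (hk : k.Ok) (hx : Wt x P 1) (ht : t ∈ Icc (0 : ℝ) bt)
    (hD : Db k κd t bb DD EE) (hA : Avs t C Θ bb DD EE Q0 Q1 Q2 Ac gI J) (ha : P a)
    {b d : V} (h3 : Gr.D3 a b d) :
    0 ≤ gT x P k κd a t C b d * (1 + xr x P a b * t) * (1 - xr x P a d) ∧
    gT x P k κd a t C b d * (1 + xr x P a b * t) * (1 - xr x P a d)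
      ≤ pf t C bb DD (xr x P a b) (xr x P b d) (xr x P a d) := by
  have h1 := gT_le hk hx ht hD hA ha h3
  have h0 := gT_nonneg (κd := κd) (a := a) hk hx ht hA.C0 b d
  have u0 : 0 ≤ 1 + xr x P a b * t := by
    have := mul_nonneg (xr_nonneg (P := P) hx a b) ht.1
    linarith
  have w0 : 0 ≤ 1 - xr x P a d := sub_nonneg.2 (xmem1 hx a d).2
  refine ⟨mul_nonneg (mul_nonneg h0 u0) w0, ?_⟩
  unfold pf
  exact mul_le_mul_of_nonneg_right (mul_le_mul_of_nonneg_right h1 u0) w0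

/-- **the amplitudes in the chains** -/
theorem ga_of (hk : k.Ok) (hx : Wt x P 1) (ht : t ∈ Icc (0 : ℝ) bt)
    (hD : Db k κd t bb DD EE) (hA : Avs t C Θ bb DD EE Q0 Q1 Q2 Ac gI J) (ha : P a)
    {s : ℝ} {al be : ℝ → ℝ} (hβ : ∀ r ∈ Icc 0 s, 0 ≤ be r) (hαβ : ∀ r ∈ Icc 0 s, be r ≤ al r)
    (hα : ∀ r ∈ Icc 0 s, al r ≤ 1) :
    Ga x P (gT x P k κd a t C) a t s (fun r => al r * Θ) (fun r => be r * Θ) (Q0 ^ 2) Ac
      (fun r => qI Q0 Q1 Q2 (al r) (be r) ^ 2)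
      (Pcf (fun r => qI Q0 Q1 Q2 (al r) (be r) ^ 2) (fun _ => Ac * Real.exp (2 * Θ))) := by
  have Θ0 := hA.Θ0
  refine ⟨fun b d => gT_nonneg hk hx ht hA.C0 b d, fun b d h3 => ?_, fun b d h3 => ?_,
    fun r hr b d h3 => ?_, fun r hr b d h3 => ?_⟩
  · obtain ⟨p0, p1⟩ := gT_pf hk hx ht hD hA ha h3
    have hT := tr3_of (P := P) hx h3
    refine (mul_le_mul_of_nonneg_right (pow_le_pow_left₀ p0 p1 2)
      (sub_nonneg.2 (xmem1 hx b d).2)).trans (hA.c0 _ _ _ hT)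
  · obtain ⟨p0, p1⟩ := gT_pf hk hx ht hD hA ha h3
    exact (pow_le_pow_left₀ p0 p1 2).trans (hA.cc _ _ _ (tr3_of hx h3))
  · obtain ⟨p0, p1⟩ := gT_pf hk hx ht hD hA ha h3
    have := hA.ex (tr3_of (P := P) hx h3) (hβ r hr) (hαβ r hr) (hα r hr) p0 p1
    refine le_trans (le_of_eq ?_) this
    ring
  · obtain ⟨p0, p1⟩ := gT_pf hk hx ht hD hA ha h3
    have hT := tr3_of (P := P) hx h3
    have e := hA.ex hT (hβ r hr) (hαβ r hr) (hα r hr) p0 p1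
    refine le_Pcf ?_ ?_
    · refine le_trans (le_of_eq ?_) e
      ring
    · have e1 : xr x P b d * (al r * Θ) + xr x P a d * (be r * Θ) ≤ Θ := by
        have a1 := hα r hr
        have b1 := (hαβ r hr).trans a1
        have v0 := hT.v0
        have w0 := hT.w0
        have i1 := mul_le_mul_of_nonneg_left (mul_le_mul_of_nonneg_right a1 Θ0.le) v0
        have i2 := mul_le_mul_of_nonneg_left (mul_le_mul_of_nonneg_right b1 Θ0.le) w0
        have i3 := mul_le_mul_of_nonneg_right hT.vw Θ0.le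
        linarith
      have e2 := hA.cc _ _ _ hT
      have e3 := (pow_le_pow_left₀ p0 p1 2).trans e2
      have e4 : Real.exp (xr x P b d * (al r * Θ) + xr x P a d * (be r * Θ)) ^ 2
          ≤ Real.exp (2 * Θ) := by
        rw [pow_two, ← Real.exp_add]
        exact Real.exp_le_exp.2 (by linarith)
      have e5 := mul_le_mul e3 e4 (sq_nonneg _) ((sq_nonneg _).trans e2)
      refine le_trans (le_of_eq ?_) e5
      ring

variable {α γ mt : ℝ}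

/-- the conditions of the mass ratio -/
structure Mu (k : Kf) (κd : ℝ → ℝ → ℝ → ℝ) (A : ℝ → ℝ → ℝ) (t α γ mt C : ℝ) : Prop where
  ab : Ab k κd A
  A1 : ∀ w ∈ Icc (0 : ℝ) 1, A w t ≤ α * (1 + γ * w)
  α0 : 0 ≤ α
  γ0 : 0 ≤ γ
  γ1 : γ ≤ 1
  m1 : α * (1 + γ / 2) ≤ mt
  mt1 : mt < 1
  m2 : mt * γ ≤ 1 - mt + γ / 4
  cj : CJ C mt

/-- **the conditions of the amplitudes** -/
theorem mc_of {A : ℝ → ℝ → ℝ} (hf : Lf N k κd R L Lt) (hk : k.Ok) (hx : Wt x P 1)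
    (hfc : ∀ y ∈ Icc (0 : ℝ) 1, ContinuousOn (k.fh y) (Icc 0 bt)) (ht : t ∈ Icc (0 : ℝ) bt)
    (hD : Db k κd t bb DD EE) (hA : Avs t C Θ bb DD EE Q0 Q1 Q2 Ac gI J)
    (hm : Mu k κd A t α γ mt C) (ha : P a) :
    Mc x P k κd a t C mt J (gT x P k κd a t C) := by
  have t1 : 0 < 1 + t := by linarith [ht.1]
  have mM : ∀ b d, P b → P d → Gr.D3 a b d →
      k.mb (xr x P b a) (xr x P b d) (xr x P a d) t + e0L x P k κd b a d t
        ≤ Mf t DD (xr x P a b) (xr x P b d) (xr x P a d) := fun b d hb hd h3 =>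
    mE_le hx hD ha hb hd h3
  refine ⟨hA.C0, hm.cj, hm.mt1, hA.J0, fun b d hb hd h3 => ?_, fun b d hb hd h3 => ?_,
    fun b d => gT_nonneg hk hx ht hA.C0 b d, fun b d hb hd h3 => ?_, fun b d hb hd h3 => ?_⟩
  · exact lt_of_le_of_lt (mM b d hb hd h3) (hA.M1 _ _ _ (tr3_of hx h3))
  · -- the mass
    refine (muL_le hf hx hfc hm.ab ht hm.A1 hm.α0 hm.γ0 h3.1 (Ne.symm h3.2.2 |> Ne.symm)
      (Ne.symm h3.2.1)).trans ?_
    have hwy := two_mem hx b (b := a) (d := d) (Ne.symm h3.2.1)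
    refine (mu_scalar hm.α0 hm.γ0 hm.m1 hm.mt1.le hm.m2 (hx.nonneg b a) (hx.nonneg a d)
      (hx.nonneg b d) (x_mem hx b d).2 hm.γ1).trans ?_
    have mt0 : 0 ≤ mt := le_trans (mul_nonneg hm.α0 (by linarith [hm.γ0])) hm.m1
    refine mul_le_mul_of_nonneg_left ?_ mt0
    have j1 := mul_le_mul_of_nonneg_left ((hm.ab.fi _ hwy _ (x_mem hx a d) t ht).trans
      (hm.A1 _ hwy)) (hx.nonneg a d)
    have j2 : k.mb (xr x P b a) (xr x P b d) (xr x P a d) t + e0L x P k κd b a d t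
        ≤ x a d * (α * (1 + γ * (x b a + x b d))) := by
      unfold e0L Kf.mb
      simp only [xr_of hb ha, xr_of hb hd, xr_of ha hd, fq_of (k := k) (x := x) hd]
      calc _ = x a d * (k.Pe (x b a + x b d) t * k.fi (x a d) t
            + ∫ s in (0 : ℝ)..t, k.fh (x a d) s
              * (κd (x b a + x b d) t s - k.Pe (x b a + x b d) t)) := by ring
        _ ≤ _ := j1
    linarith
  · unfold gT
    rw [if_pos ⟨hb, hd, h3⟩]
    refine mul_le_mul_of_nonneg_left (le_of_eq ?_)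
      (mul_nonneg t1.le (hk.fh_nonneg (xmem1 hx b d) ht))
    unfold mE
    rw [sub_add_eq_sub_sub]
  · -- the direct part
    have hT := tr3_of (P := P) hx h3
    have h1 := mM b d hb hd h3
    have hM := hA.M1 _ _ _ hT
    have h2 := e0_le hx hD ha hb hd h3
    have e0 := e0L_nonneg hf hx hk b (b := a) (c := d) (Ne.symm h3.2.1) ht
    set m := k.mb (xr x P b a) (xr x P b d) (xr x P a d) t with hmd
    set e := e0L x P k κd b a d t with hed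
    set Mv := Mf t DD (xr x P a b) (xr x P b d) (xr x P a d) with hMv
    have p1 : 0 < 1 - Mv := by linarith
    have p2 : (1 - Mv) ^ 2 ≤ (1 - m) * (1 - m - e) := by
      have i1 : 1 - Mv ≤ 1 - m - e := by linarith
      have i2 : 1 - Mv ≤ 1 - m := by linarith
      nlinarith
    have p3 : 0 < (1 - Mv) ^ 2 := by positivity
    have q1 := hD.b _ (xmem1 (P := P) hx b d)
    have q0 : 0 ≤ (1 + t) * k.fh (xr x P b d) t :=
      mul_nonneg t1.le (hk.fh_nonneg (xmem1 hx b d) ht)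
    have q2 : e / ((1 - m) * (1 - m - e))
        ≤ xr x P a d * ((1 + (xr x P a b + xr x P b d) * t) * EE (xr x P a d))
          / (1 - Mv) ^ 2 :=
      div_le_div₀ (e0.trans h2) h2 p3 p2
    have q3 := mul_le_mul q1 q2 (div_nonneg e0 (lt_of_lt_of_le p3 p2).le) (q0.trans q1)
    have q4 := mul_le_mul_of_nonneg_left (hA.cJ _ _ _ hT) hT.w0
    refine q3.trans (le_trans (le_of_eq ?_) q4)
    rw [hMv]
    ring

end Pool.Agent.RX.RCN.K
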