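import Pool.Agent.RX.RCN.T2D_1
import Pool.Agent.RX.RCN.T2a

/-! The amplitudes of the second type: polynomial certificates in a cell (MP_73ccd0_lc, route M). -/

namespace Pool.Agent.RX.RCN.K

open Set Pool.Agent.RX.RCM9 Pool.Agent.RX.RCM9.Bern Pool.Agent.RX.RCM9.Pk

set_option linter.unusedSectionVars false

/-! ### nonnegativity on the cube -/

theorem val_uX (X Z U T : ℝ) : vX.val (pt X Z U T) = X := rfl
theorem val_uZ (X Z U T : ℝ) : vZ.val (pt X Z U T) = Z := rfl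
theorem val_uT (X Z U T : ℝ) : uT.val (pt X Z U T) = T := rfl

/-- piecewise linear functions with the values `a`, `h`, `b` at `0`, `1/2`, `1` -/
noncomputable def pl (a h b v : ℝ) : ℝ :=
  if v ≤ 1 / 2 then a + (h - a) * (2 * v) else h + (b - h) * (2 * v - 1)

theorem pl_nonneg {a h b v : ℝ} (ha : 0 ≤ a) (hh : 0 ≤ h) (hb : 0 ≤ b) (hv : v ∈ Icc (0 : ℝ) 1) :
    0 ≤ pl a h b v := by
  unfold pl
  split_ifs with h1
  · have e : a + (h - a) * (2 * v) = a * (1 - 2 * v) + h * (2 * v) := by ring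
    rw [e]
    exact add_nonneg (mul_nonneg ha (by linarith)) (mul_nonneg hh (by linarith [hv.1]))
  · have e : h + (b - h) * (2 * v - 1) = h * (2 - 2 * v) + b * (2 * v - 1) := by ring
    rw [e]
    exact add_nonneg (mul_nonneg hh (by linarith [hv.2])) (mul_nonneg hb (by linarith))

theorem val_elo (ρ : ℕ → ℝ) (a h : ℚ) (v : E) :
    (elo a h v).val ρ = (a : ℝ) + ((h : ℝ) - a) * (2 * v.val ρ) := by
  unfold elo
  rw [val_add, val_mul, val_mul, val_qc, val_qc, val_two]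
  push_cast
  ring

theorem val_ehi (ρ : ℕ → ℝ) (h b : ℚ) (v : E) :
    (ehi h b v).val ρ = (h : ℝ) + ((b : ℝ) - h) * (2 * v.val ρ - 1) := by
  unfold ehi
  rw [val_add, val_mul, val_sub, val_mul, val_qc, val_qc, val_two, val_one]
  push_cast
  ring

variable (c : Cel)

variable {c}

theorem val_eh (X Z U T : ℝ) : eh.val (pt X Z U T) = X / 2 := by
  unfold eh; rw [val_mul, val_uX, val_hlf]; ring

theorem val_ek (X Z U T : ℝ) : ek.val (pt X Z U T) = Z * (X / 2) := by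
  unfold ek; rw [val_mul, val_mul, val_uX, val_uZ, val_hlf]; ring

theorem ex_ratio {v w : ℝ} (w0 : 0 ≤ w) (h : w ≤ v) : ∃ Z ∈ Icc (0 : ℝ) 1, Z * v = w := by
  rcases eq_or_lt_of_le (w0.trans h) with h0 | h0
  · exact ⟨0, ⟨le_rfl, zero_le_one⟩, by linarith⟩
  · exact ⟨w / v, ⟨div_nonneg w0 h0.le, (div_le_one h0).2 h⟩, div_mul_cancel₀ _ h0.ne'⟩

theorem Rg.nonneg {f : E → E → E → E → E → E → E} {F : ℝ → ℝ → ℝ → ℝ → ℝ → ℝ → ℝ}
    (h : Rg c f) (hF : ∀ ρ u v w b D e, (f u v w b D e).val ρ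
      = F (u.val ρ) (v.val ρ) (w.val ρ) (b.val ρ) (D.val ρ) (e.val ρ)) {v w : ℝ} (v0 : 0 ≤ v)
    (w0 : 0 ≤ w) (hvw : v + w ≤ 1) :
    0 ≤ F (1 - max v w) v w (pl c.B0 c.Bh c.B1 v) (pl c.D0 c.Dh c.D1 w) (pl c.E0 c.Eh c.E1 w) := by
  have z0 : (0 : ℝ) ∈ Icc (0 : ℝ) 1 := ⟨le_rfl, zero_le_one⟩
  rcases le_total w v with h1 | h1
  · rw [max_eq_left h1]
    have hw2 : w ≤ 1 / 2 := by linarith
    rcases le_or_gt v (1 / 2) with h2 | h2
    · obtain ⟨Z, hZ, hZe⟩ := ex_ratio w0 h1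
      have key := h.r1 (2 * v) Z 0 0 ⟨by linarith, by linarith⟩ hZ z0 z0
      rw [hF, val_elo, val_elo, val_elo, val_sub, val_one, val_eh, val_ek] at key
      unfold pl
      rw [if_pos h2, if_pos hw2, if_pos hw2]
      rw [show 2 * v / 2 = v by ring, hZe] at key
      exact key
    · obtain ⟨Z, hZ, hZe⟩ := ex_ratio w0 (show w ≤ 1 - v by linarith)
      have key := h.r2 (2 * (1 - v)) Z 0 0 ⟨by linarith, by linarith⟩ hZ z0 z0
      rw [hF, val_ehi, val_elo, val_elo, val_sub, val_one, val_eh, val_ek] at key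
      unfold pl
      rw [if_neg (not_le.2 h2), if_pos hw2, if_pos hw2]
      rw [show 2 * (1 - v) / 2 = 1 - v by ring, hZe, show 1 - (1 - v) = v by ring] at key
      exact key
  · rw [max_eq_right h1]
    have hv2 : v ≤ 1 / 2 := by linarith
    rcases le_or_gt w (1 / 2) with h2 | h2
    · obtain ⟨Z, hZ, hZe⟩ := ex_ratio v0 h1
      have key := h.r3 (2 * w) Z 0 0 ⟨by linarith, by linarith⟩ hZ z0 z0
      rw [hF, val_elo, val_elo, val_elo, val_sub, val_one, val_eh, val_ek] at key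
      unfold pl
      rw [if_pos h2, if_pos hv2, if_pos h2]
      rw [show 2 * w / 2 = w by ring, hZe] at key
      exact key
    · obtain ⟨Z, hZ, hZe⟩ := ex_ratio v0 (show v ≤ 1 - w by linarith)
      have key := h.r4 (2 * (1 - w)) Z 0 0 ⟨by linarith, by linarith⟩ hZ z0 z0
      rw [hF, val_elo, val_ehi, val_ehi, val_sub, val_one, val_eh, val_ek] at key
      unfold pl
      rw [if_neg (not_le.2 h2), if_pos hv2, if_neg (not_le.2 h2)]
      rw [show 2 * (1 - w) / 2 = 1 - w by ring, hZe, show 1 - (1 - w) = w by ring] at key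
      exact key


/-! ### the conditions -/

theorem exl_le {th : ℚ} (h0 : 0 ≤ th) (h1 : th ≤ 1) {z : ℝ} (hz : z ∈ Icc (0 : ℝ) 1) :
    Real.exp (z * th) ≤ pv (exl th) z := by
  have t0 : (0 : ℝ) ≤ th := by exact_mod_cast h0
  have t1 : (th : ℝ) ≤ 1 := by exact_mod_cast h1
  have x0 : 0 ≤ z * th := mul_nonneg hz.1 t0
  have x1 : z * th ≤ 1 := by
    calc z * th ≤ 1 * 1 := mul_le_mul hz.2 t1 t0 zero_le_one
      _ = 1 := one_mul 1
  refine (Real.exp_bound' x0 x1 (n := 4) (by norm_num)).trans (le_of_eq ?_)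
  simp only [Finset.sum_range_succ, Finset.sum_range_zero, exl, pv]
  push_cast
  norm_num [Nat.factorial]
  ring

variable (c)

noncomputable def Cel.bb (v : ℝ) : ℝ := pl c.B0 c.Bh c.B1 v
noncomputable def Cel.DD (v : ℝ) : ℝ := pl c.D0 c.Dh c.D1 v
noncomputable def Cel.EE (v : ℝ) : ℝ := pl c.E0 c.Eh c.E1 v

variable {c}

theorem val_eMb (ρ : ℕ → ℝ) (u v w D : E) : (eMb c u v w D).val ρ
    = w.val ρ * ((1 + (u.val ρ + v.val ρ) * c.t1) * D.val ρ) := by
  unfold eMb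
  rw [val_mul, val_mul, val_add, val_mul, val_add, val_qc, val_one]

theorem val_eN (ρ : ℕ → ℝ) (u w b : E) : (eN c u w b).val ρ
    = b.val ρ * c.C * ((1 + u.val ρ * c.t0) * (1 - w.val ρ)) := by
  unfold eN
  rw [val_mul, val_mul, val_mul, val_add, val_mul, val_sub, val_qc, val_qc, val_one]

theorem val_eP (ρ : ℕ → ℝ) (K : ℚ) (u v w D : E) : (eP c K u v w D).val ρ
    = (K : ℝ) ^ 2 * ((1 + (c.t0 : ℝ)) ^ 2
      * (1 - w.val ρ * ((1 + (u.val ρ + v.val ρ) * c.t1) * D.val ρ)) ^ 4) := by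
  unfold eP
  rw [val_mul, val_mul, val_pow, val_pow, val_add, val_sub, val_eMb, val_qc, val_qc, val_one]
  push_cast
  ring

/-- the ratio of the time factors -/
theorem tf_le {u ub t0 t : ℝ} (u0 : 0 ≤ u) (h : u ≤ ub) (ub1 : ub ≤ 1) (h0 : 0 ≤ t0)
    (ht : t0 ≤ t) : (1 + u * t) / (1 + t) ≤ (1 + ub * t0) / (1 + t0) := by
  rw [div_le_div_iff₀ (by linarith) (by linarith)]
  have h1 : 0 ≤ (ub - u) * (t0 * (1 + t)) := mul_nonneg (by linarith) (by
    have := mul_nonneg h0 (h0.trans ht); nlinarith)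
  have h2 : 0 ≤ (1 - u) * (t - t0) := mul_nonneg (by linarith) (by linarith)
  nlinarith

variable {t : ℝ}

section

variable (hs : c.Sg) (ht : t ∈ Icc (c.t0 : ℝ) c.t1) {u v w : ℝ} (h3 : Tr3 u v w)
include hs ht h3

theorem Mf_le : Mf t c.DD u v w ≤ w * ((1 + ((1 - max v w) + v) * c.t1) * c.DD w) := by
  have h0 : (0 : ℝ) ≤ c.t0 := by exact_mod_cast hs.t0
  have w1 : w ∈ Icc (0 : ℝ) 1 := ⟨h3.w0, by linarith [h3.vw, h3.v0]⟩
  have D0 : 0 ≤ c.DD w := pl_nonneg (by exact_mod_cast hs.D0) (by exact_mod_cast hs.Dh)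
    (by exact_mod_cast hs.D1) w1
  have hu : u ≤ 1 - max v w := by
    rcases le_total v w with h | h
    · rw [max_eq_right h]; linarith [h3.uw]
    · rw [max_eq_left h]; linarith [h3.uv]
  unfold Mf
  refine mul_le_mul_of_nonneg_left (mul_le_mul_of_nonneg_right ?_ D0) h3.w0
  have h1 : (u + v) * t ≤ ((1 - max v w) + v) * c.t1 :=
    mul_le_mul (by linarith) ht.2 (h0.trans ht.1) (by linarith [h3.u0, h3.v0])
  linarith

theorem u_le : u ≤ 1 - max v w := by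
  rcases le_total v w with h | h
  · rw [max_eq_right h]; linarith [h3.uw]
  · rw [max_eq_left h]; linarith [h3.uv]

theorem gf_le (hM : w * ((1 + ((1 - max v w) + v) * c.t1) * c.DD w) < 1) :
    gf t c.C c.bb c.DD u v w * (1 + t)
      ≤ c.bb v * c.C / (1 - w * ((1 + ((1 - max v w) + v) * c.t1) * c.DD w)) ^ 2 := by
  have h0 : (0 : ℝ) ≤ c.t0 := by exact_mod_cast hs.t0
  have t0 : 0 ≤ t := h0.trans ht.1
  have t1 : 0 < 1 + t := by linarith
  have v1 : v ∈ Icc (0 : ℝ) 1 := ⟨h3.v0, by linarith [h3.vw, h3.w0]⟩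
  have b0 : 0 ≤ c.bb v := pl_nonneg (by exact_mod_cast hs.B0) (by exact_mod_cast hs.Bh)
    (by exact_mod_cast hs.B1) v1
  have C0 : (0 : ℝ) ≤ c.C := by exact_mod_cast hs.C
  have hM1 := Mf_le hs ht h3
  have p1 : 0 < 1 - w * ((1 + ((1 - max v w) + v) * c.t1) * c.DD w) := by linarith
  have e : gf t c.C c.bb c.DD u v w * (1 + t) = c.bb v * c.C / (1 - Mf t c.DD u v w) ^ 2 := by
    unfold gf
    field_simp
  rw [e]
  exact div_le_div_of_nonneg_left (mul_nonneg b0 C0) (by positivity)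
    (pow_le_pow_left₀ p1.le (by linarith) 2)

theorem pf_le (hM : w * ((1 + ((1 - max v w) + v) * c.t1) * c.DD w) < 1) :
    0 ≤ pf t c.C c.bb c.DD u v w ∧ pf t c.C c.bb c.DD u v w
      ≤ c.bb v * c.C * ((1 + (1 - max v w) * c.t0) * (1 - w))
        / ((1 + c.t0) * (1 - w * ((1 + ((1 - max v w) + v) * c.t1) * c.DD w)) ^ 2) := by
  have h0 : (0 : ℝ) ≤ c.t0 := by exact_mod_cast hs.t0
  have t0 : 0 ≤ t := h0.trans ht.1
  have t1 : 0 < 1 + t := by linarith
  have v1 : v ∈ Icc (0 : ℝ) 1 := ⟨h3.v0, by linarith [h3.vw, h3.w0]⟩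
  have w1 : w ≤ 1 := by linarith [h3.vw, h3.v0]
  have b0 : 0 ≤ c.bb v := pl_nonneg (by exact_mod_cast hs.B0) (by exact_mod_cast hs.Bh)
    (by exact_mod_cast hs.B1) v1
  have C0 : (0 : ℝ) ≤ c.C := by exact_mod_cast hs.C
  have hg := gf_le hs ht h3 hM
  have hu := u_le hs ht h3
  have hmx : 0 ≤ max v w := h3.v0.trans (le_max_left _ _)
  have hT := tf_le h3.u0 hu (by linarith) h0 ht.1
  have g0 : 0 ≤ gf t c.C c.bb c.DD u v w :=
    mul_nonneg (div_nonneg b0 t1.le) (div_nonneg C0 (sq_nonneg _))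
  have p1 : 0 < 1 - w * ((1 + ((1 - max v w) + v) * c.t1) * c.DD w) := by linarith
  have ut : 0 ≤ 1 + u * t := by have := mul_nonneg h3.u0 t0; linarith
  refine ⟨mul_nonneg (mul_nonneg g0 ut) (by linarith), ?_⟩
  have e : pf t c.C c.bb c.DD u v w = gf t c.C c.bb c.DD u v w * (1 + t)
      * ((1 + u * t) / (1 + t)) * (1 - w) := by
    unfold pf
    field_simp
  rw [e]
  have s1 : gf t c.C c.bb c.DD u v w * (1 + t) * ((1 + u * t) / (1 + t))
      ≤ c.bb v * c.C / (1 - w * ((1 + ((1 - max v w) + v) * c.t1) * c.DD w)) ^ 2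
        * ((1 + (1 - max v w) * c.t0) / (1 + c.t0)) :=
    mul_le_mul hg hT (div_nonneg ut t1.le) (div_nonneg (mul_nonneg b0 C0) (sq_nonneg _))
  refine (mul_le_mul_of_nonneg_right s1 (by linarith)).trans (le_of_eq ?_)
  have q0 : (0 : ℝ) < 1 + c.t0 := by linarith
  field_simp

theorem sqE_le (hM : w * ((1 + ((1 - max v w) + v) * c.t1) * c.DD w) < 1) {K : ℚ} {e e' g : ℝ}
    (he : 0 ≤ e) (hee : e ≤ e') (hg : 0 ≤ g)
    (h : 0 ≤ (K : ℝ) ^ 2 * ((1 + (c.t0 : ℝ)) ^ 2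
        * (1 - w * ((1 + ((1 - max v w) + v) * c.t1) * c.DD w)) ^ 4)
      - (c.bb v * c.C * ((1 + (1 - max v w) * c.t0) * (1 - w)) * e') ^ 2 * g) :
    (pf t c.C c.bb c.DD u v w * e) ^ 2 * g ≤ (K : ℝ) ^ 2 := by
  obtain ⟨a0, a1⟩ := pf_le hs ht h3 hM
  have h0 : (0 : ℝ) ≤ c.t0 := by exact_mod_cast hs.t0
  set p1 := 1 - w * ((1 + ((1 - max v w) + v) * c.t1) * c.DD w) with hp1
  have q1 : 0 < p1 := by rw [hp1]; linarith
  set Nn := c.bb v * c.C * ((1 + (1 - max v w) * c.t0) * (1 - w)) with hN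
  have q0 : 0 < (1 + (c.t0 : ℝ)) * p1 ^ 2 := mul_pos (by linarith) (by positivity)
  have s1 : pf t c.C c.bb c.DD u v w * e ≤ Nn / ((1 + c.t0) * p1 ^ 2) * e' :=
    mul_le_mul a1 hee he (a0.trans a1)
  have s2 := pow_le_pow_left₀ (mul_nonneg a0 he) s1 2
  refine (mul_le_mul_of_nonneg_right s2 hg).trans ?_
  have e1 : (Nn / ((1 + (c.t0 : ℝ)) * p1 ^ 2) * e') ^ 2 * g
      = (Nn * e') ^ 2 * g / ((1 + (c.t0 : ℝ)) * p1 ^ 2) ^ 2 := by
    field_simp
  rw [e1, div_le_iff₀ (by positivity)]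
  have e2 : ((1 + (c.t0 : ℝ)) * p1 ^ 2) ^ 2 = (1 + (c.t0 : ℝ)) ^ 2 * p1 ^ 4 := by ring
  rw [e2]
  linarith

end

/-- **the amplitudes of the cell** -/
theorem avs_of (hs : c.Sg) (hr : c.Rgs) (ht : t ∈ Icc (c.t0 : ℝ) c.t1) :
    Avs t c.C c.th c.bb c.DD c.EE c.Q0 c.Q1 c.Q2 ((c.Ac : ℝ) ^ 2) ((c.gI : ℝ) ^ 2) c.J := by
  have h0 : (0 : ℝ) ≤ c.t0 := by exact_mod_cast hs.t0
  have t0 : 0 ≤ t := h0.trans ht.1
  have hth : (0 : ℝ) ≤ c.th := by exact_mod_cast hs.th0.le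
  have hb0 : ∀ v ∈ Icc (0 : ℝ) 1, 0 ≤ c.bb v := fun v hv =>
    pl_nonneg (by exact_mod_cast hs.B0) (by exact_mod_cast hs.Bh) (by exact_mod_cast hs.B1) hv
  have hE0 : ∀ v ∈ Icc (0 : ℝ) 1, 0 ≤ c.EE v := fun v hv =>
    pl_nonneg (by exact_mod_cast hs.E0) (by exact_mod_cast hs.Eh) (by exact_mod_cast hs.E1) hv
  have hM : ∀ {u v w : ℝ}, Tr3 u v w →
      w * ((1 + ((1 - max v w) + v) * c.t1) * c.DD w) < 1 := fun {u v w} h3 => by
    have := hr.M.nonneg (F := fun u v w _ D _ => 99 / 100 - w * ((1 + (u + v) * c.t1) * D))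
      (fun ρ u v w b D e => by
        unfold fM
        rw [val_sub, val_eMb, val_qc]
        push_cast
        rfl) h3.v0 h3.w0 h3.vw
    beta_reduce at this
    unfold Cel.DD
    linarith
  refine
    { C0 := by exact_mod_cast hs.C
      Θ0 := by exact_mod_cast hs.th0
      Θ1 := by exact_mod_cast hs.th1
      bb0 := hb0
      EE0 := hE0
      q0 := by exact_mod_cast hs.Q0
      q1 := by exact_mod_cast hs.Q1
      q2 := by exact_mod_cast hs.Q2
      J0 := by exact_mod_cast hs.J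
      gI0 := sq_nonneg _
      M1 := fun u v w h3 => lt_of_le_of_lt (Mf_le hs ht h3) (hM h3)
      c0 := fun u v w h3 => ?_
      c1 := fun u v w h3 => ?_
      c2 := fun u v w h3 => ?_
      cc := fun u v w h3 => ?_
      cI := fun u v w h3 => ?_
      cJ := fun u v w h3 => ?_ }
  · have key := hr.r0.nonneg (F := fun u v w b D _ => (c.Q0 : ℝ) ^ 2 * ((1 + (c.t0 : ℝ)) ^ 2
        * (1 - w * ((1 + (u + v) * c.t1) * D)) ^ 4)
        - (b * c.C * ((1 + u * c.t0) * (1 - w)) * 1) ^ 2 * (1 - v)) (fun ρ u v w b D e => by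
      unfold f0
      rw [val_sub, val_eP, val_mul, val_pow, val_eN, val_sub, val_one, mul_one])
      h3.v0 h3.w0 h3.vw
    have := sqE_le hs ht h3 (hM h3) (K := c.Q0) (e := 1) (e' := 1) (g := 1 - v) zero_le_one le_rfl
      (by linarith [h3.vw, h3.w0]) key
    rwa [mul_one] at this
  · have key := hr.r1.nonneg (F := fun u v w b D _ => (c.Q1 : ℝ) ^ 2 * ((1 + (c.t0 : ℝ)) ^ 2
        * (1 - w * ((1 + (u + v) * c.t1) * D)) ^ 4)
        - (b * c.C * ((1 + u * c.t0) * (1 - w)) * pv (exl c.th) v) ^ 2 * (1 - v))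
      (fun ρ u v w b D e => by
      unfold f1
      rw [val_sub, val_eP, val_mul, val_pow, val_mul, val_eN, val_sub, val_one, val_pe])
      h3.v0 h3.w0 h3.vw
    exact sqE_le hs ht h3 (hM h3) (K := c.Q1) (Real.exp_pos _).le
      (exl_le hs.th0.le hs.th1 ⟨h3.v0, by linarith [h3.vw, h3.w0]⟩)
      (by linarith [h3.vw, h3.w0]) key
  · have key := hr.r2.nonneg (F := fun u v w b D _ => (c.Q2 : ℝ) ^ 2 * ((1 + (c.t0 : ℝ)) ^ 2
        * (1 - w * ((1 + (u + v) * c.t1) * D)) ^ 4)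
        - (b * c.C * ((1 + u * c.t0) * (1 - w)) * pv (exl c.th) (v + w)) ^ 2 * (1 - v))
      (fun ρ u v w b D e => by
      unfold f2
      rw [val_sub, val_eP, val_mul, val_pow, val_mul, val_eN, val_sub, val_one, val_pe,
        val_add])
      h3.v0 h3.w0 h3.vw
    exact sqE_le hs ht h3 (hM h3) (K := c.Q2) (Real.exp_pos _).le
      (exl_le hs.th0.le hs.th1 ⟨add_nonneg h3.v0 h3.w0, h3.vw⟩)
      (by linarith [h3.vw, h3.w0]) key
  · have key := hr.rc.nonneg (F := fun u v w b D _ => (c.Ac : ℝ) ^ 2 * ((1 + (c.t0 : ℝ)) ^ 2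
        * (1 - w * ((1 + (u + v) * c.t1) * D)) ^ 4)
        - (b * c.C * ((1 + u * c.t0) * (1 - w)) * 1) ^ 2 * 1) (fun ρ u v w b D e => by
      unfold fc
      rw [val_sub, val_eP, val_pow, val_eN, mul_one, mul_one])
      h3.v0 h3.w0 h3.vw
    have := sqE_le hs ht h3 (hM h3) (K := c.Ac) (e := 1) (e' := 1) (g := 1) zero_le_one le_rfl
      zero_le_one key
    rwa [mul_one, mul_one] at this
  · have key := hr.rI.nonneg (F := fun u v w b D _ => (c.gI : ℝ) ^ 2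
        * (1 - w * ((1 + (u + v) * c.t1) * D)) ^ 4 - (b * c.C) ^ 2 * ((1 - w) * (1 - w - v)))
      (fun ρ u v w b D e => by
      unfold fI
      rw [val_sub, val_mul, val_pow, val_sub, val_eMb, val_qc, val_one, val_mul, val_pow, val_mul,
        val_mul, val_sub, val_sub, val_sub, val_one, val_qc]
      push_cast
      rfl)
      h3.v0 h3.w0 h3.vw
    have hg := gf_le hs ht h3 (hM h3)
    have v1 : v ∈ Icc (0 : ℝ) 1 := ⟨h3.v0, by linarith [h3.vw, h3.w0]⟩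
    have g0 : 0 ≤ gf t c.C c.bb c.DD u v w * (1 + t) :=
      mul_nonneg (mul_nonneg (div_nonneg (hb0 v v1) (by linarith))
        (div_nonneg (by exact_mod_cast hs.C) (sq_nonneg _))) (by linarith)
    have p1 : 0 < 1 - w * ((1 + ((1 - max v w) + v) * c.t1) * c.DD w) := by
      have := hM h3; linarith
    have r0 : 0 ≤ (1 - w) * (1 - w - v) :=
      mul_nonneg (by linarith [h3.vw, h3.v0]) (by linarith [h3.vw])
    have s1 := mul_le_mul_of_nonneg_right (pow_le_pow_left₀ g0 hg 2) r0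
    rw [mul_assoc]
    refine s1.trans ?_
    rw [div_pow, div_mul_eq_mul_div, div_le_iff₀ (by positivity)]
    have e2 : ((1 - w * ((1 + ((1 - max v w) + v) * c.t1) * c.DD w)) ^ 2) ^ 2
      = (1 - w * ((1 + ((1 - max v w) + v) * c.t1) * c.DD w)) ^ 4 := by ring
    rw [e2]
    have k2 : 0 ≤ (c.gI : ℝ) ^ 2 * (1 - w * ((1 + ((1 - max v w) + v) * c.t1) * c.DD w)) ^ 4
        - (c.bb v * c.C) ^ 2 * ((1 - w) * (1 - w - v)) := key
    linarith
  · have key := hr.rJ.nonneg (F := fun u v w b D e => (c.J : ℝ) * ((1 + (c.t0 : ℝ))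
        * (1 - w * ((1 + (u + v) * c.t1) * D)) ^ 2) - b * ((1 + (u + v) * c.t1) * e))
      (fun ρ u v w b D e => by
      unfold fJ
      rw [val_sub, val_mul, val_mul, val_pow, val_sub, val_eMb, val_qc, val_add, val_qc, val_one,
        val_mul, val_mul, val_add, val_mul, val_add, val_qc, val_one])
      h3.v0 h3.w0 h3.vw
    have k2 : 0 ≤ (c.J : ℝ) * ((1 + (c.t0 : ℝ))
        * (1 - w * ((1 + ((1 - max v w) + v) * c.t1) * c.DD w)) ^ 2)
        - c.bb v * ((1 + ((1 - max v w) + v) * c.t1) * c.EE w) := key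
    have hMl := Mf_le hs ht h3
    have p1 : 0 < 1 - w * ((1 + ((1 - max v w) + v) * c.t1) * c.DD w) := by
      have := hM h3; linarith
    have v1 : v ∈ Icc (0 : ℝ) 1 := ⟨h3.v0, by linarith [h3.vw, h3.w0]⟩
    have w1 : w ∈ Icc (0 : ℝ) 1 := ⟨h3.w0, by linarith [h3.vw, h3.v0]⟩
    have b0 := hb0 v v1
    have E0 := hE0 w w1
    have hu := u_le hs ht h3
    have g1 : (1 + (u + v) * t) * c.EE w ≤ (1 + ((1 - max v w) + v) * c.t1) * c.EE w := by
      refine mul_le_mul_of_nonneg_right ?_ E0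
      have : (u + v) * t ≤ ((1 - max v w) + v) * c.t1 :=
        mul_le_mul (by linarith) ht.2 t0 (by linarith [h3.u0, h3.v0])
      linarith
    have g0 : 0 ≤ (1 + (u + v) * t) * c.EE w := by
      refine mul_nonneg ?_ E0
      have := mul_nonneg (add_nonneg h3.u0 h3.v0) t0
      linarith
    have g2 : c.bb v / (1 + t) ≤ c.bb v / (1 + c.t0) :=
      div_le_div_of_nonneg_left b0 (by linarith) (by linarith [ht.1])
    have g3 : c.bb v / (1 + t) * ((1 + (u + v) * t) * c.EE w)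
        ≤ c.bb v / (1 + c.t0) * ((1 + ((1 - max v w) + v) * c.t1) * c.EE w) :=
      mul_le_mul g2 g1 g0 (div_nonneg b0 (by linarith))
    have p2 : (1 - w * ((1 + ((1 - max v w) + v) * c.t1) * c.DD w)) ^ 2
        ≤ (1 - Mf t c.DD u v w) ^ 2 := pow_le_pow_left₀ p1.le (by linarith) 2
    have p3 : 0 < (1 - w * ((1 + ((1 - max v w) + v) * c.t1) * c.DD w)) ^ 2 := by positivity
    have g4 : 0 ≤ c.bb v / (1 + c.t0) * ((1 + ((1 - max v w) + v) * c.t1) * c.EE w) :=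
      (mul_nonneg (div_nonneg b0 (by linarith)) g0).trans g3
    refine (div_le_div₀ g4 g3 p3 p2).trans ?_
    rw [div_le_iff₀ p3, div_mul_eq_mul_div, div_le_iff₀ (by linarith)]
    linarith

end Pool.Agent.RX.RCN.K
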