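import Pool.Agent.RX.RCN.KleC
import Pool.Agent.RX.RCN.T2b

/-! The amplitudes of the second type: bounds of the ratio from the polynomials of the certificate
(MP_73ccd0_lc, route M). -/

namespace Pool.Agent.RX.RCN.K

open Set Finset MeasureTheory Pool.Agent.RX.RCM9 Pool.Agent.RX.RCM9.Bern Pool.Agent.RX.RCM9.Pk

set_option linter.unusedSectionVars false

/-! ### piecewise linear functions -/

theorem pl_lin {f : ℝ → ℝ} {α β γ : ℝ} (hf : ∀ w, f w = α + (1 - w) * β + eta w * γ)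
    (w : ℝ) : f w = pl (f 0) (f (1 / 2)) (f 1) w := by
  have e0 : eta 0 = 0 := min_eq_left (by norm_num)
  have eh : eta (1 / 2) = 1 / 2 := min_eq_left le_rfl
  have e1 : eta 1 = 1 / 2 := min_eq_right (by norm_num)
  rw [hf w, hf 0, hf (1 / 2), hf 1, e0, eh, e1]
  unfold pl
  split_ifs with h
  · rw [show eta w = w from min_eq_left h]
    ring
  · rw [show eta w = 1 / 2 from min_eq_right (not_le.1 h).le]
    ring

theorem pl_mono {a h b a' h' b' v : ℝ} (ha : a ≤ a') (hh : h ≤ h') (hb : b ≤ b')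
    (hv : v ∈ Icc (0 : ℝ) 1) : pl a h b v ≤ pl a' h' b' v := by
  unfold pl
  split_ifs with h1
  · nlinarith [mul_nonneg (sub_nonneg.2 ha) (show 0 ≤ 1 - 2 * v by linarith),
      mul_nonneg (sub_nonneg.2 hh) hv.1]
  · nlinarith [mul_nonneg (sub_nonneg.2 hh) (show 0 ≤ 1 - v by linarith [hv.2]),
      mul_nonneg (sub_nonneg.2 hb) (show 0 ≤ 2 * v - 1 by linarith)]

/-! ### the polynomials -/

variable (d : Dat) (q : Iq) (c : Cel)

variable {d q c}

/-- the value of an expression in the time at a point of `[0, bt]` -/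
theorem nn_tg {f : E → E} {F : ℝ → ℝ} (h : NC (f (tg q))) (hf : ∀ ρ e, (f e).val ρ = F (e.val ρ))
    (hb : 0 < q.bt) {t : ℝ} (ht : t ∈ Icc (0 : ℝ) q.bt) : 0 ≤ F t := by
  have hb' : (0 : ℝ) < q.bt := by exact_mod_cast hb
  have z0 : (0 : ℝ) ∈ Icc (0 : ℝ) 1 := ⟨le_rfl, zero_le_one⟩
  have key := h 0 0 0 (t / q.bt) z0 z0 z0 ⟨div_nonneg ht.1 hb'.le, (div_le_one hb').2 ht.2⟩
  rw [hf] at key
  unfold tg at key
  rw [val_mul, val_qc, val_uT, mul_div_cancel₀ _ hb'.ne'] at key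
  exact key

theorem nn_tcl {f : E → E} {F : ℝ → ℝ} (h : NC (f (tcl c)))
    (hf : ∀ ρ e, (f e).val ρ = F (e.val ρ)) (h01 : c.t0 < c.t1) {t : ℝ}
    (ht : t ∈ Icc (c.t0 : ℝ) c.t1) : 0 ≤ F t := by
  have hb' : (0 : ℝ) < (c.t1 : ℝ) - c.t0 := by
    have : (c.t0 : ℝ) < c.t1 := by exact_mod_cast h01
    linarith
  have z0 : (0 : ℝ) ∈ Icc (0 : ℝ) 1 := ⟨le_rfl, zero_le_one⟩
  have key := h 0 0 0 ((t - c.t0) / (c.t1 - c.t0)) z0 z0 z0
    ⟨div_nonneg (by linarith [ht.1]) hb'.le, (div_le_one hb').2 (by linarith [ht.2])⟩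
  rw [hf] at key
  unfold tcl at key
  rw [val_add, val_mul, val_qc, val_qc, val_uT] at key
  have e : (c.t0 : ℝ) + ((c.t1 - c.t0 : ℚ) : ℝ) * ((t - c.t0) / (c.t1 - c.t0)) = t := by
    push_cast
    rw [mul_div_cancel₀ _ hb'.ne']
    ring
  rw [e] at key
  exact key

theorem val_ebv (ρ : ℕ → ℝ) (α β : ℚ) (t : E) : (ebv d α β t).val ρ
    = 1 + (α : ℝ) * (pv d.be0 (t.val ρ) - 1) + (β : ℝ) * pv d.be1 (t.val ρ) := by
  unfold ebv
  rw [val_add, val_add, val_mul, val_mul, val_sub, val_pe, val_pe, val_qc, val_qc, val_one]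

theorem val_ezv (ρ : ℕ → ℝ) (α β : ℚ) (t : E) : (ezv d α β t).val ρ
    = t.val ρ + (1 + t.val ρ) * ((α : ℝ) / 2 * (pv d.F (t.val ρ) + pv d.F3 (t.val ρ)
        + pv d.F2 (t.val ρ)) + (d.SP : ℝ) * α * pv d.Gp (t.val ρ)
        - (β : ℝ) * pv d.Z (t.val ρ)) := by
  unfold ezv
  rw [val_add, val_mul, val_add, val_sub, val_add, val_mul, val_mul, val_mul, val_add, val_add,
    val_pe, val_pe, val_pe, val_pe, val_pe, val_qc, val_qc, val_qc, val_one]
  push_cast
  ring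

variable {Pe : ℝ → ℝ → ℝ} {Pt : ℝ → ℝ → ℝ → ℝ} {κd : ℝ → ℝ → ℝ → ℝ}

/-- the form of the functions of the density -/
structure Kform (d : Dat) (q : Iq) (Pe : ℝ → ℝ → ℝ) (κd : ℝ → ℝ → ℝ → ℝ) : Prop where
  Pe : ∀ w, ∀ t ∈ Icc (0 : ℝ) q.bt, Pe w t = (1 + w * t) * (1 + d.ee * t)
  κd : ∀ w, ∀ t ∈ Icc (0 : ℝ) q.bt, ∀ s ∈ Icc 0 t,
    κd w t s = (1 + w * t) * ((1 + d.ee * t) * (pv q.kc t * pv q.ke s))

theorem fh_eq (y s : ℝ) : (d.dt.kf (pv d.be0) (pv d.be1) Pe Pt).fh y s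
    = (1 + (1 - y) * (pv d.be0 s - 1) + eta y * pv d.be1 s) * ((1 + s) ^ 2)⁻¹ := rfl

theorem fi_eq' (y t : ℝ) : (d.dt.kf (pv d.be0) (pv d.be1) Pe Pt).fi y t
    = t / (1 + t) - eta y * pv d.Z t + (1 - y) / 2 * (pv d.F t + pv d.F3 t + pv d.F2 t)
      + d.SP * (1 - y) * pv d.Gp t := rfl

theorem fh_cont2 (y : ℝ) {t : ℝ} : ContinuousOn
    (fun s => (d.dt.kf (pv d.be0) (pv d.be1) Pe Pt).fh y s) (Icc 0 t) := by
  simp only [fh_eq]
  have h1 : ContinuousOn (fun s : ℝ => ((1 + s) ^ 2)⁻¹) (Icc 0 t) := by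
    refine ContinuousOn.inv₀ (by fun_prop) fun s hs => ?_
    have : 0 < 1 + s := by linarith [hs.1]
    positivity
  refine ContinuousOn.mul ?_ h1
  have c0 := (continuous_pv d.be0).continuousOn (s := Icc 0 t)
  have c1 := (continuous_pv d.be1).continuousOn (s := Icc 0 t)
  exact (continuousOn_const.add (continuousOn_const.mul (c0.sub continuousOn_const))).add
    (continuousOn_const.mul c1)

theorem int_pri2 (p : List ℚ) {t : ℝ} (ht : 0 ≤ t) : ∫ s in (0 : ℝ)..t, pv p s = pv (pri p) t := by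
  rw [intervalIntegral.integral_eq_sub_of_hasDerivAt (f := pv (pri p))
    (fun s _ => hasDerivAt_pri p s) ((continuous_pv p).intervalIntegrable _ _), pri_zero, sub_zero]

/-- the bounds at a vertex -/
theorem vert {α β : ℚ} {p r : List ℚ} {y : ℝ} (hα : 1 - y = α) (hβ : eta y = β) (hb : 0 < q.bt)
    (hp : NC (kp d q α β p (tg q))) (hr : NC (kq' d α β r (tg q))) (hkc : NC (pe q.kc (tg q)))
    {t : ℝ} (ht : t ∈ Icc (0 : ℝ) q.bt) :
    ∫ s in (0 : ℝ)..t, (d.dt.kf (pv d.be0) (pv d.be1) Pe Pt).fh y s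
        * (pv q.kc t * pv q.ke s - 1)
      ≤ pv q.kc t * pv (pri p) t - pv (pri r) t := by
  set k := d.dt.kf (pv d.be0) (pv d.be1) Pe Pt with hk
  have c0 : ContinuousOn (fun s => k.fh y s) (Icc 0 t) := fh_cont2 y
  have cke := (continuous_pv q.ke).continuousOn (s := Icc 0 t)
  have kc0 : 0 ≤ pv q.kc t := nn_tg (F := fun t => pv q.kc t) hkc (fun ρ e => by rw [val_pe]) hb ht
  have hfh : ∀ s : ℝ, k.fh y s = (1 + (α : ℝ) * (pv d.be0 s - 1) + (β : ℝ) * pv d.be1 s)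
      * ((1 + s) ^ 2)⁻¹ := fun s => by rw [hk, fh_eq, hα, hβ]
  have i1 : ∫ s in (0 : ℝ)..t, k.fh y s * pv q.ke s ≤ pv (pri p) t := by
    rw [← int_pri2 p ht.1]
    refine intervalIntegral.integral_mono_on ht.1 (iiC ht.1 (c0.mul cke))
      ((continuous_pv p).intervalIntegrable _ _) fun s hs => ?_
    have hs' : s ∈ Icc (0 : ℝ) q.bt := ⟨hs.1, hs.2.trans ht.2⟩
    have key := nn_tg (F := fun s => (1 + s) ^ 2 * pv p s
      - (1 + (α : ℝ) * (pv d.be0 s - 1) + (β : ℝ) * pv d.be1 s) * pv q.ke s) hp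
      (fun ρ e => by
        unfold kp
        rw [val_sub, val_mul, val_mul, val_pow, val_add, val_ebv, val_pe, val_pe, val_one]) hb hs'
    beta_reduce at key
    have s1 : 0 < (1 + s) ^ 2 := by have := hs.1; positivity
    rw [hfh, mul_right_comm, ← div_eq_mul_inv, div_le_iff₀ s1]
    linarith
  have i2 : pv (pri r) t ≤ ∫ s in (0 : ℝ)..t, k.fh y s := by
    rw [← int_pri2 r ht.1]
    refine intervalIntegral.integral_mono_on ht.1 ((continuous_pv r).intervalIntegrable _ _)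
      (iiC ht.1 c0) fun s hs => ?_
    have hs' : s ∈ Icc (0 : ℝ) q.bt := ⟨hs.1, hs.2.trans ht.2⟩
    have key := nn_tg (F := fun s => (1 + (α : ℝ) * (pv d.be0 s - 1) + (β : ℝ) * pv d.be1 s)
      - (1 + s) ^ 2 * pv r s) hr
      (fun ρ e => by
        unfold kq'
        rw [val_sub, val_mul, val_pow, val_add, val_ebv, val_pe, val_one]) hb hs'
    beta_reduce at key
    have s1 : 0 < (1 + s) ^ 2 := by have := hs.1; positivity
    rw [hfh, ← div_eq_mul_inv, le_div_iff₀ s1]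
    linarith
  have e : ∫ s in (0 : ℝ)..t, k.fh y s * (pv q.kc t * pv q.ke s - 1)
      = pv q.kc t * (∫ s in (0 : ℝ)..t, k.fh y s * pv q.ke s) - ∫ s in (0 : ℝ)..t, k.fh y s := by
    rw [← intervalIntegral.integral_const_mul, ← intervalIntegral.integral_sub
      (f := fun s => pv q.kc t * (k.fh y s * pv q.ke s)) (g := fun s => k.fh y s)
      (iiC ht.1 (continuousOn_const.mul (c0.mul cke))) (iiC ht.1 c0)]
    refine intervalIntegral.integral_congr fun s _ => ?_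
    beta_reduce
    ring
  rw [e]
  exact sub_le_sub (mul_le_mul_of_nonneg_left i1 kc0) i2

/-- **the bounds of the ratio in the cell** -/
theorem db_of (hq : q.Ok d) (hb : 0 < q.bt) (hee : 0 ≤ d.ee) (hv : c.Vl d q)
    (h01 : c.t0 < c.t1) (h0 : 0 ≤ c.t0) (hK : Kform d q Pe κd) {t : ℝ}
    (ht : t ∈ Icc (c.t0 : ℝ) c.t1) :
    Db (d.dt.kf (pv d.be0) (pv d.be1) Pe Pt) κd t c.bb c.DD c.EE := by
  set k := d.dt.kf (pv d.be0) (pv d.be1) Pe Pt with hk
  have c0 : (0 : ℝ) ≤ c.t0 := by exact_mod_cast h0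
  have t0 : 0 ≤ t := c0.trans ht.1
  have t1 : 0 < 1 + t := by linarith
  have htb : t ∈ Icc (0 : ℝ) q.bt := ⟨t0, ht.2.trans (by exact_mod_cast hv.bt)⟩
  have ee0 : (0 : ℝ) ≤ d.ee := by exact_mod_cast hee
  have et : 0 ≤ 1 + (d.ee : ℝ) * t := by have := mul_nonneg ee0 t0; linarith
  have a0 : (1 : ℝ) - 0 = ((1 : ℚ) : ℝ) := by norm_num
  have ah : (1 : ℝ) - 1 / 2 = ((1 / 2 : ℚ) : ℝ) := by norm_num
  have a1 : (1 : ℝ) - 1 = ((0 : ℚ) : ℝ) := by norm_num
  have e0 : eta 0 = ((0 : ℚ) : ℝ) := by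
    rw [show eta 0 = 0 from min_eq_left (by norm_num)]; norm_num
  have eh : eta (1 / 2) = ((1 / 2 : ℚ) : ℝ) := by
    rw [show eta (1 / 2) = 1 / 2 from min_eq_left le_rfl]; norm_num
  have e1 : eta 1 = ((1 / 2 : ℚ) : ℝ) := by
    rw [show eta 1 = 1 / 2 from min_eq_right (by norm_num)]; norm_num
  -- the density
  have vb : ∀ {α β B : ℚ} {y : ℝ}, 1 - y = α → eta y = β → NC (kB d α β B (tcl c)) →
      k.b y t ≤ B := fun {α β B y} hα hβ h => by
    have key := nn_tcl (F := fun t => (B : ℝ)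
      - (1 + (α : ℝ) * (pv d.be0 t - 1) + (β : ℝ) * pv d.be1 t)) h (fun ρ e => by
        unfold kB
        rw [val_sub, val_ebv, val_qc]) h01 ht
    beta_reduce at key
    show 1 + (1 - y) * (pv d.be0 t - 1) + eta y * pv d.be1 t ≤ B
    rw [hα, hβ]
    linarith
  -- the integrals
  set IF : ℝ → ℝ := fun w => ∫ s in (0 : ℝ)..t, k.fh w s * (pv q.kc t * pv q.ke s - 1) with hIF
  have hIFa : ∃ α β γ, ∀ w, IF w = α + (1 - w) * β + eta w * γ := by
    have ci : ContinuousOn (fun s : ℝ => ((1 + s) ^ 2)⁻¹ * (pv q.kc t * pv q.ke s - 1))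
        (Icc 0 t) := by
      refine ContinuousOn.mul (ContinuousOn.inv₀ (by fun_prop) fun s hs => ?_) ?_
      · have : 0 < 1 + s := by linarith [hs.1]
        positivity
      · exact (continuousOn_const.mul (continuous_pv q.ke).continuousOn).sub continuousOn_const
    have cb0 : ContinuousOn (fun s => pv d.be0 s - 1) (Icc 0 t) :=
      (continuous_pv d.be0).continuousOn.sub continuousOn_const
    have cb1 : ContinuousOn (fun s => pv d.be1 s) (Icc 0 t) := (continuous_pv d.be1).continuousOn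
    refine ⟨∫ s in (0 : ℝ)..t, ((1 + s) ^ 2)⁻¹ * (pv q.kc t * pv q.ke s - 1),
      ∫ s in (0 : ℝ)..t, (pv d.be0 s - 1) * (((1 + s) ^ 2)⁻¹ * (pv q.kc t * pv q.ke s - 1)),
      ∫ s in (0 : ℝ)..t, pv d.be1 s * (((1 + s) ^ 2)⁻¹ * (pv q.kc t * pv q.ke s - 1)),
      fun w => ?_⟩
    have c2 := cb0.mul ci
    have c3 := cb1.mul ci
    have j1 := intervalIntegral.integral_add (μ := volume)
      (f := fun s => ((1 + s) ^ 2)⁻¹ * (pv q.kc t * pv q.ke s - 1))
      (g := fun s => (1 - w) * ((pv d.be0 s - 1)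
        * (((1 + s) ^ 2)⁻¹ * (pv q.kc t * pv q.ke s - 1))))
      (iiC t0 ci) (iiC t0 (continuousOn_const.mul c2))
    have j2 := intervalIntegral.integral_add (μ := volume)
      (f := fun s => ((1 + s) ^ 2)⁻¹ * (pv q.kc t * pv q.ke s - 1)
        + (1 - w) * ((pv d.be0 s - 1) * (((1 + s) ^ 2)⁻¹ * (pv q.kc t * pv q.ke s - 1))))
      (g := fun s => eta w * (pv d.be1 s * (((1 + s) ^ 2)⁻¹ * (pv q.kc t * pv q.ke s - 1))))
      (iiC t0 (ci.add (continuousOn_const.mul c2))) (iiC t0 (continuousOn_const.mul c3))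
    rw [intervalIntegral.integral_const_mul] at j1 j2
    rw [← j1, ← j2]
    refine intervalIntegral.integral_congr fun s _ => ?_
    beta_reduce
    rw [hk, fh_eq]
    ring
  obtain ⟨α', β', γ', hIl⟩ := hIFa
  -- the normalised integral of the error
  have hint : ∀ y w, (∫ s in (0 : ℝ)..t, k.fh w s * (κd y t s - k.Pe y t))
      = (1 + y * t) * ((1 + d.ee * t) * IF w) := fun y w => by
    rw [hIF]
    beta_reduce
    rw [← intervalIntegral.integral_const_mul, ← intervalIntegral.integral_const_mul]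
    refine intervalIntegral.integral_congr fun s hs => ?_
    rw [uIcc_of_le t0] at hs
    have h1 := hK.κd y t htb s hs
    have h2 : k.Pe y t = (1 + y * t) * (1 + d.ee * t) := hK.Pe y t htb
    beta_reduce
    rw [h1, h2]
    ring
  -- the vertices
  have vE : ∀ {α β B : ℚ} {p r : List ℚ} {y : ℝ}, 1 - y = α → eta y = β →
      NC (kp d q α β p (tg q)) → NC (kq' d α β r (tg q)) → NC (kE d q p r B (tcl c)) →
      (1 + d.ee * t) * IF y ≤ B := fun {α β B p r y} hα hβ h1 h2 h3 => by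
    have j1 := vert (Pe := Pe) (Pt := Pt) hα hβ hb h1 h2 hq.kc0 htb
    have key := nn_tcl (F := fun t => (B : ℝ) - (1 + (d.ee : ℝ) * t)
      * (pv q.kc t * pv (pri p) t - pv (pri r) t)) h3 (fun ρ e => by
        unfold kE
        rw [val_sub, val_mul, val_add, val_mul, val_sub, val_mul, val_pe, val_pe, val_pe, val_qc,
          val_qc, val_one]) h01 ht
    beta_reduce at key
    have := mul_le_mul_of_nonneg_left j1 et
    linarith
  have vD : ∀ {α β B : ℚ} {p r : List ℚ} {y : ℝ}, 1 - y = α → eta y = β →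
      NC (kp d q α β p (tg q)) → NC (kq' d α β r (tg q)) → NC (kD d q α β p r B (tcl c)) →
      (1 + d.ee * t) * (k.fi y t + IF y) ≤ B := fun {α β B p r y} hα hβ h1 h2 h3 => by
    have j1 := vert (Pe := Pe) (Pt := Pt) hα hβ hb h1 h2 hq.kc0 htb
    have key := nn_tcl (F := fun t => (B : ℝ) * (1 + t) - (1 + (d.ee : ℝ) * t)
      * ((t + (1 + t) * ((α : ℝ) / 2 * (pv d.F t + pv d.F3 t + pv d.F2 t)
          + (d.SP : ℝ) * α * pv d.Gp t - (β : ℝ) * pv d.Z t))
        + (1 + t) * (pv q.kc t * pv (pri p) t - pv (pri r) t))) h3 (fun ρ e => by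
        unfold kD
        rw [val_sub, val_mul, val_mul, val_add, val_add, val_mul, val_add, val_mul, val_add,
          val_sub, val_mul, val_ezv, val_pe, val_pe, val_pe, val_qc, val_qc, val_one]) h01 ht
    beta_reduce at key
    have j2 : k.fi y t = t / (1 + t) - β * pv d.Z t
        + (α : ℝ) / 2 * (pv d.F t + pv d.F3 t + pv d.F2 t) + d.SP * α * pv d.Gp t := by
      rw [hk, fi_eq', hα, hβ]
    have j3 : (1 + t) * k.fi y t = t + (1 + t) * ((α : ℝ) / 2
        * (pv d.F t + pv d.F3 t + pv d.F2 t) + (d.SP : ℝ) * α * pv d.Gp t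
        - (β : ℝ) * pv d.Z t) := by
      rw [j2]
      field_simp
      ring
    have j4 : k.fi y t + IF y ≤ k.fi y t + (pv q.kc t * pv (pri p) t - pv (pri r) t) :=
      add_le_add le_rfl j1
    have j5 := mul_le_mul_of_nonneg_left (mul_le_mul_of_nonneg_left j4 et) t1.le
    have j6 : (1 + t) * ((1 + d.ee * t) * (k.fi y t
        + (pv q.kc t * pv (pri p) t - pv (pri r) t))) ≤ (1 + t) * B := by
      have e : (1 + t) * ((1 + d.ee * t) * (k.fi y t
          + (pv q.kc t * pv (pri p) t - pv (pri r) t)))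
          = (1 + d.ee * t) * ((1 + t) * k.fi y t
            + (1 + t) * (pv q.kc t * pv (pri p) t - pv (pri r) t)) := by ring
      rw [e, j3]
      linarith
    exact le_of_mul_le_mul_left (j5.trans j6) t1
  have hfia : ∀ w, k.fi w t = t / (1 + t) + (1 - w) * (1 / 2 * (pv d.F t + pv d.F3 t + pv d.F2 t)
      + d.SP * pv d.Gp t) + eta w * (-pv d.Z t) := fun w => by
    rw [hk, fi_eq']
    ring
  refine ⟨fun v hv' => ?_, fun y hy w hw => ?_, fun y hy w hw => ?_⟩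
  · have h1 : k.b v t ≤ c.bb v := by
      have e : k.b v t = pl (k.b 0 t) (k.b (1 / 2) t) (k.b 1 t) v :=
        pl_lin (f := fun v => k.b v t) (α := 1) (β := pv d.be0 t - 1) (γ := pv d.be1 t)
          (fun w => rfl) v
      rw [e]
      exact pl_mono (vb a0 e0 hv.B0) (vb ah eh hv.Bh) (vb a1 e1 hv.B1) hv'
    show (1 + t) * (k.b v t * ((1 + t) ^ 2)⁻¹) ≤ c.bb v / (1 + t)
    have e : (1 + t) * (k.b v t * ((1 + t) ^ 2)⁻¹) = k.b v t / (1 + t) := by
      field_simp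
    rw [e]
    exact div_le_div_of_nonneg_right h1 t1.le
  · rw [hint y w]
    have yt : 0 ≤ 1 + y * t := by have := mul_nonneg hy.1 t0; linarith
    have h2 : k.Pe y t = (1 + y * t) * (1 + d.ee * t) := hK.Pe y t htb
    have e : k.Pe y t * k.fi w t + (1 + y * t) * ((1 + d.ee * t) * IF w)
        = (1 + y * t) * ((1 + d.ee * t) * (k.fi w t + IF w)) := by rw [h2]; ring
    rw [e]
    refine mul_le_mul_of_nonneg_left ?_ yt
    have e2 : (1 + d.ee * t) * (k.fi w t + IF w)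
        = pl ((1 + d.ee * t) * (k.fi 0 t + IF 0)) ((1 + d.ee * t) * (k.fi (1 / 2) t + IF (1 / 2)))
          ((1 + d.ee * t) * (k.fi 1 t + IF 1)) w := by
      refine pl_lin (f := fun w => (1 + d.ee * t) * (k.fi w t + IF w))
        (α := (1 + d.ee * t) * (t / (1 + t) + α'))
        (β := (1 + d.ee * t) * ((1 / 2 * (pv d.F t + pv d.F3 t + pv d.F2 t)
          + d.SP * pv d.Gp t) + β')) (γ := (1 + d.ee * t) * (-pv d.Z t + γ'))
        (fun w => ?_) w
      beta_reduce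
      rw [hfia, hIl]
      ring
    rw [e2]
    exact pl_mono (vD a0 e0 hq.p0 hq.q0 hv.D0) (vD ah eh hq.ph hq.qh hv.Dh)
      (vD a1 e1 hq.p1 hq.q1 hv.D1) hw
  · rw [hint y w]
    have yt : 0 ≤ 1 + y * t := by have := mul_nonneg hy.1 t0; linarith
    refine mul_le_mul_of_nonneg_left ?_ yt
    have e2 : (1 + d.ee * t) * IF w
        = pl ((1 + d.ee * t) * IF 0) ((1 + d.ee * t) * IF (1 / 2)) ((1 + d.ee * t) * IF 1) w := by
      refine pl_lin (f := fun w => (1 + d.ee * t) * IF w) (α := (1 + d.ee * t) * α')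
        (β := (1 + d.ee * t) * β') (γ := (1 + d.ee * t) * γ') (fun w => ?_) w
      beta_reduce
      rw [hIl]
      ring
    rw [e2]
    exact pl_mono (vE a0 e0 hq.p0 hq.q0 hv.E0) (vE ah eh hq.ph hq.qh hv.Eh)
      (vE a1 e1 hq.p1 hq.q1 hv.E1) hw

end Pool.Agent.RX.RCN.K
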