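import Mathlib

/-! The rate of the second type: optimal parameters (MP_73ccd0_lc, route M). -/

namespace Pool.Agent.RX.RCN.K

open Set Finset MeasureTheory

set_option linter.unusedSectionVars false

/-- the optimal parameter of the inequality of the means, up to `ε` -/
theorem mean_inf {a b z ε : ℝ} (ha : 0 ≤ a) (hb : 0 ≤ b) (hz : 0 ≤ z) (h : a * b ≤ z ^ 2)
    (hε : 0 < ε) : ∃ l : ℝ, 0 < l ∧ 1 / 2 * (l * a + b / l) ≤ z + ε := by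
  rcases eq_or_lt_of_le ha with h0 | h0
  · refine ⟨b / ε + 1, by positivity, ?_⟩
    rw [← h0, mul_zero, zero_add]
    have h1 : 0 < b / ε + 1 := by positivity
    have h2 : b / (b / ε + 1) ≤ ε := by
      rw [div_le_iff₀ h1]
      have : ε * (b / ε + 1) = b + ε := by field_simp
      linarith
    linarith
  · have hzε : 0 < z + ε := by linarith
    refine ⟨(z + ε) / a, div_pos hzε h0, ?_⟩
    have e1 : (z + ε) / a * a = z + ε := by field_simp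
    have e2 : b / ((z + ε) / a) ≤ z + ε := by
      rw [div_div_eq_mul_div, div_le_iff₀ hzε]
      nlinarith
    rw [e1]
    linarith

variable {V : Type*} [Fintype V] [DecidableEq V]
variable {x : V → V → ℝ} {P : V → Prop} [DecidablePred P] {N : ℕ}

variable {sl : ℝ → ℝ → ℝ} {bw : ℝ} {B Bd : ℝ → ℝ → ℝ} {M : ℝ → ℝ}
variable {κd : ℝ → ℝ → ℝ → ℝ} {R : V → V → V → ℝ → ℝ → ℝ} {L Lt : V → V → V → V → ℝ → ℝ → ℝ}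
variable {t s : ℝ} {T' Y τ lam ν : ℝ → ℝ} {a : V} {g : V → V → ℝ}
variable {A F m ρ : ℝ} {Rm RD RT : V → V → V → ℝ}

/-- the scalar conditions at the times `t`, `s`; `c` is the constant of the common neighbours -/
structure Nc (Bd B : ℝ → ℝ → ℝ) (M : ℝ → ℝ) (t s c : ℝ) (T' Y τ lam ν : ℝ → ℝ)
    (Am Ac : ℝ) (AmB AcB : ℝ → ℝ) (Pc : ℝ → ℝ → ℝ) (GA GB : ℝ → ℝ)
    (Hb zH rI rII ξ rT rTT ξT : ℝ) : Prop where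
  A0 : 0 ≤ Am
  Ac0 : 0 ≤ Ac
  B0 : ∀ r ∈ Icc 0 s, 0 ≤ AmB r
  Bc0 : ∀ r ∈ Icc 0 s, 0 ≤ AcB r
  P0 : ∀ r ∈ Icc 0 s, ∀ v ∈ Icc (0 : ℝ) 1, 0 ≤ Pc r v
  Pm : ∀ r ∈ Icc 0 s, ∀ v ∈ Icc (0 : ℝ) 1, ∀ z ∈ Icc (0 : ℝ) 1, z ≤ v → Pc r z ≤ Pc r v
  PA : ∀ r ∈ Icc 0 s, ∀ v ∈ Icc (0 : ℝ) 1, Pc r v * (1 - v) ≤ AcB r
  cA : ContinuousOn GA (Icc 0 t)
  cB : ContinuousOn GB (Icc 0 s)
  a : ∃ z1 z2 : ℝ → ℝ, ∀ r ∈ Icc 0 t, 0 ≤ z1 r ∧ 0 ≤ z2 r ∧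
    Am * c * (lam r * M r) ≤ z1 r ^ 2 ∧ Ac * c * (lam r * ν r * M r) ≤ z2 r ^ 2 ∧
    Real.exp (2 * Y r) * (Real.exp (τ r)
      * (z1 r * Bd t r + 1 / 2 * z2 r * B t r * (t + T' r))) ≤ GA r
  b : ∃ z1 z2 : ℝ → ℝ, ∀ r ∈ Icc 0 s, 0 ≤ z1 r ∧ 0 ≤ z2 r ∧
    AmB r * c * (lam r * B s r * Bd s r) ≤ z1 r ^ 2 ∧
    AcB r * c * (lam r * B s r * Bd s r) * (t * M r / 4) ^ 2 ≤ z2 r ^ 2 ∧
    Real.exp (2 * Y r) * (z1 r + z2 r) ≤ GB r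
  H0 : 0 ≤ Hb
  z0 : 0 ≤ zH
  h : Am * Hb * Hb ≤ zH ^ 2
  I0 : 0 ≤ rI
  II0 : 0 ≤ rII
  x0 : 0 ≤ ξ
  x : rI * rII ≤ ξ ^ 2
  T0 : 0 ≤ rT
  TT0 : 0 ≤ rTT
  xt0 : 0 ≤ ξT
  xt : rT * rTT ≤ ξT ^ 2

end Pool.Agent.RX.RCN.K
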