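import Pool.Agent.RX.RCN.T2b
import Pool.Agent.RX.RCN.T2y_1

/-! The rate of the second type in a cell (MP_73ccd0_lc, route M). -/

namespace Pool.Agent.RX.RCN.K

open Set Finset MeasureTheory Pool.Agent.RX.RCRSHalf Pool.Agent.RX.RCG Pool.Agent.RX.RCG.Ct
open Pool.Agent.RX.RCN.Ker Pool.Agent.RX.RCM

open Pool.Agent.RX.RCM9 Pool.Agent.RX.RCM9.Bern Pool.Agent.RX.RCM9.Pk

set_option linter.unusedSectionVars false

variable (c : Cel) (n : Chn)

variable {c n}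

/-- the factor of the clock -/
noncomputable def alf (c : Cel) (t r : ℝ) : ℝ := (t - r) / c.t1
noncomputable def bef (c : Cel) (s r : ℝ) : ℝ := max (s - r) 0 / c.t1

/-- the majorants of the chains -/
noncomputable def GAf (c : Cel) (n : Chn) (t s r : ℝ) : ℝ :=
  (t - r) * (n.E2 * (n.Z1 + 1 / 2 * n.Z2 * n.b2 * c.t1)
    + n.E2 * (1 / 2 * n.Z2 * n.b2 * (c.th / c.t1)) * (t - r)) * (1 + n.e1 * max (s - r) 0)

noncomputable def GBf (c : Cel) (n : Chn) (t s r : ℝ) : ℝ :=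
  n.E2 * (n.KB * (1 + c.t1 * n.Mb / 4)) * ((s - r)
    * qI c.Q0 c.Q1 c.Q2 (alf c t r) (bef c s r))

theorem alf_cont (t : ℝ) : Continuous (alf c t) := by unfold alf; fun_prop
theorem bef_cont (s : ℝ) : Continuous (bef c s) := by unfold bef; fun_prop

theorem exl_le1 {z : ℚ} (h0 : 0 ≤ z) (h1 : z ≤ 1) : Real.exp (z : ℝ) ≤ (ev (exl 1) z : ℝ) := by
  have := exl_le (th := 1) zero_le_one le_rfl (z := (z : ℝ))
    ⟨by exact_mod_cast h0, by exact_mod_cast h1⟩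
  rw [pv_ev] at this
  rwa [Rat.cast_one, mul_one] at this

section sc

variable {t s : ℝ}

theorem scl_of (hs : c.Sg) (hn : n.Rat c) (hk : n.Ck c) (ht : t ∈ Icc (c.t0 : ℝ) c.t1)
    (hst : s ∈ Icc 0 t) :
    Scl c.t1 t s (fun r => alf c t r * c.th) (fun _ => (n.Yb : ℝ)) (fun r => bef c s r * c.th)
      (fun _ => (n.lb : ℝ)) (fun _ => (n.nb : ℝ)) := by
  have t0 : (0 : ℝ) ≤ c.t0 := by exact_mod_cast hs.t0
  have t1 : (0 : ℝ) < c.t1 := by
    have : (c.t0 : ℝ) < c.t1 := by exact_mod_cast hs.t01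
    linarith
  have th0 : (0 : ℝ) ≤ c.th := by exact_mod_cast hs.th0.le
  have th1 : (c.th : ℝ) ≤ 1 := by exact_mod_cast hs.th1
  have lb0 : (0 : ℝ) ≤ n.lb := by exact_mod_cast hn.lb
  have nb0 : (0 : ℝ) ≤ n.nb := by exact_mod_cast hn.nb
  have z0 : (0 : ℝ) ∈ Icc (0 : ℝ) 1 := ⟨le_rfl, zero_le_one⟩
  have a0 : ∀ r ∈ Icc 0 t, 0 ≤ alf c t r := fun r hr =>
    div_nonneg (by linarith [hr.2]) t1.le
  have a1 : ∀ r ∈ Icc 0 t, alf c t r ≤ 1 := fun r hr =>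
    (div_le_one t1).2 (by linarith [hr.1, ht.2])
  have T1 : ∀ r ∈ Icc 0 t, alf c t r * c.th ≤ c.th := fun r hr =>
    mul_le_of_le_one_left th0 (a1 r hr)
  have ex1 : ∀ r ∈ Icc 0 t, ∀ g ∈ Icc (0 : ℝ) 1,
      Real.exp (g * (alf c t r * c.th)) ≤ pv (exl c.th) g := fun r hr g hg =>
    (Real.exp_le_exp.2 (mul_le_mul_of_nonneg_left (T1 r hr) hg.1)).trans
      (exl_le hs.th0.le hs.th1 hg)
  refine
    { ht := ⟨t0.trans ht.1, ht.2⟩
      hs := hst
      cT := ((alf_cont t).mul continuous_const).continuousOn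
      cY := continuousOn_const
      cτ := ((bef_cont s).mul continuous_const).continuousOn
      τ0 := fun r hr => mul_nonneg (div_nonneg (le_max_right _ _) t1.le) th0
      τT := fun r hr => mul_le_mul_of_nonneg_right (div_le_div_of_nonneg_right
        (max_le (by linarith [hst.2]) (by linarith [hr.2])) t1.le) th0
      T1 := fun r hr => (T1 r hr).trans th1
      l0 := fun _ _ => lb0
      n0 := fun _ _ => nb0
      l := fun r hr g hg => ?_
      n := fun r hr g hg => ?_ }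
  · have h1 := hk.l g 0 0 0 hg z0 z0 z0
    rw [val_sub, val_mul, val_sub, val_pow, val_pe, val_qc, val_one, val_uX] at h1
    have h2 := pow_le_pow_left₀ (Real.exp_pos _).le (ex1 r hr g hg) 2
    have e : Real.exp (2 * g * (alf c t r * c.th)) = Real.exp (g * (alf c t r * c.th)) ^ 2 := by
      rw [pow_two, ← Real.exp_add]; congr 1; ring
    rw [e]
    have h3 := mul_le_mul_of_nonneg_left h2 (sub_nonneg.2 hg.2)
    linarith
  · have h1 := hk.n g 0 0 0 hg z0 z0 z0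
    rw [val_sub, val_mul, val_mul, val_sub, val_pe, val_qc, val_one, val_uX] at h1
    have h3 := mul_le_mul_of_nonneg_left (ex1 r hr g hg)
      (mul_nonneg hg.1 (sub_nonneg.2 hg.2))
    linarith

end sc

/-- the functions of the hazards in the cell -/
noncomputable def Bcf (n : Chn) (t r : ℝ) : ℝ := n.b2 * (t - r)

/-- **the scalar conditions of the rate** -/
theorem nc_of {t s ρ rI rII ξ rT rTT ξT dr : ℝ} (hs : c.Sg) (hn : n.Rat c) (dr0 : 0 ≤ dr)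
    (ht : t ∈ Icc (c.t0 : ℝ) c.t1) (hst : s ∈ Icc 0 t) (hρ0 : 0 ≤ ρ) (hρ : ρ ≤ n.rb)
    (I0 : 0 ≤ rI) (II0 : 0 ≤ rII) (x0 : 0 ≤ ξ) (hx : rI * rII ≤ ξ ^ 2)
    (T0 : 0 ≤ rT) (TT0 : 0 ≤ rTT) (xt0 : 0 ≤ ξT) (hxt : rT * rTT ≤ ξT ^ 2) :
    Nc (fun t r => t - r) (Bcf n) (fun _ => (n.Mb : ℝ)) t s
      (1 + ρ * (4 / 27 * (2 * t + t ^ 2 / 2)))
      (fun r => alf c t r * c.th) (fun _ => (n.Yb : ℝ)) (fun r => bef c s r * c.th)
      (fun _ => (n.lb : ℝ)) (fun _ => (n.nb : ℝ)) ((c.Q0 : ℝ) ^ 2) ((c.Ac : ℝ) ^ 2)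
      (fun r => qI c.Q0 c.Q1 c.Q2 (alf c t r) (bef c s r) ^ 2)
      (fun r => qI c.Q0 c.Q1 c.Q2 (alf c t r) (bef c s r) ^ 2)
      (Pcf (fun r => qI c.Q0 c.Q1 c.Q2 (alf c t r) (bef c s r) ^ 2)
        (fun _ => (c.Ac : ℝ) ^ 2 * Real.exp (2 * c.th)))
      (GAf c n t s) (GBf c n t s) dr (c.Q0 * dr) rI rII ξ
      rT rTT ξT := by
  have t00 : (0 : ℝ) ≤ c.t0 := by exact_mod_cast hs.t0
  have t0 : 0 ≤ t := t00.trans ht.1
  have t1 : (0 : ℝ) < c.t1 := by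
    have : (c.t0 : ℝ) < c.t1 := by exact_mod_cast hs.t01
    linarith
  have th0 : (0 : ℝ) ≤ c.th := by exact_mod_cast hs.th0.le
  have th1 : (c.th : ℝ) ≤ 1 := by exact_mod_cast hs.th1
  have lb0 : (0 : ℝ) ≤ n.lb := by exact_mod_cast hn.lb
  have nb0 : (0 : ℝ) ≤ n.nb := by exact_mod_cast hn.nb
  have Mb0 : (0 : ℝ) ≤ n.Mb := by exact_mod_cast hn.Mb
  have b20 : (0 : ℝ) ≤ n.b2 := by exact_mod_cast hn.b2
  have Z10 : (0 : ℝ) ≤ n.Z1 := by exact_mod_cast hn.Z1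
  have Z20 : (0 : ℝ) ≤ n.Z2 := by exact_mod_cast hn.Z2
  have KB0 : (0 : ℝ) ≤ n.KB := by exact_mod_cast hn.KB
  have e10 : (0 : ℝ) ≤ n.e1 := by exact_mod_cast hn.e0
  have q0 : (0 : ℝ) ≤ c.Q0 := by exact_mod_cast hs.Q0
  have q1 : (0 : ℝ) ≤ c.Q1 := by exact_mod_cast hs.Q1
  have q2 : (0 : ℝ) ≤ c.Q2 := by exact_mod_cast hs.Q2
  have rb0 : (0 : ℝ) ≤ n.rb := by exact_mod_cast hn.rb0
  have hE2 : Real.exp (2 * (n.Yb : ℝ)) ≤ n.E2 := by
    have h1 := exl_le1 (z := 2 * n.Yb) (by linarith [hn.Yb]) hn.Yb1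
    push_cast at h1
    exact h1.trans (by exact_mod_cast hn.E2)
  have E20 : (0 : ℝ) ≤ n.E2 := (Real.exp_pos _).le.trans hE2
  have hcb : (1 : ℝ) + n.rb * (4 / 27 * (2 * c.t1 + (c.t1 : ℝ) ^ 2 / 2)) ≤ n.cb := by
    have := (Rat.cast_le (K := ℝ)).2 hn.cb
    push_cast at this
    exact this
  have hc : 1 + ρ * (4 / 27 * (2 * t + t ^ 2 / 2)) ≤ n.cb := by
    refine le_trans ?_ hcb
    have i1 : 2 * t + t ^ 2 / 2 ≤ 2 * c.t1 + (c.t1 : ℝ) ^ 2 / 2 := by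
      have := pow_le_pow_left₀ t0 ht.2 2
      linarith [ht.2]
    have i2 := mul_le_mul hρ (mul_le_mul_of_nonneg_left i1 (by norm_num : (0 : ℝ) ≤ 4 / 27))
      (by positivity) rb0
    linarith
  have c0 : 0 ≤ 1 + ρ * (4 / 27 * (2 * t + t ^ 2 / 2)) := by positivity
  have cb0 : (0 : ℝ) ≤ n.cb := c0.trans hc
  have a0 : ∀ r ∈ Icc 0 t, 0 ≤ alf c t r := fun r hr =>
    div_nonneg (by linarith [hr.2]) t1.le
  have a1 : ∀ r ∈ Icc 0 t, alf c t r ≤ 1 := fun r hr =>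
    (div_le_one t1).2 (by linarith [hr.1, ht.2])
  have bn : ∀ r, 0 ≤ bef c s r := fun r => div_nonneg (le_max_right _ _) t1.le
  have ba : ∀ r ∈ Icc 0 t, bef c s r ≤ alf c t r := fun r hr =>
    div_le_div_of_nonneg_right (max_le (by linarith [hst.2]) (by linarith [hr.2])) t1.le
  have b1 : ∀ r ∈ Icc 0 t, bef c s r ≤ 1 := fun r hr => (ba r hr).trans (a1 r hr)
  have hsub : ∀ r ∈ Icc 0 s, r ∈ Icc 0 t := fun r hr => ⟨hr.1, hr.2.trans hst.2⟩
  have qn : ∀ r ∈ Icc 0 t, 0 ≤ qI c.Q0 c.Q1 c.Q2 (alf c t r) (bef c s r) := fun r hr =>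
    qI_nonneg q0 q1 q2 (bn r) (ba r hr) (a1 r hr)
  have cqI : Continuous fun r => qI c.Q0 c.Q1 c.Q2 (alf c t r) (bef c s r) := by
    unfold qI
    have h1 := alf_cont (c := c) t
    have h2 := bef_cont (c := c) s
    fun_prop
  -- the exponential of `τ`
  have hτ : ∀ r ∈ Icc 0 t, Real.exp (bef c s r * c.th) ≤ 1 + n.e1 * max (s - r) 0 := by
    intro r hr
    have h1 := exp_three (a := 0) (b := (c.th : ℝ)) (c := 0) (l1 := 1 - bef c s r)
      (l2 := bef c s r) (l3 := 0) (sub_nonneg.2 (b1 r hr)) (bn r) le_rfl (by ring)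
    rw [Real.exp_zero] at h1
    have h2 : (1 - bef c s r) * 0 + bef c s r * (c.th : ℝ) + 0 * 0 = bef c s r * c.th := by ring
    rw [h2] at h1
    have h3 : Real.exp (c.th : ℝ) ≤ (ev (exl c.th) 1 : ℝ) := by
      have := exl_le hs.th0.le hs.th1 (z := 1) ⟨zero_le_one, le_rfl⟩
      rwa [one_mul, show (1 : ℝ) = ((1 : ℚ) : ℝ) by norm_num, pv_ev] at this
    have h4 : ((ev (exl c.th) 1 : ℚ) : ℝ) - 1 ≤ n.e1 * c.t1 := by exact_mod_cast hn.e1
    have h5 : Real.exp (bef c s r * c.th) ≤ 1 + bef c s r * (Real.exp c.th - 1) := by linarith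
    refine h5.trans ?_
    have h6 := mul_le_mul_of_nonneg_left (show Real.exp (c.th : ℝ) - 1 ≤ n.e1 * c.t1 by linarith)
      (bn r)
    have h7 : bef c s r * (n.e1 * c.t1) = n.e1 * max (s - r) 0 := by
      unfold bef
      field_simp
    linarith
  refine
    { A0 := sq_nonneg _
      Ac0 := sq_nonneg _
      B0 := fun r _ => sq_nonneg _
      Bc0 := fun r _ => sq_nonneg _
      P0 := fun r _ v _ => Pcf_nonneg (sq_nonneg _) (mul_nonneg (sq_nonneg _) (Real.exp_pos _).le)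
      Pm := fun r _ v _ z _ hzv => Pcf_mono (sq_nonneg _) hzv
      PA := fun r _ v hv => Pcf_mul (sq_nonneg _) hv.2
      cA := ?_
      cB := ?_
      a := ⟨fun _ => (n.Z1 : ℝ), fun _ => (n.Z2 : ℝ), fun r hr => ⟨Z10, Z20, ?_, ?_, ?_⟩⟩
      b := ⟨fun r => n.KB * ((s - r) * qI c.Q0 c.Q1 c.Q2 (alf c t r) (bef c s r)),
        fun r => n.KB * ((s - r) * qI c.Q0 c.Q1 c.Q2 (alf c t r) (bef c s r))
          * (c.t1 * n.Mb / 4), fun r hr => ?_⟩
      H0 := dr0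
      z0 := mul_nonneg q0 dr0
      h := ?_
      I0 := I0
      II0 := II0
      x0 := x0
      x := hx
      T0 := T0
      TT0 := TT0
      xt0 := xt0
      xt := hxt }
  · unfold GAf
    exact Continuous.continuousOn (by fun_prop)
  · unfold GBf
    exact (continuous_const.mul ((continuous_const.sub continuous_id).mul cqI)).continuousOn
  · have i1 : (c.Q0 : ℝ) ^ 2 * n.cb * (n.lb * n.Mb) ≤ n.Z1 ^ 2 := by exact_mod_cast hn.z1
    refine le_trans ?_ i1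
    have := mul_le_mul_of_nonneg_left hc (sq_nonneg (c.Q0 : ℝ))
    exact mul_le_mul_of_nonneg_right this (mul_nonneg lb0 Mb0)
  · have i1 : (c.Ac : ℝ) ^ 2 * n.cb * (n.lb * n.nb * n.Mb) ≤ n.Z2 ^ 2 := by exact_mod_cast hn.z2
    refine le_trans ?_ i1
    have := mul_le_mul_of_nonneg_left hc (sq_nonneg (c.Ac : ℝ))
    exact mul_le_mul_of_nonneg_right this (mul_nonneg (mul_nonneg lb0 nb0) Mb0)
  · have tr : 0 ≤ t - r := sub_nonneg.2 hr.2
    have i1 : t + alf c t r * c.th ≤ c.t1 + c.th / c.t1 * (t - r) := by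
      unfold alf
      have : (t - r) / c.t1 * c.th = c.th / c.t1 * (t - r) := by field_simp
      rw [this]
      linarith [ht.2]
    have i0 : 0 ≤ t + alf c t r * c.th := add_nonneg t0 (mul_nonneg (a0 r hr) th0)
    have j1 : 1 / 2 * (n.Z2 : ℝ) * Bcf n t r * (t + alf c t r * c.th)
        ≤ 1 / 2 * n.Z2 * (n.b2 * (t - r)) * (c.t1 + c.th / c.t1 * (t - r)) :=
      mul_le_mul_of_nonneg_left i1 (mul_nonneg (mul_nonneg (by norm_num) Z20)
        (mul_nonneg b20 tr))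
    have j0 : 0 ≤ (n.Z1 : ℝ) * (t - r) + 1 / 2 * (n.Z2 : ℝ) * Bcf n t r * (t + alf c t r * c.th) :=
      add_nonneg (mul_nonneg Z10 tr) (mul_nonneg (mul_nonneg (mul_nonneg (by norm_num) Z20)
        (mul_nonneg b20 tr)) i0)
    have m0 : (0 : ℝ) ≤ 1 + n.e1 * max (s - r) 0 :=
      (Real.exp_pos _).le.trans (hτ r hr)
    have k1 := mul_le_mul (hτ r hr) (add_le_add (le_refl ((n.Z1 : ℝ) * (t - r))) j1) j0 m0
    have k2 := mul_le_mul hE2 k1 (mul_nonneg (Real.exp_pos _).le j0) E20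
    refine k2.trans (le_of_eq ?_)
    unfold GAf
    ring
  · have hr' := hsub r hr
    have sr : 0 ≤ s - r := sub_nonneg.2 hr.2
    set q := qI c.Q0 c.Q1 c.Q2 (alf c t r) (bef c s r) with hq
    have qq0 : 0 ≤ q := qn r hr'
    have kb : (n.cb : ℝ) * n.lb * n.b2 ≤ n.KB ^ 2 := by exact_mod_cast hn.kb
    have z0 : 0 ≤ (n.KB : ℝ) * ((s - r) * q) := mul_nonneg KB0 (mul_nonneg sr qq0)
    have y0 : (0 : ℝ) ≤ c.t1 * n.Mb / 4 := by
      have := mul_nonneg t1.le Mb0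
      linarith
    have base : q ^ 2 * (1 + ρ * (4 / 27 * (2 * t + t ^ 2 / 2)))
        * (n.lb * Bcf n s r * (s - r)) ≤ ((n.KB : ℝ) * ((s - r) * q)) ^ 2 := by
      have w1 : q ^ 2 * (1 + ρ * (4 / 27 * (2 * t + t ^ 2 / 2)))
          * (n.lb * Bcf n s r * (s - r)) ≤ q ^ 2 * n.cb * (n.lb * Bcf n s r * (s - r)) := by
        refine mul_le_mul_of_nonneg_right (mul_le_mul_of_nonneg_left hc (sq_nonneg q)) ?_
        exact mul_nonneg (mul_nonneg lb0 (mul_nonneg b20 sr)) sr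
      refine w1.trans ?_
      have w2 := mul_le_mul_of_nonneg_left kb (sq_nonneg ((s - r) * q))
      unfold Bcf
      nlinarith [w2]
    refine ⟨z0, mul_nonneg z0 y0, base, ?_, ?_⟩
    · have w3 : (t * n.Mb / 4) ^ 2 ≤ ((c.t1 : ℝ) * n.Mb / 4) ^ 2 := by
        refine pow_le_pow_left₀ ?_ ?_ 2
        · have := mul_nonneg t0 Mb0
          linarith
        · have := mul_le_mul_of_nonneg_right ht.2 Mb0
          linarith
      have w0 : 0 ≤ q ^ 2 * (1 + ρ * (4 / 27 * (2 * t + t ^ 2 / 2)))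
          * (n.lb * Bcf n s r * (s - r)) :=
        mul_nonneg (mul_nonneg (sq_nonneg q) c0)
          (mul_nonneg (mul_nonneg lb0 (mul_nonneg b20 sr)) sr)
      have w4 := mul_le_mul base w3 (sq_nonneg _) (sq_nonneg _)
      refine w4.trans (le_of_eq ?_)
      ring
    · have w5 := mul_le_mul_of_nonneg_right hE2 (add_nonneg z0 (mul_nonneg z0 y0))
      refine w5.trans (le_of_eq ?_)
      unfold GBf
      rw [← hq]
      ring
  · exact le_of_eq (by ring)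

end Pool.Agent.RX.RCN.K
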