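import Pool.Agent.RX.RCN.Jn
import Pool.Agent.RX.RCN.T2t

/-! The bounds of the rates of the fluxes (MP_73ccd0_lc, route M). -/

namespace Pool.Agent.RX.RCN.K

open Set Finset MeasureTheory Pool.Agent.RX.RCRSHalf Pool.Agent.RX.RCG Pool.Agent.RX.RCG.Ct
open Pool.Agent.RX.RCN.Ker Pool.Agent.RX.RCM Pool.Agent.RX.RCM.Jen

set_option linter.unusedSectionVars false

variable {V : Type*} [Fintype V] [DecidableEq V]
variable {x : V → V → ℝ} {P : V → Prop} [DecidablePred P] {k : Kf} {N : ℕ}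
variable {κd : ℝ → ℝ → ℝ → ℝ} {R : V → V → V → ℝ → ℝ → ℝ} {L Lt : V → V → V → V → ℝ → ℝ → ℝ}

/-- bounds of the kernel functions at the time `t`, on `[0, bw]` -/
structure Kb (k : Kf) (κd : ℝ → ℝ → ℝ → ℝ) (t : ℝ) (ψ K : ℝ → ℝ) : Prop where
  f : ∀ y ∈ Icc (0 : ℝ) 1, ∀ s ∈ Icc 0 t, k.fh y s ≤ ψ s
  q : ∀ s ∈ Icc 0 t, qq s ≤ ψ s
  kk : ∀ w ∈ Icc (0 : ℝ) 1, ∀ s ∈ Icc 0 t, κd w t s ≤ (1 + w * t) * K s
  ψ0 : ∀ s ∈ Icc 0 t, 0 ≤ ψ s
  K0 : ∀ s ∈ Icc 0 t, 0 ≤ K s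
  cψ : ContinuousOn ψ (Icc 0 t)
  cK : ContinuousOn K (Icc 0 t)

variable {t : ℝ} {ψ K : ℝ → ℝ} {a : V}

theorem Kb.fq_le (h : Kb k κd t ψ K) (hx : Wt x P 1) (u v : V) {s : ℝ} (hs : s ∈ Icc 0 t) :
    fq x P k.fh u v s ≤ ψ s := by
  unfold fq
  split_ifs
  · exact h.f _ (xw_mem hx u v) s hs
  · exact h.q s hs

/-- the flux of one pair -/
theorem Kb.flx_le (h : Kb k κd t ψ K) (hx : Wt x P 1) (hk : k.Ok) (ht : t ∈ Icc (0 : ℝ) bt)
    {b e : V} (hea : e ≠ a) {s : ℝ} (hs : s ∈ Icc 0 t)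
    (hκ0 : ∀ w ∈ Icc (0 : ℝ) 1, 0 ≤ κd w t s) (hbe : b ≠ e) :
    flx x P k κd b a e t s ≤ x a e * (ψ s * K s * (1 + (x a b + x b e) * t)) := by
  have hw : x b a + x b e ∈ Icc (0 : ℝ) 1 := two_mem hx b (Ne.symm hea)
  have h1 := h.fq_le hx a e hs
  have h2 := h.kk _ hw s hs
  have h0 : 0 ≤ fq x P k.fh a e s := fq_nonneg' hk hx a e ⟨hs.1, hs.2.trans ht.2⟩
  have hx0 := hx.nonneg a e
  unfold flx
  have h3 : fq x P k.fh a e s * κd (x b a + x b e) t s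
      ≤ ψ s * ((1 + (x b a + x b e) * t) * K s) :=
    mul_le_mul h1 h2 (hκ0 _ hw) (h.ψ0 s hs)
  have h4 := mul_le_mul_of_nonneg_left h3 hx0
  rw [hx.symm a b]
  refine le_trans (le_of_eq ?_) (h4.trans (le_of_eq ?_)) <;> ring

/-- **the bounds of the fluxes** -/
theorem Kb.rt (h : Kb k κd t ψ K) (hf : Lf N k κd R L Lt) (hx : Wt x P 1) (hk : k.Ok)
    (hfc : ∀ y ∈ Icc (0 : ℝ) 1, ContinuousOn (k.fh y) (Icc 0 bt)) (ht : t ∈ Icc (0 : ℝ) bt)
    {s F m : ℝ} (hs : s ∈ Icc 0 t) (hF : (∫ r in (0 : ℝ)..s, ψ r * K r) ≤ F) (m0 : 0 ≤ m)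
    (hR : ∀ b e, R b a e t s ≤ x a e * m) :
    Rt x P k κd R a t s (ψ s * K s) F m := by
  have hsub : Icc (0 : ℝ) s ⊆ Icc 0 t := Icc_subset_Icc_right hs.2
  have hκ0 : ∀ r ∈ Icc 0 t, ∀ w ∈ Icc (0 : ℝ) 1, 0 ≤ κd w t r := fun r hr w hw =>
    (hk.Pe0 w hw t ht).trans (hf.κP w hw t r hr.1 hr.2 ht.2)
  have hψK : ∀ r ∈ Icc 0 t, 0 ≤ ψ r * K r := fun r hr => mul_nonneg (h.ψ0 r hr) (h.K0 r hr)
  have cI : ContinuousOn (fun r => ψ r * K r) (Icc 0 s) := (h.cψ.mono hsub).mul (h.cK.mono hsub)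
  have I0 : 0 ≤ ∫ r in (0 : ℝ)..s, ψ r * K r :=
    intervalIntegral.integral_nonneg hs.1 fun r hr => hψK r (hsub hr)
  refine ⟨hψK s hs, I0.trans hF, m0, fun b e _ _ _ => flux_nonneg hx hk hf.κP b a e ht hs,
    fun b e _ hea hbe => ?_, fun b _ => mua_nonneg hx hk hf.κP b a ht hs, fun b hba => ?_,
    fun b e => hf.R0 b a e t s hs.1 hs.2 ht.2, hR⟩
  · exact h.flx_le hx hk ht hea hs (hκ0 s hs) hbe
  · -- the mass
    have hU : 0 ≤ (1 + x a b * t) * (1 - x a b)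
        + t * ∑ e ∈ ({a, b} : Finset V)ᶜ, x b e * x a e := by
      refine add_nonneg (mul_nonneg ?_ ?_) (mul_nonneg ht.1 (Finset.sum_nonneg fun e _ =>
        mul_nonneg (hx.nonneg b e) (hx.nonneg a e)))
      · have := mul_nonneg (hx.nonneg a b) ht.1
        linarith
      · have := (xw_mem hx a b).2
        linarith
    have row : ∑ e ∈ ({a, b} : Finset V)ᶜ, x a e ≤ 1 - x a b := by
      have h1 := Finset.sum_add_sum_compl ({a, b} : Finset V) (fun e => x a e)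
      rw [Finset.sum_pair hba.symm, hx.diag a] at h1
      have h2 := hx.row a
      linarith
    have key : mua x P k κd b a t s ≤ ∫ r in (0 : ℝ)..s, (ψ r * K r)
        * ((1 + x a b * t) * (1 - x a b)
          + t * ∑ e ∈ ({a, b} : Finset V)ᶜ, x b e * x a e) := by
      refine intervalIntegral.integral_mono_on hs.1
        (iiC hs.1 (continuousOn_finsetSum _ fun e _ =>
          (flx_slice hf hx hfc b a e ht).mono hsub)) (iiC hs.1 (cI.mul continuousOn_const))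
        fun r hr => ?_
      have hr' := hsub hr
      rw [Finset.pair_comm b a]
      have e1 : ∑ e ∈ ({a, b} : Finset V)ᶜ, x a e * fq x P k.fh a e r * κd (x b a + x b e) t r
          ≤ ∑ e ∈ ({a, b} : Finset V)ᶜ, x a e * (ψ r * K r * (1 + (x a b + x b e) * t)) := by
        refine Finset.sum_le_sum fun e he => ?_
        simp only [Finset.mem_compl, Finset.mem_insert, Finset.mem_singleton, not_or] at he
        exact h.flx_le hx hk ht he.1 hr' (hκ0 r hr') (Ne.symm he.2)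
      refine e1.trans ?_
      have e2 : ∑ e ∈ ({a, b} : Finset V)ᶜ, x a e * (ψ r * K r * (1 + (x a b + x b e) * t))
          = (ψ r * K r) * ((1 + x a b * t) * ∑ e ∈ ({a, b} : Finset V)ᶜ, x a e
            + t * ∑ e ∈ ({a, b} : Finset V)ᶜ, x b e * x a e) := by
        rw [Finset.mul_sum, Finset.mul_sum, ← Finset.sum_add_distrib, Finset.mul_sum]
        exact Finset.sum_congr rfl fun e _ => by ring
      rw [e2]
      refine mul_le_mul_of_nonneg_left (add_le_add (mul_le_mul_of_nonneg_left row ?_) le_rfl)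
        (hψK r hr')
      have := mul_nonneg (hx.nonneg a b) ht.1
      linarith
    rw [intervalIntegral.integral_mul_const] at key
    exact key.trans (mul_le_mul_of_nonneg_right hF hU)

end Pool.Agent.RX.RCN.K
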