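import Pool.Agent.RX.RCN.T2u_2
import Pool.Agent.RX.RCN.T2y_1

/-! The rate of the second type: optimal parameters (MP_73ccd0_lc, route M). -/

namespace Pool.Agent.RX.RCN.K

open Set Finset MeasureTheory Pool.Agent.RX.RCRSHalf Pool.Agent.RX.RCG Pool.Agent.RX.RCG.Ct
open Pool.Agent.RX.RCN.Ker Pool.Agent.RX.RCM

set_option linter.unusedSectionVars false

variable {V : Type*} [Fintype V] [DecidableEq V]
variable {x : V → V → ℝ} {P : V → Prop} [DecidablePred P] {k : Kf} {N : ℕ} {Z : Hzd}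
variable {sl : ℝ → ℝ → ℝ} {bw : ℝ} {B Bd : ℝ → ℝ → ℝ} {M : ℝ → ℝ}
variable {κd : ℝ → ℝ → ℝ → ℝ} {R : V → V → V → ℝ → ℝ → ℝ} {L Lt : V → V → V → V → ℝ → ℝ → ℝ}
variable {t s : ℝ} {T' Y τ lam ν : ℝ → ℝ} {a : V} {g : V → V → ℝ}
variable {A F m ρ : ℝ} {Rm RD RT : V → V → V → ℝ}

/-- the first chain with the optimal parameters -/
theorem chA_of {Am Ac c : ℝ} {GA z1 z2 : ℝ → ℝ} (A0 : 0 ≤ Am) (Ac0 : 0 ≤ Ac) (c0 : 0 ≤ c)
    (cG : ContinuousOn GA (Icc 0 t)) (ht : 0 ≤ t)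
    (l0 : ∀ r ∈ Icc 0 t, 0 ≤ lam r) (n0 : ∀ r ∈ Icc 0 t, 0 ≤ ν r) (T0 : ∀ r ∈ Icc 0 t, 0 ≤ T' r)
    (M0 : ∀ r ∈ Icc 0 t, 0 ≤ M r) (B0 : ∀ r ∈ Icc 0 t, 0 ≤ B t r)
    (Bd0 : ∀ r ∈ Icc 0 t, 0 ≤ Bd t r)
    (hz1 : ∀ r ∈ Icc 0 t, 0 ≤ z1 r) (hz2 : ∀ r ∈ Icc 0 t, 0 ≤ z2 r)
    (h1 : ∀ r ∈ Icc 0 t, Am * c * (lam r * M r) ≤ z1 r ^ 2)
    (h2 : ∀ r ∈ Icc 0 t, Ac * c * (lam r * ν r * M r) ≤ z2 r ^ 2)
    (h : ∀ r ∈ Icc 0 t, Real.exp (2 * Y r) * (Real.exp (τ r)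
      * (z1 r * Bd t r + 1 / 2 * z2 r * B t r * (t + T' r))) ≤ GA r) {ε : ℝ} (hε : 0 < ε)
    {Yb : ℝ} (hY : ∀ r ∈ Icc 0 t, Real.exp (2 * Y r) ≤ Yb) :
    ChA Bd B M t c T' Y τ lam ν Am Ac (fun r => GA r + Yb * (2 * ε)) := by
  refine ⟨A0, Ac0, cG.add continuousOn_const, fun r hr => ?_⟩
  have e0 := Real.exp_pos (2 * Y r)
  have eτ := Real.exp_pos (τ r)
  have e2 : Real.exp (2 * τ r) = Real.exp (τ r) ^ 2 := by
    rw [pow_two, ← Real.exp_add]; congr 1; ring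
  have n1 := l0 r hr
  have n2 := n0 r hr
  have n3 := T0 r hr
  have n4 := M0 r hr
  have n5 := B0 r hr
  have n6 := Bd0 r hr
  have tT : 0 ≤ t + T' r := by linarith
  obtain ⟨σ, s0, hs⟩ := mean_inf (a := Am * c * (lam r * M r) * Bd t r)
    (b := Bd t r * Real.exp (2 * τ r)) (z := Real.exp (τ r) * (z1 r * Bd t r)) (by positivity)
    (by positivity) (mul_nonneg eτ.le (mul_nonneg (hz1 r hr) n6)) (by
      rw [e2]
      have := mul_le_mul_of_nonneg_right (h1 r hr) (sq_nonneg (Bd t r * Real.exp (τ r)))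
      nlinarith [this]) hε
  obtain ⟨l, l0', hl⟩ := mean_inf (a := Ac * c * lam r * B t r ^ 2 * ((t + T' r) / 4))
    (b := (t + T' r) * ν r * M r * Real.exp (2 * τ r))
    (z := Real.exp (τ r) * (1 / 2 * z2 r * B t r * (t + T' r))) (by positivity)
    (by positivity) (mul_nonneg eτ.le (mul_nonneg (mul_nonneg (mul_nonneg (by norm_num)
      (hz2 r hr)) n5) tT)) (by
      rw [e2]
      have := mul_le_mul_of_nonneg_right (h2 r hr)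
        (sq_nonneg (B t r * (t + T' r) * Real.exp (τ r)))
      nlinarith [this]) hε
  refine ⟨σ, l, s0, l0', ?_⟩
  have key : 1 / 2 * ((σ * Am * (lam r * Bd t r * M r)
        + l * (lam r * B t r ^ 2) * ((t + T' r) * Ac / 4)) * c
        + (Bd t r / σ + (t + T' r) * ν r * M r / l) * Real.exp (2 * τ r))
      ≤ Real.exp (τ r) * (z1 r * Bd t r + 1 / 2 * z2 r * B t r * (t + T' r)) + 2 * ε := by
    refine le_trans (le_of_eq ?_) ((add_le_add hs hl).trans (le_of_eq ?_))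
    · ring
    · ring
  have k2 := mul_le_mul_of_nonneg_left key e0.le
  refine k2.trans ?_
  rw [mul_add]
  exact add_le_add (h r hr) (mul_le_mul_of_nonneg_right (hY r hr) (by linarith))

/-- the second chain with the optimal parameters -/
theorem chB_of {c : ℝ} {AmB AcB GB z1 z2 : ℝ → ℝ} {Pc : ℝ → ℝ → ℝ}
    (A0 : ∀ r ∈ Icc 0 s, 0 ≤ AmB r) (Ac0 : ∀ r ∈ Icc 0 s, 0 ≤ AcB r) (c0 : 0 ≤ c)
    (P0 : ∀ r ∈ Icc 0 s, ∀ v ∈ Icc (0 : ℝ) 1, 0 ≤ Pc r v)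
    (Pm : ∀ r ∈ Icc 0 s, ∀ v ∈ Icc (0 : ℝ) 1, ∀ z ∈ Icc (0 : ℝ) 1, z ≤ v → Pc r z ≤ Pc r v)
    (PA : ∀ r ∈ Icc 0 s, ∀ v ∈ Icc (0 : ℝ) 1, Pc r v * (1 - v) ≤ AcB r)
    (cG : ContinuousOn GB (Icc 0 s)) (ht : 0 ≤ t)
    (l0 : ∀ r ∈ Icc 0 s, 0 ≤ lam r)
    (M0 : ∀ r ∈ Icc 0 s, 0 ≤ M r) (B0 : ∀ r ∈ Icc 0 s, 0 ≤ B s r)
    (Bd0 : ∀ r ∈ Icc 0 s, 0 ≤ Bd s r)
    (hz1 : ∀ r ∈ Icc 0 s, 0 ≤ z1 r) (hz2 : ∀ r ∈ Icc 0 s, 0 ≤ z2 r)
    (h1 : ∀ r ∈ Icc 0 s, AmB r * c * (lam r * B s r * Bd s r) ≤ z1 r ^ 2)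
    (h2 : ∀ r ∈ Icc 0 s, AcB r * c * (lam r * B s r * Bd s r) * (t * M r / 4) ^ 2 ≤ z2 r ^ 2)
    (h : ∀ r ∈ Icc 0 s, Real.exp (2 * Y r) * (z1 r + z2 r) ≤ GB r) {ε : ℝ} (hε : 0 < ε)
    {Yb : ℝ} (hY : ∀ r ∈ Icc 0 s, Real.exp (2 * Y r) ≤ Yb) :
    ChB Bd B M t s c Y lam AmB AcB Pc (fun r => GB r + Yb * (2 * ε)) := by
  refine ⟨A0, Ac0, P0, Pm, PA, cG.add continuousOn_const, fun r hr => ?_⟩
  have e0 := Real.exp_pos (2 * Y r)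
  have n1 := l0 r hr
  have n4 := M0 r hr
  have n5 := B0 r hr
  have n6 := Bd0 r hr
  have a0 := A0 r hr
  have a1 := Ac0 r hr
  obtain ⟨σ, s0, hs⟩ := mean_inf (a := AmB r * c * (lam r * B s r))
    (b := Bd s r) (z := z1 r) (by positivity) n6 (hz1 r hr) (by
      have := h1 r hr
      nlinarith [this]) hε
  obtain ⟨l, l0', hl⟩ := mean_inf (a := AcB r * c * lam r * M r ^ 2 * (t / 4))
    (b := t * (1 / 4) * B s r * Bd s r) (z := z2 r) (by positivity) (by positivity)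
    (hz2 r hr) (by
      have := h2 r hr
      nlinarith [this]) hε
  refine ⟨σ, l, s0, l0', ?_⟩
  have key : 1 / 2 * ((σ * AmB r * (lam r * 1 * B s r)
        + l * (lam r * M r ^ 2) * (t * AcB r / 4)) * c
        + (1 * Bd s r / σ + t * (1 / 4) * B s r * Bd s r / l)) ≤ z1 r + z2 r + 2 * ε := by
    refine le_trans (le_of_eq ?_) ((add_le_add hs hl).trans (le_of_eq ?_))
    · ring
    · ring
  have k2 := mul_le_mul_of_nonneg_left key e0.le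
  refine k2.trans ?_
  rw [mul_add]
  exact add_le_add (h r hr) (mul_le_mul_of_nonneg_right (hY r hr) (by linarith))

/-- **the rate of the second type at a fixed time, with optimal parameters** -/
theorem rate3 (hZ : Z.Ok sl) (hx : Wt x P 1) (hbt : bw ≤ bt) (h2bt : 2 * bw + bw ^ 2 / 2 ≤ 2)
    (ha : P a) (hB : Zb Z bw B Bd M) (hS : Scl bw t s T' Y τ lam ν)
    (hR : Rt x P k κd R a t s A F m) {Hb : ℝ} (hL : Lb Z x P L Lt T' Y τ a t s RD RT Hb)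
    (hρ0 : 0 ≤ ρ) (hρ1 : ρ ≤ 1) (hρ : ρ * (A + F * m) = F * m)
    {Am Ac zH rI rII ξ rT rTT ξT : ℝ} {AmB AcB GA GB : ℝ → ℝ} {Pc : ℝ → ℝ → ℝ}
    (hg : Ga x P g a t s T' τ Am Ac AmB Pc)
    (hN : Nc Bd B M t s (1 + ρ * (4 / 27 * (2 * t + t ^ 2 / 2))) T' Y τ lam ν Am Ac AmB AcB Pc
      GA GB Hb zH rI rII ξ rT rTT ξT)
    (hW : Rw x P g a t RD rI rII) (hWT : Rw x P g a t RT rT rTT) :
    ∑ b ∈ ({a} : Finset V)ᶜ, ∑ d ∈ ({a, b} : Finset V)ᶜ, xr x P a b * (xr x P b d * g b d)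
        * ∑ e ∈ ({a, b, d} : Finset V)ᶜ, (flx x P k κd b a e t s * L b a d e t s
          + mua x P k κd b a t s * (R b a e t s * Lt b a d e t s))
      ≤ ((A + F * m) * ((∫ r in (0 : ℝ)..t, GA r) + (∫ r in (0 : ℝ)..s, GB r))
        + A * ξ + F * m * (ξT + zH)) * Gr.S0 (xr x P) a := by
  have ht0 := hS.ht.1
  have hs0 := hS.hs.1
  have hw := wg_xr hx
  have hSn := Gr.S0_nonneg hw a
  have hFm : 0 ≤ F * m := mul_nonneg hR.F0 hR.m0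
  have hom : 0 ≤ A + F * m := add_nonneg hR.A0 hFm
  have c0 : 0 ≤ 1 + ρ * (4 / 27 * (2 * t + t ^ 2 / 2)) := by positivity
  have hst : Icc (0 : ℝ) s ⊆ Icc 0 t := Icc_subset_Icc_right hS.hs.2
  -- a bound of the exponentials
  obtain ⟨Yb, hYb⟩ : ∃ Yb : ℝ, ∀ r ∈ Icc 0 t, Real.exp (2 * Y r) ≤ Yb := by
    have cE : ContinuousOn (fun r => Real.exp (2 * Y r)) (Icc 0 t) :=
      Real.continuous_exp.comp_continuousOn (continuousOn_const.mul hS.cY)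
    obtain ⟨z, -, hz⟩ := isCompact_Icc.exists_isMaxOn (nonempty_Icc.2 ht0) cE
    exact ⟨_, fun r hr => hz hr⟩
  have Yb0 : 0 ≤ Yb := (Real.exp_pos _).le.trans (hYb 0 ⟨le_rfl, ht0⟩)
  have T0 : ∀ r ∈ Icc 0 t, 0 ≤ T' r := fun r hr => (hS.τ0 r hr).trans (hS.τT r hr)
  have M0 : ∀ r ∈ Icc 0 t, 0 ≤ M r := fun r hr => hB.m0 r ⟨hr.1, hr.2.trans hS.ht.2⟩
  obtain ⟨z1, z2, hz⟩ := hN.a
  obtain ⟨y1, y2, hy⟩ := hN.b
  refine le_of_forall_pos_le_add fun δ hδ => ?_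
  -- the small parameter
  set W : ℝ := ((A + F * m) * (t * (Yb * 2) + s * (Yb * 2)) + A + F * m * 2)
    * Gr.S0 (xr x P) a + 1 with hW'
  have hA0 := hR.A0
  have hWp : 0 < W := by
    have : 0 ≤ ((A + F * m) * (t * (Yb * 2) + s * (Yb * 2)) + A + F * m * 2)
        * Gr.S0 (xr x P) a := by positivity
    linarith
  set ε := δ / W with hε'
  have hε : 0 < ε := div_pos hδ hWp
  have hA := chA_of (Bd := Bd) (B := B) (M := M) (t := t) (T' := T') (Y := Y) (τ := τ)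
    (lam := lam) (ν := ν) (c := 1 + ρ * (4 / 27 * (2 * t + t ^ 2 / 2))) hN.A0 hN.Ac0 c0 hN.cA ht0
    hS.l0 hS.n0 T0 M0
    (fun r hr => hB.b0 r t hr.1 hr.2 hS.ht.2) (fun r hr => hB.bd0 r t hr.1 hr.2 hS.ht.2)
    (fun r hr => (hz r hr).1) (fun r hr => (hz r hr).2.1) (fun r hr => (hz r hr).2.2.1)
    (fun r hr => (hz r hr).2.2.2.1) (fun r hr => (hz r hr).2.2.2.2) hε hYb
  have hBB := chB_of (Bd := Bd) (B := B) (M := M) (t := t) (s := s) (Y := Y)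
    (lam := lam) (c := 1 + ρ * (4 / 27 * (2 * t + t ^ 2 / 2))) hN.B0 hN.Bc0 c0 hN.P0 hN.Pm hN.PA
    hN.cB ht0
    (fun r hr => hS.l0 r (hst hr)) (fun r hr => M0 r (hst hr))
    (fun r hr => hB.b0 r s hr.1 hr.2 (hS.hs.2.trans hS.ht.2))
    (fun r hr => hB.bd0 r s hr.1 hr.2 (hS.hs.2.trans hS.ht.2))
    (fun r hr => (hy r hr).1) (fun r hr => (hy r hr).2.1) (fun r hr => (hy r hr).2.2.1)
    (fun r hr => (hy r hr).2.2.2.1) (fun r hr => (hy r hr).2.2.2.2) hε fun r hr => hYb r (hst hr)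
  obtain ⟨σR, hσR, hR1⟩ := mean_inf (a := rI) (b := rII) hN.I0 hN.II0 hN.x0 hN.x hε
  obtain ⟨σT, hσT, hT1⟩ := mean_inf (a := rT) (b := rTT) hN.T0 hN.TT0 hN.xt0 hN.xt hε
  obtain ⟨σH, hσH, hH1⟩ := mean_inf (a := Am * Hb) (b := Hb) (mul_nonneg hN.A0 hN.H0)
    hN.H0 hN.z0 hN.h hε
  have key := rate2 hZ hx hbt h2bt ha hB hS hR hL hρ0 hρ1 hρ hg hA hBB hσR hσT hσH hW hWT
  refine key.trans ?_
  have iA : (∫ r in (0 : ℝ)..t, (GA r + Yb * (2 * ε)))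
      = (∫ r in (0 : ℝ)..t, GA r) + t * (Yb * (2 * ε)) := by
    rw [int_add ht0 hN.cA continuousOn_const, intervalIntegral.integral_const]
    simp
  have iB : (∫ r in (0 : ℝ)..s, (GB r + Yb * (2 * ε)))
      = (∫ r in (0 : ℝ)..s, GB r) + s * (Yb * (2 * ε)) := by
    rw [int_add hs0 hN.cB continuousOn_const, intervalIntegral.integral_const]
    simp
  rw [iA, iB]
  have q1 : 1 / 2 * (σR * rI + rII / σR) ≤ ξ + ε := by
    refine le_trans (le_of_eq ?_) hR1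
    ring
  have q6 : 1 / 2 * (σT * rT + rTT / σT) ≤ ξT + ε := by
    refine le_trans (le_of_eq ?_) hT1
    ring
  have q2 : 1 / 2 * (σH * Am * Hb + Hb / σH) ≤ zH + ε := by
    refine le_trans (le_of_eq ?_) hH1
    ring
  have q3 := mul_le_mul_of_nonneg_left q1 hA0
  have q7 := mul_le_mul_of_nonneg_left q6 hFm
  have q4 := mul_le_mul_of_nonneg_left q2 hFm
  have q5 := mul_le_mul_of_nonneg_right (add_le_add (add_le_add (add_le_add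
    (le_refl ((A + F * m) * ((∫ r in (0 : ℝ)..t, GA r)
    + t * (Yb * (2 * ε)) + ((∫ r in (0 : ℝ)..s, GB r) + s * (Yb * (2 * ε)))))) q3) q7) q4) hSn
  refine q5.trans ?_
  have e3 : ε * W = δ := by rw [hε']; field_simp
  have e4 : ((A + F * m) * ((∫ r in (0 : ℝ)..t, GA r) + t * (Yb * (2 * ε))
        + ((∫ r in (0 : ℝ)..s, GB r) + s * (Yb * (2 * ε)))) + A * (ξ + ε)
        + F * m * (ξT + ε) + F * m * (zH + ε))
        * Gr.S0 (xr x P) a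
      = ((A + F * m) * ((∫ r in (0 : ℝ)..t, GA r) + (∫ r in (0 : ℝ)..s, GB r))
        + A * ξ + F * m * (ξT + zH)) * Gr.S0 (xr x P) a + ε * (W - 1) := by
    rw [hW']
    ring
  rw [e4]
  have : ε * (W - 1) = δ - ε := by rw [mul_sub, e3, mul_one]
  rw [this]
  linarith

end Pool.Agent.RX.RCN.K
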