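import Pool.Agent.RX.RCN.T2c
import Pool.Agent.RX.RCN.T2d
import Pool.Agent.RX.RCN.T2w
import Pool.Agent.RX.RCN.T2y_2

/-! The sum of the rates of the second type in a cell (MP_73ccd0_lc, route M). -/

namespace Pool.Agent.RX.RCN.K

open Set Finset MeasureTheory Pool.Agent.RX.RCRSHalf Pool.Agent.RX.RCG Pool.Agent.RX.RCG.Ct
open Pool.Agent.RX.RCN.Ker

open Pool.Agent.RX.RCM hiding qc
open Pool.Agent.RX.RCM9 Pool.Agent.RX.RCM9.Bern Pool.Agent.RX.RCM9.Pk

set_option linter.unusedSectionVars false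

/-! ### integrals of polynomials -/

theorem int_poly (c0 c1 c2 c3 c4 t : ℝ) :
    ∫ r in (0 : ℝ)..t, (c0 + c1 * r + c2 * r ^ 2 + c3 * r ^ 3 + c4 * r ^ 4)
      = c0 * t + c1 * t ^ 2 / 2 + c2 * t ^ 3 / 3 + c3 * t ^ 4 / 4 + c4 * t ^ 5 / 5 := by
  have h : ∀ r ∈ uIcc (0 : ℝ) t, HasDerivAt
      (fun r => c0 * r + c1 * (r ^ 2 / 2) + c2 * (r ^ 3 / 3) + c3 * (r ^ 4 / 4)
        + c4 * (r ^ 5 / 5)) (c0 + c1 * r + c2 * r ^ 2 + c3 * r ^ 3 + c4 * r ^ 4) r := by
    intro r _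
    have e1 := (hasDerivAt_id r).const_mul c0
    have e2 := ((hasDerivAt_pow 2 r).div_const 2).const_mul c1
    have e3 := ((hasDerivAt_pow 3 r).div_const 3).const_mul c2
    have e4 := ((hasDerivAt_pow 4 r).div_const 4).const_mul c3
    have e5 := ((hasDerivAt_pow 5 r).div_const 5).const_mul c4
    refine ((((e1.add e2).add e3).add e4).add e5).congr_deriv ?_
    norm_num
  rw [intervalIntegral.integral_eq_sub_of_hasDerivAt h
    ((by fun_prop : Continuous fun r : ℝ => c0 + c1 * r + c2 * r ^ 2 + c3 * r ^ 3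
      + c4 * r ^ 4).intervalIntegrable _ _)]
  ring

/-- an integral with a positive part -/
theorem int_pos_part {f : ℝ → ℝ} {t s : ℝ} (cf : ContinuousOn f (Icc 0 t)) (hs : s ∈ Icc 0 t) :
    ∫ r in (0 : ℝ)..t, f r * max (s - r) 0 = ∫ r in (0 : ℝ)..s, f r * (s - r) := by
  have ht : 0 ≤ t := hs.1.trans hs.2
  have cg : ContinuousOn (fun r => f r * max (s - r) 0) (Icc 0 t) :=
    cf.mul (Continuous.continuousOn (by fun_prop))
  have i1 : IntervalIntegrable (fun r => f r * max (s - r) 0) volume 0 s :=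
    iiC hs.1 (cg.mono (Icc_subset_Icc_right hs.2))
  have i2 : IntervalIntegrable (fun r => f r * max (s - r) 0) volume s t := by
    have h1 : ContinuousOn (fun r => f r * max (s - r) 0) (uIcc s t) := by
      rw [uIcc_of_le hs.2]
      exact cg.mono (Icc_subset_Icc_left hs.1)
    exact h1.intervalIntegrable
  rw [← intervalIntegral.integral_add_adjacent_intervals i1 i2]
  have e1 : ∫ r in (0 : ℝ)..s, f r * max (s - r) 0 = ∫ r in (0 : ℝ)..s, f r * (s - r) := by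
    refine intervalIntegral.integral_congr fun r hr => ?_
    rw [uIcc_of_le hs.1] at hr
    rw [max_eq_left (by linarith [hr.2])]
  have e2 : ∫ r in s..t, f r * max (s - r) 0 = 0 := by
    have : ∫ r in s..t, f r * max (s - r) 0 = ∫ r in s..t, (0 : ℝ) := by
      refine intervalIntegral.integral_congr fun r hr => ?_
      rw [uIcc_of_le hs.2] at hr
      rw [max_eq_right (by linarith [hr.1]), mul_zero]
    rw [this]
    simp
  rw [e1, e2, add_zero]

variable (c : Cel) (n : Chn)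

variable {c n}

/-- the integral of the first chain -/
theorem int_GA {t s : ℝ} (hs : s ∈ Icc 0 t) :
    ∫ r in (0 : ℝ)..t, GAf c n t s r
      = (a1q c n * t ^ 2 / 2 + a2q c n * t ^ 3 / 3)
        + n.e1 * ((a1q c n + a2q c n * t) * t / 2 * s ^ 2
          - (a1q c n + 2 * (a2q c n * t)) / 6 * s ^ 3 + a2q c n / 12 * s ^ 4) := by
  have ht : 0 ≤ t := hs.1.trans hs.2
  set f : ℝ → ℝ := fun r => (t - r) * (a1q c n + a2q c n * (t - r)) with hf
  have cf : ContinuousOn f (Icc 0 t) := Continuous.continuousOn (by rw [hf]; fun_prop)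
  have e0 : ∀ r, GAf c n t s r = f r + n.e1 * (f r * max (s - r) 0) := fun r => by
    rw [hf]
    unfold GAf a1q a2q
    push_cast
    ring
  simp only [e0]
  rw [int_add ht (f := f) (g := fun r => n.e1 * (f r * max (s - r) 0)) cf
    (continuousOn_const.mul (cf.mul (Continuous.continuousOn (by fun_prop)))),
    intervalIntegral.integral_const_mul, int_pos_part cf hs]
  have i1 : ∫ r in (0 : ℝ)..t, f r = a1q c n * t ^ 2 / 2 + a2q c n * t ^ 3 / 3 := by
    have hc : ∀ r ∈ uIcc (0 : ℝ) t, f r = ((a1q c n * t + a2q c n * t ^ 2 : ℝ))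
        + (-(a1q c n) - 2 * (a2q c n * t)) * r + a2q c n * r ^ 2 + 0 * r ^ 3 + 0 * r ^ 4 :=
      fun r _ => by rw [hf]; ring
    rw [intervalIntegral.integral_congr hc, int_poly]
    ring
  have i2 : ∫ r in (0 : ℝ)..s, f r * (s - r) = (a1q c n + a2q c n * t) * t / 2 * s ^ 2
          - (a1q c n + 2 * (a2q c n * t)) / 6 * s ^ 3 + a2q c n / 12 * s ^ 4 := by
    have hc : ∀ r ∈ uIcc (0 : ℝ) s, f r * (s - r)
        = ((a1q c n + a2q c n * t : ℝ) * (t * s))
        + (-((a1q c n + a2q c n * t) * (t + s) + a2q c n * (t * s))) * r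
        + ((a1q c n + a2q c n * t) + a2q c n * (t + s)) * r ^ 2 + (-(a2q c n : ℝ)) * r ^ 3
        + 0 * r ^ 4 := fun r _ => by rw [hf]; ring
    rw [intervalIntegral.integral_congr hc, int_poly]
    ring
  rw [i1, i2]

/-- the integral of the second chain -/
theorem int_GB {t s : ℝ} (t1 : (0 : ℝ) < c.t1) (hs : 0 ≤ s) :
    ∫ r in (0 : ℝ)..s, GBf c n t s r
      = (c1q c n + c4q c n * t) / 2 * s ^ 2 + (c2q c n / 3 - c4q c n / 6) * s ^ 3 := by
  have e0 : ∀ r ∈ uIcc (0 : ℝ) s, GBf c n t s r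
      = ((c1q c n + c4q c n * t + c2q c n * s) * s)
        + (-((c1q c n + c4q c n * t + c2q c n * s) + (c4q c n + c2q c n) * s)) * r
        + (c4q c n + c2q c n) * r ^ 2 + 0 * r ^ 3 + 0 * r ^ 4 := fun r hr => by
    rw [uIcc_of_le hs] at hr
    unfold GBf qI alf bef c1q c4q c2q cBq
    rw [max_eq_left (by linarith [hr.2])]
    push_cast
    field_simp
    ring
  rw [intervalIntegral.integral_congr e0, int_poly]
  ring


/-! ### the rate in the cell -/

theorem nn_t1v {c : Cel} {f : E → E} {F : ℝ → ℝ} (h : NC (f (t1v c)))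
    (hf : ∀ ρ e, (f e).val ρ = F (e.val ρ)) (hb : 0 < c.t1) {t : ℝ}
    (ht : t ∈ Icc (0 : ℝ) c.t1) : 0 ≤ F t := by
  have hb' : (0 : ℝ) < c.t1 := by exact_mod_cast hb
  have z0 : (0 : ℝ) ∈ Icc (0 : ℝ) 1 := ⟨le_rfl, zero_le_one⟩
  have key := h 0 0 0 (t / c.t1) z0 z0 z0 ⟨div_nonneg ht.1 hb'.le, (div_le_one hb').2 ht.2⟩
  rw [hf] at key
  unfold t1v at key
  rw [val_mul, val_qc, val_uT, mul_div_cancel₀ _ hb'.ne'] at key
  exact key

section rate

variable {V : Type*} [Fintype V] [DecidableEq V]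
variable {x : V → V → ℝ} {P : V → Prop} [DecidablePred P] {N : ℕ} {Z : Hzd}
variable {sl : ℝ → ℝ → ℝ} {d : Dat} {q : Iq} {f : Fx} {c : Cel} {n : Chn}
variable {Pe : ℝ → ℝ → ℝ} {Pt : ℝ → ℝ → ℝ → ℝ}
variable {κd : ℝ → ℝ → ℝ → ℝ} {R : V → V → V → ℝ → ℝ → ℝ} {L Lt : V → V → V → V → ℝ → ℝ → ℝ}
variable {t : ℝ} {a : V} {A : ℝ → ℝ → ℝ} {α γ mt : ℝ}

/-- the majorant of the rate; `om` bounds the sum of the fluxes -/
noncomputable def Omf (c : Cel) (n : Chn) (om : List ℚ) (ξ : ℝ → ℝ) (t s : ℝ) : ℝ :=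
  n.kap * (pv om s * (((a1q c n * t ^ 2 / 2 + a2q c n * t ^ 3 / 3)
        + n.e1 * ((a1q c n + a2q c n * t) * t / 2 * s ^ 2
          - (a1q c n + 2 * (a2q c n * t)) / 6 * s ^ 3 + a2q c n / 12 * s ^ 4))
      + ((c1q c n + c4q c n * t) / 2 * s ^ 2 + (c2q c n / 3 - c4q c n / 6) * s ^ 3)))
    + n.kap * ξ s

/-- **the rate in the cell at the times `t`, `s`** -/
theorem rate_cell (hs : c.Sg) (hr : c.Rgs) (hq : q.Ok d) (hv : c.Vl d q) (hn : n.Rat c)
    (hck : n.Ck c) (hfx : f.Ok d q) (hF : n.Fck d q f c) (hb : 0 < q.bt) (hb1 : (q.bt : ℝ) ≤ bt)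
    (hee : 0 ≤ d.ee) (hK : Kform d q Pe κd)
    (hf : Lf N (d.dt.kf (pv d.be0) (pv d.be1) Pe Pt) κd R L Lt) (hx : Wt x P 1)
    (hk : (d.dt.kf (pv d.be0) (pv d.be1) Pe Pt).Ok)
    (hfc : ∀ y ∈ Icc (0 : ℝ) 1,
      ContinuousOn ((d.dt.kf (pv d.be0) (pv d.be1) Pe Pt).fh y) (Icc 0 bt))
    (hZ : Z.Ok sl) (h2 : (2 : ℝ) * c.t1 + (c.t1 : ℝ) ^ 2 / 2 ≤ 2)
    (hZb : Zb Z c.t1 (Bcf n) (fun t r => t - r) (fun _ => (n.Mb : ℝ)))
    (ha : P a) (ht : t ∈ Icc (c.t0 : ℝ) c.t1) {s : ℝ} (hst : s ∈ Icc 0 t)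
    (hRm : ∀ b e, R b a e t s ≤ x a e * pv f.mb s)
    {RD RT : V → V → V → ℝ} {rI rII rT rTT ξD ξT dr : ℝ} {ξ : ℝ → ℝ}
    (hL : Lb Z x P L Lt (fun r => alf c t r * c.th) (fun _ => (n.Yb : ℝ))
      (fun r => bef c s r * c.th) a t s RD RT dr)
    (hR : Rw x P (gT x P (d.dt.kf (pv d.be0) (pv d.be1) Pe Pt) κd a t c.C) a t RD rI rII)
    (hRT : Rw x P (gT x P (d.dt.kf (pv d.be0) (pv d.be1) Pe Pt) κd a t c.C) a t RT rT rTT)
    (II0 : 0 ≤ rII) (x0 : 0 ≤ ξD) (hξ : rI * rII ≤ ξD ^ 2)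
    (TT0 : 0 ≤ rTT) (xt0 : 0 ≤ ξT) (hξT : rT * rTT ≤ ξT ^ 2)
    {om : List ℚ} (hom : pv f.al s + pv (pri f.al) s * pv f.mb s ≤ pv om s)
    (hξs : pv f.al s * ξD + pv (pri f.al) s * pv f.mb s * (ξT + c.Q0 * dr) ≤ ξ s) :
    ∑ b ∈ ({a} : Finset V)ᶜ, ∑ e ∈ ({a, b} : Finset V)ᶜ, xr x P a b
        * (xr x P b e * gT x P (d.dt.kf (pv d.be0) (pv d.be1) Pe Pt) κd a t c.C b e)
        * ∑ g ∈ ({a, b, e} : Finset V)ᶜ,
          (flx x P (d.dt.kf (pv d.be0) (pv d.be1) Pe Pt) κd b a g t s * L b a e g t s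
          + mua x P (d.dt.kf (pv d.be0) (pv d.be1) Pe Pt) κd b a t s
            * (R b a g t s * Lt b a e g t s))
      ≤ Omf c n om ξ t s * Gr.S0 (xr x P) a := by
  set k := d.dt.kf (pv d.be0) (pv d.be1) Pe Pt with hkd
  have t00 : (0 : ℝ) ≤ c.t0 := by exact_mod_cast hs.t0
  have t0 : 0 ≤ t := t00.trans ht.1
  have c1 : (0 : ℚ) < c.t1 := lt_of_le_of_lt hs.t0 hs.t01
  have c1' : (0 : ℝ) < c.t1 := by exact_mod_cast c1
  have cb : (c.t1 : ℝ) ≤ q.bt := by exact_mod_cast hv.bt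
  have htb : t ∈ Icc (0 : ℝ) q.bt := ⟨t0, ht.2.trans cb⟩
  have ht1 : t ∈ Icc (0 : ℝ) bt := ⟨t0, htb.2.trans hb1⟩
  have hst1 : s ∈ Icc (0 : ℝ) c.t1 := ⟨hst.1, hst.2.trans ht.2⟩
  have hsb : s ∈ Icc (0 : ℝ) q.bt := ⟨hst.1, hst1.2.trans cb⟩
  have c11 : (c.t1 : ℝ) ≤ bt := cb.trans hb1
  have ee0 : (0 : ℝ) ≤ d.ee := by exact_mod_cast hee
  have kap0 : (0 : ℝ) ≤ n.kap := by exact_mod_cast hn.kap
  have rb0 : (0 : ℝ) ≤ n.rb := by exact_mod_cast hn.rb0
  -- the functions on `[0, bt]`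
  have ke1 : ∀ s ∈ Icc (0 : ℝ) q.bt, 1 ≤ pv q.ke s := fun s hs => by
    have := nn_tg (f := fun t => pe q.ke t - 1) (F := fun t => pv q.ke t - 1) hfx.ke1
      (fun ρ e => by rw [val_sub, val_pe, val_one]) hb hs
    beta_reduce at this
    linarith
  have vert' : ∀ {α β : ℚ}, NC (kal d q f α β (tg q)) → ∀ s ∈ Icc (0 : ℝ) q.bt,
      (1 + (α : ℝ) * (pv d.be0 s - 1) + (β : ℝ) * pv d.be1 s) * pv q.ke s
        ≤ (1 + s) ^ 2 * pv f.al s := fun {α β} h s hs => by
    have := nn_tg (F := fun s => (1 + s) ^ 2 * pv f.al s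
      - (1 + (α : ℝ) * (pv d.be0 s - 1) + (β : ℝ) * pv d.be1 s) * pv q.ke s) h
      (fun ρ e => by
        unfold kal
        rw [val_sub, val_mul, val_mul, val_pow, val_add, val_ebv, val_pe, val_pe, val_one]) hb hs
    beta_reduce at this
    linarith
  have haq : ∀ s ∈ Icc (0 : ℝ) q.bt, pv q.ke s ≤ (1 + s) ^ 2 * pv f.al s := fun s hs => by
    have := nn_tg (F := fun s => (1 + s) ^ 2 * pv f.al s - pv q.ke s) hfx.aq
      (fun ρ e => by
        unfold kaq
        rw [val_sub, val_mul, val_pow, val_add, val_pe, val_pe, val_one]) hb hs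
    beta_reduce at this
    linarith
  have al0 : ∀ s ∈ Icc (0 : ℝ) q.bt, 0 < pv f.al s := fun s hs => by
    have h1 := haq s hs
    have h2 := ke1 s hs
    have h3 : 0 < (1 + s) ^ 2 := by have := hs.1; positivity
    by_contra h
    have := mul_nonpos_of_nonneg_of_nonpos h3.le (not_lt.1 h)
    linarith
  have kc0 : 0 ≤ pv q.kc t := nn_tg (F := fun t => pv q.kc t) hq.kc0
    (fun ρ e => by rw [val_pe]) hb htb
  have mb0 : 0 ≤ pv f.mb s := nn_tg (F := fun t => pv f.mb t) hfx.mb0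
    (fun ρ e => by rw [val_pe]) hb hsb
  set κt : ℝ := (1 + d.ee * t) * pv q.kc t with hκt
  have κt0 : 0 ≤ κt := mul_nonneg (by have := mul_nonneg ee0 t0; linarith) kc0
  have κtle : κt ≤ n.kap := by
    have := nn_tcl (F := fun t => (n.kap : ℝ) - (1 + (d.ee : ℝ) * t) * pv q.kc t) hF.kap
      (fun ρ e => by
        unfold kkap
        rw [val_sub, val_mul, val_add, val_mul, val_pe, val_qc, val_qc, val_one]) hs.t01 ht
    beta_reduce at this
    rw [hκt]
    linarith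
  have hrb : (1 - (n.rb : ℝ)) * (pv (pri f.al) s * pv f.mb s) ≤ n.rb * pv f.al s := by
    have := nn_t1v (F := fun s => (n.rb : ℝ) * pv f.al s
      - (1 - (n.rb : ℝ)) * (pv (pri f.al) s * pv f.mb s)) hF.rb
      (fun ρ e => by
        unfold krb
        rw [val_sub, val_mul, val_mul, val_mul, val_pe, val_pe, val_pe, val_qc, val_qc]
        push_cast
        rfl) c1 hst1
    beta_reduce at this
    linarith
  have sub_t : ∀ r ∈ Icc 0 t, r ∈ Icc (0 : ℝ) q.bt := fun r hr => ⟨hr.1, hr.2.trans htb.2⟩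
  have ali0 : 0 ≤ pv (pri f.al) s := by
    rw [← int_pri2 f.al hst.1]
    exact intervalIntegral.integral_nonneg hst.1 fun r hr =>
      (al0 r ⟨hr.1, hr.2.trans hsb.2⟩).le
  -- the bounds of the kernels
  have hKb : Kb k κd t (fun s => pv f.al s / pv q.ke s) (fun s => κt * pv q.ke s) := by
    have ce := (continuous_pv q.ke).continuousOn (s := Icc 0 t)
    refine ⟨fun y hy s hs => ?_, fun s hs => ?_, fun w hw s hs => ?_, fun s hs => ?_,
      fun s hs => ?_, ?_, continuousOn_const.mul ce⟩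
    · have hs' := sub_t s hs
      have k0 : 0 < pv q.ke s := by linarith [ke1 s hs']
      rw [le_div_iff₀ k0]
      have s1 : 0 < (1 + s) ^ 2 := by have := hs.1; positivity
      have e : k.fh y s * pv q.ke s
          = ((1 + (1 - y) * (pv d.be0 s - 1) + eta y * pv d.be1 s) * pv q.ke s)
            / (1 + s) ^ 2 := by
        rw [hkd, fh_eq]
        field_simp
      rw [e, div_le_iff₀ s1]
      have p0 := vert' hfx.a0 s hs'
      have ph := vert' hfx.ah s hs'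
      have p1 := vert' hfx.a1 s hs'
      have e2 := pl_lin (f := fun y => (1 + (1 - y) * (pv d.be0 s - 1) + eta y * pv d.be1 s)
        * pv q.ke s) (α := pv q.ke s) (β := (pv d.be0 s - 1) * pv q.ke s)
        (γ := pv d.be1 s * pv q.ke s) (fun w => by ring) y
      have e0 : eta 0 = 0 := min_eq_left (by norm_num)
      have eh : eta (1 / 2) = 1 / 2 := min_eq_left le_rfl
      have e1 : eta 1 = 1 / 2 := min_eq_right (by norm_num)
      beta_reduce at e2
      rw [e0, eh, e1] at e2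
      rw [e2]
      push_cast at p0 ph p1
      set W := (1 + s) ^ 2 * pv f.al s with hW
      have e3 : pl W W W y = W := by unfold pl; split_ifs <;> ring
      have k1 := pl_mono (a' := W) (h' := W) (b' := W) (v := y)
        (a := (1 + (1 - 0) * (pv d.be0 s - 1) + 0 * pv d.be1 s) * pv q.ke s)
        (h := (1 + (1 - 1 / 2) * (pv d.be0 s - 1) + 1 / 2 * pv d.be1 s) * pv q.ke s)
        (b := (1 + (1 - 1) * (pv d.be0 s - 1) + 1 / 2 * pv d.be1 s) * pv q.ke s)
        (le_trans (le_of_eq (by ring)) p0) (le_trans (le_of_eq (by ring)) ph)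
        (le_trans (le_of_eq (by ring)) p1) hy
      rw [e3] at k1
      linarith
    · have hs' := sub_t s hs
      have k0 : 0 < pv q.ke s := by linarith [ke1 s hs']
      have s1 : 0 < (1 + s) ^ 2 := by have := hs.1; positivity
      rw [le_div_iff₀ k0]
      unfold qq
      have := haq s hs'
      rw [inv_mul_le_iff₀ s1]
      exact this
    · have h1 := hK.κd w t htb s hs
      rw [h1, hκt]
      exact le_of_eq (by ring)
    · have hs' := sub_t s hs
      exact div_nonneg (al0 s hs').le (by linarith [ke1 s hs'])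
    · have hs' := sub_t s hs
      exact mul_nonneg κt0 (by linarith [ke1 s hs'])
    · exact (continuous_pv f.al).continuousOn.div ce fun s hs => by
        have := ke1 s (sub_t s hs)
        linarith
  have hprod : ∀ r ∈ Icc 0 t, pv f.al r / pv q.ke r * (κt * pv q.ke r) = κt * pv f.al r :=
    fun r hr => by
      have k0 : 0 < pv q.ke r := by linarith [ke1 r (sub_t r hr)]
      field_simp
  have hFi : (∫ r in (0 : ℝ)..s, pv f.al r / pv q.ke r * (κt * pv q.ke r))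
      ≤ κt * pv (pri f.al) s := by
    have e : ∫ r in (0 : ℝ)..s, pv f.al r / pv q.ke r * (κt * pv q.ke r)
        = ∫ r in (0 : ℝ)..s, κt * pv f.al r := by
      refine intervalIntegral.integral_congr fun r hr => ?_
      rw [uIcc_of_le hst.1] at hr
      exact hprod r ⟨hr.1, hr.2.trans hst.2⟩
    rw [e, intervalIntegral.integral_const_mul, int_pri2 f.al hst.1]
  have hRt := hKb.rt hf hx hk hfc ht1 hst hFi mb0 hRm
  rw [hprod s hst] at hRt
  -- the ratio
  set W : ℝ := pv f.al s + pv (pri f.al) s * pv f.mb s with hW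
  have W0 : 0 < W := by
    have := mul_nonneg ali0 mb0
    have := al0 s hsb
    rw [hW]; linarith
  set ρ : ℝ := pv (pri f.al) s * pv f.mb s / W with hρ
  have ρ0 : 0 ≤ ρ := div_nonneg (mul_nonneg ali0 mb0) W0.le
  have ρ1 : ρ ≤ 1 := (div_le_one W0).2 (by rw [hW]; linarith [al0 s hsb])
  have ρe : ρ * (κt * pv f.al s + κt * pv (pri f.al) s * pv f.mb s)
      = κt * pv (pri f.al) s * pv f.mb s := by
    have : κt * pv f.al s + κt * pv (pri f.al) s * pv f.mb s = κt * W := by rw [hW]; ring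
    rw [this, hρ]
    field_simp
  have ρr : ρ ≤ n.rb := by
    rw [hρ, div_le_iff₀ W0, hW]
    linarith
  -- the conditions
  have hD := db_of (Pe := Pe) (Pt := Pt) hq hb hee hv hs.t01 hs.t0 hK ht
  have hA := avs_of hs hr ht
  have a1 : ∀ r ∈ Icc 0 s, alf c t r ≤ 1 := fun r hr =>
    (div_le_one c1').2 (by linarith [hr.1, ht.2])
  have ba : ∀ r ∈ Icc 0 s, bef c s r ≤ alf c t r := fun r hr =>
    div_le_div_of_nonneg_right (max_le (by linarith [hst.2]) (by linarith [hr.2, hst.2])) c1'.le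
  have hGa := ga_of (s := s) (al := alf c t) (be := bef c s) hk hx ht1 hD hA ha
    (fun r _ => div_nonneg (le_max_right _ _) c1'.le) ba a1
  have hNc := nc_of (ρ := ρ) (ξ := ξD) (ξT := ξT) hs hn hL.δ0 ht hst ρ0 ρr hR.I0 II0 x0 hξ
    hRT.I0 TT0 xt0 hξT
  have hScl := scl_of hs hn hck ht hst
  have key := rate3 hZ hx c11 h2 ha hZb hScl hRt hL ρ0 ρ1 ρe hGa hNc hR hRT
  rw [int_GA hst, int_GB c1' hst.1] at key
  refine key.trans (mul_le_mul_of_nonneg_right ?_ (Gr.S0_nonneg (wg_xr hx) a))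
  unfold Omf
  have iA : 0 ≤ ∫ r in (0 : ℝ)..t, GAf c n t s r := by
    refine intervalIntegral.integral_nonneg t0 fun r hr => ?_
    obtain ⟨z1, z2, hz⟩ := hNc.a
    obtain ⟨h1, h2, -, -, h5⟩ := hz r hr
    refine le_trans ?_ h5
    have b0 := hZb.b0 r t hr.1 hr.2 ht.2
    have bd0 := hZb.bd0 r t hr.1 hr.2 ht.2
    have T0 : 0 ≤ alf c t r * c.th :=
      (hScl.τ0 r hr).trans (hScl.τT r hr)
    exact mul_nonneg (Real.exp_pos _).le (mul_nonneg (Real.exp_pos _).le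
      (add_nonneg (mul_nonneg h1 bd0) (mul_nonneg (mul_nonneg (mul_nonneg (by norm_num) h2) b0)
        (add_nonneg t0 T0))))
  have iB : 0 ≤ ∫ r in (0 : ℝ)..s, GBf c n t s r := by
    refine intervalIntegral.integral_nonneg hst.1 fun r hr => ?_
    obtain ⟨z1, z2, hz⟩ := hNc.b
    obtain ⟨h1, h2, -, -, h5⟩ := hz r hr
    exact le_trans (mul_nonneg (Real.exp_pos _).le (add_nonneg h1 h2)) h5
  rw [int_GA hst] at iA
  rw [int_GB c1' hst.1] at iB
  have o1 : κt * pv f.al s + κt * pv (pri f.al) s * pv f.mb s ≤ n.kap * pv om s := by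
    have : κt * pv f.al s + κt * pv (pri f.al) s * pv f.mb s = κt * W := by rw [hW]; ring
    rw [this]
    exact mul_le_mul κtle hom W0.le kap0
  have o2 : κt * pv (pri f.al) s * pv f.mb s ≤ n.kap * (pv (pri f.al) s * pv f.mb s) := by
    rw [mul_assoc]
    exact mul_le_mul_of_nonneg_right κtle (mul_nonneg ali0 mb0)
  have h0 : (0 : ℝ) ≤ c.Q0 := by exact_mod_cast hs.Q0
  have o3 : κt * pv f.al s ≤ n.kap * pv f.al s :=
    mul_le_mul_of_nonneg_right κtle (al0 s hsb).le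
  have m1 := mul_le_mul_of_nonneg_right o1 (add_nonneg iA iB)
  have m2 := mul_le_mul_of_nonneg_right o2 (add_nonneg xt0 (mul_nonneg h0 hL.δ0))
  have m3 := mul_le_mul_of_nonneg_right o3 x0
  have m4 := mul_le_mul_of_nonneg_left hξs kap0
  linarith

end rate

end Pool.Agent.RX.RCN.K
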