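import Pool.Agent.RX.RCN.T2e

/-! The sum of the rates of the second type in a cell: the total (MP_73ccd0_lc, route M). -/

namespace Pool.Agent.RX.RCN.K

open Set Finset MeasureTheory Pool.Agent.RX.RCRSHalf Pool.Agent.RX.RCG Pool.Agent.RX.RCG.Ct
open Pool.Agent.RX.RCN.Ker

open Pool.Agent.RX.RCM hiding qc
open Pool.Agent.RX.RCM9 Pool.Agent.RX.RCM9.Bern Pool.Agent.RX.RCM9.Pk

set_option linter.unusedSectionVars false

variable {c : Cel} {n : Chn}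

theorem Omf_cont {om : List ℚ} {ξ : ℝ → ℝ} {t : ℝ} (cξ : ContinuousOn ξ (Icc 0 t)) :
    ContinuousOn (Omf c n om ξ t) (Icc 0 t) := by
  unfold Omf
  have h := (continuous_pv om).continuousOn (s := Icc (0 : ℝ) t)
  exact (continuousOn_const.mul (h.mul (Continuous.continuousOn (by fun_prop)))).add
    (continuousOn_const.mul cξ)

/-- the leading parts -/
noncomputable def KM (c : Cel) (n : Chn) (om : List ℚ) (t : ℝ) : ℝ :=
  (a1q c n * t ^ 2 / 2 + a2q c n * t ^ 3 / 3) * pv (pri om) t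
    + (n.e1 * ((a1q c n + a2q c n * t) * t / 2) + (c1q c n + c4q c n * t) / 2)
      * pv (pri (0 :: 0 :: om)) t
    + (-(n.e1 * ((a1q c n + 2 * (a2q c n * t)) / 6)) + (c2q c n / 3 - c4q c n / 6))
      * pv (pri (0 :: 0 :: 0 :: om)) t
    + n.e1 * (a2q c n / 12) * pv (pri (0 :: 0 :: 0 :: 0 :: om)) t

theorem val_eKM (ρ : ℕ → ℝ) (om : List ℚ) (t : E) :
    (eKM c n om t).val ρ = KM c n om (t.val ρ) := by
  unfold eKM KM
  simp only [val_add, val_mul, val_sub, val_pow, val_qc, val_pe]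
  push_cast
  ring

/-- the integral of the majorant -/
theorem int_Omf {om : List ℚ} {ξ : ℝ → ℝ} {t : ℝ} (t0 : 0 ≤ t) (cξ : ContinuousOn ξ (Icc 0 t)) :
    ∫ s in (0 : ℝ)..t, Omf c n om ξ t s
      = n.kap * (KM c n om t + ∫ s in (0 : ℝ)..t, ξ s) := by
  have sh : ∀ (l : List ℚ) (s : ℝ), pv (0 :: l) s = s * pv l s := fun l s => by
    simp only [pv]
    push_cast
    ring
  have co : ∀ l : List ℚ, ContinuousOn (pv l) (Icc 0 t) := fun l =>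
    (continuous_pv l).continuousOn
  set A0 : ℝ := a1q c n * t ^ 2 / 2 + a2q c n * t ^ 3 / 3 with hA0
  set A2 : ℝ := n.e1 * ((a1q c n + a2q c n * t) * t / 2) + (c1q c n + c4q c n * t) / 2 with hA2
  set A3 : ℝ := -(n.e1 * ((a1q c n + 2 * (a2q c n * t)) / 6)) + (c2q c n / 3 - c4q c n / 6)
    with hA3
  set A4 : ℝ := n.e1 * (a2q c n / 12) with hA4
  have e0 : ∀ s, Omf c n om ξ t s
      = n.kap * ((A0 * pv om s + A2 * pv (0 :: 0 :: om) s)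
        + (A3 * pv (0 :: 0 :: 0 :: om) s + A4 * pv (0 :: 0 :: 0 :: 0 :: om) s))
        + n.kap * ξ s := fun s => by
    unfold Omf
    simp only [sh]
    rw [hA0, hA2, hA3, hA4]
    ring
  simp only [e0]
  have cm : ∀ (A : ℝ) (l : List ℚ), ContinuousOn (fun s => A * pv l s) (Icc 0 t) := fun A l =>
    continuousOn_const.mul (co l)
  have im : ∀ (A : ℝ) (l : List ℚ), ∫ s in (0 : ℝ)..t, A * pv l s = A * pv (pri l) t :=
    fun A l => by rw [intervalIntegral.integral_const_mul, int_pri2 _ t0]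
  have c1 : ContinuousOn (fun s => A0 * pv om s + A2 * pv (0 :: 0 :: om) s) (Icc 0 t) :=
    (cm _ _).add (cm _ _)
  have c2 : ContinuousOn (fun s => A3 * pv (0 :: 0 :: 0 :: om) s
      + A4 * pv (0 :: 0 :: 0 :: 0 :: om) s) (Icc 0 t) := (cm _ _).add (cm _ _)
  have c3 : ContinuousOn (fun s => (A0 * pv om s + A2 * pv (0 :: 0 :: om) s)
      + (A3 * pv (0 :: 0 :: 0 :: om) s + A4 * pv (0 :: 0 :: 0 :: 0 :: om) s)) (Icc 0 t) :=
    c1.add c2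
  rw [int_add t0 (f := fun s => n.kap * ((A0 * pv om s + A2 * pv (0 :: 0 :: om) s)
      + (A3 * pv (0 :: 0 :: 0 :: om) s + A4 * pv (0 :: 0 :: 0 :: 0 :: om) s)))
    (g := fun s => n.kap * ξ s) (continuousOn_const.mul c3)
    (continuousOn_const.mul cξ), intervalIntegral.integral_const_mul,
    intervalIntegral.integral_const_mul,
    int_add t0 (f := fun s => A0 * pv om s + A2 * pv (0 :: 0 :: om) s)
      (g := fun s => A3 * pv (0 :: 0 :: 0 :: om) s + A4 * pv (0 :: 0 :: 0 :: 0 :: om) s) c1 c2,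
    int_add t0 (f := fun s => A0 * pv om s) (g := fun s => A2 * pv (0 :: 0 :: om) s)
      (cm _ _) (cm _ _),
    int_add t0 (f := fun s => A3 * pv (0 :: 0 :: 0 :: om) s)
      (g := fun s => A4 * pv (0 :: 0 :: 0 :: 0 :: om) s) (cm _ _) (cm _ _), im, im, im, im]
  unfold KM
  ring

section total

variable {V : Type*} [Fintype V] [DecidableEq V]
variable {x : V → V → ℝ} {P : V → Prop} [DecidablePred P] {N : ℕ} {Z : Hzd}
variable {sl : ℝ → ℝ → ℝ} {d : Dat} {q : Iq} {f : Fx}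
variable {Pe : ℝ → ℝ → ℝ} {Pt : ℝ → ℝ → ℝ → ℝ}
variable {κd : ℝ → ℝ → ℝ → ℝ} {R : V → V → V → ℝ → ℝ → ℝ} {L Lt : V → V → V → V → ℝ → ℝ → ℝ}
variable {t : ℝ} {a : V} {A : ℝ → ℝ → ℝ} {α γ mt : ℝ}

/-- **the sum of the rates of the second type in a cell** -/
theorem t2_cell (hc : CelOk d q f c n) (hq : q.Ok d) (hfx : f.Ok d q) (hb : 0 < q.bt)
    (hb1 : (q.bt : ℝ) ≤ bt) (hee : 0 ≤ d.ee) (hK : Kform d q Pe κd)
    (hf : Lf N (d.dt.kf (pv d.be0) (pv d.be1) Pe Pt) κd R L Lt) (hx : Wt x P 1)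
    (hk : (d.dt.kf (pv d.be0) (pv d.be1) Pe Pt).Ok)
    (hfc : ∀ y ∈ Icc (0 : ℝ) 1,
      ContinuousOn ((d.dt.kf (pv d.be0) (pv d.be1) Pe Pt).fh y) (Icc 0 bt))
    (cPe : ∀ w, ContinuousOn ((d.dt.kf (pv d.be0) (pv d.be1) Pe Pt).Pe w) (Icc 0 bt))
    (hZ : Z.Ok sl)
    (hZb : Zb Z c.t1 (Bcf n) (fun t r => t - r) (fun _ => (n.Mb : ℝ)))
    (ha : P a) (ht : t ∈ Icc (c.t0 : ℝ) c.t1)
    (hm : Mu (d.dt.kf (pv d.be0) (pv d.be1) Pe Pt) κd A t α γ mt c.C)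
    (m0 : ∀ b e, P b → P e → Gr.D3 a b e → 0 ≤ (d.dt.kf (pv d.be0) (pv d.be1) Pe Pt).mb
      (xr x P b a) (xr x P b e) (xr x P a e) t)
    (e0 : ∀ b e, P b → P e → Gr.D3 a b e →
      0 ≤ (xdOf x κd R L Lt).E x P (d.dt.kf (pv d.be0) (pv d.be1) Pe Pt) b a e t)
    (e1 : ∀ b e, P b → P e → Gr.D3 a b e →
      0 ≤ (xdOf x κd R L Lt).E x P (d.dt.kf (pv d.be0) (pv d.be1) Pe Pt) b e a t)
    (hRm : ∀ s ∈ Icc 0 t, ∀ b e, R b a e t s ≤ x a e * pv f.mb s)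
    {om : List ℚ} (hom : ∀ s ∈ Icc 0 t, pv f.al s + pv (pri f.al) s * pv f.mb s ≤ pv om s)
    {ξ : ℝ → ℝ} (cξ : ContinuousOn ξ (Icc 0 t))
    (hLR : ∀ s ∈ Icc 0 t, ∃ (RD RT : V → V → V → ℝ) (rI rII rT rTT ξD ξT dr : ℝ),
      Lb Z x P L Lt (fun r => alf c t r * c.th) (fun _ => (n.Yb : ℝ))
        (fun r => bef c s r * c.th) a t s RD RT dr ∧
      Rw x P (gT x P (d.dt.kf (pv d.be0) (pv d.be1) Pe Pt) κd a t c.C) a t RD rI rII ∧
      Rw x P (gT x P (d.dt.kf (pv d.be0) (pv d.be1) Pe Pt) κd a t c.C) a t RT rT rTT ∧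
      0 ≤ rII ∧ 0 ≤ ξD ∧ rI * rII ≤ ξD ^ 2 ∧ 0 ≤ rTT ∧ 0 ≤ ξT ∧ rT * rTT ≤ ξT ^ 2 ∧
      pv f.al s * ξD + pv (pri f.al) s * pv f.mb s * (ξT + c.Q0 * dr) ≤ ξ s) :
    ∑ b, xr x P a b * ∑ e ∈ ({a, b} : Finset V)ᶜ,
        wS (d.dt.kf (pv d.be0) (pv d.be1) Pe Pt).fh (d.dt.kf (pv d.be0) (pv d.be1) Pe Pt).mb
          ((xdOf x κd R L Lt).E x P (d.dt.kf (pv d.be0) (pv d.be1) Pe Pt)) x P b a e t
      ≤ (c.J + n.kap * (KM c n om t + ∫ s in (0 : ℝ)..t, ξ s)) * Gr.S0 (xr x P) a := by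
  have t00 : (0 : ℝ) ≤ c.t0 := by exact_mod_cast hc.s.t0
  have t0 : 0 ≤ t := t00.trans ht.1
  have cb : (c.t1 : ℝ) ≤ q.bt := by exact_mod_cast hc.v.bt
  have ht1 : t ∈ Icc (0 : ℝ) bt := ⟨t0, (ht.2.trans cb).trans hb1⟩
  have h2 : (2 : ℝ) * c.t1 + (c.t1 : ℝ) ^ 2 / 2 ≤ 2 := by
    have := (Rat.cast_le (K := ℝ)).2 hc.h2
    push_cast at this
    exact this
  have hD := db_of (Pe := Pe) (Pt := Pt) hq hb hee hc.v hc.s.t01 hc.s.t0 hK ht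
  have hA := avs_of hc.s hc.r ht
  have hM := mc_of hf hk hx hfc ht1 hD hA hm ha
  have key := T2_le hf hx hk hfc cPe ha ht1 hM m0 e0 e1 (Omf_cont cξ) fun s hst => by
    obtain ⟨RD, RT, rI, rII, rT, rTT, ξD, ξT, dr, hL, hR, hRT, II0, x0, hξ, TT0, xt0, hξT, hξs⟩ :=
      hLR s hst
    exact rate_cell hc.s hc.r hq hc.v hc.rt hc.k hfx hc.fc hb hb1 hee hK hf hx hk hfc hZ h2 hZb ha
      ht hst (hRm s hst) hL hR hRT II0 x0 hξ TT0 xt0 hξT (hom s hst) hξs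
  rw [int_Omf t0 cξ] at key
  exact key

end total

end Pool.Agent.RX.RCN.K
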