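import Pool.Agent.RX.RCN.GapD
import Pool.Agent.RX.RCN.T2e

/-! The second type: the conditions on the hazards, the mass ratio and the rows
(MP_73ccd0_lc, route M). -/

namespace Pool.Agent.RX.RCN.K

open Set Finset MeasureTheory Pool.Agent.RX.RCRSHalf Pool.Agent.RX.RCG Pool.Agent.RX.RCG.Ct
open Pool.Agent.RX.RCN.Ker Pool.Agent.RX.RCRS
open Pool.Agent.RX.RCM hiding qc
open Pool.Agent.RX.RCM9 Pool.Agent.RX.RCM9.Bern Pool.Agent.RX.RCM9.Pk

set_option linter.unusedSectionVars false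

/-! ### the hazards -/

theorem bt_eq : (btq : ℝ) = bt := rfl

theorem wt_mem {t : ℝ} (h0 : 0 ≤ t) (ht : t ≤ bt) : t / bt ∈ Icc (0 : ℝ) 1 ∧ bt * (t / bt) = t :=
  ⟨⟨div_nonneg h0 bt_nn, (div_le_one bt_pos).2 ht⟩, mul_div_cancel₀ _ bt_pos.ne'⟩

theorem Wz.E_le {z : HDat} (h : Wz z) {y r t : ℝ} (hy : y ∈ Icc (0 : ℝ) 1) (hr : 0 ≤ r)
    (hrt : r ≤ t) (ht : t ≤ bt) : z.rE y r * (1 - y) ≤ 1 - y * z.rSh y t := by
  have z0 : (0 : ℝ) ∈ Icc (0 : ℝ) 1 := ⟨le_rfl, zero_le_one⟩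
  obtain ⟨hT, hTe⟩ := wt_mem (hr.trans hrt) ht
  obtain ⟨Z, hZ, hZe⟩ := ex_ratio hr hrt
  rcases le_or_gt y (1 / 2) with h1 | h1
  · have key := h.l (2 * y) Z 0 (t / bt) ⟨by linarith [hy.1], by linarith⟩ hZ z0 hT
    unfold eWl wR wT at key
    simp only [val_sub, val_mul, val_pe2, val_one, val_eh, val_qc, val_uT, val_uZ, bt_eq, hTe,
      hZe, show 2 * y / 2 = y by ring] at key
    unfold HDat.rE HDat.rSh
    rw [if_pos h1, if_pos h1]
    have := mul_nonneg hy.1 key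
    nlinarith [this]
  · have key := h.h (2 * y - 1) Z 0 (t / bt) ⟨by linarith, by linarith [hy.2]⟩ hZ z0 hT
    unfold eWh wR wT at key
    simp only [val_sub, val_mul, val_add, val_pe2, val_one, val_eh, val_hlf, val_qc, val_uT,
      val_uZ, bt_eq, hTe, hZe, show (2 * y - 1) / 2 = y - 1 / 2 by ring,
      show 1 / 2 + (y - 1 / 2) = y by ring] at key
    unfold HDat.rE HDat.rSh
    rw [if_neg (not_le.2 h1), if_neg (not_le.2 h1)]
    linarith

theorem Wz.bd {z : HDat} (h : Wz z) {y r t : ℝ} (hy : y ∈ Icc (0 : ℝ) 1) (hr : 0 ≤ r)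
    (hrt : r ≤ t) (ht : t ≤ bt) :
    (z.rSh y t - z.rSh y r) * (1 - y) ≤ (t - r) * (1 - y * z.rSh y t) := by
  have key := nonneg_of_backward (a := r) (s := t)
    (U := fun ρ => (t - ρ) * (1 - y * z.rSh y t) - (z.rSh y t - z.rSh y ρ) * (1 - y))
    (U' := fun ρ => -(1 - y * z.rSh y t) + z.rE y ρ * (1 - y))
    (fun ρ _ => by
      have d1 := ((hasDerivAt_id ρ).const_sub t).mul_const (1 - y * z.rSh y t)
      have d2 := ((HDat.hasDerivAt_S (z := z) y ρ).const_sub (z.rSh y t)).mul_const (1 - y)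
      refine (d1.sub d2).congr_deriv ?_
      ring)
    (by simp)
    (fun ρ hρ _ => by
      have := h.E_le hy (hr.trans hρ.1) hρ.2 ht
      linarith)
    r ⟨le_rfl, hrt⟩
  linarith

/-- the checks of the worlds with the list of the kernel -/
abbrev Wcz (z : HDat) (g : KDat) (y : YDat) (gd : GDat) (c : Cel) (n : Chn) (mt : ℚ) : Prop :=
  Wcl z g y gd.al c n mt

/-- two times in the cell -/
theorem nn_rt {c : Cel} {f : E → E → E} {F : ℝ → ℝ → ℝ} (h : NC (f (vZ * t1v c) (t1v c)))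
    (hf : ∀ ρ r t, (f r t).val ρ = F (r.val ρ) (t.val ρ)) (hb : 0 < c.t1) {r t : ℝ} (hr : 0 ≤ r)
    (hrt : r ≤ t) (ht : t ≤ c.t1) : 0 ≤ F r t := by
  have hb' : (0 : ℝ) < c.t1 := by exact_mod_cast hb
  have z0 : (0 : ℝ) ∈ Icc (0 : ℝ) 1 := ⟨le_rfl, zero_le_one⟩
  obtain ⟨Z, hZ, hZe⟩ := ex_ratio hr hrt
  have key := h 0 Z 0 (t / c.t1) z0 hZ z0
    ⟨div_nonneg (hr.trans hrt) hb'.le, (div_le_one hb').2 ht⟩
  rw [hf] at key
  unfold t1v at key
  rw [val_mul, val_mul, val_qc, val_uT, val_uZ, mul_div_cancel₀ _ hb'.ne', hZe] at key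
  exact key

section

variable {z : HDat} {g : KDat} {y : YDat} {gd : GDat} {c : Cel} {n : Chn} {mt : ℚ} {d : Dat}

theorem Wcz.b2' (h : Wcz z g y gd c n mt) (hb : 0 < c.t1) {r t : ℝ} (hr : 0 ≤ r) (hrt : r ≤ t)
    (ht : t ≤ c.t1) : pv2 g.QB r t ≤ n.b2 := by
  have := nn_rt (f := fun r t => qc n.b2 - pe2 g.QB r t)
    (F := fun r t => (n.b2 : ℝ) - pv2 g.QB r t) h.b2
    (fun ρ r t => by rw [val_sub, val_qc, val_pe2]) hb hr hrt ht
  beta_reduce at this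
  linarith

theorem Wcz.th' (h : Wcz z g y gd c n mt) (hb : 0 < c.t1) {r t : ℝ} (hr : 0 ≤ r) (hrt : r ≤ t)
    (ht : t ≤ c.t1) : pv2 z.Qt r t ≤ (c.th : ℝ) / c.t1 := by
  have := nn_rt (f := fun r t => qc (c.th / c.t1) - pe2 z.Qt r t)
    (F := fun r t => (c.th : ℝ) / c.t1 - pv2 z.Qt r t) h.th
    (fun ρ r t => by
      rw [val_sub, val_qc, val_pe2]
      push_cast
      rfl) hb hr hrt ht
  beta_reduce at this
  linarith

theorem Wcz.yb' (h : Wcz z g y gd c n mt) (hb : 0 < c.t1) {r t : ℝ} (hr : 0 ≤ r) (hrt : r ≤ t)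
    (ht : t ≤ c.t1) : y.Y t r ≤ n.Yb := by
  have := nn_rt (f := fun r t => qc n.Yb - (t - r) ^ 3 * pe2 y.QY r t)
    (F := fun r t => (n.Yb : ℝ) - (t - r) ^ 3 * pv2 y.QY r t) h.yb
    (fun ρ r t => by rw [val_sub, val_mul, val_pow, val_sub, val_qc, val_pe2]) hb hr hrt ht
  beta_reduce at this
  unfold YDat.Y
  linarith

theorem Wcz.mb' (h : Wcz z g y gd c n mt) (hb : 0 < c.t1) {t : ℝ} (ht : t ∈ Icc (0 : ℝ) c.t1) :
    pv z.mb t ≤ n.Mb := by
  have := nn_t1v (f := fun t => qc n.Mb - pe z.mb t) (F := fun t => (n.Mb : ℝ) - pv z.mb t) h.mb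
    (fun ρ t => by rw [val_sub, val_qc, val_pe]) hb ht
  beta_reduce at this
  linarith

theorem Wcz.cj' (h : Wcz z g y gd c n mt) : Pool.Agent.RX.RCM.Jen.CJ c.C mt := fun p hp => by
  have z0 : (0 : ℝ) ∈ Icc (0 : ℝ) 1 := ⟨le_rfl, zero_le_one⟩
  have key := h.cj p 0 0 0 hp z0 z0 z0
  rw [val_sub, val_mul, val_mul, val_sub, val_sub, val_add, val_sub, val_mul, val_mul, val_mul,
    val_pow, val_qc, val_qc, val_uX, val_one] at key
  have e3 : (3 : E).val (pt p 0 0 0) = 3 := val_three _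
  have e6 : (6 : E).val (pt p 0 0 0) = 6 := by
    show (((6 : ℕ) : ℤ) : ℝ) / ((1 : ℕ) : ℝ) = 6
    norm_num
  rw [e3, e6] at key
  linarith

/-- **the bounds of the hazards in the cell** -/
theorem zb_of (hz : z.Pos d) (hg : g.Pos z) (hw : Wz z) (h : Wcz z g y gd c n mt)
    (hn : n.Rat c) (hb : 0 < c.t1) (hbt : (c.t1 : ℝ) ≤ bt) :
    Zb z.hz c.t1 (Bcf n) (fun t r => t - r) (fun _ => (n.Mb : ℝ)) where
  b := fun y hy r t hr hrt ht => by
    have h1 := hg.cf.b y hy r t hr hrt (ht.trans hbt)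
    have h2 := h.b2' hb hr hrt ht
    have h3 : 0 ≤ 1 - y * z.hz.S y t := (hz.den hy ⟨hr.trans hrt, ht.trans hbt⟩).le
    refine h1.trans (mul_le_mul_of_nonneg_right ?_ h3)
    unfold KDat.rB Bcf
    rw [mul_comm (n.b2 : ℝ)]
    exact mul_le_mul_of_nonneg_left h2 (sub_nonneg.2 hrt)
  bd := fun y hy r t hr hrt ht => hw.bd hy hr hrt (ht.trans hbt)
  m := fun y hy r hr => (hz.rr_mb hy ⟨hr.1, hr.2.trans hbt⟩).trans (h.mb' hb hr)
  m1 := fun y hy r hr => by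
    have h1 := hw.E_le hy hr.1 le_rfl (hr.2.trans hbt)
    have h2 := hz.den hy ⟨hr.1, hr.2.trans hbt⟩
    show z.rE y r / (1 - y * z.rSh y r) * (1 - y) ≤ 1
    rw [div_mul_eq_mul_div, div_le_one h2]
    exact h1
  b0 := fun r t _ hrt _ => mul_nonneg (by exact_mod_cast hn.b2) (sub_nonneg.2 hrt)
  bd0 := fun r t _ hrt _ => sub_nonneg.2 hrt
  m0 := fun _ _ => by exact_mod_cast hn.Mb

/-- **the conditions of the mass ratio in the cell** -/
theorem mu_of {V : Type} [Fintype V] [DecidableEq V] {p : Ps} (hp : p.Ok) (hg : gd.Pos p.d)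
    (h : Wcz z g y gd c n mt) (h0 : 0 ≤ c.t0) (h01 : c.t0 < c.t1) (hbt : (c.t1 : ℝ) ≤ bt)
    (C : Cx (V ⊕ V)) {t : ℝ} (ht : t ∈ Icc (c.t0 : ℝ) c.t1) :
    Mu (p.da (gd.kd p.d) C).k (p.da (gd.kd p.d) C).κd (fun w t => (1 + w * t) * pv gd.al t) t
      (pv gd.al t) t mt c.C := by
  have G := gp_of hp hg C
  have t00 : (0 : ℝ) ≤ c.t0 := by exact_mod_cast h0
  have t0 : 0 ≤ t := t00.trans ht.1
  have htb : t ∈ Icc (0 : ℝ) bt := ⟨t0, ht.2.trans hbt⟩
  have m1 := nn_tcl (f := fun t => qc mt - pe gd.al t * (1 + hlf * t))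
    (F := fun t => (mt : ℝ) - pv gd.al t * (1 + 1 / 2 * t)) h.mu
    (fun ρ e => by
      rw [val_sub, val_mul, val_add, val_mul, val_qc, val_pe, val_one, val_hlf]) h01 ht
  beta_reduce at m1
  have mt1 : (mt : ℝ) < 1 := by exact_mod_cast h.mt1
  have mt2 : (mt : ℝ) * c.t1 ≤ 1 - mt + c.t1 / 4 := by
    have := (Rat.cast_le (K := ℝ)).2 h.mt2
    push_cast at this
    exact this
  have c1 : (0 : ℝ) < c.t1 := lt_of_le_of_lt t00 (by exact_mod_cast h01)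
  exact
    { ab := G.ab
      A1 := fun w hw => by
        beta_reduce
        exact le_of_eq (by ring)
      α0 := G.a0 t htb
      γ0 := t0
      γ1 := bt2 htb
      m1 := by linarith
      mt1 := mt1
      m2 := by
        have e : (1 - (mt : ℝ) + t / 4 - mt * t) * c.t1
            = (1 - mt + c.t1 / 4 - mt * c.t1) * t + (1 - mt) * (c.t1 - t) := by ring
        have h1 : 0 ≤ (1 - (mt : ℝ) + t / 4 - mt * t) * c.t1 := by
          rw [e]
          exact add_nonneg (mul_nonneg (by linarith) t0)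
            (mul_nonneg (by linarith) (by linarith [ht.2]))
        have h2 := nonneg_of_mul_nonneg_left h1 c1
        linarith
      cj := h.cj' }

end

/-! ### the rows -/

/-- the exponential on `[0, 1]` -/
theorem exp_quad {δ k a : ℝ} (_δ0 : 0 ≤ δ) (k0 : 0 ≤ k) (k1 : k ≤ 1)
    (h : Real.exp δ ≤ 1 + δ + a) : Real.exp (k * δ) ≤ 1 + δ * k + a * k ^ 2 := by
  -- the function `(e^(kδ) - 1 - kδ) / k²` is increasing: power series
  have hs : ∀ z : ℝ, HasSum (fun m : ℕ => z ^ m / (m.factorial : ℝ)) (Real.exp z) := fun z => by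
    rw [Real.exp_eq_exp_ℝ]
    exact NormedSpace.expSeries_div_hasSum_exp z
  have s1 : ∀ z : ℝ, HasSum (fun m : ℕ => z ^ (m + 2) / ((m + 2).factorial : ℝ))
      (Real.exp z - 1 - z) := fun z => by
    have h2 := (hasSum_nat_add_iff' (f := fun m : ℕ => z ^ m / (m.factorial : ℝ)) 2).2 (hs z)
    have e0 : ∑ i ∈ Finset.range 2, z ^ i / (i.factorial : ℝ) = 1 + z := by
      simp [Finset.sum_range_succ]
    rw [e0, show Real.exp z - (1 + z) = Real.exp z - 1 - z by ring] at h2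
    exact h2
  have c1 := s1 (k * δ)
  have c2 := (s1 δ).mul_left (k ^ 2)
  have le := hasSum_le (fun m => ?_) c1 c2
  · nlinarith [mul_le_mul_of_nonneg_left (show Real.exp δ - 1 - δ ≤ a by linarith)
      (sq_nonneg k)]
  · have e1 : (k * δ) ^ (m + 2) / ((m + 2).factorial : ℝ)
        = k ^ m * (k ^ 2 * (δ ^ (m + 2) / ((m + 2).factorial : ℝ))) := by
      rw [mul_pow, pow_add k m 2]
      ring
    have p0 : 0 ≤ k ^ 2 * (δ ^ (m + 2) / ((m + 2).factorial : ℝ)) := by positivity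
    rw [e1]
    have := mul_le_mul_of_nonneg_right (pow_le_one₀ (n := m) k0 k1) p0
    linarith

theorem Xge.Ok.ex {c : Cel} {e : Xge} (h : e.Ok c) {k : ℝ} (k0 : 0 ≤ k) (k1 : k ≤ 1) :
    Real.exp (k * e.dl) ≤ 1 + e.dl * k + e.e2 * k ^ 2 := by
  have dl0 : (0 : ℝ) ≤ e.dl := by exact_mod_cast h.dl0
  refine exp_quad dl0 k0 k1 ?_
  have h1 := exl_le h.dl0 h.dl1 (z := 1) ⟨zero_le_one, le_rfl⟩
  rw [one_mul, show (1 : ℝ) = ((1 : ℚ) : ℝ) by norm_num, pv_ev] at h1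
  have h2 : ((ev (exl e.dl) 1 : ℚ) : ℝ) ≤ 1 + e.dl + e.e2 := by exact_mod_cast h.e2
  exact h1.trans h2

section

variable {c : Cel} {e : Xge} {t : ℝ}

/-- the amplitude with the gauge -/
theorem ge_le (hs : c.Sg) (hr : c.Rgs) (he : e.Ok c) (ht : t ∈ Icc (c.t0 : ℝ) c.t1) {u v w : ℝ}
    (h3 : Tr3 u v w) :
    (gf t c.C c.bb c.DD u v w * (1 + t)) ^ 2 * ((1 - w) * ((1 - w - v) * ((1 + e.lm * (v + w))
      * (1 + e.dl * (v + w) + e.e2 * (v + w) ^ 2)))) ≤ (e.gE : ℝ) ^ 2 := by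
  have h0 : (0 : ℝ) ≤ c.t0 := by exact_mod_cast hs.t0
  have t0 : 0 ≤ t := h0.trans ht.1
  have hM := hr.M.nonneg (F := fun u v w _ D _ => 99 / 100 - w * ((1 + (u + v) * c.t1) * D))
      (fun ρ u v w b D e => by
        unfold fM
        rw [val_sub, val_eMb, val_qc]
        push_cast
        rfl) h3.v0 h3.w0 h3.vw
  beta_reduce at hM
  have hM' : w * ((1 + ((1 - max v w) + v) * c.t1) * c.DD w) < 1 := by
    unfold Cel.DD
    linarith
  have key := he.gE.nonneg (F := fun u v w b D _ => (e.gE : ℝ) ^ 2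
        * (1 - w * ((1 + (u + v) * c.t1) * D)) ^ 4 - (b * c.C) ^ 2 * ((1 - w) * ((1 - w - v)
        * ((1 + e.lm * (v + w)) * (1 + e.dl * (v + w) + e.e2 * (v + w) ^ 2)))))
      (fun ρ u v w b D e' => by
      unfold fE
      rw [val_sub, val_mul, val_pow, val_sub, val_eMb, val_qc, val_one, val_mul, val_pow, val_mul,
        val_mul, val_mul, val_mul, val_sub, val_sub, val_sub, val_add, val_mul, val_add, val_add,
        val_add, val_mul, val_mul, val_pow, val_add, val_qc, val_qc, val_qc, val_qc, val_one]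
      push_cast
      rfl)
      h3.v0 h3.w0 h3.vw
  have hg := gf_le hs ht h3 hM'
  have v1 : v ∈ Icc (0 : ℝ) 1 := ⟨h3.v0, by linarith [h3.vw, h3.w0]⟩
  have hb0 : 0 ≤ c.bb v :=
    pl_nonneg (by exact_mod_cast hs.B0) (by exact_mod_cast hs.Bh) (by exact_mod_cast hs.B1) v1
  have g0 : 0 ≤ gf t c.C c.bb c.DD u v w * (1 + t) :=
    mul_nonneg (mul_nonneg (div_nonneg hb0 (by linarith))
      (div_nonneg (by exact_mod_cast hs.C) (sq_nonneg _))) (by linarith)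
  have p1 : 0 < 1 - w * ((1 + ((1 - max v w) + v) * c.t1) * c.DD w) := by linarith
  have k0 : 0 ≤ v + w := add_nonneg h3.v0 h3.w0
  have lm0 : (0 : ℝ) ≤ e.lm := by exact_mod_cast he.lm
  have q0 : 0 ≤ 1 + e.dl * (v + w) + e.e2 * (v + w) ^ 2 :=
    (Real.exp_pos _).le.trans (he.ex k0 h3.vw)
  have r0 : 0 ≤ (1 - w) * ((1 - w - v) * ((1 + e.lm * (v + w))
      * (1 + e.dl * (v + w) + e.e2 * (v + w) ^ 2))) :=
    mul_nonneg (by linarith [h3.vw, h3.v0]) (mul_nonneg (by linarith [h3.vw])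
      (mul_nonneg (by have := mul_nonneg lm0 k0; linarith) q0))
  have s1 := mul_le_mul_of_nonneg_right (pow_le_pow_left₀ g0 hg 2) r0
  refine s1.trans ?_
  rw [div_pow, div_mul_eq_mul_div, div_le_iff₀ (by positivity)]
  have e2 : ((1 - w * ((1 + ((1 - max v w) + v) * c.t1) * c.DD w)) ^ 2) ^ 2
    = (1 - w * ((1 + ((1 - max v w) + v) * c.t1) * c.DD w)) ^ 4 := by ring
  rw [e2]
  have k2 : 0 ≤ (e.gE : ℝ) ^ 2 * (1 - w * ((1 + ((1 - max v w) + v) * c.t1) * c.DD w)) ^ 4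
      - (c.bb v * c.C) ^ 2 * ((1 - w) * ((1 - w - v) * ((1 + e.lm * (v + w))
        * (1 + e.dl * (v + w) + e.e2 * (v + w) ^ 2)))) := key
  linarith

variable {V : Type*} [Fintype V] [DecidableEq V]
variable {x : V → V → ℝ} {P : V → Prop} [DecidablePred P] {k : Kf}
variable {κd : ℝ → ℝ → ℝ → ℝ} {a : V}

/-- **the rows of side I** -/
theorem rowI (hs : c.Sg) (hr : c.Rgs) (he : e.Ok c) (hk : k.Ok) (hx : Wt x P 1)
    (ht : t ∈ Icc (c.t0 : ℝ) c.t1) (htb : t ∈ Icc (0 : ℝ) bt)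
    (hD : Db k κd t c.bb c.DD c.EE) (ha : P a) {b d : V} (h3 : Gr.D3 a b d)
    {S Ed x1 x2 : ℝ} (x10 : 0 ≤ x1) (x20 : 0 ≤ x2)
    (hE : P b → P d → Ed ≤ (1 + e.lm * (xr x P a d + xr x P b d))
      * (e.eY * Real.exp ((xr x P a d + xr x P b d) * e.dl)))
    (hS : P b → P d → S ≤ (1 - (xr x P a d + xr x P b d)) * (Ed * x1 + x2)) :
    (gT x P k κd a t c.C b d * (1 + t)) ^ 2 * (1 - xr x P a d) * S
      ≤ (e.gE : ℝ) ^ 2 * e.eY * x1 + (c.gI : ℝ) ^ 2 * x2 := by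
  have eY0 : (0 : ℝ) ≤ e.eY := by exact_mod_cast he.eY
  have r0 : 0 ≤ (e.gE : ℝ) ^ 2 * e.eY * x1 + (c.gI : ℝ) ^ 2 * x2 := by positivity
  by_cases hbd : P b ∧ P d
  swap
  · have : gT x P k κd a t c.C b d = 0 := by
      unfold gT
      rw [if_neg fun h => hbd ⟨h.1, h.2.1⟩]
    rw [this]
    simpa using r0
  have hA := avs_of hs hr ht
  have hT := tr3_of (P := P) hx h3
  set u := xr x P a b with hu
  set v := xr x P b d with hv
  set w := xr x P a d with hw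
  have hgt := gT_le hk hx htb hD hA ha h3
  have hg0 := gT_nonneg (κd := κd) (a := a) hk hx htb hA.C0 b d
  rw [← hu, ← hv, ← hw] at hgt
  set G := gf t c.C c.bb c.DD u v w with hG
  have t1 : 0 ≤ 1 + t := by linarith [htb.1]
  have G0 : 0 ≤ G := hg0.trans hgt
  have s1 : (gT x P k κd a t c.C b d * (1 + t)) ^ 2 ≤ (G * (1 + t)) ^ 2 :=
    pow_le_pow_left₀ (mul_nonneg hg0 t1) (mul_le_mul_of_nonneg_right hgt t1) 2
  have w1 : 0 ≤ 1 - w := by linarith [hT.vw, hT.v0]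
  have k0 : 0 ≤ w + v := add_nonneg hT.w0 hT.v0
  have k1 : w + v ≤ 1 := by linarith [hT.vw]
  have kk : 0 ≤ 1 - (w + v) := by linarith
  have lm0 : (0 : ℝ) ≤ e.lm := by exact_mod_cast he.lm
  have i1 : 0 ≤ 1 + (e.lm : ℝ) * (w + v) := by have := mul_nonneg lm0 k0; linarith
  have ex := he.ex k0 k1
  have hE' := hE hbd.1 hbd.2
  have hS' := hS hbd.1 hbd.2
  have E1 : Ed ≤ e.eY * ((1 + e.lm * (w + v)) * (1 + e.dl * (w + v) + e.e2 * (w + v) ^ 2)) := by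
    refine hE'.trans ?_
    have := mul_le_mul_of_nonneg_left (mul_le_mul_of_nonneg_left ex eY0) i1
    linarith
  have F0 : 0 ≤ (G * (1 + t)) ^ 2 * (1 - w) := mul_nonneg (sq_nonneg _) w1
  have R1 : S ≤ (1 - (w + v)) * ((e.eY * ((1 + e.lm * (w + v))
      * (1 + e.dl * (w + v) + e.e2 * (w + v) ^ 2))) * x1 + x2) :=
    hS'.trans (mul_le_mul_of_nonneg_left (add_le_add (mul_le_mul_of_nonneg_right E1 x10) le_rfl)
      kk)
  have q0 : 0 ≤ 1 + (e.dl : ℝ) * (w + v) + e.e2 * (w + v) ^ 2 := (Real.exp_pos _).le.trans ex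
  have R0 : 0 ≤ (1 - (w + v)) * ((e.eY * ((1 + e.lm * (w + v))
      * (1 + e.dl * (w + v) + e.e2 * (w + v) ^ 2))) * x1 + x2) := by positivity
  have m1 : (gT x P k κd a t c.C b d * (1 + t)) ^ 2 * (1 - w) * S
      ≤ (G * (1 + t)) ^ 2 * (1 - w) * ((1 - (w + v)) * ((e.eY * ((1 + e.lm * (w + v))
      * (1 + e.dl * (w + v) + e.e2 * (w + v) ^ 2))) * x1 + x2)) := by
    refine (mul_le_mul_of_nonneg_left R1 (mul_nonneg (sq_nonneg _) w1)).trans ?_
    exact mul_le_mul_of_nonneg_right (mul_le_mul_of_nonneg_right s1 w1) R0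
  refine m1.trans ?_
  have g1 := mul_le_mul_of_nonneg_right (ge_le hs hr he ht hT) (mul_nonneg eY0 x10)
  have g2 := mul_le_mul_of_nonneg_right (hA.cI _ _ _ hT) x20
  rw [← hG] at g1 g2
  have e1 : (G * (1 + t)) ^ 2 * (1 - w) * ((1 - (w + v)) * ((e.eY * ((1 + e.lm * (w + v))
      * (1 + e.dl * (w + v) + e.e2 * (w + v) ^ 2))) * x1 + x2))
      = (G * (1 + t)) ^ 2 * ((1 - w) * ((1 - w - v) * ((1 + e.lm * (v + w))
        * (1 + e.dl * (v + w) + e.e2 * (v + w) ^ 2)))) * (e.eY * x1)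
        + (G * (1 + t)) ^ 2 * (1 - w) * (1 - w - v) * x2 := by ring
  rw [e1]
  linarith

end

end Pool.Agent.RX.RCN.K
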