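import Pool.Agent.RX.RCN.Cel
import Pool.Agent.RX.RCN.T2f
import Pool.Agent.RX.RCN.T2g
import Pool.Agent.RX.RCN.T2x
import Pool.Agent.RX.RCN.Tend_2

/-! The second type: the inequality in a cell with the polynomial data
(MP_73ccd0_lc, route M). -/

namespace Pool.Agent.RX.RCN.K

open Set Finset MeasureTheory Pool.Agent.RX.RCRSHalf Pool.Agent.RX.RCG Pool.Agent.RX.RCG.Ct
open Pool.Agent.RX.RCN.Ker Pool.Agent.RX.RCRS
open Pool.Agent.RX.RCM hiding qc
open Pool.Agent.RX.RCM9 Pool.Agent.RX.RCM9.Bern Pool.Agent.RX.RCM9.Pk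

set_option linter.unusedSectionVars false

/-! ### the rows -/

theorem Xr.Ok.nn_s {f : Fx} {c : Cel} {e : Xge} {r : Xr} (_ : r.Ok f c e) {l : List ℚ}
    (h : NC (pe l (t1v c))) (hb : 0 < c.t1) {s : ℝ} (hs : s ∈ Icc (0 : ℝ) c.t1) :
    0 ≤ pv l s :=
  nn_t1v (f := fun s => pe l s) (F := fun s => pv l s) h (fun ρ s => by rw [val_pe]) hb hs

section rows

variable {V : Type*} [Fintype V] [DecidableEq V]

/-- the rows of the closures of the analysis cell `i` for the centre `a`: `X`, `Xt` bound the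
exponents of the worlds `{b, a}` without the leading parts, `Ms`, `Mt` do not depend on `b` -/
structure Rws (p : Ps) (x : V → V → ℝ) (P : V → Prop) [DecidablePred P] (a : V) (N i : ℕ)
    (G : V → Fm V) (e : Xge) (r : Xr) (X Xt : V → V → V → ℝ → ℝ) (Ms Mt : V → V → ℝ → ℝ) :
    Prop where
  x0 : ∀ b d e, P b → Gr.D3 a b d → e ∈ ({a, b, d} : Finset V)ᶜ →
    ∀ s ∈ Icc 0 (cb N i), 0 ≤ X b d e s ∧ 0 ≤ Xt b d e s
  m0 : ∀ d e, Gr.D3 a d e → ∀ s ∈ Icc 0 (cb N i), 0 ≤ Ms d e s ∧ 0 ≤ Mt d e s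
  l : ∀ b d e, P b → P d → P e → Gr.D3 a b d → e ∈ ({a, b, d} : Finset V)ᶜ →
    ∀ t ∈ Icc (ca N i) (cb N i), ∀ s ∈ Icc 0 t,
    LdS p.z.hz (p.y.lz2 p.z x P b a (cb N i) (cb N i)) x P (pv p.lo) (G b) (cb N i) {b, a} d e t s
      ≤ N2 p.z.hz (p.y.lz2 p.z x P b a (cb N i) (cb N i)) x P {b, a} t s t d e 0
        + N2 p.z.hz (p.y.lz2 p.z x P b a (cb N i) (cb N i)) x P {b, a} t s s e d 0
        + X b d e s
  lt : ∀ b d e, P b → P d → P e → Gr.D3 a b d → e ∈ ({a, b, d} : Finset V)ᶜ →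
    ∀ t ∈ Icc (ca N i) (cb N i), ∀ s ∈ Icc 0 t,
    LtS p.z.hz (p.y.lz2 p.z x P b a (cb N i) (cb N i)) x P (pv p.lo) (G b) (cb N i) {b, a} d e t s
      ≤ x d e * pv r.hz s
        + (N2 p.z.hz (p.y.lz2 p.z x P b a (cb N i) (cb N i)) x P {b, a} t s t d e 0
        + N2 p.z.hz (p.y.lz2 p.z x P b a (cb N i) (cb N i)) x P {b, a} t s s e d 0)
        + Xt b d e s
  I : ∀ b d, P b → Gr.D3 a b d → ∀ s ∈ Icc 0 (cb N i), ∃ Ed : ℝ,
    Ed ≤ (1 + e.lm * (x a d + x b d)) * (e.eY * Real.exp ((x a d + x b d) * e.dl)) ∧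
    ∑ e ∈ ({a, b, d} : Finset V)ᶜ, X b d e s
      ≤ (1 - (x a d + x b d)) * (Ed * pv r.d1 s + pv r.d2 s) ∧
    ∑ e ∈ ({a, b, d} : Finset V)ᶜ, Xt b d e s
      ≤ (1 - (x a d + x b d)) * (Ed * pv r.t1 s + pv r.t2 s)
  le : ∀ b d e, P b → Gr.D3 a b d → Gr.D3 a d e → b ≠ e → ∀ s ∈ Icc 0 (cb N i),
    X b d e s ≤ Ms d e s ∧ Xt b d e s ≤ Mt d e s
  II : ∀ e, e ≠ a → ∀ s ∈ Icc 0 (cb N i),
    ∑ d ∈ ({a, e} : Finset V)ᶜ, Ms d e s ≤ pv r.dy s * (1 - x a e) ∧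
    ∑ d ∈ ({a, e} : Finset V)ᶜ, Mt d e s ≤ pv r.ty s * (1 - x a e)

variable {p : Ps} {x : V → V → ℝ} {P : V → Prop} [DecidablePred P] {a b : V} {N : ℕ}
variable {c : Cel} {n : Chn} {e : Xge} {r : Xr} {gd : GDat} {mt : ℚ}

/-- the exponents of level 0 in the cell -/
theorem yb_of (hp : p.Ok) (hSg : c.Sg) (hw : Wcz p.z p.g p.y gd c n mt) (hx : Wt x P 1) (hba : b ≠ a)
    {α τ sg t s : ℝ} (α0 : 0 ≤ α) (τ1 : τ ≤ bt) (ht : t ∈ Icc α τ)
    (hb : 0 < c.t1) (htc : t ≤ c.t1) (hs : s ∈ Icc 0 t) :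
    Yb (p.y.lz2 p.z x P b a sg τ) x (fun r => alf c t r * c.th) (fun _ => (n.Yb : ℝ))
      (fun r => bef c s r * c.th) a b t s := by
  have t0 : 0 ≤ t := α0.trans ht.1
  have htb : t ∈ Icc (0 : ℝ) bt := ⟨t0, ht.2.trans τ1⟩
  have hb' : (0 : ℝ) < c.t1 := by exact_mod_cast hb
  obtain ⟨Y', N, N', hL⟩ := YDat.sy2 (P := P) hp.y hp.z hp.d hx hba htb hs
  refine ⟨fun v => hL.yx_cont t0 v, fun v hv ρ hρ => ?_⟩
  have hx' := wt_of hx
  refine (show (p.y.lz2 p.z x P b a sg τ).y2 t s v ρ ≤ _ from hL.yx_le hx' t0 v hρ).trans ?_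
  unfold RCM.yhat
  rw [Finset.sum_pair hba, Finset.sum_pair hba]
  have Y0 := hp.y.Y0 hρ.1 hρ.2 htb.2
  have hYb := hw.yb' hb hρ.1 hρ.2 htc
  have eb : p.y.th2 p.z b t s b ρ = p.z.Th t ρ := by unfold YDat.th2; rw [if_pos rfl]
  have ea : p.y.th2 p.z b t s a ρ = p.y.tb p.z t s ρ := by
    unfold YDat.th2; rw [if_neg hba.symm]
  rw [eb, ea]
  have i1 : p.z.Th t ρ ≤ alf c t ρ * c.th := by
    have h1 := hw.th' hb hρ.1 hρ.2 htc
    have h2 := mul_le_mul_of_nonneg_left h1 (sub_nonneg.2 hρ.2)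
    unfold HDat.Th alf
    refine h2.trans (le_of_eq ?_)
    ring
  have i2 : p.y.tb p.z t s ρ - p.y.Y t ρ ≤ bef c s ρ * c.th := by
    have h3 : p.z.Th s (min ρ s) ≤ bef c s ρ * c.th := by
      rcases le_total ρ s with h | h
      · rw [min_eq_left h]
        have h1 := hw.th' hb hρ.1 h (hs.2.trans htc)
        have h2 := mul_le_mul_of_nonneg_left h1 (sub_nonneg.2 h)
        unfold HDat.Th bef
        rw [max_eq_left (sub_nonneg.2 h)]
        refine h2.trans (le_of_eq ?_)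
        ring
      · rw [min_eq_right h]
        unfold HDat.Th bef
        rw [max_eq_right (sub_nonpos.2 h), sub_self]
        simp
    unfold YDat.tb
    rcases le_total (p.z.Th s (min ρ s)) (p.y.Y t ρ) with h | h
    · rw [max_eq_right h, sub_self]
      exact mul_nonneg (div_nonneg (le_max_right _ _) hb'.le) (by exact_mod_cast hSg.th0.le)
    · rw [max_eq_left h]
      linarith
  have w0 := hx.nonneg b v
  have v0 := hx.nonneg a v
  have hq := (two_mem hx v hba).2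
  rw [hx.symm v b, hx.symm v a] at hq
  have j1 := mul_le_mul_of_nonneg_left (show p.z.Th t ρ - p.y.Y t ρ ≤ alf c t ρ * c.th by
    linarith) w0
  have j2 := mul_le_mul_of_nonneg_left i2 v0
  linarith

/-- the rows of side I -/
noncomputable def rSI (c : Cel) (e : Xge) (u v : List ℚ) (s : ℝ) : ℝ :=
  (e.gE : ℝ) ^ 2 * e.eY * pv u s + (c.gI : ℝ) ^ 2 * pv v s

variable {X Xt : V → V → V → ℝ → ℝ} {Ms Mt : V → V → ℝ → ℝ} {ε : ℝ} {G : ℕ → ℕ → V → V → Fm V}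
variable {k : Kf} {κd : ℝ → ℝ → ℝ → ℝ}

/-- **from the rows to the bounds of the classes** -/
theorem xc_of (hp : p.Ok) (hw : Wcz p.z p.g p.y gd c n mt) (hx : Wt x P 1) (hSg : c.Sg)
    (hRg : c.Rgs) (he : e.Ok c) {fx : Fx} (hr : r.Ok fx c e) (hk : k.Ok) {t s : ℝ}
    (ht : t ∈ Icc (c.t0 : ℝ) c.t1) (htb : t ∈ Icc (0 : ℝ) bt) (hs : s ∈ Icc 0 t)
    (hD : Db k κd t c.bb c.DD c.EE) (ha : P a) (N0 : 0 < N)
    (hR : Rws p x P a N (ci N t) (fun b => G (ci N t) 0 b a) e r X Xt Ms Mt) :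
    Xc p.z.hz x P (p.cx x P N (fun _ => 0) (fun i _ => cb N i) ε G)
      (fun r => alf c t r * c.th) (fun _ => (n.Yb : ℝ)) (fun r => bef c s r * c.th)
      (gT x P k κd a t c.C) a t s (rSI c e r.d1 r.d2 s) (pv r.dy s) (rSI c e r.t1 r.t2 s)
      (pv r.ty s) (pv r.hz s) 0
      (fun b d e => if P b ∧ Gr.D3 a b d ∧ e ∈ ({a, b, d} : Finset V)ᶜ then X b d e s else 0)
      (fun b d e => if P b ∧ Gr.D3 a b d ∧ e ∈ ({a, b, d} : Finset V)ᶜ then Xt b d e s else 0)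
      (fun d e => if Gr.D3 a d e then Ms d e s else 0)
      (fun d e => if Gr.D3 a d e then Mt d e s else 0) := by
  have c1 : (0 : ℚ) < c.t1 := lt_of_le_of_lt hSg.t0 hSg.t01
  have hi := ci_mem N0 htb.1 htb.2
  have hiN := ci_lt N0 htb.2
  have hs' : s ∈ Icc 0 (cb N (ci N t)) := ⟨hs.1, hs.2.trans hi.2⟩
  have hZ := hp.z.ok hp.d
  have cT : ContinuousOn (fun r => alf c t r * (c.th : ℝ)) (Icc 0 t) :=
    ((alf_cont t).mul continuous_const).continuousOn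
  have cY : ContinuousOn (fun _ : ℝ => (n.Yb : ℝ)) (Icc 0 t) := continuousOn_const
  have cτ : ContinuousOn (fun r => bef c s r * (c.th : ℝ)) (Icc 0 t) :=
    ((bef_cont s).mul continuous_const).continuousOn
  have hy : ∀ b, b ≠ a → Yb (p.y.lz2 p.z x P b a (cb N (ci N t)) (cb N (ci N t))) x
      (fun r => alf c t r * c.th) (fun _ => (n.Yb : ℝ)) (fun r => bef c s r * c.th) a b t s :=
    fun b hba => yb_of hp hSg hw hx hba (ca_nonneg N _) (cb_le_bt hiN) hi c1 ht.2 hs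
  have cond : ∀ b d e, P b → Gr.D3 a b d → e ∈ ({a, b, d} : Finset V)ᶜ →
      (P b ∧ Gr.D3 a b d ∧ e ∈ ({a, b, d} : Finset V)ᶜ) := fun _ _ _ h1 h2 h3 => ⟨h1, h2, h3⟩
  have sm : s ∈ Icc (0 : ℝ) c.t1 := ⟨hs.1, hs.2.trans ht.2⟩
  have sgn : ∀ l, (l = r.d1 ∨ l = r.d2 ∨ l = r.dy ∨ l = r.t1 ∨ l = r.t2 ∨ l = r.ty) →
      0 ≤ pv l s := fun l hl => by
    rcases hl with h | h | h | h | h | h <;> subst h
    · exact hr.nn_s hr.nd1 c1 sm
    · exact hr.nn_s hr.nd2 c1 sm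
    · exact hr.nn_s hr.ndy c1 sm
    · exact hr.nn_s hr.nt1 c1 sm
    · exact hr.nn_s hr.nt2 c1 sm
    · exact hr.nn_s hr.nty c1 sm
  -- the rows of side I
  have rows : ∀ (Y : V → V → V → ℝ) (u v : List ℚ), 0 ≤ pv u s → 0 ≤ pv v s →
      (∀ b d, P b → Gr.D3 a b d → ∃ Ed : ℝ,
        Ed ≤ (1 + e.lm * (x a d + x b d)) * (e.eY * Real.exp ((x a d + x b d) * e.dl)) ∧
        ∑ e ∈ ({a, b, d} : Finset V)ᶜ, Y b d e
          ≤ (1 - (x a d + x b d)) * (Ed * pv u s + pv v s)) →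
      ∀ b d, Gr.D3 a b d → (gT x P k κd a t c.C b d * (1 + t)) ^ 2 * (1 - xr x P a d)
        * ∑ e ∈ ({a, b, d} : Finset V)ᶜ,
          (if P b ∧ Gr.D3 a b d ∧ e ∈ ({a, b, d} : Finset V)ᶜ then Y b d e else 0)
        ≤ rSI c e u v s := by
    intro Y u v u0 v0 hY b d h3
    by_cases hbd : P b ∧ P d
    · obtain ⟨Ed, h1, h2⟩ := hY b d hbd.1 h3
      have e1 : ∑ e ∈ ({a, b, d} : Finset V)ᶜ,
          (if P b ∧ Gr.D3 a b d ∧ e ∈ ({a, b, d} : Finset V)ᶜ then Y b d e else 0)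
          = ∑ e ∈ ({a, b, d} : Finset V)ᶜ, Y b d e :=
        Finset.sum_congr rfl fun e he => if_pos ⟨hbd.1, h3, he⟩
      rw [e1]
      refine rowI (Ed := Ed) hSg hRg he hk hx ht htb hD ha h3 u0 v0 (fun _ _ => ?_) fun _ _ => ?_
      · rw [xr_eq ha hbd.2, xr_eq hbd.1 hbd.2]
        exact h1
      · rw [xr_eq ha hbd.2, xr_eq hbd.1 hbd.2]
        exact h2
    · have e0 : gT x P k κd a t c.C b d = 0 := by
        unfold gT
        rw [if_neg fun h => hbd ⟨h.1, h.2.1⟩]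
      rw [e0]
      have eY0 : (0 : ℝ) ≤ e.eY := by exact_mod_cast he.eY
      unfold rSI
      have : 0 ≤ (e.gE : ℝ) ^ 2 * e.eY * pv u s + (c.gI : ℝ) ^ 2 * pv v s := by positivity
      simpa using this
  -- the columns of side II
  have cols : ∀ (M : V → V → ℝ) (l : List ℚ), 0 ≤ pv l s →
      (∀ e, e ≠ a → ∑ d ∈ ({a, e} : Finset V)ᶜ, M d e ≤ pv l s * (1 - x a e)) →
      ∀ e, e ≠ a → ∑ d ∈ ({a, e} : Finset V)ᶜ, (if Gr.D3 a d e then M d e else 0)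
        ≤ pv l s * (1 - xr x P a e) := by
    intro M l l0 hM e hea
    have e1 : ∑ d ∈ ({a, e} : Finset V)ᶜ, (if Gr.D3 a d e then M d e else 0)
        = ∑ d ∈ ({a, e} : Finset V)ᶜ, M d e := Finset.sum_congr rfl fun d hd => by
      simp only [Finset.mem_compl, Finset.mem_insert, Finset.mem_singleton, not_or] at hd
      exact if_pos ⟨hd.1, hea, hd.2⟩
    rw [e1]
    refine (hM e hea).trans (mul_le_mul_of_nonneg_left ?_ l0)
    linarith [xr_le (P := P) hx a e]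
  refine
    { x0 := fun b d e => ?_
      m0 := fun d e => ?_
      xt0 := fun b d e => ?_
      mt0 := fun d e => ?_
      l := fun b d f hb hd hf h3 hmem => ?_
      lt := fun b d f hb hd hf h3 hmem => ?_
      I := rows (fun b d e => X b d e s) _ _ (sgn _ (by tauto)) (sgn _ (by tauto))
        fun b d hb h3 => by
          obtain ⟨Ed, h1, h2, h3'⟩ := hR.I b d hb h3 s hs'
          exact ⟨Ed, h1, h2⟩
      le := fun b d f h3 h3' hbf => ?_
      II := cols (fun d e => Ms d e s) _ (sgn _ (by tauto)) fun e he => (hR.II e he s hs').1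
      It := rows (fun b d e => Xt b d e s) _ _ (sgn _ (by tauto)) (sgn _ (by tauto))
        fun b d hb h3 => by
          obtain ⟨Ed, h1, h2, h3'⟩ := hR.I b d hb h3 s hs'
          exact ⟨Ed, h1, h3'⟩
      lt' := fun b d f h3 h3' hbf => ?_
      IIt := cols (fun d e => Mt d e s) _ (sgn _ (by tauto)) fun e he => (hR.II e he s hs').2 }
  · split_ifs with h
    · exact (hR.x0 b d e h.1 h.2.1 h.2.2 s hs').1
    · exact le_rfl
  · split_ifs with h
    · exact (hR.m0 d e h s hs').1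
    · exact le_rfl
  · split_ifs with h
    · exact (hR.x0 b d e h.1 h.2.1 h.2.2 s hs').2
    · exact le_rfl
  · split_ifs with h
    · exact (hR.m0 d e h s hs').2
    · exact le_rfl
  · rw [if_pos (cond b d f hb h3 hmem)]
    have hba : b ≠ a := h3.1
    have hfm : f ∉ ({b, a} : Finset V) := by
      simp only [Finset.mem_compl, Finset.mem_insert, Finset.mem_singleton, not_or] at hmem ⊢
      tauto
    have hdm : d ∉ ({b, a} : Finset V) := by
      have h1 := h3.2.1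
      have h2 := h3.2.2
      simp only [Finset.mem_insert, Finset.mem_singleton, not_or]
      exact ⟨fun h => h2 h.symm, h1⟩
    have k1 := N2_le_NA (d := d) hZ hx htb hs cT cY cτ (hy b hba) hfm
    have k2 := N2_le_NB (e := f) hZ hx htb hs cT cY cτ (hy b hba) hdm
    have k3 := hR.l b d f hb hd hf h3 hmem t hi s hs
    refine le_trans (le_of_eq rfl) (k3.trans ?_)
    linarith
  · rw [if_pos (cond b d f hb h3 hmem)]
    have hba : b ≠ a := h3.1
    have hfm : f ∉ ({b, a} : Finset V) := by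
      simp only [Finset.mem_compl, Finset.mem_insert, Finset.mem_singleton, not_or] at hmem ⊢
      tauto
    have hdm : d ∉ ({b, a} : Finset V) := by
      have h1 := h3.2.1
      have h2 := h3.2.2
      simp only [Finset.mem_insert, Finset.mem_singleton, not_or]
      exact ⟨fun h => h2 h.symm, h1⟩
    have k1 := N2_le_NA (d := d) hZ hx htb hs cT cY cτ (hy b hba) hfm
    have k2 := N2_le_NB (e := f) hZ hx htb hs cT cY cτ (hy b hba) hdm
    have k3 := hR.lt b d f hb hd hf h3 hmem t hi s hs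
    refine le_trans (le_of_eq rfl) (k3.trans ?_)
    linarith
  · rw [if_pos h3']
    split_ifs with h
    · exact (hR.le b d f h.1 h3 h3' hbf s hs').1
    · exact (hR.m0 d f h3' s hs').1
  · rw [if_pos h3']
    split_ifs with h
    · exact (hR.le b d f h.1 h3 h3' hbf s hs').2
    · exact (hR.m0 d f h3' s hs').2

end rows

/-! ### the cell -/

/-- all conditions of the cell `[t0, t1]` -/
structure T2C (p : Ps) (gd : GDat) (q : Iq) (f : Fx) (c : Cel) (n : Chn) (e : Xge) (r : Xr)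
    (mt s2 : ℚ) : Prop where
  ok : CelOk p.d q f c n
  iq : q.Ok p.d
  fx : f.Ok p.d q
  b0 : 0 < q.bt
  b1 : q.bt ≤ btq
  kc : q.kc = gd.kc
  ke : q.ke = gd.ke
  mb : f.mb = p.z.mb
  w : Wcz p.z p.g p.y gd c n mt
  xn : e.Ok c
  xr : r.Ok f c e
  fin : NC (eFin p.d c n r s2 (tcl c))

section cell

variable {V : Type} [Fintype V] [DecidableEq V]
variable {Gg : SimpleGraph V} [Fintype Gg.edgeSet] [DecidableEq Gg.edgeSet]
variable {p : Ps} {gd : GDat} {q : Iq} {f : Fx} {c : Cel} {n : Chn} {e : Xge} {r : Xr} {mt s2 : ℚ}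

/-- the bound of the means -/
theorem mean_le {a b σ ab : ℝ} (hσ : 0 < σ) (ha : 0 ≤ a) (hb : 0 ≤ b) :
    ∃ ξ : ℝ, 0 ≤ ξ ∧ a * b ≤ ξ ^ 2 ∧ ab * ξ ≤ ab / 2 * (σ * a + 1 / σ * b) := by
  refine ⟨(σ * a + 1 / σ * b) / 2, by positivity, ?_, le_of_eq (by ring)⟩
  have e1 : (σ * a) * (1 / σ * b) = a * b := by field_simp
  nlinarith [sq_nonneg (σ * a - 1 / σ * b)]

/-- **the inequality of the second type in the cell** -/
theorem t2_ps (hp : p.Ok) (hg : gd.Pos p.d) (hwz : Wz p.z) (h : T2C p gd q f c n e r mt s2)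
    {x : Gg.edgeSet → ℝ} (hx : IsFractionalMatching Gg x) {N : ℕ} {ε : ℝ}
    {G : ℕ → ℕ → V ⊕ V → V ⊕ V → Fm (V ⊕ V)}
    (hC : Cls p.z.hz (xe x) (P0 V)
      (p.cx (xe x) (P0 V) N (fun _ => 0) (fun i _ => cb N i) ε G))
    {a : V ⊕ V} (ha : P0 V a) {t : ℝ} (ht : t ∈ Icc (c.t0 : ℝ) c.t1)
    {X Xt : V ⊕ V → V ⊕ V → V ⊕ V → ℝ → ℝ} {Ms Mt : V ⊕ V → V ⊕ V → ℝ → ℝ}
    (hR : Rws p (xe x) (P0 V) a N (ci N t) (fun b => G (ci N t) 0 b a) e r X Xt Ms Mt) :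
    ∑ b, xr (xe x) (P0 V) a b * ∑ d ∈ ({a, b} : Finset (V ⊕ V))ᶜ,
        wS (p.da (gd.kd p.d) ((p.cx (xe x) (P0 V) N (fun _ => 0) (fun i _ => cb N i) ε G).pd
            (xe x) (P0 V))).k.fh
          (p.da (gd.kd p.d) ((p.cx (xe x) (P0 V) N (fun _ => 0) (fun i _ => cb N i) ε G).pd
            (xe x) (P0 V))).k.mb
          ((p.da (gd.kd p.d) ((p.cx (xe x) (P0 V) N (fun _ => 0) (fun i _ => cb N i) ε G).pd
            (xe x) (P0 V))).E x) (xe x) (P0 V) b a d t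
      ≤ s2 * pv p.d.ktl t * Gr.S0 (xr (xe x) (P0 V)) a := by
  set C := p.cx (xe x) (P0 V) N (fun _ => 0) (fun i _ => cb N i) ε G with hCd
  set D := p.da (gd.kd p.d) (C.pd (xe x) (P0 V)) with hDd
  have hw := wt_xe hx zero_le_one le_rfl fun e => (hx.1 e).2
  have hDok : D.Ok := da_ok hp rfl (fun w => kd_cn (g := gd) _ w) (kP_of hp hg)
  have hCp : Cls D.Z (xe x) (P0 V) D.C := Cls.pd hC hw
  have hf := Da.lf hDok hx hCp
  have kok : D.k.Ok := Dt.kf_ok hDok.T hDok.k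
  have kq := Dt.kq hDok.T hDok.k
  have N0 : 0 < N := hC.N0
  have hZ := hp.z.ok hp.d
  have hSg := h.ok.s
  have t00 : (0 : ℝ) ≤ c.t0 := by exact_mod_cast hSg.t0
  have t0 : 0 ≤ t := t00.trans ht.1
  have c1 : (0 : ℚ) < c.t1 := lt_of_le_of_lt hSg.t0 hSg.t01
  have qb : (q.bt : ℝ) ≤ bt := by
    have : ((q.bt : ℚ) : ℝ) ≤ ((btq : ℚ) : ℝ) := by exact_mod_cast h.b1
    exact this
  have cb1 : (c.t1 : ℝ) ≤ bt := (show (c.t1 : ℝ) ≤ q.bt by exact_mod_cast h.ok.v.bt).trans qb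
  have htb : t ∈ Icc (0 : ℝ) bt := ⟨t0, ht.2.trans cb1⟩
  have hK : Kform p.d q p.d.rPe (gd.kd p.d) :=
    ⟨fun w t _ => rfl, fun w t _ s _ => by
      rw [h.kc, h.ke]
      unfold GDat.kd Dat.rPe
      ring⟩
  have hZb := zb_of hp.z hp.g hwz h.w h.ok.rt c1 cb1
  have hmu := mu_of hp hg h.w hSg.t0 hSg.t01 cb1 (C.pd (xe x) (P0 V)) ht
  have hDb := db_of (Pe := p.d.rPe) (Pt := p.d.rP) h.iq h.b0 hp.k.ee0 h.ok.v hSg.t01 hSg.t0 hK ht
  have sD : (0 : ℝ) < r.sD := by exact_mod_cast h.xr.sD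
  have sT : (0 : ℝ) < r.sT := by exact_mod_cast h.xr.sT
  have ab0 : (0 : ℝ) ≤ n.ab := by exact_mod_cast h.ok.rt.ab
  have fb0 : (0 : ℝ) ≤ n.fb := by exact_mod_cast h.ok.rt.fb
  have eY0 : (0 : ℝ) ≤ e.eY := by exact_mod_cast h.xn.eY
  have key := t2_cell (V := V ⊕ V) (A := fun w t => (1 + w * t) * pv gd.al t) (ξ := pv r.xi)
    h.ok h.iq h.fx h.b0 qb hp.k.ee0 hK hf hw kok kq.fc (fun w => hDok.k.cPe w) hZ hZb ha ht hmu
    (fun b e hb he h3 => kok.mb_nonneg (xmem1 hw b a) (xmem1 hw b e) (xmem1 hw a e)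
      (xr_add_le hw h3.2.1.symm) htb)
    (fun b e hb he h3 => E_nonneg' hf hw kok b h3.2.1.symm htb)
    (fun b e hb he h3 => E_nonneg' hf hw kok b h3.2.1 htb)
    (fun s hs b e => by
      refine (min_le_left _ _).trans ?_
      rw [h.mb]
      exact Hzd.hh_le hw (fun _ hy _ hs => hp.z.rr_mb hy hs) (fun _ hs => hp.z.mb_one hs)
        ⟨hs.1, hs.2.trans htb.2⟩ a e)
    (om := r.om) (fun s hs => by
      have x0 := nn_t1v (f := fun s => eOm f r s)
        (F := fun s => pv r.om s - (pv f.al s + pv (pri f.al) s * pv f.mb s)) h.xr.om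
        (fun ρ e' => by
          unfold eOm
          simp only [val_sub, val_mul, val_add, val_pe]) c1 ⟨hs.1, hs.2.trans ht.2⟩
      beta_reduce at x0
      linarith)
    (continuous_pv r.xi).continuousOn
    (fun s hs => by
      have hs1 : s ∈ Icc (0 : ℝ) c.t1 := ⟨hs.1, hs.2.trans ht.2⟩
      have i1 := h.xr.nn_s h.xr.nd1 c1 hs1
      have i2 := h.xr.nn_s h.xr.nd2 c1 hs1
      have i3 := h.xr.nn_s h.xr.ndy c1 hs1
      have i4 := h.xr.nn_s h.xr.nt1 c1 hs1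
      have i5 := h.xr.nn_s h.xr.nt2 c1 hs1
      have i6 := h.xr.nn_s h.xr.nty c1 hs1
      have i7 := h.xr.nn_s h.xr.nhz c1 hs1
      have hI : 0 ≤ rSI c e r.d1 r.d2 s := by unfold rSI; positivity
      have hT : 0 ≤ rSI c e r.t1 r.t2 s := by unfold rSI; positivity
      obtain ⟨l1, l2, l3⟩ := lb_rw (a := a) (g := gT (xe x) (P0 V) D.k D.κd a t c.C) hZ hw hC.ε0
        (s := s) (t := t) (C := C)
        (X := fun _ b d e => if P0 V b ∧ Gr.D3 a b d ∧ e ∈ ({a, b, d} : Finset (V ⊕ V))ᶜ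
          then X b d e s else 0)
        (Xt := fun _ b d e => if P0 V b ∧ Gr.D3 a b d ∧ e ∈ ({a, b, d} : Finset (V ⊕ V))ᶜ
          then Xt b d e s else 0)
        (Ms := fun _ d e => if Gr.D3 a d e then Ms d e s else 0)
        (Mt := fun _ d e => if Gr.D3 a d e then Mt d e s else 0)
        (T' := fun r => alf c t r * c.th) (Y := fun _ => (n.Yb : ℝ))
        (τ := fun r => bef c s r * c.th) (rII := pv r.dy s) (rTT := pv r.ty s)
        (hs.2.trans (ci_mem N0 htb.1 htb.2).2) htb hs hI hT i7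
        (fun j hj => by
          have hj0 : j = 0 := Nat.le_zero.1 hj.1
          subst hj0
          exact xc_of hp h.w hw hSg h.ok.r h.xn h.xr kok ht htb hs hDb ha N0 hR)
      obtain ⟨ξD, d0, d1, d2⟩ := mean_le (ab := pv f.al s) sD hI i3
      obtain ⟨ξT, e0, e1, e2⟩ := mean_le (ab := pv (pri f.al) s * pv f.mb s) sT hT i6
      refine ⟨_, _, _, _, _, _, ξD, ξT, pv r.hz s, l1, l2, l3, i3, d0, d1, i6, e0, e1, ?_⟩
      have x1 := nn_t1v (f := fun s => eXi f c e r s)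
        (F := fun s => pv r.xi s - (1 / 2 * pv f.al s * (r.sD * rSI c e r.d1 r.d2 s
          + 1 / (r.sD : ℝ) * pv r.dy s) + pv (pri f.al) s * pv f.mb s * (1 / 2
          * (r.sT * rSI c e r.t1 r.t2 s + 1 / (r.sT : ℝ) * pv r.ty s)
          + c.Q0 * pv r.hz s))) h.xr.xi (fun ρ e' => by
          unfold eXi eSI rSI
          simp only [val_sub, val_mul, val_add, val_pe, val_qc, val_hlf]
          push_cast
          ring) c1 hs1
      beta_reduce at x1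
      linarith)
  refine le_trans (le_of_eq rfl) (key.trans (mul_le_mul_of_nonneg_right ?_
    (Gr.S0_nonneg (wg_xr hw) a)))
  rw [int_pri2 r.xi t0]
  have fin := nn_tcl (f := fun t => eFin p.d c n r s2 t)
    (F := fun t => (s2 : ℝ) * pv p.d.ktl t - ((c.J : ℝ) + n.kap * (KM c n r.om t
      + pv (pri r.xi) t))) h.fin (fun ρ e' => by
      unfold eFin
      simp only [val_sub, val_mul, val_add, val_pe, val_qc, val_eKM]) hSg.t01 ht
  beta_reduce at fin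
  linarith

/-- the inequality with the shape of the targets -/
theorem S0_le_sT {x : Gg.edgeSet → ℝ} (hx : IsFractionalMatching Gg x) (a : V ⊕ V)
    (hk1 : p.d.k1 = 0) (hsh : ∀ y ∈ Icc (0 : ℝ) 1, 1 - y ≤ pv p.d.shT y) :
    Gr.S0 (xr (xe x) (P0 V)) a
      ≤ ∑ b, p.d.dt.sT (xr (xe x) (P0 V) a b) - p.d.dt.k1 * Qs (xe x) (P0 V) a := by
  have hw := wt_xe hx zero_le_one le_rfl fun e => (hx.1 e).2
  have e0 : p.d.dt.k1 = 0 := by
    show ((p.d.k1 : ℚ) : ℝ) = 0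
    rw [hk1, Rat.cast_zero]
  rw [e0, zero_mul, sub_zero]
  unfold Gr.S0
  refine (Finset.sum_le_sum_of_subset_of_nonneg (Finset.subset_univ _) fun b _ _ =>
    mul_nonneg (sq_nonneg _) (sub_nonneg.2 (xmem1 hw a b).2)).trans ?_
  refine Finset.sum_le_sum fun b _ => ?_
  exact mul_le_mul_of_nonneg_left (hsh _ (xmem1 hw a b)) (sq_nonneg _)

end cell

end Pool.Agent.RX.RCN.K
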