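import Pool.Agent.RX.RCN.One_1
import Pool.Agent.RX.RCN.T2h

/-! The second type: the assembly over the cells (MP_73ccd0_lc, route M). -/

namespace Pool.Agent.RX.RCN.K

open Set Finset MeasureTheory Pool.Agent.RX.RCRSHalf Pool.Agent.RX.RCG Pool.Agent.RX.RCG.Ct
open Pool.Agent.RX.RCN.Ker Pool.Agent.RX.RCRS
open Pool.Agent.RX.RCM hiding qc
open Pool.Agent.RX.RCM9 Pool.Agent.RX.RCM9.Bern Pool.Agent.RX.RCM9.Pk

set_option linter.unusedSectionVars false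

/-- the data of a cell of the second type -/
structure T2z where
  c : Cel
  n : Chn
  e : Xge
  r : Xr
  m : ℚ
  s : ℚ

/-- the cell contains the analysis cell `i` -/
def T2z.cov (z : T2z) (N i : ℕ) : Prop :=
  z.c.t0 ≤ btq * ((i : ℚ) / N) ∧ btq * (((i : ℚ) + 1) / N) ≤ z.c.t1

theorem T2z.cov.mem {z : T2z} {N i : ℕ} (h : z.cov N i) {t : ℝ} (ht : t ∈ Icc (ca N i) (cb N i)) :
    t ∈ Icc (z.c.t0 : ℝ) z.c.t1 := by
  have h1 : ((z.c.t0 : ℚ) : ℝ) ≤ ((btq * ((i : ℚ) / N) : ℚ) : ℝ) := by exact_mod_cast h.1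
  have h2 : ((btq * (((i : ℚ) + 1) / N) : ℚ) : ℝ) ≤ ((z.c.t1 : ℚ) : ℝ) := by exact_mod_cast h.2
  push_cast at h1 h2
  have e : ((btq : ℚ) : ℝ) = bt := rfl
  rw [e] at h1 h2
  exact ⟨h1.trans ht.1, ht.2.trans h2⟩

section

variable {V : Type} [Fintype V] [DecidableEq V]
variable {Gg : SimpleGraph V} [Fintype Gg.edgeSet] [DecidableEq Gg.edgeSet]
variable {p : Ps} {gd : GDat} {q : Iq} {f : Fx} {s2 : ℕ → ℚ}

/-- **the second type on the whole interval** -/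
theorem t2_all (hp : p.Ok) (hg : gd.Pos p.d) (hwz : Wz p.z) {l : List T2z}
    (hl : ∀ z ∈ l, T2C p gd q f z.c z.n z.e z.r z.m z.s)
    {x : Gg.edgeSet → ℝ} (hx : IsFractionalMatching Gg x) {N : ℕ} (N0 : 0 < N)
    {G : ℕ → V ⊕ V → V ⊕ V → Fm (V ⊕ V)} {m' q' : ℕ → V ⊕ V → V ⊕ V → ℝ}
    (hG : ∀ i < N, ∀ a b, P0 V a → P0 V b → a ≠ b →
      Cl2 p (xe x) (P0 V) a b (cb N i) (ca N i) (cb N i) (m' i a b) (q' i a b) (G i a b))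
    (hR : ∀ i < N, ∃ z ∈ l, z.cov N i ∧ z.s = s2 i ∧ ∀ a, P0 V a → ∃ X Xt Ms Mt,
      Rws p (xe x) (P0 V) a N i (fun b => G i b a) z.e z.r X Xt Ms Mt)
    {a : V ⊕ V} (ha : P0 V a) {t : ℝ} (ht : t ∈ Icc (0 : ℝ) bt) :
    ∑ b, xr (xe x) (P0 V) a b * ∑ d ∈ ({a, b} : Finset (V ⊕ V))ᶜ,
        wS (p.da (gd.kd p.d) (p.cO (xe x) (P0 V) N G)).k.fh
          (p.da (gd.kd p.d) (p.cO (xe x) (P0 V) N G)).k.mb
          ((p.da (gd.kd p.d) (p.cO (xe x) (P0 V) N G)).E x) (xe x) (P0 V) b a d t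
      ≤ s2 (ci N t) * pv p.d.ktl t * Gr.S0 (xr (xe x) (P0 V)) a := by
  have hw := wt_xe hx zero_le_one le_rfl fun e => (hx.1 e).2
  have hC : Cls p.z.hz (xe x) (P0 V)
      (p.cx (xe x) (P0 V) N (fun _ => 0) (fun i _ => cb N i) 1 (fun i _ => G i)) := by
    refine Ps.cls hp hw N0 one_pos (fun i _ => rfl) (fun i _ j _ => ?_)
      (m := fun i _ => m' i) (q := fun i _ => q' i) fun i hi j _ a b ha hb hab =>
        hG i hi a b ha hb hab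
    unfold cb
    have := bt_pos
    positivity
  have hi := ci_lt N0 ht.2
  have hm := ci_mem N0 ht.1 ht.2
  obtain ⟨z, hz, hc, hs, hr⟩ := hR _ hi
  rw [← hs]
  obtain ⟨X, Xt, Ms, Mt, hr⟩ := hr a ha
  exact t2_ps hp hg hwz (hl z hz) hx hC ha (hc.mem hm) hr

/-- the second type in the form of the assembly -/
theorem t2_h2 (hp : p.Ok) (hg : gd.Pos p.d) (hwz : Wz p.z) {l : List T2z}
    (hl : ∀ z ∈ l, T2C p gd q f z.c z.n z.e z.r z.m z.s)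
    (hk1 : p.d.k1 = 0) (hsh : ∀ y ∈ Icc (0 : ℝ) 1, 1 - y ≤ pv p.d.shT y)
    (hkt : ∀ t ∈ Icc (0 : ℝ) bt, 0 ≤ pv p.d.ktl t)
    {x : Gg.edgeSet → ℝ} (hx : IsFractionalMatching Gg x) {N : ℕ} (N0 : 0 < N)
    (hs2 : ∀ i < N, 0 ≤ s2 i)
    {G : ℕ → V ⊕ V → V ⊕ V → Fm (V ⊕ V)} {m' q' : ℕ → V ⊕ V → V ⊕ V → ℝ}
    (hG : ∀ i < N, ∀ a b, P0 V a → P0 V b → a ≠ b →
      Cl2 p (xe x) (P0 V) a b (cb N i) (ca N i) (cb N i) (m' i a b) (q' i a b) (G i a b))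
    (hR : ∀ i < N, ∃ z ∈ l, z.cov N i ∧ z.s = s2 i ∧ ∀ a, P0 V a → ∃ X Xt Ms Mt,
      Rws p (xe x) (P0 V) a N i (fun b => G i b a) z.e z.r X Xt Ms Mt)
    (a : V ⊕ V) (ha : P0 V a) (t : ℝ) (ht : t ∈ Icc (0 : ℝ) bt) :
    ∑ b, xr (xe x) (P0 V) a b * ∑ d ∈ ({a, b} : Finset (V ⊕ V))ᶜ,
        wS (p.da (gd.kd p.d) (p.cO (xe x) (P0 V) N G)).k.fh
          (p.da (gd.kd p.d) (p.cO (xe x) (P0 V) N G)).k.mb
          ((p.da (gd.kd p.d) (p.cO (xe x) (P0 V) N G)).E x) (xe x) (P0 V) b a d t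
      ≤ s2 (ci N t) * pv p.d.ktl t * (∑ b, (p.da (gd.kd p.d) (p.cO (xe x) (P0 V) N G)).T.sT
          (xr (xe x) (P0 V) a b)
        - (p.da (gd.kd p.d) (p.cO (xe x) (P0 V) N G)).T.k1 * Qs (xe x) (P0 V) a) := by
  refine (t2_all hp hg hwz hl hx N0 hG hR ha ht).trans ?_
  exact mul_le_mul_of_nonneg_left (S0_le_sT hx a hk1 hsh)
    (mul_nonneg (by exact_mod_cast hs2 _ (ci_lt N0 ht.2)) (hkt t ht))

end

end Pool.Agent.RX.RCN.K
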