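import Pool.Agent.RX.RCN.CkD
import Pool.Agent.RX.RCN.T2e

/-! The rows of the second type with rational lists (MP_73ccd0_lc, route M). -/

namespace Pool.Agent.RX.RCN.K

open Set Finset MeasureTheory Pool.Agent.RX.RCRSHalf Pool.Agent.RX.RCG Pool.Agent.RX.RCG.Ct
open Pool.Agent.RX.RCN.Ker

open Pool.Agent.RX.RCM hiding qc
open Pool.Agent.RX.RCM9 Pool.Agent.RX.RCM9.Bern Pool.Agent.RX.RCM9.Pk

set_option linter.unusedSectionVars false

namespace Xcd

variable {z : HDat} {c : Cel} {e : Xge} {r : Xr}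

/-- the lists in the second time -/
theorem nn_sw {c : Cel} {z : HDat} {p q : List ℚ} (h : NC (pe p (t1v c) - pe q (ew z c)))
    (hb : 0 < c.t1) {s : ℝ} (hs : s ∈ Icc (0 : ℝ) c.t1) : pv q (pv (pri z.mb) s) ≤ pv p s := by
  have key := nn_t1v (f := fun s => pe p s - pe q (pe (pri z.mb) s))
    (F := fun s => pv p s - pv q (pv (pri z.mb) s)) h
    (fun ρ e => by rw [val_sub, val_pe, val_pe, val_pe]) hb hs
  linarith

/-- real forms -/
noncomputable def rdP (P : List ℚ) (U w : ℝ) : ℝ := pv (pri P) U - pv (pri P) (U - w)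

theorem val_edP (ρ : ℕ → ℝ) (P : List ℚ) (U w : E) :
    (edP P U w).val ρ = rdP P (U.val ρ) (w.val ρ) := by
  unfold edP rdP
  rw [val_sub, val_pe, val_pe, val_sub]

section

variable (hb : 0 < c.t1) {U s w : ℝ} (hs : s ∈ Icc (0 : ℝ) c.t1) (hw : w = pv (pri z.mb) s)

include hb hs hw

end

/-- facts on the gauge from the checks of the lists -/
theorem zdl_of {l : Yl} {D : ℤ} {n : ℕ} (h : l.ok D n = true) {u : ℝ} (hu : u ∈ Icc (0 : ℝ) l.Ug) :
    0 ≤ pv l.z u ∧ 0 ≤ pv l.dl u ∧ pv l.z u + pv l.dl u ≤ 1 := by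
  simp only [Yl.ok, Bool.and_eq_true, and_assoc] at h
  obtain ⟨hA, -, -⟩ := h
  simp only [Yl.okA, Bool.and_eq_true, decide_eq_true_eq, and_assoc] at hA
  obtain ⟨-, m0, q0, b0, r00, r01, hr, c01, c02, dlt0, z0, d0, z'0, d'0, dl1, hc0, zd, -⟩ := hA
  have mm : u ∈ Icc ((0 : ℚ) : ℝ) (l.Ug : ℝ) := by
    refine ⟨?_, hu.2⟩
    simpa using hu.1
  have a0 : 0 ≤ pv l.z u := Ck1.nn_le z0 mm
  have a1 : 0 ≤ pv l.dl u := Ck1.nn_le d0 mm
  have h1 := Ck1.nn_sub dl1 mm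
  have h2 := Ck1.nn_sub zd mm
  simp only [pv_ladd, pv_lsmul, pv] at h1 h2
  push_cast at h1 h2
  exact ⟨a0, a1, by linarith⟩

end Xcd

end Pool.Agent.RX.RCN.K
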