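import Pool.Agent.RX.RCM.GrP
import Pool.Agent.RX.RCN.T2s_1

/-! The integrals of the chains of the second type (MP_73ccd0_lc, route M). -/

namespace Pool.Agent.RX.RCN.K

open Set Finset MeasureTheory Pool.Agent.RX.RCRSHalf Pool.Agent.RX.RCG Pool.Agent.RX.RCG.Ct
open Pool.Agent.RX.RCN.Ker Pool.Agent.RX.RCM

set_option linter.unusedSectionVars false

variable {V : Type*} [Fintype V] [DecidableEq V]

variable {x : V → V → ℝ} {P : V → Prop} [DecidablePred P] {k : Kf} {N : ℕ} {Z : Hzd}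
variable {sl : ℝ → ℝ → ℝ} {bw : ℝ} {B Bd : ℝ → ℝ → ℝ} {M : ℝ → ℝ}

variable {t s : ℝ} {T' Y τ lam ν : ℝ → ℝ} {a : V} {g : V → V → ℝ}

theorem Scl.pt (h : Scl bw t s T' Y τ lam ν) {y w z : V → V → ℝ} {Wd W Zd Z : ℝ}
    (hK : Gr.Kc y w z Wd W Zd Z) {r : ℝ} (hr : r ∈ Icc 0 t) :
    Gr.Pt y w z (T' r) (τ r) (lam r) (ν r) Wd W Zd Z :=
  { toKc := hK
    T0 := h.τ0 r hr
    tT := h.τT r hr
    t1 := (h.τT r hr).trans (h.T1 r hr)
    l0 := h.l0 r hr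
    n0 := h.n0 r hr
    lam := h.l r hr
    ν := h.n r hr }

variable {ρ : ℝ}

/-- **the integral of the first chain** -/
theorem intA (h : Scl bw t s T' Y τ lam ν) (hB : Zb Z bw B Bd M) (hZ : Z.Ok sl) (hx : Wt x P 1)
    (hbt : bw ≤ bt) (h0 : 0 ≤ ρ) (h1 : ρ ≤ 1) (g0 : ∀ b d, 0 ≤ g b d) {Am Ac : ℝ}
    (hA0 : 0 ≤ Am) (hAc : 0 ≤ Ac) {σ lm : ℝ → ℝ} (hσ : ∀ r ∈ Icc 0 t, 0 < σ r)
    (hlm : ∀ r ∈ Icc 0 t, 0 < lm r)
    (hp : ∀ b d, Gr.D3 a b d →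
      (g b d * (1 + xr x P a b * t) * (1 - xr x P a d)) ^ 2 * (1 - xr x P b d) ≤ Am)
    (hpc : ∀ b d, Gr.D3 a b d → (g b d * (1 + xr x P a b * t) * (1 - xr x P a d)) ^ 2 ≤ Ac)
    {G : ℝ → ℝ} (cG : ContinuousOn G (Icc 0 t))
    (hG : ∀ r ∈ Icc 0 t, Real.exp (2 * Y r) * (1 / 2 * ((σ r * Am * (lam r * Bd t r * M r)
        + lm r * (lam r * B t r ^ 2) * ((t + T' r) * Ac / 4))
          * (1 + ρ * (4 / 27 * (2 * t + t ^ 2 / 2)))
        + (Bd t r / σ r + (t + T' r) * ν r * M r / lm r) * Real.exp (2 * τ r))) ≤ G r) :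
    ∑ b ∈ ({a} : Finset V)ᶜ, ∑ d ∈ ({a, b} : Finset V)ᶜ, ∑ e ∈ ({a, b, d} : Finset V)ᶜ,
        (xr x P a b * Gr.wfac (xr x P) t ρ a b) * (xr x P b d * (g b d * (1 + xr x P a b * t)))
          * ((1 + xr x P b e * t) * xr x P a e) * ∫ r in (0 : ℝ)..t, fA Z x P T' Y τ a t b d e r
      ≤ (∫ r in (0 : ℝ)..t, G r) * Gr.S0 (xr x P) a := by
  have hw := wg_xr hx
  have hS := Gr.S0_nonneg hw a
  have key := sum3_int_le (A := ({a} : Finset V)ᶜ) (B := fun b => ({a, b} : Finset V)ᶜ)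
    (C := fun b d => ({a, b, d} : Finset V)ᶜ)
    (c := fun b d e => (xr x P a b * Gr.wfac (xr x P) t ρ a b)
      * (xr x P b d * (g b d * (1 + xr x P a b * t))) * ((1 + xr x P b e * t) * xr x P a e))
    (F := fA Z x P T' Y τ a t) (G := fun r => G r * Gr.S0 (xr x P) a) h.ht.1
    (fun b d e => fA_cont h hZ hx hbt b d e) (cG.mul continuousOn_const) (fun r hr => ?_)
  · rwa [intervalIntegral.integral_mul_const] at key
  · have hK := hB.kcA hZ hx hbt hr h.ht.2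
    have p := Gr.ptA hw (a := a) (g := g) (ρ := ρ) (h.pt hK hr) (hσ r hr) (hlm r hr) h.ht.1 h0 h1
      hA0 hAc (h.T1 r hr) g0 hp hpc
    have he := (Real.exp_pos (2 * Y r)).le
    have p2 := mul_le_mul_of_nonneg_left p he
    have p3 := mul_le_mul_of_nonneg_right (hG r hr) hS
    refine le_trans (le_of_eq ?_) (p2.trans (le_trans (le_of_eq ?_) p3))
    · unfold fA
      simp only [Finset.mul_sum]
      refine Finset.sum_congr rfl fun b _ => Finset.sum_congr rfl fun d _ =>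
        Finset.sum_congr rfl fun e _ => Finset.sum_congr rfl fun f _ => by ring
    · ring

/-- **the integral of the second chain** -/
theorem intB (h : Scl bw t s T' Y τ lam ν) (hB : Zb Z bw B Bd M) (hZ : Z.Ok sl) (hx : Wt x P 1)
    (hbt : bw ≤ bt) (h0 : 0 ≤ ρ) (h1 : ρ ≤ 1) (g0 : ∀ b d, 0 ≤ g b d) {Am Ac : ℝ → ℝ}
    (hA0 : ∀ r ∈ Icc 0 s, 0 ≤ Am r) (hAc : ∀ r ∈ Icc 0 s, 0 ≤ Ac r) {σ lm : ℝ → ℝ}
    (hσ : ∀ r ∈ Icc 0 s, 0 < σ r) (hlm : ∀ r ∈ Icc 0 s, 0 < lm r) {Pc : ℝ → ℝ → ℝ}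
    (Pc0 : ∀ r ∈ Icc 0 s, ∀ v ∈ Icc (0 : ℝ) 1, 0 ≤ Pc r v)
    (Pcm : ∀ r ∈ Icc 0 s, ∀ v ∈ Icc (0 : ℝ) 1, ∀ z ∈ Icc (0 : ℝ) 1, z ≤ v → Pc r z ≤ Pc r v)
    (PcA : ∀ r ∈ Icc 0 s, ∀ v ∈ Icc (0 : ℝ) 1, Pc r v * (1 - v) ≤ Ac r)
    (hp : ∀ r ∈ Icc 0 s, ∀ b d, Gr.D3 a b d → (g b d * (1 + xr x P a b * t)
      * Real.exp (xr x P b d * T' r + xr x P a d * τ r)
      * (1 - xr x P a d)) ^ 2 * (1 - xr x P b d) ≤ Am r)
    (hpc : ∀ r ∈ Icc 0 s, ∀ b d, Gr.D3 a b d → (g b d * (1 + xr x P a b * t)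
      * Real.exp (xr x P b d * T' r + xr x P a d * τ r)
      * (1 - xr x P a d)) ^ 2 ≤ Pc r (xr x P b d))
    {G : ℝ → ℝ} (cG : ContinuousOn G (Icc 0 s))
    (hG : ∀ r ∈ Icc 0 s, Real.exp (2 * Y r) * (1 / 2 * ((σ r * Am r * (lam r * 1 * B s r)
        + lm r * (lam r * M r ^ 2) * (t * Ac r / 4))
          * (1 + ρ * (4 / 27 * (2 * t + t ^ 2 / 2)))
        + (1 * Bd s r / σ r + t * (1 / 4) * B s r * Bd s r / lm r))) ≤ G r) :
    ∑ b ∈ ({a} : Finset V)ᶜ, ∑ d ∈ ({a, b} : Finset V)ᶜ, ∑ e ∈ ({a, b, d} : Finset V)ᶜ,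
        (xr x P a b * Gr.wfac (xr x P) t ρ a b) * (xr x P b d * (g b d * (1 + xr x P a b * t)))
          * ((1 + xr x P b e * t) * xr x P a e) * ∫ r in (0 : ℝ)..s, fB Z x P T' Y τ a s b d e r
      ≤ (∫ r in (0 : ℝ)..s, G r) * Gr.S0 (xr x P) a := by
  have hw := wg_xr hx
  have hS := Gr.S0_nonneg hw a
  have h2 : Icc (0 : ℝ) s ⊆ Icc 0 t := Icc_subset_Icc_right h.hs.2
  have key := sum3_int_le (A := ({a} : Finset V)ᶜ) (B := fun b => ({a, b} : Finset V)ᶜ)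
    (C := fun b d => ({a, b, d} : Finset V)ᶜ)
    (c := fun b d e => (xr x P a b * Gr.wfac (xr x P) t ρ a b)
      * (xr x P b d * (g b d * (1 + xr x P a b * t))) * ((1 + xr x P b e * t) * xr x P a e))
    (F := fB Z x P T' Y τ a s) (G := fun r => G r * Gr.S0 (xr x P) a) h.hs.1
    (fun b d e => fB_cont h hZ hx hbt b d e) (cG.mul continuousOn_const) (fun r hr => ?_)
  · rwa [intervalIntegral.integral_mul_const] at key
  · have hr2 := h2 hr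
    have hK := hB.kcB hZ hx hbt hr (h.hs.2.trans h.ht.2)
    have p := Gr.ptB hw (a := a) (g := g) (ρ := ρ) (Pc := Pc r) (h.pt hK hr2) (hσ r hr)
      (hlm r hr) h.ht.1 h0 h1 (hA0 r hr) (hAc r hr) g0 (Pc0 r hr) (Pcm r hr) (PcA r hr)
      (hp r hr) (hpc r hr)
    have he := (Real.exp_pos (2 * Y r)).le
    have p2 := mul_le_mul_of_nonneg_left p he
    have p3 := mul_le_mul_of_nonneg_right (hG r hr) hS
    refine le_trans (le_of_eq ?_) (p2.trans (le_trans (le_of_eq ?_) p3))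
    · unfold fB
      simp only [Finset.mul_sum]
      refine Finset.sum_congr rfl fun b _ => Finset.sum_congr rfl fun d _ =>
        Finset.sum_congr rfl fun e _ => Finset.sum_congr rfl fun f _ => by ring
    · ring

end Pool.Agent.RX.RCN.K
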