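import Pool.Agent.RX.RCN.T2s_2
import Pool.Agent.RX.RCN.T2t
import Pool.Agent.RX.RCN.T2u_1

/-! The rate of the second type at a fixed time: the total (MP_73ccd0_lc, route M). -/

namespace Pool.Agent.RX.RCN.K

open Set Finset MeasureTheory Pool.Agent.RX.RCRSHalf Pool.Agent.RX.RCG Pool.Agent.RX.RCG.Ct
open Pool.Agent.RX.RCN.Ker Pool.Agent.RX.RCM

set_option linter.unusedSectionVars false

variable {V : Type*} [Fintype V] [DecidableEq V]
variable {x : V → V → ℝ} {P : V → Prop} [DecidablePred P] {k : Kf} {N : ℕ} {Z : Hzd}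
variable {sl : ℝ → ℝ → ℝ} {bw : ℝ} {B Bd : ℝ → ℝ → ℝ} {M : ℝ → ℝ}
variable {κd : ℝ → ℝ → ℝ → ℝ} {R : V → V → V → ℝ → ℝ → ℝ} {L Lt : V → V → V → V → ℝ → ℝ → ℝ}
variable {t s : ℝ} {T' Y τ lam ν : ℝ → ℝ} {a : V} {g : V → V → ℝ}
variable {A F m ρ δ : ℝ} {Rm RD RT : V → V → V → ℝ}

/-- **the rate of the second type at a fixed time** -/
theorem rate2 (hZ : Z.Ok sl) (hx : Wt x P 1) (hbt : bw ≤ bt) (h2bt : 2 * bw + bw ^ 2 / 2 ≤ 2)
    (ha : P a) (hB : Zb Z bw B Bd M) (hS : Scl bw t s T' Y τ lam ν)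
    (hR : Rt x P k κd R a t s A F m) (hL : Lb Z x P L Lt T' Y τ a t s RD RT δ)
    (hρ0 : 0 ≤ ρ) (hρ1 : ρ ≤ 1) (hρ : ρ * (A + F * m) = F * m)
    {Am Ac rI rII rT rTT σR σT σH : ℝ} {AmB AcB GA GB : ℝ → ℝ} {Pc : ℝ → ℝ → ℝ}
    (hg : Ga x P g a t s T' τ Am Ac AmB Pc)
    (hCA : ChA Bd B M t (1 + ρ * (4 / 27 * (2 * t + t ^ 2 / 2))) T' Y τ lam ν Am Ac GA)
    (hCB : ChB Bd B M t s (1 + ρ * (4 / 27 * (2 * t + t ^ 2 / 2))) Y lam AmB AcB Pc GB)
    (hσR : 0 < σR) (hσT : 0 < σT) (hσH : 0 < σH)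
    (hW : Rw x P g a t RD rI rII) (hWT : Rw x P g a t RT rT rTT) :
    ∑ b ∈ ({a} : Finset V)ᶜ, ∑ d ∈ ({a, b} : Finset V)ᶜ, xr x P a b * (xr x P b d * g b d)
        * ∑ e ∈ ({a, b, d} : Finset V)ᶜ, (flx x P k κd b a e t s * L b a d e t s
          + mua x P k κd b a t s * (R b a e t s * Lt b a d e t s))
      ≤ ((A + F * m) * ((∫ r in (0 : ℝ)..t, GA r) + (∫ r in (0 : ℝ)..s, GB r))
        + A * (1 / 2 * (σR * rI + rII / σR)) + F * m * (1 / 2 * (σT * rT + rTT / σT))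
        + F * m * (1 / 2 * (σH * Am * δ + δ / σH))) * Gr.S0 (xr x P) a := by
  have hw := wg_xr hx
  have n0 := hw.nn
  have ht1 : t ∈ Icc (0 : ℝ) bt := ⟨hS.ht.1, hS.ht.2.trans hbt⟩
  have hFm : 0 ≤ F * m := mul_nonneg hR.F0 hR.m0
  have hom : 0 ≤ A + F * m := add_nonneg hR.A0 hFm
  have hSn := Gr.S0_nonneg hw a
  have h2t : 2 * t + t ^ 2 / 2 ≤ 2 := by
    have h1 := hS.ht.2
    have h0 := hS.ht.1
    nlinarith
  -- pointwise
  set W := fun b => xr x P a b * Gr.wfac (xr x P) t ρ a b with hWd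
  have step : ∑ b ∈ ({a} : Finset V)ᶜ, ∑ d ∈ ({a, b} : Finset V)ᶜ,
        xr x P a b * (xr x P b d * g b d)
        * ∑ e ∈ ({a, b, d} : Finset V)ᶜ, (flx x P k κd b a e t s * L b a d e t s
          + mua x P k κd b a t s * (R b a e t s * Lt b a d e t s))
      ≤ (A + F * m) * ((∑ b ∈ ({a} : Finset V)ᶜ, ∑ d ∈ ({a, b} : Finset V)ᶜ,
          ∑ e ∈ ({a, b, d} : Finset V)ᶜ, W b
            * (xr x P b d * (g b d * (1 + xr x P a b * t)))
            * ((1 + xr x P b e * t) * xr x P a e)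
            * ∫ r in (0 : ℝ)..t, fA Z x P T' Y τ a t b d e r)
          + (∑ b ∈ ({a} : Finset V)ᶜ, ∑ d ∈ ({a, b} : Finset V)ᶜ,
          ∑ e ∈ ({a, b, d} : Finset V)ᶜ, W b
            * (xr x P b d * (g b d * (1 + xr x P a b * t)))
            * ((1 + xr x P b e * t) * xr x P a e)
            * ∫ r in (0 : ℝ)..s, fB Z x P T' Y τ a s b d e r))
        + A * (∑ b ∈ ({a} : Finset V)ᶜ, ∑ d ∈ ({a, b} : Finset V)ᶜ,
          ∑ e ∈ ({a, b, d} : Finset V)ᶜ, xr x P a b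
            * (xr x P b d * (g b d * (1 + t))) * RD b d e * xr x P a e)
        + F * m * (∑ b ∈ ({a} : Finset V)ᶜ, ∑ d ∈ ({a, b} : Finset V)ᶜ,
          ∑ e ∈ ({a, b, d} : Finset V)ᶜ, (xr x P a b * Gr.mfac (xr x P) t a b)
            * (xr x P b d * (g b d * (1 + t))) * RT b d e * xr x P a e)
        + F * m * (∑ b ∈ ({a} : Finset V)ᶜ, ∑ d ∈ ({a, b} : Finset V)ᶜ,
          ∑ e ∈ ({a, b, d} : Finset V)ᶜ, (xr x P a b * Gr.mfac (xr x P) t a b)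
            * (xr x P b d * (g b d * (1 + xr x P a b * t))) * (xr x P d e * δ)
            * xr x P a e) := by
    simp only [Finset.mul_sum, ← Finset.sum_add_distrib]
    refine Finset.sum_le_sum fun b hb => Finset.sum_le_sum fun d hd =>
      Finset.sum_le_sum fun e he => ?_
    refine (term_le hZ hx ha ht1 hS.hs hR hL hρ0 hρ hg.g0 (Gr.B39.mem2 hb hd) he).trans
      (le_of_eq ?_)
    rw [hWd]
    ring
  -- the four parts
  choose! σA lmA hσA hlmA hGA using hCA.le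
  choose! σB lmB hσB hlmB hGB using hCB.le
  have pA := intA (ρ := ρ) hS hB hZ hx hbt hρ0 hρ1 hg.g0 hCA.A0 hCA.Ac0 hσA hlmA hg.p hg.pc
    hCA.cG hGA
  have pB := intB (ρ := ρ) hS hB hZ hx hbt hρ0 hρ1 hg.g0 hCB.A0 hCB.Ac0 hσB hlmB hCB.P0 hCB.Pm
    hCB.PA hg.pB hg.pcB hCB.cG hGB
  obtain ⟨Ms, Ms0, hMs, hII⟩ := hW.II
  obtain ⟨Mt, Mt0, hMt, hTT⟩ := hWT.II
  have pR := Gr.ab_gen hw (a := a) (u := fun b => xr x P a b) (q := fun e => xr x P a e)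
    (p := fun b d => g b d * (1 + t)) (M := RD) (Ms := Ms) (rI := rI) (rII := rII) (σ := σR)
    hL.rd0 hW.I0 hσR hW.I hMs Ms0 hII
  have pT := Gr.ab_gen hw (a := a) (u := fun b => xr x P a b * Gr.mfac (xr x P) t a b)
    (q := fun e => xr x P a e)
    (p := fun b d => g b d * (1 + t)) (M := RT) (Ms := Mt) (rI := rT) (rII := rTT) (σ := σT)
    hL.rt0 hWT.I0 hσT hWT.I hMt Mt0 hTT
  have pH := Gr.ab_dir hw (a := a) (u := fun b => xr x P a b * Gr.mfac (xr x P) t a b)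
    (q := fun e => xr x P a e) (p := fun b d => g b d * (1 + xr x P a b * t))
    (z := fun d e => xr x P d e * δ) (Zd := δ) (Z := δ) (Am := Am) (σ := σH)
    (fun d e => mul_nonneg (n0 d e) hL.δ0) hL.δ0 hL.δ0
    (fun d e => (mul_comm _ _).le)
    (fun d e => by
      have h1 := mul_nonneg (n0 d e) hL.δ0
      have h2 := n0 d e
      nlinarith) hσH hCA.A0
    (fun b => mul_nonneg (n0 a b) (Gr.mfac_nonneg hw ht1.1)) (fun e => n0 a e)
    (fun b d => mul_nonneg (hg.g0 b d) (by have := mul_nonneg (n0 a b) ht1.1; linarith)) hg.p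
  have s1 := Gr.wfac_sum hw a (ρ := ρ) ht1.1 hρ0 hρ1
  have s2 := Gr.mfac_sum hw a ht1.1 h2t
  have e0 : ∑ b ∈ ({a} : Finset V)ᶜ, xr x P a b ^ 2 * (1 - xr x P a b) = Gr.S0 (xr x P) a := rfl
  rw [e0] at s1 s2 pR pT pH
  have pR' : ∑ b ∈ ({a} : Finset V)ᶜ, ∑ d ∈ ({a, b} : Finset V)ᶜ,
          ∑ e ∈ ({a, b, d} : Finset V)ᶜ, xr x P a b
            * (xr x P b d * (g b d * (1 + t))) * RD b d e * xr x P a e
      ≤ (1 / 2 * (σR * rI + rII / σR)) * Gr.S0 (xr x P) a := by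
    refine pR.trans (le_of_eq ?_)
    ring
  have pT' : ∑ b ∈ ({a} : Finset V)ᶜ, ∑ d ∈ ({a, b} : Finset V)ᶜ,
          ∑ e ∈ ({a, b, d} : Finset V)ᶜ, (xr x P a b * Gr.mfac (xr x P) t a b)
            * (xr x P b d * (g b d * (1 + t))) * RT b d e * xr x P a e
      ≤ (1 / 2 * (σT * rT + rTT / σT)) * Gr.S0 (xr x P) a := by
    have c1 : 0 ≤ 1 / 2 * (σT * rT) := mul_nonneg (by norm_num) (mul_nonneg hσT.le hWT.I0)
    have := mul_le_mul_of_nonneg_left s2 c1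
    refine pT.trans ?_
    nlinarith [this]
  have pH' : ∑ b ∈ ({a} : Finset V)ᶜ, ∑ d ∈ ({a, b} : Finset V)ᶜ,
          ∑ e ∈ ({a, b, d} : Finset V)ᶜ, (xr x P a b * Gr.mfac (xr x P) t a b)
            * (xr x P b d * (g b d * (1 + xr x P a b * t))) * (xr x P d e * δ)
            * xr x P a e
      ≤ (1 / 2 * (σH * Am * δ + δ / σH)) * Gr.S0 (xr x P) a := by
    have c1 : 0 ≤ 1 / 2 * (σH * Am * δ) :=
      mul_nonneg (by norm_num) (mul_nonneg (mul_nonneg hσH.le hCA.A0) hL.δ0)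
    have := mul_le_mul_of_nonneg_left s2 c1
    refine pH.trans ?_
    nlinarith [this]
  have q1 := mul_le_mul_of_nonneg_left (add_le_add pA pB) hom
  have q2 := mul_le_mul_of_nonneg_left pR' hR.A0
  have q4 := mul_le_mul_of_nonneg_left pT' hFm
  have q3 := mul_le_mul_of_nonneg_left pH' hFm
  refine step.trans ((add_le_add (add_le_add (add_le_add q1 q2) q4) q3).trans (le_of_eq ?_))
  ring

end Pool.Agent.RX.RCN.K
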