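import Pool.Agent.RX.RCN.T3D
import Pool.Agent.RX.RCN.T3Wq
import Pool.Agent.RX.RCN.T3X5
import Pool.Agent.RX.RCN.VLd

/-! Certificates (generated). -/

set_option autoImplicit false

namespace Pool.Agent.RX.RCN.K

open Set Pool.Agent.RX.RCM9 Pool.Agent.RX.RCM9.Bern Pool.Agent.RX.RCM9.Pk Xce

def t3c13 : Cel where
  t0 := 83 / 250
  t1 := 17 / 50
  C := 4097 / 4096
  th := 699 / 2048
  B0 := 2219 / 2048
  Bh := 1145 / 1024
  B1 := 2207 / 2048
  D0 := 1139 / 4096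
  Dh := 873 / 4096
  D1 := 829 / 4096
  E0 := 1385 / 524288
  Eh := 8813 / 4194304
  E1 := 8373 / 4194304
  Q0 := 139 / 128
  Q1 := 139 / 128
  Q2 := 139 / 128
  Ac := 139 / 128
  gI := 139 / 128
  J := 6769 / 2097152

def t3n13 : Chn where
  lb := 513 / 512
  nb := 307 / 1024
  Mb := 1029 / 1024
  b2 := 65 / 64
  Yb := 5 / 1024
  E2 := 4137 / 4096
  e1 := 613 / 512
  Z1 := 1135 / 1024
  Z2 := 311 / 512
  KB := 1051 / 1024
  cb := 1059 / 1024
  rb := 79 / 256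
  om := 263 / 256
  fb := 129 / 128
  kap := 2067 / 2048
  ab := 1029 / 1024

def t3e13 : Xge where
  lm := 3 / 5
  dl := 1377 / 4096
  e2 := 1041 / 16384
  eY := 2059 / 2048
  gE := 1125 / 1024

def t3r13 : Xr where
  d1 := [1005999 / 100000000, 9199 / 10000000, 1013873 / 100000000, 295803 / 12500000, 307 /
    1000000, 92539 / 3125000, 2368341 / 100000000]
  d2 := [3441 / 100000000, 341461 / 50000000, 1833877 / 100000000, 25844011 / 50000000, -269991733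
    / 100000000, 2795159 / 400000, -135460349 / 20000000]
  dy := [1436701 / 25000000, 348901 / 25000000, 12218941 / 100000000, 16635201 / 50000000,
    -19564533 / 25000000, 102671133 / 100000000, -58370051 / 100000000]
  t1 := [7765727 / 100000000, -37070731 / 100000000, 29955697 / 50000000, -205237687 / 100000000,
    1371018491 / 100000000, -3757591107 / 100000000, 77800513 / 2000000]
  t2 := [651483 / 50000000, -822951 / 12500000, 2223199 / 25000000, 28207501 / 50000000,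
    -166232773 / 100000000, 224963911 / 100000000, -70363461 / 100000000]
  ty := [36725437 / 100000000, -212038987 / 100000000, 221057677 / 50000000, -62817521 /
    100000000, -61989947 / 12500000, 322770659 / 100000000, 13196287 / 10000000]
  hz := [2112939 / 25000000, -16578109 / 50000000, 95774701 / 25000000, -2400460229 / 20000000,
    93065620393 / 100000000, -137685524037 / 50000000, 28370723637 / 10000000]
  om := [1003967 / 1000000, 102100009 / 100000000, -34373123 / 2500000, 5210475371 / 100000000,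
    -9512434159 / 100000000, 811927307 / 12500000, 4738205101 / 25000000, -29589785283 /
    50000000, 6286233179 / 12500000]
  sD := 505 / 256
  sT := 451 / 256
  xi := [2675779 / 100000000, 30781119 / 100000000, -87982169 / 50000000, 155631513 / 20000000,
    -7357561243 / 50000000, 120954122221 / 100000000, -205927532449 / 50000000, 604244187139 /
    100000000, -19932044901 / 6250000, 13141498311 / 20000000]

def t3f13 : Dl where
  Ca := 208147 / 625000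
  Cv := 170531 / 500000
  k1 := 1203489 / 1250000
  ks := 948449 / 1000000
  dd := 0
  kp := 1 / 2500000
  e := [999999699923 / 1000000000000, -1263988517359 / 1000000000000, 1258527062261 /
    1000000000000, -276028660961 / 250000000000, 930730345509 / 1000000000000, -742024410231 /
    1000000000000, 136010212661 / 250000000000, -326311189087 / 1000000000000, 22637919051 /
    200000000000]
  j1 := [-1507411 / 500000000, -2034002209 / 200000000, 90672120053 / 1000000000, -385387278473 /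
    1000000000, 954962525097 / 1000000000, -35575735521 / 25000000, 77197895461 / 62500000,
    -256249005869 / 500000000]
  nu := [52925247 / 1000000000, -9236919 / 50000000, 197475139 / 500000000, 69593167 / 1000000000,
    -578375039 / 1000000000, 535448571 / 200000000, -81919087 / 25000000]
  k2 := [23711259 / 25000000, 17521769 / 100000000, -447901 / 1250000, -68426467 / 500000000,
    318603827 / 500000000, -2621726603 / 1000000000, 3238136267 / 1000000000]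
  dR := [8434799 / 100000000, -33043183 / 100000000, 380401729 / 100000000, -1485983483 /
    12500000, 11487968357 / 12500000, -4236001867 / 1562500, 27845339027 / 10000000]

def t3d13 : Xce where
  u0 := 66707 / 200000
  u1 := 170531 / 500000
  l := V2L.y5
  y := t3z5
  j := t3j5
  i := t3i5
  ls := t3y5
  k := V2L.k5
  c := t3f13
  ga := 10041 / 1000000
  gb := -639 / 250000
  hb := 203 / 5000
  gs := [32000533 / 20000000, 239999979 / 100000000, 36000193 / 20000000, 79583459 / 100000000,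
    5344223 / 20000000, -382537 / 3125000, -5958593 / 100000000]
  d1 := [201073 / 20000000, 45761 / 50000000, 1014763 / 100000000, 2244811 / 100000000, 40953 /
    6250000, 1157829 / 100000000, 2062137 / 50000000]
  d2 := [2939 / 100000000, 340067 / 50000000, 924311 / 50000000, 25425683 / 50000000, -2065873 /
    781250, 340880147 / 50000000, -65836881 / 10000000]
  dy := [1435667 / 25000000, 86849 / 6250000, 12209279 / 100000000, 32055481 / 100000000,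
    -71625709 / 100000000, 42556711 / 50000000, -40858547 / 100000000]
  t1 := [7761801 / 100000000, -9237611 / 25000000, 59361917 / 100000000, -50334529 / 25000000,
    1343626381 / 100000000, -3673553001 / 100000000, 3793273937 / 100000000]
  t2 := [130231 / 10000000, -820369 / 12500000, 4414967 / 50000000, 55932311 / 100000000,
    -164113081 / 100000000, 11038841 / 5000000, -68040339 / 100000000]
  ty := [4588359 / 12500000, -211355919 / 100000000, 27409583 / 6250000, -1670221 / 3125000,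
    -133270141 / 25000000, 209601473 / 50000000, 3827983 / 10000000]

def t3m13 : ℚ := 173 / 512

def t3h13 : ℚ := 243 / 500

theorem t3k13_M_r1 : NC (fM t3c13 (1 - eh) eh ek (elo t3c13.B0 t3c13.Bh eh) (elo t3c13.D0 t3c13.Dh ek) (elo t3c13.E0 t3c13.Eh ek)) :=
  NC.of (K := 30) (D := ⟨4, 3, 1, 1⟩) (Box.of 4 (by decide +kernel))
    (by decide +kernel)

theorem t3k13_M_r2 : NC (fM t3c13 eh (1 - eh) ek (ehi t3c13.Bh t3c13.B1 (1 - eh)) (elo t3c13.D0 t3c13.Dh ek) (elo t3c13.E0 t3c13.Eh ek)) :=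
  NC.of (K := 30) (D := ⟨4, 3, 1, 1⟩) (Box.of 4 (by decide +kernel))
    (by decide +kernel)

theorem t3k13_M_r3 : NC (fM t3c13 (1 - eh) ek eh (elo t3c13.B0 t3c13.Bh ek) (elo t3c13.D0 t3c13.Dh eh) (elo t3c13.E0 t3c13.Eh eh)) :=
  NC.of (K := 28) (D := ⟨4, 2, 1, 1⟩) (Box.of 4 (by decide +kernel))
    (by decide +kernel)

theorem t3k13_M_r4 : NC (fM t3c13 eh ek (1 - eh) (elo t3c13.B0 t3c13.Bh ek) (ehi t3c13.Dh t3c13.D1 (1 - eh)) (ehi t3c13.Eh t3c13.E1 (1 - eh))) :=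
  NC.of (K := 29) (D := ⟨4, 2, 1, 1⟩) (Box.of 4 (by decide +kernel))
    (by decide +kernel)

theorem t3k13_r0_r1 : NC (f0 t3c13 (1 - eh) eh ek (elo t3c13.B0 t3c13.Bh eh) (elo t3c13.D0 t3c13.Dh ek) (elo t3c13.E0 t3c13.Eh ek)) :=
  NC.of (K := 141) (D := ⟨13, 9, 1, 1⟩) (Box.of 4 (by decide +kernel))
    (by decide +kernel)

theorem t3k13_r0_r2 : NC (f0 t3c13 eh (1 - eh) ek (ehi t3c13.Bh t3c13.B1 (1 - eh)) (elo t3c13.D0 t3c13.Dh ek) (elo t3c13.E0 t3c13.Eh ek)) :=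
  NC.of (K := 141) (D := ⟨13, 9, 1, 1⟩) (Box.of 4 (by decide +kernel))
    (by decide +kernel)

theorem t3k13_r0_r3 : NC (f0 t3c13 (1 - eh) ek eh (elo t3c13.B0 t3c13.Bh ek) (elo t3c13.D0 t3c13.Dh eh) (elo t3c13.E0 t3c13.Eh eh)) :=
  NC.of (K := 136) (D := ⟨13, 5, 1, 1⟩) (Box.of 4 (by decide +kernel))
    (by decide +kernel)

theorem t3k13_r0_r4 : NC (f0 t3c13 eh ek (1 - eh) (elo t3c13.B0 t3c13.Bh ek) (ehi t3c13.Dh t3c13.D1 (1 - eh)) (ehi t3c13.Eh t3c13.E1 (1 - eh))) :=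
  NC.of (K := 137) (D := ⟨13, 5, 1, 1⟩) (Box.of 4 (by decide +kernel))
    (by decide +kernel)

theorem t3k13_r1_r1 : NC (f1 t3c13 (1 - eh) eh ek (elo t3c13.B0 t3c13.Bh eh) (elo t3c13.D0 t3c13.Dh ek) (elo t3c13.E0 t3c13.Eh ek)) :=
  NC.of (K := 229) (D := ⟨16, 9, 1, 1⟩) (Box.of 4 (by decide +kernel))
    (by decide +kernel)

theorem t3k13_r1_r2 : NC (f1 t3c13 eh (1 - eh) ek (ehi t3c13.Bh t3c13.B1 (1 - eh)) (elo t3c13.D0 t3c13.Dh ek) (elo t3c13.E0 t3c13.Eh ek)) :=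
  NC.of (K := 231) (D := ⟨16, 9, 1, 1⟩) (Box.of 4 (by decide +kernel))
    (by decide +kernel)

theorem t3k13_r1_r3 : NC (f1 t3c13 (1 - eh) ek eh (elo t3c13.B0 t3c13.Bh ek) (elo t3c13.D0 t3c13.Dh eh) (elo t3c13.E0 t3c13.Eh eh)) :=
  NC.of (K := 233) (D := ⟨16, 12, 1, 1⟩) (Box.of 4 (by decide +kernel))
    (by decide +kernel)

theorem t3k13_r1_r4 : NC (f1 t3c13 eh ek (1 - eh) (elo t3c13.B0 t3c13.Bh ek) (ehi t3c13.Dh t3c13.D1 (1 - eh)) (ehi t3c13.Eh t3c13.E1 (1 - eh))) :=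
  NC.of (K := 234) (D := ⟨16, 12, 1, 1⟩) (Box.of 4 (by decide +kernel))
    (by decide +kernel)

theorem t3k13_r2_r1 : NC (f2 t3c13 (1 - eh) eh ek (elo t3c13.B0 t3c13.Bh eh) (elo t3c13.D0 t3c13.Dh ek) (elo t3c13.E0 t3c13.Eh ek)) :=
  NC.of (K := 232) (D := ⟨16, 11, 1, 1⟩) (Box.of 4 (by decide +kernel))
    (by decide +kernel)

theorem t3k13_r2_r2 : NC (f2 t3c13 eh (1 - eh) ek (ehi t3c13.Bh t3c13.B1 (1 - eh)) (elo t3c13.D0 t3c13.Dh ek) (elo t3c13.E0 t3c13.Eh ek)) :=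
  NC.of (K := 233) (D := ⟨16, 11, 1, 1⟩) (Box.of 4 (by decide +kernel))
    (by decide +kernel)

theorem t3k13_r2_r3 : NC (f2 t3c13 (1 - eh) ek eh (elo t3c13.B0 t3c13.Bh ek) (elo t3c13.D0 t3c13.Dh eh) (elo t3c13.E0 t3c13.Eh eh)) :=
  NC.of (K := 233) (D := ⟨16, 12, 1, 1⟩) (Box.of 4 (by decide +kernel))
    (by decide +kernel)

theorem t3k13_r2_r4 : NC (f2 t3c13 eh ek (1 - eh) (elo t3c13.B0 t3c13.Bh ek) (ehi t3c13.Dh t3c13.D1 (1 - eh)) (ehi t3c13.Eh t3c13.E1 (1 - eh))) :=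
  NC.of (K := 235) (D := ⟨16, 12, 1, 1⟩) (Box.of 4 (by decide +kernel))
    (by decide +kernel)

theorem t3k13_rc_r1 : NC (fc t3c13 (1 - eh) eh ek (elo t3c13.B0 t3c13.Bh eh) (elo t3c13.D0 t3c13.Dh ek) (elo t3c13.E0 t3c13.Eh ek)) :=
  NC.of (K := 140) (D := ⟨13, 9, 1, 1⟩) (Box.of 4 (by decide +kernel))
    (by decide +kernel)

theorem t3k13_rc_r2 : NC (fc t3c13 eh (1 - eh) ek (ehi t3c13.Bh t3c13.B1 (1 - eh)) (elo t3c13.D0 t3c13.Dh ek) (elo t3c13.E0 t3c13.Eh ek)) :=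
  NC.of (K := 140) (D := ⟨13, 9, 1, 1⟩) (Box.of 4 (by decide +kernel))
    (by decide +kernel)

theorem t3k13_rc_r3 : NC (fc t3c13 (1 - eh) ek eh (elo t3c13.B0 t3c13.Bh ek) (elo t3c13.D0 t3c13.Dh eh) (elo t3c13.E0 t3c13.Eh eh)) :=
  NC.of (K := 136) (D := ⟨13, 5, 1, 1⟩) (Box.of 4 (by decide +kernel))
    (by decide +kernel)

theorem t3k13_rc_r4 : NC (fc t3c13 eh ek (1 - eh) (elo t3c13.B0 t3c13.Bh ek) (ehi t3c13.Dh t3c13.D1 (1 - eh)) (ehi t3c13.Eh t3c13.E1 (1 - eh))) :=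
  NC.of (K := 136) (D := ⟨13, 5, 1, 1⟩) (Box.of 4 (by decide +kernel))
    (by decide +kernel)

theorem t3k13_rI_r1 : NC (fI t3c13 (1 - eh) eh ek (elo t3c13.B0 t3c13.Bh eh) (elo t3c13.D0 t3c13.Dh ek) (elo t3c13.E0 t3c13.Eh ek)) :=
  NC.of (K := 124) (D := ⟨13, 9, 1, 1⟩) (Box.of 4 (by decide +kernel))
    (by decide +kernel)

theorem t3k13_rI_r2 : NC (fI t3c13 eh (1 - eh) ek (ehi t3c13.Bh t3c13.B1 (1 - eh)) (elo t3c13.D0 t3c13.Dh ek) (elo t3c13.E0 t3c13.Eh ek)) :=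
  NC.of (K := 124) (D := ⟨13, 9, 1, 1⟩) (Box.of 4 (by decide +kernel))
    (by decide +kernel)

theorem t3k13_rI_r3 : NC (fI t3c13 (1 - eh) ek eh (elo t3c13.B0 t3c13.Bh ek) (elo t3c13.D0 t3c13.Dh eh) (elo t3c13.E0 t3c13.Eh eh)) :=
  NC.of (K := 119) (D := ⟨13, 5, 1, 1⟩) (Box.of 4 (by decide +kernel))
    (by decide +kernel)

theorem t3k13_rI_r4 : NC (fI t3c13 eh ek (1 - eh) (elo t3c13.B0 t3c13.Bh ek) (ehi t3c13.Dh t3c13.D1 (1 - eh)) (ehi t3c13.Eh t3c13.E1 (1 - eh))) :=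
  NC.of (K := 120) (D := ⟨13, 5, 1, 1⟩) (Box.of 4 (by decide +kernel))
    (by decide +kernel)

theorem t3k13_rJ_r1 : NC (fJ t3c13 (1 - eh) eh ek (elo t3c13.B0 t3c13.Bh eh) (elo t3c13.D0 t3c13.Dh ek) (elo t3c13.E0 t3c13.Eh ek)) :=
  NC.of (K := 87) (D := ⟨7, 5, 1, 1⟩) (Box.of 289 (by decide +kernel))
    (by decide +kernel)

theorem t3k13_rJ_r2 : NC (fJ t3c13 eh (1 - eh) ek (ehi t3c13.Bh t3c13.B1 (1 - eh)) (elo t3c13.D0 t3c13.Dh ek) (elo t3c13.E0 t3c13.Eh ek)) :=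
  NC.of (K := 87) (D := ⟨7, 5, 1, 1⟩) (Box.of 289 (by decide +kernel))
    (by decide +kernel)

theorem t3k13_rJ_r3 : NC (fJ t3c13 (1 - eh) ek eh (elo t3c13.B0 t3c13.Bh ek) (elo t3c13.D0 t3c13.Dh eh) (elo t3c13.E0 t3c13.Eh eh)) :=
  NC.of (K := 76) (D := ⟨7, 3, 1, 1⟩) (Box.of 4 (by decide +kernel))
    (by decide +kernel)

theorem t3k13_rJ_r4 : NC (fJ t3c13 eh ek (1 - eh) (elo t3c13.B0 t3c13.Bh ek) (ehi t3c13.Dh t3c13.D1 (1 - eh)) (ehi t3c13.Eh t3c13.E1 (1 - eh))) :=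
  NC.of (K := 76) (D := ⟨7, 3, 1, 1⟩) (Box.of 4 (by decide +kernel))
    (by decide +kernel)

theorem t3k13_gE_r1 : NC (fE t3c13 t3e13 (1 - eh) eh ek (elo t3c13.B0 t3c13.Bh eh) (elo t3c13.D0 t3c13.Dh ek) (elo t3c13.E0 t3c13.Eh ek)) :=
  NC.of (K := 153) (D := ⟨13, 9, 1, 1⟩) (Box.of 288 (by decide +kernel))
    (by decide +kernel)

theorem t3k13_gE_r2 : NC (fE t3c13 t3e13 eh (1 - eh) ek (ehi t3c13.Bh t3c13.B1 (1 - eh)) (elo t3c13.D0 t3c13.Dh ek) (elo t3c13.E0 t3c13.Eh ek)) :=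
  NC.of (K := 132) (D := ⟨13, 9, 1, 1⟩) (Box.of 4 (by decide +kernel))
    (by decide +kernel)

theorem t3k13_gE_r3 : NC (fE t3c13 t3e13 (1 - eh) ek eh (elo t3c13.B0 t3c13.Bh ek) (elo t3c13.D0 t3c13.Dh eh) (elo t3c13.E0 t3c13.Eh eh)) :=
  NC.of (K := 151) (D := ⟨13, 7, 1, 1⟩) (Box.of 288 (by decide +kernel))
    (by decide +kernel)

theorem t3k13_gE_r4 : NC (fE t3c13 t3e13 eh ek (1 - eh) (elo t3c13.B0 t3c13.Bh ek) (ehi t3c13.Dh t3c13.D1 (1 - eh)) (ehi t3c13.Eh t3c13.E1 (1 - eh))) :=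
  NC.of (K := 130) (D := ⟨13, 7, 1, 1⟩) (Box.of 4 (by decide +kernel))
    (by decide +kernel)

theorem t3k13_B0 : NC (kB dW 1 0 t3c13.B0 (tcl t3c13)) :=
  NC.of (K := 104) (D := ⟨1, 1, 1, 9⟩) (Box.of 4 (by decide +kernel))
    (by decide +kernel)

theorem t3k13_E0 : NC (kE dW qW qW.p0 qW.q0 t3c13.E0 (tcl t3c13)) :=
  NC.of (K := 229) (D := ⟨1, 1, 1, 19⟩) (Box.of 4 (by decide +kernel))
    (by decide +kernel)

theorem t3k13_D0 : NC (kD dW qW 1 0 qW.p0 qW.q0 t3c13.D0 (tcl t3c13)) :=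
  NC.of (K := 347) (D := ⟨1, 1, 1, 20⟩) (Box.of 4 (by decide +kernel))
    (by decide +kernel)

theorem t3k13_Bh : NC (kB dW (1 / 2) (1 / 2) t3c13.Bh (tcl t3c13)) :=
  NC.of (K := 107) (D := ⟨1, 1, 1, 9⟩) (Box.of 4 (by decide +kernel))
    (by decide +kernel)

theorem t3k13_Eh : NC (kE dW qW qW.ph qW.qh t3c13.Eh (tcl t3c13)) :=
  NC.of (K := 233) (D := ⟨1, 1, 1, 19⟩) (Box.of 4 (by decide +kernel))
    (by decide +kernel)

theorem t3k13_Dh : NC (kD dW qW (1 / 2) (1 / 2) qW.ph qW.qh t3c13.Dh (tcl t3c13)) :=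
  NC.of (K := 351) (D := ⟨1, 1, 1, 20⟩) (Box.of 4 (by decide +kernel))
    (by decide +kernel)

theorem t3k13_B1 : NC (kB dW 0 (1 / 2) t3c13.B1 (tcl t3c13)) :=
  NC.of (K := 107) (D := ⟨1, 1, 1, 9⟩) (Box.of 4 (by decide +kernel))
    (by decide +kernel)

theorem t3k13_E1 : NC (kE dW qW qW.p1 qW.q1 t3c13.E1 (tcl t3c13)) :=
  NC.of (K := 233) (D := ⟨1, 1, 1, 19⟩) (Box.of 4 (by decide +kernel))
    (by decide +kernel)

theorem t3k13_D1 : NC (kD dW qW 0 (1 / 2) qW.p1 qW.q1 t3c13.D1 (tcl t3c13)) :=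
  NC.of (K := 351) (D := ⟨1, 1, 1, 20⟩) (Box.of 4 (by decide +kernel))
    (by decide +kernel)

theorem t3k13_l : NC (qc t3n13.lb - (1 - vX) * pe (exl t3c13.th) vX ^ 2) :=
  NC.of (K := 114) (D := ⟨10, 1, 1, 1⟩) (Box.of 4 (by decide +kernel))
    (by decide +kernel)

theorem t3k13_n : NC (qc t3n13.nb - vX * (1 - vX) * pe (exl t3c13.th) vX) :=
  NC.of (K := 98) (D := ⟨7, 1, 1, 1⟩) (Box.of 1196064 (by decide +kernel))
    (by decide +kernel)

theorem t3k13_rb : NC (krb t3n13 fW (t1v t3c13)) :=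
  NC.of (K := 167) (D := ⟨1, 1, 1, 16⟩) (Box.of 4 (by decide +kernel))
    (by decide +kernel)

theorem t3k13_kap : NC (kkap dW qW t3n13 (tcl t3c13)) :=
  NC.of (K := 104) (D := ⟨1, 1, 1, 9⟩) (Box.of 4 (by decide +kernel))
    (by decide +kernel)

theorem t3k13_wb2 : NC (qc t3n13.b2 - pe2 kW.QB (vZ * t1v t3c13) (t1v t3c13)) :=
  NC.of (K := 133) (D := ⟨1, 6, 1, 11⟩) (Box.of 291 (by decide +kernel))
    (by decide +kernel)

theorem t3k13_wmb : NC (qc t3n13.Mb - pe zW.mb (t1v t3c13)) :=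
  NC.of (K := 104) (D := ⟨1, 1, 1, 9⟩) (Box.of 291 (by decide +kernel))
    (by decide +kernel)

theorem t3k13_wth : NC (qc (t3c13.th / t3c13.t1) - pe2 zW.Qt (vZ * t1v t3c13) (t1v t3c13)) :=
  NC.of (K := 137) (D := ⟨1, 6, 1, 11⟩) (Box.of 291 (by decide +kernel))
    (by decide +kernel)

theorem t3k13_wyb : NC (qc t3n13.Yb - (t1v t3c13 - vZ * t1v t3c13) ^ 3 * pe2 yW.QY (vZ * t1v t3c13) (t1v t3c13)) :=
  NC.of (K := 116) (D := ⟨1, 8, 1, 12⟩) (Box.of 4 (by decide +kernel))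
    (by decide +kernel)

theorem t3k13_wmu : NC (qc t3m13 - pe t3al (tcl t3c13) * (1 + hlf * tcl t3c13)) :=
  NC.of (K := 99) (D := ⟨1, 1, 1, 9⟩) (Box.of 4 (by decide +kernel))
    (by decide +kernel)

theorem t3k13_wcj : NC (qc t3c13.C * ((6 - 3 * vX) * (1 - qc t3m13 * vX)) - (6 - 6 * vX + vX ^ 2)) :=
  NC.of (K := 31) (D := ⟨3, 1, 1, 1⟩) (Box.of 4 (by decide +kernel))
    (by decide +kernel)

theorem t3k13_nd1 : NC (pe t3r13.d1 (t1v t3c13)) :=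
  NC.of (K := 64) (D := ⟨1, 1, 1, 7⟩) (Box.of 4 (by decide +kernel))
    (by decide +kernel)

theorem t3k13_nd2 : NC (pe t3r13.d2 (t1v t3c13)) :=
  NC.of (K := 65) (D := ⟨1, 1, 1, 7⟩) (Box.of 4 (by decide +kernel))
    (by decide +kernel)

theorem t3k13_ndy : NC (pe t3r13.dy (t1v t3c13)) :=
  NC.of (K := 68) (D := ⟨1, 1, 1, 7⟩) (Box.of 4 (by decide +kernel))
    (by decide +kernel)

theorem t3k13_nt1 : NC (pe t3r13.t1 (t1v t3c13)) :=
  NC.of (K := 65) (D := ⟨1, 1, 1, 7⟩) (Box.of 4 (by decide +kernel))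
    (by decide +kernel)

theorem t3k13_nt2 : NC (pe t3r13.t2 (t1v t3c13)) :=
  NC.of (K := 67) (D := ⟨1, 1, 1, 7⟩) (Box.of 4 (by decide +kernel))
    (by decide +kernel)

theorem t3k13_nty : NC (pe t3r13.ty (t1v t3c13)) :=
  NC.of (K := 68) (D := ⟨1, 1, 1, 7⟩) (Box.of 4 (by decide +kernel))
    (by decide +kernel)

theorem t3k13_nhz : NC (pe t3r13.hz (t1v t3c13)) :=
  NC.of (K := 109) (D := ⟨1, 1, 1, 7⟩) (Box.of 1197795 (by decide +kernel))
    (by decide +kernel)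

theorem t3k13_xi : NC (eXi fW t3c13 t3e13 t3r13 (t1v t3c13)) :=
  NC.of (K := 286) (D := ⟨1, 1, 1, 22⟩) (Box.of 4 (by decide +kernel))
    (by decide +kernel)

theorem t3k13_om : NC (eOm fW t3r13 (t1v t3c13)) :=
  NC.of (K := 160) (D := ⟨1, 1, 1, 16⟩) (Box.of 4 (by decide +kernel))
    (by decide +kernel)

theorem t3k13_fin : NC (eFin dW t3c13 t3n13 t3r13 t3h13 (tcl t3c13)) :=
  NC.of (K := 233) (D := ⟨1, 1, 1, 14⟩) (Box.of 4 (by decide +kernel))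
    (by decide +kernel)

theorem t3k13_xdl : NC (qc t3e13.dl - pe t3d13.l.dl t3d13.eU) :=
  NC.of (K := 72) (D := ⟨1, 4, 1, 1⟩) (Box.of 4 (by decide +kernel))
    (by decide +kernel)

theorem t3k13_xeY : NC (qc t3e13.eY - pe (e4l t3d13.l.z) t3d13.eU) :=
  NC.of (K := 288) (D := ⟨1, 13, 1, 1⟩) (Box.of 4 (by decide +kernel))
    (by decide +kernel)

theorem t3k13_xgr : NC (qc t3d13.ga * ((1 + qc (3 / 5) * vX) * (1 + (t3d13.eg + hlf * t3d13.eg ^ 2))) + qc t3d13.gb - pe2 t3GR vX t3d13.eU) :=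
  NC.of (K := 240) (D := ⟨4, 11, 1, 1⟩) (Box.of 4 (by decide +kernel))
    (by decide +kernel)

theorem t3k13_xhr : NC (qc t3d13.hb - pe2 t3HR vX t3d13.eU) :=
  NC.of (K := 261) (D := ⟨3, 12, 1, 1⟩) (Box.of 4 (by decide +kernel))
    (by decide +kernel)

theorem t3k13_xgs : NC (pe t3d13.gs t3d13.e1 - qc (8 / 5) * pe (e4l (ladd t3d13.ls.z t3d13.ls.dl)) t3d13.e1) :=
  NC.of (K := 284) (D := ⟨1, 1, 1, 13⟩) (Box.of 4 (by decide +kernel))
    (by decide +kernel)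

theorem t3k13_xd1 : NC (pe t3d13.d1 t3d13.e1 - t3d13.eA t3d13.eU t3d13.e1) :=
  NC.of (K := 286) (D := ⟨1, 12, 1, 12⟩) (Box.of 4 (by decide +kernel))
    (by decide +kernel)

theorem t3k13_xd2 : NC (pe t3d13.d2 t3d13.e1 - t3d13.eB t3d13.eU t3d13.e1) :=
  NC.of (K := 306) (D := ⟨1, 12, 1, 12⟩) (Box.of 291 (by decide +kernel))
    (by decide +kernel)

theorem t3k13_xt1 : NC (pe t3d13.t1 t3d13.e1 - t3d13.eAT t3d13.eU t3d13.e1) :=
  NC.of (K := 467) (D := ⟨1, 19, 1, 19⟩) (Box.of 4 (by decide +kernel))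
    (by decide +kernel)

theorem t3k13_xt2 : NC (pe t3d13.t2 t3d13.e1 - t3d13.eBT t3d13.eU t3d13.e1) :=
  NC.of (K := 501) (D := ⟨1, 19, 1, 19⟩) (Box.of 291 (by decide +kernel))
    (by decide +kernel)

theorem t3k13_xdy : NC (pe t3d13.dy t3d13.e1 - t3d13.eSD t3d13.eU t3d13.e1) :=
  NC.of (K := 441) (D := ⟨1, 18, 1, 12⟩) (Box.of 4 (by decide +kernel))
    (by decide +kernel)

theorem t3k13_xty : NC (pe t3d13.ty t3d13.e1 - t3d13.eST t3d13.eU t3d13.e1) :=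
  NC.of (K := 660) (D := ⟨1, 26, 1, 26⟩) (Box.of 4 (by decide +kernel))
    (by decide +kernel)

theorem t3k13_xd1s : NC (pe t3r13.d1 (t1v t3c13) - pe t3d13.d1 (Xcd.ew zW t3c13)) :=
  NC.of (K := 588) (D := ⟨1, 1, 1, 55⟩) (Box.of 4 (by decide +kernel))
    (by decide +kernel)

theorem t3k13_xd2s : NC (pe t3r13.d2 (t1v t3c13) - pe t3d13.d2 (Xcd.ew zW t3c13)) :=
  NC.of (K := 593) (D := ⟨1, 1, 1, 55⟩) (Box.of 4 (by decide +kernel))
    (by decide +kernel)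

theorem t3k13_xt1s : NC (pe t3r13.t1 (t1v t3c13) - pe t3d13.t1 (Xcd.ew zW t3c13)) :=
  NC.of (K := 599) (D := ⟨1, 1, 1, 55⟩) (Box.of 4 (by decide +kernel))
    (by decide +kernel)

theorem t3k13_xt2s : NC (pe t3r13.t2 (t1v t3c13) - pe t3d13.t2 (Xcd.ew zW t3c13)) :=
  NC.of (K := 594) (D := ⟨1, 1, 1, 55⟩) (Box.of 4 (by decide +kernel))
    (by decide +kernel)

theorem t3k13_xdys : NC (pe t3r13.dy (t1v t3c13) - pe t3d13.dy (Xcd.ew zW t3c13)) :=
  NC.of (K := 593) (D := ⟨1, 1, 1, 55⟩) (Box.of 4 (by decide +kernel))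
    (by decide +kernel)

theorem t3k13_xtys : NC (pe t3r13.ty (t1v t3c13) - pe t3d13.ty (Xcd.ew zW t3c13)) :=
  NC.of (K := 592) (D := ⟨1, 1, 1, 55⟩) (Box.of 4 (by decide +kernel))
    (by decide +kernel)

theorem t3k13_xhz : NC (pe t3r13.hz (t1v t3c13) - pe t3d13.c.dR (Xcd.ew zW t3c13)) :=
  NC.of (K := 601) (D := ⟨1, 1, 1, 55⟩) (Box.of 4 (by decide +kernel))
    (by decide +kernel)

theorem t3f13_ok : t3f13.ok V2L.y5 V2L.k5 V2L.nb V2L.la (10 ^ 30) 32 = true := by decide +kernel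

theorem t3k13_sg : t3c13.Sg := by
  constructor <;> decide +kernel

theorem t3k13_rgs : t3c13.Rgs where
  M := ⟨t3k13_M_r1, t3k13_M_r2, t3k13_M_r3, t3k13_M_r4⟩
  r0 := ⟨t3k13_r0_r1, t3k13_r0_r2, t3k13_r0_r3, t3k13_r0_r4⟩
  r1 := ⟨t3k13_r1_r1, t3k13_r1_r2, t3k13_r1_r3, t3k13_r1_r4⟩
  r2 := ⟨t3k13_r2_r1, t3k13_r2_r2, t3k13_r2_r3, t3k13_r2_r4⟩
  rc := ⟨t3k13_rc_r1, t3k13_rc_r2, t3k13_rc_r3, t3k13_rc_r4⟩
  rI := ⟨t3k13_rI_r1, t3k13_rI_r2, t3k13_rI_r3, t3k13_rI_r4⟩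
  rJ := ⟨t3k13_rJ_r1, t3k13_rJ_r2, t3k13_rJ_r3, t3k13_rJ_r4⟩

theorem t3k13_xn : t3e13.Ok t3c13 where
  lm := by decide +kernel
  dl0 := by decide +kernel
  dl1 := by decide +kernel
  e2 := by decide +kernel
  eY := by decide +kernel
  gE := ⟨t3k13_gE_r1, t3k13_gE_r2, t3k13_gE_r3, t3k13_gE_r4⟩

theorem t3k13_vl : t3c13.Vl dW qW where
  bt := by decide +kernel
  B0 := t3k13_B0
  E0 := t3k13_E0
  D0 := t3k13_D0
  Bh := t3k13_Bh
  Eh := t3k13_Eh
  Dh := t3k13_Dh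
  B1 := t3k13_B1
  E1 := t3k13_E1
  D1 := t3k13_D1

theorem t3k13_rat : t3n13.Rat t3c13 := by
  constructor <;> decide +kernel

theorem t3k13_ck : t3n13.Ck t3c13 := ⟨t3k13_l, t3k13_n⟩

theorem t3k13_fck : t3n13.Fck dW qW fW t3c13 := ⟨t3k13_rb, t3k13_kap⟩

theorem t3k13_w : Wcl zW kW yW t3al t3c13 t3n13 t3m13 where
  b2 := t3k13_wb2
  mb := t3k13_wmb
  th := t3k13_wth
  yb := t3k13_wyb
  mu := t3k13_wmu
  cj := t3k13_wcj
  mt1 := by decide +kernel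
  mt2 := by decide +kernel

theorem t3k13_ok : CelOk dW qW fW t3c13 t3n13 where
  s := t3k13_sg
  r := t3k13_rgs
  v := t3k13_vl
  rt := t3k13_rat
  k := t3k13_ck
  fc := t3k13_fck
  q01 := by decide +kernel
  q12 := by decide +kernel
  h2 := by decide +kernel

theorem t3k13_xr : t3r13.Ok fW t3c13 t3e13 where
  sD := by decide +kernel
  sT := by decide +kernel
  nd1 := t3k13_nd1
  nd2 := t3k13_nd2
  ndy := t3k13_ndy
  nt1 := t3k13_nt1
  nt2 := t3k13_nt2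
  nty := t3k13_nty
  nhz := t3k13_nhz
  xi := t3k13_xi
  om := t3k13_om

theorem t3k13_X : t3d13.Ck t3GR t3HR zW t3c13 t3e13 t3r13 where
  u0 := by decide +kernel
  u01 := by decide +kernel
  ul := by decide +kernel
  us := by decide +kernel
  uc := by decide +kernel
  ga0 := by decide +kernel
  kp0 := by decide +kernel
  lm := by decide +kernel
  dl := t3k13_xdl
  eY := t3k13_xeY
  gr := t3k13_xgr
  hr := t3k13_xhr
  gs := t3k13_xgs
  d1 := t3k13_xd1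
  d2 := t3k13_xd2
  t1 := t3k13_xt1
  t2 := t3k13_xt2
  dy := t3k13_xdy
  ty := t3k13_xty
  d1s := t3k13_xd1s
  d2s := t3k13_xd2s
  t1s := t3k13_xt1s
  t2s := t3k13_xt2s
  dys := t3k13_xdys
  tys := t3k13_xtys
  hz := t3k13_xhz

end Pool.Agent.RX.RCN.K
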