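import Pool.Agent.RX.RCN.T3D
import Pool.Agent.RX.RCN.T3Wq
import Pool.Agent.RX.RCN.T3X12
import Pool.Agent.RX.RCN.VLd

/-! Certificates (generated). -/

set_option autoImplicit false

namespace Pool.Agent.RX.RCN.K

open Set Pool.Agent.RX.RCM9 Pool.Agent.RX.RCM9.Bern Pool.Agent.RX.RCM9.Pk Xce

def t3c27 : Cel where
  t0 := 89 / 200
  t1 := 9 / 20
  C := 4097 / 4096
  th := 465 / 1024
  B0 := 2159 / 2048
  Bh := 1205 / 1024
  B1 := 2357 / 2048
  D0 := 1407 / 4096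
  Dh := 579 / 2048
  D1 := 553 / 2048
  E0 := 33719 / 4194304
  Eh := 897 / 131072
  E1 := 13719 / 2097152
  Q0 := 541 / 512
  Q1 := 541 / 512
  Q2 := 1111 / 1024
  Ac := 541 / 512
  gI := 541 / 512
  J := 105 / 8192

def t3n27 : Chn where
  lb := 513 / 512
  nb := 163 / 512
  Mb := 1037 / 1024
  b2 := 65 / 64
  Yb := 47 / 4096
  E2 := 131 / 128
  e1 := 1309 / 1024
  Z1 := 1121 / 1024
  Z2 := 633 / 1024
  KB := 531 / 512
  cb := 541 / 512
  rb := 193 / 512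
  om := 263 / 256
  fb := 129 / 128
  kap := 2093 / 2048
  ab := 1029 / 1024

def t3e27 : Xge where
  lm := 3 / 5
  dl := 901 / 2048
  e2 := 1851 / 16384
  eY := 2073 / 2048
  gE := 1163 / 1024

def t3r27 : Xr where
  d1 := [528909 / 20000000, 196003 / 50000000, 2679061 / 100000000, 329563 / 25000000, 11915503 /
    100000000, -11883053 / 50000000, 4544307 / 20000000]
  d2 := [12957 / 100000000, 2358401 / 100000000, 7618399 / 100000000, 15407817 / 100000000,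
    -4197849 / 100000000, -14066911 / 50000000, 34782089 / 100000000]
  dy := [24292643 / 100000000, 7841487 / 100000000, 14257169 / 50000000, 82916371 / 100000000,
    -87788059 / 100000000, -7845367 / 20000000, 52305381 / 50000000]
  t1 := [14464773 / 100000000, -1815693 / 4000000, 38241697 / 100000000, -12363363 / 25000000,
    421218283 / 100000000, -467304937 / 50000000, 31029001 / 4000000]
  t2 := [1923837 / 50000000, -5959949 / 50000000, 5274917 / 50000000, 47484547 / 100000000,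
    -33352111 / 100000000, -8031777 / 100000000, 2262143 / 10000000]
  ty := [53198041 / 50000000, -381633829 / 100000000, 336206973 / 100000000, 74141073 / 6250000,
    -637703779 / 25000000, 1887226307 / 100000000, -196230881 / 50000000]
  hz := [15830871 / 100000000, -4067121 / 10000000, 65837277 / 50000000, -49375979 / 1250000,
    21795562383 / 100000000, -8852382839 / 20000000, 15604899431 / 50000000]
  om := [50198349 / 50000000, 51206751 / 50000000, -348300681 / 25000000, 3508523 / 62500,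
    -1732554619 / 12500000, 7974720609 / 25000000, -31599648719 / 50000000, 1980101297 /
    2500000, -1781068663 / 4000000]
  sD := 151 / 64
  sT := 67 / 32
  xi := [1855489 / 20000000, 36213057 / 50000000, -80248581 / 25000000, 34342933 / 6250000,
    -4079782833 / 100000000, 339565361 / 1250000, -35497808573 / 50000000, 80346042321 /
    100000000, -32403197951 / 100000000, 93220073 / 100000000]

def t3f27 : Dl where
  Ca := 1116401 / 2500000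
  Cv := 451617 / 1000000
  k1 := 1851409 / 2000000
  ks := 90617 / 100000
  dd := 0
  kp := 1 / 10000000
  e := [62499981171 / 62500000000, -1373140734547 / 1000000000000, 736791872147 / 500000000000,
    -1404985824027 / 1000000000000, 254192529557 / 200000000000, -535622604061 / 500000000000,
    799389433729 / 1000000000000, -113750967317 / 250000000000, 27720729701 / 200000000000]
  j1 := [-1227093 / 500000000, -8298002863 / 1000000000, 38589547241 / 500000000, -8488292299 /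
    25000000, 432942237157 / 500000000, -1300450750231 / 1000000000, 538251230531 / 500000000,
    -385416904771 / 1000000000]
  nu := [98522489 / 1000000000, -234891907 / 1000000000, 49603429 / 125000000, -45321173 /
    1000000000, 127136697 / 1000000000, 271817043 / 1000000000, -257764029 / 1000000000]
  k2 := [453085629 / 500000000, 42577427 / 200000000, -33468599 / 100000000, -661787 / 15625000,
    -33438937 / 1000000000, -40265547 / 125000000, 65972911 / 200000000]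
  dR := [15798997 / 100000000, -253263 / 625000, 13032661 / 10000000, -3909109563 / 100000000,
    5377441463 / 25000000, -4354868583 / 10000000, 1913179637 / 6250000]

def t3d27 : Xce where
  u0 := 55883 / 125000
  u1 := 451617 / 1000000
  l := V2L.y12
  y := t3z12
  j := t3j12
  i := t3i12
  ls := t3y12
  k := V2L.k12
  c := t3f27
  ga := 26389 / 1000000
  gb := -11701 / 1000000
  hb := 129001 / 1000000
  gs := [2500049 / 1562500, 59999967 / 25000000, 180004571 / 100000000, 19885249 / 25000000,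
    13472981 / 50000000, -12788319 / 100000000, -136499 / 2500000]
  d1 := [2642619 / 100000000, 396481 / 100000000, 311931 / 12500000, 3106323 / 100000000, 756859 /
    25000000, -485101 / 12500000, 5971289 / 100000000]
  d2 := [2197 / 20000000, 1182749 / 50000000, 7147753 / 100000000, 3970791 / 20000000, -2652793 /
    10000000, 1123751 / 5000000, -1599223 / 20000000]
  dy := [4854643 / 20000000, 1573903 / 20000000, 3349847 / 12500000, 98830907 / 100000000,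
    -168089121 / 100000000, 143859683 / 100000000, -25303297 / 50000000]
  t1 := [45179 / 312500, -45227199 / 100000000, 7475249 / 20000000, -43188533 / 100000000,
    78225489 / 20000000, -869789089 / 100000000, 90304507 / 12500000]
  t2 := [961391 / 25000000, -5932601 / 50000000, 2490981 / 25000000, 52527537 / 100000000,
    -59041641 / 100000000, 24755039 / 50000000, -25282567 / 100000000]
  ty := [106341787 / 100000000, -380333143 / 100000000, 827543 / 250000, 602162287 / 50000000,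
    -2645864613 / 100000000, 1059851957 / 50000000, -296163833 / 50000000]

def t3m27 : ℚ := 895 / 2048

def t3h27 : ℚ := 249 / 500

theorem t3k27_M_r1 : NC (fM t3c27 (1 - eh) eh ek (elo t3c27.B0 t3c27.Bh eh) (elo t3c27.D0 t3c27.Dh ek) (elo t3c27.E0 t3c27.Eh ek)) :=
  NC.of (K := 32) (D := ⟨4, 3, 1, 1⟩) (Box.of 4 (by decide +kernel))
    (by decide +kernel)

theorem t3k27_M_r2 : NC (fM t3c27 eh (1 - eh) ek (ehi t3c27.Bh t3c27.B1 (1 - eh)) (elo t3c27.D0 t3c27.Dh ek) (elo t3c27.E0 t3c27.Eh ek)) :=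
  NC.of (K := 32) (D := ⟨4, 3, 1, 1⟩) (Box.of 4 (by decide +kernel))
    (by decide +kernel)

theorem t3k27_M_r3 : NC (fM t3c27 (1 - eh) ek eh (elo t3c27.B0 t3c27.Bh ek) (elo t3c27.D0 t3c27.Dh eh) (elo t3c27.E0 t3c27.Eh eh)) :=
  NC.of (K := 31) (D := ⟨4, 2, 1, 1⟩) (Box.of 4 (by decide +kernel))
    (by decide +kernel)

theorem t3k27_M_r4 : NC (fM t3c27 eh ek (1 - eh) (elo t3c27.B0 t3c27.Bh ek) (ehi t3c27.Dh t3c27.D1 (1 - eh)) (ehi t3c27.Eh t3c27.E1 (1 - eh))) :=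
  NC.of (K := 29) (D := ⟨4, 2, 1, 1⟩) (Box.of 4 (by decide +kernel))
    (by decide +kernel)

theorem t3k27_r0_r1 : NC (f0 t3c27 (1 - eh) eh ek (elo t3c27.B0 t3c27.Bh eh) (elo t3c27.D0 t3c27.Dh ek) (elo t3c27.E0 t3c27.Eh ek)) :=
  NC.of (K := 143) (D := ⟨13, 9, 1, 1⟩) (Box.of 4 (by decide +kernel))
    (by decide +kernel)

theorem t3k27_r0_r2 : NC (f0 t3c27 eh (1 - eh) ek (ehi t3c27.Bh t3c27.B1 (1 - eh)) (elo t3c27.D0 t3c27.Dh ek) (elo t3c27.E0 t3c27.Eh ek)) :=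
  NC.of (K := 143) (D := ⟨13, 9, 1, 1⟩) (Box.of 4 (by decide +kernel))
    (by decide +kernel)

theorem t3k27_r0_r3 : NC (f0 t3c27 (1 - eh) ek eh (elo t3c27.B0 t3c27.Bh ek) (elo t3c27.D0 t3c27.Dh eh) (elo t3c27.E0 t3c27.Eh eh)) :=
  NC.of (K := 139) (D := ⟨13, 5, 1, 1⟩) (Box.of 4 (by decide +kernel))
    (by decide +kernel)

theorem t3k27_r0_r4 : NC (f0 t3c27 eh ek (1 - eh) (elo t3c27.B0 t3c27.Bh ek) (ehi t3c27.Dh t3c27.D1 (1 - eh)) (ehi t3c27.Eh t3c27.E1 (1 - eh))) :=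
  NC.of (K := 131) (D := ⟨13, 5, 1, 1⟩) (Box.of 4 (by decide +kernel))
    (by decide +kernel)

theorem t3k27_r1_r1 : NC (f1 t3c27 (1 - eh) eh ek (elo t3c27.B0 t3c27.Bh eh) (elo t3c27.D0 t3c27.Dh ek) (elo t3c27.E0 t3c27.Eh ek)) :=
  NC.of (K := 212) (D := ⟨16, 9, 1, 1⟩) (Box.of 4 (by decide +kernel))
    (by decide +kernel)

theorem t3k27_r1_r2 : NC (f1 t3c27 eh (1 - eh) ek (ehi t3c27.Bh t3c27.B1 (1 - eh)) (elo t3c27.D0 t3c27.Dh ek) (elo t3c27.E0 t3c27.Eh ek)) :=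
  NC.of (K := 213) (D := ⟨16, 9, 1, 1⟩) (Box.of 4 (by decide +kernel))
    (by decide +kernel)

theorem t3k27_r1_r3 : NC (f1 t3c27 (1 - eh) ek eh (elo t3c27.B0 t3c27.Bh ek) (elo t3c27.D0 t3c27.Dh eh) (elo t3c27.E0 t3c27.Eh eh)) :=
  NC.of (K := 216) (D := ⟨16, 12, 1, 1⟩) (Box.of 4 (by decide +kernel))
    (by decide +kernel)

theorem t3k27_r1_r4 : NC (f1 t3c27 eh ek (1 - eh) (elo t3c27.B0 t3c27.Bh ek) (ehi t3c27.Dh t3c27.D1 (1 - eh)) (ehi t3c27.Eh t3c27.E1 (1 - eh))) :=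
  NC.of (K := 216) (D := ⟨16, 12, 1, 1⟩) (Box.of 4 (by decide +kernel))
    (by decide +kernel)

theorem t3k27_r2_r1 : NC (f2 t3c27 (1 - eh) eh ek (elo t3c27.B0 t3c27.Bh eh) (elo t3c27.D0 t3c27.Dh ek) (elo t3c27.E0 t3c27.Eh ek)) :=
  NC.of (K := 243) (D := ⟨16, 11, 1, 1⟩) (Box.of 288 (by decide +kernel))
    (by decide +kernel)

theorem t3k27_r2_r2 : NC (f2 t3c27 eh (1 - eh) ek (ehi t3c27.Bh t3c27.B1 (1 - eh)) (elo t3c27.D0 t3c27.Dh ek) (elo t3c27.E0 t3c27.Eh ek)) :=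
  NC.of (K := 216) (D := ⟨16, 11, 1, 1⟩) (Box.of 4 (by decide +kernel))
    (by decide +kernel)

theorem t3k27_r2_r3 : NC (f2 t3c27 (1 - eh) ek eh (elo t3c27.B0 t3c27.Bh ek) (elo t3c27.D0 t3c27.Dh eh) (elo t3c27.E0 t3c27.Eh eh)) :=
  NC.of (K := 244) (D := ⟨16, 12, 1, 1⟩) (Box.of 288 (by decide +kernel))
    (by decide +kernel)

theorem t3k27_r2_r4 : NC (f2 t3c27 eh ek (1 - eh) (elo t3c27.B0 t3c27.Bh ek) (ehi t3c27.Dh t3c27.D1 (1 - eh)) (ehi t3c27.Eh t3c27.E1 (1 - eh))) :=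
  NC.of (K := 218) (D := ⟨16, 12, 1, 1⟩) (Box.of 4 (by decide +kernel))
    (by decide +kernel)

theorem t3k27_rc_r1 : NC (fc t3c27 (1 - eh) eh ek (elo t3c27.B0 t3c27.Bh eh) (elo t3c27.D0 t3c27.Dh ek) (elo t3c27.E0 t3c27.Eh ek)) :=
  NC.of (K := 143) (D := ⟨13, 9, 1, 1⟩) (Box.of 4 (by decide +kernel))
    (by decide +kernel)

theorem t3k27_rc_r2 : NC (fc t3c27 eh (1 - eh) ek (ehi t3c27.Bh t3c27.B1 (1 - eh)) (elo t3c27.D0 t3c27.Dh ek) (elo t3c27.E0 t3c27.Eh ek)) :=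
  NC.of (K := 143) (D := ⟨13, 9, 1, 1⟩) (Box.of 4 (by decide +kernel))
    (by decide +kernel)

theorem t3k27_rc_r3 : NC (fc t3c27 (1 - eh) ek eh (elo t3c27.B0 t3c27.Bh ek) (elo t3c27.D0 t3c27.Dh eh) (elo t3c27.E0 t3c27.Eh eh)) :=
  NC.of (K := 138) (D := ⟨13, 5, 1, 1⟩) (Box.of 4 (by decide +kernel))
    (by decide +kernel)

theorem t3k27_rc_r4 : NC (fc t3c27 eh ek (1 - eh) (elo t3c27.B0 t3c27.Bh ek) (ehi t3c27.Dh t3c27.D1 (1 - eh)) (ehi t3c27.Eh t3c27.E1 (1 - eh))) :=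
  NC.of (K := 131) (D := ⟨13, 5, 1, 1⟩) (Box.of 4 (by decide +kernel))
    (by decide +kernel)

theorem t3k27_rI_r1 : NC (fI t3c27 (1 - eh) eh ek (elo t3c27.B0 t3c27.Bh eh) (elo t3c27.D0 t3c27.Dh ek) (elo t3c27.E0 t3c27.Eh ek)) :=
  NC.of (K := 127) (D := ⟨13, 9, 1, 1⟩) (Box.of 4 (by decide +kernel))
    (by decide +kernel)

theorem t3k27_rI_r2 : NC (fI t3c27 eh (1 - eh) ek (ehi t3c27.Bh t3c27.B1 (1 - eh)) (elo t3c27.D0 t3c27.Dh ek) (elo t3c27.E0 t3c27.Eh ek)) :=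
  NC.of (K := 127) (D := ⟨13, 9, 1, 1⟩) (Box.of 4 (by decide +kernel))
    (by decide +kernel)

theorem t3k27_rI_r3 : NC (fI t3c27 (1 - eh) ek eh (elo t3c27.B0 t3c27.Bh ek) (elo t3c27.D0 t3c27.Dh eh) (elo t3c27.E0 t3c27.Eh eh)) :=
  NC.of (K := 122) (D := ⟨13, 5, 1, 1⟩) (Box.of 4 (by decide +kernel))
    (by decide +kernel)

theorem t3k27_rI_r4 : NC (fI t3c27 eh ek (1 - eh) (elo t3c27.B0 t3c27.Bh ek) (ehi t3c27.Dh t3c27.D1 (1 - eh)) (ehi t3c27.Eh t3c27.E1 (1 - eh))) :=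
  NC.of (K := 115) (D := ⟨13, 5, 1, 1⟩) (Box.of 4 (by decide +kernel))
    (by decide +kernel)

theorem t3k27_rJ_r1 : NC (fJ t3c27 (1 - eh) eh ek (elo t3c27.B0 t3c27.Bh eh) (elo t3c27.D0 t3c27.Dh ek) (elo t3c27.E0 t3c27.Eh ek)) :=
  NC.of (K := 72) (D := ⟨7, 5, 1, 1⟩) (Box.of 4 (by decide +kernel))
    (by decide +kernel)

theorem t3k27_rJ_r2 : NC (fJ t3c27 eh (1 - eh) ek (ehi t3c27.Bh t3c27.B1 (1 - eh)) (elo t3c27.D0 t3c27.Dh ek) (elo t3c27.E0 t3c27.Eh ek)) :=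
  NC.of (K := 72) (D := ⟨7, 5, 1, 1⟩) (Box.of 4 (by decide +kernel))
    (by decide +kernel)

theorem t3k27_rJ_r3 : NC (fJ t3c27 (1 - eh) ek eh (elo t3c27.B0 t3c27.Bh ek) (elo t3c27.D0 t3c27.Dh eh) (elo t3c27.E0 t3c27.Eh eh)) :=
  NC.of (K := 69) (D := ⟨7, 3, 1, 1⟩) (Box.of 4 (by decide +kernel))
    (by decide +kernel)

theorem t3k27_rJ_r4 : NC (fJ t3c27 eh ek (1 - eh) (elo t3c27.B0 t3c27.Bh ek) (ehi t3c27.Dh t3c27.D1 (1 - eh)) (ehi t3c27.Eh t3c27.E1 (1 - eh))) :=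
  NC.of (K := 65) (D := ⟨7, 3, 1, 1⟩) (Box.of 4 (by decide +kernel))
    (by decide +kernel)

theorem t3k27_gE_r1 : NC (fE t3c27 t3e27 (1 - eh) eh ek (elo t3c27.B0 t3c27.Bh eh) (elo t3c27.D0 t3c27.Dh ek) (elo t3c27.E0 t3c27.Eh ek)) :=
  NC.of (K := 175) (D := ⟨13, 9, 1, 1⟩) (Box.of 18688 (by decide +kernel))
    (by decide +kernel)

theorem t3k27_gE_r2 : NC (fE t3c27 t3e27 eh (1 - eh) ek (ehi t3c27.Bh t3c27.B1 (1 - eh)) (elo t3c27.D0 t3c27.Dh ek) (elo t3c27.E0 t3c27.Eh ek)) :=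
  NC.of (K := 131) (D := ⟨13, 9, 1, 1⟩) (Box.of 4 (by decide +kernel))
    (by decide +kernel)

theorem t3k27_gE_r3 : NC (fE t3c27 t3e27 (1 - eh) ek eh (elo t3c27.B0 t3c27.Bh ek) (elo t3c27.D0 t3c27.Dh eh) (elo t3c27.E0 t3c27.Eh eh)) :=
  NC.of (K := 173) (D := ⟨13, 7, 1, 1⟩) (Box.of 18688 (by decide +kernel))
    (by decide +kernel)

theorem t3k27_gE_r4 : NC (fE t3c27 t3e27 eh ek (1 - eh) (elo t3c27.B0 t3c27.Bh ek) (ehi t3c27.Dh t3c27.D1 (1 - eh)) (ehi t3c27.Eh t3c27.E1 (1 - eh))) :=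
  NC.of (K := 121) (D := ⟨13, 7, 1, 1⟩) (Box.of 4 (by decide +kernel))
    (by decide +kernel)

theorem t3k27_B0 : NC (kB dW 1 0 t3c27.B0 (tcl t3c27)) :=
  NC.of (K := 102) (D := ⟨1, 1, 1, 9⟩) (Box.of 4 (by decide +kernel))
    (by decide +kernel)

theorem t3k27_E0 : NC (kE dW qW qW.p0 qW.q0 t3c27.E0 (tcl t3c27)) :=
  NC.of (K := 225) (D := ⟨1, 1, 1, 19⟩) (Box.of 4 (by decide +kernel))
    (by decide +kernel)

theorem t3k27_D0 : NC (kD dW qW 1 0 qW.p0 qW.q0 t3c27.D0 (tcl t3c27)) :=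
  NC.of (K := 343) (D := ⟨1, 1, 1, 20⟩) (Box.of 4 (by decide +kernel))
    (by decide +kernel)

theorem t3k27_Bh : NC (kB dW (1 / 2) (1 / 2) t3c27.Bh (tcl t3c27)) :=
  NC.of (K := 105) (D := ⟨1, 1, 1, 9⟩) (Box.of 4 (by decide +kernel))
    (by decide +kernel)

theorem t3k27_Eh : NC (kE dW qW qW.ph qW.qh t3c27.Eh (tcl t3c27)) :=
  NC.of (K := 229) (D := ⟨1, 1, 1, 19⟩) (Box.of 4 (by decide +kernel))
    (by decide +kernel)

theorem t3k27_Dh : NC (kD dW qW (1 / 2) (1 / 2) qW.ph qW.qh t3c27.Dh (tcl t3c27)) :=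
  NC.of (K := 347) (D := ⟨1, 1, 1, 20⟩) (Box.of 4 (by decide +kernel))
    (by decide +kernel)

theorem t3k27_B1 : NC (kB dW 0 (1 / 2) t3c27.B1 (tcl t3c27)) :=
  NC.of (K := 105) (D := ⟨1, 1, 1, 9⟩) (Box.of 4 (by decide +kernel))
    (by decide +kernel)

theorem t3k27_E1 : NC (kE dW qW qW.p1 qW.q1 t3c27.E1 (tcl t3c27)) :=
  NC.of (K := 229) (D := ⟨1, 1, 1, 19⟩) (Box.of 4 (by decide +kernel))
    (by decide +kernel)

theorem t3k27_D1 : NC (kD dW qW 0 (1 / 2) qW.p1 qW.q1 t3c27.D1 (tcl t3c27)) :=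
  NC.of (K := 347) (D := ⟨1, 1, 1, 20⟩) (Box.of 4 (by decide +kernel))
    (by decide +kernel)

theorem t3k27_l : NC (qc t3n27.lb - (1 - vX) * pe (exl t3c27.th) vX ^ 2) :=
  NC.of (K := 106) (D := ⟨10, 1, 1, 1⟩) (Box.of 4 (by decide +kernel))
    (by decide +kernel)

theorem t3k27_n : NC (qc t3n27.nb - vX * (1 - vX) * pe (exl t3c27.th) vX) :=
  NC.of (K := 106) (D := ⟨7, 1, 1, 1⟩) (Box.of 76677152 (by decide +kernel))
    (by decide +kernel)

theorem t3k27_rb : NC (krb t3n27 fW (t1v t3c27)) :=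
  NC.of (K := 150) (D := ⟨1, 1, 1, 16⟩) (Box.of 4 (by decide +kernel))
    (by decide +kernel)

theorem t3k27_kap : NC (kkap dW qW t3n27 (tcl t3c27)) :=
  NC.of (K := 102) (D := ⟨1, 1, 1, 9⟩) (Box.of 4 (by decide +kernel))
    (by decide +kernel)

theorem t3k27_wb2 : NC (qc t3n27.b2 - pe2 kW.QB (vZ * t1v t3c27) (t1v t3c27)) :=
  NC.of (K := 141) (D := ⟨1, 6, 1, 11⟩) (Box.of 18715 (by decide +kernel))
    (by decide +kernel)

theorem t3k27_wmb : NC (qc t3n27.Mb - pe zW.mb (t1v t3c27)) :=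
  NC.of (K := 96) (D := ⟨1, 1, 1, 9⟩) (Box.of 291 (by decide +kernel))
    (by decide +kernel)

theorem t3k27_wth : NC (qc (t3c27.th / t3c27.t1) - pe2 zW.Qt (vZ * t1v t3c27) (t1v t3c27)) :=
  NC.of (K := 123) (D := ⟨1, 6, 1, 11⟩) (Box.of 291 (by decide +kernel))
    (by decide +kernel)

theorem t3k27_wyb : NC (qc t3n27.Yb - (t1v t3c27 - vZ * t1v t3c27) ^ 3 * pe2 yW.QY (vZ * t1v t3c27) (t1v t3c27)) :=
  NC.of (K := 105) (D := ⟨1, 8, 1, 12⟩) (Box.of 4 (by decide +kernel))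
    (by decide +kernel)

theorem t3k27_wmu : NC (qc t3m27 - pe t3al (tcl t3c27) * (1 + hlf * tcl t3c27)) :=
  NC.of (K := 98) (D := ⟨1, 1, 1, 9⟩) (Box.of 4 (by decide +kernel))
    (by decide +kernel)

theorem t3k27_wcj : NC (qc t3c27.C * ((6 - 3 * vX) * (1 - qc t3m27 * vX)) - (6 - 6 * vX + vX ^ 2)) :=
  NC.of (K := 33) (D := ⟨3, 1, 1, 1⟩) (Box.of 4 (by decide +kernel))
    (by decide +kernel)

theorem t3k27_nd1 : NC (pe t3r27.d1 (t1v t3c27)) :=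
  NC.of (K := 56) (D := ⟨1, 1, 1, 7⟩) (Box.of 4 (by decide +kernel))
    (by decide +kernel)

theorem t3k27_nd2 : NC (pe t3r27.d2 (t1v t3c27)) :=
  NC.of (K := 58) (D := ⟨1, 1, 1, 7⟩) (Box.of 4 (by decide +kernel))
    (by decide +kernel)

theorem t3k27_ndy : NC (pe t3r27.dy (t1v t3c27)) :=
  NC.of (K := 61) (D := ⟨1, 1, 1, 7⟩) (Box.of 4 (by decide +kernel))
    (by decide +kernel)

theorem t3k27_nt1 : NC (pe t3r27.t1 (t1v t3c27)) :=
  NC.of (K := 60) (D := ⟨1, 1, 1, 7⟩) (Box.of 4 (by decide +kernel))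
    (by decide +kernel)

theorem t3k27_nt2 : NC (pe t3r27.t2 (t1v t3c27)) :=
  NC.of (K := 57) (D := ⟨1, 1, 1, 7⟩) (Box.of 4 (by decide +kernel))
    (by decide +kernel)

theorem t3k27_nty : NC (pe t3r27.ty (t1v t3c27)) :=
  NC.of (K := 64) (D := ⟨1, 1, 1, 7⟩) (Box.of 4 (by decide +kernel))
    (by decide +kernel)

theorem t3k27_nhz : NC (pe t3r27.hz (t1v t3c27)) :=
  NC.of (K := 91) (D := ⟨1, 1, 1, 7⟩) (Box.of 18659 (by decide +kernel))
    (by decide +kernel)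

theorem t3k27_xi : NC (eXi fW t3c27 t3e27 t3r27 (t1v t3c27)) :=
  NC.of (K := 256) (D := ⟨1, 1, 1, 22⟩) (Box.of 4 (by decide +kernel))
    (by decide +kernel)

theorem t3k27_om : NC (eOm fW t3r27 (t1v t3c27)) :=
  NC.of (K := 142) (D := ⟨1, 1, 1, 16⟩) (Box.of 4 (by decide +kernel))
    (by decide +kernel)

theorem t3k27_fin : NC (eFin dW t3c27 t3n27 t3r27 t3h27 (tcl t3c27)) :=
  NC.of (K := 222) (D := ⟨1, 1, 1, 14⟩) (Box.of 4 (by decide +kernel))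
    (by decide +kernel)

theorem t3k27_xdl : NC (qc t3e27.dl - pe t3d27.l.dl t3d27.eU) :=
  NC.of (K := 73) (D := ⟨1, 4, 1, 1⟩) (Box.of 4 (by decide +kernel))
    (by decide +kernel)

theorem t3k27_xeY : NC (qc t3e27.eY - pe (e4l t3d27.l.z) t3d27.eU) :=
  NC.of (K := 288) (D := ⟨1, 13, 1, 1⟩) (Box.of 4 (by decide +kernel))
    (by decide +kernel)

theorem t3k27_xgr : NC (qc t3d27.ga * ((1 + qc (3 / 5) * vX) * (1 + (t3d27.eg + hlf * t3d27.eg ^ 2))) + qc t3d27.gb - pe2 t3GR vX t3d27.eU) :=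
  NC.of (K := 262) (D := ⟨4, 11, 1, 1⟩) (Box.of 1196288 (by decide +kernel))
    (by decide +kernel)

theorem t3k27_xhr : NC (qc t3d27.hb - pe2 t3HR vX t3d27.eU) :=
  NC.of (K := 264) (D := ⟨3, 12, 1, 1⟩) (Box.of 4 (by decide +kernel))
    (by decide +kernel)

theorem t3k27_xgs : NC (pe t3d27.gs t3d27.e1 - qc (8 / 5) * pe (e4l (ladd t3d27.ls.z t3d27.ls.dl)) t3d27.e1) :=
  NC.of (K := 296) (D := ⟨1, 1, 1, 13⟩) (Box.of 4 (by decide +kernel))
    (by decide +kernel)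

theorem t3k27_xd1 : NC (pe t3d27.d1 t3d27.e1 - t3d27.eA t3d27.eU t3d27.e1) :=
  NC.of (K := 283) (D := ⟨1, 12, 1, 12⟩) (Box.of 4 (by decide +kernel))
    (by decide +kernel)

theorem t3k27_xd2 : NC (pe t3d27.d2 t3d27.e1 - t3d27.eB t3d27.eU t3d27.e1) :=
  NC.of (K := 289) (D := ⟨1, 12, 1, 12⟩) (Box.of 4 (by decide +kernel))
    (by decide +kernel)

theorem t3k27_xt1 : NC (pe t3d27.t1 t3d27.e1 - t3d27.eAT t3d27.eU t3d27.e1) :=
  NC.of (K := 473) (D := ⟨1, 19, 1, 19⟩) (Box.of 4 (by decide +kernel))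
    (by decide +kernel)

theorem t3k27_xt2 : NC (pe t3d27.t2 t3d27.e1 - t3d27.eBT t3d27.eU t3d27.e1) :=
  NC.of (K := 473) (D := ⟨1, 19, 1, 19⟩) (Box.of 4 (by decide +kernel))
    (by decide +kernel)

theorem t3k27_xdy : NC (pe t3d27.dy t3d27.e1 - t3d27.eSD t3d27.eU t3d27.e1) :=
  NC.of (K := 441) (D := ⟨1, 18, 1, 12⟩) (Box.of 4 (by decide +kernel))
    (by decide +kernel)

theorem t3k27_xty : NC (pe t3d27.ty t3d27.e1 - t3d27.eST t3d27.eU t3d27.e1) :=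
  NC.of (K := 663) (D := ⟨1, 26, 1, 26⟩) (Box.of 4 (by decide +kernel))
    (by decide +kernel)

theorem t3k27_xd1s : NC (pe t3r27.d1 (t1v t3c27) - pe t3d27.d1 (Xcd.ew zW t3c27)) :=
  NC.of (K := 524) (D := ⟨1, 1, 1, 55⟩) (Box.of 4 (by decide +kernel))
    (by decide +kernel)

theorem t3k27_xd2s : NC (pe t3r27.d2 (t1v t3c27) - pe t3d27.d2 (Xcd.ew zW t3c27)) :=
  NC.of (K := 523) (D := ⟨1, 1, 1, 55⟩) (Box.of 4 (by decide +kernel))
    (by decide +kernel)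

theorem t3k27_xt1s : NC (pe t3r27.t1 (t1v t3c27) - pe t3d27.t1 (Xcd.ew zW t3c27)) :=
  NC.of (K := 528) (D := ⟨1, 1, 1, 55⟩) (Box.of 4 (by decide +kernel))
    (by decide +kernel)

theorem t3k27_xt2s : NC (pe t3r27.t2 (t1v t3c27) - pe t3d27.t2 (Xcd.ew zW t3c27)) :=
  NC.of (K := 527) (D := ⟨1, 1, 1, 55⟩) (Box.of 4 (by decide +kernel))
    (by decide +kernel)

theorem t3k27_xdys : NC (pe t3r27.dy (t1v t3c27) - pe t3d27.dy (Xcd.ew zW t3c27)) :=
  NC.of (K := 527) (D := ⟨1, 1, 1, 55⟩) (Box.of 4 (by decide +kernel))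
    (by decide +kernel)

theorem t3k27_xtys : NC (pe t3r27.ty (t1v t3c27) - pe t3d27.ty (Xcd.ew zW t3c27)) :=
  NC.of (K := 531) (D := ⟨1, 1, 1, 55⟩) (Box.of 4 (by decide +kernel))
    (by decide +kernel)

theorem t3k27_xhz : NC (pe t3r27.hz (t1v t3c27) - pe t3d27.c.dR (Xcd.ew zW t3c27)) :=
  NC.of (K := 533) (D := ⟨1, 1, 1, 55⟩) (Box.of 4 (by decide +kernel))
    (by decide +kernel)

theorem t3f27_ok : t3f27.ok V2L.y12 V2L.k12 V2L.nb V2L.la (10 ^ 30) 32 = true := by decide +kernel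

theorem t3k27_sg : t3c27.Sg := by
  constructor <;> decide +kernel

theorem t3k27_rgs : t3c27.Rgs where
  M := ⟨t3k27_M_r1, t3k27_M_r2, t3k27_M_r3, t3k27_M_r4⟩
  r0 := ⟨t3k27_r0_r1, t3k27_r0_r2, t3k27_r0_r3, t3k27_r0_r4⟩
  r1 := ⟨t3k27_r1_r1, t3k27_r1_r2, t3k27_r1_r3, t3k27_r1_r4⟩
  r2 := ⟨t3k27_r2_r1, t3k27_r2_r2, t3k27_r2_r3, t3k27_r2_r4⟩
  rc := ⟨t3k27_rc_r1, t3k27_rc_r2, t3k27_rc_r3, t3k27_rc_r4⟩
  rI := ⟨t3k27_rI_r1, t3k27_rI_r2, t3k27_rI_r3, t3k27_rI_r4⟩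
  rJ := ⟨t3k27_rJ_r1, t3k27_rJ_r2, t3k27_rJ_r3, t3k27_rJ_r4⟩

theorem t3k27_xn : t3e27.Ok t3c27 where
  lm := by decide +kernel
  dl0 := by decide +kernel
  dl1 := by decide +kernel
  e2 := by decide +kernel
  eY := by decide +kernel
  gE := ⟨t3k27_gE_r1, t3k27_gE_r2, t3k27_gE_r3, t3k27_gE_r4⟩

theorem t3k27_vl : t3c27.Vl dW qW where
  bt := by decide +kernel
  B0 := t3k27_B0
  E0 := t3k27_E0
  D0 := t3k27_D0
  Bh := t3k27_Bh
  Eh := t3k27_Eh
  Dh := t3k27_Dh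
  B1 := t3k27_B1
  E1 := t3k27_E1
  D1 := t3k27_D1

theorem t3k27_rat : t3n27.Rat t3c27 := by
  constructor <;> decide +kernel

theorem t3k27_ck : t3n27.Ck t3c27 := ⟨t3k27_l, t3k27_n⟩

theorem t3k27_fck : t3n27.Fck dW qW fW t3c27 := ⟨t3k27_rb, t3k27_kap⟩

theorem t3k27_w : Wcl zW kW yW t3al t3c27 t3n27 t3m27 where
  b2 := t3k27_wb2
  mb := t3k27_wmb
  th := t3k27_wth
  yb := t3k27_wyb
  mu := t3k27_wmu
  cj := t3k27_wcj
  mt1 := by decide +kernel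
  mt2 := by decide +kernel

theorem t3k27_ok : CelOk dW qW fW t3c27 t3n27 where
  s := t3k27_sg
  r := t3k27_rgs
  v := t3k27_vl
  rt := t3k27_rat
  k := t3k27_ck
  fc := t3k27_fck
  q01 := by decide +kernel
  q12 := by decide +kernel
  h2 := by decide +kernel

theorem t3k27_xr : t3r27.Ok fW t3c27 t3e27 where
  sD := by decide +kernel
  sT := by decide +kernel
  nd1 := t3k27_nd1
  nd2 := t3k27_nd2
  ndy := t3k27_ndy
  nt1 := t3k27_nt1
  nt2 := t3k27_nt2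
  nty := t3k27_nty
  nhz := t3k27_nhz
  xi := t3k27_xi
  om := t3k27_om

theorem t3k27_X : t3d27.Ck t3GR t3HR zW t3c27 t3e27 t3r27 where
  u0 := by decide +kernel
  u01 := by decide +kernel
  ul := by decide +kernel
  us := by decide +kernel
  uc := by decide +kernel
  ga0 := by decide +kernel
  kp0 := by decide +kernel
  lm := by decide +kernel
  dl := t3k27_xdl
  eY := t3k27_xeY
  gr := t3k27_xgr
  hr := t3k27_xhr
  gs := t3k27_xgs
  d1 := t3k27_xd1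
  d2 := t3k27_xd2
  t1 := t3k27_xt1
  t2 := t3k27_xt2
  dy := t3k27_xdy
  ty := t3k27_xty
  d1s := t3k27_xd1s
  d2s := t3k27_xd2s
  t1s := t3k27_xt1s
  t2s := t3k27_xt2s
  dys := t3k27_xdys
  tys := t3k27_xtys
  hz := t3k27_xhz

end Pool.Agent.RX.RCN.K
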