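import Pool.Agent.RX.RCN.T3D
import Pool.Agent.RX.RCN.T3Wq
import Pool.Agent.RX.RCN.T3X20
import Pool.Agent.RX.RCN.VLd

/-! Certificates (generated). -/

set_option autoImplicit false

namespace Pool.Agent.RX.RCN.K

open Set Pool.Agent.RX.RCM9 Pool.Agent.RX.RCM9.Bern Pool.Agent.RX.RCM9.Pk Xce

def t3c40 : Cel where
  t0 := 51 / 100
  t1 := 103 / 200
  C := 4097 / 4096
  th := 2163 / 4096
  B0 := 2103 / 2048
  Bh := 2441 / 2048
  B1 := 1207 / 1024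
  D0 := 777 / 2048
  Dh := 1323 / 4096
  D1 := 1269 / 4096
  E0 := 909 / 65536
  Eh := 25 / 2048
  E1 := 3 / 256
  Q0 := 527 / 512
  Q1 := 531 / 512
  Q2 := 147 / 128
  Ac := 1061 / 1024
  gI := 1061 / 1024
  J := 1681 / 65536

def t3n40 : Chn where
  lb := 1027 / 1024
  nb := 85 / 256
  Mb := 525 / 512
  b2 := 1055 / 1024
  Yb := 71 / 4096
  E2 := 4241 / 4096
  e1 := 1385 / 1024
  Z1 := 277 / 256
  Z2 := 643 / 1024
  KB := 1079 / 1024
  cb := 1099 / 1024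
  rb := 433 / 1024
  om := 263 / 256
  fb := 129 / 128
  kap := 1059 / 1024
  ab := 1029 / 1024

def t3e40 : Xge where
  lm := 3 / 5
  dl := 1 / 2
  e2 := 2443 / 16384
  eY := 1043 / 1024
  gE := 1205 / 1024

def t3r40 : Xr where
  d1 := [4019879 / 100000000, 937871 / 100000000, 3975401 / 100000000, 3526947 / 100000000,
    7732441 / 100000000, -2106783 / 12500000, 1882559 / 10000000]
  d2 := [966411 / 100000000, 128311 / 2500000, 3000533 / 50000000, 2428373 / 6250000, -50580627 /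
    100000000, 15374809 / 50000000, 5136813 / 100000000]
  dy := [15078037 / 25000000, 712529 / 3125000, 9783697 / 25000000, 55449819 / 25000000,
    -168738449 / 50000000, 212007677 / 100000000, 4522179 / 100000000]
  t1 := [19661981 / 100000000, -47810973 / 100000000, 1026639 / 10000000, 85418533 / 100000000,
    -9229953 / 25000000, -46765063 / 50000000, 155825221 / 100000000]
  t2 := [1559141 / 20000000, -588829 / 4000000, 105407 / 100000000, 17849709 / 20000000, -20250283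
    / 25000000, 31895883 / 100000000, 14448487 / 100000000]
  ty := [106086711 / 50000000, -506382081 / 100000000, -91059869 / 50000000, 1547880963 /
    50000000, -4093099119 / 100000000, 253988757 / 20000000, 87124331 / 12500000]
  hz := [5508837 / 25000000, -1536933 / 3125000, 6340229 / 25000000, -451822591 / 50000000,
    1568023711 / 50000000, -535634551 / 20000000, -169407351 / 100000000]
  om := [20079341 / 20000000, 51481647 / 50000000, -710000739 / 50000000, 1221077033 / 20000000,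
    -9125551929 / 50000000, 26517172931 / 50000000, -119238991651 / 100000000, 610232224 /
    390625, -17473119181 / 20000000]
  sD := 683 / 256
  sT := 613 / 256
  xi := [5084291 / 25000000, 24913293 / 20000000, -253369919 / 50000000, 57601743 / 12500000,
    100312929 / 5000000, -727808823 / 6250000, 4769373137 / 10000000, -14731011261 / 12500000,
    154569336109 / 100000000, -10599978017 / 12500000]

def t3f40 : Dl where
  Ca := 5127437 / 10000000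
  Cv := 517867 / 1000000
  k1 := 8912143 / 10000000
  ks := 43567 / 50000
  dd := 3 / 100000
  kp := 301 / 10000000
  e := [999999694873 / 1000000000000, -180860088019 / 125000000000, 407582091181 / 250000000000,
    -1635942504863 / 1000000000000, 1544520343297 / 1000000000000, -671027593873 / 500000000000,
    502680866447 / 500000000000, -552805825351 / 1000000000000, 156918174583 / 1000000000000]
  j1 := [355307 / 500000000, -1709821701 / 250000000, 6689203827 / 100000000, -9617859767 /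
    31250000, 825530951337 / 1000000000, -1306228257491 / 1000000000, 223920886139 / 200000000,
    -390747936237 / 1000000000]
  nu := [68852133 / 500000000, -258991761 / 1000000000, 92357043 / 250000000, 33777899 /
    500000000, -192013327 / 1000000000, 694545567 / 1000000000, -442491201 / 1000000000]
  k2 := [217835383 / 250000000, 4515257 / 20000000, -29248773 / 100000000, -73330783 / 500000000,
    15595669 / 62500000, -174287101 / 250000000, 488866467 / 1000000000]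
  dR := [21991361 / 100000000, -12297007 / 25000000, 14506649 / 50000000, -116124953 / 12500000,
    201965373 / 6250000, -2881226839 / 100000000]

def t3d40 : Xce where
  u0 := 256627 / 500000
  u1 := 517867 / 1000000
  l := V2L.y20
  y := t3z20
  j := t3j20
  i := t3i20
  ls := t3y20
  k := V2L.k20
  c := t3f40
  ga := 5013 / 125000
  gb := -417 / 25000
  hb := 10129 / 40000
  gs := [32000691 / 20000000, 9599987 / 4000000, 90004899 / 50000000, 79489823 / 100000000,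
    27170217 / 100000000, -3309457 / 25000000, -512413 / 10000000]
  d1 := [1004179 / 25000000, 11509 / 1250000, 1041999 / 25000000, 32111 / 1250000, 298541 /
    4000000, -34397 / 390625, 7425431 / 100000000]
  d2 := [962331 / 100000000, 5068847 / 100000000, 6806019 / 100000000, 33565589 / 100000000,
    -40188621 / 100000000, 15805413 / 50000000, -10680687 / 100000000]
  dy := [3766487 / 6250000, 11239661 / 50000000, 4345353 / 10000000, 38343543 / 20000000,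
    -33750499 / 12500000, 187207659 / 100000000, -10741159 / 20000000]
  t1 := [3930253 / 20000000, -11897423 / 25000000, 1673111 / 20000000, 101323069 / 100000000,
    -26401709 / 25000000, 40859773 / 100000000, 28344297 / 50000000]
  t2 := [7791623 / 100000000, -3674653 / 25000000, 70827 / 25000000, 44812299 / 50000000, -3811239
    / 4000000, 19839723 / 25000000, -33732087 / 100000000]
  ty := [212063617 / 100000000, -504465301 / 100000000, -95025547 / 50000000, 630292519 /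
    20000000, -2202104721 / 50000000, 123571761 / 6250000, 129529491 / 100000000]

def t3m40 : ℚ := 2027 / 4096

def t3h40 : ℚ := 66 / 125

theorem t3k40_M_r1 : NC (fM t3c40 (1 - eh) eh ek (elo t3c40.B0 t3c40.Bh eh) (elo t3c40.D0 t3c40.Dh ek) (elo t3c40.E0 t3c40.Eh ek)) :=
  NC.of (K := 33) (D := ⟨4, 3, 1, 1⟩) (Box.of 4 (by decide +kernel))
    (by decide +kernel)

theorem t3k40_M_r2 : NC (fM t3c40 eh (1 - eh) ek (ehi t3c40.Bh t3c40.B1 (1 - eh)) (elo t3c40.D0 t3c40.Dh ek) (elo t3c40.E0 t3c40.Eh ek)) :=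
  NC.of (K := 33) (D := ⟨4, 3, 1, 1⟩) (Box.of 4 (by decide +kernel))
    (by decide +kernel)

theorem t3k40_M_r3 : NC (fM t3c40 (1 - eh) ek eh (elo t3c40.B0 t3c40.Bh ek) (elo t3c40.D0 t3c40.Dh eh) (elo t3c40.E0 t3c40.Eh eh)) :=
  NC.of (K := 32) (D := ⟨4, 2, 1, 1⟩) (Box.of 4 (by decide +kernel))
    (by decide +kernel)

theorem t3k40_M_r4 : NC (fM t3c40 eh ek (1 - eh) (elo t3c40.B0 t3c40.Bh ek) (ehi t3c40.Dh t3c40.D1 (1 - eh)) (ehi t3c40.Eh t3c40.E1 (1 - eh))) :=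
  NC.of (K := 31) (D := ⟨4, 2, 1, 1⟩) (Box.of 4 (by decide +kernel))
    (by decide +kernel)

theorem t3k40_r0_r1 : NC (f0 t3c40 (1 - eh) eh ek (elo t3c40.B0 t3c40.Bh eh) (elo t3c40.D0 t3c40.Dh ek) (elo t3c40.E0 t3c40.Eh ek)) :=
  NC.of (K := 155) (D := ⟨13, 9, 1, 1⟩) (Box.of 4 (by decide +kernel))
    (by decide +kernel)

theorem t3k40_r0_r2 : NC (f0 t3c40 eh (1 - eh) ek (ehi t3c40.Bh t3c40.B1 (1 - eh)) (elo t3c40.D0 t3c40.Dh ek) (elo t3c40.E0 t3c40.Eh ek)) :=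
  NC.of (K := 155) (D := ⟨13, 9, 1, 1⟩) (Box.of 4 (by decide +kernel))
    (by decide +kernel)

theorem t3k40_r0_r3 : NC (f0 t3c40 (1 - eh) ek eh (elo t3c40.B0 t3c40.Bh ek) (elo t3c40.D0 t3c40.Dh eh) (elo t3c40.E0 t3c40.Eh eh)) :=
  NC.of (K := 150) (D := ⟨13, 5, 1, 1⟩) (Box.of 4 (by decide +kernel))
    (by decide +kernel)

theorem t3k40_r0_r4 : NC (f0 t3c40 eh ek (1 - eh) (elo t3c40.B0 t3c40.Bh ek) (ehi t3c40.Dh t3c40.D1 (1 - eh)) (ehi t3c40.Eh t3c40.E1 (1 - eh))) :=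
  NC.of (K := 147) (D := ⟨13, 5, 1, 1⟩) (Box.of 4 (by decide +kernel))
    (by decide +kernel)

theorem t3k40_r1_r1 : NC (f1 t3c40 (1 - eh) eh ek (elo t3c40.B0 t3c40.Bh eh) (elo t3c40.D0 t3c40.Dh ek) (elo t3c40.E0 t3c40.Eh ek)) :=
  NC.of (K := 261) (D := ⟨16, 9, 1, 1⟩) (Box.of 288 (by decide +kernel))
    (by decide +kernel)

theorem t3k40_r1_r2 : NC (f1 t3c40 eh (1 - eh) ek (ehi t3c40.Bh t3c40.B1 (1 - eh)) (elo t3c40.D0 t3c40.Dh ek) (elo t3c40.E0 t3c40.Eh ek)) :=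
  NC.of (K := 237) (D := ⟨16, 9, 1, 1⟩) (Box.of 4 (by decide +kernel))
    (by decide +kernel)

theorem t3k40_r1_r3 : NC (f1 t3c40 (1 - eh) ek eh (elo t3c40.B0 t3c40.Bh ek) (elo t3c40.D0 t3c40.Dh eh) (elo t3c40.E0 t3c40.Eh eh)) :=
  NC.of (K := 265) (D := ⟨16, 12, 1, 1⟩) (Box.of 288 (by decide +kernel))
    (by decide +kernel)

theorem t3k40_r1_r4 : NC (f1 t3c40 eh ek (1 - eh) (elo t3c40.B0 t3c40.Bh ek) (ehi t3c40.Dh t3c40.D1 (1 - eh)) (ehi t3c40.Eh t3c40.E1 (1 - eh))) :=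
  NC.of (K := 238) (D := ⟨16, 12, 1, 1⟩) (Box.of 4 (by decide +kernel))
    (by decide +kernel)

theorem t3k40_r2_r1 : NC (f2 t3c40 (1 - eh) eh ek (elo t3c40.B0 t3c40.Bh eh) (elo t3c40.D0 t3c40.Dh ek) (elo t3c40.E0 t3c40.Eh ek)) :=
  NC.of (K := 264) (D := ⟨16, 11, 1, 1⟩) (Box.of 288 (by decide +kernel))
    (by decide +kernel)

theorem t3k40_r2_r2 : NC (f2 t3c40 eh (1 - eh) ek (ehi t3c40.Bh t3c40.B1 (1 - eh)) (elo t3c40.D0 t3c40.Dh ek) (elo t3c40.E0 t3c40.Eh ek)) :=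
  NC.of (K := 240) (D := ⟨16, 11, 1, 1⟩) (Box.of 4 (by decide +kernel))
    (by decide +kernel)

theorem t3k40_r2_r3 : NC (f2 t3c40 (1 - eh) ek eh (elo t3c40.B0 t3c40.Bh ek) (elo t3c40.D0 t3c40.Dh eh) (elo t3c40.E0 t3c40.Eh eh)) :=
  NC.of (K := 266) (D := ⟨16, 12, 1, 1⟩) (Box.of 288 (by decide +kernel))
    (by decide +kernel)

theorem t3k40_r2_r4 : NC (f2 t3c40 eh ek (1 - eh) (elo t3c40.B0 t3c40.Bh ek) (ehi t3c40.Dh t3c40.D1 (1 - eh)) (ehi t3c40.Eh t3c40.E1 (1 - eh))) :=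
  NC.of (K := 240) (D := ⟨16, 12, 1, 1⟩) (Box.of 4 (by decide +kernel))
    (by decide +kernel)

theorem t3k40_rc_r1 : NC (fc t3c40 (1 - eh) eh ek (elo t3c40.B0 t3c40.Bh eh) (elo t3c40.D0 t3c40.Dh ek) (elo t3c40.E0 t3c40.Eh ek)) :=
  NC.of (K := 179) (D := ⟨13, 9, 1, 1⟩) (Box.of 288 (by decide +kernel))
    (by decide +kernel)

theorem t3k40_rc_r2 : NC (fc t3c40 eh (1 - eh) ek (ehi t3c40.Bh t3c40.B1 (1 - eh)) (elo t3c40.D0 t3c40.Dh ek) (elo t3c40.E0 t3c40.Eh ek)) :=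
  NC.of (K := 156) (D := ⟨13, 9, 1, 1⟩) (Box.of 4 (by decide +kernel))
    (by decide +kernel)

theorem t3k40_rc_r3 : NC (fc t3c40 (1 - eh) ek eh (elo t3c40.B0 t3c40.Bh ek) (elo t3c40.D0 t3c40.Dh eh) (elo t3c40.E0 t3c40.Eh eh)) :=
  NC.of (K := 174) (D := ⟨13, 5, 1, 1⟩) (Box.of 288 (by decide +kernel))
    (by decide +kernel)

theorem t3k40_rc_r4 : NC (fc t3c40 eh ek (1 - eh) (elo t3c40.B0 t3c40.Bh ek) (ehi t3c40.Dh t3c40.D1 (1 - eh)) (ehi t3c40.Eh t3c40.E1 (1 - eh))) :=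
  NC.of (K := 149) (D := ⟨13, 5, 1, 1⟩) (Box.of 4 (by decide +kernel))
    (by decide +kernel)

theorem t3k40_rI_r1 : NC (fI t3c40 (1 - eh) eh ek (elo t3c40.B0 t3c40.Bh eh) (elo t3c40.D0 t3c40.Dh ek) (elo t3c40.E0 t3c40.Eh ek)) :=
  NC.of (K := 142) (D := ⟨13, 9, 1, 1⟩) (Box.of 4 (by decide +kernel))
    (by decide +kernel)

theorem t3k40_rI_r2 : NC (fI t3c40 eh (1 - eh) ek (ehi t3c40.Bh t3c40.B1 (1 - eh)) (elo t3c40.D0 t3c40.Dh ek) (elo t3c40.E0 t3c40.Eh ek)) :=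
  NC.of (K := 142) (D := ⟨13, 9, 1, 1⟩) (Box.of 4 (by decide +kernel))
    (by decide +kernel)

theorem t3k40_rI_r3 : NC (fI t3c40 (1 - eh) ek eh (elo t3c40.B0 t3c40.Bh ek) (elo t3c40.D0 t3c40.Dh eh) (elo t3c40.E0 t3c40.Eh eh)) :=
  NC.of (K := 160) (D := ⟨13, 5, 1, 1⟩) (Box.of 288 (by decide +kernel))
    (by decide +kernel)

theorem t3k40_rI_r4 : NC (fI t3c40 eh ek (1 - eh) (elo t3c40.B0 t3c40.Bh ek) (ehi t3c40.Dh t3c40.D1 (1 - eh)) (ehi t3c40.Eh t3c40.E1 (1 - eh))) :=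
  NC.of (K := 135) (D := ⟨13, 5, 1, 1⟩) (Box.of 4 (by decide +kernel))
    (by decide +kernel)

theorem t3k40_rJ_r1 : NC (fJ t3c40 (1 - eh) eh ek (elo t3c40.B0 t3c40.Bh eh) (elo t3c40.D0 t3c40.Dh ek) (elo t3c40.E0 t3c40.Eh ek)) :=
  NC.of (K := 81) (D := ⟨7, 5, 1, 1⟩) (Box.of 4 (by decide +kernel))
    (by decide +kernel)

theorem t3k40_rJ_r2 : NC (fJ t3c40 eh (1 - eh) ek (ehi t3c40.Bh t3c40.B1 (1 - eh)) (elo t3c40.D0 t3c40.Dh ek) (elo t3c40.E0 t3c40.Eh ek)) :=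
  NC.of (K := 81) (D := ⟨7, 5, 1, 1⟩) (Box.of 4 (by decide +kernel))
    (by decide +kernel)

theorem t3k40_rJ_r3 : NC (fJ t3c40 (1 - eh) ek eh (elo t3c40.B0 t3c40.Bh ek) (elo t3c40.D0 t3c40.Dh eh) (elo t3c40.E0 t3c40.Eh eh)) :=
  NC.of (K := 79) (D := ⟨7, 3, 1, 1⟩) (Box.of 4 (by decide +kernel))
    (by decide +kernel)

theorem t3k40_rJ_r4 : NC (fJ t3c40 eh ek (1 - eh) (elo t3c40.B0 t3c40.Bh ek) (ehi t3c40.Dh t3c40.D1 (1 - eh)) (ehi t3c40.Eh t3c40.E1 (1 - eh))) :=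
  NC.of (K := 77) (D := ⟨7, 3, 1, 1⟩) (Box.of 4 (by decide +kernel))
    (by decide +kernel)

theorem t3k40_gE_r1 : NC (fE t3c40 t3e40 (1 - eh) eh ek (elo t3c40.B0 t3c40.Bh eh) (elo t3c40.D0 t3c40.Dh ek) (elo t3c40.E0 t3c40.Eh ek)) :=
  NC.of (K := 188) (D := ⟨13, 9, 1, 1⟩) (Box.of 18688 (by decide +kernel))
    (by decide +kernel)

theorem t3k40_gE_r2 : NC (fE t3c40 t3e40 eh (1 - eh) ek (ehi t3c40.Bh t3c40.B1 (1 - eh)) (elo t3c40.D0 t3c40.Dh ek) (elo t3c40.E0 t3c40.Eh ek)) :=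
  NC.of (K := 144) (D := ⟨13, 9, 1, 1⟩) (Box.of 4 (by decide +kernel))
    (by decide +kernel)

theorem t3k40_gE_r3 : NC (fE t3c40 t3e40 (1 - eh) ek eh (elo t3c40.B0 t3c40.Bh ek) (elo t3c40.D0 t3c40.Dh eh) (elo t3c40.E0 t3c40.Eh eh)) :=
  NC.of (K := 186) (D := ⟨13, 7, 1, 1⟩) (Box.of 18688 (by decide +kernel))
    (by decide +kernel)

theorem t3k40_gE_r4 : NC (fE t3c40 t3e40 eh ek (1 - eh) (elo t3c40.B0 t3c40.Bh ek) (ehi t3c40.Dh t3c40.D1 (1 - eh)) (ehi t3c40.Eh t3c40.E1 (1 - eh))) :=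
  NC.of (K := 139) (D := ⟨13, 7, 1, 1⟩) (Box.of 4 (by decide +kernel))
    (by decide +kernel)

theorem t3k40_B0 : NC (kB dW 1 0 t3c40.B0 (tcl t3c40)) :=
  NC.of (K := 102) (D := ⟨1, 1, 1, 9⟩) (Box.of 4 (by decide +kernel))
    (by decide +kernel)

theorem t3k40_E0 : NC (kE dW qW qW.p0 qW.q0 t3c40.E0 (tcl t3c40)) :=
  NC.of (K := 226) (D := ⟨1, 1, 1, 19⟩) (Box.of 4 (by decide +kernel))
    (by decide +kernel)

theorem t3k40_D0 : NC (kD dW qW 1 0 qW.p0 qW.q0 t3c40.D0 (tcl t3c40)) :=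
  NC.of (K := 344) (D := ⟨1, 1, 1, 20⟩) (Box.of 4 (by decide +kernel))
    (by decide +kernel)

theorem t3k40_Bh : NC (kB dW (1 / 2) (1 / 2) t3c40.Bh (tcl t3c40)) :=
  NC.of (K := 106) (D := ⟨1, 1, 1, 9⟩) (Box.of 4 (by decide +kernel))
    (by decide +kernel)

theorem t3k40_Eh : NC (kE dW qW qW.ph qW.qh t3c40.Eh (tcl t3c40)) :=
  NC.of (K := 230) (D := ⟨1, 1, 1, 19⟩) (Box.of 4 (by decide +kernel))
    (by decide +kernel)

theorem t3k40_Dh : NC (kD dW qW (1 / 2) (1 / 2) qW.ph qW.qh t3c40.Dh (tcl t3c40)) :=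
  NC.of (K := 348) (D := ⟨1, 1, 1, 20⟩) (Box.of 4 (by decide +kernel))
    (by decide +kernel)

theorem t3k40_B1 : NC (kB dW 0 (1 / 2) t3c40.B1 (tcl t3c40)) :=
  NC.of (K := 106) (D := ⟨1, 1, 1, 9⟩) (Box.of 4 (by decide +kernel))
    (by decide +kernel)

theorem t3k40_E1 : NC (kE dW qW qW.p1 qW.q1 t3c40.E1 (tcl t3c40)) :=
  NC.of (K := 230) (D := ⟨1, 1, 1, 19⟩) (Box.of 4 (by decide +kernel))
    (by decide +kernel)

theorem t3k40_D1 : NC (kD dW qW 0 (1 / 2) qW.p1 qW.q1 t3c40.D1 (tcl t3c40)) :=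
  NC.of (K := 348) (D := ⟨1, 1, 1, 20⟩) (Box.of 4 (by decide +kernel))
    (by decide +kernel)

theorem t3k40_l : NC (qc t3n40.lb - (1 - vX) * pe (exl t3c40.th) vX ^ 2) :=
  NC.of (K := 158) (D := ⟨10, 1, 1, 1⟩) (Box.of 18688 (by decide +kernel))
    (by decide +kernel)

theorem t3k40_n : NC (qc t3n40.nb - vX * (1 - vX) * pe (exl t3c40.th) vX) :=
  NC.of (K := 114) (D := ⟨7, 1, 1, 1⟩) (Box.of 76677152 (by decide +kernel))
    (by decide +kernel)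

theorem t3k40_rb : NC (krb t3n40 fW (t1v t3c40)) :=
  NC.of (K := 203) (D := ⟨1, 1, 1, 16⟩) (Box.of 4 (by decide +kernel))
    (by decide +kernel)

theorem t3k40_kap : NC (kkap dW qW t3n40 (tcl t3c40)) :=
  NC.of (K := 102) (D := ⟨1, 1, 1, 9⟩) (Box.of 4 (by decide +kernel))
    (by decide +kernel)

theorem t3k40_wb2 : NC (qc t3n40.b2 - pe2 kW.QB (vZ * t1v t3c40) (t1v t3c40)) :=
  NC.of (K := 177) (D := ⟨1, 6, 1, 11⟩) (Box.of 1186017 (by decide +kernel))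
    (by decide +kernel)

theorem t3k40_wmb : NC (qc t3n40.Mb - pe zW.mb (t1v t3c40)) :=
  NC.of (K := 139) (D := ⟨1, 1, 1, 9⟩) (Box.of 18659 (by decide +kernel))
    (by decide +kernel)

theorem t3k40_wth : NC (qc (t3c40.th / t3c40.t1) - pe2 zW.Qt (vZ * t1v t3c40) (t1v t3c40)) :=
  NC.of (K := 175) (D := ⟨1, 6, 1, 11⟩) (Box.of 18659 (by decide +kernel))
    (by decide +kernel)

theorem t3k40_wyb : NC (qc t3n40.Yb - (t1v t3c40 - vZ * t1v t3c40) ^ 3 * pe2 yW.QY (vZ * t1v t3c40) (t1v t3c40)) :=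
  NC.of (K := 143) (D := ⟨1, 8, 1, 12⟩) (Box.of 4 (by decide +kernel))
    (by decide +kernel)

theorem t3k40_wmu : NC (qc t3m40 - pe t3al (tcl t3c40) * (1 + hlf * tcl t3c40)) :=
  NC.of (K := 99) (D := ⟨1, 1, 1, 9⟩) (Box.of 4 (by decide +kernel))
    (by decide +kernel)

theorem t3k40_wcj : NC (qc t3c40.C * ((6 - 3 * vX) * (1 - qc t3m40 * vX)) - (6 - 6 * vX + vX ^ 2)) :=
  NC.of (K := 34) (D := ⟨3, 1, 1, 1⟩) (Box.of 4 (by decide +kernel))
    (by decide +kernel)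

theorem t3k40_nd1 : NC (pe t3r40.d1 (t1v t3c40)) :=
  NC.of (K := 76) (D := ⟨1, 1, 1, 7⟩) (Box.of 4 (by decide +kernel))
    (by decide +kernel)

theorem t3k40_nd2 : NC (pe t3r40.d2 (t1v t3c40)) :=
  NC.of (K := 80) (D := ⟨1, 1, 1, 7⟩) (Box.of 4 (by decide +kernel))
    (by decide +kernel)

theorem t3k40_ndy : NC (pe t3r40.dy (t1v t3c40)) :=
  NC.of (K := 83) (D := ⟨1, 1, 1, 7⟩) (Box.of 4 (by decide +kernel))
    (by decide +kernel)

theorem t3k40_nt1 : NC (pe t3r40.t1 (t1v t3c40)) :=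
  NC.of (K := 82) (D := ⟨1, 1, 1, 7⟩) (Box.of 4 (by decide +kernel))
    (by decide +kernel)

theorem t3k40_nt2 : NC (pe t3r40.t2 (t1v t3c40)) :=
  NC.of (K := 81) (D := ⟨1, 1, 1, 7⟩) (Box.of 4 (by decide +kernel))
    (by decide +kernel)

theorem t3k40_nty : NC (pe t3r40.ty (t1v t3c40)) :=
  NC.of (K := 83) (D := ⟨1, 1, 1, 7⟩) (Box.of 4 (by decide +kernel))
    (by decide +kernel)

theorem t3k40_nhz : NC (pe t3r40.hz (t1v t3c40)) :=
  NC.of (K := 97) (D := ⟨1, 1, 1, 7⟩) (Box.of 291 (by decide +kernel))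
    (by decide +kernel)

theorem t3k40_xi : NC (eXi fW t3c40 t3e40 t3r40 (t1v t3c40)) :=
  NC.of (K := 334) (D := ⟨1, 1, 1, 22⟩) (Box.of 4 (by decide +kernel))
    (by decide +kernel)

theorem t3k40_om : NC (eOm fW t3r40 (t1v t3c40)) :=
  NC.of (K := 222) (D := ⟨1, 1, 1, 16⟩) (Box.of 291 (by decide +kernel))
    (by decide +kernel)

theorem t3k40_fin : NC (eFin dW t3c40 t3n40 t3r40 t3h40 (tcl t3c40)) :=
  NC.of (K := 239) (D := ⟨1, 1, 1, 14⟩) (Box.of 4 (by decide +kernel))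
    (by decide +kernel)

theorem t3k40_xdl : NC (qc t3e40.dl - pe t3d40.l.dl t3d40.eU) :=
  NC.of (K := 73) (D := ⟨1, 4, 1, 1⟩) (Box.of 4 (by decide +kernel))
    (by decide +kernel)

theorem t3k40_xeY : NC (qc t3e40.eY - pe (e4l t3d40.l.z) t3d40.eU) :=
  NC.of (K := 288) (D := ⟨1, 13, 1, 1⟩) (Box.of 4 (by decide +kernel))
    (by decide +kernel)

theorem t3k40_xgr : NC (qc t3d40.ga * ((1 + qc (3 / 5) * vX) * (1 + (t3d40.eg + hlf * t3d40.eg ^ 2))) + qc t3d40.gb - pe2 t3GR vX t3d40.eU) :=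
  NC.of (K := 256) (D := ⟨4, 11, 1, 1⟩) (Box.of 18688 (by decide +kernel))
    (by decide +kernel)

theorem t3k40_xhr : NC (qc t3d40.hb - pe2 t3HR vX t3d40.eU) :=
  NC.of (K := 265) (D := ⟨3, 12, 1, 1⟩) (Box.of 4 (by decide +kernel))
    (by decide +kernel)

theorem t3k40_xgs : NC (pe t3d40.gs t3d40.e1 - qc (8 / 5) * pe (e4l (ladd t3d40.ls.z t3d40.ls.dl)) t3d40.e1) :=
  NC.of (K := 296) (D := ⟨1, 1, 1, 13⟩) (Box.of 4 (by decide +kernel))
    (by decide +kernel)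

theorem t3k40_xd1 : NC (pe t3d40.d1 t3d40.e1 - t3d40.eA t3d40.eU t3d40.e1) :=
  NC.of (K := 290) (D := ⟨1, 12, 1, 12⟩) (Box.of 4 (by decide +kernel))
    (by decide +kernel)

theorem t3k40_xd2 : NC (pe t3d40.d2 t3d40.e1 - t3d40.eB t3d40.eU t3d40.e1) :=
  NC.of (K := 288) (D := ⟨1, 12, 1, 12⟩) (Box.of 4 (by decide +kernel))
    (by decide +kernel)

theorem t3k40_xt1 : NC (pe t3d40.t1 t3d40.e1 - t3d40.eAT t3d40.eU t3d40.e1) :=
  NC.of (K := 475) (D := ⟨1, 19, 1, 19⟩) (Box.of 4 (by decide +kernel))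
    (by decide +kernel)

theorem t3k40_xt2 : NC (pe t3d40.t2 t3d40.e1 - t3d40.eBT t3d40.eU t3d40.e1) :=
  NC.of (K := 475) (D := ⟨1, 19, 1, 19⟩) (Box.of 4 (by decide +kernel))
    (by decide +kernel)

theorem t3k40_xdy : NC (pe t3d40.dy t3d40.e1 - t3d40.eSD t3d40.eU t3d40.e1) :=
  NC.of (K := 446) (D := ⟨1, 18, 1, 12⟩) (Box.of 4 (by decide +kernel))
    (by decide +kernel)

theorem t3k40_xty : NC (pe t3d40.ty t3d40.e1 - t3d40.eST t3d40.eU t3d40.e1) :=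
  NC.of (K := 673) (D := ⟨1, 26, 1, 26⟩) (Box.of 4 (by decide +kernel))
    (by decide +kernel)

theorem t3k40_xd1s : NC (pe t3r40.d1 (t1v t3c40) - pe t3d40.d1 (Xcd.ew zW t3c40)) :=
  NC.of (K := 705) (D := ⟨1, 1, 1, 55⟩) (Box.of 4 (by decide +kernel))
    (by decide +kernel)

theorem t3k40_xd2s : NC (pe t3r40.d2 (t1v t3c40) - pe t3d40.d2 (Xcd.ew zW t3c40)) :=
  NC.of (K := 706) (D := ⟨1, 1, 1, 55⟩) (Box.of 4 (by decide +kernel))
    (by decide +kernel)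

theorem t3k40_xt1s : NC (pe t3r40.t1 (t1v t3c40) - pe t3d40.t1 (Xcd.ew zW t3c40)) :=
  NC.of (K := 707) (D := ⟨1, 1, 1, 55⟩) (Box.of 4 (by decide +kernel))
    (by decide +kernel)

theorem t3k40_xt2s : NC (pe t3r40.t2 (t1v t3c40) - pe t3d40.t2 (Xcd.ew zW t3c40)) :=
  NC.of (K := 707) (D := ⟨1, 1, 1, 55⟩) (Box.of 4 (by decide +kernel))
    (by decide +kernel)

theorem t3k40_xdys : NC (pe t3r40.dy (t1v t3c40) - pe t3d40.dy (Xcd.ew zW t3c40)) :=
  NC.of (K := 706) (D := ⟨1, 1, 1, 55⟩) (Box.of 4 (by decide +kernel))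
    (by decide +kernel)

theorem t3k40_xtys : NC (pe t3r40.ty (t1v t3c40) - pe t3d40.ty (Xcd.ew zW t3c40)) :=
  NC.of (K := 710) (D := ⟨1, 1, 1, 55⟩) (Box.of 4 (by decide +kernel))
    (by decide +kernel)

theorem t3k40_xhz : NC (pe t3r40.hz (t1v t3c40) - pe t3d40.c.dR (Xcd.ew zW t3c40)) :=
  NC.of (K := 601) (D := ⟨1, 1, 1, 46⟩) (Box.of 4 (by decide +kernel))
    (by decide +kernel)

theorem t3f40_ok : t3f40.ok V2L.y20 V2L.k20 V2L.nb V2L.la (10 ^ 30) 32 = true := by decide +kernel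

theorem t3k40_sg : t3c40.Sg := by
  constructor <;> decide +kernel

theorem t3k40_rgs : t3c40.Rgs where
  M := ⟨t3k40_M_r1, t3k40_M_r2, t3k40_M_r3, t3k40_M_r4⟩
  r0 := ⟨t3k40_r0_r1, t3k40_r0_r2, t3k40_r0_r3, t3k40_r0_r4⟩
  r1 := ⟨t3k40_r1_r1, t3k40_r1_r2, t3k40_r1_r3, t3k40_r1_r4⟩
  r2 := ⟨t3k40_r2_r1, t3k40_r2_r2, t3k40_r2_r3, t3k40_r2_r4⟩
  rc := ⟨t3k40_rc_r1, t3k40_rc_r2, t3k40_rc_r3, t3k40_rc_r4⟩
  rI := ⟨t3k40_rI_r1, t3k40_rI_r2, t3k40_rI_r3, t3k40_rI_r4⟩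
  rJ := ⟨t3k40_rJ_r1, t3k40_rJ_r2, t3k40_rJ_r3, t3k40_rJ_r4⟩

theorem t3k40_xn : t3e40.Ok t3c40 where
  lm := by decide +kernel
  dl0 := by decide +kernel
  dl1 := by decide +kernel
  e2 := by decide +kernel
  eY := by decide +kernel
  gE := ⟨t3k40_gE_r1, t3k40_gE_r2, t3k40_gE_r3, t3k40_gE_r4⟩

theorem t3k40_vl : t3c40.Vl dW qW where
  bt := by decide +kernel
  B0 := t3k40_B0
  E0 := t3k40_E0
  D0 := t3k40_D0
  Bh := t3k40_Bh
  Eh := t3k40_Eh
  Dh := t3k40_Dh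
  B1 := t3k40_B1
  E1 := t3k40_E1
  D1 := t3k40_D1

theorem t3k40_rat : t3n40.Rat t3c40 := by
  constructor <;> decide +kernel

theorem t3k40_ck : t3n40.Ck t3c40 := ⟨t3k40_l, t3k40_n⟩

theorem t3k40_fck : t3n40.Fck dW qW fW t3c40 := ⟨t3k40_rb, t3k40_kap⟩

theorem t3k40_w : Wcl zW kW yW t3al t3c40 t3n40 t3m40 where
  b2 := t3k40_wb2
  mb := t3k40_wmb
  th := t3k40_wth
  yb := t3k40_wyb
  mu := t3k40_wmu
  cj := t3k40_wcj
  mt1 := by decide +kernel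
  mt2 := by decide +kernel

theorem t3k40_ok : CelOk dW qW fW t3c40 t3n40 where
  s := t3k40_sg
  r := t3k40_rgs
  v := t3k40_vl
  rt := t3k40_rat
  k := t3k40_ck
  fc := t3k40_fck
  q01 := by decide +kernel
  q12 := by decide +kernel
  h2 := by decide +kernel

theorem t3k40_xr : t3r40.Ok fW t3c40 t3e40 where
  sD := by decide +kernel
  sT := by decide +kernel
  nd1 := t3k40_nd1
  nd2 := t3k40_nd2
  ndy := t3k40_ndy
  nt1 := t3k40_nt1
  nt2 := t3k40_nt2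
  nty := t3k40_nty
  nhz := t3k40_nhz
  xi := t3k40_xi
  om := t3k40_om

theorem t3k40_X : t3d40.Ck t3GR t3HR zW t3c40 t3e40 t3r40 where
  u0 := by decide +kernel
  u01 := by decide +kernel
  ul := by decide +kernel
  us := by decide +kernel
  uc := by decide +kernel
  ga0 := by decide +kernel
  kp0 := by decide +kernel
  lm := by decide +kernel
  dl := t3k40_xdl
  eY := t3k40_xeY
  gr := t3k40_xgr
  hr := t3k40_xhr
  gs := t3k40_xgs
  d1 := t3k40_xd1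
  d2 := t3k40_xd2
  t1 := t3k40_xt1
  t2 := t3k40_xt2
  dy := t3k40_xdy
  ty := t3k40_xty
  d1s := t3k40_xd1s
  d2s := t3k40_xd2s
  t1s := t3k40_xt1s
  t2s := t3k40_xt2s
  dys := t3k40_xdys
  tys := t3k40_xtys
  hz := t3k40_xhz

end Pool.Agent.RX.RCN.K
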