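import Pool.Agent.RX.RCN.Ident

/-! The probabilities of three and four vertices after the end time (MP_73ccd0_lc, route M). -/

namespace Pool.Agent.RX.RCN

open MeasureTheory Set Finset Pool.Agent.RX.RCRSHalf Pool.Agent.RX.RCG Filter Topology

set_option linter.unusedSectionVars false

variable {V : Type*} [Fintype V] [DecidableEq V]
variable {h : ℝ → V → V → ℝ} {H : V → V → ℝ → ℝ}

theorem pr_anti {y : Finset V → ℝ} (hy : ∀ F, 0 ≤ y F) {W W' : Finset V} (h : W ⊆ W') :
    pr y W' ≤ pr y W := by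
  unfold pr
  refine Finset.sum_le_sum fun F _ => mul_le_mul_of_nonneg_left ?_ (hy F)
  by_cases h' : W' ⊆ F
  · rw [if_pos h', if_pos (h.trans h')]
  · rw [if_neg h']
    split_ifs <;> norm_num

/-- the flux out of a set, split into the internal and the external pairs -/
theorem flux_split {f : V → V → ℝ} (hf : ∀ a b, f a b = f b a) (W : Finset V) :
    ∑ a', ∑ b', (if a' ∈ W ∨ b' ∈ W then f a' b' else 0)
      = 2 * (∑ a' ∈ W, ∑ b' ∈ Wᶜ, f a' b') + ∑ a' ∈ W, ∑ b' ∈ W, f a' b' := by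
  have e1 : ∀ a' b', (if a' ∈ W ∨ b' ∈ W then f a' b' else 0)
      = (if a' ∈ W then f a' b' else 0) + (if b' ∈ W then f a' b' else 0)
        - (if a' ∈ W then (if b' ∈ W then f a' b' else 0) else 0) := by
    intro a' b'
    by_cases h1 : a' ∈ W <;> by_cases h2 : b' ∈ W <;> simp [h1, h2]
  simp_rw [e1, Finset.sum_sub_distrib, Finset.sum_add_distrib]
  have s1 : ∑ a', ∑ b', (if a' ∈ W then f a' b' else 0) = ∑ a' ∈ W, ∑ b', f a' b' := by
    rw [← Finset.sum_subset (Finset.subset_univ W)]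
    · exact Finset.sum_congr rfl fun a' ha' => by simp [ha']
    · intro a' _ ha'; simp [ha']
  have s2 : ∑ a', ∑ b', (if b' ∈ W then f a' b' else 0) = ∑ a' ∈ W, ∑ b', f a' b' := by
    rw [Finset.sum_comm, ← s1]
    refine Finset.sum_congr rfl fun a' _ => Finset.sum_congr rfl fun b' _ => ?_
    rw [hf]
  have s3 : ∑ a', ∑ b', (if a' ∈ W then (if b' ∈ W then f a' b' else 0) else 0)
      = ∑ a' ∈ W, ∑ b' ∈ W, f a' b' := by
    rw [← Finset.sum_subset (Finset.subset_univ W)]
    · refine Finset.sum_congr rfl fun a' ha' => ?_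
      rw [← Finset.sum_subset (Finset.subset_univ W)]
      · exact Finset.sum_congr rfl fun b' hb' => by simp [ha', hb']
      · intro b' _ hb'; simp [hb']
    · intro a' _ ha'; simp [ha']
  have s4 : ∀ a' ∈ W, ∑ b', f a' b' = ∑ b' ∈ W, f a' b' + ∑ b' ∈ Wᶜ, f a' b' := fun a' _ =>
    (Finset.sum_add_sum_compl W (fun b' => f a' b')).symm
  rw [s1, s2, s3, Finset.sum_congr rfl s4, Finset.sum_add_distrib]
  ring

/-- the rate of a set is at most the sum of the hazards of its vertices -/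
theorem rate_le (hh : Haz h H) (W : Finset V) {r : ℝ} (hr : r ∈ Icc (0 : ℝ) 1) :
    (1 / 2) * ∑ a', ∑ b', (if a' ∈ W ∨ b' ∈ W then
        h r a' b' * pr (lw h ∅ r) (insert a' (insert b' W)) else 0)
      ≤ (∑ w ∈ W, ∑ g, h r w g) * pr (lw h ∅ r) W := by
  set f : V → V → ℝ := fun a' b' => h r a' b' * pr (lw h ∅ r) (insert a' (insert b' W)) with hf
  have n0 : ∀ F, 0 ≤ lw h ∅ r F := fun F => (hh.lw (∅ : Finset V)).nonneg F r hr
  have hfs : ∀ a' b', f a' b' = f b' a' := fun a' b' => by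
    simp only [hf]; rw [hh.symm r a' b', Finset.insert_comm]
  have hle : ∀ a' b', f a' b' ≤ h r a' b' * pr (lw h ∅ r) W := fun a' b' =>
    mul_le_mul_of_nonneg_left (pr_anti n0 ((Finset.subset_insert _ _).trans
      (Finset.subset_insert _ _))) (hh.nonneg r a' b')
  have f0 : ∀ a' b', 0 ≤ f a' b' := fun a' b' =>
    mul_nonneg (hh.nonneg r a' b') ((hh.lw ∅).pr_nonneg _ hr)
  rw [flux_split hfs W]
  have k1 : ∑ a' ∈ W, ∑ b' ∈ W, f a' b' ≤ 2 * ∑ a' ∈ W, ∑ b' ∈ W, f a' b' := by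
    have : 0 ≤ ∑ a' ∈ W, ∑ b' ∈ W, f a' b' :=
      Finset.sum_nonneg fun a' _ => Finset.sum_nonneg fun b' _ => f0 a' b'
    linarith
  have k2 : ∑ a' ∈ W, ∑ b' ∈ Wᶜ, f a' b' + ∑ a' ∈ W, ∑ b' ∈ W, f a' b'
      = ∑ a' ∈ W, ∑ b', f a' b' := by
    rw [← Finset.sum_add_distrib]
    exact Finset.sum_congr rfl fun a' _ => by
      rw [add_comm]; exact Finset.sum_add_sum_compl W (fun b' => f a' b')
  have k3 : ∑ a' ∈ W, ∑ b', f a' b' ≤ (∑ w ∈ W, ∑ g, h r w g) * pr (lw h ∅ r) W := by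
    rw [Finset.sum_mul]
    refine Finset.sum_le_sum fun a' _ => ?_
    rw [Finset.sum_mul]
    exact Finset.sum_le_sum fun b' _ => hle a' b'
  linarith

/-- **the decay of the probability of a set with bounded hazards** -/
theorem pr_low (hh : Haz h H) {T t m : ℝ} (T0 : 0 ≤ T) (ht : t ≤ 1) (m0 : 0 ≤ m)
    (m1 : m * (t - T) < 1)
    (hm : ∀ r ∈ Icc T t, ∀ w, (∑ g, h r w g) * (1 - m * (r - T)) ≤ m) {W : Finset V}
    (hW : W.card ≤ 4) :
    ∀ r ∈ Icc T t, (1 - m * (r - T)) ^ 4 * pr (lw h ∅ T) W ≤ pr (lw h ∅ r) W := by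
  have hpos : ∀ r ∈ Icc T t, 0 < 1 - m * (r - T) := fun r hr => by
    have : m * (r - T) ≤ m * (t - T) := mul_le_mul_of_nonneg_left (by linarith [hr.2]) m0
    linarith
  intro r hr
  have key := nonneg_of_forward (a := T) (s := t)
    (U := fun r => pr (lw h ∅ r) W - (1 - m * (r - T)) ^ 4 * pr (lw h ∅ T) W)
    (U' := fun r => -((1 / 2) * ∑ a', ∑ b', (if a' ∈ W ∨ b' ∈ W then
        h r a' b' * pr (lw h ∅ r) (insert a' (insert b' W)) else 0))
        - (4 * (1 - m * (r - T)) ^ 3 * (0 - m * 1)) * pr (lw h ∅ T) W)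
    (fun r hr => by
      have hr1 : r ∈ Icc (0 : ℝ) 1 := ⟨T0.trans hr.1, hr.2.trans ht⟩
      have d1 := (hh.lw ∅).deriv_pr W hr1
      have d2 := (((((hasDerivAt_id r).sub_const T).const_mul m).const_sub 1).pow 4).mul_const
        (pr (lw h ∅ T) W)
      refine (d1.sub d2).congr_deriv ?_
      simp only [id, Nat.cast_ofNat]
      ring)
    (by simp)
    (fun r hr hneg => by
      have hr1 : r ∈ Icc (0 : ℝ) 1 := ⟨T0.trans hr.1, hr.2.trans ht⟩
      have h1 := rate_le hh W hr1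
      have q := hpos r hr
      have p0 : 0 ≤ pr (lw h ∅ r) W := (hh.lw ∅).pr_nonneg _ hr1
      have h2 : (∑ w ∈ W, ∑ g, h r w g) * (1 - m * (r - T)) ≤ 4 * m := by
        rw [Finset.sum_mul]
        refine (Finset.sum_le_sum fun w _ => hm r hr w).trans ?_
        rw [Finset.sum_const, nsmul_eq_mul]
        have : (W.card : ℝ) ≤ 4 := by exact_mod_cast hW
        exact mul_le_mul_of_nonneg_right this m0
      have h3 : (∑ w ∈ W, ∑ g, h r w g) * pr (lw h ∅ r) W * (1 - m * (r - T))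
          ≤ 4 * m * pr (lw h ∅ r) W := by
        have := mul_le_mul_of_nonneg_right h2 p0
        linarith
      have h4 : pr (lw h ∅ r) W ≤ (1 - m * (r - T)) ^ 4 * pr (lw h ∅ T) W := by linarith
      have h5 : 4 * m * pr (lw h ∅ r) W
          ≤ 4 * m * ((1 - m * (r - T)) ^ 4 * pr (lw h ∅ T) W) :=
        mul_le_mul_of_nonneg_left h4 (by positivity)
      have h6 : (∑ w ∈ W, ∑ g, h r w g) * pr (lw h ∅ r) W
          ≤ 4 * m * ((1 - m * (r - T)) ^ 3 * pr (lw h ∅ T) W) := by
        refine le_of_mul_le_mul_right ?_ q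
        calc _ ≤ 4 * m * ((1 - m * (r - T)) ^ 4 * pr (lw h ∅ T) W) := h3.trans h5
          _ = _ := by ring
      show 0 ≤ -((1 / 2) * ∑ a', ∑ b', (if a' ∈ W ∨ b' ∈ W then
        h r a' b' * pr (lw h ∅ r) (insert a' (insert b' W)) else 0))
        - (4 * (1 - m * (r - T)) ^ 3 * (0 - m * 1)) * pr (lw h ∅ T) W
      linarith)
    r hr
  linarith

/-- the decay of the probability of a triple: a part `e` of the internal decay is used as a
factor, the other part `k` and a part of the external decay in the linear term -/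
theorem ppp_ext (hh : Haz h H) {a b c : V} (hab : a ≠ b) (hac : a ≠ c) (hbc : b ≠ c) {T t : ℝ}
    (T0 : 0 ≤ T) (ht : t ≤ 1) {E e k g g' : ℝ → ℝ} {Y : ℝ} (E0 : E T = 0)
    (dE' : ∀ r, HasDerivAt E (e r) r) (En : ∀ r ∈ Icc T t, 0 ≤ E r)
    (kn : ∀ r, 0 ≤ k r) (hek : ∀ r, e r + k r = h r a b + h r a c + h r b c)
    (g0 : g T = 0) (dg : ∀ r ∈ Icc T t, HasDerivAt g (g' r) r)
    (hY : ∀ r ∈ Icc T t, g' r * Y ≤ ∑ e ∈ ({a, b, c} : Finset V)ᶜ,
      (h r a e + h r b e) * pr (lw h ∅ r) {a, b, c, e} + k r * ppp h a b c r) :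
    ∀ r ∈ Icc T t, ppp h a b c r * Real.exp (E r) + g r * Y ≤ ppp h a b c T := by
  set W : Finset V := {a, b, c} with hW
  set Q : ℝ → ℝ := fun r => -((1 / 2) * ∑ a', ∑ b', if a' ∈ W ∨ b' ∈ W then
        h r a' b' * pr (lw h ∅ r) (insert a' (insert b' W)) else 0) with hQ
  intro r hr
  have key := nonneg_of_forward (a := T) (s := t)
    (U := fun r => ppp h a b c T - (ppp h a b c r * Real.exp (E r) + g r * Y))
    (U' := fun r => 0 - (Q r * Real.exp (E r)
      + ppp h a b c r * (Real.exp (E r) * e r) + g' r * Y))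
    (fun r hr => by
      have hr1 : r ∈ Icc (0 : ℝ) 1 := ⟨T0.trans hr.1, hr.2.trans ht⟩
      have d1 : HasDerivAt (ppp h a b c) (Q r) r := (hh.lw ∅).deriv_pr {a, b, c} hr1
      exact (hasDerivAt_const r _).sub ((d1.mul ((dE' r).exp)).add ((dg r hr).mul_const Y)))
    (by
      simp only [E0, Real.exp_zero, mul_one, g0, zero_mul, add_zero, sub_self, le_refl])
    (fun r hr _ => by
      have hr1 : r ∈ Icc (0 : ℝ) 1 := ⟨T0.trans hr.1, hr.2.trans ht⟩
      have n0 : ∀ W' : Finset V, 0 ≤ pr (lw h ∅ r) W' := fun W' => (hh.lw ∅).pr_nonneg _ hr1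
      set f : V → V → ℝ := fun a' b' => h r a' b' * pr (lw h ∅ r) (insert a' (insert b' W))
        with hf
      have f0 : ∀ a' b', 0 ≤ f a' b' := fun a' b' => mul_nonneg (hh.nonneg r a' b') (n0 _)
      have hfs : ∀ a' b', f a' b' = f b' a' := fun a' b' => by
        simp only [hf]; rw [hh.symm r a' b', Finset.insert_comm]
      have hs := flux_split hfs W
      -- internal part
      have h2 : ∑ a' ∈ W, ∑ b' ∈ W, f a' b'
          = 2 * ((h r a b + h r a c + h r b c) * ppp h a b c r) := by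
        have e1 : ∀ a' ∈ W, ∀ b' ∈ W, f a' b' = h r a' b' * pr (lw h ∅ r) W :=
          fun a' ha' b' hb' => by
            simp only [hf]
            rw [Finset.insert_eq_of_mem hb', Finset.insert_eq_of_mem ha']
        rw [Finset.sum_congr rfl fun a' ha' => Finset.sum_congr rfl fun b' hb' => e1 a' ha' b' hb']
        have s3 : ∀ f : V → ℝ, ∑ z ∈ W, f z = f a + f b + f c := fun f => by
          rw [hW, Finset.sum_insert (by simp [hab, hac]), Finset.sum_pair hbc]
          ring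
        simp only [s3]
        rw [hh.diag, hh.diag, hh.diag, hh.symm r b a, hh.symm r c a, hh.symm r c b]
        unfold ppp
        rw [← hW]
        ring
      -- external part
      have h3 : ∑ e ∈ Wᶜ, (h r a e + h r b e) * pr (lw h ∅ r) {a, b, c, e}
          ≤ ∑ a' ∈ W, ∑ b' ∈ Wᶜ, f a' b' := by
        have s3 : ∀ f : V → ℝ, ∑ z ∈ W, f z = f a + f b + f c := fun f => by
          rw [hW, Finset.sum_insert (by simp [hab, hac]), Finset.sum_pair hbc]
          ring
        have e1 : ∀ a' ∈ W, ∀ b', f a' b' = h r a' b' * pr (lw h ∅ r) {a, b, c, b'} :=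
          fun a' ha' b' => by
            simp only [hf]
            have : insert a' (insert b' W) = ({a, b, c, b'} : Finset V) := by
              rw [Finset.insert_eq_of_mem (Finset.mem_insert_of_mem ha'), hW]
              ext z; simp only [Finset.mem_insert, Finset.mem_singleton]; tauto
            rw [this]
        rw [s3, ← Finset.sum_add_distrib, ← Finset.sum_add_distrib]
        refine Finset.sum_le_sum fun e _ => ?_
        rw [e1 a (by simp [hW]) e, e1 b (by simp [hW]) e, add_mul]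
        have := f0 c e
        linarith
      have e0 : 1 ≤ Real.exp (E r) := Real.one_le_exp (En r hr)
      have h4 : Q r = -((e r + k r) * ppp h a b c r)
          - ∑ a' ∈ W, ∑ b' ∈ Wᶜ, f a' b' := by
        simp only [hQ]
        rw [hs, h2, hek]
        ring
      have h5 : 0 ≤ ∑ a' ∈ W, ∑ b' ∈ Wᶜ, f a' b' :=
        Finset.sum_nonneg fun a' _ => Finset.sum_nonneg fun b' _ => f0 a' b'
      have h6 := mul_le_mul_of_nonneg_right e0 h5
      have h8 := mul_le_mul_of_nonneg_right e0 (mul_nonneg (kn r) (ppp_nonneg hh a b c hr1))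
      have h7 := hY r hr
      rw [h4]
      linarith)
    r hr
  linarith

end Pool.Agent.RX.RCN
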