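import Pool.Agent.RX.RCG.Ctx_1

/-! The pair probabilities after the end time: scaled densities (MP_73ccd0_lc, route M). -/

namespace Pool.Agent.RX.RCN

open MeasureTheory Set Finset Pool.Agent.RX.RCG Filter Topology

set_option linter.unusedSectionVars false

variable {V : Type*} [Fintype V] [DecidableEq V]
variable {h : ℝ → V → V → ℝ} {H : V → V → ℝ → ℝ}

theorem H_mono (hh : Haz h H) (a b : V) {s t : ℝ} (hst : s ≤ t) : H a b s ≤ H a b t := by
  have hm : Monotone (H a b) := monotone_of_deriv_nonneg (fun r => (hh.Hd a b r).differentiableAt)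
    fun r => by rw [(hh.Hd a b r).deriv]; exact hh.nonneg r a b
  exact hm hst

/-- a function with a positive derivative is nonnegative after a nonnegative value -/
theorem ev_nonneg {u : ℝ → ℝ} {d r : ℝ} (hu : HasDerivAt u d r) (hd : 0 < d) (h0 : 0 ≤ u r) :
    ∀ᶠ z in 𝓝[>] r, 0 ≤ u z := by
  have h1 := hasDerivAt_iff_tendsto_slope.1 hu
  have h2 : ∀ᶠ z in 𝓝[≠] r, 0 < slope u r z := h1.eventually (lt_mem_nhds hd)
  have h3 : ∀ᶠ z in 𝓝[>] r, 0 < slope u r z :=
    h2.filter_mono (nhdsWithin_mono r fun z hz => ne_of_gt hz)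
  filter_upwards [h3, self_mem_nhdsWithin] with z hz hz2
  rw [slope_def_field] at hz
  have h4 : 0 < z - r := sub_pos.2 hz2
  have h5 := (div_pos_iff_of_pos_right h4).1 hz
  linarith

section tail

variable {x : V → V → ℝ} {f : V → V → ℝ → ℝ} {R : V → V → ℝ} {T t : ℝ}

end tail

end Pool.Agent.RX.RCN
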