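import Pool.Agent.RX.RCN.Bt
import Pool.Agent.RX.RCN.Tl4
import Pool.Agent.RX.RCN.TlK

/-! The pair probabilities after the end time, second order (MP_73ccd0_lc, route M). -/

namespace Pool.Agent.RX.RCN

open MeasureTheory Set Finset Pool.Agent.RX.RCRSHalf Pool.Agent.RX.RCG Filter Topology

set_option linter.unusedSectionVars false

/-- the gain functions of the second order -/
noncomputable def tg' (m v s : ℝ) : ℝ := (1 - v * s) * (1 - m * s) ^ 4

noncomputable def tg (m v s : ℝ) : ℝ :=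
  s - (4 * m + v) * s ^ 2 / 2 + (6 * m ^ 2 + 4 * m * v) * s ^ 3 / 3
    - (4 * m ^ 3 + 6 * m ^ 2 * v) * s ^ 4 / 4 + (m ^ 4 + 4 * m ^ 3 * v) * s ^ 5 / 5
    - m ^ 4 * v * s ^ 6 / 6

noncomputable def tg2 (m v s : ℝ) : ℝ :=
  s ^ 2 / 2 - (4 * m + v) * s ^ 3 / 6 + (6 * m ^ 2 + 4 * m * v) * s ^ 4 / 12
    - (4 * m ^ 3 + 6 * m ^ 2 * v) * s ^ 5 / 20 + (m ^ 4 + 4 * m ^ 3 * v) * s ^ 6 / 30
    - m ^ 4 * v * s ^ 7 / 42

theorem hd_pow (n : ℕ) (c s : ℝ) : HasDerivAt (fun s : ℝ => c * s ^ n) (c * (n * s ^ (n - 1))) s :=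
  (hasDerivAt_pow n s).const_mul c

theorem tg_deriv (m v s : ℝ) : HasDerivAt (tg m v) (tg' m v s) s := by
  have h := ((((((hasDerivAt_id s).sub (hd_pow 2 ((4 * m + v) / 2) s)).add
    (hd_pow 3 ((6 * m ^ 2 + 4 * m * v) / 3) s)).sub
    (hd_pow 4 ((4 * m ^ 3 + 6 * m ^ 2 * v) / 4) s)).add
    (hd_pow 5 ((m ^ 4 + 4 * m ^ 3 * v) / 5) s)).sub (hd_pow 6 (m ^ 4 * v / 6) s))
  have e : tg m v = fun s => s - (4 * m + v) / 2 * s ^ 2 + (6 * m ^ 2 + 4 * m * v) / 3 * s ^ 3
      - (4 * m ^ 3 + 6 * m ^ 2 * v) / 4 * s ^ 4 + (m ^ 4 + 4 * m ^ 3 * v) / 5 * s ^ 5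
      - m ^ 4 * v / 6 * s ^ 6 := by
    funext s; unfold tg; ring
  rw [e]
  refine h.congr_deriv ?_
  unfold tg'
  norm_num
  ring

theorem tg2_deriv (m v s : ℝ) : HasDerivAt (tg2 m v) (tg m v s) s := by
  have h := ((((((hd_pow 2 (1 / 2) s).sub (hd_pow 3 ((4 * m + v) / 6) s)).add
    (hd_pow 4 ((6 * m ^ 2 + 4 * m * v) / 12) s)).sub
    (hd_pow 5 ((4 * m ^ 3 + 6 * m ^ 2 * v) / 20) s)).add
    (hd_pow 6 ((m ^ 4 + 4 * m ^ 3 * v) / 30) s)).sub (hd_pow 7 (m ^ 4 * v / 42) s))
  have e : tg2 m v = fun s => 1 / 2 * s ^ 2 - (4 * m + v) / 6 * s ^ 3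
      + (6 * m ^ 2 + 4 * m * v) / 12 * s ^ 4
      - (4 * m ^ 3 + 6 * m ^ 2 * v) / 20 * s ^ 5 + (m ^ 4 + 4 * m ^ 3 * v) / 30 * s ^ 6
      - m ^ 4 * v / 42 * s ^ 7 := by
    funext s; unfold tg2; ring
  rw [e]
  refine h.congr_deriv ?_
  unfold tg
  norm_num
  ring

theorem tG_deriv (m v s : ℝ) : HasDerivAt (tG m v) (tg2 m v s) s := by
  have h := ((((((hd_pow 3 (1 / 6) s).sub (hd_pow 4 ((4 * m + v) / 24) s)).add
    (hd_pow 5 ((6 * m ^ 2 + 4 * m * v) / 60) s)).sub
    (hd_pow 6 ((4 * m ^ 3 + 6 * m ^ 2 * v) / 120) s)).add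
    (hd_pow 7 ((m ^ 4 + 4 * m ^ 3 * v) / 210) s)).sub (hd_pow 8 (m ^ 4 * v / 336) s))
  have e : tG m v = fun s => 1 / 6 * s ^ 3 - (4 * m + v) / 24 * s ^ 4
      + (6 * m ^ 2 + 4 * m * v) / 60 * s ^ 5
      - (4 * m ^ 3 + 6 * m ^ 2 * v) / 120 * s ^ 6 + (m ^ 4 + 4 * m ^ 3 * v) / 210 * s ^ 7
      - m ^ 4 * v / 336 * s ^ 8 := by
    funext s; unfold tG; ring
  rw [e]
  refine h.congr_deriv ?_
  unfold tg2
  norm_num
  ring

theorem tg_zero (m v : ℝ) : tg m v 0 = 0 := by unfold tg; ring
theorem tg2_zero (m v : ℝ) : tg2 m v 0 = 0 := by unfold tg2; ring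
theorem tG_zero (m v : ℝ) : tG m v 0 = 0 := by unfold tG; ring

section bounds

variable {m v w : ℝ}

theorem tg'_mem (m0 : 0 ≤ m) (m1 : m * w ≤ 1) (v0 : 0 < v) (vw : v * w ≤ 1) {s : ℝ}
    (hs : s ∈ Icc 0 w) : 0 ≤ tg' m v s ∧ tg' m v s ≤ 1 - v * s := by
  have h1 : m * s ≤ 1 := (mul_le_mul_of_nonneg_left hs.2 m0).trans m1
  have h2 : v * s ≤ 1 := (mul_le_mul_of_nonneg_left hs.2 v0.le).trans vw
  have h3 : 0 ≤ m * s := mul_nonneg m0 hs.1
  have h4 : (1 - m * s) ^ 4 ≤ 1 := pow_le_one₀ (by linarith) (by linarith)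
  have h5 : 0 ≤ (1 - m * s) ^ 4 := by positivity
  unfold tg'
  exact ⟨mul_nonneg (by linarith) h5, mul_le_of_le_one_right (by linarith) h4⟩

theorem tg_mem (m0 : 0 ≤ m) (m1 : m * w ≤ 1) (v0 : 0 < v) (vw : v * w ≤ 1) {s : ℝ}
    (hs : s ∈ Icc 0 w) : 0 ≤ tg m v s ∧ tg m v s ≤ (2 * v)⁻¹ := by
  have k1 := nonneg_of_forward (a := 0) (s := w) (U := tg m v) (U' := tg' m v)
    (fun r _ => tg_deriv m v r) (by rw [tg_zero]) (fun r hr _ => (tg'_mem m0 m1 v0 vw hr).1) s hs
  have k2 := nonneg_of_forward (a := 0) (s := w) (U := fun s => (s - v / 2 * s ^ 2) - tg m v s)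
    (U' := fun s => (1 - v / 2 * ((2 : ℕ) * s ^ (2 - 1))) - tg' m v s)
    (fun r _ => ((hasDerivAt_id r).sub (hd_pow 2 (v / 2) r)).sub (tg_deriv m v r))
    (by rw [tg_zero]; norm_num) (fun r hr _ => by
      have := (tg'_mem m0 m1 v0 vw hr).2
      norm_num
      linarith) s hs
  refine ⟨k1, ?_⟩
  have h1 : s - v / 2 * s ^ 2 ≤ (2 * v)⁻¹ := by
    rw [← one_div, le_div_iff₀ (by positivity)]
    nlinarith [sq_nonneg (1 - v * s)]
  linarith

theorem tg2_mem (m0 : 0 ≤ m) (m1 : m * w ≤ 1) (v0 : 0 < v) (vw : v * w ≤ 1) {s : ℝ}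
    (hs : s ∈ Icc 0 w) : 0 ≤ tg2 m v s ∧ tg2 m v s ≤ (2 * v)⁻¹ * s := by
  have k1 := nonneg_of_forward (a := 0) (s := w) (U := tg2 m v) (U' := tg m v)
    (fun r _ => tg2_deriv m v r) (by rw [tg2_zero]) (fun r hr _ => (tg_mem m0 m1 v0 vw hr).1) s hs
  have k2 := nonneg_of_forward (a := 0) (s := w) (U := fun s => (2 * v)⁻¹ * s - tg2 m v s)
    (U' := fun s => (2 * v)⁻¹ * 1 - tg m v s)
    (fun r _ => ((hasDerivAt_id r).const_mul _).sub (tg2_deriv m v r))
    (by rw [tg2_zero]; norm_num) (fun r hr _ => by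
      have := (tg_mem m0 m1 v0 vw hr).2
      linarith) s hs
  exact ⟨k1, by linarith⟩

end bounds

variable {V : Type*} [Fintype V] [DecidableEq V]
variable {h : ℝ → V → V → ℝ} {H : V → V → ℝ → ℝ}

section tail

variable {x : V → V → ℝ} {f : V → V → ℝ → ℝ} {R Q : V → V → ℝ} {T t m v : ℝ}

/-- the factor of the tail, second order -/
noncomputable def rho4 (R Q : V → V → ℝ) (m v T : ℝ) (a b : V) (r : ℝ) : ℝ :=
  1 - R a b * (r - T) + Q a b * tg2 m v (r - T)

/-- the numbers of the tail -/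
structure Tn (R Q : V → V → ℝ) (m v T : ℝ) : Prop where
  m0 : 0 ≤ m
  m1 : m * (1 - T) < 1
  v0 : 0 < v
  v1 : v * (1 - T) ≤ 1
  R0 : ∀ a b, 0 ≤ R a b
  Rw : ∀ a b, R a b * (1 - T) < 1
  Rv : ∀ a b, R a b ≤ v
  Q0 : ∀ a b, 0 ≤ Q a b
  Qv : ∀ a b, Q a b * (2 * v)⁻¹ ≤ R a b

theorem Tn.mem {r : ℝ} (hr : T ≤ r) (hr1 : r ≤ 1) : r - T ∈ Icc 0 (1 - T) :=
  ⟨by linarith, by linarith⟩

theorem Tn.rho_pos (hn : Tn R Q m v T) {a b : V} {r : ℝ} (hr : T ≤ r) (hr1 : r ≤ 1) :
    0 < rho4 R Q m v T a b r := by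
  unfold rho4
  have h1 : R a b * (r - T) ≤ R a b * (1 - T) :=
    mul_le_mul_of_nonneg_left (by linarith) (hn.R0 a b)
  have h2 := hn.Rw a b
  have h3 := mul_nonneg (hn.Q0 a b) (tg2_mem hn.m0 hn.m1.le hn.v0 hn.v1 (Tn.mem hr hr1)).1
  linarith

theorem Tn.rho_le (hn : Tn R Q m v T) {a b : V} {r : ℝ} (hr : T ≤ r) (hr1 : r ≤ 1) :
    rho4 R Q m v T a b r ≤ 1 := by
  unfold rho4
  have h3 := mul_le_mul_of_nonneg_left
    (tg2_mem hn.m0 hn.m1.le hn.v0 hn.v1 (Tn.mem hr hr1)).2 (hn.Q0 a b)
  have h4 := mul_le_mul_of_nonneg_right (hn.Qv a b) (Tn.mem hr hr1).1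
  linarith

theorem Tn.rho_ge (hn : Tn R Q m v T) {a b : V} {r : ℝ} (hr : T ≤ r) (hr1 : r ≤ 1) :
    1 - v * (r - T) ≤ rho4 R Q m v T a b r := by
  unfold rho4
  have h3 := mul_nonneg (hn.Q0 a b) (tg2_mem hn.m0 hn.m1.le hn.v0 hn.v1 (Tn.mem hr hr1)).1
  have h4 := mul_le_mul_of_nonneg_right (hn.Rv a b) (Tn.mem hr hr1).1
  linarith

/-- the rate of the external decay of a triple -/
noncomputable def Yq (h : ℝ → V → V → ℝ) (T : ℝ) (a b c : V) : ℝ :=
  ∑ e ∈ ({a, b, c} : Finset V)ᶜ, (h T a e + h T b e) * pr (lw h ∅ T) {a, b, c, e}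

/-- **the tail, second order** -/
theorem tail_claim4 (hh : Haz h H) (hn : Tn R Q m v T) (T0 : 0 ≤ T) (ht : t ≤ 1)
    (hm : ∀ w, ∑ g, h T w g ≤ m)
    (x0 : ∀ a b, 0 ≤ x a b)
    (hz : ∀ r ∈ Icc T t, ∀ a b, x a b = 0 → h r a b = 0)
    (hfl : ∀ r ∈ Icc T t, ∀ a b, h r a b * pp h a b r = x a b * f a b r)
    (feq : ∀ r ∈ Icc T t, ∀ a b, x a b ≠ 0 → f a b r = rho4 R Q m v T a b r * f a b T)
    (fT : ∀ a b, x a b ≠ 0 → 0 < f a b T)
    (pT : ∀ a b, x a b ≠ 0 → 0 < pp h a b T)
    (rate : ∀ a b, a ≠ b → x a b ≠ 0 → ∀ γ ∈ Icc 0 (2 * v)⁻¹,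
      ∑ c ∈ ({a, b} : Finset V)ᶜ, ((h T a c + h T b c) * (ppp h a b c T - γ * Yq h T a b c)
        - γ * (2 * (h T a c * h T b c) * ppp h a b c T))
        < (R a b - γ * Q a b) * pp h a b T)
    (xd : ∀ a, x a a = 0) :
    ∀ r ∈ Icc T t, ∀ a b, x a b ≠ 0 →
      rho4 R Q m v T a b r * (Real.exp (H a b T) * pp h a b T)
        ≤ Real.exp (H a b r) * pp h a b r := by
  set B : ℝ → Prop := fun r => ∀ a b, x a b ≠ 0 →
    rho4 R Q m v T a b r * (Real.exp (H a b T) * pp h a b T) ≤ Real.exp (H a b r) * pp h a b r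
    with hB
  set S : Set ℝ := {r | ∀ σ ∈ Icc T r, B σ} with hS
  suffices hsub : Icc T t ⊆ S from fun r hr => hsub hr r ⟨hr.1, le_rfl⟩
  have e0 : ∀ a b, 0 < Real.exp (H a b T) := fun a b => Real.exp_pos _
  have hw0 : ∀ r ∈ Icc T t, r - T ∈ Icc 0 (1 - T) := fun r hr => Tn.mem hr.1 (hr.2.trans ht)
  have BT : B T := fun a b _ => by
    unfold rho4
    rw [sub_self, mul_zero, sub_zero, tg2_zero, mul_zero, add_zero, one_mul]
  have cB : ∀ a b, ContinuousOn (fun r => Real.exp (H a b r) * pp h a b r) (Icc T t) :=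
    fun a b => by
    refine ContinuousOn.mul ?_ ((pp_cont hh _ _).mono (Icc_subset_Icc T0 ht))
    have : Continuous (H a b) := continuous_iff_continuousAt.2 fun r => (hh.Hd _ _ r).continuousAt
    exact (Real.continuous_exp.comp this).continuousOn
  have cR : ∀ a b, Continuous (fun r => rho4 R Q m v T a b r) := fun a b => by
    unfold rho4
    have c2 : Continuous (tg2 m v) := continuous_iff_continuousAt.2 fun s =>
      (tg2_deriv m v s).continuousAt
    exact (continuous_const.sub (continuous_const.mul (continuous_id.sub continuous_const))).add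
      (continuous_const.mul (c2.comp (continuous_id.sub continuous_const)))
  refine IsClosed.Icc_subset_of_forall_exists_gt ?_ ?_ ?_
  · -- closed
    have e : S ∩ Icc T t = (⋂ p : {p : (Icc (0 : ℝ) 1) × V × V // x p.2.1 p.2.2 ≠ 0},
        {r ∈ Icc T t | rho4 R Q m v T p.1.2.1 p.1.2.2 (T + (p.1.1 : ℝ) * (r - T))
          * (Real.exp (H p.1.2.1 p.1.2.2 T) * pp h p.1.2.1 p.1.2.2 T)
          ≤ Real.exp (H p.1.2.1 p.1.2.2 (T + (p.1.1 : ℝ) * (r - T)))
            * pp h p.1.2.1 p.1.2.2 (T + (p.1.1 : ℝ) * (r - T))}) ∩ Icc T t := by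
      ext r
      simp only [hS, hB, mem_inter_iff, mem_ofPred_eq, mem_iInter]
      constructor
      · rintro ⟨h1, h2⟩
        refine ⟨fun p => ⟨h2, ?_⟩, h2⟩
        obtain ⟨θ0, θ1⟩ := p.1.1.2
        have i0 : 0 ≤ r - T := sub_nonneg.2 h2.1
        have i1 : (p.1.1 : ℝ) * (r - T) ≤ 1 * (r - T) := mul_le_mul_of_nonneg_right θ1 i0
        exact h1 _ ⟨by linarith [mul_nonneg θ0 i0], by linarith⟩ _ _ p.2
      · rintro ⟨h1, h2⟩
        refine ⟨fun σ hσ a b hab => ?_, h2⟩
        rcases eq_or_lt_of_le h2.1 with h3 | h3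
        · have : σ = T := le_antisymm (by rw [h3]; exact hσ.2) hσ.1
          rw [this]
          exact BT a b hab
        · have i0 : 0 < r - T := sub_pos.2 h3
          have k := (h1 ⟨(⟨(σ - T) / (r - T), div_nonneg (by linarith [hσ.1]) i0.le,
            (div_le_one i0).2 (by linarith [hσ.2])⟩, a, b), hab⟩).2
          have e1 : T + (σ - T) / (r - T) * (r - T) = σ := by
            rw [div_mul_cancel₀ _ i0.ne']; ring
          simp only [e1] at k
          exact k
    rw [e]
    refine (isClosed_iInter fun p => ?_).inter isClosed_Icc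
    have hmaps : MapsTo (fun r => T + (p.1.1 : ℝ) * (r - T)) (Icc T t) (Icc T t) := fun r hr => by
      obtain ⟨θ0, θ1⟩ := p.1.1.2
      have i0 : 0 ≤ r - T := sub_nonneg.2 hr.1
      have i1 : (p.1.1 : ℝ) * (r - T) ≤ 1 * (r - T) := mul_le_mul_of_nonneg_right θ1 i0
      exact ⟨by linarith [mul_nonneg θ0 i0], by linarith [hr.2]⟩
    have cm : Continuous (fun r => T + (p.1.1 : ℝ) * (r - T)) := by fun_prop
    refine isClosed_Icc.isClosed_le ?_ ?_
    · exact (((cR _ _).comp cm).mul continuous_const).continuousOn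
    · exact (cB _ _).comp cm.continuousOn hmaps
  · -- the start
    intro σ hσ
    have : σ = T := le_antisymm hσ.2 hσ.1
    rw [this]
    exact BT
  · -- the step
    rintro r ⟨hrS, hr⟩ y hy
    have hr2 : r ∈ Icc T t := ⟨hr.1, hr.2.le⟩
    have hr1 : r ∈ Icc (0 : ℝ) 1 := ⟨T0.trans hr.1, hr.2.le.trans ht⟩
    have hT2 : T ∈ Icc T t := ⟨le_rfl, hr.1.trans hr.2.le⟩
    have hT1 : T ∈ Icc (0 : ℝ) 1 := ⟨T0, hr.1.trans hr1.2⟩
    -- the hazards
    have hz1 : ∀ σ ∈ Icc T r, ∀ a c, h σ a c ≤ h T a c * Real.exp (H a c σ - H a c T) :=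
        fun σ hσ a c => by
      have hσ2 : σ ∈ Icc T t := ⟨hσ.1, hσ.2.trans hr.2.le⟩
      by_cases h0 : x a c = 0
      · rw [hz σ hσ2 a c h0, hz T hT2 a c h0]; simp
      have k1 := hrS σ hσ a c h0
      have k2 := hfl σ hσ2 a c
      have k3 := hfl T hT2 a c
      have k4 := feq σ hσ2 a c h0
      have k5 := pT a c h0
      have ρ0 : 0 < rho4 R Q m v T a c σ := hn.rho_pos hσ.1 (hσ2.2.trans ht)
      set ρ := rho4 R Q m v T a c σ with hρ
      have k6 : h σ a c * pp h a c σ = ρ * (h T a c * pp h a c T) := by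
        rw [k2, k3, k4]; ring
      have k7 : ρ * (Real.exp (-(H a c σ - H a c T)) * pp h a c T) ≤ pp h a c σ := by
        have i1 := mul_le_mul_of_nonneg_left k1 (Real.exp_pos (-H a c σ)).le
        have i2 : Real.exp (-H a c σ) * (Real.exp (H a c σ) * pp h a c σ) = pp h a c σ := by
          rw [← mul_assoc, ← Real.exp_add, neg_add_cancel, Real.exp_zero, one_mul]
        have i3 : Real.exp (-H a c σ) * (ρ * (Real.exp (H a c T) * pp h a c T))
            = ρ * (Real.exp (-(H a c σ - H a c T)) * pp h a c T) := by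
          have : -(H a c σ - H a c T) = -H a c σ + H a c T := by ring
          rw [this, Real.exp_add]
          ring
        rw [i2, i3] at i1
        exact i1
      have k8 : h σ a c * (ρ * (Real.exp (-(H a c σ - H a c T)) * pp h a c T))
          ≤ ρ * (h T a c * pp h a c T) :=
        (mul_le_mul_of_nonneg_left k7 (hh.nonneg σ a c)).trans k6.le
      have k9 : (h σ a c * Real.exp (-(H a c σ - H a c T))) * (ρ * pp h a c T)
          ≤ h T a c * (ρ * pp h a c T) := by linarith
      have k10 := le_of_mul_le_mul_right k9 (mul_pos ρ0 k5)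
      have k11 := mul_le_mul_of_nonneg_right k10 (Real.exp_pos (H a c σ - H a c T)).le
      rwa [mul_assoc, ← Real.exp_add, neg_add_cancel, Real.exp_zero, mul_one] at k11
    -- the hazards are bounded below
    have hz2 : ∀ σ ∈ Icc T r, ∀ a c, (1 - v * (σ - T)) * h T a c ≤ h σ a c := fun σ hσ a c => by
      have hσ2 : σ ∈ Icc T t := ⟨hσ.1, hσ.2.trans hr.2.le⟩
      have hσ1 : σ ∈ Icc (0 : ℝ) 1 := ⟨T0.trans hσ.1, hσ2.2.trans ht⟩
      by_cases h0 : x a c = 0
      · rw [hz σ hσ2 a c h0, hz T hT2 a c h0]; simp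
      have hac : a ≠ c := fun e => h0 (by rw [e]; exact xd c)
      have k2 := hfl σ hσ2 a c
      have k3 := hfl T hT2 a c
      have k4 := feq σ hσ2 a c h0
      have ρ0 : 0 < rho4 R Q m v T a c σ := hn.rho_pos hσ.1 (hσ2.2.trans ht)
      have ρ1 : 1 - v * (σ - T) ≤ rho4 R Q m v T a c σ := hn.rho_ge hσ.1 (hσ2.2.trans ht)
      have k6 : h σ a c * pp h a c σ = rho4 R Q m v T a c σ * (h T a c * pp h a c T) := by
        rw [k2, k3, k4]; ring
      have hx0 : 0 < x a c := lt_of_le_of_ne (x0 a c) (Ne.symm h0)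
      have p0 : 0 ≤ pp h a c σ := pp_nonneg hh a c hσ1
      have k7 : 0 < h σ a c * pp h a c σ := by
        rw [k2, k4]
        exact mul_pos hx0 (mul_pos ρ0 (fT a c h0))
      have p1 : 0 < pp h a c σ := lt_of_le_of_ne p0 fun e => by rw [← e, mul_zero] at k7; exact lt_irrefl _ k7
      -- `pp` decreases
      have k8 : pp h a c σ ≤ pp h a c T := by
        have key := nonneg_of_forward (a := T) (s := r) (U := fun z => pp h a c T - pp h a c z)
          (U' := fun z => 0 - (-(h z a c * pp h a c z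
            + ∑ d ∈ ({a, c} : Finset V)ᶜ, (h z a d + h z c d) * ppp h a c d z)))
          (fun z hz => (hasDerivAt_const z _).sub (pp_deriv hh hac
            ⟨T0.trans hz.1, hz.2.trans hr1.2⟩))
          (by simp) (fun z hz _ => by
            have hz1 : z ∈ Icc (0 : ℝ) 1 := ⟨T0.trans hz.1, hz.2.trans hr1.2⟩
            have i1 := mul_nonneg (hh.nonneg z a c) (pp_nonneg hh a c hz1)
            have i2 : 0 ≤ ∑ d ∈ ({a, c} : Finset V)ᶜ, (h z a d + h z c d) * ppp h a c d z :=
              Finset.sum_nonneg fun d _ => mul_nonneg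
                (add_nonneg (hh.nonneg z a d) (hh.nonneg z c d)) (ppp_nonneg hh a c d hz1)
            linarith) σ hσ
        linarith
      have hT0 := hh.nonneg T a c
      have k9 : rho4 R Q m v T a c σ * (h T a c * pp h a c σ) ≤ h σ a c * pp h a c σ := by
        rw [k6]
        exact mul_le_mul_of_nonneg_left (mul_le_mul_of_nonneg_left k8 hT0) ρ0.le
      have k10 : rho4 R Q m v T a c σ * h T a c ≤ h σ a c := by
        refine le_of_mul_le_mul_right ?_ p1
        linarith
      exact (mul_le_mul_of_nonneg_right ρ1 hT0).trans k10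
    -- the sums of the hazards
    have hm1 : ∀ σ ∈ Icc T r, 0 < 1 - m * (σ - T) := fun σ hσ => by
      have := mul_le_mul_of_nonneg_left (show σ - T ≤ 1 - T by linarith [hσ.2, hr1.2]) hn.m0
      linarith [hn.m1]
    have hms : ∀ σ ∈ Icc T r, ∀ w, (∑ g, h σ w g) * (1 - m * (σ - T)) ≤ m := fun σ hσ w => by
      rw [Finset.sum_mul]
      refine le_trans (Finset.sum_le_sum fun g _ => ?_) (hm w)
      have n1 := hh.nonneg T w g
      have hsum : h T w g ≤ m := (Finset.single_le_sum (f := fun g => h T w g)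
        (fun g _ => hh.nonneg T w g) (Finset.mem_univ g)).trans (hm w)
      -- `e^{-DH} ≥ 1 - h τ`
      have key := nonneg_of_forward (a := T) (s := r)
        (U := fun z => Real.exp (-(H w g z - H w g T)) - (1 - h T w g * (z - T)))
        (U' := fun z => Real.exp (-(H w g z - H w g T)) * (-(h z w g)) - (0 - h T w g * 1))
        (fun z _ => by
          have d1 : HasDerivAt (fun z => Real.exp (-(H w g z - H w g T)))
              (Real.exp (-(H w g z - H w g T)) * (-(h z w g))) z :=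
            ((hh.Hd w g z).sub_const (H w g T)).neg.exp
          have d2 : HasDerivAt (fun z => 1 - h T w g * (z - T)) (0 - h T w g * 1) z :=
            (hasDerivAt_const z _).sub (((hasDerivAt_id z).sub_const T).const_mul (h T w g))
          exact d1.sub d2)
        (by simp only [sub_self, neg_zero, Real.exp_zero, mul_zero, sub_zero, le_refl])
        (fun z hz _ => by
          have i1 := hz1 z hz w g
          have i2 := mul_le_mul_of_nonneg_left i1 (Real.exp_pos (-(H w g z - H w g T))).le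
          have i3 : Real.exp (-(H w g z - H w g T)) * (h T w g * Real.exp (H w g z - H w g T))
              = h T w g := by
            rw [mul_comm (h T w g), ← mul_assoc, ← Real.exp_add, neg_add_cancel, Real.exp_zero,
              one_mul]
          rw [i3] at i2
          linarith) σ hσ
      have k1 : 1 - m * (σ - T) ≤ Real.exp (-(H w g σ - H w g T)) := by
        have := mul_le_mul_of_nonneg_right hsum (sub_nonneg.2 hσ.1)
        linarith
      calc h σ w g * (1 - m * (σ - T))
          ≤ (h T w g * Real.exp (H w g σ - H w g T)) * (1 - m * (σ - T)) :=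
            mul_le_mul_of_nonneg_right (hz1 σ hσ w g) (hm1 σ hσ).le
        _ ≤ (h T w g * Real.exp (H w g σ - H w g T)) * Real.exp (-(H w g σ - H w g T)) :=
            mul_le_mul_of_nonneg_left k1 (mul_nonneg n1 (Real.exp_pos _).le)
        _ = h T w g := by
            rw [mul_assoc, ← Real.exp_add, add_neg_cancel, Real.exp_zero, mul_one]
    -- the decay of the triples
    have hzv : ∀ z ∈ Icc T r, 0 ≤ 1 - v * (z - T) := fun z hz => by
      have := mul_le_mul_of_nonneg_left (show z - T ≤ 1 - T by linarith [hz.2, hr1.2]) hn.v0.le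
      linarith [hn.v1]
    have hext : ∀ a b c, a ≠ b → a ≠ c → b ≠ c → ∀ z ∈ Icc T r,
        tg' m v (z - T) * Yq h T a b c ≤ ∑ e ∈ ({a, b, c} : Finset V)ᶜ,
          (h z a e + h z b e) * pr (lw h ∅ z) {a, b, c, e} := fun a b c hab hac hbc z hz => by
      unfold Yq
      rw [Finset.mul_sum]
      refine Finset.sum_le_sum fun e he => ?_
      have hcard : ({a, b, c, e} : Finset V).card ≤ 4 := Finset.card_le_four
      have k1 := pr_low hh (T := T) (t := r) T0 hr1.2 hn.m0 (by
          have := hm1 r ⟨hr.1, le_rfl⟩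
          linarith)
        (fun σ hσ w => hms σ hσ w) hcard z hz
      have k2 : (1 - v * (z - T)) * (h T a e + h T b e) ≤ h z a e + h z b e := by
        have i1 := hz2 z hz a e
        have i2 := hz2 z hz b e
        linarith
      have p0 : 0 ≤ pr (lw h ∅ T) ({a, b, c, e} : Finset V) := (hh.lw ∅).pr_nonneg _ hT1
      have k3 : 0 ≤ (1 - m * (z - T)) ^ 4 * pr (lw h ∅ T) ({a, b, c, e} : Finset V) :=
        mul_nonneg (pow_nonneg (hm1 z hz).le _) p0
      have k4 : 0 ≤ h z a e + h z b e := add_nonneg (hh.nonneg z a e) (hh.nonneg z b e)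
      calc tg' m v (z - T) * ((h T a e + h T b e) * pr (lw h ∅ T) {a, b, c, e})
          = ((1 - v * (z - T)) * (h T a e + h T b e))
            * ((1 - m * (z - T)) ^ 4 * pr (lw h ∅ T) {a, b, c, e}) := by
            unfold tg'; ring
        _ ≤ (h z a e + h z b e)
            * ((1 - m * (z - T)) ^ 4 * pr (lw h ∅ T) {a, b, c, e}) :=
            mul_le_mul_of_nonneg_right k2 k3
        _ ≤ (h z a e + h z b e) * pr (lw h ∅ z) {a, b, c, e} :=
            mul_le_mul_of_nonneg_left k1 k4
    have hint : ∀ a b c u w, ∀ z ∈ Icc T r,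
        tg' m v (z - T) * (h T u w * ppp h a b c T) ≤ h z u w * ppp h a b c z :=
        fun a b c u w z hz => by
      have hcard : ({a, b, c} : Finset V).card ≤ 4 := Finset.card_le_three.trans (by norm_num)
      have k1 := pr_low hh (T := T) (t := r) T0 hr1.2 hn.m0 (by
          have := hm1 r ⟨hr.1, le_rfl⟩
          linarith)
        (fun σ hσ w => hms σ hσ w) hcard z hz
      have k1' : (1 - m * (z - T)) ^ 4 * ppp h a b c T ≤ ppp h a b c z := k1
      have k2 := hz2 z hz u w
      have p0 : 0 ≤ ppp h a b c T := ppp_nonneg hh a b c hT1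
      have k3 : 0 ≤ (1 - m * (z - T)) ^ 4 * ppp h a b c T :=
        mul_nonneg (pow_nonneg (hm1 z hz).le _) p0
      calc tg' m v (z - T) * (h T u w * ppp h a b c T)
          = ((1 - v * (z - T)) * h T u w) * ((1 - m * (z - T)) ^ 4 * ppp h a b c T) := by
            unfold tg'; ring
        _ ≤ h z u w * ((1 - m * (z - T)) ^ 4 * ppp h a b c T) :=
            mul_le_mul_of_nonneg_right k2 k3
        _ ≤ h z u w * ppp h a b c z := mul_le_mul_of_nonneg_left k1' (hh.nonneg z u w)
    have hdec : ∀ a b c, a ≠ b → a ≠ c → b ≠ c →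
        ppp h a b c r * Real.exp (H a b r - H a b T + (H a c r - H a c T))
          + tg m v (r - T) * (Yq h T a b c + h T b c * ppp h a b c T) ≤ ppp h a b c T ∧
        ppp h a b c r * Real.exp (H a b r - H a b T + (H b c r - H b c T))
          + tg m v (r - T) * (Yq h T a b c + h T a c * ppp h a b c T) ≤ ppp h a b c T :=
        fun a b c hab hac hbc => by
      constructor
      · refine ppp_ext hh hab hac hbc (T := T) (t := r) T0 hr1.2
          (E := fun z => H a b z - H a b T + (H a c z - H a c T))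
          (e := fun z => h z a b + h z a c) (k := fun z => h z b c)
          (g := fun z => tg m v (z - T))
          (g' := fun z => tg' m v (z - T)) (Y := Yq h T a b c + h T b c * ppp h a b c T)
          (by ring) (fun z => ((hh.Hd a b z).sub_const (H a b T)).add
            ((hh.Hd a c z).sub_const (H a c T))) (fun z hz => ?_) (fun z => hh.nonneg z b c)
          (fun z => rfl) (by rw [sub_self, tg_zero])
          (fun z _ => (tg_deriv m v (z - T)).comp_sub_const z T) (fun z hz => ?_)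
          r ⟨hr.1, le_rfl⟩
        · have m1 := H_mono hh a b hz.1
          have m2 := H_mono hh a c hz.1
          show 0 ≤ H a b z - H a b T + (H a c z - H a c T)
          linarith
        · rw [mul_add]
          exact add_le_add (hext a b c hab hac hbc z hz) (hint a b c b c z hz)
      · refine ppp_ext hh hab hac hbc (T := T) (t := r) T0 hr1.2
          (E := fun z => H a b z - H a b T + (H b c z - H b c T))
          (e := fun z => h z a b + h z b c) (k := fun z => h z a c)
          (g := fun z => tg m v (z - T))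
          (g' := fun z => tg' m v (z - T)) (Y := Yq h T a b c + h T a c * ppp h a b c T)
          (by ring) (fun z => ((hh.Hd a b z).sub_const (H a b T)).add
            ((hh.Hd b c z).sub_const (H b c T))) (fun z hz => ?_) (fun z => hh.nonneg z a c)
          (fun z => by ring) (by rw [sub_self, tg_zero])
          (fun z _ => (tg_deriv m v (z - T)).comp_sub_const z T) (fun z hz => ?_)
          r ⟨hr.1, le_rfl⟩
        · have m1 := H_mono hh a b hz.1
          have m2 := H_mono hh b c hz.1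
          show 0 ≤ H a b z - H a b T + (H b c z - H b c T)
          linarith
        · rw [mul_add]
          exact add_le_add (hext a b c hab hac hbc z hz) (hint a b c a c z hz)
    have hγ := tg_mem hn.m0 hn.m1.le hn.v0 hn.v1 (hw0 r hr2)
    have hev : ∀ a b, x a b ≠ 0 → ∀ᶠ z in 𝓝[>] r,
        rho4 R Q m v T a b z * (Real.exp (H a b T) * pp h a b T)
          ≤ Real.exp (H a b z) * pp h a b z := fun a b h0 => by
      have huv : a ≠ b := fun e => h0 (by rw [e]; exact xd b)
      have d1 : HasDerivAt (fun z => Real.exp (H a b z) * pp h a b z)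
          (Real.exp (H a b r) * h r a b * pp h a b r + Real.exp (H a b r) * (-(h r a b * pp h a b r
            + ∑ c ∈ ({a, b} : Finset V)ᶜ, (h r a c + h r b c) * ppp h a b c r))) r :=
        ((hh.Hd a b r).exp).mul (pp_deriv hh huv hr1)
      have d2 : HasDerivAt (fun z => rho4 R Q m v T a b z * (Real.exp (H a b T) * pp h a b T))
          ((0 - R a b * 1 + Q a b * (tg m v (r - T) * 1))
            * (Real.exp (H a b T) * pp h a b T)) r := by
        unfold rho4
        exact (((hasDerivAt_const r _).sub (((hasDerivAt_id r).sub_const T).const_mul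
          (R a b))).add (((tg2_deriv m v (r - T)).comp r
            ((hasDerivAt_id r).sub_const T)).const_mul (Q a b))).mul_const _
      -- the sum
      have hsum : Real.exp (H a b r - H a b T)
          * ∑ c ∈ ({a, b} : Finset V)ᶜ, (h r a c + h r b c) * ppp h a b c r
          ≤ ∑ c ∈ ({a, b} : Finset V)ᶜ, ((h T a c + h T b c)
            * (ppp h a b c T - tg m v (r - T) * Yq h T a b c)
            - tg m v (r - T) * (2 * (h T a c * h T b c) * ppp h a b c T)) := by
        rw [Finset.mul_sum]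
        refine Finset.sum_le_sum fun c hc => ?_
        simp only [Finset.mem_compl, Finset.mem_insert, Finset.mem_singleton, not_or] at hc
        obtain ⟨dec1, dec2⟩ := hdec a b c huv (Ne.symm hc.1) (Ne.symm hc.2)
        have p0 := ppp_nonneg hh a b c hr1
        have t1 : Real.exp (H a b r - H a b T) * (h r a c * ppp h a b c r)
            ≤ h T a c * (ppp h a b c T
              - tg m v (r - T) * (Yq h T a b c + h T b c * ppp h a b c T)) := by
          have n1 := hh.nonneg T a c
          calc Real.exp (H a b r - H a b T) * (h r a c * ppp h a b c r)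
              ≤ Real.exp (H a b r - H a b T)
                * ((h T a c * Real.exp (H a c r - H a c T)) * ppp h a b c r) :=
                mul_le_mul_of_nonneg_left (mul_le_mul_of_nonneg_right
                  (hz1 r ⟨hr.1, le_rfl⟩ a c) p0) (Real.exp_pos _).le
            _ = h T a c * (ppp h a b c r
                * Real.exp (H a b r - H a b T + (H a c r - H a c T))) := by
                rw [Real.exp_add]; ring
            _ ≤ _ := mul_le_mul_of_nonneg_left (by linarith) n1
        have t2 : Real.exp (H a b r - H a b T) * (h r b c * ppp h a b c r)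
            ≤ h T b c * (ppp h a b c T
              - tg m v (r - T) * (Yq h T a b c + h T a c * ppp h a b c T)) := by
          have n1 := hh.nonneg T b c
          calc Real.exp (H a b r - H a b T) * (h r b c * ppp h a b c r)
              ≤ Real.exp (H a b r - H a b T)
                * ((h T b c * Real.exp (H b c r - H b c T)) * ppp h a b c r) :=
                mul_le_mul_of_nonneg_left (mul_le_mul_of_nonneg_right
                  (hz1 r ⟨hr.1, le_rfl⟩ b c) p0) (Real.exp_pos _).le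
            _ = h T b c * (ppp h a b c r
                * Real.exp (H a b r - H a b T + (H b c r - H b c T))) := by
                rw [Real.exp_add]; ring
            _ ≤ _ := mul_le_mul_of_nonneg_left (by linarith) n1
        have e3 : Real.exp (H a b r - H a b T) * ((h r a c + h r b c) * ppp h a b c r)
            = Real.exp (H a b r - H a b T) * (h r a c * ppp h a b c r)
            + Real.exp (H a b r - H a b T) * (h r b c * ppp h a b c r) := by ring
        rw [e3]
        refine (add_le_add t1 t2).trans (le_of_eq ?_)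
        ring
      have hrate := rate a b huv h0 (tg m v (r - T)) hγ
      have hexp : Real.exp (H a b r) = Real.exp (H a b T) * Real.exp (H a b r - H a b T) := by
        rw [← Real.exp_add]; congr 1; ring
      have hfin : Real.exp (H a b r)
          * ∑ c ∈ ({a, b} : Finset V)ᶜ, (h r a c + h r b c) * ppp h a b c r
          < (R a b - tg m v (r - T) * Q a b) * (Real.exp (H a b T) * pp h a b T) := by
        rw [hexp, mul_assoc]
        calc Real.exp (H a b T) * (Real.exp (H a b r - H a b T)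
              * ∑ c ∈ ({a, b} : Finset V)ᶜ, (h r a c + h r b c) * ppp h a b c r)
            < Real.exp (H a b T) * ((R a b - tg m v (r - T) * Q a b) * pp h a b T) :=
              mul_lt_mul_of_pos_left (lt_of_le_of_lt hsum hrate) (e0 a b)
          _ = _ := by ring
      have hu := ev_nonneg (d1.sub d2) (by linarith)
        (sub_nonneg.2 (hrS r ⟨hr.1, le_rfl⟩ a b h0))
      filter_upwards [hu] with z hz
      exact sub_nonneg.1 hz
    have hall : ∀ᶠ z in 𝓝[>] r, B z := by
      have : ∀ᶠ z in 𝓝[>] r, ∀ p : V × V, x p.1 p.2 ≠ 0 →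
          rho4 R Q m v T p.1 p.2 z * (Real.exp (H p.1 p.2 T) * pp h p.1 p.2 T)
            ≤ Real.exp (H p.1 p.2 z) * pp h p.1 p.2 z := by
        rw [Filter.eventually_all]
        intro p
        by_cases hp : x p.1 p.2 ≠ 0
        · filter_upwards [hev p.1 p.2 hp] with z hz _
          exact hz
        · exact Filter.Eventually.of_forall fun z h0 => absurd h0 hp
      filter_upwards [this] with z hz a b h0
      exact hz (a, b) h0
    obtain ⟨u, hu1, hu2⟩ := (mem_nhdsGT_iff_exists_Ioo_subset).1 hall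
    have hy' : r < y := hy
    have hu1' : r < u := hu1
    refine ⟨min y ((r + u) / 2), fun σ hσ => ?_, lt_min hy' (by linarith), min_le_left _ _⟩
    rcases le_or_gt σ r with h1 | h1
    · exact hrS σ ⟨hσ.1, h1⟩
    · exact hu2 ⟨h1, lt_of_le_of_lt (hσ.2.trans (min_le_right _ _)) (by linarith)⟩

end tail

end Pool.Agent.RX.RCN
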