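import Pool.Agent.RX.RCN.YkC

/-! Two-time columns of the closure exponents: position sums, exact families and the adjoint
functional (MP_73ccd0_lc, route M). -/

namespace Pool.Agent.RX.RCN.K

open Set Finset MeasureTheory Pool.Agent.RX.RCRSHalf Pool.Agent.RX.RCG Pool.Agent.RX.RCG.Ct

set_option linter.unusedSectionVars false

variable {V : Type*} [Fintype V] [DecidableEq V]
variable {Z : Hzd} {F : Lz V} {x : V → V → ℝ} {P : V → Prop} [DecidablePred P]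
variable {sl : ℝ → ℝ → ℝ} {τ : ℝ} {B E1 : ℝ → ℝ → ℝ} {m' q : ℝ} {D : Finset V}
variable {gp gm gs : V → V → ℝ → ℝ} {E E' κ κ' : V → ℝ → ℝ} {k : Yk}

/-- continuity of the scalar functions -/
structure Yk.Co (k : Yk) (τ : ℝ) : Prop where
  m : ContinuousOn k.m (Icc 0 τ)
  μ1 : ContinuousOn k.μ1 (Icc 0 τ)
  μk : ContinuousOn k.μk (Icc 0 τ)
  μ2 : ContinuousOn k.μ2 (Icc 0 τ)
  R : ContinuousOn k.R (Icc 0 τ)
  kE : ContinuousOn k.kE (Icc 0 τ)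
  kk : ContinuousOn k.kk (Icc 0 τ)
  k1 : ContinuousOn k.k1 (Icc 0 τ)
  AM : ContinuousOn k.AM (Icc 0 τ)
  AP : ContinuousOn k.AP (Icc 0 τ)
  x3 : ContinuousOn k.x3 (Icc 0 τ)
  Gp : ContinuousOn k.Gp (Icc 0 τ)
  Gm : ContinuousOn k.Gm (Icc 0 τ)

/-- the position sums of a vertex with the horizon `τ` -/
structure Yp where
  WP : ℝ → ℝ
  WP' : ℝ → ℝ
  VP : ℝ → ℝ
  VP' : ℝ → ℝ
  UP : ℝ → ℝ
  UP' : ℝ → ℝ

/-- the conditions of the position sums -/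
structure Yp.Ok (p : Yp) (k : Yk) (q τ : ℝ) : Prop where
  dW : ∀ r ∈ Icc 0 τ, HasDerivAt p.WP (p.WP' r) r
  dV : ∀ r ∈ Icc 0 τ, HasDerivAt p.VP (p.VP' r) r
  dU : ∀ r ∈ Icc 0 τ, HasDerivAt p.UP (p.UP' r) r
  W0 : ∀ r ∈ Icc 0 τ, 0 ≤ p.WP r
  V0 : ∀ r ∈ Icc 0 τ, 0 ≤ p.VP r
  U0 : ∀ r ∈ Icc 0 τ, 0 ≤ p.UP r
  oW : ∀ r ∈ Icc 0 τ, k.m r * k.R r * k.bb r ≤ -p.WP' r
  oV : ∀ r ∈ Icc 0 τ, (k.m r * k.R r + k.m r * k.AM r) * (p.WP r + p.UP r)
    + k.m r * k.AP r * (k.b3 r + k.C4 q r * p.VP r) ≤ -p.VP' r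
  oU : ∀ r ∈ Icc 0 τ, k.m r * k.R r * (k.C1 q r * p.VP r)
    + k.m r * k.AP r * (p.WP r + p.UP r)
    + k.m r * k.AM r * (k.b3 r + k.C4 q r * p.VP r) ≤ -p.UP' r

/-- the adjoint functions of the columns -/
structure Yc where
  hV : ℝ → ℝ
  hV' : ℝ → ℝ
  hU : ℝ → ℝ
  hU' : ℝ → ℝ
  hW : ℝ → ℝ
  hW' : ℝ → ℝ
  hw : ℝ → ℝ
  hw' : ℝ → ℝ
  h1 : ℝ → ℝ
  h1' : ℝ → ℝ

/-- the conditions; `P1`, `P2` are the sources, `v`, `w` the initial values -/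
structure Yc.Ok (j : Yc) (k : Yk) (q τ v w : ℝ) (P1 P2 : ℝ → ℝ) : Prop where
  dV : ∀ r ∈ Icc 0 τ, HasDerivAt j.hV (j.hV' r) r
  dU : ∀ r ∈ Icc 0 τ, HasDerivAt j.hU (j.hU' r) r
  dW : ∀ r ∈ Icc 0 τ, HasDerivAt j.hW (j.hW' r) r
  dw : ∀ r ∈ Icc 0 τ, HasDerivAt j.hw (j.hw' r) r
  d1 : ∀ r ∈ Icc 0 τ, HasDerivAt j.h1 (j.h1' r) r
  v0 : 0 ≤ j.hV 0
  vU : v ≤ j.hU 0
  wW : w ≤ j.hW 0
  w0 : 0 ≤ j.hw 0
  i0 : 0 ≤ j.h1 0
  oV : ∀ r ∈ Icc 0 τ, k.m r * (k.Gp r * k.kE r * k.C4 q r * j.hV r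
    + (k.μ2 r * k.C1 q r + k.Gm r * k.kE r * k.C4 q r) * j.hU r
    + k.kE r * k.C4 q r * P2 r) ≤ j.hV' r
  oU : ∀ r ∈ Icc 0 τ, k.m r * ((k.μ2 r + k.Gm r * k.kE r) * j.hV r
    + k.Gp r * k.kE r * j.hU r + k.kE r * P1 r) ≤ j.hU' r
  oW : ∀ r ∈ Icc 0 τ, k.m r * ((k.μk r + k.Gm r * k.kk r) * j.hV r
    + k.Gp r * k.kk r * j.hU r + k.kk r * P1 r) ≤ j.hW' r
  ow : ∀ r ∈ Icc 0 τ, k.m r * (k.k1 r * (k.Gp r * j.hV r + k.Gm r * j.hU r + P2 r)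
    + k.μ1 r * j.hW r) ≤ j.hw' r
  o1 : ∀ r ∈ Icc 0 τ, -k.bb' r * j.hw r
    + k.m r * (k.x3 r * (k.k1 r * (k.Gp r * j.hV r + k.Gm r * j.hU r + P2 r))) ≤ j.h1' r

section basic

variable (h : k.Ok Z F x P gp gm gs τ D B m' q E E' κ κ')
include h

/-- **position sums of a vertex with the horizon `τ`** -/
theorem Yk.Ok.pos (co : k.Co τ) (hC : Z.Cf B E1) (hZ : Z.Ok sl)
    (hx : Wt x P 1) (τ0 : 0 ≤ τ) (hτ : τ ≤ bt) {p : Yp} (hp : p.Ok k q τ) {c : V} (hc : c ∈ Dᶜ)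
    {pp nn : V → ℝ → ℝ} (hl : Tls Z F x P τ D gp gs B q m' τ c pp nn)
    (ep : ∑ e ∈ Dᶜ.erase c, pp e τ = 0) (en : ∑ e ∈ Dᶜ.erase c, nn e τ = 0) :
    ∀ r ∈ Icc 0 τ, ∑ e ∈ Dᶜ.erase c, N1 Z F x P D τ c e r ≤ dmp x D c * p.WP r ∧
      ∑ e ∈ Dᶜ.erase c, pp e r ≤ dmp x D c * p.VP r ∧
      ∑ e ∈ Dᶜ.erase c, nn e r ≤ dmp x D c * p.UP r := by
  have hττ : τ ∈ Icc 0 τ := ⟨τ0, le_rfl⟩
  have hτ1 : τ ∈ Icc (0 : ℝ) bt := ⟨τ0, hτ⟩
  have d0 := dmp_nonneg hx D c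
  have bbτ := h.bb0 hC hτ hττ
  obtain ⟨p', n', hpn⟩ := h.tu hC hZ hx hτ hττ hl
  have f1 : ∀ r ∈ Icc 0 τ, ∀ b ∈ Dᶜ.erase c, ∑ e ∈ Dᶜ.erase c, K1 Z F x P r e b
      ≤ k.m r * k.R r := fun r hr b hb => by
    have H := h.kv r hr
    refine le_trans ?_ (H.row_R (Finset.mem_of_mem_erase hb))
    refine (Finset.sum_le_sum_of_subset_of_nonneg (Finset.erase_subset _ _)
      fun e _ _ => H.T0 e b).trans (le_of_eq ?_)
    exact Finset.sum_congr rfl fun e _ => H.Ts e b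
  have R0 : ∀ r ∈ Icc 0 τ, 0 ≤ k.m r * k.R r := fun r hr => by
    have H := h.kv r hr
    exact (Finset.sum_nonneg fun e _ => H.T0 c e).trans (H.row_R hc)
  have hge : ∀ (g : V → V → ℝ → ℝ) (A : ℝ → ℝ), (∀ i j, ∀ r ∈ Icc 0 τ, 0 ≤ g i j r) →
      (∀ r ∈ Icc 0 τ, ∀ z ∈ Dᶜ, RCM.qc Dᶜ (K1 Z F x P r) (fun y => ∑ e ∈ Dᶜ, g e y r) z
        ≤ k.m r * A r) →
      ∀ r ∈ Icc 0 τ, ∀ a : V → ℝ, (∀ x ∈ Dᶜ.erase c, 0 ≤ a x) →
        ∑ e ∈ Dᶜ.erase c, RCM.Qo (Dᶜ.erase c) (K1 Z F x P r) (fun x => g e x r) a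
          ≤ k.m r * A r * ∑ x ∈ Dᶜ.erase c, a x := by
    intro g A g0 hA r hr a a0
    have H := h.kv r hr
    have e1 : ∑ e ∈ Dᶜ.erase c, RCM.Qo (Dᶜ.erase c) (K1 Z F x P r) (fun x => g e x r) a
        = RCM.Qo (Dᶜ.erase c) (K1 Z F x P r) (fun x => ∑ e ∈ Dᶜ.erase c, g e x r) a := by
      have := RCM.Qo_sum1 (Dᶜ.erase c) (K1 Z F x P r) a (Dᶜ.erase c) (fun _ => 1)
        (fun e x => g e x r)
      simpa only [one_mul] using this
    rw [e1]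
    refine RCM.Qo_le_of (Finset.erase_subset _ _) H.T0
      (fun f _ => Finset.sum_nonneg fun e _ => g0 e f r hr) (fun f hf => ?_)
      (hA r hr) a0
    exact Finset.sum_le_sum_of_subset_of_nonneg (Finset.erase_subset _ _)
      fun e _ _ => g0 e f r hr
  -- the leading part
  have ci : ∀ e, ContinuousOn (fun ρ => ∑ f ∈ Dᶜ.erase c, K1 Z F x P ρ e f * Z.Dd x P τ c f ρ)
      (Icc 0 τ) := fun e => continuousOn_finsetSum _ fun f _ =>
    (h.cT e f).mul ((hZ.Dd_cont hx τ c f).mono (Icc_subset_Icc_right hτ))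
  have w1 : ∀ r ∈ Icc 0 τ, ∑ e ∈ Dᶜ.erase c, N1 Z F x P D τ c e r ≤ dmp x D c * p.WP r := by
    refine RCM.tback_le (f' := fun r => ∑ e ∈ Dᶜ.erase c, -∑ f ∈ Dᶜ.erase c,
        K1 Z F x P r e f * Z.Dd x P τ c f r) (g' := fun r => dmp x D c * p.WP' r)
      (fun r hr => HasDerivAt.fun_sum fun e _ => RCM.bk_deriv τ0 (ci e) hr)
      (fun r hr => (hp.dW r hr).const_mul _) (fun r hr => ?_) ?_
    · have H := h.kv r hr
      have s1 : ∑ e ∈ Dᶜ.erase c, ∑ f ∈ Dᶜ.erase c, K1 Z F x P r e f * Z.Dd x P τ c f r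
          ≤ ∑ f ∈ Dᶜ.erase c, (k.m r * k.R r) * Z.Dd x P τ c f r := by
        rw [Finset.sum_comm]
        refine Finset.sum_le_sum fun f hf => ?_
        rw [← Finset.sum_mul]
        exact mul_le_mul_of_nonneg_right (f1 r hr f hf) (hZ.Dd_nonneg hx hτ1 c f hr)
      rw [← Finset.mul_sum] at s1
      have b1 : ∀ a f, Z.Dd x P τ a f r ≤ x a f * k.bb r := fun a f => by
        have h1 := h.Dσ hC hZ hx hτ hττ hr a f
        have h2 := mul_nonneg (hx.nonneg a f) bbτ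
        nlinarith
      have s2 := mul_le_mul_of_nonneg_left
        (sum_pos_x hx (D := D) (h.bb0 hC hτ hr) b1 c) (R0 r hr)
      have s3 := mul_le_mul_of_nonneg_left (hp.oW r hr) d0
      rw [Finset.sum_neg_distrib, neg_neg]
      nlinarith [s1, s2, s3]
    · have e0 : ∑ e ∈ Dᶜ.erase c, N1 Z F x P D τ c e τ = 0 := Finset.sum_eq_zero fun e _ => by
        unfold N1
        exact RCM.bk_self _ _
      rw [e0]
      exact mul_nonneg d0 (hp.W0 τ hττ)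
  have key := RCM.tl_pos (E := fun _ _ => 0) (lam := fun r => k.m r * k.R r)
    (As := fun r => k.m r * k.AM r) (Ap := fun r => k.m r * k.AP r)
    (W := fun r => dmp x D c * p.WP r) (Dl := fun r => dmp x D c * k.b3 r) (Ee := fun _ => 0)
    (Vv := fun r => dmp x D c * p.VP r) (Vv' := fun r => dmp x D c * p.VP' r)
    (Uu := fun r => dmp x D c * p.UP r) (Uu' := fun r => dmp x D c * p.UP' r) hpn
    (fun i r hr => D3f_nonneg hC hZ hx hτ h.q0 h.m0 le_rfl c i hr)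
    (fun _ _ _ => le_rfl) (fun i r hr => N1_nonneg hZ hx hτ1 c i hr)
    (fun r hr => h.C10 hC hτ hr) (fun r hr => h.C40 hC hτ hr) R0
    (fun r hr => mul_nonneg (h.kv r hr).m0 (h.AM0 r hr))
    (fun r hr => mul_nonneg (h.kv r hr).m0 (h.AP0 r hr))
    (co.m.mul co.R) (co.m.mul co.AM) (co.m.mul co.AP) h.cC1 h.cC4 f1
    (hge gs k.AM h.gs0 h.aM) (hge gp k.AP h.gp0 h.aP) w1 (fun r hr => ?_)
    (fun r hr => by simp)
    { dV := fun r hr => (hp.dV r hr).const_mul _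
      dU := fun r hr => (hp.dU r hr).const_mul _
      W0 := fun r hr => mul_nonneg d0 (hp.W0 r hr)
      D0 := fun r hr => mul_nonneg d0 (add_nonneg (h.bb0 hC hτ hr) (h.x30 r hr))
      E0 := fun _ _ => le_rfl
      V0 := fun r hr => mul_nonneg d0 (hp.V0 r hr)
      U0 := fun r hr => mul_nonneg d0 (hp.U0 r hr)
      oV := fun r hr => by
        have := mul_le_mul_of_nonneg_left (hp.oV r hr) d0
        refine le_trans (le_of_eq ?_) (this.trans (le_of_eq ?_)) <;> ring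
      oU := fun r hr => by
        have := mul_le_mul_of_nonneg_left (hp.oU r hr) d0
        refine le_trans (le_of_eq ?_) (this.trans (le_of_eq ?_)) <;> ring }
    (by rw [ep]; exact mul_nonneg d0 (hp.V0 τ hττ)) (by rw [en]; exact mul_nonneg d0 (hp.U0 τ hττ))
  · exact fun r hr => ⟨w1 r hr, (key r hr).1, (key r hr).2⟩
  · have b0 : 0 ≤ k.b3 r := add_nonneg (h.bb0 hC hτ hr) (h.x30 r hr)
    have b1 : ∀ a f, D3f Z x P B τ q m' τ a f r ≤ x a f * k.b3 r := fun a f => by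
      have h1 := h.D3σ hC hZ hx hτ hττ hr a f
      have h2 := mul_nonneg (hx.nonneg a f) bbτ
      unfold Yk.b3
      nlinarith
    refine (sum_pos_x hx b0 b1 c).trans (le_of_eq (by ring))

/-- **the exact family functions of the horizon `s`** -/
theorem Yk.Ok.exact (co : k.Co τ) (hC : Z.Cf B E1) (hτ : τ ≤ bt) {s : ℝ} (hs : s ∈ Icc 0 τ)
    {c : V} (hc : c ∈ Dᶜ) {v0 u0 : ℝ} (hv : 0 ≤ v0) (hu : 0 ≤ u0) :
    ∃ W V1 U1 : ℝ → ℝ, W s = 0 ∧ V1 s = v0 ∧ U1 s = u0 ∧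
      k.Ch q s (fun r => k.bb r - k.bb s) (fun r => k.bb r - k.bb s + k.x3 r)
        W (fun r => -(k.m r * k.μ1 r * (k.bb r - k.bb s)))
        V1 (fun r => -(k.m r * (k.μ2 r * U1 r + k.μk r * W r
          + k.Gm r * (k.kE r * U1 r + k.kk r * W r)
          + k.Gp r * (k.k1 r * (k.bb r - k.bb s + k.x3 r) + k.kE r * (k.C4 q r * V1 r)))))
        U1 (fun r => -(k.m r * (k.μ2 r * (k.C1 q r * V1 r)
          + k.Gp r * (k.kE r * U1 r + k.kk r * W r)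
          + k.Gm r * (k.k1 r * (k.bb r - k.bb s + k.x3 r)
            + k.kE r * (k.C4 q r * V1 r))))) := by
  have mτ : ∀ r ∈ Icc 0 s, r ∈ Icc 0 τ := fun r hr => ⟨hr.1, hr.2.trans hs.2⟩
  have sub : Icc 0 s ⊆ Icc 0 τ := Icc_subset_Icc_right hs.2
  have c0 : ∀ r ∈ Icc 0 τ, 0 ≤ k.m r ∧ 0 ≤ k.μ1 r ∧ 0 ≤ k.μk r ∧ 0 ≤ k.μ2 r := fun r hr => by
    have H := h.kv r hr
    exact ⟨H.m0, (mul_nonneg (H.κ0 hc) (H.ρ0 c hc)).trans (H.h1 c hc),
      (mul_nonneg (H.κ0 hc) (H.wk0 hc)).trans (H.hk c hc),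
      (mul_nonneg (H.κ0 hc) (H.w0 hc)).trans (H.h2 c hc)⟩
  have b0 : ∀ r ∈ Icc 0 s, 0 ≤ k.bb r - k.bb s := fun r hr => h.be0 hC hτ hs hr
  have s1 : s ∈ Icc (0 : ℝ) 1 := ⟨hs.1, hs.2.trans (hτ.trans bt_le)⟩
  have cb : ContinuousOn k.bb (Icc 0 s) := h.cbb.mono sub
  have cm := co.m.mono sub
  have c1 := co.μ1.mono sub
  have ck := co.μk.mono sub
  have c2 := co.μ2.mono sub
  have cE := co.kE.mono sub
  have ckk := co.kk.mono sub
  have ck1 := co.k1.mono sub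
  have cx := co.x3.mono sub
  have cp := co.Gp.mono sub
  have cg := co.Gm.mono sub
  have cC1 : ContinuousOn (k.C1 q) (Icc 0 s) := h.cC1.mono sub
  have cC4 : ContinuousOn (k.C4 q) (Icc 0 s) := h.cC4.mono sub
  have cbs : ContinuousOn (fun r => k.bb r - k.bb s) (Icc 0 s) := cb.sub continuousOn_const
  let T : ℝ → Fin 3 → Fin 3 → ℝ := fun r => ![![0, 0, 0],
    ![k.m r * (k.μk r + k.Gm r * k.kk r), k.m r * (k.Gp r * (k.kE r * k.C4 q r)),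
      k.m r * (k.μ2 r + k.Gm r * k.kE r)],
    ![k.m r * (k.Gp r * k.kk r), k.m r * (k.μ2 r * k.C1 q r + k.Gm r * (k.kE r * k.C4 q r)),
      k.m r * (k.Gp r * k.kE r)]]
  let S : ℝ → Fin 3 → ℝ := fun r => ![k.m r * k.μ1 r * (k.bb r - k.bb s),
    k.m r * (k.Gp r * (k.k1 r * (k.bb r - k.bb s + k.x3 r))),
    k.m r * (k.Gm r * (k.k1 r * (k.bb r - k.bb s + k.x3 r)))]
  have T0 : ∀ r ∈ Icc 0 s, ∀ i j, 0 ≤ T r i j := by
    intro r hr i j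
    obtain ⟨m0, m1, mk, m2⟩ := c0 r (mτ r hr)
    have g1 := h.Gp0 r (mτ r hr)
    have g2 := h.Gm0 r (mτ r hr)
    have g3 := h.kE0 r (mτ r hr)
    have g4 := h.kk0 r (mτ r hr)
    have g5 := h.C10 hC hτ (mτ r hr)
    have g6 := h.C40 hC hτ (mτ r hr)
    fin_cases i <;> fin_cases j <;> simp [T] <;> positivity
  have S0 : ∀ r ∈ Icc 0 s, ∀ i, 0 ≤ S r i := by
    intro r hr i
    obtain ⟨m0, m1, mk, m2⟩ := c0 r (mτ r hr)
    have g0 := b0 r hr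
    have g1 := h.Gp0 r (mτ r hr)
    have g2 := h.Gm0 r (mτ r hr)
    have g3 := h.k10 r (mτ r hr)
    have g4 := h.x30 r (mτ r hr)
    have g5 : 0 ≤ k.bb r - k.bb s + k.x3 r := add_nonneg g0 g4
    fin_cases i
    · exact mul_nonneg (mul_nonneg m0 m1) g0
    · exact mul_nonneg m0 (mul_nonneg g1 (mul_nonneg g3 g5))
    · exact mul_nonneg m0 (mul_nonneg g2 (mul_nonneg g3 g5))
  obtain ⟨u, e1, du, u0'⟩ := RCM.exists_lin (ι := Fin 3) s1 (T := T) (σ := S)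
    (fun i j => by
      fin_cases i <;> fin_cases j
      · exact continuousOn_const
      · exact continuousOn_const
      · exact continuousOn_const
      · exact cm.mul (ck.add (cg.mul ckk))
      · exact cm.mul (cp.mul (cE.mul cC4))
      · exact cm.mul (c2.add (cg.mul cE))
      · exact cm.mul (cp.mul ckk)
      · exact cm.mul ((c2.mul cC1).add (cg.mul (cE.mul cC4)))
      · exact cm.mul (cp.mul cE))
    (fun i => by
      fin_cases i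
      · exact (cm.mul c1).mul cbs
      · exact cm.mul (cp.mul (ck1.mul (cbs.add cx)))
      · exact cm.mul (cg.mul (ck1.mul (cbs.add cx))))
    T0 S0 (u1 := ![0, v0, u0]) (fun i => by fin_cases i <;> simp [hv, hu])
  refine ⟨u 0, u 1, u 2, by simpa using e1 0, by simpa using e1 1, by simpa using e1 2,
    { b0 := b0
      d0 := fun r hr => add_nonneg (b0 r hr) (h.x30 r (mτ r hr))
      dW := fun r hr => (du 0 r hr).congr_deriv ?_
      dV := fun r hr => (du 1 r hr).congr_deriv ?_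
      dU := fun r hr => (du 2 r hr).congr_deriv ?_
      W0 := u0' 0
      V0 := u0' 1
      U0 := u0' 2
      oW := fun r _ => by rw [neg_neg]
      oV := fun r _ => by rw [neg_neg]
      oU := fun r _ => by rw [neg_neg] }⟩
  · simp [Fin.sum_univ_three, T, S]
  · simp only [Fin.sum_univ_three, T, S, Matrix.cons_val_zero, Matrix.cons_val_one,
      Matrix.cons_val_two, Matrix.head_cons, Matrix.tail_cons]
    ring
  · simp only [Fin.sum_univ_three, T, S, Matrix.cons_val_zero, Matrix.cons_val_one,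
      Matrix.cons_val_two, Matrix.head_cons, Matrix.tail_cons]
    ring

end basic

/-- the scalar inequality of the adjoint functional -/
theorem adjC_scalar {m μ1 μk μ2 Gp Gm kE kk k1 C1 C4 x3 be bb' W V1 U1 hV hU hW hw
    hV' hU' hW' hw' h1' P1 P2 : ℝ}
    (W0 : 0 ≤ W) (V0 : 0 ≤ V1) (U0 : 0 ≤ U1) (b0 : 0 ≤ be)
    (oV : m * (Gp * kE * C4 * hV + (μ2 * C1 + Gm * kE * C4) * hU + kE * C4 * P2) ≤ hV')
    (oU : m * ((μ2 + Gm * kE) * hV + Gp * kE * hU + kE * P1) ≤ hU')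
    (oW : m * ((μk + Gm * kk) * hV + Gp * kk * hU + kk * P1) ≤ hW')
    (ow : m * (k1 * (Gp * hV + Gm * hU + P2) + μ1 * hW) ≤ hw')
    (o1 : -bb' * hw + m * (x3 * (k1 * (Gp * hV + Gm * hU + P2))) ≤ h1') :
    m * (kE * U1 + kk * W) * P1 + m * (k1 * (be + x3) + kE * (C4 * V1)) * P2
      ≤ hV' * V1 + hV * (-(m * (μ2 * U1 + μk * W + Gm * (kE * U1 + kk * W)
          + Gp * (k1 * (be + x3) + kE * (C4 * V1)))))
        + (hU' * U1 + hU * (-(m * (μ2 * (C1 * V1) + Gp * (kE * U1 + kk * W)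
          + Gm * (k1 * (be + x3) + kE * (C4 * V1))))))
        + (hW' * W + hW * (-(m * μ1 * be))) + (hw' * be + hw * bb') + h1' := by
  have a1 := mul_le_mul_of_nonneg_right oV V0
  have a2 := mul_le_mul_of_nonneg_right oU U0
  have a3 := mul_le_mul_of_nonneg_right oW W0
  have a4 := mul_le_mul_of_nonneg_right ow b0
  linarith

/-- **the adjoint functional on an exact family**: for `c0 c1 ≤` the initial values -/
theorem Yc.Ok.int_le {j : Yc} {v w : ℝ} {P1 P2 : ℝ → ℝ} (hj : j.Ok k q τ v w P1 P2)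
    {s : ℝ} (hs : s ∈ Icc 0 τ) (v0 : 0 ≤ v) (w0 : 0 ≤ w)
    (dbb : ∀ r ∈ Icc 0 τ, HasDerivAt k.bb (k.bb' r) r) {W V1 U1 : ℝ → ℝ}
    (Ws : W s = 0)
    (hc : k.Ch q s (fun r => k.bb r - k.bb s) (fun r => k.bb r - k.bb s + k.x3 r)
        W (fun r => -(k.m r * k.μ1 r * (k.bb r - k.bb s)))
        V1 (fun r => -(k.m r * (k.μ2 r * U1 r + k.μk r * W r
          + k.Gm r * (k.kE r * U1 r + k.kk r * W r)
          + k.Gp r * (k.k1 r * (k.bb r - k.bb s + k.x3 r) + k.kE r * (k.C4 q r * V1 r)))))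
        U1 (fun r => -(k.m r * (k.μ2 r * (k.C1 q r * V1 r)
          + k.Gp r * (k.kE r * U1 r + k.kk r * W r)
          + k.Gm r * (k.k1 r * (k.bb r - k.bb s + k.x3 r)
            + k.kE r * (k.C4 q r * V1 r))))))
    {g : ℝ → ℝ} (cg : ContinuousOn g (Icc 0 s)) {ρ : ℝ} (ρ0 : 0 ≤ ρ)
    (hg : ∀ z ∈ Icc 0 s, g z ≤ ρ * (k.m z * (k.kE z * U1 z + k.kk z * W z) * P1 z
      + k.m z * (k.k1 z * (k.bb z - k.bb s + k.x3 z) + k.kE z * (k.C4 q z * V1 z)) * P2 z)) :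
    (∫ z in (0 : ℝ)..s, g z) + ρ * (v * U1 0 + w * W 0)
      ≤ ρ * (j.hV s * V1 s + j.hU s * U1 s + j.h1 s) := by
  have mτ : ∀ r ∈ Icc 0 s, r ∈ Icc 0 τ := fun r hr => ⟨hr.1, hr.2.trans hs.2⟩
  have key := int_le_prim (g := fun r => ρ * (j.hV r * V1 r + j.hU r * U1 r + j.hW r * W r
      + j.hw r * (k.bb r - k.bb s) + j.h1 r))
    (g' := fun r => ρ * (j.hV' r * V1 r + j.hV r * (-(k.m r * (k.μ2 r * U1 r + k.μk r * W r
          + k.Gm r * (k.kE r * U1 r + k.kk r * W r)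
          + k.Gp r * (k.k1 r * (k.bb r - k.bb s + k.x3 r) + k.kE r * (k.C4 q r * V1 r)))))
        + (j.hU' r * U1 r + j.hU r * (-(k.m r * (k.μ2 r * (k.C1 q r * V1 r)
          + k.Gp r * (k.kE r * U1 r + k.kk r * W r)
          + k.Gm r * (k.k1 r * (k.bb r - k.bb s + k.x3 r)
            + k.kE r * (k.C4 q r * V1 r))))))
        + (j.hW' r * W r + j.hW r * (-(k.m r * k.μ1 r * (k.bb r - k.bb s))))
        + (j.hw' r * (k.bb r - k.bb s) + j.hw r * k.bb' r) + j.h1' r))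
    hs.1 cg (fun r hr => ?_) fun z hz => (hg z hz).trans ?_
  · have h00 : (0 : ℝ) ∈ Icc 0 s := ⟨le_rfl, hs.1⟩
    have V0 := hc.V0 0 h00
    have U0 := hc.U0 0 h00
    have W0 := hc.W0 0 h00
    have b0 := hc.b0 0 h00
    have y1 := mul_nonneg hj.v0 V0
    have y2 := mul_le_mul_of_nonneg_right hj.vU U0
    have y3 := mul_le_mul_of_nonneg_right hj.wW W0
    have y4 := mul_nonneg hj.w0 b0
    have y5 := hj.i0
    have z1 : v * U1 0 + w * W 0 ≤ j.hV 0 * V1 0 + j.hU 0 * U1 0 + j.hW 0 * W 0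
        + j.hw 0 * (k.bb 0 - k.bb s) + j.h1 0 := by linarith
    have z2 := mul_le_mul_of_nonneg_left z1 ρ0
    rw [Ws] at key
    simp only [sub_self, mul_zero, add_zero] at key
    linarith
  · have hr' := mτ r hr
    have dβ : HasDerivAt (fun r => k.bb r - k.bb s) (k.bb' r) r := (dbb r hr').sub_const _
    exact (((((((hj.dV r hr').mul (hc.dV r hr)).add ((hj.dU r hr').mul (hc.dU r hr))).add
      ((hj.dW r hr').mul (hc.dW r hr))).add ((hj.dw r hr').mul dβ)).add (hj.d1 r hr'))).const_mul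
      ρ
  · have hz' := mτ z hz
    refine mul_le_mul_of_nonneg_left ?_ ρ0
    exact adjC_scalar (hc.W0 z hz) (hc.V0 z hz) (hc.U0 z hz) (hc.b0 z hz) (hj.oV z hz')
      (hj.oU z hz') (hj.oW z hz') (hj.ow z hz') (hj.o1 z hz')

end Pool.Agent.RX.RCN.K
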