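import Pool.Agent.RX.RCN.YcA
import Pool.Agent.RX.RCN.YkS

/-! Two-time columns of the closure exponents (MP_73ccd0_lc, route M). -/

namespace Pool.Agent.RX.RCN.K

open Set Finset MeasureTheory Pool.Agent.RX.RCRSHalf Pool.Agent.RX.RCG Pool.Agent.RX.RCG.Ct

set_option linter.unusedSectionVars false

variable {V : Type*} [Fintype V] [DecidableEq V]
variable {Z : Hzd} {F : Lz V} {x : V → V → ℝ} {P : V → Prop} [DecidablePred P]
variable {sl : ℝ → ℝ → ℝ} {τ sg : ℝ} {B E1 : ℝ → ℝ → ℝ} {m' q : ℝ} {D : Finset V}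
variable {G : Fm V} {E E' κ κ' : V → ℝ → ℝ} {k : Yk}

/-- the sources of the columns -/
noncomputable def Yp.P1 (p : Yp) (k : Yk) (q r : ℝ) : ℝ := k.b3 r + k.C4 q r * p.VP r

def Yp.P2 (p : Yp) (r : ℝ) : ℝ := p.WP r + p.UP r

section cols

variable (h : k.Ok Z F x P G.gp G.gm G.gs τ D B m' q E E' κ κ') (co : k.Co τ)
  (hC : Z.Cf B E1) (hZ : Z.Ok sl) (hx : Wt x P 1) (hτ : τ ≤ bt)
  (hG : G.Tk Z F x P sg τ D B m' q) (cB : ContinuousOn (B τ) (Icc 0 τ))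
  {s : ℝ} (hs : s ∈ Icc 0 τ) {p : Yp} (hp : p.Ok k q τ) {j jn : Yc} {v w : ℝ}
  (hj : j.Ok k q τ 0 0 (p.P1 k q) p.P2) (hn : jn.Ok k q τ v w (fun _ => 0) (fun _ => 0))
  (v0 : 0 ≤ v) (w0 : 0 ≤ w) {c : V} (hc : c ∈ Dᶜ)

include h co hC hZ hx hτ hG cB hs hp hj hn v0 w0 hc

/-- columns of level 2 and the family sums at 0 -/
theorem Yk.Ok.col_gen {pd nd : V → V → ℝ → ℝ}
    (td : ∀ d ∈ Dᶜ, Tls Z F x P τ D G.gp G.gs B q m' s d (pd d) (nd d)) {u0 u1 : ℝ}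
    (hv : 0 ≤ u0) (hu : 0 ≤ u1)
    (ep : ∀ e ∈ Dᶜ, ∑ d ∈ Dᶜ.erase e, pd d e s ≤ u0 * (dmp x D e * E e s))
    (en : ∀ e ∈ Dᶜ, ∑ d ∈ Dᶜ.erase e, nd d e s ≤ u1 * (dmp x D e * E e s)) :
    ∑ d ∈ Dᶜ.erase c, Kdd Z F x P D c d τ s (D3f Z x P B τ q m') (C4f Z x P B τ q)
        (G.p c) (G.n c) (pd d) (nd d)
      ≤ dmp x D c * (j.hV s * u0 + j.hU s * u1 + j.h1 s) ∧
    v * ∑ d ∈ Dᶜ.erase c, nd d c 0 + w * ∑ d ∈ Dᶜ.erase c, N1 Z F x P D s d c 0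
      ≤ dmp x D c * (E c 0 * (jn.hV s * u0 + jn.hU s * u1 + jn.h1 s)) := by
  have τ0 := hs.1.trans hs.2
  have hττ : τ ∈ Icc 0 τ := ⟨τ0, le_rfl⟩
  have hs1 : s ∈ Icc (0 : ℝ) bt := ⟨hs.1, hs.2.trans hτ⟩
  have mτ : ∀ r ∈ Icc 0 s, r ∈ Icc 0 τ := fun r hr => ⟨hr.1, hr.2.trans hs.2⟩
  have d0 := dmp_nonneg hx D c
  have h00 : (0 : ℝ) ∈ Icc 0 s := ⟨le_rfl, hs.1⟩
  obtain ⟨W, V1, U1, Ws, Vs, Us, hch⟩ := h.exact co hC hτ hs hc hv hu
  have F1 : k.Fam Z F x P G.gp G.gs τ D B m' q E κ s pd nd W V1 U1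
      (fun r => k.bb r - k.bb s + k.x3 r) := by
    refine h.fam hC hZ hx hτ hs td hch (fun c f r hr => h.Dσ hC hZ hx hτ hs hr c f)
      (fun c f r hr => h.D3σ hC hZ hx hτ hs hr c f) (fun e he => ?_) (fun e he => ?_)
    · rw [Vs]; exact ep e he
    · rw [Us]; exact en e he
  have z1 : ∑ e ∈ Dᶜ.erase c, G.p c e τ = 0 := Finset.sum_eq_zero fun e he =>
    (hG.ec c e he).1
  have z2 : ∑ e ∈ Dᶜ.erase c, G.n c e τ = 0 := Finset.sum_eq_zero fun e he =>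
    (hG.ec c e he).2
  have pos := h.pos co hC hZ hx τ0 hτ hp hc (hG.tc c hc) z1 z2
  have K0 := h.kv 0 (mτ 0 h00)
  constructor
  · have cc : ∀ d ∈ Dᶜ.erase c, ContinuousOn (kint Z F x P D c d τ s (D3f Z x P B τ q m')
        (C4f Z x P B τ q) (G.p c) (G.n c) (pd d) (nd d)) (Icc 0 s) := fun d hd =>
      kint_cont (G := G)
        hZ hx hτ h.cT cB hs (hG.tc c hc) (td d (Finset.mem_of_mem_erase hd))
    have e1 : ∑ d ∈ Dᶜ.erase c, Kdd Z F x P D c d τ s (D3f Z x P B τ q m') (C4f Z x P B τ q)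
        (G.p c) (G.n c) (pd d) (nd d)
        = ∫ z in (0 : ℝ)..s, ∑ d ∈ Dᶜ.erase c, kint Z F x P D c d τ s (D3f Z x P B τ q m')
          (C4f Z x P B τ q) (G.p c) (G.n c) (pd d) (nd d) z := by
      rw [intervalIntegral.integral_finsetSum]
      · rfl
      · intro d hd
        have := cc d hd
        rw [← uIcc_of_le hs.1] at this
        exact this.intervalIntegrable
    have key := hj.int_le hs le_rfl le_rfl h.dbb Ws hch (continuousOn_finsetSum _ cc) d0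
      fun z hz => ?_
    · rw [e1]
      rw [Vs, Us] at key
      linarith
    · have hzτ := mτ z hz
      have H := h.kv z hzτ
      have g1 := h.K_gen hC hZ hx hτ hs hττ F1 (hG.tc c hc) hz hzτ
      obtain ⟨p1, p2, p3⟩ := pos z hzτ
      have bbτ := h.bb0 hC hτ hττ
      have b0 : 0 ≤ k.b3 z := add_nonneg (h.bb0 hC hτ hzτ) (h.x30 z hzτ)
      have b1 : ∀ a f, D3f Z x P B τ q m' τ a f z ≤ x a f * k.b3 z := fun a f => by
        have h1 := h.D3σ hC hZ hx hτ hττ hzτ a f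
        have h2 := mul_nonneg (hx.nonneg a f) bbτ
        unfold Yk.b3
        nlinarith
      have p4 := sum_pos_x (D := D) hx b0 b1 c
      have W0 := hch.W0 z hz
      have V0 := hch.V0 z hz
      have U0 := hch.U0 z hz
      have dd0 := hch.d0 z hz
      have c40 := h.C40 hC hτ hzτ
      have K1' : 0 ≤ k.m z * (k.kE z * U1 z + k.kk z * W z) :=
        mul_nonneg H.m0 (add_nonneg (mul_nonneg (h.kE0 z hzτ) U0) (mul_nonneg (h.kk0 z hzτ) W0))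
      have K2' : 0 ≤ k.m z * (k.k1 z * (k.bb z - k.bb s + k.x3 z)
          + k.kE z * (k.C4 q z * V1 z)) :=
        mul_nonneg H.m0 (add_nonneg (mul_nonneg (h.k10 z hzτ) dd0)
          (mul_nonneg (h.kE0 z hzτ) (mul_nonneg c40 V0)))
      have q1 : ∑ e ∈ Dᶜ.erase c, (D3f Z x P B τ q m' τ c e z + k.C4 q z * G.p c e z)
          ≤ dmp x D c * p.P1 k q z := by
        rw [Finset.sum_add_distrib, ← Finset.mul_sum]
        have := mul_le_mul_of_nonneg_left p2 c40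
        unfold Yp.P1
        linarith
      have q2 : ∑ e ∈ Dᶜ.erase c, (N1 Z F x P D τ c e z + G.n c e z) ≤ dmp x D c * p.P2 z := by
        rw [Finset.sum_add_distrib]
        unfold Yp.P2
        linarith
      have r1 := mul_le_mul_of_nonneg_left q1 K1'
      have r2 := mul_le_mul_of_nonneg_left q2 K2'
      refine le_trans (le_of_eq ?_) (g1.trans ((add_le_add r1 r2).trans (le_of_eq (by ring))))
      refine Finset.sum_congr rfl fun d _ => ?_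
      unfold kint
      rw [Finset.erase_right_comm, add_comm]
  · have key := hn.int_le (g := fun _ => 0) (ρ := dmp x D c * E c 0) hs v0 w0 h.dbb Ws hch
      continuousOn_const (K0.w0 hc) fun z _ => by simp
    rw [Vs, Us, intervalIntegral.integral_zero] at key
    have n1 := mul_le_mul_of_nonneg_left (F1.nt c hc 0 h00) v0
    have n2 := mul_le_mul_of_nonneg_left (F1.wt c hc 0 h00) w0
    have W0 := hch.W0 0 h00
    have n3 : w * (W 0 * (dmp x D c * κ c 0)) ≤ w * (W 0 * (dmp x D c * E c 0)) :=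
      mul_le_mul_of_nonneg_left (mul_le_mul_of_nonneg_left
        (mul_le_mul_of_nonneg_left (K0.κE c hc) d0) W0) w0
    nlinarith [key, n1, n2, n3]

/-- **columns of the deleted closure without level 1/2** -/
theorem Yk.Ok.X0D_col (hsg : s ≤ sg) (hv1 : 1 ≤ v) :
    ∑ d ∈ Dᶜ.erase c, X0D Z F x P G τ D s c d
      ≤ dmp x D c * (j.h1 s + p.UP 0 + E c 0 * jn.h1 s) := by
  have hs' : s ∈ Icc 0 sg := ⟨hs.1, hsg⟩
  have τ0 := hs.1.trans hs.2
  have h00 : (0 : ℝ) ∈ Icc 0 τ := ⟨le_rfl, τ0⟩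
  have hs1 : s ∈ Icc (0 : ℝ) bt := ⟨hs.1, hs.2.trans hτ⟩
  have K0 := h.kv 0 h00
  have ze : ∀ e ∈ Dᶜ, ∀ d ∈ Dᶜ.erase e, e ∈ Dᶜ.erase d := fun e he d hd =>
    Finset.mem_erase.2 ⟨(Finset.ne_of_mem_erase hd).symm, he⟩
  obtain ⟨k1, k2⟩ := h.col_gen co hC hZ hx hτ hG cB hs hp hj hn v0 w0 hc
    (pd := G.pd s) (nd := G.nd s) (fun d hd => hG.td s hs' d hd) (u0 := 0) (u1 := 0) le_rfl le_rfl
    (fun e he => by
      rw [Finset.sum_eq_zero fun d hd => hG.pd s hs' d (Finset.mem_of_mem_erase hd) e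
        (ze e he d hd), zero_mul])
    (fun e he => by
      rw [Finset.sum_eq_zero fun d hd => hG.nd s hs' d (Finset.mem_of_mem_erase hd) e
        (ze e he d hd), zero_mul])
  have p3 := (h.pos co hC hZ hx τ0 hτ hp hc (hG.tc c hc)
    (Finset.sum_eq_zero fun e he => (hG.ec c e he).1)
    (Finset.sum_eq_zero fun e he => (hG.ec c e he).2) 0 h00).2.2
  have h0s : (0 : ℝ) ∈ Icc 0 s := ⟨le_rfl, hs.1⟩
  have n0 : 0 ≤ ∑ d ∈ Dᶜ.erase c, G.nd s d c 0 := Finset.sum_nonneg fun d hd =>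
    (hG.td s hs' d (Finset.mem_of_mem_erase hd)).n0 c 0 h0s
  have n1 : 0 ≤ ∑ d ∈ Dᶜ.erase c, N1 Z F x P D s d c 0 := Finset.sum_nonneg fun d _ =>
    N1_nonneg hZ hx hs1 d c h0s
  have e1 : ∑ d ∈ Dᶜ.erase c, X0D Z F x P G τ D s c d
      = ∑ d ∈ Dᶜ.erase c, Kdd Z F x P D c d τ s (D3f Z x P B τ q m') (C4f Z x P B τ q)
        (G.p c) (G.n c) (G.pd s d) (G.nd s d)
        + ∑ d ∈ Dᶜ.erase c, G.n c d 0 + ∑ d ∈ Dᶜ.erase c, G.nd s d c 0 := by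
    rw [← Finset.sum_add_distrib, ← Finset.sum_add_distrib]
    refine Finset.sum_congr rfl fun d _ => ?_
    unfold X0D
    rw [hG.d3, hG.c4]
    ring
  have m1 := mul_le_mul_of_nonneg_right hv1 n0
  have m2 := mul_nonneg w0 n1
  rw [e1]
  nlinarith [k1, k2, p3, m1, m2]

/-- **columns of the released closure without level 1/2** -/
theorem Yk.Ok.X0T_col (hsg : s ≤ sg) (hv1 : 1 ≤ v) :
    ∑ d ∈ Dᶜ.erase c, X0T Z F x P G τ D s c d
      ≤ dmp x D c * (j.h1 s + p.UP 0 + E c 0 * jn.h1 s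
        + (j.hV s * k.Gm s + j.hU s * k.Gp s + p.VP s)
        + E c 0 * (jn.hV s * k.Gm s + jn.hU s * k.Gp s)) := by
  have hs' : s ∈ Icc 0 sg := ⟨hs.1, hsg⟩
  have τ0 := hs.1.trans hs.2
  have h00 : (0 : ℝ) ∈ Icc 0 τ := ⟨le_rfl, τ0⟩
  have hs1 : s ∈ Icc (0 : ℝ) bt := ⟨hs.1, hs.2.trans hτ⟩
  have ze : ∀ e ∈ Dᶜ, ∀ d ∈ Dᶜ.erase e, e ∈ Dᶜ.erase d := fun e he d hd =>
    Finset.mem_erase.2 ⟨(Finset.ne_of_mem_erase hd).symm, he⟩
  obtain ⟨k1, k2⟩ := h.col_gen co hC hZ hx hτ hG cB hs hp hj hn v0 w0 hc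
    (pd := G.pt s) (nd := G.nt s) (fun d hd => hG.tt s hs' d hd) (u0 := k.Gm s) (u1 := k.Gp s)
    (h.Gm0 s hs) (h.Gp0 s hs)
    (fun e he => by
      have a1 : ∑ d ∈ Dᶜ.erase e, G.pt s d e s = ∑ d ∈ Dᶜ.erase e, G.gm d e s :=
        Finset.sum_congr rfl fun d hd => hG.ptT s hs' d (Finset.mem_of_mem_erase hd) e
          (ze e he d hd)
      rw [a1]
      exact (Finset.sum_le_sum_of_subset_of_nonneg (Finset.erase_subset _ _) fun d _ _ =>
        h.gm0 d e s hs).trans (h.mc e he s hs))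
    (fun e he => by
      have a1 : ∑ d ∈ Dᶜ.erase e, G.nt s d e s = ∑ d ∈ Dᶜ.erase e, G.gp d e s :=
        Finset.sum_congr rfl fun d hd => hG.ntT s hs' d (Finset.mem_of_mem_erase hd) e
          (ze e he d hd)
      rw [a1]
      exact (Finset.sum_le_sum_of_subset_of_nonneg (Finset.erase_subset _ _) fun d _ _ =>
        h.gp0 d e s hs).trans (h.pc e he s hs))
  have pos := h.pos co hC hZ hx τ0 hτ hp hc (hG.tc c hc)
    (Finset.sum_eq_zero fun e he => (hG.ec c e he).1)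
    (Finset.sum_eq_zero fun e he => (hG.ec c e he).2)
  have p3 := (pos 0 h00).2.2
  have p4 := (pos s hs).2.1
  have h0s : (0 : ℝ) ∈ Icc 0 s := ⟨le_rfl, hs.1⟩
  have n0 : 0 ≤ ∑ d ∈ Dᶜ.erase c, G.nt s d c 0 := Finset.sum_nonneg fun d hd =>
    (hG.tt s hs' d (Finset.mem_of_mem_erase hd)).n0 c 0 h0s
  have n1 : 0 ≤ ∑ d ∈ Dᶜ.erase c, N1 Z F x P D s d c 0 := Finset.sum_nonneg fun d _ =>
    N1_nonneg hZ hx hs1 d c h0s
  have e1 : ∑ d ∈ Dᶜ.erase c, X0T Z F x P G τ D s c d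
      = ∑ d ∈ Dᶜ.erase c, Kdd Z F x P D c d τ s (D3f Z x P B τ q m') (C4f Z x P B τ q)
        (G.p c) (G.n c) (G.pt s d) (G.nt s d)
        + ∑ d ∈ Dᶜ.erase c, G.n c d 0 + ∑ d ∈ Dᶜ.erase c, G.nt s d c 0
        + ∑ d ∈ Dᶜ.erase c, G.p c d s := by
    rw [← Finset.sum_add_distrib, ← Finset.sum_add_distrib, ← Finset.sum_add_distrib]
    refine Finset.sum_congr rfl fun d _ => ?_
    unfold X0T
    rw [hG.d3, hG.c4]
    ring
  have m1 := mul_le_mul_of_nonneg_right hv1 n0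
  have m2 := mul_nonneg w0 n1
  rw [e1]
  nlinarith [k1, k2, p3, p4, m1, m2]

end cols

end Pool.Agent.RX.RCN.K
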