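import Pool.Agent.RX.RCM.FmE
import Pool.Agent.RX.RCM.KvA
import Pool.Agent.RX.RCM.TPos
import Pool.Agent.RX.RCM.TSum2
import Pool.Agent.RX.RCN.XrA

/-! Two-time rows of the closure exponents: scalar functions and target sums
(MP_73ccd0_lc, route M). -/

namespace Pool.Agent.RX.RCN.K

open Set Finset MeasureTheory Pool.Agent.RX.RCRSHalf Pool.Agent.RX.RCG Pool.Agent.RX.RCG.Ct

set_option linter.unusedSectionVars false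

variable {V : Type*} [Fintype V] [DecidableEq V]

/-- the scalar functions of a world -/
structure Yk where
  m : ℝ → ℝ
  μ1 : ℝ → ℝ
  μk : ℝ → ℝ
  μ2 : ℝ → ℝ
  R : ℝ → ℝ
  kE : ℝ → ℝ
  kk : ℝ → ℝ
  k1 : ℝ → ℝ
  AM : ℝ → ℝ
  AP : ℝ → ℝ
  bb : ℝ → ℝ
  bb' : ℝ → ℝ
  x3 : ℝ → ℝ
  Gp : ℝ → ℝ
  Gm : ℝ → ℝ

noncomputable def Yk.C1 (k : Yk) (q : ℝ) (r : ℝ) : ℝ := q * (1 + k.bb r)

noncomputable def Yk.C4 (k : Yk) (q : ℝ) (r : ℝ) : ℝ := q * (1 + k.bb r + k.bb r / 4)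

/-- the properties -/
structure Yk.Ok (k : Yk) (Z : Hzd) (F : Lz V) (x : V → V → ℝ) (P : V → Prop) [DecidablePred P]
    (gp gm gs : V → V → ℝ → ℝ) (τ : ℝ) (D : Finset V) (B : ℝ → ℝ → ℝ) (m' q : ℝ)
    (E E' κ κ' : V → ℝ → ℝ) : Prop where
  kv : ∀ r ∈ Icc 0 τ, RCM.Kv Dᶜ x (dmp x D) (fun e => E e r) (fun e => κ e r) (K1 Z F x P r)
    (k.m r) (k.μ1 r) (k.μk r) (k.μ2 r) (k.R r)
  dE : ∀ e ∈ Dᶜ, ∀ r ∈ Icc 0 τ, HasDerivAt (E e) (E' e r) r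
  E0 : ∀ e ∈ Dᶜ, ∀ r ∈ Icc 0 τ, E' e r ≤ 0
  dκ : ∀ e ∈ Dᶜ, ∀ r ∈ Icc 0 τ, HasDerivAt (κ e) (κ' e r) r
  κ0 : ∀ e ∈ Dᶜ, ∀ r ∈ Icc 0 τ, κ' e r ≤ 0
  qE : ∀ r ∈ Icc 0 τ, ∀ e ∈ Dᶜ, dmp x D e * E e r * (κ e r * ∑ f ∈ Dᶜ, x e f * κ f r)
    + k.μ2 r * (dmp x D e * κ e r) ≤ k.kE r
  qk : ∀ r ∈ Icc 0 τ, ∀ e ∈ Dᶜ, dmp x D e * κ e r * (κ e r * ∑ f ∈ Dᶜ, x e f * κ f r)
    + k.μk r * (dmp x D e * κ e r) ≤ k.kk r
  q1 : ∀ r ∈ Icc 0 τ, ∀ e ∈ Dᶜ, dmp x D e * (κ e r * ∑ f ∈ Dᶜ, x e f * κ f r)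
    + k.μ1 r * (dmp x D e * κ e r) ≤ k.k1 r
  aM : ∀ r ∈ Icc 0 τ, ∀ z ∈ Dᶜ, RCM.qc Dᶜ (K1 Z F x P r) (fun y => ∑ e ∈ Dᶜ, gs e y r) z
    ≤ k.m r * k.AM r
  aP : ∀ r ∈ Icc 0 τ, ∀ z ∈ Dᶜ, RCM.qc Dᶜ (K1 Z F x P r) (fun y => ∑ e ∈ Dᶜ, gp e y r) z
    ≤ k.m r * k.AP r
  kE0 : ∀ r ∈ Icc 0 τ, 0 ≤ k.kE r
  kk0 : ∀ r ∈ Icc 0 τ, 0 ≤ k.kk r
  k10 : ∀ r ∈ Icc 0 τ, 0 ≤ k.k1 r
  AM0 : ∀ r ∈ Icc 0 τ, 0 ≤ k.AM r
  AP0 : ∀ r ∈ Icc 0 τ, 0 ≤ k.AP r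
  bB : ∀ r ∈ Icc 0 τ, B τ r ≤ k.bb r
  bσ : ∀ σ ∈ Icc 0 τ, ∀ r ∈ Icc 0 σ, B σ r ≤ k.bb r - k.bb σ
  dbb : ∀ r ∈ Icc 0 τ, HasDerivAt k.bb (k.bb' r) r
  bb'0 : ∀ r ∈ Icc 0 τ, k.bb' r ≤ 0
  x30 : ∀ r ∈ Icc 0 τ, 0 ≤ k.x3 r
  hx3 : ∀ r ∈ Icc 0 τ, ∀ y ∈ Icc (0 : ℝ) 1,
    (1 + q * m') * k.bb r ^ 2 * (y * (1 - y)) + q * m' * k.bb r * y ≤ k.x3 r
  q0 : 0 ≤ q
  m0 : 0 ≤ m'
  gp0 : ∀ i j, ∀ r ∈ Icc 0 τ, 0 ≤ gp i j r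
  gm0 : ∀ i j, ∀ r ∈ Icc 0 τ, 0 ≤ gm i j r
  gs0 : ∀ i j, ∀ r ∈ Icc 0 τ, 0 ≤ gs i j r
  pr : ∀ e ∈ Dᶜ, ∀ r ∈ Icc 0 τ, ∑ f ∈ Dᶜ, gp e f r ≤ k.Gp r * (dmp x D e * E e r)
  pc : ∀ f ∈ Dᶜ, ∀ r ∈ Icc 0 τ, ∑ e ∈ Dᶜ, gp e f r ≤ k.Gp r * (dmp x D f * E f r)
  mr : ∀ e ∈ Dᶜ, ∀ r ∈ Icc 0 τ, ∑ f ∈ Dᶜ, gm e f r ≤ k.Gm r * (dmp x D e * E e r)
  mc : ∀ f ∈ Dᶜ, ∀ r ∈ Icc 0 τ, ∑ e ∈ Dᶜ, gm e f r ≤ k.Gm r * (dmp x D f * E f r)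
  sr : ∀ e ∈ Dᶜ, ∀ r ∈ Icc 0 τ, ∑ f ∈ Dᶜ, gs e f r ≤ k.Gm r * (dmp x D e * E e r)
  Gp0 : ∀ r ∈ Icc 0 τ, 0 ≤ k.Gp r
  Gm0 : ∀ r ∈ Icc 0 τ, 0 ≤ k.Gm r
  cT : ∀ e f, ContinuousOn (fun r => K1 Z F x P r e f) (Icc 0 τ)
  cgp : ∀ i j, ContinuousOn (gp i j) (Icc 0 τ)
  cgs : ∀ i j, ContinuousOn (gs i j) (Icc 0 τ)

variable {Z : Hzd} {F : Lz V} {x : V → V → ℝ} {P : V → Prop} [DecidablePred P]
variable {sl : ℝ → ℝ → ℝ} {τ : ℝ} {B E1 : ℝ → ℝ → ℝ} {m' q : ℝ} {D : Finset V}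
variable {gp gm gs : V → V → ℝ → ℝ} {E E' κ κ' : V → ℝ → ℝ} {k : Yk}

section basic

variable (h : k.Ok Z F x P gp gm gs τ D B m' q E E' κ κ')
include h

theorem Yk.Ok.bb0 (hC : Z.Cf B E1) (hτ : τ ≤ bt) {r : ℝ} (hr : r ∈ Icc 0 τ) : 0 ≤ k.bb r :=
  (hC.B_nonneg hr.1 hr.2 hτ).trans (h.bB r hr)

theorem Yk.Ok.be0 (hC : Z.Cf B E1) (hτ : τ ≤ bt) {σ : ℝ} (hσ : σ ∈ Icc 0 τ) {r : ℝ}
    (hr : r ∈ Icc 0 σ) : 0 ≤ k.bb r - k.bb σ :=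
  (hC.B_nonneg hr.1 hr.2 (hσ.2.trans hτ)).trans (h.bσ σ hσ r hr)

theorem Yk.Ok.C10 (hC : Z.Cf B E1) (hτ : τ ≤ bt) {r : ℝ} (hr : r ∈ Icc 0 τ) :
    0 ≤ k.C1 q r := mul_nonneg h.q0 (by linarith [h.bb0 hC hτ hr])

theorem Yk.Ok.C40 (hC : Z.Cf B E1) (hτ : τ ≤ bt) {r : ℝ} (hr : r ∈ Icc 0 τ) :
    0 ≤ k.C4 q r := mul_nonneg h.q0 (by linarith [h.bb0 hC hτ hr])

theorem Yk.Ok.cbb : ContinuousOn k.bb (Icc 0 τ) := fun r hr =>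
  (h.dbb r hr).continuousAt.continuousWithinAt

theorem Yk.Ok.cC1 : ContinuousOn (k.C1 q) (Icc 0 τ) :=
  continuousOn_const.mul (continuousOn_const.add h.cbb)

theorem Yk.Ok.cC4 : ContinuousOn (k.C4 q) (Icc 0 τ) :=
  continuousOn_const.mul ((continuousOn_const.add h.cbb).add (h.cbb.div_const 4))

theorem Yk.Ok.Dσ (hC : Z.Cf B E1) (hZ : Z.Ok sl) (hx : Wt x P 1) (hτ : τ ≤ bt) {σ r : ℝ}
    (hσ : σ ∈ Icc 0 τ) (hr : r ∈ Icc 0 σ) (c f : V) :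
    Z.Dd x P σ c f r ≤ x c f * (k.bb r - k.bb σ) :=
  (hC.Dd_le hZ hx ⟨hσ.1, hσ.2.trans hτ⟩ c f hr).trans
    (mul_le_mul_of_nonneg_left (h.bσ σ hσ r hr) (hx.nonneg c f))

/-- the bound of two exponents at the horizon `σ` -/
theorem Yk.Ok.D3σ (hC : Z.Cf B E1) (hZ : Z.Ok sl) (hx : Wt x P 1) (hτ : τ ≤ bt) {σ r : ℝ}
    (hσ : σ ∈ Icc 0 τ) (hr : r ∈ Icc 0 σ) (c f : V) :
    D3f Z x P B τ q m' σ c f r ≤ x c f * (k.bb r - k.bb σ + k.x3 r) := by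
  have hrτ : r ∈ Icc 0 τ := ⟨hr.1, hr.2.trans hσ.2⟩
  have hm := xw_mem hx c f
  have hB := hC.B_nonneg hr.1 hrτ.2 hτ
  have hb := h.bB r hrτ
  have h1 := h.Dσ hC hZ hx hτ hσ hr c f
  have qm := mul_nonneg h.q0 h.m0
  have h3 := mul_le_mul_of_nonneg_left (h.hx3 r hrτ (x c f) hm) hm.1
  have a1 : (1 + q * m') * B τ r ^ 2 ≤ (1 + q * m') * k.bb r ^ 2 :=
    mul_le_mul_of_nonneg_left (pow_le_pow_left₀ hB hb 2) (by linarith)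
  have a2 : q * m' * B τ r ≤ q * m' * k.bb r := mul_le_mul_of_nonneg_left hb qm
  have b1 := mul_le_mul_of_nonneg_right a1
    (mul_nonneg (sq_nonneg (x c f)) (by linarith [hm.2] : 0 ≤ 1 - x c f))
  have b2 := mul_le_mul_of_nonneg_right a2 (sq_nonneg (x c f))
  unfold D3f
  nlinarith [b1, b2, h1, h3]

theorem Yk.Ok.C4_le (hC : Z.Cf B E1) (hZ : Z.Ok sl)
    (hx : Wt x P 1) (hτ : τ ≤ bt) {r : ℝ} (hr : r ∈ Icc 0 τ) (c b : V) :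
    C4f Z x P B τ q c b r ≤ k.C4 q r := by
  have hτ1 : τ ∈ Icc (0 : ℝ) bt := ⟨hr.1.trans hr.2, hτ⟩
  have h1 := hC.Dd_le hZ hx hτ1 c b hr
  have h2 := mul_le_mul_of_nonneg_right (xw_mem hx c b).2 (hC.B_nonneg hr.1 hr.2 hτ)
  exact mul_le_mul_of_nonneg_left (by linarith [h.bB r hr]) h.q0

/-- the tail system with scalar coefficients -/
theorem Yk.Ok.tu (hC : Z.Cf B E1) (hZ : Z.Ok sl)
    (hx : Wt x P 1) (hτ : τ ≤ bt) {σ : ℝ} (hσ : σ ∈ Icc 0 τ) {c : V} {pp nn : V → ℝ → ℝ}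
    (hl : Tls Z F x P τ D gp gs B q m' σ c pp nn) :
    ∃ p' n', RCM.Tu (Dᶜ.erase c) σ (K1 Z F x P) (D3f Z x P B τ q m' σ c) (fun _ _ => 0)
      (N1 Z F x P D σ c) gp gs (k.C1 q) (k.C4 q) pp p' nn n' := by
  have mτ : ∀ r ∈ Icc 0 σ, r ∈ Icc 0 τ := fun r hr => ⟨hr.1, hr.2.trans hσ.2⟩
  have hτ1 : τ ∈ Icc (0 : ℝ) bt := ⟨hσ.1.trans hσ.2, hτ⟩
  have hd : ∀ b, ∀ r ∈ Icc 0 σ, Z.Dd x P τ c b r ≤ k.bb r := fun b r hr => by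
    have h1 := hC.Dd_le hZ hx hτ1 c b (mτ r hr)
    have h2 := mul_le_mul_of_nonneg_right (xw_mem hx c b).2
      (hC.B_nonneg hr.1 (mτ r hr).2 hτ)
    linarith [h.bB r (mτ r hr)]
  refine RCM.Tl.toTu hl (fun r hr => (h.kv r (mτ r hr)).T0) (fun i j r hr => h.gp0 i j r (mτ r hr))
    (fun i j r hr => h.gs0 i j r (mτ r hr)) (fun b _ r hr => ?_) (fun b _ r hr => ?_)
  · rw [zero_add]
    refine mul_le_mul_of_nonneg_right ?_ (hl.p0 b r hr)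
    exact mul_le_mul_of_nonneg_left (by linarith [hd b r hr]) h.q0
  · refine add_le_add le_rfl (mul_le_mul_of_nonneg_right ?_ (hl.p0 b r hr))
    exact mul_le_mul_of_nonneg_left (by linarith [hd b r hr, h.bB r (mτ r hr)]) h.q0

/-- target sums of the leading part -/
theorem Yk.Ok.N1_tgt (hZ : Z.Ok sl)
    (hx : Wt x P 1) (hτ : τ ≤ bt) {σ : ℝ} (hσ : σ ∈ Icc 0 τ) {b W W' : ℝ → ℝ}
    (b0 : ∀ r ∈ Icc 0 σ, 0 ≤ b r)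
    (hb : ∀ c f, ∀ r ∈ Icc 0 σ, Z.Dd x P σ c f r ≤ x c f * b r)
    (dW : ∀ r ∈ Icc 0 σ, HasDerivAt W (W' r) r) (W0 : ∀ r ∈ Icc 0 σ, 0 ≤ W r)
    (oW : ∀ r ∈ Icc 0 σ, k.m r * k.μ1 r * b r ≤ -W' r) {e : V} (he : e ∈ Dᶜ) :
    ∀ r ∈ Icc 0 σ, ∑ c ∈ Dᶜ.erase e, N1 Z F x P D σ c e r ≤ W r * (dmp x D e * κ e r) := by
  have hσ1 : σ ∈ Icc (0 : ℝ) bt := ⟨hσ.1, hσ.2.trans hτ⟩
  have mτ : ∀ r ∈ Icc 0 σ, r ∈ Icc 0 τ := fun r hr => ⟨hr.1, hr.2.trans hσ.2⟩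
  have ci : ∀ c, ContinuousOn (fun ρ => ∑ f ∈ Dᶜ.erase c, K1 Z F x P ρ e f * Z.Dd x P σ c f ρ)
      (Icc 0 σ) := fun c => continuousOn_finsetSum _ fun f _ =>
    ((h.cT e f).mono (Icc_subset_Icc_right hσ.2)).mul
      ((hZ.Dd_cont hx σ c f).mono (Icc_subset_Icc_right hσ1.2))
  refine RCM.tback_le (f' := fun r => ∑ c ∈ Dᶜ.erase e, -∑ f ∈ Dᶜ.erase c,
      K1 Z F x P r e f * Z.Dd x P σ c f r)
    (g' := fun r => W' r * (dmp x D e * κ e r) + W r * (dmp x D e * κ' e r))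
    (fun r hr => HasDerivAt.fun_sum fun c _ => RCM.bk_deriv hσ.1 (ci c) hr)
    (fun r hr => (dW r hr).mul ((h.dκ e he r (mτ r hr)).const_mul _)) (fun r hr => ?_) ?_
  · have hr' := mτ r hr
    have H := h.kv r hr'
    have d0 := dmp_nonneg hx D e
    have s1 := RCM.sum_swap (U := Dᶜ) (e := e) (f := fun _ => (1 : ℝ)) (q := K1 Z F x P r e)
      (a := fun c f => Z.Dd x P σ c f r) (fun _ => zero_le_one) (fun z => H.T0 e z)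
      (fun c z => hZ.Dd_nonneg hx hσ1 c z hr)
    simp only [one_mul] at s1
    have s2 : ∑ z ∈ Dᶜ, K1 Z F x P r e z * ∑ c ∈ Dᶜ.erase z, Z.Dd x P σ c z r
        ≤ ∑ z ∈ Dᶜ, K1 Z F x P r e z * (dmp x D z * b r) :=
      Finset.sum_le_sum fun z _ => mul_le_mul_of_nonneg_left
        (sum_tgt_x hx (b0 r hr) (fun c f => hb c f r hr) z) (H.T0 e z)
    have s3 : ∑ z ∈ Dᶜ, K1 Z F x P r e z * (dmp x D z * b r)
        = (∑ z ∈ Dᶜ, K1 Z F x P r e z * dmp x D z) * b r := by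
      rw [Finset.sum_mul]
      exact Finset.sum_congr rfl fun z _ => by ring
    have s4 := mul_le_mul_of_nonneg_right (H.sum_ρ he) (b0 r hr)
    have s5 : k.m r * k.μ1 r * b r * (dmp x D e * κ e r) ≤ -W' r * (dmp x D e * κ e r) :=
      mul_le_mul_of_nonneg_right (oW r hr) (H.wk0 he)
    have s6 : W r * (dmp x D e * κ' e r) ≤ 0 :=
      mul_nonpos_of_nonneg_of_nonpos (W0 r hr)
        (mul_nonpos_of_nonneg_of_nonpos d0 (h.κ0 e he r hr'))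
    rw [← Finset.sum_neg_distrib]
    simp only [neg_neg]
    nlinarith [s1, s2, s3, s4, s5, s6]
  · have e0 : ∑ c ∈ Dᶜ.erase e, N1 Z F x P D σ c e σ = 0 := Finset.sum_eq_zero fun c _ => by
      unfold N1
      exact RCM.bk_self _ _
    have hs0 : σ ∈ Icc 0 σ := ⟨hσ.1, le_rfl⟩
    rw [e0]
    exact mul_nonneg (W0 σ hs0) ((h.kv σ hσ).wk0 he)

end basic

/-- a chain of target sums with the horizon `σ`: sources `b`, `d` -/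
structure Yk.Ch (k : Yk) (q σ : ℝ) (b d W W' V1 V1' U1 U1' : ℝ → ℝ) : Prop where
  b0 : ∀ r ∈ Icc 0 σ, 0 ≤ b r
  d0 : ∀ r ∈ Icc 0 σ, 0 ≤ d r
  dW : ∀ r ∈ Icc 0 σ, HasDerivAt W (W' r) r
  dV : ∀ r ∈ Icc 0 σ, HasDerivAt V1 (V1' r) r
  dU : ∀ r ∈ Icc 0 σ, HasDerivAt U1 (U1' r) r
  W0 : ∀ r ∈ Icc 0 σ, 0 ≤ W r
  V0 : ∀ r ∈ Icc 0 σ, 0 ≤ V1 r
  U0 : ∀ r ∈ Icc 0 σ, 0 ≤ U1 r
  oW : ∀ r ∈ Icc 0 σ, k.m r * k.μ1 r * b r ≤ -W' r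
  oV : ∀ r ∈ Icc 0 σ, k.m r * (k.μ2 r * U1 r + k.μk r * W r
    + k.Gm r * (k.kE r * U1 r + k.kk r * W r)
    + k.Gp r * (k.k1 r * d r + k.kE r * (k.C4 q r * V1 r))) ≤ -V1' r
  oU : ∀ r ∈ Icc 0 σ, k.m r * (k.μ2 r * (k.C1 q r * V1 r)
    + k.Gp r * (k.kE r * U1 r + k.kk r * W r)
    + k.Gm r * (k.k1 r * d r + k.kE r * (k.C4 q r * V1 r))) ≤ -U1' r

section chain

variable (h : k.Ok Z F x P gp gm gs τ D B m' q E E' κ κ')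
include h

/-- the coefficients of the weights of a chain -/
theorem Yk.Ok.qcW {r : ℝ} (hr : r ∈ Icc 0 τ) {W U : ℝ} (W0 : 0 ≤ W) (U0 : 0 ≤ U) {z : V}
    (hz : z ∈ Dᶜ) : RCM.qc Dᶜ (K1 Z F x P r)
      (fun f => W * (dmp x D f * κ f r) + U * (dmp x D f * E f r)) z
      ≤ k.m r * (k.kE r * U + k.kk r * W) := by
  have H := h.kv r hr
  rw [RCM.qc_add, RCM.qc_smul, RCM.qc_smul]
  have h1 := mul_le_mul_of_nonneg_left (H.qc_gen (fun e he => H.wk0 he) H.hk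
    (fun e he => h.qk r hr e he) hz) W0
  have h2 := mul_le_mul_of_nonneg_left (H.qc_gen (fun e he => H.w0 he) H.h2
    (fun e he => h.qE r hr e he) hz) U0
  refine (add_le_add h1 h2).trans (le_of_eq (by ring))

theorem Yk.Ok.qcD {r : ℝ} (hr : r ∈ Icc 0 τ) {d U : ℝ} (d0 : 0 ≤ d) (U0 : 0 ≤ U) {z : V}
    (hz : z ∈ Dᶜ) : RCM.qc Dᶜ (K1 Z F x P r)
      (fun f => d * dmp x D f + U * (dmp x D f * E f r)) z
      ≤ k.m r * (k.k1 r * d + k.kE r * U) := by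
  have H := h.kv r hr
  rw [RCM.qc_add, RCM.qc_smul, RCM.qc_smul]
  have h1 := mul_le_mul_of_nonneg_left (H.qc_gen (w := dmp x D) H.ρ0 H.h1
    (fun e he => h.q1 r hr e he) hz) d0
  have h2 := mul_le_mul_of_nonneg_left (H.qc_gen (fun e he => H.w0 he) H.h2
    (fun e he => h.qE r hr e he) hz) U0
  refine (add_le_add h1 h2).trans (le_of_eq (by ring))

/-- **target sums of the tails** -/
theorem Yk.Ok.tgt (hC : Z.Cf B E1) (hZ : Z.Ok sl)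
    (hx : Wt x P 1) (hτ : τ ≤ bt) {σ : ℝ} (hσ : σ ∈ Icc 0 τ) {pp nn : V → V → ℝ → ℝ}
    (hl : ∀ c ∈ Dᶜ, Tls Z F x P τ D gp gs B q m' σ c (pp c) (nn c))
    {b d W W' V1 V1' U1 U1' : ℝ → ℝ} (hc : k.Ch q σ b d W W' V1 V1' U1 U1')
    (hb : ∀ c f, ∀ r ∈ Icc 0 σ, Z.Dd x P σ c f r ≤ x c f * b r)
    (hd : ∀ c f, ∀ r ∈ Icc 0 σ, D3f Z x P B τ q m' σ c f r ≤ x c f * d r)
    (ep : ∀ e ∈ Dᶜ, ∑ c ∈ Dᶜ.erase e, pp c e σ ≤ V1 σ * (dmp x D e * E e σ))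
    (en : ∀ e ∈ Dᶜ, ∑ c ∈ Dᶜ.erase e, nn c e σ ≤ U1 σ * (dmp x D e * E e σ)) :
    ∀ e ∈ Dᶜ, ∀ r ∈ Icc 0 σ,
      ∑ c ∈ Dᶜ.erase e, pp c e r ≤ V1 r * (dmp x D e * E e r) ∧
      ∑ c ∈ Dᶜ.erase e, nn c e r ≤ U1 r * (dmp x D e * E e r) := by
  have hσ1 : σ ∈ Icc (0 : ℝ) bt := ⟨hσ.1, hσ.2.trans hτ⟩
  have mτ : ∀ r ∈ Icc 0 σ, r ∈ Icc 0 τ := fun r hr => ⟨hr.1, hr.2.trans hσ.2⟩
  have sub : Icc 0 σ ⊆ Icc 0 τ := Icc_subset_Icc_right hσ.2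
  have hex : ∀ c, ∃ p' n', c ∈ Dᶜ → RCM.Tu (Dᶜ.erase c) σ (K1 Z F x P)
      (D3f Z x P B τ q m' σ c) (fun _ _ => 0)
      (N1 Z F x P D σ c) gp gs (k.C1 q) (k.C4 q) (pp c) p' (nn c) n' := fun c => by
    by_cases hc : c ∈ Dᶜ
    · obtain ⟨p', n', h1⟩ := h.tu hC hZ hx hτ hσ (hl c hc)
      exact ⟨p', n', fun _ => h1⟩
    · exact ⟨fun _ _ => 0, fun _ _ => 0, fun h => absurd h hc⟩
  choose p' n' hpn using hex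
  -- the pair operator of a row of `g`
  have hq : ∀ (g : V → V → ℝ → ℝ) (G : ℝ → ℝ), (∀ i j, ∀ r ∈ Icc 0 τ, 0 ≤ g i j r) →
      (∀ e ∈ Dᶜ, ∀ r ∈ Icc 0 τ, ∑ f ∈ Dᶜ, g e f r ≤ G r * (dmp x D e * E e r)) →
      ∀ e ∈ Dᶜ, ∀ r ∈ Icc 0 σ, ∀ (w : V → ℝ) (K : ℝ), 0 ≤ K → (∀ z ∈ Dᶜ, 0 ≤ w z) →
      (∀ z ∈ Dᶜ, RCM.qc Dᶜ (K1 Z F x P r) w z ≤ K) →
      RCM.Qo Dᶜ (K1 Z F x P r) (fun x => g e x r) w ≤ K * (G r * (dmp x D e * E e r)) := by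
    intro g G g0 gr e he r hr w K K0 w0 hK
    have H := h.kv r (mτ r hr)
    rw [RCM.Qo_symm H.Ts]
    refine (RCM.Qo_le_of Finset.Subset.rfl H.T0 w0 (fun _ _ => le_rfl) hK
      fun f _ => g0 e f r (mτ r hr)).trans ?_
    exact mul_le_mul_of_nonneg_left (gr e he r (mτ r hr)) K0
  have key := RCM.tail_sum_gen (U := Dᶜ) (t := σ) (T := K1 Z F x P)
    (D := fun c => D3f Z x P B τ q m' σ c) (E := fun _ _ _ => 0) (n1 := fun c => N1 Z F x P D σ c)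
    (p := pp) (p' := p') (n := nn) (n' := n') (gp := gp) (gs := gs) (c1 := k.C1 q) (c4 := k.C4 q)
    (fun c hc => hpn c hc) (fun i j => (h.cT i j).mono sub) (fun i j => (h.cgp i j).mono sub)
    (fun i j => (h.cgs i j).mono sub) (h.cC1.mono sub) (h.cC4.mono sub)
    (fun r hr => (h.kv r (mτ r hr)).T0)
    (fun c i r hr => D3f_nonneg hC hZ hx hτ h.q0 h.m0 hσ.2 c i hr)
    (fun _ _ _ _ => le_rfl) (fun c i r hr => N1_nonneg hZ hx hσ1 c i hr)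
    (fun i j r hr => h.gp0 i j r (mτ r hr)) (fun i j r hr => h.gs0 i j r (mτ r hr))
    (fun r hr => h.C10 hC hτ (mτ r hr)) (fun r hr => h.C40 hC hτ (mτ r hr))
    (f := fun _ => 1) (fun _ => zero_le_one)
    (wa := fun e r => W r * (dmp x D e * κ e r)) (wd := fun e r => d r * dmp x D e)
    (we := fun _ _ => 0)
    (P := fun e r => V1 r * (dmp x D e * E e r)) (N := fun e r => U1 r * (dmp x D e * E e r))
    (P' := fun e r => V1' r * (dmp x D e * E e r) + V1 r * (dmp x D e * E' e r))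
    (N' := fun e r => U1' r * (dmp x D e * E e r) + U1 r * (dmp x D e * E' e r))
    (fun e he r hr => (hc.dV r hr).mul ((h.dE e he r (mτ r hr)).const_mul _))
    (fun e he r hr => (hc.dU r hr).mul ((h.dE e he r (mτ r hr)).const_mul _))
    (fun e he r hr => mul_nonneg (hc.V0 r hr) ((h.kv r (mτ r hr)).w0 he))
    (fun e he r hr => mul_nonneg (hc.U0 r hr) ((h.kv r (mτ r hr)).w0 he))
    (fun e he r hr => ?_) (fun e he r hr => ?_) (fun e he r hr => ?_) (fun e he r hr => ?_)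
    (fun e _ r _ => ?_) ?_ ?_
  · intro e he r hr
    have := key e he r hr
    simp only [one_mul] at this
    exact this
  · -- upper
    have hr' := mτ r hr
    have H := h.kv r hr'
    have W0 := hc.W0 r hr
    have U0 := hc.U0 r hr
    have V0 := hc.V0 r hr
    have d0 := hc.d0 r hr
    have c0 := mul_nonneg (h.C40 hC hτ hr') V0
    have w0 : ∀ z ∈ Dᶜ, 0 ≤ W r * (dmp x D z * κ z r) + U1 r * (dmp x D z * E z r) :=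
      fun z hz => add_nonneg (mul_nonneg W0 (H.wk0 hz)) (mul_nonneg U0 (H.w0 hz))
    have v0 : ∀ z ∈ Dᶜ, 0 ≤ d r * dmp x D z + k.C4 q r * V1 r * (dmp x D z * E z r) :=
      fun z hz => add_nonneg (mul_nonneg d0 (H.ρ0 z hz)) (mul_nonneg c0 (H.w0 hz))
    have K1' : 0 ≤ k.m r * (k.kE r * U1 r + k.kk r * W r) :=
      mul_nonneg H.m0 (add_nonneg (mul_nonneg (h.kE0 r hr') U0) (mul_nonneg (h.kk0 r hr') W0))
    have K2' : 0 ≤ k.m r * (k.k1 r * d r + k.kE r * (k.C4 q r * V1 r)) :=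
      mul_nonneg H.m0 (add_nonneg (mul_nonneg (h.k10 r hr') d0) (mul_nonneg (h.kE0 r hr') c0))
    have q1 := hq gs k.Gm h.gs0 h.sr e he r hr _ _ K1' w0 fun z hz => h.qcW hr' W0 U0 hz
    have q2 := hq gp k.Gp h.gp0 h.pr e he r hr _ _ K2' v0 fun z hz => h.qcD hr' d0 c0 hz
    have e1 : ∑ z ∈ Dᶜ, K1 Z F x P r e z
          * (W r * (dmp x D z * κ z r) + U1 r * (dmp x D z * E z r))
        = W r * ∑ z ∈ Dᶜ, K1 Z F x P r e z * (dmp x D z * κ z r)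
          + U1 r * ∑ z ∈ Dᶜ, K1 Z F x P r e z * (dmp x D z * E z r) := by
      rw [Finset.mul_sum, Finset.mul_sum, ← Finset.sum_add_distrib]
      exact Finset.sum_congr rfl fun z _ => by ring
    have e2 : (fun z => d r * dmp x D z + k.C4 q r * (V1 r * (dmp x D z * E z r)))
        = fun z => d r * dmp x D z + k.C4 q r * V1 r * (dmp x D z * E z r) := by
      funext z; ring
    have s1 := mul_le_mul_of_nonneg_left (H.sum_k he) W0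
    have s2 := mul_le_mul_of_nonneg_left (H.sum_w he) U0
    have o := mul_le_mul_of_nonneg_right (hc.oV r hr) (H.w0 he)
    have m4 : V1 r * (dmp x D e * E' e r) ≤ 0 := mul_nonpos_of_nonneg_of_nonpos V0
      (mul_nonpos_of_nonneg_of_nonpos (dmp_nonneg hx D e) (h.E0 e he r hr'))
    rw [e1, e2]
    nlinarith [q1, q2, s1, s2, o, m4]
  · -- lower
    have hr' := mτ r hr
    have H := h.kv r hr'
    have W0 := hc.W0 r hr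
    have U0 := hc.U0 r hr
    have V0 := hc.V0 r hr
    have d0 := hc.d0 r hr
    have c0 := mul_nonneg (h.C40 hC hτ hr') V0
    have w0 : ∀ z ∈ Dᶜ, 0 ≤ W r * (dmp x D z * κ z r) + U1 r * (dmp x D z * E z r) :=
      fun z hz => add_nonneg (mul_nonneg W0 (H.wk0 hz)) (mul_nonneg U0 (H.w0 hz))
    have v0 : ∀ z ∈ Dᶜ, 0 ≤ d r * dmp x D z + k.C4 q r * V1 r * (dmp x D z * E z r) :=
      fun z hz => add_nonneg (mul_nonneg d0 (H.ρ0 z hz)) (mul_nonneg c0 (H.w0 hz))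
    have K1' : 0 ≤ k.m r * (k.kE r * U1 r + k.kk r * W r) :=
      mul_nonneg H.m0 (add_nonneg (mul_nonneg (h.kE0 r hr') U0) (mul_nonneg (h.kk0 r hr') W0))
    have K2' : 0 ≤ k.m r * (k.k1 r * d r + k.kE r * (k.C4 q r * V1 r)) :=
      mul_nonneg H.m0 (add_nonneg (mul_nonneg (h.k10 r hr') d0) (mul_nonneg (h.kE0 r hr') c0))
    have q1 := hq gp k.Gp h.gp0 h.pr e he r hr _ _ K1' w0 fun z hz => h.qcW hr' W0 U0 hz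
    have q2 := hq gs k.Gm h.gs0 h.sr e he r hr _ _ K2' v0 fun z hz => h.qcD hr' d0 c0 hz
    have e1 : ∑ z ∈ Dᶜ, K1 Z F x P r e z * (0 + k.C1 q r * (V1 r * (dmp x D z * E z r)))
        = k.C1 q r * V1 r * ∑ z ∈ Dᶜ, K1 Z F x P r e z * (dmp x D z * E z r) := by
      rw [Finset.mul_sum]
      exact Finset.sum_congr rfl fun z _ => by ring
    have e2 : (fun z => d r * dmp x D z + k.C4 q r * (V1 r * (dmp x D z * E z r)))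
        = fun z => d r * dmp x D z + k.C4 q r * V1 r * (dmp x D z * E z r) := by
      funext z; ring
    have s2 := mul_le_mul_of_nonneg_left (H.sum_w he) (mul_nonneg (h.C10 hC hτ hr') V0)
    have o := mul_le_mul_of_nonneg_right (hc.oU r hr) (H.w0 he)
    have m4 : U1 r * (dmp x D e * E' e r) ≤ 0 := mul_nonpos_of_nonneg_of_nonpos U0
      (mul_nonpos_of_nonneg_of_nonpos (dmp_nonneg hx D e) (h.E0 e he r hr'))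
    rw [e1, e2]
    nlinarith [q1, q2, s2, o, m4]
  · simp only [one_mul]
    exact h.N1_tgt hZ hx hτ hσ hc.b0 hb hc.dW hc.W0 hc.oW he r hr
  · simp only [one_mul]
    refine (sum_tgt_x hx (hc.d0 r hr) (fun c f => hd c f r hr) e).trans (le_of_eq (by ring))
  · simp
  · intro e he
    simp only [one_mul]
    exact ep e he
  · intro e he
    simp only [one_mul]
    exact en e he

end chain

end Pool.Agent.RX.RCN.K
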