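import Pool.Agent.RX.RCM.TAdj
import Pool.Agent.RX.RCN.XrD
import Pool.Agent.RX.RCN.YkA

/-! Two-time rows of the closure exponents: level 2 and the adjoint functional
(MP_73ccd0_lc, route M). -/

namespace Pool.Agent.RX.RCN.K

open Set Finset MeasureTheory Pool.Agent.RX.RCRSHalf Pool.Agent.RX.RCG Pool.Agent.RX.RCG.Ct

set_option linter.unusedSectionVars false

variable {V : Type*} [Fintype V] [DecidableEq V]
variable {Z : Hzd} {F : Lz V} {x : V → V → ℝ} {P : V → Prop} [DecidablePred P]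
variable {sl : ℝ → ℝ → ℝ} {τ : ℝ} {B E1 : ℝ → ℝ → ℝ} {m' q : ℝ} {D : Finset V}
variable {gp gm gs : V → V → ℝ → ℝ} {E E' κ κ' : V → ℝ → ℝ} {k : Yk}

/-- a family of tails with the bounds of its sums over the targets -/
structure Yk.Fam (k : Yk) (Z : Hzd) (F : Lz V) (x : V → V → ℝ) (P : V → Prop) [DecidablePred P]
    (gp gs : V → V → ℝ → ℝ) (τ : ℝ) (D : Finset V) (B : ℝ → ℝ → ℝ) (m' q : ℝ)
    (E κ : V → ℝ → ℝ) (s : ℝ) (pd nd : V → V → ℝ → ℝ) (W V1 U1 d : ℝ → ℝ) : Prop where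
  tl : ∀ d ∈ Dᶜ, Tls Z F x P τ D gp gs B q m' s d (pd d) (nd d)
  wt : ∀ e ∈ Dᶜ, ∀ r ∈ Icc 0 s, ∑ d ∈ Dᶜ.erase e, N1 Z F x P D s d e r
    ≤ W r * (dmp x D e * κ e r)
  pt : ∀ e ∈ Dᶜ, ∀ r ∈ Icc 0 s, ∑ d ∈ Dᶜ.erase e, pd d e r ≤ V1 r * (dmp x D e * E e r)
  nt : ∀ e ∈ Dᶜ, ∀ r ∈ Icc 0 s, ∑ d ∈ Dᶜ.erase e, nd d e r ≤ U1 r * (dmp x D e * E e r)
  dt : ∀ c f, ∀ r ∈ Icc 0 s, D3f Z x P B τ q m' s c f r ≤ x c f * d r
  W0 : ∀ r ∈ Icc 0 s, 0 ≤ W r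
  V0 : ∀ r ∈ Icc 0 s, 0 ≤ V1 r
  U0 : ∀ r ∈ Icc 0 s, 0 ≤ U1 r
  d0 : ∀ r ∈ Icc 0 s, 0 ≤ d r

/-- a family from a chain -/
theorem Yk.Ok.fam (h : k.Ok Z F x P gp gm gs τ D B m' q E E' κ κ') (hC : Z.Cf B E1)
    (hZ : Z.Ok sl) (hx : Wt x P 1) (hτ : τ ≤ bt) {σ : ℝ} (hσ : σ ∈ Icc 0 τ)
    {pp nn : V → V → ℝ → ℝ}
    (hl : ∀ c ∈ Dᶜ, Tls Z F x P τ D gp gs B q m' σ c (pp c) (nn c))
    {b d W W' V1 V1' U1 U1' : ℝ → ℝ} (hc : k.Ch q σ b d W W' V1 V1' U1 U1')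
    (hb : ∀ c f, ∀ r ∈ Icc 0 σ, Z.Dd x P σ c f r ≤ x c f * b r)
    (hd : ∀ c f, ∀ r ∈ Icc 0 σ, D3f Z x P B τ q m' σ c f r ≤ x c f * d r)
    (ep : ∀ e ∈ Dᶜ, ∑ c ∈ Dᶜ.erase e, pp c e σ ≤ V1 σ * (dmp x D e * E e σ))
    (en : ∀ e ∈ Dᶜ, ∑ c ∈ Dᶜ.erase e, nn c e σ ≤ U1 σ * (dmp x D e * E e σ)) :
    k.Fam Z F x P gp gs τ D B m' q E κ σ pp nn W V1 U1 d where
  tl := hl
  wt := fun _ he r hr => h.N1_tgt hZ hx hτ hσ hc.b0 hb hc.dW hc.W0 hc.oW he r hr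
  pt := fun e he r hr => (h.tgt hC hZ hx hτ hσ hl hc hb hd ep en e he r hr).1
  nt := fun e he r hr => (h.tgt hC hZ hx hτ hσ hl hc hb hd ep en e he r hr).2
  dt := hd
  W0 := hc.W0
  V0 := hc.V0
  U0 := hc.U0
  d0 := hc.d0

/-- the integrand, summed over one vertex: the family has the horizon `σ`, the fixed vertex the
horizon `ς` -/
theorem Yk.Ok.K_gen (h : k.Ok Z F x P gp gm gs τ D B m' q E E' κ κ') (hC : Z.Cf B E1)
    (hZ : Z.Ok sl) (hx : Wt x P 1) (hτ : τ ≤ bt) {σ ς : ℝ} (hσ : σ ∈ Icc 0 τ) (hς : ς ∈ Icc 0 τ)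
    {pc nc : V → V → ℝ → ℝ} {pd nd : V → ℝ → ℝ} {W V1 U1 d' : ℝ → ℝ} {d : V}
    (h1 : k.Fam Z F x P gp gs τ D B m' q E κ σ pc nc W V1 U1 d')
    (td : Tls Z F x P τ D gp gs B q m' ς d pd nd)
    {z : ℝ} (hz : z ∈ Icc 0 σ) (hz' : z ∈ Icc 0 ς) :
    ∑ c ∈ Dᶜ.erase d, (RCM.Qo ((Dᶜ.erase c).erase d) (K1 Z F x P z)
          (fun e => N1 Z F x P D σ c e z + nc c e z)
          (fun e => D3f Z x P B τ q m' ς d e z + C4f Z x P B τ q d e z * pd e z)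
        + RCM.Qo ((Dᶜ.erase c).erase d) (K1 Z F x P z)
          (fun e => N1 Z F x P D ς d e z + nd e z)
          (fun e => D3f Z x P B τ q m' σ c e z + C4f Z x P B τ q c e z * pc c e z))
      ≤ k.m z * (k.kE z * U1 z + k.kk z * W z)
          * ∑ e ∈ Dᶜ.erase d, (D3f Z x P B τ q m' ς d e z + k.C4 q z * pd e z)
        + k.m z * (k.k1 z * d' z + k.kE z * (k.C4 q z * V1 z))
          * ∑ e ∈ Dᶜ.erase d, (N1 Z F x P D ς d e z + nd e z) := by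
  have hzτ : z ∈ Icc 0 τ := ⟨hz.1, hz.2.trans hσ.2⟩
  have hτ1 : τ ∈ Icc (0 : ℝ) bt := ⟨hzτ.1.trans hzτ.2, hτ⟩
  have hσ1 : σ ∈ Icc (0 : ℝ) bt := ⟨hσ.1, hσ.2.trans hτ⟩
  have hς1 : ς ∈ Icc (0 : ℝ) bt := ⟨hς.1, hς.2.trans hτ⟩
  have H := h.kv z hzτ
  have c40 := h.C40 hC hτ hzτ
  have W0 := h1.W0 z hz
  have V0 := h1.V0 z hz
  have U0 := h1.U0 z hz
  have d0 := h1.d0 z hz
  have cV := mul_nonneg c40 V0
  have tlc : ∀ c ∈ Dᶜ, ∀ e, 0 ≤ pc c e z ∧ 0 ≤ nc c e z := fun c hc e =>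
    ⟨(h1.tl c hc).p0 e z hz, (h1.tl c hc).n0 e z hz⟩
  -- zero extensions
  let aT : V → V → ℝ := fun c e => if c ∈ Dᶜ then N1 Z F x P D σ c e z + nc c e z else 0
  let bT : V → V → ℝ := fun c e =>
    if c ∈ Dᶜ then D3f Z x P B τ q m' σ c e z + C4f Z x P B τ q c e z * pc c e z else 0
  have d30 : ∀ c e, 0 ≤ D3f Z x P B τ q m' σ c e z := fun c e =>
    D3f_nonneg hC hZ hx hτ h.q0 h.m0 hσ.2 c e hz
  have c4f0 : ∀ c e, 0 ≤ C4f Z x P B τ q c e z := fun c e => C4f_nonneg hC hZ hx hτ1 h.q0 c e hzτ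
  have aT0 : ∀ c e, 0 ≤ aT c e := fun c e => by
    simp only [aT]; split_ifs with hc
    · exact add_nonneg (N1_nonneg hZ hx hσ1 c e hz) (tlc c hc e).2
    · exact le_rfl
  have bT0 : ∀ c e, 0 ≤ bT c e := fun c e => by
    simp only [bT]; split_ifs with hc
    · exact add_nonneg (d30 c e) (mul_nonneg (c4f0 c e) (tlc c hc e).1)
    · exact le_rfl
  have sT : ∀ (f : V → V → ℝ) (g : V → V → ℝ), (∀ c ∈ Dᶜ, ∀ e, f c e = g c e) → ∀ e,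
      ∑ c ∈ Dᶜ.erase e, f c e = ∑ c ∈ Dᶜ.erase e, g c e := fun f g hfg e =>
    Finset.sum_congr rfl fun c hc => hfg c (Finset.mem_of_mem_erase hc) e
  have hA : ∀ e ∈ Dᶜ, ∑ c ∈ Dᶜ.erase e, aT c e
      ≤ W z * (dmp x D e * κ e z) + U1 z * (dmp x D e * E e z) := by
    intro e he
    rw [sT aT (fun c e => N1 Z F x P D σ c e z + nc c e z) (fun c hc e => by
      simp only [aT]; rw [if_pos hc]), Finset.sum_add_distrib]
    exact add_le_add (h1.wt e he z hz) (h1.nt e he z hz)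
  have hB : ∀ e ∈ Dᶜ, ∑ c ∈ Dᶜ.erase e, bT c e
      ≤ d' z * dmp x D e + k.C4 q z * V1 z * (dmp x D e * E e z) := by
    intro e he
    rw [sT bT (fun c e => D3f Z x P B τ q m' σ c e z + C4f Z x P B τ q c e z * pc c e z)
      (fun c hc e => by simp only [bT]; rw [if_pos hc]), Finset.sum_add_distrib]
    have a1 := sum_tgt_x hx (D := D) d0 (fun c f => h1.dt c f z hz) e
    have a3 : ∑ c ∈ Dᶜ.erase e, C4f Z x P B τ q c e z * pc c e z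
        ≤ k.C4 q z * ∑ c ∈ Dᶜ.erase e, pc c e z := by
      rw [Finset.mul_sum]
      exact Finset.sum_le_sum fun c hc => mul_le_mul_of_nonneg_right
        (h.C4_le hC hZ hx hτ hzτ c e) (tlc c (Finset.mem_of_mem_erase hc) e).1
    have a4 := mul_le_mul_of_nonneg_left (h1.pt e he z hz) c40
    linarith
  let aD : V → ℝ := fun e => N1 Z F x P D ς d e z + nd e z
  let bD : V → ℝ := fun e => D3f Z x P B τ q m' ς d e z + C4f Z x P B τ q d e z * pd e z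
  have aD0 : ∀ e, 0 ≤ aD e := fun e => add_nonneg (N1_nonneg hZ hx hς1 d e hz') (td.n0 e z hz')
  have bD0 : ∀ e, 0 ≤ bD e := fun e => add_nonneg
    (D3f_nonneg hC hZ hx hτ h.q0 h.m0 hς.2 d e hz') (mul_nonneg (c4f0 d e) (td.p0 e z hz'))
  have k1 := RCM.Kpt1' H.T0 H.Ts (v := d) (a := bD) (A := aT) bD0 aT0
    (w := fun f => W z * (dmp x D f * κ f z) + U1 z * (dmp x D f * E f z))
    (fun e he => add_nonneg (mul_nonneg W0 (H.wk0 he)) (mul_nonneg U0 (H.w0 he))) hA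
    (fun e he => h.qcW hzτ W0 U0 he)
  have k2 := RCM.Kpt1' H.T0 H.Ts (v := d) (a := aD) (A := bT) aD0 bT0
    (w := fun f => d' z * dmp x D f + k.C4 q z * V1 z * (dmp x D f * E f z))
    (fun e he => add_nonneg (mul_nonneg d0 (H.ρ0 e he)) (mul_nonneg cV (H.w0 he))) hB
    (fun e he => h.qcD hzτ d0 cV he)
  have e1 : ∑ c ∈ Dᶜ.erase d, (RCM.Qo ((Dᶜ.erase c).erase d) (K1 Z F x P z)
          (fun e => N1 Z F x P D σ c e z + nc c e z) bD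
        + RCM.Qo ((Dᶜ.erase c).erase d) (K1 Z F x P z) aD
          (fun e => D3f Z x P B τ q m' σ c e z + C4f Z x P B τ q c e z * pc c e z))
      = ∑ c ∈ Dᶜ.erase d, RCM.Qo ((Dᶜ.erase c).erase d) (K1 Z F x P z) bD (aT c)
        + ∑ c ∈ Dᶜ.erase d, RCM.Qo ((Dᶜ.erase c).erase d) (K1 Z F x P z) aD (bT c) := by
    rw [← Finset.sum_add_distrib]
    refine Finset.sum_congr rfl fun c hc => ?_
    have hc' := Finset.mem_of_mem_erase hc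
    have g1 : aT c = fun e => N1 Z F x P D σ c e z + nc c e z := by
      funext e; simp only [aT]; rw [if_pos hc']
    have g2 : bT c = fun e => D3f Z x P B τ q m' σ c e z + C4f Z x P B τ q c e z * pc c e z := by
      funext e; simp only [bT]; rw [if_pos hc']
    rw [RCM.Qo_symm H.Ts bD, g1, g2]
  have s1 : ∑ e ∈ Dᶜ.erase d, bD e
      ≤ ∑ e ∈ Dᶜ.erase d, (D3f Z x P B τ q m' ς d e z + k.C4 q z * pd e z) :=
    Finset.sum_le_sum fun e _ => add_le_add le_rfl (mul_le_mul_of_nonneg_right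
      (h.C4_le hC hZ hx hτ hzτ d e) (td.p0 e z hz'))
  have K1' : 0 ≤ k.m z * (k.kE z * U1 z + k.kk z * W z) :=
    mul_nonneg H.m0 (add_nonneg (mul_nonneg (h.kE0 z hzτ) U0) (mul_nonneg (h.kk0 z hzτ) W0))
  have t1 := mul_le_mul_of_nonneg_left s1 K1'
  refine (le_of_eq e1).trans ((add_le_add k1 k2).trans ?_)
  exact add_le_add t1 (le_of_eq (by simp only [aD]))

/-- the adjoint functions of the rows, `gN = 1 + gW` -/
structure Yr where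
  gV : ℝ → ℝ
  gV' : ℝ → ℝ
  gW : ℝ → ℝ
  gW' : ℝ → ℝ
  gw : ℝ → ℝ
  gw' : ℝ → ℝ
  g1 : ℝ → ℝ
  g1' : ℝ → ℝ

/-- `α`, `β` are the coefficients of level 2 -/
structure Yr.Ok (j : Yr) (k : Yk) (τ q dlt : ℝ) (α β : ℝ → ℝ) : Prop where
  dV : ∀ r ∈ Icc 0 τ, HasDerivAt j.gV (j.gV' r) r
  dW : ∀ r ∈ Icc 0 τ, HasDerivAt j.gW (j.gW' r) r
  dw : ∀ r ∈ Icc 0 τ, HasDerivAt j.gw (j.gw' r) r
  d1 : ∀ r ∈ Icc 0 τ, HasDerivAt j.g1 (j.g1' r) r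
  V0 : ∀ r ∈ Icc 0 τ, 0 ≤ j.gV r
  W0 : ∀ r ∈ Icc 0 τ, 0 ≤ j.gW r
  Wd : dlt ≤ j.gW 0
  w0 : 0 ≤ j.gw 0
  g0 : 0 ≤ j.g1 0
  α0 : ∀ r ∈ Icc 0 τ, 0 ≤ α r
  oV : ∀ r ∈ Icc 0 τ, k.m r * k.AP r * k.C4 q r * j.gV r
    + (k.m r * k.R r * k.C1 q r + k.m r * k.AM r * k.C4 q r) * (1 + j.gW r)
    + k.C4 q r * α r ≤ j.gV' r
  oW : ∀ r ∈ Icc 0 τ, (k.m r * k.R r + k.m r * k.AM r) * j.gV r
    + k.m r * k.AP r * (1 + j.gW r) + β r ≤ j.gW' r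
  ow : ∀ r ∈ Icc 0 τ, k.m r * k.AP r * j.gV r + k.m r * k.AM r * (1 + j.gW r)
    + k.m r * k.R r * j.gW r + α r ≤ j.gw' r
  o1 : ∀ r ∈ Icc 0 τ, -k.bb' r * j.gw r + k.x3 r * (k.m r * k.AP r * j.gV r
    + k.m r * k.AM r * (1 + j.gW r) + α r) ≤ j.g1' r

/-- **rows of level 2 with the adjoint functional**: fixed vertex `d` with the horizon `s`, family
with the horizon `τ` -/
theorem Yk.Ok.K_row (h : k.Ok Z F x P gp gm gs τ D B m' q E E' κ κ') (hC : Z.Cf B E1)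
    (hZ : Z.Ok sl) (hx : Wt x P 1) (hτ : τ ≤ bt) (cB : ContinuousOn (B τ) (Icc 0 τ))
    {s : ℝ} (hs : s ∈ Icc 0 τ)
    {pc nc : V → V → ℝ → ℝ} {pd nd : V → ℝ → ℝ} {W V1 U1 d' : ℝ → ℝ} {d : V}
    (h1 : k.Fam Z F x P gp gs τ D B m' q E κ τ pc nc W V1 U1 d')
    (hd : d ∈ Dᶜ) (td : Tls Z F x P τ D gp gs B q m' s d pd nd) {j : Yr} {dlt : ℝ}
    (hj : j.Ok k τ q dlt (fun z => k.m z * (k.kE z * U1 z + k.kk z * W z))
      (fun z => k.m z * (k.k1 z * d' z + k.kE z * (k.C4 q z * V1 z)))) :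
    ∑ c ∈ Dᶜ.erase d, Kdd Z F x P D c d τ s (D3f Z x P B τ q m') (C4f Z x P B τ q)
      (pc c) (nc c) pd nd + (1 + dlt) * ∑ e ∈ Dᶜ.erase d, nd e 0
      + dlt * ∑ e ∈ Dᶜ.erase d, N1 Z F x P D s d e 0
      ≤ j.gV s * ∑ e ∈ Dᶜ.erase d, pd e s + (1 + j.gW s) * ∑ e ∈ Dᶜ.erase d, nd e s
        + dmp x D d * j.g1 s := by
  have hττ : τ ∈ Icc 0 τ := ⟨hs.1.trans hs.2, le_rfl⟩
  have hs1 : s ∈ Icc (0 : ℝ) bt := ⟨hs.1, hs.2.trans hτ⟩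
  have mτ : ∀ r ∈ Icc 0 s, r ∈ Icc 0 τ := fun r hr => ⟨hr.1, hr.2.trans hs.2⟩
  have d0 := dmp_nonneg hx D d
  have cc : ∀ c ∈ Dᶜ.erase d, ContinuousOn (kint Z F x P D c d τ s (D3f Z x P B τ q m')
      (C4f Z x P B τ q) (pc c) (nc c) pd nd) (Icc 0 s) := fun c hc =>
    kint_cont (G := ⟨gp, gm, gs, C1f Z x P τ q, D3f Z x P B τ q m', C4f Z x P B τ q,
      pc, nc, fun _ => pc, fun _ => nc, fun _ => pc, fun _ => nc⟩)
      hZ hx hτ h.cT cB hs (h1.tl c (Finset.mem_of_mem_erase hc)) td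
  have e1 : ∑ c ∈ Dᶜ.erase d, Kdd Z F x P D c d τ s (D3f Z x P B τ q m') (C4f Z x P B τ q)
      (pc c) (nc c) pd nd
      = ∫ z in (0 : ℝ)..s, ∑ c ∈ Dᶜ.erase d, kint Z F x P D c d τ s (D3f Z x P B τ q m')
        (C4f Z x P B τ q) (pc c) (nc c) pd nd z := by
    rw [intervalIntegral.integral_finsetSum]
    · rfl
    · intro c hc
      have := cc c hc
      rw [← uIcc_of_le hs.1] at this
      exact this.intervalIntegrable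
  obtain ⟨p', n', hpn⟩ := h.tu hC hZ hx hτ hs td
  have ci : ∀ e, ContinuousOn (fun ρ => ∑ f ∈ Dᶜ.erase d, K1 Z F x P ρ e f * Z.Dd x P s d f ρ)
      (Icc 0 s) := fun e => continuousOn_finsetSum _ fun f _ =>
    ((h.cT e f).mono (Icc_subset_Icc_right hs.2)).mul
      ((hZ.Dd_cont hx s d f).mono (Icc_subset_Icc_right hs1.2))
  have hge : ∀ (g : V → V → ℝ → ℝ) (A : ℝ → ℝ), (∀ i j, ∀ r ∈ Icc 0 τ, 0 ≤ g i j r) →
      (∀ r ∈ Icc 0 τ, ∀ z ∈ Dᶜ, RCM.qc Dᶜ (K1 Z F x P r) (fun y => ∑ e ∈ Dᶜ, g e y r) z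
        ≤ k.m r * A r) →
      ∀ r ∈ Icc 0 s, ∀ a : V → ℝ, (∀ x ∈ Dᶜ.erase d, 0 ≤ a x) →
        ∑ e ∈ Dᶜ.erase d, RCM.Qo (Dᶜ.erase d) (K1 Z F x P r) (fun x => g e x r) a
          ≤ k.m r * A r * ∑ x ∈ Dᶜ.erase d, a x := by
    intro g A g0 hA r hr a a0
    have H := h.kv r (mτ r hr)
    have e1 : ∑ e ∈ Dᶜ.erase d, RCM.Qo (Dᶜ.erase d) (K1 Z F x P r) (fun x => g e x r) a
        = RCM.Qo (Dᶜ.erase d) (K1 Z F x P r) (fun x => ∑ e ∈ Dᶜ.erase d, g e x r) a := by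
      have := RCM.Qo_sum1 (Dᶜ.erase d) (K1 Z F x P r) a (Dᶜ.erase d) (fun _ => 1)
        (fun e x => g e x r)
      simpa only [one_mul] using this
    rw [e1]
    refine RCM.Qo_le_of (Finset.erase_subset _ _) H.T0
      (fun f _ => Finset.sum_nonneg fun e _ => g0 e f r (mτ r hr)) (fun f hf => ?_)
      (hA r (mτ r hr)) a0
    exact Finset.sum_le_sum_of_subset_of_nonneg (Finset.erase_subset _ _)
      fun e _ _ => g0 e f r (mτ r hr)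
  have f1 : ∀ r ∈ Icc 0 s, ∀ b ∈ Dᶜ.erase d, ∑ e ∈ Dᶜ.erase d, K1 Z F x P r e b
      ≤ k.m r * k.R r := fun r hr b hb => by
    have H := h.kv r (mτ r hr)
    refine le_trans ?_ (H.row_R (Finset.mem_of_mem_erase hb))
    refine (Finset.sum_le_sum_of_subset_of_nonneg (Finset.erase_subset _ _)
      fun e _ _ => H.T0 e b).trans (le_of_eq ?_)
    exact Finset.sum_congr rfl fun e _ => H.Ts e b
  have f2 : ∀ r ∈ Icc 0 s, -∑ e ∈ Dᶜ.erase d, -∑ f ∈ Dᶜ.erase d,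
      K1 Z F x P r e f * Z.Dd x P s d f r
      ≤ k.m r * k.R r * (dmp x D d * (k.bb r - k.bb s)) := fun r hr => by
    have H := h.kv r (mτ r hr)
    have s1 : ∑ e ∈ Dᶜ.erase d, ∑ f ∈ Dᶜ.erase d, K1 Z F x P r e f * Z.Dd x P s d f r
        ≤ ∑ f ∈ Dᶜ.erase d, (k.m r * k.R r) * Z.Dd x P s d f r := by
      rw [Finset.sum_comm]
      refine Finset.sum_le_sum fun f hf => ?_
      rw [← Finset.sum_mul]
      exact mul_le_mul_of_nonneg_right (f1 r hr f hf) (hZ.Dd_nonneg hx hs1 d f hr)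
    rw [← Finset.mul_sum] at s1
    have R0 : 0 ≤ k.m r * k.R r := (Finset.sum_nonneg fun e _ => H.T0 d e).trans (H.row_R hd)
    have s2 := mul_le_mul_of_nonneg_left
      (sum_pos_x hx (D := D) (h.be0 hC hτ hs hr) (fun c f => h.Dσ hC hZ hx hτ hs hr c f) d) R0
    rw [Finset.sum_neg_distrib, neg_neg]
    exact s1.trans s2
  have f3 : ∀ r ∈ Icc 0 s, ∑ e ∈ Dᶜ.erase d, D3f Z x P B τ q m' s d e r
      ≤ dmp x D d * (k.bb r - k.bb s) + dmp x D d * k.x3 r := fun r hr => by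
    have b0 : 0 ≤ k.bb r - k.bb s + k.x3 r :=
      add_nonneg (h.be0 hC hτ hs hr) (h.x30 r (mτ r hr))
    refine (sum_pos_x hx b0 (fun c f => h.D3σ hC hZ hx hτ hs hr c f) d).trans
      (le_of_eq (by ring))
  obtain ⟨φ, dφ, hφ⟩ := RCM.tl_adj (lam := fun r => k.m r * k.R r)
    (As := fun r => k.m r * k.AM r) (Ap := fun r => k.m r * k.AP r)
    (be := fun r => dmp x D d * (k.bb r - k.bb s)) (be' := fun r => dmp x D d * k.bb' r)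
    (xx := fun r => dmp x D d * k.x3 r)
    (n1' := fun e r => -∑ f ∈ Dᶜ.erase d, K1 Z F x P r e f * Z.Dd x P s d f r)
    (g1 := fun r => dmp x D d * j.g1 r) (g1' := fun r => dmp x D d * j.g1' r)
    (gV := j.gV) (gW := j.gW) (gw := j.gw) (gV' := j.gV') (gW' := j.gW') (gw' := j.gw')
    (α := fun z => k.m z * (k.kE z * U1 z + k.kk z * W z))
    (β := fun z => k.m z * (k.k1 z * d' z + k.kE z * (k.C4 q z * V1 z))) hpn
    (fun e _ r hr => RCM.bk_deriv hs.1 (ci e) hr)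
    (fun i r hr => D3f_nonneg hC hZ hx hτ h.q0 h.m0 hs.2 d i hr)
    (fun i r hr => N1_nonneg hZ hx hs1 d i hr)
    (fun r hr => h.C10 hC hτ (mτ r hr)) (fun r hr => h.C40 hC hτ (mτ r hr))
    (fun r hr => mul_nonneg (h.kv r (mτ r hr)).m0 (h.AM0 r (mτ r hr)))
    (fun r hr => mul_nonneg (h.kv r (mτ r hr)).m0 (h.AP0 r (mτ r hr)))
    f1 (hge gs k.AM h.gs0 h.aM) (hge gp k.AP h.gp0 h.aP)
    (fun r hr => ((h.dbb r (mτ r hr)).sub_const _).const_mul _)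
    (fun r hr => mul_nonneg d0 (h.be0 hC hτ hs hr))
    f2 f3
    (fun r hr => hj.dV r (mτ r hr)) (fun r hr => hj.dW r (mτ r hr))
    (fun r hr => hj.dw r (mτ r hr)) (fun r hr => (hj.d1 r (mτ r hr)).const_mul _)
    (fun r hr => hj.V0 r (mτ r hr)) (fun r hr => hj.W0 r (mτ r hr))
    (fun r hr => hj.α0 r (mτ r hr)) (fun r hr => hj.oV r (mτ r hr))
    (fun r hr => hj.oW r (mτ r hr)) (fun r hr => hj.ow r (mτ r hr)) (fun r hr => by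
      have := mul_le_mul_of_nonneg_left (hj.o1 r (mτ r hr)) d0
      refine le_trans (le_of_eq ?_) this
      ring)
  have key := int_le_prim hs.1 (continuousOn_finsetSum _ cc) dφ fun z hz =>
    (h.K_gen hC hZ hx hτ hττ hs h1 td (mτ z hz) hz).trans (hφ z hz)
  rw [e1]
  have W00 : ∑ e ∈ Dᶜ.erase d, N1 Z F x P D s d e s = 0 := Finset.sum_eq_zero fun e _ => by
    unfold N1
    exact RCM.bk_self _ _
  have h00 : (0 : ℝ) ∈ Icc 0 s := ⟨le_rfl, hs.1⟩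
  have z1 : 0 ≤ ∑ e ∈ Dᶜ.erase d, pd e 0 := Finset.sum_nonneg fun e _ => td.p0 e 0 h00
  have z2 : 0 ≤ ∑ e ∈ Dᶜ.erase d, nd e 0 := Finset.sum_nonneg fun e _ => td.n0 e 0 h00
  have z3 : 0 ≤ ∑ e ∈ Dᶜ.erase d, N1 Z F x P D s d e 0 := Finset.sum_nonneg fun e _ =>
    N1_nonneg hZ hx hs1 d e h00
  have y1 := mul_nonneg (hj.V0 0 (mτ 0 h00)) z1
  have y2 := mul_le_mul_of_nonneg_right hj.Wd z2
  have y3 := mul_le_mul_of_nonneg_right hj.Wd z3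
  have y4 := mul_nonneg hj.w0 (mul_nonneg d0 (h.be0 hC hτ hs h00))
  have y5 := mul_nonneg d0 hj.g0
  rw [W00] at key
  simp only [sub_self, mul_zero, add_zero] at key
  linarith

end Pool.Agent.RX.RCN.K
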