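import Pool.Agent.RX.RCG.Wk
import Pool.Agent.RX.RCM.FmT
import Pool.Agent.RX.RCN.YkB

/-! Two-time rows of the closure exponents (MP_73ccd0_lc, route M). -/

namespace Pool.Agent.RX.RCN.K

open Set Finset MeasureTheory Pool.Agent.RX.RCRSHalf Pool.Agent.RX.RCG Pool.Agent.RX.RCG.Ct

set_option linter.unusedSectionVars false

variable {V : Type*} [Fintype V] [DecidableEq V]
variable {Z : Hzd} {F : Lz V} {x : V → V → ℝ} {P : V → Prop} [DecidablePred P]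
variable {sl : ℝ → ℝ → ℝ} {sg τ : ℝ} {B E1 : ℝ → ℝ → ℝ} {m' q : ℝ} {D : Finset V}
variable {G : Fm V} {E E' κ κ' : V → ℝ → ℝ} {k : Yk} {j : Yr}

/-- sources of the horizon `τ` -/
def Yk.b3 (k : Yk) (r : ℝ) : ℝ := k.bb r + k.x3 r

/-- the coefficients of level 2 of the rows -/
def Yk.al (k : Yk) (W U1 : ℝ → ℝ) (r : ℝ) : ℝ := k.m r * (k.kE r * U1 r + k.kk r * W r)

noncomputable def Yk.ga (k : Yk) (q : ℝ) (V1 : ℝ → ℝ) (r : ℝ) : ℝ :=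
  k.m r * (k.k1 r * k.b3 r + k.kE r * (k.C4 q r * V1 r))

variable {W W' V1 V1' U1 U1' : ℝ → ℝ}

/-- the tails of the cell -/
theorem Yk.Ok.fam_c (h : k.Ok Z F x P G.gp G.gm G.gs τ D B m' q E E' κ κ') (hC : Z.Cf B E1)
    (hZ : Z.Ok sl) (hx : Wt x P 1) (τ0 : 0 ≤ τ) (hτ : τ ≤ bt) (hG : G.Tk Z F x P sg τ D B m' q)
    (hc : k.Ch q τ k.bb k.b3 W W' V1 V1' U1 U1') :
    k.Fam Z F x P G.gp G.gs τ D B m' q E κ τ G.p G.n W V1 U1 k.b3 := by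
  have hττ : τ ∈ Icc 0 τ := ⟨τ0, le_rfl⟩
  have z1 : ∀ e ∈ Dᶜ, ∑ c ∈ Dᶜ.erase e, G.p c e τ = 0 := fun e h1 =>
    Finset.sum_eq_zero fun c hc =>
      (hG.ec c e (Finset.mem_erase.2 ⟨(Finset.ne_of_mem_erase hc).symm, h1⟩)).1
  have z2 : ∀ e ∈ Dᶜ, ∑ c ∈ Dᶜ.erase e, G.n c e τ = 0 := fun e h1 =>
    Finset.sum_eq_zero fun c hc =>
      (hG.ec c e (Finset.mem_erase.2 ⟨(Finset.ne_of_mem_erase hc).symm, h1⟩)).2
  have bτ := h.bb0 hC hτ hττ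
  refine h.fam hC hZ hx hτ hττ hG.tc hc (fun c f r hr => ?_) (fun c f r hr => ?_)
    (fun e he => ?_) (fun e he => ?_)
  · have h1 := h.Dσ hC hZ hx hτ hττ hr c f
    have h2 := mul_nonneg (hx.nonneg c f) bτ
    nlinarith
  · have h1 := h.D3σ hC hZ hx hτ hττ hr c f
    have h2 := mul_nonneg (hx.nonneg c f) bτ
    unfold Yk.b3
    nlinarith
  · rw [z1 e he]
    exact mul_nonneg (hc.V0 τ hττ) ((h.kv τ hττ).w0 he)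
  · rw [z2 e he]
    exact mul_nonneg (hc.U0 τ hττ) ((h.kv τ hττ).w0 he)

section rows

variable (h : k.Ok Z F x P G.gp G.gm G.gs τ D B m' q E E' κ κ')
  (hc : k.Ch q τ k.bb k.b3 W W' V1 V1' U1 U1') {dlt : ℝ}
  (hj : j.Ok k τ q dlt (k.al W U1) (k.ga q V1))
  (hC : Z.Cf B E1) (hZ : Z.Ok sl)
  (hx : Wt x P 1) (hτ : τ ≤ bt) (hG : G.Tk Z F x P sg τ D B m' q)
  (cB : ContinuousOn (B τ) (Icc 0 τ)) {s : ℝ} (hs : s ∈ Icc 0 τ) (hsg : s ≤ sg)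

include h hc hj hC hZ hx hτ hG cB hs hsg

/-- level 2, tails and insertion, the general form -/
theorem Yk.Ok.row_gen {pd nd : V → ℝ → ℝ} {d : V} (hd : d ∈ Dᶜ)
    (td : Tls Z F x P τ D G.gp G.gs B q m' s d pd nd) {D1 D2 : ℝ} (hD1 : 0 ≤ D1) (hD2 : 0 ≤ D2)
    (h1 : D1 ≤ dlt) {Ab Pb Nb : ℝ} (hA : ∑ e ∈ Dᶜ.erase d, pd e s ≤ Pb)
    (hN : ∑ e ∈ Dᶜ.erase d, nd e s ≤ Nb)
    (hgm : ∑ c ∈ Dᶜ.erase d, G.gm c d 0 ≤ Ab) :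
    ∑ c ∈ Dᶜ.erase d, (Kdd Z F x P D c d τ s (D3f Z x P B τ q m') (C4f Z x P B τ q)
        (G.p c) (G.n c) pd nd + G.gm c d 0 + (G.n c d 0 + nd c 0)
      + (x c d * D2 + (N1 Z F x P D τ c d 0 + G.n c d 0 + (N1 Z F x P D s d c 0 + nd c 0)) * D1))
      ≤ Ab + dmp x D d * (E d 0 * ((1 + D1) * U1 0) + κ d 0 * (D1 * W 0) + D2 + j.g1 s)
        + j.gV s * Pb + (1 + j.gW s) * Nb := by
  have τ0 := hs.1.trans hs.2
  have hττ : τ ∈ Icc 0 τ := ⟨τ0, le_rfl⟩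
  have h00 : (0 : ℝ) ∈ Icc 0 τ := ⟨le_rfl, τ0⟩
  have h0s : (0 : ℝ) ∈ Icc 0 s := ⟨le_rfl, hs.1⟩
  have hs1 : s ∈ Icc (0 : ℝ) bt := ⟨hs.1, hs.2.trans hτ⟩
  have F1 := h.fam_c hC hZ hx τ0 hτ hG hc
  have key := h.K_row hC hZ hx hτ cB hs F1 hd td hj
  have n0 : 0 ≤ ∑ e ∈ Dᶜ.erase d, nd e 0 := Finset.sum_nonneg fun e _ => td.n0 e 0 h0s
  have w0 : 0 ≤ ∑ e ∈ Dᶜ.erase d, N1 Z F x P D s d e 0 := Finset.sum_nonneg fun e _ =>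
    N1_nonneg hZ hx hs1 d e h0s
  have a1 := mul_le_mul_of_nonneg_left hA (hj.V0 s hs)
  have a2 := mul_le_mul_of_nonneg_left hN (by linarith [hj.W0 s hs] : 0 ≤ 1 + j.gW s)
  have a3 := F1.nt d hd 0 h00
  have a4 := F1.wt d hd 0 h00
  have a5 := sum_tgt_x hx (D := D) (a := fun c e => x c e * D2) hD2 (fun c e => le_rfl) d
  have b1 := mul_le_mul_of_nonneg_right h1 n0
  have b2 := mul_le_mul_of_nonneg_right h1 w0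
  have b3 := mul_le_mul_of_nonneg_left a3 (by linarith : 0 ≤ 1 + D1)
  have b4 := mul_le_mul_of_nonneg_left a4 hD1
  have e1 : ∑ c ∈ Dᶜ.erase d, (Kdd Z F x P D c d τ s (D3f Z x P B τ q m') (C4f Z x P B τ q)
        (G.p c) (G.n c) pd nd + G.gm c d 0 + (G.n c d 0 + nd c 0)
      + (x c d * D2 + (N1 Z F x P D τ c d 0 + G.n c d 0 + (N1 Z F x P D s d c 0 + nd c 0)) * D1))
      = ∑ c ∈ Dᶜ.erase d, Kdd Z F x P D c d τ s (D3f Z x P B τ q m') (C4f Z x P B τ q)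
        (G.p c) (G.n c) pd nd + ∑ c ∈ Dᶜ.erase d, G.gm c d 0
        + (1 + D1) * ∑ c ∈ Dᶜ.erase d, G.n c d 0 + (1 + D1) * ∑ c ∈ Dᶜ.erase d, nd c 0
        + D1 * ∑ c ∈ Dᶜ.erase d, N1 Z F x P D τ c d 0
        + D1 * ∑ c ∈ Dᶜ.erase d, N1 Z F x P D s d c 0 + ∑ c ∈ Dᶜ.erase d, x c d * D2 := by
    simp only [Finset.mul_sum, ← Finset.sum_add_distrib]
    exact Finset.sum_congr rfl fun c _ => by ring
  rw [e1]
  nlinarith [key, a1, a2, b1, b2, b3, b4, a5, hgm]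

end rows

end Pool.Agent.RX.RCN.K
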