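import Pool.Agent.RX.RCN.XrH
import Pool.Agent.RX.RCN.YfA
import Pool.Agent.RX.RCN.YkC

/-! Two-time rows of the closure exponents: from the clock to the time (MP_73ccd0_lc, route M). -/

namespace Pool.Agent.RX.RCN.K

open Set Finset MeasureTheory Pool.Agent.RX.RCRSHalf Pool.Agent.RX.RCG Pool.Agent.RX.RCG.Ct

set_option linter.unusedSectionVars false

variable {V : Type*} [Fintype V] [DecidableEq V]
variable {Z : Hzd} {F : Lz V} {x : V → V → ℝ} {P : V → Prop} [DecidablePred P]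
variable {sl : ℝ → ℝ → ℝ} {τ sg : ℝ} {D : Finset V} {B E1 : ℝ → ℝ → ℝ}
variable {gp gm : V → V → ℝ → ℝ} {f : Yf} {Gk Mk : ℝ → ℝ → ℝ} {mb u : ℝ → ℝ} {dlt : ℝ}

variable (hf : f.Ok Gk Mk dlt) (hZ : Z.Ok sl) (hx : Wt x P 1)
  (hW : Wx Z F x P τ D B gp gm f.U f.b1 f.z f.dl Gk Mk mb u)

include hf hZ hx hW

/-- the kernel of the cell -/
theorem Yf.Ok.kv {r : ℝ} (hr : r ∈ Icc 0 τ) :
    RCM.Kv Dᶜ x (dmp x D) (fun e => f.E u x D e r) (fun e => f.κ u x D e r)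
      (K1 Z F x P r) (mb r) (f.μ1 (u r)) (f.μk (u r)) (f.μ2 (u r)) (f.R (u r)) ∧
    ∀ e ∈ Dᶜ, f.κ u x D e r * ∑ g ∈ Dᶜ, x e g * f.κ u x D g r
      ≤ f.ka (RCM.kx x D e) (u r) * f.rw (RCM.kx x D e) (u r) := by
  have hx' := wt_of hx
  have hu := hW.um r hr
  have hr1 : r ∈ Icc (0 : ℝ) bt := ⟨hr.1, hr.2.trans hW.τ1.2⟩
  have y0 := hf.z0 _ hu
  have δ0 := hf.d0 _ hu
  have δ1 := hf.d1 _ hu
  have w0 : ∀ e, 0 ≤ f.z (u r) + RCM.kx x D e * f.dl (u r) := fun e =>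
    add_nonneg y0 (mul_nonneg (kx_mem hx D e).1 δ0)
  have le1 : ∀ e, 1 ≤ 1 + f.lam * RCM.kx x D e := fun e => by
    have := mul_nonneg hf.l0 (kx_mem hx D e).1
    linarith
  have zeq : ∀ e, Real.exp (f.z (u r) + RCM.kx x D e * f.dl (u r))
      = Real.exp (f.z (u r)) * Real.exp (RCM.kx x D e * f.dl (u r)) := fun e => by
    rw [← Real.exp_add]
  have srow : ∀ e ∈ Dᶜ, ∑ g ∈ Dᶜ, x e g * f.κ u x D g r ≤ f.rw (RCM.kx x D e) (u r) :=
    fun e he => by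
    have h1 := mul_le_mul_of_nonneg_left (row0 hx' hW.D2 he δ0 δ1)
      (Real.exp_pos (f.z (u r))).le
    have e1 : ∑ g ∈ Dᶜ, x e g * f.κ u x D g r
        = Real.exp (f.z (u r)) * ∑ g ∈ Dᶜ, x e g
          * Real.exp (RCM.kx x D g * f.dl (u r)) := by
      rw [Finset.mul_sum]
      refine Finset.sum_congr rfl fun g _ => ?_
      show x e g * Real.exp (f.z (u r) + RCM.kx x D g * f.dl (u r)) = _
      rw [zeq]; ring
    rw [e1]
    unfold Yf.rw
    rw [Real.exp_add, mul_assoc]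
    exact h1
  have hκ1 : ∀ e, 1 ≤ f.κ u x D e r := fun e => Real.one_le_exp (w0 e)
  refine ⟨
    { xs := hx.symm
      x0 := hx.nonneg
      row := fun e _ => row_dmp hx D e
      ρ0 := fun e _ => dmp_nonneg hx D e
      κ1 := fun e _ => hκ1 e
      κE := fun e _ => ?_
      T0 := fun e g => K1_nonneg hZ hx hr1 e g
      Ts := fun e g => K1_symm hx r e g
      m0 := hW.mb0 r hr
      Tle := fun e he g hg => ?_
      h1 := fun e _ => ?_
      hk := fun e _ => ?_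
      h2 := fun e _ => ?_
      hR := fun e he => ?_ }, fun e he => ?_⟩
  · show Real.exp _ ≤ (1 + f.lam * RCM.kx x D e) * Real.exp _
    exact le_mul_of_one_le_left (Real.exp_pos _).le (le1 e)
  · rcases eq_or_ne e g with heg | heg
    · subst heg
      have h0 : Z.hh x P r e e = 0 := by
        have h1 := hW.hm r hr e e
        rw [hx.diag, zero_mul] at h1
        exact le_antisymm h1 (hZ.hh_nonneg hx hr1 e e)
      have h3 : K1 Z F x P r e e = 0 := by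
        show Z.hh x P r e e * Real.exp (F.y1 e r + F.y1 e r) = 0
        rw [h0, zero_mul]
      rw [h3, hx.diag]
      simp
    · have h1 := hW.hm r hr e g
      have h2 : Real.exp (F.y1 e r + F.y1 g r)
          ≤ Real.exp (f.z (u r) + RCM.kx x D e * f.dl (u r))
            * Real.exp (f.z (u r) + RCM.kx x D g * f.dl (u r)) := by
        rw [← Real.exp_add]
        refine Real.exp_le_exp.2 ((hW.hy r hr e he g hg heg).trans (le_of_eq ?_))
        ring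
      have h3 : K1 Z F x P r e g ≤ (x e g * mb r) * _ :=
        mul_le_mul h1 h2 (Real.exp_pos _).le (mul_nonneg (hx.nonneg e g) (hW.mb0 r hr))
      refine h3.trans (le_of_eq ?_)
      show _ = mb r * (x e g * (Real.exp (f.z (u r) + RCM.kx x D e * f.dl (u r))
        * Real.exp (f.z (u r) + RCM.kx x D g * f.dl (u r))))
      ring
  · rw [dmp_eq, mul_comm]
    exact hf.h1 _ (kx_mem hx D e) _ hu
  · have h := hf.hk _ (kx_mem hx D e) _ hu
    rw [dmp_eq]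
    refine le_trans (le_of_eq ?_) h
    show f.ka _ _ * ((1 - RCM.kx x D e) * f.ka _ _) = _
    ring
  · have h := hf.h2 _ (kx_mem hx D e) _ hu
    rw [dmp_eq]
    refine le_trans (le_of_eq ?_) h
    show f.ka _ _ * ((1 - RCM.kx x D e) * f.Eg _ _) = _
    ring
  · have h1 := mul_le_mul_of_nonneg_left (srow e he) (zero_le_one.trans (hκ1 e))
    exact h1.trans (hf.hR _ (kx_mem hx D e) _ hu)
  · exact mul_le_mul_of_nonneg_left (srow e he) (zero_le_one.trans (hκ1 e))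

omit hZ in
theorem Yf.Ok.rows {G : V → V → ℝ → ℝ} {Gu : ℝ → ℝ} {Gj : ℝ → ℝ → ℝ}
    (h1 : ∀ k ∈ Icc (0 : ℝ) 1, ∀ u ∈ Icc 0 f.U, Gj k u ≤ Gu u * f.Eg k u)
    (h2 : ∀ e ∈ Dᶜ, ∀ r ∈ Icc 0 τ, ∑ g ∈ Dᶜ, G e g r
      ≤ (1 - RCM.kx x D e) * Gj (RCM.kx x D e) (u r)) {e : V} (he : e ∈ Dᶜ) {r : ℝ}
    (hr : r ∈ Icc 0 τ) : ∑ g ∈ Dᶜ, G e g r ≤ Gu (u r) * (dmp x D e * f.E u x D e r) := by
  have hk := kx_mem hx D e
  refine (h2 e he r hr).trans ((mul_le_mul_of_nonneg_left (h1 _ hk _ (hW.um r hr))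
    (by linarith [hk.2])).trans (le_of_eq ?_))
  rw [dmp_eq]
  show _ = Gu (u r) * ((1 - RCM.kx x D e) * f.Eg (RCM.kx x D e) (u r))
  ring

/-- the exact coefficients of the position sums -/
theorem Yf.Ok.qcA {G : V → V → ℝ → ℝ} {Gj : ℝ → ℝ → ℝ} {Fu Au : ℝ → ℝ}
    (gs : ∀ i j, ∀ r ∈ Icc 0 τ, G i j r = G j i r) (g0 : ∀ i j, ∀ r ∈ Icc 0 τ, 0 ≤ G i j r)
    (hF : ∀ k ∈ Icc (0 : ℝ) 1, ∀ u ∈ Icc 0 f.U, (1 - k) * (f.ka k u * Gj k u) ≤ Fu u)
    (hA : ∀ k ∈ Icc (0 : ℝ) 1, ∀ u ∈ Icc 0 f.U,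
      (1 - k) * f.ka k u * (f.rw k u * Gj k u + Fu u) ≤ Au u)
    (G0 : ∀ k ∈ Icc (0 : ℝ) 1, ∀ u ∈ Icc 0 f.U, 0 ≤ Gj k u)
    (h2 : ∀ e ∈ Dᶜ, ∀ r ∈ Icc 0 τ, ∑ g ∈ Dᶜ, G e g r
      ≤ (1 - RCM.kx x D e) * Gj (RCM.kx x D e) (u r)) {r : ℝ} (hr : r ∈ Icc 0 τ) {z : V}
    (hz : z ∈ Dᶜ) : RCM.qc Dᶜ (K1 Z F x P r) (fun y => ∑ e ∈ Dᶜ, G e y r) z
      ≤ mb r * Au (u r) := by
  obtain ⟨H, hr2⟩ := hf.kv hZ hx hW hr
  have hu := hW.um r hr
  have col : ∀ y ∈ Dᶜ, ∑ e ∈ Dᶜ, G e y r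
      ≤ (1 - RCM.kx x D y) * Gj (RCM.kx x D y) (u r) := fun y hy =>
    (le_of_eq (Finset.sum_congr rfl fun e _ => gs e y r hr)).trans (h2 y hy r hr)
  have c0 : ∀ y ∈ Dᶜ, 0 ≤ (1 - RCM.kx x D y) * Gj (RCM.kx x D y) (u r) := fun y _ =>
    mul_nonneg (by linarith [(kx_mem hx D y).2]) (G0 _ (kx_mem hx D y) _ hu)
  refine (RCM.qc_mono2 Finset.Subset.rfl H.T0 c0 col hz).trans ?_
  refine H.qc_gen (F := Fu (u r)) c0 (fun e _ => ?_) (fun e he => ?_) hz
  · have h := hF _ (kx_mem hx D e) _ hu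
    refine le_trans (le_of_eq ?_) h
    show f.ka _ _ * _ = _
    ring
  · have hk := kx_mem hx D e
    have h := hA _ hk _ hu
    have h3 := mul_le_mul_of_nonneg_left (hr2 e he) (c0 e he)
    rw [dmp_eq]
    refine le_trans (add_le_add h3 le_rfl) (le_trans (le_of_eq ?_) h)
    show (1 - RCM.kx x D e) * Gj (RCM.kx x D e) (u r)
      * (f.ka (RCM.kx x D e) (u r) * f.rw (RCM.kx x D e) (u r))
      + Fu (u r) * ((1 - RCM.kx x D e) * f.ka (RCM.kx x D e) (u r)) = _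
    ring

/-- **the conditions of the rows hold** -/
theorem Yf.Ok.kOk : (f.yk mb u).Ok Z F x P gp gm gm τ D B f.m f.q (f.E u x D)
    (f.E' mb u x D) (f.κ u x D) (f.κ' mb u x D) := by
  have um := hW.um
  have mb0 := hW.mb0
  have du := hW.du
  have b0 := hf.b0
  have k1 : (1 : ℝ) ∈ Icc (0 : ℝ) 1 := ⟨zero_le_one, le_rfl⟩
  have k0 : (0 : ℝ) ∈ Icc (0 : ℝ) 1 := ⟨le_rfl, zero_le_one⟩
  have ka0 : ∀ k u, 0 ≤ f.ka k u := fun k u => (Real.exp_pos _).le
  have Eg0 : ∀ k ∈ Icc (0 : ℝ) 1, ∀ u, 0 ≤ f.Eg k u := fun k hk u => by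
    have := mul_nonneg hf.l0 hk.1
    unfold Yf.Eg
    have := Real.exp_pos (f.z u + k * f.dl u)
    positivity
  have μ10 : ∀ v ∈ Icc 0 f.U, 0 ≤ f.μ1 v := fun v hv => by
    have := hf.h1 1 k1 v hv; simpa using this
  have μ20 : ∀ v ∈ Icc 0 f.U, 0 ≤ f.μ2 v := fun v hv => by
    have := hf.h2 1 k1 v hv; simpa using this
  have μk0 : ∀ v ∈ Icc 0 f.U, 0 ≤ f.μk v := fun v hv => by
    have := hf.hk 1 k1 v hv; simpa using this
  have ex0 : ∀ v ∈ Icc 0 f.U, 0 ≤ f.ex v := fun v hv => by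
    have := hf.hx 1 k1 v hv
    simpa [Yf.rw] using this
  have rw0 : ∀ k ∈ Icc (0 : ℝ) 1, ∀ v, 0 ≤ f.rw k v := fun k hk v => by
    unfold Yf.rw
    exact mul_nonneg (Real.exp_pos _).le (by linarith [hk.2])
  have cEg : ∀ e r, HasDerivAt u (-mb r) r → u r ∈ Icc 0 f.U →
      HasDerivAt (f.E u x D e) (f.E' mb u x D e r) r := fun e r h1 h2 => by
    have a1 := (hf.dz _ h2).comp r h1
    have a2 := ((hf.dd _ h2).comp r h1).const_mul (RCM.kx x D e)
    exact (a1.add a2).exp.const_mul (1 + f.lam * RCM.kx x D e)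
  have cKg : ∀ e r, HasDerivAt u (-mb r) r → u r ∈ Icc 0 f.U →
      HasDerivAt (f.κ u x D e) (f.κ' mb u x D e r) r := fun e r h1 h2 => by
    have a1 := (hf.dz _ h2).comp r h1
    have a2 := ((hf.dd _ h2).comp r h1).const_mul (RCM.kx x D e)
    exact (a1.add a2).exp
  have neg1 : ∀ e, ∀ r ∈ Icc 0 τ, 0 ≤ f.z' (u r) * mb r + RCM.kx x D e * (f.dl' (u r) * mb r) :=
    fun e r hr => add_nonneg (mul_nonneg (hf.z'0 _ (um r hr)) (mb0 r hr))
      (mul_nonneg (kx_mem hx D e).1 (mul_nonneg (hf.d'0 _ (um r hr)) (mb0 r hr)))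
  refine
    { kv := fun r hr => (hf.kv hZ hx hW hr).1
      dE := fun e _ r hr => cEg e r (du r hr) (um r hr)
      E0 := fun e _ r hr => ?_
      dκ := fun e _ r hr => cKg e r (du r hr) (um r hr)
      κ0 := fun e _ r hr => ?_
      qE := fun r hr e he => ?_
      qk := fun r hr e he => ?_
      q1 := fun r hr e he => ?_
      aM := fun r hr z hz => hf.qcA hZ hx hW hW.ms hW.n0 hf.fM hf.aM hf.Mk0 hW.rm hr hz
      aP := fun r hr z hz => hf.qcA hZ hx hW hW.ps hW.p0 hf.fP hf.aP hf.Gk0 hW.rp hr hz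
      kE0 := fun r hr => (mul_nonneg (μ20 _ (um r hr)) (add_nonneg (ex0 _ (um r hr))
        (μ10 _ (um r hr)))).trans (hf.qE _ (um r hr))
      kk0 := fun r hr => (mul_nonneg (μk0 _ (um r hr)) (add_nonneg (ex0 _ (um r hr))
        (μ10 _ (um r hr)))).trans (hf.qk _ (um r hr))
      k10 := fun r hr => (mul_nonneg (μ10 _ (um r hr)) (add_nonneg (ex0 _ (um r hr))
        (μ10 _ (um r hr)))).trans (hf.q1 _ (um r hr))
      AM0 := fun r hr => by
        show 0 ≤ f.AM (u r)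
        have := hf.aM 1 k1 _ (um r hr); simpa using this
      AP0 := fun r hr => by
        show 0 ≤ f.AP (u r)
        have := hf.aP 1 k1 _ (um r hr); simpa using this
      bB := fun r hr => hW.hB r hr
      bσ := fun σ hσ r hr => ?_
      dbb := fun r hr => (du r hr).const_mul _
      bb'0 := fun r hr => ?_
      x30 := fun r hr => by
        show 0 ≤ f.x3 (u r)
        have := hf.hx3 0 k0 _ (um r hr); simpa using this
      hx3 := fun r hr y hy => hf.hx3 y hy _ (um r hr)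
      q0 := hf.q0
      m0 := hf.m0
      gp0 := hW.p0
      gm0 := hW.n0
      gs0 := hW.n0
      pr := fun e he r hr => hf.rows hx hW hf.hp hW.rp he hr
      pc := fun g hg r hr => ?_
      mr := fun e he r hr => hf.rows hx hW hf.hg hW.rm he hr
      mc := fun g hg r hr => ?_
      sr := fun e he r hr => hf.rows hx hW hf.hg hW.rm he hr
      Gp0 := fun r hr => hf.Gp0 _ (um r hr)
      Gm0 := fun r hr => hf.Gm0 _ (um r hr)
      cT := fun e g => Tb_cont hZ hx hW.τ1.2 hW.cy e g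
      cgp := hW.cp
      cgs := hW.cg }
  · have hk := kx_mem hx D e
    have a1 : 0 ≤ 1 + f.lam * RCM.kx x D e := by
      have := mul_nonneg hf.l0 hk.1; linarith
    have a2 : 0 ≤ Real.exp (f.z (u r) + RCM.kx x D e * f.dl (u r)) :=
      (Real.exp_pos _).le
    have a4 := mul_nonneg a1 (mul_nonneg a2 (neg1 e r hr))
    unfold Yf.E'
    nlinarith
  · have a2 : 0 ≤ Real.exp (f.z (u r) + RCM.kx x D e * f.dl (u r)) :=
      (Real.exp_pos _).le
    have a4 := mul_nonneg a2 (neg1 e r hr)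
    unfold Yf.κ'
    nlinarith
  · obtain ⟨H, hr2⟩ := hf.kv hZ hx hW hr
    have hu := um r hr
    have hk := kx_mem hx D e
    have hr3 := hr2 e he
    set k : ℝ := RCM.kx x D e with hkd
    have a0 : 0 ≤ (1 - k) * f.Eg k (u r) := mul_nonneg (by linarith [hk.2]) (Eg0 k hk _)
    have a1 := mul_le_mul_of_nonneg_left hr3 a0
    have a2 := mul_le_mul (hf.h2 k hk _ hu) (hf.hx k hk _ hu) (rw0 k hk _) (μ20 _ hu)
    have a3 := mul_le_mul_of_nonneg_left (hf.h1 k hk _ hu) (μ20 _ hu)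
    have a4 := hf.qE _ hu
    show (1 - k) * f.Eg k (u r) * _ + f.μ2 (u r) * ((1 - k) * f.ka k (u r)) ≤ f.kE (u r)
    nlinarith [a1, a2, a3, a4]
  · obtain ⟨H, hr2⟩ := hf.kv hZ hx hW hr
    have hu := um r hr
    have hk := kx_mem hx D e
    have hr3 := hr2 e he
    set k : ℝ := RCM.kx x D e with hkd
    have a0 : 0 ≤ (1 - k) * f.ka k (u r) := mul_nonneg (by linarith [hk.2]) (ka0 k _)
    have a1 := mul_le_mul_of_nonneg_left hr3 a0
    have a2 := mul_le_mul (hf.hk k hk _ hu) (hf.hx k hk _ hu) (rw0 k hk _) (μk0 _ hu)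
    have a3 := mul_le_mul_of_nonneg_left (hf.h1 k hk _ hu) (μk0 _ hu)
    have a4 := hf.qk _ hu
    show (1 - k) * f.ka k (u r) * _ + f.μk (u r) * ((1 - k) * f.ka k (u r)) ≤ f.kk (u r)
    nlinarith [a1, a2, a3, a4]
  · obtain ⟨H, hr2⟩ := hf.kv hZ hx hW hr
    have hu := um r hr
    have hk := kx_mem hx D e
    have hr3 := hr2 e he
    set k : ℝ := RCM.kx x D e with hkd
    have a0 : 0 ≤ (1 - k) := by linarith [hk.2]
    have a1 := mul_le_mul_of_nonneg_left hr3 a0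
    have a2 := mul_le_mul (hf.h1 k hk _ hu) (hf.hx k hk _ hu) (rw0 k hk _) (μ10 _ hu)
    have a3 := mul_le_mul_of_nonneg_left (hf.h1 k hk _ hu) (μ10 _ hu)
    have a4 := hf.q1 _ hu
    show (1 - k) * _ + f.μ1 (u r) * ((1 - k) * f.ka k (u r)) ≤ f.k1 (u r)
    nlinarith [a1, a2, a3, a4]
  · show B σ r ≤ f.b1 * u r - f.b1 * u σ
    have h1 := hW.Bσ σ hσ r hr
    linarith
  · show f.b1 * -mb r ≤ 0
    have := mul_nonneg b0 (mb0 r hr)
    linarith
  · have := hf.rows hx hW hf.hp hW.rp hg hr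
    exact (le_of_eq (Finset.sum_congr rfl fun e _ => hW.ps e g r hr)).trans this
  · have := hf.rows hx hW hf.hg hW.rm hg hr
    exact (le_of_eq (Finset.sum_congr rfl fun e _ => hW.ms e g r hr)).trans this

omit hZ hx in
/-- the chain of the horizon `τ` -/
theorem Yf.Ok.ch : (f.yk mb u).Ch f.q τ (f.yk mb u).bb (f.yk mb u).b3
    (fun r => f.WT (u r)) (fun r => f.WT' (u r) * -mb r)
    (fun r => f.VT (u r)) (fun r => f.VT' (u r) * -mb r)
    (fun r => f.UT (u r)) (fun r => f.UT' (u r) * -mb r) := by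
  have um := hW.um
  have mb0 := hW.mb0
  have du := hW.du
  have k0 : (0 : ℝ) ∈ Icc (0 : ℝ) 1 := ⟨le_rfl, zero_le_one⟩
  have x30 : ∀ r ∈ Icc 0 τ, 0 ≤ f.x3 (u r) := fun r hr => by
    have := hf.hx3 0 k0 _ (um r hr); simpa using this
  refine
    { b0 := fun r hr => mul_nonneg hf.b0 (um r hr).1
      d0 := fun r hr => add_nonneg (mul_nonneg hf.b0 (um r hr).1) (x30 r hr)
      dW := fun r hr => (hf.dWT _ (um r hr)).comp r (du r hr)
      dV := fun r hr => (hf.dVT _ (um r hr)).comp r (du r hr)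
      dU := fun r hr => (hf.dUT _ (um r hr)).comp r (du r hr)
      W0 := fun r hr => hf.WT0 _ (um r hr)
      V0 := fun r hr => hf.VT0 _ (um r hr)
      U0 := fun r hr => hf.UT0 _ (um r hr)
      oW := fun r hr => ?_
      oV := fun r hr => ?_
      oU := fun r hr => ?_ }
  · show mb r * f.μ1 (u r) * (f.b1 * u r) ≤ -(f.WT' (u r) * -mb r)
    have := mul_le_mul_of_nonneg_left (hf.oWT _ (um r hr)) (mb0 r hr)
    linarith
  · have := mul_le_mul_of_nonneg_left (hf.oVT _ (um r hr)) (mb0 r hr)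
    show mb r * (f.μ2 (u r) * f.UT (u r) + f.μk (u r) * f.WT (u r)
      + f.Gm (u r) * (f.kE (u r) * f.UT (u r) + f.kk (u r) * f.WT (u r))
      + f.Gp (u r) * (f.k1 (u r) * (f.b1 * u r + f.x3 (u r))
      + f.kE (u r) * (f.C4 (u r) * f.VT (u r)))) ≤ -(f.VT' (u r) * -mb r)
    unfold Yf.al Yf.ga Yf.b3 at this
    linarith
  · have := mul_le_mul_of_nonneg_left (hf.oUT _ (um r hr)) (mb0 r hr)
    show mb r * (f.μ2 (u r) * (f.C1 (u r) * f.VT (u r))
      + f.Gp (u r) * (f.kE (u r) * f.UT (u r) + f.kk (u r) * f.WT (u r))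
      + f.Gm (u r) * (f.k1 (u r) * (f.b1 * u r + f.x3 (u r))
      + f.kE (u r) * (f.C4 (u r) * f.VT (u r)))) ≤ -(f.UT' (u r) * -mb r)
    unfold Yf.al Yf.ga Yf.b3 at this
    linarith

omit hZ hx in
/-- the adjoint functions -/
theorem Yf.Ok.rOk : (f.yr mb u).Ok (f.yk mb u) τ f.q dlt
    ((f.yk mb u).al (fun r => f.WT (u r)) (fun r => f.UT (u r)))
    ((f.yk mb u).ga f.q (fun r => f.VT (u r))) := by
  have um := hW.um
  have mb0 := hW.mb0
  have du := hW.du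
  have m0 : (0 : ℝ) ∈ Icc 0 τ := ⟨le_rfl, hW.τ1.1⟩
  have k1 : (1 : ℝ) ∈ Icc (0 : ℝ) 1 := ⟨zero_le_one, le_rfl⟩
  have μ10 : ∀ v ∈ Icc 0 f.U, 0 ≤ f.μ1 v := fun v hv => by
    have := hf.h1 1 k1 v hv; simpa using this
  have μ20 : ∀ v ∈ Icc 0 f.U, 0 ≤ f.μ2 v := fun v hv => by
    have := hf.h2 1 k1 v hv; simpa using this
  have μk0 : ∀ v ∈ Icc 0 f.U, 0 ≤ f.μk v := fun v hv => by
    have := hf.hk 1 k1 v hv; simpa using this
  have ex0 : ∀ v ∈ Icc 0 f.U, 0 ≤ f.ex v := fun v hv => by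
    have := hf.hx 1 k1 v hv
    simpa [Yf.rw] using this
  have kE0 : ∀ v ∈ Icc 0 f.U, 0 ≤ f.kE v := fun v hv =>
    (mul_nonneg (μ20 _ hv) (add_nonneg (ex0 _ hv) (μ10 _ hv))).trans (hf.qE _ hv)
  have kk0 : ∀ v ∈ Icc 0 f.U, 0 ≤ f.kk v := fun v hv =>
    (mul_nonneg (μk0 _ hv) (add_nonneg (ex0 _ hv) (μ10 _ hv))).trans (hf.qk _ hv)
  refine
    { dV := fun r hr => (hf.dgV _ (um r hr)).comp r (du r hr)
      dW := fun r hr => (hf.dgW _ (um r hr)).comp r (du r hr)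
      dw := fun r hr => (hf.dgw _ (um r hr)).comp r (du r hr)
      d1 := fun r hr => (hf.dg1 _ (um r hr)).comp r (du r hr)
      V0 := fun r hr => hf.gV0 _ (um r hr)
      W0 := fun r hr => hf.gW0 _ (um r hr)
      Wd := hf.gWd _ (um 0 m0)
      w0 := hf.gw0 _ (um 0 m0)
      g0 := hf.g10 _ (um 0 m0)
      α0 := fun r hr => ?_
      oV := fun r hr => ?_
      oW := fun r hr => ?_
      ow := fun r hr => ?_
      o1 := fun r hr => ?_ }
  · exact mul_nonneg (mb0 r hr) (add_nonneg (mul_nonneg (kE0 _ (um r hr)) (hf.UT0 _ (um r hr)))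
      (mul_nonneg (kk0 _ (um r hr)) (hf.WT0 _ (um r hr))))
  · have := mul_le_mul_of_nonneg_left (hf.ogV _ (um r hr)) (mb0 r hr)
    show mb r * f.AP (u r) * f.C4 (u r) * f.gV (u r)
      + (mb r * f.R (u r) * f.C1 (u r) + mb r * f.AM (u r) * f.C4 (u r)) * (1 + f.gW (u r))
      + f.C4 (u r) * (mb r * (f.kE (u r) * f.UT (u r) + f.kk (u r) * f.WT (u r)))
      ≤ -f.gV' (u r) * -mb r
    unfold Yf.al at this
    linarith
  · have := mul_le_mul_of_nonneg_left (hf.ogW _ (um r hr)) (mb0 r hr)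
    show (mb r * f.R (u r) + mb r * f.AM (u r)) * f.gV (u r)
      + mb r * f.AP (u r) * (1 + f.gW (u r))
      + mb r * (f.k1 (u r) * (f.b1 * u r + f.x3 (u r)) + f.kE (u r) * (f.C4 (u r) * f.VT (u r)))
      ≤ -f.gW' (u r) * -mb r
    unfold Yf.ga Yf.b3 at this
    linarith
  · have := mul_le_mul_of_nonneg_left (hf.ogw _ (um r hr)) (mb0 r hr)
    show mb r * f.AP (u r) * f.gV (u r) + mb r * f.AM (u r) * (1 + f.gW (u r))
      + mb r * f.R (u r) * f.gW (u r)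
      + mb r * (f.kE (u r) * f.UT (u r) + f.kk (u r) * f.WT (u r))
      ≤ -f.gw' (u r) * -mb r
    unfold Yf.al at this
    linarith
  · have := mul_le_mul_of_nonneg_left (hf.og1 _ (um r hr)) (mb0 r hr)
    show -(f.b1 * -mb r) * f.gw (u r) + f.x3 (u r) * (mb r * f.AP (u r) * f.gV (u r)
      + mb r * f.AM (u r) * (1 + f.gW (u r))
      + mb r * (f.kE (u r) * f.UT (u r) + f.kk (u r) * f.WT (u r)))
      ≤ -f.g1' (u r) * -mb r
    unfold Yf.al at this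
    linarith

end Pool.Agent.RX.RCN.K
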